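import Mathlib

/-! The parts of this file: H4.Singer.AdjId, H4.Singer.Defs, H4.Singer.ActBasic, H4.Singer.RankInt, H85.Fold.ModDefs, H85.Fold.TwDefs, S9.Defs. -/

section

/-!
# Singer project: the adjoint of the boundary operator
-/

set_option autoImplicit false
set_option linter.unusedSectionVars false

open Finset

namespace Pool.Agent.H4.Singer

lemma adjId_summable {Ω : Type} {f g : Ω → ℂ} (hf : Summable fun ω => ‖f ω‖ ^ 2)
    (hg : Summable fun ω => ‖g ω‖ ^ 2) : Summable fun ω => (starRingEnd ℂ) (f ω) * g ω := by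
  refine Summable.of_norm_bounded (hf.add hg) fun ω => ?_
  rw [norm_mul, RCLike.norm_conj]
  nlinarith [sq_nonneg (‖f ω‖ - ‖g ω‖), sq_nonneg ‖f ω‖, sq_nonneg ‖g ω‖]

lemma adjId_comp {Ω : Type} (e : Ω ≃ Ω) {f : Ω → ℂ} (hf : Summable fun ω => ‖f ω‖ ^ 2) :
    Summable fun ω => ‖f (e ω)‖ ^ 2 :=
  (e.summable_iff (f := fun ω => ‖f ω‖ ^ 2)).2 hf

lemma adjId_anti {Ω : Type} (e : Ω ≃ Ω) (he : ∀ ω, e (e ω) = ω) (f g : Ω → ℂ)
    (hg : ∀ ω, g (e ω) = - g ω) :
    ∑' ω, (starRingEnd ℂ) (f (e ω)) * g ω = - ∑' ω, (starRingEnd ℂ) (f ω) * g ω := by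
  rw [← e.tsum_eq (fun ω => (starRingEnd ℂ) (f (e ω)) * g ω), ← tsum_neg]
  refine tsum_congr fun ω => ?_
  rw [he, hg]
  ring

/-- Proof: exchange the sums: the pairs `(τ, v)` with `v ∉ τ` correspond to the pairs `(ρ, v)` with
`v ∈ ρ` (`ρ = insert v τ`); all series converge absolutely (products of square summable functions).
For fixed `ρ, v` the substitution `ω ↦ s v ω` and the antisymmetry of `c` give
`∑' conj (h' ω) (c ρ ω) = - ∑' conj (h' (s v ω)) (c ρ ω)` with `h' = h (ρ.erase v)`, so it is one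
half of `∑' conj (h' ω - h' (s v ω)) (c ρ ω)`. -/
theorem adj_identity {V Ω : Type} [Fintype V] [DecidableEq V] (s : V → Ω → Ω)
    (hs : ∀ v ω, s v (s v ω) = ω) (ν : V → ℕ) (h c : Finset V → Ω → ℂ)
    (hh : ∀ σ, Summable fun ω => ‖h σ ω‖ ^ 2) (hc : ∀ σ, Summable fun ω => ‖c σ ω‖ ^ 2)
    (hanti : ∀ ρ, ∀ v ∈ ρ, ∀ ω, c ρ (s v ω) = - c ρ ω) :
    ∑ τ : Finset V, ∑' ω, (starRingEnd ℂ) (h τ ω) *
        (∑ v ∈ τᶜ, (-1 : ℂ) ^ (τ.filter fun u => ν u < ν v).card * c (insert v τ) ω) =
      (1 / 2) * ∑ ρ : Finset V, ∑' ω, (starRingEnd ℂ)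
        (∑ v ∈ ρ, (-1 : ℂ) ^ ((ρ.erase v).filter fun u => ν u < ν v).card *
          (h (ρ.erase v) ω - h (ρ.erase v) (s v ω))) * c ρ ω := by
  let e : V → Ω ≃ Ω := fun v => (show Function.Involutive (s v) from hs v).toPerm
  have he : ∀ v ω, e v ω = s v ω := fun v ω => rfl
  -- the left hand side
  have h1 : ∀ τ : Finset V, ∑' ω, (starRingEnd ℂ) (h τ ω) *
        (∑ v ∈ τᶜ, (-1 : ℂ) ^ (τ.filter fun u => ν u < ν v).card * c (insert v τ) ω) =
      ∑ v ∈ τᶜ, (-1 : ℂ) ^ (τ.filter fun u => ν u < ν v).card *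
        ∑' ω, (starRingEnd ℂ) (h τ ω) * c (insert v τ) ω := by
    intro τ
    have e1 : ∀ ω, (starRingEnd ℂ) (h τ ω) *
        (∑ v ∈ τᶜ, (-1 : ℂ) ^ (τ.filter fun u => ν u < ν v).card * c (insert v τ) ω) =
        ∑ v ∈ τᶜ, (-1 : ℂ) ^ (τ.filter fun u => ν u < ν v).card *
          ((starRingEnd ℂ) (h τ ω) * c (insert v τ) ω) := by
      intro ω
      rw [Finset.mul_sum]
      exact Finset.sum_congr rfl fun v _ => by ring
    rw [tsum_congr e1, Summable.tsum_finsetSum fun v _ => (adjId_summable (hh τ) (hc _)).mul_left _]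
    exact Finset.sum_congr rfl fun v _ => tsum_mul_left
  -- the right hand side
  have h2 : ∀ ρ : Finset V, ∑' ω, (starRingEnd ℂ)
        (∑ v ∈ ρ, (-1 : ℂ) ^ ((ρ.erase v).filter fun u => ν u < ν v).card *
          (h (ρ.erase v) ω - h (ρ.erase v) (s v ω))) * c ρ ω =
      ∑ v ∈ ρ, (-1 : ℂ) ^ ((ρ.erase v).filter fun u => ν u < ν v).card *
        (2 * ∑' ω, (starRingEnd ℂ) (h (ρ.erase v) ω) * c ρ ω) := by
    intro ρ
    have e1 : ∀ ω, (starRingEnd ℂ)
        (∑ v ∈ ρ, (-1 : ℂ) ^ ((ρ.erase v).filter fun u => ν u < ν v).card *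
          (h (ρ.erase v) ω - h (ρ.erase v) (s v ω))) * c ρ ω =
        ∑ v ∈ ρ, (-1 : ℂ) ^ ((ρ.erase v).filter fun u => ν u < ν v).card *
          ((starRingEnd ℂ) (h (ρ.erase v) ω) * c ρ ω -
            (starRingEnd ℂ) (h (ρ.erase v) (e v ω)) * c ρ ω) := by
      intro ω
      rw [map_sum, Finset.sum_mul]
      refine Finset.sum_congr rfl fun v _ => ?_
      rw [map_mul, map_pow, map_neg, map_one, map_sub, he]
      ring
    have e2 : ∀ v ∈ ρ, Summable fun ω => (-1 : ℂ) ^ ((ρ.erase v).filter fun u => ν u < ν v).card *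
          ((starRingEnd ℂ) (h (ρ.erase v) ω) * c ρ ω -
            (starRingEnd ℂ) (h (ρ.erase v) (e v ω)) * c ρ ω) := fun v _ =>
      ((adjId_summable (hh _) (hc ρ)).sub
        (adjId_summable (adjId_comp (e v) (hh (ρ.erase v))) (hc ρ))).mul_left _
    rw [tsum_congr e1, Summable.tsum_finsetSum e2]
    refine Finset.sum_congr rfl fun v hv => ?_
    rw [tsum_mul_left, Summable.tsum_sub (adjId_summable (hh _) (hc ρ))
      (adjId_summable (adjId_comp (e v) (hh (ρ.erase v))) (hc ρ)),
      adjId_anti (e v) (hs v) (h (ρ.erase v)) (c ρ) (hanti ρ v hv)]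
    ring
  rw [Finset.sum_congr rfl fun τ _ => h1 τ, Finset.sum_congr rfl fun ρ _ => h2 ρ, Finset.mul_sum]
  simp only [Finset.mul_sum]
  rw [Finset.sum_sigma', Finset.sum_sigma']
  refine Finset.sum_bij' (fun p _ => ⟨insert p.2 p.1, p.2⟩) (fun p _ => ⟨p.1.erase p.2, p.2⟩)
    ?_ ?_ ?_ ?_ ?_
  · rintro ⟨τ, v⟩ hp
    simp
  · rintro ⟨ρ, v⟩ hp
    simp
  · rintro ⟨τ, v⟩ hp
    simp only [mem_sigma, mem_univ, mem_compl, true_and] at hp
    simp [Finset.erase_insert hp]
  · rintro ⟨ρ, v⟩ hp
    simp only [mem_sigma, mem_univ, true_and] at hp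
    simp [Finset.insert_erase hp]
  · rintro ⟨τ, v⟩ hp
    simp only [mem_sigma, mem_univ, mem_compl, true_and] at hp
    simp only [Finset.erase_insert hp]
    ring

end Pool.Agent.H4.Singer

end

section

/-!
# Singer project: common definitions
-/

set_option autoImplicit false

open Finset

namespace Pool.Agent.H4.Singer

/-! ## Coloured graphs -/

/-- a graph with properly coloured vertices -/
structure ColGraph (V C : Type) where
  /-- adjacency -/
  adj : V → V → Prop
  symm : ∀ u v, adj u v → adj v u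
  /-- the colour of a vertex -/
  col : V → C
  ne : ∀ u v, adj u v → col u ≠ col v

/-- cliques of a coloured graph -/
def ColGraph.Cl {V C : Type} (G : ColGraph V C) (σ : Finset V) : Prop :=
  ∀ u ∈ σ, ∀ v ∈ σ, u ≠ v → G.adj u v

/-! ## The generic level -/

section Generic

variable {V C : Type} [DecidableEq V] [Fintype V] [DecidableEq C] {R M : Type} [CommRing R]
  [AddCommGroup M] [Module R M]

/-- the weight `1` or `T v` -/
def wt (T : V → R) (v : V) (b : Bool) : R := if b then T v else 1

/-- the boundary with local coefficients (no signs, used in characteristic two) -/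
def bd (G : ColGraph V C) (T : V → R) (z : Finset V → (C → Bool) → M) (τ : Finset V)
    (a : C → Bool) : M :=
  ∑ v ∈ τᶜ, wt T v (a (G.col v)) • z (insert v τ) a

/-- chains of degree `j` of the clique complex of the induced subgraph on `U` -/
structure IsChain (G : ColGraph V C) (U : Finset V) (j : ℕ) (z : Finset V → (C → Bool) → M) :
    Prop where
  supp : ∀ σ a, z σ a ≠ 0 → σ ⊆ U ∧ G.Cl σ ∧ σ.card = j
  indep : ∀ σ a v b, v ∈ σ → z σ (Function.update a (G.col v) b) = z σ a

end Generic

/-! ## Stresses -/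

section Stress

variable {V : Type} [DecidableEq V] [Fintype V] {K : Type} [Field K]

end Stress

/-! ## Shellings and flags of faces of odd size -/

section Shell

variable {α : Type} [DecidableEq α]

end Shell

/-! ## Sets with an action of the right-angled Coxeter group -/

section Act

variable {V C : Type} [DecidableEq C]

/-- a set with commuting involutions (an action of the right-angled Coxeter group of the graph)
with an equivariant map to the cube `C → Bool` -/
structure InvAct (G : ColGraph V C) (Ω : Type) where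
  /-- the involutions -/
  s : V → Ω → Ω
  invol : ∀ v ω, s v (s v ω) = ω
  comm : ∀ u v, G.adj u v → ∀ ω, s u (s v ω) = s v (s u ω)
  /-- the map to the cube -/
  bit : Ω → C → Bool
  bit_s : ∀ v ω, bit (s v ω) = Function.update (bit ω) (G.col v) (!(bit ω (G.col v)))

variable [DecidableEq V] [Fintype V] {Ω : Type} (F : Type) [Field F]

/-- the incidence sign -/
def sg (ν : V → ℕ) (v : V) (τ : Finset V) : ℤ := (-1) ^ (τ.filter fun u => ν u < ν v).card

/-- antisymmetric chains -/
def Ch {G : ColGraph V C} (X : InvAct G Ω) (i : ℕ) : Submodule F (Finset V → Ω → F) where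
  carrier := {f | (∀ σ ω, f σ ω ≠ 0 → G.Cl σ ∧ σ.card = i) ∧
    ∀ σ, ∀ v ∈ σ, ∀ ω, f σ (X.s v ω) = - f σ ω}
  zero_mem' := by
    refine ⟨fun σ ω h => absurd rfl h, fun σ v _ ω => by simp⟩
  add_mem' := by
    rintro f g ⟨h1, h2⟩ ⟨h3, h4⟩
    refine ⟨fun σ ω h => ?_, fun σ v hv ω => ?_⟩
    · by_cases hf : f σ ω = 0
      · by_cases hg : g σ ω = 0
        · exact absurd (by simp [hf, hg]) h
        · exact h3 σ ω hg
      · exact h1 σ ω hf
    · simp only [Pi.add_apply]
      rw [h2 σ v hv ω, h4 σ v hv ω]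
      ring
  smul_mem' := by
    rintro c f ⟨h1, h2⟩
    refine ⟨fun σ ω h => h1 σ ω ?_, fun σ v hv ω => ?_⟩
    · intro h0
      exact h (by simp [h0])
    · simp only [Pi.smul_apply, smul_eq_mul]
      rw [h2 σ v hv ω]
      ring

/-- the boundary operator -/
def dl (ν : V → ℕ) : (Finset V → Ω → F) →ₗ[F] (Finset V → Ω → F) where
  toFun f τ ω := ∑ v ∈ τᶜ, (sg ν v τ : F) * f (insert v τ) ω
  map_add' f g := by
    funext τ ω
    simp [mul_add, Finset.sum_add_distrib]
  map_smul' c f := by
    funext τ ω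
    simp only [Pi.smul_apply, smul_eq_mul, RingHom.id_apply, Finset.mul_sum]
    exact Finset.sum_congr rfl fun v _ => by ring

/-- cycles -/
def Zc {G : ColGraph V C} (X : InvAct G Ω) (ν : V → ℕ) (i : ℕ) :
    Submodule F (Finset V → Ω → F) := Ch F X i ⊓ LinearMap.ker (dl F ν)

/-- boundaries -/
def Bc {G : ColGraph V C} (X : InvAct G Ω) (ν : V → ℕ) (i : ℕ) :
    Submodule F (Finset V → Ω → F) := (Ch F X (i + 1)).map (dl F ν)

/-- Betti numbers of a finite set with an action -/
noncomputable def bet {G : ColGraph V C} (X : InvAct G Ω) (ν : V → ℕ) (i : ℕ) : ℕ :=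
  Module.finrank F (Zc F X ν i) - Module.finrank F (Bc F X ν i)

end Act

/-! ## The finite sets `Ω_q` -/

section Om

variable {V C : Type} [DecidableEq C]

end Om

end Pool.Agent.H4.Singer

end

section

/-!
# Singer project: chain complexes of sets with an action
-/

set_option autoImplicit false
set_option linter.unusedSectionVars false

open Finset

namespace Pool.Agent.H4.Singer

variable {V C : Type} [DecidableEq V] [Fintype V] [DecidableEq C] {G : ColGraph V C} {Ω : Type}
  {F : Type} [Field F]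

theorem dl_apply (ν : V → ℕ) (f : Finset V → Ω → F) (τ : Finset V) (ω : Ω) :
    dl F ν f τ ω = ∑ v ∈ τᶜ, (sg ν v τ : F) * f (insert v τ) ω := rfl

theorem mem_Ch {X : InvAct G Ω} {i : ℕ} {f : Finset V → Ω → F} :
    f ∈ Ch F X i ↔ (∀ σ ω, f σ ω ≠ 0 → G.Cl σ ∧ σ.card = i) ∧
      ∀ σ, ∀ v ∈ σ, ∀ ω, f σ (X.s v ω) = - f σ ω := Iff.rfl

/-- the boundary of a chain is a chain -/
theorem dl_mem_Ch {X : InvAct G Ω} {i : ℕ} (ν : V → ℕ) {f : Finset V → Ω → F}
    (hf : f ∈ Ch F X (i + 1)) : dl F ν f ∈ Ch F X i := by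
  rw [mem_Ch] at hf ⊢
  obtain ⟨h1, h2⟩ := hf
  refine ⟨fun τ ω h => ?_, fun τ v hv ω => ?_⟩
  · rw [dl_apply] at h
    obtain ⟨u, hu, hne⟩ := Finset.exists_ne_zero_of_sum_ne_zero h
    rw [Finset.mem_compl] at hu
    obtain ⟨h3, h4⟩ := h1 _ _ (right_ne_zero_of_mul hne)
    refine ⟨fun a ha b hb hab => h3 a (mem_insert_of_mem ha) b (mem_insert_of_mem hb) hab, ?_⟩
    rw [Finset.card_insert_of_notMem hu] at h4
    omega
  · rw [dl_apply, dl_apply, ← Finset.sum_neg_distrib]
    refine Finset.sum_congr rfl fun u _ => ?_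
    rw [h2 (insert u τ) v (mem_insert_of_mem hv)]
    ring

/-- the incidence signs of the two ways to add two vertices are opposite -/
theorem sg_swap (ν : V → ℕ) (hν : Function.Injective ν) (u v : V) (huv : u ≠ v) (τ : Finset V)
    (hu : u ∉ τ) (hv : v ∉ τ) :
    sg ν v τ * sg ν u (insert v τ) = - (sg ν u τ * sg ν v (insert u τ)) := by
  have key : ∀ a b : V, a ≠ b → a ∉ τ → b ∉ τ → ν a < ν b →
      sg ν b τ * sg ν a (insert b τ) = - (sg ν a τ * sg ν b (insert a τ)) := by
    intro a b hab ha hb hlt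
    unfold sg
    rw [Finset.filter_insert, if_neg (by omega), Finset.filter_insert, if_pos hlt,
      Finset.card_insert_of_notMem (fun h => ha (Finset.mem_filter.1 h).1)]
    ring
  rcases lt_trichotomy (ν u) (ν v) with h | h | h
  · exact key u v huv hu hv h
  · exact absurd (hν h) huv
  · rw [key v u huv.symm hv hu h, neg_neg]

/-- `∂∂ = 0` -/
theorem dl_dl (ν : V → ℕ) (hν : Function.Injective ν) (f : Finset V → Ω → F) :
    dl F ν (dl F ν f) = 0 := by
  funext τ ω
  rw [dl_apply]
  simp only [dl_apply, Finset.mul_sum, Pi.zero_apply]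
  rw [Finset.sum_sigma']
  refine Finset.sum_involution (fun p _ => ⟨p.2, p.1⟩) ?_ ?_ ?_ ?_
  · rintro ⟨v, u⟩ h
    simp only [Finset.mem_sigma, Finset.mem_compl, Finset.mem_insert, not_or] at h
    simp only
    rw [Finset.insert_comm v u τ, ← mul_assoc, ← mul_assoc, ← add_mul, ← Int.cast_mul,
      ← Int.cast_mul, sg_swap ν hν u v h.2.1 τ h.2.2 h.1]
    push_cast
    ring
  · rintro ⟨v, u⟩ h _ heq
    simp only [Finset.mem_sigma, Finset.mem_compl, Finset.mem_insert, not_or] at h
    simp only [Sigma.mk.injEq, heq_eq_eq] at heq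
    exact h.2.1 heq.1
  · rintro ⟨v, u⟩ h
    simp only [Finset.mem_sigma, Finset.mem_compl, Finset.mem_insert, not_or] at h ⊢
    exact ⟨h.2.2, fun h1 => h.2.1 h1.symm, h.1⟩
  · rintro ⟨v, u⟩ _
    rfl

theorem Bc_le_Zc (X : InvAct G Ω) (ν : V → ℕ) (hν : Function.Injective ν) (i : ℕ) :
    Bc F X ν i ≤ Zc F X ν i := by
  rintro _ ⟨f, hf, rfl⟩
  exact ⟨dl_mem_Ch ν hf, dl_dl ν hν f⟩

instance [Fintype Ω] : Module.Finite F (Finset V → Ω → F) := inferInstance

theorem bet_add [Fintype Ω] (X : InvAct G Ω) (ν : V → ℕ) (hν : Function.Injective ν) (i : ℕ) :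
    bet F X ν i + Module.finrank F (Bc F X ν i) = Module.finrank F (Zc F X ν i) := by
  unfold bet
  have := Submodule.finrank_mono (Bc_le_Zc (F := F) X ν hν i)
  omega

end Pool.Agent.H4.Singer

end

section

/-!
# Singer project: ranks of integer matrices
-/

set_option autoImplicit false
set_option linter.unusedSectionVars false

open Finset

namespace Pool.Agent.H4.Singer

private theorem exists_minor {m n K : Type} [Fintype m] [Fintype n] [Field K] (A : Matrix m n K) :
    ∃ (r : Fin A.rank → m) (c : Fin A.rank → n), (A.submatrix r c).det ≠ 0 := by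
  classical
  have h1 : A.rank = Module.finrank K (Submodule.span K (Set.range A.row)) :=
    Matrix.rank_eq_finrank_span_row A
  obtain ⟨f, hf, -, hli⟩ := Submodule.exists_fun_fin_finrank_span_eq K (Set.range A.row)
  choose r0 hr0 using hf
  have hli' : LinearIndependent K (fun i : Fin A.rank => A (r0 (Fin.cast h1 i))) := by
    have h2 : (fun i : Fin A.rank => A (r0 (Fin.cast h1 i))) = f ∘ (Fin.cast h1) := by
      funext i
      exact hr0 _
    rw [h2]
    exact hli.comp _ (Fin.cast_injective h1)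
  set r : Fin A.rank → m := fun i => r0 (Fin.cast h1 i) with hr
  let B : Matrix (Fin A.rank) n K := A.submatrix r id
  have hB : B.rank = A.rank := by
    have := LinearIndependent.rank_matrix (M := B) hli'
    simpa using this
  have h3 : B.rank = Module.finrank K (Submodule.span K (Set.range B.col)) :=
    Matrix.rank_eq_finrank_span_cols B
  obtain ⟨g, hg, -, hgli⟩ := Submodule.exists_fun_fin_finrank_span_eq K (Set.range B.col)
  choose c0 hc0 using hg
  have h4 : A.rank = Module.finrank K (Submodule.span K (Set.range B.col)) := by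
    rw [← h3, hB]
  refine ⟨r, fun i => c0 (Fin.cast h4 i), ?_⟩
  have hli2 : LinearIndependent K (fun i : Fin A.rank => B.col (c0 (Fin.cast h4 i))) := by
    have h2 : (fun i : Fin A.rank => B.col (c0 (Fin.cast h4 i))) = g ∘ (Fin.cast h4) := by
      funext i
      exact hc0 _
    rw [h2]
    exact hgli.comp _ (Fin.cast_injective h4)
  have h5 : IsUnit (A.submatrix r fun i => c0 (Fin.cast h4 i)) := by
    rw [← Matrix.linearIndependent_cols_iff_isUnit]
    exact hli2
  exact ((Matrix.isUnit_iff_isUnit_det _).1 h5).ne_zero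

/-- the rank of an integer matrix over a field of characteristic zero is at least the rank over any
field (nonvanishing minors, or: integer vectors that are independent over `F` are independent over
`ℚ`) -/
theorem rank_int_le {m n : Type} [Fintype m] [Fintype n] (A : Matrix m n ℤ) (F : Type) [Field F] :
    (A.map (Int.cast : ℤ → F)).rank ≤ (A.map (Int.cast : ℤ → ℂ)).rank := by
  classical
  obtain ⟨r, c, hdet⟩ := exists_minor (A.map (Int.cast : ℤ → F))
  generalize (A.map (Int.cast : ℤ → F)).rank = k at r c hdet ⊢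
  have h1 : (((A.submatrix r c).det : ℤ) : F) ≠ 0 := by
    have : ((A.map (Int.cast : ℤ → F)).submatrix r c) =
        (Int.castRingHom F).mapMatrix (A.submatrix r c) := by
      ext i j
      simp
    rw [this, ← RingHom.map_det] at hdet
    simpa using hdet
  have h2 : (A.submatrix r c).det ≠ 0 := by
    intro h
    rw [h] at h1
    simp at h1
  have h3 : ((A.map (Int.cast : ℤ → ℂ)).submatrix r c).det ≠ 0 := by
    have : ((A.map (Int.cast : ℤ → ℂ)).submatrix r c) =
        (Int.castRingHom ℂ).mapMatrix (A.submatrix r c) := by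
      ext i j
      simp
    rw [this, ← RingHom.map_det]
    simpa using h2
  have h4 : LinearIndependent ℂ ((A.map (Int.cast : ℤ → ℂ)).submatrix r c).row := by
    rw [Matrix.linearIndependent_rows_iff_isUnit, Matrix.isUnit_iff_isUnit_det]
    exact isUnit_iff_ne_zero.2 h3
  have h5 : LinearIndependent ℂ (fun i => (A.map (Int.cast : ℤ → ℂ)).row (r i)) := by
    refine LinearIndependent.of_comp (LinearMap.funLeft ℂ ℂ c) ?_
    exact h4
  rw [Matrix.rank_eq_finrank_span_row]
  have h6 : Submodule.span ℂ (Set.range fun i => (A.map (Int.cast : ℤ → ℂ)).row (r i)) ≤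
      Submodule.span ℂ (Set.range (A.map (Int.cast : ℤ → ℂ)).row) := by
    refine Submodule.span_mono ?_
    rintro _ ⟨i, rfl⟩
    exact ⟨r i, rfl⟩
  have h7 := Submodule.finrank_mono h6
  rw [finrank_span_eq_card h5] at h7
  simpa using h7

end Pool.Agent.H4.Singer

end

section

/-!
# Project FOLD: twisted chains over arbitrary fields
-/

set_option autoImplicit false

open Finset

namespace Pool.Agent.H85.Fold

open Pool.Agent.H4.Singer (sg)

section

variable (K : Type) [Field K] {V D Ω : Type} [DecidableEq V] [Fintype V] [Fintype D]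
  [DecidableEq D]

/-- the boundary operator -/
def tdl (ν : V → ℕ) : (Finset V → Ω → D → K) →ₗ[K] (Finset V → Ω → D → K) where
  toFun f τ ω := ∑ v ∈ τᶜ, (sg ν v τ : K) • f (insert v τ) ω
  map_add' f g := by
    funext τ ω
    simp [smul_add, Finset.sum_add_distrib]
  map_smul' c f := by
    funext τ ω
    simp only [Pi.smul_apply, RingHom.id_apply, Finset.smul_sum]
    exact Finset.sum_congr rfl fun v _ => by rw [smul_comm]

end

end Pool.Agent.H85.Fold

end

section

/-!
# Project FOLD: twisted chains, real coefficients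
-/

set_option autoImplicit false

open Finset

namespace Pool.Agent.H85.Fold

section

variable {V : Type} [DecidableEq V] [Fintype V]

/-- a set with commuting involutions (an action of the right-angled Coxeter group) -/
structure IsAct (G : SimpleGraph V) {Ω : Type} (s : V → Ω → Ω) : Prop where
  inv : ∀ v ω, s v (s v ω) = ω
  comm : ∀ u v, G.Adj u v → ∀ ω, s u (s v ω) = s v (s u ω)

variable {S : Type} [AddCommGroup S] [Module ℝ S]

end

end Pool.Agent.H85.Fold

end

section

/-!
# Project S9 (note 4239): definitions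

Mod 2 homology growth of right-angled Coxeter groups in all degrees above the middle. `Rac G W`: `W` is the
right-angled Coxeter group of the finite graph `G`. All coefficients are modules over subgroups `Γ` of `W`; chains and
cochains of the Davis complex are the functions `c : Finset V → W → N`, `c A w` = the value on the cube of the type `A`
with the vertex `w`.
-/

set_option autoImplicit false
set_option linter.unusedSectionVars false

open Finset

namespace Pool.Agent.S9

variable {V : Type} [DecidableEq V] [Fintype V]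

/-- `W` with the generators `s v` is the right-angled Coxeter group of the graph `G` -/
structure Rac (G : SimpleGraph V) (W : Type) [Group W] where
  /-- the generators -/
  s : V → W
  sq : ∀ v, s v * s v = 1
  comm : ∀ u v, G.Adj u v → s u * s v = s v * s u
  gen : Subgroup.closure (Set.range s) = ⊤
  lift : ∀ (P : Type) [Group P] (g : V → P), (∀ v, g v * g v = 1) →
    (∀ u v, G.Adj u v → g u * g v = g v * g u) → ∃ f : W →* P, ∀ v, f (s v) = g v

section Grp

variable {G : SimpleGraph V} {W : Type} [Group W] (R : Rac G W)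

private theorem bh_ex : ∃ f : W →* Multiplicative (V → ZMod 2), ∀ v,
    f (R.s v) = Multiplicative.ofAdd (Pi.single v 1) := by
  refine R.lift _ _ (fun v => ?_) fun u v _ => mul_comm _ _
  rw [← ofAdd_add]
  have h : (Pi.single v 1 + Pi.single v 1 : V → ZMod 2) = 0 := by
    funext u
    rw [Pi.add_apply, Pi.zero_apply]
    exact CharTwo.add_self_eq_zero _
  rw [h]
  rfl

/-- the bits: the homomorphism to the cube -/
noncomputable def Rac.bh : W →* Multiplicative (V → ZMod 2) := (bh_ex R).choose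

/-- the parity of the letter `v` -/
noncomputable def Rac.b (w : W) (v : V) : ZMod 2 := Multiplicative.toAdd (R.bh w) v

theorem Rac.b_mul (w w' : W) (v : V) : R.b (w * w') v = R.b w v + R.b w' v := by
  unfold Rac.b
  rw [map_mul]
  rfl

theorem Rac.b_s (u v : V) : R.b (R.s u) v = if u = v then 1 else 0 := by
  unfold Rac.b Rac.bh
  rw [(bh_ex R).choose_spec u]
  show (Pi.single u 1 : V → ZMod 2) v = _
  rw [Pi.single_apply]
  by_cases h : u = v
  · rw [if_pos h, if_pos h.symm]
  · rw [if_neg h, if_neg fun h' => h h'.symm]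

theorem Rac.b_one (v : V) : R.b 1 v = 0 := by
  unfold Rac.b
  rw [map_one]
  rfl

private theorem r_ex (U : Finset V) : ∃ f : W →* W, ∀ v, f (R.s v) = if v ∈ U then R.s v else 1 := by
  refine R.lift W (fun v => if v ∈ U then R.s v else 1) (fun v => ?_) fun u v h => ?_
  · by_cases hv : v ∈ U
    · simp only [if_pos hv, R.sq]
    · simp only [if_neg hv, mul_one]
  · by_cases hu : u ∈ U <;> by_cases hv : v ∈ U <;> simp [hu, hv, R.comm u v h]

/-- the retraction onto the special subgroup of `U` -/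
noncomputable def Rac.r (U : Finset V) : W →* W := (r_ex R U).choose

theorem Rac.r_s (U : Finset V) (v : V) : R.r U (R.s v) = if v ∈ U then R.s v else 1 :=
  (r_ex R U).choose_spec v

/-- the special subgroup of `U` -/
def Rac.sub (U : Finset V) : Subgroup W := Subgroup.closure (R.s '' (U : Set V))

/-- a normal subgroup of finite index (a power of two), contained in the kernel of the bits and preserved by the
retractions -/
structure Lev (Γ : Subgroup W) : Prop where
  normal : Γ.Normal
  fin : Γ.FiniteIndex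
  two : ∀ w : W, ∃ k : ℕ, w ^ 2 ^ k ∈ Γ
  bits : ∀ g ∈ Γ, ∀ v, R.b g v = 0
  ret : ∀ U : Finset V, ∀ g ∈ Γ, R.r U g ∈ Γ

/-- the elements of `H` on which all homomorphisms to the integers have even values -/
def nxt (H : Subgroup W) : Subgroup W where
  carrier := {g | ∃ h : g ∈ H, ∀ f : H →* Multiplicative ℤ, Even (Multiplicative.toAdd (f ⟨g, h⟩))}
  mul_mem' := by
    rintro a b ⟨ha, ha'⟩ ⟨hb, hb'⟩
    refine ⟨H.mul_mem ha hb, fun f => ?_⟩
    have h : (⟨a * b, H.mul_mem ha hb⟩ : H) = ⟨a, ha⟩ * ⟨b, hb⟩ := rfl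
    rw [h, map_mul, toAdd_mul]
    exact (ha' f).add (hb' f)
  one_mem' := ⟨H.one_mem, fun f => by
    have h : (⟨1, H.one_mem⟩ : H) = 1 := rfl
    rw [h, map_one, toAdd_one]
    exact Even.zero⟩
  inv_mem' := by
    rintro a ⟨ha, ha'⟩
    refine ⟨H.inv_mem ha, fun f => ?_⟩
    have h : (⟨a⁻¹, H.inv_mem ha⟩ : H) = (⟨a, ha⟩ : H)⁻¹ := rfl
    rw [h, map_inv, toAdd_inv]
    exact (ha' f).neg

/-- **the tower**: `T 0` is the kernel of the bits, `T (m + 1)` is the subgroup of the elements of `T m` on which all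
homomorphisms `T m → ℤ` have even values -/
noncomputable def T : ℕ → Subgroup W
  | 0 => R.bh.ker
  | m + 1 => nxt (T m)

end Grp

section Mod

variable {K : Type} [Field K]

/-- **triangular modules with weights in `Λ`**: a filtration by submodules, on whose quotients `g` is the multiplication
with `lam g ∈ Λ` -/
def Tri (Λ : Subgroup Kˣ) {H : Type} [Group H] {N : Type} [AddCommGroup N] [Module K N]
    (ρ : H →* Module.End K N) : Prop :=
  ∃ (n : ℕ) (F : ℕ → Submodule K N), Monotone F ∧ F 0 = ⊥ ∧ F n = ⊤ ∧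
    ∀ j, ∃ lam : H →* Kˣ, (∀ g, lam g ∈ Λ) ∧ ∀ g, ∀ y ∈ F (j + 1), ρ g y - (lam g : K) • y ∈ F j

/-- the twist of `ρ` by the character `χ` -/
def tw {H : Type} [Group H] (χ : H →* Kˣ) {N : Type} [AddCommGroup N] [Module K N]
    (ρ : H →* Module.End K N) : H →* Module.End K N where
  toFun g := (χ g : K) • ρ g
  map_one' := by rw [map_one, map_one, Units.val_one, one_smul]
  map_mul' g h := by
    rw [map_mul, map_mul, Units.val_mul]
    refine LinearMap.ext fun y => ?_
    simp only [LinearMap.smul_apply, Module.End.mul_apply, map_smul, smul_smul]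
    rw [mul_comm]

/-- the one-dimensional module with the character `χ` -/
def ch {H : Type} [Group H] (χ : H →* Kˣ) : H →* Module.End K K := tw χ 1

/-- the weights of the coefficients: the squares of the values of `χ` -/
def sqr {H : Type} [Group H] (χ : H →* Kˣ) : Subgroup Kˣ :=
  Subgroup.closure (Set.range fun g => χ g ^ 2)

end Mod

section Cpx

variable {G : SimpleGraph V} {W : Type} [Group W] (R : Rac G W) {K : Type} [Field K]
  {N : Type} [AddCommGroup N] [Module K N] {N' : Type} [AddCommGroup N'] [Module K N']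

/-- **chains and cochains of degree `k`** of the Davis complex, equivariant under `Γ` -/
def Cc (Γ : Subgroup W) (ρ : Γ →* Module.End K N) (k : ℕ) : Submodule K (Finset V → W → N) where
  carrier := {c | (∀ A, c A ≠ 0 → G.IsClique (A : Set V) ∧ A.card = k) ∧
    (∀ A, ∀ v ∈ A, ∀ w, c A (w * R.s v) = c A w) ∧ ∀ A, ∀ g : Γ, ∀ w, c A (g * w) = ρ g (c A w)}
  zero_mem' := by
    refine ⟨fun A h => absurd rfl h, fun A v _ w => rfl, fun A g w => ?_⟩
    simp
  add_mem' := by
    rintro c d ⟨h1, h2, h3⟩ ⟨h4, h5, h6⟩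
    refine ⟨fun A h => ?_, fun A v hv w => ?_, fun A g w => ?_⟩
    · by_cases hz : c A = 0
      · by_cases hw : d A = 0
        · exact absurd (by rw [Pi.add_apply, hz, hw, add_zero]) h
        · exact h4 A hw
      · exact h1 A hz
    · simp only [Pi.add_apply]
      rw [h2 A v hv, h5 A v hv]
    · simp only [Pi.add_apply]
      rw [h3 A g, h6 A g, map_add]
  smul_mem' := by
    rintro a c ⟨h1, h2, h3⟩
    refine ⟨fun A h => h1 A fun h0 => h ?_, fun A v hv w => ?_, fun A g w => ?_⟩
    · rw [Pi.smul_apply, h0, smul_zero]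
    · simp only [Pi.smul_apply]
      rw [h2 A v hv]
    · simp only [Pi.smul_apply]
      rw [h3 A g, map_smul]

theorem mem_Cc {Γ : Subgroup W} {ρ : Γ →* Module.End K N} {k : ℕ} {c : Finset V → W → N} :
    c ∈ Cc R Γ ρ k ↔ (∀ A, c A ≠ 0 → G.IsClique (A : Set V) ∧ A.card = k) ∧
    (∀ A, ∀ v ∈ A, ∀ w, c A (w * R.s v) = c A w) ∧
      ∀ A, ∀ g : Γ, ∀ w, c A (g * w) = ρ g (c A w) := Iff.rfl

/-- the boundary of chains -/
def bd (K : Type) [Field K] {W : Type} {N : Type} [AddCommGroup N] [Module K N] :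
    (Finset V → W → N) →ₗ[K] (Finset V → W → N) where
  toFun c := fun A w => ∑ v ∈ Aᶜ, c (insert v A) w
  map_add' c d := by
    funext A w
    simp only [Pi.add_apply, sum_add_distrib]
  map_smul' a c := by
    funext A w
    simp only [Pi.smul_apply, RingHom.id_apply, smul_sum]

theorem bd_apply (c : Finset V → W → N) (A : Finset V) (w : W) :
    bd K c A w = ∑ v ∈ Aᶜ, c (insert v A) w := rfl

open Classical in
/-- the coboundary of cochains -/
noncomputable def cb (c : Finset V → W → N) : Finset V → W → N := fun A w =>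
  if G.IsClique (A : Set V) then ∑ v ∈ A, (c (A.erase v) w + c (A.erase v) (w * R.s v)) else 0

/-- cycles of degree `k` -/
def Zc (Γ : Subgroup W) (ρ : Γ →* Module.End K N) (k : ℕ) : Submodule K (Finset V → W → N) :=
  Cc R Γ ρ k ⊓ LinearMap.ker (bd K)

/-- boundaries in degree `k` -/
def Bc (Γ : Subgroup W) (ρ : Γ →* Module.End K N) (k : ℕ) : Submodule K (Finset V → W → N) :=
  (Cc R Γ ρ (k + 1)).map (bd K)

/-- the dimension of the homology -/
noncomputable def hh (Γ : Subgroup W) (ρ : Γ →* Module.End K N) (k : ℕ) : ℤ :=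
  (Module.finrank K (Zc R Γ ρ k) : ℤ) - Module.finrank K (Bc R Γ ρ k)

/-- **Lifting**: the cycle `z₀` with coefficients in `χ` lifts to `χ ⊗ ρ` for every triangular module `ρ` with weights
in the squares of `χ` and every invariant linear form `π ≠ 0` -/
def Lifts (Γ : Subgroup W) (χ : Γ →* Kˣ) (k : ℕ) (z₀ : Finset V → W → K) : Prop :=
  ∀ (N : Type) [AddCommGroup N] [Module K N] [FiniteDimensional K N] (ρ : Γ →* Module.End K N)
    (π : N →ₗ[K] K), Tri (sqr χ) ρ → Function.Surjective π → (∀ g y, π (ρ g y) = π y) →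
    ∃ z ∈ Zc R Γ (tw χ ρ) k, ∀ A w, π (z A w) = z₀ A w

/-- **Effaceability**: every cocycle of degree `k + 1` with coefficients in a triangular module becomes a coboundary in a
larger triangular module -/
def Eff (K : Type) [Field K] (Γ : Subgroup W) (Λ : Subgroup Kˣ) : Prop :=
  ∀ (k : ℕ) (E : Type) [AddCommGroup E] [Module K E] [FiniteDimensional K E]
    (ρ : Γ →* Module.End K E), Tri Λ ρ → ∀ x ∈ Cc R Γ ρ (k + 1), cb R x = 0 →
    ∃ (E' : Type) (_ : AddCommGroup E') (_ : Module K E') (_ : FiniteDimensional K E')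
      (ρ' : Γ →* Module.End K E') (ι : E →ₗ[K] E') (y : Finset V → W → E'),
      Tri Λ ρ' ∧ Function.Injective ι ∧ (∀ g e, ι (ρ g e) = ρ' g (ι e)) ∧ y ∈ Cc R Γ ρ' k ∧
        ∀ A w, cb R y A w = ι (x A w)

end Cpx

end Pool.Agent.S9

end
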