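import Mathlib

/-! The parts of this file: H37.TM.MDefs, H65.RM.Defs, S10.DuDefs, S10.DuMain. -/

section

/-!
# Project TM (top degree): homology manifolds

`Mfd K B n` = simplicial complexes `K` which are homology manifolds of dimension `n` over the field of two
elements, with boundary `B`; `Acyc K` = acyclic over the field of two elements; `MAct` = free actions.
-/

set_option autoImplicit false
set_option linter.unusedSectionVars false

open Finset Pointwise

namespace Pool.Agent.H37.TM

variable {U : Type} [DecidableEq U]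

/-- cochains of `K` relative to `B` on the simplices with `j` vertices which contain `s` -/
def Rel (K B : Set (Finset U)) (s : Finset U) (j : ℕ) (f : Finset U → ZMod 2) : Prop :=
  ∀ t, f t ≠ 0 → t ∈ K ∧ t ∉ B ∧ s ⊆ t ∧ t.card = j

/-- `f` is the coboundary of `g` in the star of `s` -/
def IsCob (K B : Set (Finset U)) (s : Finset U) (g f : Finset U → ZMod 2) : Prop :=
  ∀ t ∈ K, t ∉ B → s ⊆ t → ∑ v ∈ t \ s, g (t.erase v) = f t

/-- The simplicial complex `K` (a set of nonempty finite sets) is a homology manifold of dimension `n` over the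
field of two elements, with boundary `B`: the links of the simplices `s` relative to their links in `B` have the
cohomology of a sphere or of a ball relative to its boundary. -/
structure Mfd (K B : Set (Finset U)) (n : ℕ) : Prop where
  ne : ∀ s ∈ K, s.Nonempty
  down : ∀ s ∈ K, ∀ t, t ⊆ s → t.Nonempty → t ∈ K
  bd_sub : B ⊆ K
  bd_down : ∀ s ∈ B, ∀ t, t ⊆ s → t.Nonempty → t ∈ B
  locfin : ∀ s ∈ K, {t | t ∈ K ∧ s ⊆ t}.Finite
  card_le : ∀ s ∈ K, s.card ≤ n + 1
  top_ex : ∀ s ∈ K, ∃ t ∈ K, t ∉ B ∧ s ⊆ t ∧ t.card = n + 1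
  low : ∀ s ∈ K, ∀ j < n, ∀ f, Rel K B s (j + 1) f → IsCob K B s f 0 →
    ∃ g, Rel K B s j g ∧ IsCob K B s g f
  top : ∀ s ∈ K, ∀ f, Rel K B s (n + 1) f →
    (∑ᶠ t, f t = 0 ↔ ∃ g, Rel K B s n g ∧ IsCob K B s g f)

/-- the simplicial boundary (augmented) -/
noncomputable def bdS : (Finset U →₀ ZMod 2) →ₗ[ZMod 2] (Finset U →₀ ZMod 2) :=
  Finsupp.linearCombination (ZMod 2) fun s => ∑ v ∈ s, Finsupp.single (s.erase v) 1

/-- the augmented simplicial chain complex of `K` over the field of two elements is exact -/
def Acyc (K : Set (Finset U)) : Prop :=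
  ∀ f : Finset U →₀ ZMod 2, (∀ s, f s ≠ 0 → s ∈ K ∨ s = ∅) → bdS f = 0 →
    ∃ g : Finset U →₀ ZMod 2, (∀ s, g s ≠ 0 → s ∈ K) ∧ bdS g = f

/-- the augmented simplicial chain complex of `K` over the field of two elements is exact in the degrees less than
`d` (simplices with at most `d` vertices) -/
def AcycLt (K : Set (Finset U)) (d : ℕ) : Prop :=
  ∀ f : Finset U →₀ ZMod 2, (∀ s, f s ≠ 0 → (s ∈ K ∨ s = ∅) ∧ s.card ≤ d) → bdS f = 0 →
    ∃ g : Finset U →₀ ZMod 2, (∀ s, g s ≠ 0 → s ∈ K) ∧ bdS g = f

end Pool.Agent.H37.TM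

end

section

/-!
# Project RM: definitions

`PAct` = proper simplicial actions; `Inter` = systems of intersection numbers of the cubes of the complex with the
cubes `(g, s)` (`g` in the group `A`, `s` a clique of commuting elements `e w`).
-/

set_option autoImplicit false

open Finset Pointwise

namespace Pool.Agent.H65.RM

/-- a proper simplicial action of `A` on the simplicial complex `K` with the subcomplex `B`: the group permutes
the simplices, and for a vertex `u` of `K` only finitely many elements of the group move `u` to `w` -/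
structure PAct (A : Type) [Group A] {U : Type} [DecidableEq U] [MulAction A U]
    (K B : Set (Finset U)) : Prop where
  K_mem : ∀ (g : A) (s : Finset U), s ∈ K → g • s ∈ K
  B_mem : ∀ (g : A) (s : Finset U), s ∈ B → g • s ∈ B
  proper : ∀ u w : U, {u} ∈ K → {g : A | g • u = w}.Finite

end Pool.Agent.H65.RM

end

section

/-!
# Project S10D: duality pairs

`Dual K B mu n d`: `K` a locally finite simplicial complex, `B` a subcomplex, `mu` a cycle modulo two of dimension
`n` of `K` relative to `B` (infinite chains), such that the cohomology with compact supports of `(K, B)` is zero in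
the degrees `j` with `n - d < j < n`, and the evaluation at `mu` is an isomorphism from the cohomology in the
degree `n` onto the field of two elements. `K` may have any dimension.
-/

set_option autoImplicit false
set_option linter.unusedSectionVars false

open Finset Pointwise

namespace Pool.Agent.S10

open Pool.Agent.H37.TM

variable {U : Type} [DecidableEq U]

/-- duality pairs over the field of two elements -/
structure Dual (K B mu : Set (Finset U)) (n d : ℕ) : Prop where
  ne : ∀ s ∈ K, s.Nonempty
  down : ∀ s ∈ K, ∀ t, t ⊆ s → t.Nonempty → t ∈ K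
  bd_sub : B ⊆ K
  bd_down : ∀ s ∈ B, ∀ t, t ⊆ s → t.Nonempty → t ∈ B
  locfin : ∀ s ∈ K, {t | t ∈ K ∧ s ⊆ t}.Finite
  mu_sub : ∀ t ∈ mu, t ∈ K ∧ t ∉ B ∧ t.card = n + 1
  even : ∀ s ∈ K, s ∉ B → s.card = n → Even {t | t ∈ mu ∧ s ⊆ t}.ncard
  low : ∀ j < n, n < j + d → ∀ f : Finset U →₀ ZMod 2, Rel K B ∅ (j + 1) f → IsCob K B ∅ f 0 →
    ∃ g : Finset U →₀ ZMod 2, Rel K B ∅ j g ∧ IsCob K B ∅ g f
  top : ∀ f : Finset U →₀ ZMod 2, Rel K B ∅ (n + 1) f → IsCob K B ∅ f 0 → ∑ᶠ t ∈ mu, f t = 0 →
    ∃ g : Finset U →₀ ZMod 2, Rel K B ∅ n g ∧ IsCob K B ∅ g f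
  ex : ∃ f : Finset U →₀ ZMod 2, Rel K B ∅ (n + 1) f ∧ IsCob K B ∅ f 0 ∧ ∑ᶠ t ∈ mu, f t = 1

end Pool.Agent.S10

end

section

/-!
# Project S10D: virtually special groups which act on manifolds or on duality pairs
-/

set_option autoImplicit false
set_option linter.unusedSectionVars false

open Finset Pointwise

namespace Pool.Agent.S10

open Pool.Agent.H37.TM

/-- `M` is a homology manifold with boundary `B`, acyclic in the degrees less than `d`, or a duality pair with a cycle
which is invariant under the group `P` -/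
def ManOrDual (P : Type) [Group P] {U : Type} [DecidableEq U] [MulAction P U] (M B : Set (Finset U)) (n d : ℕ) : Prop :=
  (Mfd M B n ∧ AcycLt M d) ∨ ∃ mu, Dual M B mu n d ∧ ∀ (g : P) (s : Finset U), s ∈ mu → g • s ∈ mu

section

end

end Pool.Agent.S10

end
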