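import Mathlib

/-! The parts of this file: H19.Cub.Stmt, H4.Singer.TopDefs, H85.Fold.Defs. -/

section

/-!
# Project MC: cube complexes with labelled edges, universal covers, `ℓ²`-chains

Definitions used in the statement of the main theorem.
-/

set_option autoImplicit false

open Finset

namespace Pool.Agent.H19.Cub

/-- A cube complex with labelled edges: `X` is the set of vertices, the edges at the vertex `x` are
labelled by the elements of `lab x`, and `nb v x` is the other end of the edge at `x` with the label
`v`.  The edges with the labels `v ∈ σ ⊆ lab x` span a cube at `x` if and only if the labels in `σ` are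
pairwise adjacent in `graph`; opposite edges of a square have the same label. -/
structure CubeComplex (V X : Type) [DecidableEq V] where
  graph : SimpleGraph V
  lab : X → Finset V
  nb : V → X → X
  lab_nb : ∀ v x, v ∈ lab x → v ∈ lab (nb v x)
  nb_nb : ∀ v x, v ∈ lab x → nb v (nb v x) = x
  lab_adj : ∀ u v x, graph.Adj u v → u ∈ lab x → v ∈ lab x → u ∈ lab (nb v x)
  nb_comm : ∀ u v x, graph.Adj u v → u ∈ lab x → v ∈ lab x → nb u (nb v x) = nb v (nb u x)

variable {V X : Type} [DecidableEq V]

namespace CubeComplex

/-- the list `l` of labels is an edge path which starts at `x` -/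
def IsPath (C : CubeComplex V X) : X → List V → Prop
  | _, [] => True
  | x, v :: l => v ∈ C.lab x ∧ C.IsPath (C.nb v x) l

/-- the end of the path `l` which starts at `x` -/
def fin (C : CubeComplex V X) : X → List V → X
  | x, [] => x
  | x, v :: l => C.fin (C.nb v x) l

end CubeComplex

/-- elementary homotopies: an edge which is traversed back and forth is removed, or a path along two
sides of a square is replaced by the path along the other two sides -/
inductive Step (G : SimpleGraph V) : List V → List V → Prop
  | back (a b : List V) (v : V) : Step G (a ++ v :: v :: b) (a ++ b)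
  | square (a b : List V) (u v : V) (h : G.Adj u v) : Step G (a ++ u :: v :: b) (a ++ v :: u :: b)

namespace CubeComplex

/-- the vertices of the universal cover: homotopy classes of edge paths which start at `x` -/
def Cover (C : CubeComplex V X) (x : X) : Type :=
  Quot fun l l' : {l : List V // C.IsPath x l} => Step C.graph l.1 l'.1

theorem fin_append (C : CubeComplex V X) (x : X) (a b : List V) :
    C.fin x (a ++ b) = C.fin (C.fin x a) b := by
  induction a generalizing x with
  | nil => rfl
  | cons v a ih => exact ih (C.nb v x)

theorem isPath_append (C : CubeComplex V X) (x : X) (a b : List V) :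
    C.IsPath x (a ++ b) ↔ C.IsPath x a ∧ C.IsPath (C.fin x a) b := by
  induction a generalizing x with
  | nil => simp [IsPath, fin]
  | cons v a ih =>
    show (v ∈ C.lab x ∧ C.IsPath (C.nb v x) (a ++ b)) ↔
      (v ∈ C.lab x ∧ C.IsPath (C.nb v x) a) ∧ C.IsPath (C.fin (C.nb v x) a) b
    rw [ih, and_assoc]

theorem fin_step (C : CubeComplex V X) (x : X) {l l' : List V} (h : Step C.graph l l')
    (hl : C.IsPath x l) (hl' : C.IsPath x l') : C.fin x l = C.fin x l' := by
  cases h with
  | back a b v =>
    rw [isPath_append] at hl
    rw [fin_append, fin_append]
    obtain ⟨-, h1, -⟩ := hl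
    show C.fin (C.nb v (C.nb v (C.fin x a))) b = _
    rw [C.nb_nb v _ h1]
  | square a b u v h =>
    rw [isPath_append] at hl hl'
    rw [fin_append, fin_append]
    obtain ⟨-, h1, -, -⟩ := hl
    obtain ⟨-, h2, -, -⟩ := hl'
    show C.fin (C.nb v (C.nb u (C.fin x a))) b = C.fin (C.nb u (C.nb v (C.fin x a))) b
    rw [C.nb_comm u v _ h h1 h2]

/-- the covering projection -/
def proj (C : CubeComplex V X) (x : X) : C.Cover x → X :=
  Quot.lift (fun l => C.fin x l.1) fun l l' h => C.fin_step x h l.2 l'.2

end CubeComplex

/-! ### `ℓ²`-chains -/

end Pool.Agent.H19.Cub

end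

section

/-!
# Singer project: the statement

Right-angled Coxeter groups, the cellular `ℓ²`-chain complex of the (cubical) Davis complex, and the
vanishing of its reduced homology.
-/

set_option autoImplicit false

open Finset

namespace Pool.Agent.H4.Singer

open Classical in
/-- The Coxeter matrix of the right-angled Coxeter group of a graph: `m(v,v) = 1`, `m(u,v) = 2` if
`u, v` are adjacent and `m(u,v) = 0` (which means `∞`) otherwise. -/
noncomputable def racg {V : Type} (G : SimpleGraph V) : CoxeterMatrix V where
  M := Matrix.of fun u v => if u = v then 1 else if G.Adj u v then 2 else 0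
  isSymm := by
    ext u v
    simp only [Matrix.transpose_apply, Matrix.of_apply, G.adj_comm, eq_comm]
  diagonal := by
    intro v
    simp
  off_diagonal := by
    intro u v huv
    simp only [Matrix.of_apply, if_neg huv]
    split_ifs <;> norm_num

section

end

end Pool.Agent.H4.Singer

end

section

/-!
# Project FOLD: definitions

Chains of the clique complex of a graph with coefficients in the kernels of Clifford operators.
-/

set_option autoImplicit false

open Finset

namespace Pool.Agent.H85.Fold

section Basic

variable {V : Type} [DecidableEq V] [Fintype V]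

/-- cliques -/
def Cl (G : SimpleGraph V) (σ : Finset V) : Prop := ∀ u ∈ σ, ∀ v ∈ σ, u ≠ v → G.Adj u v

end Basic

end Pool.Agent.H85.Fold

end
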