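import Pool.Agent.H71.TSG.M02
import Pool.Agent.H71.TSG.M03

/-! The parts of this file: H19.Cub.Stmt_1, H37.TM.Lift, H37.TM.Tot, H4.Singer.TopDefs_1, H77.SW.Defs, H77.SX.Defs. -/

section

/-!
# Project MC: cube complexes with labelled edges, universal covers, `ℓ²`-chains

Definitions used in the statement of the main theorem.
-/

set_option autoImplicit false

open Finset

namespace Pool.Agent.H19.Cub

variable {V X : Type} [DecidableEq V]

namespace CubeComplex

end CubeComplex

namespace CubeComplex

omit [DecidableEq V] in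
theorem step_append {G : SimpleGraph V} {l l' : List V} (h : Step G l l') (m : List V) :
    Step G (l ++ m) (l' ++ m) := by
  cases h with
  | back a b v =>
    have h1 := Step.back (G := G) a (b ++ m) v
    simpa using h1
  | square a b u v h =>
    have h1 := Step.square (G := G) a (b ++ m) u v h
    simpa using h1

open Classical in
/-- the path `l` followed by the edge with the label `v` (if there is such an edge) -/
noncomputable def ext (C : CubeComplex V X) (x : X) (v : V) (l : {l : List V // C.IsPath x l}) :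
    {l : List V // C.IsPath x l} :=
  if h : v ∈ C.lab (C.fin x l.1) then
    ⟨l.1 ++ [v], (C.isPath_append x l.1 [v]).2 ⟨l.2, h, trivial⟩⟩
  else l

/-- the neighbour in the universal cover -/
noncomputable def nbc (C : CubeComplex V X) (x : X) (v : V) : C.Cover x → C.Cover x :=
  Quot.map (C.ext x v) fun l l' h => by
    have h1 := C.fin_step x h l.2 l'.2
    unfold ext
    by_cases h2 : v ∈ C.lab (C.fin x l.1)
    · rw [dif_pos h2, dif_pos (h1 ▸ h2)]
      exact step_append h [v]
    · rw [dif_neg h2, dif_neg (h1 ▸ h2)]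
      exact h

theorem nbc_mk (C : CubeComplex V X) (x : X) (v : V) (l : {l : List V // C.IsPath x l})
    (h : v ∈ C.lab (C.fin x l.1)) :
    C.nbc x v (Quot.mk _ l) =
      Quot.mk _ ⟨l.1 ++ [v], (C.isPath_append x l.1 [v]).2 ⟨l.2, h, trivial⟩⟩ := by
  show Quot.mk _ (C.ext x v l) = _
  unfold ext
  rw [dif_pos h]

/-- the universal cover, a cube complex with labelled edges -/
noncomputable def cover (C : CubeComplex V X) (x : X) : CubeComplex V (C.Cover x) where
  graph := C.graph
  lab c := C.lab (C.proj x c)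
  nb := C.nbc x
  lab_nb v c h := by
    induction c using Quot.ind with
    | mk l =>
      have h' : v ∈ C.lab (C.fin x l.1) := h
      rw [C.nbc_mk x v l h']
      show v ∈ C.lab (C.fin x (l.1 ++ [v]))
      rw [fin_append]
      exact C.lab_nb v _ h'
  nb_nb v c h := by
    induction c using Quot.ind with
    | mk l =>
      have h' : v ∈ C.lab (C.fin x l.1) := h
      rw [C.nbc_mk x v l h', C.nbc_mk x v _ (by
        show v ∈ C.lab (C.fin x (l.1 ++ [v]))
        rw [fin_append]
        exact C.lab_nb v _ h')]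
      apply Quot.sound
      have h1 := Step.back (G := C.graph) l.1 [] v
      simpa using h1
  lab_adj u v c huv hu hv := by
    induction c using Quot.ind with
    | mk l =>
      have hu' : u ∈ C.lab (C.fin x l.1) := hu
      have hv' : v ∈ C.lab (C.fin x l.1) := hv
      rw [C.nbc_mk x v l hv']
      show u ∈ C.lab (C.fin x (l.1 ++ [v]))
      rw [fin_append]
      exact C.lab_adj u v _ huv hu' hv'
  nb_comm u v c huv hu hv := by
    induction c using Quot.ind with
    | mk l =>
      have hu' : u ∈ C.lab (C.fin x l.1) := hu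
      have hv' : v ∈ C.lab (C.fin x l.1) := hv
      rw [C.nbc_mk x v l hv', C.nbc_mk x u l hu', C.nbc_mk x u _ (by
        show u ∈ C.lab (C.fin x (l.1 ++ [v]))
        rw [fin_append]
        exact C.lab_adj u v _ huv hu' hv'), C.nbc_mk x v _ (by
        show v ∈ C.lab (C.fin x (l.1 ++ [u]))
        rw [fin_append]
        exact C.lab_adj v u _ huv.symm hv' hu')]
      apply Quot.sound
      have h1 := Step.square (G := C.graph) l.1 [] v u huv.symm
      simpa using h1

end CubeComplex

/-! ### `ℓ²`-chains -/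

/-- `ℓ²`-chains of degree `i`: a cube is given by a vertex `x` and a set `σ` of `i` pairwise adjacent
labels at `x`; `f σ x` is the coefficient of this cube with the orientation determined by `x`; it
changes its sign if `x` is replaced by a neighbour in the cube. -/
structure IsL2Chain (C : CubeComplex V X) (i : ℕ) (f : Finset V → X → ℂ) : Prop where
  supp : ∀ σ x, f σ x ≠ 0 → σ ⊆ C.lab x ∧ C.graph.IsClique (σ : Set V) ∧ σ.card = i
  anti : ∀ σ x, σ ⊆ C.lab x → ∀ v ∈ σ, f σ (C.nb v x) = - f σ x
  l2 : ∀ σ, Summable fun x => ‖f σ x‖ ^ 2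

/-- the cellular boundary; the signs come from the order of the labels by `ν` -/
def bdry [Fintype V] (ν : V → ℕ) (f : Finset V → X → ℂ) (τ : Finset V) (x : X) : ℂ :=
  ∑ v ∈ τᶜ, (-1) ^ (τ.filter fun u => ν u < ν v).card * f (insert v τ) x

/-- The reduced `ℓ²`-homology of the cube complex vanishes in degree `i`: every `ℓ²`-cycle of degree
`i` is a limit of boundaries of `ℓ²`-chains. -/
def L2HomologyZero [Fintype V] (C : CubeComplex V X) (i : ℕ) : Prop :=
  ∀ ν : V → ℕ, Function.Injective ν → ∀ z, IsL2Chain C i z → bdry ν z = 0 → ∀ ε : ℝ, 0 < ε →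
    ∃ y, IsL2Chain C (i + 1) y ∧ ∑ σ, ∑' x, ‖z σ x - bdry ν y σ x‖ ^ 2 < ε

end Pool.Agent.H19.Cub

end

section

/-!
# Project TM: maps from a free complex to an exact complex
-/

set_option autoImplicit false
set_option linter.unusedSectionVars false

open Finset

namespace Pool.Agent.H37.TM

/-- the linear extension of a function on a basis -/
noncomputable def lin {A N : Type} [AddCommGroup N] [Module (ZMod 2) N] (F : A → N) :
    (A →₀ ZMod 2) →ₗ[ZMod 2] N := Finsupp.linearCombination (ZMod 2) F

theorem lin_single {A N : Type} [AddCommGroup N] [Module (ZMod 2) N] (F : A → N) (a : A) :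
    lin F (Finsupp.single a 1) = F a := by
  unfold lin
  rw [Finsupp.linearCombination_single, one_smul]

/-- Equivariant choice on an invariant set on which the group acts freely. -/
theorem exists_equivOn {G B M : Type*} [Group G] [MulAction G B] (S : Set B)
    (hS : ∀ (g : G), ∀ b ∈ S, g • b ∈ S)
    (hfree : ∀ b ∈ S, ∀ g : G, g • b = b → g = 1)
    (ρ : G → M → M) (hmul : ∀ g h m, ρ (g * h) m = ρ g (ρ h m))
    (P : B → M → Prop) (hP : ∀ g, ∀ b ∈ S, ∀ m, P b m → P (g • b) (ρ g m))
    (hex : ∀ b ∈ S, ∃ m, P b m) (m0 : M) :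
    ∃ f : B → M, (∀ g : G, ∀ b ∈ S, f (g • b) = ρ g (f b)) ∧ ∀ b ∈ S, P b (f b) := by
  classical
  let rep : B → B := fun b => Quotient.out (Quotient.mk (MulAction.orbitRel G B) b)
  have hrel : ∀ b, ∃ g : G, g • rep b = b := by
    intro b
    have h := Quotient.mk_out (s := MulAction.orbitRel G B) b
    have h2 : (MulAction.orbitRel G B).r (rep b) b := h
    rw [MulAction.orbitRel_apply] at h2
    obtain ⟨g, hg⟩ := h2
    exact ⟨g⁻¹, by rw [← hg]; simp⟩
  choose γ hγ using hrel
  have hrepS : ∀ b ∈ S, rep b ∈ S := by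
    intro b hb
    have : rep b = (γ b)⁻¹ • b := by
      rw [eq_inv_smul_iff]
      exact hγ b
    rw [this]
    exact hS _ b hb
  let m : B → M := fun b => if h : b ∈ S then (hex b h).choose else m0
  have hm : ∀ b ∈ S, P b (m b) := by
    intro b hb
    simp only [m, dif_pos hb]
    exact (hex b hb).choose_spec
  have hrepG : ∀ (g : G) (b : B), rep (g • b) = rep b := by
    intro g b
    have : (Quotient.mk (MulAction.orbitRel G B) (g • b)) =
        Quotient.mk (MulAction.orbitRel G B) b := by
      apply Quotient.sound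
      change (MulAction.orbitRel G B).r (g • b) b
      rw [MulAction.orbitRel_apply]
      exact ⟨g, rfl⟩
    simp only [rep, this]
  refine ⟨fun b => ρ (γ b) (m (rep b)), ?_, ?_⟩
  · intro g b hb
    have h1' : γ (g • b) = g * γ b := by
      have e1 : γ (g • b) • rep b = g • b := by
        have := hγ (g • b)
        rwa [hrepG] at this
      have e2 : (g * γ b) • rep b = g • b := by
        rw [mul_smul, hγ]
      have e3 : ((g * γ b)⁻¹ * γ (g • b)) • rep b = rep b := by
        rw [mul_smul, e1, ← e2, ← mul_smul, inv_mul_cancel, one_smul]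
      have e4 := hfree _ (hrepS b hb) _ e3
      have := eq_inv_of_mul_eq_one_right e4
      simpa using this
    change ρ (γ (g • b)) (m (rep (g • b))) = ρ g (ρ (γ b) (m (rep b)))
    rw [h1', hrepG, hmul]
  · intro b hb
    have := hP (γ b) (rep b) (hrepS b hb) (m (rep b)) (hm _ (hrepS b hb))
    rwa [hγ] at this

/-- Dependent sequences by choice. -/
theorem exists_seq {S : ℕ → Type*} (Rel : ∀ n, S n → S (n + 1) → Prop) (s0 : S 0)
    (step : ∀ n (s : S n), ∃ t : S (n + 1), Rel n s t) :
    ∃ s : ∀ n, S n, s 0 = s0 ∧ ∀ n, Rel n (s n) (s (n + 1)) := by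
  choose t ht using step
  exact ⟨fun n => Nat.rec s0 (fun n s => t n s) n, rfl, fun n => ht n _⟩

section
variable {A N : Type} [AddCommGroup N] [Module (ZMod 2) N]

/-- The linear extension depends only on the values on the support. -/
theorem lin_congr {f f' : A → N} {x : A →₀ ZMod 2} (h : ∀ c, x c ≠ 0 → f' c = f c) :
    lin f' x = lin f x := by
  unfold lin
  rw [Finsupp.linearCombination_apply, Finsupp.linearCombination_apply]
  exact Finsupp.sum_congr fun c hc => by rw [h c (Finsupp.mem_support_iff.1 hc)]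

/-- The linear extension lies in a submodule. -/
theorem lin_mem {f : A → N} {x : A →₀ ZMod 2} {L : Submodule (ZMod 2) N}
    (h : ∀ c, x c ≠ 0 → f c ∈ L) : lin f x ∈ L := by
  unfold lin
  rw [Finsupp.linearCombination_apply]
  exact L.sum_mem fun c hc => L.smul_mem _ (h c (Finsupp.mem_support_iff.1 hc))

/-- A linear map of a linear extension. -/
theorem map_lin {N' : Type} [AddCommGroup N'] [Module (ZMod 2) N'] (u : N →ₗ[ZMod 2] N')
    {f : A → N} {x : A →₀ ZMod 2} : u (lin f x) = lin (fun c => u (f c)) x := by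
  unfold lin
  simp only [Finsupp.linearCombination_apply, Finsupp.sum, map_sum, map_smul]

/-- The linear extension of `lin f o e` is `lin f (lin e)`. -/
theorem lin_lin {B : Type} {f : B → N} {e : A → (B →₀ ZMod 2)} {x : A →₀ ZMod 2} :
    lin (fun c => lin f (e c)) x = lin f (lin e x) :=
  (map_lin (lin f)).symm

/-- Additivity in the function. -/
theorem lin_add {f g : A → N} {x : A →₀ ZMod 2} :
    lin (fun c => f c + g c) x = lin f x + lin g x := by
  unfold lin
  simp only [Finsupp.linearCombination_apply, Finsupp.sum, smul_add, Finset.sum_add_distrib]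

/-- The linear extension of a function which is equivariant on the support. -/
theorem lin_smul {Γ : Type} [Group Γ] [MulAction Γ A] (ρ : Γ →* (N →ₗ[ZMod 2] N)) {f : A → N}
    {x : A →₀ ZMod 2} (g : Γ) (hf : ∀ c, x c ≠ 0 → f (g • c) = ρ g (f c)) :
    lin f (x.mapDomain (g • ·)) = ρ g (lin f x) := by
  rw [map_lin]
  unfold lin
  rw [Finsupp.linearCombination_mapDomain]
  exact lin_congr hf

/-- Twice anything is zero. -/
theorem add_self_mod (x : N) : x + x = 0 := by
  have h : (2 : ZMod 2) • x = 0 := by
    have : (2 : ZMod 2) = 0 := by decide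
    rw [this, zero_smul]
  rwa [two_smul] at h

end

/-- **The lifting lemma.** The source is a complex with the basis `A` (cells of index `i`: `cell i`; on the cells
the group `Γ` acts freely; the boundary is `bd`), the target `N` an exact complex with the action `ρ`, `F` an
equivariant chain map. Then `F` is homotopic to zero: `d (H a) = F a + H (bd a)`. (Induction on `i`; choose
representatives of the orbits. `F a + H (bd a)` is a cycle. The same lemma gives the existence of chain maps: the
source is not augmented, the target is, and `F` is the augmentation.) -/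
theorem lift_free {Γ A N : Type} [Group Γ] [MulAction Γ A] [AddCommGroup N] [Module (ZMod 2) N]
    (cell : ℕ → Set A) (hcell : ∀ i, ∀ g : Γ, ∀ a ∈ cell i, g • a ∈ cell i)
    (hdisj : ∀ i j, ∀ a ∈ cell i, a ∈ cell j → i = j)
    (hfree : ∀ i, ∀ a ∈ cell i, ∀ g : Γ, g • a = a → g = 1)
    (bd : A → (A →₀ ZMod 2)) (hbd : ∀ i, ∀ a ∈ cell (i + 1), ∀ b, bd a b ≠ 0 → b ∈ cell i)
    (hbd0 : ∀ a ∈ cell 0, bd a = 0)
    (hbdg : ∀ i, ∀ g : Γ, ∀ a ∈ cell i, bd (g • a) = (bd a).mapDomain (g • ·))
    (hbd2 : ∀ i, ∀ a ∈ cell i, lin bd (bd a) = 0)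
    (ρ : Γ →* (N →ₗ[ZMod 2] N)) (d : N →ₗ[ZMod 2] N) (hd : ∀ g x, d (ρ g x) = ρ g (d x))
    (M : ℕ → Submodule (ZMod 2) N) (hM : ∀ i g, ∀ x ∈ M i, ρ g x ∈ M i)
    (hex : ∀ i, (∃ a, a ∈ cell i) → ∀ x ∈ M i, d x = 0 → ∃ y ∈ M (i + 1), d y = x)
    (F : A → N) (hF : ∀ i, ∀ a ∈ cell i, F a ∈ M i)
    (hFg : ∀ i, ∀ g : Γ, ∀ a ∈ cell i, F (g • a) = ρ g (F a))
    (hFd : ∀ i, ∀ a ∈ cell i, d (F a) = lin F (bd a)) :
    ∃ H : A → N, (∀ i, ∀ a ∈ cell i, H a ∈ M (i + 1)) ∧
      (∀ i, ∀ g : Γ, ∀ a ∈ cell i, H (g • a) = ρ g (H a)) ∧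
      ∀ i, ∀ a ∈ cell i, d (H a) = F a + lin H (bd a) := by
  classical
  let S : ℕ → Type := fun i => {h : A → N // (∀ a ∈ cell i, h a ∈ M (i + 1)) ∧
    (∀ g : Γ, ∀ a ∈ cell i, h (g • a) = ρ g (h a)) ∧
    ∀ b ∈ cell (i + 1), d (F b + lin h (bd b)) = 0}
  let Rel : ∀ i, S i → S (i + 1) → Prop := fun i s t =>
    ∀ b ∈ cell (i + 1), d (t.1 b) = F b + lin s.1 (bd b)
  have key : ∀ i (t e : A → N), (∀ c ∈ cell i, d (t c) = F c + e c) →
      (∀ b ∈ cell (i + 1), lin e (bd b) = 0) →
      ∀ b ∈ cell (i + 1), d (F b + lin t (bd b)) = 0 := by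
    intro i t e ht he b hb
    rw [map_add, hFd (i + 1) b hb, map_lin,
      lin_congr (f' := fun c => d (t c)) (f := fun c => F c + e c)
        (fun c hc => ht c (hbd i b hb c hc)), lin_add, he b hb, add_zero]
    exact add_self_mod _
  have step : ∀ i (s : S i), ∃ t : S (i + 1), Rel i s t := by
    rintro i ⟨h, hmem, hG, hz⟩
    obtain ⟨t, htG, ht⟩ := exists_equivOn (M := N) (cell (i + 1)) (hcell (i + 1))
      (hfree (i + 1)) (fun g x => ρ g x) (fun g h x => by simp)
      (fun b m => m ∈ M (i + 1 + 1) ∧ d m = F b + lin h (bd b))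
      (fun g b hb m hm => by
        refine ⟨hM _ g m hm.1, ?_⟩
        rw [hd, hm.2, map_add, hFg (i + 1) g b hb, hbdg (i + 1) g b hb,
          lin_smul ρ g (fun c hc => hG g c (hbd i b hb c hc))])
      (fun b hb => by
        obtain ⟨y, hy, hy'⟩ := hex (i + 1) ⟨b, hb⟩ (F b + lin h (bd b))
          (Submodule.add_mem _ (hF (i + 1) b hb)
            (lin_mem fun c hc => hmem c (hbd i b hb c hc))) (hz b hb)
        exact ⟨y, hy, hy'⟩) 0
    refine ⟨⟨t, fun a ha => (ht a ha).1, htG, ?_⟩, fun b hb => (ht b hb).2⟩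
    refine key (i + 1) t (fun c => lin h (bd c)) (fun c hc => (ht c hc).2) (fun b hb => ?_)
    rw [lin_lin, hbd2 _ b hb, map_zero]
  obtain ⟨t0, ht0G, ht0⟩ := exists_equivOn (M := N) (cell 0) (hcell 0)
      (hfree 0) (fun g x => ρ g x) (fun g h x => by simp)
      (fun b m => m ∈ M 1 ∧ d m = F b)
      (fun g b hb m hm => by
        refine ⟨hM _ g m hm.1, ?_⟩
        rw [hd, hm.2, hFg 0 g b hb])
      (fun b hb => by
        obtain ⟨y, hy, hy'⟩ := hex 0 ⟨b, hb⟩ (F b) (hF 0 b hb) (by
          rw [hFd 0 b hb, hbd0 b hb, map_zero])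
        exact ⟨y, hy, hy'⟩) 0
  obtain ⟨s, hs0, hs⟩ := exists_seq Rel ⟨t0, fun a ha => (ht0 a ha).1, ht0G,
    key 0 t0 (fun _ => 0) (fun c hc => by rw [(ht0 c hc).2, add_zero]) (fun b hb => by
      unfold lin
      simp [Finsupp.linearCombination_apply])⟩ step
  -- the index of a cell
  let ix : A → ℕ := fun a => if h : ∃ i, a ∈ cell i then h.choose else 0
  have hix : ∀ i, ∀ a ∈ cell i, ix a = i := by
    intro i a ha
    have h : ∃ i, a ∈ cell i := ⟨i, ha⟩
    simp only [ix, dif_pos h]
    exact hdisj _ _ a h.choose_spec ha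
  refine ⟨fun a => (s (ix a)).1 a, fun i a ha => ?_, fun i g a ha => ?_, fun i a ha => ?_⟩
  · change (s (ix a)).1 a ∈ _
    rw [hix i a ha]
    exact (s i).2.1 a ha
  · change (s (ix (g • a))).1 (g • a) = ρ g ((s (ix a)).1 a)
    rw [hix i a ha, hix i _ (hcell i g a ha)]
    exact (s i).2.2.1 g a ha
  · cases i with
    | zero =>
      rw [hbd0 a ha, map_zero, add_zero]
      change d ((s (ix a)).1 a) = _
      rw [hix 0 a ha, hs0]
      exact (ht0 a ha).2
    | succ i =>
      change d ((s (ix a)).1 a) = _
      rw [hix _ a ha, hs i a ha]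
      congr 1
      symm
      apply lin_congr
      intro c hc
      rw [hix i c (hbd i a ha c hc)]

end Pool.Agent.H37.TM

end

section

/-!
# Project TM: the double complex of pairs

`E = Finset U × Finset U`; a cell of index `m + 1` is a pair `(σ, τ)` with `∅ ≠ σ ⊆ τ`, `τ` in `K` but not in
`B`, `|σ| + n = |τ| + m`; the only cell of index `0` is `(∅, ∅)` (augmentation). The boundary lowers `σ` and
raises `τ`.
-/

set_option autoImplicit false
set_option linter.unusedSectionVars false

open Finset Pointwise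

namespace Pool.Agent.H37.TM

variable {U : Type} [DecidableEq U]

open Classical in
/-- the cofaces of `t` with `j` vertices -/
noncomputable def cofs (K : Set (Finset U)) (t : Finset U) (j : ℕ) : Finset (Finset U) :=
  if h : {t' | t' ∈ K ∧ t ⊆ t' ∧ t'.card = j}.Finite then h.toFinset else ∅

theorem mem_cofs {K B : Set (Finset U)} {n : ℕ} (hM : Mfd K B n) {t : Finset U} (ht : t ∈ K)
    {j : ℕ} {t' : Finset U} : t' ∈ cofs K t j ↔ t' ∈ K ∧ t ⊆ t' ∧ t'.card = j := by
  have h : {t' | t' ∈ K ∧ t ⊆ t' ∧ t'.card = j}.Finite :=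
    (hM.locfin t ht).subset fun t' h => ⟨h.1, h.2.1⟩
  unfold cofs
  rw [dif_pos h, Set.Finite.mem_toFinset]
  rfl

/-- the boundary of the cell `(σ, τ)` -/
noncomputable def bdE (K : Set (Finset U)) (n : ℕ) (e : Finset U × Finset U) :
    Finset U × Finset U →₀ ZMod 2 :=
  if e.1 = ∅ then 0 else
    (if e.1.card = 1 then (if e.2.card = n + 1 then Finsupp.single (∅, ∅) 1 else 0)
      else ∑ v ∈ e.1, Finsupp.single (e.1.erase v, e.2) 1) +
    ∑ t ∈ cofs K e.2 (e.2.card + 1), Finsupp.single (e.1, t) 1

/-- the cells of index `i` -/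
def TCell (K B : Set (Finset U)) (n : ℕ) : ℕ → Set (Finset U × Finset U)
  | 0 => {(∅, ∅)}
  | m + 1 => {e | e.1.Nonempty ∧ e.1 ⊆ e.2 ∧ e.2 ∈ K ∧ e.2 ∉ B ∧ e.1.card + n = e.2.card + m}

end Pool.Agent.H37.TM

end

section

/-!
# Singer project: the statement

Right-angled Coxeter groups, the cellular `ℓ²`-chain complex of the (cubical) Davis complex, and the
vanishing of its reduced homology.
-/

set_option autoImplicit false

open Finset

namespace Pool.Agent.H4.Singer

/-- the right-angled Coxeter group of a graph -/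
abbrev RGrp {V : Type} (G : SimpleGraph V) : Type := (racg G).Group

/-- the standard generators -/
noncomputable def gen {V : Type} (G : SimpleGraph V) (v : V) : RGrp G := (racg G).simple v

section

variable {V : Type} [Fintype V] [DecidableEq V]

/-- Cellular `ℓ²`-chains of degree `i` of the Davis complex of the right-angled Coxeter group `W` of
`G`. The cubes of dimension `i` are the cosets `w W_σ`, `σ` a clique with `i` vertices; `f σ w` is
the coefficient of the cube `w W_σ` with the orientation given by the numbering of `σ` at the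
vertex `w`; passing from the vertex `w` to the vertex `w v` (`v ∈ σ`) reverses the orientation. -/
structure IsL2Chain (G : SimpleGraph V) (i : ℕ) (f : Finset V → RGrp G → ℂ) : Prop where
  supp : ∀ σ w, f σ w ≠ 0 → G.IsClique (σ : Set V) ∧ σ.card = i
  anti : ∀ σ, ∀ v ∈ σ, ∀ w, f σ (w * gen G v) = - f σ w
  l2 : ∀ σ, Summable fun w => ‖f σ w‖ ^ 2

/-- The cellular boundary operator: the cubes with face `w W_τ` are the `w W_{τ ∪ v}`; the incidence
sign is `(-1)` to the number of elements of `τ` that come before `v` in the numbering `ν`. -/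
noncomputable def dbd {G : SimpleGraph V} (ν : V → ℕ) (f : Finset V → RGrp G → ℂ) :
    Finset V → RGrp G → ℂ :=
  fun τ w => ∑ v ∈ τᶜ, (-1) ^ (τ.filter fun u => ν u < ν v).card * f (insert v τ) w

/-- The reduced `ℓ²`-homology of the Davis complex vanishes in degree `i`: every `ℓ²`-cycle is an
`ℓ²`-limit of boundaries of `ℓ²`-chains. -/
def L2HomologyZero (G : SimpleGraph V) (i : ℕ) : Prop :=
  ∀ ν : V → ℕ, Function.Injective ν → ∀ z : Finset V → RGrp G → ℂ, IsL2Chain G i z →
    dbd ν z = 0 → ∀ ε : ℝ, 0 < ε → ∃ y : Finset V → RGrp G → ℂ, IsL2Chain G (i + 1) y ∧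
      ∑ σ, ∑' w, ‖z σ w - dbd ν y σ w‖ ^ 2 < ε

end

end Pool.Agent.H4.Singer

end

section

/-!
# Singer without colours: definitions

`Zs` = cycles of top degree with coefficients in a vector space with involutions; `PG` = finite groups
with marked involutions; the extension module `rE`.
-/

set_option autoImplicit false
set_option linter.unusedSectionVars false

open Finset

namespace Pool.Agent.H77.SW

variable {V : Type} [DecidableEq V] [Fintype V]

/-- cycles of degree `n` (`n` = number of vertices of the facets) with coefficients in `Y` -/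
def Zs (K : Type) [Field K] (G : SimpleGraph V) (n : ℕ) {Y : Type} [AddCommGroup Y] [Module K Y]
    (r : V → Y →ₗ[K] Y) : Submodule K (Finset V → Y) where
  carrier := {z | (∀ σ, z σ ≠ 0 → G.IsClique (σ : Set V) ∧ σ.card = n) ∧
    (∀ σ, ∀ v ∈ σ, r v (z σ) = z σ) ∧ ∀ κ, ∑ v ∈ κᶜ, z (insert v κ) = 0}
  zero_mem' := by
    refine ⟨fun σ h => absurd rfl h, fun σ v _ => ?_, fun κ => ?_⟩
    · simp
    · simp
  add_mem' := by
    rintro z w ⟨h1, h2, h3⟩ ⟨h4, h5, h6⟩
    refine ⟨fun σ h => ?_, fun σ v hv => ?_, fun κ => ?_⟩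
    · by_cases hz : z σ = 0
      · by_cases hw : w σ = 0
        · exact absurd (by simp [hz, hw]) h
        · exact h4 σ hw
      · exact h1 σ hz
    · rw [Pi.add_apply, map_add, h2 σ v hv, h5 σ v hv]
    · simp only [Pi.add_apply, sum_add_distrib, h3 κ, h6 κ, add_zero]
  smul_mem' := by
    rintro c z ⟨h1, h2, h3⟩
    refine ⟨fun σ h => h1 σ fun h0 => h ?_, fun σ v hv => ?_, fun κ => ?_⟩
    · rw [Pi.smul_apply, h0, smul_zero]
    · rw [Pi.smul_apply, map_smul, h2 σ v hv]
    · simp only [Pi.smul_apply, ← smul_sum, h3 κ, smul_zero]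

theorem mem_Zs {K : Type} [Field K] {G : SimpleGraph V} {n : ℕ} {Y : Type} [AddCommGroup Y]
    [Module K Y] {r : V → Y →ₗ[K] Y} {z : Finset V → Y} : z ∈ Zs K G n r ↔
      (∀ σ, z σ ≠ 0 → G.IsClique (σ : Set V) ∧ σ.card = n) ∧
      (∀ σ, ∀ v ∈ σ, r v (z σ) = z σ) ∧ ∀ κ, ∑ v ∈ κᶜ, z (insert v κ) = 0 := Iff.rfl

/-- a two-group `P` with marked involutions `g v`, which commute for the edges `u v`, and a
homomorphism `b` to the cube -/
structure PG (G : SimpleGraph V) (P : Type) [Group P] where
  /-- the involutions -/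
  g : V → P
  sq : ∀ v, g v * g v = 1
  comm : ∀ u v, G.Adj u v → g u * g v = g v * g u
  /-- the homomorphism to the cube -/
  b : P → V → ZMod 2
  b_mul : ∀ p q v, b (p * q) v = b p v + b q v
  b_g : ∀ u v, b (g u) v = if u = v then 1 else 0
  two : IsPGroup 2 P

/-- the regular representation: `(r v f) p = f (p * g v)` -/
def rP (K : Type) [Field K] {G : SimpleGraph V} {P : Type} [Group P] (D : PG G P) (v : V) :
    (P → K) →ₗ[K] (P → K) where
  toFun f p := f (p * D.g v)
  map_add' _ _ := rfl
  map_smul' _ _ := rfl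

/-- the dimension of the space of cycles with coefficients in the regular representation -/
noncomputable def dz (K : Type) [Field K] {G : SimpleGraph V} (n : ℕ) {P : Type} [Group P]
    (D : PG G P) : ℕ := Module.finrank K (Zs K G n (rP K D))

/-- the cycles whose component at `σ` vanishes -/
def Z0 (K : Type) [Field K] {G : SimpleGraph V} (n : ℕ) {P : Type} [Group P] (D : PG G P)
    (σ : Finset V) : Submodule K (Finset V → P → K) :=
  Zs K G n (rP K D) ⊓ LinearMap.ker (LinearMap.proj (R := K) (φ := fun _ : Finset V => P → K) σ)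

/-- the subgroups generated by subsets of the generators intersect well -/
def Good {G : SimpleGraph V} {P : Type} [Group P] (D : PG G P) : Prop :=
  ∀ S T : Set V, Subgroup.closure (D.g '' S) ⊓ Subgroup.closure (D.g '' T) ≤
    Subgroup.closure (D.g '' (S ∩ T))

/-- the extension module: functions of `(A, p)`, `A` a set of vertices. The vertices in `s` act by
`(r v f) (A, p) = f (A, p g v) + [v ∈ A] t v p f (A - v, p g v)`, the others by
`f (A, p g v)`. -/
def rE {K : Type} [Field K] {G : SimpleGraph V} {P : Type} [Group P] (D : PG G P)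
    (s : Finset V) (t : V → P → K) (v : V) :
    (Finset V × P → K) →ₗ[K] (Finset V × P → K) where
  toFun f x := f (x.1, x.2 * D.g v) +
    if v ∈ s ∧ v ∈ x.1 then t v x.2 * f (x.1.erase v, x.2 * D.g v) else 0
  map_add' f f' := by
    funext x
    simp only [Pi.add_apply]
    split_ifs <;> ring
  map_smul' c f := by
    funext x
    simp only [Pi.smul_apply, smul_eq_mul, RingHom.id_apply]
    split_ifs <;> ring

/-- the functions `t v` are constant along the cosets of the stars -/
def StarInv {K : Type} {G : SimpleGraph V} {P : Type} [Group P] (D : PG G P) (t : V → P → K) :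
    Prop := ∀ v u, (u = v ∨ G.Adj v u) → ∀ p, t v (p * D.g u) = t v p

/-- the products of the `t v` over `s` are independent over the squares (on the `p` whose bits
vanish on `s`) -/
def GenOn {K : Type} [Field K] {G : SimpleGraph V} {P : Type} [Group P] [Fintype P]
    (D : PG G P) (s : Finset V) (t : V → P → K) : Prop :=
  ∀ c : P → K, (∀ p, (∃ v ∈ s, D.b p v ≠ 0) → c p = 0) →
    ∑ p, (∏ v ∈ s, t v p) * c p ^ 2 = 0 → c = 0

/-- a field of characteristic two with infinitely many elements whose squarefree monomials are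
independent over the squares -/
structure GenSeq (K : Type) [Field K] where
  /-- the sequence -/
  x : ℕ → K
  indep : ∀ (𝓢 : Finset (Finset ℕ)) (c : Finset ℕ → K),
    ∑ S ∈ 𝓢, (∏ i ∈ S, x i) * c S ^ 2 = 0 → ∀ S ∈ 𝓢, c S = 0

end Pool.Agent.H77.SW

end

section

/-!
# Singer without colours for Coxeter groups of FC type: definitions

The space `Zs`, the sequence `GenSeq` and the group `Ext_G` are those of `Pool.Agent.H77.SW`.
-/

set_option autoImplicit false
set_option linter.unusedSectionVars false

open Finset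

namespace Pool.Agent.H77.SX

open Pool.Agent.H77.SW

variable {V : Type} [DecidableEq V] [Fintype V]

/-- the regular representation with marked elements `g v`: `(rG g v f) p = f (p * g v)` -/
def rG (K : Type) [Field K] {P : Type} [Group P] (g : V → P) (v : V) : (P → K) →ₗ[K] (P → K) where
  toFun f p := f (p * g v)
  map_add' _ _ := rfl
  map_smul' _ _ := rfl

/-- the dimension of the space of cycles with coefficients in the regular representation -/
noncomputable def dG (K : Type) [Field K] (G : SimpleGraph V) (n : ℕ) {P : Type} [Group P]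
    (g : V → P) : ℕ := Module.finrank K (Zs K G n (rG K g))

/-- the cycles whose component at `σ` vanishes -/
def ZG (K : Type) [Field K] (G : SimpleGraph V) (n : ℕ) {P : Type} [Group P] (g : V → P)
    (σ : Finset V) : Submodule K (Finset V → P → K) :=
  Zs K G n (rG K g) ⊓ LinearMap.ker (LinearMap.proj (R := K) (φ := fun _ : Finset V => P → K) σ)

/-- the extension module: functions of `(A, p)`, `A` a set of vertices. The vertices in `s` act by
`(r v f) (A, p) = f (A, p g v) + [v ∈ A] t v p f (A - v, p g v)`, the others by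
`f (A, p g v)`. -/
def rX {K : Type} [Field K] {P : Type} [Group P] (g : V → P) (s : Finset V) (t : V → P → K)
    (v : V) : (Finset V × P → K) →ₗ[K] (Finset V × P → K) where
  toFun f x := f (x.1, x.2 * g v) +
    if v ∈ s ∧ v ∈ x.1 then t v x.2 * f (x.1.erase v, x.2 * g v) else 0
  map_add' f f' := by
    funext x
    simp only [Pi.add_apply]
    split_ifs <;> ring
  map_smul' c f := by
    funext x
    simp only [Pi.smul_apply, smul_eq_mul, RingHom.id_apply]
    split_ifs <;> ring

/-- a finite quotient `P` of the Coxeter group over a quotient `Ps`, the kernel of `P → Ps` is a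
two-group -/
structure FQ (M : CoxeterMatrix V) {Ps : Type} [Group Ps] (πs : M.Group →* Ps) (P : Type)
    [Group P] where
  /-- the projection -/
  π : M.Group →* P
  surj : Function.Surjective π
  /-- the map to `Ps` -/
  κ : P →* Ps
  κπ : ∀ w, κ (π w) = πs w
  two : IsPGroup 2 κ.ker

/-- the images of the generators -/
def FQ.g {M : CoxeterMatrix V} {Ps : Type} [Group Ps] {πs : M.Group →* Ps} {P : Type} [Group P]
    (D : FQ M πs P) (v : V) : P := D.π (M.simple v)

/-- For every set `σ` of vertices without common neighbour the intersection of the subgroups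
generated by the links of the vertices in `σ` is trivial. -/
def LinkGood (G : SimpleGraph V) {P : Type} [Group P] (g : V → P) : Prop :=
  ∀ σ : Finset V, (∀ u, ∃ v ∈ σ, ¬ G.Adj v u) → ∀ x : P,
    (∀ v ∈ σ, x ∈ Subgroup.closure (g '' {u | G.Adj v u})) → x = 1

end Pool.Agent.H77.SX

end
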