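import Mathlib

/-! The parts of this file: H19.LI.Vn, H19.LI.VnC, H73.GC.Defs. -/

section

/-!
# Project LI: von Neumann dimension for a group which permutes an orthonormal basis up to signs

`Q` acts on the index set `I`; `c` is a cutoff function (`∑ q, c (q s) = 1`, finite support). The
dimension of a closed invariant subspace `K` of `ℓ²(I)` is `∑ s, c s * ‖P_K e_s‖ ^ 2`.
-/

set_option autoImplicit false

open Finset

namespace Pool.Agent.H19.LI

/-- `ℓ²(I)` -/
abbrev L2 (I : Type) : Type := lp (fun _ : I => ℂ) 2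

open Classical in
/-- the basis vectors -/
noncomputable def ee {I : Type} (s : I) : L2 I := lp.single 2 s (1 : ℂ)

/-- dimension data -/
structure Dm (Q I : Type) [Group Q] where
  /-- the action of `Q` on the basis -/
  a : Q →* Equiv.Perm I
  /-- a finite set which contains the support of `c` -/
  F : Finset I
  /-- the cutoff function -/
  c : I → ℝ
  nonneg : ∀ s, 0 ≤ c s
  supp : ∀ s, s ∉ F → c s = 0
  sum : ∀ s, HasSum (fun q : Q => c (a q s)) 1
  /-- the signs -/
  sg : Q → I → ℤ
  sg_sq : ∀ q s, sg q s * sg q s = 1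

theorem norm_sgn {a : ℤ} (h : a * a = 1) : ‖(a : ℂ)‖ = 1 := by
  have h1 : ‖(a : ℂ)‖ * ‖(a : ℂ)‖ = 1 := by
    rw [← norm_mul, ← Int.cast_mul, h, Int.cast_one, norm_one]
  nlinarith [norm_nonneg (a : ℂ)]

theorem sgn_mul {a : ℤ} (h : a * a = 1) : (a : ℂ) * (a : ℂ) = 1 := by
  rw [← Int.cast_mul, h, Int.cast_one]

theorem memℓp_two {I : Type} (f : I → ℂ) : Memℓp f 2 ↔ Summable fun s => ‖f s‖ ^ 2 := by
  rw [memℓp_gen_iff (by norm_num)]
  norm_num

theorem sum_sq {I : Type} (f : L2 I) : Summable fun s => ‖f s‖ ^ 2 := (memℓp_two f).1 (lp.memℓp f)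

theorem norm_sq_eq {I : Type} (f : L2 I) : ‖f‖ ^ 2 = ∑' s, ‖f s‖ ^ 2 := by
  have h := lp.norm_rpow_eq_tsum (p := 2) (by norm_num) f
  simpa using h

/-- the vector with the coordinates `f` -/
def mk2 {I : Type} (f : I → ℂ) (h : Summable fun s => ‖f s‖ ^ 2) : L2 I :=
  ⟨f, (memℓp_two f).2 h⟩

theorem mk2_apply {I : Type} (f : I → ℂ) (h : Summable fun s => ‖f s‖ ^ 2) (s : I) :
    mk2 f h s = f s := rfl

theorem sum_reix {I : Type} (e : I ≃ I) (a : I → ℤ) (ha : ∀ s, a s * a s = 1) (f : L2 I) :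
    Summable fun t => ‖(a t : ℂ) * f (e t)‖ ^ 2 := by
  have h := (e.summable_iff (f := fun s => ‖f s‖ ^ 2)).2 (sum_sq f)
  refine h.congr fun t => ?_
  simp only [Function.comp, norm_mul, norm_sgn (ha t), one_mul]

/-- the signed permutation of the basis -/
noncomputable def reix {I : Type} (e : I ≃ I) (a : I → ℤ) (ha : ∀ s, a s * a s = 1) :
    L2 I ≃ₗᵢ[ℂ] L2 I where
  toFun f := mk2 (fun t => (a t : ℂ) * f (e t)) (sum_reix e a ha f)
  invFun f := mk2 (fun s => (a (e.symm s) : ℂ) * f (e.symm s))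
    (sum_reix e.symm (fun s => a (e.symm s)) (fun _ => ha _) f)
  left_inv f := by
    ext s
    show (a (e.symm s) : ℂ) * ((a (e.symm s) : ℂ) * f (e (e.symm s))) = f s
    rw [← mul_assoc, sgn_mul (ha _), one_mul, e.apply_symm_apply]
  right_inv f := by
    ext s
    show (a s : ℂ) * ((a (e.symm (e s)) : ℂ) * f (e.symm (e s))) = f s
    rw [e.symm_apply_apply, ← mul_assoc, sgn_mul (ha _), one_mul]
  map_add' f g := by
    ext s
    show (a s : ℂ) * (f (e s) + g (e s)) = (a s : ℂ) * f (e s) + (a s : ℂ) * g (e s)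
    ring
  map_smul' r f := by
    ext s
    show (a s : ℂ) * (r * f (e s)) = r * ((a s : ℂ) * f (e s))
    ring
  norm_map' f := by
    have h : ‖mk2 (fun t => (a t : ℂ) * f (e t)) (sum_reix e a ha f)‖ ^ 2 = ‖f‖ ^ 2 := by
      rw [norm_sq_eq, norm_sq_eq, ← e.tsum_eq (fun s => ‖f s‖ ^ 2)]
      refine tsum_congr fun t => ?_
      rw [mk2_apply, norm_mul, norm_sgn (ha t), one_mul]
    exact (sq_eq_sq₀ (norm_nonneg _) (norm_nonneg _)).1 h

theorem reix_apply {I : Type} (e : I ≃ I) (a : I → ℤ) (ha : ∀ s, a s * a s = 1) (f : L2 I)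
    (t : I) : reix e a ha f t = (a t : ℂ) * f (e t) := rfl

namespace Dm

variable {Q I : Type} [Group Q] (D : Dm Q I)

/-- the unitary operator `e_s ↦ ± e_{q s}` -/
noncomputable def U (q : Q) : L2 I ≃ₗᵢ[ℂ] L2 I :=
  reix (D.a q)⁻¹ (fun t => D.sg q ((D.a q)⁻¹ t)) fun _ => D.sg_sq _ _

theorem U_apply (q : Q) (f : L2 I) (t : I) :
    D.U q f t = (D.sg q ((D.a q)⁻¹ t) : ℂ) * f ((D.a q)⁻¹ t) := rfl

theorem U_smul (q : Q) (f : L2 I) (s : I) : D.U q f (D.a q s) = (D.sg q s : ℂ) * f s := by
  have h : (D.a q)⁻¹ (D.a q s) = s := (D.a q).symm_apply_apply s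
  rw [U_apply, h]

/-- invariant subspaces -/
def Inv (K : Submodule ℂ (L2 I)) : Prop := ∀ q f, f ∈ K ↔ D.U q f ∈ K

/-- the trace -/
noncomputable def tr (A : L2 I →L[ℂ] L2 I) : ℂ := ∑ s ∈ D.F, (D.c s : ℂ) * A (ee s) s

/-- the dimension of the closure of a subspace -/
noncomputable def dm (K : Submodule ℂ (L2 I)) : ℝ :=
  ∑ s ∈ D.F, D.c s * ‖K.topologicalClosure.starProjection (ee s)‖ ^ 2

end Dm

/-- equivariant operators -/
def Eqv {Q I I' : Type} [Group Q] (D : Dm Q I) (D' : Dm Q I') (A : L2 I →L[ℂ] L2 I') : Prop :=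
  ∀ q f, A (D.U q f) = D'.U q (A f)

end Pool.Agent.H19.LI

end

section

/-!
# Project LI: elementary properties of the dimension
-/

set_option autoImplicit false

open Finset ContinuousLinearMap

namespace Pool.Agent.H19.LI

variable {Q I I' : Type} [Group Q] (D : Dm Q I) (D' : Dm Q I')

/-- coordinates -/
theorem inner_ee (s : I) (f : L2 I) : inner ℂ (ee s) f = f s := by
  classical
  unfold ee
  rw [lp.inner_single_left]
  simp

theorem ee_apply_self (s : I) : (ee s : L2 I) s = 1 := by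
  classical
  unfold ee
  rw [lp.single_apply_self]

theorem ee_apply_ne {s t : I} (h : t ≠ s) : (ee s : L2 I) t = 0 := by
  classical
  unfold ee
  rw [lp.single_apply_ne _ _ _ h]

theorem U_ee (q : Q) (s : I) : D.U q (ee s) = (D.sg q s : ℂ) • ee (D.a q s) := by
  classical
  ext t
  rw [Dm.U_apply]
  show _ = (D.sg q s : ℂ) * (ee (D.a q s) : L2 I) t
  by_cases h : t = D.a q s
  · subst h
    have h1 : (D.a q)⁻¹ (D.a q s) = s := (D.a q).symm_apply_apply s
    rw [h1, ee_apply_self, ee_apply_self]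
  · have h1 : (D.a q)⁻¹ t ≠ s := by
      intro h2
      apply h
      rw [← h2]
      exact ((D.a q).apply_symm_apply t).symm
    rw [ee_apply_ne h1, ee_apply_ne h, mul_zero, mul_zero]

private theorem proj_closure (K : Submodule ℂ (L2 I)) (x : L2 I) :
    K.topologicalClosure.topologicalClosure.starProjection x =
      K.topologicalClosure.starProjection x := by
  have h : K.topologicalClosure.topologicalClosure = K.topologicalClosure :=
    IsClosed.submodule_topologicalClosure_eq K.isClosed_topologicalClosure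
  refine Submodule.eq_starProjection_of_mem_orthogonal ?_ ?_
  · rw [h]
    exact Submodule.starProjection_apply_mem _ x
  · rw [h]
    exact Submodule.sub_starProjection_mem_orthogonal x

theorem dm_closure (K : Submodule ℂ (L2 I)) : D.dm K.topologicalClosure = D.dm K := by
  unfold Dm.dm
  refine Finset.sum_congr rfl fun s _ => ?_
  rw [proj_closure]

/-- compositions -/
theorem eqv_comp {I'' : Type} {D'' : Dm Q I''} {A : L2 I →L[ℂ] L2 I'} {B : L2 I' →L[ℂ] L2 I''}
    (hB : Eqv D' D'' B) (hA : Eqv D D' A) : Eqv D D'' (B ∘L A) := fun q x => by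
  rw [comp_apply, comp_apply, hA, hB]

theorem eqv_adjoint {A : L2 I →L[ℂ] L2 I'} (hA : Eqv D D' A) : Eqv D' D (adjoint A) := by
  intro q y
  refine ext_inner_left ℂ fun x => ?_
  obtain ⟨x, rfl⟩ := (D.U q).surjective x
  rw [adjoint_inner_right, hA, LinearIsometryEquiv.inner_map_map,
    LinearIsometryEquiv.inner_map_map, adjoint_inner_right]

end Pool.Agent.H19.LI

end

section

/-!
# Growth calculus: definitions

Mod 2 homology growth of right-angled Coxeter groups. A finite graph is given by `G : SimpleGraph V` and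
the set `U : Finset V` of its vertices (the other elements of `V` are ignored). All coefficients are
vector spaces `Y` over the field `F2` with operators `r v` (involutions, which commute for adjacent
vertices, unipotent) and projections `E v` with `E r + r E = r` (so `Y` is free over the groups of the
cliques).
-/

set_option autoImplicit false
set_option linter.unusedSectionVars false

open Finset

namespace Pool.Agent.H73.GC

/-- the field with two elements -/
abbrev F2 := ZMod 2

section Lin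

variable {E : Type} [AddCommGroup E] [Module F2 E]

/-- the dimension of the homology in degree `i` of the complex `C` in `E` -/
noncomputable def hx (d : Module.End F2 E) (C : ℕ → Submodule F2 E) (i : ℕ) : ℤ :=
  (Module.finrank F2 (C i ⊓ LinearMap.ker d : Submodule F2 E) : ℤ) -
    (Module.finrank F2 ((C (i + 1)).map d) : ℤ)

/-- `C` is a complex -/
structure IsCx (d : Module.End F2 E) (C : ℕ → Submodule F2 E) : Prop where
  map : ∀ i, ∀ x ∈ C (i + 1), d x ∈ C i
  sq : ∀ i, ∀ x ∈ C i, d (d x) = 0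

end Lin

variable {V : Type} [DecidableEq V] [Fintype V]

section Sys

variable {Y : Type} [AddCommGroup Y] [Module F2 Y]

/-- the boundary -/
def dd : Module.End F2 (Finset V → Y) where
  toFun f s := ∑ v ∈ sᶜ, f (insert v s)
  map_add' f g := by
    funext s
    simp only [Pi.add_apply, sum_add_distrib]
  map_smul' c f := by
    funext s
    simp only [Pi.smul_apply, RingHom.id_apply, smul_sum]

theorem dd_apply (f : Finset V → Y) (s : Finset V) : dd f s = ∑ v ∈ sᶜ, f (insert v s) := rfl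

/-- the chains of degree `i` with coefficients in the system `A` -/
def Ch (A : Finset V → Submodule F2 Y) (i : ℕ) : Submodule F2 (Finset V → Y) where
  carrier := {f | ∀ s, f s ∈ A s ∧ (s.card ≠ i → f s = 0)}
  zero_mem' s := ⟨Submodule.zero_mem _, fun _ => rfl⟩
  add_mem' := by
    intro f g hf hg s
    refine ⟨Submodule.add_mem _ (hf s).1 (hg s).1, fun h => ?_⟩
    rw [Pi.add_apply, (hf s).2 h, (hg s).2 h, add_zero]
  smul_mem' := by
    intro c f hf s
    refine ⟨Submodule.smul_mem _ c (hf s).1, fun h => ?_⟩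
    rw [Pi.smul_apply, (hf s).2 h, smul_zero]

theorem mem_Ch {A : Finset V → Submodule F2 Y} {i : ℕ} {f : Finset V → Y} :
    f ∈ Ch A i ↔ ∀ s, f s ∈ A s ∧ (s.card ≠ i → f s = 0) := Iff.rfl

/-- the dimension of the homology of the system `A` -/
noncomputable def hd (A : Finset V → Submodule F2 Y) (i : ℕ) : ℤ := hx dd (Ch A) i

/-- the system `A` is decreasing -/
def Mono (A : Finset V → Submodule F2 Y) : Prop := ∀ s v, A (insert v s) ≤ A s

/-- the simplices containing `e` are removed -/
def del (e : Finset V) (A : Finset V → Submodule F2 Y) (s : Finset V) : Submodule F2 Y where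
  carrier := {y | y ∈ A s ∧ (e ⊆ s → y = 0)}
  zero_mem' := ⟨Submodule.zero_mem _, fun _ => rfl⟩
  add_mem' := by
    rintro y z ⟨h1, h2⟩ ⟨h3, h4⟩
    exact ⟨Submodule.add_mem _ h1 h3, fun h => by rw [h2 h, h4 h, add_zero]⟩
  smul_mem' := by
    rintro c y ⟨h1, h2⟩
    exact ⟨Submodule.smul_mem _ c h1, fun h => by rw [h2 h, smul_zero]⟩

/-- the link of `e` -/
def res (e : Finset V) (A : Finset V → Submodule F2 Y) (s : Finset V) : Submodule F2 Y where
  carrier := {y | y ∈ A (e ∪ s) ∧ (¬ Disjoint e s → y = 0)}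
  zero_mem' := ⟨Submodule.zero_mem _, fun _ => rfl⟩
  add_mem' := by
    rintro y z ⟨h1, h2⟩ ⟨h3, h4⟩
    exact ⟨Submodule.add_mem _ h1 h3, fun h => by rw [h2 h, h4 h, add_zero]⟩
  smul_mem' := by
    rintro c y ⟨h1, h2⟩
    exact ⟨Submodule.smul_mem _ c h1, fun h => by rw [h2 h, smul_zero]⟩

/-- the vectors which are invariant under the `r v`, `v ∈ s` -/
def Inv (r : V → Module.End F2 Y) (s : Finset V) : Submodule F2 Y where
  carrier := {y | ∀ v ∈ s, r v y = y}
  zero_mem' v _ := map_zero _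
  add_mem' := by
    intro y z h1 h2 v hv
    rw [map_add, h1 v hv, h2 v hv]
  smul_mem' := by
    intro c y h v hv
    rw [map_smul, h v hv]

theorem mem_Inv {r : V → Module.End F2 Y} {s : Finset V} {y : Y} :
    y ∈ Inv r s ↔ ∀ v ∈ s, r v y = y := Iff.rfl

/-- the system of the invariants, for the complex `X` -/
def Sy (X : Finset V → Prop) (r : V → Module.End F2 Y) (s : Finset V) : Submodule F2 Y where
  carrier := {y | (¬ X s → y = 0) ∧ ∀ v ∈ s, r v y = y}
  zero_mem' := ⟨fun _ => rfl, fun v _ => map_zero _⟩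
  add_mem' := by
    rintro y z ⟨h1, h2⟩ ⟨h3, h4⟩
    exact ⟨fun h => by rw [h1 h, h3 h, add_zero], fun v hv => by rw [map_add, h2 v hv, h4 v hv]⟩
  smul_mem' := by
    rintro c y ⟨h1, h2⟩
    exact ⟨fun h => by rw [h1 h, smul_zero], fun v hv => by rw [map_smul, h2 v hv]⟩

theorem mem_Sy {X : Finset V → Prop} {r : V → Module.End F2 Y} {s : Finset V} {y : Y} :
    y ∈ Sy X r s ↔ (¬ X s → y = 0) ∧ ∀ v ∈ s, r v y = y := Iff.rfl

/-- the dimension of the homology of the complex `X` with coefficients in `Y` -/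
noncomputable def hX (X : Finset V → Prop) (r : V → Module.End F2 Y) (i : ℕ) : ℤ := hd (Sy X r) i

/-- the flag complex of the graph on the vertices in `U` -/
def Cq (G : SimpleGraph V) (U : Finset V) (s : Finset V) : Prop := G.IsClique (s : Set V) ∧ s ⊆ U

/-- a filtration on whose quotients the `r v`, `v ∈ U`, are trivial -/
def Fil (U : Finset V) (r : V → Module.End F2 Y) : Prop :=
  ∃ (n : ℕ) (F : ℕ → Submodule F2 Y), Monotone F ∧ F 0 = ⊥ ∧ F n = ⊤ ∧
    ∀ j, ∀ v ∈ U, ∀ y ∈ F (j + 1), y + r v y ∈ F j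

/-- the operators `r v`, `v ∈ U`, form a module over the graph -/
structure IsN (G : SimpleGraph V) (U : Finset V) (r : V → Module.End F2 Y) : Prop where
  sq : ∀ v ∈ U, ∀ y, r v (r v y) = y
  comm : ∀ u ∈ U, ∀ v ∈ U, G.Adj u v → ∀ y, r u (r v y) = r v (r u y)
  fil : Fil U r

/-- projections for the operators `r v`, `v ∈ s` (which commute and are involutions) -/
structure BitOn (r E : V → Module.End F2 Y) (s : Finset V) : Prop where
  sq : ∀ v ∈ s, ∀ y, r v (r v y) = y
  comm : ∀ u ∈ s, ∀ v ∈ s, ∀ y, r u (r v y) = r v (r u y)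
  idem : ∀ v ∈ s, ∀ y, E v (E v y) = E v y
  bit : ∀ v ∈ s, ∀ y, E v (r v y) + r v (E v y) = r v y
  er : ∀ u ∈ s, ∀ v ∈ s, u ≠ v → ∀ y, E u (r v y) = r v (E u y)
  ee : ∀ u ∈ s, ∀ v ∈ s, ∀ y, E u (E v y) = E v (E u y)

/-- projections for the module `r` over the graph -/
structure IsBit (G : SimpleGraph V) (U : Finset V) (r E : V → Module.End F2 Y) : Prop where
  idem : ∀ v ∈ U, ∀ y, E v (E v y) = E v y
  bit : ∀ v ∈ U, ∀ y, E v (r v y) + r v (E v y) = r v y
  er : ∀ u ∈ U, ∀ v ∈ U, G.Adj u v → ∀ y, E u (r v y) = r v (E u y)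
  ee : ∀ u ∈ U, ∀ v ∈ U, G.Adj u v → ∀ y, E u (E v y) = E v (E u y)

end Sys

/-- The mod 2 homology growth of the right-angled Coxeter group of the graph vanishes in degree `i`. -/
def GZ (G : SimpleGraph V) (U : Finset V) (i : ℕ) : Prop :=
  ∀ ε : ℝ, 0 < ε → ∃ (Y : Type) (_ : AddCommGroup Y) (_ : Module F2 Y) (_ : Finite Y)
    (r E : V → Module.End F2 Y), IsN G U r ∧ IsBit G U r E ∧ 0 < Module.finrank F2 Y ∧
      (hX (Cq G U) r i : ℝ) ≤ ε * Module.finrank F2 Y

open Classical in
/-- the vertices in `U` which are adjacent to `v` -/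
noncomputable def lk (G : SimpleGraph V) (U : Finset V) (v : V) : Finset V :=
  U.filter fun w => G.Adj v w

open Classical in
/-- the vertices in `U` which are adjacent to `x` and to `u` -/
noncomputable def lk2 (G : SimpleGraph V) (U : Finset V) (x u : V) : Finset V :=
  U.filter fun w => G.Adj x w ∧ G.Adj u w

/-- the graph in which `u` is adjacent to the neighbours of `u` and to the neighbours of `x` -/
def merge (G : SimpleGraph V) (x u : V) : SimpleGraph V where
  Adj a b := a ≠ b ∧ (G.Adj a b ∨ (a = u ∧ G.Adj x b) ∨ (b = u ∧ G.Adj x a))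
  symm := ⟨by
    rintro a b ⟨h1, h2⟩
    refine ⟨h1.symm, ?_⟩
    rcases h2 with h2 | h2 | h2
    · exact Or.inl h2.symm
    · exact Or.inr (Or.inr h2)
    · exact Or.inr (Or.inl h2)⟩
  loopless := ⟨fun a h => h.1 rfl⟩

/-- the flag complex does not create new cliques when `x` and `u` are identified: there is no induced
path or circuit `x, b, a, u` with three or four edges -/
def NoSq (G : SimpleGraph V) (U : Finset V) (x u : V) : Prop :=
  ∀ a ∈ U, ∀ b ∈ U, a ≠ x → b ≠ u → G.Adj u a → G.Adj x b → G.Adj a b → G.Adj x a ∨ G.Adj u b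

end Pool.Agent.H73.GC

end
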