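import Pool.Agent.H71.TSG.M01
import Pool.Agent.H71.TSG.M04
import Pool.Agent.H71.TSG.M06
import Pool.Agent.H71.TSG.M07

/-! The parts of this file: H19.LI.CovE2, H37.MA.Abs, H19.LI.Ops, H4.Singer.HarmAct, H73.GC.Bit, H73.GC.Fil, H85.Fold.ModM, H85.Fold2.Defs, S9.Dict, S9.F.Tr. -/

section

/-!
# Project LI: transport in a simply connected cube complex
-/

set_option autoImplicit false

open Finset

namespace Pool.Agent.H19.LI

open Pool.Agent.H19.Cub

variable {V X : Type} [DecidableEq V] {C : CubeComplex V X}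

section Transport

variable {A : Type} (P : A → Prop) (r : V → A → A)

/-- transport along a path -/
private def h83t_tr (r : V → A → A) (l : List V) (a : A) : A := l.foldl (fun b v => r v b) a

omit [DecidableEq V] in
private theorem h83t_append (l l' : List V) (a : A) :
    h83t_tr r (l ++ l') a = h83t_tr r l' (h83t_tr r l a) := by
  unfold h83t_tr
  rw [List.foldl_append]

omit [DecidableEq V] in
private theorem h83t_P (hP : ∀ v a, P a → P (r v a)) (l : List V) : ∀ a, P a → P (h83t_tr r l a) := by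
  induction l with
  | nil => exact fun a ha => ha
  | cons v l ih => exact fun a ha => ih _ (hP v a ha)

omit [DecidableEq V] in
private theorem h83t_step {Gr : SimpleGraph V} (hP : ∀ v a, P a → P (r v a))
    (h2 : ∀ v a, P a → r v (r v a) = a)
    (hc : ∀ u v a, Gr.Adj u v → P a → r u (r v a) = r v (r u a)) {l l' : List V}
    (h : Step Gr l l') (a : A) (ha : P a) : h83t_tr r l a = h83t_tr r l' a := by
  cases h with
  | back b c v =>
    rw [h83t_append, h83t_append]
    have h3 := h83t_P P r hP b a ha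
    show h83t_tr r c (r v (r v (h83t_tr r b a))) = _
    rw [h2 v _ h3]
  | square b c u v huv =>
    rw [h83t_append, h83t_append]
    have h3 := h83t_P P r hP b a ha
    show h83t_tr r c (r v (r u (h83t_tr r b a))) = h83t_tr r c (r u (r v (h83t_tr r b a)))
    rw [hc u v _ huv h3]

end Transport

/-- transport in a simply connected cube complex -/
theorem exists_transport (hC : IsCAT0 C) {A : Type} (P : A → Prop) (r : V → A → A)
    (hP : ∀ v a, P a → P (r v a)) (h2 : ∀ v a, P a → r v (r v a) = a)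
    (hc : ∀ u v a, C.graph.Adj u v → P a → r u (r v a) = r v (r u a)) (x₁ : X) (a₁ : A)
    (h1 : P a₁) :
    ∃ m : X → A, m x₁ = a₁ ∧ (∀ x, P (m x)) ∧ ∀ v x, v ∈ C.lab x → m (C.nb v x) = r v (m x) := by
  classical
  obtain ⟨hinj, hsurj⟩ := hC x₁
  let F : C.Cover x₁ → A := Quot.lift (fun l => h83t_tr r l.1 a₁)
    fun l l' h => h83t_step P r hP h2 hc h a₁ h1
  have hF : ∀ l : {l : List V // C.IsPath x₁ l}, F (Quot.mk _ l) = h83t_tr r l.1 a₁ :=
    fun _ => rfl
  choose g hg using hsurj
  refine ⟨fun x => F (g x), ?_, fun x => ?_, fun v x hv => ?_⟩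
  · have h3 : g x₁ = Quot.mk _ ⟨[], trivial⟩ := hinj (by rw [hg]; rfl)
    show F (g x₁) = a₁
    rw [h3]
    rfl
  · show P (F (g x))
    induction g x using Quot.ind with
    | mk l =>
      rw [hF]
      exact h83t_P P r hP l.1 a₁ h1
  · show F (g (C.nb v x)) = r v (F (g x))
    obtain ⟨l, hl⟩ := Quot.exists_rep (g x)
    have hx : C.fin x₁ l.1 = x := by
      have h3 := hg x
      rw [← hl] at h3
      exact h3
    have hv' : v ∈ C.lab (C.fin x₁ l.1) := by rw [hx]; exact hv
    have h4 : g (C.nb v x) =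
        Quot.mk _ ⟨l.1 ++ [v], (C.isPath_append x₁ l.1 [v]).2 ⟨l.2, hv', trivial⟩⟩ := by
      refine hinj ?_
      rw [hg]
      show C.nb v x = C.fin x₁ (l.1 ++ [v])
      rw [CubeComplex.fin_append, hx]
      rfl
    rw [h4, ← hl, hF, hF, h83t_append]
    rfl

end Pool.Agent.H19.LI

end

section

/-!
# M side of project SM, module Abs: the comparison and the right side for an abstract cocycle on the tuples
-/

set_option autoImplicit false
set_option linter.unusedSectionVars false

open Finset Pointwise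

namespace Pool.Agent.H37.MA

open Pool.Agent.H37.TM

variable {K : Type} [Field K] [Algebra (ZMod 2) K]

theorem fun_lin {A B : Type} (W : B → K) (H : A → (B →₀ ZMod 2)) (y : A →₀ ZMod 2) :
    lin W (lin H y) = ∑ b ∈ y.support, y b • lin W (H b) := by
  rw [map_lin]
  rfl


end Pool.Agent.H37.MA

end

section

/-!
# Project LI: the auxiliary group, the index set, twisted chains
-/

set_option autoImplicit false

open Finset
open scoped Pointwise

namespace Pool.Agent.H19.LI

open Pool.Agent.H19.Cub Pool.Agent.H4.Singer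

variable {V X : Type} [DecidableEq V]

/-- The auxiliary group. -/
structure GD (C : CubeComplex V X) (Γ G : Type) [Group Γ] [MulAction Γ V] [Group G] where
  R : V → G
  B : V → G
  z : G
  j : Γ →* G
  zz : z * z = 1
  z_ne : z ≠ 1
  RR : ∀ v, R v * R v = 1
  BB : ∀ v, B v * B v = 1
  RB : ∀ v, R v * B v = z * (B v * R v)
  zR : ∀ v, z * R v = R v * z
  zB : ∀ v, z * B v = B v * z
  zj : ∀ g, z * j g = j g * z
  cRR : ∀ u v, C.graph.Adj u v → R u * R v = R v * R u
  cRB : ∀ u v, C.graph.Adj u v → R u * B v = B v * R u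
  cBB : ∀ u v, C.graph.Adj u v → B u * B v = B v * B u
  jR : ∀ g v, j g * R v = R (g • v) * j g
  jB : ∀ g v, j g * B v = B (g • v) * j g
  κ : ∀ x, G → RGrp (lk C x)
  κ_mul : ∀ x g (v : {v // v ∈ C.lab x}), κ x (g * R v.1 * B v.1) = κ x g * gen (lk C x) v

/-- the cubes with a chosen vertex, and all other sets of labels at a vertex -/
abbrev Jx (C : CubeComplex V X) : Type := {p : Finset V × X // p.1 ⊆ C.lab p.2}

/-- the coefficient of `(σ, x)` -/
noncomputable def ev {C : CubeComplex V X} {κ : Type} (f : L2 (Jx C × κ)) (σ : Finset V) (x : X)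
    (k : κ) : ℂ := by
  classical exact if h : σ ⊆ C.lab x then f (⟨(σ, x), h⟩, k) else 0

theorem ev_pos {C : CubeComplex V X} {κ : Type} (f : L2 (Jx C × κ)) {σ : Finset V} {x : X}
    (h : σ ⊆ C.lab x) (k : κ) : ev f σ x k = f (⟨(σ, x), h⟩, k) := dif_pos h

theorem ev_neg {C : CubeComplex V X} {κ : Type} (f : L2 (Jx C × κ)) {σ : Finset V} {x : X}
    (h : ¬ σ ⊆ C.lab x) (k : κ) : ev f σ x k = 0 := dif_neg h

theorem ev_zero {C : CubeComplex V X} {κ : Type} (σ : Finset V) (x : X) (k : κ) :
    ev (0 : L2 (Jx C × κ)) σ x k = 0 := by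
  by_cases h : σ ⊆ C.lab x
  · rw [ev_pos _ h]
    rfl
  · exact ev_neg _ h k

theorem ev_add {C : CubeComplex V X} {κ : Type} (f g : L2 (Jx C × κ)) (σ : Finset V) (x : X)
    (k : κ) : ev (f + g) σ x k = ev f σ x k + ev g σ x k := by
  by_cases h : σ ⊆ C.lab x
  · rw [ev_pos _ h, ev_pos _ h, ev_pos _ h]
    rfl
  · rw [ev_neg _ h, ev_neg _ h, ev_neg _ h, add_zero]

theorem ev_smul {C : CubeComplex V X} {κ : Type} (c : ℂ) (f : L2 (Jx C × κ)) (σ : Finset V)
    (x : X) (k : κ) : ev (c • f) σ x k = c * ev f σ x k := by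
  by_cases h : σ ⊆ C.lab x
  · rw [ev_pos _ h, ev_pos _ h]
    rfl
  · rw [ev_neg _ h, ev_neg _ h, mul_zero]

section

variable {C : CubeComplex V X} {Γ G : Type} [Group Γ] [MulAction Γ V] [Group G] (D : GD C Γ G)

/-- `2 N⁺ m` at `g`, `N⁺ = (R + i B) / 2` -/
noncomputable def Np (m : G → ℂ) (v : V) (g : G) : ℂ :=
  m (g * D.R v) + Complex.I * m (g * D.B v)

/-- `2 N⁻ m` at `g`, `N⁻ = (R - i B) / 2` -/
noncomputable def Nm (m : G → ℂ) (v : V) (g : G) : ℂ :=
  m (g * D.R v) - Complex.I * m (g * D.B v)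

/-- Twisted chains of degree `i` with the parameter `T`. -/
noncomputable def Ch (T : ℂ) (i : ℕ) : Submodule ℂ (L2 (Jx C × G)) where
  carrier := {f | (∀ p g, f (p, g * D.z) = - f (p, g)) ∧
    (∀ p g, f (p, g) ≠ 0 → C.graph.IsClique (p.1.1 : Set V) ∧ p.1.1.card = i) ∧
    ∀ σ x, σ ⊆ C.lab x → C.graph.IsClique (σ : Set V) → ∀ v ∈ σ, ∀ g,
      2 * T * ev f σ (C.nb v x) g =
        - (Np D (ev f σ x) v g + T ^ 2 * Nm D (ev f σ x) v g)}
  zero_mem' := by
    refine ⟨fun p g => ?_, fun p g h => absurd rfl h, fun σ x _ _ v _ g => ?_⟩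
    · show (0 : ℂ) = - 0
      rw [neg_zero]
    · simp only [Np, Nm, ev_zero]
      ring
  add_mem' := by
    rintro f f' ⟨h1, h2, h3⟩ ⟨h1', h2', h3'⟩
    refine ⟨fun p g => ?_, fun p g h => ?_, fun σ x hσ hc v hv g => ?_⟩
    · show f (p, g * D.z) + f' (p, g * D.z) = - (f (p, g) + f' (p, g))
      rw [h1, h1', neg_add]
    · by_cases hf : f (p, g) = 0
      · by_cases hf' : f' (p, g) = 0
        · refine absurd ?_ h
          show f (p, g) + f' (p, g) = 0
          rw [hf, hf', add_zero]
        · exact h2' p g hf'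
      · exact h2 p g hf
    · have e1 := h3 σ x hσ hc v hv g
      have e2 := h3' σ x hσ hc v hv g
      simp only [Np, Nm, ev_add] at e1 e2 ⊢
      linear_combination e1 + e2
  smul_mem' := by
    rintro c f ⟨h1, h2, h3⟩
    refine ⟨fun p g => ?_, fun p g h => ?_, fun σ x hσ hc v hv g => ?_⟩
    · show c * f (p, g * D.z) = - (c * f (p, g))
      rw [h1]
      ring
    · refine h2 p g fun h0 => h ?_
      show c * f (p, g) = 0
      rw [h0, mul_zero]
    · have e1 := h3 σ x hσ hc v hv g
      simp only [Np, Nm, ev_smul] at e1 ⊢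
      linear_combination c * e1

end

/-- a cutoff function on the vertices -/
structure Cut (Γ X : Type) [Group Γ] [MulAction Γ X] where
  F : Finset X
  c : X → ℝ
  nonneg : ∀ x, 0 ≤ c x
  supp : ∀ x, x ∉ F → c x = 0
  sum : ∀ x, HasSum (fun g : Γ => c (g • x)) 1

/-- the sign of the permutation by which `g` changes the order of `σ` -/
def sgi {Γ : Type} [Group Γ] [MulAction Γ V] (ν : V → ℕ) (g : Γ) (σ : Finset V) : ℤ :=
  (-1) ^ ((σ ×ˢ σ).filter fun p => ν p.1 < ν p.2 ∧ ν (g • p.2) < ν (g • p.1)).card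

/-- the boundary operator on `ℓ²` -/
def IsBd {C : CubeComplex V X} {κ : Type} (ν : V → ℕ)
    (d : L2 (Jx C × κ) →L[ℂ] L2 (Jx C × κ)) : Prop :=
  ∀ f τ x k, ev (d f) τ x k = if τ ⊆ C.lab x then
    ∑ v ∈ C.lab x \ τ, (sv ν v τ : ℂ) * ev f (insert v τ) x k else 0

end Pool.Agent.H19.LI

end

section

/-!
# Singer project: the matrix of the harmonic chains
-/

set_option autoImplicit false
set_option linter.unusedSectionVars false

open Finset

namespace Pool.Agent.H4.Singer

variable {V : Type} [Fintype V] [DecidableEq V]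

/-- the cliques with `i` elements -/
abbrev RI (G : SimpleGraph V) (i : ℕ) : Type :=
  {σ : Finset V // G.IsClique (σ : Set V) ∧ σ.card = i}

noncomputable instance (G : SimpleGraph V) (i : ℕ) : Fintype (RI G i) := Fintype.ofFinite _

/-- the columns: antisymmetry, boundary, coboundary -/
abbrev CI (G : SimpleGraph V) (i : ℕ) : Type := (RI G i × V) ⊕ (Finset V ⊕ Finset V)

/-- the incidence sign as an integer -/
def sz (ν : V → ℕ) (v : V) (τ : Finset V) : ℤ := (-1) ^ (τ.filter fun u => ν u < ν v).card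

open Classical in
/-- the matrix over the group ring whose left kernel consists of the harmonic chains -/
noncomputable def HM (G : SimpleGraph V) (ν : V → ℕ) (i : ℕ) :
    Matrix (RI G i) (CI G i) (MonoidAlgebra ℤ (RGrp G)) :=
  Matrix.of fun σ c => match c with
    | Sum.inl (σ', v) =>
      if σ = σ' ∧ v ∈ σ'.1 then MonoidAlgebra.single 1 1 + MonoidAlgebra.single (gen G v) 1 else 0
    | Sum.inr (Sum.inl τ) =>
      ∑ v ∈ τᶜ, if insert v τ = σ.1 then MonoidAlgebra.single 1 (sz ν v τ) else 0
    | Sum.inr (Sum.inr ρ) =>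
      if G.IsClique (ρ : Set V) ∧ ρ.card = i + 1 then
        ∑ v ∈ ρ, if ρ.erase v = σ.1 then MonoidAlgebra.single 1 (sz ν v (ρ.erase v)) -
          MonoidAlgebra.single (gen G v) (sz ν v (ρ.erase v)) else 0
      else 0

/-- the action of an element of the integral group ring on a function on a group `H` (by
`π : W → H`) -/
noncomputable def gact {W H : Type} [Group W] [Group H] (π : W →* H) (a : MonoidAlgebra ℤ W)
    (φ : H → ℂ) (h : H) : ℂ :=
  ∑ g ∈ a.coeff.support, φ (h * (π g)⁻¹) * (a.coeff g : ℂ)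

theorem gact_zero {W H : Type} [Group W] [Group H] (π : W →* H) (φ : H → ℂ) (h : H) :
    gact π 0 φ h = 0 := by
  simp [gact]

private lemma gact_eq_sum {W H : Type} [Group W] [Group H] (π : W →* H) (a : MonoidAlgebra ℤ W)
    (φ : H → ℂ) (h : H) :
    gact π a φ h = a.coeff.sum fun g r => φ (h * (π g)⁻¹) * (r : ℂ) := rfl

theorem gact_add {W H : Type} [Group W] [Group H] (π : W →* H) (a b : MonoidAlgebra ℤ W)
    (φ : H → ℂ) (h : H) : gact π (a + b) φ h = gact π a φ h + gact π b φ h := by
  rw [gact_eq_sum, gact_eq_sum, gact_eq_sum, MonoidAlgebra.coeff_add]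
  refine Finsupp.sum_add_index' (fun g => ?_) (fun g r₁ r₂ => ?_)
  · simp
  · push_cast
    ring

theorem gact_single {W H : Type} [Group W] [Group H] (π : W →* H) (g : W) (r : ℤ)
    (φ : H → ℂ) (h : H) : gact π (MonoidAlgebra.single g r) φ h = φ (h * (π g)⁻¹) * (r : ℂ) := by
  rw [gact_eq_sum, MonoidAlgebra.coeff_single]
  exact Finsupp.sum_single_index (by simp)

private lemma gact_sub {W H : Type} [Group W] [Group H] (π : W →* H) (a b : MonoidAlgebra ℤ W)
    (φ : H → ℂ) (h : H) : gact π (a - b) φ h = gact π a φ h - gact π b φ h := by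
  have h1 := gact_add π (a - b) b φ h
  rw [sub_add_cancel] at h1
  rw [h1]
  ring

private lemma gact_sum {W H ι : Type} [Group W] [Group H] (π : W →* H) (s : Finset ι)
    (f : ι → MonoidAlgebra ℤ W) (φ : H → ℂ) (h : H) :
    gact π (∑ k ∈ s, f k) φ h = ∑ k ∈ s, gact π (f k) φ h := by
  classical
  induction s using Finset.induction_on with
  | empty => simp [gact_zero]
  | insert k s hk ih => rw [Finset.sum_insert hk, Finset.sum_insert hk, gact_add, ih]

private lemma gact_ite {W H : Type} [Group W] [Group H] (π : W →* H) (p : Prop) [Decidable p]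
    (a : MonoidAlgebra ℤ W) (φ : H → ℂ) (h : H) :
    gact π (if p then a else 0) φ h = if p then gact π a φ h else 0 := by
  split_ifs
  · rfl
  · exact gact_zero π φ h

variable (G : SimpleGraph V) (ν : V → ℕ) (i : ℕ) {H : Type} [Group H] (π : RGrp G →* H)
  (φ : Finset V → H → ℂ)

theorem HM_anti (σ' : RI G i) (v : V) (h : H) :
    ∑ σ : RI G i, gact π (HM G ν i σ (Sum.inl (σ', v))) (φ σ.1) h =
      if v ∈ σ'.1 then φ σ'.1 h + φ σ'.1 (h * (π (gen G v))⁻¹) else 0 := by
  classical
  have key : ∀ σ : RI G i, gact π (HM G ν i σ (Sum.inl (σ', v))) (φ σ.1) h =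
      if σ = σ' then (if v ∈ σ'.1 then φ σ'.1 h + φ σ'.1 (h * (π (gen G v))⁻¹) else 0) else 0 := by
    intro σ
    have h1 : HM G ν i σ (Sum.inl (σ', v)) = if σ = σ' ∧ v ∈ σ'.1 then
        MonoidAlgebra.single 1 1 + MonoidAlgebra.single (gen G v) 1 else 0 := by
      simp only [HM, Matrix.of_apply]
    rw [h1, gact_ite, gact_add, gact_single, gact_single]
    by_cases h2 : σ = σ'
    · subst h2
      by_cases h3 : v ∈ σ.1
      · simp [h3]
      · simp [h3]
    · simp [h2]
  rw [Finset.sum_congr rfl fun σ _ => key σ, Finset.sum_ite_eq' Finset.univ σ']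
  simp

private lemma sum_RI (S : Finset V) (F : Finset V → ℂ)
    (hF : ¬ (G.IsClique (S : Set V) ∧ S.card = i) → F S = 0) :
    ∑ σ : RI G i, (if S = σ.1 then F σ.1 else 0) = F S := by
  classical
  by_cases hS : G.IsClique (S : Set V) ∧ S.card = i
  · rw [Finset.sum_eq_single (⟨S, hS⟩ : RI G i)]
    · simp
    · intro σ _ hσ
      rw [if_neg]
      intro h1
      exact hσ (Subtype.ext h1.symm)
    · intro h1
      exact absurd (Finset.mem_univ _) h1
  · rw [hF hS]
    refine Finset.sum_eq_zero fun σ _ => ?_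
    rw [if_neg]
    intro h1
    exact hS (h1 ▸ σ.2)

theorem HM_bd (hφ : ∀ σ : Finset V, ¬ (G.IsClique (σ : Set V) ∧ σ.card = i) → φ σ = 0)
    (τ : Finset V) (h : H) :
    ∑ σ : RI G i, gact π (HM G ν i σ (Sum.inr (Sum.inl τ))) (φ σ.1) h =
      ∑ v ∈ τᶜ, (-1 : ℂ) ^ (τ.filter fun u => ν u < ν v).card * φ (insert v τ) h := by
  classical
  have key : ∀ σ : RI G i, gact π (HM G ν i σ (Sum.inr (Sum.inl τ))) (φ σ.1) h =
      ∑ v ∈ τᶜ, if insert v τ = σ.1 then φ σ.1 h * ((sz ν v τ : ℤ) : ℂ) else 0 := by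
    intro σ
    have h1 : HM G ν i σ (Sum.inr (Sum.inl τ)) =
        ∑ v ∈ τᶜ, if insert v τ = σ.1 then MonoidAlgebra.single 1 (sz ν v τ) else 0 := by
      simp only [HM, Matrix.of_apply]
    rw [h1, gact_sum]
    refine Finset.sum_congr rfl fun v _ => ?_
    rw [gact_ite, gact_single]
    simp
  rw [Finset.sum_congr rfl fun σ _ => key σ, Finset.sum_comm]
  refine Finset.sum_congr rfl fun v _ => ?_
  rw [sum_RI G i (insert v τ) (fun S => φ S h * ((sz ν v τ : ℤ) : ℂ))]
  · simp only [sz]
    push_cast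
    ring
  · intro h1
    rw [hφ _ h1]
    simp

theorem HM_cobd (hφ : ∀ σ : Finset V, ¬ (G.IsClique (σ : Set V) ∧ σ.card = i) → φ σ = 0)
    (ρ : Finset V) (hρ : G.IsClique (ρ : Set V)) (hρi : ρ.card = i + 1) (h : H) :
    ∑ σ : RI G i, gact π (HM G ν i σ (Sum.inr (Sum.inr ρ))) (φ σ.1) h =
      ∑ v ∈ ρ, (-1 : ℂ) ^ ((ρ.erase v).filter fun u => ν u < ν v).card *
        (φ (ρ.erase v) h - φ (ρ.erase v) (h * (π (gen G v))⁻¹)) := by
  classical
  have key : ∀ σ : RI G i, gact π (HM G ν i σ (Sum.inr (Sum.inr ρ))) (φ σ.1) h =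
      ∑ v ∈ ρ, if ρ.erase v = σ.1 then
        (φ σ.1 h - φ σ.1 (h * (π (gen G v))⁻¹)) * ((sz ν v (ρ.erase v) : ℤ) : ℂ) else 0 := by
    intro σ
    have h1 : HM G ν i σ (Sum.inr (Sum.inr ρ)) =
        ∑ v ∈ ρ, if ρ.erase v = σ.1 then MonoidAlgebra.single 1 (sz ν v (ρ.erase v)) -
          MonoidAlgebra.single (gen G v) (sz ν v (ρ.erase v)) else 0 := by
      simp only [HM, Matrix.of_apply]
      rw [if_pos ⟨hρ, hρi⟩]
    rw [h1, gact_sum]
    refine Finset.sum_congr rfl fun v _ => ?_
    rw [gact_ite, gact_sub, gact_single, gact_single]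
    rw [map_one, inv_one, mul_one, sub_mul]
  rw [Finset.sum_congr rfl fun σ _ => key σ, Finset.sum_comm]
  refine Finset.sum_congr rfl fun v _ => ?_
  rw [sum_RI G i (ρ.erase v) (fun S => (φ S h - φ S (h * (π (gen G v))⁻¹)) *
    ((sz ν v (ρ.erase v) : ℤ) : ℂ))]
  · simp only [sz]
    push_cast
    ring
  · intro h1
    rw [hφ _ h1]
    simp

theorem HM_cobd_zero (ρ : Finset V) (hρ : ¬ (G.IsClique (ρ : Set V) ∧ ρ.card = i + 1)) (h : H) :
    ∑ σ : RI G i, gact π (HM G ν i σ (Sum.inr (Sum.inr ρ))) (φ σ.1) h = 0 := by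
  classical
  refine Finset.sum_eq_zero fun σ _ => ?_
  have h1 : HM G ν i σ (Sum.inr (Sum.inr ρ)) = 0 := by
    simp only [HM, Matrix.of_apply]
    rw [if_neg hρ]
  rw [h1, gact_zero]

end Pool.Agent.H4.Singer

end

section

/-!
# Growth calculus: modules which are free over the groups of the cliques
-/

set_option autoImplicit false
set_option linter.unusedSectionVars false

open Finset

namespace Pool.Agent.H73.GC

variable {V : Type} [DecidableEq V] [Fintype V]
variable {Y Y' : Type} [AddCommGroup Y] [Module F2 Y] [AddCommGroup Y'] [Module F2 Y']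

theorem BitOn.mono {r E : V → Module.End F2 Y} {s t : Finset V} (h : BitOn r E s) (ht : t ⊆ s) :
    BitOn r E t :=
  ⟨fun v hv => h.sq v (ht hv), fun u hu v hv => h.comm u (ht hu) v (ht hv),
    fun v hv => h.idem v (ht hv), fun v hv => h.bit v (ht hv),
    fun u hu v hv => h.er u (ht hu) v (ht hv), fun u hu v hv => h.ee u (ht hu) v (ht hv)⟩

theorem IsBit.bitOn {G : SimpleGraph V} {U : Finset V} {r E : V → Module.End F2 Y}
    (hN : IsN G U r) (hB : IsBit G U r E) {s : Finset V} (hs : Cq G U s) : BitOn r E s := by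
  have adj : ∀ u ∈ s, ∀ v ∈ s, u ≠ v → G.Adj u v := fun u hu v hv huv =>
    hs.1 (Finset.mem_coe.2 hu) (Finset.mem_coe.2 hv) huv
  refine ⟨fun v hv => hN.sq v (hs.2 hv), ?_, fun v hv => hB.idem v (hs.2 hv),
    fun v hv => hB.bit v (hs.2 hv), ?_, ?_⟩
  · intro u hu v hv y
    by_cases huv : u = v
    · rw [huv]
    · exact hN.comm u (hs.2 hu) v (hs.2 hv) (adj u hu v hv huv) y
  · intro u hu v hv huv y
    exact hB.er u (hs.2 hu) v (hs.2 hv) (adj u hu v hv huv) y
  · intro u hu v hv y
    by_cases huv : u = v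
    · rw [huv]
    · exact hB.ee u (hs.2 hu) v (hs.2 hv) (adj u hu v hv huv) y

/-- in characteristic 2, `y + y = 0` -/
theorem Bit_self (y : Y) : y + y = 0 := ZModModule.add_self y

/-- the element `E v y + r v (E v y)` is invariant under `v` and under `t` -/
theorem Bit_inv {r E : V → Module.End F2 Y} {v : V} {t : Finset V} (hv : v ∉ t)
    (h : BitOn r E (insert v t)) {y : Y} (hy : y ∈ Inv r t) :
    E v y + r v (E v y) ∈ Inv r (insert v t) := by
  intro u hu
  have hvI : v ∈ insert v t := mem_insert_self v t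
  rcases mem_insert.1 hu with rfl | hu'
  · rw [map_add, h.sq u hvI, add_comm]
  · have huI : u ∈ insert v t := mem_insert_of_mem hu'
    have huv : v ≠ u := fun e => hv (e ▸ hu')
    have h1 : r u (E v y) = E v y := by
      rw [← h.er v hvI u huI huv y, hy u hu']
    rw [map_add, h.comm u huI v hvI, h1]

/-- `E v y + r v (E v y) = E v (y + r v y) + r v y` -/
theorem Bit_eq {r E : V → Module.End F2 Y} {v : V} {s : Finset V} (hv : v ∈ s) (h : BitOn r E s)
    (y : Y) : E v y + r v (E v y) = E v (y + r v y) + r v y := by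
  have h1 := h.bit v hv y
  have h2 : r v (E v y) = r v y + E v (r v y) := by
    have h3 : r v y + E v (r v y) = (E v (r v y) + r v (E v y)) + E v (r v y) :=
      congrArg (· + E v (r v y)) h1.symm
    rw [h3, add_comm (E v (r v y)) (r v (E v y)), add_assoc, Bit_self, add_zero]
  rw [h2, map_add]
  abel

/-- Invariants are exact. Induction over `s`: let `lam y₁ = y'` with `y₁` invariant under `t`, and
`y = E v y₁ + r v (E v y₁)`. Then `r v y = y`, `y` is invariant under `t`, and `lam y = y'`: put
`δ = r v y₁ + y₁`, `lam δ = 0`, so `lam (E v δ) = 0`, and `lam y = lam (E v (r v y₁)) + lam (r v (E v y₁)) =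
lam (r v y₁) = y'`. -/
theorem inv_map {r E : V → Module.End F2 Y} {r' : V → Module.End F2 Y'} {s : Finset V}
    (h : BitOn r E s) (lam : Y →ₗ[F2] Y') (hl : Function.Surjective lam)
    (hr : ∀ v ∈ s, ∀ y, lam (r v y) = r' v (lam y))
    (hE : ∀ v ∈ s, ∀ y, lam y = 0 → lam (E v y) = 0) : (Inv r s).map lam = Inv r' s := by
  induction s using Finset.induction_on with
  | empty =>
    ext y'
    constructor
    · intro _ v hv
      exact absurd hv (notMem_empty v)
    · intro _
      obtain ⟨y, rfl⟩ := hl y'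
      exact ⟨y, fun v hv => absurd hv (notMem_empty v), rfl⟩
  | insert v t hvt ih =>
    have hvI : v ∈ insert v t := mem_insert_self v t
    have ih' := ih (h.mono (subset_insert v t)) (fun u hu => hr u (mem_insert_of_mem hu))
      (fun u hu => hE u (mem_insert_of_mem hu))
    ext y'
    constructor
    · rintro ⟨y, hy, rfl⟩ u hu
      rw [← hr u hu, hy u hu]
    · intro hy'
      have h1 : y' ∈ (Inv r t).map lam := by
        rw [ih']
        exact fun u hu => hy' u (mem_insert_of_mem hu)
      obtain ⟨y₁, hy₁, rfl⟩ := h1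
      refine ⟨E v y₁ + r v (E v y₁), Bit_inv hvt h hy₁, ?_⟩
      have h2 : lam (r v y₁) = lam y₁ := by
        rw [hr v hvI]
        exact hy' v hvI
      have h3 : lam (y₁ + r v y₁) = 0 := by
        rw [map_add, h2, Bit_self]
      rw [Bit_eq hvI h, map_add, hE v hvI _ h3, zero_add, h2]

/-- The same for the systems. -/
theorem Sy_map {X : Finset V → Prop} {r E : V → Module.End F2 Y} {r' : V → Module.End F2 Y'}
    (h : ∀ s, X s → BitOn r E s) (lam : Y →ₗ[F2] Y') (hl : Function.Surjective lam)
    (hr : ∀ s, X s → ∀ v ∈ s, ∀ y, lam (r v y) = r' v (lam y))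
    (hE : ∀ s, X s → ∀ v ∈ s, ∀ y, lam y = 0 → lam (E v y) = 0) (s : Finset V) :
    (Sy X r s).map lam = Sy X r' s := by
  by_cases hX : X s
  · have h1 := inv_map (h s hX) lam hl (hr s hX) (hE s hX)
    ext y'
    constructor
    · rintro ⟨y, hy, rfl⟩
      have h2 : lam y ∈ Inv r' s := by
        rw [← h1]
        exact ⟨y, hy.2, rfl⟩
      exact ⟨fun hn => absurd hX hn, h2⟩
    · intro hy'
      have h2 : y' ∈ (Inv r s).map lam := by
        rw [h1]
        exact hy'.2
      obtain ⟨y, hy, rfl⟩ := h2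
      exact ⟨y, ⟨fun hn => absurd hX hn, hy⟩, rfl⟩
  · ext y'
    constructor
    · rintro ⟨y, hy, rfl⟩
      rw [hy.1 hX, map_zero]
      exact Submodule.zero_mem _
    · intro hy'
      rw [hy'.1 hX]
      exact Submodule.zero_mem _

/-- `Y` is free over the group of the `r v`, `v ∈ s`: induction over `s`; `Inv r (insert v s)` is the
image of `Inv r s` under `1 + r v`, and the kernel of this map on `Inv r s` is `Inv r (insert v s)`. -/
theorem finrank_Inv [Finite Y] {r E : V → Module.End F2 Y} {s : Finset V} (h : BitOn r E s) :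
    Module.finrank F2 (Inv r s) * 2 ^ s.card = Module.finrank F2 Y := by
  induction s using Finset.induction_on with
  | empty =>
    have h1 : Inv r ∅ = ⊤ := by
      rw [eq_top_iff]
      intro y _ v hv
      exact absurd hv (notMem_empty v)
    rw [h1, card_empty, pow_zero, mul_one, finrank_top]
  | insert v t hvt ih =>
    have hvI : v ∈ insert v t := mem_insert_self v t
    have ih' := ih (h.mono (subset_insert v t))
    set φ : Module.End F2 Y := 1 + r v with hφ
    have hφa : ∀ y, φ y = y + r v y := fun y => by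
      rw [hφ, LinearMap.add_apply, Module.End.one_apply]
    have hfin : Module.Finite F2 Y := Module.Finite.of_finite
    have hrange : LinearMap.range (φ.domRestrict (Inv r t)) = Inv r (insert v t) := by
      ext y
      constructor
      · rintro ⟨⟨z, hz⟩, rfl⟩ u hu
        rw [LinearMap.domRestrict_apply, hφa]
        rcases mem_insert.1 hu with rfl | hu'
        · rw [map_add, h.sq u hvI, add_comm]
        · rw [map_add, h.comm u hu v hvI, hz u hu']
      · intro hy
        have hyt : y ∈ Inv r t := fun u hu => hy u (mem_insert_of_mem hu)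
        have hEt : E v y ∈ Inv r t := by
          intro u hu
          have huv : v ≠ u := fun e => hvt (e ▸ hu)
          rw [← h.er v hvI u (mem_insert_of_mem hu) huv y, hyt u hu]
        refine ⟨⟨E v y, hEt⟩, ?_⟩
        rw [LinearMap.domRestrict_apply, hφa, Bit_eq hvI h, hy v hvI, Bit_self, map_zero, zero_add]
    have hker : Module.finrank F2 (LinearMap.ker (φ.domRestrict (Inv r t))) =
        Module.finrank F2 (Inv r (insert v t)) := by
      have hle : Inv r (insert v t) ≤ Inv r t := fun y hy u hu => hy u (mem_insert_of_mem hu)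
      have h1 : LinearMap.ker (φ.domRestrict (Inv r t)) =
          (Inv r (insert v t)).comap (Inv r t).subtype := by
        ext ⟨y, hy⟩
        rw [LinearMap.mem_ker, LinearMap.domRestrict_apply, hφa, Submodule.mem_comap]
        constructor
        · intro h0 u hu
          rcases mem_insert.1 hu with rfl | hu'
          · have : r u y = y := by
              have h2 : r u y = (y + r u y) + y := by
                rw [add_comm y (r u y), add_assoc, Bit_self, add_zero]
              rw [h2, h0, zero_add]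
            exact this
          · exact hy u hu'
        · intro h0
          have h2 : r v y = y := h0 v hvI
          rw [h2, Bit_self]
      rw [h1]
      exact (Submodule.comapSubtypeEquivOfLe hle).finrank_eq
    have hrn := LinearMap.finrank_range_add_finrank_ker (φ.domRestrict (Inv r t))
    rw [hrange, hker] at hrn
    rw [card_insert_of_notMem hvt, pow_succ, ← ih', ← hrn]
    ring

end Pool.Agent.H73.GC

end

section

/-!
# Growth calculus: unipotent modules
-/

set_option autoImplicit false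
set_option linter.unusedSectionVars false

open Finset

namespace Pool.Agent.H73.GC

variable {V : Type} [DecidableEq V] [Fintype V]
variable {Y : Type} [AddCommGroup Y] [Module F2 Y]

private theorem Fil_self (y : Y) : y + y = 0 := by
  have h : (2 : F2) • y = y + y := two_smul F2 y
  have h2 : (2 : F2) = 0 := by decide
  rw [← h, h2, zero_smul]

private theorem Fil_cancel {y z : Y} (h : y + z = 0) : z = y := by
  have := Fil_self y
  calc z = (y + y) + z := by rw [this, zero_add]
    _ = y + (y + z) := by rw [add_assoc]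
    _ = y := by rw [h, add_zero]

/-- the filtration of a group action -/
private def FilF {P : Type} [Group P] (ρ : P →* Module.End F2 Y) : ℕ → Submodule F2 Y
  | 0 => ⊥
  | j + 1 => ⨅ p : P, (FilF ρ j).comap ((1 : Module.End F2 Y) + ρ p)

private theorem FilF_succ {P : Type} [Group P] (ρ : P →* Module.End F2 Y) (j : ℕ) (y : Y) :
    y ∈ FilF ρ (j + 1) ↔ ∀ p : P, y + ρ p y ∈ FilF ρ j := by
  simp only [FilF, Submodule.mem_iInf, Submodule.mem_comap, LinearMap.add_apply,
    Module.End.one_apply]

private theorem FilF_stab {P : Type} [Group P] (ρ : P →* Module.End F2 Y) (j : ℕ) (q : P) (y : Y)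
    (hy : y ∈ FilF ρ j) : ρ q y ∈ FilF ρ j := by
  cases j with
  | zero =>
    have h0 : y = 0 := by simpa [FilF] using hy
    rw [h0, map_zero]
    exact Submodule.zero_mem _
  | succ j =>
    rw [FilF_succ] at hy ⊢
    intro p
    have h1 := hy q
    have h2 := hy (p * q)
    have h3 := Submodule.add_mem _ h1 h2
    have h4 : y + ρ q y + (y + ρ (p * q) y) = ρ q y + ρ p (ρ q y) := by
      rw [map_mul, Module.End.mul_apply]
      have := Fil_self y
      calc y + ρ q y + (y + ρ p (ρ q y)) = (y + y) + (ρ q y + ρ p (ρ q y)) := by abel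
        _ = ρ q y + ρ p (ρ q y) := by rw [this, zero_add]
    rwa [h4] at h3

private theorem FilF_mono {P : Type} [Group P] (ρ : P →* Module.End F2 Y) : Monotone (FilF ρ) := by
  refine monotone_nat_of_le_succ fun j y hy => ?_
  rw [FilF_succ]
  intro p
  exact Submodule.add_mem _ hy (FilF_stab ρ j p y hy)

private theorem FilF_lt {P : Type} [Group P] [Finite P] (hP : IsPGroup 2 P) [Finite Y]
    (ρ : P →* Module.End F2 Y) (j : ℕ) (hj : FilF ρ j ≠ ⊤) : FilF ρ j < FilF ρ (j + 1) := by
  refine lt_of_le_of_ne (FilF_mono ρ (Nat.le_succ j)) fun heq => ?_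
  let _ : MulAction P (Y ⧸ FilF ρ j) :=
    { smul := fun p => Submodule.mapQ (FilF ρ j) (FilF ρ j) (ρ p) (fun y hy => FilF_stab ρ j p y hy)
      one_smul := by
        intro q
        obtain ⟨y, rfl⟩ := Submodule.mkQ_surjective _ q
        change Submodule.mapQ (FilF ρ j) (FilF ρ j) (ρ 1) _ (Submodule.mkQ _ y) = Submodule.mkQ _ y
        rw [Submodule.mkQ_apply, Submodule.mapQ_apply, map_one, Module.End.one_apply]
      mul_smul := by
        intro a b q
        obtain ⟨y, rfl⟩ := Submodule.mkQ_surjective _ q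
        change Submodule.mapQ (FilF ρ j) (FilF ρ j) (ρ (a * b)) _ (Submodule.mkQ _ y) =
          Submodule.mapQ (FilF ρ j) (FilF ρ j) (ρ a) _
            (Submodule.mapQ (FilF ρ j) (FilF ρ j) (ρ b) _ (Submodule.mkQ _ y))
        rw [Submodule.mkQ_apply, Submodule.mapQ_apply, Submodule.mapQ_apply, Submodule.mapQ_apply,
          map_mul, Module.End.mul_apply] }
  have hsm : ∀ (p : P) (y : Y), p • (Submodule.Quotient.mk y : Y ⧸ FilF ρ j) =
      Submodule.Quotient.mk (ρ p y) := by
    intro p y
    change Submodule.mapQ (FilF ρ j) (FilF ρ j) (ρ p) _ (Submodule.Quotient.mk y) = _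
    rw [Submodule.mapQ_apply]
  have : Finite (Y ⧸ FilF ρ j) := Finite.of_surjective _ (Submodule.mkQ_surjective _)
  obtain ⟨x, hx⟩ : ∃ x : Y, x ∉ FilF ρ j := by
    by_contra hcon
    push Not at hcon
    exact hj (Submodule.eq_top_iff'.mpr hcon)
  have hx0 : (Submodule.Quotient.mk x : Y ⧸ FilF ρ j) ≠ 0 := by
    intro h
    exact hx ((Submodule.Quotient.mk_eq_zero _).mp h)
  have hdvd : 2 ∣ Nat.card (Y ⧸ FilF ρ j) := by
    have h2 : addOrderOf (Submodule.Quotient.mk x : Y ⧸ FilF ρ j) = 2 := by
      apply addOrderOf_eq_prime _ hx0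
      rw [two_nsmul]
      exact Fil_self _
    have h3 := addOrderOf_dvd_natCard (Submodule.Quotient.mk x : Y ⧸ FilF ρ j)
    rwa [h2] at h3
  have : Fact (Nat.Prime 2) := ⟨Nat.prime_two⟩
  have hfix : (0 : Y ⧸ FilF ρ j) ∈ MulAction.fixedPoints P (Y ⧸ FilF ρ j) := by
    intro p
    have := hsm p 0
    rw [map_zero] at this
    exact this
  obtain ⟨b, hb, hb0⟩ := hP.exists_fixed_point_of_prime_dvd_card_of_fixed_point _ hdvd hfix
  obtain ⟨y, rfl⟩ := Submodule.Quotient.mk_surjective _ b
  have hy : y ∈ FilF ρ (j + 1) := by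
    rw [FilF_succ]
    intro p
    have h1 := hb p
    rw [hsm] at h1
    have h2 : (Submodule.Quotient.mk (y + ρ p y) : Y ⧸ FilF ρ j) = 0 := by
      rw [Submodule.Quotient.mk_add, h1]
      exact Fil_self _
    exact (Submodule.Quotient.mk_eq_zero _).mp h2
  rw [← heq] at hy
  exact hb0 ((Submodule.Quotient.mk_eq_zero _).mpr hy).symm

/-- Modules over finite two-groups: `F 0 = 0`, `F (j + 1)` = the vectors `y` with `y + ρ p y ∈ F j` for all
`p : P`; if `F j` is not everything, then `F (j + 1)` is larger (a two-group acting on the finite quotient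
`Y / F j` has a fixed vector besides `0`, `IsPGroup.card_modEq_card_fixedPoints`). -/
theorem fil_group {P : Type} [Group P] [Finite P] (hP : IsPGroup 2 P) [Finite Y]
    (ρ : P →* Module.End F2 Y) (U : Finset V) (r : V → Module.End F2 Y) (g : V → P)
    (hg : ∀ v ∈ U, r v = ρ (g v)) : Fil U r := by
  have : Module.Finite F2 Y := Module.Finite.of_finite
  have hgrow : ∀ j, FilF ρ j = ⊤ ∨ j ≤ Module.finrank F2 (FilF ρ j) := by
    intro j
    induction j with
    | zero => exact Or.inr (Nat.zero_le _)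
    | succ j ih =>
      by_cases hj : FilF ρ j = ⊤
      · left
        exact top_le_iff.mp (hj ▸ FilF_mono ρ (Nat.le_succ j))
      · right
        have h1 : j ≤ Module.finrank F2 (FilF ρ j) := ih.resolve_left hj
        have h2 := Submodule.finrank_lt_finrank_of_lt (FilF_lt hP ρ j hj)
        omega
  have htop : FilF ρ (Module.finrank F2 Y) = ⊤ := by
    rcases hgrow (Module.finrank F2 Y) with h | h
    · exact h
    · exact Submodule.eq_top_of_finrank_eq (le_antisymm (Submodule.finrank_le _) h)
  refine ⟨Module.finrank F2 Y, FilF ρ, FilF_mono ρ, rfl, htop, ?_⟩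
  intro j v hv y hy
  rw [hg v hv]
  exact (FilF_succ ρ j y).mp hy (g v)

/-- A unipotent module which is not zero has an invariant vector. -/
theorem exists_fixed {U : Finset V} {r : V → Module.End F2 Y} (h : Fil U r) [Nontrivial Y] :
    ∃ y : Y, y ≠ 0 ∧ ∀ v ∈ U, r v y = y := by
  classical
  obtain ⟨n, F, -, h0, hn, hF⟩ := h
  have hex : ∃ j, F j ≠ ⊥ := ⟨n, by rw [hn]; exact top_ne_bot⟩
  have hj := Nat.find_spec hex
  have hmin := fun m => Nat.find_min hex (m := m)
  revert hj hmin
  generalize Nat.find hex = j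
  intro hj hmin
  cases j with
  | zero => exact absurd h0 hj
  | succ k =>
    have hk : F k = ⊥ := by
      by_contra hcon
      exact hmin k (Nat.lt_succ_self k) hcon
    obtain ⟨y, hy, hy0⟩ := Submodule.exists_mem_ne_zero_of_ne_bot hj
    refine ⟨y, hy0, fun v hv => ?_⟩
    have h1 := hF k v hv y hy
    rw [hk, Submodule.mem_bot] at h1
    exact Fil_cancel h1

private theorem Fil_sq (M : Module.End F2 Y) : (1 + M) ^ 2 = 1 + M ^ 2 := by
  have h : M + M = 0 := by
    ext y
    exact Fil_self _
  have h1 : (1 + M) ^ 2 = 1 + (M + M) + M ^ 2 := by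
    rw [pow_two, pow_two, add_mul, mul_add, mul_add, one_mul, one_mul, mul_one]
    abel
  rw [h1, h, add_zero]

private theorem Fil_pow (M : Module.End F2 Y) (n : ℕ) : (1 + M) ^ (2 ^ n) = 1 + M ^ (2 ^ n) := by
  induction n with
  | zero => simp
  | succ n ih => rw [pow_succ, pow_mul, ih, Fil_sq, ← pow_mul]

/-- the involutions as units -/
private def FilU {U : Finset V} {r : V → Module.End F2 Y} (h : ∀ v ∈ U, ∀ y, r v (r v y) = y) (v : V)
    (hv : v ∈ U) : (Module.End F2 Y)ˣ where
  val := r v
  inv := r v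
  val_inv := by
    ext y
    exact h v hv y
  inv_val := by
    ext y
    exact h v hv y

/-- The involutions of a unipotent finite module generate a finite two-group: there are a finite
two-group `P`, a representation `ρ` and elements `g v` with `g v * g v = 1`, commuting for the edges, with
`ρ (g v) = r v` for `v ∈ U` and `g v = 1` for `v ∉ U`. (`P` = the subgroup of the units of `Module.End F2 Y`
generated by the `r v`, `v ∈ U`; every element `p` of it satisfies `(p + 1) (F (j + 1)) ≤ F j`, so
`(p + 1) ^ n = 0` and `p ^ (2 ^ n) = 1`.) -/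
theorem exists_group [Finite Y] {G : SimpleGraph V} {U : Finset V} {r : V → Module.End F2 Y}
    (h : IsN G U r) : ∃ (P : Type) (_ : Group P) (_ : Finite P) (ρ : P →* Module.End F2 Y)
      (g : V → P), IsPGroup 2 P ∧ (∀ v ∈ U, ρ (g v) = r v) ∧ (∀ v ∉ U, g v = 1) ∧
        (∀ v, g v * g v = 1) ∧ ∀ u ∈ U, ∀ v ∈ U, G.Adj u v → g u * g v = g v * g u := by
  classical
  obtain ⟨n, F, hmono, h0, hn, hF⟩ := h.fil
  set gen : Set (Module.End F2 Y)ˣ := {u | ∃ (v : V) (hv : v ∈ U), u = FilU h.sq v hv} with hgen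
  have hprop : ∀ u ∈ Subgroup.closure gen, ∀ j, ∀ y ∈ F (j + 1),
      y + (u : Module.End F2 Y) y ∈ F j := by
    intro u hu
    induction hu using Subgroup.closure_induction'' with
    | mem x hx =>
      obtain ⟨v, hv, rfl⟩ := hx
      intro j y hy
      exact hF j v hv y hy
    | inv_mem x hx =>
      obtain ⟨v, hv, rfl⟩ := hx
      intro j y hy
      exact hF j v hv y hy
    | one =>
      intro j y hy
      rw [Units.val_one, Module.End.one_apply, Fil_self]
      exact Submodule.zero_mem _
    | mul x y hx hy ihx ihy =>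
      intro j z hz
      rw [Units.val_mul, Module.End.mul_apply]
      have h1 := ihx j z hz
      have h2 := ihy j z hz
      have h3 : (z + (y : Module.End F2 Y) z) +
          (x : Module.End F2 Y) (z + (y : Module.End F2 Y) z) ∈ F j := by
        cases j with
        | zero =>
          have hz0 : z + (y : Module.End F2 Y) z = 0 := by
            rw [h0] at h2
            exact (Submodule.mem_bot _).mp h2
          rw [hz0, map_zero, add_zero]
          exact Submodule.zero_mem _
        | succ j => exact hmono (Nat.le_succ j) (ihx j _ h2)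
      have h4 := Submodule.add_mem _ (Submodule.add_mem _ h1 h2) h3
      have h5 : z + (x : Module.End F2 Y) z + (z + (y : Module.End F2 Y) z) +
          (z + (y : Module.End F2 Y) z + (x : Module.End F2 Y) (z + (y : Module.End F2 Y) z)) =
          z + (x : Module.End F2 Y) ((y : Module.End F2 Y) z) := by
        rw [map_add]
        have e1 := Fil_self z
        have e2 := Fil_self ((x : Module.End F2 Y) z)
        have e3 := Fil_self ((y : Module.End F2 Y) z)
        calc z + (x : Module.End F2 Y) z + (z + (y : Module.End F2 Y) z) +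
          (z + (y : Module.End F2 Y) z + ((x : Module.End F2 Y) z +
            (x : Module.End F2 Y) ((y : Module.End F2 Y) z))) =
            (z + z) + ((x : Module.End F2 Y) z + (x : Module.End F2 Y) z) +
              ((y : Module.End F2 Y) z + (y : Module.End F2 Y) z) +
              (z + (x : Module.End F2 Y) ((y : Module.End F2 Y) z)) := by abel
          _ = z + (x : Module.End F2 Y) ((y : Module.End F2 Y) z) := by
            rw [e1, e2, e3, zero_add, zero_add, zero_add]
      rwa [h5] at h4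
  have : Finite (Module.End F2 Y) :=
    Finite.of_injective (fun f : Module.End F2 Y => (f : Y → Y)) DFunLike.coe_injective
  refine ⟨Subgroup.closure gen, inferInstance, inferInstance,
    (Units.coeHom _).comp (Subgroup.closure gen).subtype,
    fun v => if hv : v ∈ U then ⟨FilU h.sq v hv, Subgroup.subset_closure ⟨v, hv, rfl⟩⟩ else 1,
    ?_, ?_, ?_, ?_, ?_⟩
  · rintro ⟨u, hu⟩
    refine ⟨n, ?_⟩
    apply Subtype.ext
    apply Units.ext
    change (u : Module.End F2 Y) ^ (2 ^ n) = 1
    set M : Module.End F2 Y := 1 + (u : Module.End F2 Y) with hM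
    have hu1 : (u : Module.End F2 Y) = 1 + M := by
      ext y
      rw [hM]
      change (u : Module.End F2 Y) y = y + (y + (u : Module.End F2 Y) y)
      rw [← add_assoc, Fil_self, zero_add]
    have hMk : ∀ k, ∀ y ∈ F k, (M ^ k) y = 0 := by
      intro k
      induction k with
      | zero =>
        intro y hy
        rw [h0, Submodule.mem_bot] at hy
        rw [hy, map_zero]
      | succ k ih =>
        intro y hy
        rw [pow_succ, Module.End.mul_apply]
        exact ih _ (hprop u hu k y hy)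
    have hMn : M ^ n = 0 := by
      ext y
      exact hMk n y (by rw [hn]; exact Submodule.mem_top)
    rw [hu1, Fil_pow, pow_eq_zero_of_le (Nat.lt_two_pow_self (n := n)).le hMn, add_zero]
  · intro v hv
    simp only [dif_pos hv]
    rfl
  · intro v hv
    simp only [dif_neg hv]
  · intro v
    by_cases hv : v ∈ U
    · simp only [dif_pos hv]
      apply Subtype.ext
      apply Units.ext
      ext y
      exact h.sq v hv y
    · simp only [dif_neg hv, mul_one]
  · intro u hu v hv huv
    simp only [dif_pos hu, dif_pos hv]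
    apply Subtype.ext
    apply Units.ext
    ext y
    exact h.comm u hu v hv huv y

end Pool.Agent.H73.GC

end

section

/-!
# Project FOLD: integer matrices for the twisted homology
-/

set_option autoImplicit false
set_option linter.unusedSectionVars false

open Finset

namespace Pool.Agent.H85.Fold

open Pool.Agent.H4.Singer (sg)

namespace ModM

/-! ## Matrices of natural families of linear maps -/

section Nat

variable {m n : Type} [Fintype n] [DecidableEq n]

/-- the matrix of a natural family of linear maps -/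
theorem map_toMatrix (L : ∀ (R : Type) [CommRing R], (n → R) →ₗ[R] (m → R))
    (hL : ∀ (R : Type) [CommRing R] (x : n → ℤ) (j : m),
      L R (fun k => (x k : R)) j = ((L ℤ x j : ℤ) : R)) (K : Type) [Field K] :
    (LinearMap.toMatrix' (L ℤ)).map (Int.cast : ℤ → K) = LinearMap.toMatrix' (L K) := by
  ext j k
  rw [Matrix.map_apply, LinearMap.toMatrix'_apply, LinearMap.toMatrix'_apply, ← hL]
  have h1 : (fun k' => (((Pi.single k 1 : n → ℤ) k' : ℤ) : K)) = Pi.single k 1 := by
    funext k'
    by_cases h : k' = k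
    · simp [h]
    · simp [h]
  rw [h1]

/-- the rank of the matrix of a natural family of linear maps -/
theorem rank_eq (L : ∀ (R : Type) [CommRing R], (n → R) →ₗ[R] (m → R))
    (hL : ∀ (R : Type) [CommRing R] (x : n → ℤ) (j : m),
      L R (fun k => (x k : R)) j = ((L ℤ x j : ℤ) : R)) (K : Type) [Field K] :
    ((LinearMap.toMatrix' (L ℤ)).map (Int.cast : ℤ → K)).rank =
      Module.finrank K (LinearMap.range (L K)) := by
  rw [map_toMatrix L hL K, Matrix.rank, ← Matrix.toLin'_apply', Matrix.toLin'_toMatrix']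

/-- a bound for the rows of a matrix -/
theorem row_bound (L : (n → ℤ) →ₗ[ℤ] (m → ℤ)) (C : ℤ)
    (h : ∀ x : n → ℤ, (∀ k, |x k| ≤ 1) → ∀ j, |L x j| ≤ C) (j : m) :
    ∑ k, |LinearMap.toMatrix' L j k| ≤ C := by
  set x : n → ℤ := fun k => if 0 ≤ LinearMap.toMatrix' L j k then 1 else -1 with hx
  have h1 : ∑ k, |LinearMap.toMatrix' L j k| = L x j := by
    have h2 : L x = (LinearMap.toMatrix' L).mulVec x := by
      rw [← Matrix.toLin'_apply, Matrix.toLin'_toMatrix']
    rw [h2]
    simp only [Matrix.mulVec, dotProduct]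
    refine Finset.sum_congr rfl fun k _ => ?_
    simp only [hx]
    split_ifs with h3
    · rw [abs_of_nonneg h3, mul_one]
    · rw [abs_of_neg (not_le.1 h3)]
      ring
  rw [h1]
  refine (le_abs_self _).trans (h x (fun k => ?_) j)
  simp only [hx]
  split_ifs <;> simp

end Nat

/-! ## The operators -/

section Ops

variable {V D Ω : Type} [DecidableEq V] [Fintype V] [Fintype D] [DecidableEq D]

/-- the action of an integer matrix -/
def mac (R : Type) [CommRing R] (M : Matrix D D ℤ) : (D → R) →ₗ[R] (D → R) :=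
  (M.map (Int.cast : ℤ → R)).mulVecLin

theorem mac_apply (R : Type) [CommRing R] (M : Matrix D D ℤ) (x : D → R) (d : D) :
    mac R M x d = ∑ d', (M d d' : R) * x d' := rfl

theorem mac_cast (R : Type) [CommRing R] (M : Matrix D D ℤ) (x : D → ℤ) (d : D) :
    mac R M (fun d => (x d : R)) d = ((mac ℤ M x d : ℤ) : R) := by
  simp [mac_apply]

/-- the operator `L + c A` -/
def Lop (R : Type) [CommRing R] (M : Matrix D D ℤ) (t : Ω → Ω) (c : ℤ) :
    (Ω → D → R) →ₗ[R] (Ω → D → R) where
  toFun f ω := f (t ω) + (c : R) • mac R M (f ω)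
  map_add' f g := by
    funext ω
    simp only [Pi.add_apply, map_add, smul_add]
    abel
  map_smul' r f := by
    funext ω
    simp only [Pi.smul_apply, map_smul, RingHom.id_apply, smul_add]
    rw [smul_comm]

theorem Lop_apply (R : Type) [CommRing R] (M : Matrix D D ℤ) (t : Ω → Ω) (c : ℤ)
    (f : Ω → D → R) (ω : Ω) : Lop R M t c f ω = f (t ω) + (c : R) • mac R M (f ω) := rfl

theorem Lop_cast (R : Type) [CommRing R] (M : Matrix D D ℤ) (t : Ω → Ω) (c : ℤ)
    (f : Ω → D → ℤ) : Lop R M t c (fun ω d => (f ω d : R)) =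
      fun ω d => ((Lop ℤ M t c f ω d : ℤ) : R) := by
  funext ω d
  simp only [Lop_apply, Pi.add_apply, Pi.smul_apply, smul_eq_mul, mac_cast]
  push_cast
  ring

/-- the boundary operator over a ring -/
def tdR (R : Type) [CommRing R] (ν : V → ℕ) :
    (Finset V → Ω → D → R) →ₗ[R] (Finset V → Ω → D → R) where
  toFun f τ ω := ∑ v ∈ τᶜ, (sg ν v τ : R) • f (insert v τ) ω
  map_add' f g := by
    funext τ ω
    simp [smul_add, Finset.sum_add_distrib]
  map_smul' c f := by
    funext τ ω
    simp only [Pi.smul_apply, RingHom.id_apply, Finset.smul_sum]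
    exact Finset.sum_congr rfl fun v _ => by rw [smul_comm]

theorem tdR_apply (R : Type) [CommRing R] (ν : V → ℕ) (f : Finset V → Ω → D → R)
    (τ : Finset V) (ω : Ω) (d : D) :
    tdR R ν f τ ω d = ∑ v ∈ τᶜ, (sg ν v τ : R) * f (insert v τ) ω d := by
  simp [tdR]

theorem tdR_cast (R : Type) [CommRing R] (ν : V → ℕ) (f : Finset V → Ω → D → ℤ)
    (τ : Finset V) (ω : Ω) (d : D) :
    tdR R ν (fun σ ω d => (f σ ω d : R)) τ ω d = ((tdR ℤ ν f τ ω d : ℤ) : R) := by
  simp [tdR_apply]

/-- currying -/
def cur (R : Type) [CommRing R] :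
    ((Finset V × Ω × D) → R) ≃ₗ[R] (Finset V → Ω → D → R) where
  toFun x σ ω d := x (σ, ω, d)
  invFun f p := f p.1 p.2.1 p.2.2
  map_add' _ _ := rfl
  map_smul' _ _ := rfl
  left_inv _ := rfl
  right_inv _ := rfl

/-! ## Cycles and boundaries -/

/-! ## Bounds -/

theorem mac_bound (M : Matrix D D ℤ) (x : D → ℤ) (B : ℤ) (hB : ∀ d, |x d| ≤ B) (d : D) :
    |mac ℤ M x d| ≤ (∑ e, ∑ d', |M e d'|) * B := by
  have hB0 : 0 ≤ B := (abs_nonneg _).trans (hB d)
  rw [mac_apply]
  calc |∑ d', ((M d d' : ℤ) : ℤ) * x d'| ≤ ∑ d', |((M d d' : ℤ) : ℤ) * x d'| :=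
        Finset.abs_sum_le_sum_abs _ _
    _ ≤ ∑ d', |M d d'| * B := by
        refine Finset.sum_le_sum fun d' _ => ?_
        rw [abs_mul]
        exact mul_le_mul_of_nonneg_left (hB d') (abs_nonneg _)
    _ = (∑ d', |M d d'|) * B := by rw [Finset.sum_mul]
    _ ≤ _ := by
        refine mul_le_mul_of_nonneg_right ?_ hB0
        exact Finset.single_le_sum (f := fun e => ∑ d', |M e d'|)
          (fun e _ => Finset.sum_nonneg fun _ _ => abs_nonneg _) (Finset.mem_univ d)

/-- the bound for the matrices -/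
def bdA (A : V → Matrix D D ℤ) : ℤ := ∑ v, ∑ e, ∑ d', |A v e d'|

omit [DecidableEq V] [DecidableEq D] in
theorem bdA_nonneg (A : V → Matrix D D ℤ) : 0 ≤ bdA A :=
  Finset.sum_nonneg fun _ _ => Finset.sum_nonneg fun _ _ => Finset.sum_nonneg fun _ _ =>
    abs_nonneg _

omit [DecidableEq V] [DecidableEq D] in
theorem le_bdA (A : V → Matrix D D ℤ) (v : V) : ∑ e, ∑ d', |A v e d'| ≤ bdA A :=
  Finset.single_le_sum (f := fun v => ∑ e, ∑ d', |A v e d'|)
    (fun _ _ => Finset.sum_nonneg fun _ _ => Finset.sum_nonneg fun _ _ => abs_nonneg _)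
    (Finset.mem_univ v)

theorem Lop_bound (A : V → Matrix D D ℤ) (v : V) (t : Ω → Ω) (c : ℤ) (hc : |c| = 1)
    (f : Ω → D → ℤ) (B : ℤ) (hB : ∀ ω d, |f ω d| ≤ B) (ω : Ω) (d : D) :
    |Lop ℤ (A v) t c f ω d| ≤ (1 + bdA A) * B := by
  have hB0 : 0 ≤ B := (abs_nonneg _).trans (hB ω d)
  rw [Lop_apply, Pi.add_apply, Pi.smul_apply, smul_eq_mul]
  refine (abs_add_le _ _).trans ?_
  rw [abs_mul, Int.cast_id, hc, one_mul, add_mul, one_mul]
  refine add_le_add (hB _ _) ((mac_bound _ _ B (hB ω) d).trans ?_)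
  exact mul_le_mul_of_nonneg_right (le_bdA A v) hB0

theorem tdR_bound (ν : V → ℕ) (f : Finset V → Ω → D → ℤ) (B : ℤ)
    (hB : ∀ σ ω d, |f σ ω d| ≤ B) (τ : Finset V) (ω : Ω) (d : D) :
    |tdR ℤ ν f τ ω d| ≤ (Fintype.card V : ℤ) * B := by
  have hB0 : 0 ≤ B := (abs_nonneg _).trans (hB τ ω d)
  rw [tdR_apply]
  refine (Finset.abs_sum_le_sum_abs _ _).trans ?_
  calc ∑ v ∈ τᶜ, |((sg ν v τ : ℤ) : ℤ) * f (insert v τ) ω d| ≤ ∑ v ∈ τᶜ, B := by
        refine Finset.sum_le_sum fun v _ => ?_
        rw [abs_mul]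
        have : |sg ν v τ| = 1 := by
          unfold sg
          rw [abs_pow, abs_neg, abs_one, one_pow]
        rw [this, one_mul]
        exact hB _ _ _
    _ = (τᶜ.card : ℤ) * B := by rw [Finset.sum_const, nsmul_eq_mul]
    _ ≤ _ := by
        refine mul_le_mul_of_nonneg_right ?_ hB0
        exact_mod_cast Finset.card_le_univ _

end Ops

end ModM

end Pool.Agent.H85.Fold

end

section

/-!
# Project FOLD, second stage: definitions

Twisted chains of induced subgraphs, over arbitrary fields; growth; the class of graphs.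
-/

set_option autoImplicit false

open Finset

namespace Pool.Agent.H85.Fold2

open Pool.Agent.H85.Fold
open Pool.Agent.H4.Singer (sg)

section

variable (K : Type) [Field K] {V D Ω : Type} [DecidableEq V] [Fintype V] [Fintype D]
  [DecidableEq D]

/-- twisted chains of degree `i` on the induced subgraph on `Y`, over the field `K` -/
def YCh (G : SimpleGraph V) (Y : Finset V) (B : V → Matrix D D K) (s : V → Ω → Ω) (i : ℕ) :
    Submodule K (Finset V → Ω → D → K) where
  carrier := {f | (∀ σ ω, f σ ω ≠ 0 → σ ⊆ Y ∧ Cl G σ ∧ σ.card = i) ∧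
    ∀ σ, ∀ v ∈ σ, ∀ ω, f σ (s v ω) = -(B v).mulVec (f σ ω)}
  zero_mem' := by
    refine ⟨fun σ ω h => absurd rfl h, fun σ v _ ω => by simp⟩
  add_mem' := by
    rintro f g ⟨h1, h2⟩ ⟨h3, h4⟩
    refine ⟨fun σ ω h => ?_, fun σ v hv ω => ?_⟩
    · by_cases hf : f σ ω = 0
      · by_cases hg : g σ ω = 0
        · exact absurd (by simp [hf, hg]) h
        · exact h3 σ ω hg
      · exact h1 σ ω hf
    · simp only [Pi.add_apply]
      rw [h2 σ v hv ω, h4 σ v hv ω]
      simp only [Matrix.mulVec_add]
      abel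
  smul_mem' := by
    rintro c f ⟨h1, h2⟩
    refine ⟨fun σ ω h => h1 σ ω ?_, fun σ v hv ω => ?_⟩
    · intro h0
      exact h (by simp [h0])
    · simp only [Pi.smul_apply]
      rw [h2 σ v hv ω]
      simp only [Matrix.mulVec_smul, smul_neg]

/-- twisted cycles -/
def YZ (G : SimpleGraph V) (Y : Finset V) (B : V → Matrix D D K) (s : V → Ω → Ω) (ν : V → ℕ)
    (i : ℕ) : Submodule K (Finset V → Ω → D → K) := YCh K G Y B s i ⊓ LinearMap.ker (tdl K ν)

/-- twisted boundaries -/
def YB (G : SimpleGraph V) (Y : Finset V) (B : V → Matrix D D K) (s : V → Ω → Ω) (ν : V → ℕ)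
    (i : ℕ) : Submodule K (Finset V → Ω → D → K) := (YCh K G Y B s (i + 1)).map (tdl K ν)

/-- twisted Betti numbers -/
noncomputable def bY (G : SimpleGraph V) (Y : Finset V) (B : V → Matrix D D K) (s : V → Ω → Ω)
    (ν : V → ℕ) (i : ℕ) : ℕ :=
  Module.finrank K (YZ K G Y B s ν i) - Module.finrank K (YB K G Y B s ν i)

/-- untwisted Betti numbers of a group `P` with elements `g v` -/
noncomputable def bP (G : SimpleGraph V) (Y : Finset V) {P : Type} [Group P] (g : V → P)
    (ν : V → ℕ) (i : ℕ) : ℕ :=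
  bY K G Y (fun _ => (1 : Matrix Unit Unit K)) (fun v x => x * g v) ν i

/-- an integer matrix over a field -/
def mc (A : V → Matrix D D ℤ) (v : V) : Matrix D D K := (A v).map (Int.cast : ℤ → K)

end

section

variable {V : Type} [DecidableEq V] [Fintype V]

/-- an integer representation of the right-angled Coxeter group of a graph -/
structure IMod (G : SimpleGraph V) where
  D : Type
  fin : Fintype D
  dec : DecidableEq D
  A : V → Matrix D D ℤ
  sq : ∀ v, A v * A v = 1
  comm : ∀ u v, G.Adj u v → A u * A v = A v * A u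

attribute [instance] IMod.fin IMod.dec

end

end Pool.Agent.H85.Fold2

end

section

/-!
# S9: the finite quotients of the levels

`qD` = the finite quotient `W ⧸ Γ` of a level `Γ` as a group with marked involutions; `gam R v p ∈ Γ` = the element of the
edge from `p` to `p * g v` for the transversal `Quotient.out`.
-/

set_option autoImplicit false
set_option linter.unusedSectionVars false

open Finset

namespace Pool.Agent.S9

open Pool.Agent.H77.SW

variable {V : Type} [DecidableEq V] [Fintype V] {G : SimpleGraph V} {W : Type} [Group W]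

section Quot

variable (R : Rac G W) {Γ : Subgroup W} [Γ.Normal] (hΓ : Lev R Γ)

/-- the bits on the quotient -/
noncomputable def qbh : W ⧸ Γ →* Multiplicative (V → ZMod 2) :=
  QuotientGroup.lift Γ R.bh fun g hg => by
    apply Multiplicative.toAdd.injective
    funext v
    exact hΓ.bits g hg v

/-- the finite quotient of a level -/
noncomputable def qD : PG G (W ⧸ Γ) where
  g v := QuotientGroup.mk (R.s v)
  sq v := by
    rw [← QuotientGroup.mk_mul, R.sq]
    rfl
  comm u v h := by
    rw [← QuotientGroup.mk_mul, ← QuotientGroup.mk_mul, R.comm u v h]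
  b p v := (qbh R hΓ p).toAdd v
  b_mul p q v := by
    rw [map_mul]
    rfl
  b_g u v := R.b_s u v
  two := by
    intro x
    induction x using QuotientGroup.induction_on with
    | _ x =>
      obtain ⟨k, hk⟩ := hΓ.two x
      refine ⟨k, ?_⟩
      rw [← QuotientGroup.mk_pow, QuotientGroup.eq_one_iff]
      exact hk

theorem qD_g (v : V) : (qD R hΓ).g v = QuotientGroup.mk (R.s v) := rfl

/-- the element of `Γ` of the edge from `p` to `p * g v` -/
noncomputable def gam (v : V) (p : W ⧸ Γ) : Γ :=
  ⟨p.out * R.s v * (p * QuotientGroup.mk (R.s v)).out⁻¹, by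
    rw [← QuotientGroup.eq_one_iff]
    rw [QuotientGroup.mk_mul, QuotientGroup.mk_mul, QuotientGroup.mk_inv, QuotientGroup.out_eq', QuotientGroup.out_eq',
      mul_inv_cancel]⟩

theorem gam_coe (v : V) (p : W ⧸ Γ) :
    (gam R v p : W) = p.out * R.s v * (p * QuotientGroup.mk (R.s v)).out⁻¹ := rfl

theorem gam_out (v : V) (p : W ⧸ Γ) : (gam R v p : W) * (p * QuotientGroup.mk (R.s v)).out = p.out * R.s v := by
  rw [gam_coe, inv_mul_cancel_right]

theorem gam_inv (v : V) (p : W ⧸ Γ) : gam R v p * gam R v (p * (qD R hΓ).g v) = 1 := by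
  apply Subtype.ext
  have h1 : p * QuotientGroup.mk (R.s v) * QuotientGroup.mk (R.s v) = p := by
    rw [mul_assoc, ← QuotientGroup.mk_mul, R.sq]
    exact mul_one p
  rw [Subgroup.coe_mul, gam_coe, gam_coe, qD_g, h1]
  have h2 := R.sq v
  simp only [mul_assoc, inv_mul_cancel_left]
  rw [← mul_assoc (R.s v), h2, one_mul, mul_inv_cancel]
  rfl

theorem gam_comm {u v : V} (h : G.Adj u v) (p : W ⧸ Γ) :
    gam R u p * gam R v (p * (qD R hΓ).g u) = gam R v p * gam R u (p * (qD R hΓ).g v) := by
  apply Subtype.ext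
  have h1 : p * QuotientGroup.mk (R.s u) * QuotientGroup.mk (R.s v) = p * QuotientGroup.mk (R.s v) * QuotientGroup.mk (R.s u) := by
    rw [mul_assoc, mul_assoc, ← QuotientGroup.mk_mul, ← QuotientGroup.mk_mul, R.comm u v h]
  rw [Subgroup.coe_mul, Subgroup.coe_mul, gam_coe, gam_coe, gam_coe, gam_coe, qD_g, qD_g, h1]
  simp only [mul_assoc, inv_mul_cancel_left]
  rw [← mul_assoc (R.s u), ← mul_assoc (R.s v), R.comm u v h]

end Quot

/-- the operators on the functions `P → N` with the edge operators `L` -/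
def rL {K : Type} [Field K] {P : Type} [Group P] (D : PG G P) {N : Type} [AddCommGroup N] [Module K N]
    (L : V → P → N →ₗ[K] N) (v : V) : (P → N) →ₗ[K] (P → N) where
  toFun F p := L v p (F (p * D.g v))
  map_add' F F' := by
    funext p
    exact map_add (L v p) _ _
  map_smul' c F := by
    funext p
    exact map_smul (L v p) c _

theorem rL_apply {K : Type} [Field K] {P : Type} [Group P] (D : PG G P) {N : Type} [AddCommGroup N] [Module K N]
    (L : V → P → N →ₗ[K] N) (v : V) (F : P → N) (p : P) : rL D L v F p = L v p (F (p * D.g v)) := rfl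

end Pool.Agent.S9

end

section

/-!
# Project S9, block F: transversals, integrals, Stokes
-/

set_option autoImplicit false
set_option linter.unusedSectionVars false

open Finset

namespace Pool.Agent.S9

variable {V : Type} [DecidableEq V] [Fintype V] {G : SimpleGraph V} {W : Type} [Group W]

/-- `F` is a transversal of the cosets `Γ w` -/
def IsTr (Γ : Subgroup W) (F : Finset W) : Prop := ∀ w, ∃! p, p ∈ F ∧ w * p⁻¹ ∈ Γ

theorem tr_ex (Γ : Subgroup W) [Γ.FiniteIndex] : ∃ F : Finset W, IsTr Γ F := by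
  classical
  have : Finite (Quotient (QuotientGroup.rightRel Γ)) :=
    Finite.of_equiv _ (QuotientGroup.quotientRightRelEquivQuotientLeftRel Γ).symm
  have := Fintype.ofFinite (Quotient (QuotientGroup.rightRel Γ))
  refine ⟨univ.image (fun q : Quotient (QuotientGroup.rightRel Γ) => q.out), fun w => ?_⟩
  refine ⟨(Quotient.mk (QuotientGroup.rightRel Γ) w).out, ⟨mem_image_of_mem _ (mem_univ _), ?_⟩, ?_⟩
  · have h := Quotient.exact (Quotient.out_eq (Quotient.mk (QuotientGroup.rightRel Γ) w))
    exact QuotientGroup.rightRel_apply.1 h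
  · rintro p ⟨hp, h⟩
    obtain ⟨q, _, rfl⟩ := mem_image.1 hp
    have h1 : Quotient.mk (QuotientGroup.rightRel Γ) w = q := by
      rw [← Quotient.out_eq q]
      refine Quotient.sound ?_
      rw [← Quotient.out_eq q] at h
      have h2 : (QuotientGroup.rightRel Γ) q.out w := QuotientGroup.rightRel_apply.2 (by
        rwa [Quotient.out_eq] at h)
      exact (QuotientGroup.rightRel Γ).symm h2
    rw [h1]

theorem tr_sum {Γ : Subgroup W} {F : Finset W} (hF : IsTr Γ F) {M : Type} [AddCommMonoid M]
    {f : W → M} (hf : ∀ g ∈ Γ, ∀ w, f (g * w) = f w) (u : W) :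
    ∑ p ∈ F, f (p * u) = ∑ p ∈ F, f p := by
  classical
  choose φ hφ hu using fun w => (hF w)
  have inj : ∀ p ∈ F, ∀ q ∈ F, p * q⁻¹ ∈ Γ → p = q := by
    intro p hp q hq h
    have h1 := hu p p ⟨hp, by rw [mul_inv_cancel]; exact Γ.one_mem⟩
    have h2 := hu p q ⟨hq, h⟩
    exact h1.trans h2.symm
  refine sum_bij (fun p _ => φ (p * u)) (fun p _ => (hφ (p * u)).1) ?_ ?_ ?_
  · intro p hp q hq h
    refine inj p hp q hq ?_
    have h1 := (hφ (p * u)).2
    have h2 := (hφ (q * u)).2
    have h3 : p * q⁻¹ = (p * u * (φ (p * u))⁻¹) * (q * u * (φ (q * u))⁻¹)⁻¹ := by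
      have h' : φ (p * u) = φ (q * u) := h
      rw [h']
      group
    rw [h3]
    exact Γ.mul_mem h1 (Γ.inv_mem h2)
  · intro q hq
    refine ⟨φ (q * u⁻¹), (hφ _).1, ?_⟩
    refine (inj q hq _ (hφ _).1 ?_).symm
    have h1 := (hφ (q * u⁻¹)).2
    have h2 := (hφ (φ (q * u⁻¹) * u)).2
    have h3 : q * (φ (φ (q * u⁻¹) * u))⁻¹ =
        (q * u⁻¹ * (φ (q * u⁻¹))⁻¹) * (φ (q * u⁻¹) * u * (φ (φ (q * u⁻¹) * u))⁻¹) := by
      group
    rw [h3]
    exact Γ.mul_mem h1 h2
  · intro p _
    have h1 := hf _ (hφ (p * u)).2 (φ (p * u))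
    rw [inv_mul_cancel_right] at h1
    exact h1

section Bits

variable (R : Rac G W)

open Classical in
/-- the elements of `F` whose bits vanish on `A` -/
noncomputable def bs (F : Finset W) (A : Finset V) : Finset W :=
  F.filter fun p => ∀ v ∈ A, R.b p v = 0

theorem mem_bs {F : Finset W} {A : Finset V} {p : W} :
    p ∈ bs R F A ↔ p ∈ F ∧ ∀ v ∈ A, R.b p v = 0 := by
  unfold bs
  rw [mem_filter]

theorem sum_bs {Γ : Subgroup W} {F : Finset W} (hF : IsTr Γ F) (hb : ∀ g ∈ Γ, ∀ v, R.b g v = 0)
    {M : Type} [AddCommMonoid M] {f : W → M} (hf : ∀ g ∈ Γ, ∀ w, f (g * w) = f w)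
    {A : Finset V} {v : V} (hv : v ∉ A) :
    ∑ p ∈ bs R F A, f p = ∑ p ∈ bs R F (insert v A), (f p + f (p * R.s v)) := by
  classical
  rw [sum_add_distrib, ← sum_filter_add_sum_filter_not (bs R F A) (fun p => R.b p v = 0)]
  congr 1
  · refine sum_congr ?_ fun _ _ => rfl
    ext p
    simp only [bs, mem_filter, mem_insert, forall_eq_or_imp]
    tauto
  · have e : ∀ (p : W) (u : V), R.b (p * R.s v) u = R.b p u + if v = u then 1 else 0 := by
      intro p u
      rw [R.b_mul, R.b_s]
    have h1 : ∑ p ∈ (bs R F A).filter (fun p => ¬ R.b p v = 0), f p =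
        ∑ p ∈ F, if (∀ u ∈ A, R.b p u = 0) ∧ ¬ R.b p v = 0 then f p else 0 := by
      rw [← sum_filter]
      refine sum_congr ?_ fun _ _ => rfl
      ext p
      simp only [bs, mem_filter]
      tauto
    have h2 : ∑ p ∈ bs R F (insert v A), f (p * R.s v) =
        ∑ p ∈ F, if (∀ u ∈ A, R.b (p * R.s v) u = 0) ∧ ¬ R.b (p * R.s v) v = 0 then
          f (p * R.s v) else 0 := by
      rw [← sum_filter]
      refine sum_congr ?_ fun _ _ => rfl
      ext p
      simp only [bs, mem_filter, mem_insert, forall_eq_or_imp]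
      refine and_congr_right fun _ => ?_
      have h3 : (∀ u ∈ A, R.b (p * R.s v) u = 0) ↔ ∀ u ∈ A, R.b p u = 0 := by
        refine forall₂_congr fun u hu => ?_
        rw [e, if_neg (fun h : v = u => hv (by rw [h]; exact hu)), add_zero]
      have h4 : (¬ R.b (p * R.s v) v = 0) ↔ R.b p v = 0 := by
        rw [e, if_pos rfl]
        have h5 : ∀ a : ZMod 2, ¬ a + 1 = 0 ↔ a = 0 := by decide
        exact h5 _
      rw [h3, h4]
      tauto
    rw [h1, h2]
    refine (tr_sum hF (f := fun p => if (∀ u ∈ A, R.b p u = 0) ∧ ¬ R.b p v = 0 then f p else 0)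
      ?_ (R.s v)).symm
    intro g hg w
    have h3 : ∀ u, R.b (g * w) u = R.b w u := fun u => by rw [R.b_mul, hb g hg, zero_add]
    simp only [h3, hf g hg]

open Classical in
/-- the integral over the top dimensional cells of one transversal -/
noncomputable def INT (G : SimpleGraph V) (R : Rac G W) (F : Finset W) (n : ℕ) {M : Type}
    [AddCommMonoid M] (f : Finset V → W → M) : M :=
  ∑ A ∈ (univ : Finset (Finset V)).filter
    (fun A : Finset V => G.IsClique (A : Set V) ∧ A.card = n), ∑ p ∈ bs R F A, f A p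

theorem INT_add (F : Finset W) (n : ℕ) {M : Type} [AddCommMonoid M] (f f' : Finset V → W → M) :
    INT G R F n (fun A w => f A w + f' A w) = INT G R F n f + INT G R F n f' := by
  unfold INT
  simp only [sum_add_distrib]

theorem INT_congr (F : Finset W) (n : ℕ) {M : Type} [AddCommMonoid M] {f f' : Finset V → W → M}
    (h : ∀ A : Finset V, G.IsClique (A : Set V) → A.card = n → ∀ p, (∀ v ∈ A, R.b p v = 0) →
      f A p = f' A p) : INT G R F n f = INT G R F n f' := by
  classical
  unfold INT
  refine sum_congr rfl fun A hA => sum_congr rfl fun p hp => ?_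
  obtain ⟨h1, h2⟩ := (mem_filter.1 hA).2
  exact h A h1 h2 p ((mem_bs R).1 hp).2

theorem INT_zero (F : Finset W) (n : ℕ) {M : Type} [AddCommMonoid M] {f : Finset V → W → M}
    (h : ∀ A : Finset V, G.IsClique (A : Set V) → A.card = n → ∀ p, (∀ v ∈ A, R.b p v = 0) →
      f A p = 0) : INT G R F n f = 0 := by
  classical
  unfold INT
  refine sum_eq_zero fun A hA => sum_eq_zero fun p hp => ?_
  obtain ⟨h1, h2⟩ := (mem_filter.1 hA).2
  exact h A h1 h2 p ((mem_bs R).1 hp).2

open Classical in
/-- the sum over all cells of one transversal -/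
noncomputable def PAIR (G : SimpleGraph V) (R : Rac G W) (F : Finset W) {M : Type}
    [AddCommMonoid M] (f : Finset V → W → M) : M :=
  ∑ A ∈ (univ : Finset (Finset V)).filter
    (fun A : Finset V => G.IsClique (A : Set V)), ∑ p ∈ bs R F A, f A p

private theorem clique_sub {A B : Finset V} (h : G.IsClique (A : Set V))
    (hB : B ⊆ A) : G.IsClique (B : Set V) := h.subset (by exact_mod_cast hB)

end Bits

end Pool.Agent.S9

end
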