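import Mathlib

/-! The parts of this file: H4.FC.TitsRel, H4.FC.TitsAlt, H4.FC.TitsPos. -/

section

/-!
# Project FC: the geometric representation

`refl k v` is the matrix of `z ↦ z - (∑_u k v u z_u) α_v`; `kR M u v = 2 B(α_u, α_v)`, i.e.
`-2 cos (π / m(u,v))` and `-2` if `m(u,v) = 0` (that is, infinity). In particular `kR M v v = 2`.

`refl_mulVec`: by definition. `refl_sq`: `T T z = z - f z α - f (z - f z α) α = z - 2 f z α + 2 f z α`
with `f α = 2`.

`refl_rel`: `(T_u T_v)^m = 1` for `m = M u v`. For `u = v`: `M u u = 1` and `refl_sq`. `m = 0`: trivial.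
`m = 2`: `k = -2 cos (π/2) = 0`, so `T_u T_v = T_v T_u` (both are `z - f_u z α_u - f_v z α_v`) and
`(T_u T_v)² = 1`. `m ≥ 3`: one way: `Module.reflection_mul_reflection_pow_apply` in Mathlib
(`Mathlib.LinearAlgebra.Reflection`) gives `(T_u T_v)^m z` with Chebyshev polynomials `S` evaluated at
`t = k² - 2 = 2 cos (2θ)`, `θ = π/m`, and `S_j (2 cos φ) sin φ = sin ((j+1) φ)` for `φ = 2θ`,
`sin φ ≠ 0`; both coefficients vanish: for `m = 2j` because `S_{j-1} (t) = sin (2 j θ) / sin 2θ = 0`,
for `m = 2j+1` because `S_j (t) + S_{j-1} (t) = (sin ((2j+2) θ) + sin (2jθ)) / sin 2θ = 0`. Another way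
(no Chebyshev polynomials): `R = T_u T_v` satisfies `(R - 1) z ∈ span (α_u, α_v)` and on this span
`R² = 2 cos (2θ) R - 1`; hence `(R² - 2 cos (2θ) R + 1) (R - 1) = 0`. By induction
`sin 2θ • R^j (R - 1) = sin (2jθ) • R (R - 1) - sin ((2j-2) θ) • (R - 1)`; for `j = m`: `R^m (R - 1) =
R - 1` as `sin (2mθ) = 0` and `-sin ((2m-2)θ) = sin 2θ`; then sum: `R^m - 1 = ∑_{j<m} R^j (R - 1)` and the
sum of the formula over `j < m` vanishes (`∑_{j<m} sin (2jθ) = 0`, `∑_{j<m} sin ((2j-2)θ) = 0`).
-/

set_option autoImplicit false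

open Finset

namespace Pool.Agent.H4.FC

/-- the matrix of a reflection -/
def refl {V R : Type} [DecidableEq V] [CommRing R] (k : V → V → R) (v : V) : Matrix V V R :=
  1 - Matrix.of fun i j => if i = v then k v j else 0

/-- twice the canonical bilinear form of a Coxeter matrix -/
noncomputable def kR {V : Type} (M : CoxeterMatrix V) (u v : V) : ℝ :=
  if M u v = 0 then -2 else -2 * Real.cos (Real.pi / M u v)

section

private theorem tr_rec {A : Type} [Ring A] [Algebra ℝ A] (p q : A) (k : ℝ)
    (hp : p * p = (2 : ℝ) • p) (hq : q * q = (2 : ℝ) • q) (hpqp : p * q * p = (k ^ 2) • p)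
    (hqpq : q * p * q = (k ^ 2) • q) :
    (1 - p) * (1 - q) * ((1 - p) * (1 - q)) * ((1 - p) * (1 - q) - 1) =
      (k ^ 2 - 2) • ((1 - p) * (1 - q) * ((1 - p) * (1 - q) - 1)) -
        ((1 - p) * (1 - q) - 1) := by
  obtain ⟨N, hN⟩ : ∃ N : A, N = p * q - p - q := ⟨_, rfl⟩
  have hR : (1 - p) * (1 - q) = 1 + N := by
    rw [hN]
    noncomm_ring
  have h1 : p * q * N = (k ^ 2 - 2) • (p * q) - (k ^ 2) • p := by
    have e : p * q * N = p * q * p * q - p * q * p - p * (q * q) := by
      rw [hN]
      noncomm_ring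
    rw [e, hpqp, hq, smul_mul_assoc, mul_smul_comm]
    module
  have h2 : q * p * N = (k ^ 2) • q - (2 : ℝ) • (q * p) := by
    have e : q * p * N = q * (p * p) * q - q * (p * p) - q * p * q := by
      rw [hN]
      noncomm_ring
    rw [e, hp, mul_smul_comm, smul_mul_assoc, hqpq]
    module
  have h3 : p * N = p * q - (2 : ℝ) • p := by
    have e : p * N = p * p * q - p * p - p * q := by
      rw [hN]
      noncomm_ring
    rw [e, hp, smul_mul_assoc]
    module
  have h4 : q * N = (k ^ 2 - 2) • q - q * p := by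
    have e : q * N = q * p * q - q * p - q * q := by
      rw [hN]
      noncomm_ring
    rw [e, hqpq, hq]
    module
  have h5 : N * N = (k ^ 2 - 3) • (p * q) + (2 - k ^ 2) • p + (2 - k ^ 2) • q + q * p := by
    have e : N * N = p * q * N - p * N - q * N := by
      rw [← sub_mul, ← sub_mul, ← hN]
    rw [e, h1, h3, h4]
    module
  have h6 : N * N * N = (k ^ 2 - 3) • (p * q * N) + (2 - k ^ 2) • (p * N) +
      (2 - k ^ 2) • (q * N) + q * p * N := by
    rw [h5]
    simp only [add_mul, smul_mul_assoc]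
  rw [hR]
  have e : (1 + N) * (1 + N) * (1 + N - 1) = N + (2 : ℝ) • (N * N) + N * N * N := by
    rw [two_smul]
    noncomm_ring
  have e2 : (1 + N) * (1 + N - 1) = N + N * N := by noncomm_ring
  have e3 : 1 + N - 1 = N := by noncomm_ring
  rw [e, e2, e3, h6, h1, h2, h3, h4, h5, hN]
  module

private theorem tr_sin (φ c : ℝ) (m : ℕ) :
    2 * Real.sin (φ / 2) * ∑ j ∈ range m, Real.sin (j * φ + c) =
      Real.cos (c - φ / 2) - Real.cos (m * φ + c - φ / 2) := by
  induction m with
  | zero => simp
  | succ m ih =>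
    rw [sum_range_succ, mul_add, ih]
    have h1 : Real.cos (((m + 1 : ℕ) : ℝ) * φ + c - φ / 2) =
        Real.cos (m * φ + c) * Real.cos (φ / 2) - Real.sin (m * φ + c) * Real.sin (φ / 2) := by
      rw [← Real.cos_add]
      congr 1
      push_cast
      ring
    have h2 : Real.cos (m * φ + c - φ / 2) =
        Real.cos (m * φ + c) * Real.cos (φ / 2) + Real.sin (m * φ + c) * Real.sin (φ / 2) := by
      rw [Real.cos_sub]
    rw [h1, h2]
    ring

private theorem tr_pow {A : Type} [Ring A] [Algebra ℝ A] (R : A) {m : ℕ} (hm : 3 ≤ m)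
    (h : R * R * (R - 1) = (2 * Real.cos (2 * Real.pi / m)) • (R * (R - 1)) - (R - 1)) :
    R ^ m = 1 := by
  obtain ⟨φ, hφ⟩ : ∃ φ : ℝ, φ = 2 * Real.pi / m := ⟨_, rfl⟩
  rw [← hφ] at h
  have hpi := Real.pi_pos
  have hm' : (3 : ℝ) ≤ m := by exact_mod_cast hm
  have h0 : 0 < φ := by
    rw [hφ]
    positivity
  have h1 : φ < Real.pi := by
    rw [hφ, div_lt_iff₀ (by linarith)]
    nlinarith
  have hmφ : (m : ℝ) * φ = 2 * Real.pi := by
    rw [hφ]
    field_simp
  have hs : Real.sin φ ≠ 0 := (Real.sin_pos_of_pos_of_lt_pi h0 h1).ne'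
  have hs2 : Real.sin (φ / 2) ≠ 0 :=
    (Real.sin_pos_of_pos_of_lt_pi (by linarith) (by linarith)).ne'
  have key : ∀ j : ℕ, Real.sin φ • (R ^ j * (R - 1)) =
      Real.sin (j * φ + 0) • (R * (R - 1)) - Real.sin (j * φ + -φ) • (R - 1) ∧
      Real.sin φ • (R ^ (j + 1) * (R - 1)) =
      Real.sin (((j + 1 : ℕ) : ℝ) * φ + 0) • (R * (R - 1)) -
        Real.sin (((j + 1 : ℕ) : ℝ) * φ + -φ) • (R - 1) := by
    intro j
    induction j with
    | zero => simp
    | succ j ih =>
      refine ⟨ih.2, ?_⟩
      have e : R ^ (j + 1 + 1) * (R - 1) = R ^ j * (R * R * (R - 1)) := by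
        rw [pow_succ, pow_succ]
        noncomm_ring
      have e2 : R ^ j * (R * (R - 1)) = R ^ (j + 1) * (R - 1) := by
        rw [pow_succ]
        noncomm_ring
      rw [e, h, mul_sub, mul_smul_comm, e2, smul_sub, smul_comm, ih.1, ih.2]
      have s1 : Real.sin (((j + 1 + 1 : ℕ) : ℝ) * φ + 0) =
          2 * Real.cos φ * Real.sin (((j + 1 : ℕ) : ℝ) * φ + 0) - Real.sin (j * φ + 0) := by
        have a1 : ((j + 1 + 1 : ℕ) : ℝ) * φ + 0 = (((j + 1 : ℕ) : ℝ) * φ + 0) + φ := by
          push_cast
          ring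
        have a2 : (j : ℝ) * φ + 0 = (((j + 1 : ℕ) : ℝ) * φ + 0) - φ := by
          push_cast
          ring
        rw [a1, a2, Real.sin_add, Real.sin_sub]
        ring
      have s2 : Real.sin (((j + 1 + 1 : ℕ) : ℝ) * φ + -φ) =
          2 * Real.cos φ * Real.sin (((j + 1 : ℕ) : ℝ) * φ + -φ) - Real.sin (j * φ + -φ) := by
        have a1 : ((j + 1 + 1 : ℕ) : ℝ) * φ + -φ = (((j + 1 : ℕ) : ℝ) * φ + -φ) + φ := by
          push_cast
          ring
        have a2 : (j : ℝ) * φ + -φ = (((j + 1 : ℕ) : ℝ) * φ + -φ) - φ := by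
          push_cast
          ring
        rw [a1, a2, Real.sin_add, Real.sin_sub]
        ring
      rw [s1, s2]
      module
  have hsum : R ^ m - 1 = ∑ j ∈ range m, R ^ j * (R - 1) := by
    rw [← sum_mul, geom_sum_mul]
  have hz : ∀ c : ℝ, ∑ j ∈ range m, Real.sin (j * φ + c) = 0 := by
    intro c
    have := tr_sin φ c m
    have e : Real.cos (m * φ + c - φ / 2) = Real.cos (c - φ / 2) := by
      rw [hmφ, show 2 * Real.pi + c - φ / 2 = (c - φ / 2) + 2 * Real.pi by ring,
        Real.cos_add_two_pi]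
    rw [e, sub_self] at this
    rcases mul_eq_zero.1 this with h | h
    · exact absurd h (mul_ne_zero two_ne_zero hs2)
    · exact h
  have hfin : Real.sin φ • (R ^ m - 1) = 0 := by
    rw [hsum, smul_sum, sum_congr rfl fun j _ => (key j).1, sum_sub_distrib, ← sum_smul,
      ← sum_smul, hz, hz, zero_smul, zero_smul, sub_zero]
  rcases smul_eq_zero.1 hfin with h | h
  · exact absurd h hs
  · exact sub_eq_zero.1 h

variable {V : Type} [Fintype V] [DecidableEq V]

theorem refl_mulVec {R : Type} [CommRing R] (k : V → V → R) (v : V) (z : V → R) :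
    (refl k v).mulVec z = z - (∑ u, k v u * z u) • (Pi.single v 1 : V → R) := by
  unfold refl
  rw [Matrix.sub_mulVec, Matrix.one_mulVec]
  congr 1
  funext i
  rw [Pi.smul_apply, smul_eq_mul]
  show ∑ j, (if i = v then k v j else 0) * z j = _
  by_cases h : i = v
  · subst h
    rw [Pi.single_eq_same, mul_one]
    refine sum_congr rfl fun j _ => ?_
    rw [if_pos rfl]
  · rw [Pi.single_eq_of_ne h, mul_zero]
    refine sum_eq_zero fun j _ => ?_
    rw [if_neg h, zero_mul]

private theorem tr_mul {R : Type} [CommRing R] (f g : V → R) (u v : V) :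
    (Matrix.of fun i j => if i = u then f j else 0 : Matrix V V R) *
      (Matrix.of fun i j => if i = v then g j else 0) =
      f v • (Matrix.of fun i j => if i = u then g j else 0) := by
  ext i j
  rw [Matrix.mul_apply, Matrix.smul_apply, smul_eq_mul]
  simp only [Matrix.of_apply]
  rw [Finset.sum_eq_single v]
  · rw [if_pos rfl]
    by_cases h : i = u
    · rw [if_pos h, if_pos h]
    · rw [if_neg h, if_neg h, zero_mul, mul_zero]
  · intro l _ hl
    rw [if_neg hl, mul_zero]
  · intro hv
    exact absurd (mem_univ v) hv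

theorem refl_sq {R : Type} [CommRing R] (k : V → V → R) (v : V) (h : k v v = 2) :
    refl k v * refl k v = 1 := by
  unfold refl
  have h1 := tr_mul (k v) (k v) v v
  rw [h] at h1
  rw [sub_mul, one_mul, mul_sub, mul_one, h1, two_smul]
  abel

omit [Fintype V] in
theorem refl_map {R R' : Type} [CommRing R] [CommRing R'] (f : R →+* R') (k : V → V → R)
    (v : V) : (refl k v).map f = refl (fun u v => f (k u v)) v := by
  ext i j
  unfold refl
  rw [Matrix.map_apply, Matrix.sub_apply, Matrix.sub_apply, map_sub, Matrix.of_apply,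
    Matrix.of_apply, Matrix.one_apply, Matrix.one_apply]
  split_ifs <;> simp

omit [Fintype V] [DecidableEq V] in
theorem kR_self (M : CoxeterMatrix V) (v : V) : kR M v v = 2 := by
  unfold kR
  rw [M.diagonal, if_neg one_ne_zero, Nat.cast_one, div_one, Real.cos_pi]
  norm_num

omit [Fintype V] [DecidableEq V] in
theorem kR_symm (M : CoxeterMatrix V) (u v : V) : kR M u v = kR M v u := by
  unfold kR
  rw [M.symmetric u v]

/-- **The Coxeter relations.** -/
theorem refl_rel (M : CoxeterMatrix V) (u v : V) :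
    (refl (kR M) u * refl (kR M) v) ^ M u v = 1 := by
  by_cases huv : u = v
  · subst huv
    rw [refl_sq _ _ (kR_self M u), one_pow]
  have h1 : M u v ≠ 1 := M.off_diagonal u v huv
  obtain ⟨p, hp⟩ : ∃ p : Matrix V V ℝ, p =
    Matrix.of fun i j => if i = u then kR M u j else 0 := ⟨_, rfl⟩
  obtain ⟨q, hq⟩ : ∃ q : Matrix V V ℝ, q =
    Matrix.of fun i j => if i = v then kR M v j else 0 := ⟨_, rfl⟩
  have hpp : p * p = (2 : ℝ) • p := by
    rw [hp, tr_mul, kR_self]
  have hqq : q * q = (2 : ℝ) • q := by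
    rw [hq, tr_mul, kR_self]
  have hpqp : p * q * p = (kR M u v ^ 2) • p := by
    rw [hp, hq, tr_mul, smul_mul_assoc, tr_mul, smul_smul, kR_symm M v u, sq]
  have hqpq : q * p * q = (kR M u v ^ 2) • q := by
    rw [hp, hq, tr_mul, smul_mul_assoc, tr_mul, smul_smul, kR_symm M v u, sq]
  have hu : refl (kR M) u = 1 - p := by
    rw [hp]
    rfl
  have hv : refl (kR M) v = 1 - q := by
    rw [hq]
    rfl
  rw [hu, hv]
  rcases Nat.lt_or_ge (M u v) 3 with h3 | h3
  · have h02 : M u v = 0 ∨ M u v = 2 := by omega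
    rcases h02 with h0 | h2
    · rw [h0, pow_zero]
    · have hk : kR M u v = 0 := by
        unfold kR
        rw [h2, if_neg two_ne_zero, Nat.cast_ofNat, Real.cos_pi_div_two, mul_zero]
      have hpq : p * q = 0 := by
        rw [hp, hq, tr_mul, hk, zero_smul]
      have hqp : q * p = 0 := by
        rw [hp, hq, tr_mul, kR_symm M v u, hk, zero_smul]
      have e : (1 - p) * (1 - q) = 1 - p - q := by
        have : (1 - p) * (1 - q) = 1 - p - q + p * q := by noncomm_ring
        rw [this, hpq, add_zero]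
      have e2 : (1 - p - q) * (1 - p - q) = 1 - (2 : ℝ) • p - (2 : ℝ) • q + p * p + q * q +
          p * q + q * p := by
        rw [two_smul, two_smul]
        noncomm_ring
      rw [h2, sq, e, e2, hpp, hqq, hpq, hqp]
      abel
  · refine tr_pow _ h3 ?_
    rw [tr_rec p q (kR M u v) hpp hqq hpqp hqpq]
    have hk : kR M u v ^ 2 - 2 = 2 * Real.cos (2 * Real.pi / M u v) := by
      have h0 : M u v ≠ 0 := by omega
      unfold kR
      rw [if_neg h0, show 2 * Real.pi / (M u v : ℝ) = 2 * (Real.pi / (M u v : ℝ)) by ring,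
        Real.cos_two_mul]
      ring
    rw [hk]

/-- the geometric representation -/
noncomputable def titsHom (M : CoxeterMatrix V) : M.Group →* Matrix V V ℝ :=
  M.toCoxeterSystem.lift ⟨refl (kR M), fun u v => refl_rel M u v⟩

theorem titsHom_simple (M : CoxeterMatrix V) (v : V) :
    titsHom M (M.toCoxeterSystem.simple v) = refl (kR M) v :=
  M.toCoxeterSystem.lift_apply_simple _ v

end

end Pool.Agent.H4.FC

end

section

/-!
# Project FC: alternating words in the geometric representation

Let `x = s`, `y = t`, `c = -kR M s t` (so `c = 2 cos θ`, `θ = π/m`, `m = M s t`, or `c = 2` if `m = 0`).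
Define `a 0 = 0`, `a 1 = 1`, `a (j+2) = c a (j+1) - a j`. Then `a j = sin (jθ) / sin θ` (`m ≥ 2`) resp.
`a j = j` (`m = 0`). `T_t (p α_s + q α_t) = p α_s + (p c - q) α_t` and
`T_s (p α_s + q α_t) = (q c - p) α_s + q α_t`. By induction on `k` (`alternatingWord_succ'`: the new
letter is at the left end, it is `t` if `k` is even and `s` otherwise):
the word `alternatingWord s t k` maps `α_s` to `a (k+1) α_s + a k α_t` if `k` is even and to
`a k α_s + a (k+1) α_t` if `k` is odd. For `k < m` both coefficients are `≥ 0` (`(k+1) θ ≤ π`,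
`sin θ > 0`; `m ≥ 2` as `s ≠ t`, `M.off_diagonal` gives `m ≠ 1`).

`alt_infinite`: if `M s t = 0` then `alternatingWord s t (2 k)` represents `(s t)^k` and maps `α_s` to
`(2k+1) α_s + 2k α_t ≠ α_s` for `k > 0`.
-/

set_option autoImplicit false

open Finset CoxeterSystem

namespace Pool.Agent.H4.FC

variable {V : Type} [Fintype V] [DecidableEq V]

/-- the coefficients -/
private noncomputable def TitsAlt_a (c : ℝ) : ℕ → ℝ
  | 0 => 0
  | 1 => 1
  | j + 2 => c * TitsAlt_a c (j + 1) - TitsAlt_a c j

private theorem TitsAlt_form (M : CoxeterMatrix V) (s t : V) (hst : s ≠ t) (v : V) (p q : ℝ) :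
    ∑ u, kR M v u * (p • (Pi.single s 1 : V → ℝ) + q • (Pi.single t 1 : V → ℝ)) u =
      p * kR M v s + q * kR M v t := by
  have h1 : ∀ u, kR M v u * (p • (Pi.single s 1 : V → ℝ) + q • (Pi.single t 1 : V → ℝ)) u =
      (if u = s then p * kR M v s else 0) + (if u = t then q * kR M v t else 0) := by
    intro u
    simp only [Pi.add_apply, Pi.smul_apply, smul_eq_mul, Pi.single_apply]
    by_cases hs : u = s
    · subst hs
      simp [hst, mul_comm]
    · by_cases ht : u = t
      · subst ht
        simp [hs, mul_comm]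
      · simp [hs, ht]
  rw [Finset.sum_congr rfl fun u _ => h1 u, Finset.sum_add_distrib]
  simp

private theorem TitsAlt_t (M : CoxeterMatrix V) (s t : V) (hst : s ≠ t) (p q : ℝ) :
    (refl (kR M) t).mulVec (p • (Pi.single s 1 : V → ℝ) + q • (Pi.single t 1 : V → ℝ)) =
      p • (Pi.single s 1 : V → ℝ) + (-kR M s t * p - q) • (Pi.single t 1 : V → ℝ) := by
  rw [refl_mulVec, TitsAlt_form M s t hst, kR_self, kR_symm M t s]
  module

private theorem TitsAlt_s (M : CoxeterMatrix V) (s t : V) (hst : s ≠ t) (p q : ℝ) :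
    (refl (kR M) s).mulVec (p • (Pi.single s 1 : V → ℝ) + q • (Pi.single t 1 : V → ℝ)) =
      (-kR M s t * q - p) • (Pi.single s 1 : V → ℝ) + q • (Pi.single t 1 : V → ℝ) := by
  rw [refl_mulVec, TitsAlt_form M s t hst, kR_self]
  module

private theorem TitsAlt_word (M : CoxeterMatrix V) (s t : V) (hst : s ≠ t) (k : ℕ) :
    (titsHom M (M.toCoxeterSystem.wordProd (alternatingWord s t k))).mulVec (Pi.single s 1) =
      if Even k then TitsAlt_a (-kR M s t) (k + 1) • (Pi.single s 1 : V → ℝ) +
        TitsAlt_a (-kR M s t) k • (Pi.single t 1 : V → ℝ)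
      else TitsAlt_a (-kR M s t) k • (Pi.single s 1 : V → ℝ) +
        TitsAlt_a (-kR M s t) (k + 1) • (Pi.single t 1 : V → ℝ) := by
  induction k with
  | zero =>
    have h0 : M.toCoxeterSystem.wordProd (alternatingWord s t 0) = 1 := by simp [alternatingWord]
    rw [h0, map_one, Matrix.one_mulVec, if_pos (by simp)]
    simp [TitsAlt_a]
  | succ k ih =>
    rw [alternatingWord_succ', wordProd_cons, map_mul, ← Matrix.mulVec_mulVec, ih]
    by_cases hk : Even k
    · have hk' : ¬ Even (k + 1) := by
        rw [Nat.even_add_one]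
        exact fun h => h hk
      rw [if_pos hk, if_pos hk, if_neg hk', titsHom_simple, TitsAlt_t M s t hst]
      rfl
    · have hk' : Even (k + 1) := by
        rw [Nat.even_add_one]
        exact hk
      rw [if_neg hk, if_neg hk, if_pos hk', titsHom_simple, TitsAlt_s M s t hst]
      rfl

private theorem TitsAlt_two (j : ℕ) : TitsAlt_a 2 j = j ∧ TitsAlt_a 2 (j + 1) = j + 1 := by
  induction j with
  | zero => simp [TitsAlt_a]
  | succ j ih =>
    refine ⟨by push_cast; exact ih.2, ?_⟩
    rw [TitsAlt_a, ih.1, ih.2]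
    push_cast
    ring

private theorem TitsAlt_sin (θ : ℝ) (j : ℕ) :
    TitsAlt_a (2 * Real.cos θ) j * Real.sin θ = Real.sin (j * θ) ∧
      TitsAlt_a (2 * Real.cos θ) (j + 1) * Real.sin θ = Real.sin ((j + 1 : ℕ) * θ) := by
  induction j with
  | zero => simp [TitsAlt_a]
  | succ j ih =>
    refine ⟨ih.2, ?_⟩
    rw [TitsAlt_a, sub_mul, ih.1, mul_assoc, ih.2]
    have h1 : ((j + 1 + 1 : ℕ) : ℝ) * θ = (j + 1 : ℕ) * θ + θ := by push_cast; ring
    have h2 : (j : ℝ) * θ = (j + 1 : ℕ) * θ - θ := by push_cast; ring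
    rw [h1, h2, Real.sin_add, Real.sin_sub]
    ring

omit [Fintype V] [DecidableEq V] in
private theorem TitsAlt_pos (M : CoxeterMatrix V) (s t : V) (hst : s ≠ t) (j : ℕ)
    (hj : M s t = 0 ∨ j ≤ M s t) : 0 ≤ TitsAlt_a (-kR M s t) j := by
  by_cases h0 : M s t = 0
  · have h1 : -kR M s t = 2 := by simp [kR, h0]
    rw [h1, (TitsAlt_two j).1]
    positivity
  · have hj' : j ≤ M s t := hj.resolve_left h0
    have h1 : -kR M s t = 2 * Real.cos (Real.pi / M s t) := by simp [kR, h0]
    have hm1 : M s t ≠ 1 := M.off_diagonal s t hst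
    have hm2 : 2 ≤ M s t := by omega
    have hm : (0 : ℝ) < M s t := by
      have : 0 < M s t := by omega
      exact_mod_cast this
    have hm2' : (2 : ℝ) ≤ M s t := by exact_mod_cast hm2
    have hθ : 0 < Real.pi / M s t := div_pos Real.pi_pos hm
    have hθ2 : Real.pi / M s t < Real.pi := by
      rw [div_lt_iff₀ hm]
      have := Real.pi_pos
      nlinarith
    have hs := Real.sin_pos_of_pos_of_lt_pi hθ hθ2
    have h2 : 0 ≤ Real.sin (j * (Real.pi / M s t)) := by
      apply Real.sin_nonneg_of_nonneg_of_le_pi (by positivity)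
      rw [← mul_div_assoc, div_le_iff₀ hm, mul_comm]
      exact mul_le_mul_of_nonneg_left (by exact_mod_cast hj') Real.pi_pos.le
    rw [h1]
    rw [← (TitsAlt_sin _ j).1] at h2
    exact nonneg_of_mul_nonneg_left h2 hs

theorem alt_nonneg (M : CoxeterMatrix V) (s t : V) (hst : s ≠ t) (k : ℕ)
    (hk : M s t = 0 ∨ k < M s t) :
    ∃ a b : ℝ, 0 ≤ a ∧ 0 ≤ b ∧
      (titsHom M (M.toCoxeterSystem.wordProd (alternatingWord s t k))).mulVec (Pi.single s 1) =
        a • (Pi.single s 1 : V → ℝ) + b • (Pi.single t 1 : V → ℝ) := by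
  have h1 := TitsAlt_pos M s t hst k (hk.imp_right le_of_lt)
  have h2 := TitsAlt_pos M s t hst (k + 1) (hk.imp_right id)
  rw [TitsAlt_word M s t hst k]
  by_cases hk' : Even k
  · rw [if_pos hk']
    exact ⟨_, _, h2, h1, rfl⟩
  · rw [if_neg hk']
    exact ⟨_, _, h1, h2, rfl⟩

theorem alt_infinite (M : CoxeterMatrix V) (s t : V) (hst : s ≠ t) (h : M s t = 0) (k : ℕ)
    (hk : 0 < k) :
    (M.toCoxeterSystem.simple s * M.toCoxeterSystem.simple t) ^ k ≠ 1 := by
  intro h1
  have h2 := TitsAlt_word M s t hst (2 * k)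
  rw [prod_alternatingWord_eq_mul_pow, if_pos (by simp), if_pos (by simp), one_mul,
    Nat.mul_div_cancel_left k (by norm_num), h1, map_one, Matrix.one_mulVec] at h2
  have h3 : -kR M s t = 2 := by simp [kR, h]
  rw [h3, (TitsAlt_two (2 * k)).1, (TitsAlt_two (2 * k)).2] at h2
  have h4 := congrFun h2 t
  simp [hst.symm] at h4
  omega

end Pool.Agent.H4.FC

end

section

/-!
# Project FC: positivity and faithfulness of the geometric representation

`tits_pos`: strong induction on `ℓ w` (all `w`, `s`). If `w = 1` clear. Otherwise there is a right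
descent `t` of `w` (`exists_rightDescent_of_ne_one`), `t ≠ s`. Put `w_0 = w`,
`w_j = w * π (alternatingWord …)⁻¹`, i.e. `w = w_j * π (alternatingWord s t j)`
(`alternatingWord s t j` ends with `t` and alternates): `w_1 = w t`, `w_2 = w t s`, `w_3 = w t s t`, …
Let `k ≥ 1` be the largest number with `ℓ (w_k) = ℓ w - k` (i.e. `ℓ w_k + k = ℓ w`; exists since
`k ≤ ℓ w`; the property holds for `k = 1`, and if it holds for `k` it holds for all smaller `j`, as
lengths change by one in each step). Let `v = w_k`. The next letter `r` (`s` if `k` odd, `t` if `k` even)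
satisfies `ℓ (v r) = ℓ v + 1` by maximality (`w_{k+1} = v r`), and the previous letter `r'` (the other one of
`s`, `t`) satisfies `ℓ (v r') = ℓ w_{k-1} = ℓ v + 1`. So `s` and `t` are not right descents of `v`, and
`ℓ v < ℓ w`. By induction all coordinates of `T(v) α_s`, `T(v) α_t` are `≥ 0`.
Claim: `M s t = 0` or `k < M s t`. If `m = M s t ≠ 0` and `k ≥ m`, then `ℓ w_m + m = ℓ w` and
`π (alternatingWord s t m) = π (alternatingWord t s m)` (`wordProd_braidWord_eq`, `symmetric`), which ends
with `s`, so `w s = w_m * π (alternatingWord s t (m-1))` (delete the last letter `s`: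
`alternatingWord t s m = (alternatingWord s t (m-1)).concat s`) has length `≤ ℓ w_m + m - 1 < ℓ w`,
contradiction to `ℓ (w s) > ℓ w`. So `alt_nonneg` applies:
`T(w) α_s = T(v) (a α_s + b α_t)` is a nonnegative combination.

`tits_injective`: a homomorphism to a monoid is injective if only `1` is mapped to `1` (here `W` is a group:
if `T w = T w'` then `T (w⁻¹ w') = 1`). Let `w ≠ 1`, `s` a right descent, `w' = w s`; `s` is not a right
descent of `w'`, so `T(w') α_s ≥ 0`, and `T(w) α_s = T(w') T_s α_s = -T(w') α_s ≤ 0`. If `T(w) = 1` then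
the `s`-coordinate of `α_s` would be `≤ 0`.
-/

set_option autoImplicit false

open Finset CoxeterSystem

namespace Pool.Agent.H4.FC

variable {V : Type} [Fintype V] [DecidableEq V]

omit [Fintype V] [DecidableEq V] in
/-- the chain `w, w t, w t s, ...` -/
private theorem tp_next (M : CoxeterMatrix V) (w : M.Group) (s t : V) (k : ℕ) :
    w * (M.toCoxeterSystem.wordProd (alternatingWord s t (k + 1)))⁻¹ =
      w * (M.toCoxeterSystem.wordProd (alternatingWord s t k))⁻¹ *
        M.toCoxeterSystem.simple (if Even k then t else s) := by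
  rw [alternatingWord_succ', wordProd_cons, mul_inv_rev, inv_simple, mul_assoc]

theorem tits_pos (M : CoxeterMatrix V) (w : M.Group) (s : V)
    (h : ¬ M.toCoxeterSystem.IsRightDescent w s) (i : V) :
    0 ≤ (titsHom M w).mulVec (Pi.single s 1) i := by
  set cs := M.toCoxeterSystem with hcs
  obtain ⟨n, hn⟩ : ∃ n, n = cs.length w := ⟨_, rfl⟩
  induction n using Nat.strong_induction_on generalizing w s i with
  | _ n ih =>
  by_cases hw : w = 1
  · rw [hw, map_one, Matrix.one_mulVec]
    by_cases hi : i = s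
    · rw [hi, Pi.single_eq_same]; exact zero_le_one
    · rw [Pi.single_eq_of_ne hi]
  obtain ⟨t, ht⟩ := cs.exists_rightDescent_of_ne_one hw
  have hst : s ≠ t := by
    rintro rfl
    exact h ht
  obtain ⟨v, hv⟩ : ∃ v : ℕ → M.Group,
      v = fun k => w * (cs.wordProd (alternatingWord s t k))⁻¹ := ⟨_, rfl⟩
  have hv0 : v 0 = w := by
    rw [hv]
    show w * (cs.wordProd [])⁻¹ = w
    rw [wordProd_nil, inv_one, mul_one]
  have hvs : ∀ k, v (k + 1) = v k * cs.simple (if Even k then t else s) := by
    intro k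
    rw [hv]
    exact tp_next M w s t k
  have hvw : ∀ k, w = v k * cs.wordProd (alternatingWord s t k) := by
    intro k
    rw [hv]
    show w = w * (cs.wordProd (alternatingWord s t k))⁻¹ * cs.wordProd (alternatingWord s t k)
    rw [inv_mul_cancel_right]
  have hP1 : cs.length (v 1) + 1 = cs.length w := by
    have h1 := hvs 0
    rw [hv0] at h1
    have h2 : (if Even 0 then t else s) = t := by simp
    rw [h2] at h1
    have h3 := cs.isRightDescent_iff.mp ht
    rw [zero_add] at h1
    rw [h1]
    exact h3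
  have hex : ∃ k, cs.length (v (k + 1)) + (k + 1) ≠ cs.length w :=
    ⟨cs.length w, by omega⟩
  classical
  obtain ⟨k, hk, hkm⟩ : ∃ k, cs.length (v (k + 1)) + (k + 1) ≠ cs.length w ∧
      ∀ j < k, cs.length (v (j + 1)) + (j + 1) = cs.length w := by
    refine ⟨Nat.find hex, Nat.find_spec hex, ?_⟩
    intro j hj
    have := Nat.find_min hex hj
    push Not at this
    exact this
  have hall : ∀ j ≤ k, cs.length (v j) + j = cs.length w := by
    intro j hj
    rcases j with _ | j
    · rw [hv0, add_zero]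
    · exact hkm j (by omega)
  have hk1 : 1 ≤ k := by
    rcases Nat.eq_zero_or_pos k with h0 | h0
    · exfalso
      rw [h0] at hk
      exact hk hP1
    · exact h0
  obtain ⟨k', rfl⟩ : ∃ k', k = k' + 1 := ⟨k - 1, by omega⟩
  have hlk := hall (k' + 1) le_rfl
  have hd1 : ¬ cs.IsRightDescent (v (k' + 1)) (if Even (k' + 1) then t else s) := by
    intro hd
    have h1 := cs.isRightDescent_iff.mp hd
    rw [← hvs (k' + 1)] at h1
    omega
  have hd2 : ¬ cs.IsRightDescent (v (k' + 1)) (if Even k' then t else s) := by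
    intro hd
    have h1 := cs.isRightDescent_iff.mp hd
    have h2 : v (k' + 1) * cs.simple (if Even k' then t else s) = v k' := by
      rw [hvs k', mul_assoc, simple_mul_simple_self, mul_one]
    rw [h2] at h1
    have h3 := hall k' (by omega)
    omega
  have hds : ¬ cs.IsRightDescent (v (k' + 1)) s ∧ ¬ cs.IsRightDescent (v (k' + 1)) t := by
    by_cases he : Even k'
    · have ho : ¬ Even (k' + 1) := by
        rw [Nat.even_add_one]
        exact not_not.mpr he
      rw [if_neg ho] at hd1
      rw [if_pos he] at hd2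
      exact ⟨hd1, hd2⟩
    · have ho : Even (k' + 1) := by
        rw [Nat.even_add_one]
        exact he
      rw [if_pos ho] at hd1
      rw [if_neg he] at hd2
      exact ⟨hd2, hd1⟩
  have hlt : cs.length (v (k' + 1)) < n := by omega
  have hm : M s t = 0 ∨ k' + 1 < M s t := by
    by_contra hc
    push Not at hc
    obtain ⟨hc1, hc2⟩ := hc
    obtain ⟨m', hm'⟩ : ∃ m', M s t = m' + 1 := ⟨M s t - 1, by omega⟩
    have h1 := hall (M s t) hc2
    have h2 : w = v (M s t) * cs.wordProd (alternatingWord t s (M s t)) := by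
      have h3 := cs.wordProd_braidWord_eq s t
      unfold braidWord at h3
      rw [M.symmetric t s] at h3
      rw [← h3]
      exact hvw (M s t)
    have h4 : w * cs.simple s = v (M s t) * cs.wordProd (alternatingWord s t m') := by
      conv_lhs => rw [h2]
      rw [hm', alternatingWord_succ, wordProd_concat, mul_assoc, mul_assoc,
        simple_mul_simple_self, mul_one]
    have h5 : cs.length (w * cs.simple s) = cs.length w + 1 := cs.not_isRightDescent_iff.mp h
    have h6 := cs.length_mul_le (v (M s t)) (cs.wordProd (alternatingWord s t m'))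
    have h7 := cs.length_wordProd_le (alternatingWord s t m')
    rw [length_alternatingWord] at h7
    rw [h4] at h5
    omega
  obtain ⟨a, b, ha, hb, hab⟩ := alt_nonneg M s t hst (k' + 1) hm
  have e : titsHom M w = titsHom M (v (k' + 1)) *
      titsHom M (cs.wordProd (alternatingWord s t (k' + 1))) := by
    rw [← map_mul, ← hvw (k' + 1)]
  rw [e, ← Matrix.mulVec_mulVec, hab, Matrix.mulVec_add, Matrix.mulVec_smul, Matrix.mulVec_smul,
    Pi.add_apply, Pi.smul_apply, Pi.smul_apply, smul_eq_mul, smul_eq_mul]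
  exact add_nonneg (mul_nonneg ha (ih _ hlt _ s i hds.1 rfl))
    (mul_nonneg hb (ih _ hlt _ t i hds.2 rfl))

/-- **The geometric representation is faithful.** -/
theorem tits_injective (M : CoxeterMatrix V) : Function.Injective (titsHom M) := by
  set cs := M.toCoxeterSystem with hcs
  rw [injective_iff_map_eq_one']
  intro w
  constructor
  · intro h1
    by_contra hw
    obtain ⟨s, hs⟩ := cs.exists_rightDescent_of_ne_one hw
    have hs' : ¬ cs.IsRightDescent (w * cs.simple s) s :=
      cs.isRightDescent_iff_not_isRightDescent_mul.mp hs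
    have h2 := tits_pos M (w * cs.simple s) s hs' s
    have h3 : titsHom M (w * cs.simple s) = refl (kR M) s := by
      rw [map_mul, h1, one_mul]
      exact titsHom_simple M s
    rw [h3, refl_mulVec] at h2
    have h4 : ∑ u, kR M s u * (Pi.single s 1 : V → ℝ) u = 2 := by
      rw [Finset.sum_eq_single s]
      · rw [Pi.single_eq_same, mul_one, kR_self]
      · intro u _ hu
        rw [Pi.single_eq_of_ne hu, mul_zero]
      · intro hu
        exact absurd (Finset.mem_univ s) hu
    rw [h4] at h2
    simp only [Pi.sub_apply, Pi.smul_apply, Pi.single_eq_same, smul_eq_mul, mul_one] at h2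
    norm_num at h2
  · rintro rfl
    exact map_one _

end Pool.Agent.H4.FC

end
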