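import Mathlib

/-! The parts of this file: H4.FC.Defs, H85.VK.Defs. -/

section

/-!
# Project FC: definitions

Labelled graphs, operators `J v` on functions on a finite set with `(J u J v) ^ m(u,v) = -1`,
projections, chains.
-/

set_option autoImplicit false

open Finset

namespace Pool.Agent.H4.FC

/-! ### Labels -/

/-- the graph of a Coxeter matrix: `u ≠ v` are adjacent if `m(u,v) < ∞` -/
def gr {V : Type} (M : CoxeterMatrix V) : SimpleGraph V where
  Adj u v := u ≠ v ∧ M u v ≠ 0
  symm := ⟨fun u v h => ⟨h.1.symm, by rw [M.symmetric]; exact h.2⟩⟩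
  loopless := ⟨fun _ h => h.1 rfl⟩

/-! ### Matrices acting on functions -/

section Act

end Act

/-! ### Chains -/

section Chains

end Chains

end Pool.Agent.H4.FC

end

section

/-!
# Project VK: definitions

The mod 2 van Kampen obstruction of a flag complex, and homology spheres over the field of two
elements.
-/

set_option autoImplicit false

open Finset

namespace Pool.Agent.H85.VK

section

variable {V : Type} [DecidableEq V]

/-- `σ` and `τ` interlace in the numbering `ν`: of any two consecutive elements of `σ ∪ τ` one is in
`σ` and the other one in `τ` (for disjoint `σ` and `τ`). -/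
def Interlace (ν : V → ℕ) (σ τ : Finset V) : Prop :=
  ∀ x ∈ σ ∪ τ, ∀ y ∈ σ ∪ τ, ν x < ν y → (∀ z ∈ σ ∪ τ, ¬ (ν x < ν z ∧ ν z < ν y)) →
    (x ∈ σ ↔ y ∈ τ)

open Classical in
/-- The van Kampen obstruction (modulo two) of the `k`-skeleton of the flag complex of `G` to
embeddings in `ℝ^{2k}` vanishes. For a numbering `ν` of the vertices let the vertices be the points
of the moment curve in `ℝ^{2k}` in this order; two disjoint simplices `σ`, `τ` of dimension `k` then
meet in one point if they interlace and do not meet otherwise. The obstruction vanishes if this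
function of the pairs `{σ, τ}` is the sum of the functions which count the `τ` with `ρ ⊂ τ`, for
disjoint simplices `σ` and `ρ` of dimensions `k` and `k - 1` (finger moves of `σ` through `ρ`);
`g σ ρ` is the multiplicity of the finger move. -/
def VanKampenZero (G : SimpleGraph V) (k : ℕ) : Prop :=
  ∃ ν : V → ℕ, Function.Injective ν ∧ ∃ g : Finset V → Finset V → ZMod 2,
    ∀ σ τ : Finset V, G.IsClique (σ : Set V) → σ.card = k + 1 → G.IsClique (τ : Set V) →
      τ.card = k + 1 → Disjoint σ τ →
      (if Interlace ν σ τ then (1 : ZMod 2) else 0) =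
        ∑ v ∈ τ, g σ (τ.erase v) + ∑ v ∈ σ, g τ (σ.erase v)

end

section

end

end Pool.Agent.H85.VK

end
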