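import Pool.Agent.H71.TSG.H4.FC.Par
import Pool.Agent.H71.TSG.H73.LK.Defs
import Pool.Agent.H71.TSG.M03
import Pool.Agent.H71.TSG.M09
import Pool.Agent.H71.TSG.M10

/-! The parts of this file: H4.FC.Defs_1, H4.FC.Par_1, H73.LK.Defs_1, H73.LK.Ind, H4.FC.ParFin, H4.FC.SphIff, H85.VK.Alt, H85.VK.Coch. -/

section

/-!
# Project FC: definitions

Labelled graphs, operators `J v` on functions on a finite set with `(J u J v) ^ m(u,v) = -1`,
projections, chains.
-/

set_option autoImplicit false

open Finset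

namespace Pool.Agent.H4.FC

/-! ### Labels -/

/-- dihedral type: of two different edges of a triangle one has the label 2 -/
def IsDih {V : Type} (M : CoxeterMatrix V) : Prop :=
  ∀ u v w, (gr M).Adj u v → (gr M).Adj v w → (gr M).Adj u w → M u v = 2 ∨ M v w = 2

/-! ### Matrices acting on functions -/

section Act

end Act

/-! ### Chains -/

section Chains

end Chains

end Pool.Agent.H4.FC

end

section

/-!
# Project FC: parabolic subgroups and the sign character

`par_induction`: `Subgroup.closure_induction` or, as the generators are involutions, the set of all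
products `s_{v1} … s_{vk}` (`vj ∈ σ`) is a subgroup. `parF`: the finite set of the elements of `par M σ`.
`eps_sq`: `eps` takes the values `±1` (induction with `simple_induction`), `eps M u⁻¹ = eps M u`.
`anti_ext`: `par_induction` (with `x` quantified).
`parF_inv`, `parF_simple_mul`: `par M σ` is a subgroup.
`alt_anti`: substitute `u = s_v u'`: `x s_v π u = x π (s_v u)`, `eps (s_v u) = -eps u`.
-/

set_option autoImplicit false

open Finset

namespace Pool.Agent.H4.FC

variable {V : Type}

theorem simple_sq (M : CoxeterMatrix V) (v : V) : M.simple v * M.simple v = 1 := by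
  have h := M.toCoxeterSystem.simple_mul_simple_self v
  rwa [M.toCoxeterSystem_simple] at h

theorem simple_inv (M : CoxeterMatrix V) (v : V) : (M.simple v)⁻¹ = M.simple v :=
  inv_eq_of_mul_eq_one_left (simple_sq M v)

/-- the sign character -/
noncomputable def eps (M : CoxeterMatrix V) : M.Group →* ℤ :=
  M.toCoxeterSystem.lift ⟨fun _ => -1, fun _ _ => by norm_num⟩

theorem eps_simple (M : CoxeterMatrix V) (v : V) : eps M (M.simple v) = -1 := by
  exact M.toCoxeterSystem.lift_apply_simple _ v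

theorem eps_mul_self (M : CoxeterMatrix V) (w : M.Group) : eps M w * eps M w = 1 := by
  induction w using M.toCoxeterSystem.simple_induction_left with
  | one => rw [map_one, one_mul]
  | mul_simple_left w i ih =>
    have h1 : eps M (M.toCoxeterSystem.simple i) = -1 := eps_simple M i
    rw [map_mul, h1]
    linear_combination ih

theorem eps_inv (M : CoxeterMatrix V) (w : M.Group) : eps M w⁻¹ = eps M w := by
  have h1 : eps M w⁻¹ * eps M w = 1 := by rw [← map_mul, inv_mul_cancel, map_one]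
  calc eps M w⁻¹ = eps M w⁻¹ * (eps M w * eps M w) := by rw [eps_mul_self, mul_one]
    _ = (eps M w⁻¹ * eps M w) * eps M w := by ring
    _ = eps M w := by rw [h1, one_mul]

theorem simple_mem_par (M : CoxeterMatrix V) {σ : Finset V} {v : V} (hv : v ∈ σ) :
    M.simple v ∈ par M σ := by
  exact Subgroup.subset_closure ⟨v, hv, rfl⟩

theorem par_mono (M : CoxeterMatrix V) {σ τ : Finset V} (h : σ ⊆ τ) : par M σ ≤ par M τ := by
  refine Subgroup.closure_mono ?_
  rintro w ⟨v, hv, rfl⟩
  exact ⟨v, h hv, rfl⟩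

theorem Sph.mono {M : CoxeterMatrix V} {σ τ : Finset V} (hτ : Sph M τ) (h : σ ⊆ τ) :
    Sph M σ := by
  have : Finite (par M τ) := hτ
  exact Finite.of_injective (Subgroup.inclusion (par_mono M h)) (Subgroup.inclusion_injective _)

theorem par_induction (M : CoxeterMatrix V) (σ : Finset V) {p : M.Group → Prop} (h1 : p 1)
    (hs : ∀ v ∈ σ, ∀ w, p w → p (M.simple v * w)) : ∀ w ∈ par M σ, p w := by
  intro w hw
  have h2 : w ∈ Subgroup.closure {w | ∃ v ∈ σ, w = M.simple v} := hw
  induction h2 using Subgroup.closure_induction_left with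
  | one => exact h1
  | mul_left x hx y hy ih =>
    obtain ⟨v, hv, rfl⟩ := hx
    exact hs v hv y (ih hy)
  | inv_mul_cancel x hx y hy ih =>
    obtain ⟨v, hv, rfl⟩ := hx
    rw [simple_inv]
    exact hs v hv y (ih hy)

theorem mem_parF {M : CoxeterMatrix V} {σ : Finset V} (h : Sph M σ) (w : M.Group) :
    w ∈ parF M σ ↔ w ∈ par M σ := by
  have hf : (par M σ : Set M.Group).Finite := by
    have : Finite (par M σ) := h
    exact Set.toFinite _
  unfold parF
  rw [dif_pos hf, Set.Finite.mem_toFinset]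
  exact Iff.rfl

theorem parF_card_pos {M : CoxeterMatrix V} {σ : Finset V} (h : Sph M σ) :
    0 < (parF M σ).card := by
  exact Finset.card_pos.mpr ⟨1, (mem_parF h 1).mpr (one_mem _)⟩

theorem anti_ext (M : CoxeterMatrix V) (σ : Finset V) {H : Type} [Group H] (π : M.Group →* H)
    (c : H → ℂ) (hc : ∀ v ∈ σ, ∀ x, c (x * π (M.simple v)) = -c x) :
    ∀ u ∈ par M σ, ∀ x, c (x * π u) = (eps M u : ℂ) * c x := by
  refine par_induction M σ ?_ ?_
  · intro x
    rw [map_one, map_one, mul_one, Int.cast_one, one_mul]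
  · intro v hv w ih x
    rw [map_mul, map_mul, eps_simple, ← mul_assoc, ih, hc v hv]
    push_cast
    ring

/-- the antisymmetrization over a finite parabolic subgroup -/
noncomputable def altS (M : CoxeterMatrix V) {H : Type} [Group H] (π : M.Group →* H)
    (ρ : Finset V) (h : H → ℂ) (x : H) : ℂ := ∑ u ∈ parF M ρ, (eps M u : ℂ) * h (x * π u)

theorem altS_anti (M : CoxeterMatrix V) {H : Type} [Group H] (π : M.Group →* H)
    {ρ : Finset V} (hρ : Sph M ρ) (h : H → ℂ) {v : V} (hv : v ∈ ρ) (x : H) :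
    altS M π ρ h (x * π (M.simple v)) = -altS M π ρ h x := by
  unfold altS
  rw [← Finset.sum_neg_distrib]
  have hinv : ∀ u, u ∈ parF M ρ → M.simple v * u ∈ parF M ρ := by
    intro u hu
    rw [mem_parF hρ] at hu ⊢
    exact mul_mem (simple_mem_par M hv) hu
  refine Finset.sum_nbij' (fun u => M.simple v * u) (fun u => M.simple v * u) hinv hinv ?_ ?_ ?_
  · intro u _
    rw [← mul_assoc, simple_sq, one_mul]
  · intro u _
    rw [← mul_assoc, simple_sq, one_mul]
  · intro u _
    rw [map_mul, map_mul, eps_simple, mul_assoc]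
    push_cast
    ring

/-- the antisymmetrization with inverses -/
theorem altS_inv (M : CoxeterMatrix V) {H : Type} [Group H] (π : M.Group →* H)
    {ρ : Finset V} (hρ : Sph M ρ) (h : H → ℂ) (x : H) :
    altS M π ρ h x = ∑ u ∈ parF M ρ, (eps M u : ℂ) * h (x * (π u)⁻¹) := by
  unfold altS
  have hinv : ∀ u, u ∈ parF M ρ → u⁻¹ ∈ parF M ρ := by
    intro u hu
    rw [mem_parF hρ] at hu ⊢
    exact inv_mem hu
  refine Finset.sum_nbij' (fun u => u⁻¹) (fun u => u⁻¹) hinv hinv ?_ ?_ ?_
  · intro u _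
    exact inv_inv u
  · intro u _
    exact inv_inv u
  · intro u _
    have h1 : π u⁻¹ = (π u)⁻¹ := map_inv π u
    rw [h1, inv_inv, eps_inv]

end Pool.Agent.H4.FC

end

section

/-!
# Labelled flag complexes: full subcomplexes

`sub M Y` is the Coxeter matrix of the standard parabolic subgroup `W_Y`; `VanS M Y i`: the subcomplex of
the Davis complex of `M` which consists of the cells `w W_σ`, `σ ⊆ Y` (the union of the translates of the
Davis complex of `W_Y`) has zero reduced `ℓ²`-homology in degree `i`.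
-/

set_option autoImplicit false

open Finset

namespace Pool.Agent.H73.LK

open Pool.Agent.H4.FC

variable {V : Type}

theorem sub_apply (M : CoxeterMatrix V) (Y : Finset V) (u v : {v // v ∈ Y}) :
    sub M Y u v = M u.1 v.1 := rfl

variable [Fintype V] [DecidableEq V]

/-- The subcomplex of the cells of type `σ ⊆ Y` has zero reduced `ℓ²`-homology in degree `i`. -/
def VanS (M : CoxeterMatrix V) (Y : Finset V) (i : ℕ) : Prop :=
  ∀ ν : V → ℕ, Function.Injective ν → ∀ z : Finset V → M.Group → ℂ, IsL2Chain M i z →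
    (∀ σ, z σ ≠ 0 → σ ⊆ Y) → dbd ν z = 0 → ∀ ε : ℝ, 0 < ε →
      ∃ y : Finset V → M.Group → ℂ, IsL2Chain M (i + 1) y ∧ (∀ σ, y σ ≠ 0 → σ ⊆ Y) ∧
        ∑ σ, ∑' w, ‖z σ w - dbd ν y σ w‖ ^ 2 < ε

theorem vanS_univ {M : CoxeterMatrix V} {i : ℕ} : VanS M univ i ↔ L2HomologyZero M i := by
  constructor
  · intro h ν hν z hz hd ε hε
    obtain ⟨y, h1, _, h3⟩ := h ν hν z hz (fun σ _ => subset_univ σ) hd ε hε
    exact ⟨y, h1, h3⟩
  · intro h ν hν z hz _ hd ε hε
    obtain ⟨y, h1, h3⟩ := h ν hν z hz hd ε hε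
    exact ⟨y, h1, fun σ _ => subset_univ σ, h3⟩

end Pool.Agent.H73.LK

end

section

/-!
# Induction and restriction between `W_Y` and `W`

`Pool.Agent.H73.LK.sub M Y` is the Coxeter matrix of the standard parabolic subgroup `W_Y`; the homomorphism
`(sub M Y).Group →* M.Group`, `s_v ↦ s_v`, is injective (geometric representation),
with image `par M Y`; `IsSph (sub M Y) σ ↔ Sph M (σ.map val)`.

`vanS_of_sub`: a cycle `z` of types in `Y` is the orthogonal sum of its restrictions to the cosets
`c W_Y` (translates of a cycle of `W_Y`); all but finitely many cosets carry norm `< ε / 2`, approximate the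
others.
`sub_of_vanS`: extend a cycle of `W_Y` by zero to `W`, approximate, restrict the chain to `W_Y`.
The numbering `ν` of `{v // v ∈ Y}` is the restriction of one of `V` (for `vanS_of_sub`), or is extended to an
injective numbering of `V` (for `sub_of_vanS`).
-/

set_option autoImplicit false
set_option linter.unusedSectionVars false

open Finset

namespace Pool.Agent.H73.LK

open Pool.Agent.H4.FC

variable {V : Type}

/-- the homomorphism `W_Y → W` -/
noncomputable def ind_hom (M : CoxeterMatrix V) (Y : Finset V) : (sub M Y).Group →* M.Group :=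
  (sub M Y).toCoxeterSystem.lift ⟨fun v => M.simple v.1, fun u v => by
    have h := M.toCoxeterSystem.simple_mul_simple_pow u.1 v.1
    rw [M.toCoxeterSystem_simple] at h
    rw [sub_apply]
    exact h⟩

theorem ind_hom_simple (M : CoxeterMatrix V) (Y : Finset V) (v : {v // v ∈ Y}) :
    ind_hom M Y ((sub M Y).simple v) = M.simple v.1 := by
  have h := (sub M Y).toCoxeterSystem.lift_apply_simple (f := fun v : {v // v ∈ Y} => M.simple v.1) (fun u v => by
    have h := M.toCoxeterSystem.simple_mul_simple_pow u.1 v.1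
    rw [M.toCoxeterSystem_simple] at h
    rw [sub_apply]
    exact h) v
  rw [(sub M Y).toCoxeterSystem_simple] at h
  exact h

variable [Fintype V] [DecidableEq V]

/-- extension by zero -/
private noncomputable def ind_ext (Y : Finset V) (x : {v // v ∈ Y} → ℝ) (v : V) : ℝ :=
  if h : v ∈ Y then x ⟨v, h⟩ else 0

private theorem ind_ext_sub (Y : Finset V) (x y : {v // v ∈ Y} → ℝ) (r : ℝ) :
    ind_ext Y (x - r • y) = ind_ext Y x - r • ind_ext Y y := by
  funext v
  unfold ind_ext
  by_cases h : v ∈ Y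
  · simp [h]
  · simp [h]

private theorem ind_ext_single (Y : Finset V) (v : {v // v ∈ Y}) :
    ind_ext Y (Pi.single v 1) = Pi.single v.1 1 := by
  funext u
  unfold ind_ext
  by_cases h : u ∈ Y
  · rw [dif_pos h]
    by_cases h1 : u = v.1
    · subst h1
      rw [Pi.single_eq_same, Pi.single_eq_same]
    · rw [Pi.single_eq_of_ne h1, Pi.single_eq_of_ne]
      exact fun h2 => h1 (congrArg Subtype.val h2)
  · rw [dif_neg h, Pi.single_eq_of_ne]
    exact fun h1 => h (h1 ▸ v.2)

private theorem ind_tits (M : CoxeterMatrix V) (Y : Finset V) (w : (sub M Y).Group)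
    (x : {v // v ∈ Y} → ℝ) :
    (titsHom M (ind_hom M Y w)).mulVec (ind_ext Y x) = ind_ext Y ((titsHom (sub M Y) w).mulVec x) := by
  induction w using (sub M Y).toCoxeterSystem.simple_induction_left generalizing x with
  | one => rw [map_one, map_one, map_one, Matrix.one_mulVec, Matrix.one_mulVec]
  | mul_simple_left w i ih =>
    have e1 : (sub M Y).toCoxeterSystem.simple i = (sub M Y).simple i := by
      rw [(sub M Y).toCoxeterSystem_simple]
    rw [e1, map_mul, map_mul, map_mul, ind_hom_simple, ← Matrix.mulVec_mulVec, ← Matrix.mulVec_mulVec, ih]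
    have e2 : titsHom M (M.simple i.1) = refl (kR M) i.1 := titsHom_simple M i.1
    have e3 : titsHom (sub M Y) ((sub M Y).simple i) = refl (kR (sub M Y)) i := titsHom_simple _ i
    rw [e2, e3, refl_mulVec, refl_mulVec, ind_ext_sub, ind_ext_single]
    congr 2
    have h1 : ∀ u ∉ Y, kR M i.1 u * ind_ext Y ((titsHom (sub M Y) w).mulVec x) u = 0 := by
      intro u hu
      unfold ind_ext
      rw [dif_neg hu, mul_zero]
    rw [← Finset.sum_subset (Finset.subset_univ Y) fun u _ hu => h1 u hu, ← Finset.sum_coe_sort]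
    refine Finset.sum_congr rfl fun u _ => ?_
    have h2 : ind_ext Y ((titsHom (sub M Y) w).mulVec x) u.1 = (titsHom (sub M Y) w).mulVec x u := by
      unfold ind_ext
      rw [dif_pos u.2]
    rw [h2]
    rfl

theorem ind_hom_injective (M : CoxeterMatrix V) (Y : Finset V) : Function.Injective (ind_hom M Y) := by
  rw [injective_iff_map_eq_one]
  intro w hw
  apply tits_injective (sub M Y)
  rw [map_one]
  ext i j
  have h := congrFun (ind_tits M Y w (Pi.single j 1)) i.1
  rw [hw, map_one, Matrix.one_mulVec] at h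
  unfold ind_ext at h
  rw [dif_pos i.2, dif_pos i.2, Matrix.mulVec_single_one] at h
  rw [Matrix.one_apply]
  change _ = titsHom (sub M Y) w i j at h
  rw [← h]
  by_cases h1 : i = j
  · subst h1
    simp
  · rw [if_neg h1]
    exact Pi.single_eq_of_ne h1 _

/-- the embedding of the vertices -/
def ind_emb (Y : Finset V) : {v // v ∈ Y} ↪ V := ⟨Subtype.val, Subtype.val_injective⟩

private theorem ind_mem {Y : Finset V} {τ : Finset {v // v ∈ Y}} {v : V} :
    v ∈ τ.map (ind_emb Y) ↔ ∃ h : v ∈ Y, (⟨v, h⟩ : {v // v ∈ Y}) ∈ τ := by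
  rw [mem_map]
  constructor
  · rintro ⟨w, hw, rfl⟩
    exact ⟨w.2, hw⟩
  · rintro ⟨h, hτ⟩
    exact ⟨⟨v, h⟩, hτ, rfl⟩

private theorem ind_sub {Y : Finset V} (τ : Finset {v // v ∈ Y}) : τ.map (ind_emb Y) ⊆ Y :=
  fun _ hv => (ind_mem.1 hv).1

/-- the preimage -/
private def ind_pr (Y σ : Finset V) : Finset {v // v ∈ Y} := univ.filter fun w => w.1 ∈ σ

private theorem ind_mem_pr {Y σ : Finset V} {w : {v // v ∈ Y}} : w ∈ ind_pr Y σ ↔ w.1 ∈ σ := by
  unfold ind_pr
  rw [mem_filter]
  exact ⟨fun h => h.2, fun h => ⟨mem_univ _, h⟩⟩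

private theorem ind_map_pr {Y σ : Finset V} (h : σ ⊆ Y) : (ind_pr Y σ).map (ind_emb Y) = σ := by
  ext v
  rw [ind_mem]
  exact ⟨fun ⟨_, h2⟩ => ind_mem_pr.1 h2, fun h2 => ⟨h h2, ind_mem_pr.2 h2⟩⟩

private theorem ind_pr_map {Y : Finset V} (τ : Finset {v // v ∈ Y}) : ind_pr Y (τ.map (ind_emb Y)) = τ := by
  ext w
  rw [ind_mem_pr, ind_mem]
  exact ⟨fun ⟨_, h2⟩ => h2, fun h => ⟨w.2, h⟩⟩

/-- the image of the parabolic subgroups -/
private theorem ind_par (M : CoxeterMatrix V) (Y : Finset V) (σ : Finset {v // v ∈ Y}) :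
    (par (sub M Y) σ).map (ind_hom M Y) = par M (σ.map (ind_emb Y)) := by
  unfold par
  rw [MonoidHom.map_closure]
  congr 1
  ext w
  constructor
  · rintro ⟨u, ⟨v, hv, rfl⟩, rfl⟩
    exact ⟨v.1, mem_map.2 ⟨v, hv, rfl⟩, ind_hom_simple M Y v⟩
  · rintro ⟨v, hv, rfl⟩
    obtain ⟨u, hu, rfl⟩ := mem_map.1 hv
    exact ⟨(sub M Y).simple u, ⟨u, hu, rfl⟩, ind_hom_simple M Y u⟩

private theorem ind_sph {M : CoxeterMatrix V} {Y : Finset V} {σ : Finset {v // v ∈ Y}} :
    Sph (sub M Y) σ ↔ Sph M (σ.map (ind_emb Y)) := by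
  unfold Sph
  rw [← ind_par]
  exact ((par (sub M Y) σ).equivMapOfInjective _ (ind_hom_injective M Y)).toEquiv.finite_iff

/-- the whole vertex set of the submatrix -/
theorem sph_sub {M : CoxeterMatrix V} {Y : Finset V} (h : Sph M Y) :
    Sph (sub M Y) (univ : Finset {v // v ∈ Y}) := by
  rw [ind_sph]
  convert h
  ext v
  rw [ind_mem]
  exact ⟨fun ⟨h, _⟩ => h, fun h => ⟨h, mem_univ _⟩⟩

/-! ### pulling back -/

variable {M : CoxeterMatrix V} {Y : Finset V}

/-- the restriction of a chain to the coset of `g` -/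
private noncomputable def ind_pull (M : CoxeterMatrix V) (Y : Finset V) (f : Finset V → M.Group → ℂ) (g : M.Group) :
    Finset {v // v ∈ Y} → (sub M Y).Group → ℂ :=
  fun σ u => f (σ.map (ind_emb Y)) (g * ind_hom M Y u)

private theorem ind_dbd (ν : V → ℕ) (f : Finset V → M.Group → ℂ) (hf : ∀ σ, f σ ≠ 0 → σ ⊆ Y) (g : M.Group)
    (σ : Finset {v // v ∈ Y}) (u : (sub M Y).Group) :
    dbd (fun v : {v // v ∈ Y} => ν v.1) (ind_pull M Y f g) σ u =
      dbd ν f (σ.map (ind_emb Y)) (g * ind_hom M Y u) := by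
  unfold dbd
  have h1 : σᶜ.map (ind_emb Y) ⊆ (σ.map (ind_emb Y))ᶜ := by
    intro v hv
    rw [Finset.mem_map] at hv
    obtain ⟨w, hw, rfl⟩ := hv
    rw [Finset.mem_compl] at hw ⊢
    intro h
    exact hw ((Finset.mem_map' _).1 h)
  rw [← Finset.sum_subset h1, Finset.sum_map]
  · refine Finset.sum_congr rfl fun v _ => ?_
    unfold ind_pull
    rw [Finset.map_insert]
    congr 2
    rw [Finset.filter_map, Finset.card_map]
    rfl
  · intro v hv hv'
    by_contra hne
    have h2 : f (insert v (σ.map (ind_emb Y))) ≠ 0 := by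
      intro h0
      exact hne (by rw [h0, Pi.zero_apply, mul_zero])
    have h3 : v ∈ Y := hf _ h2 (mem_insert_self _ _)
    apply hv'
    rw [Finset.mem_map]
    refine ⟨⟨v, h3⟩, ?_, rfl⟩
    rw [mem_compl]
    intro h4
    exact (mem_compl.1 hv) (ind_mem.2 ⟨h3, h4⟩)

private theorem ind_inj (M : CoxeterMatrix V) (Y : Finset V) (g : M.Group) :
    Function.Injective fun u => g * ind_hom M Y u :=
  fun _ _ h => ind_hom_injective M Y (mul_left_cancel h)

private theorem ind_pull_chain {i : ℕ} {f : Finset V → M.Group → ℂ} (hf : IsL2Chain M i f) (g : M.Group) :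
    IsL2Chain (sub M Y) i (ind_pull M Y f g) := by
  refine ⟨fun σ u h => ?_, fun σ v hv u => ?_, fun σ => ?_⟩
  · obtain ⟨h1, h2⟩ := hf.supp _ _ h
    rw [card_map] at h2
    exact ⟨ind_sph.2 h1, h2⟩
  · unfold ind_pull
    rw [map_mul, ind_hom_simple, ← mul_assoc]
    exact hf.anti _ v.1 (mem_map.2 ⟨v, hv, rfl⟩) _
  · exact (hf.l2 (σ.map (ind_emb Y))).comp_injective (ind_inj M Y g)

/-! ### the cosets -/

/-- the cosets of `W_Y` -/
private abbrev IQ (M : CoxeterMatrix V) (Y : Finset V) : Type := M.Group ⧸ (ind_hom M Y).range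

private theorem ind_ex (w : M.Group) : ∃ u, (QuotientGroup.mk w : IQ M Y).out * ind_hom M Y u = w := by
  have h1 : (QuotientGroup.mk (QuotientGroup.mk w : IQ M Y).out : IQ M Y) = QuotientGroup.mk w :=
    Quotient.out_eq' _
  rw [QuotientGroup.eq] at h1
  obtain ⟨u, hu⟩ := h1
  exact ⟨u, by rw [hu, mul_inv_cancel_left]⟩

/-- the component in `W_Y` -/
private noncomputable def ind_u (M : CoxeterMatrix V) (Y : Finset V) (w : M.Group) : (sub M Y).Group :=
  (ind_ex (Y := Y) w).choose

private theorem ind_u_spec (w : M.Group) :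
    (QuotientGroup.mk w : IQ M Y).out * ind_hom M Y (ind_u M Y w) = w := (ind_ex (Y := Y) w).choose_spec

private theorem ind_mk (q : IQ M Y) (u : (sub M Y).Group) :
    (QuotientGroup.mk (q.out * ind_hom M Y u) : IQ M Y) = q := by
  have h1 : (QuotientGroup.mk q.out : IQ M Y) = q := Quotient.out_eq' q
  conv_rhs => rw [← h1]
  rw [eq_comm, QuotientGroup.eq]
  exact ⟨u, by group⟩

private theorem ind_u_mk (q : IQ M Y) (u : (sub M Y).Group) : ind_u M Y (q.out * ind_hom M Y u) = u := by
  have h1 := ind_u_spec (M := M) (Y := Y) (q.out * ind_hom M Y u)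
  rw [ind_mk] at h1
  exact ind_hom_injective M Y (mul_left_cancel h1)

/-- the decomposition into cosets -/
private noncomputable def ind_e (M : CoxeterMatrix V) (Y : Finset V) : IQ M Y × (sub M Y).Group ≃ M.Group where
  toFun p := p.1.out * ind_hom M Y p.2
  invFun w := (QuotientGroup.mk w, ind_u M Y w)
  left_inv p := Prod.ext (ind_mk p.1 p.2) (ind_u_mk p.1 p.2)
  right_inv w := ind_u_spec w

private theorem ind_step (w : M.Group) (v : {v // v ∈ Y}) :
    (QuotientGroup.mk (w * M.simple v.1) : IQ M Y) = QuotientGroup.mk w ∧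
      ind_u M Y (w * M.simple v.1) = ind_u M Y w * (sub M Y).simple v := by
  have h1 : w * M.simple v.1 = (QuotientGroup.mk w : IQ M Y).out *
      ind_hom M Y (ind_u M Y w * (sub M Y).simple v) := by
    rw [map_mul, ind_hom_simple, ← mul_assoc, ind_u_spec]
  constructor
  · conv_lhs => rw [h1]
    exact ind_mk _ _
  · conv_lhs => rw [h1]
    exact ind_u_mk _ _

open Classical in
/-- the chain with given restrictions to the cosets -/
private noncomputable def ind_glue (M : CoxeterMatrix V) (Y : Finset V)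
    (y : IQ M Y → Finset {v // v ∈ Y} → (sub M Y).Group → ℂ) : Finset V → M.Group → ℂ :=
  fun σ w => if σ ⊆ Y then y (QuotientGroup.mk w) (ind_pr Y σ) (ind_u M Y w) else 0

private theorem ind_glue_types (y : IQ M Y → Finset {v // v ∈ Y} → (sub M Y).Group → ℂ) (σ : Finset V)
    (h : ind_glue M Y y σ ≠ 0) : σ ⊆ Y := by
  by_contra h1
  apply h
  funext w
  exact if_neg h1

private theorem ind_pull_glue (y : IQ M Y → Finset {v // v ∈ Y} → (sub M Y).Group → ℂ) (q : IQ M Y) :
    ind_pull M Y (ind_glue M Y y) q.out = y q := by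
  funext σ u
  unfold ind_pull ind_glue
  rw [if_pos (ind_sub σ), ind_mk, ind_u_mk, ind_pr_map]

private theorem ind_glue_chain {i : ℕ} {y : IQ M Y → Finset {v // v ∈ Y} → (sub M Y).Group → ℂ}
    (hy : ∀ q, IsL2Chain (sub M Y) i (y q)) (F : Finset (IQ M Y)) (hF : ∀ q, q ∉ F → y q = 0) :
    IsL2Chain M i (ind_glue M Y y) := by
  classical
  refine ⟨fun σ w h => ?_, fun σ v hv w => ?_, fun σ => ?_⟩
  · unfold ind_glue at h
    by_cases hs : σ ⊆ Y
    · rw [if_pos hs] at h
      obtain ⟨h1, h2⟩ := (hy _).supp _ _ h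
      rw [ind_sph, ind_map_pr hs] at h1
      rw [← card_map (ind_emb Y), ind_map_pr hs] at h2
      exact ⟨h1, h2⟩
    · exact absurd (if_neg hs) h
  · unfold ind_glue
    by_cases hs : σ ⊆ Y
    · rw [if_pos hs, if_pos hs]
      obtain ⟨h1, h2⟩ := ind_step (M := M) (Y := Y) w ⟨v, hs hv⟩
      rw [h1, h2]
      exact (hy _).anti _ ⟨v, hs hv⟩ (ind_mem_pr.2 hv) _
    · rw [if_neg hs, if_neg hs, neg_zero]
  · by_cases hs : σ ⊆ Y
    · have h1 : ∀ q ∈ F, Summable fun w : M.Group =>
          if (QuotientGroup.mk w : IQ M Y) = q then ‖y q (ind_pr Y σ) (ind_u M Y w)‖ ^ 2 else 0 := by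
        intro q _
        have h2 : Function.Injective fun u => q.out * ind_hom M Y u := ind_inj M Y q.out
        rw [← h2.summable_iff]
        · have h3 : ((fun w : M.Group =>
              if (QuotientGroup.mk w : IQ M Y) = q then ‖y q (ind_pr Y σ) (ind_u M Y w)‖ ^ 2 else 0) ∘
              fun u => q.out * ind_hom M Y u) = fun u => ‖y q (ind_pr Y σ) u‖ ^ 2 := by
            funext u
            rw [Function.comp_apply, if_pos (ind_mk q u), ind_u_mk]
          rw [h3]
          exact (hy q).l2 _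
        · intro w hw
          refine if_neg fun h3 => hw ⟨ind_u M Y w, ?_⟩
          have h4 := ind_u_spec (M := M) (Y := Y) w
          rw [h3] at h4
          exact h4
      refine (summable_sum h1).congr fun w => ?_
      unfold ind_glue
      rw [if_pos hs, Finset.sum_ite_eq]
      split_ifs with h2
      · rfl
      · rw [hF _ h2]
        simp
    · have h1 : (fun w => ‖ind_glue M Y y σ w‖ ^ 2) = fun _ => 0 := by
        funext w
        unfold ind_glue
        rw [if_neg hs]
        simp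
      rw [h1]
      exact summable_zero

/-! ### norms -/

private theorem ind_sq_add {G : Type} {f g : G → ℂ} (hf : Summable fun w => ‖f w‖ ^ 2)
    (hg : Summable fun w => ‖g w‖ ^ 2) : Summable fun w => ‖f w + g w‖ ^ 2 := by
  refine Summable.of_nonneg_of_le (fun w => sq_nonneg _) (fun w => ?_) ((hf.add hg).mul_left 2)
  have h1 := norm_add_le (f w) (g w)
  have h2 := norm_nonneg (f w + g w)
  nlinarith [sq_nonneg (‖f w‖ - ‖g w‖), norm_nonneg (f w), norm_nonneg (g w)]

private theorem ind_sq_dbd {G : Type} (s : Finset V) (c : V → ℂ) (f : V → G → ℂ)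
    (hf : ∀ v ∈ s, Summable fun w => ‖f v w‖ ^ 2) : Summable fun w => ‖∑ v ∈ s, c v * f v w‖ ^ 2 := by
  induction s using Finset.induction_on with
  | empty => simp
  | insert a s ha ih =>
    have h1 : Summable fun w => ‖c a * f a w‖ ^ 2 := by
      have h2 := (hf a (mem_insert_self a s)).mul_left (‖c a‖ ^ 2)
      refine h2.congr fun w => ?_
      rw [norm_mul, mul_pow]
    have h2 := ind_sq_add h1 (ih fun v hv => hf v (mem_insert_of_mem hv))
    refine h2.congr fun w => ?_
    rw [sum_insert ha]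

private theorem ind_err_sq {i j : ℕ} {ν : V → ℕ} {z y : Finset V → M.Group → ℂ} (hz : IsL2Chain M i z)
    (hy : IsL2Chain M j y) (σ : Finset V) : Summable fun w => ‖z σ w - dbd ν y σ w‖ ^ 2 := by
  have h1 : Summable fun w => ‖dbd ν y σ w‖ ^ 2 :=
    ind_sq_dbd σᶜ (fun v => (-1) ^ (σ.filter fun u => ν u < ν v).card) (fun v w => y (insert v σ) w)
      fun v _ => hy.l2 _
  have h2 : Summable fun w => ‖-dbd ν y σ w‖ ^ 2 := h1.congr fun w => by rw [norm_neg]
  exact (ind_sq_add (hz.l2 σ) h2).congr fun w => by rw [sub_eq_add_neg]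

/-- the norm is the sum of the norms of the restrictions to the cosets -/
private theorem ind_hasSum (f : Finset V → M.Group → ℂ) (hf : ∀ σ, f σ ≠ 0 → σ ⊆ Y)
    (h2 : ∀ σ, Summable fun w => ‖f σ w‖ ^ 2) :
    HasSum (fun q : IQ M Y => ∑ σ, ∑' u, ‖ind_pull M Y f q.out σ u‖ ^ 2) (∑ σ, ∑' w, ‖f σ w‖ ^ 2) := by
  have h3 : ∑ σ, ∑' w, ‖f σ w‖ ^ 2 = ∑ σ : Finset {v // v ∈ Y}, ∑' w, ‖f (σ.map (ind_emb Y)) w‖ ^ 2 := by
    have h4 : ∑ σ ∈ univ.map (⟨fun σ : Finset {v // v ∈ Y} => σ.map (ind_emb Y), map_injective _⟩ :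
        Finset {v // v ∈ Y} ↪ Finset V), ∑' w, ‖f σ w‖ ^ 2 = ∑ σ, ∑' w, ‖f σ w‖ ^ 2 := by
      refine Finset.sum_subset (subset_univ _) fun σ _ hσ => ?_
      have h5 : f σ = 0 := by
        by_contra h5
        exact hσ (mem_map.2 ⟨ind_pr Y σ, mem_univ _, ind_map_pr (hf σ h5)⟩)
      rw [h5]
      simp
    rw [← h4, Finset.sum_map]
    rfl
  rw [h3]
  refine hasSum_sum fun σ _ => ?_
  have h4 := (ind_e M Y).hasSum_iff.2 (h2 (σ.map (ind_emb Y))).hasSum
  refine h4.prod_fiberwise fun q => ?_
  exact ((h2 (σ.map (ind_emb Y))).comp_injective (ind_inj M Y q.out)).hasSum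

private theorem ind_dbd_types (ν : V → ℕ) {f : Finset V → M.Group → ℂ} (hf : ∀ σ, f σ ≠ 0 → σ ⊆ Y)
    (σ : Finset V) (h : dbd ν f σ ≠ 0) : σ ⊆ Y := by
  by_contra h1
  apply h
  funext w
  refine Finset.sum_eq_zero fun v _ => ?_
  have h2 : f (insert v σ) = 0 := by
    by_contra h3
    exact h1 ((subset_insert v σ).trans (hf _ h3))
  rw [h2, Pi.zero_apply, mul_zero]

private theorem ind_err_types (ν : V → ℕ) {z y : Finset V → M.Group → ℂ} (hz : ∀ σ, z σ ≠ 0 → σ ⊆ Y)
    (hy : ∀ σ, y σ ≠ 0 → σ ⊆ Y) (σ : Finset V) (h : (fun w => z σ w - dbd ν y σ w) ≠ 0) : σ ⊆ Y := by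
  by_contra h1
  apply h
  have h2 : z σ = 0 := by
    by_contra h3
    exact h1 (hz σ h3)
  have h3 : dbd ν y σ = 0 := by
    by_contra h3
    exact h1 (ind_dbd_types ν hy σ h3)
  funext w
  rw [h2, h3]
  simp

theorem vanS_of_sub {i : ℕ} (h : L2HomologyZero (sub M Y) i) : VanS M Y i := by
  classical
  intro ν hν z hz hzY hz0 ε hε
  have hν' : Function.Injective fun v : {v // v ∈ Y} => ν v.1 := hν.comp Subtype.val_injective
  have hS := ind_hasSum (M := M) (Y := Y) z hzY hz.l2
  obtain ⟨S, hSdef⟩ : ∃ S, S = ∑ σ, ∑' w, ‖z σ w‖ ^ 2 := ⟨_, rfl⟩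
  rw [← hSdef] at hS
  obtain ⟨T, hT⟩ : ∃ T : IQ M Y → ℝ, T = fun q => ∑ σ, ∑' u, ‖ind_pull M Y z q.out σ u‖ ^ 2 := ⟨_, rfl⟩
  rw [← hT] at hS
  obtain ⟨F, hF⟩ : ∃ F : Finset (IQ M Y), S - ε / 2 < ∑ q ∈ F, T q := by
    have h1 := hS.eventually (lt_mem_nhds (show S - ε / 2 < S by linarith))
    exact h1.exists
  obtain ⟨δ, hδ, hδF⟩ : ∃ δ : ℝ, 0 < δ ∧ F.card * δ ≤ ε / 2 := by
    refine ⟨ε / (2 * (F.card + 1)), by positivity, ?_⟩
    rw [mul_div_assoc', div_le_div_iff₀ (by positivity) (by norm_num)]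
    nlinarith [(Nat.cast_nonneg F.card : (0 : ℝ) ≤ F.card)]
  have hcyc : ∀ q : IQ M Y, dbd (fun v : {v // v ∈ Y} => ν v.1) (ind_pull M Y z q.out) = 0 := by
    intro q
    funext σ u
    rw [ind_dbd ν z hzY, hz0]
    rfl
  choose yq hyq hyq' using fun q : IQ M Y =>
    h (fun v : {v // v ∈ Y} => ν v.1) hν' _ (ind_pull_chain hz q.out) (hcyc q) δ hδ
  obtain ⟨y', hy'⟩ : ∃ y' : IQ M Y → Finset {v // v ∈ Y} → (sub M Y).Group → ℂ,
      ∀ q, y' q = if q ∈ F then yq q else 0 := ⟨_, fun _ => rfl⟩
  have hy'c : ∀ q, IsL2Chain (sub M Y) (i + 1) (y' q) := by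
    intro q
    rw [hy']
    split_ifs
    · exact hyq q
    · exact ⟨fun σ w h => absurd rfl h, fun σ v _ w => by simp, fun σ => by simp⟩
  have hy := ind_glue_chain (M := M) (Y := Y) hy'c F fun q hq => by rw [hy', if_neg hq]
  have hyY := ind_glue_types (M := M) (Y := Y) y'
  refine ⟨ind_glue M Y y', hy, hyY, ?_⟩
  obtain ⟨f, hf⟩ : ∃ f : Finset V → M.Group → ℂ, f = fun σ w => z σ w - dbd ν (ind_glue M Y y') σ w := ⟨_, rfl⟩
  have hsum := ind_hasSum (M := M) (Y := Y) f (by rw [hf]; exact ind_err_types ν hzY hyY)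
    (by rw [hf]; exact ind_err_sq hz hy)
  have hpull : ∀ q : IQ M Y, ∀ σ u, ind_pull M Y f q.out σ u = ind_pull M Y z q.out σ u -
      dbd (fun v : {v // v ∈ Y} => ν v.1) (y' q) σ u := by
    intro q σ u
    have h1 := ind_dbd ν (ind_glue M Y y') hyY q.out σ u
    rw [ind_pull_glue] at h1
    rw [h1, hf]
    rfl
  obtain ⟨E, hE⟩ : ∃ E : IQ M Y → ℝ, E = fun q => ∑ σ, ∑' u, ‖ind_pull M Y f q.out σ u‖ ^ 2 := ⟨_, rfl⟩
  rw [← hE] at hsum
  have hEF : ∀ q ∈ F, E q < δ := by
    intro q hq
    rw [hE]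
    simp only [hpull]
    rw [hy', if_pos hq]
    exact hyq' q
  have hEn : ∀ q, q ∉ F → E q = T q := by
    intro q hq
    rw [hE, hT]
    simp only [hpull]
    rw [hy', if_neg hq]
    refine Finset.sum_congr rfl fun σ _ => tsum_congr fun u => ?_
    have h1 : dbd (fun v : {v // v ∈ Y} => ν v.1) (0 : Finset {v // v ∈ Y} → (sub M Y).Group → ℂ) σ u = 0 := by
      unfold dbd
      simp
    rw [h1, sub_zero]
  have hg : HasSum (fun q => if q ∈ F then E q - T q else 0) (∑ q ∈ F, (E q - T q)) := by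
    have h1 : ∀ q ∉ F, (fun q => if q ∈ F then E q - T q else 0) q = 0 := fun q hq => if_neg hq
    have h2 : HasSum (fun q => if q ∈ F then E q - T q else 0)
        (∑ q ∈ F, (fun q => if q ∈ F then E q - T q else 0) q) := hasSum_sum_of_ne_finset_zero h1
    have h3 : ∑ q ∈ F, (fun q => if q ∈ F then E q - T q else 0) q = ∑ q ∈ F, (E q - T q) :=
      Finset.sum_congr rfl fun q hq => if_pos hq
    rwa [h3] at h2
  have hET : HasSum E (S + ∑ q ∈ F, (E q - T q)) := by
    refine (hS.add hg).congr_fun fun q => ?_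
    by_cases hq : q ∈ F
    · rw [if_pos hq]
      ring
    · rw [if_neg hq, hEn q hq, add_zero]
  have hfin := hsum.unique hET
  have h1 : ∑ σ, ∑' w, ‖z σ w - dbd ν (ind_glue M Y y') σ w‖ ^ 2 = ∑ σ, ∑' w, ‖f σ w‖ ^ 2 := by rw [hf]
  rw [h1, hfin, Finset.sum_sub_distrib]
  have h2 : ∑ q ∈ F, E q ≤ F.card * δ := by
    rw [← nsmul_eq_mul]
    exact Finset.sum_le_card_nsmul F E δ fun q hq => (hEF q hq).le
  linarith

theorem sub_of_vanS {i : ℕ} (h : VanS M Y i) : L2HomologyZero (sub M Y) i := by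
  classical
  intro ν₀ hν₀ z hz hz0 ε hε
  -- the extended numbering
  obtain ⟨ν, hν, hνν⟩ : ∃ ν : V → ℕ, Function.Injective ν ∧ (fun v : {v // v ∈ Y} => ν v.1) = ν₀ := by
    obtain ⟨N, hN⟩ : ∃ N, ∀ v, ν₀ v ≤ N := ⟨univ.sup ν₀, fun v => le_sup (mem_univ v)⟩
    refine ⟨fun v => if h : v ∈ Y then ν₀ ⟨v, h⟩ else N + 1 + (Fintype.equivFin V v : ℕ), ?_, ?_⟩
    · intro u v huv
      by_cases hu : u ∈ Y <;> by_cases hv : v ∈ Y
      · simp only [hu, hv, dif_pos] at huv
        exact congrArg Subtype.val (hν₀ huv)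
      · simp only [hu, hv, dif_pos, dif_neg, not_false_iff] at huv
        have := hN ⟨u, hu⟩
        omega
      · simp only [hu, hv, dif_pos, dif_neg, not_false_iff] at huv
        have := hN ⟨v, hv⟩
        omega
      · simp only [hu, hv, dif_neg, not_false_iff] at huv
        exact (Fintype.equivFin V).injective (Fin.ext (by omega))
    · funext v
      simp only [v.2, dif_pos]
  subst hνν
  obtain ⟨q₀, hq₀⟩ : ∃ q₀ : IQ M Y, q₀ = QuotientGroup.mk 1 := ⟨_, rfl⟩
  obtain ⟨zq, hzq⟩ : ∃ zq : IQ M Y → Finset {v // v ∈ Y} → (sub M Y).Group → ℂ,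
      ∀ q, zq q = if q = q₀ then z else 0 := ⟨_, fun _ => rfl⟩
  have hzc : ∀ q, IsL2Chain (sub M Y) i (zq q) := by
    intro q
    rw [hzq]
    split_ifs
    · exact hz
    · exact ⟨fun σ w h => absurd rfl h, fun σ v _ w => by simp, fun σ => by simp⟩
  have hg := ind_glue_chain (M := M) (Y := Y) hzc {q₀} fun q hq => by
    rw [hzq, if_neg fun h => hq (mem_singleton.2 h)]
  have hgY := ind_glue_types (M := M) (Y := Y) zq
  have hg0 : dbd ν (ind_glue M Y zq) = 0 := by
    funext σ w
    by_cases hs : σ ⊆ Y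
    · have h1 := ind_dbd ν (ind_glue M Y zq) hgY (QuotientGroup.mk w : IQ M Y).out (ind_pr Y σ) (ind_u M Y w)
      rw [ind_pull_glue, ind_map_pr hs, ind_u_spec] at h1
      rw [← h1, hzq]
      split_ifs
      · rw [hz0]
        rfl
      · unfold dbd
        simp
    · have h1 : dbd ν (ind_glue M Y zq) σ = 0 := by
        by_contra h1
        exact hs (ind_dbd_types ν hgY σ h1)
      rw [h1]
      rfl
  obtain ⟨y, hy, hyY, hyε⟩ := h ν hν _ hg hgY hg0 ε hε
  refine ⟨ind_pull M Y y q₀.out, ind_pull_chain hy q₀.out, ?_⟩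
  obtain ⟨f, hf⟩ : ∃ f : Finset V → M.Group → ℂ, f = fun σ w => ind_glue M Y zq σ w - dbd ν y σ w := ⟨_, rfl⟩
  have hsum := ind_hasSum (M := M) (Y := Y) f (by rw [hf]; exact ind_err_types ν hgY hyY)
    (by rw [hf]; exact ind_err_sq hg hy)
  have h1 : ∑ σ, ∑' u, ‖z σ u - dbd (fun v : {v // v ∈ Y} => ν v.1) (ind_pull M Y y q₀.out) σ u‖ ^ 2 =
      ∑ σ, ∑' u, ‖ind_pull M Y f q₀.out σ u‖ ^ 2 := by
    refine Finset.sum_congr rfl fun σ _ => tsum_congr fun u => ?_
    rw [ind_dbd ν y hyY, hf]
    have h2 := congrFun (congrFun (ind_pull_glue (M := M) (Y := Y) zq q₀) σ) u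
    rw [hzq, if_pos rfl] at h2
    rw [← h2]
    rfl
  rw [h1]
  have h2 : ∑ σ, ∑' u, ‖ind_pull M Y f q₀.out σ u‖ ^ 2 ≤ ∑ σ, ∑' w, ‖f σ w‖ ^ 2 :=
    le_hasSum hsum q₀ fun q _ => Finset.sum_nonneg fun σ _ => tsum_nonneg fun u => sq_nonneg _
  refine h2.trans_lt ?_
  rw [hf]
  exact hyε

end Pool.Agent.H73.LK

end

section

/-!
# Project FC: cliques are spherical in dihedral type

`finite_of_comm`: if `σ = σ₁ ∪ σ₂` and all `s_u`, `u ∈ σ₁`, commute with all `s_v`, `v ∈ σ₂`, then every element of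
`par M σ` is a product `a b` with `a ∈ par M σ₁`, `b ∈ par M σ₂` (`par_induction`; elements of
`par M σ₂` commute with the generators of `par M σ₁`), so `par M σ` is finite if both are.
`par M ∅` is trivial, `par M {v} = {1, s_v}`. `par M {u, v}` with `m = M u v ≠ 0`: every element is
`(s_u s_v)^j` or `(s_u s_v)^j s_u` with `j < m` (`par_induction`: the set of these elements for all integers
`j` is closed under left multiplication by `s_u` and `s_v`, as
`s_u (s_u s_v)^j = (s_v s_u)^(j-1) s_v = (s_u s_v)^(-(j-1)) s_v = (s_u s_v)^(-j) s_u`, and the powers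
depend only on `j` modulo `m`).

`par_finite`: strong induction on `|σ|`. `σ = ∅`: clear. Let `v ∈ σ`. If `M v u = 2` for all `u ∈ σ`,
`u ≠ v`, use `σ₁ = {v}`, `σ₂ = σ.erase v` (`M v u = 2` means that `s_v`, `s_u` commute:
`(s_v s_u)² = 1`). Otherwise there is `u ∈ σ`, `u ≠ v`, `M v u ≠ 2`, and by `IsDih` all labels between
`{u, v}` and `σ \ {u, v}` are `2`; use `σ₁ = {u, v}`, `σ₂ = σ \ {u, v}`.
-/

set_option autoImplicit false

open Finset

namespace Pool.Agent.H4.FC

open Pool.Agent.H85.Fold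

variable {V : Type} [DecidableEq V]

omit [DecidableEq V] in
private theorem pf_rel (M : CoxeterMatrix V) (u v : V) :
    (M.simple u * M.simple v) ^ M u v = 1 := by
  have h := M.toCoxeterSystem.simple_mul_simple_pow u v
  rwa [M.toCoxeterSystem_simple] at h

omit [DecidableEq V] in
private theorem pf_comm_of_two (M : CoxeterMatrix V) {u v : V} (h : M u v = 2) :
    M.simple u * M.simple v = M.simple v * M.simple u := by
  have h1 := pf_rel M u v
  rw [h, pow_two] at h1
  have h2 : M.simple u * M.simple v = (M.simple u * M.simple v)⁻¹ :=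
    eq_inv_of_mul_eq_one_left h1
  rw [h2, mul_inv_rev, simple_inv, simple_inv]

omit [DecidableEq V] in
private theorem pf_fin {M : CoxeterMatrix V} {σ : Finset V} {A : Set M.Group} (hA : A.Finite)
    (h : ∀ w ∈ par M σ, w ∈ A) : Sph M σ :=
  (hA.subset h).to_subtype

omit [DecidableEq V] in
private theorem pf_set {M : CoxeterMatrix V} {σ : Finset V} (h : Sph M σ) :
    (par M σ : Set M.Group).Finite := by
  have : Finite (par M σ) := h
  exact Set.toFinite _

omit [DecidableEq V] in
private theorem pf_empty (M : CoxeterMatrix V) : Sph M ∅ := by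
  refine pf_fin (Set.finite_singleton (1 : M.Group)) ?_
  refine par_induction M ∅ rfl ?_
  intro v hv
  exact absurd hv (Finset.notMem_empty v)

omit [DecidableEq V] in
private theorem pf_single (M : CoxeterMatrix V) (v : V) : Sph M {v} := by
  refine pf_fin ((Set.finite_singleton (1 : M.Group)).union (Set.finite_singleton (M.simple v))) ?_
  refine par_induction M {v} (Or.inl rfl) ?_
  intro u hu w hw
  rw [Finset.mem_singleton.mp hu]
  rcases hw with hw | hw
  · right
    rw [Set.mem_singleton_iff.mp hw, mul_one]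
    exact rfl
  · left
    rw [Set.mem_singleton_iff.mp hw, simple_sq]
    exact rfl

private theorem pf_pair (M : CoxeterMatrix V) {u v : V} (h : M u v ≠ 0) : Sph M {u, v} := by
  obtain ⟨r, hr⟩ : ∃ r, r = M.simple u * M.simple v := ⟨_, rfl⟩
  have hfin : IsOfFinOrder r :=
    isOfFinOrder_iff_pow_eq_one.mpr ⟨M u v, Nat.pos_of_ne_zero h, by rw [hr]; exact pf_rel M u v⟩
  have hz : (Subgroup.zpowers r : Set M.Group).Finite := finite_zpowers.mpr hfin
  have hcr : M.simple u * r * (M.simple u)⁻¹ = r⁻¹ := by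
    rw [hr, simple_inv, mul_inv_rev, simple_inv, simple_inv, ← mul_assoc, simple_sq, one_mul]
  have hc : ∀ z ∈ Subgroup.zpowers r, M.simple u * z = z⁻¹ * M.simple u := by
    rintro z ⟨j, rfl⟩
    have h1 : M.simple u * r ^ j * (M.simple u)⁻¹ = (r ^ j)⁻¹ := by
      rw [← conj_zpow, hcr, inv_zpow]
    have h2 : M.simple u * r ^ j = (r ^ j)⁻¹ * M.simple u := by
      rw [← h1, inv_mul_cancel_right]
    exact h2
  have hv : M.simple v = M.simple u * r := by
    rw [hr, ← mul_assoc, simple_sq, one_mul]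
  refine pf_fin (hz.union (hz.image (fun z => z * M.simple u))) ?_
  refine par_induction M {u, v} (Or.inl (one_mem _)) ?_
  have hu : ∀ w, w ∈ (Subgroup.zpowers r : Set M.Group) ∪
      (fun z => z * M.simple u) '' (Subgroup.zpowers r : Set M.Group) →
      M.simple u * w ∈ (Subgroup.zpowers r : Set M.Group) ∪
      (fun z => z * M.simple u) '' (Subgroup.zpowers r : Set M.Group) := by
    rintro w (hw | ⟨z, hz, rfl⟩)
    · right
      exact ⟨w⁻¹, inv_mem hw, (hc w hw).symm⟩
    · left
      show M.simple u * (z * M.simple u) ∈ Subgroup.zpowers r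
      rw [← mul_assoc, hc z hz, mul_assoc, simple_sq, mul_one]
      exact inv_mem hz
  have hrm : ∀ w, w ∈ (Subgroup.zpowers r : Set M.Group) ∪
      (fun z => z * M.simple u) '' (Subgroup.zpowers r : Set M.Group) →
      r * w ∈ (Subgroup.zpowers r : Set M.Group) ∪
      (fun z => z * M.simple u) '' (Subgroup.zpowers r : Set M.Group) := by
    rintro w (hw | ⟨z, hz, rfl⟩)
    · left
      exact mul_mem (Subgroup.mem_zpowers r) hw
    · right
      exact ⟨r * z, mul_mem (Subgroup.mem_zpowers r) hz, by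
        show r * z * M.simple u = r * (z * M.simple u)
        rw [mul_assoc]⟩
  intro x hx w hw
  rcases Finset.mem_insert.mp hx with hx | hx
  · rw [hx]
    exact hu w hw
  · rw [Finset.mem_singleton.mp hx, hv, mul_assoc]
    exact hu _ (hrm w hw)

private theorem pf_union (M : CoxeterMatrix V) {σ₁ σ₂ : Finset V}
    (hc : ∀ u ∈ σ₁, ∀ v ∈ σ₂, M.simple u * M.simple v = M.simple v * M.simple u)
    (h1 : Sph M σ₁) (h2 : Sph M σ₂) : Sph M (σ₁ ∪ σ₂) := by
  have k1 : ∀ b ∈ par M σ₂, ∀ u ∈ σ₁, M.simple u * b = b * M.simple u := by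
    refine par_induction M σ₂ ?_ ?_
    · intro u _
      rw [mul_one, one_mul]
    · intro v hv w ih u hu
      rw [← mul_assoc, hc u hu v hv, mul_assoc, ih u hu, mul_assoc]
  have k2 : ∀ a ∈ par M σ₁, ∀ b ∈ par M σ₂, a * b = b * a := by
    refine par_induction M σ₁ ?_ ?_
    · intro b _
      rw [mul_one, one_mul]
    · intro u hu w ih b hb
      rw [mul_assoc, ih b hb, ← mul_assoc, k1 b hb u hu, mul_assoc]
  refine pf_fin (Set.Finite.image2 (fun a b => a * b) (pf_set h1) (pf_set h2)) ?_
  refine par_induction M (σ₁ ∪ σ₂) ⟨1, one_mem _, 1, one_mem _, mul_one _⟩ ?_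
  rintro v hv _ ⟨a, ha, b, hb, rfl⟩
  rcases Finset.mem_union.mp hv with hv | hv
  · exact ⟨M.simple v * a, mul_mem (simple_mem_par M hv) ha, b, hb, by
      show M.simple v * a * b = M.simple v * (a * b)
      rw [mul_assoc]⟩
  · refine ⟨a, ha, M.simple v * b, mul_mem (simple_mem_par M hv) hb, ?_⟩
    show a * (M.simple v * b) = M.simple v * (a * b)
    rw [← mul_assoc, k2 a ha _ (simple_mem_par M hv), mul_assoc]

theorem par_finite (M : CoxeterMatrix V) (hM : IsDih M) (σ : Finset V) (hσ : Cl (gr M) σ) :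
    Sph M σ := by
  induction hn : σ.card using Nat.strong_induction_on generalizing σ with
  | _ n ih =>
  rcases σ.eq_empty_or_nonempty with h0 | ⟨v, hv⟩
  · rw [h0]
    exact pf_empty M
  · by_cases hc : ∀ u ∈ σ, u ≠ v → M v u = 2
    · have e : σ = {v} ∪ σ.erase v := by
        ext x
        by_cases hx : x = v
        · simp [hx, hv]
        · simp [hx]
      rw [e]
      refine pf_union M ?_ (pf_single M v) ?_
      · intro u hu w hw
        rw [Finset.mem_singleton.mp hu]
        exact pf_comm_of_two M (hc w (Finset.mem_of_mem_erase hw) (Finset.ne_of_mem_erase hw))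
      · refine ih _ ?_ (σ.erase v) ?_ rfl
        · rw [← hn]
          exact Finset.card_erase_lt_of_mem hv
        · intro a ha b hb hab
          exact hσ a (Finset.mem_of_mem_erase ha) b (Finset.mem_of_mem_erase hb) hab
    · push Not at hc
      obtain ⟨u, hu, huv, h2⟩ := hc
      have e : σ = {v, u} ∪ σ \ {v, u} := by
        rw [Finset.union_sdiff_of_subset]
        intro x hx
        rcases Finset.mem_insert.mp hx with hx | hx
        · rw [hx]; exact hv
        · rw [Finset.mem_singleton.mp hx]; exact hu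
      rw [e]
      refine pf_union M ?_ (pf_pair M (hσ v hv u hu huv.symm).2) ?_
      · intro x hx y hy
        obtain ⟨hy1, hy2⟩ := Finset.mem_sdiff.mp hy
        rw [Finset.mem_insert, Finset.mem_singleton] at hy2
        push Not at hy2
        obtain ⟨hyv, hyu⟩ := hy2
        apply pf_comm_of_two M
        rcases Finset.mem_insert.mp hx with hx | hx
        · rw [hx]
          rcases hM u v y (hσ u hu v hv huv) (hσ v hv y hy1 hyv.symm)
            (hσ u hu y hy1 hyu.symm) with h | h
          · exfalso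
            rw [M.symmetric] at h
            exact h2 h
          · exact h
        · rw [Finset.mem_singleton.mp hx]
          rcases hM v u y (hσ v hv u hu huv.symm) (hσ u hu y hy1 hyu.symm)
            (hσ v hv y hy1 hyv.symm) with h | h
          · exact absurd h h2
          · exact h
      · refine ih _ ?_ (σ \ {v, u}) ?_ rfl
        · rw [← hn]
          refine Finset.card_lt_card ?_
          rw [Finset.ssubset_iff_of_subset Finset.sdiff_subset]
          exact ⟨v, hv, fun h => (Finset.mem_sdiff.mp h).2 (Finset.mem_insert_self _ _)⟩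
        · intro a ha b hb hab
          exact hσ a (Finset.mem_sdiff.mp ha).1 b (Finset.mem_sdiff.mp hb).1 hab

end Pool.Agent.H4.FC

end

section

/-!
# Project FC: the nerve in dihedral type

If `σ` is spherical and `u ≠ v` are in `σ`, `M u v = 0`, then `k ↦ (s_u s_v)^k` is an injective map from
`ℕ` to the finite set `par M σ`: if `(s_u s_v)^j = (s_u s_v)^k` with `j < k` then
`(s_u s_v)^(k-j) = 1`, contradicting `alt_infinite`. The converse is `par_finite`.
-/

set_option autoImplicit false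

open Finset

namespace Pool.Agent.H4.FC

open Pool.Agent.H85.Fold

variable {V : Type} [Fintype V] [DecidableEq V]

theorem sph_cl (M : CoxeterMatrix V) (σ : Finset V) (h : Sph M σ) : Cl (gr M) σ := by
  intro u hu v hv huv
  refine ⟨huv, fun h0 => ?_⟩
  have hfin : Finite (par M σ) := h
  have hr : M.simple u * M.simple v ∈ par M σ :=
    mul_mem (simple_mem_par M hu) (simple_mem_par M hv)
  have key : ∀ j k : ℕ, j < k → (M.simple u * M.simple v) ^ j ≠ (M.simple u * M.simple v) ^ k := by
    intro j k hjk he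
    refine alt_infinite M u v huv h0 (k - j) (Nat.sub_pos_of_lt hjk) ?_
    have e : k = j + (k - j) := by omega
    rw [e, pow_add] at he
    exact (mul_eq_left.mp he.symm)
  have hinj : Function.Injective
      (fun k : ℕ => (⟨(M.simple u * M.simple v) ^ k, pow_mem hr k⟩ : par M σ)) := by
    intro j k hjk
    have he : (M.simple u * M.simple v) ^ j = (M.simple u * M.simple v) ^ k :=
      congrArg Subtype.val hjk
    rcases lt_trichotomy j k with h1 | h1 | h1
    · exact absurd he (key j k h1)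
    · exact h1
    · exact absurd he.symm (key k j h1)
  exact not_injective_infinite_finite _ hinj

theorem sph_iff (M : CoxeterMatrix V) (hM : IsDih M) (σ : Finset V) :
    Sph M σ ↔ Cl (gr M) σ := by
  exact ⟨sph_cl M σ, par_finite M hM σ⟩

end Pool.Agent.H4.FC

end

section

/-!
# Project VK: interlacing sets and their cochain identity
-/

set_option autoImplicit false

open Finset

namespace Pool.Agent.H85.VK

section Alt

variable {V : Type} [DecidableEq V]

/-- the elements of `P` alternate with respect to `χ`, the first one has value `b` -/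
def AltP (ν : V → ℕ) (χ : V → Bool) (b : Bool) (P : Finset V) : Prop :=
  (∀ x ∈ P, ∀ y ∈ P, ν x < ν y → (∀ z ∈ P, ¬ (ν x < ν z ∧ ν z < ν y)) → χ y = !(χ x)) ∧
    ∀ x ∈ P, (∀ z ∈ P, ν x ≤ ν z) → χ x = b

omit [DecidableEq V] in
theorem altP_empty (ν : V → ℕ) (χ : V → Bool) (b : Bool) : AltP ν χ b ∅ :=
  ⟨fun x hx => absurd hx (notMem_empty x), fun x hx => absurd hx (notMem_empty x)⟩

theorem altP_insert {ν : V → ℕ} (χ : V → Bool) (b : Bool) (a : V) (P : Finset V)
    (ha : ∀ x ∈ P, ν a < ν x) : AltP ν χ b (insert a P) ↔ χ a = b ∧ AltP ν χ (!b) P := by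
  constructor
  · rintro ⟨h1, h2⟩
    have hab : χ a = b := by
      refine h2 a (mem_insert_self a P) fun z hz => ?_
      rcases mem_insert.1 hz with rfl | hz
      · exact le_rfl
      · exact (ha z hz).le
    refine ⟨hab, fun x hx y hy hxy hc => ?_, fun x hx hm => ?_⟩
    · refine h1 x (mem_insert_of_mem hx) y (mem_insert_of_mem hy) hxy fun z hz hz' => ?_
      rcases mem_insert.1 hz with rfl | hz
      · have := ha x hx
        omega
      · exact hc z hz hz'
    · rw [← hab]
      refine h1 a (mem_insert_self a P) x (mem_insert_of_mem hx) (ha x hx) fun z hz hz' => ?_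
      rcases mem_insert.1 hz with rfl | hz
      · omega
      · have := hm z hz
        omega
  · rintro ⟨hab, h1, h2⟩
    refine ⟨fun x hx y hy hxy hc => ?_, fun x hx hm => ?_⟩
    · have hyP : y ∈ P := by
        rcases mem_insert.1 hy with h | h
        · exfalso
          rcases mem_insert.1 hx with h' | h'
          · rw [h, h'] at hxy
            omega
          · have := ha x h'
            rw [h] at hxy
            omega
        · exact h
      rcases mem_insert.1 hx with h | h
      · rw [h, hab]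
        refine h2 y hyP fun z hz => ?_
        by_contra hlt
        refine hc z (mem_insert_of_mem hz) ⟨?_, by omega⟩
        rw [h]
        exact ha z hz
      · exact h1 x h y hyP hxy fun z hz => hc z (mem_insert_of_mem hz)
    · rcases mem_insert.1 hx with h | h
      · rw [h]
        exact hab
      · exfalso
        have h3 := hm a (mem_insert_self a P)
        have h4 := ha x h
        omega

open Classical in
/-- the indicator of `AltP` modulo two -/
noncomputable def altF (ν : V → ℕ) (χ : V → Bool) (b : Bool) (P : Finset V) : ZMod 2 :=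
  if AltP ν χ b P then 1 else 0

theorem altF_insert {ν : V → ℕ} (χ : V → Bool) (b : Bool) (a : V) (P : Finset V)
    (ha : ∀ x ∈ P, ν a < ν x) :
    altF ν χ b (insert a P) = if χ a = b then altF ν χ (!b) P else 0 := by
  classical
  unfold altF
  by_cases h : χ a = b
  · rw [if_pos h]
    by_cases h2 : AltP ν χ (!b) P
    · rw [if_pos h2, if_pos ((altP_insert χ b a P ha).2 ⟨h, h2⟩)]
    · rw [if_neg h2, if_neg fun h3 => h2 ((altP_insert χ b a P ha).1 h3).2]
  · rw [if_neg h, if_neg]
    rw [altP_insert χ b a P ha]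
    exact fun h1 => h h1.1

/-- **The cochain identity.** -/
theorem altF_sum_erase {ν : V → ℕ} (hν : Function.Injective ν) (χ : V → Bool) (P : Finset V) :
    ∀ b, ∑ v ∈ P, altF ν χ b (P.erase v) = altF ν χ b P + altF ν χ (!b) P := by
  induction P using Finset.induction_on_min_value ν with
  | empty =>
    intro b
    have h1 : ∀ b, altF ν χ b ∅ = 1 := fun b => if_pos (altP_empty ν χ b)
    rw [sum_empty, h1, h1]
    decide
  | insert a P haP hmin ih =>
    intro b
    have ha : ∀ x ∈ P, ν a < ν x := by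
      intro x hx
      refine lt_of_le_of_ne (hmin x hx) fun h => ?_
      rw [hν h] at haP
      exact haP hx
    rw [sum_insert haP, erase_insert haP, altF_insert χ b a P ha, altF_insert χ (!b) a P ha]
    have h1 : ∑ v ∈ P, altF ν χ b ((insert a P).erase v) =
        ∑ v ∈ P, if χ a = b then altF ν χ (!b) (P.erase v) else 0 := by
      refine sum_congr rfl fun v hv => ?_
      have hne : a ≠ v := fun h => haP (h ▸ hv)
      rw [erase_insert_of_ne hne, altF_insert χ b a (P.erase v) fun x hx => ha x (mem_of_mem_erase hx)]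
    rw [h1]
    have h2 : ∀ x : ZMod 2, x + x = 0 := by decide
    by_cases h : χ a = b
    · have h' : χ a ≠ !b := by
        rw [h]
        cases b <;> decide
      simp only [if_pos h, if_neg h', add_zero]
      rw [ih (!b), Bool.not_not, add_comm (altF ν χ (!b) P), ← add_assoc, h2, zero_add]
    · have h' : χ a = !b := by
        revert h
        cases χ a <;> cases b <;> decide
      simp only [if_neg h, if_pos h', sum_const_zero, Bool.not_not, add_zero, zero_add]

end Alt

end Pool.Agent.H85.VK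

end

section

/-!
# Project VK: cochains on pairs of disjoint sets
-/

set_option autoImplicit false

open Finset

namespace Pool.Agent.H85.VK

variable {V : Type} [DecidableEq V]

theorem zmod2_add_self (x : ZMod 2) : x + x = 0 := by
  revert x
  decide

theorem zmod2_eq_of_add {x y : ZMod 2} (h : x + y = 0) : x = y := by
  revert x y
  decide

omit [DecidableEq V] in
theorem altP_congr {ν : V → ℕ} {χ χ' : V → Bool} {b : Bool} {P : Finset V}
    (h : ∀ x ∈ P, χ x = χ' x) (hP : AltP ν χ b P) : AltP ν χ' b P := by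
  refine ⟨fun x hx y hy hxy hc => ?_, fun x hx hm => ?_⟩
  · rw [← h x hx, ← h y hy]
    exact hP.1 x hx y hy hxy hc
  · rw [← h x hx]
    exact hP.2 x hx hm

omit [DecidableEq V] in
theorem altF_congr {ν : V → ℕ} {χ χ' : V → Bool} {b : Bool} {P : Finset V}
    (h : ∀ x ∈ P, χ x = χ' x) : altF ν χ b P = altF ν χ' b P := by
  unfold altF
  by_cases hP : AltP ν χ b P
  · rw [if_pos hP, if_pos (altP_congr h hP)]
  · rw [if_neg hP, if_neg fun h' => hP (altP_congr (fun x hx => (h x hx).symm) h')]

omit [DecidableEq V] in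
private theorem altP_not {ν : V → ℕ} {χ : V → Bool} {b : Bool} {P : Finset V}
    (hP : AltP ν χ b P) : AltP ν (fun x => !(χ x)) (!b) P := by
  refine ⟨fun x hx y hy hxy hc => ?_, fun x hx hm => ?_⟩
  · show (!(χ y)) = !(!(χ x))
    rw [hP.1 x hx y hy hxy hc]
  · show (!(χ x)) = !b
    rw [hP.2 x hx hm]

omit [DecidableEq V] in
theorem altF_not (ν : V → ℕ) (χ : V → Bool) (b : Bool) (P : Finset V) :
    altF ν (fun x => !(χ x)) (!b) P = altF ν χ b P := by
  unfold altF
  by_cases hP : AltP ν χ b P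
  · rw [if_pos hP, if_pos (altP_not hP)]
  · rw [if_neg hP, if_neg]
    intro h'
    apply hP
    have h1 := altP_not h'
    simp only [Bool.not_not] at h1
    exact h1

/-- the coboundary of a function on pairs -/
def dP (f : Finset V → Finset V → ZMod 2) : Finset V → Finset V → ZMod 2 :=
  fun σ ρ => ∑ v ∈ σ, f (σ.erase v) ρ + ∑ v ∈ ρ, f σ (ρ.erase v)

theorem dP_add (f g : Finset V → Finset V → ZMod 2) (σ ρ : Finset V) :
    dP (fun a b => f a b + g a b) σ ρ = dP f σ ρ + dP g σ ρ := by
  simp only [dP, sum_add_distrib]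
  ring

theorem dP_sw (f : Finset V → Finset V → ZMod 2) (σ ρ : Finset V) :
    dP (fun a b => f b a) σ ρ = dP f ρ σ := by
  simp only [dP]
  rw [add_comm]

/-- double removal -/
theorem sum_erase_erase (s : Finset V) (f : Finset V → ZMod 2) :
    ∑ v ∈ s, ∑ u ∈ s.erase v, f ((s.erase v).erase u) = 0 := by
  rw [sum_sigma']
  refine sum_involution (fun p _ => ⟨p.2, p.1⟩) ?_ ?_ ?_ ?_
  · rintro ⟨v, u⟩ _
    simp only
    rw [erase_right_comm]
    exact zmod2_add_self _
  · rintro ⟨v, u⟩ h _ heq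
    simp only [mem_sigma, mem_erase] at h
    simp only [Sigma.mk.injEq] at heq
    exact h.2.1 heq.1
  · rintro ⟨v, u⟩ h
    simp only [mem_sigma, mem_erase] at h ⊢
    exact ⟨h.2.2, h.2.1.symm, h.1⟩
  · rintro ⟨v, u⟩ _
    rfl

theorem dP_dP (f : Finset V → Finset V → ZMod 2) (σ ρ : Finset V) : dP (dP f) σ ρ = 0 := by
  simp only [dP, sum_add_distrib]
  rw [sum_erase_erase σ fun a => f a ρ, sum_erase_erase ρ fun a => f σ a]
  rw [sum_comm, zero_add, add_zero]
  exact zmod2_add_self _

/-- the function on pairs: `1` if the pair alternates and the first element is in the first set -/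
noncomputable def eP (ν : V → ℕ) (σ ρ : Finset V) : ZMod 2 :=
  altF ν (fun v => decide (v ∈ σ)) true (σ ∪ ρ)

private theorem eP_swap (ν : V → ℕ) {σ ρ : Finset V} (h : Disjoint σ ρ) :
    eP ν ρ σ = altF ν (fun v => decide (v ∈ σ)) false (σ ∪ ρ) := by
  unfold eP
  rw [← altF_not ν _ false, union_comm ρ σ]
  refine altF_congr fun x hx => ?_
  rcases mem_union.1 hx with h1 | h1
  · have h2 : x ∉ ρ := disjoint_left.1 h h1
    simp [h1, h2]
  · have h2 : x ∉ σ := fun h2 => disjoint_left.1 h h2 h1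
    simp [h1, h2]

theorem dP_eP {ν : V → ℕ} (hν : Function.Injective ν) {σ ρ : Finset V} (h : Disjoint σ ρ) :
    dP (eP ν) σ ρ = eP ν σ ρ + eP ν ρ σ := by
  rw [eP_swap ν h]
  unfold eP
  have h1 := altF_sum_erase hν (fun v => decide (v ∈ σ)) (σ ∪ ρ) true
  rw [Bool.not_true, sum_union h] at h1
  rw [← h1]
  unfold dP
  congr 1
  · refine sum_congr rfl fun v hv => ?_
    have hvρ : v ∉ ρ := disjoint_left.1 h hv
    have h2 : (σ ∪ ρ).erase v = σ.erase v ∪ ρ := by
      rw [erase_union_distrib, erase_eq_of_notMem hvρ]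
    rw [h2]
    refine altF_congr fun x hx => ?_
    have hxv : x ≠ v := by
      rintro rfl
      rcases mem_union.1 hx with h3 | h3
      · exact absurd h3 (notMem_erase x σ)
      · exact hvρ h3
    simp [hxv]
  · refine sum_congr rfl fun v hv => ?_
    have hvσ : v ∉ σ := fun h2 => disjoint_left.1 h h2 hv
    rw [erase_union_distrib, erase_eq_of_notMem hvσ]

open Classical in
/-- the symmetric function on pairs is the indicator of interlacing -/
theorem eP_add_swap {ν : V → ℕ} (hν : Function.Injective ν) {σ ρ : Finset V} (h : Disjoint σ ρ)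
    (hne : (σ ∪ ρ).Nonempty) :
    eP ν σ ρ + eP ν ρ σ = if Interlace ν σ ρ then 1 else 0 := by
  rw [eP_swap ν h]
  unfold eP
  obtain ⟨m, hm, hmin⟩ := exists_min_image (σ ∪ ρ) ν hne
  have key : ∀ x ∈ σ ∪ ρ, ∀ y ∈ σ ∪ ρ,
      (decide (y ∈ σ) = !(decide (x ∈ σ)) ↔ (x ∈ σ ↔ y ∈ ρ)) := by
    intro x hx y hy
    have h1 : y ∈ ρ ↔ y ∉ σ := by
      rcases mem_union.1 hy with h2 | h2
      · exact ⟨fun h3 => absurd h3 (disjoint_left.1 h h2), fun h3 => absurd h2 h3⟩
      · exact ⟨fun _ h3 => disjoint_left.1 h h3 h2, fun _ => h2⟩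
    rw [h1]
    by_cases hx' : x ∈ σ <;> by_cases hy' : y ∈ σ <;> simp [hx', hy']
  have hI : Interlace ν σ ρ ↔ ∀ x ∈ σ ∪ ρ, ∀ y ∈ σ ∪ ρ, ν x < ν y →
      (∀ z ∈ σ ∪ ρ, ¬ (ν x < ν z ∧ ν z < ν y)) → decide (y ∈ σ) = !(decide (x ∈ σ)) := by
    constructor
    · intro hI x hx y hy hxy hc
      exact (key x hx y hy).2 (hI x hx y hy hxy hc)
    · intro hI x hx y hy hxy hc
      exact (key x hx y hy).1 (hI x hx y hy hxy hc)
  unfold altF
  by_cases h1 : Interlace ν σ ρ
  · rw [if_pos h1]
    have h2 := hI.1 h1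
    have hmx : ∀ x ∈ σ ∪ ρ, (∀ z ∈ σ ∪ ρ, ν x ≤ ν z) → x = m := fun x hx hx' =>
      hν (le_antisymm (hx' m hm) (hmin x hx))
    by_cases h3 : m ∈ σ
    · rw [if_pos, if_neg, add_zero]
      · rintro ⟨_, h4⟩
        have h5 := h4 m hm hmin
        simp [h3] at h5
      · refine ⟨h2, fun x hx hx' => ?_⟩
        rw [hmx x hx hx']
        simpa using h3
    · rw [if_neg, if_pos, zero_add]
      · refine ⟨h2, fun x hx hx' => ?_⟩
        rw [hmx x hx hx']
        simpa using h3
      · rintro ⟨_, h4⟩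
        have h5 := h4 m hm hmin
        simp [h3] at h5
  · rw [if_neg h1, if_neg, if_neg, add_zero]
    · rintro ⟨h2, _⟩
      exact h1 (hI.2 h2)
    · rintro ⟨h2, _⟩
      exact h1 (hI.2 h2)

end Pool.Agent.H85.VK

end
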