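import Pool.Agent.H71.TSG.M04
import Pool.Agent.H71.TSG.M07

/-! The parts of this file: H73.GC.Glue2, H73.GC.LinA, H73.GC.LinB, H73.GC.SysA, H19.SR.Defs. -/

section

/-!
# Growth calculus: gluing, the chains of one piece
-/

set_option autoImplicit false
set_option linter.unusedSectionVars false

open Finset

namespace Pool.Agent.H73.GC

variable {V : Type} [DecidableEq V] [Fintype V]
variable {Y : Type} [AddCommGroup Y] [Module F2 Y]

/-- the part of a chain in the link of `c` -/
def glk (c : V) : Module.End F2 (Finset V → Y) where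
  toFun f s := if c ∈ s then 0 else f (insert c s)
  map_add' f g := by
    funext s
    by_cases h : c ∈ s
    · simp only [if_pos h, Pi.add_apply, add_zero]
    · simp only [if_neg h, Pi.add_apply]
  map_smul' a f := by
    funext s
    by_cases h : c ∈ s
    · simp only [if_pos h, Pi.smul_apply, smul_zero]
    · simp only [if_neg h, Pi.smul_apply, RingHom.id_apply]

/-- the part of a chain outside of the star of `c` -/
def gdl (c : V) : Module.End F2 (Finset V → Y) where
  toFun f s := if c ∈ s then 0 else f s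
  map_add' f g := by
    funext s
    by_cases h : c ∈ s
    · simp only [if_pos h, Pi.add_apply, add_zero]
    · simp only [if_neg h, Pi.add_apply]
  map_smul' a f := by
    funext s
    by_cases h : c ∈ s
    · simp only [if_pos h, Pi.smul_apply, smul_zero]
    · simp only [if_neg h, Pi.smul_apply, RingHom.id_apply]

theorem glk_mem {c : V} {s : Finset V} (h : c ∈ s) (f : Finset V → Y) : glk c f s = 0 := if_pos h

theorem glk_not {c : V} {s : Finset V} (h : c ∉ s) (f : Finset V → Y) :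
    glk c f s = f (insert c s) := if_neg h

theorem gdl_mem {c : V} {s : Finset V} (h : c ∈ s) (f : Finset V → Y) : gdl c f s = 0 := if_pos h

theorem gdl_not {c : V} {s : Finset V} (h : c ∉ s) (f : Finset V → Y) :
    gdl c f s = f s := if_neg h

theorem gdl_dd (c : V) (f : Finset V → Y) : gdl c (dd f) = dd (gdl c f) + glk c f := by
  funext s
  rw [Pi.add_apply, dd_apply]
  by_cases h : c ∈ s
  · rw [gdl_mem h, glk_mem h, add_zero]
    symm
    exact sum_eq_zero fun v _ => gdl_mem (mem_insert_of_mem h) f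
  · rw [gdl_not h, glk_not h, dd_apply, ← add_sum_erase _ _ (mem_compl.2 h),
      ← add_sum_erase _ (fun v => gdl c f (insert v s)) (mem_compl.2 h),
      gdl_mem (mem_insert_self c s), zero_add, add_comm]
    congr 1
    refine sum_congr rfl fun v hv => ?_
    rw [gdl_not]
    rw [mem_insert, not_or]
    exact ⟨fun e => (mem_erase.1 hv).1 e.symm, h⟩

theorem glk_dd (c : V) (f : Finset V → Y) : glk c (dd f) = dd (glk c f) := by
  funext s
  rw [dd_apply]
  by_cases h : c ∈ s
  · rw [glk_mem h]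
    symm
    exact sum_eq_zero fun v _ => glk_mem (mem_insert_of_mem h) f
  · rw [glk_not h, dd_apply, ← add_sum_erase _ (fun v => glk c f (insert v s)) (mem_compl.2 h),
      glk_mem (mem_insert_self c s), zero_add, compl_insert]
    refine sum_congr rfl fun v hv => ?_
    rw [glk_not, insert_comm]
    rw [mem_insert, not_or]
    exact ⟨fun e => (mem_erase.1 hv).1 e.symm, h⟩

theorem gext (c : V) {f : Finset V → Y} (h1 : gdl c f = 0) (h2 : glk c f = 0) : f = 0 := by
  funext s
  by_cases h : c ∈ s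
  · have h3 := congrFun h2 (s.erase c)
    rw [glk_not (notMem_erase c s), insert_erase h] at h3
    exact h3
  · have h3 := congrFun h1 s
    rw [gdl_not h] at h3
    exact h3

/-- the piece `A` with the cone vertex `c` over `F` -/
structure GHalf (G₁ G : SimpleGraph V) (A F : Finset V) (c : V) : Prop where
  hc : c ∉ A
  hF : F ⊆ A
  adj : ∀ a ∈ A, ∀ b ∈ A, G₁.Adj a b ↔ G.Adj a b
  cadj : ∀ a ∈ A, G₁.Adj c a ↔ a ∈ F

variable {G₁ G : SimpleGraph V} {A F : Finset V} {c : V}

theorem GHalf.cq (h : GHalf G₁ G A F c) {s : Finset V} (hs : c ∉ s) :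
    Cq G₁ (insert c A) s ↔ Cq G A s := by
  constructor
  · rintro ⟨h2, h3⟩
    have h4 : s ⊆ A := (subset_insert_iff_of_notMem hs).1 h3
    exact ⟨fun a ha b hb hab => (h.adj a (h4 ha) b (h4 hb)).1 (h2 ha hb hab), h4⟩
  · rintro ⟨h2, h4⟩
    exact ⟨fun a ha b hb hab => (h.adj a (h4 ha) b (h4 hb)).2 (h2 ha hb hab),
      h4.trans (subset_insert c A)⟩

theorem GHalf.cq_insert (h : GHalf G₁ G A F c) {s : Finset V} (hs : c ∉ s) :
    Cq G₁ (insert c A) (insert c s) ↔ Cq G F s := by
  constructor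
  · rintro ⟨h2, h3⟩
    have h4 : s ⊆ A := by
      intro v hv
      rcases mem_insert.1 (h3 (mem_insert_of_mem hv)) with h5 | h5
      · exact absurd (h5 ▸ hv) hs
      · exact h5
    refine ⟨fun a ha b hb hab => (h.adj a (h4 ha) b (h4 hb)).1 (h2 ?_ ?_ hab), fun v hv => ?_⟩
    · exact mem_coe.2 (mem_insert_of_mem ha)
    · exact mem_coe.2 (mem_insert_of_mem hb)
    · have h5 : c ≠ v := fun hcv => hs (hcv ▸ hv)
      exact (h.cadj v (h4 hv)).1 (h2 (mem_coe.2 (mem_insert_self c s))
        (mem_coe.2 (mem_insert_of_mem hv)) h5)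
  · rintro ⟨h2, h3⟩
    have h4 := h3.trans h.hF
    refine ⟨?_, insert_subset_insert c h4⟩
    intro a ha b hb hab
    rw [mem_coe, mem_insert] at ha hb
    rcases ha with rfl | ha
    · rcases hb with rfl | hb
      · exact absurd rfl hab
      · exact (h.cadj b (h4 hb)).2 (h3 hb)
    · rcases hb with rfl | hb
      · exact ((h.cadj a (h4 ha)).2 (h3 ha)).symm
      · exact (h.adj a (h4 ha) b (h4 hb)).2 (h2 ha hb hab)

theorem GHalf.sy_not (h : GHalf G₁ G A F c) (r : V → Module.End F2 Y) (ρ : Module.End F2 Y)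
    {s : Finset V} (hs : c ∉ s) (y : Y) :
    y ∈ Sy (Cq G₁ (insert c A)) (Function.update r c ρ) s ↔ y ∈ Sy (Cq G A) r s := by
  have h1 : ∀ v ∈ s, Function.update r c ρ v = r v :=
    fun v hv => Function.update_of_ne (fun e : v = c => hs (e ▸ hv)) ρ r
  rw [mem_Sy, mem_Sy, h.cq hs]
  refine and_congr_right fun _ => forall₂_congr fun v hv => ?_
  rw [h1 v hv]

theorem GHalf.sy_insert (h : GHalf G₁ G A F c) (r : V → Module.End F2 Y) (ρ : Module.End F2 Y)
    {s : Finset V} (hs : c ∉ s) (y : Y) :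
    y ∈ Sy (Cq G₁ (insert c A)) (Function.update r c ρ) (insert c s) ↔
      y ∈ Sy (Cq G F) r s ∧ ρ y = y := by
  have h1 : ∀ v ∈ s, Function.update r c ρ v = r v :=
    fun v hv => Function.update_of_ne (fun e : v = c => hs (e ▸ hv)) ρ r
  rw [mem_Sy, mem_Sy, h.cq_insert hs, forall_mem_insert, Function.update_self]
  constructor
  · rintro ⟨h2, h3, h4⟩
    exact ⟨⟨h2, fun v hv => by rw [← h1 v hv]; exact h4 v hv⟩, h3⟩
  · rintro ⟨⟨h2, h4⟩, h3⟩
    exact ⟨h2, h3, fun v hv => by rw [h1 v hv]; exact h4 v hv⟩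

theorem GHalf.lk_mem (h : GHalf G₁ G A F c) {r : V → Module.End F2 Y} {ρ : Module.End F2 Y}
    {j : ℕ} {f : Finset V → Y}
    (hf : f ∈ Ch (Sy (Cq G₁ (insert c A)) (Function.update r c ρ)) j) (s : Finset V) :
    glk c f s ∈ Sy (Cq G F) r s ∧ ρ (glk c f s) = glk c f s ∧
      (s.card + 1 ≠ j → glk c f s = 0) := by
  by_cases hs : c ∈ s
  · rw [glk_mem hs]
    exact ⟨Submodule.zero_mem _, map_zero _, fun _ => rfl⟩
  · rw [glk_not hs]
    have h1 := (h.sy_insert r ρ hs _).1 (hf (insert c s)).1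
    refine ⟨h1.1, h1.2, fun hn => (hf (insert c s)).2 ?_⟩
    rw [card_insert_of_notMem hs]
    exact hn

theorem GHalf.dl_mem (h : GHalf G₁ G A F c) {r : V → Module.End F2 Y} {ρ : Module.End F2 Y}
    {j : ℕ} {f : Finset V → Y}
    (hf : f ∈ Ch (Sy (Cq G₁ (insert c A)) (Function.update r c ρ)) j) :
    gdl c f ∈ Ch (Sy (Cq G A) r) j := by
  intro s
  by_cases hs : c ∈ s
  · rw [gdl_mem hs]
    exact ⟨Submodule.zero_mem _, fun _ => rfl⟩
  · rw [gdl_not hs]
    exact ⟨(h.sy_not r ρ hs _).1 (hf s).1, (hf s).2⟩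

theorem GHalf.mem_of (h : GHalf G₁ G A F c) {r : V → Module.End F2 Y} {ρ : Module.End F2 Y}
    {j : ℕ} {f : Finset V → Y} (hf : f ∈ Ch (Sy (Cq G F) r) j) :
    f ∈ Ch (Sy (Cq G₁ (insert c A)) (Function.update r c ρ)) j := by
  intro s
  refine ⟨?_, (hf s).2⟩
  by_cases hs : c ∈ s
  · rw [(hf s).1.1 fun hn => h.hc (h.hF (hn.2 hs))]
    exact Submodule.zero_mem _
  · refine (h.sy_not r ρ hs _).2 ⟨fun hn => (hf s).1.1 fun hn' => hn ⟨hn'.1, hn'.2.trans h.hF⟩,
      (hf s).1.2⟩

/-- the chain with the parts `x` and `a` -/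
def gmk (c : V) (x a : Finset V → Y) (s : Finset V) : Y := if c ∈ s then a (s.erase c) else x s

theorem GHalf.mk_mem (h : GHalf G₁ G A F c) {r : V → Module.End F2 Y} {ρ : Module.End F2 Y}
    {j : ℕ} {x a : Finset V → Y} (hx : x ∈ Ch (Sy (Cq G A) r) j)
    (ha : ∀ s, a s ∈ Sy (Cq G F) r s ∧ ρ (a s) = a s ∧ (s.card + 1 ≠ j → a s = 0)) :
    gmk c x a ∈ Ch (Sy (Cq G₁ (insert c A)) (Function.update r c ρ)) j := by
  intro s
  by_cases hs : c ∈ s
  · have h1 : gmk c x a s = a (s.erase c) := if_pos hs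
    obtain ⟨h2, h3, h4⟩ := ha (s.erase c)
    rw [h1]
    refine ⟨?_, fun hn => h4 ?_⟩
    · have h5 := (h.sy_insert r ρ (notMem_erase c s) _).2 ⟨h2, h3⟩
      rw [insert_erase hs] at h5
      exact h5
    · rw [card_erase_add_one hs]
      exact hn
  · have h1 : gmk c x a s = x s := if_neg hs
    rw [h1]
    exact ⟨(h.sy_not r ρ hs _).2 (hx s).1, (hx s).2⟩

theorem gmk_dl {x a : Finset V → Y} (hx : ∀ s, c ∈ s → x s = 0) : gdl c (gmk c x a) = x := by
  funext s
  by_cases hs : c ∈ s
  · rw [gdl_mem hs, hx s hs]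
  · rw [gdl_not hs]
    exact if_neg hs

theorem gmk_lk {x a : Finset V → Y} (ha : ∀ s, c ∈ s → a s = 0) : glk c (gmk c x a) = a := by
  funext s
  by_cases hs : c ∈ s
  · rw [glk_mem hs, ha s hs]
  · rw [glk_not hs]
    have h1 : gmk c x a (insert c s) = a ((insert c s).erase c) := if_pos (mem_insert_self c s)
    rw [h1, erase_insert hs]

end Pool.Agent.H73.GC

end

section

/-!
# Growth calculus: linear algebra of `hx`, part A
-/

set_option autoImplicit false
set_option linter.unusedSectionVars false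

open Finset

namespace Pool.Agent.H73.GC

variable {E E' : Type} [AddCommGroup E] [Module F2 E] [Finite E] [AddCommGroup E'] [Module F2 E']
  [Finite E']

/-- an injective map preserves the dimension -/
theorem LinA_inj {F F' : Type} [AddCommGroup F] [Module F2 F] [AddCommGroup F'] [Module F2 F']
    (f : F →ₗ[F2] F') (hf : Function.Injective f) (A : Submodule F2 F) :
    Module.finrank F2 (A.map f) = Module.finrank F2 A :=
  (Submodule.equivMapOfInjective f hf A).finrank_eq.symm

/-- rank and nullity of `f` on the submodule `A` -/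
theorem LinA_rank (f : E →ₗ[F2] E') (A : Submodule F2 E) :
    Module.finrank F2 (A.map f) + Module.finrank F2 (A ⊓ LinearMap.ker f : Submodule F2 E) =
      Module.finrank F2 A := by
  have h := LinearMap.finrank_range_add_finrank_ker (f.comp A.subtype)
  have h1 : LinearMap.range (f.comp A.subtype) = A.map f := by
    rw [LinearMap.range_comp, Submodule.range_subtype]
  have h2 : Module.finrank F2 (LinearMap.ker (f.comp A.subtype)) =
      Module.finrank F2 (A ⊓ LinearMap.ker f : Submodule F2 E) := by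
    have h3 : (LinearMap.ker (f.comp A.subtype)).map A.subtype = A ⊓ LinearMap.ker f := by
      ext x
      simp only [Submodule.mem_map, LinearMap.mem_ker, LinearMap.comp_apply,
        Submodule.subtype_apply, Submodule.mem_inf]
      constructor
      · rintro ⟨y, hy, rfl⟩
        exact ⟨y.2, hy⟩
      · rintro ⟨hx, hk⟩
        exact ⟨⟨x, hx⟩, hk, rfl⟩
    rw [← h3]
    exact (LinA_inj _ (Submodule.injective_subtype A) _).symm
  rw [h1, h2] at h
  exact h

/-- `dim H_i = dim Z_i + dim Z_(i+1) - dim C_(i+1)` (rank and kernel of `d` on `C (i + 1)`). -/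
theorem hx_eq (d : Module.End F2 E) (C : ℕ → Submodule F2 E) (i : ℕ) :
    hx d C i = (Module.finrank F2 (C i ⊓ LinearMap.ker d : Submodule F2 E) : ℤ) +
      (Module.finrank F2 (C (i + 1) ⊓ LinearMap.ker d : Submodule F2 E) : ℤ) -
      (Module.finrank F2 (C (i + 1)) : ℤ) := by
  have h := LinA_rank d (C (i + 1))
  rw [hx]
  omega

/-- The boundaries are cycles. -/
theorem hx_nonneg {d : Module.End F2 E} {C : ℕ → Submodule F2 E} (hC : IsCx d C) (i : ℕ) :
    0 ≤ hx d C i := by
  have h : (C (i + 1)).map d ≤ C i ⊓ LinearMap.ker d := by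
    rintro _ ⟨x, hx, rfl⟩
    exact ⟨hC.map i x hx, hC.sq (i + 1) x hx⟩
  have h1 := Submodule.finrank_mono h
  rw [hx]
  omega

/-- Middle term of the exact sequence `0 → C ⊓ ker lam → C → lam C → 0`. Put `Z = C i ⊓ ker d`,
`B = d (C (i+1))`. `dim Z = dim (Z ⊓ ker lam) + dim lam Z` and `lam Z ≤ lam (C i) ⊓ ker d'`;
`dim B = dim (B ⊓ ker lam) + dim lam B`, `lam B = d' (lam C (i+1))` and
`d (C (i+1) ⊓ ker lam) ≤ B ⊓ ker lam`. -/
theorem hx_mid {d : Module.End F2 E} {d' : Module.End F2 E'} {C : ℕ → Submodule F2 E}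
    (hC : IsCx d C) (lam : E →ₗ[F2] E') (hl : ∀ i, ∀ x ∈ C i, lam (d x) = d' (lam x)) (i : ℕ) :
    hx d C i ≤ hx d (fun j => C j ⊓ LinearMap.ker lam) i + hx d' (fun j => (C j).map lam) i := by
  have h1 := LinA_rank lam (C i ⊓ LinearMap.ker d)
  have h2 := LinA_rank lam ((C (i + 1)).map d)
  have h3 : (C i ⊓ LinearMap.ker d) ⊓ LinearMap.ker lam =
      (C i ⊓ LinearMap.ker lam) ⊓ LinearMap.ker d := by
    rw [inf_right_comm]
  have h4 : (C i ⊓ LinearMap.ker d).map lam ≤ (C i).map lam ⊓ LinearMap.ker d' := by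
    rintro _ ⟨x, ⟨hx, hk⟩, rfl⟩
    refine ⟨⟨x, hx, rfl⟩, ?_⟩
    have hk' : d x = 0 := hk
    exact LinearMap.mem_ker.2 (by rw [← hl i x hx, hk', map_zero])
  have h5 : ((C (i + 1)).map d).map lam = ((C (i + 1)).map lam).map d' := by
    ext y
    constructor
    · rintro ⟨_, ⟨x, hx, rfl⟩, rfl⟩
      exact ⟨lam x, ⟨x, hx, rfl⟩, (hl (i + 1) x hx).symm⟩
    · rintro ⟨_, ⟨x, hx, rfl⟩, rfl⟩
      exact ⟨d x, ⟨x, hx, rfl⟩, hl (i + 1) x hx⟩
  have h6 : (C (i + 1) ⊓ LinearMap.ker lam).map d ≤ (C (i + 1)).map d ⊓ LinearMap.ker lam := by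
    rintro _ ⟨x, ⟨hx, hk⟩, rfl⟩
    refine ⟨⟨x, hx, rfl⟩, ?_⟩
    have hk' : lam x = 0 := hk
    exact LinearMap.mem_ker.2 (by rw [hl (i + 1) x hx, hk', map_zero])
  have h7 := Submodule.finrank_mono h4
  have h8 := Submodule.finrank_mono h6
  rw [h3] at h1
  rw [h5] at h2
  rw [hx, hx, hx]
  omega

/-- The image of an injective map of complexes. -/
theorem hx_map {d : Module.End F2 E} {d' : Module.End F2 E'} {C : ℕ → Submodule F2 E}
    (j : E →ₗ[F2] E') (hj : Function.Injective j) (hd : ∀ i, ∀ x ∈ C i, j (d x) = d' (j x))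
    (i : ℕ) : hx d' (fun k => (C k).map j) i = hx d C i := by
  have h1 : (C i).map j ⊓ LinearMap.ker d' = (C i ⊓ LinearMap.ker d).map j := by
    ext y
    constructor
    · rintro ⟨⟨x, hx, rfl⟩, hk⟩
      refine ⟨x, ⟨hx, ?_⟩, rfl⟩
      have hk' : d' (j x) = 0 := hk
      exact LinearMap.mem_ker.2 (hj (by rw [hd i x hx, hk', map_zero]))
    · rintro ⟨x, ⟨hx, hk⟩, rfl⟩
      refine ⟨⟨x, hx, rfl⟩, ?_⟩
      have hk' : d x = 0 := hk
      exact LinearMap.mem_ker.2 (by rw [← hd i x hx, hk', map_zero])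
  have h2 : ((C (i + 1)).map j).map d' = ((C (i + 1)).map d).map j := by
    ext y
    constructor
    · rintro ⟨_, ⟨x, hx, rfl⟩, rfl⟩
      exact ⟨d x, ⟨x, hx, rfl⟩, hd (i + 1) x hx⟩
    · rintro ⟨_, ⟨x, hx, rfl⟩, rfl⟩
      exact ⟨j x, ⟨x, hx, rfl⟩, (hd (i + 1) x hx).symm⟩
  have h3 := LinA_inj j hj (C i ⊓ LinearMap.ker d)
  have h4 := LinA_inj j hj ((C (i + 1)).map d)
  rw [hx, hx]
  rw [h1, h2, h3, h4]

end Pool.Agent.H73.GC

end

section

/-!
# Growth calculus: linear algebra of `hx`, part B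
-/

set_option autoImplicit false
set_option linter.unusedSectionVars false

open Finset

namespace Pool.Agent.H73.GC

variable {E E' : Type} [AddCommGroup E] [Module F2 E] [Finite E] [AddCommGroup E'] [Module F2 E']
  [Finite E']

/-- rank and nullity on a subspace -/
theorem LinB_rn {M M' : Type} [AddCommGroup M] [Module F2 M] [Finite M] [AddCommGroup M']
    [Module F2 M'] (W : Submodule F2 M) (g : M →ₗ[F2] M') :
    Module.finrank F2 W = Module.finrank F2 (W.map g) +
      Module.finrank F2 (W ⊓ LinearMap.ker g : Submodule F2 M) := by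
  have h1 := LinearMap.finrank_range_add_finrank_ker (g.domRestrict W)
  rw [← h1, LinearMap.range_domRestrict]
  congr 1
  have h2 : LinearMap.ker (g.domRestrict W) = (W ⊓ LinearMap.ker g).comap W.subtype := by
    ext x
    simp only [LinearMap.mem_ker, LinearMap.domRestrict_apply, Submodule.mem_comap,
      Submodule.mem_inf, Submodule.subtype_apply, SetLike.coe_mem, true_and]
  rw [h2]
  exact (Submodule.comapSubtypeEquivOfLe inf_le_left).finrank_eq

theorem LinB_mono {M : Type} [AddCommGroup M] [Module F2 M] [Finite M] {A B : Submodule F2 M}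
    (h : A ≤ B) : Module.finrank F2 A ≤ Module.finrank F2 B :=
  Submodule.finrank_mono h

/-- the dimensions of the images of the chains `x` with `lam (d x) = 0` -/
theorem LinB_key {d : Module.End F2 E} {d' : Module.End F2 E'} {C : ℕ → Submodule F2 E}
    (lam : E →ₗ[F2] E') (hl : ∀ i, ∀ x ∈ C i, lam (d x) = d' (lam x)) (i : ℕ) :
    Module.finrank F2 ((C i ⊓ LinearMap.ker (lam ∘ₗ d)).map d) +
        Module.finrank F2 ((C i ⊓ LinearMap.ker d).map lam) =
      Module.finrank F2 ((C i ⊓ LinearMap.ker lam).map d) +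
        Module.finrank F2 ((C i).map lam ⊓ LinearMap.ker d' : Submodule F2 E') := by
  have h1 := LinB_rn (C i ⊓ LinearMap.ker (lam ∘ₗ d)) d
  have h2 := LinB_rn (C i ⊓ LinearMap.ker (lam ∘ₗ d)) lam
  have h3 := LinB_rn (C i ⊓ LinearMap.ker d) lam
  have h4 := LinB_rn (C i ⊓ LinearMap.ker lam) d
  have e1 : (C i ⊓ LinearMap.ker (lam ∘ₗ d)) ⊓ LinearMap.ker d = C i ⊓ LinearMap.ker d := by
    ext x
    simp only [Submodule.mem_inf, LinearMap.mem_ker, LinearMap.comp_apply]
    constructor
    · rintro ⟨⟨hx, -⟩, h⟩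
      exact ⟨hx, h⟩
    · rintro ⟨hx, h⟩
      exact ⟨⟨hx, by rw [h, map_zero]⟩, h⟩
  have e2 : (C i ⊓ LinearMap.ker (lam ∘ₗ d)) ⊓ LinearMap.ker lam = C i ⊓ LinearMap.ker lam := by
    ext x
    simp only [Submodule.mem_inf, LinearMap.mem_ker, LinearMap.comp_apply]
    constructor
    · rintro ⟨⟨hx, -⟩, h⟩
      exact ⟨hx, h⟩
    · rintro ⟨hx, h⟩
      exact ⟨⟨hx, by rw [hl i x hx, h, map_zero]⟩, h⟩
  have e3 : (C i ⊓ LinearMap.ker d) ⊓ LinearMap.ker lam =
      (C i ⊓ LinearMap.ker lam) ⊓ LinearMap.ker d := by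
    rw [inf_assoc, inf_comm (LinearMap.ker d), ← inf_assoc]
  have e4 : (C i ⊓ LinearMap.ker (lam ∘ₗ d)).map lam = (C i).map lam ⊓ LinearMap.ker d' := by
    ext y
    simp only [Submodule.mem_map, Submodule.mem_inf, LinearMap.mem_ker, LinearMap.comp_apply]
    constructor
    · rintro ⟨x, ⟨hx, h⟩, rfl⟩
      exact ⟨⟨x, hx, rfl⟩, by rw [← hl i x hx, h]⟩
    · rintro ⟨⟨x, hx, rfl⟩, h⟩
      exact ⟨x, ⟨hx, by rw [hl i x hx, h]⟩, rfl⟩
  rw [e1] at h1
  rw [e2, e4] at h2
  rw [e3] at h3
  omega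

/-- Left term of the exact sequence: `H_(i+1) (lam C) → H_i (C ⊓ ker lam) → H_i (C)`.
Put `Z = C i ⊓ ker d`, `ZA = Z ⊓ ker lam`, `B = d (C (i+1))`, `BA = d (C (i+1) ⊓ ker lam)`,
`W = {x ∈ C (i+1) | lam (d x) = 0}`; `B ⊓ ker lam = d W`. Then `dim ZA - dim (B ⊓ ker lam) ≤ dim Z - dim B`
(as `ZA ⊓ B = B ⊓ ker lam`, `ZA + B ≤ Z`), and `dim (d W) - dim BA = dim lam W - dim lam Z_(i+1)` with
`lam W = lam C (i+1) ⊓ ker d'` and `lam Z_(i+1) ≥ lam (d C (i+2)) = d' (lam C (i+2))`. -/
theorem hx_sub {d : Module.End F2 E} {d' : Module.End F2 E'} {C : ℕ → Submodule F2 E}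
    (hC : IsCx d C) (lam : E →ₗ[F2] E') (hl : ∀ i, ∀ x ∈ C i, lam (d x) = d' (lam x)) (i : ℕ) :
    hx d (fun j => C j ⊓ LinearMap.ker lam) i ≤
      hx d C i + hx d' (fun j => (C j).map lam) (i + 1) := by
  have hk := LinB_key lam hl (i + 1)
  have h1 := Submodule.finrank_sup_add_finrank_inf_eq
    ((C i ⊓ LinearMap.ker lam) ⊓ LinearMap.ker d) ((C (i + 1)).map d)
  have h2 : Module.finrank F2 (((C i ⊓ LinearMap.ker lam) ⊓ LinearMap.ker d) ⊔ (C (i + 1)).map d :
      Submodule F2 E) ≤ Module.finrank F2 (C i ⊓ LinearMap.ker d : Submodule F2 E) := by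
    apply LinB_mono
    apply sup_le
    · rintro x ⟨⟨hx, -⟩, h⟩
      exact ⟨hx, h⟩
    · rintro y ⟨x, hx, rfl⟩
      exact ⟨hC.map i x hx, hC.sq (i + 1) x hx⟩
  have h3 : Module.finrank F2 (((C i ⊓ LinearMap.ker lam) ⊓ LinearMap.ker d) ⊓ (C (i + 1)).map d :
      Submodule F2 E) ≤
      Module.finrank F2 ((C (i + 1) ⊓ LinearMap.ker (lam ∘ₗ d)).map d) := by
    apply LinB_mono
    rintro y ⟨⟨⟨-, hy⟩, -⟩, ⟨x, hx, rfl⟩⟩
    exact ⟨x, ⟨hx, hy⟩, rfl⟩
  have h4 : Module.finrank F2 ((((C (i + 1 + 1)).map lam)).map d') ≤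
      Module.finrank F2 ((C (i + 1) ⊓ LinearMap.ker d).map lam) := by
    apply LinB_mono
    rintro z ⟨y, ⟨x, hx, rfl⟩, rfl⟩
    exact ⟨d x, ⟨hC.map (i + 1) x hx, hC.sq (i + 1 + 1) x hx⟩, hl (i + 1 + 1) x hx⟩
  simp only [hx]
  omega

/-- A projection `e` which commutes with `d` splits the complex. -/
theorem hx_split {d : Module.End F2 E} {C : ℕ → Submodule F2 E} (e : Module.End F2 E)
    (hCd : ∀ i, ∀ x ∈ C (i + 1), d x ∈ C i)
    (he : ∀ i, ∀ x ∈ C i, e (e x) = e x) (hCe : ∀ i, ∀ x ∈ C i, e x ∈ C i)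
    (hed : ∀ i, ∀ x ∈ C i, e (d x) = d (e x)) (i : ℕ) :
    hx d C i = hx d (fun j => C j ⊓ LinearMap.ker e) i + hx d (fun j => (C j).map e) i := by
  have h1 := LinB_rn (C i ⊓ LinearMap.ker d) e
  have h2 := LinB_rn ((C (i + 1)).map d) e
  have e1 : (C i ⊓ LinearMap.ker d).map e = (C i).map e ⊓ LinearMap.ker d := by
    ext y
    constructor
    · rintro ⟨x, ⟨hx, h⟩, rfl⟩
      refine ⟨⟨x, hx, rfl⟩, ?_⟩
      have h' : d x = 0 := h
      change d (e x) = 0
      rw [← hed i x hx, h', map_zero]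
    · rintro ⟨⟨x, hx, rfl⟩, h⟩
      exact ⟨e x, ⟨hCe i x hx, h⟩, he i x hx⟩
  have e2 : (C i ⊓ LinearMap.ker d) ⊓ LinearMap.ker e =
      (C i ⊓ LinearMap.ker e) ⊓ LinearMap.ker d := by
    rw [inf_assoc, inf_comm (LinearMap.ker d), ← inf_assoc]
  have e3 : ((C (i + 1)).map d).map e = ((C (i + 1)).map e).map d := by
    ext z
    constructor
    · rintro ⟨y, ⟨x, hx, rfl⟩, rfl⟩
      exact ⟨e x, ⟨x, hx, rfl⟩, (hed (i + 1) x hx).symm⟩
    · rintro ⟨y, ⟨x, hx, rfl⟩, rfl⟩
      exact ⟨d x, ⟨x, hx, rfl⟩, hed (i + 1) x hx⟩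
  have e4 : (C (i + 1)).map d ⊓ LinearMap.ker e = (C (i + 1) ⊓ LinearMap.ker e).map d := by
    ext y
    constructor
    · rintro ⟨⟨x, hx, rfl⟩, h⟩
      have h' : e (d x) = 0 := h
      refine ⟨x - e x, ⟨Submodule.sub_mem _ hx (hCe (i + 1) x hx), ?_⟩, ?_⟩
      · change e (x - e x) = 0
        rw [map_sub, he (i + 1) x hx, sub_self]
      · rw [map_sub, ← hed (i + 1) x hx, h', sub_zero]
    · rintro ⟨x, ⟨hx, h⟩, rfl⟩
      have h' : e x = 0 := h
      refine ⟨⟨x, hx, rfl⟩, ?_⟩
      change e (d x) = 0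
      rw [hed (i + 1) x hx, h', map_zero]
  rw [e1, e2] at h1
  rw [e3, e4] at h2
  simp only [hx]
  omega

end Pool.Agent.H73.GC

end

section

/-!
# Growth calculus: systems of coefficients
-/

set_option autoImplicit false
set_option linter.unusedSectionVars false

open Finset

namespace Pool.Agent.H73.GC

variable {V : Type} [DecidableEq V] [Fintype V]
variable {Y Y' : Type} [AddCommGroup Y] [Module F2 Y] [AddCommGroup Y'] [Module F2 Y']

/-- every pair of vertices outside of `s` occurs twice -/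
theorem dd_dd (f : Finset V → Y) : dd (dd f) = 0 := by
  funext s
  rw [dd_apply, Pi.zero_apply]
  simp only [dd_apply]
  rw [Finset.sum_sigma']
  refine Finset.sum_involution (fun x _ => ⟨x.2, x.1⟩) ?_ ?_ ?_ ?_
  · rintro ⟨a, b⟩ _
    dsimp only
    rw [Finset.insert_comm b a s]
    exact ZModModule.add_self _
  · rintro ⟨a, b⟩ h _ h2
    simp only [mem_sigma, mem_compl, mem_insert, not_or] at h
    simp only [Sigma.mk.injEq] at h2
    exact h.2.1 h2.1
  · rintro ⟨a, b⟩ h
    simp only [mem_sigma, mem_compl, mem_insert, not_or] at h ⊢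
    exact ⟨h.2.2, fun h3 => h.2.1 h3.symm, h.1⟩
  · rintro ⟨a, b⟩ _
    rfl

theorem isCx_Ch {A : Finset V → Submodule F2 Y} (hA : Mono A) : IsCx dd (Ch A) := by
  refine ⟨fun i x hx s => ⟨?_, fun hs => ?_⟩, fun i x _ => dd_dd x⟩
  · rw [dd_apply]
    exact Submodule.sum_mem _ fun v _ => hA s v (hx (insert v s)).1
  · rw [dd_apply]
    refine Finset.sum_eq_zero fun v hv => (hx (insert v s)).2 ?_
    rw [Finset.card_insert_of_notMem (Finset.mem_compl.1 hv)]
    omega

/-- a linear map of the coefficients commutes with the boundary -/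
theorem dd_compLeft (lam : Y →ₗ[F2] Y') (f : Finset V → Y) :
    lam.compLeft (Finset V) (dd f) = dd (lam.compLeft (Finset V) f) := by
  funext s
  change lam (dd f s) = ∑ v ∈ sᶜ, lam (f (insert v s))
  rw [dd_apply, map_sum]

theorem Ch_map (A : Finset V → Submodule F2 Y) (lam : Y →ₗ[F2] Y') (i : ℕ) :
    (Ch A i).map (lam.compLeft (Finset V)) = Ch (fun s => (A s).map lam) i := by
  ext g
  constructor
  · rintro ⟨f, hf, rfl⟩ s
    refine ⟨⟨f s, (hf s).1, rfl⟩, fun hs => ?_⟩
    change lam (f s) = 0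
    rw [(hf s).2 hs, map_zero]
  · intro hg
    have h : ∀ s, ∃ y ∈ A s, (s.card ≠ i → y = 0) ∧ lam y = g s := by
      intro s
      obtain ⟨y, hy, hyg⟩ := (hg s).1
      by_cases hs : s.card = i
      · exact ⟨y, hy, fun h => absurd hs h, hyg⟩
      · exact ⟨0, Submodule.zero_mem _, fun _ => rfl, by rw [map_zero, (hg s).2 hs]⟩
    choose f hf1 hf2 hf3 using h
    exact ⟨f, fun s => ⟨hf1 s, hf2 s⟩, funext hf3⟩

theorem Ch_ker (A : Finset V → Submodule F2 Y) (lam : Y →ₗ[F2] Y') (i : ℕ) :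
    Ch A i ⊓ LinearMap.ker (lam.compLeft (Finset V)) =
      Ch (fun s => A s ⊓ LinearMap.ker lam) i := by
  ext f
  constructor
  · rintro ⟨h1, h2⟩ s
    exact ⟨⟨(h1 s).1, LinearMap.mem_ker.2 (congrFun (LinearMap.mem_ker.1 h2) s)⟩, (h1 s).2⟩
  · intro h
    refine ⟨fun s => ⟨(h s).1.1, (h s).2⟩, LinearMap.mem_ker.2 (funext fun s => ?_)⟩
    exact LinearMap.mem_ker.1 (h s).1.2

variable [Finite Y] [Finite Y']

/-- `hx_nonneg` -/
theorem hd_nonneg {A : Finset V → Submodule F2 Y} (hA : Mono A) (i : ℕ) : 0 ≤ hd A i :=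
  hx_nonneg (isCx_Ch hA) i

private theorem SysA_ker (A : Finset V → Submodule F2 Y) (lam : Y →ₗ[F2] Y') (i : ℕ) :
    hd (fun s => A s ⊓ LinearMap.ker lam) i =
      hx dd (fun j => Ch A j ⊓ LinearMap.ker (lam.compLeft (Finset V))) i := by
  unfold hd
  rw [show Ch (fun s => A s ⊓ LinearMap.ker lam) =
    fun j => Ch A j ⊓ LinearMap.ker (lam.compLeft (Finset V)) from
      funext fun j => (Ch_ker A lam j).symm]

private theorem SysA_map (A : Finset V → Submodule F2 Y) (lam : Y →ₗ[F2] Y') (i : ℕ) :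
    hd (fun s => (A s).map lam) i =
      hx dd (fun j => (Ch A j).map (lam.compLeft (Finset V))) i := by
  unfold hd
  rw [show Ch (fun s => (A s).map lam) =
    fun j => (Ch A j).map (lam.compLeft (Finset V)) from
      funext fun j => (Ch_map A lam j).symm]

/-- `hx_mid` for a map of the coefficients -/
theorem hd_coef {A : Finset V → Submodule F2 Y} (hA : Mono A) (lam : Y →ₗ[F2] Y') (i : ℕ) :
    hd A i ≤ hd (fun s => A s ⊓ LinearMap.ker lam) i + hd (fun s => (A s).map lam) i := by
  rw [SysA_ker, SysA_map]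
  exact hx_mid (isCx_Ch hA) (lam.compLeft (Finset V)) (fun _ x _ => dd_compLeft lam x) i

/-- `hx_map` for an injective map of the coefficients -/
theorem hd_map (A : Finset V → Submodule F2 Y) (j : Y →ₗ[F2] Y') (hj : Function.Injective j)
    (i : ℕ) : hd (fun s => (A s).map j) i = hd A i := by
  rw [SysA_map]
  refine hx_map (j.compLeft (Finset V)) ?_ (fun _ x _ => dd_compLeft j x) i
  intro f g h
  funext s
  exact hj (congrFun h s)

/-- `hx_split` for a projection of the coefficients -/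
theorem hd_split {A : Finset V → Submodule F2 Y} (hA : Mono A) (e : Module.End F2 Y)
    (he : ∀ s, ∀ y ∈ A s, e (e y) = e y) (hAe : ∀ s, ∀ y ∈ A s, e y ∈ A s) (i : ℕ) :
    hd A i = hd (fun s => A s ⊓ LinearMap.ker e) i + hd (fun s => (A s).map e) i := by
  rw [SysA_ker, SysA_map]
  refine hx_split (e.compLeft (Finset V)) (isCx_Ch hA).map ?_ ?_
    (fun _ x _ => dd_compLeft e x) i
  · intro _ x hx
    funext s
    exact he s _ (hx s).1
  · intro _ x hx s
    refine ⟨hAe s _ (hx s).1, fun hs => ?_⟩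
    change e (x s) = 0
    rw [(hx s).2 hs, map_zero]

/-- there are no chains in degree `i` -/
theorem hd_zero {A : Finset V → Submodule F2 Y} (hA : Mono A) (i : ℕ)
    (h : ∀ s : Finset V, s.card = i → A s = ⊥) : hd A i = 0 := by
  have h0 : Ch A i = ⊥ := by
    rw [eq_bot_iff]
    intro f hf
    rw [Submodule.mem_bot]
    funext s
    by_cases hs : s.card = i
    · have h1 := (hf s).1
      rw [h s hs, Submodule.mem_bot] at h1
      exact h1
    · exact (hf s).2 hs
  have h1 : (Ch A (i + 1)).map dd = ⊥ := by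
    rw [eq_bot_iff, ← h0]
    rintro _ ⟨x, hx, rfl⟩
    exact (isCx_Ch hA).map i x hx
  unfold hd hx
  rw [h1, h0, bot_inf_eq, finrank_bot, Nat.cast_zero, sub_zero]

end Pool.Agent.H73.GC

end

section

/-!
# Project SR: Singer's conjecture for right-angled Coxeter groups in degrees near the dimension: definitions

`G` is a finite graph, the complex is its flag complex (all cliques, `V` is the set of the vertices). `P` is a
finite group with marked involutions (`D : PG G P`, `Pool.Agent.H77.SW`): cells of the cube complex of `P` are the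
cosets `p P_A`, `A` a clique, represented by the element `p` with `D.b p v = 0` for `v ∈ A`.
-/

set_option autoImplicit false
set_option linter.unusedSectionVars false

open Finset

namespace Pool.Agent.H19.SR

open Pool.Agent.H77.SW

variable {V : Type} [DecidableEq V]

/-! ### Local cochains on a cube

`x B C` is the value of the cochain `x` on the face with the free letters `B`, on which the letters in `C` are `1`
and all other letters are `0`. -/

section Cube

variable {R : Type} [CommRing R]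

/-- the coboundary -/
def cob (x : Finset V → Finset V → R) (B C : Finset V) : R :=
  ∑ v ∈ B, (x (B.erase v) C + x (B.erase v) (insert v C))

/-- the number of elements of `M` below `v` -/
def bel (ν : V → ℕ) (M : Finset V) (v : V) : ℕ := (M.filter fun u => ν u < ν v).card

/-- the cup product of order `m`: the letters in `M` (`m` letters) are free in both factors, those in `D` only in
the first one, where the second factor is at `1` if the number of letters of `M` below is even and at `0` otherwise,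
the remaining ones only in the second factor, where the first factor is at `0` if this number is even, and at `1`
otherwise -/
def cupc (ν : V → ℕ) (m : ℕ) (x y : Finset V → Finset V → R) (B C : Finset V) : R :=
  ∑ M ∈ B.powersetCard m, ∑ D ∈ (B \ M).powerset,
    x (M ∪ D) (C ∪ ((B \ (M ∪ D)).filter fun v => ¬ Even (bel ν M v))) *
      y (B \ D) (C ∪ D.filter fun v => Even (bel ν M v))

/-- the faces of the cube with the free letters `Q` -/
def Face (Q B C : Finset V) : Prop := Disjoint B C ∧ B ∪ C ⊆ Q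

end Cube

/-! ### Spheres -/

section Sphere

variable [Fintype V]

/-- The flag complex of `G` is a homology sphere of dimension `n - 1` over the field of two elements and a homology
manifold: it is pure (all maximal cliques have `n` elements), the reduced homology over `ZMod 2` of the links of
all cliques `s` (`s = ∅`: the whole complex) vanishes below the top degree (`low`; the link of `s` is the complex
of the cliques which contain `s`), and in the top degree the cycles are the multiples of the sum of all facets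
(`top`). -/
structure IsSph (G : SimpleGraph V) (n : ℕ) : Prop where
  card_le : ∀ s : Finset V, G.IsClique (s : Set V) → s.card ≤ n
  facet : ∀ s : Finset V, G.IsClique (s : Set V) → ∃ t : Finset V, s ⊆ t ∧
    G.IsClique (t : Set V) ∧ t.card = n
  low : ∀ s : Finset V, G.IsClique (s : Set V) → ∀ j < n, ∀ f : Finset V → ZMod 2,
    (∀ t, f t ≠ 0 → G.IsClique (t : Set V) ∧ s ⊆ t ∧ t.card = j) →
    (∀ t, s ⊆ t → ∑ v ∈ tᶜ, f (insert v t) = 0) →
    ∃ u : Finset V → ZMod 2, (∀ t, u t ≠ 0 → G.IsClique (t : Set V) ∧ s ⊆ t ∧ t.card = j + 1) ∧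
      ∀ t, s ⊆ t → ∑ v ∈ tᶜ, u (insert v t) = f t
  top : ∀ s : Finset V, G.IsClique (s : Set V) → ∀ f : Finset V → ZMod 2,
    (∀ t, f t ≠ 0 → G.IsClique (t : Set V) ∧ s ⊆ t ∧ t.card = n) →
    ((∀ t, s ⊆ t → ∑ v ∈ tᶜ, f (insert v t) = 0) ↔
      ∃ c, ∀ t : Finset V, G.IsClique (t : Set V) → s ⊆ t → t.card = n → f t = c)

end Sphere

/-! ### Groups -/

section Grp

variable [Fintype V] {P : Type} [Group P]

/-- the product of the marked elements of `C`, in a fixed order -/
noncomputable def gp (g : V → P) (C : Finset V) : P :=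
  (((univ : Finset V).toList.filter fun v => v ∈ C).map g).prod

/-- `P` is generated by the marked elements and has retractions onto the subgroups generated by all subsets of
them -/
structure Ret (g : V → P) : Prop where
  gen : Subgroup.closure (Set.range g) = ⊤
  ret : ∀ A : Finset V, ∃ r : P →* P, ∀ v, r (g v) = if v ∈ A then g v else 1

/-- the subgroup of the wall through the edge `v` at `1` -/
def wl {G : SimpleGraph V} (D : PG G P) (v : V) : Subgroup P :=
  Subgroup.closure (D.g '' {u | u = v ∨ G.Adj v u})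

open Classical in
/-- the cells `(A, p)` (`p` is the vertex of the cell whose bits vanish on `A`) in the intersection of the walls of
types in `s` through the vertex `p₀` -/
noncomputable def fl {G : SimpleGraph V} (D : PG G P) [Fintype P] (s A : Finset V) (p₀ : P) :
    Finset P :=
  univ.filter fun p => (∀ v ∈ A, D.b p v = 0) ∧ ∀ v ∈ s, p₀⁻¹ * p ∈ wl D v

open Classical in
/-- the vertices of the link of `s` -/
noncomputable def lkF (G : SimpleGraph V) (s : Finset V) : Finset V :=
  univ.filter fun w => ∀ v ∈ s, G.Adj v w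

end Grp

/-! ### Systems -/

section Sys


end Sys

end Pool.Agent.H19.SR

end
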