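import Pool.Agent.H71.TSG.M05
import Pool.Agent.H71.TSG.M08
import Pool.Agent.H71.TSG.M11
import Pool.Agent.H71.TSG.M12

/-! The parts of this file: H4.FC.HarmMatL, H19.LI.Star, H19.SR.Cup, H77.SX.Filt, H77.SX.Lower, S9.U.Cupb, S9.U.Loc. -/

section

/-!
# Project FC: the matrix of the harmonic chains

Modelled on `Pool.Agent.H4.Singer.HarmAct`, whose `gact`, `gact_zero`, `gact_add`, `gact_single`, `sz` are
generic and public (the private `gact_sub`, `gact_sum`, `gact_ite` and `sum_RI` must be copied). The only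
difference is the column of the coboundary: for spherical `ρ` with `i + 1` elements the entry is
`∑_{v ∈ ρ, ρ.erase v = σ} ∑_{u ∈ parF M ρ} single u (sz ν v (ρ.erase v) * eps M u)`, which acts by
`φ ↦ ∑_u ± eps u * φ (h * (π u)⁻¹) = ± altS M π ρ φ h` (`altS_inv`).
-/

set_option autoImplicit false

open Finset

namespace Pool.Agent.H4.FC

open Pool.Agent.H4.Singer

variable {V : Type} [Fintype V] [DecidableEq V]

/-- the spherical sets with `i` elements -/
abbrev RIL (M : CoxeterMatrix V) (i : ℕ) : Type := {σ : Finset V // Sph M σ ∧ σ.card = i}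

noncomputable instance (M : CoxeterMatrix V) (i : ℕ) : Fintype (RIL M i) := Fintype.ofFinite _

/-- the columns: antisymmetry, boundary, coboundary -/
abbrev CIL (M : CoxeterMatrix V) (i : ℕ) : Type := (RIL M i × V) ⊕ (Finset V ⊕ Finset V)

open Classical in
/-- the matrix over the group ring whose left kernel consists of the harmonic chains -/
noncomputable def HML (M : CoxeterMatrix V) (ν : V → ℕ) (i : ℕ) :
    Matrix (RIL M i) (CIL M i) (MonoidAlgebra ℤ M.Group) :=
  Matrix.of fun σ c => match c with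
    | Sum.inl (σ', v) =>
      if σ = σ' ∧ v ∈ σ'.1 then
        MonoidAlgebra.single 1 1 + MonoidAlgebra.single (M.simple v) 1 else 0
    | Sum.inr (Sum.inl τ) =>
      ∑ v ∈ τᶜ, if insert v τ = σ.1 then MonoidAlgebra.single 1 (sz ν v τ) else 0
    | Sum.inr (Sum.inr ρ) =>
      if Sph M ρ ∧ ρ.card = i + 1 then
        ∑ v ∈ ρ, if ρ.erase v = σ.1 then
          ∑ u ∈ parF M ρ, MonoidAlgebra.single u (sz ν v (ρ.erase v) * eps M u) else 0
      else 0

private lemma hm_gact_sum {W H ι : Type} [Group W] [Group H] (π : W →* H) (s : Finset ι)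
    (f : ι → MonoidAlgebra ℤ W) (φ : H → ℂ) (h : H) :
    gact π (∑ k ∈ s, f k) φ h = ∑ k ∈ s, gact π (f k) φ h := by
  classical
  induction s using Finset.induction_on with
  | empty => simp [gact_zero]
  | insert k s hk ih => rw [Finset.sum_insert hk, Finset.sum_insert hk, gact_add, ih]

private lemma hm_gact_ite {W H : Type} [Group W] [Group H] (π : W →* H) (p : Prop) [Decidable p]
    (a : MonoidAlgebra ℤ W) (φ : H → ℂ) (h : H) :
    gact π (if p then a else 0) φ h = if p then gact π a φ h else 0 := by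
  split_ifs
  · rfl
  · exact gact_zero π φ h

private lemma hm_sum (M : CoxeterMatrix V) (i : ℕ) (S : Finset V) (F : Finset V → ℂ)
    (hF : ¬ (Sph M S ∧ S.card = i) → F S = 0) :
    ∑ σ : RIL M i, (if S = σ.1 then F σ.1 else 0) = F S := by
  classical
  by_cases hS : Sph M S ∧ S.card = i
  · rw [Finset.sum_eq_single (⟨S, hS⟩ : RIL M i)]
    · simp
    · intro σ _ hσ
      rw [if_neg]
      intro h1
      exact hσ (Subtype.ext h1.symm)
    · intro h1
      exact absurd (Finset.mem_univ _) h1
  · rw [hF hS]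
    refine Finset.sum_eq_zero fun σ _ => ?_
    rw [if_neg]
    intro h1
    exact hS (h1 ▸ σ.2)

variable (M : CoxeterMatrix V) (ν : V → ℕ) (i : ℕ) {H : Type} [Group H] (π : M.Group →* H)
  (φ : Finset V → H → ℂ)

theorem HML_anti (σ' : RIL M i) (v : V) (h : H) :
    ∑ σ : RIL M i, gact π (HML M ν i σ (Sum.inl (σ', v))) (φ σ.1) h =
      if v ∈ σ'.1 then φ σ'.1 h + φ σ'.1 (h * (π (M.simple v))⁻¹) else 0 := by
  classical
  have key : ∀ σ : RIL M i, gact π (HML M ν i σ (Sum.inl (σ', v))) (φ σ.1) h =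
      if σ = σ' then (if v ∈ σ'.1 then φ σ'.1 h + φ σ'.1 (h * (π (M.simple v))⁻¹) else 0)
        else 0 := by
    intro σ
    have h1 : HML M ν i σ (Sum.inl (σ', v)) = if σ = σ' ∧ v ∈ σ'.1 then
        MonoidAlgebra.single 1 1 + MonoidAlgebra.single (M.simple v) 1 else 0 := by
      simp only [HML, Matrix.of_apply]
    rw [h1, hm_gact_ite, gact_add, gact_single, gact_single]
    by_cases h2 : σ = σ'
    · subst h2
      by_cases h3 : v ∈ σ.1
      · simp [h3]
      · simp [h3]
    · simp [h2]
  rw [Finset.sum_congr rfl fun σ _ => key σ, Finset.sum_ite_eq' Finset.univ σ']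
  simp

theorem HML_bd (hφ : ∀ σ : Finset V, ¬ (Sph M σ ∧ σ.card = i) → φ σ = 0)
    (τ : Finset V) (h : H) :
    ∑ σ : RIL M i, gact π (HML M ν i σ (Sum.inr (Sum.inl τ))) (φ σ.1) h =
      ∑ v ∈ τᶜ, (-1 : ℂ) ^ (τ.filter fun u => ν u < ν v).card * φ (insert v τ) h := by
  classical
  have key : ∀ σ : RIL M i, gact π (HML M ν i σ (Sum.inr (Sum.inl τ))) (φ σ.1) h =
      ∑ v ∈ τᶜ, if insert v τ = σ.1 then φ σ.1 h * ((sz ν v τ : ℤ) : ℂ) else 0 := by
    intro σ
    have h1 : HML M ν i σ (Sum.inr (Sum.inl τ)) =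
        ∑ v ∈ τᶜ, if insert v τ = σ.1 then MonoidAlgebra.single 1 (sz ν v τ) else 0 := by
      simp only [HML, Matrix.of_apply]
    rw [h1, hm_gact_sum]
    refine Finset.sum_congr rfl fun v _ => ?_
    rw [hm_gact_ite, gact_single]
    simp
  rw [Finset.sum_congr rfl fun σ _ => key σ, Finset.sum_comm]
  refine Finset.sum_congr rfl fun v _ => ?_
  rw [hm_sum M i (insert v τ) (fun S => φ S h * ((sz ν v τ : ℤ) : ℂ))]
  · simp only [sz]
    push_cast
    ring
  · intro h1
    rw [hφ _ h1]
    simp

theorem HML_cobd (hφ : ∀ σ : Finset V, ¬ (Sph M σ ∧ σ.card = i) → φ σ = 0)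
    (ρ : Finset V) (hρ : Sph M ρ) (hρi : ρ.card = i + 1) (h : H) :
    ∑ σ : RIL M i, gact π (HML M ν i σ (Sum.inr (Sum.inr ρ))) (φ σ.1) h =
      ∑ v ∈ ρ, (-1 : ℂ) ^ ((ρ.erase v).filter fun u => ν u < ν v).card *
        altS M π ρ (φ (ρ.erase v)) h := by
  classical
  have key : ∀ σ : RIL M i, gact π (HML M ν i σ (Sum.inr (Sum.inr ρ))) (φ σ.1) h =
      ∑ v ∈ ρ, if ρ.erase v = σ.1 then
        ((sz ν v (ρ.erase v) : ℤ) : ℂ) * altS M π ρ (φ σ.1) h else 0 := by
    intro σ
    have h1 : HML M ν i σ (Sum.inr (Sum.inr ρ)) =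
        ∑ v ∈ ρ, if ρ.erase v = σ.1 then
          ∑ u ∈ parF M ρ, MonoidAlgebra.single u (sz ν v (ρ.erase v) * eps M u) else 0 := by
      simp only [HML, Matrix.of_apply]
      rw [if_pos ⟨hρ, hρi⟩]
    rw [h1, hm_gact_sum]
    refine Finset.sum_congr rfl fun v _ => ?_
    rw [hm_gact_ite, hm_gact_sum, altS_inv M π hρ, Finset.mul_sum]
    congr 1
    refine Finset.sum_congr rfl fun u _ => ?_
    rw [gact_single]
    push_cast
    ring
  rw [Finset.sum_congr rfl fun σ _ => key σ, Finset.sum_comm]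
  refine Finset.sum_congr rfl fun v _ => ?_
  rw [hm_sum M i (ρ.erase v) (fun S => ((sz ν v (ρ.erase v) : ℤ) : ℂ) * altS M π ρ (φ S) h)]
  · simp only [sz]
    push_cast
    ring
  · intro h1
    rw [hφ _ h1]
    simp [altS]

theorem HML_cobd_zero (ρ : Finset V) (hρ : ¬ (Sph M ρ ∧ ρ.card = i + 1)) (h : H) :
    ∑ σ : RIL M i, gact π (HML M ν i σ (Sum.inr (Sum.inr ρ))) (φ σ.1) h = 0 := by
  classical
  refine Finset.sum_eq_zero fun σ _ => ?_
  have h1 : HML M ν i σ (Sum.inr (Sum.inr ρ)) = 0 := by
    simp only [HML, Matrix.of_apply]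
    rw [if_neg hρ]
  rw [h1, gact_zero]

end Pool.Agent.H4.FC

end

section

/-!
# Project LI: the degenerate complex

Let `f` be in `Ch D 0 i`, i.e. `S v f (σ, x) = - f (σ, x)` for `v ∈ σ`, where `(S v m) g = i m (g R_v B_v)`
(`Np = 0` iff `(1 + S v) m = 0`, replace `g` by `g R_v`), `d f = 0`, and orthogonal to all boundaries.
(1) For `x`, `σ'` put `ξ = ∑_{v ∈ σ'} ± (1 - S v) f (σ' \ v, x)`, a function on `G` with `S u ξ = - ξ` for `u ∈ σ'`.
The chain `Y` with the value `ξ` at `(σ', x)` and `0` elsewhere is in `Ch D 0 (i + 1)`, and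
`0 = 2 ⟨f, d Y⟩ = ⟨ξ, ξ⟩`, since `⟨(1 + S v) f, ξ⟩ = ⟨f, (1 + S v) ξ⟩ = 0`. So `ξ = 0`.
(2) There are `θ : W → G` and phases `p : W → ℂ` (`W` the right-angled Coxeter group of `lk C x`) with `θ 1 = 1`, `p 1 = 1`,
`κ x (g θ_w) = κ x g * w`, and `p_{w v} m (g θ_{w v}) = p_w (S v m) (g θ_w)` for all `m` with `m (g z) = - m g` (the involutions
`S v` define an action of `W`). For fixed `g` the function `F σ' w = p_w f (σ', x, g θ_w)` is an `ℓ²`-chain of the Davis
complex (`w ↦ g θ_w` is injective), a cycle, and `∑ ± (F (σ' \ v) w - F (σ' \ v) (w v)) = 0` by (1).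
(3) `L2HomologyZero` implies `F = 0` (see `H19/LG/HarmZero.lean` and `H85/LG/Bridge.lean`), so `f = 0`.
-/

set_option autoImplicit false

open Finset

namespace Pool.Agent.H19.LI

open Pool.Agent.H19.Cub Pool.Agent.H4.Singer

variable {V X : Type} [DecidableEq V] {C : CubeComplex V X} {Γ G : Type} [Group Γ]
  [MulAction Γ V] [Group G]

/-! ### harmonic chains of the Davis complex -/

private theorem Star_harm {U : Type} [Fintype U] [DecidableEq U] (H : SimpleGraph U) (i : ℕ)
    (h : Pool.Agent.H4.Singer.L2HomologyZero H i) (ν : U → ℕ) (hν : Function.Injective ν)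
    (F : Finset U → RGrp H → ℂ) (hF : IsHarm H ν i F) : F = 0 := by
  classical
  obtain ⟨fE, hfE⟩ : ∃ fE : lp (fun _ : Finset U × RGrp H => ℂ) 2, ∀ σ w, fE (σ, w) = F σ w :=
    ⟨⟨fun p => F p.1 p.2, l2h_prod F hF.chain.l2⟩, fun _ _ => rfl⟩
  have key : ∀ ε : ℝ, 0 < ε → ‖fE‖ ^ 2 < ε := by
    intro ε hε
    obtain ⟨y, hy, hye⟩ := h ν hν F hF.chain hF.cyc ε hε
    obtain ⟨bE, hbE⟩ : ∃ bE : lp (fun _ : Finset U × RGrp H => ℂ) 2,
        ∀ σ w, bE (σ, w) = dbd ν y σ w :=
      ⟨⟨fun p => dbd ν y p.1 p.2, l2h_prod (dbd ν y) fun τ => l2h_dbd_l2 ν hy.l2 τ⟩,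
        fun _ _ => rfl⟩
    have hin : inner ℂ fE bE = 0 := by
      rw [l2h_inner]
      have hadj := adj_identity (fun v (w : RGrp H) => w * gen H v)
        (fun v w => by rw [mul_assoc, l2h_gen_sq, mul_one]) ν F y hF.chain.l2 hy.l2 hy.anti
      have e1 : ∑ τ : Finset U, ∑' w, (starRingEnd ℂ) (fE (τ, w)) * bE (τ, w) =
          ∑ τ : Finset U, ∑' w, (starRingEnd ℂ) (F τ w) *
            (∑ v ∈ τᶜ, (-1 : ℂ) ^ (τ.filter fun u => ν u < ν v).card * y (insert v τ) w) := by
        refine Finset.sum_congr rfl fun τ _ => tsum_congr fun w => ?_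
        rw [hfE, hbE]
        rfl
      rw [e1, hadj]
      have e2 : ∀ (ρ : Finset U) (w : RGrp H), (starRingEnd ℂ)
          (∑ v ∈ ρ, (-1 : ℂ) ^ ((ρ.erase v).filter fun u => ν u < ν v).card *
            (F (ρ.erase v) w - F (ρ.erase v) (w * gen H v))) * y ρ w = 0 := by
        intro ρ w
        by_cases h0 : y ρ w = 0
        · rw [h0, mul_zero]
        · obtain ⟨h1, h2⟩ := hy.supp ρ w h0
          rw [hF.cocyc ρ w h1 h2, map_zero, zero_mul]
      simp only [e2, tsum_zero, Finset.sum_const_zero, mul_zero]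
    have hsub := norm_sub_sq (𝕜 := ℂ) fE bE
    rw [hin] at hsub
    simp only [map_zero, mul_zero, sub_zero] at hsub
    have hn := l2h_norm (fE - bE)
    have e3 : ∑ σ, ∑' w, ‖(fE - bE) (σ, w)‖ ^ 2 = ∑ σ, ∑' w, ‖F σ w - dbd ν y σ w‖ ^ 2 := by
      refine Finset.sum_congr rfl fun σ _ => tsum_congr fun w => ?_
      have e4 : (fE - bE) (σ, w) = fE (σ, w) - bE (σ, w) := rfl
      rw [e4, hfE, hbE]
    rw [e3] at hn
    have hb := sq_nonneg ‖bE‖
    linarith
  have h0 : ‖fE‖ ^ 2 ≤ 0 := le_of_forall_pos_le_add fun ε hε => by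
    rw [zero_add]
    exact (key ε hε).le
  have h1 : fE = 0 := by
    have h2 : ‖fE‖ = 0 := by
      have := sq_nonneg ‖fE‖
      exact pow_eq_zero_iff two_ne_zero |>.1 (le_antisymm h0 this)
    exact norm_eq_zero.1 h2
  funext σ w
  rw [← hfE, h1]
  rfl

/-! ### the involutions -/

private theorem Star_RBRB (D : GD C Γ G) (v : V) : D.R v * D.B v * (D.R v * D.B v) = D.z := by
  calc D.R v * D.B v * (D.R v * D.B v) = (D.R v * D.B v) * D.R v * D.B v := by group
    _ = D.z * (D.B v * D.R v) * D.R v * D.B v := by rw [D.RB]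
    _ = D.z * D.B v * (D.R v * D.R v) * D.B v := by group
    _ = D.z * (D.B v * D.B v) := by rw [D.RR, mul_one]; group
    _ = D.z := by rw [D.BB, mul_one]

private theorem Star_zRB (D : GD C Γ G) (v : V) :
    D.z * (D.R v * D.B v) = D.R v * D.B v * D.z := by
  rw [← mul_assoc, D.zR, mul_assoc, D.zB, mul_assoc]

private theorem Star_comm (D : GD C Γ G) {u v : V} (h : C.graph.Adj u v) :
    D.R u * D.B u * (D.R v * D.B v) = D.R v * D.B v * (D.R u * D.B u) := by
  calc D.R u * D.B u * (D.R v * D.B v) = D.R u * (D.B u * D.R v) * D.B v := by group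
    _ = D.R u * (D.R v * D.B u) * D.B v := by rw [D.cRB v u h.symm]
    _ = (D.R u * D.R v) * (D.B u * D.B v) := by group
    _ = (D.R v * D.R u) * (D.B v * D.B u) := by rw [D.cRR u v h, D.cBB u v h]
    _ = D.R v * (D.R u * D.B v) * D.B u := by group
    _ = D.R v * (D.B v * D.R u) * D.B u := by rw [D.cRB u v h]
    _ = D.R v * D.B v * (D.R u * D.B u) := by group

/-- the functions with `m (g z) = - m g` -/
private def Star_M (D : GD C Γ G) : Submodule ℂ (G → ℂ) where
  carrier := {m | ∀ g, m (g * D.z) = - m g}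
  zero_mem' g := by
    show (0 : ℂ) = - 0
    rw [neg_zero]
  add_mem' {a b} ha hb g := by
    show a (g * D.z) + b (g * D.z) = - (a g + b g)
    rw [ha, hb, neg_add]
  smul_mem' c a ha g := by
    show c * a (g * D.z) = - (c * a g)
    rw [ha]
    ring

/-- the involution `S v` -/
private noncomputable def Star_S (D : GD C Γ G) (v : V) : Star_M D →ₗ[ℂ] Star_M D where
  toFun m := ⟨fun g => Complex.I * m.1 (g * (D.R v * D.B v)), fun g => by
    show Complex.I * m.1 (g * D.z * (D.R v * D.B v)) = - (Complex.I * m.1 (g * (D.R v * D.B v)))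
    rw [mul_assoc g, Star_zRB, ← mul_assoc, m.2]
    ring⟩
  map_add' a b := Subtype.ext (funext fun g => by
    show Complex.I * (a.1 _ + b.1 _) = Complex.I * a.1 _ + Complex.I * b.1 _
    ring)
  map_smul' c a := Subtype.ext (funext fun g => by
    show Complex.I * (c * a.1 _) = c * (Complex.I * a.1 _)
    ring)

private theorem Star_S_apply (D : GD C Γ G) (v : V) (m : Star_M D) (g : G) :
    (Star_S D v m).1 g = Complex.I * m.1 (g * (D.R v * D.B v)) := rfl

private theorem Star_SS (D : GD C Γ G) (v : V) (m : Star_M D) : Star_S D v (Star_S D v m) = m := by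
  refine Subtype.ext (funext fun g => ?_)
  rw [Star_S_apply, Star_S_apply, mul_assoc g, Star_RBRB, m.2]
  linear_combination (- m.1 g) * Complex.I_mul_I

private theorem Star_S_comm (D : GD C Γ G) {u v : V} (h : C.graph.Adj u v) (m : Star_M D) :
    Star_S D u (Star_S D v m) = Star_S D v (Star_S D u m) := by
  refine Subtype.ext (funext fun g => ?_)
  rw [Star_S_apply, Star_S_apply, Star_S_apply, Star_S_apply, mul_assoc g, mul_assoc g,
    Star_comm D h]

/-- the functions which describe the action of the Coxeter group -/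
private theorem Star_theta (D : GD C Γ G) (x : X) :
    ∃ (θ : RGrp (lk C x) → G) (p : RGrp (lk C x) → ℂ), (∀ w, ‖p w‖ = 1) ∧
      (∀ g w, D.κ x (g * θ w) = D.κ x g * w) ∧
      (∀ m : Star_M D, ∀ g, p 1 * m.1 (g * θ 1) = m.1 g) ∧
      ∀ (v : {v // v ∈ C.lab x}) (w : RGrp (lk C x)) (m : Star_M D) (g : G),
        p (w * gen (lk C x) v) * m.1 (g * θ (w * gen (lk C x) v)) =
          p w * (Star_S D v.1 m).1 (g * θ w) := by
  obtain ⟨Φ, hΦ⟩ := exists_lift (lk C x) (P := Star_M D ≃ₗ[ℂ] Star_M D)
    (fun v => LinearEquiv.ofInvolutive (Star_S D v.1) (Star_SS D v.1))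
    (fun v => LinearEquiv.ext fun m => Star_SS D v.1 m)
    (fun u v huv => LinearEquiv.ext fun m => Star_S_comm D huv m)
  have hstep : ∀ w v (m : Star_M D), Φ (w * gen (lk C x) v) m = Φ w (Star_S D v.1 m) := by
    intro w v m
    rw [map_mul, hΦ]
    rfl
  have key : ∀ w : RGrp (lk C x), ∃ (t : G) (p : ℂ), ‖p‖ = 1 ∧
      (∀ (m : Star_M D) g, (Φ w m).1 g = p * m.1 (g * t)) ∧
      ∀ g, D.κ x (g * t) = D.κ x g * w := by
    intro w
    have hs : ∀ (w : RGrp (lk C x)) (v : {v // v ∈ C.lab x}), (∃ (t : G) (p : ℂ), ‖p‖ = 1 ∧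
        (∀ (m : Star_M D) g, (Φ w m).1 g = p * m.1 (g * t)) ∧
        ∀ g, D.κ x (g * t) = D.κ x g * w) → ∃ (t : G) (p : ℂ), ‖p‖ = 1 ∧
        (∀ (m : Star_M D) g, (Φ (w * gen (lk C x) v) m).1 g = p * m.1 (g * t)) ∧
        ∀ g, D.κ x (g * t) = D.κ x g * (w * gen (lk C x) v) := by
      rintro w v ⟨t, p, hp, h1, h2⟩
      refine ⟨t * (D.R v.1 * D.B v.1), p * Complex.I, ?_, fun m g => ?_, fun g => ?_⟩
      · rw [norm_mul, hp, Complex.norm_I, one_mul]
      · rw [hstep, h1, Star_S_apply, mul_assoc g]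
        ring
      · rw [← mul_assoc, ← mul_assoc, D.κ_mul, h2, mul_assoc]
    have hw : w ∈ Subgroup.closure (Set.range (gen (lk C x))) := by
      have h1 := (racg (lk C x)).toCoxeterSystem.subgroup_closure_range_simple
      have h2 : Set.range (racg (lk C x)).toCoxeterSystem.simple = Set.range (gen (lk C x)) := by
        congr 1
      rw [← h2, h1]
      exact Subgroup.mem_top w
    induction hw using Subgroup.closure_induction_right with
    | one =>
      refine ⟨1, 1, norm_one, fun m g => ?_, fun g => by rw [mul_one, mul_one]⟩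
      rw [map_one, mul_one, one_mul]
      rfl
    | mul_right w _ g hg ih =>
      obtain ⟨v, rfl⟩ := hg
      exact hs w v ih
    | mul_inv_cancel w _ g hg ih =>
      obtain ⟨v, rfl⟩ := hg
      rw [gen_inv]
      exact hs w v ih
  choose θ p hp h1 h2 using key
  refine ⟨θ, p, hp, fun g w => h2 w g, fun m g => ?_, fun v w m g => ?_⟩
  · rw [← h1, map_one]
    rfl
  · rw [← h1, ← h1, hstep]

/-! ### the Davis complex at a vertex -/

omit [DecidableEq V] in
private theorem Star_sv (ν : V → ℕ) {S : Finset V} (v : {v // v ∈ S}) (τ : Finset {v // v ∈ S}) :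
    ((sv ν v.1 (τ.map (Function.Embedding.subtype _)) : ℤ) : ℂ) =
      (-1 : ℂ) ^ (τ.filter fun u => ν u.1 < ν v.1).card := by
  unfold sv
  rw [filter_map, card_map]
  push_cast
  rfl

private theorem Star_end3 (D : GD C Γ G) (ν : V → ℕ) (hν : Function.Injective ν) (i : ℕ) (x : X)
    (h : Pool.Agent.H4.Singer.L2HomologyZero (lk C x) i) (m : Finset V → G → ℂ)
    (hz : ∀ σ g, m σ (g * D.z) = - m σ g)
    (hsupp : ∀ σ g, m σ g ≠ 0 → C.graph.IsClique (σ : Set V) ∧ σ.card = i)
    (hS : ∀ σ, σ ⊆ C.lab x → C.graph.IsClique (σ : Set V) → ∀ v ∈ σ, ∀ g,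
      Complex.I * m σ (g * (D.R v * D.B v)) = - m σ g)
    (hl2 : ∀ σ, Summable fun g => ‖m σ g‖ ^ 2)
    (hcyc : ∀ τ, τ ⊆ C.lab x → ∀ g, ∑ v ∈ C.lab x \ τ, (sv ν v τ : ℂ) * m (insert v τ) g = 0)
    (hcoc : ∀ ρ, ρ ⊆ C.lab x → C.graph.IsClique (ρ : Set V) → ρ.card = i + 1 → ∀ g,
      ∑ v ∈ ρ, (sv ν v (ρ.erase v) : ℂ) *
        (m (ρ.erase v) g - Complex.I * m (ρ.erase v) (g * (D.R v * D.B v))) = 0)
    (σ : Finset V) (hσ : σ ⊆ C.lab x) (g : G) : m σ g = 0 := by
  obtain ⟨θ, p, hp, hκ, h1, hstep⟩ := Star_theta D x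
  let emb : {v // v ∈ C.lab x} ↪ V := Function.Embedding.subtype _
  have hsub : ∀ σ' : Finset {v // v ∈ C.lab x}, σ'.map emb ⊆ C.lab x := by
    intro σ' v hv
    obtain ⟨u, -, rfl⟩ := mem_map.1 hv
    exact u.2
  have hcl : ∀ σ' : Finset {v // v ∈ C.lab x}, C.graph.IsClique ((σ'.map emb : Finset V) : Set V) ↔
      (lk C x).IsClique (σ' : Set {v // v ∈ C.lab x}) := by
    intro σ'
    constructor
    · intro hc a ha b hb hab
      exact hc (mem_coe.2 (mem_map_of_mem emb (mem_coe.1 ha)))
        (mem_coe.2 (mem_map_of_mem emb (mem_coe.1 hb))) fun h => hab (Subtype.ext h)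
    · intro hc a ha b hb hab
      obtain ⟨a', ha', rfl⟩ := mem_map.1 (mem_coe.1 ha)
      obtain ⟨b', hb', rfl⟩ := mem_map.1 (mem_coe.1 hb)
      exact hc (mem_coe.2 ha') (mem_coe.2 hb') fun h => hab (congrArg _ h)
  -- the step
  have hst : ∀ σ (v : {v // v ∈ C.lab x}) w,
      p (w * gen (lk C x) v) * m σ (g * θ (w * gen (lk C x) v)) =
        p w * (Complex.I * m σ (g * θ w * (D.R v.1 * D.B v.1))) := fun σ v w =>
    hstep v w ⟨m σ, hz σ⟩ g
  have hinj : Function.Injective fun w => g * θ w := by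
    intro a b hab
    have h2 : D.κ x (g * θ a) = D.κ x (g * θ b) := congrArg (D.κ x) hab
    rw [hκ, hκ] at h2
    exact mul_left_cancel h2
  let F : Finset {v // v ∈ C.lab x} → RGrp (lk C x) → ℂ := fun σ' w =>
    p w * m (σ'.map emb) (g * θ w)
  have hF : IsHarm (lk C x) (fun v => ν v.1) i F := by
    refine ⟨⟨fun σ' w hne => ?_, fun σ' v hv w => ?_, fun σ' => ?_⟩, ?_, fun ρ' w hc hcard => ?_⟩
    · obtain ⟨h2, h3⟩ := hsupp _ _ (right_ne_zero_of_mul hne)
      rw [card_map] at h3
      exact ⟨(hcl σ').1 h2, h3⟩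
    · show p (w * gen (lk C x) v) * m (σ'.map emb) (g * θ (w * gen (lk C x) v)) =
        - (p w * m (σ'.map emb) (g * θ w))
      rw [hst]
      by_cases hc : C.graph.IsClique ((σ'.map emb : Finset V) : Set V)
      · rw [hS _ (hsub σ') hc v.1 (mem_map_of_mem emb hv)]
        ring
      · have h0 : ∀ k, m (σ'.map emb) k = 0 := fun k => by
          by_contra hne
          exact hc (hsupp _ _ hne).1
        rw [h0, h0, mul_zero, mul_zero, neg_zero]
    · have h2 : (fun w => ‖F σ' w‖ ^ 2) = (fun k => ‖m (σ'.map emb) k‖ ^ 2) ∘ fun w => g * θ w := by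
        funext w
        show ‖p w * m (σ'.map emb) (g * θ w)‖ ^ 2 = ‖m (σ'.map emb) (g * θ w)‖ ^ 2
        rw [norm_mul, hp, one_mul]
      rw [h2]
      exact (hl2 _).comp_injective hinj
    · funext τ' w
      show ∑ v ∈ τ'ᶜ, (-1) ^ (τ'.filter fun u => ν u.1 < ν v.1).card *
        (p w * m ((insert v τ').map emb) (g * θ w)) = 0
      have h2 := hcyc (τ'.map emb) (hsub τ') (g * θ w)
      have h3 : C.lab x \ τ'.map emb = τ'ᶜ.map emb := by
        ext v
        rw [mem_sdiff, mem_map, mem_map]
        constructor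
        · rintro ⟨h4, h5⟩
          exact ⟨⟨v, h4⟩, mem_compl.2 fun h6 => h5 ⟨⟨v, h4⟩, h6, rfl⟩, rfl⟩
        · rintro ⟨a, h4, rfl⟩
          refine ⟨a.2, ?_⟩
          rintro ⟨b, h5, h6⟩
          rw [emb.injective h6] at h5
          exact (mem_compl.1 h4) h5
      rw [h3, sum_map] at h2
      have h4 : ∑ v ∈ τ'ᶜ, (-1) ^ (τ'.filter fun u => ν u.1 < ν v.1).card *
          (p w * m ((insert v τ').map emb) (g * θ w)) =
          p w * ∑ v ∈ τ'ᶜ, (sv ν (emb v) (τ'.map emb) : ℂ) *
            m (insert (emb v) (τ'.map emb)) (g * θ w) := by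
        rw [mul_sum]
        refine sum_congr rfl fun v _ => ?_
        rw [map_insert, ← Star_sv ν v τ']
        show (sv ν v.1 (τ'.map emb) : ℂ) * _ = p w * ((sv ν v.1 (τ'.map emb) : ℂ) * _)
        ring
      rw [h4, h2, mul_zero]
    · have h2 := hcoc (ρ'.map emb) (hsub ρ') ((hcl ρ').2 hc) (by rw [card_map, hcard]) (g * θ w)
      rw [sum_map] at h2
      have h4 : ∑ v ∈ ρ', (-1) ^ ((ρ'.erase v).filter fun u => ν u.1 < ν v.1).card *
          (F (ρ'.erase v) w - F (ρ'.erase v) (w * gen (lk C x) v)) =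
          p w * ∑ v ∈ ρ', (sv ν (emb v) ((ρ'.map emb).erase (emb v)) : ℂ) *
            (m ((ρ'.map emb).erase (emb v)) (g * θ w) - Complex.I *
              m ((ρ'.map emb).erase (emb v)) (g * θ w * (D.R (emb v) * D.B (emb v)))) := by
        rw [mul_sum]
        refine sum_congr rfl fun v _ => ?_
        rw [← map_erase, ← Star_sv ν v (ρ'.erase v)]
        show (sv ν v.1 ((ρ'.erase v).map emb) : ℂ) * (p w * m ((ρ'.erase v).map emb) (g * θ w) -
          p (w * gen (lk C x) v) * m ((ρ'.erase v).map emb) (g * θ (w * gen (lk C x) v))) =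
          p w * ((sv ν v.1 ((ρ'.erase v).map emb) : ℂ) * (m ((ρ'.erase v).map emb) (g * θ w) -
            Complex.I * m ((ρ'.erase v).map emb) (g * θ w * (D.R v.1 * D.B v.1))))
        rw [hst]
        ring
      rw [h4, h2, mul_zero]
  have hF0 := Star_harm (lk C x) i h (fun v => ν v.1) (fun a b hab => Subtype.ext (hν hab)) F hF
  have h2 : F (σ.subtype (· ∈ C.lab x)) 1 = 0 := by
    rw [hF0]
    rfl
  have h3 : (σ.subtype (· ∈ C.lab x)).map emb = σ := Finset.subtype_map_of_mem hσ
  have h4 : p 1 * m σ (g * θ 1) = 0 := by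
    rw [← h3]
    exact h2
  exact (h1 ⟨m σ, hz σ⟩ g).symm.trans h4

/-! ### the orthogonality to the boundaries -/

/-- the vector with the coordinates `m` at `p` -/
private noncomputable def Star_em (p : Jx C) (m : L2 G) : L2 (Jx C × G) := by
  classical
  exact mk2 (fun q => if q.1 = p then m q.2 else 0) (by
    have hi : Function.Injective fun g : G => (p, g) := fun a b h => (Prod.ext_iff.1 h).2
    refine (hi.summable_iff fun q hq => ?_).1 ?_
    · have h : q.1 ≠ p := fun h => hq ⟨q.2, Prod.ext h.symm rfl⟩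
      rw [if_neg h, norm_zero, zero_pow two_ne_zero]
    · refine (sum_sq m).congr fun g => ?_
      show _ = ‖(if p = p then m g else 0)‖ ^ 2
      rw [if_pos rfl])

omit [Group G] in
open Classical in
private theorem Star_em_apply (p : Jx C) (m : L2 G) (q : Jx C × G) :
    Star_em p m q = if q.1 = p then m q.2 else 0 := by
  unfold Star_em
  rfl

/-- the coordinates at `p` -/
private noncomputable def Star_rs (f : L2 (Jx C × G)) (p : Jx C) : L2 G :=
  mk2 (fun g => f (p, g)) (by
    have hi : Function.Injective fun g : G => (p, g) := fun a b h => (Prod.ext_iff.1 h).2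
    exact (sum_sq f).comp_injective hi)

omit [Group G] in
private theorem Star_inner (p : Jx C) (m : L2 G) (f : L2 (Jx C × G)) :
    inner ℂ (Star_em p m) f = inner ℂ m (Star_rs f p) := by
  classical
  have h1 : inner ℂ (Star_em p m) f = ∑' q, inner ℂ (Star_em p m q) (f q) := lp.inner_eq_tsum _ _
  have h2 : inner ℂ m (Star_rs f p) = ∑' g, inner ℂ (m g) (Star_rs f p g) := lp.inner_eq_tsum _ _
  rw [h1, h2]
  have hi : Function.Injective fun g : G => (p, g) := fun a b h => (Prod.ext_iff.1 h).2
  rw [← hi.tsum_eq]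
  · refine tsum_congr fun g => ?_
    rw [Star_em_apply, if_pos rfl]
    rfl
  · intro q hq
    by_contra hn
    refine hq ?_
    have h : q.1 ≠ p := fun h => hn ⟨q.2, Prod.ext h.symm rfl⟩
    show inner ℂ (Star_em p m q) (f q) = 0
    rw [Star_em_apply, if_neg h, inner_zero_left]

/-- `S v` on `ℓ²` -/
private noncomputable def Star_T (D : GD C Γ G) (v : V) : L2 G →ₗ[ℂ] L2 G :=
  Complex.I • (reix (Equiv.mulRight (D.R v * D.B v)) (fun _ => 1)
    (fun _ => mul_one 1)).toLinearEquiv.toLinearMap

private theorem Star_T_apply (D : GD C Γ G) (v : V) (m : L2 G) (g : G) :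
    Star_T D v m g = Complex.I * m (g * (D.R v * D.B v)) := by
  show Complex.I * (((1 : ℤ) : ℂ) * m (g * (D.R v * D.B v))) = _
  rw [Int.cast_one, one_mul]

private theorem Star_T_inner (D : GD C Γ G) (v : V) (a b : L2 G) :
    inner ℂ (Star_T D v a) (Star_T D v b) = inner ℂ a b := by
  show inner ℂ (Complex.I • reix (Equiv.mulRight (D.R v * D.B v)) (fun _ => 1) _ a)
    (Complex.I • reix (Equiv.mulRight (D.R v * D.B v)) (fun _ => 1) _ b) = _
  rw [inner_smul_left, inner_smul_right, LinearIsometryEquiv.inner_map_map, Complex.conj_I]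
  linear_combination (- inner ℂ a b) * Complex.I_mul_I

private theorem Star_T_T (D : GD C Γ G) (v : V) (a : L2 G) (ha : ∀ g, a (g * D.z) = - a g) :
    Star_T D v (Star_T D v a) = a := by
  ext g
  rw [Star_T_apply, Star_T_apply, mul_assoc g, Star_RBRB, ha]
  linear_combination (- a g) * Complex.I_mul_I

private theorem Star_T_comm (D : GD C Γ G) {u v : V} (h : C.graph.Adj u v) (a : L2 G) :
    Star_T D u (Star_T D v a) = Star_T D v (Star_T D u a) := by
  ext g
  rw [Star_T_apply, Star_T_apply, Star_T_apply, Star_T_apply, mul_assoc g, mul_assoc g,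
    Star_comm D h]

private theorem Star_T_z (D : GD C Γ G) (v : V) (a : L2 G) (ha : ∀ g, a (g * D.z) = - a g)
    (g : G) : Star_T D v a (g * D.z) = - Star_T D v a g := by
  rw [Star_T_apply, Star_T_apply, mul_assoc g, Star_zRB, ← mul_assoc, ha]
  ring

private theorem Star_orth (D : GD C Γ G) (ν : V → ℕ) (i : ℕ)
    (d : L2 (Jx C × G) →L[ℂ] L2 (Jx C × G)) (hd : IsBd ν d) (f : L2 (Jx C × G))
    (hf : f ∈ Ch D 0 i) (ho : ∀ y ∈ Ch D 0 (i + 1), inner ℂ (d y) f = 0) (x : X) (ρ : Finset V)
    (hρ : ρ ⊆ C.lab x) (hc : C.graph.IsClique (ρ : Set V)) (hcard : ρ.card = i + 1) (g : G) :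
    ∑ v ∈ ρ, (sv ν v (ρ.erase v) : ℂ) * (ev f (ρ.erase v) x g -
      Complex.I * ev f (ρ.erase v) x (g * (D.R v * D.B v))) = 0 := by
  classical
  have hsub : ∀ v, ρ.erase v ⊆ C.lab x := fun v => (erase_subset v ρ).trans hρ
  obtain ⟨a, ha⟩ : ∃ a : V → L2 G, ∀ v, a v = Star_rs f ⟨(ρ.erase v, x), hsub v⟩ :=
    ⟨_, fun _ => rfl⟩
  have hev : ∀ v g, ev f (ρ.erase v) x g = a v g := fun v g => by
    rw [ev_pos f (hsub v), ha]
    rfl
  obtain ⟨hf1, -, hf3⟩ := hf
  have haz : ∀ v g, a v (g * D.z) = - a v g := fun v g => by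
    rw [ha]
    exact hf1 _ g
  have haS : ∀ v, ∀ u ∈ ρ.erase v, Star_T D u (a v) = - a v := by
    intro v u hu
    ext g
    have h1 := hf3 (ρ.erase v) x (hsub v)
      (hc.subset (Finset.coe_subset.2 (erase_subset v ρ))) u hu (g * D.R u)
    simp only [Np, hev] at h1
    rw [mul_assoc g (D.R u) (D.R u), D.RR, mul_one, mul_assoc g (D.R u) (D.B u)] at h1
    rw [Star_T_apply]
    show Complex.I * a v (g * (D.R u * D.B u)) = - a v g
    linear_combination h1
  obtain ⟨ξ, hξ⟩ : ∃ ξ : L2 G, ξ = ∑ v ∈ ρ, (sv ν v (ρ.erase v) : ℂ) • (a v - Star_T D v (a v)) :=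
    ⟨_, rfl⟩
  have hξg : ∀ g, ξ g = ∑ v ∈ ρ, (sv ν v (ρ.erase v) : ℂ) *
      (a v g - Complex.I * a v (g * (D.R v * D.B v))) := by
    intro g
    rw [hξ, lp.coeFn_sum, Finset.sum_apply]
    refine sum_congr rfl fun v _ => ?_
    rw [← Star_T_apply]
    rfl
  have hξz : ∀ g, ξ (g * D.z) = - ξ g := by
    intro g
    rw [hξg, hξg, ← sum_neg_distrib]
    refine sum_congr rfl fun v _ => ?_
    rw [← Star_T_apply, ← Star_T_apply, haz, Star_T_z D v (a v) (haz v)]
    ring
  have hξS : ∀ u ∈ ρ, Star_T D u ξ = - ξ := by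
    intro u hu
    rw [hξ, map_sum, ← sum_neg_distrib]
    refine sum_congr rfl fun v hv => ?_
    rw [map_smul, map_sub, ← smul_neg]
    congr 1
    by_cases huv : u = v
    · subst huv
      rw [Star_T_T D u (a u) (haz u), neg_sub]
    · have h1 : u ∈ ρ.erase v := mem_erase.2 ⟨huv, hu⟩
      rw [Star_T_comm D (hc (mem_coe.2 hu) (mem_coe.2 hv) huv), haS v u h1, map_neg]
      abel
  have hY : Star_em ⟨(ρ, x), hρ⟩ ξ ∈ Ch D 0 (i + 1) := by
    refine ⟨fun p k => ?_, fun p k hne => ?_, fun σ x' hσ hcσ v hv k => ?_⟩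
    · rw [Star_em_apply, Star_em_apply]
      show (if p = _ then ξ (k * D.z) else 0) = - (if p = _ then ξ k else 0)
      split_ifs
      · exact hξz k
      · rw [neg_zero]
    · rw [Star_em_apply] at hne
      have h1 : p = ⟨(ρ, x), hρ⟩ := by
        by_contra h
        exact hne (if_neg h)
      rw [h1]
      exact ⟨hc, hcard⟩
    · have h1 : ∀ k, ev (Star_em ⟨(ρ, x), hρ⟩ ξ) σ x' k =
          if (⟨(σ, x'), hσ⟩ : Jx C) = ⟨(ρ, x), hρ⟩ then ξ k else 0 := by
        intro k
        rw [ev_pos _ hσ, Star_em_apply]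
      simp only [Np, h1]
      by_cases h2 : (⟨(σ, x'), hσ⟩ : Jx C) = ⟨(ρ, x), hρ⟩
      · simp only [h2, if_true]
        have h3 : σ = ρ := congrArg (fun q : Jx C => q.1.1) h2
        have h4 : Star_T D v ξ (k * D.R v) = - ξ (k * D.R v) := by
          rw [hξS v (h3 ▸ hv)]
          rfl
        rw [Star_T_apply, mul_assoc k, ← mul_assoc (D.R v), D.RR, one_mul] at h4
        linear_combination h4
      · simp only [h2, if_false]
        ring
  have hdY : d (Star_em ⟨(ρ, x), hρ⟩ ξ) =
      ∑ v ∈ ρ, (sv ν v (ρ.erase v) : ℂ) • Star_em ⟨(ρ.erase v, x), hsub v⟩ ξ := by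
    ext ⟨⟨⟨τ, x'⟩, hτ⟩, k⟩
    have h1 := hd (Star_em ⟨(ρ, x), hρ⟩ ξ) τ x' k
    rw [ev_pos _ hτ, if_pos hτ] at h1
    rw [h1, lp.coeFn_sum, Finset.sum_apply]
    have h2 : ∀ v ∈ C.lab x' \ τ, (sv ν v τ : ℂ) * ev (Star_em ⟨(ρ, x), hρ⟩ ξ) (insert v τ) x' k =
        if insert v τ = ρ ∧ x' = x then (sv ν v τ : ℂ) * ξ k else 0 := by
      intro v hv
      have h3 : insert v τ ⊆ C.lab x' := insert_subset (mem_sdiff.1 hv).1 hτ
      rw [ev_pos _ h3, Star_em_apply, mul_ite, mul_zero]
      refine if_congr ?_ rfl rfl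
      rw [Subtype.mk_eq_mk, Prod.mk_inj]
    have h3 : ∀ v ∈ ρ, ((sv ν v (ρ.erase v) : ℂ) • Star_em ⟨(ρ.erase v, x), hsub v⟩ ξ :
        L2 (Jx C × G)) (⟨(τ, x'), hτ⟩, k) =
        if τ = ρ.erase v ∧ x' = x then (sv ν v (ρ.erase v) : ℂ) * ξ k else 0 := by
      intro v _
      rw [lp.coeFn_smul, Pi.smul_apply, Star_em_apply, smul_eq_mul, mul_ite, mul_zero]
      refine if_congr ?_ rfl rfl
      rw [Subtype.mk_eq_mk, Prod.mk_inj]
    rw [sum_congr rfl h2, sum_congr rfl h3, ← sum_filter, ← sum_filter]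
    refine sum_congr ?_ fun v hv => ?_
    · ext v
      rw [mem_filter, mem_filter, mem_sdiff]
      constructor
      · rintro ⟨⟨h4, h5⟩, h6, h7⟩
        refine ⟨?_, ?_, h7⟩
        · rw [← h6]
          exact mem_insert_self v τ
        · rw [← h6, erase_insert h5]
      · rintro ⟨h4, h5, h6⟩
        subst h6
        refine ⟨⟨hρ h4, ?_⟩, ?_, rfl⟩
        · rw [h5]
          exact notMem_erase v ρ
        · rw [h5, insert_erase h4]
    · rw [← (mem_filter.1 hv).2.1]
  have h0 : ∑ v ∈ ρ, (sv ν v (ρ.erase v) : ℂ) * inner ℂ ξ (a v) = 0 := by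
    have h1 := ho _ hY
    rw [hdY, sum_inner] at h1
    rw [← h1]
    refine sum_congr rfl fun v _ => ?_
    rw [inner_smul_left, Star_inner, ← ha, map_intCast]
  have h1 : inner ℂ ξ ξ = 2 * ∑ v ∈ ρ, (sv ν v (ρ.erase v) : ℂ) * inner ℂ ξ (a v) := by
    have h2 : inner ℂ ξ ξ = inner ℂ ξ (∑ v ∈ ρ, (sv ν v (ρ.erase v) : ℂ) •
        (a v - Star_T D v (a v))) := congrArg (fun b => inner ℂ ξ b) hξ
    rw [h2, inner_sum, mul_sum]
    refine sum_congr rfl fun v hv => ?_
    have h3 : inner ℂ ξ (Star_T D v (a v)) = - inner ℂ ξ (a v) := by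
      rw [← Star_T_inner D v ξ (Star_T D v (a v)), Star_T_T D v (a v) (haz v), hξS v hv,
        inner_neg_left]
    rw [inner_smul_right, inner_sub_right, h3]
    ring
  have hξ0 : ξ = 0 := by
    rw [h0, mul_zero] at h1
    exact inner_self_eq_zero.1 h1
  have h2 := hξg g
  rw [hξ0] at h2
  simp only [hev]
  exact h2.symm

/-- **The degenerate complex has no homology.** -/
theorem star_end (D : GD C Γ G) (ν : V → ℕ) (hν : Function.Injective ν) (i : ℕ)
    (h : ∀ x, Pool.Agent.H4.Singer.L2HomologyZero (lk C x) i)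
    (d : L2 (Jx C × G) →L[ℂ] L2 (Jx C × G)) (hd : IsBd ν d) (f : L2 (Jx C × G))
    (hf : f ∈ Ch D 0 i) (hdf : d f = 0) (ho : ∀ y ∈ Ch D 0 (i + 1), inner ℂ (d y) f = 0) :
    f = 0 := by
  have hz : ∀ (σ : Finset V) (x : X) (g : G), ev f σ x (g * D.z) = - ev f σ x g := by
    intro σ x g
    by_cases hσ : σ ⊆ C.lab x
    · rw [ev_pos f hσ, ev_pos f hσ]
      exact hf.1 _ g
    · rw [ev_neg f hσ, ev_neg f hσ, neg_zero]
  ext ⟨⟨⟨σ, x⟩, hσ⟩, g⟩
  have key := Star_end3 D ν hν i x (h x) (fun τ k => ev f τ x k) (fun τ k => hz τ x k)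
    (fun τ k hne => ?_) (fun τ hτ hc v hv k => ?_) (fun τ => ?_) (fun τ hτ k => ?_)
    (fun ρ hρ hc hcard k => Star_orth D ν i d hd f hf ho x ρ hρ hc hcard k) σ hσ g
  · show f (⟨(σ, x), hσ⟩, g) = 0
    rw [← ev_pos f hσ]
    exact key
  · have hτ : τ ⊆ C.lab x := by
      by_contra hn
      exact hne (ev_neg f hn k)
    refine hf.2.1 ⟨(τ, x), hτ⟩ k ?_
    rw [← ev_pos f hτ]
    exact hne
  · have h1 := hf.2.2 τ x hτ hc v hv (k * D.R v)
    simp only [Np] at h1
    rw [mul_assoc k (D.R v) (D.R v), D.RR, mul_one, mul_assoc k (D.R v) (D.B v)] at h1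
    show Complex.I * ev f τ x (k * (D.R v * D.B v)) = - ev f τ x k
    linear_combination h1
  · by_cases hτ : τ ⊆ C.lab x
    · have h1 : (fun k => ‖ev f τ x k‖ ^ 2) = fun k => ‖Star_rs f ⟨(τ, x), hτ⟩ k‖ ^ 2 := by
        funext k
        rw [ev_pos f hτ]
        rfl
      show Summable fun k => ‖ev f τ x k‖ ^ 2
      rw [h1]
      exact sum_sq _
    · have h1 : (fun k => ‖ev f τ x k‖ ^ 2) = fun _ => (0 : ℝ) := by
        funext k
        rw [ev_neg f hτ, norm_zero, zero_pow two_ne_zero]
      show Summable fun k => ‖ev f τ x k‖ ^ 2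
      rw [h1]
      exact summable_zero
  · have h1 := hd f τ x k
    rw [hdf, ev_zero, if_pos hτ] at h1
    exact h1.symm

end Pool.Agent.H19.LI

end

section

/-!
# Project SR, module M1: the coboundary of the cubical cup products
-/

set_option autoImplicit false
set_option linter.unusedSectionVars false

open Finset

namespace Pool.Agent.H19.SR

variable {V : Type} [DecidableEq V] {R : Type} [CommRing R]

/-- a sum over the subsets of a set, one element apart -/
private theorem sum_pow_erase {M : Type} [AddCommMonoid M] {S : Finset V} {v : V} (hv : v ∈ S)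
    (G : Finset V → M) :
    ∑ D ∈ S.powerset, G D = ∑ D ∈ (S.erase v).powerset, (G D + G (insert v D)) := by
  have h := Finset.sum_powerset_insert (Finset.notMem_erase v S) G
  rw [Finset.insert_erase hv] at h
  rw [h, Finset.sum_add_distrib]

private theorem swap_in {M : Type} [AddCommMonoid M] (S : Finset V) (F : Finset V → V → M) :
    ∑ D ∈ S.powerset, ∑ v ∈ D, F D v =
      ∑ v ∈ S, ∑ D ∈ (S.erase v).powerset, F (insert v D) v := by
  have h1 : ∀ D ∈ S.powerset, ∑ v ∈ D, F D v = ∑ v ∈ S, if v ∈ D then F D v else 0 := by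
    intro D hD
    rw [← Finset.sum_filter]
    congr 1
    ext v
    rw [Finset.mem_filter]
    exact ⟨fun h => ⟨Finset.mem_powerset.1 hD h, h⟩, fun h => h.2⟩
  rw [Finset.sum_congr rfl h1, Finset.sum_comm]
  refine Finset.sum_congr rfl fun v hv => ?_
  rw [sum_pow_erase hv]
  refine Finset.sum_congr rfl fun D hD => ?_
  have h2 : v ∉ D := fun h => Finset.notMem_erase v S (Finset.mem_powerset.1 hD h)
  rw [if_neg h2, if_pos (Finset.mem_insert_self v D), zero_add]

private theorem swap_out {M : Type} [AddCommMonoid M] (S : Finset V) (F : Finset V → V → M) :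
    ∑ D ∈ S.powerset, ∑ v ∈ S \ D, F D v =
      ∑ v ∈ S, ∑ D ∈ (S.erase v).powerset, F D v := by
  have h1 : ∀ D ∈ S.powerset, ∑ v ∈ S \ D, F D v = ∑ v ∈ S, if v ∈ D then 0 else F D v := by
    intro D _
    have h3 : ∀ v ∈ S, (if v ∈ D then 0 else F D v) = if v ∉ D then F D v else 0 := by
      intro v _
      by_cases h : v ∈ D
      · simp [h]
      · simp [h]
    rw [Finset.sum_congr rfl h3, ← Finset.sum_filter]
    congr 1
    ext v
    rw [Finset.mem_filter, Finset.mem_sdiff]
  rw [Finset.sum_congr rfl h1, Finset.sum_comm]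
  refine Finset.sum_congr rfl fun v hv => ?_
  rw [sum_pow_erase hv]
  refine Finset.sum_congr rfl fun D hD => ?_
  have h2 : v ∉ D := fun h => Finset.notMem_erase v S (Finset.mem_powerset.1 hD h)
  rw [if_neg h2, if_pos (Finset.mem_insert_self v D), add_zero]

/-- the pairs of a set with `m` elements and an element outside it -/
private theorem swap_card {M : Type} [AddCommMonoid M] (B : Finset V) (m : ℕ)
    (F : Finset V → V → M) :
    ∑ v ∈ B, ∑ A ∈ (B.erase v).powersetCard m, F A v =
      ∑ A ∈ B.powersetCard m, ∑ v ∈ B \ A, F A v := by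
  rw [Finset.sum_sigma', Finset.sum_sigma']
  refine Finset.sum_bij' (fun p _ => ⟨p.2, p.1⟩) (fun p _ => ⟨p.2, p.1⟩) ?_ ?_ ?_ ?_ ?_
  · rintro ⟨w, A⟩ hp
    rw [Finset.mem_sigma, Finset.mem_powersetCard] at hp
    obtain ⟨h1, h2, h3⟩ := hp
    rw [Finset.mem_sigma, Finset.mem_powersetCard, Finset.mem_sdiff]
    refine ⟨⟨h2.trans (Finset.erase_subset _ _), h3⟩, h1, fun h4 => ?_⟩
    exact Finset.notMem_erase _ _ (h2 h4)
  · rintro ⟨A, w⟩ hp
    rw [Finset.mem_sigma, Finset.mem_powersetCard, Finset.mem_sdiff] at hp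
    obtain ⟨⟨h1, h2⟩, h3, h4⟩ := hp
    rw [Finset.mem_sigma, Finset.mem_powersetCard]
    refine ⟨h3, fun v hv => Finset.mem_erase.2 ⟨?_, h1 hv⟩, h2⟩
    rintro rfl
    exact h4 hv
  · rintro ⟨w, A⟩ _
    rfl
  · rintro ⟨A, w⟩ _
    rfl
  · rintro ⟨w, A⟩ _
    rfl

/-- a sum over the pairs of a set with `m + 1` elements and an element of it -/
private theorem swap_pairs {M : Type} [AddCommMonoid M] (s : Finset V) (m : ℕ)
    (F : Finset V → V → M) :
    ∑ B ∈ s.powersetCard (m + 1), ∑ w ∈ B, F B w =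
      ∑ C ∈ s.powersetCard m, ∑ w ∈ s \ C, F (insert w C) w := by
  rw [Finset.sum_sigma', Finset.sum_sigma']
  refine Finset.sum_bij' (fun p _ => ⟨p.1.erase p.2, p.2⟩) (fun p _ => ⟨insert p.2 p.1, p.2⟩)
    ?_ ?_ ?_ ?_ ?_
  · rintro ⟨B, w⟩ hp
    rw [Finset.mem_sigma, Finset.mem_powersetCard] at hp
    obtain ⟨⟨h1, h2⟩, h3⟩ := hp
    rw [Finset.mem_sigma, Finset.mem_powersetCard, Finset.mem_sdiff]
    refine ⟨⟨(Finset.erase_subset _ _).trans h1, ?_⟩, h1 h3, Finset.notMem_erase _ _⟩
    show (B.erase w).card = m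
    rw [Finset.card_erase_of_mem h3]
    have : B.card = m + 1 := h2
    omega
  · rintro ⟨C, w⟩ hp
    rw [Finset.mem_sigma, Finset.mem_powersetCard, Finset.mem_sdiff] at hp
    obtain ⟨⟨h1, h2⟩, h3, h4⟩ := hp
    rw [Finset.mem_sigma, Finset.mem_powersetCard]
    refine ⟨⟨Finset.insert_subset h3 h1, ?_⟩, Finset.mem_insert_self _ _⟩
    show (insert w C).card = m + 1
    rw [Finset.card_insert_of_notMem h4]
    have : C.card = m := h2
    omega
  · rintro ⟨B, w⟩ hp
    rw [Finset.mem_sigma] at hp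
    show (⟨insert w (B.erase w), w⟩ : Σ _ : Finset V, V) = ⟨B, w⟩
    rw [Finset.insert_erase hp.2]
  · rintro ⟨C, w⟩ hp
    rw [Finset.mem_sigma, Finset.mem_sdiff] at hp
    show (⟨(insert w C).erase w, w⟩ : Σ _ : Finset V, V) = ⟨C, w⟩
    rw [Finset.erase_insert hp.2.2]
  · rintro ⟨B, w⟩ hp
    rw [Finset.mem_sigma] at hp
    show F B w = F (insert w (B.erase w)) w
    rw [Finset.insert_erase hp.2]

private theorem add_self_two [CharP R 2] (a : R) : a + a = 0 := CharTwo.add_self_eq_zero a

/-- the set of the first factor -/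
private def cA (ν : V → ℕ) (B C M D : Finset V) : Finset V :=
  C ∪ ((B \ (M ∪ D)).filter fun v => ¬ Even (bel ν M v))

/-- the set of the second factor -/
private def cB (ν : V → ℕ) (C M D : Finset V) : Finset V :=
  C ∪ D.filter fun v => Even (bel ν M v)

/-- the term of `M`, `D` -/
private def tm (ν : V → ℕ) (x y : Finset V → Finset V → R) (B C M D : Finset V) : R :=
  x (M ∪ D) (cA ν B C M D) * y (B \ D) (cB ν C M D)

private theorem cupc_eq (ν : V → ℕ) (m : ℕ) (x y : Finset V → Finset V → R) (B C : Finset V) :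
    cupc ν m x y B C = ∑ M ∈ B.powersetCard m, ∑ D ∈ (B \ M).powerset, tm ν x y B C M D := rfl

/-- the letter `v` is removed from the first factor -/
private def F1 (ν : V → ℕ) (x y : Finset V → Finset V → R) (B C M D : Finset V) (v : V) : R :=
  (x ((M ∪ D).erase v) (cA ν B C M D) + x ((M ∪ D).erase v) (insert v (cA ν B C M D))) *
    y (B \ D) (cB ν C M D)

/-- the letter `v` is removed from the second factor -/
private def F2 (ν : V → ℕ) (x y : Finset V → Finset V → R) (B C M D : Finset V) (v : V) : R :=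
  x (M ∪ D) (cA ν B C M D) *
    (y ((B \ D).erase v) (cB ν C M D) + y ((B \ D).erase v) (insert v (cB ν C M D)))

/-- the terms where the removed letter is not in `M` -/
private theorem out_term [CharP R 2] (ν : V → ℕ) (x y : Finset V → Finset V → R)
    {B C M D : Finset V} {v : V} (hB : v ∈ B) (hM : v ∉ M) (hD : v ∉ D) :
    F1 ν x y B C M (insert v D) v + F2 ν x y B C M D v =
      tm ν x y (B.erase v) C M D + tm ν x y (B.erase v) (insert v C) M D := by
  have e1 : (M ∪ insert v D).erase v = M ∪ D := by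
    ext u
    simp only [Finset.mem_erase, Finset.mem_union, Finset.mem_insert]
    constructor
    · rintro ⟨h1, h2 | h2 | h2⟩
      · exact Or.inl h2
      · exact absurd h2 h1
      · exact Or.inr h2
    · rintro (h | h)
      · exact ⟨fun h1 => hM (h1 ▸ h), Or.inl h⟩
      · exact ⟨fun h1 => hD (h1 ▸ h), Or.inr (Or.inr h)⟩
  have e2 : B \ (M ∪ insert v D) = (B.erase v) \ (M ∪ D) := by
    ext u
    simp only [Finset.mem_erase, Finset.mem_union, Finset.mem_insert, Finset.mem_sdiff]
    tauto
  have e3 : B \ insert v D = (B.erase v) \ D := by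
    ext u
    simp only [Finset.mem_erase, Finset.mem_insert, Finset.mem_sdiff]
    tauto
  have e4 : (B \ D).erase v = (B.erase v) \ D := by
    ext u
    simp only [Finset.mem_erase, Finset.mem_sdiff]
    tauto
  have e5 : B \ (M ∪ D) = insert v ((B.erase v) \ (M ∪ D)) := by
    ext u
    simp only [Finset.mem_erase, Finset.mem_union, Finset.mem_insert, Finset.mem_sdiff]
    constructor
    · rintro ⟨h1, h2⟩
      by_cases h3 : u = v
      · exact Or.inl h3
      · exact Or.inr ⟨⟨h3, h1⟩, h2⟩
    · rintro (h | h)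
      · subst h
        exact ⟨hB, fun h => h.elim hM hD⟩
      · exact ⟨h.1.2, h.2⟩
  have a1 : cA ν B C M (insert v D) = cA ν (B.erase v) C M D := by
    unfold cA
    rw [e2]
  have a2 : cA ν (B.erase v) (insert v C) M D = insert v (cA ν (B.erase v) C M D) := by
    unfold cA
    rw [Finset.insert_union]
  have b2 : cB ν (insert v C) M D = insert v (cB ν C M D) := by
    unfold cB
    rw [Finset.insert_union]
  unfold F1 F2 tm
  rw [e1, e3, e4, a1, a2, b2]
  by_cases he : Even (bel ν M v)
  · have a3 : cA ν B C M D = cA ν (B.erase v) C M D := by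
      unfold cA
      rw [e5, Finset.filter_insert, if_neg (not_not.2 he)]
    have b1 : cB ν C M (insert v D) = insert v (cB ν C M D) := by
      unfold cB
      rw [Finset.filter_insert, if_pos he, Finset.union_insert]
    rw [a3, b1]
    have h := add_self_two (x (M ∪ D) (cA ν (B.erase v) C M D) *
      y (B.erase v \ D) (insert v (cB ν C M D)))
    linear_combination h
  · have a3 : cA ν B C M D = insert v (cA ν (B.erase v) C M D) := by
      unfold cA
      rw [e5, Finset.filter_insert, if_pos he, Finset.union_insert]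
    have b1 : cB ν C M (insert v D) = cB ν C M D := by
      unfold cB
      rw [Finset.filter_insert, if_neg he]
    rw [a3, b1]
    have h := add_self_two (x (M ∪ D) (insert v (cA ν (B.erase v) C M D)) *
      y (B.erase v \ D) (cB ν C M D))
    linear_combination h

/-- the terms of one set `M` -/
private theorem expand [CharP R 2] (ν : V → ℕ) (x y : Finset V → Finset V → R)
    {B C M : Finset V} (hM : M ⊆ B) :
    ∑ D ∈ (B \ M).powerset, tm ν (cob x) y B C M D +
        ∑ D ∈ (B \ M).powerset, tm ν x (cob y) B C M D =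
      ∑ v ∈ B \ M, ∑ D ∈ ((B.erase v) \ M).powerset,
          (tm ν x y (B.erase v) C M D + tm ν x y (B.erase v) (insert v C) M D) +
        ∑ v ∈ M, ∑ D ∈ (B \ M).powerset, (F1 ν x y B C M D v + F2 ν x y B C M D v) := by
  have h1 : ∀ D ∈ (B \ M).powerset, tm ν (cob x) y B C M D =
      ∑ v ∈ D, F1 ν x y B C M D v + ∑ v ∈ M, F1 ν x y B C M D v := by
    intro D hD
    have hd : Disjoint D M := by
      rw [Finset.disjoint_left]
      intro u hu hu'
      exact (Finset.mem_sdiff.1 (Finset.mem_powerset.1 hD hu)).2 hu'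
    rw [← Finset.sum_union hd, Finset.union_comm D M]
    unfold tm F1
    rw [← Finset.sum_mul]
    rfl
  have h2 : ∀ D ∈ (B \ M).powerset, tm ν x (cob y) B C M D =
      ∑ v ∈ (B \ M) \ D, F2 ν x y B C M D v + ∑ v ∈ M, F2 ν x y B C M D v := by
    intro D hD
    have hd : Disjoint ((B \ M) \ D) M := by
      rw [Finset.disjoint_left]
      intro u hu hu'
      exact (Finset.mem_sdiff.1 (Finset.mem_sdiff.1 hu).1).2 hu'
    have he : (B \ M) \ D ∪ M = B \ D := by
      ext u
      simp only [Finset.mem_union, Finset.mem_sdiff]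
      constructor
      · rintro (h | h)
        · exact ⟨h.1.1, h.2⟩
        · exact ⟨hM h, fun h3 => (Finset.mem_sdiff.1 (Finset.mem_powerset.1 hD h3)).2 h⟩
      · rintro ⟨h3, h4⟩
        by_cases h5 : u ∈ M
        · exact Or.inr h5
        · exact Or.inl ⟨⟨h3, h5⟩, h4⟩
    rw [← Finset.sum_union hd, he]
    unfold tm F2
    rw [← Finset.mul_sum]
    rfl
  rw [Finset.sum_congr rfl h1, Finset.sum_congr rfl h2, Finset.sum_add_distrib,
    Finset.sum_add_distrib, swap_in (B \ M) fun D v => F1 ν x y B C M D v,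
    swap_out (B \ M) fun D v => F2 ν x y B C M D v]
  have h3 : ∑ v ∈ B \ M, ∑ D ∈ ((B.erase v) \ M).powerset,
      (tm ν x y (B.erase v) C M D + tm ν x y (B.erase v) (insert v C) M D) =
      ∑ v ∈ B \ M, ∑ D ∈ ((B \ M).erase v).powerset, F1 ν x y B C M (insert v D) v +
        ∑ v ∈ B \ M, ∑ D ∈ ((B \ M).erase v).powerset, F2 ν x y B C M D v := by
    rw [← Finset.sum_add_distrib]
    refine Finset.sum_congr rfl fun v hv => ?_
    have h4 : (B.erase v) \ M = (B \ M).erase v := by
      ext u
      simp only [Finset.mem_erase, Finset.mem_sdiff]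
      tauto
    rw [h4, ← Finset.sum_add_distrib]
    refine Finset.sum_congr rfl fun D hD => ?_
    rw [out_term ν x y (Finset.mem_sdiff.1 hv).1 (Finset.mem_sdiff.1 hv).2 fun h =>
      Finset.notMem_erase v _ (Finset.mem_powerset.1 hD h)]
  have h5 : ∑ v ∈ M, ∑ D ∈ (B \ M).powerset, (F1 ν x y B C M D v + F2 ν x y B C M D v) =
      ∑ D ∈ (B \ M).powerset, ∑ v ∈ M, F1 ν x y B C M D v +
        ∑ D ∈ (B \ M).powerset, ∑ v ∈ M, F2 ν x y B C M D v := by
    rw [Finset.sum_comm, ← Finset.sum_add_distrib]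
    refine Finset.sum_congr rfl fun D _ => ?_
    rw [Finset.sum_add_distrib]
  rw [h3, h5]
  ring

/-- the left side -/
private theorem lhs_eq (ν : V → ℕ) (m : ℕ) (x y : Finset V → Finset V → R) (B C : Finset V) :
    cob (cupc ν m x y) B C = ∑ M ∈ B.powersetCard m, ∑ v ∈ B \ M,
      ∑ D ∈ ((B.erase v) \ M).powerset,
        (tm ν x y (B.erase v) C M D + tm ν x y (B.erase v) (insert v C) M D) := by
  rw [← swap_card B m fun M v => ∑ D ∈ ((B.erase v) \ M).powerset,
        (tm ν x y (B.erase v) C M D + tm ν x y (B.erase v) (insert v C) M D)]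
  unfold cob
  refine Finset.sum_congr rfl fun v _ => ?_
  rw [cupc_eq, cupc_eq, ← Finset.sum_add_distrib]
  refine Finset.sum_congr rfl fun M _ => ?_
  rw [← Finset.sum_add_distrib]

/-- the sum of the two products with a coboundary -/
private theorem rhs_eq [CharP R 2] (ν : V → ℕ) (m : ℕ) (x y : Finset V → Finset V → R)
    (B C : Finset V) :
    cupc ν m (cob x) y B C + cupc ν m x (cob y) B C = cob (cupc ν m x y) B C +
      ∑ M ∈ B.powersetCard m, ∑ v ∈ M, ∑ D ∈ (B \ M).powerset,
        (F1 ν x y B C M D v + F2 ν x y B C M D v) := by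
  rw [lhs_eq, cupc_eq, cupc_eq, ← Finset.sum_add_distrib, ← Finset.sum_add_distrib]
  refine Finset.sum_congr rfl fun M hM => ?_
  exact expand ν x y (Finset.mem_powersetCard.1 hM).1

/-! ### The terms with the removed letter in `M` -/

private theorem bel_insert (ν : V → ℕ) {M : Finset V} {v : V} (hv : v ∉ M) (u : V) :
    bel ν (insert v M) u = bel ν M u + if ν v < ν u then 1 else 0 := by
  unfold bel
  rw [Finset.filter_insert]
  split_ifs with h1
  · rw [Finset.card_insert_of_notMem fun h2 => hv (Finset.mem_filter.1 h2).1]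
  · rfl

private theorem par (ν : V → ℕ) (hν : Function.Injective ν) {M : Finset V} {v : V} (hv : v ∉ M)
    {u : V} (hu : u ≠ v) {k : ℕ} (hk : k = ν v ∨ k = ν v + 1) :
    Even (bel ν (insert v M) u) ↔ (Even (bel ν M u) ↔ ¬ k ≤ ν u) := by
  have hne : ν u ≠ ν v := fun h => hu (hν h)
  rw [bel_insert ν hv]
  by_cases h1 : ν v < ν u
  · have h2 : k ≤ ν u := by rcases hk with rfl | rfl <;> omega
    simp only [h1, if_true, h2, not_true, iff_false, Nat.even_add_one]
  · have h2 : ¬ k ≤ ν u := by rcases hk with rfl | rfl <;> omega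
    simp only [h1, if_false, h2, not_false_eq_true, iff_true, add_zero]

/-- the sets of the telescoping function -/
private def kA (ν : V → ℕ) (B C M D : Finset V) (k : ℕ) : Finset V :=
  C ∪ ((B \ (M ∪ D)).filter fun v => (Even (bel ν M v) ↔ k ≤ ν v))

private def kB (ν : V → ℕ) (C M D : Finset V) (k : ℕ) : Finset V :=
  C ∪ D.filter fun v => (Even (bel ν M v) ↔ ¬ k ≤ ν v)

/-- the telescoping function -/
private def tel (ν : V → ℕ) (x y : Finset V → Finset V → R) (B C M D : Finset V) (k : ℕ) : R :=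
  x (M ∪ D) (kA ν B C M D k) * y (B \ D) (kB ν C M D k)

private theorem tel_step (ν : V → ℕ) (x y : Finset V → Finset V → R) {B C M D : Finset V} (k : ℕ)
    (hD : D ⊆ B \ M) (hk : ∀ v ∈ B \ M, ν v ≠ k) :
    tel ν x y B C M D k = tel ν x y B C M D (k + 1) := by
  have h1 : kA ν B C M D k = kA ν B C M D (k + 1) := by
    unfold kA
    congr 1
    refine Finset.filter_congr fun v hv => ?_
    rw [Finset.mem_sdiff, Finset.mem_union] at hv
    have h2 := hk v (Finset.mem_sdiff.2 ⟨hv.1, fun h => hv.2 (Or.inl h)⟩)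
    have h3 : k ≤ ν v ↔ k + 1 ≤ ν v := by omega
    rw [h3]
  have h1' : kB ν C M D k = kB ν C M D (k + 1) := by
    unfold kB
    congr 1
    refine Finset.filter_congr fun v hv => ?_
    have h2 := hk v (hD hv)
    have h3 : k ≤ ν v ↔ k + 1 ≤ ν v := by omega
    rw [h3]
  unfold tel
  rw [h1, h1']

private theorem sum_range_tel [CharP R 2] (g : ℕ → R) (N : ℕ) :
    ∑ k ∈ Finset.range N, (g k + g (k + 1)) = g 0 + g N := by
  induction N with
  | zero => simp [add_self_two]
  | succ N ih =>
    rw [Finset.sum_range_succ, ih]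
    have := add_self_two (g N)
    calc g 0 + g N + (g N + g (N + 1)) = g 0 + (g N + g N) + g (N + 1) := by ring
      _ = g 0 + g (N + 1) := by rw [this, add_zero]

/-- the telescoping sum -/
private theorem sum_tel [CharP R 2] (ν : V → ℕ) (hν : Function.Injective ν)
    (x y : Finset V → Finset V → R) {B C M D : Finset V} (hD : D ⊆ B \ M) (N : ℕ)
    (hN : ∀ v ∈ B \ M, ν v < N) :
    ∑ w ∈ B \ M, (tel ν x y B C M D (ν w) + tel ν x y B C M D (ν w + 1)) =
      tel ν x y B C M D 0 + tel ν x y B C M D N := by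
  rw [← sum_range_tel (tel ν x y B C M D) N]
  have h1 : ∑ w ∈ B \ M, (tel ν x y B C M D (ν w) + tel ν x y B C M D (ν w + 1)) =
      ∑ k ∈ (B \ M).image ν, (tel ν x y B C M D k + tel ν x y B C M D (k + 1)) := by
    rw [Finset.sum_image]
    intro a _ b _ hab
    exact hν hab
  rw [h1]
  refine Finset.sum_subset ?_ ?_
  · intro k hk
    obtain ⟨v, hv, rfl⟩ := Finset.mem_image.1 hk
    exact Finset.mem_range.2 (hN v hv)
  · intro k _ hk
    rw [← tel_step ν x y k hD, add_self_two]
    intro v hv hvk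
    exact hk (Finset.mem_image.2 ⟨v, hv, hvk⟩)

/-- a letter is moved out of the first factor -/
private theorem in_term1 [CharP R 2] (ν : V → ℕ) (hν : Function.Injective ν)
    (x y : Finset V → Finset V → R) {B C M D : Finset V} {v : V} (hB : v ∈ B) (hM : v ∉ M)
    (hD : v ∉ D) :
    F1 ν x y B C (insert v M) D v = tel ν x y B C M D (ν v) + tel ν x y B C M D (ν v + 1) := by
  have e1 : (insert v M ∪ D).erase v = M ∪ D := by
    ext u
    simp only [Finset.mem_erase, Finset.mem_union, Finset.mem_insert]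
    constructor
    · rintro ⟨h1, (h2 | h2) | h2⟩
      · exact absurd h2 h1
      · exact Or.inl h2
      · exact Or.inr h2
    · rintro (h | h)
      · exact ⟨fun h1 => hM (h1 ▸ h), Or.inl (Or.inr h)⟩
      · exact ⟨fun h1 => hD (h1 ▸ h), Or.inr h⟩
  have e2 : B \ (M ∪ D) = insert v (B \ (insert v M ∪ D)) := by
    ext u
    simp only [Finset.mem_union, Finset.mem_insert, Finset.mem_sdiff]
    constructor
    · rintro ⟨h1, h2⟩
      by_cases h3 : u = v
      · exact Or.inl h3
      · exact Or.inr ⟨h1, fun h4 => h4.elim (fun h5 => h5.elim h3 fun h6 => h2 (Or.inl h6))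
          fun h6 => h2 (Or.inr h6)⟩
    · rintro (h | h)
      · subst h
        exact ⟨hB, fun h => h.elim hM hD⟩
      · exact ⟨h.1, fun h4 => h4.elim (fun h5 => h.2 (Or.inl (Or.inr h5)))
          fun h5 => h.2 (Or.inr h5)⟩
  have f1 : ∀ k, (k = ν v ∨ k = ν v + 1) →
      (B \ (insert v M ∪ D)).filter (fun u => (Even (bel ν M u) ↔ k ≤ ν u)) =
      (B \ (insert v M ∪ D)).filter fun u => ¬ Even (bel ν (insert v M) u) := by
    intro k hk
    refine Finset.filter_congr fun u hu => ?_
    have hu' : u ≠ v := by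
      rintro rfl
      exact (Finset.mem_sdiff.1 hu).2 (Finset.mem_union_left _ (Finset.mem_insert_self _ _))
    rw [par ν hν hM hu' hk]
    tauto
  have f2 : ∀ k, (k = ν v ∨ k = ν v + 1) → kB ν C M D k = cB ν C (insert v M) D := by
    intro k hk
    unfold kB cB
    congr 1
    refine Finset.filter_congr fun u hu => ?_
    have hu' : u ≠ v := by
      rintro rfl
      exact hD hu
    rw [par ν hν hM hu' hk]
  unfold F1 tel
  rw [e1, f2 _ (Or.inl rfl), f2 _ (Or.inr rfl)]
  by_cases he : Even (bel ν M v)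
  · have g1 : kA ν B C M D (ν v) = insert v (cA ν B C (insert v M) D) := by
      unfold kA cA
      rw [e2, Finset.filter_insert, if_pos (by simp [he]), f1 _ (Or.inl rfl), Finset.union_insert]
    have g2 : kA ν B C M D (ν v + 1) = cA ν B C (insert v M) D := by
      unfold kA cA
      rw [e2, Finset.filter_insert, if_neg (by simp [he]), f1 _ (Or.inr rfl)]
    rw [g1, g2]
    ring
  · have g1 : kA ν B C M D (ν v) = cA ν B C (insert v M) D := by
      unfold kA cA
      rw [e2, Finset.filter_insert, if_neg (by simp [he]), f1 _ (Or.inl rfl)]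
    have g2 : kA ν B C M D (ν v + 1) = insert v (cA ν B C (insert v M) D) := by
      unfold kA cA
      rw [e2, Finset.filter_insert, if_pos (by simp [he]), f1 _ (Or.inr rfl), Finset.union_insert]
    rw [g1, g2]
    ring

/-- a letter is moved out of the second factor -/
private theorem in_term2 [CharP R 2] (ν : V → ℕ) (hν : Function.Injective ν)
    (x y : Finset V → Finset V → R) {B C M D : Finset V} {v : V} (hB : v ∈ B) (hM : v ∉ M)
    (hD : v ∉ D) :
    F2 ν x y B C (insert v M) D v =
      tel ν x y B C M (insert v D) (ν v) + tel ν x y B C M (insert v D) (ν v + 1) := by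
  have e1 : insert v M ∪ D = M ∪ insert v D := by
    ext u
    simp only [Finset.mem_union, Finset.mem_insert]
    tauto
  have e2 : (B \ D).erase v = B \ insert v D := by
    ext u
    simp only [Finset.mem_erase, Finset.mem_insert, Finset.mem_sdiff]
    tauto
  have f1 : ∀ k, (k = ν v ∨ k = ν v + 1) →
      kA ν B C M (insert v D) k = cA ν B C (insert v M) D := by
    intro k hk
    unfold kA cA
    rw [e1]
    congr 1
    refine Finset.filter_congr fun u hu => ?_
    have hu' : u ≠ v := by
      rintro rfl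
      exact (Finset.mem_sdiff.1 hu).2 (Finset.mem_union_right _ (Finset.mem_insert_self _ _))
    rw [par ν hν hM hu' hk]
    tauto
  have f2 : ∀ k, (k = ν v ∨ k = ν v + 1) →
      D.filter (fun u => (Even (bel ν M u) ↔ ¬ k ≤ ν u)) =
      D.filter fun u => Even (bel ν (insert v M) u) := by
    intro k hk
    refine Finset.filter_congr fun u hu => ?_
    have hu' : u ≠ v := by
      rintro rfl
      exact hD hu
    rw [par ν hν hM hu' hk]
  unfold F2 tel
  rw [e1, e2, f1 _ (Or.inl rfl), f1 _ (Or.inr rfl)]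
  by_cases he : Even (bel ν M v)
  · have g1 : kB ν C M (insert v D) (ν v) = cB ν C (insert v M) D := by
      unfold kB cB
      rw [Finset.filter_insert, if_neg (by simp [he]), f2 _ (Or.inl rfl)]
    have g2 : kB ν C M (insert v D) (ν v + 1) = insert v (cB ν C (insert v M) D) := by
      unfold kB cB
      rw [Finset.filter_insert, if_pos (by simp [he]), f2 _ (Or.inr rfl), Finset.union_insert]
    rw [g1, g2]
    ring
  · have g1 : kB ν C M (insert v D) (ν v) = insert v (cB ν C (insert v M) D) := by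
      unfold kB cB
      rw [Finset.filter_insert, if_pos (by simp [he]), f2 _ (Or.inl rfl), Finset.union_insert]
    have g2 : kB ν C M (insert v D) (ν v + 1) = cB ν C (insert v M) D := by
      unfold kB cB
      rw [Finset.filter_insert, if_neg (by simp [he]), f2 _ (Or.inr rfl)]
    rw [g1, g2]
    ring

/-- the two ends of the telescoping sum -/
private theorem tel_top (ν : V → ℕ) (x y : Finset V → Finset V → R) {B C M D : Finset V}
    (hD : D ⊆ B \ M) {N : ℕ} (hN : ∀ v ∈ B \ M, ν v < N) :
    tel ν x y B C M D N = tm ν x y B C M D := by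
  have h1 : kA ν B C M D N = cA ν B C M D := by
    unfold kA cA
    congr 1
    refine Finset.filter_congr fun v hv => ?_
    rw [Finset.mem_sdiff, Finset.mem_union] at hv
    have h2 := hN v (Finset.mem_sdiff.2 ⟨hv.1, fun h => hv.2 (Or.inl h)⟩)
    have h3 : ¬ N ≤ ν v := by omega
    simp only [h3, iff_false]
  have h1' : kB ν C M D N = cB ν C M D := by
    unfold kB cB
    congr 1
    refine Finset.filter_congr fun v hv => ?_
    have h2 := hN v (hD hv)
    have h3 : ¬ N ≤ ν v := by omega
    simp only [h3, not_false_eq_true, iff_true]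
  unfold tel tm
  rw [h1, h1']

private theorem tel_zero (ν : V → ℕ) (x y : Finset V → Finset V → R) {B C M D : Finset V}
    (hM : M ⊆ B) (hD : D ⊆ B \ M) :
    tel ν x y B C M D 0 = tm ν y x B C M ((B \ M) \ D) := by
  have hDM : ∀ u ∈ D, u ∈ B ∧ u ∉ M := fun u hu => Finset.mem_sdiff.1 (hD hu)
  have e1 : M ∪ (B \ M) \ D = B \ D := by
    ext u
    simp only [Finset.mem_union, Finset.mem_sdiff]
    constructor
    · rintro (h | h)
      · exact ⟨hM h, fun h3 => (hDM u h3).2 h⟩
      · exact ⟨h.1.1, h.2⟩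
    · rintro ⟨h3, h4⟩
      by_cases h5 : u ∈ M
      · exact Or.inl h5
      · exact Or.inr ⟨⟨h3, h5⟩, h4⟩
  have e2 : B \ (B \ D) = D := by
    rw [Finset.sdiff_sdiff_eq_self]
    exact fun u hu => (hDM u hu).1
  have e3 : B \ ((B \ M) \ D) = M ∪ D := by
    ext u
    simp only [Finset.mem_union, Finset.mem_sdiff]
    constructor
    · rintro ⟨h1, h2⟩
      by_contra h3
      exact h2 ⟨⟨h1, fun h4 => h3 (Or.inl h4)⟩, fun h4 => h3 (Or.inr h4)⟩
    · rintro (h | h)
      · exact ⟨hM h, fun h2 => h2.1.2 h⟩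
      · exact ⟨(hDM u h).1, fun h2 => h2.2 h⟩
  have e4 : B \ (M ∪ D) = (B \ M) \ D := by
    ext u
    simp only [Finset.mem_union, Finset.mem_sdiff]
    tauto
  have h1 : kA ν B C M D 0 = cB ν C M ((B \ M) \ D) := by
    unfold kA cB
    rw [e4]
    congr 1
    refine Finset.filter_congr fun v _ => ?_
    simp only [Nat.zero_le, iff_true]
  have h2 : kB ν C M D 0 = cA ν B C M ((B \ M) \ D) := by
    unfold kB cA
    rw [e1, e2]
    congr 1
    refine Finset.filter_congr fun v _ => ?_
    simp only [Nat.zero_le, not_true, iff_false]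
  unfold tel tm
  rw [h1, h2, e1, e3, mul_comm]

/-- the terms of one set `M` with `m` letters -/
private theorem inner [CharP R 2] (ν : V → ℕ) (hν : Function.Injective ν)
    (x y : Finset V → Finset V → R) {B C M : Finset V} (hM : M ⊆ B) :
    ∑ v ∈ B \ M, ∑ D ∈ (B \ insert v M).powerset,
        (F1 ν x y B C (insert v M) D v + F2 ν x y B C (insert v M) D v) =
      ∑ D ∈ (B \ M).powerset, tm ν x y B C M D + ∑ D ∈ (B \ M).powerset, tm ν y x B C M D := by
  obtain ⟨N, hN⟩ : ∃ N, ∀ v ∈ B \ M, ν v < N :=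
    ⟨(B \ M).sup ν + 1, fun v hv => Nat.lt_succ_of_le (Finset.le_sup hv)⟩
  have h1 : ∀ v ∈ B \ M, ∑ D ∈ (B \ insert v M).powerset,
      (F1 ν x y B C (insert v M) D v + F2 ν x y B C (insert v M) D v) =
      ∑ D ∈ (B \ M).powerset, (tel ν x y B C M D (ν v) + tel ν x y B C M D (ν v + 1)) := by
    intro v hv
    have h2 : B \ insert v M = (B \ M).erase v := by
      ext u
      simp only [Finset.mem_erase, Finset.mem_insert, Finset.mem_sdiff]
      tauto
    rw [sum_pow_erase hv, h2]
    refine Finset.sum_congr rfl fun D hD => ?_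
    have h3 : v ∉ D := fun h => Finset.notMem_erase v _ (Finset.mem_powerset.1 hD h)
    rw [in_term1 ν hν x y (Finset.mem_sdiff.1 hv).1 (Finset.mem_sdiff.1 hv).2 h3,
      in_term2 ν hν x y (Finset.mem_sdiff.1 hv).1 (Finset.mem_sdiff.1 hv).2 h3]
  rw [Finset.sum_congr rfl h1, Finset.sum_comm]
  have h4 : ∀ D ∈ (B \ M).powerset,
      ∑ v ∈ B \ M, (tel ν x y B C M D (ν v) + tel ν x y B C M D (ν v + 1)) =
      tm ν x y B C M D + tm ν y x B C M ((B \ M) \ D) := by
    intro D hD
    rw [sum_tel ν hν x y (Finset.mem_powerset.1 hD) N hN, tel_top ν x y (Finset.mem_powerset.1 hD) hN,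
      tel_zero ν x y hM (Finset.mem_powerset.1 hD), add_comm]
  rw [Finset.sum_congr rfl h4, Finset.sum_add_distrib]
  congr 1
  refine Finset.sum_bij' (fun D _ => (B \ M) \ D) (fun D _ => (B \ M) \ D) ?_ ?_ ?_ ?_ ?_
  · intro D _
    exact Finset.mem_powerset.2 Finset.sdiff_subset
  · intro D _
    exact Finset.mem_powerset.2 Finset.sdiff_subset
  · intro D hD
    exact Finset.sdiff_sdiff_eq_self (Finset.mem_powerset.1 hD)
  · intro D hD
    exact Finset.sdiff_sdiff_eq_self (Finset.mem_powerset.1 hD)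
  · intro D _
    rfl

/-- **The coboundary of the cubical cup products** (the cubical version of `Pool.Agent.H37.TM.cob_cup`; same method).
The identity is formal (no disjointness of `B` and `C` is needed).

For `M ∈ powersetCard (m + 1)`, `D ⊆ B \ M` write `B1 = M ∪ D`, `B2 = B \ D`, `C1 = C ∪ {v ∈ B \ B1 | odd}`,
`C2 = C ∪ {v ∈ D | even}` (parity of `bel ν M v`).
* Expand `cupc (m+1) (cob x) y + cupc (m+1) x (cob y)`: a letter `v ∈ D` is removed from `B1`
  (`x (B1 - v) C1 + x (B1 - v) (insert v C1)`), a letter `v ∈ B \ B1` is removed from `B2`, a letter `v ∈ M` from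
  `B1` or from `B2`.
* For `v ∉ M` the pairs `(M, D')` on `B.erase v` (`D' = D - v`, resp. `D' = D`) give four terms `x (B1) (C1 ± v) *
  y (B2) (C2 ± v)`; two cancel and the other two are the terms of `cob (cupc (m+1) x y)`
  (`C1, C2` both without `v` and both with `v`), for both parities of `v`.
* The terms with `v ∈ M`, `M' = M - v` (`m` letters) telescope: for `M'`, `D' ⊆ B \ M'` and `k : ℕ` let
  `S(k) = x (M' ∪ D') C1(k) * y (B \ D') C2(k)`, where `C1(k) = C ∪ {u ∈ B \ (M' ∪ D') | (bel ν M' u` odd`) xor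
  (k ≤ ν u)}` and `C2(k) = C ∪ {u ∈ D' | (bel ν M' u` even`) xor (k ≤ ν u)}`. For `v ∈ D'`:
  `S(ν v) + S(ν v + 1) = x (B1) C1 * (y (B2 - v) C2 + y (B2 - v) (insert v C2))` for the pair
  `M = M' + v`, `D = D' - v`; for `v ∈ B \ (M' ∪ D')`: the term where `v` is removed from `B1`, for
  `M = M' + v`, `D = D'`. The sum over `v ∈ B \ M'` is `S(0) + S(∞)`; `S(∞)` is the term of `cupc m x y`,
  `S(0)` the term of `cupc m y x` with `D'' = B \ (M' ∪ D')`. -/
theorem cob_cupc [CharP R 2] (ν : V → ℕ) (hν : Function.Injective ν) (m : ℕ)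
    (x y : Finset V → Finset V → R) (B C : Finset V) :
    cob (cupc ν (m + 1) x y) B C =
      cupc ν (m + 1) (cob x) y B C + cupc ν (m + 1) x (cob y) B C +
        (cupc ν m x y B C + cupc ν m y x B C) := by
  have h1 : ∑ M ∈ B.powersetCard (m + 1), ∑ v ∈ M, ∑ D ∈ (B \ M).powerset,
      (F1 ν x y B C M D v + F2 ν x y B C M D v) = cupc ν m x y B C + cupc ν m y x B C := by
    rw [swap_pairs B m fun M v => ∑ D ∈ (B \ M).powerset,
      (F1 ν x y B C M D v + F2 ν x y B C M D v), cupc_eq, cupc_eq, ← Finset.sum_add_distrib]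
    refine Finset.sum_congr rfl fun M hM => ?_
    exact inner ν hν x y (Finset.mem_powersetCard.1 hM).1
  rw [rhs_eq, h1, add_assoc, add_self_two, add_zero]

/-- The case of the ordinary cup product (`M = ∅`: all parities are even). -/
theorem cob_cupc_zero [CharP R 2] (ν : V → ℕ) (x y : Finset V → Finset V → R) (B C : Finset V) :
    cob (cupc ν 0 x y) B C = cupc ν 0 (cob x) y B C + cupc ν 0 x (cob y) B C := by
  rw [rhs_eq, Finset.powersetCard_zero, Finset.sum_singleton, Finset.sum_empty, add_zero]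

end Pool.Agent.H19.SR

end

section

/-!
# Singer without colours for Coxeter groups of FC type: the filtration of the extension module
-/

set_option autoImplicit false
set_option linter.unusedSectionVars false

open Finset

namespace Pool.Agent.H77.SX

open Pool.Agent.H77.SW

variable {V : Type} [DecidableEq V] [Fintype V] {K : Type} [Field K]

/-- dimension count for a linear map -/
private theorem Filt_rank {M M' : Type} [AddCommGroup M] [Module K M] [FiniteDimensional K M]
    [AddCommGroup M'] [Module K M'] [FiniteDimensional K M'] (f : M →ₗ[K] M') (S S' : Submodule K M)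
    (T : Submodule K M') (h1 : ∀ z ∈ S, f z ∈ T) (h2 : ∀ z ∈ S, f z = 0 → z ∈ S') :
    Module.finrank K S ≤ Module.finrank K T + Module.finrank K S' := by
  let g : S →ₗ[K] T := (f.domRestrict S).codRestrict T fun z => h1 z.1 z.2
  have e := LinearMap.finrank_range_add_finrank_ker g
  have hr : Module.finrank K (LinearMap.range g) ≤ Module.finrank K T := Submodule.finrank_le _
  have hk : ∀ z : S, z ∈ LinearMap.ker g → z.1 ∈ S' := by
    intro z hz
    refine h2 z.1 z.2 ?_
    have h3 : g z = 0 := hz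
    exact congrArg Subtype.val h3
  let j : LinearMap.ker g →ₗ[K] S' := ((Submodule.subtype S).comp (Submodule.subtype (LinearMap.ker g))).codRestrict S' fun z => hk z.1 z.2
  have hj : Function.Injective j := by
    intro a b hab
    apply Subtype.ext
    apply Subtype.ext
    have h5 : ((j a : S') : M) = ((j b : S') : M) := by rw [hab]
    exact h5
  have h4 := LinearMap.finrank_le_finrank_of_injective hj
  omega

/-- the elements of the extension module which vanish at the sets outside `𝓤` -/
private def Filt_Z (G : SimpleGraph V) (n : ℕ) {P : Type} [Group P] (g : V → P)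
    (s : Finset V) (t : V → P → K) (𝓤 : Finset (Finset V)) : Submodule K (Finset V → (Finset V × P → K)) where
  carrier := {z | z ∈ Zs K G n (rX g s t) ∧ ∀ τ A p, A ∉ 𝓤 → z τ (A, p) = 0}
  zero_mem' := ⟨Submodule.zero_mem _, fun _ _ _ _ => rfl⟩
  add_mem' := by
    rintro z w ⟨h1, h2⟩ ⟨h3, h4⟩
    refine ⟨Submodule.add_mem _ h1 h3, fun τ A p hA => ?_⟩
    rw [Pi.add_apply, Pi.add_apply, h2 τ A p hA, h4 τ A p hA, add_zero]
  smul_mem' := by
    rintro c z ⟨h1, h2⟩
    refine ⟨Submodule.smul_mem _ c h1, fun τ A p hA => ?_⟩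
    rw [Pi.smul_apply, Pi.smul_apply, h2 τ A p hA, smul_zero]

/-- the component at `A` -/
private def Filt_ev (K : Type) [Field K] (P : Type) (A : Finset V) : (Finset V → (Finset V × P → K)) →ₗ[K] (Finset V → P → K) where
  toFun z := fun τ p => z τ (A, p)
  map_add' _ _ := rfl
  map_smul' _ _ := rfl

private theorem Filt_mem {G : SimpleGraph V} {n : ℕ} {P : Type} [Group P] {g : V → P}
    {s : Finset V} {t : V → P → K} {A : Finset V} {z : Finset V → (Finset V × P → K)}
    (hz : z ∈ Zs K G n (rX g s t)) (h0 : ∀ τ, ∀ v ∈ A, ∀ p, z τ (A.erase v, p) = 0) :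
    Filt_ev K P A z ∈ Zs K G n (rG K g) := by
  obtain ⟨h1, h2, h3⟩ := mem_Zs.1 hz
  rw [mem_Zs]
  refine ⟨fun σ hσ => h1 σ fun h => hσ ?_, fun σ v hv => ?_, fun κ => ?_⟩
  · funext p
    exact congrFun h (A, p)
  · funext p
    have h4 := congrFun (h2 σ v hv) (A, p)
    have h5 : z σ (A, p * g v) + (if v ∈ s ∧ v ∈ A then t v p * z σ (A.erase v, p * g v) else 0) = z σ (A, p) := h4
    have h6 : (if v ∈ s ∧ v ∈ A then t v p * z σ (A.erase v, p * g v) else 0) = 0 := by
      split_ifs with h
      · rw [h0 σ v h.2, mul_zero]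
      · rfl
    rw [h6, add_zero] at h5
    exact h5
  · funext p
    have h4 := congrFun (h3 κ) (A, p)
    rw [Finset.sum_apply] at h4 ⊢
    exact h4

private theorem Filt_up (G : SimpleGraph V) (n : ℕ) {P : Type} [Group P] [Fintype P] (g : V → P)
    (s : Finset V) (t : V → P → K) (m : ℕ) : ∀ 𝓤 : Finset (Finset V), 𝓤.card = m →
      (∀ A ∈ 𝓤, ∀ B, A ⊆ B → B ∈ 𝓤) →
      Module.finrank K (Filt_Z G n g s t 𝓤) ≤ 𝓤.card * dG K G n g := by
  induction m with
  | zero =>
    intro 𝓤 hc _
    have hz : ∀ z ∈ Filt_Z G n g s t 𝓤, z = 0 := by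
      rintro z ⟨-, h2⟩
      funext τ x
      refine h2 τ x.1 x.2 ?_
      rw [Finset.card_eq_zero.1 hc]
      exact notMem_empty _
    have h1 : Filt_Z G n g s t 𝓤 = ⊥ := (Submodule.eq_bot_iff _).2 hz
    rw [h1, finrank_bot]
    exact Nat.zero_le _
  | succ m ih =>
    intro 𝓤 hc hup
    have hne : 𝓤.Nonempty := by
      rw [← Finset.card_pos, hc]
      exact Nat.succ_pos m
    obtain ⟨A, hA, hmin⟩ := Finset.exists_min_image 𝓤 Finset.card hne
    have hmin' : ∀ B ∈ 𝓤, B ⊆ A → B = A := fun B hB hBA => Finset.eq_of_subset_of_card_le hBA (hmin B hB)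
    have hce : (𝓤.erase A).card = m := by rw [card_erase_of_mem hA, hc, Nat.add_sub_cancel]
    have h1 := ih (𝓤.erase A) hce (by
      intro B hB C hBC
      rw [mem_erase] at hB ⊢
      refine ⟨?_, hup B hB.2 C hBC⟩
      rintro rfl
      exact hB.1 (hmin' B hB.2 hBC))
    have h2 := Filt_rank (Filt_ev K P A) (Filt_Z G n g s t 𝓤) (Filt_Z G n g s t (𝓤.erase A)) (Zs K G n (rG K g))
      (by
        rintro z ⟨hz1, hz2⟩
        refine Filt_mem hz1 fun τ v hv p => hz2 τ _ p fun h => ?_
        have h3 := hmin' _ h (erase_subset v A)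
        rw [Finset.erase_eq_self] at h3
        exact h3 hv)
      (by
        rintro z ⟨hz1, hz2⟩ h0
        refine ⟨hz1, fun τ B p hB => ?_⟩
        by_cases hBA : B = A
        · rw [hBA]
          exact congrFun (congrFun h0 τ) p
        · exact hz2 τ B p fun h => hB (mem_erase.2 ⟨hBA, h⟩))
    rw [hce] at h1
    have h3 : Module.finrank K (Zs K G n (rG K g)) = dG K G n g := rfl
    rw [h3] at h2
    rw [hc]
    calc _ ≤ dG K G n g + m * dG K G n g := by omega
      _ = (m + 1) * dG K G n g := by ring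

/-- **The upper bound for the extension module.** Adapted from `Pool.Agent.H77.SW.upper_rE` (with
`g` in place of `D.g`). -/
theorem upper_rX (G : SimpleGraph V) (n : ℕ) {P : Type} [Group P] [Fintype P] (g : V → P)
    (s : Finset V) (t : V → P → K) (σ : Finset V)
    (hkey : ∀ z ∈ Zs K G n (rX g s t), ∀ p, z σ (∅, p) = 0) :
    Module.finrank K (Zs K G n (rX g s t)) ≤
      Module.finrank K (ZG K G n g σ) + (2 ^ Fintype.card V - 1) * dG K G n g := by
  have h1 := Filt_rank (Filt_ev K P ∅) (Zs K G n (rX g s t)) (Filt_Z G n g s t (univ.erase ∅)) (ZG K G n g σ)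
    (by
      intro z hz
      refine Submodule.mem_inf.2 ⟨Filt_mem hz fun τ v hv => absurd hv (notMem_empty v), ?_⟩
      rw [LinearMap.mem_ker]
      funext p
      exact hkey z hz p)
    (by
      intro z hz h0
      refine ⟨hz, fun τ B p hB => ?_⟩
      have hB0 : B = ∅ := by
        by_contra h
        exact hB (mem_erase.2 ⟨h, mem_univ B⟩)
      rw [hB0]
      exact congrFun (congrFun h0 τ) p)
  have h2 := Filt_up G n g s t _ (univ.erase ∅) rfl (by
    intro A hA B hAB
    rw [mem_erase] at hA ⊢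
    refine ⟨?_, mem_univ B⟩
    rintro rfl
    exact hA.1 (subset_empty.1 hAB))
  have h3 : ((univ : Finset (Finset V)).erase ∅).card = 2 ^ Fintype.card V - 1 := by
    rw [card_erase_of_mem (mem_univ _), card_univ, Fintype.card_finset]
  rw [h3] at h2
  omega

end Pool.Agent.H77.SX

end

section

/-!
# Singer without colours for Coxeter groups of FC type: the lower bound for modules over extensions by two-groups
-/

set_option autoImplicit false
set_option linter.unusedSectionVars false

open Finset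

namespace Pool.Agent.H77.SX

open Pool.Agent.H77.SW

variable {V : Type} [DecidableEq V] [Fintype V] {K : Type} [Field K] [CharP K 2]

/-- the involutions on the functions `P → (J → K)` -/
private def lrh {P : Type} [Group P] (g : V → P) {J : Type}
    (r : V → (J → K) →ₗ[K] (J → K)) (v : V) : (P → J → K) →ₗ[K] (P → J → K) where
  toFun φ p := r v (φ (p * g v))
  map_add' φ ψ := by
    funext p
    simp
  map_smul' c φ := by
    funext p
    simp

/-- the functions which are invariant under the left translations by `H` -/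
private def lS (G : SimpleGraph V) (n : ℕ) {P : Type} [Group P] (g : V → P) {J : Type}
    (r : V → (J → K) →ₗ[K] (J → K)) (H : Subgroup P) : Submodule K (Finset V → P → J → K) where
  carrier := {φ | φ ∈ Zs K G n (lrh g r) ∧ ∀ h ∈ H, ∀ σ p, φ σ (h * p) = φ σ p}
  zero_mem' := ⟨Submodule.zero_mem _, fun _ _ _ _ => rfl⟩
  add_mem' := by
    rintro φ ψ ⟨h1, h2⟩ ⟨h3, h4⟩
    refine ⟨Submodule.add_mem _ h1 h3, fun h hh σ p => ?_⟩
    simp only [Pi.add_apply, h2 h hh, h4 h hh]
  smul_mem' := by
    rintro c φ ⟨h1, h2⟩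
    refine ⟨Submodule.smul_mem _ c h1, fun h hh σ p => ?_⟩
    simp only [Pi.smul_apply, h2 h hh]

/-- left translation preserves the cycles -/
private theorem trans_mem {G : SimpleGraph V} {n : ℕ} {P : Type} [Group P] {g : V → P} {J : Type}
    {r : V → (J → K) →ₗ[K] (J → K)} {φ : Finset V → P → J → K} (h : φ ∈ Zs K G n (lrh g r))
    (c : P) : (fun σ p => φ σ (c * p)) ∈ Zs K G n (lrh g r) := by
  obtain ⟨h1, h2, h3⟩ := h
  refine ⟨fun σ hσ => h1 σ fun h0 => hσ ?_, fun σ v hv => ?_, fun κ => ?_⟩
  · funext p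
    change φ σ (c * p) = 0
    rw [h0]
    rfl
  · funext p
    have := congrFun (h2 σ v hv) (c * p)
    simpa [lrh, mul_assoc] using this
  · funext p
    have := congrFun (h3 κ) (c * p)
    simpa [Finset.sum_apply] using this

/-- the left translation as a linear map -/
private def lT {P : Type} [Group P] {J : Type} (c : P) :
    (Finset V → P → J → K) →ₗ[K] (Finset V → P → J → K) where
  toFun φ σ p := φ σ p + φ σ (c * p)
  map_add' φ ψ := by
    funext σ p
    simp only [Pi.add_apply]
    abel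
  map_smul' k φ := by
    funext σ p
    simp

private theorem char_add {J : Type} (f : J → K) : f + f = 0 := by
  funext j
  exact CharTwo.add_self_eq_zero _

private theorem step (G : SimpleGraph V) (n : ℕ) {P : Type} [Group P] [Fintype P] (g : V → P)
    {J : Type} [Fintype J] (r : V → (J → K) →ₗ[K] (J → K)) {H H' : Subgroup P} (hle : H ≤ H')
    (hc : Nat.card H' = 2 * Nat.card H) :
    Module.finrank K (lS G n g r H) ≤ 2 * Module.finrank K (lS G n g r H') := by
  have hpos : 0 < Nat.card H := Nat.card_pos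
  -- an element outside
  obtain ⟨c, hc1, hc2⟩ : ∃ c ∈ H', c ∉ H := by
    by_contra hcon
    push Not at hcon
    have : H = H' := le_antisymm hle hcon
    rw [this] at hc hpos
    omega
  have hidx : (H.subgroupOf H').index = 2 := by
    have h1 := (H.subgroupOf H').card_mul_index
    have h2 : Nat.card (H.subgroupOf H') = Nat.card H :=
      Nat.card_congr (Subgroup.subgroupOfEquivOfLe hle).toEquiv
    rw [h2, hc] at h1
    have h3 : Nat.card H * (H.subgroupOf H').index = Nat.card H * 2 := by rw [h1]; ring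
    exact Nat.eq_of_mul_eq_mul_left hpos h3
  have hmul : ∀ a ∈ H', ∀ b ∈ H', a ∉ H → b ∉ H → a * b ∈ H := by
    intro a ha b hb ha' hb'
    have := (Subgroup.mul_mem_iff_of_index_two hidx (a := ⟨a, ha⟩) (b := ⟨b, hb⟩))
    simp only [Subgroup.mem_subgroupOf] at this
    exact this.2 (by simp [ha', hb'])
  have hci : c⁻¹ ∉ H := fun h => hc2 (by simpa using H.inv_mem h)
  have hnot : ∀ h ∈ H, c * h ∉ H := fun h hh h' => hc2 (by
    have := H.mul_mem h' (H.inv_mem hh)
    simpa using this)
  -- the norm maps into the invariants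
  have hmaps : ∀ φ ∈ lS G n g r H, lT c φ ∈ lS G n g r H' := by
    rintro φ ⟨h1, h2⟩
    refine ⟨Submodule.add_mem _ h1 (trans_mem h1 c), fun h hh σ p => ?_⟩
    change φ σ (h * p) + φ σ (c * (h * p)) = φ σ p + φ σ (c * p)
    by_cases hH : h ∈ H
    · rw [h2 h hH]
      have h3 : c * h * c⁻¹ ∈ H := hmul _ (H'.mul_mem hc1 hh) _ (H'.inv_mem hc1) (hnot h hH) hci
      have h4 : c * (h * p) = c * h * c⁻¹ * (c * p) := by group
      rw [h4, h2 _ h3]
    · have h3 : h * c⁻¹ ∈ H := hmul _ hh _ (H'.inv_mem hc1) hH hci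
      have h4 : h * p = h * c⁻¹ * (c * p) := by group
      have h5 : c * h ∈ H := hmul _ hc1 _ hh hc2 hH
      have h6 : c * (h * p) = c * h * p := by group
      rw [h6, h2 _ h5, h4, h2 _ h3]
      exact add_comm _ _
  let N : lS G n g r H →ₗ[K] lS G n g r H' :=
    ((lT c).comp (lS G n g r H).subtype).codRestrict _ fun φ => hmaps φ.1 φ.2
  have hker : Module.finrank K (LinearMap.ker N) ≤ Module.finrank K (lS G n g r H') := by
    have hk : ∀ x : LinearMap.ker N, ((x : lS G n g r H) : Finset V → P → J → K) ∈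
        lS G n g r H' := by
      rintro ⟨⟨φ, h1, h2⟩, hx⟩
      have h0 : ∀ σ p, φ σ (c * p) = φ σ p := by
        intro σ p
        have h3 : (N ⟨φ, h1, h2⟩ : Finset V → P → J → K) = 0 := by
          rw [LinearMap.mem_ker.1 hx]
          rfl
        have h4 : φ σ p + φ σ (c * p) = 0 := congrFun (congrFun h3 σ) p
        have h5 := char_add (K := K) (φ σ p)
        exact (add_left_cancel (h5.trans h4.symm)).symm
      refine ⟨h1, fun h hh σ p => ?_⟩
      change φ σ (h * p) = φ σ p
      by_cases hH : h ∈ H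
      · exact h2 h hH σ p
      · have h3 : h * c⁻¹ ∈ H := hmul _ hh _ (H'.inv_mem hc1) hH hci
        have h4 : h * p = h * c⁻¹ * (c * p) := by group
        rw [h4, h2 _ h3, h0]
    let M : LinearMap.ker N →ₗ[K] lS G n g r H' :=
      ((lS G n g r H).subtype.comp (LinearMap.ker N).subtype).codRestrict _ hk
    refine LinearMap.finrank_le_finrank_of_injective (f := M) ?_
    intro x y hxy
    have := congrArg Subtype.val hxy
    exact Subtype.ext (Subtype.ext this)
  have h1 := LinearMap.finrank_range_add_finrank_ker N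
  have h2 := Submodule.finrank_le (LinearMap.range N)
  omega

/-- **The lower bound.** `q : P' → P` is surjective and its kernel is a two-group, `q (g' v) = g v`. The
involutions `r v` of the space `A × P → K` are local: `(r v f) (·, p)` only depends on
`f (·, p * g v)`; `R` is a family of injective maps with `r v ∘ R (p * g' v) = R p`. Then
`dim (A × P → K) * dim Z(K[P']) ≤ |P'| * dim Z(A × P → K)`.

Proof (note 3789, T2). As in `Pool.Agent.H77.SW.lower` (functions `φ : P' → (A × P → K)` with
`(r̂ v φ) p = r v (φ (p * g' v))`), but the chain of subgroups goes only from `⊥` to `q.ker`: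
`finrank (Zs r̂) ≤ |ker q| * finrank (S (ker q))`, `S H` = the `φ ∈ Zs K G n r̂` with
`φ σ (h * p) = φ σ p` for `h ∈ H`. And `S (ker q)` embeds in `P → Zs K G n r` by
`φ ↦ (fun x σ (a, p) => φ σ p' (a, p))`, `p'` any element with `q p' = x * p` (by `hloc` this is a
cycle). -/
theorem lower (G : SimpleGraph V) (n : ℕ) {P' P A : Type} [Group P'] [Fintype P'] [Group P]
    [Fintype P] [Fintype A] (g' : V → P') (g : V → P) (q : P' →* P) (hq : ∀ v, q (g' v) = g v)
    (hsurj : Function.Surjective q) (h2 : IsPGroup 2 q.ker)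
    (r : V → (A × P → K) →ₗ[K] (A × P → K))
    (hloc : ∀ v (f f' : A × P → K) p, (∀ a, f (a, p * g v) = f' (a, p * g v)) →
      ∀ a, r v f (a, p) = r v f' (a, p))
    (R : P' → (A × P → K) →ₗ[K] (A × P → K)) (hR : ∀ p, Function.Injective (R p))
    (hr : ∀ p v f, r v (R (p * g' v) f) = R p f) :
    Fintype.card (A × P) * dG K G n g' ≤
      Fintype.card P' * Module.finrank K (Zs K G n r) := by
  classical
  -- (1)
  have h1 : Fintype.card (A × P) * dG K G n g' ≤ Module.finrank K (Zs K G n (lrh g' r)) := by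
    let Φ : (A × P → Zs K G n (rG K g')) →ₗ[K] (Finset V → P' → A × P → K) :=
      { toFun := fun z σ p => R p (fun j => (z j).1 σ p)
        map_add' := fun z w => by
          funext σ p
          rw [show (fun j => ((z + w) j).1 σ p) = (fun j => (z j).1 σ p) + fun j => (w j).1 σ p
            from rfl, map_add]
          rfl
        map_smul' := fun c z => by
          funext σ p
          rw [show (fun j => ((c • z) j).1 σ p) = c • (fun j => (z j).1 σ p) from rfl, map_smul]
          rfl }
    have hΦ : ∀ z, Φ z ∈ Zs K G n (lrh g' r) := by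
      intro z
      refine ⟨fun σ hσ => ?_, fun σ v hv => ?_, fun κ => ?_⟩
      · by_contra hcon
        refine hσ ?_
        have h0 : ∀ j, (z j).1 σ = 0 := by
          intro j
          by_contra h
          exact hcon ((z j).2.1 σ h)
        funext p
        change R p (fun j => (z j).1 σ p) = 0
        rw [show (fun j => (z j).1 σ p) = 0 from funext fun j => by rw [h0 j]; rfl, map_zero]
      · funext p
        change r v (R (p * g' v) (fun j => (z j).1 σ (p * g' v))) = R p (fun j => (z j).1 σ p)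
        rw [hr]
        congr 1
        funext j
        exact congrFun ((z j).2.2.1 σ v hv) p
      · funext p
        rw [Finset.sum_apply]
        change ∑ v ∈ κᶜ, R p (fun j => (z j).1 (insert v κ) p) = 0
        rw [← map_sum]
        have : (∑ v ∈ κᶜ, fun j => (z j).1 (insert v κ) p) = (0 : A × P → K) := by
          funext j
          rw [Finset.sum_apply]
          have := congrFun ((z j).2.2.2 κ) p
          rw [Finset.sum_apply] at this
          exact this
        rw [this, map_zero]
    have hinj : Function.Injective (Φ.codRestrict (Zs K G n (lrh g' r)) hΦ) := by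
      intro z w hzw
      have h2 : Φ z = Φ w := congrArg Subtype.val hzw
      funext j
      refine Subtype.ext ?_
      funext σ p
      have h3 : R p (fun j => (z j).1 σ p) = R p (fun j => (w j).1 σ p) :=
        congrFun (congrFun h2 σ) p
      exact congrFun (hR p h3) j
    have h2 := LinearMap.finrank_le_finrank_of_injective hinj
    rw [Module.finrank_pi_fintype, Finset.sum_const, Finset.card_univ, smul_eq_mul] at h2
    exact h2
  -- (2)
  have h2' : Module.finrank K (Zs K G n (lrh g' r)) ≤ Module.finrank K (lS G n g' r ⊥) := by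
    have hm : ∀ z : Zs K G n (lrh g' r), (z : Finset V → P' → A × P → K) ∈ lS G n g' r ⊥ := by
      rintro ⟨z, hz⟩
      refine ⟨hz, fun h hh σ p => ?_⟩
      rw [Subgroup.mem_bot.1 hh, one_mul]
    refine LinearMap.finrank_le_finrank_of_injective
      (f := (Zs K G n (lrh g' r)).subtype.codRestrict _ hm) ?_
    intro x y hxy
    have := congrArg Subtype.val hxy
    exact Subtype.ext this
  -- (3)
  have h3 : Module.finrank K (lS G n g' r q.ker) ≤
      Fintype.card P * Module.finrank K (Zs K G n r) := by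
    obtain ⟨sec, hsec⟩ : ∃ sec : P → P', ∀ y, q (sec y) = y :=
      ⟨fun y => (hsurj y).choose, fun y => (hsurj y).choose_spec⟩
    have hinv : ∀ φ ∈ lS G n g' r q.ker, ∀ p₁ p₂, q p₁ = q p₂ → ∀ σ, φ σ p₁ = φ σ p₂ := by
      rintro φ ⟨-, hφ⟩ p₁ p₂ h12 σ
      have hk : p₁ * p₂⁻¹ ∈ q.ker := by
        rw [MonoidHom.mem_ker, map_mul, map_inv, h12, mul_inv_cancel]
      have := hφ _ hk σ p₂
      rwa [inv_mul_cancel_right] at this
    let E : (Finset V → P' → A × P → K) →ₗ[K] (P → Finset V → A × P → K) :=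
      { toFun := fun φ x σ j => φ σ (sec (x * j.2)) j
        map_add' := fun _ _ => rfl
        map_smul' := fun _ _ => rfl }
    have hE : ∀ φ ∈ lS G n g' r q.ker, ∀ x, E φ x ∈ Zs K G n r := by
      intro φ hφ x
      have hi := hinv φ hφ
      obtain ⟨⟨h4, h5, h6⟩, -⟩ := hφ
      refine ⟨fun σ hσ => h4 σ fun h0 => hσ ?_, fun σ v hv => ?_, fun κ => ?_⟩
      · funext j
        change φ σ (sec (x * j.2)) j = 0
        rw [h0]
        rfl
      · funext j
        obtain ⟨a, p⟩ := j
        have h7 := congrFun (h5 σ v hv) (sec (x * p))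
        change r v (φ σ (sec (x * p) * g' v)) = φ σ (sec (x * p)) at h7
        change r v (E φ x σ) (a, p) = φ σ (sec (x * p)) (a, p)
        rw [← h7]
        refine hloc v _ _ p (fun a' => ?_) a
        change φ σ (sec (x * (p * g v))) (a', p * g v) = φ σ (sec (x * p) * g' v) (a', p * g v)
        rw [hi (sec (x * (p * g v))) (sec (x * p) * g' v)]
        rw [hsec, map_mul, hsec, hq, mul_assoc]
      · funext j
        have h7 := congrFun (congrFun (h6 κ) (sec (x * j.2))) j
        rw [Finset.sum_apply, Finset.sum_apply] at h7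
        rw [Finset.sum_apply]
        exact h7
    let F : lS G n g' r q.ker →ₗ[K] (P → Zs K G n r) :=
      { toFun := fun φ x => ⟨E φ.1 x, hE φ.1 φ.2 x⟩
        map_add' := fun _ _ => rfl
        map_smul' := fun _ _ => rfl }
    have hF : Function.Injective F := by
      intro φ ψ h
      refine Subtype.ext ?_
      funext σ p' j
      have h8 : E φ.1 (q p' * j.2⁻¹) σ j = E ψ.1 (q p' * j.2⁻¹) σ j :=
        congrFun (congrFun (congrArg Subtype.val (congrFun h (q p' * j.2⁻¹))) σ) j
      change φ.1 σ (sec (q p' * j.2⁻¹ * j.2)) j = ψ.1 σ (sec (q p' * j.2⁻¹ * j.2)) j at h8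
      rw [inv_mul_cancel_right] at h8
      rw [hinv φ.1 φ.2 p' (sec (q p')) (hsec _).symm, hinv ψ.1 ψ.2 p' (sec (q p')) (hsec _).symm]
      exact h8
    have h9 := LinearMap.finrank_le_finrank_of_injective hF
    rw [Module.finrank_pi_fintype, Finset.sum_const, Finset.card_univ, smul_eq_mul] at h9
    exact h9
  -- the chain
  obtain ⟨N, hN⟩ := (IsPGroup.iff_card (p := 2)).1 h2
  have hcm : ∀ H : Subgroup q.ker, Nat.card (H.map q.ker.subtype) = Nat.card H := fun H =>
    Nat.card_congr (H.equivMapOfInjective _ q.ker.subtype_injective).toEquiv.symm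
  have h4 : ∀ m ≤ N, ∃ H : Subgroup q.ker, Nat.card H = 2 ^ m ∧
      Module.finrank K (lS G n g' r ⊥) ≤
        2 ^ m * Module.finrank K (lS G n g' r (H.map q.ker.subtype)) := by
    intro m
    induction m with
    | zero => exact fun _ => ⟨⊥, by simp, by rw [Subgroup.map_bot, pow_zero, one_mul]⟩
    | succ m ih =>
      intro hm
      obtain ⟨H, hH1, hH2⟩ := ih (by omega)
      have : Fact (Nat.Prime 2) := ⟨Nat.prime_two⟩
      obtain ⟨H', hH3, hH4⟩ := Sylow.exists_subgroup_card_pow_succ (p := 2) (n := m) (G := q.ker)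
        (by rw [hN]; exact pow_dvd_pow 2 hm) hH1
      refine ⟨H', hH3, hH2.trans ?_⟩
      have h5 := step (K := K) G n g' r (Subgroup.map_mono (f := q.ker.subtype) hH4)
        (by rw [hcm, hcm, hH3, hH1, pow_succ]; ring)
      calc 2 ^ m * Module.finrank K (lS G n g' r (H.map q.ker.subtype))
          ≤ 2 ^ m * (2 * Module.finrank K (lS G n g' r (H'.map q.ker.subtype))) :=
            Nat.mul_le_mul_left _ h5
        _ = 2 ^ (m + 1) * Module.finrank K (lS G n g' r (H'.map q.ker.subtype)) := by
            rw [pow_succ]; ring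
  obtain ⟨H, hH1, hH2⟩ := h4 N le_rfl
  have hHt : H = ⊤ := by
    refine Subgroup.eq_top_of_card_eq H ?_
    rw [hH1, hN]
  have hmt : H.map q.ker.subtype = q.ker := by
    rw [hHt, ← MonoidHom.range_eq_map, Subgroup.range_subtype]
  rw [hmt] at hH2
  have hcard : Fintype.card P' = 2 ^ N * Fintype.card P := by
    have h6 := q.ker.card_mul_index
    rw [Subgroup.index_ker, MonoidHom.range_eq_top.2 hsurj, hN, Subgroup.card_top,
      Nat.card_eq_fintype_card, Nat.card_eq_fintype_card] at h6
    exact h6.symm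
  rw [hcard, mul_assoc]
  exact h1.trans (h2'.trans (hH2.trans (Nat.mul_le_mul_left _ h3)))

/-- **Coverings.** This is `lower` for `A = Unit`, `r v f (a, p) = f (a, p * g v)`,
`R p' f (a, p) = f (a, p * (q p')⁻¹)`. (`g v * g v = 1` is not needed if
`r v f (a, p) = f (a, p * g v)` and `hr` is checked with `hinv`.) -/
theorem mono (G : SimpleGraph V) (n : ℕ) {P' P : Type} [Group P'] [Fintype P'] [Group P]
    [Fintype P] (g' : V → P') (g : V → P) (q : P' →* P) (hq : ∀ v, q (g' v) = g v)
    (hsq : ∀ v, g v * g v = 1) (hsurj : Function.Surjective q) (h2 : IsPGroup 2 q.ker) :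
    Fintype.card P * dG K G n g' ≤ Fintype.card P' * dG K G n g := by
  classical
  have _ := hsq
  let r : V → (Unit × P → K) →ₗ[K] (Unit × P → K) := fun v =>
    { toFun := fun f j => f (j.1, j.2 * g v)
      map_add' := fun _ _ => rfl
      map_smul' := fun _ _ => rfl }
  let R : P' → (Unit × P → K) →ₗ[K] (Unit × P → K) := fun p' =>
    { toFun := fun f j => f (j.1, j.2 * (q p')⁻¹)
      map_add' := fun _ _ => rfl
      map_smul' := fun _ _ => rfl }
  have h1 := lower (K := K) G n g' g q hq hsurj h2 r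
    (fun v f f' p h a => h a) R
    (fun p' f f' h => by
      funext j
      have h3 := congrFun h (j.1, j.2 * q p')
      change f (j.1, j.2 * q p' * (q p')⁻¹) = f' (j.1, j.2 * q p' * (q p')⁻¹) at h3
      rwa [mul_inv_cancel_right] at h3)
    (fun p' v f => by
      funext j
      change f (j.1, j.2 * g v * (q (p' * g' v))⁻¹) = f (j.1, j.2 * (q p')⁻¹)
      rw [map_mul, hq, mul_inv_rev, mul_assoc, mul_inv_cancel_left])
  rw [Fintype.card_prod, Fintype.card_unit, one_mul] at h1
  refine h1.trans (Nat.mul_le_mul_left _ ?_)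
  let E : (Finset V → Unit × P → K) →ₗ[K] (Finset V → P → K) :=
    { toFun := fun z σ p => z σ ((), p)
      map_add' := fun _ _ => rfl
      map_smul' := fun _ _ => rfl }
  have hE : ∀ z : Zs K G n r, (E.comp (Zs K G n r).subtype) z ∈ Zs K G n (rG K g) := by
    rintro ⟨z, h4, h5, h6⟩
    refine ⟨fun σ hσ => h4 σ fun h0 => hσ ?_, fun σ v hv => ?_, fun κ => ?_⟩
    · funext p
      change z σ ((), p) = 0
      rw [h0]
      rfl
    · funext p
      exact congrFun (h5 σ v hv) ((), p)
    · funext p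
      have h7 := congrFun (h6 κ) ((), p)
      rw [Finset.sum_apply] at h7 ⊢
      exact h7
  refine LinearMap.finrank_le_finrank_of_injective
    (f := (E.comp (Zs K G n r).subtype).codRestrict _ hE) ?_
  intro x y hxy
  refine Subtype.ext ?_
  funext σ j
  exact congrFun (congrFun (congrArg Subtype.val hxy) σ) j.2

end Pool.Agent.H77.SX

end

section

/-!
# Project S9, block U: cubical cup products of module valued local cochains

As in `Pool/Agent/H19/SR/Defs.lean`: `x B C` is the value of the cochain `x` on the face with the free letters `B` on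
which the letters in `C` are `1` and all other letters are `0`. The values are in vector spaces over the field `K` of
characteristic two, `b` is a bilinear map. By coordinates everything follows from the scalar case (`SR/Cup.lean`).
-/

set_option autoImplicit false
set_option linter.unusedSectionVars false

open Finset

namespace Pool.Agent.S9.U

open Pool.Agent.H19.SR (cob cupc bel Face cob_cupc cob_cupc_zero)

variable {V : Type} [DecidableEq V]

/-- the coboundary -/
def cobm {M : Type} [AddCommMonoid M] (x : Finset V → Finset V → M) (B C : Finset V) : M :=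
  ∑ v ∈ B, (x (B.erase v) C + x (B.erase v) (insert v C))

section

variable {K A A' M : Type} [Field K] [AddCommGroup A] [Module K A] [AddCommGroup A'] [Module K A']
  [AddCommGroup M] [Module K M]

/-- the cup product of order `m` with values in `M` -/
def cupb (b : A →ₗ[K] A' →ₗ[K] M) (ν : V → ℕ) (m : ℕ) (x : Finset V → Finset V → A)
    (y : Finset V → Finset V → A') (B C : Finset V) : M :=
  ∑ N ∈ B.powersetCard m, ∑ D ∈ (B \ N).powerset,
    b (x (N ∪ D) (C ∪ ((B \ (N ∪ D)).filter fun v => ¬ Even (bel ν N v))))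
      (y (B \ D) (C ∪ D.filter fun v => Even (bel ν N v)))

/-- the cup product of order `m - 1` -/
def cupsb (b : A →ₗ[K] A' →ₗ[K] M) (ν : V → ℕ) : ℕ → (Finset V → Finset V → A) →
    (Finset V → Finset V → A') → Finset V → Finset V → M
  | 0 => fun _ _ _ _ => 0
  | m + 1 => cupb b ν m

/-- the coordinates -/
theorem cupb_coord [FiniteDimensional K A] [FiniteDimensional K A'] (b : A →ₗ[K] A' →ₗ[K] M)
    (ν : V → ℕ) (m : ℕ) (x : Finset V → Finset V → A) (y : Finset V → Finset V → A')
    (B C : Finset V) :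
    cupb b ν m x y B C = ∑ p, ∑ r, cupc ν m
      (fun B C => (Module.finBasis K A).repr (x B C) p)
      (fun B C => (Module.finBasis K A').repr (y B C) r) B C •
        b (Module.finBasis K A p) (Module.finBasis K A' r) := by
  have hb : ∀ (u : A) (w : A'), b u w = ∑ p, ∑ r, ((Module.finBasis K A).repr u p *
      (Module.finBasis K A').repr w r) • b (Module.finBasis K A p) (Module.finBasis K A' r) := by
    intro u w
    conv_lhs => rw [← (Module.finBasis K A).sum_repr u, ← (Module.finBasis K A').sum_repr w]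
    simp only [map_sum, LinearMap.sum_apply, map_smul, LinearMap.smul_apply, smul_sum, smul_smul]
    rw [sum_comm]
    exact sum_congr rfl fun p _ => sum_congr rfl fun r _ => by rw [mul_comm]
  unfold cupb cupc
  rw [sum_congr rfl fun N _ => sum_congr rfl fun D _ => hb _ _]
  simp only [sum_smul]
  rw [sum_congr rfl fun N _ => sum_comm]
  rw [sum_comm]
  refine sum_congr rfl fun p _ => ?_
  rw [sum_congr rfl fun N _ => sum_comm]
  rw [sum_comm]

variable [CharP K 2]

/-- **The coboundary of the cup product of order `m + 1`.** -/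
theorem cobm_cupb_succ [FiniteDimensional K A] [FiniteDimensional K A'] (b : A →ₗ[K] A' →ₗ[K] M)
    {ν : V → ℕ} (hν : Function.Injective ν) (m : ℕ) (x : Finset V → Finset V → A)
    (y : Finset V → Finset V → A') (B C : Finset V) :
    cobm (cupb b ν (m + 1) x y) B C = cupb b ν (m + 1) (cobm x) y B C +
      cupb b ν (m + 1) x (cobm y) B C + (cupb b ν m x y B C + cupb b.flip ν m y x B C) := by
  have h1 : cobm (cupb b ν (m + 1) x y) B C = ∑ p, ∑ r, cob (cupc ν (m + 1)
      (fun B C => (Module.finBasis K A).repr (x B C) p)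
      (fun B C => (Module.finBasis K A').repr (y B C) r)) B C •
        b (Module.finBasis K A p) (Module.finBasis K A' r) := by
    unfold cobm cob
    simp only [cupb_coord b ν (m + 1) x y, ← sum_add_distrib, ← add_smul]
    rw [sum_comm]
    refine sum_congr rfl fun p _ => ?_
    rw [sum_comm]
    exact sum_congr rfl fun r _ => (sum_smul ..).symm
  have hx : ∀ p, (cob fun B C => (Module.finBasis K A).repr (x B C) p) =
      fun B C => (Module.finBasis K A).repr (cobm x B C) p := by
    intro p
    funext B C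
    unfold cob cobm
    rw [map_sum, Finsupp.finsetSum_apply]
    exact sum_congr rfl fun v _ => by rw [map_add, Finsupp.add_apply]
  have hy : ∀ r, (cob fun B C => (Module.finBasis K A').repr (y B C) r) =
      fun B C => (Module.finBasis K A').repr (cobm y B C) r := by
    intro p
    funext B C
    unfold cob cobm
    rw [map_sum, Finsupp.finsetSum_apply]
    exact sum_congr rfl fun v _ => by rw [map_add, Finsupp.add_apply]
  have h2 : cupb b.flip ν m y x B C = ∑ p, ∑ r, cupc ν m
      (fun B C => (Module.finBasis K A').repr (y B C) r)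
      (fun B C => (Module.finBasis K A).repr (x B C) p) B C •
        b (Module.finBasis K A p) (Module.finBasis K A' r) := by
    rw [cupb_coord b.flip ν m y x, sum_comm]
    rfl
  rw [h1, h2, cupb_coord b ν (m + 1) (cobm x) y, cupb_coord b ν (m + 1) x (cobm y),
    cupb_coord b ν m x y]
  simp only [← sum_add_distrib, ← add_smul]
  refine sum_congr rfl fun p _ => sum_congr rfl fun r _ => ?_
  rw [cob_cupc ν hν, hx, hy]

/-- **The coboundary of the cup product of order `0`.** -/
theorem cobm_cupb_zero [FiniteDimensional K A] [FiniteDimensional K A'] (b : A →ₗ[K] A' →ₗ[K] M)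
    (ν : V → ℕ) (x : Finset V → Finset V → A)
    (y : Finset V → Finset V → A') (B C : Finset V) :
    cobm (cupb b ν 0 x y) B C = cupb b ν 0 (cobm x) y B C + cupb b ν 0 x (cobm y) B C := by
  have h1 : cobm (cupb b ν 0 x y) B C = ∑ p, ∑ r, cob (cupc ν 0
      (fun B C => (Module.finBasis K A).repr (x B C) p)
      (fun B C => (Module.finBasis K A').repr (y B C) r)) B C •
        b (Module.finBasis K A p) (Module.finBasis K A' r) := by
    unfold cobm cob
    simp only [cupb_coord b ν 0 x y, ← sum_add_distrib, ← add_smul]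
    rw [sum_comm]
    refine sum_congr rfl fun p _ => ?_
    rw [sum_comm]
    exact sum_congr rfl fun r _ => (sum_smul ..).symm
  have hx : ∀ p, (cob fun B C => (Module.finBasis K A).repr (x B C) p) =
      fun B C => (Module.finBasis K A).repr (cobm x B C) p := by
    intro p
    funext B C
    unfold cob cobm
    rw [map_sum, Finsupp.finsetSum_apply]
    exact sum_congr rfl fun v _ => by rw [map_add, Finsupp.add_apply]
  have hy : ∀ r, (cob fun B C => (Module.finBasis K A').repr (y B C) r) =
      fun B C => (Module.finBasis K A').repr (cobm y B C) r := by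
    intro p
    funext B C
    unfold cob cobm
    rw [map_sum, Finsupp.finsetSum_apply]
    exact sum_congr rfl fun v _ => by rw [map_add, Finsupp.add_apply]
  rw [h1, cupb_coord b ν 0 (cobm x) y, cupb_coord b ν 0 x (cobm y)]
  simp only [← sum_add_distrib, ← add_smul]
  refine sum_congr rfl fun p _ => sum_congr rfl fun r _ => ?_
  rw [cob_cupc_zero ν, hx, hy]

end

end Pool.Agent.S9.U

end

section

/-!
# Project S9, block U: the cochains on the cubes
-/

set_option autoImplicit false
set_option linter.unusedSectionVars false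

open Finset

namespace Pool.Agent.S9.U

open Pool.Agent.H19.SR (cob cupc bel Face gp)

section Face

variable {V : Type} [DecidableEq V] {K A A' M : Type} [Field K] [AddCommGroup A] [Module K A]
  [AddCommGroup A'] [Module K A'] [AddCommGroup M] [Module K M]

theorem cupb_face (b : A →ₗ[K] A' →ₗ[K] M) (ν : V → ℕ) (m : ℕ) {Q : Finset V}
    {x x' : Finset V → Finset V → A} {y y' : Finset V → Finset V → A'}
    (hx : ∀ B C, Face Q B C → x B C = x' B C) (hy : ∀ B C, Face Q B C → y B C = y' B C)
    (B C : Finset V) (h : Face Q B C) : cupb b ν m x y B C = cupb b ν m x' y' B C := by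
  unfold cupb
  refine sum_congr rfl fun N hN => sum_congr rfl fun D hD => ?_
  have hN1 := (mem_powersetCard.1 hN).1
  have hD1 := mem_powerset.1 hD
  obtain ⟨h1, h2⟩ := h
  have hB : B ⊆ Q := subset_union_left.trans h2
  have hC : C ⊆ Q := subset_union_right.trans h2
  have hDB : D ⊆ B := hD1.trans sdiff_subset
  rw [hx, hy]
  · refine ⟨?_, ?_⟩
    · refine disjoint_union_right.2 ⟨h1.mono_left sdiff_subset, ?_⟩
      exact disjoint_sdiff_self_left.mono_right (filter_subset _ _)
    · exact union_subset (sdiff_subset.trans hB) (union_subset hC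
        ((filter_subset _ _).trans (hDB.trans hB)))
  · refine ⟨?_, ?_⟩
    · refine disjoint_union_right.2 ⟨h1.mono_left (union_subset hN1 hDB), ?_⟩
      exact disjoint_sdiff_self_right.mono_right (filter_subset _ _)
    · exact union_subset ((union_subset hN1 hDB).trans hB) (union_subset hC
        ((filter_subset _ _).trans (sdiff_subset.trans hB)))

theorem cupsb_face (b : A →ₗ[K] A' →ₗ[K] M) (ν : V → ℕ) (m : ℕ) {Q : Finset V}
    {x x' : Finset V → Finset V → A} {y y' : Finset V → Finset V → A'}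
    (hx : ∀ B C, Face Q B C → x B C = x' B C) (hy : ∀ B C, Face Q B C → y B C = y' B C)
    (B C : Finset V) (h : Face Q B C) : cupsb b ν m x y B C = cupsb b ν m x' y' B C := by
  cases m with
  | zero => rfl
  | succ m => exact cupb_face b ν m hx hy B C h

theorem cupb_shift (b : A →ₗ[K] A' →ₗ[K] M) (ν : V → ℕ) (m : ℕ) (v : V)
    (x : Finset V → Finset V → A) (y : Finset V → Finset V → A') (B C : Finset V) :
    cupb b ν m (fun B C => x B (insert v C)) (fun B C => y B (insert v C)) B C =
      cupb b ν m x y B (insert v C) := by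
  unfold cupb
  refine sum_congr rfl fun N _ => sum_congr rfl fun D _ => ?_
  rw [insert_union, insert_union]

theorem cupsb_shift (b : A →ₗ[K] A' →ₗ[K] M) (ν : V → ℕ) (m : ℕ) (v : V)
    (x : Finset V → Finset V → A) (y : Finset V → Finset V → A') (B C : Finset V) :
    cupsb b ν m (fun B C => x B (insert v C)) (fun B C => y B (insert v C)) B C =
      cupsb b ν m x y B (insert v C) := by
  cases m with
  | zero => rfl
  | succ m => exact cupb_shift b ν m v x y B C

theorem cupb_zero_left (b : A →ₗ[K] A' →ₗ[K] M) (ν : V → ℕ) (m : ℕ)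
    (y : Finset V → Finset V → A') (B C : Finset V) : cupb b ν m (fun _ _ => 0) y B C = 0 := by
  unfold cupb
  refine sum_eq_zero fun N _ => sum_eq_zero fun D _ => ?_
  rw [map_zero, LinearMap.zero_apply]

theorem cupb_zero_right (b : A →ₗ[K] A' →ₗ[K] M) (ν : V → ℕ) (m : ℕ)
    (x : Finset V → Finset V → A) (B C : Finset V) : cupb b ν m x (fun _ _ => 0) B C = 0 := by
  unfold cupb
  refine sum_eq_zero fun N _ => sum_eq_zero fun D _ => ?_
  rw [map_zero]

theorem cupb_add_form (b b' : A →ₗ[K] A' →ₗ[K] M) (ν : V → ℕ) (m : ℕ)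
    (x : Finset V → Finset V → A) (y : Finset V → Finset V → A') (B C : Finset V) :
    cupb (b + b') ν m x y B C = cupb b ν m x y B C + cupb b' ν m x y B C := by
  unfold cupb
  simp only [LinearMap.add_apply, sum_add_distrib]

theorem cupsb_add_form (b b' : A →ₗ[K] A' →ₗ[K] M) (ν : V → ℕ) (m : ℕ)
    (x : Finset V → Finset V → A) (y : Finset V → Finset V → A') (B C : Finset V) :
    cupsb (b + b') ν m x y B C = cupsb b ν m x y B C + cupsb b' ν m x y B C := by
  cases m with
  | zero => exact (add_zero _).symm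
  | succ m => exact cupb_add_form b b' ν m x y B C

/-- the coboundary of `a cup a` for a cocycle `a` -/
theorem cobm_cupsb_self [CharP K 2] [FiniteDimensional K A] (b : A →ₗ[K] A →ₗ[K] M)
    {ν : V → ℕ} (hν : Function.Injective ν) (m : ℕ) {Q : Finset V}
    {a : Finset V → Finset V → A} (ha : ∀ B C, Face Q B C → cobm a B C = 0)
    (B C : Finset V) (h : Face Q B C) :
    cobm (cupsb b ν (m + 1) a a) B C = cupsb (b + b.flip) ν m a a B C := by
  have h1 : cupb b ν m (cobm a) a B C = 0 := by
    rw [cupb_face b ν m (x' := fun _ _ => 0) ha (fun _ _ _ => rfl) B C h, cupb_zero_left]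
  have h2 : cupb b ν m a (cobm a) B C = 0 := by
    rw [cupb_face b ν m (y' := fun _ _ => 0) (fun _ _ _ => rfl) ha B C h, cupb_zero_right]
  rw [cupsb_add_form]
  cases m with
  | zero =>
    show cobm (cupb b ν 0 a a) B C = 0 + 0
    rw [cobm_cupb_zero, h1, h2]
  | succ m =>
    show cobm (cupb b ν (m + 1) a a) B C = cupb b ν m a a B C + cupb b.flip ν m a a B C
    rw [cobm_cupb_succ b hν, h1, h2, zero_add, zero_add]

end Face

/-! ### The cochains on the cube at `w` -/

section Loc

variable {V : Type} [DecidableEq V] [Fintype V] {G : SimpleGraph V} {W : Type} [Group W]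
  (R : Rac G W)

private theorem clique_sub {A B : Finset V} (h : G.IsClique (A : Set V)) (hB : B ⊆ A) :
    G.IsClique (B : Set V) := h.subset (by exact_mod_cast hB)

private theorem list_insert {C : Finset V} {v : V} (hv : v ∉ C)
    (hC : G.IsClique ((insert v C : Finset V) : Set V)) : ∀ L : List V, L.Nodup →
      ((L.filter fun u => u ∈ insert v C).map R.s).prod =
        ((L.filter fun u => u ∈ C).map R.s).prod * if v ∈ L then R.s v else 1
  | [], _ => by simp
  | x :: L, hL => by
    have hx : x ∉ L := (List.nodup_cons.1 hL).1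
    have ih := list_insert hv hC L (List.nodup_cons.1 hL).2
    by_cases hxv : x = v
    · subst hxv
      rw [List.filter_cons_of_pos (by simp), List.filter_cons_of_neg (by simpa using hv)]
      rw [List.map_cons, List.prod_cons, ih, if_neg hx, mul_one, if_pos (List.mem_cons_self)]
      have h3 : Commute (R.s x) ((L.filter fun u => u ∈ C).map R.s).prod := by
        refine Commute.list_prod_right _ _ fun y hy => ?_
        obtain ⟨u, hu, rfl⟩ := List.mem_map.1 hy
        have hu' : u ∈ C := by simpa using (List.mem_filter.1 hu).2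
        have hux : x ≠ u := fun h => hv (h ▸ hu')
        refine R.comm x u (hC ?_ ?_ hux)
        · simp
        · simp [hu']
      exact h3
    · have h4 : (v ∈ x :: L) ↔ v ∈ L := by
        rw [List.mem_cons]
        constructor
        · rintro (h | h)
          · exact absurd h.symm hxv
          · exact h
        · exact Or.inr
      have h5 : (if v ∈ x :: L then R.s v else 1) = if v ∈ L then R.s v else 1 := by
        by_cases h : v ∈ L
        · rw [if_pos h, if_pos (h4.2 h)]
        · rw [if_neg h, if_neg (fun h' => h (h4.1 h'))]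
      rw [h5]
      by_cases hxC : x ∈ C
      · rw [List.filter_cons_of_pos (by simp [hxC]), List.filter_cons_of_pos (by simpa using hxC),
          List.map_cons, List.prod_cons, List.map_cons, List.prod_cons, ih, mul_assoc]
      · rw [List.filter_cons_of_neg (by simp [hxC, hxv]), List.filter_cons_of_neg
          (by simpa using hxC), ih]

theorem gp_ins {C : Finset V} {v : V} (hv : v ∉ C)
    (hC : G.IsClique ((insert v C : Finset V) : Set V)) :
    gp R.s (insert v C) = gp R.s C * R.s v := by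
  have h := list_insert R hv hC (univ : Finset V).toList (Finset.nodup_toList _)
  rw [if_pos (Finset.mem_toList.2 (mem_univ v))] at h
  exact h

theorem gp_com {C : Finset V} {v : V} (hC : G.IsClique ((insert v C : Finset V) : Set V)) :
    gp R.s C * R.s v = R.s v * gp R.s C := by
  have h3 : Commute (R.s v) (gp R.s C) := by
    refine Commute.list_prod_right _ _ fun y hy => ?_
    obtain ⟨u, hu, rfl⟩ := List.mem_map.1 hy
    have hu' : u ∈ C := by simpa using (List.mem_filter.1 hu).2
    by_cases hux : v = u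
    · rw [hux]
    · refine R.comm v u (hC ?_ ?_ hux)
      · simp
      · simp [hu']
  exact h3.eq.symm

theorem gp_emp : gp R.s ∅ = 1 := by
  simp [gp]

/-- the cochain `c` on the cube at `w` -/
noncomputable def loc {N : Type} (c : Finset V → W → N) (w : W) (B C : Finset V) : N :=
  c B (w * gp R.s C)

theorem loc_shift {N : Type} (c : Finset V → W → N) {Q : Finset V}
    (hQ : G.IsClique (Q : Set V)) {v : V} (hv : v ∈ Q) (w : W) (B C : Finset V)
    (h : Face (Q.erase v) B C) : loc R c (w * R.s v) B C = loc R c w B (insert v C) := by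
  have hC : C ⊆ Q.erase v := subset_union_right.trans h.2
  have hvC : v ∉ C := fun h' => notMem_erase v Q (hC h')
  have h1 : G.IsClique ((insert v C : Finset V) : Set V) :=
    clique_sub hQ (insert_subset hv (hC.trans (erase_subset _ _)))
  unfold loc
  rw [gp_ins R hvC h1, gp_com R h1, mul_assoc]

theorem cobm_loc {N : Type} [AddCommGroup N] (c : Finset V → W → N) {Q : Finset V}
    (hQ : G.IsClique (Q : Set V)) (w : W) (B C : Finset V) (h : Face Q B C) :
    cobm (loc R c w) B C = loc R (cb R c) w B C := by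
  have hB : B ⊆ Q := subset_union_left.trans h.2
  have hC : C ⊆ Q := subset_union_right.trans h.2
  unfold cobm loc cb
  rw [if_pos (clique_sub hQ hB)]
  refine sum_congr rfl fun v hv => ?_
  have hvC : v ∉ C := fun h' => disjoint_left.1 h.1 hv h'
  rw [gp_ins R hvC (clique_sub hQ (insert_subset (hB hv) hC)), mul_assoc]

end Loc

end Pool.Agent.S9.U

end
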