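import Mathlib

/-! The parts of this file: H37.TM.Cup, H37.TM.TotA, H37.TM.TotB, H37.TM.Unst, H37.TM.Inv. -/

section

/-!
# Project TM: cup products of all orders for ordered simplices, characteristic two

Cochains are functions on finite sets of vertices (all degrees together); the vertices are ordered by a
height function, which is injective on the simplices.
-/

set_option autoImplicit false
set_option linter.unusedSectionVars false

open Finset

namespace Pool.Agent.H37.TM

variable {U : Type} [DecidableEq U] {R : Type} [CommRing R]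

/-- the coboundary -/
def cob (x : Finset U → R) (s : Finset U) : R := ∑ v ∈ s, x (s.erase v)

/-- the number of elements of `B` below `v` -/
def below (h : U → ℕ) (B : Finset U) (v : U) : ℕ := (B.filter fun b => h b < h v).card

/-- the first face: the elements of `B` and those with an even number of elements of `B` below -/
def face1 (h : U → ℕ) (B s : Finset U) : Finset U := s.filter fun v => v ∈ B ∨ Even (below h B v)

/-- the second face -/
def face2 (h : U → ℕ) (B s : Finset U) : Finset U := s.filter fun v => v ∈ B ∨ ¬ Even (below h B v)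

/-- the cup product of order `m - 1` (the two faces have `m` common vertices) -/
def cup (h : U → ℕ) (m : ℕ) (x y : Finset U → R) (s : Finset U) : R :=
  ∑ B ∈ s.powersetCard m, x (face1 h B s) * y (face2 h B s)

theorem add_self_two [CharP R 2] (a : R) : a + a = 0 := CharTwo.add_self_eq_zero a

/-- the parity of `v` is switched for the vertices in `F` -/
def sw1 (h : U → ℕ) (C F s : Finset U) : Finset U :=
  s.filter fun v => v ∈ C ∨ (Even (below h C v) ↔ v ∉ F)

theorem sw1_empty (h : U → ℕ) (C s : Finset U) : sw1 h C ∅ s = face1 h C s := by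
  unfold sw1 face1
  exact Finset.filter_congr fun v _ => by simp

theorem sw1_self (h : U → ℕ) (C s : Finset U) : sw1 h C s s = face2 h C s := by
  unfold sw1 face2
  refine Finset.filter_congr fun v hv => ?_
  have : ¬ (v ∉ s) := fun h => h hv
  simp only [this, iff_false]

/-- the elements of `s` which are above `k` -/
def up (h : U → ℕ) (k : ℕ) (s : Finset U) : Finset U := s.filter fun v => k ≤ h v

/-- the telescoping function -/
def tel (h : U → ℕ) (x y : Finset U → R) (C s : Finset U) (k : ℕ) : R :=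
  x (sw1 h C (up h k s) s) * y (sw1 h C (s \ up h k s) s)

theorem mem_up {h : U → ℕ} {k : ℕ} {s : Finset U} {v : U} : v ∈ up h k s ↔ v ∈ s ∧ k ≤ h v := by
  unfold up
  exact Finset.mem_filter

theorem below_insert (h : U → ℕ) {C : Finset U} {w : U} (hw : w ∉ C) (v : U) :
    below h (insert w C) v = below h C v + if h w < h v then 1 else 0 := by
  unfold below
  rw [Finset.filter_insert]
  split_ifs with h1
  · rw [Finset.card_insert_of_notMem fun h2 => hw (Finset.mem_filter.1 h2).1]
  · rfl

/-- the telescoping function does not change where there is no vertex -/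
theorem tel_step (h : U → ℕ) (x y : Finset U → R) (C s : Finset U) (k : ℕ)
    (hk : ∀ v ∈ s, h v = k → v ∈ C) : tel h x y C s k = tel h x y C s (k + 1) := by
  have h1 : ∀ v ∈ s, v ∉ C → (v ∈ up h k s ↔ v ∈ up h (k + 1) s) := by
    intro v hv hC
    rw [mem_up, mem_up]
    have h5 : h v ≠ k := fun h0 => hC (hk v hv h0)
    constructor
    · rintro ⟨_, h2⟩
      exact ⟨hv, by omega⟩
    · rintro ⟨_, h2⟩
      exact ⟨hv, by omega⟩
  have h2 : sw1 h C (up h k s) s = sw1 h C (up h (k + 1) s) s := by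
    unfold sw1
    refine Finset.filter_congr fun v hv => ?_
    by_cases hC : v ∈ C
    · simp [hC]
    · rw [h1 v hv hC]
  have h3 : sw1 h C (s \ up h k s) s = sw1 h C (s \ up h (k + 1) s) s := by
    unfold sw1
    refine Finset.filter_congr fun v hv => ?_
    by_cases hC : v ∈ C
    · simp [hC]
    · rw [Finset.mem_sdiff, Finset.mem_sdiff, h1 v hv hC]
  unfold tel
  rw [h2, h3]

theorem sum_range_tel [CharP R 2] (g : ℕ → R) (N : ℕ) :
    ∑ k ∈ Finset.range N, (g k + g (k + 1)) = g 0 + g N := by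
  induction N with
  | zero => simp [add_self_two]
  | succ N ih =>
    rw [Finset.sum_range_succ, ih]
    have := add_self_two (g N)
    calc g 0 + g N + (g N + g (N + 1)) = g 0 + (g N + g N) + g (N + 1) := by ring
      _ = g 0 + g (N + 1) := by rw [this, add_zero]

/-- the telescoping sum -/
theorem sum_tel [CharP R 2] (h : U → ℕ) (x y : Finset U → R) (C s : Finset U)
    (hs : Set.InjOn h (s : Set U)) (N : ℕ) (hN : ∀ v ∈ s, h v < N) :
    ∑ w ∈ s \ C, (tel h x y C s (h w) + tel h x y C s (h w + 1)) =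
      tel h x y C s 0 + tel h x y C s N := by
  rw [← sum_range_tel (tel h x y C s) N]
  have h1 : ∑ w ∈ s \ C, (tel h x y C s (h w) + tel h x y C s (h w + 1)) =
      ∑ k ∈ (s \ C).image h, (tel h x y C s k + tel h x y C s (k + 1)) := by
    rw [Finset.sum_image]
    intro a ha b hb hab
    exact hs (Finset.mem_coe.2 (Finset.mem_sdiff.1 (Finset.mem_coe.1 ha)).1)
      (Finset.mem_coe.2 (Finset.mem_sdiff.1 (Finset.mem_coe.1 hb)).1) hab
  rw [h1]
  refine Finset.sum_subset ?_ ?_
  · intro k hk
    obtain ⟨v, hv, rfl⟩ := Finset.mem_image.1 hk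
    exact Finset.mem_range.2 (hN v (Finset.mem_sdiff.1 hv).1)
  · intro k _ hk
    rw [← tel_step h x y C s k, add_self_two]
    intro v hv hvk
    by_contra hC
    exact hk (Finset.mem_image.2 ⟨v, Finset.mem_sdiff.2 ⟨hv, hC⟩, hvk⟩)

/-- the two terms of a common vertex -/
theorem terms_eq [CharP R 2] (h : U → ℕ) (x y : Finset U → R) {C s : Finset U}
    (hs : Set.InjOn h (s : Set U)) {w : U} (hw : w ∈ s) (hC : w ∉ C) :
    x ((face1 h (insert w C) s).erase w) * y (face2 h (insert w C) s) +
        x (face1 h (insert w C) s) * y ((face2 h (insert w C) s).erase w) =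
      tel h x y C s (h w) + tel h x y C s (h w + 1) := by
  have hne : ∀ v ∈ s, v ≠ w → h v ≠ h w := fun v hv hvw he => hvw (hs hv hw he)
  -- membership for the other vertices
  have h1 : ∀ k, (k = h w ∨ k = h w + 1) → ∀ v ∈ s, v ≠ w →
      (v ∈ face1 h (insert w C) s ↔ v ∈ sw1 h C (up h k s) s) := by
    intro k hk v hv hvw
    have h2 := hne v hv hvw
    unfold face1 sw1
    rw [Finset.mem_filter, Finset.mem_filter, Finset.mem_insert, below_insert h hC, mem_up]
    by_cases h3 : h w < h v
    · have h4 : k ≤ h v := by rcases hk with rfl | rfl <;> omega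
      simp only [h3, if_true, hv, true_and, h4, not_true, iff_false, Nat.even_add_one, hvw,
        false_or]
    · have h4 : ¬ k ≤ h v := by rcases hk with rfl | rfl <;> omega
      simp only [h3, if_false, hv, true_and, h4, not_false_eq_true, iff_true, add_zero, hvw,
        false_or]
  have h1' : ∀ k, (k = h w ∨ k = h w + 1) → ∀ v ∈ s, v ≠ w →
      (v ∈ face2 h (insert w C) s ↔ v ∈ sw1 h C (s \ up h k s) s) := by
    intro k hk v hv hvw
    have h2 := hne v hv hvw
    unfold face2 sw1
    rw [Finset.mem_filter, Finset.mem_filter, Finset.mem_insert, below_insert h hC,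
      Finset.mem_sdiff, mem_up]
    by_cases h3 : h w < h v
    · have h4 : k ≤ h v := by rcases hk with rfl | rfl <;> omega
      simp only [h3, if_true, hv, true_and, h4, not_true, and_false, not_false_eq_true, iff_true,
        Nat.even_add_one, not_not, hvw, false_or]
    · have h4 : ¬ k ≤ h v := by rcases hk with rfl | rfl <;> omega
      simp only [h3, if_false, hv, true_and, h4, not_false_eq_true, not_true, iff_false, add_zero,
        hvw, false_or]
  -- membership of `w`
  have hw1 : w ∈ face1 h (insert w C) s := Finset.mem_filter.2 ⟨hw, Or.inl (mem_insert_self _ _)⟩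
  have hw2 : w ∈ face2 h (insert w C) s := Finset.mem_filter.2 ⟨hw, Or.inl (mem_insert_self _ _)⟩
  have hsub1 : face1 h (insert w C) s ⊆ s := Finset.filter_subset _ _
  have hsub2 : face2 h (insert w C) s ⊆ s := Finset.filter_subset _ _
  have hsw : ∀ F, sw1 h C F s ⊆ s := fun F => Finset.filter_subset _ _
  have e1 : ∀ k, (k = h w ∨ k = h w + 1) → w ∈ sw1 h C (up h k s) s →
      sw1 h C (up h k s) s = face1 h (insert w C) s := by
    intro k hk hm
    ext v
    by_cases hv : v ∈ s
    · by_cases hvw : v = w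
      · subst hvw
        exact ⟨fun _ => hw1, fun _ => hm⟩
      · exact (h1 k hk v hv hvw).symm
    · exact ⟨fun h0 => absurd (hsw _ h0) hv, fun h0 => absurd (hsub1 h0) hv⟩
  have e2 : ∀ k, (k = h w ∨ k = h w + 1) → w ∉ sw1 h C (up h k s) s →
      sw1 h C (up h k s) s = (face1 h (insert w C) s).erase w := by
    intro k hk hm
    ext v
    rw [Finset.mem_erase]
    by_cases hv : v ∈ s
    · by_cases hvw : v = w
      · subst hvw
        exact ⟨fun h0 => absurd h0 hm, fun h0 => absurd rfl h0.1⟩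
      · rw [h1 k hk v hv hvw]
        exact ⟨fun h0 => ⟨hvw, h0⟩, fun h0 => h0.2⟩
    · exact ⟨fun h0 => absurd (hsw _ h0) hv, fun h0 => absurd (hsub1 h0.2) hv⟩
  have e3 : ∀ k, (k = h w ∨ k = h w + 1) → w ∈ sw1 h C (s \ up h k s) s →
      sw1 h C (s \ up h k s) s = face2 h (insert w C) s := by
    intro k hk hm
    ext v
    by_cases hv : v ∈ s
    · by_cases hvw : v = w
      · subst hvw
        exact ⟨fun _ => hw2, fun _ => hm⟩
      · exact (h1' k hk v hv hvw).symm
    · exact ⟨fun h0 => absurd (hsw _ h0) hv, fun h0 => absurd (hsub2 h0) hv⟩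
  have e4 : ∀ k, (k = h w ∨ k = h w + 1) → w ∉ sw1 h C (s \ up h k s) s →
      sw1 h C (s \ up h k s) s = (face2 h (insert w C) s).erase w := by
    intro k hk hm
    ext v
    rw [Finset.mem_erase]
    by_cases hv : v ∈ s
    · by_cases hvw : v = w
      · subst hvw
        exact ⟨fun h0 => absurd h0 hm, fun h0 => absurd rfl h0.1⟩
      · rw [h1' k hk v hv hvw]
        exact ⟨fun h0 => ⟨hvw, h0⟩, fun h0 => h0.2⟩
    · exact ⟨fun h0 => absurd (hsw _ h0) hv, fun h0 => absurd (hsub2 h0.2) hv⟩
  have m1 : w ∈ sw1 h C (up h (h w) s) s ↔ ¬ Even (below h C w) := by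
    unfold sw1
    rw [Finset.mem_filter, mem_up]
    simp [hw, hC]
  have m2 : w ∈ sw1 h C (up h (h w + 1) s) s ↔ Even (below h C w) := by
    unfold sw1
    rw [Finset.mem_filter, mem_up]
    simp [hw, hC]
  have m3 : w ∈ sw1 h C (s \ up h (h w) s) s ↔ Even (below h C w) := by
    unfold sw1
    rw [Finset.mem_filter, Finset.mem_sdiff, mem_up]
    simp [hw, hC]
  have m4 : w ∈ sw1 h C (s \ up h (h w + 1) s) s ↔ ¬ Even (below h C w) := by
    unfold sw1
    rw [Finset.mem_filter, Finset.mem_sdiff, mem_up]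
    simp [hw, hC]
  unfold tel
  by_cases he : Even (below h C w)
  · rw [e2 _ (Or.inl rfl) (fun h0 => m1.1 h0 he), e3 _ (Or.inl rfl) (m3.2 he),
      e1 _ (Or.inr rfl) (m2.2 he), e4 _ (Or.inr rfl) (fun h0 => m4.1 h0 he)]
  · rw [e1 _ (Or.inl rfl) (m1.2 he), e4 _ (Or.inl rfl) (fun h0 => he (m3.1 h0)),
      e2 _ (Or.inr rfl) (fun h0 => he (m2.1 h0)), e3 _ (Or.inr rfl) (m4.2 he)]
    exact add_comm _ _

theorem face1_subset (h : U → ℕ) (B s : Finset U) : face1 h B s ⊆ s := Finset.filter_subset _ _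

theorem face2_subset (h : U → ℕ) (B s : Finset U) : face2 h B s ⊆ s := Finset.filter_subset _ _

theorem face1_erase (h : U → ℕ) (B s : Finset U) (w : U) :
    face1 h B (s.erase w) = (face1 h B s).erase w := by
  unfold face1
  rw [Finset.filter_erase]

theorem face2_erase (h : U → ℕ) (B s : Finset U) (w : U) :
    face2 h B (s.erase w) = (face2 h B s).erase w := by
  unfold face2
  rw [Finset.filter_erase]

/-- a sum over the pairs of a set with `m + 1` elements and an element of it -/
theorem sum_pairs {M : Type} [AddCommMonoid M] (s : Finset U) (m : ℕ) (F : Finset U → U → M) :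
    ∑ B ∈ s.powersetCard (m + 1), ∑ w ∈ B, F B w =
      ∑ C ∈ s.powersetCard m, ∑ w ∈ s \ C, F (insert w C) w := by
  rw [Finset.sum_sigma', Finset.sum_sigma']
  refine Finset.sum_bij' (fun p _ => ⟨p.1.erase p.2, p.2⟩) (fun p _ => ⟨insert p.2 p.1, p.2⟩)
    ?_ ?_ ?_ ?_ ?_
  · rintro ⟨B, w⟩ hp
    rw [Finset.mem_sigma, Finset.mem_powersetCard] at hp
    obtain ⟨⟨h1, h2⟩, h3⟩ := hp
    rw [Finset.mem_sigma, Finset.mem_powersetCard, Finset.mem_sdiff]
    refine ⟨⟨(Finset.erase_subset _ _).trans h1, ?_⟩, h1 h3, Finset.notMem_erase _ _⟩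
    show (B.erase w).card = m
    rw [Finset.card_erase_of_mem h3]
    have : B.card = m + 1 := h2
    omega
  · rintro ⟨C, w⟩ hp
    rw [Finset.mem_sigma, Finset.mem_powersetCard, Finset.mem_sdiff] at hp
    obtain ⟨⟨h1, h2⟩, h3, h4⟩ := hp
    rw [Finset.mem_sigma, Finset.mem_powersetCard]
    refine ⟨⟨Finset.insert_subset h3 h1, ?_⟩, Finset.mem_insert_self _ _⟩
    show (insert w C).card = m + 1
    rw [Finset.card_insert_of_notMem h4]
    have : C.card = m := h2
    omega
  · rintro ⟨B, w⟩ hp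
    rw [Finset.mem_sigma] at hp
    show (⟨insert w (B.erase w), w⟩ : Σ _ : Finset U, U) = ⟨B, w⟩
    rw [Finset.insert_erase hp.2]
  · rintro ⟨C, w⟩ hp
    rw [Finset.mem_sigma, Finset.mem_sdiff] at hp
    show (⟨(insert w C).erase w, w⟩ : Σ _ : Finset U, U) = ⟨C, w⟩
    rw [Finset.erase_insert hp.2.2]
  · rintro ⟨B, w⟩ hp
    rw [Finset.mem_sigma] at hp
    show F B w = F (insert w (B.erase w)) w
    rw [Finset.insert_erase hp.2]

/-- **The coboundary of the cup products.** -/
theorem cob_cup [CharP R 2] (h : U → ℕ) (m : ℕ) (x y : Finset U → R) (s : Finset U)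
    (hs : Set.InjOn h (s : Set U)) :
    cob (cup h (m + 1) x y) s = cup h (m + 1) (cob x) y s + cup h (m + 1) x (cob y) s +
      (cup h m x y s + cup h m y x s) := by
  -- the left side
  have hL : cob (cup h (m + 1) x y) s = ∑ B ∈ s.powersetCard (m + 1), ∑ w ∈ s \ B,
      x ((face1 h B s).erase w) * y ((face2 h B s).erase w) := by
    unfold cob cup
    rw [Finset.sum_sigma', Finset.sum_sigma']
    refine Finset.sum_bij' (fun p _ => ⟨p.2, p.1⟩) (fun p _ => ⟨p.2, p.1⟩) ?_ ?_ ?_ ?_ ?_
    · rintro ⟨w, B⟩ hp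
      rw [Finset.mem_sigma, Finset.mem_powersetCard] at hp
      obtain ⟨h1, h2, h3⟩ := hp
      rw [Finset.mem_sigma, Finset.mem_powersetCard, Finset.mem_sdiff]
      refine ⟨⟨h2.trans (Finset.erase_subset _ _), h3⟩, h1, fun h4 => ?_⟩
      exact Finset.notMem_erase _ _ (h2 h4)
    · rintro ⟨B, w⟩ hp
      rw [Finset.mem_sigma, Finset.mem_powersetCard, Finset.mem_sdiff] at hp
      obtain ⟨⟨h1, h2⟩, h3, h4⟩ := hp
      rw [Finset.mem_sigma, Finset.mem_powersetCard]
      refine ⟨h3, fun v hv => Finset.mem_erase.2 ⟨?_, h1 hv⟩, h2⟩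
      rintro rfl
      exact h4 hv
    · rintro ⟨w, B⟩ _
      rfl
    · rintro ⟨B, w⟩ _
      rfl
    · rintro ⟨w, B⟩ _
      show x (face1 h B (s.erase w)) * y (face2 h B (s.erase w)) = _
      rw [face1_erase, face2_erase]
  -- the right side
  have hR : cup h (m + 1) (cob x) y s + cup h (m + 1) x (cob y) s =
      (∑ B ∈ s.powersetCard (m + 1), ∑ w ∈ s \ B,
        x ((face1 h B s).erase w) * y ((face2 h B s).erase w)) +
      ∑ B ∈ s.powersetCard (m + 1), ∑ w ∈ B,
        (x ((face1 h B s).erase w) * y (face2 h B s) +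
          x (face1 h B s) * y ((face2 h B s).erase w)) := by
    unfold cup cob
    rw [← Finset.sum_add_distrib, ← Finset.sum_add_distrib]
    refine Finset.sum_congr rfl fun B hB => ?_
    rw [Finset.mem_powersetCard] at hB
    have hd1 : face1 h B s = (face1 h B s \ B) ∪ B := by
      rw [Finset.sdiff_union_of_subset]
      intro v hv
      exact Finset.mem_filter.2 ⟨hB.1 hv, Or.inl hv⟩
    have hd2 : face2 h B s = (face2 h B s \ B) ∪ B := by
      rw [Finset.sdiff_union_of_subset]
      intro v hv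
      exact Finset.mem_filter.2 ⟨hB.1 hv, Or.inl hv⟩
    have hs1 : ∑ w ∈ face1 h B s, x ((face1 h B s).erase w) =
        ∑ w ∈ face1 h B s \ B, x ((face1 h B s).erase w) +
          ∑ w ∈ B, x ((face1 h B s).erase w) := by
      conv_lhs => rw [hd1]
      rw [Finset.sum_union Finset.sdiff_disjoint, ← hd1]
    have hs2 : ∑ w ∈ face2 h B s, y ((face2 h B s).erase w) =
        ∑ w ∈ face2 h B s \ B, y ((face2 h B s).erase w) +
          ∑ w ∈ B, y ((face2 h B s).erase w) := by
      conv_lhs => rw [hd2]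
      rw [Finset.sum_union Finset.sdiff_disjoint, ← hd2]
    have hs3 : ∑ w ∈ s \ B, x ((face1 h B s).erase w) * y ((face2 h B s).erase w) =
        (∑ w ∈ face1 h B s \ B, x ((face1 h B s).erase w)) * y (face2 h B s) +
          x (face1 h B s) * ∑ w ∈ face2 h B s \ B, y ((face2 h B s).erase w) := by
      have hdis : Disjoint (face1 h B s \ B) (face2 h B s \ B) := by
        rw [Finset.disjoint_left]
        intro v hv1 hv2
        rw [Finset.mem_sdiff] at hv1 hv2
        have h1 := (Finset.mem_filter.1 hv1.1).2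
        have h2 := (Finset.mem_filter.1 hv2.1).2
        rcases h1 with h1 | h1
        · exact hv1.2 h1
        · rcases h2 with h2 | h2
          · exact hv1.2 h2
          · exact h2 h1
      have hun : s \ B = (face1 h B s \ B) ∪ (face2 h B s \ B) := by
        ext v
        rw [Finset.mem_union, Finset.mem_sdiff, Finset.mem_sdiff, Finset.mem_sdiff]
        constructor
        · rintro ⟨h1, h2⟩
          by_cases h3 : Even (below h B v)
          · exact Or.inl ⟨Finset.mem_filter.2 ⟨h1, Or.inr h3⟩, h2⟩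
          · exact Or.inr ⟨Finset.mem_filter.2 ⟨h1, Or.inr h3⟩, h2⟩
        · rintro (⟨h1, h2⟩ | ⟨h1, h2⟩)
          · exact ⟨face1_subset _ _ _ h1, h2⟩
          · exact ⟨face2_subset _ _ _ h1, h2⟩
      rw [hun, Finset.sum_union hdis, Finset.sum_mul, Finset.mul_sum]
      congr 1
      · refine Finset.sum_congr rfl fun w hw => ?_
        rw [Finset.erase_eq_of_notMem (s := face2 h B s)]
        intro h1
        have h2 := (Finset.mem_sdiff.1 hw)
        exact Finset.disjoint_left.1 hdis hw (Finset.mem_sdiff.2 ⟨h1, h2.2⟩)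
      · refine Finset.sum_congr rfl fun w hw => ?_
        rw [Finset.erase_eq_of_notMem (s := face1 h B s)]
        intro h1
        have h2 := (Finset.mem_sdiff.1 hw)
        exact Finset.disjoint_left.1 hdis (Finset.mem_sdiff.2 ⟨h1, h2.2⟩) hw
    rw [hs3, Finset.sum_add_distrib, ← Finset.sum_mul, ← Finset.mul_sum]
    show (∑ w ∈ face1 h B s, x ((face1 h B s).erase w)) * y (face2 h B s) +
      x (face1 h B s) * (∑ w ∈ face2 h B s, y ((face2 h B s).erase w)) = _
    rw [hs1, hs2]
    ring
  rw [hL, hR, sum_pairs s m fun B w => x ((face1 h B s).erase w) * y (face2 h B s) +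
    x (face1 h B s) * y ((face2 h B s).erase w)]
  rw [add_assoc]
  have hN : ∃ N, ∀ v ∈ s, h v < N := ⟨s.sup h + 1, fun v hv => Nat.lt_succ_of_le (Finset.le_sup hv)⟩
  obtain ⟨N, hN⟩ := hN
  have h1 : ∀ C ∈ s.powersetCard m, ∑ w ∈ s \ C,
      (x ((face1 h (insert w C) s).erase w) * y (face2 h (insert w C) s) +
        x (face1 h (insert w C) s) * y ((face2 h (insert w C) s).erase w)) =
      x (face1 h C s) * y (face2 h C s) + y (face1 h C s) * x (face2 h C s) := by
    intro C _
    have h2 : ∀ w ∈ s \ C, x ((face1 h (insert w C) s).erase w) * y (face2 h (insert w C) s) +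
        x (face1 h (insert w C) s) * y ((face2 h (insert w C) s).erase w) =
        tel h x y C s (h w) + tel h x y C s (h w + 1) := fun w hw =>
      terms_eq h x y hs (Finset.mem_sdiff.1 hw).1 (Finset.mem_sdiff.1 hw).2
    rw [Finset.sum_congr rfl h2, sum_tel h x y C s hs N hN]
    have h3 : up h 0 s = s := by
      unfold up
      exact Finset.filter_true_of_mem fun v _ => Nat.zero_le _
    have h4 : up h N s = ∅ := by
      unfold up
      exact Finset.filter_false_of_mem fun v hv h0 => absurd (hN v hv) (not_lt.2 h0)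
    unfold tel
    rw [h3, h4, Finset.sdiff_self, Finset.sdiff_empty, sw1_empty, sw1_self]
    ring
  rw [Finset.sum_congr rfl h1, Finset.sum_add_distrib]
  unfold cup
  rw [add_self_two, add_zero]

end Pool.Agent.H37.TM

end

section

/-!
# Project TM: auxiliary file for `Tot` (1)

The operator `D` on the functions of the pairs `(s, t)` of simplices.
-/

set_option autoImplicit false

open Finset

namespace Pool.Agent.H37.TM.TotX

variable {V : Type*} [DecidableEq V]

/-- The simplicial boundary on finite chains modulo 2, augmented (the empty simplex is kept). -/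
noncomputable def sbd : (Finset V →₀ ZMod 2) →ₗ[ZMod 2] (Finset V →₀ ZMod 2) :=
  Finsupp.linearCombination (ZMod 2) fun s => ∑ v ∈ s, Finsupp.single (s.erase v) 1

/-- `x` is a cochain of size `j` on the simplices of `I` which contain `s` -/
def Supp (I : Set (Finset V)) (s : Finset V) (j : ℕ) (x : Finset V → ZMod 2) : Prop :=
  ∀ t, x t ≠ 0 → t ∈ I ∧ s ⊆ t ∧ t.card = j

/-- the coboundary of a cochain on the simplices containing `s` -/
def cob (s : Finset V) (x : Finset V → ZMod 2) (t : Finset V) : ZMod 2 :=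
  ∑ w ∈ t \ s, x (t.erase w)

/-- A locally finite simplicial complex `faces` of dimension `n` with a subcomplex `bd` such
that the cochains on the simplices containing a simplex `s`, modulo `bd`, have the cohomology
of a ball modulo its boundary, and such that the complex is acyclic modulo 2 in the degrees
less than `dd`. -/
structure MX (V : Type*) [DecidableEq V] (n : ℕ) where
  faces : Set (Finset V)
  bd : Set (Finset V)
  ne : ∀ s ∈ faces, s.Nonempty
  down : ∀ t ∈ faces, ∀ s ⊆ t, s.Nonempty → s ∈ faces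
  bd_down : ∀ t ∈ bd, ∀ s ⊆ t, s.Nonempty → s ∈ bd
  card_le : ∀ s ∈ faces, s.card ≤ n + 1
  fin : ∀ v, {t | t ∈ faces ∧ v ∈ t}.Finite
  loc : ∀ s ∈ faces, ∀ j < n, ∀ x : Finset V → ZMod 2, Supp (faces \ bd) s (j + 1) x →
    (∀ t ∈ faces, s ⊆ t → cob s x t = 0) →
    ∃ y : Finset V → ZMod 2, Supp (faces \ bd) s j y ∧
      ∀ t ∈ faces, s ⊆ t → x t = cob s y t
  top : ∀ s ∈ faces, ∀ x : Finset V → ZMod 2, Supp (faces \ bd) s (n + 1) x →
    (∑ᶠ t, x t = 0 ↔ ∃ y : Finset V → ZMod 2, Supp (faces \ bd) s n y ∧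
      ∀ t ∈ faces, s ⊆ t → x t = cob s y t)
  ex_top : ∀ s ∈ faces, ∃ t ∈ faces \ bd, s ⊆ t ∧ t.card = n + 1
  nonempty : faces.Nonempty
  dd : ℕ
  acyc : ∀ c : Finset V →₀ ZMod 2, (∀ s ∈ c.support, s ∈ faces ∧ s.card ≤ dd) → sbd c = 0 →
    ∃ b : Finset V →₀ ZMod 2, (∀ s ∈ b.support, s ∈ faces) ∧ sbd b = c

/-- interior simplices -/
def MX.int {n : ℕ} (M : MX V n) : Set (Finset V) := M.faces \ M.bd

/-- The boundary of `Tot`, as an operator on all functions of the pairs `(s, t)`. -/
noncomputable def MX.D {n : ℕ} (M : MX V n) (z : Finset V × Finset V → ZMod 2)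
    (p : Finset V × Finset V) : ZMod 2 :=
  open Classical in
  if p.1.Nonempty ∧ p.1 ⊆ p.2 ∧ p.2 ∈ M.faces then
    ∑ w ∈ p.2 \ p.1, (z (insert w p.1, p.2) + z (p.1, p.2.erase w)) else 0

/-- the pairs of degree `k` -/
def MX.Good {n : ℕ} (M : MX V n) (k : ℕ) (p : Finset V × Finset V) : Prop :=
  p.1.Nonempty ∧ p.1 ⊆ p.2 ∧ p.2 ∈ M.int ∧ p.1.card + n = p.2.card + k

/-- chains of degree `k` of `Tot` -/
def MX.IsTot {n : ℕ} (M : MX V n) (k : ℕ) (z : Finset V × Finset V → ZMod 2) : Prop :=
  (Function.support z).Finite ∧ ∀ p, z p ≠ 0 → M.Good k p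

theorem zmod2_add_self (a : ZMod 2) : a + a = 0 := by
  revert a; decide

/-- a symmetric sum over the ordered pairs of different elements is zero modulo 2 -/
theorem sum_pairs_symm {U : Type*} [DecidableEq U] (A : Finset U) (G : U → U → ZMod 2)
    (hG : ∀ u w, G u w = G w u) : ∑ w ∈ A, ∑ u ∈ A.erase w, G w u = 0 := by
  have h1 : ∑ w ∈ A, ∑ u ∈ A.erase w, G w u = ∑ p ∈ A.offDiag, G p.1 p.2 := by
    rw [Finset.sum_sigma' A (fun w => A.erase w) (fun w u => G w u)]
    refine Finset.sum_bij' (fun p _ => (p.1, p.2)) (fun p _ => ⟨p.1, p.2⟩) ?_ ?_ ?_ ?_ ?_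
    · rintro ⟨w, u⟩ h
      simp only [Finset.mem_sigma, Finset.mem_erase, Finset.mem_offDiag] at h ⊢
      exact ⟨h.1, h.2.2, fun e => h.2.1 e.symm⟩
    · rintro ⟨w, u⟩ h
      simp only [Finset.mem_sigma, Finset.mem_erase, Finset.mem_offDiag] at h ⊢
      exact ⟨h.1, fun e => h.2.2 e.symm, h.2.1⟩
    · rintro ⟨w, u⟩ _; rfl
    · rintro ⟨w, u⟩ _; rfl
    · rintro ⟨w, u⟩ _; rfl
  rw [h1]
  refine Finset.sum_involution (fun p _ => (p.2, p.1)) ?_ ?_ ?_ ?_
  · rintro ⟨w, u⟩ _
    simp only
    rw [hG u w]; exact zmod2_add_self _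
  · rintro ⟨w, u⟩ h _ e
    simp only [Finset.mem_offDiag, Prod.mk.injEq] at h e
    exact h.2.2 e.2
  · rintro ⟨w, u⟩ h
    simp only [Finset.mem_offDiag] at h ⊢
    exact ⟨h.2.1, h.1, fun e => h.2.2 e.symm⟩
  · rintro ⟨w, u⟩ _; rfl

variable {n : ℕ} (M : MX V n)

theorem MX.D_of {z : Finset V × Finset V → ZMod 2} {s t : Finset V} (hs : s.Nonempty)
    (hst : s ⊆ t) (ht : t ∈ M.faces) :
    M.D z (s, t) = ∑ w ∈ t \ s, (z (insert w s, t) + z (s, t.erase w)) := by
  classical
  unfold MX.D
  rw [if_pos ⟨hs, hst, ht⟩]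

theorem MX.D_of_not {z : Finset V × Finset V → ZMod 2} {p : Finset V × Finset V}
    (h : ¬ (p.1.Nonempty ∧ p.1 ⊆ p.2 ∧ p.2 ∈ M.faces)) : M.D z p = 0 := by
  classical
  unfold MX.D
  rw [if_neg h]

theorem MX.D_add (z z' : Finset V × Finset V → ZMod 2) :
    M.D (z + z') = M.D z + M.D z' := by
  classical
  funext p
  by_cases h : p.1.Nonempty ∧ p.1 ⊆ p.2 ∧ p.2 ∈ M.faces
  · obtain ⟨s, t⟩ := p
    rw [Pi.add_apply, M.D_of h.1 h.2.1 h.2.2, M.D_of h.1 h.2.1 h.2.2, M.D_of h.1 h.2.1 h.2.2,
      ← Finset.sum_add_distrib]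
    refine Finset.sum_congr rfl fun w _ => ?_
    simp only [Pi.add_apply]; ring
  · rw [Pi.add_apply, M.D_of_not h, M.D_of_not h, M.D_of_not h, add_zero]

theorem MX.D_zero : M.D (0 : Finset V × Finset V → ZMod 2) = 0 := by
  classical
  funext p
  by_cases h : p.1.Nonempty ∧ p.1 ⊆ p.2 ∧ p.2 ∈ M.faces
  · obtain ⟨s, t⟩ := p
    rw [M.D_of h.1 h.2.1 h.2.2]; simp
  · rw [M.D_of_not h]; rfl

/-- `D` has square zero, on all functions. -/
theorem MX.D_D (z : Finset V × Finset V → ZMod 2) : M.D (M.D z) = 0 := by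
  classical
  funext p
  by_cases h : p.1.Nonempty ∧ p.1 ⊆ p.2 ∧ p.2 ∈ M.faces
  swap
  · rw [M.D_of_not h]; rfl
  obtain ⟨s, t⟩ := p
  obtain ⟨hs, hst, ht⟩ := h
  simp only at hs hst ht
  rw [M.D_of hs hst ht]
  have key : ∀ w ∈ t \ s, (M.D z (insert w s, t) + M.D z (s, t.erase w)) =
      ∑ u ∈ (t \ s).erase w, ((z (insert u (insert w s), t) + z (insert w s, t.erase u)) +
        (z (insert u s, t.erase w) + z (s, (t.erase w).erase u))) := by
    intro w hw
    rw [Finset.mem_sdiff] at hw
    have h1 : insert w s ⊆ t := Finset.insert_subset hw.1 hst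
    have h2 : s ⊆ t.erase w := Finset.subset_erase.2 ⟨hst, hw.2⟩
    have h3 : t.erase w ∈ M.faces := M.down t ht _ (Finset.erase_subset _ _) (hs.mono h2)
    have e1 : t \ insert w s = (t \ s).erase w := by
      ext u; simp only [Finset.mem_sdiff, Finset.mem_insert, Finset.mem_erase]; tauto
    have e2 : t.erase w \ s = (t \ s).erase w := by
      ext u; simp only [Finset.mem_sdiff, Finset.mem_erase]; tauto
    rw [M.D_of (Finset.insert_nonempty _ _) h1 ht, M.D_of hs h2 h3, e1, e2,
      ← Finset.sum_add_distrib]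
  rw [Finset.sum_congr rfl key]
  refine sum_pairs_symm (t \ s) (fun w u => (z (insert u (insert w s), t) +
    z (insert w s, t.erase u)) + (z (insert u s, t.erase w) + z (s, (t.erase w).erase u))) ?_
  intro u w
  rw [Finset.insert_comm u w s, Finset.erase_right_comm (a := w) (b := u)]
  ring

theorem MX.int_sub : M.int ⊆ M.faces := Set.sdiff_subset

theorem MX.int_up {s t : Finset V} (hs : s ∈ M.int) (hst : s ⊆ t) (ht : t ∈ M.faces) :
    t ∈ M.int :=
  ⟨ht, fun hb => hs.2 (M.bd_down t hb s hst (M.ne s hs.1))⟩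

/-- the simplices containing a nonempty set are finite in number -/
theorem MX.fin_up {s : Finset V} (hs : s.Nonempty) :
    {t | t ∈ M.faces ∧ s ⊆ t}.Finite := by
  obtain ⟨v, hv⟩ := hs
  exact (M.fin v).subset fun t ht => ⟨ht.1, ht.2 hv⟩

/-- the boundary of a finite chain of degree `k + 1` is a finite chain of degree `k` -/
theorem MX.isTot_D {k : ℕ} {z : Finset V × Finset V → ZMod 2} (hz : M.IsTot (k + 1) z) :
    M.IsTot k (M.D z) := by
  classical
  constructor
  · have h1 : Function.support (M.D z) ⊆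
        (⋃ p ∈ Function.support z, (fun q : Finset V × Finset V => q) ''
          ((p.1.powerset : Set (Finset V)) ×ˢ {t | t ∈ M.faces ∧ p.2 ⊆ t})) := by
      rintro ⟨s, t⟩ h
      rw [Function.mem_support] at h
      by_cases hc : s.Nonempty ∧ s ⊆ t ∧ t ∈ M.faces
      swap
      · exact absurd (M.D_of_not (p := (s, t)) hc) h
      obtain ⟨hs, hst, ht⟩ := hc
      rw [M.D_of hs hst ht] at h
      obtain ⟨w, hw, hne⟩ := Finset.exists_ne_zero_of_sum_ne_zero h
      rw [Finset.mem_sdiff] at hw
      simp only [Set.image_id', Set.mem_iUnion, exists_prop]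
      by_cases h2 : z (insert w s, t) = 0
      · have h3 : z (s, t.erase w) ≠ 0 := by
          intro h3; rw [h2, h3, add_zero] at hne; exact hne rfl
        refine ⟨(s, t.erase w), h3, ?_⟩
        simp only [Set.mem_prod, Finset.coe_powerset, Set.mem_preimage, Set.mem_powerset_iff,
          Set.mem_ofPred_eq]
        exact ⟨subset_rfl, ht, Finset.erase_subset _ _⟩
      · refine ⟨(insert w s, t), h2, ?_⟩
        simp only [Set.mem_prod, Finset.coe_powerset, Set.mem_preimage, Set.mem_powerset_iff,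
          Set.mem_ofPred_eq]
        exact ⟨by exact_mod_cast Finset.subset_insert _ _, ht, subset_rfl⟩
    refine Set.Finite.subset ?_ h1
    refine hz.1.biUnion fun p hp => ?_
    refine Set.Finite.image _ ?_
    refine Set.Finite.prod (Finset.finite_toSet _) ?_
    have hg := hz.2 p hp
    exact M.fin_up (M.ne _ (M.int_sub hg.2.2.1))
  · rintro ⟨s, t⟩ h
    by_cases hc : s.Nonempty ∧ s ⊆ t ∧ t ∈ M.faces
    swap
    · exact absurd (M.D_of_not (p := (s, t)) hc) h
    obtain ⟨hs, hst, ht⟩ := hc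
    rw [M.D_of hs hst ht] at h
    obtain ⟨w, hw, hne⟩ := Finset.exists_ne_zero_of_sum_ne_zero h
    rw [Finset.mem_sdiff] at hw
    by_cases h2 : z (insert w s, t) = 0
    · have h3 : z (s, t.erase w) ≠ 0 := by
        intro h3; rw [h2, h3, add_zero] at hne; exact hne rfl
      obtain ⟨_, _, g3, g4⟩ := hz.2 _ h3
      refine ⟨hs, hst, M.int_up g3 (Finset.erase_subset _ _) ht, ?_⟩
      simp only at g4 ⊢
      rw [Finset.card_erase_of_mem hw.1] at g4
      have := Finset.card_pos.2 ⟨w, hw.1⟩
      omega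
    · obtain ⟨_, _, g3, g4⟩ := hz.2 _ h2
      refine ⟨hs, hst, g3, ?_⟩
      simp only at g4 ⊢
      rw [Finset.card_insert_of_notMem hw.2] at g4
      omega

theorem MX.isTot_add {k : ℕ} {z z' : Finset V × Finset V → ZMod 2} (hz : M.IsTot k z)
    (hz' : M.IsTot k z') : M.IsTot k (z + z') := by
  refine ⟨(hz.1.union hz'.1).subset (Function.support_add _ _), ?_⟩
  intro p hp
  by_cases h : z p = 0
  · refine hz'.2 p fun h' => hp ?_
    rw [Pi.add_apply, h, h', add_zero]
  · exact hz.2 p h

theorem MX.isTot_zero (k : ℕ) : M.IsTot k (0 : Finset V × Finset V → ZMod 2) := by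
  refine ⟨?_, ?_⟩
  · rw [Function.support_zero]; exact Set.finite_empty
  · intro p hp; exact absurd rfl hp

end Pool.Agent.H37.TM.TotX

end

section

/-!
# Project TM: auxiliary file for `Tot` (2)

Exactness of the complex of pairs, in terms of functions.
-/

set_option autoImplicit false

open Finset

namespace Pool.Agent.H37.TM.TotX

variable {V : Type*} [DecidableEq V] {n : ℕ} (M : MX V n)

/-- filling all the columns of size `m + 1` -/
theorem MX.col_step (k m : ℕ) {z : Finset V × Finset V → ZMod 2} (hz : M.IsTot k z)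
    (hm : ∀ p, z p ≠ 0 → p.1.card ≤ m + 1)
    (hcol : ∀ s : Finset V, s.card = m + 1 → ∃ y : Finset V → ZMod 2,
      (∀ t, y t ≠ 0 → t ∈ M.int ∧ s ⊆ t ∧ t.card + 1 + k = m + 1 + n) ∧
      ∀ t ∈ M.faces, s ⊆ t → z (s, t) = cob s y t) :
    ∃ b, M.IsTot (k + 1) b ∧ ∀ p, (z + M.D b) p ≠ 0 → p.1.card ≤ m := by
  classical
  choose! y hy1 hy2 using hcol
  set b : Finset V × Finset V → ZMod 2 := fun p =>
    if p.1.card = m + 1 ∧ (∃ t, z (p.1, t) ≠ 0) then y p.1 p.2 else 0 with hb
  have hb0 : ∀ p, b p ≠ 0 → p.1.card = m + 1 ∧ (∃ t, z (p.1, t) ≠ 0) ∧ y p.1 p.2 ≠ 0 := by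
    intro p hp
    simp only [hb] at hp
    split_ifs at hp with h
    · exact ⟨h.1, h.2, hp⟩
    · exact absurd rfl hp
  have hbT : M.IsTot (k + 1) b := by
    constructor
    · have h1 : Function.support b ⊆ ⋃ p ∈ Function.support z,
          ({p.1} : Set (Finset V)) ×ˢ {t | t ∈ M.faces ∧ p.1 ⊆ t} := by
        rintro ⟨s, t⟩ h
        obtain ⟨h1, ⟨t', h2⟩, h3⟩ := hb0 _ h
        simp only [Set.mem_iUnion, exists_prop]
        obtain ⟨g1, g2, _⟩ := hy1 s h1 t h3
        exact ⟨(s, t'), h2, rfl, M.int_sub g1, g2⟩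
      refine Set.Finite.subset ?_ h1
      refine hz.1.biUnion fun p hp => ?_
      exact (Set.finite_singleton _).prod (M.fin_up (hz.2 p hp).1)
    · rintro ⟨s, t⟩ h
      obtain ⟨h1, ⟨t', h2⟩, h3⟩ := hb0 _ h
      obtain ⟨g1, g2, g3⟩ := hy1 s h1 t h3
      refine ⟨(hz.2 _ h2).1, g2, g1, ?_⟩
      simp only at h1 ⊢
      omega
  refine ⟨b, hbT, ?_⟩
  rintro ⟨s, t⟩ h
  by_contra hlt
  simp only [not_le] at hlt
  have hg := (M.isTot_add hz (M.isTot_D hbT)).2 _ h
  obtain ⟨hs, hst, htI, _⟩ := hg
  simp only at hs hst htI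
  have htF := M.int_sub htI
  apply h
  rw [Pi.add_apply, M.D_of hs hst htF]
  have e1 : ∀ w ∈ t \ s, b (insert w s, t) + b (s, t.erase w) = b (s, t.erase w) := by
    intro w hw
    rw [Finset.mem_sdiff] at hw
    have : b (insert w s, t) = 0 := by
      by_contra hne
      have := (hb0 _ hne).1
      simp only at this
      rw [Finset.card_insert_of_notMem hw.2] at this
      omega
    rw [this, zero_add]
  rw [Finset.sum_congr rfl e1]
  by_cases hc : s.card = m + 1 ∧ ∃ t, z (s, t) ≠ 0
  · have e2 : ∀ w ∈ t \ s, b (s, t.erase w) = y s (t.erase w) := by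
      intro w _
      simp only [hb]
      rw [if_pos hc]
    rw [Finset.sum_congr rfl e2, hy2 s hc.1 t htF hst]
    exact zmod2_add_self _
  · have e2 : ∀ w ∈ t \ s, b (s, t.erase w) = 0 := by
      intro w _
      simp only [hb]
      rw [if_neg hc]
    rw [Finset.sum_congr rfl e2, Finset.sum_const_zero, add_zero]
    by_contra hne
    have h3 := hm _ hne
    simp only at h3
    exact hc ⟨by omega, t, hne⟩

/-- exactness for the cycles whose first simplices have size at most `k` -/
theorem MX.exact_aux (k : ℕ) : ∀ m ≤ k, ∀ z : Finset V × Finset V → ZMod 2, M.IsTot k z →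
    M.D z = 0 → (∀ p, z p ≠ 0 → p.1.card ≤ m) → ∃ b, M.IsTot (k + 1) b ∧ M.D b = z := by
  intro m
  induction m with
  | zero =>
    intro _ z hz _ h0
    have : z = 0 := by
      funext p
      by_contra hne
      have h1 := h0 p hne
      have h2 := Finset.card_pos.2 (hz.2 p hne).1
      omega
    exact ⟨0, M.isTot_zero _, by rw [this]; exact M.D_zero⟩
  | succ m ih =>
    intro hmk z hz hD hcard
    obtain ⟨b, hb, hb'⟩ := M.col_step k m hz hcard (by
      intro s hs
      by_cases h0 : ∃ t, z (s, t) ≠ 0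
      · obtain ⟨t0, ht0⟩ := h0
        obtain ⟨g1, g2, g3, g4⟩ := hz.2 _ ht0
        simp only at g1 g2 g3 g4
        have hsF : s ∈ M.faces := M.down t0 (M.int_sub g3) s g2 g1
        have hpos : 0 < t0.card := lt_of_lt_of_le (Finset.card_pos.2 g1) (Finset.card_le_card g2)
        obtain ⟨j, hj⟩ : ∃ j, m + 1 + n = j + 1 + k := ⟨t0.card - 1, by omega⟩
        obtain ⟨y, hy1, hy2⟩ := M.loc s hsF j (by omega) (fun t => z (s, t)) (by
          intro t ht
          obtain ⟨_, f2, f3, f4⟩ := hz.2 _ ht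
          simp only at f2 f3 f4
          exact ⟨f3, f2, by omega⟩) (by
          intro t ht hst
          have h1 : M.D z (s, t) = 0 := by rw [hD]; rfl
          rw [M.D_of g1 hst ht] at h1
          rw [← h1]
          unfold cob
          refine Finset.sum_congr rfl fun w hw => ?_
          rw [Finset.mem_sdiff] at hw
          have : z (insert w s, t) = 0 := by
            by_contra hne
            have := hcard _ hne
            simp only at this
            rw [Finset.card_insert_of_notMem hw.2] at this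
            omega
          rw [this, zero_add])
        refine ⟨y, fun t ht => ?_, hy2⟩
        obtain ⟨f1, f2, f3⟩ := hy1 t ht
        exact ⟨f1, f2, by omega⟩
      · push Not at h0
        refine ⟨0, fun t ht => absurd rfl ht, fun t _ _ => ?_⟩
        rw [h0 t]; simp [cob])
    obtain ⟨b', hb1, hb2⟩ := ih (by omega) (z + M.D b) (M.isTot_add hz (M.isTot_D hb))
      (by rw [M.D_add, hD, M.D_D, add_zero]) hb'
    refine ⟨b' + b, M.isTot_add hb1 hb, ?_⟩
    rw [M.D_add, hb2, add_assoc]
    have : M.D b + M.D b = 0 := by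
      funext p; exact zmod2_add_self _
    rw [this, add_zero]

/-- the coefficients of the simplicial boundary -/
theorem sbd_apply (c : Finset V →₀ ZMod 2) (U : Finset V) (hU : ∀ s ∈ c.support, s ⊆ U)
    (s' : Finset V) : sbd c s' = ∑ w ∈ U \ s', c (insert w s') := by
  classical
  have h1 : sbd c s' = ∑ s ∈ c.support, ∑ v ∈ s, if s.erase v = s' then c s else 0 := by
    unfold sbd
    rw [Finsupp.linearCombination_apply, Finsupp.sum, Finsupp.finsetSum_apply]
    refine Finset.sum_congr rfl fun s _ => ?_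
    rw [Finset.smul_sum, Finsupp.finsetSum_apply]
    refine Finset.sum_congr rfl fun v _ => ?_
    rw [Finsupp.smul_single, smul_eq_mul, mul_one, Finsupp.single_apply]
  have h2 : ∑ w ∈ U \ s', c (insert w s') =
      ∑ s ∈ c.support, ∑ w ∈ U \ s', if s = insert w s' then c s else 0 := by
    rw [Finset.sum_comm]
    refine Finset.sum_congr rfl fun w _ => ?_
    rw [Finset.sum_ite_eq']
    split_ifs with h
    · rfl
    · exact Finsupp.notMem_support_iff.1 h
  rw [h1, h2]
  refine Finset.sum_congr rfl fun s hs => ?_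
  rw [← Finset.sum_filter, ← Finset.sum_filter]
  refine Finset.sum_congr ?_ fun _ _ => rfl
  ext v
  simp only [Finset.mem_filter, Finset.mem_sdiff]
  constructor
  · rintro ⟨h3, h4⟩
    refine ⟨⟨hU s hs h3, ?_⟩, ?_⟩
    · rw [← h4]; exact Finset.notMem_erase _ _
    · rw [← h4, Finset.insert_erase h3]
  · rintro ⟨⟨_, h4⟩, h5⟩
    refine ⟨by rw [h5]; exact Finset.mem_insert_self _ _, ?_⟩
    rw [h5, Finset.erase_insert h4]

/-- a finite set of vertices which contains all the simplices around a finite chain -/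
theorem MX.exists_U {k : ℕ} {z : Finset V × Finset V → ZMod 2} (hz : M.IsTot k z) :
    ∃ U : Finset V, ∀ p, z p ≠ 0 → ∀ t ∈ M.faces, p.2 ⊆ t → t ⊆ U := by
  classical
  have h1 : (⋃ p ∈ Function.support z, {t | t ∈ M.faces ∧ p.2 ⊆ t}).Finite :=
    hz.1.biUnion fun p hp => M.fin_up (M.ne _ (M.int_sub (hz.2 p hp).2.2.1))
  refine ⟨h1.toFinset.biUnion id, ?_⟩
  intro p hp t ht hpt
  have : t ∈ h1.toFinset := by
    rw [Set.Finite.mem_toFinset]
    simp only [Set.mem_iUnion, exists_prop]
    exact ⟨p, hp, ht, hpt⟩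
  exact Finset.subset_biUnion_of_mem id this

omit [DecidableEq V] in
/-- a finsum over a finite set containing the support -/
theorem finsum_eq_powerset {x : Finset V → ZMod 2} {U : Finset V}
    (h : ∀ t, x t ≠ 0 → t ⊆ U) : ∑ᶠ t, x t = ∑ t ∈ U.powerset, x t := by
  refine finsum_eq_sum_of_support_subset _ ?_
  intro t ht
  rw [Finset.coe_powerset, Set.mem_preimage, Set.mem_powerset_iff]
  exact_mod_cast h t ht

/-- The top simplices: the chain `c s = sum of z (s, t)` over `t` is a cycle. -/
theorem MX.eps_cycle {k : ℕ} {z : Finset V × Finset V → ZMod 2} (hz : M.IsTot k z)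
    (hD : M.D z = 0) {s' : Finset V} (hs' : s'.Nonempty) (hk : s'.card = k)
    {U : Finset V} (hU : ∀ p, z p ≠ 0 → ∀ t ∈ M.faces, p.2 ⊆ t → t ⊆ U) :
    ∑ w ∈ U \ s', ∑ t ∈ U.powerset, z (insert w s', t) = 0 := by
  classical
  rw [Finset.sum_comm]
  by_cases hsF : s' ∈ M.faces
  swap
  · refine Finset.sum_eq_zero fun t _ => Finset.sum_eq_zero fun w _ => ?_
    by_contra hne
    obtain ⟨_, g2, g3, _⟩ := hz.2 _ hne
    exact hsF (M.down t (M.int_sub g3) s' ((Finset.subset_insert _ _).trans g2) hs')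
  have hx : ∀ t ∈ U.powerset, ∑ w ∈ U \ s', z (insert w s', t) =
      if s' ⊆ t ∧ t ∈ M.faces then cob s' (fun t => z (s', t)) t else 0 := by
    intro t ht
    rw [Finset.mem_powerset] at ht
    split_ifs with hc
    · have h1 : M.D z (s', t) = 0 := by rw [hD]; rfl
      rw [M.D_of hs' hc.1 hc.2, Finset.sum_add_distrib] at h1
      have h2 : ∑ w ∈ U \ s', z (insert w s', t) = ∑ w ∈ t \ s', z (insert w s', t) := by
        symm
        refine Finset.sum_subset (Finset.sdiff_subset_sdiff ht subset_rfl) ?_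
        intro w hw hwt
        by_contra hne
        obtain ⟨_, g2, _, _⟩ := hz.2 _ hne
        rw [Finset.mem_sdiff] at hw
        exact hwt (Finset.mem_sdiff.2 ⟨g2 (Finset.mem_insert_self _ _), hw.2⟩)
      rw [h2]
      unfold cob
      exact (CharTwo.add_eq_zero).1 h1
    · refine Finset.sum_eq_zero fun w _ => ?_
      by_contra hne
      obtain ⟨_, g2, g3, _⟩ := hz.2 _ hne
      exact hc ⟨(Finset.subset_insert _ _).trans g2, M.int_sub g3⟩
  rw [Finset.sum_congr rfl hx]
  have hsz : ∀ t, z (s', t) ≠ 0 → t ∈ M.int ∧ s' ⊆ t ∧ t.card = n := by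
    intro t ht
    obtain ⟨_, g2, g3, g4⟩ := hz.2 _ ht
    simp only at g2 g3 g4
    exact ⟨g3, g2, by omega⟩
  have hcob : ∀ t, (if s' ⊆ t ∧ t ∈ M.faces then cob s' (fun t => z (s', t)) t else 0) ≠ 0 →
      t ∈ M.faces ∧ s' ⊆ t ∧ ∃ w ∈ t \ s', z (s', t.erase w) ≠ 0 := by
    intro t ht
    split_ifs at ht with hc
    · obtain ⟨w, hw, hne⟩ := Finset.exists_ne_zero_of_sum_ne_zero ht
      exact ⟨hc.2, hc.1, w, hw, hne⟩
    · exact absurd rfl ht
  rw [← finsum_eq_powerset (U := U) (x := fun t =>
    if s' ⊆ t ∧ t ∈ M.faces then cob s' (fun t => z (s', t)) t else 0)]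
  · refine (M.top s' hsF _ ?_).2 ⟨fun t => z (s', t), hsz, ?_⟩
    · intro t ht
      obtain ⟨g1, g2, w, hw, hne⟩ := hcob t ht
      obtain ⟨f1, f2, f3⟩ := hsz _ hne
      rw [Finset.mem_sdiff] at hw
      refine ⟨M.int_up f1 (Finset.erase_subset _ _) g1, g2, ?_⟩
      rw [Finset.card_erase_of_mem hw.1] at f3
      have := Finset.card_pos.2 ⟨w, hw.1⟩
      omega
    · intro t ht hst
      rw [if_pos ⟨hst, ht⟩]
  · intro t ht
    obtain ⟨g1, g2, w, hw, hne⟩ := hcob t ht
    exact hU _ hne t g1 (Finset.erase_subset _ _)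

/-- a common finite set of vertices for two finite chains and a finite chain of simplices -/
theorem MX.exists_U3 {k k' : ℕ} {z z' : Finset V × Finset V → ZMod 2} (hz : M.IsTot k z)
    (hz' : M.IsTot k' z') (c : Finset V →₀ ZMod 2) :
    ∃ U : Finset V, (∀ p, z p ≠ 0 → ∀ t ∈ M.faces, p.2 ⊆ t → t ⊆ U) ∧
      (∀ p, z' p ≠ 0 → ∀ t ∈ M.faces, p.2 ⊆ t → t ⊆ U) ∧ ∀ s ∈ c.support, s ⊆ U := by
  classical
  obtain ⟨U1, h1⟩ := M.exists_U hz
  obtain ⟨U2, h2⟩ := M.exists_U hz'
  refine ⟨U1 ∪ U2 ∪ c.support.biUnion id, ?_, ?_, ?_⟩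
  · intro p hp t ht hpt
    exact (h1 p hp t ht hpt).trans (Finset.subset_union_left.trans Finset.subset_union_left)
  · intro p hp t ht hpt
    exact (h2 p hp t ht hpt).trans (Finset.subset_union_right.trans Finset.subset_union_left)
  · intro s hs
    exact (Finset.subset_biUnion_of_mem id hs).trans Finset.subset_union_right

/-- for a pair of degree `k` the size of the first simplex is at most `k + 1` -/
theorem MX.Good.card_le {k : ℕ} {p : Finset V × Finset V} (h : M.Good k p) :
    p.1.card ≤ k + 1 := by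
  have h1 := M.card_le _ (M.int_sub h.2.2.1)
  have h2 := h.2.2.2
  omega

/-- The complex `Tot` is exact: a cycle of degree `k` (for `k = 0`: with sum zero) is a
boundary. -/
theorem MX.exact (k : ℕ) (hkd : k + 1 ≤ M.dd) {z : Finset V × Finset V → ZMod 2} (hz : M.IsTot k z)
    (hD : M.D z = 0) (h0 : k = 0 → ∑ᶠ p, z p = 0) :
    ∃ b, M.IsTot (k + 1) b ∧ M.D b = z := by
  classical
  -- the chain of the top parts
  obtain ⟨U, hU⟩ := M.exists_U hz
  have hzU : ∀ s t, z (s, t) ≠ 0 → t ⊆ U := fun s t h =>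
    hU _ h t (M.int_sub (hz.2 _ h).2.2.1) subset_rfl
  have hcfin : (Function.support fun s : Finset V =>
      if s.card = k + 1 then ∑ t ∈ U.powerset, z (s, t) else 0).Finite := by
    refine (Finset.finite_toSet U.powerset).subset ?_
    intro s hs
    rw [Function.mem_support] at hs
    split_ifs at hs with h
    · obtain ⟨t, ht, hne⟩ := Finset.exists_ne_zero_of_sum_ne_zero hs
      rw [Finset.mem_coe, Finset.mem_powerset]
      exact (hz.2 _ hne).2.1.trans (hzU s t hne)
    · exact absurd rfl hs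
  set c : Finset V →₀ ZMod 2 := Finsupp.ofSupportFinite _ hcfin with hc
  have hcs : ∀ s, c s = if s.card = k + 1 then ∑ t ∈ U.powerset, z (s, t) else 0 := fun s => rfl
  have hcsupp : ∀ s ∈ c.support, s ∈ M.faces ∧ s ⊆ U ∧ s.card = k + 1 := by
    intro s hs
    rw [Finsupp.mem_support_iff, hcs] at hs
    split_ifs at hs with h
    · obtain ⟨t, ht, hne⟩ := Finset.exists_ne_zero_of_sum_ne_zero hs
      have hg := hz.2 _ hne
      exact ⟨M.down t (M.int_sub hg.2.2.1) s hg.2.1 hg.1, hg.2.1.trans (hzU s t hne), h⟩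
    · exact absurd rfl hs
  have hcyc : sbd c = 0 := by
    ext s'
    rw [sbd_apply c U (fun s hs => (hcsupp s hs).2.1), Finsupp.zero_apply]
    by_cases hk : s'.card = k
    · have e1 : ∀ w ∈ U \ s', c (insert w s') = ∑ t ∈ U.powerset, z (insert w s', t) := by
        intro w hw
        rw [Finset.mem_sdiff] at hw
        rw [hcs, Finset.card_insert_of_notMem hw.2, if_pos (by omega)]
      rw [Finset.sum_congr rfl e1]
      by_cases hs' : s'.Nonempty
      · exact M.eps_cycle hz hD hs' hk hU
      · rw [Finset.not_nonempty_iff_eq_empty] at hs'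
        subst hs'
        have hk0 : k = 0 := by rw [← hk]; rfl
        rw [← h0 hk0]
        have h3 : ∑ᶠ p, z p = ∑ p ∈ U.image (fun w => ({w} : Finset V)) ×ˢ U.powerset, z p := by
          refine finsum_eq_sum_of_support_subset _ ?_
          rintro ⟨s, t⟩ h
          have hg := hz.2 _ h
          have hg1 := MX.Good.card_le M hg
          have hg2 := Finset.card_pos.2 hg.1
          have hg3 : s.card = 1 := by simp only at hg1 hg2; omega
          obtain ⟨v, hv⟩ := Finset.card_eq_one.1 hg3
          have hg4 := hzU s t h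
          rw [Finset.mem_coe, Finset.mem_product, Finset.mem_image, Finset.mem_powerset]
          refine ⟨⟨v, hg4 (hg.2.1 ?_), hv.symm⟩, hg4⟩
          simp [hv]
        rw [h3, Finset.sum_product, Finset.sum_image (by
          intro a _ b _ hab
          simpa using hab)]
        rw [Finset.sdiff_empty]
        rfl
    · refine Finset.sum_eq_zero fun w hw => ?_
      rw [Finset.mem_sdiff] at hw
      rw [hcs, Finset.card_insert_of_notMem hw.2, if_neg (by omega)]
  obtain ⟨b0, hb0, hb0c⟩ := M.acyc c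
    (fun s hs => ⟨(hcsupp s hs).1, (hcsupp s hs).2.2 ▸ hkd⟩) hcyc
  -- move `b0` to the top simplices
  have htop : ∀ s : Finset V, ∃ t : Finset V, s ∈ M.faces → t ∈ M.int ∧ s ⊆ t ∧
      t.card = n + 1 := by
    intro s
    by_cases hs : s ∈ M.faces
    · obtain ⟨t, h1, h2, h3⟩ := M.ex_top s hs
      exact ⟨t, fun _ => ⟨h1, h2, h3⟩⟩
    · exact ⟨∅, fun h => absurd h hs⟩
  choose τ hτ using htop
  set b1 : Finset V × Finset V → ZMod 2 := fun p =>
    if p.1.card = k + 2 ∧ p.2 = τ p.1 then b0 p.1 else 0 with hb1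
  have hb1ne : ∀ p, b1 p ≠ 0 → p.1.card = k + 2 ∧ p.2 = τ p.1 ∧ b0 p.1 ≠ 0 := by
    intro p hp
    simp only [hb1] at hp
    split_ifs at hp with h
    · exact ⟨h.1, h.2, hp⟩
    · exact absurd rfl hp
  have hb1T : M.IsTot (k + 1) b1 := by
    constructor
    · refine ((Finset.finite_toSet b0.support).image (fun s => (s, τ s))).subset ?_
      rintro ⟨s, t⟩ h
      obtain ⟨_, h2, h3⟩ := hb1ne _ h
      simp only at h2 h3
      exact ⟨s, Finsupp.mem_support_iff.2 h3, by rw [h2]⟩
    · rintro ⟨s, t⟩ h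
      obtain ⟨h1, h2, h3⟩ := hb1ne _ h
      simp only at h1 h2 h3
      obtain ⟨g1, g2, g3⟩ := hτ s (hb0 s (Finsupp.mem_support_iff.2 h3))
      refine ⟨Finset.card_pos.1 (by simp only; omega), by rw [h2]; exact g2,
        by rw [h2]; exact g1, ?_⟩
      simp only
      rw [h2, g3]; omega
  have hz1 := M.isTot_add hz (M.isTot_D hb1T)
  have hD1 : M.D (z + M.D b1) = 0 := by rw [M.D_add, hD, M.D_D, add_zero]
  -- the sums over the top simplices vanish
  have hsum : ∀ s' : Finset V, s'.card = k + 1 → ∑ᶠ t, (z + M.D b1) (s', t) = 0 := by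
    intro s' hs'
    have hs'ne : s'.Nonempty := Finset.card_pos.1 (by omega)
    obtain ⟨W, hW1, hW2, hW3⟩ := M.exists_U3 hz hb1T (c + b0)
    obtain ⟨W', hW'1, hW'2, hW'3⟩ := M.exists_U3 hz hb1T b0
    set X := W ∪ W' ∪ U with hX
    have hX1 : ∀ t, z (s', t) ≠ 0 → t ⊆ X := fun t h =>
      (hzU s' t h).trans Finset.subset_union_right
    have hXz : ∑ᶠ t, z (s', t) = c s' := by
      rw [finsum_eq_powerset (U := U) (fun t h => hzU s' t h), hcs, if_pos hs']
    have hXz' : ∑ t ∈ X.powerset, z (s', t) = c s' := by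
      rw [← finsum_eq_powerset (U := X) (fun t h => hX1 t h), hXz]
    have hXD : ∀ t, M.D b1 (s', t) ≠ 0 → t ⊆ X := by
      intro t h
      have hg := (M.isTot_D hb1T).2 _ h
      have htF := M.int_sub hg.2.2.1
      rw [M.D_of hg.1 hg.2.1 htF] at h
      obtain ⟨w, hw, hne⟩ := Finset.exists_ne_zero_of_sum_ne_zero h
      by_cases h2 : b1 (insert w s', t) = 0
      · have h3 : b1 (s', t.erase w) ≠ 0 := by
          intro h3; rw [h2, h3, add_zero] at hne; exact hne rfl
        exact (hW2 _ h3 t htF (Finset.erase_subset _ _)).trans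
          (Finset.subset_union_left.trans Finset.subset_union_left)
      · exact (hW2 _ h2 t htF subset_rfl).trans
          (Finset.subset_union_left.trans Finset.subset_union_left)
    rw [finsum_eq_powerset (U := X) (by
      intro t h
      by_cases h2 : z (s', t) = 0
      · refine hXD t fun h3 => h ?_
        rw [Pi.add_apply, h2, h3, add_zero]
      · exact hX1 t h2)]
    simp only [Pi.add_apply]
    rw [Finset.sum_add_distrib, hXz']
    have hDs : ∀ t ∈ X.powerset, M.D b1 (s', t) = ∑ w ∈ X \ s', b1 (insert w s', t) := by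
      intro t ht
      rw [Finset.mem_powerset] at ht
      by_cases hct : s' ⊆ t ∧ t ∈ M.faces
      · rw [M.D_of hs'ne hct.1 hct.2]
        have e1 : ∀ w ∈ t \ s', b1 (insert w s', t) + b1 (s', t.erase w) =
            b1 (insert w s', t) := by
          intro w _
          have : b1 (s', t.erase w) = 0 := by
            by_contra hne
            have := (hb1ne _ hne).1
            simp only at this
            omega
          rw [this, add_zero]
        rw [Finset.sum_congr rfl e1]
        refine Finset.sum_subset (Finset.sdiff_subset_sdiff ht subset_rfl) ?_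
        intro w hw hwt
        by_contra hne
        have hg := hb1T.2 _ hne
        rw [Finset.mem_sdiff] at hw
        exact hwt (Finset.mem_sdiff.2 ⟨hg.2.1 (Finset.mem_insert_self _ _), hw.2⟩)
      · rw [M.D_of_not (fun h => hct ⟨h.2.1, h.2.2⟩)]
        symm
        refine Finset.sum_eq_zero fun w _ => ?_
        by_contra hne
        have hg := hb1T.2 _ hne
        exact hct ⟨(Finset.subset_insert _ _).trans hg.2.1, M.int_sub hg.2.2.1⟩
    rw [Finset.sum_congr rfl hDs, Finset.sum_comm]
    have hin : ∀ w ∈ X \ s', ∑ t ∈ X.powerset, b1 (insert w s', t) = b0 (insert w s') := by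
      intro w hw
      rw [Finset.mem_sdiff] at hw
      have hcd : (insert w s').card = k + 2 := by
        rw [Finset.card_insert_of_notMem hw.2, hs']
      by_cases hne : b0 (insert w s') = 0
      · rw [hne]
        refine Finset.sum_eq_zero fun t _ => ?_
        by_contra h
        exact (hb1ne _ h).2.2 hne
      · have hF := hb0 _ (Finsupp.mem_support_iff.2 hne)
        obtain ⟨g1, g2, g3⟩ := hτ _ hF
        have h4 : b1 (insert w s', τ (insert w s')) = b0 (insert w s') := by
          simp only [hb1]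
          rw [if_pos ⟨hcd, trivial⟩]
        have h5 : τ (insert w s') ⊆ X := (hW2 _ (by rw [h4]; exact hne) _ (M.int_sub g1)
          subset_rfl).trans (Finset.subset_union_left.trans Finset.subset_union_left)
        rw [Finset.sum_eq_single (τ (insert w s')), h4]
        · intro t _ ht
          by_contra h
          exact ht (hb1ne _ h).2.1
        · intro h
          exact absurd (Finset.mem_powerset.2 h5) h
    rw [Finset.sum_congr rfl hin, ← sbd_apply b0 X (fun s hs => (hW'3 s hs).trans
      (Finset.subset_union_right.trans Finset.subset_union_left)), hb0c]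
    exact zmod2_add_self _
  obtain ⟨b2, hb2, hb2'⟩ := M.col_step k k hz1 (fun p hp => MX.Good.card_le M (hz1.2 p hp)) (by
    intro s hs
    by_cases h0 : ∃ t, (z + M.D b1) (s, t) ≠ 0
    · obtain ⟨t0, ht0⟩ := h0
      obtain ⟨g1, g2, g3, g4⟩ := hz1.2 _ ht0
      have hsF : s ∈ M.faces := M.down t0 (M.int_sub g3) s g2 g1
      obtain ⟨y, hy1, hy2⟩ := (M.top s hsF (fun t => (z + M.D b1) (s, t)) (by
        intro t ht
        obtain ⟨_, f2, f3, f4⟩ := hz1.2 _ ht
        simp only at f2 f3 f4
        exact ⟨f3, f2, by omega⟩)).1 (hsum s hs)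
      refine ⟨y, fun t ht => ?_, hy2⟩
      obtain ⟨f1, f2, f3⟩ := hy1 t ht
      exact ⟨f1, f2, by omega⟩
    · push Not at h0
      refine ⟨0, fun t ht => absurd rfl ht, fun t _ _ => ?_⟩
      rw [h0 t]; simp [cob])
  have hz2 := M.isTot_add hz1 (M.isTot_D hb2)
  obtain ⟨b3, hb3, hb3'⟩ := M.exact_aux k k le_rfl _ hz2
    (by rw [M.D_add, hD1, M.D_D, add_zero]) hb2'
  refine ⟨b1 + b2 + b3, M.isTot_add (M.isTot_add hb1T hb2) hb3, ?_⟩
  rw [M.D_add, M.D_add, hb3']
  funext p
  simp only [Pi.add_apply]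
  have h1 := zmod2_add_self (M.D b1 p)
  have h2 := zmod2_add_self (M.D b2 p)
  linear_combination h1 + h2

end Pool.Agent.H37.TM.TotX

end

section

/-!
# Project TM: the unstable relation

`a A` (`A` a finite set of labels) are cocycles on the subsets of a simplex `s`, `hp b` functions on the
vertices. `WW` is the product of the coboundaries of the `hp b` and of the square of `a ∅`; it is the coboundary
of `VT`.
-/

set_option autoImplicit false
set_option linter.unusedSectionVars false

open Finset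

namespace Pool.Agent.H37.TM

variable {U V : Type} [DecidableEq U] [DecidableEq V] {R : Type} [CommRing R]

/-- the lowest elements -/
def lows (ht : U → ℕ) (s : Finset U) : Finset U := s.filter fun v => ∀ u ∈ s, ht v ≤ ht u

/-- the value of `h` at the lowest vertex -/
def hmin (ht : U → ℕ) (h : U → R) (s : Finset U) : R := ∑ v ∈ lows ht s, h v

theorem lows_eq {ht : U → ℕ} {s : Finset U} (hs : Set.InjOn ht (s : Set U)) {v : U} (hv : v ∈ s)
    (hm : ∀ u ∈ s, ht v ≤ ht u) : lows ht s = {v} := by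
  ext u
  unfold lows
  rw [Finset.mem_filter, Finset.mem_singleton]
  constructor
  · rintro ⟨h1, h2⟩
    exact hs h1 hv (le_antisymm (h2 v hv) (hm u h1))
  · rintro rfl
    exact ⟨hv, hm⟩

theorem exists_low (ht : U → ℕ) {s : Finset U} (hs : s.Nonempty) : ∃ v ∈ s, ∀ u ∈ s, ht v ≤ ht u :=
  Finset.exists_min_image s ht hs

theorem cup_zero_left {ht : U → ℕ} {j : ℕ} {x y : Finset U → R} {s : Finset U}
    (hx : ∀ t ⊆ s, x t = 0) : cup ht j x y s = 0 :=
  Finset.sum_eq_zero fun B _ => by rw [hx _ (face1_subset _ _ _), zero_mul]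

theorem cup_zero_right {ht : U → ℕ} {j : ℕ} {x y : Finset U → R} {s : Finset U}
    (hy : ∀ t ⊆ s, y t = 0) : cup ht j x y s = 0 :=
  Finset.sum_eq_zero fun B _ => by rw [hy _ (face2_subset _ _ _), mul_zero]

/-- the coboundary of the cup product of cocycles -/
theorem cob_cup' [CharP R 2] {ht : U → ℕ} {j : ℕ} {x y : Finset U → R} {s : Finset U}
    (hs : Set.InjOn ht (s : Set U)) (hx : ∀ t ⊆ s, cob x t = 0) (hy : ∀ t ⊆ s, cob y t = 0) :
    cob (cup ht (j + 1) x y) s = cup ht j x y s + cup ht j y x s := by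
  rw [cob_cup ht j x y s hs, cup_zero_left hx, cup_zero_right hy, zero_add, zero_add]

end Pool.Agent.H37.TM

end

section

/-!
# Project TM: invariance and support of the cochain `VT`
-/

set_option autoImplicit false
set_option linter.unusedSectionVars false

open Finset Pointwise

namespace Pool.Agent.H37.TM

variable {U V : Type} [DecidableEq U] [DecidableEq V] {R : Type} [CommRing R]

section

variable {Γ : Type} [Group Γ] [MulAction Γ U] {ht : U → ℕ} {g : Γ}

theorem mem_smul_iff' {s : Finset U} {u : U} : g • u ∈ g • s ↔ u ∈ s := Finset.smul_mem_smul_finset_iff g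

theorem below_smul (hg : ∀ u, ht (g • u) = ht u) (B : Finset U) (v : U) :
    below ht (g • B) (g • v) = below ht B v := by
  unfold below
  have h1 : ((g • B).filter fun b => ht b < ht (g • v)) = g • B.filter fun b => ht b < ht v := by
    ext w
    obtain ⟨u, rfl⟩ : ∃ u, g • u = w := ⟨g⁻¹ • w, smul_inv_smul g w⟩
    rw [Finset.mem_filter, mem_smul_iff', mem_smul_iff', Finset.mem_filter, hg, hg]
  rw [h1, Finset.card_smul_finset]

theorem face1_smul (hg : ∀ u, ht (g • u) = ht u) (B s : Finset U) :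
    face1 ht (g • B) (g • s) = g • face1 ht B s := by
  ext w
  obtain ⟨u, rfl⟩ : ∃ u, g • u = w := ⟨g⁻¹ • w, smul_inv_smul g w⟩
  rw [mem_smul_iff']
  unfold face1
  rw [Finset.mem_filter, Finset.mem_filter, mem_smul_iff', mem_smul_iff', below_smul hg]

theorem face2_smul (hg : ∀ u, ht (g • u) = ht u) (B s : Finset U) :
    face2 ht (g • B) (g • s) = g • face2 ht B s := by
  ext w
  obtain ⟨u, rfl⟩ : ∃ u, g • u = w := ⟨g⁻¹ • w, smul_inv_smul g w⟩
  rw [mem_smul_iff']
  unfold face2
  rw [Finset.mem_filter, Finset.mem_filter, mem_smul_iff', mem_smul_iff', below_smul hg]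

theorem lows_smul (hg : ∀ u, ht (g • u) = ht u) (s : Finset U) :
    lows ht (g • s) = g • lows ht s := by
  ext w
  obtain ⟨u, rfl⟩ : ∃ u, g • u = w := ⟨g⁻¹ • w, smul_inv_smul g w⟩
  rw [mem_smul_iff']
  unfold lows
  rw [Finset.mem_filter, Finset.mem_filter, mem_smul_iff']
  refine and_congr_right fun _ => ⟨fun h v hv => ?_, fun h v hv => ?_⟩
  · have := h (g • v) (mem_smul_iff'.2 hv)
    rwa [hg, hg] at this
  · obtain ⟨v', rfl⟩ : ∃ v', g • v' = v := ⟨g⁻¹ • v, smul_inv_smul g v⟩
    rw [hg, hg]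
    exact h v' (mem_smul_iff'.1 hv)

theorem erase_smul (s : Finset U) (v : U) : (g • s).erase (g • v) = g • s.erase v := by
  ext w
  obtain ⟨u, rfl⟩ : ∃ u, g • u = w := ⟨g⁻¹ • w, smul_inv_smul g w⟩
  rw [mem_smul_iff', Finset.mem_erase, Finset.mem_erase, mem_smul_iff']
  refine and_congr_left fun _ => not_congr ?_
  exact (MulAction.injective g).eq_iff

theorem sum_smul {M : Type} [AddCommMonoid M] (s : Finset U) (F : U → M) :
    ∑ v ∈ g • s, F v = ∑ v ∈ s, F (g • v) := by
  show ∑ v ∈ s.image (g • ·), F v = _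
  exact Finset.sum_image fun a _ b _ h => MulAction.injective g h

theorem sum_powersetCard_smul {M : Type} [AddCommMonoid M] (s : Finset U) (j : ℕ)
    (F : Finset U → M) :
    ∑ B ∈ (g • s).powersetCard j, F B = ∑ B ∈ s.powersetCard j, F (g • B) := by
  refine Finset.sum_bij' (fun B _ => g⁻¹ • B) (fun B _ => g • B) ?_ ?_ ?_ ?_ ?_
  · intro B hB
    rw [Finset.mem_powersetCard] at hB ⊢
    refine ⟨?_, by rw [Finset.card_smul_finset]; exact hB.2⟩
    have h1 := Finset.smul_finset_subset_smul_finset_iff (a := g⁻¹).2 hB.1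
    rwa [inv_smul_smul] at h1
  · intro B hB
    rw [Finset.mem_powersetCard] at hB ⊢
    exact ⟨Finset.smul_finset_subset_smul_finset_iff.2 hB.1, by
      rw [Finset.card_smul_finset]; exact hB.2⟩
  · intro B _
    exact smul_inv_smul g B
  · intro B _
    exact inv_smul_smul g B
  · intro B _
    rw [smul_inv_smul]

end

end Pool.Agent.H37.TM

end
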