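import Pool.Agent.H71.TSG.M04
import Pool.Agent.H71.TSG.M14

/-! The parts of this file: H37.TM.MDefs_1, H37.TM.Path, H37.TM.Psm, H37.TM.Tot_1, H37.TM.Defs, H37.TM.Path_1, H37.TM.Up. -/

section

/-!
# Project TM (top degree): homology manifolds

`Mfd K B n` = simplicial complexes `K` which are homology manifolds of dimension `n` over the field of two
elements, with boundary `B`; `Acyc K` = acyclic over the field of two elements; `MAct` = free actions.
-/

set_option autoImplicit false
set_option linter.unusedSectionVars false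

open Finset Pointwise

namespace Pool.Agent.H37.TM

variable {U : Type} [DecidableEq U]

theorem Acyc.lt {K : Set (Finset U)} (h : Acyc K) (d : ℕ) : AcycLt K d :=
  fun f hf => h f fun s hs => (hf s hs).1

/-- a free simplicial action with an invariant height which is injective on the simplices -/
structure MAct (Γ : Type) [Group Γ] [MulAction Γ U] (K B : Set (Finset U)) (n : ℕ)
    (ht : U → ℕ) : Prop where
  K_mem : ∀ (g : Γ) (s : Finset U), s ∈ K → g • s ∈ K
  B_mem : ∀ (g : Γ) (s : Finset U), s ∈ B → g • s ∈ B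
  free : ∀ (g : Γ) (s : Finset U), s ∈ K → g • s = s → g = 1
  ht_smul : ∀ (g : Γ) (u : U), ht (g • u) = ht u
  ht_inj : ∀ s ∈ K, Set.InjOn ht (s : Set U)
  ht_le : ∀ s ∈ K, ∀ u ∈ s, ht u ≤ n

end Pool.Agent.H37.TM

end

section

/-!
# Project TM: the complex of tuples, monotone paths in cubes, products of one-cocycles
-/

set_option autoImplicit false
set_option linter.unusedSectionVars false

open Finset

namespace Pool.Agent.H37.TM

open Pool.Agent.H19.Cub

section

variable {α β : Type}

/-- the (augmented) boundary of a tuple: the sum of the tuples with one entry removed -/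
noncomputable def bdl : List α → (List α →₀ ZMod 2)
  | [] => 0
  | x :: l => Finsupp.single l 1 + (bdl l).mapDomain (x :: ·)

/-- the boundary of the complex of tuples -/
noncomputable def BL : (List α →₀ ZMod 2) →ₗ[ZMod 2] (List α →₀ ZMod 2) := lin bdl

end

section

variable {V X : Type} [DecidableEq V]

/-- the boundary of the cube `(c, σ)`, `c` = the vertex with bits `0` -/
noncomputable def bdD (Q : CubeComplex V X) (x₀ : X) (e : Q.Cover x₀ × Finset V) :
    Q.Cover x₀ × Finset V →₀ ZMod 2 :=
  ∑ v ∈ e.2, (Finsupp.single (e.1, e.2.erase v) 1 +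
    Finsupp.single (Q.nbc x₀ v e.1, e.2.erase v) 1)

/-- the cubes of dimension `i` of the universal cover, represented by the vertex with bits `0` -/
def Cell (Q : CubeComplex V X) (x₀ : X) (bit : X → V → ZMod 2) (i : ℕ) :
    Set (Q.Cover x₀ × Finset V) :=
  {e | e.2 ⊆ Q.lab (Q.proj x₀ e.1) ∧ Q.graph.IsClique (e.2 : Set V) ∧ e.2.card = i ∧
    ∀ v ∈ e.2, bit (Q.proj x₀ e.1) v = 0}

/-! #### cliques of labels at a vertex of the cover -/

end

section

end

end Pool.Agent.H37.TM

end

section

/-!
# Project TM: pseudomanifolds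

`Psm K B n`: what is used of the manifold apart from the exactness of the complex of pairs. The
simplicial complex of the flags of a homology manifold is of this kind.
-/

set_option autoImplicit false
set_option linter.unusedSectionVars false

open Finset Pointwise

namespace Pool.Agent.H37.TM

variable {U : Type} [DecidableEq U]

/-- Locally finite complexes of dimension `n` with a subcomplex `B` such that every simplex with
`n` vertices which is not in `B` has an even number of cofaces. -/
structure Psm (K B : Set (Finset U)) (n : ℕ) : Prop where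
  ne : ∀ s ∈ K, s.Nonempty
  down : ∀ s ∈ K, ∀ t, t ⊆ s → t.Nonempty → t ∈ K
  bd_sub : B ⊆ K
  bd_down : ∀ s ∈ B, ∀ t, t ⊆ s → t.Nonempty → t ∈ B
  locfin : ∀ s ∈ K, {t | t ∈ K ∧ s ⊆ t}.Finite
  card_le : ∀ s ∈ K, s.card ≤ n + 1
  even : ∀ s ∈ K, s ∉ B → s.card = n → ((cofs K s (n + 1)).card : ZMod 2) = 0

theorem mem_cofsP {K B : Set (Finset U)} {n : ℕ} (hM : Psm K B n) {t : Finset U} (ht : t ∈ K)
    {j : ℕ} {t' : Finset U} : t' ∈ cofs K t j ↔ t' ∈ K ∧ t ⊆ t' ∧ t'.card = j := by
  have h : {t' | t' ∈ K ∧ t ⊆ t' ∧ t'.card = j}.Finite :=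
    (hM.locfin t ht).subset fun t' h => ⟨h.1, h.2.1⟩
  unfold cofs
  rw [dif_pos h, Set.Finite.mem_toFinset]
  rfl

/-- an interior simplex with `n` vertices has an even number of cofaces -/
theorem card_cofs_even {K B : Set (Finset U)} {n : ℕ} (hM : Mfd K B n) {s : Finset U}
    (hs : s ∈ K) (hB : s ∉ B) (hc : s.card = n) : ((cofs K s (n + 1)).card : ZMod 2) = 0 := by
  classical
  have hB' : ∀ t ∈ K, s ⊆ t → t ∉ B := fun t _ hst h => hB (hM.bd_down t h s hst (hM.ne s hs))
  have h1 := (hM.top s hs (fun t => if t ∈ cofs K s (n + 1) then 1 else 0) (by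
    intro t ht'
    beta_reduce at ht'
    split_ifs at ht' with h
    · rw [mem_cofs hM hs] at h
      exact ⟨h.1, hB' t h.1 h.2.1, h.2⟩
    · exact absurd rfl ht')).2 ⟨fun t => if t = s then 1 else 0, by
      intro t ht'
      beta_reduce at ht'
      split_ifs at ht' with h
      · rw [h]; exact ⟨hs, hB, subset_rfl, hc⟩
      · exact absurd rfl ht', by
      intro t htK htB hst
      beta_reduce
      have hcard := hM.card_le t htK
      have hst' := Finset.card_le_card hst
      by_cases h : t.card = n + 1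
      · rw [if_pos ((mem_cofs hM hs).2 ⟨htK, hst, h⟩)]
        have h7 : (t \ s).card = 1 := by
          rw [Finset.card_sdiff_of_subset hst]; omega
        obtain ⟨w, hw⟩ := Finset.card_eq_one.1 h7
        rw [hw, Finset.sum_singleton, if_pos]
        have hw1 : w ∈ t ∧ w ∉ s := by
          rw [← Finset.mem_sdiff, hw]; exact Finset.mem_singleton_self w
        have h8 : s ⊆ t.erase w := Finset.subset_erase.2 ⟨hst, hw1.2⟩
        refine (Finset.eq_of_subset_of_card_le h8 ?_).symm
        rw [Finset.card_erase_of_mem hw1.1]; omega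
      · rw [if_neg (fun h' => h ((mem_cofs hM hs).1 h').2.2)]
        have h9 : t = s := (Finset.eq_of_subset_of_card_le hst (by omega)).symm
        rw [h9, Finset.sdiff_self, Finset.sum_empty]⟩
  rw [← h1, finsum_eq_sum_of_support_subset (s := cofs K s (n + 1)) _ (by
    intro t ht'
    rw [Function.mem_support] at ht'
    split_ifs at ht' with h
    · exact h
    · exact absurd rfl ht'), Finset.sum_ite_mem, Finset.inter_self, Finset.sum_const,
    nsmul_eq_mul, mul_one]

theorem Mfd.psm {K B : Set (Finset U)} {n : ℕ} (hM : Mfd K B n) : Psm K B n where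
  ne := hM.ne
  down := hM.down
  bd_sub := hM.bd_sub
  bd_down := hM.bd_down
  locfin := hM.locfin
  card_le := hM.card_le
  even := fun _ hs hB hc => card_cofs_even hM hs hB hc

/-- a free simplicial action -/
structure SAct (Γ : Type) [Group Γ] [MulAction Γ U] (K B : Set (Finset U)) : Prop where
  K_mem : ∀ (g : Γ) (s : Finset U), s ∈ K → g • s ∈ K
  B_mem : ∀ (g : Γ) (s : Finset U), s ∈ B → g • s ∈ B
  free : ∀ (g : Γ) (s : Finset U), s ∈ K → g • s = s → g = 1

theorem MAct.sact {Γ : Type} [Group Γ] [MulAction Γ U] {K B : Set (Finset U)} {n : ℕ}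
    {ht : U → ℕ} (hA : MAct Γ K B n ht) : SAct Γ K B := ⟨hA.K_mem, hA.B_mem, hA.free⟩

end Pool.Agent.H37.TM

end

section

/-!
# Project TM: the double complex of pairs

`E = Finset U × Finset U`; a cell of index `m + 1` is a pair `(σ, τ)` with `∅ ≠ σ ⊆ τ`, `τ` in `K` but not in
`B`, `|σ| + n = |τ| + m`; the only cell of index `0` is `(∅, ∅)` (augmentation). The boundary lowers `σ` and
raises `τ`.
-/

set_option autoImplicit false
set_option linter.unusedSectionVars false

open Finset Pointwise

namespace Pool.Agent.H37.TM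

variable {U : Type} [DecidableEq U]

/-- the boundary -/
noncomputable def bdT (K : Set (Finset U)) (n : ℕ) :
    (Finset U × Finset U →₀ ZMod 2) →ₗ[ZMod 2] (Finset U × Finset U →₀ ZMod 2) :=
  Finsupp.linearCombination (ZMod 2) (bdE K n)

/-- the chains of index `i` -/
noncomputable def TN (K B : Set (Finset U)) (n : ℕ) (i : ℕ) :
    Submodule (ZMod 2) (Finset U × Finset U →₀ ZMod 2) :=
  Finsupp.supported (ZMod 2) (ZMod 2) (TCell K B n i)

/-- The homology manifold as an object of the auxiliary files. -/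
def toMX {K B : Set (Finset U)} {n d : ℕ} (hM : Mfd K B n) (hK : AcycLt K d) : TotX.MX U n where
  faces := K
  bd := B
  ne := hM.ne
  down := hM.down
  bd_down := hM.bd_down
  card_le := hM.card_le
  fin := by
    intro v
    by_cases h : ({v} : Finset U) ∈ K
    · refine (hM.locfin _ h).subset fun t ht => ⟨ht.1, ?_⟩
      rw [Finset.singleton_subset_iff]; exact ht.2
    · refine Set.Finite.subset Set.finite_empty fun t ht => ?_
      exact absurd (hM.down t ht.1 {v} (Finset.singleton_subset_iff.2 ht.2)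
        (Finset.singleton_nonempty v)) h
  loc := by
    intro s hs j hj x hx h0
    obtain ⟨g, hg, hg'⟩ := hM.low s hs j hj x
      (fun t ht => ⟨(hx t ht).1.1, (hx t ht).1.2, (hx t ht).2⟩)
      (fun t ht _ hst => h0 t ht hst)
    refine ⟨g, fun t ht => ⟨⟨(hg t ht).1, (hg t ht).2.1⟩, (hg t ht).2.2⟩, fun t ht hst => ?_⟩
    by_cases hB : t ∈ B
    · have h1 : x t = 0 := by
        by_contra hne
        exact (hx t hne).1.2 hB
      rw [h1]
      symm
      refine Finset.sum_eq_zero fun w _ => ?_
      by_contra hne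
      obtain ⟨g1, g2, _⟩ := hg _ hne
      exact g2 (hM.bd_down t hB _ (Finset.erase_subset _ _) (hM.ne _ g1))
    · exact (hg' t ht hB hst).symm
  top := by
    intro s hs x hx
    rw [hM.top s hs x (fun t ht => ⟨(hx t ht).1.1, (hx t ht).1.2, (hx t ht).2⟩)]
    constructor
    · rintro ⟨g, hg, hg'⟩
      refine ⟨g, fun t ht => ⟨⟨(hg t ht).1, (hg t ht).2.1⟩, (hg t ht).2.2⟩, fun t ht hst => ?_⟩
      by_cases hB : t ∈ B
      · have h1 : x t = 0 := by
          by_contra hne
          exact (hx t hne).1.2 hB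
        rw [h1]
        symm
        refine Finset.sum_eq_zero fun w _ => ?_
        by_contra hne
        obtain ⟨g1, g2, _⟩ := hg _ hne
        exact g2 (hM.bd_down t hB _ (Finset.erase_subset _ _) (hM.ne _ g1))
      · exact (hg' t ht hB hst).symm
    · rintro ⟨g, hg, hg'⟩
      exact ⟨g, fun t ht => ⟨(hg t ht).1.1, (hg t ht).1.2, (hg t ht).2⟩,
        fun t ht _ hst => (hg' t ht hst).symm⟩
  ex_top := by
    intro s hs
    obtain ⟨t, h1, h2, h3⟩ := hM.top_ex s hs
    exact ⟨t, ⟨h1, h2⟩, h3⟩
  nonempty := by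
    obtain ⟨g, hg, hg'⟩ := hK (Finsupp.single ∅ 1) (by
      intro s hs
      have h0 : s = ∅ := by
        by_contra hne
        rw [Finsupp.single_apply, if_neg (fun h => hne h.symm)] at hs
        exact hs rfl
      exact ⟨Or.inr h0, by rw [h0, Finset.card_empty]; exact Nat.zero_le d⟩) (by
      unfold bdS
      rw [Finsupp.linearCombination_single]; simp)
    by_contra hne
    rw [Set.not_nonempty_iff_eq_empty] at hne
    have h0 : g = 0 := by
      ext s
      by_contra h
      have := hg s h
      rw [hne] at this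
      exact this
    rw [h0, map_zero] at hg'
    have h1 := DFunLike.congr_fun hg' (∅ : Finset U)
    rw [Finsupp.single_eq_same, Finsupp.zero_apply] at h1
    exact absurd h1 (by decide)
  dd := d
  acyc := by
    intro c hc h0
    obtain ⟨g, hg, hg'⟩ := hK c (fun s hs =>
      ⟨Or.inl (hc s (Finsupp.mem_support_iff.2 hs)).1, (hc s (Finsupp.mem_support_iff.2 hs)).2⟩) h0
    exact ⟨g, fun s hs => hg s (Finsupp.mem_support_iff.1 hs), hg'⟩

/-- the coefficients of the boundary of one cell -/
theorem bdE_apply {K B : Set (Finset U)} {n d : ℕ} (hM : Mfd K B n) (hK : AcycLt K d) {m : ℕ}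
    {e : Finset U × Finset U} (he : e ∈ TCell K B n (m + 1)) {s t : Finset U}
    (hs : s.Nonempty) :
    bdE K n e (s, t) = (toMX hM hK).D (Pi.single e 1) (s, t) := by
  classical
  obtain ⟨σ, τ⟩ := e
  obtain ⟨hσ, hστ, hτK, hτB, hcard⟩ := he
  simp only at hσ hστ hτK hτB hcard
  have hsne : s ≠ ∅ := hs.ne_empty
  have hFaces : (toMX hM hK).faces = K := rfl
  -- the coefficients of `bdE`
  have hA : bdE K n (σ, τ) (s, t) = (∑ v ∈ σ, if σ.erase v = s ∧ τ = t then (1 : ZMod 2) else 0) +
      (if σ = s ∧ t ∈ cofs K τ (τ.card + 1) then 1 else 0) := by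
    unfold bdE
    rw [if_neg hσ.ne_empty, Finsupp.add_apply]
    congr 1
    · simp only
      by_cases h1 : σ.card = 1
      · rw [if_pos h1]
        obtain ⟨v, hv⟩ := Finset.card_eq_one.1 h1
        have h2 : (∑ v ∈ σ, if σ.erase v = s ∧ τ = t then (1 : ZMod 2) else 0) = 0 := by
          refine Finset.sum_eq_zero fun w hw => ?_
          rw [if_neg]
          rintro ⟨h3, _⟩
          rw [hv, Finset.mem_singleton] at hw
          rw [hv, hw, Finset.erase_singleton] at h3
          exact hsne h3.symm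
        rw [h2]
        split_ifs
        · rw [Finsupp.single_apply, if_neg]
          intro h3
          rw [Prod.mk.injEq] at h3
          exact hsne h3.1.symm
        · rfl
      · rw [if_neg h1, Finsupp.finsetSum_apply]
        refine Finset.sum_congr rfl fun v _ => ?_
        rw [Finsupp.single_apply]
        simp only [Prod.mk.injEq]
    · rw [Finsupp.finsetSum_apply]
      simp only [Finsupp.single_apply, Prod.mk.injEq]
      by_cases h1 : σ = s
      · simp [h1]
      · simp [h1]
  rw [hA]
  by_cases hc : s ⊆ t ∧ t ∈ K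
  · rw [(toMX hM hK).D_of hs hc.1 hc.2, Finset.sum_add_distrib]
    congr 1
    · have h1 : ∀ w ∈ t \ s, (Pi.single (σ, τ) (1 : ZMod 2) : Finset U × Finset U → ZMod 2)
          (insert w s, t) = if insert w s = σ ∧ t = τ then 1 else 0 := by
        intro w _
        rw [Pi.single_apply]
        simp only [Prod.mk.injEq]
      rw [Finset.sum_congr rfl h1, ← Finset.sum_filter, ← Finset.sum_filter]
      refine Finset.sum_congr ?_ fun _ _ => rfl
      ext v
      simp only [Finset.mem_filter, Finset.mem_sdiff]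
      constructor
      · rintro ⟨h2, h3, h4⟩
        refine ⟨⟨by rw [← h4]; exact hστ h2, ?_⟩, ?_, h4.symm⟩
        · rw [← h3]; exact Finset.notMem_erase _ _
        · rw [← h3, Finset.insert_erase h2]
      · rintro ⟨⟨_, h3⟩, h4, h5⟩
        refine ⟨by rw [← h4]; exact Finset.mem_insert_self _ _, ?_, h5.symm⟩
        rw [← h4, Finset.erase_insert h3]
    · have h1 : ∀ w ∈ t \ s, (Pi.single (σ, τ) (1 : ZMod 2) : Finset U × Finset U → ZMod 2)
          (s, t.erase w) = if s = σ ∧ t.erase w = τ then 1 else 0 := by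
        intro w _
        rw [Pi.single_apply]
        simp only [Prod.mk.injEq]
      rw [Finset.sum_congr rfl h1]
      by_cases h2 : σ = s ∧ t ∈ cofs K τ (τ.card + 1)
      · rw [if_pos h2]
        obtain ⟨h3, h4⟩ := h2
        rw [mem_cofs hM hτK] at h4
        obtain ⟨_, h5, h6⟩ := h4
        have h7 : (t \ τ).card = 1 := by
          rw [Finset.card_sdiff_of_subset h5]; omega
        obtain ⟨w, hw⟩ := Finset.card_eq_one.1 h7
        have hw1 : w ∈ t ∧ w ∉ τ := by
          rw [← Finset.mem_sdiff, hw]; exact Finset.mem_singleton_self w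
        have hw2 : t.erase w = τ := by
          have h8 : τ ⊆ t.erase w := Finset.subset_erase.2 ⟨h5, hw1.2⟩
          refine (Finset.eq_of_subset_of_card_le h8 ?_).symm
          rw [Finset.card_erase_of_mem hw1.1]; omega
        rw [Finset.sum_eq_single w]
        · rw [if_pos ⟨h3.symm, hw2⟩]
        · intro v hv hvw
          rw [if_neg]
          rintro ⟨_, h9⟩
          rw [Finset.mem_sdiff] at hv
          have : v ∈ t \ τ := by
            rw [Finset.mem_sdiff, ← h9]
            exact ⟨hv.1, Finset.notMem_erase _ _⟩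
          rw [hw, Finset.mem_singleton] at this
          exact hvw this
        · intro h9
          exact absurd (Finset.mem_sdiff.2 ⟨hw1.1, fun h => hw1.2 (hστ (by rw [h3]; exact h))⟩) h9
      · rw [if_neg h2]
        symm
        refine Finset.sum_eq_zero fun w hw => ?_
        rw [if_neg]
        rintro ⟨h3, h4⟩
        rw [Finset.mem_sdiff] at hw
        refine h2 ⟨h3.symm, ?_⟩
        rw [mem_cofs hM hτK]
        refine ⟨hc.2, by rw [← h4]; exact Finset.erase_subset _ _, ?_⟩
        rw [← h4, Finset.card_erase_of_mem hw.1]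
        have := Finset.card_pos.2 ⟨w, hw.1⟩
        omega
  · rw [(toMX hM hK).D_of_not (p := (s, t)) (fun h => hc ⟨h.2.1, h.2.2⟩)]
    have h1 : (∑ v ∈ σ, if σ.erase v = s ∧ τ = t then (1 : ZMod 2) else 0) = 0 := by
      refine Finset.sum_eq_zero fun v _ => ?_
      rw [if_neg]
      rintro ⟨h3, h4⟩
      refine hc ⟨?_, by rw [← h4]; exact hτK⟩
      rw [← h3, ← h4]
      exact (Finset.erase_subset _ _).trans hστ
    rw [h1, zero_add, if_neg]
    rintro ⟨h3, h4⟩
    rw [mem_cofs hM hτK] at h4
    exact hc ⟨by rw [← h3]; exact hστ.trans h4.2.1, h4.1⟩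

/-- `D` as an additive map -/
noncomputable def DL {K B : Set (Finset U)} {n d : ℕ} (hM : Mfd K B n) (hK : AcycLt K d) :
    (Finset U × Finset U → ZMod 2) →+ (Finset U × Finset U → ZMod 2) where
  toFun := (toMX hM hK).D
  map_zero' := (toMX hM hK).D_zero
  map_add' := (toMX hM hK).D_add

/-- the coefficients of the boundary of a chain -/
theorem bdT_apply {K B : Set (Finset U)} {n d : ℕ} (hM : Mfd K B n) (hK : AcycLt K d) {m : ℕ}
    {x : Finset U × Finset U →₀ ZMod 2} (hx : x ∈ TN K B n (m + 1)) {s t : Finset U}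
    (hs : s.Nonempty) : bdT K n x (s, t) = (toMX hM hK).D x (s, t) := by
  classical
  have hx' : ∀ e ∈ x.support, e ∈ TCell K B n (m + 1) := fun e he =>
    (Finsupp.mem_supported _ _).1 hx he
  have h1 : (x : Finset U × Finset U → ZMod 2) = ∑ e ∈ x.support, Pi.single e (x e) := by
    funext p
    rw [Finset.sum_apply]
    by_cases hp : p ∈ x.support
    · rw [Finset.sum_eq_single p]
      · rw [Pi.single_eq_same]
      · intro e _ hne
        rw [Pi.single_eq_of_ne hne.symm]
      · intro h; exact absurd hp h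
    · rw [Finsupp.notMem_support_iff.1 hp]
      symm
      refine Finset.sum_eq_zero fun e he => ?_
      rw [Pi.single_eq_of_ne]
      intro h; rw [h] at hp; exact hp he
  have h2 : (toMX hM hK).D x = ∑ e ∈ x.support, (toMX hM hK).D (Pi.single e (x e)) := by
    conv_lhs => rw [h1]
    exact map_sum (DL hM hK) _ _
  rw [h2, Finset.sum_apply]
  unfold bdT
  rw [Finsupp.linearCombination_apply, Finsupp.sum, Finsupp.finsetSum_apply]
  refine Finset.sum_congr rfl fun e he => ?_
  have h3 : x e = 1 := by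
    have h4 := Finsupp.mem_support_iff.1 he
    revert h4
    generalize x e = a
    revert a
    decide
  rw [h3, one_smul]
  exact bdE_apply hM hK (hx' e he) hs

/-- **The augmented complex of pairs is exact.** Proof for `i = m + 1`: decompose `x` by `|σ|`; the sum over the
`τ` with `n + 1` vertices of the part with `|σ| = m + 1` is a cycle of `K`, so a boundary (`Acyc`); lift the
bounding chain (choose for every `σ` a top simplex) and subtract: then this sum is zero and `Mfd.top` makes the
part with `|σ| = m + 1` zero; then `Mfd.low` does the same for `|σ| = m, …, 1`. For `i = 0` take a vertex and a top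
simplex. -/
theorem tot_exact {K B : Set (Finset U)} {n d : ℕ} (hM : Mfd K B n) (hK : AcycLt K d) (i : ℕ)
    (hi : i ≤ d)
    (x : Finset U × Finset U →₀ ZMod 2) (hx : x ∈ TN K B n i) (h0 : bdT K n x = 0) :
    ∃ y ∈ TN K B n (i + 1), bdT K n y = x := by
  classical
  match i with
  | 0 =>
    -- a vertex and a top simplex
    obtain ⟨s0, hs0⟩ := (toMX hM hK).nonempty
    obtain ⟨t, htK, htB, hst, htc⟩ := hM.top_ex s0 hs0
    obtain ⟨v, hv⟩ := hM.ne s0 hs0
    have hcell : (({v}, t) : Finset U × Finset U) ∈ TCell K B n 1 := by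
      refine ⟨Finset.singleton_nonempty v, ?_, htK, htB, ?_⟩
      · simpa using hst hv
      · simp only [Finset.card_singleton]; omega
    refine ⟨Finsupp.single ({v}, t) (x (∅, ∅)), ?_, ?_⟩
    · exact Finsupp.single_mem_supported _ _ hcell
    · unfold bdT
      rw [Finsupp.linearCombination_single]
      have h1 : bdE K n ({v}, t) = Finsupp.single (∅, ∅) 1 := by
        unfold bdE
        simp only [Finset.card_singleton, if_true]
        rw [if_neg (Finset.singleton_ne_empty v), if_pos htc]
        have h2 : cofs K t (t.card + 1) = ∅ := by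
          ext t'
          rw [mem_cofs hM htK]
          simp only [Finset.notMem_empty, iff_false]
          rintro ⟨h3, _, h4⟩
          have := hM.card_le t' h3
          omega
        rw [h2, Finset.sum_empty, add_zero]
      rw [h1]
      ext p
      rw [Finsupp.smul_apply, Finsupp.single_apply]
      split_ifs with hp
      · rw [← hp, smul_eq_mul, mul_one]
      · rw [smul_zero]
        by_contra hne
        have := (Finsupp.mem_supported _ _).1 hx (Finsupp.mem_support_iff.2 (Ne.symm hne))
        exact hp (Set.mem_singleton_iff.1 this).symm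
  | m + 1 =>
    have hx' : ∀ e, x e ≠ 0 → e ∈ TCell K B n (m + 1) := fun e he =>
      (Finsupp.mem_supported _ _).1 hx (Finsupp.mem_support_iff.2 he)
    have hT : (toMX hM hK).IsTot m x := by
      refine ⟨x.hasFiniteSupport, fun p hp => ?_⟩
      obtain ⟨h1, h2, h3, h4, h5⟩ := hx' p hp
      exact ⟨h1, h2, ⟨h3, h4⟩, h5⟩
    have hD : (toMX hM hK).D x = 0 := by
      funext p
      obtain ⟨s, t⟩ := p
      by_cases hs : s.Nonempty
      · rw [← bdT_apply hM hK hx hs, h0]; rfl
      · rw [(toMX hM hK).D_of_not (fun h => hs h.1)]; rfl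
    obtain ⟨b, hb, hbx⟩ := (toMX hM hK).exact m hi hT hD (by
      intro hm
      subst hm
      -- the coefficient of the empty pair
      have h1 : bdT K n x (∅, ∅) = 0 := by rw [h0]; rfl
      unfold bdT at h1
      rw [Finsupp.linearCombination_apply, Finsupp.sum, Finsupp.finsetSum_apply] at h1
      rw [← h1, finsum_eq_sum_of_support_subset (s := x.support) _ (by
        intro p hp
        exact Finsupp.mem_support_iff.2 hp)]
      refine Finset.sum_congr rfl fun e he => ?_
      obtain ⟨σ, τ⟩ := e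
      obtain ⟨f1, f2, f3, f4, f5⟩ := hx' _ (Finsupp.mem_support_iff.1 he)
      simp only at f1 f2 f3 f4 f5
      have h2 := Finset.card_pos.2 f1
      have h3 := hM.card_le τ f3
      have h4 : σ.card = 1 := by omega
      have h5 : τ.card = n + 1 := by omega
      rw [Finsupp.smul_apply]
      unfold bdE
      simp only
      rw [if_neg f1.ne_empty, if_pos h4, if_pos h5, Finsupp.add_apply, Finsupp.single_eq_same,
        Finsupp.finsetSum_apply]
      rw [Finset.sum_eq_zero (fun t _ => ?_), add_zero, smul_eq_mul, mul_one]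
      rw [Finsupp.single_apply, if_neg]
      intro h
      rw [Prod.mk.injEq] at h
      exact f1.ne_empty h.1)
    set y : Finset U × Finset U →₀ ZMod 2 := Finsupp.ofSupportFinite b hb.1 with hy
    have hyb : (y : Finset U × Finset U → ZMod 2) = b := rfl
    have hyT : y ∈ TN K B n (m + 1 + 1) := by
      refine (Finsupp.mem_supported _ _).2 fun e he => ?_
      obtain ⟨h1, h2, h3, h4⟩ := hb.2 e (Finsupp.mem_support_iff.1 he)
      exact ⟨h1, h2, h3.1, h3.2, h4⟩
    refine ⟨y, hyT, ?_⟩
    ext p
    obtain ⟨s, t⟩ := p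
    by_cases hs : s.Nonempty
    · rw [bdT_apply hM hK hyT hs, hyb, hbx]
    · rw [Finset.not_nonempty_iff_eq_empty] at hs
      subst hs
      have h1 : x (∅, t) = 0 := by
        by_contra hne
        exact Finset.not_nonempty_empty (hx' _ hne).1
      rw [h1]
      unfold bdT
      rw [Finsupp.linearCombination_apply, Finsupp.sum, Finsupp.finsetSum_apply]
      refine Finset.sum_eq_zero fun e he => ?_
      obtain ⟨σ, τ⟩ := e
      obtain ⟨f1, f2, f3, f4, f5⟩ : (σ, τ) ∈ TCell K B n (m + 1 + 1) :=
        (Finsupp.mem_supported _ _).1 hyT he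
      simp only at f1 f2 f3 f4 f5
      rw [Finsupp.smul_apply]
      unfold bdE
      simp only
      have h7 : ∑ i ∈ cofs K τ (τ.card + 1),
          (Finsupp.single (σ, i) (1 : ZMod 2)) ((∅ : Finset U), t) = 0 := by
        refine Finset.sum_eq_zero fun t' _ => ?_
        rw [Finsupp.single_apply, if_neg]
        intro h
        rw [Prod.mk.injEq] at h
        exact f1.ne_empty h.1
      rw [if_neg f1.ne_empty, Finsupp.add_apply, Finsupp.finsetSum_apply, h7, add_zero]
      · by_cases h4 : σ.card = 1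
        · rw [if_pos h4, if_neg (by omega)]
          simp
        · rw [if_neg h4, Finsupp.finsetSum_apply, Finset.sum_eq_zero (fun v hv => ?_), smul_zero]
          rw [Finsupp.single_apply, if_neg]
          intro h
          rw [Prod.mk.injEq] at h
          have h6 := Finset.card_erase_of_mem hv
          rw [h.1, Finset.card_empty] at h6
          have := Finset.card_pos.2 f1
          omega

end Pool.Agent.H37.TM

end

section

/-!
# Project TM (top degree): definitions

`IsDeck` = deck groups of the universal cover of a finite special cube complex; `ZQ` = cycles of top degree of a finite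
special cube complex with coefficients in a space with involutions; `StarRel` = the main relation.
-/

set_option autoImplicit false
set_option linter.unusedSectionVars false

open Finset Pointwise

namespace Pool.Agent.H37.TM

open Pool.Agent.H19.Cub Pool.Agent.H77.SX

variable {V X : Type} [DecidableEq V]

/-- `Γ` is the group of deck transformations of the universal cover of `Q` -/
structure IsDeck (Γ : Type) [Group Γ] (Q : CubeComplex V X) (x₀ : X)
    [MulAction Γ (Q.Cover x₀)] : Prop where
  nb : ∀ (g : Γ) v (c : Q.Cover x₀), v ∈ Q.lab (Q.proj x₀ c) → Q.nbc x₀ v (g • c) = g • Q.nbc x₀ v c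
  proj : ∀ (g : Γ) (c : Q.Cover x₀), Q.proj x₀ (g • c) = Q.proj x₀ c
  trans : ∀ c c' : Q.Cover x₀, Q.proj x₀ c = Q.proj x₀ c' → ∃ g : Γ, g • c = c'
  free : ∀ (g : Γ) (c : Q.Cover x₀), g • c = c → g = 1

/-- `bit x v`: the side of `x` with respect to the hyperplanes with the label `v` -/
def IsBit (Q : CubeComplex V X) (bit : X → V → ZMod 2) : Prop :=
  ∀ v x, v ∈ Q.lab x → ∀ u, bit (Q.nb v x) u = bit x u + if u = v then 1 else 0

/-- the dimension of `Q` is at most `d` -/
def DimLe (Q : CubeComplex V X) (d : ℕ) : Prop :=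
  ∀ x, ∀ σ : Finset V, σ ⊆ Q.lab x → Q.graph.IsClique (σ : Set V) → σ.card ≤ d

/-- cycles of degree `n` (the top degree) of `Q` with coefficients in `Y`; the component `z σ x` is the
coefficient of the cube spanned by the labels `σ` at `x`, in the frame of the vertex `x` -/
def ZQ (K : Type) [Field K] [Fintype V] (Q : CubeComplex V X) (n : ℕ) {Y : Type}
    [AddCommGroup Y] [Module K Y] (r : V → Y →ₗ[K] Y) : Submodule K (Finset V → X → Y) where
  carrier := {z | (∀ σ x, z σ x ≠ 0 → σ ⊆ Q.lab x ∧ Q.graph.IsClique (σ : Set V) ∧ σ.card = n) ∧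
    (∀ σ x, σ ⊆ Q.lab x → ∀ v ∈ σ, z σ (Q.nb v x) = r v (z σ x)) ∧
    ∀ κ x, ∑ v ∈ κᶜ, z (insert v κ) x = 0}
  zero_mem' := by
    refine ⟨fun σ x h => absurd rfl h, fun σ x _ v _ => ?_, fun κ x => ?_⟩
    · simp
    · simp
  add_mem' := by
    rintro z w ⟨h1, h2, h3⟩ ⟨h4, h5, h6⟩
    refine ⟨fun σ x h => ?_, fun σ x hσ v hv => ?_, fun κ x => ?_⟩
    · by_cases hz : z σ x = 0
      · by_cases hw : w σ x = 0
        · exact absurd (by simp [hz, hw]) h
        · exact h4 σ x hw
      · exact h1 σ x hz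
    · simp only [Pi.add_apply]
      rw [map_add, h2 σ x hσ v hv, h5 σ x hσ v hv]
    · simp only [Pi.add_apply, sum_add_distrib, h3 κ x, h6 κ x, add_zero]
  smul_mem' := by
    rintro c z ⟨h1, h2, h3⟩
    refine ⟨fun σ x h => h1 σ x fun h0 => h ?_, fun σ x hσ v hv => ?_, fun κ x => ?_⟩
    · simp only [Pi.smul_apply, h0, smul_zero]
    · simp only [Pi.smul_apply]
      rw [map_smul, h2 σ x hσ v hv]
    · simp only [Pi.smul_apply, ← smul_sum, h3 κ x, smul_zero]

theorem mem_ZQ {K : Type} [Field K] [Fintype V] {Q : CubeComplex V X} {n : ℕ} {Y : Type}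
    [AddCommGroup Y] [Module K Y] {r : V → Y →ₗ[K] Y} {z : Finset V → X → Y} :
    z ∈ ZQ K Q n r ↔
      (∀ σ x, z σ x ≠ 0 → σ ⊆ Q.lab x ∧ Q.graph.IsClique (σ : Set V) ∧ σ.card = n) ∧
      (∀ σ x, σ ⊆ Q.lab x → ∀ v ∈ σ, z σ (Q.nb v x) = r v (z σ x)) ∧
      ∀ κ x, ∑ v ∈ κᶜ, z (insert v κ) x = 0 := Iff.rfl

/-- **The main relation** (over the field `K` of characteristic two): for all cycles of top degree with
coefficients in the extension module `rX g s t` the sum over the cubes of type `s` of the products of the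
`t v` and the squares of the coefficients vanishes. Every cube is represented by its vertex `x` whose bits
vanish on `s`. -/
def StarRel (K : Type) [Field K] [Fintype V] [Fintype X] (Q : CubeComplex V X)
    (bit : X → V → ZMod 2) (d : ℕ) : Prop :=
  ∀ (P : Type) [Group P] [Fintype P] (g : V → P), (∀ v, g v * g v = 1) →
    (∀ u v, Q.graph.Adj u v → g u * g v = g v * g u) →
    ∀ s : Finset V, Q.graph.IsClique (s : Set V) → s.card = d →
    ∀ t : V → P → K, (∀ v u, (u = v ∨ Q.graph.Adj v u) → ∀ p, t v (p * g u) = t v p) →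
    ∀ z ∈ ZQ K Q d (rX g s t),
      ∑ x ∈ univ.filter (fun x => s ⊆ Q.lab x ∧ ∀ v ∈ s, bit x v = 0), ∑ p,
        (∏ v ∈ s, t v p) * z s x (∅, p) ^ 2 = 0

end Pool.Agent.H37.TM

end

section

/-!
# Project TM: the complex of tuples, monotone paths in cubes, products of one-cocycles
-/

set_option autoImplicit false
set_option linter.unusedSectionVars false

open Finset

namespace Pool.Agent.H37.TM

open Pool.Agent.H19.Cub

section

variable {α β : Type}

theorem BL_single (l : List α) : BL (Finsupp.single l 1) = bdl l := lin_single _ _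

/-- a linear identity of chains has to be checked on the basis only -/
theorem chain_ext {A N : Type} [AddCommGroup N] [Module (ZMod 2) N]
    {F G : (A →₀ ZMod 2) →ₗ[ZMod 2] N} (h : ∀ a, F (Finsupp.single a 1) = G (Finsupp.single a 1))
    (x : A →₀ ZMod 2) : F x = G x := by
  have h1 : F = G := Finsupp.lhom_ext' fun a => LinearMap.ext_ring (h a)
  rw [h1]

/-- the boundary of the tuples of `y` preceded by `x` -/
theorem BL_cons (x : α) (y : List α →₀ ZMod 2) :
    BL (y.mapDomain (x :: ·)) = y + (BL y).mapDomain (x :: ·) := by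
  have := chain_ext (F := BL ∘ₗ Finsupp.lmapDomain (ZMod 2) (ZMod 2) (x :: ·))
    (G := LinearMap.id + Finsupp.lmapDomain (ZMod 2) (ZMod 2) (x :: ·) ∘ₗ BL) (fun l => by
      simp only [LinearMap.comp_apply, LinearMap.add_apply, LinearMap.id_apply,
        Finsupp.lmapDomain_apply, Finsupp.mapDomain_single, BL_single]
      rfl) y
  simpa only [LinearMap.comp_apply, LinearMap.add_apply, LinearMap.id_apply,
    Finsupp.lmapDomain_apply] using this

theorem chain_add_self {A : Type} (x : A →₀ ZMod 2) : x + x = 0 := by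
  ext a
  rw [Finsupp.add_apply, Finsupp.zero_apply]
  exact CharTwo.add_self_eq_zero _

theorem BL_bdl (l : List α) : BL (bdl l) = 0 := by
  induction l with
  | nil => simp only [bdl, map_zero]
  | cons x l ih =>
    rw [bdl, map_add, BL_single, BL_cons, ih, Finsupp.mapDomain_zero, add_zero, chain_add_self]

/-- exactness: `y` = the tuples of `x` preceded by a base point -/
theorem BL_exact [Nonempty α] (x : List α →₀ ZMod 2) (h : BL x = 0) : ∃ y, BL y = x := by
  obtain ⟨b⟩ := ‹Nonempty α›
  refine ⟨x.mapDomain (b :: ·), ?_⟩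
  rw [BL_cons, h, Finsupp.mapDomain_zero, add_zero]

theorem bdl_map (f : α → β) (l : List α) :
    bdl (l.map f) = (bdl l).mapDomain (List.map f) := by
  induction l with
  | nil => simp only [List.map_nil, bdl, Finsupp.mapDomain_zero]
  | cons x l ih =>
    rw [List.map_cons, bdl, bdl, ih, Finsupp.mapDomain_add, Finsupp.mapDomain_single,
      ← Finsupp.mapDomain_comp, ← Finsupp.mapDomain_comp]
    rfl

theorem BL_map (f : α → β) (x : List α →₀ ZMod 2) :
    BL (x.mapDomain (List.map f)) = (BL x).mapDomain (List.map f) :=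
  chain_ext (F := BL ∘ₗ Finsupp.lmapDomain (ZMod 2) (ZMod 2) (List.map f))
    (G := Finsupp.lmapDomain (ZMod 2) (ZMod 2) (List.map f) ∘ₗ BL) (fun l => by
      simp only [LinearMap.comp_apply, Finsupp.lmapDomain_apply, Finsupp.mapDomain_single,
        BL_single, bdl_map]) x

end

section

variable {V X : Type} [DecidableEq V]

/-! #### cliques of labels at a vertex of the cover -/

/-- `σ` spans a cube at `c` -/
private def Cb (Q : CubeComplex V X) (x₀ : X) (c : Q.Cover x₀) (σ : Finset V) : Prop :=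
  σ ⊆ Q.lab (Q.proj x₀ c) ∧ Q.graph.IsClique (σ : Set V)

private theorem proj_nbc_pt (Q : CubeComplex V X) (x₀ : X) (v : V) (c : Q.Cover x₀)
    (h : v ∈ Q.lab (Q.proj x₀ c)) : Q.proj x₀ (Q.nbc x₀ v c) = Q.nb v (Q.proj x₀ c) := by
  induction c using Quot.ind with
  | mk l =>
    have h' : v ∈ Q.lab (Q.fin x₀ l.1) := h
    rw [Q.nbc_mk x₀ v l h']
    show Q.fin x₀ (l.1 ++ [v]) = Q.nb v (Q.fin x₀ l.1)
    rw [CubeComplex.fin_append]
    rfl

private theorem Cb.erase {Q : CubeComplex V X} {x₀ : X} {c : Q.Cover x₀} {σ : Finset V}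
    (h : Cb Q x₀ c σ) (v : V) : Cb Q x₀ c (σ.erase v) :=
  ⟨(erase_subset _ _).trans h.1, h.2.subset (by
    rw [coe_erase]; exact Set.sdiff_subset)⟩

private theorem Cb.step {Q : CubeComplex V X} {x₀ : X} {c : Q.Cover x₀} {σ : Finset V}
    (h : Cb Q x₀ c σ) {v : V} (hv : v ∈ σ) : Cb Q x₀ (Q.nbc x₀ v c) (σ.erase v) :=
  ⟨fun u hu => (Q.cover x₀).lab_adj u v c
    (h.2 (mem_coe.2 (mem_of_mem_erase hu)) (mem_coe.2 hv) (ne_of_mem_erase hu))
    (h.1 (mem_of_mem_erase hu)) (h.1 hv), (h.erase v).2⟩

private theorem Cb.comm {Q : CubeComplex V X} {x₀ : X} {c : Q.Cover x₀} {σ : Finset V}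
    (h : Cb Q x₀ c σ) {u v : V} (hu : u ∈ σ) (hv : v ∈ σ) :
    Q.nbc x₀ u (Q.nbc x₀ v c) = Q.nbc x₀ v (Q.nbc x₀ u c) := by
  by_cases huv : u = v
  · rw [huv]
  · exact (Q.cover x₀).nb_comm u v c (h.2 (mem_coe.2 hu) (mem_coe.2 hv) huv) (h.1 hu) (h.1 hv)

/-- a symmetric sum over the ordered pairs of different elements vanishes in characteristic two -/
private theorem sum_symm_pairs {M : Type} [AddCommGroup M] (h2 : ∀ x : M, x + x = 0)
    (σ : Finset V) (F : V → V → M) (hF : ∀ u ∈ σ, ∀ v ∈ σ, F u v = F v u) :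
    ∑ v ∈ σ, ∑ u ∈ σ.erase v, F v u = 0 := by
  induction σ using Finset.induction_on with
  | empty => simp
  | insert a σ ha ih =>
    rw [sum_insert ha, erase_insert ha]
    have h1 : ∑ v ∈ σ, ∑ u ∈ (insert a σ).erase v, F v u =
        ∑ v ∈ σ, (F v a + ∑ u ∈ σ.erase v, F v u) := by
      refine sum_congr rfl fun v hv => ?_
      have hva : a ≠ v := fun h => ha (h ▸ hv)
      rw [erase_insert_of_ne hva, sum_insert (fun h => ha (mem_of_mem_erase h))]
    rw [h1, sum_add_distrib, ih fun u hu v hv => hF u (mem_insert_of_mem hu) v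
      (mem_insert_of_mem hv), add_zero, sum_congr rfl fun v hv => hF v (mem_insert_of_mem hv) a
      (mem_insert_self _ _)]
    exact h2 _

/-- faces are cells -/
theorem bdD_cell {Q : CubeComplex V X} {x₀ : X} {bit : X → V → ZMod 2} (hbit : IsBit Q bit)
    {i : ℕ} {e : Q.Cover x₀ × Finset V} (he : e ∈ Cell Q x₀ bit (i + 1)) (b)
    (hb : bdD Q x₀ e b ≠ 0) : b ∈ Cell Q x₀ bit i := by
  obtain ⟨h1, h2, h3, h4⟩ := he
  have hC : Cb Q x₀ e.1 e.2 := ⟨h1, h2⟩
  rw [bdD, Finsupp.finsetSum_apply] at hb
  obtain ⟨v, hv, hvb⟩ := exists_ne_zero_of_sum_ne_zero hb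
  have hcard : (e.2.erase v).card = i := by
    rw [card_erase_of_mem hv, h3]; rfl
  rw [Finsupp.add_apply] at hvb
  by_cases h5 : (e.1, e.2.erase v) = b
  · subst h5
    exact ⟨(hC.erase v).1, (hC.erase v).2, hcard, fun u hu => h4 u (mem_of_mem_erase hu)⟩
  · rw [Finsupp.single_eq_of_ne (Ne.symm h5), zero_add] at hvb
    by_cases h6 : (Q.nbc x₀ v e.1, e.2.erase v) = b
    · subst h6
      refine ⟨(hC.step hv).1, (hC.step hv).2, hcard, fun u hu => ?_⟩
      show bit (Q.proj x₀ (Q.nbc x₀ v e.1)) u = 0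
      rw [proj_nbc_pt Q x₀ v e.1 (h1 hv), hbit v _ (h1 hv) u, h4 u (mem_of_mem_erase hu),
        if_neg (ne_of_mem_erase hu), add_zero]
    · exact absurd (Finsupp.single_eq_of_ne (Ne.symm h6)) hvb

private theorem lin_bdD (Q : CubeComplex V X) (x₀ : X) {N : Type} [AddCommGroup N]
    [Module (ZMod 2) N] (F : Q.Cover x₀ × Finset V → N) (e : Q.Cover x₀ × Finset V) :
    lin F (bdD Q x₀ e) = ∑ v ∈ e.2, (F (e.1, e.2.erase v) + F (Q.nbc x₀ v e.1, e.2.erase v)) := by
  rw [bdD, map_sum]
  exact sum_congr rfl fun v _ => by rw [map_add, lin_single, lin_single]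

theorem bdD_bdD {Q : CubeComplex V X} {x₀ : X} {bit : X → V → ZMod 2} {i : ℕ}
    {e : Q.Cover x₀ × Finset V} (he : e ∈ Cell Q x₀ bit i) :
    lin (bdD Q x₀) (bdD Q x₀ e) = 0 := by
  have hC : Cb Q x₀ e.1 e.2 := ⟨he.1, he.2.1⟩
  rw [lin_bdD]
  simp only [bdD]
  rw [sum_congr rfl fun v _ => (sum_add_distrib (s := e.2.erase v) (f := fun u =>
    Finsupp.single (e.1, (e.2.erase v).erase u) (1 : ZMod 2) +
      Finsupp.single (Q.nbc x₀ u e.1, (e.2.erase v).erase u) 1) (g := fun u =>
    Finsupp.single (Q.nbc x₀ v e.1, (e.2.erase v).erase u) (1 : ZMod 2) +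
      Finsupp.single (Q.nbc x₀ u (Q.nbc x₀ v e.1), (e.2.erase v).erase u) 1)).symm]
  refine sum_symm_pairs (fun x => chain_add_self x) e.2 (fun v u =>
    Finsupp.single (e.1, (e.2.erase v).erase u) (1 : ZMod 2) +
      Finsupp.single (Q.nbc x₀ u e.1, (e.2.erase v).erase u) 1 +
    (Finsupp.single (Q.nbc x₀ v e.1, (e.2.erase v).erase u) (1 : ZMod 2) +
      Finsupp.single (Q.nbc x₀ u (Q.nbc x₀ v e.1), (e.2.erase v).erase u) 1)) fun u hu v hv => ?_
  simp only [erase_right_comm (a := u) (b := v), hC.comm hu hv]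
  abel

/-- the sum of the monotone paths with `k` edges in the cube `σ` which start at `c` -/
noncomputable def Tm (Q : CubeComplex V X) (x₀ : X) :
    ℕ → Q.Cover x₀ → Finset V → (List (Q.Cover x₀) →₀ ZMod 2)
  | 0, c, _ => Finsupp.single [c] 1
  | k + 1, c, σ => ∑ v ∈ σ, (Tm Q x₀ k (Q.nbc x₀ v c) (σ.erase v)).mapDomain (c :: ·)

/-- the sum of the monotone paths through the cube -/
noncomputable def TT (Q : CubeComplex V X) (x₀ : X) (e : Q.Cover x₀ × Finset V) :
    List (Q.Cover x₀) →₀ ZMod 2 := Tm Q x₀ e.2.card e.1 e.2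

private theorem Tm_zero (Q : CubeComplex V X) (x₀ : X) (c : Q.Cover x₀) (σ : Finset V) :
    Tm Q x₀ 0 c σ = Finsupp.single [c] 1 := rfl

private theorem Tm_succ (Q : CubeComplex V X) (x₀ : X) (k : ℕ) (c : Q.Cover x₀) (σ : Finset V) :
    Tm Q x₀ (k + 1) c σ =
      ∑ v ∈ σ, (Tm Q x₀ k (Q.nbc x₀ v c) (σ.erase v)).mapDomain (c :: ·) := rfl

private theorem mapDomain_finset_sum' {A B ι : Type} (f : A → B) (s : Finset ι)
    (y : ι → (A →₀ ZMod 2)) :
    (∑ i ∈ s, y i).mapDomain f = ∑ i ∈ s, (y i).mapDomain f :=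
  map_sum (Finsupp.lmapDomain (ZMod 2) (ZMod 2) f) y s

private theorem BL_Tm {Q : CubeComplex V X} {x₀ : X} (k : ℕ) : ∀ (c : Q.Cover x₀) (σ : Finset V),
    Cb Q x₀ c σ → σ.card = k + 1 →
    BL (Tm Q x₀ (k + 1) c σ) =
      ∑ v ∈ σ, (Tm Q x₀ k c (σ.erase v) + Tm Q x₀ k (Q.nbc x₀ v c) (σ.erase v)) := by
  induction k with
  | zero =>
    intro c σ _ _
    rw [Tm_succ, map_sum]
    refine sum_congr rfl fun v _ => ?_
    rw [BL_cons, Tm_zero, Tm_zero, BL_single]
    simp only [bdl, Finsupp.mapDomain_zero, add_zero, Finsupp.mapDomain_single]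
    rw [add_comm]
  | succ k ih =>
    intro c σ hC hcard
    have h1 : ∀ v ∈ σ, BL ((Tm Q x₀ (k + 1) (Q.nbc x₀ v c) (σ.erase v)).mapDomain (c :: ·)) =
        Tm Q x₀ (k + 1) (Q.nbc x₀ v c) (σ.erase v) +
        ((∑ u ∈ σ.erase v, (Tm Q x₀ k (Q.nbc x₀ v c) ((σ.erase v).erase u)).mapDomain (c :: ·)) +
          ∑ u ∈ σ.erase v,
            (Tm Q x₀ k (Q.nbc x₀ u (Q.nbc x₀ v c)) ((σ.erase v).erase u)).mapDomain (c :: ·)) := by
      intro v hv
      rw [BL_cons, ih _ _ (hC.step hv) (by rw [card_erase_of_mem hv, hcard]; rfl),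
        mapDomain_finset_sum', ← sum_add_distrib]
      congr 1
      exact sum_congr rfl fun u _ => Finsupp.mapDomain_add
    rw [Tm_succ, map_sum, sum_congr rfl h1, sum_add_distrib, sum_add_distrib,
      sum_symm_pairs (fun x => chain_add_self x) σ
        (fun v u => (Tm Q x₀ k (Q.nbc x₀ u (Q.nbc x₀ v c)) ((σ.erase v).erase u)).mapDomain (c :: ·))
        (fun u hu v hv => by simp only [erase_right_comm (a := u) (b := v), hC.comm hu hv]),
      add_zero, sum_add_distrib, add_comm]
    congr 1
    -- exchange the two sums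
    have h2 : ∀ v ∈ σ, Tm Q x₀ (k + 1) c (σ.erase v) =
        ∑ u ∈ σ.erase v, (Tm Q x₀ k (Q.nbc x₀ u c) ((σ.erase v).erase u)).mapDomain (c :: ·) :=
      fun v _ => Tm_succ Q x₀ k c (σ.erase v)
    rw [sum_congr rfl h2]
    rw [sum_comm' (s := σ) (t := fun v => σ.erase v) (t' := σ) (s' := fun u => σ.erase u) (by
      intro u v
      simp only [mem_erase]
      constructor
      · rintro ⟨h5, h6, h7⟩; exact ⟨⟨Ne.symm h6, h5⟩, h7⟩
      · rintro ⟨⟨h5, h6⟩, h7⟩; exact ⟨h6, Ne.symm h5, h7⟩)]
    exact sum_congr rfl fun u _ => sum_congr rfl fun v _ => by rw [erase_right_comm]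

/-- `TT` is a chain map. -/
theorem BL_TT {Q : CubeComplex V X} {x₀ : X} {bit : X → V → ZMod 2} {i : ℕ}
    {e : Q.Cover x₀ × Finset V} (he : e ∈ Cell Q x₀ bit i) :
    BL (TT Q x₀ e) = if i = 0 then Finsupp.single [] 1 else lin (TT Q x₀) (bdD Q x₀ e) := by
  obtain ⟨h1, h2, h3, -⟩ := he
  cases i with
  | zero =>
    rw [if_pos rfl, TT, h3, Tm_zero, BL_single]
    simp only [bdl, Finsupp.mapDomain_zero, add_zero]
  | succ k =>
    rw [if_neg (Nat.succ_ne_zero k), lin_bdD, TT, h3, BL_Tm k e.1 e.2 ⟨h1, h2⟩ h3]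
    refine sum_congr rfl fun v hv => ?_
    have h4 : (e.2.erase v).card = k := by
      rw [card_erase_of_mem hv, h3]; rfl
    simp only [TT, h4]

theorem TT_smul {Γ : Type} [Group Γ] {Q : CubeComplex V X} {x₀ : X}
    [MulAction Γ (Q.Cover x₀)] (hΓ : IsDeck Γ Q x₀) {bit : X → V → ZMod 2} {i : ℕ}
    {e : Q.Cover x₀ × Finset V} (he : e ∈ Cell Q x₀ bit i) (g : Γ) :
    TT Q x₀ (g • e.1, e.2) = (TT Q x₀ e).mapDomain (List.map (g • ·)) := by
  have key : ∀ (k : ℕ) (c : Q.Cover x₀) (σ : Finset V), Cb Q x₀ c σ →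
      Tm Q x₀ k (g • c) σ = (Tm Q x₀ k c σ).mapDomain (List.map (g • ·)) := by
    intro k
    induction k with
    | zero =>
      intro c σ _
      rw [Tm_zero, Tm_zero, Finsupp.mapDomain_single]
      rfl
    | succ k ih =>
      intro c σ hC
      rw [Tm_succ, Tm_succ, mapDomain_finset_sum']
      refine sum_congr rfl fun v hv => ?_
      rw [hΓ.nb g v c (hC.1 hv), ih _ _ (hC.step hv), ← Finsupp.mapDomain_comp,
        ← Finsupp.mapDomain_comp]
      rfl
  exact key _ e.1 e.2 ⟨he.1, he.2.1⟩

end

section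

variable {V D K : Type} [DecidableEq V] [Field K] [Algebra (ZMod 2) K]

theorem lin_map {A B N : Type} [AddCommGroup N] [Module (ZMod 2) N] (F : B → N) (f : A → B)
    (x : A →₀ ZMod 2) : lin F (x.mapDomain f) = lin (fun a => F (f a)) x := by
  unfold lin
  rw [Finsupp.linearCombination_mapDomain]
  rfl

theorem lin_fun_zero {A N : Type} [AddCommGroup N] [Module (ZMod 2) N] (x : A →₀ ZMod 2) :
    lin (fun _ => (0 : N)) x = 0 :=
  chain_ext (F := lin (fun _ => (0 : N))) (G := 0) (fun a => by
    rw [lin_single, LinearMap.zero_apply]) x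

theorem add_self_K (a : K) : a + a = 0 := by
  have h2 : (2 : K) = 0 := by
    have h1 : algebraMap (ZMod 2) K 2 = 0 := by
      rw [show (2 : ZMod 2) = 0 from rfl, map_zero]
    rw [← h1, map_ofNat]
  rw [← two_mul, h2, zero_mul]

end

end Pool.Agent.H37.TM

end

section

/-!
# Project TM: positions, module values and potentials on the universal cover
-/

set_option autoImplicit false
set_option linter.unusedSectionVars false

open Finset

namespace Pool.Agent.H37.TM

open Pool.Agent.H19.Cub Pool.Agent.H77.SX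

/-- The data: `g` involutions which commute for the edges, `t v` invariant along the star of `v`. -/
structure Dat {V X : Type} [DecidableEq V] (Q : CubeComplex V X) {P K : Type} [Group P]
    (g : V → P) (t : V → P → K) : Prop where
  sq : ∀ v, g v * g v = 1
  comm : ∀ u v, Q.graph.Adj u v → g u * g v = g v * g u
  star : ∀ v u, (u = v ∨ Q.graph.Adj v u) → ∀ p, t v (p * g u) = t v p

variable {V X P K : Type} [DecidableEq V] [Group P] [Field K] [Algebra (ZMod 2) K]
  {Q : CubeComplex V X} {g : V → P} {t : V → P → K} (D : Dat Q g t) (s : Finset V) (x₀ : X)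

omit [DecidableEq V] [Algebra (ZMod 2) K] in
theorem add_self_zero [Algebra (ZMod 2) K] (a : K) : a + a = 0 := by
  have h2 : (2 : K) = 0 := by
    have h := map_ofNat (algebraMap (ZMod 2) K) 2
    rw [← h, show (OfNat.ofNat 2 : ZMod 2) = 0 from rfl, map_zero]
  rw [← two_mul, h2, zero_mul]

theorem rX_apply (v : V) (f : Finset V × P → K) (A : Finset V) (p : P) :
    rX g s t v f (A, p) = f (A, p * g v) +
      if v ∈ s ∧ v ∈ A then t v p * f (A.erase v, p * g v) else 0 := rfl

include D in
theorem rX_sq (v : V) (f : Finset V × P → K) : rX g s t v (rX g s t v f) = f := by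
  funext ⟨A, p⟩
  simp only [rX_apply]
  rw [mul_assoc p, D.sq, mul_one, D.star v v (Or.inl rfl)]
  by_cases h : v ∈ s ∧ v ∈ A
  · rw [if_pos h, if_pos h, if_neg (fun h => absurd h.2 (notMem_erase v A)), add_zero, add_assoc,
      add_self_zero, add_zero]
  · rw [if_neg h, if_neg h, add_zero, add_zero]

include D in
theorem rX_comm {u v : V} (h : Q.graph.Adj u v) (f : Finset V × P → K) :
    rX g s t u (rX g s t v f) = rX g s t v (rX g s t u f) := by
  have huv : u ≠ v := h.ne
  funext ⟨A, p⟩
  simp only [rX_apply, mem_erase]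
  rw [mul_assoc p, mul_assoc p, D.comm u v h, D.star v u (Or.inr h.symm), D.star u v (Or.inr h),
    erase_right_comm]
  by_cases h1 : u ∈ s ∧ u ∈ A <;> by_cases h2 : v ∈ s ∧ v ∈ A
  · simp [h1, h2, huv, huv.symm]
    ring
  · have h3 : ¬ (v ∈ s ∧ v ≠ u ∧ v ∈ A) := fun h => h2 ⟨h.1, h.2.2⟩
    rw [if_neg h2, if_pos h1, if_neg h3, if_neg h2, if_pos h1]
    ring
  · have h3 : ¬ (u ∈ s ∧ u ≠ v ∧ u ∈ A) := fun h => h1 ⟨h.1, h.2.2⟩
    rw [if_neg h1, if_pos h2, if_neg h3, if_neg h1, if_pos h2]
    ring
  · rw [if_neg h1, if_neg h2, if_neg h1, if_neg h2]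

include D in
theorem actL_step {l l' : List V} (h : Step Q.graph l l') :
    (l.map (rX g s t)).prod = (l'.map (rX g s t)).prod := by
  cases h with
  | back a b v =>
    simp only [List.map_append, List.map_cons, List.prod_append, List.prod_cons]
    rw [← mul_assoc (rX g s t v), show rX g s t v * rX g s t v = 1 from
      LinearMap.ext fun f => rX_sq D s v f, one_mul]
  | square a b u v h =>
    simp only [List.map_append, List.map_cons, List.prod_append, List.prod_cons]
    rw [← mul_assoc (rX g s t u), show rX g s t u * rX g s t v = rX g s t v * rX g s t u from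
      LinearMap.ext fun f => rX_comm D s h f, mul_assoc (rX g s t v)]

/-- the base point of the cover -/
def base (Q : CubeComplex V X) (x₀ : X) : Q.Cover x₀ := Quot.mk _ ⟨[], trivial⟩

/-- the action of the path on the extension module -/
noncomputable def act : Q.Cover x₀ → ((Finset V × P → K) →ₗ[K] (Finset V × P → K)) :=
  Quot.lift (fun l => (l.1.map (rX g s t)).prod) fun _ _ h => actL_step D s h

/-- the projection of a neighbour -/
theorem proj_nbc {c : Q.Cover x₀} {v : V} (hv : v ∈ Q.lab (Q.proj x₀ c)) :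
    Q.proj x₀ (Q.nbc x₀ v c) = Q.nb v (Q.proj x₀ c) := by
  induction c using Quot.ind with
  | mk l =>
    rw [Q.nbc_mk x₀ v l hv]
    show Q.fin x₀ (l.1 ++ [v]) = Q.nb v (Q.fin x₀ l.1)
    rw [Q.fin_append]
    rfl

/-- induction on the length of a path to the vertex `c` of the cover -/
theorem cover_ind {x₀ : X} {motive : Q.Cover x₀ → Prop} (h0 : motive (base Q x₀))
    (h1 : ∀ c v, v ∈ Q.lab (Q.proj x₀ c) → motive c → motive (Q.nbc x₀ v c))
    (c : Q.Cover x₀) : motive c := by
  induction c using Quot.ind with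
  | mk l =>
    obtain ⟨l, hl⟩ := l
    induction l using List.reverseRecOn with
    | nil => exact h0
    | append_singleton l v ih =>
      obtain ⟨hl1, hl2, -⟩ := (Q.isPath_append x₀ l [v]).1 hl
      have h2 := h1 (Quot.mk _ ⟨l, hl1⟩) v hl2 (ih hl1)
      rw [Q.nbc_mk x₀ v ⟨l, hl1⟩ hl2] at h2
      exact h2

section

variable {Γ : Type} [Group Γ] [MulAction Γ (Q.Cover x₀)] (hΓ : IsDeck Γ Q x₀)

include hΓ

end

section

variable [Fintype V] {d : ℕ} {z : Finset V → X → Finset V × P → K}
  (hz : z ∈ ZQ K Q d (rX g s t))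

include hz

end

end Pool.Agent.H37.TM

end
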