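import Pool.Agent.H71.TSG.M07

/-! The parts of this file: H73.GC.SysB, H73.GC.Ten. -/

section

/-!
# Growth calculus: simple properties of `Sy` and `hX`, dimension of the chains
-/

set_option autoImplicit false
set_option linter.unusedSectionVars false

open Finset

namespace Pool.Agent.H73.GC

variable {V : Type} [DecidableEq V] [Fintype V]
variable {Y Y' : Type} [AddCommGroup Y] [Module F2 Y] [AddCommGroup Y'] [Module F2 Y']

theorem mono_Sy {X : Finset V → Prop} (hm : ∀ s v, X (insert v s) → X s)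
    (r : V → Module.End F2 Y) : Mono (Sy X r) := by
  intro s v y hy
  exact ⟨fun h => hy.1 fun h' => h (hm s v h'), fun w hw => hy.2 w (mem_insert_of_mem hw)⟩

theorem mono_Cq (G : SimpleGraph V) (U : Finset V) : ∀ s v, Cq G U (insert v s) → Cq G U s := by
  intro s v h
  exact ⟨h.1.subset (Finset.coe_subset.2 (subset_insert v s)), (subset_insert v s).trans h.2⟩

theorem Sy_congr {X X' : Finset V → Prop} (hx : ∀ s, X s ↔ X' s) {r r' : V → Module.End F2 Y}
    (h : ∀ s, X s → ∀ v ∈ s, ∀ y, r v y = r' v y) : Sy X r = Sy X' r' := by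
  funext s
  ext y
  rw [mem_Sy, mem_Sy]
  by_cases hs : X s
  · have hs' : X' s := (hx s).1 hs
    constructor
    · rintro ⟨-, h2⟩
      exact ⟨fun hn => absurd hs' hn, fun v hv => by rw [← h s hs v hv, h2 v hv]⟩
    · rintro ⟨-, h2⟩
      exact ⟨fun hn => absurd hs hn, fun v hv => by rw [h s hs v hv, h2 v hv]⟩
  · have hs' : ¬ X' s := fun h' => hs ((hx s).2 h')
    constructor
    · rintro ⟨h1, -⟩
      have h0 := h1 hs
      exact ⟨fun _ => h0, fun v _ => by rw [h0, map_zero]⟩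
    · rintro ⟨h1, -⟩
      have h0 := h1 hs'
      exact ⟨fun _ => h0, fun v _ => by rw [h0, map_zero]⟩

theorem hX_congr {X X' : Finset V → Prop} (hx : ∀ s, X s ↔ X' s) {r r' : V → Module.End F2 Y}
    (h : ∀ s, X s → ∀ v ∈ s, ∀ y, r v y = r' v y) (i : ℕ) :
    hX X r i = hX X' r' i := by
  unfold hX
  rw [Sy_congr hx h]

/-- an isomorphism of modules -/
theorem hX_equiv [Finite Y] [Finite Y'] (e : Y ≃ₗ[F2] Y') {X : Finset V → Prop}
    {r : V → Module.End F2 Y} {r' : V → Module.End F2 Y'}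
    (h : ∀ s, X s → ∀ v ∈ s, ∀ y, e (r v y) = r' v (e y)) (i : ℕ) :
    hX X r i = hX X r' i := by
  obtain ⟨E, hE⟩ : ∃ E : (Finset V → Y) ≃ₗ[F2] (Finset V → Y'), ∀ f s, E f s = e (f s) :=
    ⟨LinearEquiv.piCongrRight fun _ => e, fun _ _ => rfl⟩
  have hEs : ∀ g s, E.symm g s = e.symm (g s) := by
    intro g s
    rw [LinearEquiv.eq_symm_apply, ← hE, LinearEquiv.apply_symm_apply]
  have hdE : ∀ f, dd (E f) = E (dd f) := by
    intro f
    funext s
    rw [hE, dd_apply, dd_apply, map_sum]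
    exact sum_congr rfl fun v _ => hE _ _
  have hSy : ∀ s y, e y ∈ Sy X r' s ↔ y ∈ Sy X r s := by
    intro s y
    rw [mem_Sy, mem_Sy]
    constructor
    · rintro ⟨h1, h2⟩
      have h3 : ¬ X s → y = 0 := fun hn => (LinearEquiv.map_eq_zero_iff e).1 (h1 hn)
      refine ⟨h3, fun v hv => ?_⟩
      by_cases hs : X s
      · apply e.injective
        rw [h s hs v hv, h2 v hv]
      · rw [h3 hs, map_zero]
    · rintro ⟨h1, h2⟩
      have h3 : ¬ X s → e y = 0 := fun hn => by rw [h1 hn, map_zero]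
      refine ⟨h3, fun v hv => ?_⟩
      by_cases hs : X s
      · rw [← h s hs v hv, h2 v hv]
      · rw [h3 hs, map_zero]
  have hCh : ∀ (j : ℕ) f, E f ∈ Ch (Sy X r') j ↔ f ∈ Ch (Sy X r) j := by
    intro j f
    rw [mem_Ch, mem_Ch]
    refine forall_congr' fun s => ?_
    rw [hE, hSy]
    refine and_congr_right fun _ => imp_congr_right fun _ => ?_
    exact LinearEquiv.map_eq_zero_iff e
  have hk : (Ch (Sy X r) i ⊓ LinearMap.ker dd : Submodule F2 (Finset V → Y)).map
      (E : (Finset V → Y) →ₗ[F2] (Finset V → Y')) =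
        (Ch (Sy X r') i ⊓ LinearMap.ker dd : Submodule F2 (Finset V → Y')) := by
    ext g
    rw [Submodule.mem_map]
    constructor
    · rintro ⟨f, ⟨h1, h2⟩, rfl⟩
      refine ⟨(hCh i f).2 h1, ?_⟩
      show dd (E f) = 0
      have h3 : dd f = 0 := h2
      rw [hdE, h3, map_zero]
    · rintro ⟨h1, h2⟩
      have h4 : E (E.symm g) = g := E.apply_symm_apply g
      have h3 : dd g = 0 := h2
      refine ⟨E.symm g, ⟨(hCh i _).1 (h4.symm ▸ h1), ?_⟩, h4⟩
      show dd (E.symm g) = 0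
      apply E.injective
      rw [← hdE, h4, h3, map_zero]
  have hm : ((Ch (Sy X r) (i + 1)).map dd).map (E : (Finset V → Y) →ₗ[F2] (Finset V → Y')) =
      (Ch (Sy X r') (i + 1)).map dd := by
    ext g
    simp only [Submodule.mem_map]
    constructor
    · rintro ⟨_, ⟨f, h1, rfl⟩, rfl⟩
      exact ⟨E f, (hCh _ f).2 h1, hdE f⟩
    · rintro ⟨g', h1, rfl⟩
      have h4 : E (E.symm g') = g' := E.apply_symm_apply g'
      refine ⟨dd (E.symm g'), ⟨E.symm g', (hCh _ _).1 (h4.symm ▸ h1), rfl⟩, ?_⟩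
      show E (dd (E.symm g')) = dd g'
      rw [← hdE, h4]
  unfold hX hd hx
  rw [← hk, ← hm, LinearEquiv.finrank_map_eq, LinearEquiv.finrank_map_eq]

/-- a trivial module has no homology -/
theorem hX_subsingleton [Subsingleton Y] (X : Finset V → Prop) (r : V → Module.End F2 Y) (i : ℕ) :
    hX X r i = 0 := by
  unfold hX hd hx
  rw [Module.finrank_zero_of_subsingleton, Module.finrank_zero_of_subsingleton]
  rfl

/-- the chains are the families of vectors indexed by the simplices -/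
private def SysB_equiv (A : Finset V → Submodule F2 Y) (i : ℕ) :
    Ch A i ≃ₗ[F2] ((s : {s : Finset V // s.card = i}) → A s.1) where
  toFun f s := ⟨f.1 s.1, (f.2 s.1).1⟩
  invFun g := ⟨fun s => if h : s.card = i then (g ⟨s, h⟩ : Y) else 0, fun s => by
    beta_reduce
    by_cases h : s.card = i
    · rw [dif_pos h]
      exact ⟨(g ⟨s, h⟩).2, fun hn => absurd h hn⟩
    · rw [dif_neg h]
      exact ⟨Submodule.zero_mem _, fun _ => rfl⟩⟩
  left_inv f := Subtype.ext (funext fun s => by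
    by_cases h : s.card = i
    · exact dif_pos h
    · exact (dif_neg h).trans ((f.2 s).2 h).symm)
  right_inv g := funext fun s => Subtype.ext (dif_pos s.2)
  map_add' f g := rfl
  map_smul' c f := rfl

/-- the dimension of the space of chains -/
theorem finrank_Ch [Finite Y] (A : Finset V → Submodule F2 Y) (i : ℕ) :
    Module.finrank F2 (Ch A i) = ∑ s ∈ (univ : Finset (Finset V)).filter (fun s => s.card = i),
      Module.finrank F2 (A s) := by
  rw [(SysB_equiv A i).finrank_eq, Module.finrank_pi_fintype]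
  exact (sum_subtype _ (fun s => by simp) fun s => Module.finrank F2 (A s)).symm

end Pool.Agent.H73.GC

end

section

/-!
# Growth calculus: tensor products
-/

set_option autoImplicit false
set_option linter.unusedSectionVars false

open Finset

namespace Pool.Agent.H73.GC

variable {V : Type} [DecidableEq V] [Fintype V]
variable {Y₁ Y₂ : Type} [AddCommGroup Y₁] [Module F2 Y₁] [AddCommGroup Y₂] [Module F2 Y₂]

/-- the tensor product of two modules -/
noncomputable def tens (r₁ : V → Module.End F2 Y₁) (r₂ : V → Module.End F2 Y₂) (v : V) :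
    Module.End F2 (TensorProduct F2 Y₁ Y₂) := TensorProduct.map (r₁ v) (r₂ v)

theorem Ten_tmul (r₁ : V → Module.End F2 Y₁) (r₂ : V → Module.End F2 Y₂) (v : V) (x : Y₁) (y : Y₂) :
    tens r₁ r₂ v (TensorProduct.tmul F2 x y) = TensorProduct.tmul F2 (r₁ v x) (r₂ v y) :=
  TensorProduct.map_tmul _ _ _ _

theorem Ten_add_self {Y : Type} [AddCommGroup Y] [Module F2 Y] (y : Y) : y + y = 0 := by
  have h : (2 : F2) = 0 := by decide
  rw [← two_smul F2 y, h, zero_smul]

/-- two linear maps which agree on the pure tensors are equal -/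
theorem Ten_ext {f g : Module.End F2 (TensorProduct F2 Y₁ Y₂)}
    (h : ∀ x y, f (TensorProduct.tmul F2 x y) = g (TensorProduct.tmul F2 x y)) (z : TensorProduct F2 Y₁ Y₂) :
    f z = g z := by
  have : f = g := TensorProduct.ext' h
  rw [this]

theorem finite_tens [Finite Y₁] [Finite Y₂] : Finite (TensorProduct F2 Y₁ Y₂) := by
  have : Module.Finite F2 Y₁ := Module.Finite.of_finite
  have : Module.Finite F2 Y₂ := Module.Finite.of_finite
  exact Module.finite_of_finite F2

/-- the filtration of the tensor product -/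
noncomputable def Ten_F (F₁ : ℕ → Submodule F2 Y₁) (F₂ : ℕ → Submodule F2 Y₂) (k : ℕ) :
    Submodule F2 (TensorProduct F2 Y₁ Y₂) :=
  ⨆ p : {p : ℕ × ℕ // p.1 + p.2 ≤ k}, Submodule.map₂ (TensorProduct.mk F2 Y₁ Y₂) (F₁ p.1.1) (F₂ p.1.2)

theorem Ten_mem {F₁ : ℕ → Submodule F2 Y₁} {F₂ : ℕ → Submodule F2 Y₂} {a b k : ℕ} (h : a + b ≤ k)
    {x : Y₁} {y : Y₂} (hx : x ∈ F₁ a) (hy : y ∈ F₂ b) :
    TensorProduct.tmul F2 x y ∈ Ten_F F₁ F₂ k := by
  have h1 : Submodule.map₂ (TensorProduct.mk F2 Y₁ Y₂) (F₁ a) (F₂ b) ≤ Ten_F F₁ F₂ k :=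
    le_iSup (fun p : {p : ℕ × ℕ // p.1 + p.2 ≤ k} =>
      Submodule.map₂ (TensorProduct.mk F2 Y₁ Y₂) (F₁ p.1.1) (F₂ p.1.2)) ⟨(a, b), h⟩
  exact h1 (Submodule.apply_mem_map₂ (TensorProduct.mk F2 Y₁ Y₂) hx hy)

theorem Ten_le {F₁ : ℕ → Submodule F2 Y₁} {F₂ : ℕ → Submodule F2 Y₂} {k : ℕ}
    {Q : Submodule F2 (TensorProduct F2 Y₁ Y₂)}
    (h : ∀ a b : ℕ, a + b ≤ k → ∀ x ∈ F₁ a, ∀ y ∈ F₂ b, TensorProduct.tmul F2 x y ∈ Q) :
    Ten_F F₁ F₂ k ≤ Q := by
  refine iSup_le ?_
  rintro ⟨⟨a, b⟩, hab⟩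
  exact Submodule.map₂_le.2 fun x hx y hy => h a b hab x hx y hy

/-- The filtration: `F k` is the supremum of the images of `F₁ a ⊗ F₂ b` with `a + b ≤ k`; for `y₁ ∈ F₁ (a + 1)`,
`y₂ ∈ F₂ b`: `y₁ ⊗ y₂ + r₁ y₁ ⊗ r₂ y₂ = (y₁ + r₁ y₁) ⊗ r₂ y₂ + y₁ ⊗ (y₂ + r₂ y₂)`. -/
theorem fil_tens {U : Finset V} {r₁ : V → Module.End F2 Y₁} {r₂ : V → Module.End F2 Y₂}
    (h₁ : Fil U r₁) (h₂ : Fil U r₂) : Fil U (tens r₁ r₂) := by
  obtain ⟨n₁, F₁, hm₁, hz₁, ht₁, hs₁⟩ := h₁
  obtain ⟨n₂, F₂, hm₂, hz₂, ht₂, hs₂⟩ := h₂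
  refine ⟨n₁ + n₂, Ten_F F₁ F₂, ?_, ?_, ?_, ?_⟩
  · intro k l hkl
    exact Ten_le fun a b hab x hx y hy => Ten_mem (hab.trans hkl) hx hy
  · refine le_bot_iff.1 (Ten_le fun a b hab x hx y hy => ?_)
    have ha : a = 0 := by omega
    subst ha
    rw [hz₁, Submodule.mem_bot] at hx
    rw [hx, TensorProduct.zero_tmul]
    exact Submodule.zero_mem _
  · refine top_le_iff.1 ?_
    rw [← TensorProduct.map₂_mk_top_top_eq_top F2 Y₁ Y₂]
    refine Submodule.map₂_le.2 fun x _ y _ => ?_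
    refine Ten_mem (a := n₁) (b := n₂) le_rfl ?_ ?_
    · rw [ht₁]
      exact Submodule.mem_top
    · rw [ht₂]
      exact Submodule.mem_top
  · intro j v hv z hz
    have hle : Ten_F F₁ F₂ (j + 1) ≤
        (Ten_F F₁ F₂ j).comap (LinearMap.id + tens r₁ r₂ v) := by
      refine Ten_le fun a b hab x hx y hy => ?_
      rw [Submodule.mem_comap, LinearMap.add_apply, LinearMap.id_apply, Ten_tmul]
      rcases Nat.eq_zero_or_pos a with ha | ha
      · subst ha
        rw [hz₁, Submodule.mem_bot] at hx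
        rw [hx, map_zero, TensorProduct.zero_tmul, TensorProduct.zero_tmul, add_zero]
        exact Submodule.zero_mem _
      rcases Nat.eq_zero_or_pos b with hb | hb
      · subst hb
        rw [hz₂, Submodule.mem_bot] at hy
        rw [hy, map_zero, TensorProduct.tmul_zero, TensorProduct.tmul_zero, add_zero]
        exact Submodule.zero_mem _
      obtain ⟨a, rfl⟩ : ∃ c, a = c + 1 := ⟨a - 1, by omega⟩
      obtain ⟨b, rfl⟩ : ∃ c, b = c + 1 := ⟨b - 1, by omega⟩
      have e1 := hs₁ a v hv x hx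
      have e2 := hs₂ b v hv y hy
      have e3 : r₂ v y ∈ F₂ (b + 1) := by
        have h := Submodule.add_mem _ hy (hm₂ (Nat.le_succ b) e2)
        rwa [← add_assoc, Ten_add_self, zero_add] at h
      have hsum : TensorProduct.tmul F2 x y + TensorProduct.tmul F2 (r₁ v x) (r₂ v y) =
          TensorProduct.tmul F2 (x + r₁ v x) (r₂ v y) + TensorProduct.tmul F2 x (y + r₂ v y) := by
        rw [TensorProduct.add_tmul, TensorProduct.tmul_add]
        have h := Ten_add_self (TensorProduct.tmul F2 x (r₂ v y))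
        calc TensorProduct.tmul F2 x y + TensorProduct.tmul F2 (r₁ v x) (r₂ v y)
            = (TensorProduct.tmul F2 x (r₂ v y) + TensorProduct.tmul F2 x (r₂ v y)) +
                (TensorProduct.tmul F2 x y + TensorProduct.tmul F2 (r₁ v x) (r₂ v y)) := by
              rw [h, zero_add]
          _ = _ := by abel
      rw [hsum]
      exact Submodule.add_mem _ (Ten_mem (by omega) e1 e3) (Ten_mem (by omega) hx e2)
    have h := hle hz
    rwa [Submodule.mem_comap, LinearMap.add_apply, LinearMap.id_apply] at h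

theorem isN_tens {G : SimpleGraph V} {U : Finset V} {r₁ : V → Module.End F2 Y₁}
    {r₂ : V → Module.End F2 Y₂} (h₁ : IsN G U r₁) (h₂ : IsN G U r₂) : IsN G U (tens r₁ r₂) := by
  refine ⟨?_, ?_, fil_tens h₁.fil h₂.fil⟩
  · intro v hv z
    refine Ten_ext (f := tens r₁ r₂ v * tens r₁ r₂ v) (g := LinearMap.id) (fun x y => ?_) z
    rw [Module.End.mul_apply, Ten_tmul, Ten_tmul, h₁.sq v hv, h₂.sq v hv, LinearMap.id_apply]
  · intro u hu v hv huv z
    refine Ten_ext (f := tens r₁ r₂ u * tens r₁ r₂ v) (g := tens r₁ r₂ v * tens r₁ r₂ u)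
      (fun x y => ?_) z
    rw [Module.End.mul_apply, Module.End.mul_apply, Ten_tmul, Ten_tmul, Ten_tmul, Ten_tmul,
      h₁.comm u hu v hv huv, h₂.comm u hu v hv huv]

theorem isBit_tens_left {G : SimpleGraph V} {U : Finset V} {r₁ E₁ : V → Module.End F2 Y₁}
    {r₂ : V → Module.End F2 Y₂} (h₁ : IsBit G U r₁ E₁) :
    IsBit G U (tens r₁ r₂) (fun v => TensorProduct.map (E₁ v) LinearMap.id) := by
  refine ⟨?_, ?_, ?_, ?_⟩
  · intro v hv z
    refine Ten_ext (f := TensorProduct.map (E₁ v) LinearMap.id * TensorProduct.map (E₁ v) LinearMap.id)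
      (g := TensorProduct.map (E₁ v) LinearMap.id) (fun x y => ?_) z
    rw [Module.End.mul_apply, TensorProduct.map_tmul, TensorProduct.map_tmul, h₁.idem v hv,
      LinearMap.id_apply, LinearMap.id_apply]
  · intro v hv z
    refine Ten_ext (f := TensorProduct.map (E₁ v) LinearMap.id * tens r₁ r₂ v +
      tens r₁ r₂ v * TensorProduct.map (E₁ v) LinearMap.id) (g := tens r₁ r₂ v) (fun x y => ?_) z
    rw [LinearMap.add_apply, Module.End.mul_apply, Module.End.mul_apply, TensorProduct.map_tmul,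
      Ten_tmul, Ten_tmul, TensorProduct.map_tmul, LinearMap.id_apply, LinearMap.id_apply,
      ← TensorProduct.add_tmul, h₁.bit v hv]
  · intro u hu v hv huv z
    refine Ten_ext (f := TensorProduct.map (E₁ u) LinearMap.id * tens r₁ r₂ v)
      (g := tens r₁ r₂ v * TensorProduct.map (E₁ u) LinearMap.id) (fun x y => ?_) z
    rw [Module.End.mul_apply, Module.End.mul_apply, TensorProduct.map_tmul,
      Ten_tmul, Ten_tmul, TensorProduct.map_tmul, LinearMap.id_apply, LinearMap.id_apply,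
      h₁.er u hu v hv huv]
  · intro u hu v hv huv z
    refine Ten_ext (f := TensorProduct.map (E₁ u) LinearMap.id * TensorProduct.map (E₁ v) LinearMap.id)
      (g := TensorProduct.map (E₁ v) LinearMap.id * TensorProduct.map (E₁ u) LinearMap.id)
      (fun x y => ?_) z
    rw [Module.End.mul_apply, Module.End.mul_apply, TensorProduct.map_tmul,
      TensorProduct.map_tmul, TensorProduct.map_tmul, TensorProduct.map_tmul, LinearMap.id_apply,
      LinearMap.id_apply, h₁.ee u hu v hv huv]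

end Pool.Agent.H73.GC

end
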