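import Pool.Agent.H71.TSG.M05
import Pool.Agent.H71.TSG.M08
import Pool.Agent.H71.TSG.M12
import Pool.Agent.H71.TSG.M16

/-! The parts of this file: H73.GC.Prod, H19.Cub.HMat, H19.LG.Defs, H19.LG.ChDim. -/

section

/-!
# Growth calculus: the product lemma

Induction over the dimension of `Y₂` (replace `r₂ v`, `v ∉ U`, by `1` first, `hX_congr`): let `m ≠ 0` be
invariant (`exists_fixed`), `S = span {m}`, `lam : Y₁ ⊗ Y₂ → Y₁ ⊗ (Y₂ / S)`. `hd_coef` for
`A = Sy X (tens r₁ r₂)`: the image of `A s` is `Sy X (tens r₁ r₂') s` by `Sy_map` (projections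
`E₁ v ⊗ 1`), the kernel of `lam` is the image of the injective map `y ↦ y ⊗ m`, so
`A s ⊓ ker lam = (Sy X r₁ s).map (· ⊗ m)` and `hd_map` gives `hX X r₁ i`.
-/

set_option autoImplicit false
set_option linter.unusedSectionVars false

open Finset

namespace Pool.Agent.H73.GC

variable {V : Type} [DecidableEq V] [Fintype V]
variable {Y₁ Y₂ : Type} [AddCommGroup Y₁] [Module F2 Y₁] [AddCommGroup Y₂] [Module F2 Y₂]
  [Finite Y₁] [Finite Y₂]

/-- The operators on the quotient by a subspace on which all of them are defined. -/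
private theorem Prod_quot {G : SimpleGraph V} {U : Finset V} {Y : Type} [AddCommGroup Y]
    [Module F2 Y] {r : V → Module.End F2 Y} (h : IsN G U r) (S : Submodule F2 Y)
    (hS : ∀ v, S ≤ S.comap (r v)) : IsN G U (fun v => S.mapQ S (r v) (hS v)) where
  sq := by
    intro v hv y
    obtain ⟨y, rfl⟩ := S.mkQ_surjective y
    change S.mkQ (r v (r v y)) = S.mkQ y
    rw [h.sq v hv y]
  comm := by
    intro u hu v hv huv y
    obtain ⟨y, rfl⟩ := S.mkQ_surjective y
    change S.mkQ (r u (r v y)) = S.mkQ (r v (r u y))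
    rw [h.comm u hu v hv huv y]
  fil := by
    obtain ⟨n, F, hF, h0, hn, hr⟩ := h.fil
    refine ⟨n, fun j => (F j).map S.mkQ, fun a b hab => Submodule.map_mono (hF hab), ?_, ?_, ?_⟩
    · change (F 0).map S.mkQ = ⊥
      rw [h0, Submodule.map_bot]
    · change (F n).map S.mkQ = ⊤
      rw [hn, Submodule.map_top, Submodule.range_mkQ]
    · rintro j v hv _ ⟨y, hy, rfl⟩
      exact ⟨y + r v y, hr j v hv y hy, by rw [map_add]; rfl⟩

/-- One step of the induction. -/
private theorem Prod_step {G : SimpleGraph V} {U : Finset V} {r₁ E₁ : V → Module.End F2 Y₁}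
    {r₂ : V → Module.End F2 Y₂} (h₁ : IsN G U r₁) (hb : IsBit G U r₁ E₁) (h₂ : IsN G U r₂)
    {X : Finset V → Prop} (hc : ∀ s, X s → Cq G U s) (hm : ∀ s v, X (insert v s) → X s) (i : ℕ)
    (m : Y₂) (hm0 : m ≠ 0) (hmr : ∀ v, r₂ v m = m)
    (hS : ∀ v, Submodule.span F2 {m} ≤ (Submodule.span F2 {m}).comap (r₂ v)) :
    hX X (tens r₁ r₂) i ≤ hX X r₁ i + hX X (tens r₁ (fun v =>
      (Submodule.span F2 {m}).mapQ (Submodule.span F2 {m}) (r₂ v) (hS v))) i := by
  set S := Submodule.span F2 {m} with hSdef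
  set q := S.mkQ with hq
  have : Finite (TensorProduct F2 Y₁ Y₂) := finite_tens
  have : Finite (Y₂ ⧸ S) := Finite.of_surjective S.mkQ S.mkQ_surjective
  have : Finite (TensorProduct F2 Y₁ (Y₂ ⧸ S)) := finite_tens
  set lam : TensorProduct F2 Y₁ Y₂ →ₗ[F2] TensorProduct F2 Y₁ (Y₂ ⧸ S) := LinearMap.lTensor Y₁ q
    with hlam
  have hls : Function.Surjective lam := LinearMap.lTensor_surjective Y₁ S.mkQ_surjective
  set j : Y₁ →ₗ[F2] TensorProduct F2 Y₁ Y₂ := (TensorProduct.mk F2 Y₁ Y₂).flip m with hj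
  have hjy : ∀ y, j y = TensorProduct.tmul F2 y m := fun y => rfl
  -- `j` is injective
  have hjinj : Function.Injective j := by
    have hk : LinearMap.ker (LinearMap.toSpanSingleton F2 Y₂ m) = ⊥ :=
      LinearMap.ker_toSpanSingleton F2 hm0
    obtain ⟨g, hg⟩ := (LinearMap.toSpanSingleton F2 Y₂ m).exists_leftInverse_of_injective hk
    have hgm : g m = 1 := by
      have := LinearMap.congr_fun hg 1
      simpa using this
    intro y y' hyy
    have h3 := congrArg (fun z => TensorProduct.rid F2 Y₁ (LinearMap.lTensor Y₁ g z)) hyy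
    simp only [hjy, LinearMap.lTensor_tmul, hgm, TensorProduct.rid_tmul, one_smul] at h3
    exact h3
  -- the kernel of `lam` is the range of `j`
  have hker : ∀ y, lam y = 0 → ∃ y₁, j y₁ = y := by
    intro y hy
    have hex : Function.Exact (LinearMap.toSpanSingleton F2 Y₂ m) q := by
      rw [LinearMap.exact_iff, hq, Submodule.ker_mkQ, hSdef, LinearMap.range_toSpanSingleton]
    obtain ⟨z, hz⟩ := (lTensor_exact Y₁ hex S.mkQ_surjective y).1 hy
    refine ⟨TensorProduct.rid F2 Y₁ z, ?_⟩
    rw [← hz]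
    have : j ∘ₗ (TensorProduct.rid F2 Y₁).toLinearMap =
        LinearMap.lTensor Y₁ (LinearMap.toSpanSingleton F2 Y₂ m) := by
      refine TensorProduct.ext' fun a b => ?_
      simp [hjy, TensorProduct.smul_tmul]
    exact LinearMap.congr_fun this z
  have hlj : ∀ y, lam (j y) = 0 := by
    intro y
    rw [hjy, hlam, LinearMap.lTensor_tmul]
    have : q m = 0 := by
      rw [hq, Submodule.mkQ_apply, Submodule.Quotient.mk_eq_zero, hSdef]
      exact Submodule.mem_span_singleton_self m
    rw [this, TensorProduct.tmul_zero]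
  have hrj : ∀ v y, tens r₁ r₂ v (j y) = j (r₁ v y) := by
    intro v y
    rw [hjy, hjy, tens, TensorProduct.map_tmul, hmr v]
  -- the kernels
  have hA : (fun s => Sy X (tens r₁ r₂) s ⊓ LinearMap.ker lam) = fun s => (Sy X r₁ s).map j := by
    funext s
    ext y
    constructor
    · rintro ⟨⟨h3, h4⟩, h5⟩
      obtain ⟨y₁, rfl⟩ := hker y h5
      refine ⟨y₁, ⟨fun h => hjinj (by rw [h3 h, map_zero]), fun v hv => hjinj ?_⟩, rfl⟩
      rw [← hrj, h4 v hv]
    · rintro ⟨y₁, ⟨h3, h4⟩, rfl⟩
      refine ⟨⟨fun h => by rw [h3 h, map_zero], fun v hv => ?_⟩, hlj y₁⟩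
      rw [hrj, h4 v hv]
  -- the images
  have hB : (fun s => (Sy X (tens r₁ r₂) s).map lam) =
      Sy X (tens r₁ (fun v => S.mapQ S (r₂ v) (hS v))) := by
    funext s
    refine Sy_map (E := fun v => TensorProduct.map (E₁ v) LinearMap.id)
      (fun s hs => (isBit_tens_left hb).bitOn (isN_tens h₁ h₂) (hc s hs)) lam hls ?_ ?_ s
    · intro s _ v _ y
      have : lam ∘ₗ TensorProduct.map (r₁ v) (r₂ v) =
          TensorProduct.map (r₁ v) (S.mapQ S (r₂ v) (hS v)) ∘ₗ lam := by
        refine TensorProduct.ext' fun a b => ?_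
        simp [hlam, hq]
      exact LinearMap.congr_fun this y
    · intro s _ v _ y hy
      have : lam ∘ₗ TensorProduct.map (E₁ v) LinearMap.id =
          TensorProduct.map (E₁ v) LinearMap.id ∘ₗ lam := by
        refine TensorProduct.ext' fun a b => ?_
        simp [hlam, hq]
      have h3 := LinearMap.congr_fun this y
      simp only [LinearMap.comp_apply, hy, map_zero] at h3
      exact h3
  have h3 := hd_coef (mono_Sy hm (tens r₁ r₂)) lam i
  rw [hA, hB, hd_map (Sy X r₁) j hjinj i] at h3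
  exact h3

private theorem Prod_aux {G : SimpleGraph V} {U : Finset V} {r₁ E₁ : V → Module.End F2 Y₁}
    (h₁ : IsN G U r₁) (hb : IsBit G U r₁ E₁)
    {X : Finset V → Prop} (hc : ∀ s, X s → Cq G U s) (hm : ∀ s v, X (insert v s) → X s) (i : ℕ)
    (n : ℕ) : ∀ (Y : Type) [AddCommGroup Y] [Module F2 Y] [Finite Y] (r : V → Module.End F2 Y),
      IsN G U r → (∀ v ∉ U, r v = 1) → Module.finrank F2 Y = n →
        hX X (tens r₁ r) i ≤ n * hX X r₁ i := by
  induction n with
  | zero =>
    intro Y _ _ _ r _ _ hn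
    have : Module.Finite F2 Y := Module.Finite.of_finite
    have : Subsingleton Y := Module.finrank_zero_iff.1 hn
    rw [hX_subsingleton, Nat.cast_zero, zero_mul]
  | succ n ih =>
    intro Y _ _ _ r hr hr1 hn
    have : Module.Finite F2 Y := Module.Finite.of_finite
    have : Nontrivial Y := Module.nontrivial_of_finrank_pos (R := F2) (by omega)
    obtain ⟨m, hm0, hmU⟩ := exists_fixed hr.fil
    have hmr : ∀ v, r v m = m := by
      intro v
      by_cases hv : v ∈ U
      · exact hmU v hv
      · rw [hr1 v hv]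
        rfl
    have hS : ∀ v, Submodule.span F2 {m} ≤ (Submodule.span F2 {m}).comap (r v) := by
      intro v
      rw [Submodule.span_singleton_le_iff_mem, Submodule.mem_comap, hmr v]
      exact Submodule.mem_span_singleton_self m
    have h3 := Prod_step h₁ hb hr hc hm i m hm0 hmr hS
    have : Finite (Y ⧸ Submodule.span F2 {m}) :=
      Finite.of_surjective (Submodule.span F2 {m}).mkQ (Submodule.span F2 {m}).mkQ_surjective
    have h4 := ih (Y ⧸ Submodule.span F2 {m}) _ (Prod_quot hr _ hS) (fun v hv => by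
      refine LinearMap.ext fun y => ?_
      obtain ⟨y, rfl⟩ := (Submodule.span F2 {m}).mkQ_surjective y
      change (Submodule.span F2 {m}).mkQ (r v y) = _
      rw [hr1 v hv]
      rfl) (by
      have h5 := (Submodule.span F2 {m}).finrank_quotient_add_finrank
      rw [finrank_span_singleton hm0, hn] at h5
      omega)
    push_cast
    linarith

theorem prod_le {G : SimpleGraph V} {U : Finset V} {r₁ E₁ : V → Module.End F2 Y₁}
    {r₂ : V → Module.End F2 Y₂} (h₁ : IsN G U r₁) (hb : IsBit G U r₁ E₁) (h₂ : IsN G U r₂)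
    {X : Finset V → Prop} (hc : ∀ s, X s → Cq G U s) (hm : ∀ s v, X (insert v s) → X s) (i : ℕ) :
    hX X (tens r₁ r₂) i ≤
      Module.finrank F2 Y₂ * hX X r₁ i := by
  classical
  have h3 : hX X (tens r₁ r₂) i = hX X (tens r₁ (fun v => if v ∈ U then r₂ v else 1)) i := by
    have : Finite (TensorProduct F2 Y₁ Y₂) := finite_tens
    refine hX_congr (fun s => Iff.rfl) (fun s hs v hv y => ?_) i
    rw [tens, tens, if_pos ((hc s hs).2 hv)]
  rw [h3]
  refine Prod_aux h₁ hb hc hm i _ Y₂ _ ⟨?_, ?_, ?_⟩ (fun v hv => if_neg hv) rfl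
  · intro v hv y
    simp only [if_pos hv]
    exact h₂.sq v hv y
  · intro u hu v hv huv y
    simp only [if_pos hv, if_pos hu]
    exact h₂.comm u hu v hv huv y
  · obtain ⟨n, F, hF, h0, hn, hr⟩ := h₂.fil
    refine ⟨n, F, hF, h0, hn, fun j v hv y hy => ?_⟩
    simp only [if_pos hv]
    exact hr j v hv y hy

end Pool.Agent.H73.GC

end

section

/-!
# Project MC: the matrix of the harmonic chains

`Ω` is a finite set with involutions `s v` and labels `Y x`. The matrix `HS` over the group ring of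
`W = RGrp G`; its rows are the pairs `(x, σ)`, `σ ⊆ Y x` a clique with `i` elements; its columns give the
antisymmetry, the boundary and the coboundary. Modelled on `Pool.Agent.H4.Singer.HarmMatrix` (`HM`) and
`Pool.Agent.H4.Singer.HarmAct` (`gact`, `gact_single`, ...; `gact π a φ h = ∑ g, φ (h * (π g)⁻¹) * a g`).
In the three statements `φ x σ : H → ℂ` is a family of functions which vanishes off the rows.
-/

set_option autoImplicit false
set_option linter.unusedSectionVars false

open Finset

namespace Pool.Agent.H19.Cub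

open Pool.Agent.H4.Singer

variable {V : Type} [Fintype V] [DecidableEq V] {Ω : Type} [Fintype Ω]

/-- the rows -/
abbrev RS (G : SimpleGraph V) (Y : Ω → Finset V) (i : ℕ) : Type :=
  {q : Ω × Finset V // q.2 ⊆ Y q.1 ∧ G.IsClique (q.2 : Set V) ∧ q.2.card = i}

noncomputable instance (G : SimpleGraph V) (Y : Ω → Finset V) (i : ℕ) : Fintype (RS G Y i) :=
  Fintype.ofFinite _

/-- the columns: antisymmetry, boundary, coboundary -/
abbrev CS (G : SimpleGraph V) (Y : Ω → Finset V) (i : ℕ) : Type :=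
  (RS G Y i × V) ⊕ ((Ω × Finset V) ⊕ (Ω × Finset V))

noncomputable instance (G : SimpleGraph V) (Y : Ω → Finset V) (i : ℕ) : Fintype (CS G Y i) :=
  inferInstance

open Classical in
/-- the matrix over the group ring whose left kernel consists of the harmonic chains -/
noncomputable def HS (G : SimpleGraph V) (Y : Ω → Finset V) (s : V → Ω → Ω) (ν : V → ℕ)
    (i : ℕ) : Matrix (RS G Y i) (CS G Y i) (MonoidAlgebra ℤ (RGrp G)) :=
  Matrix.of fun q c => match c with
    | Sum.inl (q', v) =>
      if q.1.2 = q'.1.2 ∧ v ∈ q'.1.2 then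
        (if q.1.1 = q'.1.1 then MonoidAlgebra.single 1 1 else 0) +
          (if q.1.1 = s v q'.1.1 then MonoidAlgebra.single (gen G v) 1 else 0)
      else 0
    | Sum.inr (Sum.inl (x, τ)) =>
      if q.1.1 = x then
        ∑ v ∈ τᶜ, if insert v τ = q.1.2 then MonoidAlgebra.single 1 (sz ν v τ) else 0
      else 0
    | Sum.inr (Sum.inr (x, ρ)) =>
      if ρ ⊆ Y x ∧ G.IsClique (ρ : Set V) ∧ ρ.card = i + 1 then
        ∑ v ∈ ρ, if ρ.erase v = q.1.2 then
          (if q.1.1 = x then MonoidAlgebra.single 1 (sz ν v (ρ.erase v)) else 0) -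
            (if q.1.1 = s v x then MonoidAlgebra.single (gen G v) (sz ν v (ρ.erase v)) else 0)
          else 0
      else 0

private lemma hs_gact_sub {W H : Type} [Group W] [Group H] (π : W →* H) (a b : MonoidAlgebra ℤ W)
    (φ : H → ℂ) (h : H) : gact π (a - b) φ h = gact π a φ h - gact π b φ h := by
  have h1 := gact_add π (a - b) b φ h
  rw [sub_add_cancel] at h1
  rw [h1]
  ring

private lemma hs_gact_sum {W H ι : Type} [Group W] [Group H] (π : W →* H) (s : Finset ι)
    (f : ι → MonoidAlgebra ℤ W) (φ : H → ℂ) (h : H) :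
    gact π (∑ k ∈ s, f k) φ h = ∑ k ∈ s, gact π (f k) φ h := by
  classical
  induction s using Finset.induction_on with
  | empty => simp [gact_zero]
  | insert k s hk ih => rw [Finset.sum_insert hk, Finset.sum_insert hk, gact_add, ih]

private lemma hs_gact_ite {W H : Type} [Group W] [Group H] (π : W →* H) (p : Prop) [Decidable p]
    (a : MonoidAlgebra ℤ W) (φ : H → ℂ) (h : H) :
    gact π (if p then a else 0) φ h = if p then gact π a φ h else 0 := by
  split_ifs
  · rfl
  · exact gact_zero π φ h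

open Classical in
private lemma hs_sum_RS (G : SimpleGraph V) (Y : Ω → Finset V) (i : ℕ) (y : Ω) (S : Finset V)
    (F : Ω → Finset V → ℂ)
    (hF : ¬ (S ⊆ Y y ∧ G.IsClique (S : Set V) ∧ S.card = i) → F y S = 0) :
    ∑ r : RS G Y i, (if r.1.1 = y ∧ S = r.1.2 then F r.1.1 r.1.2 else 0) = F y S := by
  by_cases hS : S ⊆ Y y ∧ G.IsClique (S : Set V) ∧ S.card = i
  · rw [Finset.sum_eq_single (⟨(y, S), hS⟩ : RS G Y i)]
    · simp
    · intro r _ hr
      rw [if_neg]
      rintro ⟨h1, h2⟩
      exact hr (Subtype.ext (Prod.ext h1 h2.symm))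
    · intro h1
      exact absurd (Finset.mem_univ _) h1
  · rw [hF hS]
    refine Finset.sum_eq_zero fun r _ => ?_
    rw [if_neg]
    rintro ⟨h1, h2⟩
    apply hS
    have h3 := r.2
    rw [h1, ← h2] at h3
    exact h3

variable {H : Type} [Group H] (G : SimpleGraph V) (Y : Ω → Finset V) (s : V → Ω → Ω)
  (hs : IsSpec G Y s) (ν : V → ℕ) (i : ℕ) (π : RGrp G →* H) (φ : Ω → Finset V → H → ℂ)
  (hφ : ∀ x σ, ¬ (σ ⊆ Y x ∧ G.IsClique (σ : Set V) ∧ σ.card = i) → φ x σ = 0)

include hs hφ

theorem HS_anti (q : RS G Y i) (v : V) (hv : v ∈ q.1.2) (h : H) :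
    ∑ r : RS G Y i, gact π (HS G Y s ν i r (Sum.inl (q, v))) (φ r.1.1 r.1.2) h =
      φ q.1.1 q.1.2 h + φ (s v q.1.1) q.1.2 (h * (π (gen G v))⁻¹) := by
  classical
  have key : ∀ r : RS G Y i, gact π (HS G Y s ν i r (Sum.inl (q, v))) (φ r.1.1 r.1.2) h =
      (if r.1.1 = q.1.1 ∧ q.1.2 = r.1.2 then φ r.1.1 r.1.2 h else 0) +
        (if r.1.1 = s v q.1.1 ∧ q.1.2 = r.1.2 then
          φ r.1.1 r.1.2 (h * (π (gen G v))⁻¹) else 0) := by
    intro r
    have h1 : HS G Y s ν i r (Sum.inl (q, v)) = if r.1.2 = q.1.2 ∧ v ∈ q.1.2 then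
        (if r.1.1 = q.1.1 then MonoidAlgebra.single 1 1 else 0) +
          (if r.1.1 = s v q.1.1 then MonoidAlgebra.single (gen G v) 1 else 0) else 0 := by
      simp only [HS, Matrix.of_apply]
    rw [h1, hs_gact_ite, gact_add, hs_gact_ite, hs_gact_ite, gact_single, gact_single]
    by_cases h2 : r.1.2 = q.1.2
    · rw [if_pos ⟨h2, hv⟩]
      have h3 : (q.1.2 = r.1.2) = True := by rw [h2]; simp
      simp only [h3, and_true]
      simp
    · rw [if_neg (fun h3 => h2 h3.1), if_neg (fun h3 => h2 h3.2.symm),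
        if_neg (fun h3 => h2 h3.2.symm), add_zero]
  rw [Finset.sum_congr rfl fun r _ => key r, Finset.sum_add_distrib,
    hs_sum_RS G Y i q.1.1 q.1.2 (fun x σ => φ x σ h) (fun h1 => absurd q.2 h1),
    hs_sum_RS G Y i (s v q.1.1) q.1.2 (fun x σ => φ x σ (h * (π (gen G v))⁻¹))
      (fun h1 => by rw [hφ _ _ h1]; rfl)]

theorem HS_bd (x : Ω) (τ : Finset V) (h : H) :
    ∑ r : RS G Y i, gact π (HS G Y s ν i r (Sum.inr (Sum.inl (x, τ)))) (φ r.1.1 r.1.2) h =
      ∑ v ∈ τᶜ, (-1 : ℂ) ^ (τ.filter fun u => ν u < ν v).card * φ x (insert v τ) h := by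
  classical
  have key : ∀ r : RS G Y i,
      gact π (HS G Y s ν i r (Sum.inr (Sum.inl (x, τ)))) (φ r.1.1 r.1.2) h =
      ∑ v ∈ τᶜ, if r.1.1 = x ∧ insert v τ = r.1.2 then
        φ r.1.1 r.1.2 h * ((sz ν v τ : ℤ) : ℂ) else 0 := by
    intro r
    have h1 : HS G Y s ν i r (Sum.inr (Sum.inl (x, τ))) =
        if r.1.1 = x then
          ∑ v ∈ τᶜ, if insert v τ = r.1.2 then MonoidAlgebra.single 1 (sz ν v τ) else 0
        else 0 := by
      simp only [HS, Matrix.of_apply]
    rw [h1, hs_gact_ite, hs_gact_sum]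
    by_cases h2 : r.1.1 = x
    · rw [if_pos h2]
      refine Finset.sum_congr rfl fun v _ => ?_
      rw [hs_gact_ite, gact_single]
      simp only [h2, true_and]
      simp
    · rw [if_neg h2]
      symm
      exact Finset.sum_eq_zero fun v _ => if_neg fun h3 => h2 h3.1
  rw [Finset.sum_congr rfl fun r _ => key r, Finset.sum_comm]
  refine Finset.sum_congr rfl fun v _ => ?_
  rw [hs_sum_RS G Y i x (insert v τ) (fun x S => φ x S h * ((sz ν v τ : ℤ) : ℂ))]
  · simp only [sz]
    push_cast
    ring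
  · intro h1
    rw [hφ _ _ h1]
    simp

theorem HS_cobd (x : Ω) (ρ : Finset V) (hρY : ρ ⊆ Y x) (hρ : G.IsClique (ρ : Set V))
    (hρi : ρ.card = i + 1) (h : H) :
    ∑ r : RS G Y i, gact π (HS G Y s ν i r (Sum.inr (Sum.inr (x, ρ)))) (φ r.1.1 r.1.2) h =
      ∑ v ∈ ρ, (-1 : ℂ) ^ ((ρ.erase v).filter fun u => ν u < ν v).card *
        (φ x (ρ.erase v) h - φ (s v x) (ρ.erase v) (h * (π (gen G v))⁻¹)) := by
  classical
  have key : ∀ r : RS G Y i,
      gact π (HS G Y s ν i r (Sum.inr (Sum.inr (x, ρ)))) (φ r.1.1 r.1.2) h =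
      ∑ v ∈ ρ, ((if r.1.1 = x ∧ ρ.erase v = r.1.2 then
        φ r.1.1 r.1.2 h * ((sz ν v (ρ.erase v) : ℤ) : ℂ) else 0) -
        (if r.1.1 = s v x ∧ ρ.erase v = r.1.2 then
          φ r.1.1 r.1.2 (h * (π (gen G v))⁻¹) * ((sz ν v (ρ.erase v) : ℤ) : ℂ) else 0)) := by
    intro r
    have h1 : HS G Y s ν i r (Sum.inr (Sum.inr (x, ρ))) =
        ∑ v ∈ ρ, if ρ.erase v = r.1.2 then
          (if r.1.1 = x then MonoidAlgebra.single 1 (sz ν v (ρ.erase v)) else 0) -
            (if r.1.1 = s v x then MonoidAlgebra.single (gen G v) (sz ν v (ρ.erase v)) else 0)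
          else 0 := by
      simp only [HS, Matrix.of_apply]
      rw [if_pos ⟨hρY, hρ, hρi⟩]
    rw [h1, hs_gact_sum]
    refine Finset.sum_congr rfl fun v _ => ?_
    rw [hs_gact_ite, hs_gact_sub, hs_gact_ite, hs_gact_ite, gact_single, gact_single]
    rw [map_one, inv_one, mul_one]
    by_cases h2 : ρ.erase v = r.1.2
    · simp only [h2, and_true, if_true]
    · simp only [h2, and_false, if_false, sub_zero]
  rw [Finset.sum_congr rfl fun r _ => key r, Finset.sum_comm]
  refine Finset.sum_congr rfl fun v _ => ?_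
  rw [Finset.sum_sub_distrib,
    hs_sum_RS G Y i x (ρ.erase v) (fun y S => φ y S h * ((sz ν v (ρ.erase v) : ℤ) : ℂ)),
    hs_sum_RS G Y i (s v x) (ρ.erase v) (fun y S => φ y S (h * (π (gen G v))⁻¹) *
      ((sz ν v (ρ.erase v) : ℤ) : ℂ))]
  · simp only [sz]
    push_cast
    ring
  · intro h1
    rw [hφ _ _ h1]
    simp
  · intro h1
    rw [hφ _ _ h1]
    simp

/-- the columns which are not mentioned above vanish -/
theorem HS_zero (c : CS G Y i)
    (hc : (∀ q v, c = Sum.inl (q, v) → v ∉ q.1.2) ∧ (∀ p, c ≠ Sum.inr (Sum.inl p)) ∧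
      ∀ x ρ, c = Sum.inr (Sum.inr (x, ρ)) →
        ¬ (ρ ⊆ Y x ∧ G.IsClique (ρ : Set V) ∧ ρ.card = i + 1)) (h : H) :
    ∑ r : RS G Y i, gact π (HS G Y s ν i r c) (φ r.1.1 r.1.2) h = 0 := by
  classical
  refine Finset.sum_eq_zero fun r _ => ?_
  have h1 : HS G Y s ν i r c = 0 := by
    rcases c with ⟨q, v⟩ | p | ⟨x, ρ⟩
    · have h2 : v ∉ q.1.2 := hc.1 q v rfl
      simp only [HS, Matrix.of_apply]
      rw [if_neg (fun h3 => h2 h3.2)]
    · exact absurd rfl (hc.2.1 p)
    · have h2 := hc.2.2 x ρ rfl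
      simp only [HS, Matrix.of_apply]
      rw [if_neg h2]
  rw [h1, gact_zero]

end Pool.Agent.H19.Cub

end

section

/-!
# Project LG: from the links to the cube complex, definitions

`BG`: groups with marked involutions and bits; `Bm`: the matrices `r_v = R_v + T N_v` on the functions on
`ℤ/m × P`, `(R_v f)(j, p) = f (j, p g_v)`, `(T N_v f)(j, p) = ± (f (j + 1, p) + f (j + 1, p g_v))`; the sign is
given by the bit of `p` at `v`. `star Q x`: the one-vertex complex with the labels of `Q` at `x`.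
-/

set_option autoImplicit false
set_option linter.unusedSectionVars false

open Finset

namespace Pool.Agent.H19.LG

open Pool.Agent.H19.Cub Pool.Agent.H4.Singer Pool.Agent.H85.Fold

section

variable {V : Type} [DecidableEq V]

end

section

variable {V : Type} [DecidableEq V] [Fintype V] (K : Type) [Field K]

/-- dimension of the untwisted cycles -/
noncomputable def zT (G : SimpleGraph V) {X : Type} (Y : X → Finset V) (s : V → X → X)
    (ν : V → ℕ) (i : ℕ) : ℕ :=
  Module.finrank K (SZ K G Y (fun _ => (1 : Matrix Unit Unit K)) s ν i)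

/-- dimension of the untwisted chains -/
noncomputable def cT (G : SimpleGraph V) {X : Type} (Y : X → Finset V) (s : V → X → X)
    (i : ℕ) : ℕ :=
  Module.finrank K (SCh K G Y (fun _ => (1 : Matrix Unit Unit K)) s i)

end

/-- the number of the pairs of a point `x` and a clique of labels at `x` with `i` elements -/
noncomputable def nn {V : Type} [DecidableEq V] [Fintype V] (G : SimpleGraph V) {Ω : Type}
    [Fintype Ω] (Y : Ω → Finset V) (i : ℕ) : ℕ := Fintype.card (RS G Y i)

end Pool.Agent.H19.LG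

end

section

/-! # Project LG: ChDim -/

set_option autoImplicit false
set_option linter.unusedSectionVars false

open Finset Filter Topology

namespace Pool.Agent.H19.LG

open Pool.Agent.H19.Cub Pool.Agent.H4.Singer Pool.Agent.H85.Fold

section aux

variable {V : Type} [DecidableEq V] [Fintype V] (K : Type) [Field K]
  (G : SimpleGraph V) {X : Type} (Y : X → Finset V) (s : V → X → X) (b : X → V → Bool) (i : ℕ)

/-- the chains which are antisymmetric for the labels in `A` and supported on the points with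
vanishing bits outside `A` -/
private def lgChDim_E (A : Finset V) : Submodule K (Finset V → X → Unit → K) where
  carrier := {f | (∀ σ x, f σ x ≠ 0 → σ ⊆ Y x ∧ Cl G σ ∧ σ.card = i ∧
    ∀ v ∈ σ, v ∉ A → b x v = false) ∧ ∀ σ, ∀ v ∈ σ, v ∈ A → ∀ x, f σ (s v x) = - f σ x}
  zero_mem' := by
    refine ⟨fun σ x h => absurd rfl h, fun σ v _ _ x => by simp⟩
  add_mem' := by
    rintro f g ⟨h1, h2⟩ ⟨h3, h4⟩
    refine ⟨fun σ x h => ?_, fun σ v hv hA x => ?_⟩
    · by_cases hf : f σ x = 0
      · by_cases hg : g σ x = 0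
        · exact absurd (by simp [hf, hg]) h
        · exact h3 σ x hg
      · exact h1 σ x hf
    · simp only [Pi.add_apply]
      rw [h2 σ v hv hA x, h4 σ v hv hA x]
      abel
  smul_mem' := by
    rintro c f ⟨h1, h2⟩
    refine ⟨fun σ x h => h1 σ x ?_, fun σ v hv hA x => ?_⟩
    · intro h0
      exact h (by simp [h0])
    · simp only [Pi.smul_apply]
      rw [h2 σ v hv hA x, smul_neg]

variable {G Y s b}

/-- one label more -/
private def lgChDim_step (hs : IsSpec G Y s)
    (hb : ∀ x u v, b (s u x) v = if u = v then !(b x v) else b x v) {A : Finset V} {v : V}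
    (hv : v ∉ A) : lgChDim_E K G Y s b i (insert v A) ≃ₗ[K] lgChDim_E K G Y s b i A where
  toFun f := ⟨fun σ x => if v ∈ σ ∧ b x v = true then 0 else f.1 σ x, by
    obtain ⟨f, h1, h2⟩ := f
    refine ⟨fun σ x h => ?_, fun σ w hw hwA x => ?_⟩
    · have h' : (if v ∈ σ ∧ b x v = true then 0 else f σ x) ≠ 0 := h
      have h3 : ¬ (v ∈ σ ∧ b x v = true) := by
        intro h3
        exact h' (if_pos h3)
      rw [if_neg h3] at h'
      obtain ⟨h4, h5, h6, h7⟩ := h1 σ x h'
      refine ⟨h4, h5, h6, fun w hw hwA => ?_⟩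
      by_cases hwv : w = v
      · subst hwv
        by_contra hcon
        exact h3 ⟨hw, by simpa using hcon⟩
      · exact h7 w hw (by simp [hwv, hwA])
    · have hwv : w ≠ v := fun e => hv (e ▸ hwA)
      have h3 : b (s w x) v = b x v := by rw [hb, if_neg hwv]
      simp only [h3]
      split_ifs
      · simp
      · exact h2 σ w hw (mem_insert_of_mem hwA) x⟩
  invFun f := ⟨fun σ x => f.1 σ x - if v ∈ σ then f.1 σ (s v x) else 0, by
    obtain ⟨f, h1, h2⟩ := f
    refine ⟨fun σ x h => ?_, fun σ w hw hwA x => ?_⟩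
    · by_cases h3 : f σ x = 0
      · have h4 : v ∈ σ ∧ f σ (s v x) ≠ 0 := by
          by_contra hcon
          apply h
          simp only [h3, zero_sub, neg_eq_zero]
          split_ifs with h4
          · by_contra h5
            exact hcon ⟨h4, h5⟩
          · rfl
        obtain ⟨h5, h6, h7, h8⟩ := h1 σ _ h4.2
        refine ⟨(hs.sub_iff h6 h4.1).1 h5, h6, h7, fun w hw hwA => ?_⟩
        have hwv : v ≠ w := fun e => hwA (e ▸ mem_insert_self _ _)
        have h9 := h8 w hw fun h => hwA (mem_insert_of_mem h)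
        rwa [hb, if_neg hwv] at h9
      · obtain ⟨h5, h6, h7, h8⟩ := h1 σ x h3
        exact ⟨h5, h6, h7, fun w hw hwA => h8 w hw fun h => hwA (mem_insert_of_mem h)⟩
    · by_cases hwv : w = v
      · subst hwv
        simp only [if_pos hw, hs.inv]
        abel
      · have hwA' : w ∈ A := (mem_insert.1 hwA).resolve_left hwv
        by_cases hvσ : v ∈ σ
        · simp only [if_pos hvσ]
          by_cases hcl : Cl G σ
          · rw [hs.comm v w (hcl v hvσ w hw (Ne.symm hwv)), h2 σ w hw hwA' x,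
              h2 σ w hw hwA' (s v x)]
            abel
          · have h3 : ∀ y, f σ y = 0 := by
              intro y
              by_contra h4
              exact hcl (h1 σ y h4).2.1
            rw [h3, h3, h3, h3]
            simp
        · simp only [if_neg hvσ, sub_zero]
          exact h2 σ w hw hwA' x⟩
  left_inv f := by
    obtain ⟨f, h1, h2⟩ := f
    apply Subtype.ext
    funext σ x
    show (if v ∈ σ ∧ b x v = true then 0 else f σ x) -
      (if v ∈ σ then (if v ∈ σ ∧ b (s v x) v = true then 0 else f σ (s v x)) else 0) = f σ x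
    by_cases hvσ : v ∈ σ
    · have h3 := h2 σ v hvσ (mem_insert_self _ _) x
      have h4 : b (s v x) v = !(b x v) := by rw [hb, if_pos rfl]
      rw [h4, h3]
      cases b x v <;> simp [hvσ]
    · simp [hvσ]
  right_inv f := by
    obtain ⟨f, h1, h2⟩ := f
    apply Subtype.ext
    funext σ x
    show (if v ∈ σ ∧ b x v = true then 0 else f σ x - if v ∈ σ then f σ (s v x) else 0) = f σ x
    by_cases hvσ : v ∈ σ
    · have h4 : b (s v x) v = !(b x v) := by rw [hb, if_pos rfl]
      by_cases h5 : b x v = true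
      · rw [if_pos ⟨hvσ, h5⟩]
        by_contra hne
        have h6 := (h1 σ x fun h => hne h.symm).2.2.2 v hvσ hv
        rw [h5] at h6
        exact absurd h6 (by simp)
      · rw [if_neg fun h => h5 h.2, if_pos hvσ]
        have h7 : f σ (s v x) = 0 := by
          by_contra hne
          have h6 := (h1 σ _ hne).2.2.2 v hvσ hv
          rw [h4] at h6
          apply h5
          simpa using h6
        rw [h7, sub_zero]
    · simp [hvσ]
  map_add' f g := by
    apply Subtype.ext
    funext σ x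
    show (if v ∈ σ ∧ b x v = true then 0 else f.1 σ x + g.1 σ x) =
      (if v ∈ σ ∧ b x v = true then 0 else f.1 σ x) + if v ∈ σ ∧ b x v = true then 0 else g.1 σ x
    split_ifs <;> simp
  map_smul' c f := by
    apply Subtype.ext
    funext σ x
    show (if v ∈ σ ∧ b x v = true then 0 else c • f.1 σ x) =
      c • if v ∈ σ ∧ b x v = true then 0 else f.1 σ x
    split_ifs <;> simp

private theorem lgChDim_all (hs : IsSpec G Y s)
    (hb : ∀ x u v, b (s u x) v = if u = v then !(b x v) else b x v) (A : Finset V) :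
    Module.finrank K (lgChDim_E K G Y s b i A) = Module.finrank K (lgChDim_E K G Y s b i ∅) := by
  induction A using Finset.induction_on with
  | empty => rfl
  | insert v A hv ih => rw [← ih]; exact (lgChDim_step K i hs hb hv).finrank_eq

variable (G Y b)

/-- the points with vanishing bits -/
private abbrev lgChDim_R : Type :=
  {p : X × Finset V // p.2 ⊆ Y p.1 ∧ Cl G p.2 ∧ p.2.card = i ∧ ∀ v ∈ p.2, b p.1 v = false}

private noncomputable instance [Fintype X] : Fintype (lgChDim_R G Y b i) := by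
  classical
  unfold lgChDim_R
  infer_instance

variable {G Y b}

open Classical in
private noncomputable def lgChDim_emp :
    lgChDim_E K G Y s b i ∅ ≃ₗ[K] (lgChDim_R G Y b i → K) where
  toFun f r := f.1 r.1.2 r.1.1 ()
  invFun g := ⟨fun σ x _ => if h : σ ⊆ Y x ∧ Cl G σ ∧ σ.card = i ∧ ∀ v ∈ σ, b x v = false
    then g ⟨(x, σ), h⟩ else 0, by
    refine ⟨fun σ x h => ?_, fun σ v _ hA => absurd hA (notMem_empty v)⟩
    by_cases h1 : σ ⊆ Y x ∧ Cl G σ ∧ σ.card = i ∧ ∀ v ∈ σ, b x v = false
    · exact ⟨h1.1, h1.2.1, h1.2.2.1, fun v hv _ => h1.2.2.2 v hv⟩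
    · exfalso
      apply h
      funext _
      exact dif_neg h1⟩
  left_inv f := by
    obtain ⟨f, h1, h2⟩ := f
    apply Subtype.ext
    funext σ x u
    show (if h : σ ⊆ Y x ∧ Cl G σ ∧ σ.card = i ∧ ∀ v ∈ σ, b x v = false then f σ x () else 0) = _
    by_cases h : σ ⊆ Y x ∧ Cl G σ ∧ σ.card = i ∧ ∀ v ∈ σ, b x v = false
    · rw [dif_pos h]
    · rw [dif_neg h]
      by_contra hne
      have h3 : f σ x ≠ 0 := fun h4 => hne (congrFun h4 u).symm
      obtain ⟨h4, h5, h6, h7⟩ := h1 σ x h3
      exact h ⟨h4, h5, h6, fun v hv => h7 v hv (notMem_empty v)⟩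
  right_inv g := by
    funext r
    exact dif_pos r.2
  map_add' _ _ := rfl
  map_smul' _ _ := rfl

private theorem lgChDim_univ :
    lgChDim_E K G Y s b i univ = SCh K G Y (fun _ => (1 : Matrix Unit Unit K)) s i := by
  ext f
  constructor
  · rintro ⟨h1, h2⟩
    refine ⟨fun σ x h => ?_, fun σ v hv x => ?_⟩
    · obtain ⟨h3, h4, h5, -⟩ := h1 σ x h
      exact ⟨h3, h4, h5⟩
    · rw [Matrix.one_mulVec]
      exact h2 σ v hv (mem_univ v) x
  · rintro ⟨h1, h2⟩
    refine ⟨fun σ x h => ?_, fun σ v hv _ x => ?_⟩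
    · obtain ⟨h3, h4, h5⟩ := h1 σ x h
      exact ⟨h3, h4, h5, fun v _ hv => absurd (mem_univ v) hv⟩
    · have h3 := h2 σ v hv x
      rwa [Matrix.one_mulVec] at h3

open Classical in
/-- counting, for one clique -/
private theorem lgChDim_cnt [Fintype X] (hs : IsSpec G Y s)
    (hb : ∀ x u v, b (s u x) v = if u = v then !(b x v) else b x v) {σ : Finset V}
    (hσ : Cl G σ) : ∀ T : Finset V, T ⊆ σ →
      (univ.filter fun x : X => σ ⊆ Y x ∧ ∀ v ∈ T, b x v = false).card * 2 ^ T.card =
        (univ.filter fun x : X => σ ⊆ Y x).card := by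
  intro T
  induction T using Finset.induction_on with
  | empty => intro _; simp
  | insert v T hv ih =>
    intro hT
    have hT' : T ⊆ σ := (subset_insert _ _).trans hT
    have hvσ : v ∈ σ := hT (mem_insert_self _ _)
    rw [← ih hT', card_insert_of_notMem hv, pow_succ, mul_comm (2 ^ T.card) 2, ← mul_assoc]
    congr 1
    have h1 : (univ.filter fun x : X => σ ⊆ Y x ∧ ∀ w ∈ T, b x w = false) =
        (univ.filter fun x : X => σ ⊆ Y x ∧ ∀ w ∈ insert v T, b x w = false) ∪
        (univ.filter fun x : X => σ ⊆ Y x ∧ ∀ w ∈ insert v T, b x w = false).image (s v) := by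
      ext x
      simp only [mem_union, mem_filter, mem_univ, true_and, mem_image]
      constructor
      · rintro ⟨h2, h3⟩
        by_cases h4 : b x v = false
        · left
          refine ⟨h2, fun w hw => ?_⟩
          rcases mem_insert.1 hw with rfl | hw
          · exact h4
          · exact h3 w hw
        · right
          refine ⟨s v x, ⟨hs.sub hσ hvσ h2, fun w hw => ?_⟩, hs.inv v x⟩
          rw [hb]
          rcases mem_insert.1 hw with rfl | hw
          · rw [if_pos rfl]
            simpa using h4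
          · rw [if_neg (fun e : v = w => hv (e ▸ hw))]
            exact h3 w hw
      · rintro (⟨h2, h3⟩ | ⟨y, ⟨h2, h3⟩, rfl⟩)
        · exact ⟨h2, fun w hw => h3 w (mem_insert_of_mem hw)⟩
        · refine ⟨hs.sub hσ hvσ h2, fun w hw => ?_⟩
          rw [hb, if_neg (fun e : v = w => hv (e ▸ hw))]
          exact h3 w (mem_insert_of_mem hw)
    have hinj : Function.Injective (s v) := fun x y h => by
      have h2 := congrArg (s v) h
      rwa [hs.inv, hs.inv] at h2
    rw [h1, card_union_of_disjoint, card_image_of_injective _ hinj]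
    · ring
    · rw [disjoint_left]
      intro x hx hx'
      simp only [mem_filter, mem_univ, true_and, mem_image] at hx hx'
      obtain ⟨y, ⟨h2, h3⟩, rfl⟩ := hx'
      have h4 := hx.2 v (mem_insert_self _ _)
      rw [hb, if_pos rfl, h3 v (mem_insert_self _ _)] at h4
      exact absurd h4 (by simp)

end aux

theorem two_pow_cT {V : Type} [DecidableEq V] [Fintype V] (K : Type) [Field K]
    (G : SimpleGraph V) {X : Type} [Fintype X] (Y : X → Finset V) (s : V → X → X)
    (hs : IsSpec G Y s) (b : X → V → Bool)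
    (hb : ∀ x u v, b (s u x) v = if u = v then !(b x v) else b x v) (i : ℕ) :
    2 ^ i * cT K G Y s i = nn G Y i := by
  classical
  have h1 : cT K G Y s i = Fintype.card (lgChDim_R G Y b i) := by
    unfold cT
    rw [← lgChDim_univ K (b := b), lgChDim_all K i hs hb univ, (lgChDim_emp K i).finrank_eq,
      Module.finrank_fintype_fun_eq_card]
  rw [h1]
  unfold nn
  have h2 : Fintype.card (lgChDim_R G Y b i) = ∑ σ : Finset V, if Cl G σ ∧ σ.card = i then
      (univ.filter fun x : X => σ ⊆ Y x ∧ ∀ v ∈ σ, b x v = false).card else 0 := by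
    rw [Fintype.card_subtype, card_filter, ← univ_product_univ, sum_product_right]
    refine sum_congr rfl fun σ _ => ?_
    split_ifs with h
    · rw [card_filter]
      refine sum_congr rfl fun x _ => ?_
      simp only [h.1, h.2, true_and]
    · refine sum_eq_zero fun x _ => if_neg fun h3 => h ⟨h3.2.1, h3.2.2.1⟩
  have h3 : Fintype.card (RS G Y i) = ∑ σ : Finset V, if Cl G σ ∧ σ.card = i then
      (univ.filter fun x : X => σ ⊆ Y x).card else 0 := by
    have hcl : ∀ σ : Finset V, G.IsClique (σ : Set V) ↔ Cl G σ := fun σ =>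
      ⟨fun h a ha c hc hac => h ha hc hac, fun h a ha c hc hac => h a ha c hc hac⟩
    have h4 : Fintype.card (RS G Y i) = (univ.filter fun p : X × Finset V =>
        p.2 ⊆ Y p.1 ∧ G.IsClique (p.2 : Set V) ∧ p.2.card = i).card := by
      rw [← Fintype.card_subtype]
    rw [h4, card_filter, ← univ_product_univ, sum_product_right]
    refine sum_congr rfl fun σ _ => ?_
    split_ifs with h
    · rw [card_filter]
      refine sum_congr rfl fun x _ => ?_
      simp only [(hcl σ).2 h.1, h.2, and_true]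
    · refine sum_eq_zero fun x _ => if_neg fun h3 => h ⟨(hcl σ).1 h3.2.1, h3.2.2⟩
  rw [h2, h3, mul_sum]
  refine sum_congr rfl fun σ _ => ?_
  split_ifs with h
  · have h4 := lgChDim_cnt hs hb h.1 σ Subset.rfl
    rw [h.2] at h4
    rw [← h4, mul_comm]
  · rw [mul_zero]

end Pool.Agent.H19.LG

end
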