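import Pool.Agent.H71.TSG.M01
import Pool.Agent.H71.TSG.M04

/-! The parts of this file: H37.TM.Osum, H4.Singer.Half, H4.Singer2.GAnBase, H4.Singer3.SDefs, H77.SW.Seq, S10.L2E, S10.Defs, S9.Int, S9.IntRank, S9.IntGrp, S9.IntT, S9.Tow, S9.TLev. -/

section

/-!
# Project TM: sums over orbits
-/

set_option autoImplicit false
set_option linter.unusedSectionVars false

open Finset

namespace Pool.Agent.H37.TM

/-- the sum over the orbits of an invariant function -/
noncomputable def osum (Γ : Type) [Group Γ] {A M : Type} [MulAction Γ A] [AddCommMonoid M]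
    (F : A → M) : M := ∑ᶠ q : MulAction.orbitRel.Quotient Γ A, F q.out

section aux

variable {Γ : Type} [Group Γ] {A B M : Type} [MulAction Γ A] [MulAction Γ B]

/-- the orbit of `a` -/
def omk (Γ : Type) [Group Γ] {A : Type} [MulAction Γ A] (a : A) :
    MulAction.orbitRel.Quotient Γ A := Quotient.mk (MulAction.orbitRel Γ A) a

theorem omk_out (q : MulAction.orbitRel.Quotient Γ A) : omk Γ q.out = q := Quotient.out_eq q

theorem omk_smul (g : Γ) (a : A) : omk Γ (g • a) = omk Γ a := by
  apply Quotient.sound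
  change (MulAction.orbitRel Γ A).r (g • a) a
  rw [MulAction.orbitRel_apply]
  exact ⟨g, rfl⟩

theorem omk_eq {a b : A} (h : omk Γ a = omk Γ b) : ∃ g : Γ, g • a = b := by
  have h2 : (MulAction.orbitRel Γ A).r a b := Quotient.exact h
  rw [MulAction.orbitRel_apply] at h2
  obtain ⟨g, hg⟩ := h2
  exact ⟨g⁻¹, by rw [← hg]; simp⟩

theorem out_omk (a : A) : ∃ g : Γ, g • a = (omk Γ a).out :=
  omk_eq (omk_out _).symm

/-- finitely many orbits meet the support -/
theorem finite_out [Zero M] (F : A → M)
    (hF : ∃ S : Finset A, ∀ a, F a ≠ 0 → ∃ g : Γ, g • a ∈ S) :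
    (Function.support fun q : MulAction.orbitRel.Quotient Γ A => F q.out).Finite := by
  classical
  obtain ⟨S, hS⟩ := hF
  refine (S.finite_toSet.image (omk Γ)).subset ?_
  intro q hq
  obtain ⟨g, hg⟩ := hS q.out hq
  refine ⟨g • q.out, hg, ?_⟩
  rw [omk_smul, omk_out]

/-- the sum over orbits of rows is the sum over orbits of pairs -/
theorem osum_pairs [AddCommMonoid M]
    (k : A → B → M) (hk : ∀ (g : Γ) a b, k (g • a) (g • b) = k a b)
    (hA : ∀ a b, k a b ≠ 0 → ∀ g : Γ, g • a = a → g = 1)
    (hrow : ∀ a, {b | k a b ≠ 0}.Finite)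
    (hfin : ∃ F : Finset A, ∀ a b, k a b ≠ 0 → ∃ g : Γ, g • a ∈ F) :
    osum Γ (fun a => ∑ᶠ b, k a b) = osum Γ fun p : A × B => k p.1 p.2 := by
  classical
  unfold osum
  let f : MulAction.orbitRel.Quotient Γ A × B → M := fun x => k x.1.out x.2
  have hf : (Function.support f).Finite := by
    obtain ⟨F, hF⟩ := hfin
    refine ((F.finite_toSet.image (omk Γ)).biUnion
      (t := fun q => (fun b => (q, b)) '' {b | k q.out b ≠ 0})
      (fun q _ => (hrow q.out).image _)).subset ?_
    rintro ⟨q, b⟩ h
    have h' : k q.out b ≠ 0 := h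
    obtain ⟨g, hg⟩ := hF q.out b h'
    refine Set.mem_biUnion (x := q) ⟨g • q.out, hg, ?_⟩ ⟨b, h', rfl⟩
    rw [omk_smul, omk_out]
  have h1 : ∑ᶠ q : MulAction.orbitRel.Quotient Γ A, ∑ᶠ b, k q.out b = ∑ᶠ x, f x :=
    (finsum_curry f hf).symm
  rw [h1]
  let g : MulAction.orbitRel.Quotient Γ (A × B) → M := fun Q => k Q.out.1 Q.out.2
  change ∑ᶠ x, f x = ∑ᶠ Q, g Q
  rw [← finsum_mem_support f, ← finsum_mem_support g]
  have hval : ∀ x : MulAction.orbitRel.Quotient Γ A × B, f x = g (omk Γ (x.1.out, x.2)) := by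
    rintro ⟨q, b⟩
    obtain ⟨h, hh⟩ := out_omk (Γ := Γ) (q.out, b)
    change k q.out b = k (omk Γ (q.out, b)).out.1 (omk Γ (q.out, b)).out.2
    rw [← hh]
    exact (hk h _ _).symm
  refine finsum_mem_eq_of_bijOn (fun x => omk Γ (x.1.out, x.2)) ⟨?_, ?_, ?_⟩
    (fun x _ => hval x)
  · intro x hx
    have hx' : f x ≠ 0 := hx
    rw [hval] at hx'
    exact hx'
  · rintro ⟨q, b⟩ hx ⟨q', b'⟩ hx' h
    have hx1 : k q.out b ≠ 0 := hx
    obtain ⟨g, hg⟩ := omk_eq h
    have e1 : g • q.out = q'.out := congrArg Prod.fst hg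
    have e2 : g • b = b' := congrArg Prod.snd hg
    have e3 : q = q' := by
      rw [← omk_out q, ← omk_out q', ← e1, omk_smul]
    subst e3
    have e4 := hA _ _ hx1 g e1
    subst e4
    rw [one_smul] at e2
    rw [e2]
  · intro Q hQ
    have hQ' : k Q.out.1 Q.out.2 ≠ 0 := hQ
    obtain ⟨h, hh⟩ := out_omk (Γ := Γ) Q.out.1
    have e : omk Γ ((omk Γ Q.out.1).out, h • Q.out.2) = Q := by
      rw [← hh]
      have : (h • Q.out.1, h • Q.out.2) = h • Q.out := rfl
      rw [this, omk_smul, omk_out]
    refine ⟨(omk Γ Q.out.1, h • Q.out.2), ?_, e⟩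
    change k (omk Γ Q.out.1).out (h • Q.out.2) ≠ 0
    rw [← hh, hk]
    exact hQ'

end aux

/-- the columns of an invariant kernel are finite, if the rows are finite, `Γ` acts freely on the support and
the rows form finitely many orbits -/
theorem finite_col {Γ A B M : Type} [Group Γ] [MulAction Γ A] [MulAction Γ B] [Zero M]
    (k : A → B → M) (hk : ∀ (g : Γ) a b, k (g • a) (g • b) = 0 ↔ k a b = 0)
    (hB : ∀ a b, k a b ≠ 0 → ∀ g : Γ, g • b = b → g = 1)
    (hrow : ∀ a, {b | k a b ≠ 0}.Finite)
    (hfin : ∃ F : Finset A, ∀ a b, k a b ≠ 0 → ∃ g : Γ, g • a ∈ F) (b : B) :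
    {a | k a b ≠ 0}.Finite := by
  classical
  obtain ⟨F, hF⟩ := hfin
  have hg : ∀ f : A, {g : Γ | k f (g • b) ≠ 0}.Finite := by
    intro f
    refine Set.Finite.of_finite_image (f := fun g : Γ => g • b)
      ((hrow f).subset ?_) ?_
    · rintro _ ⟨g, hg, rfl⟩
      exact hg
    · intro g hg g' hg' h
      have hg0 : k f (g • b) ≠ 0 := hg
      have h' : g • b = g' • b := h
      have h1 : (g' * g⁻¹) • (g • b) = g • b := by
        rw [mul_smul, inv_smul_smul, h']
      have h2 := hB _ _ hg0 _ h1
      exact (mul_inv_eq_one.1 h2).symm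
  refine (F.finite_toSet.biUnion (t := fun f => (fun g : Γ => g⁻¹ • f) '' {g : Γ | k f (g • b) ≠ 0})
    (fun f _ => (hg f).image _)).subset ?_
  intro a ha
  have ha' : k a b ≠ 0 := ha
  obtain ⟨g, hgF⟩ := hF a b ha'
  refine Set.mem_biUnion hgF ⟨g, ?_, inv_smul_smul g a⟩
  exact fun h => ha' ((hk g a b).1 h)

/-- **Double counting modulo `Γ`.** The kernel `k` is invariant, `Γ` acts freely on its support, the rows and
columns are finite, and the rows that do not vanish form finitely many orbits. -/
theorem osum_comm {Γ A B M : Type} [Group Γ] [MulAction Γ A] [MulAction Γ B] [AddCommMonoid M]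
    (k : A → B → M) (hk : ∀ (g : Γ) a b, k (g • a) (g • b) = k a b)
    (hA : ∀ a b, k a b ≠ 0 → ∀ g : Γ, g • a = a → g = 1)
    (hB : ∀ a b, k a b ≠ 0 → ∀ g : Γ, g • b = b → g = 1)
    (hrow : ∀ a, {b | k a b ≠ 0}.Finite)
    (hfin : ∃ F : Finset A, ∀ a b, k a b ≠ 0 → ∃ g : Γ, g • a ∈ F) :
    osum Γ (fun a => ∑ᶠ b, k a b) = osum Γ fun b => ∑ᶠ a, k a b := by
  classical
  have hcol : ∀ b, {a | k a b ≠ 0}.Finite :=
    finite_col k (fun g a b => by rw [hk]) hB hrow hfin
  have hfin' : ∃ F : Finset B, ∀ b a, k a b ≠ 0 → ∃ g : Γ, g • b ∈ F := by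
    obtain ⟨F, hF⟩ := hfin
    refine ⟨F.biUnion fun a => (hrow a).toFinset, fun b a h => ?_⟩
    obtain ⟨g, hg⟩ := hF a b h
    refine ⟨g, Finset.mem_biUnion.2 ⟨g • a, hg, ?_⟩⟩
    rw [Set.Finite.mem_toFinset]
    change k (g • a) (g • b) ≠ 0
    rwa [hk]
  rw [osum_pairs k hk hA hrow hfin,
    osum_pairs (fun b a => k a b) (fun g b a => hk g a b) (fun b a h => hB a b h) hcol hfin']
  unfold osum
  refine finsum_eq_of_bijective
    (fun Q : MulAction.orbitRel.Quotient Γ (A × B) => omk Γ (Q.out.2, Q.out.1)) ⟨?_, ?_⟩ ?_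
  · intro Q Q' h
    obtain ⟨g, hg⟩ := omk_eq h
    have e1 : g • Q.out.2 = Q'.out.2 := congrArg Prod.fst hg
    have e2 : g • Q.out.1 = Q'.out.1 := congrArg Prod.snd hg
    have e3 : g • Q.out = Q'.out := Prod.ext e2 e1
    rw [← omk_out Q, ← omk_out Q', ← e3, omk_smul]
  · intro Q
    refine ⟨omk Γ (Q.out.2, Q.out.1), ?_⟩
    obtain ⟨g, hg⟩ := out_omk (Γ := Γ) (Q.out.2, Q.out.1)
    have e : ((omk Γ (Q.out.2, Q.out.1)).out.2, (omk Γ (Q.out.2, Q.out.1)).out.1) = g • Q.out := by
      rw [← hg]
      rfl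
    change omk Γ ((omk Γ (Q.out.2, Q.out.1)).out.2, (omk Γ (Q.out.2, Q.out.1)).out.1) = Q
    rw [e, omk_smul, omk_out]
  · intro Q
    change k Q.out.1 Q.out.2 = k (omk Γ (Q.out.2, Q.out.1)).out.2 (omk Γ (Q.out.2, Q.out.1)).out.1
    obtain ⟨g, hg⟩ := out_omk (Γ := Γ) (Q.out.2, Q.out.1)
    rw [← hg]
    exact (hk g _ _).symm

/-- the sum over orbits can be computed with any set of representatives -/
theorem osum_eq_of_reps {Γ A M J : Type} [Group Γ] [MulAction Γ A] [AddCommMonoid M] [Fintype J]
    (F : A → M) (hF : ∀ (g : Γ) a, F (g • a) = F a) (r : J → A)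
    (hr : ∀ i j (g : Γ), g • r i = r j → i = j)
    (hsupp : ∀ a, F a ≠ 0 → ∃ (g : Γ) (j : J), g • a = r j) :
    osum Γ F = ∑ j, F (r j) := by
  classical
  unfold osum
  have hinj : Function.Injective fun j : J => omk Γ (r j) := by
    intro i j h
    obtain ⟨g, hg⟩ := omk_eq h
    exact hr i j g hg
  have hout : ∀ a, F (omk Γ a).out = F a := by
    intro a
    obtain ⟨g, hg⟩ := out_omk (Γ := Γ) a
    rw [← hg, hF]
  rw [← finsum_eq_sum_of_fintype]
  calc ∑ᶠ q : MulAction.orbitRel.Quotient Γ A, F q.out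
      = ∑ᶠ q ∈ Set.range (fun j : J => omk Γ (r j)), F q.out := by
        refine finsum_congr fun q => ?_
        rw [finsum_eq_if]
        split_ifs with hq
        · rfl
        · by_contra h
          obtain ⟨g, j, hj⟩ := hsupp q.out h
          refine hq ⟨j, ?_⟩
          change omk Γ (r j) = q
          rw [← hj, omk_smul, omk_out]
    _ = ∑ᶠ j, F (omk Γ (r j)).out := finsum_mem_range hinj
    _ = ∑ᶠ j, F (r j) := by simp only [hout]

/-- additivity -/
theorem osum_add {Γ A M : Type} [Group Γ] [MulAction Γ A] [AddCommMonoid M] (F G : A → M)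
    (hF : ∃ S : Finset A, ∀ a, F a ≠ 0 → ∃ g : Γ, g • a ∈ S)
    (hG : ∃ S : Finset A, ∀ a, G a ≠ 0 → ∃ g : Γ, g • a ∈ S) :
    osum Γ (fun a => F a + G a) = osum Γ F + osum Γ G := by
  unfold osum
  exact finsum_add_distrib (finite_out F hF) (finite_out G hG)

end Pool.Agent.H37.TM

end

section

/-!
# Singer project: invariant halves of double covers
-/

set_option autoImplicit false
set_option linter.unusedSectionVars false

open Finset

namespace Pool.Agent.H4.Singer

variable {V C : Type} [DecidableEq V] [Fintype V] [DecidableEq C] {G : ColGraph V C}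

private theorem exists_code {Ω : Type} [Finite Ω] (X : InvAct G Ω) (σ : Finset V) :
    G.Cl σ → ∃ κ : Ω → ℕ, (∀ v ∈ σ, ∀ ω, κ (X.s v ω) = κ ω) ∧
      ∀ ω ω', κ ω = κ ω' → (∀ v ∈ σ, X.bit ω (G.col v) = X.bit ω' (G.col v)) → ω = ω' := by
  induction σ using Finset.induction_on with
  | empty =>
    intro _
    obtain ⟨n, ⟨e⟩⟩ := Finite.exists_equiv_fin Ω
    refine ⟨fun ω => (e ω : ℕ), fun v hv => absurd hv (Finset.notMem_empty v), fun ω ω' h _ => ?_⟩
    exact e.injective (Fin.ext h)
  | insert u σ hu ih =>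
    intro hcl
    have hcl' : G.Cl σ := fun a ha b hb hab =>
      hcl a (mem_insert_of_mem ha) b (mem_insert_of_mem hb) hab
    have hadj : ∀ v ∈ σ, G.adj u v := fun v hv =>
      hcl u (mem_insert_self _ _) v (mem_insert_of_mem hv) (fun h => hu (h ▸ hv))
    obtain ⟨κ, h1, h2⟩ := ih hcl'
    refine ⟨fun ω => Nat.pair (min (κ ω) (κ (X.s u ω))) (max (κ ω) (κ (X.s u ω))), ?_, ?_⟩
    · intro v hv ω
      rcases Finset.mem_insert.1 hv with rfl | hv
      · simp only [X.invol]
        rw [min_comm, max_comm]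
      · have e1 : κ (X.s u (X.s v ω)) = κ (X.s u ω) := by
          rw [X.comm u v (hadj v hv), h1 v hv]
        simp only [e1, h1 v hv]
    · intro ω ω' h hb
      obtain ⟨ha, hb'⟩ := Nat.pair_eq_pair.1 h
      have hbσ : ∀ v ∈ σ, X.bit ω (G.col v) = X.bit ω' (G.col v) := fun v hv =>
        hb v (mem_insert_of_mem hv)
      have hcases : κ ω = κ ω' ∨ κ ω = κ (X.s u ω') := by omega
      rcases hcases with h0 | h0
      · exact h2 ω ω' h0 hbσ
      · exfalso
        have h3 : ω = X.s u ω' := by
          refine h2 ω _ h0 fun v hv => ?_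
          rw [X.bit_s, Function.update_of_ne (G.ne u v (hadj v hv)).symm]
          exact hbσ v hv
        have h4 := hb u (mem_insert_self _ _)
        rw [h3, X.bit_s, Function.update_self] at h4
        cases hc : X.bit ω' (G.col u) <;> rw [hc] at h4 <;> exact absurd h4 (by decide)

/-- A free involution `τ` commuting with the action and preserving the bits: there is an invariant
(under the `s v`, `v ∈ σ`) set that contains exactly one element of each pair `{ω, τ ω}`.

Proof: by induction on `σ` there is `κ : Ω → ℕ` with `κ (s v ω) = κ ω` for `v ∈ σ` such that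
`κ ω = κ ω'` and `bit ω (col v) = bit ω' (col v)` for all `v ∈ σ` imply `ω = ω'`. (For `σ = ∅` take
an injection `Ω → ℕ`; for `insert u σ` encode the unordered pair `{κ ω, κ (s u ω)}`.) Then
`κ (τ ω) ≠ κ ω` and `D ω := κ ω < κ (τ ω)` works. -/
theorem exists_half {Ω : Type} [Finite Ω] (X : InvAct G Ω) (τ : Ω → Ω)
    (hτs : ∀ v ω, τ (X.s v ω) = X.s v (τ ω)) (hτ2 : ∀ ω, τ (τ ω) = ω) (hτ : ∀ ω, τ ω ≠ ω)
    (hbit : ∀ ω, X.bit (τ ω) = X.bit ω) (σ : Finset V) (hσ : G.Cl σ) :
    ∃ D : Ω → Prop, (∀ v ∈ σ, ∀ ω, D (X.s v ω) ↔ D ω) ∧ ∀ ω, D ω ↔ ¬ D (τ ω) := by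
  obtain ⟨κ, h1, h2⟩ := exists_code X σ hσ
  refine ⟨fun ω => κ ω < κ (τ ω), fun v hv ω => ?_, fun ω => ?_⟩
  · show κ (X.s v ω) < κ (τ (X.s v ω)) ↔ κ ω < κ (τ ω)
    rw [hτs, h1 v hv, h1 v hv]
  · have hne : κ ω ≠ κ (τ ω) := fun h =>
      hτ ω (h2 ω (τ ω) h fun v _ => by rw [hbit]).symm
    show κ ω < κ (τ ω) ↔ ¬ κ (τ ω) < κ (τ (τ ω))
    rw [hτ2]
    omega

end Pool.Agent.H4.Singer

end

section

/-!
# Singer project, second part: anisotropy, the start
-/

set_option autoImplicit false
set_option linter.unusedSectionVars false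

open Finset

namespace Pool.Agent.H4.Singer2

/-- the field of rational functions over `𝔽₂` in variables indexed by `I` -/
abbrev RF (I : Type) : Type := FractionRing (MvPolynomial I (ZMod 2))

/-- the variables -/
noncomputable def xv {I : Type} (i : I) : RF I := algebraMap (MvPolynomial I (ZMod 2)) _ (MvPolynomial.X i)

instance {I : Type} : CharP (RF I) 2 :=
  charP_of_injective_algebraMap (IsFractionRing.injective (MvPolynomial I (ZMod 2)) (RF I)) 2

private theorem indic_apply {I : Type} [DecidableEq I] (S : Finset I) (i : I) :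
    (∑ j ∈ S, Finsupp.single j 1 : I →₀ ℕ) i = if i ∈ S then 1 else 0 := by
  rw [Finsupp.finsetSum_apply]
  simp only [Finsupp.single_apply]
  rw [Finset.sum_ite_eq']

private theorem prod_X {I : Type} [DecidableEq I] (S : Finset I) :
    (∏ i ∈ S, (MvPolynomial.X i : MvPolynomial I (ZMod 2))) =
      MvPolynomial.monomial (∑ j ∈ S, Finsupp.single j 1 : I →₀ ℕ) 1 := by
  rw [MvPolynomial.monomial_eq, MvPolynomial.C_1, one_mul]
  rw [Finsupp.prod]
  have h : (∑ j ∈ S, Finsupp.single j 1 : I →₀ ℕ).support = S := by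
    ext i
    rw [Finsupp.mem_support_iff, indic_apply]
    simp
  rw [h]
  refine Finset.prod_congr rfl fun i hi => ?_
  rw [indic_apply, if_pos hi, pow_one]

/-- the statement for polynomials -/
private theorem poly_sq {I : Type} [DecidableEq I] (A : Finset (Finset I))
    (p : Finset I → MvPolynomial I (ZMod 2))
    (h : ∑ S ∈ A, (∏ i ∈ S, MvPolynomial.X i) * p S ^ 2 = 0) (T : Finset I) (hT : T ∈ A) :
    p T = 0 := by
  ext m
  rw [MvPolynomial.coeff_zero]
  have h1 := congrArg (MvPolynomial.coeff (2 • m + ∑ j ∈ T, Finsupp.single j 1)) h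
  rw [MvPolynomial.coeff_sum, MvPolynomial.coeff_zero, Finset.sum_eq_single T] at h1
  · rw [prod_X, ← MvPolynomial.expand_zmod, MvPolynomial.coeff_monomial_mul',
      if_pos (le_add_of_nonneg_left zero_le), add_tsub_cancel_right, one_mul,
      MvPolynomial.coeff_expand_smul 2 two_ne_zero] at h1
    exact h1
  · intro S _ hST
    rw [prod_X, ← MvPolynomial.expand_zmod, MvPolynomial.coeff_monomial_mul']
    split_ifs with hle
    · rw [one_mul]
      obtain ⟨i, hi⟩ : ∃ i, ¬ (i ∈ S ↔ i ∈ T) := by
        by_contra hcon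
        push Not at hcon
        exact hST (Finset.ext hcon)
      apply MvPolynomial.coeff_expand_of_not_dvd (i := i)
      rw [Finsupp.tsub_apply, Finsupp.add_apply, Finsupp.smul_apply, indic_apply, indic_apply,
        smul_eq_mul]
      have hi2 := hle i
      rw [Finsupp.add_apply, Finsupp.smul_apply, indic_apply, indic_apply, smul_eq_mul] at hi2
      by_cases h2 : i ∈ S
      · have h3 : i ∉ T := fun h3 => hi ⟨fun _ => h3, fun _ => h2⟩
        rw [if_pos h2, if_neg h3] at hi2 ⊢
        omega
      · have h3 : i ∈ T := by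
          by_contra h3
          exact hi ⟨fun h => absurd h h2, fun h => absurd h h3⟩
        rw [if_neg h2, if_pos h3]
        omega
    · rfl
  · exact fun h2 => absurd hT h2

/-- The products of distinct variables are linearly independent over the field of squares. Proof:
multiply with the square of a common denominator, so that all `x S` are polynomials. The square of a
polynomial over `𝔽₂` is a polynomial in the squares of the variables (`MvPolynomial.expand` and
`frobenius`), so in `(∏ i ∈ S, X i) * (x S) ^ 2` only monomials occur in which exactly the variables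
`i ∈ S` have an odd exponent. -/
theorem sum_prod_sq {I : Type} [DecidableEq I] (A : Finset (Finset I)) (x : Finset I → RF I)
    (h : ∑ S ∈ A, (∏ i ∈ S, xv i) * x S ^ 2 = 0) (S : Finset I) (hS : S ∈ A) : x S = 0 := by
  obtain ⟨b, hb⟩ := IsLocalization.exist_integer_multiples
    (nonZeroDivisors (MvPolynomial I (ZMod 2))) A x
  have hb' : ∀ T, ∃ p : MvPolynomial I (ZMod 2), T ∈ A →
      algebraMap (MvPolynomial I (ZMod 2)) (RF I) p =
        algebraMap (MvPolynomial I (ZMod 2)) (RF I) b * x T := by
    intro T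
    by_cases hT : T ∈ A
    · obtain ⟨p, hp⟩ := hb T hT
      exact ⟨p, fun _ => by rw [hp, Algebra.smul_def]⟩
    · exact ⟨0, fun h => absurd h hT⟩
  choose p hp using hb'
  have hinj : Function.Injective (algebraMap (MvPolynomial I (ZMod 2)) (RF I)) :=
    IsFractionRing.injective (MvPolynomial I (ZMod 2)) (RF I)
  have hpoly : ∑ T ∈ A, (∏ i ∈ T, MvPolynomial.X i) * p T ^ 2 = 0 := by
    apply hinj
    rw [map_zero, map_sum]
    have h1 : ∑ T ∈ A, algebraMap (MvPolynomial I (ZMod 2)) (RF I)
        ((∏ i ∈ T, MvPolynomial.X i) * p T ^ 2) =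
        (algebraMap (MvPolynomial I (ZMod 2)) (RF I) b) ^ 2 *
          ∑ T ∈ A, (∏ i ∈ T, xv i) * x T ^ 2 := by
      rw [Finset.mul_sum]
      refine Finset.sum_congr rfl fun T hT => ?_
      rw [map_mul, map_pow, hp T hT, map_prod]
      unfold xv
      ring
    rw [h1, h, mul_zero]
  have h2 := poly_sq A p hpoly S hS
  have h3 := hp S hS
  rw [h2, map_zero] at h3
  rcases mul_eq_zero.1 h3.symm with h4 | h4
  · exfalso
    have h5 : (b : MvPolynomial I (ZMod 2)) = 0 := hinj (by rw [h4, map_zero])
    exact nonZeroDivisors.coe_ne_zero b h5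
  · exact h4

variable {Q : Type} [PartialOrder Q] [Fintype Q]

end Pool.Agent.H4.Singer2

end

section

/-!
# Singer project, part three: definitions

Mod 2 homology growth of right-angled Coxeter groups and its behaviour under vertex splits.
-/

set_option autoImplicit false
set_option linter.unusedSectionVars false

open Finset

namespace Pool.Agent.H4.Singer3

variable {V : Type} [DecidableEq V] [Fintype V]

/-! ## Sets with an action of the right-angled Coxeter group -/

/-- A set with involutions `s v`, commuting for adjacent vertices, and an equivariant map to the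
cube `V → Bool`. -/
structure Act (G : SimpleGraph V) (Ω : Type) where
  /-- the involutions -/
  s : V → Ω → Ω
  invol : ∀ v ω, s v (s v ω) = ω
  comm : ∀ u v, G.Adj u v → ∀ ω, s u (s v ω) = s v (s u ω)
  /-- the map to the cube -/
  bit : Ω → V → Bool
  bit_s : ∀ v ω, bit (s v ω) = Function.update (bit ω) v (!(bit ω v))

/-! ## Chains modulo two -/

section Chains

variable {G : SimpleGraph V} {Ω : Type}

/-- chains of degree `i` on the simplices in `𝒦` -/
def CK (X : Act G Ω) (𝒦 : Finset V → Prop) (i : ℕ) :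
    Submodule (ZMod 2) (Finset V → Ω → ZMod 2) where
  carrier := {f | (∀ σ ω, f σ ω ≠ 0 → 𝒦 σ ∧ σ.card = i) ∧
    ∀ σ, ∀ v ∈ σ, ∀ ω, f σ (X.s v ω) = f σ ω}
  zero_mem' := ⟨fun σ ω h => absurd rfl h, fun σ v _ ω => rfl⟩
  add_mem' := by
    rintro f g ⟨h1, h2⟩ ⟨h3, h4⟩
    refine ⟨fun σ ω h => ?_, fun σ v hv ω => ?_⟩
    · by_cases hf : f σ ω = 0
      · by_cases hg : g σ ω = 0
        · exact absurd (by simp [hf, hg]) h
        · exact h3 σ ω hg
      · exact h1 σ ω hf
    · simp only [Pi.add_apply]
      rw [h2 σ v hv ω, h4 σ v hv ω]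
  smul_mem' := by
    rintro c f ⟨h1, h2⟩
    refine ⟨fun σ ω h => h1 σ ω ?_, fun σ v hv ω => ?_⟩
    · intro h0
      exact h (by simp [h0])
    · simp only [Pi.smul_apply, smul_eq_mul]
      rw [h2 σ v hv ω]

/-- the boundary operator -/
def bd : (Finset V → Ω → ZMod 2) →ₗ[ZMod 2] (Finset V → Ω → ZMod 2) where
  toFun f τ ω := ∑ v ∈ τᶜ, f (insert v τ) ω
  map_add' f g := by
    funext τ ω
    simp [Finset.sum_add_distrib]
  map_smul' c f := by
    funext τ ω
    simp [Finset.mul_sum]

/-- cycles -/
def ZK (X : Act G Ω) (𝒦 : Finset V → Prop) (i : ℕ) :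
    Submodule (ZMod 2) (Finset V → Ω → ZMod 2) := CK X 𝒦 i ⊓ LinearMap.ker bd

/-- boundaries -/
def BK (X : Act G Ω) (𝒦 : Finset V → Prop) (i : ℕ) :
    Submodule (ZMod 2) (Finset V → Ω → ZMod 2) := (CK X 𝒦 (i + 1)).map bd

end Chains

/-- `dim Z - dim B` -/
noncomputable def hdim {M : Type} [AddCommGroup M] [Module (ZMod 2) M]
    (Z B : Submodule (ZMod 2) M) : ℕ :=
  Module.finrank (ZMod 2) Z - Module.finrank (ZMod 2) B

/-- Betti numbers -/
noncomputable def bet {G : SimpleGraph V} {Ω : Type} (X : Act G Ω) (𝒦 : Finset V → Prop)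
    (i : ℕ) : ℕ :=
  hdim (ZK X 𝒦 i) (BK X 𝒦 i)

/-- the cliques contained in `U` -/
def KU (G : SimpleGraph V) (U σ : Finset V) : Prop := σ ⊆ U ∧ G.IsClique (σ : Set V)

/-! ## Two-groups -/

/-- generators of a group satisfying the relations of the right-angled Coxeter group, with an
equivariant map to the cube -/
structure Gen (G : SimpleGraph V) (P : Type) [Group P] where
  /-- the generators -/
  g : V → P
  sq : ∀ v, g v * g v = 1
  comm : ∀ u v, G.Adj u v → g u * g v = g v * g u
  /-- the map to the cube -/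
  bit : P → V → Bool
  bit_mul : ∀ p v, bit (p * g v) = Function.update (bit p) v (!(bit p v))

/-- the action by right multiplication -/
def Gen.act {G : SimpleGraph V} {P : Type} [Group P] (D : Gen G P) : Act G P where
  s v p := p * D.g v
  invol v p := by rw [mul_assoc, D.sq, mul_one]
  comm u v h p := by rw [mul_assoc, mul_assoc, D.comm u v h]
  bit := D.bit
  bit_s v p := D.bit_mul p v

/-- The mod 2 homology growth of the special subgroup on `U` vanishes in degree `i`. -/
def Dens (G : SimpleGraph V) (U : Finset V) (i : ℕ) : Prop :=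
  ∀ m : ℕ, ∃ (P : Type) (_ : Group P) (_ : Fintype P) (D : Gen G P), IsPGroup 2 P ∧
    m * bet D.act (KU G U) i ≤ Fintype.card P

/-! ## The class of graphs -/

end Pool.Agent.H4.Singer3

end

section

/-!
# Singer without colours: a field with generic elements
-/

set_option autoImplicit false

namespace Pool.Agent.H77.SW

open Pool.Agent.H4.Singer2

theorem exists_genSeq : ∃ (K : Type) (_ : Field K) (_ : CharP K 2), Nonempty (GenSeq K) :=
  ⟨RF ℕ, inferInstance, inferInstance, ⟨⟨xv, fun 𝓢 c h S hS => sum_prod_sq 𝓢 c h S hS⟩⟩⟩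

end Pool.Agent.H77.SW

end

section

/-!
# Project S10: counting of the cells by the bits, monotonicity, comparison
-/

set_option autoImplicit false
set_option linter.unusedSectionVars false

open Finset

namespace Pool.Agent.S10

open Pool.Agent.H19.Cub

/-! ### Extension by the bits -/

section Ext

variable {V Ω F : Type} [DecidableEq V] [Field F]

end Ext

variable {V X : Type} [DecidableEq V] [Fintype V] [Fintype X]

open Classical in
/-- the number of the cells of dimension `n` of `Q` -/
noncomputable def nC (Q : CubeComplex V X) (bit : X → V → ZMod 2) (n : ℕ) : ℕ :=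
  ∑ σ ∈ univ.filter (fun σ : Finset V => Q.graph.IsClique (σ : Set V) ∧ σ.card = n),
    (univ.filter fun x => σ ⊆ Q.lab x ∧ ∀ v ∈ σ, bit x v = 0).card

section Dim

variable {K : Type} [Field K] [CharP K 2] (Q : CubeComplex V X) {bit : X → V → ZMod 2}
  (n : ℕ) {P : Type} [Group P] [Fintype P] (g : V → P)
  (hg : ∀ v, g v * g v = 1)
  (hgc : ∀ u v, Q.graph.Adj u v → g u * g v = g v * g u)


end Dim

end Pool.Agent.S10

end

section

/-!
# Project S10 (note 4276): definitions

S9 with an activity predicate. `act v w`: the wall of the edge `v` at the vertex `w` of the Davis complex is active.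
Only the cubes all of whose walls are active are used.
-/

set_option autoImplicit false
set_option linter.unusedSectionVars false

open Finset

namespace Pool.Agent.S10

open Pool.Agent.S9

variable {V : Type} [DecidableEq V] [Fintype V] {G : SimpleGraph V} {W : Type} [Group W]

/-- **activity**: a set of walls of the Davis complex which is invariant under `Γ` -/
structure IsActv (R : Rac G W) (Γ : Subgroup W) (act : V → W → Prop) : Prop where
  inv : ∀ v, ∀ g ∈ Γ, ∀ w, act v (g * w) ↔ act v w
  self : ∀ v w, act v (w * R.s v) ↔ act v w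
  adj : ∀ u v, G.Adj u v → ∀ w, act v (w * R.s u) ↔ act v w

theorem IsActv.mono {R : Rac G W} {Γ Γ' : Subgroup W} {act : V → W → Prop} (h : IsActv R Γ act) (hle : Γ' ≤ Γ) :
    IsActv R Γ' act := ⟨fun v g hg w => h.inv v g (hle hg) w, h.self, h.adj⟩

/-- the activity of a clique does not change along its edges -/
theorem IsActv.all {R : Rac G W} {Γ : Subgroup W} {act : V → W → Prop} (h : IsActv R Γ act) {A : Finset V}
    (hA : G.IsClique (A : Set V)) {v : V} (hv : v ∈ A) (w : W) :
    (∀ u ∈ A, act u (w * R.s v)) ↔ ∀ u ∈ A, act u w := by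
  refine forall₂_congr fun u hu => ?_
  by_cases huv : v = u
  · subst huv
    exact h.self v w
  · exact h.adj v u (hA (mem_coe.2 hv) (mem_coe.2 hu) huv) w

section Cpx

variable (R : Rac G W) (act : V → W → Prop) {K : Type} [Field K]
  {N : Type} [AddCommGroup N] [Module K N]

/-- the functions on the cubes which are supported on the active cubes -/
def Sup (act : V → W → Prop) (K : Type) [Field K] (N : Type) [AddCommGroup N] [Module K N] :
    Submodule K (Finset V → W → N) where
  carrier := {c | ∀ A w, c A w ≠ 0 → ∀ v ∈ A, act v w}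
  zero_mem' := fun A w h => absurd rfl h
  add_mem' := by
    intro c d h1 h2 A w h v hv
    by_cases hz : c A w = 0
    · exact h2 A w (fun h0 => h (by rw [Pi.add_apply, Pi.add_apply, hz, h0, add_zero])) v hv
    · exact h1 A w hz v hv
  smul_mem' := by
    intro a c h1 A w h v hv
    exact h1 A w (fun h0 => h (by rw [Pi.smul_apply, Pi.smul_apply, h0, smul_zero])) v hv

/-- **chains and cochains of degree `k`** of the active subcomplex, equivariant under `Γ` -/
def Ca (Γ : Subgroup W) (ρ : Γ →* Module.End K N) (k : ℕ) : Submodule K (Finset V → W → N) :=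
  Cc R Γ ρ k ⊓ Sup act K N

theorem mem_Ca {Γ : Subgroup W} {ρ : Γ →* Module.End K N} {k : ℕ} {c : Finset V → W → N} :
    c ∈ Ca R act Γ ρ k ↔ c ∈ Cc R Γ ρ k ∧ ∀ A w, c A w ≠ 0 → ∀ v ∈ A, act v w := Iff.rfl

open Classical in
/-- the coboundary of cochains of the active subcomplex -/
noncomputable def cba (c : Finset V → W → N) : Finset V → W → N := fun A w =>
  if ∀ v ∈ A, act v w then cb R c A w else 0

/-- cycles of degree `k` of the active subcomplex -/
def Za (Γ : Subgroup W) (ρ : Γ →* Module.End K N) (k : ℕ) : Submodule K (Finset V → W → N) :=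
  Ca R act Γ ρ k ⊓ LinearMap.ker (bd K)

/-- boundaries in degree `k` of the active subcomplex -/
def Ba (Γ : Subgroup W) (ρ : Γ →* Module.End K N) (k : ℕ) : Submodule K (Finset V → W → N) :=
  (Ca R act Γ ρ (k + 1)).map (bd K)

/-- the dimension of the homology of the active subcomplex -/
noncomputable def hha (Γ : Subgroup W) (ρ : Γ →* Module.End K N) (k : ℕ) : ℤ :=
  (Module.finrank K (Za R act Γ ρ k) : ℤ) - Module.finrank K (Ba R act Γ ρ k)

/-- **Lifting**: the cycle `z₀` with coefficients in `χ` lifts to `χ ⊗ ρ` for every triangular module `ρ` with weights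
in the squares of `χ` and every invariant linear form `π ≠ 0` -/
def LiftsA (Γ : Subgroup W) (χ : Γ →* Kˣ) (k : ℕ) (z₀ : Finset V → W → K) : Prop :=
  ∀ (N : Type) [AddCommGroup N] [Module K N] [FiniteDimensional K N] (ρ : Γ →* Module.End K N)
    (π : N →ₗ[K] K), Tri (sqr χ) ρ → Function.Surjective π → (∀ g y, π (ρ g y) = π y) →
    ∃ z ∈ Za R act Γ (tw χ ρ) k, ∀ A w, π (z A w) = z₀ A w

/-- **Effaceability**: every cocycle of degree `k + 1` of the active subcomplex with coefficients in a triangular module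
becomes a coboundary in a larger triangular module -/
def EffA (K : Type) [Field K] (Γ : Subgroup W) (Λ : Subgroup Kˣ) : Prop :=
  ∀ (k : ℕ) (E : Type) [AddCommGroup E] [Module K E] [FiniteDimensional K E]
    (ρ : Γ →* Module.End K E), Tri Λ ρ → ∀ x ∈ Ca R act Γ ρ (k + 1), cba R act x = 0 →
    ∃ (E' : Type) (_ : AddCommGroup E') (_ : Module K E') (_ : FiniteDimensional K E')
      (ρ' : Γ →* Module.End K E') (ι : E →ₗ[K] E') (y : Finset V → W → E'),
      Tri Λ ρ' ∧ Function.Injective ι ∧ (∀ g e, ι (ρ g e) = ρ' g (ι e)) ∧ y ∈ Ca R act Γ ρ' k ∧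
        ∀ A w, cba R act y A w = ι (x A w)

/-- **The mod 2 homology growth of the active subcomplex vanishes in degree `i`**, for subgroups of `Φ` -/
def GZA (Φ : Subgroup W) (i : ℕ) : Prop :=
  ∀ ε : ℝ, 0 < ε → ∃ N : Subgroup W, N.Normal ∧ N.FiniteIndex ∧ N ≤ Φ ∧
    (hha R act N (1 : N →* Module.End (ZMod 2) (ZMod 2)) i : ℝ) ≤ ε * N.index

end Cpx

end Pool.Agent.S10

end

section

/-!
# Project S9, integrality: extensions of groups with unique products
-/

set_option autoImplicit false

namespace Pool.Agent.S9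

/-! ### Unique products -/

/-- groups with unique products are closed under extensions -/
theorem up_ext {G H : Type*} [Group G] [Group H] (f : G →* H) [UniqueProds H]
    [UniqueProds f.ker] : UniqueProds G where
  uniqueMul_of_nonempty := by
    classical
    intro A B hA hB
    obtain ⟨α, hα, β, hβ, hu⟩ := UniqueProds.uniqueMul_of_nonempty
      (hA.image f) (hB.image f)
    obtain ⟨a, ha, rfl⟩ := Finset.mem_image.1 hα
    obtain ⟨b, hb, rfl⟩ := Finset.mem_image.1 hβ
    have iA : Function.Injective fun n : f.ker => a * (n : G) := fun x y h =>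
      Subtype.ext (mul_left_cancel h)
    have iB : Function.Injective fun n : f.ker => (n : G) * b := fun x y h =>
      Subtype.ext (mul_right_cancel h)
    have nA : (A.preimage _ iA.injOn).Nonempty := ⟨1, by simpa using ha⟩
    have nB : (B.preimage _ iB.injOn).Nonempty := ⟨1, by simpa using hb⟩
    obtain ⟨m, hm, n, hn, hmn⟩ := UniqueProds.uniqueMul_of_nonempty nA nB
    rw [Finset.mem_preimage] at hm hn
    refine ⟨a * m, hm, n * b, hn, ?_⟩
    intro x y hx hy hxy
    have h1 : f x * f y = f a * f b := by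
      rw [← map_mul, hxy, map_mul, map_mul, map_mul, f.mem_ker.1 m.2, f.mem_ker.1 n.2, mul_one,
        one_mul]
    obtain ⟨h2, h3⟩ := hu (Finset.mem_image_of_mem f hx) (Finset.mem_image_of_mem f hy) h1
    have h4 : a⁻¹ * x ∈ f.ker := by
      rw [f.mem_ker, map_mul, map_inv, h2, inv_mul_cancel]
    have h5 : y * b⁻¹ ∈ f.ker := by
      rw [f.mem_ker, map_mul, map_inv, h3, mul_inv_cancel]
    obtain ⟨h6, h7⟩ := hmn (a := ⟨a⁻¹ * x, h4⟩) (b := ⟨y * b⁻¹, h5⟩)
      (by rw [Finset.mem_preimage]; simpa using hx) (by rw [Finset.mem_preimage]; simpa using hy)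
      (by
        apply Subtype.ext
        show a⁻¹ * x * (y * b⁻¹) = m * n
        calc a⁻¹ * x * (y * b⁻¹) = a⁻¹ * (x * y) * b⁻¹ := by group
          _ = a⁻¹ * (a * m * (n * b)) * b⁻¹ := by rw [hxy]
          _ = m * n := by group)
    have h8 := congrArg Subtype.val h6
    have h9 := congrArg Subtype.val h7
    simp only at h8 h9
    exact ⟨by rw [← h8]; group, by rw [← h9]; group⟩

/-- one step of a tower -/
theorem up_step {Q H : Type*} [Group Q] [Group H] (A B : Subgroup Q) (f : A →* H) [UniqueProds H]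
    [UniqueProds B] (h : ∀ x : A, f x = 1 → (x : Q) ∈ B) : UniqueProds A := by
  have : UniqueProds f.ker :=
    UniqueProds.of_injective_mulHom
      ({ toFun := fun x => ⟨((x : A) : Q), h x (f.mem_ker.1 x.2)⟩
         map_mul' := fun _ _ => rfl } : f.ker →ₙ* B)
      (fun x y hxy => Subtype.ext (Subtype.ext (congrArg (Subtype.val : B → Q) hxy)))
      inferInstance
  exact up_ext f

end Pool.Agent.S9

end

section

/-
S9 (MP_ea75ba_gt, note 4239 (1)(a) in the form of note 4250): INTEGRALITY without Ore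
localisation and without division rings.  helper27.

`R` a commutative domain, `S` a ring without zero divisors containing `R` (NOT central; only the
left multiplications matter), `S` of finite rank `d` as a left `R`-module.  Then `d` divides the
`R`-rank of EVERY left `S`-module.
-/

namespace Pool.Agent.S9

open Module

universe u v w

section

variable (R : Type u) (S : Type v) [CommRing R] [IsDomain R] [Ring S]
  [NoZeroDivisors S] [Module R S] [IsScalarTower R S S]

/-- Every nonzero left ideal of `S` contains a nonzero element of `R`. -/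
theorem exists_smul_one_mem (hfin : Module.rank R S < Cardinal.aleph0) {x : S} (hx : x ≠ 0) :
    ∃ a : R, a ≠ 0 ∧ ∃ s : S, a • (1 : S) = s * x := by
  classical
  let f : S →ₗ[R] S :=
    { toFun := fun s => s * x
      map_add' := fun a b => add_mul a b x
      map_smul' := fun r s => by
        change (r • s) * x = r • (s * x)
        rw [smul_mul_assoc] }
  have hinj : Function.Injective f := by
    intro a b hab
    have h1 : (a - b) * x = 0 := by
      have : a * x = b * x := hab
      rw [sub_mul, this, sub_self]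
    rcases mul_eq_zero.mp h1 with h | h
    · exact sub_eq_zero.mp h
    · exact absurd h hx
  have hr : Module.rank R (LinearMap.range f) = Module.rank R S :=
    (LinearEquiv.ofInjective f hinj).rank_eq.symm
  have hq := Submodule.rank_quotient_add_rank (LinearMap.range f)
  rw [hr] at hq
  have hq0 : Module.rank R (S ⧸ LinearMap.range f) = 0 := by
    have h2 : Module.rank R (S ⧸ LinearMap.range f) + Module.rank R S = 0 + Module.rank R S := by
      rw [hq, zero_add]
    exact (Cardinal.add_right_inj_of_lt_aleph0 hfin).mp h2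
  rw [rank_eq_zero_iff] at hq0
  obtain ⟨a, ha, h⟩ := hq0 (Submodule.Quotient.mk (1 : S))
  rw [← Submodule.Quotient.mk_smul, Submodule.Quotient.mk_eq_zero] at h
  obtain ⟨s, hs⟩ := h
  exact ⟨a, ha, s, hs.symm⟩

variable {R S}

/-- A non-torsion element generates a free `S`-module. -/
theorem injective_of_nontorsion (hfin : Module.rank R S < Cardinal.aleph0)
    {M : Type w} [AddCommGroup M] [Module S M] [Module R M] [IsScalarTower R S M]
    {h : M} (hh : ∀ a : R, a ≠ 0 → a • h ≠ 0) : Function.Injective (fun x : S => x • h) := by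
  intro x y hxy
  by_contra hne
  have h0 : x - y ≠ 0 := sub_ne_zero.mpr hne
  obtain ⟨a, ha, s, hs⟩ := exists_smul_one_mem R S hfin h0
  apply hh a ha
  have h1 : (x - y) • h = 0 := by
    have : x • h = y • h := hxy
    rw [sub_smul, this, sub_self]
  calc a • h = (a • (1 : S)) • h := by rw [smul_assoc, one_smul]
    _ = s • ((x - y) • h) := by rw [hs, mul_smul]
    _ = 0 := by rw [h1, smul_zero]

theorem rank_dvd_aux (hfin : Module.rank R S < Cardinal.aleph0) :
    ∀ (n : ℕ) (M : Type w) [AddCommGroup M] [Module S M] [Module R M] [IsScalarTower R S M],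
      Module.rank R M = n → finrank R S ∣ n := by
  intro n
  induction n using Nat.strong_induction_on with
  | _ n ih =>
  intro M _ _ _ _ hM
  by_cases hall : ∀ h : M, ∃ a : R, a ≠ 0 ∧ a • h = 0
  · have h0 : Module.rank R M = 0 := rank_eq_zero_iff.mpr hall
    rw [h0] at hM
    have : n = 0 := by exact_mod_cast hM.symm
    rw [this]
    exact dvd_zero _
  · push Not at hall
    obtain ⟨h, hh⟩ := hall
    have hinj := injective_of_nontorsion (S := S) hfin hh
    -- the submodule generated by `h`
    let g : S →ₗ[S] M := LinearMap.toSpanSingleton S M h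
    have hginj : Function.Injective g := hinj
    let N : Submodule S M := LinearMap.range g
    -- the `R`-linear version
    let gR : S →ₗ[R] M := g.restrictScalars R
    have hgR : Function.Injective gR := hginj
    have hrN := (LinearEquiv.ofInjective gR hgR).lift_rank_eq
    have hNR : LinearMap.range gR = N.restrictScalars R := by
      ext m; rfl
    have hq := Submodule.rank_quotient_add_rank (N.restrictScalars R)
    -- transfer the quotient
    have hq1 : Module.rank R (M ⧸ N) = Module.rank R (M ⧸ N.restrictScalars R) := rfl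
    have hd : (Module.rank R (N.restrictScalars R)) = (finrank R S : Cardinal) := by
      rw [← hNR]
      have h3 : Cardinal.lift.{v} (Module.rank R (LinearMap.range gR)) =
          Cardinal.lift.{v} ((finrank R S : Cardinal.{w})) := by
        rw [← hrN, Cardinal.lift_natCast, ← Cardinal.cast_toNat_of_lt_aleph0 hfin,
          Cardinal.lift_natCast]
        rfl
      exact Cardinal.lift_injective h3
    have hpos : 0 < finrank R S := by
      have h1 : (0 : Cardinal) < Module.rank R S := by
        rw [pos_iff_ne_zero]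
        intro h0
        rw [rank_eq_zero_iff] at h0
        obtain ⟨a, ha, h1⟩ := h0 1
        apply hh a ha
        calc a • h = (a • (1 : S)) • h := by rw [smul_assoc, one_smul]
          _ = 0 := by rw [h1, zero_smul]
      exact Nat.pos_of_ne_zero (by
        intro h0
        have := Cardinal.cast_toNat_of_lt_aleph0 hfin
        rw [show Cardinal.toNat (Module.rank R S) = 0 from h0] at this
        rw [← this] at h1
        exact absurd h1 (by simp))
    rw [hM, hd] at hq
    have hlt : Module.rank R (M ⧸ N.restrictScalars R) < Cardinal.aleph0 := by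
      refine lt_of_le_of_lt ?_ (Cardinal.natCast_lt_aleph0 (n := n))
      rw [← hq]
      exact self_le_add_right _ _
    obtain ⟨m, hm⟩ := Cardinal.lt_aleph0.mp hlt
    rw [hm] at hq
    have hmn : m + finrank R S = n := by exact_mod_cast hq
    have := ih m (by omega) (M ⧸ N) (by rw [hq1, hm])
    rw [← hmn]
    exact (Nat.dvd_add_right this).mpr dvd_rfl

/-- **Integrality.** The rank of `S` over the commutative domain `R` divides the `R`-rank of every
left `S`-module. -/
theorem finrank_dvd (M : Type w) [AddCommGroup M] [Module S M] [Module R M]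
    [IsScalarTower R S M] (hfin : Module.rank R S < Cardinal.aleph0) :
    finrank R S ∣ finrank R M := by
  by_cases h : Module.rank R M < Cardinal.aleph0
  · have := rank_dvd_aux (S := S) hfin (finrank R M) M
      (Cardinal.cast_toNat_of_lt_aleph0 h).symm
    exact this
  · have : finrank R M = 0 := Cardinal.toNat_apply_of_aleph0_le (not_lt.mp h)
    rw [this]
    exact dvd_zero _

end

end Pool.Agent.S9

end

section

/-
S9 (MP_ea75ba_gt, note 4239 (1)(a) / note 4250): integrality for group rings.  helper27.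

`j : A →* G`, `t : ι → G` with `(a, i) ↦ j a * t i` bijective `A × ι → G` (`ι` finite).  Then
`k[G]` is a free left `k[A]`-module of rank `card ι`; if `k[A]` is a commutative domain and `k[G]`
has no zero divisors, `card ι` divides the `k[A]`-rank of every left `k[G]`-module.
-/

namespace Pool.Agent.S9

open Module

universe u v w x y

section free

variable {k : Type u} [Ring k] {A : Type v} [Monoid A] {G : Type w} [Monoid G]
  (j : A →* G) {ι : Type x} (t : ι → G)

/-- The additive isomorphism of the coset decomposition. -/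
noncomputable def cosetEquiv (hbij : Function.Bijective (fun p : ι × A => j p.2 * t p.1)) :
    (ι →₀ MonoidAlgebra k A) ≃+ MonoidAlgebra k G :=
  ((Finsupp.mapRange.addEquiv (ι := ι) (MonoidAlgebra.coeffAddEquiv (R := k) (M := A))).trans
    (Finsupp.curryAddEquiv (α := ι) (β := A) (M := k)).symm).trans
    ((Finsupp.domCongr (Equiv.ofBijective _ hbij)).trans
      (MonoidAlgebra.coeffAddEquiv (R := k) (M := G)).symm)

theorem cosetEquiv_single (hbij : Function.Bijective (fun p : ι × A => j p.2 * t p.1))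
    (i : ι) (a : A) (c : k) :
    cosetEquiv j t hbij (Finsupp.single i (MonoidAlgebra.single a c)) =
      MonoidAlgebra.single (j a * t i) c := by
  classical
  apply MonoidAlgebra.coeff_injective
  rw [MonoidAlgebra.coeff_single]
  simp only [cosetEquiv, AddEquiv.trans_apply]
  rw [Finsupp.mapRange.addEquiv_apply, Finsupp.mapRange_single]
  simp [MonoidAlgebra.coeffAddEquiv]

theorem bijective_linearCombination
    [Module (MonoidAlgebra k A) (MonoidAlgebra k G)]
    (hS : ∀ (r : MonoidAlgebra k A) (s : MonoidAlgebra k G),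
      r • s = MonoidAlgebra.mapDomainRingHom k j r * s)
    (hbij : Function.Bijective (fun p : ι × A => j p.2 * t p.1)) :
    Function.Bijective (Finsupp.linearCombination (MonoidAlgebra k A)
      (fun i : ι => (MonoidAlgebra.single (t i) (1 : k) : MonoidAlgebra k G))) := by
  have key : (Finsupp.linearCombination (MonoidAlgebra k A)
      (fun i : ι => (MonoidAlgebra.single (t i) (1 : k) : MonoidAlgebra k G))).toAddMonoidHom =
      (cosetEquiv (k := k) j t hbij).toAddMonoidHom := by
    refine Finsupp.addHom_ext fun i r => ?_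
    induction r using MonoidAlgebra.induction_linear with
    | zero => simp
    | add a b ha hb => rw [Finsupp.single_add, map_add, map_add, ha, hb]
    | single a c =>
      change Finsupp.linearCombination (MonoidAlgebra k A) _ _ = cosetEquiv (k := k) j t hbij _
      rw [Finsupp.linearCombination_single, cosetEquiv_single, hS]
      simp
  have h2 : (fun z => Finsupp.linearCombination (MonoidAlgebra k A)
      (fun i : ι => (MonoidAlgebra.single (t i) (1 : k) : MonoidAlgebra k G)) z) =
      fun z => cosetEquiv (k := k) j t hbij z := by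
    funext z
    exact DFunLike.congr_fun key z
  have h3 := (cosetEquiv (k := k) j t hbij).bijective
  rw [show (⇑(cosetEquiv (k := k) j t hbij)) = fun z => cosetEquiv (k := k) j t hbij z from rfl,
    ← h2] at h3
  exact h3

/-- The basis `single (t i) 1` of `k[G]` over `k[A]`. -/
noncomputable def cosetBasis
    [Module (MonoidAlgebra k A) (MonoidAlgebra k G)]
    (hS : ∀ (r : MonoidAlgebra k A) (s : MonoidAlgebra k G),
      r • s = MonoidAlgebra.mapDomainRingHom k j r * s)
    (hbij : Function.Bijective (fun p : ι × A => j p.2 * t p.1)) :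
    Basis ι (MonoidAlgebra k A) (MonoidAlgebra k G) :=
  Basis.ofRepr (LinearEquiv.ofBijective _ (bijective_linearCombination j t hS hbij)).symm

end free

section dvd

variable {k : Type u} [CommRing k] [IsDomain k] {A : Type v} [CommMonoid A] [UniqueProds A]
  {G : Type w} [Monoid G] [UniqueProds G] (j : A →* G) {ι : Type x} [Finite ι] (t : ι → G)

/-- **Integrality for group rings.**  `card ι` (the index of `A` in `G`) divides the rank over the
commutative domain `k[A]` of every left `k[G]`-module. -/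
theorem card_dvd_finrank (hbij : Function.Bijective (fun p : ι × A => j p.2 * t p.1))
    (M : Type y) [AddCommGroup M] [Module (MonoidAlgebra k G) M] [Module (MonoidAlgebra k A) M]
    (hM : ∀ (r : MonoidAlgebra k A) (m : M),
      r • m = MonoidAlgebra.mapDomainRingHom k j r • m) :
    Nat.card ι ∣ finrank (MonoidAlgebra k A) M := by
  letI : Module (MonoidAlgebra k A) (MonoidAlgebra k G) :=
    Module.compHom _ (MonoidAlgebra.mapDomainRingHom k j)
  have hS : ∀ (r : MonoidAlgebra k A) (s : MonoidAlgebra k G),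
      r • s = MonoidAlgebra.mapDomainRingHom k j r * s := fun r s => rfl
  haveI : IsScalarTower (MonoidAlgebra k A) (MonoidAlgebra k G) (MonoidAlgebra k G) :=
    ⟨fun r s m => by rw [hS, hS, smul_eq_mul, smul_eq_mul, mul_assoc]⟩
  haveI : IsScalarTower (MonoidAlgebra k A) (MonoidAlgebra k G) M :=
    ⟨fun r s m => by rw [hS, hM, mul_smul]⟩
  let b := cosetBasis j t hS hbij
  have hfin : Module.Finite (MonoidAlgebra k A) (MonoidAlgebra k G) := Module.Finite.of_basis b
  have h := finrank_dvd (R := MonoidAlgebra k A) (S := MonoidAlgebra k G) M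
    (Module.rank_lt_aleph0 _ _)
  rwa [Module.finrank_eq_nat_card_basis b] at h

end dvd

end Pool.Agent.S9

end

section

/-!
# Project S9, integrality: the quotient of the tower has unique products
-/

set_option autoImplicit false
set_option linter.unusedSectionVars false

open Finset

namespace Pool.Agent.S9

section Grp

variable {W : Type} [Group W]

private theorem nxt_le' (H : Subgroup W) : nxt H ≤ H := fun _ h => h.1

/-- the elements of `H` on which all homomorphisms to the integers vanish -/
def kr (H : Subgroup W) : Subgroup W where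
  carrier := {g | ∃ h : g ∈ H, ∀ f : H →* Multiplicative ℤ, f ⟨g, h⟩ = 1}
  mul_mem' := by
    rintro a b ⟨ha, ha'⟩ ⟨hb, hb'⟩
    refine ⟨H.mul_mem ha hb, fun f => ?_⟩
    have h : (⟨a * b, H.mul_mem ha hb⟩ : H) = ⟨a, ha⟩ * ⟨b, hb⟩ := rfl
    rw [h, map_mul, ha' f, hb' f, one_mul]
  one_mem' := ⟨H.one_mem, fun f => map_one f⟩
  inv_mem' := by
    rintro a ⟨ha, ha'⟩
    refine ⟨H.inv_mem ha, fun f => ?_⟩
    have h : (⟨a⁻¹, H.inv_mem ha⟩ : H) = (⟨a, ha⟩ : H)⁻¹ := rfl
    rw [h, map_inv, ha' f, inv_one]

theorem kr_le_nxt (H : Subgroup W) : kr H ≤ nxt H := by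
  rintro g ⟨h, hf⟩
  exact ⟨h, fun f => by rw [hf f, toAdd_one]; exact Even.zero⟩

theorem kr_mono {H K : Subgroup W} (h : H ≤ K) : kr H ≤ kr K := by
  rintro g ⟨hg, hf⟩
  exact ⟨h hg, fun f => hf (f.comp (Subgroup.inclusion h))⟩

/-- one step: the image of `H` in the quotient by `N ≤ kr H` -/
theorem up_map {H N : Subgroup W} [N.Normal] (hN : N ≤ kr H)
    (h : UniqueProds ((nxt H).map (QuotientGroup.mk' N))) :
    UniqueProds (H.map (QuotientGroup.mk' N)) := by
  let p : H →* H.map (QuotientGroup.mk' N) := (QuotientGroup.mk' N).subgroupMap H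
  have hp : Function.Surjective p := (QuotientGroup.mk' N).subgroupMap_surjective H
  let φ : H →* ((H →* Multiplicative ℤ) → Multiplicative ℤ) :=
    { toFun := fun g f => f g
      map_one' := by funext f; exact map_one f
      map_mul' := fun a b => by funext f; exact map_mul f a b }
  have hφ : p.ker ≤ φ.ker := by
    rintro ⟨g, hg⟩ h1
    have h2 : (QuotientGroup.mk' N) g = 1 := congrArg Subtype.val (p.mem_ker.1 h1)
    have h3 : g ∈ N := (QuotientGroup.eq_one_iff g).1 h2
    obtain ⟨_, h4⟩ := hN h3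
    rw [φ.mem_ker]
    funext f
    exact h4 f
  let F : H.map (QuotientGroup.mk' N) →* ((H →* Multiplicative ℤ) → Multiplicative ℤ) :=
    MonoidHom.liftOfSurjective p hp ⟨φ, hφ⟩
  have hF : ∀ g, F (p g) = φ g := fun g => MonoidHom.liftOfRightInverse_comp_apply p _ _ ⟨φ, hφ⟩ g
  refine up_step _ ((nxt H).map (QuotientGroup.mk' N)) F ?_
  intro x hx
  obtain ⟨⟨g, hg⟩, rfl⟩ := hp x
  rw [hF] at hx
  have h1 : g ∈ kr H := ⟨hg, fun f => congrFun hx f⟩
  exact ⟨g, kr_le_nxt H h1, rfl⟩

end Grp

section Tow

variable {V : Type} [DecidableEq V] [Fintype V] {G : SimpleGraph V} {W : Type} [Group W]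
  (R : Rac G W)

private theorem T_succ_le' (m : ℕ) : T R (m + 1) ≤ T R m := nxt_le' _

private theorem T_anti' : Antitone (T R) := antitone_nat_of_succ_le (T_succ_le' R)

/-- **the quotients of the tower have unique products** -/
theorem up_T {N : Subgroup W} [N.Normal] {m : ℕ} (hN : N ≤ kr (T R m))
    (h : UniqueProds ((T R m).map (QuotientGroup.mk' N))) {l : ℕ} (hl : l ≤ m) :
    UniqueProds ((T R l).map (QuotientGroup.mk' N)) := by
  induction hl using Nat.decreasingInduction with
  | self => exact h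
  | of_succ k hk ih => exact up_map (hN.trans (kr_mono (T_anti' R hk.le))) ih

/-- the quotient of the last term embeds in the integral vectors -/
theorem up_last {H N : Subgroup W} [N.Normal] {A : Type} [Group A] [UniqueProds A] (ab : H →* A)
    (hN : ∀ g : H, (g : W) ∈ N ↔ ab g = 1) : UniqueProds (H.map (QuotientGroup.mk' N)) := by
  let p : H →* H.map (QuotientGroup.mk' N) := (QuotientGroup.mk' N).subgroupMap H
  have hp : Function.Surjective p := (QuotientGroup.mk' N).subgroupMap_surjective H
  have hφ : p.ker ≤ ab.ker := by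
    rintro ⟨g, hg⟩ h1
    have h2 : (QuotientGroup.mk' N) g = 1 := congrArg Subtype.val (p.mem_ker.1 h1)
    exact ab.mem_ker.2 ((hN ⟨g, hg⟩).1 ((QuotientGroup.eq_one_iff g).1 h2))
  let F : H.map (QuotientGroup.mk' N) →* A := MonoidHom.liftOfSurjective p hp ⟨ab, hφ⟩
  have hF : ∀ g, F (p g) = ab g := fun g => MonoidHom.liftOfRightInverse_comp_apply p _ _ ⟨ab, hφ⟩ g
  refine UniqueProds.of_injective_mulHom (F : _ →ₙ* A) ?_ inferInstance
  intro x y hxy
  rw [← inv_mul_eq_one]
  have h1 : F (x⁻¹ * y) = 1 := by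
    rw [map_mul, map_inv]
    have : F x = F y := hxy
    rw [this, inv_mul_cancel]
  obtain ⟨g, hg⟩ := hp (x⁻¹ * y)
  rw [← hg, hF] at h1
  have h2 : (g : W) ∈ N := (hN g).2 h1
  rw [← hg]
  exact Subtype.ext ((QuotientGroup.eq_one_iff (g : W)).2 h2)

/-- **the quotient of the first term by the kernel of the last one has unique products** -/
theorem up_quot {N : Subgroup W} [N.Normal] {m : ℕ} {A : Type} [Group A] [UniqueProds A]
    (ab : T R m →* A) (hN : ∀ g : T R m, (g : W) ∈ N ↔ ab g = 1) (hN' : N ≤ kr (T R m)) :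
    UniqueProds (T R 0 ⧸ N.subgroupOf (T R 0)) := by
  have h1 := up_T R hN' (up_last ab hN) (Nat.zero_le m)
  let p : T R 0 →* (T R 0).map (QuotientGroup.mk' N) := (QuotientGroup.mk' N).subgroupMap (T R 0)
  have hk : N.subgroupOf (T R 0) ≤ p.ker := by
    intro g hg
    exact Subtype.ext ((QuotientGroup.eq_one_iff (g : W)).2 (Subgroup.mem_subgroupOf.1 hg))
  let q : T R 0 ⧸ N.subgroupOf (T R 0) →* (T R 0).map (QuotientGroup.mk' N) :=
    QuotientGroup.lift (N.subgroupOf (T R 0)) p fun g hg => p.mem_ker.1 (hk hg)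
  refine UniqueProds.of_injective_mulHom (q : _ →ₙ* _) ?_ h1
  intro x y hxy
  rw [← inv_mul_eq_one]
  have h2 : q (x⁻¹ * y) = 1 := by
    rw [map_mul, map_inv]
    have : q x = q y := hxy
    rw [this, inv_mul_cancel]
  obtain ⟨g, hg⟩ := QuotientGroup.mk_surjective (x⁻¹ * y)
  rw [← hg] at h2 ⊢
  have h3 : (QuotientGroup.mk' N) (g : W) = 1 := congrArg Subtype.val h2
  exact (QuotientGroup.eq_one_iff g).2 (Subgroup.mem_subgroupOf.2 ((QuotientGroup.eq_one_iff (g : W)).1 h3))

end Tow

end Pool.Agent.S9

end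

section

/-!
# S9 T1: the tower of a group

For a subgroup `Γ` of a group `G`: `nxt Γ` (in `S9.Defs`) = the elements of `Γ` on which all homomorphisms `Γ → ℤ` are even,
`kz Γ` = those on which all of them vanish; `twr Γ m` is the tower `Γ, nxt Γ, nxt (nxt Γ), ...`.
-/

set_option autoImplicit false

namespace Pool.Agent.S9

variable {G : Type} [Group G] {H : Type} [Group H]

/-- the elements of `Γ` on which all homomorphisms `Γ → ℤ` vanish -/
def kz (Γ : Subgroup G) : Subgroup G where
  carrier := {g | ∃ h : g ∈ Γ, ∀ f : Γ →* Multiplicative ℤ, f ⟨g, h⟩ = 1}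
  one_mem' := ⟨Γ.one_mem, fun f => map_one f⟩
  mul_mem' := by
    rintro a b ⟨ha, h1⟩ ⟨hb, h2⟩
    refine ⟨Γ.mul_mem ha hb, fun f => ?_⟩
    have h : f ⟨a * b, Γ.mul_mem ha hb⟩ = f ⟨a, ha⟩ * f ⟨b, hb⟩ := map_mul f ⟨a, ha⟩ ⟨b, hb⟩
    rw [h, h1 f, h2 f, mul_one]
  inv_mem' := by
    rintro a ⟨ha, h1⟩
    refine ⟨Γ.inv_mem ha, fun f => ?_⟩
    have h : f ⟨a⁻¹, Γ.inv_mem ha⟩ = (f ⟨a, ha⟩)⁻¹ := map_inv f ⟨a, ha⟩
    rw [h, h1 f, inv_one]

/-- the tower `Γ, nxt Γ, nxt (nxt Γ), ...` -/
def twr (Γ : Subgroup G) : ℕ → Subgroup G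
  | 0 => Γ
  | m + 1 => nxt (twr Γ m)

@[simp] theorem twr_zero (Γ : Subgroup G) : twr Γ 0 = Γ := rfl

@[simp] theorem twr_succ (Γ : Subgroup G) (m : ℕ) : twr Γ (m + 1) = nxt (twr Γ m) := rfl

theorem nxt_le (Γ : Subgroup G) : nxt Γ ≤ Γ := fun _ h => h.1

theorem twr_anti (Γ : Subgroup G) : Antitone (twr Γ) :=
  antitone_nat_of_succ_le fun _ => nxt_le _

theorem twr_le (Γ : Subgroup G) (m : ℕ) : twr Γ m ≤ Γ := twr_anti Γ (Nat.zero_le m)

/-- functoriality -/
theorem nxt_comap (φ : G →* H) {Γ : Subgroup G} {Δ : Subgroup H} (h : Γ ≤ Δ.comap φ) :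
    nxt Γ ≤ (nxt Δ).comap φ := by
  rintro g ⟨hg, h1⟩
  refine ⟨h hg, fun f => ?_⟩
  let ψ : Γ →* Δ := (φ.comp Γ.subtype).codRestrict Δ fun x => h x.2
  exact h1 (f.comp ψ)

theorem kz_comap (φ : G →* H) {Γ : Subgroup G} {Δ : Subgroup H} (h : Γ ≤ Δ.comap φ) :
    kz Γ ≤ (kz Δ).comap φ := by
  rintro g ⟨hg, h1⟩
  refine ⟨h hg, fun f => ?_⟩
  let ψ : Γ →* Δ := (φ.comp Γ.subtype).codRestrict Δ fun x => h x.2
  exact h1 (f.comp ψ)

theorem twr_comap (φ : G →* H) {Γ : Subgroup G} {Δ : Subgroup H} (h : Γ ≤ Δ.comap φ) (m : ℕ) :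
    twr Γ m ≤ (twr Δ m).comap φ := by
  induction m with
  | zero => exact h
  | succ m ih => exact nxt_comap φ ih

theorem normal_of_comap {Γ : Subgroup G} (h : ∀ g : G, Γ ≤ Γ.comap (MulAut.conj g).toMonoidHom) : Γ.Normal :=
  ⟨fun n hn g => by simpa using h g hn⟩

theorem comap_of_normal {Γ : Subgroup G} (h : Γ.Normal) (g : G) :
    Γ ≤ Γ.comap (MulAut.conj g).toMonoidHom := fun n hn => by
  simpa using h.conj_mem n hn g

instance nxt_normal (Γ : Subgroup G) [h : Γ.Normal] : (nxt Γ).Normal :=
  normal_of_comap fun g => nxt_comap _ (comap_of_normal h g)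

instance kz_normal (Γ : Subgroup G) [h : Γ.Normal] : (kz Γ).Normal :=
  normal_of_comap fun g => kz_comap _ (comap_of_normal h g)

instance twr_normal (Γ : Subgroup G) [h : Γ.Normal] (m : ℕ) : (twr Γ m).Normal :=
  normal_of_comap fun g => twr_comap _ (comap_of_normal h g) m

/-- coordinates: `c` is the quotient of `E` by the intersection of the kernels of all homomorphisms to `ℤ` -/
theorem exists_coord (E : Type) [Group E] [hE : Group.FG E] : ∃ (r : ℕ) (c : E →* Multiplicative (Fin r → ℤ)),
    Function.Surjective c ∧ ∀ f : E →* Multiplicative ℤ, ∃ y : Fin r → ℤ, ∀ g, (f g).toAdd = ∑ i, y i * (c g).toAdd i := by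
  have h1 : Group.FG (Abelianization E) :=
    Group.fg_of_surjective (f := Abelianization.of) (by
      intro x
      induction x using QuotientGroup.induction_on with
      | _ z => exact ⟨z, rfl⟩)
  have h2 : Module.Finite ℤ (Additive (Abelianization E)) :=
    Module.Finite.iff_addGroup_fg.2 (AddGroup.fg_iff_mul_fg.2 h1)
  let T := Submodule.torsion ℤ (Additive (Abelianization E))
  have h3 : Module.Free ℤ (Additive (Abelianization E) ⧸ T) := by
    have : Module.IsTorsionFree ℤ (Additive (Abelianization E) ⧸ T) := inferInstance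
    exact Module.free_of_finite_type_torsion_free'
  let b := Module.finBasis ℤ (Additive (Abelianization E) ⧸ T)
  let q : Additive (Abelianization E) →ₗ[ℤ] (Additive (Abelianization E) ⧸ T) := T.mkQ
  let c : E →* Multiplicative (Fin (Module.finrank ℤ (Additive (Abelianization E) ⧸ T)) → ℤ) :=
    (AddMonoidHom.toMultiplicative ((b.equivFun : _ →ₗ[ℤ] _).toAddMonoidHom.comp q.toAddMonoidHom)).comp Abelianization.of
  refine ⟨_, c, ?_, ?_⟩
  · intro x
    obtain ⟨y, hy⟩ := b.equivFun.surjective x.toAdd
    obtain ⟨z, hz⟩ := T.mkQ_surjective y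
    obtain ⟨w, hw⟩ : ∃ w : E, Abelianization.of w = z.toMul := by
      induction z.toMul using QuotientGroup.induction_on with
      | _ z => exact ⟨z, rfl⟩
    refine ⟨w, ?_⟩
    change Multiplicative.ofAdd (b.equivFun (T.mkQ (Additive.ofMul (Abelianization.of w)))) = x
    rw [hw]
    change Multiplicative.ofAdd (b.equivFun (T.mkQ z)) = x
    rw [hz, hy]
    rfl
  · intro f
    let F : Additive (Abelianization E) →ₗ[ℤ] ℤ :=
      ((MonoidHom.toAdditive (Abelianization.lift f)) : Additive (Abelianization E) →+ ℤ).toIntLinearMap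
    have hF : T ≤ LinearMap.ker F := by
      intro x hx
      obtain ⟨a, ha⟩ := (Submodule.mem_torsion_iff x).1 hx
      have h4 : (a : ℤ) • F x = 0 := by
        rw [← map_smul]
        have : (a : ℤ) • x = 0 := ha
        rw [this, map_zero]
      rw [smul_eq_mul, mul_eq_zero] at h4
      rcases h4 with h4 | h4
      · exact absurd h4 (nonZeroDivisors.coe_ne_zero a)
      · exact h4
    let F' : (Additive (Abelianization E) ⧸ T) →ₗ[ℤ] ℤ := T.liftQ F hF
    refine ⟨fun i => F' (b i), fun g => ?_⟩
    have h5 : (f g).toAdd = F' (T.mkQ (Additive.ofMul (Abelianization.of g))) := by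
      have h7 : F' (T.mkQ (Additive.ofMul (Abelianization.of g))) = F (Additive.ofMul (Abelianization.of g)) :=
        Submodule.liftQ_apply T F _
      rw [h7]
      change _ = (Abelianization.lift f (Abelianization.of g)).toAdd
      rw [Abelianization.lift_apply_of]
    have h6 : ∀ i, (c g).toAdd i = b.equivFun (T.mkQ (Additive.ofMul (Abelianization.of g))) i := fun i => rfl
    rw [h5]
    conv_lhs => rw [← b.sum_equivFun (T.mkQ (Additive.ofMul (Abelianization.of g)))]
    rw [map_sum]
    refine Finset.sum_congr rfl fun i _ => ?_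
    rw [map_smul, h6, smul_eq_mul, mul_comm]

theorem sq_mem_nxt {Γ : Subgroup G} {x : G} (h : x ∈ Γ) : x ^ 2 ∈ nxt Γ := by
  refine ⟨Γ.pow_mem h 2, fun f => ?_⟩
  have h1 : f ⟨x ^ 2, Γ.pow_mem h 2⟩ = f ⟨x, h⟩ ^ 2 := map_pow f ⟨x, h⟩ 2
  rw [h1, toAdd_pow]
  exact ⟨(f ⟨x, h⟩).toAdd, by simp [two_mul]⟩

theorem nxt_finiteIndex [Group.FG G] (Γ : Subgroup G) [Γ.FiniteIndex] : (nxt Γ).FiniteIndex := by
  have h1 : Group.FG Γ := Subgroup.fg_of_index_ne_zero Γ
  obtain ⟨r, c, hc, hf⟩ := exists_coord Γ
  let q : (Fin r → ℤ) →+ (Fin r → ZMod 2) :=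
    { toFun := fun x i => (x i : ZMod 2), map_zero' := by funext i; simp, map_add' := fun x y => by funext i; simp }
  let φ : Γ →* Multiplicative (Fin r → ZMod 2) := (AddMonoidHom.toMultiplicative q).comp c
  have h2 : φ.ker.FiniteIndex := inferInstance
  have h3 : φ.ker ≤ (nxt Γ).subgroupOf Γ := by
    intro g hg
    rw [Subgroup.mem_subgroupOf]
    refine ⟨g.2, fun f => ?_⟩
    obtain ⟨y, hy⟩ := hf f
    have h4 : f ⟨(g : G), g.2⟩ = f g := rfl
    rw [h4, hy]
    refine Finset.even_sum _ fun i _ => Even.mul_left ?_ _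
    have h5 : q (c g).toAdd i = 0 := congrFun (congrArg Multiplicative.toAdd (MonoidHom.mem_ker.1 hg)) i
    have h6 : (((c g).toAdd i : ℤ) : ZMod 2) = 0 := h5
    exact even_iff_two_dvd.2 ((ZMod.intCast_zmod_eq_zero_iff_dvd _ 2).1 h6)
  have h7 : ((nxt Γ).subgroupOf Γ).FiniteIndex := Subgroup.finiteIndex_of_le h3
  have h8 := Subgroup.relIndex_mul_index (nxt_le Γ)
  refine ⟨?_⟩
  rw [← h8]
  exact mul_ne_zero h7.index_ne_zero Subgroup.FiniteIndex.index_ne_zero

end Pool.Agent.S9

end

section

/-!
# S9 T1: the levels of the tower, and the Coxeter group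
-/

set_option autoImplicit false
set_option linter.unusedSectionVars false

open Finset

namespace Pool.Agent.S9

open Pool.Agent.H4.Singer

variable {V : Type} [DecidableEq V] [Fintype V] {G : SimpleGraph V} {W : Type} [Group W]

/-- homomorphisms which agree on the generators are equal -/
theorem Rac.hom_ext (R : Rac G W) {P : Type} [Group P] {f g : W →* P} (h : ∀ v, f (R.s v) = g (R.s v)) : f = g :=
  MonoidHom.eq_of_eqOn_dense R.gen (by
    rintro _ ⟨v, rfl⟩
    exact h v)

theorem Rac.fg (R : Rac G W) : Group.FG W := by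
  classical
  refine ⟨⟨univ.image R.s, ?_⟩⟩
  rw [coe_image, coe_univ, Set.image_univ, R.gen]

theorem Rac.b_r (R : Rac G W) (U : Finset V) (w : W) (v : V) : R.b (R.r U w) v = if v ∈ U then R.b w v else 0 := by
  let p : Multiplicative (V → ZMod 2) →* Multiplicative (V → ZMod 2) :=
    { toFun := fun x => Multiplicative.ofAdd fun v => if v ∈ U then x.toAdd v else 0
      map_one' := by
        rw [← ofAdd_zero]
        congr 1
        funext v
        simp
      map_mul' := fun x y => by
        rw [← ofAdd_add]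
        congr 1
        funext v
        rw [Pi.add_apply]
        split_ifs
        · rfl
        · rw [add_zero] }
  have h : R.bh.comp (R.r U) = p.comp R.bh := R.hom_ext fun u => by
    apply Multiplicative.toAdd.injective
    funext v
    have h1 : R.b (R.r U (R.s u)) v = if v ∈ U then R.b (R.s u) v else 0 := by
      rw [R.r_s, R.b_s]
      by_cases hu : u ∈ U
      · rw [if_pos hu, R.b_s]
        by_cases h2 : u = v
        · subst h2
          rw [if_pos hu]
        · rw [if_neg h2, ite_self]
      · rw [if_neg hu, R.b_one]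
        by_cases h2 : u = v
        · subst h2
          rw [if_neg hu]
        · rw [if_neg h2, ite_self]
    exact h1
  exact congrFun (congrArg Multiplicative.toAdd (DFunLike.congr_fun h w)) v

/-- the start of the tower may be any normal subgroup of finite index in the kernel of the bits which is preserved by the
retractions -/
structure Lev0 (R : Rac G W) (Γ : Subgroup W) : Prop where
  normal : Γ.Normal
  fin : Γ.FiniteIndex
  bits : ∀ g ∈ Γ, ∀ v, R.b g v = 0
  ret : ∀ U : Finset V, ∀ g ∈ Γ, R.r U g ∈ Γ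

theorem Lev.lev0 {R : Rac G W} {Γ : Subgroup W} (h : Lev R Γ) : Lev0 R Γ := ⟨h.normal, h.fin, h.bits, h.ret⟩

theorem Lev0.nxt {R : Rac G W} {Γ : Subgroup W} (h : Lev0 R Γ) : Lev0 R (nxt Γ) := by
  have := h.normal
  have := h.fin
  have := R.fg
  exact ⟨inferInstance, nxt_finiteIndex Γ, fun g hg => h.bits g (nxt_le Γ hg), fun U g hg =>
    nxt_comap (R.r U) (fun x hx => h.ret U x hx) hg⟩

theorem Lev0.twr {R : Rac G W} {Γ : Subgroup W} (h : Lev0 R Γ) (m : ℕ) : Lev0 R (twr Γ m) := by
  induction m with
  | zero => exact h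
  | succ m ih => exact ih.nxt

theorem Lev.nxt {R : Rac G W} {Γ : Subgroup W} (h : Lev R Γ) : Lev R (nxt Γ) := by
  have h1 := h.lev0.nxt
  refine ⟨h1.normal, h1.fin, fun w => ?_, h1.bits, h1.ret⟩
  obtain ⟨k, hk⟩ := h.two w
  refine ⟨k + 1, ?_⟩
  rw [pow_succ, pow_mul]
  exact sq_mem_nxt hk

theorem Lev.twr {R : Rac G W} {Γ : Subgroup W} (h : Lev R Γ) (m : ℕ) : Lev R (twr Γ m) := by
  induction m with
  | zero => exact h
  | succ m ih => exact ih.nxt

theorem lev_ker (R : Rac G W) : Lev R R.bh.ker := by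
  refine ⟨inferInstance, inferInstance, fun w => ⟨1, ?_⟩, fun g hg v => ?_, fun U g hg => ?_⟩
  · rw [pow_one, MonoidHom.mem_ker, map_pow, sq]
    apply Multiplicative.toAdd.injective
    funext v
    exact CharTwo.add_self_eq_zero _
  · exact congrFun (congrArg Multiplicative.toAdd (MonoidHom.mem_ker.1 hg)) v
  · rw [MonoidHom.mem_ker]
    apply Multiplicative.toAdd.injective
    funext v
    have h1 := R.b_r U g v
    have h2 : R.b g v = 0 := congrFun (congrArg Multiplicative.toAdd (MonoidHom.mem_ker.1 hg)) v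
    rw [h2, ite_self] at h1
    exact h1

theorem T_eq_twr (R : Rac G W) (m : ℕ) : T R m = twr R.bh.ker m := by
  induction m with
  | zero => rfl
  | succ m ih =>
    change nxt (T R m) = nxt _
    rw [ih]

/-- BLOCK T1: the tower -/
theorem T_lev (R : Rac G W) (m : ℕ) : Lev R (T R m) := by
  rw [T_eq_twr]
  exact (lev_ker R).twr m

theorem T_anti (R : Rac G W) : Antitone (T R) := by
  have h : T R = twr R.bh.ker := funext (T_eq_twr R)
  rw [h]
  exact twr_anti _

/-- the right-angled Coxeter group of a graph (as a Coxeter group) -/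
noncomputable def racT (G : SimpleGraph V) : Rac G (RGrp G) where
  s := gen G
  sq v := (racg G).toCoxeterSystem.simple_mul_simple_self v
  comm u v h := by
    have h1 := (racg G).toCoxeterSystem.simple_mul_simple_pow u v
    have h2 : (racg G).M u v = 2 := by simp [racg, h, h.ne]
    rw [h2, sq] at h1
    have h3 := (racg G).toCoxeterSystem.simple_mul_simple_self u
    have h4 := (racg G).toCoxeterSystem.simple_mul_simple_self v
    change gen G u * gen G v * (gen G u * gen G v) = 1 at h1
    change gen G u * gen G u = 1 at h3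
    change gen G v * gen G v = 1 at h4
    calc gen G u * gen G v = gen G u * gen G v * (gen G u * gen G v) * (gen G u * gen G v)⁻¹ := by group
      _ = (gen G u * gen G v)⁻¹ := by rw [h1, one_mul]
      _ = (gen G v)⁻¹ * (gen G u)⁻¹ := by rw [mul_inv_rev]
      _ = gen G v * gen G u := by rw [inv_eq_of_mul_eq_one_left h3, inv_eq_of_mul_eq_one_left h4]
  gen := (racg G).toCoxeterSystem.subgroup_closure_range_simple
  lift P _ g h1 h2 := by
    classical
    have h3 : (racg G).IsLiftable g := by
      intro u v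
      by_cases huv : u = v
      · subst huv
        simp [racg, h1]
      · by_cases h4 : G.Adj u v
        · have h5 : (racg G).M u v = 2 := by simp [racg, h4, huv]
          rw [h5, sq]
          rw [mul_assoc, ← mul_assoc (g v), h2 v u h4.symm, mul_assoc, h1, mul_one, h1]
        · have h5 : (racg G).M u v = 0 := by simp [racg, h4, huv]
          rw [h5, pow_zero]
    exact ⟨(racg G).toCoxeterSystem.lift ⟨g, h3⟩, fun v => (racg G).toCoxeterSystem.lift_apply_simple h3 v⟩

/-- there is a right-angled Coxeter group -/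
theorem rac_ex (G : SimpleGraph V) : ∃ (W : Type) (_ : Group W), Nonempty (Rac G W) :=
  ⟨RGrp G, inferInstance, ⟨racT G⟩⟩

end Pool.Agent.S9

end
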