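import Pool.Agent.H71.TSG.M05
import Pool.Agent.H71.TSG.M08
import Pool.Agent.H71.TSG.M11
import Pool.Agent.H71.TSG.M12

/-! The parts of this file: H4.FC.AdjL, H4.Singer.FinHodge, H19.SR.Pair, H19.LG.Betti, H19.Cub.DropS, S9.F.Disc. -/

section

/-!
# Project FC: the adjoint of the boundary operator

Modelled on `adj_identity` in `Pool.Agent.H4.Singer.AdjId` (`adjId_summable`, `adjId_comp` are public).
Exchange the sums as there: the left hand side is
`∑_ρ ∑_{v ∈ ρ} ± ∑' x, conj (h (ρ.erase v) x) * c ρ x`. For fixed `ρ` with `c ρ ≠ 0` (so `ρ` is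
spherical) and `h' = h (ρ.erase v)`: for every `u ∈ par M ρ` the substitution `x ↦ x * π u` and
`anti_ext` give `∑' x, conj (h' x) c ρ x = eps u * ∑' x, conj (h' (x * π u)) c ρ x`; sum over `u ∈ parF`
and divide by `|parF|`: `∑' conj (h' x) c ρ x = (1 / |parF|) ∑' conj (altS M π ρ h' x) c ρ x`.
(`conj` of the real number `eps u` is itself.) For `c ρ = 0` both sides vanish.
-/

set_option autoImplicit false

open Finset

namespace Pool.Agent.H4.FC

open Pool.Agent.H4.Singer

private theorem adjL_one {V : Type} (M : CoxeterMatrix V)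
    {H : Type} [Group H] (π : M.Group →* H) (ρ : Finset V) (hρ : Sph M ρ) (f g : H → ℂ)
    (hf : Summable fun x => ‖f x‖ ^ 2) (hg : Summable fun x => ‖g x‖ ^ 2)
    (hanti : ∀ v ∈ ρ, ∀ x, g (x * π (M.simple v)) = - g x) :
    ∑' x, (starRingEnd ℂ) (altS M π ρ f x) * g x =
      ((parF M ρ).card : ℂ) * ∑' x, (starRingEnd ℂ) (f x) * g x := by
  have h1 : ∀ x, (starRingEnd ℂ) (altS M π ρ f x) * g x =
      ∑ u ∈ parF M ρ, (eps M u : ℂ) * ((starRingEnd ℂ) (f (x * π u)) * g x) := by
    intro x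
    unfold altS
    rw [map_sum, Finset.sum_mul]
    refine Finset.sum_congr rfl fun u _ => ?_
    rw [map_mul, map_intCast]
    ring
  have h2 : ∀ u : M.Group, Summable fun x => (starRingEnd ℂ) (f (x * π u)) * g x := by
    intro u
    exact adjId_summable (adjId_comp (Equiv.mulRight (π u)) hf) hg
  have h3 : ∀ u ∈ parF M ρ, ∑' x, (eps M u : ℂ) * ((starRingEnd ℂ) (f (x * π u)) * g x) =
      ∑' x, (starRingEnd ℂ) (f x) * g x := by
    intro u hu
    have hu' := (mem_parF hρ u).1 hu
    rw [← (Equiv.mulRight (π u)).tsum_eq fun x => (starRingEnd ℂ) (f x) * g x]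
    refine tsum_congr fun x => ?_
    rw [Equiv.coe_mulRight, anti_ext M ρ π g hanti u hu' x]
    ring
  rw [tsum_congr h1, Summable.tsum_finsetSum fun u _ => (h2 u).mul_left _,
    Finset.sum_congr rfl h3, Finset.sum_const, nsmul_eq_mul]

theorem adj_identityL {V : Type} [Fintype V] [DecidableEq V] (M : CoxeterMatrix V)
    {H : Type} [Group H] (π : M.Group →* H) (ν : V → ℕ) (h c : Finset V → H → ℂ)
    (hh : ∀ σ, Summable fun x => ‖h σ x‖ ^ 2) (hc : ∀ σ, Summable fun x => ‖c σ x‖ ^ 2)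
    (hsph : ∀ ρ, c ρ ≠ 0 → Sph M ρ)
    (hanti : ∀ ρ, ∀ v ∈ ρ, ∀ x, c ρ (x * π (M.simple v)) = - c ρ x) :
    ∑ τ : Finset V, ∑' x, (starRingEnd ℂ) (h τ x) *
        (∑ v ∈ τᶜ, (-1 : ℂ) ^ (τ.filter fun u => ν u < ν v).card * c (insert v τ) x) =
      ∑ ρ : Finset V, (1 / ((parF M ρ).card : ℂ)) * ∑' x, (starRingEnd ℂ)
        (∑ v ∈ ρ, (-1 : ℂ) ^ ((ρ.erase v).filter fun u => ν u < ν v).card *
          altS M π ρ (h (ρ.erase v)) x) * c ρ x := by
  -- the left hand side
  have h1 : ∀ τ : Finset V, ∑' ω, (starRingEnd ℂ) (h τ ω) *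
        (∑ v ∈ τᶜ, (-1 : ℂ) ^ (τ.filter fun u => ν u < ν v).card * c (insert v τ) ω) =
      ∑ v ∈ τᶜ, (-1 : ℂ) ^ (τ.filter fun u => ν u < ν v).card *
        ∑' ω, (starRingEnd ℂ) (h τ ω) * c (insert v τ) ω := by
    intro τ
    have e1 : ∀ ω, (starRingEnd ℂ) (h τ ω) *
        (∑ v ∈ τᶜ, (-1 : ℂ) ^ (τ.filter fun u => ν u < ν v).card * c (insert v τ) ω) =
        ∑ v ∈ τᶜ, (-1 : ℂ) ^ (τ.filter fun u => ν u < ν v).card *
          ((starRingEnd ℂ) (h τ ω) * c (insert v τ) ω) := by
      intro ω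
      rw [Finset.mul_sum]
      exact Finset.sum_congr rfl fun v _ => by ring
    rw [tsum_congr e1, Summable.tsum_finsetSum fun v _ => (adjId_summable (hh τ) (hc _)).mul_left _]
    exact Finset.sum_congr rfl fun v _ => tsum_mul_left
  -- the right hand side
  have h2 : ∀ ρ : Finset V, (1 / ((parF M ρ).card : ℂ)) * ∑' x, (starRingEnd ℂ)
        (∑ v ∈ ρ, (-1 : ℂ) ^ ((ρ.erase v).filter fun u => ν u < ν v).card *
          altS M π ρ (h (ρ.erase v)) x) * c ρ x =
      ∑ v ∈ ρ, (-1 : ℂ) ^ ((ρ.erase v).filter fun u => ν u < ν v).card *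
        ∑' x, (starRingEnd ℂ) (h (ρ.erase v) x) * c ρ x := by
    intro ρ
    by_cases hcρ : c ρ = 0
    · simp [hcρ]
    have hρ := hsph ρ hcρ
    have e1 : ∀ x, (starRingEnd ℂ)
        (∑ v ∈ ρ, (-1 : ℂ) ^ ((ρ.erase v).filter fun u => ν u < ν v).card *
          altS M π ρ (h (ρ.erase v)) x) * c ρ x =
        ∑ v ∈ ρ, (-1 : ℂ) ^ ((ρ.erase v).filter fun u => ν u < ν v).card *
          ((starRingEnd ℂ) (altS M π ρ (h (ρ.erase v)) x) * c ρ x) := by
      intro x
      rw [map_sum, Finset.sum_mul]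
      refine Finset.sum_congr rfl fun v _ => ?_
      rw [map_mul, map_pow, map_neg, map_one]
      ring
    have e3 : ∀ v, Summable fun x => (starRingEnd ℂ) (altS M π ρ (h (ρ.erase v)) x) * c ρ x := by
      intro v
      have e4 : (fun x => (starRingEnd ℂ) (altS M π ρ (h (ρ.erase v)) x) * c ρ x) = fun x =>
          ∑ u ∈ parF M ρ, (eps M u : ℂ) *
            ((starRingEnd ℂ) (h (ρ.erase v) (x * π u)) * c ρ x) := by
        funext x
        unfold altS
        rw [map_sum, Finset.sum_mul]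
        refine Finset.sum_congr rfl fun u _ => ?_
        rw [map_mul, map_intCast]
        ring
      rw [e4]
      refine summable_sum fun u _ => Summable.mul_left _ ?_
      exact adjId_summable (adjId_comp (Equiv.mulRight (π u)) (hh _)) (hc ρ)
    rw [tsum_congr e1, Summable.tsum_finsetSum fun v _ => (e3 v).mul_left _, Finset.mul_sum]
    refine Finset.sum_congr rfl fun v _ => ?_
    have hcard : ((parF M ρ).card : ℂ) ≠ 0 := by
      have := parF_card_pos hρ
      exact_mod_cast this.ne'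
    rw [tsum_mul_left, adjL_one M π ρ hρ (h (ρ.erase v)) (c ρ) (hh _) (hc ρ) (hanti ρ)]
    field_simp
  rw [Finset.sum_congr rfl fun τ _ => h1 τ, Finset.sum_congr rfl fun ρ _ => h2 ρ]
  rw [Finset.sum_sigma', Finset.sum_sigma']
  refine Finset.sum_bij' (fun p _ => ⟨insert p.2 p.1, p.2⟩) (fun p _ => ⟨p.1.erase p.2, p.2⟩)
    ?_ ?_ ?_ ?_ ?_
  · rintro ⟨τ, v⟩ hp
    simp
  · rintro ⟨ρ, v⟩ hp
    simp
  · rintro ⟨τ, v⟩ hp
    simp only [mem_sigma, mem_univ, mem_compl, true_and] at hp
    simp [Finset.erase_insert hp]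
  · rintro ⟨ρ, v⟩ hp
    simp only [mem_sigma, mem_univ, true_and] at hp
    simp [Finset.insert_erase hp]
  · rintro ⟨τ, v⟩ hp
    simp only [mem_sigma, mem_univ, mem_compl, true_and] at hp
    simp only [Finset.erase_insert hp]

end Pool.Agent.H4.FC

end

section

/-!
# Singer project: harmonic chains on finite sets
-/

set_option autoImplicit false
set_option linter.unusedSectionVars false

open Finset

namespace Pool.Agent.H4.Singer

variable {V C : Type} [DecidableEq V] [Fintype V] [DecidableEq C] {G : ColGraph V C}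

/-- Harmonic chains (kernel of `∂` and of the coboundary) inject into the homology. Proof: it
suffices that a harmonic chain `f = ∂ y`, `y ∈ Ch (i + 1)`, is zero (then
`finrank H + finrank Bc ≤ finrank Zc`). By `adj_identity` (with `h = f`, `c = y`)
`∑ |f τ ω|² = ∑_{τ, ω} conj (f τ ω) (∂ y) τ ω = 0`. -/
theorem harm_finrank_le {Ω : Type} [Fintype Ω] (X : InvAct G Ω) (ν : V → ℕ)
    (hν : Function.Injective ν) (i : ℕ) (H : Submodule ℂ (Finset V → Ω → ℂ))
    (hH : ∀ f ∈ H, f ∈ Zc ℂ X ν i ∧ ∀ ρ ω, G.Cl ρ → ρ.card = i + 1 →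
      ∑ v ∈ ρ, (sg ν v (ρ.erase v) : ℂ) * (f (ρ.erase v) ω - f (ρ.erase v) (X.s v ω)) = 0) :
    Module.finrank ℂ H ≤ bet ℂ X ν i := by
  have hbot : H ⊓ Bc ℂ X ν i = ⊥ := by
    rw [eq_bot_iff]
    rintro f ⟨hf, y, hy, hyf⟩
    obtain ⟨hy1, hy2⟩ := hy
    obtain ⟨-, hcoc⟩ := hH f hf
    have key := adj_identity X.s X.invol ν f y (fun σ => (hasSum_fintype _).summable)
      (fun σ => (hasSum_fintype _).summable) hy2
    have hl : ∀ τ ω, (∑ v ∈ τᶜ, (-1 : ℂ) ^ (τ.filter fun u => ν u < ν v).card * y (insert v τ) ω) =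
        f τ ω := by
      intro τ ω
      rw [← hyf, dl_apply]
      refine Finset.sum_congr rfl fun v _ => ?_
      unfold sg
      push_cast
      rfl
    have hr : ∀ ρ ω, (starRingEnd ℂ)
        (∑ v ∈ ρ, (-1 : ℂ) ^ ((ρ.erase v).filter fun u => ν u < ν v).card *
          (f (ρ.erase v) ω - f (ρ.erase v) (X.s v ω))) * y ρ ω = 0 := by
      intro ρ ω
      by_cases h0 : y ρ ω = 0
      · rw [h0, mul_zero]
      · obtain ⟨h1, h2⟩ := hy1 ρ ω h0
        have h3 := hcoc ρ ω h1 h2
        have h4 : (∑ v ∈ ρ, (-1 : ℂ) ^ ((ρ.erase v).filter fun u => ν u < ν v).card *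
          (f (ρ.erase v) ω - f (ρ.erase v) (X.s v ω))) = 0 := by
          rw [← h3]
          refine Finset.sum_congr rfl fun v _ => ?_
          unfold sg
          push_cast
          rfl
        rw [h4, map_zero, zero_mul]
    simp only [hl, hr, tsum_fintype, Finset.sum_const_zero, mul_zero] at key
    have hsq : ∀ z : ℂ, (starRingEnd ℂ) z * z = ((‖z‖ ^ 2 : ℝ) : ℂ) := by
      intro z
      rw [mul_comm, Complex.mul_conj, Complex.normSq_eq_norm_sq]
    simp only [hsq, ← Complex.ofReal_sum] at key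
    have key' : ∑ τ : Finset V, ∑ ω : Ω, ‖f τ ω‖ ^ 2 = 0 := by exact_mod_cast key
    rw [Submodule.mem_bot]
    funext τ ω
    have h1 := (Finset.sum_eq_zero_iff_of_nonneg
      (fun τ _ => Finset.sum_nonneg fun ω _ => sq_nonneg ‖f τ ω‖)).1 key' τ (mem_univ τ)
    have h2 := (Finset.sum_eq_zero_iff_of_nonneg (fun ω _ => sq_nonneg ‖f τ ω‖)).1 h1 ω (mem_univ ω)
    simpa using h2
  have hle : H ⊔ Bc ℂ X ν i ≤ Zc ℂ X ν i :=
    sup_le (fun f hf => (hH f hf).1) (Bc_le_Zc X ν hν i)
  have h1 := Submodule.finrank_sup_add_finrank_inf_eq H (Bc ℂ X ν i)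
  rw [hbot, finrank_bot, add_zero] at h1
  have h2 := Submodule.finrank_mono hle
  have h3 := bet_add (F := ℂ) X ν hν i
  omega

end Pool.Agent.H4.Singer

end

section

/-!
# Project SR, module M7: the pairing along the zig-zag, and Stokes
-/

set_option autoImplicit false
set_option linter.unusedSectionVars false

open Finset

namespace Pool.Agent.H19.SR

open Pool.Agent.H77.SW

variable {V : Type} [DecidableEq V] [Fintype V] {P : Type} [Group P] [Fintype P] {K : Type}
  [Field K] [CharP K 2]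

private theorem list_insert {G : SimpleGraph V} (D : PG G P) {C : Finset V} {v : V} (hv : v ∉ C)
    (hC : G.IsClique ((insert v C : Finset V) : Set V)) : ∀ L : List V, L.Nodup →
      ((L.filter fun u => u ∈ insert v C).map D.g).prod =
        ((L.filter fun u => u ∈ C).map D.g).prod * if v ∈ L then D.g v else 1
  | [], _ => by simp
  | x :: L, hL => by
    have hx : x ∉ L := (List.nodup_cons.1 hL).1
    have ih := list_insert D hv hC L (List.nodup_cons.1 hL).2
    by_cases hxv : x = v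
    · subst hxv
      rw [List.filter_cons_of_pos (by simp), List.filter_cons_of_neg (by simpa using hv)]
      rw [List.map_cons, List.prod_cons, ih, if_neg hx, mul_one, if_pos (List.mem_cons_self)]
      have h3 : Commute (D.g x) ((L.filter fun u => u ∈ C).map D.g).prod := by
        refine Commute.list_prod_right _ _ fun y hy => ?_
        obtain ⟨u, hu, rfl⟩ := List.mem_map.1 hy
        have hu' : u ∈ C := by simpa using (List.mem_filter.1 hu).2
        have hux : x ≠ u := fun h => hv (h ▸ hu')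
        refine D.comm x u (hC ?_ ?_ hux)
        · simp
        · simp [hu']
      exact h3
    · have h4 : (v ∈ x :: L) ↔ v ∈ L := by
        rw [List.mem_cons]
        constructor
        · rintro (h | h)
          · exact absurd h.symm hxv
          · exact h
        · exact Or.inr
      have h5 : (if v ∈ x :: L then D.g v else 1) = if v ∈ L then D.g v else 1 := by
        by_cases h : v ∈ L
        · rw [if_pos h, if_pos (h4.2 h)]
        · rw [if_neg h, if_neg (fun h' => h (h4.1 h'))]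
      rw [h5]
      by_cases hxC : x ∈ C
      · rw [List.filter_cons_of_pos (by simp [hxC]), List.filter_cons_of_pos (by simpa using hxC),
          List.map_cons, List.prod_cons, List.map_cons, List.prod_cons, ih, mul_assoc]
      · rw [List.filter_cons_of_neg (by simp [hxC, hxv]), List.filter_cons_of_neg
          (by simpa using hxC), ih]

/-- `gp (B - v) g_v = gp B` for a clique `B` -/
private theorem gp_erase_mul {G : SimpleGraph V} (D : PG G P) {B : Finset V} {v : V} (hv : v ∈ B)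
    (hB : G.IsClique (B : Set V)) : gp D.g (B.erase v) * D.g v = gp D.g B := by
  have hB' : G.IsClique ((insert v (B.erase v) : Finset V) : Set V) := by
    rw [insert_erase hv]
    exact hB
  have h := list_insert D (notMem_erase v B) hB' (univ : Finset V).toList (Finset.nodup_toList _)
  rw [if_pos (Finset.mem_toList.2 (mem_univ v))] at h
  rw [insert_erase hv] at h
  exact h.symm

/-- `g_v gp (B - v) = gp B` for a clique `B` -/
private theorem mul_gp_erase {G : SimpleGraph V} (D : PG G P) {B : Finset V} {v : V} (hv : v ∈ B)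
    (hB : G.IsClique (B : Set V)) : D.g v * gp D.g (B.erase v) = gp D.g B := by
  have h3 : Commute (D.g v) (gp D.g (B.erase v)) := by
    refine Commute.list_prod_right _ _ fun y hy => ?_
    obtain ⟨u, hu, rfl⟩ := List.mem_map.1 hy
    have hu' : u ∈ B.erase v := by simpa using (List.mem_filter.1 hu).2
    have hux : v ≠ u := fun h => (mem_erase.1 hu').1 h.symm
    exact D.comm v u (hB hv (mem_erase.1 hu').2 hux)
  rw [← gp_erase_mul D hv hB]
  exact h3

private theorem clique_sub {G : SimpleGraph V} {A B : Finset V} (h : G.IsClique (A : Set V))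
    (hB : B ⊆ A) : G.IsClique (B : Set V) := h.subset (by exact_mod_cast hB)

end Pool.Agent.H19.SR

end

section

/-! # Project LG: Betti

The boundaries are cycles, and the boundary operator on the chains of degree `i + 1` has the cycles as its kernel
and the boundaries as its image.
-/

set_option autoImplicit false
set_option linter.unusedSectionVars false

open Finset Filter Topology

namespace Pool.Agent.H19.LG

open Pool.Agent.H19.Cub Pool.Agent.H4.Singer Pool.Agent.H85.Fold

private theorem lgBetti_tdl_app {V : Type} [DecidableEq V] [Fintype V] (K : Type) [Field K]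
    {D X : Type} (ν : V → ℕ) (f : Finset V → X → D → K) (τ : Finset V)
    (x : X) (d : D) : tdl K ν f τ x d =
      ∑ v ∈ τᶜ, (sg ν v τ : K) * f (insert v τ) x d := by
  show (∑ v ∈ τᶜ, (sg ν v τ : K) • f (insert v τ) x) d = _
  rw [Finset.sum_apply]
  exact Finset.sum_congr rfl fun v _ => rfl

private theorem lgBetti_tdl_tdl {V : Type} [DecidableEq V] [Fintype V] (K : Type) [Field K]
    {D X : Type} (ν : V → ℕ) (hν : Function.Injective ν)
    (f : Finset V → X → D → K) : tdl K ν (tdl K ν f) = 0 := by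
  funext τ x d
  have h1 := congrFun (congrFun
    (dl_dl (F := K) ν hν (fun σ (x : X) => f σ x d)) τ) x
  rw [dl_apply] at h1
  rw [lgBetti_tdl_app]
  rw [Pi.zero_apply, Pi.zero_apply, Pi.zero_apply]
  rw [Pi.zero_apply, Pi.zero_apply] at h1
  rw [← h1]
  refine Finset.sum_congr rfl fun v _ => ?_
  rw [lgBetti_tdl_app, dl_apply]

private theorem lgBetti_SB_le {V : Type} [DecidableEq V] [Fintype V] (K : Type) [Field K]
    {D X : Type} [Fintype D] [DecidableEq D] (G : SimpleGraph V) (Y : X → Finset V)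
    (B : V → Matrix D D K) (s : V → X → X) (ν : V → ℕ)
    (hν : Function.Injective ν) (i : ℕ) : SB K G Y B s ν i ≤ SZ K G Y B s ν i := by
  rintro f ⟨y, hy, rfl⟩
  obtain ⟨hy1, hy2⟩ := hy
  refine ⟨⟨?_, ?_⟩, LinearMap.mem_ker.mpr (lgBetti_tdl_tdl K ν hν y)⟩
  · intro τ x hne
    have h' : ∑ v ∈ τᶜ, (sg ν v τ : K) • y (insert v τ) x ≠ 0 := hne
    obtain ⟨w, hw, hw'⟩ := Finset.exists_ne_zero_of_sum_ne_zero h'
    have hne' : y (insert w τ) x ≠ 0 := by
      intro h0
      exact hw' (by rw [h0, smul_zero])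
    obtain ⟨h0, h1, h2⟩ := hy1 _ _ hne'
    refine ⟨(Finset.subset_insert _ _).trans h0,
      fun a ha b hb hab => h1 a (Finset.mem_insert_of_mem ha) b
      (Finset.mem_insert_of_mem hb) hab, ?_⟩
    rw [Finset.card_insert_of_notMem (Finset.mem_compl.mp hw)] at h2
    omega
  · intro τ v hv x
    show ∑ w ∈ τᶜ, (sg ν w τ : K) • y (insert w τ) (s v x) =
      -(B v).mulVec (∑ w ∈ τᶜ, (sg ν w τ : K) • y (insert w τ) x)
    rw [Matrix.mulVec_sum, ← Finset.sum_neg_distrib]
    refine Finset.sum_congr rfl fun w _ => ?_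
    rw [hy2 _ v (Finset.mem_insert_of_mem hv) x, Matrix.mulVec_smul, smul_neg]

theorem bS_add {V : Type} [DecidableEq V] [Fintype V] (K : Type) [Field K] {D X : Type}
    [Fintype D] [DecidableEq D] [Fintype X] (G : SimpleGraph V) (Y : X → Finset V)
    (B : V → Matrix D D K) (s : V → X → X) (hs : IsSpec G Y s) (ν : V → ℕ)
    (hν : Function.Injective ν) (i : ℕ) :
    bS K G Y B s ν i + Module.finrank K (SCh K G Y B s (i + 1)) =
      Module.finrank K (SZ K G Y B s ν i) + Module.finrank K (SZ K G Y B s ν (i + 1)) := by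
  have h1 := LinearMap.finrank_range_add_finrank_ker
    ((tdl K ν).domRestrict (SCh K G Y B s (i + 1)))
  have h2 : LinearMap.range ((tdl K ν).domRestrict (SCh K G Y B s (i + 1))) =
      SB K G Y B s ν i := by
    rw [LinearMap.range_domRestrict]
    rfl
  have h3 : Module.finrank K (LinearMap.ker ((tdl K ν).domRestrict (SCh K G Y B s (i + 1)))) =
      Module.finrank K (SZ K G Y B s ν (i + 1)) := by
    have h4 : LinearMap.ker ((tdl K ν).domRestrict (SCh K G Y B s (i + 1))) =
        (LinearMap.ker (tdl K ν)).comap (SCh K G Y B s (i + 1)).subtype := by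
      ext z
      simp [LinearMap.mem_ker]
    rw [h4, ← Submodule.finrank_map_subtype_eq, Submodule.map_comap_subtype]
    rfl
  have h5 : Module.finrank K (SB K G Y B s ν i) ≤ Module.finrank K (SZ K G Y B s ν i) :=
    Submodule.finrank_mono (lgBetti_SB_le K G Y B s ν hν i)
  rw [h2, h3] at h1
  unfold bS
  omega

end Pool.Agent.H19.LG

end

section

/-!
# Project MC: twisted Betti numbers modulo a prime

This is `DropL` of project FC of helper4 with labels `Y x` depending on the point `x`. The chains and the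
cycles are kernels of integer matrices which do not depend on the field.
-/

set_option autoImplicit false
set_option linter.unusedSectionVars false

open Finset

namespace Pool.Agent.H19.Cub

open Pool.Agent.H85.Fold Pool.Agent.H85.Fold2
open Pool.Agent.H85.Fold.ModM

section Ops

variable {V D Ω : Type} [DecidableEq V] [Fintype V] [Fintype D] [DecidableEq D]

open Classical in
/-- the equations of the cycles -/
noncomputable def Op1S (G : SimpleGraph V) (Y : Ω → Finset V) (A : V → Matrix D D ℤ)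
    (s : V → Ω → Ω) (ν : V → ℕ)
    (i : ℕ) (R : Type) [CommRing R] : ((Finset V × Ω × D) → R) →ₗ[R]
      (((Finset V × Ω × D) ⊕ (V × Finset V × Ω × D)) ⊕ (Finset V × Ω × D) → R) where
  toFun x := Sum.elim (Sum.elim (fun p => if p.1 ⊆ Y p.2.1 ∧ Cl G p.1 ∧ p.1.card = i then 0 else x p)
    (fun q => if q.1 ∈ q.2.1 then
      Lop R (A q.1) (s q.1) 1 (cur R x q.2.1) q.2.2.1 q.2.2.2 else 0))
    (fun p => tdR R ν (cur R x) p.1 p.2.1 p.2.2)
  map_add' x y := by
    funext j
    rcases j with (p | q) | p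
    · by_cases h : p.1 ⊆ Y p.2.1 ∧ Cl G p.1 ∧ p.1.card = i <;> simp [h]
    · by_cases h : q.1 ∈ q.2.1 <;> simp [h]
    · simp
  map_smul' r x := by
    funext j
    rcases j with (p | q) | p
    · by_cases h : p.1 ⊆ Y p.2.1 ∧ Cl G p.1 ∧ p.1.card = i <;> simp [h]
    · by_cases h : q.1 ∈ q.2.1 <;> simp [h]
    · simp

theorem Op1S_cast (G : SimpleGraph V) (Y : Ω → Finset V) (A : V → Matrix D D ℤ) (s : V → Ω → Ω)
    (ν : V → ℕ) (i : ℕ) (R : Type) [CommRing R] (x : (Finset V × Ω × D) → ℤ)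
    (j : ((Finset V × Ω × D) ⊕ (V × Finset V × Ω × D)) ⊕ (Finset V × Ω × D)) :
    Op1S G Y A s ν i R (fun k => (x k : R)) j = ((Op1S G Y A s ν i ℤ x j : ℤ) : R) := by
  rcases j with (p | q) | p
  · by_cases h : p.1 ⊆ Y p.2.1 ∧ Cl G p.1 ∧ p.1.card = i <;> simp [Op1S, h]
  · by_cases h : q.1 ∈ q.2.1
    · simp only [Op1S, LinearMap.coe_mk, AddHom.coe_mk, Sum.elim_inl, Sum.elim_inr, h, if_true]
      have := congrFun (congrFun (Lop_cast R (A q.1) (s q.1) 1 (cur ℤ x q.2.1)) q.2.2.1) q.2.2.2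
      exact this
    · simp [Op1S, h]
  · exact tdR_cast R ν (cur ℤ x) p.1 p.2.1 p.2.2

theorem ker_Op1S (G : SimpleGraph V) (Y : Ω → Finset V) (A : V → Matrix D D ℤ) (s : V → Ω → Ω)
    (ν : V → ℕ) (i : ℕ) (K : Type) [Field K] :
    (LinearMap.ker (Op1S G Y A s ν i K)).map (cur K).toLinearMap = SZ K G Y (mc K A) s ν i := by
  ext f
  constructor
  · rintro ⟨x, hx, rfl⟩
    have hx' : Op1S G Y A s ν i K x = 0 := hx
    refine ⟨⟨fun σ ω h => ?_, fun σ v hv ω => ?_⟩, ?_⟩
    · by_contra hc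
      apply h
      funext d
      have h1 := congrFun hx' (Sum.inl (Sum.inl (σ, ω, d)))
      simp only [Op1S, LinearMap.coe_mk, AddHom.coe_mk, Sum.elim_inl, Pi.zero_apply] at h1
      rw [if_neg hc] at h1
      exact h1
    · funext d
      have h1 := congrFun hx' (Sum.inl (Sum.inr (v, σ, ω, d)))
      simp only [Op1S, LinearMap.coe_mk, AddHom.coe_mk, Sum.elim_inl, Sum.elim_inr,
        Pi.zero_apply] at h1
      rw [if_pos hv, Lop_apply, Pi.add_apply, Int.cast_one, one_smul] at h1
      exact eq_neg_of_add_eq_zero_left h1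
    · refine (LinearMap.mem_ker).2 ?_
      funext τ ω d
      exact congrFun hx' (Sum.inr (τ, ω, d))
  · rintro ⟨⟨h1, h2⟩, h3⟩
    refine ⟨(cur K).symm f, ?_, (cur K).apply_symm_apply f⟩
    refine (LinearMap.mem_ker).2 ?_
    funext j
    rcases j with (p | q) | p
    · simp only [Op1S, LinearMap.coe_mk, AddHom.coe_mk, Sum.elim_inl, Pi.zero_apply]
      split_ifs with h
      · rfl
      · by_contra hc
        exact h (h1 p.1 p.2.1 (fun h0 => hc (congrFun h0 p.2.2)))
    · simp only [Op1S, LinearMap.coe_mk, AddHom.coe_mk, Sum.elim_inl, Sum.elim_inr,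
        Pi.zero_apply]
      split_ifs with h
      · rw [Lop_apply, Pi.add_apply, Int.cast_one, one_smul]
        have := h2 q.2.1 q.1 h q.2.2.1
        have h4 := congrFun this q.2.2.2
        rw [Pi.neg_apply] at h4
        exact add_eq_zero_iff_eq_neg.2 h4
      · rfl
    · have h4 : tdl K ν f = 0 := h3
      exact congrFun (congrFun (congrFun h4 p.1) p.2.1) p.2.2

theorem Op1S_bound (G : SimpleGraph V) (Y : Ω → Finset V) (A : V → Matrix D D ℤ) (s : V → Ω → Ω)
    (ν : V → ℕ) (i : ℕ) (x : (Finset V × Ω × D) → ℤ) (hx : ∀ k, |x k| ≤ 1)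
    (j : ((Finset V × Ω × D) ⊕ (V × Finset V × Ω × D)) ⊕ (Finset V × Ω × D)) :
    |Op1S G Y A s ν i ℤ x j| ≤ 1 + bdA A + (Fintype.card V : ℤ) := by
  have h0 := bdA_nonneg A
  have h1 : (0 : ℤ) ≤ (Fintype.card V : ℤ) := by positivity
  rcases j with (p | q) | p
  · simp only [Op1S, LinearMap.coe_mk, AddHom.coe_mk, Sum.elim_inl]
    split_ifs
    · simp only [abs_zero]
      linarith
    · linarith [hx p]
  · simp only [Op1S, LinearMap.coe_mk, AddHom.coe_mk, Sum.elim_inl, Sum.elim_inr]
    split_ifs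
    · have := Lop_bound A q.1 (s q.1) 1 (by simp) (cur ℤ x q.2.1) 1
        (fun ω d => hx (q.2.1, ω, d)) q.2.2.1 q.2.2.2
      linarith
    · simp only [abs_zero]
      linarith
  · have : |tdR ℤ ν (cur ℤ x) p.1 p.2.1 p.2.2| ≤ (Fintype.card V : ℤ) * 1 :=
      tdR_bound ν (cur ℤ x) 1 (fun σ ω d => hx (σ, ω, d)) p.1 p.2.1 p.2.2
    have h2 : |Op1S G Y A s ν i ℤ x (Sum.inr p)| ≤ (Fintype.card V : ℤ) * 1 := this
    linarith

end Ops

open Classical in
/-- the equations of the chains -/
private noncomputable def drops_Op0 {V D Ω : Type} [DecidableEq V] [Fintype V] [Fintype D]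
    [DecidableEq D] (G : SimpleGraph V) (Y : Ω → Finset V) (A : V → Matrix D D ℤ)
    (s : V → Ω → Ω) (i : ℕ) (R : Type) [CommRing R] : ((Finset V × Ω × D) → R) →ₗ[R]
      (((Finset V × Ω × D) ⊕ (V × Finset V × Ω × D)) ⊕ (Finset V × Ω × D) → R) where
  toFun x := Sum.elim (Sum.elim (fun p => if p.1 ⊆ Y p.2.1 ∧ Cl G p.1 ∧ p.1.card = i then 0 else x p)
    (fun q => if q.1 ∈ q.2.1 then
      Lop R (A q.1) (s q.1) 1 (cur R x q.2.1) q.2.2.1 q.2.2.2 else 0))
    (fun _ => 0)
  map_add' x y := by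
    funext j
    rcases j with (p | q) | p
    · by_cases h : p.1 ⊆ Y p.2.1 ∧ Cl G p.1 ∧ p.1.card = i <;> simp [h]
    · by_cases h : q.1 ∈ q.2.1 <;> simp [h]
    · simp
  map_smul' r x := by
    funext j
    rcases j with (p | q) | p
    · by_cases h : p.1 ⊆ Y p.2.1 ∧ Cl G p.1 ∧ p.1.card = i <;> simp [h]
    · by_cases h : q.1 ∈ q.2.1 <;> simp [h]
    · simp

private theorem drops_Op0_cast {V D Ω : Type} [DecidableEq V] [Fintype V] [Fintype D]
    [DecidableEq D] (G : SimpleGraph V) (Y : Ω → Finset V) (A : V → Matrix D D ℤ) (s : V → Ω → Ω)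
    (i : ℕ) (R : Type) [CommRing R] (x : (Finset V × Ω × D) → ℤ)
    (j : ((Finset V × Ω × D) ⊕ (V × Finset V × Ω × D)) ⊕ (Finset V × Ω × D)) :
    drops_Op0 G Y A s i R (fun k => (x k : R)) j = ((drops_Op0 G Y A s i ℤ x j : ℤ) : R) := by
  rcases j with (p | q) | p
  · by_cases h : p.1 ⊆ Y p.2.1 ∧ Cl G p.1 ∧ p.1.card = i <;> simp [drops_Op0, h]
  · by_cases h : q.1 ∈ q.2.1
    · simp only [drops_Op0, LinearMap.coe_mk, AddHom.coe_mk, Sum.elim_inl, Sum.elim_inr, h, if_true]
      have := congrFun (congrFun (Lop_cast R (A q.1) (s q.1) 1 (cur ℤ x q.2.1)) q.2.2.1) q.2.2.2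
      exact this
    · simp [drops_Op0, h]
  · simp [drops_Op0]

private theorem drops_ker {V D Ω : Type} [DecidableEq V] [Fintype V] [Fintype D]
    [DecidableEq D] (G : SimpleGraph V) (Y : Ω → Finset V) (A : V → Matrix D D ℤ) (s : V → Ω → Ω)
    (i : ℕ) (K : Type) [Field K] :
    (LinearMap.ker (drops_Op0 G Y A s i K)).map (cur K).toLinearMap =
      SCh K G Y (mc K A) s i := by
  ext f
  constructor
  · rintro ⟨x, hx, rfl⟩
    have hx' : drops_Op0 G Y A s i K x = 0 := hx
    refine ⟨fun σ ω h => ?_, fun σ v hv ω => ?_⟩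
    · by_contra hc
      apply h
      funext d
      have h1 := congrFun hx' (Sum.inl (Sum.inl (σ, ω, d)))
      simp only [drops_Op0, LinearMap.coe_mk, AddHom.coe_mk, Sum.elim_inl, Pi.zero_apply] at h1
      rw [if_neg hc] at h1
      exact h1
    · funext d
      have h1 := congrFun hx' (Sum.inl (Sum.inr (v, σ, ω, d)))
      simp only [drops_Op0, LinearMap.coe_mk, AddHom.coe_mk, Sum.elim_inl, Sum.elim_inr,
        Pi.zero_apply] at h1
      rw [if_pos hv, Lop_apply, Pi.add_apply, Int.cast_one, one_smul] at h1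
      exact eq_neg_of_add_eq_zero_left h1
  · rintro ⟨h1, h2⟩
    refine ⟨(cur K).symm f, ?_, (cur K).apply_symm_apply f⟩
    refine (LinearMap.mem_ker).2 ?_
    funext j
    rcases j with (p | q) | p
    · simp only [drops_Op0, LinearMap.coe_mk, AddHom.coe_mk, Sum.elim_inl, Pi.zero_apply]
      split_ifs with h
      · rfl
      · by_contra hc
        exact h (h1 p.1 p.2.1 (fun h0 => hc (congrFun h0 p.2.2)))
    · simp only [drops_Op0, LinearMap.coe_mk, AddHom.coe_mk, Sum.elim_inl, Sum.elim_inr,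
        Pi.zero_apply]
      split_ifs with h
      · rw [Lop_apply, Pi.add_apply, Int.cast_one, one_smul]
        have := h2 q.2.1 q.1 h q.2.2.1
        have h4 := congrFun this q.2.2.2
        rw [Pi.neg_apply] at h4
        exact add_eq_zero_iff_eq_neg.2 h4
      · rfl
    · rfl

/-- the chains and the cycles are kernels of integer matrices with bounded rows -/
theorem exists_matsS {V D : Type} [DecidableEq V] [Fintype V] [Fintype D] [DecidableEq D]
    (G : SimpleGraph V) (A : V → Matrix D D ℤ) (ν : V → ℕ) (i : ℕ) :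
    ∃ C R : ℕ, 1 ≤ C ∧ ∀ (Ω : Type) [Fintype Ω] (Y : Ω → Finset V) (s : V → Ω → Ω),
      ∃ (m n : Type) (_ : Fintype m) (_ : Fintype n) (A₀ A₁ : Matrix m n ℤ),
        Fintype.card m ≤ R * Fintype.card Ω ∧
        (∀ j, ∑ k, |A₁ j k| ≤ (C : ℤ)) ∧
        ∀ (K : Type) [Field K],
          Module.finrank K (SCh K G Y (mc K A) s i) + (A₀.map (Int.cast : ℤ → K)).rank =
            Fintype.card n ∧
          Module.finrank K (SZ K G Y (mc K A) s ν i) + (A₁.map (Int.cast : ℤ → K)).rank =
            Fintype.card n := by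
  classical
  have hnn := bdA_nonneg A
  have hC1 : 0 ≤ 1 + bdA A + (Fintype.card V : ℤ) := by positivity
  refine ⟨(1 + bdA A + (Fintype.card V : ℤ)).toNat + 1,
    (Fintype.card (Finset V) * Fintype.card D) * (2 + Fintype.card V), by omega, ?_⟩
  intro Ω _ Y s
  have hcast : (((1 + bdA A + (Fintype.card V : ℤ)).toNat + 1 : ℕ) : ℤ) =
      (1 + bdA A + (Fintype.card V : ℤ)) + 1 := by
    rw [Nat.cast_add, Int.toNat_of_nonneg hC1, Nat.cast_one]
  refine ⟨((Finset V × Ω × D) ⊕ (V × Finset V × Ω × D)) ⊕ (Finset V × Ω × D),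
    Finset V × Ω × D, inferInstance, inferInstance,
    LinearMap.toMatrix' (drops_Op0 G Y A s i ℤ),
    LinearMap.toMatrix' (Op1S G Y A s ν i ℤ), ?_, ?_, ?_⟩
  · simp only [Fintype.card_sum, Fintype.card_prod]
    apply le_of_eq
    ring
  · intro j
    rw [hcast]
    refine (row_bound _ _ (fun x hx j => Op1S_bound G Y A s ν i x hx j) j).trans ?_
    linarith
  · intro K _
    refine ⟨?_, ?_⟩
    · rw [rank_eq (fun R _ => drops_Op0 G Y A s i R)
          (fun R _ x j => drops_Op0_cast G Y A s i R x j) K,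
        ← drops_ker G Y A s i K, LinearEquiv.finrank_map_eq, add_comm,
        LinearMap.finrank_range_add_finrank_ker, Module.finrank_fintype_fun_eq_card]
    · rw [rank_eq (fun R _ => Op1S G Y A s ν i R)
          (fun R _ x j => Op1S_cast G Y A s ν i R x j) K,
        ← ker_Op1S G Y A s ν i K, LinearEquiv.finrank_map_eq, add_comm,
        LinearMap.finrank_range_add_finrank_ker, Module.finrank_fintype_fun_eq_card]

end Pool.Agent.H19.Cub

end

section

/-!
# Project S9, block F: discs (balls) and Stokes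
-/

set_option autoImplicit false
set_option linter.unusedSectionVars false

open Finset

namespace Pool.Agent.S9

variable {V : Type} [DecidableEq V] [Fintype V] {G : SimpleGraph V} {W : Type} [Group W]

/-- The flag complex of `G` is a homology sphere or a homology ball of dimension `n - 1` over the field of two elements
and a homology manifold with boundary; the cliques in the boundary are the `s` with `B s`. -/
structure IsDisc (G : SimpleGraph V) (n : ℕ) (B : Finset V → Prop) : Prop where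
  clique : ∀ s, B s → G.IsClique (s : Set V)
  down : ∀ s t, B s → t ⊆ s → B t
  card_le : ∀ s : Finset V, G.IsClique (s : Set V) → s.card ≤ n
  facet : ∀ s : Finset V, G.IsClique (s : Set V) → ∃ t : Finset V, s ⊆ t ∧
    G.IsClique (t : Set V) ∧ t.card = n
  low : ∀ s : Finset V, G.IsClique (s : Set V) → ∀ j < n, ∀ f : Finset V → ZMod 2,
    (∀ t, f t ≠ 0 → G.IsClique (t : Set V) ∧ s ⊆ t ∧ t.card = j) →
    (∀ t, s ⊆ t → ∑ v ∈ tᶜ, f (insert v t) = 0) →
    ∃ u : Finset V → ZMod 2, (∀ t, u t ≠ 0 → G.IsClique (t : Set V) ∧ s ⊆ t ∧ t.card = j + 1) ∧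
      ∀ t, s ⊆ t → ∑ v ∈ tᶜ, u (insert v t) = f t
  top : ∀ s : Finset V, G.IsClique (s : Set V) → ¬ B s → ∀ f : Finset V → ZMod 2,
    (∀ t, f t ≠ 0 → G.IsClique (t : Set V) ∧ s ⊆ t ∧ t.card = n) →
    ((∀ t, s ⊆ t → ∑ v ∈ tᶜ, f (insert v t) = 0) ↔
      ∃ c, ∀ t : Finset V, G.IsClique (t : Set V) → s ⊆ t → t.card = n → f t = c)
  bot : ∀ s : Finset V, B s → ∀ f : Finset V → ZMod 2,
    (∀ t, f t ≠ 0 → G.IsClique (t : Set V) ∧ s ⊆ t ∧ t.card = n) →
    (∀ t, s ⊆ t → ∑ v ∈ tᶜ, f (insert v t) = 0) → f = 0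

variable (R : Rac G W)

/-- **Stokes for discs** -/
theorem stokesD {n : ℕ} {B : Finset V → Prop} (hS : IsDisc G n B) {Γ : Subgroup W} {F : Finset W}
    (hF : IsTr Γ F) (hb : ∀ g ∈ Γ, ∀ v, R.b g v = 0) {M : Type} [AddCommGroup M]
    (hM : ∀ y : M, y + y = 0) (ξ : Finset V → W → M)
    (hξ : ∀ B, ∀ g ∈ Γ, ∀ w, ξ B (g * w) = ξ B w) (hB : ∀ s, B s → ∀ w, ξ s w = 0) :
    INT G R F n (fun A w => ∑ v ∈ A, (ξ (A.erase v) w + ξ (A.erase v) (w * R.s v))) = 0 := by
  classical
  unfold INT
  have h1 : ∀ A : Finset V, ∑ p ∈ bs R F A, ∑ v ∈ A, (ξ (A.erase v) p +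
      ξ (A.erase v) (p * R.s v)) = ∑ v ∈ A, ∑ p ∈ bs R F (A.erase v), ξ (A.erase v) p := by
    intro A
    rw [sum_comm]
    refine sum_congr rfl fun v hv => ?_
    rw [sum_bs R hF hb (hξ _) (notMem_erase v A), insert_erase hv]
  rw [sum_congr rfl fun A _ => h1 A, sum_sigma']
  have h2 : (∑ x ∈ ((univ : Finset (Finset V)).filter (fun A : Finset V =>
        G.IsClique (A : Set V) ∧ A.card = n)).sigma (fun A : Finset V => A),
        (∑ p ∈ bs R F (x.1.erase x.2), ξ (x.1.erase x.2) p : M)) =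
      ∑ B : Finset V, ∑ v ∈ Bᶜ.filter (fun v => G.IsClique ((insert v B : Finset V) : Set V) ∧
        (insert v B).card = n), ∑ p ∈ bs R F B, ξ B p := by
    conv_rhs => rw [sum_sigma']
    refine sum_bij' (fun x _ => ⟨x.1.erase x.2, x.2⟩) (fun x _ => ⟨insert x.2 x.1, x.2⟩)
      ?_ ?_ ?_ ?_ ?_
    · rintro ⟨A, v⟩ h
      simp only [mem_filter, mem_sigma, mem_univ, true_and, mem_compl] at h ⊢
      refine ⟨notMem_erase _ _, ?_⟩
      rw [insert_erase h.2]
      exact h.1
    · rintro ⟨A, v⟩ h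
      simp only [mem_filter, mem_sigma, mem_univ, true_and, mem_compl] at h ⊢
      exact ⟨h.2, mem_insert_self _ _⟩
    · rintro ⟨A, v⟩ h
      simp only [mem_filter, mem_sigma, mem_univ, true_and] at h
      simp only [insert_erase h.2]
    · rintro ⟨A, v⟩ h
      simp only [mem_filter, mem_sigma, mem_univ, true_and, mem_compl] at h
      simp only [erase_insert h.1]
    · rintro ⟨A, v⟩ h
      rfl
  rw [h2]
  refine sum_eq_zero fun D _ => ?_
  by_cases hD : B D
  · refine sum_eq_zero fun v _ => sum_eq_zero fun p _ => hB D hD p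
  rw [sum_const]
  have h3 : ((Dᶜ.filter (fun v => G.IsClique ((insert v D : Finset V) : Set V) ∧
        (insert v D).card = n)).card : ZMod 2) = 0 := by
    by_cases hD' : G.IsClique (D : Set V)
    · have h4 := (hS.top D hD' hD (fun t => if G.IsClique (t : Set V) ∧ D ⊆ t ∧ t.card = n then 1
        else 0) (fun t ht => by
          by_contra h5
          exact ht (if_neg h5))).2 ⟨1, fun t h5 h6 h7 => if_pos ⟨h5, h6, h7⟩⟩ D Subset.rfl
      rw [card_eq_sum_ones, Nat.cast_sum, sum_filter]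
      refine Eq.trans (sum_congr rfl fun v _ => ?_) h4
      by_cases h5 : G.IsClique ((insert v D : Finset V) : Set V) ∧ (insert v D).card = n
      · rw [if_pos h5, if_pos ⟨h5.1, subset_insert _ _, h5.2⟩]
        exact Nat.cast_one
      · rw [if_neg h5, if_neg (fun h6 => h5 ⟨h6.1, h6.2.2⟩)]
    · rw [filter_eq_empty_iff.2, card_empty, Nat.cast_zero]
      intro v _ h4
      exact hD' (h4.1.subset (by exact_mod_cast subset_insert v D))
  have h4 : Even (Dᶜ.filter (fun v => G.IsClique ((insert v D : Finset V) : Set V) ∧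
        (insert v D).card = n)).card := by
    rw [even_iff_two_dvd]
    exact (ZMod.natCast_eq_zero_iff _ _).1 h3
  obtain ⟨m, hm⟩ := h4
  rw [hm, add_smul]
  exact hM _

end Pool.Agent.S9

end
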