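import Pool.Agent.H71.TSG.M01
import Pool.Agent.H71.TSG.M04
import Pool.Agent.H71.TSG.M07

/-! The parts of this file: H19.LI.VnE, H77.SW.Lower, H77.SW.Cover, H77.SW.Ext, S9.Cof, S9.CofB, S9.GInd, S9.GAct. -/

section

/-!
# Project LI: semicontinuity

`H^k = L2 (Fin k × I)` with the dimension data `D.pow k` (`c (j, s) = c s`). `∑ dm (Z j)` is the dimension of
`P = {f | every slice f (j, ·) is in Z j}`. Let `G a f = ∑ j, T j ^ a • slice j f` (equivariant) and
`P_a = P ⊓ ⨅ b ≥ a, ker (G b)` (`b < k`). By `dm_rank`, `dm P_{a+1} ≤ dm P_a + dm (P_{a+1}.map (G a))`, and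
`P_{a+1}.map (G a) ≤ Z0` if `a + 2 < k` by `h`; for the two largest `a` it is `≤ ⊤`. Finally
`P_0 = ⊥` (Vandermonde matrix).
-/

set_option autoImplicit false

open Finset ContinuousLinearMap

namespace Pool.Agent.H19.LI

variable {Q I : Type} [Group Q] (D : Dm Q I)

/-- the dimension data of the power -/
noncomputable def Dm.pow (k : ℕ) : Dm Q (Fin k × I) where
  a :=
    { toFun := fun q => (Equiv.refl (Fin k)).prodCongr (D.a q)
      map_one' := by
        ext p
        · rfl
        · show D.a 1 p.2 = p.2
          rw [map_one]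
          rfl
      map_mul' := fun q q' => by
        ext p
        · rfl
        · show D.a (q * q') p.2 = D.a q (D.a q' p.2)
          rw [map_mul]
          rfl }
  F := Finset.univ ×ˢ D.F
  c p := D.c p.2
  nonneg p := D.nonneg p.2
  supp p hp := by
    refine D.supp p.2 fun h => hp ?_
    rw [Finset.mem_product]
    exact ⟨Finset.mem_univ _, h⟩
  sum p := D.sum p.2
  sg q p := D.sg q p.2
  sg_sq q p := D.sg_sq q p.2

section slices

variable {k : ℕ}

private theorem slice_sum (j : Fin k) (f : L2 (Fin k × I)) : Summable fun s => ‖f (j, s)‖ ^ 2 :=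
  (sum_sq f).comp_injective (i := fun s : I => (j, s)) fun _ _ h => (Prod.ext_iff.1 h).2

/-- the slices -/
noncomputable def slice (j : Fin k) : L2 (Fin k × I) →L[ℂ] L2 I :=
  LinearMap.mkContinuous
    { toFun := fun f => mk2 (fun s => f (j, s)) (slice_sum j f)
      map_add' := fun f g => by
        ext s
        rfl
      map_smul' := fun r f => by
        ext s
        rfl } 1 fun f => by
    rw [one_mul]
    refine (sq_le_sq₀ (norm_nonneg _) (norm_nonneg _)).1 ?_
    rw [norm_sq_eq f]
    show ‖mk2 (fun s => f (j, s)) (slice_sum j f)‖ ^ 2 ≤ _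
    rw [norm_sq_eq]
    exact (slice_sum j f).tsum_le_tsum_of_inj (fun s : I => (j, s))
      (fun _ _ h => (Prod.ext_iff.1 h).2) (fun _ _ => by positivity) (fun _ => le_rfl) (sum_sq f)

theorem slice_apply (j : Fin k) (f : L2 (Fin k × I)) (s : I) : slice j f s = f (j, s) := rfl

private theorem emb_sum (j : Fin k) (x : L2 I) :
    HasSum (fun p : Fin k × I => ‖(if p.1 = j then x p.2 else 0 : ℂ)‖ ^ 2) (‖x‖ ^ 2) := by
  have hinj : Function.Injective (fun s : I => (j, s)) := fun _ _ h => (Prod.ext_iff.1 h).2
  rw [norm_sq_eq x]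
  rw [← hinj.hasSum_iff]
  · have : (fun p : Fin k × I => ‖(if p.1 = j then x p.2 else 0 : ℂ)‖ ^ 2) ∘ (fun s : I => (j, s)) =
        fun s => ‖x s‖ ^ 2 := by
      funext s
      simp
    rw [this]
    exact (sum_sq x).hasSum
  · rintro ⟨j', s⟩ hp
    have : j' ≠ j := by
      rintro rfl
      exact hp ⟨s, rfl⟩
    simp [this]

/-- the inclusions -/
noncomputable def emb (j : Fin k) (x : L2 I) : L2 (Fin k × I) :=
  mk2 (fun p => if p.1 = j then x p.2 else 0) (emb_sum j x).summable

theorem norm_emb (j : Fin k) (x : L2 I) : ‖emb j x‖ ^ 2 = ‖x‖ ^ 2 := by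
  rw [norm_sq_eq]
  exact (emb_sum j x).tsum_eq

theorem slice_emb (j j' : Fin k) (x : L2 I) : slice j' (emb j x) = if j' = j then x else 0 := by
  ext s
  rw [slice_apply]
  show (if j' = j then x s else 0 : ℂ) = _
  split_ifs <;> rfl

theorem emb_ee (j : Fin k) (s : I) : emb j (ee s) = ee (j, s) := by
  ext p
  obtain ⟨j', t⟩ := p
  show (if j' = j then (ee s : L2 I) t else 0 : ℂ) = _
  by_cases hj : j' = j
  · subst hj
    rw [if_pos rfl]
    by_cases ht : t = s
    · subst ht
      rw [ee_apply_self, ee_apply_self]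
    · rw [ee_apply_ne ht, ee_apply_ne]
      intro h
      exact ht (Prod.ext_iff.1 h).2
  · rw [if_neg hj, ee_apply_ne]
    intro h
    exact hj (Prod.ext_iff.1 h).1

theorem inner_slices (f g : L2 (Fin k × I)) :
    inner ℂ f g = ∑ j, inner ℂ (slice j f) (slice j g) := by
  have h1 := lp.summable_inner (𝕜 := ℂ) (G := fun _ : Fin k × I => ℂ) f g
  rw [lp.inner_eq_tsum, h1.tsum_prod, tsum_fintype]
  refine Finset.sum_congr rfl fun j _ => ?_
  rw [lp.inner_eq_tsum]
  rfl

theorem slice_ext {f g : L2 (Fin k × I)} (h : ∀ j, slice j f = slice j g) : f = g := by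
  ext p
  obtain ⟨j, s⟩ := p
  rw [← slice_apply, ← slice_apply, h]

theorem eqv_slice (j : Fin k) : Eqv (D.pow k) D (slice j : L2 (Fin k × I) →L[ℂ] L2 I) := by
  intro q f
  ext s
  rfl

end slices

/-- the families with values in the subspaces `Z j` -/
noncomputable def fam {k : ℕ} (Z : Fin k → Submodule ℂ (L2 I)) : Submodule ℂ (L2 (Fin k × I)) :=
  ⨅ j, (Z j).comap (slice j : L2 (Fin k × I) →L[ℂ] L2 I).toLinearMap

theorem mem_fam {k : ℕ} {Z : Fin k → Submodule ℂ (L2 I)} {f : L2 (Fin k × I)} :
    f ∈ fam Z ↔ ∀ j, slice j f ∈ Z j := by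
  unfold fam
  rw [Submodule.mem_iInf]
  rfl

theorem isClosed_fam {k : ℕ} {Z : Fin k → Submodule ℂ (L2 I)}
    (hZ : ∀ j, IsClosed (Z j : Set (L2 I))) : IsClosed (fam Z : Set (L2 (Fin k × I))) := by
  have : (fam Z : Set (L2 (Fin k × I))) = ⋂ j, (slice j : L2 (Fin k × I) →L[ℂ] L2 I) ⁻¹' (Z j) := by
    ext f
    rw [SetLike.mem_coe, mem_fam, Set.mem_iInter]
    rfl
  rw [this]
  exact isClosed_iInter fun j => (hZ j).preimage (slice j : L2 (Fin k × I) →L[ℂ] L2 I).continuous

theorem inv_fam {k : ℕ} {Z : Fin k → Submodule ℂ (L2 I)} (iZ : ∀ j, D.Inv (Z j)) :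
    (D.pow k).Inv (fam Z) := by
  intro q f
  rw [mem_fam, mem_fam]
  refine forall_congr' fun j => ?_
  rw [eqv_slice D j q f]
  exact iZ j q _

theorem dm_fam {k : ℕ} {Z : Fin k → Submodule ℂ (L2 I)} (hZ : ∀ j, IsClosed (Z j : Set (L2 I))) :
    (D.pow k).dm (fam Z) = ∑ j, D.dm (Z j) := by
  have hZc : ∀ j, (Z j).topologicalClosure = Z j := fun j =>
    IsClosed.submodule_topologicalClosure_eq (hZ j)
  have hFc : (fam Z).topologicalClosure = fam Z :=
    IsClosed.submodule_topologicalClosure_eq (isClosed_fam hZ)
  unfold Dm.dm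
  show ∑ p ∈ Finset.univ ×ˢ D.F, D.c p.2 * _ = _
  rw [Finset.sum_product]
  refine Finset.sum_congr rfl fun j _ => Finset.sum_congr rfl fun s _ => ?_
  show D.c s * ‖(fam Z).topologicalClosure.starProjection (ee (j, s))‖ ^ 2 =
    D.c s * ‖(Z j).topologicalClosure.starProjection (ee s)‖ ^ 2
  congr 1
  have h1 : (fam Z).topologicalClosure.starProjection (ee (j, s)) =
      emb j ((Z j).topologicalClosure.starProjection (ee s)) := by
    refine Submodule.eq_starProjection_of_mem_orthogonal ?_ ?_
    · refine hFc.ge (mem_fam.2 fun j' => ?_)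
      rw [slice_emb]
      split_ifs with hj
      · subst hj
        exact (hZc j').le (Submodule.starProjection_apply_mem _ _)
      · exact (Z j').zero_mem
    · rw [hFc, Submodule.mem_orthogonal]
      intro f hf
      rw [inner_slices]
      refine Finset.sum_eq_zero fun j' _ => ?_
      rw [map_sub, ← emb_ee, slice_emb, slice_emb]
      split_ifs with hj
      · subst hj
        have h2 := Submodule.sub_starProjection_mem_orthogonal (K := (Z j').topologicalClosure)
          (ee s)
        exact (Submodule.mem_orthogonal _ _).1 h2 _ ((hZc j').ge (mem_fam.1 hf j'))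
      · rw [sub_zero, inner_zero_right]
  rw [h1, norm_emb]

end Pool.Agent.H19.LI

end

section

/-!
# Singer without colours: the lower bound for modules over finite two-groups
-/

set_option autoImplicit false
set_option linter.unusedSectionVars false

open Finset

namespace Pool.Agent.H77.SW

variable {V : Type} [DecidableEq V] [Fintype V] {K : Type} [Field K] [CharP K 2]

/-- the involutions on the functions `P → (J → K)` -/
private def lrh {G : SimpleGraph V} {P : Type} [Group P] (D : PG G P) {J : Type}
    (r : V → (J → K) →ₗ[K] (J → K)) (v : V) : (P → J → K) →ₗ[K] (P → J → K) where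
  toFun φ p := r v (φ (p * D.g v))
  map_add' φ ψ := by
    funext p
    simp
  map_smul' c φ := by
    funext p
    simp

/-- the functions which are invariant under the left translations by `H` -/
private def lS (G : SimpleGraph V) (n : ℕ) {P : Type} [Group P] (D : PG G P) {J : Type}
    (r : V → (J → K) →ₗ[K] (J → K)) (H : Subgroup P) : Submodule K (Finset V → P → J → K) where
  carrier := {φ | φ ∈ Zs K G n (lrh D r) ∧ ∀ h ∈ H, ∀ σ p, φ σ (h * p) = φ σ p}
  zero_mem' := ⟨Submodule.zero_mem _, fun _ _ _ _ => rfl⟩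
  add_mem' := by
    rintro φ ψ ⟨h1, h2⟩ ⟨h3, h4⟩
    refine ⟨Submodule.add_mem _ h1 h3, fun h hh σ p => ?_⟩
    simp only [Pi.add_apply, h2 h hh, h4 h hh]
  smul_mem' := by
    rintro c φ ⟨h1, h2⟩
    refine ⟨Submodule.smul_mem _ c h1, fun h hh σ p => ?_⟩
    simp only [Pi.smul_apply, h2 h hh]

/-- left translation preserves the cycles -/
private theorem trans_mem {G : SimpleGraph V} {n : ℕ} {P : Type} [Group P] {D : PG G P} {J : Type}
    {r : V → (J → K) →ₗ[K] (J → K)} {φ : Finset V → P → J → K} (h : φ ∈ Zs K G n (lrh D r))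
    (c : P) : (fun σ p => φ σ (c * p)) ∈ Zs K G n (lrh D r) := by
  obtain ⟨h1, h2, h3⟩ := h
  refine ⟨fun σ hσ => h1 σ fun h0 => hσ ?_, fun σ v hv => ?_, fun κ => ?_⟩
  · funext p
    change φ σ (c * p) = 0
    rw [h0]
    rfl
  · funext p
    have := congrFun (h2 σ v hv) (c * p)
    simpa [lrh, mul_assoc] using this
  · funext p
    have := congrFun (h3 κ) (c * p)
    simpa [Finset.sum_apply] using this

/-- the left translation as a linear map -/
private def lT {P : Type} [Group P] {J : Type} (c : P) :
    (Finset V → P → J → K) →ₗ[K] (Finset V → P → J → K) where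
  toFun φ σ p := φ σ p + φ σ (c * p)
  map_add' φ ψ := by
    funext σ p
    simp only [Pi.add_apply]
    abel
  map_smul' k φ := by
    funext σ p
    simp

private theorem char_add {J : Type} (f : J → K) : f + f = 0 := by
  funext j
  exact CharTwo.add_self_eq_zero _

private theorem step (G : SimpleGraph V) (n : ℕ) {P : Type} [Group P] [Fintype P] (D : PG G P)
    {J : Type} [Fintype J] (r : V → (J → K) →ₗ[K] (J → K)) {H H' : Subgroup P} (hle : H ≤ H')
    (hc : Nat.card H' = 2 * Nat.card H) :
    Module.finrank K (lS G n D r H) ≤ 2 * Module.finrank K (lS G n D r H') := by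
  have hpos : 0 < Nat.card H := Nat.card_pos
  -- an element outside
  obtain ⟨c, hc1, hc2⟩ : ∃ c ∈ H', c ∉ H := by
    by_contra hcon
    push Not at hcon
    have : H = H' := le_antisymm hle hcon
    rw [this] at hc hpos
    omega
  have hidx : (H.subgroupOf H').index = 2 := by
    have h1 := (H.subgroupOf H').card_mul_index
    have h2 : Nat.card (H.subgroupOf H') = Nat.card H :=
      Nat.card_congr (Subgroup.subgroupOfEquivOfLe hle).toEquiv
    rw [h2, hc] at h1
    have h3 : Nat.card H * (H.subgroupOf H').index = Nat.card H * 2 := by rw [h1]; ring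
    exact Nat.eq_of_mul_eq_mul_left hpos h3
  have hmul : ∀ a ∈ H', ∀ b ∈ H', a ∉ H → b ∉ H → a * b ∈ H := by
    intro a ha b hb ha' hb'
    have := (Subgroup.mul_mem_iff_of_index_two hidx (a := ⟨a, ha⟩) (b := ⟨b, hb⟩))
    simp only [Subgroup.mem_subgroupOf] at this
    exact this.2 (by simp [ha', hb'])
  have hci : c⁻¹ ∉ H := fun h => hc2 (by simpa using H.inv_mem h)
  have hnot : ∀ h ∈ H, c * h ∉ H := fun h hh h' => hc2 (by
    have := H.mul_mem h' (H.inv_mem hh)
    simpa using this)
  -- the norm maps into the invariants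
  have hmaps : ∀ φ ∈ lS G n D r H, lT c φ ∈ lS G n D r H' := by
    rintro φ ⟨h1, h2⟩
    refine ⟨Submodule.add_mem _ h1 (trans_mem h1 c), fun h hh σ p => ?_⟩
    change φ σ (h * p) + φ σ (c * (h * p)) = φ σ p + φ σ (c * p)
    by_cases hH : h ∈ H
    · rw [h2 h hH]
      have h3 : c * h * c⁻¹ ∈ H := hmul _ (H'.mul_mem hc1 hh) _ (H'.inv_mem hc1) (hnot h hH) hci
      have h4 : c * (h * p) = c * h * c⁻¹ * (c * p) := by group
      rw [h4, h2 _ h3]
    · have h3 : h * c⁻¹ ∈ H := hmul _ hh _ (H'.inv_mem hc1) hH hci
      have h4 : h * p = h * c⁻¹ * (c * p) := by group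
      have h5 : c * h ∈ H := hmul _ hc1 _ hh hc2 hH
      have h6 : c * (h * p) = c * h * p := by group
      rw [h6, h2 _ h5, h4, h2 _ h3]
      exact add_comm _ _
  let N : lS G n D r H →ₗ[K] lS G n D r H' :=
    ((lT c).comp (lS G n D r H).subtype).codRestrict _ fun φ => hmaps φ.1 φ.2
  have hker : Module.finrank K (LinearMap.ker N) ≤ Module.finrank K (lS G n D r H') := by
    have hk : ∀ x : LinearMap.ker N, ((x : lS G n D r H) : Finset V → P → J → K) ∈
        lS G n D r H' := by
      rintro ⟨⟨φ, h1, h2⟩, hx⟩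
      have h0 : ∀ σ p, φ σ (c * p) = φ σ p := by
        intro σ p
        have h3 : (N ⟨φ, h1, h2⟩ : Finset V → P → J → K) = 0 := by
          rw [LinearMap.mem_ker.1 hx]
          rfl
        have h4 : φ σ p + φ σ (c * p) = 0 := congrFun (congrFun h3 σ) p
        have h5 := char_add (K := K) (φ σ p)
        exact (add_left_cancel (h5.trans h4.symm)).symm
      refine ⟨h1, fun h hh σ p => ?_⟩
      change φ σ (h * p) = φ σ p
      by_cases hH : h ∈ H
      · exact h2 h hH σ p
      · have h3 : h * c⁻¹ ∈ H := hmul _ hh _ (H'.inv_mem hc1) hH hci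
        have h4 : h * p = h * c⁻¹ * (c * p) := by group
        rw [h4, h2 _ h3, h0]
    let M : LinearMap.ker N →ₗ[K] lS G n D r H' :=
      ((lS G n D r H).subtype.comp (LinearMap.ker N).subtype).codRestrict _ hk
    refine LinearMap.finrank_le_finrank_of_injective (f := M) ?_
    intro x y hxy
    have := congrArg Subtype.val hxy
    exact Subtype.ext (Subtype.ext this)
  have h1 := LinearMap.finrank_range_add_finrank_ker N
  have h2 := Submodule.finrank_le (LinearMap.range N)
  omega

/-- **The lower bound.** Let `R` be a family of injective maps with `r v ∘ R (p * g v) = R p` (for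
instance `R p = ρ (p⁻¹)` for a representation `ρ` of `P` with `ρ (g v) = r v`). Then
`dim (J → K) * dim Z(K[P]) ≤ |P| * dim Z(J → K)`.

Proof. Consider the functions `φ : P → (J → K)` with the involutions
`(r̂ v φ) p = r v (φ (p * g v))`.
(1) The map which sends `(z j)_j`, `z j ∈ Zs K G n (rP K D)`, to `φ σ p = R p (fun j => z j σ p)` is an
injective linear map `(J → Zs K G n (rP K D)) → Zs K G n r̂`.
(2) For a subgroup `H` let `S H` be the subspace of the `φ ∈ Zs K G n r̂` with `φ σ (h * p) = φ σ p` for
`h ∈ H`. `S ⊤` is isomorphic to `Zs K G n r` (`φ ↦ φ · 1`). If `H ≤ H'` has index two and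
`c ∈ H' \ H` then `φ ↦ φ + φ (c * ·)` maps `S H` to `S H'` and its kernel is in `S H'` (characteristic
two); so `finrank (S H) ≤ 2 * finrank (S H')`. By `Sylow.exists_subgroup_card_pow_succ` there is a
chain from `⊥` to `⊤`. -/
theorem lower (G : SimpleGraph V) (n : ℕ) {P : Type} [Group P] [Fintype P] (D : PG G P)
    {J : Type} [Fintype J] (r : V → (J → K) →ₗ[K] (J → K)) (R : P → (J → K) →ₗ[K] (J → K))
    (hR : ∀ p, Function.Injective (R p)) (hr : ∀ p v f, r v (R (p * D.g v) f) = R p f) :
    Fintype.card J * dz K n D ≤ Fintype.card P * Module.finrank K (Zs K G n r) := by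
  classical
  -- (1)
  have h1 : Fintype.card J * dz K n D ≤ Module.finrank K (Zs K G n (lrh D r)) := by
    let Φ : (J → Zs K G n (rP K D)) →ₗ[K] (Finset V → P → J → K) :=
      { toFun := fun z σ p => R p (fun j => (z j).1 σ p)
        map_add' := fun z w => by
          funext σ p
          rw [show (fun j => ((z + w) j).1 σ p) = (fun j => (z j).1 σ p) + fun j => (w j).1 σ p
            from rfl, map_add]
          rfl
        map_smul' := fun c z => by
          funext σ p
          rw [show (fun j => ((c • z) j).1 σ p) = c • (fun j => (z j).1 σ p) from rfl, map_smul]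
          rfl }
    have hΦ : ∀ z, Φ z ∈ Zs K G n (lrh D r) := by
      intro z
      refine ⟨fun σ hσ => ?_, fun σ v hv => ?_, fun κ => ?_⟩
      · by_contra hcon
        refine hσ ?_
        have h0 : ∀ j, (z j).1 σ = 0 := by
          intro j
          by_contra h
          exact hcon ((z j).2.1 σ h)
        funext p
        change R p (fun j => (z j).1 σ p) = 0
        rw [show (fun j => (z j).1 σ p) = 0 from funext fun j => by rw [h0 j]; rfl, map_zero]
      · funext p
        change r v (R (p * D.g v) (fun j => (z j).1 σ (p * D.g v))) = R p (fun j => (z j).1 σ p)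
        rw [hr]
        congr 1
        funext j
        exact congrFun ((z j).2.2.1 σ v hv) p
      · funext p
        rw [Finset.sum_apply]
        change ∑ v ∈ κᶜ, R p (fun j => (z j).1 (insert v κ) p) = 0
        rw [← map_sum]
        have : (∑ v ∈ κᶜ, fun j => (z j).1 (insert v κ) p) = (0 : J → K) := by
          funext j
          rw [Finset.sum_apply]
          have := congrFun ((z j).2.2.2 κ) p
          rw [Finset.sum_apply] at this
          exact this
        rw [this, map_zero]
    have hinj : Function.Injective (Φ.codRestrict (Zs K G n (lrh D r)) hΦ) := by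
      intro z w hzw
      have h2 : Φ z = Φ w := congrArg Subtype.val hzw
      funext j
      refine Subtype.ext ?_
      funext σ p
      have h3 : R p (fun j => (z j).1 σ p) = R p (fun j => (w j).1 σ p) :=
        congrFun (congrFun h2 σ) p
      exact congrFun (hR p h3) j
    have h2 := LinearMap.finrank_le_finrank_of_injective hinj
    rw [Module.finrank_pi_fintype, Finset.sum_const, Finset.card_univ, smul_eq_mul] at h2
    exact h2
  -- (2)
  have h2 : Module.finrank K (Zs K G n (lrh D r)) ≤ Module.finrank K (lS G n D r ⊥) := by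
    have hm : ∀ z : Zs K G n (lrh D r), (z : Finset V → P → J → K) ∈ lS G n D r ⊥ := by
      rintro ⟨z, hz⟩
      refine ⟨hz, fun h hh σ p => ?_⟩
      rw [Subgroup.mem_bot.1 hh, one_mul]
    refine LinearMap.finrank_le_finrank_of_injective
      (f := (Zs K G n (lrh D r)).subtype.codRestrict _ hm) ?_
    intro x y hxy
    have := congrArg Subtype.val hxy
    exact Subtype.ext this
  have h3 : Module.finrank K (lS G n D r ⊤) ≤ Module.finrank K (Zs K G n r) := by
    let E : (Finset V → P → J → K) →ₗ[K] (Finset V → J → K) :=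
      { toFun := fun φ σ => φ σ 1
        map_add' := fun _ _ => rfl
        map_smul' := fun _ _ => rfl }
    have hconst : ∀ φ ∈ lS G n D r ⊤, ∀ σ p, φ σ p = φ σ 1 := by
      rintro φ ⟨-, hφ⟩ σ p
      have := hφ p (Subgroup.mem_top _) σ 1
      rw [mul_one] at this
      exact this
    have hE : ∀ φ : lS G n D r ⊤, (E.comp (lS G n D r ⊤).subtype) φ ∈ Zs K G n r := by
      rintro ⟨φ, hφ⟩
      have hc := hconst φ hφ
      obtain ⟨⟨h4, h5, h6⟩, -⟩ := hφ
      refine ⟨fun σ hσ => h4 σ fun h0 => hσ ?_, fun σ v hv => ?_, fun κ => ?_⟩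
      · change φ σ 1 = 0
        rw [h0]
        rfl
      · change r v (φ σ 1) = φ σ 1
        have := congrFun (h5 σ v hv) 1
        change r v (φ σ (1 * D.g v)) = φ σ 1 at this
        rwa [hc σ (1 * D.g v)] at this
      · change ∑ v ∈ κᶜ, φ (insert v κ) 1 = 0
        have := congrFun (h6 κ) 1
        rw [Finset.sum_apply] at this
        exact this
    refine LinearMap.finrank_le_finrank_of_injective
      (f := (E.comp (lS G n D r ⊤).subtype).codRestrict _ hE) ?_
    intro x y hxy
    refine Subtype.ext ?_
    funext σ p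
    rw [hconst _ x.2, hconst _ y.2]
    exact congrFun (congrArg Subtype.val hxy) σ
  -- the chain
  obtain ⟨N, hN⟩ := (IsPGroup.iff_card (p := 2)).1 D.two
  have h4 : ∀ m ≤ N, ∃ H : Subgroup P, Nat.card H = 2 ^ m ∧
      Module.finrank K (lS G n D r ⊥) ≤ 2 ^ m * Module.finrank K (lS G n D r H) := by
    intro m
    induction m with
    | zero => exact fun _ => ⟨⊥, by simp, by simp⟩
    | succ m ih =>
      intro hm
      obtain ⟨H, hH1, hH2⟩ := ih (by omega)
      have : Fact (Nat.Prime 2) := ⟨Nat.prime_two⟩
      obtain ⟨H', hH3, hH4⟩ := Sylow.exists_subgroup_card_pow_succ (p := 2) (n := m) (G := P)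
        (by rw [hN]; exact pow_dvd_pow 2 hm) hH1
      refine ⟨H', hH3, hH2.trans ?_⟩
      have h5 := step (K := K) G n D r hH4 (by rw [hH3, hH1, pow_succ]; ring)
      calc 2 ^ m * Module.finrank K (lS G n D r H)
          ≤ 2 ^ m * (2 * Module.finrank K (lS G n D r H')) := Nat.mul_le_mul_left _ h5
        _ = 2 ^ (m + 1) * Module.finrank K (lS G n D r H') := by rw [pow_succ]; ring
  obtain ⟨H, hH1, hH2⟩ := h4 N le_rfl
  have hHt : H = ⊤ := by
    refine Subgroup.eq_top_of_card_eq H ?_
    rw [hH1, hN]
  rw [hHt] at hH2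
  have hcard : Fintype.card P = 2 ^ N := by rw [← Nat.card_eq_fintype_card, hN]
  rw [hcard]
  exact h1.trans (h2.trans (hH2.trans (Nat.mul_le_mul_left _ h3)))

end Pool.Agent.H77.SW

end

section

/-!
# Singer without colours: good covers
-/

set_option autoImplicit false
set_option linter.unusedSectionVars false

open Finset

namespace Pool.Agent.H77.SW

variable {V : Type} [DecidableEq V] [Fintype V] {K : Type} [Field K] [CharP K 2]

/-- the marked involutions of the cover -/
private def Cover_g {G : SimpleGraph V} {P : Type} [Group P] (D : PG G P) (v : V) :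
    Finset V → P := fun T => if v ∈ T then D.g v else 1

/-- the cover -/
private def Cover_D {G : SimpleGraph V} {P : Type} [Group P] [Fintype P] (D : PG G P) :
    PG G (Finset V → P) where
  g := Cover_g D
  sq := by
    intro v
    funext T
    simp only [Cover_g, Pi.mul_apply, Pi.one_apply]
    split_ifs
    · exact D.sq v
    · exact one_mul 1
  comm := by
    intro u v h
    funext T
    simp only [Cover_g, Pi.mul_apply]
    split_ifs
    · exact D.comm u v h
    · rw [mul_one, one_mul]
    · rw [mul_one, one_mul]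
    · rfl
  b := fun p => D.b (p univ)
  b_mul := fun p q v => D.b_mul (p univ) (q univ) v
  b_g := by
    intro u v
    have h : Cover_g D u univ = D.g u := if_pos (mem_univ u)
    rw [h]
    exact D.b_g u v
  two := by
    obtain ⟨m, hm⟩ := IsPGroup.iff_card.1 D.two
    refine IsPGroup.iff_card.2 ⟨m * Fintype.card (Finset V), ?_⟩
    rw [Nat.card_eq_fintype_card] at hm
    rw [Nat.card_eq_fintype_card, Fintype.card_fun, hm, pow_mul]

/-- the restriction to a set of vertices -/
private def Cover_rho {P : Type} [Group P] (S : V → Prop) [DecidablePred S] :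
    (Finset V → P) →* (Finset V → P) where
  toFun p := fun T => p (T.filter S)
  map_one' := rfl
  map_mul' _ _ := rfl

private theorem Cover_good {G : SimpleGraph V} {P : Type} [Group P] [Fintype P] (D : PG G P) :
    Good (Cover_D D) := by
  classical
  intro S T x hx
  obtain ⟨h1, h2⟩ := Subgroup.mem_inf.1 hx
  have hfix : ∀ v ∈ S, Cover_rho (fun v => v ∈ S) ((Cover_D D).g v) = (Cover_D D).g v := by
    intro v hv
    funext A
    change Cover_g D v (A.filter fun v => v ∈ S) = Cover_g D v A
    simp only [Cover_g, mem_filter, hv, and_true]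
  have hone : ∀ v, v ∉ S → Cover_rho (fun v => v ∈ S) ((Cover_D D).g v) = 1 := by
    intro v hv
    funext A
    change Cover_g D v (A.filter fun v => v ∈ S) = 1
    simp only [Cover_g, mem_filter, hv, and_false, if_false]
  have h3 : Cover_rho (fun v => v ∈ S) x = x := by
    have h4 : Subgroup.closure ((Cover_D D).g '' S) ≤
        (Cover_rho (P := P) fun v => v ∈ S).eqLocus (MonoidHom.id _) := by
      rw [Subgroup.closure_le]
      rintro _ ⟨v, hv, rfl⟩
      exact hfix v hv
    exact h4 h1
  have h5 : Subgroup.closure ((Cover_D D).g '' T) ≤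
      (Subgroup.closure ((Cover_D D).g '' (S ∩ T))).comap (Cover_rho fun v => v ∈ S) := by
    rw [Subgroup.closure_le]
    rintro _ ⟨v, hv, rfl⟩
    change Cover_rho (fun v => v ∈ S) ((Cover_D D).g v) ∈
      Subgroup.closure ((Cover_D D).g '' (S ∩ T))
    by_cases hS : v ∈ S
    · rw [hfix v hS]
      exact Subgroup.subset_closure ⟨v, ⟨hS, hv⟩, rfl⟩
    · rw [hone v hS]
      exact Subgroup.one_mem _
  have h6 := h5 h2
  rw [Subgroup.mem_comap, h3] at h6
  exact h6

/-- the translations -/
private def Cover_R (K : Type) [Field K] {P : Type} [Group P] (p' : Finset V → P) :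
    (P → K) →ₗ[K] (P → K) where
  toFun f p := f (p * (p' univ)⁻¹)
  map_add' _ _ := rfl
  map_smul' _ _ := rfl

/-- **Good covers.** Take `P' = Finset V → P`, `g' v = fun T => if v ∈ T then g v else 1`,
`b' p = b (p univ)`. For a set `S` of vertices the map `ρ_S p = fun T => p (T.filter (· ∈ S))` is an
endomorphism of `P'` with `ρ_S (g' v) = g' v` for `v ∈ S` and `= 1` for `v ∉ S`; so it fixes the
subgroup of `S` pointwise and maps the subgroup of `T` into the subgroup of `S ∩ T`. The inequality is
`lower` for the group `P'`, `J = P`, `r = rP K D`, `R p' f p = f (p * (p' univ)⁻¹)`. -/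
theorem exists_good (G : SimpleGraph V) (n : ℕ) {P : Type} [Group P] [Fintype P] (D : PG G P) :
    ∃ (P' : Type) (_ : Group P') (_ : Fintype P') (D' : PG G P'), Good D' ∧
      Fintype.card P * dz K n D' ≤ Fintype.card P' * dz K n D := by
  refine ⟨Finset V → P, inferInstance, inferInstance, Cover_D D, Cover_good D, ?_⟩
  refine lower G n (Cover_D D) (rP K D) (Cover_R K) ?_ ?_
  · intro p' f f' h
    funext p
    have h1 := congrFun h (p * p' univ)
    have h2 : f (p * p' univ * (p' univ)⁻¹) = f' (p * p' univ * (p' univ)⁻¹) := h1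
    rw [mul_inv_cancel_right] at h2
    exact h2
  · intro p' v f
    funext p
    have h1 : (p' * (Cover_D D).g v) univ = p' univ * D.g v := by
      change p' univ * Cover_g D v univ = p' univ * D.g v
      rw [show Cover_g D v univ = D.g v from if_pos (mem_univ v)]
    change f (p * D.g v * ((p' * (Cover_D D).g v) univ)⁻¹) = f (p * (p' univ)⁻¹)
    rw [h1, mul_inv_rev, mul_assoc, mul_inv_cancel_left]

end Pool.Agent.H77.SW

end

section

/-!
# Singer without colours: the extension module as a module over a finite two-group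
-/

set_option autoImplicit false
set_option linter.unusedSectionVars false

open Finset

namespace Pool.Agent.H77.SW

variable {V : Type} [DecidableEq V] [Fintype V] {K : Type} [Field K] [CharP K 2]

/-- the semidirect product of the functions with values in a vector space over the field of two
elements and `P` -/
def Ext_G (V P I : Type) : Type := (V → P → I → ZMod 2) × P

instance Ext_mul (V P I : Type) [Group P] : Mul (Ext_G V P I) :=
  ⟨fun q q' => (fun v x => q.1 v x + q'.1 v (x * q.2), q.2 * q'.2)⟩

instance Ext_one (V P I : Type) [Group P] : One (Ext_G V P I) := ⟨(fun _ _ => 0, 1)⟩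

instance Ext_inv (V P I : Type) [Group P] : Inv (Ext_G V P I) :=
  ⟨fun q => (fun v x => - q.1 v (x * q.2⁻¹), q.2⁻¹)⟩

private theorem Ext_ext {V P I : Type} {q q' : Ext_G V P I} (h1 : ∀ v x, q.1 v x = q'.1 v x)
    (h2 : q.2 = q'.2) : q = q' :=
  Prod.ext (funext fun v => funext fun x => h1 v x) h2

private theorem Ext_mul_fst {V P I : Type} [Group P] (q q' : Ext_G V P I) (v : V) (x : P) :
    (q * q').1 v x = q.1 v x + q'.1 v (x * q.2) := rfl

private theorem Ext_mul_snd {V P I : Type} [Group P] (q q' : Ext_G V P I) :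
    (q * q').2 = q.2 * q'.2 := rfl

instance Ext_group (V P I : Type) [Group P] : Group (Ext_G V P I) :=
  Group.ofLeftAxioms
    (by
      intro a b c
      refine Ext_ext (fun v x => ?_) ?_
      · rw [Ext_mul_fst, Ext_mul_fst, Ext_mul_fst, Ext_mul_fst, Ext_mul_snd, mul_assoc x a.2 b.2,
          add_assoc]
      · rw [Ext_mul_snd, Ext_mul_snd, Ext_mul_snd, Ext_mul_snd, mul_assoc])
    (by
      intro a
      refine Ext_ext (fun v x => ?_) ?_
      · rw [Ext_mul_fst]
        change 0 + a.1 v (x * 1) = a.1 v x
        rw [mul_one, zero_add]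
      · rw [Ext_mul_snd]
        exact one_mul a.2)
    (by
      intro a
      refine Ext_ext (fun v x => ?_) ?_
      · rw [Ext_mul_fst]
        change - a.1 v (x * a.2⁻¹) + a.1 v (x * a.2⁻¹) = 0
        rw [neg_add_cancel]
      · rw [Ext_mul_snd]
        exact inv_mul_cancel a.2)

instance Ext_finite (V P I : Type) [Finite V] [Finite P] [Finite I] : Finite (Ext_G V P I) :=
  inferInstanceAs (Finite ((V → P → I → ZMod 2) × P))

private theorem Ext_pgroup (V P I : Type) [Finite V] [Group P] [Finite P] [Finite I]
    (h : IsPGroup 2 P) : IsPGroup 2 (Ext_G V P I) := by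
  have : Fact (Nat.Prime 2) := ⟨Nat.prime_two⟩
  obtain ⟨m, hm⟩ := IsPGroup.iff_card.1 h
  refine IsPGroup.iff_card.2 ⟨((Nat.card I * Nat.card P) * Nat.card V) + m, ?_⟩
  have h1 : Nat.card (Ext_G V P I) = Nat.card (V → P → I → ZMod 2) * Nat.card P :=
    Nat.card_prod _ _
  have h2 : Nat.card (V → P → I → ZMod 2) = 2 ^ ((Nat.card I * Nat.card P) * Nat.card V) := by
    rw [Nat.card_fun, Nat.card_fun, Nat.card_fun, Nat.card_zmod, ← pow_mul, ← pow_mul, mul_assoc]
  rw [h1, h2, hm, ← pow_add]

/-- the operator `∏ c ∈ s, (1 + a c E c)` at one point -/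
private def Ext_T (s : Finset V) (a : V → K) (f : Finset V → K) (A : Finset V) : K :=
  ∑ B ∈ (A ∩ s).powerset, (∏ c ∈ B, a c) * f (A \ B)

private theorem Ext_T_off (s : Finset V) (a b : V → K) (f : Finset V → K) (A : Finset V)
    (h : ∀ c ∈ A, a c = b c) : Ext_T s a f A = Ext_T s b f A := by
  unfold Ext_T
  refine sum_congr rfl fun B hB => ?_
  have hBA : B ⊆ A := (mem_powerset.1 hB).trans inter_subset_left
  rw [prod_congr rfl fun c hc => h c (hBA hc)]

private theorem Ext_T_on (s : Finset V) (a b : V → K) (t : K) (f : Finset V → K) (A : Finset V)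
    (v : V) (hvA : v ∈ A) (hvs : v ∈ s) (h : ∀ c, c ≠ v → b c = a c) (hv : b v = a v + t) :
    Ext_T s b f A = Ext_T s a f A + t * Ext_T s a f (A.erase v) := by
  unfold Ext_T
  have hins : A ∩ s = insert v (A.erase v ∩ s) := by
    ext c
    simp only [mem_inter, mem_insert, mem_erase]
    constructor
    · rintro ⟨h1, h2⟩
      by_cases hc : c = v
      · exact Or.inl hc
      · exact Or.inr ⟨⟨hc, h1⟩, h2⟩
    · rintro (h1 | ⟨⟨_, h1⟩, h2⟩)
      · rw [h1]; exact ⟨hvA, hvs⟩
      · exact ⟨h1, h2⟩
  have hnot : v ∉ A.erase v ∩ s := by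
    intro hc
    exact (mem_erase.1 (mem_inter.1 hc).1).1 rfl
  have key : ∀ B ∈ (A.erase v ∩ s).powerset, v ∉ B := fun B hB hc =>
    hnot (mem_powerset.1 hB hc)
  have hprod : ∀ B ∈ (A.erase v ∩ s).powerset, ∏ c ∈ B, b c = ∏ c ∈ B, a c := by
    intro B hB
    refine prod_congr rfl fun c hc => h c fun hcv => ?_
    rw [hcv] at hc
    exact key B hB hc
  rw [hins, sum_powerset_insert hnot, sum_powerset_insert hnot, mul_sum, ← sum_add_distrib,
    ← sum_add_distrib, ← sum_add_distrib]
  refine sum_congr rfl fun B hB => ?_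
  have h1 : A \ insert v B = (A.erase v) \ B := by
    ext c
    simp only [mem_sdiff, mem_insert, mem_erase]
    tauto
  rw [prod_insert (key B hB), prod_insert (key B hB), h1, hv, hprod B hB]
  ring

private theorem Ext_T_inj (s : Finset V) (a : V → K) (f : Finset V → K)
    (h : ∀ A, Ext_T s a f A = 0) : ∀ A, f A = 0 := by
  intro A
  induction A using Finset.strongInduction with
  | H A ih =>
    have h1 := h A
    unfold Ext_T at h1
    rw [← Finset.add_sum_erase _ _ (empty_mem_powerset (A ∩ s))] at h1
    have h2 : ∑ B ∈ ((A ∩ s).powerset).erase ∅, (∏ c ∈ B, a c) * f (A \ B) = 0 := by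
      refine sum_eq_zero fun B hB => ?_
      obtain ⟨hB0, hB1⟩ := mem_erase.1 hB
      have hBA : B ⊆ A := (mem_powerset.1 hB1).trans inter_subset_left
      obtain ⟨c, hc⟩ := nonempty_iff_ne_empty.2 hB0
      have hss : A \ B ⊂ A := by
        refine ⟨sdiff_subset, fun hsub => ?_⟩
        exact (mem_sdiff.1 (hsub (hBA hc))).2 hc
      rw [ih _ hss, mul_zero]
    rw [h2, add_zero, prod_empty, one_mul, sdiff_empty] at h1
    exact h1

/-- the value of a vector in the field -/
private def Ext_ev {I : Type} [Fintype I] (τ : I → K) (c : I → ZMod 2) : K :=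
  ∑ i, ZMod.castHom (dvd_refl 2) K (c i) * τ i

private theorem Ext_ev_single {I : Type} [Fintype I] [DecidableEq I] (τ : I → K) (c : I → ZMod 2)
    (j : I) : Ext_ev τ (c + Pi.single j 1) = Ext_ev τ c + τ j := by
  unfold Ext_ev
  have h1 : ∀ i, ZMod.castHom (dvd_refl 2) K ((c + (Pi.single j 1 : I → ZMod 2)) i) * τ i =
      ZMod.castHom (dvd_refl 2) K (c i) * τ i + if i = j then τ i else 0 := by
    intro i
    rw [Pi.add_apply, map_add, add_mul]
    congr 1
    by_cases hij : i = j
    · rw [if_pos hij, hij, Pi.single_eq_same, map_one, one_mul]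
    · rw [if_neg hij, Pi.single_eq_of_ne hij, map_zero, zero_mul]
  rw [sum_congr rfl fun i _ => h1 i, sum_add_distrib, sum_ite_eq' univ j τ, if_pos (mem_univ j)]

/-- the marked involutions -/
private def Ext_g {P : Type} [Group P] {G : SimpleGraph V} (D : PG G P) (s : Finset V) {I : Type}
    [DecidableEq I] (ι : V → P → I) (v : V) : Ext_G V P I :=
  (fun w x => if w = v ∧ v ∈ s then Pi.single (ι v x) 1 else 0, D.g v)

private theorem Ext_two (I : Type) (c : I → ZMod 2) : c + c = 0 := by
  funext i
  exact CharTwo.add_self_eq_zero (c i)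

/-- the group with its marked involutions -/
private def Ext_D {P : Type} [Group P] [Finite P] {G : SimpleGraph V} (D : PG G P) (s : Finset V)
    {I : Type} [Finite I] [DecidableEq I] (ι : V → P → I)
    (hι : ∀ v u, (u = v ∨ G.Adj v u) → ∀ p, ι v (p * D.g u) = ι v p) :
    PG G (Ext_G V P I) where
  g := Ext_g D s ι
  sq v := by
    refine Ext_ext (fun w x => ?_) ?_
    · rw [Ext_mul_fst]
      change (if w = v ∧ v ∈ s then Pi.single (ι v x) 1 else 0) +
        (if w = v ∧ v ∈ s then Pi.single (ι v (x * D.g v)) 1 else 0) = (0 : I → ZMod 2)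
      rw [hι v v (Or.inl rfl) x]
      exact Ext_two I _
    · exact D.sq v
  comm u v huv := by
    refine Ext_ext (fun w x => ?_) ?_
    · rw [Ext_mul_fst, Ext_mul_fst]
      change (if w = u ∧ u ∈ s then Pi.single (ι u x) 1 else 0) +
        (if w = v ∧ v ∈ s then Pi.single (ι v (x * D.g u)) 1 else 0) =
        (if w = v ∧ v ∈ s then Pi.single (ι v x) 1 else 0) +
        (if w = u ∧ u ∈ s then Pi.single (ι u (x * D.g v)) 1 else 0 : I → ZMod 2)
      rw [hι v u (Or.inr huv.symm) x, hι u v (Or.inr huv) x]
      exact add_comm _ _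
    · exact D.comm u v huv
  b q v := D.b q.2 v
  b_mul p q v := by
    rw [Ext_mul_snd]
    exact D.b_mul p.2 q.2 v
  b_g u v := D.b_g u v
  two := Ext_pgroup V P I D.two

/-- the action on the extension module -/
private def Ext_R {P : Type} [Group P] (s : Finset V) {I : Type} [Fintype I] (τ : I → K)
    (q : Ext_G V P I) : (Finset V × P → K) →ₗ[K] (Finset V × P → K) where
  toFun f x := Ext_T s (fun c => Ext_ev τ (q.1 c (x.2 * q.2⁻¹))) (fun A => f (A, x.2 * q.2⁻¹)) x.1
  map_add' f f' := by
    funext x
    simp only [Ext_T, Pi.add_apply, mul_add, sum_add_distrib]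
  map_smul' c f := by
    funext x
    simp only [Ext_T, Pi.smul_apply, smul_eq_mul, RingHom.id_apply, mul_sum]
    exact sum_congr rfl fun B _ => by ring

private theorem Ext_R_apply {P : Type} [Group P] (s : Finset V) {I : Type} [Fintype I] (τ : I → K)
    (q : Ext_G V P I) (f : Finset V × P → K) (A : Finset V) (x : P) :
    Ext_R s τ q f (A, x) =
      Ext_T s (fun c => Ext_ev τ (q.1 c (x * q.2⁻¹))) (fun A => f (A, x * q.2⁻¹)) A := rfl

private theorem Ext_R_inj {P : Type} [Group P] (s : Finset V) {I : Type} [Fintype I] (τ : I → K)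
    (q : Ext_G V P I) : Function.Injective (Ext_R s τ q) := by
  rw [injective_iff_map_eq_zero]
  intro f hf
  funext x
  obtain ⟨A, y⟩ := x
  have h := Ext_T_inj s (fun c => Ext_ev τ (q.1 c y)) (fun A => f (A, y)) fun A' => by
    have h1 := congrFun hf (A', y * q.2)
    rw [Ext_R_apply, mul_inv_cancel_right] at h1
    exact h1
  exact h A

/-- **The lower bound for the extension module.** Let `P' = N ⋊ P`, `N = V → P → I → ZMod 2`
(additive group, written multiplicatively), `P` acts by `(p • a) v x = a v (x * p)`. For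
`a : V → P → K` put `(T a f) (A, x) = ∑ B ∈ (A ∩ s).powerset, (∏ c ∈ B, a c x) * f (A \ B, x)`, and
`ev : (I → ZMod 2) → K`, `c ↦ ∑ i, c i * τ i`. `g' v = (Pi.single v (fun x => Pi.single (ι v x) 1), g v)` for
`v ∈ s` and `(0, g v)` for `v ∉ s`. Apply `lower` with `J = Finset V × P` and
`R (a, p) f (A, x) = (T (ev a) f) (A, x * p⁻¹)`. (`T a` is injective by induction on `A`; the identity is
`T a (1 + E_v c) = T (a + single v c)`.) -/
theorem lower_rE (G : SimpleGraph V) (n : ℕ) {P : Type} [Group P] [Fintype P] (D : PG G P)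
    (s : Finset V) {I : Type} [Fintype I] [DecidableEq I] (ι : V → P → I) (τ : I → K)
    (hι : ∀ v u, (u = v ∨ G.Adj v u) → ∀ p, ι v (p * D.g u) = ι v p) :
    ∃ (P' : Type) (_ : Group P') (_ : Fintype P') (D' : PG G P'),
      Fintype.card (Finset V × P) * dz K n D' ≤
        Fintype.card P' * Module.finrank K (Zs K G n (rE D s fun v p => τ (ι v p))) := by
  refine ⟨Ext_G V P I, Ext_group V P I, Fintype.ofFinite _, Ext_D D s ι hι, ?_⟩
  let _ : Fintype (Ext_G V P I) := Fintype.ofFinite _
  refine lower G n (Ext_D D s ι hι) _ (Ext_R s τ) (Ext_R_inj s τ) ?_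
  intro q v f
  funext x
  obtain ⟨A, x⟩ := x
  have hg2 : (q * (Ext_D D s ι hι).g v).2 = q.2 * D.g v := rfl
  have hgg : D.g v * D.g v = 1 := D.sq v
  have hginv : (D.g v)⁻¹ = D.g v := inv_eq_of_mul_eq_one_right hgg
  have hx : x * D.g v * (q.2 * D.g v)⁻¹ = x * q.2⁻¹ := by
    rw [mul_inv_rev, hginv, mul_assoc x, ← mul_assoc (D.g v), hgg, one_mul]
  have hrhs := Ext_R_apply s τ q f A x
  have hlhs : ∀ A', Ext_R s τ (q * (Ext_D D s ι hι).g v) f (A', x * D.g v) =
      Ext_T s (fun c => Ext_ev τ ((q * (Ext_D D s ι hι).g v).1 c (x * q.2⁻¹)))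
        (fun A => f (A, x * q.2⁻¹)) A' := by
    intro A'
    rw [Ext_R_apply, hg2, hx]
  have hne : ∀ c, c ≠ v → Ext_ev τ ((q * (Ext_D D s ι hι).g v).1 c (x * q.2⁻¹)) =
      Ext_ev τ (q.1 c (x * q.2⁻¹)) := by
    intro c hc
    rw [Ext_mul_fst]
    change Ext_ev τ (q.1 c (x * q.2⁻¹) + if c = v ∧ v ∈ s then _ else _) = _
    rw [if_neg fun h => hc h.1, add_zero]
  change Ext_R s τ (q * (Ext_D D s ι hι).g v) f (A, x * D.g v) +
    (if v ∈ s ∧ v ∈ A then τ (ι v x) *
      Ext_R s τ (q * (Ext_D D s ι hι).g v) f (A.erase v, x * D.g v) else 0) = Ext_R s τ q f (A, x)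
  rw [hlhs A, hlhs (A.erase v), hrhs]
  by_cases hvs : v ∈ s
  · have hv : Ext_ev τ ((q * (Ext_D D s ι hι).g v).1 v (x * q.2⁻¹)) =
        Ext_ev τ (q.1 v (x * q.2⁻¹)) + τ (ι v x) := by
      rw [Ext_mul_fst]
      change Ext_ev τ (q.1 v (x * q.2⁻¹) +
        if v = v ∧ v ∈ s then Pi.single (ι v (x * q.2⁻¹ * q.2)) 1 else 0) = _
      rw [if_pos ⟨rfl, hvs⟩, inv_mul_cancel_right, Ext_ev_single]
    by_cases hvA : v ∈ A
    · rw [if_pos ⟨hvs, hvA⟩,
        Ext_T_on s (fun c => Ext_ev τ (q.1 c (x * q.2⁻¹))) _ (τ (ι v x)) _ A v hvA hvs hne hv,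
        Ext_T_off s (fun c => Ext_ev τ ((q * (Ext_D D s ι hι).g v).1 c (x * q.2⁻¹)))
          (fun c => Ext_ev τ (q.1 c (x * q.2⁻¹))) _ (A.erase v)
          (fun c hc => hne c (ne_of_mem_erase hc)), add_assoc, CharTwo.add_self_eq_zero, add_zero]
    · rw [if_neg fun h => hvA h.2, add_zero]
      exact Ext_T_off s _ _ _ A fun c hc => hne c fun h => hvA (h ▸ hc)
  · rw [if_neg fun h => hvs h.1, add_zero]
    have hall : ∀ c, Ext_ev τ ((q * (Ext_D D s ι hι).g v).1 c (x * q.2⁻¹)) =
        Ext_ev τ (q.1 c (x * q.2⁻¹)) := by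
      intro c
      rw [Ext_mul_fst]
      change Ext_ev τ (q.1 c (x * q.2⁻¹) + if c = v ∧ v ∈ s then _ else _) = _
      rw [if_neg fun h => hvs h.2, add_zero]
    exact Ext_T_off s _ _ _ A fun c _ => hall c

end Pool.Agent.H77.SW

end

section

/-!
# Project S9, block T3: cofinality of the wall tower

`cofinal`: a decreasing sequence `Γ` of normal subgroups of a group `W` with generators `s v`, which is compatible
with the retractions onto the subgroups generated by subsets of the generators (`ret`) and such that the elements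
of `Γ (m + 1)` do not cross the walls of level `m` (modulo two, `wall`: potentials `ψ` which only change along the
edges of the type `v`, by a `Γ m`-invariant function), is cofinal among the kernels of homomorphisms to finite
two-groups.
-/

set_option autoImplicit false

open Subgroup

namespace Pool.Agent.S9

/-- a fixed point free involution has a potential -/
theorem exists_flip {X : Type*} (z : X → X) (h1 : ∀ x, z (z x) = x) (h2 : ∀ x, z x ≠ x) :
    ∃ p : X → ZMod 2, ∀ x, p (z x) = p x + 1 := by
  classical
  letI : LinearOrder X := linearOrderOfSTO WellOrderingRel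
  refine ⟨fun x => if x < z x then 0 else 1, fun x => ?_⟩
  simp only [h1]
  rcases lt_trichotomy x (z x) with h | h | h
  · rw [if_neg (not_lt.2 h.le), if_pos h, zero_add]
  · exact absurd h.symm (h2 x)
  · rw [if_pos h, if_neg (not_lt.2 h.le)]
    decide

section

variable {W V : Type*} [Group W] [DecidableEq V] (s : V → W)
  (Γ : ℕ → Subgroup W)

/-- The elements of `Γ (m + 1)` do not cross the walls of level `m`: every function `ψ` on `W` which only changes
along the edges of the type `v`, by a `Γ m`-invariant function, has the same value at `1` and at `x ∈ Γ (m + 1)`. -/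
def Wall : Prop :=
  ∀ (m : ℕ) (v : V) (ψ : W → ZMod 2), (∀ u, u ≠ v → ∀ w, ψ (w * s u) = ψ w) →
    (∀ x ∈ Γ m, ∀ w, ψ (x * w * s v) + ψ (x * w) = ψ (w * s v) + ψ w) →
    ∀ x ∈ Γ (m + 1), ψ x = ψ 1

/-- The sequence `Γ` is compatible with the retractions. -/
def Retr : Prop :=
  ∀ S : Finset V, ∃ r : W →* W, (∀ u, r (s u) = if u ∈ S then s u else 1) ∧
    ∀ m, ∀ x ∈ Γ m, r x ∈ Γ m

variable {s Γ}

/-- the last step: one central involution -/
theorem step (hn : ∀ m, (Γ m).Normal) (wall : Wall s Γ) {Q : Type*} [Group Q] (f : W →* Q) {m : ℕ}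
    {z : Q} (hz : z ≠ 1) (hzz : z * z = 1) (hc : ∀ q : Q, q * z = z * q)
    (hf : ∀ x ∈ Γ m, f x = 1 ∨ f x = z) (v : V)
    (hv : ∀ x ∈ Γ m, x ∈ closure (s '' {u | u ≠ v}) → f x = 1) (hn1 : ∀ x ∈ Γ (m + 1), x ∈ Γ m) :
    ∀ x ∈ Γ (m + 1), f x = 1 := by
  classical
  by_cases hne : ∃ y ∈ Γ m, f y = z
  swap
  · intro x hx
    rcases hf x (hn1 x hx) with h | h
    · exact h
    · exact absurd ⟨x, hn1 x hx, h⟩ hne
  obtain ⟨y, hy, hfy⟩ := hne
  have hΓ := hn m
  set K : Subgroup W := Γ m ⊓ f.ker with hK
  haveI hKn : K.Normal := inferInstance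
  set L : Subgroup W := K ⊔ closure (s '' {u | u ≠ v}) with hL
  have hKL : K ≤ L := le_sup_left
  -- `y` is not in `L`
  have hyL : y ∉ L := by
    intro h
    rw [hL, Subgroup.mem_sup_of_normal_left] at h
    obtain ⟨k, hk, u, hu, hku⟩ := h
    have h1 : f u = z := by
      rw [← hfy, ← hku, map_mul, (MonoidHom.mem_ker).1 hk.2, one_mul]
    have h2 : u ∈ Γ m := by
      have : u = k⁻¹ * y := by rw [← hku]; group
      rw [this]
      exact (Γ m).mul_mem ((Γ m).inv_mem hk.1) hy
    exact hz (h1 ▸ hv u h2 hu)
  -- elements of `Γ m` with the value `1`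
  have key1 : ∀ x ∈ Γ m, f x = 1 → ∀ w : W, ((x * w : W) : W ⧸ L) = (w : W ⧸ L) := by
    intro x hx hfx w
    rw [QuotientGroup.eq]
    apply hKL
    have : (x * w)⁻¹ * w = w⁻¹ * x⁻¹ * (w⁻¹)⁻¹ := by group
    rw [this]
    exact hKn.conj_mem _ (K.inv_mem ⟨hx, hfx⟩) _
  have key2 : ∀ x ∈ Γ m, f x = z → ∀ w : W, ((x * w : W) : W ⧸ L) = ((y * w : W) : W ⧸ L) := by
    intro x hx hfx w
    have h1 := key1 (x * y⁻¹) ((Γ m).mul_mem hx ((Γ m).inv_mem hy))
      (by rw [map_mul, map_inv, hfx, hfy, mul_inv_cancel]) (y * w)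
    rw [← h1]
    congr 1
    group
  obtain ⟨p, hp⟩ := exists_flip (X := W ⧸ L) (fun x => y • x) (by
    intro x
    induction x using QuotientGroup.induction_on with
    | H w =>
      show ((y * (y * w) : W) : W ⧸ L) = _
      rw [← mul_assoc]
      exact key1 _ ((Γ m).mul_mem hy hy) (by rw [map_mul, hfy, hzz]) w) (by
    intro x
    induction x using QuotientGroup.induction_on with
    | H w =>
      intro h
      have h1 : ((y * w : W) : W ⧸ L) = (w : W ⧸ L) := h
      rw [QuotientGroup.eq] at h1
      have h2 : w⁻¹ * y * w ∈ L := by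
        have := L.inv_mem h1
        have e : ((y * w)⁻¹ * w)⁻¹ = w⁻¹ * y * w := by group
        rwa [e] at this
      apply hyL
      -- `w⁻¹ y w = y k`
      have h3 : y⁻¹ * (w⁻¹ * y * w) ∈ K := by
        refine ⟨?_, ?_⟩
        · refine (Γ m).mul_mem ((Γ m).inv_mem hy) ?_
          have := hΓ.conj_mem y hy w⁻¹
          rwa [inv_inv] at this
        · refine (MonoidHom.mem_ker).2 ?_
          simp only [map_mul, map_inv, hfy]
          have := hc (f w)⁻¹
          rw [this]
          group
      have h4 : y = (w⁻¹ * y * w) * (y⁻¹ * (w⁻¹ * y * w))⁻¹ := by group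
      rw [h4]
      exact L.mul_mem h2 (L.inv_mem (hKL h3)))
  have hp1 : ∀ x ∈ Γ m, f x = z → ∀ w : W, p ((x * w : W) : W ⧸ L) = p (w : W ⧸ L) + 1 := by
    intro x hx hfx w
    rw [key2 x hx hfx w]
    exact hp (w : W ⧸ L)
  have hw := wall m v (fun w => p (w : W ⧸ L)) (by
    intro u hu w
    show p _ = p _
    congr 1
    rw [QuotientGroup.eq]
    apply (le_sup_right : closure (s '' {u | u ≠ v}) ≤ L)
    have : (w * s u)⁻¹ * w = (s u)⁻¹ := by group
    rw [this]
    exact Subgroup.inv_mem _ (subset_closure ⟨u, hu, rfl⟩)) (by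
    intro x hx w
    show p _ + p _ = p _ + p _
    rcases hf x hx with h | h
    · rw [mul_assoc, key1 x hx h, key1 x hx h]
    · rw [mul_assoc, hp1 x hx h, hp1 x hx h]
      have : (1 : ZMod 2) + 1 = 0 := by decide
      linear_combination this)
  intro x hx
  rcases hf x (hn1 x hx) with h | h
  · exact h
  · exfalso
    have h1 : p (x : W ⧸ L) = p ((1 : W) : W ⧸ L) := hw x hx
    have h2 := hp1 x (hn1 x hx) h 1
    rw [mul_one, h1] at h2
    exact one_ne_zero (left_eq_add.1 h2)

/-- **Cofinality**: every homomorphism to a finite two-group is trivial on some `Γ m`. -/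
theorem cofinal [Finite V] (gen : closure (Set.range s) = ⊤) (hn : ∀ m, (Γ m).Normal)
    (anti : Antitone Γ) (ret : Retr s Γ) (wall : Wall s Γ) {Q : Type*} [Group Q] [Finite Q]
    (hQ : IsPGroup 2 Q) (f : W →* Q) : ∃ m, ∀ x ∈ Γ m, f x = 1 := by
  classical
  haveI := Fintype.ofFinite V
  -- the induction on the set of the generators which are not killed
  suffices H : ∀ (S : Finset V) (k : ℕ) (Q : Type _) [Group Q] [Finite Q], IsPGroup 2 Q → Nat.card Q ≤ k →
      ∀ f : W →* Q, (∀ u ∉ S, f (s u) = 1) → ∃ m, ∀ x ∈ Γ m, f x = 1 from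
    H Finset.univ (Nat.card Q) Q hQ le_rfl f (fun u hu => absurd (Finset.mem_univ u) hu)
  intro S
  induction S using Finset.induction_on with
  | empty =>
    intro k Q _ _ _ _ f hf
    refine ⟨0, fun x _ => ?_⟩
    have h1 : f = 1 := by
      refine MonoidHom.eq_of_eqOn_dense gen ?_
      rintro _ ⟨u, rfl⟩
      exact hf u (by simp)
    rw [h1]
    rfl
  | insert v S hvS ih =>
    intro k
    induction k with
    | zero =>
      intro Q _ _ _ hk
      exact absurd (Nat.card_pos (α := Q)) (by omega)
    | succ k ihk =>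
      intro Q _ _ hQ hk f hf
      by_cases hQ1 : Subsingleton Q
      · exact ⟨0, fun x _ => Subsingleton.elim _ _⟩
      haveI : Nontrivial Q := not_subsingleton_iff_nontrivial.1 hQ1
      haveI : Fact (Nat.Prime 2) := ⟨Nat.prime_two⟩
      -- a central involution
      haveI := hQ.center_nontrivial
      obtain ⟨z, hz⟩ : ∃ z : center Q, orderOf z = 2 := by
        have h1 : IsPGroup 2 (center Q) := hQ.to_subgroup _
        obtain ⟨n, hn⟩ := IsPGroup.iff_card.1 h1
        refine exists_prime_orderOf_dvd_card' 2 ?_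
        rcases n with _ | n
        · exfalso
          rw [pow_zero] at hn
          exact absurd hn (Finite.one_lt_card (α := center Q)).ne'
        · rw [hn, pow_succ]
          exact dvd_mul_left _ _
      have hz1 : (z : Q) ≠ 1 := by
        intro h
        have : z = 1 := Subtype.ext h
        rw [this, orderOf_one] at hz
        omega
      have hzz : (z : Q) * z = 1 := by
        have h1 : z ^ 2 = 1 := hz ▸ pow_orderOf_eq_one z
        rw [pow_two] at h1
        exact congrArg Subtype.val h1
      have hzc : ∀ q : Q, q * z = z * q := fun q => mem_center_iff.1 z.2 q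
      set Z : Subgroup Q := zpowers (z : Q) with hZ
      have hZmem : ∀ q ∈ Z, q = 1 ∨ q = (z : Q) := by
        rintro q ⟨n, rfl⟩
        rcases Int.even_or_odd n with h | h
        · left
          obtain ⟨a, rfl⟩ := h
          show (z : Q) ^ (a + a) = 1
          rw [zpow_add, ← (Commute.refl (z : Q)).mul_zpow, hzz, one_zpow]
        · right
          obtain ⟨a, rfl⟩ := h
          show (z : Q) ^ (2 * a + 1) = z
          rw [zpow_add, two_mul, zpow_add, ← (Commute.refl (z : Q)).mul_zpow, hzz, one_zpow, one_mul,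
            zpow_one]
      haveI hZn : Z.Normal := by
        refine ⟨fun q hq g => ?_⟩
        rcases hZmem q hq with h | h
        · rw [h]
          simp
        · rw [h, hzc g, mul_assoc, mul_inv_cancel, mul_one]
          exact mem_zpowers _
      have hcard : Nat.card (Q ⧸ Z) ≤ k := by
        have h1 := Subgroup.card_eq_card_quotient_mul_card_subgroup Z
        have h2 : 1 < Nat.card Z := by
          haveI : Nontrivial Z := ⟨⟨⟨z, mem_zpowers _⟩, 1, fun h => hz1 (congrArg Subtype.val h)⟩⟩
          exact Finite.one_lt_card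
        have h3 : 0 < Nat.card (Q ⧸ Z) := Nat.card_pos
        nlinarith
      obtain ⟨m1, hm1⟩ := ihk (Q ⧸ Z) (hQ.to_quotient Z) hcard
        ((QuotientGroup.mk' Z).comp f) (fun u hu => by
          show ((f (s u) : Q) : Q ⧸ Z) = 1
          rw [hf u hu]
          rfl)
      obtain ⟨r, hr, hrΓ⟩ := ret S
      obtain ⟨m2, hm2⟩ := ih (Nat.card Q) Q hQ le_rfl (f.comp r) (fun u hu => by
          show f (r (s u)) = 1
          rw [hr, if_neg hu, map_one])
      refine ⟨max m1 m2 + 1, step hn wall f (m := max m1 m2) hz1 hzz hzc ?_ v ?_ ?_⟩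
      · intro x hx
        have h1 := hm1 x (anti (le_max_left m1 m2) hx)
        have h2 : ((f x : Q) : Q ⧸ Z) = 1 := h1
        exact hZmem _ ((QuotientGroup.eq_one_iff _).1 h2)
      · intro x hx hxu
        have h1 := hm2 x (anti (le_max_right m1 m2) hx)
        have h2 : ∀ y ∈ closure (s '' {u | u ≠ v}), f (r y) = f y := by
          intro y hy
          induction hy using closure_induction with
          | mem y hy =>
            obtain ⟨u, hu, rfl⟩ := hy
            rw [hr]
            split_ifs with h
            · rfl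
            · rw [map_one, hf u]
              rw [Finset.mem_insert, not_or]
              exact ⟨hu, h⟩
          | one => simp
          | mul a b _ _ ha hb => simp only [map_mul, ha, hb]
          | inv a _ ha => simp only [map_inv, ha]
        rw [← h2 x hxu]
        exact h1
      · intro x hx
        exact anti (Nat.le_succ _) hx

end

end Pool.Agent.S9

end

section

/-!
# S9, block T3: the hypothesis `Wall` of the cofinality theorem for the tower of homomorphisms to `ℤ`

`W` is a group with involutions `s v` which commute for adjacent `v`, with the universal property of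
the right-angled Coxeter group; `Γ` is a normal subgroup killed by every homomorphism `W → ℤˣ`.
If `psi : W → ZMod 2` is constant on the cosets `w⟨s u⟩`, `u ≠ v`, and its increment in the direction
`s v` is left `Γ`-invariant, then `psi x = psi 1` for every `x ∈ Γ` at which all the homomorphisms
`Γ → ℤ` are even (`wall_even`); `wall_T`: the tower `T R` satisfies `Wall`.
-/

set_option autoImplicit false

namespace Pool.Agent.S9

open Multiplicative

/-- right induction along generators which are involutions -/
theorem gen_ind {W V : Type*} [Group W] (s : V → W) (sq : ∀ v, s v * s v = 1)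
    (gen : Subgroup.closure (Set.range s) = ⊤) {P : W → Prop} (h1 : P 1)
    (hs : ∀ w u, P w → P (w * s u)) (w : W) : P w := by
  have hw : w ∈ Subgroup.closure (Set.range s) := by rw [gen]; exact Subgroup.mem_top w
  induction hw using Subgroup.closure_induction_right with
  | one => exact h1
  | mul_right x hx y hy ih =>
    obtain ⟨u, rfl⟩ := hy
    exact hs _ _ ih
  | mul_inv_cancel x hx y hy ih =>
    obtain ⟨u, rfl⟩ := hy
    rw [inv_eq_of_mul_eq_one_right (sq u)]
    exact hs _ _ ih

/-- a wall cocycle with values in `ZMod 2` is the reduction of a homomorphism to `ℤ` -/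
theorem wall_hom {W V : Type} [Group W] (G : SimpleGraph V) (s : V → W)
    (sq : ∀ v, s v * s v = 1) (com : ∀ u v, G.Adj u v → s u * s v = s v * s u)
    (gen : Subgroup.closure (Set.range s) = ⊤)
    (lift : ∀ (H : Type) [Group H] (p : V → H), (∀ v, p v * p v = 1) →
      (∀ u v, G.Adj u v → p u * p v = p v * p u) → ∃ F : W →* H, ∀ v, F (s v) = p v)
    (Γ : Subgroup W) (hΓ : ∀ e : W →* ℤˣ, ∀ x ∈ Γ, e x = 1)
    (v : V) (psi : W → ZMod 2) (h1 : ∀ u ≠ v, ∀ w, psi (w * s u) = psi w)
    (h2 : ∀ x ∈ Γ, ∀ w, psi (x * w * s v) + psi (x * w) = psi (w * s v) + psi w) :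
    ∃ f : Γ →* Multiplicative ℤ, ∀ x : Γ, ((toAdd (f x) : ℤ) : ZMod 2) = psi x + psi 1 := by
  classical
  obtain ⟨e, he⟩ := lift ℤˣ (fun u => if u = v then -1 else 1)
    (fun u => by by_cases h : u = v <;> simp [h])
    (fun u u' _ => mul_comm _ _)
  set phi : W → ZMod 2 := fun w => psi (w * s v) + psi w with hphi
  have phiΓ : ∀ x ∈ Γ, ∀ w, phi (x * w) = phi w := fun x hx w => h2 x hx w
  have phiv : ∀ w, phi (w * s v) = phi w := by
    intro w
    simp only [hphi, mul_assoc, sq, mul_one]
    ring
  have phiu : ∀ u, G.Adj u v → ∀ w, phi (w * s u) = phi w := by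
    intro u hu w
    simp only [hphi]
    rw [mul_assoc, com u v hu, ← mul_assoc, h1 u hu.ne, h1 u hu.ne]
  set E : W → ℤ := fun w => (e w : ℤ) * (if phi w = 0 then 0 else 1) with hE
  have EΓ : ∀ x ∈ Γ, ∀ w, E (x * w) = E w := by
    intro x hx w
    simp only [hE, map_mul, hΓ e x hx, one_mul, phiΓ x hx w]
  have Ev : ∀ w, E (w * s v) = - E w := by
    intro w
    simp only [hE, map_mul, he v, if_true, phiv w]
    push_cast
    ring
  have Eu : ∀ u, G.Adj u v → ∀ w, E (w * s u) = E w := by
    intro u hu w
    simp only [hE, map_mul, he u, if_neg hu.ne, phiu u hu w, mul_one]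
  have Ec : ∀ w, ((E w : ℤ) : ZMod 2) = phi w := by
    intro w
    have h01 : ∀ t : ZMod 2, (if t = 0 then (0 : ZMod 2) else 1) = t := by decide
    rcases Int.units_eq_one_or (e w) with h | h
    · simp only [hE, h]
      push_cast
      rw [one_mul]
      exact h01 _
    · have h' : (-1 : ZMod 2) = 1 := by decide
      simp only [hE, h]
      push_cast
      rw [h', one_mul]
      exact h01 _
  -- the permutations
  set q : V → W × ℤ → W × ℤ := fun u y => (y.1 * s u, if u = v then y.2 + E y.1 else y.2) with hq
  have qq : ∀ u y, q u (q u y) = y := by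
    intro u y
    by_cases h : u = v
    · subst h
      ext
      · simp [hq, mul_assoc, sq]
      · simp [hq, Ev]
    · ext
      · simp [hq, mul_assoc, sq]
      · simp [hq, h]
  have qc : ∀ u u', G.Adj u u' → ∀ y, q u (q u' y) = q u' (q u y) := by
    intro u u' hu y
    have hc : y.1 * s u' * s u = y.1 * s u * s u' := by
      rw [mul_assoc, mul_assoc, com u u' hu]
    by_cases h : u = v
    · subst h
      have h' : u' ≠ u := hu.ne'
      ext
      · simpa [hq] using hc
      · simp [hq, h', Eu u' hu.symm]
    · by_cases h' : u' = v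
      · subst h'
        ext
        · simpa [hq] using hc
        · simp [hq, h, Eu u hu]
      · ext
        · simpa [hq] using hc
        · simp [hq, h, h']
  obtain ⟨F, hF⟩ := lift (Equiv.Perm (W × ℤ))
    (fun u => ⟨q u, q u, qq u, qq u⟩)
    (fun u => by ext1 y; exact qq u y)
    (fun u u' hu => by ext1 y; exact qc u u' hu y)
  have hF' : ∀ u y, F (s u) y = q u y := by
    intro u y
    rw [hF u]
    rfl
  have sinv : ∀ u, (s u)⁻¹ = s u := fun u => inv_eq_of_mul_eq_one_right (sq u)
  have step : ∀ w u y, F (w * s u)⁻¹ y = q u (F w⁻¹ y) := by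
    intro w u y
    rw [mul_inv_rev, sinv, map_mul, Equiv.Perm.mul_apply, hF']
  -- the first coordinate
  have fst : ∀ w y, (F w⁻¹ y).1 = y.1 * w := by
    intro w y
    refine gen_ind s sq gen (P := fun w => (F w⁻¹ y).1 = y.1 * w)
      (by rw [inv_one, map_one, Equiv.Perm.one_apply, mul_one]) ?_ w
    intro w u ih
    rw [step]
    simp only [hq]
    rw [ih, mul_assoc]
  -- the equivariance
  have equi : ∀ x ∈ Γ, ∀ (k : ℤ) w (y : W × ℤ),
      F w⁻¹ (x * y.1, y.2 + k) = (x * (F w⁻¹ y).1, (F w⁻¹ y).2 + k) := by
    intro x hx k w y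
    refine gen_ind s sq gen
      (P := fun w => F w⁻¹ (x * y.1, y.2 + k) = (x * (F w⁻¹ y).1, (F w⁻¹ y).2 + k))
      (by rw [inv_one, map_one, Equiv.Perm.one_apply, Equiv.Perm.one_apply]) ?_ w
    intro w u ih
    rw [step, step, ih]
    simp only [hq, mul_assoc, EΓ x hx]
    ext
    · rfl
    · by_cases h : u = v
      · simp only [h, if_true]; ring
      · simp only [h, if_false]
  set Psi : W → ℤ := fun w => (F w⁻¹ (1, 0)).2 with hPsi
  have val : ∀ w, F w⁻¹ (1, 0) = (w, Psi w) := by
    intro w
    ext
    · rw [fst, one_mul]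
    · rfl
  have PsiΓ : ∀ x ∈ Γ, ∀ w, Psi (x * w) = Psi x + Psi w := by
    intro x hx w
    have h := equi x hx (Psi x) w (1, 0)
    simp only [mul_one, zero_add] at h
    have h' : F (x * w)⁻¹ (1, 0) = F w⁻¹ (x, Psi x) := by
      rw [mul_inv_rev, map_mul, Equiv.Perm.mul_apply, val x]
    rw [h, val] at h'
    have h'' := congrArg Prod.snd h'
    simp only at h''
    exact h''.trans (add_comm _ _)
  have Psi1 : Psi 1 = 0 := by
    rw [show Psi 1 = (F (1 : W)⁻¹ (1, 0)).2 from rfl, inv_one, map_one, Equiv.Perm.one_apply]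
  have PsiC : ∀ w, ((Psi w : ℤ) : ZMod 2) = psi w + psi 1 := by
    intro w
    refine gen_ind s sq gen (P := fun w => ((Psi w : ℤ) : ZMod 2) = psi w + psi 1) ?_ ?_ w
    · rw [Psi1]
      simp [CharTwo.add_self_eq_zero]
    · intro w u ih
      have h : Psi (w * s u) = if u = v then Psi w + E w else Psi w := by
        simp only [hPsi]
        rw [step, val]
      rw [h]
      by_cases hu : u = v
      · subst hu
        rw [if_pos rfl]
        push_cast
        rw [ih, Ec]
        have h3 : psi w + psi w = 0 := CharTwo.add_self_eq_zero _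
        simp only [hphi]
        linear_combination h3
      · rw [if_neg hu, ih, h1 u hu]
  refine ⟨⟨⟨fun x => ofAdd (Psi x), ?_⟩, ?_⟩, ?_⟩
  · change ofAdd (Psi 1) = 1
    rw [Psi1]
    rfl
  · intro x y
    change ofAdd (Psi (x * y)) = ofAdd (Psi x) * ofAdd (Psi y)
    rw [PsiΓ x x.2, ofAdd_add]
  · intro x
    exact PsiC x

/-- the hypothesis `wall` of the cofinality theorem for the subgroup `nxt Γ` of the elements at which
all the homomorphisms `Γ → ℤ` are even -/
theorem wall_even {W V : Type} [Group W] (G : SimpleGraph V) (s : V → W)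
    (sq : ∀ v, s v * s v = 1) (com : ∀ u v, G.Adj u v → s u * s v = s v * s u)
    (gen : Subgroup.closure (Set.range s) = ⊤)
    (lift : ∀ (H : Type) [Group H] (p : V → H), (∀ v, p v * p v = 1) →
      (∀ u v, G.Adj u v → p u * p v = p v * p u) → ∃ F : W →* H, ∀ v, F (s v) = p v)
    (Γ : Subgroup W) (hΓ : ∀ e : W →* ℤˣ, ∀ x ∈ Γ, e x = 1)
    (v : V) (psi : W → ZMod 2) (h1 : ∀ u ≠ v, ∀ w, psi (w * s u) = psi w)
    (h2 : ∀ x ∈ Γ, ∀ w, psi (x * w * s v) + psi (x * w) = psi (w * s v) + psi w)
    (x : W) (hx : x ∈ Γ) (he : ∀ f : Γ →* Multiplicative ℤ, Even (toAdd (f ⟨x, hx⟩))) :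
    psi x = psi 1 := by
  obtain ⟨f, hf⟩ := wall_hom G s sq com gen lift Γ hΓ v psi h1 h2
  have h := hf ⟨x, hx⟩
  rw [(ZMod.intCast_zmod_eq_zero_iff_dvd _ 2).2 (by exact_mod_cast (he f).two_dvd)] at h
  have h3 : psi 1 + psi 1 = 0 := CharTwo.add_self_eq_zero _
  have h' : (0 : ZMod 2) = psi x + psi 1 := h
  linear_combination -h' - h3

/-- every homomorphism `W → ℤˣ` kills the kernel of the bits -/
theorem unit_one {V : Type} [DecidableEq V] [Fintype V] {G : SimpleGraph V} {W : Type} [Group W]
    (R : Rac G W) (e : W →* ℤˣ) (x : W) (hx : ∀ v, R.b x v = 0) : e x = 1 := by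
  classical
  -- the sign attached to a bit
  have hsg : ∀ t t' : ZMod 2, ∀ y : ℤˣ, (if t + t' = 0 then (1 : ℤˣ) else y) =
      (if t = 0 then 1 else y) * (if t' = 0 then 1 else y) := by
    intro t t' y
    rcases Int.units_eq_one_or y with rfl | rfl <;> revert t t' <;> decide
  have key : ∀ w : W, e w = ∏ v, (if R.b w v = 0 then (1 : ℤˣ) else e (R.s v)) := by
    intro w
    refine gen_ind R.s R.sq R.gen (P := fun w => e w = ∏ v, (if R.b w v = 0 then (1 : ℤˣ) else e (R.s v)))
      ?_ ?_ w
    · simp [R.b_one]
    · intro w u ih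
      rw [map_mul, ih]
      have h : ∀ v, (if R.b (w * R.s u) v = 0 then (1 : ℤˣ) else e (R.s v)) =
          (if R.b w v = 0 then (1 : ℤˣ) else e (R.s v)) * (if v = u then e (R.s u) else 1) := by
        intro v
        rw [R.b_mul, hsg, R.b_s]
        congr 1
        by_cases h : u = v
        · subst h
          simp
        · have h' : ¬ v = u := fun h' => h h'.symm
          simp only [if_neg h, if_neg h', if_true]
      rw [Finset.prod_congr rfl fun v _ => h v, Finset.prod_mul_distrib,
        Finset.prod_ite_eq' Finset.univ u, if_pos (Finset.mem_univ u)]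
  rw [key x]
  exact Finset.prod_eq_one fun v _ => by rw [if_pos (hx v)]

/-- **the hypothesis `Wall` for the tower of homomorphisms to `ℤ`** -/
theorem wall_T {V : Type} [DecidableEq V] [Fintype V] {G : SimpleGraph V} {W : Type} [Group W]
    (R : Rac G W) : Wall R.s (T R) := by
  have h0 : ∀ m, T R m ≤ R.bh.ker := by
    intro m
    induction m with
    | zero => exact le_rfl
    | succ m ih => exact fun x hx => ih hx.1
  intro m v psi h1 h2 x hx
  obtain ⟨hx1, hx2⟩ := hx
  refine wall_even G R.s R.sq R.comm R.gen R.lift (T R m) ?_ v psi h1 h2 x hx1 hx2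
  intro e y hy
  refine unit_one R e y fun u => ?_
  have h3 : R.bh y = 1 := h0 m hy
  show toAdd (R.bh y) u = 0
  rw [h3]
  rfl

end Pool.Agent.S9

end

section

/-!
# Project S9, block G: the formal induction of effaceability

`W` is a group with marked involutions `g v`, which commute for the edges of the graph `G`; cochains on the cube complex
of `W` are families `γ A : W → M`, `A` a clique, `γ A` invariant under the right translations by `g v`, `v ∈ A`. `O` is
a class of functions `W → M`. If the cocycles of degree one in `O` are exact in `O` (for all sets of letters `T` and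
all cliques `C` which commute with `T`, with invariance under `C`), so are the cocycles of all positive degrees.
-/

set_option autoImplicit false
set_option linter.unusedSectionVars false

open Finset

namespace Pool.Agent.S9

variable {V : Type} [DecidableEq V]

section Ind

variable {W : Type} [Group W] {M : Type} [AddCommGroup M]

/-- the function `γ` is invariant under the right translations by the letters of `S` -/
def GInv (g : V → W) (S : Finset V) (γ : W → M) : Prop := ∀ a ∈ S, ∀ w, γ (w * g a) = γ w

/-- the coboundary -/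
def gd (g : V → W) (η : Finset V → W → M) (A : Finset V) (w : W) : M :=
  ∑ v ∈ A, (η (A.erase v) w + η (A.erase v) (w * g v))

/-- a sum of a symmetric function over the pairs of different elements vanishes -/
theorem gsum_pairs (hM : ∀ x : M, x + x = 0) (A : Finset V) (F : V → V → M)
    (hF : ∀ u ∈ A, ∀ w ∈ A, F u w = F w u) : ∑ u ∈ A, ∑ w ∈ A.erase u, F u w = 0 := by
  induction A using Finset.induction_on with
  | empty => rfl
  | insert a A ha ih =>
    rw [sum_insert ha, erase_insert ha]
    have h1 : ∀ u ∈ A, ∑ w ∈ (insert a A).erase u, F u w = F u a + ∑ w ∈ A.erase u, F u w := by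
      intro u hu
      have hua : u ≠ a := fun h => ha (h ▸ hu)
      rw [erase_insert_of_ne hua.symm, sum_insert (fun h => ha (mem_of_mem_erase h))]
    rw [sum_congr rfl h1, sum_add_distrib, ← add_assoc, ih fun u hu w hw =>
      hF u (mem_insert_of_mem hu) w (mem_insert_of_mem hw), add_zero, ← sum_add_distrib]
    refine sum_eq_zero fun u hu => ?_
    rw [hF a (mem_insert_self _ _) u (mem_insert_of_mem hu), hM]

variable (G : SimpleGraph V) (g : V → W) (hsq : ∀ v, g v * g v = 1)
  (hcomm : ∀ u v, G.Adj u v → g u * g v = g v * g u) (hM : ∀ x : M, x + x = 0)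

include hcomm hM in
/-- the coboundary of a coboundary vanishes -/
theorem gd_gd (η : Finset V → W → M) {A : Finset V} (hA : G.IsClique (A : Set V)) (w : W) :
    gd g (gd g η) A w = 0 := by
  unfold gd
  have h1 : ∀ u ∈ A, (∑ v ∈ A.erase u, (η ((A.erase u).erase v) w +
      η ((A.erase u).erase v) (w * g v)) + ∑ v ∈ A.erase u, (η ((A.erase u).erase v)
      (w * g u) + η ((A.erase u).erase v) (w * g u * g v))) =
      ∑ v ∈ A.erase u, (η ((A.erase u).erase v) w + η ((A.erase u).erase v) (w * g v) +
        (η ((A.erase u).erase v) (w * g u) + η ((A.erase u).erase v) (w * g u * g v))) :=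
    fun u _ => by rw [← sum_add_distrib]
  rw [sum_congr rfl h1]
  refine gsum_pairs hM A _ fun u hu v hv => ?_
  rw [erase_right_comm]
  by_cases huv : u = v
  · rw [huv]
  · have h2 : w * g u * g v = w * g v * g u := by
      rw [mul_assoc, mul_assoc, hcomm u v (hA hu hv huv)]
    rw [h2]
    abel

include hsq hcomm in
/-- the coboundary of an invariant cochain is invariant -/
theorem gd_inv (η : Finset V → W → M) {A : Finset V} {a : V} (ha : ∀ u ∈ A, u ≠ a → G.Adj u a)
    (hη : ∀ u ∈ A, u ≠ a → ∀ w, η (A.erase u) (w * g a) = η (A.erase u) w) (w : W) :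
    gd g η A (w * g a) = gd g η A w := by
  unfold gd
  refine sum_congr rfl fun u hu => ?_
  by_cases hua : u = a
  · subst hua
    rw [mul_assoc, hsq, mul_one, add_comm]
  · rw [mul_assoc, ← hcomm u a (ha u hu hua), ← mul_assoc, hη u hu hua, hη u hu hua]

variable (O : AddSubgroup (W → M)) (hO : ∀ f ∈ O, ∀ v, (fun w => f (w * g v)) ∈ O)

include hO in
theorem gd_mem (η : Finset V → W → M) (A : Finset V) (hη : ∀ u ∈ A, η (A.erase u) ∈ O) :
    gd g η A ∈ O := by
  have h1 : gd g η A = ∑ u ∈ A, (η (A.erase u) + fun w => η (A.erase u) (w * g u)) := by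
    funext w
    rw [Finset.sum_apply]
    rfl
  rw [h1]
  exact AddSubgroup.sum_mem _ fun u hu => AddSubgroup.add_mem _ (hη u hu) (hO _ (hη u hu) u)

include hsq hcomm hM hO in
/-- **The formal induction**: if the cocycles of degree one are exact, so are all cocycles of positive degree. -/
theorem g_ind (H1 : ∀ T C : Finset V, G.IsClique (C : Set V) → (∀ u ∈ T, ∀ a ∈ C, G.Adj u a) →
      ∀ c : V → W → M, (∀ u ∈ T, c u ∈ O) →
      (∀ u ∈ T, ∀ a, a = u ∨ a ∈ C → ∀ w, c u (w * g a) = c u w) →
      (∀ u ∈ T, ∀ v ∈ T, G.Adj u v → ∀ w, c u w + c v (w * g u) = c v w + c u (w * g v)) →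
      ∃ f ∈ O, (∀ a ∈ C, ∀ w, f (w * g a) = f w) ∧ ∀ u ∈ T, ∀ w, f (w * g u) = f w + c u w) :
    ∀ (N : ℕ) (T C : Finset V), T.card ≤ N → G.IsClique (C : Set V) →
    (∀ u ∈ T, ∀ a ∈ C, G.Adj u a) → ∀ k : ℕ, 1 ≤ k → ∀ γ : Finset V → W → M,
    (∀ A ⊆ T, G.IsClique (A : Set V) → A.card = k → γ A ∈ O ∧ GInv g (A ∪ C) (γ A)) →
    (∀ A ⊆ T, G.IsClique (A : Set V) → A.card = k + 1 → ∀ w, gd g γ A w = 0) →
    ∃ η : Finset V → W → M,
      (∀ B ⊆ T, G.IsClique (B : Set V) → B.card + 1 = k → η B ∈ O ∧ GInv g (B ∪ C) (η B)) ∧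
      ∀ A ⊆ T, G.IsClique (A : Set V) → A.card = k → ∀ w, gd g η A w = γ A w := by
  intro N
  induction N with
  | zero =>
    intro T C hT hC hTC k hk γ hinv hco
    have hT0 : T = ∅ := card_eq_zero.1 (Nat.le_zero.1 hT)
    refine ⟨fun _ _ => 0, fun B _ _ _ => ⟨AddSubgroup.zero_mem _, fun a _ w => rfl⟩,
      fun A hA _ hAk w => ?_⟩
    rw [hT0, subset_empty] at hA
    rw [hA, card_empty] at hAk
    omega
  | succ N ih =>
    intro T C hT hC hTC k hk γ hinv hco
    rcases Nat.lt_or_ge 1 k with hk2 | hk1
    · -- degree at least two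
      rcases T.eq_empty_or_nonempty with hT0 | ⟨v, hv⟩
      · refine ⟨fun _ _ => 0, fun B _ _ _ => ⟨AddSubgroup.zero_mem _, fun a _ w => rfl⟩,
          fun A hA _ hAk w => ?_⟩
        rw [hT0, subset_empty] at hA
        rw [hA, card_empty] at hAk
        omega
      have hTv : (T.erase v).card ≤ N := by
        have := card_erase_of_mem hv
        omega
      obtain ⟨η0, hη0, hd0⟩ := ih (T.erase v) C hTv hC
        (fun u hu => hTC u (mem_of_mem_erase hu)) k hk γ
        (fun A hA => hinv A (hA.trans (erase_subset _ _)))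
        (fun A hA => hco A (hA.trans (erase_subset _ _)))
      -- the extension by zero
      obtain ⟨η0', hη0'⟩ : ∃ η0' : Finset V → W → M, ∀ B,
          η0' B = if v ∈ B then 0 else η0 B :=
        ⟨fun B => if v ∈ B then 0 else η0 B, fun _ => rfl⟩
      have hsub : ∀ B ⊆ T, v ∉ B → B ⊆ T.erase v := fun B hB hvB =>
        subset_erase.2 ⟨hB, hvB⟩
      have hinv0 : ∀ B ⊆ T, G.IsClique (B : Set V) → B.card + 1 = k →
          η0' B ∈ O ∧ GInv g (B ∪ C) (η0' B) := by
        intro B hB hBc hBk
        rw [hη0']
        split_ifs with h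
        · exact ⟨AddSubgroup.zero_mem _, fun a _ w => rfl⟩
        · exact hη0 B (hsub B hB h) hBc hBk
      obtain ⟨γ', hγ'⟩ : ∃ γ' : Finset V → W → M, ∀ A w, γ' A w = γ A w + gd g η0' A w :=
        ⟨fun A w => γ A w + gd g η0' A w, fun _ _ => rfl⟩
      have hadj : ∀ A ⊆ T, G.IsClique (A : Set V) → ∀ a ∈ A ∪ C, ∀ u ∈ A, u ≠ a → G.Adj u a := by
        intro A hA hAc a ha u hu hua
        rcases mem_union.1 ha with h | h
        · exact hAc hu h hua
        · exact hTC u (hA hu) a h
      have hcl : ∀ A : Finset V, G.IsClique (A : Set V) → ∀ B ⊆ A, G.IsClique (B : Set V) :=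
        fun A hA B hB => hA.subset (by exact_mod_cast hB)
      have hcardE : ∀ A : Finset V, A.card = k → ∀ u ∈ A, (A.erase u).card + 1 = k := by
        intro A hA u hu
        rw [card_erase_of_mem hu]
        omega
      have hinv' : ∀ A ⊆ T, G.IsClique (A : Set V) → A.card = k →
          γ' A ∈ O ∧ GInv g (A ∪ C) (γ' A) := by
        intro A hA hAc hAk
        constructor
        · have h1 : γ' A = γ A + gd g η0' A := funext fun w => hγ' A w
          rw [h1]
          refine AddSubgroup.add_mem _ (hinv A hA hAc hAk).1 (gd_mem g O hO η0' A fun u hu => ?_)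
          exact (hinv0 (A.erase u) ((erase_subset _ _).trans hA) (hcl A hAc _ (erase_subset _ _))
            (hcardE A hAk u hu)).1
        · intro a ha w
          rw [hγ', hγ', (hinv A hA hAc hAk).2 a ha]
          congr 1
          refine gd_inv G g hsq hcomm η0' (hadj A hA hAc a ha) (fun u hu hua w => ?_) w
          refine (hinv0 (A.erase u) ((erase_subset _ _).trans hA)
            (hcl A hAc _ (erase_subset _ _)) (hcardE A hAk u hu)).2 a ?_ w
          rcases mem_union.1 ha with h | h
          · exact mem_union_left _ (mem_erase.2 ⟨fun h' => hua h'.symm, h⟩)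
          · exact mem_union_right _ h
      have hco' : ∀ A ⊆ T, G.IsClique (A : Set V) → A.card = k + 1 → ∀ w, gd g γ' A w = 0 := by
        intro A hA hAc hAk w
        have h1 := gd_gd G g hcomm hM η0' hAc w
        have h2 := hco A hA hAc hAk w
        have h3 : gd g γ' A w = gd g γ A w + gd g (gd g η0') A w := by
          unfold gd
          rw [← sum_add_distrib]
          refine sum_congr rfl fun u _ => ?_
          rw [hγ', hγ']
          unfold gd
          abel
        rw [h3, h1, h2, add_zero]
      have hz : ∀ A ⊆ T, v ∉ A → G.IsClique (A : Set V) → A.card = k → ∀ w, γ' A w = 0 := by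
        intro A hA hvA hAc hAk w
        have h1 := hd0 A (hsub A hA hvA) hAc hAk w
        have h2 : gd g η0' A w = gd g η0 A w := by
          unfold gd
          refine sum_congr rfl fun u _ => ?_
          have h3 : v ∉ A.erase u := fun h => hvA (mem_of_mem_erase h)
          rw [hη0', if_neg h3]
        rw [hγ', h2, h1, hM]
      -- the link of `v`
      obtain ⟨lk, hlk⟩ : ∃ lk : Finset V, ∀ u, u ∈ lk ↔ u ∈ T ∧ G.Adj v u := by
        classical
        exact ⟨T.filter fun u => G.Adj v u, fun u => mem_filter⟩
      have hlkT : lk ⊆ T.erase v := fun u hu =>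
        mem_erase.2 ⟨((hlk u).1 hu).2.ne', ((hlk u).1 hu).1⟩
      have hins : ∀ B ⊆ lk, G.IsClique (B : Set V) →
          G.IsClique ((insert v B : Finset V) : Set V) := by
        intro B hB hBc
        rw [coe_insert]
        refine hBc.insert fun u hu _ => ((hlk u).1 (hB hu)).2
      have hinsT : ∀ B ⊆ lk, insert v B ⊆ T := fun B hB =>
        insert_subset hv ((hB.trans hlkT).trans (erase_subset _ _))
      have hvlk : ∀ B ⊆ lk, v ∉ B := fun B hB h => (mem_erase.1 (hlkT (hB h))).1 rfl
      obtain ⟨j, rfl⟩ : ∃ j, k = j + 1 := ⟨k - 1, by omega⟩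
      have hCv : G.IsClique ((insert v C : Finset V) : Set V) := by
        rw [coe_insert]
        exact hC.insert fun a ha _ => hTC v hv a ha
      obtain ⟨η1, hη1, hd1⟩ := ih lk (insert v C)
        ((card_le_card hlkT).trans hTv) hCv (fun u hu a ha => by
          rcases mem_insert.1 ha with h | h
          · rw [h]; exact ((hlk u).1 hu).2.symm
          · exact hTC u ((hlk u).1 hu).1 a h) j (by omega) (fun B => γ' (insert v B))
        (fun B hB hBc hBj => by
          have h1 := hinv' (insert v B) (hinsT B hB) (hins B hB hBc)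
            (by rw [card_insert_of_notMem (hvlk B hB), hBj])
          refine ⟨h1.1, fun a ha => h1.2 a ?_⟩
          rcases mem_union.1 ha with h | h
          · exact mem_union_left _ (mem_insert_of_mem h)
          · rcases mem_insert.1 h with h' | h'
            · exact mem_union_left _ (h' ▸ mem_insert_self _ _)
            · exact mem_union_right _ h')
        (fun B hB hBc hBk w => by
          have hvB := hvlk B hB
          have h1 := hco' (insert v B) (hinsT B hB) (hins B hB hBc)
            (by rw [card_insert_of_notMem hvB, hBk]) w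
          unfold gd at h1 ⊢
          rw [sum_insert hvB, erase_insert hvB,
            hz B (hB.trans (hlkT.trans (erase_subset _ _))) hvB hBc hBk,
            hz B (hB.trans (hlkT.trans (erase_subset _ _))) hvB hBc hBk, add_zero, zero_add] at h1
          rw [← h1]
          refine sum_congr rfl fun u hu => ?_
          have huv : v ≠ u := fun h => hvB (h ▸ hu)
          rw [erase_insert_of_ne huv])
      obtain ⟨η, hη⟩ : ∃ η : Finset V → W → M, ∀ B,
          η B = (if v ∈ B then η1 (B.erase v) else 0) + η0' B :=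
        ⟨fun B => (if v ∈ B then η1 (B.erase v) else 0) + η0' B, fun _ => rfl⟩
      have her : ∀ B ⊆ T, v ∈ B → G.IsClique (B : Set V) → B.erase v ⊆ lk := by
        intro B hB hvB hBc u hu
        obtain ⟨h1, h2⟩ := mem_erase.1 hu
        exact (hlk u).2 ⟨hB h2, hBc hvB h2 h1.symm⟩
      refine ⟨η, ?_, ?_⟩
      · intro B hB hBc hBk
        have h0 := hinv0 B hB hBc hBk
        by_cases h : v ∈ B
        · have h1 := hη1 (B.erase v) (her B hB h hBc) (hcl B hBc _ (erase_subset _ _))
            (by rw [card_erase_of_mem h]; have := card_pos.2 ⟨v, h⟩; omega)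
          rw [hη, if_pos h]
          refine ⟨AddSubgroup.add_mem _ h1.1 h0.1, fun a ha w => ?_⟩
          rw [Pi.add_apply, Pi.add_apply, h0.2 a ha]
          congr 1
          refine h1.2 a ?_ w
          rcases mem_union.1 ha with h' | h'
          · by_cases hav : a = v
            · exact mem_union_right _ (hav ▸ mem_insert_self _ _)
            · exact mem_union_left _ (mem_erase.2 ⟨hav, h'⟩)
          · exact mem_union_right _ (mem_insert_of_mem h')
        · rw [hη, if_neg h, zero_add]
          exact h0
      · intro A hA hAc hAk w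
        have h1 : gd g η A w = ∑ u ∈ A, ((if v ∈ A.erase u then η1 ((A.erase u).erase v) else 0) w +
            (if v ∈ A.erase u then η1 ((A.erase u).erase v) else 0) (w * g u)) +
            gd g η0' A w := by
          unfold gd
          rw [← sum_add_distrib]
          refine sum_congr rfl fun u _ => ?_
          rw [hη, Pi.add_apply, Pi.add_apply]
          abel
        rw [h1]
        by_cases hvA : v ∈ A
        · have h2 := hd1 (A.erase v) (her A hA hvA hAc) (hcl A hAc _ (erase_subset _ _))
            (by rw [card_erase_of_mem hvA, hAk]; rfl) w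
          unfold gd at h2
          rw [insert_erase hvA] at h2
          have h3 : ∑ u ∈ A, ((if v ∈ A.erase u then η1 ((A.erase u).erase v) else 0) w +
              (if v ∈ A.erase u then η1 ((A.erase u).erase v) else 0) (w * g u)) =
              γ' A w := by
            rw [← h2, ← add_sum_erase A _ hvA]
            have h4 : v ∉ A.erase v := notMem_erase v A
            rw [if_neg h4, Pi.zero_apply, Pi.zero_apply, zero_add, zero_add]
            refine sum_congr rfl fun u hu => ?_
            have h5 : v ∈ A.erase u := mem_erase.2 ⟨(ne_of_mem_erase hu).symm, hvA⟩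
            rw [if_pos h5, erase_right_comm]
          rw [h3, hγ', add_assoc, hM, add_zero]
        · have h2 := hz A hA hvA hAc hAk w
          rw [hγ'] at h2
          have h3 : ∑ u ∈ A, ((if v ∈ A.erase u then η1 ((A.erase u).erase v) else 0) w +
              (if v ∈ A.erase u then η1 ((A.erase u).erase v) else 0) (w * g u)) = 0 := by
            refine sum_eq_zero fun u _ => ?_
            have h5 : v ∉ A.erase u := fun h => hvA (mem_of_mem_erase h)
            rw [if_neg h5, Pi.zero_apply, Pi.zero_apply, add_zero]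
          rw [h3, zero_add]
          have h4 : γ A w + gd g η0' A w + gd g η0' A w = gd g η0' A w := by rw [h2, zero_add]
          rw [add_assoc, hM, add_zero] at h4
          exact h4.symm
    · -- degree one
      have hk0 : k = 1 := by omega
      subst hk0
      have hcl1 : ∀ u : V, G.IsClique (({u} : Finset V) : Set V) := fun u => by simp
      obtain ⟨f, hf0, hf1, hf2⟩ := H1 T C hC hTC (fun u => γ {u})
        (fun u hu => (hinv {u} (by simpa using hu) (hcl1 u) (card_singleton u)).1)
        (fun u hu a ha w => by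
          refine (hinv {u} (by simpa using hu) (hcl1 u) (card_singleton u)).2 a ?_ w
          rcases ha with h | h
          · exact mem_union_left _ (mem_singleton.2 h)
          · exact mem_union_right _ h)
        (fun u hu v hv huv w => by
          have hne : u ≠ v := huv.ne
          have h1 := hco {u, v} (by
            intro x hx
            rcases mem_insert.1 hx with h | h
            · rw [h]; exact hu
            · rw [mem_singleton.1 h]; exact hv) (by
            rw [coe_insert, coe_singleton, SimpleGraph.isClique_pair]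
            exact fun _ => huv) (card_pair hne) w
          unfold gd at h1
          rw [sum_pair hne] at h1
          have h2 : ({u, v} : Finset V).erase u = {v} := by
            rw [erase_insert (by simpa using hne)]
          have h3 : ({u, v} : Finset V).erase v = {u} := by
            rw [pair_comm, erase_insert (by simpa using hne.symm)]
          rw [h2, h3] at h1
          -- `γ v w + γ v (w u) + (γ u w + γ u (w v)) = 0`
          have h4 : γ {u} w + γ {v} (w * g u) = γ {u} w + γ {v} (w * g u) +
              (γ {v} w + γ {v} (w * g u) + (γ {u} w + γ {u} (w * g v))) := by rw [h1, add_zero]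
          have h5 : γ {u} w + γ {v} (w * g u) +
              (γ {v} w + γ {v} (w * g u) + (γ {u} w + γ {u} (w * g v))) =
              (γ {u} w + γ {u} w) + (γ {v} (w * g u) + γ {v} (w * g u)) +
                (γ {v} w + γ {u} (w * g v)) := by abel
          rw [h4, h5, hM, hM, zero_add, zero_add])
      refine ⟨fun B => if B = ∅ then f else 0, fun B _ _ hB1 => ?_, fun A hA _ hAk w => ?_⟩
      · have hB0 : B = ∅ := card_eq_zero.1 (by omega)
        subst hB0
        show (if (∅ : Finset V) = ∅ then f else 0) ∈ O ∧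
          GInv g (∅ ∪ C) (if (∅ : Finset V) = ∅ then f else 0)
        rw [if_pos rfl, empty_union]
        exact ⟨hf0, fun a ha w => hf1 a ha w⟩
      · obtain ⟨u, rfl⟩ := card_eq_one.1 hAk
        unfold gd
        rw [sum_singleton, erase_singleton]
        show (if (∅ : Finset V) = ∅ then f else 0) w +
          (if (∅ : Finset V) = ∅ then f else 0) (w * g u) = γ {u} w
        rw [if_pos rfl, hf2 u (by simpa using hA), ← add_assoc, hM, zero_add]

end Ind

end Pool.Agent.S9

end

section

/-!
# Project S10, block G: the formal induction of effaceability on the active cells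

`act v w`: the letter `v` is active at `w` (a set of hyperplanes). If the cocycles of positive degree in the class `O` on
the whole complex are exact in `O`, so are the cocycles on the subcomplex of the active cells (note 4276 (3)).
-/

set_option autoImplicit false
set_option linter.unusedSectionVars false

open Finset

namespace Pool.Agent.S9

variable {V : Type} [DecidableEq V]

section Act

variable {W : Type} [Group W] {M : Type} [AddCommGroup M]

/-- an activity: a set of hyperplanes, the characteristic function of which preserves the class `O` -/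
structure Activ (G : SimpleGraph V) (g : V → W) (O : AddSubgroup (W → M)) (act : V → W → Prop) : Prop where
  self : ∀ v w, act v (w * g v) ↔ act v w
  adj : ∀ u v, G.Adj u v → ∀ w, act v (w * g u) ↔ act v w
  ind : ∀ v, ∀ f ∈ O, ∀ f' : W → M, (∀ w, act v w → f' w = f w) → (∀ w, ¬ act v w → f' w = 0) → f' ∈ O

variable (G : SimpleGraph V) (g : V → W) (hsq : ∀ v, g v * g v = 1)
  (hcomm : ∀ u v, G.Adj u v → g u * g v = g v * g u) (hM : ∀ x : M, x + x = 0)
  (O : AddSubgroup (W → M)) (hO : ∀ f ∈ O, ∀ v, (fun w => f (w * g v)) ∈ O)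

/-- exactness of the cocycles of positive degree, in the class `O`, on the active cells with the types in `T`,
invariant under `C` -/
def GEx (act : V → W → Prop) (T C : Finset V) : Prop :=
  ∀ k : ℕ, 1 ≤ k → ∀ γ : Finset V → W → M,
    (∀ A ⊆ T, G.IsClique (A : Set V) → A.card = k → γ A ∈ O ∧ GInv g (A ∪ C) (γ A)) →
    (∀ A ⊆ T, G.IsClique (A : Set V) → A.card = k + 1 → ∀ w, (∀ a ∈ A, act a w) → gd g γ A w = 0) →
    ∃ η : Finset V → W → M,
      (∀ B ⊆ T, G.IsClique (B : Set V) → B.card + 1 = k → η B ∈ O ∧ GInv g (B ∪ C) (η B)) ∧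
      ∀ A ⊆ T, G.IsClique (A : Set V) → A.card = k → ∀ w, (∀ a ∈ A, act a w) →
        gd g η A w = γ A w

/-- making the letter `v` fully active -/
theorem Activ.set {act : V → W → Prop} (h : Activ G g O act) (v : V) :
    Activ G g O fun u w => u = v ∨ act u w where
  self u w := by rw [h.self]
  adj u x hux w := by rw [h.adj u x hux]
  ind u f hf f' h1 h2 := by
    by_cases huv : u = v
    · have h3 : f' = f := funext fun w => h1 w (Or.inl huv)
      rw [h3]
      exact hf
    · exact h.ind u f hf f' (fun w hw => h1 w (Or.inr hw)) fun w hw => h2 w fun h5 => h5.elim huv hw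

include hsq hcomm hM hO in
/-- **One label**: if exactness holds for the link of `v` (with invariance under `v`) and for the activity, where `v` is
made fully active, it holds. -/
theorem gex_step {act : V → W → Prop} (ha : Activ G g O act) {T C : Finset V} {v : V} (hv : v ∈ T)
    (hTC : ∀ u ∈ T, ∀ a ∈ C, G.Adj u a)
    {lk : Finset V} (hlk : ∀ u, u ∈ lk ↔ u ∈ T ∧ G.Adj v u)
    (h1 : GEx G g O act lk (insert v C)) (h2 : GEx G g O (fun u w => u = v ∨ act u w) T C) :
    GEx G g O act T C := by
  classical
  intro k hk γ hinv hco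
  have hlkT : lk ⊆ T := fun u hu => ((hlk u).1 hu).1
  have hvlk : ∀ B ⊆ lk, v ∉ B := fun B hB h => ((hlk v).1 (hB h)).2.ne rfl
  have hcl : ∀ A : Finset V, G.IsClique (A : Set V) → ∀ B ⊆ A, G.IsClique (B : Set V) :=
    fun A hA B hB => hA.subset (by exact_mod_cast hB)
  have hactv : ∀ A : Finset V, A ⊆ lk → ∀ u ∈ A, ∀ w, (act v (w * g u) ↔ act v w) :=
    fun A hA u hu w => ha.adj u v ((hlk u).1 (hA hu)).2.symm w
  -- the jump over `v`
  obtain ⟨e, he⟩ : ∃ e : Finset V → W → M, ∀ A w, e A w = if act v w then 0 else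
      γ A w + γ A (w * g v) := ⟨_, fun _ _ => rfl⟩
  have hact0 : ∀ f ∈ O, (fun w => if act v w then f w else 0) ∈ O := fun f hf =>
    ha.ind v f hf _ (fun w hw => if_pos hw) fun w hw => if_neg hw
  have hcompl : ∀ f ∈ O, (fun w => if act v w then 0 else f w) ∈ O := by
    intro f hf
    have h3 : (fun w => if act v w then 0 else f w) = f - fun w => if act v w then f w else 0 := by
      funext w
      rw [Pi.sub_apply]
      by_cases h : act v w
      · rw [if_pos h, if_pos h, sub_self]
      · rw [if_neg h, if_neg h, sub_zero]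
    rw [h3]
    exact O.sub_mem hf (hact0 f hf)
  obtain ⟨f, hf1, hf2⟩ := h1 k hk e (fun A hA hAc hAk => by
    obtain ⟨h3, h4⟩ := hinv A (hA.trans hlkT) hAc hAk
    constructor
    · have h5 : e A = fun w => if act v w then 0 else (γ A + fun w => γ A (w * g v)) w := by
        funext w
        rw [he]
        rfl
      rw [h5]
      exact hcompl _ (O.add_mem h3 (hO _ h3 v))
    · intro a haA w
      rw [he, he]
      have hcase : a = v ∨ (a ∈ A ∪ C ∧ G.Adj a v) := by
        rcases mem_union.1 haA with h | h
        · exact Or.inr ⟨mem_union_left _ h, ((hlk a).1 (hA h)).2.symm⟩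
        · rcases mem_insert.1 h with h | h
          · exact Or.inl h
          · exact Or.inr ⟨mem_union_right _ h, (hTC v hv a h).symm⟩
      rcases hcase with rfl | ⟨h5, h6⟩
      · have h7 := ha.self a w
        by_cases hw : act a w
        · rw [if_pos hw, if_pos (h7.2 hw)]
        · rw [if_neg hw, if_neg fun h => hw (h7.1 h), mul_assoc, hsq, mul_one, add_comm]
      · have h7 := ha.adj a v h6 w
        by_cases hw : act v w
        · rw [if_pos hw, if_pos (h7.2 hw)]
        · rw [if_neg hw, if_neg fun h => hw (h7.1 h), h4 a h5, mul_assoc, hcomm a v h6,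
            ← mul_assoc, h4 a h5])
    (fun A hA hAc hAk w hw => by
      unfold gd
      by_cases h3 : act v w
      · refine sum_eq_zero fun u hu => ?_
        rw [he, he, if_pos h3, if_pos ((hactv A hA u hu w).2 h3), add_zero]
      · have h4 := hco A (hA.trans hlkT) hAc hAk w hw
        have h5 := hco A (hA.trans hlkT) hAc hAk (w * g v) fun a haA =>
          (ha.adj v a ((hlk a).1 (hA haA)).2 w).2 (hw a haA)
        unfold gd at h4 h5
        have h6 : ∀ u ∈ A, e (A.erase u) w + e (A.erase u) (w * g u) =
            (γ (A.erase u) w + γ (A.erase u) (w * g u)) +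
              (γ (A.erase u) (w * g v) + γ (A.erase u) (w * g v * g u)) := by
          intro u hu
          rw [he, he, if_neg h3, if_neg fun h => h3 ((hactv A hA u hu w).1 h), mul_assoc w (g u),
            hcomm u v ((hlk u).1 (hA hu)).2.symm, ← mul_assoc]
          abel
        rw [sum_congr rfl h6, sum_add_distrib, h4, h5, add_zero])
  obtain ⟨γ', hγ'⟩ : ∃ γ' : Finset V → W → M, ∀ A, γ' A = if v ∈ A then
      (fun w => if act v w then γ A w else 0) + fun w => if act v w then 0 else f (A.erase v) w
      else γ A := ⟨_, fun _ => rfl⟩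
  have her : ∀ B ⊆ T, v ∈ B → G.IsClique (B : Set V) → B.erase v ⊆ lk := by
    intro B hB hvB hBc u hu
    obtain ⟨h3, h4⟩ := mem_erase.1 hu
    exact (hlk u).2 ⟨hB h4, hBc hvB h4 h3.symm⟩
  have hpos : ∀ A, v ∈ A → ∀ w, act v w → γ' A w = γ A w := by
    intro A hA w hw
    rw [hγ', if_pos hA, Pi.add_apply, if_pos hw, if_pos hw, add_zero]
  have hneg : ∀ A, v ∈ A → ∀ w, ¬ act v w → γ' A w = f (A.erase v) w := by
    intro A hA w hw
    rw [hγ', if_pos hA, Pi.add_apply, if_neg hw, if_neg hw, zero_add]
  obtain ⟨η, hη1, hη2⟩ := h2 k hk γ' (fun A hA hAc hAk => by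
    by_cases hvA : v ∈ A
    · obtain ⟨h3, h4⟩ := hinv A hA hAc hAk
      obtain ⟨h5, h6⟩ := hf1 (A.erase v) (her A hA hvA hAc) (hcl A hAc _ (erase_subset _ _))
        (by rw [card_erase_of_mem hvA]; have := card_pos.2 ⟨v, hvA⟩; omega)
      constructor
      · rw [hγ', if_pos hvA]
        exact O.add_mem (hact0 _ h3) (hcompl _ h5)
      · intro a haA w
        have h7 : act v (w * g a) ↔ act v w := by
          by_cases hav : a = v
          · rw [hav]; exact ha.self v w
          · refine ha.adj a v ?_ w
            rcases mem_union.1 haA with h | h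
            · exact hAc h hvA hav
            · exact (hTC v hv a h).symm
        by_cases hw : act v w
        · rw [hpos A hvA _ (h7.2 hw), hpos A hvA _ hw, h4 a haA]
        · rw [hneg A hvA _ fun h => hw (h7.1 h), hneg A hvA _ hw]
          refine h6 a ?_ w
          by_cases hav : a = v
          · exact mem_union_right _ (hav ▸ mem_insert_self _ _)
          · rcases mem_union.1 haA with h | h
            · exact mem_union_left _ (mem_erase.2 ⟨hav, h⟩)
            · exact mem_union_right _ (mem_insert_of_mem h)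
    · rw [hγ', if_neg hvA]
      exact hinv A hA hAc hAk)
    (fun A hA hAc hAk w hw => by
      by_cases hvA : v ∈ A
      · by_cases h3 : act v w
        · have h4 : gd g γ' A w = gd g γ A w := by
            unfold gd
            refine sum_congr rfl fun u hu => ?_
            by_cases huv : u = v
            · subst huv
              rw [hγ', if_neg (notMem_erase u A)]
            · have h5 : v ∈ A.erase u := mem_erase.2 ⟨fun h => huv h.symm, hvA⟩
              rw [hpos _ h5 _ h3, hpos _ h5 _ ((ha.adj u v (hAc hu hvA huv) w).2 h3)]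
          rw [h4]
          refine hco A hA hAc hAk w fun a haA => ?_
          rcases hw a haA with h | h
          · rw [h]; exact h3
          · exact h
        · have h4 : gd g γ' A w = (γ (A.erase v) w + γ (A.erase v) (w * g v)) +
              gd g f (A.erase v) w := by
            unfold gd
            rw [← add_sum_erase A _ hvA, hγ', if_neg (notMem_erase v A)]
            congr 1
            refine sum_congr rfl fun u hu => ?_
            obtain ⟨huv, huA⟩ := mem_erase.1 hu
            have h5 : v ∈ A.erase u := mem_erase.2 ⟨fun h => huv h.symm, hvA⟩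
            rw [hneg _ h5 _ h3, hneg _ h5 _ fun h => h3 ((ha.adj u v (hAc huA hvA huv) w).1 h),
              erase_right_comm]
          rw [h4, hf2 (A.erase v) (her A hA hvA hAc) (hcl A hAc _ (erase_subset _ _))
            (by rw [card_erase_of_mem hvA, hAk]; rfl) w fun a haA => ?_, he, if_neg h3, hM]
          obtain ⟨hav, h5⟩ := mem_erase.1 haA
          exact (hw a h5).resolve_left hav
      · have h4 : gd g γ' A w = gd g γ A w := by
          unfold gd
          refine sum_congr rfl fun u hu => ?_
          rw [hγ', if_neg fun h => hvA (mem_of_mem_erase h)]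
        rw [h4]
        exact hco A hA hAc hAk w fun a haA => (hw a haA).resolve_left fun h => hvA (h ▸ haA))
  refine ⟨η, hη1, fun A hA hAc hAk w hw => ?_⟩
  rw [hη2 A hA hAc hAk w fun a haA => Or.inr (hw a haA)]
  by_cases hvA : v ∈ A
  · exact hpos A hvA w (hw v hvA)
  · rw [hγ', if_neg hvA]

/-- exactness depends only on the activity of the labels in `T` -/
theorem GEx.congr {act act' : V → W → Prop} {T C : Finset V} (h : GEx G g O act T C)
    (hc : ∀ v ∈ T, ∀ w, act' v w ↔ act v w) : GEx G g O act' T C := by
  intro k hk γ h1 h2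
  obtain ⟨η, h3, h4⟩ := h k hk γ h1 fun A hA hAc hAk w hw =>
    h2 A hA hAc hAk w fun a ha => (hc a (hA ha) w).2 (hw a ha)
  exact ⟨η, h3, fun A hA hAc hAk w hw => h4 A hA hAc hAk w fun a ha => (hc a (hA ha) w).1 (hw a ha)⟩

include hsq hcomm hM hO in
/-- **Effaceability on the active cells**: exactness for the full complexes implies exactness for every activity. -/
theorem gex_act (H : ∀ T C : Finset V, G.IsClique (C : Set V) → (∀ u ∈ T, ∀ a ∈ C, G.Adj u a) →
      GEx G g O (fun _ _ => True) T C) :
    ∀ (N : ℕ) (T C : Finset V), T.card ≤ N → G.IsClique (C : Set V) →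
    (∀ u ∈ T, ∀ a ∈ C, G.Adj u a) → ∀ act : V → W → Prop, Activ G g O act →
      GEx G g O act T C := by
  classical
  intro N
  induction N with
  | zero =>
    intro T C hT hC hTC act _
    refine (H T C hC hTC).congr G g O fun v hv => ?_
    rw [card_eq_zero.1 (Nat.le_zero.1 hT)] at hv
    exact absurd hv (notMem_empty v)
  | succ N ih =>
    intro T C hT hC hTC
    -- induction on the number of the labels which are not fully active
    have key : ∀ (n : ℕ) (act : V → W → Prop), Activ G g O act →
        (T.filter fun v => ¬ ∀ w, act v w).card ≤ n → GEx G g O act T C := by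
      intro n
      induction n with
      | zero =>
        intro act _ hn
        refine (H T C hC hTC).congr G g O fun v hv w => ⟨fun _ => trivial, fun _ => ?_⟩
        have h1 := card_eq_zero.1 (Nat.le_zero.1 hn)
        by_contra h2
        have h3 : v ∈ T.filter fun v => ¬ ∀ w, act v w := mem_filter.2 ⟨hv, fun h => h2 (h w)⟩
        rw [h1] at h3
        exact absurd h3 (notMem_empty v)
      | succ n ihn =>
        intro act hact hn
        rcases (T.filter fun v => ¬ ∀ w, act v w).eq_empty_or_nonempty with h0 | ⟨v, hv⟩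
        · exact ihn act hact (by rw [h0, card_empty]; exact Nat.zero_le n)
        · obtain ⟨hvT, hva⟩ := mem_filter.1 hv
          obtain ⟨lk, hlk⟩ : ∃ lk : Finset V, ∀ u, u ∈ lk ↔ u ∈ T ∧ G.Adj v u :=
            ⟨T.filter fun u => G.Adj v u, fun u => mem_filter⟩
          have hlkT : lk ⊆ T.erase v := fun u hu =>
            mem_erase.2 ⟨((hlk u).1 hu).2.ne', ((hlk u).1 hu).1⟩
          have hlkc : lk.card ≤ N := by
            have h1 := card_le_card hlkT
            rw [card_erase_of_mem hvT] at h1
            omega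
          refine gex_step G g hsq hcomm hM O hO hact hvT hTC hlk ?_ ?_
          · refine ih lk (insert v C) hlkc ?_ (fun u hu a ha => ?_) act hact
            · rw [coe_insert]
              exact hC.insert fun a ha _ => hTC v hvT a ha
            · rcases mem_insert.1 ha with h | h
              · rw [h]; exact ((hlk u).1 hu).2.symm
              · exact hTC u ((hlk u).1 hu).1 a h
          · refine ihn _ (hact.set G g O v) ?_
            have h1 : (T.filter fun u => ¬ ∀ w, (u = v ∨ act u w)) ⊆
                (T.filter fun u => ¬ ∀ w, act u w).erase v := by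
              intro u hu
              obtain ⟨h2, h3⟩ := mem_filter.1 hu
              refine mem_erase.2 ⟨fun h => h3 fun w => Or.inl h, mem_filter.2 ⟨h2, fun h => h3 fun w =>
                Or.inr (h w)⟩⟩
            have h2 := card_le_card h1
            rw [card_erase_of_mem hv] at h2
            omega
    intro act hact
    exact key _ act hact le_rfl

end Act

end Pool.Agent.S9

end
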