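import Pool.Agent.H71.TSG.M08
import Pool.Agent.H71.TSG.M12
import Pool.Agent.H71.TSG.M16

/-! The parts of this file: H73.GC.LuckA, S9.E.Defs, S9.DictZ, S10.EA.Defs, S10.EA.Mat. -/

section

/-!
# Growth calculus: the regular representation

`untw`: the functions `P → Y` with `(r' v φ) p = r v (φ (p * g v))`; `φ' p = ρ p (φ p)` satisfies
`(r' v φ)' p = φ' (p * g v)`.
-/

set_option autoImplicit false
set_option linter.unusedSectionVars false

open Finset

namespace Pool.Agent.H73.GC

variable {V : Type} [DecidableEq V] [Fintype V]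

/-- the regular representation of `P` -/
def regP {P : Type} [Group P] (g : V → P) (v : V) : Module.End F2 (P → F2) where
  toFun f p := f (p * g v)
  map_add' _ _ := rfl
  map_smul' _ _ := rfl

/-- the homology of a direct sum of two modules -/
theorem LuckA_prod {Z Z' : Type} [AddCommGroup Z] [Module F2 Z] [Finite Z] [AddCommGroup Z']
    [Module F2 Z'] [Finite Z'] {X : Finset V → Prop} (hm : ∀ s v, X (insert v s) → X s)
    (r : V → Module.End F2 Z) (r' : V → Module.End F2 Z') (i : ℕ) :
    hX X (fun v => (r v).prodMap (r' v)) i = hX X r i + hX X r' i := by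
  have h := hd_split (mono_Sy hm (fun v => (r v).prodMap (r' v)))
    ((LinearMap.inl F2 Z Z').comp (LinearMap.fst F2 Z Z')) (fun s y _ => rfl) (fun s y hy => by
      refine ⟨fun hs => ?_, fun v hv => ?_⟩
      · rw [hy.1 hs, map_zero]
      · have h1 := hy.2 v hv
        have h2 : r v y.1 = y.1 := congrArg Prod.fst h1
        show (r v y.1, r' v 0) = (y.1, 0)
        rw [h2, map_zero]) i
  have h1 : (fun s => Sy X (fun v => (r v).prodMap (r' v)) s ⊓
      LinearMap.ker ((LinearMap.inl F2 Z Z').comp (LinearMap.fst F2 Z Z'))) =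
      fun s => (Sy X r' s).map (LinearMap.inr F2 Z Z') := by
    funext s
    ext ⟨y, z⟩
    rw [Submodule.mem_inf, LinearMap.mem_ker, Submodule.mem_map, mem_Sy]
    constructor
    · rintro ⟨⟨h2, h3⟩, h4⟩
      have h5 : y = 0 := congrArg Prod.fst h4
      subst h5
      refine ⟨z, ⟨fun hs => congrArg Prod.snd (h2 hs), fun v hv => congrArg Prod.snd (h3 v hv)⟩,
        rfl⟩
    · rintro ⟨w, ⟨h2, h3⟩, h4⟩
      have h5 : (0 : Z) = y := congrArg Prod.fst h4
      have h6 : w = z := congrArg Prod.snd h4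
      subst h5 h6
      refine ⟨⟨fun hs => ?_, fun v hv => ?_⟩, rfl⟩
      · rw [h2 hs]
        rfl
      · show (r v 0, r' v w) = (0, w)
        rw [h3 v hv, map_zero]
  have h2 : (fun s => (Sy X (fun v => (r v).prodMap (r' v)) s).map
      ((LinearMap.inl F2 Z Z').comp (LinearMap.fst F2 Z Z'))) =
      fun s => (Sy X r s).map (LinearMap.inl F2 Z Z') := by
    funext s
    ext y
    rw [Submodule.mem_map, Submodule.mem_map]
    constructor
    · rintro ⟨w, ⟨h3, h4⟩, rfl⟩
      refine ⟨w.1, ⟨fun hs => ?_, fun v hv => congrArg Prod.fst (h4 v hv)⟩, rfl⟩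
      rw [h3 hs]
      rfl
    · rintro ⟨w, ⟨h3, h4⟩, rfl⟩
      refine ⟨(w, 0), ⟨fun hs => ?_, fun v hv => ?_⟩, rfl⟩
      · rw [h3 hs]
        rfl
      · show (r v w, r' v 0) = (w, 0)
        rw [h4 v hv, map_zero]
  unfold hX
  rw [h, h1, h2, hd_map _ _ LinearMap.inr_injective, hd_map _ _ LinearMap.inl_injective, add_comm]

/-- the homology of a direct sum of copies of a module -/
theorem LuckA_pi {Z : Type} [AddCommGroup Z] [Module F2 Z] [Finite Z] {X : Finset V → Prop}
    (hm : ∀ s v, X (insert v s) → X s) (r : V → Module.End F2 Z) (i m : ℕ) :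
    hX X (fun v => (r v).compLeft (Fin m)) i = m * hX X r i := by
  induction m with
  | zero =>
    rw [hX_subsingleton, Nat.cast_zero, zero_mul]
  | succ m ih =>
    have h := hX_equiv (X := X) (Fin.consLinearEquiv F2 (fun _ : Fin (m + 1) => Z)).symm
      (r := fun v => (r v).compLeft (Fin (m + 1)))
      (r' := fun v => (r v).prodMap ((r v).compLeft (Fin m))) (fun s _ v _ y => rfl) i
    rw [h, LuckA_prod hm, ih]
    push_cast
    ring

/-- If `Y` is a module over `P`, then `Y ⊗ F2[P]` is a sum of copies of `F2[P]`. -/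
theorem untw {Y : Type} [AddCommGroup Y] [Module F2 Y] [Finite Y] {P : Type} [Group P] [Finite P]
    (ρ : P →* Module.End F2 Y) (g : V → P) {r : V → Module.End F2 Y} {X : Finset V → Prop}
    (hm : ∀ s v, X (insert v s) → X s) (h : ∀ s, X s → ∀ v ∈ s, ρ (g v) = r v) (i : ℕ) :
    hX X (tens r (regP g)) i = Module.finrank F2 Y * hX X (regP g) i := by
  classical
  have : Fintype P := Fintype.ofFinite P
  have : Finite (TensorProduct F2 Y (P → F2)) := finite_tens
  have hinv : ∀ p y, ρ p⁻¹ (ρ p y) = y := by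
    intro p y
    rw [← Module.End.mul_apply, ← map_mul, inv_mul_cancel, map_one, Module.End.one_apply]
  have hinv' : ∀ p y, ρ p (ρ p⁻¹ y) = y := by
    intro p y
    rw [← Module.End.mul_apply, ← map_mul, mul_inv_cancel, map_one, Module.End.one_apply]
  set b := Module.finBasis F2 Y with hb
  let e1 : TensorProduct F2 Y (P → F2) ≃ₗ[F2] (P → Y) := TensorProduct.piScalarRight F2 F2 Y P
  let e2 : (P → Y) ≃ₗ[F2] (Fin (Module.finrank F2 Y) → P → F2) :=
    { toFun := fun φ j p => b.equivFun (ρ p (φ p)) j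
      map_add' := fun φ ψ => by
        funext j p
        simp only [Pi.add_apply, map_add]
      map_smul' := fun c φ => by
        funext j p
        simp only [Pi.smul_apply, map_smul, RingHom.id_apply]
      invFun := fun ψ p => ρ p⁻¹ (b.equivFun.symm fun j => ψ j p)
      left_inv := fun φ => by
        funext p
        show ρ p⁻¹ (b.equivFun.symm fun j => b.equivFun (ρ p (φ p)) j) = φ p
        have h1 : (fun j => b.equivFun (ρ p (φ p)) j) = b.equivFun (ρ p (φ p)) := rfl
        rw [h1, LinearEquiv.symm_apply_apply, hinv]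
      right_inv := fun ψ => by
        funext j p
        show b.equivFun (ρ p (ρ p⁻¹ (b.equivFun.symm fun j => ψ j p))) j = ψ j p
        rw [hinv', LinearEquiv.apply_symm_apply] }
  have key := hX_equiv (X := X) (e1.trans e2) (r := tens r (regP g))
    (r' := fun v => (regP g v).compLeft (Fin (Module.finrank F2 Y))) (by
      intro s hs v hv y
      induction y using TensorProduct.induction_on with
      | zero => simp only [map_zero]
      | add y z h1 h2 => simp only [map_add, h1, h2]
      | tmul y f =>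
        funext j p
        show b.equivFun (ρ p (e1 (tens r (regP g) v (y ⊗ₜ[F2] f)) p)) j =
          b.equivFun (ρ (p * g v) (e1 (y ⊗ₜ[F2] f) (p * g v))) j
        have h1 : e1 (tens r (regP g) v (y ⊗ₜ[F2] f)) p = f (p * g v) • r v y := by
          show TensorProduct.piScalarRight F2 F2 Y P (r v y ⊗ₜ[F2] (regP g v f)) p = _
          rw [TensorProduct.piScalarRight_apply, TensorProduct.piScalarRightHom_tmul]
          rfl
        have h2 : e1 (y ⊗ₜ[F2] f) (p * g v) = f (p * g v) • y := by
          show TensorProduct.piScalarRight F2 F2 Y P (y ⊗ₜ[F2] f) (p * g v) = _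
          rw [TensorProduct.piScalarRight_apply, TensorProduct.piScalarRightHom_tmul]
        rw [h1, h2, map_mul, Module.End.mul_apply, h s hs v hv]
        simp only [map_smul]) i
  rw [key, LuckA_pi hm]

end Pool.Agent.H73.GC

end

section

/-!
# Project S9, block E: definitions

Coefficients with edge matrices on a finite quotient `D : PG G P`, Laurent polynomials of the walls.
-/

set_option autoImplicit false
set_option linter.unusedSectionVars false

open Finset

namespace Pool.Agent.S9

open Pool.Agent.H77.SW Pool.Agent.H73.GC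

/-- the Laurent polynomials with the variables `I` over the field with two elements -/
abbrev RI (I : Type) : Type := AddMonoidAlgebra (ZMod 2) (I → ℤ)

/-- their field of fractions -/
abbrev KI (I : Type) : Type := FractionRing (RI I)

/-- the group ring of `(ℤ/2^k)^I` -/
abbrev RK (I : Type) (k : ℕ) : Type := AddMonoidAlgebra (ZMod 2) (I → ZMod (2 ^ k))

/-- the monomial in the ring -/
noncomputable def ttR {I : Type} (a : I → ℤ) : RI I := AddMonoidAlgebra.single a 1

/-- the monomial in the field -/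
noncomputable def tt {I : Type} (a : I → ℤ) : KI I := algebraMap (RI I) (KI I) (ttR a)

/-- the reduction of the exponents -/
def redZ (I : Type) (k : ℕ) : (I → ℤ) →+ (I → ZMod (2 ^ k)) where
  toFun a i := (a i : ZMod (2 ^ k))
  map_zero' := by
    funext i
    exact Int.cast_zero
  map_add' a b := by
    funext i
    exact Int.cast_add _ _

/-- the reduction `t ^ (2 ^ k) = 1` -/
noncomputable def redR (I : Type) (k : ℕ) : RI I →+* RK I k :=
  AddMonoidAlgebra.mapDomainRingHom (ZMod 2) (redZ I k)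

/-- the specialisation `t = 1` -/
noncomputable def augR (I : Type) : RI I →+* ZMod 2 :=
  AddMonoidAlgebra.liftNCRingHom (RingHom.id (ZMod 2)) (1 : Multiplicative (I → ℤ) →* ZMod 2)
    fun _ _ => Commute.all _ _

/-- the substitution `t ^ a ↦ t ^ (Z a)` -/
noncomputable def subR {I : Type} (Z : (I → ℤ) →+ (I → ℤ)) : RI I →+* RI I :=
  AddMonoidAlgebra.mapDomainRingHom (ZMod 2) Z

variable {V : Type} [DecidableEq V] [Fintype V]

section Edge

variable {P : Type} [Group P]

/-- an integral edge cocycle on the finite quotient: `e v p` belongs to the edge from `p` to `p * g v` -/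
structure IsEv {G : SimpleGraph V} (D : PG G P) {I : Type} (e : V → P → I → ℤ) : Prop where
  inv : ∀ v p, e v p + e v (p * D.g v) = 0
  comm : ∀ u v, G.Adj u v → ∀ p, e u p + e v (p * D.g u) = e v p + e u (p * D.g v)

variable {S : Type} [CommRing S] {n : Type} [Fintype n] [DecidableEq n]

/-- the edge matrices form a system of coefficients -/
structure IsEdg {G : SimpleGraph V} (D : PG G P) (M : V → P → Matrix n n S) : Prop where
  inv : ∀ v p, M v p * M v (p * D.g v) = 1
  comm : ∀ u v, G.Adj u v → ∀ p, M u p * M v (p * D.g u) = M v p * M u (p * D.g v)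

/-- the operators on the functions `P → n → S` -/
def rM {G : SimpleGraph V} (D : PG G P) (M : V → P → Matrix n n S) (v : V) :
    (P → n → S) →ₗ[S] (P → n → S) where
  toFun F p := (M v p).mulVec (F (p * D.g v))
  map_add' F F' := by
    funext p
    exact Matrix.mulVec_add (M v p) (F (p * D.g v)) (F' (p * D.g v))
  map_smul' c F := by
    funext p
    exact Matrix.mulVec_smul (M v p) c (F (p * D.g v))

theorem rM_apply {G : SimpleGraph V} (D : PG G P) (M : V → P → Matrix n n S) (v : V)
    (F : P → n → S) (p : P) : rM D M v F p = (M v p).mulVec (F (p * D.g v)) := rfl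

end Edge

/-- the edge matrices with one row of the edge cocycle `e` -/
noncomputable def chiR {P I : Type} (e : V → P → I → ℤ) (v : V) (p : P) :
    Matrix (Fin 1) (Fin 1) (RI I) := fun _ _ => ttR (e v p)

/-- the same over the field -/
noncomputable def chiK {P I : Type} (e : V → P → I → ℤ) (v : V) (p : P) :
    Matrix (Fin 1) (Fin 1) (KI I) := fun _ _ => tt (e v p)

/-- the dimension of the cycles of degree `d` with coefficients in the edge matrices `M` over a field -/
noncomputable def zM (K : Type) [Field K] {G : SimpleGraph V} {P : Type} [Group P] (D : PG G P)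
    {n : Type} [Fintype n] [DecidableEq n] (M : V → P → Matrix n n K) (d : ℕ) : ℕ :=
  Module.finrank K (Zs K G d (rM D M))

/-- the number of cells of degree `d` -/
noncomputable def cP {G : SimpleGraph V} {P : Type} [Group P] [Fintype P] (D : PG G P) (d : ℕ) : ℕ :=
  Module.finrank F2 (Ch (Sy (Cq G univ) (regP D.g)) d)

/-- the dimension of the homology of degree `i` with coefficients in the character of the edge cocycle `e` -/
noncomputable def hchi {G : SimpleGraph V} {P : Type} [Group P] [Fintype P] (D : PG G P) {I : Type}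
    (e : V → P → I → ℤ) (i : ℕ) : ℤ :=
  (zM (KI I) D (chiK e) i : ℤ) + zM (KI I) D (chiK e) (i + 1) - cP D (i + 1)

/-- The growth of the character is minimal: it is at most the growth of all finite quotients -/
def MinAt {G : SimpleGraph V} {P : Type} [Group P] [Fintype P] (D : PG G P) {I : Type}
    (e : V → P → I → ℤ) (i : ℕ) : Prop :=
  ∀ (P' : Type) [Group P'] [Fintype P'] (D' : PG G P'),
    (Fintype.card P' : ℤ) * hchi D e i ≤ Fintype.card P * hX (Cq G univ) (regP D'.g) i

end Pool.Agent.S9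

end

section

/-!
# S9: chains and cycles of a level as chains and cycles of the finite quotient
-/

set_option autoImplicit false
set_option linter.unusedSectionVars false

open Finset

namespace Pool.Agent.S9

open Pool.Agent.H77.SW Pool.Agent.H73.GC

variable {V : Type} [DecidableEq V] [Fintype V]

/-- chains of degree `d` with coefficients in a space with operators -/
def Cz (K : Type) [Field K] (G : SimpleGraph V) (d : ℕ) {Y : Type} [AddCommGroup Y] [Module K Y]
    (r : V → Y →ₗ[K] Y) : Submodule K (Finset V → Y) where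
  carrier := {z | (∀ σ, z σ ≠ 0 → G.IsClique (σ : Set V) ∧ σ.card = d) ∧ ∀ σ, ∀ v ∈ σ, r v (z σ) = z σ}
  zero_mem' := by
    refine ⟨fun σ h => absurd rfl h, fun σ v _ => ?_⟩
    simp
  add_mem' := by
    rintro z w ⟨h1, h2⟩ ⟨h4, h5⟩
    refine ⟨fun σ h => ?_, fun σ v hv => ?_⟩
    · by_cases hz : z σ = 0
      · by_cases hw : w σ = 0
        · exact absurd (by simp [hz, hw]) h
        · exact h4 σ hw
      · exact h1 σ hz
    · rw [Pi.add_apply, map_add, h2 σ v hv, h5 σ v hv]
  smul_mem' := by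
    rintro c z ⟨h1, h2⟩
    refine ⟨fun σ h => h1 σ fun h0 => h ?_, fun σ v hv => ?_⟩
    · rw [Pi.smul_apply, h0, smul_zero]
    · rw [Pi.smul_apply, map_smul, h2 σ v hv]

theorem mem_Cz {K : Type} [Field K] {G : SimpleGraph V} {d : ℕ} {Y : Type} [AddCommGroup Y]
    [Module K Y] {r : V → Y →ₗ[K] Y} {z : Finset V → Y} : z ∈ Cz K G d r ↔
      (∀ σ, z σ ≠ 0 → G.IsClique (σ : Set V) ∧ σ.card = d) ∧ ∀ σ, ∀ v ∈ σ, r v (z σ) = z σ := Iff.rfl

variable {G : SimpleGraph V} {W : Type} [Group W]

section Dict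

variable (R : Rac G W) {Γ : Subgroup W} [Γ.Normal] (hΓ : Lev R Γ)

/-- the element of `Γ` from the representative to `w` -/
noncomputable def wg (Γ : Subgroup W) [Γ.Normal] (w : W) : Γ :=
  ⟨w * (QuotientGroup.mk w : W ⧸ Γ).out⁻¹, by
    rw [← QuotientGroup.eq_one_iff, QuotientGroup.mk_mul, QuotientGroup.mk_inv, QuotientGroup.out_eq', mul_inv_cancel]⟩

theorem wg_out_eq (w : W) : (wg Γ w : W) * (QuotientGroup.mk w : W ⧸ Γ).out = w := by
  change w * (QuotientGroup.mk w : W ⧸ Γ).out⁻¹ * (QuotientGroup.mk w : W ⧸ Γ).out = w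
  rw [inv_mul_cancel_right]

theorem mk_coe_mul (g : Γ) (w : W) : (QuotientGroup.mk ((g : W) * w) : W ⧸ Γ) = QuotientGroup.mk w := by
  rw [QuotientGroup.mk_mul, (QuotientGroup.eq_one_iff (g : W)).2 g.2, one_mul]

theorem wg_mul (g : Γ) (w : W) : wg Γ ((g : W) * w) = g * wg Γ w := by
  apply Subtype.ext
  change (g : W) * w * (QuotientGroup.mk ((g : W) * w) : W ⧸ Γ).out⁻¹ = g * (w * (QuotientGroup.mk w : W ⧸ Γ).out⁻¹)
  rw [mk_coe_mul, mul_assoc]

theorem wg_out (p : W ⧸ Γ) : wg Γ p.out = 1 := by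
  apply Subtype.ext
  change p.out * (QuotientGroup.mk p.out : W ⧸ Γ).out⁻¹ = 1
  rw [QuotientGroup.out_eq', mul_inv_cancel]

theorem wg_s (w : W) (v : V) : wg Γ (w * R.s v) = wg Γ w * gam R v (QuotientGroup.mk w) := by
  apply Subtype.ext
  change w * R.s v * (QuotientGroup.mk (w * R.s v) : W ⧸ Γ).out⁻¹ = w * (QuotientGroup.mk w : W ⧸ Γ).out⁻¹ *
    ((QuotientGroup.mk w : W ⧸ Γ).out * R.s v * ((QuotientGroup.mk w : W ⧸ Γ) * QuotientGroup.mk (R.s v)).out⁻¹)
  rw [QuotientGroup.mk_mul]
  simp only [mul_assoc, inv_mul_cancel_left]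

variable {K : Type} [Field K] {N : Type} [AddCommGroup N] [Module K N]

/-- the restriction to the representatives -/
noncomputable def toP (K : Type) [Field K] (Γ : Subgroup W) [Γ.Normal] {N : Type} [AddCommGroup N] [Module K N] :
    (Finset V → W → N) →ₗ[K] (Finset V → W ⧸ Γ → N) where
  toFun c A p := c A p.out
  map_add' _ _ := rfl
  map_smul' _ _ := rfl

/-- the equivariant extension -/
noncomputable def ofP (ρ : Γ →* Module.End K N) : (Finset V → W ⧸ Γ → N) →ₗ[K] (Finset V → W → N) where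
  toFun f A w := ρ (wg Γ w) (f A (QuotientGroup.mk w))
  map_add' f f' := by
    funext A w
    exact map_add (ρ (wg Γ w)) _ _
  map_smul' a f := by
    funext A w
    exact map_smul (ρ (wg Γ w)) a _

theorem toP_apply (c : Finset V → W → N) (A : Finset V) (p : W ⧸ Γ) : toP K Γ c A p = c A p.out := rfl

theorem ofP_apply (ρ : Γ →* Module.End K N) (f : Finset V → W ⧸ Γ → N) (A : Finset V) (w : W) :
    ofP ρ f A w = ρ (wg Γ w) (f A (QuotientGroup.mk w)) := rfl

theorem toP_ofP (ρ : Γ →* Module.End K N) (f : Finset V → W ⧸ Γ → N) : toP K Γ (ofP ρ f) = f := by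
  funext A p
  rw [toP_apply, ofP_apply, wg_out, map_one, QuotientGroup.out_eq']
  rfl

theorem ofP_toP (ρ : Γ →* Module.End K N) {c : Finset V → W → N}
    (hc : ∀ A, ∀ g : Γ, ∀ w, c A (g * w) = ρ g (c A w)) : ofP ρ (toP K Γ c) = c := by
  funext A w
  rw [ofP_apply, toP_apply, ← hc, wg_out_eq]

theorem toP_mem {ρ : Γ →* Module.End K N} {d : ℕ} {c : Finset V → W → N} (hc : c ∈ Cc R Γ ρ d) :
    toP K Γ c ∈ Cz K G d (rL (qD R hΓ) fun v p => ρ (gam R v p)) := by
  obtain ⟨h1, h2, h3⟩ := hc
  refine ⟨fun σ h => h1 σ fun h0 => h ?_, fun σ v hv => ?_⟩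
  · funext p
    rw [toP_apply, h0]
    rfl
  · funext p
    rw [rL_apply, toP_apply, toP_apply, ← h3, qD_g, gam_out, h2 σ v hv]

theorem ofP_mem {ρ : Γ →* Module.End K N} {d : ℕ} {f : Finset V → W ⧸ Γ → N}
    (hf : f ∈ Cz K G d (rL (qD R hΓ) fun v p => ρ (gam R v p))) : ofP ρ f ∈ Cc R Γ ρ d := by
  obtain ⟨h1, h2⟩ := hf
  refine ⟨fun σ h => h1 σ fun h0 => h ?_, fun σ v hv w => ?_, fun σ g w => ?_⟩
  · funext w
    rw [ofP_apply, h0]
    exact map_zero _
  · have h3 := congrFun (h2 σ v hv) (QuotientGroup.mk w)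
    rw [rL_apply, qD_g] at h3
    rw [ofP_apply, ofP_apply, wg_s, map_mul, Module.End.mul_apply, QuotientGroup.mk_mul, h3]
  · rw [ofP_apply, ofP_apply, wg_mul, mk_coe_mul, map_mul, Module.End.mul_apply]

theorem mem_Zs_iff {Y : Type} [AddCommGroup Y] [Module K Y] {d : ℕ} {r : V → Y →ₗ[K] Y} {z : Finset V → Y} :
    z ∈ Zs K G d r ↔ z ∈ Cz K G d r ∧ ∀ κ, ∑ v ∈ κᶜ, z (insert v κ) = 0 := by
  rw [mem_Zs, mem_Cz, and_assoc]

theorem toP_memZ {ρ : Γ →* Module.End K N} {d : ℕ} {c : Finset V → W → N} (hc : c ∈ Zc R Γ ρ d) :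
    toP K Γ c ∈ Zs K G d (rL (qD R hΓ) fun v p => ρ (gam R v p)) := by
  refine mem_Zs_iff.2 ⟨toP_mem R hΓ hc.1, fun κ => ?_⟩
  funext p
  rw [Finset.sum_apply]
  exact congrFun (congrFun (LinearMap.mem_ker.1 hc.2) κ) p.out

theorem ofP_memZ {ρ : Γ →* Module.End K N} {d : ℕ} {f : Finset V → W ⧸ Γ → N}
    (hf : f ∈ Zs K G d (rL (qD R hΓ) fun v p => ρ (gam R v p))) : ofP ρ f ∈ Zc R Γ ρ d := by
  obtain ⟨h1, h2⟩ := mem_Zs_iff.1 hf
  refine ⟨ofP_mem R hΓ h1, LinearMap.mem_ker.2 ?_⟩
  funext κ w
  rw [bd_apply]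
  have h3 := congrFun (h2 κ) (QuotientGroup.mk w)
  rw [Finset.sum_apply] at h3
  simp only [ofP_apply]
  rw [← map_sum, h3]
  exact map_zero _

/-- the chains of a level are the chains of the finite quotient -/
noncomputable def dictC (ρ : Γ →* Module.End K N) (d : ℕ) :
    Cc R Γ ρ d ≃ₗ[K] Cz K G d (rL (qD R hΓ) fun v p => ρ (gam R v p)) where
  toFun c := ⟨toP K Γ c.1, toP_mem R hΓ c.2⟩
  invFun f := ⟨ofP ρ f.1, ofP_mem R hΓ f.2⟩
  map_add' _ _ := rfl
  map_smul' _ _ := rfl
  left_inv c := Subtype.ext (ofP_toP ρ c.2.2.2)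
  right_inv f := Subtype.ext (toP_ofP ρ f.1)

/-- the cycles of a level are the cycles of the finite quotient -/
noncomputable def dictZ (ρ : Γ →* Module.End K N) (d : ℕ) :
    Zc R Γ ρ d ≃ₗ[K] Zs K G d (rL (qD R hΓ) fun v p => ρ (gam R v p)) where
  toFun c := ⟨toP K Γ c.1, toP_memZ R hΓ c.2⟩
  invFun f := ⟨ofP ρ f.1, ofP_memZ R hΓ f.2⟩
  map_add' _ _ := rfl
  map_smul' _ _ := rfl
  left_inv c := Subtype.ext (ofP_toP ρ c.2.1.2.2)
  right_inv f := Subtype.ext (toP_ofP ρ f.1)

end Dict

section Chi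

/-- an isomorphism of the coefficients -/
noncomputable def Zs_congr {K : Type} [Field K] {d : ℕ} {Y Y' : Type} [AddCommGroup Y] [Module K Y] [AddCommGroup Y']
    [Module K Y'] {r : V → Y →ₗ[K] Y} {r' : V → Y' →ₗ[K] Y'} (φ : Y ≃ₗ[K] Y') (h : ∀ v y, φ (r v y) = r' v (φ y)) :
    Zs K G d r ≃ₗ[K] Zs K G d r' where
  toFun z := ⟨fun A => φ (z.1 A), fun A hA => z.2.1 A fun h0 => hA ((congrArg φ h0).trans (map_zero φ)), fun A v hv => by
    rw [← h, z.2.2.1 A v hv], fun κ => by
    rw [← map_sum, z.2.2.2 κ, map_zero]⟩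
  invFun z := ⟨fun A => φ.symm (z.1 A), fun A hA => z.2.1 A fun h0 => hA ((congrArg φ.symm h0).trans (map_zero φ.symm)), fun A v hv => by
    apply φ.injective
    rw [h, φ.apply_symm_apply, z.2.2.1 A v hv], fun κ => by
    rw [← map_sum, z.2.2.2 κ, map_zero]⟩
  map_add' z w := Subtype.ext (funext fun A => map_add φ _ _)
  map_smul' c z := Subtype.ext (funext fun A => map_smul φ c _)
  left_inv z := Subtype.ext (funext fun A => φ.symm_apply_apply _)
  right_inv z := Subtype.ext (funext fun A => φ.apply_symm_apply _)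

variable (R : Rac G W) {Γ : Subgroup W} [Γ.Normal] (hΓ : Lev R Γ) {I : Type}

/-- the edge cocycle of a homomorphism -/
noncomputable def eab (ab : Γ →* Multiplicative (I → ℤ)) (v : V) (p : W ⧸ Γ) : I → ℤ := (ab (gam R v p)).toAdd

theorem isEv_eab (ab : Γ →* Multiplicative (I → ℤ)) : IsEv (qD R hΓ) (eab R ab) where
  inv v p := by
    unfold eab
    rw [← toAdd_mul, ← map_mul, gam_inv, map_one]
    rfl
  comm u v h p := by
    unfold eab
    rw [← toAdd_mul, ← map_mul, gam_comm R hΓ h, map_mul, toAdd_mul]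

theorem ch_apply {K : Type} [Field K] (χ : Γ →* Kˣ) (g : Γ) (x : K) : ch χ g x = (χ g : K) * x := rfl

theorem tt_zero : tt (0 : I → ℤ) = 1 := by
  unfold tt ttR
  rw [← AddMonoidAlgebra.one_def, map_one]

theorem tt_add (a b : I → ℤ) : tt (a + b) = tt a * tt b := by
  unfold tt ttR
  rw [← map_mul, AddMonoidAlgebra.single_mul_single, mul_one]

/-- the tautological character of a homomorphism to `ℤ^I` -/
noncomputable def chiab (ab : Γ →* Multiplicative (I → ℤ)) : Γ →* (KI I)ˣ where
  toFun g := ⟨tt (ab g).toAdd, tt (-(ab g).toAdd), by rw [← tt_add, add_neg_cancel, tt_zero], by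
    rw [← tt_add, neg_add_cancel, tt_zero]⟩
  map_one' := by
    apply Units.ext
    change tt (ab 1).toAdd = 1
    rw [map_one, toAdd_one, tt_zero]
  map_mul' g h := by
    apply Units.ext
    change tt (ab (g * h)).toAdd = tt (ab g).toAdd * tt (ab h).toAdd
    rw [map_mul, toAdd_mul, tt_add]

theorem chiab_coe (ab : Γ →* Multiplicative (I → ℤ)) (g : Γ) : (chiab ab g : KI I) = tt (ab g).toAdd := rfl

/-- the cycles with coefficients in a character -/
noncomputable def dictChi (ab : Γ →* Multiplicative (I → ℤ)) (χ : Γ →* (KI I)ˣ)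
    (hχ : ∀ g, (χ g : KI I) = tt (ab g).toAdd) (d : ℕ) :
    Zc R Γ (ch χ) d ≃ₗ[KI I] Zs (KI I) G d (rM (qD R hΓ) (chiK (eab R ab))) :=
  (dictZ R hΓ (ch χ) d).trans <| Zs_congr
    (φ := { toFun := fun F p _ => F p
            invFun := fun F p => F p 0
            map_add' := fun _ _ => rfl
            map_smul' := fun _ _ => rfl
            left_inv := fun F => rfl
            right_inv := fun F => by
              funext p i
              rw [Subsingleton.elim i 0] }) fun v F => by
    funext p i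
    change ch χ (gam R v p) (F (p * (qD R hΓ).g v)) = ((chiK (eab R ab) v p).mulVec fun _ => F (p * (qD R hΓ).g v)) i
    rw [ch_apply, hχ, Matrix.mulVec, dotProduct, Fin.sum_univ_one]
    rfl

theorem finrank_Zc_chi (ab : Γ →* Multiplicative (I → ℤ)) (χ : Γ →* (KI I)ˣ)
    (hχ : ∀ g, (χ g : KI I) = tt (ab g).toAdd) (d : ℕ) :
    Module.finrank (KI I) (Zc R Γ (ch χ) d) = zM (KI I) (qD R hΓ) (chiK (eab R ab)) d :=
  (dictChi R hΓ ab χ hχ d).finrank_eq

end Chi

end Pool.Agent.S9

end

section

/-!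
# Project S10, block E: solutions of a local system of equations

`W` acts on `T × W` by left translations. A local system over `Φ ≤ W` is a family of finite sets `L t' w ⊆ T × W`,
invariant under the left translations of `w` by `Φ`; the equation `(t', w)` for `c : T → W → N` is
`∑ x ∈ L t' w, c x.1 (w * x.2) = 0`. The cycles of a cube complex with a `W`-action (with an activity predicate)
are the solutions of such a system.
-/

set_option autoImplicit false
set_option linter.unusedSectionVars false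

open Finset

namespace Pool.Agent.S10.EA

open Pool.Agent.S9

variable {W : Type} [Group W] {T T' : Type}

/-- the local equations are invariant under the left translations by `Φ` -/
def LInv (L : T' → W → Finset (T × W)) (Φ : Subgroup W) : Prop :=
  ∀ g ∈ Φ, ∀ t' w, L t' (g * w) = L t' w

theorem LInv.mono {L : T' → W → Finset (T × W)} {Φ Γ : Subgroup W} (hL : LInv L Φ) (h : Γ ≤ Φ) : LInv L Γ :=
  fun g hg => hL g (h hg)

section Sol

variable {S : Type} [CommRing S] {N : Type} [AddCommGroup N] [Module S N]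

/-- the solutions of the local equations which are equivariant under `Γ` with coefficients in `ρ` -/
def ZL (L : T' → W → Finset (T × W)) (Γ : Subgroup W) (ρ : Γ →* Module.End S N) : Submodule S (T → W → N) where
  carrier := {c | (∀ t, ∀ g : Γ, ∀ w, c t (g * w) = ρ g (c t w)) ∧ ∀ t' w, ∑ x ∈ L t' w, c x.1 (w * x.2) = 0}
  zero_mem' := ⟨fun _ g _ => (map_zero (ρ g)).symm, fun _ _ => Finset.sum_eq_zero fun _ _ => rfl⟩
  add_mem' := by
    rintro c c' ⟨h1, h2⟩ ⟨h3, h4⟩
    refine ⟨fun t g w => ?_, fun t' w => ?_⟩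
    · rw [Pi.add_apply, Pi.add_apply, Pi.add_apply, h1, h3, map_add]
    · simp only [Pi.add_apply]
      rw [sum_add_distrib, h2, h4, add_zero]
  smul_mem' := by
    rintro a c ⟨h1, h2⟩
    refine ⟨fun t g w => ?_, fun t' w => ?_⟩
    · rw [Pi.smul_apply, Pi.smul_apply, Pi.smul_apply, h1, map_smul]
    · simp only [Pi.smul_apply]
      rw [← smul_sum, h2, smul_zero]

theorem mem_ZL {L : T' → W → Finset (T × W)} {Γ : Subgroup W} {ρ : Γ →* Module.End S N} {c : T → W → N} :
    c ∈ ZL L Γ ρ ↔ (∀ t, ∀ g : Γ, ∀ w, c t (g * w) = ρ g (c t w)) ∧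
      ∀ t' w, ∑ x ∈ L t' w, c x.1 (w * x.2) = 0 := Iff.rfl

end Sol

/-- the dimension of the solutions over a field -/
noncomputable def zL {K : Type} [Field K] {N : Type} [AddCommGroup N] [Module K N] (L : T' → W → Finset (T × W))
    (Γ : Subgroup W) (ρ : Γ →* Module.End K N) : ℕ :=
  Module.finrank K (ZL L Γ ρ)

/-- the dimension over `𝔽₂` of the solutions which are invariant under `M` -/
noncomputable def z1 (L : T' → W → Finset (T × W)) (M : Subgroup W) : ℕ :=
  Module.finrank (ZMod 2) (ZL L M (1 : M →* Module.End (ZMod 2) (ZMod 2)))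

section Mrep

variable {Γ : Type} [Group Γ] {S : Type} [CommRing S] {n : ℕ}

/-- the representation of a matrix representation -/
def mrep (μ : Γ →* Matrix (Fin n) (Fin n) S) : Γ →* Module.End S (Fin n → S) where
  toFun g := (μ g).mulVecLin
  map_one' := by
    rw [map_one, Matrix.mulVecLin_one]
    rfl
  map_mul' g h := by
    rw [map_mul, Matrix.mulVecLin_mul]
    rfl

theorem mrep_apply (μ : Γ →* Matrix (Fin n) (Fin n) S) (g : Γ) (x : Fin n → S) :
    mrep μ g x = (μ g).mulVec x := rfl

/-- the same as a representation over `𝔽₂` -/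
def mrep2 [Algebra (ZMod 2) S] (μ : Γ →* Matrix (Fin n) (Fin n) S) : Γ →* Module.End (ZMod 2) (Fin n → S) where
  toFun g := (μ g).mulVecLin.restrictScalars (ZMod 2)
  map_one' := by
    rw [map_one, Matrix.mulVecLin_one]
    rfl
  map_mul' g h := by
    rw [map_mul, Matrix.mulVecLin_mul]
    rfl

theorem mrep2_apply [Algebra (ZMod 2) S] (μ : Γ →* Matrix (Fin n) (Fin n) S) (g : Γ) (x : Fin n → S) :
    mrep2 μ g x = (μ g).mulVec x := rfl

/-- the change of the ring of the entries -/
def mmap {S' : Type} [CommRing S'] (f : S →+* S') (μ : Γ →* Matrix (Fin n) (Fin n) S) :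
    Γ →* Matrix (Fin n) (Fin n) S' :=
  (f.mapMatrix : Matrix (Fin n) (Fin n) S →+* Matrix (Fin n) (Fin n) S').toMonoidHom.comp μ

theorem mmap_apply {S' : Type} [CommRing S'] (f : S →+* S') (μ : Γ →* Matrix (Fin n) (Fin n) S) (g : Γ) :
    mmap f μ g = (μ g).map f := rfl

/-- upper triangular matrix representations -/
def UTri (μ : Γ →* Matrix (Fin n) (Fin n) S) : Prop := ∀ g a b, b < a → μ g a b = 0

end Mrep

/-- Minimality: every finite `2`-quotient of `Γ` has at least the growth of the character of `ab` -/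
def MinL {I : Type} (L : T' → W → Finset (T × W)) (Γ : Subgroup W) (ab : Γ →* Multiplicative (I → ℤ)) : Prop :=
  ∀ (Q : Type) [Group Q] [Finite Q] (_ : IsPGroup 2 Q) (f : Γ →* Q),
    Nat.card f.range * zL L Γ (ch (chiab ab)) ≤ z1 L (f.ker.map Γ.subtype)

end Pool.Agent.S10.EA

end

section

/-!
# Project S10, block E: the solutions as the kernel of one matrix
-/

set_option autoImplicit false
set_option linter.unusedSectionVars false

open Finset

namespace Pool.Agent.S10.EA

open Pool.Agent.S9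

variable {W : Type} [Group W] {T T' : Type} {n : ℕ}

open Classical in
/-- The matrix of the local equations in the values of `c` at the representatives: the equation `(t', p)` has the
coefficient `μ (wg Γ (p.out * x.2))` of the variable `(x.1, p * x.2)`, for all `x ∈ L t' p.out`. -/
noncomputable def BL (L : T' → W → Finset (T × W)) {Γ : Subgroup W} [Γ.Normal] {S : Type} [CommRing S]
    (μ : Γ →* Matrix (Fin n) (Fin n) S) : Matrix (T' × (W ⧸ Γ) × Fin n) (T × (W ⧸ Γ) × Fin n) S :=
  fun q y => ∑ x ∈ L q.1 q.2.1.out,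
    if x.1 = y.1 ∧ (QuotientGroup.mk (q.2.1.out * x.2) : W ⧸ Γ) = y.2.1 then
      μ (wg Γ (q.2.1.out * x.2)) q.2.2 y.2.2 else 0

/-- the matrix is functorial in the ring -/
theorem BL_map (L : T' → W → Finset (T × W)) {Γ : Subgroup W} [Γ.Normal] {S S' : Type} [CommRing S] [CommRing S']
    (f : S →+* S') (μ : Γ →* Matrix (Fin n) (Fin n) S) : (BL L μ).map f = BL L (mmap f μ) := by
  refine Matrix.ext fun q y => ?_
  rw [Matrix.map_apply]
  unfold BL
  rw [map_sum]
  refine Finset.sum_congr rfl fun x _ => ?_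
  split_ifs
  · rfl
  · exact map_zero f

section Ker

variable [Fintype T] {Γ : Subgroup W} [Γ.Normal] [Fintype (W ⧸ Γ)] {S : Type} [CommRing S]

theorem BL_mulVec (L : T' → W → Finset (T × W)) (μ : Γ →* Matrix (Fin n) (Fin n) S)
    (f : T × (W ⧸ Γ) × Fin n → S) (t' : T') (p : W ⧸ Γ) (a : Fin n) :
    (BL L μ).mulVec f (t', p, a) = ∑ x ∈ L t' p.out,
      (μ (wg Γ (p.out * x.2))).mulVec (fun b => f (x.1, (QuotientGroup.mk (p.out * x.2) : W ⧸ Γ), b)) a := by
  classical
  rw [Matrix.mulVec, dotProduct]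
  simp only [BL]
  simp only [Finset.sum_mul]
  rw [Finset.sum_comm]
  refine Finset.sum_congr rfl fun x _ => ?_
  rw [Fintype.sum_prod_type, Finset.sum_eq_single x.1]
  · rw [Fintype.sum_prod_type, Finset.sum_eq_single (QuotientGroup.mk (p.out * x.2) : W ⧸ Γ)]
    · rw [Matrix.mulVec, dotProduct]
      refine Finset.sum_congr rfl fun b _ => ?_
      rw [if_pos ⟨rfl, rfl⟩]
    · intro q _ hq
      refine Finset.sum_eq_zero fun b _ => ?_
      rw [if_neg fun h => hq h.2.symm, zero_mul]
    · intro h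
      exact absurd (mem_univ _) h
  · intro t _ ht
    refine Finset.sum_eq_zero fun y _ => ?_
    rw [if_neg fun h => ht h.1.symm, zero_mul]
  · intro h
    exact absurd (mem_univ _) h

/-- the equivariant function with the given values at the representatives solves the equations if and only if these
values are in the kernel of the matrix -/
theorem BL_iff {L : T' → W → Finset (T × W)} (hL : LInv L Γ) (μ : Γ →* Matrix (Fin n) (Fin n) S)
    (f : T × (W ⧸ Γ) × Fin n → S) : (BL L μ).mulVec f = 0 ↔ ∀ t' w, ∑ x ∈ L t' w,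
      (μ (wg Γ (w * x.2))).mulVec (fun b => f (x.1, (QuotientGroup.mk (w * x.2) : W ⧸ Γ), b)) = 0 := by
  constructor
  · intro h t' w
    have h1 : ∑ x ∈ L t' (QuotientGroup.mk w : W ⧸ Γ).out, (μ (wg Γ ((QuotientGroup.mk w : W ⧸ Γ).out * x.2))).mulVec
        (fun b => f (x.1, (QuotientGroup.mk ((QuotientGroup.mk w : W ⧸ Γ).out * x.2) : W ⧸ Γ), b)) = 0 := by
      funext a
      rw [Finset.sum_apply, ← BL_mulVec, h]
      rfl
    have h2 : L t' w = L t' (QuotientGroup.mk w : W ⧸ Γ).out := by
      have h4 := hL (wg Γ w) (wg Γ w).2 t' (QuotientGroup.mk w : W ⧸ Γ).out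
      rwa [wg_out_eq] at h4
    have h3 : ∀ x : T × W, (μ (wg Γ (w * x.2))).mulVec
        (fun b => f (x.1, (QuotientGroup.mk (w * x.2) : W ⧸ Γ), b)) =
        (μ (wg Γ w)).mulVec ((μ (wg Γ ((QuotientGroup.mk w : W ⧸ Γ).out * x.2))).mulVec
          (fun b => f (x.1, (QuotientGroup.mk ((QuotientGroup.mk w : W ⧸ Γ).out * x.2) : W ⧸ Γ), b))) := by
      intro x
      have h4 : w * x.2 = (wg Γ w : W) * ((QuotientGroup.mk w : W ⧸ Γ).out * x.2) := by
        rw [← mul_assoc, wg_out_eq]
      rw [Matrix.mulVec_mulVec, ← map_mul, ← wg_mul, ← h4]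
      conv_lhs => rw [h4, mk_coe_mul]
      rw [← h4]
    rw [Finset.sum_congr h2 fun x _ => h3 x]
    refine (map_sum (μ (wg Γ w)).mulVecLin _ _).symm.trans ?_
    rw [h1, map_zero]
  · intro h
    funext q
    obtain ⟨t', p, a⟩ := q
    rw [BL_mulVec]
    have h1 := congrFun (h t' p.out) a
    rw [Finset.sum_apply] at h1
    exact h1

/-- the solutions as the kernel of the matrix, for a ring `S` which is an algebra over `k₀` -/
noncomputable def kerE {k₀ : Type} [CommRing k₀] [Algebra k₀ S] {L : T' → W → Finset (T × W)} (hL : LInv L Γ)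
    (μ : Γ →* Matrix (Fin n) (Fin n) S) (ρ : Γ →* Module.End k₀ (Fin n → S))
    (hρ : ∀ g x, ρ g x = (μ g).mulVec x) :
    ZL L Γ ρ ≃ₗ[k₀] LinearMap.ker ((BL L μ).mulVecLin.restrictScalars k₀) where
  toFun c := ⟨fun y => c.1 y.1 y.2.1.out y.2.2, by
    rw [LinearMap.mem_ker, LinearMap.restrictScalars_apply, Matrix.mulVecLin_apply]
    refine (BL_iff hL μ _).2 fun t' w => ?_
    rw [← c.2.2 t' w]
    refine Finset.sum_congr rfl fun x _ => ?_
    rw [← hρ]
    change ρ (wg Γ (w * x.2)) (c.1 x.1 (QuotientGroup.mk (w * x.2) : W ⧸ Γ).out) = _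
    rw [← c.2.1, wg_out_eq]⟩
  invFun f := ⟨fun t w => (μ (wg Γ w)).mulVec fun b => f.1 (t, (QuotientGroup.mk w : W ⧸ Γ), b), by
    refine ⟨fun t g w => ?_, ?_⟩
    · rw [hρ, Matrix.mulVec_mulVec, ← map_mul, ← wg_mul]
      simp only [mk_coe_mul]
    · exact (BL_iff hL μ _).1 (LinearMap.mem_ker.1 f.2)⟩
  map_add' _ _ := rfl
  map_smul' _ _ := rfl
  left_inv c := by
    apply Subtype.ext
    funext t w
    change (μ (wg Γ w)).mulVec (c.1 t (QuotientGroup.mk w : W ⧸ Γ).out) = c.1 t w
    rw [← hρ, ← c.2.1, wg_out_eq]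
  right_inv f := by
    apply Subtype.ext
    funext y
    obtain ⟨t, p, b⟩ := y
    change (μ (wg Γ p.out)).mulVec (fun b => f.1 (t, (QuotientGroup.mk p.out : W ⧸ Γ), b)) b = f.1 (t, p, b)
    rw [wg_out, map_one, Matrix.one_mulVec, QuotientGroup.out_eq']

end Ker

section Dim

variable [Fintype T] {Γ : Subgroup W} [Γ.Normal] [Fintype (W ⧸ Γ)] {L : T' → W → Finset (T × W)}

/-- the dimension of the solutions over a field -/
theorem zL_add_rank {K : Type} [Field K] (hL : LInv L Γ) (μ : Γ →* Matrix (Fin n) (Fin n) K) :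
    zL L Γ (mrep μ) + (BL L μ).rank = Fintype.card (T × (W ⧸ Γ) × Fin n) := by
  have h1 := LinearEquiv.finrank_eq (kerE (k₀ := K) hL μ (mrep μ) fun g x => rfl)
  have h3 := LinearMap.finrank_range_add_finrank_ker (BL L μ).mulVecLin
  rw [Module.finrank_fintype_fun_eq_card] at h3
  have h2 : LinearMap.ker ((BL L μ).mulVecLin.restrictScalars K) = LinearMap.ker (BL L μ).mulVecLin := rfl
  rw [h2] at h1
  unfold zL Matrix.rank
  omega

/-- the dimension over `𝔽₂` of the solutions over a finite algebra over `𝔽₂` -/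
theorem zL2_add_rank {S : Type} [CommRing S] [Algebra (ZMod 2) S] [Finite S] (hL : LInv L Γ)
    (μ : Γ →* Matrix (Fin n) (Fin n) S) : zL L Γ (mrep2 μ) +
      Module.finrank (ZMod 2) (LinearMap.range ((BL L μ).mulVecLin.restrictScalars (ZMod 2))) =
      Fintype.card (T × (W ⧸ Γ) × Fin n) * Module.finrank (ZMod 2) S := by
  have h1 := LinearEquiv.finrank_eq (kerE (k₀ := ZMod 2) hL μ (mrep2 μ) fun g x => rfl)
  have h0 : Module.Finite (ZMod 2) S := Module.Finite.of_finite
  have h3 := LinearMap.finrank_range_add_finrank_ker ((BL L μ).mulVecLin.restrictScalars (ZMod 2))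
  rw [Module.finrank_pi_fintype, Finset.sum_const, Finset.card_univ, smul_eq_mul] at h3
  unfold zL
  omega

end Dim

end Pool.Agent.S10.EA

end
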