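import Pool.Agent.H71.TSG.M12

/-! The parts of this file: H73.GC.Glue7, H73.GC.MergeP, H19.SR.Zig. -/

section

/-!
# Growth calculus: gluing, tensor products of modules for the pieces
-/

set_option autoImplicit false
set_option linter.unusedSectionVars false

open Finset

namespace Pool.Agent.H73.GC

variable {V : Type} [DecidableEq V] [Fintype V]
variable {Y₁ Y₂ : Type} [AddCommGroup Y₁] [Module F2 Y₁] [AddCommGroup Y₂] [Module F2 Y₂]

theorem tcomm {a a' : Module.End F2 Y₁} {b b' : Module.End F2 Y₂}
    (ha : ∀ x, a (a' x) = a' (a x)) (hb : ∀ x, b (b' x) = b' (b x))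
    (y : TensorProduct F2 Y₁ Y₂) : TensorProduct.map a b (TensorProduct.map a' b' y) =
      TensorProduct.map a' b' (TensorProduct.map a b y) := by
  induction y using TensorProduct.induction_on with
  | zero => simp only [map_zero]
  | tmul x z => simp only [TensorProduct.map_tmul, ha, hb]
  | add x z hx hz => simp only [map_add, hx, hz]

theorem tsq {a : Module.End F2 Y₁} {b : Module.End F2 Y₂}
    (ha : ∀ x, a (a x) = x) (hb : ∀ x, b (b x) = x)
    (y : TensorProduct F2 Y₁ Y₂) : TensorProduct.map a b (TensorProduct.map a b y) = y := by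
  induction y using TensorProduct.induction_on with
  | zero => simp only [map_zero]
  | tmul x z => simp only [TensorProduct.map_tmul, ha, hb]
  | add x z hx hz => simp only [map_add, hx, hz]

theorem tidem {a : Module.End F2 Y₁} {b : Module.End F2 Y₂}
    (ha : ∀ x, a (a x) = a x) (hb : ∀ x, b (b x) = b x)
    (y : TensorProduct F2 Y₁ Y₂) :
    TensorProduct.map a b (TensorProduct.map a b y) = TensorProduct.map a b y := by
  induction y using TensorProduct.induction_on with
  | zero => simp only [map_zero]
  | tmul x z => simp only [TensorProduct.map_tmul, ha, hb]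
  | add x z hx hz => simp only [map_add, hx, hz]

theorem tbit_left {a e : Module.End F2 Y₁} {b : Module.End F2 Y₂}
    (h : ∀ x, e (a x) + a (e x) = a x) (y : TensorProduct F2 Y₁ Y₂) :
    TensorProduct.map e LinearMap.id (TensorProduct.map a b y) +
      TensorProduct.map a b (TensorProduct.map e LinearMap.id y) = TensorProduct.map a b y := by
  induction y using TensorProduct.induction_on with
  | zero => simp only [map_zero, add_zero]
  | tmul x z =>
    simp only [TensorProduct.map_tmul, LinearMap.id_apply]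
    rw [← TensorProduct.add_tmul, h]
  | add x z hx hz =>
    simp only [map_add]
    linear_combination (norm := module) hx + hz

theorem tbit_right {a : Module.End F2 Y₁} {b e : Module.End F2 Y₂}
    (h : ∀ x, e (b x) + b (e x) = b x) (y : TensorProduct F2 Y₁ Y₂) :
    TensorProduct.map LinearMap.id e (TensorProduct.map a b y) +
      TensorProduct.map a b (TensorProduct.map LinearMap.id e y) = TensorProduct.map a b y := by
  induction y using TensorProduct.induction_on with
  | zero => simp only [map_zero, add_zero]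
  | tmul x z =>
    simp only [TensorProduct.map_tmul, LinearMap.id_apply]
    rw [← TensorProduct.tmul_add, h]
  | add x z hx hz =>
    simp only [map_add]
    linear_combination (norm := module) hx + hz

/-- the operators outside of `A` are replaced by `1` -/
def gon {Y : Type} [AddCommGroup Y] [Module F2 Y] (A : Finset V) (r : V → Module.End F2 Y)
    (v : V) : Module.End F2 Y := if v ∈ A then r v else 1

theorem gon_mem {Y : Type} [AddCommGroup Y] [Module F2 Y] {A : Finset V}
    {r : V → Module.End F2 Y} {v : V} (h : v ∈ A) : gon A r v = r v := if_pos h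

theorem gon_not {Y : Type} [AddCommGroup Y] [Module F2 Y] {A : Finset V}
    {r : V → Module.End F2 Y} {v : V} (h : v ∉ A) : gon A r v = 1 := if_neg h

section One

variable {Y : Type} [AddCommGroup Y] [Module F2 Y]

/-- the module of the other piece, for the piece `A` -/
theorem gon_isN {G G₁ G₂ : SimpleGraph V} {A B : Finset V} {c c' : V} (hcA : c ∉ A)
    (h1 : ∀ a ∈ A, ∀ b ∈ A, G₁.Adj a b ↔ G.Adj a b) (hc1 : ∀ a ∈ A, G₁.Adj c a ↔ a ∈ B)
    (h2 : ∀ a ∈ B, ∀ b ∈ B, G₂.Adj a b ↔ G.Adj a b) (hc2 : ∀ a ∈ B, G₂.Adj c' a ↔ a ∈ A)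
    {r : V → Module.End F2 Y} (h : IsN G₂ (insert c' B) r) :
    IsN G₁ (insert c A) (Function.update (gon B r) c (r c')) := by
  have hcc : c' ∈ insert c' B := mem_insert_self c' B
  have hB : ∀ v ∈ B, v ∈ insert c' B := fun v hv => mem_insert_of_mem hv
  have hu : ∀ v ∈ A, Function.update (gon B r) c (r c') v = gon B r v := by
    intro v hv
    exact Function.update_of_ne (fun e : v = c => hcA (e ▸ hv)) _ _
  have haux : ∀ v ∈ A, G₁.Adj c v → ∀ y, r c' (gon B r v y) = gon B r v (r c' y) := by
    intro v hv hcv y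
    have hvB : v ∈ B := (hc1 v hv).1 hcv
    rw [gon_mem hvB]
    exact h.comm c' hcc v (hB v hvB) ((hc2 v hvB).2 hv) y
  refine ⟨fun v hv y => ?_, fun u hu' v hv' huv y => ?_, ?_⟩
  · rcases mem_insert.1 hv with rfl | hvA
    · rw [Function.update_self]
      exact h.sq c' hcc y
    · rw [hu v hvA]
      by_cases hvB : v ∈ B
      · rw [gon_mem hvB]
        exact h.sq v (hB v hvB) y
      · rw [gon_not hvB]
        rfl
  · rcases mem_insert.1 hu' with rfl | huA
    · rcases mem_insert.1 hv' with rfl | hvA
      · exact absurd huv (G₁.loopless.irrefl _)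
      · rw [Function.update_self, hu v hvA]
        exact haux v hvA huv y
    · rcases mem_insert.1 hv' with rfl | hvA
      · rw [Function.update_self, hu u huA]
        exact (haux u huA huv.symm y).symm
      · rw [hu u huA, hu v hvA]
        by_cases huB : u ∈ B
        · by_cases hvB : v ∈ B
          · rw [gon_mem huB, gon_mem hvB]
            exact h.comm u (hB u huB) v (hB v hvB)
              ((h2 u huB v hvB).2 ((h1 u huA v hvA).1 huv)) y
          · rw [gon_not hvB]
            rfl
        · rw [gon_not huB]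
          rfl
  · obtain ⟨m, F, hF, h0, hm, hr⟩ := h.fil
    refine ⟨m, F, hF, h0, hm, fun j v hv y hy => ?_⟩
    rcases mem_insert.1 hv with rfl | hvA
    · rw [Function.update_self]
      exact hr j c' hcc y hy
    · rw [hu v hvA]
      by_cases hvB : v ∈ B
      · rw [gon_mem hvB]
        exact hr j v (hB v hvB) y hy
      · rw [gon_not hvB, Module.End.one_apply, ZModModule.add_self]
        exact Submodule.zero_mem _

theorem gon_sq {G₁ : SimpleGraph V} {A : Finset V} {c : V} {r : V → Module.End F2 Y}
    (h : IsN G₁ (insert c A) r) (v : V) (y : Y) : gon A r v (gon A r v y) = y := by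
  by_cases hv : v ∈ A
  · rw [gon_mem hv]
    exact h.sq v (mem_insert_of_mem hv) y
  · rw [gon_not hv]
    rfl

theorem gon_comm {G G₁ : SimpleGraph V} {A : Finset V} {c : V}
    (h1 : ∀ a ∈ A, ∀ b ∈ A, G₁.Adj a b ↔ G.Adj a b) {r : V → Module.End F2 Y}
    (h : IsN G₁ (insert c A) r) (u v : V) (huv : G.Adj u v) (y : Y) :
    gon A r u (gon A r v y) = gon A r v (gon A r u y) := by
  by_cases hu : u ∈ A
  · by_cases hv : v ∈ A
    · rw [gon_mem hu, gon_mem hv]
      exact h.comm u (mem_insert_of_mem hu) v (mem_insert_of_mem hv) ((h1 u hu v hv).2 huv) y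
    · rw [gon_not hv]
      rfl
  · rw [gon_not hu]
    rfl

theorem gon_fil {A : Finset V} {c : V} {r : V → Module.End F2 Y}
    (h : Fil (insert c A) r) :
    Fil (univ : Finset (Option V)) (fun o => o.elim (r c) (gon A r)) := by
  obtain ⟨m, F, hF, h0, hm, hr⟩ := h
  refine ⟨m, F, hF, h0, hm, fun j o _ y hy => ?_⟩
  cases o with
  | none => exact hr j c (mem_insert_self c A) y hy
  | some v =>
    by_cases hv : v ∈ A
    · change y + gon A r v y ∈ F j
      rw [gon_mem hv]
      exact hr j v (mem_insert_of_mem hv) y hy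
    · change y + gon A r v y ∈ F j
      rw [gon_not hv, Module.End.one_apply, ZModModule.add_self]
      exact Submodule.zero_mem _

end One

end Pool.Agent.H73.GC

end

section

/-!
# Growth calculus: identification of two vertices, the map of the chains

`psh x u z t` is `0` if `x ∈ t`, `z t + z (t - u + x)` if `u ∈ t`, and `z t` otherwise. It commutes with `dd` on
the chains supported on the cliques of `G` in `U` (also for cliques containing both `x` and `u`: the simplices
`t + x` and `t + u` of such a chain cancel). It maps `Ch (Sy X rf) i` onto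
`Ch (Sy (Cq (merge G x u) (U.erase x)) r) i`, for `X = Cq G U` and for `X` = the cliques which do not contain
both `x` and `u`, because of `NoSq`: a clique `t` of the merged graph with `u ∈ t` is a clique of `G`, or
`t - u + x` is one.
-/

set_option autoImplicit false
set_option linter.unusedSectionVars false

open Finset

namespace Pool.Agent.H73.GC

variable {V : Type} [DecidableEq V] [Fintype V]
variable {Y : Type} [AddCommGroup Y] [Module F2 Y]

/-- the map of the chains when `x` and `u` are identified -/
def psh (x u : V) : Module.End F2 (Finset V → Y) where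
  toFun z t := if x ∈ t then 0 else if u ∈ t then z t + z (insert x (t.erase u)) else z t
  map_add' z w := by
    funext t
    by_cases h : x ∈ t
    · simp [h]
    · by_cases h2 : u ∈ t
      · simp only [h, if_false, h2, if_true, Pi.add_apply]
        abel
      · simp [h, h2]
  map_smul' c z := by
    funext t
    by_cases h : x ∈ t
    · simp [h]
    · by_cases h2 : u ∈ t
      · simp [h, h2]
      · simp [h, h2]

theorem psh_apply (x u : V) (z : Finset V → Y) (t : Finset V) :
    psh x u z t = if x ∈ t then 0 else if u ∈ t then z t + z (insert x (t.erase u)) else z t := rfl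

private theorem MergeP_insert_erase {x u : V} {t : Finset V} (hx : x ∉ t) (hu : u ∈ t) :
    insert u ((insert x (t.erase u)).erase x) = t := by
  have h1 : x ∉ t.erase u := fun h => hx (mem_of_mem_erase h)
  rw [erase_insert h1, insert_erase hu]

private theorem MergeP_self_add (y : Y) : y + y = 0 := by
  have h : (2 : F2) = 0 := rfl
  rw [← two_smul F2 y, h, zero_smul]

/-- `psh` commutes with the boundary (for all chains). -/
theorem psh_dd {x u : V} (hxu : x ≠ u) (z : Finset V → Y) : psh x u (dd z) = dd (psh x u z) := by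
  funext t
  by_cases hx : x ∈ t
  · rw [psh_apply, if_pos hx, dd_apply]
    symm
    apply sum_eq_zero
    intro v _
    rw [psh_apply, if_pos (mem_insert_of_mem hx)]
  by_cases hu : u ∈ t
  · rw [psh_apply, if_neg hx, if_pos hu]
    have hxc : x ∈ tᶜ := mem_compl.2 hx
    have hc : (insert x (t.erase u))ᶜ = insert u (tᶜ.erase x) := by
      ext a
      simp only [mem_compl, mem_insert, mem_erase]
      constructor
      · intro h
        by_cases ha : a = u
        · exact Or.inl ha
        · right
          refine ⟨fun h' => h (Or.inl h'), fun h' => h (Or.inr ⟨ha, h'⟩)⟩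
      · rintro (h | ⟨h1, h2⟩) (h3 | ⟨h4, h5⟩)
        · exact hxu (h3.symm.trans h)
        · exact h4 h
        · exact h1 h3
        · exact h2 h5
    have hun : u ∉ tᶜ.erase x := fun h => (mem_compl.1 (mem_of_mem_erase h)) hu
    rw [dd_apply, dd_apply, dd_apply, hc, sum_insert hun, ← add_sum_erase _ _ hxc,
      ← add_sum_erase _ _ hxc]
    have h1 : insert u (insert x (t.erase u)) = insert x t := by
      rw [Finset.insert_comm, insert_erase hu]
    rw [h1, psh_apply x u z (insert x t), if_pos (mem_insert_self x t), zero_add]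
    have h2 : ∀ v ∈ tᶜ.erase x, psh x u z (insert v t) =
        z (insert v t) + z (insert v (insert x (t.erase u))) := by
      intro v hv
      have hvx : v ≠ x := ne_of_mem_erase hv
      have hvt : v ∉ t := mem_compl.1 (mem_of_mem_erase hv)
      have hvu : v ≠ u := fun h => hvt (h ▸ hu)
      have h3 : x ∉ insert v t := by
        rw [mem_insert]
        rintro (h | h)
        · exact hvx h.symm
        · exact hx h
      rw [psh_apply, if_neg h3, if_pos (mem_insert_of_mem hu), erase_insert_of_ne hvu, Finset.insert_comm]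
    rw [sum_congr rfl h2, sum_add_distrib]
    have h4 := MergeP_self_add (z (insert x t))
    calc z (insert x t) + ∑ v ∈ tᶜ.erase x, z (insert v t) +
          (z (insert x t) + ∑ v ∈ tᶜ.erase x, z (insert v (insert x (t.erase u))))
        = (z (insert x t) + z (insert x t)) + (∑ v ∈ tᶜ.erase x, z (insert v t) +
          ∑ v ∈ tᶜ.erase x, z (insert v (insert x (t.erase u)))) := by abel
      _ = _ := by rw [h4, zero_add]
  · rw [psh_apply, if_neg hx, if_neg hu]
    have hxc : x ∈ tᶜ := mem_compl.2 hx
    have huc : u ∈ tᶜ.erase x := mem_erase.2 ⟨hxu.symm, mem_compl.2 hu⟩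
    rw [dd_apply, dd_apply, ← add_sum_erase _ _ hxc, ← add_sum_erase _ _ huc,
      ← add_sum_erase _ _ hxc, ← add_sum_erase _ _ huc]
    have h1 : x ∉ insert u t := by
      rw [mem_insert]
      rintro (h | h)
      · exact hxu h
      · exact hx h
    rw [psh_apply x u z (insert x t), if_pos (mem_insert_self x t), psh_apply x u z (insert u t),
      if_neg h1, if_pos (mem_insert_self u t), erase_insert hu, zero_add]
    have h2 : ∀ v ∈ (tᶜ.erase x).erase u, psh x u z (insert v t) = z (insert v t) := by
      intro v hv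
      have hvu : v ≠ u := ne_of_mem_erase hv
      have hvx : v ≠ x := ne_of_mem_erase (mem_of_mem_erase hv)
      have h3 : x ∉ insert v t := by
        rw [mem_insert]
        rintro (h | h)
        · exact hvx h.symm
        · exact hx h
      have h4 : u ∉ insert v t := by
        rw [mem_insert]
        rintro (h | h)
        · exact hvu h.symm
        · exact hu h
      rw [psh_apply, if_neg h3, if_neg h4]
    rw [sum_congr rfl h2]
    abel

/-- the cliques of the merged graph -/
theorem merge_clique {G : SimpleGraph V} {U : Finset V} {x u : V} (hx : x ∈ U) (hu : u ∈ U)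
    (hxu : x ≠ u) (hN : NoSq G U x u) {t : Finset V} (hut : u ∈ t) :
    Cq (merge G x u) (U.erase x) t ↔ x ∉ t ∧ (Cq G U t ∨ Cq G U (insert x (t.erase u))) := by
  constructor
  · rintro ⟨h1, h2⟩
    have hxt : x ∉ t := fun h => (mem_erase.1 (h2 h)).1 rfl
    have hU : t ⊆ U := fun a ha => mem_of_mem_erase (h2 ha)
    refine ⟨hxt, ?_⟩
    have hG : ∀ a ∈ t, ∀ b ∈ t, a ≠ u → b ≠ u → a ≠ b → G.Adj a b := by
      intro a ha b hb hau hbu hab
      rcases (h1 (mem_coe.2 ha) (mem_coe.2 hb) hab).2 with h | h | h
      · exact h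
      · exact absurd h.1 hau
      · exact absurd h.1 hbu
    have hor : ∀ a ∈ t, a ≠ u → G.Adj u a ∨ G.Adj x a := by
      intro a ha hau
      rcases (h1 (mem_coe.2 ha) (mem_coe.2 hut) hau).2 with h | h | h
      · exact Or.inl h.symm
      · exact absurd h.1 hau
      · exact Or.inr h.2
    by_cases hall : ∀ a ∈ t, a ≠ u → G.Adj u a
    · left
      refine ⟨?_, hU⟩
      intro a ha b hb hab
      have ha' : a ∈ t := mem_coe.1 ha
      have hb' : b ∈ t := mem_coe.1 hb
      by_cases hau : a = u
      · rw [hau]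
        exact hall b hb' (fun h => hab (hau.trans h.symm))
      · by_cases hbu : b = u
        · rw [hbu]
          exact (hall a ha' hau).symm
        · exact hG a ha' b hb' hau hbu hab
    · right
      push Not at hall
      obtain ⟨b, hb, hbu, hub⟩ := hall
      have hxb : G.Adj x b := (hor b hb hbu).resolve_left hub
      have hxa : ∀ a ∈ t, a ≠ u → G.Adj x a := by
        intro a ha hau
        rcases hor a ha hau with h | h
        · by_cases hab : a = b
          · rw [hab]
            exact hxb
          · rcases hN a (hU ha) b (hU hb) (fun h' => hxt (h' ▸ ha)) hbu h hxb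
              (hG a ha b hb hau hbu hab) with h' | h'
            · exact h'
            · exact absurd h' hub
        · exact h
      refine ⟨?_, ?_⟩
      · intro a ha c hc hac
        have ha' : a = x ∨ (a ≠ u ∧ a ∈ t) := by
          simpa only [mem_insert, mem_erase] using mem_coe.1 ha
        have hc' : c = x ∨ (c ≠ u ∧ c ∈ t) := by
          simpa only [mem_insert, mem_erase] using mem_coe.1 hc
        rcases ha' with ha' | ⟨ha1, ha2⟩
        · rcases hc' with hc' | ⟨hc1, hc2⟩
          · exact absurd (ha'.trans hc'.symm) hac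
          · rw [ha']
            exact hxa c hc2 hc1
        · rcases hc' with hc' | ⟨hc1, hc2⟩
          · rw [hc']
            exact (hxa a ha2 ha1).symm
          · exact hG a ha2 c hc2 ha1 hc1 hac
      · intro a ha
        rcases mem_insert.1 ha with h | h
        · rw [h]
          exact hx
        · exact hU (mem_of_mem_erase h)
  · rintro ⟨hxt, h⟩
    have hsub : t ⊆ U := by
      rcases h with h | h
      · exact h.2
      · intro a ha
        by_cases hau : a = u
        · rw [hau]
          exact hu
        · exact h.2 (mem_insert_of_mem (mem_erase.2 ⟨hau, ha⟩))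
    refine ⟨?_, fun a ha => mem_erase.2 ⟨fun h' => hxt (h' ▸ ha), hsub ha⟩⟩
    intro a ha b hb hab
    have ha' : a ∈ t := mem_coe.1 ha
    have hb' : b ∈ t := mem_coe.1 hb
    refine ⟨hab, ?_⟩
    rcases h with h | h
    · exact Or.inl (h.1 ha hb hab)
    · by_cases hau : a = u
      · have hbu : b ≠ u := fun h' => hab (hau.trans h'.symm)
        refine Or.inr (Or.inl ⟨hau, h.1 ?_ ?_ ?_⟩)
        · exact mem_coe.2 (mem_insert_self _ _)
        · exact mem_coe.2 (mem_insert_of_mem (mem_erase.2 ⟨hbu, hb'⟩))
        · exact fun h' => hxt (h' ▸ hb')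
      · by_cases hbu : b = u
        · refine Or.inr (Or.inr ⟨hbu, h.1 ?_ ?_ ?_⟩)
          · exact mem_coe.2 (mem_insert_self _ _)
          · exact mem_coe.2 (mem_insert_of_mem (mem_erase.2 ⟨hau, ha'⟩))
          · exact fun h' => hxt (h' ▸ ha')
        · refine Or.inl (h.1 ?_ ?_ hab)
          · exact mem_coe.2 (mem_insert_of_mem (mem_erase.2 ⟨hau, ha'⟩))
          · exact mem_coe.2 (mem_insert_of_mem (mem_erase.2 ⟨hbu, hb'⟩))

theorem merge_clique' {G : SimpleGraph V} {U : Finset V} {x u : V} {t : Finset V} (hut : u ∉ t) :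
    Cq (merge G x u) (U.erase x) t ↔ x ∉ t ∧ Cq G U t := by
  constructor
  · rintro ⟨h1, h2⟩
    refine ⟨fun h => (mem_erase.1 (h2 h)).1 rfl, ?_, fun a ha => mem_of_mem_erase (h2 ha)⟩
    intro a ha b hb hab
    rcases (h1 ha hb hab).2 with h | h | h
    · exact h
    · exact absurd (h.1 ▸ mem_coe.1 ha) hut
    · exact absurd (h.1 ▸ mem_coe.1 hb) hut
  · rintro ⟨hxt, h1, h2⟩
    refine ⟨fun a ha b hb hab => ⟨hab, Or.inl (h1 ha hb hab)⟩, fun a ha => ?_⟩
    exact mem_erase.2 ⟨fun h' => hxt (h' ▸ ha), h2 ha⟩

/-- The image of `psh`. -/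
theorem psh_map {G : SimpleGraph V} {U : Finset V} {x u : V} (hx : x ∈ U) (hu : u ∈ U)
    (hxu : x ≠ u) (hN : NoSq G U x u) (r : V → Module.End F2 Y) (i : ℕ) (X : Finset V → Prop)
    (hX : (∀ s, X s ↔ Cq G U s) ∨ ∀ s, X s ↔ (Cq G U s ∧ ¬ (x ∈ s ∧ u ∈ s))) :
    (Ch (Sy X (Function.update r x (r u))) i).map (psh x u) =
      Ch (Sy (Cq (merge G x u) (U.erase x)) r) i := by
  classical
  have hXC : ∀ s, X s → Cq G U s := by
    intro s hs
    rcases hX with h | h
    · exact (h s).1 hs
    · exact ((h s).1 hs).1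
  have hCX : ∀ s, Cq G U s → ¬ (x ∈ s ∧ u ∈ s) → X s := by
    intro s hs h1
    rcases hX with h | h
    · exact (h s).2 hs
    · exact (h s).2 ⟨hs, h1⟩
  have hne : ∀ v, v ≠ x → Function.update r x (r u) v = r v := fun v hv =>
    Function.update_of_ne hv _ _
  have hself : Function.update r x (r u) x = r u := Function.update_self _ _ _
  apply le_antisymm
  · rintro _ ⟨z, hz, rfl⟩
    rw [SetLike.mem_coe, mem_Ch] at hz
    rw [mem_Ch]
    intro t
    rw [psh_apply]
    by_cases hxt : x ∈ t
    · rw [if_pos hxt]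
      exact ⟨Submodule.zero_mem _, fun _ => rfl⟩
    rw [if_neg hxt]
    by_cases hut : u ∈ t
    · rw [if_pos hut]
      obtain ⟨h1, h2⟩ := hz t
      obtain ⟨h3, h4⟩ := hz (insert x (t.erase u))
      rw [mem_Sy] at h1 h3
      have hxe : x ∉ t.erase u := fun h => hxt (mem_of_mem_erase h)
      have hcard : (insert x (t.erase u)).card = t.card := by
        rw [card_insert_of_notMem hxe, card_erase_add_one hut]
      rw [hcard] at h4
      refine ⟨?_, fun h => by rw [h2 h, h4 h, add_zero]⟩
      rw [mem_Sy]
      refine ⟨fun h => ?_, fun v hv => ?_⟩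
      · rw [merge_clique hx hu hxu hN hut] at h
        have h5 : ¬ Cq G U t := fun h' => h ⟨hxt, Or.inl h'⟩
        have h6 : ¬ Cq G U (insert x (t.erase u)) := fun h' => h ⟨hxt, Or.inr h'⟩
        rw [h1.1 (fun h' => h5 (hXC _ h')), h3.1 (fun h' => h6 (hXC _ h')), add_zero]
      · have hvx : v ≠ x := fun h => hxt (h ▸ hv)
        have h7 := h1.2 v hv
        rw [hne v hvx] at h7
        rw [map_add, h7]
        congr 1
        by_cases hvu : v = u
        · have h8 := h3.2 x (mem_insert_self _ _)
          rw [hself] at h8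
          rw [hvu]
          exact h8
        · have h8 := h3.2 v (mem_insert_of_mem (mem_erase.2 ⟨hvu, hv⟩))
          rw [hne v hvx] at h8
          exact h8
    · rw [if_neg hut]
      obtain ⟨h1, h2⟩ := hz t
      rw [mem_Sy] at h1
      refine ⟨?_, h2⟩
      rw [mem_Sy]
      refine ⟨fun h => ?_, fun v hv => ?_⟩
      · rw [merge_clique' hut] at h
        exact h1.1 (fun h' => h ⟨hxt, hXC _ h'⟩)
      · have hvx : v ≠ x := fun h => hxt (h ▸ hv)
        have h7 := h1.2 v hv
        rwa [hne v hvx] at h7
  · intro w hw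
    rw [mem_Ch] at hw
    let z : Finset V → Y := fun s =>
      if x ∈ s then (if u ∈ s then 0 else
        if Cq G U (insert u (s.erase x)) then 0 else w (insert u (s.erase x)))
      else (if u ∈ s then (if Cq G U s then w s else 0) else w s)
    have z1 : ∀ s, x ∈ s → u ∈ s → z s = 0 := by
      intro s h1 h2
      simp only [z, if_pos h1, if_pos h2]
    have z2 : ∀ s, x ∈ s → u ∉ s → Cq G U (insert u (s.erase x)) → z s = 0 := by
      intro s h1 h2 h3
      simp only [z, if_pos h1, if_neg h2, if_pos h3]
    have z3 : ∀ s, x ∈ s → u ∉ s → ¬ Cq G U (insert u (s.erase x)) →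
        z s = w (insert u (s.erase x)) := by
      intro s h1 h2 h3
      simp only [z, if_pos h1, if_neg h2, if_neg h3]
    have z4 : ∀ s, x ∉ s → u ∈ s → Cq G U s → z s = w s := by
      intro s h1 h2 h3
      simp only [z, if_neg h1, if_pos h2, if_pos h3]
    have z5 : ∀ s, x ∉ s → u ∈ s → ¬ Cq G U s → z s = 0 := by
      intro s h1 h2 h3
      simp only [z, if_neg h1, if_pos h2, if_neg h3]
    have z6 : ∀ s, x ∉ s → u ∉ s → z s = w s := by
      intro s h1 h2
      simp only [z, if_neg h1, if_neg h2]
    refine ⟨z, ?_, ?_⟩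
    · rw [SetLike.mem_coe, mem_Ch]
      intro s
      by_cases hxs : x ∈ s
      · by_cases hus : u ∈ s
        · rw [z1 s hxs hus]
          exact ⟨Submodule.zero_mem _, fun _ => rfl⟩
        · by_cases hC : Cq G U (insert u (s.erase x))
          · rw [z2 s hxs hus hC]
            exact ⟨Submodule.zero_mem _, fun _ => rfl⟩
          · rw [z3 s hxs hus hC]
            obtain ⟨h1, h2⟩ := hw (insert u (s.erase x))
            rw [mem_Sy] at h1
            have hue : u ∉ s.erase x := fun h => hus (mem_of_mem_erase h)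
            have hcard : (insert u (s.erase x)).card = s.card := by
              rw [card_insert_of_notMem hue, card_erase_add_one hxs]
            rw [hcard] at h2
            refine ⟨?_, h2⟩
            rw [mem_Sy]
            refine ⟨fun h => h1.1 fun h' => ?_, fun v hv => ?_⟩
            · rw [merge_clique hx hu hxu hN (mem_insert_self _ _)] at h'
              rcases h'.2 with h'' | h''
              · exact hC h''
              · rw [erase_insert hue, insert_erase hxs] at h''
                exact h (hCX s h'' (fun h3 => hus h3.2))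
            · by_cases hvx : v = x
              · rw [hvx, hself]
                exact h1.2 u (mem_insert_self _ _)
              · rw [hne v hvx]
                exact h1.2 v (mem_insert_of_mem (mem_erase.2 ⟨hvx, hv⟩))
      · by_cases hus : u ∈ s
        · by_cases hC : Cq G U s
          · rw [z4 s hxs hus hC]
            obtain ⟨h1, h2⟩ := hw s
            rw [mem_Sy] at h1
            refine ⟨?_, h2⟩
            rw [mem_Sy]
            refine ⟨fun h => absurd (hCX s hC (fun h3 => hxs h3.1)) h, fun v hv => ?_⟩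
            have hvx : v ≠ x := fun h => hxs (h ▸ hv)
            rw [hne v hvx]
            exact h1.2 v hv
          · rw [z5 s hxs hus hC]
            exact ⟨Submodule.zero_mem _, fun _ => rfl⟩
        · rw [z6 s hxs hus]
          obtain ⟨h1, h2⟩ := hw s
          rw [mem_Sy] at h1
          refine ⟨?_, h2⟩
          rw [mem_Sy]
          refine ⟨fun h => h1.1 fun h' => ?_, fun v hv => ?_⟩
          · rw [merge_clique' hus] at h'
            exact h (hCX s h'.2 (fun h3 => hxs h3.1))
          · have hvx : v ≠ x := fun h => hxs (h ▸ hv)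
            rw [hne v hvx]
            exact h1.2 v hv
    · funext t
      rw [psh_apply]
      by_cases hxt : x ∈ t
      · rw [if_pos hxt]
        symm
        refine (hw t).1.1 fun h => ?_
        exact (mem_erase.1 (h.2 hxt)).1 rfl
      rw [if_neg hxt]
      by_cases hut : u ∈ t
      · rw [if_pos hut]
        have hxe : x ∉ t.erase u := fun h => hxt (mem_of_mem_erase h)
        have hun : u ∉ insert x (t.erase u) := by
          rw [mem_insert]
          rintro (h | h)
          · exact hxu h.symm
          · exact (mem_erase.1 h).1 rfl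
        have hback := MergeP_insert_erase hxt hut
        by_cases hC : Cq G U t
        · rw [z4 t hxt hut hC, z2 _ (mem_insert_self _ _) hun (by rw [hback]; exact hC), add_zero]
        · rw [z5 t hxt hut hC, z3 _ (mem_insert_self _ _) hun (by rw [hback]; exact hC), hback,
            zero_add]
      · rw [if_neg hut, z6 t hxt hut]

end Pool.Agent.H73.GC

end

section

/-!
# Project SR, module M6: the zig-zag (Poincaré duality with coefficients)
-/

set_option autoImplicit false
set_option linter.unusedSectionVars false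

open Finset

namespace Pool.Agent.H19.SR

variable {V : Type} [DecidableEq V] [Fintype V] {K : Type} [Field K] [CharP K 2] {Y : Type}
  [AddCommGroup Y] [Module K Y]

/-- double chains in a single bidegree: functions of the pairs `τ ⊆ A`, `A` a clique -/
def IsW (G : SimpleGraph V) (a b : ℕ) (w : Finset V → Finset V → Y) : Prop :=
  ∀ τ A, w τ A ≠ 0 → τ ⊆ A ∧ G.IsClique (A : Set V) ∧ τ.card = a ∧ A.card = b

/-- the coboundary in `τ` -/
def e1 (r : V → Y →ₗ[K] Y) (w : Finset V → Finset V → Y) (τ A : Finset V) : Y :=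
  if τ ⊆ A then ∑ v ∈ τ, (w (τ.erase v) A + r v (w (τ.erase v) A)) else 0

/-- the boundary in `A` -/
def e2 (w : Finset V → Finset V → Y) (τ A : Finset V) : Y :=
  if τ ⊆ A then ∑ v ∈ Aᶜ, w τ (insert v A) else 0

/-- extension of the coefficients from `ZMod 2` to `Y`, cycles below the top degree -/
private theorem ext_low {G : SimpleGraph V} {n : ℕ} (hS : IsSph G n) {Y : Type} [AddCommGroup Y]
    (hY : ∀ y : Y, y + y = 0) {τ : Finset V} (hτ : G.IsClique (τ : Set V)) {b : ℕ} (hb : b < n)
    {f : Finset V → Y} (hf : ∀ t, f t ≠ 0 → G.IsClique (t : Set V) ∧ τ ⊆ t ∧ t.card = b)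
    (h2 : ∀ t, τ ⊆ t → ∑ v ∈ tᶜ, f (insert v t) = 0) :
    ∃ u : Finset V → Y, (∀ t, u t ≠ 0 → G.IsClique (t : Set V) ∧ τ ⊆ t ∧ t.card = b + 1) ∧
      ∀ t, τ ⊆ t → ∑ v ∈ tᶜ, u (insert v t) = f t := by
  classical
  letI : Module (ZMod 2) Y := AddCommGroup.zmodModule (fun y => by rw [two_nsmul]; exact hY y)
  set B := Module.Basis.ofVectorSpace (ZMod 2) Y with hB
  have key : ∀ β, ∃ u : Finset V → ZMod 2,
      (∀ t, u t ≠ 0 → G.IsClique (t : Set V) ∧ τ ⊆ t ∧ t.card = b + 1) ∧
      ∀ t, τ ⊆ t → ∑ v ∈ tᶜ, u (insert v t) = B.repr (f t) β := by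
    intro β
    refine hS.low τ hτ b hb (fun t => B.repr (f t) β) ?_ ?_
    · intro t ht
      refine hf t fun h0 => ht ?_
      show B.repr (f t) β = 0
      rw [h0, map_zero]
      rfl
    · intro t ht
      have h3 := congrArg (fun y => B.repr y β) (h2 t ht)
      simp only [map_sum, map_zero, Finsupp.finsetSum_apply] at h3
      exact h3
  choose U hU1 hU2 using key
  set S : Finset _ := (univ : Finset (Finset V)).biUnion fun A => (B.repr (f A)).support with hS'
  refine ⟨fun t => ∑ β ∈ S, U β t • B β, ?_, ?_⟩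
  · intro t ht
    obtain ⟨β, _, hβ⟩ := exists_ne_zero_of_sum_ne_zero ht
    refine hU1 β t fun h0 => hβ ?_
    rw [h0, zero_smul]
  · intro t ht
    show ∑ v ∈ tᶜ, ∑ β ∈ S, U β (insert v t) • B β = f t
    rw [sum_comm]
    have h3 : ∀ β ∈ S, ∑ v ∈ tᶜ, U β (insert v t) • B β = B.repr (f t) β • B β := by
      intro β _
      rw [← sum_smul, hU2 β t ht]
    rw [sum_congr rfl h3]
    conv_rhs => rw [← B.linearCombination_repr (f t)]
    rw [Finsupp.linearCombination_apply, Finsupp.sum]
    symm
    refine sum_subset ?_ ?_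
    · rw [hS']
      intro β hβ
      rw [mem_biUnion]
      exact ⟨t, mem_univ _, hβ⟩
    · intro β _ hβ
      rw [Finsupp.notMem_support_iff.1 hβ, zero_smul]

/-- extension of the coefficients from `ZMod 2` to `Y`, cycles in the top degree -/
private theorem ext_top {G : SimpleGraph V} {n : ℕ} (hS : IsSph G n) {Y : Type} [AddCommGroup Y]
    (hY : ∀ y : Y, y + y = 0) {τ : Finset V} (hτ : G.IsClique (τ : Set V))
    {f : Finset V → Y} (hf : ∀ t, f t ≠ 0 → G.IsClique (t : Set V) ∧ τ ⊆ t ∧ t.card = n)
    (h2 : ∀ t, τ ⊆ t → ∑ v ∈ tᶜ, f (insert v t) = 0) {A A' : Finset V} (h3 : τ ⊆ A)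
    (h4 : G.IsClique (A : Set V)) (h5 : A.card = n) (h3' : τ ⊆ A')
    (h4' : G.IsClique (A' : Set V)) (h5' : A'.card = n) : f A = f A' := by
  classical
  letI : Module (ZMod 2) Y := AddCommGroup.zmodModule (fun y => by rw [two_nsmul]; exact hY y)
  set B := Module.Basis.ofVectorSpace (ZMod 2) Y with hB
  refine B.ext_elem fun β => ?_
  have key : ∃ c, ∀ t : Finset V, G.IsClique (t : Set V) → τ ⊆ t → t.card = n →
      B.repr (f t) β = c := by
    refine (hS.top τ hτ (fun t => B.repr (f t) β) ?_).1 ?_
    · intro t ht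
      refine hf t fun h0 => ht ?_
      show B.repr (f t) β = 0
      rw [h0, map_zero]
      rfl
    · intro t ht
      have h3 := congrArg (fun y => B.repr y β) (h2 t ht)
      simp only [map_sum, map_zero, Finsupp.finsetSum_apply] at h3
      exact h3
  obtain ⟨c, hc⟩ := key
  rw [hc A h4 h3 h5, hc A' h4' h3' h5']

private theorem slice {G : SimpleGraph V} {a b : ℕ} {w : Finset V → Finset V → Y}
    (hw : IsW G a b w) (h2 : e2 w = 0) (τ : Finset V) :
    (∀ t, w τ t ≠ 0 → G.IsClique (t : Set V) ∧ τ ⊆ t ∧ t.card = b) ∧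
      ∀ t, τ ⊆ t → ∑ v ∈ tᶜ, w τ (insert v t) = 0 := by
  refine ⟨fun t ht => ?_, fun t ht => ?_⟩
  · obtain ⟨h3, h4, _, h6⟩ := hw τ t ht
    exact ⟨h4, h3, h6⟩
  · have h3 := congrFun (congrFun h2 τ) t
    unfold e2 at h3
    rw [if_pos ht] at h3
    exact h3

/-- The rows are exact: the sphere is given with coefficients in `ZMod 2`; extend the coefficients to `Y`. For fixed
`τ` (a clique; other `τ` give `w τ = 0`) let `Z` be the kernel of the boundary on the `ZMod 2`-valued functions on
the cliques `A ⊇ τ` with `A.card = b`. `IsSph.low` gives for every basis vector of `Z` a preimage, so there is a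
matrix `S (A, A') : ZMod 2` with `∂ (S f) = f` for all `f ∈ Z`. Put `u τ A = ∑ A', S (A, A') w τ A'` (`ZMod 2` acts
on `Y` through `0, 1`). To see `∂ u = w τ` apply an arbitrary additive map `Y → ZMod 2` (they separate the points:
`Y` is a vector space over `ZMod 2` by `CharP K 2`). (Other proofs are fine.) -/
theorem row {G : SimpleGraph V} {n : ℕ} (hS : IsSph G n) {a b : ℕ} (hb : b < n)
    {w : Finset V → Finset V → Y} (hw : IsW G a b w) (h2 : e2 w = 0)
    (hY : ∀ y : Y, y + y = 0) : ∃ u : Finset V → Finset V → Y, IsW G a (b + 1) u ∧ e2 u = w := by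
  classical
  have key : ∀ τ : Finset V, ∃ u : Finset V → Y,
      (∀ t, u t ≠ 0 → τ ⊆ t ∧ G.IsClique (t : Set V) ∧ τ.card = a ∧ t.card = b + 1) ∧
      ∀ t, τ ⊆ t → ∑ v ∈ tᶜ, u (insert v t) = w τ t := by
    intro τ
    by_cases hτ : G.IsClique (τ : Set V) ∧ τ.card = a
    · obtain ⟨u, h3, h4⟩ := ext_low hS hY hτ.1 hb (slice hw h2 τ).1 (slice hw h2 τ).2
      refine ⟨u, fun t ht => ?_, h4⟩
      obtain ⟨h5, h6, h7⟩ := h3 t ht
      exact ⟨h6, h5, hτ.2, h7⟩
    · refine ⟨fun _ => 0, fun t ht => absurd rfl ht, fun t _ => ?_⟩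
      rw [sum_const_zero]
      by_contra h0
      obtain ⟨h5, h6, h7, _⟩ := hw τ t (fun h => h0 h.symm)
      exact hτ ⟨h6.subset (by exact_mod_cast h5), h7⟩
  choose u hu1 hu2 using key
  refine ⟨u, fun τ A h => hu1 τ A h, ?_⟩
  funext τ A
  unfold e2
  by_cases h : τ ⊆ A
  · rw [if_pos h, hu2 τ A h]
  · rw [if_neg h]
    by_contra h0
    exact h (hw τ A (fun h => h0 h.symm)).1

/-- The last row: in the top degree the cycles are constant. (`a' τ` = the common value; the same argument with
additive maps `Y → ZMod 2` and `IsSph.top`; `IsSph.facet` for the existence of `A`.) -/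
theorem row_top {G : SimpleGraph V} {n : ℕ} (hS : IsSph G n) {a : ℕ}
    {w : Finset V → Finset V → Y} (hw : IsW G a n w) (h2 : e2 w = 0) (hY : ∀ y : Y, y + y = 0) :
    ∃ a' : Finset V → Y, (∀ τ, a' τ ≠ 0 → G.IsClique (τ : Set V) ∧ τ.card = a) ∧
      ∀ τ A : Finset V, τ ⊆ A → G.IsClique (A : Set V) → A.card = n → w τ A = a' τ := by
  classical
  have key : ∀ τ : Finset V, ∃ y : Y, (y ≠ 0 → G.IsClique (τ : Set V) ∧ τ.card = a) ∧
      ∀ A : Finset V, τ ⊆ A → G.IsClique (A : Set V) → A.card = n → w τ A = y := by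
    intro τ
    by_cases hτ : G.IsClique (τ : Set V) ∧ τ.card = a
    · obtain ⟨A₀, h3, h4, h5⟩ := hS.facet τ hτ.1
      refine ⟨w τ A₀, fun _ => hτ, fun A h6 h7 h8 => ?_⟩
      exact ext_top hS hY hτ.1 (slice hw h2 τ).1 (slice hw h2 τ).2 h6 h7 h8 h3 h4 h5
    · refine ⟨0, fun h => absurd rfl h, fun A _ _ _ => ?_⟩
      by_contra h0
      obtain ⟨h5, h6, h7, _⟩ := hw τ A h0
      exact hτ ⟨h6.subset (by exact_mod_cast h5), h7⟩
  choose a' h3 h4 using key
  exact ⟨a', h3, h4⟩

private theorem sum_pairs {Y : Type} [AddCommGroup Y] (hY : ∀ y : Y, y + y = 0) (τ : Finset V)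
    (g : V → V → Y) (hg : ∀ u ∈ τ, ∀ v ∈ τ, g u v = g v u) :
    ∑ v ∈ τ, ∑ u ∈ τ.erase v, g v u = 0 := by
  classical
  rw [sum_sigma']
  refine sum_involution (fun x _ => ⟨x.2, x.1⟩) ?_ ?_ ?_ ?_
  · rintro ⟨v, u⟩ h
    rw [mem_sigma, mem_erase] at h
    show g v u + g u v = 0
    rw [hg v h.1 u h.2.2]
    exact hY _
  · rintro ⟨v, u⟩ h _ h0
    rw [mem_sigma, mem_erase] at h
    have h1 : u = v := congrArg Sigma.fst h0
    exact h.2.1 h1
  · rintro ⟨v, u⟩ h
    rw [mem_sigma, mem_erase] at h ⊢
    exact ⟨h.2.2, fun h1 => h.2.1 h1.symm, h.1⟩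
  · rintro ⟨v, u⟩ h
    rfl

private theorem e1_e1 {G : SimpleGraph V} {r : V → Y →ₗ[K] Y} (hY : ∀ y : Y, y + y = 0)
    (hcomm : ∀ u v, G.Adj u v → ∀ y, r u (r v y) = r v (r u y)) {a b : ℕ}
    {w : Finset V → Finset V → Y} (hw : IsW G a b w) : e1 r (e1 r w) = 0 := by
  classical
  funext τ A
  show (if τ ⊆ A then ∑ v ∈ τ, (e1 r w (τ.erase v) A + r v (e1 r w (τ.erase v) A)) else 0) = 0
  split_ifs with hτ
  swap
  · rfl
  by_cases hA : G.IsClique (A : Set V)
  · have h1 : ∀ v ∈ τ, e1 r w (τ.erase v) A + r v (e1 r w (τ.erase v) A) =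
        ∑ u ∈ τ.erase v, (w ((τ.erase v).erase u) A + r u (w ((τ.erase v).erase u) A) +
          (r v (w ((τ.erase v).erase u) A) + r v (r u (w ((τ.erase v).erase u) A)))) := by
      intro v _
      unfold e1
      rw [if_pos ((erase_subset _ _).trans hτ), map_sum, ← sum_add_distrib]
      refine sum_congr rfl fun u _ => ?_
      rw [map_add]
    rw [sum_congr rfl h1]
    refine sum_pairs hY τ (fun v u => w ((τ.erase v).erase u) A + r u (w ((τ.erase v).erase u) A) +
          (r v (w ((τ.erase v).erase u) A) + r v (r u (w ((τ.erase v).erase u) A)))) ?_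
    intro u hu v hv
    show w ((τ.erase u).erase v) A + r v (w ((τ.erase u).erase v) A) +
          (r u (w ((τ.erase u).erase v) A) + r u (r v (w ((τ.erase u).erase v) A))) =
        w ((τ.erase v).erase u) A + r u (w ((τ.erase v).erase u) A) +
          (r v (w ((τ.erase v).erase u) A) + r v (r u (w ((τ.erase v).erase u) A)))
    rw [erase_right_comm (a := v) (b := u)]
    by_cases huv : u = v
    · rw [huv]
    · rw [hcomm u v (hA (hτ hu) (hτ hv) huv)]
      abel
  · have h0 : ∀ σ, w σ A = 0 := by
      intro σ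
      by_contra h
      exact hA (hw σ A h).2.1
    have h1 : ∀ σ, e1 r w σ A = 0 := by
      intro σ
      unfold e1
      split_ifs
      · refine sum_eq_zero fun v _ => ?_
        rw [h0, map_zero, add_zero]
      · rfl
    refine sum_eq_zero fun v _ => ?_
    rw [h1, map_zero, add_zero]

private theorem e2_e1 (r : V → Y →ₗ[K] Y) (w : Finset V → Finset V → Y) :
    e2 (e1 r w) = e1 r (e2 w) := by
  classical
  funext τ A
  show (if τ ⊆ A then ∑ v ∈ Aᶜ, e1 r w τ (insert v A) else 0) =
    if τ ⊆ A then ∑ v ∈ τ, (e2 w (τ.erase v) A + r v (e2 w (τ.erase v) A)) else 0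
  split_ifs with hτ
  swap
  · rfl
  have h1 : ∀ v ∈ Aᶜ, e1 r w τ (insert v A) =
      ∑ u ∈ τ, (w (τ.erase u) (insert v A) + r u (w (τ.erase u) (insert v A))) := by
    intro v _
    unfold e1
    rw [if_pos (hτ.trans (subset_insert _ _))]
  have h2 : ∀ u ∈ τ, e2 w (τ.erase u) A + r u (e2 w (τ.erase u) A) =
      ∑ v ∈ Aᶜ, (w (τ.erase u) (insert v A) + r u (w (τ.erase u) (insert v A))) := by
    intro u _
    unfold e2
    rw [if_pos ((erase_subset _ _).trans hτ), map_sum, ← sum_add_distrib]
  rw [sum_congr rfl h1, sum_congr rfl h2, sum_comm]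

private theorem isW_e1 {G : SimpleGraph V} {r : V → Y →ₗ[K] Y} {a b : ℕ}
    {w : Finset V → Finset V → Y} (hw : IsW G a b w) : IsW G (a + 1) b (e1 r w) := by
  classical
  intro τ A h
  unfold e1 at h
  split_ifs at h with hτ
  · obtain ⟨v, hv, h1⟩ := exists_ne_zero_of_sum_ne_zero h
    have h2 : w (τ.erase v) A ≠ 0 := by
      intro h0
      apply h1
      rw [h0, map_zero, add_zero]
    obtain ⟨_, h4, h5, h6⟩ := hw _ _ h2
    refine ⟨hτ, h4, ?_, h6⟩
    rw [← h5, card_erase_of_mem hv]
    have := card_pos.2 ⟨v, hv⟩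
    omega
  · exact absurd rfl h

end Pool.Agent.H19.SR

end
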