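import Pool.Agent.H71.TSG.M17
import Pool.Agent.H71.TSG.M18
import Pool.Agent.H71.TSG.M19
import Pool.Agent.H71.TSG.M20
import Pool.Agent.H71.TSG.M21
import Pool.Agent.H71.TSG.M22

/-! The parts of this file: H4.FC.HodgeL, H73.GC.Res, H73.GC.LuckC, H19.SR.Dim, H4.FC.FinHodgeL, S9.E.Mat, S9.F.Du, S9.F.ZigD, S9.F.DuD, S9.CofT. -/

section

/-!
# Project FC: harmonic `ℓ²`-chains and reduced homology

Modelled on `Pool.Agent.H4.Singer.L2Hodge` (its lemmas `l2h_mem_iff`, `l2h_sum`, `l2h_mul`, `l2h_add`,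
`l2h_sub`, `l2h_prod`, `l2h_slice`, `l2h_norm`, `l2h_inner`, `l2hEv` on square summable functions are public and
generic; the others must be adapted: replace `RGrp G` by `M.Group`, `gen G v` by `M.simple v`,
`G.IsClique σ` by `Sph M σ`, `h (w) - h (w * gen v)` by `altS`, `adj_identity` by `adj_identityL` with
`π = MonoidHom.id`). The coboundary `c ρ w = ∑_{v∈ρ} ± altS M id ρ (x (ρ.erase v)) w` for spherical `ρ` with
`i + 1` elements (zero otherwise) is an `ℓ²`-chain of degree `i + 1` (`altS_anti`; finite sums of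
translates), and for `h` orthogonal to the boundaries
`0 = ⟨h, dbd c⟩ = ∑_ρ (1 / |W_ρ|) ‖c ρ‖²`, so `c = 0`. That the boundary of an `ℓ²`-chain is one uses
`Sph.mono`. `dbd ν (dbd ν y) = 0`: as for `dl_dl` (`Pool.Agent.H4.Singer.ActBasic`, which holds for
functions on an arbitrary set).
-/

set_option autoImplicit false
set_option linter.unusedSectionVars false

open Finset

namespace Pool.Agent.H4.FC

variable {V : Type} [Fintype V] [DecidableEq V]

/-- Harmonic `ℓ²`-chains: kernel of the boundary and of the coboundary. -/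
structure IsHarmL (M : CoxeterMatrix V) (ν : V → ℕ) (i : ℕ) (x : Finset V → M.Group → ℂ) :
    Prop where
  chain : IsL2Chain M i x
  cyc : dbd ν x = 0
  cocyc : ∀ (ρ : Finset V) (w : M.Group), Sph M ρ → ρ.card = i + 1 →
    ∑ v ∈ ρ, (-1 : ℂ) ^ ((ρ.erase v).filter fun u => ν u < ν v).card *
      altS M (MonoidHom.id M.Group) ρ (x (ρ.erase v)) w = 0

/-! ### chains -/

private lemma hl_dbd_eq {M : CoxeterMatrix V} (ν : V → ℕ) (f : Finset V → M.Group → ℂ) :
    dbd ν f = Singer.dl ℂ ν f := by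
  funext τ w
  rw [Singer.dl_apply]
  unfold dbd Singer.sg
  refine Finset.sum_congr rfl fun v _ => ?_
  push_cast
  rfl

private lemma hl_dbd_l2 {M : CoxeterMatrix V} (ν : V → ℕ) {f : Finset V → M.Group → ℂ}
    (hf : ∀ σ, Summable fun w => ‖f σ w‖ ^ 2) (τ : Finset V) :
    Summable fun w => ‖dbd ν f τ w‖ ^ 2 :=
  Singer.l2h_sum _ _ fun v _ => Singer.l2h_mul _ (hf (insert v τ))

private lemma hl_chain_add {M : CoxeterMatrix V} {i : ℕ} {f g : Finset V → M.Group → ℂ}
    (hf : IsL2Chain M i f) (hg : IsL2Chain M i g) : IsL2Chain M i (f + g) where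
  supp σ w h := by
    by_cases h1 : f σ w = 0
    · by_cases h2 : g σ w = 0
      · exact absurd (by simp [h1, h2]) h
      · exact hg.supp σ w h2
    · exact hf.supp σ w h1
  anti σ v hv w := by
    simp only [Pi.add_apply]
    rw [hf.anti σ v hv w, hg.anti σ v hv w]
    ring
  l2 σ := Singer.l2h_add (hf.l2 σ) (hg.l2 σ)

private lemma hl_chain_smul {M : CoxeterMatrix V} {i : ℕ} (a : ℂ) {f : Finset V → M.Group → ℂ}
    (hf : IsL2Chain M i f) : IsL2Chain M i (a • f) where
  supp σ w h := hf.supp σ w (right_ne_zero_of_mul h)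
  anti σ v hv w := by
    simp only [Pi.smul_apply, smul_eq_mul]
    rw [hf.anti σ v hv w]
    ring
  l2 σ := Singer.l2h_mul a (hf.l2 σ)

private lemma hl_chain_zero {M : CoxeterMatrix V} {i : ℕ} :
    IsL2Chain M i (0 : Finset V → M.Group → ℂ) where
  supp σ w h := absurd rfl h
  anti σ v hv w := by simp
  l2 σ := by simp

/-- boundaries -/
private noncomputable def hlB (M : CoxeterMatrix V) (ν : V → ℕ) (i : ℕ) :
    Submodule ℂ (lp (fun _ : Finset V × M.Group => ℂ) 2) where
  carrier := {e | ∃ y : Finset V → M.Group → ℂ, IsL2Chain M (i + 1) y ∧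
    ∀ σ w, e (σ, w) = dbd ν y σ w}
  zero_mem' := ⟨0, hl_chain_zero, fun σ w => by simp [dbd]⟩
  add_mem' := by
    rintro e e' ⟨y, hy, h⟩ ⟨y', hy', h'⟩
    refine ⟨y + y', hl_chain_add hy hy', fun σ w => ?_⟩
    rw [hl_dbd_eq, map_add, ← hl_dbd_eq, ← hl_dbd_eq]
    show e (σ, w) + e' (σ, w) = dbd ν y σ w + dbd ν y' σ w
    rw [h, h']
  smul_mem' := by
    rintro a e ⟨y, hy, h⟩
    refine ⟨a • y, hl_chain_smul a hy, fun σ w => ?_⟩
    rw [hl_dbd_eq, map_smul, ← hl_dbd_eq]
    show a * e (σ, w) = a * dbd ν y σ w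
    rw [h]

/-- cycles -/
private noncomputable def hlT (M : CoxeterMatrix V) (ν : V → ℕ) (i : ℕ) :
    Submodule ℂ (lp (fun _ : Finset V × M.Group => ℂ) 2) where
  carrier := {e | (∀ (σ : Finset V) (w : M.Group),
      ¬ (Sph M σ ∧ σ.card = i) → e (σ, w) = 0) ∧
    (∀ (σ : Finset V), ∀ v ∈ σ, ∀ w : M.Group, e (σ, w * M.simple v) = - e (σ, w)) ∧
    ∀ (τ : Finset V) (w : M.Group), ∑ v ∈ τᶜ, (-1 : ℂ) ^ (τ.filter fun u => ν u < ν v).card * e (insert v τ, w) = 0}
  zero_mem' := by
    refine ⟨fun σ w _ => rfl, fun σ v _ w => ?_, fun τ w => ?_⟩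
    · show (0 : ℂ) = - 0
      simp
    · refine Finset.sum_eq_zero fun v _ => ?_
      show _ * (0 : ℂ) = 0
      simp
  add_mem' := by
    rintro e e' ⟨h1, h2, h3⟩ ⟨h1', h2', h3'⟩
    refine ⟨fun σ w h => ?_, fun σ v hv w => ?_, fun τ w => ?_⟩
    · show e (σ, w) + e' (σ, w) = 0
      rw [h1 σ w h, h1' σ w h, add_zero]
    · show e (σ, w * M.simple v) + e' (σ, w * M.simple v) = - (e (σ, w) + e' (σ, w))
      rw [h2 σ v hv w, h2' σ v hv w]
      ring
    · show ∑ v ∈ τᶜ, (-1 : ℂ) ^ (τ.filter fun u => ν u < ν v).card *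
        (e (insert v τ, w) + e' (insert v τ, w)) = 0
      simp only [mul_add, Finset.sum_add_distrib]
      rw [h3, h3', add_zero]
  smul_mem' := by
    rintro a e ⟨h1, h2, h3⟩
    refine ⟨fun σ w h => ?_, fun σ v hv w => ?_, fun τ w => ?_⟩
    · show a * e (σ, w) = 0
      rw [h1 σ w h, mul_zero]
    · show a * e (σ, w * M.simple v) = - (a * e (σ, w))
      rw [h2 σ v hv w]
      ring
    · show ∑ v ∈ τᶜ, (-1 : ℂ) ^ (τ.filter fun u => ν u < ν v).card *
        (a * e (insert v τ, w)) = 0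
      have := h3 τ w
      calc _ = a * ∑ v ∈ τᶜ, (-1 : ℂ) ^ (τ.filter fun u => ν u < ν v).card *
            e (insert v τ, w) := by
            rw [Finset.mul_sum]
            exact Finset.sum_congr rfl fun v _ => by ring
        _ = 0 := by rw [this, mul_zero]

private lemma hlT_closed (M : CoxeterMatrix V) (ν : V → ℕ) (i : ℕ) :
    IsClosed (hlT M ν i : Set (lp (fun _ : Finset V × M.Group => ℂ) 2)) := by
  have h : (hlT M ν i : Set (lp (fun _ : Finset V × M.Group => ℂ) 2)) =
      ((⋂ σ : Finset V, ⋂ w : M.Group, ⋂ _ : ¬ (Sph M σ ∧ σ.card = i),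
        {e | Singer.l2hEv (σ, w) e = 0}) ∩
      (⋂ σ : Finset V, ⋂ v : V, ⋂ _ : v ∈ σ, ⋂ w : M.Group,
        {e | Singer.l2hEv (σ, w * M.simple v) e = - Singer.l2hEv (σ, w) e})) ∩
      (⋂ τ : Finset V, ⋂ w : M.Group,
        {e | ∑ v ∈ τᶜ, (-1 : ℂ) ^ (τ.filter fun u => ν u < ν v).card *
          Singer.l2hEv (insert v τ, w) e = 0}) := by
    ext e
    simp only [Set.mem_inter_iff, Set.mem_iInter, Set.mem_ofPred_eq, Singer.l2hEv_apply]
    constructor
    · rintro ⟨h1, h2, h3⟩
      exact ⟨⟨h1, fun σ v hv w => h2 σ v hv w⟩, h3⟩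
    · rintro ⟨⟨h1, h2⟩, h3⟩
      exact ⟨h1, fun σ v hv w => h2 σ v hv w, h3⟩
  rw [h]
  refine (IsClosed.inter ?_ ?_).inter ?_
  · refine isClosed_iInter fun σ => isClosed_iInter fun w => isClosed_iInter fun _ => ?_
    exact isClosed_eq (Singer.l2hEv _).continuous continuous_const
  · refine isClosed_iInter fun σ => isClosed_iInter fun v => isClosed_iInter fun _ =>
      isClosed_iInter fun w => ?_
    exact isClosed_eq (Singer.l2hEv _).continuous (Singer.l2hEv _).continuous.neg
  · refine isClosed_iInter fun τ => isClosed_iInter fun w => ?_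
    refine isClosed_eq ?_ continuous_const
    exact continuous_finsetSum _ fun v _ => continuous_const.mul (Singer.l2hEv _).continuous

private lemma hlB_le (M : CoxeterMatrix V) (ν : V → ℕ) (hν : Function.Injective ν) (i : ℕ) :
    hlB M ν i ≤ hlT M ν i := by
  rintro e ⟨y, hy, h⟩
  refine ⟨fun σ w hσ => ?_, fun σ v hv w => ?_, fun τ w => ?_⟩
  · rw [h]
    unfold dbd
    refine Finset.sum_eq_zero fun v hv => ?_
    rw [Finset.mem_compl] at hv
    by_contra hne
    obtain ⟨h1, h2⟩ := hy.supp _ _ (right_ne_zero_of_mul hne)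
    apply hσ
    refine ⟨h1.mono (Finset.subset_insert _ _), ?_⟩
    rw [Finset.card_insert_of_notMem hv] at h2
    omega
  · rw [h, h]
    unfold dbd
    rw [← Finset.sum_neg_distrib]
    refine Finset.sum_congr rfl fun u _ => ?_
    rw [hy.anti (insert u σ) v (mem_insert_of_mem hv)]
    ring
  · have h1 := congrFun (congrFun (Singer.dl_dl (F := ℂ) ν hν y) τ) w
    rw [← hl_dbd_eq, ← hl_dbd_eq] at h1
    simp only [Pi.zero_apply] at h1
    rw [← h1]
    show _ = ∑ v ∈ τᶜ, (-1 : ℂ) ^ (τ.filter fun u => ν u < ν v).card * dbd ν y (insert v τ) w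
    exact Finset.sum_congr rfl fun v _ => by rw [h]

open Classical in
/-- the coboundary, restricted to cliques with `i + 1` elements -/
private noncomputable def hlC (M : CoxeterMatrix V) (ν : V → ℕ) (i : ℕ) (x : Finset V → M.Group → ℂ) :
    Finset V → M.Group → ℂ := fun ρ w =>
  if Sph M ρ ∧ ρ.card = i + 1 then
    ∑ v ∈ ρ, (-1 : ℂ) ^ ((ρ.erase v).filter fun u => ν u < ν v).card *
      altS M (MonoidHom.id M.Group) ρ (x (ρ.erase v)) w else 0

private lemma hlC_chain (M : CoxeterMatrix V) (ν : V → ℕ) (i : ℕ) {x : Finset V → M.Group → ℂ}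
    (hx : IsL2Chain M i x) : IsL2Chain M (i + 1) (hlC M ν i x) where
  supp σ w h := by
    unfold hlC at h
    by_contra hcon
    rw [if_neg hcon] at h
    exact h rfl
  anti ρ u hu w := by
    unfold hlC
    by_cases hρ : Sph M ρ ∧ ρ.card = i + 1
    · rw [if_pos hρ, if_pos hρ, ← Finset.sum_neg_distrib]
      refine Finset.sum_congr rfl fun v hv => ?_
      have h1 := altS_anti M (MonoidHom.id M.Group) hρ.1 (x (ρ.erase v)) hu w
      have h2 : altS M (MonoidHom.id M.Group) ρ (x (ρ.erase v)) (w * M.simple u) =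
          -altS M (MonoidHom.id M.Group) ρ (x (ρ.erase v)) w := h1
      rw [h2]
      ring
    · rw [if_neg hρ, if_neg hρ, neg_zero]
  l2 ρ := by
    unfold hlC
    by_cases hρ : Sph M ρ ∧ ρ.card = i + 1
    · simp only [if_pos hρ]
      refine Singer.l2h_sum _ _ fun v _ => Singer.l2h_mul _ ?_
      unfold altS
      refine Singer.l2h_sum _ _ fun u _ => Singer.l2h_mul _ ?_
      exact (Equiv.mulRight u).summable_iff (f := fun w => ‖x (ρ.erase v) w‖ ^ 2) |>.2
        (hx.l2 _)
    · simp only [if_neg hρ]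
      simp

private lemma hl_harm (M : CoxeterMatrix V) (ν : V → ℕ) (i : ℕ)
    (h : lp (fun _ : Finset V × M.Group => ℂ) 2) (hT : h ∈ hlT M ν i)
    (hperp : ∀ e ∈ hlB M ν i, inner ℂ h e = 0) : IsHarmL M ν i (fun σ w => h (σ, w)) := by
  classical
  obtain ⟨x, hx⟩ : ∃ x : Finset V → M.Group → ℂ, x = fun σ w => h (σ, w) := ⟨_, rfl⟩
  have hxa : ∀ σ w, h (σ, w) = x σ w := fun σ w => by rw [hx]
  rw [← hx]
  obtain ⟨hT1, hT2, hT3⟩ := hT
  have hxc : IsL2Chain M i x :=
    { supp := fun σ w hne => by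
        by_contra hcon
        apply hne
        rw [← hxa]
        exact hT1 σ w hcon
      anti := fun σ v hv w => by
        rw [← hxa, ← hxa]
        exact hT2 σ v hv w
      l2 := fun σ => by
        have := Singer.l2h_slice h σ
        simp only [hxa] at this
        exact this }
  have hcyc : dbd ν x = 0 := by
    funext τ w
    have := hT3 τ w
    simp only [hxa] at this
    exact this
  obtain ⟨c, hc⟩ : ∃ c, c = hlC M ν i x := ⟨_, rfl⟩
  have hcc : IsL2Chain M (i + 1) c := by
    rw [hc]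
    exact hlC_chain M ν i hxc
  obtain ⟨dE, hdEa⟩ : ∃ dE : lp (fun _ : Finset V × M.Group => ℂ) 2,
      ∀ σ w, dE (σ, w) = dbd ν c σ w :=
    ⟨⟨fun p => dbd ν c p.1 p.2, Singer.l2h_prod (dbd ν c) (hl_dbd_l2 ν hcc.l2)⟩, fun _ _ => rfl⟩
  have hdE : dE ∈ hlB M ν i := ⟨c, hcc, hdEa⟩
  have hinner : inner ℂ h dE = 0 := hperp dE hdE
  rw [Singer.l2h_inner h dE] at hinner
  have hsph : ∀ ρ, c ρ ≠ 0 → Sph M ρ := by
    intro ρ hne
    by_contra hcon
    apply hne
    funext w
    by_contra hw
    exact hcon (hcc.supp ρ w hw).1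
  have key := adj_identityL M (MonoidHom.id M.Group) ν x c hxc.l2 hcc.l2 hsph
    (fun ρ v hv w => hcc.anti ρ v hv w)
  have e1 : ∑ τ : Finset V, ∑' w, (starRingEnd ℂ) (x τ w) *
      (∑ v ∈ τᶜ, (-1 : ℂ) ^ (τ.filter fun u => ν u < ν v).card * c (insert v τ) w) = 0 := by
    rw [← hinner]
    refine Finset.sum_congr rfl fun τ _ => tsum_congr fun w => ?_
    rw [hdEa, hxa]
    rfl
  rw [e1] at key
  have e2 : ∀ ρ w, (starRingEnd ℂ)
        (∑ v ∈ ρ, (-1 : ℂ) ^ ((ρ.erase v).filter fun u => ν u < ν v).card *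
          altS M (MonoidHom.id M.Group) ρ (x (ρ.erase v)) w) * c ρ w =
        ((‖c ρ w‖ ^ 2 : ℝ) : ℂ) := by
    intro ρ w
    have hsq : ∀ z : ℂ, (starRingEnd ℂ) z * z = ((‖z‖ ^ 2 : ℝ) : ℂ) := by
      intro z
      rw [mul_comm, Complex.mul_conj, Complex.normSq_eq_norm_sq]
    by_cases hρ : Sph M ρ ∧ ρ.card = i + 1
    · have : c ρ w = ∑ v ∈ ρ, (-1 : ℂ) ^ ((ρ.erase v).filter fun u => ν u < ν v).card *
          altS M (MonoidHom.id M.Group) ρ (x (ρ.erase v)) w := by
        simp only [hc, hlC]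
        rw [if_pos hρ]
      rw [← this]
      exact hsq _
    · have : c ρ w = 0 := by
        simp only [hc, hlC]
        rw [if_neg hρ]
      rw [this]
      simp
  simp only [e2] at key
  have key2 : ∑ ρ : Finset V, (1 / ((parF M ρ).card : ℝ)) * ∑' w, ‖c ρ w‖ ^ 2 = 0 := by
    have h2 : ((∑ ρ : Finset V, (1 / ((parF M ρ).card : ℝ)) * ∑' w, ‖c ρ w‖ ^ 2 : ℝ) : ℂ) = 0 := by
      rw [key]
      push_cast
      rfl
    exact_mod_cast h2
  have hc0 : ∀ ρ w, c ρ w = 0 := by
    intro ρ w
    by_cases hρ : Sph M ρ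
    · have h1 := (Finset.sum_eq_zero_iff_of_nonneg (fun ρ _ => mul_nonneg
        (div_nonneg zero_le_one (Nat.cast_nonneg _))
        (tsum_nonneg fun w => sq_nonneg ‖c ρ w‖))).1 key2 ρ (mem_univ ρ)
      have hpos : (0 : ℝ) < 1 / ((parF M ρ).card : ℝ) :=
        div_pos one_pos (Nat.cast_pos.mpr (parF_card_pos hρ))
      have h1' : ∑' w, ‖c ρ w‖ ^ 2 = 0 := (mul_eq_zero.1 h1).resolve_left hpos.ne'
      have h2 := (hcc.l2 ρ).hasSum
      rw [h1'] at h2
      have h3 := (hasSum_zero_iff_of_nonneg fun w => sq_nonneg ‖c ρ w‖).1 h2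
      have h4 := congrFun h3 w
      simpa using h4
    · by_contra hw
      exact hρ (hcc.supp ρ w hw).1
  exact
    { chain := hxc
      cyc := hcyc
      cocyc := fun ρ w h1 h2 => by
        have h3 := hc0 ρ w
        simp only [hc, hlC] at h3
        rw [if_pos ⟨h1, h2⟩] at h3
        exact h3 }

private lemma hl_closure (M : CoxeterMatrix V) (ν : V → ℕ) (hν : Function.Injective ν) (i : ℕ)
    (h0 : ∀ x : Finset V → M.Group → ℂ, IsHarmL M ν i x → x = 0)
    (zE : lp (fun _ : Finset V × M.Group => ℂ) 2) (hzT : zE ∈ hlT M ν i) :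
    zE ∈ (hlB M ν i).topologicalClosure := by
  obtain ⟨B, hB⟩ : ∃ B, B = (hlB M ν i).topologicalClosure := ⟨_, rfl⟩
  rw [← hB]
  have hcl : IsClosed (B : Set (lp (fun _ : Finset V × M.Group => ℂ) 2)) := by
    rw [hB]
    exact (hlB M ν i).isClosed_topologicalClosure
  have : CompleteSpace B := hcl.completeSpace_coe
  have hBT : B ≤ hlT M ν i := by
    rw [hB]
    exact Submodule.topologicalClosure_minimal _ (hlB_le M ν hν i) (hlT_closed M ν i)
  have hBB : hlB M ν i ≤ B := by
    rw [hB]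
    exact Submodule.le_topologicalClosure _
  obtain ⟨b, hb⟩ : ∃ b, b = B.starProjection zE := ⟨_, rfl⟩
  have hbB : b ∈ B := by
    rw [hb]
    exact Submodule.starProjection_apply_mem B zE
  have hperp : zE - b ∈ Bᗮ := by
    rw [hb]
    exact Submodule.sub_starProjection_mem_orthogonal zE
  have hT : zE - b ∈ hlT M ν i := (hlT M ν i).sub_mem hzT (hBT hbB)
  have hharm := hl_harm M ν i (zE - b) hT
    (fun e he => (Submodule.mem_orthogonal' B (zE - b)).1 hperp e (hBB he))
  have hx0 := h0 _ hharm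
  have hh0 : zE - b = 0 := by
    ext p
    exact congrFun (congrFun hx0 p.1) p.2
  rw [sub_eq_zero] at hh0
  rw [hh0]
  exact hbB

/-- **Hodge decomposition.** -/
theorem l2_hodgeL (M : CoxeterMatrix V) (ν : V → ℕ) (hν : Function.Injective ν) (i : ℕ)
    (h0 : ∀ x : Finset V → M.Group → ℂ, IsHarmL M ν i x → x = 0)
    (z : Finset V → M.Group → ℂ) (hz : IsL2Chain M i z) (hdz : dbd ν z = 0) (ε : ℝ)
    (hε : 0 < ε) :
    ∃ y : Finset V → M.Group → ℂ, IsL2Chain M (i + 1) y ∧
      ∑ σ, ∑' w, ‖z σ w - dbd ν y σ w‖ ^ 2 < ε := by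
  obtain ⟨zE, hzE⟩ : ∃ zE : lp (fun _ : Finset V × M.Group => ℂ) 2, ∀ σ w, zE (σ, w) = z σ w :=
    ⟨⟨fun p => z p.1 p.2, Singer.l2h_prod z hz.l2⟩, fun _ _ => rfl⟩
  have hzT : zE ∈ hlT M ν i := by
    refine ⟨fun σ w h => ?_, fun σ v hv w => ?_, fun τ w => ?_⟩
    · rw [hzE]
      by_contra hne
      exact h (hz.supp σ w hne)
    · rw [hzE, hzE]
      exact hz.anti σ v hv w
    · simp only [hzE]
      exact congrFun (congrFun hdz τ) w
  have hcl : zE ∈ closure (hlB M ν i : Set (lp (fun _ : Finset V × M.Group => ℂ) 2)) :=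
    hl_closure M ν hν i h0 zE hzT
  rw [Metric.mem_closure_iff] at hcl
  obtain ⟨e, ⟨y, hy, hey⟩, hdist⟩ := hcl (Real.sqrt ε) (Real.sqrt_pos.2 hε)
  refine ⟨y, hy, ?_⟩
  rw [dist_eq_norm] at hdist
  have hn := Singer.l2h_norm (zE - e)
  have e3 : ∑ σ, ∑' w, ‖z σ w - dbd ν y σ w‖ ^ 2 = ∑ σ, ∑' w, ‖(zE - e) (σ, w)‖ ^ 2 := by
    refine Finset.sum_congr rfl fun σ _ => tsum_congr fun w => ?_
    have e4 : (zE - e) (σ, w) = zE (σ, w) - e (σ, w) := rfl
    rw [e4, hzE, hey]
  rw [e3, ← hn]
  calc ‖zE - e‖ ^ 2 < Real.sqrt ε ^ 2 := pow_lt_pow_left₀ hdist (norm_nonneg _) two_ne_zero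
    _ = ε := Real.sq_sqrt hε.le

end Pool.Agent.H4.FC

end

section

/-!
# Growth calculus: removing simplices and links

`R f s = f (e ∪ s)` if `s` is disjoint from `e`, otherwise `0`; `R (dd f) = dd (R f)`; the kernel of `R` on
`Ch A j` is `Ch (del e A) j`, the image of `Ch A (i + e.card)` is `Ch (res e A) i`. `hx_mid`, `hx_sub`.
-/

set_option autoImplicit false
set_option linter.unusedSectionVars false

open Finset

namespace Pool.Agent.H73.GC

variable {V : Type} [DecidableEq V] [Fintype V]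
variable {Y : Type} [AddCommGroup Y] [Module F2 Y] [Finite Y]

/-- the restriction to the simplices containing `e` -/
private def Res_R (e : Finset V) : (Finset V → Y) →ₗ[F2] (Finset V → Y) where
  toFun f s := if Disjoint e s then f (e ∪ s) else 0
  map_add' f g := by
    funext s
    by_cases h : Disjoint e s
    · simp only [if_pos h, Pi.add_apply]
    · simp only [if_neg h, Pi.add_apply, add_zero]
  map_smul' c f := by
    funext s
    by_cases h : Disjoint e s
    · simp only [if_pos h, Pi.smul_apply, RingHom.id_apply]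
    · simp only [if_neg h, Pi.smul_apply, smul_zero]

private theorem Res_pos {e s : Finset V} (h : Disjoint e s) (f : Finset V → Y) :
    Res_R e f s = f (e ∪ s) := if_pos h

private theorem Res_neg {e s : Finset V} (h : ¬ Disjoint e s) (f : Finset V → Y) :
    Res_R e f s = 0 := if_neg h

private theorem Res_dd (e : Finset V) (f : Finset V → Y) : Res_R e (dd f) = dd (Res_R e f) := by
  funext s
  rw [dd_apply]
  by_cases h : Disjoint e s
  · rw [Res_pos h, dd_apply]
    refine Finset.sum_subset_zero_on_sdiff ?_ ?_ ?_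
    · intro v hv
      rw [mem_compl, mem_union, not_or] at hv
      exact mem_compl.2 hv.2
    · intro v hv
      rw [mem_sdiff, mem_compl, mem_compl, mem_union, not_not] at hv
      refine Res_neg (fun h2 => ?_) f
      have h3 : v ∈ e := hv.2.resolve_right hv.1
      exact disjoint_left.1 h2 h3 (mem_insert_self v s)
    · intro v hv
      rw [mem_compl, mem_union, not_or] at hv
      have h2 : Disjoint e (insert v s) := by
        rw [disjoint_insert_right]
        exact ⟨hv.1, h⟩
      rw [Res_pos h2, union_insert]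
  · rw [Res_neg h]
    refine (Finset.sum_eq_zero fun v _ => Res_neg (fun h2 => h ?_) f).symm
    exact h2.mono_right (subset_insert v s)

private theorem Res_ker (A : Finset V → Submodule F2 Y) (e : Finset V) (j : ℕ) :
    Ch A j ⊓ LinearMap.ker (Res_R e) = Ch (del e A) j := by
  ext f
  constructor
  · rintro ⟨h1, h2⟩ s
    refine ⟨⟨(h1 s).1, fun h => ?_⟩, (h1 s).2⟩
    have h3 : Res_R e f (s \ e) = 0 := congrFun (LinearMap.mem_ker.1 h2) (s \ e)
    rwa [Res_pos disjoint_sdiff, union_sdiff_of_subset h] at h3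
  · intro h
    refine ⟨fun s => ⟨(h s).1.1, (h s).2⟩, LinearMap.mem_ker.2 (funext fun s => ?_)⟩
    by_cases hs : Disjoint e s
    · rw [Res_pos hs]
      exact (h (e ∪ s)).1.2 subset_union_left
    · exact Res_neg hs f

private theorem Res_map (A : Finset V → Submodule F2 Y) (e : Finset V) (i : ℕ) :
    (Ch A (i + e.card)).map (Res_R e) = Ch (res e A) i := by
  ext g
  constructor
  · rintro ⟨f, hf, rfl⟩ s
    by_cases hs : Disjoint e s
    · rw [Res_pos hs]
      refine ⟨⟨(hf _).1, fun h => absurd hs h⟩, fun h => (hf _).2 ?_⟩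
      rw [card_union_of_disjoint hs]
      omega
    · rw [Res_neg hs]
      exact ⟨Submodule.zero_mem _, fun _ => rfl⟩
  · intro hg
    refine ⟨fun t => if e ⊆ t then g (t \ e) else 0, fun t => ?_, funext fun s => ?_⟩
    · dsimp only
      by_cases ht : e ⊆ t
      · rw [if_pos ht]
        have h1 := (hg (t \ e)).1.1
        rw [union_sdiff_of_subset ht] at h1
        refine ⟨h1, fun h => (hg (t \ e)).2 ?_⟩
        rw [card_sdiff_of_subset ht]
        have := card_le_card ht
        omega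
      · rw [if_neg ht]
        exact ⟨Submodule.zero_mem _, fun _ => rfl⟩
    · by_cases hs : Disjoint e s
      · rw [Res_pos hs, if_pos subset_union_left, union_sdiff_cancel_left hs]
      · rw [Res_neg hs]
        exact ((hg s).1.2 hs).symm

private theorem Res_hxc (d : Module.End F2 (Finset V → Y)) (C C' : ℕ → Submodule F2 (Finset V → Y))
    (i i' : ℕ) (h0 : C i = C' i') (h1 : C (i + 1) = C' (i' + 1)) : hx d C i = hx d C' i' := by
  unfold hx
  rw [h0, h1]

private theorem Res_hx (A : Finset V → Submodule F2 Y) (e : Finset V) (i : ℕ) :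
    hx dd (fun j => (Ch A j).map (Res_R e)) (i + e.card) = hd (res e A) i := by
  refine Res_hxc dd _ _ _ _ (Res_map A e i) ?_
  have h := Res_map A e (i + 1)
  rwa [show i + 1 + e.card = i + e.card + 1 by omega] at h

private theorem Res_hk (A : Finset V → Submodule F2 Y) (e : Finset V) (i : ℕ) :
    hx dd (fun j => Ch A j ⊓ LinearMap.ker (Res_R e)) i = hd (del e A) i := by
  unfold hd
  rw [show (fun j => Ch A j ⊓ LinearMap.ker (Res_R e)) = Ch (del e A) from
    funext fun j => Res_ker A e j]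

theorem hd_res {A : Finset V → Submodule F2 Y} (hA : Mono A) (e : Finset V) (i : ℕ) :
    hd A (i + e.card) ≤ hd (del e A) (i + e.card) + hd (res e A) i := by
  have h := hx_mid (isCx_Ch hA) (Res_R e) (fun _ x _ => Res_dd e x) (i + e.card)
  rwa [Res_hx, Res_hk] at h

theorem hd_del {A : Finset V → Submodule F2 Y} (hA : Mono A) (e : Finset V) (i m : ℕ)
    (hm : m + 1 = i + e.card) : hd (del e A) m ≤ hd A m + hd (res e A) i := by
  have h := hx_sub (isCx_Ch hA) (Res_R e) (fun _ x _ => Res_dd e x) m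
  rwa [hm, Res_hx, Res_hk] at h

end Pool.Agent.H73.GC

end

section

/-!
# Growth calculus: separating levels

Let `Y j` be given by `GZ G U i` for `ε = 1 / (j + 1)`, `P₂ j` the finite two-group of `exists_group`, `P₁ j` of
`exists_two_group G j`, and `P j = P₁ j × P₂ j × Multiplicative (V → ZMod 2)`. The last factor gives the bits,
`exists_lift` the homomorphisms. `finrank Y * hX (regP) ≤ card P * hX (Y)`: `untw` for the representation of
`P j` on `Y j` through `P₂ j`, and `prod_le` for `r₂ = regP` (`fil_group`).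
-/

set_option autoImplicit false
set_option linter.unusedSectionVars false

open Finset Filter

namespace Pool.Agent.H73.GC

variable {V : Type} [DecidableEq V] [Fintype V]

/-- the regular representation as a homomorphism -/
private def LuckC_reg (P : Type) [Group P] : P →* Module.End F2 (P → F2) where
  toFun a :=
    { toFun := fun f p => f (p * a)
      map_add' := fun _ _ => rfl
      map_smul' := fun _ _ => rfl }
  map_one' := by
    refine LinearMap.ext fun f => funext fun p => ?_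
    change f (p * 1) = f p
    rw [mul_one]
  map_mul' a b := by
    refine LinearMap.ext fun f => funext fun p => ?_
    change f (p * (a * b)) = f (p * a * b)
    rw [mul_assoc]

/-- every module bounds the homology of the levels over it -/
theorem reg_le {G : SimpleGraph V} {U : Finset V} {Y : Type} [AddCommGroup Y] [Module F2 Y]
    [Finite Y] {r E : V → Module.End F2 Y} (hN : IsN G U r) (hB : IsBit G U r E) {P : Type}
    [Group P] [Fintype P] (hP : IsPGroup 2 P) (ρ : P →* Module.End F2 Y) (g : V → P)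
    (hg : ∀ v, g v * g v = 1) (hgc : ∀ u v, G.Adj u v → g u * g v = g v * g u)
    (hρ : ∀ v ∈ U, ρ (g v) = r v) (i : ℕ) :
    Module.finrank F2 Y * hX (Cq G U) (regP g) i ≤ Fintype.card P * hX (Cq G U) r i := by
  classical
  have hm : ∀ (s : Finset V) (v : V), Cq G U (insert v s) → Cq G U s := by
    rintro s v ⟨h1, h2⟩
    refine ⟨h1.subset ?_, (Finset.subset_insert v s).trans h2⟩
    exact Finset.coe_subset.2 (Finset.subset_insert v s)
  have hreg : IsN G U (regP g) := by
    refine ⟨?_, ?_, fil_group hP (LuckC_reg P) U (regP g) g fun v _ => rfl⟩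
    · intro v _ f
      funext p
      change f (p * g v * g v) = f p
      rw [mul_assoc, hg, mul_one]
    · intro u _ v _ huv f
      funext p
      change f (p * g u * g v) = f (p * g v * g u)
      rw [mul_assoc, hgc u v huv, mul_assoc]
  have h1 := untw ρ g (X := Cq G U) hm (fun s hs v hv => hρ v (hs.2 hv)) i
  have h2 := prod_le hN hB hreg (X := Cq G U) (fun s hs => hs) hm i
  rw [h1] at h2
  refine h2.trans (le_of_eq ?_)
  rw [Module.finrank_fintype_fun_eq_card]

end Pool.Agent.H73.GC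

end

section

/-!
# Project SR, module K4: dimensions for the regular representation
-/

set_option autoImplicit false
set_option linter.unusedSectionVars false

open Finset

namespace Pool.Agent.H19.SR

open Pool.Agent.H77.SW Pool.Agent.H73.GC

variable {V : Type} [DecidableEq V] [Fintype V] {P : Type} [Group P] [Fintype P]

/-- `(E v f) p = f p` if `D.b p v = 0`, and `0` otherwise -/
def bE {G : SimpleGraph V} (D : PG G P) (v : V) : Module.End F2 (P → F2) where
  toFun f p := if D.b p v = 0 then f p else 0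
  map_add' f g := by
    funext p
    simp only [Pi.add_apply]
    split_ifs <;> simp
  map_smul' c f := by
    funext p
    simp only [Pi.smul_apply, smul_eq_mul, RingHom.id_apply]
    split_ifs <;> simp

/-- the right regular representation -/
private def Dim_rho {P : Type} [Group P] : P →* Module.End F2 (P → F2) where
  toFun q :=
    { toFun := fun f p => f (p * q)
      map_add' := fun _ _ => rfl
      map_smul' := fun _ _ => rfl }
  map_one' := by
    ext1 f
    funext p
    show f (p * 1) = f p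
    rw [mul_one]
  map_mul' a b := by
    ext1 f
    funext p
    show f (p * (a * b)) = f (p * a * b)
    rw [mul_assoc]

/-- `fil_group` for the right regular representation -/
theorem isN_reg {G : SimpleGraph V} (D : PG G P) : IsN G univ (regP D.g) := by
  refine ⟨fun v _ y => ?_, fun u _ v _ huv y => ?_, ?_⟩
  · funext p
    show y (p * D.g v * D.g v) = y p
    rw [mul_assoc, D.sq, mul_one]
  · funext p
    show y (p * D.g u * D.g v) = y (p * D.g v * D.g u)
    rw [mul_assoc, mul_assoc, D.comm u v huv]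
  · exact fil_group D.two (Dim_rho (P := P)) univ (regP D.g) D.g fun v _ => rfl

theorem isBit_reg {G : SimpleGraph V} (D : PG G P) : IsBit G univ (regP D.g) (bE D) := by
  have hE : ∀ (v : V) (f : P → F2) (p : P), bE D v f p = if D.b p v = 0 then f p else 0 :=
    fun _ _ _ => rfl
  have hR : ∀ (v : V) (f : P → F2) (p : P), regP D.g v f p = f (p * D.g v) := fun _ _ _ => rfl
  refine ⟨fun v _ y => ?_, fun v _ y => ?_, fun u _ v _ huv y => ?_, fun u _ v _ huv y => ?_⟩
  · funext p
    rw [hE, hE]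
    split_ifs <;> rfl
  · funext p
    rw [Pi.add_apply, hE, hR, hR, hE, D.b_mul, D.b_g, if_pos rfl]
    have h2 : ∀ a : ZMod 2, a = 0 ∨ a = 1 := by decide
    rcases h2 (D.b p v) with h | h
    · rw [h, if_pos rfl, if_neg (by decide), add_zero]
    · rw [h, if_neg (by decide), if_pos (by decide), zero_add]
  · funext p
    rw [hE, hR, hR, hE, D.b_mul, D.b_g, if_neg huv.ne', add_zero]
  · funext p
    rw [hE, hE, hE, hE]
    split_ifs <;> rfl

theorem zs_eq {G : SimpleGraph V} (D : PG G P) (n : ℕ) :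
    (Zs (ZMod 2) G n (rP (ZMod 2) D) : Submodule (ZMod 2) (Finset V → P → ZMod 2)) =
      Ch (Sy (Cq G univ) (regP D.g)) n ⊓ LinearMap.ker dd := by
  ext z
  rw [mem_Zs, Submodule.mem_inf, mem_Ch, LinearMap.mem_ker]
  constructor
  · rintro ⟨h1, h2, h3⟩
    refine ⟨fun s => ⟨⟨fun hn => ?_, fun v hv => h2 s v hv⟩, fun hn => ?_⟩, ?_⟩
    · by_contra h0
      exact hn ⟨(h1 s h0).1, subset_univ s⟩
    · by_contra h0
      exact hn (h1 s h0).2
    · funext s
      rw [dd_apply]
      exact h3 s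
  · rintro ⟨h1, h3⟩
    refine ⟨fun s hs => ⟨?_, ?_⟩, fun s v hv => (h1 s).1.2 v hv, fun s => ?_⟩
    · by_contra h0
      exact hs ((h1 s).1.1 fun h => h0 h.1)
    · by_contra h0
      exact hs ((h1 s).2 h0)
    · have h4 := congrFun h3 s
      rw [dd_apply] at h4
      exact h4

open Classical in
/-- the number of the cliques with `n` elements -/
noncomputable def ncl (G : SimpleGraph V) (n : ℕ) : ℕ :=
  ((univ : Finset (Finset V)).filter fun s : Finset V =>
    G.IsClique (s : Set V) ∧ s.card = n).card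

/-- `finrank_Ch`, `finrank_Inv` -/
theorem finrank_ch {G : SimpleGraph V} (D : PG G P) (n : ℕ) :
    Module.finrank F2 (Ch (Sy (Cq G univ) (regP D.g)) n) * 2 ^ n = ncl G n * Fintype.card P := by
  classical
  have hP : Module.finrank F2 (P → F2) = Fintype.card P := Module.finrank_fintype_fun_eq_card F2
  have h1 : ∀ s : Finset V, s.card = n → G.IsClique (s : Set V) →
      Module.finrank F2 (Sy (Cq G univ) (regP D.g) s) * 2 ^ n = Fintype.card P := by
    intro s hs hc
    have hq : Cq G univ s := ⟨hc, subset_univ s⟩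
    have h2 : Sy (Cq G univ) (regP D.g) s = Inv (regP D.g) s := by
      ext y
      rw [mem_Sy, mem_Inv]
      exact ⟨fun h => h.2, fun h => ⟨fun hn => absurd hq hn, h⟩⟩
    rw [h2, ← hs, finrank_Inv (IsBit.bitOn (isN_reg D) (isBit_reg D) hq), hP]
  have h0 : ∀ s : Finset V, ¬ G.IsClique (s : Set V) →
      Module.finrank F2 (Sy (Cq G univ) (regP D.g) s) = 0 := by
    intro s hc
    have h2 : Sy (Cq G univ) (regP D.g) s = ⊥ := by
      rw [eq_bot_iff]
      intro y hy
      exact (Submodule.mem_bot _).2 (hy.1 fun h => hc h.1)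
    rw [h2, finrank_bot]
  rw [finrank_Ch, sum_mul]
  have h3 : ∀ s ∈ (univ : Finset (Finset V)).filter (fun s => s.card = n),
      Module.finrank F2 (Sy (Cq G univ) (regP D.g) s) * 2 ^ n =
        if G.IsClique (s : Set V) then Fintype.card P else 0 := by
    intro s hs
    split_ifs with hc
    · exact h1 s (mem_filter.1 hs).2 hc
    · rw [h0 s hc, zero_mul]
  rw [sum_congr rfl h3, ← sum_filter, sum_const, smul_eq_mul, filter_filter]
  have h4 : ((univ : Finset (Finset V)).filter
      fun s : Finset V => s.card = n ∧ G.IsClique (s : Set V)).card = ncl G n := by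
    unfold ncl
    congr 1
    ext s
    simp only [mem_filter, mem_univ, true_and, and_comm]
  rw [h4]

/-- `hx_eq`, `zs_eq` -/
theorem hX_reg {G : SimpleGraph V} (D : PG G P) (i : ℕ) :
    hX (Cq G univ) (regP D.g) i = (dz (ZMod 2) i D : ℤ) + (dz (ZMod 2) (i + 1) D : ℤ) -
      (Module.finrank F2 (Ch (Sy (Cq G univ) (regP D.g)) (i + 1)) : ℤ) := by
  have hz : ∀ n, dz (ZMod 2) n D = Module.finrank F2
      (Ch (Sy (Cq G univ) (regP D.g)) n ⊓ LinearMap.ker dd :
        Submodule F2 (Finset V → P → F2)) := by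
    intro n
    unfold dz
    rw [zs_eq]
  have hfin : Finite (Finset V → P → F2) := inferInstance
  have h := hx_eq (E := Finset V → P → F2) dd (Ch (Sy (Cq G univ) (regP D.g))) i
  have h1 := hz i
  have h2 := hz (i + 1)
  unfold hX hd
  rw [h, h1, h2]

end Pool.Agent.H19.SR

end

section

/-!
# Project FC: harmonic chains on finite quotients

Modelled on `Pool.Agent.H4.Singer.FinHodge`. `H ⊓ YB = ⊥`: let `f ∈ H`, `f = tdl ℂ ν y`,
`y ∈ YCh ℂ (gr M) univ (fun _ => 1) … (i + 1)`. `adj_identityL` with `h σ x = f σ x ()`,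
`c σ x = y σ x ()` (all sums finite; `c` is supported on cliques with `i + 1` elements, which are
spherical by `hS`, and antisymmetric): the right hand side vanishes by the hypothesis on `f`, the left hand
side is `∑ |f τ x ()|²`. `YB ≤ YZ` (`tdl ∘ tdl = 0` and the boundary of a chain is a chain), so
`dim H + dim YB ≤ dim YZ`. The sign `(-1 : ℂ) ^ …` is the cast of `Pool.Agent.H4.Singer.sg`.
-/

set_option autoImplicit false

open Finset

namespace Pool.Agent.H4.FC

open Pool.Agent.H85.Fold Pool.Agent.H85.Fold2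

variable {V : Type} [Fintype V] [DecidableEq V]

private theorem tdl_app {Ω : Type} (ν : V → ℕ) (f : Finset V → Ω → Unit → ℂ) (τ : Finset V)
    (ω : Ω) (u : Unit) : tdl ℂ ν f τ ω u =
      ∑ v ∈ τᶜ, (Pool.Agent.H4.Singer.sg ν v τ : ℂ) * f (insert v τ) ω u := by
  show (∑ v ∈ τᶜ, (Pool.Agent.H4.Singer.sg ν v τ : ℂ) • f (insert v τ) ω) u = _
  rw [Finset.sum_apply]
  exact Finset.sum_congr rfl fun v _ => rfl

private theorem tdl_tdl {Ω : Type} (ν : V → ℕ) (hν : Function.Injective ν)
    (f : Finset V → Ω → Unit → ℂ) : tdl ℂ ν (tdl ℂ ν f) = 0 := by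
  funext τ ω u
  have h1 := congrFun (congrFun
    (Pool.Agent.H4.Singer.dl_dl (F := ℂ) ν hν (fun σ (ω : Ω) => f σ ω u)) τ) ω
  rw [Pool.Agent.H4.Singer.dl_apply] at h1
  rw [tdl_app]
  rw [Pi.zero_apply, Pi.zero_apply, Pi.zero_apply]
  rw [Pi.zero_apply, Pi.zero_apply] at h1
  rw [← h1]
  refine Finset.sum_congr rfl fun v _ => ?_
  rw [tdl_app, Pool.Agent.H4.Singer.dl_apply]

private theorem YB_le {G : SimpleGraph V} {P : Type} (s : V → P → P) (ν : V → ℕ)
    (hν : Function.Injective ν) (i : ℕ) :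
    YB ℂ G univ (fun _ => (1 : Matrix Unit Unit ℂ)) s ν i ≤
      YZ ℂ G univ (fun _ => (1 : Matrix Unit Unit ℂ)) s ν i := by
  rintro f ⟨y, hy, rfl⟩
  obtain ⟨hy1, hy2⟩ := hy
  refine ⟨⟨?_, ?_⟩, LinearMap.mem_ker.mpr (tdl_tdl ν hν y)⟩
  · intro τ ω hne
    have h' : ∑ v ∈ τᶜ, (Pool.Agent.H4.Singer.sg ν v τ : ℂ) • y (insert v τ) ω ≠ 0 := hne
    obtain ⟨w, hw, hw'⟩ := Finset.exists_ne_zero_of_sum_ne_zero h'
    have hne' : y (insert w τ) ω ≠ 0 := by
      intro h0
      exact hw' (by rw [h0, smul_zero])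
    obtain ⟨-, h1, h2⟩ := hy1 _ _ hne'
    refine ⟨Finset.subset_univ _, fun a ha b hb hab => h1 a (Finset.mem_insert_of_mem ha) b
      (Finset.mem_insert_of_mem hb) hab, ?_⟩
    rw [Finset.card_insert_of_notMem (Finset.mem_compl.mp hw)] at h2
    omega
  · intro τ v hv ω
    show ∑ w ∈ τᶜ, (Pool.Agent.H4.Singer.sg ν w τ : ℂ) • y (insert w τ) (s v ω) =
      -(1 : Matrix Unit Unit ℂ).mulVec
        (∑ w ∈ τᶜ, (Pool.Agent.H4.Singer.sg ν w τ : ℂ) • y (insert w τ) ω)
    rw [Matrix.one_mulVec, ← Finset.sum_neg_distrib]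
    refine Finset.sum_congr rfl fun w _ => ?_
    rw [hy2 _ v (Finset.mem_insert_of_mem hv) ω, Matrix.one_mulVec, smul_neg]

theorem harm_finrank_leL (M : CoxeterMatrix V) (G : SimpleGraph V)
    (hS : ∀ σ, Sph M σ ↔ Cl G σ) {P : Type} [Group P] [Fintype P] (π : M.Group →* P)
    (ν : V → ℕ) (hν : Function.Injective ν) (i : ℕ)
    (H : Submodule ℂ (Finset V → P → Unit → ℂ))
    (hH : ∀ f ∈ H, f ∈ YZ ℂ G univ (fun _ => (1 : Matrix Unit Unit ℂ))
        (fun v x => x * π (M.simple v)) ν i ∧ ∀ ρ x, Sph M ρ → ρ.card = i + 1 →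
      ∑ v ∈ ρ, (-1 : ℂ) ^ ((ρ.erase v).filter fun u => ν u < ν v).card *
        altS M π ρ (fun x => f (ρ.erase v) x ()) x = 0) :
    Module.finrank ℂ H ≤ bP ℂ G univ (fun v => π (M.simple v)) ν i := by
  have hbot : H ⊓ YB ℂ G univ (fun _ => (1 : Matrix Unit Unit ℂ))
        (fun v x => x * π (M.simple v)) ν i = ⊥ := by
    rw [eq_bot_iff]
    rintro f ⟨hf, y, hy, hyf⟩
    obtain ⟨hy1, hy2⟩ := hy
    obtain ⟨-, hcoc⟩ := hH f hf
    have key := adj_identityL M π ν (fun σ x => f σ x ()) (fun σ x => y σ x ())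
      (fun σ => (hasSum_fintype _).summable) (fun σ => (hasSum_fintype _).summable)
      (by
        intro ρ hρ
        by_contra hcon
        apply hρ
        funext x
        by_contra h0
        have h1 : y ρ x ≠ 0 := by
          intro h2
          exact h0 (by rw [h2]; rfl)
        exact hcon ((hS ρ).2 (hy1 ρ x h1).2.1))
      (by
        intro ρ v hv x
        have h1 := congrFun (hy2 ρ v hv x) ()
        rw [Matrix.one_mulVec] at h1
        exact h1)
    have hl : ∀ τ x, (∑ v ∈ τᶜ, (-1 : ℂ) ^ (τ.filter fun u => ν u < ν v).card *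
        y (insert v τ) x ()) = f τ x () := by
      intro τ x
      rw [← hyf, tdl_app]
      refine Finset.sum_congr rfl fun v _ => ?_
      unfold Pool.Agent.H4.Singer.sg
      push_cast
      rfl
    have hr : ∀ ρ x, (starRingEnd ℂ)
        (∑ v ∈ ρ, (-1 : ℂ) ^ ((ρ.erase v).filter fun u => ν u < ν v).card *
          altS M π ρ (fun x => f (ρ.erase v) x ()) x) * y ρ x () = 0 := by
      intro ρ x
      by_cases h0 : y ρ x = 0
      · rw [h0, Pi.zero_apply, mul_zero]
      · obtain ⟨-, h1, h2⟩ := hy1 ρ x h0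
        rw [hcoc ρ x ((hS ρ).2 h1) h2, map_zero, zero_mul]
    simp only [hl, hr, tsum_fintype, Finset.sum_const_zero, mul_zero] at key
    have hsq : ∀ z : ℂ, (starRingEnd ℂ) z * z = ((‖z‖ ^ 2 : ℝ) : ℂ) := by
      intro z
      rw [mul_comm, Complex.mul_conj, Complex.normSq_eq_norm_sq]
    simp only [hsq, ← Complex.ofReal_sum] at key
    have key' : ∑ τ : Finset V, ∑ x : P, ‖f τ x ()‖ ^ 2 = 0 := by exact_mod_cast key
    rw [Submodule.mem_bot]
    funext τ x u
    have h1 := (Finset.sum_eq_zero_iff_of_nonneg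
      (fun τ _ => Finset.sum_nonneg fun x _ => sq_nonneg ‖f τ x ()‖)).1 key' τ (mem_univ τ)
    have h2 := (Finset.sum_eq_zero_iff_of_nonneg
      (fun x _ => sq_nonneg ‖f τ x ()‖)).1 h1 x (mem_univ x)
    simpa using h2
  have hle : H ⊔ YB ℂ G univ (fun _ => (1 : Matrix Unit Unit ℂ))
        (fun v x => x * π (M.simple v)) ν i ≤ YZ ℂ G univ (fun _ => (1 : Matrix Unit Unit ℂ))
        (fun v x => x * π (M.simple v)) ν i :=
    sup_le (fun f hf => (hH f hf).1) (YB_le _ ν hν i)
  have h1 := Submodule.finrank_sup_add_finrank_inf_eq H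
    (YB ℂ G univ (fun _ => (1 : Matrix Unit Unit ℂ)) (fun v x => x * π (M.simple v)) ν i)
  rw [hbot, finrank_bot, add_zero] at h1
  have h2 := Submodule.finrank_mono hle
  show Module.finrank ℂ H ≤
    Module.finrank ℂ (YZ ℂ G univ (fun _ => (1 : Matrix Unit Unit ℂ))
      (fun v x => x * π (M.simple v)) ν i) -
    Module.finrank ℂ (YB ℂ G univ (fun _ => (1 : Matrix Unit Unit ℂ))
      (fun v x => x * π (M.simple v)) ν i)
  omega

end Pool.Agent.H4.FC

end

section

/-!
# Project S9, block E: the cycles as the kernel of one matrix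
-/

set_option autoImplicit false
set_option linter.unusedSectionVars false

open Finset

namespace Pool.Agent.S9

open Pool.Agent.H77.SW Pool.Agent.H73.GC

variable {V : Type} [DecidableEq V] [Fintype V] {P : Type} [Group P] [Fintype P] [DecidableEq P]
  {n : Type} [Fintype n] [DecidableEq n]

/-- the equations: invariance, cycle condition, support -/
abbrev EqM (V P n : Type) : Type := (Finset V × V × P × n) ⊕ ((Finset V × P × n) ⊕ (Finset V × P × n))

open Classical in
/-- The matrix of the equations of the cycles of degree `d` in the variables `z σ p b`: for `v ∈ σ`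
`∑ b, M v p a b * z σ (p * g v) b - z σ p a`; for all `κ` the sum of the `z (insert v κ) p a`, `v ∉ κ`; for the `σ`
which are no cliques with `d` elements `z σ p a`. -/
noncomputable def BM {S : Type} [CommRing S] {G : SimpleGraph V} (D : PG G P)
    (M : V → P → Matrix n n S) (d : ℕ) : Matrix (EqM V P n) (Finset V × P × n) S :=
  fun q x =>
    match q with
    | Sum.inl (σ, v, p, a) =>
        if v ∈ σ ∧ x.1 = σ then
          (if x.2.1 = p * D.g v then M v p a x.2.2 else 0) - (if x.2.1 = p ∧ x.2.2 = a then 1 else 0)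
        else 0
    | Sum.inr (Sum.inl (κ, p, a)) =>
        if x.2 = (p, a) ∧ ∃ v ∈ κᶜ, x.1 = insert v κ then 1 else 0
    | Sum.inr (Sum.inr (σ, p, a)) =>
        if x = (σ, p, a) ∧ ¬ (G.IsClique (σ : Set V) ∧ σ.card = d) then 1 else 0

/-- the matrix is functorial in the ring -/
theorem BM_map {S S' : Type} [CommRing S] [CommRing S'] (f : S →+* S') {G : SimpleGraph V}
    (D : PG G P) (M : V → P → Matrix n n S) (d : ℕ) :
    (BM D M d).map f = BM D (fun v p => (M v p).map f) d := by
  refine Matrix.ext fun q x => ?_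
  rw [Matrix.map_apply]
  rcases q with ⟨σ, v, p, a⟩ | ⟨κ, p, a⟩ | ⟨σ, p, a⟩
  · simp only [BM, Matrix.map_apply]
    split_ifs <;> simp
  · simp only [BM]
    split_ifs <;> simp
  · simp only [BM]
    split_ifs <;> simp

section Rows

variable {S : Type} [CommRing S] {G : SimpleGraph V}

open Classical in
private theorem row1 (D : PG G P) (M : V → P → Matrix n n S) (d : ℕ) (z : Finset V → P → n → S)
    (σ : Finset V) (v : V) (p : P) (a : n) :
    (BM D M d).mulVec (fun x => z x.1 x.2.1 x.2.2) (Sum.inl (σ, v, p, a)) =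
      if v ∈ σ then rM D M v (z σ) p a - z σ p a else 0 := by
  rw [Matrix.mulVec, dotProduct]
  simp only [BM]
  by_cases hv : v ∈ σ
  · rw [if_pos hv, Fintype.sum_prod_type, Finset.sum_eq_single σ]
    · simp only [hv, and_self, if_true]
      rw [Fintype.sum_prod_type]
      simp only [sub_mul, sum_sub_distrib]
      congr 1
      · rw [Finset.sum_eq_single (p * D.g v)]
        · simp only [if_true]
          rfl
        · intro q _ hq
          simp [hq]
        · intro h
          exact absurd (mem_univ _) h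
      · rw [Finset.sum_eq_single p]
        · rw [Finset.sum_eq_single a]
          · simp
          · intro b _ hb
            simp [hb]
          · intro h
            exact absurd (mem_univ _) h
        · intro q _ hq
          simp [hq]
        · intro h
          exact absurd (mem_univ _) h
    · intro τ _ hτ
      simp [hτ]
    · intro h
      exact absurd (mem_univ _) h
  · simp [hv]

private theorem row2 (D : PG G P) (M : V → P → Matrix n n S) (d : ℕ) (z : Finset V → P → n → S)
    (κ : Finset V) (p : P) (a : n) :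
    (BM D M d).mulVec (fun x => z x.1 x.2.1 x.2.2) (Sum.inr (Sum.inl (κ, p, a))) =
      ∑ v ∈ κᶜ, z (insert v κ) p a := by
  classical
  rw [Matrix.mulVec, dotProduct]
  simp only [BM]
  rw [Fintype.sum_prod_type]
  have h1 : ∀ σ : Finset V, ∑ y : P × n, (if y = (p, a) ∧ ∃ v ∈ κᶜ, σ = insert v κ then (1 : S) else 0) *
      z σ y.1 y.2 = if ∃ v ∈ κᶜ, σ = insert v κ then z σ p a else 0 := by
    intro σ
    rw [Finset.sum_eq_single (p, a)]
    · simp
    · intro y _ hy
      simp [hy]
    · intro h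
      exact absurd (mem_univ _) h
  have h2 : ∑ v ∈ κᶜ, z (insert v κ) p a = ∑ σ ∈ κᶜ.image fun v => insert v κ, z σ p a := by
    rw [Finset.sum_image]
    intro v hv w hw h
    rw [mem_coe, mem_compl] at hv hw
    have h3 : v ∈ insert w κ := by
      simp only at h
      rw [← h]
      exact mem_insert_self _ _
    exact (mem_insert.1 h3).resolve_right hv
  rw [h2]
  refine (Finset.sum_congr rfl fun σ _ => h1 σ).trans ?_
  rw [← Finset.sum_filter]
  refine Finset.sum_congr (Finset.ext fun σ => ?_) fun _ _ => rfl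
  rw [mem_filter, mem_image]
  constructor
  · rintro ⟨_, v, hv, rfl⟩
    exact ⟨v, hv, rfl⟩
  · rintro ⟨v, hv, rfl⟩
    exact ⟨mem_univ _, v, hv, rfl⟩

private theorem row3 (D : PG G P) (M : V → P → Matrix n n S) (d : ℕ) (z : Finset V → P → n → S)
    (σ : Finset V) (p : P) (a : n) (h : ¬ (G.IsClique (σ : Set V) ∧ σ.card = d)) :
    (BM D M d).mulVec (fun x => z x.1 x.2.1 x.2.2) (Sum.inr (Sum.inr (σ, p, a))) = z σ p a := by
  rw [Matrix.mulVec, dotProduct]
  simp only [BM]
  rw [Finset.sum_eq_single (σ, p, a)]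
  · simp [h]
  · intro y _ hy
    simp [hy]
  · intro h
    exact absurd (mem_univ _) h

private theorem row3' (D : PG G P) (M : V → P → Matrix n n S) (d : ℕ) (z : Finset V → P → n → S)
    (σ : Finset V) (p : P) (a : n) (h : G.IsClique (σ : Set V) ∧ σ.card = d) :
    (BM D M d).mulVec (fun x => z x.1 x.2.1 x.2.2) (Sum.inr (Sum.inr (σ, p, a))) = 0 := by
  rw [Matrix.mulVec, dotProduct]
  simp only [BM]
  exact Finset.sum_eq_zero fun y _ => by simp [h]

end Rows

/-- the kernel of the matrix -/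
theorem BM_iff {S : Type} [CommRing S] {G : SimpleGraph V} (D : PG G P)
    (M : V → P → Matrix n n S) (d : ℕ) (z : Finset V → P → n → S) :
    (BM D M d).mulVec (fun x => z x.1 x.2.1 x.2.2) = 0 ↔
      (∀ σ, z σ ≠ 0 → G.IsClique (σ : Set V) ∧ σ.card = d) ∧
      (∀ σ, ∀ v ∈ σ, rM D M v (z σ) = z σ) ∧ ∀ κ, ∑ v ∈ κᶜ, z (insert v κ) = 0 := by
  constructor
  · intro h
    refine ⟨fun σ hσ => ?_, fun σ v hv => ?_, fun κ => ?_⟩
    · by_contra h1
      refine hσ (funext fun p => funext fun a => ?_)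
      rw [← row3 D M d z σ p a h1, h]
      rfl
    · funext p a
      have h1 := row1 D M d z σ v p a
      rw [h, if_pos hv] at h1
      exact (sub_eq_zero.1 h1.symm)
    · funext p a
      rw [Finset.sum_apply, Finset.sum_apply, ← row2 D M d z κ p a, h]
      rfl
  · rintro ⟨h1, h2, h3⟩
    funext q
    rcases q with ⟨σ, v, p, a⟩ | ⟨κ, p, a⟩ | ⟨σ, p, a⟩
    · rw [row1]
      split_ifs with hv
      · rw [h2 σ v hv, sub_self]
        rfl
      · rfl
    · rw [row2]
      have h4 := congrFun (congrFun (h3 κ) p) a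
      rw [Finset.sum_apply, Finset.sum_apply] at h4
      exact h4
    · by_cases h4 : G.IsClique (σ : Set V) ∧ σ.card = d
      · exact row3' D M d z σ p a h4
      · rw [row3 D M d z σ p a h4]
        by_contra h5
        exact h4 (h1 σ fun h6 => h5 (by rw [h6]; rfl))

/-- the functions of three variables -/
private def cur3 (R S : Type) [CommSemiring R] [AddCommMonoid S] [Module R S] (V P n : Type) :
    (Finset V → P → n → S) ≃ₗ[R] (Finset V × P × n → S) where
  toFun z x := z x.1 x.2.1 x.2.2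
  invFun y σ p a := y (σ, p, a)
  map_add' _ _ := rfl
  map_smul' _ _ := rfl
  left_inv _ := rfl
  right_inv _ := rfl

/-- the dimension of the cycles over a field -/
theorem zM_eq {K : Type} [Field K] {G : SimpleGraph V} (D : PG G P) (M : V → P → Matrix n n K)
    (d : ℕ) : zM K D M d + (BM D M d).rank = Fintype.card (Finset V × P × n) := by
  have h1 : (Zs K G d (rM D M)).map (cur3 K K V P n : _ →ₗ[K] _) =
      LinearMap.ker (BM D M d).mulVecLin := by
    ext y
    rw [LinearMap.mem_ker, Matrix.mulVecLin_apply, Submodule.mem_map]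
    constructor
    · rintro ⟨z, hz, rfl⟩
      exact (BM_iff D M d z).2 (mem_Zs.1 hz)
    · intro hy
      exact ⟨fun σ p a => y (σ, p, a), mem_Zs.2 ((BM_iff D M d _).1 hy), rfl⟩
  have h2 := LinearEquiv.finrank_map_eq (cur3 K K V P n) (Zs K G d (rM D M))
  rw [h1] at h2
  have h3 := LinearMap.finrank_range_add_finrank_ker (BM D M d).mulVecLin
  rw [h2, Module.finrank_fintype_fun_eq_card] at h3
  unfold zM Matrix.rank
  omega

/-- the dimension of the cycles over a ring which is an algebra over the field with two elements (the operators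
are considered as linear maps over this field) -/
theorem zs_eq_ker {S : Type} [CommRing S] [Algebra (ZMod 2) S] [Finite S] {G : SimpleGraph V}
    (D : PG G P) (M : V → P → Matrix n n S) (d : ℕ) :
    Module.finrank (ZMod 2) (Zs (ZMod 2) G d fun v => (rM D M v).restrictScalars (ZMod 2)) +
      Module.finrank (ZMod 2) (LinearMap.range ((BM D M d).mulVecLin.restrictScalars (ZMod 2))) =
      Fintype.card (Finset V × P × n) * Module.finrank (ZMod 2) S := by
  have h1 : (Zs (ZMod 2) G d fun v => (rM D M v).restrictScalars (ZMod 2)).map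
      (cur3 (ZMod 2) S V P n : _ →ₗ[ZMod 2] _) =
      LinearMap.ker ((BM D M d).mulVecLin.restrictScalars (ZMod 2)) := by
    ext y
    rw [LinearMap.mem_ker, LinearMap.restrictScalars_apply, Matrix.mulVecLin_apply,
      Submodule.mem_map]
    constructor
    · rintro ⟨z, hz, rfl⟩
      exact (BM_iff D M d z).2 (mem_Zs.1 hz)
    · intro hy
      exact ⟨fun σ p a => y (σ, p, a), mem_Zs.2 ((BM_iff D M d _).1 hy), rfl⟩
  have h2 := LinearEquiv.finrank_map_eq (cur3 (ZMod 2) S V P n)
    (Zs (ZMod 2) G d fun v => (rM D M v).restrictScalars (ZMod 2))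
  rw [h1] at h2
  have h0 : Module.Finite (ZMod 2) S := Module.Finite.of_finite
  have h3 := LinearMap.finrank_range_add_finrank_ker
    ((BM D M d).mulVecLin.restrictScalars (ZMod 2))
  rw [h2, Module.finrank_pi_fintype, Finset.sum_const, Finset.card_univ, smul_eq_mul] at h3
  omega

end Pool.Agent.S9

end

section

/-!
# Project S9, block F: duality

`zig` of `Pool.Agent.H19.SR.Zig` for `Y` = the submodule of the functions `f : W → N` with `f (g * w) = ρ g (f w)` and
`r v` = right translation by `R.s v` gives the double chains `y`, `w` and the cochain `a`. Its values at the vertices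
whose bits vanish on `τ` define the equivariant cochain `fix a`. The pairing does not change along the zig-zag
(`step`, as `prW_step` of `SR/Pair`).
-/

set_option autoImplicit false
set_option linter.unusedSectionVars false

open Finset

namespace Pool.Agent.S9

open Pool.Agent.H19.SR

variable {V : Type} [DecidableEq V] [Fintype V] {G : SimpleGraph V} {W : Type} [Group W]

/-! ### Products of commuting generators -/

private theorem list_insert (R : Rac G W) {C : Finset V} {v : V} (hv : v ∉ C)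
    (hC : G.IsClique ((insert v C : Finset V) : Set V)) : ∀ L : List V, L.Nodup →
      ((L.filter fun u => u ∈ insert v C).map R.s).prod =
        ((L.filter fun u => u ∈ C).map R.s).prod * if v ∈ L then R.s v else 1
  | [], _ => by simp
  | x :: L, hL => by
    have hx : x ∉ L := (List.nodup_cons.1 hL).1
    have ih := list_insert R hv hC L (List.nodup_cons.1 hL).2
    by_cases hxv : x = v
    · subst hxv
      rw [List.filter_cons_of_pos (by simp), List.filter_cons_of_neg (by simpa using hv)]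
      rw [List.map_cons, List.prod_cons, ih, if_neg hx, mul_one, if_pos (List.mem_cons_self)]
      have h3 : Commute (R.s x) ((L.filter fun u => u ∈ C).map R.s).prod := by
        refine Commute.list_prod_right _ _ fun y hy => ?_
        obtain ⟨u, hu, rfl⟩ := List.mem_map.1 hy
        have hu' : u ∈ C := by simpa using (List.mem_filter.1 hu).2
        have hux : x ≠ u := fun h => hv (h ▸ hu')
        refine R.comm x u (hC ?_ ?_ hux)
        · simp
        · simp [hu']
      exact h3
    · have h4 : (v ∈ x :: L) ↔ v ∈ L := by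
        rw [List.mem_cons]
        constructor
        · rintro (h | h)
          · exact absurd h.symm hxv
          · exact h
        · exact Or.inr
      have h5 : (if v ∈ x :: L then R.s v else 1) = if v ∈ L then R.s v else 1 := by
        by_cases h : v ∈ L
        · rw [if_pos h, if_pos (h4.2 h)]
        · rw [if_neg h, if_neg (fun h' => h (h4.1 h'))]
      rw [h5]
      by_cases hxC : x ∈ C
      · rw [List.filter_cons_of_pos (by simp [hxC]), List.filter_cons_of_pos (by simpa using hxC),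
          List.map_cons, List.prod_cons, List.map_cons, List.prod_cons, ih, mul_assoc]
      · rw [List.filter_cons_of_neg (by simp [hxC, hxv]), List.filter_cons_of_neg
          (by simpa using hxC), ih]

/-- `gp (B - v) s_v = gp B` for a clique `B` -/
private theorem gp_erase_mul (R : Rac G W) {B : Finset V} {v : V} (hv : v ∈ B)
    (hB : G.IsClique (B : Set V)) : gp R.s (B.erase v) * R.s v = gp R.s B := by
  have hB' : G.IsClique ((insert v (B.erase v) : Finset V) : Set V) := by
    rw [insert_erase hv]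
    exact hB
  have h := list_insert R (notMem_erase v B) hB' (univ : Finset V).toList (Finset.nodup_toList _)
  rw [if_pos (Finset.mem_toList.2 (mem_univ v))] at h
  rw [insert_erase hv] at h
  exact h.symm

/-- `s_v gp (B - v) = gp B` for a clique `B` -/
private theorem mul_gp_erase (R : Rac G W) {B : Finset V} {v : V} (hv : v ∈ B)
    (hB : G.IsClique (B : Set V)) : R.s v * gp R.s (B.erase v) = gp R.s B := by
  have h3 : Commute (R.s v) (gp R.s (B.erase v)) := by
    refine Commute.list_prod_right _ _ fun y hy => ?_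
    obtain ⟨u, hu, rfl⟩ := List.mem_map.1 hy
    have hu' : u ∈ B.erase v := by simpa using (List.mem_filter.1 hu).2
    have hux : v ≠ u := fun h => (mem_erase.1 hu').1 h.symm
    exact R.comm v u (hB hv (mem_erase.1 hu').2 hux)
  rw [← gp_erase_mul R hv hB]
  exact h3

private theorem gp_empty (R : Rac G W) : gp R.s (∅ : Finset V) = 1 := by
  unfold gp
  simp

private theorem bit_list (R : Rac G W) {u : V} : ∀ L : List V, u ∉ L →
    R.b (L.map R.s).prod u = 0
  | [], _ => by
    rw [List.map_nil, List.prod_nil, R.b_one]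
  | x :: L, h => by
    rw [List.mem_cons, not_or] at h
    rw [List.map_cons, List.prod_cons, R.b_mul, R.b_s, if_neg (fun h' => h.1 h'.symm), zero_add]
    exact bit_list R L h.2

private theorem bit_gp (R : Rac G W) {C : Finset V} {u : V} (hu : u ∉ C) :
    R.b (gp R.s C) u = 0 := by
  unfold gp
  refine bit_list R _ fun h => hu ?_
  simpa using (List.mem_filter.1 h).2

private theorem inv_gp {M : Type} (R : Rac G W) {C : Finset V} {f : W → M}
    (hf : ∀ v ∈ C, ∀ w, f (w * R.s v) = f w) (w : W) : f (w * gp R.s C) = f w := by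
  have key : ∀ L : List V, (∀ v ∈ L, v ∈ C) → ∀ w, f (w * (L.map R.s).prod) = f w := by
    intro L
    induction L with
    | nil =>
      intro _ w
      rw [List.map_nil, List.prod_nil, mul_one]
    | cons x L ih =>
      intro h w
      rw [List.map_cons, List.prod_cons, ← mul_assoc, ih (fun v hv => h v (List.mem_cons_of_mem _ hv)),
        hf x (h x List.mem_cons_self)]
  refine key _ (fun v hv => ?_) w
  simpa using (List.mem_filter.1 hv).2

private theorem clique_sub {A B : Finset V} (h : G.IsClique (A : Set V))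
    (hB : B ⊆ A) : G.IsClique (B : Set V) := h.subset (by exact_mod_cast hB)

/-! ### The pairing -/

/-- the pairing of the cocycle `x` (degree `i`) and of the square of the double chain `y` in bidegree `(k, i + k)` -/
private noncomputable def pr (R : Rac G W) (F : Finset W) {K : Type} [Field K]
    (x : Finset V → W → K) (y : Finset V → Finset V → W → K) : K :=
  PAIR G R F (fun A p => ∑ τ ∈ A.powerset, x (A \ τ) p * y τ A (p * gp R.s (A \ τ)) ^ 2)

private theorem pinv {Γ : Subgroup W} {K : Type} [Field K] {χ : Γ →* Kˣ} {x h : W → K}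
    (hx : ∀ g : Γ, ∀ p, x (g * p) = ch (χ⁻¹ ^ 2) g (x p))
    (hh : ∀ g : Γ, ∀ p, h (g * p) = (χ g : K) * h p) (u : W) :
    ∀ g ∈ Γ, ∀ p, x (g * p) * h (g * p * u) ^ 2 = x p * h (p * u) ^ 2 := by
  intro g hg p
  have h1 : x (g * p) = ((χ ⟨g, hg⟩ : K)⁻¹) ^ 2 * x p := by
    rw [show g * p = ((⟨g, hg⟩ : Γ) : W) * p from rfl, hx]
    unfold ch tw
    simp
  have h2 : h (g * p * u) = (χ ⟨g, hg⟩ : K) * h (p * u) := by
    rw [mul_assoc]
    exact hh ⟨g, hg⟩ (p * u)
  rw [h1, h2]
  have h3 : (χ ⟨g, hg⟩ : K) ≠ 0 := (χ ⟨g, hg⟩).ne_zero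
  field_simp

/-- **The pairing does not change along the zig-zag.** -/
private theorem step_du (R : Rac G W) {Γ : Subgroup W}
    (hb : ∀ g ∈ Γ, ∀ v, R.b g v = 0) {F : Finset W} (hF : IsTr Γ F) {K : Type} [Field K] [CharP K 2]
    {χ : Γ →* Kˣ} {i k : ℕ} {x : Finset V → W → K} (hx : x ∈ Cc R Γ (ch (χ⁻¹ ^ 2)) i)
    (hx0 : cb R x = 0) {w : Finset V → Finset V → W → K} (hw : IsW G k (i + k + 1) w)
    (hwg : ∀ τ A, ∀ g : Γ, ∀ p, w τ A (g * p) = (χ g : K) * w τ A p)
    {w1 w2 : Finset V → Finset V → W → K}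
    (e1 : ∀ τ A p, τ ⊆ A → w1 τ A p = ∑ v ∈ τ, (w (τ.erase v) A p + w (τ.erase v) A (p * R.s v)))
    (e2 : ∀ τ A p, τ ⊆ A → w2 τ A p = ∑ v ∈ Aᶜ, w τ (insert v A) p) :
    pr R F x w1 = pr R F x w2 := by
  classical
  -- the left hand side
  have hL : pr R F x w1 =
      ∑ A ∈ (univ : Finset (Finset V)).filter (fun A : Finset V => G.IsClique (A : Set V)),
        ∑ p ∈ bs R F A, ∑ σ ∈ A.powerset, ∑ v ∈ A \ σ, x ((A \ σ).erase v) p *
          (w σ A (p * gp R.s ((A \ σ).erase v)) ^ 2 + w σ A (p * gp R.s (A \ σ)) ^ 2) := by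
    unfold pr PAIR
    refine sum_congr ?_ fun A hA => sum_congr rfl fun p hp => ?_
    · ext A
      simp
    have hA' : G.IsClique (A : Set V) := (mem_filter.1 hA).2
    have h1 : ∀ τ ∈ A.powerset, x (A \ τ) p * w1 τ A (p * gp R.s (A \ τ)) ^ 2 =
        ∑ v ∈ τ, x (A \ τ) p * (w (τ.erase v) A (p * gp R.s (A \ τ)) ^ 2 +
          w (τ.erase v) A (p * gp R.s (A \ τ) * R.s v) ^ 2) := by
      intro τ hτ
      have hτ' : τ ⊆ A := mem_powerset.1 hτ
      rw [e1 τ A _ hτ', CharTwo.sum_sq, mul_sum]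
      refine sum_congr rfl fun v _ => ?_
      rw [CharTwo.add_sq]
    beta_reduce
    rw [sum_congr rfl h1, sum_sigma', sum_sigma']
    refine sum_bij' (fun x _ => ⟨x.1.erase x.2, x.2⟩) (fun x _ => ⟨insert x.2 x.1, x.2⟩)
      ?_ ?_ ?_ ?_ ?_
    · rintro ⟨τ, v⟩ h
      rw [mem_sigma, mem_powerset] at h
      rw [mem_sigma, mem_powerset]
      refine ⟨(erase_subset _ _).trans h.1, ?_⟩
      rw [mem_sdiff]
      exact ⟨h.1 h.2, notMem_erase _ _⟩
    · rintro ⟨σ, v⟩ h
      rw [mem_sigma, mem_powerset, mem_sdiff] at h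
      rw [mem_sigma, mem_powerset]
      exact ⟨insert_subset h.2.1 h.1, mem_insert_self _ _⟩
    · rintro ⟨τ, v⟩ h
      rw [mem_sigma] at h
      simp only [insert_erase h.2]
    · rintro ⟨σ, v⟩ h
      rw [mem_sigma, mem_powerset, mem_sdiff] at h
      simp only [erase_insert h.2.2]
    · rintro ⟨τ, v⟩ h
      rw [mem_sigma, mem_powerset] at h
      have h3 : (A \ τ.erase v).erase v = A \ τ := by
        ext u
        simp only [mem_erase, mem_sdiff]
        constructor
        · rintro ⟨h4, h5, h6⟩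
          exact ⟨h5, fun h7 => h6 ⟨h4, h7⟩⟩
        · rintro ⟨h4, h5⟩
          exact ⟨fun h6 => h5 (h6 ▸ h.2), h4, fun h6 => h5 h6.2⟩
      have h4 : v ∈ A \ τ.erase v := mem_sdiff.2 ⟨h.1 h.2, notMem_erase _ _⟩
      have h5 := gp_erase_mul R h4 (clique_sub hA' sdiff_subset)
      show x (A \ τ) p * (w (τ.erase v) A (p * gp R.s (A \ τ)) ^ 2 +
          w (τ.erase v) A (p * gp R.s (A \ τ) * R.s v) ^ 2) =
        x ((A \ τ.erase v).erase v) p *
          (w (τ.erase v) A (p * gp R.s ((A \ τ.erase v).erase v)) ^ 2 +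
            w (τ.erase v) A (p * gp R.s (A \ τ.erase v)) ^ 2)
      rw [← h5, h3, mul_assoc p]
  -- the right hand side
  have hR : pr R F x w2 =
      ∑ A ∈ (univ : Finset (Finset V)).filter (fun A : Finset V => G.IsClique (A : Set V)),
        ∑ p ∈ bs R F A, ∑ σ ∈ A.powerset, ∑ v ∈ A \ σ,
          (x ((A \ σ).erase v) p * w σ A (p * gp R.s ((A \ σ).erase v)) ^ 2 +
            x ((A \ σ).erase v) (p * R.s v) * w σ A (p * gp R.s (A \ σ)) ^ 2) := by
    have h0 : pr R F x w2 =
        ∑ A ∈ (univ : Finset (Finset V)).filter (fun A : Finset V => G.IsClique (A : Set V)),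
          ∑ v ∈ Aᶜ, ∑ p ∈ bs R F A, ∑ τ ∈ A.powerset, x (A \ τ) p *
            w τ (insert v A) (p * gp R.s (A \ τ)) ^ 2 := by
      unfold pr PAIR
      refine sum_congr ?_ fun A hA => ?_
      · ext A
        simp
      beta_reduce
      conv_rhs => rw [sum_comm]
      refine sum_congr rfl fun p _ => ?_
      conv_rhs => rw [sum_comm]
      refine sum_congr rfl fun τ hτ => ?_
      have hτ' : τ ⊆ A := mem_powerset.1 hτ
      rw [e2 τ A _ hτ', CharTwo.sum_sq, mul_sum]
    rw [h0, sum_sigma']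
    -- the pairs `(A', v)`, `v ∈ A'`
    have h1 : (∑ q ∈ ((univ : Finset (Finset V)).filter
          (fun A : Finset V => G.IsClique (A : Set V))).sigma (fun A : Finset V => Aᶜ),
        (∑ p ∈ bs R F q.1, ∑ τ ∈ q.1.powerset, x (q.1 \ τ) p *
            w τ (insert q.2 q.1) (p * gp R.s (q.1 \ τ)) ^ 2 : K)) =
        ∑ q ∈ ((univ : Finset (Finset V)).filter
          (fun A : Finset V => G.IsClique (A : Set V))).sigma (fun A : Finset V => A),
        (∑ p ∈ bs R F (q.1.erase q.2), ∑ τ ∈ (q.1.erase q.2).powerset, x (q.1.erase q.2 \ τ) p *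
            w τ q.1 (p * gp R.s (q.1.erase q.2 \ τ)) ^ 2 : K) := by
      rw [← sum_filter_add_sum_filter_not (((univ : Finset (Finset V)).filter
          (fun A : Finset V => G.IsClique (A : Set V))).sigma (fun A : Finset V => Aᶜ))
          (fun q => G.IsClique ((insert q.2 q.1 : Finset V) : Set V))]
      have h2 : (∑ q ∈ (((univ : Finset (Finset V)).filter
          (fun A : Finset V => G.IsClique (A : Set V))).sigma (fun A : Finset V => Aᶜ)).filter
          (fun q => ¬ G.IsClique ((insert q.2 q.1 : Finset V) : Set V)),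
          (∑ p ∈ bs R F q.1, ∑ τ ∈ q.1.powerset, x (q.1 \ τ) p *
            w τ (insert q.2 q.1) (p * gp R.s (q.1 \ τ)) ^ 2 : K)) = 0 := by
        refine sum_eq_zero fun q hq => ?_
        refine sum_eq_zero fun p _ => sum_eq_zero fun τ _ => ?_
        have h3 : w τ (insert q.2 q.1) = 0 := by
          by_contra h4
          exact (mem_filter.1 hq).2 (hw _ _ h4).2.1
        rw [h3]
        simp
      rw [h2, add_zero]
      refine sum_bij' (fun x _ => ⟨insert x.2 x.1, x.2⟩) (fun x _ => ⟨x.1.erase x.2, x.2⟩)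
        ?_ ?_ ?_ ?_ ?_
      · rintro ⟨A, v⟩ h
        simp only [mem_filter, mem_sigma, mem_univ, true_and, mem_compl] at h ⊢
        exact ⟨h.2, mem_insert_self _ _⟩
      · rintro ⟨A, v⟩ h
        simp only [mem_filter, mem_sigma, mem_univ, true_and, mem_compl] at h ⊢
        refine ⟨⟨clique_sub h.1 (erase_subset _ _), notMem_erase _ _⟩, ?_⟩
        rw [insert_erase h.2]
        exact h.1
      · rintro ⟨A, v⟩ h
        simp only [mem_filter, mem_sigma, mem_univ, true_and, mem_compl] at h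
        simp only [erase_insert h.1.2]
      · rintro ⟨A, v⟩ h
        simp only [mem_sigma, mem_filter, mem_univ, true_and] at h
        simp only [insert_erase h.2]
      · rintro ⟨A, v⟩ h
        simp only [mem_filter, mem_sigma, mem_univ, true_and, mem_compl] at h
        simp only [erase_insert h.1.2]
    rw [h1, ← sum_sigma' _ _ (fun A v => ∑ p ∈ bs R F (A.erase v), ∑ τ ∈ (A.erase v).powerset,
      x (A.erase v \ τ) p * w τ A (p * gp R.s (A.erase v \ τ)) ^ 2)]
    refine sum_congr rfl fun A hA => ?_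
    have hA' : G.IsClique (A : Set V) := (mem_filter.1 hA).2
    have h2 : ∀ v ∈ A, ∑ p ∈ bs R F (A.erase v), ∑ τ ∈ (A.erase v).powerset,
        x (A.erase v \ τ) p * w τ A (p * gp R.s (A.erase v \ τ)) ^ 2 =
        ∑ p ∈ bs R F A, ∑ τ ∈ (A.erase v).powerset,
          (x ((A \ τ).erase v) p * w τ A (p * gp R.s ((A \ τ).erase v)) ^ 2 +
            x ((A \ τ).erase v) (p * R.s v) * w τ A (p * gp R.s (A \ τ)) ^ 2) := by
      intro v hv
      rw [sum_bs R hF hb (f := fun p => ∑ τ ∈ (A.erase v).powerset,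
        x (A.erase v \ τ) p * w τ A (p * gp R.s (A.erase v \ τ)) ^ 2) (fun g hg p =>
          sum_congr rfl fun τ _ => pinv (hx.2.2 _) (hwg _ _) _ g hg p) (notMem_erase v A),
        insert_erase hv]
      refine sum_congr rfl fun p _ => ?_
      rw [← sum_add_distrib]
      refine sum_congr rfl fun τ hτ => ?_
      have h3 : A.erase v \ τ = (A \ τ).erase v := by
        rw [erase_sdiff_comm]
      have h4 : v ∈ A \ τ :=
        mem_sdiff.2 ⟨hv, fun h => notMem_erase v A (mem_powerset.1 hτ h)⟩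
      rw [h3, ← mul_gp_erase R h4 (clique_sub hA' sdiff_subset), mul_assoc p]
    rw [sum_congr rfl h2, sum_comm]
    refine sum_congr rfl fun p _ => ?_
    rw [sum_sigma', sum_sigma']
    refine sum_bij' (fun x _ => ⟨x.2, x.1⟩) (fun x _ => ⟨x.2, x.1⟩) ?_ ?_ ?_ ?_ ?_
    · rintro ⟨v, τ⟩ h
      rw [mem_sigma, mem_powerset] at h
      rw [mem_sigma, mem_powerset, mem_sdiff]
      exact ⟨h.2.trans (erase_subset _ _), h.1, fun h3 => notMem_erase v A (h.2 h3)⟩
    · rintro ⟨τ, v⟩ h
      rw [mem_sigma, mem_powerset, mem_sdiff] at h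
      rw [mem_sigma, mem_powerset]
      exact ⟨h.2.1, fun u hu => mem_erase.2 ⟨fun h3 => h.2.2 (by
        have h4 : u = v := h3
        rw [← h4]
        exact hu), h.1 hu⟩⟩
    · rintro ⟨v, τ⟩ h
      rfl
    · rintro ⟨τ, v⟩ h
      rfl
    · rintro ⟨v, τ⟩ h
      rfl
  rw [hL, hR]
  refine sum_congr rfl fun A hA => sum_congr rfl fun p hp => sum_congr rfl fun σ hσ => ?_
  have hA' : G.IsClique (A : Set V) := (mem_filter.1 hA).2
  have h5 : ∑ v ∈ A \ σ, (x ((A \ σ).erase v) p + x ((A \ σ).erase v) (p * R.s v)) = 0 := by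
    have h6 := congrFun (congrFun hx0 (A \ σ)) p
    unfold cb at h6
    rw [if_pos (clique_sub hA' sdiff_subset)] at h6
    exact h6
  rw [← sub_eq_zero, ← sum_sub_distrib]
  have h6 : ∀ v ∈ A \ σ, x ((A \ σ).erase v) p *
      (w σ A (p * gp R.s ((A \ σ).erase v)) ^ 2 + w σ A (p * gp R.s (A \ σ)) ^ 2) -
      (x ((A \ σ).erase v) p * w σ A (p * gp R.s ((A \ σ).erase v)) ^ 2 +
        x ((A \ σ).erase v) (p * R.s v) * w σ A (p * gp R.s (A \ σ)) ^ 2) =
      (x ((A \ σ).erase v) p + x ((A \ σ).erase v) (p * R.s v)) *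
        w σ A (p * gp R.s (A \ σ)) ^ 2 := by
    intro v _
    rw [CharTwo.sub_eq_add]
    have h7 : x ((A \ σ).erase v) p * w σ A (p * gp R.s ((A \ σ).erase v)) ^ 2 +
        x ((A \ σ).erase v) p * w σ A (p * gp R.s ((A \ σ).erase v)) ^ 2 = 0 :=
      CharTwo.add_self_eq_zero _
    linear_combination h7
  rw [sum_congr rfl h6, ← sum_mul, h5, zero_mul]

/-! ### The module of the equivariant functions -/

namespace Du

section Yf

variable (Γ : Subgroup W) {K : Type} [Field K] {N : Type} [AddCommGroup N] [Module K N]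
  (ρ : Γ →* Module.End K N)

/-- the equivariant functions on `W` -/
def Yf : Submodule K (W → N) where
  carrier := {f | ∀ g : Γ, ∀ w, f (g * w) = ρ g (f w)}
  zero_mem' := fun g w => by
    show (0 : N) = ρ g 0
    rw [map_zero]
  add_mem' := by
    intro f f' h h' g w
    show f (g * w) + f' (g * w) = ρ g (f w + f' w)
    rw [h, h', map_add]
  smul_mem' := by
    intro c f h g w
    show c • f (g * w) = ρ g (c • f w)
    rw [h, map_smul]

/-- the right translation by `s v` -/
def rt (R : Rac G W) (v : V) : Yf Γ ρ →ₗ[K] Yf Γ ρ where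
  toFun f := ⟨fun w => f.1 (w * R.s v), fun g w => by
    show f.1 (g * w * R.s v) = ρ g (f.1 (w * R.s v))
    rw [mul_assoc, f.2 g]⟩
  map_add' f f' := rfl
  map_smul' c f := rfl

theorem rt_val (R : Rac G W) (v : V) (f : Yf Γ ρ) (w : W) :
    (rt Γ ρ R v f).1 w = f.1 (w * R.s v) := rfl

theorem rt_sq (R : Rac G W) (v : V) (f : Yf Γ ρ) : rt Γ ρ R v (rt Γ ρ R v f) = f := by
  refine Subtype.ext (funext fun w => ?_)
  rw [rt_val, rt_val, mul_assoc, R.sq, mul_one]

theorem rt_comm (R : Rac G W) (u v : V) (h : G.Adj u v) (f : Yf Γ ρ) :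
    rt Γ ρ R u (rt Γ ρ R v f) = rt Γ ρ R v (rt Γ ρ R u f) := by
  refine Subtype.ext (funext fun w => ?_)
  rw [rt_val, rt_val, rt_val, rt_val, mul_assoc, mul_assoc, R.comm u v h]

theorem mem_Zs' (R : Rac G W) {i : ℕ} {z : Finset V → W → N} (hz : z ∈ Zc R Γ ρ i) :
    (fun A => (⟨z A, hz.1.2.2 A⟩ : Yf Γ ρ)) ∈ Pool.Agent.H77.SW.Zs K G i (rt Γ ρ R) := by
  refine Pool.Agent.H77.SW.mem_Zs.2 ⟨fun A h => hz.1.1 A fun h0 => h (Subtype.ext h0),
    fun A v hv => Subtype.ext (funext fun w => ?_), fun A => Subtype.ext (funext fun w => ?_)⟩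
  · exact hz.1.2.1 A v hv w
  · have h1 : bd K z = 0 := hz.2
    have h2 := congrFun (congrFun h1 A) w
    rw [bd_apply] at h2
    have h3 : (((∑ v ∈ Aᶜ, (⟨z (insert v A), hz.1.2.2 (insert v A)⟩ : Yf Γ ρ)) : Yf Γ ρ).1) w =
        ∑ v ∈ Aᶜ, z (insert v A) w := by
      rw [Submodule.coe_sum, Finset.sum_apply]
    rw [h3]
    exact h2

end Yf

end Du

open Du

/-! ### The equivariant cochain of the zig-zag -/

open Classical in
/-- the generators of `τ` with nonzero bits -/
private noncomputable def nb (R : Rac G W) (τ : Finset V) (w : W) : Finset V :=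
  τ.filter fun v => R.b w v ≠ 0

private theorem mem_nb (R : Rac G W) {τ : Finset V} {w : W} {v : V} :
    v ∈ nb R τ w ↔ v ∈ τ ∧ R.b w v ≠ 0 := by
  unfold nb
  rw [mem_filter]

private theorem nb_erase (R : Rac G W) (τ : Finset V) (w : W) (v : V) :
    nb R (τ.erase v) w = (nb R τ w).erase v := by
  ext u
  rw [mem_nb, mem_erase, mem_erase, mem_nb, and_assoc]

private theorem nb_erase_mul (R : Rac G W) (τ : Finset V) (w : W) (v : V) :
    nb R (τ.erase v) (w * R.s v) = (nb R τ w).erase v := by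
  ext u
  rw [mem_nb, mem_erase, mem_erase, mem_nb, and_assoc]
  refine and_congr_right fun h => and_congr_right fun _ => ?_
  rw [R.b_mul, R.b_s, if_neg (Ne.symm h), add_zero]

private theorem zm (a : ZMod 2) : a ≠ 0 ↔ a = 1 := by
  revert a
  decide

private theorem nb_mul (R : Rac G W) {τ : Finset V} (hτ : G.IsClique (τ : Set V)) {v : V}
    (hv : v ∈ τ) (w : W) : w * R.s v * gp R.s (nb R τ (w * R.s v)) = w * gp R.s (nb R τ w) := by
  have hsub : ∀ w, G.IsClique ((nb R τ w : Finset V) : Set V) := fun w =>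
    clique_sub hτ fun u hu => ((mem_nb R).1 hu).1
  have hb1 : R.b (w * R.s v) v = R.b w v + 1 := by rw [R.b_mul, R.b_s, if_pos rfl]
  have hne : ∀ u, u ≠ v → R.b (w * R.s v) u = R.b w u := fun u hu => by
    rw [R.b_mul, R.b_s, if_neg (Ne.symm hu), add_zero]
  have key : ∀ w w' : W, R.b w' v = R.b w v + 1 → (∀ u, u ≠ v → R.b w' u = R.b w u) →
      R.b w v = 1 → (nb R τ w).erase v = nb R τ w' := by
    intro w w' h1 h2 h3
    ext u
    rw [mem_erase, mem_nb, mem_nb]
    by_cases hu : u = v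
    · subst hu
      have h4 : R.b w' u = 0 := by
        rw [h1, h3]
        decide
      simp [h4]
    · rw [h2 u hu]
      tauto
  by_cases h : R.b w v = 1
  · have h1 := key w (w * R.s v) hb1 hne h
    have hm : v ∈ nb R τ w := (mem_nb R).2 ⟨hv, by rw [h]; exact one_ne_zero⟩
    rw [← h1, mul_assoc, mul_gp_erase R hm (hsub w)]
  · have h0 : R.b w v = 0 := by
      by_contra h'
      exact h ((zm _).1 h')
    have h1 := key (w * R.s v) w (by rw [hb1, h0]; decide) (fun u hu => (hne u hu).symm)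
      (by rw [hb1, h0, zero_add])
    have hm : v ∈ nb R τ (w * R.s v) := (mem_nb R).2 ⟨hv, by rw [hb1, h0, zero_add]; exact one_ne_zero⟩
    rw [← mul_gp_erase R hm (hsub _), h1, ← mul_assoc, mul_assoc w (R.s v) (R.s v), R.sq, mul_one]

section Fix

variable {Γ : Subgroup W} {K : Type} [Field K] {N : Type} [AddCommGroup N] [Module K N]
  {ρ : Γ →* Module.End K N}

/-- the value at the vertex of the cell with vanishing bits -/
private noncomputable def fix (R : Rac G W) (a : Finset V → Yf Γ ρ) : Finset V → W → N :=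
  fun τ w => (a τ).1 (w * gp R.s (nb R τ w))

private theorem fix_mem (R : Rac G W) (hb : ∀ g ∈ Γ, ∀ v, R.b g v = 0) {a : Finset V → Yf Γ ρ}
    {m : ℕ} (ha : ∀ τ, a τ ≠ 0 → G.IsClique (τ : Set V) ∧ τ.card = m) :
    fix R a ∈ Cc R Γ ρ m := by
  have h0 : ∀ τ, fix R a τ ≠ 0 → a τ ≠ 0 := by
    intro τ h h'
    refine h (funext fun w => ?_)
    unfold fix
    rw [h']
    rfl
  refine (mem_Cc R).2 ⟨fun τ h => ha τ (h0 τ h), fun τ v hv w => ?_, fun τ g w => ?_⟩
  · by_cases h : fix R a τ = 0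
    · rw [h]
      rfl
    · unfold fix
      rw [nb_mul R (ha τ (h0 τ h)).1 hv]
  · unfold fix
    have h1 : nb R τ (g * w) = nb R τ w := by
      ext u
      rw [mem_nb, mem_nb, R.b_mul, hb g g.2, zero_add]
    rw [h1, mul_assoc]
    exact (a τ).2 g _

private theorem fix_eq (R : Rac G W) (a : Finset V → Yf Γ ρ) {τ : Finset V} {w : W}
    (h : ∀ v ∈ τ, R.b w v = 0) : fix R a τ w = (a τ).1 w := by
  unfold fix
  have h1 : nb R τ w = ∅ := by
    refine eq_empty_of_forall_notMem fun u hu => ?_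
    exact ((mem_nb R).1 hu).2 (h u ((mem_nb R).1 hu).1)
  rw [h1, gp_empty, mul_one]

private theorem fix_cb (R : Rac G W) {a : Finset V → Yf Γ ρ}
    (hc : ∀ τ : Finset V, G.IsClique (τ : Set V) →
      ∑ v ∈ τ, (a (τ.erase v) + rt Γ ρ R v (a (τ.erase v))) = 0) : cb R (fix R a) = 0 := by
  classical
  funext τ w
  unfold cb
  by_cases hτ : G.IsClique (τ : Set V)
  swap
  · rw [if_neg hτ]
    rfl
  rw [if_pos hτ]
  have h1 := hc τ hτ
  have h2 : (((∑ v ∈ τ, (a (τ.erase v) + rt Γ ρ R v (a (τ.erase v)))) : Yf Γ ρ).1)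
      (w * gp R.s (nb R τ w)) = 0 := by
    rw [h1]
    rfl
  rw [Submodule.coe_sum, Finset.sum_apply] at h2
  refine Eq.trans (sum_congr rfl fun v hv => ?_) h2
  have hsub : G.IsClique ((nb R τ w : Finset V) : Set V) :=
    clique_sub hτ fun u hu => ((mem_nb R).1 hu).1
  have h3 : fix R a (τ.erase v) w = (a (τ.erase v)).1 (w * gp R.s ((nb R τ w).erase v)) := by
    unfold fix
    rw [nb_erase]
  have h4 : fix R a (τ.erase v) (w * R.s v) =
      (a (τ.erase v)).1 (w * R.s v * gp R.s ((nb R τ w).erase v)) := by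
    unfold fix
    rw [nb_erase_mul]
  rw [h3, h4, Submodule.coe_add, Pi.add_apply, rt_val]
  by_cases hm : v ∈ nb R τ w
  · rw [mul_assoc w (R.s v), mul_gp_erase R hm hsub, mul_assoc w (gp R.s (nb R τ w)),
      ← gp_erase_mul R hm hsub, mul_assoc (gp R.s ((nb R τ w).erase v)), R.sq, mul_one, add_comm]
  · rw [erase_eq_of_notMem hm]
    have h5 : insert v (nb R τ w) ⊆ τ := by
      intro u hu
      rcases mem_insert.1 hu with h | h
      · rw [h]
        exact hv
      · exact ((mem_nb R).1 h).1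
    have h6 : v ∈ insert v (nb R τ w) := mem_insert_self _ _
    have h7 := gp_erase_mul R h6 (clique_sub hτ h5)
    have h8 := mul_gp_erase R h6 (clique_sub hτ h5)
    rw [erase_insert hm] at h7 h8
    rw [mul_assoc w (R.s v), h8, mul_assoc w (gp R.s _), h7]

end Fix

/-- the duality for every zig-zag; `B`: a set of simplices on which the cochain `a` of the zig-zag vanishes -/
theorem Du.dual_core (R : Rac G W) {n : ℕ} {Γ : Subgroup W}
    (hb : ∀ g ∈ Γ, ∀ v, R.b g v = 0) {F : Finset W} (hF : IsTr Γ F) {K : Type} [Field K] [CharP K 2]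
    {N : Type} [AddCommGroup N] [Module K N] (ρ : Γ →* Module.End K N) {i : ℕ} (hi : i ≤ n)
    {z : Finset V → W → N} (hz : z ∈ Zc R Γ ρ i) (B : Finset V → Prop)
    (h : ∃ (y w : ℕ → Finset V → Finset V → Yf Γ ρ) (a : Finset V → Yf Γ ρ),
      (∀ k ≤ n - i, IsW G k (i + k) (y k)) ∧ (∀ k < n - i, IsW G k (i + k + 1) (w k)) ∧
      (∀ A, y 0 ∅ A = (⟨z A, hz.1.2.2 A⟩ : Yf Γ ρ)) ∧
      (∀ k < n - i, y k = Pool.Agent.H19.SR.e2 (w k)) ∧
      (∀ k < n - i, y (k + 1) = Pool.Agent.H19.SR.e1 (rt Γ ρ R) (w k)) ∧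
      (∀ τ, a τ ≠ 0 → G.IsClique (τ : Set V) ∧ τ.card = n - i) ∧
      (∀ τ, B τ → a τ = 0) ∧
      (∀ τ A : Finset V, τ ⊆ A → G.IsClique (A : Set V) → A.card = n → y (n - i) τ A = a τ) ∧
      ∀ τ : Finset V, G.IsClique (τ : Set V) →
        ∑ v ∈ τ, (a (τ.erase v) + rt Γ ρ R v (a (τ.erase v))) = 0) :
    ∃ a ∈ Cc R Γ ρ (n - i), cb R a = 0 ∧ (∀ τ, B τ → a τ = 0) ∧
      ∀ (χ : Γ →* Kˣ) (π : N →ₗ[K] K), (∀ g y, π (ρ g y) = (χ g : K) * π y) →
        ∀ x ∈ Cc R Γ (ch (χ⁻¹ ^ 2)) i, cb R x = 0 →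
          PAIR G R F (fun A w => x A w * π (z A w) ^ 2) =
            INT G R F n (fun A w => ∑ τ ∈ A.powersetCard i,
              x τ w * π (a (A \ τ) (w * gp R.s τ)) ^ 2) := by
  classical
  obtain ⟨y, w, a, hy, hw, hy0, hyw, hyw', ha, haB, hay, hac⟩ := h
  refine ⟨fix R a, fix_mem R hb ha, fix_cb R hac, fun τ hτ => ?_, fun χ π hπ x hx hx0 => ?_⟩
  · funext w
    unfold fix
    rw [haB τ hτ]
    rfl
  -- the scalar double chains
  set S : (Finset V → Finset V → Yf Γ ρ) → Finset V → Finset V → W → K :=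
    fun f τ A p => π ((f τ A).1 p) with hSd
  have hSW : ∀ {c d : ℕ} {f : Finset V → Finset V → Yf Γ ρ}, IsW G c d f → IsW G c d (S f) := by
    intro c d f hf τ A h
    refine hf τ A fun h' => h ?_
    funext p
    show π ((f τ A).1 p) = 0
    rw [h']
    exact map_zero π
  have hSg : ∀ (f : Finset V → Finset V → Yf Γ ρ) (τ A : Finset V) (g : Γ) (p : W),
      S f τ A (g * p) = (χ g : K) * S f τ A p := by
    intro f τ A g p
    show π ((f τ A).1 (g * p)) = (χ g : K) * π ((f τ A).1 p)
    rw [(f τ A).2 g p, hπ]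
  have hst : ∀ k < n - i, pr R F x (S (y (k + 1))) = pr R F x (S (y k)) := by
    intro k hk
    refine step_du R hb hF hx hx0 (w := S (w k)) (hSW (hw k hk)) (hSg _) ?_ ?_
    · intro τ A p hτ
      show π ((y (k + 1) τ A).1 p) = ∑ v ∈ τ, (π ((w k (τ.erase v) A).1 p) +
        π ((w k (τ.erase v) A).1 (p * R.s v)))
      rw [hyw' k hk]
      unfold Pool.Agent.H19.SR.e1
      rw [if_pos hτ, Submodule.coe_sum, Finset.sum_apply, map_sum]
      refine sum_congr rfl fun v _ => ?_
      rw [Submodule.coe_add, Pi.add_apply, map_add, rt_val]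
    · intro τ A p hτ
      show π ((y k τ A).1 p) = ∑ v ∈ Aᶜ, π ((w k τ (insert v A)).1 p)
      rw [hyw k hk]
      unfold Pool.Agent.H19.SR.e2
      rw [if_pos hτ, Submodule.coe_sum, Finset.sum_apply, map_sum]
  have hall : ∀ k ≤ n - i, pr R F x (S (y k)) = pr R F x (S (y 0)) := by
    intro k
    induction k with
    | zero => exact fun _ => rfl
    | succ k ih => exact fun hk => (hst k (by omega)).trans (ih (by omega))
  -- the beginning
  have h0 : pr R F x (S (y 0)) = PAIR G R F (fun A w => x A w * π (z A w) ^ 2) := by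
    unfold pr PAIR
    refine sum_congr rfl fun A _ => sum_congr rfl fun p _ => ?_
    beta_reduce
    rw [sum_eq_single_of_mem ∅ (empty_mem_powerset A)]
    · rw [sdiff_empty]
      have h1 : S (y 0) ∅ A (p * gp R.s A) = π (z A p) := by
        show π ((y 0 ∅ A).1 (p * gp R.s A)) = _
        rw [hy0 A]
        show π (z A (p * gp R.s A)) = _
        rw [inv_gp R (f := z A) (fun v hv w => hz.1.2.1 A v hv w)]
      rw [h1]
    · intro τ _ hτ
      have h1 : S (y 0) τ A = 0 := by
        by_contra h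
        exact hτ (card_eq_zero.1 (hSW (hy 0 (Nat.zero_le _)) τ A h).2.2.1)
      rw [h1]
      simp
  -- the end
  have hn : pr R F x (S (y (n - i))) = INT G R F n (fun A w => ∑ τ ∈ A.powersetCard i,
      x τ w * π (fix R a (A \ τ) (w * gp R.s τ)) ^ 2) := by
    unfold pr PAIR INT
    rw [← sum_filter_add_sum_filter_not ((univ : Finset (Finset V)).filter
      (fun A : Finset V => G.IsClique (A : Set V))) (fun A => A.card = n)]
    have h1 : (∑ A ∈ ((univ : Finset (Finset V)).filter
        (fun A : Finset V => G.IsClique (A : Set V))).filter (fun A => ¬ A.card = n),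
        ∑ p ∈ bs R F A, (fun A p => ∑ τ ∈ A.powerset, x (A \ τ) p *
          S (y (n - i)) τ A (p * gp R.s (A \ τ)) ^ 2) A p) = 0 := by
      refine sum_eq_zero fun A hA => sum_eq_zero fun p _ => sum_eq_zero fun τ _ => ?_
      have h2 : S (y (n - i)) τ A = 0 := by
        by_contra h
        have h3 := (hSW (hy (n - i) le_rfl) τ A h).2.2.2
        exact (mem_filter.1 hA).2 (by omega)
      rw [h2]
      simp
    rw [h1, add_zero, filter_filter]
    refine sum_congr rfl fun A hA => sum_congr rfl fun p hp => ?_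
    beta_reduce
    obtain ⟨hA1, hA2⟩ := (mem_filter.1 hA).2
    have hp' := ((mem_bs R).1 hp).2
    have h2 : ∑ τ ∈ A.powerset, x (A \ τ) p * S (y (n - i)) τ A (p * gp R.s (A \ τ)) ^ 2 =
        ∑ τ ∈ A.powersetCard (n - i), x (A \ τ) p *
          S (y (n - i)) τ A (p * gp R.s (A \ τ)) ^ 2 := by
      symm
      refine sum_subset (fun τ h => mem_powerset.2 (mem_powersetCard.1 h).1) fun τ h3 h4 => ?_
      have h5 : S (y (n - i)) τ A = 0 := by
        by_contra h
        exact h4 (mem_powersetCard.2 ⟨mem_powerset.1 h3, (hSW (hy (n - i) le_rfl) τ A h).2.2.1⟩)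
      rw [h5]
      simp
    rw [h2]
    refine sum_bij' (fun τ _ => A \ τ) (fun τ _ => A \ τ) ?_ ?_ ?_ ?_ ?_
    · intro τ hτ
      obtain ⟨h3, h4⟩ := mem_powersetCard.1 hτ
      refine mem_powersetCard.2 ⟨sdiff_subset, ?_⟩
      rw [card_sdiff_of_subset h3]
      omega
    · intro τ hτ
      obtain ⟨h3, h4⟩ := mem_powersetCard.1 hτ
      refine mem_powersetCard.2 ⟨sdiff_subset, ?_⟩
      rw [card_sdiff_of_subset h3]
      omega
    · intro τ hτ
      exact Finset.sdiff_sdiff_eq_self (mem_powersetCard.1 hτ).1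
    · intro τ hτ
      exact Finset.sdiff_sdiff_eq_self (mem_powersetCard.1 hτ).1
    · intro τ hτ
      obtain ⟨h3, h4⟩ := mem_powersetCard.1 hτ
      rw [Finset.sdiff_sdiff_eq_self h3]
      have h5 : fix R a τ (p * gp R.s (A \ τ)) = (a τ).1 (p * gp R.s (A \ τ)) := by
        refine fix_eq R a fun v hv => ?_
        rw [R.b_mul, hp' v (h3 hv), bit_gp R (fun h => (mem_sdiff.1 h).2 hv), add_zero]
      have h6 : S (y (n - i)) τ A = fun p => π ((a τ).1 p) := by
        funext p
        show π ((y (n - i) τ A).1 p) = _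
        rw [hay τ A h3 hA1 hA2]
      rw [h5, h6]
  rw [← h0, ← hall (n - i) le_rfl, hn]

end Pool.Agent.S9

end

section

/-!
# Project S9, block F: the zig-zag over a disc

The zig-zag of `Pool.Agent.H19.SR.Zig` with a set `B` of boundary simplices: the cycles in the top degree of the link
of `s` are constant, and `0` if `s` is in the boundary. The cochain `a` of the zig-zag is `0` on `B`.
-/

set_option autoImplicit false
set_option linter.unusedSectionVars false

open Finset

namespace Pool.Agent.S9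

open Pool.Agent.H19.SR

variable {V : Type} [DecidableEq V] [Fintype V] {K : Type} [Field K] [CharP K 2] {Y : Type}
  [AddCommGroup Y] [Module K Y]

/-- what the zig-zag needs of a disc with the boundary `B` -/
structure ZH (G : SimpleGraph V) (n : ℕ) (B : Finset V → Prop) : Prop where
  facet : ∀ s : Finset V, G.IsClique (s : Set V) → ∃ t : Finset V, s ⊆ t ∧
    G.IsClique (t : Set V) ∧ t.card = n
  low : ∀ s : Finset V, G.IsClique (s : Set V) → ∀ j < n, ∀ f : Finset V → ZMod 2,
    (∀ t, f t ≠ 0 → G.IsClique (t : Set V) ∧ s ⊆ t ∧ t.card = j) →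
    (∀ t, s ⊆ t → ∑ v ∈ tᶜ, f (insert v t) = 0) →
    ∃ u : Finset V → ZMod 2, (∀ t, u t ≠ 0 → G.IsClique (t : Set V) ∧ s ⊆ t ∧ t.card = j + 1) ∧
      ∀ t, s ⊆ t → ∑ v ∈ tᶜ, u (insert v t) = f t
  top : ∀ s : Finset V, G.IsClique (s : Set V) → ∀ f : Finset V → ZMod 2,
    (∀ t, f t ≠ 0 → G.IsClique (t : Set V) ∧ s ⊆ t ∧ t.card = n) →
    (∀ t, s ⊆ t → ∑ v ∈ tᶜ, f (insert v t) = 0) →
      ∃ c, (B s → c = 0) ∧ ∀ t : Finset V, G.IsClique (t : Set V) → s ⊆ t → t.card = n → f t = c

/-- extension of the coefficients from `ZMod 2` to `Y`, cycles below the top degree -/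
private theorem ext_low {G : SimpleGraph V} {n : ℕ} {B : Finset V → Prop} (hS : ZH G n B) {Y : Type} [AddCommGroup Y]
    (hY : ∀ y : Y, y + y = 0) {τ : Finset V} (hτ : G.IsClique (τ : Set V)) {b : ℕ} (hb : b < n)
    {f : Finset V → Y} (hf : ∀ t, f t ≠ 0 → G.IsClique (t : Set V) ∧ τ ⊆ t ∧ t.card = b)
    (h2 : ∀ t, τ ⊆ t → ∑ v ∈ tᶜ, f (insert v t) = 0) :
    ∃ u : Finset V → Y, (∀ t, u t ≠ 0 → G.IsClique (t : Set V) ∧ τ ⊆ t ∧ t.card = b + 1) ∧
      ∀ t, τ ⊆ t → ∑ v ∈ tᶜ, u (insert v t) = f t := by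
  classical
  letI : Module (ZMod 2) Y := AddCommGroup.zmodModule (fun y => by rw [two_nsmul]; exact hY y)
  set β' := Module.Basis.ofVectorSpace (ZMod 2) Y with hB
  have key : ∀ β, ∃ u : Finset V → ZMod 2,
      (∀ t, u t ≠ 0 → G.IsClique (t : Set V) ∧ τ ⊆ t ∧ t.card = b + 1) ∧
      ∀ t, τ ⊆ t → ∑ v ∈ tᶜ, u (insert v t) = β'.repr (f t) β := by
    intro β
    refine hS.low τ hτ b hb (fun t => β'.repr (f t) β) ?_ ?_
    · intro t ht
      refine hf t fun h0 => ht ?_
      show β'.repr (f t) β = 0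
      rw [h0, map_zero]
      rfl
    · intro t ht
      have h3 := congrArg (fun y => β'.repr y β) (h2 t ht)
      simp only [map_sum, map_zero, Finsupp.finsetSum_apply] at h3
      exact h3
  choose U hU1 hU2 using key
  set S : Finset _ := (univ : Finset (Finset V)).biUnion fun A => (β'.repr (f A)).support with hS'
  refine ⟨fun t => ∑ β ∈ S, U β t • β' β, ?_, ?_⟩
  · intro t ht
    obtain ⟨β, _, hβ⟩ := exists_ne_zero_of_sum_ne_zero ht
    refine hU1 β t fun h0 => hβ ?_
    rw [h0, zero_smul]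
  · intro t ht
    show ∑ v ∈ tᶜ, ∑ β ∈ S, U β (insert v t) • β' β = f t
    rw [sum_comm]
    have h3 : ∀ β ∈ S, ∑ v ∈ tᶜ, U β (insert v t) • β' β = β'.repr (f t) β • β' β := by
      intro β _
      rw [← sum_smul, hU2 β t ht]
    rw [sum_congr rfl h3]
    conv_rhs => rw [← β'.linearCombination_repr (f t)]
    rw [Finsupp.linearCombination_apply, Finsupp.sum]
    symm
    refine sum_subset ?_ ?_
    · rw [hS']
      intro β hβ
      rw [mem_biUnion]
      exact ⟨t, mem_univ _, hβ⟩
    · intro β _ hβ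
      rw [Finsupp.notMem_support_iff.1 hβ, zero_smul]

/-- extension of the coefficients from `ZMod 2` to `Y`, cycles in the top degree -/
private theorem ext_top {G : SimpleGraph V} {n : ℕ} {B : Finset V → Prop} (hS : ZH G n B)
    {Y : Type} [AddCommGroup Y]
    (hY : ∀ y : Y, y + y = 0) {τ : Finset V} (hτ : G.IsClique (τ : Set V))
    {f : Finset V → Y} (hf : ∀ t, f t ≠ 0 → G.IsClique (t : Set V) ∧ τ ⊆ t ∧ t.card = n)
    (h2 : ∀ t, τ ⊆ t → ∑ v ∈ tᶜ, f (insert v t) = 0) {A A' : Finset V} (h3 : τ ⊆ A)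
    (h4 : G.IsClique (A : Set V)) (h5 : A.card = n) (h3' : τ ⊆ A')
    (h4' : G.IsClique (A' : Set V)) (h5' : A'.card = n) : f A = f A' ∧ (B τ → f A = 0) := by
  classical
  letI : Module (ZMod 2) Y := AddCommGroup.zmodModule (fun y => by rw [two_nsmul]; exact hY y)
  set β' := Module.Basis.ofVectorSpace (ZMod 2) Y with hB
  have key : ∀ β, ∃ c, (B τ → c = 0) ∧ ∀ t : Finset V, G.IsClique (t : Set V) → τ ⊆ t →
      t.card = n → β'.repr (f t) β = c := by
    intro β
    refine hS.top τ hτ (fun t => β'.repr (f t) β) ?_ ?_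
    · intro t ht
      refine hf t fun h0 => ht ?_
      show β'.repr (f t) β = 0
      rw [h0, map_zero]
      rfl
    · intro t ht
      have h3 := congrArg (fun y => β'.repr y β) (h2 t ht)
      simp only [map_sum, map_zero, Finsupp.finsetSum_apply] at h3
      exact h3
  refine ⟨β'.ext_elem fun β => ?_, fun hb => β'.ext_elem fun β => ?_⟩
  · obtain ⟨c, _, hc⟩ := key β
    rw [hc A h4 h3 h5, hc A' h4' h3' h5']
  · obtain ⟨c, hc0, hc⟩ := key β
    rw [hc A h4 h3 h5, hc0 hb, map_zero]
    rfl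

private theorem slice {G : SimpleGraph V} {a b : ℕ} {w : Finset V → Finset V → Y}
    (hw : IsW G a b w) (h2 : e2 w = 0) (τ : Finset V) :
    (∀ t, w τ t ≠ 0 → G.IsClique (t : Set V) ∧ τ ⊆ t ∧ t.card = b) ∧
      ∀ t, τ ⊆ t → ∑ v ∈ tᶜ, w τ (insert v t) = 0 := by
  refine ⟨fun t ht => ?_, fun t ht => ?_⟩
  · obtain ⟨h3, h4, _, h6⟩ := hw τ t ht
    exact ⟨h4, h3, h6⟩
  · have h3 := congrFun (congrFun h2 τ) t
    unfold e2 at h3
    rw [if_pos ht] at h3
    exact h3

/-- the rows are exact -/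
private theorem row {G : SimpleGraph V} {n : ℕ} {B : Finset V → Prop} (hS : ZH G n B) {a b : ℕ} (hb : b < n)
    {w : Finset V → Finset V → Y} (hw : IsW G a b w) (h2 : e2 w = 0)
    (hY : ∀ y : Y, y + y = 0) : ∃ u : Finset V → Finset V → Y, IsW G a (b + 1) u ∧ e2 u = w := by
  classical
  have key : ∀ τ : Finset V, ∃ u : Finset V → Y,
      (∀ t, u t ≠ 0 → τ ⊆ t ∧ G.IsClique (t : Set V) ∧ τ.card = a ∧ t.card = b + 1) ∧
      ∀ t, τ ⊆ t → ∑ v ∈ tᶜ, u (insert v t) = w τ t := by
    intro τ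
    by_cases hτ : G.IsClique (τ : Set V) ∧ τ.card = a
    · obtain ⟨u, h3, h4⟩ := ext_low hS hY hτ.1 hb (slice hw h2 τ).1 (slice hw h2 τ).2
      refine ⟨u, fun t ht => ?_, h4⟩
      obtain ⟨h5, h6, h7⟩ := h3 t ht
      exact ⟨h6, h5, hτ.2, h7⟩
    · refine ⟨fun _ => 0, fun t ht => absurd rfl ht, fun t _ => ?_⟩
      rw [sum_const_zero]
      by_contra h0
      obtain ⟨h5, h6, h7, _⟩ := hw τ t (fun h => h0 h.symm)
      exact hτ ⟨h6.subset (by exact_mod_cast h5), h7⟩
  choose u hu1 hu2 using key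
  refine ⟨u, fun τ A h => hu1 τ A h, ?_⟩
  funext τ A
  unfold e2
  by_cases h : τ ⊆ A
  · rw [if_pos h, hu2 τ A h]
  · rw [if_neg h]
    by_contra h0
    exact h (hw τ A (fun h => h0 h.symm)).1

/-- the last row -/
private theorem row_top {G : SimpleGraph V} {n : ℕ} {B : Finset V → Prop} (hS : ZH G n B) {a : ℕ}
    {w : Finset V → Finset V → Y} (hw : IsW G a n w) (h2 : e2 w = 0) (hY : ∀ y : Y, y + y = 0) :
    ∃ a' : Finset V → Y, (∀ τ, a' τ ≠ 0 → G.IsClique (τ : Set V) ∧ τ.card = a) ∧
      (∀ τ, B τ → a' τ = 0) ∧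
      ∀ τ A : Finset V, τ ⊆ A → G.IsClique (A : Set V) → A.card = n → w τ A = a' τ := by
  classical
  have key : ∀ τ : Finset V, ∃ y : Y, (y ≠ 0 → G.IsClique (τ : Set V) ∧ τ.card = a) ∧
      (B τ → y = 0) ∧
      ∀ A : Finset V, τ ⊆ A → G.IsClique (A : Set V) → A.card = n → w τ A = y := by
    intro τ
    by_cases hτ : G.IsClique (τ : Set V) ∧ τ.card = a
    · obtain ⟨A₀, h3, h4, h5⟩ := hS.facet τ hτ.1
      refine ⟨w τ A₀, fun _ => hτ, ?_, fun A h6 h7 h8 => ?_⟩
      · exact (ext_top hS hY hτ.1 (slice hw h2 τ).1 (slice hw h2 τ).2 h3 h4 h5 h3 h4 h5).2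
      · exact (ext_top hS hY hτ.1 (slice hw h2 τ).1 (slice hw h2 τ).2 h6 h7 h8 h3 h4 h5).1
    · refine ⟨0, fun h => absurd rfl h, fun _ => rfl, fun A _ _ _ => ?_⟩
      by_contra h0
      obtain ⟨h5, h6, h7, _⟩ := hw τ A h0
      exact hτ ⟨h6.subset (by exact_mod_cast h5), h7⟩
  choose a' h3 h3' h4 using key
  exact ⟨a', h3, h3', h4⟩

private theorem sum_pairs {Y : Type} [AddCommGroup Y] (hY : ∀ y : Y, y + y = 0) (τ : Finset V)
    (g : V → V → Y) (hg : ∀ u ∈ τ, ∀ v ∈ τ, g u v = g v u) :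
    ∑ v ∈ τ, ∑ u ∈ τ.erase v, g v u = 0 := by
  classical
  rw [sum_sigma']
  refine sum_involution (fun x _ => ⟨x.2, x.1⟩) ?_ ?_ ?_ ?_
  · rintro ⟨v, u⟩ h
    rw [mem_sigma, mem_erase] at h
    show g v u + g u v = 0
    rw [hg v h.1 u h.2.2]
    exact hY _
  · rintro ⟨v, u⟩ h _ h0
    rw [mem_sigma, mem_erase] at h
    have h1 : u = v := congrArg Sigma.fst h0
    exact h.2.1 h1
  · rintro ⟨v, u⟩ h
    rw [mem_sigma, mem_erase] at h ⊢
    exact ⟨h.2.2, fun h1 => h.2.1 h1.symm, h.1⟩
  · rintro ⟨v, u⟩ h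
    rfl

private theorem e1_e1 {G : SimpleGraph V} {r : V → Y →ₗ[K] Y} (hY : ∀ y : Y, y + y = 0)
    (hcomm : ∀ u v, G.Adj u v → ∀ y, r u (r v y) = r v (r u y)) {a b : ℕ}
    {w : Finset V → Finset V → Y} (hw : IsW G a b w) : e1 r (e1 r w) = 0 := by
  classical
  funext τ A
  show (if τ ⊆ A then ∑ v ∈ τ, (e1 r w (τ.erase v) A + r v (e1 r w (τ.erase v) A)) else 0) = 0
  split_ifs with hτ
  swap
  · rfl
  by_cases hA : G.IsClique (A : Set V)
  · have h1 : ∀ v ∈ τ, e1 r w (τ.erase v) A + r v (e1 r w (τ.erase v) A) =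
        ∑ u ∈ τ.erase v, (w ((τ.erase v).erase u) A + r u (w ((τ.erase v).erase u) A) +
          (r v (w ((τ.erase v).erase u) A) + r v (r u (w ((τ.erase v).erase u) A)))) := by
      intro v _
      unfold e1
      rw [if_pos ((erase_subset _ _).trans hτ), map_sum, ← sum_add_distrib]
      refine sum_congr rfl fun u _ => ?_
      rw [map_add]
    rw [sum_congr rfl h1]
    refine sum_pairs hY τ (fun v u => w ((τ.erase v).erase u) A + r u (w ((τ.erase v).erase u) A) +
          (r v (w ((τ.erase v).erase u) A) + r v (r u (w ((τ.erase v).erase u) A)))) ?_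
    intro u hu v hv
    show w ((τ.erase u).erase v) A + r v (w ((τ.erase u).erase v) A) +
          (r u (w ((τ.erase u).erase v) A) + r u (r v (w ((τ.erase u).erase v) A))) =
        w ((τ.erase v).erase u) A + r u (w ((τ.erase v).erase u) A) +
          (r v (w ((τ.erase v).erase u) A) + r v (r u (w ((τ.erase v).erase u) A)))
    rw [erase_right_comm (a := v) (b := u)]
    by_cases huv : u = v
    · rw [huv]
    · rw [hcomm u v (hA (hτ hu) (hτ hv) huv)]
      abel
  · have h0 : ∀ σ, w σ A = 0 := by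
      intro σ
      by_contra h
      exact hA (hw σ A h).2.1
    have h1 : ∀ σ, e1 r w σ A = 0 := by
      intro σ
      unfold e1
      split_ifs
      · refine sum_eq_zero fun v _ => ?_
        rw [h0, map_zero, add_zero]
      · rfl
    refine sum_eq_zero fun v _ => ?_
    rw [h1, map_zero, add_zero]

private theorem e2_e1 (r : V → Y →ₗ[K] Y) (w : Finset V → Finset V → Y) :
    e2 (e1 r w) = e1 r (e2 w) := by
  classical
  funext τ A
  show (if τ ⊆ A then ∑ v ∈ Aᶜ, e1 r w τ (insert v A) else 0) =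
    if τ ⊆ A then ∑ v ∈ τ, (e2 w (τ.erase v) A + r v (e2 w (τ.erase v) A)) else 0
  split_ifs with hτ
  swap
  · rfl
  have h1 : ∀ v ∈ Aᶜ, e1 r w τ (insert v A) =
      ∑ u ∈ τ, (w (τ.erase u) (insert v A) + r u (w (τ.erase u) (insert v A))) := by
    intro v _
    unfold e1
    rw [if_pos (hτ.trans (subset_insert _ _))]
  have h2 : ∀ u ∈ τ, e2 w (τ.erase u) A + r u (e2 w (τ.erase u) A) =
      ∑ v ∈ Aᶜ, (w (τ.erase u) (insert v A) + r u (w (τ.erase u) (insert v A))) := by
    intro u _
    unfold e2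
    rw [if_pos ((erase_subset _ _).trans hτ), map_sum, ← sum_add_distrib]
  rw [sum_congr rfl h1, sum_congr rfl h2, sum_comm]

private theorem isW_e1 {G : SimpleGraph V} {r : V → Y →ₗ[K] Y} {a b : ℕ}
    {w : Finset V → Finset V → Y} (hw : IsW G a b w) : IsW G (a + 1) b (e1 r w) := by
  classical
  intro τ A h
  unfold e1 at h
  split_ifs at h with hτ
  · obtain ⟨v, hv, h1⟩ := exists_ne_zero_of_sum_ne_zero h
    have h2 : w (τ.erase v) A ≠ 0 := by
      intro h0
      apply h1
      rw [h0, map_zero, add_zero]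
    obtain ⟨_, h4, h5, h6⟩ := hw _ _ h2
    refine ⟨hτ, h4, ?_, h6⟩
    rw [← h5, card_erase_of_mem hv]
    have := card_pos.2 ⟨v, hv⟩
    omega
  · exact absurd rfl h

/-- **The zig-zag over a disc.** -/
theorem zigD {G : SimpleGraph V} {n : ℕ} {B : Finset V → Prop} (hS : ZH G n B) {r : V → Y →ₗ[K] Y}
    (hsq : ∀ v y, r v (r v y) = y) (hcomm : ∀ u v, G.Adj u v → ∀ y, r u (r v y) = r v (r u y))
    {i : ℕ} (hi : i ≤ n) {z : Finset V → Y} (hz : z ∈ Pool.Agent.H77.SW.Zs K G i r) :
    ∃ (y w : ℕ → Finset V → Finset V → Y) (a : Finset V → Y),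
      (∀ k ≤ n - i, IsW G k (i + k) (y k)) ∧ (∀ k < n - i, IsW G k (i + k + 1) (w k)) ∧
      (∀ A, y 0 ∅ A = z A) ∧ (∀ k < n - i, y k = e2 (w k)) ∧
      (∀ k < n - i, y (k + 1) = e1 r (w k)) ∧
      (∀ τ, a τ ≠ 0 → G.IsClique (τ : Set V) ∧ τ.card = n - i) ∧
      (∀ τ, B τ → a τ = 0) ∧
      (∀ τ A : Finset V, τ ⊆ A → G.IsClique (A : Set V) → A.card = n → y (n - i) τ A = a τ) ∧
      ∀ τ : Finset V, G.IsClique (τ : Set V) →
        ∑ v ∈ τ, (a (τ.erase v) + r v (a (τ.erase v))) = 0 := by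
  classical
  have hY : ∀ y : Y, y + y = 0 := by
    intro y
    have h1 : ((1 : K) + 1) • y = 0 := by
      rw [CharTwo.add_self_eq_zero, zero_smul]
    rwa [add_smul, one_smul] at h1
  obtain ⟨hz1, hz2, hz3⟩ := Pool.Agent.H77.SW.mem_Zs.1 hz
  have step : ∀ (k : ℕ) (y : Finset V → Finset V → Y), ∃ w : Finset V → Finset V → Y,
      k < n - i → (IsW G k (i + k) y ∧ e1 r y = 0 ∧ e2 y = 0) →
        IsW G k (i + k + 1) w ∧ e2 w = y ∧
          (IsW G (k + 1) (i + (k + 1)) (e1 r w) ∧ e1 r (e1 r w) = 0 ∧ e2 (e1 r w) = 0) := by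
    intro k y
    by_cases h : k < n - i ∧ (IsW G k (i + k) y ∧ e1 r y = 0 ∧ e2 y = 0)
    · obtain ⟨h1, h2, h3, h4⟩ := h
      obtain ⟨w, h5, h6⟩ := row hS (by omega : i + k < n) h2 h4 hY
      refine ⟨w, fun _ _ => ⟨h5, h6, isW_e1 h5, e1_e1 hY hcomm h5, ?_⟩⟩
      rw [e2_e1, h6, h3]
    · exact ⟨0, fun h1 h2 => absurd ⟨h1, h2⟩ h⟩
  choose F hF using step
  let y : ℕ → Finset V → Finset V → Y := fun k =>
    Nat.rec (fun τ A => if τ = ∅ then z A else 0) (fun k yk => e1 r (F k yk)) k
  have y0 : y 0 = fun τ A => if τ = ∅ then z A else 0 := rfl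
  have ys : ∀ k, y (k + 1) = e1 r (F k (y k)) := fun k => rfl
  have good : ∀ k ≤ n - i, IsW G k (i + k) (y k) ∧ e1 r (y k) = 0 ∧ e2 (y k) = 0 := by
    intro k
    induction k with
    | zero =>
      intro _
      refine ⟨?_, ?_, ?_⟩
      · intro τ A h
        rw [y0] at h
        have h' : (if τ = ∅ then z A else 0) ≠ 0 := h
        split_ifs at h' with hτ
        · obtain ⟨h1, h2⟩ := hz1 A h'
          rw [hτ]
          exact ⟨empty_subset _, h1, card_empty, by rw [h2, add_zero]⟩
        · exact absurd rfl h'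
      · funext τ A
        show (if τ ⊆ A then ∑ v ∈ τ, (y 0 (τ.erase v) A + r v (y 0 (τ.erase v) A)) else 0) = 0
        split_ifs with hτ
        · refine sum_eq_zero fun v hv => ?_
          have h1 : y 0 (τ.erase v) A = if τ.erase v = ∅ then z A else 0 := rfl
          rw [h1]
          split_ifs
          · rw [hz2 A v (hτ hv)]
            exact hY _
          · rw [map_zero, add_zero]
        · rfl
      · funext τ A
        show (if τ ⊆ A then ∑ v ∈ Aᶜ, y 0 τ (insert v A) else 0) = 0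
        split_ifs with hτ
        · by_cases h1 : τ = ∅
          · have h2 : ∀ v ∈ Aᶜ, y 0 τ (insert v A) = z (insert v A) := by
              intro v _
              show (if τ = ∅ then z (insert v A) else 0) = _
              rw [if_pos h1]
            rw [sum_congr rfl h2, hz3 A]
          · refine sum_eq_zero fun v _ => ?_
            show (if τ = ∅ then z (insert v A) else 0) = _
            rw [if_neg h1]
        · rfl
    | succ k ih =>
      intro hk
      have h1 := hF k (y k) (by omega) (ih (by omega))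
      rw [ys]
      exact h1.2.2
  obtain ⟨g1, g2, g3⟩ := good (n - i) le_rfl
  have g1' : IsW G (n - i) n (y (n - i)) := by
    have : i + (n - i) = n := by omega
    rwa [this] at g1
  obtain ⟨a, ha1, ha0, ha2⟩ := row_top hS g1' g3 hY
  refine ⟨y, fun k => F k (y k), a, fun k hk => (good k hk).1, fun k hk => ?_, fun A => ?_,
    fun k hk => ?_, fun k _ => ys k, ha1, ha0, ha2, fun τ hτ => ?_⟩
  · exact (hF k (y k) hk (good k hk.le)).1
  · rw [y0]
    exact if_pos rfl
  · exact (hF k (y k) hk (good k hk.le)).2.1.symm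
  · obtain ⟨A, h1, h2, h3⟩ := hS.facet τ hτ
    have h4 := congrFun (congrFun g2 τ) A
    unfold e1 at h4
    rw [if_pos h1] at h4
    refine Eq.trans (sum_congr rfl fun v _ => ?_) h4
    rw [ha2 (τ.erase v) A ((erase_subset _ _).trans h1) h2 h3]

end Pool.Agent.S9

end

section

/-!
# Project S9, block F: duality for discs
-/

set_option autoImplicit false
set_option linter.unusedSectionVars false

open Finset

namespace Pool.Agent.S9

open Pool.Agent.H19.SR Du

variable {V : Type} [DecidableEq V] [Fintype V] {G : SimpleGraph V} {W : Type} [Group W]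

theorem IsDisc.zh {n : ℕ} {B : Finset V → Prop} (h : IsDisc G n B) : ZH G n B where
  facet := h.facet
  low := h.low
  top s hs f h1 h2 := by
    by_cases hB : B s
    · refine ⟨0, fun _ => rfl, fun t _ _ _ => ?_⟩
      rw [h.bot s hB f h1 h2]
      rfl
    · obtain ⟨c, hc⟩ := (h.top s hs hB f h1).1 h2
      exact ⟨c, fun h' => absurd h' hB, hc⟩

/-- **Duality for discs**: the cochain `a` vanishes on the boundary -/
theorem dualD (R : Rac G W) {n : ℕ} {B : Finset V → Prop} (hS : IsDisc G n B) {Γ : Subgroup W}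
    (hb : ∀ g ∈ Γ, ∀ v, R.b g v = 0) {F : Finset W} (hF : IsTr Γ F) {K : Type} [Field K] [CharP K 2]
    {N : Type} [AddCommGroup N] [Module K N] (ρ : Γ →* Module.End K N) {i : ℕ} (hi : i ≤ n)
    {z : Finset V → W → N} (hz : z ∈ Zc R Γ ρ i) :
    ∃ a ∈ Cc R Γ ρ (n - i), cb R a = 0 ∧ (∀ τ, B τ → a τ = 0) ∧
      ∀ (χ : Γ →* Kˣ) (π : N →ₗ[K] K), (∀ g y, π (ρ g y) = (χ g : K) * π y) →
        ∀ x ∈ Cc R Γ (ch (χ⁻¹ ^ 2)) i, cb R x = 0 →
          PAIR G R F (fun A w => x A w * π (z A w) ^ 2) =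
            INT G R F n (fun A w => ∑ τ ∈ A.powersetCard i,
              x τ w * π (a (A \ τ) (w * gp R.s τ)) ^ 2) := by
  obtain ⟨y, w, a, h1, h2, h3, h4, h5, h6, h0, h7, h8⟩ :=
    zigD hS.zh (rt_sq Γ ρ R) (fun u v h => rt_comm Γ ρ R u v h) hi (mem_Zs' Γ ρ R hz)
  exact dual_core R hb hF ρ hi hz B ⟨y, w, a, h1, h2, h3, h4, h5, h6, h0, h7, h8⟩

end Pool.Agent.S9

end

section

/-!
# S9, block T3: cofinality of the tower of homomorphisms to `ℤ`
-/

set_option autoImplicit false

namespace Pool.Agent.S9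

variable {V : Type} [DecidableEq V] [Fintype V] {G : SimpleGraph V} {W : Type} [Group W]

theorem retr_T (R : Rac G W) : Retr R.s (T R) :=
  fun S => ⟨R.r S, R.r_s S, fun m x hx => (T_lev R m).ret S x hx⟩

/-- every homomorphism to a finite two-group is trivial on a level of the tower -/
theorem T_hom (R : Rac G W) {Q : Type} [Group Q] [Finite Q] (hQ : IsPGroup 2 Q) (f : W →* Q) :
    ∃ m, ∀ x ∈ T R m, f x = 1 :=
  cofinal R.gen (fun m => (T_lev R m).normal) (T_anti R) (retr_T R) (wall_T R) hQ f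

end Pool.Agent.S9

end
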