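import Pool.Agent.H71.TSG.M04

/-! The parts of this file: H19.VX.Good, H4.FC.NumK, H4.FD.Defs_1, H4.Singer2.PDefs, H19.Hyp.Rank, H4.HY.LabStmt, H77.SW.Filt, H77.SW.Gen, H85.Fold.Defs_1, H85.Fold.Sgn, H85.Fold2.NumInt, H85.VK.Sphere, S10.EA.TwoFix, S9.E.Den, S9.G.Rep. -/

section

/-!
# Project VX: complexes whose links in codimension `r` are good
-/

set_option autoImplicit false

open Finset

namespace Pool.Agent.H19.VX

/-- There are vectors `(p v, a v)` in some `ℝ^{r,m}` with squares 1, products 0 for adjacent vertices and negative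
products for the other pairs of vertices: the right-angled Coxeter group is generated by reflections in
`ℝ^{r,m}`. -/
def IsFolded {V : Type} (G : SimpleGraph V) (r : ℕ) : Prop :=
  ∃ (m : ℕ) (p : V → Fin r → ℝ) (a : V → Fin m → ℝ),
    (∀ v, p v ⬝ᵥ p v = a v ⬝ᵥ a v + 1) ∧ (∀ u v, G.Adj u v → p u ⬝ᵥ p v = a u ⬝ᵥ a v) ∧
      ∀ u v, u ≠ v → ¬ G.Adj u v → p u ⬝ᵥ p v < a u ⬝ᵥ a v

end Pool.Agent.H19.VX

end

section

/-!
# Project FC: number fields

`two_cos_integral`: `2 cos (π / m) = ζ + ζ⁻¹` with `ζ = exp (iπ/m)` a root of unity; the complex number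
`2 cos` is integral over `ℤ` as a sum of roots of unity, hence the real number is. (Alternatively by
Chebyshev polynomials: `2 cos (π/m)` is a root of the monic integer polynomial `C_m + 2`,
`Polynomial.Chebyshev.C`.)

`exists_intdata`: by `exists_integral_fold` the fold data may be replaced by data in the ring of integers
of a number field `K₀` with an embedding `τ₀`. Apply `exists_numberField_int` to the finite family of the
real numbers `τ₀ (p' v i)`, `τ₀ (a' v j)` and `y k`, all integral over `ℤ`.
-/

set_option autoImplicit false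

open Finset

namespace Pool.Agent.H4.FC

theorem two_cos_integral (m : ℕ) : IsIntegral ℤ (2 * Real.cos (Real.pi / m)) := by
  have h := Real.isIntegral_two_mul_cos_rat_mul_pi (1 / m : ℚ)
  have e : (((1 / m : ℚ) : ℝ)) * Real.pi = Real.pi / m := by
    push_cast
    ring
  rwa [e] at h

end Pool.Agent.H4.FC

end

section

/-!
# Project FD: definitions

Coxeter groups of FC type (all cliques of the nerve graph are spherical).
-/

set_option autoImplicit false

open Finset

namespace Pool.Agent.H4.FD

/-- the restriction of a Coxeter matrix -/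
def rs {V : Type} (M : CoxeterMatrix V) (σ : Finset V) : CoxeterMatrix σ where
  M := Matrix.of fun u v => M u.1 v.1
  isSymm := by
    ext u v
    exact M.symmetric v.1 u.1
  diagonal u := M.diagonal u.1
  off_diagonal u v h := M.off_diagonal u.1 v.1 fun h' => h (Subtype.ext h')

/-! ### The subspaces `PP` -/

section PP

end PP

/-! ### Natural homotopies -/

section LC

end LC

/-! ### The total complexes -/

section Tot

end Tot

end Pool.Agent.H4.FD

end

section

/-!
# Singer project, second part: the definitions for the final statement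
-/

set_option autoImplicit false

open Finset

namespace Pool.Agent.H4.Singer2

section

variable {B : Type} [PartialOrder B] [Fintype B]

open Classical in
/-- the boundary operator, with coefficients in the field of two elements, of the closed interval
below `b`: `(∂ z) x` is the sum of `z y` over all `y ≤ b` that cover `x` -/
noncomputable def bdI (b : B) (z : B → ZMod 2) (x : B) : ZMod 2 :=
  ∑ y ∈ univ.filter (fun y => x ⋖ y ∧ y ≤ b), z y

/-- The complex of the functions on the closed interval `[a, b]` with the boundary operator `∂` is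
exact: `ker ∂ = im ∂`. For the set of faces of a regular cell complex, with `a` the empty face, this
says that the boundary sphere of the cell `b` has the reduced homology of a sphere. -/
def ExactInterval (a b : B) : Prop :=
  ∀ z : B → ZMod 2, (∀ x, a ≤ x → x ≤ b → bdI b z x = 0) ↔
    ∃ y : B → ZMod 2, ∀ x, a ≤ x → x ≤ b → bdI b y x = z x

/-- `rk` is a rank function and all closed intervals with more than one element are exact. -/
structure IsSpherical (rk : B → ℕ) : Prop where
  covBy : ∀ x y : B, x ⋖ y → rk y = rk x + 1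
  exact : ∀ a b : B, a < b → ExactInterval a b

end

end Pool.Agent.H4.Singer2

end

section

/-!
# Project HB: ranked sets of labels
-/

set_option autoImplicit false

open Finset

namespace Pool.Agent.H19.Hyp

open Pool.Agent.H4.Singer2

variable {L : Type} [PartialOrder L]

/-- the rank function on the set `S` of labels with a least element added -/
def rkB (rk : L → ℕ) (S : Finset L) (b : WithBot {w : L // w ∈ S}) : ℕ :=
  b.recBotCoe 0 fun w => rk w.1

/-- the rank function on the set `S` of labels with a least and a largest element added -/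
def rkT (rk : L → ℕ) (n : ℕ) (S : Finset L) (b : WithTop (WithBot {w : L // w ∈ S})) : ℕ :=
  b.recTopCoe (n + 1) (rkB rk S)

/-- The set `S` of labels, with a least element added, is graded by `rk` with ranks at most `n`, and all
its intervals are exact over the field of two elements; if `n` is odd the same holds with a largest
element of rank `n + 1` added (`S` is Gorenstein* of rank `n`). -/
def IsRanked [Fintype L] (rk : L → ℕ) (n : ℕ) (S : Finset L) : Prop :=
  (∀ v ∈ S, rk v ≤ n) ∧ IsSpherical (rkB rk S) ∧ (Odd n → IsSpherical (rkT rk n S))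

end Pool.Agent.H19.Hyp

end

section

/-!
# Project LAB: order complexes of ranked posets
-/

set_option autoImplicit false

namespace Pool.Agent.H4.HY

open Pool.Agent.H19.Hyp

/-- `H` is the graph of the order complex of a finite graded poset of rank `n` whose intervals are exact
over the field of two elements, and which is Gorenstein* if `n` is odd: the vertices are the elements,
edges join the comparable ones. -/
def OrderComplex {W : Type} [Fintype W] (H : SimpleGraph W) (n : ℕ) : Prop :=
  ∃ (_ : PartialOrder W) (rk : W → ℕ), StrictMono rk ∧ IsRanked rk n Finset.univ ∧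
    ∀ u v, H.Adj u v ↔ u < v ∨ v < u

end Pool.Agent.H4.HY

end

section

/-!
# Singer without colours: the filtration of the extension module
-/

set_option autoImplicit false
set_option linter.unusedSectionVars false

open Finset

namespace Pool.Agent.H77.SW

variable {V : Type} [DecidableEq V] [Fintype V] {K : Type} [Field K]

/-- dimension count for a linear map -/
private theorem Filt_rank {M M' : Type} [AddCommGroup M] [Module K M] [FiniteDimensional K M]
    [AddCommGroup M'] [Module K M'] [FiniteDimensional K M'] (f : M →ₗ[K] M') (S S' : Submodule K M)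
    (T : Submodule K M') (h1 : ∀ z ∈ S, f z ∈ T) (h2 : ∀ z ∈ S, f z = 0 → z ∈ S') :
    Module.finrank K S ≤ Module.finrank K T + Module.finrank K S' := by
  let g : S →ₗ[K] T := (f.domRestrict S).codRestrict T fun z => h1 z.1 z.2
  have e := LinearMap.finrank_range_add_finrank_ker g
  have hr : Module.finrank K (LinearMap.range g) ≤ Module.finrank K T := Submodule.finrank_le _
  have hk : ∀ z : S, z ∈ LinearMap.ker g → z.1 ∈ S' := by
    intro z hz
    refine h2 z.1 z.2 ?_
    have h3 : g z = 0 := hz
    exact congrArg Subtype.val h3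
  let j : LinearMap.ker g →ₗ[K] S' := ((Submodule.subtype S).comp (Submodule.subtype (LinearMap.ker g))).codRestrict S' fun z => hk z.1 z.2
  have hj : Function.Injective j := by
    intro a b hab
    apply Subtype.ext
    apply Subtype.ext
    have h5 : ((j a : S') : M) = ((j b : S') : M) := by rw [hab]
    exact h5
  have h4 := LinearMap.finrank_le_finrank_of_injective hj
  omega

/-- the elements of the extension module which vanish at the sets outside `𝓤` -/
private def Filt_Z (G : SimpleGraph V) (n : ℕ) {P : Type} [Group P] (D : PG G P)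
    (s : Finset V) (t : V → P → K) (𝓤 : Finset (Finset V)) : Submodule K (Finset V → (Finset V × P → K)) where
  carrier := {z | z ∈ Zs K G n (rE D s t) ∧ ∀ τ A p, A ∉ 𝓤 → z τ (A, p) = 0}
  zero_mem' := ⟨Submodule.zero_mem _, fun _ _ _ _ => rfl⟩
  add_mem' := by
    rintro z w ⟨h1, h2⟩ ⟨h3, h4⟩
    refine ⟨Submodule.add_mem _ h1 h3, fun τ A p hA => ?_⟩
    rw [Pi.add_apply, Pi.add_apply, h2 τ A p hA, h4 τ A p hA, add_zero]
  smul_mem' := by
    rintro c z ⟨h1, h2⟩
    refine ⟨Submodule.smul_mem _ c h1, fun τ A p hA => ?_⟩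
    rw [Pi.smul_apply, Pi.smul_apply, h2 τ A p hA, smul_zero]

/-- the component at `A` -/
private def Filt_ev (K : Type) [Field K] (P : Type) (A : Finset V) : (Finset V → (Finset V × P → K)) →ₗ[K] (Finset V → P → K) where
  toFun z := fun τ p => z τ (A, p)
  map_add' _ _ := rfl
  map_smul' _ _ := rfl

private theorem Filt_mem {G : SimpleGraph V} {n : ℕ} {P : Type} [Group P] {D : PG G P}
    {s : Finset V} {t : V → P → K} {A : Finset V} {z : Finset V → (Finset V × P → K)}
    (hz : z ∈ Zs K G n (rE D s t)) (h0 : ∀ τ, ∀ v ∈ A, ∀ p, z τ (A.erase v, p) = 0) :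
    Filt_ev K P A z ∈ Zs K G n (rP K D) := by
  obtain ⟨h1, h2, h3⟩ := mem_Zs.1 hz
  rw [mem_Zs]
  refine ⟨fun σ hσ => h1 σ fun h => hσ ?_, fun σ v hv => ?_, fun κ => ?_⟩
  · funext p
    exact congrFun h (A, p)
  · funext p
    have h4 := congrFun (h2 σ v hv) (A, p)
    have h5 : z σ (A, p * D.g v) + (if v ∈ s ∧ v ∈ A then t v p * z σ (A.erase v, p * D.g v) else 0) = z σ (A, p) := h4
    have h6 : (if v ∈ s ∧ v ∈ A then t v p * z σ (A.erase v, p * D.g v) else 0) = 0 := by
      split_ifs with h
      · rw [h0 σ v h.2, mul_zero]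
      · rfl
    rw [h6, add_zero] at h5
    exact h5
  · funext p
    have h4 := congrFun (h3 κ) (A, p)
    rw [Finset.sum_apply] at h4 ⊢
    exact h4

private theorem Filt_up (G : SimpleGraph V) (n : ℕ) {P : Type} [Group P] [Fintype P] (D : PG G P)
    (s : Finset V) (t : V → P → K) (m : ℕ) : ∀ 𝓤 : Finset (Finset V), 𝓤.card = m →
      (∀ A ∈ 𝓤, ∀ B, A ⊆ B → B ∈ 𝓤) →
      Module.finrank K (Filt_Z G n D s t 𝓤) ≤ 𝓤.card * dz K n D := by
  induction m with
  | zero =>
    intro 𝓤 hc _
    have hz : ∀ z ∈ Filt_Z G n D s t 𝓤, z = 0 := by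
      rintro z ⟨-, h2⟩
      funext τ x
      refine h2 τ x.1 x.2 ?_
      rw [Finset.card_eq_zero.1 hc]
      exact notMem_empty _
    have h1 : Filt_Z G n D s t 𝓤 = ⊥ := (Submodule.eq_bot_iff _).2 hz
    rw [h1, finrank_bot]
    exact Nat.zero_le _
  | succ m ih =>
    intro 𝓤 hc hup
    have hne : 𝓤.Nonempty := by
      rw [← Finset.card_pos, hc]
      exact Nat.succ_pos m
    obtain ⟨A, hA, hmin⟩ := Finset.exists_min_image 𝓤 Finset.card hne
    have hmin' : ∀ B ∈ 𝓤, B ⊆ A → B = A := fun B hB hBA => Finset.eq_of_subset_of_card_le hBA (hmin B hB)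
    have hce : (𝓤.erase A).card = m := by rw [card_erase_of_mem hA, hc, Nat.add_sub_cancel]
    have h1 := ih (𝓤.erase A) hce (by
      intro B hB C hBC
      rw [mem_erase] at hB ⊢
      refine ⟨?_, hup B hB.2 C hBC⟩
      rintro rfl
      exact hB.1 (hmin' B hB.2 hBC))
    have h2 := Filt_rank (Filt_ev K P A) (Filt_Z G n D s t 𝓤) (Filt_Z G n D s t (𝓤.erase A)) (Zs K G n (rP K D))
      (by
        rintro z ⟨hz1, hz2⟩
        refine Filt_mem hz1 fun τ v hv p => hz2 τ _ p fun h => ?_
        have h3 := hmin' _ h (erase_subset v A)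
        rw [Finset.erase_eq_self] at h3
        exact h3 hv)
      (by
        rintro z ⟨hz1, hz2⟩ h0
        refine ⟨hz1, fun τ B p hB => ?_⟩
        by_cases hBA : B = A
        · rw [hBA]
          exact congrFun (congrFun h0 τ) p
        · exact hz2 τ B p fun h => hB (mem_erase.2 ⟨hBA, h⟩))
    rw [hce] at h1
    have h3 : Module.finrank K (Zs K G n (rP K D)) = dz K n D := rfl
    rw [h3] at h2
    rw [hc]
    calc _ ≤ dz K n D + m * dz K n D := by omega
      _ = (m + 1) * dz K n D := by ring

/-- **The upper bound for the extension module.** For a set `𝓤` of finite sets which is closed upwards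
let `Z_𝓤` be the space of the `z ∈ Zs K G n (rE D s t)` with `z σ (A, p) = 0` for `A ∉ 𝓤`. If `A ∈ 𝓤` is
minimal, then `z ↦ (fun σ p => z σ (A, p))` maps `Z_𝓤` to `Zs K G n (rP K D)` with kernel
`Z_(𝓤 \ {A})`; so `finrank Z_𝓤 ≤ 𝓤.card * dz K n D`. For `𝓤 = univ`, `A = ∅` the image is in
`Z0 K n D σ` by the hypothesis. -/
theorem upper_rE (G : SimpleGraph V) (n : ℕ) {P : Type} [Group P] [Fintype P] (D : PG G P)
    (s : Finset V) (t : V → P → K) (σ : Finset V)
    (hkey : ∀ z ∈ Zs K G n (rE D s t), ∀ p, z σ (∅, p) = 0) :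
    Module.finrank K (Zs K G n (rE D s t)) ≤
      Module.finrank K (Z0 K n D σ) + (2 ^ Fintype.card V - 1) * dz K n D := by
  have h1 := Filt_rank (Filt_ev K P ∅) (Zs K G n (rE D s t)) (Filt_Z G n D s t (univ.erase ∅)) (Z0 K n D σ)
    (by
      intro z hz
      refine Submodule.mem_inf.2 ⟨Filt_mem hz fun τ v hv => absurd hv (notMem_empty v), ?_⟩
      rw [LinearMap.mem_ker]
      funext p
      exact hkey z hz p)
    (by
      intro z hz h0
      refine ⟨hz, fun τ B p hB => ?_⟩
      have hB0 : B = ∅ := by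
        by_contra h
        exact hB (mem_erase.2 ⟨h, mem_univ B⟩)
      rw [hB0]
      exact congrFun (congrFun h0 τ) p)
  have h2 := Filt_up G n D s t _ (univ.erase ∅) rfl (by
    intro A hA B hAB
    rw [mem_erase] at hA ⊢
    refine ⟨?_, mem_univ B⟩
    rintro rfl
    exact hA.1 (subset_empty.1 hAB))
  have h3 : ((univ : Finset (Finset V)).erase ∅).card = 2 ^ Fintype.card V - 1 := by
    rw [card_erase_of_mem (mem_univ _), card_univ, Fintype.card_finset]
  rw [h3] at h2
  omega

end Pool.Agent.H77.SW

end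

section

/-!
# Singer without colours: generic parameters
-/

set_option autoImplicit false
set_option linter.unusedSectionVars false

open Finset

namespace Pool.Agent.H77.SW

variable {V : Type} [DecidableEq V] [Fintype V] {K : Type} [Field K]

/-- the identity has zero bits -/
private theorem Gen_b_one {G : SimpleGraph V} {P : Type} [Group P] (D : PG G P) (v : V) :
    D.b 1 v = 0 := by
  have h := D.b_mul 1 1 v
  rw [mul_one] at h
  exact left_eq_add.1 h

private theorem Gen_b_inv {G : SimpleGraph V} {P : Type} [Group P] (D : PG G P) (p : P) (v : V) :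
    D.b p⁻¹ v = - D.b p v := by
  have h := D.b_mul p⁻¹ p v
  rw [inv_mul_cancel, Gen_b_one] at h
  exact eq_neg_of_add_eq_zero_left h.symm

/-- elements of the closure of `S` have zero bits outside `S` -/
private theorem Gen_b_closure {G : SimpleGraph V} {P : Type} [Group P] (D : PG G P) (S : Set V)
    (v : V) (hv : v ∉ S) (q : P) (hq : q ∈ Subgroup.closure (D.g '' S)) : D.b q v = 0 := by
  induction hq using Subgroup.closure_induction with
  | mem x hx =>
    obtain ⟨u, hu, rfl⟩ := hx
    rw [D.b_g, if_neg]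
    rintro rfl
    exact hv hu
  | one => exact Gen_b_one D v
  | mul x y _ _ hx hy => rw [D.b_mul, hx, hy, add_zero]
  | inv x _ hx => rw [Gen_b_inv, hx, neg_zero]

/-- an element of the closure of a clique with zero bits on the clique is trivial -/
private theorem Gen_clique {G : SimpleGraph V} {P : Type} [Group P] (D : PG G P) (s : Finset V) :
    G.IsClique (s : Set V) → ∀ q ∈ Subgroup.closure (D.g '' (s : Set V)),
      (∀ v ∈ s, D.b q v = 0) → q = 1 := by
  induction s using Finset.induction_on with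
  | empty =>
    intro _ q hq _
    rw [coe_empty, Set.image_empty, Subgroup.closure_empty] at hq
    exact Subgroup.mem_bot.1 hq
  | insert v s hv ih =>
    intro hcl q hq hb
    have hcl' : G.IsClique (s : Set V) := hcl.subset (by
      rw [coe_insert]
      exact Set.subset_insert _ _)
    have hcomm : ∀ r ∈ Subgroup.closure (D.g '' (s : Set V)), D.g v * r = r * D.g v := by
      intro r hr
      induction hr using Subgroup.closure_induction with
      | mem x hx =>
        obtain ⟨u, hu, rfl⟩ := hx
        have hne : v ≠ u := by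
          rintro rfl
          exact hv (mem_coe.1 hu)
        exact D.comm v u (hcl (by rw [coe_insert]; exact Set.mem_insert _ _)
          (by rw [coe_insert]; exact Set.mem_insert_of_mem _ hu) hne)
      | one => rw [mul_one, one_mul]
      | mul x y _ _ hx hy => rw [← mul_assoc, hx, mul_assoc, hy, mul_assoc]
      | inv x _ hx =>
        rw [mul_inv_eq_iff_eq_mul, mul_assoc, hx, inv_mul_cancel_left]
    have hsq : D.g v * D.g v = 1 := D.sq v
    have hdec : ∃ r ∈ Subgroup.closure (D.g '' (s : Set V)), q = r ∨ q = r * D.g v := by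
      clear hb
      induction hq using Subgroup.closure_induction with
      | mem x hx =>
        obtain ⟨u, hu, rfl⟩ := hx
        rw [coe_insert] at hu
        rcases hu with rfl | hu
        · exact ⟨1, Subgroup.one_mem _, Or.inr (one_mul _).symm⟩
        · exact ⟨D.g u, Subgroup.subset_closure ⟨u, hu, rfl⟩, Or.inl rfl⟩
      | one => exact ⟨1, Subgroup.one_mem _, Or.inl rfl⟩
      | mul x y _ _ hx hy =>
        obtain ⟨r, hr, hx⟩ := hx
        obtain ⟨r', hr', hy⟩ := hy
        refine ⟨r * r', Subgroup.mul_mem _ hr hr', ?_⟩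
        rcases hx with rfl | rfl <;> rcases hy with rfl | rfl
        · exact Or.inl rfl
        · exact Or.inr (mul_assoc _ _ _).symm
        · right
          rw [mul_assoc, hcomm _ hr', mul_assoc]
        · left
          rw [mul_assoc, ← mul_assoc (D.g v), hcomm _ hr', mul_assoc r', hsq, mul_one]
      | inv x _ hx =>
        obtain ⟨r, hr, hx⟩ := hx
        refine ⟨r⁻¹, Subgroup.inv_mem _ hr, ?_⟩
        rcases hx with rfl | rfl
        · exact Or.inl rfl
        · right
          have hinv : (D.g v)⁻¹ = D.g v := inv_eq_of_mul_eq_one_left hsq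
          rw [mul_inv_rev, hinv, hcomm _ (Subgroup.inv_mem _ hr)]
    obtain ⟨r, hr, h⟩ := hdec
    have hbr : D.b r v = 0 := Gen_b_closure D _ v (fun h => hv (mem_coe.1 h)) r hr
    rcases h with rfl | rfl
    · exact ih hcl' _ hr fun u hu => hb u (mem_insert_of_mem hu)
    · exfalso
      have h1 := hb v (mem_insert_self _ _)
      rw [D.b_mul, hbr, D.b_g, if_pos rfl, zero_add] at h1
      exact one_ne_zero h1

/-- `Good` for finitely many sets -/
private theorem Gen_inter {G : SimpleGraph V} {P : Type} [Group P] (D : PG G P) (hD : Good D)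
    (A : V → Set V) (q : P) (s : Finset V) : s.Nonempty →
    (∀ v ∈ s, q ∈ Subgroup.closure (D.g '' A v)) →
      q ∈ Subgroup.closure (D.g '' {u | ∀ v ∈ s, u ∈ A v}) := by
  intro hs
  induction hs using Finset.Nonempty.cons_induction with
  | singleton a =>
    intro h
    have h1 := h a (mem_singleton_self _)
    refine Subgroup.closure_mono (Set.image_mono ?_) h1
    intro u hu v hv
    rw [mem_singleton] at hv
    subst hv
    exact hu
  | cons a s ha hs ih =>
    intro h
    have h1 := ih fun v hv => h v (mem_cons_of_mem hv)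
    have h2 := h a (mem_cons_self _ _)
    have h3 := hD (A a) {u | ∀ v ∈ s, u ∈ A v} (Subgroup.mem_inf.2 ⟨h2, h1⟩)
    refine Subgroup.closure_mono (Set.image_mono ?_) h3
    rintro u ⟨hu1, hu2⟩ v hv
    rcases mem_cons.1 hv with rfl | hv
    · exact hu1
    · exact hu2 v hv

/-- **Generic parameters.** `I = Σ v : V, P ⧸ Subgroup.closure (D.g '' {u | u = v ∨ G.Adj v u})`,
`ι v p = ⟨v, p⟩`, `τ i = X.x (Fintype.equivFin I i)`. If `p`, `p'` have the bits `0` on `s` and the same
cosets for all `v ∈ s` then `p⁻¹ * p'` is in the closures of all stars, hence (`Good`, the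
intersection of the stars of `v ∈ s` is `s` as there is no larger clique) in the closure of `s`, and its
bits vanish: `p = p'` (the elements of the closure of `D.g '' s` are the products of subsets,
determined by their bits). So the products of the `t v p` are pairwise different squarefree
monomials. -/
theorem exists_gen (X : GenSeq K) (G : SimpleGraph V) (k : ℕ)
    (hdim : ∀ σ : Finset V, G.IsClique (σ : Set V) → σ.card ≤ k + 1) {P : Type} [Group P]
    [Fintype P] (D : PG G P) (hD : Good D) (s : Finset V) (hs : G.IsClique (s : Set V))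
    (hcard : s.card = k + 1) :
    ∃ (I : Type) (_ : Fintype I) (_ : DecidableEq I) (ι : V → P → I) (τ : I → K),
      (∀ v u, (u = v ∨ G.Adj v u) → ∀ p, ι v (p * D.g u) = ι v p) ∧
      GenOn D s (fun v p => τ (ι v p)) := by
  classical
  obtain ⟨H, hH⟩ : ∃ H : V → Subgroup P, ∀ v, H v =
      Subgroup.closure (D.g '' {u | u = v ∨ G.Adj v u}) := ⟨_, fun _ => rfl⟩
  have hI : Fintype (Σ v : V, P ⧸ H v) := by
    have : ∀ v, Fintype (P ⧸ H v) := fun v => Fintype.ofFinite _
    infer_instance
  obtain ⟨e⟩ : Nonempty ((Σ v : V, P ⧸ H v) ≃ Fin (Fintype.card (Σ v : V, P ⧸ H v))) :=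
    ⟨Fintype.equivFin _⟩
  obtain ⟨ι, hι⟩ : ∃ ι : V → P → (Σ v : V, P ⧸ H v), ∀ v p, ι v p = ⟨v, (p : P ⧸ H v)⟩ :=
    ⟨fun v p => ⟨v, (p : P ⧸ H v)⟩, fun _ _ => rfl⟩
  refine ⟨(Σ v : V, P ⧸ H v), hI, Classical.decEq _, ι, fun i => X.x (e i).val, ?_, ?_⟩
  · intro v u hu p
    rw [hι, hι]
    congr 1
    rw [QuotientGroup.eq, mul_inv_rev, mul_assoc, inv_mul_cancel, mul_one, hH]
    exact Subgroup.inv_mem _ (Subgroup.subset_closure ⟨u, hu, rfl⟩)
  · intro c hc hsum
    -- the monomial of `p`
    obtain ⟨M, hM⟩ : ∃ M : P → Finset ℕ, ∀ p, M p = s.image fun v => (e (ι v p)).val :=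
      ⟨fun p => s.image fun v => (e (ι v p)).val, fun _ => rfl⟩
    have hinj1 : ∀ v w p q, (e (ι v p)).val = (e (ι w q)).val → v = w ∧
        p⁻¹ * q ∈ H v := by
      intro v w p q h
      have h1 : ι v p = ι w q := e.injective (Fin.val_injective h)
      rw [hι, hι] at h1
      have h2 : v = w := congrArg Sigma.fst h1
      subst h2
      refine ⟨rfl, ?_⟩
      have h3 : (p : P ⧸ H v) = (q : P ⧸ H v) := eq_of_heq (Sigma.mk.inj h1).2
      exact QuotientGroup.eq.1 h3
    have hprod : ∀ p, ∏ v ∈ s, X.x (e (ι v p)).val = ∏ i ∈ M p, X.x i := by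
      intro p
      rw [hM, prod_image]
      intro v _ w _ h
      exact (hinj1 v w p p h).1
    obtain ⟨P0, hP0⟩ : ∃ P0 : Finset P, ∀ p, p ∈ P0 ↔ ∀ v ∈ s, D.b p v = 0 :=
      ⟨univ.filter fun p => ∀ v ∈ s, D.b p v = 0, fun p => by simp⟩
    have hsne : s.Nonempty := by
      rw [← card_pos]
      omega
    have hinj : ∀ p ∈ P0, ∀ q ∈ P0, M p = M q → p = q := by
      intro p hp q hq hpq
      have h1 : ∀ v ∈ s, p⁻¹ * q ∈ Subgroup.closure (D.g '' {u | u = v ∨ G.Adj v u}) := by
        intro v hv
        have h2 : (e (ι v p)).val ∈ M q := by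
          rw [← hpq, hM]
          exact mem_image_of_mem _ hv
        rw [hM, mem_image] at h2
        obtain ⟨w, _, hw⟩ := h2
        obtain ⟨h3, h4⟩ := hinj1 v w p q hw.symm
        rw [← hH]
        exact h4
      have h2 := Gen_inter D hD (fun v => {u | u = v ∨ G.Adj v u}) (p⁻¹ * q) s hsne h1
      have h3 : p⁻¹ * q ∈ Subgroup.closure (D.g '' (s : Set V)) := by
        refine Subgroup.closure_mono (Set.image_mono ?_) h2
        intro u hu
        by_contra hus
        have hus' : u ∉ s := fun h => hus (mem_coe.2 h)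
        have hcl : G.IsClique ((insert u s : Finset V) : Set V) := by
          rw [coe_insert, SimpleGraph.isClique_insert]
          refine ⟨hs, fun v hv _ => ?_⟩
          rcases hu v (mem_coe.1 hv) with h | h
          · exact absurd (h ▸ mem_coe.1 hv) hus'
          · exact h.symm
        have h4 := hdim _ hcl
        rw [card_insert_of_notMem hus'] at h4
        omega
      have h4 := Gen_clique D s hs _ h3 (by
        intro v hv
        rw [D.b_mul, Gen_b_inv, (hP0 p).1 hp v hv, (hP0 q).1 hq v hv, neg_zero, add_zero])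
      exact inv_mul_eq_one.1 h4
    obtain ⟨c', hc'⟩ : ∃ c' : Finset ℕ → K, ∀ p ∈ P0, c' (M p) = c p := by
      refine ⟨fun S => if h : ∃ p ∈ P0, M p = S then c h.choose else 0, fun p hp => ?_⟩
      have hex : ∃ q ∈ P0, M q = M p := ⟨p, hp, rfl⟩
      show (if h : ∃ q ∈ P0, M q = M p then c h.choose else 0) = c p
      rw [dif_pos hex]
      exact congrArg c (hinj _ hex.choose_spec.1 _ hp hex.choose_spec.2)
    have hsum' : ∑ S ∈ P0.image M, (∏ i ∈ S, X.x i) * c' S ^ 2 = 0 := by
      rw [sum_image (fun p hp q hq h => hinj p hp q hq h), ← hsum]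
      have e1 : ∑ p ∈ P0, (∏ i ∈ M p, X.x i) * c' (M p) ^ 2 =
          ∑ p ∈ P0, (∏ v ∈ s, X.x (e (ι v p)).val) * c p ^ 2 := by
        refine sum_congr rfl fun p hp => ?_
        rw [hc' p hp, hprod]
      rw [e1]
      refine sum_subset (subset_univ P0) fun p _ hp => ?_
      have h1 : c p = 0 := hc p (by
        by_contra hcon
        push Not at hcon
        exact hp ((hP0 p).2 hcon))
      rw [h1, zero_pow (by norm_num), mul_zero]
    have hz := X.indep (P0.image M) c' hsum'
    funext p
    by_cases hp : p ∈ P0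
    · rw [← hc' p hp]
      exact hz _ (mem_image_of_mem _ hp)
    · refine hc p ?_
      by_contra hcon
      push Not at hcon
      exact hp ((hP0 p).2 hcon)

end Pool.Agent.H77.SW

end

section

/-!
# Project FOLD: definitions

Chains of the clique complex of a graph with coefficients in the kernels of Clifford operators.
-/

set_option autoImplicit false

open Finset

namespace Pool.Agent.H85.Fold

section Basic

variable {V : Type} [DecidableEq V] [Fintype V]

/-- the incidence sign -/
def sgn (ν : V → ℕ) (v : V) (σ : Finset V) : ℝ := (-1) ^ (σ.filter fun u => ν u < ν v).card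

open Classical in
/-- the cliques with `n` vertices in `U` -/
noncomputable def fac (G : SimpleGraph V) (n : ℕ) (U : Finset V) : Finset (Finset V) :=
  U.powerset.filter fun σ => Cl G σ ∧ σ.card = n

/-- the neighbours of `v` in `U` -/
noncomputable def nbr (G : SimpleGraph V) (v : V) (U : Finset V) : Finset V := by
  classical exact U.filter fun u => G.Adj v u

/-- the orientation of the link of `v` -/
def linkO (ν : V → ℕ) (v : V) (o : Finset V → ℝ) (σ : Finset V) : ℝ :=
  sgn ν v σ * o (insert v σ)

variable {S : Type} [AddCommGroup S] [Module ℝ S]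

/-- the boundary of a chain -/
def bd (ν : V → ℕ) : (Finset V → S) →ₗ[ℝ] (Finset V → S) where
  toFun c ρ := ∑ v ∈ ρᶜ, sgn ν v ρ • c (insert v ρ)
  map_add' c c' := by
    funext ρ
    simp [smul_add, Finset.sum_add_distrib]
  map_smul' r c := by
    funext ρ
    simp [Finset.smul_sum, smul_comm r]

/-- the boundary in the first variable of a double chain -/
def d1 (ν : V → ℕ) : (Finset V → Finset V → S) →ₗ[ℝ] (Finset V → Finset V → S) where
  toFun x ρ σ := ∑ v ∈ σ \ ρ, sgn ν v ρ • x (insert v ρ) σ
  map_add' c c' := by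
    funext ρ σ
    simp [smul_add, Finset.sum_add_distrib]
  map_smul' r c := by
    funext ρ σ
    simp [Finset.smul_sum, smul_comm r]

open Classical in
/-- the coboundary in the second variable of a double chain, for the cliques in `U` -/
noncomputable def d2 (ν : V → ℕ) (G : SimpleGraph V) (U : Finset V) :
    (Finset V → Finset V → S) →ₗ[ℝ] (Finset V → Finset V → S) where
  toFun x ρ σ := if σ ⊆ U ∧ Cl G σ then ∑ v ∈ σ \ ρ, sgn ν v σ • x ρ (σ.erase v) else 0
  map_add' c c' := by
    funext ρ σ
    by_cases h : σ ⊆ U ∧ Cl G σ <;> simp [h, smul_add, Finset.sum_add_distrib]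
  map_smul' r c := by
    funext ρ σ
    by_cases h : σ ⊆ U ∧ Cl G σ <;> simp [h, Finset.smul_sum, smul_comm r]

/-- the augmentation of a double chain -/
noncomputable def aug (G : SimpleGraph V) (n : ℕ) (U : Finset V) (o : Finset V → ℝ) :
    (Finset V → Finset V → S) →ₗ[ℝ] (Finset V → S) where
  toFun x ρ := ∑ σ ∈ fac G n U, o σ • x ρ σ
  map_add' c c' := by
    funext ρ
    simp [smul_add, Finset.sum_add_distrib]
  map_smul' r c := by
    funext ρ
    simp [Finset.smul_sum, smul_comm r]

/-- The clique complex of the induced subgraph on `U` is an oriented real homology sphere of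
dimension `n - 1`, and the same holds for all links: `o` is a nonvanishing cycle on the cliques with
`n` vertices, and for every clique `ρ` the cochains on the cliques which contain `ρ` are exact below
degree `n`, and in degree `n` the coboundaries are the cochains with integral zero over `o`. -/
structure IsSphere (ν : V → ℕ) (G : SimpleGraph V) (n : ℕ) (U : Finset V) (o : Finset V → ℝ) :
    Prop where
  dim : ∀ σ ⊆ U, Cl G σ → σ.card ≤ n
  pure : ∀ ρ ⊆ U, Cl G ρ → ∃ τ ⊆ U, Cl G τ ∧ τ.card = n ∧ ρ ⊆ τ
  ne : ∀ τ ⊆ U, Cl G τ → τ.card = n → o τ ≠ 0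
  cyc : ∀ κ ⊆ U, Cl G κ → κ.card + 1 = n →
    ∑ v ∈ U, (if v ∉ κ ∧ insert v κ ∈ fac G n U then sgn ν v κ * o (insert v κ) else 0) = 0
  exact : ∀ ρ ⊆ U, Cl G ρ → ∀ j, j < n → ∀ ψ : Finset V → ℝ,
    (∀ σ ⊆ U, Cl G σ → ρ ⊆ σ → σ.card = j + 1 →
      ∑ v ∈ σ \ ρ, sgn ν v σ * ψ (σ.erase v) = 0) →
    ∃ χ : Finset V → ℝ, ∀ σ ⊆ U, Cl G σ → ρ ⊆ σ → σ.card = j →
      ψ σ = ∑ v ∈ σ \ ρ, sgn ν v σ * χ (σ.erase v)
  top : ∀ ρ ⊆ U, Cl G ρ → ∀ ψ : Finset V → ℝ,
    ∑ σ ∈ fac G n U, (if ρ ⊆ σ then o σ * ψ σ else 0) = 0 →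
    ∃ χ : Finset V → ℝ, ∀ σ ⊆ U, Cl G σ → ρ ⊆ σ → σ.card = n →
      ψ σ = ∑ v ∈ σ \ ρ, sgn ν v σ * χ (σ.erase v)

/-- chains of degree `i` on `U` with coefficients in the kernels -/
structure IsF (G : SimpleGraph V) (e : V → S →ₗ[ℝ] S) (M : Submodule ℝ S) (U : Finset V) (i : ℕ)
    (c : Finset V → S) : Prop where
  mem : ∀ σ, c σ ∈ M
  ker : ∀ σ, ∀ v ∈ σ, e v (c σ) = 0
  supp : ∀ σ, c σ ≠ 0 → σ ⊆ U ∧ Cl G σ ∧ σ.card = i

/-- double chains of type `i` (for complexes of dimension `n - 1`) -/
structure IsD (G : SimpleGraph V) (e : V → S →ₗ[ℝ] S) (n : ℕ) (M : Submodule ℝ S) (U : Finset V)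
    (i : ℕ) (x : Finset V → Finset V → S) : Prop where
  mem : ∀ ρ σ, x ρ σ ∈ M
  ker : ∀ ρ σ, ∀ v ∈ ρ, e v (x ρ σ) = 0
  supp : ∀ ρ σ, x ρ σ ≠ 0 → ρ ⊆ σ ∧ σ ⊆ U ∧ Cl G σ ∧ σ.card + i = n + ρ.card

/-- `x` is a resolution of the cycle `c` -/
structure IsRes (ν : V → ℕ) (G : SimpleGraph V) (e : V → S →ₗ[ℝ] S) (n : ℕ) (M : Submodule ℝ S)
    (U : Finset V) (o : Finset V → ℝ) (i : ℕ) (c : Finset V → S)
    (x : Finset V → Finset V → S) : Prop where
  isD : IsD G e n M U i x
  closed : d1 ν x = d2 ν G U x
  aug_eq : aug G n U o x = c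

/-- the pairing of a double chain with a chain -/
noncomputable def pr (β : S →ₗ[ℝ] S →ₗ[ℝ] ℝ) (x : Finset V → Finset V → S) (c : Finset V → S) :
    ℝ := ∑ σ : Finset V, β (x ∅ σ) (c σ)

end Basic

end Pool.Agent.H85.Fold

end

section

/-!
# Project FOLD: signs and the relations between the boundary operators
-/

set_option autoImplicit false

open Finset

namespace Pool.Agent.H85.Fold

variable {V : Type} [DecidableEq V] [Fintype V]

private theorem sgn_ins (ν : V → ℕ) (u v : V) (σ : Finset V) (hu : u ∉ σ) :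
    sgn ν v (insert u σ) = (if ν u < ν v then -1 else 1) * sgn ν v σ := by
  unfold sgn
  rw [Finset.filter_insert]
  by_cases h : ν u < ν v
  · rw [if_pos h, if_pos h, Finset.card_insert_of_notMem, pow_succ]
    · ring
    · intro hmem
      exact hu (Finset.mem_filter.mp hmem).1
  · rw [if_neg h, if_neg h, one_mul]

private theorem dlt_sq (a b : ℕ) :
    ((if a < b then -1 else 1 : ℝ)) * (if a < b then -1 else 1) = 1 := by
  by_cases h : a < b <;> simp [h]

private theorem dlt_anti (a b : ℕ) (h : a ≠ b) :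
    ((if a < b then -1 else 1 : ℝ)) = -(if b < a then -1 else 1) := by
  rcases lt_or_gt_of_ne h with h1 | h1
  · rw [if_pos h1, if_neg (not_lt.mpr h1.le)]
  · rw [if_neg (not_lt.mpr (le_of_lt h1)), if_pos h1]; norm_num

private theorem sgn_er (ν : V → ℕ) (u v : V) (σ : Finset V) (hu : u ∈ σ) :
    sgn ν v (σ.erase u) = (if ν u < ν v then -1 else 1) * sgn ν v σ := by
  have h := sgn_ins ν u v (σ.erase u) (Finset.notMem_erase u σ)
  rw [Finset.insert_erase hu] at h
  rw [h, ← mul_assoc, dlt_sq, one_mul]

theorem sgn_sq (ν : V → ℕ) (v : V) (σ : Finset V) : sgn ν v σ * sgn ν v σ = 1 := by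
  unfold sgn
  rw [← mul_pow]
  norm_num

theorem sgn_insert_self (ν : V → ℕ) (v : V) (σ : Finset V) :
    sgn ν v (insert v σ) = sgn ν v σ := by
  unfold sgn
  rw [Finset.filter_insert, if_neg (lt_irrefl _)]

theorem sgn_erase_self (ν : V → ℕ) (v : V) (σ : Finset V) : sgn ν v (σ.erase v) = sgn ν v σ := by
  unfold sgn
  congr 2
  ext u
  rw [Finset.mem_filter, Finset.mem_filter, Finset.mem_erase]
  constructor
  · rintro ⟨⟨_, h1⟩, h2⟩
    exact ⟨h1, h2⟩
  · rintro ⟨h1, h2⟩
    refine ⟨⟨?_, h1⟩, h2⟩
    rintro rfl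
    exact lt_irrefl _ h2

/-- moving a vertex past another one -/
theorem sgn_swap (ν : V → ℕ) (hν : Function.Injective ν) (u v : V) (huv : u ≠ v) (σ : Finset V)
    (hu : u ∉ σ) (hv : v ∉ σ) :
    sgn ν v (insert u σ) * sgn ν u σ = -(sgn ν u (insert v σ) * sgn ν v σ) := by
  rw [sgn_ins ν u v σ hu, sgn_ins ν v u σ hv, dlt_anti (ν u) (ν v) (fun h => huv (hν h))]
  ring

/-- the mixed form -/
theorem sgn_swap_mix (ν : V → ℕ) (hν : Function.Injective ν) (u v : V) (huv : u ≠ v)
    (σ : Finset V) (hu : u ∈ σ) (hv : v ∉ σ) :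
    sgn ν v σ * sgn ν u (insert v σ) = -(sgn ν u σ * sgn ν v (σ.erase u)) := by
  rw [sgn_er ν u v σ hu, sgn_ins ν v u σ hv, dlt_anti (ν u) (ν v) (fun h => huv (hν h))]
  ring

variable {S : Type} [AddCommGroup S] [Module ℝ S]

private theorem sum_erase_ite (s : Finset V) (v : V) (f : V → S) :
    ∑ u ∈ s.erase v, f u = ∑ u ∈ s, if u ≠ v then f u else 0 := by
  rw [← Finset.filter_ne', Finset.sum_filter]

private theorem anti_sum (s : Finset V) (F : V → V → S)
    (h : ∀ u ∈ s, ∀ v ∈ s, F u v = - F v u) : ∑ u ∈ s, ∑ v ∈ s, F u v = 0 := by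
  have h1 : ∑ u ∈ s, ∑ v ∈ s, F u v = - ∑ u ∈ s, ∑ v ∈ s, F u v := by
    calc ∑ u ∈ s, ∑ v ∈ s, F u v = ∑ u ∈ s, ∑ v ∈ s, - F v u :=
          Finset.sum_congr rfl fun u hu => Finset.sum_congr rfl fun v hv => h u hu v hv
      _ = - ∑ u ∈ s, ∑ v ∈ s, F v u := by
          simp only [Finset.sum_neg_distrib]
      _ = - ∑ u ∈ s, ∑ v ∈ s, F u v := by rw [Finset.sum_comm]
  have h2 : (2 : ℝ) • ∑ u ∈ s, ∑ v ∈ s, F u v = 0 := by
    rw [two_smul]
    exact add_eq_zero_iff_eq_neg.mpr h1
  exact (smul_eq_zero.mp h2).resolve_left (by norm_num)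

theorem bd_bd (ν : V → ℕ) (hν : Function.Injective ν) (c : Finset V → S) :
    bd ν (bd ν c) = 0 := by
  funext ρ
  show ∑ v ∈ ρᶜ, sgn ν v ρ • ∑ u ∈ (insert v ρ)ᶜ,
    sgn ν u (insert v ρ) • c (insert u (insert v ρ)) = 0
  have e : ∀ v ∈ ρᶜ, sgn ν v ρ • ∑ u ∈ (insert v ρ)ᶜ,
      sgn ν u (insert v ρ) • c (insert u (insert v ρ)) =
      ∑ u ∈ ρᶜ, if u ≠ v then
        (sgn ν v ρ * sgn ν u (insert v ρ)) • c (insert u (insert v ρ)) else 0 := by
    intro v _
    rw [Finset.compl_insert, sum_erase_ite, Finset.smul_sum]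
    apply Finset.sum_congr rfl
    intro u _
    rw [smul_ite, smul_zero, smul_smul]
  rw [Finset.sum_congr rfl e]
  apply anti_sum
  intro u hu v hv
  by_cases huv : v = u
  · simp [huv]
  · have huv' : u ≠ v := fun h => huv h.symm
    rw [if_pos huv, if_pos huv', ← neg_smul, Finset.insert_comm]
    congr 1
    have := sgn_swap ν hν u v huv' ρ (by simpa using hu) (by simpa using hv)
    linarith

theorem d1_d1 (ν : V → ℕ) (hν : Function.Injective ν) (x : Finset V → Finset V → S) :
    d1 ν (d1 ν x) = 0 := by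
  funext ρ σ
  show ∑ v ∈ σ \ ρ, sgn ν v ρ • ∑ u ∈ σ \ insert v ρ,
    sgn ν u (insert v ρ) • x (insert u (insert v ρ)) σ = 0
  have e : ∀ v ∈ σ \ ρ, sgn ν v ρ • ∑ u ∈ σ \ insert v ρ,
      sgn ν u (insert v ρ) • x (insert u (insert v ρ)) σ =
      ∑ u ∈ σ \ ρ, if u ≠ v then
        (sgn ν v ρ * sgn ν u (insert v ρ)) • x (insert u (insert v ρ)) σ else 0 := by
    intro v _
    rw [Finset.sdiff_insert, sum_erase_ite, Finset.smul_sum]
    apply Finset.sum_congr rfl
    intro u _
    rw [smul_ite, smul_zero, smul_smul]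
  rw [Finset.sum_congr rfl e]
  apply anti_sum
  intro u hu v hv
  rw [Finset.mem_sdiff] at hu hv
  by_cases huv : v = u
  · simp [huv]
  · have huv' : u ≠ v := fun h => huv h.symm
    rw [if_pos huv, if_pos huv', ← neg_smul, Finset.insert_comm]
    congr 1
    have := sgn_swap ν hν u v huv' ρ hu.2 hv.2
    linarith

theorem d1_d2 (ν : V → ℕ) (G : SimpleGraph V) (U : Finset V) (x : Finset V → Finset V → S) :
    d1 ν (d2 ν G U x) = d2 ν G U (d1 ν x) := by
  classical
  funext ρ σ
  show (∑ v ∈ σ \ ρ, sgn ν v ρ • (if σ ⊆ U ∧ Cl G σ then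
      ∑ u ∈ σ \ insert v ρ, sgn ν u σ • x (insert v ρ) (σ.erase u) else 0)) =
    (if σ ⊆ U ∧ Cl G σ then ∑ u ∈ σ \ ρ, sgn ν u σ •
      ∑ v ∈ σ.erase u \ ρ, sgn ν v ρ • x (insert v ρ) (σ.erase u) else 0)
  by_cases hσ : σ ⊆ U ∧ Cl G σ
  · simp only [if_pos hσ]
    have e1 : ∀ v ∈ σ \ ρ, sgn ν v ρ •
        ∑ u ∈ σ \ insert v ρ, sgn ν u σ • x (insert v ρ) (σ.erase u) =
        ∑ u ∈ σ \ ρ, if u ≠ v then
          (sgn ν v ρ * sgn ν u σ) • x (insert v ρ) (σ.erase u) else 0 := by
      intro v _
      rw [Finset.sdiff_insert, sum_erase_ite, Finset.smul_sum]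
      apply Finset.sum_congr rfl
      intro u _
      rw [smul_ite, smul_zero, smul_smul]
    have e2 : ∀ u ∈ σ \ ρ, sgn ν u σ •
        ∑ v ∈ σ.erase u \ ρ, sgn ν v ρ • x (insert v ρ) (σ.erase u) =
        ∑ v ∈ σ \ ρ, if u ≠ v then
          (sgn ν v ρ * sgn ν u σ) • x (insert v ρ) (σ.erase u) else 0 := by
      intro u _
      rw [Finset.erase_sdiff_comm, sum_erase_ite, Finset.smul_sum]
      apply Finset.sum_congr rfl
      intro v _
      rw [smul_ite, smul_zero, smul_smul, mul_comm (sgn ν u σ)]
      by_cases h : u = v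
      · subst h; simp
      · rw [if_pos h, if_pos (fun h' => h h'.symm)]
    rw [Finset.sum_congr rfl e1, Finset.sum_congr rfl e2, Finset.sum_comm]
  · simp only [if_neg hσ, smul_zero, Finset.sum_const_zero]

/-- the coboundary does not raise the augmentation -/
theorem aug_d1 (ν : V → ℕ) (G : SimpleGraph V) (n : ℕ) (U : Finset V) (o : Finset V → ℝ)
    (x : Finset V → Finset V → S) (hx : ∀ ρ σ, x ρ σ ≠ 0 → ρ ⊆ σ) :
    aug G n U o (d1 ν x) = bd ν (aug G n U o x) := by
  funext ρ
  show ∑ σ ∈ fac G n U, o σ • ∑ v ∈ σ \ ρ, sgn ν v ρ • x (insert v ρ) σ =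
    ∑ v ∈ ρᶜ, sgn ν v ρ • ∑ σ ∈ fac G n U, o σ • x (insert v ρ) σ
  have e1 : ∀ σ ∈ fac G n U, o σ • ∑ v ∈ σ \ ρ, sgn ν v ρ • x (insert v ρ) σ =
      ∑ v ∈ ρᶜ, (sgn ν v ρ * o σ) • x (insert v ρ) σ := by
    intro σ _
    rw [Finset.smul_sum]
    have hsub : σ \ ρ ⊆ ρᶜ := by
      intro v hv
      rw [Finset.mem_compl]
      exact (Finset.mem_sdiff.mp hv).2
    rw [← Finset.sum_subset hsub]
    · apply Finset.sum_congr rfl
      intro v _
      rw [smul_smul, mul_comm]
    · intro v hv hv2
      have : x (insert v ρ) σ = 0 := by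
        by_contra hne
        have h1 := hx _ _ hne (Finset.mem_insert_self v ρ)
        exact hv2 (Finset.mem_sdiff.mpr ⟨h1, Finset.mem_compl.mp hv⟩)
      rw [this, smul_zero]
  rw [Finset.sum_congr rfl e1, Finset.sum_comm]
  apply Finset.sum_congr rfl
  intro v _
  rw [Finset.smul_sum]
  apply Finset.sum_congr rfl
  intro σ _
  rw [smul_smul]

end Pool.Agent.H85.Fold

end

section

/-!
# Project FOLD: finitely many real algebraic integers lie in the ring of integers of a
# number field inside the reals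
-/

set_option autoImplicit false

open Finset

namespace Pool.Agent.H85.Fold2

/-- finitely many real algebraic numbers lie in a number field `K` with an embedding into `ℝ` -/
theorem exists_numberField_alg {ι : Type*} [Finite ι] (y : ι → ℝ)
    (hy : ∀ i, IsAlgebraic ℚ (y i)) :
    ∃ (K : Type) (_ : Field K) (_ : NumberField K) (τ : K →+* ℝ) (w : ι → K),
      ∀ i, τ (w i) = y i := by
  set K : IntermediateField ℚ ℝ := IntermediateField.adjoin ℚ (Set.range y) with hK
  have hfd : FiniteDimensional ℚ K := by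
    apply IntermediateField.finiteDimensional_adjoin
    rintro _ ⟨i, rfl⟩
    exact (hy i).isIntegral
  have hNF : NumberField K := by
    refine { to_charZero := inferInstance, to_finiteDimensional := ?_ }
    convert hfd
  exact ⟨K, inferInstance, hNF, algebraMap K ℝ,
    fun i => ⟨y i, IntermediateField.subset_adjoin ℚ _ ⟨i, rfl⟩⟩, fun i => rfl⟩

/-- finitely many real algebraic integers lie in the ring of integers of a number field `K`
with an embedding into `ℝ` -/
theorem exists_numberField_int {ι : Type*} [Finite ι] (y : ι → ℝ)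
    (hy : ∀ i, IsIntegral ℤ (y i)) :
    ∃ (K : Type) (_ : Field K) (_ : NumberField K) (τ : K →+* ℝ)
      (w : ι → NumberField.RingOfIntegers K), ∀ i, τ (w i : K) = y i := by
  obtain ⟨K, iK, iN, τ, w, hw⟩ := exists_numberField_alg y fun i =>
    (IsFractionRing.isAlgebraic_iff ℤ ℚ ℝ).mp (hy i).isAlgebraic
  refine ⟨K, iK, iN, τ, fun i => ⟨w i, ?_⟩, fun i => hw i⟩
  have h : IsIntegral ℤ (τ (w i)) := by
    rw [hw i]
    exact hy i
  have h2 : IsIntegral ℤ (τ.toIntAlgHom (w i)) := h
  exact (isIntegral_algHom_iff τ.toIntAlgHom τ.injective).mp h2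

end Pool.Agent.H85.Fold2

end

section

/-!
# Project VK: complements of faces in homology spheres are acyclic
-/

set_option autoImplicit false

open Finset

namespace Pool.Agent.H85.VK

variable {W : Type} [DecidableEq W]

/-- extension of a cochain `m` of the link of `v` and of `f` on the faces without `v` -/
def ext (v : W) (m f : Finset W → ZMod 2) : Finset W → ZMod 2 :=
  fun τ => if v ∈ τ then m (τ.erase v) else f τ

/-! ## Spheres -/

variable [Fintype W]

end Pool.Agent.H85.VK

end

section

/-!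
# S10, block E: the fixed vectors of a finite 2-group over the field with two elements

`dim U ≤ |G| * dim (fixed vectors)`.
-/

set_option autoImplicit false

namespace Pool.Agent.S10.EA

open Module

/-- the fixed vectors -/
def fixS {K : Type} [Field K] {G : Type} [Group G] {U : Type} [AddCommGroup U] [Module K U]
    (ρ : G →* Module.End K U) : Submodule K U where
  carrier := {x | ∀ g, ρ g x = x}
  zero_mem' g := map_zero _
  add_mem' := by
    intro a b ha hb g
    rw [map_add, ha g, hb g]
  smul_mem' := by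
    intro c x hx g
    rw [map_smul, hx g]

private theorem two_fix_aux (n : ℕ) : ∀ (G : Type) [Group G] [Finite G], Nat.card G = 2 ^ n →
    ∀ {U : Type} [AddCommGroup U] [Module (ZMod 2) U] [FiniteDimensional (ZMod 2) U]
      (ρ : G →* Module.End (ZMod 2) U),
    finrank (ZMod 2) U ≤ 2 ^ n * finrank (ZMod 2) (fixS ρ) := by
  induction n with
  | zero =>
    intro G _ _ hG U _ _ _ ρ
    rw [pow_zero, one_mul]
    have h1 : fixS ρ = ⊤ := by
      rw [eq_top_iff]
      intro x _ g
      have h2 : Subsingleton G := (Nat.card_eq_one_iff_unique.1 (hG.trans (pow_zero 2))).1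
      rw [Subsingleton.elim g 1, map_one]
      rfl
    rw [h1, finrank_top]
  | succ n ih =>
    intro G _ _ hG U _ _ _ ρ
    haveI : Fact (Nat.Prime 2) := ⟨Nat.prime_two⟩
    obtain ⟨H, hH⟩ := Sylow.exists_subgroup_card_pow_prime (G := G) 2 (n := n)
      (by rw [hG, pow_succ]; exact dvd_mul_right _ _)
    have h2 : H.index = 2 := by
      have h3 := H.card_mul_index
      rw [hH, hG, pow_succ] at h3
      exact Nat.eq_of_mul_eq_mul_left (pow_pos (by norm_num) n) h3
    have h4 := ih H hH (ρ.comp H.subtype)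
    set F := fixS (ρ.comp H.subtype) with hF
    obtain ⟨g, hg⟩ : ∃ g : G, g ∉ H := by
      by_contra hcon
      push Not at hcon
      have h5 : H = ⊤ := eq_top_iff.2 fun x _ => hcon x
      rw [h5, Subgroup.index_top] at h2
      exact absurd h2 (by norm_num)
    have hmem : ∀ a b : G, a * b ∈ H ↔ (a ∈ H ↔ b ∈ H) := fun a b =>
      Subgroup.mul_mem_iff_of_index_two h2
    have hgF : ∀ x ∈ F, ρ g x ∈ F := by
      intro x hx h
      have h5 : g⁻¹ * h * g ∈ H := by
        rw [hmem, hmem, inv_mem_iff]
        have := h.2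
        tauto
      have h6 : ρ (g⁻¹ * h * g) x = x := hx ⟨_, h5⟩
      change ρ h (ρ g x) = ρ g x
      have h7 : (h : G) * g = g * (g⁻¹ * h * g) := by group
      calc ρ h (ρ g x) = ρ (h * g) x := by rw [map_mul]; rfl
        _ = ρ (g * (g⁻¹ * h * g)) x := by rw [h7]
        _ = ρ g (ρ (g⁻¹ * h * g) x) := by rw [map_mul]; rfl
        _ = ρ g x := by rw [h6]
    let φ : F →ₗ[ZMod 2] F := (ρ g).restrict hgF + LinearMap.id
    have hφ : ∀ x : F, ((φ x : F) : U) = ρ g x + x := fun x => rfl
    have hsq : LinearMap.range φ ≤ LinearMap.ker φ := by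
      rintro _ ⟨x, rfl⟩
      rw [LinearMap.mem_ker]
      refine Subtype.ext ?_
      rw [hφ, hφ, map_add]
      have h5 : ρ g (ρ g (x : U)) = x := by
        have h6 : g * g ∈ H := by
          rw [hmem]
        have h7 : ρ (g * g) (x : U) = x := x.2 ⟨_, h6⟩
        rw [map_mul] at h7
        exact h7
      rw [h5]
      have h6 : (x : U) + ρ g x + (ρ g x + x) = 2 • (x : U) + 2 • ρ g x := by
        rw [two_nsmul, two_nsmul]
        abel
      rw [h6]
      have h7 : ∀ y : U, 2 • y = 0 := by
        intro y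
        rw [← Nat.cast_smul_eq_nsmul (ZMod 2), show ((2 : ℕ) : ZMod 2) = 0 from rfl, zero_smul]
      rw [h7, h7, add_zero]
      rfl
    have h5 : finrank (ZMod 2) F ≤ 2 * finrank (ZMod 2) (LinearMap.ker φ) := by
      have h6 := LinearMap.finrank_range_add_finrank_ker φ
      have h7 := Submodule.finrank_mono hsq
      omega
    have h6 : finrank (ZMod 2) (LinearMap.ker φ) ≤ finrank (ZMod 2) (fixS ρ) := by
      refine LinearMap.finrank_le_finrank_of_injective (f := LinearMap.codRestrict (fixS ρ)
        (F.subtype.comp (LinearMap.ker φ).subtype) (fun x => ?_)) ?_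
      · intro k
        change ρ k ((x : F) : U) = ((x : F) : U)
        have hx : ρ g ((x : F) : U) = ((x : F) : U) := by
          have h7 : φ (x : F) = 0 := x.2
          have h8 : ρ g ((x : F) : U) + ((x : F) : U) = 0 := by
            rw [← hφ, h7]
            rfl
          have h9 : ((x : F) : U) + ((x : F) : U) = 0 := by
            rw [← two_nsmul, ← Nat.cast_smul_eq_nsmul (ZMod 2), show ((2 : ℕ) : ZMod 2) = 0 from rfl, zero_smul]
          exact add_right_cancel (h8.trans h9.symm)
        by_cases hk : k ∈ H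
        · exact (x : F).2 ⟨k, hk⟩
        · have h7 : g⁻¹ * k ∈ H := by
            rw [hmem, inv_mem_iff]
            tauto
          have h8 : ρ (g⁻¹ * k) ((x : F) : U) = ((x : F) : U) := (x : F).2 ⟨_, h7⟩
          have h9 : k = g * (g⁻¹ * k) := by group
          calc ρ k ((x : F) : U) = ρ (g * (g⁻¹ * k)) ((x : F) : U) := by rw [← h9]
            _ = ρ g (ρ (g⁻¹ * k) ((x : F) : U)) := by rw [map_mul]; rfl
            _ = _ := by rw [h8, hx]
      · intro x y hxy
        have h7 := congrArg Subtype.val hxy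
        exact Subtype.ext (Subtype.ext h7)
    calc finrank (ZMod 2) U ≤ 2 ^ n * finrank (ZMod 2) F := h4
      _ ≤ 2 ^ n * (2 * finrank (ZMod 2) (fixS ρ)) := Nat.mul_le_mul_left _ (h5.trans (Nat.mul_le_mul_left _ h6))
      _ = 2 ^ (n + 1) * finrank (ZMod 2) (fixS ρ) := by ring

/-- **the fixed vectors of a finite 2-group** -/
theorem two_fix {G : Type} [Group G] [Finite G] (hG : IsPGroup 2 G)
    {U : Type} [AddCommGroup U] [Module (ZMod 2) U] [FiniteDimensional (ZMod 2) U]
    (ρ : G →* Module.End (ZMod 2) U) :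
    finrank (ZMod 2) U ≤ Nat.card G * finrank (ZMod 2) (fixS ρ) := by
  haveI : Fact (Nat.Prime 2) := ⟨Nat.prime_two⟩
  obtain ⟨n, hn⟩ := IsPGroup.iff_card.1 hG
  rw [hn]
  exact two_fix_aux n G hn ρ

/-- the same for a quotient which is a finite 2-group -/
theorem two_fix_quot {Γ : Type} [Group Γ] (N : Subgroup Γ) [N.Normal] [Finite (Γ ⧸ N)] (hG : IsPGroup 2 (Γ ⧸ N))
    {U : Type} [AddCommGroup U] [Module (ZMod 2) U] [FiniteDimensional (ZMod 2) U]
    (ρ : Γ →* Module.End (ZMod 2) U) (h1 : ∀ g ∈ N, ρ g = 1) :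
    finrank (ZMod 2) U ≤ N.index * finrank (ZMod 2) (fixS ρ) := by
  have h2 := two_fix hG (QuotientGroup.lift N ρ h1)
  have h3 : fixS (QuotientGroup.lift N ρ h1) = fixS ρ := by
    refine le_antisymm (fun x hx g => ?_) fun x hx q => ?_
    · have h4 := hx (QuotientGroup.mk g)
      rw [QuotientGroup.lift_mk] at h4
      exact h4
    · obtain ⟨g, rfl⟩ := QuotientGroup.mk_surjective q
      rw [QuotientGroup.lift_mk]
      exact hx g
  rw [h3] at h2
  exact h2

end Pool.Agent.S10.EA

end

section

/-!
# Project S9, block E: clearing the denominators of triangular matrices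

`c x` upper triangular matrices over the fraction field `K` of `R` with diagonal entries in `R`, `x` in a finite
type: after conjugation with a diagonal matrix `d ^ i` the entries are in `R`.
-/

set_option autoImplicit false
set_option linter.unusedSectionVars false

open Finset

namespace Pool.Agent.S9

variable {R K : Type} [CommRing R] [IsDomain R] [Field K] [Algebra R K] [IsFractionRing R K]

/-- the matrix `diag (1, d, d ^ 2, …)` -/
def dg {n : ℕ} (d : K) : Matrix (Fin n) (Fin n) K := Matrix.diagonal fun i => d ^ (i : ℕ)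

theorem dg_mul_dg_inv {n : ℕ} {d : K} (hd : d ≠ 0) : dg (n := n) d * dg d⁻¹ = 1 := by
  unfold dg
  rw [Matrix.diagonal_mul_diagonal]
  ext i j
  rw [Matrix.diagonal_apply, Matrix.one_apply]
  split_ifs
  · rw [← mul_pow, mul_inv_cancel₀ hd, one_pow]
  · rfl

theorem dg_inv_mul_dg {n : ℕ} {d : K} (hd : d ≠ 0) : dg (n := n) d⁻¹ * dg d = 1 := by
  have h := dg_mul_dg_inv (n := n) (inv_ne_zero hd)
  rwa [inv_inv] at h

/-- **Clearing the denominators.** -/
theorem exists_den {ι : Type} [Finite ι] {n : ℕ} (c : ι → Matrix (Fin n) (Fin n) K)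
    (htri : ∀ x i j, j < i → c x i j = 0) (u : ι → Fin n → R)
    (hdiag : ∀ x i, c x i i = algebraMap R K (u x i)) :
    ∃ d : R, d ≠ 0 ∧ ∃ c' : ι → Matrix (Fin n) (Fin n) R,
      (∀ x i j, j < i → c' x i j = 0) ∧ (∀ x i, c' x i i = u x i) ∧
      ∀ x, dg (algebraMap R K d) * (c' x).map (algebraMap R K) = c x * dg (algebraMap R K d) := by
  classical
  cases nonempty_fintype ι
  obtain ⟨⟨d, hd⟩, h⟩ := IsLocalization.exist_integer_multiples_of_finite (nonZeroDivisors R)
    (fun q : ι × Fin n × Fin n => c q.1 q.2.1 q.2.2)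
  have h' : ∀ x i j, ∃ r : R, algebraMap R K r = algebraMap R K d * c x i j := by
    intro x i j
    obtain ⟨r, hr⟩ := h (x, i, j)
    refine ⟨r, ?_⟩
    rw [hr]
    exact Algebra.smul_def _ _
  choose e he using h'
  have hd0 : d ≠ 0 := nonZeroDivisors.ne_zero hd
  have hdK : algebraMap R K d ≠ 0 := by
    intro h0
    exact hd0 ((IsFractionRing.injective R K) (h0.trans (map_zero _).symm))
  refine ⟨d, hd0, fun x => Matrix.of fun i j =>
    if j < i then 0 else if i = j then u x i else d ^ ((j : ℕ) - (i : ℕ) - 1) * e x i j, ?_, ?_, ?_⟩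
  · intro x i j hij
    exact if_pos hij
  · intro x i
    exact (if_neg (lt_irrefl i)).trans (if_pos rfl)
  · intro x
    ext i j
    unfold dg
    rw [Matrix.diagonal_mul, Matrix.mul_diagonal, Matrix.map_apply]
    change algebraMap R K d ^ (i : ℕ) * algebraMap R K (if j < i then 0 else if i = j then u x i else
      d ^ ((j : ℕ) - (i : ℕ) - 1) * e x i j) = _
    rcases lt_trichotomy i j with hij | rfl | hij
    · rw [if_neg (not_lt.2 hij.le), if_neg hij.ne, map_mul, map_pow, he]
      have h1 : (j : ℕ) = (i : ℕ) + (((j : ℕ) - (i : ℕ) - 1) + 1) := by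
        have : (i : ℕ) < (j : ℕ) := hij
        omega
      have h2 : algebraMap R K d ^ (j : ℕ) = algebraMap R K d ^ (i : ℕ) *
          (algebraMap R K d ^ ((j : ℕ) - (i : ℕ) - 1) * algebraMap R K d) := by
        conv_lhs => rw [h1]
        rw [pow_add, pow_succ]
      rw [h2]
      ring
    · rw [if_neg (lt_irrefl i), if_pos rfl, hdiag, mul_comm]
    · rw [if_pos hij, map_zero, mul_zero, htri x i j hij, zero_mul]

/-- the products of the new matrices -/
theorem den_mul {n : ℕ} {d : K} {a b : Matrix (Fin n) (Fin n) K}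
    {a' b' : Matrix (Fin n) (Fin n) R}
    (ha : dg d * a'.map (algebraMap R K) = a * dg d) (hb : dg d * b'.map (algebraMap R K) = b * dg d) :
    dg d * (a' * b').map (algebraMap R K) = a * b * dg d := by
  rw [Matrix.map_mul, ← mul_assoc, ha, mul_assoc, hb, mul_assoc]

/-- the new matrices are determined by the old ones -/
theorem den_inj {n : ℕ} {d : K} (hd : d ≠ 0) {a : Matrix (Fin n) (Fin n) K}
    {a' b' : Matrix (Fin n) (Fin n) R}
    (ha : dg d * a'.map (algebraMap R K) = a * dg d) (hb : dg d * b'.map (algebraMap R K) = a * dg d) :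
    a' = b' := by
  have h1 : a'.map (algebraMap R K) = b'.map (algebraMap R K) := by
    have h2 : dg (n := n) d⁻¹ * (dg d * a'.map (algebraMap R K)) =
        dg d⁻¹ * (dg d * b'.map (algebraMap R K)) := by rw [ha, hb]
    rwa [← mul_assoc, ← mul_assoc, dg_inv_mul_dg hd, one_mul, one_mul] at h2
  ext i j
  refine (IsFractionRing.injective R K) ?_
  have h3 := congrFun (congrFun h1 i) j
  rwa [Matrix.map_apply, Matrix.map_apply] at h3

theorem den_one {n : ℕ} (d : K) :
    dg d * (1 : Matrix (Fin n) (Fin n) R).map (algebraMap R K) = 1 * dg d := by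
  rw [Matrix.map_one _ (map_zero _) (map_one _), mul_one, one_mul]

end Pool.Agent.S9

end

section

/-!
# Project S9, block G: triangular submodules and representative functions

`Lam` is a subgroup of `Kˣ`. A submodule of a representation of the group `H` is triangular if it has a
filtration by invariant submodules such that `H` acts on the quotients by functions `H → Lam`. A function
`f : H → K` is representative if it is in a triangular space of functions, for the right translations.
-/

set_option autoImplicit false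

namespace Pool.Agent.S9

open Submodule

variable {K : Type*} [Field K]

/-! ### Triangular submodules -/

section TriS

variable {H : Type*} [Group H] {X : Type*} [AddCommGroup X] [Module K X]

/-- Triangular submodules: they are obtained from `0` by adding vectors which are multiplied by elements
of `Lam` modulo the smaller submodule. -/
inductive TriS (Lam : Subgroup Kˣ) (ρ : Representation K H X) : Submodule K X → Prop
  | bot : TriS Lam ρ ⊥
  | step (F : Submodule K X) (f : X) (lam : H →* Kˣ) (hl : ∀ g, lam g ∈ Lam)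
      (h : ∀ g, ρ g f - (lam g : K) • f ∈ F) (hF : TriS Lam ρ F) : TriS Lam ρ (F ⊔ span K {f})

variable {Lam : Subgroup Kˣ} {ρ : Representation K H X}

theorem TriS.stable {F : Submodule K X} (hF : TriS Lam ρ F) : ∀ g, ∀ x ∈ F, ρ g x ∈ F := by
  induction hF with
  | bot =>
    intro g x hx
    rw [mem_bot] at hx
    rw [hx, map_zero]
    exact zero_mem _
  | step F f lam _ h _ ih =>
    intro g x hx
    obtain ⟨y, hy, z, hz, rfl⟩ := mem_sup.1 hx
    obtain ⟨c, rfl⟩ := mem_span_singleton.1 hz
    rw [map_add, map_smul]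
    have e : ρ g f = (ρ g f - (lam g : K) • f) + (lam g : K) • f := by abel
    rw [e]
    refine add_mem (mem_sup_left (ih g y hy)) (smul_mem _ _ (add_mem (mem_sup_left (h g)) ?_))
    exact mem_sup_right (smul_mem _ _ (mem_span_singleton_self f))

theorem TriS.fg {F : Submodule K X} (hF : TriS Lam ρ F) : F.FG := by
  induction hF with
  | bot => exact fg_bot
  | step F f _ _ _ _ ih => exact ih.sup (fg_span_singleton f)

theorem TriS.sup {F F' : Submodule K X} (hF : TriS Lam ρ F) (hF' : TriS Lam ρ F') :
    TriS Lam ρ (F ⊔ F') := by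
  induction hF' with
  | bot => rwa [sup_bot_eq]
  | step F' f lam hl h _ ih =>
    rw [← sup_assoc]
    exact TriS.step _ f lam hl (fun g => mem_sup_right (h g)) ih

/-- images under maps which are equivariant for a homomorphism -/
theorem TriS.map {H' : Type*} [Group H'] {Y : Type*} [AddCommGroup Y] [Module K Y]
    {σ : Representation K H' Y} (φ : H' →* H) (L : X →ₗ[K] Y)
    (hL : ∀ g x, σ g (L x) = L (ρ (φ g) x)) {F : Submodule K X} (hF : TriS Lam ρ F) :
    TriS Lam σ (F.map L) := by
  induction hF with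
  | bot =>
    rw [Submodule.map_bot]
    exact TriS.bot
  | step F f lam hl h _ ih =>
    rw [Submodule.map_sup, map_span, Set.image_singleton]
    refine TriS.step _ (L f) (lam.comp φ) (fun g => hl _) (fun g => ?_) ih
    rw [hL, ← map_smul, ← map_sub]
    exact mem_map_of_mem (h _)

/-- invariant submodules of triangular submodules -/
theorem TriS.sub {F : Submodule K X} (hF : TriS Lam ρ F) : ∀ F' : Submodule K X, F' ≤ F →
    (∀ g, ∀ x ∈ F', ρ g x ∈ F') → TriS Lam ρ F' := by
  induction hF with
  | bot =>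
    intro F' hle _
    rw [le_bot_iff.1 hle]
    exact TriS.bot
  | step F f lam hl h hF ih =>
    intro F' hle hst
    have h1 := ih (F' ⊓ F) inf_le_right fun g x hx => ⟨hst g x hx.1, hF.stable g x hx.2⟩
    by_cases hc : F' ≤ F
    · rwa [inf_of_le_left hc] at h1
    obtain ⟨x, hx, hxF⟩ := SetLike.not_le_iff_exists.1 hc
    obtain ⟨y, hy, z, hz, hyz⟩ := mem_sup.1 (hle hx)
    obtain ⟨c, rfl⟩ := mem_span_singleton.1 hz
    have hc0 : c ≠ 0 := by
      rintro rfl
      rw [zero_smul, add_zero] at hyz
      exact hxF (hyz ▸ hy)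
    have e : F' = (F' ⊓ F) ⊔ span K {x} := by
      apply le_antisymm
      · intro w hw
        obtain ⟨y', hy', z', hz', hyz'⟩ := mem_sup.1 (hle hw)
        obtain ⟨c', rfl⟩ := mem_span_singleton.1 hz'
        refine mem_sup.2 ⟨w - (c' * c⁻¹) • x, ⟨sub_mem hw (smul_mem _ _ hx), ?_⟩, (c' * c⁻¹) • x,
          smul_mem _ _ (mem_span_singleton_self x), sub_add_cancel _ _⟩
        have : w - (c' * c⁻¹) • x = y' - (c' * c⁻¹) • y := by
          rw [← hyz, ← hyz', smul_add, smul_smul, inv_mul_cancel_right₀ hc0]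
          abel
        rw [this]
        exact sub_mem hy' (smul_mem _ _ hy)
      · exact sup_le inf_le_left ((span_singleton_le_iff_mem _ _).2 hx)
    rw [e]
    refine TriS.step _ x lam hl (fun g => ⟨sub_mem (hst g x hx) (smul_mem _ _ hx), ?_⟩) h1
    rw [← hyz, map_add, map_smul, smul_add]
    have : ρ g y + c • ρ g f - ((lam g : K) • y + (lam g : K) • c • f) =
        (ρ g y - (lam g : K) • y) + c • (ρ g f - (lam g : K) • f) := by
      rw [smul_sub, smul_comm c (lam g : K) f]
      abel
    rw [this]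
    exact add_mem (sub_mem (hF.stable g y hy) (smul_mem _ _ hy)) (smul_mem _ _ (h g))

/-- the span of a triangular family -/
theorem TriS.family {ι : Type*} [Finite ι] (rk : ι → ℕ) (u : ι → X) (lam : ι → H →* Kˣ)
    (hl : ∀ i g, lam i g ∈ Lam)
    (h : ∀ i g, ρ g (u i) - (lam i g : K) • u i ∈ span K (u '' {k | rk k < rk i})) :
    TriS Lam ρ (span K (Set.range u)) := by
  classical
  have := Fintype.ofFinite ι
  have key : ∀ r : ℕ, TriS Lam ρ (span K (u '' {k | rk k < r})) := by
    intro r
    induction r with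
    | zero =>
      have : {k : ι | rk k < 0} = ∅ := by
        ext k
        simp
      rw [this, Set.image_empty, span_empty]
      exact TriS.bot
    | succ r ih =>
      have step : ∀ s : Finset ι, (∀ k ∈ s, rk k = r) →
          TriS Lam ρ (span K (u '' {k | rk k < r}) ⊔ span K (u '' (s : Set ι))) := by
        intro s
        induction s using Finset.induction_on with
        | empty =>
          intro _
          rw [Finset.coe_empty, Set.image_empty, span_empty, sup_bot_eq]
          exact ih
        | insert i s _ ihs =>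
          intro hs
          have e : span K (u '' {k | rk k < r}) ⊔ span K (u '' ((insert i s : Finset ι) : Set ι)) =
              (span K (u '' {k | rk k < r}) ⊔ span K (u '' (s : Set ι))) ⊔ span K {u i} := by
            rw [Finset.coe_insert, Set.image_insert_eq, span_insert, sup_assoc,
              sup_comm (span K {u i})]
          rw [e]
          refine TriS.step _ _ (lam i) (hl i) (fun g => mem_sup_left ?_)
            (ihs fun k hk => hs k (Finset.mem_insert_of_mem hk))
          have := h i g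
          rwa [hs i (Finset.mem_insert_self i s)] at this
      have e : {k | rk k < r + 1} = {k | rk k < r} ∪
          ((Finset.univ.filter fun k => rk k = r : Finset ι) : Set ι) := by
        ext k
        simp only [Set.mem_ofPred_eq, Set.mem_union, Finset.coe_filter, Finset.mem_univ, true_and]
        omega
      rw [e, Set.image_union, span_union]
      exact step _ fun k hk => (Finset.mem_filter.1 hk).2
  have e : Set.range u = u '' {k | rk k < (Finset.univ.sup rk) + 1} := by
    rw [← Set.image_univ]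
    congr 1
    ext k
    simp only [Set.mem_univ, Set.mem_ofPred_eq, true_iff]
    exact Nat.lt_succ_of_le (Finset.le_sup (f := rk) (Finset.mem_univ k))
  rw [e]
  exact key _

/-- a triangular basis -/
theorem TriS.exists_basis {F : Submodule K X} (hF : TriS Lam ρ F) :
    ∃ (n : ℕ) (f : Fin n → X) (lam : Fin n → H →* Kˣ), LinearIndependent K f ∧
      span K (Set.range f) = F ∧ (∀ i g, lam i g ∈ Lam) ∧
      ∀ i g, ρ g (f i) - (lam i g : K) • f i ∈ span K (f '' {k | k < i}) := by
  induction hF with
  | bot =>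
    refine ⟨0, Fin.elim0, Fin.elim0, linearIndependent_empty_type, ?_, fun i => i.elim0,
      fun i => i.elim0⟩
    rw [Set.range_eq_empty, span_empty]
  | step F f lam hl h hF ih =>
    obtain ⟨n, b, l, hb, hs, hl', ht⟩ := ih
    by_cases hf : f ∈ F
    · refine ⟨n, b, l, hb, ?_, hl', ht⟩
      rw [hs, eq_comm, sup_eq_left, span_singleton_le_iff_mem]
      exact hf
    have hrange : Set.range (Fin.snoc b f : Fin (n + 1) → X) = insert f (Set.range b) :=
      Fin.range_snoc b f
    refine ⟨n + 1, Fin.snoc b f, Fin.snoc l lam, ?_, ?_, ?_, ?_⟩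
    · rw [linearIndependent_finSnoc]
      exact ⟨hb, by rwa [hs]⟩
    · rw [hrange, span_insert, hs, sup_comm]
    · intro i
      refine Fin.lastCases ?_ (fun i => ?_) i
      · intro g
        rw [Fin.snoc_last]
        exact hl g
      · intro g
        rw [Fin.snoc_castSucc]
        exact hl' i g
    · intro i
      refine Fin.lastCases ?_ (fun i => ?_) i
      · intro g
        rw [Fin.snoc_last, Fin.snoc_last]
        have h1 := h g
        rw [← hs] at h1
        refine span_mono ?_ h1
        rintro _ ⟨k, rfl⟩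
        exact ⟨k.castSucc, Fin.castSucc_lt_last k, by rw [Fin.snoc_castSucc]⟩
      · intro g
        rw [Fin.snoc_castSucc, Fin.snoc_castSucc]
        refine span_mono ?_ (ht i g)
        rintro _ ⟨k, hk, rfl⟩
        exact ⟨k.castSucc, Fin.castSucc_lt_castSucc_iff.2 hk, by rw [Fin.snoc_castSucc]⟩

end TriS

/-! ### Representative functions -/

section Rep

variable (K) (H : Type*) [Group H]

/-- the right translations of functions -/
def rt : Representation K H (H → K) where
  toFun g :=
    { toFun := fun f x => f (x * g)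
      map_add' := fun _ _ => rfl
      map_smul' := fun _ _ => rfl }
  map_one' := by
    ext f x
    simp
  map_mul' g h := by
    ext f x
    simp [mul_assoc]

variable {K H}

theorem rt_apply (g : H) (f : H → K) (x : H) : rt K H g f x = f (x * g) := rfl

/-- the representative functions -/
def Orep (Lam : Subgroup Kˣ) (H : Type*) [Group H] : Submodule K (H → K) where
  carrier := {f | ∃ F, TriS Lam (rt K H) F ∧ f ∈ F}
  zero_mem' := ⟨⊥, TriS.bot, zero_mem _⟩
  add_mem' := by
    rintro f f' ⟨F, h1, h2⟩ ⟨F', h3, h4⟩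
    exact ⟨F ⊔ F', h1.sup h3, add_mem (mem_sup_left h2) (mem_sup_right h4)⟩
  smul_mem' := by
    rintro c f ⟨F, h1, h2⟩
    exact ⟨F, h1, smul_mem _ _ h2⟩

variable {Lam : Subgroup Kˣ}

theorem Orep_comp {H' : Type*} [Group H'] (φ : H' →* H) {f : H → K} (hf : f ∈ Orep Lam H) :
    (fun x => f (φ x)) ∈ Orep Lam H' := by
  obtain ⟨F, h1, h2⟩ := hf
  refine ⟨F.map (LinearMap.funLeft K K φ), TriS.map φ _ (fun g f => ?_) h1,
    mem_map_of_mem (f := LinearMap.funLeft K K φ) h2⟩
  funext x
  rw [rt_apply, LinearMap.funLeft_apply, LinearMap.funLeft_apply, rt_apply, map_mul]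

private theorem mul_step {F G : Submodule K (H → K)} (hG : TriS Lam (rt K H) G) {f : H → K}
    {lam : H →* Kˣ} (hl : ∀ g, lam g ∈ Lam) (h : ∀ g, rt K H g f - (lam g : K) • f ∈ F)
    (hFG : TriS Lam (rt K H) (F * G)) : ∀ G' : Submodule K (H → K), TriS Lam (rt K H) G' → G' ≤ G →
      TriS Lam (rt K H) (F * G ⊔ span K {f} * G') := by
  intro G' hG'
  induction hG' with
  | bot =>
    intro _
    rwa [Submodule.mul_bot, sup_bot_eq]
  | step G' g mu hm hg _ ih =>
    intro hle
    have hg' : g ∈ G := hle (mem_sup_right (mem_span_singleton_self g))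
    rw [Submodule.mul_sup, ← sup_assoc, span_mul_span, Set.singleton_mul_singleton]
    refine TriS.step _ (f * g) (lam * mu) (fun x => mul_mem (hl x) (hm x))
      (fun x => ?_) (ih (le_sup_left.trans hle))
    have e : rt K H x (f * g) - (((lam * mu) x : Kˣ) : K) • (f * g) =
        (rt K H x f - (lam x : K) • f) * rt K H x g +
          ((lam x : K) • f) * (rt K H x g - (mu x : K) • g) := by
      funext y
      simp only [rt_apply, Pi.sub_apply, Pi.mul_apply, Pi.smul_apply, Pi.add_apply, smul_eq_mul,
        MonoidHom.mul_apply, Units.val_mul]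
      ring
    rw [e]
    refine add_mem (mem_sup_left (mul_mem_mul (h x) (hG.stable x g hg'))) (mem_sup_right ?_)
    exact mul_mem_mul (smul_mem _ _ (mem_span_singleton_self f)) (hg x)

theorem TriS.mul {F G : Submodule K (H → K)} (hF : TriS Lam (rt K H) F) (hG : TriS Lam (rt K H) G) :
    TriS Lam (rt K H) (F * G) := by
  induction hF with
  | bot =>
    rw [Submodule.bot_mul]
    exact TriS.bot
  | step F f lam hl h _ ih =>
    rw [Submodule.sup_mul]
    exact mul_step hG hl h ih G hG le_rfl

theorem Orep_mul {f f' : H → K} (hf : f ∈ Orep Lam H) (hf' : f' ∈ Orep Lam H) :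
    (fun x => f x * f' x) ∈ Orep Lam H := by
  obtain ⟨F, h1, h2⟩ := hf
  obtain ⟨F', h3, h4⟩ := hf'
  exact ⟨F * F', h1.mul h3, mul_mem_mul h2 h4⟩

/-- a representative function modulo representative functions -/
theorem Orep_of_step {f : H → K} {lam : H →* Kˣ} (hl : ∀ g, lam g ∈ Lam) {F : Submodule K (H → K)}
    (hF : TriS Lam (rt K H) F) (h : ∀ g, rt K H g f - (lam g : K) • f ∈ F) : f ∈ Orep Lam H :=
  ⟨F ⊔ span K {f}, TriS.step F f lam hl h hF, mem_sup_right (mem_span_singleton_self f)⟩

/-- finitely many representative functions are in one triangular space -/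
theorem exists_triO {ι : Type*} [Finite ι] (f : ι → H → K) (hf : ∀ i, f i ∈ Orep Lam H) :
    ∃ F, TriS Lam (rt K H) F ∧ ∀ i, f i ∈ F := by
  classical
  have := Fintype.ofFinite ι
  have key : ∀ s : Finset ι, ∃ F, TriS Lam (rt K H) F ∧ ∀ i ∈ s, f i ∈ F := by
    intro s
    induction s using Finset.induction_on with
    | empty => exact ⟨⊥, TriS.bot, fun i hi => absurd hi (Finset.notMem_empty i)⟩
    | insert i s _ ih =>
      obtain ⟨F, h1, h2⟩ := ih
      obtain ⟨F', h3, h4⟩ := hf i
      refine ⟨F ⊔ F', h1.sup h3, fun k hk => ?_⟩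
      rcases Finset.mem_insert.1 hk with rfl | hk
      · exact mem_sup_right h4
      · exact mem_sup_left (h2 k hk)
  obtain ⟨F, h1, h2⟩ := key Finset.univ
  exact ⟨F, h1, fun i => h2 i (Finset.mem_univ i)⟩

end Rep

/-! ### The matrix of a triangular basis -/

section Mat

variable {H : Type*} [Group H] {X : Type*} [AddCommGroup X] [Module K X] {Lam : Subgroup Kˣ}
  {ρ : Representation K H X}

/-- The matrix `a g` of `ρ g` for the triangular basis `f`. -/
structure TMat (Lam : Subgroup Kˣ) (ρ : Representation K H X) {n : ℕ} (f : Fin n → X)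
    (a : H → Fin n → Fin n → K) : Prop where
  li : LinearIndependent K f
  apply : ∀ g i, ρ g (f i) = ∑ j, a g j i • f j
  tri : ∀ g j i, i < j → a g j i = 0
  diag : ∀ i, ∃ lam : H →* Kˣ, (∀ g, lam g ∈ Lam) ∧ ∀ g, a g i i = (lam g : K)

theorem TriS.exists_tmat {F : Submodule K X} (hF : TriS Lam ρ F) :
    ∃ (n : ℕ) (f : Fin n → X) (a : H → Fin n → Fin n → K), TMat Lam ρ f a ∧
      span K (Set.range f) = F := by
  obtain ⟨n, f, lam, hf, hs, hl, ht⟩ := hF.exists_basis
  have hex : ∀ g i, ∃ c : Fin n → K, ρ g (f i) = ∑ j, c j • f j ∧ (∀ j, i < j → c j = 0) ∧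
      c i = lam i g := by
    intro g i
    have h1 := ht i g
    rw [Finsupp.mem_span_image_iff_linearCombination] at h1
    obtain ⟨l, hl1, hl2⟩ := h1
    refine ⟨fun j => l j + if j = i then (lam i g : K) else 0, ?_, fun j hj => ?_, ?_⟩
    · simp only [add_smul, Finset.sum_add_distrib, ite_smul, zero_smul, Finset.sum_ite_eq',
        Finset.mem_univ, if_true]
      rw [← sub_eq_iff_eq_add, ← hl2, Finsupp.linearCombination_apply, Finsupp.sum_fintype]
      intro j
      rw [zero_smul]
    · simp only [if_neg hj.ne', add_zero]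
      by_contra hne
      have := hl1 (Finsupp.mem_support_iff.2 hne)
      exact absurd this (not_lt.2 hj.le)
    · simp only [if_true]
      have : l i = 0 := by
        by_contra hne
        have := hl1 (Finsupp.mem_support_iff.2 hne)
        exact absurd this (lt_irrefl i)
      rw [this, zero_add]
  choose c hc1 hc2 hc3 using hex
  exact ⟨n, f, fun g j i => c g i j, ⟨hf, hc1, fun g j i h => hc2 g i j h,
    fun i => ⟨lam i, hl i, fun g => hc3 g i⟩⟩, hs⟩

variable {n : ℕ} {f : Fin n → X} {a : H → Fin n → Fin n → K}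

theorem TMat.eq_of_sum (h : TMat Lam ρ f a) {c c' : Fin n → K}
    (hc : ∑ j, c j • f j = ∑ j, c' j • f j) : c = c' := by
  have h1 : ∑ j, (c j - c' j) • f j = 0 := by
    simp only [sub_smul, Finset.sum_sub_distrib, hc, sub_self]
  funext j
  have := Fintype.linearIndependent_iff.1 h.li _ h1 j
  exact sub_eq_zero.1 this

theorem TMat.mul (h : TMat Lam ρ f a) (g g' : H) (j i : Fin n) :
    a (g * g') j i = ∑ k, a g j k * a g' k i := by
  have e : ∑ j, a (g * g') j i • f j = ∑ j, (∑ k, a g j k * a g' k i) • f j := by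
    rw [← h.apply, map_mul]
    change ρ g (ρ g' (f i)) = _
    rw [h.apply g' i, map_sum]
    simp only [map_smul, h.apply g, Finset.smul_sum, smul_smul, Finset.sum_smul]
    rw [Finset.sum_comm]
    refine Finset.sum_congr rfl fun j _ => Finset.sum_congr rfl fun k _ => ?_
    rw [mul_comm]
  exact congrFun (h.eq_of_sum e) j

end Mat

section Inv

variable {H : Type*} [Group H] {Lam : Subgroup Kˣ} {n : ℕ}

/-- the matrix entries are representative -/
theorem TMat.entry {X : Type*} [AddCommGroup X] [Module K X] {ρ : Representation K H X}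
    {f : Fin n → X} {a : H → Fin n → Fin n → K} (h : TMat Lam ρ f a) (j i : Fin n) :
    (fun g => a g j i) ∈ Orep Lam H := by
  choose u hu1 hu2 using h.diag
  refine ⟨_, TriS.family (Lam := Lam) (ρ := rt K H) (fun i : Fin n => (i : ℕ))
    (fun i g => a g j i) u hu1 (fun i g => ?_),
    subset_span ⟨i, rfl⟩⟩
  have e : rt K H g (fun x => a x j i) - (u i g : K) • (fun x => a x j i) =
      ∑ k ∈ Finset.univ.filter (fun k => k < i), a g k i • fun x => a x j k := by
    funext x
    rw [Pi.sub_apply, rt_apply, h.mul, Finset.sum_apply, Pi.smul_apply, smul_eq_mul, ← hu2,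
      Finset.sum_filter, sub_eq_iff_eq_add]
    have e2 : ∀ k, a x j k * a g k i = (if k < i then (a g k i • fun x => a x j k) x else 0) +
        if k = i then a g i i * a x j i else 0 := by
      intro k
      rcases lt_trichotomy k i with hk | hk | hk
      · rw [if_pos hk, if_neg hk.ne, add_zero, Pi.smul_apply, smul_eq_mul, mul_comm]
      · subst hk
        rw [if_neg (lt_irrefl _), if_pos rfl, zero_add, mul_comm]
      · rw [if_neg (not_lt.2 hk.le), if_neg hk.ne', h.tri g k i hk, mul_zero, add_zero]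
    rw [Finset.sum_congr rfl fun k _ => e2 k, Finset.sum_add_distrib, Finset.sum_ite_eq',
      if_pos (Finset.mem_univ i)]
  rw [e]
  refine sum_mem fun k hk => smul_mem _ _ (subset_span ⟨k, ?_, rfl⟩)
  exact Fin.lt_def.1 (Finset.mem_filter.1 hk).2

/-- the entries of the inverse matrix are representative -/
theorem TMat.entry_inv {X : Type*} [AddCommGroup X] [Module K X] {ρ : Representation K H X}
    {f : Fin n → X} {a : H → Fin n → Fin n → K} (h : TMat Lam ρ f a) (j i : Fin n) :
    (fun g => a g⁻¹ j i) ∈ Orep Lam H := by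
  choose u hu1 hu2 using h.diag
  refine ⟨_, TriS.family (Lam := Lam) (ρ := rt K H) (fun j : Fin n => n - (j : ℕ))
    (fun j g => a g⁻¹ j i) (fun j => (u j)⁻¹) (fun j g => inv_mem (hu1 j g)) (fun j g => ?_),
    subset_span ⟨j, rfl⟩⟩
  have hu3 : ((((u j)⁻¹ : H →* Kˣ) g : Kˣ) : K) = a g⁻¹ j j := by
    rw [hu2, map_inv, MonoidHom.inv_apply]
  have e : rt K H g (fun x => a x⁻¹ j i) - ((((u j)⁻¹ : H →* Kˣ) g : Kˣ) : K) •
      (fun x => a x⁻¹ j i) =
      ∑ k ∈ Finset.univ.filter (fun k => j < k), a g⁻¹ j k • fun x => a x⁻¹ k i := by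
    funext x
    rw [Pi.sub_apply, rt_apply, mul_inv_rev, h.mul, Finset.sum_apply, Pi.smul_apply, smul_eq_mul,
      hu3, Finset.sum_filter, sub_eq_iff_eq_add]
    have e2 : ∀ k, a g⁻¹ j k * a x⁻¹ k i =
        (if j < k then (a g⁻¹ j k • fun x => a x⁻¹ k i) x else 0) +
        if k = j then a g⁻¹ j j * a x⁻¹ j i else 0 := by
      intro k
      rcases lt_trichotomy j k with hk | hk | hk
      · rw [if_pos hk, if_neg hk.ne', add_zero, Pi.smul_apply, smul_eq_mul]
      · subst hk
        rw [if_neg (lt_irrefl _), if_pos rfl, zero_add]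
      · rw [if_neg (not_lt.2 hk.le), if_neg hk.ne, h.tri g⁻¹ j k hk, zero_mul, add_zero]
    rw [Finset.sum_congr rfl fun k _ => e2 k, Finset.sum_add_distrib, Finset.sum_ite_eq',
      if_pos (Finset.mem_univ j)]
  rw [e]
  refine sum_mem fun k hk => smul_mem _ _ (subset_span ⟨k, ?_, rfl⟩)
  have h1 := Fin.lt_def.1 (Finset.mem_filter.1 hk).2
  have h2 := k.2
  change n - (k : ℕ) < n - (j : ℕ)
  omega

theorem Orep_inv {f : H → K} (hf : f ∈ Orep Lam H) : (fun x => f x⁻¹) ∈ Orep Lam H := by
  obtain ⟨F, h1, h2⟩ := hf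
  obtain ⟨n, b, a, hb, hs⟩ := h1.exists_tmat
  rw [← hs] at h2
  obtain ⟨c, rfl⟩ := (mem_span_range_iff_exists_fun K).1 h2
  have e : (fun x => (∑ i, c i • b i) x⁻¹) = ∑ i, ∑ j, (c i * b j 1) • fun x => a x⁻¹ j i := by
    funext x
    rw [Finset.sum_apply, Finset.sum_apply]
    refine Finset.sum_congr rfl fun i _ => ?_
    rw [Finset.sum_apply, Pi.smul_apply, smul_eq_mul]
    have h3 := congrFun (hb.apply x⁻¹ i) 1
    rw [rt_apply, one_mul, Finset.sum_apply] at h3
    rw [h3, Finset.mul_sum]
    refine Finset.sum_congr rfl fun j _ => ?_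
    rw [Pi.smul_apply, Pi.smul_apply, smul_eq_mul, smul_eq_mul]
    ring
  rw [e]
  exact sum_mem fun i _ => sum_mem fun j _ => smul_mem _ _ (hb.entry_inv j i)

end Inv

/-! ### Cocycles -/

/-- The decomposition of a cocycle with values in the representative functions. -/
theorem decomp {Γ H : Type*} [Group Γ] [Group H] [Group.FG H] {Lam : Subgroup Kˣ} (j : H →* Γ)
    (c : H → Γ → K) (hc : ∀ g h x, c (g * h) x = c g x + c h (x * j g))
    (hO : ∀ g, c g ∈ Orep Lam Γ) : ∃ (n : ℕ) (α : Fin n → H → K) (f : Fin n → Γ → K),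
      (∀ i, α i ∈ Orep Lam H) ∧ (∀ i, f i ∈ Orep Lam Γ) ∧
      ∀ g x, c g x = ∑ i, α i g * f i x := by
  classical
  obtain ⟨S, hS, hfin⟩ := Group.fg_iff.1 (inferInstance : Group.FG H)
  have := hfin.to_subtype
  obtain ⟨F, hF, hSF⟩ := exists_triO (fun s : S => c s) fun s => hO s
  have h1 : c 1 = 0 := by
    funext x
    have := hc 1 1 x
    rw [mul_one, map_one, mul_one] at this
    rw [Pi.zero_apply]
    exact left_eq_add.1 this
  have hmul : ∀ g h, c (g * h) = c g + rt K Γ (j g) (c h) := fun g h => funext fun x => hc g h x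
  have hcF : ∀ g, c g ∈ F := by
    intro g
    have hg : g ∈ Subgroup.closure S := by rw [hS]; exact Subgroup.mem_top g
    induction hg using Subgroup.closure_induction with
    | mem x hx => exact hSF ⟨x, hx⟩
    | one => rw [h1]; exact zero_mem F
    | mul x y _ _ hx hy =>
      rw [hmul]
      exact add_mem hx (hF.stable _ _ hy)
    | inv x _ hx =>
      have h2 := hmul x⁻¹ x
      rw [inv_mul_cancel, h1] at h2
      have h3 : c x⁻¹ = - rt K Γ (j x⁻¹) (c x) := by
        rw [eq_neg_iff_add_eq_zero]
        exact h2.symm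
      rw [h3]
      exact neg_mem (hF.stable _ _ hx)
  obtain ⟨n, f, a, hm, hs⟩ := hF.exists_tmat
  have hex : ∀ g, ∃ α : Fin n → K, ∑ i, α i • f i = c g := by
    intro g
    have := hcF g
    rw [← hs] at this
    exact (mem_span_range_iff_exists_fun K).1 this
  choose α hα using hex
  refine ⟨n, fun i g => α g i, f, fun i => ?_, fun i => ⟨F, hF, ?_⟩, fun g x => ?_⟩
  · obtain ⟨E, hE, hE'⟩ := exists_triO (Lam := Lam) (fun k g => a (j g) i k) fun k =>
      Orep_comp j (hm.entry i k)
    refine Orep_of_step (lam := 1) (fun _ => one_mem _) hE fun g => ?_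
    have e : rt K H g (fun g => α g i) - (((1 : H →* Kˣ) g : Kˣ) : K) • (fun g => α g i) =
        ∑ k, α g k • fun g => a (j g) i k := by
      funext h
      rw [MonoidHom.one_apply, Units.val_one, one_smul, Pi.sub_apply, rt_apply, Finset.sum_apply,
        sub_eq_iff_eq_add]
      have h2 : α (h * g) = fun i => α h i + ∑ k, a (j h) i k * α g k := by
        refine hm.eq_of_sum ?_
        rw [hα, hmul h g, ← hα h, ← hα g, map_sum]
        simp only [map_smul, hm.apply, add_smul, Finset.sum_add_distrib, Finset.sum_smul,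
          Finset.smul_sum, smul_smul]
        congr 1
        rw [Finset.sum_comm]
        refine Finset.sum_congr rfl fun i _ => Finset.sum_congr rfl fun k _ => ?_
        rw [mul_comm]
      have h3 : α (h * g) i = α h i + ∑ k, a (j h) i k * α g k := congrFun h2 i
      have h4 : ∑ k, a (j h) i k * α g k = ∑ k, (α g k • fun g => a (j g) i k) h :=
        Finset.sum_congr rfl fun k _ => by rw [Pi.smul_apply, smul_eq_mul, mul_comm]
      rw [h4] at h3
      exact h3.trans (add_comm _ _)
    rw [e]
    exact Submodule.sum_mem _ fun k _ => smul_mem _ _ (hE' k)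
  · rw [← hs]
    exact subset_span ⟨i, rfl⟩
  · rw [← hα g, Finset.sum_apply]
    rfl

end Pool.Agent.S9

end
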