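import Pool.Agent.H71.TSG.H85.VK.Order
import Pool.Agent.H71.TSG.M04

/-! The parts of this file: H85.VK.Final, H77.SW.Comb, H77.SW.Key. -/

section

/-!
# Project VK: the main theorem
-/

set_option autoImplicit false
set_option linter.unusedSectionVars false

open Finset

namespace Pool.Agent.H85.VK

variable {V : Type} [DecidableEq V] [Fintype V] {k : ℕ}

open Classical in
/-- the obstruction vanishes for every numbering if it vanishes for one -/
theorem vanKampen_all {G : SimpleGraph V} (h : VanKampenZero G k) {ν' : V → ℕ}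
    (hν' : Function.Injective ν') : ∃ g : Finset V → Finset V → ZMod 2,
    ∀ σ τ : Finset V, G.IsClique (σ : Set V) → σ.card = k + 1 → G.IsClique (τ : Set V) →
      τ.card = k + 1 → Disjoint σ τ →
      (if Interlace ν' σ τ then (1 : ZMod 2) else 0) =
        ∑ v ∈ τ, g σ (τ.erase v) + ∑ v ∈ σ, g τ (σ.erase v) := by
  obtain ⟨ν, hν, g, hg⟩ := h
  obtain ⟨H, hH⟩ := interlace_change hν hν' k
  refine ⟨fun σ ρ => g σ ρ + H σ ρ, fun σ τ h1 h2 h3 h4 h5 => ?_⟩
  have h6 := hg σ τ h1 h2 h3 h4 h5
  have h7 := hH σ τ h5 h2 h4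
  simp only [sum_add_distrib]
  rw [h7, h6]
  ring

end Pool.Agent.H85.VK

end

section

/-!
# Singer without colours: the combinatorial core
-/

set_option autoImplicit false
set_option linter.unusedSectionVars false

open Finset

namespace Pool.Agent.H77.SW

open Pool.Agent.H85.VK

variable {V : Type} [DecidableEq V] [Fintype V] {K : Type} [Field K] [CharP K 2]

/-! ### Two copies of the vertices -/

/-- the numbering of two copies of the vertices -/
private def Comb_num (ν : V → ℕ) (x : V × Bool) : ℕ := 2 * ν x.1 + (if x.2 then 1 else 0)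

/-- the first copy has value true -/
private def Comb_chi (x : V × Bool) : Bool := !x.2

/-- the first set in the first copy, the second one in the second copy -/
private def Comb_U (σ τ : Finset V) : Finset (V × Bool) :=
  σ.image (fun v => (v, false)) ∪ τ.image (fun v => (v, true))

/-- the alternating pairs of sets (possibly with common elements) -/
private noncomputable def Comb_E (ν : V → ℕ) (b : Bool) (σ τ : Finset V) : ZMod 2 :=
  altF (Comb_num ν) Comb_chi b (Comb_U σ τ)

omit [DecidableEq V] [Fintype V] in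
private theorem Comb_num_inj {ν : V → ℕ} (hν : Function.Injective ν) :
    Function.Injective (Comb_num ν) := by
  rintro ⟨x, a⟩ ⟨y, b⟩ h
  simp only [Comb_num] at h
  have h1 : ν x = ν y ∧ a = b := by
    cases a <;> cases b <;> simp at h ⊢ <;> omega
  rw [hν h1.1, h1.2]

omit [Fintype V] in
private theorem Comb_mem_U {σ τ : Finset V} {x : V × Bool} :
    x ∈ Comb_U σ τ ↔ (x.2 = false ∧ x.1 ∈ σ) ∨ (x.2 = true ∧ x.1 ∈ τ) := by
  obtain ⟨v, b⟩ := x
  unfold Comb_U
  rw [mem_union, mem_image, mem_image]
  constructor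
  · rintro (⟨w, hw, h⟩ | ⟨w, hw, h⟩)
    · simp only [Prod.mk.injEq] at h
      exact Or.inl ⟨h.2.symm, h.1 ▸ hw⟩
    · simp only [Prod.mk.injEq] at h
      exact Or.inr ⟨h.2.symm, h.1 ▸ hw⟩
  · rintro (⟨h1, h2⟩ | ⟨h1, h2⟩)
    · exact Or.inl ⟨v, h2, Prod.ext rfl h1.symm⟩
    · exact Or.inr ⟨v, h2, Prod.ext rfl h1.symm⟩

omit [Fintype V] in
private theorem Comb_E_sum {ν : V → ℕ} (hν : Function.Injective ν) (σ τ : Finset V) :
    ∑ v ∈ σ, Comb_E ν true (σ.erase v) τ + ∑ v ∈ τ, Comb_E ν true σ (τ.erase v) =
      Comb_E ν true σ τ + Comb_E ν false σ τ := by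
  have h := altF_sum_erase (Comb_num_inj hν) Comb_chi (Comb_U σ τ) true
  rw [Bool.not_true] at h
  unfold Comb_E
  rw [← h]
  have h1 : ∀ F : V × Bool → ZMod 2, ∑ x ∈ Comb_U σ τ, F x =
      ∑ v ∈ σ, F (v, false) + ∑ v ∈ τ, F (v, true) := by
    intro F
    unfold Comb_U
    rw [sum_union, sum_image, sum_image]
    · intro a _ b _ hab
      exact (Prod.mk.inj hab).1
    · intro a _ b _ hab
      exact (Prod.mk.inj hab).1
    · rw [disjoint_left]
      intro x hx hx'
      rw [mem_image] at hx hx'
      obtain ⟨a, _, rfl⟩ := hx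
      obtain ⟨b, _, hb⟩ := hx'
      exact absurd (Prod.mk.inj hb).2 (by decide)
  rw [h1]
  congr 1
  · refine sum_congr rfl fun v _ => ?_
    congr 1
    ext ⟨x, b⟩
    rw [mem_erase, Comb_mem_U, Comb_mem_U, mem_erase]
    cases b <;> simp
  · refine sum_congr rfl fun v _ => ?_
    congr 1
    ext ⟨x, b⟩
    rw [mem_erase, Comb_mem_U, Comb_mem_U, mem_erase]
    cases b <;> simp

omit [Fintype V] in
private theorem Comb_altF_image {W : Type} [DecidableEq W] {ν : V → ℕ} {ν' : W → ℕ}
    {χ : W → Bool} (f : V → W) {b : Bool} {P : Finset V}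
    (hf : ∀ x ∈ P, ∀ y ∈ P, ν' (f x) < ν' (f y) ↔ ν x < ν y) :
    altF ν' χ b (P.image f) = altF ν (fun v => χ (f v)) b P := by
  have h : AltP ν' χ b (P.image f) ↔ AltP ν (fun v => χ (f v)) b P := by
    constructor
    · rintro ⟨h1, h2⟩
      refine ⟨fun x hx y hy hxy hc => h1 (f x) (mem_image_of_mem f hx) (f y)
        (mem_image_of_mem f hy) ((hf x hx y hy).2 hxy) fun w hw hw' => ?_, fun x hx hm =>
        h2 (f x) (mem_image_of_mem f hx) fun w hw => ?_⟩
      · obtain ⟨z, hz, rfl⟩ := mem_image.1 hw
        exact hc z hz ⟨(hf x hx z hz).1 hw'.1, (hf z hz y hy).1 hw'.2⟩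
      · obtain ⟨z, hz, rfl⟩ := mem_image.1 hw
        by_contra hlt
        have := (hf z hz x hx).1 (not_le.1 hlt)
        exact absurd (hm z hz) (not_le.2 this)
    · rintro ⟨h1, h2⟩
      constructor
      · intro x' hx' y' hy' hxy hc
        obtain ⟨x, hx, rfl⟩ := mem_image.1 hx'
        obtain ⟨y, hy, rfl⟩ := mem_image.1 hy'
        exact h1 x hx y hy ((hf x hx y hy).1 hxy) fun z hz hz' =>
          hc (f z) (mem_image_of_mem f hz) ⟨(hf x hx z hz).2 hz'.1, (hf z hz y hy).2 hz'.2⟩
      · intro x' hx' hm
        obtain ⟨x, hx, rfl⟩ := mem_image.1 hx'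
        refine h2 x hx fun z hz => ?_
        by_contra hlt
        have := (hf z hz x hx).2 (not_le.1 hlt)
        exact absurd (hm (f z) (mem_image_of_mem f hz)) (not_le.2 this)
  unfold altF
  by_cases h1 : AltP ν' χ b (P.image f)
  · rw [if_pos h1, if_pos (h.1 h1)]
  · rw [if_neg h1, if_neg fun h2 => h1 (h.2 h2)]

omit [Fintype V] in
private theorem Comb_E_disj {ν : V → ℕ} (hν : Function.Injective ν) (b : Bool) {σ τ : Finset V}
    (h : Disjoint σ τ) :
    Comb_E ν b σ τ = altF ν (fun v => decide (v ∈ σ)) b (σ ∪ τ) := by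
  have hU : Comb_U σ τ = (σ ∪ τ).image fun v => (v, !decide (v ∈ σ)) := by
    ext ⟨x, c⟩
    rw [Comb_mem_U, mem_image]
    constructor
    · rintro (⟨h1, h2⟩ | ⟨h1, h2⟩)
      · refine ⟨x, mem_union_left _ h2, ?_⟩
        simp only at h1
        simp only at h2
        simp [h1, h2]
      · simp only at h1
        simp only at h2
        have h3 : x ∉ σ := fun h3 => disjoint_left.1 h h3 h2
        refine ⟨x, mem_union_right _ h2, ?_⟩
        simp [h1, h3]
    · rintro ⟨y, hy, hyx⟩
      obtain ⟨rfl, h2⟩ := Prod.mk.inj hyx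
      by_cases h3 : y ∈ σ
      · refine Or.inl ⟨?_, h3⟩
        simp [← h2, h3]
      · rcases mem_union.1 hy with h4 | h4
        · exact absurd h4 h3
        · refine Or.inr ⟨?_, h4⟩
          simp [← h2, h3]
  unfold Comb_E
  rw [hU, Comb_altF_image (ν := ν)]
  · refine altF_congr fun x _ => ?_
    simp [Comb_chi]
  · intro x _ y _
    simp only [Comb_num]
    constructor
    · intro hlt
      by_contra hge
      rcases Nat.lt_or_ge (ν y) (ν x) with h5 | h5
      · split_ifs at hlt <;> omega
      · have : x = y := hν (by omega)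
        subst this
        omega
    · intro hlt
      split_ifs <;> omega

omit [Fintype V] in
private theorem Comb_E_true {ν : V → ℕ} (hν : Function.Injective ν) {σ τ : Finset V}
    (h : Disjoint σ τ) : Comb_E ν true σ τ = eP ν σ τ := by
  rw [Comb_E_disj hν true h]
  rfl

omit [Fintype V] in
private theorem Comb_E_false {ν : V → ℕ} (hν : Function.Injective ν) {σ τ : Finset V}
    (h : Disjoint σ τ) : Comb_E ν false σ τ = Comb_E ν true τ σ := by
  rw [Comb_E_disj hν false h, Comb_E_disj hν true h.symm, ← altF_not ν _ false, union_comm τ σ]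
  refine altF_congr fun x hx => ?_
  rcases mem_union.1 hx with h1 | h1
  · have h2 : x ∉ τ := disjoint_left.1 h h1
    simp [h1, h2]
  · have h2 : x ∉ σ := fun h2 => disjoint_left.1 h h2 h1
    simp [h1, h2]

omit [Fintype V] in
private theorem Comb_E_insert {ν : V → ℕ} (b : Bool) (u : V) {σ τ : Finset V}
    (h1 : ∀ x ∈ σ, ν u < ν x) (h2 : ∀ x ∈ τ, ν u < ν x) :
    Comb_E ν b (insert u σ) (insert u τ) = if b = true then Comb_E ν true σ τ else 0 := by
  have hU : Comb_U (insert u σ) (insert u τ) =
      insert (u, false) (insert (u, true) (Comb_U σ τ)) := by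
    ext ⟨x, c⟩
    rw [Comb_mem_U]
    simp only [mem_insert, Comb_mem_U, Prod.mk.injEq]
    cases c <;> simp
  have h3 : ∀ x ∈ Comb_U σ τ, Comb_num ν (u, true) < Comb_num ν x := by
    rintro ⟨x, c⟩ hx
    rw [Comb_mem_U] at hx
    have h4 : ν u < ν x := by
      rcases hx with ⟨_, hx⟩ | ⟨_, hx⟩
      · exact h1 x hx
      · exact h2 x hx
    simp only [Comb_num]
    split_ifs <;> omega
  have h4 : ∀ x ∈ insert (u, true) (Comb_U σ τ), Comb_num ν (u, false) < Comb_num ν x := by
    intro x hx
    have h5 : Comb_num ν (u, false) < Comb_num ν (u, true) := by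
      simp [Comb_num]
    rcases mem_insert.1 hx with rfl | hx
    · exact h5
    · exact h5.trans (h3 x hx)
  unfold Comb_E
  rw [hU, altF_insert _ _ _ _ h4]
  cases b
  · simp [Comb_chi]
  · rw [if_pos (show Comb_chi (u, false) = true from rfl), altF_insert _ _ _ _ h3,
      if_pos (show Comb_chi (u, true) = !true from rfl), if_pos rfl, Bool.not_not]

omit [Fintype V] in
private theorem Comb_E_empty (ν : V → ℕ) : Comb_E ν true ∅ ∅ = 1 := by
  unfold Comb_E altF
  refine if_pos ?_
  have h : Comb_U (∅ : Finset V) ∅ = ∅ := by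
    unfold Comb_U
    simp
  rw [h]
  exact altP_empty _ _ _

/-! ### Reindexing -/

private theorem Comb_reindex (ρ : Finset V) (F : Finset V → Finset V → K) :
    ∑ σ : Finset V, (if ρ ⊆ σ then ∑ v ∈ σ \ ρ, F (σ.erase v) σ else 0) =
      ∑ κ : Finset V, (if ρ ⊆ κ then ∑ v ∈ κᶜ, F κ (insert v κ) else 0) := by
  rw [← sum_filter, ← sum_filter, sum_sigma', sum_sigma']
  refine sum_bij' (fun p _ => ⟨p.1.erase p.2, p.2⟩) (fun p _ => ⟨insert p.2 p.1, p.2⟩)
    ?_ ?_ ?_ ?_ ?_
  · rintro ⟨σ, v⟩ h
    simp only [mem_sigma, mem_filter, mem_univ, true_and, mem_sdiff, mem_compl] at h ⊢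
    refine ⟨fun x hx => mem_erase.2 ⟨?_, h.1 hx⟩, notMem_erase v σ⟩
    rintro rfl
    exact h.2.2 hx
  · rintro ⟨κ, v⟩ h
    simp only [mem_sigma, mem_filter, mem_univ, true_and, mem_sdiff, mem_compl] at h ⊢
    exact ⟨fun x hx => mem_insert_of_mem (h.1 hx), mem_insert_self v κ, fun hv => h.2 (h.1 hv)⟩
  · rintro ⟨σ, v⟩ h
    simp only [mem_sigma, mem_filter, mem_univ, true_and, mem_sdiff] at h ⊢
    rw [insert_erase h.2.1]
  · rintro ⟨κ, v⟩ h
    simp only [mem_sigma, mem_filter, mem_univ, true_and, mem_compl] at h ⊢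
    rw [erase_insert h.2]
  · rintro ⟨σ, v⟩ h
    simp only [mem_sigma, mem_filter, mem_univ, true_and, mem_sdiff] at h ⊢
    rw [insert_erase h.2.1]

private theorem Comb_zero (ρ : Finset V) (e q : Finset V → K)
    (hq : ∀ κ, ∑ v ∈ κᶜ, q (insert v κ) = 0) :
    ∑ σ : Finset V, (if ρ ⊆ σ then (∑ v ∈ σ \ ρ, e ((σ \ ρ).erase v)) * q σ else 0) = 0 := by
  have h := Comb_reindex ρ fun κ σ => e (κ \ ρ) * q σ
  simp only [← mul_sum, hq, mul_zero, ite_self, sum_const_zero] at h
  refine Eq.trans (sum_congr rfl fun σ _ => ?_) h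
  split_ifs
  · rw [sum_mul]
    refine sum_congr rfl fun v _ => ?_
    rw [erase_sdiff_comm]
  · rfl

/-- **The combinatorial core.** `s` consists of the first `k + 1` vertices in the numbering `ν`,
`ρ_j` is the set of the first `j` vertices.

Proof (note 3772, L5). On `V × Bool` with the numbering `2 * ν v + b` and `χ (v, b) = !b` put
`E b σ τ = altF _ χ b (σ × {false} ∪ τ × {true})`. `altF_sum_erase` gives
`E true σ τ + E false σ τ = ∑ v ∈ σ, E true (σ.erase v) τ + ∑ v ∈ τ, E true σ (τ.erase v)`; so for each `j ≤ k`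
`∑ σ ⊇ ρ_j, ∑ τ ⊇ ρ_j, (E true (σ \ ρ_j) (τ \ ρ_j) + E false (σ \ ρ_j) (τ \ ρ_j)) * Q (j + 1) σ τ = 0`
by `lin1`, `lin2`. By `hB` only the pairs with `σ ∩ τ = ρ_j` or `ρ_{j+1}` contribute. In the first
case `E false σ' τ' = E true τ' σ' = eP ν τ' σ'` (`σ'`, `τ'` are disjoint) and `hC` applies; in the second
case the vertex with number `j` is the first one of both sets and `E false = 0`,
`E true (insert u σ'') (insert u τ'') = E true σ'' τ''` (`altF_insert` twice). So
`J_j = ∑ σ ∩ τ = ρ_j, E true (σ \ ρ_j) (τ \ ρ_j) * Q j σ τ` does not depend on `j`, and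
`J_{k+1} = Q (k + 1) s s`. `J_0 = 0` by the hypothesis `VanKampenZero` (`vanKampen_all` for the
numbering `ν`, `eP_add_swap`, `hD`). -/
theorem comb (G : SimpleGraph V) (k : ℕ) (hvk : VanKampenZero G k) {ν : V → ℕ}
    (hν : Function.Injective ν) (s : Finset V) (hs : ∀ v, ν v < k + 1 ↔ v ∈ s)
    (hcard : s.card = k + 1) (Q : ℕ → Finset V → Finset V → K)
    (supp : ∀ j σ τ, Q j σ τ ≠ 0 → (G.IsClique (σ : Set V) ∧ σ.card = k + 1) ∧
      G.IsClique (τ : Set V) ∧ τ.card = k + 1)
    (lin1 : ∀ j κ τ, ∑ v ∈ κᶜ, Q j (insert v κ) τ = 0)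
    (lin2 : ∀ j σ κ, ∑ v ∈ κᶜ, Q j σ (insert v κ) = 0)
    (hB : ∀ j σ τ, Q j σ τ ≠ 0 → ∀ v ∈ σ, v ∈ τ → ν v < j)
    (hC : ∀ j ≤ k, ∀ σ τ, (∀ v, ν v < j → v ∈ σ ∧ v ∈ τ) →
      Q j σ τ = Q (j + 1) σ τ + Q (j + 1) τ σ)
    (hD : ∀ σ τ, Q 0 σ τ = Q 0 τ σ) : Q (k + 1) s s = 0 := by
  classical
  set c : ZMod 2 →+* K := ZMod.castHom (dvd_refl 2) K with hc
  have hK : ∀ x : K, x + x = 0 := fun x => CharTwo.add_self_eq_zero x
  set ρ : ℕ → Finset V := fun j => univ.filter fun v => ν v < j with hρ
  have hmem : ∀ j v, v ∈ ρ j ↔ ν v < j := by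
    intro j v
    simp [hρ]
  -- every number up to `k` occurs
  have hsρ : s = ρ (k + 1) := by
    ext v
    rw [hmem, hs]
  have hex : ∀ j ≤ k, ∃ u, ν u = j := by
    intro j hj
    have h1 : s.image ν = range (k + 1) := by
      refine eq_of_subset_of_card_le ?_ ?_
      · intro n hn
        obtain ⟨v, hv, rfl⟩ := mem_image.1 hn
        exact mem_range.2 ((hs v).2 hv)
      · rw [card_image_of_injective _ hν, card_range, hcard]
    have h2 : j ∈ s.image ν := by
      rw [h1]
      exact mem_range.2 (by omega)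
    obtain ⟨u, _, hu⟩ := mem_image.1 h2
    exact ⟨u, hu⟩
  set J : ℕ → K := fun j => ∑ σ : Finset V, ∑ τ : Finset V,
    if σ ∩ τ = ρ j then c (Comb_E ν true (σ \ ρ j) (τ \ ρ j)) * Q j σ τ else 0 with hJ
  -- the step
  have step : ∀ j ≤ k, J j = J (j + 1) := by
    intro j hj
    obtain ⟨u, hu⟩ := hex j hj
    have hρs : ρ (j + 1) = insert u (ρ j) := by
      ext v
      rw [mem_insert, hmem, hmem]
      constructor
      · intro h
        by_cases h1 : ν v = j
        · exact Or.inl (hν (by rw [h1, hu]))
        · exact Or.inr (by omega)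
      · rintro (rfl | h) <;> omega
    have huρ : u ∉ ρ j := by
      rw [hmem]
      omega
    have S0 : ∑ σ : Finset V, ∑ τ : Finset V, (if ρ j ⊆ σ ∧ ρ j ⊆ τ then
        c (Comb_E ν true (σ \ ρ j) (τ \ ρ j) + Comb_E ν false (σ \ ρ j) (τ \ ρ j)) *
          Q (j + 1) σ τ else 0) = 0 := by
      have h1 : ∑ σ : Finset V, ∑ τ : Finset V, (if ρ j ⊆ σ ∧ ρ j ⊆ τ then
          (∑ v ∈ σ \ ρ j, c (Comb_E ν true ((σ \ ρ j).erase v) (τ \ ρ j))) *
            Q (j + 1) σ τ else 0) = 0 := by
        rw [sum_comm]
        refine sum_eq_zero fun τ _ => ?_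
        by_cases hτ : ρ j ⊆ τ
        · simp only [hτ, and_true]
          exact Comb_zero (ρ j) (fun κ => c (Comb_E ν true κ (τ \ ρ j)))
            (fun σ => Q (j + 1) σ τ) fun κ => lin1 (j + 1) κ τ
        · simp only [hτ, and_false, if_false, sum_const_zero]
      have h2 : ∑ σ : Finset V, ∑ τ : Finset V, (if ρ j ⊆ σ ∧ ρ j ⊆ τ then
          (∑ v ∈ τ \ ρ j, c (Comb_E ν true (σ \ ρ j) ((τ \ ρ j).erase v))) *
            Q (j + 1) σ τ else 0) = 0 := by
        refine sum_eq_zero fun σ _ => ?_
        by_cases hσ : ρ j ⊆ σ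
        · simp only [hσ, true_and]
          exact Comb_zero (ρ j) (fun κ => c (Comb_E ν true (σ \ ρ j) κ))
            (fun τ => Q (j + 1) σ τ) fun κ => lin2 (j + 1) σ κ
        · simp only [hσ, false_and, if_false, sum_const_zero]
      have h3 := congrArg₂ (· + ·) h1 h2
      simp only [add_zero] at h3
      rw [← sum_add_distrib] at h3
      refine Eq.trans (sum_congr rfl fun σ _ => ?_) h3
      rw [← sum_add_distrib]
      refine sum_congr rfl fun τ _ => ?_
      split_ifs
      · rw [← Comb_E_sum hν, map_add, map_sum, map_sum, add_mul]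
      · rw [add_zero]
    have point : ∀ σ τ : Finset V, (if ρ j ⊆ σ ∧ ρ j ⊆ τ then
        c (Comb_E ν true (σ \ ρ j) (τ \ ρ j) + Comb_E ν false (σ \ ρ j) (τ \ ρ j)) *
          Q (j + 1) σ τ else 0) =
        (if σ ∩ τ = ρ j then c (Comb_E ν true (σ \ ρ j) (τ \ ρ j)) * Q (j + 1) σ τ else 0) +
        (if σ ∩ τ = ρ j then c (Comb_E ν true (τ \ ρ j) (σ \ ρ j)) * Q (j + 1) σ τ else 0) +
        (if σ ∩ τ = ρ (j + 1) then
          c (Comb_E ν true (σ \ ρ (j + 1)) (τ \ ρ (j + 1))) * Q (j + 1) σ τ else 0) := by
      intro σ τ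
      by_cases hQ : Q (j + 1) σ τ = 0
      · simp only [hQ, mul_zero, ite_self, add_zero]
      have hsub : ∀ v ∈ σ, v ∈ τ → v ∈ ρ (j + 1) := fun v h1 h2 =>
        (hmem _ _).2 (hB (j + 1) σ τ hQ v h1 h2)
      by_cases h0 : ρ j ⊆ σ ∧ ρ j ⊆ τ
      · by_cases hu' : u ∈ σ ∧ u ∈ τ
        · have h1 : σ ∩ τ = ρ (j + 1) := by
            ext v
            rw [mem_inter]
            constructor
            · rintro ⟨h1, h2⟩
              exact hsub v h1 h2
            · intro hv
              rw [hρs, mem_insert] at hv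
              rcases hv with rfl | hv
              · exact hu'
              · exact ⟨h0.1 hv, h0.2 hv⟩
          have h2 : σ ∩ τ ≠ ρ j := by
            intro h2
            rw [← h2, mem_inter] at huρ
            exact huρ hu'
          rw [if_pos h0, if_neg h2, if_neg h2, if_pos h1, zero_add, zero_add]
          have h3 : ∀ φ : Finset V, u ∈ φ → φ \ ρ j = insert u (φ \ ρ (j + 1)) := by
            intro φ hφ
            ext v
            rw [hρs]
            simp only [mem_sdiff, mem_insert, not_or]
            constructor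
            · rintro ⟨h4, h5⟩
              by_cases h6 : v = u
              · exact Or.inl h6
              · exact Or.inr ⟨h4, h6, h5⟩
            · rintro (rfl | ⟨h4, _, h5⟩)
              · exact ⟨hφ, huρ⟩
              · exact ⟨h4, h5⟩
          have h4 : ∀ φ : Finset V, ∀ x ∈ φ \ ρ (j + 1), ν u < ν x := by
            intro φ x hx
            rw [mem_sdiff, hmem] at hx
            omega
          rw [h3 σ hu'.1, h3 τ hu'.2, Comb_E_insert true u (h4 σ) (h4 τ),
            Comb_E_insert false u (h4 σ) (h4 τ), if_pos rfl, if_neg (by decide), add_zero]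
        · have h1 : σ ∩ τ = ρ j := by
            ext v
            rw [mem_inter]
            constructor
            · rintro ⟨h1, h2⟩
              have h3 := hsub v h1 h2
              rw [hρs, mem_insert] at h3
              rcases h3 with rfl | h3
              · exact absurd ⟨h1, h2⟩ hu'
              · exact h3
            · intro hv
              exact ⟨h0.1 hv, h0.2 hv⟩
          have h2 : σ ∩ τ ≠ ρ (j + 1) := by
            intro h2
            rw [h1, hρs] at h2
            exact huρ (by rw [h2]; exact mem_insert_self _ _)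
          have hd : Disjoint (σ \ ρ j) (τ \ ρ j) := by
            rw [disjoint_left]
            intro x hx hx'
            rw [mem_sdiff] at hx hx'
            refine hx.2 ?_
            rw [← h1, mem_inter]
            exact ⟨hx.1, hx'.1⟩
          rw [if_pos h0, if_pos h1, if_pos h1, if_neg h2, add_zero, map_add, add_mul,
            Comb_E_false hν hd]
      · have h1 : σ ∩ τ ≠ ρ j := by
          intro h1
          exact h0 (by rw [← h1]; exact ⟨inter_subset_left, inter_subset_right⟩)
        have h2 : σ ∩ τ ≠ ρ (j + 1) := by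
          intro h2
          have h3 : ρ j ⊆ σ ∩ τ := by
            rw [h2, hρs]
            exact subset_insert _ _
          exact h0 ⟨h3.trans inter_subset_left, h3.trans inter_subset_right⟩
        rw [if_neg h0, if_neg h1, if_neg h1, if_neg h2, add_zero, add_zero]
    simp only [point, sum_add_distrib] at S0
    have hswap : ∑ σ : Finset V, ∑ τ : Finset V,
        (if σ ∩ τ = ρ j then c (Comb_E ν true (τ \ ρ j) (σ \ ρ j)) * Q (j + 1) σ τ else 0) =
        ∑ σ : Finset V, ∑ τ : Finset V,
        (if σ ∩ τ = ρ j then c (Comb_E ν true (σ \ ρ j) (τ \ ρ j)) * Q (j + 1) τ σ else 0) := by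
      rw [sum_comm]
      refine sum_congr rfl fun σ _ => sum_congr rfl fun τ _ => ?_
      rw [inter_comm]
    have hJj : J j = ∑ σ : Finset V, ∑ τ : Finset V,
        (if σ ∩ τ = ρ j then c (Comb_E ν true (σ \ ρ j) (τ \ ρ j)) * Q (j + 1) σ τ else 0) +
        ∑ σ : Finset V, ∑ τ : Finset V,
        (if σ ∩ τ = ρ j then c (Comb_E ν true (σ \ ρ j) (τ \ ρ j)) * Q (j + 1) τ σ else 0) := by
      rw [← sum_add_distrib]
      simp only [hJ]
      refine sum_congr rfl fun σ _ => ?_
      rw [← sum_add_distrib]
      refine sum_congr rfl fun τ _ => ?_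
      split_ifs with h
      · rw [← mul_add, ← hC j hj σ τ]
        intro v hv
        have h1 : v ∈ σ ∩ τ := by
          rw [h, hmem]
          exact hv
        exact mem_inter.1 h1
      · rw [add_zero]
    rw [hswap, ← hJj] at S0
    exact CharTwo.add_eq_zero.1 S0
  have hJ0 : J 0 = J (k + 1) := by
    have h1 : ∀ j, j ≤ k + 1 → J 0 = J j := by
      intro j
      induction j with
      | zero => intro _; rfl
      | succ j ih =>
        intro hj
        rw [ih (by omega)]
        exact step j (by omega)
    exact h1 (k + 1) le_rfl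
  -- the value at the end
  have hJk : J (k + 1) = Q (k + 1) s s := by
    simp only [hJ]
    rw [sum_eq_single s, sum_eq_single s]
    · rw [inter_self, if_pos hsρ, ← hsρ, sdiff_self, bot_eq_empty, Comb_E_empty, map_one,
        one_mul]
    · intro τ _ hτ
      split_ifs with h
      · by_contra hne
        have h1 := (supp _ _ _ (right_ne_zero_of_mul hne)).2.2
        rw [← hsρ] at h
        exact hτ (eq_of_subset_of_card_le (inter_eq_left.1 h) (by omega)).symm
      · rfl
    · intro h
      exact absurd (mem_univ s) h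
    · intro σ _ hσ
      refine sum_eq_zero fun τ _ => ?_
      split_ifs with h
      · by_contra hne
        have h1 := (supp _ _ _ (right_ne_zero_of_mul hne)).1.2
        rw [← hsρ] at h
        refine hσ (eq_of_subset_of_card_le ?_ (by omega)).symm
        rw [← h]
        exact inter_subset_left
      · rfl
    · intro h
      exact absurd (mem_univ s) h
  rw [← hJk, ← hJ0]
  -- the value at the beginning
  obtain ⟨g, hg⟩ := vanKampen_all hvk hν
  have hdis : ∀ σ τ, Q 0 σ τ ≠ 0 → Disjoint σ τ := by
    intro σ τ h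
    rw [disjoint_left]
    intro v h1 h2
    have := hB 0 σ τ h v h1 h2
    omega
  set D : Finset V → Finset V → ZMod 2 := fun σ τ =>
    Comb_E ν true σ τ + ∑ v ∈ τ, g σ (τ.erase v) with hDdef
  have hDs : ∀ σ τ, Q 0 σ τ ≠ 0 → D σ τ = D τ σ := by
    intro σ τ h
    obtain ⟨⟨h1, h2⟩, h3, h4⟩ := supp 0 σ τ h
    have h5 := hdis σ τ h
    have h6 := hg σ τ h1 h2 h3 h4 h5
    have hne : (σ ∪ τ).Nonempty := by
      rw [← card_pos]
      exact lt_of_lt_of_le (by omega) (card_le_card (subset_union_left (s₁ := σ) (s₂ := τ)))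
    rw [← eP_add_swap hν h5 hne] at h6
    simp only [hDdef]
    rw [Comb_E_true hν h5, Comb_E_true hν h5.symm]
    apply zmod2_eq_of_add
    have h7 : eP ν σ τ + ∑ v ∈ τ, g σ (τ.erase v) + (eP ν τ σ + ∑ v ∈ σ, g τ (σ.erase v)) =
        (eP ν σ τ + eP ν τ σ) + (∑ v ∈ τ, g σ (τ.erase v) + ∑ v ∈ σ, g τ (σ.erase v)) := by
      ring
    rw [h7, h6]
    exact zmod2_add_self _
  have hsum : ∑ σ : Finset V, ∑ τ : Finset V, c (D σ τ) * Q 0 σ τ = 0 := by
    rw [← sum_product']
    refine sum_involution (fun p _ => (p.2, p.1)) ?_ ?_ ?_ ?_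
    · rintro ⟨σ, τ⟩ _
      show c (D σ τ) * Q 0 σ τ + c (D τ σ) * Q 0 τ σ = 0
      rw [hD τ σ]
      by_cases h : Q 0 σ τ = 0
      · rw [h, mul_zero, mul_zero, add_zero]
      · rw [hDs σ τ h]
        exact hK _
    · rintro ⟨σ, τ⟩ _ hne heq
      have h1 : Q 0 σ τ ≠ 0 := right_ne_zero_of_mul hne
      have h2 : σ = τ := (Prod.mk.inj heq).2
      have h3 := hdis σ τ h1
      have h4 := (supp 0 σ τ h1).1.2
      rw [← h2, disjoint_self, bot_eq_empty] at h3
      rw [h3, card_empty] at h4
      omega
    · rintro ⟨σ, τ⟩ _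
      exact mem_product.2 ⟨mem_univ _, mem_univ _⟩
    · rintro ⟨σ, τ⟩ _
      rfl
  have hgsum : ∑ σ : Finset V, ∑ τ : Finset V,
      c (∑ v ∈ τ, g σ (τ.erase v)) * Q 0 σ τ = 0 := by
    refine sum_eq_zero fun σ _ => ?_
    have h1 := Comb_zero ∅ (fun κ => c (g σ κ)) (fun τ => Q 0 σ τ) (lin2 0 σ)
    simp only [empty_subset, if_true, sdiff_empty] at h1
    refine Eq.trans (sum_congr rfl fun τ _ => ?_) h1
    rw [map_sum]
  have hρ0 : ρ 0 = ∅ := by
    ext v
    rw [hmem]
    simp
  have hJz : J 0 = ∑ σ : Finset V, ∑ τ : Finset V, c (D σ τ) * Q 0 σ τ +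
      ∑ σ : Finset V, ∑ τ : Finset V, c (∑ v ∈ τ, g σ (τ.erase v)) * Q 0 σ τ := by
    rw [← sum_add_distrib]
    simp only [hJ]
    refine sum_congr rfl fun σ _ => ?_
    rw [← sum_add_distrib]
    refine sum_congr rfl fun τ _ => ?_
    rw [hρ0, sdiff_empty, sdiff_empty, ← add_mul, ← map_add]
    by_cases h : Q 0 σ τ = 0
    · rw [h, mul_zero, mul_zero, ite_self]
    · rw [if_pos (disjoint_iff_inter_eq_empty.1 (hdis σ τ h))]
      simp only [hDdef]
      rw [add_assoc, zmod2_add_self, add_zero]
  rw [hJz, hsum, hgsum, add_zero]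

end Pool.Agent.H77.SW

end

section

/-!
# Singer without colours: the key lemma
-/

set_option autoImplicit false
set_option linter.unusedSectionVars false

open Finset

namespace Pool.Agent.H77.SW

open Pool.Agent.H85.VK

variable {V : Type} [DecidableEq V] [Fintype V] {K : Type} [Field K] [CharP K 2]

private theorem Key_inv_not {G : SimpleGraph V} {P : Type} [Group P] (D : PG G P)
    (s : Finset V) (t : V → P → K) {v : V} {f : Finset V × P → K}
    (hf : rE D s t v f = f) (A : Finset V) (p : P) (h : ¬ (v ∈ s ∧ v ∈ A)) :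
    f (A, p * D.g v) = f (A, p) := by
  have h1 := congrFun hf (A, p)
  simp only [rE, LinearMap.coe_mk, AddHom.coe_mk] at h1
  rw [if_neg h, add_zero] at h1
  exact h1

private theorem Key_inv_mem {G : SimpleGraph V} {P : Type} [Group P] (D : PG G P)
    (s : Finset V) (t : V → P → K) {v : V} {f : Finset V × P → K}
    (hf : rE D s t v f = f) (A : Finset V) (p : P) (hs : v ∈ s) (hA : v ∈ A) :
    f (A, p * D.g v) = f (A, p) + t v p * f (A.erase v, p) := by
  have h1 := congrFun hf (A, p)
  have h2 := Key_inv_not D s t hf (A.erase v) p (by simp)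
  simp only [rE, LinearMap.coe_mk, AddHom.coe_mk] at h1
  rw [if_pos ⟨hs, hA⟩, h2] at h1
  rw [← h1, add_assoc, CharTwo.add_self_eq_zero, add_zero]

/-- the pairing -/
private def Key_F {P : Type} [Fintype P] (s : Finset V) (S : Finset (Finset V))
    (f f' : Finset V × P → K) : K := ∑ A ∈ S, ∑ p, f (A, p) * f' (s \ A, p)

private theorem Key_zero {G : SimpleGraph V} {P : Type} [Group P] [Fintype P] (D : PG G P)
    (s : Finset V) (t : V → P → K) {v : V} {f f' : Finset V × P → K}
    (hf : rE D s t v f = f) (hf' : rE D s t v f' = f') (S : Finset (Finset V))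
    (hS : v ∈ s → ∀ A, v ∉ A → (A ∈ S ↔ insert v A ∈ S)) : Key_F s S f f' = 0 := by
  unfold Key_F
  rw [sum_comm]
  refine sum_involution (fun p _ => p * D.g v) ?_ ?_ ?_ ?_
  · intro p _
    rw [← sum_add_distrib]
    by_cases hv : v ∈ s
    · have hS' := hS hv
      have key : ∀ A, v ∉ A → (f (A, p) * f' (s \ A, p) + f (A, p * D.g v) * f' (s \ A, p * D.g v)) +
          (f (insert v A, p) * f' (s \ insert v A, p) +
            f (insert v A, p * D.g v) * f' (s \ insert v A, p * D.g v)) = 0 := by
        intro A hA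
        have e1 : (s \ A).erase v = s \ insert v A := by
          ext w
          simp only [mem_erase, mem_sdiff, mem_insert]
          tauto
        rw [Key_inv_not D s t hf A p (fun h => hA h.2),
          Key_inv_mem D s t hf' (s \ A) p hv (mem_sdiff.2 ⟨hv, hA⟩),
          Key_inv_mem D s t hf (insert v A) p hv (mem_insert_self _ _),
          Key_inv_not D s t hf' (s \ insert v A) p (by simp), erase_insert hA, e1]
        have h2 : (2 : K) = 0 := CharTwo.two_eq_zero
        linear_combination (f (A, p) * f' (s \ A, p) + f (insert v A, p) * f' (s \ insert v A, p) +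
          f (A, p) * t v p * f' (s \ insert v A, p)) * h2
      refine sum_involution (fun A _ => if v ∈ A then A.erase v else insert v A) ?_ ?_ ?_ ?_
      · intro A _
        by_cases hA : v ∈ A
        · have h := key (A.erase v) (notMem_erase v A)
          rw [insert_erase hA] at h
          rw [if_pos hA, add_comm]
          exact h
        · rw [if_neg hA]
          exact key A hA
      · intro A _ _ e
        by_cases hA : v ∈ A
        · rw [if_pos hA] at e
          exact notMem_erase v A (e.symm ▸ hA)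
        · rw [if_neg hA] at e
          exact hA (e ▸ mem_insert_self v A)
      · intro A hAS
        by_cases hA : v ∈ A
        · rw [if_pos hA, hS' _ (notMem_erase v A), insert_erase hA]
          exact hAS
        · rw [if_neg hA, ← hS' _ hA]
          exact hAS
      · intro A _
        by_cases hA : v ∈ A
        · simp only [if_pos hA, notMem_erase, if_false]
          exact insert_erase hA
        · simp only [if_neg hA, mem_insert_self, if_true]
          exact erase_insert hA
    · refine sum_eq_zero fun A _ => ?_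
      rw [Key_inv_not D s t hf A p (fun h => hv h.1),
        Key_inv_not D s t hf' (s \ A) p (fun h => hv h.1), CharTwo.add_self_eq_zero]
  · intro p _ _ e
    have h := D.b_mul p (D.g v) v
    rw [e, D.b_g, if_pos rfl] at h
    simp at h
  · intro p _
    exact mem_univ _
  · intro p _
    simp only [mul_assoc, D.sq, mul_one]

private theorem Key_swap {P : Type} [Fintype P] (s : Finset V) (pr : Finset V → Prop)
    [DecidablePred pr] (f f' : Finset V × P → K) :
    Key_F s (s.powerset.filter pr) f f' =
      Key_F s (s.powerset.filter fun A => pr (s \ A)) f' f := by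
  unfold Key_F
  refine sum_nbij' (fun A => s \ A) (fun A => s \ A) ?_ ?_ ?_ ?_ ?_
  · intro A hA
    rw [mem_filter, mem_powerset] at hA ⊢
    refine ⟨sdiff_subset, ?_⟩
    rw [Finset.sdiff_sdiff_eq_self hA.1]
    exact hA.2
  · intro A hA
    rw [mem_filter, mem_powerset] at hA ⊢
    exact ⟨sdiff_subset, hA.2⟩
  · intro A hA
    rw [mem_filter, mem_powerset] at hA
    exact Finset.sdiff_sdiff_eq_self hA.1
  · intro A hA
    rw [mem_filter, mem_powerset] at hA
    exact Finset.sdiff_sdiff_eq_self hA.1
  · intro A hA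
    rw [mem_filter, mem_powerset] at hA
    refine sum_congr rfl fun p _ => ?_
    rw [Finset.sdiff_sdiff_eq_self hA.1, mul_comm]

private theorem Key_union {P : Type} [Fintype P] (s : Finset V) (S T : Finset (Finset V))
    (h : Disjoint S T) (f f' : Finset V × P → K) :
    Key_F s (S ∪ T) f f' = Key_F s S f f' + Key_F s T f f' := by
  unfold Key_F
  exact sum_union h

private theorem Key_lin1 {P : Type} [Fintype P] (s : Finset V) (S : Finset (Finset V))
    (B : Finset V) (z : V → Finset V × P → K) (f' : Finset V × P → K)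
    (h : ∑ v ∈ B, z v = 0) : ∑ v ∈ B, Key_F s S (z v) f' = 0 := by
  unfold Key_F
  rw [sum_comm]
  refine sum_eq_zero fun A _ => ?_
  rw [sum_comm]
  refine sum_eq_zero fun p _ => ?_
  rw [← sum_mul]
  have e := congrFun h (A, p)
  rw [Finset.sum_apply] at e
  rw [e, Pi.zero_apply, zero_mul]

private theorem Key_lin2 {P : Type} [Fintype P] (s : Finset V) (S : Finset (Finset V))
    (B : Finset V) (z : V → Finset V × P → K) (f : Finset V × P → K)
    (h : ∑ v ∈ B, z v = 0) : ∑ v ∈ B, Key_F s S f (z v) = 0 := by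
  unfold Key_F
  rw [sum_comm]
  refine sum_eq_zero fun A _ => ?_
  rw [sum_comm]
  refine sum_eq_zero fun p _ => ?_
  rw [← mul_sum]
  have e := congrFun h (s \ A, p)
  rw [Finset.sum_apply] at e
  rw [e, Pi.zero_apply, mul_zero]

/-- the numbering -/
private theorem Key_num (s : Finset V) (k : ℕ) (hcard : s.card = k + 1) :
    ∃ ν : V → ℕ, Function.Injective ν ∧ ∀ v, ν v < k + 1 ↔ v ∈ s := by
  classical
  refine ⟨fun v => if h : v ∈ s then (s.equivFin ⟨v, h⟩ : ℕ) else k + 1 + Fintype.equivFin V v,
    ?_, ?_⟩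
  · intro v w hvw
    have hb : ∀ (v : V) (h : v ∈ s), (s.equivFin ⟨v, h⟩ : ℕ) < k + 1 := by
      intro v h
      have h1 := (s.equivFin ⟨v, h⟩).2
      omega
    by_cases hv : v ∈ s
    · by_cases hw : w ∈ s
      · simp only [dif_pos hv, dif_pos hw] at hvw
        have h1 := s.equivFin.injective (Fin.ext hvw)
        exact congrArg Subtype.val h1
      · simp only [dif_pos hv, dif_neg hw] at hvw
        have h1 := hb v hv
        omega
    · by_cases hw : w ∈ s
      · simp only [dif_neg hv, dif_pos hw] at hvw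
        have h1 := hb w hw
        omega
      · simp only [dif_neg hv, dif_neg hw] at hvw
        exact (Fintype.equivFin V).injective (Fin.ext (by omega))
  · intro v
    by_cases hv : v ∈ s
    · have h1 := (s.equivFin ⟨v, hv⟩).2
      show (if h : v ∈ s then (s.equivFin ⟨v, h⟩ : ℕ) else k + 1 + Fintype.equivFin V v) < k + 1 ↔
        v ∈ s
      rw [dif_pos hv]
      exact ⟨fun _ => hv, fun _ => by omega⟩
    · show (if h : v ∈ s then (s.equivFin ⟨v, h⟩ : ℕ) else k + 1 + Fintype.equivFin V v) < k + 1 ↔
        v ∈ s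
      rw [dif_neg hv]
      exact ⟨fun h => by omega, fun h => absurd h hv⟩

/-- the moments of an invariant function -/
private theorem Key_moment {G : SimpleGraph V} {P : Type} [Group P] [Fintype P] (D : PG G P)
    (s : Finset V) (hs : G.IsClique (s : Set V)) (t : V → P → K) (ht : StarInv D t)
    (f : Finset V × P → K) (hf : ∀ v ∈ s, rE D s t v f = f) (T : Finset V) (hT : T ⊆ s) :
    ∑ p ∈ univ.filter (fun p => ∀ w ∈ T, D.b p w = 0),
      (∏ w ∈ T, t w p) * f (s \ T, p) * f (∅, p) = ∑ p, f (s, p) * f (∅, p) := by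
  classical
  induction T using Finset.induction_on with
  | empty => simp
  | insert v T hv ih =>
    have hvs : v ∈ s := hT (mem_insert_self _ _)
    have hTs : T ⊆ s := fun w hw => hT (mem_insert_of_mem hw)
    rw [← ih hTs, ← sum_filter_add_sum_filter_not (univ.filter fun p => ∀ w ∈ T, D.b p w = 0)
      (fun p => D.b p v = 0)]
    have e2 : ∑ p ∈ (univ.filter (fun p => ∀ w ∈ T, D.b p w = 0)).filter
          (fun p => ¬ D.b p v = 0), (∏ w ∈ T, t w p) * f (s \ T, p) * f (∅, p) =
        ∑ p ∈ (univ.filter (fun p => ∀ w ∈ T, D.b p w = 0)).filter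
          (fun p => D.b p v = 0), (∏ w ∈ T, t w p) *
            (f (s \ T, p) + t v p * f (s \ insert v T, p)) * f (∅, p) := by
      have hz : ∀ x : ZMod 2, x ≠ 0 → x + 1 = 0 := by decide
      have hz' : ∀ x : ZMod 2, x = 0 → ¬ x + 1 = 0 := by decide
      have hg : ∀ p w, w ∈ T → D.b (p * D.g v) w = D.b p w := by
        intro p w hw
        rw [D.b_mul, D.b_g, if_neg (fun h : v = w => hv (h ▸ hw)), add_zero]
      refine sum_nbij' (fun p => p * D.g v) (fun p => p * D.g v) ?_ ?_ ?_ ?_ ?_
      · intro p hp
        simp only [mem_filter, mem_univ, true_and] at hp ⊢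
        refine ⟨fun w hw => by rw [hg p w hw]; exact hp.1 w hw, ?_⟩
        rw [D.b_mul, D.b_g, if_pos rfl]
        exact hz _ hp.2
      · intro p hp
        simp only [mem_filter, mem_univ, true_and] at hp ⊢
        refine ⟨fun w hw => by rw [hg p w hw]; exact hp.1 w hw, ?_⟩
        rw [D.b_mul, D.b_g, if_pos rfl]
        exact hz' _ hp.2
      · intro p _
        simp only [mul_assoc, D.sq, mul_one]
      · intro p _
        simp only [mul_assoc, D.sq, mul_one]
      · intro p _
        have e1 : (s \ T).erase v = s \ insert v T := by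
          ext w
          simp only [mem_erase, mem_sdiff, mem_insert]
          tauto
        have e3 : ∏ w ∈ T, t w (p * D.g v) = ∏ w ∈ T, t w p := by
          refine prod_congr rfl fun w hw => ht w v (Or.inr ?_) p
          exact hs (hTs hw) hvs (fun h => hv (h ▸ hw))
        have e4 := Key_inv_mem D s t (hf v hvs) (s \ T) p hvs (mem_sdiff.2 ⟨hvs, hv⟩)
        have e5 := Key_inv_not D s t (hf v hvs) ∅ p (fun h => notMem_empty v h.2)
        have e6 := ht v v (Or.inl rfl) p
        have e7 := Key_inv_not D s t (hf v hvs) ((s \ T).erase v) p (by simp)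
        rw [← e1, e3, e5, e4, e6, e7, add_assoc, CharTwo.add_self_eq_zero, add_zero]
    rw [e2, ← sum_add_distrib, filter_filter]
    refine sum_congr ?_ fun p _ => ?_
    · ext p
      simp only [mem_filter, mem_univ, true_and, mem_insert, forall_eq_or_imp]
      tauto
    · rw [prod_insert hv]
      have h2 : (2 : K) = 0 := CharTwo.two_eq_zero
      linear_combination (-(∏ w ∈ T, t w p) * f (s \ T, p) * f (∅, p)) * h2

/-- **The key lemma.** Choose `ν` injective with `ν v < k + 1 ↔ v ∈ s`, put `ρ_j = {v | ν v < j}` and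
apply `comb` to `Q j σ τ = ∑ A ∈ s.powerset with ρ_j ∩ s ⊆ A, ∑ p, z σ (A, p) * z τ (s \ A, p)`. Then
`0 = Q (k + 1) s s = ∑ p, z s (s, p) * z s (∅, p)`, which is `∑ p with b p v = 0 (v ∈ s)` of
`(∏ v ∈ s, t v p) * z s (∅, p) ^ 2` (note 3772, L5); `hgen` and the invariance of `z s (∅, ·)`. -/
theorem key (G : SimpleGraph V) (k : ℕ) (hvk : VanKampenZero G k) {P : Type} [Group P]
    [Fintype P] (D : PG G P) (s : Finset V) (hs : G.IsClique (s : Set V)) (hcard : s.card = k + 1)
    (t : V → P → K) (ht : StarInv D t) (hgen : GenOn D s t) :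
    ∀ z ∈ Zs K G (k + 1) (rE D s t), ∀ p, z s (∅, p) = 0 := by
  classical
  intro z hz
  obtain ⟨hz1, hz2, hz3⟩ := hz
  obtain ⟨ν, hν, hνs⟩ := Key_num s k hcard
  have hQ : Key_F s (s.powerset.filter fun A => ∀ v, ν v < k + 1 → v ∈ A) (z s) (z s) = 0 := by
    refine comb G k hvk hν s hνs hcard
      (fun j σ τ => Key_F s (s.powerset.filter fun A => ∀ v, ν v < j → v ∈ A) (z σ) (z τ))
      ?_ ?_ ?_ ?_ ?_ ?_
    · intro j σ τ h
      constructor
      · refine hz1 σ fun h0 => h ?_
        simp only [Key_F, h0, Pi.zero_apply, zero_mul, sum_const_zero]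
      · refine hz1 τ fun h0 => h ?_
        simp only [Key_F, h0, Pi.zero_apply, mul_zero, sum_const_zero]
    · intro j κ τ
      exact Key_lin1 s _ _ (fun v => z (insert v κ)) _ (hz3 κ)
    · intro j σ κ
      exact Key_lin2 s _ _ (fun v => z (insert v κ)) _ (hz3 κ)
    · intro j σ τ h v hvσ hvτ
      by_contra hj
      refine h (Key_zero D s t (hz2 σ v hvσ) (hz2 τ v hvτ) _ ?_)
      intro hvs A hA
      simp only [mem_filter, mem_powerset, insert_subset_iff, hvs, true_and, mem_insert]
      refine and_congr_right fun _ => forall_congr' fun w => ?_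
      refine imp_congr_right fun hw => ?_
      have hne : w ≠ v := fun e => hj (e ▸ hw)
      simp only [hne, false_or]
    · intro j hj σ τ hστ
      -- the vertex with the number `j`
      obtain ⟨u, hus, huj⟩ : ∃ u ∈ s, ν u = j := by
        have himg : s.image ν = range (k + 1) := by
          refine eq_of_subset_of_card_le ?_ ?_
          · intro x hx
            obtain ⟨v, hv, rfl⟩ := mem_image.1 hx
            exact mem_range.2 ((hνs v).2 hv)
          · rw [card_image_of_injective _ hν, hcard, card_range]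
        have hmem : j ∈ s.image ν := by
          rw [himg]
          exact mem_range.2 (by omega)
        obtain ⟨u, hu, e⟩ := mem_image.1 hmem
        exact ⟨u, hu, e⟩
      set R : Finset V := univ.filter fun v => ν v < j with hR
      have hRs : ∀ v ∈ R, v ∈ s := by
        intro v hv
        rw [hR, mem_filter] at hv
        exact (hνs v).1 (by omega)
      have huR : u ∉ R := by
        rw [hR, mem_filter]
        intro h
        omega
      have hW : ∀ X : Finset V, X ⊆ R →
          Key_F s (s.powerset.filter fun A => A ∩ R = X ∧ u ∉ A) (z σ) (z τ) =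
            Key_F s (s.powerset.filter fun A => A ∩ R = ∅ ∧ u ∉ A) (z σ) (z τ) := by
        intro X
        induction X using Finset.induction_on with
        | empty => intro _; rfl
        | insert x X hx ih =>
          intro hX
          have hxR : x ∈ R := hX (mem_insert_self _ _)
          have hXR : X ⊆ R := fun w hw => hX (mem_insert_of_mem hw)
          rw [← ih hXR]
          have hdis : Disjoint (s.powerset.filter fun A => A ∩ R = insert x X ∧ u ∉ A)
              (s.powerset.filter fun A => A ∩ R = X ∧ u ∉ A) := by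
            rw [Finset.disjoint_left]
            intro A h1 h2
            rw [mem_filter] at h1 h2
            exact hx (by rw [← h2.2.1, h1.2.1]; exact mem_insert_self _ _)
          have h0 := Key_union s _ _ hdis (z σ) (z τ)
          have hxj : ν x < j := by
            rw [hR, mem_filter] at hxR
            exact hxR.2
          rw [Key_zero D s t (hz2 σ x (hστ x hxj).1) (hz2 τ x (hστ x hxj).2)] at h0
          · exact (CharTwo.add_eq_zero.1 h0.symm)
          · intro hxs A hA
            have hux : u ≠ x := fun e => huR (e ▸ hxR)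
            have h1 : A ∩ R ≠ insert x X := by
              intro e
              have : x ∈ A ∩ R := e ▸ mem_insert_self _ _
              exact hA (mem_inter.1 this).1
            have h2 : insert x A ∩ R = insert x (A ∩ R) := by
              rw [insert_inter_of_mem hxR]
            have h3 : insert x A ∩ R ≠ X := by
              intro e
              rw [h2] at e
              exact hx (e ▸ mem_insert_self _ _)
            have h4 : insert x A ∩ R = insert x X ↔ A ∩ R = X := by
              rw [h2]
              constructor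
              · intro e
                have hxA : x ∉ A ∩ R := fun h => hA (mem_inter.1 h).1
                rw [← erase_insert hxA, e, erase_insert hx]
              · intro e
                rw [e]
            simp only [mem_union, mem_filter, mem_powerset, insert_subset_iff, hxs, true_and, h1,
              h3, h4, false_and, and_false, false_or, or_false, mem_insert, hux]
      have hsplit : (s.powerset.filter fun A => ∀ v, ν v < j → v ∈ A) =
          (s.powerset.filter fun A => ∀ v, ν v < j + 1 → v ∈ A) ∪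
            s.powerset.filter fun A => A ∩ R = R ∧ u ∉ A := by
        ext A
        simp only [mem_union, mem_filter, mem_powerset, ← and_or_left]
        refine and_congr_right fun _ => ?_
        have hRA : A ∩ R = R ↔ ∀ v, ν v < j → v ∈ A := by
          rw [inter_eq_right, hR]
          constructor
          · intro h v hv
            exact h (mem_filter.2 ⟨mem_univ _, hv⟩)
          · intro h v hv
            exact h v (mem_filter.1 hv).2
        rw [hRA]
        constructor
        · intro h
          by_cases hu : u ∈ A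
          · left
            intro v hv
            by_cases hvj : ν v < j
            · exact h v hvj
            · have e : v = u := hν (by omega)
              rw [e]
              exact hu
          · exact Or.inr ⟨h, hu⟩
        · rintro (h | h)
          · exact fun v hv => h v (by omega)
          · exact h.1
      have hdis : Disjoint (s.powerset.filter fun A => ∀ v, ν v < j + 1 → v ∈ A)
          (s.powerset.filter fun A => A ∩ R = R ∧ u ∉ A) := by
        rw [Finset.disjoint_left]
        intro A h1 h2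
        rw [mem_filter] at h1 h2
        exact h2.2.2 (h1.2 u (by omega))
      show Key_F s (s.powerset.filter fun A => ∀ v, ν v < j → v ∈ A) (z σ) (z τ) =
        Key_F s (s.powerset.filter fun A => ∀ v, ν v < j + 1 → v ∈ A) (z σ) (z τ) +
          Key_F s (s.powerset.filter fun A => ∀ v, ν v < j + 1 → v ∈ A) (z τ) (z σ)
      rw [hsplit, Key_union s _ _ hdis, hW R (Subset.refl _),
        Key_swap s (fun A => ∀ v, ν v < j + 1 → v ∈ A) (z τ) (z σ)]
      congr 2
      refine filter_congr fun A hA => ?_
      rw [← disjoint_iff_inter_eq_empty, Finset.disjoint_left]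
      constructor
      · rintro ⟨h1, h2⟩ v hv
        refine mem_sdiff.2 ⟨(hνs v).1 (by omega), ?_⟩
        by_cases hvj : ν v < j
        · intro hvA
          exact h1 hvA (mem_filter.2 ⟨mem_univ _, hvj⟩)
        · have e : v = u := hν (by omega)
          rw [e]
          exact h2
      · intro h
        refine ⟨fun v hvA hvR => ?_, (mem_sdiff.1 (h u (by omega))).2⟩
        have hvj := (mem_filter.1 hvR).2
        exact (mem_sdiff.1 (h v (by omega))).2 hvA
    · intro σ τ
      show Key_F s (s.powerset.filter fun A => ∀ v, ν v < 0 → v ∈ A) (z σ) (z τ) =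
        Key_F s (s.powerset.filter fun A => ∀ v, ν v < 0 → v ∈ A) (z τ) (z σ)
      rw [Key_swap s (fun A => ∀ v, ν v < 0 → v ∈ A) (z σ) (z τ)]
      congr 1
      refine filter_congr fun A hA => ?_
      simp
  have hS : (s.powerset.filter fun A => ∀ v, ν v < k + 1 → v ∈ A) = {s} := by
    ext A
    simp only [mem_filter, mem_powerset, mem_singleton]
    constructor
    · rintro ⟨h1, h2⟩
      exact Subset.antisymm h1 fun v hv => h2 v ((hνs v).2 hv)
    · rintro rfl
      exact ⟨Subset.refl _, fun v hv => (hνs v).1 hv⟩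
  rw [hS] at hQ
  unfold Key_F at hQ
  rw [sum_singleton, Finset.sdiff_self] at hQ
  have hf : ∀ v ∈ s, rE D s t v (z s) = z s := hz2 s
  have hM := Key_moment D s hs t ht (z s) hf s (Subset.refl _)
  rw [hQ, Finset.sdiff_self] at hM
  have hc := hgen (fun p => if ∀ w ∈ s, D.b p w = 0 then z s (∅, p) else 0) ?_ ?_
  · have hall : ∀ n : ℕ, ∀ p, (s.filter fun v => D.b p v ≠ 0).card = n → z s (∅, p) = 0 := by
      intro n
      induction n with
      | zero =>
        intro p hp
        have hp' : ∀ w ∈ s, D.b p w = 0 := by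
          intro w hw
          by_contra h
          rw [card_eq_zero] at hp
          exact notMem_empty w (hp ▸ mem_filter.2 ⟨hw, h⟩)
        have h1 := congrFun hc p
        simp only [if_pos hp', Pi.zero_apply] at h1
        exact h1
      | succ n ih =>
        intro p hp
        have hne : (s.filter fun v => D.b p v ≠ 0).Nonempty := by
          rw [← card_pos]
          omega
        obtain ⟨v, hv⟩ := hne
        have hv' := mem_filter.1 hv
        have e5 := Key_inv_not D s t (hf v hv'.1) ∅ p (fun h => notMem_empty v h.2)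
        rw [← e5]
        refine ih (p * D.g v) ?_
        have hz : ∀ x : ZMod 2, x ≠ 0 → x + 1 = 0 := by decide
        have he : (s.filter fun w => D.b (p * D.g v) w ≠ 0) =
            (s.filter fun w => D.b p w ≠ 0).erase v := by
          ext w
          simp only [mem_filter, mem_erase]
          by_cases hw : w = v
          · subst hw
            rw [D.b_mul, D.b_g, if_pos rfl, hz _ hv'.2]
            simp
          · rw [D.b_mul, D.b_g, if_neg (fun h => hw h.symm), add_zero]
            simp [hw]
        rw [he, card_erase_of_mem hv, hp]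
        rfl
    exact fun p => hall _ p rfl
  · rintro p ⟨v, hv, hb⟩
    rw [if_neg]
    intro h
    exact hb (h v hv)
  · refine Eq.trans ?_ hM
    rw [sum_filter]
    refine sum_congr rfl fun p _ => ?_
    by_cases hp : ∀ w ∈ s, D.b p w = 0
    · rw [if_pos hp, if_pos hp]
      ring
    · rw [if_neg hp, if_neg hp]
      ring

end Pool.Agent.H77.SW

end
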