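import Pool.Agent.H71.TSG.M01
import Pool.Agent.H71.TSG.M04
import Pool.Agent.H71.TSG.M06
import Pool.Agent.H71.TSG.M07

/-! The parts of this file: H19.SR.Hs_1, H4.Singer.NilCox, H73.GC.Dbl, S9.U.Tri. -/

section

/-!
# Project SR, modules T8, T9: homology spheres over the field of two elements
-/

set_option autoImplicit false
set_option linter.unusedSectionVars false

open Finset

namespace Pool.Agent.H19.SR

variable {V : Type} [DecidableEq V] [Fintype V]

/-- The clique complex of `G` is a homology sphere of dimension `n - 1` over the field of two elements: for every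
clique `ρ` (also for `ρ = ∅`) the link of `ρ` has the reduced homology over the field of two elements of the sphere
of dimension `n - 1 - |ρ|`. -/
structure HomologySphere2 (G : SimpleGraph V) (n : ℕ) : Prop where
  dim : ∀ σ : Finset V, G.IsClique (σ : Set V) → σ.card ≤ n
  low : ∀ ρ : Finset V, G.IsClique (ρ : Set V) → ∀ j, j + ρ.card < n → ∀ z, LinkCh2 G ρ j z →
    bdy2 z = 0 → ∃ y, LinkCh2 G ρ (j + 1) y ∧ bdy2 y = z
  top : ∀ ρ : Finset V, G.IsClique (ρ : Set V) → ∀ j, j + ρ.card = n →
    ∃ o, LinkCh2 G ρ j o ∧ bdy2 o = 0 ∧ o ≠ 0 ∧ ∀ z, LinkCh2 G ρ j z → bdy2 z = 0 → z = 0 ∨ z = o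

section aux

private theorem z2 : ∀ a : ZMod 2, a ≠ 0 → a = 1 := by decide

/-- translation to the link -/
private def tr (s : Finset V) (f : Finset V → ZMod 2) (σ : Finset V) : ZMod 2 :=
  if Disjoint σ s then f (σ ∪ s) else 0

omit [Fintype V] in
private theorem tr_of {s σ : Finset V} (hd : Disjoint σ s) (f : Finset V → ZMod 2) : tr s f σ = f (σ ∪ s) :=
  if_pos hd

omit [Fintype V] in
private theorem tr_not {s σ : Finset V} (hd : ¬ Disjoint σ s) (f : Finset V → ZMod 2) : tr s f σ = 0 :=
  if_neg hd

omit [Fintype V] in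
private theorem nd_of_mem {s σ : Finset V} {v : V} (h1 : v ∈ σ) (h2 : v ∈ s) : ¬ Disjoint σ s := fun h =>
  Finset.disjoint_left.1 h h1 h2

private theorem bdy_tr {s σ : Finset V} (hd : Disjoint σ s) (f : Finset V → ZMod 2) :
    bdy2 (tr s f) σ = ∑ v ∈ (σ ∪ s)ᶜ, f (insert v (σ ∪ s)) := by
  unfold bdy2
  have hsub : (σ ∪ s)ᶜ ⊆ σᶜ := Finset.compl_subset_compl.2 Finset.subset_union_left
  rw [← Finset.sum_subset hsub]
  · refine Finset.sum_congr rfl fun v hv => ?_
    rw [Finset.mem_compl, Finset.mem_union, not_or] at hv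
    rw [tr_of, Finset.insert_union]
    rw [Finset.disjoint_insert_left]
    exact ⟨hv.2, hd⟩
  · intro v hv hv'
    rw [Finset.mem_compl] at hv hv'
    rw [not_not, Finset.mem_union] at hv'
    exact tr_not (nd_of_mem (Finset.mem_insert_self v σ) (hv'.resolve_left hv)) f

private theorem bdy_tr' {s σ : Finset V} (hd : ¬ Disjoint σ s) (f : Finset V → ZMod 2) :
    bdy2 (tr s f) σ = 0 := by
  unfold bdy2
  refine Finset.sum_eq_zero fun v _ => tr_not (fun h => hd ?_) f
  exact Finset.disjoint_of_subset_left (Finset.subset_insert v σ) h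

omit [Fintype V] in
private theorem tr_link {G : SimpleGraph V} {s : Finset V} {j : ℕ} {f : Finset V → ZMod 2}
    (hf : ∀ t, f t ≠ 0 → G.IsClique (t : Set V) ∧ s ⊆ t ∧ t.card = j + s.card) : LinkCh2 G s j (tr s f) := by
  intro σ hσ
  by_cases hd : Disjoint σ s
  · rw [tr_of hd] at hσ
    obtain ⟨h1, _, h3⟩ := hf _ hσ
    rw [Finset.card_union_of_disjoint hd] at h3
    exact ⟨hd, h1, by omega⟩
  · exact absurd (tr_not hd f) hσ

private theorem bdy_tr_zero {s : Finset V} {f : Finset V → ZMod 2}
    (hf : ∀ t, s ⊆ t → ∑ v ∈ tᶜ, f (insert v t) = 0) : bdy2 (tr s f) = 0 := by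
  funext σ
  by_cases hd : Disjoint σ s
  · rw [bdy_tr hd]
    exact hf _ Finset.subset_union_right
  · exact bdy_tr' hd f

/-- translation back -/
private theorem sum_back {G : SimpleGraph V} {s : Finset V} {j : ℕ} {y : Finset V → ZMod 2}
    (hy : LinkCh2 G s j y) {t : Finset V} (ht : s ⊆ t) :
    ∑ v ∈ tᶜ, (if s ⊆ insert v t then y (insert v t \ s) else 0) = bdy2 y (t \ s) := by
  unfold bdy2
  have hsub : tᶜ ⊆ (t \ s)ᶜ := Finset.compl_subset_compl.2 Finset.sdiff_subset
  rw [← Finset.sum_subset hsub]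
  · refine Finset.sum_congr rfl fun v hv => ?_
    rw [Finset.mem_compl] at hv
    rw [if_pos (ht.trans (Finset.subset_insert v t)), Finset.insert_sdiff_of_notMem _ fun h => hv (ht h)]
  · intro v hv hv'
    rw [Finset.mem_compl] at hv hv'
    rw [not_not] at hv'
    rw [Finset.mem_sdiff, not_and, not_not] at hv
    by_contra hne
    exact nd_of_mem (Finset.mem_insert_self v (t \ s)) (hv hv') (hy _ hne).1

variable {G : SimpleGraph V} {n : ℕ}

private theorem uniq (h : HomologySphere2 G n) {s : Finset V} (hs : G.IsClique (s : Set V)) {j : ℕ}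
    (hj : j + s.card = n) {z z' : Finset V → ZMod 2} (h1 : LinkCh2 G s j z) (h2 : bdy2 z = 0) (h3 : z ≠ 0)
    (h1' : LinkCh2 G s j z') (h2' : bdy2 z' = 0) (h3' : z' ≠ 0) : z = z' := by
  obtain ⟨o, _, _, _, ho⟩ := h.top s hs j hj
  rw [(ho z h1 h2).resolve_left h3, (ho z' h1' h2').resolve_left h3']

/-- existence of facets -/
private theorem facet (h : HomologySphere2 G n) {s : Finset V} (hs : G.IsClique (s : Set V)) :
    ∃ σ : Finset V, Disjoint σ s ∧ G.IsClique ((σ ∪ s : Finset V) : Set V) ∧ σ.card + s.card = n := by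
  have hc := h.dim s hs
  obtain ⟨o, h1, _, h3, _⟩ := h.top s hs (n - s.card) (by omega)
  obtain ⟨σ, hσ⟩ := Function.ne_iff.1 h3
  obtain ⟨h4, h5, h6⟩ := h1 σ hσ
  exact ⟨σ, h4, h5, by omega⟩

/-- restriction to the link of a vertex -/
private def ov (o : Finset V → ZMod 2) (v : V) (σ : Finset V) : ZMod 2 := if v ∈ σ then 0 else o (insert v σ)

omit [Fintype V] in
private theorem ov_link {s : Finset V} {k : ℕ} {o : Finset V → ZMod 2} (ho : LinkCh2 G s (k + 1) o) (v : V) :
    LinkCh2 G (insert v s) k (ov o v) := by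
  intro σ hσ
  unfold ov at hσ
  split_ifs at hσ with hv
  · exact absurd rfl hσ
  · obtain ⟨h1, h2, h3⟩ := ho _ hσ
    rw [Finset.disjoint_insert_left] at h1
    rw [Finset.card_insert_of_notMem hv] at h3
    refine ⟨?_, ?_, by omega⟩
    · rw [Finset.disjoint_insert_right]
      exact ⟨hv, h1.2⟩
    · rwa [Finset.union_insert, ← Finset.insert_union]

private theorem ov_bdy {o : Finset V → ZMod 2} (ho : bdy2 o = 0) (v : V) : bdy2 (ov o v) = 0 := by
  funext σ
  show ∑ w ∈ σᶜ, ov o v (insert w σ) = 0
  by_cases hv : v ∈ σ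
  · exact Finset.sum_eq_zero fun w _ => if_pos (Finset.mem_insert_of_mem hv)
  · have h1 : (∑ w ∈ (insert v σ)ᶜ, o (insert w (insert v σ))) = 0 := congrFun ho (insert v σ)
    rw [← h1]
    have hsub : (insert v σ)ᶜ ⊆ σᶜ := Finset.compl_subset_compl.2 (Finset.subset_insert v σ)
    rw [← Finset.sum_subset hsub]
    · refine Finset.sum_congr rfl fun w hw => ?_
      rw [Finset.mem_compl, Finset.mem_insert, not_or] at hw
      have h2 : v ∉ insert w σ := by
        rw [Finset.mem_insert, not_or]
        exact ⟨fun h => hw.1 h.symm, hv⟩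
      show (if v ∈ insert w σ then 0 else o (insert v (insert w σ))) = _
      rw [if_neg h2, Finset.insert_comm]
    · intro w hw hw'
      rw [Finset.mem_compl] at hw hw'
      rw [not_not, Finset.mem_insert] at hw'
      have h3 : w = v := hw'.resolve_right hw
      rw [h3]
      exact if_pos (Finset.mem_insert_self v σ)

/-- the sum of two vertices -/
private def two (v w : V) (σ : Finset V) : ZMod 2 := if σ = {v} ∨ σ = {w} then 1 else 0

omit [Fintype V] in
private theorem two_link {s : Finset V} {v w : V} (hv : v ∉ s) (hv' : G.IsClique ((insert v s : Finset V) : Set V))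
    (hw : w ∉ s) (hw' : G.IsClique ((insert w s : Finset V) : Set V)) : LinkCh2 G s 1 (two v w) := by
  intro σ hσ
  unfold two at hσ
  split_ifs at hσ with h
  · rcases h with rfl | rfl
    · exact ⟨Finset.disjoint_singleton_left.2 hv, by rwa [← Finset.insert_eq], Finset.card_singleton v⟩
    · exact ⟨Finset.disjoint_singleton_left.2 hw, by rwa [← Finset.insert_eq], Finset.card_singleton w⟩
  · exact absurd rfl hσ

private theorem two_bdy {v w : V} (hvw : v ≠ w) : bdy2 (two v w) = 0 := by
  funext σ
  show ∑ u ∈ σᶜ, two v w (insert u σ) = 0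
  rcases Finset.eq_empty_or_nonempty σ with rfl | ⟨x, hx⟩
  · have h1 : ∀ u : V, two v w (insert u ∅) = (if u = v then 1 else 0) + (if u = w then 1 else 0) := by
      intro u
      unfold two
      rw [insert_empty_eq]
      simp only [Finset.singleton_inj]
      by_cases h1 : u = v
      · have h2 : u ≠ w := fun h => hvw (h1.symm.trans h)
        simp [h1, hvw]
      · by_cases h2 : u = w
        · simp [h2]
          intro h3
          exact absurd h3.symm hvw
        · simp [h1, h2]
    rw [Finset.sum_congr rfl fun u _ => h1 u, Finset.sum_add_distrib]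
    simp
    decide
  · refine Finset.sum_eq_zero fun u hu => ?_
    rw [Finset.mem_compl] at hu
    unfold two
    rw [if_neg]
    have h2 : ∀ y : V, insert u σ ≠ {y} := by
      intro y hy
      have h3 : u = y := Finset.mem_singleton.1 (hy ▸ Finset.mem_insert_self u σ)
      have h4 : x = y := Finset.mem_singleton.1 (hy ▸ Finset.mem_insert_of_mem hx)
      exact hu (by rw [h3, ← h4]; exact hx)
    rintro (h | h)
    · exact h2 v h
    · exact h2 w h

private theorem sum_symm (P : Finset V) (g : V → V → ZMod 2) (h1 : ∀ u x, g u x = g x u) (h2 : ∀ u, g u u = 0) :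
    ∑ u ∈ P, ∑ x ∈ P, g u x = 0 := by
  rw [← Finset.sum_product']
  refine Finset.sum_involution (fun a _ => (a.2, a.1)) ?_ ?_ ?_ ?_
  · intro a _
    show g a.1 a.2 + g a.2 a.1 = 0
    rw [h1 a.2 a.1]
    exact CharTwo.add_self_eq_zero _
  · intro a _ hne heq
    apply hne
    have h3 : a.2 = a.1 := congrArg Prod.fst heq
    show g a.1 a.2 = 0
    rw [h3]
    exact h2 _
  · intro a ha
    rw [Finset.mem_product] at ha ⊢
    exact ⟨ha.2, ha.1⟩
  · intro a _
    rfl

/-- the cycle of the top degree is one on all facets -/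
private theorem ind (h : HomologySphere2 G n) : ∀ k : ℕ, ∀ s : Finset V, G.IsClique (s : Set V) →
    k + s.card = n → ∀ o : Finset V → ZMod 2, LinkCh2 G s k o → bdy2 o = 0 → o ≠ 0 →
      ∀ σ : Finset V, Disjoint σ s → G.IsClique ((σ ∪ s : Finset V) : Set V) → σ.card = k → o σ = 1 := by
  intro k
  induction k with
  | zero =>
    intro s _ _ o h1 _ h3 σ _ _ hσ
    obtain ⟨τ, hτ⟩ := Function.ne_iff.1 h3
    have h4 := (h1 τ hτ).2.2
    rw [Finset.card_eq_zero] at h4 hσ
    rw [hσ, ← h4]
    exact z2 _ hτ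
  | succ k ih =>
    intro s hs hk o h1 h2 h3 σ hσ1 hσ2 hσ3
    classical
    have hcl : ∀ {v : V} {τ : Finset V}, v ∈ τ → G.IsClique ((τ ∪ s : Finset V) : Set V) →
        G.IsClique ((insert v s : Finset V) : Set V) := by
      intro v τ hv hτ
      refine hτ.subset ?_
      intro x hx
      rw [Finset.mem_coe, Finset.mem_insert] at hx
      rw [Finset.mem_coe, Finset.mem_union]
      rcases hx with rfl | hx
      · exact Or.inl hv
      · exact Or.inr hx
    -- if the restriction to `v` is not zero, then the cycle is one on the facets with `v`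
    have key : ∀ v : V, v ∉ s → G.IsClique ((insert v s : Finset V) : Set V) → ov o v ≠ 0 →
        ∀ τ : Finset V, v ∈ τ → Disjoint τ s → G.IsClique ((τ ∪ s : Finset V) : Set V) →
          τ.card = k + 1 → o τ = 1 := by
      intro v hv hv' hne τ hvτ hτ1 hτ2 hτ3
      have h5 : k + (insert v s).card = n := by
        rw [Finset.card_insert_of_notMem hv]
        omega
      have h6 := ih (insert v s) hv' h5 (ov o v) (ov_link h1 v) (ov_bdy h2 v) hne (τ.erase v) ?_ ?_ ?_
      · have h7 : ov o v (τ.erase v) = o τ := by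
          unfold ov
          rw [if_neg (Finset.notMem_erase v τ), Finset.insert_erase hvτ]
        rw [← h7, h6]
      · rw [Finset.disjoint_insert_right]
        exact ⟨Finset.notMem_erase v τ, Finset.disjoint_of_subset_left (Finset.erase_subset v τ) hτ1⟩
      · rw [Finset.union_insert, ← Finset.insert_union, Finset.insert_erase hvτ]
        exact hτ2
      · rw [Finset.card_erase_of_mem hvτ, hτ3]
        rfl
    -- conversely
    have key' : ∀ v : V, ∀ τ : Finset V, v ∈ τ → o τ = 1 → ov o v ≠ 0 := by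
      intro v τ hvτ hτ h8
      have h7 : ov o v (τ.erase v) = o τ := by
        unfold ov
        rw [if_neg (Finset.notMem_erase v τ), Finset.insert_erase hvτ]
      rw [h8, hτ, Pi.zero_apply] at h7
      exact absurd h7 (by decide)
    -- a vertex where the restriction is not zero
    obtain ⟨τ, hτ⟩ := Function.ne_iff.1 h3
    obtain ⟨hτ1, hτ2, hτ3⟩ := h1 τ hτ
    obtain ⟨v, hv⟩ : τ.Nonempty := by
      rw [← Finset.card_pos, hτ3]
      omega
    have hvs : v ∉ s := Finset.disjoint_left.1 hτ1 hv
    have hvc := hcl hv hτ2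
    have hvne : ov o v ≠ 0 := key' v τ hv (z2 _ hτ)
    obtain ⟨w, hw⟩ : σ.Nonempty := by
      rw [← Finset.card_pos, hσ3]
      omega
    have hws : w ∉ s := Finset.disjoint_left.1 hσ1 hw
    have hwc := hcl hw hσ2
    by_cases hwne : ov o w = 0
    swap
    · exact key w hws hwc hwne σ hw hσ1 hσ2 hσ3
    exfalso
    have hvw : v ≠ w := by
      rintro rfl
      exact hvne hwne
    have hz1 := two_link hvs hvc hws hwc
    have hz2 : bdy2 (two v w) = 0 := two_bdy hvw
    rcases Nat.eq_zero_or_pos k with hk0 | hk0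
    · have hz3 : two v w ≠ 0 := by
        intro h9
        have h10 := congrFun h9 {v}
        unfold two at h10
        rw [if_pos (Or.inl rfl), Pi.zero_apply] at h10
        exact absurd h10 (by decide)
      subst hk0
      have h11 := uniq h hs hk h1 h2 h3 hz1 hz2 hz3
      refine key' w {w} (Finset.mem_singleton_self w) ?_ hwne
      rw [h11]
      exact if_pos (Or.inr rfl)
    · obtain ⟨y, hy1, hy2⟩ := h.low s hs 1 (by omega) (two v w) hz1 hz2
      set P : Finset V := univ.filter fun u =>
        u ∉ s ∧ G.IsClique ((insert u s : Finset V) : Set V) ∧ ov o u ≠ 0 with hP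
      have hPcl : ∀ u ∈ P, ∀ x, x ≠ u → y {x, u} ≠ 0 → x ∈ P := by
        intro u hu x hxu hne
        rw [hP, Finset.mem_filter] at hu ⊢
        obtain ⟨-, hu1, hu2, hu3⟩ := hu
        obtain ⟨hd, hc, -⟩ := hy1 _ hne
        have hxs : x ∉ s := Finset.disjoint_left.1 hd (Finset.mem_insert_self x _)
        refine ⟨Finset.mem_univ x, hxs, hcl (Finset.mem_insert_self x {u}) hc, ?_⟩
        obtain ⟨η, he1, he2, he3⟩ := facet h hc
        refine key' x (η ∪ {x, u}) ?_ ?_
        · exact Finset.mem_union_right _ (Finset.mem_insert_self x _)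
        · refine key u hu1 hu2 hu3 _ ?_ ?_ ?_ ?_
          · exact Finset.mem_union_right _ (Finset.mem_insert_of_mem (Finset.mem_singleton_self u))
          · rw [Finset.disjoint_union_left]
            exact ⟨Finset.disjoint_of_subset_right Finset.subset_union_right he1, hd⟩
          · rw [Finset.union_assoc]
            exact he2
          · have e1 : Disjoint η ({x, u} : Finset V) :=
              Finset.disjoint_of_subset_right Finset.subset_union_left he1
            rw [Finset.card_union_of_disjoint hd] at he3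
            rw [Finset.card_union_of_disjoint e1]
            omega
      have e1 : ∑ u ∈ P, two v w {u} = 1 := by
        rw [Finset.sum_eq_single v]
        · exact if_pos (Or.inl rfl)
        · intro u hu huv
          unfold two
          rw [if_neg]
          rintro (h12 | h12)
          · exact huv (Finset.singleton_injective h12)
          · rw [Finset.singleton_injective h12, hP, Finset.mem_filter] at hu
            exact hu.2.2.2 hwne
        · intro hv'
          exfalso
          apply hv'
          rw [hP, Finset.mem_filter]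
          exact ⟨Finset.mem_univ v, hvs, hvc, hvne⟩
      have e2 : ∑ u ∈ P, two v w {u} = 0 := by
        have e3 : ∀ u ∈ P, two v w {u} = ∑ x ∈ P, (if x = u then 0 else y {x, u}) := by
          intro u hu
          rw [← hy2]
          show ∑ x ∈ ({u} : Finset V)ᶜ, y (insert x {u}) = _
          have e4 : ∑ x ∈ ({u} : Finset V)ᶜ, y (insert x {u}) = ∑ x : V, (if x = u then 0 else y {x, u}) := by
            rw [← Finset.sum_subset (Finset.subset_univ ({u} : Finset V)ᶜ)]
            · refine Finset.sum_congr rfl fun x hx => ?_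
              rw [Finset.mem_compl, Finset.mem_singleton] at hx
              rw [if_neg hx]
            · intro x _ hx
              rw [Finset.mem_compl, Finset.mem_singleton, not_not] at hx
              rw [if_pos hx]
          rw [e4]
          symm
          refine Finset.sum_subset (Finset.subset_univ P) fun x _ hx => ?_
          by_contra hne
          by_cases hxu : x = u
          · rw [if_pos hxu] at hne
            exact hne rfl
          · rw [if_neg hxu] at hne
            exact hx (hPcl u hu x hxu hne)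
        rw [Finset.sum_congr rfl e3]
        refine sum_symm P (fun u x => if x = u then 0 else y {x, u}) (fun u x => ?_) fun u => if_pos rfl
        by_cases hxu : x = u
        · simp [hxu]
        · have hux : ¬ u = x := fun h => hxu h.symm
          simp only [hxu, hux, if_false]
          rw [Finset.pair_comm]
      rw [e1] at e2
      exact absurd e2 (by decide)

end aux

section RankCmp

end RankCmp

end Pool.Agent.H19.SR

end

section

/-!
# Singer project: right-angled Coxeter groups are residually finite two-groups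
-/

set_option autoImplicit false
set_option linter.unusedSectionVars false

open Finset

namespace Pool.Agent.H4.Singer

variable {V : Type}

namespace NilCox

variable (G : SimpleGraph V) (L : ℕ)

/-- the length function -/
noncomputable abbrev len (w : RGrp G) : ℕ := (racg G).toCoxeterSystem.length w

/-- the standard generators of the Coxeter system -/
noncomputable abbrev sg (v : V) : RGrp G := (racg G).toCoxeterSystem.simple v

/-- the ball of radius `L` -/
abbrev Ball : Type := {w : RGrp G // len G w ≤ L}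

/-- the linear automorphisms of the functions on the ball -/
abbrev Aut : Type := (Ball G L → ZMod 2) ≃ₗ[ZMod 2] (Ball G L → ZMod 2)

/-- the nil-Coxeter operators -/
noncomputable def X (v : V) (g : Ball G L → ZMod 2) : Ball G L → ZMod 2 :=
  fun w => if h : len G (sg G v * w.1) < len G w.1 then g ⟨sg G v * w.1, h.le.trans w.2⟩ else 0

variable {G L}

lemma add_self' (g : Ball G L → ZMod 2) : g + g = 0 := by
  funext w
  exact CharTwo.add_self_eq_zero _

lemma X_pos {v : V} {g : Ball G L → ZMod 2} {w : Ball G L}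
    (h : len G (sg G v * w.1) < len G w.1) :
    X G L v g w = g ⟨sg G v * w.1, h.le.trans w.2⟩ := dif_pos h

lemma X_neg {v : V} {g : Ball G L → ZMod 2} {w : Ball G L}
    (h : ¬ len G (sg G v * w.1) < len G w.1) : X G L v g w = 0 := dif_neg h

lemma X_add (v : V) (g h : Ball G L → ZMod 2) : X G L v (g + h) = X G L v g + X G L v h := by
  funext w
  simp only [Pi.add_apply]
  by_cases hw : len G (sg G v * w.1) < len G w.1
  · rw [X_pos hw, X_pos hw, X_pos hw]
    rfl
  · rw [X_neg hw, X_neg hw, X_neg hw, add_zero]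

lemma X_smul (v : V) (c : ZMod 2) (g : Ball G L → ZMod 2) :
    X G L v (c • g) = c • X G L v g := by
  funext w
  simp only [Pi.smul_apply]
  by_cases hw : len G (sg G v * w.1) < len G w.1
  · rw [X_pos hw, X_pos hw]
    rfl
  · rw [X_neg hw, X_neg hw, smul_zero]

lemma len_mul (v : V) (w : RGrp G) :
    len G (sg G v * w) = len G w + 1 ∨ len G (sg G v * w) + 1 = len G w :=
  (racg G).toCoxeterSystem.length_simple_mul w v

lemma sg_cancel (v : V) (w : RGrp G) : sg G v * (sg G v * w) = w :=
  (racg G).toCoxeterSystem.simple_mul_simple_cancel_left v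

lemma X_X (v : V) (g : Ball G L → ZMod 2) : X G L v (X G L v g) = 0 := by
  funext w
  by_cases hw : len G (sg G v * w.1) < len G w.1
  · rw [X_pos hw, X_neg]
    · rfl
    · simp only [sg_cancel]
      omega
  · rw [X_neg hw]
    rfl

lemma XX_eq (u v : V) (g : Ball G L → ZMod 2) (w : Ball G L) :
    X G L u (X G L v g) w = if h : len G (sg G v * (sg G u * w.1)) + 2 = len G w.1 then
      g ⟨sg G v * (sg G u * w.1), by have := w.2; omega⟩ else 0 := by
  have h1 := len_mul u w.1
  have h2 := len_mul v (sg G u * w.1)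
  by_cases hw : len G (sg G u * w.1) < len G w.1
  · rw [X_pos hw]
    by_cases hw2 : len G (sg G v * (sg G u * w.1)) < len G (sg G u * w.1)
    · rw [X_pos hw2, dif_pos (by omega)]
    · rw [X_neg hw2, dif_neg (by omega)]
  · rw [X_neg hw, dif_neg (by omega)]

open Classical in
lemma sg_comm {u v : V} (h : G.Adj u v) : sg G u * sg G v = sg G v * sg G u := by
  have h1 := (racg G).toCoxeterSystem.simple_mul_simple_pow u v
  have h2 : (racg G) u v = 2 := by
    change (if u = v then 1 else if G.Adj u v then 2 else 0) = 2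
    rw [if_neg h.ne, if_pos h]
  rw [h2, sq] at h1
  have hu := (racg G).toCoxeterSystem.simple_mul_simple_self u
  have hv := (racg G).toCoxeterSystem.simple_mul_simple_self v
  have h3 : sg G u * sg G v = (sg G u * sg G v)⁻¹ := eq_inv_of_mul_eq_one_left h1
  rw [h3, mul_inv_rev]
  rw [inv_eq_of_mul_eq_one_left hu, inv_eq_of_mul_eq_one_left hv]

lemma X_comm {u v : V} (h : G.Adj u v) (g : Ball G L → ZMod 2) :
    X G L u (X G L v g) = X G L v (X G L u g) := by
  funext w
  rw [XX_eq, XX_eq]
  have h1 : sg G v * (sg G u * w.1) = sg G u * (sg G v * w.1) := by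
    rw [← mul_assoc, ← mul_assoc, sg_comm h]
  simp only [h1]

/-- the operators `1 + X v` -/
noncomputable def Y (G : SimpleGraph V) (L : ℕ) (v : V) : Aut G L where
  toFun g := g + X G L v g
  invFun g := g + X G L v g
  left_inv g := by
    change g + X G L v g + X G L v (g + X G L v g) = g
    rw [X_add, X_X, add_zero, add_assoc, add_self', add_zero]
  right_inv g := by
    change g + X G L v g + X G L v (g + X G L v g) = g
    rw [X_add, X_X, add_zero, add_assoc, add_self', add_zero]
  map_add' g h := by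
    rw [X_add]
    abel
  map_smul' c g := by
    rw [X_smul, RingHom.id_apply, smul_add]

lemma Y_apply (v : V) (g : Ball G L → ZMod 2) : Y G L v g = g + X G L v g := rfl

lemma Y_Y (v : V) : Y G L v * Y G L v = 1 := by
  ext1 g
  exact (Y G L v).left_inv g

lemma Y_comm {u v : V} (h : G.Adj u v) : Y G L u * Y G L v = Y G L v * Y G L u := by
  ext1 g
  change g + X G L v g + X G L u (g + X G L v g) = g + X G L u g + X G L v (g + X G L u g)
  rw [X_add, X_add, X_comm h]
  abel

open Classical in
lemma liftable (G : SimpleGraph V) (L : ℕ) : (racg G).IsLiftable (Y G L) := by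
  intro u v
  change (Y G L u * Y G L v) ^ (if u = v then 1 else if G.Adj u v then 2 else 0) = 1
  split_ifs with h1 h2
  · rw [h1, pow_one, Y_Y]
  · rw [sq]
    calc Y G L u * Y G L v * (Y G L u * Y G L v)
        = Y G L u * Y G L v * (Y G L v * Y G L u) := by rw [← Y_comm h2]
      _ = Y G L u * (Y G L v * Y G L v) * Y G L u := by simp only [mul_assoc]
      _ = 1 := by rw [Y_Y, mul_one, Y_Y]
  · rw [pow_zero]

/-- the representation -/
noncomputable def rep (G : SimpleGraph V) (L : ℕ) : RGrp G →* Aut G L :=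
  (racg G).toCoxeterSystem.lift ⟨Y G L, liftable G L⟩

lemma rep_sg (v : V) : rep G L (sg G v) = Y G L v :=
  (racg G).toCoxeterSystem.lift_apply_simple (liftable G L) v

/-- `g` is supported on lengths `≥ m` -/
def Low (m : ℕ) (g : Ball G L → ZMod 2) : Prop := ∀ w, g w ≠ 0 → m ≤ len G w.1

/-- `g` is supported on lengths `≤ m` -/
def High (m : ℕ) (g : Ball G L → ZMod 2) : Prop := ∀ w, g w ≠ 0 → len G w.1 ≤ m

lemma Low.add {m : ℕ} {g h : Ball G L → ZMod 2} (hg : Low m g) (hh : Low m h) : Low m (g + h) := by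
  intro w hw
  by_contra hc
  have h1 : g w = 0 := by
    by_contra h2
    exact hc (hg w h2)
  have h2 : h w = 0 := by
    by_contra h2
    exact hc (hh w h2)
  exact hw (by rw [Pi.add_apply, h1, h2, add_zero])

lemma Low.mono {m n : ℕ} {g : Ball G L → ZMod 2} (hg : Low m g) (h : n ≤ m) : Low n g :=
  fun w hw => h.trans (hg w hw)

/-- unipotent maps -/
def Uni (k : ℕ) (T : Aut G L) : Prop :=
  ∀ m g, Low m g → Low (m + k) (T g + g)

lemma Uni.low {k : ℕ} {T : Aut G L} (hT : Uni k T) {m : ℕ}
    {g : Ball G L → ZMod 2} (hg : Low m g) : Low m (T g) := by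
  have h1 : T g = (T g + g) + g := by rw [add_assoc, add_self', add_zero]
  rw [h1]
  exact ((hT m g hg).mono (Nat.le_add_right _ _)).add hg

lemma Uni.one (k : ℕ) : Uni k (1 : Aut G L) := by
  intro m g _ w hw
  exact absurd (by
    change (g + g) w = 0
    rw [add_self']
    rfl) hw

lemma Uni.mul {k : ℕ} {S T : Aut G L} (hS : Uni k S) (hT : Uni k T) :
    Uni k (S * T) := by
  intro m g hg
  have h1 : (S * T) g + g = (S (T g) + T g) + (T g + g) := by
    change S (T g) + g = _
    rw [add_assoc, ← add_assoc (T g) (T g) g, add_self', zero_add]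
  rw [h1]
  exact (hS m _ (hT.low hg)).add (hT m g hg)

lemma Uni.sq {k : ℕ} {T : Aut G L} (hT : Uni k T) : Uni (k + k) (T * T) := by
  intro m g hg
  have h1 : (T * T) g + g = T (T g + g) + (T g + g) := by
    change T (T g) + g = _
    rw [map_add, add_assoc, ← add_assoc (T g) (T g) g, add_self', zero_add]
  rw [h1, ← add_assoc]
  exact hT _ _ (hT m g hg)

lemma Uni.pow {T : Aut G L} (hT : Uni 1 T) (a : ℕ) :
    Uni (2 ^ a) (T ^ 2 ^ a) := by
  induction a with
  | zero => simpa using hT
  | succ a ih =>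
    have h1 : T ^ 2 ^ (a + 1) = T ^ 2 ^ a * T ^ 2 ^ a := by
      rw [← pow_add]
      congr 1
      ring
    rw [h1, pow_succ 2 a, mul_two]
    exact ih.sq

lemma Uni.eq_one {k : ℕ} {T : Aut G L} (hT : Uni k T) (hk : L < k) : T = 1 := by
  ext1 g
  change T g = g
  have h1 : Low 0 g := fun w _ => Nat.zero_le _
  have h2 := hT 0 g h1
  have h3 : T g + g = 0 := by
    funext w
    by_contra hw
    have := h2 w hw
    have := w.2
    omega
  calc T g = (T g + g) + g := by rw [add_assoc, add_self', add_zero]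
    _ = g := by rw [h3, zero_add]

lemma uni_Y (v : V) : Uni 1 (Y G L v) := by
  intro m g hg w hw
  have h1 : (Y G L v g + g) = X G L v g := by
    rw [Y_apply, add_comm g, add_assoc, add_self', add_zero]
  rw [h1] at hw
  by_cases hlt : len G (sg G v * w.1) < len G w.1
  · rw [X_pos hlt] at hw
    have := hg _ hw
    simp only at this
    omega
  · exact absurd (X_neg hlt) hw

lemma uni_rep (w : RGrp G) : Uni 1 (rep G L w) := by
  refine (racg G).toCoxeterSystem.simple_induction_left (p := fun w => Uni 1 (rep G L w)) w ?_ ?_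
  · rw [map_one]
    exact Uni.one 1
  · intro w i hw
    rw [map_mul]
    have h1 : rep G L ((racg G).toCoxeterSystem.simple i) = Y G L i := rep_sg i
    rw [h1]
    exact (uni_Y i).mul hw

lemma high_Y {v : V} {m : ℕ} {g : Ball G L → ZMod 2} (hg : High m g) :
    High (m + 1) (Y G L v g) := by
  intro w hw
  by_contra hc
  push Not at hc
  apply hw
  rw [Y_apply, Pi.add_apply]
  have h1 : g w = 0 := by
    by_contra h
    have := hg w h
    omega
  rw [h1, zero_add]
  by_cases hlt : len G (sg G v * w.1) < len G w.1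
  · rw [X_pos hlt]
    by_contra h
    have := hg _ h
    have h2 := len_mul v w.1
    simp only at this
    omega
  · exact X_neg hlt

open Classical in
/-- the delta function at `1` -/
noncomputable def del (G : SimpleGraph V) (L : ℕ) : Ball G L → ZMod 2 :=
  fun w => if w.1 = 1 then 1 else 0

lemma high_del : High 0 (del G L) := by
  intro w hw
  unfold del at hw
  split_ifs at hw with h
  · rw [h]
    exact ((racg G).toCoxeterSystem.length_one).le
  · exact absurd rfl hw

lemma high_word (ω : List V) :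
    High ω.length (rep G L ((racg G).toCoxeterSystem.wordProd ω) (del G L)) := by
  induction ω with
  | nil =>
    rw [CoxeterSystem.wordProd_nil, map_one]
    exact high_del
  | cons v ω ih =>
    rw [CoxeterSystem.wordProd_cons, map_mul]
    have h1 : rep G L ((racg G).toCoxeterSystem.simple v) = Y G L v := rep_sg v
    rw [h1]
    exact high_Y ih

lemma value_word (ω : List V) (hω : (racg G).toCoxeterSystem.IsReduced ω) (hL : ω.length ≤ L) :
    rep G L ((racg G).toCoxeterSystem.wordProd ω) (del G L)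
      ⟨(racg G).toCoxeterSystem.wordProd ω, hω.eq.le.trans hL⟩ = 1 := by
  induction ω with
  | nil =>
    simp only [CoxeterSystem.wordProd_nil, map_one]
    change del G L _ = 1
    unfold del
    rw [if_pos rfl]
  | cons v ω ih =>
    have hr : (racg G).toCoxeterSystem.IsReduced ω := by
      have := hω.drop 1
      simpa using this
    have hl : ω.length ≤ L := by
      rw [List.length_cons] at hL
      omega
    have ih' := ih hr hl
    have hlen : len G ((racg G).toCoxeterSystem.wordProd ω) = ω.length := hr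
    have hlen2 : len G (sg G v * (racg G).toCoxeterSystem.wordProd ω) = ω.length + 1 := by
      have := hω
      unfold CoxeterSystem.IsReduced at this
      rw [CoxeterSystem.wordProd_cons, List.length_cons] at this
      exact this
    simp only [CoxeterSystem.wordProd_cons, map_mul]
    have h1 : rep G L ((racg G).toCoxeterSystem.simple v) = Y G L v := rep_sg v
    rw [h1]
    change Y G L v (rep G L ((racg G).toCoxeterSystem.wordProd ω) (del G L)) _ = 1
    rw [Y_apply, Pi.add_apply]
    have h2 : rep G L ((racg G).toCoxeterSystem.wordProd ω) (del G L)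
        ⟨(racg G).toCoxeterSystem.simple v * (racg G).toCoxeterSystem.wordProd ω, by
          change len G _ ≤ L
          rw [hlen2]
          rw [List.length_cons] at hL
          exact hL⟩ = 0 := by
      by_contra h
      have := high_word ω _ h
      simp only at this
      rw [hlen2] at this
      omega
    rw [h2, zero_add, X_pos]
    · convert ih' using 2
      ext1
      exact sg_cancel v _
    · simp only [sg_cancel]
      rw [hlen2, hlen]
      exact Nat.lt_succ_self _

instance finite_ball [Finite V] (G : SimpleGraph V) (L : ℕ) : Finite (Ball G L) := by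
  have h1 : Finite {l : List V // l.length ≤ L} := (List.finite_length_le V L).to_subtype
  refine Finite.of_surjective (fun l : {l : List V // l.length ≤ L} =>
    (⟨(racg G).toCoxeterSystem.wordProd l.1,
      ((racg G).toCoxeterSystem.length_wordProd_le l.1).trans l.2⟩ : Ball G L)) ?_
  rintro ⟨w, hw⟩
  obtain ⟨ω, h2, h3⟩ := (racg G).toCoxeterSystem.exists_isReduced w
  refine ⟨⟨ω, ?_⟩, ?_⟩
  · rw [← h2, ← h3]
    exact hw
  · ext1
    exact h3.symm

end NilCox

/-- Residual two-finiteness (separately for each length). Proof with the nil-Coxeter operators: let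
`B` be the (finite) set of the `w` with `ℓ w ≤ L`, and for `v : V` define the operator `X v` on
functions `g : B → ZMod 2` by `(X v g) w = g (s v * w)` if `ℓ (s v * w) < ℓ w` and `0` otherwise.
Then `X v ^ 2 = 0` and `X u X v = X v X u` for adjacent `u, v` (both are
`w ↦ g (s v s u w)` if `ℓ (s v s u w) + 2 = ℓ w` and `0` otherwise, since multiplication with a
generator changes the length by exactly one). Hence `s v ↦ 1 + X v` defines a homomorphism `π` to
the group `P` of the invertible linear maps (or permutations of the finite set `B → ZMod 2`) `T` such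
that `T - 1` raises the length filtration strictly: if `g` is supported on lengths `≥ m`, then
`T g - g` is supported on lengths `≥ m + 1`. Every such `T` satisfies `T ^ (2 ^ a) = 1` for
`2 ^ a > L` because `T ^ (2 ^ a) = 1 + (T - 1) ^ (2 ^ a)` in characteristic two; so `P` is a finite
two-group. If `w = s₁ ⋯ s_l` is a reduced word, `l = ℓ w ≤ L`, then the value at `w` of
`π w δ_1 = (1 + X s₁) ⋯ (1 + X s_l) δ_1` is `1`: the other terms of the product expansion
are supported on lengths `< l`. For `w ≠ 1` the value of `δ_1` at `w` is `0`, so `π w ≠ 1`. -/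
theorem exists_two_group [Finite V] (G : SimpleGraph V) (L : ℕ) :
    ∃ (P : Type) (_ : Group P) (_ : Fintype P) (π : RGrp G →* P), IsPGroup 2 P ∧
      ∀ w : RGrp G, w ≠ 1 → (racg G).toCoxeterSystem.length w ≤ L → π w ≠ 1 := by
  classical
  have hfin : Finite (NilCox.Aut G L) :=
    Finite.of_injective (fun T => (T : (NilCox.Ball G L → ZMod 2) → (NilCox.Ball G L → ZMod 2)))
      DFunLike.coe_injective
  refine ⟨(NilCox.rep G L).range, inferInstance, Fintype.ofFinite _, (NilCox.rep G L).rangeRestrict,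
    ?_, ?_⟩
  · rintro ⟨T, w, rfl⟩
    refine ⟨L + 1, ?_⟩
    ext1
    change NilCox.rep G L w ^ 2 ^ (L + 1) = 1
    refine ((NilCox.uni_rep w).pow (L + 1)).eq_one ?_
    exact lt_trans (Nat.lt_succ_self L) (Nat.lt_two_pow_self)
  · intro w hw hl h1
    obtain ⟨ω, hr, hω⟩ := (racg G).toCoxeterSystem.exists_isReduced w
    have hlen : ω.length ≤ L := by
      rw [← hr, ← hω]
      exact hl
    have h2 := NilCox.value_word ω hr hlen
    have h3 : NilCox.rep G L ((racg G).toCoxeterSystem.wordProd ω) = 1 := by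
      rw [← hω]
      exact congrArg Subtype.val h1
    rw [h3] at h2
    have h4 : NilCox.del G L ⟨(racg G).toCoxeterSystem.wordProd ω, hr.eq.le.trans hlen⟩ = 0 := by
      unfold NilCox.del
      rw [if_neg]
      exact fun h6 => hw (hω.trans h6)
    have h5 : NilCox.del G L ⟨(racg G).toCoxeterSystem.wordProd ω, hr.eq.le.trans hlen⟩ = 1 := h2
    rw [h4] at h5
    exact zero_ne_one h5

end Pool.Agent.H4.Singer

end

section

/-!
# Growth calculus: the module `Y × Y` with one more vertex

`dbl r x q`: the vertices `w ≠ x` act on `Y × Y` by `(a, b) ↦ (r w a, r w b)`, the vertex `x` acts by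
`(a, b) ↦ (q b, q a)`.
-/

set_option autoImplicit false
set_option linter.unusedSectionVars false

open Finset

namespace Pool.Agent.H73.GC

variable {V : Type} [DecidableEq V] [Fintype V]
variable {Y : Type} [AddCommGroup Y] [Module F2 Y]

/-- the operators on `Y × Y` -/
def dbl (r : V → Module.End F2 Y) (x : V) (q : Module.End F2 Y) (w : V) :
    Module.End F2 (Y × Y) where
  toFun y := if w = x then (q y.2, q y.1) else (r w y.1, r w y.2)
  map_add' y z := by
    by_cases h : w = x
    · simp [h]
    · simp [h]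
  map_smul' c y := by
    by_cases h : w = x
    · simp [h]
    · simp [h]

theorem dbl_self (r : V → Module.End F2 Y) (x : V) (q : Module.End F2 Y) (y : Y × Y) :
    dbl r x q x y = (q y.2, q y.1) := if_pos rfl

theorem dbl_ne (r : V → Module.End F2 Y) {x w : V} (h : w ≠ x) (q : Module.End F2 Y) (y : Y × Y) :
    dbl r x q w y = (r w y.1, r w y.2) := if_neg h

/-- The projections: `x` acts by `(a, b) ↦ (a, 0)`, `w ≠ x` by `(a, b) ↦ (E w a, E w b)`, except that
`u` acts by `(a, b) ↦ (E u a, b + E u b)` if `tw` holds. -/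
def dblE (E : V → Module.End F2 Y) (x u : V) (tw : Bool) (w : V) : Module.End F2 (Y × Y) where
  toFun y := if w = x then (y.1, 0) else
    if w = u ∧ tw = true then (E w y.1, y.2 + E w y.2) else (E w y.1, E w y.2)
  map_add' y z := by
    by_cases h : w = x
    · simp [h]
    · by_cases h2 : w = u ∧ tw = true
      · rw [if_neg h, if_neg h, if_neg h, if_pos h2, if_pos h2, if_pos h2]
        refine Prod.ext (map_add _ _ _) ?_
        show y.2 + z.2 + E w (y.2 + z.2) = y.2 + E w y.2 + (z.2 + E w z.2)
        rw [map_add]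
        abel
      · simp [h, h2]
  map_smul' c y := by
    by_cases h : w = x
    · simp [h]
    · by_cases h2 : w = u ∧ tw = true
      · rw [if_neg h, if_neg h, if_pos h2, if_pos h2]
        refine Prod.ext (map_smul _ _ _) ?_
        show c • y.2 + E w (c • y.2) = c • (y.2 + E w y.2)
        rw [map_smul, smul_add]
      · simp [h, h2]

theorem dblE_self (E : V → Module.End F2 Y) (x u : V) (tw : Bool) (y : Y × Y) :
    dblE E x u tw x y = (y.1, 0) := if_pos rfl

theorem dblE_tw (E : V → Module.End F2 Y) {x u : V} (h : u ≠ x) (y : Y × Y) :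
    dblE E x u true u y = (E u y.1, y.2 + E u y.2) := by
  show (if u = x then _ else if u = u ∧ true = true then _ else _) = _
  rw [if_neg h, if_pos ⟨rfl, rfl⟩]

theorem dblE_ne (E : V → Module.End F2 Y) {x u w : V} (h : w ≠ x) {tw : Bool}
    (h2 : ¬ (w = u ∧ tw = true)) (y : Y × Y) : dblE E x u tw w y = (E w y.1, E w y.2) := by
  show (if w = x then _ else if w = u ∧ tw = true then _ else _) = _
  rw [if_neg h, if_neg h2]

private theorem Dbl_two (y : Y) : y + y = 0 := ZModModule.add_self y

private def Dbl_F (F : ℕ → Submodule F2 Y) (k : ℕ) : Submodule F2 (Y × Y) where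
  carrier := {p | p.1 ∈ F ((k + 1) / 2) ∧ p.2 ∈ F ((k + 1) / 2) ∧ p.1 + p.2 ∈ F (k / 2)}
  zero_mem' := ⟨Submodule.zero_mem _, Submodule.zero_mem _, by
    show (0 : Y) + 0 ∈ F (k / 2)
    rw [add_zero]
    exact Submodule.zero_mem _⟩
  add_mem' := by
    rintro p p' ⟨h1, h2, h3⟩ ⟨h4, h5, h6⟩
    refine ⟨Submodule.add_mem _ h1 h4, Submodule.add_mem _ h2 h5, ?_⟩
    have h7 := Submodule.add_mem _ h3 h6
    show p.1 + p'.1 + (p.2 + p'.2) ∈ F (k / 2)
    rwa [add_add_add_comm]
  smul_mem' := by
    rintro c p ⟨h1, h2, h3⟩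
    refine ⟨Submodule.smul_mem _ c h1, Submodule.smul_mem _ c h2, ?_⟩
    show c • p.1 + c • p.2 ∈ F (k / 2)
    rw [← smul_add]
    exact Submodule.smul_mem _ c h3

private theorem Dbl_mem (F : ℕ → Submodule F2 Y) (k : ℕ) (p : Y × Y) :
    p ∈ Dbl_F F k ↔ p.1 ∈ F ((k + 1) / 2) ∧ p.2 ∈ F ((k + 1) / 2) ∧ p.1 + p.2 ∈ F (k / 2) := Iff.rfl

private theorem Dbl_q {G H : SimpleGraph V} {U : Finset V} {x : V} {r : V → Module.End F2 Y}
    (h : IsN H (U.erase x) r) (q : Module.End F2 Y)
    (hq : q = 1 ∨ ∃ u ∈ U.erase x, q = r u ∧ ∀ w ∈ U.erase x, G.Adj x w → w = u ∨ H.Adj u w) :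
    (∀ y, q (q y) = y) ∧ ∀ w ∈ U.erase x, G.Adj x w → ∀ y, q (r w y) = r w (q y) := by
  rcases hq with rfl | ⟨u, hu, rfl, hw⟩
  · exact ⟨fun y => rfl, fun w _ _ y => rfl⟩
  · refine ⟨h.sq u hu, fun w hwU hxw y => ?_⟩
    rcases hw w hwU hxw with rfl | h1
    · rfl
    · exact h.comm u hu w hwU h1 y

/-- The filtration of `Y × Y`: `F' (2 j) = F j × F j`,
`F' (2 j + 1) = {(a, b) | a, b ∈ F (j + 1), a + b ∈ F j}`. -/
theorem isN_dbl {G H : SimpleGraph V} {U : Finset V} {x : V} {r : V → Module.End F2 Y}
    (h : IsN H (U.erase x) r) (hG : ∀ a ∈ U.erase x, ∀ b ∈ U.erase x, G.Adj a b → H.Adj a b)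
    (q : Module.End F2 Y)
    (hq : q = 1 ∨ ∃ u ∈ U.erase x, q = r u ∧ ∀ w ∈ U.erase x, G.Adj x w → w = u ∨ H.Adj u w) :
    IsN G U (dbl r x q) := by
  obtain ⟨hqq, hqc⟩ := Dbl_q h q hq
  refine ⟨?_, ?_, ?_⟩
  · intro v hv y
    by_cases hvx : v = x
    · subst hvx
      rw [dbl_self, dbl_self]
      exact Prod.ext (hqq _) (hqq _)
    · rw [dbl_ne r hvx, dbl_ne r hvx]
      have hv' : v ∈ U.erase x := mem_erase.2 ⟨hvx, hv⟩
      exact Prod.ext (h.sq v hv' _) (h.sq v hv' _)
  · intro a ha b hb hab y
    by_cases hax : a = x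
    · subst hax
      have hba : b ≠ a := hab.ne'
      have hb' : b ∈ U.erase a := mem_erase.2 ⟨hba, hb⟩
      rw [dbl_self, dbl_ne r hba, dbl_ne r hba, dbl_self]
      exact Prod.ext (hqc b hb' hab _) (hqc b hb' hab _)
    · have ha' : a ∈ U.erase x := mem_erase.2 ⟨hax, ha⟩
      by_cases hbx : b = x
      · subst hbx
        rw [dbl_self, dbl_ne r hax, dbl_ne r hax, dbl_self]
        exact Prod.ext (hqc a ha' hab.symm _).symm (hqc a ha' hab.symm _).symm
      · have hb' : b ∈ U.erase x := mem_erase.2 ⟨hbx, hb⟩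
        rw [dbl_ne r hax, dbl_ne r hbx, dbl_ne r hbx, dbl_ne r hax]
        exact Prod.ext (h.comm a ha' b hb' (hG a ha' b hb' hab) _)
          (h.comm a ha' b hb' (hG a ha' b hb' hab) _)
  · obtain ⟨n, F, hm, h0, hn, hF⟩ := h.fil
    have hqF : ∀ j, ∀ y ∈ F (j + 1), y + q y ∈ F j := by
      intro j y hy
      rcases hq with rfl | ⟨u, hu, rfl, _⟩
      · show y + y ∈ F j
        rw [Dbl_two]
        exact Submodule.zero_mem _
      · exact hF j u hu y hy
    refine ⟨2 * n, Dbl_F F, ?_, ?_, ?_, ?_⟩
    · intro a b hab p hp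
      rw [Dbl_mem] at hp ⊢
      exact ⟨hm (by omega) hp.1, hm (by omega) hp.2.1, hm (by omega) hp.2.2⟩
    · rw [eq_bot_iff]
      intro p hp
      rw [Dbl_mem] at hp
      have h1 : p.1 ∈ F 0 := hp.1
      have h2 : p.2 ∈ F 0 := hp.2.1
      rw [h0, Submodule.mem_bot] at h1 h2
      rw [Submodule.mem_bot]
      exact Prod.ext h1 h2
    · rw [eq_top_iff]
      intro p _
      rw [Dbl_mem]
      have h1 : (2 * n + 1) / 2 = n := by omega
      have h2 : 2 * n / 2 = n := by omega
      rw [h1, h2, hn]
      exact ⟨Submodule.mem_top, Submodule.mem_top, Submodule.mem_top⟩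
    · intro k v hv p hp
      rw [Dbl_mem] at hp ⊢
      have hk : (k + 1 + 1) / 2 = k / 2 + 1 := by omega
      rw [hk] at hp
      obtain ⟨h1, h2, h3⟩ := hp
      have hle : F (k / 2) ≤ F ((k + 1) / 2) := hm (by omega)
      by_cases hvx : v = x
      · subst hvx
        rw [dbl_self]
        have h4 := hqF _ _ h1
        have h5 := hqF _ _ h2
        refine ⟨?_, ?_, ?_⟩
        · show p.1 + q p.2 ∈ F ((k + 1) / 2)
          have h6 := Submodule.add_mem _ h3 (hle h5)
          have h7 : p.1 + p.2 + (p.2 + q p.2) = p.1 + q p.2 := by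
            rw [add_assoc, ← add_assoc p.2 p.2, Dbl_two, zero_add]
          rwa [h7] at h6
        · show p.2 + q p.1 ∈ F ((k + 1) / 2)
          have h6 := Submodule.add_mem _ h3 (hle h4)
          have h7 : p.1 + p.2 + (p.1 + q p.1) = p.2 + q p.1 := by
            rw [add_comm p.1 p.2, add_assoc, ← add_assoc p.1 p.1, Dbl_two, zero_add]
          rwa [h7] at h6
        · show p.1 + q p.2 + (p.2 + q p.1) ∈ F (k / 2)
          have h6 := Submodule.add_mem _ h4 h5
          have h7 : p.1 + q p.1 + (p.2 + q p.2) = p.1 + q p.2 + (p.2 + q p.1) := by abel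
          rwa [h7] at h6
      · have hv' : v ∈ U.erase x := mem_erase.2 ⟨hvx, hv⟩
        rw [dbl_ne r hvx]
        have h4 := hF _ v hv' _ h1
        have h5 := hF _ v hv' _ h2
        refine ⟨hle h4, hle h5, ?_⟩
        exact Submodule.add_mem _ h4 h5

theorem isBit_dbl_one {G : SimpleGraph V} {U : Finset V} {x : V} {r E : V → Module.End F2 Y}
    (h : IsN G (U.erase x) r) (hb : IsBit G (U.erase x) r E) :
    IsBit G U (dbl r x 1) (dblE E x x false) := by
  have hE : ∀ w, w ≠ x → ∀ y : Y × Y, dblE E x x false w y = (E w y.1, E w y.2) := fun w hw y =>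
    dblE_ne E hw (fun h => absurd h.2 (by decide)) y
  refine ⟨?_, ?_, ?_, ?_⟩
  · intro v hv y
    by_cases hvx : v = x
    · subst hvx
      rw [dblE_self, dblE_self]
    · have hv' : v ∈ U.erase x := mem_erase.2 ⟨hvx, hv⟩
      rw [hE v hvx, hE v hvx]
      exact Prod.ext (hb.idem v hv' _) (hb.idem v hv' _)
  · intro v hv y
    by_cases hvx : v = x
    · subst hvx
      rw [dblE_self, dblE_self, dbl_self, dbl_self]
      refine Prod.ext ?_ ?_
      · show y.2 + 0 = y.2
        rw [add_zero]
      · show 0 + y.1 = y.1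
        rw [zero_add]
    · have hv' : v ∈ U.erase x := mem_erase.2 ⟨hvx, hv⟩
      rw [hE v hvx, hE v hvx, dbl_ne r hvx, dbl_ne r hvx]
      exact Prod.ext (hb.bit v hv' _) (hb.bit v hv' _)
  · intro a ha b hb' hab y
    by_cases hax : a = x
    · subst hax
      have hba : b ≠ a := hab.ne'
      rw [dblE_self, dblE_self, dbl_ne r hba, dbl_ne r hba]
      refine Prod.ext rfl ?_
      show (0 : Y) = r b 0
      rw [map_zero]
    · by_cases hbx : b = x
      · subst hbx
        rw [hE a hax, hE a hax, dbl_self, dbl_self]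
        rfl
      · rw [hE a hax, hE a hax, dbl_ne r hbx, dbl_ne r hbx]
        have ha2 : a ∈ U.erase x := mem_erase.2 ⟨hax, ha⟩
        have hb2 : b ∈ U.erase x := mem_erase.2 ⟨hbx, hb'⟩
        exact Prod.ext (hb.er a ha2 b hb2 hab _) (hb.er a ha2 b hb2 hab _)
  · intro a ha b hb' hab y
    by_cases hax : a = x
    · subst hax
      have hba : b ≠ a := hab.ne'
      rw [dblE_self, dblE_self, hE b hba, hE b hba]
      refine Prod.ext rfl ?_
      show (0 : Y) = E b 0
      rw [map_zero]
    · by_cases hbx : b = x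
      · subst hbx
        rw [hE a hax, hE a hax, dblE_self, dblE_self]
        refine Prod.ext rfl ?_
        show E a 0 = (0 : Y)
        rw [map_zero]
      · rw [hE a hax, hE a hax, hE b hbx, hE b hbx]
        have ha2 : a ∈ U.erase x := mem_erase.2 ⟨hax, ha⟩
        have hb2 : b ∈ U.erase x := mem_erase.2 ⟨hbx, hb'⟩
        exact Prod.ext (hb.ee a ha2 b hb2 hab _) (hb.ee a ha2 b hb2 hab _)

theorem isBit_dbl {G H : SimpleGraph V} {U : Finset V} {x u : V} {r E : V → Module.End F2 Y}
    (hu : u ∈ U.erase x) (h : IsN H (U.erase x) r) (hb : IsBit H (U.erase x) r E)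
    (hG : ∀ a ∈ U.erase x, ∀ b ∈ U.erase x, G.Adj a b → H.Adj a b)
    (hx : ∀ w ∈ U.erase x, G.Adj x w → w = u ∨ H.Adj u w) :
    IsBit G U (dbl r x (r u)) (dblE E x u true) := by
  have hux : u ≠ x := (mem_erase.1 hu).1
  have hE : ∀ w, w ≠ x → w ≠ u → ∀ y : Y × Y, dblE E x u true w y = (E w y.1, E w y.2) :=
    fun w hw hwu y => dblE_ne E hw (fun h => absurd h.1 hwu) y
  have hEr : ∀ y : Y, E u (r u y) = r u y + r u (E u y) := by
    intro y
    have h1 := hb.bit u hu y
    calc E u (r u y) = E u (r u y) + r u (E u y) + r u (E u y) := by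
          rw [add_assoc, Dbl_two, add_zero]
      _ = r u y + r u (E u y) := by rw [h1]
  refine ⟨?_, ?_, ?_, ?_⟩
  · intro v hv y
    by_cases hvx : v = x
    · subst hvx
      rw [dblE_self, dblE_self]
    · have hv' : v ∈ U.erase x := mem_erase.2 ⟨hvx, hv⟩
      by_cases hvu : v = u
      · subst hvu
        rw [dblE_tw E hvx, dblE_tw E hvx]
        refine Prod.ext (hb.idem v hv' _) ?_
        show y.2 + E v y.2 + E v (y.2 + E v y.2) = y.2 + E v y.2
        rw [map_add, hb.idem v hv', Dbl_two, add_zero]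
      · rw [hE v hvx hvu, hE v hvx hvu]
        exact Prod.ext (hb.idem v hv' _) (hb.idem v hv' _)
  · intro v hv y
    by_cases hvx : v = x
    · subst hvx
      rw [dblE_self, dblE_self, dbl_self, dbl_self]
      refine Prod.ext ?_ ?_
      · show r u y.2 + r u 0 = r u y.2
        rw [map_zero, add_zero]
      · show 0 + r u y.1 = r u y.1
        rw [zero_add]
    · have hv' : v ∈ U.erase x := mem_erase.2 ⟨hvx, hv⟩
      by_cases hvu : v = u
      · subst hvu
        rw [dblE_tw E hvx, dblE_tw E hvx, dbl_ne r hvx, dbl_ne r hvx]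
        refine Prod.ext (hb.bit v hv' _) ?_
        show r v y.2 + E v (r v y.2) + r v (y.2 + E v y.2) = r v y.2
        rw [map_add, hEr]
        have h2 := Dbl_two (r v y.2)
        have h3 := Dbl_two (r v (E v y.2))
        calc r v y.2 + (r v y.2 + r v (E v y.2)) + (r v y.2 + r v (E v y.2))
            = (r v y.2 + r v y.2) + (r v (E v y.2) + r v (E v y.2)) + r v y.2 := by abel
          _ = r v y.2 := by rw [h2, h3, zero_add, zero_add]
      · rw [hE v hvx hvu, hE v hvx hvu, dbl_ne r hvx, dbl_ne r hvx]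
        exact Prod.ext (hb.bit v hv' _) (hb.bit v hv' _)
  · intro a ha b hb' hab y
    by_cases hax : a = x
    · subst hax
      have hba : b ≠ a := hab.ne'
      rw [dblE_self, dblE_self, dbl_ne r hba, dbl_ne r hba]
      refine Prod.ext rfl ?_
      show (0 : Y) = r b 0
      rw [map_zero]
    · have ha2 : a ∈ U.erase x := mem_erase.2 ⟨hax, ha⟩
      by_cases hbx : b = x
      · subst hbx
        by_cases hau : a = u
        · subst hau
          rw [dblE_tw E hax, dblE_tw E hax, dbl_self, dbl_self]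
          refine Prod.ext ?_ ?_
          · show E a (r a y.2) = r a (y.2 + E a y.2)
            rw [map_add, hEr]
          · show r a y.1 + E a (r a y.1) = r a (E a y.1)
            rw [hEr, ← add_assoc, Dbl_two, zero_add]
        · rw [hE a hax hau, hE a hax hau, dbl_self, dbl_self]
          rcases hx a ha2 hab.symm with h1 | h1
          · exact absurd h1 hau
          · exact Prod.ext (hb.er a ha2 u hu h1.symm _) (hb.er a ha2 u hu h1.symm _)
      · have hb2 : b ∈ U.erase x := mem_erase.2 ⟨hbx, hb'⟩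
        have hH := hG a ha2 b hb2 hab
        by_cases hau : a = u
        · subst hau
          rw [dblE_tw E hax, dblE_tw E hax, dbl_ne r hbx, dbl_ne r hbx]
          refine Prod.ext (hb.er a ha2 b hb2 hH _) ?_
          show r b y.2 + E a (r b y.2) = r b (y.2 + E a y.2)
          rw [map_add, hb.er a ha2 b hb2 hH]
        · rw [hE a hax hau, hE a hax hau, dbl_ne r hbx, dbl_ne r hbx]
          exact Prod.ext (hb.er a ha2 b hb2 hH _) (hb.er a ha2 b hb2 hH _)
  · intro a ha b hb' hab y
    by_cases hax : a = x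
    · subst hax
      have hba : b ≠ a := hab.ne'
      by_cases hbu : b = u
      · subst hbu
        rw [dblE_self, dblE_self, dblE_tw E hba, dblE_tw E hba]
        refine Prod.ext rfl ?_
        show (0 : Y) = 0 + E b 0
        rw [map_zero, add_zero]
      · rw [dblE_self, dblE_self, hE b hba hbu, hE b hba hbu]
        refine Prod.ext rfl ?_
        show (0 : Y) = E b 0
        rw [map_zero]
    · have ha2 : a ∈ U.erase x := mem_erase.2 ⟨hax, ha⟩
      by_cases hbx : b = x
      · subst hbx
        by_cases hau : a = u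
        · subst hau
          rw [dblE_self, dblE_self, dblE_tw E hax, dblE_tw E hax]
          refine Prod.ext rfl ?_
          show 0 + E a 0 = (0 : Y)
          rw [map_zero, add_zero]
        · rw [dblE_self, dblE_self, hE a hax hau, hE a hax hau]
          refine Prod.ext rfl ?_
          show E a 0 = (0 : Y)
          rw [map_zero]
      · have hb2 : b ∈ U.erase x := mem_erase.2 ⟨hbx, hb'⟩
        have hH := hG a ha2 b hb2 hab
        by_cases hau : a = u
        · subst hau
          have hba : b ≠ a := hab.ne'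
          rw [dblE_tw E hax, dblE_tw E hax, hE b hbx hba, hE b hbx hba]
          refine Prod.ext (hb.ee a ha2 b hb2 hH _) ?_
          show E b y.2 + E a (E b y.2) = E b (y.2 + E a y.2)
          rw [map_add, hb.ee a ha2 b hb2 hH]
        · by_cases hbu : b = u
          · subst hbu
            rw [dblE_tw E hbx, dblE_tw E hbx, hE a hax hau, hE a hax hau]
            refine Prod.ext (hb.ee a ha2 b hb2 hH _) ?_
            show E a (y.2 + E b y.2) = E a y.2 + E b (E a y.2)
            rw [map_add, hb.ee a ha2 b hb2 hH]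
          · rw [hE a hax hau, hE a hax hau, hE b hbx hbu, hE b hbx hbu]
            exact Prod.ext (hb.ee a ha2 b hb2 hH _) (hb.ee a ha2 b hb2 hH _)

end Pool.Agent.H73.GC

end

section

/-!
# Project S9, block U: triangular modules

Closure of the class of triangular modules under submodules, quotients, products and modules of linear maps.
-/

set_option autoImplicit false
set_option linter.unusedSectionVars false

namespace Pool.Agent.S9.U

open Relation

variable {K : Type} [Field K] {H : Type} [Group H]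

private theorem chain_lift {α β : Type} {r : α → α → Prop} {p : β → β → Prop} (f : α → β)
    (h : ∀ a b, r a b → p (f a) (f b)) {a b : α} (hab : ReflTransGen r a b) :
    ReflTransGen p (f a) (f b) := ReflTransGen.lift f h _ _ hab

/-- one step of a filtration -/
def Stp (Λ : Subgroup Kˣ) {N : Type} [AddCommGroup N] [Module K N] (ρ : H →* Module.End K N)
    (S S' : Submodule K N) : Prop :=
  S ≤ S' ∧ ∃ lam : H →* Kˣ, (∀ g, lam g ∈ Λ) ∧ ∀ g, ∀ y ∈ S', ρ g y - (lam g : K) • y ∈ S

section

variable {Λ : Subgroup Kˣ} {N : Type} [AddCommGroup N] [Module K N] {ρ : H →* Module.End K N}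

theorem Stp.inv {S S' : Submodule K N} (h : Stp Λ ρ S S') :
    ∀ g, ∀ y ∈ S', ρ g y ∈ S' := by
  obtain ⟨h1, lam, -, h2⟩ := h
  intro g y hy
  have h3 := S'.add_mem (h1 (h2 g y hy)) (S'.smul_mem (lam g : K) hy)
  rwa [sub_add_cancel] at h3

private theorem chain_inv {S : Submodule K N} (h : ReflTransGen (Stp Λ ρ) ⊥ S) :
    ∀ g, ∀ y ∈ S, ρ g y ∈ S := by
  rcases ReflTransGen.cases_tail h with h1 | ⟨T, _, h2⟩
  · subst h1
    intro g y hy
    rw [(Submodule.mem_bot K).1 hy, map_zero]
    exact Submodule.zero_mem _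
  · exact h2.inv

private theorem chain_ex {S : Submodule K N} (h : ReflTransGen (Stp Λ ρ) ⊥ S) :
    ∃ (n : ℕ) (F : ℕ → Submodule K N), Monotone F ∧ F 0 = ⊥ ∧ F n = S ∧
    ∀ j, ∃ lam : H →* Kˣ, (∀ g, lam g ∈ Λ) ∧ ∀ g, ∀ y ∈ F (j + 1), ρ g y - (lam g : K) • y ∈ F j := by
  induction h with
  | refl =>
    refine ⟨0, fun _ => ⊥, fun _ _ _ => le_rfl, rfl, rfl, fun j => ⟨1, fun g => Λ.one_mem, ?_⟩⟩
    intro g y hy
    rw [(Submodule.mem_bot K).1 hy, map_zero, smul_zero, sub_zero]
    exact Submodule.zero_mem _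
  | @tail S S' h1 h2 ih =>
    obtain ⟨n, F, hm, h0, hn, hF⟩ := ih
    have hle : ∀ j ≤ n, F j ≤ S' := fun j hj => (hm hj).trans (hn.le.trans h2.1)
    refine ⟨n + 1, fun j => if j ≤ n then F j else S', ?_, ?_, ?_, ?_⟩
    · intro i j hij
      show (if i ≤ n then F i else S') ≤ if j ≤ n then F j else S'
      by_cases hj : j ≤ n
      · rw [if_pos hj, if_pos (hij.trans hj)]
        exact hm hij
      · rw [if_neg hj]
        by_cases hi : i ≤ n
        · rw [if_pos hi]
          exact hle i hi
        · rw [if_neg hi]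
    · show (if 0 ≤ n then F 0 else S') = ⊥
      rw [if_pos (Nat.zero_le n), h0]
    · show (if n + 1 ≤ n then F (n + 1) else S') = S'
      rw [if_neg (Nat.not_succ_le_self n)]
    · intro j
      rcases lt_trichotomy j n with h | h | h
      · obtain ⟨lam, h3, h4⟩ := hF j
        refine ⟨lam, h3, fun g y hy => ?_⟩
        have hy' : y ∈ if j + 1 ≤ n then F (j + 1) else S' := hy
        rw [if_pos (show j + 1 ≤ n from h)] at hy'
        show _ ∈ if j ≤ n then F j else S'
        rw [if_pos h.le]
        exact h4 g y hy'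
      · subst h
        obtain ⟨lam, h3, h4⟩ := h2.2
        refine ⟨lam, h3, fun g y hy => ?_⟩
        have hy' : y ∈ if j + 1 ≤ j then F (j + 1) else S' := hy
        rw [if_neg (Nat.not_succ_le_self j)] at hy'
        show _ ∈ if j ≤ j then F j else S'
        rw [if_pos le_rfl, hn]
        exact h4 g y hy'
      · refine ⟨1, fun g => Λ.one_mem, fun g y hy => ?_⟩
        have hy' : y ∈ if j + 1 ≤ n then F (j + 1) else S' := hy
        rw [if_neg (by omega)] at hy'
        show _ ∈ if j ≤ n then F j else S'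
        rw [if_neg (by omega)]
        refine S'.sub_mem (h2.inv g y hy') ?_
        exact S'.smul_mem _ hy'

theorem tri_iff : Tri Λ ρ ↔ ReflTransGen (Stp Λ ρ) ⊥ ⊤ := by
  constructor
  · rintro ⟨n, F, hm, h0, hn, h⟩
    have h1 : ∀ j, ReflTransGen (Stp Λ ρ) ⊥ (F j) := by
      intro j
      induction j with
      | zero => rw [h0]
      | succ j ih => exact ih.tail ⟨hm (Nat.le_succ j), h j⟩
    rw [← hn]
    exact h1 n
  · exact chain_ex

end

section

variable {Λ : Subgroup Kˣ} {N : Type} [AddCommGroup N] [Module K N] {ρ : H →* Module.End K N}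
  {N' : Type} [AddCommGroup N'] [Module K N'] {ρ' : H →* Module.End K N'}

/-- submodules -/
theorem Tri.of_inj (h : Tri Λ ρ) (ι : N' →ₗ[K] N) (hi : Function.Injective ι)
    (he : ∀ g y, ι (ρ' g y) = ρ g (ι y)) : Tri Λ ρ' := by
  rw [tri_iff] at h ⊢
  have h1 : ∀ S S' : Submodule K N, Stp Λ ρ S S' → Stp Λ ρ' (S.comap ι) (S'.comap ι) := by
    rintro S S' ⟨h1, lam, h2, h3⟩
    refine ⟨Submodule.comap_mono h1, lam, h2, fun g y hy => ?_⟩
    rw [Submodule.mem_comap] at hy ⊢
    rw [map_sub, map_smul, he]
    exact h3 g _ hy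
  have h2 := chain_lift (fun S : Submodule K N => S.comap ι) h1 h
  have h3 : (⊥ : Submodule K N).comap ι = ⊥ := by
    rw [← LinearMap.ker, LinearMap.ker_eq_bot.2 hi]
  simpa only [h3, Submodule.comap_top] using h2

/-- quotients -/
theorem Tri.of_surj (h : Tri Λ ρ) (q : N →ₗ[K] N') (hq : Function.Surjective q)
    (he : ∀ g y, q (ρ g y) = ρ' g (q y)) : Tri Λ ρ' := by
  rw [tri_iff] at h ⊢
  have h1 : ∀ S S' : Submodule K N, Stp Λ ρ S S' → Stp Λ ρ' (S.map q) (S'.map q) := by
    rintro S S' ⟨h1, lam, h2, h3⟩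
    refine ⟨Submodule.map_mono h1, lam, h2, fun g y hy => ?_⟩
    obtain ⟨z, hz, rfl⟩ := (Submodule.mem_map).1 hy
    refine Submodule.mem_map.2 ⟨_, h3 g z hz, ?_⟩
    rw [map_sub, map_smul, he]
  have h2 := chain_lift (fun S : Submodule K N => S.map q) h1 h
  have h3 : (⊤ : Submodule K N).map q = ⊤ := by
    rw [Submodule.map_top, LinearMap.range_eq_top.2 hq]
  simpa only [h3, Submodule.map_bot] using h2

/-- the product -/
def prodR (ρ : H →* Module.End K N) (ρ' : H →* Module.End K N') : H →* Module.End K (N × N') where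
  toFun g := (ρ g).prodMap (ρ' g)
  map_one' := by
    rw [map_one, map_one]
    exact LinearMap.prodMap_one
  map_mul' g h := by
    rw [map_mul, map_mul]
    exact (LinearMap.prodMap_mul _ _ _ _).symm

theorem Tri.prod (h : Tri Λ ρ) (h' : Tri Λ ρ') : Tri Λ (prodR ρ ρ') := by
  rw [tri_iff] at h h' ⊢
  have h1 : ∀ S S' : Submodule K N, Stp Λ ρ S S' →
      Stp Λ (prodR ρ ρ') (S.prod ⊥) (S'.prod ⊥) := by
    rintro S S' ⟨h1, lam, h2, h3⟩
    refine ⟨Submodule.prod_mono h1 le_rfl, lam, h2, fun g y hy => ?_⟩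
    rw [Submodule.mem_prod] at hy ⊢
    refine ⟨h3 g _ hy.1, ?_⟩
    show ρ' g y.2 - (lam g : K) • y.2 ∈ _
    rw [(Submodule.mem_bot K).1 hy.2, map_zero, smul_zero, sub_zero]
    exact Submodule.zero_mem _
  have h2 : ∀ S S' : Submodule K N', Stp Λ ρ' S S' →
      Stp Λ (prodR ρ ρ') ((⊤ : Submodule K N).prod S) ((⊤ : Submodule K N).prod S') := by
    rintro S S' ⟨h1, lam, h2, h3⟩
    refine ⟨Submodule.prod_mono le_rfl h1, lam, h2, fun g y hy => ?_⟩
    rw [Submodule.mem_prod] at hy ⊢
    exact ⟨Submodule.mem_top, h3 g _ hy.2⟩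
  have h3 := chain_lift (fun S : Submodule K N => S.prod (⊥ : Submodule K N')) h1 h
  have h4 := chain_lift (fun S : Submodule K N' => (⊤ : Submodule K N).prod S) h2 h'
  have h5 := h3.trans h4
  simpa only [Submodule.prod_bot, Submodule.prod_top] using h5

/-- linear maps -/
def homR (ρ : H →* Module.End K N) (ρ' : H →* Module.End K N') :
    H →* Module.End K (N →ₗ[K] N') where
  toFun g :=
    { toFun := fun ψ => ρ' g ∘ₗ ψ ∘ₗ ρ g⁻¹
      map_add' := fun ψ φ => by
        rw [LinearMap.add_comp, LinearMap.comp_add]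
      map_smul' := fun a ψ => by
        rw [LinearMap.smul_comp, LinearMap.comp_smul]
        rfl }
  map_one' := by
    refine LinearMap.ext fun ψ => LinearMap.ext fun y => ?_
    show ρ' 1 (ψ (ρ 1⁻¹ y)) = ψ y
    rw [inv_one, map_one, map_one]
    rfl
  map_mul' g h := by
    refine LinearMap.ext fun ψ => LinearMap.ext fun y => ?_
    show ρ' (g * h) (ψ (ρ (g * h)⁻¹ y)) = ρ' g (ρ' h (ψ (ρ h⁻¹ (ρ g⁻¹ y))))
    rw [mul_inv_rev, map_mul, map_mul]
    rfl

theorem homR_apply (g : H) (ψ : N →ₗ[K] N') (y : N) :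
    homR ρ ρ' g ψ y = ρ' g (ψ (ρ g⁻¹ y)) := rfl

private theorem inv_act (g : H) (y : N) : ρ g⁻¹ (ρ g y) = y := by
  rw [← Module.End.mul_apply, ← map_mul, inv_mul_cancel, map_one, Module.End.one_apply]

private theorem act_inv (g : H) (y : N) : ρ g (ρ g⁻¹ y) = y := by
  rw [← Module.End.mul_apply, ← map_mul, mul_inv_cancel, map_one, Module.End.one_apply]

/-- the linear maps which vanish on `S` and map `S'` to `T` -/
private def HT (S S' : Submodule K N) (T : Submodule K N') : Submodule K (N →ₗ[K] N') where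
  carrier := {ψ | (∀ y ∈ S, ψ y = 0) ∧ ∀ y ∈ S', ψ y ∈ T}
  zero_mem' := ⟨fun y _ => rfl, fun y _ => T.zero_mem⟩
  add_mem' := by
    rintro ψ φ ⟨h1, h2⟩ ⟨h3, h4⟩
    refine ⟨fun y hy => ?_, fun y hy => ?_⟩
    · rw [LinearMap.add_apply, h1 y hy, h3 y hy, add_zero]
    · exact T.add_mem (h2 y hy) (h4 y hy)
  smul_mem' := by
    rintro a ψ ⟨h1, h2⟩
    refine ⟨fun y hy => ?_, fun y hy => ?_⟩
    · rw [LinearMap.smul_apply, h1 y hy, smul_zero]
    · exact T.smul_mem a (h2 y hy)

private theorem HT_stp {S S' : Submodule K N} (h : Stp Λ ρ S S')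
    (hS : ∀ g, ∀ y ∈ S, ρ g y ∈ S) {T T' : Submodule K N'} (h' : Stp Λ ρ' T T') :
    Stp Λ (homR ρ ρ') (HT S S' T) (HT S S' T') := by
  obtain ⟨hT, mu, m1, m2⟩ := h'
  have hi := h.inv
  obtain ⟨hS', lam, l1, l2⟩ := h
  refine ⟨fun ψ hψ => ⟨hψ.1, fun y hy => hT (hψ.2 y hy)⟩, mu * lam⁻¹, fun g => ?_, ?_⟩
  · rw [MonoidHom.mul_apply, MonoidHom.inv_apply]
    exact Λ.mul_mem (m1 g) (Λ.inv_mem (l1 g))
  · rintro g ψ ⟨h1, h2⟩
    refine ⟨fun y hy => ?_, fun y hy => ?_⟩
    · rw [LinearMap.sub_apply, LinearMap.smul_apply, h1 y hy, smul_zero, sub_zero, homR_apply,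
        h1 _ (hS g⁻¹ y hy), map_zero]
    · rw [LinearMap.sub_apply, LinearMap.smul_apply, homR_apply]
      have h3 : ψ (ρ g⁻¹ y) = ((lam g)⁻¹ : Kˣ) • ψ y := by
        have h4 := h1 _ (l2 g⁻¹ y hy)
        rw [map_sub, map_smul, sub_eq_zero] at h4
        rw [h4, map_inv]
        rfl
      have h5 := m2 g _ (h2 y hy)
      have h6 := T.smul_mem (((lam g)⁻¹ : Kˣ) : K) h5
      rw [smul_sub, smul_smul] at h6
      rw [h3, MonoidHom.mul_apply, MonoidHom.inv_apply, Units.val_mul, Units.smul_def, map_smul,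
        mul_comm]
      exact h6

theorem Tri.hom (h : Tri Λ ρ) (h' : Tri Λ ρ') : Tri Λ (homR ρ ρ') := by
  rw [tri_iff] at h h' ⊢
  have h1 : ∀ S : Submodule K N, ReflTransGen (Stp Λ ρ) ⊥ S →
      ReflTransGen (Stp Λ (homR ρ ρ')) (HT S S ⊤) (⊤ : Submodule K (N →ₗ[K] N')) := by
    intro S hS
    induction hS with
    | refl =>
      have h2 : HT (⊥ : Submodule K N) ⊥ (⊤ : Submodule K N') = ⊤ := by
        refine Submodule.eq_top_iff'.2 fun ψ => ⟨fun y hy => ?_, fun y _ => Submodule.mem_top⟩
        rw [(Submodule.mem_bot K).1 hy, map_zero]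
      rw [h2]
    | @tail S S' h1 h2 ih =>
      refine ReflTransGen.trans ?_ ih
      have h3 := chain_lift (fun T : Submodule K N' => HT S S' T)
        (fun T T' hT => HT_stp h2 (chain_inv h1) hT) h'
      have h4 : HT S S' (⊥ : Submodule K N') = HT S' S' ⊤ := by
        ext ψ
        constructor
        · rintro ⟨h5, h6⟩
          exact ⟨fun y hy => (Submodule.mem_bot K).1 (h6 y hy), fun y _ => Submodule.mem_top⟩
        · rintro ⟨h5, -⟩
          exact ⟨fun y hy => h5 y (h2.1 hy), fun y hy => (Submodule.mem_bot K).2 (h5 y hy)⟩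
      have h5 : HT S S' (⊤ : Submodule K N') = HT S S ⊤ := by
        ext ψ
        exact ⟨fun h => ⟨h.1, fun y _ => Submodule.mem_top⟩,
          fun h => ⟨h.1, fun y _ => Submodule.mem_top⟩⟩
      simpa only [h4, h5] using h3
  have h2 := h1 ⊤ h
  have h3 : HT (⊤ : Submodule K N) ⊤ (⊤ : Submodule K N') = ⊥ := by
    refine (Submodule.eq_bot_iff _).2 fun ψ hψ => LinearMap.ext fun y => hψ.1 y Submodule.mem_top
  rwa [h3] at h2

/-- a submodule -/
def subR (ρ : H →* Module.End K N) (S : Submodule K N) (h : ∀ g, ∀ y ∈ S, ρ g y ∈ S) :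
    H →* Module.End K S where
  toFun g := (ρ g).restrict (h g)
  map_one' := by
    refine LinearMap.ext fun y => Subtype.ext ?_
    show ρ 1 y = y
    rw [map_one]
    rfl
  map_mul' g g' := by
    refine LinearMap.ext fun y => Subtype.ext ?_
    show ρ (g * g') y = ρ g (ρ g' y)
    rw [map_mul]
    rfl

theorem Tri.sub (hT : Tri Λ ρ) (S : Submodule K N) (h : ∀ g, ∀ y ∈ S, ρ g y ∈ S) :
    Tri Λ (subR ρ S h) :=
  Tri.of_inj hT S.subtype Subtype.val_injective fun _ _ => rfl

/-- the quotient by a submodule -/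
def quoR (ρ : H →* Module.End K N) (S : Submodule K N) (h : ∀ g, ∀ y ∈ S, ρ g y ∈ S) :
    H →* Module.End K (N ⧸ S) where
  toFun g := S.mapQ S (ρ g) fun y hy => h g y hy
  map_one' := by
    refine Submodule.linearMap_qext S (LinearMap.ext fun y => ?_)
    show S.mkQ (ρ 1 y) = S.mkQ y
    rw [map_one]
    rfl
  map_mul' g g' := by
    refine Submodule.linearMap_qext S (LinearMap.ext fun y => ?_)
    show S.mkQ (ρ (g * g') y) = S.mkQ (ρ g (ρ g' y))
    rw [map_mul]
    rfl

theorem quoR_mkQ (S : Submodule K N) (h : ∀ g, ∀ y ∈ S, ρ g y ∈ S) (g : H) (y : N) :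
    quoR ρ S h g (S.mkQ y) = S.mkQ (ρ g y) := rfl

theorem Tri.quo (hT : Tri Λ ρ) (S : Submodule K N) (h : ∀ g, ∀ y ∈ S, ρ g y ∈ S) :
    Tri Λ (quoR ρ S h) :=
  Tri.of_surj hT S.mkQ S.mkQ_surjective fun _ _ => rfl

end

/-- characters with values in `Λ` -/
theorem tri_ch {Λ : Subgroup Kˣ} {χ : H →* Kˣ} (h : ∀ g, χ g ∈ Λ) : Tri Λ (ch χ) := by
  rw [tri_iff]
  refine ReflTransGen.single ⟨bot_le, χ, h, fun g y _ => ?_⟩
  show (χ g : K) • y - (χ g : K) • y ∈ _
  rw [sub_self]
  exact Submodule.zero_mem _

theorem tri_one {Λ : Subgroup Kˣ} : Tri Λ (1 : H →* Module.End K K) := by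
  rw [tri_iff]
  refine ReflTransGen.single ⟨bot_le, 1, fun g => Λ.one_mem, fun g y _ => ?_⟩
  show y - ((1 : Kˣ) : K) • y ∈ _
  rw [Units.val_one, one_smul, sub_self]
  exact Submodule.zero_mem _

theorem sq_mem_sqr (χ : H →* Kˣ) (g : H) : χ g ^ 2 ∈ sqr χ :=
  Subgroup.subset_closure ⟨g, rfl⟩

end Pool.Agent.S9.U

end
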