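import Pool.Agent.H71.TSG.H3.SL.Disc
import Pool.Agent.H71.TSG.M15
import Pool.Agent.H71.TSG.M18
import Pool.Agent.H71.TSG.M19
import Pool.Agent.H71.TSG.M20
import Pool.Agent.H71.TSG.M24
import Pool.Agent.H71.TSG.M25
import Pool.Agent.H71.TSG.M26

/-! The parts of this file: H37.TM.FinalP, H85.Fold.Sphere, H77.SW.Count, S10.DicX, H3.SL.Disc_1, S9.F.DLk, S10.Uc, S10.Phi. -/

section

/-!
# Project TM: the final theorem for proper actions
-/

set_option autoImplicit false
set_option linter.unusedSectionVars false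

open Finset Pointwise

namespace Pool.Agent.H37.TM

open Pool.Agent.H19.Cub Pool.Agent.H77.SX

/-- no chains above the dimension -/
theorem l2_aboveP {V X : Type} [DecidableEq V] [Fintype V] {Q : CubeComplex V X} {x₀ : X} {d i : ℕ}
    (hd : DimLe Q d) (hi : d < i) : L2HomologyZero (Q.cover x₀) i := by
  intro ν _ z hz _ ε hε
  have h0 : z = 0 := by
    funext σ x
    by_contra h
    obtain ⟨h1, h2, h3⟩ := hz.supp σ x h
    have h4 := hd (Q.proj x₀ x) σ h1 h2
    omega
  refine ⟨0, ⟨fun σ x h => absurd rfl h, fun σ x _ v _ => by simp, fun σ => by simp⟩, ?_⟩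
  rw [h0]
  have h5 : ∀ σ x, ‖(0 : Finset V → Q.Cover x₀ → ℂ) σ x - bdry ν 0 σ x‖ ^ 2 = 0 := by
    intro σ x
    have h6 : bdry ν (0 : Finset V → Q.Cover x₀ → ℂ) σ x = 0 := by
      unfold bdry
      exact sum_eq_zero fun v _ => by simp
    rw [h6]
    simp
  simp only [h5, tsum_zero, sum_const_zero]
  exact hε

end Pool.Agent.H37.TM

end

section

/-!
# Project FOLD: homology spheres
-/

set_option autoImplicit false

open Finset

namespace Pool.Agent.H85.Fold

variable {V : Type} [DecidableEq V] [Fintype V]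

/-- real simplicial chains of degree `j` (on simplices with `j` vertices) of the link of the clique
`ρ` in the clique complex of `G` -/
def LinkChain (G : SimpleGraph V) (ρ : Finset V) (j : ℕ) (z : Finset V → ℝ) : Prop :=
  ∀ σ, z σ ≠ 0 → Disjoint σ ρ ∧ Cl G (σ ∪ ρ) ∧ σ.card = j

/-- The clique complex of `G` is a real homology sphere of dimension `n - 1`: for every clique `ρ`
(also for `ρ = ∅`) the link of `ρ` has the reduced real homology of the sphere of dimension
`n - 1 - |ρ|`. -/
structure IsHomologySphere (G : SimpleGraph V) (n : ℕ) : Prop where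
  dim : ∀ σ, Cl G σ → σ.card ≤ n
  low : ∀ ν : V → ℕ, Function.Injective ν → ∀ ρ, Cl G ρ → ∀ j, j + ρ.card < n →
    ∀ z, LinkChain G ρ j z → bd ν z = 0 → ∃ y, LinkChain G ρ (j + 1) y ∧ bd ν y = z
  top : ∀ ν : V → ℕ, Function.Injective ν → ∀ ρ, Cl G ρ → ∀ j, j + ρ.card = n →
    ∃ o, LinkChain G ρ j o ∧ bd ν o = 0 ∧ o ≠ 0 ∧
      ∀ z, LinkChain G ρ j z → bd ν z = 0 → ∃ r : ℝ, z = r • o

namespace SphereAux

/-- the twisting sign -/
def tw (ν : V → ℕ) (ρ σ : Finset V) : ℝ := ∏ v ∈ σ, sgn ν v ρ

theorem tw_sq (ν : V → ℕ) (ρ σ : Finset V) : tw ν ρ σ * tw ν ρ σ = 1 := by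
  unfold tw
  rw [← Finset.prod_mul_distrib]
  exact Finset.prod_eq_one (fun v _ => sgn_sq ν v ρ)

theorem tw_ne (ν : V → ℕ) (ρ σ : Finset V) : tw ν ρ σ ≠ 0 := by
  intro h
  have h1 := tw_sq ν ρ σ
  rw [h] at h1
  norm_num at h1

theorem tw_insert (ν : V → ℕ) (ρ σ : Finset V) (v : V) (hv : v ∉ σ) :
    tw ν ρ (insert v σ) = sgn ν v ρ * tw ν ρ σ := Finset.prod_insert hv

theorem sgn_ne (ν : V → ℕ) (v : V) (σ : Finset V) : sgn ν v σ ≠ 0 := by
  intro h
  have h1 := sgn_sq ν v σ
  rw [h] at h1
  norm_num at h1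

theorem sgn_union (ν : V → ℕ) (v : V) (σ ρ : Finset V) (h : Disjoint σ ρ) :
    sgn ν v (σ ∪ ρ) = sgn ν v σ * sgn ν v ρ := by
  unfold sgn
  rw [Finset.filter_union, Finset.card_union_of_disjoint (Finset.disjoint_filter_filter h),
    pow_add]

theorem bd_apply (ν : V → ℕ) (c : Finset V → ℝ) (ρ : Finset V) :
    bd ν c ρ = ∑ v ∈ ρᶜ, sgn ν v ρ * c (insert v ρ) := rfl

/-- from the link to the star -/
def up (ν : V → ℕ) (ρ : Finset V) (y : Finset V → ℝ) : Finset V → ℝ :=
  fun σ => if ρ ⊆ σ then tw ν ρ (σ \ ρ) * y (σ \ ρ) else 0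

/-- from the star to the link -/
def dn (ν : V → ℕ) (ρ : Finset V) (z : Finset V → ℝ) : Finset V → ℝ :=
  fun σ => if Disjoint σ ρ then tw ν ρ σ * z (σ ∪ ρ) else 0

theorem bd_up (ν : V → ℕ) (ρ κ : Finset V) (y : Finset V → ℝ)
    (hy : ∀ σ, y σ ≠ 0 → Disjoint σ ρ) (hκ : ρ ⊆ κ) :
    bd ν (up ν ρ y) κ = tw ν ρ (κ \ ρ) * bd ν y (κ \ ρ) := by
  rw [bd_apply, bd_apply, Finset.mul_sum]
  rw [← Finset.sum_subset (s₁ := κᶜ) (s₂ := (κ \ ρ)ᶜ)]
  · apply Finset.sum_congr rfl
    intro v hv
    rw [Finset.mem_compl] at hv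
    have hvρ : v ∉ ρ := fun h => hv (hκ h)
    have h1 : ρ ⊆ insert v κ := hκ.trans (Finset.subset_insert v κ)
    have h2 : insert v κ \ ρ = insert v (κ \ ρ) := Finset.insert_sdiff_of_notMem κ hvρ
    have h3 : v ∉ κ \ ρ := fun h => hv (Finset.mem_sdiff.mp h).1
    unfold up
    rw [if_pos h1, h2, tw_insert ν ρ _ v h3]
    have h4 : sgn ν v κ = sgn ν v (κ \ ρ) * sgn ν v ρ := by
      rw [← sgn_union ν v _ _ Finset.sdiff_disjoint, Finset.sdiff_union_of_subset hκ]
    rw [h4]
    have h5 := sgn_sq ν v ρ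
    linear_combination (sgn ν v (κ \ ρ) * tw ν ρ (κ \ ρ) * y (insert v (κ \ ρ))) * h5
  · intro v hv
    rw [Finset.mem_compl] at hv ⊢
    exact fun h => hv (Finset.mem_sdiff.mp h).1
  · intro v hv1 hv
    rw [Finset.mem_compl, not_not] at hv
    rw [Finset.mem_compl, Finset.mem_sdiff, not_and_not_right] at hv1
    have h0 : y (insert v (κ \ ρ)) = 0 := by
      by_contra h
      exact (Finset.disjoint_left.mp (hy _ h)) (Finset.mem_insert_self _ _) (hv1 hv)
    rw [h0, mul_zero, mul_zero]

theorem bd_dn (ν : V → ℕ) (ρ κ : Finset V) (z : Finset V → ℝ) (hκ : Disjoint κ ρ) :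
    bd ν (dn ν ρ z) κ = tw ν ρ κ * bd ν z (κ ∪ ρ) := by
  rw [bd_apply, bd_apply, Finset.mul_sum]
  rw [← Finset.sum_subset (s₁ := (κ ∪ ρ)ᶜ) (s₂ := κᶜ)]
  · apply Finset.sum_congr rfl
    intro v hv
    rw [Finset.mem_compl, Finset.mem_union, not_or] at hv
    have h1 : Disjoint (insert v κ) ρ := by
      rw [Finset.disjoint_insert_left]
      exact ⟨hv.2, hκ⟩
    unfold dn
    rw [if_pos h1, tw_insert ν ρ κ v hv.1, Finset.insert_union, sgn_union ν v _ _ hκ]
    ring
  · intro v hv
    rw [Finset.mem_compl] at hv ⊢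
    exact fun h => hv (Finset.mem_union_left _ h)
  · intro v hv1 hv
    rw [Finset.mem_compl, not_not, Finset.mem_union] at hv
    rw [Finset.mem_compl] at hv1
    have hvρ : v ∈ ρ := hv.resolve_left hv1
    unfold dn
    rw [if_neg, mul_zero]
    intro h
    exact (Finset.disjoint_left.mp h) (Finset.mem_insert_self _ _) hvρ

theorem bd_dn' (ν : V → ℕ) (ρ κ : Finset V) (z : Finset V → ℝ) (hκ : ¬ Disjoint κ ρ) :
    bd ν (dn ν ρ z) κ = 0 := by
  rw [bd_apply]
  apply Finset.sum_eq_zero
  intro v _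
  unfold dn
  rw [if_neg, mul_zero]
  intro h
  exact hκ (Finset.disjoint_of_subset_left (Finset.subset_insert v κ) h)

/-- chains of the star -/
def Rel (G : SimpleGraph V) (ρ : Finset V) (j : ℕ) (z : Finset V → ℝ) : Prop :=
  ∀ σ, z σ ≠ 0 → ρ ⊆ σ ∧ Cl G σ ∧ σ.card = j

theorem Rel.linkChain {G : SimpleGraph V} {ρ : Finset V} {j : ℕ} {z : Finset V → ℝ} (ν : V → ℕ)
    (h : Rel G ρ (j + ρ.card) z) : LinkChain G ρ j (dn ν ρ z) := by
  intro σ hσ
  unfold dn at hσ
  by_cases hd : Disjoint σ ρ
  · rw [if_pos hd] at hσ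
    obtain ⟨_, h2, h3⟩ := h _ (right_ne_zero_of_mul hσ)
    refine ⟨hd, h2, ?_⟩
    rw [Finset.card_union_of_disjoint hd] at h3
    omega
  · rw [if_neg hd] at hσ
    exact absurd rfl hσ

theorem rel_up {G : SimpleGraph V} {ρ : Finset V} {j : ℕ} {y : Finset V → ℝ} (ν : V → ℕ)
    (h : LinkChain G ρ j y) : Rel G ρ (j + ρ.card) (up ν ρ y) := by
  intro σ hσ
  unfold up at hσ
  by_cases hd : ρ ⊆ σ
  · rw [if_pos hd] at hσ
    obtain ⟨_, h2, h3⟩ := h _ (right_ne_zero_of_mul hσ)
    rw [Finset.sdiff_union_of_subset hd] at h2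
    refine ⟨hd, h2, ?_⟩
    have := Finset.card_sdiff_add_card_eq_card hd
    omega
  · rw [if_neg hd] at hσ
    exact absurd rfl hσ

theorem up_dn {G : SimpleGraph V} {ρ : Finset V} {j : ℕ} {z : Finset V → ℝ} (ν : V → ℕ)
    (h : Rel G ρ j z) : up ν ρ (dn ν ρ z) = z := by
  funext σ
  unfold up
  by_cases hd : ρ ⊆ σ
  · rw [if_pos hd]
    unfold dn
    rw [if_pos Finset.sdiff_disjoint, Finset.sdiff_union_of_subset hd, ← mul_assoc, tw_sq, one_mul]
  · rw [if_neg hd]
    by_contra hne
    exact hd (h σ (fun h0 => hne h0.symm)).1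

theorem dn_cycle {ρ : Finset V} {z : Finset V → ℝ} (ν : V → ℕ)
    (hc : ∀ κ, ρ ⊆ κ → bd ν z κ = 0) : bd ν (dn ν ρ z) = 0 := by
  funext κ
  by_cases hd : Disjoint κ ρ
  · rw [bd_dn ν ρ κ z hd, hc _ Finset.subset_union_right, mul_zero]
    rfl
  · rw [bd_dn' ν ρ κ z hd]
    rfl

theorem rel_low {G : SimpleGraph V} {n : ℕ} (h : IsHomologySphere G n)
    {ν : V → ℕ} (hν : Function.Injective ν) {ρ : Finset V} (hρ : Cl G ρ) {j : ℕ} (hj : j < n)
    {z : Finset V → ℝ} (hz : Rel G ρ j z) (hc : ∀ κ, ρ ⊆ κ → bd ν z κ = 0) :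
    ∃ y, Rel G ρ (j + 1) y ∧ ∀ κ, ρ ⊆ κ → bd ν y κ = z κ := by
  by_cases hjρ : j < ρ.card
  · have hz0 : z = 0 := by
      funext σ
      by_contra hne
      obtain ⟨h1, _, h3⟩ := hz σ hne
      have := Finset.card_le_card h1
      omega
    refine ⟨0, ?_, ?_⟩
    · intro σ hσ
      exact absurd rfl hσ
    · intro κ _
      rw [hz0, map_zero]
  · obtain ⟨i, rfl⟩ : ∃ i, j = i + ρ.card := ⟨j - ρ.card, by omega⟩
    obtain ⟨y, hy, hyz⟩ := h.low ν hν ρ hρ i hj (dn ν ρ z) (hz.linkChain ν) (dn_cycle ν hc)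
    refine ⟨up ν ρ y, ?_, ?_⟩
    · have := rel_up ν hy
      rwa [show i + 1 + ρ.card = i + ρ.card + 1 by ring] at this
    · intro κ hκ
      rw [bd_up ν ρ κ y (fun σ hσ => (hy σ hσ).1) hκ, hyz]
      have := congrFun (up_dn ν hz) κ
      rw [← this]
      unfold up
      rw [if_pos hκ]

theorem rel_top {G : SimpleGraph V} {n : ℕ} (h : IsHomologySphere G n)
    {ν : V → ℕ} (hν : Function.Injective ν) {ρ : Finset V} (hρ : Cl G ρ) :
    ∃ o, Rel G ρ n o ∧ (∀ κ, ρ ⊆ κ → bd ν o κ = 0) ∧ o ≠ 0 ∧
      ∀ z, Rel G ρ n z → (∀ κ, ρ ⊆ κ → bd ν z κ = 0) → ∃ r : ℝ, z = r • o := by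
  have hn := h.dim ρ hρ
  obtain ⟨i, rfl⟩ : ∃ i, n = i + ρ.card := ⟨n - ρ.card, by omega⟩
  obtain ⟨g, hg, hg0, hg1, hg2⟩ := h.top ν hν ρ hρ i rfl
  refine ⟨up ν ρ g, rel_up ν hg, ?_, ?_, ?_⟩
  · intro κ hκ
    rw [bd_up ν ρ κ g (fun σ hσ => (hg σ hσ).1) hκ, hg0]
    simp
  · intro h0
    apply hg1
    funext σ
    by_contra hne
    obtain ⟨h1, _, _⟩ := hg σ hne
    have h2 := congrFun h0 (σ ∪ ρ)
    unfold up at h2
    rw [if_pos Finset.subset_union_right, Finset.union_sdiff_cancel_right h1] at h2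
    exact (mul_ne_zero (tw_ne ν ρ σ) hne) h2
  · intro z hz hc
    obtain ⟨r, hr⟩ := hg2 _ (hz.linkChain ν) (dn_cycle ν hc)
    refine ⟨r, ?_⟩
    rw [← up_dn ν hz, hr]
    funext σ
    unfold up
    by_cases hd : ρ ⊆ σ
    · simp only [Pi.smul_apply, smul_eq_mul, if_pos hd]
      ring
    · simp [hd]

theorem pure' {G : SimpleGraph V} {n : ℕ} (h : IsHomologySphere G n) {ν : V → ℕ}
    (hν : Function.Injective ν) {ρ : Finset V} (hρ : Cl G ρ) :
    ∃ τ, Cl G τ ∧ τ.card = n ∧ ρ ⊆ τ := by
  obtain ⟨o, h1, _, h3, _⟩ := rel_top h hν hρ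
  obtain ⟨τ, hτ⟩ := Function.ne_iff.mp h3
  obtain ⟨a, b, c⟩ := h1 τ hτ
  exact ⟨τ, b, c, a⟩

theorem anti_sum' (s : Finset V) (F : V → V → ℝ)
    (h : ∀ u ∈ s, ∀ v ∈ s, F u v = - F v u) : ∑ u ∈ s, ∑ v ∈ s, F u v = 0 := by
  have h1 : ∑ u ∈ s, ∑ v ∈ s, F u v = - ∑ u ∈ s, ∑ v ∈ s, F u v := by
    calc ∑ u ∈ s, ∑ v ∈ s, F u v = ∑ u ∈ s, ∑ v ∈ s, - F v u :=
          Finset.sum_congr rfl fun u hu => Finset.sum_congr rfl fun v hv => h u hu v hv
      _ = - ∑ u ∈ s, ∑ v ∈ s, F v u := by
          simp only [Finset.sum_neg_distrib]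
      _ = - ∑ u ∈ s, ∑ v ∈ s, F u v := by rw [Finset.sum_comm]
  linarith

/-- the difference of two simplices which contain `ρ` as a ridge -/
noncomputable def dif (ν : V → ℕ) (ρ : Finset V) (a b : V) : Finset V → ℝ :=
  sgn ν a ρ • Pi.single (insert a ρ) 1 - sgn ν b ρ • Pi.single (insert b ρ) 1

theorem dif_rel {G : SimpleGraph V} (ν : V → ℕ) (ρ : Finset V) (a b : V) (ha : a ∉ ρ)
    (hb : b ∉ ρ) (hca : Cl G (insert a ρ)) (hcb : Cl G (insert b ρ)) :
    Rel G ρ (ρ.card + 1) (dif ν ρ a b) := by
  intro σ hσ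
  by_cases h1 : σ = insert a ρ
  · subst h1
    exact ⟨Finset.subset_insert _ _, hca, Finset.card_insert_of_notMem ha⟩
  · by_cases h2 : σ = insert b ρ
    · subst h2
      exact ⟨Finset.subset_insert _ _, hcb, Finset.card_insert_of_notMem hb⟩
    · exfalso
      apply hσ
      simp [dif, Pi.single_apply, h1, h2]

theorem dif_apply (ν : V → ℕ) (ρ : Finset V) (a b u : V) (ha : a ∉ ρ) (hb : b ∉ ρ) (hu : u ∉ ρ) :
    dif ν ρ a b (insert u ρ) =
      (if u = a then sgn ν a ρ else 0) - (if u = b then sgn ν b ρ else 0) := by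
  have hinj : ∀ x, x ∉ ρ → ((insert u ρ : Finset V) = insert x ρ ↔ u = x) := by
    intro x hx
    constructor
    · intro h
      have : u ∈ insert x ρ := h ▸ Finset.mem_insert_self u ρ
      rcases Finset.mem_insert.mp this with h1 | h1
      · exact h1
      · exact absurd h1 hu
    · rintro rfl
      rfl
  simp only [dif, Pi.sub_apply, Pi.smul_apply, smul_eq_mul, Pi.single_apply, hinj a ha, hinj b hb]
  split_ifs <;> simp

theorem dif_cycle (ν : V → ℕ) (ρ : Finset V) (a b : V) (ha : a ∉ ρ) (hb : b ∉ ρ) :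
    ∀ κ, ρ ⊆ κ → bd ν (dif ν ρ a b) κ = 0 := by
  intro κ hκ
  rw [bd_apply]
  by_cases h : κ = ρ
  · subst h
    have h1 : ∀ v ∈ κᶜ, sgn ν v κ * dif ν κ a b (insert v κ) =
        (if v = a then 1 else 0) - (if v = b then 1 else 0) := by
      intro v hv
      rw [dif_apply ν κ a b v ha hb (Finset.mem_compl.mp hv)]
      have e1 : sgn ν v κ * (if v = a then sgn ν a κ else 0) = if v = a then 1 else 0 := by
        split_ifs with h1
        · subst h1
          exact sgn_sq ν v κ
        · exact mul_zero _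
      have e2 : sgn ν v κ * (if v = b then sgn ν b κ else 0) = if v = b then 1 else 0 := by
        split_ifs with h1
        · subst h1
          exact sgn_sq ν v κ
        · exact mul_zero _
      rw [mul_sub, e1, e2]
    rw [Finset.sum_congr rfl h1, Finset.sum_sub_distrib, Finset.sum_ite_eq', Finset.sum_ite_eq',
      if_pos (Finset.mem_compl.mpr ha), if_pos (Finset.mem_compl.mpr hb), sub_self]
  · apply Finset.sum_eq_zero
    intro v hv
    rw [Finset.mem_compl] at hv
    have hne : ∀ x, (insert v κ : Finset V) ≠ insert x ρ := by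
      intro x hx
      have h1 : (insert v κ : Finset V).card = κ.card + 1 := Finset.card_insert_of_notMem hv
      have h2 : (insert x ρ : Finset V).card ≤ ρ.card + 1 := Finset.card_insert_le x ρ
      have h3 : ρ.card < κ.card := Finset.card_lt_card (hκ.ssubset_of_ne (Ne.symm h))
      rw [hx] at h1
      omega
    simp [dif, Pi.single_apply, hne]

/-- the restriction of a chain to a star -/
def res (ρ : Finset V) (o : Finset V → ℝ) : Finset V → ℝ := fun σ => if ρ ⊆ σ then o σ else 0

theorem res_cycle {ν : V → ℕ} (ρ : Finset V) {o : Finset V → ℝ} (ho : bd ν o = 0) :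
    ∀ κ, ρ ⊆ κ → bd ν (res ρ o) κ = 0 := by
  intro κ hκ
  have h1 := congrFun ho κ
  rw [bd_apply] at h1 ⊢
  refine Eq.trans (Finset.sum_congr rfl ?_) h1
  intro v _
  unfold res
  rw [if_pos (hκ.trans (Finset.subset_insert v κ))]

theorem res_rel {G : SimpleGraph V} {n : ℕ} (ρ : Finset V) {o : Finset V → ℝ}
    (ho : Rel G ∅ n o) : Rel G ρ n (res ρ o) := by
  intro σ hσ
  unfold res at hσ
  by_cases h : ρ ⊆ σ
  · rw [if_pos h] at hσ
    exact ⟨h, (ho σ hσ).2⟩
  · rw [if_neg h] at hσ
    exact absurd rfl hσ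

/-- a top cycle vanishes on all facets which contain `ρ` or on none of them -/
theorem nv {G : SimpleGraph V} {n : ℕ} (h : IsHomologySphere G n) {ν : V → ℕ}
    (hν : Function.Injective ν) {o : Finset V → ℝ} (ho1 : Rel G ∅ n o) (ho2 : bd ν o = 0)
    (d : ℕ) : ∀ ρ, Cl G ρ → d + ρ.card = n →
      (∀ τ, ρ ⊆ τ → Cl G τ → τ.card = n → o τ = 0) ∨
      (∀ τ, ρ ⊆ τ → Cl G τ → τ.card = n → o τ ≠ 0) := by
  induction d with
  | zero =>
    intro ρ hρ hd
    have key : ∀ τ, ρ ⊆ τ → τ.card = n → τ = ρ := fun τ h1 h2 =>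
      (Finset.eq_of_subset_of_card_le h1 (by omega)).symm
    by_cases h0 : o ρ = 0
    · left
      intro τ h1 _ h3
      rw [key τ h1 h3]
      exact h0
    · right
      intro τ h1 _ h3
      rw [key τ h1 h3]
      exact h0
  | succ d ih =>
    intro ρ hρ hd
    by_contra hcon
    rw [not_or] at hcon
    obtain ⟨hcon1, hcon2⟩ := hcon
    have hcon1' : ∃ τ, ρ ⊆ τ ∧ Cl G τ ∧ τ.card = n ∧ o τ ≠ 0 := by
      by_contra hh
      apply hcon1
      intro τ t1 t2 t3
      by_contra t4
      exact hh ⟨τ, t1, t2, t3, t4⟩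
    have hcon2' : ∃ τ, ρ ⊆ τ ∧ Cl G τ ∧ τ.card = n ∧ o τ = 0 := by
      by_contra hh
      apply hcon2
      intro τ t1 t2 t3 t4
      exact hh ⟨τ, t1, t2, t3, t4⟩
    obtain ⟨τ1, a1, a2, a3, a4⟩ := hcon1'
    obtain ⟨τ0, b1, b2, b3, b4⟩ := hcon2'
    have hlt : ρ.card < n := by omega
    obtain ⟨a, ha, haρ⟩ : ∃ a ∈ τ1, a ∉ ρ :=
      Finset.exists_mem_notMem_of_card_lt_card (by omega)
    obtain ⟨b, hb, hbρ⟩ : ∃ b ∈ τ0, b ∉ ρ :=
      Finset.exists_mem_notMem_of_card_lt_card (by omega)
    have hcl : ∀ (τ σ : Finset V), Cl G τ → σ ⊆ τ → Cl G σ :=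
      fun τ σ h1 h2 u hu v hv => h1 u (h2 hu) v (h2 hv)
    have hsa : insert a ρ ⊆ τ1 := Finset.insert_subset ha a1
    have hsb : insert b ρ ⊆ τ0 := Finset.insert_subset hb b1
    have hca := hcl _ _ a2 hsa
    have hcb := hcl _ _ b2 hsb
    have hka : (insert a ρ).card = ρ.card + 1 := Finset.card_insert_of_notMem haρ
    have hkb : (insert b ρ).card = ρ.card + 1 := Finset.card_insert_of_notMem hbρ
    rcases Nat.eq_zero_or_pos d with hd0 | hdpos
    · subst hd0
      have e1 : insert a ρ = τ1 := Finset.eq_of_subset_of_card_le hsa (by omega)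
      have e0 : insert b ρ = τ0 := Finset.eq_of_subset_of_card_le hsb (by omega)
      have hab : a ≠ b := by
        rintro rfl
        rw [← e1, e0] at a4
        exact a4 b4
      obtain ⟨g, g1, g2, g3, g4⟩ := rel_top h hν hρ
      obtain ⟨r, hr⟩ := g4 (res ρ o) (res_rel ρ ho1) (res_cycle ρ ho2)
      have hr1 := congrFun hr τ1
      have hr0 := congrFun hr τ0
      simp only [res, if_pos a1, if_pos b1, Pi.smul_apply, smul_eq_mul] at hr1 hr0
      have hrne : r ≠ 0 := by
        rintro rfl
        rw [zero_mul] at hr1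
        exact a4 hr1
      have hg0 : g τ0 = 0 := by
        rw [b4] at hr0
        exact (mul_eq_zero.mp hr0.symm).resolve_left hrne
      have hdr := dif_rel ν ρ a b haρ hbρ hca hcb
      rw [show ρ.card + 1 = n by omega] at hdr
      obtain ⟨s, hs⟩ := g4 (dif ν ρ a b) hdr (dif_cycle ν ρ a b haρ hbρ)
      have hs0 := congrFun hs τ0
      rw [← e0, dif_apply ν ρ a b b haρ hbρ hbρ, e0] at hs0
      simp only [if_neg hab.symm, Pi.smul_apply, smul_eq_mul, hg0, mul_zero, if_true,
        zero_sub, neg_eq_zero] at hs0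
      exact sgn_ne ν b ρ hs0
    · have hA : ∀ τ, insert a ρ ⊆ τ → Cl G τ → τ.card = n → o τ ≠ 0 := by
        rcases ih (insert a ρ) hca (by omega) with hh | hh
        · exact absurd (hh τ1 hsa a2 a3) a4
        · exact hh
      have hB : ¬ ∀ τ, insert b ρ ⊆ τ → Cl G τ → τ.card = n → o τ ≠ 0 :=
        fun hh => hh τ0 hsb b2 b3 b4
      obtain ⟨y, y1, y2⟩ := rel_low h hν hρ (j := ρ.card + 1) (by omega)
        (dif_rel ν ρ a b haρ hbρ hca hcb) (dif_cycle ν ρ a b haρ hbρ)
      classical
      let A : Finset V := univ.filter fun u => u ∉ ρ ∧ Cl G (insert u ρ) ∧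
        ∀ τ, insert u ρ ⊆ τ → Cl G τ → τ.card = n → o τ ≠ 0
      have hmem : ∀ u, u ∈ A ↔ (u ∉ ρ ∧ Cl G (insert u ρ) ∧
          ∀ τ, insert u ρ ⊆ τ → Cl G τ → τ.card = n → o τ ≠ 0) := by
        intro u
        simp only [A, Finset.mem_filter, Finset.mem_univ, true_and]
      have haA : a ∈ A := (hmem a).mpr ⟨haρ, hca, hA⟩
      have hbA : b ∉ A := fun hh => hB ((hmem b).mp hh).2.2
      have hsum1 : ∑ u ∈ A, sgn ν u ρ * bd ν y (insert u ρ) = 1 := by
        have e : ∀ u ∈ A, sgn ν u ρ * bd ν y (insert u ρ) =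
            (if u = a then 1 else 0) - (if u = b then 1 else 0) := by
          intro u hu
          rw [y2 _ (Finset.subset_insert u ρ), dif_apply ν ρ a b u haρ hbρ ((hmem u).mp hu).1]
          have e1 : sgn ν u ρ * (if u = a then sgn ν a ρ else 0) = if u = a then 1 else 0 := by
            split_ifs with h1
            · subst h1
              exact sgn_sq ν u ρ
            · exact mul_zero _
          have e2 : sgn ν u ρ * (if u = b then sgn ν b ρ else 0) = if u = b then 1 else 0 := by
            split_ifs with h1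
            · subst h1
              exact sgn_sq ν u ρ
            · exact mul_zero _
          rw [mul_sub, e1, e2]
        rw [Finset.sum_congr rfl e, Finset.sum_sub_distrib, Finset.sum_ite_eq',
          Finset.sum_ite_eq', if_pos haA, if_neg hbA, sub_zero]
      have hsum2 : ∑ u ∈ A, sgn ν u ρ * bd ν y (insert u ρ) =
          ∑ u ∈ A, ∑ w ∈ A, (if u = w then 0 else
            sgn ν u ρ * sgn ν w (insert u ρ) * y (insert w (insert u ρ))) := by
        apply Finset.sum_congr rfl
        intro u hu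
        obtain ⟨u1, u2, u3⟩ := (hmem u).mp hu
        rw [bd_apply, Finset.mul_sum]
        have hleft : ∑ w ∈ (insert u ρ)ᶜ, sgn ν u ρ *
            (sgn ν w (insert u ρ) * y (insert w (insert u ρ))) =
            ∑ w ∈ (insert u ρ)ᶜ ∩ A, (if u = w then 0 else
            sgn ν u ρ * sgn ν w (insert u ρ) * y (insert w (insert u ρ))) := by
          rw [← Finset.sum_subset (Finset.inter_subset_left : (insert u ρ)ᶜ ∩ A ⊆ (insert u ρ)ᶜ)]
          · apply Finset.sum_congr rfl
            intro w hw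
            have hwu : u ≠ w := by
              rintro rfl
              exact (Finset.mem_compl.mp (Finset.mem_inter.mp hw).1) (Finset.mem_insert_self _ _)
            rw [if_neg hwu, mul_assoc]
          · intro w hw hwA
            have hy0 : y (insert w (insert u ρ)) = 0 := by
              by_contra hne
              obtain ⟨_, c2, c3⟩ := y1 _ hne
              apply hwA
              refine Finset.mem_inter.mpr ⟨hw, (hmem w).mpr ?_⟩
              rw [Finset.mem_compl, Finset.mem_insert, not_or] at hw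
              have hwsub : insert w ρ ⊆ insert w (insert u ρ) :=
                Finset.insert_subset_insert w (Finset.subset_insert u ρ)
              have hcw : Cl G (insert w ρ) := hcl _ _ c2 hwsub
              refine ⟨hw.2, hcw, ?_⟩
              obtain ⟨τ, t1, t2, t3⟩ := pure' h hν c2
              have hτ : o τ ≠ 0 := u3 τ ((Finset.subset_insert w _).trans t3) t1 t2
              rcases ih (insert w ρ) hcw
                (by rw [Finset.card_insert_of_notMem hw.2]; omega) with hh | hh
              · exact absurd (hh τ (hwsub.trans t3) t1 t2) hτ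
              · exact hh
            rw [hy0, mul_zero, mul_zero]
        rw [hleft]
        apply Finset.sum_subset Finset.inter_subset_right
        intro w hw hw2
        have hwu : u = w := by
          by_contra hne
          apply hw2
          refine Finset.mem_inter.mpr ⟨?_, hw⟩
          rw [Finset.mem_compl, Finset.mem_insert, not_or]
          exact ⟨fun h => hne h.symm, ((hmem w).mp hw).1⟩
        rw [if_pos hwu]
      have hzero : ∑ u ∈ A, ∑ w ∈ A, (if u = w then 0 else
            sgn ν u ρ * sgn ν w (insert u ρ) * y (insert w (insert u ρ))) = 0 := by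
        apply anti_sum'
        intro u hu w hw
        by_cases huw : u = w
        · subst huw
          simp
        · rw [if_neg huw, if_neg (fun h => huw h.symm), Finset.insert_comm w u ρ]
          have := sgn_swap ν hν u w huw ρ ((hmem u).mp hu).1 ((hmem w).mp hw).1
          linear_combination (y (insert u (insert w ρ))) * this
      rw [hsum1] at hsum2
      rw [hzero] at hsum2
      exact one_ne_zero hsum2

theorem nonvanishing {G : SimpleGraph V} {n : ℕ} (h : IsHomologySphere G n) {ν : V → ℕ}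
    (hν : Function.Injective ν) {o : Finset V → ℝ} (ho1 : Rel G ∅ n o) (ho2 : bd ν o = 0)
    (ho3 : o ≠ 0) : ∀ τ, Cl G τ → τ.card = n → o τ ≠ 0 := by
  have hcl : Cl G (∅ : Finset V) := fun u hu => absurd hu (Finset.notMem_empty u)
  rcases nv h hν ho1 ho2 n ∅ hcl (by simp) with hh | hh
  · exfalso
    apply ho3
    funext σ
    by_contra hne
    obtain ⟨_, c2, c3⟩ := ho1 σ hne
    exact hne (hh σ (Finset.empty_subset σ) c2 c3)
  · intro τ t1 t2
    exact hh τ (Finset.empty_subset τ) t1 t2

theorem dual_lem {F : Type} [AddCommGroup F] [Module ℝ F] [FiniteDimensional ℝ F]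
    (T : F →ₗ[ℝ] (Finset V → ℝ)) (ℓ : F →ₗ[ℝ] ℝ) (h : ∀ z, T z = 0 → ℓ z = 0) :
    ∃ χ : Finset V → ℝ, ∀ z, ℓ z = ∑ κ, T z κ * χ κ := by
  have h1 : ℓ ∈ (LinearMap.ker T).dualAnnihilator := by
    rw [Submodule.mem_dualAnnihilator]
    intro z hz
    exact h z hz
  rw [← LinearMap.range_dualMap_eq_dualAnnihilator_ker] at h1
  obtain ⟨φ, hφ⟩ := h1
  refine ⟨fun κ => φ (Pi.single κ 1), fun z => ?_⟩
  rw [← hφ, LinearMap.dualMap_apply, LinearMap.pi_apply_eq_sum_univ φ (T z)]
  apply Finset.sum_congr rfl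
  intro κ _
  rw [smul_eq_mul]
  congr 2
  funext j
  simp [Pi.single_apply, eq_comm]

theorem adj_lem (ν : V → ℕ) (ρ : Finset V) (p χ : Finset V → ℝ) (hp : ∀ σ, p σ ≠ 0 → ρ ⊆ σ) :
    ∑ κ, (if ρ ⊆ κ then bd ν p κ else 0) * χ κ =
      ∑ σ, p σ * ∑ v ∈ σ \ ρ, sgn ν v σ * χ (σ.erase v) := by
  have hL : ∑ κ, (if ρ ⊆ κ then bd ν p κ else 0) * χ κ =
      ∑ v : V, ∑ κ ∈ univ.filter (fun κ : Finset V => v ∉ κ),
        (if ρ ⊆ κ then sgn ν v κ * p (insert v κ) * χ κ else 0) := by
    rw [Finset.sum_comm' (t' := univ) (s' := fun κ : Finset V => κᶜ)]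
    · apply Finset.sum_congr rfl
      intro κ _
      by_cases h : ρ ⊆ κ
      · simp only [if_pos h]
        rw [bd_apply, Finset.sum_mul]
      · simp only [if_neg h, zero_mul, Finset.sum_const_zero]
    · intro v κ
      simp
  have hR : ∑ σ, p σ * ∑ v ∈ σ \ ρ, sgn ν v σ * χ (σ.erase v) =
      ∑ v : V, ∑ σ ∈ univ.filter (fun σ : Finset V => v ∈ σ),
        (if v ∈ ρ then 0 else p σ * (sgn ν v σ * χ (σ.erase v))) := by
    rw [Finset.sum_comm' (t' := univ) (s' := fun σ : Finset V => σ)]
    · apply Finset.sum_congr rfl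
      intro σ _
      rw [Finset.mul_sum, Finset.sdiff_eq_filter, Finset.sum_filter]
      apply Finset.sum_congr rfl
      intro v _
      by_cases h : v ∈ ρ <;> simp [h]
    · intro v σ
      simp
  rw [hL, hR]
  apply Finset.sum_congr rfl
  intro v _
  refine Finset.sum_nbij' (fun κ => insert v κ) (fun σ => σ.erase v) ?_ ?_ ?_ ?_ ?_
  · intro κ _
    simp
  · intro σ _
    simp
  · intro κ hκ
    rw [Finset.mem_filter] at hκ
    exact Finset.erase_insert hκ.2
  · intro σ hσ
    rw [Finset.mem_filter] at hσ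
    exact Finset.insert_erase hσ.2
  · intro κ hκ
    rw [Finset.mem_filter] at hκ
    rw [Finset.erase_insert hκ.2, sgn_insert_self]
    by_cases hvρ : v ∈ ρ
    · rw [if_pos hvρ, if_neg (fun h => hκ.2 (h hvρ))]
    · rw [if_neg hvρ]
      by_cases hρκ : ρ ⊆ κ
      · rw [if_pos hρκ]
        ring
      · rw [if_neg hρκ]
        by_cases hp0 : p (insert v κ) = 0
        · rw [hp0, zero_mul]
        · exfalso
          apply hρκ
          intro x hx
          have := hp _ hp0 hx
          rcases Finset.mem_insert.mp this with h1 | h1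
          · subst h1
            exact absurd hx hvρ
          · exact h1

open Classical in
/-- the truncation to the cliques with `j` vertices which contain `ρ` -/
noncomputable def tr (G : SimpleGraph V) (ρ : Finset V) (j : ℕ) :
    (Finset V → ℝ) →ₗ[ℝ] (Finset V → ℝ) where
  toFun z σ := if ρ ⊆ σ ∧ Cl G σ ∧ σ.card = j then z σ else 0
  map_add' c c' := by
    funext σ
    by_cases h : ρ ⊆ σ ∧ Cl G σ ∧ σ.card = j <;> simp [h]
  map_smul' r c := by
    funext σ
    by_cases h : ρ ⊆ σ ∧ Cl G σ ∧ σ.card = j <;> simp [h]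

theorem tr_apply (G : SimpleGraph V) (ρ : Finset V) (j : ℕ) (z : Finset V → ℝ) (σ : Finset V)
    (h : ρ ⊆ σ ∧ Cl G σ ∧ σ.card = j) : tr G ρ j z σ = z σ := if_pos h

theorem tr_rel (G : SimpleGraph V) (ρ : Finset V) (j : ℕ) (z : Finset V → ℝ) :
    Rel G ρ j (tr G ρ j z) := by
  intro σ hσ
  by_contra h
  exact hσ (if_neg h)

/-- the boundary in the star -/
noncomputable def bdr (ν : V → ℕ) (ρ : Finset V) :
    (Finset V → ℝ) →ₗ[ℝ] (Finset V → ℝ) where
  toFun z κ := if ρ ⊆ κ then bd ν z κ else 0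
  map_add' c c' := by
    funext κ
    by_cases h : ρ ⊆ κ <;> simp [h]
  map_smul' r c := by
    funext κ
    by_cases h : ρ ⊆ κ <;> simp [h]

/-- duality -/
theorem dual_main {G : SimpleGraph V} {ν : V → ℕ} {ρ : Finset V} (j : ℕ)
    (ψ : Finset V → ℝ)
    (hψ : ∀ z, Rel G ρ j z → (∀ κ, ρ ⊆ κ → bd ν z κ = 0) → ∑ σ, z σ * ψ σ = 0) :
    ∃ χ : Finset V → ℝ, ∀ σ, Cl G σ → ρ ⊆ σ → σ.card = j →
      ψ σ = ∑ v ∈ σ \ ρ, sgn ν v σ * χ (σ.erase v) := by
  let ℓ : (Finset V → ℝ) →ₗ[ℝ] ℝ :=
    (∑ σ, ψ σ • LinearMap.proj (R := ℝ) (φ := fun _ : Finset V => ℝ) σ) ∘ₗ tr G ρ j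
  have hℓ : ∀ z, ℓ z = ∑ σ, tr G ρ j z σ * ψ σ := by
    intro z
    simp only [ℓ, LinearMap.comp_apply, LinearMap.sum_apply, LinearMap.smul_apply,
      LinearMap.proj_apply, smul_eq_mul]
    apply Finset.sum_congr rfl
    intro σ _
    ring
  obtain ⟨χ, hχ⟩ := dual_lem (bdr ν ρ ∘ₗ tr G ρ j) ℓ (by
    intro z hz
    rw [hℓ]
    apply hψ _ (tr_rel G ρ j z)
    intro κ hκ
    have := congrFun hz κ
    change (if ρ ⊆ κ then bd ν (tr G ρ j z) κ else 0) = 0 at this
    rwa [if_pos hκ] at this)
  refine ⟨χ, ?_⟩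
  intro σ h1 h2 h3
  have h4 := hχ (Pi.single σ 1)
  rw [hℓ] at h4
  change _ = ∑ κ, (if ρ ⊆ κ then bd ν (tr G ρ j (Pi.single σ 1)) κ else 0) * χ κ at h4
  rw [adj_lem ν ρ _ χ (fun σ' hσ' => (tr_rel G ρ j _ σ' hσ').1)] at h4
  have h5 : tr G ρ j (Pi.single σ 1) = Pi.single σ 1 := by
    funext σ'
    by_cases h : σ' = σ
    · subst h
      exact tr_apply G ρ j _ _ ⟨h2, h1, h3⟩
    · have h6 : (Pi.single σ (1 : ℝ) : Finset V → ℝ) σ' = 0 := Pi.single_eq_of_ne h _
      rw [h6]
      by_contra hne
      have := tr_rel G ρ j _ σ' hne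
      rw [tr_apply G ρ j _ σ' this, h6] at hne
      exact hne rfl
  rw [h5] at h4
  have h7 : ∀ f : Finset V → ℝ, ∑ σ', (Pi.single σ (1 : ℝ) : Finset V → ℝ) σ' * f σ' = f σ := by
    intro f
    rw [Finset.sum_eq_single σ]
    · simp
    · intro b _ hb
      rw [Pi.single_eq_of_ne hb, zero_mul]
    · intro h
      exact absurd (Finset.mem_univ σ) h
  rw [h7 ψ, h7 (fun σ' => ∑ v ∈ σ' \ ρ, sgn ν v σ' * χ (σ'.erase v))] at h4
  exact h4

end SphereAux

open SphereAux in
/-- homology spheres are oriented by a nonvanishing cycle -/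
theorem IsHomologySphere.isSphere {G : SimpleGraph V} {n : ℕ} (h : IsHomologySphere G n)
    (ν : V → ℕ) (hν : Function.Injective ν) : ∃ o, IsSphere ν G n univ o := by
  have hcl : Cl G (∅ : Finset V) := fun u hu => absurd hu (Finset.notMem_empty u)
  obtain ⟨o, o1, o2, o3, _⟩ := rel_top h hν hcl
  have o2' : bd ν o = 0 := funext fun κ => o2 κ (Finset.empty_subset κ)
  have hne := nonvanishing h hν o1 o2' o3
  have hfac : ∀ σ, σ ∈ fac G n univ ↔ Cl G σ ∧ σ.card = n := by
    intro σ
    simp [fac]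
  refine ⟨o, ?_⟩
  constructor
  · intro σ _ hσ
    exact h.dim σ hσ
  · intro ρ _ hρ
    obtain ⟨τ, t1, t2, t3⟩ := pure' h hν hρ
    exact ⟨τ, Finset.subset_univ τ, t1, t2, t3⟩
  · intro τ _ h1 h2
    exact hne τ h1 h2
  · intro κ _ _ _
    have h1 := congrFun o2' κ
    rw [bd_apply] at h1
    refine Eq.trans ?_ h1
    rw [← Finset.sum_subset (Finset.subset_univ κᶜ)]
    · apply Finset.sum_congr rfl
      intro v hv
      rw [Finset.mem_compl] at hv
      by_cases h0 : o (insert v κ) = 0
      · simp [h0]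
      · obtain ⟨_, c2, c3⟩ := o1 _ h0
        rw [if_pos ⟨hv, (hfac _).mpr ⟨c2, c3⟩⟩]
    · intro v _ hv
      rw [Finset.mem_compl, not_not] at hv
      rw [if_neg (fun h => h.1 hv)]
  · intro ρ _ hρ j hj ψ hψ
    obtain ⟨χ, hχ⟩ := dual_main (G := G) (ν := ν) (ρ := ρ) j ψ (by
      intro z hz hc
      obtain ⟨y, y1, y2⟩ := rel_low h hν hρ hj hz hc
      have e : ∀ σ, z σ * ψ σ = (if ρ ⊆ σ then bd ν y σ else 0) * ψ σ := by
        intro σ
        by_cases hs : ρ ⊆ σ
        · rw [if_pos hs, y2 σ hs]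
        · rw [if_neg hs]
          have : z σ = 0 := by
            by_contra hne
            exact hs (hz σ hne).1
          rw [this]
      rw [Finset.sum_congr rfl (fun σ _ => e σ), adj_lem ν ρ y ψ (fun σ hσ => (y1 σ hσ).1)]
      apply Finset.sum_eq_zero
      intro σ _
      by_cases h0 : y σ = 0
      · rw [h0, zero_mul]
      · obtain ⟨c1, c2, c3⟩ := y1 σ h0
        rw [hψ σ (Finset.subset_univ σ) c2 c1 c3, mul_zero])
    exact ⟨χ, fun σ _ h1 h2 h3 => hχ σ h1 h2 h3⟩
  · intro ρ _ hρ ψ hψ
    obtain ⟨g, g1, g2, g3, g4⟩ := rel_top h hν hρ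
    obtain ⟨r, hr⟩ := g4 (res ρ o) (res_rel ρ o1) (res_cycle ρ o2')
    have hrne : r ≠ 0 := by
      rintro rfl
      obtain ⟨τ, t1, t2, t3⟩ := pure' h hν hρ
      have := congrFun hr τ
      simp only [res, if_pos t3, Pi.smul_apply, smul_eq_mul, zero_mul] at this
      exact hne τ t1 t2 this
    obtain ⟨χ, hχ⟩ := dual_main (G := G) (ν := ν) (ρ := ρ) n ψ (by
      intro z hz hc
      obtain ⟨s, hs⟩ := g4 z hz hc
      have hz' : ∀ σ, z σ = (s / r) * (if ρ ⊆ σ then o σ else 0) := by
        intro σ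
        have h1 := congrFun hr σ
        have h2 := congrFun hs σ
        simp only [res, Pi.smul_apply, smul_eq_mul] at h1 h2
        rw [h1, h2]
        field_simp
      have e : ∀ σ : Finset V, z σ * ψ σ =
          (s / r) * (if σ ∈ fac G n univ then (if ρ ⊆ σ then o σ * ψ σ else 0) else 0) := by
        intro σ
        rw [hz' σ]
        by_cases h1 : σ ∈ fac G n univ
        · rw [if_pos h1]
          by_cases h2 : ρ ⊆ σ
          · rw [if_pos h2, if_pos h2]
            ring
          · rw [if_neg h2, if_neg h2]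
            ring
        · rw [if_neg h1]
          have : o σ = 0 := by
            by_contra hne'
            exact h1 ((hfac σ).mpr (o1 σ hne').2)
          rw [this]
          simp
      rw [Finset.sum_congr rfl (fun σ _ => e σ), ← Finset.mul_sum, Finset.sum_ite_mem,
        Finset.univ_inter, hψ, mul_zero])
    exact ⟨χ, fun σ _ h1 h2 h3 => hχ σ h1 h2 h3⟩

end Pool.Agent.H85.Fold

end

section

/-!
# Singer without colours: the dimension count
-/

set_option autoImplicit false
set_option linter.unusedSectionVars false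

open Finset

namespace Pool.Agent.H77.SW

open Pool.Agent.H85.VK

/-- Linear maps with trivial common kernel. -/
private theorem count_inj {K Z E : Type} [Field K] [AddCommGroup Z] [Module K Z] [Module.Finite K Z]
    [AddCommGroup E] [Module K E] [Module.Finite K E] {ι : Type} [DecidableEq ι] (F : Finset ι)
    (f : ι → Z →ₗ[K] E) : Module.finrank K Z ≤
      Module.finrank K (⨅ i ∈ F, LinearMap.ker (f i) : Submodule K Z) +
        ∑ i ∈ F, (Module.finrank K Z - Module.finrank K (LinearMap.ker (f i))) := by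
  induction F using Finset.induction_on with
  | empty =>
    have h0 : (⨅ i ∈ (∅ : Finset ι), LinearMap.ker (f i)) = (⊤ : Submodule K Z) := by simp
    rw [h0, finrank_top]
    simp
  | insert i F hi ih =>
    rw [sum_insert hi, Finset.iInf_insert]
    have h1 := Submodule.finrank_sup_add_finrank_inf_eq (LinearMap.ker (f i))
      (⨅ j ∈ F, LinearMap.ker (f j))
    have h2 : Module.finrank K
        ((LinearMap.ker (f i)) ⊔ (⨅ j ∈ F, LinearMap.ker (f j)) : Submodule K Z) ≤
        Module.finrank K Z := Submodule.finrank_le _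
    omega

variable {V : Type} [DecidableEq V] [Fintype V] {K : Type} [Field K] [CharP K 2]

/-- the sum over the facets -/
private theorem count_facets (G : SimpleGraph V) (n : ℕ) {P : Type} [Group P] [Fintype P]
    (D : PG G P) (c : ℕ) (h : ∀ s : Finset V, G.IsClique (s : Set V) → s.card = n →
      dz K n D ≤ Module.finrank K (Z0 K n D s) + c) : dz K n D ≤ 2 ^ Fintype.card V * c := by
  classical
  let Z := Zs K G n (rP K D)
  let f : Finset V → Z →ₗ[K] (P → K) := fun σ =>
    (LinearMap.proj (R := K) (φ := fun _ : Finset V => P → K) σ).comp Z.subtype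
  have h1 := count_inj (K := K) (univ : Finset (Finset V)) f
  have h2 : (⨅ i ∈ (univ : Finset (Finset V)), LinearMap.ker (f i) : Submodule K Z) = ⊥ := by
    rw [eq_bot_iff]
    intro z hz
    rw [Submodule.mem_bot]
    apply Subtype.ext
    funext σ
    have h3 := (Submodule.mem_iInf _).1 ((Submodule.mem_iInf _).1 hz σ) (mem_univ σ)
    exact h3
  rw [h2, finrank_bot, zero_add] at h1
  refine h1.trans ?_
  have h4 : ∀ σ ∈ (univ : Finset (Finset V)),
      Module.finrank K Z - Module.finrank K (LinearMap.ker (f σ)) ≤ c := by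
    intro σ _
    have h5 : Module.finrank K (LinearMap.ker (f σ)) = Module.finrank K (Z0 K n D σ) := by
      have e : (LinearMap.ker (f σ)).map Z.subtype = Z0 K n D σ := by
        ext z
        constructor
        · rintro ⟨w, hw, rfl⟩
          exact ⟨w.2, hw⟩
        · rintro ⟨hz1, hz2⟩
          exact ⟨⟨z, hz1⟩, hz2, rfl⟩
      rw [← e]
      exact (Submodule.equivMapOfInjective Z.subtype Z.injective_subtype _).finrank_eq
    by_cases hσ : G.IsClique (σ : Set V) ∧ σ.card = n
    · have h6 := h σ hσ.1 hσ.2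
      have h7 : Module.finrank K Z = dz K n D := rfl
      omega
    · have h8 : Z0 K n D σ = Zs K G n (rP K D) := by
        refine le_antisymm inf_le_left fun z hz => ⟨hz, ?_⟩
        by_contra hne
        exact hσ (hz.1 σ hne)
      rw [h5, h8]
      have h7 : Module.finrank K Z = Module.finrank K (Zs K G n (rP K D)) := rfl
      omega
  refine (sum_le_card_nsmul _ _ _ h4).trans ?_
  rw [smul_eq_mul, Finset.card_univ, Fintype.card_finset]

/-- the cube -/
def cubePG (G : SimpleGraph V) : PG G (Multiplicative (V → ZMod 2)) where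
  g v := Multiplicative.ofAdd (Pi.single v 1)
  sq v := by
    rw [← ofAdd_add, ← Pi.single_add]
    have h : (1 : ZMod 2) + 1 = 0 := by decide
    rw [h, Pi.single_zero]
    rfl
  comm u v _ := mul_comm _ _
  b p v := Multiplicative.toAdd p v
  b_mul p q v := rfl
  b_g u v := by
    show (Pi.single u 1 : V → ZMod 2) v = _
    rw [Pi.single_apply]
    simp only [eq_comm]
  two := by
    intro p
    refine ⟨1, ?_⟩
    rw [pow_one, pow_two, ← toAdd_eq_zero]
    funext v
    show Multiplicative.toAdd p v + Multiplicative.toAdd p v = 0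
    exact zmod2_add_self _

/-- **The dimension count.** -/
theorem small (X : GenSeq K) (G : SimpleGraph V) (k : ℕ)
    (hdim : ∀ σ : Finset V, G.IsClique (σ : Set V) → σ.card ≤ k + 1) (hvk : VanKampenZero G k)
    (ε : ℝ) (hε : 0 < ε) : ∃ (P : Type) (_ : Group P) (_ : Fintype P) (D : PG G P),
      (dz K (k + 1) D : ℝ) ≤ ε * Fintype.card P := by
  classical
  by_contra hcon
  push Not at hcon
  let S : Set ℝ := {x | ∃ (P : Type) (_ : Group P) (_ : Fintype P) (D : PG G P),
    x = dz K (k + 1) D / Fintype.card P}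
  have hne : S.Nonempty := ⟨_, _, inferInstance, inferInstance, cubePG G, rfl⟩
  have hcard : ∀ (P : Type) [Group P] [Fintype P], (0 : ℝ) < Fintype.card P := by
    intro P _ _
    exact_mod_cast Fintype.card_pos
  have hlow : ∀ x ∈ S, ε ≤ x := by
    rintro x ⟨P, grp, fin, D, rfl⟩
    have h1 := hcon P grp fin D
    rw [le_div_iff₀ (hcard P)]
    exact h1.le
  have hbdd : BddBelow S := ⟨ε, hlow⟩
  set z := sInf S with hz
  have hzε : ε ≤ z := le_csInf hne hlow
  have hz0 : 0 < z := hε.trans_le hzε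
  set M : ℝ := 2 ^ Fintype.card V with hM
  have hM0 : 0 < M := by positivity
  obtain ⟨x, ⟨P₀, grp₀, fin₀, D₀, rfl⟩, hx⟩ :=
    exists_lt_of_csInf_lt hne (show sInf S < z + z / (M * M) by
      have : 0 < z / (M * M) := by positivity
      linarith)
  obtain ⟨P, grp, fin, D, hgood, hD⟩ := exists_good (K := K) G (k + 1) D₀
  set m : ℝ := (Fintype.card P : ℝ) with hm
  have hm0 : 0 < m := hcard P
  set d : ℝ := (dz K (k + 1) D : ℝ) with hd
  have h1 : d < (z + z / (M * M)) * m := by
    have h2 : (Fintype.card P₀ : ℝ) * d ≤ m * dz K (k + 1) D₀ := by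
      rw [hd, hm]
      exact_mod_cast hD
    have h3 : (dz K (k + 1) D₀ : ℝ) < (z + z / (M * M)) * Fintype.card P₀ := by
      rwa [div_lt_iff₀ (hcard P₀)] at hx
    have h4 : (Fintype.card P₀ : ℝ) * d < Fintype.card P₀ * ((z + z / (M * M)) * m) := by
      refine h2.trans_lt ?_
      have h5 := mul_lt_mul_of_pos_left h3 hm0
      linarith
    exact lt_of_mul_lt_mul_left h4 (hcard P₀).le
  have h2 : z * m ≤ d := by
    have h3 : z ≤ d / m := csInf_le hbdd ⟨P, grp, fin, D, rfl⟩
    rwa [le_div_iff₀ hm0] at h3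
  -- the facets
  have hfac : ∀ s : Finset V, G.IsClique (s : Set V) → s.card = k + 1 →
      d ≤ Module.finrank K (Z0 K (k + 1) D s) + M * (d - z * m) := by
    intro s hs hsc
    obtain ⟨I, _, _, ι, τ, hι, hgen⟩ := exists_gen X G k hdim D hgood s hs hsc
    obtain ⟨P', grp', fin', D', h3⟩ := lower_rE (K := K) G (k + 1) D s ι τ hι
    have h4 := upper_rE G (k + 1) D s (fun v p => τ (ι v p)) s
      (key G k hvk D s hs hsc _ (fun v u hvu p => by rw [hι v u hvu p]) hgen)
    have h5 : z ≤ dz K (k + 1) D' / Fintype.card P' :=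
      csInf_le hbdd ⟨P', grp', fin', D', rfl⟩
    rw [le_div_iff₀ (hcard P')] at h5
    have h6 : (Fintype.card (Finset V × P) : ℝ) * dz K (k + 1) D' ≤ Fintype.card P' *
        Module.finrank K (Zs K G (k + 1) (rE D s fun v p => τ (ι v p))) := by exact_mod_cast h3
    have h7 : (Fintype.card (Finset V × P) : ℝ) = M * m := by
      rw [Fintype.card_prod, Fintype.card_finset]
      push_cast
      rfl
    rw [h7] at h6
    have h8 : M * m * z ≤
        Module.finrank K (Zs K G (k + 1) (rE D s fun v p => τ (ι v p))) := by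
      have h9 : (Fintype.card P' : ℝ) * (M * m * z) ≤ Fintype.card P' *
          Module.finrank K (Zs K G (k + 1) (rE D s fun v p => τ (ι v p))) := by
        refine le_trans ?_ h6
        have h10 := mul_le_mul_of_nonneg_left h5 (mul_nonneg hM0.le hm0.le)
        linarith
      exact le_of_mul_le_mul_left h9 (hcard P')
    have h9 : (Module.finrank K (Zs K G (k + 1) (rE D s fun v p => τ (ι v p))) : ℝ) ≤
        Module.finrank K (Z0 K (k + 1) D s) + (M - 1) * d := by
      have h10 : ((2 ^ Fintype.card V - 1 : ℕ) : ℝ) = M - 1 := by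
        rw [Nat.cast_sub Nat.one_le_two_pow]
        push_cast
        rfl
      rw [← h10, hd]
      exact_mod_cast h4
    linarith
  have hc0 : 0 ≤ M * (d - z * m) := mul_nonneg hM0.le (by linarith)
  have h3 := count_facets (K := K) G (k + 1) D ⌊M * (d - z * m)⌋₊ (by
    intro s hs hsc
    have h4 := hfac s hs hsc
    have h5 : ((dz K (k + 1) D : ℤ) : ℝ) - ((Module.finrank K (Z0 K (k + 1) D s) : ℤ) : ℝ) ≤
        M * (d - z * m) := by
      push_cast
      linarith
    have h6 : (dz K (k + 1) D : ℤ) - Module.finrank K (Z0 K (k + 1) D s) ≤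
        ⌊M * (d - z * m)⌋ := by
      rw [Int.le_floor]
      push_cast at h5 ⊢
      exact h5
    have h7 : (⌊M * (d - z * m)⌋₊ : ℤ) = ⌊M * (d - z * m)⌋ := Int.natCast_floor_eq_floor hc0
    omega)
  have h4 : d ≤ M * ⌊M * (d - z * m)⌋₊ := by
    have h5 : ((dz K (k + 1) D : ℕ) : ℝ) ≤
        ((2 ^ Fintype.card V * ⌊M * (d - z * m)⌋₊ : ℕ) : ℝ) := Nat.cast_le.2 h3
    rw [Nat.cast_mul, Nat.cast_pow, Nat.cast_ofNat] at h5
    exact h5
  have h5 : (⌊M * (d - z * m)⌋₊ : ℝ) ≤ M * (d - z * m) := Nat.floor_le hc0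
  have h6 : d ≤ M * (M * (d - z * m)) := h4.trans (mul_le_mul_of_nonneg_left h5 hM0.le)
  have h7 : d - z * m < z / (M * M) * m := by linarith
  have h8 : M * (M * (d - z * m)) < M * (M * (z / (M * M) * m)) :=
    mul_lt_mul_of_pos_left (mul_lt_mul_of_pos_left h7 hM0) hM0
  have h9 : M * (M * (z / (M * M) * m)) = z * m := by
    field_simp
  linarith

end Pool.Agent.H77.SW

end

section

/-!
# Project S10: the dictionary between special cube complexes and finite sets with an action of `W`

`Q` is a cube complex with labelled edges, `R : Rac Q.graph W`. The group `W` acts from the right on the vertices of `Q`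
through the completed involutions (`rx`). A label `v` is active at `w ∈ W` (`Act`) if it is a label at the vertex
`rx x₀ w`. The map `jj : Q.Cover x₀ → W` (product of the labels of a path) is a bijection onto the component of `1` in
the graph of the active edges, and the deck group is the group of the elements of this component which fix `x₀`.
-/

set_option autoImplicit false
set_option linter.unusedSectionVars false

open Finset

namespace Pool.Agent.S10.DX

open Pool.Agent.S9 Pool.Agent.H19.Cub Pool.Agent.H85.Fold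

/-! ### Right actions -/

section Ra

variable {V : Type} {G : SimpleGraph V} {W : Type} [Group W] (R : Rac G W) {S : Type}
  {σ : V → S → S}

theorem ra_ex (h : IsAct G σ) : ∃ f : S → W → S, (∀ x, f x 1 = x) ∧
    (∀ x w w', f x (w * w') = f (f x w) w') ∧ ∀ x v, f x (R.s v) = σ v x := by
  obtain ⟨F, hF⟩ := R.lift (Equiv.Perm S)
    (fun v => ⟨σ v, σ v, fun x => h.inv v x, fun x => h.inv v x⟩)
    (fun v => Equiv.ext fun x => h.inv v x)
    (fun u v huv => Equiv.ext fun x => h.comm u v huv x)
  refine ⟨fun x w => F w⁻¹ x, fun x => ?_, fun x w w' => ?_, fun x v => ?_⟩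
  · show F 1⁻¹ x = x
    rw [inv_one, map_one]
    rfl
  · show F (w * w')⁻¹ x = F w'⁻¹ (F w⁻¹ x)
    rw [mul_inv_rev, map_mul]
    rfl
  · show F (R.s v)⁻¹ x = σ v x
    rw [map_inv, hF]
    rfl

/-- the right action of `W` on a set with involutions -/
noncomputable def ra (h : IsAct G σ) : S → W → S := (ra_ex R h).choose

theorem ra_one (h : IsAct G σ) (x : S) : ra R h x 1 = x := (ra_ex R h).choose_spec.1 x

theorem ra_mul (h : IsAct G σ) (x : S) (w w' : W) : ra R h x (w * w') = ra R h (ra R h x w) w' :=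
  (ra_ex R h).choose_spec.2.1 x w w'

theorem ra_s (h : IsAct G σ) (x : S) (v : V) : ra R h x (R.s v) = σ v x :=
  (ra_ex R h).choose_spec.2.2 x v

end Ra

/-! ### The right action on the vertices of `Q` -/

section Rx

variable {V X : Type} [DecidableEq V] {Q : CubeComplex V X} {W : Type} [Group W]
  (R : Rac Q.graph W)

end Rx

/-! ### The universal cover -/

section Cov

variable {V X : Type} [DecidableEq V] {Q : CubeComplex V X} {W : Type} [Group W]
  (R : Rac Q.graph W)

/-- the product of the generators along a list of labels -/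
def wd {G : SimpleGraph V} (R : Rac G W) (l : List V) : W := (l.map R.s).prod

theorem wd_nil {G : SimpleGraph V} (R : Rac G W) : wd R [] = 1 := rfl

theorem wd_cons {G : SimpleGraph V} (R : Rac G W) (v : V) (l : List V) :
    wd R (v :: l) = R.s v * wd R l := by
  unfold wd
  rw [List.map_cons, List.prod_cons]

theorem wd_append {G : SimpleGraph V} (R : Rac G W) (a b : List V) :
    wd R (a ++ b) = wd R a * wd R b := by
  unfold wd
  rw [List.map_append, List.prod_append]

theorem wd_step {G : SimpleGraph V} (R : Rac G W) {l l' : List V} (h : Step G l l') :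
    wd R l = wd R l' := by
  cases h with
  | back a b v =>
    rw [wd_append, wd_append, wd_cons, wd_cons, ← mul_assoc (R.s v), R.sq, one_mul]
  | square a b u v h =>
    rw [wd_append, wd_append, wd_cons, wd_cons, wd_cons, wd_cons, ← mul_assoc (R.s u),
      ← mul_assoc (R.s v), R.comm u v h]

variable (x₀ : X)

/-- the base point of the universal cover -/
def bse (Q : CubeComplex V X) (x₀ : X) : Q.Cover x₀ := Quot.mk _ ⟨[], trivial⟩

/-- the end point in `W` of the path: the product of the labels -/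
def jj : Q.Cover x₀ → W := Quot.lift (fun l => wd R l.1) fun _ _ h => wd_step R h

theorem jj_mk (l : {l : List V // Q.IsPath x₀ l}) : jj R x₀ (Quot.mk _ l) = wd R l.1 := rfl

theorem jj_base : jj R x₀ (bse Q x₀) = 1 := rfl

theorem jj_nb {v : V} {c : Q.Cover x₀} (hv : v ∈ Q.lab (Q.proj x₀ c)) :
    jj R x₀ (Q.nbc x₀ v c) = jj R x₀ c * R.s v := by
  induction c using Quot.ind with
  | mk l =>
    have h' : v ∈ Q.lab (Q.fin x₀ l.1) := hv
    rw [Q.nbc_mk x₀ v l h', jj_mk, jj_mk, wd_append, wd_cons, wd_nil, mul_one]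

/-- induction over the vertices of the universal cover -/
theorem cov_ind {p : Q.Cover x₀ → Prop} (h0 : p (bse Q x₀))
    (h1 : ∀ (c : Q.Cover x₀) (v : V), v ∈ Q.lab (Q.proj x₀ c) → p c → p (Q.nbc x₀ v c))
    (c : Q.Cover x₀) : p c := by
  induction c using Quot.ind with
  | mk l =>
    obtain ⟨l, hl⟩ := l
    induction l using List.reverseRecOn with
    | nil => exact h0
    | append_singleton l v ih =>
      have h2 := (Q.isPath_append x₀ l [v]).1 hl
      have h3 := h1 (Quot.mk _ ⟨l, h2.1⟩) v h2.2.1 (ih h2.1)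
      rw [Q.nbc_mk x₀ v ⟨l, h2.1⟩ h2.2.1] at h3
      exact h3

/-- `W` acts on the universal cover (completion of the involutions); the base point is moved to `c` by `jj c` -/
theorem ra_jj (c : Q.Cover x₀) :
    ra R (G := Q.graph) (σ := (Q.cover x₀).cs) (Q.cover x₀).isSpec.isAct (bse Q x₀) (jj R x₀ c) = c := by
  induction c using cov_ind with
  | h0 => rw [jj_base, ra_one]
  | h1 c v hv ih =>
    rw [jj_nb R x₀ hv, ra_mul, ih, ra_s]
    exact (Q.cover x₀).cs_of_mem hv

theorem jj_inj : Function.Injective (jj R x₀ : Q.Cover x₀ → W) := fun c c' h => by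
  rw [← ra_jj R x₀ c, h, ra_jj]

/-! ### The component -/

end Cov

/-! ### The deck group -/

section Deck

variable {V X : Type} [DecidableEq V] {Q : CubeComplex V X} {W : Type} [Group W]
  (R : Rac Q.graph W) (x₀ : X) {Γ : Type} [Group Γ] [MulAction Γ (Q.Cover x₀)]

end Deck

end Pool.Agent.S10.DX

end

section

/-!
# Flag homology balls and spheres over the field of two elements

`HomologyBall2 G n`: the flag complex of `G` is a homology ball or a homology sphere of dimension `n - 1` over the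
field of two elements.
-/

set_option autoImplicit false
set_option linter.unusedSectionVars false

open Finset

namespace Pool.Agent.H3.SL

open Pool.Agent.H19.SR

variable {V : Type} [DecidableEq V] [Fintype V]

section aux

private theorem z2 : ∀ a : ZMod 2, a ≠ 0 → a = 1 := by decide

/-- translation to the link -/
private def tr (s : Finset V) (f : Finset V → ZMod 2) (σ : Finset V) : ZMod 2 :=
  if Disjoint σ s then f (σ ∪ s) else 0

omit [Fintype V] in
private theorem tr_of {s σ : Finset V} (hd : Disjoint σ s) (f : Finset V → ZMod 2) : tr s f σ = f (σ ∪ s) :=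
  if_pos hd

omit [Fintype V] in
private theorem tr_not {s σ : Finset V} (hd : ¬ Disjoint σ s) (f : Finset V → ZMod 2) : tr s f σ = 0 :=
  if_neg hd

omit [Fintype V] in
private theorem nd_of_mem {s σ : Finset V} {v : V} (h1 : v ∈ σ) (h2 : v ∈ s) : ¬ Disjoint σ s := fun h =>
  Finset.disjoint_left.1 h h1 h2

private theorem bdy_tr {s σ : Finset V} (hd : Disjoint σ s) (f : Finset V → ZMod 2) :
    bdy2 (tr s f) σ = ∑ v ∈ (σ ∪ s)ᶜ, f (insert v (σ ∪ s)) := by
  unfold bdy2
  have hsub : (σ ∪ s)ᶜ ⊆ σᶜ := Finset.compl_subset_compl.2 Finset.subset_union_left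
  rw [← Finset.sum_subset hsub]
  · refine Finset.sum_congr rfl fun v hv => ?_
    rw [Finset.mem_compl, Finset.mem_union, not_or] at hv
    rw [tr_of, Finset.insert_union]
    rw [Finset.disjoint_insert_left]
    exact ⟨hv.2, hd⟩
  · intro v hv hv'
    rw [Finset.mem_compl] at hv hv'
    rw [not_not, Finset.mem_union] at hv'
    exact tr_not (nd_of_mem (Finset.mem_insert_self v σ) (hv'.resolve_left hv)) f

private theorem bdy_tr' {s σ : Finset V} (hd : ¬ Disjoint σ s) (f : Finset V → ZMod 2) :
    bdy2 (tr s f) σ = 0 := by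
  unfold bdy2
  refine Finset.sum_eq_zero fun v _ => tr_not (fun h => hd ?_) f
  exact Finset.disjoint_of_subset_left (Finset.subset_insert v σ) h

omit [Fintype V] in
private theorem tr_link {G : SimpleGraph V} {s : Finset V} {j : ℕ} {f : Finset V → ZMod 2}
    (hf : ∀ t, f t ≠ 0 → G.IsClique (t : Set V) ∧ s ⊆ t ∧ t.card = j + s.card) : LinkCh2 G s j (tr s f) := by
  intro σ hσ
  by_cases hd : Disjoint σ s
  · rw [tr_of hd] at hσ
    obtain ⟨h1, _, h3⟩ := hf _ hσ
    rw [Finset.card_union_of_disjoint hd] at h3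
    exact ⟨hd, h1, by omega⟩
  · exact absurd (tr_not hd f) hσ

private theorem bdy_tr_zero {s : Finset V} {f : Finset V → ZMod 2}
    (hf : ∀ t, s ⊆ t → ∑ v ∈ tᶜ, f (insert v t) = 0) : bdy2 (tr s f) = 0 := by
  funext σ
  by_cases hd : Disjoint σ s
  · rw [bdy_tr hd]
    exact hf _ Finset.subset_union_right
  · exact bdy_tr' hd f

/-- translation back -/
private theorem sum_back {G : SimpleGraph V} {s : Finset V} {j : ℕ} {y : Finset V → ZMod 2}
    (hy : LinkCh2 G s j y) {t : Finset V} (ht : s ⊆ t) :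
    ∑ v ∈ tᶜ, (if s ⊆ insert v t then y (insert v t \ s) else 0) = bdy2 y (t \ s) := by
  unfold bdy2
  have hsub : tᶜ ⊆ (t \ s)ᶜ := Finset.compl_subset_compl.2 Finset.sdiff_subset
  rw [← Finset.sum_subset hsub]
  · refine Finset.sum_congr rfl fun v hv => ?_
    rw [Finset.mem_compl] at hv
    rw [if_pos (ht.trans (Finset.subset_insert v t)), Finset.insert_sdiff_of_notMem _ fun h => hv (ht h)]
  · intro v hv hv'
    rw [Finset.mem_compl] at hv hv'
    rw [not_not] at hv'
    rw [Finset.mem_sdiff, not_and, not_not] at hv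
    by_contra hne
    exact nd_of_mem (Finset.mem_insert_self v (t \ s)) (hv hv') (hy _ hne).1

variable {G : SimpleGraph V} {n : ℕ}

private theorem uniq (h : HomologyBall2 G n) {s : Finset V} (hs : G.IsClique (s : Set V)) {j : ℕ}
    (hj : j + s.card = n) {z z' : Finset V → ZMod 2} (h1 : LinkCh2 G s j z) (h2 : bdy2 z = 0) (h3 : z ≠ 0)
    (h1' : LinkCh2 G s j z') (h2' : bdy2 z' = 0) (h3' : z' ≠ 0) : z = z' := by
  obtain ⟨o, ho⟩ := h.top s hs j hj
  rw [(ho z h1 h2).resolve_left h3, (ho z' h1' h2').resolve_left h3']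

/-- a clique which is not a facet can be enlarged -/
private theorem enlarge (h : HomologyBall2 G n) {s : Finset V} (hs : G.IsClique (s : Set V))
    (hc : s.card < n) : ∃ v, v ∉ s ∧ G.IsClique ((insert v s : Finset V) : Set V) := by
  obtain ⟨y, hy1, hy2⟩ := h.low s hs 0 (by omega) (fun σ => if σ = ∅ then 1 else 0)
    (fun σ hσ => by
      have h1 : σ = ∅ := by
        by_contra hne
        exact hσ (if_neg hne)
      rw [h1]
      exact ⟨Finset.disjoint_empty_left _, by rw [Finset.empty_union]; exact hs, rfl⟩)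
    (by
      funext σ
      refine Finset.sum_eq_zero fun v _ => if_neg ?_
      exact Finset.insert_ne_empty v σ)
  have h1 := congrFun hy2 ∅
  rw [if_pos rfl] at h1
  have h2 : ∃ v ∈ (∅ : Finset V)ᶜ, y (insert v ∅) ≠ 0 := by
    by_contra hc'
    push Not at hc'
    have h3 : bdy2 y ∅ = 0 := Finset.sum_eq_zero hc'
    rw [h1] at h3
    exact absurd h3 (by decide)
  obtain ⟨v, -, hv⟩ := h2
  obtain ⟨h3, h4, -⟩ := hy1 _ hv
  rw [Finset.disjoint_insert_left] at h3
  refine ⟨v, h3.1, ?_⟩
  rw [Finset.insert_union, Finset.empty_union] at h4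
  exact h4

/-- existence of facets -/
private theorem facet (h : HomologyBall2 G n) {s : Finset V} (hs : G.IsClique (s : Set V)) :
    ∃ σ : Finset V, Disjoint σ s ∧ G.IsClique ((σ ∪ s : Finset V) : Set V) ∧ σ.card + s.card = n := by
  have key : ∀ k, ∀ t : Finset V, G.IsClique (t : Set V) → t.card + k = n → s ⊆ t →
      ∃ t' : Finset V, t ⊆ t' ∧ G.IsClique (t' : Set V) ∧ t'.card = n := by
    intro k
    induction k with
    | zero => exact fun t ht hk _ => ⟨t, Finset.Subset.refl _, ht, by omega⟩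
    | succ k ih =>
      intro t ht hk hst
      obtain ⟨v, hv, hv'⟩ := enlarge h ht (by omega)
      obtain ⟨t', h1, h2, h3⟩ := ih (insert v t) hv' (by rw [Finset.card_insert_of_notMem hv]; omega)
        (hst.trans (Finset.subset_insert v t))
      exact ⟨t', (Finset.subset_insert v t).trans h1, h2, h3⟩
  have hc := h.dim s hs
  obtain ⟨t', h1, h2, h3⟩ := key (n - s.card) s hs (by omega) (Finset.Subset.refl _)
  refine ⟨t' \ s, Finset.sdiff_disjoint, ?_, ?_⟩
  · rw [Finset.sdiff_union_of_subset h1]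
    exact h2
  · rw [Finset.card_sdiff_of_subset h1, h3]
    omega

/-- restriction to the link of a vertex -/
private def ov (o : Finset V → ZMod 2) (v : V) (σ : Finset V) : ZMod 2 := if v ∈ σ then 0 else o (insert v σ)

omit [Fintype V] in
private theorem ov_link {s : Finset V} {k : ℕ} {o : Finset V → ZMod 2} (ho : LinkCh2 G s (k + 1) o) (v : V) :
    LinkCh2 G (insert v s) k (ov o v) := by
  intro σ hσ
  unfold ov at hσ
  split_ifs at hσ with hv
  · exact absurd rfl hσ
  · obtain ⟨h1, h2, h3⟩ := ho _ hσ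
    rw [Finset.disjoint_insert_left] at h1
    rw [Finset.card_insert_of_notMem hv] at h3
    refine ⟨?_, ?_, by omega⟩
    · rw [Finset.disjoint_insert_right]
      exact ⟨hv, h1.2⟩
    · rwa [Finset.union_insert, ← Finset.insert_union]

private theorem ov_bdy {o : Finset V → ZMod 2} (ho : bdy2 o = 0) (v : V) : bdy2 (ov o v) = 0 := by
  funext σ
  show ∑ w ∈ σᶜ, ov o v (insert w σ) = 0
  by_cases hv : v ∈ σ
  · exact Finset.sum_eq_zero fun w _ => if_pos (Finset.mem_insert_of_mem hv)
  · have h1 : (∑ w ∈ (insert v σ)ᶜ, o (insert w (insert v σ))) = 0 := congrFun ho (insert v σ)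
    rw [← h1]
    have hsub : (insert v σ)ᶜ ⊆ σᶜ := Finset.compl_subset_compl.2 (Finset.subset_insert v σ)
    rw [← Finset.sum_subset hsub]
    · refine Finset.sum_congr rfl fun w hw => ?_
      rw [Finset.mem_compl, Finset.mem_insert, not_or] at hw
      have h2 : v ∉ insert w σ := by
        rw [Finset.mem_insert, not_or]
        exact ⟨fun h => hw.1 h.symm, hv⟩
      show (if v ∈ insert w σ then 0 else o (insert v (insert w σ))) = _
      rw [if_neg h2, Finset.insert_comm]
    · intro w hw hw'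
      rw [Finset.mem_compl] at hw hw'
      rw [not_not, Finset.mem_insert] at hw'
      have h3 : w = v := hw'.resolve_right hw
      rw [h3]
      exact if_pos (Finset.mem_insert_self v σ)

/-- the sum of two vertices -/
private def two (v w : V) (σ : Finset V) : ZMod 2 := if σ = {v} ∨ σ = {w} then 1 else 0

omit [Fintype V] in
private theorem two_link {s : Finset V} {v w : V} (hv : v ∉ s) (hv' : G.IsClique ((insert v s : Finset V) : Set V))
    (hw : w ∉ s) (hw' : G.IsClique ((insert w s : Finset V) : Set V)) : LinkCh2 G s 1 (two v w) := by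
  intro σ hσ
  unfold two at hσ
  split_ifs at hσ with h
  · rcases h with rfl | rfl
    · exact ⟨Finset.disjoint_singleton_left.2 hv, by rwa [← Finset.insert_eq], Finset.card_singleton v⟩
    · exact ⟨Finset.disjoint_singleton_left.2 hw, by rwa [← Finset.insert_eq], Finset.card_singleton w⟩
  · exact absurd rfl hσ

private theorem two_bdy {v w : V} (hvw : v ≠ w) : bdy2 (two v w) = 0 := by
  funext σ
  show ∑ u ∈ σᶜ, two v w (insert u σ) = 0
  rcases Finset.eq_empty_or_nonempty σ with rfl | ⟨x, hx⟩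
  · have h1 : ∀ u : V, two v w (insert u ∅) = (if u = v then 1 else 0) + (if u = w then 1 else 0) := by
      intro u
      unfold two
      rw [insert_empty_eq]
      simp only [Finset.singleton_inj]
      by_cases h1 : u = v
      · have h2 : u ≠ w := fun h => hvw (h1.symm.trans h)
        simp [h1, hvw]
      · by_cases h2 : u = w
        · simp [h2]
          intro h3
          exact absurd h3.symm hvw
        · simp [h1, h2]
    rw [Finset.sum_congr rfl fun u _ => h1 u, Finset.sum_add_distrib]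
    simp
    decide
  · refine Finset.sum_eq_zero fun u hu => ?_
    rw [Finset.mem_compl] at hu
    unfold two
    rw [if_neg]
    have h2 : ∀ y : V, insert u σ ≠ {y} := by
      intro y hy
      have h3 : u = y := Finset.mem_singleton.1 (hy ▸ Finset.mem_insert_self u σ)
      have h4 : x = y := Finset.mem_singleton.1 (hy ▸ Finset.mem_insert_of_mem hx)
      exact hu (by rw [h3, ← h4]; exact hx)
    rintro (h | h)
    · exact h2 v h
    · exact h2 w h

private theorem sum_symm (P : Finset V) (g : V → V → ZMod 2) (h1 : ∀ u x, g u x = g x u) (h2 : ∀ u, g u u = 0) :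
    ∑ u ∈ P, ∑ x ∈ P, g u x = 0 := by
  rw [← Finset.sum_product']
  refine Finset.sum_involution (fun a _ => (a.2, a.1)) ?_ ?_ ?_ ?_
  · intro a _
    show g a.1 a.2 + g a.2 a.1 = 0
    rw [h1 a.2 a.1]
    exact CharTwo.add_self_eq_zero _
  · intro a _ hne heq
    apply hne
    have h3 : a.2 = a.1 := congrArg Prod.fst heq
    show g a.1 a.2 = 0
    rw [h3]
    exact h2 _
  · intro a ha
    rw [Finset.mem_product] at ha ⊢
    exact ⟨ha.2, ha.1⟩
  · intro a _
    rfl

/-- the cycle of the top degree is one on all facets -/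
private theorem ind (h : HomologyBall2 G n) : ∀ k : ℕ, ∀ s : Finset V, G.IsClique (s : Set V) →
    k + s.card = n → ∀ o : Finset V → ZMod 2, LinkCh2 G s k o → bdy2 o = 0 → o ≠ 0 →
      ∀ σ : Finset V, Disjoint σ s → G.IsClique ((σ ∪ s : Finset V) : Set V) → σ.card = k → o σ = 1 := by
  intro k
  induction k with
  | zero =>
    intro s _ _ o h1 _ h3 σ _ _ hσ
    obtain ⟨τ, hτ⟩ := Function.ne_iff.1 h3
    have h4 := (h1 τ hτ).2.2
    rw [Finset.card_eq_zero] at h4 hσ
    rw [hσ, ← h4]
    exact z2 _ hτ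
  | succ k ih =>
    intro s hs hk o h1 h2 h3 σ hσ1 hσ2 hσ3
    classical
    have hcl : ∀ {v : V} {τ : Finset V}, v ∈ τ → G.IsClique ((τ ∪ s : Finset V) : Set V) →
        G.IsClique ((insert v s : Finset V) : Set V) := by
      intro v τ hv hτ
      refine hτ.subset ?_
      intro x hx
      rw [Finset.mem_coe, Finset.mem_insert] at hx
      rw [Finset.mem_coe, Finset.mem_union]
      rcases hx with rfl | hx
      · exact Or.inl hv
      · exact Or.inr hx
    -- if the restriction to `v` is not zero, then the cycle is one on the facets with `v`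
    have key : ∀ v : V, v ∉ s → G.IsClique ((insert v s : Finset V) : Set V) → ov o v ≠ 0 →
        ∀ τ : Finset V, v ∈ τ → Disjoint τ s → G.IsClique ((τ ∪ s : Finset V) : Set V) →
          τ.card = k + 1 → o τ = 1 := by
      intro v hv hv' hne τ hvτ hτ1 hτ2 hτ3
      have h5 : k + (insert v s).card = n := by
        rw [Finset.card_insert_of_notMem hv]
        omega
      have h6 := ih (insert v s) hv' h5 (ov o v) (ov_link h1 v) (ov_bdy h2 v) hne (τ.erase v) ?_ ?_ ?_
      · have h7 : ov o v (τ.erase v) = o τ := by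
          unfold ov
          rw [if_neg (Finset.notMem_erase v τ), Finset.insert_erase hvτ]
        rw [← h7, h6]
      · rw [Finset.disjoint_insert_right]
        exact ⟨Finset.notMem_erase v τ, Finset.disjoint_of_subset_left (Finset.erase_subset v τ) hτ1⟩
      · rw [Finset.union_insert, ← Finset.insert_union, Finset.insert_erase hvτ]
        exact hτ2
      · rw [Finset.card_erase_of_mem hvτ, hτ3]
        rfl
    -- conversely
    have key' : ∀ v : V, ∀ τ : Finset V, v ∈ τ → o τ = 1 → ov o v ≠ 0 := by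
      intro v τ hvτ hτ h8
      have h7 : ov o v (τ.erase v) = o τ := by
        unfold ov
        rw [if_neg (Finset.notMem_erase v τ), Finset.insert_erase hvτ]
      rw [h8, hτ, Pi.zero_apply] at h7
      exact absurd h7 (by decide)
    -- a vertex where the restriction is not zero
    obtain ⟨τ, hτ⟩ := Function.ne_iff.1 h3
    obtain ⟨hτ1, hτ2, hτ3⟩ := h1 τ hτ
    obtain ⟨v, hv⟩ : τ.Nonempty := by
      rw [← Finset.card_pos, hτ3]
      omega
    have hvs : v ∉ s := Finset.disjoint_left.1 hτ1 hv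
    have hvc := hcl hv hτ2
    have hvne : ov o v ≠ 0 := key' v τ hv (z2 _ hτ)
    obtain ⟨w, hw⟩ : σ.Nonempty := by
      rw [← Finset.card_pos, hσ3]
      omega
    have hws : w ∉ s := Finset.disjoint_left.1 hσ1 hw
    have hwc := hcl hw hσ2
    by_cases hwne : ov o w = 0
    swap
    · exact key w hws hwc hwne σ hw hσ1 hσ2 hσ3
    exfalso
    have hvw : v ≠ w := by
      rintro rfl
      exact hvne hwne
    have hz1 := two_link hvs hvc hws hwc
    have hz2 : bdy2 (two v w) = 0 := two_bdy hvw
    rcases Nat.eq_zero_or_pos k with hk0 | hk0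
    · have hz3 : two v w ≠ 0 := by
        intro h9
        have h10 := congrFun h9 {v}
        unfold two at h10
        rw [if_pos (Or.inl rfl), Pi.zero_apply] at h10
        exact absurd h10 (by decide)
      subst hk0
      have h11 := uniq h hs hk h1 h2 h3 hz1 hz2 hz3
      refine key' w {w} (Finset.mem_singleton_self w) ?_ hwne
      rw [h11]
      exact if_pos (Or.inr rfl)
    · obtain ⟨y, hy1, hy2⟩ := h.low s hs 1 (by omega) (two v w) hz1 hz2
      set P : Finset V := univ.filter fun u =>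
        u ∉ s ∧ G.IsClique ((insert u s : Finset V) : Set V) ∧ ov o u ≠ 0 with hP
      have hPcl : ∀ u ∈ P, ∀ x, x ≠ u → y {x, u} ≠ 0 → x ∈ P := by
        intro u hu x hxu hne
        rw [hP, Finset.mem_filter] at hu ⊢
        obtain ⟨-, hu1, hu2, hu3⟩ := hu
        obtain ⟨hd, hc, -⟩ := hy1 _ hne
        have hxs : x ∉ s := Finset.disjoint_left.1 hd (Finset.mem_insert_self x _)
        refine ⟨Finset.mem_univ x, hxs, hcl (Finset.mem_insert_self x {u}) hc, ?_⟩
        obtain ⟨η, he1, he2, he3⟩ := facet h hc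
        refine key' x (η ∪ {x, u}) ?_ ?_
        · exact Finset.mem_union_right _ (Finset.mem_insert_self x _)
        · refine key u hu1 hu2 hu3 _ ?_ ?_ ?_ ?_
          · exact Finset.mem_union_right _ (Finset.mem_insert_of_mem (Finset.mem_singleton_self u))
          · rw [Finset.disjoint_union_left]
            exact ⟨Finset.disjoint_of_subset_right Finset.subset_union_right he1, hd⟩
          · rw [Finset.union_assoc]
            exact he2
          · have e1 : Disjoint η ({x, u} : Finset V) :=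
              Finset.disjoint_of_subset_right Finset.subset_union_left he1
            rw [Finset.card_union_of_disjoint hd] at he3
            rw [Finset.card_union_of_disjoint e1]
            omega
      have e1 : ∑ u ∈ P, two v w {u} = 1 := by
        rw [Finset.sum_eq_single v]
        · exact if_pos (Or.inl rfl)
        · intro u hu huv
          unfold two
          rw [if_neg]
          rintro (h12 | h12)
          · exact huv (Finset.singleton_injective h12)
          · rw [Finset.singleton_injective h12, hP, Finset.mem_filter] at hu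
            exact hu.2.2.2 hwne
        · intro hv'
          exfalso
          apply hv'
          rw [hP, Finset.mem_filter]
          exact ⟨Finset.mem_univ v, hvs, hvc, hvne⟩
      have e2 : ∑ u ∈ P, two v w {u} = 0 := by
        have e3 : ∀ u ∈ P, two v w {u} = ∑ x ∈ P, (if x = u then 0 else y {x, u}) := by
          intro u hu
          rw [← hy2]
          show ∑ x ∈ ({u} : Finset V)ᶜ, y (insert x {u}) = _
          have e4 : ∑ x ∈ ({u} : Finset V)ᶜ, y (insert x {u}) = ∑ x : V, (if x = u then 0 else y {x, u}) := by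
            rw [← Finset.sum_subset (Finset.subset_univ ({u} : Finset V)ᶜ)]
            · refine Finset.sum_congr rfl fun x hx => ?_
              rw [Finset.mem_compl, Finset.mem_singleton] at hx
              rw [if_neg hx]
            · intro x _ hx
              rw [Finset.mem_compl, Finset.mem_singleton, not_not] at hx
              rw [if_pos hx]
          rw [e4]
          symm
          refine Finset.sum_subset (Finset.subset_univ P) fun x _ hx => ?_
          by_contra hne
          by_cases hxu : x = u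
          · rw [if_pos hxu] at hne
            exact hne rfl
          · rw [if_neg hxu] at hne
            exact hx (hPcl u hu x hxu hne)
        rw [Finset.sum_congr rfl e3]
        refine sum_symm P (fun u x => if x = u then 0 else y {x, u}) (fun u x => ?_) fun u => if_pos rfl
        by_cases hxu : x = u
        · simp [hxu]
        · have hux : ¬ u = x := fun h => hxu h.symm
          simp only [hxu, hux, if_false]
          rw [Finset.pair_comm]
      rw [e1] at e2
      exact absurd e2 (by decide)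

end aux

/-- **Homology balls in terms of stars.** -/
theorem HomologyBall2.isDisc {G : SimpleGraph V} {n : ℕ} (h : HomologyBall2 G n) :
    ∃ B : Finset V → Prop, Pool.Agent.S9.IsDisc G n B := by
  classical
  refine ⟨fun s => G.IsClique (s : Set V) ∧ ∀ z, LinkCh2 G s (n - s.card) z → bdy2 z = 0 → z = 0,
    fun s hs => hs.1, ?_, h.dim, ?_, ?_, ?_, ?_⟩
  · intro s t hs hts
    have htc : G.IsClique (t : Set V) := hs.1.subset (by exact_mod_cast hts)
    refine ⟨htc, fun z hz hz0 => ?_⟩
    by_contra hne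
    have hcs := h.dim s hs.1
    have hct := h.dim t htc
    have h1 := ind h _ t htc (by omega) z hz hz0 hne
    -- the restriction to `s`
    let z' : Finset V → ZMod 2 := fun σ => if Disjoint σ s then z (σ ∪ (s \ t)) else 0
    have hz' : LinkCh2 G s (n - s.card) z' := by
      intro σ hσ
      by_cases hd : Disjoint σ s
      · have h2 : z (σ ∪ (s \ t)) ≠ 0 := by
          have h3 : z' σ = z (σ ∪ (s \ t)) := if_pos hd
          rwa [h3] at hσ
        obtain ⟨h3, h4, h5⟩ := hz _ h2
        have e1 : σ ∪ (s \ t) ∪ t = σ ∪ s := by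
          rw [Finset.union_assoc, Finset.sdiff_union_of_subset hts]
        rw [e1] at h4
        have e2 : Disjoint σ (s \ t) := Finset.disjoint_of_subset_right Finset.sdiff_subset hd
        rw [Finset.card_union_of_disjoint e2, Finset.card_sdiff_of_subset hts] at h5
        have e3 := Finset.card_le_card hts
        exact ⟨hd, h4, by omega⟩
      · exact absurd (if_neg hd) hσ
    have hz'0 : bdy2 z' = 0 := by
      funext σ
      by_cases hd : Disjoint σ s
      · have h2 : bdy2 z (σ ∪ (s \ t)) = 0 := congrFun hz0 _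
        rw [Pi.zero_apply, ← h2]
        unfold bdy2
        have hsub : (σ ∪ s)ᶜ ⊆ σᶜ := Finset.compl_subset_compl.2 Finset.subset_union_left
        have hsub' : (σ ∪ s)ᶜ ⊆ (σ ∪ (s \ t))ᶜ := Finset.compl_subset_compl.2
          (Finset.union_subset_union (Finset.Subset.refl _) Finset.sdiff_subset)
        rw [← Finset.sum_subset hsub, ← Finset.sum_subset hsub']
        · refine Finset.sum_congr rfl fun v hv => ?_
          rw [Finset.mem_compl, Finset.mem_union, not_or] at hv
          show (if Disjoint (insert v σ) s then z (insert v σ ∪ (s \ t)) else 0) = _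
          rw [if_pos, Finset.insert_union]
          rw [Finset.disjoint_insert_left]
          exact ⟨hv.2, hd⟩
        · intro v hv hv'
          rw [Finset.mem_compl] at hv hv'
          rw [not_not, Finset.mem_union] at hv'
          rw [Finset.mem_union, not_or, Finset.mem_sdiff, not_and, not_not] at hv
          by_contra hne'
          obtain ⟨h3, -, -⟩ := hz _ hne'
          have h4 : v ∈ t := hv.2 (hv'.resolve_left hv.1)
          exact nd_of_mem (Finset.mem_insert_self v _) h4 h3
        · intro v hv hv'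
          rw [Finset.mem_compl] at hv hv'
          rw [not_not, Finset.mem_union] at hv'
          exact if_neg (nd_of_mem (Finset.mem_insert_self v σ) (hv'.resolve_left hv))
      · refine Finset.sum_eq_zero fun v _ => if_neg fun h3 => hd ?_
        exact Finset.disjoint_of_subset_left (Finset.subset_insert v σ) h3
    have h2 := hs.2 z' hz' hz'0
    obtain ⟨σ, h3, h4, h5⟩ := facet h hs.1
    have h6 := congrFun h2 σ
    have h7 : z' σ = z (σ ∪ (s \ t)) := if_pos h3
    have e2 : Disjoint σ (s \ t) := Finset.disjoint_of_subset_right Finset.sdiff_subset h3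
    rw [h7, h1 (σ ∪ (s \ t)), Pi.zero_apply] at h6
    · exact absurd h6 (by decide)
    · rw [Finset.disjoint_union_left]
      exact ⟨Finset.disjoint_of_subset_right hts h3, Finset.sdiff_disjoint⟩
    · rw [Finset.union_assoc, Finset.sdiff_union_of_subset hts]
      exact h4
    · rw [Finset.card_union_of_disjoint e2, Finset.card_sdiff_of_subset hts]
      have e3 := Finset.card_le_card hts
      omega
  · intro s hs
    obtain ⟨σ, h1, h2, h3⟩ := facet h hs
    refine ⟨σ ∪ s, Finset.subset_union_right, h2, ?_⟩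
    rw [Finset.card_union_of_disjoint h1]
    exact h3
  · intro s hs j hj f hf hf0
    by_cases hsj : s.card ≤ j
    · obtain ⟨y, hy1, hy2⟩ := h.low s hs (j - s.card) (by omega) (tr s f)
        (tr_link fun t ht => by
          obtain ⟨h1, h2, h3⟩ := hf t ht
          exact ⟨h1, h2, by omega⟩) (bdy_tr_zero hf0)
      refine ⟨fun t => if s ⊆ t then y (t \ s) else 0, fun t ht => ?_, fun t ht => ?_⟩
      · have ht' : (if s ⊆ t then y (t \ s) else 0) ≠ 0 := ht
        split_ifs at ht' with hst
        · obtain ⟨_, h2, h3⟩ := hy1 _ ht'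
          rw [Finset.sdiff_union_of_subset hst] at h2
          rw [Finset.card_sdiff_of_subset hst] at h3
          have h4 := Finset.card_le_card hst
          exact ⟨h2, hst, by omega⟩
        · exact absurd rfl ht'
      · show ∑ v ∈ tᶜ, (if s ⊆ insert v t then y (insert v t \ s) else 0) = f t
        rw [sum_back hy1 ht, hy2, tr_of Finset.sdiff_disjoint, Finset.sdiff_union_of_subset ht]
    · refine ⟨0, fun t ht => absurd rfl ht, fun t _ => ?_⟩
      have h1 : f t = 0 := by
        by_contra hne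
        obtain ⟨_, h2, h3⟩ := hf t hne
        have h4 := Finset.card_le_card h2
        omega
      rw [h1]
      exact Finset.sum_eq_zero fun _ _ => rfl
  · intro s hs hB f hf
    have hc := h.dim s hs
    have hk : (n - s.card) + s.card = n := by omega
    have hlink : LinkCh2 G s (n - s.card) (tr s f) := tr_link fun t ht => by
      obtain ⟨h1, h2, h3⟩ := hf t ht
      exact ⟨h1, h2, by omega⟩
    have hback : ∀ t : Finset V, s ⊆ t → f t = tr s f (t \ s) := fun t ht => by
      rw [tr_of Finset.sdiff_disjoint, Finset.sdiff_union_of_subset ht]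
    constructor
    · intro h0
      by_cases hz : tr s f = 0
      · refine ⟨0, fun t _ h2 _ => ?_⟩
        rw [hback t h2, hz]
        rfl
      · refine ⟨1, fun t h1 h2 h3 => ?_⟩
        rw [hback t h2]
        refine ind h _ s hs hk _ hlink (bdy_tr_zero h0) hz _ Finset.sdiff_disjoint ?_ ?_
        · rw [Finset.sdiff_union_of_subset h2]
          exact h1
        · rw [Finset.card_sdiff_of_subset h2, h3]
    · rintro ⟨c, hc⟩ t ht
      by_cases hc0 : c = 0
      · refine Finset.sum_eq_zero fun v _ => ?_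
        by_contra hne
        obtain ⟨h1, h2, h3⟩ := hf _ hne
        exact hne ((hc _ h1 h2 h3).trans hc0)
      · have hc1 := z2 c hc0
        obtain ⟨o, h1, h2, h3⟩ : ∃ o, LinkCh2 G s (n - s.card) o ∧ bdy2 o = 0 ∧ o ≠ 0 := by
          by_contra hcon
          refine hB ⟨hs, fun z hz1 hz2 => ?_⟩
          by_contra hz3
          exact hcon ⟨z, hz1, hz2, hz3⟩
        have h4 := ind h _ s hs hk o h1 h2 h3
        have h5 : tr s f = o := by
          funext σ
          by_cases hd : Disjoint σ s ∧ G.IsClique ((σ ∪ s : Finset V) : Set V) ∧ σ.card = n - s.card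
          · rw [h4 σ hd.1 hd.2.1 hd.2.2, tr_of hd.1, ← hc1]
            refine hc _ hd.2.1 Finset.subset_union_right ?_
            rw [Finset.card_union_of_disjoint hd.1, hd.2.2]
            omega
          · have e1 : tr s f σ = 0 := by
              by_contra hne
              exact hd (hlink σ hne)
            have e2 : o σ = 0 := by
              by_contra hne
              exact hd (h1 σ hne)
            rw [e1, e2]
        have h6 := bdy_tr (s := s) (σ := t \ s) Finset.sdiff_disjoint f
        rw [Finset.sdiff_union_of_subset ht, h5, h2] at h6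
        exact h6.symm
  · intro s hs f hf h0
    have hlink : LinkCh2 G s (n - s.card) (tr s f) := tr_link fun t ht => by
      have hc := h.dim s hs.1
      obtain ⟨h1, h2, h3⟩ := hf t ht
      exact ⟨h1, h2, by omega⟩
    have h1 := hs.2 _ hlink (bdy_tr_zero h0)
    funext t
    by_contra hne
    obtain ⟨-, h2, -⟩ := hf t hne
    have h3 := congrFun h1 (t \ s)
    rw [tr_of Finset.sdiff_disjoint, Finset.sdiff_union_of_subset h2] at h3
    exact hne h3

end Pool.Agent.H3.SL

end

section

/-!
# Project S9, block F: links in discs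
-/

set_option autoImplicit false
set_option linter.unusedSectionVars false

open Finset

namespace Pool.Agent.S9

open Pool.Agent.H19.SR

section Link

variable {V : Type} [DecidableEq V] [Fintype V] (G : SimpleGraph V) (t : Finset V)

private theorem Lks_mem {w : V} : w ∈ lkF G t ↔ ∀ v ∈ t, G.Adj v w := by
  unfold lkF
  simp

/-- the simplex of the complex which belongs to the simplex of the link -/
private noncomputable def Lup (u : Finset {w // w ∈ lkF G t}) : Finset V := t ∪ u.map (Function.Embedding.subtype _)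

/-- the simplex of the link -/
private noncomputable def Ldn (u : Finset V) : Finset {w // w ∈ lkF G t} := u.subtype fun w => w ∈ lkF G t

private theorem Lks_dis {w : V} (hw : w ∈ lkF G t) : w ∉ t := fun h =>
  (((Lks_mem G t).1 hw) w h).ne rfl

private theorem Ldn_up (u : Finset {w // w ∈ lkF G t}) : Ldn G t (Lup G t u) = u := by
  ext ⟨w, hw⟩
  unfold Ldn Lup
  rw [mem_subtype, mem_union, mem_map]
  constructor
  · rintro (h | ⟨x, hx, hxw⟩)
    · exact absurd h (Lks_dis G t hw)
    · have h1 : x = ⟨w, hw⟩ := Subtype.ext hxw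
      rw [← h1]
      exact hx
  · intro h
    exact Or.inr ⟨_, h, rfl⟩

private theorem mem_Lup {u : Finset {w // w ∈ lkF G t}} {w : V} :
    w ∈ Lup G t u ↔ w ∈ t ∨ ∃ h : w ∈ lkF G t, (⟨w, h⟩ : {w // w ∈ lkF G t}) ∈ u := by
  unfold Lup
  rw [mem_union, mem_map]
  refine or_congr_right ?_
  constructor
  · rintro ⟨x, hx, rfl⟩
    exact ⟨x.2, hx⟩
  · rintro ⟨h, hx⟩
    exact ⟨_, hx, rfl⟩

private theorem Lup_dn {u : Finset V} (h1 : t ⊆ u) (h2 : ∀ w ∈ u, w ∈ t ∨ w ∈ lkF G t) :
    Lup G t (Ldn G t u) = u := by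
  ext w
  rw [mem_Lup]
  unfold Ldn
  constructor
  · rintro (h | ⟨h, h'⟩)
    · exact h1 h
    · exact mem_subtype.1 h'
  · intro h
    rcases h2 w h with h3 | h3
    · exact Or.inl h3
    · exact Or.inr ⟨h3, mem_subtype.2 h⟩

private theorem Lup_sub (u : Finset {w // w ∈ lkF G t}) : t ⊆ Lup G t u := subset_union_left

private theorem Lks_clq {u : Finset V} (h1 : t ⊆ u) (hu : G.IsClique (u : Set V)) :
    ∀ w ∈ u, w ∈ t ∨ w ∈ lkF G t := by
  intro w hw
  by_cases h : w ∈ t
  · exact Or.inl h
  · refine Or.inr ((Lks_mem G t).2 fun v hv => ?_)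
    exact hu (mem_coe.2 (h1 hv)) (mem_coe.2 hw) fun he => h (he ▸ hv)

private theorem Lup_clq (ht : G.IsClique (t : Set V)) {u : Finset {w // w ∈ lkF G t}} :
    G.IsClique (Lup G t u : Set V) ↔
      (G.comap (Subtype.val : {w // w ∈ lkF G t} → V)).IsClique (u : Set {w // w ∈ lkF G t}) := by
  constructor
  · intro h a ha b hb hab
    exact h (mem_coe.2 ((mem_Lup G t).2 (Or.inr ⟨a.2, mem_coe.1 ha⟩)))
      (mem_coe.2 ((mem_Lup G t).2 (Or.inr ⟨b.2, mem_coe.1 hb⟩))) fun hc => hab (Subtype.ext hc)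
  · intro h a ha b hb hab
    rcases (mem_Lup G t).1 (mem_coe.1 ha) with ha | ⟨ha', ha⟩
    · rcases (mem_Lup G t).1 (mem_coe.1 hb) with hb | ⟨hb', hb⟩
      · exact ht (mem_coe.2 ha) (mem_coe.2 hb) hab
      · exact (Lks_mem G t).1 hb' a ha
    · rcases (mem_Lup G t).1 (mem_coe.1 hb) with hb | ⟨hb', hb⟩
      · exact ((Lks_mem G t).1 ha' b hb).symm
      · exact h (mem_coe.2 ha) (mem_coe.2 hb) fun hc => hab (congrArg Subtype.val hc)

private theorem Lup_card (u : Finset {w // w ∈ lkF G t}) : (Lup G t u).card = t.card + u.card := by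
  unfold Lup
  rw [card_union_of_disjoint, card_map]
  rw [disjoint_left]
  intro w hw h
  obtain ⟨x, -, rfl⟩ := mem_map.1 h
  exact Lks_dis G t x.2 hw

private theorem Lup_mono {u u' : Finset {w // w ∈ lkF G t}} :
    Lup G t u ⊆ Lup G t u' ↔ u ⊆ u' := by
  constructor
  · intro h x hx
    have h1 : x.1 ∈ Lup G t u' := h ((mem_Lup G t).2 (Or.inr ⟨x.2, hx⟩))
    rcases (mem_Lup G t).1 h1 with h2 | ⟨h2, h3⟩
    · exact absurd h2 (Lks_dis G t x.2)
    · exact h3
  · intro h
    exact union_subset_union_right (map_subset_map.2 h)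

private theorem Lup_ins (u : Finset {w // w ∈ lkF G t}) (x : {w // w ∈ lkF G t}) :
    Lup G t (insert x u) = insert x.1 (Lup G t u) := by
  unfold Lup
  rw [map_insert, union_insert]
  rfl

/-- the sums over the complement -/
private theorem Lks_sum (F : Finset V → ZMod 2) (u : Finset {w // w ∈ lkF G t})
    (hF : ∀ w, w ∉ Lup G t u → w ∉ lkF G t → F (insert w (Lup G t u)) = 0) :
    ∑ w ∈ (Lup G t u)ᶜ, F (insert w (Lup G t u)) = ∑ x ∈ uᶜ, F (Lup G t (insert x u)) := by
  symm
  refine sum_bij_ne_zero (fun x _ _ => x.1) ?_ ?_ ?_ ?_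
  · intro x hx _
    rw [mem_compl] at hx ⊢
    intro h
    rcases (mem_Lup G t).1 h with h2 | ⟨h2, h3⟩
    · exact Lks_dis G t x.2 h2
    · exact hx h3
  · intro x _ _ y _ _ h
    exact Subtype.ext h
  · intro w hw hne
    rw [mem_compl] at hw
    have hl : w ∈ lkF G t := by
      by_contra h
      exact hne (hF w hw h)
    refine ⟨⟨w, hl⟩, ?_, ?_, rfl⟩
    · rw [mem_compl]
      intro h
      exact hw ((mem_Lup G t).2 (Or.inr ⟨hl, h⟩))
    · rw [Lup_ins]
      exact hne
  · intro x _ _
    rw [Lup_ins]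

open Classical in
/-- the extension of a chain of the link -/
private noncomputable def Lex (f : Finset {w // w ∈ lkF G t} → ZMod 2) (u : Finset V) : ZMod 2 :=
  if Lup G t (Ldn G t u) = u then f (Ldn G t u) else 0

private theorem Lex_up (f : Finset {w // w ∈ lkF G t} → ZMod 2) (u : Finset {w // w ∈ lkF G t}) :
    Lex G t f (Lup G t u) = f u := by
  unfold Lex
  rw [Ldn_up, if_pos rfl]

private theorem Lex_ne {f : Finset {w // w ∈ lkF G t} → ZMod 2} {u : Finset V}
    (h : Lex G t f u ≠ 0) : ∃ u', u = Lup G t u' ∧ f u' ≠ 0 := by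
  unfold Lex at h
  split_ifs at h with h1
  · exact ⟨_, h1.symm, h⟩
  · exact absurd rfl h

/-- cycles -/
private theorem Lex_cyc {f : Finset {w // w ∈ lkF G t} → ZMod 2} {s : Finset {w // w ∈ lkF G t}} :
    (∀ u, s ⊆ u → ∑ x ∈ uᶜ, f (insert x u) = 0) ↔
      ∀ u, Lup G t s ⊆ u → ∑ w ∈ uᶜ, Lex G t f (insert w u) = 0 := by
  have hkey : ∀ u', ∑ w ∈ (Lup G t u')ᶜ, Lex G t f (insert w (Lup G t u')) =
      ∑ x ∈ u'ᶜ, f (insert x u') := by
    intro u'
    rw [Lks_sum G t (Lex G t f) u']
    · exact sum_congr rfl fun x _ => Lex_up G t f _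
    · intro w hw hwl
      by_contra hne
      obtain ⟨u1, h1, -⟩ := Lex_ne G t hne
      have h2 : w ∈ Lup G t u1 := h1 ▸ mem_insert_self _ _
      rcases (mem_Lup G t).1 h2 with h3 | ⟨h3, -⟩
      · exact hw (Lup_sub G t _ h3)
      · exact hwl h3
  constructor
  · intro h u hu
    by_cases h1 : Lup G t (Ldn G t u) = u
    · rw [← h1, hkey]
      refine h _ ?_
      rw [← Lup_mono G t, h1]
      exact hu
    · refine sum_eq_zero fun w hw => ?_
      by_contra hne
      obtain ⟨u1, h2, -⟩ := Lex_ne G t hne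
      refine h1 (Lup_dn G t ((Lup_sub G t s).trans hu) fun x hx => ?_)
      have h3 : x ∈ Lup G t u1 := h2 ▸ mem_insert_of_mem hx
      rcases (mem_Lup G t).1 h3 with h4 | ⟨h4, -⟩
      · exact Or.inl h4
      · exact Or.inr h4
  · intro h u hu
    rw [← hkey]
    exact h _ ((Lup_mono G t).2 hu)

end Link

/-- **Links in discs are discs**: the cliques `t'` of the link of `t` correspond to the cliques `t ∪ t'` -/
theorem IsDisc.link {V : Type} [DecidableEq V] [Fintype V] {G : SimpleGraph V} {n : ℕ}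
    {B : Finset V → Prop} (h : IsDisc G n B) {t : Finset V} (ht : G.IsClique (t : Set V)) :
    IsDisc (G.comap (Subtype.val : {w // w ∈ lkF G t} → V)) (n - t.card)
      (fun u => B (t ∪ u.map (Function.Embedding.subtype _))) := by
  have htn : t.card ≤ n := h.card_le t ht
  have hsupp : ∀ (s : Finset {w // w ∈ lkF G t}) (j : ℕ) (f : Finset {w // w ∈ lkF G t} → ZMod 2),
      (∀ u, f u ≠ 0 → (G.comap (Subtype.val : {w // w ∈ lkF G t} → V)).IsClique (u : Set {w // w ∈ lkF G t}) ∧
        s ⊆ u ∧ u.card = j) →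
      ∀ u, Lex G t f u ≠ 0 → G.IsClique (u : Set V) ∧ Lup G t s ⊆ u ∧ u.card = t.card + j := by
    intro s j f hf u hu
    obtain ⟨u', rfl, h1⟩ := Lex_ne G t hu
    obtain ⟨h2, h3, h4⟩ := hf u' h1
    exact ⟨(Lup_clq G t ht).2 h2, (Lup_mono G t).2 h3, by rw [Lup_card, h4]⟩
  refine ⟨fun s hs => (Lup_clq G t ht).1 (h.clique _ hs), fun s s' hs hss => h.down _ _ hs
    ((Lup_mono G t).2 hss), fun s hs => ?_, fun s hs => ?_, fun s hs j hj f hf hc => ?_,
    fun s hs hBs f hf => ?_, fun s hBs f hf hc => ?_⟩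
  · have h1 := h.card_le _ ((Lup_clq G t ht).2 hs)
    rw [Lup_card] at h1
    omega
  · obtain ⟨u, h1, h2, h3⟩ := h.facet _ ((Lup_clq G t ht).2 hs)
    have htu : t ⊆ u := (Lup_sub G t s).trans h1
    have h4 := Lup_dn G t htu (Lks_clq G t htu h2)
    refine ⟨Ldn G t u, ?_, ?_, ?_⟩
    · rw [← Lup_mono G t, h4]
      exact h1
    · rw [← Lup_clq G t ht, h4]
      exact h2
    · have h5 := Lup_card G t (Ldn G t u)
      rw [h4, h3] at h5
      omega
  · obtain ⟨y, hy1, hy2⟩ := h.low (Lup G t s) ((Lup_clq G t ht).2 hs) (t.card + j) (by omega)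
      (Lex G t f) (hsupp s j f hf) ((Lex_cyc G t).1 hc)
    refine ⟨fun u => y (Lup G t u), fun u hu => ?_, fun u hu => ?_⟩
    · obtain ⟨h2, h3, h4⟩ := hy1 _ hu
      rw [Lup_card] at h4
      exact ⟨(Lup_clq G t ht).1 h2, (Lup_mono G t).1 h3, by omega⟩
    · have h1 := hy2 (Lup G t u) ((Lup_mono G t).2 hu)
      rw [Lex_up, Lks_sum G t y u] at h1
      · exact h1
      · intro w hw hwl
        by_contra hne
        have h3 := (hy1 _ hne).1
        rcases Lks_clq G t ((Lup_sub G t u).trans (subset_insert _ _)) h3 w (mem_insert_self _ _)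
          with h4 | h4
        · exact hw (Lup_sub G t _ h4)
        · exact hwl h4
  · have h1 := h.top (Lup G t s) ((Lup_clq G t ht).2 hs) hBs (Lex G t f) (fun u hu => by
      obtain ⟨h2, h3, h4⟩ := hsupp s _ f hf u hu
      exact ⟨h2, h3, by omega⟩)
    rw [Lex_cyc G t, h1]
    constructor
    · rintro ⟨c, hc⟩
      refine ⟨c, fun u hu1 hu2 hu3 => ?_⟩
      rw [← hc (Lup G t u) ((Lup_clq G t ht).2 hu1) ((Lup_mono G t).2 hu2)
        (by rw [Lup_card, hu3]; omega), Lex_up]
    · rintro ⟨c, hc⟩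
      refine ⟨c, fun u hu1 hu2 hu3 => ?_⟩
      have htu : t ⊆ u := (Lup_sub G t s).trans hu2
      have h4 := Lup_dn G t htu (Lks_clq G t htu hu1)
      have h5 := Lup_card G t (Ldn G t u)
      rw [h4, hu3] at h5
      rw [← h4, Lex_up]
      refine hc _ ?_ ?_ (by omega)
      · rw [← Lup_clq G t ht, h4]
        exact hu1
      · rw [← Lup_mono G t, h4]
        exact hu2
  · have h1 := h.bot (Lup G t s) hBs (Lex G t f) (fun u hu => by
      obtain ⟨h2, h3, h4⟩ := hsupp s _ f hf u hu
      exact ⟨h2, h3, by omega⟩) ((Lex_cyc G t).1 hc)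
    funext u
    rw [← Lex_up G t f u, h1]
    rfl

end Pool.Agent.S9

end

section

/-!
# Project S10: universal coefficients and Frobenius on the active subcomplex

As `Pool.Agent.S9.F.Uc`: the elementary chain of an active cube is supported on active cubes.
-/

set_option autoImplicit false
set_option linter.unusedSectionVars false

open Finset

namespace Pool.Agent.S10

open Pool.Agent.H19.SR Pool.Agent.S9

variable {V : Type} [DecidableEq V] [Fintype V] {G : SimpleGraph V} {W : Type} [Group W]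

section Gp

variable (R : Rac G W)

private theorem Uc_list {C : Finset V} {v : V} (hv : v ∉ C)
    (hC : G.IsClique ((insert v C : Finset V) : Set V)) : ∀ L : List V, L.Nodup →
      ((L.filter fun u => u ∈ insert v C).map R.s).prod =
        ((L.filter fun u => u ∈ C).map R.s).prod * if v ∈ L then R.s v else 1
  | [], _ => by simp
  | x :: L, hL => by
    have hx : x ∉ L := (List.nodup_cons.1 hL).1
    have ih := Uc_list hv hC L (List.nodup_cons.1 hL).2
    by_cases hxv : x = v
    · subst hxv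
      rw [List.filter_cons_of_pos (by simp), List.filter_cons_of_neg (by simpa using hv)]
      rw [List.map_cons, List.prod_cons, ih, if_neg hx, mul_one, if_pos (List.mem_cons_self)]
      have h3 : Commute (R.s x) ((L.filter fun u => u ∈ C).map R.s).prod := by
        refine Commute.list_prod_right _ _ fun y hy => ?_
        obtain ⟨u, hu, rfl⟩ := List.mem_map.1 hy
        have hu' : u ∈ C := by simpa using (List.mem_filter.1 hu).2
        have hux : x ≠ u := fun h => hv (h ▸ hu')
        refine R.comm x u (hC ?_ ?_ hux)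
        · simp
        · simp [hu']
      exact h3
    · have h4 : (v ∈ x :: L) ↔ v ∈ L := by
        rw [List.mem_cons]
        constructor
        · rintro (h | h)
          · exact absurd h.symm hxv
          · exact h
        · exact Or.inr
      have h5 : (if v ∈ x :: L then R.s v else 1) = if v ∈ L then R.s v else 1 := by
        by_cases h : v ∈ L
        · rw [if_pos h, if_pos (h4.2 h)]
        · rw [if_neg h, if_neg (fun h' => h (h4.1 h'))]
      rw [h5]
      by_cases hxC : x ∈ C
      · rw [List.filter_cons_of_pos (by simp [hxC]), List.filter_cons_of_pos (by simpa using hxC),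
          List.map_cons, List.prod_cons, List.map_cons, List.prod_cons, ih, mul_assoc]
      · rw [List.filter_cons_of_neg (by simp [hxC, hxv]), List.filter_cons_of_neg
          (by simpa using hxC), ih]

/-- `gp (C + v) = gp C * s v` -/
private theorem Uc_ins {C : Finset V} {v : V} (hv : v ∉ C)
    (hC : G.IsClique ((insert v C : Finset V) : Set V)) : gp R.s (insert v C) = gp R.s C * R.s v := by
  have h := Uc_list R hv hC (univ : Finset V).toList (Finset.nodup_toList _)
  rw [if_pos (Finset.mem_toList.2 (mem_univ v))] at h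
  exact h

/-- `gp (C + v) = s v * gp C` -/
private theorem Uc_ins' {C : Finset V} {v : V} (hv : v ∉ C)
    (hC : G.IsClique ((insert v C : Finset V) : Set V)) : gp R.s (insert v C) = R.s v * gp R.s C := by
  have h3 : Commute (R.s v) (gp R.s C) := by
    refine Commute.list_prod_right _ _ fun y hy => ?_
    obtain ⟨u, hu, rfl⟩ := List.mem_map.1 hy
    have hu' : u ∈ C := by simpa using (List.mem_filter.1 hu).2
    have hux : v ≠ u := fun h => hv (h ▸ hu')
    refine R.comm v u (hC ?_ ?_ hux)
    · simp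
    · simp [hu']
  rw [Uc_ins R hv hC]
  exact h3.eq.symm

private theorem Uc_empty : gp R.s ∅ = 1 := by
  unfold gp
  simp

private theorem Uc_clq {A B : Finset V} (h : G.IsClique (A : Set V)) (hB : B ⊆ A) :
    G.IsClique (B : Set V) := h.subset (by exact_mod_cast hB)

private theorem Uc_bits {A : Finset V} (hA : G.IsClique (A : Set V)) {C : Finset V} (hC : C ⊆ A) (v : V) :
    R.b (gp R.s C) v = if v ∈ C then 1 else 0 := by
  classical
  induction C using Finset.induction_on with
  | empty => rw [Uc_empty, R.b_one, if_neg (notMem_empty v)]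
  | insert u C hu ih =>
    rw [Uc_ins R hu (Uc_clq hA hC), R.b_mul, ih ((subset_insert _ _).trans hC), R.b_s]
    by_cases h : u = v
    · subst h
      rw [if_neg hu, if_pos rfl, if_pos (mem_insert_self _ _), zero_add]
    · rw [if_neg h, add_zero]
      by_cases h' : v ∈ C
      · rw [if_pos h', if_pos (mem_insert_of_mem h')]
      · rw [if_neg h', if_neg]
        intro h2
        rcases mem_insert.1 h2 with h3 | h3
        · exact h h3.symm
        · exact h' h3

/-- invariance under the letters of `A` gives invariance under `gp C` -/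
private theorem Uc_inv {M : Type} {A : Finset V} {f : W → M} (hf : ∀ v ∈ A, ∀ w, f (w * R.s v) = f w)
    {C : Finset V} (hC : C ⊆ A) (w : W) : f (w * gp R.s C) = f w := by
  have key : ∀ L : List V, (∀ v ∈ L, v ∈ A) → ∀ w, f (w * (L.map R.s).prod) = f w := by
    intro L
    induction L with
    | nil =>
      intro _ w
      simp
    | cons x L ih =>
      intro hL w
      rw [List.map_cons, List.prod_cons, ← mul_assoc, ih (fun v hv => hL v (List.mem_cons_of_mem _ hv)),
        hf x (hL x List.mem_cons_self)]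
  exact key _ (fun v hv => hC (by simpa using (List.mem_filter.1 hv).2)) w

end Gp

section Es

variable (R : Rac G W) {K : Type} [Field K] (X : W → K)

private theorem esU_l {A : Finset V} {v : V} (hv : v ∉ A) (hA : G.IsClique ((insert v A : Finset V) : Set V))
    (w w' : W) : esU R X (insert v A) w w' = esU R X A w w' + esU R X A (w * R.s v) w' := by
  unfold esU
  rw [sum_powerset_insert hv]
  congr 1
  refine sum_congr rfl fun C hC => ?_
  have hC' := mem_powerset.1 hC
  have h1 : (w * R.s v)⁻¹ = R.s v * w⁻¹ := by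
    rw [mul_inv_rev, inv_eq_of_mul_eq_one_left (R.sq v)]
  rw [Uc_ins R (fun h => hv (hC' h)) (Uc_clq hA (insert_subset_insert _ hC')), h1]
  simp only [mul_assoc]

private theorem esU_r {A : Finset V} {v : V} (hv : v ∉ A) (hA : G.IsClique ((insert v A : Finset V) : Set V))
    (w w' : W) : esU R X (insert v A) w w' = esU R X A w w' + esU R X A w (w' * R.s v) := by
  unfold esU
  rw [sum_powerset_insert hv]
  congr 1
  refine sum_congr rfl fun C hC => ?_
  have hC' := mem_powerset.1 hC
  rw [Uc_ins' R (fun h => hv (hC' h)) (Uc_clq hA (insert_subset_insert _ hC'))]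
  simp only [mul_assoc]

private theorem Uc_ss (R : Rac G W) (w : W) (v : V) : w * R.s v * R.s v = w := by
  rw [mul_assoc, R.sq, mul_one]

private theorem esU_inv_r {A : Finset V} {v : V} (hv : v ∈ A) (hA : G.IsClique (A : Set V))
    (w w' : W) : esU R X A w (w' * R.s v) = esU R X A w w' := by
  have h : insert v (A.erase v) = A := insert_erase hv
  have hA' : G.IsClique ((insert v (A.erase v) : Finset V) : Set V) := by rw [h]; exact hA
  have h1 := esU_r R X (notMem_erase v A) hA' w (w' * R.s v)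
  have h2 := esU_r R X (notMem_erase v A) hA' w w'
  rw [h, Uc_ss] at h1
  rw [h] at h2
  rw [h1, h2, add_comm]

private theorem esU_inv_l {A : Finset V} {v : V} (hv : v ∈ A) (hA : G.IsClique (A : Set V))
    (w w' : W) : esU R X A (w * R.s v) w' = esU R X A w w' := by
  have h : insert v (A.erase v) = A := insert_erase hv
  have hA' : G.IsClique ((insert v (A.erase v) : Finset V) : Set V) := by rw [h]; exact hA
  have h1 := esU_l R X (notMem_erase v A) hA' (w * R.s v) w'
  have h2 := esU_l R X (notMem_erase v A) hA' w w'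
  rw [h, Uc_ss] at h1
  rw [h] at h2
  rw [h1, h2, add_comm]

end Es

section Ee

variable (R : Rac G W) {K : Type} [Field K] {Γ : Subgroup W}

private theorem XU_l (Λ : Γ →* Kˣ) (g : Γ) (u : W) : XU Λ (g * u) = Λ g * XU Λ u := by
  unfold XU
  by_cases h : u ∈ Γ
  · have h2 : (g : W) * u ∈ Γ := Γ.mul_mem g.2 h
    rw [dif_pos h, dif_pos h2]
    have h3 : (⟨g * u, h2⟩ : Γ) = g * ⟨u, h⟩ := rfl
    rw [h3, map_mul, Units.val_mul]
  · have h2 : ¬ (g : W) * u ∈ Γ := fun h3 => h ((Subgroup.mul_mem_cancel_left _ g.2).1 h3)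
    rw [dif_neg h, dif_neg h2, mul_zero]

private theorem XU_r (Λ : Γ →* Kˣ) (g : Γ) (u : W) : XU Λ (u * (g : W)⁻¹) = (Λ⁻¹ g : Kˣ) * XU Λ u := by
  unfold XU
  by_cases h : u ∈ Γ
  · have h2 : u * (g : W)⁻¹ ∈ Γ := Γ.mul_mem h (Γ.inv_mem g.2)
    rw [dif_pos h, dif_pos h2]
    have h3 : (⟨u * (g : W)⁻¹, h2⟩ : Γ) = ⟨u, h⟩ * g⁻¹ := rfl
    rw [h3, map_mul, map_inv, Units.val_mul, mul_comm]
    rfl
  · have h2 : ¬ u * (g : W)⁻¹ ∈ Γ := fun h3 =>
      h ((Subgroup.mul_mem_cancel_right _ (Γ.inv_mem g.2)).1 h3)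
    rw [dif_neg h, dif_neg h2, mul_zero]

private theorem XU_one (Λ : Γ →* Kˣ) : XU Λ (1 : W) = 1 := by
  unfold XU
  rw [dif_pos Γ.one_mem]
  have h3 : (⟨1, Γ.one_mem⟩ : Γ) = 1 := rfl
  rw [h3, map_one, Units.val_one]

private theorem esU_gr (Λ : Γ →* Kˣ) (A : Finset V) (g : Γ) (w w' : W) :
    esU R (XU Λ) A w (g * w') = Λ g * esU R (XU Λ) A w w' := by
  unfold esU
  rw [mul_sum]
  refine sum_congr rfl fun C _ => ?_
  rw [← XU_l]
  simp only [mul_assoc]

private theorem esU_gl (Λ : Γ →* Kˣ) (A : Finset V) (g : Γ) (w w' : W) :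
    esU R (XU Λ) A (g * w) w' = (Λ⁻¹ g : Kˣ) * esU R (XU Λ) A w w' := by
  unfold esU
  rw [mul_sum]
  refine sum_congr rfl fun C _ => ?_
  rw [← XU_r, mul_inv_rev]
  simp only [mul_assoc]

private theorem eeU_mem (Λ : Γ →* Kˣ) (i : ℕ) (A : Finset V) (w : W) :
    eeU R Λ i A w ∈ Cc R Γ (ch Λ) i := by
  classical
  unfold eeU
  by_cases hA : G.IsClique (A : Set V) ∧ A.card = i
  · rw [if_pos hA, mem_Cc]
    refine ⟨fun A' h => ?_, fun A' v hv w' => ?_, fun A' g w' => ?_⟩
    · by_cases h1 : A' = A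
      · rw [h1]
        exact hA
      · exact absurd (by
          funext w'
          show (if A' = A then esU R (XU Λ) A w w' else 0) = 0
          rw [if_neg h1]) h
    · show (if A' = A then esU R (XU Λ) A w (w' * R.s v) else 0) = if A' = A then esU R (XU Λ) A w w' else 0
      by_cases h1 : A' = A
      · subst h1
        rw [if_pos rfl, if_pos rfl, esU_inv_r R _ hv hA.1]
      · rw [if_neg h1, if_neg h1]
    · show (if A' = A then esU R (XU Λ) A w (g * w') else 0) =
        (ch Λ g) (if A' = A then esU R (XU Λ) A w w' else 0)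
      by_cases h1 : A' = A
      · subst h1
        rw [if_pos rfl, if_pos rfl, esU_gr]
        rfl
      · rw [if_neg h1, if_neg h1, map_zero]
  · rw [if_neg hA]
    exact (Cc R Γ (ch Λ) i).zero_mem

private theorem eeU_inv (Λ : Γ →* Kˣ) (i : ℕ) {A : Finset V} {v : V} (hv : v ∈ A) (w : W) :
    eeU R Λ i A (w * R.s v) = eeU R Λ i A w := by
  classical
  unfold eeU
  by_cases hA : G.IsClique (A : Set V) ∧ A.card = i
  · rw [if_pos hA, if_pos hA]
    funext A' w'
    by_cases h1 : A' = A
    · rw [if_pos h1, if_pos h1, esU_inv_l R _ hv hA.1]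
    · rw [if_neg h1, if_neg h1]
  · rw [if_neg hA, if_neg hA]

private theorem eeU_g (Λ : Γ →* Kˣ) (i : ℕ) (A : Finset V) (g : Γ) (w : W) :
    eeU R Λ i A (g * w) = ((Λ⁻¹ g : Kˣ) : K) • eeU R Λ i A w := by
  classical
  unfold eeU
  by_cases hA : G.IsClique (A : Set V) ∧ A.card = i
  · rw [if_pos hA, if_pos hA]
    funext A' w'
    show (if A' = A then esU R (XU Λ) A (g * w) w' else 0) =
      ((Λ⁻¹ g : Kˣ) : K) * (if A' = A then esU R (XU Λ) A w w' else 0)
    by_cases h1 : A' = A
    · rw [if_pos h1, if_pos h1, esU_gl]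
    · rw [if_neg h1, if_neg h1, mul_zero]
  · rw [if_neg hA, if_neg hA, smul_zero]

/-- the boundary of the elementary chain -/
private theorem eeU_bd (Λ : Γ →* Kˣ) (i : ℕ) {A : Finset V} (hA : G.IsClique (A : Set V)) (hi : A.card = i + 1)
    (w : W) : bd K (eeU R Λ (i + 1) A w) = ∑ v ∈ A, (eeU R Λ i (A.erase v) w + eeU R Λ i (A.erase v) (w * R.s v)) := by
  classical
  funext B w'
  rw [bd_apply, Finset.sum_apply, Finset.sum_apply]
  have e1 : ∀ v, eeU R Λ (i + 1) A w (insert v B) w' = if insert v B = A then esU R (XU Λ) A w w' else 0 := by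
    intro v
    unfold eeU
    rw [if_pos ⟨hA, hi⟩]
  have e2 : ∀ v ∈ A, (eeU R Λ i (A.erase v) w + eeU R Λ i (A.erase v) (w * R.s v)) B w' =
      if B = A.erase v then esU R (XU Λ) A w w' else 0 := by
    intro v hv
    have h1 : G.IsClique ((A.erase v : Finset V) : Set V) ∧ (A.erase v).card = i :=
      ⟨Uc_clq hA (erase_subset _ _), by rw [card_erase_of_mem hv, hi, Nat.add_sub_cancel]⟩
    unfold eeU
    rw [if_pos h1, if_pos h1]
    show (if B = A.erase v then esU R (XU Λ) (A.erase v) w w' else 0) +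
      (if B = A.erase v then esU R (XU Λ) (A.erase v) (w * R.s v) w' else 0) = _
    by_cases h2 : B = A.erase v
    · rw [if_pos h2, if_pos h2, if_pos h2]
      have h3 := esU_l R (XU Λ) (notMem_erase v A) (by rw [insert_erase hv]; exact hA) w w'
      rw [insert_erase hv] at h3
      exact h3.symm
    · rw [if_neg h2, if_neg h2, if_neg h2, add_zero]
  rw [sum_congr rfl fun v _ => e1 v, sum_congr rfl fun v hv => e2 v hv]
  rw [← sum_filter, ← sum_filter]
  refine sum_congr ?_ fun _ _ => rfl
  ext v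
  simp only [mem_filter, mem_compl]
  constructor
  · rintro ⟨h1, h2⟩
    have h3 : v ∈ A := by rw [← h2]; exact mem_insert_self _ _
    exact ⟨h3, by rw [← h2, erase_insert h1]⟩
  · rintro ⟨h1, h2⟩
    rw [h2]
    exact ⟨notMem_erase _ _, insert_erase h1⟩

/-- the expansion of a chain -/
private theorem eeU_exp (Λ : Γ →* Kˣ) (i : ℕ) {F : Finset W} (hF : IsTr Γ F) (hb : ∀ g ∈ Γ, ∀ v, R.b g v = 0)
    {z : Finset V → W → K} (hz : z ∈ Cc R Γ (ch Λ) i) {A : Finset V} (hA : G.IsClique (A : Set V))
    (w : W) : z A w = ∑ p ∈ bs R F A, z A p * esU R (XU Λ) A p w := by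
  classical
  obtain ⟨-, hz2, hz3⟩ := (mem_Cc R).1 hz
  -- the right hand side is invariant
  have r1 : ∀ v ∈ A, ∀ w, ∑ p ∈ bs R F A, z A p * esU R (XU Λ) A p (w * R.s v) =
      ∑ p ∈ bs R F A, z A p * esU R (XU Λ) A p w := by
    intro v hv w
    refine sum_congr rfl fun p _ => ?_
    rw [esU_inv_r R _ hv hA]
  set C := A.filter fun v => ¬ R.b w v = 0 with hC
  have hCA : C ⊆ A := filter_subset _ _
  have i1 := Uc_inv R (hz2 A) hCA w
  have i2 := Uc_inv R (f := fun w => ∑ p ∈ bs R F A, z A p * esU R (XU Λ) A p w) r1 hCA w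
  rw [← i1]
  refine Eq.trans ?_ i2
  show z A (w * gp R.s C) = ∑ p ∈ bs R F A, z A p * esU R (XU Λ) A p (w * gp R.s C)
  set w₁ := w * gp R.s C with hw₁
  have hbw : ∀ v ∈ A, R.b w₁ v = 0 := by
    intro v hv
    rw [hw₁, R.b_mul, Uc_bits R hA hCA]
    by_cases h : R.b w v = 0
    · have h2 : v ∉ C := by
        rw [hC, mem_filter]
        exact fun h3 => h3.2 h
      rw [h, if_neg h2, add_zero]
    · have h2 : v ∈ C := by
        rw [hC, mem_filter]
        exact ⟨hv, h⟩
      rw [if_pos h2]
      have h5 : ∀ a : ZMod 2, ¬ a = 0 → a + 1 = 0 := by decide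
      exact h5 _ h
  obtain ⟨p₀, ⟨hp₀, hg⟩, hu⟩ := hF w₁
  have hw₂ : w₁ = ((⟨w₁ * p₀⁻¹, hg⟩ : Γ) : W) * p₀ := by
    show w₁ = w₁ * p₀⁻¹ * p₀
    rw [inv_mul_cancel_right]
  have hbp : ∀ v ∈ A, R.b p₀ v = 0 := by
    intro v hv
    have h1 := hbw v hv
    rw [hw₂, R.b_mul, hb _ hg, zero_add] at h1
    exact h1
  have hm : p₀ ∈ bs R F A := (mem_bs R).2 ⟨hp₀, hbp⟩
  rw [hw₂, hz3]
  have e3 : ∀ p ∈ bs R F A, z A p * esU R (XU Λ) A p (((⟨w₁ * p₀⁻¹, hg⟩ : Γ) : W) * p₀) =
      (Λ ⟨w₁ * p₀⁻¹, hg⟩ : K) * (if p = p₀ then z A p₀ else 0) := by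
    intro p hp
    obtain ⟨hp1, hp2⟩ := (mem_bs R).1 hp
    rw [esU_gr, mul_left_comm]
    congr 1
    have h2 : esU R (XU Λ) A p p₀ = if p = p₀ then 1 else 0 := by
      unfold esU
      have h3 : ∀ C ∈ A.powerset, C ≠ ∅ → XU Λ (p₀ * gp R.s C * p⁻¹) = 0 := by
        intro C hC hne
        have hC' := mem_powerset.1 hC
        unfold XU
        rw [dif_neg]
        intro h4
        obtain ⟨v, hv⟩ := nonempty_iff_ne_empty.2 hne
        have h5 := hb _ h4 v
        have h6 : R.b (p₀ * gp R.s C * p⁻¹) v + R.b p v = R.b (p₀ * gp R.s C) v := by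
          rw [← R.b_mul, inv_mul_cancel_right]
        rw [h5, hp2 v (hC' hv), zero_add, R.b_mul, hbp v (hC' hv), Uc_bits R hA hC', if_pos hv, zero_add] at h6
        exact zero_ne_one h6
      rw [sum_eq_single_of_mem ∅ (empty_mem_powerset _) (fun C hC hne => h3 C hC hne), Uc_empty, mul_one]
      by_cases hpp : p = p₀
      · subst hpp
        rw [if_pos rfl, mul_inv_cancel, XU_one]
      · rw [if_neg hpp]
        unfold XU
        rw [dif_neg]
        intro h4
        apply hpp
        refine (hu p ⟨hp1, ?_⟩)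
        rw [hw₂]
        have h5 : ((⟨w₁ * p₀⁻¹, hg⟩ : Γ) : W) * p₀ * p⁻¹ = ((⟨w₁ * p₀⁻¹, hg⟩ : Γ) : W) * (p₀ * p⁻¹) := by
          rw [mul_assoc]
        rw [h5]
        exact Γ.mul_mem hg h4
    rw [h2]
    by_cases hpp : p = p₀
    · rw [if_pos hpp, if_pos hpp, hpp, mul_one]
    · rw [if_neg hpp, if_neg hpp, mul_zero]
  rw [sum_congr rfl e3, ← mul_sum, sum_ite_eq' , if_pos hm]
  rfl

end Ee

section Act

variable (R : Rac G W) {K : Type} [Field K] {Γ : Subgroup W} {act : V → W → Prop}

private theorem act_gp (hact : IsActv R Γ act) {A : Finset V} (hA : G.IsClique (A : Set V))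
    {C : Finset V} (hC : C ⊆ A) (w : W) : (∀ v ∈ A, act v (w * gp R.s C)) ↔ ∀ v ∈ A, act v w := by
  have h := Uc_inv R (A := A) (f := fun w => ∀ v ∈ A, act v w)
    (fun v hv w => propext (hact.all hA hv w)) hC w
  exact h.to_iff

/-- the elementary chain of an active cube is supported on active cubes -/
theorem eeU_act (hact : IsActv R Γ act) (Λ : Γ →* Kˣ) (i : ℕ) {A : Finset V} {w : W}
    (h : ∀ v ∈ A, act v w) : eeU R Λ i A w ∈ Ca R act Γ (ch Λ) i := by
  classical
  refine (mem_Ca R act).2 ⟨eeU_mem R Λ i A w, fun B w' hB => ?_⟩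
  unfold eeU at hB
  by_cases hA : G.IsClique (A : Set V) ∧ A.card = i
  · rw [if_pos hA] at hB
    by_cases h1 : B = A
    · subst h1
      rw [if_pos rfl] at hB
      unfold esU at hB
      obtain ⟨C, hC, hC'⟩ := exists_ne_zero_of_sum_ne_zero hB
      have hCB := mem_powerset.1 hC
      unfold XU at hC'
      by_cases h2 : w' * gp R.s C * w⁻¹ ∈ Γ
      · have h3 : w' * gp R.s C = (w' * gp R.s C * w⁻¹) * w := by rw [inv_mul_cancel_right]
        rw [← act_gp R hact hA.1 hCB w', h3]
        exact fun v hv => (hact.inv v _ h2 w).2 (h v hv)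
      · rw [dif_neg h2] at hC'
        exact absurd rfl hC'
    · rw [if_neg h1] at hB
      exact absurd rfl hB
  · rw [if_neg hA] at hB
    exact absurd rfl hB

end Act

open Classical in
/-- **Universal coefficients and Frobenius on the active subcomplex.** -/
theorem ucA (R : Rac G W) {Γ : Subgroup W} (hb : ∀ g ∈ Γ, ∀ v, R.b g v = 0)
    {act : V → W → Prop} (hact : IsActv R Γ act) {F : Finset W} (hF : IsTr Γ F) {K : Type}
    [Field K] [CharP K 2] (χ : Γ →* Kˣ) {i : ℕ} {z₀ : Finset V → W → K}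
    (hz : z₀ ∈ Za R act Γ (ch χ) i)
    (h : ∀ x ∈ Ca R act Γ (ch (χ⁻¹ ^ 2)) i, cba R act x = 0 →
      PAIR G R F (fun A w => x A w * z₀ A w ^ 2) = 0) : z₀ ∈ Ba R act Γ (ch χ) i := by
  obtain ⟨hza, hzk⟩ := Submodule.mem_inf.1 hz
  obtain ⟨hzc, hzs⟩ := (mem_Ca R act).1 hza
  obtain ⟨hz1, hz2, hz3⟩ := (mem_Cc R).1 hzc
  -- the square of the cycle
  set q : Finset V → W → K := fun A w => z₀ A w ^ 2 with hq
  have hch : ∀ (Λ : Γ →* Kˣ) (g : Γ) (y : K), ch Λ g y = (Λ g : K) * y := fun Λ g y => rfl
  have hqc : q ∈ Cc R Γ (ch (χ ^ 2)) i := by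
    rw [mem_Cc]
    refine ⟨fun A h => hz1 A fun h0 => h ?_, fun A v hv w => ?_, fun A g w => ?_⟩
    · funext w
      show z₀ A w ^ 2 = 0
      rw [h0]
      exact zero_pow two_ne_zero
    · show z₀ A (w * R.s v) ^ 2 = z₀ A w ^ 2
      rw [hz2 A v hv]
    · show z₀ A (g * w) ^ 2 = ch (χ ^ 2) g (z₀ A w ^ 2)
      rw [hz3 A g, hch, hch, mul_pow]
      rfl
  have hqs : ∀ A w, (¬ ∀ v ∈ A, act v w) → q A w = 0 := by
    intro A w h1
    show z₀ A w ^ 2 = 0
    have h2 : z₀ A w = 0 := by
      by_contra h3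
      exact h1 (hzs A w h3)
    rw [h2]
    exact zero_pow two_ne_zero
  -- it is a boundary
  have hqb : q ∈ Ba R act Γ (ch (χ ^ 2)) i := by
    by_contra hcon
    obtain ⟨φ, hφ1, hφ2⟩ := Submodule.exists_dual_map_eq_bot_of_notMem hcon inferInstance
    have hφ3 : ∀ y ∈ Ca R act Γ (ch (χ ^ 2)) (i + 1), φ (bd K y) = 0 := by
      intro y hy
      have h1 : φ (bd K y) ∈ (Ba R act Γ (ch (χ ^ 2)) i).map φ :=
        Submodule.mem_map_of_mem (Submodule.mem_map_of_mem hy)
      rw [hφ2] at h1
      exact (Submodule.mem_bot K).1 h1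
    have hx := h (fun A w => if ∀ v ∈ A, act v w then φ (eeU R (χ ^ 2) i A w) else 0) (by
      refine (mem_Ca R act).2 ⟨?_, fun A w h1 => ?_⟩
      · rw [mem_Cc]
        refine ⟨fun A h1 => ?_, fun A v hv w => ?_, fun A g w => ?_⟩
        · by_contra h2
          apply h1
          funext w
          show (if ∀ v ∈ A, act v w then φ (eeU R (χ ^ 2) i A w) else 0) = 0
          unfold eeU
          rw [if_neg h2, map_zero, ite_self]
        · show (if ∀ u ∈ A, act u (w * R.s v) then φ (eeU R (χ ^ 2) i A (w * R.s v)) else 0) =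
            if ∀ u ∈ A, act u w then φ (eeU R (χ ^ 2) i A w) else 0
          rw [eeU_inv R _ _ hv]
          by_cases hA : G.IsClique (A : Set V)
          · simp only [hact.all hA hv w]
          · have h2 : eeU R (χ ^ 2) i A w = 0 := by
              unfold eeU
              rw [if_neg fun h3 => hA h3.1]
            rw [h2, map_zero, ite_self, ite_self]
        · show (if ∀ u ∈ A, act u (g * w) then φ (eeU R (χ ^ 2) i A (g * w)) else 0) =
            ch (χ⁻¹ ^ 2) g (if ∀ u ∈ A, act u w then φ (eeU R (χ ^ 2) i A w) else 0)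
          have h8 : (∀ u ∈ A, act u ((g : W) * w)) ↔ ∀ u ∈ A, act u w :=
            forall₂_congr fun u _ => hact.inv u g g.2 w
          have h9 : (χ ^ 2)⁻¹ g = (χ⁻¹ ^ 2) g := by
            show (χ g ^ 2)⁻¹ = (χ g)⁻¹ ^ 2
            rw [inv_pow]
          by_cases h1 : ∀ u ∈ A, act u w
          · rw [if_pos h1, if_pos (h8.2 h1), eeU_g, map_smul, hch, h9]
            rfl
          · rw [if_neg h1, if_neg fun h2 => h1 (h8.1 h2), map_zero]
      · by_contra h2
        exact h1 (if_neg h2)) (by
      funext A w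
      show (if ∀ v ∈ A, act v w then cb R (fun A w => if ∀ v ∈ A, act v w then
        φ (eeU R (χ ^ 2) i A w) else 0) A w else 0) = 0
      by_cases hAw : ∀ v ∈ A, act v w
      swap
      · rw [if_neg hAw]
      rw [if_pos hAw]
      unfold cb
      by_cases hA : G.IsClique (A : Set V)
      · rw [if_pos hA]
        have e1 : ∀ v ∈ A, ((if ∀ u ∈ A.erase v, act u w then φ (eeU R (χ ^ 2) i (A.erase v) w) else 0) +
            if ∀ u ∈ A.erase v, act u (w * R.s v) then φ (eeU R (χ ^ 2) i (A.erase v) (w * R.s v))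
              else 0) = φ (eeU R (χ ^ 2) i (A.erase v) w + eeU R (χ ^ 2) i (A.erase v) (w * R.s v)) := by
          intro v hv
          rw [if_pos fun u hu => hAw u (mem_of_mem_erase hu),
            if_pos fun u hu => (hact.all hA hv w).2 hAw u (mem_of_mem_erase hu), map_add]
        rw [sum_congr rfl e1]
        by_cases hi : A.card = i + 1
        · have h1 := hφ3 _ (eeU_act R hact (χ ^ 2) (i + 1) hAw)
          rw [eeU_bd R (χ ^ 2) i hA hi, map_sum] at h1
          exact h1
        · refine sum_eq_zero fun v hv => ?_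
          have h2 : ∀ w, eeU R (χ ^ 2) i (A.erase v) w = 0 := by
            intro w
            unfold eeU
            rw [if_neg]
            rintro ⟨-, h3⟩
            apply hi
            rw [card_erase_of_mem hv] at h3
            have h4 : 0 < A.card := card_pos.2 ⟨v, hv⟩
            omega
          rw [h2, h2, add_zero, map_zero]
      · rw [if_neg hA])
    apply hφ1
    rw [← hx]
    -- the expansion
    have hexp : q = ∑ A ∈ (univ : Finset (Finset V)).filter (fun A : Finset V => G.IsClique (A : Set V)),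
        ∑ p ∈ bs R F A, q A p • eeU R (χ ^ 2) i A p := by
      funext B w
      rw [Finset.sum_apply, Finset.sum_apply]
      have h1 : ∀ A ∈ (univ : Finset (Finset V)).filter (fun A : Finset V => G.IsClique (A : Set V)),
          (∑ p ∈ bs R F A, q A p • eeU R (χ ^ 2) i A p) B w = if A = B then q B w else 0 := by
        intro A hA
        have hA' := (mem_filter.1 hA).2
        rw [Finset.sum_apply, Finset.sum_apply]
        by_cases hAB : A = B
        · subst hAB
          rw [if_pos rfl]
          by_cases hi : A.card = i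
          · rw [eeU_exp R (χ ^ 2) i hF hb hqc hA' w]
            refine sum_congr rfl fun p _ => ?_
            show q A p * eeU R (χ ^ 2) i A p A w = _
            unfold eeU
            rw [if_pos ⟨hA', hi⟩, if_pos rfl]
          · have h2 : q A = 0 := by
              by_contra h3
              exact hi (((mem_Cc R).1 hqc).1 A h3).2
            rw [h2]
            refine sum_eq_zero fun p _ => ?_
            show (0 : K) * _ = 0
            rw [zero_mul]
        · rw [if_neg hAB]
          refine sum_eq_zero fun p _ => ?_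
          show q A p * eeU R (χ ^ 2) i A p B w = 0
          unfold eeU
          by_cases h2 : G.IsClique (A : Set V) ∧ A.card = i
          · rw [if_pos h2, if_neg (fun h3 => hAB h3.symm), mul_zero]
          · rw [if_neg h2]
            exact mul_zero _
      rw [sum_congr rfl h1, sum_ite_eq']
      by_cases hB : G.IsClique (B : Set V)
      · have h7 : B ∈ (univ : Finset (Finset V)).filter (fun A : Finset V => G.IsClique (A : Set V)) :=
          mem_filter.2 ⟨mem_univ _, hB⟩
        rw [if_pos h7]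
      · have h7 : B ∉ (univ : Finset (Finset V)).filter (fun A : Finset V => G.IsClique (A : Set V)) :=
          fun h2 => hB (mem_filter.1 h2).2
        rw [if_neg h7]
        by_contra h3
        exact hB (((mem_Cc R).1 hqc).1 B fun h4 => h3 (by rw [h4]; rfl)).1
    have h5 : φ q = ∑ A ∈ (univ : Finset (Finset V)).filter (fun A : Finset V => G.IsClique (A : Set V)),
        ∑ p ∈ bs R F A, q A p * φ (eeU R (χ ^ 2) i A p) := by
      conv_lhs => rw [hexp]
      rw [map_sum]
      refine sum_congr rfl fun A _ => ?_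
      rw [map_sum]
      refine sum_congr rfl fun p _ => ?_
      rw [map_smul, smul_eq_mul]
    rw [h5]
    unfold PAIR
    refine sum_congr ?_ fun A _ => sum_congr rfl fun p _ => ?_
    · ext A
      simp
    · show q A p * φ (eeU R (χ ^ 2) i A p) =
        (if ∀ v ∈ A, act v p then φ (eeU R (χ ^ 2) i A p) else 0) * q A p
      by_cases h8 : ∀ v ∈ A, act v p
      · rw [if_pos h8]
        exact mul_comm _ _
      · rw [if_neg h8, zero_mul, hqs A p h8, zero_mul]
  -- descent
  obtain ⟨l, hl1, hl2⟩ := frob (frobenius K 2)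
  obtain ⟨y, hy, hyq⟩ := hqb
  obtain ⟨hyc, hys⟩ := (mem_Ca R act).1 hy
  obtain ⟨hy1, hy2, hy3⟩ := (mem_Cc R).1 hyc
  refine ⟨fun A w => l (y A w), ?_, ?_⟩
  · rw [SetLike.mem_coe, mem_Ca, mem_Cc]
    refine ⟨⟨fun A h1 => hy1 A fun h0 => h1 ?_, fun A v hv w => ?_, fun A g w => ?_⟩,
      fun A w h1 => hys A w fun h0 => h1 ?_⟩
    · funext w
      show l (y A w) = 0
      rw [h0]
      exact map_zero l
    · show l (y A (w * R.s v)) = l (y A w)
      rw [hy2 A v hv]
    · show l (y A (g * w)) = ch χ g (l (y A w))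
      rw [hy3 A g, hch, hch, ← hl1]
      rfl
    · show l (y A w) = 0
      rw [h0]
      exact map_zero l
  · funext A w
    rw [bd_apply]
    have h1 := congrFun (congrFun hyq A) w
    rw [bd_apply] at h1
    rw [← map_sum, h1]
    have h2 := hl1 (z₀ A w) 1
    rw [mul_one, hl2, mul_one] at h2
    exact h2

end Pool.Agent.S10

end

section

/-!
# Project S10: the start of the tower

For every homomorphism `f` of `W` to a finite group there is a normal subgroup `Φ` of finite index in the kernel of `f` and of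
the bits which is preserved by the retractions.
-/

set_option autoImplicit false
set_option linter.unusedSectionVars false

open Finset

namespace Pool.Agent.S10

open Pool.Agent.S9

variable {V : Type} [DecidableEq V] [Fintype V] {G : SimpleGraph V} {W : Type} [Group W]

theorem exists_Phi (R : Rac G W) {P : Type} [Group P] [Finite P] (f : W →* P) :
    ∃ Φ : Subgroup W, Lev0 R Φ ∧ ∀ g ∈ Φ, f g = 1 := by
  classical
  have hfin : Finite (W →* P) := by
    refine Finite.of_injective (fun f : W →* P => fun v => f (R.s v)) fun f g h => ?_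
    exact R.hom_ext fun v => congrFun h v
  have hk := lev_ker R
  obtain ⟨Φ, hΦ⟩ : ∃ Φ : Subgroup W, Φ = R.bh.ker ⊓ ⨅ f : W →* P, f.ker := ⟨_, rfl⟩
  have hmem : ∀ g, g ∈ Φ ↔ g ∈ R.bh.ker ∧ ∀ f : W →* P, f g = 1 := by
    intro g
    rw [hΦ, Subgroup.mem_inf, Subgroup.mem_iInf]
    rfl
  refine ⟨Φ, ⟨⟨fun g hg w => ?_⟩, ?_, fun g hg v => hk.bits g ((hmem g).1 hg).1 v, fun U g hg => ?_⟩,
    fun g hg => ((hmem g).1 hg).2 f⟩
  · rw [hmem] at hg ⊢
    refine ⟨hk.normal.conj_mem g hg.1 w, fun f => ?_⟩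
    rw [map_mul, map_mul, hg.2 f, mul_one, ← map_mul, mul_inv_cancel, map_one]
  · rw [hΦ]
    have h1 : R.bh.ker.FiniteIndex := hk.fin
    have h2 : (⨅ f : W →* P, f.ker).FiniteIndex := Subgroup.finiteIndex_iInf fun f => inferInstance
    infer_instance
  · rw [hmem] at hg ⊢
    exact ⟨hk.ret U g hg.1, fun f => hg.2 (f.comp (R.r U))⟩

end Pool.Agent.S10

end
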