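import Pool.Agent.H71.TSG.M08
import Pool.Agent.H71.TSG.M18

/-! The parts of this file: H19.LI.VnC_1, H4.HY.ColPert, H4.Singer.MV, H19.LI.CovE, H4.Singer3.SAgree, H19.SR.Lks, H77.SX.Gen, H77.SX.Cmp, H19.BL.Def, H85.Fold4.Base_1, H4.FD.Stmt, H85.OK.Iso, H85.VK.Defs_1, S9.E.Flag. -/

section

/-!
# Project LI: elementary properties of the dimension
-/

set_option autoImplicit false

open Finset ContinuousLinearMap

namespace Pool.Agent.H19.LI

variable {Q I I' : Type} [Group Q] (D : Dm Q I) (D' : Dm Q I')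

theorem norm_ee (s : I) : ‖(ee s : L2 I)‖ = 1 := by
  classical
  unfold ee
  rw [lp.norm_single (by norm_num)]
  simp

theorem dm_nonneg (K : Submodule ℂ (L2 I)) : 0 ≤ D.dm K :=
  Finset.sum_nonneg fun s _ => mul_nonneg (D.nonneg s) (by positivity)

theorem dm_bot : D.dm ⊥ = 0 := by
  unfold Dm.dm
  refine Finset.sum_eq_zero fun s _ => ?_
  have h : (⊥ : Submodule ℂ (L2 I)).topologicalClosure = ⊥ :=
    IsClosed.submodule_topologicalClosure_eq (by
      rw [Submodule.bot_coe]
      exact isClosed_singleton)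
  have h1 := Submodule.starProjection_apply_mem (⊥ : Submodule ℂ (L2 I)).topologicalClosure (ee s)
  have h2 : ∀ y ∈ (⊥ : Submodule ℂ (L2 I)).topologicalClosure, y = 0 := by
    intro y hy
    rw [h] at hy
    exact (Submodule.mem_bot ℂ).1 hy
  rw [h2 _ h1]
  simp

theorem dm_mono {K L : Submodule ℂ (L2 I)} (h : K ≤ L) : D.dm K ≤ D.dm L := by
  unfold Dm.dm
  refine Finset.sum_le_sum fun s _ => mul_le_mul_of_nonneg_left ?_ (D.nonneg s)
  have hcl : K.topologicalClosure ≤ L.topologicalClosure := Submodule.topologicalClosure_mono h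
  have h1 : K.topologicalClosure.starProjection (L.topologicalClosure.starProjection (ee s)) =
      K.topologicalClosure.starProjection (ee s) := by
    have := Submodule.starProjection_comp_starProjection_of_le hcl
    exact congrArg (fun f : L2 I →L[ℂ] L2 I => f (ee s)) this
  rw [← h1]
  have h2 := Submodule.norm_starProjection_apply_le K.topologicalClosure
    (L.topologicalClosure.starProjection (ee s))
  exact pow_le_pow_left₀ (norm_nonneg _) h2 2

/-- Pythagoras -/
theorem dm_add {K L : Submodule ℂ (L2 I)} (hK : IsClosed (K : Set (L2 I)))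
    (hL : IsClosed (L : Set (L2 I))) (h : K ≤ L) : D.dm L = D.dm K + D.dm (L ⊓ Kᗮ) := by
  have hKc : K.topologicalClosure = K := IsClosed.submodule_topologicalClosure_eq hK
  have hLc : L.topologicalClosure = L := IsClosed.submodule_topologicalClosure_eq hL
  have hMc : (L ⊓ Kᗮ).topologicalClosure = L ⊓ Kᗮ := by
    refine IsClosed.submodule_topologicalClosure_eq ?_
    rw [Submodule.coe_inf]
    exact hL.inter (Submodule.isClosed_orthogonal K)
  unfold Dm.dm
  rw [← Finset.sum_add_distrib]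
  refine Finset.sum_congr rfl fun s _ => ?_
  rw [← mul_add]
  congr 1
  set x : L2 I := ee s
  set u := K.topologicalClosure.starProjection x with hu
  set w := L.topologicalClosure.starProjection x with hw
  have huK : u ∈ K := by
    rw [← hKc]
    exact Submodule.starProjection_apply_mem _ x
  have hwL : w ∈ L := by
    rw [← hLc]
    exact Submodule.starProjection_apply_mem _ x
  have hxu : x - u ∈ Kᗮ := by
    have := Submodule.sub_starProjection_mem_orthogonal (K := K.topologicalClosure) x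
    rwa [Submodule.orthogonal_closure] at this
  have hxw : x - w ∈ Lᗮ := by
    have := Submodule.sub_starProjection_mem_orthogonal (K := L.topologicalClosure) x
    rwa [Submodule.orthogonal_closure] at this
  have hwu : w - u ∈ L ⊓ Kᗮ := by
    refine ⟨L.sub_mem hwL (h huK), ?_⟩
    have h1 : w - u = (x - u) - (x - w) := by abel
    rw [h1]
    exact Kᗮ.sub_mem hxu (Submodule.orthogonal_le h hxw)
  have h3 : (L ⊓ Kᗮ).topologicalClosure.starProjection x = w - u := by
    refine Submodule.eq_starProjection_of_mem_orthogonal ?_ ?_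
    · rw [hMc]
      exact hwu
    · rw [hMc]
      have h1 : x - (w - u) = (x - w) + u := by abel
      rw [h1]
      refine Submodule.add_mem _ (Submodule.orthogonal_le inf_le_left hxw) ?_
      rw [Submodule.mem_orthogonal]
      intro y hy
      have := (Submodule.mem_orthogonal K y).1 hy.2 u huK
      rw [← inner_conj_symm, this, map_zero]
  rw [h3]
  have h4 : w = u + (w - u) := by abel
  have h5 : inner ℂ u (w - u) = 0 := (Submodule.mem_orthogonal K _).1 hwu.2 u huK
  have h6 := norm_add_sq_eq_norm_sq_add_norm_sq_of_inner_eq_zero u (w - u) h5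
  rw [← h4] at h6
  nlinarith [h6]

/-- a lower bound -/
theorem dm_lower {K : Submodule ℂ (L2 I)} (f : L2 I) (hf : f ∈ K) (s : I) :
    D.c s * ‖f s‖ ^ 2 ≤ D.dm K * ‖f‖ ^ 2 := by
  classical
  have hf' : f ∈ K.topologicalClosure := K.le_topologicalClosure hf
  have h1 : ‖f s‖ ≤ ‖K.topologicalClosure.starProjection (ee s)‖ * ‖f‖ := by
    rw [← inner_ee s f]
    have h2 : inner ℂ (ee s) f = inner ℂ (K.topologicalClosure.starProjection (ee s)) f := by
      rw [Submodule.inner_starProjection_left_eq_right,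
        (Submodule.starProjection_eq_self_iff (K := K.topologicalClosure)).2 hf']
    rw [h2]
    exact norm_inner_le_norm _ _
  have h3 : ‖f s‖ ^ 2 ≤ ‖K.topologicalClosure.starProjection (ee s)‖ ^ 2 * ‖f‖ ^ 2 := by
    rw [← mul_pow]
    exact pow_le_pow_left₀ (norm_nonneg _) h1 2
  by_cases hs : s ∈ D.F
  · have h4 : D.c s * ‖K.topologicalClosure.starProjection (ee s)‖ ^ 2 ≤ D.dm K :=
      Finset.single_le_sum (f := fun s => D.c s * ‖K.topologicalClosure.starProjection (ee s)‖ ^ 2)
        (fun t _ => mul_nonneg (D.nonneg t) (by positivity)) hs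
    calc D.c s * ‖f s‖ ^ 2 ≤ D.c s * (‖K.topologicalClosure.starProjection (ee s)‖ ^ 2 * ‖f‖ ^ 2) :=
          mul_le_mul_of_nonneg_left h3 (D.nonneg s)
      _ = D.c s * ‖K.topologicalClosure.starProjection (ee s)‖ ^ 2 * ‖f‖ ^ 2 := by ring
      _ ≤ D.dm K * ‖f‖ ^ 2 := mul_le_mul_of_nonneg_right h4 (by positivity)
  · rw [D.supp s hs, zero_mul]
    exact mul_nonneg (dm_nonneg D K) (by positivity)

theorem inv_inf {K L : Submodule ℂ (L2 I)} (hK : D.Inv K) (hL : D.Inv L) : D.Inv (K ⊓ L) :=
  fun q f => by rw [Submodule.mem_inf, Submodule.mem_inf, hK q f, hL q f]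

theorem inv_orth {K : Submodule ℂ (L2 I)} (hK : D.Inv K) : D.Inv Kᗮ := by
  intro q x
  rw [Submodule.mem_orthogonal, Submodule.mem_orthogonal]
  constructor
  · intro h y hy
    obtain ⟨y, rfl⟩ := (D.U q).surjective y
    rw [(D.U q).inner_map_map]
    exact h _ ((hK q y).2 hy)
  · intro h y hy
    rw [← (D.U q).inner_map_map]
    exact h _ ((hK q y).1 hy)

theorem inv_closure {K : Submodule ℂ (L2 I)} (hK : D.Inv K) : D.Inv K.topologicalClosure := by
  have h1 : ∀ q x, x ∈ K.topologicalClosure → D.U q x ∈ K.topologicalClosure := by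
    intro q x hx
    refine map_mem_closure (D.U q).continuous hx fun y hy => ?_
    exact (hK q y).1 hy
  have h2 : ∀ q x, x ∈ K.topologicalClosure → (D.U q).symm x ∈ K.topologicalClosure := by
    intro q x hx
    refine map_mem_closure (D.U q).symm.continuous hx fun y hy => ?_
    refine (hK q _).2 ?_
    rw [LinearIsometryEquiv.apply_symm_apply]
    exact hy
  intro q x
  refine ⟨h1 q x, fun h => ?_⟩
  have := h2 q _ h
  rwa [LinearIsometryEquiv.symm_apply_apply] at this

theorem inv_ker (A : L2 I →L[ℂ] L2 I') (hA : Eqv D D' A) :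
    D.Inv (LinearMap.ker (A : L2 I →ₗ[ℂ] L2 I')) := by
  intro q x
  rw [LinearMap.mem_ker, LinearMap.mem_ker, coe_coe, hA, map_eq_zero_iff _ (D'.U q).injective]

theorem inv_map {K : Submodule ℂ (L2 I)} (hK : D.Inv K) (A : L2 I →L[ℂ] L2 I')
    (hA : Eqv D D' A) : D'.Inv (K.map (A : L2 I →ₗ[ℂ] L2 I')) := by
  intro q y
  constructor
  · rintro ⟨x, hx, rfl⟩
    exact ⟨D.U q x, (hK q x).1 hx, hA q x⟩
  · rintro ⟨x, hx, hxy⟩
    obtain ⟨x, rfl⟩ := (D.U q).surjective x
    refine ⟨x, (hK q x).2 hx, ?_⟩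
    apply (D'.U q).injective
    rw [← hxy]
    exact (hA q x).symm

/-- the projection onto an invariant subspace is equivariant -/
theorem proj_U {K : Submodule ℂ (L2 I)} (hK : D.Inv K) :
    Eqv D D K.topologicalClosure.starProjection := by
  intro q x
  refine Submodule.eq_starProjection_of_mem_orthogonal ?_ ?_
  · exact (inv_closure D hK q _).1 (Submodule.starProjection_apply_mem _ x)
  · rw [← map_sub]
    exact (inv_orth D (inv_closure D hK) q _).1 (Submodule.sub_starProjection_mem_orthogonal x)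

end Pool.Agent.H19.LI

end

section

/-!
# Project HB: the integer representation for coloured graphs

`eC v` is a nilpotent matrix of rank one on the colour factor of `v` with the kernel spanned by
`(1, t v)`; the matrices `eC v ⊗ γ (col v)` anticommute if `u`, `v` are adjacent.
-/

set_option autoImplicit false
set_option linter.unusedSectionVars false

open Finset

namespace Pool.Agent.H4.HY

open Pool.Agent.H4.Singer

open scoped Matrix Kronecker

/-! ### fermions -/

section fermi

variable {I D : Type} [Fintype D] [DecidableEq D] {w a : I → Matrix D D ℤ}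

end fermi

/-! ### the colour factors -/

section colour

variable {V C : Type} [DecidableEq V] [Fintype V] [DecidableEq C] [Fintype C]

/-- the homotopy -/
def hC (Γ : ColGraph V C) (v : V) : Matrix (C → Bool) (C → Bool) ℤ := fun a b =>
  if b = Function.update a (Γ.col v) false then (if a (Γ.col v) then -1 else 0) else 0

end colour

/-! ### the tensor products -/

section tensor

variable {V C D : Type} [DecidableEq V] [Fintype V] [DecidableEq C] [Fintype C] [Fintype D]
  [DecidableEq D] {w a : C ⊕ V ⊕ V → Matrix D D ℤ}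

/-- the Clifford matrix of a colour -/
def gamC (w a : C ⊕ V ⊕ V → Matrix D D ℤ) (c : C) : Matrix D D ℤ := w (Sum.inl c) + a (Sum.inl c)

/-- the homotopies -/
def hK (Γ : ColGraph V C) (w a : C ⊕ V ⊕ V → Matrix D D ℤ) (v : V) :
    Matrix ((C → Bool) × D) ((C → Bool) × D) ℤ := hC Γ v ⊗ₖ gamC w a (Γ.col v)

/-! ### the involutions -/

/-! ### real operators -/

end tensor

end Pool.Agent.H4.HY

end

section

/-!
# Singer project: removing a vertex
-/

set_option autoImplicit false
set_option linter.unusedSectionVars false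

open Finset

namespace Pool.Agent.H4.Singer

variable {V C : Type} [DecidableEq V] [Fintype V] [DecidableEq C] {K : Type} [Field K]

open Classical in
/-- the neighbours of `v` in `U` -/
noncomputable def lk (G : ColGraph V C) (U : Finset V) (v : V) : Finset V :=
  U.filter fun u => G.adj v u

end Pool.Agent.H4.Singer

end

section

/-!
# Project LI: harmonic chains of `C` give harmonic twisted chains

`C` is simply connected, so there are `m_x` in `ℓ²(G)` with `m_x (g z) = - m_x g`, `m_{x₁} = δ_1 - δ_z` and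
`m_{nb v x} = r_v(T) m_x` for `v ∈ lab x` (`r_v(T) = T⁻¹ N⁺ + T N⁻` is a unitary involution for `|T| = 1`, and `r_u`, `r_v`
commute for adjacent `u`, `v`). Put `F (σ, x, g) = f σ x * m_x g`. For `y` in `Ch D T (i + 1)` the function
`y' σ x = ⟨m_x, y (σ, x, ·)⟩` is an `ℓ²`-chain of `C` and `⟨F, d y⟩ = ⟨f, bd y'⟩`.
-/

set_option autoImplicit false

open Finset

namespace Pool.Agent.H19.LI

open Pool.Agent.H19.Cub Pool.Agent.H4.Singer

variable {V X : Type} [DecidableEq V] {C : CubeComplex V X} {Γ G : Type} [Group Γ]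
  [MulAction Γ V] [Group G]

/-! ### the operators `r_v` -/

/-- right translation -/
private noncomputable def trl (b : G) : L2 G ≃ₗᵢ[ℂ] L2 G :=
  reix (Equiv.mulRight b) (fun _ => 1) fun _ => rfl

private theorem trl_apply (b : G) (m : L2 G) (g : G) : trl b m g = m (g * b) := by
  unfold trl
  rw [reix_apply, Int.cast_one, one_mul]
  rfl

private theorem trl_trl (b c : G) (m : L2 G) : trl b (trl c m) = trl (b * c) m := by
  ext g
  rw [trl_apply, trl_apply, trl_apply, mul_assoc]

private theorem trl_one (m : L2 G) : trl (1 : G) m = m := by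
  ext g
  rw [trl_apply, mul_one]

/-- the real numbers `cos θ`, `sin θ` with `T = exp (i θ)` -/
private noncomputable def al (T : ℂ) : ℂ := (T + T⁻¹) / 2

private noncomputable def be (T : ℂ) : ℂ := Complex.I * (T⁻¹ - T) / 2

private theorem al_be (T : ℂ) (hT : T ≠ 0) : al T * al T + be T * be T = 1 := by
  unfold al be
  have h := Complex.I_mul_I
  field_simp
  linear_combination (1 - T ^ 2) ^ 2 * h

private theorem inv_eq_conj {T : ℂ} (hT : ‖T‖ = 1) : T⁻¹ = (starRingEnd ℂ) T := by
  rw [Complex.inv_def, Complex.normSq_eq_norm_sq, hT]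
  simp

private theorem conj_al {T : ℂ} (hT : ‖T‖ = 1) : (starRingEnd ℂ) (al T) = al T := by
  unfold al
  rw [inv_eq_conj hT, map_div₀, map_add, Complex.conj_conj, map_ofNat]
  ring

private theorem conj_be {T : ℂ} (hT : ‖T‖ = 1) : (starRingEnd ℂ) (be T) = be T := by
  unfold be
  rw [inv_eq_conj hT, map_div₀, map_mul, map_sub, Complex.conj_conj, Complex.conj_I, map_ofNat]
  ring

section

variable (D : GD C Γ G) (T : ℂ)

/-- `r_v(T)` -/
private noncomputable def rv (v : V) (m : L2 G) : L2 G :=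
  al T • trl (D.R v) m + be T • trl (D.B v) m

private theorem rv_apply (v : V) (m : L2 G) (g : G) :
    rv D T v m g = al T * m (g * D.R v) + be T * m (g * D.B v) := by
  show al T * (trl (D.R v) m g) + be T * (trl (D.B v) m g) = _
  rw [trl_apply, trl_apply]

private theorem rv_two (hT : T ≠ 0) (v : V) (m : L2 G) (g : G) :
    2 * T * rv D T v m g = Np D (m : G → ℂ) v g + T ^ 2 * Nm D (m : G → ℂ) v g := by
  rw [rv_apply]
  unfold al be Np Nm
  field_simp
  ring

private def An (m : L2 G) : Prop := ∀ g, m (g * D.z) = - m g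

private theorem an_rv (v : V) (m : L2 G) (h : An D m) : An D (rv D T v m) := by
  intro g
  rw [rv_apply, rv_apply, mul_assoc, D.zR, mul_assoc g, D.zB, ← mul_assoc, ← mul_assoc, h, h]
  ring

private theorem rv_rv (hT : T ≠ 0) (v : V) (m : L2 G) (h : An D m) : rv D T v (rv D T v m) = m := by
  ext g
  have e1 : g * D.R v * D.R v = g := by rw [mul_assoc, D.RR, mul_one]
  have e2 : g * D.B v * D.B v = g := by rw [mul_assoc, D.BB, mul_one]
  have e3 : m (g * D.R v * D.B v) = - m (g * D.B v * D.R v) := by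
    have h1 : g * D.R v * D.B v = g * D.B v * D.R v * D.z := by
      rw [mul_assoc, D.RB, mul_assoc g, mul_assoc g, mul_assoc (D.B v), ← D.zR,
        ← mul_assoc (D.B v), ← D.zB, mul_assoc D.z]
    rw [h1, h]
  rw [rv_apply, rv_apply, rv_apply, e1, e2, e3]
  linear_combination (m g) * al_be T hT

private theorem rv_comm {u v : V} (huv : C.graph.Adj u v) (m : L2 G) :
    rv D T u (rv D T v m) = rv D T v (rv D T u m) := by
  ext g
  have e1 : g * D.R u * D.R v = g * D.R v * D.R u := by rw [mul_assoc, D.cRR u v huv, mul_assoc]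
  have e2 : g * D.B u * D.B v = g * D.B v * D.B u := by rw [mul_assoc, D.cBB u v huv, mul_assoc]
  have e3 : g * D.R u * D.B v = g * D.B v * D.R u := by rw [mul_assoc, D.cRB u v huv, mul_assoc]
  have e4 : g * D.R v * D.B u = g * D.B u * D.R v := by
    rw [mul_assoc, D.cRB v u huv.symm, mul_assoc]
  rw [rv_apply, rv_apply, rv_apply, rv_apply, rv_apply, rv_apply, e1, e2, e3, e4]
  ring

private theorem inner_trl {b : G} (hb : b * b = 1) (m n : L2 G) :
    inner ℂ (trl b m) n = inner ℂ m (trl b n) := by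
  have h : n = trl b (trl b n) := by rw [trl_trl, hb, trl_one]
  conv_lhs => rw [h]
  exact (trl b).inner_map_map _ _

private theorem inner_rv (hT : ‖T‖ = 1) (v : V) (m n : L2 G) :
    inner ℂ (rv D T v m) n = inner ℂ m (rv D T v n) := by
  unfold rv
  rw [inner_add_left, inner_add_right, inner_smul_left, inner_smul_left, inner_smul_right,
    inner_smul_right, conj_al hT, conj_be hT, inner_trl (D.RR v), inner_trl (D.BB v)]

private theorem norm_rv (hT : ‖T‖ = 1) (v : V) (m : L2 G) (h : An D m) :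
    ‖rv D T v m‖ = ‖m‖ := by
  have hT0 : T ≠ 0 := by
    rintro rfl
    simp at hT
  have h1 : inner ℂ (rv D T v m) (rv D T v m) = inner ℂ m m := by
    rw [inner_rv D T hT, rv_rv D T hT0 v m h]
  rw [inner_self_eq_norm_sq_to_K, inner_self_eq_norm_sq_to_K] at h1
  have h2 : ‖rv D T v m‖ ^ 2 = ‖m‖ ^ 2 := by exact_mod_cast h1
  exact (sq_eq_sq₀ (norm_nonneg _) (norm_nonneg _)).1 h2

end

private theorem an_start (D : GD C Γ G) : An D (ee 1 - ee D.z : L2 G) := by
  intro g
  show (ee (1 : G) : L2 G) (g * D.z) - (ee D.z : L2 G) (g * D.z) =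
    - ((ee (1 : G) : L2 G) g - (ee D.z : L2 G) g)
  have hz1 : g * D.z = 1 ↔ g = D.z := by
    constructor
    · intro h
      have h1 : g * D.z * D.z = D.z := by rw [h, one_mul]
      rwa [mul_assoc, D.zz, mul_one] at h1
    · rintro rfl
      exact D.zz
  have hz2 : g * D.z = D.z ↔ g = 1 := by
    constructor
    · intro h
      exact mul_eq_right.1 h
    · rintro rfl
      exact one_mul _
  by_cases h1 : g = 1
  · subst h1
    rw [ee_apply_self, one_mul, ee_apply_self, ee_apply_ne D.z_ne, ee_apply_ne D.z_ne.symm]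
    ring
  · by_cases h2 : g = D.z
    · subst h2
      rw [D.zz, ee_apply_self, ee_apply_self, ee_apply_ne D.z_ne, ee_apply_ne D.z_ne.symm]
      ring
    · rw [ee_apply_ne (fun h => h2 (hz1.1 h)), ee_apply_ne (fun h => h1 (hz2.1 h)),
        ee_apply_ne h1, ee_apply_ne h2]
      ring

private theorem norm_start (D : GD C Γ G) : ‖(ee 1 - ee D.z : L2 G)‖ ^ 2 = 2 := by
  rw [@norm_sub_sq ℂ, norm_ee, norm_ee, inner_ee, ee_apply_ne D.z_ne.symm]
  norm_num

/-- **Harmonic chains give twisted harmonic chains.** -/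
theorem cover_end (hC : IsCAT0 C) (D : GD C Γ G) (ν : V → ℕ) (T : ℂ) (hT : ‖T‖ = 1) (i : ℕ)
    (d : L2 (Jx C × G) →L[ℂ] L2 (Jx C × G)) (hd : IsBd ν d) (N : ℕ)
    (hN : ∀ x, (C.lab x).card ≤ N) (f : Finset V → X → ℂ) (hf : IsChain C i f)
    (hz : bd C ν f = 0)
    (ho : ∀ y, IsChain C (i + 1) y →
      ∑' p : Finset V × X, (starRingEnd ℂ) (f p.1 p.2) * bd C ν y p.1 p.2 = 0)
    (σ₁ : Finset V) (x₁ : X) :
    ∃ F : L2 (Jx C × G), F ∈ Ch D T i ∧ d F = 0 ∧
      (∀ y ∈ Ch D T (i + 1), inner ℂ (d y) F = 0) ∧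
      ‖F‖ ^ 2 = 2 * ∑' p : Finset V × X, ‖f p.1 p.2‖ ^ 2 ∧ ev F σ₁ x₁ 1 = f σ₁ x₁ := by
  have hT0 : T ≠ 0 := by
    rintro rfl
    simp at hT
  -- the vectors `m_x`
  obtain ⟨m, hm1, hmP, hmr⟩ := exists_transport hC
    (fun m : L2 G => An D m ∧ ‖m‖ ^ 2 = 2) (fun v m => rv D T v m)
    (fun v a h => ⟨an_rv D T v a h.1, by rw [norm_rv D T hT v a h.1, h.2]⟩)
    (fun v a h => rv_rv D T hT0 v a h.1) (fun u v a huv _ => rv_comm D T huv a) x₁
    (ee 1 - ee D.z) ⟨an_start D, norm_start D⟩
  -- `f` vanishes outside `Jx`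
  have hf0 : ∀ σ x, ¬ σ ⊆ C.lab x → f σ x = 0 := by
    intro σ x h
    by_contra h0
    exact h (hf.supp σ x h0).1
  have hinj : Function.Injective (Subtype.val : Jx C → Finset V × X) := Subtype.val_injective
  -- the chain
  have hmS : ∀ x, HasSum (fun g => ‖m x g‖ ^ 2) 2 := by
    intro x
    have h1 := (hmP x).2
    rw [norm_sq_eq] at h1
    have h2 := (sum_sq (m x)).hasSum
    rwa [h1] at h2
  have hfS : Summable fun p : Jx C => ‖f p.1.1 p.1.2‖ ^ 2 := hf.l2.comp_injective hinj
  have hrow : ∀ p : Jx C, HasSum (fun g => ‖f p.1.1 p.1.2 * m p.1.2 g‖ ^ 2)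
      (‖f p.1.1 p.1.2‖ ^ 2 * 2) := by
    intro p
    have h := (hmS p.1.2).mul_left (‖f p.1.1 p.1.2‖ ^ 2)
    refine h.congr_fun fun g => ?_
    rw [norm_mul, mul_pow]
  have hFS : Summable fun s : Jx C × G => ‖f s.1.1.1 s.1.1.2 * m s.1.1.2 s.2‖ ^ 2 := by
    rw [summable_prod_of_nonneg (fun s => sq_nonneg _)]
    refine ⟨fun p => (hrow p).summable, ?_⟩
    refine (hfS.mul_right 2).congr fun p => ?_
    exact (hrow p).tsum_eq.symm
  let F : L2 (Jx C × G) := mk2 (fun s => f s.1.1.1 s.1.1.2 * m s.1.1.2 s.2) hFS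
  have hF : ∀ p g, F (p, g) = f p.1.1 p.1.2 * m p.1.2 g := fun p g => rfl
  have hFev : ∀ σ x g, ev F σ x g = f σ x * m x g := by
    intro σ x g
    by_cases h : σ ⊆ C.lab x
    · rw [ev_pos _ h]
      rfl
    · rw [ev_neg _ h, hf0 σ x h, zero_mul]
  refine ⟨F, ⟨?_, ?_, ?_⟩, ?_, ?_, ?_, ?_⟩
  · -- antisymmetry
    intro p g
    rw [hF, hF, (hmP _).1 g]
    ring
  · -- support
    intro p g h
    have h1 : f p.1.1 p.1.2 ≠ 0 := by
      intro h0
      apply h
      rw [hF, h0, zero_mul]
    exact (hf.supp _ _ h1).2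
  · -- twisted chain
    intro σ x hσ _ v hv g
    have h1 : ev F σ (C.nb v x) g = - (f σ x * rv D T v (m x) g) := by
      rw [hFev, hf.anti σ x hσ v hv, hmr v x (hσ hv)]
      ring
    have h2 := rv_two D T hT0 v (m x) g
    have h3 : Np D (ev F σ x) v g = f σ x * Np D (m x : G → ℂ) v g := by
      unfold Np
      rw [hFev, hFev]
      ring
    have h4 : Nm D (ev F σ x) v g = f σ x * Nm D (m x : G → ℂ) v g := by
      unfold Nm
      rw [hFev, hFev]
      ring
    rw [h1, h3, h4]
    linear_combination (- f σ x) * h2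
  · -- cycle
    ext s
    obtain ⟨⟨⟨τ, x⟩, hτ⟩, g⟩ := s
    have h1 := hd F τ x g
    rw [ev_pos _ hτ, if_pos hτ] at h1
    show (d F) (⟨(τ, x), hτ⟩, g) = 0
    rw [h1]
    have h2 : bd C ν f τ x = 0 := by
      rw [hz]
      rfl
    unfold bd at h2
    have h3 : ∑ v ∈ C.lab x \ τ, (sv ν v τ : ℂ) * ev F (insert v τ) x g =
        (∑ v ∈ C.lab x \ τ, (sv ν v τ : ℂ) * f (insert v τ) x) * m x g := by
      rw [Finset.sum_mul]
      refine Finset.sum_congr rfl fun v _ => ?_
      rw [hFev]
      ring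
    rw [h3, h2, zero_mul]
  · -- orthogonal to the boundaries
    intro y hy
    obtain ⟨hy1, hy2, hy3⟩ := hy
    have hyS := (summable_prod_of_nonneg (f := fun s : Jx C × G => ‖y s‖ ^ 2)
      (fun s => sq_nonneg _)).1 (sum_sq y)
    have hYS : ∀ σ x, Summable fun g => ‖ev y σ x g‖ ^ 2 := by
      intro σ x
      by_cases h : σ ⊆ C.lab x
      · refine (hyS.1 ⟨(σ, x), h⟩).congr fun g => ?_
        rw [ev_pos _ h]
      · refine summable_zero.congr fun g => ?_
        rw [ev_neg _ h]
        simp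
    let Y : Finset V → X → L2 G := fun σ x => mk2 (fun g => ev y σ x g) (hYS σ x)
    have hY : ∀ σ x g, Y σ x g = ev y σ x g := fun _ _ _ => rfl
    have hYan : ∀ σ x, An D (Y σ x) := by
      intro σ x g
      rw [hY, hY]
      by_cases h : σ ⊆ C.lab x
      · rw [ev_pos _ h, ev_pos _ h, hy1]
      · rw [ev_neg _ h, ev_neg _ h, neg_zero]
    have hYsupp : ∀ σ x, Y σ x ≠ 0 →
        σ ⊆ C.lab x ∧ C.graph.IsClique (σ : Set V) ∧ σ.card = i + 1 := by
      intro σ x h
      by_cases hσ : σ ⊆ C.lab x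
      · refine ⟨hσ, ?_⟩
        by_contra h0
        apply h
        ext g
        show ev y σ x g = 0
        rw [ev_pos _ hσ]
        by_contra h1
        exact h0 (hy2 _ g h1)
      · exfalso
        apply h
        ext g
        show ev y σ x g = 0
        rw [ev_neg _ hσ]
    have hYnb : ∀ σ x, σ ⊆ C.lab x → C.graph.IsClique (σ : Set V) → ∀ v ∈ σ,
        Y σ (C.nb v x) = - rv D T v (Y σ x) := by
      intro σ x hσ hc v hv
      ext g
      show ev y σ (C.nb v x) g = - (rv D T v (Y σ x) g)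
      have h1 := hy3 σ x hσ hc v hv g
      have h2 := rv_two D T hT0 v (Y σ x) g
      have h3 : Np D (Y σ x : G → ℂ) v g = Np D (ev y σ x) v g := rfl
      have h4 : Nm D (Y σ x : G → ℂ) v g = Nm D (ev y σ x) v g := rfl
      rw [h3, h4] at h2
      have h5 : (2 * T) * ev y σ (C.nb v x) g = (2 * T) * (- (rv D T v (Y σ x) g)) := by
        linear_combination h1 + h2
      exact mul_left_cancel₀ (mul_ne_zero two_ne_zero hT0) h5
    let y' : Finset V → X → ℂ := fun σ x => inner ℂ (m x) (Y σ x)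
    have hy' : ∀ σ x, y' σ x = inner ℂ (m x) (Y σ x) := fun _ _ => rfl
    have hy'0 : ∀ σ x, Y σ x = 0 → y' σ x = 0 := by
      intro σ x h
      rw [hy', h, inner_zero_right]
    have hchain : IsChain C (i + 1) y' := by
      refine ⟨fun σ x h => ?_, fun σ x hσ v hv => ?_, ?_⟩
      · exact hYsupp σ x fun h0 => h (hy'0 σ x h0)
      · by_cases hc : C.graph.IsClique (σ : Set V)
        · rw [hy', hy', hYnb σ x hσ hc v hv, hmr v x (hσ hv), inner_neg_right, inner_rv D T hT,
            rv_rv D T hT0 v _ (hYan σ x)]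
        · have h1 : ∀ x, Y σ x = 0 := by
            intro x
            by_contra h0
            exact hc (hYsupp σ x h0).2.1
          rw [hy'0 σ _ (h1 _), hy'0 σ _ (h1 _), neg_zero]
      · have h1 : Summable fun p : Finset V × X => ‖Y p.1 p.2‖ ^ 2 := by
          rw [← hinj.summable_iff]
          · refine hyS.2.congr fun p => ?_
            rw [Function.comp, norm_sq_eq]
            refine tsum_congr fun g => ?_
            rw [hY, ev_pos _ p.2]
          · intro p hp
            have h2 : Y p.1 p.2 = 0 := by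
              by_contra h0
              exact hp ⟨⟨p, (hYsupp _ _ h0).1⟩, rfl⟩
            rw [h2]
            simp
        refine Summable.of_nonneg_of_le (fun p => sq_nonneg _) (fun p => ?_) (h1.mul_left 2)
        rw [hy', ← (hmP p.2).2, ← mul_pow]
        exact pow_le_pow_left₀ (norm_nonneg _) (norm_inner_le_norm _ _) 2
    have hend := ho y' hchain
    -- the scalar product
    have hin := lp.hasSum_inner (𝕜 := ℂ) (G := fun _ : Jx C × G => ℂ) (d y) F
    rw [← hin.tsum_eq, hin.summable.tsum_prod]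
    have hp : ∀ p : Jx C, ∑' g, inner ℂ ((d y) (p, g)) (F (p, g)) =
        (starRingEnd ℂ) ((starRingEnd ℂ) (f p.1.1 p.1.2) * bd C ν y' p.1.1 p.1.2) := by
      rintro ⟨⟨τ, x⟩, hτ⟩
      have h1 : bd C ν y' τ x =
          inner ℂ (m x) (∑ v ∈ C.lab x \ τ, (sv ν v τ : ℂ) • Y (insert v τ) x) := by
        unfold bd
        rw [inner_sum]
        refine Finset.sum_congr rfl fun v _ => ?_
        rw [inner_smul_right]
      have h2 : ∀ g, (d y) (⟨(τ, x), hτ⟩, g) =
          (∑ v ∈ C.lab x \ τ, (sv ν v τ : ℂ) • Y (insert v τ) x : L2 G) g := by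
        intro g
        have h3 := hd y τ x g
        rw [ev_pos _ hτ, if_pos hτ] at h3
        rw [h3, lp.coeFn_sum, Finset.sum_apply]
        refine Finset.sum_congr rfl fun v _ => ?_
        show _ = (sv ν v τ : ℂ) * Y (insert v τ) x g
        rw [hY]
      have h4 := (lp.hasSum_inner (𝕜 := ℂ) (G := fun _ : G => ℂ) (m x)
        (∑ v ∈ C.lab x \ τ, (sv ν v τ : ℂ) • Y (insert v τ) x)).tsum_eq
      show _ = (starRingEnd ℂ) ((starRingEnd ℂ) (f τ x) * bd C ν y' τ x)
      rw [h1, ← h4, map_mul, Complex.conj_conj, Complex.conj_tsum, ← tsum_mul_left]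
      refine tsum_congr fun g => ?_
      rw [h2, hF]
      simp only [RCLike.inner_apply, map_mul, Complex.conj_conj]
      ring
    rw [tsum_congr hp, ← Complex.conj_tsum]
    have h6 : ∑' p : Jx C, (starRingEnd ℂ) (f p.1.1 p.1.2) * bd C ν y' p.1.1 p.1.2 = 0 := by
      rw [← hend]
      refine hinj.tsum_eq
        (f := fun p : Finset V × X => (starRingEnd ℂ) (f p.1 p.2) * bd C ν y' p.1 p.2)
        fun p hp => ?_
      refine ⟨⟨p, ?_⟩, rfl⟩
      by_contra h0
      apply hp
      show (starRingEnd ℂ) (f p.1 p.2) * bd C ν y' p.1 p.2 = 0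
      rw [hf0 _ _ h0, map_zero, zero_mul]
    rw [h6, map_zero]
  · -- norm
    have e1 : ‖F‖ ^ 2 = ∑' s : Jx C × G, ‖f s.1.1.1 s.1.1.2 * m s.1.1.2 s.2‖ ^ 2 := norm_sq_eq F
    rw [e1, hFS.tsum_prod, tsum_congr (fun p => (hrow p).tsum_eq), tsum_mul_right, mul_comm]
    congr 1
    refine hinj.tsum_eq (f := fun p : Finset V × X => ‖f p.1 p.2‖ ^ 2) fun p hp => ?_
    refine ⟨⟨p, ?_⟩, rfl⟩
    by_contra h0
    apply hp
    show ‖f p.1 p.2‖ ^ 2 = 0
    rw [hf0 _ _ h0]
    simp
  · rw [hFev, hm1]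
    show f σ₁ x₁ * ((ee (1 : G) : L2 G) 1 - (ee D.z : L2 G) 1) = f σ₁ x₁
    rw [ee_apply_self, ee_apply_ne D.z_ne.symm, sub_zero, mul_one]

end Pool.Agent.H19.LI

end

section

/-!
# Singer project, part three: the growth on `W` depends only on the graph on `W`
-/

set_option autoImplicit false
set_option linter.unusedSectionVars false

open Finset

namespace Pool.Agent.H4.Singer3

variable {V : Type} [DecidableEq V] [Fintype V]

/-- the free abelian generators -/
def cubeGen (G : SimpleGraph V) : Gen G (V → Multiplicative (ZMod 2)) where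
  g v := Pi.mulSingle v (Multiplicative.ofAdd 1)
  sq v := by
    rw [← Pi.mulSingle_mul]
    have : (Multiplicative.ofAdd 1 * Multiplicative.ofAdd 1 : Multiplicative (ZMod 2)) = 1 := by
      decide
    rw [this, Pi.mulSingle_one]
  comm u v _ := mul_comm _ _
  bit p v := decide (p v ≠ 1)
  bit_mul p v := by
    have hc : ∀ c : Multiplicative (ZMod 2), decide (c * Multiplicative.ofAdd 1 ≠ 1) =
        !decide (c ≠ 1) := by decide
    funext x
    by_cases h : x = v
    · subst h
      rw [Function.update_self, Pi.mul_apply, Pi.mulSingle_eq_same, hc]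
    · rw [Function.update_of_ne h, Pi.mul_apply, Pi.mulSingle_eq_of_ne h, mul_one]

theorem isPGroup_cube : IsPGroup 2 (V → Multiplicative (ZMod 2)) := by
  intro a
  refine ⟨1, ?_⟩
  funext v
  rw [pow_one, Pi.pow_apply, Pi.one_apply]
  have h : ∀ b : Multiplicative (ZMod 2), b ^ 2 = 1 := by decide
  exact h _

theorem isPGroup_prod {A B : Type} [Group A] [Group B] (hA : IsPGroup 2 A) (hB : IsPGroup 2 B) :
    IsPGroup 2 (A × B) := by
  rintro ⟨a, b⟩
  obtain ⟨k1, hk1⟩ := hA a
  obtain ⟨k2, hk2⟩ := hB b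
  refine ⟨k1 + k2, ?_⟩
  rw [Prod.pow_mk, pow_add, pow_mul, hk1, one_pow, mul_comm, pow_mul, hk2, one_pow]
  rfl

end Pool.Agent.H4.Singer3

end

section

/-!
# Project SR, modules T4, T6a: links of spheres, change of the vertex set
-/

set_option autoImplicit false
set_option linter.unusedSectionVars false

open Finset

namespace Pool.Agent.H19.SR

open Pool.Agent.H73.GC

/-! ### Links -/

section Link

variable {V : Type} [DecidableEq V] [Fintype V] (G : SimpleGraph V) (t : Finset V)

end Link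

/-! ### Change of the vertex set -/

section Map

variable {V' V : Type} [Fintype V'] [DecidableEq V'] [DecidableEq V] [Fintype V] (e : V' ↪ V)
variable {Y : Type} [AddCommGroup Y] [Module F2 Y]

open Classical in
/-- the operators on the new vertex set -/
private noncomputable def Mop (d : Module.End F2 Y) (r : V' → Module.End F2 Y) (v : V) :
    Module.End F2 Y :=
  if h : ∃ u, e u = v then r h.choose else d

private theorem Mop_e (d : Module.End F2 Y) (r : V' → Module.End F2 Y) (u : V') :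
    Mop e d r (e u) = r u := by
  unfold Mop
  have h : ∃ u', e u' = e u := ⟨u, rfl⟩
  rw [dif_pos h]
  congr 1
  exact e.injective h.choose_spec

/-- the chains on the new vertex set -/
private noncomputable def Mex : (Finset V' → Y) →ₗ[F2] (Finset V → Y) where
  toFun f σ := if σ ⊆ univ.map e then f (univ.filter fun u => e u ∈ σ) else 0
  map_add' f g := by
    funext σ
    simp only [Pi.add_apply]
    split_ifs <;> simp
  map_smul' c f := by
    funext σ
    simp only [Pi.smul_apply, RingHom.id_apply]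
    split_ifs <;> simp

private theorem Mex_apply (f : Finset V' → Y) (σ : Finset V) :
    Mex e f σ = if σ ⊆ univ.map e then f (univ.filter fun u => e u ∈ σ) else 0 := rfl

private theorem Mfil (τ : Finset V') : (univ.filter fun u => e u ∈ τ.map e) = τ := by
  ext u
  simp

private theorem Mex_map (f : Finset V' → Y) (τ : Finset V') : Mex e f (τ.map e) = f τ := by
  rw [Mex_apply, if_pos (map_subset_map.2 (subset_univ _)), Mfil]

private theorem Mmap {σ : Finset V} (h : σ ⊆ univ.map e) :
    (univ.filter fun u => e u ∈ σ).map e = σ := by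
  ext v
  simp only [mem_map, mem_filter, mem_univ, true_and]
  constructor
  · rintro ⟨u, hu, rfl⟩
    exact hu
  · intro hv
    obtain ⟨u, -, rfl⟩ := mem_map.1 (h hv)
    exact ⟨u, hv, rfl⟩

private theorem Mex_inj : Function.Injective (Mex e : (Finset V' → Y) →ₗ[F2] (Finset V → Y)) := by
  intro f g h
  funext τ
  rw [← Mex_map e f, h, Mex_map]

private theorem Mex_dd (f : Finset V' → Y) : dd (Mex e f) = Mex e (dd f) := by
  funext σ
  rw [dd_apply]
  by_cases hσ : σ ⊆ univ.map e
  · rw [← Mmap e hσ, Mex_map, dd_apply]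
    generalize (univ.filter fun u => e u ∈ σ) = τ
    symm
    refine sum_bij_ne_zero (fun u _ _ => e u) ?_ ?_ ?_ ?_
    · intro u hu _
      rw [mem_compl] at hu ⊢
      intro h
      obtain ⟨u', hu', h'⟩ := mem_map.1 h
      exact hu (e.injective h' ▸ hu')
    · intro u _ _ u' _ _ h
      exact e.injective h
    · intro v hv hne
      rw [Mex_apply] at hne
      split_ifs at hne with h1
      · obtain ⟨u, -, rfl⟩ := mem_map.1 (h1 (mem_insert_self _ _))
        refine ⟨u, ?_, ?_, rfl⟩
        · rw [mem_compl] at hv ⊢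
          intro h
          exact hv (mem_map_of_mem _ h)
        · rw [← map_insert, Mfil] at hne
          exact hne
      · exact absurd rfl hne
    · intro u _ _
      rw [← map_insert, Mex_map]
  · rw [Mex_apply, if_neg hσ]
    refine sum_eq_zero fun v _ => ?_
    rw [Mex_apply, if_neg fun h => hσ ((subset_insert _ _).trans h)]

private theorem Mcq {G : SimpleGraph V} {U : Finset V'} {τ : Finset V'} :
    Cq G (U.map e) (τ.map e) ↔ Cq (G.comap e) U τ := by
  unfold Cq
  refine and_congr ?_ map_subset_map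
  constructor
  · intro h a ha b hb hab
    exact h (mem_coe.2 (mem_map_of_mem _ (mem_coe.1 ha)))
      (mem_coe.2 (mem_map_of_mem _ (mem_coe.1 hb))) fun hc => hab (e.injective hc)
  · intro h a ha b hb hab
    obtain ⟨a', ha', rfl⟩ := mem_map.1 (mem_coe.1 ha)
    obtain ⟨b', hb', rfl⟩ := mem_map.1 (mem_coe.1 hb)
    exact h (mem_coe.2 ha') (mem_coe.2 hb') fun hc => hab (congrArg e hc)

private theorem Mch {G : SimpleGraph V} {U : Finset V'} (d : Module.End F2 Y)
    (r : V' → Module.End F2 Y) (j : ℕ) :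
    (Ch (Sy (Cq (G.comap e) U) r) j).map (Mex e) =
      Ch (Sy (Cq G (U.map e)) (Mop e d r)) j := by
  ext g
  constructor
  · rintro ⟨f, hf, rfl⟩
    refine mem_Ch.2 fun σ => ?_
    by_cases hσ : σ ⊆ univ.map e
    · rw [← Mmap e hσ, Mex_map]
      generalize (univ.filter fun u => e u ∈ σ) = τ
      obtain ⟨h1, h2⟩ := mem_Ch.1 hf τ
      refine ⟨mem_Sy.2 ⟨fun hn => h1.1 fun h' => hn ((Mcq e).2 h'), fun v hv => ?_⟩, fun hn => ?_⟩
      · obtain ⟨u, hu, rfl⟩ := mem_map.1 hv
        rw [Mop_e]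
        exact h1.2 u hu
      · rw [card_map] at hn
        exact h2 hn
    · rw [Mex_apply, if_neg hσ]
      exact ⟨Submodule.zero_mem _, fun _ => rfl⟩
  · intro hg
    refine ⟨fun τ => g (τ.map e), mem_Ch.2 fun τ => ?_, ?_⟩
    · obtain ⟨h1, h2⟩ := mem_Ch.1 hg (τ.map e)
      refine ⟨mem_Sy.2 ⟨fun hn => h1.1 fun h' => hn ((Mcq e).1 h'), fun u hu => ?_⟩, fun hn => ?_⟩
      · have h3 := h1.2 (e u) (mem_map_of_mem _ hu)
        rw [Mop_e] at h3
        exact h3
      · exact h2 (by rwa [card_map])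
    · funext σ
      by_cases hσ : σ ⊆ univ.map e
      · rw [← Mmap e hσ, Mex_map]
      · rw [Mex_apply, if_neg hσ]
        symm
        refine (mem_Ch.1 hg σ).1.1 fun h => hσ ?_
        exact h.2.trans (map_subset_map.2 (subset_univ _))

end Map

/-- **Change of the vertex set**: `r' v = r u` if `v = e u`, and `id` for the other vertices (`E' v = E u`, `0`);
the chains correspond to each other by `Finset.map e`. -/
theorem gz_map {V' V : Type} [DecidableEq V'] [Fintype V'] [DecidableEq V] [Fintype V] (e : V' ↪ V)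
    (G : SimpleGraph V) (U : Finset V') {i : ℕ} (h : GZ (G.comap e) U i) : GZ G (U.map e) i := by
  intro ε hε
  obtain ⟨Y, _, _, _, r, E, hN, hB, hpos, hbd⟩ := h ε hε
  refine ⟨Y, inferInstance, inferInstance, inferInstance, Mop e LinearMap.id r, Mop e 0 E,
    ⟨?_, ?_, ?_⟩, ⟨?_, ?_, ?_, ?_⟩, hpos, ?_⟩
  · intro v hv y
    obtain ⟨u, hu, rfl⟩ := mem_map.1 hv
    rw [Mop_e]
    exact hN.sq u hu y
  · intro v hv w hw hvw y
    obtain ⟨u, hu, rfl⟩ := mem_map.1 hv
    obtain ⟨x, hx, rfl⟩ := mem_map.1 hw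
    rw [Mop_e, Mop_e]
    exact hN.comm u hu x hx hvw y
  · obtain ⟨m, F, h1, h2, h3, h4⟩ := hN.fil
    refine ⟨m, F, h1, h2, h3, fun j v hv y hy => ?_⟩
    obtain ⟨u, hu, rfl⟩ := mem_map.1 hv
    rw [Mop_e]
    exact h4 j u hu y hy
  · intro v hv y
    obtain ⟨u, hu, rfl⟩ := mem_map.1 hv
    rw [Mop_e]
    exact hB.idem u hu y
  · intro v hv y
    obtain ⟨u, hu, rfl⟩ := mem_map.1 hv
    rw [Mop_e, Mop_e]
    exact hB.bit u hu y
  · intro v hv w hw hvw y
    obtain ⟨u, hu, rfl⟩ := mem_map.1 hv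
    obtain ⟨x, hx, rfl⟩ := mem_map.1 hw
    rw [Mop_e, Mop_e]
    exact hB.er u hu x hx hvw y
  · intro v hv w hw hvw y
    obtain ⟨u, hu, rfl⟩ := mem_map.1 hv
    obtain ⟨x, hx, rfl⟩ := mem_map.1 hw
    rw [Mop_e, Mop_e]
    exact hB.ee u hu x hx hvw y
  · have h1 : hX (Cq G (U.map e)) (Mop e LinearMap.id r) i = hX (Cq (G.comap e) U) r i := by
      have hk : (Ch (Sy (Cq (G.comap e) U) r) i ⊓ LinearMap.ker dd :
          Submodule F2 (Finset V' → Y)).map (Mex e) =
            (Ch (Sy (Cq G (U.map e)) (Mop e LinearMap.id r)) i ⊓ LinearMap.ker dd :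
              Submodule F2 (Finset V → Y)) := by
        rw [← Mch e LinearMap.id r i]
        ext g
        constructor
        · rintro ⟨f, ⟨h1, h2⟩, rfl⟩
          refine ⟨⟨f, h1, rfl⟩, ?_⟩
          change dd (Mex e f) = 0
          have h3 : dd f = 0 := h2
          rw [Mex_dd, h3, map_zero]
        · rintro ⟨⟨f, h1, rfl⟩, h2⟩
          have h3 : dd (Mex e f) = 0 := h2
          rw [Mex_dd] at h3
          exact ⟨f, ⟨h1, Mex_inj e (h3.trans (map_zero _).symm)⟩, rfl⟩
      have hm : ((Ch (Sy (Cq (G.comap e) U) r) (i + 1)).map dd).map (Mex e) =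
          (Ch (Sy (Cq G (U.map e)) (Mop e LinearMap.id r)) (i + 1)).map dd := by
        rw [← Mch e LinearMap.id r (i + 1)]
        ext g
        simp only [Submodule.mem_map]
        constructor
        · rintro ⟨_, ⟨f, h1, rfl⟩, rfl⟩
          exact ⟨_, ⟨f, h1, rfl⟩, Mex_dd e f⟩
        · rintro ⟨_, ⟨f, h1, rfl⟩, rfl⟩
          exact ⟨_, ⟨f, h1, rfl⟩, (Mex_dd e f).symm⟩
      unfold hX hd hx
      rw [← hk, ← hm, ← (Submodule.equivMapOfInjective _ (Mex_inj e) _).finrank_eq,
        ← (Submodule.equivMapOfInjective _ (Mex_inj e) _).finrank_eq]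
    rw [h1]
    exact hbd

end Pool.Agent.H19.SR

end

section

/-!
# Singer without colours for Coxeter groups of FC type: generic parameters
-/

set_option autoImplicit false
set_option linter.unusedSectionVars false

open Finset

namespace Pool.Agent.H77.SX

open Pool.Agent.H77.SW

variable {V : Type} [DecidableEq V] [Fintype V] {K : Type} [Field K]

/-- **Generic parameters.** `I = Σ v : V, P ⧸ Subgroup.closure (g '' {u | G.Adj v u})`,
`ι v p = ⟨v, p⟩`, `τ i = X.x (Fintype.equivFin I i)`. If `p`, `p'` have the same cosets for all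
`v ∈ s` then `p⁻¹ * p' = 1` by `hgood`. So the products of the `τ (ι v p)` over `s` are pairwise
different squarefree monomials. (Compare `Pool.Agent.H77.SW.Gen`.) -/
theorem exists_gen (X : GenSeq K) (G : SimpleGraph V) {P : Type} [Group P] [Fintype P]
    (g : V → P) (s : Finset V)
    (hgood : ∀ x : P, (∀ v ∈ s, x ∈ Subgroup.closure (g '' {u | G.Adj v u})) → x = 1) :
    ∃ (I : Type) (_ : Fintype I) (_ : DecidableEq I) (ι : V → P → I) (τ : I → K),
      (∀ v u, G.Adj v u → ∀ p, ι v (p * g u) = ι v p) ∧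
      ∀ c : P → K, ∑ p, (∏ v ∈ s, τ (ι v p)) * c p ^ 2 = 0 → c = 0 := by
  classical
  obtain ⟨H, hH⟩ : ∃ H : V → Subgroup P, ∀ v, H v =
      Subgroup.closure (g '' {u | G.Adj v u}) := ⟨_, fun _ => rfl⟩
  have hI : Fintype (Σ v : V, P ⧸ H v) := by
    have : ∀ v, Fintype (P ⧸ H v) := fun v => Fintype.ofFinite _
    infer_instance
  obtain ⟨e⟩ : Nonempty ((Σ v : V, P ⧸ H v) ≃ Fin (Fintype.card (Σ v : V, P ⧸ H v))) :=
    ⟨Fintype.equivFin _⟩
  obtain ⟨ι, hι⟩ : ∃ ι : V → P → (Σ v : V, P ⧸ H v), ∀ v p, ι v p = ⟨v, (p : P ⧸ H v)⟩ :=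
    ⟨fun v p => ⟨v, (p : P ⧸ H v)⟩, fun _ _ => rfl⟩
  refine ⟨(Σ v : V, P ⧸ H v), hI, Classical.decEq _, ι, fun i => X.x (e i).val, ?_, ?_⟩
  · intro v u hu p
    rw [hι, hι]
    congr 1
    rw [QuotientGroup.eq, mul_inv_rev, mul_assoc, inv_mul_cancel, mul_one, hH]
    exact Subgroup.inv_mem _ (Subgroup.subset_closure ⟨u, hu, rfl⟩)
  · intro c hsum
    -- the monomial of `p`
    obtain ⟨M, hM⟩ : ∃ M : P → Finset ℕ, ∀ p, M p = s.image fun v => (e (ι v p)).val :=
      ⟨fun p => s.image fun v => (e (ι v p)).val, fun _ => rfl⟩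
    have hinj1 : ∀ v w p q, (e (ι v p)).val = (e (ι w q)).val → v = w ∧
        p⁻¹ * q ∈ H v := by
      intro v w p q h
      have h1 : ι v p = ι w q := e.injective (Fin.val_injective h)
      rw [hι, hι] at h1
      have h2 : v = w := congrArg Sigma.fst h1
      subst h2
      refine ⟨rfl, ?_⟩
      have h3 : (p : P ⧸ H v) = (q : P ⧸ H v) := eq_of_heq (Sigma.mk.inj h1).2
      exact QuotientGroup.eq.1 h3
    have hprod : ∀ p, ∏ v ∈ s, X.x (e (ι v p)).val = ∏ i ∈ M p, X.x i := by
      intro p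
      rw [hM, prod_image]
      intro v _ w _ h
      exact (hinj1 v w p p h).1
    have hinj : Function.Injective M := by
      intro p q hpq
      have h1 : p⁻¹ * q = 1 := by
        refine hgood _ fun v hv => ?_
        have h2 : (e (ι v p)).val ∈ M q := by
          rw [← hpq, hM]
          exact mem_image_of_mem _ hv
        rw [hM, mem_image] at h2
        obtain ⟨w, _, hw⟩ := h2
        obtain ⟨h3, h4⟩ := hinj1 v w p q hw.symm
        rw [← hH]
        exact h4
      exact inv_mul_eq_one.1 h1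
    obtain ⟨c', hc'⟩ : ∃ c' : Finset ℕ → K, ∀ p, c' (M p) = c p := by
      refine ⟨fun S => if h : ∃ p, M p = S then c h.choose else 0, fun p => ?_⟩
      have hex : ∃ q, M q = M p := ⟨p, rfl⟩
      show (if h : ∃ q, M q = M p then c h.choose else 0) = c p
      rw [dif_pos hex]
      exact congrArg c (hinj hex.choose_spec)
    have hsum' : ∑ S ∈ (univ : Finset P).image M, (∏ i ∈ S, X.x i) * c' S ^ 2 = 0 := by
      rw [sum_image (fun p _ q _ h => hinj h), ← hsum]
      exact sum_congr rfl fun p _ => by rw [hc' p, hprod]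
    have hz := X.indep ((univ : Finset P).image M) c' hsum'
    funext p
    rw [← hc' p]
    exact hz _ (mem_image_of_mem _ (mem_univ p))

end Pool.Agent.H77.SX

end

section

/-!
# Singer without colours for Coxeter groups of FC type: comparison of the Betti numbers
-/

set_option autoImplicit false
set_option linter.unusedSectionVars false

open Finset

namespace Pool.Agent.H77.SX

open Pool.Agent.H77.SW

open Pool.Agent.H85.Fold Pool.Agent.H85.Fold2

variable {V : Type} [DecidableEq V] [Fintype V] {K : Type} [Field K] [CharP K 2]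

open Pool.Agent.H4.Singer (sg rank_int_le)

/-- the sign -/
private def Cmp_e {P : Type} (e : P → ZMod 2) (p : P) : ℤ := if e p = 0 then 1 else -1

private theorem Cmp_e_mul {P : Type} [Group P] (e : P → ZMod 2)
    (he : ∀ p q, e (p * q) = e p + e q) {x : P} (hx : e x = 1) (p : P) :
    Cmp_e e (p * x) = - Cmp_e e p := by
  unfold Cmp_e
  rw [he, hx]
  generalize e p = y
  revert y
  decide

private theorem Cmp_e_sq {P : Type} (e : P → ZMod 2) (p : P) : Cmp_e e p * Cmp_e e p = 1 := by
  unfold Cmp_e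
  split_ifs <;> norm_num

private theorem Cmp_e_two {P : Type} (e : P → ZMod 2) (p : P) : (Cmp_e e p : K) = 1 := by
  unfold Cmp_e
  split_ifs
  · simp
  · rw [Int.cast_neg, Int.cast_one, CharTwo.neg_eq]

/-- the subgroup of a facet -/
private def Cmp_H {P : Type} [Group P] (g : V → P) (σ : Finset V) : Subgroup P :=
  Subgroup.closure (g '' (σ : Set V))

/-- the cells of top dimension -/
private abbrev Cmp_I (G : SimpleGraph V) (k : ℕ) {P : Type} [Group P] (g : V → P) : Type :=
  Σ σ : {σ : Finset V // G.IsClique (σ : Set V) ∧ σ.card = k + 1}, P ⧸ Cmp_H g σ.1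

private noncomputable instance Cmp_ft (G : SimpleGraph V) (k : ℕ) {P : Type} [Group P] [Fintype P]
    (g : V → P) : Fintype (Cmp_I G k g) := Fintype.ofFinite _

open Classical in
private noncomputable def Cmp_xt {G : SimpleGraph V} {k : ℕ} {P : Type} [Group P] {g : V → P}
    {F : Type} [Zero F] (x : Cmp_I G k g → F) (σ : Finset V) (p : P) : F :=
  if h : G.IsClique (σ : Set V) ∧ σ.card = k + 1 then x ⟨⟨σ, h⟩, (p : P ⧸ Cmp_H g σ)⟩ else 0

open Classical in
private noncomputable def Cmp_D (G : SimpleGraph V) (k : ℕ) {P : Type} [Group P] (g : V → P)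
    (e : P → ZMod 2) (ν : V → ℕ) : Matrix (Finset V × P) (Cmp_I G k g) ℤ := fun q c =>
  ∑ v ∈ q.1ᶜ, sg ν v q.1 *
    (if insert v q.1 = c.1.1 ∧ (q.2 : P ⧸ Cmp_H g c.1.1) = c.2 then Cmp_e e q.2 else 0)

open Classical in
private theorem Cmp_single {G : SimpleGraph V} {k : ℕ} {P : Type} [Group P] [Fintype P] {g : V → P}
    {F : Type} [Field F] (x : Cmp_I G k g → F) (σ : Finset V) (p : P) (a : ℤ) :
    ∑ c : Cmp_I G k g, ((if σ = c.1.1 ∧ (p : P ⧸ Cmp_H g c.1.1) = c.2 then a else 0 : ℤ) : F) *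
      x c = (a : F) * Cmp_xt x σ p := by
  unfold Cmp_xt
  by_cases h : G.IsClique (σ : Set V) ∧ σ.card = k + 1
  · rw [dif_pos h, Finset.sum_eq_single (⟨⟨σ, h⟩, (p : P ⧸ Cmp_H g σ)⟩ : Cmp_I G k g)]
    · rw [if_pos ⟨rfl, rfl⟩]
    · rintro ⟨⟨σ', h'⟩, c⟩ _ hne
      rw [if_neg, Int.cast_zero, zero_mul]
      rintro ⟨h1, h2⟩
      dsimp only at h1 h2
      subst h1
      subst h2
      exact hne rfl
    · intro h1
      exact absurd (Finset.mem_univ _) h1
  · rw [dif_neg h, mul_zero]
    refine Finset.sum_eq_zero ?_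
    rintro ⟨⟨σ', h'⟩, c⟩ _
    rw [if_neg, Int.cast_zero, zero_mul]
    rintro ⟨h1, -⟩
    dsimp only at h1
    subst h1
    exact h h'

private theorem Cmp_mulVec (G : SimpleGraph V) (k : ℕ) {P : Type} [Group P] [Fintype P]
    (g : V → P) (e : P → ZMod 2) (ν : V → ℕ) {F : Type} [Field F] (x : Cmp_I G k g → F)
    (τ : Finset V) (p : P) :
    (((Cmp_D G k g e ν).map (Int.cast : ℤ → F)).mulVec x) (τ, p) =
      ∑ v ∈ τᶜ, (sg ν v τ : F) * ((Cmp_e e p : F) * Cmp_xt x (insert v τ) p) := by
  simp only [Matrix.mulVec, dotProduct, Matrix.map_apply, Cmp_D, Int.cast_sum, Int.cast_mul,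
    Finset.sum_mul]
  rw [Finset.sum_comm]
  refine Finset.sum_congr rfl fun v _ => ?_
  rw [← Cmp_single x (insert v τ) p (Cmp_e e p), Finset.mul_sum]
  refine Finset.sum_congr rfl fun c _ => ?_
  rw [mul_assoc]

private theorem Cmp_ker (G : SimpleGraph V) (k : ℕ) {P : Type} [Group P] [Fintype P]
    (g : V → P) (e : P → ZMod 2) (ν : V → ℕ) (F : Type) [Field F] :
    Module.finrank F (LinearMap.ker ((Cmp_D G k g e ν).map (Int.cast : ℤ → F)).mulVecLin) +
      ((Cmp_D G k g e ν).map (Int.cast : ℤ → F)).rank = Fintype.card (Cmp_I G k g) := by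
  have h := LinearMap.finrank_range_add_finrank_ker
    ((Cmp_D G k g e ν).map (Int.cast : ℤ → F)).mulVecLin
  rw [Module.finrank_fintype_fun_eq_card] at h
  rw [add_comm]
  exact h

private theorem Cmp_up (G : SimpleGraph V) (k : ℕ) {P : Type} [Group P] [Fintype P]
    (g : V → P) (e : P → ZMod 2) (ν : V → ℕ) :
    Module.finrank K (LinearMap.ker ((Cmp_D G k g e ν).map (Int.cast : ℤ → K)).mulVecLin) ≤
      dG K G (k + 1) g := by
  let Φ : (Cmp_I G k g → K) →ₗ[K] (Finset V → P → K) :=
    { toFun := fun x => Cmp_xt x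
      map_add' := fun x y => by
        funext σ p
        simp only [Cmp_xt, Pi.add_apply]
        split_ifs <;> simp
      map_smul' := fun a x => by
        funext σ p
        simp only [Cmp_xt, Pi.smul_apply, RingHom.id_apply]
        split_ifs <;> simp }
  have hΦ : ∀ x σ p, Φ x σ p = Cmp_xt x σ p := fun _ _ _ => rfl
  have hinj : Function.Injective Φ := by
    intro x y hxy
    funext c
    obtain ⟨⟨σ, h⟩, c⟩ := c
    obtain ⟨p, rfl⟩ := QuotientGroup.mk_surjective c
    have h1 : Φ x σ p = Φ y σ p := by rw [hxy]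
    rw [hΦ, hΦ] at h1
    unfold Cmp_xt at h1
    rw [dif_pos h, dif_pos h] at h1
    exact h1
  have hmem : ∀ x : LinearMap.ker ((Cmp_D G k g e ν).map (Int.cast : ℤ → K)).mulVecLin,
      (Φ.domRestrict _) x ∈ Zs K G (k + 1) (rG K g) := by
    rintro ⟨x, hx⟩
    rw [LinearMap.mem_ker, Matrix.mulVecLin_apply] at hx
    show Φ x ∈ Zs K G (k + 1) (rG K g)
    rw [mem_Zs]
    refine ⟨fun σ h => ?_, fun σ v hv => ?_, fun κ => ?_⟩
    · by_contra hc
      apply h
      funext p
      rw [hΦ]
      unfold Cmp_xt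
      rw [dif_neg hc]
      rfl
    · funext p
      show Φ x σ (p * g v) = Φ x σ p
      rw [hΦ, hΦ]
      unfold Cmp_xt
      have h1 : ((p * g v : P) : P ⧸ Cmp_H g σ) = (p : P ⧸ Cmp_H g σ) := by
        rw [QuotientGroup.mk_mul_of_mem]
        exact Subgroup.subset_closure ⟨v, hv, rfl⟩
      rw [h1]
    · funext p
      have h1 := congrFun hx (κ, p)
      rw [Cmp_mulVec] at h1
      rw [Finset.sum_apply]
      refine Eq.trans ?_ h1
      refine Finset.sum_congr rfl fun v _ => ?_
      have h5 : (sg ν v κ : K) = 1 := by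
        unfold sg
        rw [Int.cast_pow, Int.cast_neg, Int.cast_one, CharTwo.neg_eq, one_pow]
      rw [h5, Cmp_e_two, one_mul, one_mul]
      rfl
  unfold dG
  refine LinearMap.finrank_le_finrank_of_injective
    (f := LinearMap.codRestrict (Zs K G (k + 1) (rG K g)) (Φ.domRestrict _) hmem) ?_
  intro x y hxy
  have h1 := congrArg Subtype.val hxy
  exact Subtype.ext (hinj h1)

private theorem Cmp_inv {P : Type} [Group P] (g : V → P) (e : P → ZMod 2)
    (he : ∀ p q, e (p * q) = e p + e q) (heg : ∀ v, e (g v) = 1) {σ : Finset V}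
    {f : P → ℂ} (hf : ∀ v ∈ σ, ∀ p, f (p * g v) = - f p) {h : P} (hh : h ∈ Cmp_H g σ) :
    ∀ p, (Cmp_e e (p * h) : ℂ) * f (p * h) = (Cmp_e e p : ℂ) * f p := by
  unfold Cmp_H at hh
  induction hh using Subgroup.closure_induction with
  | mem x hx =>
    obtain ⟨v, hv, rfl⟩ := hx
    intro p
    rw [hf v hv, Cmp_e_mul e he (heg v)]
    push_cast
    ring
  | one => intro p; rw [mul_one]
  | mul x y _ _ hx hy =>
    intro p
    rw [← mul_assoc, hy (p * x), hx p]
  | inv x _ hx =>
    intro p
    have h1 := hx (p * x⁻¹)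
    rw [inv_mul_cancel_right] at h1
    exact h1.symm

private theorem Cmp_low (G : SimpleGraph V) (k : ℕ) {P : Type} [Group P] [Fintype P]
    (g : V → P) (e : P → ZMod 2) (he : ∀ p q, e (p * q) = e p + e q)
    (heg : ∀ v, e (g v) = 1) (ν : V → ℕ) :
    Module.finrank ℂ (YZ ℂ G univ (fun _ => (1 : Matrix Unit Unit ℂ)) (fun v x => x * g v) ν
      (k + 1)) ≤
    Module.finrank ℂ (LinearMap.ker ((Cmp_D G k g e ν).map (Int.cast : ℤ → ℂ)).mulVecLin) := by
  let Ψ : (Finset V → P → Unit → ℂ) →ₗ[ℂ] (Cmp_I G k g → ℂ) :=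
    { toFun := fun f c => (Cmp_e e c.2.out : ℂ) * f c.1.1 c.2.out ()
      map_add' := fun f f' => by
        funext c
        simp only [Pi.add_apply]
        ring
      map_smul' := fun a f => by
        funext c
        simp only [Pi.smul_apply, smul_eq_mul, RingHom.id_apply]
        ring }
  have hΨ : ∀ f c, Ψ f c = (Cmp_e e c.2.out : ℂ) * f c.1.1 c.2.out () := fun _ _ => rfl
  have hsq : ∀ p, (Cmp_e e p : ℂ) * (Cmp_e e p : ℂ) = 1 := by
    intro p
    rw [← Int.cast_mul, Cmp_e_sq, Int.cast_one]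
  have hxt : ∀ f ∈ YZ ℂ G univ (fun _ => (1 : Matrix Unit Unit ℂ)) (fun v x => x * g v) ν (k + 1),
      ∀ σ p, Cmp_xt (Ψ f) σ p = (Cmp_e e p : ℂ) * f σ p () := by
    rintro f ⟨⟨h1, h2⟩, -⟩ σ p
    unfold Cmp_xt
    split_ifs with h
    · rw [hΨ]
      dsimp only
      obtain ⟨y, hy⟩ := QuotientGroup.mk_out_eq_mul (Cmp_H g σ) p
      rw [hy]
      refine Cmp_inv g e he heg (f := fun q => f σ q ()) (fun v hv q => ?_) y.2 p
      have h3 : f σ (q * g v) = -((1 : Matrix Unit Unit ℂ).mulVec (f σ q)) := h2 σ v hv q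
      rw [Matrix.one_mulVec] at h3
      have h4 := congrFun h3 ()
      exact h4
    · have h3 : f σ p = 0 := by
        by_contra hc
        obtain ⟨-, h4, h5⟩ := h1 σ p hc
        apply h
        refine ⟨?_, h5⟩
        intro u hu v hv huv
        exact h4 u hu v hv huv
      rw [h3]
      simp
  have hmem : ∀ f : YZ ℂ G univ (fun _ => (1 : Matrix Unit Unit ℂ)) (fun v x => x * g v) ν (k + 1),
      (Ψ.domRestrict _) f ∈
        LinearMap.ker ((Cmp_D G k g e ν).map (Int.cast : ℤ → ℂ)).mulVecLin := by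
    rintro ⟨f, hf⟩
    show Ψ f ∈ _
    rw [LinearMap.mem_ker, Matrix.mulVecLin_apply]
    funext q
    obtain ⟨τ, p⟩ := q
    rw [Cmp_mulVec]
    have h3 : tdl ℂ ν f = 0 := hf.2
    have h4 := congrFun (congrFun (congrFun h3 τ) p) ()
    have h5 : (tdl ℂ ν f) τ p () = ∑ v ∈ τᶜ, (sg ν v τ : ℂ) * f (insert v τ) p () := by
      show (∑ v ∈ τᶜ, (sg ν v τ : ℂ) • f (insert v τ) p) () = _
      rw [Finset.sum_apply]
      rfl
    rw [h5] at h4
    refine Eq.trans ?_ h4
    refine Finset.sum_congr rfl fun v _ => ?_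
    rw [hxt f hf, ← mul_assoc (Cmp_e e p : ℂ), hsq, one_mul]
  refine LinearMap.finrank_le_finrank_of_injective
    (f := LinearMap.codRestrict (LinearMap.ker
      ((Cmp_D G k g e ν).map (Int.cast : ℤ → ℂ)).mulVecLin) (Ψ.domRestrict _) hmem) ?_
  intro f f' hff
  have h1 : Ψ f.1 = Ψ f'.1 := congrArg Subtype.val hff
  apply Subtype.ext
  funext σ p u
  have h2 : (Cmp_e e p : ℂ) * f.1 σ p () = (Cmp_e e p : ℂ) * f'.1 σ p () := by
    rw [← hxt f.1 f.2, ← hxt f'.1 f'.2, h1]
  have h3 := congrArg (fun z => (Cmp_e e p : ℂ) * z) h2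
  simp only [← mul_assoc, hsq, one_mul] at h3
  exact h3

/-- **Comparison of the Betti numbers.** `bP ℂ G univ g ν i ≤ finrank (YZ …)`, the space of the
antisymmetric cycles; the map `f ↦ (-1)^(e p) f` turns antisymmetric functions into functions which
are invariant under the `g v`, `v ∈ σ`, i.e. functions on the cosets of `closure (g '' σ)`. Both spaces
of cycles are then the kernels of one integer matrix `D` (rows `(τ, p)`, columns `(σ, coset)`, `σ` a
clique with `k + 1` elements; entries `± 1` or `0`) over `ℂ` and over `K`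
(signs are `1` in `K`), and `rank_int_le D K` in `Pool.Agent.H4.Singer.RankInt` gives
`rank over K ≤ rank over ℂ`. For `i > k + 1` there are no chains. (Compare
`Pool.Agent.H4.Singer.RankCompare` and `Pool.Agent.H77.SW.bet_le_dz`.) -/
theorem bP_le (G : SimpleGraph V) (k : ℕ)
    (hdim : ∀ σ : Finset V, G.IsClique (σ : Set V) → σ.card ≤ k + 1) {P : Type} [Group P]
    [Fintype P] (g : V → P) (hsq : ∀ v, g v * g v = 1) (e : P → ZMod 2)
    (he : ∀ p q, e (p * q) = e p + e q) (heg : ∀ v, e (g v) = 1) (ν : V → ℕ)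
    (hν : Function.Injective ν) (i : ℕ) (hi : k < i) :
    bP ℂ G univ g ν i ≤ dG K G (k + 1) g := by
  unfold bP bY
  refine (Nat.sub_le _ _).trans ?_
  by_cases h1 : i = k + 1
  · subst h1
    refine (Cmp_low G k g e he heg ν).trans (le_trans ?_ (Cmp_up (K := K) G k g e ν))
    have h2 := Cmp_ker G k g e ν ℂ
    have h3 := Cmp_ker G k g e ν K
    have h4 := rank_int_le (Cmp_D G k g e ν) K
    omega
  · have h2 : YZ ℂ G univ (fun _ => (1 : Matrix Unit Unit ℂ)) (fun v x => x * g v) ν i = ⊥ := by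
      rw [eq_bot_iff]
      rintro f ⟨⟨h3, -⟩, -⟩
      rw [Submodule.mem_bot]
      funext σ p
      by_contra hc
      obtain ⟨-, h4, h5⟩ := h3 σ p hc
      have h6 : G.IsClique (σ : Set V) := by
        intro u hu v hv huv
        exact h4 u hu v hv huv
      have h7 := hdim σ h6
      omega
    rw [h2, finrank_bot]
    exact Nat.zero_le _

end Pool.Agent.H77.SX

end

section

/-!
# Project BL: homology balls
-/

set_option autoImplicit false

open Finset

namespace Pool.Agent.H19.BL

open Pool.Agent.H85.Fold4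

variable {V : Type} [DecidableEq V] [Fintype V]

/-- real simplicial chains of degree `j` of the link of `ρ` in the complex `B` -/
def BdCh (B : Finset V → Prop) (ρ : Finset V) (j : ℕ) (z : Finset V → ℝ) : Prop :=
  ∀ σ, z σ ≠ 0 → Disjoint σ ρ ∧ B (σ ∪ ρ) ∧ σ.card = j

/-- The clique complex of `G` is a real homology ball of dimension `n - 1` with boundary complex `B` (or a real
homology sphere, if `B` is empty): the links of the cliques `ρ` outside of `B` have the homology of the sphere of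
dimension `n - 1 - |ρ|`, the links of the cliques in `B` (also of `∅`) have the homology of a point, and `B`
is a homology sphere of dimension `n - 2`. -/
structure HomologyBall (G : SimpleGraph V) (n : ℕ) (B : Finset V → Prop) : Prop where
  sub : ∀ σ, B σ → G.IsClique (σ : Set V) ∧ ∀ τ, τ ⊆ σ → B τ
  dim : ∀ σ : Finset V, G.IsClique (σ : Set V) → σ.card ≤ n
  low : ∀ ν : V → ℕ, Function.Injective ν → ∀ ρ : Finset V, G.IsClique (ρ : Set V) → ∀ j,
    j + ρ.card < n → ∀ z, LinkCh G ρ j z → bdy ν z = 0 → ∃ y, LinkCh G ρ (j + 1) y ∧ bdy ν y = z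
  top : ∀ ν : V → ℕ, Function.Injective ν → ∀ ρ : Finset V, G.IsClique (ρ : Set V) → ¬ B ρ → ∀ j,
    j + ρ.card = n → ∃ o, LinkCh G ρ j o ∧ bdy ν o = 0 ∧ o ≠ 0 ∧
      ∀ z, LinkCh G ρ j z → bdy ν z = 0 → ∃ r : ℝ, z = r • o
  ball : ∀ ν : V → ℕ, Function.Injective ν → ∀ ρ, B ρ → ∀ j,
    j + ρ.card = n → ∀ z, LinkCh G ρ j z → bdy ν z = 0 → z = 0
  bdLow : ∀ ν : V → ℕ, Function.Injective ν → ∀ ρ, B ρ → ∀ j,
    j + ρ.card + 1 < n → ∀ z, BdCh B ρ j z → bdy ν z = 0 → ∃ y, BdCh B ρ (j + 1) y ∧ bdy ν y = z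
  bdTop : ∀ ν : V → ℕ, Function.Injective ν → ∀ ρ, B ρ → ∀ j,
    j + ρ.card + 1 = n → ∃ o, BdCh B ρ j o ∧ bdy ν o = 0 ∧ o ≠ 0 ∧
      ∀ z, BdCh B ρ j z → bdy ν z = 0 → ∃ r : ℝ, z = r • o

end Pool.Agent.H19.BL

end

section

/-!
# Project FOLD: the definitions used in the statement of the main theorem, first part
-/

set_option autoImplicit false

open Finset

namespace Pool.Agent.H85.Fold4

section

end

/-- The hyperplanes `h i` form an essential simplicial arrangement in `ℝⁿ`, with rays `r v`, and `G`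
is the 1-skeleton of its complex: two rays are adjacent if no hyperplane separates them, pairwise
adjacent rays are linearly independent, and the cones of the cliques cover `ℝⁿ`. -/
structure Arrangement {V : Type} (G : SimpleGraph V) (n : ℕ) {m : ℕ} (h : Fin m → Fin n → ℝ)
    (r : V → Fin n → ℝ) : Prop where
  adj : ∀ u v, G.Adj u v ↔ u ≠ v ∧ ∀ i, 0 ≤ (h i ⬝ᵥ r u) * (h i ⬝ᵥ r v)
  indep : ∀ σ : Finset V, G.IsClique (σ : Set V) → ∀ c : V → ℝ, ∑ v ∈ σ, c v • r v = 0 →
    ∀ v ∈ σ, c v = 0
  cover : ∀ x : Fin n → ℝ, ∃ (σ : Finset V) (c : V → ℝ), G.IsClique (σ : Set V) ∧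
    (∀ v ∈ σ, 0 ≤ c v) ∧ x = ∑ v ∈ σ, c v • r v

/-- The subdivision of the edge `u w` (of the clique complex): the edge is removed, and the new
vertex `none` is joined to `u`, `w` and to the common neighbours of `u` and `w`. -/
def edgeSubdiv {V : Type} (G : SimpleGraph V) (u w : V) : SimpleGraph (Option V) where
  Adj x y := match x, y with
    | some a, some b => G.Adj a b ∧ ¬ (a = u ∧ b = w) ∧ ¬ (a = w ∧ b = u)
    | none, some b => b = u ∨ b = w ∨ (G.Adj u b ∧ G.Adj w b)
    | some a, none => a = u ∨ a = w ∨ (G.Adj u a ∧ G.Adj w a)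
    | none, none => False
  symm := ⟨fun x y h => by
    rcases x with _ | a <;> rcases y with _ | b <;> simp only at h ⊢
    · exact h
    · exact h
    · exact ⟨h.1.symm, fun hc => h.2.2 ⟨hc.2, hc.1⟩, fun hc => h.2.1 ⟨hc.2, hc.1⟩⟩⟩
  loopless := ⟨fun x h => by
    rcases x with _ | a
    · exact h
    · exact G.loopless.irrefl a h.1⟩

end Pool.Agent.H85.Fold4

end

section

/-!
# Project FD: the statement of the main theorem
-/

set_option autoImplicit false

open Finset

namespace Pool.Agent.H4.FD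

open Pool.Agent.H85.Fold4

/-- The complexes of the real, essential simplicial hyperplane arrangements in `ℝⁿ`, and all
complexes obtained from them by edge subdivisions (as graphs; the complex is the flag complex). -/
inductive SubArrangement : ∀ {W : Type}, SimpleGraph W → ℕ → Prop
  | arr {W : Type} [Finite W] (H : SimpleGraph W) (n m : ℕ) (h : Fin m → Fin n → ℝ)
      (r : W → Fin n → ℝ) (hH : Arrangement H n h r) : SubArrangement H n
  | subdiv {W : Type} (H : SimpleGraph W) (n : ℕ) (u w : W) (huw : H.Adj u w) :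
      SubArrangement H n → SubArrangement (edgeSubdiv H u w) n

/-- Folded spheres: edge subdivisions of simplicial arrangements, and homology spheres of dimension
`n - 1` with vectors `(p v, a v)` in some `ℝ^{n,m}` which are isotropic, orthogonal for adjacent
vertices, and have negative products for nonadjacent vertices. -/
def FoldedSphere {W : Type} [DecidableEq W] [Fintype W] (H : SimpleGraph W) (n : ℕ) : Prop :=
  SubArrangement H n ∨ (HomologySphere H n ∧
    ∃ (m : ℕ) (p : W → Fin n → ℝ) (a : W → Fin m → ℝ),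
      (∀ u v, u = v ∨ H.Adj u v → p u ⬝ᵥ p v = a u ⬝ᵥ a v) ∧
        ∀ u v, u ≠ v → ¬ H.Adj u v → p u ⬝ᵥ p v < a u ⬝ᵥ a v)

section

variable {W : Type} {H : SimpleGraph W}

end

end Pool.Agent.H4.FD

end

section

/-!
# Project OK: isomorphic graphs

The `ℓ²`-homology of the right-angled Coxeter group and the van Kampen obstruction of isomorphic graphs.
-/

set_option autoImplicit false
set_option linter.unusedSectionVars false

open Finset

namespace Pool.Agent.H85.OK

open Pool.Agent.H4.Singer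

section

variable {V W : Type} {G : SimpleGraph V} {H : SimpleGraph W}

/-- the right-angled Coxeter groups of isomorphic graphs -/
theorem exists_group_iso (φ : G ≃g H) :
    ∃ E : RGrp G ≃* RGrp H, ∀ v, E (gen G v) = gen H (φ v) := by
  classical
  have hM : racg H = (racg G).reindex φ.toEquiv := by
    apply CoxeterMatrix.ext
    ext u v
    have ha : ∀ (A : Type) (L : SimpleGraph A) (a b : A), (racg L).M a b =
        if a = b then 1 else if L.Adj a b then 2 else 0 := fun A L a b => by
      unfold racg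
      simp only [Matrix.of_apply]
    show (racg H).M u v = (racg G).M (φ.toEquiv.symm u) (φ.toEquiv.symm v)
    rw [ha, ha]
    have h1 : G.Adj (φ.toEquiv.symm u) (φ.toEquiv.symm v) ↔ H.Adj u v := by
      have h2 := φ.map_adj_iff (v := φ.toEquiv.symm u) (w := φ.toEquiv.symm v)
      rw [← h2]
      have h3 : ∀ w, φ (φ.toEquiv.symm w) = w := fun w => φ.toEquiv.apply_symm_apply w
      rw [h3, h3]
    have h4 : φ.toEquiv.symm u = φ.toEquiv.symm v ↔ u = v := φ.toEquiv.symm.injective.eq_iff
    simp only [h1, h4]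
  have key : ∀ M' : CoxeterMatrix W, M' = (racg G).reindex φ.toEquiv →
      ∃ E : (racg G).Group ≃* M'.Group, ∀ v, E ((racg G).simple v) = M'.simple (φ v) := by
    rintro _ rfl
    exact ⟨((racg G).reindexGroupEquiv φ.toEquiv).symm, fun v =>
      (racg G).reindexGroupEquiv_symm_apply_simple φ.toEquiv v⟩
  exact key _ hM

theorem isClique_map (φ : G ≃g H) (σ : Finset V) :
    H.IsClique (σ.map φ.toEquiv.toEmbedding : Set W) ↔ G.IsClique (σ : Set V) := by
  constructor
  · intro h a ha b hb hab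
    refine φ.map_adj_iff.1 (h ?_ ?_ fun h => hab (φ.injective h))
    · exact mem_coe.2 (mem_map_of_mem φ.toEquiv.toEmbedding (mem_coe.1 ha))
    · exact mem_coe.2 (mem_map_of_mem φ.toEquiv.toEmbedding (mem_coe.1 hb))
  · intro h a ha b hb hab
    obtain ⟨a, ha', rfl⟩ := mem_map.1 (mem_coe.1 ha)
    obtain ⟨b, hb', rfl⟩ := mem_map.1 (mem_coe.1 hb)
    exact φ.map_adj_iff.2 (h (mem_coe.2 ha') (mem_coe.2 hb') fun h => hab (congrArg _ h))

variable [DecidableEq V] [Fintype V] [DecidableEq W] [Fintype W]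

/-- chains are transported by an isomorphism -/
theorem chain_iso (φ : G ≃g H) (E : RGrp G ≃* RGrp H) (hE : ∀ v, E (gen G v) = gen H (φ v))
    {i : ℕ} {f : Finset W → RGrp H → ℂ} (hf : Pool.Agent.H4.Singer.IsL2Chain H i f) :
    Pool.Agent.H4.Singer.IsL2Chain G i
      (fun σ w => f (σ.map φ.toEquiv.toEmbedding) (E w)) := by
  refine ⟨fun σ w hne => ?_, fun σ v hv w => ?_, fun σ => ?_⟩
  · obtain ⟨h1, h2⟩ := hf.supp _ _ hne
    rw [card_map] at h2
    exact ⟨(isClique_map φ σ).1 h1, h2⟩
  · show f _ (E (w * gen G v)) = - f _ (E w)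
    rw [map_mul, hE]
    exact hf.anti _ _ (mem_map_of_mem φ.toEquiv.toEmbedding hv) _
  · exact (E.toEquiv.summable_iff (f := fun w => ‖f (σ.map φ.toEquiv.toEmbedding) w‖ ^ 2)).2
      (hf.l2 _)

theorem dbd_iso (φ : G ≃g H) (E : RGrp G ≃* RGrp H) (ν : W → ℕ) (f : Finset W → RGrp H → ℂ)
    (σ : Finset V) (w : RGrp G) :
    dbd (G := G) (fun v => ν (φ v)) (fun σ w => f (σ.map φ.toEquiv.toEmbedding) (E w)) σ w =
      dbd (G := H) ν f (σ.map φ.toEquiv.toEmbedding) (E w) := by
  unfold dbd
  have h2 : (σ.map φ.toEquiv.toEmbedding)ᶜ = σᶜ.map φ.toEquiv.toEmbedding := by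
    ext w
    rw [mem_compl, mem_map_equiv, mem_map_equiv, mem_compl]
  rw [h2, sum_map]
  refine sum_congr rfl fun v _ => ?_
  rw [filter_map, card_map]
  have h3 : (insert v σ).map φ.toEquiv.toEmbedding =
      insert (φ.toEquiv.toEmbedding v) (σ.map φ.toEquiv.toEmbedding) := map_insert _ _ _
  rw [← h3]
  rfl

/-- **Isomorphic graphs.** -/
theorem l2_iso (φ : G ≃g H) {i : ℕ} (h : Pool.Agent.H4.Singer.L2HomologyZero H i) :
    Pool.Agent.H4.Singer.L2HomologyZero G i := by
  obtain ⟨E, hE⟩ := exists_group_iso φ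
  have hE' : ∀ v, E.symm (gen H v) = gen G (φ.symm v) := by
    intro v
    rw [MulEquiv.symm_apply_eq, hE, RelIso.apply_symm_apply]
  intro ν hν z hz hdz ε hε
  have h1 : ∀ (i : ℕ) (f : Finset V → RGrp G → ℂ) (σ : Finset V) (w : RGrp G),
      f ((σ.map φ.toEquiv.toEmbedding).map φ.symm.toEquiv.toEmbedding) (E.symm (E w)) = f σ w := by
    intro i f σ w
    rw [MulEquiv.symm_apply_apply, map_map]
    congr 1
    have : φ.toEquiv.toEmbedding.trans φ.symm.toEquiv.toEmbedding = Function.Embedding.refl V := by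
      ext v
      exact φ.symm_apply_apply v
    rw [this, map_refl]
  obtain ⟨y, hy, hyε⟩ := h (fun w => ν (φ.symm w)) (fun a b hab => φ.symm.injective (hν hab))
    (fun σ w => z (σ.map φ.symm.toEquiv.toEmbedding) (E.symm w))
    (chain_iso φ.symm E.symm hE' hz) (by
      funext σ w
      rw [dbd_iso φ.symm E.symm ν z σ w, hdz]
      rfl) ε hε
  refine ⟨fun σ w => y (σ.map φ.toEquiv.toEmbedding) (E w), chain_iso φ E hE hy, ?_⟩
  have h2 : ∀ (σ : Finset V) (w : RGrp G), z σ w - dbd ν (fun σ w => y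
      (σ.map φ.toEquiv.toEmbedding) (E w)) σ w =
      (fun (σ : Finset W) (w : RGrp H) => z (σ.map φ.symm.toEquiv.toEmbedding) (E.symm w) -
        dbd (fun w => ν (φ.symm w)) y σ w) (σ.map φ.toEquiv.toEmbedding) (E w) := by
    intro σ w
    have h3 := dbd_iso φ E (fun w => ν (φ.symm w)) y σ w
    have h4 : (fun v => ν (φ.symm (φ v))) = ν := by
      funext v
      rw [RelIso.symm_apply_apply]
    rw [h4] at h3
    show _ = z _ _ - dbd (fun w => ν (φ.symm w)) y (σ.map φ.toEquiv.toEmbedding) (E w)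
    rw [h1 i z, h3]
  have h5 : ∀ σ : Finset V, ∑' w, ‖z σ w - dbd ν (fun σ w => y
      (σ.map φ.toEquiv.toEmbedding) (E w)) σ w‖ ^ 2 =
      ∑' w, ‖z ((σ.map φ.toEquiv.toEmbedding).map φ.symm.toEquiv.toEmbedding) (E.symm w) -
        dbd (fun w => ν (φ.symm w)) y (σ.map φ.toEquiv.toEmbedding) w‖ ^ 2 := by
    intro σ
    rw [← E.toEquiv.tsum_eq]
    refine tsum_congr fun w => ?_
    rw [h2]
    rfl
  rw [sum_congr rfl fun σ _ => h5 σ]
  have h6 := Equiv.sum_comp φ.toEquiv.finsetCongr fun σ : Finset W =>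
    ∑' w, ‖z (σ.map φ.symm.toEquiv.toEmbedding) (E.symm w) -
      dbd (fun w => ν (φ.symm w)) y σ w‖ ^ 2
  exact lt_of_eq_of_lt h6 hyε

end

end Pool.Agent.H85.OK

end

section

/-!
# Project VK: definitions

The mod 2 van Kampen obstruction of a flag complex, and homology spheres over the field of two
elements.
-/

set_option autoImplicit false

open Finset

namespace Pool.Agent.H85.VK

section

end

section

variable {W : Type} [DecidableEq W]

/-- the link of `σ` in the family `K` -/
def lnk (K : Set (Finset W)) (σ : Finset W) : Set (Finset W) :=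
  {τ | Disjoint τ σ ∧ τ ∪ σ ∈ K}

/-- `f` is a cocycle on the faces with `j` vertices of the family `K` -/
def Cocycle (K : Set (Finset W)) (j : ℕ) (f : Finset W → ZMod 2) : Prop :=
  ∀ τ ∈ K, τ.card = j + 1 → ∑ v ∈ τ, f (τ.erase v) = 0

/-- `f` is a coboundary on the faces with `j` vertices of the family `K` -/
def Cobound (K : Set (Finset W)) (j : ℕ) (f : Finset W → ZMod 2) : Prop :=
  ∃ g : Finset W → ZMod 2, ∀ τ ∈ K, τ.card = j → f τ = ∑ v ∈ τ, g (τ.erase v)

/-- `K` is a simplicial complex (with the empty face), and a homology sphere of dimension `n - 1`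
over the field of two elements: the link of every face `σ` (in particular `K`, the link of the empty
face) has the reduced mod 2 cohomology of a sphere of dimension `n - 1 - |σ|`. A face with `j`
vertices has dimension `j - 1`. -/
structure IsF2Sphere (K : Set (Finset W)) (n : ℕ) : Prop where
  empty : ∅ ∈ K
  down : ∀ σ ∈ K, ∀ τ ⊆ σ, τ ∈ K
  exact : ∀ σ ∈ K, ∀ j, j + σ.card ≠ n → ∀ f, Cocycle (lnk K σ) j f → Cobound (lnk K σ) j f
  top : ∀ σ ∈ K, ∀ j, j + σ.card = n → ∃ f₀, Cocycle (lnk K σ) j f₀ ∧ ¬ Cobound (lnk K σ) j f₀ ∧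
    ∀ f, Cocycle (lnk K σ) j f → Cobound (lnk K σ) j f ∨ Cobound (lnk K σ) j fun τ => f τ + f₀ τ

end

end Pool.Agent.H85.VK

end

section

/-!
# Project S9, block E: triangular bases of triangular modules
-/

set_option autoImplicit false
set_option linter.unusedSectionVars false

open Finset

namespace Pool.Agent.S9

section Flag

variable {K : Type} [Field K] {H : Type} [Group H] {N : Type} [AddCommGroup N] [Module K N]

/-- the submodule `S` has a triangular basis with weights in `Λ` -/
private def TB (Λ : Subgroup Kˣ) (ρ : H →* Module.End K N) (S : Submodule K N) : Prop :=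
  ∃ (n : ℕ) (b : Fin n → N) (lam : Fin n → H →* Kˣ), LinearIndependent K b ∧
    Submodule.span K (Set.range b) = S ∧ (∀ a g, lam a g ∈ Λ) ∧
    ∀ a g, ρ g (b a) - (lam a g : K) • b a ∈ Submodule.span K (b '' {c | c < a})

private theorem tb_add {Λ : Subgroup Kˣ} {ρ : H →* Module.End K N} {S : Submodule K N}
    (hS : TB Λ ρ S) {y : N} (hy : y ∉ S) (l : H →* Kˣ) (hl : ∀ g, l g ∈ Λ)
    (hl2 : ∀ g, ρ g y - (l g : K) • y ∈ S) : TB Λ ρ (S ⊔ Submodule.span K {y}) := by
  obtain ⟨n, b, lam, h1, h2, h3, h4⟩ := hS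
  refine ⟨n + 1, Fin.snoc (α := fun _ => N) b y, Fin.snoc (α := fun _ => H →* Kˣ) lam l, ?_, ?_, ?_, ?_⟩
  · rw [linearIndependent_finSnoc]
    exact ⟨h1, by rw [h2]; exact hy⟩
  · have h5 : Set.range (Fin.snoc (α := fun _ => N) b y) = Set.range b ∪ {y} := by
      ext z
      constructor
      · rintro ⟨a, rfl⟩
        refine Fin.lastCases ?_ (fun a => ?_) a
        · rw [Fin.snoc_last]
          exact Or.inr rfl
        · rw [Fin.snoc_castSucc]
          exact Or.inl ⟨a, rfl⟩
      · rintro (⟨a, rfl⟩ | h)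
        · exact ⟨a.castSucc, by rw [Fin.snoc_castSucc]⟩
        · rw [Set.mem_singleton_iff] at h
          exact ⟨Fin.last n, by rw [Fin.snoc_last, h]⟩
    rw [h5, Submodule.span_union, h2]
  · intro a g
    refine Fin.lastCases ?_ (fun a => ?_) a
    · rw [Fin.snoc_last]
      exact hl g
    · rw [Fin.snoc_castSucc]
      exact h3 a g
  · intro a g
    refine Fin.lastCases ?_ (fun a => ?_) a
    · rw [Fin.snoc_last, Fin.snoc_last]
      have h6 : S ≤ Submodule.span K (Fin.snoc (α := fun _ => N) b y '' {c | c < Fin.last n}) := by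
        rw [← h2, Submodule.span_le]
        rintro _ ⟨c, rfl⟩
        refine Submodule.subset_span ⟨c.castSucc, ?_, ?_⟩
        · exact Fin.castSucc_lt_last c
        · rw [Fin.snoc_castSucc]
      exact h6 (hl2 g)
    · rw [Fin.snoc_castSucc, Fin.snoc_castSucc]
      refine Submodule.span_mono ?_ (h4 a g)
      rintro _ ⟨c, hc, rfl⟩
      refine ⟨c.castSucc, ?_, ?_⟩
      · exact Fin.castSucc_lt_castSucc_iff.2 hc
      · rw [Fin.snoc_castSucc]

private theorem tb_up [FiniteDimensional K N] {Λ : Subgroup Kˣ} {ρ : H →* Module.End K N}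
    {F F' : Submodule K N} (lam : H →* Kˣ) (hl : ∀ g, lam g ∈ Λ)
    (hl2 : ∀ g, ∀ y ∈ F', ρ g y - (lam g : K) • y ∈ F) (m : ℕ) : ∀ S : Submodule K N,
    F ≤ S → S ≤ F' → TB Λ ρ S → Module.finrank K F' = Module.finrank K S + m → TB Λ ρ F' := by
  induction m with
  | zero =>
    intro S _ h2 h3 h4
    have h5 : S = F' := Submodule.eq_of_le_of_finrank_eq h2 (by omega)
    rw [← h5]
    exact h3
  | succ m ih =>
    intro S h1 h2 h3 h4
    have h5 : ∃ y ∈ F', y ∉ S := by
      by_contra h
      push Not at h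
      have h6 : F' ≤ S := h
      have h7 := Submodule.finrank_mono h6
      omega
    obtain ⟨y, hy, hyS⟩ := h5
    have h6 := tb_add h3 hyS lam hl fun g => h1 (hl2 g y hy)
    have h7 : S ⊔ Submodule.span K {y} ≤ F' :=
      sup_le h2 ((Submodule.span_singleton_le_iff_mem y F').2 hy)
    refine ih (S ⊔ Submodule.span K {y}) (h1.trans le_sup_left) h7 h6 ?_
    have h8 : Module.finrank K (S ⊔ Submodule.span K {y} : Submodule K N) =
        Module.finrank K S + 1 := by
      have h9 := Submodule.finrank_sup_add_finrank_inf_eq S (Submodule.span K {y})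
      have h10 : S ⊓ Submodule.span K {y} = ⊥ := by
        rw [Submodule.eq_bot_iff]
        intro z hz
        obtain ⟨hz1, hz2⟩ := Submodule.mem_inf.1 hz
        obtain ⟨c, rfl⟩ := Submodule.mem_span_singleton.1 hz2
        by_cases hc : c = 0
        · rw [hc, zero_smul]
        · exact absurd ((Submodule.smul_mem_iff S hc).1 hz1) hyS
      have h11 : y ≠ 0 := fun h => hyS (by rw [h]; exact S.zero_mem)
      rw [h10, finrank_bot, add_zero, finrank_span_singleton h11] at h9
      exact h9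
    omega

/-- the triangular basis for a flag up to the step `j` -/
private theorem tb_flag [FiniteDimensional K N] {Λ : Subgroup Kˣ} {ρ : H →* Module.End K N}
    {F : ℕ → Submodule K N} (hF : Monotone F) (h0 : F 0 = ⊥)
    (hs : ∀ j, ∃ lam : H →* Kˣ, (∀ g, lam g ∈ Λ) ∧ ∀ g, ∀ y ∈ F (j + 1),
      ρ g y - (lam g : K) • y ∈ F j) (j : ℕ) : TB Λ ρ (F j) := by
  induction j with
  | zero =>
    refine ⟨0, Fin.elim0, Fin.elim0, linearIndependent_empty_type, ?_, fun a => a.elim0,
      fun a => a.elim0⟩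
    rw [h0]
    have h : Set.range (Fin.elim0 : Fin 0 → N) = ∅ := Set.range_eq_empty _
    rw [h, Submodule.span_empty]
  | succ j ih =>
    obtain ⟨lam, h1, h2⟩ := hs j
    have h3 := Submodule.finrank_mono (hF (Nat.le_succ j))
    obtain ⟨m, hm⟩ := Nat.exists_eq_add_of_le h3
    exact tb_up lam h1 h2 m (F j) le_rfl (hF (Nat.le_succ j)) ih hm

/-- **Triangular bases.** The kernel of the invariant form `π` comes first, the last vector has the value `1`. -/
theorem tri_basis [FiniteDimensional K N] {Λ : Subgroup Kˣ} {ρ : H →* Module.End K N}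
    (hT : Tri Λ ρ) (π : N →ₗ[K] K) (hπ : Function.Surjective π) (hπ2 : ∀ g y, π (ρ g y) = π y) :
    ∃ (n : ℕ) (b : Module.Basis (Fin (n + 1)) K N) (lam : Fin (n + 1) → H →* Kˣ),
      (∀ a g, lam a g ∈ Λ) ∧
      (∀ a g, ρ g (b a) - (lam a g : K) • b a ∈ Submodule.span K (b '' {c | c < a})) ∧
      lam (Fin.last n) = 1 ∧ (∀ c, c < Fin.last n → π (b c) = 0) ∧ π (b (Fin.last n)) = 1 := by
  obtain ⟨m, F, hF, h0, hm, hs⟩ := hT
  -- the flag of the kernel
  have hker : TB Λ ρ (LinearMap.ker π) := by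
    have h1 := tb_flag (Λ := Λ) (ρ := ρ) (F := fun j => F j ⊓ LinearMap.ker π)
      (fun a b h => inf_le_inf_right _ (hF h)) (by simp [h0]) (by
        intro j
        obtain ⟨lam, h2, h3⟩ := hs j
        refine ⟨lam, h2, fun g y hy => ?_⟩
        obtain ⟨hy1, hy2⟩ := Submodule.mem_inf.1 hy
        refine Submodule.mem_inf.2 ⟨h3 g y hy1, ?_⟩
        rw [LinearMap.mem_ker] at hy2 ⊢
        rw [map_sub, map_smul, hπ2, hy2, smul_zero, sub_zero]) m
    have h2 : F m ⊓ LinearMap.ker π = LinearMap.ker π := by rw [hm, top_inf_eq]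
    rw [← h2]
    exact h1
  obtain ⟨y, hy⟩ := hπ 1
  have hyk : y ∉ LinearMap.ker π := by
    rw [LinearMap.mem_ker, hy]
    exact one_ne_zero
  obtain ⟨n, b, lam, h1, h2, h3, h4⟩ := hker
  have hli : LinearIndependent K (Fin.snoc (α := fun _ => N) b y) := by
    rw [linearIndependent_finSnoc]
    exact ⟨h1, by rw [h2]; exact hyk⟩
  have hsp : ⊤ ≤ Submodule.span K (Set.range (Fin.snoc (α := fun _ => N) b y)) := by
    intro z _
    have h5 : z - π z • y ∈ LinearMap.ker π := by
      rw [LinearMap.mem_ker, map_sub, map_smul, hy, smul_eq_mul, mul_one, sub_self]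
    rw [← h2] at h5
    have h6 : Submodule.span K (Set.range b) ≤
        Submodule.span K (Set.range (Fin.snoc (α := fun _ => N) b y)) := by
      rw [Submodule.span_le]
      rintro _ ⟨c, rfl⟩
      exact Submodule.subset_span ⟨c.castSucc, by rw [Fin.snoc_castSucc]⟩
    have h7 : y ∈ Submodule.span K (Set.range (Fin.snoc (α := fun _ => N) b y)) :=
      Submodule.subset_span ⟨Fin.last n, by rw [Fin.snoc_last]⟩
    have h8 : z = (z - π z • y) + π z • y := by rw [sub_add_cancel]
    rw [h8]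
    exact Submodule.add_mem _ (h6 h5) (Submodule.smul_mem _ _ h7)
  refine ⟨n, Module.Basis.mk hli hsp, Fin.snoc (α := fun _ => H →* Kˣ) lam 1, ?_, ?_, ?_, ?_, ?_⟩
  · intro a g
    refine Fin.lastCases ?_ (fun a => ?_) a
    · rw [Fin.snoc_last]
      exact Λ.one_mem
    · rw [Fin.snoc_castSucc]
      exact h3 a g
  · intro a g
    rw [Module.Basis.coe_mk]
    refine Fin.lastCases ?_ (fun a => ?_) a
    · rw [Fin.snoc_last, Fin.snoc_last, MonoidHom.one_apply, Units.val_one, one_smul]
      have h6 : LinearMap.ker π ≤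
          Submodule.span K (Fin.snoc (α := fun _ => N) b y '' {c | c < Fin.last n}) := by
        rw [← h2, Submodule.span_le]
        rintro _ ⟨c, rfl⟩
        refine Submodule.subset_span ⟨c.castSucc, ?_, ?_⟩
        · exact Fin.castSucc_lt_last c
        · rw [Fin.snoc_castSucc]
      refine h6 ?_
      rw [LinearMap.mem_ker, map_sub, hπ2, sub_self]
    · rw [Fin.snoc_castSucc, Fin.snoc_castSucc]
      refine Submodule.span_mono ?_ (h4 a g)
      rintro _ ⟨c, hc, rfl⟩
      refine ⟨c.castSucc, ?_, ?_⟩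
      · exact Fin.castSucc_lt_castSucc_iff.2 hc
      · rw [Fin.snoc_castSucc]
  · rw [Fin.snoc_last]
  · intro c
    rw [Module.Basis.coe_mk]
    refine Fin.lastCases (fun h => absurd h (lt_irrefl _)) (fun c _ => ?_) c
    rw [Fin.snoc_castSucc]
    have h5 : b c ∈ LinearMap.ker π := by
      rw [← h2]
      exact Submodule.subset_span ⟨c, rfl⟩
    exact h5
  · rw [Module.Basis.coe_mk, Fin.snoc_last]
    exact hy

/-- the matrices in the triangular basis -/
theorem toMatrix_tri {n : ℕ} {ρ : H →* Module.End K N} {b : Module.Basis (Fin n) K N}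
    {lam : Fin n → H →* Kˣ}
    (h : ∀ a g, ρ g (b a) - (lam a g : K) • b a ∈ Submodule.span K (b '' {c | c < a})) (g : H) :
    (∀ c a, a < c → LinearMap.toMatrix b b (ρ g) c a = 0) ∧
      ∀ a, LinearMap.toMatrix b b (ρ g) a a = lam a g := by
  have key : ∀ a c : Fin n, a ≤ c → b.repr (ρ g (b a) - (lam a g : K) • b a) c = 0 := by
    intro a c hac
    have h1 := h a g
    have h2 : ∀ y ∈ Submodule.span K (b '' {c | c < a}), b.repr y c = 0 := by
      intro y hy
      induction hy using Submodule.span_induction with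
      | mem y hy =>
        obtain ⟨d, hd, rfl⟩ := hy
        rw [Module.Basis.repr_self]
        exact Finsupp.single_eq_of_ne (by
          intro h3
          rw [h3] at hac
          exact absurd hd (not_lt.2 hac))
      | zero => rw [map_zero]; rfl
      | add x y _ _ hx hy => rw [map_add, Finsupp.add_apply, hx, hy, add_zero]
      | smul r x _ hx => rw [map_smul, Finsupp.smul_apply, hx, smul_zero]
    exact h2 _ h1
  constructor
  · intro c a hac
    rw [LinearMap.toMatrix_apply]
    have h1 := key a c hac.le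
    rw [map_sub, map_smul, Finsupp.sub_apply, Finsupp.smul_apply, Module.Basis.repr_self,
      Finsupp.single_eq_of_ne hac.ne', smul_zero, sub_zero] at h1
    exact h1
  · intro a
    rw [LinearMap.toMatrix_apply]
    have h1 := key a a le_rfl
    rw [map_sub, map_smul, Finsupp.sub_apply, Finsupp.smul_apply, Module.Basis.repr_self,
      Finsupp.single_eq_same, smul_eq_mul, mul_one, sub_eq_zero] at h1
    exact h1

/-- **Triangular matrices.** `tri_basis` and `toMatrix_tri` in one statement. -/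
theorem exists_tri [FiniteDimensional K N] {Λ : Subgroup Kˣ} (ρ : H →* Module.End K N)
    (hρ : Tri Λ ρ) (π : N →ₗ[K] K) (hπ : Function.Surjective π) (hinv : ∀ g y, π (ρ g y) = π y) :
    ∃ (n : ℕ) (b : Module.Basis (Fin (n + 1)) K N) (lam : Fin (n + 1) → H →* Kˣ),
      (∀ a g, lam a g ∈ Λ) ∧
      (∀ g, ∀ a c : Fin (n + 1), c < a → LinearMap.toMatrix b b (ρ g) a c = 0) ∧
      (∀ g a, LinearMap.toMatrix b b (ρ g) a a = lam a g) ∧
      ∀ a : Fin (n + 1), π (b a) = if a = Fin.last n then 1 else 0 := by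
  obtain ⟨n, b, lam, h1, h2, -, h4, h5⟩ := tri_basis hρ π hπ hinv
  refine ⟨n, b, lam, h1, fun g a c hca => (toMatrix_tri h2 g).1 a c hca,
    fun g a => (toMatrix_tri h2 g).2 a, fun a => ?_⟩
  by_cases h : a = Fin.last n
  · rw [if_pos h, h, h5]
  · rw [if_neg h]
    exact h4 a (lt_of_le_of_ne (Fin.le_last a) h)

end Flag

end Pool.Agent.S9

end
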