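import Pool.Agent.H71.TSG.M28
import Pool.Agent.H71.TSG.M29

/-! The parts of this file: H4.FD.Defs, H3.SL.Acts, H3.SL.Cls. -/

section

/-!
# Project FD: definitions

Coxeter groups of FC type (all cliques of the nerve graph are spherical).
-/

set_option autoImplicit false

open Finset

namespace Pool.Agent.H4.FD

open Pool.Agent.H85.Fold Pool.Agent.H4.FC

/-- FC type: every clique of the nerve graph generates a finite parabolic subgroup -/
def IsFC {V : Type} (M : CoxeterMatrix V) : Prop := ∀ σ, Cl (gr M) σ → Sph M σ

/-! ### The subspaces `PP` -/

section PP

end PP

/-! ### Natural homotopies -/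

section LC

end LC

/-! ### The total complexes -/

section Tot

end Tot

end Pool.Agent.H4.FD

end

section

/-!
# Right-angled Coxeter groups which act on homology manifolds
-/

set_option autoImplicit false
set_option linter.unusedSectionVars false

open Finset

namespace Pool.Agent.H3.SL

open Pool.Agent.H37.TM Pool.Agent.H65.RM

/-- A subgroup `P` of finite index of the group `W` (for example `W` itself) acts properly and simplicially on a
simplicial complex `K` with a subcomplex `B`. Either `K` is a homology manifold of dimension `n` over the field of
two elements with boundary `B`, and the reduced homology of `K` over this field vanishes in the degrees less than `d`;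
or there is a `P`-invariant cycle modulo two of dimension `n` of the locally finite complex `K` relative to `B`
(infinite chains), such that the cohomology with compact supports of `(K, B)` vanishes in the degrees between `n - d`
and `n` and is of dimension one in the degree `n`, by the evaluation at the cycle (`ManOrDual`). -/
def Acts (W : Type) [Group W] (n d : ℕ) : Prop :=
  ∃ (P : Subgroup W) (_ : P.FiniteIndex) (U : Type) (_ : DecidableEq U) (_ : MulAction P U)
    (K B : Set (Finset U)), Pool.Agent.S10.ManOrDual P K B n d ∧ PAct P K B

section Quo

end Quo

end Pool.Agent.H3.SL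

end

section

/-!
# A class of labelled flag complexes
-/

set_option autoImplicit false
set_option linter.unusedSectionVars false

open Finset

namespace Pool.Agent.H3.SL

open Pool.Agent.H4.FC Pool.Agent.H4.FD Pool.Agent.H4.HY Pool.Agent.H85.VK Pool.Agent.H85.Fold4 Pool.Agent.H73.LK

/-- `Vanishing M i`: the least class of pairs of a Coxeter matrix `M` (a labelled finite flag complex `L`, the
flag complex of `gr M`) and a degree `i` with the following members and rules.

If all labels are two (`IsRA M`) and `n < 2 i`:
* `ball`: `L` is a full subcomplex of a flag homology ball or sphere of dimension `n - 1` over the field with two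
  elements;
* `acts`: `L` has dimension less than `d`; the right-angled Coxeter group, or a subgroup of finite index, acts
  properly and simplicially on a homology manifold of dimension `n`, with or without boundary, over the field with
  two elements, which is acyclic (or whose reduced homology vanishes in the degrees less than `d`), or on a duality
  pair of dimension `n` over this field, for instance a complex homotopy equivalent to a topological manifold.

If every clique generates a finite group (`IsFC M`):
* `vanKampen`: `L` has dimension at most `k < i` and vanishing van Kampen obstruction (modulo two) to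
  embedding in `ℝ^{2k}`, for example `L` is a subcomplex, full or not, of a sphere of dimension `2 k`;
* `dual`: `L` is a homology sphere of dimension `n - 1` which is in the class for the degree `n - i`;
* `codim`: `m ≤ i`, and the full subcomplexes of the links of the cliques with `m` vertices are in the class for
  all degrees `j ≥ i - m`.

For all labels:
* `finite`: the group is finite and `i > 0`;
* `infinite`: the group is infinite and `i = 0`;
* `glue`: `L` is the union of the full subcomplexes on `A` and on `B`, and these are in the class for the degree
  `i`, their intersection for the degree `i - 1`;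
* `part`: `L` and the intersection are in the class for `i`; then the parts are;
* `prod`: `L` is the join of `A` and `B`, with labels two between them, and for all `p + q = i` the complex on
  `A` is in the class for `p` or the complex on `B` is in the class for `q`. -/
inductive Vanishing : {V : Type} → [DecidableEq V] → [Fintype V] → CoxeterMatrix V → ℕ → Prop
  | ball {V W : Type} [DecidableEq V] [Fintype V] [DecidableEq W] [Fintype W]
      (M : CoxeterMatrix V) (hM : IsRA M) (n i : ℕ) (hi : n < 2 * i) (K : SimpleGraph W)
      (hK : HomologyBall2 K n) (e : gr M ↪g K) : Vanishing M i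
  | acts {V : Type} [DecidableEq V] [Fintype V] (M : CoxeterMatrix V) (hM : IsRA M) (n d i : ℕ)
      (hi : n < 2 * i) (hd : ∀ σ : Finset V, (gr M).IsClique (σ : Set V) → σ.card ≤ d)
      (h : Acts M.Group n d) : Vanishing M i
  | vanKampen {V : Type} [DecidableEq V] [Fintype V] (M : CoxeterMatrix V) (hM : IsFC M) (k i : ℕ)
      (hk : k < i) (hdim : ∀ σ : Finset V, (gr M).IsClique (σ : Set V) → σ.card ≤ k + 1)
      (h : VanKampenZero (gr M) k) : Vanishing M i
  | dual {V : Type} [DecidableEq V] [Fintype V] (M : CoxeterMatrix V) (hM : IsFC M) (n i j : ℕ)
      (hL : HomologySphere (gr M) n) (hij : i + j = n) (h : Vanishing M j) : Vanishing M i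
  | codim {V : Type} [DecidableEq V] [Fintype V] (M : CoxeterMatrix V) (hM : IsFC M) (m i : ℕ)
      (hm : m ≤ i) (h : ∀ σ Z : Finset V, (gr M).IsClique (σ : Set V) → σ.card = m →
        (∀ v ∈ Z, ∀ u ∈ σ, (gr M).Adj u v) → ∀ j, i ≤ j + m → Vanishing (sub M Z) j) : Vanishing M i
  | finite {V : Type} [DecidableEq V] [Fintype V] (M : CoxeterMatrix V) (hM : Finite M.Group) (i : ℕ)
      (hi : 0 < i) : Vanishing M i
  | infinite {V : Type} [DecidableEq V] [Fintype V] (M : CoxeterMatrix V) (hM : Infinite M.Group) :
      Vanishing M 0
  | glue {V : Type} [DecidableEq V] [Fintype V] (M : CoxeterMatrix V) (A B : Finset V) (i : ℕ)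
      (hAB : A ∪ B = univ) (h0 : ∀ u ∈ A \ B, ∀ v ∈ B \ A, M u v = 0)
      (hA : Vanishing (sub M A) (i + 1)) (hB : Vanishing (sub M B) (i + 1))
      (hC : Vanishing (sub M (A ∩ B)) i) : Vanishing M (i + 1)
  | part {V : Type} [DecidableEq V] [Fintype V] (M : CoxeterMatrix V) (A B : Finset V) (i : ℕ)
      (hAB : A ∪ B = univ) (h0 : ∀ u ∈ A \ B, ∀ v ∈ B \ A, M u v = 0)
      (hM : Vanishing M i) (hC : Vanishing (sub M (A ∩ B)) i) : Vanishing (sub M A) i
  | prod {V : Type} [DecidableEq V] [Fintype V] (M : CoxeterMatrix V) (A B : Finset V) (i : ℕ)
      (S : Set ℕ) (hAB : A ∪ B = univ) (hd : Disjoint A B) (h2 : ∀ u ∈ A, ∀ v ∈ B, M u v = 2)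
      (hA : ∀ p, p ≤ i → p ∈ S → Vanishing (sub M A) p)
      (hB : ∀ p, p ≤ i → p ∉ S → Vanishing (sub M B) (i - p)) : Vanishing M i

end Pool.Agent.H3.SL

end
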