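import Pool.Agent.H71.TSG.M05
import Pool.Agent.H71.TSG.M15

/-! The parts of this file: H37.MA.QP, H37.MA.Acy, H37.MA.Ext. -/

section

/-!
# Project SM, M side: the cube complex of a finite quotient of the right-angled Coxeter group

`QP D` is the finite cube complex with the vertices `P`; its universal cover is the Davis complex: `cw D` is the
bijection of its vertices with `RGrp G`. The kernel of `piP D : RGrp G →* P` is the deck group.
-/

set_option autoImplicit false
set_option linter.unusedSectionVars false

open Finset

namespace Pool.Agent.H37.MA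

open Pool.Agent.H19.Cub Pool.Agent.H77.SX Pool.Agent.H77.SW Pool.Agent.H37.TM
open Pool.Agent.H4.Singer (RGrp gen exists_lift gen_mul_gen gen_inv gen_comm)

variable {V : Type} [DecidableEq V] [Fintype V] {G : SimpleGraph V} {P : Type} [Group P]

/-- the cube complex with the vertices `P` -/
def QP (D : PG G P) : CubeComplex V P where
  graph := G
  lab _ := univ
  nb v p := p * D.g v
  lab_nb _ _ _ := mem_univ _
  nb_nb v p _ := by rw [mul_assoc, D.sq, mul_one]
  lab_adj _ _ _ _ _ _ := mem_univ _
  nb_comm u v p h _ _ := by rw [mul_assoc, mul_assoc, D.comm u v h]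

theorem exists_piP (D : PG G P) : ∃ π : RGrp G →* P, ∀ v, π (gen G v) = D.g v :=
  exists_lift G D.g D.sq D.comm

/-- the homomorphism to the finite quotient -/
noncomputable def piP (D : PG G P) : RGrp G →* P := (exists_piP D).choose

theorem piP_gen (D : PG G P) (v : V) : piP D (gen G v) = D.g v := (exists_piP D).choose_spec v

theorem qp_path (D : PG G P) (x : P) (l : List V) : (QP D).IsPath x l := by
  induction l generalizing x with
  | nil => trivial
  | cons v l ih => exact ⟨mem_univ v, ih _⟩

theorem qp_fin (D : PG G P) (x : P) (l : List V) :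
    (QP D).fin x l = x * piP D (CubeComplex.wd G l) := by
  induction l generalizing x with
  | nil =>
    show x = x * piP D 1
    rw [map_one, mul_one]
  | cons v l ih =>
    show (QP D).fin ((QP D).nb v x) l = _
    rw [ih]
    show x * D.g v * piP D (CubeComplex.wd G l) = x * piP D (gen G v * CubeComplex.wd G l)
    rw [map_mul, piP_gen, mul_assoc]

/-- the element of the Coxeter group of a vertex of the cover -/
noncomputable def cwF (D : PG G P) (c : (QP D).Cover 1) : RGrp G := ((QP D).emb 1 c).2

theorem proj_cwF (D : PG G P) (c : (QP D).Cover 1) : (QP D).proj 1 c = piP D (cwF D c) := by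
  induction c using Quot.ind with
  | mk l =>
    show (QP D).fin 1 l.1 = piP D (CubeComplex.wd G l.1)
    rw [qp_fin, one_mul]

theorem cwF_bij (D : PG G P) : Function.Bijective (cwF D) := by
  constructor
  · intro c c' h
    apply (QP D).emb_injective 1
    refine Prod.ext ?_ h
    rw [(QP D).emb_fst, (QP D).emb_fst, proj_cwF, proj_cwF, h]
  · intro w
    obtain ⟨ω, rfl⟩ := (Pool.Agent.H4.Singer.racg G).toCoxeterSystem.wordProd_surjective w
    exact ⟨Quot.mk _ ⟨ω, qp_path D 1 ω⟩, rfl⟩

/-- the vertices of the cover are the elements of the Coxeter group -/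
noncomputable def cw (D : PG G P) : (QP D).Cover 1 ≃ RGrp G := Equiv.ofBijective _ (cwF_bij D)

theorem proj_cw (D : PG G P) (c : (QP D).Cover 1) : (QP D).proj 1 c = piP D (cw D c) := proj_cwF D c

theorem cw_nbc (D : PG G P) (v : V) (c : (QP D).Cover 1) :
    cw D ((QP D).nbc 1 v c) = cw D c * gen G v := by
  induction c using Quot.ind with
  | mk l =>
    rw [(QP D).nbc_mk 1 v l (mem_univ v)]
    show CubeComplex.wd G (l.1 ++ [v]) = CubeComplex.wd G l.1 * gen G v
    exact CubeComplex.wd_snoc G l.1 v

/-- the Coxeter group acts on the vertices of the cover -/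
noncomputable instance coverAct (D : PG G P) : MulAction (RGrp G) ((QP D).Cover 1) where
  smul w c := (cw D).symm (w * cw D c)
  one_smul c := by
    show (cw D).symm (1 * cw D c) = c
    rw [one_mul, Equiv.symm_apply_apply]
  mul_smul w w' c := by
    show (cw D).symm (w * w' * cw D c) = (cw D).symm (w * cw D ((cw D).symm (w' * cw D c)))
    rw [Equiv.apply_symm_apply, mul_assoc]

theorem cw_smul (D : PG G P) (w : RGrp G) (c : (QP D).Cover 1) : cw D (w • c) = w * cw D c :=
  (cw D).apply_symm_apply _

theorem cw_smul' (D : PG G P) (w : (piP D).ker) (c : (QP D).Cover 1) :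
    cw D (w • c) = w.1 * cw D c := cw_smul D w.1 c

/-- the kernel is the deck group -/
theorem qp_deck (D : PG G P) : IsDeck (piP D).ker (QP D) 1 where
  nb g v c _ := by
    apply (cw D).injective
    rw [cw_nbc, cw_smul', cw_smul', cw_nbc, mul_assoc]
  proj g c := by
    rw [proj_cw, cw_smul', map_mul, g.2, one_mul, ← proj_cw]
  trans c c' h := by
    rw [proj_cw, proj_cw] at h
    refine ⟨⟨cw D c' * (cw D c)⁻¹, ?_⟩, ?_⟩
    · rw [MonoidHom.mem_ker, map_mul, map_inv, h, mul_inv_cancel]
    · apply (cw D).injective
      rw [cw_smul']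
      show cw D c' * (cw D c)⁻¹ * cw D c = cw D c'
      rw [inv_mul_cancel_right]
  free g c h := by
    have h1 := congrArg (cw D) h
    rw [cw_smul'] at h1
    exact Subtype.ext (mul_eq_right.1 h1)

end Pool.Agent.H37.MA

end

section

/-!
# Project SM, M side: the Davis complex is acyclic
-/

set_option autoImplicit false
set_option linter.unusedSectionVars false

open Finset

namespace Pool.Agent.H37.MA

open Pool.Agent.H19.Cub Pool.Agent.H77.SX Pool.Agent.H77.SW Pool.Agent.H37.TM
open Pool.Agent.H4.Singer (RGrp gen exists_lift gen_mul_gen gen_inv gen_comm racg racg_not_adj)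

variable {V : Type} [DecidableEq V] [Fintype V] {G : SimpleGraph V} {P : Type} [Group P]

/-- the chains of the augmented complex of the cover: `none` is the augmentation cell -/
abbrev NA (D : PG G P) : Type := Option ((QP D).Cover 1 × Finset V) →₀ ZMod 2

/-- the boundary of a cell of the augmented complex -/
noncomputable def dA1 (D : PG G P) : Option ((QP D).Cover 1 × Finset V) → NA D
  | none => 0
  | some e => if e.2 = ∅ then Finsupp.single none 1 else (bdD (QP D) 1 e).mapDomain some

theorem dA1_empty (D : PG G P) {e : (QP D).Cover 1 × Finset V} (h : e.2 = ∅) :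
    dA1 D (some e) = Finsupp.single none 1 := if_pos h

/-- the boundary of the augmented complex -/
noncomputable def dA (D : PG G P) : NA D →ₗ[ZMod 2] NA D := lin (dA1 D)

/-- the chains of degree `i - 1` of the augmented complex -/
noncomputable def MA (D : PG G P) : ℕ → Submodule (ZMod 2) (NA D)
  | 0 => Finsupp.supported (ZMod 2) (ZMod 2) {none}
  | i + 1 => Finsupp.supported (ZMod 2) (ZMod 2) (some '' Cell (QP D) 1 D.b i)

/-! ### right descents -/

section Rd

variable (G)

/-- right descents -/
private def RD (w : RGrp G) (v : V) : Prop := (racg G).toCoxeterSystem.IsRightDescent w v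

variable {G}

private theorem exists_rd {w : RGrp G} (hw : w ≠ 1) : ∃ v, RD G w v :=
  (racg G).toCoxeterSystem.exists_rightDescent_of_ne_one hw

/-! ### products over cliques -/

/-- the product of the generators in a clique -/
private noncomputable def gW (G : SimpleGraph V) (C : Finset V) : RGrp G :=
  (C.toList.map (gen G)).prod

end Rd

/-! ### bits -/

/-- the bits -/
private noncomputable def bt (D : PG G P) (w : RGrp G) (v : V) : ZMod 2 := D.b (piP D w) v

private theorem z2 {a : ZMod 2} (h : a ≠ 0) : a = 1 := by
  revert h
  revert a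
  decide

/-- the vertex with the bits `0` of the cell `w W_τ` -/
private noncomputable def nm (D : PG G P) (w : RGrp G) (τ : Finset V) : RGrp G :=
  w * gW G (τ.filter fun v => bt D w v ≠ 0)

/-- the cell -/
private noncomputable def ce (D : PG G P) (w : RGrp G) (τ : Finset V) :
    (QP D).Cover 1 × Finset V := ((cw D).symm (nm D w τ), τ)

/-! ### the longest vertex of a cell -/

open Classical in
/-- the longest vertex of a cell -/
private noncomputable def tp (D : PG G P) (e : (QP D).Cover 1 × Finset V) : RGrp G :=
  cw D e.1 * gW G (e.2.filter fun v => ¬ RD G (cw D e.1) v)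

/-! ### the contraction -/

open Classical in
/-- the contraction on the cell with the longest vertex `w` -/
private noncomputable def hh (D : PG G P) (w : RGrp G) (σ : Finset V) : NA D :=
  if h : w = 1 then 0 else
    if (exists_rd h).choose ∈ σ then 0 else
      Finsupp.single (some (ce D w (insert (exists_rd h).choose σ))) 1

/-- the contraction -/
private noncomputable def h1 (D : PG G P) : Option ((QP D).Cover 1 × Finset V) → NA D
  | none => Finsupp.single (some (ce D 1 ∅)) 1
  | some e => hh D (tp D e) e.2

end Pool.Agent.H37.MA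

end

section

/-!
# Project SM, M side: cocycles of the cubes extend to the tuples
-/

set_option autoImplicit false
set_option linter.unusedSectionVars false

open Finset

namespace Pool.Agent.H37.MA

open Pool.Agent.H19.Cub Pool.Agent.H77.SX Pool.Agent.H77.SW Pool.Agent.H37.TM
open Pool.Agent.H4.Singer (RGrp gen exists_lift gen_mul_gen gen_inv gen_comm)

variable {V : Type} [DecidableEq V] [Fintype V] {G : SimpleGraph V} {P : Type} [Group P]

/-- the action on the cells of the augmented complex -/
private noncomputable def aO (D : PG G P) (g : (piP D).ker) :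
    Option ((QP D).Cover 1 × Finset V) → Option ((QP D).Cover 1 × Finset V) :=
  Option.map fun e => (g • e.1, e.2)

private theorem aO_one (D : PG G P) : aO D 1 = id := by
  funext a
  cases a with
  | none => rfl
  | some e =>
    show some ((1 : (piP D).ker) • e.1, e.2) = some e
    rw [one_smul]

private theorem aO_mul (D : PG G P) (g h : (piP D).ker) : aO D (g * h) = aO D g ∘ aO D h := by
  funext a
  cases a with
  | none => rfl
  | some e =>
    show some ((g * h) • e.1, e.2) = some (g • h • e.1, e.2)
    rw [mul_smul]

/-- the action on the chains of the augmented complex -/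
noncomputable def rhoA (D : PG G P) : (piP D).ker →* (NA D →ₗ[ZMod 2] NA D) where
  toFun g := Finsupp.lmapDomain (ZMod 2) (ZMod 2) (Option.map fun e => (g • e.1, e.2))
  map_one' := by
    refine LinearMap.ext fun x => ?_
    show x.mapDomain (aO D 1) = x
    rw [aO_one, Finsupp.mapDomain_id]
  map_mul' g h := by
    refine LinearMap.ext fun x => ?_
    show x.mapDomain (aO D (g * h)) = (x.mapDomain (aO D h)).mapDomain (aO D g)
    rw [aO_mul, Finsupp.mapDomain_comp]

open Classical in
/-- the value of `γ` at a cell -/
private noncomputable def prv (D : PG G P) (m : ℕ) (γ : Finset V → P → ZMod 2) :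
    Option ((QP D).Cover 1 × Finset V) → ZMod 2
  | none => 0
  | some e => if e ∈ Cell (QP D) 1 D.b m then γ e.2 ((QP D).proj 1 e.1) else 0

private theorem prv_some (D : PG G P) {m : ℕ} (γ : Finset V → P → ZMod 2)
    {e : (QP D).Cover 1 × Finset V} (he : e ∈ Cell (QP D) 1 D.b m) :
    prv D m γ (some e) = γ e.2 ((QP D).proj 1 e.1) := if_pos he

/-! ### the chain map from the tuples -/

/-- all faces of a tuple have one element less -/
private theorem bdl_len {α : Type} : ∀ (L : List α) (b : List α), bdl L b ≠ 0 →
    b.length + 1 = L.length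
  | [], b, h => absurd rfl h
  | x :: l, b, h => by
    classical
    by_cases h1 : b = l
    · rw [h1]
      rfl
    · have h2 : (bdl l).mapDomain (x :: ·) b ≠ 0 := by
        intro h3
        apply h
        have e : bdl (x :: l) = Finsupp.single l 1 + (bdl l).mapDomain (x :: ·) := rfl
        rw [e, Finsupp.add_apply, h3, Finsupp.single_eq_of_ne h1, add_zero]
      obtain ⟨c, hc, rfl⟩ := Finset.mem_image.1
        (Finsupp.mapDomain_support (Finsupp.mem_support_iff.2 h2))
      have h3 := bdl_len l c (Finsupp.mem_support_iff.1 hc)
      rw [List.length_cons, List.length_cons, h3]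

private theorem Tm_len (D : PG G P) : ∀ (k : ℕ) (c : (QP D).Cover 1) (σ : Finset V)
    (L : List ((QP D).Cover 1)), Tm (QP D) 1 k c σ L ≠ 0 → L.length = k + 1
  | 0, c, σ, L, h => by
    classical
    have h1 : Tm (QP D) 1 0 c σ = Finsupp.single [c] 1 := rfl
    rw [h1] at h
    by_cases h2 : L = [c]
    · rw [h2]
      rfl
    · exact absurd (Finsupp.single_eq_of_ne h2) h
  | k + 1, c, σ, L, h => by
    classical
    have h1 : Tm (QP D) 1 (k + 1) c σ =
      ∑ v ∈ σ, (Tm (QP D) 1 k ((QP D).nbc 1 v c) (σ.erase v)).mapDomain (c :: ·) := rfl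
    rw [h1, Finsupp.finsetSum_apply] at h
    obtain ⟨v, -, hv⟩ := exists_ne_zero_of_sum_ne_zero h
    obtain ⟨L', hL', rfl⟩ := Finset.mem_image.1
      (Finsupp.mapDomain_support (Finsupp.mem_support_iff.2 hv))
    have h2 := Tm_len D k _ _ L' (Finsupp.mem_support_iff.1 hL')
    rw [List.length_cons, h2]

/-- all lists of `TT e` have `e.2.card + 1` elements -/
theorem TT_len (D : PG G P) (e : (QP D).Cover 1 × Finset V) (L : List ((QP D).Cover 1))
    (h : TT (QP D) 1 e L ≠ 0) : L.length = e.2.card + 1 := Tm_len D _ _ _ L h

end Pool.Agent.H37.MA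

end
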