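import Pool.Agent.H71.TSG.M05
import Pool.Agent.H71.TSG.M15

/-! The parts of this file: S10.Dic, S10.Emb, S9.MG1. -/

section

/-!
# Project S10: dictionary between finite special cube complexes and right `W`-sets

`Q` is a cube complex with labelled edges, `R : Rac Q.graph W`. The completed involutions `Q.cs v` define a
right action `ra` of `W` on the vertices. The universal cover of `Q` at `x₀` embeds into `W` (`em`); a label `v` is
active at `w` if `v ∈ Q.lab (ra x₀ w)`.
-/

set_option autoImplicit false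
set_option linter.unusedSectionVars false

open Finset

namespace Pool.Agent.S10

open Pool.Agent.H19.Cub Pool.Agent.S9 Pool.Agent.H37.TM

variable {V X : Type} [DecidableEq V] [Fintype V]

section Ra

variable (Q : CubeComplex V X) {W : Type} [Group W] (R : Rac Q.graph W)

private theorem ra_ex : ∃ f : W →* Equiv.Perm X, ∀ v x, f (R.s v) x = Q.cs v x := by
  have hs := Q.isSpec
  obtain ⟨f, hf⟩ := R.lift (Equiv.Perm X) (fun v => ⟨Q.cs v, Q.cs v, hs.inv v, hs.inv v⟩)
    (fun v => Equiv.ext fun c => hs.inv v c) (fun u v huv => Equiv.ext fun c => hs.comm u v huv c)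
  exact ⟨f, fun v x => by rw [hf]; rfl⟩

/-- the right action of `W` on the vertices -/
noncomputable def ra (x : X) (w : W) : X := (ra_ex Q R).choose w⁻¹ x

theorem s_inv (v : V) : (R.s v)⁻¹ = R.s v := inv_eq_of_mul_eq_one_left (R.sq v)

theorem ra_one (x : X) : ra Q R x 1 = x := by
  unfold ra
  rw [inv_one, map_one]
  rfl

theorem ra_mul (x : X) (w w' : W) : ra Q R x (w * w') = ra Q R (ra Q R x w) w' := by
  unfold ra
  rw [mul_inv_rev, map_mul]
  rfl

theorem ra_s (x : X) (v : V) : ra Q R x (R.s v) = Q.cs v x := by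
  unfold ra
  rw [s_inv, (ra_ex Q R).choose_spec]

theorem ra_mul_s (x : X) (w : W) (v : V) : ra Q R x (w * R.s v) = Q.cs v (ra Q R x w) := by
  rw [ra_mul, ra_s]

theorem ra_inv (x : X) (w : W) : ra Q R (ra Q R x w) w⁻¹ = x := by
  rw [← ra_mul, mul_inv_cancel, ra_one]

theorem ra_inv' (x : X) (w : W) : ra Q R (ra Q R x w⁻¹) w = x := by
  rw [← ra_mul, inv_mul_cancel, ra_one]

theorem ra_eq_iff (x : X) (w w' : W) :
    ra Q R x w = ra Q R x w' ↔ ra Q R x (w * w'⁻¹) = x := by
  rw [ra_mul]
  constructor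
  · intro h
    rw [h, ra_inv]
  · intro h
    rw [← ra_inv' Q R (ra Q R x w) w', h]

/-- the kernel of the action on the vertices -/
noncomputable def raKer : Subgroup W where
  carrier := {g | ∀ x, ra Q R x g = x}
  mul_mem' := by
    intro a b ha hb x
    rw [ra_mul, ha, hb]
  one_mem' := fun x => ra_one Q R x
  inv_mem' := by
    intro a ha x
    have h1 := ra_inv Q R x a
    rwa [ha x] at h1

theorem mem_raKer {g : W} : g ∈ raKer Q R ↔ ∀ x, ra Q R x g = x := Iff.rfl

/-- **activity**: the label `v` is active at `w` -/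
def actv (x₀ : X) (v : V) (w : W) : Prop := v ∈ Q.lab (ra Q R x₀ w)

theorem lab_cs_self (v : V) (x : X) : v ∈ Q.lab (Q.cs v x) ↔ v ∈ Q.lab x := by
  by_cases h : v ∈ Q.lab x
  · rw [Q.cs_of_mem h]
    exact ⟨fun _ => h, fun _ => Q.lab_nb v x h⟩
  · rw [Q.cs_of_not_mem h]

theorem lab_cs_adj {u v : V} (huv : Q.graph.Adj u v) (x : X) :
    v ∈ Q.lab (Q.cs u x) ↔ v ∈ Q.lab x := by
  by_cases hu : u ∈ Q.lab x
  · rw [Q.cs_of_mem hu]
    refine ⟨fun hv => ?_, fun hv => Q.lab_adj v u x huv.symm hv hu⟩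
    have h2 := Q.lab_adj v u (Q.nb u x) huv.symm hv (Q.lab_nb u x hu)
    rwa [Q.nb_nb u x hu] at h2
  · rw [Q.cs_of_not_mem hu]

end Ra

section Em

variable (Q : CubeComplex V X) {W : Type} [Group W] (R : Rac Q.graph W)

/-- the element of `W` of a path -/
def wdR (l : List V) : W := (l.map R.s).prod

theorem wdR_append (l m : List V) : wdR Q R (l ++ m) = wdR Q R l * wdR Q R m := by
  unfold wdR
  rw [List.map_append, List.prod_append]

theorem wdR_snoc (l : List V) (v : V) : wdR Q R (l ++ [v]) = wdR Q R l * R.s v := by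
  rw [wdR_append]
  congr 1
  show (List.map R.s [v]).prod = _
  simp

theorem wdR_step {l l' : List V} (h : Step Q.graph l l') : wdR Q R l = wdR Q R l' := by
  cases h with
  | back a b v =>
    simp only [wdR, List.map_append, List.map_cons, List.prod_append, List.prod_cons]
    rw [← mul_assoc (R.s v), R.sq, one_mul]
  | square a b u v h =>
    simp only [wdR, List.map_append, List.map_cons, List.prod_append, List.prod_cons]
    rw [← mul_assoc (R.s u), R.comm u v h, mul_assoc (R.s v)]

/-- the embedding of the universal cover -/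
def em (x₀ : X) : Q.Cover x₀ → W :=
  Quot.lift (fun l => wdR Q R l.1) fun l l' h => wdR_step Q R h

/-- the base point of the universal cover -/
def bp (x₀ : X) : Q.Cover x₀ := Quot.mk _ ⟨[], trivial⟩

theorem em_bp (x₀ : X) : em Q R x₀ (bp Q x₀) = 1 := rfl

theorem proj_bp (x₀ : X) : Q.proj x₀ (bp Q x₀) = x₀ := rfl

theorem em_nbc (x₀ : X) (c : Q.Cover x₀) {v : V} (hv : v ∈ Q.lab (Q.proj x₀ c)) :
    em Q R x₀ (Q.nbc x₀ v c) = em Q R x₀ c * R.s v := by
  induction c using Quot.ind with
  | mk l =>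
    have h' : v ∈ Q.lab (Q.fin x₀ l.1) := hv
    rw [Q.nbc_mk x₀ v l h']
    exact wdR_snoc Q R l.1 v

/-- induction over the universal cover -/
theorem cover_ind (x₀ : X) (p : Q.Cover x₀ → Prop) (h0 : p (bp Q x₀))
    (h1 : ∀ c v, v ∈ Q.lab (Q.proj x₀ c) → p c → p (Q.nbc x₀ v c)) (c : Q.Cover x₀) : p c := by
  induction c using Quot.ind with
  | mk l =>
    obtain ⟨l, hl⟩ := l
    induction l using List.reverseRecOn with
    | nil => exact h0
    | append_singleton l v ih =>
      obtain ⟨hl1, hl2, -⟩ := (Q.isPath_append x₀ l [v]).1 hl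
      have h2 := h1 (Quot.mk _ ⟨l, hl1⟩) v hl2 (ih hl1)
      have h3 := Q.nbc_mk x₀ v ⟨l, hl1⟩ hl2
      rw [h3] at h2
      exact h2

theorem proj_nbc (x₀ : X) (c : Q.Cover x₀) {v : V} (hv : v ∈ Q.lab (Q.proj x₀ c)) :
    Q.proj x₀ (Q.nbc x₀ v c) = Q.nb v (Q.proj x₀ c) := by
  induction c using Quot.ind with
  | mk l =>
    have h' : v ∈ Q.lab (Q.fin x₀ l.1) := hv
    rw [Q.nbc_mk x₀ v l h']
    show Q.fin x₀ (l.1 ++ [v]) = Q.nb v (Q.fin x₀ l.1)
    rw [Q.fin_append]
    rfl

theorem ra_em (x₀ : X) (c : Q.Cover x₀) : ra Q R x₀ (em Q R x₀ c) = Q.proj x₀ c := by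
  refine cover_ind Q x₀ (fun c => ra Q R x₀ (em Q R x₀ c) = Q.proj x₀ c) ?_ (fun c v hv ih => ?_) c
  · rw [em_bp, ra_one, proj_bp]
  · rw [em_nbc Q R x₀ c hv, ra_mul_s, ih, Q.cs_of_mem hv, proj_nbc Q x₀ c hv]

theorem em_inj (x₀ : X) : Function.Injective (em Q R x₀) := by
  have hs := (Q.cover x₀).isSpec
  obtain ⟨f, hf⟩ := R.lift (Equiv.Perm (Q.Cover x₀))
    (fun v => ⟨(Q.cover x₀).cs v, (Q.cover x₀).cs v, hs.inv v, hs.inv v⟩)
    (fun v => Equiv.ext fun c => hs.inv v c) (fun u v huv => Equiv.ext fun c => hs.comm u v huv c)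
  have hb : ∀ c : Q.Cover x₀, f (em Q R x₀ c)⁻¹ (bp Q x₀) = c := by
    intro c
    refine cover_ind Q x₀ (fun c => f (em Q R x₀ c)⁻¹ (bp Q x₀) = c) ?_ (fun c v hv ih => ?_) c
    · rw [em_bp, inv_one, map_one]
      rfl
    · rw [em_nbc Q R x₀ c hv, mul_inv_rev, map_mul, s_inv, Equiv.Perm.mul_apply, ih, hf]
      exact (Q.cover x₀).cs_of_mem (show v ∈ (Q.cover x₀).lab c from hv)
  intro c c' h
  rw [← hb c, ← hb c', h]

/-- the vertices of the component of `1` -/
def comp (x₀ : X) : Set W := Set.range (em Q R x₀)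

end Em

section Deck

variable {Q : CubeComplex V X} {W : Type} [Group W] {R : Rac Q.graph W} {x₀ : X}
  {Γ : Type} [Group Γ] [MulAction Γ (Q.Cover x₀)]

theorem smul_eq (hΓ : IsDeck Γ Q x₀) (g : Γ) (c : Q.Cover x₀) :
    em Q R x₀ (g • c) = em Q R x₀ (g • bp Q x₀) * em Q R x₀ c := by
  refine cover_ind Q x₀ (fun c => em Q R x₀ (g • c) = em Q R x₀ (g • bp Q x₀) * em Q R x₀ c) ?_
    (fun c v hv ih => ?_) c
  · rw [em_bp, mul_one]
  · have hv' : v ∈ Q.lab (Q.proj x₀ (g • c)) := by rwa [hΓ.proj]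
    rw [← hΓ.nb g v c hv, em_nbc Q R x₀ _ hv', ih, em_nbc Q R x₀ c hv, mul_assoc]

/-- the homomorphism from the deck group to `W` -/
noncomputable def jj (R : Rac Q.graph W) (hΓ : IsDeck Γ Q x₀) : Γ →* W where
  toFun g := em Q R x₀ (g • bp Q x₀)
  map_one' := by rw [one_smul, em_bp]
  map_mul' g h := by rw [mul_smul, smul_eq hΓ]

theorem em_smul (hΓ : IsDeck Γ Q x₀) (g : Γ) (c : Q.Cover x₀) :
    em Q R x₀ (g • c) = jj R hΓ g * em Q R x₀ c := smul_eq hΓ g c

end Deck

section Trans

variable (Q : CubeComplex V X) {W : Type} [Group W] (R : Rac Q.graph W)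

/-- every element of `W` has the same end point as an element of the component of `1` -/
theorem exists_comp (x₀ : X) (w : W) : ∃ c : Q.Cover x₀, Q.proj x₀ c = ra Q R x₀ w := by
  have hw : w ∈ Subgroup.closure (Set.range R.s) := by
    rw [R.gen]
    trivial
  induction hw using Subgroup.closure_induction_right with
  | one => exact ⟨bp Q x₀, by rw [ra_one, proj_bp]⟩
  | mul_right w _ s hs ih =>
    obtain ⟨v, rfl⟩ := hs
    obtain ⟨c, hc⟩ := ih
    rw [ra_mul_s]
    by_cases h : v ∈ Q.lab (ra Q R x₀ w)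
    · rw [Q.cs_of_mem h]
      rw [← hc] at h
      exact ⟨Q.nbc x₀ v c, by rw [proj_nbc Q x₀ c h, hc]⟩
    · rw [Q.cs_of_not_mem h]
      exact ⟨c, hc⟩
  | mul_inv_cancel w _ s hs ih =>
    obtain ⟨v, rfl⟩ := hs
    obtain ⟨c, hc⟩ := ih
    rw [s_inv, ra_mul_s]
    by_cases h : v ∈ Q.lab (ra Q R x₀ w)
    · rw [Q.cs_of_mem h]
      rw [← hc] at h
      exact ⟨Q.nbc x₀ v c, by rw [proj_nbc Q x₀ c h, hc]⟩
    · rw [Q.cs_of_not_mem h]
      exact ⟨c, hc⟩

/-- every element of `W` lies in a translate of the component of `1` by an element which fixes `x₀` -/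
theorem exists_translate (x₀ : X) (w : W) : ∃ (g : W) (y : W), ra Q R x₀ g = x₀ ∧
    y ∈ comp Q R x₀ ∧ g * y = w := by
  obtain ⟨c, hc⟩ := exists_comp Q R x₀ w
  refine ⟨w * (em Q R x₀ c)⁻¹, em Q R x₀ c, ?_, ⟨c, rfl⟩, by simp⟩
  rw [← ra_eq_iff, ra_em, hc]

end Trans

end Pool.Agent.S10

end

section

/-!
# Project S10, block M: the universal cover of a level in the right-angled Coxeter group, cochains on its cubes

`IsEmb`: the universal cover of the labelled complex `Q`, with a group `Γ`, is a component of the active subcomplex with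
its stabilizer. `CubC`: equivariant cochains (or chains) on the cubes of the universal cover, with coefficients in a module
of the larger group `Φ`. `EffC`: effaceability for them. `NQ`, `dQ`, `MQ`: the augmented cubical chain complex of the
universal cover.
-/

set_option autoImplicit false
set_option linter.unusedSectionVars false

open Finset

namespace Pool.Agent.S10

open Pool.Agent.H19.Cub Pool.Agent.H37.TM Pool.Agent.S9

/-- the universal cover of `Q` with the action of `Γ` is a component of the active subcomplex of the Davis complex,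
with its stabilizer in `Φ` -/
structure IsEmb {V X Γ W : Type} [DecidableEq V] [Group Γ] [Group W] (Q : CubeComplex V X)
    (R : Rac Q.graph W) (Φ : Subgroup W) (act : V → W → Prop) (x₀ : X)
    [MulAction Γ (Q.Cover x₀)] (θ : Γ →* Φ) (j : Q.Cover x₀ → W) : Prop where
  nb : ∀ c v, v ∈ Q.lab (Q.proj x₀ c) → j (Q.nbc x₀ v c) = j c * R.s v
  act : ∀ c v, act v (j c) ↔ v ∈ Q.lab (Q.proj x₀ c)
  smul : ∀ (g : Γ) c, j (g • c) = (θ g : W) * j c
  sep : ∀ (φ : Φ) c c', (φ : W) * j c = j c' → ∃ g : Γ, θ g = φ ∧ g • c = c'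

section Cub

variable {V X Γ Φ : Type} [DecidableEq V] [Group Γ] [Group Φ] (Q : CubeComplex V X) (x₀ : X)
  [MulAction Γ (Q.Cover x₀)] {K : Type} [Field K] {E : Type} [AddCommGroup E] [Module K E]

/-- equivariant cochains of degree `k` on the cubes of the universal cover -/
structure CubC (θ : Γ →* Φ) (ρ : Φ →* Module.End K E) (k : ℕ) (c : Q.Cover x₀ × Finset V → E) :
    Prop where
  valid : ∀ e, c e ≠ 0 → e.2 ⊆ Q.lab (Q.proj x₀ e.1) ∧ Q.graph.IsClique (e.2 : Set V) ∧
    e.2.card = k
  nb : ∀ y σ, σ ⊆ Q.lab (Q.proj x₀ y) → ∀ v ∈ σ, c (Q.nbc x₀ v y, σ) = c (y, σ)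
  smul : ∀ (g : Γ) (e : Q.Cover x₀ × Finset V), c (g • e.1, e.2) = ρ (θ g) (c e)

open Classical in
/-- the coboundary -/
noncomputable def cbC (c : Q.Cover x₀ × Finset V → E) (e : Q.Cover x₀ × Finset V) : E :=
  if e.2 ⊆ Q.lab (Q.proj x₀ e.1) ∧ Q.graph.IsClique (e.2 : Set V) then
    ∑ v ∈ e.2, (c (e.1, e.2.erase v) + c (Q.nbc x₀ v e.1, e.2.erase v)) else 0

/-- effaceability for the cochains on the cubes of the universal cover -/
def EffC (K : Type) [Field K] (θ : Γ →* Φ) (Λ : Subgroup Kˣ) : Prop :=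
  ∀ (k : ℕ) (E : Type) [AddCommGroup E] [Module K E] [FiniteDimensional K E]
    (ρ : Φ →* Module.End K E), Tri Λ ρ → ∀ x : Q.Cover x₀ × Finset V → E,
    CubC Q x₀ θ ρ (k + 1) x → (∀ e, cbC Q x₀ x e = 0) →
    ∃ (E' : Type) (_ : AddCommGroup E') (_ : Module K E') (_ : FiniteDimensional K E')
      (ρ' : Φ →* Module.End K E') (ι : E →ₗ[K] E') (y : Q.Cover x₀ × Finset V → E'),
      Tri Λ ρ' ∧ Function.Injective ι ∧ (∀ g e, ι (ρ g e) = ρ' g (ι e)) ∧
      CubC Q x₀ θ ρ' k y ∧ ∀ e, cbC Q x₀ y e = ι (x e)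

end Cub

section Aug

variable {V X : Type} [DecidableEq V] (Q : CubeComplex V X) (x₀ : X) (bit : X → V → ZMod 2)

/-- the chains of the augmented cubical complex of the universal cover: `none` is the augmentation cell -/
abbrev NQ : Type := Option (Q.Cover x₀ × Finset V) →₀ ZMod 2

/-- the boundary of a cell of the augmented complex -/
noncomputable def dQ1 : Option (Q.Cover x₀ × Finset V) → NQ Q x₀
  | none => 0
  | some e => if e.2 = ∅ then Finsupp.single none 1 else (bdD Q x₀ e).mapDomain some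

theorem dQ1_empty {e : Q.Cover x₀ × Finset V} (h : e.2 = ∅) :
    dQ1 Q x₀ (some e) = Finsupp.single none 1 := if_pos h

/-- the boundary of the augmented complex -/
noncomputable def dQ : NQ Q x₀ →ₗ[ZMod 2] NQ Q x₀ := lin (dQ1 Q x₀)

/-- the chains of degree `i - 1` of the augmented complex -/
noncomputable def MQ : ℕ → Submodule (ZMod 2) (NQ Q x₀)
  | 0 => Finsupp.supported (ZMod 2) (ZMod 2) {none}
  | i + 1 => Finsupp.supported (ZMod 2) (ZMod 2) (some '' Cell Q x₀ bit i)

end Aug

end Pool.Agent.S10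

end

section

/-!
# Project S9, block M: the right-angled Coxeter group and its finite quotients; effaceability for tuples

`racR G` is the group `RGrp G` as a right-angled Coxeter group; a level `Γ` is the kernel of the homomorphism
`piP D` to a finite group `D : PG G P`. `EffT` is effaceability for the equivariant cochains on the tuples of a
set `C` with an action of `Γ` (`C` = vertices of the Davis complex).
-/

set_option autoImplicit false
set_option linter.unusedSectionVars false

open Finset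

namespace Pool.Agent.S9

open Pool.Agent.H19.Cub Pool.Agent.H77.SX Pool.Agent.H77.SW Pool.Agent.H37.TM
open Pool.Agent.H4.Singer (RGrp gen exists_lift gen_mul_gen gen_inv gen_comm racg)

variable {V : Type} [DecidableEq V] [Fintype V]

/-- the right-angled Coxeter group of `G` -/
noncomputable def racR (G : SimpleGraph V) : Rac G (RGrp G) where
  s := gen G
  sq := gen_mul_gen G
  comm := gen_comm G
  gen := (racg G).toCoxeterSystem.subgroup_closure_range_simple
  lift := fun _ _ g h1 h2 => exists_lift G g h1 h2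

/-- the coboundary of a function on the tuples (no signs: characteristic two) -/
def dT {C E : Type} [AddCommGroup E] : (List C → E) → List C → E
  | _, [] => 0
  | x, v :: l => x l + dT (fun m => x (v :: m)) l

theorem dT_eq {C E : Type} [AddCommGroup E] [Module (ZMod 2) E] : ∀ (x : List C → E) (L : List C),
    dT x L = lin x (bdl L)
  | x, [] => (map_zero _).symm
  | x, v :: l => by
    show x l + dT (fun m => x (v :: m)) l = lin x (Finsupp.single l 1 + (bdl l).mapDomain (v :: ·))
    rw [map_add, lin_single, dT_eq, lin_map]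

end Pool.Agent.S9

end
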