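import Pool.Agent.H71.TSG.M18
import Pool.Agent.H71.TSG.M25
import Pool.Agent.H71.TSG.M31
import Pool.Agent.H71.TSG.M32

/-! The parts of this file: H4.Singer.AntiExt, H4.Singer.RankCompare, H85.Fold.Alg, H19.PD.Zig, H19.Cub.Transf, S10.Wset, S9.G.Bri, S9.MG2, S9.MInt. -/

section

/-!
# Singer project: antisymmetric extensions
-/

set_option autoImplicit false
set_option linter.unusedSectionVars false

open Finset

namespace Pool.Agent.H4.Singer

variable {V C : Type} [DecidableEq V] [Fintype V] [DecidableEq C] {G : ColGraph V C}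

/-- Antisymmetric extension as an integer matrix: for a clique `σ` there is an integer matrix `E`
such that for all fields `F` and `x : Ω → F` the function `E x` is antisymmetric under `s v`,
`v ∈ σ`, and agrees with `x` at the points whose bits at the colours of `σ` are `false`.

Proof: induction on `σ`; for `insert u σ` let
`E' ω = if bit ω (col u) = false then E ω else - E (s u ω)` (rows). -/
theorem exists_ext {Ω : Type} [Fintype Ω] (X : InvAct G Ω) (σ : Finset V) (hσ : G.Cl σ) :
    ∃ E : Ω → Ω → ℤ, ∀ (F : Type) [Field F] (x : Ω → F),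
      (∀ v ∈ σ, ∀ ω, ∑ ω', (E (X.s v ω) ω' : F) * x ω' = - ∑ ω', (E ω ω' : F) * x ω') ∧
      ∀ ω, (∀ v ∈ σ, X.bit ω (G.col v) = false) → ∑ ω', (E ω ω' : F) * x ω' = x ω := by
  classical
  induction σ using Finset.induction_on with
  | empty =>
    refine ⟨fun ω ω' => if ω = ω' then 1 else 0, fun F _ x => ⟨fun v hv => absurd hv (by simp), ?_⟩⟩
    intro ω _
    simp
  | @insert u σ hu ih =>
    obtain ⟨E, hE⟩ := ih fun a ha b hb hab =>
      hσ a (mem_insert_of_mem ha) b (mem_insert_of_mem hb) hab
    refine ⟨fun ω => if X.bit ω (G.col u) = false then E ω else fun ω' => - E (X.s u ω) ω',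
      fun F _ x => ?_⟩
    obtain ⟨h1, h2⟩ := hE F x
    have key : ∀ ω, ∑ ω', (((if X.bit ω (G.col u) = false then E ω
        else fun ω' => - E (X.s u ω) ω') ω' : ℤ) : F) * x ω' =
        if X.bit ω (G.col u) = false then ∑ ω', (E ω ω' : F) * x ω'
        else - ∑ ω', (E (X.s u ω) ω' : F) * x ω' := by
      intro ω
      split_ifs with h
      · rfl
      · push_cast
        rw [← Finset.sum_neg_distrib]
        exact Finset.sum_congr rfl fun _ _ => by ring
    have hbit : ∀ ω, X.bit (X.s u ω) (G.col u) = !(X.bit ω (G.col u)) := by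
      intro ω
      rw [X.bit_s]
      simp
    refine ⟨fun v hv ω => ?_, fun ω hω => ?_⟩
    · rw [key, key]
      rcases Finset.mem_insert.1 hv with rfl | hv'
      · rw [hbit, X.invol]
        cases h : X.bit ω (G.col v) <;> simp
      · have hadj : G.adj u v := hσ u (mem_insert_self u σ) v hv (fun h => hu (h ▸ hv'))
        have hcol : X.bit (X.s v ω) (G.col u) = X.bit ω (G.col u) := by
          rw [X.bit_s, Function.update_of_ne (G.ne u v hadj)]
        rw [hcol, X.comm u v hadj, h1 v hv' ω, h1 v hv' (X.s u ω)]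
        split_ifs <;> simp
    · rw [key, if_pos (hω u (mem_insert_self u σ))]
      exact h2 ω fun v hv => hω v (mem_insert_of_mem hv)

/-- an antisymmetric function is determined by its values at the points whose bits at the colours of
`σ` are `false` -/
theorem anti_ext {Ω : Type} (X : InvAct G Ω) (σ : Finset V) (hσ : G.Cl σ) {F : Type} [Field F]
    (f g : Ω → F) (hf : ∀ v ∈ σ, ∀ ω, f (X.s v ω) = - f ω)
    (hg : ∀ v ∈ σ, ∀ ω, g (X.s v ω) = - g ω)
    (hfg : ∀ ω, (∀ v ∈ σ, X.bit ω (G.col v) = false) → f ω = g ω) : f = g := by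
  classical
  funext ω
  -- induction on the number of vertices with bit true
  induction hn : (σ.filter fun v => X.bit ω (G.col v) = true).card using Nat.strong_induction_on
    generalizing ω with
  | _ n ih =>
    by_cases h : ∀ v ∈ σ, X.bit ω (G.col v) = false
    · exact hfg ω h
    · push Not at h
      obtain ⟨v, hv, hb⟩ := h
      have hb' : X.bit ω (G.col v) = true := by simpa using hb
      have h1 : f (X.s v ω) = g (X.s v ω) := by
        refine ih _ ?_ (X.s v ω) rfl
        rw [← hn]
        refine Finset.card_lt_card ?_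
        rw [Finset.ssubset_iff_of_subset]
        · refine ⟨v, Finset.mem_filter.2 ⟨hv, hb'⟩, fun h => ?_⟩
          have := (Finset.mem_filter.1 h).2
          rw [X.bit_s, Function.update_self, hb'] at this
          simp at this
        · intro w hw
          rw [Finset.mem_filter] at hw ⊢
          refine ⟨hw.1, ?_⟩
          have h2 := hw.2
          rw [X.bit_s] at h2
          by_cases hwv : w = v
          · subst hwv
            exact hb'
          · rwa [Function.update_of_ne (G.ne w v (hσ w hw.1 v hv hwv))] at h2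
      rw [hf v hv ω, hg v hv ω] at h1
      exact neg_injective h1

end Pool.Agent.H4.Singer

end

section

/-!
# Singer project: comparison of the Betti numbers over `ℂ` and over an arbitrary field
-/

set_option autoImplicit false
set_option linter.unusedSectionVars false

open Finset

namespace Pool.Agent.H4.Singer

variable {V C : Type} [DecidableEq V] [Fintype V] [DecidableEq C] {G : ColGraph V C}

private def RCell {Ω : Type} (X : InvAct G Ω) (i : ℕ) (p : Finset V × Ω) : Prop :=
  G.Cl p.1 ∧ p.1.card = i ∧ ∀ v ∈ p.1, X.bit p.2 (G.col v) = false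

open Classical in
private noncomputable def rext {Ω : Type} (X : InvAct G Ω) (i : ℕ) {F : Type} [Field F]
    (x : {p : Finset V × Ω // RCell X i p} → F) (σ : Finset V) (ω : Ω) : F :=
  if h : RCell X i (σ, ω) then x ⟨(σ, ω), h⟩ else 0

open Classical in
private theorem rsum {Ω : Type} [Fintype Ω] (X : InvAct G Ω) (i : ℕ) {F : Type} [Field F]
    (x : {p : Finset V × Ω // RCell X i p} → F) (σ : Finset V) (f : Ω → ℤ) :
    ∑ c : {p : Finset V × Ω // RCell X i p}, ((if c.1.1 = σ then f c.1.2 else 0 : ℤ) : F) * x c =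
      ∑ ω, (f ω : F) * rext X i x σ ω := by
  have h1 : ∑ c : {p : Finset V × Ω // RCell X i p},
      ((if c.1.1 = σ then f c.1.2 else 0 : ℤ) : F) * x c =
      ∑ c : {p : Finset V × Ω // RCell X i p},
        (fun p : Finset V × Ω => ((if p.1 = σ then f p.2 else 0 : ℤ) : F) *
          rext X i x p.1 p.2) c.1 := by
    refine Finset.sum_congr rfl fun c _ => ?_
    have : rext X i x c.1.1 c.1.2 = x c := by
      unfold rext
      rw [dif_pos c.2]
    simp only [this]
  rw [h1]
  have h2 : ∑ c : {p : Finset V × Ω // RCell X i p},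
        (fun p : Finset V × Ω => ((if p.1 = σ then f p.2 else 0 : ℤ) : F) *
          rext X i x p.1 p.2) c.1 = ∑ p ∈ Finset.univ.filter (RCell X i),
        (fun p : Finset V × Ω => ((if p.1 = σ then f p.2 else 0 : ℤ) : F) *
          rext X i x p.1 p.2) p := by
    symm
    apply Finset.sum_subtype
    intro p
    simp
  rw [h2, Finset.sum_filter_of_ne, Fintype.sum_prod_type]
  · rw [Finset.sum_eq_single σ]
    · simp
    · intro τ _ hτ
      simp [hτ]
    · intro h
      exact absurd (Finset.mem_univ _) h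
  · intro p _ hp
    by_contra hc
    apply hp
    have : rext X i x p.1 p.2 = 0 := by
      unfold rext
      rw [dif_neg hc]
    simp [this]

private theorem exists_int_matrix {Ω : Type} [Fintype Ω] (X : InvAct G Ω) (ν : V → ℕ) (i : ℕ) :
    ∃ (I : Type) (_ : Fintype I) (D : Matrix (Finset V × Ω) I ℤ), ∀ (F : Type) [Field F],
      Module.finrank F ((Ch F X i).map (dl F ν)) = (D.map (Int.cast : ℤ → F)).rank ∧
      Module.finrank F (Zc F X ν i) + (D.map (Int.cast : ℤ → F)).rank = Fintype.card I := by
  classical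
  have hE : ∀ σ : Finset V, ∃ E : Ω → Ω → ℤ, G.Cl σ → ∀ (F : Type) [Field F] (x : Ω → F),
      (∀ v ∈ σ, ∀ ω, ∑ ω', (E (X.s v ω) ω' : F) * x ω' = - ∑ ω', (E ω ω' : F) * x ω') ∧
      ∀ ω, (∀ v ∈ σ, X.bit ω (G.col v) = false) → ∑ ω', (E ω ω' : F) * x ω' = x ω := by
    intro σ
    by_cases h : G.Cl σ
    · obtain ⟨E, hE⟩ := exists_ext X σ h
      exact ⟨E, fun _ => hE⟩
    · exact ⟨0, fun h' => absurd h' h⟩
  choose E hE using hE
  let I := {p : Finset V × Ω // RCell X i p}
  let Mx : Finset V → Ω → I → ℤ := fun σ ω c => if c.1.1 = σ then E σ ω c.1.2 else 0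
  let D : Matrix (Finset V × Ω) I ℤ := fun p c => ∑ v ∈ p.1ᶜ, sg ν v p.1 * Mx (insert v p.1) p.2 c
  refine ⟨I, inferInstance, D, fun F _ => ?_⟩
  let φ : (I → F) →ₗ[F] (Finset V → Ω → F) :=
    { toFun := fun x σ ω => ∑ c : I, (Mx σ ω c : F) * x c
      map_add' := by
        intro x y
        funext σ ω
        simp [mul_add, Finset.sum_add_distrib]
      map_smul' := by
        intro a x
        funext σ ω
        simp only [Pi.smul_apply, smul_eq_mul, RingHom.id_apply, Finset.mul_sum]
        exact Finset.sum_congr rfl fun c _ => by ring }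
  have hφ : ∀ (x : I → F) (σ : Finset V) (ω : Ω),
      φ x σ ω = ∑ ω', (E σ ω ω' : F) * rext X i x σ ω' := by
    intro x σ ω
    exact rsum X i x σ (E σ ω)
  have hz : ∀ (x : I → F) (σ : Finset V), ¬ (G.Cl σ ∧ σ.card = i) → ∀ ω, φ x σ ω = 0 := by
    intro x σ h ω
    rw [hφ]
    refine Finset.sum_eq_zero fun ω' _ => ?_
    have : rext X i x σ ω' = 0 := by
      unfold rext
      rw [dif_neg (fun h' : RCell X i (σ, ω') => h ⟨h'.1, h'.2.1⟩)]
    rw [this, mul_zero]
  have hanti : ∀ (x : I → F) (σ : Finset V), ∀ v ∈ σ, ∀ ω, φ x σ (X.s v ω) = - φ x σ ω := by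
    intro x σ v hv ω
    by_cases h : G.Cl σ
    · rw [hφ, hφ]
      exact (hE σ h F (rext X i x σ)).1 v hv ω
    · rw [hz x σ (fun h' => h h'.1), hz x σ (fun h' => h h'.1), neg_zero]
  have hres : ∀ (x : I → F) (σ : Finset V) (ω : Ω) (h : RCell X i (σ, ω)),
      φ x σ ω = x ⟨(σ, ω), h⟩ := by
    intro x σ ω h
    rw [hφ, (hE σ h.1 F (rext X i x σ)).2 ω h.2.2]
    unfold rext
    rw [dif_pos h]
  have hinj : Function.Injective φ := by
    intro x y hxy
    funext c
    have h1 := hres x c.1.1 c.1.2 c.2
    have h2 := hres y c.1.1 c.1.2 c.2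
    have h3 : x c = φ x c.1.1 c.1.2 := h1.symm
    have h4 : y c = φ y c.1.1 c.1.2 := h2.symm
    rw [h3, h4, hxy]
  have hrange : LinearMap.range φ = Ch F X i := by
    apply le_antisymm
    · rintro _ ⟨x, rfl⟩
      rw [mem_Ch]
      refine ⟨fun σ ω h => ?_, hanti x⟩
      by_contra hc
      exact h (hz x σ hc ω)
    · intro f hf
      rw [mem_Ch] at hf
      refine ⟨fun c => f c.1.1 c.1.2, ?_⟩
      funext σ
      by_cases h : G.Cl σ ∧ σ.card = i
      · refine anti_ext X σ h.1 _ _ (hanti _ σ) (hf.2 σ) fun ω hω => ?_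
        rw [hres _ σ ω ⟨h.1, h.2, hω⟩]
      · funext ω
        rw [hz _ σ h]
        by_contra hc
        exact h (hf.1 σ ω (Ne.symm hc))
  -- the matrix of `dl ∘ φ`
  have hD : ∀ (x : I → F) (τ : Finset V) (ω : Ω), dl F ν (φ x) τ ω =
      ((D.map (Int.cast : ℤ → F)).mulVec x) (τ, ω) := by
    intro x τ ω
    rw [dl_apply]
    simp only [Matrix.mulVec, dotProduct, Matrix.map_apply]
    have h1 : ∀ v ∈ τᶜ, (sg ν v τ : F) * φ x (insert v τ) ω =
        ∑ c : I, (sg ν v τ : F) * ((Mx (insert v τ) ω c : F) * x c) := by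
      intro v _
      rw [← Finset.mul_sum]
      rfl
    rw [Finset.sum_congr rfl h1, Finset.sum_comm]
    refine Finset.sum_congr rfl fun c _ => ?_
    have h2 : ((D (τ, ω) c : ℤ) : F) = ∑ v ∈ τᶜ, (sg ν v τ : F) * (Mx (insert v τ) ω c : F) := by
      change ((∑ v ∈ τᶜ, sg ν v τ * Mx (insert v τ) ω c : ℤ) : F) = _
      push_cast
      rfl
    rw [h2, Finset.sum_mul]
    exact Finset.sum_congr rfl fun v _ => by ring
  let e : (Finset V × Ω → F) ≃ₗ[F] (Finset V → Ω → F) := LinearEquiv.curry F F (Finset V) Ω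
  have hcomp : (dl F ν).comp φ = e.toLinearMap.comp (D.map (Int.cast : ℤ → F)).mulVecLin := by
    refine LinearMap.ext fun x => ?_
    funext τ ω
    exact hD x τ ω
  have hr1 : Module.finrank F ((Ch F X i).map (dl F ν)) = (D.map (Int.cast : ℤ → F)).rank := by
    rw [← hrange, ← LinearMap.range_comp, hcomp, LinearMap.range_comp]
    rw [LinearEquiv.finrank_map_eq]
    rfl
  refine ⟨hr1, ?_⟩
  have hker : Zc F X ν i = (LinearMap.ker ((dl F ν).comp φ)).map φ := by
    unfold Zc
    rw [← hrange]
    ext f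
    constructor
    · rintro ⟨⟨x, rfl⟩, hx⟩
      exact ⟨x, hx, rfl⟩
    · rintro ⟨x, hx, rfl⟩
      exact ⟨⟨x, rfl⟩, hx⟩
  have h1 : Module.finrank F (Zc F X ν i) = Module.finrank F (LinearMap.ker ((dl F ν).comp φ)) := by
    rw [hker]
    exact (Submodule.equivMapOfInjective φ hinj _).finrank_eq.symm
  have h2 := LinearMap.finrank_range_add_finrank_ker ((dl F ν).comp φ)
  have h3 : Module.finrank F (LinearMap.range ((dl F ν).comp φ)) =
      (D.map (Int.cast : ℤ → F)).rank := by
    rw [← hr1, LinearMap.range_comp, hrange]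
  have h4 : Module.finrank F (I → F) = Fintype.card I := Module.finrank_fintype_fun_eq_card F
  omega

/-- Let `I i` be the set of the cells: pairs `(σ, ω)` with `σ` a clique with `i` elements and the
bits of `ω` at the colours of `σ` equal to `false`. By `exists_ext`, `anti_ext` the map
`Ch F X i → (I i → F)` (restriction) is an isomorphism whose inverse is given by an integer matrix
that does not depend on `F`; so `finrank (Ch F X i) = |I i|` and
`finrank ((Ch F X i).map (dl F ν))` is the rank over `F` of an integer matrix that does not depend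
on `F`. As `finrank (Zc i) = finrank (Ch i) - finrank ((Ch i).map dl)`, the claim follows from
`rank_int_le`. -/
theorem bet_complex_le {Ω : Type} [Fintype Ω] (X : InvAct G Ω) (ν : V → ℕ)
    (hν : Function.Injective ν) (i : ℕ) (F : Type) [Field F] : bet ℂ X ν i ≤ bet F X ν i := by
  obtain ⟨I, _, D, hD⟩ := exists_int_matrix X ν i
  obtain ⟨I', _, D', hD'⟩ := exists_int_matrix X ν (i + 1)
  have h1 := (hD ℂ).2
  have h2 := (hD F).2
  have h3 := (hD' ℂ).1
  have h4 := (hD' F).1
  have h5 := rank_int_le D F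
  have h6 := rank_int_le D' F
  unfold bet Bc
  rw [h3, h4]
  omega

end Pool.Agent.H4.Singer

end

section

/-!
# Project FOLD: closure properties of chains and double chains
-/

set_option autoImplicit false

open Finset

namespace Pool.Agent.H85.Fold

variable {V : Type} [DecidableEq V] [Fintype V] {S : Type} [AddCommGroup S] [Module ℝ S]
  {G : SimpleGraph V} {e : V → S →ₗ[ℝ] S} {M : Submodule ℝ S} {U Y : Finset V} {i n : ℕ}

theorem IsF.add {c c' : Finset V → S} (h : IsF G e M U i c) (h' : IsF G e M U i c') :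
    IsF G e M U i (c + c') := by
  refine ⟨fun σ => M.add_mem (h.mem σ) (h'.mem σ), fun σ v hv => ?_, fun σ hne => ?_⟩
  · rw [Pi.add_apply, map_add, h.ker σ v hv, h'.ker σ v hv, add_zero]
  · by_cases h1 : c σ = 0
    · refine h'.supp σ fun h2 => hne ?_
      rw [Pi.add_apply, h1, h2, add_zero]
    · exact h.supp σ h1

theorem IsF.smul {c : Finset V → S} (h : IsF G e M U i c) (r : ℝ) : IsF G e M U i (r • c) := by
  refine ⟨fun σ => M.smul_mem r (h.mem σ), fun σ v hv => ?_, fun σ hne => ?_⟩
  · rw [Pi.smul_apply, map_smul, h.ker σ v hv, smul_zero]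
  · refine h.supp σ fun h2 => hne ?_
    rw [Pi.smul_apply, h2, smul_zero]

theorem IsF.neg {c : Finset V → S} (h : IsF G e M U i c) : IsF G e M U i (-c) := by
  have := h.smul (-1)
  rwa [neg_one_smul] at this

theorem IsF.sub {c c' : Finset V → S} (h : IsF G e M U i c) (h' : IsF G e M U i c') :
    IsF G e M U i (c - c') := by
  rw [sub_eq_add_neg]
  exact h.add h'.neg

theorem IsD.zero : IsD G e n M U i 0 := by
  refine ⟨fun ρ σ => M.zero_mem, fun ρ σ v _ => by simp, fun ρ σ h => absurd rfl h⟩

theorem IsD.add {x x' : Finset V → Finset V → S} (h : IsD G e n M U i x)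
    (h' : IsD G e n M U i x') : IsD G e n M U i (x + x') := by
  refine ⟨fun ρ σ => M.add_mem (h.mem ρ σ) (h'.mem ρ σ), fun ρ σ v hv => ?_,
    fun ρ σ hne => ?_⟩
  · rw [Pi.add_apply, Pi.add_apply, map_add, h.ker ρ σ v hv, h'.ker ρ σ v hv, add_zero]
  · by_cases h1 : x ρ σ = 0
    · refine h'.supp ρ σ fun h2 => hne ?_
      rw [Pi.add_apply, Pi.add_apply, h1, h2, add_zero]
    · exact h.supp ρ σ h1

theorem IsD.smul {x : Finset V → Finset V → S} (h : IsD G e n M U i x) (r : ℝ) :
    IsD G e n M U i (r • x) := by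
  refine ⟨fun ρ σ => M.smul_mem r (h.mem ρ σ), fun ρ σ v hv => ?_, fun ρ σ hne => ?_⟩
  · rw [Pi.smul_apply, Pi.smul_apply, map_smul, h.ker ρ σ v hv, smul_zero]
  · refine h.supp ρ σ fun h2 => hne ?_
    rw [Pi.smul_apply, Pi.smul_apply, h2, smul_zero]

theorem IsD.neg {x : Finset V → Finset V → S} (h : IsD G e n M U i x) :
    IsD G e n M U i (-x) := by
  have := h.smul (-1)
  rwa [neg_one_smul] at this

theorem IsD.sub {x x' : Finset V → Finset V → S} (h : IsD G e n M U i x)
    (h' : IsD G e n M U i x') : IsD G e n M U i (x - x') := by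
  rw [sub_eq_add_neg]
  exact h.add h'.neg

theorem isD_d1 {x : Finset V → Finset V → S} (ν : V → ℕ) (h : IsD G e n M U (i + 1) x) :
    IsD G e n M U i (d1 ν x) := by
  refine ⟨fun ρ σ => ?_, fun ρ σ u hu => ?_, fun ρ σ hne => ?_⟩
  · change ∑ v ∈ σ \ ρ, sgn ν v ρ • x (insert v ρ) σ ∈ M
    exact M.sum_mem fun v _ => M.smul_mem _ (h.mem _ _)
  · change e u (∑ v ∈ σ \ ρ, sgn ν v ρ • x (insert v ρ) σ) = 0
    rw [map_sum]
    refine Finset.sum_eq_zero fun v _ => ?_
    rw [map_smul, h.ker _ _ u (Finset.mem_insert_of_mem hu), smul_zero]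
  · obtain ⟨v, hv, hv2⟩ := Finset.exists_ne_zero_of_sum_ne_zero
      (show ∑ v ∈ σ \ ρ, sgn ν v ρ • x (insert v ρ) σ ≠ 0 from hne)
    have hv3 : x (insert v ρ) σ ≠ 0 := fun h0 => hv2 (by rw [h0, smul_zero])
    obtain ⟨h1, h2, h3, h4⟩ := h.supp _ _ hv3
    rw [Finset.mem_sdiff] at hv
    rw [Finset.card_insert_of_notMem hv.2] at h4
    exact ⟨(Finset.subset_insert v ρ).trans h1, h2, h3, by omega⟩

end Pool.Agent.H85.Fold

end

section

/-!
# Project PD: the adjoint zig-zag
-/

set_option autoImplicit false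
set_option linter.unusedSectionVars false

open Finset

namespace Pool.Agent.H19.PD

open Pool.Agent.H85.Fold

variable {V : Type} [DecidableEq V] [Fintype V] {S : Type} [AddCommGroup S] [Module ℝ S]
  {G : SimpleGraph V} {p : V → S →ₗ[ℝ] S} {β : S →ₗ[ℝ] S →ₗ[ℝ] ℝ} {ν : V → ℕ}

/-- the adjoint of `d2` -/
noncomputable def e2 (ν : V → ℕ) (w : Finset V → Finset V → S) (ρ σ : Finset V) : S :=
  if ρ ⊆ σ then bd ν (w ρ) σ else 0

/-- the pairing of double chains -/
noncomputable def pp (β : S →ₗ[ℝ] S →ₗ[ℝ] ℝ) (x w : Finset V → Finset V → S) : ℝ :=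
  ∑ ρ : Finset V, ∑ σ : Finset V, β (x ρ σ) (w ρ σ)

theorem e2_e2 (hν : Function.Injective ν) (w : Finset V → Finset V → S) :
    e2 ν (e2 ν w) = 0 := by
  funext ρ σ
  unfold e2
  by_cases h : ρ ⊆ σ
  · rw [if_pos h]
    have h1 : bd ν (fun τ => if ρ ⊆ τ then bd ν (w ρ) τ else 0) σ = bd ν (bd ν (w ρ)) σ := by
      show ∑ v ∈ σᶜ, sgn ν v σ • (if ρ ⊆ insert v σ then bd ν (w ρ) (insert v σ) else 0) =
        ∑ v ∈ σᶜ, sgn ν v σ • bd ν (w ρ) (insert v σ)
      refine sum_congr rfl fun v _ => ?_
      rw [if_pos (h.trans (subset_insert _ _))]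
    rw [h1, bd_bd ν hν]
    rfl
  · rw [if_neg h]
    rfl

/-- `e2` is adjoint to `d2` -/
theorem pp_d2 {x u : Finset V → Finset V → S} (hxs : ∀ ρ σ, x ρ σ ≠ 0 → ρ ⊆ σ)
    (hus : ∀ ρ σ, u ρ σ ≠ 0 → ρ ⊆ σ ∧ Cl G σ) :
    pp β (d2 ν G univ x) u = pp β x (e2 ν u) := by
  classical
  unfold pp
  refine sum_congr rfl fun ρ _ => ?_
  have hL : ∑ σ : Finset V, β (d2 ν G univ x ρ σ) (u ρ σ) =
      ∑ σ : Finset V, ∑ v ∈ σ, sgn ν v σ * β (x ρ (σ.erase v)) (u ρ σ) := by
    refine sum_congr rfl fun σ _ => ?_
    by_cases h0 : u ρ σ = 0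
    · rw [h0, map_zero]
      symm
      refine sum_eq_zero fun v _ => ?_
      rw [map_zero, mul_zero]
    · have h3 : d2 ν G univ x ρ σ = ∑ v ∈ σ \ ρ, sgn ν v σ • x ρ (σ.erase v) :=
        if_pos ⟨subset_univ _, (hus _ _ h0).2⟩
      rw [h3, map_sum, LinearMap.sum_apply]
      rw [← sum_subset (sdiff_subset : σ \ ρ ⊆ σ)]
      · refine sum_congr rfl fun v _ => ?_
        rw [map_smul, LinearMap.smul_apply, smul_eq_mul]
      · intro v hv hv2
        have h4 : x ρ (σ.erase v) = 0 := by
          by_contra hne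
          refine hv2 (mem_sdiff.2 ⟨hv, fun h => ?_⟩)
          exact notMem_erase v σ (hxs _ _ hne h)
        rw [h4, map_zero, LinearMap.zero_apply, mul_zero]
  have hR : ∑ σ : Finset V, β (x ρ σ) (e2 ν u ρ σ) =
      ∑ σ : Finset V, ∑ v ∈ σᶜ, sgn ν v σ * β (x ρ σ) (u ρ (insert v σ)) := by
    refine sum_congr rfl fun σ _ => ?_
    by_cases h0 : x ρ σ = 0
    · rw [h0, map_zero, LinearMap.zero_apply]
      symm
      refine sum_eq_zero fun v _ => ?_
      rw [LinearMap.zero_apply, mul_zero]
    · unfold e2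
      rw [if_pos (hxs _ _ h0)]
      show β (x ρ σ) (∑ v ∈ σᶜ, sgn ν v σ • u ρ (insert v σ)) = _
      rw [map_sum]
      refine sum_congr rfl fun v _ => ?_
      rw [map_smul, smul_eq_mul]
  rw [hL, hR, sum_sigma', sum_sigma']
  symm
  refine sum_bij' (fun z _ => ⟨insert z.2 z.1, z.2⟩) (fun z _ => ⟨z.1.erase z.2, z.2⟩)
    ?_ ?_ ?_ ?_ ?_
  · rintro ⟨ρ, v⟩ h
    simp only [mem_sigma, mem_univ, true_and, mem_insert_self]
  · rintro ⟨ρ, v⟩ h
    simp only [mem_sigma, mem_univ, true_and, mem_compl, mem_erase, ne_eq, not_true_eq_false,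
      false_and, not_false_eq_true]
  · rintro ⟨ρ, v⟩ h
    simp only [mem_sigma, mem_univ, true_and, mem_compl] at h
    simp only [erase_insert h]
  · rintro ⟨ρ, v⟩ h
    simp only [mem_sigma, mem_univ, true_and] at h
    simp only [insert_erase h]
  · rintro ⟨ρ, v⟩ h
    simp only [mem_sigma, mem_univ, true_and, mem_compl] at h
    simp only [erase_insert h, sgn_insert_self]

end Pool.Agent.H19.PD

end

section

/-!
# Project MC: the general theorem

`harm_ext`: let `j = C.emb x`, `D = C.cover x`. Extend the harmonic chain `f` on the cover by zero: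
`F σ y = f σ c` if `y = j c` and `0` otherwise (`emb_injective`). Then `F` is a harmonic chain on `X × W`:
supports by `emb_fst`; antisymmetry and coboundary: for `y = j c`, `v ∈ σ ⊆ lab` by `emb_cs`; if `y` is not in the range
of `j` and `v ∈ C.lab y.1` then `prS C.cs gen v y` is not in the range (apply `emb_cs` to its
preimage; the involutions are involutions); for `σ ⊄ lab` both sides vanish. Summability: the sum over the range of
`j`. Boundary: all terms have the same point `y`.

`general`: `hodgeS` for `D` with `D.isSpec`, `isL2_iff`; a harmonic chain on `D` vanishes by `harm_ext` and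
`harm_W` (with `Y = C.lab`, `s = C.cs`, `C.isSpec`). `D.graph = C.graph` by definition.
-/

set_option autoImplicit false

open Finset

namespace Pool.Agent.H19.Cub

open Pool.Agent.H4.Singer

namespace CubeComplex

variable {V X : Type} [DecidableEq V] [Fintype V]

theorem harm_ext (C : CubeComplex V X) (x : X) (ν : V → ℕ) (i : ℕ)
    (h0 : ∀ F : Finset V → X × RGrp C.graph → ℂ,
      IsHarmS C.graph (prY C.lab (RGrp C.graph)) (prS C.cs (gen C.graph)) ν i F → F = 0)
    (f : Finset V → C.Cover x → ℂ)
    (hf : IsHarmS C.graph (C.cover x).lab (C.cover x).cs ν i f) : f = 0 := by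
  classical
  have hinj := C.emb_injective x
  have hs := (C.cover x).isSpec
  have hsW : IsSpec C.graph (prY C.lab (RGrp C.graph)) (prS C.cs (gen C.graph)) :=
    isSpec_pr C.isSpec (gen C.graph) (l2h_gen_sq C.graph) (l2h_gen_comm C.graph)
  -- extension by zero
  obtain ⟨F, hF⟩ : ∃ F : Finset V → X × RGrp C.graph → ℂ,
      F = fun σ => Function.extend (C.emb x) (f σ) 0 := ⟨_, rfl⟩
  have hF1 : ∀ σ c, F σ (C.emb x c) = f σ c := by
    intro σ c
    rw [hF]
    exact hinj.extend_apply _ _ _
  have hF2 : ∀ σ y, (¬ ∃ c, C.emb x c = y) → F σ y = 0 := by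
    intro σ y hy
    rw [hF]
    exact Function.extend_apply' _ _ _ hy
  have hlab : ∀ c, prY C.lab (RGrp C.graph) (C.emb x c) = (C.cover x).lab c := by
    intro c
    show C.lab (C.emb x c).1 = C.lab (C.proj x c)
    rw [C.emb_fst]
  -- the range is invariant
  have hrange : ∀ v y, v ∈ prY C.lab (RGrp C.graph) y →
      (¬ ∃ c, C.emb x c = y) → ¬ ∃ c, C.emb x c = prS C.cs (gen C.graph) v y := by
    rintro v y hv hy ⟨c, hc⟩
    apply hy
    have h1 : v ∈ prY C.lab (RGrp C.graph) (C.emb x c) := by
      rw [hc]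
      exact hsW.mem v y hv
    rw [hlab] at h1
    refine ⟨(C.cover x).cs v c, ?_⟩
    rw [C.emb_cs x v c h1, hc, hsW.inv]
  have hFharm : IsHarmS C.graph (prY C.lab (RGrp C.graph)) (prS C.cs (gen C.graph)) ν i F := by
    refine ⟨⟨?_, ?_, ?_⟩, ?_, ?_⟩
    · intro σ y hne
      by_cases hy : ∃ c, C.emb x c = y
      · obtain ⟨c, rfl⟩ := hy
        rw [hF1] at hne
        rw [hlab]
        exact hf.chain.supp σ c hne
      · exact absurd (hF2 σ y hy) hne
    · intro σ v hv y
      by_cases hσ : C.graph.IsClique (σ : Set V) ∧ σ.card = i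
      · have hcl : Pool.Agent.H85.Fold.Cl C.graph σ := fun a ha b hb hab =>
          hσ.1 (Finset.mem_coe.2 ha) (Finset.mem_coe.2 hb) hab
        by_cases hy : σ ⊆ prY C.lab (RGrp C.graph) y
        · by_cases hy' : ∃ c, C.emb x c = y
          · obtain ⟨c, rfl⟩ := hy'
            have h1 : v ∈ (C.cover x).lab c := by
              rw [← hlab]
              exact hy hv
            rw [← C.emb_cs x v c h1, hF1, hF1]
            exact hf.chain.anti σ v hv c
          · rw [hF2 σ y hy', hF2 σ _ (hrange v y (hy hv) hy'), neg_zero]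
        · have h1 : F σ y = 0 := by
            by_contra hne
            by_cases hy' : ∃ c, C.emb x c = y
            · obtain ⟨c, rfl⟩ := hy'
              rw [hF1] at hne
              rw [hlab] at hy
              exact hy (hf.chain.supp σ c hne).1
            · exact hne (hF2 σ y hy')
          have h2 : F σ (prS C.cs (gen C.graph) v y) = 0 := by
            by_contra hne
            by_cases hy' : ∃ c, C.emb x c = prS C.cs (gen C.graph) v y
            · obtain ⟨c, hc⟩ := hy'
              rw [← hc, hF1] at hne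
              have h3 := (hf.chain.supp σ c hne).1
              rw [← hlab, hc, hsW.sub_iff hcl hv] at h3
              exact hy h3
            · exact hne (hF2 σ _ hy')
          rw [h1, h2, neg_zero]
      · have h1 : ∀ y, F σ y = 0 := by
          intro y
          by_contra hne
          by_cases hy' : ∃ c, C.emb x c = y
          · obtain ⟨c, rfl⟩ := hy'
            rw [hF1] at hne
            exact hσ (hf.chain.supp σ c hne).2
          · exact hne (hF2 σ y hy')
        rw [h1, h1, neg_zero]
    · intro σ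
      have h1 := hf.chain.l2 σ
      have h2 : (fun y => ‖F σ y‖ ^ 2) = Function.extend (C.emb x) (fun c => ‖f σ c‖ ^ 2) 0 := by
        funext y
        by_cases hy : ∃ c, C.emb x c = y
        · obtain ⟨c, rfl⟩ := hy
          rw [hF1, hinj.extend_apply]
        · rw [hF2 σ y hy, Function.extend_apply' _ _ _ hy]
          simp
      rw [h2]
      exact (summable_extend_zero hinj).2 h1
    · funext τ y
      by_cases hy : ∃ c, C.emb x c = y
      · obtain ⟨c, rfl⟩ := hy
        have h1 := congrFun (congrFun hf.cyc τ) c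
        have h2 : bdry ν F τ (C.emb x c) = bdry ν f τ c := by
          unfold bdry
          exact Finset.sum_congr rfl fun v _ => by rw [hF1]
        rw [h2, h1]
        rfl
      · unfold bdry
        refine Finset.sum_eq_zero fun v _ => ?_
        rw [hF2 _ y hy, mul_zero]
    · intro ρ y hρy hρ hρi
      by_cases hy : ∃ c, C.emb x c = y
      · obtain ⟨c, rfl⟩ := hy
        rw [hlab] at hρy
        have h1 := hf.cocyc ρ c hρy hρ hρi
        rw [← h1]
        refine Finset.sum_congr rfl fun v hv => ?_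
        rw [← C.emb_cs x v c (hρy hv), hF1, hF1]
      · refine Finset.sum_eq_zero fun v hv => ?_
        rw [hF2 _ y hy, hF2 _ _ (hrange v y (hρy hv) hy), sub_zero, mul_zero]
  have hF0 := h0 F hFharm
  funext σ c
  rw [← hF1, hF0]
  rfl

end CubeComplex

end Pool.Agent.H19.Cub

end

section

/-!
# Project S10: the finite W-set of a finite special cube complex

`W` = the right-angled Coxeter group of the graph of `Q`. It acts from the right on the vertices of `Q`: the letter `v`
moves `x` to the other end of the edge `v` at `x`, or fixes `x` if there is no such edge. `pt Q R x₀ w = x₀ w`,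
`acQ Q R x₀` is the activity.
-/

set_option autoImplicit false
set_option linter.unusedSectionVars false

open Finset

namespace Pool.Agent.S10

open Pool.Agent.S9 Pool.Agent.H19.Cub

variable {V X : Type} [DecidableEq V] [Fintype V] (Q : CubeComplex V X)

/-- the other end of the edge `v` at `x`, or `x` if there is no such edge -/
def mv (v : V) (x : X) : X := if v ∈ Q.lab x then Q.nb v x else x

theorem mv_pos {v : V} {x : X} (h : v ∈ Q.lab x) : mv Q v x = Q.nb v x := if_pos h

theorem mv_neg {v : V} {x : X} (h : v ∉ Q.lab x) : mv Q v x = x := if_neg h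

theorem mv_mv (v : V) (x : X) : mv Q v (mv Q v x) = x := by
  by_cases h : v ∈ Q.lab x
  · rw [mv_pos Q h, mv_pos Q (Q.lab_nb v x h), Q.nb_nb v x h]
  · rw [mv_neg Q h, mv_neg Q h]

theorem mem_lab_mv_self (v : V) (x : X) : v ∈ Q.lab (mv Q v x) ↔ v ∈ Q.lab x := by
  by_cases h : v ∈ Q.lab x
  · rw [mv_pos Q h]
    exact ⟨fun _ => h, fun _ => Q.lab_nb v x h⟩
  · rw [mv_neg Q h]

theorem mem_lab_mv {u v : V} (huv : Q.graph.Adj u v) (x : X) : v ∈ Q.lab (mv Q u x) ↔ v ∈ Q.lab x := by
  have h1 : ∀ y, v ∈ Q.lab y → v ∈ Q.lab (mv Q u y) := by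
    intro y hy
    by_cases h : u ∈ Q.lab y
    · rw [mv_pos Q h]
      exact Q.lab_adj v u y huv.symm hy h
    · rwa [mv_neg Q h]
  refine ⟨fun h => ?_, h1 x⟩
  have h2 := h1 _ h
  rwa [mv_mv] at h2

theorem mv_comm {u v : V} (huv : Q.graph.Adj u v) (x : X) : mv Q u (mv Q v x) = mv Q v (mv Q u x) := by
  have hu := mem_lab_mv Q huv.symm x
  have hv := mem_lab_mv Q huv x
  by_cases h1 : u ∈ Q.lab x
  · by_cases h2 : v ∈ Q.lab x
    · rw [mv_pos Q (hu.2 h1), mv_pos Q h2, mv_pos Q (hv.2 h2), mv_pos Q h1, Q.nb_comm u v x huv h1 h2]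
    · rw [mv_neg Q h2, mv_neg Q fun h => h2 (hv.1 h)]
  · by_cases h2 : v ∈ Q.lab x
    · rw [mv_neg Q h1, mv_neg Q fun h => h1 (hu.1 h)]
    · rw [mv_neg Q h2, mv_neg Q h1, mv_neg Q h2]

/-- the permutation of the vertices -/
def mvp (v : V) : Equiv.Perm X := ⟨mv Q v, mv Q v, mv_mv Q v, mv_mv Q v⟩

variable {W : Type} [Group W] (R : Rac Q.graph W)

theorem exists_xh : ∃ f : W →* (Equiv.Perm X)ᵐᵒᵖ, ∀ v, f (R.s v) = MulOpposite.op (mvp Q v) := by
  refine R.lift _ _ (fun v => ?_) fun u v h => ?_
  · rw [← MulOpposite.op_mul]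
    refine MulOpposite.unop_injective (Equiv.ext fun x => ?_)
    exact mv_mv Q v x
  · rw [← MulOpposite.op_mul, ← MulOpposite.op_mul]
    refine MulOpposite.unop_injective (Equiv.ext fun x => ?_)
    exact mv_comm Q h.symm x

/-- the right action of `W` on the vertices -/
noncomputable def xh : W →* (Equiv.Perm X)ᵐᵒᵖ := (exists_xh Q R).choose

theorem xh_s (v : V) : xh Q R (R.s v) = MulOpposite.op (mvp Q v) := (exists_xh Q R).choose_spec v

/-- the vertex `x₀ w` -/
noncomputable def pt (x₀ : X) (w : W) : X := (xh Q R w).unop x₀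

theorem pt_one (x₀ : X) : pt Q R x₀ 1 = x₀ := by
  unfold pt
  rw [map_one]
  rfl

theorem pt_mul (x₀ : X) (w w' : W) : pt Q R x₀ (w * w') = pt Q R (pt Q R x₀ w) w' := by
  unfold pt
  rw [map_mul]
  rfl

theorem pt_s (x : X) (v : V) : pt Q R x (R.s v) = mv Q v x := by
  unfold pt
  rw [xh_s]
  rfl

theorem pt_mul_s (x₀ : X) (w : W) (v : V) : pt Q R x₀ (w * R.s v) = mv Q v (pt Q R x₀ w) := by
  rw [pt_mul, pt_s]

theorem pt_of_ker (x₀ : X) {g : W} (hg : xh Q R g = 1) (w : W) : pt Q R x₀ (g * w) = pt Q R x₀ w := by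
  rw [pt_mul]
  congr 1
  unfold pt
  rw [hg]
  rfl

/-- **the activity**: the edge `v` exists at the vertex `x₀ w` -/
def acQ (x₀ : X) (v : V) (w : W) : Prop := v ∈ Q.lab (pt Q R x₀ w)

theorem isActv (x₀ : X) {Γ : Subgroup W} (hΓ : ∀ g ∈ Γ, xh Q R g = 1) : IsActv R Γ (acQ Q R x₀) where
  inv v g hg w := by
    unfold acQ
    rw [pt_of_ker Q R x₀ (hΓ g hg)]
  self v w := by
    unfold acQ
    rw [pt_mul_s, mem_lab_mv_self]
  adj u v h w := by
    unfold acQ
    rw [pt_mul_s, mem_lab_mv Q h]

end Pool.Agent.S10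

end

section

/-!
# Project S9, block G: triangular modules and triangular submodules
-/

set_option autoImplicit false

namespace Pool.Agent.S9

open Submodule

section Bri

variable {K : Type} [Field K] {Λ : Subgroup Kˣ} {H : Type} [Group H]

private theorem add_fin {X : Type*} [AddCommGroup X] [Module K X] {ρ : Representation K H X}
    {F : Submodule K X} (hF : TriS Λ ρ F) {lam : H →* Kˣ} (hl : ∀ g, lam g ∈ Λ) (s : Finset X)
    (h : ∀ y ∈ s, ∀ g, ρ g y - (lam g : K) • y ∈ F) : TriS Λ ρ (F ⊔ span K (s : Set X)) := by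
  classical
  induction s using Finset.induction_on with
  | empty => simpa using hF
  | insert a s _ ih =>
    have e : F ⊔ span K ((insert a s : Finset X) : Set X) =
        (F ⊔ span K (s : Set X)) ⊔ span K {a} := by
      rw [Finset.coe_insert, span_insert, sup_assoc, sup_comm (span K {a})]
    rw [e]
    exact TriS.step _ a lam hl (fun g => mem_sup_left (h a (Finset.mem_insert_self a s) g))
      (ih fun y hy => h y (Finset.mem_insert_of_mem hy))

theorem triS_of_tri {E : Type} [AddCommGroup E] [Module K E] [FiniteDimensional K E]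
    {ρ : H →* Module.End K E} (h : Tri Λ ρ) : TriS Λ (ρ : Representation K H E) ⊤ := by
  obtain ⟨n, F, hm, h0, hn, hq⟩ := h
  have key : ∀ j, TriS Λ (ρ : Representation K H E) (F j) := by
    intro j
    induction j with
    | zero => rw [h0]; exact TriS.bot
    | succ j ih =>
      obtain ⟨lam, hl, h1⟩ := hq j
      obtain ⟨s, hs⟩ : (F (j + 1)).FG := IsNoetherian.noetherian _
      have e : F (j + 1) = F j ⊔ span K (s : Set E) := by
        rw [hs]
        exact (sup_eq_right.2 (hm (Nat.le_succ j))).symm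
      rw [e]
      refine add_fin ih hl s fun y hy g => h1 g y ?_
      rw [← hs]
      exact subset_span hy
  rw [← hn]
  exact key n

/-- the matrix coefficients of a triangular module are representative -/
theorem coeff {E : Type} [AddCommGroup E] [Module K E] [FiniteDimensional K E]
    {ρ : H →* Module.End K E} (h : Tri Λ ρ) (ξ : E →ₗ[K] K) (e : E) :
    (fun y => ξ (ρ y e)) ∈ Orep Λ H := by
  let L : E →ₗ[K] (H → K) :=
    { toFun := fun e y => ξ (ρ y e)
      map_add' := fun a b => by
        funext y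
        rw [map_add, map_add]
        rfl
      map_smul' := fun c a => by
        funext y
        rw [map_smul, map_smul]
        rfl }
  refine ⟨(⊤ : Submodule K E).map L, TriS.map (MonoidHom.id H) L (fun g x => ?_) (triS_of_tri h),
    mem_map_of_mem (f := L) (mem_top (x := e))⟩
  funext y
  change ξ (ρ (y * g) x) = ξ (ρ y (ρ g x))
  rw [map_mul]
  rfl

theorem TriS.exists_chain {X : Type*} [AddCommGroup X] [Module K X] {ρ : Representation K H X}
    {F : Submodule K X} (hF : TriS Λ ρ F) : ∃ (n : ℕ) (C : ℕ → Submodule K X), Monotone C ∧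
      C 0 = ⊥ ∧ (∀ j, n ≤ j → C j = F) ∧ ∀ j, ∃ lam : H →* Kˣ, (∀ g, lam g ∈ Λ) ∧
        ∀ g, ∀ y ∈ C (j + 1), ρ g y - (lam g : K) • y ∈ C j := by
  induction hF with
  | bot =>
    refine ⟨0, fun _ => ⊥, fun _ _ _ => le_rfl, rfl, fun _ _ => rfl, fun _ => ⟨1,
      fun _ => one_mem _, fun g y hy => ?_⟩⟩
    rw [mem_bot] at hy ⊢
    rw [hy, map_zero, smul_zero, sub_zero]
  | step F f lam hl h hF ih =>
    obtain ⟨n, C, hm, h0, hn, hq⟩ := ih
    have hst := (TriS.step F f lam hl h hF).stable
    have hle : ∀ j, C j ≤ F := fun j => by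
      rcases le_total n j with hj | hj
      · exact (hn j hj).le
      · exact (hm hj).trans (hn n le_rfl).le
    refine ⟨n + 1, fun j => if j ≤ n then C j else F ⊔ span K {f}, ?_, ?_, ?_, ?_⟩
    · intro i j hij
      change (if i ≤ n then C i else F ⊔ span K {f}) ≤ if j ≤ n then C j else F ⊔ span K {f}
      by_cases hj : j ≤ n
      · rw [if_pos hj, if_pos (hij.trans hj)]
        exact hm hij
      · rw [if_neg hj]
        split_ifs
        · exact (hle i).trans le_sup_left
        · exact le_rfl
    · change (if 0 ≤ n then C 0 else F ⊔ span K {f}) = ⊥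
      rw [if_pos (Nat.zero_le n), h0]
    · intro j hj
      change (if j ≤ n then C j else F ⊔ span K {f}) = _
      rw [if_neg (by omega)]
    · intro j
      change ∃ lam : H →* Kˣ, (∀ g, lam g ∈ Λ) ∧ ∀ g,
        ∀ y ∈ (if j + 1 ≤ n then C (j + 1) else F ⊔ span K {f}),
          ρ g y - (lam g : K) • y ∈ if j ≤ n then C j else F ⊔ span K {f}
      rcases lt_trichotomy j n with hj | hj | hj
      · rw [if_pos (Nat.succ_le_of_lt hj), if_pos hj.le]
        exact hq j
      · subst hj
        rw [if_neg (by omega), if_pos le_rfl, hn j le_rfl]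
        refine ⟨lam, hl, fun g y hy => ?_⟩
        obtain ⟨a, ha, b, hb, rfl⟩ := mem_sup.1 hy
        obtain ⟨c, rfl⟩ := mem_span_singleton.1 hb
        have e : ρ g (a + c • f) - (lam g : K) • (a + c • f) =
            (ρ g a - (lam g : K) • a) + c • (ρ g f - (lam g : K) • f) := by
          rw [map_add, map_smul, smul_add, smul_sub, smul_comm c (lam g : K) f]
          abel
        rw [e]
        exact add_mem (sub_mem (hF.stable g a ha) (smul_mem _ _ ha)) (smul_mem _ _ (h g))
      · rw [if_neg (by omega), if_neg (by omega)]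
        refine ⟨1, fun _ => one_mem _, fun g y hy => ?_⟩
        exact sub_mem (hst g y hy) (smul_mem _ _ hy)

/-- the componentwise right translation on the functions with values in `K ^ m` whose components are in
the space `F` -/
def rtF (F : Submodule K (H → K)) (hst : ∀ g, ∀ f ∈ F, rt K H g f ∈ F) (m : ℕ) :
    H →* Module.End K (Fin m → F) where
  toFun g :=
    { toFun := fun u i => ⟨rt K H g (u i), hst g _ (u i).2⟩
      map_add' := fun _ _ => rfl
      map_smul' := fun _ _ => rfl }
  map_one' := by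
    refine LinearMap.ext fun u => ?_
    funext i
    refine Subtype.ext ?_
    funext x
    change (u i : H → K) (x * 1) = (u i : H → K) x
    rw [mul_one]
  map_mul' g h := by
    refine LinearMap.ext fun u => ?_
    funext i
    refine Subtype.ext ?_
    funext x
    change (u i : H → K) (x * (g * h)) = (u i : H → K) (x * g * h)
    rw [mul_assoc]

theorem tri_pow {F : Submodule K (H → K)} (hF : TriS Λ (rt K H) F) (m : ℕ) :
    Tri Λ (rtF F hF.stable m) := by
  obtain ⟨n, C, hm, h0, hn, hq⟩ := hF.exists_chain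
  refine ⟨n, fun j =>
    { carrier := {u | ∀ i, (u i : H → K) ∈ C j}
      zero_mem' := fun i => zero_mem _
      add_mem' := fun h1 h2 i => add_mem (h1 i) (h2 i)
      smul_mem' := fun c u h i => smul_mem _ c (h i) }, ?_, ?_, ?_, ?_⟩
  · intro i j hij u hu k
    exact hm hij (hu k)
  · rw [eq_bot_iff]
    intro u hu
    rw [mem_bot]
    funext i
    have h1 := hu i
    rw [h0, mem_bot] at h1
    exact Subtype.ext h1
  · rw [eq_top_iff]
    intro u _ i
    rw [hn n le_rfl]
    exact (u i).2
  · intro j
    obtain ⟨lam, hl, h1⟩ := hq j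
    exact ⟨lam, hl, fun g u hu i => h1 g _ (hu i)⟩

theorem TriS.finiteDimensional {F : Submodule K (H → K)} (hF : TriS Λ (rt K H) F) (m : ℕ) :
    FiniteDimensional K (Fin m → F) := by
  have : FiniteDimensional K F := Module.Finite.iff_fg.2 hF.fg
  infer_instance

end Bri

end Pool.Agent.S9

end

section

/-!
# Project S9, block M: cochains of the cubes and cochains of the tuples

`zb A w` is the vertex of the coset `w W_A` whose bits vanish on the clique `A`; `Tst D k x` is the restriction of a
cochain `x` of the tuples to the cubes (along the monotone paths); `prE` is the pairing of a cubical cochain with the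
chains of the augmented Davis complex.
-/

set_option autoImplicit false
set_option linter.unusedSectionVars false

open Finset

namespace Pool.Agent.S9

open Pool.Agent.H19.Cub Pool.Agent.H77.SX Pool.Agent.H77.SW Pool.Agent.H37.TM Pool.Agent.H37.MA
open Pool.Agent.H4.Singer (RGrp gen exists_lift gen_mul_gen gen_inv gen_comm racg)

variable {V : Type} [DecidableEq V] [Fintype V] {G : SimpleGraph V}

/-! ### the vertex with the bits zero -/

theorem b_gen (w : RGrp G) (u v : V) :
    (racR G).b (w * gen G u) v = (racR G).b w v + if u = v then 1 else 0 := by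
  rw [(racR G).b_mul]
  congr 1
  exact (racR G).b_s u v

private theorem z2 {a : ZMod 2} (h : a ≠ 0) : a + 1 = 0 := by
  revert h
  revert a
  decide

/-! ### the cells -/

variable {P : Type} [Group P] (D : PG G P)

theorem b_piP (w : RGrp G) (v : V) : D.b (piP D w) v = (racR G).b w v := by
  have h1 : ∀ w : RGrp G, D.b (piP D w) v = (racR G).b w v → ∀ u,
      D.b (piP D (w * gen G u)) v = (racR G).b (w * gen G u) v := by
    intro w h u
    rw [map_mul, piP_gen, D.b_mul, D.b_g, b_gen, h]
  have h0 : D.b (1 : P) v = 0 := by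
    have h2 := D.b_mul 1 1 v
    rw [mul_one] at h2
    exact left_eq_add.1 h2
  obtain ⟨ω, rfl⟩ := (racg G).toCoxeterSystem.wordProd_surjective w
  induction ω using List.reverseRecOn with
  | nil =>
    show D.b (piP D 1) v = (racR G).b 1 v
    rw [map_one, h0, (racR G).b_one]
  | append_singleton ω u ih =>
    rw [(racg G).toCoxeterSystem.wordProd_append, (racg G).toCoxeterSystem.wordProd_singleton]
    exact h1 _ ih u

theorem b_ker (g : (piP D).ker) (v : V) : (racR G).b (g : RGrp G) v = 0 := by
  rw [← b_piP D, g.2, ← piP D |>.map_one, b_piP D, (racR G).b_one]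

theorem cell_iff {k : ℕ} {e : (QP D).Cover 1 × Finset V} : e ∈ Cell (QP D) 1 D.b k ↔
    G.IsClique (e.2 : Set V) ∧ e.2.card = k ∧ ∀ v ∈ e.2, (racR G).b (cw D e.1) v = 0 := by
  constructor
  · rintro ⟨-, h1, h2, h3⟩
    refine ⟨h1, h2, fun v hv => ?_⟩
    rw [← b_piP D, ← proj_cw]
    exact h3 v hv
  · rintro ⟨h1, h2, h3⟩
    refine ⟨subset_univ _, h1, h2, fun v hv => ?_⟩
    rw [proj_cw, b_piP]
    exact h3 v hv

/-! ### the restriction of the cochains of the tuples -/

section Tst

variable {K : Type} [Field K] {E : Type} [AddCommGroup E] [Module K E] [Module (ZMod 2) E]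

/-- a linear map over `K` is linear over `ZMod 2` -/
def zl {E' : Type} [AddCommGroup E'] [Module K E'] [Module (ZMod 2) E'] (u : E →ₗ[K] E') :
    E →ₗ[ZMod 2] E' := u.toAddMonoidHom.toZModLinearMap 2

end Tst

/-! ### the pairing of a cubical cochain with the chains -/

section Pr

variable {K : Type} [Field K] {E : Type} [AddCommGroup E] [Module K E] [Module (ZMod 2) E]

open Classical in
/-- the value of a cubical cochain on a cell -/
noncomputable def prv (m : ℕ) (c : Finset V → RGrp G → E) :
    Option ((QP D).Cover 1 × Finset V) → E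
  | none => 0
  | some e => if e ∈ Cell (QP D) 1 D.b m then c e.2 (cw D e.1) else 0

/-- the pairing of a cubical cochain with the chains -/
noncomputable def prE (m : ℕ) (c : Finset V → RGrp G → E) : NA D →ₗ[ZMod 2] E := lin (prv D m c)

private theorem prv_some {m : ℕ} (c : Finset V → RGrp G → E) {e : (QP D).Cover 1 × Finset V}
    (he : e ∈ Cell (QP D) 1 D.b m) : prv D m c (some e) = c e.2 (cw D e.1) := if_pos he

theorem prE_single {m : ℕ} (c : Finset V → RGrp G → E) {e : (QP D).Cover 1 × Finset V}
    (he : e ∈ Cell (QP D) 1 D.b m) : prE D m c (Finsupp.single (some e) 1) = c e.2 (cw D e.1) := by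
  unfold prE
  rw [lin_single, prv_some D c he]

theorem cell_smulK {m : ℕ} (g : (piP D).ker) {e : (QP D).Cover 1 × Finset V} :
    (g • e.1, e.2) ∈ Cell (QP D) 1 D.b m ↔ e ∈ Cell (QP D) 1 D.b m := by
  rw [cell_iff, cell_iff]
  refine and_congr Iff.rfl (and_congr Iff.rfl (forall₂_congr fun v _ => ?_))
  show (racR G).b (cw D (g • e.1)) v = 0 ↔ _
  rw [cw_smul', (racR G).b_mul, b_ker, zero_add]

theorem prE_rho {m : ℕ} {c : Finset V → RGrp G → E} {ρ : (piP D).ker →* Module.End K E}
    (hc : ∀ A, ∀ g : (piP D).ker, ∀ w, c A (g * w) = ρ g (c A w)) (g : (piP D).ker) (y : NA D) :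
    prE D m c (rhoA D g y) = ρ g (prE D m c y) := by
  classical
  unfold prE
  have h1 : rhoA D g y = y.mapDomain (Option.map fun e => (g • e.1, e.2)) := rfl
  rw [h1, lin_map]
  have h2 : (fun a => prv D m c (Option.map (fun e => (g • e.1, e.2)) a)) =
      fun a => zl (ρ g) (prv D m c a) := by
    funext a
    cases a with
    | none => exact (map_zero _).symm
    | some e =>
      show (if (g • e.1, e.2) ∈ Cell (QP D) 1 D.b m then c e.2 (cw D (g • e.1)) else 0) =
        ρ g (if e ∈ Cell (QP D) 1 D.b m then c e.2 (cw D e.1) else 0)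
      by_cases h : e ∈ Cell (QP D) 1 D.b m
      · rw [if_pos h, if_pos ((cell_smulK D g).2 h), cw_smul']
        exact hc _ _ _
      · rw [if_neg h, if_neg (fun h' => h ((cell_smulK D g).1 h')), map_zero]
  rw [h2, ← map_lin]
  rfl

end Pr

end Pool.Agent.S9

end

section

/-!
# Project S9, block M: relative cochains of a manifold with values in modules

`gP` = product of a function of tuples with values in `E` and a cochain on
ordered simplices with values in the dual of `E`; `cupB` = cup products with respect to a bilinear map; `WC` =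
equivariant relative cochains which are finite modulo `Γ`; `ITM` = integral over the top simplices modulo `Γ`.
-/

set_option autoImplicit false
set_option linter.unusedSectionVars false

open Finset Pointwise

namespace Pool.Agent.S9

open Pool.Agent.H37.TM

/-! ### functions of tuples -/

section Tup

variable {C : Type} {E : Type} [AddCommGroup E]

theorem dT_nil (x : List C → E) : dT x [] = 0 := rfl

theorem dT_cons (x : List C → E) (v : C) (l : List C) :
    dT x (v :: l) = x l + dT (fun m => x (v :: m)) l := rfl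

theorem dT_zero (l : List C) : dT (fun _ => (0 : E)) l = 0 := by
  induction l with
  | nil => rfl
  | cons v l ih => rw [dT_cons, ih, add_zero]

theorem dT_hom {E' : Type} [AddCommGroup E'] (F : E →+ E') (l : List C) :
    ∀ x : List C → E, dT (fun m => F (x m)) l = F (dT x l) := by
  induction l with
  | nil =>
    intro x
    rw [dT_nil, dT_nil, map_zero]
  | cons v l ih =>
    intro x
    rw [dT_cons, dT_cons, map_add, ih]

theorem dT_map {D : Type} (f : D → C) (l : List D) :
    ∀ x : List C → E, dT (fun m => x (m.map f)) l = dT x (l.map f) := by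
  induction l with
  | nil => intro x; rfl
  | cons v l ih =>
    intro x
    rw [List.map_cons, dT_cons, dT_cons]
    congr 1
    exact ih fun m => x (f v :: m)

theorem dT_congr (l : List C) : ∀ {x y : List C → E}, (∀ m : List C, m.length + 1 = l.length → x m = y m) →
    dT x l = dT y l := by
  induction l with
  | nil => intro x y _; rfl
  | cons v l ih =>
    intro x y h
    rw [dT_cons, dT_cons, h l (by rw [List.length_cons]), ih fun m hm => h (v :: m) (by
      rw [List.length_cons, List.length_cons, hm])]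

end Tup

/-! ### cochains with values in modules -/

section Coch

variable {U : Type} [DecidableEq U] {ht : U → ℕ}

/-- the coboundary -/
def cobM {A : Type} [AddCommGroup A] (x : Finset U → A) (s : Finset U) : A := ∑ v ∈ s, x (s.erase v)

theorem cobM_hom {A A' : Type} [AddCommGroup A] [AddCommGroup A'] (F : A →+ A') (x : Finset U → A)
    (s : Finset U) : cobM (fun t => F (x t)) s = F (cobM x s) := by
  unfold cobM
  rw [map_sum]

variable {K : Type} [Field K] {E : Type} [AddCommGroup E] [Module K E]

/-- the product of the function `x` of the tuples of `m + 1` elements (at the lowest vertices) and of `w` -/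
def gP (ht : U → ℕ) : ℕ → (List U → E) → (Finset U → (E →ₗ[K] K)) → Finset U → K
  | 0, x, w, s => w s (∑ v ∈ lows ht s, x [v])
  | m + 1, x, w, s => ∑ v ∈ lows ht s, gP ht m (fun l => x (v :: l)) w (s.erase v)

theorem gP_zero (x : List U → E) (w : Finset U → (E →ₗ[K] K)) (s : Finset U) :
    gP ht 0 x w s = w s (∑ v ∈ lows ht s, x [v]) := rfl

theorem gP_succ (m : ℕ) (x : List U → E) (w : Finset U → (E →ₗ[K] K)) (s : Finset U) :
    gP ht (m + 1) x w s = ∑ v ∈ lows ht s, gP ht m (fun l => x (v :: l)) w (s.erase v) := rfl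

theorem gP_add_left (m : ℕ) : ∀ (x y : List U → E) (w : Finset U → (E →ₗ[K] K)) (s : Finset U),
    gP ht m (fun l => x l + y l) w s = gP ht m x w s + gP ht m y w s := by
  induction m with
  | zero =>
    intro x y w s
    rw [gP_zero, gP_zero, gP_zero, sum_add_distrib, map_add]
  | succ m ih =>
    intro x y w s
    rw [gP_succ, gP_succ, gP_succ, ← sum_add_distrib]
    exact sum_congr rfl fun v _ => ih _ _ _ _

theorem gP_congr (m : ℕ) : ∀ (x : List U → E) {w w' : Finset U → (E →ₗ[K] K)} {s : Finset U},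
    (∀ t ⊆ s, w t = w' t) → gP ht m x w s = gP ht m x w' s := by
  induction m with
  | zero =>
    intro x w w' s h
    rw [gP_zero, gP_zero, h s (Subset.refl s)]
  | succ m ih =>
    intro x w w' s h
    rw [gP_succ, gP_succ]
    exact sum_congr rfl fun v _ => ih _ fun t ht => h t (ht.trans (erase_subset v s))

theorem gP_congr_left (m : ℕ) : ∀ {x y : List U → E} (w : Finset U → (E →ₗ[K] K)) (s : Finset U),
    (∀ l, l.length = m + 1 → x l = y l) → gP ht m x w s = gP ht m y w s := by
  induction m with
  | zero =>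
    intro x y w s h
    rw [gP_zero, gP_zero, sum_congr rfl fun v _ => h [v] rfl]
  | succ m ih =>
    intro x y w s h
    rw [gP_succ, gP_succ]
    exact sum_congr rfl fun v _ => ih _ _ fun l hl => h (v :: l) (by rw [List.length_cons, hl])

theorem gP_ne_zero (m : ℕ) : ∀ {x : List U → E} {w : Finset U → (E →ₗ[K] K)} {s : Finset U},
    gP ht m x w s ≠ 0 → ∃ t ⊆ s, w t ≠ 0 := by
  induction m with
  | zero =>
    intro x w s h
    refine ⟨s, Subset.refl s, fun h0 => h ?_⟩
    rw [gP_zero, h0, LinearMap.zero_apply]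
  | succ m ih =>
    intro x w s h
    obtain ⟨v, _, hv⟩ := exists_ne_zero_of_sum_ne_zero h
    obtain ⟨t, h1, h2⟩ := ih hv
    exact ⟨t, h1.trans (erase_subset v s), h2⟩

/-- change of the coefficients -/
theorem gP_comp {E' : Type} [AddCommGroup E'] [Module K E'] (F : E →ₗ[K] E') (m : ℕ) :
    ∀ (x : List U → E) (w : Finset U → (E' →ₗ[K] K)) (s : Finset U),
    gP ht m (fun l => F (x l)) w s = gP ht m x (fun t => (w t).comp F) s := by
  induction m with
  | zero =>
    intro x w s
    rw [gP_zero, gP_zero, LinearMap.comp_apply, map_sum F]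
  | succ m ih =>
    intro x w s
    rw [gP_succ, gP_succ]
    exact sum_congr rfl fun v _ => ih _ _ _

/-- invariance -/
theorem gP_smul {Γ : Type} [Group Γ] [MulAction Γ U] {g : Γ} (hg : ∀ u, ht (g • u) = ht u)
    (T : E →ₗ[K] E) (m : ℕ) : ∀ {x x' : List U → E} {w w' : Finset U → (E →ₗ[K] K)} {s : Finset U},
    (∀ l, x (l.map (g • ·)) = T (x' l)) → (∀ t ⊆ s, ∀ e, w (g • t) (T e) = w' t e) →
    gP ht m x w (g • s) = gP ht m x' w' s := by
  induction m with
  | zero =>
    intro x x' w w' s h1 h2
    rw [gP_zero, gP_zero, lows_smul hg, Pool.Agent.H37.TM.sum_smul, ← h2 s (Subset.refl s),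
      map_sum T]
    exact congrArg _ (sum_congr rfl fun v _ => h1 [v])
  | succ m ih =>
    intro x x' w w' s h1 h2
    rw [gP_succ, gP_succ, lows_smul hg, Pool.Agent.H37.TM.sum_smul]
    refine sum_congr rfl fun v _ => ?_
    rw [erase_smul]
    exact ih (fun l => h1 (v :: l)) fun t ht => h2 t (ht.trans (erase_subset v s))

/-- **The Leibniz rule.** -/
theorem cob_gP [CharP K 2] (m : ℕ) : ∀ (x : List U → E) (w : Finset U → (E →ₗ[K] K)) {s : Finset U},
    Set.InjOn ht (s : Set U) → m + 2 ≤ s.card →
    cob (gP ht m x w) s = gP ht (m + 1) (dT x) w s + gP ht m x (cobM w) s := by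
  induction m with
  | zero =>
    intro x w s hs hc
    have hne : s.Nonempty := card_pos.1 (by omega)
    obtain ⟨v, hv, hm⟩ := exists_low ht hne
    have h1 := lows_eq hs hv hm
    have hne' : (s.erase v).Nonempty := card_pos.1 (by rw [card_erase_of_mem hv]; omega)
    have hs' : Set.InjOn ht ((s.erase v : Finset U) : Set U) :=
      hs.mono (by exact_mod_cast erase_subset v s)
    obtain ⟨v', hv', hm'⟩ := exists_low ht hne'
    have h1' := lows_eq hs' hv' hm'
    have h2 : ∀ u ∈ s.erase v, lows ht (s.erase u) = {v} := by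
      intro u hu
      refine lows_eq (hs.mono ?_) (mem_erase.2 ⟨(ne_of_mem_erase hu).symm, hv⟩)
        fun u' hu' => hm u' (mem_of_mem_erase hu')
      exact_mod_cast erase_subset u s
    unfold cob
    rw [← add_sum_erase s _ hv]
    have h3 : ∑ u ∈ s.erase v, gP ht 0 x w (s.erase u) = ∑ u ∈ s.erase v, w (s.erase u) (x [v]) := by
      refine sum_congr rfl fun u hu => ?_
      rw [gP_zero, h2 u hu, sum_singleton]
    have h4 : gP ht 0 x w (s.erase v) = w (s.erase v) (x [v']) := by
      rw [gP_zero, h1', sum_singleton]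
    have h5 : gP ht 1 (dT x) w s = w (s.erase v) (x [v'] + x [v]) := by
      rw [gP_succ, h1, sum_singleton, gP_zero, h1', sum_singleton]
      congr 1
      rw [dT_cons, dT_cons, dT_nil, add_zero]
    have h6 : gP ht 0 x (cobM w) s = w (s.erase v) (x [v]) + ∑ u ∈ s.erase v, w (s.erase u) (x [v]) := by
      rw [gP_zero, h1, sum_singleton]
      unfold cobM
      rw [← add_sum_erase s _ hv, LinearMap.add_apply, LinearMap.sum_apply]
    rw [h3, h4, h5, h6, map_add]
    have h7 := CharTwo.add_self_eq_zero (w (s.erase v) (x [v]))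
    linear_combination -h7
  | succ m ih =>
    intro x w s hs hc
    have hne : s.Nonempty := card_pos.1 (by omega)
    obtain ⟨v, hv, hm⟩ := exists_low ht hne
    have h1 := lows_eq hs hv hm
    have hs' : Set.InjOn ht ((s.erase v : Finset U) : Set U) :=
      hs.mono (by exact_mod_cast erase_subset v s)
    have h2 : ∀ u ∈ s.erase v, lows ht (s.erase u) = {v} := by
      intro u hu
      refine lows_eq (hs.mono ?_) (mem_erase.2 ⟨(ne_of_mem_erase hu).symm, hv⟩)
        fun u' hu' => hm u' (mem_of_mem_erase hu')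
      exact_mod_cast erase_subset u s
    have h3 : cob (gP ht (m + 1) x w) s =
        gP ht (m + 1) x w (s.erase v) + cob (gP ht m (fun l => x (v :: l)) w) (s.erase v) := by
      unfold cob
      rw [← add_sum_erase s _ hv]
      congr 1
      refine sum_congr rfl fun u hu => ?_
      rw [gP_succ, h2 u hu, sum_singleton, erase_right_comm]
    rw [h3, ih _ _ hs' (by rw [card_erase_of_mem hv]; omega), gP_succ (m + 1), h1, sum_singleton,
      gP_succ m x (cobM w), h1, sum_singleton, ← add_assoc]
    congr 1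
    have h4 : (fun l => dT x (v :: l)) = fun l => x l + dT (fun m => x (v :: m)) l :=
      funext fun l => dT_cons x v l
    rw [h4, gP_add_left]

/-! ### cup products with bilinear maps -/

variable {A A' Y : Type} [AddCommGroup A] [Module K A] [AddCommGroup A'] [Module K A']
  [AddCommGroup Y] [Module K Y]

/-- the cup product of order `m - 1` with respect to the bilinear map `b` -/
def cupB (ht : U → ℕ) (m : ℕ) (b : A →ₗ[K] A' →ₗ[K] Y) (x : Finset U → A) (y : Finset U → A')
    (s : Finset U) : Y :=
  ∑ B ∈ s.powersetCard m, b (x (face1 ht B s)) (y (face2 ht B s))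

theorem cupB_ne_zero {m : ℕ} {b : A →ₗ[K] A' →ₗ[K] Y} {x : Finset U → A} {y : Finset U → A'}
    {s : Finset U} (h : cupB ht m b x y s ≠ 0) : ∃ t ⊆ s, x t ≠ 0 := by
  obtain ⟨B, _, hB⟩ := exists_ne_zero_of_sum_ne_zero h
  refine ⟨face1 ht B s, face1_subset ht B s, fun h0 => hB ?_⟩
  rw [h0, map_zero, LinearMap.zero_apply]

/-- the product of order `-1` -/
theorem cupB_zero (b : A →ₗ[K] A' →ₗ[K] Y) (x : Finset U → A) {y : Finset U → A'} (hy : y ∅ = 0)
    (s : Finset U) : cupB ht 0 b x y s = 0 := by
  unfold cupB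
  rw [powersetCard_zero, sum_singleton]
  have h : face2 ht ∅ s = ∅ := by
    unfold face2
    refine filter_false_of_mem fun v _ => ?_
    unfold below
    simp
  rw [h, hy, map_zero]

/-- **The coboundary of the cup products of cocycles.** -/
theorem cob_cupB [CharP K 2] [FiniteDimensional K A] [FiniteDimensional K A'] (m : ℕ)
    (b : A →ₗ[K] A' →ₗ[K] Y) (x : Finset U → A) (y : Finset U → A') (s : Finset U)
    (hs : Set.InjOn ht (s : Set U)) (hx : ∀ t ⊆ s, cobM x t = 0) (hy : ∀ t ⊆ s, cobM y t = 0) :
    cobM (cupB ht (m + 1) b x y) s = cupB ht m b x y s + cupB ht m b.flip y x s := by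
  classical
  let e := Module.finBasis K A
  let e' := Module.finBasis K A'
  have hb : ∀ (a : A) (a' : A'), b a a' = ∑ i, ∑ j, (e.repr a i * e'.repr a' j) • b (e i) (e' j) := by
    intro a a'
    have h1 : b a a' = b (∑ i, e.repr a i • e i) (∑ j, e'.repr a' j • e' j) := by
      rw [e.sum_repr a, e'.sum_repr a']
    rw [h1, map_sum b, LinearMap.sum_apply]
    refine sum_congr rfl fun i _ => ?_
    rw [map_sum]
    refine sum_congr rfl fun j _ => ?_
    rw [map_smul, map_smul, LinearMap.smul_apply, smul_smul, mul_comm]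
  have hrep : ∀ (m : ℕ) (s : Finset U),
      cupB ht m b x y s = ∑ i, ∑ j, cup ht m (fun t => e.repr (x t) i) (fun t => e'.repr (y t) j) s •
        b (e i) (e' j) := by
    intro m s
    unfold cupB cup
    rw [sum_congr rfl fun B _ => hb (x (face1 ht B s)) (y (face2 ht B s)), sum_comm]
    refine sum_congr rfl fun i _ => ?_
    rw [sum_comm]
    exact sum_congr rfl fun j _ => (Finset.sum_smul).symm
  have hrep' : ∀ (m : ℕ) (s : Finset U),
      cupB ht m b.flip y x s = ∑ i, ∑ j, cup ht m (fun t => e'.repr (y t) j) (fun t => e.repr (x t) i) s •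
        b (e i) (e' j) := by
    intro m s
    unfold cupB cup
    rw [sum_congr rfl fun B _ => (LinearMap.flip_apply b _ _).trans
      (hb (x (face2 ht B s)) (y (face1 ht B s))), sum_comm]
    refine sum_congr rfl fun i _ => ?_
    rw [sum_comm]
    refine sum_congr rfl fun j _ => ?_
    rw [Finset.sum_smul]
    exact sum_congr rfl fun B _ => by rw [mul_comm]
  have hx' : ∀ i, ∀ t ⊆ s, cob (fun t => e.repr (x t) i) t = 0 := by
    intro i t ht'
    have h1 := cobM_hom ((Finsupp.applyAddHom i).comp e.repr.toLinearMap.toAddMonoidHom) x t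
    rw [hx t ht', map_zero] at h1
    exact h1
  have hy' : ∀ i, ∀ t ⊆ s, cob (fun t => e'.repr (y t) i) t = 0 := by
    intro i t ht'
    have h1 := cobM_hom ((Finsupp.applyAddHom i).comp e'.repr.toLinearMap.toAddMonoidHom) y t
    rw [hy t ht', map_zero] at h1
    exact h1
  have hL : cobM (cupB ht (m + 1) b x y) s = ∑ i, ∑ j,
      cob (cup ht (m + 1) (fun t => e.repr (x t) i) (fun t => e'.repr (y t) j)) s • b (e i) (e' j) := by
    unfold cobM cob
    rw [sum_congr rfl fun v _ => hrep (m + 1) (s.erase v), sum_comm]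
    refine sum_congr rfl fun i _ => ?_
    rw [sum_comm]
    exact sum_congr rfl fun j _ => (Finset.sum_smul).symm
  rw [hL, hrep, hrep', ← sum_add_distrib]
  refine sum_congr rfl fun i _ => ?_
  rw [← sum_add_distrib]
  refine sum_congr rfl fun j _ => ?_
  rw [← add_smul, cob_cup' hs (hx' i) (hy' j)]

end Coch

end Pool.Agent.S9

end
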