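import Pool.Agent.H71.TSG.M11
import Pool.Agent.H71.TSG.M20
import Pool.Agent.H71.TSG.M21
import Pool.Agent.H71.TSG.M27
import Pool.Agent.H71.TSG.M33

/-! The parts of this file: H73.GC.Cone, H19.PL.Cox, H19.PL.Tri, H85.Fold.ResA, H19.PL.Col, H19.PL.Zig, H85.Fold.Pair, H85.Fold.Res, S10.EA.Lat, S9.E.Sub, S9.G.Pot, S9.G.Fin. -/

section

/-!
# Growth calculus: cones

The module `Y × Y` with `dbl r v 1`. `hd_coef` with `lam (a, b) = a + b`: the intersection with the kernel is the
image under `y ↦ (y, y)` of the system `A s = Sy (Cq G U) r (s - v)` of a cone, which is acyclic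
(a cycle `z` is the boundary of the chain `s ↦ z (s - v)` if `v ∈ s`, otherwise `0`), and the image is
`Sy (Cq G U) r`.
-/

set_option autoImplicit false
set_option linter.unusedSectionVars false

open Finset

namespace Pool.Agent.H73.GC

variable {V : Type} [DecidableEq V] [Fintype V]

private theorem Cone_add_self {Y : Type} [AddCommGroup Y] [Module F2 Y] (y : Y) : y + y = 0 :=
  ZModModule.add_self y

private theorem Cone_cq {G : SimpleGraph V} {U : Finset V} {v : V} (hv : v ∉ U)
    (h : ∀ w ∈ U, G.Adj v w) (s : Finset V) :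
    Cq G (insert v U) s ↔ Cq G U (s.erase v) := by
  constructor
  · rintro ⟨h1, h2⟩
    refine ⟨?_, ?_⟩
    · intro a ha b hb hab
      have ha' := Finset.mem_of_mem_erase (Finset.mem_coe.mp ha)
      have hb' := Finset.mem_of_mem_erase (Finset.mem_coe.mp hb)
      exact h1 ha' hb' hab
    · intro a ha
      have ha' := h2 (Finset.mem_of_mem_erase ha)
      rcases Finset.mem_insert.mp ha' with h3 | h3
      · exact absurd h3 (Finset.ne_of_mem_erase ha)
      · exact h3
  · rintro ⟨h1, h2⟩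
    refine ⟨?_, ?_⟩
    · intro a ha b hb hab
      have ha' := Finset.mem_coe.mp ha
      have hb' := Finset.mem_coe.mp hb
      by_cases hav : a = v
      · subst hav
        have hb3 : b ∈ s.erase a := Finset.mem_erase.mpr ⟨fun e => hab e.symm, hb'⟩
        exact h b (h2 hb3)
      · by_cases hbv : b = v
        · subst hbv
          have ha3 : a ∈ s.erase b := Finset.mem_erase.mpr ⟨hab, ha'⟩
          exact (h a (h2 ha3)).symm
        · exact h1 (Finset.mem_coe.mpr (Finset.mem_erase.mpr ⟨hav, ha'⟩))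
            (Finset.mem_coe.mpr (Finset.mem_erase.mpr ⟨hbv, hb'⟩)) hab
    · intro a ha
      by_cases hav : a = v
      · rw [hav]
        exact Finset.mem_insert_self _ _
      · exact Finset.mem_insert_of_mem (h2 (Finset.mem_erase.mpr ⟨hav, ha⟩))

/-- the chain whose boundary is a given cycle -/
private def Cone_c {Y : Type} [AddCommGroup Y] (v : V) (z : Finset V → Y) (s : Finset V) : Y :=
  if v ∈ s then z (s.erase v) else 0

private theorem Cone_dd {Y : Type} [AddCommGroup Y] [Module F2 Y] (v : V) (z : Finset V → Y)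
    (hz : dd z = 0) : dd (Cone_c v z) = z := by
  funext s
  rw [dd_apply]
  by_cases hs : v ∈ s
  · have h1 : dd z (s.erase v) = 0 := by rw [hz]; rfl
    rw [dd_apply] at h1
    have h2 : (s.erase v)ᶜ = insert v sᶜ := by
      ext w
      simp only [Finset.mem_compl, Finset.mem_erase, Finset.mem_insert]
      tauto
    rw [h2, Finset.sum_insert (by simp [hs]), Finset.insert_erase hs] at h1
    have h3 : ∑ w ∈ sᶜ, Cone_c v z (insert w s) = ∑ w ∈ sᶜ, z (insert w (s.erase v)) := by
      refine Finset.sum_congr rfl fun w hw => ?_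
      have hw' := Finset.mem_compl.mp hw
      have hwv : w ≠ v := fun e => hw' (e ▸ hs)
      unfold Cone_c
      rw [if_pos (Finset.mem_insert_of_mem hs), Finset.erase_insert_of_ne hwv]
    rw [h3]
    have h4 := Cone_add_self (z s)
    have h5 : z s + ∑ w ∈ sᶜ, z (insert w (s.erase v)) = z s + z s := by rw [h1, h4]
    exact add_left_cancel h5
  · rw [Finset.sum_eq_single_of_mem v (Finset.mem_compl.mpr hs)]
    · unfold Cone_c
      rw [if_pos (Finset.mem_insert_self _ _), Finset.erase_insert hs]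
    · intro w _ hwv
      unfold Cone_c
      rw [if_neg]
      intro hm
      rcases Finset.mem_insert.mp hm with h1 | h1
      · exact hwv h1.symm
      · exact hs h1

private theorem Cone_hd {Y : Type} [AddCommGroup Y] [Module F2 Y] [Finite Y] (v : V)
    (S : Finset V → Submodule F2 Y) (i : ℕ) : hd (fun s => S (s.erase v)) i ≤ 0 := by
  unfold hd hx
  have hle : (Ch (fun s => S (s.erase v)) i ⊓ LinearMap.ker dd : Submodule F2 (Finset V → Y)) ≤
      (Ch (fun s => S (s.erase v)) (i + 1)).map dd := by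
    intro z hz
    obtain ⟨hz1, hz2⟩ := Submodule.mem_inf.mp hz
    have hz3 : dd z = 0 := LinearMap.mem_ker.mp hz2
    refine Submodule.mem_map.mpr ⟨Cone_c v z, ?_, Cone_dd v z hz3⟩
    rw [mem_Ch] at hz1 ⊢
    intro s
    unfold Cone_c
    by_cases hs : v ∈ s
    · rw [if_pos hs]
      refine ⟨?_, fun hc => ?_⟩
      · have := (hz1 (s.erase v)).1
        rw [Finset.erase_idem] at this
        exact this
      · refine (hz1 (s.erase v)).2 ?_
        rw [Finset.card_erase_of_mem hs]
        have : 0 < s.card := Finset.card_pos.mpr ⟨v, hs⟩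
        omega
    · rw [if_neg hs]
      exact ⟨Submodule.zero_mem _, fun _ => rfl⟩
  have := Submodule.finrank_mono hle
  omega

theorem gz_cone {G : SimpleGraph V} {U : Finset V} {v : V} (hv : v ∉ U)
    (h : ∀ w ∈ U, G.Adj v w) {i : ℕ} (hz : GZ G U i) : GZ G (insert v U) i := by
  intro ε hε
  obtain ⟨Y, iY1, iY2, iY3, r, E, hN, hB, hpos, hle⟩ := hz ε hε
  have hUe : (insert v U).erase v = U := Finset.erase_insert hv
  have hN' : IsN G (insert v U) (dbl r v 1) :=
    isN_dbl (G := G) (H := G) (U := insert v U) (x := v) (by rw [hUe]; exact hN)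
      (fun a _ b _ hab => hab) 1 (Or.inl rfl)
  have hB' : IsBit G (insert v U) (dbl r v 1) (dblE E v v false) :=
    isBit_dbl_one (by rw [hUe]; exact hN) (by rw [hUe]; exact hB)
  have hfr : Module.finrank F2 (Y × Y) = Module.finrank F2 Y + Module.finrank F2 Y :=
    Module.finrank_prod
  refine ⟨Y × Y, inferInstance, inferInstance, inferInstance, dbl r v 1, dblE E v v false, hN', hB',
    by omega, ?_⟩
  -- the two maps
  let lam : Y × Y →ₗ[F2] Y := LinearMap.fst F2 Y Y + LinearMap.snd F2 Y Y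
  let j : Y →ₗ[F2] Y × Y := LinearMap.prod LinearMap.id LinearMap.id
  have hlam : ∀ y : Y × Y, lam y = y.1 + y.2 := fun _ => rfl
  have hj : ∀ y : Y, j y = (y, y) := fun _ => rfl
  have hjinj : Function.Injective j := by
    intro a b hab
    rw [hj, hj] at hab
    exact congrArg Prod.fst hab
  have hmono : Mono (Sy (Cq G (insert v U)) (dbl r v 1)) := mono_Sy (mono_Cq G (insert v U)) _
  have h1 := hd_coef hmono lam i
  have e1 : (fun s => Sy (Cq G (insert v U)) (dbl r v 1) s ⊓ LinearMap.ker lam) =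
      fun s => (Sy (Cq G U) r (s.erase v)).map j := by
    funext s
    ext y
    rw [Submodule.mem_inf, LinearMap.mem_ker, hlam, mem_Sy, Submodule.mem_map]
    constructor
    · rintro ⟨⟨h2, h3⟩, h4⟩
      have h5 : y.1 = y.2 := by
        have h6 := Cone_add_self y.2
        have h7 : y.1 + y.2 = y.2 + y.2 := by rw [h4, h6]
        exact add_right_cancel h7
      refine ⟨y.1, ?_, ?_⟩
      · rw [mem_Sy]
        refine ⟨fun hc => ?_, fun w hw => ?_⟩
        · rw [h2 (fun hc' => hc ((Cone_cq hv h s).mp hc'))]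
          rfl
        · have h8 := h3 w (Finset.mem_of_mem_erase hw)
          rw [dbl_ne r (Finset.ne_of_mem_erase hw)] at h8
          exact congrArg Prod.fst h8
      · rw [hj]
        exact Prod.ext rfl h5
    · rintro ⟨a, ha, rfl⟩
      rw [mem_Sy] at ha
      rw [hj]
      refine ⟨⟨fun hc => ?_, fun w hw => ?_⟩, Cone_add_self a⟩
      · rw [ha.1 (fun hc' => hc ((Cone_cq hv h s).mpr hc'))]
        rfl
      · by_cases hwv : w = v
        · rw [hwv, dbl_self]
          rfl
        · rw [dbl_ne r hwv, ha.2 w (Finset.mem_erase.mpr ⟨hwv, hw⟩)]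
  have e2 : (fun s => (Sy (Cq G (insert v U)) (dbl r v 1) s).map lam) = Sy (Cq G U) r := by
    funext s
    ext y
    rw [Submodule.mem_map, mem_Sy]
    constructor
    · rintro ⟨a, ha, rfl⟩
      rw [mem_Sy] at ha
      rw [hlam]
      by_cases hs : v ∈ s
      · have h3 := ha.2 v hs
        rw [dbl_self] at h3
        have h4 : a.2 = a.1 := congrArg Prod.fst h3
        rw [h4, Cone_add_self]
        exact ⟨fun _ => rfl, fun w _ => map_zero _⟩
      · refine ⟨fun hc => ?_, fun w hw => ?_⟩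
        · rw [ha.1 (fun hc' => hc (by
            have := (Cone_cq hv h s).mp hc'
            rwa [Finset.erase_eq_of_notMem hs] at this))]
          exact add_zero _
        · have hwv : w ≠ v := fun e => hs (e ▸ hw)
          have h3 := ha.2 w hw
          rw [dbl_ne r hwv] at h3
          have h4 : r w a.1 = a.1 := congrArg Prod.fst h3
          have h5 : r w a.2 = a.2 := congrArg Prod.snd h3
          rw [map_add, h4, h5]
    · rintro ⟨h3, h4⟩
      by_cases hc : Cq G U s
      · have hs : v ∉ s := fun hm => hv (hc.2 hm)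
        refine ⟨(y, 0), ?_, ?_⟩
        · rw [mem_Sy]
          refine ⟨fun hc' => absurd ((Cone_cq hv h s).mpr (by
            rwa [Finset.erase_eq_of_notMem hs])) hc', fun w hw => ?_⟩
          have hwv : w ≠ v := fun e => hs (e ▸ hw)
          rw [dbl_ne r hwv]
          exact Prod.ext (h4 w hw) (map_zero _)
        · rw [hlam]
          exact add_zero _
      · refine ⟨0, Submodule.zero_mem _, ?_⟩
        rw [map_zero, h3 hc]
  rw [e1, e2, hd_map _ j hjinj] at h1
  have h2 := Cone_hd v (Sy (Cq G U) r) i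
  have h3 : hX (Cq G (insert v U)) (dbl r v 1) i ≤ hX (Cq G U) r i := by
    unfold hX
    linarith
  have h4 : (hX (Cq G (insert v U)) (dbl r v 1) i : ℝ) ≤ (hX (Cq G U) r i : ℝ) := by
    exact_mod_cast h3
  have h5 : (0 : ℝ) ≤ ε * Module.finrank F2 Y := by positivity
  rw [hfr]
  push_cast
  linarith

end Pool.Agent.H73.GC

end

section

/-!
# Project PDL: descents and parabolic subgroups

For a finite parabolic subgroup `W_κ` every coset `w W_κ` contains a unique element `m` all of whose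
right descents contain `κ`; it is the longest element of the coset.
-/

set_option autoImplicit false
set_option linter.unusedSectionVars false

open Finset

namespace Pool.Agent.H19.PL

open Pool.Agent.H4.FC Pool.Agent.H73.LK

variable {V : Type} [Fintype V] [DecidableEq V]

/-- right descents -/
def Ds (M : CoxeterMatrix V) (w : M.Group) (v : V) : Prop :=
  M.toCoxeterSystem.IsRightDescent w v

/-- the length -/
noncomputable def len (M : CoxeterMatrix V) (w : M.Group) : ℕ := M.toCoxeterSystem.length w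

theorem not_ds_iff {M : CoxeterMatrix V} {w : M.Group} {v : V} :
    ¬ Ds M w v ↔ len M (w * M.simple v) = len M w + 1 := by
  unfold Ds len
  rw [M.toCoxeterSystem.not_isRightDescent_iff, M.toCoxeterSystem_simple]

private theorem ext_neg_root (M : CoxeterMatrix V) (w : M.Group) (v : V) (h : Ds M w v) (i : V) :
    (titsHom M w).mulVec (Pi.single v 1) i ≤ 0 := by
  have h1 : ¬ M.toCoxeterSystem.IsRightDescent (w * M.toCoxeterSystem.simple v) v :=
    M.toCoxeterSystem.isRightDescent_iff_not_isRightDescent_mul.mp h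
  have h2 := tits_pos M _ v h1 i
  have e2 : titsHom M (M.toCoxeterSystem.simple v) = refl (kR M) v := titsHom_simple M v
  rw [map_mul, ← Matrix.mulVec_mulVec, e2, refl_mulVec] at h2
  have h3 : ∑ u, kR M v u * (Pi.single v 1 : V → ℝ) u = 2 := by
    rw [Finset.sum_eq_single v]
    · rw [Pi.single_eq_same, mul_one, kR_self]
    · intro u _ hu
      rw [Pi.single_eq_of_ne hu, mul_zero]
    · intro hu
      exact absurd (Finset.mem_univ v) hu
  rw [h3] at h2
  have h4 : (Pi.single v 1 : V → ℝ) - (2 : ℝ) • Pi.single v 1 = -Pi.single v 1 := by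
    rw [two_smul]
    abel
  rw [h4, Matrix.mulVec_neg, Pi.neg_apply] at h2
  linarith

/-- extension by zero -/
private noncomputable def cxext (Y : Finset V) (x : {v // v ∈ Y} → ℝ) (v : V) : ℝ :=
  if h : v ∈ Y then x ⟨v, h⟩ else 0

private theorem cxext_sub (Y : Finset V) (x y : {v // v ∈ Y} → ℝ) (r : ℝ) :
    cxext Y (x - r • y) = cxext Y x - r • cxext Y y := by
  funext v
  unfold cxext
  by_cases h : v ∈ Y
  · simp [h]
  · simp [h]

private theorem cxext_single (Y : Finset V) (v : {v // v ∈ Y}) :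
    cxext Y (Pi.single v 1) = Pi.single v.1 1 := by
  funext u
  unfold cxext
  by_cases h : u ∈ Y
  · rw [dif_pos h]
    by_cases h1 : u = v.1
    · subst h1
      rw [Pi.single_eq_same, Pi.single_eq_same]
    · rw [Pi.single_eq_of_ne h1, Pi.single_eq_of_ne]
      exact fun h2 => h1 (congrArg Subtype.val h2)
  · rw [dif_neg h, Pi.single_eq_of_ne]
    exact fun h1 => h (h1 ▸ v.2)

private theorem cx_tits (M : CoxeterMatrix V) (Y : Finset V) (w : (sub M Y).Group)
    (x : {v // v ∈ Y} → ℝ) :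
    (titsHom M (ind_hom M Y w)).mulVec (cxext Y x) = cxext Y ((titsHom (sub M Y) w).mulVec x) := by
  induction w using (sub M Y).toCoxeterSystem.simple_induction_left generalizing x with
  | one => rw [map_one, map_one, map_one, Matrix.one_mulVec, Matrix.one_mulVec]
  | mul_simple_left w i ih =>
    have e1 : (sub M Y).toCoxeterSystem.simple i = (sub M Y).simple i := by
      rw [(sub M Y).toCoxeterSystem_simple]
    rw [e1, map_mul, map_mul, map_mul, ind_hom_simple, ← Matrix.mulVec_mulVec, ← Matrix.mulVec_mulVec, ih]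
    have e2 : titsHom M (M.simple i.1) = refl (kR M) i.1 := titsHom_simple M i.1
    have e3 : titsHom (sub M Y) ((sub M Y).simple i) = refl (kR (sub M Y)) i := titsHom_simple _ i
    rw [e2, e3, refl_mulVec, refl_mulVec, cxext_sub, cxext_single]
    congr 2
    have h1 : ∀ u ∉ Y, kR M i.1 u * cxext Y ((titsHom (sub M Y) w).mulVec x) u = 0 := by
      intro u hu
      unfold cxext
      rw [dif_neg hu, mul_zero]
    rw [← Finset.sum_subset (Finset.subset_univ Y) fun u _ hu => h1 u hu, ← Finset.sum_coe_sort]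
    refine Finset.sum_congr rfl fun u _ => ?_
    have h2 : cxext Y ((titsHom (sub M Y) w).mulVec x) u.1 = (titsHom (sub M Y) w).mulVec x u := by
      unfold cxext
      rw [dif_pos u.2]
    rw [h2]
    rfl

/-- a nontrivial element of `W_κ` makes some simple root `α_v`, `v ∈ κ`, a nonpositive combination of the
`α_x`, `x ∈ κ` -/
theorem neg_root (M : CoxeterMatrix V) {κ : Finset V} {u : M.Group} (hu : u ∈ par M κ) (h1 : u ≠ 1) :
    ∃ v ∈ κ, ∃ c : V → ℝ, (∀ x, 0 ≤ c x) ∧ (∀ x, x ∉ κ → c x = 0) ∧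
      (titsHom M u).mulVec (Pi.single v 1) = -c := by
  have hle : par M κ ≤ (ind_hom M κ).range := by
    unfold par
    rw [Subgroup.closure_le]
    rintro w ⟨v, hv, rfl⟩
    exact ⟨(sub M κ).simple ⟨v, hv⟩, ind_hom_simple M κ ⟨v, hv⟩⟩
  obtain ⟨u', rfl⟩ := hle hu
  have hu' : u' ≠ 1 := by
    rintro rfl
    exact h1 (map_one _)
  obtain ⟨v, hv⟩ := (sub M κ).toCoxeterSystem.exists_rightDescent_of_ne_one hu'
  refine ⟨v.1, v.2, fun x => -cxext κ ((titsHom (sub M κ) u').mulVec (Pi.single v 1)) x, ?_, ?_, ?_⟩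
  · intro x
    by_cases hx : x ∈ κ
    · have h2 := ext_neg_root (sub M κ) u' v hv ⟨x, hx⟩
      unfold cxext
      beta_reduce
      rw [dif_pos hx]
      linarith
    · unfold cxext
      beta_reduce
      rw [dif_neg hx, neg_zero]
  · intro x hx
    unfold cxext
    beta_reduce
    rw [dif_neg hx, neg_zero]
  · have h2 := cx_tits M κ u' (Pi.single v 1)
    rw [cxext_single] at h2
    rw [h2]
    funext x
    simp

/-- a combination of vectors -/
private theorem mulVec_expand (A : Matrix V V ℝ) (c : V → ℝ) (i : V) :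
    A.mulVec c i = ∑ x, c x * A.mulVec (Pi.single x 1) i := by
  unfold Matrix.mulVec dotProduct
  refine Finset.sum_congr rfl fun x _ => ?_
  rw [Finset.sum_eq_single x]
  · rw [Pi.single_eq_same, mul_one, mul_comm]
  · intro y _ hy
    rw [Pi.single_eq_of_ne hy, mul_zero]
  · intro h
    exact absurd (Finset.mem_univ x) h

/-- **Uniqueness.** -/
theorem uniq (M : CoxeterMatrix V) {κ : Finset V} {m u : M.Group} (hu : u ∈ par M κ)
    (h1 : ∀ v ∈ κ, Ds M m v) (h2 : ∀ v ∈ κ, Ds M (m * u) v) : u = 1 := by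
  by_contra hne
  obtain ⟨v, hv, c, hc, hcκ, hcv⟩ := neg_root M hu hne
  have h3 : ∀ i, (titsHom M (m * u)).mulVec (Pi.single v 1) i = 0 := by
    intro i
    apply le_antisymm (ext_neg_root M _ v (h2 v hv) i)
    rw [map_mul, ← Matrix.mulVec_mulVec, hcv, Matrix.mulVec_neg, Pi.neg_apply, mulVec_expand]
    have h4 : ∑ x, c x * (titsHom M m).mulVec (Pi.single x 1) i ≤ 0 := by
      refine Finset.sum_nonpos fun x _ => ?_
      by_cases hx : x ∈ κ
      · exact mul_nonpos_of_nonneg_of_nonpos (hc x) (ext_neg_root M m x (h1 x hx) i)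
      · rw [hcκ x hx, zero_mul]
    linarith
  have h4 : (titsHom M (m * u)).mulVec (Pi.single v 1) = 0 := funext h3
  have h5 : (titsHom M ((m * u)⁻¹)).mulVec ((titsHom M (m * u)).mulVec (Pi.single v 1)) = Pi.single v 1 := by
    rw [Matrix.mulVec_mulVec, ← map_mul, inv_mul_cancel, map_one, Matrix.one_mulVec]
  rw [h4, Matrix.mulVec_zero] at h5
  have h6 := congrFun h5 v
  rw [Pi.single_eq_same, Pi.zero_apply] at h6
  exact zero_ne_one h6

/-- the longest element of a coset -/
theorem exists_max (M : CoxeterMatrix V) {κ : Finset V} (hκ : Sph M κ) (w : M.Group) :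
    ∃ u ∈ par M κ, (∀ v ∈ κ, Ds M (w * u) v) ∧ ∀ u' ∈ par M κ, len M (w * u') ≤ len M (w * u) := by
  have hne : (parF M κ).Nonempty := ⟨1, (mem_parF hκ 1).2 (one_mem _)⟩
  obtain ⟨u, hu, hmax⟩ := Finset.exists_max_image (parF M κ) (fun u => len M (w * u)) hne
  rw [mem_parF hκ] at hu
  refine ⟨u, hu, fun v hv => ?_, fun u' hu' => hmax u' ((mem_parF hκ u').2 hu')⟩
  by_contra h
  rw [not_ds_iff] at h
  have h1 := hmax (u * M.simple v) ((mem_parF hκ _).2 (mul_mem hu (simple_mem_par M hv)))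
  rw [← mul_assoc] at h1
  omega

/-- **The longest element.** -/
theorem len_lt (M : CoxeterMatrix V) {κ : Finset V} (hκ : Sph M κ) {m u : M.Group}
    (hu : u ∈ par M κ) (h1 : ∀ v ∈ κ, Ds M m v) (hne : u ≠ 1) : len M (m * u) < len M m := by
  obtain ⟨t, ht, htd, htm⟩ := exists_max M hκ m
  have ht1 : t = 1 := uniq M ht h1 htd
  rw [ht1, mul_one] at htm
  refine lt_of_le_of_ne (htm u hu) fun heq => hne ?_
  refine uniq M hu h1 fun v hv => ?_
  by_contra h
  rw [not_ds_iff] at h
  have h2 := htm (u * M.simple v) (mul_mem hu (simple_mem_par M hv))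
  rw [← mul_assoc] at h2
  omega

end Pool.Agent.H19.PL

end

section

/-!
# Project PDL: triangular systems
-/

set_option autoImplicit false
set_option linter.unusedSectionVars false

open Finset

namespace Pool.Agent.H19.PL

open Pool.Agent.H4.FC

variable {V : Type} [Fintype V] [DecidableEq V] {X : Type} [AddCommGroup X] [Module ℝ X]
  {M : CoxeterMatrix V}

/-- the sign as a real number -/
noncomputable def er (M : CoxeterMatrix V) (u : M.Group) : ℝ := ((eps M u : ℤ) : ℝ)

theorem er_one : er M 1 = 1 := by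
  unfold er
  rw [map_one, Int.cast_one]

theorem er_mul (u w : M.Group) : er M (u * w) = er M u * er M w := by
  unfold er
  rw [map_mul, Int.cast_mul]

theorem er_simple (v : V) : er M (M.simple v) = -1 := by
  unfold er
  rw [eps_simple]
  norm_num

theorem er_sq (u : M.Group) : er M u * er M u = 1 := by
  unfold er
  exact_mod_cast eps_mul_self M u

theorem er_ne (u : M.Group) : er M u ≠ 0 := fun h => by
  have h1 := er_sq u
  rw [h, mul_zero] at h1
  exact zero_ne_one h1

/-- functions which are right anti-invariant -/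
def AntiF (M : CoxeterMatrix V) (κ : Finset V) (f : M.Group → X) : Prop :=
  ∀ v ∈ κ, ∀ x, f (x * M.simple v) = -f x

theorem AntiF.ext {κ : Finset V} {f : M.Group → X} (h : AntiF M κ f) :
    ∀ u ∈ par M κ, ∀ x, f (x * u) = er M u • f x := by
  refine par_induction M κ ?_ ?_
  · intro x
    rw [mul_one, er_one, one_smul]
  · intro v hv w ih x
    rw [← mul_assoc, ih, h v hv, er_mul, er_simple, smul_neg, neg_one_mul, neg_smul]

/-- the alternating sum over a finite parabolic subgroup -/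
noncomputable def altF (M : CoxeterMatrix V) (κ : Finset V) (f : M.Group → X) (x : M.Group) : X :=
  ∑ u ∈ parF M κ, er M u • f (x * u)

theorem altF_add (κ : Finset V) (f g : M.Group → X) (x : M.Group) :
    altF M κ (f + g) x = altF M κ f x + altF M κ g x := by
  unfold altF
  rw [← sum_add_distrib]
  refine sum_congr rfl fun u _ => ?_
  rw [Pi.add_apply, smul_add]

theorem alt_top {κ D : Finset V} (hD : Sph M D) (hκ : κ ⊆ D) {f : M.Group → X} (hf : AntiF M κ f)
    {w : M.Group} (h0 : ∀ u ∈ par M D, u ∉ par M κ → f (w * u) = 0) :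
    altF M D f w = ((parF M κ).card : ℝ) • f w := by
  have hκs : Sph M κ := hD.mono hκ
  unfold altF
  have hsub : parF M κ ⊆ parF M D := by
    intro u hu
    rw [mem_parF hκs] at hu
    rw [mem_parF hD]
    exact par_mono M hκ hu
  rw [← sum_subset hsub]
  · have h1 : ∀ u ∈ parF M κ, er M u • f (w * u) = f w := by
      intro u hu
      rw [mem_parF hκs] at hu
      rw [hf.ext u hu, smul_smul, er_sq, one_smul]
    rw [sum_congr rfl h1, sum_const, ← Nat.cast_smul_eq_nsmul ℝ]
  · intro u hu hu'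
    rw [mem_parF hD] at hu
    rw [mem_parF hκs] at hu'
    rw [h0 u hu hu', smul_zero]

open Classical in
/-- the descents in `τ` -/
noncomputable def dsF (M : CoxeterMatrix V) (τ : Finset V) (w : M.Group) : Finset V :=
  τ.filter fun v => Ds M w v

theorem mem_dsF {τ : Finset V} {w : M.Group} {v : V} : v ∈ dsF M τ w ↔ v ∈ τ ∧ Ds M w v := by
  classical
  exact Finset.mem_filter

theorem dsF_sub {τ : Finset V} {w : M.Group} : dsF M τ w ⊆ τ := fun _ h => (mem_dsF.1 h).1

/-- to the longest element of the coset -/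
noncomputable def mu {κ : Finset V} (hκ : Sph M κ) (x : M.Group) : M.Group := (exists_max M hκ x).choose

theorem mu_mem {κ : Finset V} (hκ : Sph M κ) (x : M.Group) : mu hκ x ∈ par M κ :=
  (exists_max M hκ x).choose_spec.1

theorem mu_ds {κ : Finset V} (hκ : Sph M κ) (x : M.Group) : ∀ v ∈ κ, Ds M (x * mu hκ x) v :=
  (exists_max M hκ x).choose_spec.2.1

theorem mu_uniq {κ : Finset V} (hκ : Sph M κ) (x a : M.Group) (ha : a ∈ par M κ)
    (h : ∀ v ∈ κ, Ds M (x * a) v) : mu hκ x = a := by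
  have h1 := uniq M (mul_mem (inv_mem ha) (mu_mem hκ x)) h (by
    have h2 := mu_ds hκ x
    rw [mul_assoc, mul_inv_cancel_left]
    exact h2)
  rw [inv_mul_eq_one] at h1
  exact h1.symm

theorem mu_mul {κ : Finset V} (hκ : Sph M κ) (x a : M.Group) (ha : a ∈ par M κ) :
    mu hκ (x * a) = a⁻¹ * mu hκ x := by
  refine mu_uniq hκ _ _ (mul_mem (inv_mem ha) (mu_mem hκ x)) ?_
  rw [mul_assoc, mul_inv_cancel_left]
  exact mu_ds hκ x

/-- the longest element of another coset of `W_κ` in the coset of `W_D` is shorter -/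
theorem mu_lt {κ D : Finset V} (hD : Sph M D) (hκ : κ ⊆ D) {w u : M.Group}
    (hw : ∀ v ∈ D, Ds M w v) (hu : u ∈ par M D) (hu' : u ∉ par M κ) :
    len M (w * u * mu (hD.mono hκ) (w * u)) < len M w := by
  have h1 := mu_mem (hD.mono hκ) (w * u)
  rw [mul_assoc]
  refine len_lt M hD (mul_mem hu (par_mono M hκ h1)) hw fun h2 => hu' ?_
  rw [mul_eq_one_iff_eq_inv] at h2
  rw [h2]
  exact inv_mem h1

/-- **Triangularity, injectivity.** -/
theorem tri_inj {τ κ : Finset V} (hτ : Sph M τ) (hκ : κ ⊆ τ) {f : M.Group → X} (hf : AntiF M κ f)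
    (h : ∀ w ∈ par M τ, κ ⊆ dsF M τ w → altF M (dsF M τ w) f w = 0) :
    ∀ x ∈ par M τ, f x = 0 := by
  have hκs : Sph M κ := hτ.mono hκ
  have key : ∀ n : ℕ, ∀ w ∈ par M τ, κ ⊆ dsF M τ w → len M w = n → f w = 0 := by
    intro n
    induction n using Nat.strong_induction_on with
    | _ n ih =>
    intro w hw hwκ hn
    have hD : Sph M (dsF M τ w) := hτ.mono dsF_sub
    have h1 := alt_top (f := f) (w := w) hD hwκ hf (by
      intro u hu hu'
      obtain ⟨m, hm⟩ : ∃ m, m = w * u * mu hκs (w * u) := ⟨_, rfl⟩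
      have h2 : len M m < len M w := by
        rw [hm]
        exact mu_lt hD hwκ (fun v hv => (mem_dsF.1 hv).2) hu hu'
      have h3 : m ∈ par M τ := by
        rw [hm]
        exact mul_mem (mul_mem hw (par_mono M dsF_sub hu)) (par_mono M hκ (mu_mem hκs _))
      have h4 : κ ⊆ dsF M τ m := by
        intro v hv
        rw [mem_dsF]
        refine ⟨hκ hv, ?_⟩
        rw [hm]
        exact mu_ds hκs (w * u) v hv
      have h5 := ih (len M m) (by omega) m h3 h4 rfl
      rw [hm, hf.ext _ (mu_mem hκs _), smul_eq_zero] at h5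
      exact h5.resolve_left (er_ne _))
    rw [h w hw hwκ] at h1
    have h2 := (smul_eq_zero.1 h1.symm).resolve_left
    apply h2
    exact_mod_cast (parF_card_pos hκs).ne'
  intro x hx
  have h1 := key _ (x * mu hκs x) (mul_mem hx (par_mono M hκ (mu_mem hκs _))) (by
    intro v hv
    rw [mem_dsF]
    exact ⟨hκ hv, mu_ds hκs x v hv⟩) rfl
  rw [hf.ext _ (mu_mem hκs _), smul_eq_zero] at h1
  exact h1.resolve_left (er_ne _)

/-- **Triangularity, surjectivity.** -/
theorem tri_surj {τ κ : Finset V} (hτ : Sph M τ) (hκ : κ ⊆ τ) (y : M.Group → X) :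
    ∃ f : M.Group → X, AntiF M κ f ∧
      ∀ w ∈ par M τ, κ ⊆ dsF M τ w → altF M (dsF M τ w) f w = y w := by
  classical
  have hκs : Sph M κ := hτ.mono hκ
  have key : ∀ n : ℕ, ∃ f : M.Group → X, AntiF M κ f ∧
      ∀ w ∈ par M τ, κ ⊆ dsF M τ w → len M w < n → altF M (dsF M τ w) f w = y w := by
    intro n
    induction n with
    | zero =>
      exact ⟨0, fun v _ x => by simp, fun w _ _ h => absurd h (Nat.not_lt_zero _)⟩
    | succ n ih =>
      obtain ⟨f, hf, hfy⟩ := ih
      obtain ⟨δ, hδ⟩ : ∃ δ : M.Group → X, ∀ w, δ w = (1 / ((parF M κ).card : ℝ)) •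
          (y w - altF M (dsF M τ w) f w) := ⟨_, fun _ => rfl⟩
      obtain ⟨g, hg⟩ : ∃ g : M.Group → X, ∀ x, g x = if len M (x * mu hκs x) = n then
          er M (mu hκs x) • δ (x * mu hκs x) else 0 := ⟨_, fun _ => rfl⟩
      have hga : AntiF M κ g := by
        intro v hv x
        have h1 := mu_mul hκs x (M.simple v) (simple_mem_par M hv)
        have h2 : x * M.simple v * mu hκs (x * M.simple v) = x * mu hκs x := by
          rw [h1, simple_inv, mul_assoc, ← mul_assoc (M.simple v), simple_sq, one_mul]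
        rw [hg, hg, h2, h1, er_mul, simple_inv, er_simple]
        split_ifs
        · rw [neg_one_mul, neg_smul]
        · rw [neg_zero]
      refine ⟨f + g, fun v hv x => ?_, fun w hw hwκ hn => ?_⟩
      · rw [Pi.add_apply, Pi.add_apply, hf v hv, hga v hv]
        abel
      · have hD : Sph M (dsF M τ w) := hτ.mono dsF_sub
        have hm1 : mu hκs w = 1 := by
          refine mu_uniq hκs w 1 (one_mem _) ?_
          rw [mul_one]
          exact fun v hv => (mem_dsF.1 (hwκ hv)).2
        have h1 := alt_top (f := g) (w := w) hD hwκ hga (by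
          intro u hu hu'
          have h2 := mu_lt hD hwκ (fun v hv => (mem_dsF.1 hv).2) hu hu'
          rw [hg, if_neg]
          intro h3
          have h4 : len M (w * u * mu (hD.mono hwκ) (w * u)) = n := h3
          omega)
        rw [altF_add, h1, hg, hm1, mul_one]
        by_cases h2 : len M w = n
        · rw [if_pos h2, er_one, one_smul, hδ, smul_smul, mul_one_div_cancel, one_smul]
          · abel
          · exact_mod_cast (parF_card_pos hκs).ne'
        · rw [if_neg h2, smul_zero, add_zero]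
          exact hfy w hw hwκ (by omega)
  obtain ⟨f, hf, hfy⟩ := key ((parF M τ).sup (fun w => len M w) + 1)
  refine ⟨f, hf, fun w hw hwκ => hfy w hw hwκ ?_⟩
  have h1 : len M w ≤ (parF M τ).sup (fun w => len M w) :=
    Finset.le_sup (f := fun w => len M w) ((mem_parF hτ w).2 hw)
  omega

end Pool.Agent.H19.PL

end

section

/-!
# Project FOLD: exactness of cochains with values in a vector space
-/

set_option autoImplicit false

open Finset

namespace Pool.Agent.H85.Fold

variable {V : Type} [DecidableEq V] [Fintype V] {S : Type} [AddCommGroup S] [Module ℝ S]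
  {ν : V → ℕ} {G : SimpleGraph V} {n : ℕ} {U : Finset V} {o : Finset V → ℝ}

/-- linear choice of preimages -/
private theorem resA_choice {X Y : Type} [AddCommGroup X] [Module ℝ X] [AddCommGroup Y]
    [Module ℝ Y] (A P : X →ₗ[ℝ] Y) (K : Submodule ℝ X) (hex : ∀ ψ ∈ K, ∃ χ, P ψ = A χ) :
    ∃ h : X →ₗ[ℝ] X, ∀ ψ ∈ K, P ψ = A (h ψ) := by
  obtain ⟨g, hg⟩ := A.rangeRestrict.exists_rightInverse_of_surjective A.range_rangeRestrict
  have hmem : ∀ ψ : K, P ψ ∈ LinearMap.range A := by
    intro ψ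
    obtain ⟨χ, hχ⟩ := hex ψ ψ.2
    exact ⟨χ, hχ.symm⟩
  let f : K →ₗ[ℝ] LinearMap.range A := (P.domRestrict K).codRestrict _ hmem
  obtain ⟨h, hh⟩ := LinearMap.exists_extend (g ∘ₗ f)
  refine ⟨h, fun ψ hψ => ?_⟩
  have h1 : h ψ = g (f ⟨ψ, hψ⟩) := by
    have := congrArg (fun F => F ⟨ψ, hψ⟩) hh
    simpa using this
  have h2 : A.rangeRestrict (g (f ⟨ψ, hψ⟩)) = f ⟨ψ, hψ⟩ := LinearMap.congr_fun hg (f ⟨ψ, hψ⟩)
  have h3 := congrArg Subtype.val h2
  rw [h1]
  exact h3.symm

/-- the general principle -/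
private theorem resA_gen (ν : V → ℕ) (ρ : Finset V) (rel : Finset V → Prop)
    (K : Submodule ℝ (Finset V → ℝ))
    (hex : ∀ ψ ∈ K, ∃ χ : Finset V → ℝ, ∀ σ, rel σ →
      ψ σ = ∑ v ∈ σ \ ρ, sgn ν v σ * χ (σ.erase v))
    (N : Submodule ℝ S) (Ψ : Finset V → S) (hΨ : ∀ σ, Ψ σ ∈ N)
    (hK : ∀ φ : S →ₗ[ℝ] ℝ, (fun t => φ (Ψ t)) ∈ K) :
    ∃ χ : Finset V → S, (∀ σ, χ σ ∈ N) ∧ ∀ σ, rel σ →
      Ψ σ = ∑ v ∈ σ \ ρ, sgn ν v σ • χ (σ.erase v) := by
  classical
  let A : (Finset V → ℝ) →ₗ[ℝ] (Finset V → ℝ) :=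
    { toFun := fun χ σ => if rel σ then ∑ v ∈ σ \ ρ, sgn ν v σ * χ (σ.erase v) else 0
      map_add' := by
        intro x y
        funext σ
        by_cases h : rel σ
        · simp [h, mul_add, Finset.sum_add_distrib]
        · simp [h]
      map_smul' := by
        intro r x
        funext σ
        by_cases h : rel σ
        · simp [h, Finset.mul_sum, mul_left_comm]
        · simp [h] }
  let P : (Finset V → ℝ) →ₗ[ℝ] (Finset V → ℝ) :=
    { toFun := fun ψ σ => if rel σ then ψ σ else 0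
      map_add' := by
        intro x y
        funext σ
        by_cases h : rel σ <;> simp [h]
      map_smul' := by
        intro r x
        funext σ
        by_cases h : rel σ <;> simp [h] }
  obtain ⟨h, hh⟩ := resA_choice A P K (by
    intro ψ hψ
    obtain ⟨χ, hχ⟩ := hex ψ hψ
    refine ⟨χ, ?_⟩
    funext σ
    by_cases hr : rel σ
    · simp [A, P, hr, hχ σ hr]
    · simp [A, P, hr])
  refine ⟨fun s => ∑ t, h (Pi.single t 1) s • Ψ t, ?_, ?_⟩
  · intro σ
    exact Submodule.sum_mem _ fun t _ => Submodule.smul_mem _ _ (hΨ t)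
  · intro σ hr
    have key : ∀ (φ : S →ₗ[ℝ] ℝ) (s : Finset V),
        φ (∑ t, h (Pi.single t 1) s • Ψ t) = h (fun t => φ (Ψ t)) s := by
      intro φ s
      rw [map_sum]
      have h1 : (fun t => φ (Ψ t)) = ∑ t, φ (Ψ t) • (Pi.single t (1 : ℝ) : Finset V → ℝ) := by
        funext t
        rw [Finset.sum_apply]
        simp [Pi.single_apply]
      conv_rhs => rw [h1]
      rw [map_sum, Finset.sum_apply]
      apply Finset.sum_congr rfl
      intro t _
      rw [map_smul, map_smul, Pi.smul_apply, smul_eq_mul, smul_eq_mul, mul_comm]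
    rw [← sub_eq_zero, ← Module.forall_dual_apply_eq_zero_iff ℝ]
    intro φ
    rw [map_sub, map_sum, sub_eq_zero]
    have h2 := congrFun (hh _ (hK φ)) σ
    simp only [A, P, LinearMap.coe_mk, AddHom.coe_mk, if_pos hr] at h2
    rw [h2]
    apply Finset.sum_congr rfl
    intro v _
    rw [map_smul, key, smul_eq_mul]

/-- exactness of the cochains with values in a vector space -/
theorem IsSphere.exactS (hK : IsSphere ν G n U o) (N : Submodule ℝ S) {ρ : Finset V}
    (hρ : ρ ⊆ U) (hcl : Cl G ρ) {j : ℕ} (hj : j < n) (ψ : Finset V → S) (hψ : ∀ σ, ψ σ ∈ N)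
    (h : ∀ σ ⊆ U, Cl G σ → ρ ⊆ σ → σ.card = j + 1 →
      ∑ v ∈ σ \ ρ, sgn ν v σ • ψ (σ.erase v) = 0) :
    ∃ χ : Finset V → S, (∀ σ, χ σ ∈ N) ∧ ∀ σ ⊆ U, Cl G σ → ρ ⊆ σ → σ.card = j →
      ψ σ = ∑ v ∈ σ \ ρ, sgn ν v σ • χ (σ.erase v) := by
  let K : Submodule ℝ (Finset V → ℝ) :=
    { carrier := {f | ∀ σ ⊆ U, Cl G σ → ρ ⊆ σ → σ.card = j + 1 →
        ∑ v ∈ σ \ ρ, sgn ν v σ * f (σ.erase v) = 0}
      add_mem' := by
        intro x y hx hy σ h1 h2 h3 h4
        simp only [Pi.add_apply, mul_add, Finset.sum_add_distrib]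
        rw [hx σ h1 h2 h3 h4, hy σ h1 h2 h3 h4, add_zero]
      zero_mem' := by
        intro σ _ _ _ _
        simp
      smul_mem' := by
        intro r x hx σ h1 h2 h3 h4
        simp only [Pi.smul_apply, smul_eq_mul, mul_left_comm _ r, ← Finset.mul_sum]
        rw [hx σ h1 h2 h3 h4, mul_zero] }
  obtain ⟨χ, h1, h2⟩ := resA_gen ν ρ (fun σ => σ ⊆ U ∧ Cl G σ ∧ ρ ⊆ σ ∧ σ.card = j) K (by
    intro f hf
    obtain ⟨χ, hχ⟩ := hK.exact ρ hρ hcl j hj f hf
    exact ⟨χ, fun σ hσ => hχ σ hσ.1 hσ.2.1 hσ.2.2.1 hσ.2.2.2⟩) N ψ hψ (by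
    intro φ σ a1 a2 a3 a4
    have := congrArg φ (h σ a1 a2 a3 a4)
    rw [map_sum, map_zero] at this
    rw [← this]
    apply Finset.sum_congr rfl
    intro v _
    rw [map_smul, smul_eq_mul])
  exact ⟨χ, h1, fun σ a1 a2 a3 a4 => h2 σ ⟨a1, a2, a3, a4⟩⟩

theorem IsSphere.topS (hK : IsSphere ν G n U o) (N : Submodule ℝ S) {ρ : Finset V}
    (hρ : ρ ⊆ U) (hcl : Cl G ρ) (ψ : Finset V → S) (hψ : ∀ σ, ψ σ ∈ N)
    (h : ∑ σ ∈ fac G n U, (if ρ ⊆ σ then o σ • ψ σ else 0) = 0) :
    ∃ χ : Finset V → S, (∀ σ, χ σ ∈ N) ∧ ∀ σ ⊆ U, Cl G σ → ρ ⊆ σ → σ.card = n →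
      ψ σ = ∑ v ∈ σ \ ρ, sgn ν v σ • χ (σ.erase v) := by
  let K : Submodule ℝ (Finset V → ℝ) :=
    { carrier := {f | ∑ σ ∈ fac G n U, (if ρ ⊆ σ then o σ * f σ else 0) = 0}
      add_mem' := by
        intro x y hx hy
        have e : ∀ σ, (if ρ ⊆ σ then o σ * (x + y) σ else 0) =
            (if ρ ⊆ σ then o σ * x σ else 0) + (if ρ ⊆ σ then o σ * y σ else 0) := by
          intro σ
          by_cases hh : ρ ⊆ σ <;> simp [hh, mul_add]
        rw [Set.mem_ofPred_eq] at *
        rw [Finset.sum_congr rfl fun σ _ => e σ, Finset.sum_add_distrib, hx, hy, add_zero]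
      zero_mem' := by
        rw [Set.mem_ofPred_eq]
        apply Finset.sum_eq_zero
        intro σ _
        simp
      smul_mem' := by
        intro r x hx
        have e : ∀ σ, (if ρ ⊆ σ then o σ * (r • x) σ else 0) =
            r * (if ρ ⊆ σ then o σ * x σ else 0) := by
          intro σ
          by_cases hh : ρ ⊆ σ <;> simp [hh, mul_left_comm]
        rw [Set.mem_ofPred_eq] at *
        rw [Finset.sum_congr rfl fun σ _ => e σ, ← Finset.mul_sum, hx, mul_zero] }
  obtain ⟨χ, h1, h2⟩ := resA_gen ν ρ (fun σ => σ ⊆ U ∧ Cl G σ ∧ ρ ⊆ σ ∧ σ.card = n) K (by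
    intro f hf
    obtain ⟨χ, hχ⟩ := hK.top ρ hρ hcl f hf
    exact ⟨χ, fun σ hσ => hχ σ hσ.1 hσ.2.1 hσ.2.2.1 hσ.2.2.2⟩) N ψ hψ (by
    intro φ
    have := congrArg φ h
    rw [map_sum, map_zero] at this
    change ∑ σ ∈ fac G n U, (if ρ ⊆ σ then o σ * φ (ψ σ) else 0) = 0
    refine Eq.trans (Finset.sum_congr rfl fun σ _ => ?_) this
    by_cases hh : ρ ⊆ σ
    · rw [if_pos hh, if_pos hh, map_smul, smul_eq_mul]
    · rw [if_neg hh, if_neg hh, map_zero])
  exact ⟨χ, h1, fun σ a1 a2 a3 a4 => h2 σ ⟨a1, a2, a3, a4⟩⟩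

end Pool.Agent.H85.Fold

end

section

/-!
# Project PDL: exactness of the columns
-/

set_option autoImplicit false
set_option linter.unusedSectionVars false

open Finset

namespace Pool.Agent.H19.PL

open Pool.Agent.H4.FC Pool.Agent.H85.Fold

variable {V : Type} [Fintype V] [DecidableEq V] {M : CoxeterMatrix V}

section fn

variable {X : Type} [AddCommGroup X] [Module ℝ X]

theorem altF_anti {κ : Finset V} (hκ : Sph M κ) (f : M.Group → X) : AntiF M κ (altF M κ f) := by
  intro v hv x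
  unfold altF
  rw [← Finset.sum_neg_distrib]
  have hinv : ∀ u, u ∈ parF M κ → M.simple v * u ∈ parF M κ := by
    intro u hu
    rw [mem_parF hκ] at hu ⊢
    exact mul_mem (simple_mem_par M hv) hu
  refine Finset.sum_nbij' (fun u => M.simple v * u) (fun u => M.simple v * u) hinv hinv ?_ ?_ ?_
  · intro u _
    rw [← mul_assoc, simple_sq, one_mul]
  · intro u _
    rw [← mul_assoc, simple_sq, one_mul]
  · intro u _
    rw [er_mul, er_simple, mul_assoc, neg_one_mul, neg_smul, neg_neg]

theorem altF_altF {ρ D : Finset V} (hD : Sph M D) (hρ : ρ ⊆ D) (f : M.Group → X) (w : M.Group) :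
    altF M D (altF M ρ f) w = ((parF M ρ).card : ℝ) • altF M D f w := by
  have hρs : Sph M ρ := hD.mono hρ
  unfold altF
  simp only [smul_sum]
  rw [sum_comm]
  have h1 : ∀ t ∈ parF M ρ, ∑ u ∈ parF M D, er M u • er M t • f (w * u * t) =
      ∑ u ∈ parF M D, er M u • f (w * u) := by
    intro t ht
    rw [mem_parF hρs] at ht
    have ht' := par_mono M hρ ht
    refine Finset.sum_nbij' (fun u => u * t) (fun u => u * t⁻¹) ?_ ?_ ?_ ?_ ?_
    · intro u hu
      rw [mem_parF hD] at hu ⊢
      exact mul_mem hu ht'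
    · intro u hu
      rw [mem_parF hD] at hu ⊢
      exact mul_mem hu (inv_mem ht')
    · intro u _
      rw [mul_inv_cancel_right]
    · intro u _
      rw [inv_mul_cancel_right]
    · intro u _
      rw [smul_smul, er_mul, mul_assoc]
  rw [sum_congr rfl h1, sum_const, ← Nat.cast_smul_eq_nsmul ℝ, smul_sum]

theorem altF_smul (κ : Finset V) (r : ℝ) (f : M.Group → X) (x : M.Group) :
    altF M κ (r • f) x = r • altF M κ f x := by
  unfold altF
  rw [smul_sum]
  refine sum_congr rfl fun u _ => ?_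
  rw [Pi.smul_apply, smul_comm]

theorem altF_sum {ι : Type} (s : Finset ι) (κ : Finset V) (f : ι → M.Group → X) (x : M.Group) :
    altF M κ (∑ i ∈ s, f i) x = ∑ i ∈ s, altF M κ (f i) x := by
  classical
  induction s using Finset.induction_on with
  | empty =>
    rw [sum_empty, sum_empty]
    unfold altF
    exact sum_eq_zero fun u _ => by rw [Pi.zero_apply, smul_zero]
  | insert a s ha ih => rw [sum_insert ha, sum_insert ha, altF_add, ih]

theorem AntiF.sub {κ : Finset V} {f g : M.Group → X} (hf : AntiF M κ f) (hg : AntiF M κ g) :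
    AntiF M κ (f - g) := by
  intro v hv x
  rw [Pi.sub_apply, Pi.sub_apply, hf v hv, hg v hv]
  abel

theorem AntiF.smul {κ : Finset V} {f : M.Group → X} (r : ℝ) (hf : AntiF M κ f) :
    AntiF M κ (r • f) := by
  intro v hv x
  rw [Pi.smul_apply, Pi.smul_apply, hf v hv, smul_neg]

theorem AntiF.sum {ι : Type} (s : Finset ι) {κ : Finset V} {f : ι → M.Group → X}
    (hf : ∀ i ∈ s, AntiF M κ (f i)) : AntiF M κ (∑ i ∈ s, f i) := by
  intro v hv x
  rw [Finset.sum_apply, Finset.sum_apply, ← sum_neg_distrib]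
  exact sum_congr rfl fun i hi => hf i hi v hv x

end fn

section rep

variable {S : Type} [AddCommGroup S] [Module ℝ S] (U : M.Group →* Module.End ℝ S)

/-- anti-invariant elements -/
def AntiS (κ : Finset V) (x : S) : Prop := ∀ v ∈ κ, U (M.simple v) x = -x

/-- the antisymmetrization -/
noncomputable def PS (κ : Finset V) : S →ₗ[ℝ] S :=
  (1 / ((parF M κ).card : ℝ)) • ∑ u ∈ parF M κ, er M u • (U u : S →ₗ[ℝ] S)

theorem PS_apply (κ : Finset V) (x : S) :
    PS U κ x = (1 / ((parF M κ).card : ℝ)) • ∑ u ∈ parF M κ, er M u • U u x := by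
  unfold PS
  rw [LinearMap.smul_apply, LinearMap.sum_apply]
  rfl

/-- the orbit function -/
def orb (x : S) (g : M.Group) : S := U g x

theorem orb_anti {κ : Finset V} {x : S} (h : AntiS U κ x) : AntiF M κ (orb U x) := by
  intro v hv g
  unfold orb
  rw [map_mul]
  show U g (U (M.simple v) x) = -U g x
  rw [h v hv, map_neg]

theorem card_ne {κ : Finset V} (hκ : Sph M κ) : ((parF M κ).card : ℝ) ≠ 0 := by
  exact_mod_cast (parF_card_pos hκ).ne'

theorem altF_orb {κ : Finset V} (hκ : Sph M κ) (x : S) (g : M.Group) :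
    altF M κ (orb U x) g = ((parF M κ).card : ℝ) • U g (PS U κ x) := by
  rw [PS_apply, map_smul, smul_smul, mul_one_div_cancel (card_ne hκ), one_smul, map_sum]
  unfold altF orb
  refine sum_congr rfl fun u _ => ?_
  rw [map_smul, map_mul]
  rfl

theorem PS_PS {ρ D : Finset V} (hD : Sph M D) (hρ : ρ ⊆ D) (x : S) :
    PS U D (PS U ρ x) = PS U D x := by
  have hρs : Sph M ρ := hD.mono hρ
  have h1 := altF_altF hD hρ (orb U x) (1 : M.Group)
  have h2 : altF M ρ (orb U x) = ((parF M ρ).card : ℝ) • orb U (PS U ρ x) := by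
    funext g
    rw [altF_orb U hρs]
    rfl
  rw [h2, altF_smul, altF_orb U hD, altF_orb U hD, map_one] at h1
  have h3 := smul_right_injective S (card_ne hρs) h1
  exact smul_right_injective S (card_ne hD) h3

/-- the average over left translations -/
noncomputable def avg (τ : Finset V) (f : M.Group → S) : S :=
  (1 / ((parF M τ).card : ℝ)) • ∑ g ∈ parF M τ, U g⁻¹ (f g)

theorem avg_orb {τ : Finset V} (hτ : Sph M τ) (x : S) : avg U τ (orb U x) = x := by
  unfold avg
  have h1 : ∀ g ∈ parF M τ, U g⁻¹ (orb U x g) = x := by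
    intro g _
    have h2 : U g⁻¹ (U g x) = (U g⁻¹ * U g) x := rfl
    unfold orb
    rw [h2, ← map_mul, inv_mul_cancel, map_one]
    rfl
  rw [sum_congr rfl h1, sum_const, ← Nat.cast_smul_eq_nsmul ℝ, smul_smul,
    one_div_mul_cancel (card_ne hτ), one_smul]

theorem avg_congr {τ : Finset V} (hτ : Sph M τ) {f g : M.Group → S}
    (h : ∀ x ∈ par M τ, f x = g x) : avg U τ f = avg U τ g := by
  unfold avg
  congr 1
  exact sum_congr rfl fun x hx => by rw [h x ((mem_parF hτ x).1 hx)]

theorem avg_smul (τ : Finset V) (r : ℝ) (f : M.Group → S) : avg U τ (r • f) = r • avg U τ f := by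
  unfold avg
  have h : ∀ g ∈ parF M τ, U g⁻¹ ((r • f) g) = r • U g⁻¹ (f g) := fun g _ => by
    rw [Pi.smul_apply, map_smul]
  rw [sum_congr rfl h, ← smul_sum, smul_comm]

theorem avg_sum {ι : Type} (s : Finset ι) (τ : Finset V) (f : ι → M.Group → S) :
    avg U τ (∑ i ∈ s, f i) = ∑ i ∈ s, avg U τ (f i) := by
  unfold avg
  rw [← smul_sum, sum_comm]
  congr 1
  refine sum_congr rfl fun x _ => ?_
  rw [Finset.sum_apply, map_sum]

/-- the average commutes with right translations -/
theorem avg_right {τ : Finset V} (hτ : Sph M τ) (f : M.Group → S) {t : M.Group}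
    (ht : t ∈ par M τ) : U t (avg U τ f) = avg U τ (fun g => f (g * t)) := by
  unfold avg
  rw [map_smul, map_sum]
  congr 1
  refine Finset.sum_nbij' (fun g => g * t⁻¹) (fun g => g * t) ?_ ?_ ?_ ?_ ?_
  · intro g hg
    rw [mem_parF hτ] at hg ⊢
    exact mul_mem hg (inv_mem ht)
  · intro g hg
    rw [mem_parF hτ] at hg ⊢
    exact mul_mem hg ht
  · intro g _
    rw [inv_mul_cancel_right]
  · intro g _
    rw [mul_inv_cancel_right]
  · intro g _
    beta_reduce
    rw [inv_mul_cancel_right, mul_inv_rev, inv_inv, map_mul]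
    rfl

theorem avg_anti {τ κ : Finset V} (hτ : Sph M τ) (hκ : κ ⊆ τ) {f : M.Group → S}
    (hf : AntiF M κ f) : AntiS U κ (avg U τ f) := by
  intro v hv
  rw [avg_right U hτ f (simple_mem_par M (hκ hv))]
  have h1 : (fun g => f (g * M.simple v)) = (-1 : ℝ) • f := by
    funext g
    rw [hf v hv, Pi.smul_apply, neg_one_smul]
  rw [h1, avg_smul, neg_one_smul]

theorem PS_avg {τ ρ : Finset V} (hτ : Sph M τ) (hρ : ρ ⊆ τ) (f : M.Group → S) :
    PS U ρ (avg U τ f) = avg U τ ((1 / ((parF M ρ).card : ℝ)) • altF M ρ f) := by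
  rw [PS_apply, avg_smul]
  congr 1
  have h1 : altF M ρ f = ∑ u ∈ parF M ρ, er M u • (fun g => f (g * u)) := by
    funext g
    unfold altF
    rw [Finset.sum_apply]
    rfl
  rw [h1, avg_sum]
  refine sum_congr rfl fun u hu => ?_
  rw [avg_smul, avg_right U hτ f (par_mono M hρ ((mem_parF (hτ.mono hρ) u).1 hu))]

/-- **The columns of the adjoint double complex are exact.** -/
theorem colL {ν : V → ℕ} (hν : Function.Injective ν) (l : ℕ) (τ : Finset V) (hτ : Sph M τ)
    (w : Finset V → S) (hA : ∀ ρ, AntiS U ρ (w ρ))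
    (hs : ∀ ρ, w ρ ≠ 0 → ρ ⊆ τ ∧ ρ.card = l + 1)
    (hD : ∀ ρ ⊆ τ, ∑ v ∈ ρ, sgn ν v ρ • PS U ρ (w (ρ.erase v)) = 0) :
    ∃ u : Finset V → S, (∀ ρ, AntiS U ρ (u ρ)) ∧ (∀ ρ, u ρ ≠ 0 → ρ ⊆ τ ∧ ρ.card = l) ∧
      ∀ ρ ⊆ τ, ∑ v ∈ ρ, sgn ν v ρ • PS U ρ (u (ρ.erase v)) = w ρ := by
  classical
  -- the coordinates
  obtain ⟨x, hx⟩ : ∃ x : M.Group → Finset V → S, ∀ g ρ,
      x g ρ = altF M (dsF M τ g) (orb U (w ρ)) g := ⟨_, fun _ _ => rfl⟩
  have hcoc : ∀ g : M.Group, ∀ ρ ⊆ dsF M τ g, ∑ v ∈ ρ, sgn ν v ρ • x g (ρ.erase v) = 0 := by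
    intro g ρ hρ
    have hDs : Sph M (dsF M τ g) := hτ.mono dsF_sub
    have h1 : ∀ v ∈ ρ, sgn ν v ρ • x g (ρ.erase v) = ((parF M (dsF M τ g)).card : ℝ) •
        U g (PS U (dsF M τ g) (sgn ν v ρ • PS U ρ (w (ρ.erase v)))) := by
      intro v _
      rw [hx, altF_orb U hDs, map_smul, map_smul, PS_PS U hDs hρ, smul_comm]
    rw [sum_congr rfl h1, ← smul_sum, ← map_sum, ← map_sum, hD ρ (hρ.trans dsF_sub), map_zero,
      map_zero, smul_zero]
  obtain ⟨b, hb⟩ : ∃ b : M.Group → Option V, ∀ g, (dsF M τ g).Nonempty →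
      ∃ c ∈ dsF M τ g, b g = some c := by
    refine ⟨fun g => if h : (dsF M τ g).Nonempty then some h.choose else none, fun g hg => ?_⟩
    exact ⟨hg.choose, hg.choose_spec, dif_pos hg⟩
  obtain ⟨y, hy⟩ : ∃ y : Finset V → M.Group → S, ∀ κ g, ∀ c, b g = some c →
      y κ g = if c ∈ κ then 0 else sgn ν c κ • x g (insert c κ) := by
    refine ⟨fun κ g => match b g with
      | none => 0
      | some c => if c ∈ κ then 0 else sgn ν c κ • x g (insert c κ), fun κ g c hc => ?_⟩
    simp only [hc]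
  -- the homotopy formula
  have hhom : ∀ g : M.Group, ∀ ρ ⊆ dsF M τ g, ρ.Nonempty →
      ∑ v ∈ ρ, sgn ν v ρ • y (ρ.erase v) g = x g ρ := by
    intro g ρ hρ hne
    obtain ⟨c, hc, hbc⟩ := hb g (hne.mono hρ)
    have h1 : ∀ v ∈ ρ, sgn ν v ρ • y (ρ.erase v) g = sgn ν v ρ • (if c ∈ ρ.erase v then 0 else
        sgn ν c (ρ.erase v) • x g (insert c (ρ.erase v))) := fun v _ => by rw [hy _ g c hbc]
    rw [sum_congr rfl h1]
    by_cases hcρ : c ∈ ρ
    · rw [sum_eq_single c]
      · rw [if_neg (notMem_erase c ρ), insert_erase hcρ, smul_smul, sgn_erase_self, sgn_sq,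
          one_smul]
      · intro v _ hvc
        rw [if_pos (mem_erase.2 ⟨fun h => hvc h.symm, hcρ⟩), smul_zero]
      · exact fun h => absurd hcρ h
    · have h5 := hcoc g (insert c ρ) (insert_subset hc hρ)
      rw [sum_insert hcρ, erase_insert hcρ, sgn_insert_self] at h5
      have h6 : ∀ v ∈ ρ, sgn ν v ρ • (if c ∈ ρ.erase v then 0 else
          sgn ν c (ρ.erase v) • x g (insert c (ρ.erase v))) =
          -(sgn ν c ρ • (sgn ν v (insert c ρ) • x g ((insert c ρ).erase v))) := by
        intro v hv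
        have hvc : v ≠ c := fun h => hcρ (h ▸ hv)
        rw [if_neg (fun h => hcρ (mem_of_mem_erase h)), smul_smul, smul_smul,
          ← neg_smul, erase_insert_of_ne (fun h => hvc h.symm)]
        congr 1
        have h7 := sgn_swap_mix ν hν v c hvc ρ hv hcρ
        linarith
      rw [sum_congr rfl h6, sum_neg_distrib, ← smul_sum]
      have h8 : ∑ v ∈ ρ, sgn ν v (insert c ρ) • x g ((insert c ρ).erase v) =
          -(sgn ν c ρ • x g ρ) := by
        rw [eq_neg_iff_add_eq_zero, add_comm]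
        exact h5
      rw [h8, smul_neg, neg_neg, smul_smul, sgn_sq, one_smul]
  -- the solution on functions
  have hsol : ∀ κ : Finset V, ∃ f : M.Group → S, κ ⊆ τ → AntiF M κ f ∧
      ∀ g ∈ par M τ, κ ⊆ dsF M τ g → altF M (dsF M τ g) f g = y κ g := by
    intro κ
    by_cases hκ : κ ⊆ τ
    · obtain ⟨f, hf⟩ := tri_surj (M := M) hτ hκ (y κ)
      exact ⟨f, fun _ => hf⟩
    · exact ⟨0, fun h => absurd h hκ⟩
  choose f hf using hsol
  refine ⟨fun κ => if κ ⊆ τ ∧ κ.card = l then avg U τ (f κ) else 0, ?_, ?_, ?_⟩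
  · intro κ
    beta_reduce
    split_ifs with h
    · exact avg_anti U hτ h.1 (hf κ h.1).1
    · intro v _
      rw [map_zero, neg_zero]
  · intro κ h
    beta_reduce at h
    by_contra hcon
    exact h (if_neg hcon)
  · intro ρ hρ
    beta_reduce
    by_cases hcard : ρ.card = l + 1
    · have hρs : Sph M ρ := hτ.mono hρ
      have hne : ρ.Nonempty := by
        rw [← card_pos]
        omega
      obtain ⟨G, hG⟩ : ∃ G : M.Group → S, G = ∑ v ∈ ρ, sgn ν v ρ •
          ((1 / ((parF M ρ).card : ℝ)) • altF M ρ (f (ρ.erase v))) := ⟨_, rfl⟩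
      have h1 : ∀ v ∈ ρ, sgn ν v ρ • PS U ρ (if ρ.erase v ⊆ τ ∧ (ρ.erase v).card = l then
          avg U τ (f (ρ.erase v)) else 0) = avg U τ (sgn ν v ρ •
          ((1 / ((parF M ρ).card : ℝ)) • altF M ρ (f (ρ.erase v)))) := by
        intro v hv
        have h3 := card_erase_of_mem hv
        rw [if_pos ⟨(erase_subset _ _).trans hρ, by omega⟩,
          PS_avg U hτ hρ, avg_smul U τ (sgn ν v ρ)]
      rw [sum_congr rfl h1, ← avg_sum, ← hG]
      have hGa : AntiF M ρ G := by
        rw [hG]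
        exact AntiF.sum ρ fun v _ => ((altF_anti hρs _).smul _).smul _
      have h2 : ∀ g ∈ par M τ, G g = orb U (w ρ) g := by
        intro g hg
        have h3 := tri_inj (M := M) hτ hρ (hGa.sub (orb_anti U (hA ρ))) (by
          intro g' hg' hgρ
          have hDs : Sph M (dsF M τ g') := hτ.mono dsF_sub
          have h4 : altF M (dsF M τ g') G g' = x g' ρ := by
            rw [hG, altF_sum, ← hhom g' ρ hgρ hne]
            refine sum_congr rfl fun v hv => ?_
            rw [altF_smul, altF_smul, altF_altF hDs hgρ, smul_smul (1 / _),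
              one_div_mul_cancel (card_ne hρs), one_smul,
              (hf (ρ.erase v) ((erase_subset _ _).trans hρ)).2 g' hg'
                ((erase_subset _ _).trans hgρ)]
          have h5 : G - orb U (w ρ) = G + (-1 : ℝ) • orb U (w ρ) := by
            rw [neg_one_smul, sub_eq_add_neg]
          rw [h5, altF_add, altF_smul, h4, hx, neg_one_smul, add_neg_cancel]) g hg
        rw [Pi.sub_apply, sub_eq_zero] at h3
        exact h3
      rw [avg_congr U hτ h2, avg_orb U hτ]
    · have h0 : w ρ = 0 := by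
        by_contra hne
        exact hcard (hs ρ hne).2
      rw [h0]
      refine sum_eq_zero fun v hv => ?_
      rw [if_neg, map_zero, smul_zero]
      rintro ⟨-, h1⟩
      rw [card_erase_of_mem hv] at h1
      have h2 := card_pos.2 ⟨v, hv⟩
      omega

end rep

end Pool.Agent.H19.PL

end

section

/-!
# Project PDL: the adjoint zig-zag
-/

set_option autoImplicit false
set_option linter.unusedSectionVars false

open Finset

namespace Pool.Agent.H19.PL

open Pool.Agent.H4.FC Pool.Agent.H85.Fold Pool.Agent.H19.PD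

variable {V : Type} [Fintype V] [DecidableEq V] {M : CoxeterMatrix V} {S : Type} [AddCommGroup S]
  [Module ℝ S] {U : M.Group →* Module.End ℝ S} {β : S →ₗ[ℝ] S →ₗ[ℝ] ℝ} {ν : V → ℕ}
  {G : SimpleGraph V}

/-- the reflections are symmetric for the form -/
def SymU (U : M.Group →* Module.End ℝ S) (β : S →ₗ[ℝ] S →ₗ[ℝ] ℝ) : Prop :=
  ∀ v x y, β (U (M.simple v) x) y = β x (U (M.simple v) y)

/-- anti-invariants pair with the antisymmetrization -/
theorem pair_PS (hU : SymU U β) {κ : Finset V} (hκ : Sph M κ) {x : S} (hx : AntiS U κ x) (y : S) :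
    β x (PS U κ y) = β x y := by
  have h1 : ∀ u ∈ par M κ, ∀ y, β x (U u y) = er M u * β x y := by
    refine par_induction M κ ?_ ?_
    · intro y
      rw [map_one, er_one, one_mul]
      rfl
    · intro v hv w ih y
      have h2 : U (M.simple v * w) y = U (M.simple v) (U w y) := by
        rw [map_mul]
        rfl
      rw [h2, ← hU, hx v hv, map_neg, LinearMap.neg_apply, ih, er_mul, er_simple]
      ring
  rw [PS_apply, map_smul, map_sum]
  have h2 : ∀ u ∈ parF M κ, β x (er M u • U u y) = β x y := by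
    intro u hu
    rw [map_smul, h1 u ((mem_parF hκ u).1 hu), smul_eq_mul, ← mul_assoc, er_sq, one_mul]
  rw [sum_congr rfl h2, sum_const, ← Nat.cast_smul_eq_nsmul ℝ, smul_smul,
    one_div_mul_cancel (card_ne hκ), one_smul]

/-- double chains in a single bidegree -/
structure IsWL (U : M.Group →* Module.End ℝ S) (G : SimpleGraph V) (a b : ℕ)
    (w : Finset V → Finset V → S) : Prop where
  anti : ∀ ρ σ, AntiS U ρ (w ρ σ)
  supp : ∀ ρ σ, w ρ σ ≠ 0 → ρ ⊆ σ ∧ Cl G σ ∧ ρ.card = a ∧ σ.card = b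

/-- the adjoint of `d1` -/
noncomputable def e1L (ν : V → ℕ) (U : M.Group →* Module.End ℝ S) (w : Finset V → Finset V → S)
    (ρ σ : Finset V) : S :=
  if ρ ⊆ σ then ∑ v ∈ ρ, sgn ν v ρ • PS U ρ (w (ρ.erase v) σ) else 0

theorem e1L_e2 (w : Finset V → Finset V → S) : e1L ν U (e2 ν w) = e2 ν (e1L ν U w) := by
  funext ρ σ
  unfold e1L
  by_cases h : ρ ⊆ σ
  · rw [if_pos h]
    unfold e2
    rw [if_pos h]
    show ∑ v ∈ ρ, sgn ν v ρ • PS U ρ (if ρ.erase v ⊆ σ then
        ∑ u ∈ σᶜ, sgn ν u σ • w (ρ.erase v) (insert u σ) else 0) =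
      ∑ u ∈ σᶜ, sgn ν u σ • (if ρ ⊆ insert u σ then
        ∑ v ∈ ρ, sgn ν v ρ • PS U ρ (w (ρ.erase v) (insert u σ)) else 0)
    have h1 : ∀ v ∈ ρ, sgn ν v ρ • PS U ρ (if ρ.erase v ⊆ σ then
        ∑ u ∈ σᶜ, sgn ν u σ • w (ρ.erase v) (insert u σ) else 0) =
        ∑ u ∈ σᶜ, (sgn ν v ρ * sgn ν u σ) • PS U ρ (w (ρ.erase v) (insert u σ)) := by
      intro v _
      rw [if_pos ((erase_subset _ _).trans h), map_sum, smul_sum]
      refine sum_congr rfl fun u _ => ?_
      rw [map_smul, smul_smul]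
    have h2 : ∀ u ∈ σᶜ, sgn ν u σ • (if ρ ⊆ insert u σ then
        ∑ v ∈ ρ, sgn ν v ρ • PS U ρ (w (ρ.erase v) (insert u σ)) else 0) =
        ∑ v ∈ ρ, (sgn ν v ρ * sgn ν u σ) • PS U ρ (w (ρ.erase v) (insert u σ)) := by
      intro u _
      rw [if_pos (h.trans (subset_insert _ _)), smul_sum]
      refine sum_congr rfl fun v _ => ?_
      rw [smul_smul, mul_comm]
    rw [sum_congr rfl h1, sum_congr rfl h2, sum_comm]
  · rw [if_neg h]
    unfold e2
    rw [if_neg h]

/-- `e1L` is adjoint to `d1` -/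
theorem pp_d1L (hU : SymU U β) {x u : Finset V → Finset V → S}
    (hx : ∀ ρ σ, AntiS U ρ (x ρ σ)) (hxs : ∀ ρ σ, x ρ σ ≠ 0 → ρ ⊆ σ ∧ Sph M σ) :
    pp β (d1 ν x) u = pp β x (e1L ν U u) := by
  unfold pp
  rw [sum_comm, sum_comm (f := fun ρ σ => β (x ρ σ) (e1L ν U u ρ σ))]
  refine sum_congr rfl fun σ _ => ?_
  have hL : ∑ ρ : Finset V, β (d1 ν x ρ σ) (u ρ σ) =
      ∑ ρ : Finset V, ∑ v ∈ ρᶜ, sgn ν v ρ * β (x (insert v ρ) σ) (u ρ σ) := by
    refine sum_congr rfl fun ρ _ => ?_
    show β (∑ v ∈ σ \ ρ, sgn ν v ρ • x (insert v ρ) σ) (u ρ σ) = _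
    rw [map_sum, LinearMap.sum_apply]
    have hsub : σ \ ρ ⊆ ρᶜ := fun v hv => mem_compl.2 (mem_sdiff.1 hv).2
    rw [← sum_subset hsub]
    · refine sum_congr rfl fun v _ => ?_
      rw [map_smul, LinearMap.smul_apply, smul_eq_mul]
    · intro v hv hv2
      have h0 : x (insert v ρ) σ = 0 := by
        by_contra hne
        exact hv2 (mem_sdiff.2 ⟨(hxs _ _ hne).1 (mem_insert_self v ρ), mem_compl.1 hv⟩)
      rw [h0, map_zero, LinearMap.zero_apply, mul_zero]
  have hR : ∑ ρ : Finset V, β (x ρ σ) (e1L ν U u ρ σ) =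
      ∑ ρ : Finset V, ∑ v ∈ ρ, sgn ν v ρ * β (x ρ σ) (u (ρ.erase v) σ) := by
    refine sum_congr rfl fun ρ _ => ?_
    by_cases h0 : x ρ σ = 0
    · rw [h0, map_zero, LinearMap.zero_apply]
      symm
      refine sum_eq_zero fun v _ => ?_
      rw [LinearMap.zero_apply, mul_zero]
    · unfold e1L
      obtain ⟨h1, h2⟩ := hxs _ _ h0
      rw [if_pos h1, map_sum]
      refine sum_congr rfl fun v hv => ?_
      rw [map_smul, smul_eq_mul, pair_PS hU (h2.mono h1) (hx ρ σ)]
  rw [hL, hR, sum_sigma', sum_sigma']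
  refine sum_bij' (fun z _ => ⟨insert z.2 z.1, z.2⟩) (fun z _ => ⟨z.1.erase z.2, z.2⟩)
    ?_ ?_ ?_ ?_ ?_
  · rintro ⟨ρ, v⟩ h
    simp only [mem_sigma, mem_univ, true_and, mem_insert_self]
  · rintro ⟨ρ, v⟩ h
    simp only [mem_sigma, mem_univ, true_and, mem_compl, mem_erase, ne_eq, not_true_eq_false,
      false_and, not_false_eq_true]
  · rintro ⟨ρ, v⟩ h
    simp only [mem_sigma, mem_univ, true_and, mem_compl] at h
    simp only [erase_insert h]
  · rintro ⟨ρ, v⟩ h
    simp only [mem_sigma, mem_univ, true_and] at h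
    simp only [insert_erase h]
  · rintro ⟨ρ, v⟩ h
    simp only [mem_sigma, mem_univ, true_and, mem_compl] at h
    simp only [erase_insert h, sgn_insert_self]

/-- one step of the zig-zag -/
theorem stepL (hG : ∀ σ, Cl G σ → Sph M σ) (hν : Function.Injective ν) {a b : ℕ}
    {w : Finset V → Finset V → S} (hw : IsWL U G (a + 1) b w) (h1 : e1L ν U w = 0)
    (h2 : e2 ν w = 0) :
    ∃ u, IsWL U G a b u ∧ e1L ν U u = w ∧ e1L ν U (e2 ν u) = 0 ∧ e2 ν (e2 ν u) = 0 := by
  classical
  have hcol : ∀ σ : Finset V, ∃ u : Finset V → S, (∀ ρ, AntiS U ρ (u ρ)) ∧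
      (∀ ρ, u ρ ≠ 0 → ρ ⊆ σ ∧ Cl G σ ∧ ρ.card = a ∧ σ.card = b) ∧
      ∀ ρ ⊆ σ, ∑ v ∈ ρ, sgn ν v ρ • PS U ρ (u (ρ.erase v)) = w ρ σ := by
    intro σ
    by_cases hσ : Cl G σ ∧ σ.card = b
    · obtain ⟨u, hu1, hu2, hu3⟩ := colL U hν a σ (hG σ hσ.1) (fun ρ => w ρ σ)
        (fun ρ => hw.anti ρ σ)
        (fun ρ h => ⟨(hw.supp ρ σ h).1, (hw.supp ρ σ h).2.2.1⟩) (by
          intro ρ hρ
          have h3 := congrFun (congrFun h1 ρ) σ
          unfold e1L at h3
          rw [if_pos hρ] at h3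
          exact h3)
      exact ⟨u, hu1, fun ρ h => ⟨(hu2 ρ h).1, hσ.1, (hu2 ρ h).2, hσ.2⟩, hu3⟩
    · refine ⟨0, fun ρ v _ => by rw [Pi.zero_apply, map_zero, neg_zero], fun ρ h => absurd rfl h,
        fun ρ _ => ?_⟩
      have h0 : w ρ σ = 0 := by
        by_contra hne
        obtain ⟨-, h4, -, h5⟩ := hw.supp ρ σ hne
        exact hσ ⟨h4, h5⟩
      rw [h0]
      exact sum_eq_zero fun v _ => by
        rw [Pi.zero_apply, map_zero, smul_zero]
  choose u hu1 hu2 hu3 using hcol
  have he : e1L ν U (fun ρ σ => u σ ρ) = w := by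
    funext ρ σ
    unfold e1L
    by_cases h : ρ ⊆ σ
    · rw [if_pos h]
      exact hu3 σ ρ h
    · rw [if_neg h]
      by_contra hne
      exact h (hw.supp ρ σ (Ne.symm hne)).1
  refine ⟨fun ρ σ => u σ ρ, ⟨fun ρ σ => hu1 σ ρ, fun ρ σ h => hu2 σ ρ h⟩, he, ?_,
    e2_e2 hν _⟩
  rw [e1L_e2, he, h2]

theorem isWL_e2 {a b : ℕ} {u : Finset V → Finset V → S} (hu : IsWL U G a (b + 1) u) :
    IsWL U G a b (e2 ν u) := by
  refine ⟨fun ρ σ v hv => ?_, fun ρ σ hne => ?_⟩
  · unfold e2
    split_ifs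
    · show U (M.simple v) (∑ z ∈ σᶜ, sgn ν z σ • u ρ (insert z σ)) =
        -∑ z ∈ σᶜ, sgn ν z σ • u ρ (insert z σ)
      rw [map_sum, ← sum_neg_distrib]
      refine sum_congr rfl fun z _ => ?_
      rw [map_smul, hu.anti ρ _ v hv, smul_neg]
    · rw [map_zero, neg_zero]
  · unfold e2 at hne
    split_ifs at hne with h
    · have h1 : ∑ z ∈ σᶜ, sgn ν z σ • u ρ (insert z σ) ≠ 0 := hne
      obtain ⟨z, hz, hz'⟩ := exists_ne_zero_of_sum_ne_zero h1
      obtain ⟨h2, h3, h4, h5⟩ := hu.supp _ _ (right_ne_zero_of_smul hz')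
      rw [card_insert_of_notMem (mem_compl.1 hz)] at h5
      exact ⟨h, fun a ha b hb hab => h3 a (mem_insert_of_mem ha) b (mem_insert_of_mem hb) hab, h4,
        by omega⟩
    · exact absurd rfl hne

/-- the operators whose kernels are the anti-invariants -/
noncomputable def eU (U : M.Group →* Module.End ℝ S) (v : V) : S →ₗ[ℝ] S :=
  LinearMap.id + (U (M.simple v) : S →ₗ[ℝ] S)

theorem eU_zero {v : V} {x : S} : eU U v x = 0 ↔ U (M.simple v) x = -x := by
  have h : eU U v x = x + U (M.simple v) x := rfl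
  rw [h, add_eq_zero_iff_neg_eq, eq_comm]

/-- the operators whose kernels are the invariants -/
noncomputable def fU (U : M.Group →* Module.End ℝ S) (v : V) : S →ₗ[ℝ] S :=
  LinearMap.id - (U (M.simple v) : S →ₗ[ℝ] S)

theorem fU_zero {v : V} {x : S} : fU U v x = 0 ↔ U (M.simple v) x = x := by
  have h : fU U v x = x - U (M.simple v) x := rfl
  rw [h, sub_eq_zero, eq_comm]

/-- the singletons -/
theorem PS_single {v : V} (hs : Sph M {v}) {x : S} (h : PS U {v} x = 0) : U (M.simple v) x = x := by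
  classical
  by_cases h1 : M.simple v = 1
  · rw [h1, map_one]
    rfl
  have hp : parF M {v} = {1, M.simple v} := by
    ext u
    rw [mem_parF hs, mem_insert, mem_singleton]
    constructor
    · intro hu
      have key := par_induction M {v} (p := fun u => u = 1 ∨ u = M.simple v) (Or.inl rfl) (by
        intro v' hv' w hw
        rw [mem_singleton.1 hv']
        rcases hw with rfl | rfl
        · exact Or.inr (mul_one _)
        · exact Or.inl (simple_sq M v)) u hu
      exact key
    · rintro (rfl | rfl)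
      · exact one_mem _
      · exact simple_mem_par M (mem_singleton_self v)
  rw [PS_apply, hp, sum_pair (fun h2 => h1 h2.symm), er_one, er_simple, one_smul, map_one,
    smul_eq_zero] at h
  have h2 := h.resolve_left (by
    rw [card_pair (fun h2 => h1 h2.symm)]
    norm_num)
  have h3 : x + (-1 : ℝ) • U (M.simple v) x = 0 := h2
  rw [neg_one_smul, ← sub_eq_add_neg, sub_eq_zero] at h3
  exact h3.symm

/-- **The adjoint zig-zag.** -/
theorem zigL (hG : ∀ σ, Cl G σ → Sph M σ) (hU : SymU U β) (hν : Function.Injective ν) {n : ℕ}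
    {o : Finset V → ℝ} (hS : IsSphere ν G n univ o) {i : ℕ} (hin : i ≤ n) {c : Finset V → S}
    (hc : IsF G (eU U) ⊤ univ i c)
    (hco : ∀ ρ, Cl G ρ → ρ.card = i + 1 → ∑ v ∈ ρ, sgn ν v ρ • PS U ρ (c (ρ.erase v)) = 0)
    {c' : Finset V → S} {x : Finset V → Finset V → S}
    (hx : IsRes ν G (eU U) n ⊤ univ o i c' x) :
    ∃ f : Finset V → S, IsF G (fU U) ⊤ univ (n - i) f ∧ bd ν f = 0 ∧
      pr β x f = ∑ ρ : Finset V, β (c' ρ) (c ρ) := by
  classical
  have hfac : ∀ σ, σ ∈ fac G n univ ↔ Cl G σ ∧ σ.card = n := by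
    intro σ
    simp [fac]
  have hxf : ∀ ρ σ, AntiS U ρ (x ρ σ) := fun ρ σ v hv =>
    eU_zero.1 (hx.isD.ker ρ σ v hv)
  have hxs : ∀ ρ σ, x ρ σ ≠ 0 → ρ ⊆ σ := fun ρ σ h => (hx.isD.supp ρ σ h).1
  have hxs' : ∀ ρ σ, x ρ σ ≠ 0 → ρ ⊆ σ ∧ Sph M σ := fun ρ σ h =>
    ⟨(hx.isD.supp ρ σ h).1, hG σ (hx.isD.supp ρ σ h).2.2.1⟩
  have key : ∀ k, k ≤ i → ∃ w, IsWL U G (i - k) (n - k) w ∧ e1L ν U w = 0 ∧ e2 ν w = 0 ∧
      pp β x w = ∑ ρ : Finset V, β (c' ρ) (c ρ) := by
    intro k
    induction k with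
    | zero =>
      intro _
      refine ⟨fun ρ σ => if ρ ⊆ σ ∧ σ ∈ fac G n univ then o σ • c ρ else 0, ⟨?_, ?_⟩, ?_, ?_, ?_⟩
      · intro ρ σ v hv
        beta_reduce
        split_ifs
        · rw [map_smul, eU_zero.1 (hc.ker ρ v hv), smul_neg]
        · rw [map_zero, neg_zero]
      · intro ρ σ hne
        beta_reduce at hne
        split_ifs at hne with h
        · have h1 := hc.supp ρ (right_ne_zero_of_smul hne)
          have h2 := (hfac σ).1 h.2
          exact ⟨h.1, h2.1, h1.2.2, h2.2⟩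
        · exact absurd rfl hne
      · funext ρ σ
        unfold e1L
        by_cases h : ρ ⊆ σ
        · rw [if_pos h]
          by_cases hf : σ ∈ fac G n univ
          · have h1 : ∀ v ∈ ρ, sgn ν v ρ • PS U ρ (if ρ.erase v ⊆ σ ∧ σ ∈ fac G n univ then
                o σ • c (ρ.erase v) else 0) = o σ • (sgn ν v ρ • PS U ρ (c (ρ.erase v))) := by
              intro v _
              rw [if_pos ⟨(erase_subset _ _).trans h, hf⟩, map_smul, smul_comm]
            rw [sum_congr rfl h1, ← smul_sum]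
            by_cases hcard : ρ.card = i + 1
            · rw [hco ρ (fun a ha b hb hab => ((hfac σ).1 hf).1 a (h ha) b (h hb) hab) hcard,
                smul_zero]
              rfl
            · have h2 : ∑ v ∈ ρ, sgn ν v ρ • PS U ρ (c (ρ.erase v)) = 0 := by
                refine sum_eq_zero fun v hv => ?_
                have h3 : c (ρ.erase v) = 0 := by
                  by_contra hne
                  have h4 := (hc.supp _ hne).2.2
                  have h5 := card_erase_add_one hv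
                  omega
                rw [h3, map_zero, smul_zero]
              rw [h2, smul_zero]
              rfl
          · refine sum_eq_zero fun v _ => ?_
            beta_reduce
            rw [if_neg (fun h3 => hf h3.2), map_zero, smul_zero]
        · rw [if_neg h]
          rfl
      · funext ρ σ
        unfold e2
        by_cases h : ρ ⊆ σ
        · rw [if_pos h]
          show ∑ v ∈ σᶜ, sgn ν v σ • (if ρ ⊆ insert v σ ∧ insert v σ ∈ fac G n univ then
            o (insert v σ) • c ρ else 0) = 0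
          have h1 : ∀ v ∈ σᶜ, sgn ν v σ • (if ρ ⊆ insert v σ ∧ insert v σ ∈ fac G n univ then
              o (insert v σ) • c ρ else 0) = (if v ∉ σ ∧ insert v σ ∈ fac G n univ then
              sgn ν v σ * o (insert v σ) else 0) • c ρ := by
            intro v hv
            by_cases h2 : insert v σ ∈ fac G n univ
            · rw [if_pos ⟨h.trans (subset_insert _ _), h2⟩, if_pos ⟨mem_compl.1 hv, h2⟩, smul_smul]
            · rw [if_neg (fun h3 => h2 h3.2), if_neg (fun h3 => h2 h3.2), smul_zero, zero_smul]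
          rw [sum_congr rfl h1, ← sum_smul]
          have h3 : ∑ v ∈ σᶜ, (if v ∉ σ ∧ insert v σ ∈ fac G n univ then
              sgn ν v σ * o (insert v σ) else 0) = 0 := by
            by_cases h4 : ∃ v, v ∉ σ ∧ insert v σ ∈ fac G n univ
            · obtain ⟨v, hv, hv2⟩ := h4
              obtain ⟨h5, h6⟩ := (hfac _).1 hv2
              rw [card_insert_of_notMem hv] at h6
              have h7 := hS.cyc σ (subset_univ _) (fun a ha b hb hab =>
                h5 a (mem_insert_of_mem ha) b (mem_insert_of_mem hb) hab) h6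
              refine Eq.trans (sum_subset (subset_univ _) fun z _ hz => ?_) h7
              rw [if_neg (fun h8 => hz (mem_compl.2 h8.1))]
            · refine sum_eq_zero fun v _ => ?_
              rw [if_neg (fun h5 => h4 ⟨v, h5⟩)]
          rw [h3, zero_smul]
        · rw [if_neg h]
          rfl
      · unfold pp
        refine sum_congr rfl fun ρ _ => ?_
        have h1 : c' ρ = ∑ σ ∈ fac G n univ, o σ • x ρ σ := by
          rw [← hx.aug_eq]
          rfl
        rw [h1, map_sum, LinearMap.sum_apply, ← sum_subset (subset_univ (fac G n univ))]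
        · refine sum_congr rfl fun σ hσ => ?_
          rw [map_smul, LinearMap.smul_apply, smul_eq_mul]
          by_cases h0 : x ρ σ = 0
          · rw [h0, map_zero, LinearMap.zero_apply, LinearMap.zero_apply, mul_zero]
          · beta_reduce
            rw [if_pos ⟨hxs _ _ h0, hσ⟩, map_smul, smul_eq_mul]
        · intro σ _ hσ
          beta_reduce
          rw [if_neg (fun h => hσ h.2), map_zero]
    | succ k ih =>
      intro hk
      obtain ⟨w, hw, h1, h2, h3⟩ := ih (by omega)
      have ea : i - k = (i - (k + 1)) + 1 := by omega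
      have eb : n - k = (n - (k + 1)) + 1 := by omega
      rw [ea, eb] at hw
      obtain ⟨u, hu, hu1, hu2, hu3⟩ := stepL hG hν hw h1 h2
      refine ⟨e2 ν u, isWL_e2 hu, hu2, hu3, ?_⟩
      rw [← pp_d2 hxs fun ρ σ h => ⟨(hu.supp ρ σ h).1, (hu.supp ρ σ h).2.1⟩, ← hx.closed,
        pp_d1L hU hxf hxs', hu1, h3]
  obtain ⟨w, hw, h1, h2, h3⟩ := key i le_rfl
  rw [Nat.sub_self] at hw
  have hw0 : ∀ ρ σ, ρ ≠ ∅ → w ρ σ = 0 := by
    intro ρ σ h
    by_contra hne
    exact h (card_eq_zero.1 (hw.supp ρ σ hne).2.2.1)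
  refine ⟨w ∅, ⟨fun σ => Submodule.mem_top, fun σ v hv => ?_, fun σ hne => ?_⟩, ?_, ?_⟩
  · rw [fU_zero]
    have h4 := congrFun (congrFun h1 {v}) σ
    unfold e1L at h4
    rw [if_pos (singleton_subset_iff.2 hv), sum_singleton, erase_singleton] at h4
    have h5 : sgn ν v {v} • PS U {v} (w ∅ σ) = 0 := h4
    have hs : Sph M {v} := hG {v} (by
      intro a ha b hb hab
      rw [mem_singleton] at ha hb
      exact absurd (ha.trans hb.symm) hab)
    refine PS_single hs ((smul_eq_zero.1 h5).resolve_left fun h6 => ?_)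
    have h7 := sgn_sq ν v {v}
    rw [h6, mul_zero] at h7
    exact zero_ne_one h7
  · obtain ⟨-, h4, -, h5⟩ := hw.supp _ _ hne
    exact ⟨subset_univ _, h4, h5⟩
  · funext σ
    have h4 := congrFun (congrFun h2 ∅) σ
    unfold e2 at h4
    rw [if_pos (empty_subset _)] at h4
    exact h4
  · rw [← h3]
    unfold pr pp
    symm
    refine sum_eq_single (∅ : Finset V) ?_ fun h => absurd (mem_univ _) h
    intro ρ _ hρ
    refine sum_eq_zero fun σ _ => ?_
    rw [hw0 ρ σ hρ, map_zero]

end Pool.Agent.H19.PL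

end

section

/-!
# Project FOLD: the pairing
-/

set_option autoImplicit false

open Finset

namespace Pool.Agent.H85.Fold

variable {V : Type} [DecidableEq V] [Fintype V] {S : Type} [AddCommGroup S] [Module ℝ S]
  {β β' : S →ₗ[ℝ] S →ₗ[ℝ] ℝ} {x x' : Finset V → Finset V → S} {c c' : Finset V → S}

theorem pr_sub_right : pr β x (c - c') = pr β x c - pr β x c' := by
  simp [pr, sum_sub_distrib]

variable {ν : V → ℕ} {G : SimpleGraph V} {e : V → S →ₗ[ℝ] S} {ep : Finset V → S →ₗ[ℝ] S}
  {b : V → V → ℝ} {n : ℕ} {U : Finset V} {M : Submodule ℝ S} {ε κ : ℝ} {o : Finset V → ℝ}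

/-- the adjunction between the boundary and the coboundary -/
theorem pr_bd_right {i : ℕ} (hx : IsD G e n M U i x) (hc : ∀ σ, c σ ≠ 0 → σ ⊆ U ∧ Cl G σ) :
    pr β x (bd ν c) = pr β (d2 ν G U x) c := by
  classical
  have h1 : pr β x (bd ν c) = ∑ ρ : Finset V, ∑ v ∈ ρᶜ,
      sgn ν v ρ * β (x ∅ ρ) (c (insert v ρ)) := by
    refine sum_congr rfl fun ρ _ => ?_
    change β (x ∅ ρ) (∑ v ∈ ρᶜ, sgn ν v ρ • c (insert v ρ)) = _
    rw [map_sum]
    refine sum_congr rfl fun v _ => ?_
    rw [map_smul, smul_eq_mul]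
  have h2 : pr β (d2 ν G U x) c = ∑ σ : Finset V, ∑ v ∈ σ,
      sgn ν v σ * β (x ∅ (σ.erase v)) (c σ) := by
    refine sum_congr rfl fun σ _ => ?_
    by_cases h0 : c σ = 0
    · rw [h0, map_zero]
      symm
      refine sum_eq_zero fun v _ => ?_
      rw [map_zero, mul_zero]
    · have h3 : d2 ν G U x ∅ σ = ∑ v ∈ σ \ ∅, sgn ν v σ • x ∅ (σ.erase v) := if_pos (hc σ h0)
      rw [h3, sdiff_empty, map_sum, LinearMap.sum_apply]
      refine sum_congr rfl fun v _ => ?_
      rw [map_smul, LinearMap.smul_apply, smul_eq_mul]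
  rw [h1, h2, sum_sigma', sum_sigma']
  refine sum_bij' (fun z _ => ⟨insert z.2 z.1, z.2⟩) (fun z _ => ⟨z.1.erase z.2, z.2⟩)
    ?_ ?_ ?_ ?_ ?_
  · rintro ⟨ρ, v⟩ h
    simp only [mem_sigma, mem_univ, true_and, mem_insert_self]
  · rintro ⟨σ, v⟩ h
    simp only [mem_sigma, mem_univ, true_and, mem_compl, mem_erase, ne_eq, not_true_eq_false,
      false_and, not_false_eq_true]
  · rintro ⟨ρ, v⟩ h
    simp only [mem_sigma, mem_univ, true_and, mem_compl] at h
    simp only [erase_insert h]
  · rintro ⟨σ, v⟩ h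
    simp only [mem_sigma, mem_univ, true_and] at h
    simp only [insert_erase h]
  · rintro ⟨ρ, v⟩ h
    simp only [mem_sigma, mem_univ, true_and, mem_compl] at h
    simp only [erase_insert h, sgn_insert_self]

end Pool.Agent.H85.Fold

end

section

/-!
# Project FOLD: resolutions
-/

set_option autoImplicit false

open Finset

namespace Pool.Agent.H85.Fold

variable {V : Type} [DecidableEq V] [Fintype V] {S : Type} [AddCommGroup S] [Module ℝ S]
  {ν : V → ℕ} {G : SimpleGraph V} {n : ℕ} {U : Finset V} {o : Finset V → ℝ}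

variable {e : V → S →ₗ[ℝ] S} {M : Submodule ℝ S}

private theorem res_cl_sub {σ τ : Finset V} (h : Cl G τ) (hs : σ ⊆ τ) : Cl G σ :=
  fun u hu v hv huv => h u (hs hu) v (hs hv) huv

private theorem res_d2_pos {x : Finset V → Finset V → S} {ρ σ : Finset V} (h : σ ⊆ U)
    (hc : Cl G σ) : d2 ν G U x ρ σ = ∑ v ∈ σ \ ρ, sgn ν v σ • x ρ (σ.erase v) := by
  classical
  show (if σ ⊆ U ∧ Cl G σ then ∑ v ∈ σ \ ρ, sgn ν v σ • x ρ (σ.erase v) else 0) = _
  rw [if_pos ⟨h, hc⟩]

private theorem res_d2_zero {x : Finset V → Finset V → S} {ρ σ : Finset V}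
    (h : σ ⊆ U → Cl G σ → ∀ v ∈ σ \ ρ, x ρ (σ.erase v) = 0) : d2 ν G U x ρ σ = 0 := by
  classical
  show (if σ ⊆ U ∧ Cl G σ then ∑ v ∈ σ \ ρ, sgn ν v σ • x ρ (σ.erase v) else 0) = _
  split_ifs with h1
  · refine Finset.sum_eq_zero fun v hv => ?_
    rw [h h1.1 h1.2 v hv, smul_zero]
  · rfl

private theorem res_d1_zero {x : Finset V → Finset V → S} {ρ σ : Finset V}
    (h : ∀ v ∈ σ \ ρ, x (insert v ρ) σ = 0) : d1 ν x ρ σ = 0 := by
  show ∑ v ∈ σ \ ρ, sgn ν v ρ • x (insert v ρ) σ = 0
  refine Finset.sum_eq_zero fun v hv => ?_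
  rw [h v hv, smul_zero]

private theorem res_mem_fac {σ : Finset V} {m : ℕ} :
    σ ∈ fac G m U ↔ σ ⊆ U ∧ Cl G σ ∧ σ.card = m := by
  classical
  simp [fac]

/-- the values allowed at `ρ` -/
private def resN (e : V → S →ₗ[ℝ] S) (M : Submodule ℝ S) (ρ : Finset V) : Submodule ℝ S where
  carrier := {y | y ∈ M ∧ ∀ v ∈ ρ, e v y = 0}
  add_mem' := by
    rintro a b ⟨ha, ha'⟩ ⟨hb, hb'⟩
    exact ⟨M.add_mem ha hb, fun v hv => by rw [map_add, ha' v hv, hb' v hv, add_zero]⟩
  zero_mem' := ⟨M.zero_mem, fun v _ => map_zero _⟩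
  smul_mem' := by
    rintro r a ⟨ha, ha'⟩
    exact ⟨M.smul_mem r ha, fun v hv => by rw [map_smul, ha' v hv, smul_zero]⟩

/-- the row lemma -/
private theorem res_row (hK : IsSphere ν G n U o) {ρ : Finset V} (hρ : ρ ⊆ U) (hcl : Cl G ρ)
    {j : ℕ} (hj : j ≤ n) (ψ : Finset V → S) (hψ : ∀ σ, ψ σ ∈ resN e M ρ)
    (h1 : j < n → ∀ σ ⊆ U, Cl G σ → ρ ⊆ σ → σ.card = j + 1 →
      ∑ v ∈ σ \ ρ, sgn ν v σ • ψ (σ.erase v) = 0)
    (h2 : j = n → ∑ σ ∈ fac G n U, (if ρ ⊆ σ then o σ • ψ σ else 0) = 0) :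
    ∃ χ : Finset V → S, (∀ σ, χ σ ∈ resN e M ρ) ∧
      (∀ σ, χ σ ≠ 0 → ρ ⊆ σ ∧ σ ⊆ U ∧ Cl G σ ∧ σ.card + 1 = j) ∧
      ∀ σ ⊆ U, Cl G σ → ρ ⊆ σ → σ.card = j →
        ψ σ = ∑ v ∈ σ \ ρ, sgn ν v σ • χ (σ.erase v) := by
  classical
  obtain ⟨χ, hχ, hχ'⟩ : ∃ χ : Finset V → S, (∀ σ, χ σ ∈ resN e M ρ) ∧
      ∀ σ ⊆ U, Cl G σ → ρ ⊆ σ → σ.card = j →
        ψ σ = ∑ v ∈ σ \ ρ, sgn ν v σ • χ (σ.erase v) := by
    rcases Nat.lt_or_ge j n with hlt | hge
    · exact hK.exactS (resN e M ρ) hρ hcl hlt ψ hψ (h1 hlt)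
    · obtain rfl : j = n := le_antisymm hj hge
      exact hK.topS (resN e M ρ) hρ hcl ψ hψ (h2 rfl)
  refine ⟨fun σ => if ρ ⊆ σ ∧ σ ⊆ U ∧ Cl G σ ∧ σ.card + 1 = j then χ σ else 0, ?_, ?_, ?_⟩
  · intro σ
    dsimp only
    split_ifs
    · exact hχ σ
    · exact (resN e M ρ).zero_mem
  · intro σ hσ
    by_contra hcon
    exact hσ (if_neg hcon)
  · intro σ hσU hσc hσρ hσj
    rw [hχ' σ hσU hσc hσρ hσj]
    refine Finset.sum_congr rfl fun v hv => ?_
    rw [Finset.mem_sdiff] at hv
    have h3 : ρ ⊆ σ.erase v := fun u hu =>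
      Finset.mem_erase.2 ⟨fun h => hv.2 (h ▸ hu), hσρ hu⟩
    have h4 : (σ.erase v).card + 1 = j := by
      rw [Finset.card_erase_add_one hv.1, hσj]
    have h5 : ρ ⊆ σ.erase v ∧ σ.erase v ⊆ U ∧ Cl G (σ.erase v) ∧ (σ.erase v).card + 1 = j :=
      ⟨h3, (Finset.erase_subset _ _).trans hσU, res_cl_sub hσc (Finset.erase_subset _ _), h4⟩
    show _ = sgn ν v σ • (if ρ ⊆ σ.erase v ∧ σ.erase v ⊆ U ∧ Cl G (σ.erase v) ∧
      (σ.erase v).card + 1 = j then χ (σ.erase v) else 0)
    rw [if_pos h5]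

private theorem res_exists_aug (hK : IsSphere ν G n U o) {i : ℕ} {c : Finset V → S}
    (hc : IsF G e M U i c) :
    ∃ y, IsD G e n M U i y ∧ (∀ ρ σ, y ρ σ ≠ 0 → ρ.card = i) ∧ aug G n U o y = c := by
  classical
  have hex : ∀ ρ : Finset V, ∃ τ : Finset V, c ρ ≠ 0 →
      τ ⊆ U ∧ Cl G τ ∧ τ.card = n ∧ ρ ⊆ τ := by
    intro ρ
    by_cases h : c ρ = 0
    · exact ⟨∅, fun h' => absurd h h'⟩
    · obtain ⟨h1, h2, -⟩ := hc.supp ρ h
      obtain ⟨τ, h3, h4⟩ := hK.pure ρ h1 h2
      exact ⟨τ, fun _ => ⟨h3, h4⟩⟩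
  choose τ hτ using hex
  refine ⟨fun ρ σ => if σ = τ ρ then (o (τ ρ))⁻¹ • c ρ else 0, ⟨?_, ?_, ?_⟩, ?_, ?_⟩
  · intro ρ σ
    split_ifs
    · exact M.smul_mem _ (hc.mem ρ)
    · exact M.zero_mem
  · intro ρ σ v hv
    split_ifs
    · rw [map_smul, hc.ker ρ v hv, smul_zero]
    · exact map_zero _
  · intro ρ σ h
    split_ifs at h with h1
    · have h2 : c ρ ≠ 0 := fun h3 => h (by rw [h3, smul_zero])
      obtain ⟨a1, a2, a3, a4⟩ := hτ ρ h2
      rw [h1]
      refine ⟨a4, a1, a2, ?_⟩
      rw [a3, (hc.supp ρ h2).2.2]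
    · exact absurd rfl h
  · intro ρ σ h
    have h2 : c ρ ≠ 0 := by
      intro h3
      apply h
      show (if σ = τ ρ then (o (τ ρ))⁻¹ • c ρ else 0) = 0
      rw [h3, smul_zero, ite_self]
    exact (hc.supp ρ h2).2.2
  · funext ρ
    show ∑ σ ∈ fac G n U, o σ • (if σ = τ ρ then (o (τ ρ))⁻¹ • c ρ else 0) = c ρ
    by_cases h : c ρ = 0
    · rw [h]
      refine Finset.sum_eq_zero fun σ _ => ?_
      rw [smul_zero, ite_self, smul_zero]
    · obtain ⟨a1, a2, a3, a4⟩ := hτ ρ h
      rw [Finset.sum_eq_single (τ ρ)]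
      · rw [if_pos rfl, smul_smul, mul_inv_cancel₀ (hK.ne _ a1 a2 a3), one_smul]
      · intro σ _ hσ
        rw [if_neg hσ, smul_zero]
      · intro hn
        exact absurd (res_mem_fac.2 ⟨a1, a2, a3⟩) hn

/-- `d2` of a double chain composed of rows -/
private theorem res_rows {l j i : ℕ} (hli : j + i = n + l)
    (ψ : Finset V → Finset V → S)
    (hrow : ∀ ρ ⊆ U, Cl G ρ → ρ.card = l → ∃ χ : Finset V → S, (∀ σ, χ σ ∈ resN e M ρ) ∧
      (∀ σ, χ σ ≠ 0 → ρ ⊆ σ ∧ σ ⊆ U ∧ Cl G σ ∧ σ.card + 1 = j) ∧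
      ∀ σ ⊆ U, Cl G σ → ρ ⊆ σ → σ.card = j →
        ψ ρ σ = ∑ v ∈ σ \ ρ, sgn ν v σ • χ (σ.erase v))
    (hψ : ∀ ρ σ, ψ ρ σ ≠ 0 → ρ ⊆ σ ∧ σ ⊆ U ∧ Cl G σ ∧ σ.card + i = n + ρ.card) :
    ∃ y, IsD G e n M U (i + 1) y ∧ (∀ ρ σ, y ρ σ ≠ 0 → ρ.card = l) ∧
      ∀ ρ σ, ρ.card = l → ψ ρ σ = d2 ν G U y ρ σ := by
  classical
  have hrow' : ∀ ρ : Finset V, ∃ χ : Finset V → S, (∀ σ, χ σ ∈ resN e M ρ) ∧
      (∀ σ, χ σ ≠ 0 → ρ.card = l ∧ ρ ⊆ σ ∧ σ ⊆ U ∧ Cl G σ ∧ σ.card + 1 = j) ∧
      (ρ.card = l → ∀ σ ⊆ U, Cl G σ → ρ ⊆ σ → σ.card = j →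
        ψ ρ σ = ∑ v ∈ σ \ ρ, sgn ν v σ • χ (σ.erase v)) := by
    intro ρ
    by_cases h : ρ ⊆ U ∧ Cl G ρ ∧ ρ.card = l
    · obtain ⟨χ, h1, h2, h3⟩ := hrow ρ h.1 h.2.1 h.2.2
      exact ⟨χ, h1, fun σ hσ => ⟨h.2.2, h2 σ hσ⟩, fun _ => h3⟩
    · refine ⟨fun _ => 0, fun _ => (resN e M ρ).zero_mem, fun σ hσ => absurd rfl hσ, ?_⟩
      intro hl σ h1 h2 h3 _
      exact absurd ⟨h3.trans h1, res_cl_sub h2 h3, hl⟩ h
  choose χ hχ1 hχ2 hχ3 using hrow'
  refine ⟨χ, ⟨fun ρ σ => (hχ1 ρ σ).1, fun ρ σ => (hχ1 ρ σ).2, ?_⟩, fun ρ σ h => (hχ2 ρ σ h).1, ?_⟩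
  · intro ρ σ h
    obtain ⟨a1, a2, a3, a4, a5⟩ := hχ2 ρ σ h
    refine ⟨a2, a3, a4, ?_⟩
    omega
  · intro ρ σ hl
    by_cases hgood : ρ ⊆ σ ∧ σ ⊆ U ∧ Cl G σ ∧ σ.card = j
    · obtain ⟨a1, a2, a3, a4⟩ := hgood
      rw [hχ3 ρ hl σ a2 a3 a1 a4, res_d2_pos a2 a3]
    · have h1 : ψ ρ σ = 0 := by
        by_contra hne
        obtain ⟨a1, a2, a3, a4⟩ := hψ ρ σ hne
        exact hgood ⟨a1, a2, a3, by omega⟩
      rw [h1, eq_comm]
      refine res_d2_zero fun h2 h3 v hv => ?_
      by_contra hne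
      obtain ⟨-, a2, -, -, a5⟩ := hχ2 ρ _ hne
      refine hgood ⟨a2.trans (Finset.erase_subset _ _), h2, h3, ?_⟩
      rw [Finset.card_erase_add_one (Finset.mem_sdiff.1 hv).1] at a5
      exact a5

/-- every cycle has a resolution -/
theorem exists_res (hν : Function.Injective ν) (hK : IsSphere ν G n U o) {i : ℕ}
    {c : Finset V → S} (hc : IsF G e M U i c) (hbd : bd ν c = 0) :
    ∃ x, IsRes ν G e n M U o i c x := by
  classical
  rcases Nat.lt_or_ge n i with hni | hin
  · have hc0 : c = 0 := by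
      funext σ
      by_contra hne
      obtain ⟨h1, h2, h3⟩ := hc.supp σ hne
      have := hK.dim σ h1 h2
      omega
    exact ⟨0, IsD.zero, by rw [map_zero, map_zero], by rw [map_zero, hc0]⟩
  have key : ∀ k, k ≤ i → ∃ x, IsD G e n M U i x ∧ (∀ ρ σ, x ρ σ ≠ 0 → i ≤ ρ.card + k) ∧
      aug G n U o x = c ∧ ∀ ρ σ, i ≤ ρ.card + k → d1 ν x ρ σ = d2 ν G U x ρ σ := by
    intro k
    induction k with
    | zero =>
      intro _
      obtain ⟨y, h1, h2, h3⟩ := res_exists_aug hK hc
      refine ⟨y, h1, fun ρ σ h => (h2 ρ σ h).ge, h3, fun ρ σ hρ => ?_⟩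
      rw [res_d1_zero, res_d2_zero]
      · intro h4 h5 v hv
        by_contra hne
        obtain ⟨-, -, -, a4⟩ := h1.supp _ _ hne
        have h6 := h2 _ _ hne
        have h7 := hK.dim σ h4 h5
        have h8 := Finset.card_erase_add_one (Finset.mem_sdiff.1 hv).1
        omega
      · intro v hv
        by_contra hne
        have h6 := h2 _ _ hne
        rw [Finset.card_insert_of_notMem (Finset.mem_sdiff.1 hv).2] at h6
        omega
    | succ k ih =>
      intro hk
      obtain ⟨x, hx1, hx2, hx3, hx4⟩ := ih (by omega)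
      obtain ⟨i', rfl⟩ : ∃ i', i = i' + 1 := ⟨i - 1, by omega⟩
      obtain ⟨l, hl⟩ : ∃ l, i' = l + k := ⟨i' - k, by omega⟩
      have hd1 : IsD G e n M U i' (d1 ν x) := isD_d1 ν hx1
      have hxsub : ∀ ρ σ, x ρ σ ≠ 0 → ρ ⊆ σ := fun ρ σ h => (hx1.supp ρ σ h).1
      -- the rows at level l
      have hj : (n - k) + i' = n + l := by omega
      obtain ⟨y, hy1, hy2, hy3⟩ := res_rows (e := e) (M := M) (ν := ν) (U := U) (G := G) hj
        (d1 ν x) (by
          intro ρ hρU hρc hρl
          refine res_row hK hρU hρc (Nat.sub_le _ _) (d1 ν x ρ)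
            (fun σ => ⟨hd1.mem ρ σ, hd1.ker ρ σ⟩) ?_ ?_
          · intro hlt σ hσU hσc hσρ hσj
            rw [← res_d2_pos hσU hσc, ← d1_d2]
            have h5 : d1 ν (d2 ν G U x) ρ σ = d1 ν (d1 ν x) ρ σ := by
              show ∑ v ∈ σ \ ρ, sgn ν v ρ • (d2 ν G U x) (insert v ρ) σ =
                ∑ v ∈ σ \ ρ, sgn ν v ρ • (d1 ν x) (insert v ρ) σ
              refine Finset.sum_congr rfl fun v hv => ?_
              rw [hx4]
              rw [Finset.card_insert_of_notMem (Finset.mem_sdiff.1 hv).2]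
              omega
            rw [h5, d1_d1 ν hν]
            rfl
          · intro _
            have h5 : aug G n U o (d1 ν x) ρ = 0 := by
              rw [aug_d1 ν G n U o x hxsub, hx3, hbd]
              rfl
            refine Eq.trans ?_ h5
            show _ = ∑ σ ∈ fac G n U, o σ • d1 ν x ρ σ
            refine Finset.sum_congr rfl fun σ _ => ?_
            split_ifs with h6
            · rfl
            · have : d1 ν x ρ σ = 0 := by
                by_contra hne
                exact h6 (hd1.supp _ _ hne).1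
              rw [this, smul_zero])
        hd1.supp
      refine ⟨x + y, hx1.add hy1, ?_, ?_, ?_⟩
      · intro ρ σ h
        by_cases h5 : x ρ σ = 0
        · have h6 : y ρ σ ≠ 0 := by
            intro h7
            apply h
            show x ρ σ + y ρ σ = 0
            rw [h5, h7, add_zero]
          have := hy2 ρ σ h6
          omega
        · have := hx2 ρ σ h5
          omega
      · rw [map_add, hx3]
        have : aug G n U o y = 0 := by
          funext ρ
          show ∑ σ ∈ fac G n U, o σ • y ρ σ = 0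
          refine Finset.sum_eq_zero fun σ hσ => ?_
          have : y ρ σ = 0 := by
            by_contra hne
            obtain ⟨-, -, -, a4⟩ := hy1.supp _ _ hne
            have h6 := hy2 _ _ hne
            have h7 := (res_mem_fac.1 hσ).2.2
            omega
          rw [this, smul_zero]
        rw [this, add_zero]
      · intro ρ σ hρ
        have hy4 : l ≤ ρ.card → d1 ν y ρ σ = 0 := by
          intro hle
          refine res_d1_zero fun v hv => ?_
          by_contra hne
          have h6 := hy2 _ _ hne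
          rw [Finset.card_insert_of_notMem (Finset.mem_sdiff.1 hv).2] at h6
          omega
        rw [map_add, map_add]
        show d1 ν x ρ σ + d1 ν y ρ σ = d2 ν G U x ρ σ + d2 ν G U y ρ σ
        rw [hy4 (by omega), add_zero]
        rcases Nat.lt_or_ge l ρ.card with hlt | hge
        · rw [hx4 ρ σ (by omega)]
          have : d2 ν G U y ρ σ = 0 := by
            refine res_d2_zero fun _ _ v _ => ?_
            by_contra hne
            have := hy2 _ _ hne
            omega
          rw [this, add_zero]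
        · have hρl : ρ.card = l := by omega
          have : d2 ν G U x ρ σ = 0 := by
            refine res_d2_zero fun _ _ v _ => ?_
            by_contra hne
            have := hx2 _ _ hne
            omega
          rw [this, zero_add, hy3 ρ σ hρl]
  obtain ⟨x, h1, -, h3, h4⟩ := key i le_rfl
  refine ⟨x, h1, ?_, h3⟩
  funext ρ σ
  exact h4 ρ σ (by omega)

theorem IsRes.sub {i : ℕ} {c c' : Finset V → S} {x x' : Finset V → Finset V → S}
    (h : IsRes ν G e n M U o i c x) (h' : IsRes ν G e n M U o i c' x') :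
    IsRes ν G e n M U o i (c - c') (x - x') where
  isD := h.isD.sub h'.isD
  closed := by rw [map_sub, map_sub, h.closed, h'.closed]
  aug_eq := by rw [map_sub, h.aug_eq, h'.aug_eq]

end Pool.Agent.H85.Fold

end

section

/-!
# Project S10, block E: triangular representations of finitely generated groups over the Laurent ring
-/

set_option autoImplicit false
set_option linter.unusedSectionVars false

open Finset

namespace Pool.Agent.S10.EA

open Pool.Agent.S9

/-- the entries of the new matrix -/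
private theorem ent {R K : Type} [CommRing R] [IsDomain R] [Field K] [Algebra R K] [IsFractionRing R K] {n : ℕ}
    {d : K} {A : Matrix (Fin n) (Fin n) K} {A' : Matrix (Fin n) (Fin n) R}
    (h : dg d * A'.map (algebraMap R K) = A * dg d) (a b : Fin n) :
    d ^ (a : ℕ) * algebraMap R K (A' a b) = A a b * d ^ (b : ℕ) := by
  have h1 := congrFun (congrFun h a) b
  unfold dg at h1
  rwa [Matrix.diagonal_mul, Matrix.mul_diagonal, Matrix.map_apply] at h1

/-- **Lattices, general form**: a triangular representation of a finitely generated group over the fraction field `K`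
with diagonal entries in `R` becomes integral after conjugation with a diagonal matrix `dg d`. -/
theorem lat_gen {R K : Type} [CommRing R] [IsDomain R] [Field K] [Algebra R K] [IsFractionRing R K]
    {Γ : Type} [Group Γ] (hfg : Group.FG Γ) {n : ℕ} (μ : Γ →* Matrix (Fin n) (Fin n) K)
    (htri : ∀ g a b, b < a → μ g a b = 0) (u : Γ → Fin n → R)
    (hu : ∀ g a, μ g a a = algebraMap R K (u g a)) :
    ∃ d : R, d ≠ 0 ∧ ∃ μ' : Γ →* Matrix (Fin n) (Fin n) R,
      (∀ g a b, b < a → μ' g a b = 0) ∧ (∀ g a, μ' g a a = u g a) ∧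
      ∀ g, dg (algebraMap R K d) * (μ' g).map (algebraMap R K) = μ g * dg (algebraMap R K d) := by
  classical
  obtain ⟨S, hS⟩ := hfg.out
  -- the generators and their inverses
  obtain ⟨d, hd0, c', -, -, h3⟩ := exists_den (R := R) (K := K) (ι := {x // x ∈ S} × Bool)
    (fun x => μ (if x.2 then (x.1 : Γ) else (x.1 : Γ)⁻¹)) (fun x a b hab => htri _ a b hab)
    (fun x a => u _ a) (fun x a => hu _ a)
  have hdK : algebraMap R K d ≠ 0 := by
    intro h0
    exact hd0 ((IsFractionRing.injective R K) (h0.trans (map_zero _).symm))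
  have key : ∀ g : Γ, ∃ A' : Matrix (Fin n) (Fin n) R,
      dg (algebraMap R K d) * A'.map (algebraMap R K) = μ g * dg (algebraMap R K d) := by
    intro g
    have hg : g ∈ Subgroup.closure (S : Set Γ) := by
      rw [hS]
      exact Subgroup.mem_top g
    induction hg using Subgroup.closure_induction'' with
    | mem x hx =>
      refine ⟨c' (⟨x, hx⟩, true), ?_⟩
      have h4 := h3 (⟨x, hx⟩, true)
      simpa using h4
    | inv_mem x hx =>
      refine ⟨c' (⟨x, hx⟩, false), ?_⟩
      have h4 := h3 (⟨x, hx⟩, false)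
      simpa using h4
    | one => exact ⟨1, by rw [map_one]; exact den_one _⟩
    | mul x y _ _ hx hy =>
      obtain ⟨A, hA⟩ := hx
      obtain ⟨B, hB⟩ := hy
      exact ⟨A * B, by rw [map_mul]; exact den_mul hA hB⟩
  choose f hf using key
  refine ⟨d, hd0, ⟨⟨f, ?_⟩, ?_⟩, ?_, ?_, ?_⟩
  · exact den_inj hdK (hf 1) (by rw [map_one]; exact den_one _)
  · intro g h
    exact den_inj hdK (hf (g * h)) (by rw [map_mul]; exact den_mul (hf g) (hf h))
  · intro g a b hab
    have h4 := ent (hf g) a b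
    rw [htri g a b hab, zero_mul] at h4
    have h5 : algebraMap R K (f g a b) = 0 := (mul_eq_zero.1 h4).resolve_left (pow_ne_zero _ hdK)
    exact (IsFractionRing.injective R K) (h5.trans (map_zero _).symm)
  · intro g a
    have h4 := ent (hf g) a a
    rw [hu, mul_comm] at h4
    exact (IsFractionRing.injective R K) (mul_right_cancel₀ (pow_ne_zero _ hdK) h4)
  · exact hf

/-- **Lattices**: a triangular representation of a finitely generated group over the field `KI I` with monomials on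
the diagonal comes from the Laurent ring. -/
theorem lat {Γ : Type} [Group Γ] (hfg : Group.FG Γ) {I : Type} [Fintype I] {n : ℕ}
    (μ : Γ →* Matrix (Fin n) (Fin n) (KI I)) (htri : ∀ g a b, b < a → μ g a b = 0)
    (w : Γ → Fin n → I → ℤ) (hw : ∀ g a, μ g a a = tt (w g a)) :
    ∃ d : RI I, d ≠ 0 ∧ ∃ μ' : Γ →* Matrix (Fin n) (Fin n) (RI I),
      (∀ g a b, b < a → μ' g a b = 0) ∧ (∀ g a, μ' g a a = ttR (w g a)) ∧
      ∀ g, dg (algebraMap (RI I) (KI I) d) * (μ' g).map (algebraMap (RI I) (KI I)) =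
        μ g * dg (algebraMap (RI I) (KI I) d) :=
  lat_gen hfg μ htri (fun g a => ttR (w g a)) hw

end Pool.Agent.S10.EA

end

section

/-!
# Project S9, block E: triangular coefficients
-/

set_option autoImplicit false
set_option linter.unusedSectionVars false

open Finset

namespace Pool.Agent.S9

open Pool.Agent.H77.SW Pool.Agent.H73.GC

variable {V : Type} [DecidableEq V] [Fintype V] {P : Type} [Group P] [Fintype P] {K : Type} [Field K]
  {n : ℕ}

/-- the diagonal entry as a matrix with one row -/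
def dM (M : V → P → Matrix (Fin n) (Fin n) K) (a : Fin n) (v : V) (p : P) : Matrix (Fin 1) (Fin 1) K :=
  fun _ _ => M v p a a

/-- dimension count for a linear map -/
private theorem Sub_rank {M M' : Type} [AddCommGroup M] [Module K M] [FiniteDimensional K M]
    [AddCommGroup M'] [Module K M'] [FiniteDimensional K M'] (f : M →ₗ[K] M') (S S' : Submodule K M)
    (T : Submodule K M') (h1 : ∀ z ∈ S, f z ∈ T) (h2 : ∀ z ∈ S, f z = 0 → z ∈ S') :
    Module.finrank K S ≤ Module.finrank K (LinearMap.range ((f.domRestrict S).codRestrict T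
      fun z => h1 z.1 z.2)) + Module.finrank K S' := by
  let g : S →ₗ[K] T := (f.domRestrict S).codRestrict T fun z => h1 z.1 z.2
  have e := LinearMap.finrank_range_add_finrank_ker g
  have hk : ∀ z : S, z ∈ LinearMap.ker g → z.1 ∈ S' := by
    intro z hz
    refine h2 z.1 z.2 ?_
    have h3 : g z = 0 := hz
    exact congrArg Subtype.val h3
  let j : LinearMap.ker g →ₗ[K] S' := ((Submodule.subtype S).comp
    (Submodule.subtype (LinearMap.ker g))).codRestrict S' fun z => hk z.1 z.2
  have hj : Function.Injective j := by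
    intro a b hab
    apply Subtype.ext
    apply Subtype.ext
    have h5 : ((j a : S') : M) = ((j b : S') : M) := by rw [hab]
    exact h5
  have h4 := LinearMap.finrank_le_finrank_of_injective hj
  have h6 : Module.finrank K (LinearMap.range ((f.domRestrict S).codRestrict T
      fun z => h1 z.1 z.2)) = Module.finrank K (LinearMap.range g) := rfl
  omega

/-- the cycles whose coordinates from `k` on vanish -/
private def Sub_F {G : SimpleGraph V} (D : PG G P) (M : V → P → Matrix (Fin n) (Fin n) K) (d k : ℕ) :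
    Submodule K (Finset V → P → Fin n → K) where
  carrier := {z | z ∈ Zs K G d (rM D M) ∧ ∀ σ p (b : Fin n), k ≤ b.val → z σ p b = 0}
  zero_mem' := ⟨Submodule.zero_mem _, fun _ _ _ _ => rfl⟩
  add_mem' := by
    rintro z w ⟨h1, h2⟩ ⟨h3, h4⟩
    refine ⟨Submodule.add_mem _ h1 h3, fun σ p b hb => ?_⟩
    show z σ p b + w σ p b = 0
    rw [h2 σ p b hb, h4 σ p b hb, add_zero]
  smul_mem' := by
    rintro c z ⟨h1, h2⟩
    refine ⟨Submodule.smul_mem _ c h1, fun σ p b hb => ?_⟩
    show c * z σ p b = 0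
    rw [h2 σ p b hb, mul_zero]

/-- the coordinate `a` -/
private def Sub_co (K : Type) [Field K] (V P : Type) {n : ℕ} (a : Fin n) :
    (Finset V → P → Fin n → K) →ₗ[K] (Finset V → P → Fin 1 → K) where
  toFun z := fun σ p _ => z σ p a
  map_add' _ _ := rfl
  map_smul' _ _ := rfl

private theorem Sub_co_mem {G : SimpleGraph V} (D : PG G P) (M : V → P → Matrix (Fin n) (Fin n) K)
    (htri : ∀ v p a b, b < a → M v p a b = 0) (d : ℕ) (a : Fin n)
    {z : Finset V → P → Fin n → K} (hz : z ∈ Sub_F D M d (a.val + 1)) :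
    Sub_co K V P a z ∈ Zs K G d (rM D (dM M a)) := by
  obtain ⟨hz, h0⟩ := hz
  obtain ⟨h1, h2, h3⟩ := mem_Zs.1 hz
  rw [mem_Zs]
  refine ⟨fun σ hσ => h1 σ fun h => hσ ?_, fun σ v hv => ?_, fun κ => ?_⟩
  · funext p i
    exact congrFun (congrFun h p) a
  · funext p i
    have h4 : ∑ b, M v p a b * z σ (p * D.g v) b = z σ p a := congrFun (congrFun (h2 σ v hv) p) a
    have h5 : ∑ b, M v p a b * z σ (p * D.g v) b = M v p a a * z σ (p * D.g v) a := by
      refine Finset.sum_eq_single a (fun b _ hb => ?_) fun h => absurd (mem_univ a) h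
      rcases lt_or_gt_of_ne hb with h | h
      · rw [htri v p a b h, zero_mul]
      · rw [h0 σ (p * D.g v) b (Nat.succ_le_of_lt h), mul_zero]
    show ∑ j : Fin 1, dM M a v p i j * z σ (p * D.g v) a = z σ p a
    rw [Fin.sum_univ_one]
    exact h5.symm.trans h4
  · funext p i
    have h4 := congrFun (congrFun (h3 κ) p) a
    rw [Finset.sum_apply, Finset.sum_apply] at h4 ⊢
    exact h4

private theorem Sub_co_zero {G : SimpleGraph V} (D : PG G P) (M : V → P → Matrix (Fin n) (Fin n) K)
    (d : ℕ) (a : Fin n) {z : Finset V → P → Fin n → K} (hz : z ∈ Sub_F D M d (a.val + 1))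
    (h : Sub_co K V P a z = 0) : z ∈ Sub_F D M d a.val := by
  refine ⟨hz.1, fun σ p b hb => ?_⟩
  rcases Nat.eq_or_lt_of_le hb with h1 | h1
  · have h2 : a = b := Fin.ext h1
    rw [← h2]
    exact congrFun (congrFun (congrFun h σ) p) 0
  · exact hz.2 σ p b h1

private theorem Sub_F_top {G : SimpleGraph V} (D : PG G P) (M : V → P → Matrix (Fin n) (Fin n) K)
    (d : ℕ) : Sub_F D M d n = Zs K G d (rM D M) := by
  ext z
  refine ⟨fun h => h.1, fun h => ⟨h, fun σ p b hb => ?_⟩⟩
  have := b.isLt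
  omega

private theorem Sub_F_le {G : SimpleGraph V} (D : PG G P) (M : V → P → Matrix (Fin n) (Fin n) K)
    (htri : ∀ v p a b, b < a → M v p a b = 0) (d : ℕ) : ∀ m, m ≤ n →
    Module.finrank K (Sub_F D M d m) ≤
      ∑ a ∈ univ.filter (fun a : Fin n => a.val < m), zM K D (dM M a) d
  | 0, _ => by
    have h1 : Sub_F D M d 0 = ⊥ := (Submodule.eq_bot_iff _).2 fun z hz => by
      funext σ p b
      exact hz.2 σ p b (Nat.zero_le _)
    rw [h1, finrank_bot]
    exact Nat.zero_le _
  | m + 1, hm => by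
    have ih := Sub_F_le D M htri d m (by omega)
    let a : Fin n := ⟨m, by omega⟩
    have h1 := Sub_rank (Sub_co K V P a) (Sub_F D M d (m + 1)) (Sub_F D M d m)
      (Zs K G d (rM D (dM M a))) (fun z hz => Sub_co_mem D M htri d a hz)
      (fun z hz h => Sub_co_zero D M d a hz h)
    have h2 : univ.filter (fun a : Fin n => a.val < m + 1) =
        insert a (univ.filter (fun a : Fin n => a.val < m)) := by
      ext b
      rw [mem_insert, mem_filter, mem_filter, Fin.ext_iff]
      simp only [mem_univ, true_and]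
      show b.val < m + 1 ↔ b.val = m ∨ b.val < m
      omega
    have h3 : a ∉ univ.filter (fun a : Fin n => a.val < m) := by
      rw [mem_filter]
      rintro ⟨-, h⟩
      exact lt_irrefl _ h
    rw [h2, sum_insert h3]
    refine h1.trans (Nat.add_le_add ?_ ih)
    exact Submodule.finrank_le _

/-- **Subadditivity.** The cycles `z` with `z σ p b = 0` for `b ≥ a` (`a = 0, ..., n`) form a filtration; the
coordinate `a` maps the cycles with `z σ p b = 0` for `b > a` to the cycles of `dM M a`, its kernel is the next term (as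
in `Pool.Agent.H19.SR.Upp`). -/
theorem zM_le {G : SimpleGraph V} (D : PG G P) (M : V → P → Matrix (Fin n) (Fin n) K)
    (htri : ∀ v p a b, b < a → M v p a b = 0) (d : ℕ) :
    zM K D M d ≤ ∑ a : Fin n, zM K D (dM M a) d := by
  have h1 := Sub_F_le D M htri d n le_rfl
  rw [Sub_F_top] at h1
  refine h1.trans (Finset.sum_le_sum_of_subset (filter_subset _ _))

/-- **Equality implies that the last coordinate is surjective.** -/
theorem lift_of_eq {G : SimpleGraph V} (D : PG G P) (M : V → P → Matrix (Fin (n + 1)) (Fin (n + 1)) K)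
    (htri : ∀ v p a b, b < a → M v p a b = 0) (d : ℕ)
    (heq : zM K D M d = ∑ a : Fin (n + 1), zM K D (dM M a) d)
    (z₀ : Finset V → P → Fin 1 → K) (hz₀ : z₀ ∈ Zs K G d (rM D (dM M (Fin.last n)))) :
    ∃ z ∈ Zs K G d (rM D M), ∀ σ p, z σ p (Fin.last n) = z₀ σ p 0 := by
  have h0 : Sub_F D M d (n + 1) = Zs K G d (rM D M) := Sub_F_top D M d
  have h1 := Sub_rank (Sub_co K V P (Fin.last n)) (Sub_F D M d (n + 1)) (Sub_F D M d n)
    (Zs K G d (rM D (dM M (Fin.last n)))) (fun z hz => Sub_co_mem D M htri d (Fin.last n) hz)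
    (fun z hz h => Sub_co_zero D M d (Fin.last n) hz h)
  have h2 := Sub_F_le D M htri d n (Nat.le_succ n)
  have h3 : univ = insert (Fin.last n) (univ.filter (fun a : Fin (n + 1) => a.val < n)) := by
    ext b
    rw [mem_insert, mem_filter, Fin.ext_iff]
    simp only [mem_univ, true_and, true_iff]
    have := b.isLt
    show b.val = n ∨ b.val < n
    omega
  have h4 : Fin.last n ∉ univ.filter (fun a : Fin (n + 1) => a.val < n) := by
    rw [mem_filter]
    rintro ⟨-, h⟩
    exact lt_irrefl _ h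
  rw [h3, sum_insert h4] at heq
  have h5 : Module.finrank K (Sub_F D M d (n + 1)) = zM K D M d := by
    rw [h0]
    rfl
  have h6 : zM K D (dM M (Fin.last n)) d =
    Module.finrank K (Zs K G d (rM D (dM M (Fin.last n)))) := rfl
  have h7 : LinearMap.range (((Sub_co K V P (Fin.last n)).domRestrict
      (Sub_F D M d (n + 1))).codRestrict (Zs K G d (rM D (dM M (Fin.last n))))
      fun z => Sub_co_mem D M htri d (Fin.last n) z.2) = ⊤ := by
    apply Submodule.eq_top_of_finrank_eq
    refine le_antisymm (Submodule.finrank_le _) ?_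
    omega
  obtain ⟨z, hz⟩ := LinearMap.range_eq_top.1 h7 ⟨z₀, hz₀⟩
  refine ⟨z.1, z.2.1, fun σ p => ?_⟩
  have h8 := congrArg Subtype.val hz
  exact congrFun (congrFun (congrFun h8 σ) p) 0

private theorem Sub_conj {G : SimpleGraph V} (D : PG G P) (M M' : V → P → Matrix (Fin n) (Fin n) K)
    (u : Fin n → K) (hu : ∀ a, u a ≠ 0)
    (h : ∀ v p a b, M' v p a b * u a = M v p a b * u b) (d : ℕ) : zM K D M' d ≤ zM K D M d := by
  let f : (Finset V → P → Fin n → K) →ₗ[K] (Finset V → P → Fin n → K) :=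
    { toFun := fun z σ p a => u a * z σ p a
      map_add' := fun z w => by
        funext σ p a
        show u a * (z σ p a + w σ p a) = u a * z σ p a + u a * w σ p a
        ring
      map_smul' := fun c z => by
        funext σ p a
        show u a * (c * z σ p a) = c * (u a * z σ p a)
        ring }
  have hf : ∀ z ∈ Zs K G d (rM D M'), f z ∈ Zs K G d (rM D M) := by
    intro z hz
    obtain ⟨h1, h2, h3⟩ := mem_Zs.1 hz
    rw [mem_Zs]
    refine ⟨fun σ hσ => h1 σ fun h => hσ ?_, fun σ v hv => ?_, fun κ => ?_⟩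
    · funext p a
      show u a * z σ p a = 0
      rw [h]
      exact mul_zero _
    · funext p a
      have h4 : ∑ b, M' v p a b * z σ (p * D.g v) b = z σ p a :=
        congrFun (congrFun (h2 σ v hv) p) a
      show ∑ b, M v p a b * (u b * z σ (p * D.g v) b) = u a * z σ p a
      rw [← h4, Finset.mul_sum]
      refine Finset.sum_congr rfl fun b _ => ?_
      rw [← mul_assoc, ← h v p a b]
      ring
    · have h5 : ∑ v ∈ κᶜ, f z (insert v κ) = fun p a => u a * (∑ v ∈ κᶜ, z (insert v κ)) p a := by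
        funext p a
        rw [Finset.sum_apply, Finset.sum_apply, Finset.sum_apply, Finset.sum_apply, Finset.mul_sum]
        rfl
      rw [h5, h3 κ]
      funext p a
      exact mul_zero _
  let j : Zs K G d (rM D M') →ₗ[K] Zs K G d (rM D M) := (f.domRestrict _).codRestrict _
    fun z => hf z.1 z.2
  have hj : Function.Injective j := by
    intro a b hab
    apply Subtype.ext
    have h5 : f a.1 = f b.1 := congrArg Subtype.val hab
    funext σ p i
    have h6 : u i * a.1 σ p i = u i * b.1 σ p i := congrFun (congrFun (congrFun h5 σ) p) i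
    exact mul_left_cancel₀ (hu i) h6
  exact LinearMap.finrank_le_finrank_of_injective hj

/-- conjugation by a diagonal matrix does not change the dimension -/
theorem zM_conj {G : SimpleGraph V} (D : PG G P) (M M' : V → P → Matrix (Fin n) (Fin n) K)
    (u : Fin n → K) (hu : ∀ a, u a ≠ 0)
    (h : ∀ v p a b, M' v p a b * u a = M v p a b * u b) (d : ℕ) : zM K D M' d = zM K D M d := by
  refine le_antisymm (Sub_conj D M M' u hu h d) (Sub_conj D M' M (fun a => (u a)⁻¹)
    (fun a => inv_ne_zero (hu a)) (fun v p a b => ?_) d)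
  have h1 := h v p a b
  have h2 := hu a
  have h3 := hu b
  field_simp
  linear_combination -h1

end Pool.Agent.S9

end

section

/-!
# Project S9, block G: potentials of representative cocycles of degree one
-/

set_option autoImplicit false
set_option linter.unusedSectionVars false

open Finset

namespace Pool.Agent.S9

/-! ### The extension of `W` by the functions -/

/-- the semidirect product of the functions `W → K` and `W` -/
def EK (W K : Type) : Type := (W → K) × W

section EK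

variable (W K : Type) [Group W] [AddCommGroup K]

instance EK_mul : Mul (EK W K) := ⟨fun x y => (fun p => x.1 p + y.1 (p * x.2), x.2 * y.2)⟩

instance EK_one : One (EK W K) := ⟨(fun _ => 0, 1)⟩

instance EK_inv : Inv (EK W K) := ⟨fun x => (fun p => - x.1 (p * x.2⁻¹), x.2⁻¹)⟩

variable {W K}

theorem EK_ext {x y : EK W K} (h1 : ∀ p, x.1 p = y.1 p) (h2 : x.2 = y.2) : x = y :=
  Prod.ext (funext fun p => h1 p) h2

theorem EK_mul_fst (x y : EK W K) (p : W) : (x * y).1 p = x.1 p + y.1 (p * x.2) := rfl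

theorem EK_mul_snd (x y : EK W K) : (x * y).2 = x.2 * y.2 := rfl

theorem EK_one_fst (p : W) : (1 : EK W K).1 p = 0 := rfl

theorem EK_one_snd : (1 : EK W K).2 = 1 := rfl

variable (W K)

instance EK_group : Group (EK W K) :=
  Group.ofLeftAxioms
    (by
      intro a b c
      refine EK_ext (fun p => ?_) ?_
      · rw [EK_mul_fst, EK_mul_fst, EK_mul_fst, EK_mul_fst, EK_mul_snd, mul_assoc p a.2 b.2,
          add_assoc]
      · rw [EK_mul_snd, EK_mul_snd, EK_mul_snd, EK_mul_snd, mul_assoc])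
    (by
      intro a
      refine EK_ext (fun p => ?_) ?_
      · rw [EK_mul_fst]
        change 0 + a.1 (p * 1) = a.1 p
        rw [mul_one, zero_add]
      · rw [EK_mul_snd]
        exact one_mul a.2)
    (by
      intro a
      refine EK_ext (fun p => ?_) ?_
      · rw [EK_mul_fst]
        change - a.1 (p * a.2⁻¹) + a.1 (p * a.2⁻¹) = 0
        rw [neg_add_cancel]
      · rw [EK_mul_snd]
        exact inv_mul_cancel a.2)

/-- the projection to `W` -/
def EK_snd : EK W K →* W where
  toFun x := x.2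
  map_one' := rfl
  map_mul' _ _ := rfl

end EK

/-! ### Representative functions on `W` -/

section OW

variable {W : Type} [Group W] {K : Type} [Field K] (Γ : Subgroup W) (Λ : Subgroup Kˣ)

/-- the functions on `W` whose restrictions to the cosets `Γ w` are representative -/
def OW : AddSubgroup (W → K) where
  carrier := {f | ∀ w, (fun x : Γ => f (x * w)) ∈ Orep Λ Γ}
  zero_mem' := fun _ => (Orep Λ Γ).zero_mem
  add_mem' := fun h1 h2 w => (Orep Λ Γ).add_mem (h1 w) (h2 w)
  neg_mem' := fun h w => (Orep Λ Γ).neg_mem (h w)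

variable {Γ Λ}

theorem OW_right {f : W → K} (hf : f ∈ OW Γ Λ) (v : W) : (fun w => f (w * v)) ∈ OW Γ Λ := by
  intro w
  have h := hf (w * v)
  simpa only [mul_assoc] using h

end OW

section Pot

variable {V : Type} [DecidableEq V] [Fintype V] {G : SimpleGraph V} {W : Type} [Group W]
  (R : Rac G W) {K : Type} [Field K]

/-- the hypotheses on the potential: `c u`, `u ∈ T`, is a cocycle, invariant under `C` -/
structure H1d (T C : Finset V) (c : V → W → K) : Prop where
  clique : G.IsClique (C : Set V)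
  adj : ∀ u ∈ T, ∀ a ∈ C, G.Adj u a
  inv : ∀ u ∈ T, ∀ a, a = u ∨ a ∈ C → ∀ w, c u (w * R.s a) = c u w
  coc : ∀ u ∈ T, ∀ v ∈ T, G.Adj u v → ∀ w,
    c u w + c v (w * R.s u) = c v w + c u (w * R.s v)

variable {R} {T C : Finset V} {c : V → W → K}

open Classical in
private noncomputable def gn (R : Rac G W) (T C : Finset V) (c : V → W → K) (u : V) : EK W K :=
  (if u ∈ T then c u else fun _ => 0, if u ∈ T ∪ C then R.s u else 1)

private theorem gn_fst (u : V) (p : W) : (gn R T C c u).1 p = if u ∈ T then c u p else 0 := by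
  unfold gn
  split_ifs <;> rfl

private theorem gn_snd (u : V) : (gn R T C c u).2 = if u ∈ T ∪ C then R.s u else 1 := by
  unfold gn
  congr

private theorem gn_sq [CharP K 2] (h : H1d R T C c) (u : V) : gn R T C c u * gn R T C c u = 1 := by
  refine EK_ext (fun p => ?_) ?_
  · rw [EK_mul_fst, EK_one_fst, gn_fst, gn_fst, gn_snd]
    by_cases hu : u ∈ T
    · rw [if_pos hu, if_pos (mem_union_left C hu), h.inv u hu u (Or.inl rfl)]
      simp only [if_pos hu]
      exact CharTwo.add_self_eq_zero _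
    · simp only [if_neg hu, add_zero]
  · rw [EK_mul_snd, EK_one_snd, gn_snd]
    split_ifs
    · exact R.sq u
    · exact mul_one 1

private theorem gn_comm (h : H1d R T C c) (u v : V) (huv : G.Adj u v) :
    gn R T C c u * gn R T C c v = gn R T C c v * gn R T C c u := by
  refine EK_ext (fun p => ?_) ?_
  · rw [EK_mul_fst, EK_mul_fst, gn_fst, gn_fst, gn_fst, gn_fst, gn_snd, gn_snd]
    have key : ∀ u v : V, u ∈ T → v ∉ T → (if v ∈ T ∪ C then R.s v else 1 : W) = R.s v ∧ v ∈ C ∨
        (if v ∈ T ∪ C then R.s v else 1 : W) = 1 := by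
      intro u v _ hv
      by_cases hC : v ∈ C
      · exact Or.inl ⟨if_pos (mem_union_right T hC), hC⟩
      · right
        rw [if_neg]
        intro h'
        rcases mem_union.1 h' with h' | h'
        · exact hv h'
        · exact hC h'
    by_cases hu : u ∈ T <;> by_cases hv : v ∈ T
    · simp only [if_pos hu, if_pos hv, if_pos (mem_union_left C hu), if_pos (mem_union_left C hv)]
      exact h.coc u hu v hv huv p
    · simp only [if_pos hu, if_neg hv, add_zero, zero_add]
      rcases key u v hu hv with ⟨e, hC⟩ | e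
      · rw [e, h.inv u hu v (Or.inr hC)]
      · rw [e, mul_one]
    · simp only [if_pos hv, if_neg hu, add_zero, zero_add]
      rcases key v u hv hu with ⟨e, hC⟩ | e
      · rw [e, h.inv v hv u (Or.inr hC)]
      · rw [e, mul_one]
    · simp only [if_neg hu, if_neg hv]
  · rw [EK_mul_snd, EK_mul_snd, gn_snd, gn_snd]
    split_ifs
    · exact R.comm u v huv
    · rw [mul_one, one_mul]
    · rw [mul_one, one_mul]
    · rfl

private theorem W_fg (R : Rac G W) : Group.FG W :=
  Group.fg_iff.2 ⟨Set.range R.s, R.gen, Set.finite_range R.s⟩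

/-- **potentials of representative cocycles** -/
theorem pot0 [CharP K 2] {Γ : Subgroup W} (hnorm : Γ.Normal) (hfi : Γ.FiniteIndex)
    (hret : ∀ U : Finset V, ∀ g ∈ Γ, R.r U g ∈ Γ) {Λ : Subgroup Kˣ} (h : H1d R T C c)
    (hO : ∀ u ∈ T, c u ∈ OW Γ Λ) : ∃ f ∈ OW Γ Λ, (∀ a ∈ C, ∀ w, f (w * R.s a) = f w) ∧
      ∀ u ∈ T, ∀ w, f (w * R.s u) = f w + c u w := by
  obtain ⟨Φ, hΦ⟩ := R.lift (EK W K) (gn R T C c) (fun u => gn_sq h u) fun u v => gn_comm h u v
  have h2 : ∀ w, (Φ w).2 = R.r (T ∪ C) w := by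
    have e : (EK_snd W K).comp Φ = R.r (T ∪ C) := by
      refine MonoidHom.eq_of_eqOn_dense R.gen ?_
      rintro _ ⟨u, rfl⟩
      rw [MonoidHom.comp_apply, hΦ, R.r_s]
      exact gn_snd (R := R) (T := T) (C := C) (c := c) u
    intro w
    exact DFunLike.congr_fun e w
  have hmul : ∀ w w' p, (Φ (w * w')).1 p = (Φ w).1 p + (Φ w').1 (p * R.r (T ∪ C) w) := by
    intro w w' p
    rw [map_mul, EK_mul_fst, h2]
  have hone : ∀ p, (Φ 1).1 p = 0 := by
    intro p
    rw [map_one]
    rfl
  -- the path sums are representative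
  have hF : ∀ u : W, (fun p => (Φ u).1 p) ∈ OW Γ Λ := by
    intro u
    have hu : u ∈ Subgroup.closure (Set.range R.s) := by rw [R.gen]; exact Subgroup.mem_top u
    induction hu using Subgroup.closure_induction with
    | mem x hx =>
      obtain ⟨v, rfl⟩ := hx
      by_cases hv : v ∈ T
      · have e : (fun p => (Φ (R.s v)).1 p) = c v := by
          funext p
          rw [hΦ, gn_fst, if_pos hv]
        rw [e]
        exact hO v hv
      · have e : (fun p => (Φ (R.s v)).1 p) = 0 := by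
          funext p
          rw [hΦ, gn_fst, if_neg hv]
          rfl
        rw [e]
        exact (OW Γ Λ).zero_mem
    | one =>
      have e : (fun p => (Φ 1).1 p) = 0 := funext hone
      rw [e]
      exact (OW Γ Λ).zero_mem
    | mul x y _ _ hx hy =>
      have e : (fun p => (Φ (x * y)).1 p) = (fun p => (Φ x).1 p) +
          fun p => (Φ y).1 (p * R.r (T ∪ C) x) := funext (hmul x y)
      rw [e]
      exact (OW Γ Λ).add_mem hx (OW_right hy _)
    | inv x _ hx =>
      have e : (fun p => (Φ x⁻¹).1 p) = - fun p => (Φ x).1 (p * R.r (T ∪ C) x⁻¹) := by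
        funext p
        have := hmul x⁻¹ x p
        rw [inv_mul_cancel, hone] at this
        rw [Pi.neg_apply, eq_neg_iff_add_eq_zero]
        exact this.symm
      rw [e]
      exact (OW Γ Λ).neg_mem (OW_right hx _)
  refine ⟨fun w => (Φ w⁻¹).1 w, fun w₀ => ?_, fun a ha w => ?_, fun u hu w => ?_⟩
  · -- the function is representative
    have := hnorm
    have := hfi
    have := W_fg R
    have hfg : Group.FG Γ := inferInstance
    obtain ⟨h₀, hh₀⟩ : ∃ h₀, h₀ = w₀ * R.r (T ∪ C) w₀⁻¹ := ⟨_, rfl⟩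
    let j : Γ →* Γ :=
      { toFun := fun g => ⟨h₀ * R.r (T ∪ C) g * h₀⁻¹,
          hnorm.conj_mem _ (hret _ _ g.2) h₀⟩
        map_one' := Subtype.ext (by simp)
        map_mul' := fun g g' => Subtype.ext (by
          simp only [Subgroup.coe_mul, map_mul]
          group) }
    have hj : ∀ g : Γ, ((j g : Γ) : W) = h₀ * R.r (T ∪ C) g * h₀⁻¹ := fun g => rfl
    obtain ⟨n, α, f, hα, hf, hc⟩ := decomp (Lam := Λ) j
      (fun (g : Γ) (x : Γ) => (Φ (g : W)).1 ((x : W) * h₀)) (fun g g' x => by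
        simp only [Subgroup.coe_mul]
        rw [hmul, hj]
        congr 2
        group) (fun g => hF g h₀)
    have e : (fun x : Γ => (Φ ((x : W) * w₀)⁻¹).1 ((x : W) * w₀)) =
        (fun x : Γ => (Φ w₀⁻¹).1 ((x : W) * w₀)) + fun x : Γ => ∑ i, α i x⁻¹ * f i x := by
      funext x
      rw [Pi.add_apply, mul_inv_rev, hmul]
      congr 1
      have := hc x⁻¹ x
      rw [← this, hh₀]
      simp only [Subgroup.coe_inv]
      rw [mul_assoc]
    rw [e]
    refine (Orep Λ Γ).add_mem (hF _ w₀) ?_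
    have e2 : (fun x : Γ => ∑ i, α i x⁻¹ * f i x) = ∑ i, fun x : Γ => α i x⁻¹ * f i x := by
      funext x
      rw [Finset.sum_apply]
    rw [e2]
    exact Submodule.sum_mem _ fun i _ => Orep_mul (Orep_inv (hα i)) (hf i)
  · have hu : a ∉ T := fun h' => G.loopless.irrefl a (h.adj a h' a ha)
    change (Φ (w * R.s a)⁻¹).1 (w * R.s a) = (Φ w⁻¹).1 w
    have e : (w * R.s a)⁻¹ = R.s a * w⁻¹ := by
      rw [mul_inv_rev, inv_eq_of_mul_eq_one_left (R.sq a)]
    rw [e, hmul, hΦ, gn_fst, if_neg hu, zero_add, R.r_s, if_pos (mem_union_right T ha), mul_assoc,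
      R.sq, mul_one]
  · change (Φ (w * R.s u)⁻¹).1 (w * R.s u) = (Φ w⁻¹).1 w + c u w
    have e : (w * R.s u)⁻¹ = R.s u * w⁻¹ := by
      rw [mul_inv_rev, inv_eq_of_mul_eq_one_left (R.sq u)]
    rw [e, hmul, hΦ, gn_fst, if_pos hu, R.r_s, if_pos (mem_union_left C hu), mul_assoc,
      R.sq, mul_one, h.inv u hu u (Or.inl rfl), add_comm]

/-- **potentials of representative cocycles** -/
theorem pot [CharP K 2] {Γ : Subgroup W} (hΓ : Lev R Γ) {Λ : Subgroup Kˣ} (h : H1d R T C c)
    (hO : ∀ u ∈ T, c u ∈ OW Γ Λ) : ∃ f ∈ OW Γ Λ, (∀ a ∈ C, ∀ w, f (w * R.s a) = f w) ∧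
      ∀ u ∈ T, ∀ w, f (w * R.s u) = f w + c u w := pot0 hΓ.normal hΓ.fin hΓ.ret h hO

end Pot

end Pool.Agent.S9

end

section

/-!
# Project S9, block G: effaceability
-/

set_option autoImplicit false
set_option linter.unusedSectionVars false

open Finset

namespace Pool.Agent.S9

variable {V : Type} [DecidableEq V] [Fintype V] {G : SimpleGraph V} {W : Type} [Group W]

/-- primitives of tuples of scalar cocycles -/
theorem eff_prim (R : Rac G W) {Γ : Subgroup W} (hΓ : Lev R Γ) {K : Type} [Field K] [CharP K 2]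
    {Λ : Subgroup Kˣ} {d k : ℕ} (x : Fin d → Finset V → W → K) (hO : ∀ i A, x i A ∈ OW Γ Λ)
    (hinv : ∀ i A, ∀ v ∈ A, ∀ w, x i A (w * R.s v) = x i A w)
    (hco : ∀ i (A : Finset V), G.IsClique (A : Set V) → ∀ w, gd R.s (x i) A w = 0) :
    ∃ η : Fin d → Finset V → W → K, (∀ i A, η i A ∈ OW Γ Λ) ∧
      (∀ i (A : Finset V), η i A ≠ 0 → G.IsClique (A : Set V) ∧ A.card = k) ∧
      (∀ i A, ∀ v ∈ A, ∀ w, η i A (w * R.s v) = η i A w) ∧
      ∀ i (A : Finset V), G.IsClique (A : Set V) → A.card = k + 1 → ∀ w,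
        gd R.s (η i) A w = x i A w := by
  classical
  have hM : ∀ a : K, a + a = 0 := fun a => CharTwo.add_self_eq_zero a
  have key : ∀ i, ∃ η : Finset V → W → K,
      (∀ B ⊆ (univ : Finset V), G.IsClique (B : Set V) → B.card + 1 = k + 1 →
        η B ∈ OW Γ Λ ∧ GInv R.s (B ∪ ∅) (η B)) ∧
      ∀ A ⊆ (univ : Finset V), G.IsClique (A : Set V) → A.card = k + 1 → ∀ w,
        gd R.s η A w = x i A w := by
    intro i
    refine g_ind G R.s R.sq R.comm hM (OW Γ Λ) (fun f hf v => OW_right hf (R.s v))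
      (fun T C hC hTC c hc hci hcc => pot hΓ ⟨hC, hTC, hci, hcc⟩ hc) (univ : Finset V).card univ ∅
      le_rfl ?_ (fun u _ a ha => absurd ha (notMem_empty a)) (k + 1) (Nat.le_add_left 1 k) (x i)
      (fun A _ _ _ => ⟨hO i A, fun a ha w => ?_⟩) fun A _ hA _ w => hco i A hA w
    · rw [coe_empty]
      exact Set.pairwise_empty _
    · rw [union_empty] at ha
      exact hinv i A a ha w
  choose η h1 h2 using key
  obtain ⟨η', hη'⟩ : ∃ η' : Fin d → Finset V → W → K, ∀ i A, η' i A =
      if G.IsClique (A : Set V) ∧ A.card = k then η i A else 0 := ⟨_, fun _ _ => rfl⟩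
  refine ⟨η', fun i A => ?_, fun i A hA => ?_, fun i A v hv w => ?_, fun i A hA hk w => ?_⟩
  · rw [hη']
    split_ifs with h
    · exact (h1 i A (subset_univ _) h.1 (by rw [h.2])).1
    · exact zero_mem _
  · by_contra h
    exact hA (by rw [hη', if_neg h])
  · rw [hη']
    split_ifs with h
    · exact (h1 i A (subset_univ _) h.1 (by rw [h.2])).2 v (by rw [union_empty]; exact hv) w
    · rfl
  · rw [← h2 i A (subset_univ _) hA hk w]
    refine sum_congr rfl fun v hv => ?_
    have hcl : G.IsClique ((A.erase v : Finset V) : Set V) :=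
      hA.subset (by exact_mod_cast erase_subset v A)
    have hck : (A.erase v).card = k := by
      rw [card_erase_of_mem hv, hk, Nat.add_sub_cancel]
    rw [hη', if_pos ⟨hcl, hck⟩]

/-- **Block G: effaceability** -/
theorem G_main (R : Rac G W) {Γ : Subgroup W} (hΓ : Lev R Γ) (K : Type) [Field K] [CharP K 2]
    (Λ : Subgroup Kˣ) : Eff R K Γ Λ := by
  classical
  intro k E _ _ _ ρ hρ x hx hcb
  obtain ⟨hx1, hx2, hx3⟩ := (mem_Cc R).1 hx
  have hxz : ∀ (A : Finset V) (w : W), ¬ (G.IsClique (A : Set V) ∧ A.card = k + 1) → x A w = 0 := by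
    intro A w h
    by_contra h0
    exact h (hx1 A fun h1 => h0 (by rw [h1]; rfl))
  obtain ⟨d, ⟨b⟩⟩ : ∃ d : ℕ, Nonempty (Module.Basis (Fin d) K E) :=
    ⟨_, ⟨Module.finBasis K E⟩⟩
  obtain ⟨cr, hcr⟩ : ∃ cr : Fin d → E →ₗ[K] K, ∀ i e, cr i e = b.repr e i :=
    ⟨fun i => b.coord i, fun i e => rfl⟩
  obtain ⟨η, hηO, hη1, hη2, hηd⟩ := eff_prim R hΓ (Λ := Λ) (d := d) (k := k)
    (fun i A w => cr i (x A w)) (fun i A w => by
      have h := coeff hρ (cr i) (x A w)
      refine (congrArg (· ∈ Orep Λ Γ) (funext fun g => ?_)).mp h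
      change cr i (ρ g (x A w)) = cr i (x A (g * w))
      rw [hx3])
    (fun i A v hv w => by rw [hx2 A v hv w])
    (fun i A hA w => by
      have h := congrFun (congrFun hcb A) w
      have h1 : cb R x A w = ∑ v ∈ A, (x (A.erase v) w + x (A.erase v) (w * R.s v)) := by
        rw [cb, if_pos hA]
      rw [h1] at h
      have h2 := congrArg (cr i) h
      rw [map_sum] at h2
      simp only [map_add] at h2
      rw [gd, h2]
      exact map_zero _)
  -- one triangular space with all the functions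
  have hfin : Finite (W ⧸ Γ) := by
    have := hΓ.fin
    exact Subgroup.finite_quotient_of_finiteIndex
  obtain ⟨F, hF, hmem⟩ := exists_triO (Lam := Λ) (H := Γ)
    (ι := (Fin d × Finset V × (W ⧸ Γ)) ⊕ (Fin d × Fin d))
    (fun t => Sum.elim (fun t (g : Γ) => η t.1 t.2.1 (g * t.2.2.out))
      (fun t (g : Γ) => cr t.1 (ρ g (b t.2))) t) (fun t => by
        rcases t with t | t
        · exact hηO t.1 t.2.1 t.2.2.out
        · exact coeff hρ (cr t.1) (b t.2))
  have hst := hF.stable
  have hη : ∀ i A w, (fun g : Γ => η i A (g * w)) ∈ F := by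
    intro i A w
    have h1 := hmem (Sum.inl (i, A, (w : W ⧸ Γ)))
    obtain ⟨γ, hγ⟩ : ∃ γ : Γ, w = γ * (w : W ⧸ Γ).out := by
      have h2 : ((w : W ⧸ Γ).out)⁻¹ * w ∈ Γ := by
        rw [← QuotientGroup.eq, QuotientGroup.out_eq']
      refine ⟨⟨w * ((w : W ⧸ Γ).out)⁻¹, ?_⟩, by simp⟩
      have h3 := hΓ.normal.conj_mem _ h2 ((w : W ⧸ Γ).out)
      simpa [mul_assoc] using h3
    have h4 := hst γ _ h1
    refine (congrArg (· ∈ F) (funext fun g => ?_)).mp h4
    change η i A (((g * γ : Γ) : W) * (w : W ⧸ Γ).out) = η i A (g * w)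
    conv_rhs => rw [hγ]
    rw [Subgroup.coe_mul, mul_assoc]
  have hρF : ∀ i e, (fun g : Γ => cr i (ρ g e)) ∈ F := by
    intro i e
    have h1 : (fun g : Γ => cr i (ρ g e)) = ∑ j, b.repr e j • fun g : Γ => cr i (ρ g (b j)) := by
      funext g
      conv_lhs => rw [← b.sum_repr e]
      rw [map_sum, map_sum, Finset.sum_apply]
      refine sum_congr rfl fun j _ => ?_
      rw [map_smul, map_smul]
      rfl
    rw [h1]
    exact Submodule.sum_mem _ fun j _ => Submodule.smul_mem _ _ (hmem (Sum.inr (i, j)))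
  refine ⟨Fin d → F, inferInstance, inferInstance, hF.finiteDimensional d, rtF F hst d,
    { toFun := fun e i => ⟨fun g => cr i (ρ g e), hρF i e⟩
      map_add' := fun e e' => by
        funext i
        refine Subtype.ext (funext fun g => ?_)
        change cr i (ρ g (e + e')) = cr i (ρ g e) + cr i (ρ g e')
        rw [map_add, map_add]
      map_smul' := fun c e => by
        funext i
        refine Subtype.ext (funext fun g => ?_)
        change cr i (ρ g (c • e)) = c • cr i (ρ g e)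
        rw [map_smul, map_smul] },
    fun A w i => ⟨fun g => η i A (g * w), hη i A w⟩, tri_pow hF d, ?_, ?_, ?_, ?_⟩
  · -- injectivity
    intro e e' h
    refine b.repr.injective (Finsupp.ext fun i => ?_)
    have h1 := congrFun (congrArg Subtype.val (congrFun h i)) 1
    change cr i (ρ 1 e) = cr i (ρ 1 e') at h1
    rw [map_one] at h1
    rw [← hcr, ← hcr]
    exact h1
  · -- equivariance
    intro g e
    funext i
    refine Subtype.ext (funext fun x => ?_)
    change cr i (ρ x (ρ g e)) = cr i (ρ (x * g) e)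
    rw [map_mul]
    rfl
  · -- the cochain
    refine ⟨fun A hA => ?_, fun A v hv w => ?_, fun A g w => ?_⟩
    · by_contra h
      refine hA (funext fun w => funext fun i => Subtype.ext (funext fun g => ?_))
      change η i A (g * w) = 0
      have h0 : η i A = 0 := by
        by_contra h0
        exact h (hη1 i A h0)
      rw [h0]
      rfl
    · funext i
      refine Subtype.ext (funext fun g => ?_)
      change η i A (g * (w * R.s v)) = η i A (g * w)
      rw [← mul_assoc, hη2 i A v hv]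
    · funext i
      refine Subtype.ext (funext fun x => ?_)
      change η i A (x * (g * w)) = η i A (((x * g : Γ) : W) * w)
      rw [Subgroup.coe_mul, mul_assoc]
  · -- the coboundary
    intro A w
    funext i
    refine Subtype.ext (funext fun g => ?_)
    change _ = cr i (ρ g (x A w))
    rw [← hx3]
    by_cases hA : G.IsClique (A : Set V)
    · rw [cb, if_pos hA, Finset.sum_apply]
      have e1 : ∀ (s : Finset V) (f : V → F), ((∑ v ∈ s, f v : F) : Γ → K) g =
          ∑ v ∈ s, (f v : Γ → K) g := by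
        intro s f
        rw [AddSubmonoidClass.coe_finsetSum, Finset.sum_apply]
      rw [e1]
      change ∑ v ∈ A, (η i (A.erase v) (g * w) + η i (A.erase v) (g * (w * R.s v))) = _
      simp only [← mul_assoc]
      by_cases hk : A.card = k + 1
      · exact hηd i A hA hk (g * w)
      · rw [hxz A _ fun h => hk h.2, map_zero]
        refine sum_eq_zero fun v hv => ?_
        have h0 : η i (A.erase v) = 0 := by
          by_contra h0
          have h1 := (hη1 i _ h0).2
          rw [card_erase_of_mem hv] at h1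
          have h2 := card_pos.2 ⟨v, hv⟩
          omega
        rw [h0]
        simp
    · rw [cb, if_neg hA, hxz A _ fun h => hA h.1, map_zero]
      rfl

end Pool.Agent.S9

end
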