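import Pool.Agent.H71.TSG.M02

/-! The parts of this file: H4.Atiyah.Defs, H4.Atiyah.Ess, H4.Atiyah.VN, H73.HVN.CoxDefs, H73.HVN.Exch, H73.HVN.Geom, H73.HVN.Parab, H73.HVN.Two, S10.DuMain_2. -/

section

/-!
# Strong Atiyah conjecture for `GL_m(ℤ)` : common definitions
-/

set_option autoImplicit false

open Filter Topology

namespace Pool.Agent.H4.Atiyah

/-! ## Norms, matrices of group algebras -/

/-- Euclidean norm of a finite complex vector. -/
noncomputable def nrm {ι : Type*} [Fintype ι] (x : ι → ℂ) : ℝ := Real.sqrt (∑ i, ‖x i‖ ^ 2)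

/-- The matrix over `F` of the right multiplication by a matrix `A` over the group algebra `F[Q]`
on row vectors of functions on `Q` (row vectors `x : k × Q → F`, `(x ᵥ* op A) (i, h) = ∑_{j,g} x (j, g) A j i (g⁻¹ h)`). -/
def op {F : Type*} [Semiring F] {Q : Type*} [Group Q] {k n : Type*}
    (A : Matrix k n (MonoidAlgebra F Q)) : Matrix (k × Q) (n × Q) F :=
  Matrix.of fun x y => (A x.1 y.1).coeff (x.2⁻¹ * y.2)

/-! ## The ultrafilter -/

/-! ## Systems of finite quotients, towers -/

/-- A group with a sequence of finite quotients. -/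
structure Sys where
  /-- the group -/
  G : Type
  [grpG : Group G]
  /-- the finite quotients -/
  Q : ℕ → Type
  [grpQ : ∀ j, Group (Q j)]
  [finQ : ∀ j, Fintype (Q j)]
  [decQ : ∀ j, DecidableEq (Q j)]
  /-- the projections -/
  π : ∀ j, G →* Q j
  π_surj : ∀ j, Function.Surjective (π j)
  /-- the transition maps -/
  tr : ∀ j, Q (j + 1) →* Q j
  tr_π : ∀ j g, tr j (π (j + 1) g) = π j g

attribute [instance] Sys.grpG Sys.grpQ Sys.finQ Sys.decQ

/-- `IsTower p 𝒯 d x` : the group `𝒯.G` behaves like a uniform pro-`p` group of dimension `d` with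
ordered generators `x`, where `𝒯.Q j` is the quotient by the `p^j`-th powers and commutators are
trivial in level `2`. -/
structure IsTower (p : ℕ) (𝒯 : Sys) (d : ℕ) (x : Fin d → 𝒯.G) : Prop where
  card : ∀ j, Fintype.card (𝒯.Q j) = p ^ (j * d)
  pow : ∀ j l, 𝒯.π j (x l ^ p ^ j) = 1
  gen : ∀ j (q : 𝒯.Q j), ∃ a : Fin d → ℕ, (∀ l, a l < p ^ j) ∧
    𝒯.π j ((List.ofFn fun l => x l ^ a l).prod) = q
  comm : ∀ l l', 𝒯.π 2 (x l * x l' * (x l)⁻¹ * (x l')⁻¹) = 1

/-! ## Matrix rank functions -/

/-! ## The algebraic ultraproduct -/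

section UAlg

variable (F : Type) [Field F] (X : ℕ → Type) [∀ j, Fintype (X j)] [∀ j, DecidableEq (X j)]

variable {F X}

end UAlg

/-! ## The analytic ultraproduct (essentially bounded sequences) -/

section UEss

end UEss

end Pool.Agent.H4.Atiyah

end

section

/-!
# Essentially bounded sequences of matrices
-/

set_option autoImplicit false

open Filter Topology

namespace Pool.Agent.H4.Atiyah

section nrm

variable {ι κ : Type*} [Fintype ι] [Fintype κ]

theorem nrm_nonneg (x : ι → ℂ) : 0 ≤ nrm x := Real.sqrt_nonneg _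

theorem nrm_sq (x : ι → ℂ) : nrm x ^ 2 = ∑ i, ‖x i‖ ^ 2 :=
  Real.sq_sqrt (Finset.sum_nonneg fun _ _ => by positivity)

end nrm

section SmallOn

variable {l m n : Type*} [Fintype l] [Fintype m] [Fintype n]

end SmallOn

section UEss

variable (X : ℕ → Type) [∀ j, Fintype (X j)] [∀ j, DecidableEq (X j)]

variable {X}

end UEss

end Pool.Agent.H4.Atiyah

end

section

/-!
# The von Neumann dimension of the kernel and its approximation by finite quotients (M06)

Parts: powers of a contraction; spectral counting for finite matrices; matrices over group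
algebras; right multiplication on `ℓ²`; the approximation theorem `vnDim_approx`.
-/

set_option autoImplicit false
set_option linter.unusedSectionVars false

/-!
# Kernel projection as the limit of the powers of a contraction
-/

section VNAbsPart

open Filter Topology

namespace Pool.Agent.H4.Atiyah

section Abs

variable {H H' : Type*} [NormedAddCommGroup H] [InnerProductSpace ℂ H]
  [NormedAddCommGroup H'] [InnerProductSpace ℂ H']

/-- The contraction `1 - L' L / c`. -/
noncomputable def Sop (L : H →L[ℂ] H') (L' : H' →L[ℂ] H) (c : ℝ) : H →L[ℂ] H :=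
  1 - ((c⁻¹ : ℝ) : ℂ) • (L' ∘L L)

variable {L : H →L[ℂ] H'} {L' : H' →L[ℂ] H} {c : ℝ}

theorem Sop_apply (x : H) : Sop L L' c x = x - ((c⁻¹ : ℝ) : ℂ) • L' (L x) := rfl

theorem Sop_symm (hadj : ∀ x y, (inner ℂ (L x) y) = (inner ℂ x (L' y))) (x y : H) :
    (inner ℂ (Sop L L' c x) y) = (inner ℂ x (Sop L L' c y)) := by
  rw [Sop_apply, Sop_apply, inner_sub_left, inner_sub_right, inner_smul_left, inner_smul_right,
    Complex.conj_ofReal]
  congr 2
  rw [← hadj, ← inner_conj_symm, ← hadj, inner_conj_symm]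

theorem Sop_pow_symm (hadj : ∀ x y, (inner ℂ (L x) y) = (inner ℂ x (L' y))) (m : ℕ) (x y : H) :
    (inner ℂ ((Sop L L' c ^ m) x) y) = (inner ℂ x ((Sop L L' c ^ m) y)) := by
  induction m generalizing x y with
  | zero => simp
  | succ m ih =>
    rw [pow_succ, mul_apply_eq_comp, ih, Sop_symm hadj]
    rw [← mul_apply_eq_comp, ← pow_succ, pow_succ', mul_apply_eq_comp]

theorem norm_Sop_sq (hadj : ∀ x y, (inner ℂ (L x) y) = (inner ℂ x (L' y))) (hc : 0 < c)
    (hL' : ∀ y, ‖L' y‖ ^ 2 ≤ c * ‖y‖ ^ 2) (x : H) :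
    ‖Sop L L' c x‖ ^ 2 ≤ ‖x‖ ^ 2 - c⁻¹ * ‖L x‖ ^ 2 := by
  rw [Sop_apply, @norm_sub_sq ℂ, inner_smul_right, ← hadj, norm_smul, inner_self_eq_norm_sq_to_K]
  have h1 := hL' (L x)
  have h2 : RCLike.re (((c⁻¹ : ℝ) : ℂ) * ((‖L x‖ : ℂ)) ^ 2) = c⁻¹ * ‖L x‖ ^ 2 := by
    rw [← Complex.ofReal_pow, ← Complex.ofReal_mul]
    exact Complex.ofReal_re _
  have h3 : ‖((c⁻¹ : ℝ) : ℂ)‖ = c⁻¹ := by
    rw [Complex.norm_real, Real.norm_of_nonneg (by positivity)]
  have h4 : (c⁻¹ * ‖L' (L x)‖) ^ 2 ≤ c⁻¹ * ‖L x‖ ^ 2 := by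
    calc (c⁻¹ * ‖L' (L x)‖) ^ 2 = c⁻¹ ^ 2 * ‖L' (L x)‖ ^ 2 := by ring
      _ ≤ c⁻¹ ^ 2 * (c * ‖L x‖ ^ 2) := by gcongr
      _ = c⁻¹ * ‖L x‖ ^ 2 := by field_simp
  rw [h3]
  erw [h2]
  linarith

theorem norm_Sop_le (hadj : ∀ x y, (inner ℂ (L x) y) = (inner ℂ x (L' y))) (hc : 0 < c)
    (hL' : ∀ y, ‖L' y‖ ^ 2 ≤ c * ‖y‖ ^ 2) (x : H) : ‖Sop L L' c x‖ ≤ ‖x‖ := by
  have h := norm_Sop_sq hadj hc hL' x
  have h1 : 0 ≤ c⁻¹ * ‖L x‖ ^ 2 := by positivity
  exact le_of_sq_le_sq (by linarith) (norm_nonneg _)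

/-- the squared norms of the powers -/
noncomputable def bet (L : H →L[ℂ] H') (L' : H' →L[ℂ] H) (c : ℝ) (x : H) (m : ℕ) : ℝ :=
  ‖(Sop L L' c ^ m) x‖ ^ 2

theorem bet_antitone (hadj : ∀ x y, (inner ℂ (L x) y) = (inner ℂ x (L' y))) (hc : 0 < c)
    (hL' : ∀ y, ‖L' y‖ ^ 2 ≤ c * ‖y‖ ^ 2) (x : H) : Antitone (bet L L' c x) := by
  apply antitone_nat_of_succ_le
  intro m
  unfold bet
  rw [show (Sop L L' c ^ (m + 1)) x = Sop L L' c ((Sop L L' c ^ m) x) by
    rw [pow_succ', mul_apply_eq_comp]]
  have := norm_Sop_le hadj hc hL' ((Sop L L' c ^ m) x)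
  gcongr

theorem inner_pow (hadj : ∀ x y, (inner ℂ (L x) y) = (inner ℂ x (L' y))) (x : H) {a b m : ℕ} (h : a + b = m + m) :
    (inner ℂ ((Sop L L' c ^ a) x) ((Sop L L' c ^ b) x)) = (bet L L' c x m : ℂ) := by
  rw [Sop_pow_symm hadj, ← mul_apply_eq_comp, ← pow_add, h, pow_add,
    mul_apply_eq_comp, ← Sop_pow_symm hadj, inner_self_eq_norm_sq_to_K]
  unfold bet
  push_cast
  rfl

theorem norm_sub_pow_sq (hadj : ∀ x y, (inner ℂ (L x) y) = (inner ℂ x (L' y))) (x : H) {a b m : ℕ}
    (h : a + b = m + m) :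
    ‖(Sop L L' c ^ a) x - (Sop L L' c ^ b) x‖ ^ 2
      = bet L L' c x a - 2 * bet L L' c x m + bet L L' c x b := by
  rw [@norm_sub_sq ℂ, inner_pow hadj x h]
  rfl

theorem pow_fix {z : H} (hz : L z = 0) (m : ℕ) : (Sop L L' c ^ m) z = z := by
  induction m with
  | zero => simp
  | succ m ih => rw [pow_succ', mul_apply_eq_comp, ih, Sop_apply, hz]; simp

theorem le_norm_sub_sq (hadj : ∀ x y, (inner ℂ (L x) y) = (inner ℂ x (L' y))) (x : H) {z : H} (hz : L z = 0)
    (m : ℕ) : ‖x‖ ^ 2 - bet L L' c x m ≤ ‖x - z‖ ^ 2 := by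
  have h1 : (inner ℂ x z) = (inner ℂ ((Sop L L' c ^ m) x) z) := by
    rw [Sop_pow_symm hadj, pow_fix hz]
  have h2 : ‖(inner ℂ x z)‖ ≤ ‖(Sop L L' c ^ m) x‖ * ‖z‖ := by
    rw [h1]; exact norm_inner_le_norm _ _
  have h3 : RCLike.re (inner ℂ x z) ≤ ‖(Sop L L' c ^ m) x‖ * ‖z‖ :=
    (RCLike.re_le_norm _).trans h2
  rw [@norm_sub_sq ℂ]
  unfold bet
  nlinarith [sq_nonneg (‖(Sop L L' c ^ m) x‖ - ‖z‖)]

/-- The squared norms of the powers of `1 - L' L / c` applied to `x` decrease to
`‖x‖² - dist(x, ker L)²`. -/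
theorem tendsto_bet [CompleteSpace H] (hadj : ∀ x y, (inner ℂ (L x) y) = (inner ℂ x (L' y))) (hc : 0 < c)
    (hL' : ∀ y, ‖L' y‖ ^ 2 ≤ c * ‖y‖ ^ 2) (x : H) :
    Tendsto (bet L L' c x) atTop (𝓝 (‖x‖ ^ 2 - Metric.infDist x {z | L z = 0} ^ 2)) := by
  have hanti := bet_antitone hadj hc hL' x
  have hbdd : BddBelow (Set.range (bet L L' c x)) := by
    refine ⟨0, ?_⟩
    rintro _ ⟨m, rfl⟩
    exact sq_nonneg _
  have hlim := tendsto_atTop_ciInf hanti hbdd
  set ℓ := ⨅ m, bet L L' c x m with hℓ
  have hle : ∀ m, ℓ ≤ bet L L' c x m := fun m => ciInf_le hbdd m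
  -- the sequence of even powers is Cauchy
  have hcau : CauchySeq fun m : ℕ => (Sop L L' c ^ (m + m)) x := by
    refine cauchySeq_of_le_tendsto_0 (fun N => Real.sqrt (2 * (bet L L' c x N - ℓ))) ?_ ?_
    · intro a b N ha hb
      rw [dist_eq_norm]
      apply Real.le_sqrt_of_sq_le
      rw [norm_sub_pow_sq hadj x (show (a + a) + (b + b) = (a + b) + (a + b) by ring)]
      have e1 := hanti (show N ≤ a + a by omega)
      have e2 := hanti (show N ≤ b + b by omega)
      have e3 := hle (a + b)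
      linarith
    · have h0 : Tendsto (fun N => 2 * (bet L L' c x N - ℓ)) atTop (𝓝 (2 * (ℓ - ℓ))) :=
        (hlim.sub_const ℓ).const_mul 2
      rw [sub_self, mul_zero] at h0
      have := (Real.continuous_sqrt.tendsto 0).comp h0
      rwa [Real.sqrt_zero] at this
  obtain ⟨y, hy⟩ := cauchySeq_tendsto_of_complete hcau
  have hb2 : Tendsto (fun m : ℕ => bet L L' c x (m + m)) atTop (𝓝 ℓ) :=
    hlim.comp (tendsto_atTop_mono (fun n => Nat.le_add_left n n) tendsto_id)
  have hb3 : Tendsto (fun m : ℕ => bet L L' c x (m + m + 1)) atTop (𝓝 ℓ) :=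
    hlim.comp (tendsto_atTop_mono (fun n => by show n ≤ n + n + 1; omega) tendsto_id)
  -- the limit is in the kernel
  have hLy : L y = 0 := by
    have h1 : Tendsto (fun m : ℕ => ‖L ((Sop L L' c ^ (m + m)) x)‖ ^ 2) atTop (𝓝 (‖L y‖ ^ 2)) :=
      (((L.continuous.tendsto y).comp hy).norm).pow 2
    have h2 : Tendsto (fun m : ℕ => c * (bet L L' c x (m + m) - bet L L' c x (m + m + 1))) atTop
        (𝓝 (c * (ℓ - ℓ))) := (hb2.sub hb3).const_mul c
    rw [sub_self, mul_zero] at h2
    have h3 : ‖L y‖ ^ 2 ≤ 0 := by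
      refine le_of_tendsto_of_tendsto' h1 h2 fun m => ?_
      have h4 := norm_Sop_sq hadj hc hL' ((Sop L L' c ^ (m + m)) x)
      unfold bet
      rw [pow_succ' _ (m + m), mul_apply_eq_comp]
      have h5 : c * (c⁻¹ * ‖L ((Sop L L' c ^ (m + m)) x)‖ ^ 2)
          = ‖L ((Sop L L' c ^ (m + m)) x)‖ ^ 2 := by field_simp
      rw [← h5]
      exact mul_le_mul_of_nonneg_left (by linarith) hc.le
    have h6 : ‖L y‖ = 0 := by
      have := sq_nonneg ‖L y‖
      exact pow_eq_zero_iff (two_ne_zero) |>.1 (le_antisymm h3 this)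
    exact norm_eq_zero.1 h6
  -- distance
  have hdist : ‖x - y‖ ^ 2 = ‖x‖ ^ 2 - ℓ := by
    have h1 : Tendsto (fun m : ℕ => ‖x - (Sop L L' c ^ (m + m)) x‖ ^ 2) atTop
        (𝓝 (‖x - y‖ ^ 2)) := ((hy.const_sub x).norm).pow 2
    have h2 : ∀ m : ℕ, ‖x - (Sop L L' c ^ (m + m)) x‖ ^ 2
        = ‖x‖ ^ 2 - 2 * bet L L' c x m + bet L L' c x (m + m) := by
      intro m
      have := norm_sub_pow_sq (L := L) (L' := L') (c := c) hadj x (a := 0) (b := m + m) (m := m)
        (by omega)
      rw [pow_zero, one_apply_eq_self] at this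
      rw [this]
      unfold bet
      simp
    have h3 : Tendsto (fun m : ℕ => ‖x‖ ^ 2 - 2 * bet L L' c x m + bet L L' c x (m + m)) atTop
        (𝓝 (‖x‖ ^ 2 - 2 * ℓ + ℓ)) := ((hlim.const_mul 2).const_sub _).add hb2
    simp_rw [h2] at h1
    rw [tendsto_nhds_unique h1 h3]
    ring
  have hinf : Metric.infDist x {z | L z = 0} = ‖x - y‖ := by
    apply le_antisymm
    · rw [← dist_eq_norm]
      exact Metric.infDist_le_dist_of_mem hLy
    · rw [Metric.le_infDist ⟨y, hLy⟩]
      intro z hz
      rw [dist_eq_norm]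
      have h1 : ‖x - y‖ ^ 2 ≤ ‖x - z‖ ^ 2 := by
        rw [hdist]
        have h2 : Tendsto (fun m => ‖x‖ ^ 2 - bet L L' c x m) atTop (𝓝 (‖x‖ ^ 2 - ℓ)) :=
          hlim.const_sub _
        exact le_of_tendsto' h2 fun m => le_norm_sub_sq hadj x hz m
      exact le_of_sq_le_sq h1 (norm_nonneg _)
  rw [hinf, hdist, sub_sub_cancel]
  exact hlim

end Abs

end Pool.Agent.H4.Atiyah

end VNAbsPart

/-!
# Spectral counting for finite matrices
-/

section VNFinPart

open Filter Topology Matrix
open scoped ComplexOrder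

namespace Pool.Agent.H4.Atiyah

section Fin

variable {α β : Type*} [Fintype α] [Fintype β] [DecidableEq α]

theorem nrm_sq_complex {ι : Type*} [Fintype ι] (x : ι → ℂ) :
    ((nrm x ^ 2 : ℝ) : ℂ) = x ⬝ᵥ star x := by
  rw [nrm_sq, dotProduct]
  push_cast
  apply Finset.sum_congr rfl
  intro i _
  rw [Pi.star_apply]
  exact (Complex.mul_conj' (x i)).symm

theorem nrm_vecMul_sq (x : α → ℂ) (M : Matrix α β ℂ) :
    ((nrm (x ᵥ* M) ^ 2 : ℝ) : ℂ) = (x ᵥ* (M * Mᴴ)) ⬝ᵥ star x := by
  rw [nrm_sq_complex, star_vecMul, dotProduct_mulVec, vecMul_vecMul]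

variable (M : Matrix α β ℂ)

/-- Hermitian square -/
theorem herm_sq : (M * Mᴴ).IsHermitian := isHermitian_mul_conjTranspose_self M

/-- the unitary diagonalizing `M Mᴴ` -/
noncomputable def uu : Matrix α α ℂ := ((herm_sq M).eigenvectorUnitary : Matrix α α ℂ)

/-- the eigenvalues of `M Mᴴ` -/
noncomputable def vnEv (i : α) : ℝ := (herm_sq M).eigenvalues i

theorem uu_mul_star : uu M * star (uu M) = 1 := by
  unfold uu
  exact Unitary.coe_mul_star_self _

theorem star_mul_uu : star (uu M) * uu M = 1 := by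
  unfold uu
  exact Unitary.coe_star_mul_self _

theorem spec : M * Mᴴ = uu M * diagonal (fun i => (vnEv M i : ℂ)) * star (uu M) := by
  have := (herm_sq M).spectral_theorem
  rw [Unitary.conjStarAlgAut_apply] at this
  exact this

theorem nrm_uu (x : α → ℂ) : nrm (x ᵥ* uu M) ^ 2 = nrm x ^ 2 := by
  have h : ((nrm (x ᵥ* uu M) ^ 2 : ℝ) : ℂ) = ((nrm x ^ 2 : ℝ) : ℂ) := by
    rw [nrm_vecMul_sq, ← star_eq_conjTranspose, uu_mul_star, vecMul_one, nrm_sq_complex]
  exact_mod_cast h

theorem nrm_vecMul_ev (x : α → ℂ) :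
    nrm (x ᵥ* M) ^ 2 = ∑ i, vnEv M i * ‖(x ᵥ* uu M) i‖ ^ 2 := by
  have h : ((nrm (x ᵥ* M) ^ 2 : ℝ) : ℂ) = ((∑ i, vnEv M i * ‖(x ᵥ* uu M) i‖ ^ 2 : ℝ) : ℂ) := by
    rw [nrm_vecMul_sq, spec, ← vecMul_vecMul, ← dotProduct_mulVec, star_eq_conjTranspose,
      ← star_vecMul, ← vecMul_vecMul, dotProduct]
    push_cast
    apply Finset.sum_congr rfl
    intro i _
    rw [vecMul_diagonal, Pi.star_apply, ← Complex.mul_conj']
    show _ * _ * (starRingEnd ℂ) _ = _
    ring
  exact_mod_cast h

theorem ev_nonneg (i : α) : 0 ≤ vnEv M i :=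
  (posSemidef_self_mul_conjTranspose M).eigenvalues_nonneg i

theorem ev_le {c : ℝ} (hM : ∀ x : α → ℂ, nrm (x ᵥ* M) ^ 2 ≤ c * nrm x ^ 2) (i : α) :
    vnEv M i ≤ c := by
  have h1 : (Pi.single i (1 : ℂ) ᵥ* star (uu M)) ᵥ* uu M = Pi.single i 1 := by
    rw [vecMul_vecMul, star_mul_uu, vecMul_one]
  have h2 : nrm (Pi.single i (1 : ℂ)) ^ 2 = 1 := by
    rw [nrm_sq, Finset.sum_eq_single i]
    · simp
    · intro j _ hj; simp [hj]
    · simp
  have h3 := hM (Pi.single i (1 : ℂ) ᵥ* star (uu M))
  rw [nrm_vecMul_ev, ← nrm_uu M, h1, h2, mul_one] at h3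
  rw [Finset.sum_eq_single i] at h3
  · simpa using h3
  · intro j _ hj; simp [hj]
  · simp

/-- traces of the powers of `1 - M Mᴴ / c` -/
theorem trace_pow (c : ℝ) (r : ℕ) :
    ((1 - ((c⁻¹ : ℝ) : ℂ) • (M * Mᴴ)) ^ r).trace = ((∑ i, (1 - c⁻¹ * vnEv M i) ^ r : ℝ) : ℂ) := by
  have h1 : (1 - ((c⁻¹ : ℝ) : ℂ) • (M * Mᴴ))
      = uu M * diagonal (fun i => ((1 - c⁻¹ * vnEv M i : ℝ) : ℂ)) * star (uu M) := by
    have h2 : diagonal (fun i => ((1 - c⁻¹ * vnEv M i : ℝ) : ℂ))
        = 1 - ((c⁻¹ : ℝ) : ℂ) • diagonal (fun i => (vnEv M i : ℂ)) := by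
      rw [← diagonal_one, ← diagonal_smul, diagonal_sub]
      congr 1
      funext i
      simp
    rw [h2, mul_sub, sub_mul, mul_one, uu_mul_star, Matrix.mul_smul, Matrix.smul_mul, ← spec]
  have h3 : ∀ r : ℕ, (1 - ((c⁻¹ : ℝ) : ℂ) • (M * Mᴴ)) ^ r
      = uu M * diagonal (fun i => ((1 - c⁻¹ * vnEv M i : ℝ) : ℂ) ^ r) * star (uu M) := by
    intro r
    induction r with
    | zero => simp [uu_mul_star]
    | succ r ih =>
      rw [pow_succ, ih]
      rw [h1]
      have : uu M * diagonal (fun i => ((1 - c⁻¹ * vnEv M i : ℝ) : ℂ) ^ r) * star (uu M) *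
          (uu M * diagonal (fun i => ((1 - c⁻¹ * vnEv M i : ℝ) : ℂ)) * star (uu M))
          = uu M * diagonal (fun i => ((1 - c⁻¹ * vnEv M i : ℝ) : ℂ) ^ r) * (star (uu M) *
          uu M) * diagonal (fun i => ((1 - c⁻¹ * vnEv M i : ℝ) : ℂ)) * star (uu M) := by
        simp only [mul_assoc]
      rw [this, star_mul_uu, mul_one, mul_assoc (uu M), diagonal_mul_diagonal]
      simp only [pow_succ]
  rw [h3, trace_mul_comm, ← mul_assoc, star_mul_uu, one_mul, trace_diagonal]
  push_cast
  rfl

/-- Dimension of the left kernel is bounded by the trace. -/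
theorem card_sub_rank_le (c : ℝ) (m : ℕ) :
    (Fintype.card α : ℝ) - M.rank ≤ ∑ i, (1 - c⁻¹ * vnEv M i) ^ (m + m) := by
  classical
  have h1 : M.rank = Fintype.card {i // vnEv M i ≠ 0} := by
    rw [← rank_self_mul_conjTranspose M]
    exact (herm_sq M).rank_eq_card_non_zero_eigs
  have h2 : (Fintype.card α : ℝ) - M.rank = ∑ i, if vnEv M i = 0 then (1 : ℝ) else 0 := by
    rw [h1, Finset.sum_ite, Finset.sum_const_zero, add_zero, Finset.sum_const, nsmul_eq_mul,
      mul_one, Fintype.card_subtype]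
    have h3 := Finset.card_filter_add_card_filter_not (s := (Finset.univ : Finset α))
      (p := fun i => vnEv M i = 0)
    rw [Finset.card_univ] at h3
    rw [← h3]
    push_cast
    ring
  rw [h2]
  apply Finset.sum_le_sum
  intro i _
  split_ifs with h
  · rw [h]; simp
  · exact Even.pow_nonneg ⟨m, rfl⟩ _

/-- A large space on which `M` is small. -/
theorem exists_small_space {c : ℝ} (hc : 0 < c)
    (hM : ∀ x : α → ℂ, nrm (x ᵥ* M) ^ 2 ≤ c * nrm x ^ 2) {ε : ℝ} (hε : 0 < ε) (m : ℕ) :
    ∃ V : Submodule ℂ (α → ℂ),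
      (∑ i, (1 - c⁻¹ * vnEv M i) ^ (m + m)) - Fintype.card α * (1 - c⁻¹ * ε ^ 2) ^ (m + m)
        ≤ Module.finrank ℂ V ∧ ∀ x ∈ V, nrm (x ᵥ* M) ≤ ε * nrm x := by
  classical
  set f : (α → ℂ) →ₗ[ℂ] ({i // ε ^ 2 < vnEv M i} → ℂ) :=
    (LinearMap.funLeft ℂ ℂ (fun i : {i // ε ^ 2 < vnEv M i} => (i : α))) ∘ₗ (uu M).vecMulLinear
    with hf
  have hfx : ∀ x i, f x i = (x ᵥ* uu M) i.1 := fun x i => rfl
  refine ⟨LinearMap.ker f, ?_, ?_⟩
  · have h1 := LinearMap.finrank_range_add_finrank_ker f
    have h2 : Module.finrank ℂ (LinearMap.range f) ≤ Fintype.card {i // ε ^ 2 < vnEv M i} := by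
      calc Module.finrank ℂ (LinearMap.range f)
          ≤ Module.finrank ℂ ({i // ε ^ 2 < vnEv M i} → ℂ) := Submodule.finrank_le _
        _ = _ := Module.finrank_fintype_fun_eq_card ℂ
    rw [Module.finrank_fintype_fun_eq_card] at h1
    have h3 : (Fintype.card α : ℝ) - Fintype.card {i // ε ^ 2 < vnEv M i}
        ≤ Module.finrank ℂ (LinearMap.ker f) := by
      have : (Fintype.card α : ℝ) = Module.finrank ℂ (LinearMap.range f)
          + Module.finrank ℂ (LinearMap.ker f) := by exact_mod_cast h1.symm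
      have h2' : (Module.finrank ℂ (LinearMap.range f) : ℝ)
          ≤ Fintype.card {i // ε ^ 2 < vnEv M i} := by exact_mod_cast h2
      linarith
    refine le_trans ?_ h3
    have h4 : (Fintype.card α : ℝ) - Fintype.card {i // ε ^ 2 < vnEv M i}
        = ∑ i, if ε ^ 2 < vnEv M i then (0 : ℝ) else 1 := by
      rw [Finset.sum_ite, Finset.sum_const_zero, zero_add, Finset.sum_const, nsmul_eq_mul,
        mul_one, Fintype.card_subtype]
      have h3 := Finset.card_filter_add_card_filter_not (s := (Finset.univ : Finset α))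
        (p := fun i => ε ^ 2 < vnEv M i)
      rw [Finset.card_univ] at h3
      rw [← h3]
      push_cast
      ring
    rw [h4, sub_le_iff_le_add]
    have h5 : (Fintype.card α : ℝ) * (1 - c⁻¹ * ε ^ 2) ^ (m + m)
        = ∑ _i : α, (1 - c⁻¹ * ε ^ 2) ^ (m + m) := by
      rw [Finset.sum_const, Finset.card_univ, nsmul_eq_mul]
    rw [h5, ← Finset.sum_add_distrib]
    apply Finset.sum_le_sum
    intro i _
    have e1 := ev_nonneg M i
    have e2 := ev_le M hM i
    have e3 : c⁻¹ * vnEv M i ≤ 1 := by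
      rw [inv_mul_le_iff₀ hc, mul_one]; exact e2
    have e4 : 0 ≤ c⁻¹ * vnEv M i := by positivity
    split_ifs with h
    · rw [zero_add]
      have e5 : c⁻¹ * ε ^ 2 ≤ c⁻¹ * vnEv M i := by gcongr
      exact pow_le_pow_left₀ (by linarith) (by linarith) _
    · have e6 : (1 - c⁻¹ * vnEv M i) ^ (m + m) ≤ 1 := pow_le_one₀ (by linarith) (by linarith)
      have e7 : 0 ≤ (1 - c⁻¹ * ε ^ 2) ^ (m + m) := Even.pow_nonneg ⟨m, rfl⟩ _
      linarith
  · intro x hx
    have hx' : ∀ i, ε ^ 2 < vnEv M i → (x ᵥ* uu M) i = 0 := by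
      intro i hi
      have := congrFun (LinearMap.mem_ker.1 hx) ⟨i, hi⟩
      rwa [hfx] at this
    have h1 : nrm (x ᵥ* M) ^ 2 ≤ (ε * nrm x) ^ 2 := by
      rw [nrm_vecMul_ev, mul_pow, ← nrm_uu M x, nrm_sq, Finset.mul_sum]
      apply Finset.sum_le_sum
      intro i _
      by_cases h : ε ^ 2 < vnEv M i
      · rw [hx' i h]; simp
      · rw [not_lt] at h; gcongr
    exact le_of_sq_le_sq h1 (mul_nonneg hε.le (nrm_nonneg _))

end Fin

end Pool.Agent.H4.Atiyah

end VNFinPart

/-!
# Matrices over group algebras: adjoints, traces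
-/

section VNGrpPart

open Filter Topology Matrix
open scoped ComplexOrder ComplexConjugate

namespace Pool.Agent.H4.Atiyah

section Grp

/-- The adjoint of an element of the group algebra. -/
noncomputable def astar {G : Type*} [Group G] (a : MonoidAlgebra ℂ G) : MonoidAlgebra ℂ G :=
  MonoidAlgebra.ofCoeff ((a.coeff.equivMapDomain (Equiv.inv G)).mapRange (starRingEnd ℂ)
    (map_zero _))

theorem astar_coeff {G : Type*} [Group G] (a : MonoidAlgebra ℂ G) (g : G) :
    (astar a).coeff g = conj (a.coeff g⁻¹) := rfl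

theorem astar_zero {G : Type*} [Group G] : astar (0 : MonoidAlgebra ℂ G) = 0 := by
  apply MonoidAlgebra.coeff_injective
  ext g; simp [astar_coeff]

theorem astar_add {G : Type*} [Group G] (a b : MonoidAlgebra ℂ G) :
    astar (a + b) = astar a + astar b := by
  apply MonoidAlgebra.coeff_injective
  ext g; simp [astar_coeff]

theorem astar_single {G : Type*} [Group G] (g : G) (z : ℂ) :
    astar (MonoidAlgebra.single g z) = MonoidAlgebra.single g⁻¹ (conj z) := by
  classical
  apply MonoidAlgebra.coeff_injective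
  ext h
  rw [astar_coeff, MonoidAlgebra.coeff_single, MonoidAlgebra.coeff_single, Finsupp.single_apply,
    Finsupp.single_apply]
  by_cases hh : g = h⁻¹
  · rw [if_pos hh, if_pos (by rw [hh, inv_inv])]
  · rw [if_neg hh, if_neg (fun h2 => hh (by rw [← h2, inv_inv])), map_zero]

theorem map_astar {G Γ : Type*} [Group G] [Group Γ] (π : G →* Γ) (a : MonoidAlgebra ℂ G) :
    MonoidAlgebra.mapDomainRingHom ℂ π (astar a)
      = astar (MonoidAlgebra.mapDomainRingHom ℂ π a) := by
  induction a using MonoidAlgebra.induction_linear with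
  | zero => rw [astar_zero, map_zero, astar_zero]
  | add f g hf hg => rw [astar_add, map_add, map_add, hf, hg, astar_add]
  | single a b =>
    rw [astar_single]
    simp only [MonoidAlgebra.mapDomainRingHom_apply, MonoidAlgebra.mapDomain_single]
    rw [astar_single, map_inv]

/-- Adjoint of a matrix over the group algebra. -/
noncomputable def Astar {G : Type*} [Group G] {κ ν : Type*} (A : Matrix κ ν (MonoidAlgebra ℂ G)) :
    Matrix ν κ (MonoidAlgebra ℂ G) := Matrix.of fun i j => astar (A j i)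

theorem op_astar {G : Type*} [Group G] {κ ν : Type*} (A : Matrix κ ν (MonoidAlgebra ℂ G)) :
    op (Astar A) = (op A)ᴴ := by
  ext ⟨i, g⟩ ⟨j, h⟩
  rw [conjTranspose_apply]
  simp only [op, Astar, Matrix.of_apply, astar_coeff, _root_.mul_inv_rev, inv_inv]
  rfl

theorem Astar_map {G Γ : Type*} [Group G] [Group Γ] (π : G →* Γ) {κ ν : Type*}
    (A : Matrix κ ν (MonoidAlgebra ℂ G)) :
    (Astar A).map (MonoidAlgebra.mapDomainRingHom ℂ π)
      = Astar (A.map (MonoidAlgebra.mapDomainRingHom ℂ π)) := by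
  ext1 i j
  simp only [Astar, Matrix.map_apply, Matrix.of_apply]
  exact map_astar π _

variable {Q : Type*} [Group Q] [Fintype Q] {κ ν μ : Type*} [Fintype κ] [Fintype ν] [Fintype μ]

theorem op_mul (A : Matrix κ ν (MonoidAlgebra ℂ Q)) (B : Matrix ν μ (MonoidAlgebra ℂ Q)) :
    op (A * B) = op A * op B := by
  ext ⟨i, g⟩ ⟨l, h⟩
  rw [Matrix.mul_apply, Fintype.sum_prod_type]
  show ((A * B) i l).coeff (g⁻¹ * h) = _
  rw [Matrix.mul_apply, MonoidAlgebra.coeff_sum, Finsupp.finsetSum_apply]
  apply Finset.sum_congr rfl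
  intro j _
  rw [MonoidAlgebra.coeff_mul_apply_left, Finsupp.sum_fintype _ _ (by simp)]
  rw [← Equiv.sum_comp (Equiv.mulLeft g⁻¹)]
  apply Finset.sum_congr rfl
  intro q _
  simp only [op, Matrix.of_apply, Equiv.coe_mulLeft]
  congr 2
  group

theorem op_one [DecidableEq κ] [DecidableEq Q] :
    op (1 : Matrix κ κ (MonoidAlgebra ℂ Q)) = 1 := by
  ext ⟨i, g⟩ ⟨j, h⟩
  show ((1 : Matrix κ κ (MonoidAlgebra ℂ Q)) i j).coeff (g⁻¹ * h) = _
  rw [Matrix.one_apply, Matrix.one_apply]
  by_cases hij : i = j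
  · subst hij
    rw [if_pos rfl, MonoidAlgebra.one_def, MonoidAlgebra.coeff_single, Finsupp.single_apply]
    by_cases hgh : g = h
    · subst hgh; simp
    · rw [if_neg, if_neg]
      · simpa using hgh
      · intro hc
        apply hgh
        have : g⁻¹ * h = 1 := hc.symm
        rw [inv_mul_eq_one] at this
        exact this
  · rw [if_neg hij, if_neg (fun h => hij (Prod.ext_iff.1 h).1)]
    simp

theorem op_sub (A B : Matrix κ ν (MonoidAlgebra ℂ Q)) : op (A - B) = op A - op B := by
  ext ⟨i, g⟩ ⟨l, h⟩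
  rfl

theorem op_smul (c : ℂ) (A : Matrix κ ν (MonoidAlgebra ℂ Q)) : op (c • A) = c • op A := by
  ext ⟨i, g⟩ ⟨l, h⟩
  rfl

theorem op_pow [DecidableEq κ] [DecidableEq Q] (A : Matrix κ κ (MonoidAlgebra ℂ Q)) (m : ℕ) :
    op (A ^ m) = op A ^ m := by
  induction m with
  | zero => rw [pow_zero, pow_zero, op_one]
  | succ m ih => rw [pow_succ, pow_succ, op_mul, ih]

/-- Sum of the squares of the coefficients. -/
noncomputable def sqn {G : Type*} [Group G] (a : MonoidAlgebra ℂ G) : ℝ :=
  a.coeff.sum fun _ z => ‖z‖ ^ 2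

theorem sqn_fintype (a : MonoidAlgebra ℂ Q) : sqn a = ∑ g, ‖a.coeff g‖ ^ 2 := by
  unfold sqn
  exact Finsupp.sum_fintype _ _ (by simp)

theorem sqn_map {G Γ : Type*} [Group G] [Group Γ] (π : G →* Γ) (a : MonoidAlgebra ℂ G)
    (h : Set.InjOn π a.coeff.support) :
    sqn (MonoidAlgebra.mapDomainRingHom ℂ π a) = sqn a := by
  classical
  unfold sqn
  show (Finsupp.mapDomain π a.coeff).sum _ = _
  rw [Finsupp.sum, Finsupp.sum, Finsupp.mapDomain_support_of_injOn _ h, Finset.sum_image h]
  apply Finset.sum_congr rfl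
  intro g hg
  rw [Finsupp.mapDomain_apply' _ _ (le_refl _) h hg]

theorem eventually_injOn {G : Type} [Group G] {P : ℕ → Type} [∀ j, Group (P j)]
    (π : ∀ j, G →* P j) (hπ : ∀ g : G, g ≠ 1 → ∀ᶠ j in atTop, π j g ≠ 1) (F : Finset G) :
    ∀ᶠ j in atTop, Set.InjOn (π j) F := by
  have h1 : ∀ p ∈ F ×ˢ F, p.1 ≠ p.2 → ∀ᶠ j in atTop, π j p.1 ≠ π j p.2 := by
    intro p _ hne
    have hne' : p.1⁻¹ * p.2 ≠ 1 := by
      intro hc
      exact hne (inv_mul_eq_one.1 hc)
    filter_upwards [hπ _ hne'] with j hj hc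
    apply hj
    rw [map_mul, map_inv, hc, inv_mul_cancel]
  have h2 : ∀ᶠ j in atTop, ∀ p ∈ F ×ˢ F, p.1 ≠ p.2 → π j p.1 ≠ π j p.2 := by
    rw [Finset.eventually_all]
    intro p hp
    by_cases hne : p.1 = p.2
    · exact Eventually.of_forall fun j hc => absurd hne hc
    · filter_upwards [h1 p hp hne] with j hj _ using hj
  filter_upwards [h2] with j hj
  intro a ha b hb hab
  by_contra hne
  exact hj (a, b) (Finset.mk_mem_product ha hb) hne hab

/-- The Hilbert-Schmidt norm of `op B`. -/
theorem trace_op_sq (B : Matrix κ κ (MonoidAlgebra ℂ Q)) :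
    (op B * (op B)ᴴ).trace = ((Fintype.card Q * ∑ i, ∑ i', sqn (B i i') : ℝ) : ℂ) := by
  have h : (op B * (op B)ᴴ).trace = ((∑ x, ∑ y, ‖op B x y‖ ^ 2 : ℝ) : ℂ) := by
    rw [Matrix.trace]
    push_cast
    apply Finset.sum_congr rfl
    intro x _
    rw [Matrix.diag_apply, Matrix.mul_apply]
    apply Finset.sum_congr rfl
    intro y _
    rw [conjTranspose_apply]
    exact Complex.mul_conj' _
  rw [h]
  congr 1
  rw [Fintype.sum_prod_type, Finset.mul_sum]
  apply Finset.sum_congr rfl
  intro i _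
  simp_rw [Fintype.sum_prod_type]
  rw [Finset.sum_comm, Finset.mul_sum]
  apply Finset.sum_congr rfl
  intro i' _
  rw [sqn_fintype]
  have : ∀ g : Q, ∑ h, ‖op B (i, g) (i', h)‖ ^ 2 = ∑ h, ‖(B i i').coeff h‖ ^ 2 := by
    intro g
    rw [← Equiv.sum_comp (Equiv.mulLeft g)]
    apply Finset.sum_congr rfl
    intro h _
    simp [op]
  rw [Finset.sum_congr rfl fun g _ => this g, Finset.sum_const, Finset.card_univ, nsmul_eq_mul]

end Grp

end Pool.Agent.H4.Atiyah

end VNGrpPart

/-!
# Right multiplication on `ℓ²`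
-/

section VNOpPart

open Filter Topology
open scoped ComplexOrder ComplexConjugate

namespace Pool.Agent.H4.Atiyah

section Op

variable {Γ : Type*} [Group Γ] {κ ν : Type*} [Fintype κ] [Fintype ν] [DecidableEq κ]
  [DecidableEq ν]

/-- `ℓ²(κ × Γ)` -/
noncomputable abbrev LL (κ Γ : Type*) := lp (fun _ : κ × Γ => ℂ) 2

theorem two_toReal : (0 : ℝ) < (2 : ENNReal).toReal := by norm_num

theorem memlp_iff {ι : Type*} (f : ι → ℂ) :
    Memℓp (E := fun _ => ℂ) f 2 ↔ Summable fun i => ‖f i‖ ^ 2 := by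
  rw [memℓp_gen_iff two_toReal]
  simp

theorem norm_sq_lp {ι : Type*} (x : lp (fun _ : ι => ℂ) 2) : ‖x‖ ^ 2 = ∑' i, ‖x i‖ ^ 2 := by
  have := lp.norm_rpow_eq_tsum two_toReal x
  simpa using this

theorem inj_pt (j : κ) (s : Γ) : Function.Injective fun h : Γ => (j, h * s⁻¹) := by
  intro a b hab
  exact mul_right_cancel (Prod.ext_iff.1 hab).2

theorem inj_pt' (i : ν) : Function.Injective fun h : Γ => (i, h) := by
  intro a b hab
  exact (Prod.ext_iff.1 hab).2

/-- elementary right translation -/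
def Efun (j : κ) (i : ν) (s : Γ) (x : κ × Γ → ℂ) : ν × Γ → ℂ :=
  fun p => if p.1 = i then x (j, p.2 * s⁻¹) else 0

theorem Efun_off (j : κ) (i : ν) (s : Γ) (x : κ × Γ → ℂ) (p : ν × Γ)
    (hp : p ∉ Set.range fun h : Γ => (i, h)) : Efun j i s x p = 0 := by
  unfold Efun
  rw [if_neg]
  intro h
  exact hp ⟨p.2, by rw [← h]⟩

theorem Efun_summable (j : κ) (i : ν) (s : Γ) {x : κ × Γ → ℂ} (hx : Summable fun p => ‖x p‖ ^ 2) :
    Summable fun p => ‖Efun j i s x p‖ ^ 2 := by
  rw [← (inj_pt' (Γ := Γ) i).summable_iff]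
  · have := hx.comp_injective (inj_pt j s)
    refine this.congr fun h => ?_
    simp [Efun]
  · intro p hp
    rw [Efun_off j i s x p hp]; simp

theorem Efun_tsum (j : κ) (i : ν) (s : Γ) {x : κ × Γ → ℂ} (hx : Summable fun p => ‖x p‖ ^ 2) :
    ∑' p, ‖Efun j i s x p‖ ^ 2 ≤ ∑' p, ‖x p‖ ^ 2 := by
  rw [← (inj_pt' (Γ := Γ) i).tsum_eq]
  · have := tsum_comp_le_tsum_of_inj hx (fun p => sq_nonneg _) (inj_pt j s)
    refine le_trans (le_of_eq ?_) this
    apply tsum_congr
    intro h
    simp [Efun]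
  · intro p hp
    by_contra hc
    exact hp (by
      show ‖Efun j i s x p‖ ^ 2 = 0
      rw [Efun_off j i s x p hc]; simp)

/-- elementary right translation as an operator -/
noncomputable def Eop (j : κ) (i : ν) (s : Γ) : LL κ Γ →L[ℂ] LL ν Γ :=
  LinearMap.mkContinuous
    { toFun := fun x => ⟨Efun j i s x, (memlp_iff _).2 (Efun_summable j i s
        ((memlp_iff _).1 (lp.memℓp x)))⟩
      map_add' := by
        intro x y
        ext p
        show Efun j i s (x + y : LL κ Γ) p = Efun j i s x p + Efun j i s y p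
        unfold Efun
        split_ifs
        · rfl
        · simp
      map_smul' := by
        intro c x
        ext p
        show Efun j i s (c • x : LL κ Γ) p = c • Efun j i s x p
        unfold Efun
        split_ifs
        · rfl
        · simp }
    1 (by
      intro x
      rw [one_mul]
      apply le_of_sq_le_sq _ (norm_nonneg _)
      rw [norm_sq_lp, norm_sq_lp]
      exact Efun_tsum j i s ((memlp_iff _).1 (lp.memℓp x)))

theorem Eop_apply (j : κ) (i : ν) (s : Γ) (x : LL κ Γ) (p : ν × Γ) :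
    Eop j i s x p = if p.1 = i then x (j, p.2 * s⁻¹) else 0 := rfl

theorem norm_Eop (j : κ) (i : ν) (s : Γ) : ‖(Eop j i s : LL κ Γ →L[ℂ] LL ν Γ)‖ ≤ 1 :=
  LinearMap.mkContinuous_norm_le _ zero_le_one _

theorem Eop_adj (j : κ) (i : ν) (s : Γ) (x : LL κ Γ) (y : LL ν Γ) :
    inner ℂ (Eop j i s x) y = inner ℂ x (Eop i j s⁻¹ y) := by
  rw [lp.inner_eq_tsum, lp.inner_eq_tsum]
  rw [← (inj_pt' (Γ := Γ) i).tsum_eq, ← (inj_pt (Γ := Γ) j s).tsum_eq]
  · apply tsum_congr
    intro h
    simp [Eop_apply]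
  · intro p hp
    by_contra hc
    apply hp
    show inner ℂ (x p) (Eop i j s⁻¹ y p) = 0
    have h0 : Eop i j s⁻¹ y p = 0 := by
      rw [Eop_apply, if_neg]
      intro h
      exact hc ⟨p.2 * s, by simp [← h]⟩
    rw [h0, inner_zero_right]
  · intro p hp
    by_contra hc
    apply hp
    show inner ℂ (Eop j i s x p) (y p) = 0
    have h0 : Eop j i s x p = 0 := by
      rw [Eop_apply, if_neg]
      intro h
      exact hc ⟨p.2, by rw [← h]⟩
    rw [h0, inner_zero_left]

variable {G : Type*} [Group G]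

/-- Right multiplication by the image of `A` under `π`. -/
noncomputable def Lop (π : G →* Γ) (A : Matrix κ ν (MonoidAlgebra ℂ G)) : LL κ Γ →L[ℂ] LL ν Γ :=
  ∑ j, ∑ i, (A j i).coeff.sum fun s z => z • Eop j i (π s)

/-- The sum of the absolute values of the coefficients. -/
noncomputable def l1 (A : Matrix κ ν (MonoidAlgebra ℂ G)) : ℝ :=
  ∑ j, ∑ i, (A j i).coeff.sum fun _ z => ‖z‖

theorem norm_Lop (π : G →* Γ) (A : Matrix κ ν (MonoidAlgebra ℂ G)) : ‖Lop π A‖ ≤ l1 A := by
  unfold Lop l1
  refine (norm_sum_le _ _).trans (Finset.sum_le_sum fun j _ => ?_)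
  refine (norm_sum_le _ _).trans (Finset.sum_le_sum fun i _ => ?_)
  refine (norm_sum_le _ _).trans (Finset.sum_le_sum fun s _ => ?_)
  rw [norm_smul]
  calc _ ≤ ‖(A j i).coeff s‖ * 1 := by gcongr; exact norm_Eop _ _ _
    _ = _ := mul_one _

theorem lp_sum_apply {ι : Type*} (t : Finset ι) (f : ι → LL ν Γ) (p : ν × Γ) :
    (∑ j ∈ t, f j : LL ν Γ) p = ∑ j ∈ t, f j p := by
  rw [lp.coeFn_sum, Finset.sum_apply]

theorem lp_smul_apply (z : ℂ) (f : LL ν Γ) (p : ν × Γ) : (z • f : LL ν Γ) p = z * f p := rfl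

theorem Lop_apply (π : G →* Γ) (A : Matrix κ ν (MonoidAlgebra ℂ G)) (x : LL κ Γ) (i : ν) (h : Γ) :
    Lop π A x (i, h) = ∑ j, (A j i).coeff.sum fun s z => x (j, h * (π s)⁻¹) * z := by
  have h1 : Lop π A x = ∑ j, ∑ i, (A j i).coeff.sum fun s z => z • Eop j i (π s) x := by
    unfold Lop
    simp only [sum_apply, Finsupp.sum, smul_apply]
  rw [h1, lp_sum_apply]
  apply Finset.sum_congr rfl
  intro j _
  rw [lp_sum_apply, Finset.sum_eq_single i]
  · unfold Finsupp.sum
    rw [lp_sum_apply]
    apply Finset.sum_congr rfl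
    intro s _
    rw [lp_smul_apply, Eop_apply, if_pos rfl, mul_comm]
  · intro i' _ hi'
    unfold Finsupp.sum
    rw [lp_sum_apply]
    apply Finset.sum_eq_zero
    intro s _
    rw [lp_smul_apply, Eop_apply, if_neg (Ne.symm hi'), mul_zero]
  · simp

theorem Lop_adj (π : G →* Γ) (A : Matrix κ ν (MonoidAlgebra ℂ G)) (x : LL κ Γ) (y : LL ν Γ) :
    inner ℂ (Lop π A x) y = inner ℂ x (Lop π (Astar A) y) := by
  classical
  unfold Lop
  simp only [sum_apply, sum_inner, inner_sum, Finsupp.sum, smul_apply]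
  rw [Finset.sum_comm]
  apply Finset.sum_congr rfl
  intro i _
  apply Finset.sum_congr rfl
  intro j _
  have h1 : (Astar A i j).coeff.support = (A j i).coeff.support.image (fun s => s⁻¹) := by
    ext s
    rw [Finset.mem_image, Finsupp.mem_support_iff]
    show (astar (A j i)).coeff s ≠ 0 ↔ _
    rw [astar_coeff]
    constructor
    · intro hs
      exact ⟨s⁻¹, Finsupp.mem_support_iff.2 fun h0 => hs (by rw [h0, map_zero]), inv_inv s⟩
    · rintro ⟨t, ht, rfl⟩
      rw [inv_inv]
      rw [Finsupp.mem_support_iff] at ht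
      intro h0
      exact ht ((map_eq_zero _).1 h0)
  rw [h1, Finset.sum_image (fun a _ b _ h => inv_injective h)]
  apply Finset.sum_congr rfl
  intro s _
  rw [inner_smul_left, inner_smul_right, Eop_adj, map_inv π]
  congr 1
  show _ = (astar (A j i)).coeff s⁻¹
  rw [astar_coeff, inv_inv]

end Op

end Pool.Agent.H4.Atiyah

end VNOpPart

/-!
# The von Neumann dimension of the kernel and its approximation by finite quotients
-/

section VNPart

open Filter Topology

namespace Pool.Agent.H4.Atiyah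

/-- the left kernel of a matrix over the group ring acting on `ℓ²(G)` -/
def l2ker {G : Type} [Group G] {k n : ℕ} (A : Matrix (Fin k) (Fin n) (MonoidAlgebra ℂ G)) :
    Set (lp (fun _ : Fin k × G => ℂ) 2) :=
  {x | ∀ i : Fin n, ∀ g : G,
    ∑ j' : Fin k, ∑ h ∈ (A j' i).coeff.support, x (j', g * h⁻¹) * (A j' i).coeff h = 0}

/-- the von Neumann dimension of the kernel -/
noncomputable def vnDim {G : Type} [Group G] [DecidableEq G] {k n : ℕ}
    (A : Matrix (Fin k) (Fin n) (MonoidAlgebra ℂ G)) : ℝ :=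
  ∑ j : Fin k, (1 - Metric.infDist
    (lp.single 2 (j, (1 : G)) (1 : ℂ) : lp (fun _ : Fin k × G => ℂ) 2) (l2ker A) ^ 2)

section Vec

variable {G : Type*} [Group G] {κ ν : Type*} [Fintype κ] [Fintype ν] [DecidableEq κ]
  [DecidableEq ν]

theorem vec_off [DecidableEq G] (v : κ → MonoidAlgebra ℂ G) (p : κ × G)
    (hp : p ∉ (Finset.univ : Finset κ) ×ˢ (Finset.univ.biUnion fun i => (v i).coeff.support)) :
    (v p.1).coeff p.2 = 0 := by
  by_contra hc
  apply hp
  rw [Finset.mem_product]
  exact ⟨Finset.mem_univ _, Finset.mem_biUnion.2 ⟨p.1, Finset.mem_univ _,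
    Finsupp.mem_support_iff.2 hc⟩⟩

theorem vec_summable (v : κ → MonoidAlgebra ℂ G) :
    Summable fun p : κ × G => ‖(v p.1).coeff p.2‖ ^ 2 := by
  classical
  apply summable_of_ne_finset_zero
    (s := (Finset.univ : Finset κ) ×ˢ (Finset.univ.biUnion fun i => (v i).coeff.support))
  intro p hp
  rw [vec_off v p hp]
  simp

/-- finitely supported vectors -/
noncomputable def vec (v : κ → MonoidAlgebra ℂ G) : LL κ G :=
  ⟨fun p => (v p.1).coeff p.2, (memlp_iff _).2 (vec_summable v)⟩

theorem vec_apply (v : κ → MonoidAlgebra ℂ G) (p : κ × G) : vec v p = (v p.1).coeff p.2 := rfl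

theorem norm_vec (v : κ → MonoidAlgebra ℂ G) : ‖vec v‖ ^ 2 = ∑ i, sqn (v i) := by
  classical
  rw [norm_sq_lp, tsum_eq_sum
    (s := (Finset.univ : Finset κ) ×ˢ (Finset.univ.biUnion fun i => (v i).coeff.support))]
  · rw [Finset.sum_product]
    apply Finset.sum_congr rfl
    intro i _
    unfold sqn Finsupp.sum
    symm
    apply Finset.sum_subset
    · intro g hg
      exact Finset.mem_biUnion.2 ⟨i, Finset.mem_univ _, hg⟩
    · intro g _ hg
      rw [Finsupp.notMem_support_iff.1 hg]
      simp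
  · intro p hp
    rw [vec_apply, vec_off v p hp]
    simp

theorem Lop_vec (A : Matrix κ ν (MonoidAlgebra ℂ G)) (v : κ → MonoidAlgebra ℂ G) :
    Lop (MonoidHom.id G) A (vec v) = vec (Matrix.vecMul v A) := by
  ext ⟨i, h⟩
  rw [Lop_apply, vec_apply]
  show _ = (∑ j, v j * A j i).coeff h
  rw [MonoidAlgebra.coeff_sum, Finsupp.finsetSum_apply]
  apply Finset.sum_congr rfl
  intro j _
  rw [MonoidAlgebra.coeff_mul_apply_right]
  rfl

/-- the algebraic counterpart of `Sop` -/
noncomputable def Dop (A : Matrix κ ν (MonoidAlgebra ℂ G)) (c : ℝ) :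
    Matrix κ κ (MonoidAlgebra ℂ G) := 1 - ((c⁻¹ : ℝ) : ℂ) • (A * Astar A)

theorem Sop_vec (A : Matrix κ ν (MonoidAlgebra ℂ G)) (c : ℝ) (v : κ → MonoidAlgebra ℂ G) :
    Sop (Lop (MonoidHom.id G) A) (Lop (MonoidHom.id G) (Astar A)) c (vec v)
      = vec (Matrix.vecMul v (Dop A c)) := by
  rw [Sop_apply, Lop_vec, Lop_vec, Matrix.vecMul_vecMul]
  unfold Dop
  rw [Matrix.vecMul_sub, Matrix.vecMul_one, Matrix.vecMul_smul]
  rfl

theorem Sop_pow_vec (A : Matrix κ ν (MonoidAlgebra ℂ G)) (c : ℝ) (m : ℕ)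
    (v : κ → MonoidAlgebra ℂ G) :
    (Sop (Lop (MonoidHom.id G) A) (Lop (MonoidHom.id G) (Astar A)) c ^ m) (vec v)
      = vec (Matrix.vecMul v (Dop A c ^ m)) := by
  induction m with
  | zero => simp
  | succ m ih =>
    rw [pow_succ', mul_apply_eq_comp, ih, Sop_vec, Matrix.vecMul_vecMul, ← pow_succ]

theorem vec_single [DecidableEq G] (j : κ) :
    vec (Pi.single j (1 : MonoidAlgebra ℂ G)) = lp.single 2 (j, (1 : G)) (1 : ℂ) := by
  ext ⟨i, g⟩
  rw [vec_apply, lp.single_apply]
  show ((Pi.single j (1 : MonoidAlgebra ℂ G) : κ → MonoidAlgebra ℂ G) i).coeff g = _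
  by_cases hij : i = j
  · subst hij
    rw [Pi.single_eq_same, MonoidAlgebra.one_def, MonoidAlgebra.coeff_single]
    by_cases hg : g = 1
    · subst hg
      rw [Pi.single_eq_same]
      simp
    · rw [Pi.single_eq_of_ne (fun h => hg (Prod.ext_iff.1 h).2), Finsupp.single_eq_of_ne hg]
  · rw [Pi.single_eq_of_ne hij, Pi.single_eq_of_ne (fun h => hij (Prod.ext_iff.1 h).1)]
    simp

/-- the sum of the squares of the coefficients of the powers -/
noncomputable def phi (A : Matrix κ ν (MonoidAlgebra ℂ G)) (c : ℝ) (m : ℕ) : ℝ :=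
  ∑ i, ∑ i', sqn ((Dop A c ^ m) i i')

theorem bet_single [DecidableEq G] (A : Matrix κ ν (MonoidAlgebra ℂ G)) (c : ℝ) (m : ℕ) (j : κ) :
    bet (Lop (MonoidHom.id G) A) (Lop (MonoidHom.id G) (Astar A)) c
      (lp.single 2 (j, (1 : G)) (1 : ℂ)) m = ∑ i', sqn ((Dop A c ^ m) j i') := by
  unfold bet
  rw [← vec_single, Sop_pow_vec, norm_vec, Matrix.single_one_vecMul]
  rfl

theorem norm_Lop_sq {Γ : Type*} [Group Γ] (π : G →* Γ) (A : Matrix κ ν (MonoidAlgebra ℂ G))
    {c : ℝ} (hc : l1 A ^ 2 ≤ c) (y : LL κ Γ) : ‖Lop π A y‖ ^ 2 ≤ c * ‖y‖ ^ 2 := by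
  have h1 : ‖Lop π A y‖ ≤ l1 A * ‖y‖ :=
    ((Lop π A).le_opNorm y).trans (by gcongr; exact norm_Lop π A)
  calc ‖Lop π A y‖ ^ 2 ≤ (l1 A * ‖y‖) ^ 2 := by gcongr
    _ = l1 A ^ 2 * ‖y‖ ^ 2 := by ring
    _ ≤ _ := by gcongr

/-- the bound at a finite level -/
theorem nrm_op_le {P : Type*} [Group P] [Fintype P] (π : G →* P)
    (A : Matrix κ ν (MonoidAlgebra ℂ G)) {c : ℝ} (hc : l1 A ^ 2 ≤ c) (x : κ × P → ℂ) :
    nrm (Matrix.vecMul x (op (A.map (MonoidAlgebra.mapDomainRingHom ℂ π)))) ^ 2
      ≤ c * nrm x ^ 2 := by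
  have hs : Summable fun p => ‖x p‖ ^ 2 := (hasSum_fintype _).summable
  set X : LL κ P := ⟨x, (memlp_iff _).2 hs⟩ with hX
  have h1 : ‖X‖ ^ 2 = nrm x ^ 2 := by
    rw [norm_sq_lp, tsum_fintype, nrm_sq]
  have h2 : ‖Lop π A X‖ ^ 2
      = nrm (Matrix.vecMul x (op (A.map (MonoidAlgebra.mapDomainRingHom ℂ π)))) ^ 2 := by
    rw [norm_sq_lp, tsum_fintype, nrm_sq]
    apply Finset.sum_congr rfl
    rintro ⟨i, h⟩ _
    congr 2
    rw [Lop_apply]
    show _ = ∑ p, x p * op (A.map (MonoidAlgebra.mapDomainRingHom ℂ π)) p (i, h)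
    rw [Fintype.sum_prod_type]
    apply Finset.sum_congr rfl
    intro j _
    show (A j i).coeff.sum (fun s z => x (j, h * (π s)⁻¹) * z)
      = ∑ g, x (j, g) * (Finsupp.mapDomain π (A j i).coeff) (g⁻¹ * h)
    have h3 : (A j i).coeff.sum (fun s z => x (j, h * (π s)⁻¹) * z)
        = (Finsupp.mapDomain π (A j i).coeff).sum (fun t z => x (j, h * t⁻¹) * z) := by
      rw [Finsupp.sum_mapDomain_index]
      · intro t; simp
      · intro t a b; ring
    rw [h3, Finsupp.sum_fintype _ _ (by simp)]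
    rw [← Equiv.sum_comp ((Equiv.inv P).trans (Equiv.mulRight h))]
    apply Finset.sum_congr rfl
    intro g _
    simp only [Equiv.trans_apply, Equiv.inv_apply, Equiv.coe_mulRight, mul_inv_rev, inv_inv]
    rw [mul_inv_cancel_left]
  rw [← h2, ← h1]
  exact norm_Lop_sq π A hc X

end Vec

section Final

variable {G : Type} [Group G] [DecidableEq G] {k n : ℕ}

theorem l2ker_eq (A : Matrix (Fin k) (Fin n) (MonoidAlgebra ℂ G)) :
    l2ker A = {z | Lop (MonoidHom.id G) A z = 0} := by
  ext z
  constructor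
  · intro hz
    show Lop (MonoidHom.id G) A z = 0
    ext ⟨i, h⟩
    rw [Lop_apply]
    exact hz i h
  · intro hz i g
    have hz' : Lop (MonoidHom.id G) A z = 0 := hz
    have h1 := Lop_apply (MonoidHom.id G) A z i g
    rw [hz'] at h1
    exact h1.symm

theorem tendsto_phi (A : Matrix (Fin k) (Fin n) (MonoidAlgebra ℂ G)) {c : ℝ} (hc0 : 0 < c)
    (hc : l1 (Astar A) ^ 2 ≤ c) :
    Tendsto (phi A c) atTop (𝓝 (vnDim A)) ∧ ∀ m, vnDim A ≤ phi A c m := by
  have hadj := Lop_adj (MonoidHom.id G) A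
  have hL' := norm_Lop_sq (MonoidHom.id G) (Astar A) hc
  have hlim := fun j : Fin k => tendsto_bet hadj hc0 hL' (lp.single 2 (j, (1 : G)) (1 : ℂ))
  have hnorm : ∀ j : Fin k, ‖(lp.single 2 (j, (1 : G)) (1 : ℂ) : LL (Fin k) G)‖ ^ 2 = 1 := by
    intro j
    rw [lp.norm_single (by norm_num)]
    simp
  have hphi : ∀ m, phi A c m = ∑ j : Fin k, bet (Lop (MonoidHom.id G) A)
      (Lop (MonoidHom.id G) (Astar A)) c (lp.single 2 (j, (1 : G)) (1 : ℂ)) m := by
    intro m
    unfold phi
    exact Finset.sum_congr rfl fun j _ => (bet_single A c m j).symm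
  have hvn : vnDim A = ∑ j : Fin k, (‖(lp.single 2 (j, (1 : G)) (1 : ℂ) : LL (Fin k) G)‖ ^ 2
      - Metric.infDist (lp.single 2 (j, (1 : G)) (1 : ℂ))
        {z | Lop (MonoidHom.id G) A z = 0} ^ 2) := by
    unfold vnDim
    apply Finset.sum_congr rfl
    intro j _
    rw [hnorm j, l2ker_eq]
  constructor
  · rw [hvn]
    refine (tendsto_finsetSum _ fun j _ => hlim j).congr fun m => ?_
    exact (hphi m).symm
  · intro m
    rw [hvn, hphi]
    apply Finset.sum_le_sum
    intro j _
    exact (bet_antitone hadj hc0 hL' _).le_of_tendsto (hlim j) m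

/-- trace at a finite level -/
theorem trace_level {P : Type} [Group P] [Fintype P] [DecidableEq P] (π : G →* P)
    (A : Matrix (Fin k) (Fin n) (MonoidAlgebra ℂ G)) (c : ℝ) (m : ℕ)
    (hinj : ∀ i i', Set.InjOn π ((Dop A c ^ m) i i').coeff.support) :
    ∑ i, (1 - c⁻¹ * vnEv (op (A.map (MonoidAlgebra.mapDomainRingHom ℂ π))) i) ^ (m + m)
      = Fintype.card P * phi A c m := by
  set f := MonoidAlgebra.mapDomainRingHom ℂ π with hf
  have h1 := trace_pow (op (A.map f)) c (m + m)
  have h2 : (1 - ((c⁻¹ : ℝ) : ℂ) • (op (A.map f) * (op (A.map f)).conjTranspose))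
      = op ((Dop A c).map f) := by
    rw [← op_astar, ← op_mul, ← op_smul, ← op_one, ← op_sub]
    congr 1
    unfold Dop
    rw [← Astar_map, ← Matrix.map_mul]
    ext1 i j
    simp only [Matrix.map_apply, Matrix.sub_apply, Matrix.smul_apply, map_sub]
    congr 1
    · rw [Matrix.one_apply, Matrix.one_apply]
      split_ifs <;> simp
    · apply MonoidAlgebra.coeff_injective
      show _ = Finsupp.mapDomain π ((((c⁻¹ : ℝ) : ℂ) • (A * Astar A) i j).coeff)
      rw [MonoidAlgebra.coeff_smul, MonoidAlgebra.coeff_smul, Finsupp.mapDomain_smul]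
      rfl
  have h3 : (op ((Dop A c).map f)).IsHermitian := by
    rw [← h2]
    refine Matrix.IsHermitian.sub Matrix.isHermitian_one ?_
    refine Matrix.IsHermitian.smul (herm_sq _) ?_
    exact Complex.conj_ofReal _
  have h4 : (op ((Dop A c).map f)) ^ m = op ((Dop A c ^ m).map f) := by
    rw [← op_pow]
    congr 1
    exact (map_pow f.mapMatrix (Dop A c) m).symm
  rw [h2, pow_add] at h1
  have h5 : (op ((Dop A c).map f) ^ m * op ((Dop A c).map f) ^ m)
      = op ((Dop A c ^ m).map f) * (op ((Dop A c ^ m).map f)).conjTranspose := by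
    rw [← h4, (h3.pow m).eq]
  rw [h5, trace_op_sq] at h1
  have h6 : ∀ i i', sqn (((Dop A c ^ m).map f) i i') = sqn ((Dop A c ^ m) i i') := by
    intro i i'
    rw [Matrix.map_apply]
    exact sqn_map π _ (hinj i i')
  have h7 := Complex.ofReal_injective h1
  rw [← h7]
  unfold phi
  simp_rw [h6]

theorem eventually_inj {P : ℕ → Type} [∀ j, Group (P j)]
    (π : ∀ j, G →* P j) (hπ : ∀ g : G, g ≠ 1 → ∀ᶠ j in atTop, π j g ≠ 1)
    (B : Matrix (Fin k) (Fin k) (MonoidAlgebra ℂ G)) :
    ∀ᶠ j in atTop, ∀ i i', Set.InjOn (π j) (B i i').coeff.support := by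
  rw [eventually_all]
  intro i
  rw [eventually_all]
  intro i'
  exact eventually_injOn π hπ _

end Final

theorem vnDim_approx {G : Type} [Group G] [DecidableEq G] {P : ℕ → Type} [∀ j, Group (P j)]
    [∀ j, Fintype (P j)] (π : ∀ j, G →* P j) (hπ : ∀ g : G, g ≠ 1 → ∀ᶠ j in atTop, π j g ≠ 1)
    {k n : ℕ} (A : Matrix (Fin k) (Fin n) (MonoidAlgebra ℂ G)) :
    (∀ η > (0 : ℝ), ∀ᶠ j in atTop,
      (k * Fintype.card (P j) : ℝ) - (op (A.map (MonoidAlgebra.mapDomainRingHom ℂ (π j)))).rank ≤
        (vnDim A + η) * Fintype.card (P j)) ∧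
    (∀ η > (0 : ℝ), ∀ ε > (0 : ℝ), ∀ᶠ j in atTop, ∃ V : Submodule ℂ (Fin k × P j → ℂ),
      (vnDim A - η) * Fintype.card (P j) ≤ Module.finrank ℂ V ∧
      ∀ x ∈ V, nrm (Matrix.vecMul x (op (A.map (MonoidAlgebra.mapDomainRingHom ℂ (π j))))) ≤
        ε * nrm x) := by
  classical
  constructor
  · intro η hη
    set c : ℝ := l1 (Astar A) ^ 2 + 1 with hc
    have hc0 : 0 < c := by positivity
    obtain ⟨hlim, -⟩ := tendsto_phi A hc0 (by rw [hc]; linarith)
    obtain ⟨m, hm⟩ := (hlim.eventually (eventually_le_nhds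
      (show vnDim A < vnDim A + η by linarith))).exists
    filter_upwards [eventually_inj π hπ (Dop A c ^ m)] with j hj
    have h1 := card_sub_rank_le (op (A.map (MonoidAlgebra.mapDomainRingHom ℂ (π j)))) c m
    rw [trace_level (π j) A c m hj] at h1
    rw [Fintype.card_prod, Fintype.card_fin] at h1
    push_cast at h1
    refine h1.trans ?_
    rw [mul_comm]
    gcongr
  · intro η hη ε hε
    set c : ℝ := l1 (Astar A) ^ 2 + l1 A ^ 2 + ε ^ 2 + 1 with hc
    have hc0 : 0 < c := by positivity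
    have hc1 : l1 (Astar A) ^ 2 ≤ c := by rw [hc]; nlinarith [sq_nonneg (l1 A), sq_nonneg ε]
    have hc2 : l1 A ^ 2 ≤ c := by rw [hc]; nlinarith [sq_nonneg (l1 (Astar A)), sq_nonneg ε]
    have hc3 : ε ^ 2 < c := by
      rw [hc]; nlinarith [sq_nonneg (l1 (Astar A)), sq_nonneg (l1 A)]
    obtain ⟨-, hlow⟩ := tendsto_phi A hc0 hc1
    have hq0 : 0 ≤ 1 - c⁻¹ * ε ^ 2 := by
      rw [sub_nonneg, inv_mul_le_iff₀ hc0, mul_one]; exact hc3.le
    have hq1 : 1 - c⁻¹ * ε ^ 2 < 1 := by
      have : 0 < c⁻¹ * ε ^ 2 := by positivity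
      linarith
    have hpow : Tendsto (fun m : ℕ => (k : ℝ) * (1 - c⁻¹ * ε ^ 2) ^ m) atTop (𝓝 0) := by
      have := (tendsto_pow_atTop_nhds_zero_of_lt_one hq0 hq1).const_mul (k : ℝ)
      rwa [mul_zero] at this
    obtain ⟨m, hm⟩ := (hpow.eventually (eventually_le_nhds hη)).exists
    filter_upwards [eventually_inj π hπ (Dop A c ^ m)] with j hj
    obtain ⟨V, hV1, hV2⟩ := exists_small_space
      (op (A.map (MonoidAlgebra.mapDomainRingHom ℂ (π j)))) hc0
      (nrm_op_le (π j) A hc2) hε m
    refine ⟨V, ?_, hV2⟩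
    rw [trace_level (π j) A c m hj, Fintype.card_prod, Fintype.card_fin] at hV1
    push_cast at hV1
    refine le_trans ?_ hV1
    have h2 : (1 - c⁻¹ * ε ^ 2) ^ (m + m) ≤ (1 - c⁻¹ * ε ^ 2) ^ m :=
      pow_le_pow_of_le_one hq0 hq1.le (Nat.le_add_left m m)
    have h3 := hlow m
    have h4 : (k : ℝ) * (1 - c⁻¹ * ε ^ 2) ^ (m + m) ≤ η :=
      le_trans (mul_le_mul_of_nonneg_left h2 (Nat.cast_nonneg k)) hm
    have h5 : (0 : ℝ) ≤ Fintype.card (P j) := Nat.cast_nonneg _
    calc (vnDim A - η) * Fintype.card (P j)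
        ≤ (phi A c m - (k : ℝ) * (1 - c⁻¹ * ε ^ 2) ^ (m + m)) * Fintype.card (P j) :=
          mul_le_mul_of_nonneg_right (by linarith) h5
      _ = _ := by ring

end Pool.Agent.H4.Atiyah

end VNPart

end

section

/-!
# Coxeter-combinatorial definitions
-/

set_option autoImplicit false

namespace Pool.Agent.H73.HVN

universe u v

variable {B : Type v} {W : Type u} [Group W] {M : CoxeterMatrix B} (cs : CoxeterSystem M W)

/-- the standard parabolic subgroup `W_L` -/
def WP (L : Set B) : Subgroup W := Subgroup.closure (cs.simple '' L)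

end Pool.Agent.H73.HVN

end

section

/-!
# Module Exch: the strong exchange condition

PLAN (standard, e.g. Bourbaki, Lie IV.1.4, Björner–Brenti 1.3-1.4). Mathlib has `rightInvSeq`,
`leftInvSeq` (`Mathlib/GroupTheory/Coxeter/Inversion.lean`) but not the exchange condition.
Let `R := {t // cs.IsReflection t}` (or simply work with functions on `W`), and for `i : B` let `π_i`
be the permutation of `W × ZMod 2` given by
`π_i (t, ε) = (s_i t s_i, ε + [t = s_i])`. It is an involution. For a word `ω = [i_1, …, i_n]` one gets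
by induction `π_{i_1} ∘ … ∘ π_{i_n} (t, ε) = (w t w⁻¹, ε + #{k : t = (rightInvSeq ω)_k})`, `w = π ω`
(`List.count t (cs.rightInvSeq ω)`).
For the word `(i j)^{m}` of length `2m`, `m = M i j`, the right inversion sequence is periodic of
period `m` (its `k`-th entry is `(s_j s_i)^k s_j`, and `(s_j s_i)^m = 1`), so every count is even and
`(π_i π_j)^m = 1`: the `π_i` are liftable (`CoxeterMatrix.IsLiftable`, `CoxeterSystem.lift` into
`Equiv.Perm (W × ZMod 2)` or `Function.End`). So the parity `η(w, t)` of `count t (rightInvSeq ω)` depends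
only on `w = π ω`.
If `ω` is reduced, `t ∈ rightInvSeq ω` implies `ℓ (w t) < ℓ w`
(`isRightInversion_of_mem_rightInvSeq`) and `count = 1` (`IsReduced.nodup_rightInvSeq`).
Conversely if `η(w,t)` is even, then `η(w t, t)` is odd (cocycle: `η(w t, t) = η(w, t) + η(t, t)` up to
conjugation of `t` by `t`, and `η(t,t) = 1` by taking `t = u s_i u⁻¹`), so with `ω'` a reduced word of
`w t` we get `t ∈ rightInvSeq ω'`, so `ℓ (w t t) < ℓ (w t)`, i.e. `ℓ w < ℓ (w t)`.
Hence if `ℓ (w t) < ℓ w`, then for EVERY word `ω` of `w` the count of `t` in `rightInvSeq ω` is odd, so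
`t` is an entry, and `wordProd_mul_getD_rightInvSeq` gives the conclusion.

`simple_mul_eq_mul_simple`: by parity `ℓ(s_i w s_j) = ℓ(w)`, `ℓ(s_i w) = ℓ(w) + 1`. Let `ω` be a reduced
word of `w`; `i :: ω` is a word of `s_i w` and `ℓ(s_i w s_j) < ℓ(s_i w)`, so by strong exchange
`s_i w s_j` is the product of `(i :: ω).eraseIdx k`. If `k = 0`, `s_i w s_j = w`: done. Otherwise
`s_i w s_j = s_i w'` with `w' = π (ω.eraseIdx (k-1))` of length `≤ ℓ(w) - 1`; but `w' = w s_j` has length
`ℓ(w) + 1`: contradiction.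
-/

set_option autoImplicit false

namespace Pool.Agent.H73.HVN

universe u v

variable {B : Type v} {W : Type u} [Group W] {M : CoxeterMatrix B} (cs : CoxeterSystem M W)

open Classical in
/-- the generators of the action on `W × ZMod 2` -/
private noncomputable def exPi (i : B) : Function.End (W × ZMod 2) :=
  fun p => (cs.simple i * p.1 * cs.simple i, p.2 + if p.1 = cs.simple i then 1 else 0)

private theorem exPi_apply (i : B) (t : W) (e : ZMod 2) [DecidableEq W] :
    exPi cs i (t, e) = (cs.simple i * t * cs.simple i, e + if t = cs.simple i then 1 else 0) := by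
  classical
  unfold exPi
  congr

private theorem ex_conj (i j : B) (k : ℕ) :
    cs.simple j * (cs.simple i * cs.simple j) ^ k =
      ((cs.simple i * cs.simple j) ^ k)⁻¹ * cs.simple j := by
  induction k with
  | zero => simp
  | succ k ih =>
    rw [pow_succ, ← mul_assoc, ih, ← pow_succ, pow_succ', mul_inv_rev]
    simp [mul_assoc]

private theorem exPi_pow (i j : B) (m : ℕ) (t : W) (e : ZMod 2) [DecidableEq W] :
    ((exPi cs i * exPi cs j) ^ m) (t, e) =
      ((cs.simple i * cs.simple j) ^ m * t * ((cs.simple i * cs.simple j) ^ m)⁻¹,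
        e + ∑ k ∈ Finset.range (2 * m),
          if t = ((cs.simple i * cs.simple j) ^ k)⁻¹ * cs.simple j then 1 else 0) := by
  induction m with
  | zero =>
    simp only [pow_zero, one_mul, inv_one, mul_one, mul_zero, Finset.range_zero,
      Finset.sum_empty, add_zero]
    rfl
  | succ m ih =>
    rw [pow_succ', Function.End.mul_def, Function.comp_apply, ih, Function.End.mul_def,
      Function.comp_apply, exPi_apply, exPi_apply]
    set c := cs.simple i * cs.simple j with hc
    have hcinv : c⁻¹ = cs.simple j * cs.simple i := by simp [hc]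
    have hconj := ex_conj cs i j
    rw [← hc] at hconj
    refine Prod.ext ?_ ?_
    · simp only
      rw [pow_succ' c m, mul_inv_rev, hcinv]
      simp only [hc, mul_assoc]
    · simp only
      rw [show 2 * (m + 1) = 2 * m + 1 + 1 from by ring, Finset.sum_range_succ,
        Finset.sum_range_succ]
      have e1 : (c ^ m * t * (c ^ m)⁻¹ = cs.simple j) ↔ (t = (c ^ (2 * m))⁻¹ * cs.simple j) := by
        rw [two_mul, pow_add, mul_inv_rev, mul_assoc (c ^ m)⁻¹, ← hconj m]
        constructor
        · intro h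
          rw [← h]
          group
        · intro h
          rw [h]
          group
      have e2 : (cs.simple j * (c ^ m * t * (c ^ m)⁻¹) * cs.simple j = cs.simple i) ↔
          (t = (c ^ (2 * m + 1))⁻¹ * cs.simple j) := by
        have e3 : (c ^ (2 * m + 1))⁻¹ * cs.simple j =
            (c ^ m)⁻¹ * (cs.simple j * cs.simple i * cs.simple j) * c ^ m := by
          have h1 : cs.simple j * c ^ m = (c ^ m)⁻¹ * cs.simple j := hconj m
          rw [mul_assoc, mul_assoc (cs.simple j * cs.simple i), h1, ← hcinv]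
          group
        rw [e3]
        constructor
        · intro h
          rw [← h]
          simp only [mul_assoc, CoxeterSystem.simple_mul_simple_cancel_left]
          simp
        · intro h
          rw [h]
          simp only [mul_assoc]
          simp
      simp only [e1, e2]
      ring

private theorem ex_liftable : M.IsLiftable (exPi cs) := by
  classical
  intro i j
  funext p
  obtain ⟨t, e⟩ := p
  rw [exPi_pow]
  have hm : (cs.simple i * cs.simple j) ^ (M i j) = 1 := cs.simple_mul_simple_pow i j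
  have h2 : (∑ k ∈ Finset.range (2 * M i j),
      if t = ((cs.simple i * cs.simple j) ^ k)⁻¹ * cs.simple j then (1 : ZMod 2) else 0) = 0 := by
    rw [two_mul, Finset.sum_range_add]
    have h3 : ∀ k, ((cs.simple i * cs.simple j) ^ (M i j + k)) = (cs.simple i * cs.simple j) ^ k := by
      intro k
      rw [pow_add, hm, one_mul]
    have h5 : (∑ k ∈ Finset.range (M i j),
        if t = ((cs.simple i * cs.simple j) ^ (M i j + k))⁻¹ * cs.simple j then (1 : ZMod 2) else 0) =
        ∑ k ∈ Finset.range (M i j),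
        if t = ((cs.simple i * cs.simple j) ^ k)⁻¹ * cs.simple j then (1 : ZMod 2) else 0 :=
      Finset.sum_congr rfl (fun k _ => by rw [h3 k])
    rw [h5]
    exact CharTwo.add_self_eq_zero _
  rw [h2, hm]
  simp only [one_mul, inv_one, mul_one, add_zero]
  rfl

/-- the action -/
private noncomputable def exAct : W →* Function.End (W × ZMod 2) :=
  cs.lift ⟨exPi cs, ex_liftable cs⟩

private theorem exAct_simple (i : B) : exAct cs (cs.simple i) = exPi cs i :=
  cs.lift_apply_simple (ex_liftable cs) i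

private theorem exAct_word (ω : List B) (t : W) (e : ZMod 2) [DecidableEq W] :
    exAct cs (cs.wordProd ω) (t, e) =
      (cs.wordProd ω * t * (cs.wordProd ω)⁻¹, e + ((cs.rightInvSeq ω).count t : ℕ)) := by
  induction ω with
  | nil =>
    simp only [CoxeterSystem.wordProd_nil, map_one, one_mul, inv_one, mul_one,
      CoxeterSystem.rightInvSeq_nil, List.count_nil, Nat.cast_zero, add_zero]
    rfl
  | cons i ω ih =>
    rw [CoxeterSystem.wordProd_cons, map_mul, Function.End.mul_def, Function.comp_apply, ih,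
      exAct_simple, exPi_apply]
    refine Prod.ext ?_ ?_
    · simp [mul_assoc]
    · simp only [CoxeterSystem.rightInvSeq, List.count_cons, beq_iff_eq]
      have e1 : (cs.wordProd ω * t * (cs.wordProd ω)⁻¹ = cs.simple i) ↔
          ((cs.wordProd ω)⁻¹ * cs.simple i * cs.wordProd ω = t) := by
        constructor
        · intro h
          rw [← h]
          group
        · intro h
          rw [← h]
          group
      simp only [e1, add_assoc]
      push_cast
      rfl

private theorem exAct_add (w t : W) (e : ZMod 2) :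
    exAct cs w (t, e) = (w * t * w⁻¹, e + (exAct cs w (t, 0)).2) := by
  classical
  obtain ⟨ω, rfl⟩ := cs.wordProd_surjective w
  rw [exAct_word, exAct_word]
  simp

private theorem exAct_refl {t : W} (ht : cs.IsReflection t) : exAct cs t (t, 0) = (t, 1) := by
  classical
  obtain ⟨u, i, hu⟩ := ht
  have h1 : exAct cs u⁻¹ (t, 0) = (cs.simple i, (exAct cs u⁻¹ (t, 0)).2) := by
    conv_lhs => rw [exAct_add]
    refine Prod.ext ?_ ?_
    · simp only
      rw [hu]
      group
    · simp
  set a := (exAct cs u⁻¹ (t, 0)).2 with ha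
  have h2 : exAct cs u (exAct cs u⁻¹ (t, 0)) = (t, 0) := by
    have : exAct cs u * exAct cs u⁻¹ = 1 := by
      rw [← map_mul]
      simp
    calc exAct cs u (exAct cs u⁻¹ (t, 0)) = (exAct cs u * exAct cs u⁻¹) (t, 0) := rfl
      _ = (t, 0) := by rw [this]; rfl
  rw [h1, exAct_add] at h2
  have h3 : a + (exAct cs u (cs.simple i, 0)).2 = 0 := (Prod.ext_iff.mp h2).2
  have h4 : exAct cs t (t, 0) = exAct cs u (exAct cs (cs.simple i) (exAct cs u⁻¹ (t, 0))) := by
    have : exAct cs t = exAct cs u * exAct cs (cs.simple i) * exAct cs u⁻¹ := by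
      rw [← map_mul, ← map_mul, ← hu]
    rw [this]
    rfl
  rw [h4, h1, exAct_simple, exPi_apply, exAct_add]
  refine Prod.ext ?_ ?_
  · simp [hu]
  · simp only [if_true]
    have h5 : (cs.simple i * cs.simple i * cs.simple i) = cs.simple i := by simp
    rw [h5]
    linear_combination h3

private theorem ex_odd {w t : W} (ht : cs.IsReflection t)
    (h : cs.length (w * t) < cs.length w) : (exAct cs w (t, 0)).2 = 1 := by
  classical
  by_contra hne
  have h0 : (exAct cs w (t, 0)).2 = 0 := by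
    have : ∀ x : ZMod 2, x ≠ 1 → x = 0 := by decide
    exact this _ hne
  have h1 : (exAct cs (w * t) (t, 0)).2 = 1 := by
    have : exAct cs (w * t) (t, 0) = exAct cs w (exAct cs t (t, 0)) := by
      rw [map_mul]
      rfl
    rw [this, exAct_refl cs ht, exAct_add, h0]
    simp
  obtain ⟨ω, hred, hω⟩ := cs.exists_isReduced (w * t)
  rw [hω, exAct_word] at h1
  have h2 : t ∈ cs.rightInvSeq ω := by
    by_contra hn
    rw [List.count_eq_zero_of_not_mem hn] at h1
    simp at h1
  have h3 := cs.isRightInversion_of_mem_rightInvSeq hred h2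
  rw [← hω] at h3
  have h4 := h3.2
  rw [mul_assoc, ht.mul_self, mul_one] at h4
  omega

theorem strong_exchange {ω : List B} {t : W} (ht : cs.IsReflection t)
    (h : cs.length (cs.wordProd ω * t) < cs.length (cs.wordProd ω)) :
    ∃ j < ω.length, cs.wordProd ω * t = cs.wordProd (ω.eraseIdx j) := by
  classical
  have h1 := ex_odd cs ht h
  rw [exAct_word] at h1
  have h2 : t ∈ cs.rightInvSeq ω := by
    by_contra hn
    rw [List.count_eq_zero_of_not_mem hn] at h1
    simp at h1
  obtain ⟨j, hj, hjt⟩ := List.mem_iff_getElem.mp h2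
  refine ⟨j, by simpa using hj, ?_⟩
  rw [← cs.wordProd_mul_getD_rightInvSeq, List.getD_eq_getElem _ 1 hj, hjt]

theorem simple_mul_eq_mul_simple {w : W} {i j : B} (h1 : ¬ cs.IsLeftDescent w i)
    (h2 : ¬ cs.IsRightDescent w j)
    (h3 : cs.length (cs.simple i * w * cs.simple j) < cs.length w + 2) :
    cs.simple i * w = w * cs.simple j := by
  have h1' := cs.not_isLeftDescent_iff.mp h1
  have h2' := cs.not_isRightDescent_iff.mp h2
  obtain ⟨ω, hred, hω⟩ := cs.exists_isReduced w
  have hlen : cs.length w = ω.length := by rw [hω]; exact hred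
  have h4 : cs.length (cs.simple i * w * cs.simple j) < cs.length (cs.simple i * w) := by
    have h5 := cs.length_mul_simple (cs.simple i * w) j
    omega
  have h6 : cs.wordProd (i :: ω) = cs.simple i * w := by rw [CoxeterSystem.wordProd_cons, hω]
  obtain ⟨k, hk, hk2⟩ := strong_exchange cs (ω := i :: ω) (cs.isReflection_simple j)
    (by rw [h6]; exact h4)
  rw [h6] at hk2
  rcases k with _ | k
  · simp only [List.eraseIdx_zero, List.tail_cons] at hk2
    rw [← hω] at hk2
    conv_rhs => rw [← hk2]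
    simp
  · exfalso
    simp only [List.eraseIdx_cons_succ, CoxeterSystem.wordProd_cons] at hk2
    rw [mul_assoc] at hk2
    have h7 := mul_left_cancel hk2
    have h8 : cs.length (w * cs.simple j) ≤ (ω.eraseIdx k).length := by
      rw [h7]
      exact cs.length_wordProd_le _
    have h9 : k < ω.length := by simpa using hk
    rw [List.length_eraseIdx_of_lt h9] at h8
    omega

end Pool.Agent.H73.HVN

end

section

/-!
# Module Geom: the geometric representation; simple generators are distinct, `m = ∞` is infinite order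

PLAN. `V = B →₀ ℝ` (or `B → ℝ` with the dual action), `α_i = single i 1`, bilinear form
`β(α_i, α_j) = -cos(π / M i j)` for `M i j ≠ 0` and `-1` for `M i j = 0` (`M i i = 1` gives `1`).
`σ_i v = v - 2 β(v, α_i) α_i`, a linear involution. Liftable: for `i ≠ j`, `m = M i j ≥ 2`,
`θ = π / m`: `(σ_i σ_j)^m = 1`. Put `x = β(v, α_i)`, `y = β(v, α_j)`, `c = cos θ`, then
`σ_i σ_j v = v - 2 y α_j - (2 x + 4 c y) α_i` (as `β(α_j, α_i) = -c`), and one proves by induction on `n` a
formula `(σ_i σ_j)^n v = v + a_n α_i + b_n α_j` where `a_n, b_n` are `x, y`-linear with coefficients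
`sin(n θ) * (...) / sin² θ`: explicitly with `S_n = sin (n θ) / sin θ`:
`a_n = -2 S_n (x S_n + y S_{n+1})`, `b_n = -2 S_n (x S_{n-1} + y S_n)` (check: `n = 1`:
`a_1 = -2 (x + 2 c y)`, `b_1 = -2 y`); the induction step uses `S_{n+1} + S_{n-1} = 2 c S_n` and
`S_{n+1}² - 2 c S_n S_{n+1} + S_n² = 1`. At `n = m`, `S_m = 0`. (Alternatively avoid trigonometry: define
`S_n` by the recursion and use only `S_m = 0`; or restrict to the 2-dimensional subspace.)
`σ : W → GL(V)` by `CoxeterSystem.lift`. If `s_i = s_j`, `i ≠ j`: `σ_i α_i = -α_i` but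
`σ_j α_i = α_i - 2 β(α_i, α_j) α_j` has `α_i`-coordinate `1`: contradiction.
If `M i j = 0` then `β(α_i, α_j) = -1`, and with `e = α_i + α_j`: `β(e, α_i) = β(e, α_j) = 0`,
`σ_i σ_j α_i = α_i + 2 (α_i + α_j)...` i.e. `(σ_i σ_j) α_i = α_i + 2 e` (compute: `σ_j α_i = α_i + 2 α_j`,
`σ_i (α_i + 2 α_j) = -α_i + 2 α_j + 4 α_i = 3 α_i + 2 α_j = α_i + 2 e`), `σ_i σ_j e = e`, so
`(σ_i σ_j)^n α_i = α_i + 2 n e ≠ α_i` for `n ≠ 0`.
-/

set_option autoImplicit false

namespace Pool.Agent.H73.HVN

universe u v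

variable {B : Type v} {W : Type u} [Group W] {M : CoxeterMatrix B} (cs : CoxeterSystem M W)

/-! ### the product of two reflections -/

private theorem geom_pow {V : Type v} [AddCommGroup V] [Module ℝ V] (f g : V →ₗ[ℝ] ℝ) (a b : V)
    (c : ℝ) (θ : ℝ) (hθ : c = Real.cos θ) (hfa : f a = 1) (hgb : g b = 1) (hfb : f b = -c)
    (hga : g a = -c) (P : V →ₗ[ℝ] V)
    (hP : ∀ v, P v = v - (2 * g v) • b - (2 * f v + 4 * c * g v) • a) (n : ℕ) :
    ∃ s t : ℝ, s * Real.sin θ = Real.sin (n * θ) ∧ t * Real.sin θ = Real.sin ((n + 1) * θ) ∧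
      t ^ 2 - 2 * c * s * t + s ^ 2 = 1 ∧
      ∀ v, (P ^ n) v = v + (-2 * s * (f v * s + g v * t)) • a +
        (-2 * s * (f v * (2 * c * s - t) + g v * s)) • b := by
  induction n with
  | zero =>
    refine ⟨0, 1, by simp, by simp, by ring, fun v => ?_⟩
    simp
  | succ n ih =>
    obtain ⟨s, t, hs, ht, hst, hv⟩ := ih
    refine ⟨t, 2 * c * t - s, ?_, ?_, by linear_combination hst, fun v => ?_⟩
    · rw [ht]
      push_cast
      ring_nf
    · have h1 : Real.sin ((n + 1 + 1) * θ) =
          2 * Real.cos θ * Real.sin ((n + 1) * θ) - Real.sin (n * θ) := by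
        have e1 : ((n : ℝ) + 1 + 1) * θ = (n + 1) * θ + θ := by ring
        have e2 : (n : ℝ) * θ = (n + 1) * θ - θ := by ring
        rw [e1, e2, Real.sin_add, Real.sin_sub]
        ring
      push_cast
      rw [h1, ← ht, ← hs, hθ]
      ring
    · have hf : f ((P ^ n) v) = f v + (-2 * s * (f v * s + g v * t)) -
          c * (-2 * s * (f v * (2 * c * s - t) + g v * s)) := by
        rw [hv v, map_add, map_add, map_smul, map_smul, hfa, hfb]
        simp only [smul_eq_mul]
        ring
      have hg : g ((P ^ n) v) = g v - c * (-2 * s * (f v * s + g v * t)) +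
          (-2 * s * (f v * (2 * c * s - t) + g v * s)) := by
        rw [hv v, map_add, map_add, map_smul, map_smul, hga, hgb]
        simp only [smul_eq_mul]
        ring
      rw [pow_succ', Module.End.mul_apply, hP ((P ^ n) v), hf, hg, hv v]
      generalize f v = x
      generalize g v = y
      have e1 : (-2 * t * (x * t + y * (2 * c * t - s))) =
          (-2 * s * (x * s + y * t)) -
          (2 * (x + -2 * s * (x * s + y * t) - c * (-2 * s * (x * (2 * c * s - t) + y * s))) +
            4 * c * (y - c * (-2 * s * (x * s + y * t)) +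
              -2 * s * (x * (2 * c * s - t) + y * s))) := by
        linear_combination (-(2 * x + 4 * c * y)) * hst
      have e2 : (-2 * t * (x * (2 * c * t - (2 * c * t - s)) + y * t)) =
          (-2 * s * (x * (2 * c * s - t) + y * s)) -
          2 * (y - c * (-2 * s * (x * s + y * t)) +
              -2 * s * (x * (2 * c * s - t) + y * s)) := by
        linear_combination (-(2 * y)) * hst
      rw [e1, e2]
      module

private theorem geom_pow_eq_one {V : Type v} [AddCommGroup V] [Module ℝ V] (f g : V →ₗ[ℝ] ℝ)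
    (a b : V) (m : ℕ) (hm : 2 ≤ m) (hfa : f a = 1) (hgb : g b = 1)
    (hfb : f b = -Real.cos (Real.pi / m)) (hga : g a = -Real.cos (Real.pi / m)) (P : V →ₗ[ℝ] V)
    (hP : ∀ v, P v = v - (2 * g v) • b - (2 * f v + 4 * Real.cos (Real.pi / m) * g v) • a) :
    P ^ m = 1 := by
  obtain ⟨s, t, hs, -, -, hv⟩ := geom_pow f g a b _ (Real.pi / m) rfl hfa hgb hfb hga P hP m
  have hm0 : (0 : ℝ) < m := by exact_mod_cast (by omega : 0 < m)
  have h1 : (m : ℝ) * (Real.pi / m) = Real.pi := by field_simp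
  rw [h1, Real.sin_pi] at hs
  have h2 : 0 < Real.sin (Real.pi / m) := by
    apply Real.sin_pos_of_pos_of_lt_pi
    · exact div_pos Real.pi_pos hm0
    · rw [div_lt_iff₀ hm0]
      have h3 : (2 : ℝ) ≤ m := by exact_mod_cast hm
      nlinarith [Real.pi_pos]
  have h3 : s = 0 := by
    rcases mul_eq_zero.1 hs with h | h
    · exact h
    · exact absurd h h2.ne'
  ext v
  rw [hv v, h3]
  simp

/-! ### the geometric representation -/

/-- the bilinear form on the simple roots -/
private noncomputable def geomK (M : CoxeterMatrix B) (i j : B) : ℝ :=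
  if M i j = 0 then -1 else -Real.cos (Real.pi / M i j)

private theorem geomK_symm (i j : B) : geomK M i j = geomK M j i := by
  unfold geomK
  rw [M.symmetric i j]

private theorem geomK_self (i : B) : geomK M i i = 1 := by
  unfold geomK
  rw [M.diagonal i]
  simp

/-- the form with the simple root number `i` -/
private noncomputable def geomF (M : CoxeterMatrix B) (i : B) : (B →₀ ℝ) →ₗ[ℝ] ℝ :=
  Finsupp.linearCombination ℝ (fun j => geomK M i j)

private theorem geomF_single (i j : B) : geomF M i (Finsupp.single j 1) = geomK M i j := by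
  unfold geomF
  rw [Finsupp.linearCombination_single, one_smul]

/-- the reflection number `i` -/
private noncomputable def geomR (M : CoxeterMatrix B) (i : B) : Module.End ℝ (B →₀ ℝ) :=
  LinearMap.id - (2 : ℝ) • (geomF M i).smulRight (Finsupp.single i 1)

private theorem geomR_apply (i : B) (v : B →₀ ℝ) :
    geomR M i v = v - (2 * geomF M i v) • Finsupp.single i (1 : ℝ) := by
  unfold geomR
  rw [LinearMap.sub_apply, LinearMap.smul_apply, LinearMap.smulRight_apply, LinearMap.id_apply,
    smul_smul]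

private theorem geomR_mul (i j : B) (v : B →₀ ℝ) :
    (geomR M i * geomR M j) v = v - (2 * geomF M j v) • Finsupp.single j (1 : ℝ) -
      (2 * geomF M i v + 4 * (-geomK M i j) * geomF M j v) • Finsupp.single i (1 : ℝ) := by
  rw [Module.End.mul_apply, geomR_apply, geomR_apply, map_sub, map_smul, geomF_single]
  congr 2
  simp only [smul_eq_mul]
  ring

private theorem geomR_liftable : M.IsLiftable (geomR M) := by
  intro i j
  rcases Nat.eq_zero_or_pos (M i j) with h0 | h0
  · rw [h0, pow_zero]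
  by_cases hij : i = j
  · subst hij
    rw [M.diagonal i, pow_one]
    refine LinearMap.ext fun v => ?_
    rw [geomR_mul, geomK_self, Module.End.one_apply]
    module
  · have h1 : M i j ≠ 1 := M.off_diagonal i j hij
    have hk : geomK M i j = -Real.cos (Real.pi / M i j) := by
      unfold geomK
      rw [if_neg h0.ne']
    refine geom_pow_eq_one (geomF M i) (geomF M j) (Finsupp.single i 1) (Finsupp.single j 1)
      (M i j) (by omega) ?_ ?_ ?_ ?_ _ fun v => ?_
    · rw [geomF_single, geomK_self]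
    · rw [geomF_single, geomK_self]
    · rw [geomF_single, hk]
    · rw [geomF_single, geomK_symm, hk]
    · rw [geomR_mul, hk, neg_neg]

theorem simple_injective : Function.Injective cs.simple := by
  intro i j hij
  by_contra hne
  have h1 : cs.lift ⟨geomR M, geomR_liftable⟩ (cs.simple i) =
      cs.lift ⟨geomR M, geomR_liftable⟩ (cs.simple j) := by rw [hij]
  rw [cs.lift_apply_simple, cs.lift_apply_simple] at h1
  have h2 := congrArg (fun T : Module.End ℝ (B →₀ ℝ) => (T (Finsupp.single i 1)) i) h1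
  simp only [geomR_apply, geomF_single, geomK_self, Finsupp.sub_apply, Finsupp.smul_apply,
    Finsupp.single_eq_same, smul_eq_mul] at h2
  rw [Finsupp.single_eq_of_ne hne] at h2
  norm_num at h2

theorem pow_ne_one_of_eq_zero {i j : B} (h : M i j = 0) {n : ℕ} (hn : n ≠ 0) :
    (cs.simple i * cs.simple j) ^ n ≠ 1 := by
  have hne : i ≠ j := by
    rintro rfl
    rw [M.diagonal i] at h
    exact one_ne_zero h
  have hk : geomK M i j = -1 := by
    unfold geomK
    rw [if_pos h]
  have hk' : geomK M j i = -1 := by rw [geomK_symm, hk]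
  intro h1
  have h2 := congrArg (cs.lift ⟨geomR M, geomR_liftable⟩) h1
  rw [map_pow, map_mul, map_one, cs.lift_apply_simple, cs.lift_apply_simple] at h2
  have h3 : ∀ n : ℕ, ((geomR M i * geomR M j) ^ n) (Finsupp.single i (1 : ℝ)) =
      Finsupp.single i (1 : ℝ) +
        (2 * (n : ℝ)) • (Finsupp.single i (1 : ℝ) + Finsupp.single j (1 : ℝ)) := by
    intro n
    induction n with
    | zero => simp
    | succ n ih =>
      rw [pow_succ', Module.End.mul_apply, ih, geomR_mul, hk]
      simp only [map_add, map_smul, geomF_single, geomK_self, hk, hk', smul_eq_mul]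
      push_cast
      module
  have h4 := congrArg (fun T : Module.End ℝ (B →₀ ℝ) => (T (Finsupp.single i 1)) j) h2
  simp only [h3 n, Module.End.one_apply, Finsupp.add_apply, Finsupp.smul_apply,
    Finsupp.single_eq_same, smul_eq_mul] at h4
  rw [Finsupp.single_eq_of_ne hne.symm] at h4
  have h5 : (n : ℝ) = 0 := by linarith
  exact hn (by exact_mod_cast h5)

end Pool.Agent.H73.HVN

end

section

/-!
# Module Parab: parabolic subgroups, supports, minimal coset representatives

PLAN.
* `exists_reduced_word_mem`: every `w ∈ W_L` is the product of a word in letters from `L`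
  (`Subgroup.closure_induction`, `inv_simple`); take such a word of minimal length. It is reduced: if not,
  there is a first prefix `ω' ++ [i]` with `ω'` reduced and `ω' ++ [i]` not, so `ℓ(π ω' s_i) < ℓ(π ω')` and
  `strong_exchange` (`t = s_i`) gives a shorter word in letters from `L`.
* `mem_of_isReduced`: induction on the word. `ω = ω' ++ [i]`, `w = π ω`; let `η` be a reduced `L`-word of
  `w`. `i` is a right descent of `w`, so `w s_i = π (η.eraseIdx k)` is in `W_L` with reduced word `ω'`, so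
  `ω' ⊆ L`; then `s_i = (w s_i)⁻¹ w ∈ W_L`, it has length 1 so a reduced `L`-word of it has one letter
  `i' ∈ L`, `s_i = s_{i'}`, and `simple_injective` gives `i = i' ∈ L`.
* `right_descent_mem`: if `w ∈ W_L` and `i` is a right descent of `w` then `i ∈ L` (a reduced word of `w`
  ending in `i`).
* `length_mul_of_min`: let `u` have no right descent in `L`. First: `u` is an element of minimal length
  `u'` of `u W_L`: write `u = u' l`, `u'` of minimal length in the coset, `ℓ(u' l) = ℓ(u') + ℓ(l)` (by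
  induction on `ℓ(l)` with strong exchange: if `ℓ(u' l s_i) < ℓ(u' l)` where `ℓ (l s_i) > ℓ(l)`, `i ∈ L`, a
  letter can be deleted from the word `u'·l`; deletion in the `l`-part contradicts `ℓ (l s_i) > ℓ(l)`,
  deletion in the `u'`-part gives an element of `u' W_L` shorter than `u'`); if `l ≠ 1`, a right descent
  of `l` (it is in `L`) is a right descent of `u`: contradiction. So `l = 1`, `u = u'`, and the additivity
  just shown is the claim.
* `exists_min`: take `u` of minimal length in the coset.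
* `min_unique`: `u l = u' l'` gives `u = u' l''`, `l'' = l' l⁻¹ ∈ W_L`, lengths give `l'' = 1`.
* left versions: take inverses.
-/

set_option autoImplicit false

namespace Pool.Agent.H73.HVN

universe u v

variable {B : Type v} {W : Type u} [Group W] {M : CoxeterMatrix B} (cs : CoxeterSystem M W)

private theorem parab_eraseIdx {L : Set B} {ω : List B} (hω : cs.IsReduced ω)
    (hL : ∀ i ∈ ω, i ∈ L) {i : B} (hi : cs.length (cs.wordProd ω * cs.simple i) <
      cs.length (cs.wordProd ω)) :
    ∃ ω' : List B, cs.IsReduced ω' ∧ cs.wordProd ω * cs.simple i = cs.wordProd ω' ∧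
      ∀ i ∈ ω', i ∈ L := by
  obtain ⟨j, hj, h⟩ := strong_exchange cs (cs.isReflection_simple i) hi
  refine ⟨ω.eraseIdx j, ?_, h, fun k hk => hL k (List.mem_of_mem_eraseIdx hk)⟩
  have h1 := cs.length_wordProd_le (ω.eraseIdx j)
  have h2 := List.length_eraseIdx_of_lt hj
  have h3 := cs.length_mul_simple (cs.wordProd ω) i
  rw [h] at h3 hi
  have h4 := hω.eq
  unfold CoxeterSystem.IsReduced
  omega

private theorem parab_concat {ω : List B} (hω : cs.IsReduced ω) {i : B}
    (hi : ¬ cs.length (cs.wordProd ω * cs.simple i) < cs.length (cs.wordProd ω)) :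
    cs.IsReduced (ω ++ [i]) := by
  have h3 := cs.length_mul_simple (cs.wordProd ω) i
  have h4 := hω.eq
  unfold CoxeterSystem.IsReduced
  rw [cs.wordProd_append, cs.wordProd_singleton, List.length_append, List.length_singleton]
  omega

theorem exists_reduced_word_mem {L : Set B} {w : W} (hw : w ∈ WP cs L) :
    ∃ ω : List B, cs.IsReduced ω ∧ w = cs.wordProd ω ∧ ∀ i ∈ ω, i ∈ L := by
  have key : ∀ x : W, ∀ i ∈ L, (∃ ω : List B, cs.IsReduced ω ∧ x = cs.wordProd ω ∧
      ∀ i ∈ ω, i ∈ L) → ∃ ω : List B, cs.IsReduced ω ∧ x * cs.simple i = cs.wordProd ω ∧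
      ∀ i ∈ ω, i ∈ L := by
    rintro x i hi ⟨ω, hω, rfl, hL⟩
    by_cases h : cs.length (cs.wordProd ω * cs.simple i) < cs.length (cs.wordProd ω)
    · exact parab_eraseIdx cs hω hL h
    · refine ⟨ω ++ [i], parab_concat cs hω h, ?_, ?_⟩
      · rw [cs.wordProd_append, cs.wordProd_singleton]
      · intro k hk
        rcases List.mem_append.1 hk with hk | hk
        · exact hL k hk
        · rw [List.mem_singleton.1 hk]
          exact hi
  unfold WP at hw
  induction hw using Subgroup.closure_induction_right with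
  | one => exact ⟨[], by unfold CoxeterSystem.IsReduced; simp, by simp, by simp⟩
  | mul_right x hx y hy ih =>
    obtain ⟨i, hi, rfl⟩ := hy
    exact key x i hi ih
  | mul_inv_cancel x hx y hy ih =>
    obtain ⟨i, hi, rfl⟩ := hy
    rw [cs.inv_simple]
    exact key x i hi ih

private theorem parab_wordProd_mem {L : Set B} {ω : List B} (h : ∀ i ∈ ω, i ∈ L) :
    cs.wordProd ω ∈ WP cs L := by
  induction ω with
  | nil =>
    rw [cs.wordProd_nil]
    exact one_mem _
  | cons i ω ih =>
    rw [cs.wordProd_cons]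
    exact mul_mem (Subgroup.subset_closure ⟨i, h i (by simp), rfl⟩)
      (ih fun k hk => h k (by simp [hk]))

private theorem parab_simple {L : Set B} {i : B} (h : cs.simple i ∈ WP cs L) : i ∈ L := by
  obtain ⟨ω, hω, h1, hL⟩ := exists_reduced_word_mem cs h
  have h2 := hω.eq
  rw [← h1, cs.length_simple] at h2
  obtain ⟨k, rfl⟩ := List.length_eq_one_iff.1 h2.symm
  rw [cs.wordProd_singleton] at h1
  rw [simple_injective cs h1]
  exact hL k (by simp)

private theorem parab_right {L : Set B} {w : W} (hw : w ∈ WP cs L) {i : B}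
    (hi : cs.IsRightDescent w i) : i ∈ L := by
  obtain ⟨ω, hω, rfl, hL⟩ := exists_reduced_word_mem cs hw
  obtain ⟨ω', -, h, hL'⟩ := parab_eraseIdx cs hω hL hi
  apply parab_simple cs
  have h1 : cs.simple i = (cs.wordProd ω)⁻¹ * cs.wordProd ω' := by
    rw [← h]
    group
  rw [h1]
  exact mul_mem (inv_mem hw) (parab_wordProd_mem cs hL')

theorem mem_of_isReduced {L : Set B} {ω : List B} (hω : cs.IsReduced ω)
    (h : cs.wordProd ω ∈ WP cs L) : ∀ i ∈ ω, i ∈ L := by
  induction ω using List.reverseRecOn with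
  | nil => simp
  | append_singleton ω i ih =>
    have h1 : cs.IsReduced ω := by
      have := hω.take ω.length
      rwa [List.take_left] at this
    have h2 := hω.eq
    have h3 := h1.eq
    have h4 : cs.wordProd (ω ++ [i]) * cs.simple i = cs.wordProd ω := by
      rw [cs.wordProd_append, cs.wordProd_singleton, cs.simple_mul_simple_cancel_right]
    have h5 : cs.IsRightDescent (cs.wordProd (ω ++ [i])) i := by
      unfold CoxeterSystem.IsRightDescent
      rw [h4, h2, h3]
      simp
    have h6 : i ∈ L := parab_right cs h h5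
    have h7 : cs.wordProd ω ∈ WP cs L := by
      rw [← h4]
      exact mul_mem h (Subgroup.subset_closure ⟨i, h6, rfl⟩)
    intro k hk
    rcases List.mem_append.1 hk with hk | hk
    · exact ih h1 h7 k hk
    · rw [List.mem_singleton.1 hk]
      exact h6

theorem right_descent_mem {L : Set B} {w : W} (hw : w ∈ WP cs L) {i : B}
    (hi : cs.IsRightDescent w i) : i ∈ L := parab_right cs hw hi

theorem simple_mem_WP_iff {L : Set B} {i : B} : cs.simple i ∈ WP cs L ↔ i ∈ L :=
  ⟨parab_simple cs, fun h => Subgroup.subset_closure ⟨i, h, rfl⟩⟩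

private theorem parab_add {L : Set B} {u : W} (hu : ∀ l ∈ WP cs L, cs.length u ≤
    cs.length (u * l)) (ω : List B) (hω : cs.IsReduced ω) (hL : ∀ i ∈ ω, i ∈ L) :
    cs.length (u * cs.wordProd ω) = cs.length u + ω.length := by
  induction ω using List.reverseRecOn with
  | nil => simp
  | append_singleton ω i ih =>
    have h1 : cs.IsReduced ω := by
      have := hω.take ω.length
      rwa [List.take_left] at this
    have h2 := hω.eq
    have h3 := h1.eq
    have hLω : ∀ i ∈ ω, i ∈ L := fun k hk => hL k (by simp [hk])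
    have hi : i ∈ L := hL i (by simp)
    have h4 := ih h1 hLω
    have hmem : cs.wordProd ω ∈ WP cs L := parab_wordProd_mem cs hLω
    have hsi : cs.simple i ∈ WP cs L := Subgroup.subset_closure ⟨i, hi, rfl⟩
    rw [cs.wordProd_append, cs.wordProd_singleton] at h2 ⊢
    rw [← mul_assoc, List.length_append, List.length_singleton]
    rw [List.length_append, List.length_singleton] at h2
    rcases cs.length_mul_simple (u * cs.wordProd ω) i with h5 | h5
    · omega
    · exfalso
      obtain ⟨υ, hυ, hυu⟩ := cs.exists_isReduced u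
      have h6 : cs.wordProd (υ ++ ω) = u * cs.wordProd ω := by
        rw [cs.wordProd_append, ← hυu]
      obtain ⟨j, hj, h7⟩ := strong_exchange cs (ω := υ ++ ω) (cs.isReflection_simple i)
        (by rw [h6]; omega)
      rw [h6] at h7
      by_cases hj1 : j < υ.length
      · rw [List.eraseIdx_append_of_lt_length hj1, cs.wordProd_append] at h7
        have h8 : u * (cs.wordProd ω * cs.simple i * (cs.wordProd ω)⁻¹) =
            cs.wordProd (υ.eraseIdx j) := by
          rw [← mul_assoc, ← mul_assoc, h7]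
          group
        have h9 := hu _ (mul_mem (mul_mem hmem hsi) (inv_mem hmem))
        rw [h8] at h9
        have h10 := cs.length_wordProd_le (υ.eraseIdx j)
        have h11 := List.length_eraseIdx_of_lt hj1
        have h12 := hυ.eq
        rw [← hυu] at h12
        omega
      · rw [not_lt] at hj1
        rw [List.eraseIdx_append_of_length_le hj1, cs.wordProd_append, ← hυu, mul_assoc,
          mul_left_cancel_iff] at h7
        rw [List.length_append] at hj
        have h10 := cs.length_wordProd_le (ω.eraseIdx (j - υ.length))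
        have h11 := List.length_eraseIdx_of_lt (l := ω) (i := j - υ.length) (by omega)
        rw [h7] at h2
        omega

private theorem parab_exists_min (L : Set B) (y : W) :
    ∃ u l, (∀ l ∈ WP cs L, cs.length u ≤ cs.length (u * l)) ∧ l ∈ WP cs L ∧ y = u * l := by
  classical
  have hex : ∃ n, ∃ l ∈ WP cs L, cs.length (y * l) = n := ⟨_, 1, one_mem _, rfl⟩
  obtain ⟨l, hl, hn⟩ := Nat.find_spec hex
  refine ⟨y * l, l⁻¹, ?_, inv_mem hl, by group⟩
  intro l' hl'
  rw [hn]
  exact Nat.find_min' hex ⟨l * l', mul_mem hl hl', by rw [mul_assoc]⟩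

private theorem parab_min_of_no_descent {L : Set B} {u : W}
    (hu : ∀ i ∈ L, ¬ cs.IsRightDescent u i) :
    ∀ l ∈ WP cs L, cs.length u ≤ cs.length (u * l) := by
  obtain ⟨u', l, hu', hl, rfl⟩ := parab_exists_min cs L u
  by_cases h1 : l = 1
  · subst h1
    rwa [mul_one]
  · exfalso
    obtain ⟨i, hi⟩ := cs.exists_rightDescent_of_ne_one h1
    have hiL := parab_right cs hl hi
    apply hu i hiL
    obtain ⟨ω, hω, h2, hL⟩ := exists_reduced_word_mem cs hl
    have hls : l * cs.simple i ∈ WP cs L := mul_mem hl (Subgroup.subset_closure ⟨i, hiL, rfl⟩)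
    obtain ⟨ω', hω', h3, hL'⟩ := exists_reduced_word_mem cs hls
    have h4 := parab_add cs hu' ω hω hL
    have h5 := parab_add cs hu' ω' hω' hL'
    have h6 := hω.eq
    have h7 := hω'.eq
    rw [← h2] at h4 h6
    rw [← h3] at h5 h7
    unfold CoxeterSystem.IsRightDescent at hi ⊢
    rw [mul_assoc]
    omega

theorem length_mul_of_min {L : Set B} {u l : W} (hu : ∀ i ∈ L, ¬ cs.IsRightDescent u i)
    (hl : l ∈ WP cs L) : cs.length (u * l) = cs.length u + cs.length l := by
  obtain ⟨ω, hω, rfl, hL⟩ := exists_reduced_word_mem cs hl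
  rw [parab_add cs (parab_min_of_no_descent cs hu) ω hω hL, hω.eq]

theorem exists_min (L : Set B) (y : W) :
    ∃ u l, (∀ i ∈ L, ¬ cs.IsRightDescent u i) ∧ l ∈ WP cs L ∧ y = u * l := by
  obtain ⟨u, l, hu, hl, h⟩ := parab_exists_min cs L y
  refine ⟨u, l, fun i hi hd => ?_, hl, h⟩
  have h1 := hu (cs.simple i) (Subgroup.subset_closure ⟨i, hi, rfl⟩)
  unfold CoxeterSystem.IsRightDescent at hd
  omega

theorem min_unique {L : Set B} {u u' l l' : W} (hu : ∀ i ∈ L, ¬ cs.IsRightDescent u i)
    (hu' : ∀ i ∈ L, ¬ cs.IsRightDescent u' i) (hl : l ∈ WP cs L) (hl' : l' ∈ WP cs L)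
    (h : u * l = u' * l') : u = u' ∧ l = l' := by
  have h1 : u = u' * (l' * l⁻¹) := by
    rw [← mul_assoc, ← h]
    group
  have h2 : u' = u * (l * l'⁻¹) := by
    rw [← mul_assoc, h]
    group
  have h3 := length_mul_of_min cs hu' (mul_mem hl' (inv_mem hl))
  have h4 := length_mul_of_min cs hu (mul_mem hl (inv_mem hl'))
  rw [← h1] at h3
  rw [← h2] at h4
  have h5 : cs.length (l' * l⁻¹) = 0 := by omega
  rw [cs.length_eq_zero_iff] at h5
  refine ⟨?_, (mul_inv_eq_one.1 h5).symm⟩
  rw [h1, h5, mul_one]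

end Pool.Agent.H73.HVN

end

section

/-!
# Module Two: two descents; Deodhar's lemma; descent propagation

PLAN.
* `two_descents`: `i ≠ j` right descents of `x`. Write `x = u d`, `d ∈ W_{i,j}`, `u` without right
  descents in `{i, j}` (`exists_min`, `L = {i, j}`). By `length_mul_of_min` (for `d` and `d s_i`, `d s_j`)
  `i` and `j` are right descents of `d`. `d ≠ 1`, so `d = d' s_i` with `ℓ(d') = ℓ(d) - 1`. Reduced words of
  `d` in the letters `i, j` alternate (a reduced word has no two equal adjacent letters), so `d` has a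
  reduced word `alternatingWord j i n` (the one that ends in `i`) and a reduced word
  `alternatingWord i j n` (the one that ends in `j`), `n = ℓ(d) ≥ 1` (CHECK the Mathlib convention: 
  `alternatingWord i i' m` ends in `i'`). Equality of the two products gives `(s_i s_j)^n = 1`
  (`prod_alternatingWord_eq_mul_pow`, cases `n` even or odd; or directly: the product of one with the
  inverse of the other is `(s_i s_j)^{±n}`), so `M i j ≠ 0` by `pow_ne_one_of_eq_zero`. If `n = 1`,
  `s_i = s_j`: contradiction with `simple_injective`. So `n ≥ 2`, and the reduced word ending in `i`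
  reads `… j i`, so `j` is a right descent of `d s_i`, and of `x s_i` by `length_mul_of_min` again.
* `two_left_descents`: inverses.
* `deodhar_left`: `v` has no left descent in `L`. Suppose `v s_c` has a left descent `i ∈ L`. Then
  `ℓ(s_i v) = ℓ(v) + 1`. If `ℓ(v s_c) < ℓ(v)`, then
  `ℓ(s_i v s_c) ≥ ℓ(s_i v) - 1 = ℓ(v) = ℓ(v s_c) + 1`: contradiction. So `c` is not a right descent of `v`
  and `ℓ(s_i v s_c) < ℓ(v s_c) = ℓ(v) + 1`: `simple_mul_eq_mul_simple` gives `s_i v = v s_c`.
* `desc_of_mul`: induction on `ℓ(l)`. If `l ≠ 1` it has a right descent `k ∈ L`, `k` is a right descent of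
  `u l`, `k ≠ j`, so by `two_descents` `j` is a right descent of `u (l s_k)`.
-/

set_option autoImplicit false

namespace Pool.Agent.H73.HVN

universe u v

variable {B : Type v} {W : Type u} [Group W] {M : CoxeterMatrix B} (cs : CoxeterSystem M W)

private theorem mul_pow_mul_aux (a b : W) (n : ℕ) : a * (b * a) ^ n * b = (a * b) ^ (n + 1) := by
  induction n with
  | zero => simp
  | succ n ih =>
    rw [pow_succ, pow_succ (a * b) (n + 1), ← ih]
    group

/-- alternating product of `n` factors, the last one is `s_j` -/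
private def tp (cs : CoxeterSystem M W) : ℕ → B → B → W
  | 0, _, _ => 1
  | n + 1, i, j => tp cs n j i * cs.simple j

private theorem tp_zero (i j : B) : tp cs 0 i j = 1 := rfl

private theorem tp_succ (n : ℕ) (i j : B) : tp cs (n + 1) i j = tp cs n j i * cs.simple j := rfl

private theorem tp_inv_mul (n : ℕ) (i j : B) :
    (tp cs n i j)⁻¹ * tp cs n j i = (cs.simple j * cs.simple i) ^ n := by
  induction n generalizing i j with
  | zero => simp [tp_zero]
  | succ n ih =>
    rw [tp_succ, tp_succ, ← mul_pow_mul_aux, ← ih j i, mul_inv_rev, cs.inv_simple]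
    group

private theorem length_tp_le (n : ℕ) (i j : B) : cs.length (tp cs n i j) ≤ n := by
  induction n generalizing i j with
  | zero => simp [tp_zero]
  | succ n ih =>
    rw [tp_succ]
    have h1 := cs.length_mul_le (tp cs n j i) (cs.simple j)
    have h2 := ih j i
    rw [cs.length_simple] at h1
    omega

private theorem eq_tp (n : ℕ) {i j : B} (hij : i ≠ j) {d : W} (hn : cs.length d = n)
    (hd : d ∈ WP cs ({i, j} : Set B)) (hj : cs.IsRightDescent d j) : d = tp cs n i j := by
  induction n generalizing i j d with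
  | zero =>
    rw [cs.length_eq_zero_iff] at hn
    rw [hn] at hj
    exact absurd hj (cs.not_isRightDescent_one j)
  | succ n ih =>
    have h1 := cs.isRightDescent_iff.1 hj
    have h2 : d = d * cs.simple j * cs.simple j := by
      rw [cs.simple_mul_simple_cancel_right]
    have h3 : d * cs.simple j ∈ WP cs ({i, j} : Set B) :=
      mul_mem hd ((simple_mem_WP_iff cs).2 (by simp))
    rw [tp_succ]
    by_cases h4 : d * cs.simple j = 1
    · have h5 : cs.length d = 1 := by
        rw [h4, cs.length_one] at h1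
        omega
      have h6 : n = 0 := by omega
      subst h6
      rw [tp_zero, one_mul, h2, h4, one_mul]
    · obtain ⟨k, hk⟩ := cs.exists_rightDescent_of_ne_one h4
      have hkm := right_descent_mem cs h3 hk
      have hkj : k ≠ j := by
        rintro rfl
        have h7 : cs.length (d * cs.simple k * cs.simple k) < cs.length (d * cs.simple k) := hk
        rw [← h2] at h7
        omega
      have hki : k = i := by
        rcases hkm with h | h
        · exact h
        · exact absurd h hkj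
      subst hki
      have h8 := ih (i := j) (j := k) hij.symm (d := d * cs.simple j) (by omega)
        (by rw [Set.pair_comm]; exact h3) hk
      rw [← h8]
      exact h2

private theorem two_aux {d : W} {i j : B} (hij : i ≠ j) (hd : d ∈ WP cs ({i, j} : Set B))
    (hi : cs.IsRightDescent d i) (hj : cs.IsRightDescent d j) :
    M i j ≠ 0 ∧ cs.IsRightDescent (d * cs.simple i) j := by
  have h1 : d = tp cs (cs.length d) i j := eq_tp cs _ hij rfl hd hj
  have h2 : d = tp cs (cs.length d) j i := eq_tp cs _ hij.symm rfl (by rw [Set.pair_comm]; exact hd) hi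
  have h3 : (cs.simple j * cs.simple i) ^ cs.length d = 1 := by
    rw [← tp_inv_mul, ← h1, ← h2, inv_mul_cancel]
  have h4 : cs.length d ≠ 0 := by
    intro h
    rw [cs.length_eq_zero_iff] at h
    rw [h] at hi
    exact cs.not_isRightDescent_one i hi
  refine ⟨?_, ?_⟩
  · intro h
    rw [M.symmetric] at h
    exact pow_ne_one_of_eq_zero cs h h4 h3
  · have h5 := cs.isRightDescent_iff.1 hi
    rcases hn : cs.length d with _ | _ | m
    · exact absurd hn h4
    · rw [hn] at h1 h2
      rw [tp_succ, tp_zero, one_mul] at h1 h2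
      exact absurd (simple_injective cs (h2.symm.trans h1)) hij
    · rw [hn] at h2
      have h6 : d * cs.simple i = tp cs m j i * cs.simple j := by
        rw [← tp_succ]
        conv_lhs => rw [h2, tp_succ]
        rw [cs.simple_mul_simple_cancel_right]
      have h7 : d * cs.simple i * cs.simple j = tp cs m j i := by
        rw [h6, cs.simple_mul_simple_cancel_right]
      have h8 := length_tp_le cs m j i
      change cs.length (d * cs.simple i * cs.simple j) < cs.length (d * cs.simple i)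
      rw [h7]
      omega

theorem two_descents {x : W} {i j : B} (hij : i ≠ j) (hi : cs.IsRightDescent x i)
    (hj : cs.IsRightDescent x j) : M i j ≠ 0 ∧ cs.IsRightDescent (x * cs.simple i) j := by
  obtain ⟨u, d, hu, hd, rfl⟩ := exists_min cs ({i, j} : Set B) x
  have hsi : cs.simple i ∈ WP cs ({i, j} : Set B) := (simple_mem_WP_iff cs).2 (by simp)
  have hsj : cs.simple j ∈ WP cs ({i, j} : Set B) := (simple_mem_WP_iff cs).2 (by simp)
  have l0 := length_mul_of_min cs hu hd
  have li := length_mul_of_min cs hu (mul_mem hd hsi)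
  have lj := length_mul_of_min cs hu (mul_mem hd hsj)
  have lij := length_mul_of_min cs hu (mul_mem (mul_mem hd hsi) hsj)
  have hi' : cs.length (u * d * cs.simple i) < cs.length (u * d) := hi
  have hj' : cs.length (u * d * cs.simple j) < cs.length (u * d) := hj
  rw [mul_assoc, li, l0] at hi'
  rw [mul_assoc, lj, l0] at hj'
  obtain ⟨h1, h2⟩ := two_aux cs hij hd (show cs.length (d * cs.simple i) < cs.length d by omega)
    (show cs.length (d * cs.simple j) < cs.length d by omega)
  refine ⟨h1, ?_⟩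
  have h2' : cs.length (d * cs.simple i * cs.simple j) < cs.length (d * cs.simple i) := h2
  change cs.length (u * d * cs.simple i * cs.simple j) < cs.length (u * d * cs.simple i)
  have e1 : u * d * cs.simple i = u * (d * cs.simple i) := mul_assoc _ _ _
  rw [e1, mul_assoc u, lij, li]
  omega

theorem two_left_descents {x : W} {i j : B} (hij : i ≠ j) (hi : cs.IsLeftDescent x i)
    (hj : cs.IsLeftDescent x j) : M i j ≠ 0 ∧ cs.IsLeftDescent (cs.simple i * x) j := by
  obtain ⟨h1, h2⟩ := two_descents cs hij (cs.isRightDescent_inv_iff.2 hi)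
    (cs.isRightDescent_inv_iff.2 hj)
  refine ⟨h1, ?_⟩
  rw [← cs.isRightDescent_inv_iff, mul_inv_rev, cs.inv_simple]
  exact h2

/-- Deodhar's lemma -/
theorem deodhar_left {L : Set B} {v : W} (hv : ∀ i ∈ L, ¬ cs.IsLeftDescent v i) (c : B) :
    (∀ i ∈ L, ¬ cs.IsLeftDescent (v * cs.simple c) i) ∨
      ∃ i ∈ L, v * cs.simple c = cs.simple i * v := by
  by_cases h : ∀ i ∈ L, ¬ cs.IsLeftDescent (v * cs.simple c) i
  · exact Or.inl h
  · push Not at h
    obtain ⟨i, hi, hd⟩ := h
    refine Or.inr ⟨i, hi, ?_⟩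
    have h1 := cs.not_isLeftDescent_iff.1 (hv i hi)
    have h2 := cs.isLeftDescent_iff.1 hd
    have h3 : cs.simple i * (v * cs.simple c) = cs.simple i * v * cs.simple c :=
      (mul_assoc _ _ _).symm
    have h4 := cs.length_mul_simple (cs.simple i * v) c
    have h5 := cs.length_mul_simple v c
    rw [h3] at h2
    have h6 : ¬ cs.IsRightDescent v c := by
      intro h7
      have h8 := cs.isRightDescent_iff.1 h7
      omega
    have h9 := cs.not_isRightDescent_iff.1 h6
    exact (simple_mul_eq_mul_simple cs (hv i hi) h6 (by omega)).symm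

end Pool.Agent.H73.HVN

end

section

/-!
# Project S10D: virtually special groups which act on manifolds or on duality pairs
-/

set_option autoImplicit false
set_option linter.unusedSectionVars false

open Finset Pointwise

namespace Pool.Agent.S10

open Pool.Agent.H37.TM

section

variable {U P : Type} [DecidableEq U] [Group P] [MulAction P U] {M B : Set (Finset U)} {n d : ℕ}

theorem ManOrDual.ne (h : ManOrDual P M B n d) : ∀ s ∈ M, s.Nonempty := by
  rcases h with h | ⟨mu, h, -⟩
  · exact h.1.ne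
  · exact h.ne

theorem ManOrDual.down (h : ManOrDual P M B n d) : ∀ s ∈ M, ∀ t, t ⊆ s → t.Nonempty → t ∈ M := by
  rcases h with h | ⟨mu, h, -⟩
  · exact h.1.down
  · exact h.down

theorem ManOrDual.sub (h : ManOrDual P M B n d) (Γ : Subgroup P) : ManOrDual Γ M B n d := by
  rcases h with h | ⟨mu, h, h'⟩
  · exact Or.inl h
  · exact Or.inr ⟨mu, h, fun g s hs => h' g s hs⟩

end

end Pool.Agent.S10

end
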