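import Pool.Agent.H71.TSG.M35

/-! The parts of this file: H4.Atiyah.Luck, H4.Singer.LuckDim, H4.Singer.LuckKer. -/

section

set_option autoImplicit false

open Filter Topology

namespace Pool.Agent.H4.Atiyah

private lemma luck_nrm_nonneg {ι : Type*} [Fintype ι] (x : ι → ℂ) : 0 ≤ nrm x := Real.sqrt_nonneg _

open scoped ComplexOrder in
private lemma luck_rank {m n : Type*} [Fintype m] [Fintype n] (A : Matrix m n ℂ) :
    (A * A.conjTranspose).rank = A.rank := Matrix.rank_self_mul_conjTranspose A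

private lemma luck_nrm_sq {ι : Type*} [Fintype ι] (x : ι → ℂ) :
    ((nrm x ^ 2 : ℝ) : ℂ) = star x ⬝ᵥ x := by
  unfold nrm
  rw [Real.sq_sqrt (Finset.sum_nonneg fun i _ => by positivity)]
  unfold dotProduct
  push_cast
  refine Finset.sum_congr rfl fun i _ => ?_
  rw [Pi.star_apply, Complex.star_def, Complex.conj_mul']

private lemma luck_quad {m n : Type*} [Fintype m] [Fintype n] (M : Matrix m n ℤ) (x : m → ℂ) :
    ((nrm (Matrix.vecMul x (M.map (Int.cast : ℤ → ℂ))) ^ 2 : ℝ) : ℂ) =
      star x ⬝ᵥ ((M.map (Int.cast : ℤ → ℂ) * (M.map (Int.cast : ℤ → ℂ)).conjTranspose).mulVec x) := by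
  have hA : (M.map (Int.cast : ℤ → ℂ)).conjTranspose = (M.map (Int.cast : ℤ → ℂ)).transpose := by
    ext i j
    simp [Matrix.conjTranspose_apply, Matrix.map_apply, Matrix.transpose_apply]
  rw [luck_nrm_sq, ← Matrix.mulVec_mulVec, Matrix.dotProduct_mulVec, hA, Matrix.mulVec_transpose]
  congr 1
  rw [Matrix.star_vecMul, hA, Matrix.mulVec_transpose]

theorem luck_int {m n : Type*} [Fintype m] [Fintype n] (M : Matrix m n ℤ) (c : ℝ) (hc : 1 ≤ c)
    (hM : ∀ x : m → ℂ, nrm (Matrix.vecMul x (M.map (Int.cast : ℤ → ℂ))) ≤ c * nrm x)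
    (ε : ℝ) (h0 : 0 < ε) (h1 : ε < 1) (V : Submodule ℂ (m → ℂ))
    (hV : ∀ x ∈ V, nrm (Matrix.vecMul x (M.map (Int.cast : ℤ → ℂ))) ≤ ε * nrm x) :
    (Module.finrank ℂ V : ℝ) ≤ Fintype.card m - (M.map (Int.cast : ℤ → ℂ)).rank +
      Fintype.card m * (Real.log c / Real.log (1 / ε)) := by
  classical
  set A : Matrix m n ℂ := M.map (Int.cast : ℤ → ℂ) with hA
  set T : Matrix m m ℂ := A * A.conjTranspose with hT
  have hTh : T.IsHermitian := Matrix.isHermitian_mul_conjTranspose_self A
  set lam : m → ℝ := hTh.eigenvalues with hlam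
  set U : Matrix m m ℂ := (hTh.eigenvectorUnitary : Matrix m m ℂ) with hU
  have hUU : star U * U = 1 := Unitary.coe_star_mul_self _
  have hUU' : U * star U = 1 := Unitary.coe_mul_star_self _
  -- coordinates in the eigenbasis
  have hquad : ∀ x : m → ℂ, nrm (Matrix.vecMul x A) ^ 2 =
      ∑ i, lam i * ‖((star U).mulVec x) i‖ ^ 2 := by
    intro x
    have h2 : ((nrm (Matrix.vecMul x A) ^ 2 : ℝ) : ℂ) = star x ⬝ᵥ (T.mulVec x) := luck_quad M x
    have h3 : T = U * Matrix.diagonal (RCLike.ofReal ∘ lam) * star U := by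
      have := hTh.spectral_theorem
      rw [Unitary.conjStarAlgAut_apply] at this
      exact this
    have h4 : star x ⬝ᵥ (T.mulVec x) =
        ((∑ i, lam i * ‖((star U).mulVec x) i‖ ^ 2 : ℝ) : ℂ) := by
      rw [h3, ← Matrix.mulVec_mulVec, ← Matrix.mulVec_mulVec, Matrix.dotProduct_mulVec]
      have h5 : Matrix.vecMul (star x) U = star ((star U).mulVec x) := by
        rw [Matrix.star_mulVec, Matrix.star_eq_conjTranspose, Matrix.conjTranspose_conjTranspose]
      rw [h5]
      unfold dotProduct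
      push_cast
      refine Finset.sum_congr rfl fun i _ => ?_
      rw [Matrix.mulVec_diagonal, Pi.star_apply, Complex.star_def, Function.comp_apply,
        ← Complex.conj_mul']
      simp only [RCLike.ofReal, Complex.coe_algebraMap]
      ring
    rw [h4] at h2
    exact_mod_cast h2
  have hnorm : ∀ x : m → ℂ, nrm x ^ 2 = ∑ i, ‖((star U).mulVec x) i‖ ^ 2 := by
    intro x
    have h2 : ((nrm x ^ 2 : ℝ) : ℂ) = ((nrm ((star U).mulVec x) ^ 2 : ℝ) : ℂ) := by
      rw [luck_nrm_sq, luck_nrm_sq, Matrix.star_mulVec, Matrix.star_eq_conjTranspose,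
        Matrix.conjTranspose_conjTranspose, ← Matrix.dotProduct_mulVec, Matrix.mulVec_mulVec,
        ← Matrix.star_eq_conjTranspose, hUU', Matrix.one_mulVec]
    have h3 : nrm x ^ 2 = nrm ((star U).mulVec x) ^ 2 := by exact_mod_cast h2
    rw [h3, nrm, Real.sq_sqrt (Finset.sum_nonneg fun i _ => by positivity)]
  -- eigenvalues
  have hlam0 : ∀ i, 0 ≤ lam i ∧ lam i ≤ c ^ 2 := by
    intro i
    have hy : (star U).mulVec (U.mulVec (Pi.single i 1)) = Pi.single i (1 : ℂ) := by
      rw [Matrix.mulVec_mulVec, hUU, Matrix.one_mulVec]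
    have h2 := hquad (U.mulVec (Pi.single i 1))
    have h3 := hnorm (U.mulVec (Pi.single i 1))
    rw [hy] at h2 h3
    have h4 : ∑ j, ‖(Pi.single i (1 : ℂ) : m → ℂ) j‖ ^ 2 = 1 := by
      rw [Finset.sum_eq_single i]
      · simp
      · intro j _ hj; simp [hj]
      · simp
    have h5 : ∑ j, lam j * ‖(Pi.single i (1 : ℂ) : m → ℂ) j‖ ^ 2 = lam i := by
      rw [Finset.sum_eq_single i]
      · simp
      · intro j _ hj; simp [hj]
      · simp
    rw [h4] at h3
    rw [h5] at h2
    refine ⟨h2 ▸ sq_nonneg _, ?_⟩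
    have h6 := hM (U.mulVec (Pi.single i 1))
    have h7 : nrm (U.mulVec (Pi.single i (1 : ℂ))) = 1 := by
      have := luck_nrm_nonneg (U.mulVec (Pi.single i (1 : ℂ)))
      nlinarith
    rw [h7, mul_one] at h6
    rw [← h2]
    exact pow_le_pow_left₀ (luck_nrm_nonneg _) h6 2
  -- dimension of `V`
  have hdim : Module.finrank ℂ V ≤ Fintype.card {i // lam i ≤ ε ^ 2} := by
    let L : V →ₗ[ℂ] ({i // lam i ≤ ε ^ 2} → ℂ) :=
      { toFun := fun x i => ((star U).mulVec (x : m → ℂ)) i
        map_add' := by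
          intro x y
          funext i
          simp [Matrix.mulVec_add]
        map_smul' := by
          intro a x
          funext i
          simp [Matrix.mulVec_smul] }
    have hL : Function.Injective L := by
      rw [← LinearMap.ker_eq_bot, LinearMap.ker_eq_bot']
      intro x hx
      have hz : ∀ i, lam i ≤ ε ^ 2 → ((star U).mulVec (x : m → ℂ)) i = 0 := fun i hi =>
        congrFun hx ⟨i, hi⟩
      have h2 := hV x x.2
      have h3 : nrm (Matrix.vecMul (x : m → ℂ) A) ^ 2 ≤ ε ^ 2 * nrm (x : m → ℂ) ^ 2 := by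
        rw [← mul_pow]
        exact pow_le_pow_left₀ (luck_nrm_nonneg _) h2 2
      rw [hquad, hnorm, Finset.mul_sum, ← sub_nonneg, ← Finset.sum_sub_distrib] at h3
      have hterm : ∀ i, ε ^ 2 * ‖((star U).mulVec (x : m → ℂ)) i‖ ^ 2 -
          lam i * ‖((star U).mulVec (x : m → ℂ)) i‖ ^ 2 ≤ 0 := by
        intro i
        by_cases hi : lam i ≤ ε ^ 2
        · rw [hz i hi]; simp
        · push Not at hi
          have := sq_nonneg ‖((star U).mulVec (x : m → ℂ)) i‖
          nlinarith
      have hall : ∀ i ∈ Finset.univ, ε ^ 2 * ‖((star U).mulVec (x : m → ℂ)) i‖ ^ 2 -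
          lam i * ‖((star U).mulVec (x : m → ℂ)) i‖ ^ 2 = 0 := by
        have h4 : ∑ i, (ε ^ 2 * ‖((star U).mulVec (x : m → ℂ)) i‖ ^ 2 -
          lam i * ‖((star U).mulVec (x : m → ℂ)) i‖ ^ 2) = 0 :=
          le_antisymm (Finset.sum_nonpos fun i _ => hterm i) h3
        exact (Finset.sum_eq_zero_iff_of_nonpos fun i _ => hterm i).1 h4
      have hzero : ∀ i, ((star U).mulVec (x : m → ℂ)) i = 0 := by
        intro i
        by_cases hi : lam i ≤ ε ^ 2
        · exact hz i hi
        · push Not at hi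
          have h5 := hall i (Finset.mem_univ i)
          rw [← sub_mul] at h5
          rcases mul_eq_zero.1 h5 with h6 | h6
          · linarith
          · exact norm_eq_zero.1 (pow_eq_zero_iff (two_ne_zero)|>.1 h6)
      have h7 : (star U).mulVec (x : m → ℂ) = 0 := funext hzero
      have h8 : (x : m → ℂ) = U.mulVec ((star U).mulVec (x : m → ℂ)) := by
        rw [Matrix.mulVec_mulVec, hUU', Matrix.one_mulVec]
      rw [h7, Matrix.mulVec_zero] at h8
      exact Subtype.ext h8
    have := LinearMap.finrank_le_finrank_of_injective hL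
    rwa [Module.finrank_fintype_fun_eq_card] at this
  -- the product of the nonzero eigenvalues is at least one
  set Z : Finset m := Finset.univ.filter fun i => lam i ≠ 0 with hZ
  have hprod : 1 ≤ ∏ i ∈ Z, lam i := by
    have hmap : T = (M * M.transpose).map (Int.castRingHom ℂ) := by
      rw [hT, Matrix.map_mul, hA]
      congr 1
      ext i j
      simp [Matrix.conjTranspose_apply, Matrix.map_apply, Matrix.transpose_apply]
    have h2 := hTh.charpoly_eq
    have h3 : T.charpoly = ((M * M.transpose).charpoly).map (Int.castRingHom ℂ) := by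
      rw [hmap, Matrix.charpoly_map]
    have h4 : T.charpoly = Polynomial.X ^ (Finset.univ.filter fun i => ¬ lam i ≠ 0).card *
        ∏ i ∈ Z, (Polynomial.X - Polynomial.C ((lam i : ℝ) : ℂ)) := by
      rw [h2, ← Finset.prod_filter_not_mul_prod_filter Finset.univ (fun i => lam i ≠ 0)]
      congr 1
      rw [Finset.prod_congr rfl (g := fun _ => (Polynomial.X : Polynomial ℂ)), Finset.prod_const]
      intro i hi
      have : lam i = 0 := by simpa using hi
      rw [hlam] at this
      rw [this]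
      simp
    have h5 : (T.charpoly).coeff (Finset.univ.filter fun i => ¬ lam i ≠ 0).card =
        ∏ i ∈ Z, (-((lam i : ℝ) : ℂ)) := by
      rw [h4, Polynomial.coeff_X_pow_mul', if_pos le_rfl, Nat.sub_self, Polynomial.coeff_zero_eq_eval_zero,
        Polynomial.eval_prod]
      refine Finset.prod_congr rfl fun i _ => ?_
      simp
    rw [h3, Polynomial.coeff_map] at h5
    set k := (M * M.transpose).charpoly.coeff (Finset.univ.filter fun i => ¬ lam i ≠ 0).card
      with hk
    have h6 : ‖((Int.castRingHom ℂ) k)‖ = ∏ i ∈ Z, lam i := by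
      rw [h5, norm_prod]
      refine Finset.prod_congr rfl fun i _ => ?_
      rw [norm_neg, Complex.norm_real, Real.norm_of_nonneg (hlam0 i).1]
    have hpos : 0 < ∏ i ∈ Z, lam i := Finset.prod_pos fun i hi =>
      lt_of_le_of_ne (hlam0 i).1 (Ne.symm (by simpa [hZ] using hi))
    rw [← h6] at hpos ⊢
    have hk0 : k ≠ 0 := by
      rintro h
      rw [h] at hpos
      simp at hpos
    have : (1 : ℤ) ≤ |k| := Int.one_le_abs hk0
    have h7 : ‖((Int.castRingHom ℂ) k)‖ = ((|k| : ℤ) : ℝ) := by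
      simp [Complex.norm_intCast]
    rw [h7]
    exact_mod_cast this
  -- logarithms
  have hlogc : 0 ≤ Real.log c := Real.log_nonneg hc
  have hlogε : Real.log ε < 0 := Real.log_neg h0 h1
  set R : Finset m := Z.filter fun i => lam i ≤ ε ^ 2 with hR
  have hsum : 0 ≤ ∑ i ∈ Z, Real.log (lam i) := by
    rw [← Real.log_prod (fun i hi => by simpa [hZ] using hi)]
    exact Real.log_nonneg hprod
  have hbound : ∑ i ∈ Z, Real.log (lam i) ≤ R.card * (2 * Real.log ε) +
      (Fintype.card m) * (2 * Real.log c) := by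
    rw [← Finset.sum_filter_add_sum_filter_not Z (fun i => lam i ≤ ε ^ 2)]
    refine add_le_add ?_ ?_
    · rw [← nsmul_eq_mul]
      refine Finset.sum_le_card_nsmul _ _ _ fun i hi => ?_
      rw [Finset.mem_filter] at hi
      have hpos : 0 < lam i := lt_of_le_of_ne (hlam0 i).1 (Ne.symm (by simpa [hZ] using hi.1))
      calc Real.log (lam i) ≤ Real.log (ε ^ 2) := Real.log_le_log hpos hi.2
        _ = 2 * Real.log ε := by rw [Real.log_pow]; norm_num
    · refine (Finset.sum_le_card_nsmul _ _ (2 * Real.log c) fun i hi => ?_).trans ?_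
      · rw [Finset.mem_filter] at hi
        have hpos : 0 < lam i := lt_of_le_of_ne (hlam0 i).1 (Ne.symm (by simpa [hZ] using hi.1))
        calc Real.log (lam i) ≤ Real.log (c ^ 2) := Real.log_le_log hpos (hlam0 i).2
          _ = 2 * Real.log c := by rw [Real.log_pow]; norm_num
      · rw [nsmul_eq_mul]
        refine mul_le_mul_of_nonneg_right ?_ (by positivity)
        exact_mod_cast Finset.card_le_univ _
  have hRcard : (R.card : ℝ) ≤ Fintype.card m * (Real.log c / Real.log (1 / ε)) := by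
    have h2 : Real.log (1 / ε) = - Real.log ε := by
      rw [Real.log_div one_ne_zero h0.ne', Real.log_one, zero_sub]
    rw [h2, ← mul_div_assoc, le_div_iff₀ (by linarith)]
    nlinarith [hsum.trans hbound]
  -- counting
  have hcount : (Fintype.card {i // lam i ≤ ε ^ 2} : ℝ) =
      (Fintype.card m - A.rank : ℝ) + R.card := by
    have h2 : A.rank = Z.card := by
      rw [← luck_rank A, hTh.rank_eq_card_non_zero_eigs,
        Fintype.card_subtype]
    have h3 : (Finset.univ.filter fun i => lam i ≤ ε ^ 2) =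
        (Finset.univ.filter fun i => ¬ lam i ≠ 0) ∪ R := by
      ext i
      simp only [hR, hZ, Finset.mem_filter, Finset.mem_univ, true_and, Finset.mem_union, not_not]
      constructor
      · intro hi
        by_cases h : lam i = 0
        · exact Or.inl h
        · exact Or.inr ⟨h, hi⟩
      · rintro (h | h)
        · rw [h]; positivity
        · exact h.2
    have h4 : Disjoint (Finset.univ.filter fun i => ¬ lam i ≠ 0) R := by
      rw [Finset.disjoint_left]
      intro i hi hi'
      simp only [hR, hZ, Finset.mem_filter, Finset.mem_univ, true_and, not_not] at hi hi'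
      exact hi'.1 hi
    have h5 : (Finset.univ.filter fun i => lam i ≠ 0).card +
        (Finset.univ.filter fun i => ¬ lam i ≠ 0).card = Fintype.card m := by
      rw [Finset.card_filter_add_card_filter_not]
      rfl
    rw [Fintype.card_subtype, h3, Finset.card_union_of_disjoint h4, h2]
    have h6 : ((Finset.univ.filter fun i => lam i ≠ 0).card : ℝ) +
        (Finset.univ.filter fun i => ¬ lam i ≠ 0).card = Fintype.card m := by exact_mod_cast h5
    push_cast
    rw [← hZ] at h6
    linarith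
  have hdim' : (Module.finrank ℂ V : ℝ) ≤ Fintype.card {i // lam i ≤ ε ^ 2} := by
    exact_mod_cast hdim
  linarith

end Pool.Agent.H4.Atiyah

end

section

/-!
# Singer project: the von Neumann dimension vanishes by Lück approximation
-/

set_option autoImplicit false
set_option linter.unusedSectionVars false

open Filter Topology

namespace Pool.Agent.H4.Singer

open Pool.Agent.H4.Atiyah

/-- the complex matrix of an integer matrix over the group ring -/
noncomputable def toC {G : Type} [Group G] {m n : Type}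
    (A : Matrix m n (MonoidAlgebra ℤ G)) : Matrix m n (MonoidAlgebra ℂ G) :=
  A.map (MonoidAlgebra.mapRingHom G (Int.castRingHom ℂ))

theorem op_toC {G P : Type} [Group G] [Group P] {k n : ℕ} (π : G →* P)
    (A : Matrix (Fin k) (Fin n) (MonoidAlgebra ℤ G)) :
    op ((toC A).map (MonoidAlgebra.mapDomainRingHom ℂ π)) =
      (op (A.map (MonoidAlgebra.mapDomainRingHom ℤ π))).map (Int.cast : ℤ → ℂ) := by
  classical
  ext ⟨i, g⟩ ⟨j, h⟩
  show (Finsupp.mapDomain π (MonoidAlgebra.mapRingHom G (Int.castRingHom ℂ) (A i j)).coeff)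
      (g⁻¹ * h) = ((Finsupp.mapDomain π (A i j).coeff (g⁻¹ * h) : ℤ) : ℂ)
  have h1 : (MonoidAlgebra.mapRingHom G (Int.castRingHom ℂ) (A i j)).coeff =
      Finsupp.mapRange (Int.cast : ℤ → ℂ) Int.cast_zero (A i j).coeff := rfl
  rw [h1, Finsupp.mapDomain_mapRange _ _ _ _ (fun x y => Int.cast_add x y),
    Finsupp.mapRange_apply]

/-- Proof: by the second part of `vnDim_approx` there are, for given `η, ε > 0` and large `j`,
subspaces `V` with `(vnDim A - η) |P_j| ≤ finrank V` on which `op A_j` is bounded by `ε`; by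
`luck_int` (the matrix `op A_j` is an integer matrix with norm bounded by a constant `c`,
`nrm_op_le`) `finrank V ≤ (k |P_j| - rank) + k |P_j| log c / log (1 / ε)`. Hence
`vnDim A ≤ 2 η + k log c / log (1 / ε)` for all `η`, `ε`, so `vnDim A ≤ 0`. -/
theorem vnDim_nonpos {G : Type} [Group G] [DecidableEq G] {P : ℕ → Type} [∀ j, Group (P j)]
    [∀ j, Fintype (P j)] (π : ∀ j, G →* P j) (hπ : ∀ g : G, g ≠ 1 → ∀ᶠ j in atTop, π j g ≠ 1)
    {k n : ℕ} (A : Matrix (Fin k) (Fin n) (MonoidAlgebra ℤ G))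
    (hdim : ∀ η > (0 : ℝ), ∀ᶠ j in atTop, (k * Fintype.card (P j) : ℝ) -
      (op ((toC A).map (MonoidAlgebra.mapDomainRingHom ℂ (π j)))).rank ≤
        η * Fintype.card (P j)) :
    vnDim (toC A) ≤ 0 := by
  classical
  by_contra hcon
  push Not at hcon
  obtain ⟨d, hd⟩ : ∃ d, d = vnDim (toC A) := ⟨_, rfl⟩
  rw [← hd] at hcon
  obtain ⟨c, hc⟩ : ∃ c, c = l1 (toC A) ^ 2 + 1 := ⟨_, rfl⟩
  have hc1 : 1 ≤ c := by
    rw [hc]
    linarith [sq_nonneg (l1 (toC A))]
  have hlogc : 0 ≤ Real.log c := Real.log_nonneg hc1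
  obtain ⟨L, hL⟩ : ∃ L, L = 4 * (k * Real.log c) / d + 1 := ⟨_, rfl⟩
  have hL0 : 0 < L := by
    rw [hL]
    positivity
  have hkL : k * (Real.log c / L) ≤ d / 4 := by
    rw [← mul_div_assoc, div_le_div_iff₀ hL0 (by norm_num)]
    have h1 : d * L = 4 * (k * Real.log c) + d := by
      rw [hL]
      field_simp
    rw [h1]
    linarith
  have hε0 : 0 < Real.exp (-L) := Real.exp_pos _
  have hε1 : Real.exp (-L) < 1 := by
    rw [Real.exp_lt_one_iff]
    linarith
  have hlogε : Real.log (1 / Real.exp (-L)) = L := by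
    rw [one_div, Real.log_inv, Real.log_exp, neg_neg]
  have h1 := hdim (d / 8) (by linarith)
  have h2 := (vnDim_approx π hπ (toC A)).2 (d / 8) (by linarith) (Real.exp (-L)) hε0
  obtain ⟨j, hj1, V, hV1, hV2⟩ := (h1.and h2).exists
  rw [← hd] at hV1
  have hbound : ∀ x : Fin k × P j → ℂ, nrm (Matrix.vecMul x
      ((op (A.map (MonoidAlgebra.mapDomainRingHom ℤ (π j)))).map (Int.cast : ℤ → ℂ))) ≤
        c * nrm x := by
    intro x
    rw [← op_toC]
    have h3 := nrm_op_le (π j) (toC A) (c := c) (by rw [hc]; linarith) x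
    have h4 : 0 ≤ nrm x := Real.sqrt_nonneg _
    refine le_of_sq_le_sq (h3.trans ?_) (by positivity)
    rw [mul_pow]
    have h5 : c ≤ c ^ 2 := by nlinarith
    exact mul_le_mul_of_nonneg_right h5 (sq_nonneg _)
  have hV2' : ∀ x ∈ V, nrm (Matrix.vecMul x
      ((op (A.map (MonoidAlgebra.mapDomainRingHom ℤ (π j)))).map (Int.cast : ℤ → ℂ))) ≤
        Real.exp (-L) * nrm x := by
    intro x hx
    rw [← op_toC]
    exact hV2 x hx
  have h6 := luck_int (op (A.map (MonoidAlgebra.mapDomainRingHom ℤ (π j)))) c hc1 hbound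
    (Real.exp (-L)) hε0 hε1 V hV2'
  rw [hlogε, ← op_toC, Fintype.card_prod, Fintype.card_fin] at h6
  push_cast at h6
  have hP : (0 : ℝ) < Fintype.card (P j) := by exact_mod_cast Fintype.card_pos
  have h7 : (k * Fintype.card (P j) : ℝ) * (Real.log c / L) ≤ d / 4 * Fintype.card (P j) := by
    calc (k * Fintype.card (P j) : ℝ) * (Real.log c / L)
        = (k * (Real.log c / L)) * Fintype.card (P j) := by ring
      _ ≤ _ := mul_le_mul_of_nonneg_right hkL hP.le
  have h8 : 0 < d * Fintype.card (P j) := mul_pos hcon hP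
  nlinarith

end Pool.Agent.H4.Singer

end

section

/-!
# Singer project: faithfulness of the von Neumann dimension
-/

set_option autoImplicit false
set_option linter.unusedSectionVars false

open Filter Topology

namespace Pool.Agent.H4.Singer

open Pool.Agent.H4.Atiyah

/-- Proof: `l2ker A` is a closed linear subspace (see `l2ker_eq` in `VN.lean`), and
`1 - infDist e_j (l2ker A) ^ 2 = ‖p e_j‖ ^ 2 ≥ 0` for the orthogonal projection `p` onto it. If the
sum of these numbers is `≤ 0`, then all `p e_j` are zero, so `x (j, 1) = ⟨e_j, x⟩ = 0` for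
`x ∈ l2ker A`. As `l2ker A` is invariant under the left translations `x ↦ x (j, g * ·)`,
`x = 0`. -/
theorem l2ker_trivial_of_vnDim {G : Type} [Group G] [DecidableEq G] {k n : ℕ}
    (A : Matrix (Fin k) (Fin n) (MonoidAlgebra ℂ G)) (h : vnDim A ≤ 0) :
    ∀ x ∈ l2ker A, x = 0 := by
  obtain ⟨K, hK⟩ : ∃ K : Submodule ℂ (lp (fun _ : Fin k × G => ℂ) 2),
      ∀ z, z ∈ K ↔ z ∈ l2ker A := by
    refine ⟨LinearMap.ker (Lop (MonoidHom.id G) A).toLinearMap, fun z => ?_⟩
    rw [l2ker_eq]
    exact Iff.rfl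
  have hset : l2ker A = (K : Set (lp (fun _ : Fin k × G => ℂ) 2)) := by
    ext z
    exact (hK z).symm
  have hnorm : ∀ j : Fin k,
      ‖(lp.single 2 (j, (1 : G)) (1 : ℂ) : lp (fun _ : Fin k × G => ℂ) 2)‖ = 1 := by
    intro j
    rw [lp.norm_single (by norm_num)]
    simp
  have hle : ∀ j : Fin k, Metric.infDist
      (lp.single 2 (j, (1 : G)) (1 : ℂ) : lp (fun _ : Fin k × G => ℂ) 2) (l2ker A) ≤ 1 := by
    intro j
    have h1 : (0 : lp (fun _ : Fin k × G => ℂ) 2) ∈ l2ker A := (hK 0).1 K.zero_mem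
    have h2 := Metric.infDist_le_dist_of_mem
      (x := (lp.single 2 (j, (1 : G)) (1 : ℂ) : lp (fun _ : Fin k × G => ℂ) 2)) h1
    rwa [dist_zero_right, hnorm] at h2
  have hnn : ∀ j ∈ (Finset.univ : Finset (Fin k)), 0 ≤ 1 - Metric.infDist
      (lp.single 2 (j, (1 : G)) (1 : ℂ) : lp (fun _ : Fin k × G => ℂ) 2) (l2ker A) ^ 2 := by
    intro j _
    have h1 := hle j
    have h2 := Metric.infDist_nonneg
      (x := (lp.single 2 (j, (1 : G)) (1 : ℂ) : lp (fun _ : Fin k × G => ℂ) 2)) (s := l2ker A)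
    nlinarith
  have hsum := le_antisymm h (Finset.sum_nonneg hnn)
  unfold vnDim at hsum
  rw [Finset.sum_eq_zero_iff_of_nonneg hnn] at hsum
  have hone : ∀ j : Fin k, Metric.infDist
      (lp.single 2 (j, (1 : G)) (1 : ℂ) : lp (fun _ : Fin k × G => ℂ) 2) (l2ker A) = 1 := by
    intro j
    have h1 := hsum j (Finset.mem_univ j)
    have h2 := Metric.infDist_nonneg
      (x := (lp.single 2 (j, (1 : G)) (1 : ℂ) : lp (fun _ : Fin k × G => ℂ) 2)) (s := l2ker A)
    nlinarith
  have hval : ∀ z ∈ l2ker A, ∀ j : Fin k, z (j, (1 : G)) = 0 := by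
    intro z hz j
    have h1 := (Submodule.norm_eq_iInf_iff_inner_eq_zero K
      (u := (lp.single 2 (j, (1 : G)) (1 : ℂ) : lp (fun _ : Fin k × G => ℂ) 2))
      (v := 0) K.zero_mem).1 (by
        rw [sub_zero, hnorm]
        have h2 := hone j
        rw [hset, Metric.infDist_eq_iInf] at h2
        simp only [dist_eq_norm] at h2
        exact h2.symm) z ((hK z).2 hz)
    rw [sub_zero, lp.inner_single_left] at h1
    simpa using h1
  intro x hx
  ext ⟨j, g0⟩
  have hs : Summable fun p : Fin k × G => ‖x (p.1, g0 * p.2)‖ ^ 2 := by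
    have h1 := (memlp_iff (fun p => x p)).1 (lp.memℓp x)
    exact ((Equiv.prodCongr (Equiv.refl (Fin k)) (Equiv.mulLeft g0)).summable_iff
      (f := fun p : Fin k × G => ‖x p‖ ^ 2)).2 h1
  obtain ⟨y, hy⟩ : ∃ y : lp (fun _ : Fin k × G => ℂ) 2, ∀ p, y p = x (p.1, g0 * p.2) :=
    ⟨⟨fun p => x (p.1, g0 * p.2), (memlp_iff _).2 hs⟩, fun _ => rfl⟩
  have hyk : y ∈ l2ker A := by
    intro i g
    have h1 := hx i (g0 * g)
    rw [← h1]
    refine Finset.sum_congr rfl fun j' _ => Finset.sum_congr rfl fun h _ => ?_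
    rw [hy, mul_assoc]
  have h2 := hval y hyk j
  rw [hy, mul_one] at h2
  exact h2

end Pool.Agent.H4.Singer

end
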