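import Pool.Agent.H71.TSG.M08
import Pool.Agent.H71.TSG.M16
import Pool.Agent.H71.TSG.M22
import Pool.Agent.H71.TSG.M26
import Pool.Agent.H71.TSG.M27

/-! The parts of this file: H73.GC.Half, H73.GC.MergeA, H73.GC.MergeB, H73.GC.MergeC, H77.SX.Key. -/

section

/-!
# Growth calculus: the invariants of one more involution

`hd_split` with `e = E u` (which preserves `Sy X r s` for `X s`): both `A s ⊓ ker (E u)` and
`(A s).map (E u)` are isomorphic to `A s ⊓ Inv r {u}` by `y ↦ y + r u y` (injective on both, and onto: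
`y = E u y + r u (E u y)` for `r u y = y`); compare `hd_map`.
-/

set_option autoImplicit false
set_option linter.unusedSectionVars false

open Finset

namespace Pool.Agent.H73.GC

variable {V : Type} [DecidableEq V] [Fintype V]
variable {Y : Type} [AddCommGroup Y] [Module F2 Y] [Finite Y]

/-- the map `1 + r u` on a subspace `W` on which it is injective -/
private theorem Half_aux {A B : Finset V → Submodule F2 Y} {W : Submodule F2 Y}
    (j : Module.End F2 Y) (hj : ∀ y ∈ W, j y = 0 → y = 0)
    (h1 : ∀ s, ∀ y ∈ A s, y ∈ W → j y ∈ B s)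
    (h2 : ∀ s, ∀ z ∈ B s, ∃ y ∈ A s, y ∈ W ∧ j y = z) (i : ℕ) :
    hd (fun s => A s ⊓ W) i = hd B i := by
  have e1 := hd_map (fun s => (A s).comap W.subtype) W.subtype W.injective_subtype i
  have hinj : Function.Injective (j ∘ₗ W.subtype) := by
    rw [injective_iff_map_eq_zero]
    intro y hy
    exact Subtype.ext (hj y.1 y.2 hy)
  have e2 := hd_map (fun s => (A s).comap W.subtype) (j ∘ₗ W.subtype) hinj i
  have f1 : (fun s => ((A s).comap W.subtype).map W.subtype) = fun s => A s ⊓ W := by
    funext s
    rw [Submodule.map_comap_subtype, inf_comm]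
  have f2 : (fun s => ((A s).comap W.subtype).map (j ∘ₗ W.subtype)) = B := by
    funext s
    ext z
    constructor
    · rintro ⟨y, hy, rfl⟩
      exact h1 s y.1 hy y.2
    · intro hz
      obtain ⟨y, hy, hyW, hyz⟩ := h2 s z hz
      exact ⟨⟨y, hyW⟩, hy, hyz⟩
  rw [f1] at e1
  rw [f2] at e2
  rw [e1, e2]

theorem hd_half {X : Finset V → Prop} (hm : ∀ s v, X (insert v s) → X s)
    {r E : V → Module.End F2 Y} {u : V} (h : ∀ s, X s → u ∉ s ∧ BitOn r E (insert u s)) (i : ℕ) :
    2 * hd (fun s => Sy X r s ⊓ Inv r {u}) i = hX X r i := by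
  have hA : Mono (Sy X r) := by
    intro s v y hy
    rw [mem_Sy] at hy ⊢
    exact ⟨fun hn => hy.1 fun h1 => hn (hm s v h1), fun w hw => hy.2 w (mem_insert_of_mem hw)⟩
  by_cases hX : ∃ s, X s
  · obtain ⟨s₀, hs₀⟩ := hX
    have hu₀ := mem_insert_self u s₀
    have hB := (h s₀ hs₀).2
    have hsq : ∀ y, r u (r u y) = y := hB.sq u hu₀
    have hid : ∀ y, E u (E u y) = E u y := hB.idem u hu₀
    have hbit : ∀ y, E u (r u y) + r u (E u y) = r u y := hB.bit u hu₀
    have hEA : ∀ s, ∀ y ∈ Sy X r s, E u y ∈ Sy X r s := by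
      intro s y hy
      rw [mem_Sy] at hy ⊢
      refine ⟨fun hn => by rw [hy.1 hn, map_zero], fun v hv => ?_⟩
      by_cases hs : X s
      · have hne : u ≠ v := fun e => (h s hs).1 (e ▸ hv)
        rw [← (h s hs).2.er u (mem_insert_self u s) v (mem_insert_of_mem hv) hne, hy.2 v hv]
      · rw [hy.1 hs, map_zero, map_zero]
    have hrA : ∀ s, ∀ y ∈ Sy X r s, r u y ∈ Sy X r s := by
      intro s y hy
      rw [mem_Sy] at hy ⊢
      refine ⟨fun hn => by rw [hy.1 hn, map_zero], fun v hv => ?_⟩
      by_cases hs : X s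
      · rw [(h s hs).2.comm v (mem_insert_of_mem hv) u (mem_insert_self u s), hy.2 v hv]
      · rw [hy.1 hs, map_zero, map_zero]
    have hB1 : ∀ s, ∀ y ∈ Sy X r s, (1 + r u) y ∈ Sy X r s ⊓ Inv r {u} := by
      intro s y hy
      refine ⟨Submodule.add_mem _ hy (hrA s y hy), ?_⟩
      intro v hv
      rw [mem_singleton] at hv
      rw [hv, LinearMap.add_apply, Module.End.one_apply, map_add, hsq, add_comm]
    have hBz : ∀ s, ∀ z ∈ Sy X r s ⊓ Inv r {u}, r u z = z := fun s z hz => hz.2 u (mem_singleton_self u)
    have hdec : ∀ z, r u z = z → E u z + r u (E u z) = z := by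
      intro z hz
      have := hbit z
      rwa [hz] at this
    have hk : ∀ y, (1 + r u) y = 0 → r u y = y := by
      intro y hy
      rw [LinearMap.add_apply, Module.End.one_apply] at hy
      have h2 := ZModModule.add_self y
      exact add_left_cancel (hy.trans h2.symm)
    -- the kernel of the projection
    have e1 : hd (fun s => Sy X r s ⊓ LinearMap.ker (E u)) i =
        hd (fun s => Sy X r s ⊓ Inv r {u}) i := by
      refine Half_aux (1 + r u) ?_ (fun s y hy _ => hB1 s y hy) ?_ i
      · intro y hy h0
        have h1 := hdec y (hk y h0)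
        rw [LinearMap.mem_ker] at hy
        rw [hy, map_zero, add_zero] at h1
        exact h1.symm
      · intro s z hz
        refine ⟨r u (E u z), hrA s _ (hEA s z hz.1), ?_, ?_⟩
        · rw [LinearMap.mem_ker]
          have h1 := hbit (E u z)
          rw [hid] at h1
          exact (add_eq_right.mp h1)
        · rw [LinearMap.add_apply, Module.End.one_apply, hsq, add_comm]
          exact hdec z (hBz s z hz)
    -- the image of the projection
    have e2 : hd (fun s => (Sy X r s).map (E u)) i =
        hd (fun s => Sy X r s ⊓ Inv r {u}) i := by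
      have f1 : (fun s => (Sy X r s).map (E u)) = fun s => Sy X r s ⊓ LinearMap.range (E u) := by
        funext s
        ext z
        constructor
        · rintro ⟨y, hy, rfl⟩
          exact ⟨hEA s y hy, LinearMap.mem_range_self _ y⟩
        · rintro ⟨hz, y, rfl⟩
          exact ⟨E u y, hz, hid y⟩
      rw [f1]
      refine Half_aux (1 + r u) ?_ (fun s y hy _ => hB1 s y hy) ?_ i
      · rintro y ⟨w, rfl⟩ h0
        have h1 := hbit (E u w)
        rw [hk _ h0, hid, hk _ h0] at h1
        exact (add_eq_right.mp h1)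
      · intro s z hz
        refine ⟨E u z, hEA s z hz.1, LinearMap.mem_range_self _ z, ?_⟩
        rw [LinearMap.add_apply, Module.End.one_apply]
        exact hdec z (hBz s z hz)
    have e3 := hd_split hA (E u) (fun s y _ => hid y) hEA i
    rw [Pool.Agent.H73.GC.hX, e3, e1, e2, two_mul]
  · have h0 : ∀ s, Sy X r s = ⊥ := by
      intro s
      rw [eq_bot_iff]
      intro y hy
      exact (Submodule.mem_bot F2).mpr (hy.1 fun hs => hX ⟨s, hs⟩)
    have e1 : hd (Sy X r) i = 0 := hd_zero hA i fun s _ => h0 s
    have e2 : hd (fun s => Sy X r s ⊓ Inv r {u}) i = 0 := by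
      have f1 : (fun s => Sy X r s ⊓ Inv r {u}) = Sy X r := by
        funext s
        rw [h0 s, bot_inf_eq]
      rw [f1, e1]
    rw [Pool.Agent.H73.GC.hX, e1, e2, mul_zero]

end Pool.Agent.H73.GC

end

section

/-!
# Growth calculus: identification of two vertices, part A

`rf = Function.update r x (r u)`: `x` acts like `u`. `hd_coef` for `lam (a, b) = a + b` on
`Sy (Cq G U) (dbl r x (r u))`: the intersection with the kernel is the image of `Sy (Cq G U) rf` under
`y ↦ (y, y)`; the image is `Sy X rf`, where `X` are the cliques which do not contain both `x` and `u`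
(for a clique with `x` and `u` the invariants are of the form `(a, a)`; for the others `Sy_map` with the
projections `(a, b) ↦ (E w a, E w b)`, `w ≠ x`, and `(a, b) ↦ (E u a, E u b)` for `x`).
-/

set_option autoImplicit false
set_option linter.unusedSectionVars false

open Finset

namespace Pool.Agent.H73.GC

variable {V : Type} [DecidableEq V] [Fintype V]
variable {Y : Type} [AddCommGroup Y] [Module F2 Y] [Finite Y]

/-- the projections on `Y × Y` -/
private def MergeA_E (E : V → Module.End F2 Y) (w : V) : Module.End F2 (Y × Y) :=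
  LinearMap.prodMap (E w) (E w)

private theorem MergeA_E_apply (E : V → Module.End F2 Y) (w : V) (y : Y × Y) :
    MergeA_E E w y = (E w y.1, E w y.2) := rfl

/-- the map of the vertices -/
private def MergeA_rho (x u w : V) : V := if w = x then u else w

private theorem MergeA_upd {Z : Type} (r : V → Z) (x u w : V) :
    Function.update r x (r u) w = r (MergeA_rho x u w) := by
  unfold MergeA_rho
  by_cases h : w = x
  · rw [if_pos h, h, Function.update_self]
  · rw [if_neg h, Function.update_of_ne h]

private theorem MergeA_mem {G : SimpleGraph V} {U : Finset V} {x u : V} (hu : u ∈ U)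
    (hxu : x ≠ u) {s : Finset V} (hs : Cq G U s) {w : V} (hw : w ∈ s) :
    MergeA_rho x u w ∈ U.erase x := by
  unfold MergeA_rho
  by_cases h : w = x
  · rw [if_pos h]
    exact mem_erase.2 ⟨hxu.symm, hu⟩
  · rw [if_neg h]
    exact mem_erase.2 ⟨h, hs.2 hw⟩

private theorem MergeA_adj {G : SimpleGraph V} {U : Finset V} {x u : V} {s : Finset V}
    (hs : Cq G U s ∧ ¬ (x ∈ s ∧ u ∈ s)) {a b : V} (ha : a ∈ s) (hb : b ∈ s) (hab : a ≠ b) :
    (merge G x u).Adj (MergeA_rho x u a) (MergeA_rho x u b) := by
  have had : G.Adj a b := hs.1.1 (Finset.mem_coe.2 ha) (Finset.mem_coe.2 hb) hab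
  unfold MergeA_rho
  by_cases h : a = x
  · have h2 : b ≠ x := fun e => hab (h.trans e.symm)
    rw [if_pos h, if_neg h2]
    have h3 : u ≠ b := fun e => hs.2 ⟨h ▸ ha, e ▸ hb⟩
    exact ⟨h3, Or.inr (Or.inl ⟨rfl, h ▸ had⟩)⟩
  · rw [if_neg h]
    by_cases h2 : b = x
    · rw [if_pos h2]
      have h3 : a ≠ u := fun e => hs.2 ⟨h2 ▸ hb, e ▸ ha⟩
      exact ⟨h3, Or.inr (Or.inr ⟨rfl, h2 ▸ had.symm⟩)⟩
    · rw [if_neg h2]
      exact ⟨hab, Or.inl had⟩

private theorem MergeA_bit {G : SimpleGraph V} {U : Finset V} {x u : V} (hu : u ∈ U)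
    (hxu : x ≠ u) {r E : V → Module.End F2 Y} (h : IsN (merge G x u) (U.erase x) r)
    (hb : IsBit (merge G x u) (U.erase x) r E) {s : Finset V}
    (hs : Cq G U s ∧ ¬ (x ∈ s ∧ u ∈ s)) :
    BitOn (Function.update r x (r u)) (Function.update E x (E u)) s := by
  have hm : ∀ w ∈ s, MergeA_rho x u w ∈ U.erase x := fun w hw => MergeA_mem hu hxu hs.1 hw
  refine ⟨?_, ?_, ?_, ?_, ?_, ?_⟩
  · intro v hv y
    rw [MergeA_upd]
    exact h.sq _ (hm v hv) y
  · intro a ha b hb' y
    by_cases hab : a = b
    · rw [hab]
    · rw [MergeA_upd, MergeA_upd]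
      exact h.comm _ (hm a ha) _ (hm b hb') (MergeA_adj hs ha hb' hab) y
  · intro v hv y
    rw [MergeA_upd]
    exact hb.idem _ (hm v hv) y
  · intro v hv y
    rw [MergeA_upd, MergeA_upd]
    exact hb.bit _ (hm v hv) y
  · intro a ha b hb' hab y
    rw [MergeA_upd, MergeA_upd]
    exact hb.er _ (hm a ha) _ (hm b hb') (MergeA_adj hs ha hb' hab) y
  · intro a ha b hb' y
    by_cases hab : a = b
    · rw [hab]
    · rw [MergeA_upd, MergeA_upd]
      exact hb.ee _ (hm a ha) _ (hm b hb') (MergeA_adj hs ha hb' hab) y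

private theorem MergeA_D {x u : V} (r : V → Module.End F2 Y) (w : V) (y : Y × Y) :
    dbl r x (r u) w y = if w = x then (Function.update r x (r u) w y.2,
      Function.update r x (r u) w y.1) else (Function.update r x (r u) w y.1,
      Function.update r x (r u) w y.2) := by
  by_cases h : w = x
  · rw [if_pos h, h, Function.update_self, dbl_self]
  · rw [if_neg h, Function.update_of_ne h, dbl_ne r h]

private theorem MergeA_bitD {x u : V} {r E : V → Module.End F2 Y} {s : Finset V}
    (h : BitOn (Function.update r x (r u)) (Function.update E x (E u)) s) :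
    BitOn (dbl r x (r u)) (MergeA_E (Function.update E x (E u))) s := by
  obtain ⟨rf, hrf⟩ : ∃ f, f = Function.update r x (r u) := ⟨_, rfl⟩
  obtain ⟨Ef, hEf⟩ : ∃ f, f = Function.update E x (E u) := ⟨_, rfl⟩
  have hD : ∀ (w : V) (y : Y × Y), dbl r x (r u) w y = if w = x then (rf w y.2, rf w y.1) else
      (rf w y.1, rf w y.2) := by
    intro w y
    rw [hrf]
    exact MergeA_D r w y
  rw [← hrf, ← hEf] at h
  rw [← hEf]
  have hE : ∀ (w : V) (y : Y × Y), MergeA_E Ef w y = (Ef w y.1, Ef w y.2) := fun _ _ => rfl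
  refine ⟨?_, ?_, ?_, ?_, ?_, ?_⟩
  · intro v hv y
    by_cases hvx : v = x
    · rw [hD, if_pos hvx, hD, if_pos hvx]
      exact Prod.ext (h.sq v hv _) (h.sq v hv _)
    · rw [hD, if_neg hvx, hD, if_neg hvx]
      exact Prod.ext (h.sq v hv _) (h.sq v hv _)
  · intro a ha b hb y
    by_cases hax : a = x
    · by_cases hbx : b = x
      · rw [hax, hbx]
      · rw [hD b, if_neg hbx, hD a, if_pos hax, hD a, if_pos hax, hD b, if_neg hbx]
        exact Prod.ext (h.comm a ha b hb _) (h.comm a ha b hb _)
    · by_cases hbx : b = x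
      · rw [hD b, if_pos hbx, hD a, if_neg hax, hD a, if_neg hax, hD b, if_pos hbx]
        exact Prod.ext (h.comm a ha b hb _) (h.comm a ha b hb _)
      · rw [hD b, if_neg hbx, hD a, if_neg hax, hD a, if_neg hax, hD b, if_neg hbx]
        exact Prod.ext (h.comm a ha b hb _) (h.comm a ha b hb _)
  · intro v hv y
    rw [hE, hE]
    exact Prod.ext (h.idem v hv _) (h.idem v hv _)
  · intro v hv y
    by_cases hvx : v = x
    · rw [hD, if_pos hvx, hD, if_pos hvx, hE, hE]
      exact Prod.ext (h.bit v hv _) (h.bit v hv _)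
    · rw [hD, if_neg hvx, hD, if_neg hvx, hE, hE]
      exact Prod.ext (h.bit v hv _) (h.bit v hv _)
  · intro a ha b hb hab y
    by_cases hbx : b = x
    · rw [hD, if_pos hbx, hD, if_pos hbx, hE, hE]
      exact Prod.ext (h.er a ha b hb hab _) (h.er a ha b hb hab _)
    · rw [hD, if_neg hbx, hD, if_neg hbx, hE, hE]
      exact Prod.ext (h.er a ha b hb hab _) (h.er a ha b hb hab _)
  · intro a ha b hb y
    rw [hE, hE, hE, hE]
    exact Prod.ext (h.ee a ha b hb _) (h.ee a ha b hb _)

theorem merge_a {G : SimpleGraph V} {U : Finset V} {x u : V} (hx : x ∈ U) (hu : u ∈ U)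
    (hxu : x ≠ u) {r E : V → Module.End F2 Y} (h : IsN (merge G x u) (U.erase x) r)
    (hb : IsBit (merge G x u) (U.erase x) r E) (i : ℕ) :
    hX (Cq G U) (dbl r x (r u)) i ≤ hX (Cq G U) (Function.update r x (r u)) i +
      hX (fun s => Cq G U s ∧ ¬ (x ∈ s ∧ u ∈ s)) (Function.update r x (r u)) i := by
  obtain ⟨rf, hrf⟩ : ∃ f, f = Function.update r x (r u) := ⟨_, rfl⟩
  have hD : ∀ (w : V) (y : Y × Y), dbl r x (r u) w y = if w = x then (rf w y.2, rf w y.1) else
      (rf w y.1, rf w y.2) := by
    intro w y
    rw [hrf]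
    exact MergeA_D r w y
  have hrx : rf x = r u := by rw [hrf, Function.update_self]
  have hru : rf u = r u := by rw [hrf, Function.update_of_ne hxu.symm]
  rw [← hrf]
  let lam : Y × Y →ₗ[F2] Y := LinearMap.fst F2 Y Y + LinearMap.snd F2 Y Y
  have hlam : ∀ y : Y × Y, lam y = y.1 + y.2 := fun _ => rfl
  let j : Y →ₗ[F2] Y × Y := LinearMap.prod LinearMap.id LinearMap.id
  have hj : ∀ y : Y, j y = (y, y) := fun _ => rfl
  have hjinj : Function.Injective j := by
    intro a b hab
    rw [hj, hj] at hab
    exact congrArg Prod.fst hab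
  have hmono : Mono (Sy (Cq G U) (dbl r x (r u))) := mono_Sy (mono_Cq G U) _
  have key := hd_coef hmono lam i
  have e1 : (fun s => Sy (Cq G U) (dbl r x (r u)) s ⊓ LinearMap.ker lam) =
      fun s => (Sy (Cq G U) rf s).map j := by
    funext s
    ext y
    rw [Submodule.mem_inf, LinearMap.mem_ker, hlam, mem_Sy, Submodule.mem_map]
    constructor
    · rintro ⟨⟨h1, h2⟩, h3⟩
      have h4 : y.2 = y.1 := by
        have h5 : y.1 + y.2 + y.1 = y.1 := by rw [h3, zero_add]
        calc y.2 = y.1 + y.1 + y.2 := by rw [ZModModule.add_self, zero_add]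
          _ = y.1 + y.2 + y.1 := by abel
          _ = y.1 := h5
      refine ⟨y.1, ?_, Prod.ext rfl h4.symm⟩
      rw [mem_Sy]
      refine ⟨fun hc => congrArg Prod.fst (h1 hc), fun w hw => ?_⟩
      have h5 := h2 w hw
      rw [hD] at h5
      by_cases hwx : w = x
      · rw [if_pos hwx, h4] at h5
        exact congrArg Prod.fst h5
      · rw [if_neg hwx] at h5
        exact congrArg Prod.fst h5
    · rintro ⟨a, ha, rfl⟩
      rw [mem_Sy] at ha
      rw [hj]
      refine ⟨⟨fun hc => ?_, fun w hw => ?_⟩, ZModModule.add_self _⟩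
      · rw [ha.1 hc]
        rfl
      · rw [hD]
        have h5 := ha.2 w hw
        by_cases hwx : w = x
        · rw [if_pos hwx]
          exact Prod.ext h5 h5
        · rw [if_neg hwx]
          exact Prod.ext h5 h5
  have e2 : (fun s => (Sy (Cq G U) (dbl r x (r u)) s).map lam) =
      Sy (fun s => Cq G U s ∧ ¬ (x ∈ s ∧ u ∈ s)) rf := by
    funext s
    by_cases hX : Cq G U s ∧ ¬ (x ∈ s ∧ u ∈ s)
    · have h1 := Sy_map (X := fun s => Cq G U s ∧ ¬ (x ∈ s ∧ u ∈ s)) (r := dbl r x (r u))
        (E := MergeA_E (Function.update E x (E u))) (r' := rf)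
        (fun s hs => MergeA_bitD (MergeA_bit hu hxu h hb hs)) lam
        (fun y => ⟨(y, 0), by rw [hlam, add_zero]⟩)
        (fun s hs v hv y => by
          rw [hlam, hlam, hD, map_add]
          by_cases hvx : v = x
          · rw [if_pos hvx]
            exact add_comm _ _
          · rw [if_neg hvx])
        (fun s hs v hv y hy => by
          rw [hlam] at hy ⊢
          rw [MergeA_E_apply, ← map_add, hy, map_zero]) s
      rw [← h1]
      congr 1
      ext y
      rw [mem_Sy, mem_Sy]
      exact ⟨fun h2 => ⟨fun hc => absurd hX hc, h2.2⟩, fun h2 => ⟨fun hc => absurd hX.1 hc, h2.2⟩⟩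
    · ext z
      rw [Submodule.mem_map, mem_Sy]
      constructor
      · rintro ⟨y, hy, rfl⟩
        rw [mem_Sy] at hy
        have hz : lam y = 0 := by
          rw [hlam]
          by_cases hc : Cq G U s
          · have hxs : x ∈ s ∧ u ∈ s := by
              by_contra hn
              exact hX ⟨hc, hn⟩
            have g1 := hy.2 x hxs.1
            have g2 := hy.2 u hxs.2
            rw [hD, if_pos rfl, hrx] at g1
            rw [hD, if_neg hxu.symm, hru] at g2
            have g3 : r u y.2 = y.1 := congrArg Prod.fst g1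
            have g4 : r u y.2 = y.2 := congrArg Prod.snd g2
            rw [← g3, g4]
            exact ZModModule.add_self _
          · rw [hy.1 hc]
            exact add_zero _
        rw [hz]
        exact ⟨fun _ => rfl, fun v _ => map_zero _⟩
      · rintro ⟨h1, -⟩
        rw [h1 hX]
        exact ⟨0, Submodule.zero_mem _, map_zero _⟩
  rw [e1, e2, hd_map _ _ hjinj] at key
  exact key

end Pool.Agent.H73.GC

end

section

/-!
# Growth calculus: identification of two vertices, part B

For adjacent `x` and `u` the kernel of `psh` is acyclic: a cycle `z` in the kernel satisfies `z t = 0` for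
`x, u ∉ t` and `z (t + x) = z (t + u) =: w t`; put `z' (t + x + u) = w t` and `z' = 0` on the other sets; then
`dd z' = z`, because `w t` vanishes unless `t + x + u` is a clique, and `(dd z) (t + u) = 0` says
`z (t + x + u) = ∑ w (t + v)`. Then `hx_mid`.
-/

set_option autoImplicit false
set_option linter.unusedSectionVars false

open Finset

namespace Pool.Agent.H73.GC

variable {V : Type} [DecidableEq V] [Fintype V]
variable {Y : Type} [AddCommGroup Y] [Module F2 Y] [Finite Y]

private theorem MergeB_eq {y z : Y} (h : y + z = 0) : y = z := by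
  calc y = y + (z + z) := by rw [ZModModule.add_self, add_zero]
    _ = (y + z) + z := by rw [add_assoc]
    _ = z := by rw [h, zero_add]

/-- the kernel of `psh` on the sets which contain `u` and not `x` -/
private theorem MergeB_ker {x u : V} {z : Finset V → Y} (hz : psh x u z = 0) {t : Finset V}
    (hxt : x ∉ t) (hut : u ∈ t) : z t = z (insert x (t.erase u)) := by
  have h := congrFun hz t
  rw [psh_apply, if_neg hxt, if_pos hut] at h
  exact MergeB_eq h

private theorem MergeB_ker' {x u : V} {z : Finset V → Y} (hz : psh x u z = 0) {t : Finset V}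
    (hxt : x ∉ t) (hut : u ∉ t) : z t = 0 := by
  have h := congrFun hz t
  rw [psh_apply, if_neg hxt, if_neg hut] at h
  exact h

/-- the cone -/
private def MergeB_cone (x u : V) (z : Finset V → Y) (s : Finset V) : Y :=
  if x ∈ s ∧ u ∈ s then z (s.erase x) else 0

private theorem MergeB_clique {G : SimpleGraph V} {U : Finset V} {x u : V} (hxu : G.Adj x u)
    {s : Finset V} (hxs : x ∈ s) (h1 : Cq G U (s.erase x))
    (h2 : Cq G U (s.erase u)) : Cq G U s := by
  have hne : x ≠ u := hxu.ne
  refine ⟨?_, ?_⟩
  · intro a ha b hb hab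
    have ha' : a ∈ s := mem_coe.1 ha
    have hb' : b ∈ s := mem_coe.1 hb
    by_cases hax : a = x
    · have hbx : b ≠ x := fun e => hab (hax.trans e.symm)
      by_cases hbu : b = u
      · rw [hax, hbu]
        exact hxu
      · have hau : a ≠ u := fun e => hne (hax.symm.trans e)
        exact h2.1 (mem_coe.2 (mem_erase.2 ⟨hau, ha'⟩)) (mem_coe.2 (mem_erase.2 ⟨hbu, hb'⟩)) hab
    · by_cases hbx : b = x
      · by_cases hau : a = u
        · rw [hbx, hau]
          exact hxu.symm
        · have hbu : b ≠ u := fun e => hne (hbx.symm.trans e)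
          exact h2.1 (mem_coe.2 (mem_erase.2 ⟨hau, ha'⟩)) (mem_coe.2 (mem_erase.2 ⟨hbu, hb'⟩))
            hab
      · exact h1.1 (mem_coe.2 (mem_erase.2 ⟨hax, ha'⟩)) (mem_coe.2 (mem_erase.2 ⟨hbx, hb'⟩)) hab
  · intro a ha
    by_cases hax : a = x
    · rw [hax]
      exact h2.2 (mem_erase.2 ⟨hne, hxs⟩)
    · exact h1.2 (mem_erase.2 ⟨hax, ha⟩)

private theorem MergeB_psh {x u : V} (z : Finset V → Y) : psh x u (MergeB_cone x u z) = 0 := by
  funext t
  rw [psh_apply]
  by_cases hxt : x ∈ t
  · rw [if_pos hxt]
    rfl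
  · rw [if_neg hxt]
    have h1 : MergeB_cone x u z t = 0 := by
      unfold MergeB_cone
      exact if_neg fun h => hxt h.1
    by_cases hut : u ∈ t
    · rw [if_pos hut, h1, zero_add]
      unfold MergeB_cone
      refine if_neg fun h => ?_
      rcases mem_insert.1 h.2 with h2 | h2
      · exact hxt (h2 ▸ hut)
      · exact (mem_erase.1 h2).1 rfl
    · rw [if_neg hut, h1]
      rfl

private theorem MergeB_dd {x u : V} (hxu : x ≠ u) {z : Finset V → Y} (hz : psh x u z = 0)
    (hd : dd z = 0) : dd (MergeB_cone x u z) = z := by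
  funext t
  rw [dd_apply]
  by_cases hxt : x ∈ t
  · by_cases hut : u ∈ t
    · have hxe : x ∉ t.erase x := fun h => (mem_erase.1 h).1 rfl
      have h1 : ∀ v ∈ tᶜ, MergeB_cone x u z (insert v t) = z (insert v (t.erase x)) := by
        intro v hv
        have hvx : v ≠ x := fun e => (mem_compl.1 hv) (e ▸ hxt)
        unfold MergeB_cone
        rw [if_pos ⟨mem_insert_of_mem hxt, mem_insert_of_mem hut⟩, erase_insert_of_ne hvx]
      rw [sum_congr rfl h1]
      have h2 := congrFun hd (t.erase x)
      have hc : (t.erase x)ᶜ = insert x tᶜ := by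
        ext a
        simp only [mem_compl, mem_erase, mem_insert]
        tauto
      have hxc : x ∉ tᶜ := fun h => (mem_compl.1 h) hxt
      rw [dd_apply, hc, sum_insert hxc, insert_erase hxt] at h2
      exact (MergeB_eq h2).symm
    · have huc : u ∈ tᶜ := mem_compl.2 hut
      rw [sum_eq_single u]
      · have hue : u ∉ t.erase x := fun h => hut (mem_of_mem_erase h)
        have hxi : x ∉ insert u (t.erase x) := by
          rw [mem_insert]
          rintro (h | h)
          · exact hxu h
          · exact (mem_erase.1 h).1 rfl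
        unfold MergeB_cone
        rw [if_pos ⟨mem_insert_of_mem hxt, mem_insert_self _ _⟩, erase_insert_of_ne hxu.symm,
          MergeB_ker hz hxi (mem_insert_self _ _), erase_insert hue, insert_erase hxt]
      · intro v _ hvu
        unfold MergeB_cone
        refine if_neg fun h => ?_
        rcases mem_insert.1 h.2 with h2 | h2
        · exact hvu h2.symm
        · exact hut h2
      · exact fun h => absurd huc h
  · by_cases hut : u ∈ t
    · have hxc : x ∈ tᶜ := mem_compl.2 hxt
      rw [sum_eq_single x]
      · unfold MergeB_cone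
        rw [if_pos ⟨mem_insert_self _ _, mem_insert_of_mem hut⟩, erase_insert hxt]
      · intro v _ hvx
        unfold MergeB_cone
        refine if_neg fun h => ?_
        rcases mem_insert.1 h.1 with h2 | h2
        · exact hvx h2.symm
        · exact hxt h2
      · exact fun h => absurd hxc h
    · rw [MergeB_ker' hz hxt hut]
      refine sum_eq_zero fun v _ => ?_
      unfold MergeB_cone
      refine if_neg fun h => ?_
      rcases mem_insert.1 h.1 with h2 | h2
      · rcases mem_insert.1 h.2 with h3 | h3
        · exact hxu (h2.trans h3.symm)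
        · exact hut h3
      · exact hxt h2

private theorem MergeB_mem {G : SimpleGraph V} {U : Finset V} {x u : V}
    (hxu : G.Adj x u) (r : V → Module.End F2 Y) {z : Finset V → Y} (hz : psh x u z = 0) {i : ℕ}
    (hc : z ∈ Ch (Sy (Cq G U) (Function.update r x (r u))) i) :
    MergeB_cone x u z ∈ Ch (Sy (Cq G U) (Function.update r x (r u))) (i + 1) := by
  have hne : x ≠ u := hxu.ne
  have hcoe := mem_Ch.1 hc
  rw [mem_Ch]
  intro s
  by_cases hs : x ∈ s ∧ u ∈ s
  · obtain ⟨hxs, hus⟩ := hs
    have hval : MergeB_cone x u z s = z (s.erase x) := by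
      unfold MergeB_cone
      rw [if_pos ⟨hxs, hus⟩]
    rw [hval]
    have hxe : x ∉ s.erase x := fun h => (mem_erase.1 h).1 rfl
    have hue : u ∈ s.erase x := mem_erase.2 ⟨hne.symm, hus⟩
    have hk : z (s.erase x) = z (s.erase u) := by
      rw [MergeB_ker hz hxe hue]
      congr 1
      rw [erase_right_comm]
      exact insert_erase (mem_erase.2 ⟨hne, hxs⟩)
    obtain ⟨h1, h2⟩ := hcoe (s.erase x)
    obtain ⟨h3, -⟩ := hcoe (s.erase u)
    rw [mem_Sy] at h1 h3
    refine ⟨?_, fun hcard => h2 fun h4 => hcard ?_⟩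
    · rw [mem_Sy]
      refine ⟨fun hC => ?_, fun v hv => ?_⟩
      · by_contra hzn
        have hA : Cq G U (s.erase x) := by
          by_contra hA
          exact hzn (h1.1 hA)
        have hB : Cq G U (s.erase u) := by
          by_contra hB
          exact hzn (hk.trans (h3.1 hB))
        exact hC (MergeB_clique hxu hxs hA hB)
      · by_cases hvx : v = x
        · have h5 := h1.2 u hue
          rw [Function.update_of_ne hne.symm] at h5
          rw [hvx, Function.update_self]
          exact h5
        · exact h1.2 v (mem_erase.2 ⟨hvx, hv⟩)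
    · rw [← card_erase_add_one hxs, h4]
  · have hval : MergeB_cone x u z s = 0 := by
      unfold MergeB_cone
      exact if_neg hs
    rw [hval]
    exact ⟨Submodule.zero_mem _, fun _ => rfl⟩

theorem merge_b {G : SimpleGraph V} {U : Finset V} {x u : V} (hx : x ∈ U) (hu : u ∈ U)
    (hxu : G.Adj x u) (hN : NoSq G U x u) (r : V → Module.End F2 Y) (i : ℕ) :
    hX (Cq G U) (Function.update r x (r u)) i ≤ hX (Cq (merge G x u) (U.erase x)) r i := by
  have hne : x ≠ u := hxu.ne
  have hC : IsCx dd (Ch (Sy (Cq G U) (Function.update r x (r u)))) :=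
    isCx_Ch (mono_Sy (mono_Cq G U) _)
  have key := hx_mid (d' := dd) hC (psh x u) (fun _ z _ => psh_dd hne z) i
  have e1 : (fun j => (Ch (Sy (Cq G U) (Function.update r x (r u))) j).map (psh x u)) =
      Ch (Sy (Cq (merge G x u) (U.erase x)) r) :=
    funext fun j => psh_map hx hu hne hN r j (Cq G U) (Or.inl fun _ => Iff.rfl)
  have e2 : GC.hx dd (fun j => Ch (Sy (Cq G U) (Function.update r x (r u))) j ⊓
      LinearMap.ker (psh x u)) i ≤ 0 := by
    have hle : (Ch (Sy (Cq G U) (Function.update r x (r u))) i ⊓ LinearMap.ker (psh x u)) ⊓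
        LinearMap.ker dd ≤ (Ch (Sy (Cq G U) (Function.update r x (r u))) (i + 1) ⊓
          LinearMap.ker (psh x u)).map dd := by
      rintro z ⟨⟨h1, h2⟩, h3⟩
      have h2' : psh x u z = 0 := h2
      have h3' : dd z = 0 := h3
      exact ⟨MergeB_cone x u z, ⟨MergeB_mem hxu r h2' h1, MergeB_psh z⟩, MergeB_dd hne h2' h3'⟩
    have hf := Submodule.finrank_mono hle
    unfold GC.hx
    beta_reduce
    omega
  rw [e1] at key
  unfold hX hd
  linarith

end Pool.Agent.H73.GC

end

section

/-!
# Growth calculus: identification of two vertices, part C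

Let `X` be the cliques which do not contain both `x` and `u`. The kernel of `psh` on the chains of `X`: `z t = 0` for
`x, u ∉ t` and `z (t + x) = z (t + u) =: w t`, `t ≤ lk2 G U x u`; `w` is an arbitrary chain with coefficients in
the invariants of `r u` on the link, and `(dd z) (t + u) = (dd w) t`. So `hx_mid` and `hx_map` (for
`w ↦ z`) give the claim.
-/

set_option autoImplicit false
set_option linter.unusedSectionVars false

open Finset

namespace Pool.Agent.H73.GC

variable {V : Type} [DecidableEq V] [Fintype V]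
variable {Y : Type} [AddCommGroup Y] [Module F2 Y] [Finite Y]

private theorem MergeC_eq {y z : Y} (h : y + z = 0) : y = z := by
  calc y = y + (z + z) := by rw [ZModModule.add_self, add_zero]
    _ = (y + z) + z := by rw [add_assoc]
    _ = z := by rw [h, zero_add]

/-- the kernel of `psh` on the sets which contain `u` and not `x` -/
private theorem MergeC_ker {x u : V} {z : Finset V → Y} (hz : psh x u z = 0) {t : Finset V}
    (hxt : x ∉ t) (hut : u ∈ t) : z t = z (insert x (t.erase u)) := by
  have h := congrFun hz t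
  rw [psh_apply, if_neg hxt, if_pos hut] at h
  exact MergeC_eq h

private theorem MergeC_ker' {x u : V} {z : Finset V → Y} (hz : psh x u z = 0) {t : Finset V}
    (hxt : x ∉ t) (hut : u ∉ t) : z t = 0 := by
  have h := congrFun hz t
  rw [psh_apply, if_neg hxt, if_neg hut] at h
  exact h

/-- the chain `z` of the chain `w` on the link -/
private def MergeC_up (x u : V) : Module.End F2 (Finset V → Y) where
  toFun w s := if x ∈ s then (if u ∈ s then 0 else w (s.erase x)) else
    if u ∈ s then w (s.erase u) else 0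
  map_add' z w := by
    funext t
    by_cases h : x ∈ t
    · by_cases h2 : u ∈ t
      · simp [h, h2]
      · simp [h, h2]
    · by_cases h2 : u ∈ t
      · simp [h, h2]
      · simp [h, h2]
  map_smul' c z := by
    funext t
    by_cases h : x ∈ t
    · by_cases h2 : u ∈ t
      · simp [h, h2]
      · simp [h, h2]
    · by_cases h2 : u ∈ t
      · simp [h, h2]
      · simp [h, h2]

private theorem MergeC_up_apply (x u : V) (w : Finset V → Y) (s : Finset V) :
    MergeC_up x u w s = if x ∈ s then (if u ∈ s then 0 else w (s.erase x)) else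
      if u ∈ s then w (s.erase u) else 0 := rfl

/-- `w` is supported on the sets which contain neither `x` nor `u` -/
private def MergeC_S (x u : V) (w : Finset V → Y) : Prop := ∀ s, (x ∈ s ∨ u ∈ s) → w s = 0

private theorem MergeC_S_dd {x u : V} {w : Finset V → Y} (hw : MergeC_S x u w) :
    MergeC_S x u (dd w) := by
  intro s hs
  rw [dd_apply]
  refine sum_eq_zero fun v _ => hw _ ?_
  rcases hs with hs | hs
  · exact Or.inl (mem_insert_of_mem hs)
  · exact Or.inr (mem_insert_of_mem hs)

private theorem MergeC_inj {x u : V} (hxu : x ≠ u) {w : Finset V → Y} (hw : MergeC_S x u w)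
    (h : MergeC_up x u w = 0) : w = 0 := by
  funext s
  by_cases hs : x ∈ s ∨ u ∈ s
  · exact hw s hs
  · push Not at hs
    obtain ⟨hxs, hus⟩ := hs
    have h1 := congrFun h (insert x s)
    have h2 : u ∉ insert x s := by
      rw [mem_insert]
      rintro (h3 | h3)
      · exact hxu h3.symm
      · exact hus h3
    rw [MergeC_up_apply, if_pos (mem_insert_self x s), if_neg h2, erase_insert hxs] at h1
    exact h1

private theorem MergeC_dd_aux {a b : V} {w : Finset V → Y}
    (hw : ∀ s, (a ∈ s ∨ b ∈ s) → w s = 0) {t : Finset V} (hat : a ∈ t)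
    {f : Finset V → Y} (hf0 : f (insert b t) = 0)
    (hf : ∀ v, v ∉ t → v ≠ b → f (insert v t) = w ((insert v t).erase a)) :
    ∑ v ∈ tᶜ, f (insert v t) = ∑ v ∈ (t.erase a)ᶜ, w (insert v (t.erase a)) := by
  have hc : (t.erase a)ᶜ = insert a tᶜ := by
    ext v
    simp only [mem_compl, mem_erase, mem_insert]
    tauto
  have hac : a ∉ tᶜ := fun h => (mem_compl.1 h) hat
  rw [hc, sum_insert hac, hw _ (Or.inl (mem_insert_self a _)), zero_add]
  refine sum_congr rfl fun v hv => ?_
  have hvt : v ∉ t := mem_compl.1 hv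
  by_cases hvb : v = b
  · rw [hvb, hf0, hw _ (Or.inr (mem_insert_self b _))]
  · have hva : v ≠ a := fun h => hvt (h ▸ hat)
    rw [hf v hvt hvb, erase_insert_of_ne hva]

private theorem MergeC_dd {x u : V} (hxu : x ≠ u) {w : Finset V → Y} (hw : MergeC_S x u w) :
    MergeC_up x u (dd w) = dd (MergeC_up x u w) := by
  funext t
  rw [MergeC_up_apply, dd_apply (MergeC_up x u w)]
  by_cases hxt : x ∈ t
  · rw [if_pos hxt]
    by_cases hut : u ∈ t
    · rw [if_pos hut]
      symm
      refine sum_eq_zero fun v _ => ?_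
      rw [MergeC_up_apply, if_pos (mem_insert_of_mem hxt), if_pos (mem_insert_of_mem hut)]
    · rw [if_neg hut, dd_apply]
      symm
      refine MergeC_dd_aux hw hxt ?_ ?_
      · rw [MergeC_up_apply, if_pos (mem_insert_of_mem hxt), if_pos (mem_insert_self u t)]
      · intro v _ hvu
        have h2 : u ∉ insert v t := by
          rw [mem_insert]
          rintro (h3 | h3)
          · exact hvu h3.symm
          · exact hut h3
        rw [MergeC_up_apply, if_pos (mem_insert_of_mem hxt), if_neg h2]
  · rw [if_neg hxt]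
    by_cases hut : u ∈ t
    · rw [if_pos hut, dd_apply]
      symm
      refine MergeC_dd_aux (fun s hs => hw s hs.symm) hut ?_ ?_
      · rw [MergeC_up_apply, if_pos (mem_insert_self x t), if_pos (mem_insert_of_mem hut)]
      · intro v _ hvx
        have h2 : x ∉ insert v t := by
          rw [mem_insert]
          rintro (h3 | h3)
          · exact hvx h3.symm
          · exact hxt h3
        rw [MergeC_up_apply, if_neg h2, if_pos (mem_insert_of_mem hut)]
    · rw [if_neg hut]
      symm
      have hxc : x ∈ tᶜ := mem_compl.2 hxt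
      have huc : u ∈ tᶜ.erase x := mem_erase.2 ⟨hxu.symm, mem_compl.2 hut⟩
      rw [← add_sum_erase _ _ hxc, ← add_sum_erase _ _ huc]
      have h1 : MergeC_up x u w (insert x t) = w t := by
        have h2 : u ∉ insert x t := by
          rw [mem_insert]
          rintro (h3 | h3)
          · exact hxu h3.symm
          · exact hut h3
        rw [MergeC_up_apply, if_pos (mem_insert_self x t), if_neg h2, erase_insert hxt]
      have h2 : MergeC_up x u w (insert u t) = w t := by
        have h3 : x ∉ insert u t := by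
          rw [mem_insert]
          rintro (h4 | h4)
          · exact hxu h4
          · exact hxt h4
        rw [MergeC_up_apply, if_neg h3, if_pos (mem_insert_self u t), erase_insert hut]
      have h3 : ∑ v ∈ (tᶜ.erase x).erase u, MergeC_up x u w (insert v t) = 0 := by
        refine sum_eq_zero fun v hv => ?_
        have hvu : v ≠ u := ne_of_mem_erase hv
        have hvx : v ≠ x := ne_of_mem_erase (mem_of_mem_erase hv)
        have h4 : x ∉ insert v t := by
          rw [mem_insert]
          rintro (h5 | h5)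
          · exact hvx h5.symm
          · exact hxt h5
        have h6 : u ∉ insert v t := by
          rw [mem_insert]
          rintro (h5 | h5)
          · exact hvu h5.symm
          · exact hut h5
        rw [MergeC_up_apply, if_neg h4, if_neg h6]
      rw [h1, h2, h3, add_zero, ZModModule.add_self]

/-- the coefficients on the link -/
private def MergeC_A (G : SimpleGraph V) (U : Finset V) (x u : V) (r : V → Module.End F2 Y)
    (s : Finset V) : Submodule F2 Y := Sy (Cq G (lk2 G U x u)) r s ⊓ Inv r {u}

private theorem MergeC_lk {G : SimpleGraph V} {U : Finset V} {x u v : V} :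
    v ∈ lk2 G U x u ↔ v ∈ U ∧ G.Adj x v ∧ G.Adj u v := by
  simp only [lk2, mem_filter]

private theorem MergeC_S_Ch {G : SimpleGraph V} {U : Finset V} {x u : V}
    {r : V → Module.End F2 Y} {k : ℕ} {w : Finset V → Y} (hw : w ∈ Ch (MergeC_A G U x u r) k) :
    MergeC_S x u w := by
  intro s hs
  refine (mem_Sy.1 ((mem_Ch.1 hw s).1).1).1 fun h => ?_
  rcases hs with hs | hs
  · exact G.loopless.irrefl x (MergeC_lk.1 (h.2 hs)).2.1
  · exact G.loopless.irrefl u (MergeC_lk.1 (h.2 hs)).2.2

/-- a clique of the link and one of the two vertices form a clique -/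
private theorem MergeC_cq {G : SimpleGraph V} {U : Finset V} {a : V} {L : Finset V}
    (ha : a ∈ U) (hL : ∀ v ∈ L, v ∈ U ∧ G.Adj a v) {s : Finset V}
    (h : Cq G L (s.erase a)) : Cq G U s := by
  refine ⟨?_, ?_⟩
  · intro b hb c hc hbc
    have hb' : b ∈ s := mem_coe.1 hb
    have hc' : c ∈ s := mem_coe.1 hc
    by_cases hba : b = a
    · have hca : c ≠ a := fun e => hbc (hba.trans e.symm)
      rw [hba]
      exact (hL c (h.2 (mem_erase.2 ⟨hca, hc'⟩))).2
    · by_cases hca : c = a
      · rw [hca]
        exact (hL b (h.2 (mem_erase.2 ⟨hba, hb'⟩))).2.symm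
      · exact h.1 (mem_coe.2 (mem_erase.2 ⟨hba, hb'⟩)) (mem_coe.2 (mem_erase.2 ⟨hca, hc'⟩)) hbc
  · intro b hb
    by_cases hba : b = a
    · rw [hba]
      exact ha
    · exact (hL b (h.2 (mem_erase.2 ⟨hba, hb⟩))).1

private theorem MergeC_psh {x u : V} (w : Finset V → Y) :
    psh x u (MergeC_up x u w) = 0 := by
  funext t
  rw [psh_apply]
  by_cases hxt : x ∈ t
  · rw [if_pos hxt]
    rfl
  · rw [if_neg hxt]
    by_cases hut : u ∈ t
    · rw [if_pos hut]
      have hxe : x ∉ t.erase u := fun h => hxt (mem_of_mem_erase h)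
      have hun : u ∉ insert x (t.erase u) := by
        rw [mem_insert]
        rintro (h | h)
        · exact hxt (h ▸ hut)
        · exact (mem_erase.1 h).1 rfl
      rw [MergeC_up_apply, if_neg hxt, if_pos hut, MergeC_up_apply,
        if_pos (mem_insert_self _ _), if_neg hun, erase_insert hxe, ZModModule.add_self]
      rfl
    · rw [if_neg hut, MergeC_up_apply, if_neg hxt, if_neg hut]
      rfl

private theorem MergeC_mem {G : SimpleGraph V} {U : Finset V} {x u : V} (hx : x ∈ U)
    (hu : u ∈ U) (r : V → Module.End F2 Y) {k : ℕ} {w : Finset V → Y}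
    (hw : w ∈ Ch (MergeC_A G U x u r) k) :
    MergeC_up x u w ∈ Ch (Sy (fun s => Cq G U s ∧ ¬ (x ∈ s ∧ u ∈ s))
      (Function.update r x (r u))) (k + 1) := by
  rw [mem_Ch]
  intro s
  rw [MergeC_up_apply]
  by_cases hxs : x ∈ s
  · rw [if_pos hxs]
    by_cases hus : u ∈ s
    · rw [if_pos hus]
      exact ⟨Submodule.zero_mem _, fun _ => rfl⟩
    · rw [if_neg hus]
      obtain ⟨⟨h1, h2⟩, h3⟩ := mem_Ch.1 hw (s.erase x)
      have h1' := mem_Sy.1 h1
      refine ⟨?_, fun hc => h3 fun h4 => hc ?_⟩
      · rw [mem_Sy]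
        refine ⟨fun h => h1'.1 fun h4 => h ⟨?_, fun h5 => hus h5.2⟩, fun v hv => ?_⟩
        · refine MergeC_cq hx ?_ h4
          intro v hv
          have h5 := MergeC_lk.1 hv
          exact ⟨h5.1, h5.2.1⟩
        · by_cases hvx : v = x
          · rw [hvx, Function.update_self]
            exact (mem_Inv.1 h2) u (mem_singleton_self u)
          · rw [Function.update_of_ne hvx]
            exact h1'.2 v (mem_erase.2 ⟨hvx, hv⟩)
      · rw [← card_erase_add_one hxs, h4]
  · rw [if_neg hxs]
    by_cases hus : u ∈ s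
    · rw [if_pos hus]
      obtain ⟨⟨h1, h2⟩, h3⟩ := mem_Ch.1 hw (s.erase u)
      have h1' := mem_Sy.1 h1
      refine ⟨?_, fun hc => h3 fun h4 => hc ?_⟩
      · rw [mem_Sy]
        refine ⟨fun h => h1'.1 fun h4 => h ⟨?_, fun h5 => hxs h5.1⟩, fun v hv => ?_⟩
        · refine MergeC_cq hu ?_ h4
          intro v hv
          have h5 := MergeC_lk.1 hv
          exact ⟨h5.1, h5.2.2⟩
        · have hvx : v ≠ x := fun e => hxs (e ▸ hv)
          rw [Function.update_of_ne hvx]
          by_cases hvu : v = u
          · rw [hvu]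
            exact (mem_Inv.1 h2) u (mem_singleton_self u)
          · exact h1'.2 v (mem_erase.2 ⟨hvu, hv⟩)
      · rw [← card_erase_add_one hus, h4]
    · rw [if_neg hus]
      exact ⟨Submodule.zero_mem _, fun _ => rfl⟩

/-- the chain on the link of a chain in the kernel -/
private def MergeC_dn (x u : V) (z : Finset V → Y) (t : Finset V) : Y :=
  if x ∈ t ∨ u ∈ t then 0 else z (insert u t)

private theorem MergeC_dn_up {G : SimpleGraph V} {U : Finset V} {x u : V} (hxu : x ≠ u)
    {r : V → Module.End F2 Y} {k : ℕ} {z : Finset V → Y}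
    (hz : z ∈ Ch (Sy (fun s => Cq G U s ∧ ¬ (x ∈ s ∧ u ∈ s)) (Function.update r x (r u))) k)
    (hk : psh x u z = 0) : MergeC_up x u (MergeC_dn x u z) = z := by
  funext t
  rw [MergeC_up_apply]
  by_cases hxt : x ∈ t
  · rw [if_pos hxt]
    by_cases hut : u ∈ t
    · rw [if_pos hut]
      exact ((mem_Sy.1 (mem_Ch.1 hz t).1).1 fun h => h.2 ⟨hxt, hut⟩).symm
    · rw [if_neg hut]
      have hxe : x ∉ t.erase x := fun h => (mem_erase.1 h).1 rfl
      have hue : u ∉ t.erase x := fun h => hut (mem_of_mem_erase h)
      have h1 : ¬ (x ∈ t.erase x ∨ u ∈ t.erase x) := by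
        rintro (h | h)
        · exact hxe h
        · exact hue h
      unfold MergeC_dn
      rw [if_neg h1]
      have h2 : x ∉ insert u (t.erase x) := by
        rw [mem_insert]
        rintro (h | h)
        · exact hxu h
        · exact hxe h
      rw [MergeC_ker hk h2 (mem_insert_self _ _), erase_insert hue, insert_erase hxt]
  · rw [if_neg hxt]
    by_cases hut : u ∈ t
    · rw [if_pos hut]
      have hxe : x ∉ t.erase u := fun h => hxt (mem_of_mem_erase h)
      have hue : u ∉ t.erase u := fun h => (mem_erase.1 h).1 rfl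
      have h1 : ¬ (x ∈ t.erase u ∨ u ∈ t.erase u) := by
        rintro (h | h)
        · exact hxe h
        · exact hue h
      unfold MergeC_dn
      rw [if_neg h1, insert_erase hut]
    · rw [if_neg hut]
      exact (MergeC_ker' hk hxt hut).symm

private theorem MergeC_dn_mem {G : SimpleGraph V} {U : Finset V} {x u : V}
    (hxu : x ≠ u) {r : V → Module.End F2 Y} {k : ℕ} {z : Finset V → Y}
    (hz : z ∈ Ch (Sy (fun s => Cq G U s ∧ ¬ (x ∈ s ∧ u ∈ s)) (Function.update r x (r u))) (k + 1))
    (hk : psh x u z = 0) : MergeC_dn x u z ∈ Ch (MergeC_A G U x u r) k := by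
  rw [mem_Ch]
  intro t
  by_cases ht : x ∈ t ∨ u ∈ t
  · unfold MergeC_dn
    rw [if_pos ht]
    exact ⟨Submodule.zero_mem _, fun _ => rfl⟩
  · have hval : MergeC_dn x u z t = z (insert u t) := by
      unfold MergeC_dn
      rw [if_neg ht]
    rw [hval]
    push Not at ht
    obtain ⟨hxt, hut⟩ := ht
    have h1 : x ∉ insert u t := by
      rw [mem_insert]
      rintro (h | h)
      · exact hxu h
      · exact hxt h
    have h2 : z (insert u t) = z (insert x t) := by
      rw [MergeC_ker hk h1 (mem_insert_self _ _), erase_insert hut]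
    obtain ⟨h3, h4⟩ := mem_Ch.1 hz (insert u t)
    obtain ⟨h5, -⟩ := mem_Ch.1 hz (insert x t)
    rw [mem_Sy] at h3 h5
    refine ⟨⟨?_, ?_⟩, fun hc => h4 fun h6 => hc ?_⟩
    · refine mem_Sy.2 ⟨fun h => ?_, fun v hv => ?_⟩
      · by_contra hzn
        have hA : Cq G U (insert u t) := by
          by_contra hA
          exact hzn (h3.1 fun h' => hA h'.1)
        have hB : Cq G U (insert x t) := by
          by_contra hB
          exact hzn (h2.trans (h5.1 fun h' => hB h'.1))
        refine h ⟨?_, ?_⟩
        · intro a ha b hb hab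
          exact hA.1 (mem_coe.2 (mem_insert_of_mem (mem_coe.1 ha)))
            (mem_coe.2 (mem_insert_of_mem (mem_coe.1 hb))) hab
        · intro a ha
          rw [MergeC_lk]
          refine ⟨hA.2 (mem_insert_of_mem ha), ?_, ?_⟩
          · exact hB.1 (mem_coe.2 (mem_insert_self x t)) (mem_coe.2 (mem_insert_of_mem ha))
              fun e => hxt (e ▸ ha)
          · exact hA.1 (mem_coe.2 (mem_insert_self u t)) (mem_coe.2 (mem_insert_of_mem ha))
              fun e => hut (e ▸ ha)
      · have hvx : v ≠ x := fun e => hxt (e ▸ hv)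
        have h6 := h3.2 v (mem_insert_of_mem hv)
        rwa [Function.update_of_ne hvx] at h6
    · refine mem_Inv.2 fun v hv => ?_
      have hvu : v = u := mem_singleton.1 hv
      have h6 := h3.2 u (mem_insert_self u t)
      rw [Function.update_of_ne hxu.symm] at h6
      rw [hvu]
      exact h6
    · rw [card_insert_of_notMem hut] at h6
      omega

private theorem MergeC_K {G : SimpleGraph V} {U : Finset V} {x u : V} (hx : x ∈ U)
    (hu : u ∈ U) (hxu : x ≠ u) (r : V → Module.End F2 Y) (k : ℕ) :
    (Ch (MergeC_A G U x u r) k).map (MergeC_up x u) =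
      Ch (Sy (fun s => Cq G U s ∧ ¬ (x ∈ s ∧ u ∈ s)) (Function.update r x (r u))) (k + 1) ⊓
        LinearMap.ker (psh x u) := by
  apply le_antisymm
  · rintro _ ⟨w, hw, rfl⟩
    exact ⟨MergeC_mem hx hu r hw, MergeC_psh w⟩
  · rintro z ⟨hz, hk⟩
    exact ⟨MergeC_dn x u z, MergeC_dn_mem hxu hz hk, MergeC_dn_up hxu hz hk⟩

/-- the homology of the image of a map of complexes which shifts the degree -/
private theorem MergeC_hx {E E' : Type} [AddCommGroup E] [Module F2 E] [Finite E]
    [AddCommGroup E'] [Module F2 E'] [Finite E'] {d : Module.End F2 E} {d' : Module.End F2 E'}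
    {C : ℕ → Submodule F2 E} {K : ℕ → Submodule F2 E'} (j : E →ₗ[F2] E')
    (hK : ∀ k, (C k).map j = K (k + 1)) (hd : ∀ k, ∀ x ∈ C k, j (d x) = d' (j x))
    (hj : ∀ k, ∀ x ∈ C k, j x = 0 → x = 0) (hj' : ∀ k, ∀ x ∈ C k, j (d x) = 0 → d x = 0)
    (i : ℕ) : hx d' K (i + 1) = hx d C i := by
  have h1 : K (i + 1) ⊓ LinearMap.ker d' = (C i ⊓ LinearMap.ker d).map j := by
    rw [← hK i]
    ext y
    constructor
    · rintro ⟨⟨x, hx, rfl⟩, hk⟩
      refine ⟨x, ⟨hx, ?_⟩, rfl⟩
      have hk' : d' (j x) = 0 := hk
      exact LinearMap.mem_ker.2 (hj' i x hx (by rw [hd i x hx, hk']))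
    · rintro ⟨x, ⟨hx, hk⟩, rfl⟩
      refine ⟨⟨x, hx, rfl⟩, ?_⟩
      have hk' : d x = 0 := hk
      exact LinearMap.mem_ker.2 (by rw [← hd i x hx, hk', map_zero])
  have h2 : (K (i + 1 + 1)).map d' = ((C (i + 1)).map d).map j := by
    rw [← hK (i + 1)]
    ext y
    constructor
    · rintro ⟨_, ⟨x, hx, rfl⟩, rfl⟩
      exact ⟨d x, ⟨x, hx, rfl⟩, hd (i + 1) x hx⟩
    · rintro ⟨_, ⟨x, hx, rfl⟩, rfl⟩
      exact ⟨j x, ⟨x, hx, rfl⟩, (hd (i + 1) x hx).symm⟩
  have h3 := LinA_rank j (C i ⊓ LinearMap.ker d)
  have h4 := LinA_rank j ((C (i + 1)).map d)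
  have h5 : (C i ⊓ LinearMap.ker d) ⊓ LinearMap.ker j = ⊥ := by
    rw [eq_bot_iff]
    rintro x ⟨⟨hx, -⟩, hk⟩
    exact (Submodule.mem_bot F2).2 (hj i x hx hk)
  have h6 : (C (i + 1)).map d ⊓ LinearMap.ker j = ⊥ := by
    rw [eq_bot_iff]
    rintro _ ⟨⟨x, hx, rfl⟩, hk⟩
    exact (Submodule.mem_bot F2).2 (hj' (i + 1) x hx hk)
  rw [h5, finrank_bot, add_zero] at h3
  rw [h6, finrank_bot, add_zero] at h4
  rw [hx, hx]
  rw [h1, h2, h3, h4]

theorem merge_c {G : SimpleGraph V} {U : Finset V} {x u : V} (hx : x ∈ U) (hu : u ∈ U)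
    (hxu : x ≠ u) (hN : NoSq G U x u) (r : V → Module.End F2 Y) (i : ℕ) :
    hX (fun s => Cq G U s ∧ ¬ (x ∈ s ∧ u ∈ s)) (Function.update r x (r u)) (i + 1) ≤
      hX (Cq (merge G x u) (U.erase x)) r (i + 1) +
        hd (fun s => Sy (Cq G (lk2 G U x u)) r s ⊓ Inv r {u}) i := by
  have hM : ∀ s v, (Cq G U (insert v s) ∧ ¬ (x ∈ insert v s ∧ u ∈ insert v s)) →
      (Cq G U s ∧ ¬ (x ∈ s ∧ u ∈ s)) := by
    rintro s v ⟨h1, h2⟩
    exact ⟨mono_Cq G U s v h1, fun h => h2 ⟨mem_insert_of_mem h.1, mem_insert_of_mem h.2⟩⟩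
  have hC : IsCx dd (Ch (Sy (fun s => Cq G U s ∧ ¬ (x ∈ s ∧ u ∈ s))
      (Function.update r x (r u)))) := isCx_Ch (mono_Sy hM _)
  have key := hx_mid (d' := dd) hC (psh x u) (fun _ z _ => psh_dd hxu z) (i + 1)
  have e1 : (fun j => (Ch (Sy (fun s => Cq G U s ∧ ¬ (x ∈ s ∧ u ∈ s))
      (Function.update r x (r u))) j).map (psh x u)) =
      Ch (Sy (Cq (merge G x u) (U.erase x)) r) :=
    funext fun j => psh_map hx hu hxu hN r j _ (Or.inr fun _ => Iff.rfl)
  have e2 : GC.hx dd (fun j => Ch (Sy (fun s => Cq G U s ∧ ¬ (x ∈ s ∧ u ∈ s))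
      (Function.update r x (r u))) j ⊓ LinearMap.ker (psh x u)) (i + 1) =
      hd (fun s => Sy (Cq G (lk2 G U x u)) r s ⊓ Inv r {u}) i := by
    refine MergeC_hx (C := Ch (MergeC_A G U x u r)) (MergeC_up x u) ?_ ?_ ?_ ?_ i
    · exact fun k => MergeC_K hx hu hxu r k
    · exact fun k w hw => MergeC_dd hxu (MergeC_S_Ch hw)
    · exact fun k w hw h => MergeC_inj hxu (MergeC_S_Ch hw) h
    · exact fun k w hw h => MergeC_inj hxu (MergeC_S_dd (MergeC_S_Ch hw)) h
  rw [e1, e2] at key
  unfold hX hd
  unfold hd at key
  linarith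

end Pool.Agent.H73.GC

end

section

/-!
# Singer without colours for Coxeter groups of FC type: the key lemma
-/

set_option autoImplicit false
set_option linter.unusedSectionVars false

open Finset

namespace Pool.Agent.H77.SX

open Pool.Agent.H77.SW

open Pool.Agent.H85.VK

variable {V : Type} [DecidableEq V] [Fintype V] {K : Type} [Field K] [CharP K 2]

private theorem Key_inv_not {P : Type} [Group P] (g : V → P)
    (s : Finset V) (t : V → P → K) {v : V} {f : Finset V × P → K}
    (hf : rX g s t v f = f) (A : Finset V) (p : P) (h : ¬ (v ∈ s ∧ v ∈ A)) :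
    f (A, p * g v) = f (A, p) := by
  have h1 := congrFun hf (A, p)
  simp only [rX, LinearMap.coe_mk, AddHom.coe_mk] at h1
  rw [if_neg h, add_zero] at h1
  exact h1

private theorem Key_inv_mem {P : Type} [Group P] (g : V → P)
    (s : Finset V) (t : V → P → K) {v : V} {f : Finset V × P → K}
    (hf : rX g s t v f = f) (A : Finset V) (p : P) (hs : v ∈ s) (hA : v ∈ A) :
    f (A, p * g v) = f (A, p) + t v p * f (A.erase v, p) := by
  have h1 := congrFun hf (A, p)
  have h2 := Key_inv_not g s t hf (A.erase v) p (by simp)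
  simp only [rX, LinearMap.coe_mk, AddHom.coe_mk] at h1
  rw [if_pos ⟨hs, hA⟩, h2] at h1
  rw [← h1, add_assoc, CharTwo.add_self_eq_zero, add_zero]

/-- the pairing -/
private def Key_F {P : Type} [Fintype P] (s : Finset V) (S : Finset (Finset V))
    (f f' : Finset V × P → K) : K := ∑ A ∈ S, ∑ p, f (A, p) * f' (s \ A, p)

private theorem Key_zero {P : Type} [Group P] [Fintype P] (g : V → P)
    (hsq : ∀ v, g v * g v = 1) (e : P → ZMod 2) (he : ∀ p v, e (p * g v) = e p + 1)
    (s : Finset V) (t : V → P → K) {v : V} {f f' : Finset V × P → K}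
    (hf : rX g s t v f = f) (hf' : rX g s t v f' = f') (S : Finset (Finset V))
    (hS : v ∈ s → ∀ A, v ∉ A → (A ∈ S ↔ insert v A ∈ S)) : Key_F s S f f' = 0 := by
  unfold Key_F
  rw [sum_comm]
  refine sum_involution (fun p _ => p * g v) ?_ ?_ ?_ ?_
  · intro p _
    rw [← sum_add_distrib]
    by_cases hv : v ∈ s
    · have hS' := hS hv
      have key : ∀ A, v ∉ A → (f (A, p) * f' (s \ A, p) + f (A, p * g v) * f' (s \ A, p * g v)) +
          (f (insert v A, p) * f' (s \ insert v A, p) +
            f (insert v A, p * g v) * f' (s \ insert v A, p * g v)) = 0 := by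
        intro A hA
        have e1 : (s \ A).erase v = s \ insert v A := by
          ext w
          simp only [mem_erase, mem_sdiff, mem_insert]
          tauto
        rw [Key_inv_not g s t hf A p (fun h => hA h.2),
          Key_inv_mem g s t hf' (s \ A) p hv (mem_sdiff.2 ⟨hv, hA⟩),
          Key_inv_mem g s t hf (insert v A) p hv (mem_insert_self _ _),
          Key_inv_not g s t hf' (s \ insert v A) p (by simp), erase_insert hA, e1]
        have h2 : (2 : K) = 0 := CharTwo.two_eq_zero
        linear_combination (f (A, p) * f' (s \ A, p) + f (insert v A, p) * f' (s \ insert v A, p) +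
          f (A, p) * t v p * f' (s \ insert v A, p)) * h2
      refine sum_involution (fun A _ => if v ∈ A then A.erase v else insert v A) ?_ ?_ ?_ ?_
      · intro A _
        by_cases hA : v ∈ A
        · have h := key (A.erase v) (notMem_erase v A)
          rw [insert_erase hA] at h
          rw [if_pos hA, add_comm]
          exact h
        · rw [if_neg hA]
          exact key A hA
      · intro A _ _ e
        by_cases hA : v ∈ A
        · rw [if_pos hA] at e
          exact notMem_erase v A (e.symm ▸ hA)
        · rw [if_neg hA] at e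
          exact hA (e ▸ mem_insert_self v A)
      · intro A hAS
        by_cases hA : v ∈ A
        · rw [if_pos hA, hS' _ (notMem_erase v A), insert_erase hA]
          exact hAS
        · rw [if_neg hA, ← hS' _ hA]
          exact hAS
      · intro A _
        by_cases hA : v ∈ A
        · simp only [if_pos hA, notMem_erase, if_false]
          exact insert_erase hA
        · simp only [if_neg hA, mem_insert_self, if_true]
          exact erase_insert hA
    · refine sum_eq_zero fun A _ => ?_
      rw [Key_inv_not g s t hf A p (fun h => hv h.1),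
        Key_inv_not g s t hf' (s \ A) p (fun h => hv h.1), CharTwo.add_self_eq_zero]
  · intro p _ _ e1
    have h := he p v
    rw [e1] at h
    simp at h
  · intro p _
    exact mem_univ _
  · intro p _
    simp only [mul_assoc, hsq, mul_one]

private theorem Key_swap {P : Type} [Fintype P] (s : Finset V) (pr : Finset V → Prop)
    [DecidablePred pr] (f f' : Finset V × P → K) :
    Key_F s (s.powerset.filter pr) f f' =
      Key_F s (s.powerset.filter fun A => pr (s \ A)) f' f := by
  unfold Key_F
  refine sum_nbij' (fun A => s \ A) (fun A => s \ A) ?_ ?_ ?_ ?_ ?_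
  · intro A hA
    rw [mem_filter, mem_powerset] at hA ⊢
    refine ⟨sdiff_subset, ?_⟩
    rw [Finset.sdiff_sdiff_eq_self hA.1]
    exact hA.2
  · intro A hA
    rw [mem_filter, mem_powerset] at hA ⊢
    exact ⟨sdiff_subset, hA.2⟩
  · intro A hA
    rw [mem_filter, mem_powerset] at hA
    exact Finset.sdiff_sdiff_eq_self hA.1
  · intro A hA
    rw [mem_filter, mem_powerset] at hA
    exact Finset.sdiff_sdiff_eq_self hA.1
  · intro A hA
    rw [mem_filter, mem_powerset] at hA
    refine sum_congr rfl fun p _ => ?_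
    rw [Finset.sdiff_sdiff_eq_self hA.1, mul_comm]

private theorem Key_union {P : Type} [Fintype P] (s : Finset V) (S T : Finset (Finset V))
    (h : Disjoint S T) (f f' : Finset V × P → K) :
    Key_F s (S ∪ T) f f' = Key_F s S f f' + Key_F s T f f' := by
  unfold Key_F
  exact sum_union h

private theorem Key_lin1 {P : Type} [Fintype P] (s : Finset V) (S : Finset (Finset V))
    (B : Finset V) (z : V → Finset V × P → K) (f' : Finset V × P → K)
    (h : ∑ v ∈ B, z v = 0) : ∑ v ∈ B, Key_F s S (z v) f' = 0 := by
  unfold Key_F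
  rw [sum_comm]
  refine sum_eq_zero fun A _ => ?_
  rw [sum_comm]
  refine sum_eq_zero fun p _ => ?_
  rw [← sum_mul]
  have e := congrFun h (A, p)
  rw [Finset.sum_apply] at e
  rw [e, Pi.zero_apply, zero_mul]

private theorem Key_lin2 {P : Type} [Fintype P] (s : Finset V) (S : Finset (Finset V))
    (B : Finset V) (z : V → Finset V × P → K) (f : Finset V × P → K)
    (h : ∑ v ∈ B, z v = 0) : ∑ v ∈ B, Key_F s S f (z v) = 0 := by
  unfold Key_F
  rw [sum_comm]
  refine sum_eq_zero fun A _ => ?_
  rw [sum_comm]
  refine sum_eq_zero fun p _ => ?_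
  rw [← mul_sum]
  have e := congrFun h (s \ A, p)
  rw [Finset.sum_apply] at e
  rw [e, Pi.zero_apply, mul_zero]

/-- the numbering -/
private theorem Key_num (s : Finset V) (k : ℕ) (hcard : s.card = k + 1) :
    ∃ ν : V → ℕ, Function.Injective ν ∧ ∀ v, ν v < k + 1 ↔ v ∈ s := by
  classical
  refine ⟨fun v => if h : v ∈ s then (s.equivFin ⟨v, h⟩ : ℕ) else k + 1 + Fintype.equivFin V v,
    ?_, ?_⟩
  · intro v w hvw
    have hb : ∀ (v : V) (h : v ∈ s), (s.equivFin ⟨v, h⟩ : ℕ) < k + 1 := by
      intro v h
      have h1 := (s.equivFin ⟨v, h⟩).2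
      omega
    by_cases hv : v ∈ s
    · by_cases hw : w ∈ s
      · simp only [dif_pos hv, dif_pos hw] at hvw
        have h1 := s.equivFin.injective (Fin.ext hvw)
        exact congrArg Subtype.val h1
      · simp only [dif_pos hv, dif_neg hw] at hvw
        have h1 := hb v hv
        omega
    · by_cases hw : w ∈ s
      · simp only [dif_neg hv, dif_pos hw] at hvw
        have h1 := hb w hw
        omega
      · simp only [dif_neg hv, dif_neg hw] at hvw
        exact (Fintype.equivFin V).injective (Fin.ext (by omega))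
  · intro v
    by_cases hv : v ∈ s
    · have h1 := (s.equivFin ⟨v, hv⟩).2
      show (if h : v ∈ s then (s.equivFin ⟨v, h⟩ : ℕ) else k + 1 + Fintype.equivFin V v) < k + 1 ↔
        v ∈ s
      rw [dif_pos hv]
      exact ⟨fun _ => hv, fun _ => by omega⟩
    · show (if h : v ∈ s then (s.equivFin ⟨v, h⟩ : ℕ) else k + 1 + Fintype.equivFin V v) < k + 1 ↔
        v ∈ s
      rw [dif_neg hv]
      exact ⟨fun h => by omega, fun h => absurd h hv⟩

/-- the moments of an invariant function -/
private theorem Key_moment {G : SimpleGraph V} {P : Type} [Group P] [Fintype P] (g : V → P)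
    (hsq : ∀ v, g v * g v = 1) (e : P → ZMod 2) (he : ∀ p v, e (p * g v) = e p + 1)
    (s : Finset V) (hs : G.IsClique (s : Set V)) (h : V → P → K)
    (hh : ∀ v u, G.Adj v u → ∀ p, h v (p * g u) = h v p)
    (f : Finset V × P → K) (hf : ∀ v ∈ s, rX g s (fun v p => h v p + h v (p * g v)) v f = f)
    (T : Finset V) (hT : T ⊆ s) :
    ∑ p, (∏ w ∈ T, h w p) * f (s \ T, p) * f (∅, p) = ∑ p, f (s, p) * f (∅, p) := by
  classical
  induction T using Finset.induction_on with
  | empty => simp
  | insert v T hv ih =>
    have hvs : v ∈ s := hT (mem_insert_self _ _)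
    have hTs : T ⊆ s := fun w hw => hT (mem_insert_of_mem hw)
    rw [← ih hTs, ← CharTwo.add_eq_zero, ← sum_add_distrib]
    have e1 : (s \ T).erase v = s \ insert v T := by
      ext w
      simp only [mem_erase, mem_sdiff, mem_insert]
      tauto
    have h2 : (2 : K) = 0 := CharTwo.two_eq_zero
    refine sum_involution (fun p _ => p * g v) ?_ ?_ ?_ ?_
    · intro p _
      have e3 : ∏ w ∈ T, h w (p * g v) = ∏ w ∈ T, h w p := by
        refine prod_congr rfl fun w hw => hh w v ?_ p
        exact hs (hTs hw) hvs (fun h0 => hv (h0 ▸ hw))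
      have e4 := Key_inv_mem g s _ (hf v hvs) (s \ T) p hvs (mem_sdiff.2 ⟨hvs, hv⟩)
      have e5 := Key_inv_not g s _ (hf v hvs) ∅ p (fun h0 => notMem_empty v h0.2)
      have e7 := Key_inv_not g s _ (hf v hvs) (s \ insert v T) p (by simp)
      rw [e1] at e4
      rw [prod_insert hv, prod_insert hv, e3, e5, e4, e7]
      linear_combination ((∏ w ∈ T, h w p) * f (s \ T, p) * f (∅, p) +
        (∏ w ∈ T, h w p) * (h v p + h v (p * g v)) * f (s \ insert v T, p) * f (∅, p)) * h2
    · intro p _ _ e1
      have h := he p v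
      rw [e1] at h
      simp at h
    · intro p _
      exact mem_univ _
    · intro p _
      simp only [mul_assoc, hsq, mul_one]

/-- **The key lemma.** Adapt `Pool.Agent.H77.SW.Key`: the parts before the last step are unchanged
(with the sign `e p` instead of the bits: `1_{e = 0} f` instead of `1_{b v = 0} f`; the function
`t v p = h v p + h v (p * g v)` satisfies `t v (p * g v) = t v p`). The last step (note 3789, KEY):
let `f = z s`, so `rX g s t v f = f` for `v ∈ s`, and
`f̃ (A, p) = ∑ B ∈ A.powerset, (∏ c ∈ B, h c p) * f (A \ B, p)` for `A ⊆ s`. Then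
`f̃ (A, p * g v) = f̃ (A, p)` for `v ∈ s` (`h c (p * g v) = h c p` for `c ∈ s`, `c ≠ v`), and
`f (A, p) = ∑ B ∈ A.powerset, (∏ c ∈ B, h c p) * f̃ (A \ B, p)`. In
`∑ p, f (s, p) * f (∅, p) = ∑ B ∈ s.powerset, ∑ p, (∏ c ∈ B, h c p) * f̃ (s \ B, p) * f (∅, p)` the terms
with `B ≠ s` vanish: for `u ∈ s \ B` the summand is invariant under `p ↦ p * g u` (an involution
without fixed points because of `e`). So `0 = ∑ p, (∏ c ∈ s, h c p) * f (∅, p) ^ 2`. -/
theorem key (G : SimpleGraph V) (k : ℕ) (hvk : VanKampenZero G k) {P : Type} [Group P]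
    [Fintype P] (g : V → P) (hsq : ∀ v, g v * g v = 1) (e : P → ZMod 2)
    (he : ∀ p v, e (p * g v) = e p + 1) (s : Finset V) (hs : G.IsClique (s : Set V))
    (hcard : s.card = k + 1) (h : V → P → K) (hh : ∀ v u, G.Adj v u → ∀ p, h v (p * g u) = h v p)
    (hgen : ∀ c : P → K, ∑ p, (∏ v ∈ s, h v p) * c p ^ 2 = 0 → c = 0) :
    ∀ z ∈ Zs K G (k + 1) (rX g s fun v p => h v p + h v (p * g v)), ∀ p, z s (∅, p) = 0 := by
  classical
  intro z hz
  obtain ⟨hz1, hz2, hz3⟩ := hz
  obtain ⟨ν, hν, hνs⟩ := Key_num s k hcard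
  have hQ : Key_F s (s.powerset.filter fun A => ∀ v, ν v < k + 1 → v ∈ A) (z s) (z s) = 0 := by
    refine comb G k hvk hν s hνs hcard
      (fun j σ τ => Key_F s (s.powerset.filter fun A => ∀ v, ν v < j → v ∈ A) (z σ) (z τ))
      ?_ ?_ ?_ ?_ ?_ ?_
    · intro j σ τ h
      constructor
      · refine hz1 σ fun h0 => h ?_
        simp only [Key_F, h0, Pi.zero_apply, zero_mul, sum_const_zero]
      · refine hz1 τ fun h0 => h ?_
        simp only [Key_F, h0, Pi.zero_apply, mul_zero, sum_const_zero]
    · intro j κ τ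
      exact Key_lin1 s _ _ (fun v => z (insert v κ)) _ (hz3 κ)
    · intro j σ κ
      exact Key_lin2 s _ _ (fun v => z (insert v κ)) _ (hz3 κ)
    · intro j σ τ h v hvσ hvτ
      by_contra hj
      refine h (Key_zero g hsq e he s _ (hz2 σ v hvσ) (hz2 τ v hvτ) _ ?_)
      intro hvs A hA
      simp only [mem_filter, mem_powerset, insert_subset_iff, hvs, true_and, mem_insert]
      refine and_congr_right fun _ => forall_congr' fun w => ?_
      refine imp_congr_right fun hw => ?_
      have hne : w ≠ v := fun e => hj (e ▸ hw)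
      simp only [hne, false_or]
    · intro j hj σ τ hστ
      -- the vertex with the number `j`
      obtain ⟨u, hus, huj⟩ : ∃ u ∈ s, ν u = j := by
        have himg : s.image ν = range (k + 1) := by
          refine eq_of_subset_of_card_le ?_ ?_
          · intro x hx
            obtain ⟨v, hv, rfl⟩ := mem_image.1 hx
            exact mem_range.2 ((hνs v).2 hv)
          · rw [card_image_of_injective _ hν, hcard, card_range]
        have hmem : j ∈ s.image ν := by
          rw [himg]
          exact mem_range.2 (by omega)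
        obtain ⟨u, hu, e⟩ := mem_image.1 hmem
        exact ⟨u, hu, e⟩
      set R : Finset V := univ.filter fun v => ν v < j with hR
      have hRs : ∀ v ∈ R, v ∈ s := by
        intro v hv
        rw [hR, mem_filter] at hv
        exact (hνs v).1 (by omega)
      have huR : u ∉ R := by
        rw [hR, mem_filter]
        intro h
        omega
      have hW : ∀ X : Finset V, X ⊆ R →
          Key_F s (s.powerset.filter fun A => A ∩ R = X ∧ u ∉ A) (z σ) (z τ) =
            Key_F s (s.powerset.filter fun A => A ∩ R = ∅ ∧ u ∉ A) (z σ) (z τ) := by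
        intro X
        induction X using Finset.induction_on with
        | empty => intro _; rfl
        | insert x X hx ih =>
          intro hX
          have hxR : x ∈ R := hX (mem_insert_self _ _)
          have hXR : X ⊆ R := fun w hw => hX (mem_insert_of_mem hw)
          rw [← ih hXR]
          have hdis : Disjoint (s.powerset.filter fun A => A ∩ R = insert x X ∧ u ∉ A)
              (s.powerset.filter fun A => A ∩ R = X ∧ u ∉ A) := by
            rw [Finset.disjoint_left]
            intro A h1 h2
            rw [mem_filter] at h1 h2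
            exact hx (by rw [← h2.2.1, h1.2.1]; exact mem_insert_self _ _)
          have h0 := Key_union s _ _ hdis (z σ) (z τ)
          have hxj : ν x < j := by
            rw [hR, mem_filter] at hxR
            exact hxR.2
          rw [Key_zero g hsq e he s _ (hz2 σ x (hστ x hxj).1) (hz2 τ x (hστ x hxj).2)] at h0
          · exact (CharTwo.add_eq_zero.1 h0.symm)
          · intro hxs A hA
            have hux : u ≠ x := fun e => huR (e ▸ hxR)
            have h1 : A ∩ R ≠ insert x X := by
              intro e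
              have : x ∈ A ∩ R := e ▸ mem_insert_self _ _
              exact hA (mem_inter.1 this).1
            have h2 : insert x A ∩ R = insert x (A ∩ R) := by
              rw [insert_inter_of_mem hxR]
            have h3 : insert x A ∩ R ≠ X := by
              intro e
              rw [h2] at e
              exact hx (e ▸ mem_insert_self _ _)
            have h4 : insert x A ∩ R = insert x X ↔ A ∩ R = X := by
              rw [h2]
              constructor
              · intro e
                have hxA : x ∉ A ∩ R := fun h => hA (mem_inter.1 h).1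
                rw [← erase_insert hxA, e, erase_insert hx]
              · intro e
                rw [e]
            simp only [mem_union, mem_filter, mem_powerset, insert_subset_iff, hxs, true_and, h1,
              h3, h4, false_and, and_false, false_or, or_false, mem_insert, hux]
      have hsplit : (s.powerset.filter fun A => ∀ v, ν v < j → v ∈ A) =
          (s.powerset.filter fun A => ∀ v, ν v < j + 1 → v ∈ A) ∪
            s.powerset.filter fun A => A ∩ R = R ∧ u ∉ A := by
        ext A
        simp only [mem_union, mem_filter, mem_powerset, ← and_or_left]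
        refine and_congr_right fun _ => ?_
        have hRA : A ∩ R = R ↔ ∀ v, ν v < j → v ∈ A := by
          rw [inter_eq_right, hR]
          constructor
          · intro h v hv
            exact h (mem_filter.2 ⟨mem_univ _, hv⟩)
          · intro h v hv
            exact h v (mem_filter.1 hv).2
        rw [hRA]
        constructor
        · intro h
          by_cases hu : u ∈ A
          · left
            intro v hv
            by_cases hvj : ν v < j
            · exact h v hvj
            · have e : v = u := hν (by omega)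
              rw [e]
              exact hu
          · exact Or.inr ⟨h, hu⟩
        · rintro (h | h)
          · exact fun v hv => h v (by omega)
          · exact h.1
      have hdis : Disjoint (s.powerset.filter fun A => ∀ v, ν v < j + 1 → v ∈ A)
          (s.powerset.filter fun A => A ∩ R = R ∧ u ∉ A) := by
        rw [Finset.disjoint_left]
        intro A h1 h2
        rw [mem_filter] at h1 h2
        exact h2.2.2 (h1.2 u (by omega))
      show Key_F s (s.powerset.filter fun A => ∀ v, ν v < j → v ∈ A) (z σ) (z τ) =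
        Key_F s (s.powerset.filter fun A => ∀ v, ν v < j + 1 → v ∈ A) (z σ) (z τ) +
          Key_F s (s.powerset.filter fun A => ∀ v, ν v < j + 1 → v ∈ A) (z τ) (z σ)
      rw [hsplit, Key_union s _ _ hdis, hW R (Subset.refl _),
        Key_swap s (fun A => ∀ v, ν v < j + 1 → v ∈ A) (z τ) (z σ)]
      congr 2
      refine filter_congr fun A hA => ?_
      rw [← disjoint_iff_inter_eq_empty, Finset.disjoint_left]
      constructor
      · rintro ⟨h1, h2⟩ v hv
        refine mem_sdiff.2 ⟨(hνs v).1 (by omega), ?_⟩
        by_cases hvj : ν v < j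
        · intro hvA
          exact h1 hvA (mem_filter.2 ⟨mem_univ _, hvj⟩)
        · have e : v = u := hν (by omega)
          rw [e]
          exact h2
      · intro h
        refine ⟨fun v hvA hvR => ?_, (mem_sdiff.1 (h u (by omega))).2⟩
        have hvj := (mem_filter.1 hvR).2
        exact (mem_sdiff.1 (h v (by omega))).2 hvA
    · intro σ τ
      show Key_F s (s.powerset.filter fun A => ∀ v, ν v < 0 → v ∈ A) (z σ) (z τ) =
        Key_F s (s.powerset.filter fun A => ∀ v, ν v < 0 → v ∈ A) (z τ) (z σ)
      rw [Key_swap s (fun A => ∀ v, ν v < 0 → v ∈ A) (z σ) (z τ)]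
      congr 1
      refine filter_congr fun A hA => ?_
      simp
  have hS : (s.powerset.filter fun A => ∀ v, ν v < k + 1 → v ∈ A) = {s} := by
    ext A
    simp only [mem_filter, mem_powerset, mem_singleton]
    constructor
    · rintro ⟨h1, h2⟩
      exact Subset.antisymm h1 fun v hv => h2 v ((hνs v).2 hv)
    · rintro rfl
      exact ⟨Subset.refl _, fun v hv => (hνs v).1 hv⟩
  rw [hS] at hQ
  unfold Key_F at hQ
  rw [sum_singleton, Finset.sdiff_self] at hQ
  have hM := Key_moment g hsq e he s hs h hh (z s) (hz2 s) s (Subset.refl _)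
  rw [hQ, Finset.sdiff_self] at hM
  have hc := hgen (fun p => z s (∅, p)) (by
    rw [← hM]
    refine sum_congr rfl fun p _ => ?_
    ring)
  exact fun p => congrFun hc p

end Pool.Agent.H77.SX

end
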