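import Pool.Agent.H71.TSG.M15

/-! The parts of this file: H37.TM.Lam, H37.TM.StarDefs, H37.TM.StarB0. -/

section

/-!
# Project TM: the map from the complex of pairs to the tuples
-/

set_option autoImplicit false
set_option linter.unusedSectionVars false

open Finset Pointwise

namespace Pool.Agent.H37.TM

variable {U V : Type} [DecidableEq U] [DecidableEq V]

/-- the vertices of `t` of the heights `0, …, r`, in this order -/
noncomputable def frontL (ht : U → ℕ) (t : Finset U) (r : ℕ) : List U :=
  (List.range (r + 1)).flatMap fun i => (t.filter fun u => ht u = i).toList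

/-- the value at the cell `(σ, τ)`: the sum over the top simplices `t ⊇ τ` such that `τ` is a final segment of
`t` of the initial segments of `t` up to the lowest vertex of `τ` -/
noncomputable def lamE (K : Set (Finset U)) (n : ℕ) (ht : U → ℕ) (e : Finset U × Finset U) :
    List U →₀ ZMod 2 :=
  open Classical in
  if e.1 = ∅ then Finsupp.single [] 1
  else if e.1.card = 1 ∧ ∀ u ∈ e.2, n + 1 - e.2.card ≤ ht u then
    ∑ t ∈ cofs K e.2 (n + 1), Finsupp.single (frontL ht t (n + 1 - e.2.card)) 1
  else 0

section LamA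

variable {K B : Set (Finset U)} {n : ℕ} {ht : U → ℕ}

/-- a top simplex has exactly one vertex of every height -/
theorem full_filter (hinj : ∀ s ∈ K, Set.InjOn ht (s : Set U)) (hle : ∀ s ∈ K, ∀ u ∈ s, ht u ≤ n)
    {t : Finset U} (htK : t ∈ K) (hc : t.card = n + 1) {j : ℕ} (hj : j ≤ n) :
    ∃ u, t.filter (fun u => ht u = j) = {u} := by
  have h1 : t.image ht = Finset.range (n + 1) := by
    refine Finset.eq_of_subset_of_card_le ?_ ?_
    · intro i hi
      rw [Finset.mem_image] at hi
      obtain ⟨u, hu, rfl⟩ := hi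
      rw [Finset.mem_range]
      have := hle t htK u hu
      omega
    · rw [Finset.card_range, Finset.card_image_of_injOn (hinj t htK), hc]
  have h2 : j ∈ t.image ht := by rw [h1, Finset.mem_range]; omega
  rw [Finset.mem_image] at h2
  obtain ⟨u, hu, hju⟩ := h2
  refine ⟨u, ?_⟩
  ext w
  rw [Finset.mem_filter, Finset.mem_singleton]
  constructor
  · rintro ⟨h3, h4⟩
    exact hinj t htK h3 hu (by rw [h4, hju])
  · rintro rfl
    exact ⟨hu, hju⟩

/-- the terms without the vertex of height `j` cancel in pairs -/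
theorem sum_cofs_cancel (hM : Psm K B n) (hinj : ∀ s ∈ K, Set.InjOn ht (s : Set U))
    (hle : ∀ s ∈ K, ∀ u ∈ s, ht u ≤ n) {τ : Finset U} (hτ : τ ∈ K) (hB : τ ∉ B) {j : ℕ}
    (hj : j ≤ n) (hjτ : ∀ u ∈ τ, ht u ≠ j) {N : Type} [AddCommGroup N] [Module (ZMod 2) N]
    (F : Finset U → N) :
    ∑ t ∈ cofs K τ (n + 1), F (t.filter fun u => ht u ≠ j) = 0 := by
  classical
  have hcard : ∀ t ∈ K, t.card = n + 1 → (t.filter fun u => ht u ≠ j).card = n := by
    intro t htK hc
    obtain ⟨u, hu⟩ := full_filter hinj hle htK hc hj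
    have h1 := Finset.card_filter_add_card_filter_not (s := t) (fun u => ht u = j)
    rw [hu, Finset.card_singleton, hc] at h1
    have h2 : (t.filter fun u => ht u ≠ j).card = (t.filter fun u => ¬ ht u = j).card := rfl
    rw [h2]
    omega
  rw [← Finset.sum_fiberwise_of_maps_to (s := cofs K τ (n + 1))
    (t := (cofs K τ (n + 1)).image fun t => t.filter fun u => ht u ≠ j)
    (g := fun t => t.filter fun u => ht u ≠ j) (fun t h => Finset.mem_image_of_mem _ h)]
  refine Finset.sum_eq_zero fun s' hs' => ?_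
  rw [Finset.mem_image] at hs'
  obtain ⟨t0, ht0, rfl⟩ := hs'
  rw [mem_cofsP hM hτ] at ht0
  obtain ⟨h0K, h0τ, h0c⟩ := ht0
  have hτs : τ ⊆ t0.filter fun u => ht u ≠ j := fun u hu =>
    Finset.mem_filter.2 ⟨h0τ hu, hjτ u hu⟩
  have hsne : (t0.filter fun u => ht u ≠ j).Nonempty := (hM.ne τ hτ).mono hτs
  have hsK : (t0.filter fun u => ht u ≠ j) ∈ K := hM.down t0 h0K _ (Finset.filter_subset _ _) hsne
  have hsB : (t0.filter fun u => ht u ≠ j) ∉ B := fun h => hB (hM.bd_down _ h τ hτs (hM.ne τ hτ))
  have hsc := hcard t0 h0K h0c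
  have hfib : (cofs K τ (n + 1)).filter
      (fun t => (t.filter fun u => ht u ≠ j) = t0.filter fun u => ht u ≠ j) =
      cofs K (t0.filter fun u => ht u ≠ j) (n + 1) := by
    ext t
    rw [Finset.mem_filter, mem_cofsP hM hτ, mem_cofsP hM hsK]
    constructor
    · rintro ⟨⟨h1, h2, h3⟩, h4⟩
      exact ⟨h1, by rw [← h4]; exact Finset.filter_subset _ _, h3⟩
    · rintro ⟨h1, h2, h3⟩
      refine ⟨⟨h1, hτs.trans h2, h3⟩, ?_⟩
      refine (Finset.eq_of_subset_of_card_le ?_ ?_).symm
      · intro u hu
        rw [Finset.mem_filter]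
        exact ⟨h2 hu, (Finset.mem_filter.1 hu).2⟩
      · rw [hcard t h1 h3, hsc]
  rw [hfib]
  have hconst : ∀ t ∈ cofs K (t0.filter fun u => ht u ≠ j) (n + 1),
      F (t.filter fun u => ht u ≠ j) = F (t0.filter fun u => ht u ≠ j) := by
    intro t ht'
    rw [← hfib, Finset.mem_filter] at ht'
    rw [ht'.2]
  rw [Finset.sum_congr rfl hconst, Finset.sum_const, ← Nat.cast_smul_eq_nsmul (ZMod 2),
    hM.even _ hsK hsB hsc, zero_smul]

/-- removing one entry of a list without repetitions -/
theorem bdl_flatMap {α : Type} (v : ℕ → α) : ∀ L : List ℕ, L.Nodup →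
    bdl (L.map v) = ∑ j ∈ L.toFinset, Finsupp.single ((L.filter (fun i => i ≠ j)).map v) 1
  | [], _ => by simp [bdl]
  | a :: L, h => by
    rw [List.nodup_cons] at h
    rw [List.map_cons, bdl, bdl_flatMap v L h.2, List.toFinset_cons, Finset.sum_insert (by
      rw [List.mem_toFinset]; exact h.1)]
    congr 1
    · have h1 : (a :: L).filter (fun i => decide (i ≠ a)) = L := by
        rw [List.filter_cons_of_neg (by simp)]
        rw [List.filter_eq_self]
        intro i hi
        simp only [ne_eq, decide_not, Bool.not_eq_eq_eq_not, Bool.not_true,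
          decide_eq_false_iff_not]
        rintro rfl
        exact h.1 hi
      rw [h1]
    · rw [Finsupp.mapDomain_finsetSum]
      refine Finset.sum_congr rfl fun j hj => ?_
      rw [Finsupp.mapDomain_single]
      have h2 : (a :: L).filter (fun i => decide (i ≠ j)) = a :: L.filter (fun i => i ≠ j) := by
        rw [List.filter_cons_of_pos]
        simp only [ne_eq, decide_not, Bool.not_eq_eq_eq_not, Bool.not_true,
          decide_eq_false_iff_not]
        rintro rfl
        exact h.1 (List.mem_toFinset.1 hj)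
      rw [h2, List.map_cons]

theorem flatMap_skip {α : Type} (v : ℕ → α) (j : ℕ) (L : List ℕ) :
    L.flatMap (fun i => if i = j then [] else [v i]) = (L.filter (fun i => i ≠ j)).map v := by
  induction L with
  | nil => rfl
  | cons a L ih =>
    rw [List.flatMap_cons, ih]
    by_cases h : a = j
    · rw [if_pos h, List.filter_cons_of_neg (by simpa using h)]; rfl
    · rw [if_neg h, List.filter_cons_of_pos (by simpa using h)]; rfl

/-- the initial segment of a simplex without its vertex of height `j`, and the boundary of the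
initial segment of a top simplex -/
theorem frontL_full (hinj : ∀ s ∈ K, Set.InjOn ht (s : Set U)) (hle : ∀ s ∈ K, ∀ u ∈ s, ht u ≤ n)
    {t : Finset U} (htK : t ∈ K) (hc : t.card = n + 1) {r : ℕ} (hr : r ≤ n) :
    bdl (frontL ht t r) =
      ∑ j ∈ Finset.range (r + 1), Finsupp.single (frontL ht (t.filter fun u => ht u ≠ j) r) 1 := by
  classical
  have h1 : ∀ j, ∃ u, j ≤ n → t.filter (fun u => ht u = j) = {u} := by
    intro j
    by_cases hj : j ≤ n
    · obtain ⟨u, hu⟩ := full_filter hinj hle htK hc hj
      exact ⟨u, fun _ => hu⟩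
    · obtain ⟨u, _⟩ := full_filter hinj hle htK hc hr
      exact ⟨u, fun h => absurd h hj⟩
  choose v hv using h1
  have h2 : frontL ht t r = (List.range (r + 1)).map v := by
    unfold frontL
    have : ∀ i ∈ List.range (r + 1), (t.filter fun u => ht u = i).toList = [v i] := by
      intro i hi
      rw [List.mem_range] at hi
      rw [hv i (by omega), Finset.toList_singleton]
    rw [List.flatMap_congr this]
    induction List.range (r + 1) with
    | nil => rfl
    | cons a L ih => rw [List.flatMap_cons, ih, List.map_cons]; rfl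
  have h3 : ∀ j, frontL ht (t.filter fun u => ht u ≠ j) r =
      ((List.range (r + 1)).filter (fun i => i ≠ j)).map v := by
    intro j
    unfold frontL
    rw [← flatMap_skip]
    refine List.flatMap_congr fun i hi => ?_
    rw [List.mem_range] at hi
    by_cases hij : i = j
    · rw [if_pos hij]
      have : ((t.filter fun u => ht u ≠ j).filter fun u => ht u = i) = ∅ := by
        rw [Finset.filter_filter, Finset.filter_eq_empty_iff]
        intro u _
        rw [hij]
        rintro ⟨h4, h5⟩
        exact h4 h5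
      rw [this, Finset.toList_empty]
    · rw [if_neg hij]
      have : ((t.filter fun u => ht u ≠ j).filter fun u => ht u = i) = {v i} := by
        rw [← hv i (by omega), Finset.filter_filter]
        refine Finset.filter_congr fun u _ => ?_
        constructor
        · exact fun h => h.2
        · intro h
          exact ⟨by rw [h]; exact hij, h⟩
      rw [this, Finset.toList_singleton]
  rw [h2, bdl_flatMap v _ List.nodup_range, List.toFinset_range]
  refine Finset.sum_congr rfl fun j _ => ?_
  rw [h3 j]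

/-- the initial segment does not see the higher vertices -/
theorem frontL_filter_high {t : Finset U} {r j : ℕ} (h : r < j) :
    frontL ht (t.filter fun u => ht u ≠ j) r = frontL ht t r := by
  unfold frontL
  refine List.flatMap_congr fun i hi => ?_
  rw [List.mem_range] at hi
  congr 1
  rw [Finset.filter_filter]
  refine Finset.filter_congr fun u _ => ?_
  constructor
  · exact fun h => h.2
  · intro h'
    exact ⟨by rw [h']; omega, h'⟩

/-- the initial segment without its last entry -/
theorem frontL_filter_last {t : Finset U} {r : ℕ} :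
    frontL ht (t.filter fun u => ht u ≠ r + 1) (r + 1) = frontL ht t r := by
  have h1 : frontL ht (t.filter fun u => ht u ≠ r + 1) (r + 1) =
      frontL ht (t.filter fun u => ht u ≠ r + 1) r := by
    unfold frontL
    rw [List.range_succ (n := r + 1), List.flatMap_append, List.flatMap_cons, List.flatMap_nil]
    have : ((t.filter fun u => ht u ≠ r + 1).filter fun u => ht u = r + 1) = ∅ := by
      rw [Finset.filter_filter, Finset.filter_eq_empty_iff]
      rintro u _ ⟨h4, h5⟩
      exact h4 h5
    rw [this, Finset.toList_empty, List.nil_append, List.append_nil]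
  rw [h1, frontL_filter_high (by omega)]

open Classical in
/-- the value at `({w}, τ)` -/
noncomputable def lamT (K : Set (Finset U)) (n : ℕ) (ht : U → ℕ) (τ : Finset U) :
    List U →₀ ZMod 2 :=
  if ∀ u ∈ τ, n + 1 - τ.card ≤ ht u then
    ∑ t ∈ cofs K τ (n + 1), Finsupp.single (frontL ht t (n + 1 - τ.card)) 1
  else 0

theorem lamE_one {σ τ : Finset U} (h : σ.card = 1) : lamE K n ht (σ, τ) = lamT K n ht τ := by
  classical
  unfold lamE lamT
  have h1 : σ ≠ ∅ := by
    rintro rfl
    simp at h
  simp only [h1, if_false, h, true_and]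

theorem lamE_two {σ τ : Finset U} (h : 1 < σ.card) : lamE K n ht (σ, τ) = 0 := by
  classical
  unfold lamE
  have h1 : σ ≠ ∅ := by
    rintro rfl
    simp at h
  have h2 : ¬ σ.card = 1 := by omega
  simp only [h1, if_false, h2, false_and]

/-- the sum over the cofaces with one more vertex -/
theorem sum_lamT (hM : Psm K B n) (hinj : ∀ s ∈ K, Set.InjOn ht (s : Set U))
    (hle : ∀ s ∈ K, ∀ u ∈ s, ht u ≤ n) {τ : Finset U} (hτ : τ ∈ K) {r : ℕ}
    (hr : τ.card + (r + 1) = n + 1) :
    open Classical in
    ∑ t' ∈ cofs K τ (τ.card + 1), lamT K n ht t' =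
      if ∀ u ∈ τ, r ≤ ht u then
        ∑ t ∈ cofs K τ (n + 1), Finsupp.single (frontL ht t r) 1 else 0 := by
  classical
  have hcard' : ∀ t' ∈ cofs K τ (τ.card + 1), n + 1 - t'.card = r := by
    intro t' ht'
    rw [mem_cofsP hM hτ] at ht'
    omega
  by_cases hlow : ∀ u ∈ τ, r ≤ ht u
  · rw [if_pos hlow]
    have hup : ∀ t ∈ cofs K τ (n + 1), (t.filter fun u => r ≤ ht u) ∈ cofs K τ (τ.card + 1) := by
      intro t ht'
      rw [mem_cofsP hM hτ] at ht' ⊢
      obtain ⟨h1, h2, h3⟩ := ht'
      have h4 : τ ⊆ t.filter fun u => r ≤ ht u := fun u hu =>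
        Finset.mem_filter.2 ⟨h2 hu, hlow u hu⟩
      refine ⟨hM.down t h1 _ (Finset.filter_subset _ _) ((hM.ne τ hτ).mono h4), h4, ?_⟩
      have h5 : (t.filter fun u => r ≤ ht u).image ht = Finset.Icc r n := by
        ext i
        rw [Finset.mem_image, Finset.mem_Icc]
        constructor
        · rintro ⟨u, hu, rfl⟩
          rw [Finset.mem_filter] at hu
          exact ⟨hu.2, hle t h1 u hu.1⟩
        · rintro ⟨h6, h7⟩
          obtain ⟨u, hu⟩ := full_filter hinj hle h1 h3 h7
          have h8 : u ∈ t.filter (fun u => ht u = i) := by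
            rw [hu]; exact Finset.mem_singleton_self u
          rw [Finset.mem_filter] at h8
          exact ⟨u, Finset.mem_filter.2 ⟨h8.1, by rw [h8.2]; exact h6⟩, h8.2⟩
      have h6 : (t.filter fun u => r ≤ ht u).card = n + 1 - r := by
        rw [← Finset.card_image_of_injOn (f := ht) (fun a ha b hb hab =>
          hinj t h1 (Finset.mem_filter.1 ha).1 (Finset.mem_filter.1 hb).1 hab), h5,
          Nat.card_Icc]
      rw [h6]; omega
    rw [← Finset.sum_fiberwise_of_maps_to (s := cofs K τ (n + 1))
      (t := cofs K τ (τ.card + 1)) (g := fun t => t.filter fun u => r ≤ ht u) hup]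
    refine Finset.sum_congr rfl fun t' ht' => ?_
    have hc' := hcard' t' ht'
    rw [mem_cofsP hM hτ] at ht'
    obtain ⟨h1, h2, h3⟩ := ht'
    unfold lamT
    rw [hc']
    by_cases hg : ∀ u ∈ t', r ≤ ht u
    · rw [if_pos hg]
      refine Finset.sum_congr ?_ fun _ _ => rfl
      ext t
      rw [mem_cofsP hM h1, Finset.mem_filter, mem_cofsP hM hτ]
      constructor
      · rintro ⟨h4, h5, h6⟩
        have h7 : t ∈ cofs K τ (n + 1) := (mem_cofsP hM hτ).2 ⟨h4, h2.trans h5, h6⟩
        refine ⟨⟨h4, h2.trans h5, h6⟩, (Finset.eq_of_subset_of_card_le ?_ ?_).symm⟩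
        · intro u hu
          exact Finset.mem_filter.2 ⟨h5 hu, hg u hu⟩
        · have h8 := (mem_cofsP hM hτ).1 (hup t h7)
          rw [h8.2.2, h3]
      · rintro ⟨⟨h4, h5, h6⟩, h7⟩
        exact ⟨h4, by rw [← h7]; exact Finset.filter_subset _ _, h6⟩
    · rw [if_neg hg]
      symm
      have : (cofs K τ (n + 1)).filter (fun t => (t.filter fun u => r ≤ ht u) = t') = ∅ := by
        rw [Finset.filter_eq_empty_iff]
        intro t _ h4
        refine hg fun u hu => ?_
        rw [← h4, Finset.mem_filter] at hu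
        exact hu.2
      rw [this, Finset.sum_empty]
  · rw [if_neg hlow]
    refine Finset.sum_eq_zero fun t' ht' => ?_
    have hc' := hcard' t' ht'
    rw [mem_cofsP hM hτ] at ht'
    unfold lamT
    rw [hc', if_neg]
    intro h
    exact hlow fun u hu => h u (ht'.2.1 hu)

/-- the chain map property at `({w}, τ)` -/
theorem BL_lamT (hM : Psm K B n) (hinj : ∀ s ∈ K, Set.InjOn ht (s : Set U))
    (hle : ∀ s ∈ K, ∀ u ∈ s, ht u ≤ n) {τ : Finset U} (hτ : τ ∈ K) (hB : τ ∉ B) :
    BL (lamT K n ht τ) = (if τ.card = n + 1 then Finsupp.single [] 1 else 0) +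
      ∑ t' ∈ cofs K τ (τ.card + 1), lamT K n ht t' := by
  classical
  have hcle := hM.card_le τ hτ
  have hcpos := Finset.card_pos.2 (hM.ne τ hτ)
  by_cases hgood : ∀ u ∈ τ, n + 1 - τ.card ≤ ht u
  · -- the boundary is the sum of the initial segments without the last entry
    have h1 : BL (lamT K n ht τ) = ∑ t ∈ cofs K τ (n + 1),
        Finsupp.single (frontL ht (t.filter fun u => ht u ≠ n + 1 - τ.card)
          (n + 1 - τ.card)) 1 := by
      have h2 : BL (lamT K n ht τ) = ∑ t ∈ cofs K τ (n + 1),
          bdl (frontL ht t (n + 1 - τ.card)) := by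
        unfold lamT
        rw [if_pos hgood, map_sum]
        refine Finset.sum_congr rfl fun t _ => ?_
        exact lin_single _ _
      rw [h2]
      have h3 : ∀ t ∈ cofs K τ (n + 1), bdl (frontL ht t (n + 1 - τ.card)) =
          ∑ j ∈ Finset.range (n + 1 - τ.card + 1),
            Finsupp.single (frontL ht (t.filter fun u => ht u ≠ j) (n + 1 - τ.card)) 1 := by
        intro t ht'
        rw [mem_cofsP hM hτ] at ht'
        exact frontL_full hinj hle ht'.1 ht'.2.2 (by omega)
      rw [Finset.sum_congr rfl h3, Finset.sum_comm, Finset.sum_range_succ,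
        Finset.sum_eq_zero (fun j hj => ?_), zero_add]
      rw [Finset.mem_range] at hj
      refine sum_cofs_cancel hM hinj hle hτ hB (j := j) (by omega) (fun u hu => ?_)
        (fun s => Finsupp.single (frontL ht s (n + 1 - τ.card)) (1 : ZMod 2))
      have := hgood u hu
      omega
    rw [h1]
    by_cases hc : τ.card = n + 1
    · rw [if_pos hc]
      have h2 : cofs K τ (τ.card + 1) = ∅ := by
        ext t'
        rw [mem_cofsP hM hτ]
        simp only [Finset.notMem_empty, iff_false]
        rintro ⟨h3, _, h4⟩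
        have := hM.card_le t' h3
        omega
      have h3 : cofs K τ (n + 1) = {τ} := by
        ext t
        rw [mem_cofsP hM hτ, Finset.mem_singleton]
        constructor
        · rintro ⟨_, h4, h5⟩
          exact (Finset.eq_of_subset_of_card_le h4 (by omega)).symm
        · rintro rfl
          exact ⟨hτ, subset_rfl, hc⟩
      rw [h2, Finset.sum_empty, add_zero, h3, Finset.sum_singleton]
      have h4 : n + 1 - τ.card = 0 := by omega
      rw [h4]
      congr 1
      unfold frontL
      have : ((τ.filter fun u => ht u ≠ 0).filter fun u => ht u = 0) = ∅ := by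
        rw [Finset.filter_filter, Finset.filter_eq_empty_iff]
        rintro u _ ⟨h4, h5⟩
        exact h4 h5
      simp [this]
    · rw [if_neg hc, zero_add]
      obtain ⟨r, hr⟩ : ∃ r, τ.card + (r + 1) = n + 1 := ⟨n - τ.card, by omega⟩
      have hr' : n + 1 - τ.card = r + 1 := by omega
      rw [sum_lamT hM hinj hle hτ hr, hr', if_pos (fun u hu => by
        have := hgood u hu
        omega)]
      refine Finset.sum_congr rfl fun t _ => ?_
      rw [frontL_filter_last]
  · -- both sides vanish
    have h1 : lamT K n ht τ = 0 := by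
      unfold lamT
      rw [if_neg hgood]
    rw [h1, map_zero]
    have hc : ¬ τ.card = n + 1 := by
      intro hc
      refine hgood fun u _ => ?_
      omega
    rw [if_neg hc, zero_add]
    obtain ⟨r, hr⟩ : ∃ r, τ.card + (r + 1) = n + 1 := ⟨n - τ.card, by omega⟩
    have hr' : n + 1 - τ.card = r + 1 := by omega
    rw [sum_lamT hM hinj hle hτ hr]
    by_cases hlow : ∀ u ∈ τ, r ≤ ht u
    · rw [if_pos hlow]
      -- the missing height
      push Not at hgood
      obtain ⟨u0, hu0, hlt⟩ := hgood
      have hu0r : ht u0 = r := by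
        have := hlow u0 hu0
        omega
      obtain ⟨j, hj, hjτ⟩ : ∃ j ∈ Finset.Icc r n, j ∉ τ.image ht := by
        by_contra hall
        push Not at hall
        have h2 := Finset.card_le_card (fun j hj => hall j hj : Finset.Icc r n ⊆ τ.image ht)
        rw [Finset.card_image_of_injOn (hinj τ hτ), Nat.card_Icc] at h2
        omega
      rw [Finset.mem_Icc] at hj
      have hrj : r < j := by
        rcases Nat.lt_or_ge r j with h | h
        · exact h
        · exfalso
          have : j = r := by omega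
          exact hjτ (Finset.mem_image.2 ⟨u0, hu0, by rw [hu0r, this]⟩)
      symm
      have h2 : ∀ t ∈ cofs K τ (n + 1), (Finsupp.single (frontL ht t r) 1 : List U →₀ ZMod 2) =
          Finsupp.single (frontL ht (t.filter fun u => ht u ≠ j) r) 1 := by
        intro t _
        rw [frontL_filter_high hrj]
      rw [Finset.sum_congr rfl h2]
      exact sum_cofs_cancel hM hinj hle hτ hB (j := j) hj.2
        (fun u hu h => hjτ (Finset.mem_image.2 ⟨u, hu, h⟩))
        (fun s => Finsupp.single (frontL ht s r) (1 : ZMod 2))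
    · rw [if_neg hlow]

end LamA

/-- It is a chain map. (`|σ| = 1`, `τ` with the heights `≥ r`, `|τ| = n + 1 - r`: the tuples without the last
entry are the terms of the cofaces of `τ`; the tuples without the entry of height `i < r` cancel in pairs, because
the simplex `t - v_i` with `n` vertices, which is not in `B`, has an even number of cofaces (`Psm.even`) and both
new vertices have the height `i`. `|σ| = 2`: the two terms cancel.) -/
theorem BL_lamE {K B : Set (Finset U)} {n : ℕ} {ht : U → ℕ} (hM : Psm K B n)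
    (hinj : ∀ s ∈ K, Set.InjOn ht (s : Set U)) (hle : ∀ s ∈ K, ∀ u ∈ s, ht u ≤ n) {i : ℕ}
    {e : Finset U × Finset U} (he : e ∈ TCell K B n i) :
    BL (lamE K n ht e) = lin (lamE K n ht) (bdE K n e) := by
  classical
  match i with
  | 0 =>
    have he' : e = (∅, ∅) := he
    subst he'
    have h1 : lamE K n ht (∅, ∅) = Finsupp.single [] 1 := by
      unfold lamE
      simp
    have h2 : bdE K n ((∅, ∅) : Finset U × Finset U) = 0 := by
      unfold bdE
      simp
    rw [h1, h2, map_zero]
    have h3 : BL (Finsupp.single ([] : List U) 1) = bdl [] := lin_single _ _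
    rw [h3]; rfl
  | m + 1 =>
    obtain ⟨σ, τ⟩ := e
    obtain ⟨hσ, hστ, hτK, hτB, hcard⟩ := he
    simp only at hσ hστ hτK hτB hcard
    have hpos := Finset.card_pos.2 hσ
    have hbd : bdE K n (σ, τ) =
        (if σ.card = 1 then (if τ.card = n + 1 then Finsupp.single (∅, ∅) 1 else 0)
          else ∑ v ∈ σ, Finsupp.single (σ.erase v, τ) 1) +
        ∑ t ∈ cofs K τ (τ.card + 1), Finsupp.single (σ, t) 1 := by
      unfold bdE
      rw [if_neg hσ.ne_empty]
    by_cases h1 : σ.card = 1
    · rw [lamE_one h1, hbd, if_pos h1, map_add, map_sum, BL_lamT hM hinj hle hτK hτB]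
      congr 1
      · split_ifs
        · rw [lin_single]
          unfold lamE
          simp
        · rw [map_zero]
      · refine Finset.sum_congr rfl fun t _ => ?_
        rw [lin_single, lamE_one h1]
    · rw [lamE_two (by omega), map_zero, hbd, if_neg h1, map_add, map_sum, map_sum]
      have h2 : ∑ t ∈ cofs K τ (τ.card + 1),
          lin (lamE K n ht) (Finsupp.single (σ, t) (1 : ZMod 2)) = 0 := by
        refine Finset.sum_eq_zero fun t _ => ?_
        rw [lin_single, lamE_two (by omega)]
      rw [h2, add_zero]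
      symm
      by_cases h3 : σ.card = 2
      · have h4 : ∀ v ∈ σ, lin (lamE K n ht) (Finsupp.single (σ.erase v, τ) (1 : ZMod 2)) =
            lamT K n ht τ := by
          intro v hv
          rw [lin_single, lamE_one (by rw [Finset.card_erase_of_mem hv]; omega)]
        rw [Finset.sum_congr rfl h4, Finset.sum_const, h3, ← Nat.cast_smul_eq_nsmul (ZMod 2)]
        have : ((2 : ℕ) : ZMod 2) = 0 := by decide
        rw [this, zero_smul]
      · refine Finset.sum_eq_zero fun v hv => ?_
        rw [lin_single, lamE_two (by rw [Finset.card_erase_of_mem hv]; omega)]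

theorem frontL_smul {Γ : Type} [Group Γ] [MulAction Γ U] {ht : U → ℕ}
    (hg : ∀ (g : Γ) (u : U), ht (g • u) = ht u) (g : Γ) {t : Finset U}
    (hinj : Set.InjOn ht (t : Set U)) (r : ℕ) :
    frontL ht (g • t) r = (frontL ht t r).map (g • ·) := by
  unfold frontL
  rw [List.map_flatMap]
  refine List.flatMap_congr fun i _ => ?_
  have h1 : (g • t).filter (fun u => ht u = i) = g • t.filter (fun u => ht u = i) := by
    ext u
    rw [mem_filter, ← inv_smul_mem_iff, ← inv_smul_mem_iff, mem_filter, hg]
  rw [h1]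
  have h2 : (t.filter fun u => ht u = i).card ≤ 1 := by
    refine card_le_one.2 fun a ha b hb => ?_
    rw [mem_filter] at ha hb
    exact hinj ha.1 hb.1 (ha.2.trans hb.2.symm)
  rcases Nat.le_one_iff_eq_zero_or_eq_one.1 h2 with h3 | h3
  · rw [card_eq_zero.1 h3]
    simp
  · obtain ⟨v, hv⟩ := card_eq_one.1 h3
    rw [hv, smul_finset_singleton]
    simp

theorem lamE_smul {Γ : Type} [Group Γ] [MulAction Γ U] {K B : Set (Finset U)} {n : ℕ}
    {ht : U → ℕ} (hM : Psm K B n) (hA : MAct Γ K B n ht) (g : Γ) {i : ℕ}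
    {e : Finset U × Finset U} (he : e ∈ TCell K B n i) :
    lamE K n ht (g • e) = (lamE K n ht e).mapDomain (List.map (g • ·)) := by
  classical
  obtain ⟨σ, τ⟩ := e
  rcases i with _ | m
  · have h1 : (σ, τ) = (∅, ∅) := he
    obtain ⟨rfl, rfl⟩ := Prod.mk.inj h1
    have h2 : g • ((∅ : Finset U), (∅ : Finset U)) = (∅, ∅) := by
      rw [Prod.smul_mk, smul_finset_empty]
    rw [h2]
    unfold lamE
    rw [if_pos rfl, Finsupp.mapDomain_single]
    rfl
  · obtain ⟨h1, h2, h3, h4, _⟩ := he
    dsimp only at h1 h2 h3 h4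
    rw [Prod.smul_mk]
    unfold lamE
    dsimp only
    rw [if_neg h1.ne_empty, if_neg (h1.smul_finset (a := g)).ne_empty, card_smul_finset,
      card_smul_finset]
    have e1 : (∀ u ∈ g • τ, n + 1 - τ.card ≤ ht u) ↔ ∀ u ∈ τ, n + 1 - τ.card ≤ ht u := by
      constructor
      · intro h u hu
        rw [← hA.ht_smul g u]
        exact h _ (smul_mem_smul_finset hu)
      · intro h u hu
        rw [← inv_smul_mem_iff] at hu
        rw [← hA.ht_smul g⁻¹ u]
        exact h _ hu
    by_cases hc : σ.card = 1 ∧ ∀ u ∈ τ, n + 1 - τ.card ≤ ht u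
    · rw [if_pos hc, if_pos ⟨hc.1, e1.2 hc.2⟩, Finsupp.mapDomain_finsetSum]
      have hgK : ∀ t ∈ K, g • t ∈ K := fun t ht' => hA.K_mem g t ht'
      refine (sum_bij (fun t _ => g • t) ?_ ?_ ?_ ?_).symm
      · intro t ht'
        rw [mem_cofsP hM h3] at ht'
        rw [mem_cofsP hM (hgK τ h3)]
        exact ⟨hgK t ht'.1, smul_finset_subset_smul_finset ht'.2.1, by
          rw [card_smul_finset]
          exact ht'.2.2⟩
      · intro t _ t' _ h
        exact smul_left_cancel g h
      · intro t ht'
        rw [mem_cofsP hM (hgK τ h3)] at ht'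
        refine ⟨g⁻¹ • t, ?_, smul_inv_smul g t⟩
        rw [mem_cofsP hM h3]
        refine ⟨hA.K_mem g⁻¹ t ht'.1, ?_, by
          rw [card_smul_finset]
          exact ht'.2.2⟩
        rw [← smul_finset_subset_iff]
        exact ht'.2.1
      · intro t ht'
        rw [mem_cofsP hM h3] at ht'
        rw [Finsupp.mapDomain_single, frontL_smul hA.ht_smul g (hA.ht_inj t ht'.1)]
    · rw [if_neg hc, if_neg (fun h => hc ⟨h.1, e1.1 h.2⟩), Finsupp.mapDomain_zero]

/-- An interior simplex with `n` vertices has an even number of cofaces. -/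
theorem even_cofs {K B : Set (Finset U)} {n : ℕ} (hM : Psm K B n) {s : Finset U} (hs : s ∈ K)
    (hB : s ∉ B) (hc : s.card = n) : ((cofs K s (n + 1)).card : ZMod 2) = 0 :=
  hM.even _ hs hB hc

end Pool.Agent.H37.TM

end

section

/-!
# Project TM: the assembly, definitions
-/

set_option autoImplicit false
set_option linter.unusedSectionVars false

open Finset Pointwise

namespace Pool.Agent.H37.TM

open Pool.Agent.H19.Cub Pool.Agent.H77.SX

section

variable {V X Γ : Type} [DecidableEq V] [Group Γ] {Q : CubeComplex V X} {x₀ : X}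
  [MulAction Γ (Q.Cover x₀)]

/-- the action on the cubes -/
instance cuAct : MulAction Γ (Q.Cover x₀ × Finset V) where
  smul g e := (g • e.1, e.2)
  one_smul e := by
    show ((1 : Γ) • e.1, e.2) = e
    rw [one_smul]
  mul_smul g g' e := by
    show ((g * g') • e.1, e.2) = (g • g' • e.1, e.2)
    rw [mul_smul]

theorem cu_smul (g : Γ) (e : Q.Cover x₀ × Finset V) : g • e = (g • e.1, e.2) := rfl

theorem cu_free (hΓ : IsDeck Γ Q x₀) (e : Q.Cover x₀ × Finset V) (g : Γ) (h : g • e = e) :
    g = 1 := hΓ.free g e.1 (congrArg Prod.fst h)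

theorem cell_smul (hΓ : IsDeck Γ Q x₀) {bit : X → V → ZMod 2} {i : ℕ} (g : Γ)
    (e : Q.Cover x₀ × Finset V) : g • e ∈ Cell Q x₀ bit i ↔ e ∈ Cell Q x₀ bit i := by
  unfold Cell
  rw [cu_smul, Set.mem_ofPred_eq, Set.mem_ofPred_eq, hΓ.proj]

/-- the cubes form finitely many orbits -/
theorem cu_fin [Fintype V] [Fintype X] (hΓ : IsDeck Γ Q x₀) :
    ∃ F : Finset (Q.Cover x₀ × Finset V), ∀ e, ∃ g : Γ, g • e ∈ F := by
  classical
  have h1 : ∀ x : X, ∃ c : Option (Q.Cover x₀), ∀ c', Q.proj x₀ c' = x →
      ∃ c'', c = some c'' ∧ Q.proj x₀ c'' = x := by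
    intro x
    by_cases h : ∃ c', Q.proj x₀ c' = x
    · obtain ⟨c', hc'⟩ := h
      exact ⟨some c', fun _ _ => ⟨c', rfl, hc'⟩⟩
    · exact ⟨none, fun c' hc' => absurd ⟨c', hc'⟩ h⟩
  choose r hr using h1
  refine ⟨(univ ×ˢ univ : Finset (X × Finset V)).biUnion fun y =>
    (r y.1).toFinset.image fun c => (c, y.2), fun e => ?_⟩
  obtain ⟨c'', h2, h3⟩ := hr (Q.proj x₀ e.1) e.1 rfl
  obtain ⟨g, hg⟩ := hΓ.trans e.1 c'' h3.symm
  refine ⟨g, mem_biUnion.2 ⟨(Q.proj x₀ e.1, e.2), by simp, mem_image.2 ⟨c'', ?_, ?_⟩⟩⟩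
  · rw [h2]
    simp
  · rw [cu_smul, hg]

end

section

variable {V X U Γ : Type} [DecidableEq V] [DecidableEq U] [Group Γ] [MulAction Γ U]

/-- `Ψ` is an equivariant chain map from the cubes to the complex of pairs -/
structure IsPsi (Γ : Type) [Group Γ] [MulAction Γ U] (Q : CubeComplex V X) (x₀ : X)
    [MulAction Γ (Q.Cover x₀)] (bit : X → V → ZMod 2) (K B : Set (Finset U)) (n : ℕ)
    (Ψ : Q.Cover x₀ × Finset V → (Finset U × Finset U →₀ ZMod 2)) : Prop where
  mem : ∀ i, ∀ e ∈ Cell Q x₀ bit i, Ψ e ∈ TN K B n (i + 1)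
  smul : ∀ (g : Γ) i, ∀ e ∈ Cell Q x₀ bit i, Ψ (g • e) = (Ψ e).mapDomain (g • ·)
  bd : ∀ i, ∀ e ∈ Cell Q x₀ bit i, bdT K n (Ψ e) =
    (if i = 0 then Finsupp.single (∅, ∅) 1 else 0) + lin Ψ (bdD Q x₀ e)

/-- `f` is an equivariant map on the vertices -/
def IsVMap (Γ : Type) [Group Γ] [MulAction Γ U] {D : Type} [MulAction Γ D] (f : U → D) : Prop :=
  ∀ (g : Γ) (u : U), f (g • u) = g • f u

/-- the map from the complex of pairs to the tuples of `D` -/
noncomputable def Phi {D : Type} (K : Set (Finset U)) (n : ℕ) (ht : U → ℕ) (f : U → D)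
    (y : Finset U × Finset U →₀ ZMod 2) : List D →₀ ZMod 2 :=
  (lin (lamE K n ht) y).mapDomain (List.map f)

/-- the cochain of a chain of pairs -/
def al (y : Finset U × Finset U →₀ ZMod 2) (τ : Finset U) : ZMod 2 := ∑ v ∈ τ, y ({v}, τ)

variable {P K : Type} [Group P] [Field K] [Algebra (ZMod 2) K] {Q : CubeComplex V X} {g : V → P}
  {t : V → P → K}

end

end Pool.Agent.H37.TM

end

section

/-!
# Project TM: the coboundary of the cochains of pairs, correspondence at the translates
-/

set_option autoImplicit false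
set_option linter.unusedSectionVars false

open Finset Pointwise

namespace Pool.Agent.H37.TM

open Pool.Agent.H19.Cub Pool.Agent.H77.SX

section

variable {U : Type} [DecidableEq U] {M B : Set (Finset U)} {n : ℕ}

theorem al_add' (x y : Finset U × Finset U →₀ ZMod 2) (τ : Finset U) :
    al (x + y) τ = al x τ + al y τ := by
  unfold al
  rw [← sum_add_distrib]
  rfl

theorem al_smul'' (c : ZMod 2) (x : Finset U × Finset U →₀ ZMod 2) (τ : Finset U) :
    al (c • x) τ = c * al x τ := by
  unfold al
  rw [mul_sum]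
  rfl

theorem al_sum' {ι : Type} (s : Finset ι) (F : ι → (Finset U × Finset U →₀ ZMod 2))
    (τ : Finset U) : al (∑ i ∈ s, F i) τ = ∑ i ∈ s, al (F i) τ := by
  unfold al
  rw [sum_comm]
  refine sum_congr rfl fun v _ => ?_
  rw [Finsupp.finsetSum_apply]

/-- the cochain of one pair -/
theorem al_single (σ τ' τ : Finset U) :
    al (Finsupp.single (σ, τ') (1 : ZMod 2)) τ =
      ∑ v ∈ τ, if σ = {v} ∧ τ' = τ then (1 : ZMod 2) else 0 := by
  unfold al
  refine sum_congr rfl fun v _ => ?_
  rw [Finsupp.single_apply]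
  simp only [Prod.mk.injEq]

/-- a symmetric double sum without diagonal vanishes modulo two -/
theorem sum_symm (τ : Finset U) (F : U → U → ZMod 2) (h : ∀ u v, F u v = F v u)
    (h0 : ∀ u, F u u = 0) : ∑ v ∈ τ, ∑ u ∈ τ, F u v = 0 := by
  rw [← sum_product']
  refine sum_involution (fun p _ => (p.2, p.1)) ?_ ?_ ?_ ?_
  · rintro ⟨v, u⟩ _
    show F u v + F v u = 0
    rw [h u v]
    exact CharTwo.add_self_eq_zero _
  · rintro ⟨v, u⟩ _ h1 h2
    rw [Prod.mk.injEq] at h2
    apply h1
    have h3 : u = v := h2.1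
    show F u v = 0
    rw [h3]
    exact h0 v
  · rintro ⟨v, u⟩ h1
    rw [mem_product] at h1 ⊢
    exact ⟨h1.2, h1.1⟩
  · rintro ⟨v, u⟩ _
    rfl

/-- the part of the boundary which lowers `σ` -/
theorem al_low (σ τ' τ : Finset U) (h : σ ⊆ τ') :
    al (∑ u ∈ σ, Finsupp.single (σ.erase u, τ') (1 : ZMod 2)) τ = 0 := by
  rw [al_sum']
  simp only [al_single]
  by_cases hτ : τ' = τ
  · subst hτ
    simp only [and_true]
    have h1 : ∑ u ∈ σ, ∑ v ∈ τ', (if σ.erase u = {v} then (1 : ZMod 2) else 0) =
        ∑ u ∈ τ', ∑ v ∈ τ', (if u ≠ v ∧ σ = {u, v} then (1 : ZMod 2) else 0) := by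
      rw [← sum_subset h]
      · refine sum_congr rfl fun u hu => sum_congr rfl fun v _ => ?_
        have h2 : σ.erase u = {v} ↔ (u ≠ v ∧ σ = {u, v}) := by
          constructor
          · intro h3
            refine ⟨?_, ?_⟩
            · rintro rfl
              have h4 : u ∈ σ.erase u := h3 ▸ mem_singleton_self u
              exact notMem_erase u σ h4
            · rw [← insert_erase hu, h3]
          · rintro ⟨h3, h4⟩
            rw [h4, erase_insert]
            rw [mem_singleton]
            exact h3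
        simp only [h2]
      · intro u _ hu
        refine sum_eq_zero fun v _ => if_neg ?_
        rintro ⟨-, h3⟩
        exact hu (h3 ▸ mem_insert_self u {v})
    rw [h1]
    refine sum_symm τ' (fun v u => if u ≠ v ∧ σ = {u, v} then (1 : ZMod 2) else 0) ?_ ?_
    · intro u v
      have h2 : (v ≠ u ∧ σ = {v, u}) ↔ (u ≠ v ∧ σ = {u, v}) := by
        rw [pair_comm u v]
        exact and_congr_left fun _ => ne_comm
      simp only [h2]
    · intro u
      exact if_neg fun h2 => h2.1 rfl
  · refine sum_eq_zero fun u _ => sum_eq_zero fun v _ => if_neg fun h1 => hτ h1.2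

/-- the coboundary of the cochain of one cell -/
theorem al_bdE (hM : Psm M B n) {i : ℕ} {e : Finset U × Finset U}
    (he : e ∈ TCell M B n (i + 1)) {τ : Finset U} (hτ : τ ∈ M) :
    al (bdE M n e) τ = cob (al (Finsupp.single e 1)) τ := by
  obtain ⟨σ, τ'⟩ := e
  obtain ⟨h1, h2, h3, h4, h5⟩ := he
  simp only at h1 h2 h3 h4 h5
  unfold bdE
  simp only
  rw [if_neg h1.ne_empty, al_add', al_sum']
  have h6 : al (if σ.card = 1 then (if τ'.card = n + 1 then Finsupp.single (∅, ∅) (1 : ZMod 2)
      else 0) else ∑ v ∈ σ, Finsupp.single (σ.erase v, τ') 1) τ = 0 := by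
    split_ifs
    · rw [al_single]
      refine sum_eq_zero fun v _ => if_neg ?_
      rintro ⟨h7, -⟩
      exact (singleton_ne_empty v) h7.symm
    · unfold al
      simp
    · exact al_low σ τ' τ h2
  rw [h6, zero_add]
  unfold cob
  simp only [al_single]
  by_cases h7 : ∃ w, σ = {w}
  · obtain ⟨w, rfl⟩ := h7
    have hw : w ∈ τ' := h2 (mem_singleton_self w)
    -- both sides count whether `τ` is a coface of `τ'`
    have h8 : ∀ t : Finset U, (∑ v ∈ τ, if ({w} : Finset U) = {v} ∧ t = τ then (1 : ZMod 2) else 0) =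
        if t = τ ∧ w ∈ τ then 1 else 0 := by
      intro t
      by_cases ht : t = τ
      · subst ht
        simp only [and_true, true_and, singleton_inj]
        rw [sum_ite_eq]
      · rw [if_neg fun h => ht h.1]
        exact sum_eq_zero fun v _ => if_neg fun h => ht h.2
    have h9 : ∀ u ∈ τ, (∑ v ∈ τ.erase u, if ({w} : Finset U) = {v} ∧ τ' = τ.erase u
        then (1 : ZMod 2) else 0) = if τ' = τ.erase u then 1 else 0 := by
      intro u _
      by_cases ht : τ' = τ.erase u
      · rw [if_pos ht, ← ht]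
        simp only [and_true, singleton_inj]
        rw [sum_ite_eq, if_pos hw]
      · rw [if_neg ht]
        exact sum_eq_zero fun v _ => if_neg fun h => ht h.2
    rw [sum_congr rfl fun t _ => h8 t, sum_congr rfl h9]
    by_cases hc : τ' ⊆ τ ∧ τ.card = τ'.card + 1
    · have h10 : τ ∈ cofs M τ' (τ'.card + 1) := (mem_cofsP hM h3).2 ⟨hτ, hc.1, hc.2⟩
      have hwτ : w ∈ τ := hc.1 hw
      rw [sum_eq_single_of_mem τ h10 (fun t _ ht => if_neg fun h => ht h.1), if_pos ⟨rfl, hwτ⟩]
      have h11 : (τ \ τ').card = 1 := by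
        rw [card_sdiff_of_subset hc.1]
        omega
      obtain ⟨v, hv⟩ := card_eq_one.1 h11
      have hv' : v ∈ τ \ τ' := hv ▸ mem_singleton_self v
      have hv1 := (mem_sdiff.1 hv').1
      have hv2 := (mem_sdiff.1 hv').2
      have h12 : τ' = τ.erase v := by
        refine eq_of_subset_of_card_le (subset_erase.2 ⟨hc.1, hv2⟩) ?_
        rw [card_erase_of_mem hv1]
        omega
      rw [sum_eq_single_of_mem v hv1, if_pos h12]
      intro u hu huv
      refine if_neg fun h => ?_
      rw [h12] at h
      have h13 : v ∈ τ.erase u := mem_erase.2 ⟨huv.symm, hv1⟩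
      rw [← h] at h13
      exact notMem_erase v τ h13
    · rw [sum_eq_zero, sum_eq_zero]
      · intro u hu
        refine if_neg fun h : τ' = τ.erase u => hc ⟨?_, ?_⟩
        · rw [h]
          exact erase_subset u τ
        · have h13 := card_pos.2 ⟨u, hu⟩
          rw [h, card_erase_of_mem hu]
          omega
      · intro t ht
        refine if_neg ?_
        rintro ⟨rfl, -⟩
        rw [mem_cofsP hM h3] at ht
        exact hc ⟨ht.2.1, ht.2.2⟩
  · rw [sum_eq_zero, sum_eq_zero]
    · intro u _
      exact sum_eq_zero fun v _ => if_neg fun h => h7 ⟨v, h.1⟩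
    · intro t _
      exact sum_eq_zero fun v _ => if_neg fun h => h7 ⟨v, h.1⟩

end

variable {V X U Γ P K : Type} [DecidableEq V] [DecidableEq U] [Group Γ] [MulAction Γ U]
  {Q : CubeComplex V X} {x₀ : X} [MulAction Γ (Q.Cover x₀)] {bit : X → V → ZMod 2}
  [Group P] [Field K] [Algebra (ZMod 2) K] {g : V → P} {t : V → P → K}
  {M B : Set (Finset U)} {n : ℕ} {ht : U → ℕ}

/-- the coboundary of the cochain of a chain -/
theorem al_bdT (hM : Psm M B n) {i : ℕ} {y : Finset U × Finset U →₀ ZMod 2}
    (hy : y ∈ TN M B n (i + 1)) {τ : Finset U} (hτ : τ ∈ M) :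
    al (bdT M n y) τ = cob (al y) τ := by
  have h1 : y ∈ Submodule.span (ZMod 2)
      ((fun e => Finsupp.single e (1 : ZMod 2)) '' TCell M B n (i + 1)) := by
    rw [← Finsupp.supported_eq_span_single]
    exact hy
  clear hy
  induction h1 using Submodule.span_induction with
  | mem x hx =>
    obtain ⟨e, he, rfl⟩ := hx
    show al (bdT M n (Finsupp.single e 1)) τ = cob (al (Finsupp.single e 1)) τ
    rw [← al_bdE hM he hτ]
    unfold bdT
    rw [Finsupp.linearCombination_single, one_smul]
  | zero =>
    rw [map_zero]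
    unfold cob al
    simp
  | add x y _ _ h1 h2 =>
    rw [map_add, al_add', h1, h2]
    unfold cob
    rw [← sum_add_distrib]
    exact sum_congr rfl fun v _ => (al_add' x y _).symm
  | smul c x _ h =>
    rw [map_smul, al_smul'', h]
    unfold cob
    rw [mul_sum]
    exact sum_congr rfl fun v _ => (al_smul'' c x _).symm

end Pool.Agent.H37.TM

end
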