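import Pool.Agent.H71.TSG.H37.TM.StarC
import Pool.Agent.H71.TSG.M09
import Pool.Agent.H71.TSG.M32
import Pool.Agent.H71.TSG.M35

/-! The parts of this file: H37.TM.Rel, H37.TM.TF, S10.AcyQ. -/

section

/-!
# Project TM: coverings of labelled cube complexes and relabelling

`IsCov`: coverings `Q' → Q` which may refine the labels. `relabel`: every finite complex `Q` has a finite covering
with bits and with labels such that no label is adjacent to all labels of a cube of dimension `d = dim Q`.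
-/

set_option autoImplicit false
set_option linter.unusedSectionVars false

open Finset

namespace Pool.Agent.H37.TM

open Pool.Agent.H19.Cub

/-- no label is adjacent to all labels of a cube of dimension `d` -/
def MaxCl {V X : Type} [DecidableEq V] (Q : CubeComplex V X) (d : ℕ) : Prop :=
  ∀ x, ∀ σ : Finset V, σ ⊆ Q.lab x → Q.graph.IsClique (σ : Set V) → σ.card = d →
    ∀ u, ∃ v ∈ σ, ¬ Q.graph.Adj v u

/-- coverings `Q' → Q`: `φ` on the vertices, `ψ` on the labels (the labels of `Q'` may be finer) -/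
structure IsCov {V X V' X' : Type} [DecidableEq V] [DecidableEq V'] (Q' : CubeComplex V' X')
    (Q : CubeComplex V X) (ψ : V' → V) (φ : X' → X) : Prop where
  lab : ∀ y v, v ∈ Q.lab (φ y) → ∃ v' ∈ Q'.lab y, ψ v' = v
  lab' : ∀ y, ∀ v' ∈ Q'.lab y, ψ v' ∈ Q.lab (φ y)
  inj : ∀ y, ∀ u' ∈ Q'.lab y, ∀ v' ∈ Q'.lab y, ψ u' = ψ v' → u' = v'
  nb : ∀ y, ∀ v' ∈ Q'.lab y, φ (Q'.nb v' y) = Q.nb (ψ v') (φ y)
  adj : ∀ u' v', Q'.graph.Adj u' v' → Q.graph.Adj (ψ u') (ψ v')
  adj' : ∀ y, ∀ u' ∈ Q'.lab y, ∀ v' ∈ Q'.lab y, Q.graph.Adj (ψ u') (ψ v') → Q'.graph.Adj u' v'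

namespace IsCov

variable {V X V' X' : Type} [DecidableEq V] [DecidableEq V'] {Q' : CubeComplex V' X'}
  {Q : CubeComplex V X} {ψ : V' → V} {φ : X' → X} (h : IsCov Q' Q ψ φ)

include h

theorem isPath {y : X'} {l : List V'} (hl : Q'.IsPath y l) : Q.IsPath (φ y) (l.map ψ) := by
  induction l generalizing y with
  | nil => trivial
  | cons v l ih =>
    refine ⟨h.lab' y v hl.1, ?_⟩
    rw [← h.nb y v hl.1]
    exact ih hl.2

theorem fin_map {y : X'} {l : List V'} (hl : Q'.IsPath y l) :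
    Q.fin (φ y) (l.map ψ) = φ (Q'.fin y l) := by
  induction l generalizing y with
  | nil => rfl
  | cons v l ih =>
    show Q.fin (Q.nb (ψ v) (φ y)) (l.map ψ) = φ (Q'.fin (Q'.nb v y) l)
    rw [← h.nb y v hl.1]
    exact ih hl.2

theorem lift {y : X'} {l : List V} (hl : Q.IsPath (φ y) l) :
    ∃ l' : List V', Q'.IsPath y l' ∧ l'.map ψ = l := by
  induction l generalizing y with
  | nil => exact ⟨[], trivial, rfl⟩
  | cons v l ih =>
    obtain ⟨v', hv', rfl⟩ := h.lab y v hl.1
    have h2 := hl.2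
    rw [← h.nb y v' hv'] at h2
    obtain ⟨l', hl', rfl⟩ := ih h2
    exact ⟨v' :: l', ⟨hv', hl'⟩, rfl⟩

theorem uniq {y : X'} {l l' : List V'} (hl : Q'.IsPath y l) (hl' : Q'.IsPath y l')
    (he : l.map ψ = l'.map ψ) : l = l' := by
  induction l generalizing y l' with
  | nil =>
    cases l' with
    | nil => rfl
    | cons w l' => simp at he
  | cons v l ih =>
    cases l' with
    | nil => simp at he
    | cons w l' =>
      simp only [List.map_cons, List.cons.injEq] at he
      have hvw : v = w := h.inj y v hl.1 w hl'.1 he.1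
      subst hvw
      rw [ih hl.2 hl'.2 he.2]

theorem step_map {l l' : List V'} (hs : Step Q'.graph l l') :
    Step Q.graph (l.map ψ) (l'.map ψ) := by
  cases hs with
  | back a b v =>
    simp only [List.map_append, List.map_cons]
    exact Step.back _ _ _
  | square a b u v huv =>
    simp only [List.map_append, List.map_cons]
    exact Step.square _ _ _ _ (h.adj u v huv)

theorem step_lift {y : X'} {l l' : List V'} (hl : Q'.IsPath y l) (hl' : Q'.IsPath y l')
    {m m' : List V} (hs : Step Q.graph m m') (hm : l.map ψ = m) (hm' : l'.map ψ = m') :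
    Step Q'.graph l l' := by
  cases hs with
  | back a b v =>
    obtain ⟨a1, r1, rfl, ha1, hr1⟩ := List.map_eq_append_iff.1 hm
    obtain ⟨x, r2, rfl, hx, hr2⟩ := List.map_eq_cons_iff.1 hr1
    obtain ⟨x', b1, rfl, hx', hb1⟩ := List.map_eq_cons_iff.1 hr2
    obtain ⟨a2, b2, rfl, ha2, hb2⟩ := List.map_eq_append_iff.1 hm'
    rw [CubeComplex.isPath_append] at hl hl'
    obtain ⟨p1, p2, p3, p4⟩ := hl
    obtain ⟨q1, q2⟩ := hl'
    have e1 : a1 = a2 := h.uniq p1 q1 (ha1.trans ha2.symm)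
    subst e1
    have e2 : x = x' := h.inj _ x (Q'.lab_nb x _ p2) x' p3 (hx.trans hx'.symm)
    subst e2
    rw [Q'.nb_nb x _ p2] at p4
    have e3 : b1 = b2 := h.uniq p4 q2 (hb1.trans hb2.symm)
    subst e3
    exact Step.back _ _ _
  | square a b u v huv =>
    obtain ⟨a1, r1, rfl, ha1, hr1⟩ := List.map_eq_append_iff.1 hm
    obtain ⟨x, r2, rfl, hx, hr2⟩ := List.map_eq_cons_iff.1 hr1
    obtain ⟨w, b1, rfl, hw, hb1⟩ := List.map_eq_cons_iff.1 hr2
    obtain ⟨a2, s1, rfl, ha2, hs1⟩ := List.map_eq_append_iff.1 hm'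
    obtain ⟨w', s2, rfl, hw', hs2⟩ := List.map_eq_cons_iff.1 hs1
    obtain ⟨x', b2, rfl, hx', hb2⟩ := List.map_eq_cons_iff.1 hs2
    rw [CubeComplex.isPath_append] at hl hl'
    obtain ⟨p1, p2, p3, p4⟩ := hl
    obtain ⟨q1, q2, q3, q4⟩ := hl'
    have e1 : a1 = a2 := h.uniq p1 q1 (ha1.trans ha2.symm)
    subst e1
    have hadj : Q'.graph.Adj x w' := by
      refine h.adj' _ x p2 w' q2 ?_
      rw [hx, hw']
      exact huv
    have e2 : w = w' := by
      refine h.inj _ w p3 w' ?_ (hw.trans hw'.symm)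
      exact Q'.lab_adj w' x _ hadj.symm q2 p2
    subst e2
    have e3 : x' = x := by
      refine h.inj _ x' q3 x ?_ (hx'.trans hx.symm)
      exact Q'.lab_adj x w _ hadj p2 q2
    subst e3
    rw [Q'.nb_comm w x' _ hadj.symm q2 p2] at p4
    have e4 : b1 = b2 := h.uniq p4 q4 (hb1.trans hb2.symm)
    subst e4
    exact Step.square _ _ _ _ hadj

/-- the map of the universal covers -/
def down (y : X') : Q'.Cover y → Q.Cover (φ y) :=
  Quot.map (fun l => ⟨l.1.map ψ, h.isPath l.2⟩) fun _ _ hs => h.step_map hs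

/-- the inverse -/
noncomputable def up (y : X') : Q.Cover (φ y) → Q'.Cover y :=
  Quot.map (fun l => ⟨(h.lift l.2).choose, (h.lift l.2).choose_spec.1⟩) fun a b hs =>
    h.step_lift (h.lift a.2).choose_spec.1 (h.lift b.2).choose_spec.1 hs
      (h.lift a.2).choose_spec.2 (h.lift b.2).choose_spec.2

theorem up_down (y : X') (c : Q'.Cover y) : h.up y (h.down y c) = c := by
  induction c using Quot.ind with
  | mk l =>
    have hp := h.isPath l.2
    have e : (h.lift hp).choose = l.1 :=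
      h.uniq (h.lift hp).choose_spec.1 l.2 (h.lift hp).choose_spec.2
    show Quot.mk _ ⟨(h.lift hp).choose, _⟩ = Quot.mk _ l
    congr 1
    exact Subtype.ext e

theorem down_up (y : X') (c : Q.Cover (φ y)) : h.down y (h.up y c) = c := by
  induction c using Quot.ind with
  | mk l =>
    show Quot.mk _ ⟨(h.lift l.2).choose.map ψ, _⟩ = Quot.mk _ l
    congr 1
    exact Subtype.ext (h.lift l.2).choose_spec.2

theorem down_bij (y : X') : Function.Bijective (h.down y) :=
  Function.bijective_iff_has_inverse.2 ⟨h.up y, h.up_down y, h.down_up y⟩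

theorem proj_down (y : X') (c : Q'.Cover y) : Q.proj (φ y) (h.down y c) = φ (Q'.proj y c) := by
  induction c using Quot.ind with
  | mk l => exact h.fin_map l.2

theorem down_nbc (y : X') (c : Q'.Cover y) {v : V'} (hv : v ∈ Q'.lab (Q'.proj y c)) :
    h.down y (Q'.nbc y v c) = Q.nbc (φ y) (ψ v) (h.down y c) := by
  induction c using Quot.ind with
  | mk l =>
    have hv1 : v ∈ Q'.lab (Q'.fin y l.1) := hv
    rw [Q'.nbc_mk y v l hv1]
    have hv2 : ψ v ∈ Q.lab (Q.fin (φ y) (l.1.map ψ)) := by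
      rw [h.fin_map l.2]
      exact h.lab' _ v hv1
    have e := Q.nbc_mk (φ y) (ψ v) ⟨l.1.map ψ, h.isPath l.2⟩ hv2
    refine Eq.trans ?_ e.symm
    refine congrArg (Quot.mk _) (Subtype.ext ?_)
    exact List.map_append ..

/-- the map of the universal covers is a covering -/
theorem cover (y : X') : IsCov (Q'.cover y) (Q.cover (φ y)) ψ (h.down y) where
  lab c v hv := by
    have h1 : v ∈ Q.lab (φ (Q'.proj y c)) := by
      rw [← h.proj_down]
      exact hv
    exact h.lab _ v h1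
  lab' c v' hv' := by
    show ψ v' ∈ Q.lab (Q.proj (φ y) (h.down y c))
    rw [h.proj_down]
    exact h.lab' _ v' hv'
  inj c u' hu' v' hv' he := h.inj _ u' hu' v' hv' he
  nb c v' hv' := h.down_nbc y c hv'
  adj := h.adj
  adj' c u' hu' v' hv' ha := h.adj' _ u' hu' v' hv' ha

end IsCov

/-! ### `ℓ²`-homology -/

section L2

open Pool.Agent.H4.Singer

variable {V X V' X' : Type} [DecidableEq V] [DecidableEq V'] {Q' : CubeComplex V' X'}
  {Q : CubeComplex V X} {ψ : V' → V} {φ : X' → X} (h : IsCov Q' Q ψ φ)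

/-- the labels at `y` over `σ` -/
def liftS (Q' : CubeComplex V' X') (ψ : V' → V) (σ : Finset V) (y : X') : Finset V' :=
  (Q'.lab y).filter fun v' => ψ v' ∈ σ

theorem liftS_sub (σ : Finset V) (y : X') : liftS Q' ψ σ y ⊆ Q'.lab y := filter_subset _ _

include h

theorem liftS_image {τ : Finset V'} {y : X'} (hτ : τ ⊆ Q'.lab y) :
    liftS Q' ψ (τ.image ψ) y = τ := by
  ext v'
  simp only [liftS, mem_filter, mem_image]
  constructor
  · rintro ⟨h1, w, hw, hwv⟩
    rwa [← h.inj y w (hτ hw) v' h1 hwv]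
  · intro hv
    exact ⟨hτ hv, v', hv, rfl⟩

theorem image_liftS {σ : Finset V} {y : X'} (hσ : σ ⊆ Q.lab (φ y)) :
    (liftS Q' ψ σ y).image ψ = σ := by
  ext v
  simp only [liftS, mem_filter, mem_image]
  constructor
  · rintro ⟨w, ⟨_, hw⟩, rfl⟩
    exact hw
  · intro hv
    obtain ⟨v', hv', rfl⟩ := h.lab y v (hσ hv)
    exact ⟨v', ⟨hv', hv⟩, rfl⟩

theorem injOn_lab {τ : Finset V'} {y : X'} (hτ : τ ⊆ Q'.lab y) : Set.InjOn ψ (τ : Set V') :=
  fun a ha b hb hab => h.inj y a (hτ ha) b (hτ hb) hab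

theorem card_img {τ : Finset V'} {y : X'} (hτ : τ ⊆ Q'.lab y) : (τ.image ψ).card = τ.card :=
  card_image_of_injOn (injOn_lab h hτ)

theorem image_sub {τ : Finset V'} {y : X'} (hτ : τ ⊆ Q'.lab y) : τ.image ψ ⊆ Q.lab (φ y) := by
  intro v hv
  obtain ⟨v', hv', rfl⟩ := mem_image.1 hv
  exact h.lab' y v' (hτ hv')

theorem clique_iff {τ : Finset V'} {y : X'} (hτ : τ ⊆ Q'.lab y) :
    Q.graph.IsClique ((τ.image ψ : Finset V) : Set V) ↔ Q'.graph.IsClique (τ : Set V') := by
  constructor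
  · intro hc a ha b hb hab
    refine h.adj' y a (hτ ha) b (hτ hb) (hc ?_ ?_ ?_)
    · exact mem_coe.2 (mem_image_of_mem ψ ha)
    · exact mem_coe.2 (mem_image_of_mem ψ hb)
    · exact fun he => hab (h.inj y a (hτ ha) b (hτ hb) he)
  · intro hc a ha b hb hab
    obtain ⟨a', ha', rfl⟩ := mem_image.1 (mem_coe.1 ha)
    obtain ⟨b', hb', rfl⟩ := mem_image.1 (mem_coe.1 hb)
    exact h.adj _ _ (hc ha' hb' fun he => hab (congrArg ψ he))

/-- cliques stay at the neighbours -/
theorem sub_nb' {τ : Finset V'} {y : X'} (hτ : τ ⊆ Q'.lab y) (hc : Q'.graph.IsClique (τ : Set V'))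
    {v' : V'} (hv : v' ∈ τ) : τ ⊆ Q'.lab (Q'.nb v' y) := by
  intro u hu
  by_cases huv : u = v'
  · subst huv
    exact Q'.lab_nb _ y (hτ hu)
  · exact Q'.lab_adj u v' y (hc hu hv huv) (hτ hu) (hτ hv)

variable [Fintype V] [Fintype V']

/-- the boundaries agree -/
theorem bdry_cov {ν : V → ℕ} {ν' : V' → ℕ}
    (hν : ∀ a b, ψ a ≠ ψ b → (ν' a < ν' b ↔ ν (ψ a) < ν (ψ b)))
    {f' : Finset V' → X' → ℂ} {f : Finset V → X → ℂ} {y : X'}
    (hf : ∀ σ, f σ (φ y) ≠ 0 → σ ⊆ Q.lab (φ y)) (hf' : ∀ σ, f' σ y ≠ 0 → σ ⊆ Q'.lab y)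
    (hff : ∀ σ, σ ⊆ Q'.lab y → f' σ y = f (σ.image ψ) (φ y)) {τ : Finset V'}
    (hτ : τ ⊆ Q'.lab y) : bdry ν' f' τ y = bdry ν f (τ.image ψ) (φ y) := by
  have e1 : bdry ν' f' τ y = ∑ v ∈ Q'.lab y \ τ,
      (-1) ^ (τ.filter fun u => ν' u < ν' v).card * f' (insert v τ) y := by
    unfold bdry
    refine (sum_subset ?_ ?_).symm
    · intro v hv
      rw [mem_sdiff] at hv
      exact mem_compl.2 hv.2
    · intro v hv hv2
      rw [mem_compl] at hv
      rw [mem_sdiff] at hv2
      by_contra hne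
      have h1 := hf' _ (right_ne_zero_of_mul hne) (mem_insert_self v τ)
      exact hv2 ⟨h1, hv⟩
  have e2 : bdry ν f (τ.image ψ) (φ y) = ∑ v ∈ Q.lab (φ y) \ τ.image ψ,
      (-1) ^ ((τ.image ψ).filter fun u => ν u < ν v).card *
        f (insert v (τ.image ψ)) (φ y) := by
    unfold bdry
    refine (sum_subset ?_ ?_).symm
    · intro v hv
      rw [mem_sdiff] at hv
      exact mem_compl.2 hv.2
    · intro v hv hv2
      rw [mem_compl] at hv
      rw [mem_sdiff] at hv2
      by_contra hne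
      have h1 := hf _ (right_ne_zero_of_mul hne) (mem_insert_self v _)
      exact hv2 ⟨h1, hv⟩
  rw [e1, e2]
  refine sum_nbij ψ ?_ ?_ ?_ ?_
  · intro v hv
    rw [mem_sdiff] at hv ⊢
    refine ⟨h.lab' y v hv.1, fun hm => ?_⟩
    obtain ⟨w, hw, hwv⟩ := mem_image.1 hm
    exact hv.2 (h.inj y w (hτ hw) v hv.1 hwv ▸ hw)
  · intro a ha b hb hab
    rw [mem_coe, mem_sdiff] at ha hb
    exact h.inj y a ha.1 b hb.1 hab
  · intro v hv
    rw [mem_coe, mem_sdiff] at hv
    obtain ⟨v', hv', rfl⟩ := h.lab y v hv.1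
    refine ⟨v', ?_, rfl⟩
    rw [mem_coe, mem_sdiff]
    exact ⟨hv', fun hm => hv.2 (mem_image_of_mem ψ hm)⟩
  · intro v hv
    rw [mem_sdiff] at hv
    have h1 : insert v τ ⊆ Q'.lab y := insert_subset hv.1 hτ
    rw [hff _ h1, image_insert]
    congr 2
    have h2 : (τ.image ψ).filter (fun u => ν u < ν (ψ v)) =
        (τ.filter fun u => ν' u < ν' v).image ψ := by
      ext w
      simp only [mem_filter, mem_image]
      constructor
      · rintro ⟨⟨w', hw', rfl⟩, hlt⟩
        refine ⟨w', ⟨hw', (hν w' v ?_).2 hlt⟩, rfl⟩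
        intro he
        rw [he] at hlt
        exact lt_irrefl _ hlt
      · rintro ⟨w', ⟨hw', hlt⟩, rfl⟩
        refine ⟨⟨w', hw', rfl⟩, (hν w' v ?_).1 hlt⟩
        intro he
        exact hv.2 (h.inj y w' (hτ hw') v hv.1 he ▸ hw')
    rw [h2]
    exact (card_img h ((filter_subset _ _).trans hτ)).symm

/-- The vanishing of the reduced `ℓ²`-homology passes to the base of a bijective covering. -/
theorem l2_of_cov (hφ : Function.Bijective φ) (i : ℕ) (h0 : L2HomologyZero Q' i) :
    L2HomologyZero Q i := by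
  classical
  intro ν hνi z hz hdz ε hε
  -- the order of the labels upstairs
  obtain ⟨ν', hν'i, hν⟩ : ∃ ν' : V' → ℕ, Function.Injective ν' ∧
      ∀ a b, ψ a ≠ ψ b → (ν' a < ν' b ↔ ν (ψ a) < ν (ψ b)) := by
    let e := Fintype.equivFin V'
    let N := Fintype.card V'
    have hlt : ∀ a b : V', ν (ψ a) < ν (ψ b) →
        ν (ψ a) * N + (e a).val < ν (ψ b) * N + (e b).val := by
      intro a b hab
      have h1 : (ν (ψ a) + 1) * N ≤ ν (ψ b) * N := Nat.mul_le_mul_right _ hab
      have h2 : (e a).val < N := (e a).isLt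
      have h3 : (ν (ψ a) + 1) * N = ν (ψ a) * N + N := by ring
      omega
    refine ⟨fun v => ν (ψ v) * N + (e v).val, ?_, ?_⟩
    · intro a b hab
      rcases lt_trichotomy (ν (ψ a)) (ν (ψ b)) with h1 | h1 | h1
      · exact absurd hab (hlt a b h1).ne
      · simp only [h1] at hab
        have h2 : (e a).val = (e b).val := by omega
        exact e.injective (Fin.ext h2)
      · exact absurd hab (hlt b a h1).ne'
    · intro a b hab
      constructor
      · intro h1
        rcases lt_trichotomy (ν (ψ a)) (ν (ψ b)) with h2 | h2 | h2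
        · exact h2
        · exact absurd (hνi h2) hab
        · exact absurd (hlt b a h2) (not_lt.2 h1.le)
      · exact hlt a b
  -- the inverse of `φ`
  obtain ⟨χ, hχ1, hχ2⟩ := Function.bijective_iff_has_inverse.1 hφ
  -- the chain upstairs
  let z' : Finset V' → X' → ℂ := fun σ y => if σ ⊆ Q'.lab y then z (σ.image ψ) (φ y) else 0
  have hz'1 : ∀ σ y, σ ⊆ Q'.lab y → z' σ y = z (σ.image ψ) (φ y) := fun σ y hσ => if_pos hσ
  have hz'0 : ∀ σ y, z' σ y ≠ 0 → σ ⊆ Q'.lab y := by
    intro σ y hne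
    by_contra hσ
    exact hne (if_neg hσ)
  have hz' : IsL2Chain Q' i z' := by
    refine ⟨fun σ y hne => ?_, fun σ y hσ v hv => ?_, fun σ => ?_⟩
    · have h1 := hz'0 σ y hne
      rw [hz'1 σ y h1] at hne
      obtain ⟨_, h3, h4⟩ := hz.supp _ _ hne
      exact ⟨h1, (clique_iff h h1).1 h3, (card_img h h1) ▸ h4⟩
    · by_cases hc : Q'.graph.IsClique (σ : Set V')
      · have h1 := sub_nb' h hσ hc hv
        rw [hz'1 _ _ h1, hz'1 _ _ hσ, h.nb y v (hσ hv)]
        exact hz.anti _ _ (image_sub h hσ) _ (mem_image_of_mem ψ hv)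
      · have h1 : z' σ y = 0 := by
          by_contra hne
          rw [hz'1 σ y hσ] at hne
          exact hc ((clique_iff h hσ).1 (hz.supp _ _ hne).2.1)
        have h2 : z' σ (Q'.nb v y) = 0 := by
          by_contra hne
          have h3 := hz'0 _ _ hne
          rw [hz'1 _ _ h3] at hne
          exact hc ((clique_iff h h3).1 (hz.supp _ _ hne).2.1)
        rw [h1, h2, neg_zero]
    · have h1 : Summable fun y => ‖z (σ.image ψ) (φ y)‖ ^ 2 :=
        (hz.l2 (σ.image ψ)).comp_injective hφ.1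
      refine Summable.of_nonneg_of_le (fun y => sq_nonneg _) (fun y => ?_) h1
      by_cases hσ : σ ⊆ Q'.lab y
      · rw [hz'1 σ y hσ]
      · have h2 : z' σ y = 0 := if_neg hσ
        rw [h2]
        simp
  have hdz' : bdry ν' z' = 0 := by
    funext τ y
    by_cases hτ : τ ⊆ Q'.lab y
    · rw [bdry_cov h hν (fun σ hne => (hz.supp σ _ hne).1) (hz'0 · y) (hz'1 · y) hτ, hdz]
      rfl
    · unfold bdry
      refine sum_eq_zero fun v _ => ?_
      have h2 : z' (insert v τ) y = 0 := by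
        by_contra hne
        exact hτ ((subset_insert v τ).trans (hz'0 _ _ hne))
      rw [h2, mul_zero]
  obtain ⟨w', hw', hlt⟩ := h0 ν' hν'i z' hz' hdz' ε hε
  -- the chain downstairs
  let w : Finset V → X → ℂ := fun σ x =>
    if σ ⊆ Q.lab x then w' (liftS Q' ψ σ (χ x)) (χ x) else 0
  have hw1 : ∀ σ y, σ ⊆ Q.lab (φ y) → w σ (φ y) = w' (liftS Q' ψ σ y) y := by
    intro σ y hσ
    show (if σ ⊆ Q.lab (φ y) then _ else _) = _
    rw [if_pos hσ, hχ1]
  have hw0 : ∀ σ x, w σ x ≠ 0 → σ ⊆ Q.lab x := by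
    intro σ y hne
    by_contra hσ
    exact hne (if_neg hσ)
  have hcl : ∀ σ y, σ ⊆ Q.lab (φ y) → w' (liftS Q' ψ σ y) y ≠ 0 →
      Q.graph.IsClique (σ : Set V) ∧ σ.card = i + 1 ∧
        Q'.graph.IsClique (liftS Q' ψ σ y : Set V') := by
    intro σ y hσ hne
    obtain ⟨h1, h2, h3⟩ := hw'.supp _ _ hne
    have h4 := image_liftS h hσ
    refine ⟨?_, ?_, h2⟩
    · have h5 := (clique_iff h h1).2 h2
      rwa [h4] at h5
    · have h5 := card_img h h1
      rw [h4] at h5
      rw [h5, h3]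
  have hw : IsL2Chain Q (i + 1) w := by
    refine ⟨fun σ x hne => ?_, fun σ x hσ v hv => ?_, fun σ => ?_⟩
    · have h1 := hw0 σ x hne
      obtain ⟨y, rfl⟩ := hφ.2 x
      rw [hw1 σ y h1] at hne
      obtain ⟨h2, h3, _⟩ := hcl σ y h1 hne
      exact ⟨h1, h2, h3⟩
    · obtain ⟨y, rfl⟩ := hφ.2 x
      obtain ⟨v', hv', rfl⟩ := h.lab y v (hσ hv)
      have hvl : v' ∈ liftS Q' ψ σ y := mem_filter.2 ⟨hv', hv⟩
      by_cases hc : Q.graph.IsClique (σ : Set V)
      · have hc' : Q'.graph.IsClique (liftS Q' ψ σ y : Set V') := by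
          rw [← clique_iff h (liftS_sub σ y), image_liftS h hσ]
          exact hc
        have h1 := sub_nb' h (liftS_sub σ y) hc' hvl
        have h2 : σ ⊆ Q.lab (φ (Q'.nb v' y)) := by
          have h3 := image_sub h h1
          rwa [image_liftS h hσ] at h3
        have h3 : liftS Q' ψ σ (Q'.nb v' y) = liftS Q' ψ σ y := by
          have h4 := liftS_image h h1
          rwa [image_liftS h hσ] at h4
        rw [← h.nb y v' hv', hw1 _ _ h2, hw1 _ _ hσ, h3]
        exact hw'.anti _ _ (liftS_sub σ y) _ hvl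
      · have h1 : w σ (φ y) = 0 := by
          by_contra hne
          rw [hw1 σ y hσ] at hne
          exact hc (hcl σ y hσ hne).1
        have h2 : w σ (Q.nb (ψ v') (φ y)) = 0 := by
          by_contra hne
          have h3 := hw0 _ _ hne
          rw [← h.nb y v' hv'] at h3 hne
          rw [hw1 _ _ h3] at hne
          exact hc (hcl σ _ h3 hne).1
        rw [h1, h2, neg_zero]
    · have hχi : Function.Injective χ := hχ2.injective
      have h1 : Summable fun x => ∑ σ', ‖w' σ' (χ x)‖ ^ 2 :=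
        summable_sum fun σ' _ => (hw'.l2 σ').comp_injective hχi
      refine Summable.of_nonneg_of_le (fun y => sq_nonneg _) (fun x => ?_) h1
      by_cases hσ : σ ⊆ Q.lab x
      · have h2 : w σ x = w' (liftS Q' ψ σ (χ x)) (χ x) := if_pos hσ
        rw [h2]
        exact single_le_sum (f := fun σ' => ‖w' σ' (χ x)‖ ^ 2) (fun _ _ => sq_nonneg _)
          (mem_univ _)
      · have h2 : w σ x = 0 := if_neg hσ
        rw [h2]
        simp only [norm_zero, ne_eq, OfNat.ofNat_ne_zero, not_false_eq_true, zero_pow]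
        exact sum_nonneg fun _ _ => sq_nonneg _
  refine ⟨w, hw, ?_⟩
  -- the distances
  have hww : ∀ y σ, σ ⊆ Q'.lab y → w' σ y = w (σ.image ψ) (φ y) := by
    intro y σ hσ
    rw [hw1 _ _ (image_sub h hσ), liftS_image h hσ]
  have hD0 : ∀ σ x, ¬ σ ⊆ Q.lab x → ‖z σ x - bdry ν w σ x‖ ^ 2 = 0 := by
    intro σ x hσ
    have h1 : z σ x = 0 := by
      by_contra hne
      exact hσ (hz.supp σ x hne).1
    have h2 : bdry ν w σ x = 0 := by
      unfold bdry
      refine sum_eq_zero fun v _ => ?_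
      have h3 : w (insert v σ) x = 0 := by
        by_contra hne
        exact hσ ((subset_insert v σ).trans (hw0 _ _ hne))
      rw [h3, mul_zero]
    rw [h1, h2]
    simp
  have hD1 : ∀ σ y, σ ⊆ Q.lab (φ y) → ‖z σ (φ y) - bdry ν w σ (φ y)‖ ^ 2 =
      ‖z' (liftS Q' ψ σ y) y - bdry ν' w' (liftS Q' ψ σ y) y‖ ^ 2 := by
    intro σ y hσ
    rw [hz'1 _ _ (liftS_sub σ y), bdry_cov h hν (fun σ' hne => hw0 σ' _ hne)
      (fun σ' hne => (hw'.supp σ' _ hne).1) (hww y) (liftS_sub σ y), image_liftS h hσ]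
  have hs1 : ∀ σ, Summable fun x => ‖z σ x - bdry ν w σ x‖ ^ 2 := fun σ =>
    l2h_sub (hz.l2 σ) (l2h_sum _ _ fun v _ => l2h_mul _ (hw.l2 (insert v σ)))
  have hs2 : ∀ σ, Summable fun y => ‖z' σ y - bdry ν' w' σ y‖ ^ 2 := fun σ =>
    l2h_sub (hz'.l2 σ) (l2h_sum _ _ fun v _ => l2h_mul _ (hw'.l2 (insert v σ)))
  refine lt_of_le_of_lt ?_ hlt
  rw [← Summable.tsum_finsetSum fun σ _ => hs1 σ, ← Summable.tsum_finsetSum fun σ _ => hs2 σ]
  rw [← (Equiv.ofBijective φ hφ).tsum_eq]
  refine Summable.tsum_le_tsum (fun y => ?_) ?_ (summable_sum fun σ _ => hs2 σ)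
  · show ∑ σ, ‖z σ (φ y) - bdry ν w σ (φ y)‖ ^ 2 ≤ ∑ σ, ‖z' σ y - bdry ν' w' σ y‖ ^ 2
    have e1 : ∑ σ, ‖z σ (φ y) - bdry ν w σ (φ y)‖ ^ 2 =
        ∑ σ ∈ (Q.lab (φ y)).powerset, ‖z σ (φ y) - bdry ν w σ (φ y)‖ ^ 2 := by
      refine (sum_subset (subset_univ _) fun σ _ hσ => ?_).symm
      exact hD0 σ _ fun h1 => hσ (mem_powerset.2 h1)
    rw [e1]
    have e2 : ∑ σ ∈ (Q.lab (φ y)).powerset, ‖z σ (φ y) - bdry ν w σ (φ y)‖ ^ 2 =
        ∑ σ' ∈ (Q.lab (φ y)).powerset.image (fun σ => liftS Q' ψ σ y),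
          ‖z' σ' y - bdry ν' w' σ' y‖ ^ 2 := by
      rw [sum_image]
      · exact sum_congr rfl fun σ hσ => hD1 σ y (mem_powerset.1 hσ)
      · intro a ha b hb hab
        have h1 := image_liftS h (mem_powerset.1 ha)
        have h2 := image_liftS h (mem_powerset.1 hb)
        rw [← h1, ← h2]
        exact congrArg (Finset.image ψ) hab
    rw [e2]
    exact sum_le_sum_of_subset_of_nonneg (subset_univ _) fun _ _ _ => sq_nonneg _
  · exact (summable_sum fun σ _ => hs1 σ).comp_injective (Equiv.ofBijective φ hφ).injective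

end L2

/-! ### Deck groups -/

section Deck

variable {V X V' X' : Type} [DecidableEq V] [DecidableEq V'] {Q' : CubeComplex V' X'}
  {Q : CubeComplex V X} {ψ : V' → V} {φ : X' → X}

/-- induction on the universal cover -/
theorem cover_induct (Q : CubeComplex V X) (x : X) (P : Q.Cover x → Prop)
    (h0 : P (Quot.mk _ ⟨[], trivial⟩))
    (hs : ∀ c v, v ∈ Q.lab (Q.proj x c) → P c → P (Q.nbc x v c)) (c : Q.Cover x) : P c := by
  induction c using Quot.ind with
  | mk l =>
    obtain ⟨l, hl⟩ := l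
    induction l using List.reverseRecOn with
    | nil => exact h0
    | append_singleton l v ih =>
      obtain ⟨h1, h2, -⟩ := (Q.isPath_append x l [v]).1 hl
      have h3 := hs (Quot.mk _ ⟨l, h1⟩) v h2 (ih h1)
      rwa [Q.nbc_mk x v ⟨l, h1⟩ h2] at h3

theorem proj_nbc' (Q : CubeComplex V X) (x : X) {c : Q.Cover x} {v : V}
    (hv : v ∈ Q.lab (Q.proj x c)) : Q.proj x (Q.nbc x v c) = Q.nb v (Q.proj x c) := by
  induction c using Quot.ind with
  | mk l =>
    rw [Q.nbc_mk x v l hv]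
    show Q.fin x (l.1 ++ [v]) = Q.nb v (Q.fin x l.1)
    rw [CubeComplex.fin_append]
    rfl

variable (h : IsCov Q' Q ψ φ) (y : X') {Γ : Type} [Group Γ] [MulAction Γ (Q.Cover (φ y))]

/-- the deck transformations of `Q` which are deck transformations of `Q'` -/
noncomputable def deckSub (Γ : Type) [Group Γ] [MulAction Γ (Q.Cover (φ y))] : Subgroup Γ where
  carrier := {γ | ∀ c, Q'.proj y (h.up y (γ • h.down y c)) = Q'.proj y c}
  mul_mem' := by
    intro a b ha hb c
    have h1 := ha (h.up y (b • h.down y c))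
    rw [h.down_up, hb c] at h1
    rw [mul_smul]
    exact h1
  one_mem' := by
    intro c
    rw [one_smul, h.up_down]
  inv_mem' := by
    intro a ha c
    have h1 := ha (h.up y (a⁻¹ • h.down y c))
    rw [h.down_up, smul_inv_smul, h.up_down] at h1
    exact h1.symm

/-- the action -/
noncomputable def deckAct : MulAction (deckSub h y Γ) (Q'.Cover y) where
  smul γ c := h.up y ((γ : Γ) • h.down y c)
  one_smul c := by
    show h.up y ((1 : Γ) • h.down y c) = c
    rw [one_smul, h.up_down]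
  mul_smul a b c := by
    show h.up y (((a : Γ) * (b : Γ)) • h.down y c) =
      h.up y ((a : Γ) • h.down y (h.up y ((b : Γ) • h.down y c)))
    rw [h.down_up, mul_smul]

theorem isDeck_cov (hΓ : IsDeck Γ Q (φ y)) :
    letI := deckAct h y (Γ := Γ)
    IsDeck (deckSub h y Γ) Q' y := by
  letI := deckAct h y (Γ := Γ)
  have hsm : ∀ (γ : deckSub h y Γ) (c : Q'.Cover y),
      h.down y (γ • c) = (γ : Γ) • h.down y c := fun γ c => h.down_up y _
  have hinj := (h.down_bij y).1
  -- the main computation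
  have key : ∀ (γ : Γ) (c : Q'.Cover y) (v : V'), v ∈ Q'.lab (Q'.proj y c) →
      Q'.proj y (h.up y (γ • h.down y c)) = Q'.proj y c →
      h.up y (γ • h.down y (Q'.nbc y v c)) = Q'.nbc y v (h.up y (γ • h.down y c)) := by
    intro γ c v hv hp
    apply hinj
    have hv2 : v ∈ Q'.lab (Q'.proj y (h.up y (γ • h.down y c))) := hp ▸ hv
    have hv3 : ψ v ∈ Q.lab (Q.proj (φ y) (h.down y c)) := by
      rw [h.proj_down]
      exact h.lab' _ v hv
    rw [h.down_up, h.down_nbc y _ hv2, h.down_up, h.down_nbc y _ hv, hΓ.nb γ _ _ hv3]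
  have step : ∀ (γ : Γ) (c : Q'.Cover y) (v : V'), v ∈ Q'.lab (Q'.proj y c) →
      Q'.proj y (h.up y (γ • h.down y c)) = Q'.proj y c →
      Q'.proj y (h.up y (γ • h.down y (Q'.nbc y v c))) = Q'.proj y (Q'.nbc y v c) := by
    intro γ c v hv hp
    rw [key γ c v hv hp, proj_nbc' Q' y hv, proj_nbc' Q' y (hp ▸ hv), hp]
  refine ⟨fun γ v c hv => ?_, fun γ c => γ.2 c, fun c c' hcc => ?_, fun γ c hc => ?_⟩
  · exact (key γ c v hv (γ.2 c)).symm
  · obtain ⟨γ, hγ⟩ := hΓ.trans (h.down y c) (h.down y c') (by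
      rw [h.proj_down, h.proj_down, hcc])
    have hP : Q'.proj y (h.up y (γ • h.down y c)) = Q'.proj y c := by
      rw [hγ, h.up_down, hcc]
    -- the property spreads over the cover
    let P : Q'.Cover y → Prop := fun c => Q'.proj y (h.up y (γ • h.down y c)) = Q'.proj y c
    have hback : ∀ c v, v ∈ Q'.lab (Q'.proj y c) → P (Q'.nbc y v c) → P c := by
      intro c v hv hp
      have h1 : v ∈ Q'.lab (Q'.proj y (Q'.nbc y v c)) := by
        rw [proj_nbc' Q' y hv]
        exact Q'.lab_nb v _ hv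
      have h2 := step γ _ v h1 hp
      have h3 : Q'.nbc y v (Q'.nbc y v c) = c := (Q'.cover y).nb_nb v c hv
      rw [h3] at h2
      exact h2
    have h0 : P (Quot.mk _ ⟨[], trivial⟩) := by
      have h1 : P c → P (Quot.mk _ ⟨[], trivial⟩) :=
        cover_induct Q' y (fun c => P c → P (Quot.mk _ ⟨[], trivial⟩)) id
          (fun c v hv ih hp => ih (hback c v hv hp)) c
      exact h1 hP
    have hall : ∀ c, P c := cover_induct Q' y P h0 fun c v hv hp => step γ c v hv hp
    refine ⟨⟨γ, hall⟩, ?_⟩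
    apply hinj
    rw [hsm]
    exact hγ
  · apply Subtype.ext
    refine hΓ.free _ (h.down y c) ?_
    rw [← hsm, hc]

end Deck

/-! ### The relabelled covering -/

section Rel

variable {V X : Type} [DecidableEq V] (Q : CubeComplex V X)

/-- the completed involutions -/
def csp (v : V) : Equiv.Perm X := ⟨Q.cs v, Q.cs v, Q.isSpec.inv v, Q.isSpec.inv v⟩

/-- the finite group -/
abbrev PG (V X : Type) : Type := Finset V → Equiv.Perm X

/-- its generators -/
def gP (v : V) : PG V X := fun T => if v ∈ T then csp Q v else 1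

/-- the retractions -/
def ret (T : Finset V) : PG V X →* PG V X where
  toFun p S := p (S ∩ T)
  map_one' := rfl
  map_mul' _ _ := rfl

theorem ret_gP (T : Finset V) (v : V) : ret T (gP Q v) = if v ∈ T then gP Q v else 1 := by
  funext S
  show (if v ∈ S ∩ T then csp Q v else 1) = _
  by_cases hT : v ∈ T
  · rw [if_pos hT]
    show _ = if v ∈ S then csp Q v else 1
    simp only [mem_inter, hT, and_true]
  · rw [if_neg hT, if_neg (fun h => hT (mem_inter.1 h).2)]
    rfl

theorem gP_sq (v : V) : gP Q v * gP Q v = 1 := by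
  funext S
  show (if v ∈ S then csp Q v else 1) * (if v ∈ S then csp Q v else 1) = 1
  by_cases hS : v ∈ S
  · rw [if_pos hS]
    exact Equiv.ext fun x => Q.isSpec.inv v x
  · rw [if_neg hS, one_mul]

theorem gP_comm (u v : V) (huv : Q.graph.Adj u v) : gP Q u * gP Q v = gP Q v * gP Q u := by
  funext S
  show (if u ∈ S then csp Q u else 1) * (if v ∈ S then csp Q v else 1) =
    (if v ∈ S then csp Q v else 1) * (if u ∈ S then csp Q u else 1)
  by_cases hu : u ∈ S <;> by_cases hv : v ∈ S <;> simp only [hu, hv, if_true, if_false, one_mul,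
    mul_one]
  exact Equiv.ext fun x => Q.isSpec.comm u v huv x

/-- the subgroup generated by the star of `v` -/
def HH (v : V) : Subgroup (PG V X) := Subgroup.closure (gP Q '' {u | u = v ∨ Q.graph.Adj v u})

theorem gP_mem_HH {u v : V} (h : u = v ∨ Q.graph.Adj v u) : gP Q u ∈ HH Q v :=
  Subgroup.subset_closure ⟨u, h, rfl⟩

/-- the action on the vertices -/
def actX (p : PG V X) (x : X) [Fintype V] : X := (p univ)⁻¹ x

theorem actX_mul [Fintype V] (p q : PG V X) (x : X) : actX (p * q) x = actX q (actX p x) := by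
  show ((p * q) univ)⁻¹ x = (q univ)⁻¹ ((p univ)⁻¹ x)
  rw [Pi.mul_apply, mul_inv_rev]
  rfl

theorem actX_one [Fintype V] (x : X) : actX (1 : PG V X) x = x := by
  show ((1 : PG V X) univ)⁻¹ x = x
  rw [Pi.one_apply, inv_one]
  rfl

theorem actX_gP [Fintype V] (v : V) (x : X) : actX (gP Q v) x = Q.cs v x := by
  show (gP Q v univ)⁻¹ x = _
  have h1 : gP Q v univ = csp Q v := if_pos (mem_univ v)
  rw [h1]
  rfl

/-- invariant predicates -/
theorem actX_pred [Fintype V] (A : X → Prop) (T : Set V)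
    (hA : ∀ t ∈ T, ∀ x, A x → A (Q.cs t x)) {β : PG V X}
    (hβ : β ∈ Subgroup.closure (gP Q '' T)) : ∀ x, A x ↔ A (actX β x) := by
  induction hβ using Subgroup.closure_induction with
  | mem a ha =>
    obtain ⟨t, ht, rfl⟩ := ha
    intro x
    rw [actX_gP]
    refine ⟨hA t ht x, fun hx => ?_⟩
    have h1 := hA t ht _ hx
    rwa [Q.isSpec.inv] at h1
  | one =>
    intro x
    rw [actX_one]
  | mul a b _ _ iha ihb =>
    intro x
    rw [actX_mul]
    exact (iha x).trans (ihb _)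
  | inv a _ ih =>
    intro x
    have h1 := ih (actX a⁻¹ x)
    rw [← actX_mul, inv_mul_cancel, actX_one] at h1
    exact h1.symm

theorem ret_fix {T : Set V} {T' : Finset V} (hT : ∀ t ∈ T, t ∈ T') {β : PG V X}
    (hβ : β ∈ Subgroup.closure (gP Q '' T)) : ret T' β = β := by
  have h1 : Set.EqOn (ret T' : PG V X →* PG V X) (MonoidHom.id _) (gP Q '' T) := by
    rintro _ ⟨t, ht, rfl⟩
    show ret T' (gP Q t) = gP Q t
    rw [ret_gP, if_pos (hT t ht)]
  exact MonoidHom.eqOn_closure h1 hβ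

theorem ret_mem {T : Set V} (T' : Finset V) {β : PG V X}
    (hβ : β ∈ Subgroup.closure (gP Q '' T)) :
    ret T' β ∈ Subgroup.closure (gP Q '' (T ∩ {t | t ∈ T'})) := by
  induction hβ using Subgroup.closure_induction with
  | mem a ha =>
    obtain ⟨t, ht, rfl⟩ := ha
    rw [ret_gP]
    by_cases h1 : t ∈ T'
    · rw [if_pos h1]
      exact Subgroup.subset_closure ⟨t, ⟨ht, h1⟩, rfl⟩
    · rw [if_neg h1]
      exact one_mem _
  | one =>
    rw [map_one]
    exact one_mem _
  | mul a b _ _ iha ihb =>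
    rw [map_mul]
    exact mul_mem iha ihb
  | inv a _ ih =>
    rw [map_inv]
    exact inv_mem ih

/-- the new labels -/
def RV : Type := Σ v : V, PG V X ⧸ HH Q v

noncomputable instance : DecidableEq (RV Q) := Classical.decEq _

/-- the new label of the `v`-edge at the position `p` -/
def lb (v : V) (p : PG V X) : RV Q := ⟨v, (p : PG V X ⧸ HH Q v)⟩

theorem lb_eq {v : V} {p q : PG V X} : lb Q v p = lb Q v q ↔ p⁻¹ * q ∈ HH Q v := by
  rw [← QuotientGroup.eq]
  constructor
  · intro h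
    exact eq_of_heq (Sigma.mk.inj h).2
  · intro h
    show (⟨v, _⟩ : Σ v : V, PG V X ⧸ HH Q v) = ⟨v, _⟩
    rw [h]

theorem lb_star {u v : V} (h : u = v ∨ Q.graph.Adj v u) (p : PG V X) :
    lb Q v (p * gP Q u) = lb Q v p := by
  rw [lb_eq, mul_inv_rev, inv_mul_cancel_right]
  exact inv_mem (gP_mem_HH Q h)

/-- vertices of the new complex -/
abbrev Tri : Type := PG V X × X × (RV Q → ZMod 2)

/-- the neighbour -/
noncomputable def mv (v : V) (y : Tri Q) : Tri Q :=
  (y.1 * gP Q v, Q.nb v y.2.1, fun u' => y.2.2 u' + if u' = lb Q v y.1 then 1 else 0)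

/-- reachable vertices -/
inductive Reach (x₀ : X) : Tri Q → Prop
  | base : Reach x₀ (1, x₀, fun _ => 0)
  | step (y : Tri Q) (v : V) : Reach x₀ y → v ∈ Q.lab y.2.1 → Reach x₀ (mv Q v y)

/-- the vertices of the new complex -/
def RX (x₀ : X) : Type := {y : Tri Q // Reach Q x₀ y}

/-- the labels at a vertex -/
noncomputable def rlab (y : Tri Q) : Finset (RV Q) := (Q.lab y.2.1).image fun v => lb Q v y.1

theorem mem_rlab {y : Tri Q} {v' : RV Q} :
    v' ∈ rlab Q y ↔ v'.1 ∈ Q.lab y.2.1 ∧ v' = lb Q v'.1 y.1 := by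
  unfold rlab
  rw [mem_image]
  constructor
  · rintro ⟨v, hv, rfl⟩
    exact ⟨hv, rfl⟩
  · rintro ⟨h1, h2⟩
    exact ⟨v'.1, h1, h2.symm⟩

theorem mv_mv {y : Tri Q} {v : V} (hv : v ∈ Q.lab y.2.1) : mv Q v (mv Q v y) = y := by
  obtain ⟨p, x, b⟩ := y
  refine Prod.ext ?_ (Prod.ext ?_ ?_)
  · show p * gP Q v * gP Q v = p
    rw [mul_assoc, gP_sq, mul_one]
  · exact Q.nb_nb v x hv
  · funext u'
    show b u' + (if u' = lb Q v p then 1 else 0) + (if u' = lb Q v (p * gP Q v) then 1 else 0) =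
      b u'
    rw [lb_star Q (Or.inl rfl), add_assoc, CharTwo.add_self_eq_zero, add_zero]

theorem mv_comm {y : Tri Q} {u v : V} (huv : Q.graph.Adj u v) (hu : u ∈ Q.lab y.2.1)
    (hv : v ∈ Q.lab y.2.1) : mv Q u (mv Q v y) = mv Q v (mv Q u y) := by
  obtain ⟨p, x, b⟩ := y
  refine Prod.ext ?_ (Prod.ext ?_ ?_)
  · show p * gP Q v * gP Q u = p * gP Q u * gP Q v
    rw [mul_assoc, mul_assoc, gP_comm Q u v huv]
  · exact Q.nb_comm u v x huv hu hv
  · funext u'
    show b u' + (if u' = lb Q v p then 1 else 0) + (if u' = lb Q u (p * gP Q v) then 1 else 0) =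
      b u' + (if u' = lb Q u p then 1 else 0) + (if u' = lb Q v (p * gP Q u) then 1 else 0)
    rw [lb_star Q (Or.inr huv), lb_star Q (Or.inr huv.symm)]
    ring

/-- **The relabelled covering.** -/
noncomputable def rel (x₀ : X) : CubeComplex (RV Q) (RX Q x₀) where
  graph :=
    { Adj := fun u' v' => Q.graph.Adj u'.1 v'.1 ∧
        ∃ y : RX Q x₀, u' ∈ rlab Q y.1 ∧ v' ∈ rlab Q y.1
      symm := ⟨fun _ _ h => ⟨h.1.symm, h.2.imp fun _ h1 => ⟨h1.2, h1.1⟩⟩⟩
      loopless := ⟨fun _ h => Q.graph.loopless.irrefl _ h.1⟩ }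
  lab y := rlab Q y.1
  nb v' y := open Classical in
    if h : v'.1 ∈ Q.lab y.1.2.1 then ⟨mv Q v'.1 y.1, Reach.step _ _ y.2 h⟩ else y
  lab_nb v' y hv := by
    rw [mem_rlab] at hv
    rw [dif_pos hv.1, mem_rlab]
    exact ⟨Q.lab_nb _ _ hv.1, hv.2.trans (lb_star Q (Or.inl rfl) _).symm⟩
  nb_nb v' y hv := by
    rw [mem_rlab] at hv
    have h1 : v'.1 ∈ Q.lab (mv Q v'.1 y.1).2.1 := Q.lab_nb _ _ hv.1
    rw [dif_pos hv.1, dif_pos h1]
    exact Subtype.ext (mv_mv Q hv.1)
  lab_adj u' v' y huv hu hv := by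
    rw [mem_rlab] at hu hv
    rw [dif_pos hv.1, mem_rlab]
    exact ⟨Q.lab_adj _ _ _ huv.1 hu.1 hv.1, hu.2.trans (lb_star Q (Or.inr huv.1) _).symm⟩
  nb_comm u' v' y huv hu hv := by
    rw [mem_rlab] at hu hv
    have h1 : u'.1 ∈ Q.lab (mv Q v'.1 y.1).2.1 := Q.lab_adj _ _ _ huv.1 hu.1 hv.1
    have h2 : v'.1 ∈ Q.lab (mv Q u'.1 y.1).2.1 := Q.lab_adj _ _ _ huv.1.symm hv.1 hu.1
    rw [dif_pos hv.1, dif_pos hu.1, dif_pos h1, dif_pos h2]
    exact Subtype.ext (mv_comm Q huv.1 hu.1 hv.1)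

variable {Q} {x₀ : X}

theorem rel_nb {v' : RV Q} {y : RX Q x₀} (hv : v' ∈ (rel Q x₀).lab y) :
    ((rel Q x₀).nb v' y).1 = mv Q v'.1 y.1 := by
  have h1 : v'.1 ∈ Q.lab y.1.2.1 := ((mem_rlab Q).1 hv).1
  show (dite _ _ _ : RX Q x₀).1 = _
  rw [dif_pos h1]

theorem rel_cov : IsCov (rel Q x₀) Q Sigma.fst (fun y => y.1.2.1) where
  lab y v hv := ⟨lb Q v y.1.1, (mem_rlab Q).2 ⟨hv, rfl⟩, rfl⟩
  lab' y v' hv' := ((mem_rlab Q).1 hv').1
  inj y u' hu' v' hv' he := by
    rw [((mem_rlab Q).1 hu').2, ((mem_rlab Q).1 hv').2, he]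
  nb y v' hv' := by
    show ((rel Q x₀).nb v' y).1.2.1 = _
    rw [rel_nb hv']
    rfl
  adj u' v' h := h.1
  adj' y u' hu' v' hv' h := ⟨h, y, hu', hv'⟩

theorem rel_bit : IsBit (rel Q x₀) (fun y v' => y.1.2.2 v') := by
  intro v' y hv u'
  show ((rel Q x₀).nb v' y).1.2.2 u' = _
  rw [rel_nb hv]
  show y.1.2.2 u' + (if u' = lb Q v'.1 y.1.1 then 1 else 0) = _
  rw [← ((mem_rlab Q).1 hv).2]

/-- the base point -/
def rbase (Q : CubeComplex V X) (x₀ : X) : RX Q x₀ := ⟨(1, x₀, fun _ => 0), Reach.base⟩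

theorem rel_surj : Function.Surjective ((rel Q x₀).proj (rbase Q x₀)) := by
  rintro ⟨y, hy⟩
  induction hy with
  | base => exact ⟨Quot.mk _ ⟨[], trivial⟩, rfl⟩
  | step y v hy hv ih =>
    obtain ⟨c, hc⟩ := ih
    have h1 : lb Q v y.1 ∈ (rel Q x₀).lab ((rel Q x₀).proj (rbase Q x₀) c) := by
      rw [hc]
      exact (mem_rlab Q).2 ⟨hv, rfl⟩
    refine ⟨(rel Q x₀).nbc (rbase Q x₀) (lb Q v y.1) c, ?_⟩
    rw [proj_nbc' _ _ h1]
    apply Subtype.ext
    rw [rel_nb h1, hc]
    rfl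

theorem reach_pos [Fintype V] {y : Tri Q} (hy : Reach Q x₀ y) : y.2.1 = actX y.1 x₀ := by
  induction hy with
  | base => exact (actX_one x₀).symm
  | step y v hy hv ih =>
    show Q.nb v y.2.1 = actX (y.1 * gP Q v) x₀
    rw [actX_mul, ← ih, actX_gP, Q.cs_of_mem hv]

theorem rel_dimLe {d : ℕ} (hd : DimLe Q d) : DimLe (rel Q x₀) d := by
  intro y σ hσ hc
  have h1 := hd y.1.2.1 (σ.image Sigma.fst) (image_sub rel_cov hσ) ((clique_iff rel_cov hσ).2 hc)
  exact (card_img rel_cov hσ).symm.le.trans h1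

/-- the retraction onto an intersection of subgroups -/
theorem ret_inter [Fintype V] (S : V → Finset V) (s : Finset V) {β : PG V X}
    (hβ : ∀ v ∈ s, ret (S v) β = β) : ret (univ.filter fun t => ∀ v ∈ s, t ∈ S v) β = β := by
  induction s using Finset.induction_on with
  | empty =>
    funext T
    show β (T ∩ _) = β T
    congr 1
    ext t
    simp
  | insert a s ha ih =>
    have h1 := ih fun v hv => hβ v (mem_insert_of_mem hv)
    have h2 := hβ a (mem_insert_self a s)
    funext T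
    show β (T ∩ _) = β T
    have e1 : T ∩ (univ.filter fun t => ∀ v ∈ insert a s, t ∈ S v) =
        (T ∩ univ.filter fun t => ∀ v ∈ s, t ∈ S v) ∩ S a := by
      ext t
      simp only [mem_inter, mem_filter, mem_univ, true_and, mem_insert, forall_eq_or_imp]
      tauto
    rw [e1]
    exact (congrFun h2 _).trans (congrFun h1 T)

theorem rel_maxCl [Fintype V] {d : ℕ} (hd0 : 0 < d) (hd : DimLe Q d) : MaxCl (rel Q x₀) d := by
  classical
  intro y σ' hσ' hc' hcard u'
  by_contra hcon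
  push_neg at hcon
  -- the cube and the label downstairs
  set σ : Finset V := σ'.image Sigma.fst with hσdef
  set u : V := u'.1 with hudef
  set x : X := y.1.2.1 with hxdef
  set p : PG V X := y.1.1 with hpdef
  have hσ : σ ⊆ Q.lab x := image_sub rel_cov hσ'
  have hc : Q.graph.IsClique (σ : Set V) := (clique_iff rel_cov hσ').2 hc'
  have hcd : σ.card = d := (card_img rel_cov hσ').trans hcard
  have hu : ∀ v ∈ σ, Q.graph.Adj v u := by
    intro v hv
    obtain ⟨v', hv', rfl⟩ := mem_image.1 hv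
    exact (hcon v' hv').1
  have huσ : u ∉ σ := fun hm => Q.graph.loopless.irrefl _ (hu u hm)
  have hbig : ∀ z, σ ⊆ Q.lab z → ∀ t, t ∉ σ → (∀ v ∈ σ, Q.graph.Adj v t) → t ∉ Q.lab z := by
    intro z hz t ht hadj htz
    have h1 := hd z (insert t σ) (insert_subset htz hz) (by
      intro a ha b hb hab
      rw [coe_insert, Set.mem_insert_iff, mem_coe] at ha hb
      rcases ha with rfl | ha <;> rcases hb with rfl | hb
      · exact absurd rfl hab
      · exact (hadj b hb).symm
      · exact hadj a ha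
      · exact hc ha hb hab)
    rw [card_insert_of_notMem ht, hcd] at h1
    omega
  have hx : x = actX p x₀ := reach_pos y.2
  -- the witnesses
  have hwit : ∀ v' ∈ σ', ∃ z : RX Q x₀, v' ∈ rlab Q z.1 ∧ u' ∈ rlab Q z.1 := fun v' hv' =>
    (hcon v' hv').2
  haveI : Nonempty (RX Q x₀) := ⟨y⟩
  choose! z hz1 hz2 using hwit
  have hw : ∀ v' ∈ σ', p⁻¹ * (z v').1.1 ∈ HH Q v'.1 := by
    intro v' hv'
    rw [← lb_eq Q]
    exact ((mem_rlab Q).1 (hσ' hv')).2.symm.trans ((mem_rlab Q).1 (hz1 v' hv')).2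
  have hzz : ∀ v' ∈ σ', ∀ w' ∈ σ', (z v').1.1⁻¹ * (z w').1.1 ∈ HH Q u := by
    intro v' hv' w' hw'
    rw [← lb_eq Q]
    exact ((mem_rlab Q).1 (hz2 v' hv')).2.symm.trans ((mem_rlab Q).1 (hz2 w' hw')).2
  -- the stars
  let St : V → Finset V := fun v => univ.filter fun t => t = v ∨ Q.graph.Adj v t
  have hSt : ∀ v t, t ∈ St v ↔ (t = v ∨ Q.graph.Adj v t) := fun v t => by
    simp only [St, mem_filter, mem_univ, true_and]
  have hfix : ∀ v, ∀ β ∈ HH Q v, ret (St v) β = β := fun v β hβ =>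
    ret_fix Q (fun t ht => (hSt v t).2 ht) hβ
  let w : RV Q → PG V X := fun v' => p⁻¹ * (z v').1.1
  let be : RV Q → PG V X := fun v' => w v' * (ret (St u) (w v'))⁻¹
  have hbe : ∀ v' ∈ σ', ∀ w' ∈ σ', be v' = be w' := by
    intro v' hv' w' hw'
    have h1 : (w v')⁻¹ * w w' ∈ HH Q u := by
      have h2 : (w v')⁻¹ * w w' = (z v').1.1⁻¹ * (z w').1.1 := by
        simp only [w]
        group
      rw [h2]
      exact hzz v' hv' w' hw'
    have h3 := hfix u _ h1
    rw [map_mul, map_inv] at h3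
    show w v' * (ret (St u) (w v'))⁻¹ = w w' * (ret (St u) (w w'))⁻¹
    have h4 : ret (St u) (w w') = ret (St u) (w v') * ((w v')⁻¹ * w w') := by
      rw [← h3]
      group
    rw [h4]
    group
  -- choose one label
  have hne : σ'.Nonempty := card_pos.1 (hcard ▸ hd0)
  obtain ⟨v₀, hv₀⟩ := hne
  have hbeH : ∀ v ∈ σ, be v₀ ∈ HH Q v := by
    intro v hv
    obtain ⟨v', hv', rfl⟩ := mem_image.1 hv
    rw [hbe v₀ hv₀ v' hv']
    refine mul_mem (hw v' hv') (inv_mem ?_)
    have h1 := ret_mem Q (St u) (hw v' hv')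
    exact Subgroup.closure_mono (Set.image_mono Set.inter_subset_left) h1
  have hbeI : ret (univ.filter fun t => ∀ v ∈ σ, t ∈ St v) (be v₀) = be v₀ :=
    ret_inter St σ fun v hv => hfix v _ (hbeH v hv)
  have hbeC : be v₀ ∈ Subgroup.closure (gP Q '' {t | ∀ v ∈ σ, t = v ∨ Q.graph.Adj v t}) := by
    have h1 : be v₀ ∈ HH Q v₀.1 := hbeH _ (mem_image_of_mem _ hv₀)
    have h2 := ret_mem Q (univ.filter fun t => ∀ v ∈ σ, t ∈ St v) h1
    rw [hbeI] at h2
    refine Subgroup.closure_mono (Set.image_mono ?_) h2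
    rintro t ⟨_, ht⟩
    simp only [Set.mem_setOf_eq, mem_filter, mem_univ, true_and] at ht
    exact fun v hv => (hSt v t).1 (ht v hv)
  -- the point `x β` is a vertex of a cube of type `σ`
  have hA := (actX_pred Q (fun x => σ ⊆ Q.lab x) _ (by
    intro t ht a ha
    by_cases hts : t ∈ σ
    · show σ ⊆ Q.lab (Q.cs t a)
      rw [Q.cs_of_mem (ha hts)]
      intro v hv
      rcases ht v hv with rfl | h1
      · exact Q.lab_nb _ _ (ha hv)
      · exact Q.lab_adj v t a h1 (ha hv) (ha hts)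
    · have h1 : t ∉ Q.lab a := by
        refine hbig a ha t hts fun v hv => ?_
        rcases ht v hv with rfl | h2
        · exact absurd hv hts
        · exact h2
      show σ ⊆ Q.lab (Q.cs t a)
      rw [Q.cs_of_not_mem h1]
      exact ha) hbeC x).1 hσ
  -- the existence of a `u`-edge
  have hB := (actX_pred Q (fun x => u ∈ Q.lab x) _ (by
    rintro t ⟨_, ht⟩ a ha
    have ht' := (hSt u t).1 ht
    show u ∈ Q.lab (Q.cs t a)
    by_cases hta : t ∈ Q.lab a
    · rw [Q.cs_of_mem hta]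
      rcases ht' with rfl | h1
      · exact Q.lab_nb _ _ ha
      · exact Q.lab_adj u t a h1 ha hta
    · rw [Q.cs_of_not_mem hta]
      exact ha) (ret_mem Q (St u) (hw v₀ hv₀)) (actX (be v₀) x))
  have h1 : actX (ret (St u) (p⁻¹ * (z v₀).1.1)) (actX (be v₀) x) = (z v₀).1.2.1 := by
    rw [← actX_mul]
    have e1 : be v₀ * ret (St u) (p⁻¹ * (z v₀).1.1) = p⁻¹ * (z v₀).1.1 := by
      show p⁻¹ * (z v₀).1.1 * (ret (St u) (p⁻¹ * (z v₀).1.1))⁻¹ *
        ret (St u) (p⁻¹ * (z v₀).1.1) = _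
      rw [inv_mul_cancel_right]
    rw [e1, reach_pos (z v₀).2, hx, ← actX_mul, mul_inv_cancel_left]
  rw [h1] at hB
  have h2 : u ∈ Q.lab (z v₀).1.2.1 := ((mem_rlab Q).1 (hz2 v₀ hv₀)).1
  exact hbig _ hA u huσ hu (hB.2 h2)

/-- **Relabelling.** Every finite complex `Q` of dimension at most `d` has a finite covering with bits and with
labels such that no label is adjacent to all labels of a cube of dimension `d`. -/
theorem exists_relabel [Fintype V] [Fintype X] (Q : CubeComplex V X) (x₀ : X) {d : ℕ}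
    (hd0 : 0 < d) (hd : DimLe Q d) :
    ∃ (V' X' : Type) (_ : DecidableEq V') (_ : Fintype V') (_ : Fintype X')
      (Q' : CubeComplex V' X') (y₀ : X') (bit' : X' → V' → ZMod 2) (ψ : V' → V) (φ : X' → X),
      φ y₀ = x₀ ∧ IsCov Q' Q ψ φ ∧ IsBit Q' bit' ∧ Function.Surjective (Q'.proj y₀) ∧
        DimLe Q' d ∧ MaxCl Q' d := by
  classical
  haveI : Finite (PG V X) := inferInstance
  haveI : Finite (RV Q) := inferInstanceAs (Finite (Σ v : V, PG V X ⧸ HH Q v))
  haveI : Finite (Tri Q) := inferInstance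
  haveI : Finite (RX Q x₀) := inferInstanceAs (Finite {y : Tri Q // Reach Q x₀ y})
  exact ⟨RV Q, RX Q x₀, inferInstance, Fintype.ofFinite _, Fintype.ofFinite _, rel Q x₀,
    rbase Q x₀, fun y v' => y.1.2.2 v', Sigma.fst, fun y => y.1.2.1, rfl, rel_cov, rel_bit,
    rel_surj, rel_dimLe hd, rel_maxCl hd0 hd⟩

/-- the reduction to complexes with bits in which the cubes of dimension `d` are maximal cliques -/
theorem relabel_reduce [Fintype V] [Fintype X] (Q : CubeComplex V X) (x₀ : X) {d : ℕ}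
    (hd0 : 0 < d) (hd : DimLe Q d) {Γ : Type} [Group Γ] [MulAction Γ (Q.Cover x₀)]
    (hΓ : IsDeck Γ Q x₀) :
    ∃ (V' X' : Type) (_ : DecidableEq V') (_ : Fintype V') (_ : Fintype X')
      (Q' : CubeComplex V' X') (y₀ : X') (bit' : X' → V' → ZMod 2),
      IsBit Q' bit' ∧ Function.Surjective (Q'.proj y₀) ∧ DimLe Q' d ∧ MaxCl Q' d ∧
      (∃ (Γ' : Subgroup Γ) (_ : MulAction Γ' (Q'.Cover y₀)), IsDeck Γ' Q' y₀) ∧
      ∀ i, L2HomologyZero (Q'.cover y₀) i → L2HomologyZero (Q.cover x₀) i := by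
  obtain ⟨V', X', i1, i2, i3, Q', y₀, bit', ψ, φ, rfl, hcov, hbit, hsurj, hdim, hmax⟩ :=
    exists_relabel Q x₀ hd0 hd
  exact ⟨V', X', i1, i2, i3, Q', y₀, bit', hbit, hsurj, hdim, hmax,
    ⟨deckSub hcov y₀ Γ, deckAct hcov y₀, isDeck_cov hcov y₀ hΓ⟩,
    fun i h => l2_of_cov (hcov.cover y₀) (hcov.down_bij y₀) i h⟩

end Rel

end Pool.Agent.H37.TM

end

section

/-!
# Project TM: the deck group of a complex with bits is torsion free

The deck group embeds into the right-angled Coxeter group, the letters of its elements have even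
multiplicity, so the integral Tits representation is `1` modulo four, and matrices which are `1` modulo
four have infinite order or are `1`. Hence proper actions are free.
-/

set_option autoImplicit false
set_option linter.unusedSectionVars false

open Finset Pointwise

namespace Pool.Agent.H37.TM

open Pool.Agent.H19.Cub Pool.Agent.H77.SX

section Mat

variable {V : Type} [DecidableEq V] [Fintype V]

private theorem TF_expand (C : Matrix V V ℤ) (k j : ℕ) :
    ∃ W : Matrix V V ℤ, (1 + (2 : ℤ) ^ k • C) ^ j =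
      1 + (2 : ℤ) ^ k • ((j : ℤ) • C) + ((2 : ℤ) ^ k * 2 ^ k) • W := by
  induction j with
  | zero => exact ⟨0, by simp⟩
  | succ j ih =>
    obtain ⟨W, hW⟩ := ih
    refine ⟨W + (j : ℤ) • (C * C) + (2 : ℤ) ^ k • (W * C), ?_⟩
    rw [pow_succ, hW]
    simp only [add_mul, mul_add, one_mul, mul_one, smul_mul_assoc, mul_smul_comm, smul_add,
      smul_smul, Nat.cast_succ]
    module

/-- divisible by all powers of two -/
private theorem TF_all {X : Matrix V V ℤ} (h : ∀ k, ∃ C : Matrix V V ℤ, X = 1 + (2 : ℤ) ^ (k + 2) • C) :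
    X = 1 := by
  by_contra hne
  have h1 : ∃ a b, (X - 1) a b ≠ 0 := by
    by_contra hcon
    push Not at hcon
    exact hne (sub_eq_zero.1 (Matrix.ext hcon))
  obtain ⟨a, b, hab⟩ := h1
  obtain ⟨N, hN⟩ : ∃ N, N = ((X - 1) a b).natAbs := ⟨_, rfl⟩
  obtain ⟨C, hC⟩ := h N
  have h2 : (X - 1) a b = (2 : ℤ) ^ (N + 2) * C a b := by
    have h3 := congrFun (congrFun hC a) b
    rw [Matrix.add_apply, Matrix.smul_apply, smul_eq_mul] at h3
    rw [Matrix.sub_apply, h3]
    ring
  have h3 : 2 ^ (N + 2) ∣ ((X - 1) a b).natAbs := by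
    have h4 : (2 : ℤ) ^ (N + 2) ∣ (X - 1) a b := ⟨_, h2⟩
    have h5 := Int.natAbs_dvd_natAbs.mpr h4
    rwa [Int.natAbs_pow] at h5
  have h4 := Nat.le_of_dvd (Int.natAbs_pos.mpr hab) h3
  rw [← hN] at h4
  have h5 : N < 2 ^ N := Nat.lt_two_pow_self
  have h6 : 2 ^ N ≤ 2 ^ (N + 2) := Nat.pow_le_pow_right (by norm_num) (by omega)
  omega

private theorem TF_prime {X : Matrix V V ℤ} (hX : ∃ C : Matrix V V ℤ, X = 1 + (2 : ℤ) ^ 2 • C)
    {p : ℕ} (hp : p.Prime) (h : X ^ p = 1) : X = 1 := by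
  refine TF_all fun k => ?_
  induction k with
  | zero => exact hX
  | succ k ih =>
    obtain ⟨C, hC⟩ := ih
    have key : ∃ D : Matrix V V ℤ, C = (2 : ℤ) • D := by
      rcases hp.eq_two_or_odd' with rfl | hodd
      · have h1 : (2 : ℤ) ^ (k + 3) • (C + (2 : ℤ) ^ (k + 1) • (C * C)) = 0 := by
          have h2 : X ^ 2 - 1 = 0 := by rw [h, sub_self]
          rw [hC, sq] at h2
          rw [← h2]
          simp only [add_mul, mul_add, one_mul, mul_one, smul_mul_assoc, mul_smul_comm, smul_add,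
            smul_smul]
          have e1 : (2 : ℤ) ^ (k + 3) = 2 ^ (k + 2) + 2 ^ (k + 2) := by ring
          have e2 : (2 : ℤ) ^ (k + 3) * 2 ^ (k + 1) = 2 ^ (k + 2) * 2 ^ (k + 2) := by ring
          rw [e2, e1]
          module
        have h3 : C + (2 : ℤ) ^ (k + 1) • (C * C) = 0 := by
          rcases smul_eq_zero.mp h1 with h4 | h4
          · exact absurd h4 (by positivity)
          · exact h4
        refine ⟨-((2 : ℤ) ^ k • (C * C)), ?_⟩
        have h4 : C = -((2 : ℤ) ^ (k + 1) • (C * C)) := eq_neg_of_add_eq_zero_left h3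
        conv_lhs => rw [h4]
        rw [smul_neg, smul_smul]
        congr 2
        ring
      · obtain ⟨W, hW⟩ := TF_expand C (k + 2) p
        rw [← hC, h] at hW
        have h1 : (2 : ℤ) ^ (k + 2) • ((p : ℤ) • C + (2 : ℤ) ^ (k + 2) • W) = 0 := by
          rw [add_assoc] at hW
          rw [← left_eq_add.mp hW]
          simp only [smul_add, smul_smul]
        have h3 : (p : ℤ) • C + (2 : ℤ) ^ (k + 2) • W = 0 := by
          rcases smul_eq_zero.mp h1 with h4 | h4
          · exact absurd h4 (by positivity)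
          · exact h4
        obtain ⟨q, hq⟩ := hodd
        refine ⟨-((q : ℤ) • C) - (2 : ℤ) ^ (k + 1) • W, ?_⟩
        have h4 : (p : ℤ) = 2 * q + 1 := by rw [hq]; push_cast; ring
        rw [h4] at h3
        have e1 : (2 : ℤ) ^ (k + 2) = 2 * 2 ^ (k + 1) := by ring
        rw [e1] at h3
        have h5 : C - ((2 : ℤ) • (-((q : ℤ) • C) - (2 : ℤ) ^ (k + 1) • W)) = 0 := by
          rw [← h3]
          module
        exact sub_eq_zero.mp h5
    obtain ⟨D, hD⟩ := key
    refine ⟨D, ?_⟩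
    rw [hC, hD, smul_smul]
    congr 2

private theorem TF_mul {X Y : Matrix V V ℤ} (hX : ∃ C : Matrix V V ℤ, X = 1 + (2 : ℤ) ^ 2 • C)
    (hY : ∃ C : Matrix V V ℤ, Y = 1 + (2 : ℤ) ^ 2 • C) :
    ∃ C : Matrix V V ℤ, X * Y = 1 + (2 : ℤ) ^ 2 • C := by
  obtain ⟨C, rfl⟩ := hX
  obtain ⟨D, rfl⟩ := hY
  refine ⟨C + D + (2 : ℤ) ^ 2 • (C * D), ?_⟩
  simp only [add_mul, mul_add, one_mul, mul_one, smul_mul_assoc, mul_smul_comm, smul_add, smul_smul]
  module

private theorem TF_pow {X : Matrix V V ℤ} (hX : ∃ C : Matrix V V ℤ, X = 1 + (2 : ℤ) ^ 2 • C)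
    (m : ℕ) : ∃ C : Matrix V V ℤ, X ^ m = 1 + (2 : ℤ) ^ 2 • C := by
  induction m with
  | zero => exact ⟨0, by simp⟩
  | succ m ih => rw [pow_succ]; exact TF_mul ih hX

/-- a matrix of finite order which is `1` modulo four is `1` -/
theorem mat_torsion {X : Matrix V V ℤ} (hX : ∃ C : Matrix V V ℤ, X = 1 + (2 : ℤ) ^ 2 • C)
    {m : ℕ} (hm : 0 < m) (h : X ^ m = 1) : X = 1 := by
  induction m using Nat.strong_induction_on with
  | _ m ih =>
    by_cases h1 : m = 1
    · simpa [h1] using h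
    · obtain ⟨q, hq⟩ := m.minFac_dvd
      have hp := m.minFac_prime h1
      have hq0 : 0 < q := by
        rcases Nat.eq_zero_or_pos q with h0 | h0
        · rw [h0, mul_zero] at hq; omega
        · exact h0
      have hqm : q < m := by
        have := hp.two_le
        nlinarith
      refine ih q hqm hq0 (TF_prime (TF_pow hX q) hp ?_)
      rw [← pow_mul, mul_comm, ← hq, h]

end Mat

/-! ### The right-angled Coxeter group -/

section Racg

open Pool.Agent.H4.Singer
open Pool.Agent.H4.FC (kR titsHom titsHom_simple tits_injective refl_rel refl_map)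

variable {V : Type} [DecidableEq V] [Fintype V]

open Classical in
/-- half of the canonical form -/
private noncomputable def TF_h (G : SimpleGraph V) (u v : V) : ℤ :=
  if u = v then 1 else if G.Adj u v then 0 else -1

/-- the canonical form -/
private noncomputable def TF_k (G : SimpleGraph V) (u v : V) : ℤ := 2 * TF_h G u v

private theorem TF_cast (G : SimpleGraph V) (u v : V) :
    ((TF_k G u v : ℤ) : ℝ) = kR (racg G) u v := by
  unfold TF_k TF_h kR
  by_cases h1 : u = v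
  · subst h1
    rw [racg_self]
    simp
  · rw [if_neg h1]
    by_cases h2 : G.Adj u v
    · rw [racg_adj G h2, if_pos h2]
      simp
    · rw [racg_not_adj G h1 h2, if_neg h2]
      simp

private theorem TF_reflmap (G : SimpleGraph V) (v : V) :
    (Int.castRingHom ℝ).mapMatrix (Pool.Agent.H4.FC.refl (TF_k G) v) = Pool.Agent.H4.FC.refl (kR (racg G)) v := by
  show (Pool.Agent.H4.FC.refl (TF_k G) v).map (Int.castRingHom ℝ) = _
  rw [refl_map]
  congr 1
  funext a b
  exact TF_cast G a b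

private theorem TF_mapinj : Function.Injective
    ((Int.castRingHom ℝ).mapMatrix : Matrix V V ℤ →+* Matrix V V ℝ) :=
  Matrix.map_injective Int.cast_injective

/-- the integral Tits representation -/
private theorem TF_exists_rep (G : SimpleGraph V) : ∃ T : RGrp G →* Matrix V V ℤ,
    Function.Injective T ∧ ∀ v, T (gen G v) = Pool.Agent.H4.FC.refl (TF_k G) v := by
  have hrel : (racg G).IsLiftable (Pool.Agent.H4.FC.refl (TF_k G)) := by
    intro u v
    apply TF_mapinj
    rw [map_pow, map_mul, map_one, TF_reflmap, TF_reflmap]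
    exact refl_rel (racg G) u v
  let T : RGrp G →* Matrix V V ℤ := (racg G).toCoxeterSystem.lift ⟨Pool.Agent.H4.FC.refl (TF_k G), hrel⟩
  have hTs : ∀ v, T ((racg G).toCoxeterSystem.simple v) = Pool.Agent.H4.FC.refl (TF_k G) v :=
    fun v => (racg G).toCoxeterSystem.lift_apply_simple hrel v
  have hg : ((Int.castRingHom ℝ).mapMatrix : Matrix V V ℤ →+* Matrix V V ℝ).toMonoidHom.comp T =
      titsHom (racg G) := by
    apply (racg G).toCoxeterSystem.ext_simple
    intro v
    show (Int.castRingHom ℝ).mapMatrix (T ((racg G).toCoxeterSystem.simple v)) = _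
    rw [titsHom_simple, hTs]
    exact TF_reflmap G v
  refine ⟨T, ?_, fun v => ?_⟩
  · intro x y hxy
    apply tits_injective (racg G)
    rw [← hg]
    show (Int.castRingHom ℝ).mapMatrix (T x) = (Int.castRingHom ℝ).mapMatrix (T y)
    rw [hxy]
  · have h1 := hTs v
    rwa [(racg G).toCoxeterSystem_simple] at h1

/-- a word with letters of even multiplicity is `1` modulo four -/
private theorem TF_word (G : SimpleGraph V) {T : RGrp G →* Matrix V V ℤ}
    (hT : ∀ v, T (gen G v) = Pool.Agent.H4.FC.refl (TF_k G) v) (l : List V) :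
    ∃ C : Matrix V V ℤ, T (CubeComplex.wd G l) = 1 +
      (2 : ℤ) • (l.map fun v => (Matrix.of fun i j => if i = v then -TF_h G v j else 0 :
        Matrix V V ℤ)).sum + (2 : ℤ) ^ 2 • C := by
  induction l with
  | nil => exact ⟨0, by simp [CubeComplex.wd]⟩
  | cons v l ih =>
    obtain ⟨C, hC⟩ := ih
    have h1 : CubeComplex.wd G (v :: l) = gen G v * CubeComplex.wd G l := by
      simp [CubeComplex.wd]
    obtain ⟨A, hA⟩ : ∃ A : Matrix V V ℤ,
      A = Matrix.of fun i j => if i = v then -TF_h G v j else 0 := ⟨_, rfl⟩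
    have h2 : Pool.Agent.H4.FC.refl (TF_k G) v = 1 + (2 : ℤ) • A := by
      ext i j
      rw [hA]
      unfold Pool.Agent.H4.FC.refl TF_k
      simp only [Matrix.sub_apply, Matrix.add_apply, Matrix.smul_apply, Matrix.of_apply,
        smul_eq_mul]
      split_ifs <;> ring
    obtain ⟨S, hS⟩ : ∃ S : Matrix V V ℤ, S = (l.map fun v => (Matrix.of fun i j =>
      if i = v then -TF_h G v j else 0 : Matrix V V ℤ)).sum := ⟨_, rfl⟩
    rw [← hS] at hC
    refine ⟨C + A * S + (2 : ℤ) • (A * C), ?_⟩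
    rw [List.map_cons, List.sum_cons, ← hS, ← hA, h1, map_mul, hT, hC, h2]
    simp only [add_mul, mul_add, one_mul, mul_one, smul_mul_assoc, mul_smul_comm, smul_add,
      smul_smul]
    module

/-- **torsion in the right-angled Coxeter group** -/
theorem racg_torsion (G : SimpleGraph V) (l : List V) (hl : ∀ v, Even (l.count v)) {m : ℕ}
    (hm : 0 < m) (h : CubeComplex.wd G l ^ m = 1) : CubeComplex.wd G l = 1 := by
  obtain ⟨T, hinj, hT⟩ := TF_exists_rep G
  apply hinj
  rw [map_one]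
  refine mat_torsion ?_ hm (by rw [← map_pow, h, map_one])
  obtain ⟨C, hC⟩ := TF_word G hT l
  choose q hq using fun v => (hl v)
  refine ⟨(∑ v ∈ l.toFinset, q v • (Matrix.of fun i j => if i = v then -TF_h G v j else 0 :
    Matrix V V ℤ)) + C, ?_⟩
  rw [hC, Finset.sum_list_map_count]
  have h1 : ∀ v, List.count v l • (Matrix.of fun i j => if i = v then -TF_h G v j else 0 :
      Matrix V V ℤ) = (2 : ℤ) • (q v • (Matrix.of fun i j => if i = v then -TF_h G v j else 0 :
      Matrix V V ℤ)) := by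
    intro v
    conv_lhs => rw [hq v]
    rw [add_smul, two_smul]
  simp only [h1]
  rw [← Finset.smul_sum, smul_smul, smul_add, add_assoc]
  norm_num

end Racg

/-! ### Deck groups -/

section DeckT

open Pool.Agent.H4.Singer

variable {V X : Type} [DecidableEq V] [Fintype V] {Q : CubeComplex V X} {x₀ : X}
  {bit : X → V → ZMod 2}

theorem bit_fin (hbit : IsBit Q bit) {x : X} {l : List V} (hl : Q.IsPath x l) (u : V) :
    bit (Q.fin x l) u = bit x u + (l.count u : ZMod 2) := by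
  induction l generalizing x with
  | nil => simp [CubeComplex.fin]
  | cons v l ih =>
    obtain ⟨h1, h2⟩ := hl
    show bit (Q.fin (Q.nb v x) l) u = _
    rw [ih h2, hbit v x h1 u, List.count_cons]
    push_cast
    by_cases h : u = v
    · subst h
      simp
      ring
    · have h' : ¬ (v = u) := fun e => h e.symm
      simp [h, h']

/-- the base point of the cover -/
private def TF_b (Q : CubeComplex V X) (x₀ : X) : Q.Cover x₀ := Quot.mk _ ⟨[], trivial⟩

/-- the element of the Coxeter group of a deck transformation -/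
private noncomputable def TF_w (Q : CubeComplex V X) (x₀ : X) {Γ : Type} [Group Γ]
    [MulAction Γ (Q.Cover x₀)] (g : Γ) : RGrp Q.graph := (Q.emb x₀ (g • TF_b Q x₀)).2

private theorem TF_nbc {c : Q.Cover x₀} {v : V} (hv : v ∈ Q.lab (Q.proj x₀ c)) :
    (Q.emb x₀ (Q.nbc x₀ v c)).2 = (Q.emb x₀ c).2 * gen Q.graph v := by
  have h := Q.emb_cs x₀ v c hv
  rw [(Q.cover x₀).cs_of_mem hv] at h
  exact congrArg Prod.snd h

private theorem TF_smul {Γ : Type} [Group Γ] [MulAction Γ (Q.Cover x₀)] (hΓ : IsDeck Γ Q x₀)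
    (g : Γ) (c : Q.Cover x₀) : (Q.emb x₀ (g • c)).2 = TF_w Q x₀ g * (Q.emb x₀ c).2 := by
  refine cover_induct Q x₀ (fun c => (Q.emb x₀ (g • c)).2 = TF_w Q x₀ g * (Q.emb x₀ c).2) ?_ ?_ c
  · show TF_w Q x₀ g = TF_w Q x₀ g * 1
    rw [mul_one]
  · intro c v hv ih
    have h1 : v ∈ Q.lab (Q.proj x₀ (g • c)) := by rw [hΓ.proj]; exact hv
    show (Q.emb x₀ (g • Q.nbc x₀ v c)).2 = _
    rw [← hΓ.nb g v c hv, TF_nbc h1, TF_nbc hv, ih, mul_assoc]

private theorem TF_w_mul {Γ : Type} [Group Γ] [MulAction Γ (Q.Cover x₀)] (hΓ : IsDeck Γ Q x₀)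
    (g h : Γ) : TF_w Q x₀ (g * h) = TF_w Q x₀ g * TF_w Q x₀ h := by
  rw [TF_w, mul_smul, TF_smul hΓ]
  rfl

private theorem TF_w_pow {Γ : Type} [Group Γ] [MulAction Γ (Q.Cover x₀)] (hΓ : IsDeck Γ Q x₀)
    (g : Γ) (m : ℕ) : TF_w Q x₀ (g ^ m) = TF_w Q x₀ g ^ m := by
  induction m with
  | zero =>
    rw [pow_zero, pow_zero, TF_w, one_smul]
    rfl
  | succ m ih => rw [pow_succ, TF_w_mul hΓ, ih, pow_succ]

/-- **deck groups of complexes with bits are torsion free** -/
theorem deck_torsion (hbit : IsBit Q bit) {Γ : Type} [Group Γ] [MulAction Γ (Q.Cover x₀)]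
    (hΓ : IsDeck Γ Q x₀) {g : Γ} {m : ℕ} (hm : 0 < m) (h : g ^ m = 1) : g = 1 := by
  have h1 : TF_w Q x₀ g ^ m = 1 := by
    rw [← TF_w_pow hΓ, h, TF_w, one_smul]
    rfl
  have h2 : TF_w Q x₀ g = 1 := by
    obtain ⟨l, hl⟩ : ∃ l : {l : List V // Q.IsPath x₀ l}, Quot.mk _ l = g • TF_b Q x₀ :=
      Quot.exists_rep _
    have h3 : TF_w Q x₀ g = CubeComplex.wd Q.graph l.1 := by
      rw [TF_w, ← hl]
      rfl
    have h4 : Q.fin x₀ l.1 = x₀ := by
      have h5 := hΓ.proj g (TF_b Q x₀)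
      rw [← hl] at h5
      exact h5
    rw [h3] at h1 ⊢
    refine racg_torsion Q.graph l.1 (fun v => ?_) hm h1
    have h5 := bit_fin hbit l.2 v
    rw [h4] at h5
    have h6 : ((l.1.count v : ℕ) : ZMod 2) = 0 := by
      simpa using h5
    exact (ZMod.natCast_eq_zero_iff_even).mp h6
  have h3 : g • TF_b Q x₀ = TF_b Q x₀ := by
    apply Q.emb_injective x₀
    refine Prod.ext ?_ ?_
    · rw [Q.emb_fst, Q.emb_fst, hΓ.proj]
    · rw [TF_w] at h2
      rw [h2]
      rfl
  exact hΓ.free g _ h3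

end DeckT

/-! ### Proper actions -/

section Proper

open Pool.Agent.H65.RM

/-- a proper action of a torsion free group is free -/
theorem PAct.free {Γ U : Type} [Group Γ] [DecidableEq U] [MulAction Γ U] {M B : Set (Finset U)}
    (hA : PAct Γ M B) (hne : ∀ s ∈ M, s.Nonempty)
    (hdown : ∀ s ∈ M, ∀ t, t ⊆ s → t.Nonempty → t ∈ M)
    (htf : ∀ (g : Γ) (m : ℕ), 0 < m → g ^ m = 1 → g = 1) (g : Γ) (s : Finset U) (hs : s ∈ M)
    (h : g • s = s) : g = 1 := by
  obtain ⟨u, hu⟩ := hne s hs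
  have h1 : ∀ k : ℕ, g ^ k • s = s := by
    intro k
    induction k with
    | zero => rw [pow_zero, one_smul]
    | succ k ih => rw [pow_succ, mul_smul, h, ih]
  have h2 : ∀ k : ℕ, g ^ k • u ∈ s := by
    intro k
    have h3 := Finset.smul_mem_smul_finset (a := g ^ k) hu
    rwa [h1 k] at h3
  have h3 : (⋃ w ∈ s, {x : Γ | x • u = w}).Finite := by
    refine Set.Finite.biUnion s.finite_toSet fun w _ => ?_
    exact hA.proper u w (hdown s hs {u} (by simpa using hu) (by simp))
  have h4 : ∃ a b : ℕ, a ≠ b ∧ g ^ a = g ^ b := by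
    by_contra hcon
    push Not at hcon
    have hinj : Function.Injective fun k : ℕ => g ^ k := by
      intro a b hab
      by_contra hne'
      exact hcon a b hne' hab
    refine Set.infinite_range_of_injective hinj (h3.subset ?_)
    rintro x ⟨k, rfl⟩
    simp only [Set.mem_iUnion]
    exact ⟨_, h2 k, rfl⟩
  obtain ⟨a, b, hab, he⟩ := h4
  rcases lt_or_gt_of_ne hab with hlt | hlt
  · refine htf g (b - a) (by omega) ?_
    have h5 : g ^ a * g ^ (b - a) = g ^ a := by
      rw [← pow_add, Nat.add_sub_cancel' hlt.le, ← he]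
    exact mul_eq_left.mp h5
  · refine htf g (a - b) (by omega) ?_
    have h5 : g ^ b * g ^ (a - b) = g ^ b := by
      rw [← pow_add, Nat.add_sub_cancel' hlt.le, he]
    exact mul_eq_left.mp h5

theorem PAct.sub {Γ U : Type} [Group Γ] [DecidableEq U] [MulAction Γ U] {M B : Set (Finset U)}
    (hA : PAct Γ M B) (Γ' : Subgroup Γ) : PAct Γ' M B where
  K_mem g s hs := hA.K_mem g s hs
  B_mem g s hs := hA.B_mem g s hs
  proper u w hu := by
    have h := hA.proper u w hu
    exact (h.preimage (Subtype.val_injective.injOn) : _)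

/-- proper actions of deck groups of complexes with bits are free -/
theorem sact_of_proper {V X U Γ : Type} [DecidableEq V] [Fintype V] [DecidableEq U] [Group Γ]
    [MulAction Γ U] {Q : CubeComplex V X} {x₀ : X} [MulAction Γ (Q.Cover x₀)]
    {bit : X → V → ZMod 2} (hbit : IsBit Q bit) (hΓ : IsDeck Γ Q x₀) {M B : Set (Finset U)}
    (hA : PAct Γ M B) (hne : ∀ s ∈ M, s.Nonempty)
    (hdown : ∀ s ∈ M, ∀ t, t ⊆ s → t.Nonempty → t ∈ M) : SAct Γ M B where
  K_mem := hA.K_mem
  B_mem := hA.B_mem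
  free g s hs h := PAct.free hA hne hdown (fun g m hm h => deck_torsion hbit hΓ hm h) g s hs h

end Proper

end Pool.Agent.H37.TM

end

section

/-!
# Project S10, block M: the universal cover of a special cube complex is acyclic

The vertices of the universal cover of `Q` embed into the right-angled Coxeter group of `Q.graph` (`em`). A right
descent of the image of a vertex is the label of an edge at this vertex (`rd_lab`), because the completed involutions
do not increase the length. So the contraction of the Davis complex restricts to the universal cover (`dQ_exact`).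
-/

set_option autoImplicit false
set_option linter.unusedSectionVars false

open Finset

namespace Pool.Agent.S10

open Pool.Agent.H19.Cub Pool.Agent.H77.SX Pool.Agent.H37.TM Pool.Agent.S9
open Pool.Agent.H4.Singer (RGrp gen exists_lift gen_mul_gen gen_inv gen_comm racg racg_not_adj)

/-! ### right descents -/

section Rd

variable {V : Type} [DecidableEq V] [Fintype V] (G : SimpleGraph V)

/-- right descents -/
private def RD (w : RGrp G) (v : V) : Prop := (racg G).toCoxeterSystem.IsRightDescent w v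

/-- the length -/
private noncomputable def ln (w : RGrp G) : ℕ := (racg G).toCoxeterSystem.length w

variable {G}

private theorem ln_rd {w : RGrp G} {v : V} (h : RD G w v) : ln G (w * gen G v) < ln G w := h

private theorem ln_one : ln G (1 : RGrp G) = 0 := (racg G).toCoxeterSystem.length_one

private theorem ln_mul_le (w : RGrp G) (v : V) : ln G (w * gen G v) ≤ ln G w + 1 := by
  have h : ln G (w * gen G v) = ln G w + 1 ∨ ln G (w * gen G v) + 1 = ln G w :=
    (racg G).toCoxeterSystem.length_mul_simple w v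
  omega

private theorem rd_self {w : RGrp G} {v : V} : RD G (w * gen G v) v ↔ ¬ RD G w v := by
  have h := (racg G).toCoxeterSystem.isRightDescent_iff_not_isRightDescent_mul
    (w := w * gen G v) (i := v)
  have e : w * gen G v * (racg G).toCoxeterSystem.simple v = w := by
    show w * gen G v * gen G v = w
    rw [mul_assoc, gen_mul_gen, mul_one]
  rw [e] at h
  exact h

private theorem adj_of_rd {w : RGrp G} {u v : V} (huv : u ≠ v) (hu : RD G w u) (hv : RD G w v) :
    G.Adj u v := by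
  by_contra h
  exact (Pool.Agent.H73.HVN.two_descents (racg G).toCoxeterSystem huv hu hv).1
    (racg_not_adj G huv h)

private theorem rd_adj1 {w : RGrp G} {u v : V} (h : G.Adj u v) (hv : RD G w v) :
    RD G (w * gen G u) v := by
  by_cases hu : RD G w u
  · exact (Pool.Agent.H73.HVN.two_descents (racg G).toCoxeterSystem h.ne hu hv).2
  · by_contra h1
    have e1 := (racg G).toCoxeterSystem.not_isRightDescent_iff.1 hu
    have e2 := (racg G).toCoxeterSystem.not_isRightDescent_iff.1 h1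
    have e3 := (racg G).toCoxeterSystem.isRightDescent_iff.1 hv
    have e4 : w * gen G u * gen G v = w * gen G v * gen G u := by
      rw [mul_assoc, gen_comm G u v h, mul_assoc]
    have e5 := (racg G).toCoxeterSystem.length_mul_simple (w * gen G v) u
    have e6 : (racg G).toCoxeterSystem.length (w * gen G u * gen G v) =
        (racg G).toCoxeterSystem.length (w * gen G u) + 1 := e2
    have e7 : (racg G).toCoxeterSystem.length (w * gen G u) =
        (racg G).toCoxeterSystem.length w + 1 := e1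
    have e8 : (racg G).toCoxeterSystem.length (w * gen G v) + 1 =
        (racg G).toCoxeterSystem.length w := e3
    have e9 : (racg G).toCoxeterSystem.length (w * gen G v * gen G u) =
        (racg G).toCoxeterSystem.length (w * gen G v) + 1 ∨
        (racg G).toCoxeterSystem.length (w * gen G v * gen G u) + 1 =
        (racg G).toCoxeterSystem.length (w * gen G v) := e5
    rw [e4] at e6
    omega

private theorem rd_adj {w : RGrp G} {u v : V} (h : G.Adj u v) : RD G (w * gen G u) v ↔ RD G w v := by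
  refine ⟨fun h1 => ?_, rd_adj1 h⟩
  have h2 := rd_adj1 h h1
  rwa [mul_assoc, gen_mul_gen, mul_one] at h2

private theorem exists_rd {w : RGrp G} (hw : w ≠ 1) : ∃ v, RD G w v :=
  (racg G).toCoxeterSystem.exists_rightDescent_of_ne_one hw

private theorem not_rd_one (v : V) : ¬ RD G (1 : RGrp G) v := by
  intro h
  have h1 := ln_rd h
  rw [ln_one] at h1
  omega

/-! ### products over cliques -/

/-- the product of the generators in a clique -/
private noncomputable def gW (G : SimpleGraph V) (C : Finset V) : RGrp G :=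
  (C.toList.map (gen G)).prod

private theorem gW_empty : gW G ∅ = 1 := by
  simp [gW]

private theorem cl_comm {C : Finset V} (hC : G.IsClique (C : Set V)) {u v : V} (hu : u ∈ C)
    (hv : v ∈ C) : Commute (gen G u) (gen G v) := by
  by_cases h : u = v
  · rw [h]
  · exact gen_comm G u v (hC (mem_coe.2 hu) (mem_coe.2 hv) h)

private theorem gW_insert {C : Finset V} {v : V} (hv : v ∉ C)
    (hC : G.IsClique ((insert v C : Finset V) : Set V)) : gW G (insert v C) = gen G v * gW G C := by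
  unfold gW
  have h1 : ((insert v C).toList.map (gen G)).Perm ((v :: C.toList).map (gen G)) :=
    (Finset.toList_insert hv).map _
  rw [h1.prod_eq' ?_, List.map_cons, List.prod_cons]
  refine List.Pairwise.map _ (R := fun u w => Commute (gen G u) (gen G w)) (fun _ _ h => h) ?_
  refine List.pairwise_of_forall_mem_list fun a ha b hb => ?_
  exact cl_comm hC (mem_toList.1 ha) (mem_toList.1 hb)

private theorem gW_comm {C : Finset V} {v : V} (hC : G.IsClique ((insert v C : Finset V) : Set V)) :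
    gW G C * gen G v = gen G v * gW G C := by
  refine (Commute.list_prod_right _ (gen G v) fun y hy => ?_).eq.symm
  obtain ⟨u, hu, rfl⟩ := List.mem_map.1 hy
  exact cl_comm hC (mem_insert_self v C) (mem_insert_of_mem (mem_toList.1 hu))

private theorem gW_sq {C : Finset V} (hC : G.IsClique (C : Set V)) : gW G C * gW G C = 1 := by
  induction C using Finset.induction_on with
  | empty => rw [gW_empty, one_mul]
  | insert a C ha ih =>
    have h1 : G.IsClique (C : Set V) := hC.subset (by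
      rw [coe_insert]; exact Set.subset_insert _ _)
    rw [gW_insert ha hC, mul_assoc, ← mul_assoc (gW G C), gW_comm hC, mul_assoc, ih h1, mul_one,
      gen_mul_gen]

private theorem rd_gW {C : Finset V} {v : V} (hC : G.IsClique ((insert v C : Finset V) : Set V))
    (w : RGrp G) : RD G (w * gW G C) v ↔ (RD G w v ↔ v ∉ C) := by
  induction C using Finset.induction_on generalizing w with
  | empty => simp [gW_empty]
  | insert a C ha ih =>
    have h0 : G.IsClique ((insert a C : Finset V) : Set V) := hC.subset (by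
      rw [coe_insert v]; exact Set.subset_insert _ _)
    have h1 : G.IsClique ((insert v C : Finset V) : Set V) := hC.subset (by
      exact_mod_cast insert_subset_insert v (subset_insert a C))
    rw [gW_insert ha h0, ← mul_assoc, ih h1 (w * gen G a)]
    by_cases hav : a = v
    · subst hav
      rw [rd_self]
      simp only [mem_insert_self, not_true_eq_false, iff_false]
      have h2 : (a ∉ C) ↔ True := iff_true_intro ha
      rw [h2, iff_true]
    · have h3 : G.Adj a v := by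
        refine hC ?_ ?_ hav
        · exact_mod_cast mem_insert_of_mem (mem_insert_self a C)
        · exact_mod_cast mem_insert_self v _
      rw [rd_adj h3]
      have h4 : v ∉ insert a C ↔ v ∉ C := by
        rw [mem_insert, not_or]
        exact ⟨fun h => h.2, fun h => ⟨fun h' => hav h'.symm, h⟩⟩
      rw [h4]

end Rd

private theorem sub_cl {V : Type} {G : SimpleGraph V} {τ S : Finset V} (hτ : G.IsClique (τ : Set V))
    (h : S ⊆ τ) : G.IsClique (S : Set V) := hτ.subset (by exact_mod_cast h)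

private theorem z2 {a : ZMod 2} (h : a ≠ 0) : a = 1 := by
  revert h
  revert a
  decide

section Cov

variable {V X : Type} [DecidableEq V] [Fintype V] (Q : CubeComplex V X) (x₀ : X)

/-! ### the vertices of the universal cover in the right-angled Coxeter group -/

/-- the embedding of the vertices of the universal cover into the right-angled Coxeter group -/
private noncomputable def ex (c : Q.Cover x₀) : RGrp Q.graph := em Q (racR Q.graph) x₀ c

private theorem ex_nbc (c : Q.Cover x₀) {v : V} (hv : v ∈ Q.lab (Q.proj x₀ c)) :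
    ex Q x₀ (Q.nbc x₀ v c) = ex Q x₀ c * gen Q.graph v := em_nbc Q (racR Q.graph) x₀ c hv

private theorem ex_bp : ex Q x₀ (bp Q x₀) = 1 := em_bp Q (racR Q.graph) x₀

private theorem ex_inj {c c' : Q.Cover x₀} (h : ex Q x₀ c = ex Q x₀ c') : c = c' :=
  em_inj Q (racR Q.graph) x₀ h

/-- the action of the Coxeter group on the vertices of the universal cover by the completed involutions -/
private noncomputable def mA (c : Q.Cover x₀) (w : RGrp Q.graph) : Q.Cover x₀ :=
  ra (Q.cover x₀) (racR Q.graph) c w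

private theorem mA_one (c : Q.Cover x₀) : mA Q x₀ c 1 = c :=
  ra_one (Q.cover x₀) (racR Q.graph) c

private theorem mA_mul (c : Q.Cover x₀) (w w' : RGrp Q.graph) :
    mA Q x₀ c (w * w') = mA Q x₀ (mA Q x₀ c w) w' :=
  ra_mul (Q.cover x₀) (racR Q.graph) c w w'

private theorem mA_gen (c : Q.Cover x₀) (v : V) : mA Q x₀ c (gen Q.graph v) = Q.nbc x₀ v c := by
  refine (ra_s (Q.cover x₀) (racR Q.graph) c v).trans ?_
  by_cases h : v ∈ Q.lab (Q.proj x₀ c)
  · exact (Q.cover x₀).cs_of_mem h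
  · rw [nbc_of_notMem h]
    exact (Q.cover x₀).cs_of_not_mem h

private theorem mA_ex (c : Q.Cover x₀) : mA Q x₀ (bp Q x₀) (ex Q x₀ c) = c := by
  refine cover_ind Q x₀ (fun c => mA Q x₀ (bp Q x₀) (ex Q x₀ c) = c) ?_ (fun c v hv ih => ?_) c
  · show mA Q x₀ (bp Q x₀) (ex Q x₀ (bp Q x₀)) = bp Q x₀
    rw [ex_bp, mA_one]
  · show mA Q x₀ (bp Q x₀) (ex Q x₀ (Q.nbc x₀ v c)) = Q.nbc x₀ v c
    rw [ex_nbc Q x₀ c hv, mA_mul, ih, mA_gen]

/-- the completed involutions do not increase the length -/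
private theorem ln_mA (n : ℕ) : ∀ w : RGrp Q.graph, ln Q.graph w ≤ n →
    ln Q.graph (ex Q x₀ (mA Q x₀ (bp Q x₀) w)) ≤ ln Q.graph w := by
  induction n with
  | zero =>
    intro w hw
    have h1 : w = 1 := by
      by_contra h
      obtain ⟨v, hv⟩ := exists_rd h
      have := ln_rd hv
      omega
    rw [h1, mA_one, ex_bp]
  | succ n ih =>
    intro w hw
    by_cases h : w = 1
    · rw [h, mA_one, ex_bp]
    · obtain ⟨v, hv⟩ := exists_rd h
      have h1 := ln_rd hv
      obtain ⟨w', hw'⟩ : ∃ w', w' = w * gen Q.graph v := ⟨_, rfl⟩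
      have h2 : w = w' * gen Q.graph v := by rw [hw', mul_assoc, gen_mul_gen, mul_one]
      rw [← hw'] at h1
      have h3 := ih w' (by omega)
      have h4 : mA Q x₀ (bp Q x₀) w = Q.nbc x₀ v (mA Q x₀ (bp Q x₀) w') := by
        rw [h2, mA_mul, mA_gen]
      rw [h4]
      by_cases h5 : v ∈ Q.lab (Q.proj x₀ (mA Q x₀ (bp Q x₀) w'))
      · rw [ex_nbc Q x₀ _ h5]
        have h6 := ln_mul_le (ex Q x₀ (mA Q x₀ (bp Q x₀) w')) v
        omega
      · rw [nbc_of_notMem h5]
        omega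

/-- **a right descent of the image of a vertex is the label of an edge at the vertex** -/
private theorem rd_lab {c : Q.Cover x₀} {v : V} (h : RD Q.graph (ex Q x₀ c) v) :
    v ∈ Q.lab (Q.proj x₀ c) := by
  by_contra h1
  have h2 : mA Q x₀ (bp Q x₀) (ex Q x₀ c * gen Q.graph v) = c := by
    rw [mA_mul, mA_ex, mA_gen, nbc_of_notMem h1]
  have h3 := ln_mA Q x₀ _ (ex Q x₀ c * gen Q.graph v) le_rfl
  rw [h2] at h3
  have h4 := ln_rd h
  omega

private theorem rd_sub {c : Q.Cover x₀} {τ : Finset V} (hd : ∀ v ∈ τ, RD Q.graph (ex Q x₀ c) v) :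
    τ ⊆ Q.lab (Q.proj x₀ c) := fun v hv => rd_lab Q x₀ (hd v hv)

private theorem lab_self (c : Q.Cover x₀) (v : V) :
    v ∈ Q.lab (Q.proj x₀ (Q.nbc x₀ v c)) ↔ v ∈ Q.lab (Q.proj x₀ c) := by
  by_cases h : v ∈ Q.lab (Q.proj x₀ c)
  · rw [Pool.Agent.S10.proj_nbc Q x₀ c h]
    exact ⟨fun _ => h, fun _ => Q.lab_nb v _ h⟩
  · rw [nbc_of_notMem h]

private theorem lab_step (c : Q.Cover x₀) {u v : V} (huv : Q.graph.Adj u v) :
    v ∈ Q.lab (Q.proj x₀ (Q.nbc x₀ u c)) ↔ v ∈ Q.lab (Q.proj x₀ c) := by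
  have h := lab_cs_adj (Q.cover x₀) huv c
  by_cases hu : u ∈ Q.lab (Q.proj x₀ c)
  · rw [(Q.cover x₀).cs_of_mem (show u ∈ (Q.cover x₀).lab c from hu)] at h
    exact h
  · rw [nbc_of_notMem hu]

/-! ### motion over a clique -/

/-- the vertex opposite to `c` in the cube spanned by `S` -/
private noncomputable def mv (c : Q.Cover x₀) (S : Finset V) : Q.Cover x₀ :=
  mA Q x₀ c (gW Q.graph S)

private theorem mv_empty (c : Q.Cover x₀) : mv Q x₀ c ∅ = c := by
  unfold mv
  rw [gW_empty, mA_one]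

private theorem mv_insert {S : Finset V} {v : V} (hv : v ∉ S)
    (hS : Q.graph.IsClique ((insert v S : Finset V) : Set V)) (c : Q.Cover x₀) :
    mv Q x₀ c (insert v S) = mv Q x₀ (Q.nbc x₀ v c) S := by
  unfold mv
  rw [gW_insert hv hS, mA_mul, mA_gen]

private theorem mv_nbc {S : Finset V} {v : V}
    (hS : Q.graph.IsClique ((insert v S : Finset V) : Set V)) (c : Q.Cover x₀) :
    Q.nbc x₀ v (mv Q x₀ c S) = mv Q x₀ (Q.nbc x₀ v c) S := by
  rw [← mA_gen, ← mA_gen]
  unfold mv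
  rw [← mA_mul, ← mA_mul, gW_comm hS]

private theorem mv_mv {S : Finset V} (hS : Q.graph.IsClique (S : Set V)) (c : Q.Cover x₀) :
    mv Q x₀ (mv Q x₀ c S) S = c := by
  unfold mv
  rw [← mA_mul, gW_sq hS, mA_one]

private theorem ex_mv {S : Finset V} (hS : Q.graph.IsClique (S : Set V)) {c : Q.Cover x₀}
    (h : S ⊆ Q.lab (Q.proj x₀ c)) : ex Q x₀ (mv Q x₀ c S) = ex Q x₀ c * gW Q.graph S := by
  induction S using Finset.induction_on generalizing c with
  | empty => rw [mv_empty, gW_empty, mul_one]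
  | insert a S ha ih =>
    have h1 : Q.graph.IsClique (S : Set V) := sub_cl hS (subset_insert a S)
    have h2 : S ⊆ Q.lab (Q.proj x₀ (Q.nbc x₀ a c)) := by
      intro v hv
      refine (lab_step Q x₀ c (hS ?_ ?_ ?_)).2 (h (mem_insert_of_mem hv))
      · exact_mod_cast mem_insert_self a S
      · exact_mod_cast mem_insert_of_mem hv
      · rintro rfl
        exact ha hv
    rw [mv_insert Q x₀ ha hS, ih h1 h2, ex_nbc Q x₀ c (h (mem_insert_self a S)),
      gW_insert ha hS, mul_assoc]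

/-! ### bits -/

variable (bit : X → V → ZMod 2)

/-- the bits -/
private def bt (c : Q.Cover x₀) (v : V) : ZMod 2 := bit (Q.proj x₀ c) v

variable {bit}

private theorem bt_nbc (hbit : IsBit Q bit) {c : Q.Cover x₀} {u : V}
    (hu : u ∈ Q.lab (Q.proj x₀ c)) (v : V) :
    bt Q x₀ bit (Q.nbc x₀ u c) v = bt Q x₀ bit c v + if u = v then 1 else 0 := by
  unfold bt
  rw [Pool.Agent.S10.proj_nbc Q x₀ c hu, hbit u _ hu]
  by_cases h : u = v
  · rw [if_pos h, if_pos h.symm]
  · rw [if_neg h, if_neg (Ne.symm h)]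

private theorem bt_mv (hbit : IsBit Q bit) {S : Finset V} (hS : Q.graph.IsClique (S : Set V))
    {c : Q.Cover x₀} (h : S ⊆ Q.lab (Q.proj x₀ c)) (v : V) :
    bt Q x₀ bit (mv Q x₀ c S) v = bt Q x₀ bit c v + if v ∈ S then 1 else 0 := by
  induction S using Finset.induction_on generalizing c with
  | empty => simp [mv_empty]
  | insert a S ha ih =>
    have h1 : Q.graph.IsClique (S : Set V) := sub_cl hS (subset_insert a S)
    have h2 : S ⊆ Q.lab (Q.proj x₀ (Q.nbc x₀ a c)) := by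
      intro v hv
      refine (lab_step Q x₀ c (hS ?_ ?_ ?_)).2 (h (mem_insert_of_mem hv))
      · exact_mod_cast mem_insert_self a S
      · exact_mod_cast mem_insert_of_mem hv
      · rintro rfl
        exact ha hv
    rw [mv_insert Q x₀ ha hS, ih h1 h2, bt_nbc Q x₀ hbit (h (mem_insert_self a S))]
    by_cases hav : a = v
    · subst hav
      rw [if_pos rfl, if_neg ha, if_pos (mem_insert_self a S), add_zero]
    · rw [if_neg hav, add_zero]
      by_cases hv : v ∈ S
      · rw [if_pos hv, if_pos (mem_insert_of_mem hv)]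
      · rw [if_neg hv, if_neg (fun h => (mem_insert.1 h).elim (fun h' => hav h'.symm) hv)]

variable (bit)

/-- the vertex with the bits `0` of the cube spanned by `τ` at `c` -/
private noncomputable def nm (c : Q.Cover x₀) (τ : Finset V) : Q.Cover x₀ :=
  mv Q x₀ c (τ.filter fun v => bt Q x₀ bit c v ≠ 0)

/-- the cell -/
private noncomputable def ce (c : Q.Cover x₀) (τ : Finset V) : Q.Cover x₀ × Finset V :=
  (nm Q x₀ bit c τ, τ)

variable {bit}

private theorem nm_bit (hbit : IsBit Q bit) {c : Q.Cover x₀} {τ : Finset V}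
    (hτ : Q.graph.IsClique (τ : Set V)) (hL : τ ⊆ Q.lab (Q.proj x₀ c)) {v : V} (hv : v ∈ τ) :
    bt Q x₀ bit (nm Q x₀ bit c τ) v = 0 := by
  unfold nm
  rw [bt_mv Q x₀ hbit (sub_cl hτ (filter_subset _ _)) ((filter_subset _ _).trans hL)]
  by_cases h : bt Q x₀ bit c v = 0
  · have h1 : v ∉ τ.filter fun u => bt Q x₀ bit c u ≠ 0 := by
      rw [mem_filter]
      exact fun h' => h'.2 h
    rw [h, if_neg h1, add_zero]
  · rw [if_pos (mem_filter.2 ⟨hv, h⟩), z2 h]
    decide

private theorem lab_mv {S : Finset V} {v : V}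
    (hS : Q.graph.IsClique ((insert v S : Finset V) : Set V)) (c : Q.Cover x₀) :
    v ∈ Q.lab (Q.proj x₀ (mv Q x₀ c S)) ↔ v ∈ Q.lab (Q.proj x₀ c) := by
  induction S using Finset.induction_on generalizing c with
  | empty => rw [mv_empty]
  | insert a S ha ih =>
    have h0 : Q.graph.IsClique ((insert a S : Finset V) : Set V) :=
      sub_cl hS (subset_insert v (insert a S))
    have h1 : Q.graph.IsClique ((insert v S : Finset V) : Set V) :=
      sub_cl hS (insert_subset_insert v (subset_insert a S))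
    rw [mv_insert Q x₀ ha h0, ih h1]
    by_cases hav : a = v
    · subst hav
      exact lab_self Q x₀ c a
    · refine lab_step Q x₀ c (hS ?_ ?_ hav)
      · exact_mod_cast mem_insert_of_mem (mem_insert_self a S)
      · exact_mod_cast mem_insert_self v _

private theorem bd_ce (hbit : IsBit Q bit) (c : Q.Cover x₀) {τ : Finset V}
    (hτ : Q.graph.IsClique (τ : Set V)) (hL : τ ⊆ Q.lab (Q.proj x₀ c)) :
    bdD Q x₀ (ce Q x₀ bit c τ) = ∑ v ∈ τ, (Finsupp.single (ce Q x₀ bit c (τ.erase v)) 1 +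
      Finsupp.single (ce Q x₀ bit (Q.nbc x₀ v c) (τ.erase v)) 1) := by
  unfold bdD
  refine sum_congr rfl fun v hv => ?_
  have h1 : (τ.erase v).filter (fun u => bt Q x₀ bit c u ≠ 0) =
      (τ.filter fun u => bt Q x₀ bit c u ≠ 0).erase v := by
    ext u
    simp only [mem_filter, mem_erase]
    tauto
  have h2 : (τ.erase v).filter (fun u => bt Q x₀ bit (Q.nbc x₀ v c) u ≠ 0) =
      (τ.filter fun u => bt Q x₀ bit c u ≠ 0).erase v := by
    ext u
    simp only [mem_filter, mem_erase]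
    constructor
    · rintro ⟨⟨h3, h4⟩, h5⟩
      rw [bt_nbc Q x₀ hbit (hL hv), if_neg (Ne.symm h3), add_zero] at h5
      exact ⟨h3, h4, h5⟩
    · rintro ⟨h3, h4, h5⟩
      refine ⟨⟨h3, h4⟩, ?_⟩
      rw [bt_nbc Q x₀ hbit (hL hv), if_neg (Ne.symm h3), add_zero]
      exact h5
  obtain ⟨S, hS⟩ : ∃ S, S = τ.filter fun u => bt Q x₀ bit c u ≠ 0 := ⟨_, rfl⟩
  have hSτ : S ⊆ τ := by
    rw [hS]
    exact filter_subset _ _
  have hvS : Q.graph.IsClique ((insert v S : Finset V) : Set V) := sub_cl hτ (insert_subset hv hSτ)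
  have h3 : (ce Q x₀ bit c τ).1 = mv Q x₀ c S := by rw [hS]; rfl
  have h4 : (ce Q x₀ bit c τ).2 = τ := rfl
  have h5 : ce Q x₀ bit c (τ.erase v) = (mv Q x₀ c (S.erase v), τ.erase v) := by
    unfold ce nm
    rw [h1, ← hS]
  have h6 : ce Q x₀ bit (Q.nbc x₀ v c) (τ.erase v) =
      (mv Q x₀ (Q.nbc x₀ v c) (S.erase v), τ.erase v) := by
    unfold ce nm
    rw [h2, ← hS]
  rw [h3, h4, h5, h6, mv_nbc Q x₀ hvS]
  by_cases hv' : v ∈ S
  · have h8 : Q.graph.IsClique ((insert v (S.erase v) : Finset V) : Set V) := by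
      rw [insert_erase hv']
      exact sub_cl hvS (subset_insert v S)
    have e0 : ∀ c : Q.Cover x₀, mv Q x₀ c S = mv Q x₀ (Q.nbc x₀ v c) (S.erase v) := by
      intro c
      have h9 := mv_insert Q x₀ (notMem_erase v S) h8 c
      rwa [insert_erase hv'] at h9
    rw [e0 c, e0 (Q.nbc x₀ v c), nbc_nbc, add_comm]
  · rw [erase_eq_of_notMem hv']

/-! ### the longest vertex of a cell -/

open Classical in
/-- the longest vertex of a cell -/
private noncomputable def tp (e : Q.Cover x₀ × Finset V) : Q.Cover x₀ :=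
  mv Q x₀ e.1 (e.2.filter fun v => ¬ RD Q.graph (ex Q x₀ e.1) v)

private theorem tp_rd {e : Q.Cover x₀ × Finset V} (he : Q.graph.IsClique (e.2 : Set V))
    (hL : e.2 ⊆ Q.lab (Q.proj x₀ e.1)) {v : V} (hv : v ∈ e.2) :
    RD Q.graph (ex Q x₀ (tp Q x₀ e)) v := by
  classical
  unfold tp
  rw [ex_mv Q x₀ (sub_cl he (filter_subset _ _)) ((filter_subset _ _).trans hL),
    rd_gW (sub_cl he (insert_subset hv (filter_subset _ _))), mem_filter]
  tauto

private theorem ce_tp (hbit : IsBit Q bit) {e : Q.Cover x₀ × Finset V}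
    (he : Q.graph.IsClique (e.2 : Set V)) (hL : e.2 ⊆ Q.lab (Q.proj x₀ e.1))
    (hb : ∀ v ∈ e.2, bt Q x₀ bit e.1 v = 0) : ce Q x₀ bit (tp Q x₀ e) e.2 = e := by
  classical
  have h1 : (e.2.filter fun v => bt Q x₀ bit (tp Q x₀ e) v ≠ 0) =
      e.2.filter fun v => ¬ RD Q.graph (ex Q x₀ e.1) v := by
    ext v
    rw [mem_filter, mem_filter]
    refine and_congr_right fun hv => ?_
    unfold tp
    rw [bt_mv Q x₀ hbit (sub_cl he (filter_subset _ _)) ((filter_subset _ _).trans hL), hb v hv,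
      zero_add]
    by_cases h : RD Q.graph (ex Q x₀ e.1) v
    · have h2 : v ∉ e.2.filter fun u => ¬ RD Q.graph (ex Q x₀ e.1) u := by
        rw [mem_filter]
        exact fun h' => h'.2 h
      rw [if_neg h2]
      simp [h]
    · rw [if_pos (mem_filter.2 ⟨hv, h⟩)]
      simp [h]
  refine Prod.ext ?_ rfl
  show nm Q x₀ bit (tp Q x₀ e) e.2 = e.1
  unfold nm
  rw [h1]
  show mv Q x₀ (mv Q x₀ e.1 (e.2.filter fun v => ¬ RD Q.graph (ex Q x₀ e.1) v))
    (e.2.filter fun v => ¬ RD Q.graph (ex Q x₀ e.1) v) = e.1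
  exact mv_mv Q x₀ (sub_cl he (filter_subset _ _)) e.1

private theorem tp_ce {c : Q.Cover x₀} {τ : Finset V} (hτ : Q.graph.IsClique (τ : Set V))
    (hd : ∀ v ∈ τ, RD Q.graph (ex Q x₀ c) v) : tp Q x₀ (ce Q x₀ bit c τ) = c := by
  classical
  have hL := rd_sub Q x₀ hd
  unfold tp
  have h1 : (ce Q x₀ bit c τ).1 = nm Q x₀ bit c τ := rfl
  have h2 : (ce Q x₀ bit c τ).2 = τ := rfl
  rw [h1, h2]
  have h3 : (τ.filter fun v => ¬ RD Q.graph (ex Q x₀ (nm Q x₀ bit c τ)) v) =
      τ.filter fun v => bt Q x₀ bit c v ≠ 0 := by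
    ext v
    rw [mem_filter, mem_filter]
    refine and_congr_right fun hv => ?_
    unfold nm
    rw [ex_mv Q x₀ (sub_cl hτ (filter_subset _ _)) ((filter_subset _ _).trans hL),
      rd_gW (sub_cl hτ (insert_subset hv (filter_subset _ _))), mem_filter]
    have := hd v hv
    tauto
  rw [h3]
  unfold nm
  exact mv_mv Q x₀ (sub_cl hτ (filter_subset _ _)) c

private theorem rd_cl {G : SimpleGraph V} {w : RGrp G} {τ : Finset V} (hd : ∀ v ∈ τ, RD G w v) :
    G.IsClique (τ : Set V) := by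
  intro u hu v hv huv
  exact adj_of_rd huv (hd u (mem_coe.1 hu)) (hd v (mem_coe.1 hv))

/-! ### the contraction -/

variable (bit)

open Classical in
/-- the contraction on the cell with the longest vertex `c` -/
private noncomputable def hh (c : Q.Cover x₀) (σ : Finset V) : NQ Q x₀ :=
  if h : ex Q x₀ c = 1 then 0 else
    if (exists_rd h).choose ∈ σ then 0 else
      Finsupp.single (some (ce Q x₀ bit c (insert (exists_rd h).choose σ))) 1

/-- the contraction -/
private noncomputable def h1 : Option (Q.Cover x₀ × Finset V) → NQ Q x₀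
  | none => Finsupp.single (some (ce Q x₀ bit (bp Q x₀) ∅)) 1
  | some e => hh Q x₀ bit (tp Q x₀ e) e.2

variable {bit}

/-- the rank of a cell -/
private noncomputable def rk : Option (Q.Cover x₀ × Finset V) → ℕ
  | none => 0
  | some e => ln Q.graph (ex Q x₀ (tp Q x₀ e))

private theorem hh_one {c : Q.Cover x₀} (hc : ex Q x₀ c = 1) (σ : Finset V) :
    hh Q x₀ bit c σ = 0 := by
  unfold hh
  rw [dif_pos hc]

private theorem hh_eq {c : Q.Cover x₀} (hc : ex Q x₀ c ≠ 1) : ∃ v, RD Q.graph (ex Q x₀ c) v ∧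
    ∀ σ, hh Q x₀ bit c σ =
      if v ∈ σ then 0 else Finsupp.single (some (ce Q x₀ bit c (insert v σ))) 1 := by
  classical
  refine ⟨(exists_rd hc).choose, (exists_rd hc).choose_spec, fun σ => ?_⟩
  unfold hh
  rw [dif_neg hc]

private theorem h1_ce {c : Q.Cover x₀} {σ : Finset V}
    (hd : ∀ v ∈ σ, RD Q.graph (ex Q x₀ c) v) :
    h1 Q x₀ bit (some (ce Q x₀ bit c σ)) = hh Q x₀ bit c σ := by
  show hh Q x₀ bit (tp Q x₀ (ce Q x₀ bit c σ)) σ = hh Q x₀ bit c σ
  rw [tp_ce Q x₀ (rd_cl hd) hd]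

private theorem rk_ce {c : Q.Cover x₀} {σ : Finset V}
    (hd : ∀ v ∈ σ, RD Q.graph (ex Q x₀ c) v) :
    rk Q x₀ (some (ce Q x₀ bit c σ)) = ln Q.graph (ex Q x₀ c) := by
  show ln Q.graph (ex Q x₀ (tp Q x₀ (ce Q x₀ bit c σ))) = ln Q.graph (ex Q x₀ c)
  rw [tp_ce Q x₀ (rd_cl hd) hd]

/-- the chains on the cells of rank less than `n` -/
private noncomputable def Fl (n : ℕ) : Submodule (ZMod 2) (NQ Q x₀) :=
  Finsupp.supported (ZMod 2) (ZMod 2) {b | rk Q x₀ b < n}

private theorem single_Fl {n : ℕ} {b : Option (Q.Cover x₀ × Finset V)}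
    (h : rk Q x₀ b < n) : (Finsupp.single b 1 : NQ Q x₀) ∈ Fl Q x₀ n :=
  Finsupp.single_mem_supported _ _ h

private theorem ce_Fl {n : ℕ} {c : Q.Cover x₀} {σ : Finset V}
    (hd : ∀ v ∈ σ, RD Q.graph (ex Q x₀ c) v) (h : ln Q.graph (ex Q x₀ c) < n) :
    (Finsupp.single (some (ce Q x₀ bit c σ)) 1 : NQ Q x₀) ∈ Fl Q x₀ n :=
  single_Fl Q x₀ (by rw [rk_ce Q x₀ hd]; exact h)

private theorem hh_Fl {n : ℕ} {c : Q.Cover x₀} {σ : Finset V}
    (hd : ∀ v ∈ σ, RD Q.graph (ex Q x₀ c) v) (h : ln Q.graph (ex Q x₀ c) < n) :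
    hh Q x₀ bit c σ ∈ Fl Q x₀ n := by
  classical
  by_cases hw : ex Q x₀ c = 1
  · rw [hh_one Q x₀ hw]
    exact Submodule.zero_mem _
  · obtain ⟨v, hv, hv'⟩ := hh_eq (bit := bit) Q x₀ hw
    rw [hv']
    by_cases h2 : v ∈ σ
    · rw [if_pos h2]
      exact Submodule.zero_mem _
    · rw [if_neg h2]
      exact ce_Fl Q x₀ (fun u hu => (mem_insert.1 hu).elim (fun e => e ▸ hv) (hd u)) h

private theorem dQ1_ce (hbit : IsBit Q bit) {c : Q.Cover x₀} {σ : Finset V}
    (hσ : Q.graph.IsClique (σ : Set V)) (hL : σ ⊆ Q.lab (Q.proj x₀ c))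
    (hne : σ ≠ ∅) : dQ1 Q x₀ (some (ce Q x₀ bit c σ)) =
      ∑ v ∈ σ, (Finsupp.single (some (ce Q x₀ bit c (σ.erase v))) 1 +
        Finsupp.single (some (ce Q x₀ bit (Q.nbc x₀ v c) (σ.erase v))) 1) := by
  have h0 : (ce Q x₀ bit c σ).2 = σ := rfl
  show (if (ce Q x₀ bit c σ).2 = ∅ then Finsupp.single none 1 else
    (bdD Q x₀ (ce Q x₀ bit c σ)).mapDomain some) = _
  rw [h0, if_neg hne, bd_ce Q x₀ hbit c hσ hL]
  rw [show (Finsupp.mapDomain some (∑ v ∈ σ, (Finsupp.single (ce Q x₀ bit c (σ.erase v))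
      (1 : ZMod 2) + Finsupp.single (ce Q x₀ bit (Q.nbc x₀ v c) (σ.erase v)) 1))) =
      Finsupp.lmapDomain (ZMod 2) (ZMod 2) some (∑ v ∈ σ, (Finsupp.single
        (ce Q x₀ bit c (σ.erase v)) (1 : ZMod 2) +
        Finsupp.single (ce Q x₀ bit (Q.nbc x₀ v c) (σ.erase v)) 1)) from rfl, map_sum]
  refine sum_congr rfl fun v _ => ?_
  rw [map_add, Finsupp.lmapDomain_apply, Finsupp.lmapDomain_apply, Finsupp.mapDomain_single,
    Finsupp.mapDomain_single]

private theorem dQ_single (a : Option (Q.Cover x₀ × Finset V)) :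
    dQ Q x₀ (Finsupp.single a 1) = dQ1 Q x₀ a := lin_single _ _

private theorem rd_step {c : Q.Cover x₀} {σ : Finset V}
    (hd : ∀ v ∈ σ, RD Q.graph (ex Q x₀ c) v) {u : V} (hu : u ∈ σ) :
    ∀ v ∈ σ.erase u, RD Q.graph (ex Q x₀ (Q.nbc x₀ u c)) v := by
  intro v hv
  obtain ⟨h1, h2⟩ := mem_erase.1 hv
  rw [ex_nbc Q x₀ c (rd_lab Q x₀ (hd u hu))]
  exact (rd_adj (adj_of_rd (Ne.symm h1) (hd u hu) (hd v h2))).2 (hd v h2)

private theorem ln_step {c : Q.Cover x₀} {u : V} (hu : RD Q.graph (ex Q x₀ c) u) :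
    ln Q.graph (ex Q x₀ (Q.nbc x₀ u c)) < ln Q.graph (ex Q x₀ c) := by
  rw [ex_nbc Q x₀ c (rd_lab Q x₀ hu)]
  exact ln_rd hu

private theorem low (hbit : IsBit Q bit) {c : Q.Cover x₀} {σ : Finset V}
    (hd : ∀ v ∈ σ, RD Q.graph (ex Q x₀ c) v) (hw : ex Q x₀ c ≠ 1) :
    Finsupp.single (some (ce Q x₀ bit c σ)) 1 +
      dQ Q x₀ (h1 Q x₀ bit (some (ce Q x₀ bit c σ))) +
      lin (h1 Q x₀ bit) (dQ1 Q x₀ (some (ce Q x₀ bit c σ))) ∈
      Fl Q x₀ (ln Q.graph (ex Q x₀ c)) := by
  classical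
  obtain ⟨v, hv, hv'⟩ := hh_eq (bit := bit) Q x₀ hw
  have hlin : σ ≠ ∅ → lin (h1 Q x₀ bit) (dQ1 Q x₀ (some (ce Q x₀ bit c σ))) =
      ∑ u ∈ σ, hh Q x₀ bit c (σ.erase u) +
        ∑ u ∈ σ, hh Q x₀ bit (Q.nbc x₀ u c) (σ.erase u) := by
    intro hne
    rw [dQ1_ce Q x₀ hbit (rd_cl hd) (rd_sub Q x₀ hd) hne, map_sum, ← sum_add_distrib]
    refine sum_congr rfl fun u hu => ?_
    rw [map_add, lin_single, lin_single,
      h1_ce Q x₀ (fun v hv => hd v (mem_of_mem_erase hv)), h1_ce Q x₀ (rd_step Q x₀ hd hu)]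
  have hlow : ∑ u ∈ σ, hh Q x₀ bit (Q.nbc x₀ u c) (σ.erase u) ∈
      Fl Q x₀ (ln Q.graph (ex Q x₀ c)) :=
    Submodule.sum_mem _ fun u hu => hh_Fl Q x₀ (rd_step Q x₀ hd hu) (ln_step Q x₀ (hd u hu))
  rw [h1_ce Q x₀ hd]
  by_cases h2 : v ∈ σ
  · have hne : σ ≠ ∅ := ne_empty_of_mem h2
    have h3 : ∑ u ∈ σ, hh Q x₀ bit c (σ.erase u) =
        Finsupp.single (some (ce Q x₀ bit c σ)) 1 := by
      rw [sum_eq_single v]
      · rw [hv', if_neg (notMem_erase v σ), insert_erase h2]
      · intro u hu huv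
        rw [hv', if_pos (mem_erase.2 ⟨Ne.symm huv, h2⟩)]
      · exact fun h => absurd h2 h
    rw [hv', if_pos h2, map_zero, add_zero, hlin hne, h3, ← add_assoc, chain_add_self, zero_add]
    exact hlow
  · have hd' : ∀ u ∈ insert v σ, RD Q.graph (ex Q x₀ c) u := fun u hu =>
      (mem_insert.1 hu).elim (fun e => e ▸ hv) (hd u)
    have h3 : dQ Q x₀ (Finsupp.single (some (ce Q x₀ bit c (insert v σ))) 1) =
        (Finsupp.single (some (ce Q x₀ bit c σ)) 1 +
          ∑ u ∈ σ, Finsupp.single (some (ce Q x₀ bit c (insert v (σ.erase u)))) 1) +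
        ∑ u ∈ insert v σ,
          Finsupp.single (some (ce Q x₀ bit (Q.nbc x₀ u c) ((insert v σ).erase u))) 1 := by
      rw [dQ_single, dQ1_ce Q x₀ hbit (rd_cl hd') (rd_sub Q x₀ hd') (insert_ne_empty v σ),
        sum_add_distrib]
      congr 1
      rw [sum_insert h2, erase_insert h2]
      congr 1
      refine sum_congr rfl fun u hu => ?_
      rw [erase_insert_of_ne]
      rintro rfl
      exact h2 hu
    have h4 : ∑ u ∈ insert v σ,
        Finsupp.single (some (ce Q x₀ bit (Q.nbc x₀ u c) ((insert v σ).erase u)))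
        (1 : ZMod 2) ∈ Fl Q x₀ (ln Q.graph (ex Q x₀ c)) :=
      Submodule.sum_mem _ fun u hu => ce_Fl Q x₀ (rd_step Q x₀ hd' hu) (ln_step Q x₀ (hd' u hu))
    rw [hv', if_neg h2, h3]
    obtain ⟨A, hA⟩ : ∃ A : NQ Q x₀, A = Finsupp.single (some (ce Q x₀ bit c σ)) 1 := ⟨_, rfl⟩
    obtain ⟨B, hB⟩ : ∃ B : NQ Q x₀,
        B = ∑ u ∈ σ, Finsupp.single (some (ce Q x₀ bit c (insert v (σ.erase u)))) 1 := ⟨_, rfl⟩
    rw [← hA, ← hB]
    by_cases hne : σ = ∅
    · subst hne
      rw [sum_empty] at hB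
      have h5 : lin (h1 Q x₀ bit) (dQ1 Q x₀ (some (ce Q x₀ bit c ∅))) =
          Finsupp.single (some (ce Q x₀ bit (bp Q x₀) ∅)) 1 := by
        have h6 : dQ1 Q x₀ (some (ce Q x₀ bit c ∅)) = Finsupp.single none 1 :=
          dQ1_empty Q x₀ rfl
        rw [h6, lin_single]
        rfl
      rw [h5, hB, add_zero, ← add_assoc, chain_add_self, zero_add]
      refine Submodule.add_mem _ h4 (ce_Fl Q x₀ (fun u hu => absurd hu (notMem_empty u)) ?_)
      have h7 := ln_rd hv
      rw [ex_bp, ln_one]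
      omega
    · have h5 : ∑ u ∈ σ, hh Q x₀ bit c (σ.erase u) = B := by
        rw [hB]
        refine sum_congr rfl fun u hu => ?_
        rw [hv', if_neg (fun h => h2 (mem_of_mem_erase h))]
      rw [hlin hne, h5]
      obtain ⟨C, hC⟩ : ∃ C : NQ Q x₀, C = ∑ u ∈ insert v σ,
        Finsupp.single (some (ce Q x₀ bit (Q.nbc x₀ u c) ((insert v σ).erase u)))
        (1 : ZMod 2) := ⟨_, rfl⟩
      obtain ⟨E, hE⟩ : ∃ E : NQ Q x₀, E = ∑ u ∈ σ, hh Q x₀ bit (Q.nbc x₀ u c) (σ.erase u) :=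
        ⟨_, rfl⟩
      rw [← hC] at h4 ⊢
      rw [← hE] at hlow ⊢
      have h6 : A + (A + B + C) + (B + E) = C + E := by
        have hA2 := chain_add_self A
        have hB2 := chain_add_self B
        calc A + (A + B + C) + (B + E) = (A + A) + (B + B) + (C + E) := by abel
          _ = C + E := by rw [hA2, hB2, zero_add, zero_add]
      rw [h6]
      exact Submodule.add_mem _ h4 hlow

variable (bit)

/-- the cells of the augmented complex -/
private def Ok : ℕ → Set (Option (Q.Cover x₀ × Finset V))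
  | 0 => {none}
  | i + 1 => some '' Cell Q x₀ bit i

private theorem MQ_eq (i : ℕ) :
    MQ Q x₀ bit i = Finsupp.supported (ZMod 2) (ZMod 2) (Ok Q x₀ bit i) := by
  cases i <;> rfl

variable {bit}

private theorem ce_cell (hbit : IsBit Q bit) {c : Q.Cover x₀} {σ : Finset V}
    (hσ : Q.graph.IsClique (σ : Set V)) (hL : σ ⊆ Q.lab (Q.proj x₀ c)) {i : ℕ}
    (hi : σ.card = i) : ce Q x₀ bit c σ ∈ Cell Q x₀ bit i := by
  refine ⟨fun v hv => ?_, hσ, hi, fun v hv => nm_bit Q x₀ hbit hσ hL hv⟩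
  have hv' : v ∈ σ := hv
  exact (lab_mv Q x₀ (sub_cl hσ (insert_subset hv' (filter_subset _ _))) c).2 (hL hv')

private theorem cell_ce (hbit : IsBit Q bit) {e : Q.Cover x₀ × Finset V} {i : ℕ}
    (he : e ∈ Cell Q x₀ bit i) :
    e = ce Q x₀ bit (tp Q x₀ e) e.2 ∧
      (∀ v ∈ e.2, RD Q.graph (ex Q x₀ (tp Q x₀ e)) v) ∧ e.2.card = i := by
  obtain ⟨h0, h1, h2, h3⟩ := he
  exact ⟨(ce_tp Q x₀ hbit h1 h0 h3).symm, fun v hv => tp_rd Q x₀ h1 h0 hv, h2⟩

/-- the contraction shifts the degree -/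
private theorem h1_mem (hbit : IsBit Q bit) {i : ℕ} {a : Option (Q.Cover x₀ × Finset V)}
    (ha : a ∈ Ok Q x₀ bit i) : h1 Q x₀ bit a ∈ MQ Q x₀ bit (i + 1) := by
  classical
  rw [MQ_eq]
  cases i with
  | zero =>
    have h2 : a = none := ha
    subst h2
    refine Finsupp.single_mem_supported _ _ ⟨ce Q x₀ bit (bp Q x₀) ∅,
      ce_cell Q x₀ hbit ?_ (empty_subset _) card_empty, rfl⟩
    simp
  | succ i =>
    obtain ⟨e, he, rfl⟩ := ha
    obtain ⟨-, h2, h3⟩ := cell_ce Q x₀ hbit he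
    show hh Q x₀ bit (tp Q x₀ e) e.2 ∈ _
    by_cases hw : ex Q x₀ (tp Q x₀ e) = 1
    · rw [hh_one Q x₀ hw]
      exact Submodule.zero_mem _
    · obtain ⟨v, hv, hv'⟩ := hh_eq (bit := bit) Q x₀ hw
      rw [hv']
      by_cases h4 : v ∈ e.2
      · rw [if_pos h4]
        exact Submodule.zero_mem _
      · have h5 : ∀ u ∈ insert v e.2, RD Q.graph (ex Q x₀ (tp Q x₀ e)) u := fun u hu =>
          (mem_insert.1 hu).elim (fun e => e ▸ hv) (h2 u)
        rw [if_neg h4]
        refine Finsupp.single_mem_supported _ _ ⟨_, ce_cell Q x₀ hbit (rd_cl h5)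
          (rd_sub Q x₀ h5) ?_, rfl⟩
        rw [card_insert_of_notMem h4, h3]

/-- the boundary of a cell -/
private theorem dQ1_mem (hbit : IsBit Q bit) {i : ℕ} {a : Option (Q.Cover x₀ × Finset V)}
    (ha : a ∈ Ok Q x₀ bit (i + 1)) : dQ1 Q x₀ a ∈ MQ Q x₀ bit i := by
  classical
  obtain ⟨e, he, rfl⟩ := ha
  show (if e.2 = ∅ then Finsupp.single none 1 else (bdD Q x₀ e).mapDomain some) ∈ _
  rw [MQ_eq]
  cases i with
  | zero =>
    rw [if_pos (card_eq_zero.1 he.2.2.1)]
    exact Finsupp.single_mem_supported _ _ rfl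
  | succ i =>
    have h1 : e.2 ≠ ∅ := by
      intro h
      have h2 := he.2.2.1
      rw [h, card_empty] at h2
      omega
    rw [if_neg h1, Finsupp.mem_supported]
    intro b hb
    obtain ⟨c, hc, rfl⟩ := Finset.mem_image.1 (Finsupp.mapDomain_support hb)
    exact ⟨c, bdD_cell hbit he c (Finsupp.mem_support_iff.1 hc), rfl⟩

private theorem dQ1_dQ1 (hbit : IsBit Q bit) {i : ℕ} {a : Option (Q.Cover x₀ × Finset V)}
    (ha : a ∈ Ok Q x₀ bit i) : dQ Q x₀ (dQ1 Q x₀ a) = 0 := by
  cases i with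
  | zero =>
    have h2 : a = none := ha
    subst h2
    exact map_zero _
  | succ i =>
    obtain ⟨e, he, rfl⟩ := ha
    show dQ Q x₀ (if e.2 = ∅ then Finsupp.single none 1 else (bdD Q x₀ e).mapDomain some) = 0
    by_cases h1 : e.2 = ∅
    · rw [if_pos h1, dQ_single]
      rfl
    · rw [if_neg h1]
      have h2 : dQ Q x₀ ((bdD Q x₀ e).mapDomain some) =
          lin (fun c => dQ1 Q x₀ (some c)) (bdD Q x₀ e) := by
        unfold dQ lin
        rw [Finsupp.linearCombination_mapDomain]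
        rfl
      rw [h2]
      rcases Nat.lt_or_ge 1 e.2.card with h3 | h3
      · have h4 : ∀ c, bdD Q x₀ e c ≠ 0 → (bdD Q x₀ c).mapDomain some = dQ1 Q x₀ (some c) := by
          intro c hc
          have h5 : e ∈ Cell Q x₀ bit (e.2.card - 1 + 1) := by
            have h6 := he.2.2.1
            have h7 : e.2.card - 1 + 1 = i := by omega
            rw [h7]
            exact he
          have h6 := (bdD_cell hbit h5 c hc).2.2.1
          have h7 : c.2 ≠ ∅ := by
            intro h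
            rw [h, card_empty] at h6
            omega
          show _ = if c.2 = ∅ then Finsupp.single none 1 else (bdD Q x₀ c).mapDomain some
          rw [if_neg h7]
        rw [← lin_congr (f' := fun c => (bdD Q x₀ c).mapDomain some) h4]
        have h5 := map_lin (Finsupp.lmapDomain (ZMod 2) (ZMod 2)
          (some : _ → Option (Q.Cover x₀ × Finset V))) (f := bdD Q x₀) (x := bdD Q x₀ e)
        rw [bdD_bdD he, map_zero] at h5
        exact h5.symm
      · have h4 : e.2.card = 1 := by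
          have := card_pos.2 (nonempty_iff_ne_empty.2 h1)
          omega
        obtain ⟨v, hv⟩ := card_eq_one.1 h4
        unfold bdD
        rw [hv, sum_singleton, map_add, lin_single, lin_single]
        have h5 : ({v} : Finset V).erase v = ∅ := by simp
        have h6 : ∀ c : Q.Cover x₀, dQ1 Q x₀ (some (c, ({v} : Finset V).erase v)) =
            Finsupp.single none 1 := fun c => if_pos h5
        rw [h6, h6]
        exact chain_add_self _

private theorem lin_Ok {i : ℕ} {x : NQ Q x₀} (hx : x ∈ MQ Q x₀ bit i) :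
    ∀ a, x a ≠ 0 → a ∈ Ok Q x₀ bit i := by
  intro a ha
  rw [MQ_eq] at hx
  exact (Finsupp.mem_supported _ _).1 hx (Finsupp.mem_support_iff.2 ha)

/-- `dQ` squares to zero -/
theorem dQ_dQ (hbit : IsBit Q bit) {i : ℕ} {x : NQ Q x₀} (hx : x ∈ MQ Q x₀ bit i) :
    dQ Q x₀ (dQ Q x₀ x) = 0 := by
  have h1 : dQ Q x₀ (dQ Q x₀ x) = lin (fun a => dQ Q x₀ (dQ1 Q x₀ a)) x :=
    map_lin (dQ Q x₀) (f := dQ1 Q x₀) (x := x)
  rw [h1, lin_congr (f' := fun a => dQ Q x₀ (dQ1 Q x₀ a)) (f := fun _ => 0)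
    (fun a ha => dQ1_dQ1 Q x₀ hbit (lin_Ok Q x₀ hx a ha))]
  unfold lin
  simp [Finsupp.linearCombination_apply]

/-- `dQ` lowers the degree -/
theorem dQ_mem (hbit : IsBit Q bit) {i : ℕ} {x : NQ Q x₀} (hx : x ∈ MQ Q x₀ bit (i + 1)) :
    dQ Q x₀ x ∈ MQ Q x₀ bit i :=
  lin_mem fun a ha => dQ1_mem Q x₀ hbit (lin_Ok Q x₀ hx a ha)

/-- the operator `1 + d h + h d` lowers the rank -/
private theorem low_all (hbit : IsBit Q bit) {i : ℕ} {a : Option (Q.Cover x₀ × Finset V)}
    (ha : a ∈ Ok Q x₀ bit i) :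
    Finsupp.single a 1 + dQ Q x₀ (h1 Q x₀ bit a) + lin (h1 Q x₀ bit) (dQ1 Q x₀ a) ∈
      Fl Q x₀ (rk Q x₀ a) := by
  cases i with
  | zero =>
    have h2 : a = none := ha
    subst h2
    have h3 : dQ Q x₀ (h1 Q x₀ bit none) = Finsupp.single none 1 := by
      show dQ Q x₀ (Finsupp.single (some (ce Q x₀ bit (bp Q x₀) ∅)) 1) = _
      rw [dQ_single]
      exact dQ1_empty Q x₀ rfl
    have h4 : lin (h1 Q x₀ bit) (dQ1 Q x₀ none) = 0 := map_zero _
    rw [h3, h4, add_zero, chain_add_self]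
    exact Submodule.zero_mem _
  | succ i =>
    obtain ⟨e, he, rfl⟩ := ha
    obtain ⟨h2, h3, h4⟩ := cell_ce Q x₀ hbit he
    show _ ∈ Fl Q x₀ (ln Q.graph (ex Q x₀ (tp Q x₀ e)))
    by_cases hw : ex Q x₀ (tp Q x₀ e) = 1
    · have h5 : e.2 = ∅ := by
        by_contra h
        obtain ⟨v, hv⟩ := nonempty_iff_ne_empty.2 h
        have h6 := h3 v hv
        rw [hw] at h6
        exact not_rd_one v h6
      have h6 : h1 Q x₀ bit (some e) = 0 := by
        show hh Q x₀ bit (tp Q x₀ e) e.2 = 0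
        rw [hh_one Q x₀ hw]
      have h7 : lin (h1 Q x₀ bit) (dQ1 Q x₀ (some e)) = Finsupp.single (some e) 1 := by
        have h8 : dQ1 Q x₀ (some e) = Finsupp.single none 1 := if_pos h5
        have h9 : tp Q x₀ e = bp Q x₀ := ex_inj Q x₀ (hw.trans (ex_bp Q x₀).symm)
        rw [h8, lin_single]
        show Finsupp.single (some (ce Q x₀ bit (bp Q x₀) ∅)) 1 = _
        rw [h9, h5] at h2
        rw [← h2]
      rw [h6, map_zero, add_zero, h7, chain_add_self]
      exact Submodule.zero_mem _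
    · have h5 := low Q x₀ hbit h3 hw
      rw [← h2] at h5
      exact h5

/-- **The universal cover of a special cube complex is acyclic.** -/
theorem dQ_exact (hbit : IsBit Q bit) (i : ℕ) (x : NQ Q x₀) (hx : x ∈ MQ Q x₀ bit i)
    (hd : dQ Q x₀ x = 0) : ∃ y ∈ MQ Q x₀ bit (i + 1), dQ Q x₀ y = x := by
  obtain ⟨n, hn⟩ : ∃ n, x ∈ Fl Q x₀ n := by
    refine ⟨x.support.sup (rk Q x₀) + 1, (Finsupp.mem_supported _ _).2 fun a ha => ?_⟩
    show rk Q x₀ a < _
    exact Nat.lt_succ_of_le (le_sup (f := rk Q x₀) ha)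
  induction n generalizing x with
  | zero =>
    have h0 : x = 0 := by
      ext a
      by_contra h
      have h2 := (Finsupp.mem_supported _ _).1 hn (Finsupp.mem_support_iff.2 h)
      exact absurd h2 (Nat.not_lt_zero _)
    exact ⟨0, Submodule.zero_mem _, by rw [h0, map_zero]⟩
  | succ n ih =>
    obtain ⟨y, hy, hy'⟩ : ∃ y, y ∈ MQ Q x₀ bit (i + 1) ∧ y = lin (h1 Q x₀ bit) x :=
      ⟨_, lin_mem fun a ha => h1_mem Q x₀ hbit (lin_Ok Q x₀ hx a ha), rfl⟩
    have h2 : x + dQ Q x₀ y = lin (fun a => Finsupp.single a 1 + dQ Q x₀ (h1 Q x₀ bit a) +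
        lin (h1 Q x₀ bit) (dQ1 Q x₀ a)) x := by
      rw [lin_add, lin_add, lin_lin (f := h1 Q x₀ bit) (e := dQ1 Q x₀),
        ← map_lin (dQ Q x₀) (f := h1 Q x₀ bit), ← hy']
      have h3 : lin (dQ1 Q x₀) x = 0 := hd
      have h4 : lin (fun a : Option (Q.Cover x₀ × Finset V) =>
          (Finsupp.single a 1 : NQ Q x₀)) x = x := by
        unfold lin
        rw [Finsupp.linearCombination_apply]
        simp
      rw [h3, h4, map_zero, add_zero]
    have h3 : x + dQ Q x₀ y ∈ Fl Q x₀ n := by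
      rw [h2]
      refine lin_mem fun a ha => ?_
      have h4 := low_all Q x₀ hbit (lin_Ok Q x₀ hx a ha)
      have h5 : rk Q x₀ a < n + 1 :=
        (Finsupp.mem_supported _ _).1 hn (Finsupp.mem_support_iff.2 ha)
      exact Finsupp.supported_mono (fun b (hb : rk Q x₀ b < rk Q x₀ a) => lt_of_lt_of_le hb
        (Nat.lt_succ_iff.1 h5)) h4
    obtain ⟨y', hy1, hy2⟩ := ih (x + dQ Q x₀ y)
      (Submodule.add_mem _ hx (dQ_mem Q x₀ hbit hy)) (by
      rw [map_add, hd, dQ_dQ Q x₀ hbit hy, add_zero]) h3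
    refine ⟨y' + y, Submodule.add_mem _ hy1 hy, ?_⟩
    rw [map_add, hy2, add_assoc, chain_add_self, add_zero]

end Cov

end Pool.Agent.S10

end
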