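import Pool.Agent.H71.TSG.M08
import Pool.Agent.H71.TSG.M09
import Pool.Agent.H71.TSG.M10
import Pool.Agent.H71.TSG.M12
import Pool.Agent.H71.TSG.M16
import Pool.Agent.H71.TSG.M18
import Pool.Agent.H71.TSG.M20
import Pool.Agent.H71.TSG.M25

/-! The parts of this file: H73.GC.SuspA, H73.GC.SuspB, H77.SX.ExtG, H77.SX.ExtR, H77.SX.Tits, S9.CofP, S9.CofQ, S10.EA.MinA. -/

section

/-!
# Growth calculus: suspensions, the bound

`hx_eq`. A cycle `z` of degree `j` is determined by its restriction to the sets without `a`, `b` (a chain of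
degree `j` of `W = U - a - b`) up to the cycles which vanish on these sets, and these satisfy
`z (t + a) = z (t + b)` for all `t` in `W` (`(dd z) t = 0`), a chain of degree `j - 1` of `W` with values in
`Inv r {a, b}`. So `dim Z_j ≤ dim C_j (W) + 2 ^ |V| dim Inv r {a, b}`, and by `finrank_Inv`
`dim C_(i+1) (U) = dim C_(i+1) (W) + dim C_i (W)`.
-/

set_option autoImplicit false
set_option linter.unusedSectionVars false

open Finset

namespace Pool.Agent.H73.GC

variable {V : Type} [DecidableEq V] [Fintype V]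
variable {Y : Type} [AddCommGroup Y] [Module F2 Y] [Finite Y]

/-- restriction to the sets without `a`, `b` -/
private def SuspA_rho (Y : Type) [AddCommGroup Y] [Module F2 Y] (a b : V) :
    (Finset V → Y) →ₗ[F2] (Finset V → Y) where
  toFun z s := if a ∉ s ∧ b ∉ s then z s else 0
  map_add' f g := by
    funext s
    by_cases h : a ∉ s ∧ b ∉ s
    · simp only [if_pos h, Pi.add_apply]
    · simp only [if_neg h, Pi.add_apply, add_zero]
  map_smul' c f := by
    funext s
    by_cases h : a ∉ s ∧ b ∉ s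
    · simp only [if_pos h, Pi.smul_apply, RingHom.id_apply]
    · simp only [if_neg h, Pi.smul_apply, RingHom.id_apply, smul_zero]

/-- the sets without `a`, `b` -/
private theorem SuspA_cq {G : SimpleGraph V} {U : Finset V} {a b : V} {s : Finset V}
    (ha : a ∉ s) (hb : b ∉ s) : Cq G ((U.erase a).erase b) s ↔ Cq G U s := by
  constructor
  · rintro ⟨h1, h2⟩
    exact ⟨h1, h2.trans ((erase_subset _ _).trans (erase_subset _ _))⟩
  · rintro ⟨h1, h2⟩
    refine ⟨h1, fun v hv => ?_⟩
    rw [mem_erase, mem_erase]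
    exact ⟨fun h => hb (h ▸ hv), fun h => ha (h ▸ hv), h2 hv⟩

private theorem SuspA_cq' {G : SimpleGraph V} {U : Finset V} {a b : V} {s : Finset V}
    (h : Cq G ((U.erase a).erase b) s) : a ∉ s ∧ b ∉ s := by
  constructor
  · intro hs
    have := h.2 hs
    rw [mem_erase, mem_erase] at this
    exact this.2.1 rfl
  · intro hs
    have := h.2 hs
    rw [mem_erase] at this
    exact this.1 rfl

/-- cliques with `a` -/
private theorem SuspA_ins {G : SimpleGraph V} {U : Finset V} {a b : V} (ha : a ∈ U)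
    (h : ∀ w ∈ U, w ≠ a → w ≠ b → G.Adj a w) {t : Finset V} (h1 : a ∉ t) (h2 : b ∉ t) :
    Cq G U (insert a t) ↔ Cq G U t := by
  constructor
  · exact mono_Cq G U t a
  · rintro ⟨h3, h4⟩
    refine ⟨?_, insert_subset ha h4⟩
    rw [coe_insert, SimpleGraph.isClique_insert]
    refine ⟨h3, fun w hw _ => ?_⟩
    have hw' : w ∈ t := hw
    exact h w (h4 hw') (fun e => h1 (e ▸ hw')) (fun e => h2 (e ▸ hw'))

private theorem SuspA_Sy_pos {X : Finset V → Prop} {r : V → Module.End F2 Y} {s : Finset V}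
    (h : X s) : Sy X r s = Inv r s := by
  ext y
  rw [mem_Sy, mem_Inv]
  exact ⟨fun hy => hy.2, fun hy => ⟨fun hn => absurd h hn, hy⟩⟩

private theorem SuspA_Sy_neg {X : Finset V → Prop} {r : V → Module.End F2 Y} {s : Finset V}
    (h : ¬ X s) : Module.finrank F2 (Sy X r s) = 0 := by
  have : Sy X r s = ⊥ := by
    rw [eq_bot_iff]
    intro y hy
    rw [Submodule.mem_bot]
    exact hy.1 h
  rw [this, finrank_bot]

/-- the dimension of the space of cycles -/
private theorem SuspA_cyc {G : SimpleGraph V} {U : Finset V} {a b : V}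
    (hab : a ≠ b) (hn : ¬ G.Adj a b) {r : V → Module.End F2 Y} (j : ℕ) :
    Module.finrank F2 (Ch (Sy (Cq G U) r) j ⊓ LinearMap.ker dd : Submodule F2 (Finset V → Y)) ≤
      Module.finrank F2 (Ch (Sy (Cq G ((U.erase a).erase b)) r) j) +
        2 ^ Fintype.card V * Module.finrank F2 (Inv r {a, b}) := by
  obtain ⟨Z, hZ⟩ : ∃ Z : Submodule F2 (Finset V → Y),
      Z = (Ch (Sy (Cq G U) r) j ⊓ LinearMap.ker dd : Submodule F2 (Finset V → Y)) := ⟨_, rfl⟩
  rw [← hZ]
  have hZ1 : ∀ z ∈ Z, z ∈ Ch (Sy (Cq G U) r) j := by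
    intro z hz
    rw [hZ] at hz
    exact hz.1
  have hZ2 : ∀ z ∈ Z, dd z = 0 := by
    intro z hz
    rw [hZ] at hz
    exact hz.2
  obtain ⟨ρ, hρ⟩ : ∃ ρ : Z →ₗ[F2] (Finset V → Y), ρ = (SuspA_rho Y a b).domRestrict Z := ⟨_, rfl⟩
  have hρa : ∀ (z : Z) (s : Finset V), ρ z s = if a ∉ s ∧ b ∉ s then (z : Finset V → Y) s else 0 := by
    intro z s
    rw [hρ]
    rfl
  have h1 := LinearMap.finrank_range_add_finrank_ker ρ
  have h2 : Module.finrank F2 (LinearMap.range ρ) ≤
      Module.finrank F2 (Ch (Sy (Cq G ((U.erase a).erase b)) r) j) := by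
    apply Submodule.finrank_mono
    rintro _ ⟨z, rfl⟩
    rw [mem_Ch]
    intro s
    have hz := (mem_Ch.1 (hZ1 z.1 z.2)) s
    rw [hρa]
    by_cases h : a ∉ s ∧ b ∉ s
    · rw [if_pos h]
      refine ⟨?_, hz.2⟩
      rw [mem_Sy]
      refine ⟨fun hc => ?_, (mem_Sy.1 hz.1).2⟩
      exact (mem_Sy.1 hz.1).1 fun hc' => hc ((SuspA_cq h.1 h.2).2 hc')
    · rw [if_neg h]
      exact ⟨Submodule.zero_mem _, fun _ => rfl⟩
  have hk0 : ∀ z : LinearMap.ker ρ, ∀ s : Finset V, a ∉ s → b ∉ s → (z.1 : Finset V → Y) s = 0 := by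
    intro z s h3 h4
    have h5 : ρ z.1 = 0 := z.2
    have h6 := hρa z.1 s
    rw [h5, if_pos ⟨h3, h4⟩] at h6
    exact h6.symm
  have hke : ∀ z : LinearMap.ker ρ, ∀ t : Finset V, a ∉ t → b ∉ t →
      (z.1 : Finset V → Y) (insert a t) = (z.1 : Finset V → Y) (insert b t) := by
    intro z t h3 h4
    have h5 : dd (z.1 : Finset V → Y) t = 0 := by
      rw [hZ2 _ z.1.2]
      rfl
    rw [dd_apply] at h5
    have ha' : a ∈ tᶜ := mem_compl.2 h3
    have hb' : b ∈ tᶜ.erase a := mem_erase.2 ⟨hab.symm, mem_compl.2 h4⟩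
    rw [← add_sum_erase _ _ ha', ← add_sum_erase _ _ hb', sum_eq_zero, add_zero] at h5
    · have h6 := ZModModule.add_self ((z.1 : Finset V → Y) (insert b t))
      calc (z.1 : Finset V → Y) (insert a t)
          = (z.1 : Finset V → Y) (insert a t) + ((z.1 : Finset V → Y) (insert b t) +
            (z.1 : Finset V → Y) (insert b t)) := by rw [h6, add_zero]
        _ = (z.1 : Finset V → Y) (insert b t) := by rw [← add_assoc, h5, zero_add]
    · intro v hv
      rw [mem_erase, mem_erase] at hv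
      apply hk0 z
      · intro h7
        rcases mem_insert.1 h7 with h7 | h7
        · exact hv.2.1 h7.symm
        · exact h3 h7
      · intro h7
        rcases mem_insert.1 h7 with h7 | h7
        · exact hv.1 h7.symm
        · exact h4 h7
  have hki : ∀ t : Finset V, a ∉ t → b ∉ t → ∀ z : LinearMap.ker ρ,
      (z.1 : Finset V → Y) (insert a t) ∈ Inv r {a, b} := by
    intro t h3 h4 z
    rw [mem_Inv]
    intro v hv
    rcases mem_insert.1 hv with rfl | hv
    · exact (mem_Sy.1 (mem_Ch.1 (hZ1 _ z.1.2) _).1).2 _ (mem_insert_self _ _)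
    · rw [mem_singleton] at hv
      subst hv
      rw [hke z t h3 h4]
      exact (mem_Sy.1 (mem_Ch.1 (hZ1 _ z.1.2) _).1).2 _ (mem_insert_self _ _)
  obtain ⟨κ, hκ⟩ : ∃ κ : LinearMap.ker ρ →ₗ[F2] (Finset V → Inv r {a, b}),
      ∀ (z : LinearMap.ker ρ) (t : Finset V), a ∉ t → b ∉ t →
        ((κ z t : Inv r {a, b}) : Y) = (z.1 : Finset V → Y) (insert a t) := by
    classical
    refine ⟨LinearMap.pi fun t => if h : a ∉ t ∧ b ∉ t then
      LinearMap.codRestrict (Inv r {a, b})
        ((LinearMap.proj (insert a t)).comp (Z.subtype.comp (LinearMap.ker ρ).subtype))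
        (hki t h.1 h.2) else 0, ?_⟩
    intro z t h3 h4
    rw [LinearMap.pi_apply, dif_pos ⟨h3, h4⟩]
    rfl
  have h3 : Module.finrank F2 (LinearMap.ker ρ) ≤
      2 ^ Fintype.card V * Module.finrank F2 (Inv r {a, b}) := by
    have h4 : Module.finrank F2 (Finset V → Inv r {a, b}) =
        2 ^ Fintype.card V * Module.finrank F2 (Inv r {a, b}) := by
      rw [Module.finrank_pi_fintype, sum_const, card_univ, Fintype.card_finset, smul_eq_mul]
    rw [← h4]
    apply LinearMap.finrank_le_finrank_of_injective (f := κ)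
    rw [← LinearMap.ker_eq_bot, eq_bot_iff]
    intro z hz
    rw [Submodule.mem_bot]
    have hz0 : κ z = 0 := hz
    apply Subtype.ext
    apply Subtype.ext
    funext s
    show (z.1 : Finset V → Y) s = 0
    have key : ∀ t : Finset V, a ∉ t → b ∉ t → (z.1 : Finset V → Y) (insert a t) = 0 := by
      intro t h5 h6
      rw [← hκ z t h5 h6, hz0]
      rfl
    by_cases has : a ∈ s
    · by_cases hbs : b ∈ s
      · refine (mem_Sy.1 (mem_Ch.1 (hZ1 _ z.1.2) s).1).1 fun hc => ?_
        exact hn (hc.1 has hbs hab)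
      · rw [← insert_erase has]
        exact key _ (notMem_erase _ _) fun h => hbs (mem_of_mem_erase h)
    · by_cases hbs : b ∈ s
      · rw [← insert_erase hbs, ← hke z]
        · exact key _ (fun h => has (mem_of_mem_erase h)) (notMem_erase _ _)
        · exact fun h => has (mem_of_mem_erase h)
        · exact notMem_erase _ _
      · exact hk0 z s has hbs
  omega

/-- the dimension of the chains -/
private theorem SuspA_dim {G : SimpleGraph V} {U : Finset V} {a b : V} (ha : a ∈ U) (hb : b ∈ U)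
    (hab : a ≠ b) (h : ∀ w ∈ U, w ≠ a → w ≠ b → G.Adj a w ∧ G.Adj b w)
    {r E : V → Module.End F2 Y} (hN : IsN G U r) (hB : IsBit G U r E) (i : ℕ) :
    Module.finrank F2 (Ch (Sy (Cq G ((U.erase a).erase b)) r) (i + 1)) +
      Module.finrank F2 (Ch (Sy (Cq G ((U.erase a).erase b)) r) i) ≤
        Module.finrank F2 (Ch (Sy (Cq G U) r) (i + 1)) := by
  classical
  rw [finrank_Ch, finrank_Ch, finrank_Ch]
  obtain ⟨fW, hfW⟩ : ∃ fW : Finset V → ℕ, ∀ s, fW s =
      Module.finrank F2 (Sy (Cq G ((U.erase a).erase b)) r s) := ⟨_, fun _ => rfl⟩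
  obtain ⟨fU, hfU⟩ : ∃ fU : Finset V → ℕ, ∀ s, fU s =
      Module.finrank F2 (Sy (Cq G U) r s) := ⟨_, fun _ => rfl⟩
  simp only [← hfW, ← hfU]
  obtain ⟨p, hp⟩ : ∃ p : Finset V → Prop, ∀ s, p s ↔ a ∉ s ∧ b ∉ s := ⟨_, fun _ => Iff.rfl⟩
  have e1 : ∀ s, p s → fW s = fU s := by
    intro s hs
    rw [hp] at hs
    rw [hfW, hfU]
    by_cases hc : Cq G U s
    · rw [SuspA_Sy_pos hc, SuspA_Sy_pos ((SuspA_cq hs.1 hs.2).2 hc)]
    · rw [SuspA_Sy_neg hc, SuspA_Sy_neg fun hc' => hc ((SuspA_cq hs.1 hs.2).1 hc')]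
  have e2 : ∀ s, ¬ p s → fW s = 0 := by
    intro s hs
    rw [hfW]
    apply SuspA_Sy_neg
    intro hc
    exact hs ((hp s).2 (SuspA_cq' hc))
  have e3 : ∀ t, p t → fW t = fU (insert a t) + fU (insert b t) := by
    intro t ht
    have ht' := (hp t).1 ht
    have i1 := SuspA_ins (G := G) (U := U) ha (fun w h1 h2 h3 => (h w h1 h2 h3).1) ht'.1 ht'.2
    have i2 := SuspA_ins (G := G) (U := U) hb (fun w h1 h2 h3 => (h w h1 h3 h2).2) ht'.2 ht'.1
    rw [e1 t ht, hfU, hfU, hfU]
    by_cases hc : Cq G U t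
    · rw [SuspA_Sy_pos hc, SuspA_Sy_pos (i1.2 hc), SuspA_Sy_pos (i2.2 hc)]
      have f0 := finrank_Inv (hB.bitOn hN hc)
      have f1 := finrank_Inv (hB.bitOn hN (i1.2 hc))
      have f2 := finrank_Inv (hB.bitOn hN (i2.2 hc))
      rw [card_insert_of_notMem ht'.1, pow_succ] at f1
      rw [card_insert_of_notMem ht'.2, pow_succ] at f2
      have hpos : 0 < 2 ^ t.card := by positivity
      have g1 : Module.finrank F2 (Inv r t) = Module.finrank F2 (Inv r (insert a t)) * 2 := by
        apply Nat.eq_of_mul_eq_mul_right hpos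
        rw [f0, ← f1]
        ring
      have g2 : Module.finrank F2 (Inv r t) = Module.finrank F2 (Inv r (insert b t)) * 2 := by
        apply Nat.eq_of_mul_eq_mul_right hpos
        rw [f0, ← f2]
        ring
      omega
    · rw [SuspA_Sy_neg hc, SuspA_Sy_neg fun h' => hc (i1.1 h'),
        SuspA_Sy_neg fun h' => hc (i2.1 h')]
  obtain ⟨S, hS⟩ : ∃ S : ℕ → Finset (Finset V), ∀ j,
      S j = (univ : Finset (Finset V)).filter fun s => s.card = j := ⟨_, fun _ => rfl⟩
  rw [← hS, ← hS]
  have hSm : ∀ j s, s ∈ S j ↔ s.card = j := by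
    intro j s
    rw [hS]
    simp
  have s1 : ∑ s ∈ S (i + 1), fW s = ∑ s ∈ (S (i + 1)).filter p, fU s := by
    rw [sum_filter]
    refine sum_congr rfl fun s _ => ?_
    by_cases hs : p s
    · rw [if_pos hs, e1 s hs]
    · rw [if_neg hs, e2 s hs]
  have s2 : ∑ s ∈ S i, fW s = ∑ t ∈ (S i).filter p, fU (insert a t) +
      ∑ t ∈ (S i).filter p, fU (insert b t) := by
    rw [← sum_add_distrib, sum_filter]
    refine sum_congr rfl fun s _ => ?_
    by_cases hs : p s
    · rw [if_pos hs, e3 s hs]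
    · rw [if_neg hs, e2 s hs]
  have inj : ∀ c, (∀ t, p t → c ∉ t) → Set.InjOn (insert c : Finset V → Finset V)
      ((S i).filter p : Set (Finset V)) := by
    intro c hc t ht t' ht' he
    have h1 : c ∉ t := hc t (mem_filter.1 ht).2
    have h2 : c ∉ t' := hc t' (mem_filter.1 ht').2
    have he' : insert c t = insert c t' := he
    rw [← erase_insert h1, he', erase_insert h2]
  have s3 : ∑ t ∈ (S i).filter p, fU (insert a t) = ∑ s ∈ ((S i).filter p).image (insert a), fU s := by
    rw [sum_image (inj a fun t ht => ((hp t).1 ht).1)]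
  have s4 : ∑ t ∈ (S i).filter p, fU (insert b t) = ∑ s ∈ ((S i).filter p).image (insert b), fU s := by
    rw [sum_image (inj b fun t ht => ((hp t).1 ht).2)]
  have d1 : Disjoint (((S i).filter p).image (insert a)) (((S i).filter p).image (insert b)) := by
    rw [disjoint_left]
    intro s hs hs'
    obtain ⟨t, ht, rfl⟩ := mem_image.1 hs
    obtain ⟨t', ht', he⟩ := mem_image.1 hs'
    have h1 : a ∈ insert b t' := by
      rw [he]
      exact mem_insert_self _ _
    rcases mem_insert.1 h1 with h1 | h1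
    · exact hab h1
    · exact ((hp t').1 (mem_filter.1 ht').2).1 h1
  have d2 : Disjoint ((S (i + 1)).filter p)
      (((S i).filter p).image (insert a) ∪ ((S i).filter p).image (insert b)) := by
    rw [disjoint_left]
    intro s hs hs'
    have hs1 := (hp s).1 (mem_filter.1 hs).2
    rcases mem_union.1 hs' with hs' | hs'
    · obtain ⟨t, ht, rfl⟩ := mem_image.1 hs'
      exact hs1.1 (mem_insert_self _ _)
    · obtain ⟨t, ht, rfl⟩ := mem_image.1 hs'
      exact hs1.2 (mem_insert_self _ _)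
  rw [s1, s2, s3, s4, ← sum_union d1, ← sum_union d2]
  apply sum_le_sum_of_subset
  intro s hs
  rcases mem_union.1 hs with hs | hs
  · exact (mem_filter.1 hs).1
  · rw [hSm]
    rcases mem_union.1 hs with hs | hs
    · obtain ⟨t, ht, rfl⟩ := mem_image.1 hs
      rw [card_insert_of_notMem ((hp t).1 (mem_filter.1 ht).2).1, (hSm i t).1 (mem_filter.1 ht).1]
    · obtain ⟨t, ht, rfl⟩ := mem_image.1 hs
      rw [card_insert_of_notMem ((hp t).1 (mem_filter.1 ht).2).2, (hSm i t).1 (mem_filter.1 ht).1]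

theorem susp_le {G : SimpleGraph V} {U : Finset V} {a b : V} (ha : a ∈ U) (hb : b ∈ U)
    (hab : a ≠ b) (hn : ¬ G.Adj a b) (h : ∀ w ∈ U, w ≠ a → w ≠ b → G.Adj a w ∧ G.Adj b w)
    {r E : V → Module.End F2 Y} (hN : IsN G U r) (hB : IsBit G U r E) (i : ℕ) :
    hX (Cq G U) r i ≤ 2 ^ (Fintype.card V + 1) * Module.finrank F2 (Inv r {a, b}) := by
  unfold hX hd
  rw [hx_eq]
  have h1 := SuspA_cyc (U := U) hab hn (r := r) i
  have h2 := SuspA_cyc (U := U) hab hn (r := r) (i + 1)
  have h3 := SuspA_dim ha hb hab h hN hB i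
  have h4 : (2 : ℕ) ^ (Fintype.card V + 1) * Module.finrank F2 (Inv r {a, b}) =
      2 ^ Fintype.card V * Module.finrank F2 (Inv r {a, b}) +
        2 ^ Fintype.card V * Module.finrank F2 (Inv r {a, b}) := by
    rw [pow_succ]
    ring
  have h5 : (2 : ℤ) ^ (Fintype.card V + 1) * Module.finrank F2 (Inv r {a, b}) =
      ((2 ^ Fintype.card V * Module.finrank F2 (Inv r {a, b}) +
        2 ^ Fintype.card V * Module.finrank F2 (Inv r {a, b}) : ℕ) : ℤ) := by
    rw [← h4]
    push_cast
    rfl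
  rw [h5]
  omega

end Pool.Agent.H73.GC

end

section

/-!
# Growth calculus: suspensions

The module: the functions `f (j, c)`, `j : ZMod (2 ^ (m + 1))`, `c : V → ZMod 2`; `a` acts by `j ↦ -1 - j`, `b` by
`j ↦ 1 - j`, the other vertices `w` by `c ↦ c + e_w`; the projection of `a` and of `b` is the restriction to
even `j`, the projection of `w` the restriction to `c w = 0`. A function which is invariant under `a` and `b`
does not depend on `j`. The group is the product of a dihedral group and an elementary abelian one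
(`fil_group`).
-/

set_option autoImplicit false
set_option linter.unusedSectionVars false

open Finset

namespace Pool.Agent.H73.GC

variable {V : Type} [DecidableEq V] [Fintype V]

section SuspB_section

/-- the index set -/
abbrev SuspB_X (V : Type) (m : ℕ) : Type := ZMod (2 ^ (m + 1)) × (V → ZMod 2)

/-- the group -/
abbrev SuspB_P (V : Type) (m : ℕ) : Type :=
  DihedralGroup (2 ^ (m + 1)) × Multiplicative (V → ZMod 2)

/-- the action of the dihedral group -/
def SuspB_act {m : ℕ} (d : DihedralGroup (2 ^ (m + 1))) (j : ZMod (2 ^ (m + 1))) :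
    ZMod (2 ^ (m + 1)) :=
  match d with
  | .r i => j + i
  | .sr i => -j - i

theorem SuspB_act_mul {m : ℕ} (d e : DihedralGroup (2 ^ (m + 1))) (j : ZMod (2 ^ (m + 1))) :
    SuspB_act (d * e) j = SuspB_act d (SuspB_act e j) := by
  rcases d with i | i <;> rcases e with k | k <;>
    simp only [DihedralGroup.r_mul_r, DihedralGroup.r_mul_sr, DihedralGroup.sr_mul_r,
      DihedralGroup.sr_mul_sr, SuspB_act] <;> ring

theorem SuspB_act_one {m : ℕ} (j : ZMod (2 ^ (m + 1))) :
    SuspB_act (1 : DihedralGroup (2 ^ (m + 1))) j = j := by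
  show j + 0 = j
  rw [add_zero]

/-- the action of the group -/
def SuspB_sig {m : ℕ} (p : SuspB_P V m) (x : SuspB_X V m) : SuspB_X V m :=
  (SuspB_act p.1 x.1, x.2 + p.2.toAdd)

theorem SuspB_sig_mul {m : ℕ} (p q : SuspB_P V m) (x : SuspB_X V m) :
    SuspB_sig (p * q) x = SuspB_sig p (SuspB_sig q x) := by
  refine Prod.ext (SuspB_act_mul _ _ _) ?_
  show x.2 + (p.2 * q.2).toAdd = x.2 + q.2.toAdd + p.2.toAdd
  rw [toAdd_mul]
  abel

theorem SuspB_sig_one {m : ℕ} (x : SuspB_X V m) : SuspB_sig (1 : SuspB_P V m) x = x := by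
  refine Prod.ext (SuspB_act_one _) ?_
  show x.2 + (0 : V → ZMod 2) = x.2
  rw [add_zero]

variable (V) in
/-- the representation -/
def SuspB_rho (m : ℕ) : SuspB_P V m →* Module.End F2 (SuspB_X V m → F2) where
  toFun p := LinearMap.funLeft F2 F2 (SuspB_sig p⁻¹)
  map_one' := by
    refine LinearMap.ext fun f => funext fun x => ?_
    show f (SuspB_sig (1 : SuspB_P V m)⁻¹ x) = f x
    rw [inv_one, SuspB_sig_one]
  map_mul' p q := by
    refine LinearMap.ext fun f => funext fun x => ?_
    show f (SuspB_sig (p * q)⁻¹ x) = f (SuspB_sig q⁻¹ (SuspB_sig p⁻¹ x))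
    rw [mul_inv_rev, SuspB_sig_mul]

theorem SuspB_rho_apply {m : ℕ} (p : SuspB_P V m) (f : SuspB_X V m → F2) (x : SuspB_X V m) :
    SuspB_rho V m p f x = f (SuspB_sig p⁻¹ x) := rfl

theorem SuspB_pgroup (m : ℕ) : IsPGroup 2 (SuspB_P V m) := by
  refine IsPGroup.of_card (n := m + 2 + Fintype.card V) ?_
  rw [Nat.card_prod, DihedralGroup.nat_card]
  have h : Nat.card (Multiplicative (V → ZMod 2)) = 2 ^ Fintype.card V := by
    rw [Nat.card_congr Multiplicative.toAdd, Nat.card_eq_fintype_card, Fintype.card_fun, ZMod.card]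
  rw [h]
  ring

/-- multiplication by an indicator function -/
def SuspB_E {X : Type} (k : X → ZMod 2) : Module.End F2 (X → F2) where
  toFun f x := if k x = 0 then f x else 0
  map_add' f g := by
    funext x
    by_cases h : k x = 0 <;> simp [h]
  map_smul' c f := by
    funext x
    by_cases h : k x = 0 <;> simp [h]

theorem SuspB_E_apply {X : Type} (k : X → ZMod 2) (f : X → F2) (x : X) :
    SuspB_E k f x = if k x = 0 then f x else 0 := rfl

theorem SuspB_idem {X : Type} (k : X → ZMod 2) (f : X → F2) :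
    SuspB_E k (SuspB_E k f) = SuspB_E k f := by
  funext x
  simp only [SuspB_E_apply]
  split_ifs <;> rfl

theorem SuspB_comm {X : Type} (k l : X → ZMod 2) (f : X → F2) :
    SuspB_E k (SuspB_E l f) = SuspB_E l (SuspB_E k f) := by
  funext x
  simp only [SuspB_E_apply]
  split_ifs <;> rfl

theorem SuspB_two (t : ZMod 2) : t = 0 ∨ t = 1 := by
  revert t
  decide

theorem SuspB_bit {m : ℕ} (k : SuspB_X V m → ZMod 2) (p : SuspB_P V m)
    (h : ∀ x, k (SuspB_sig p⁻¹ x) = k x + 1) (f : SuspB_X V m → F2) :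
    SuspB_E k (SuspB_rho V m p f) + SuspB_rho V m p (SuspB_E k f) = SuspB_rho V m p f := by
  funext x
  simp only [Pi.add_apply, SuspB_E_apply, SuspB_rho_apply, h]
  rcases SuspB_two (k x) with h0 | h0
  · rw [h0, if_pos rfl, if_neg (by decide), add_zero]
  · rw [h0, if_neg (by decide), if_pos (by decide), zero_add]

theorem SuspB_er {m : ℕ} (k : SuspB_X V m → ZMod 2) (p : SuspB_P V m)
    (h : ∀ x, k (SuspB_sig p⁻¹ x) = k x) (f : SuspB_X V m → F2) :
    SuspB_E k (SuspB_rho V m p f) = SuspB_rho V m p (SuspB_E k f) := by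
  funext x
  simp only [SuspB_E_apply, SuspB_rho_apply, h]

/-- the group elements of the vertices -/
def SuspB_g (a b : V) (m : ℕ) (v : V) : SuspB_P V m :=
  if v = a then (.sr 1, 1) else if v = b then (.sr (-1), 1) else
    (1, Multiplicative.ofAdd (Pi.single v 1))

theorem SuspB_g_sq (a b : V) (m : ℕ) (v : V) : SuspB_g a b m v * SuspB_g a b m v = 1 := by
  unfold SuspB_g
  split_ifs
  · refine Prod.ext ?_ (one_mul 1)
    exact DihedralGroup.sr_mul_self _
  · refine Prod.ext ?_ (one_mul 1)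
    exact DihedralGroup.sr_mul_self _
  · refine Prod.ext (one_mul 1) ?_
    show Multiplicative.ofAdd (Pi.single v 1 : V → ZMod 2) *
      Multiplicative.ofAdd (Pi.single v 1 : V → ZMod 2) = 1
    rw [← ofAdd_add, ← Pi.single_add]
    have : (1 : ZMod 2) + 1 = 0 := by decide
    rw [this, Pi.single_zero, ofAdd_zero]

theorem SuspB_g_inv (a b : V) (m : ℕ) (v : V) : (SuspB_g a b m v)⁻¹ = SuspB_g a b m v :=
  inv_eq_of_mul_eq_one_right (SuspB_g_sq a b m v)

theorem SuspB_g_comm {G : SimpleGraph V} {a b : V} (hn : ¬ G.Adj a b) (m : ℕ) {u v : V}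
    (h : G.Adj u v) : SuspB_g a b m u * SuspB_g a b m v = SuspB_g a b m v * SuspB_g a b m u := by
  unfold SuspB_g
  by_cases hua : u = a
  · subst hua
    by_cases hvb : v = b
    · subst hvb
      exact absurd h hn
    · rw [if_pos rfl, if_neg h.ne', if_neg hvb]
      refine Prod.ext ?_ (mul_comm _ _)
      rw [Prod.fst_mul, Prod.fst_mul, one_mul, mul_one]
  · by_cases hub : u = b
    · subst hub
      by_cases hva : v = a
      · subst hva
        exact absurd h.symm hn
      · rw [if_neg hua, if_pos rfl, if_neg hva, if_neg h.ne']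
        refine Prod.ext ?_ (mul_comm _ _)
        rw [Prod.fst_mul, Prod.fst_mul, one_mul, mul_one]
    · rw [if_neg hua, if_neg hub]
      refine Prod.ext ?_ (mul_comm _ _)
      rw [Prod.fst_mul, Prod.fst_mul, one_mul, mul_one]

/-- parity -/
def SuspB_par (m : ℕ) : ZMod (2 ^ (m + 1)) →+* ZMod 2 :=
  ZMod.castHom (dvd_pow_self 2 (Nat.succ_ne_zero m)) (ZMod 2)

/-- the key functions -/
def SuspB_key (a b : V) (m : ℕ) (v : V) (x : SuspB_X V m) : ZMod 2 :=
  if v = a ∨ v = b then SuspB_par m x.1 else x.2 v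

theorem SuspB_key_self {a b : V} (m : ℕ) (v : V) (x : SuspB_X V m) :
    SuspB_key a b m v (SuspB_sig (SuspB_g a b m v)⁻¹ x) = SuspB_key a b m v x + 1 := by
  rw [SuspB_g_inv]
  unfold SuspB_key SuspB_g
  by_cases hva : v = a
  · subst hva
    rw [if_pos (Or.inl rfl), if_pos (Or.inl rfl), if_pos rfl]
    show SuspB_par m (-x.1 - 1) = SuspB_par m x.1 + 1
    rw [map_sub, map_neg, map_one]
    rcases SuspB_two (SuspB_par m x.1) with h | h <;> rw [h] <;> decide
  · by_cases hvb : v = b
    · subst hvb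
      rw [if_pos (Or.inr rfl), if_pos (Or.inr rfl), if_neg hva, if_pos rfl]
      show SuspB_par m (-x.1 - (-1)) = SuspB_par m x.1 + 1
      rw [map_sub, map_neg, map_neg, map_one]
      rcases SuspB_two (SuspB_par m x.1) with h | h <;> rw [h] <;> decide
    · have hor : ¬ (v = a ∨ v = b) := by tauto
      rw [if_neg hor, if_neg hor, if_neg hva, if_neg hvb]
      show (x.2 + (Pi.single v 1 : V → ZMod 2)) v = x.2 v + 1
      rw [Pi.add_apply, Pi.single_eq_same]

theorem SuspB_key_adj {G : SimpleGraph V} {a b : V} (hab : a ≠ b) (hn : ¬ G.Adj a b) (m : ℕ)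
    {u v : V} (h : G.Adj u v) (x : SuspB_X V m) :
    SuspB_key a b m u (SuspB_sig (SuspB_g a b m v)⁻¹ x) = SuspB_key a b m u x := by
  rw [SuspB_g_inv]
  unfold SuspB_key SuspB_g
  by_cases hu : u = a ∨ u = b
  · rw [if_pos hu, if_pos hu]
    have hva : v ≠ a := by
      rintro rfl
      rcases hu with rfl | rfl
      · exact h.ne rfl
      · exact hn h.symm
    have hvb : v ≠ b := by
      rintro rfl
      rcases hu with rfl | rfl
      · exact hn h
      · exact h.ne rfl
    rw [if_neg hva, if_neg hvb]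
    show SuspB_par m (SuspB_act 1 x.1) = SuspB_par m x.1
    rw [SuspB_act_one]
  · rw [if_neg hu, if_neg hu]
    split_ifs with hva hvb
    · show (x.2 + (0 : V → ZMod 2)) u = x.2 u
      rw [add_zero]
    · show (x.2 + (0 : V → ZMod 2)) u = x.2 u
      rw [add_zero]
    · show (x.2 + (Pi.single v 1 : V → ZMod 2)) u = x.2 u
      rw [Pi.add_apply, Pi.single_eq_of_ne h.ne, add_zero]

theorem SuspB_const {N : ℕ} [NeZero N] (f : ZMod N → F2) (h1 : ∀ j, f (-j - 1) = f j)
    (h2 : ∀ j, f (-j - (-1)) = f j) (j : ZMod N) : f j = f 0 := by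
  have h3 : ∀ j, f (j + 2) = f j := by
    intro j
    have e1 := h2 (-j - 1)
    rw [h1 j] at e1
    rw [← e1]
    congr 1
    ring
  have h4 : f 1 = f 0 := by
    have e1 := h3 (-1)
    have e2 := h1 0
    rw [neg_zero, zero_sub] at e2
    rw [← e2, ← e1]
    congr 1
    ring
  have h5 : ∀ k : ℕ, f (k : ZMod N) = f 0 ∧ f ((k + 1 : ℕ) : ZMod N) = f 0 := by
    intro k
    induction k with
    | zero =>
      rw [Nat.cast_zero, zero_add, Nat.cast_one]
      exact ⟨rfl, h4⟩
    | succ k ih =>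
      refine ⟨ih.2, ?_⟩
      rw [← ih.1, ← h3 (k : ZMod N)]
      congr 1
      push_cast
      ring
  have h6 := (h5 j.val).1
  rwa [ZMod.natCast_zmod_val] at h6

end SuspB_section

theorem susp_mod {G : SimpleGraph V} {U : Finset V} {a b : V} (hab : a ≠ b) (hn : ¬ G.Adj a b)
    (m : ℕ) : ∃ (Y : Type) (_ : AddCommGroup Y) (_ : Module F2 Y) (_ : Finite Y)
      (r E : V → Module.End F2 Y), IsN G U r ∧ IsBit G U r E ∧ 0 < Module.finrank F2 Y ∧
        2 ^ m * Module.finrank F2 (Inv r {a, b}) ≤ Module.finrank F2 Y := by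
  have hfr : Module.finrank F2 (SuspB_X V m → F2) = 2 ^ (m + 1) * 2 ^ Fintype.card V := by
    rw [Module.finrank_fintype_fun_eq_card, Fintype.card_prod, ZMod.card, Fintype.card_fun,
      ZMod.card]
  refine ⟨SuspB_X V m → F2, inferInstance, inferInstance, inferInstance,
    fun v => SuspB_rho V m (SuspB_g a b m v), fun v => SuspB_E (SuspB_key a b m v),
    ⟨?_, ?_, ?_⟩, ⟨?_, ?_, ?_, ?_⟩, ?_, ?_⟩
  · intro v _ y
    show (SuspB_rho V m (SuspB_g a b m v) * SuspB_rho V m (SuspB_g a b m v)) y = y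
    rw [← map_mul, SuspB_g_sq, map_one]
    rfl
  · intro u _ v _ huv y
    show (SuspB_rho V m (SuspB_g a b m u) * SuspB_rho V m (SuspB_g a b m v)) y =
      (SuspB_rho V m (SuspB_g a b m v) * SuspB_rho V m (SuspB_g a b m u)) y
    rw [← map_mul, ← map_mul, SuspB_g_comm hn m huv]
  · exact fil_group (SuspB_pgroup m) (SuspB_rho V m) U _ (SuspB_g a b m) fun v _ => rfl
  · exact fun v _ y => SuspB_idem _ y
  · exact fun v _ y => SuspB_bit _ _ (SuspB_key_self m v) y
  · exact fun u _ v _ huv y => SuspB_er _ _ (SuspB_key_adj hab hn m huv) y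
  · exact fun u _ v _ _ y => SuspB_comm _ _ y
  · rw [hfr]
    positivity
  · have hle : Module.finrank F2 (Inv (fun v => SuspB_rho V m (SuspB_g a b m v)) {a, b}) ≤
        2 ^ Fintype.card V := by
      have hf2 : Module.finrank F2 ((V → ZMod 2) → F2) = 2 ^ Fintype.card V := by
        rw [Module.finrank_fintype_fun_eq_card, Fintype.card_fun, ZMod.card]
      rw [← hf2]
      refine LinearMap.finrank_le_finrank_of_injective (f :=
        (LinearMap.funLeft F2 F2 (fun c : V → ZMod 2 => ((0, c) : SuspB_X V m))) ∘ₗ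
          (Inv (fun v => SuspB_rho V m (SuspB_g a b m v)) {a, b}).subtype) ?_
      intro f g hfg
      have hconst : ∀ f : Inv (fun v => SuspB_rho V m (SuspB_g a b m v)) {a, b},
          ∀ j c, f.1 (j, c) = f.1 (0, c) := by
        intro f j c
        refine SuspB_const (fun j => f.1 (j, c)) ?_ ?_ j
        · intro j
          have h1 := congrFun (f.2 a (by simp)) (j, c)
          rw [SuspB_rho_apply, SuspB_g_inv] at h1
          have h2 : SuspB_sig (SuspB_g a b m a) (j, c) = (-j - 1, c) := by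
            unfold SuspB_g
            rw [if_pos rfl]
            refine Prod.ext rfl ?_
            show c + (0 : V → ZMod 2) = c
            rw [add_zero]
          rwa [h2] at h1
        · intro j
          have h1 := congrFun (f.2 b (by simp)) (j, c)
          rw [SuspB_rho_apply, SuspB_g_inv] at h1
          have h2 : SuspB_sig (SuspB_g a b m b) (j, c) = (-j - (-1), c) := by
            unfold SuspB_g
            rw [if_neg hab.symm, if_pos rfl]
            refine Prod.ext rfl ?_
            show c + (0 : V → ZMod 2) = c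
            rw [add_zero]
          rwa [h2] at h1
      apply Subtype.ext
      funext x
      obtain ⟨j, c⟩ := x
      rw [hconst f j c, hconst g j c]
      exact congrFun hfg c
    rw [hfr]
    exact Nat.mul_le_mul (Nat.pow_le_pow_right (by omega) (Nat.le_succ m)) hle

theorem gz_susp {G : SimpleGraph V} {U : Finset V} {a b : V} (ha : a ∈ U) (hb : b ∈ U)
    (hab : a ≠ b) (hn : ¬ G.Adj a b) (h : ∀ w ∈ U, w ≠ a → w ≠ b → G.Adj a w ∧ G.Adj b w)
    (i : ℕ) : GZ G U i := by
  intro ε hε
  obtain ⟨m, hm⟩ := exists_nat_gt ((2 : ℝ) ^ (Fintype.card V + 1) / ε)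
  obtain ⟨Y, i1, i2, i3, r, E, hN, hB, hpos, hle⟩ := susp_mod (G := G) (U := U) hab hn m
  refine ⟨Y, i1, i2, i3, r, E, hN, hB, hpos, ?_⟩
  have h1 := susp_le ha hb hab hn h hN hB i
  have h2 : (hX (Cq G U) r i : ℝ) ≤
      2 ^ (Fintype.card V + 1) * (Module.finrank F2 (Inv r {a, b}) : ℝ) := by
    exact_mod_cast h1
  have h3 : (2 : ℝ) ^ m * (Module.finrank F2 (Inv r {a, b}) : ℝ) ≤ (Module.finrank F2 Y : ℝ) := by
    exact_mod_cast hle
  have h4 : (m : ℝ) < 2 ^ m := by exact_mod_cast Nat.lt_two_pow_self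
  have h5 : (2 : ℝ) ^ (Fintype.card V + 1) ≤ ε * 2 ^ m := by
    rw [div_lt_iff₀ hε] at hm
    nlinarith
  have h6 : (0 : ℝ) ≤ (Module.finrank F2 (Inv r {a, b}) : ℝ) := Nat.cast_nonneg _
  calc (hX (Cq G U) r i : ℝ)
      ≤ 2 ^ (Fintype.card V + 1) * (Module.finrank F2 (Inv r {a, b}) : ℝ) := h2
    _ ≤ ε * 2 ^ m * (Module.finrank F2 (Inv r {a, b}) : ℝ) := mul_le_mul_of_nonneg_right h5 h6
    _ = ε * (2 ^ m * (Module.finrank F2 (Inv r {a, b}) : ℝ)) := by ring
    _ ≤ ε * Module.finrank F2 Y := mul_le_mul_of_nonneg_left h3 hε.le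

end Pool.Agent.H73.GC

end

section

/-!
# Singer without colours for Coxeter groups of FC type: the group of the extension module
-/

set_option autoImplicit false
set_option linter.unusedSectionVars false

open Finset

namespace Pool.Agent.H77.SX

open Pool.Agent.H77.SW

variable {V : Type} [DecidableEq V] [Fintype V]

/-- the marked elements of the semidirect product `Ext_G V P I = (V → P → I → ZMod 2) ⋊ P`: the
coordinate `v` is the function `x ↦ single (ι v x) + single (ι v (x * g v))` (if `v ∈ s`), the other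
coordinates are `0` -/
def eg {P I : Type} [Group P] [DecidableEq I] (g : V → P) (s : Finset V) (ι : V → P → I) (v : V) :
    Ext_G V P I :=
  (fun w x => if w = v ∧ v ∈ s then Pi.single (ι v x) 1 + Pi.single (ι v (x * g v)) 1 else 0, g v)

/-- the projection `Ext_G V P I → P` -/
def ePr (V P I : Type) [Group P] : Ext_G V P I →* P where
  toFun q := q.2
  map_one' := rfl
  map_mul' _ _ := rfl

private theorem ExtG_ext {V P I : Type} {q q' : Ext_G V P I} (h1 : ∀ v x, q.1 v x = q'.1 v x)
    (h2 : q.2 = q'.2) : q = q' :=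
  Prod.ext (funext fun v => funext fun x => h1 v x) h2

private theorem ExtG_mul_fst {V P I : Type} [Group P] (q q' : Ext_G V P I) (v : V) (x : P) :
    (q * q').1 v x = q.1 v x + q'.1 v (x * q.2) := rfl

private theorem ExtG_mul_snd {V P I : Type} [Group P] (q q' : Ext_G V P I) :
    (q * q').2 = q.2 * q'.2 := rfl

private theorem ExtG_inv_fst {V P I : Type} [Group P] (q : Ext_G V P I) (v : V) (x : P) :
    (q⁻¹).1 v x = - q.1 v (x * q.2⁻¹) := rfl

private theorem ExtG_inv_snd {V P I : Type} [Group P] (q : Ext_G V P I) :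
    (q⁻¹).2 = q.2⁻¹ := rfl

private theorem ExtG_one_fst {V P I : Type} [Group P] (v : V) (x : P) :
    (1 : Ext_G V P I).1 v x = 0 := rfl

private theorem ExtG_one_snd {V P I : Type} [Group P] : (1 : Ext_G V P I).2 = 1 := rfl

private theorem ExtG_two (I : Type) (c : I → ZMod 2) : c + c = 0 := by
  funext i
  exact CharTwo.add_self_eq_zero (c i)

private theorem ExtG_neg (I : Type) (c : I → ZMod 2) : - c = c := by
  funext i
  exact CharTwo.neg_eq (c i)

/-- the embedding of `P` -/
private def ExtG_in (V I : Type) {P : Type} [Group P] : P →* Ext_G V P I where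
  toFun p := (fun _ _ => 0, p)
  map_one' := rfl
  map_mul' p q := by
    refine ExtG_ext (fun v x => ?_) rfl
    rw [ExtG_mul_fst]
    exact (add_zero _).symm

private theorem ExtG_sq {V P I : Type} [Group P] (q : Ext_G V P I) (h : q.2 = 1) : q * q = 1 := by
  refine ExtG_ext (fun v x => ?_) ?_
  · rw [ExtG_mul_fst, h, mul_one, ExtG_one_fst]
    exact ExtG_two I _
  · rw [ExtG_mul_snd, h, mul_one, ExtG_one_snd]

/-- the conjugating element -/
private def ExtG_H {P I : Type} [Group P] [DecidableEq I] (s : Finset V) (ι : V → P → I)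
    (T : V → Prop) [DecidablePred T] : Ext_G V P I :=
  (fun c x => if c ∈ s ∧ T c then Pi.single (ι c x) 1 else 0, 1)

private theorem ExtG_conj {P I : Type} [Group P] [DecidableEq I] (g : V → P) (s : Finset V)
    (ι : V → P → I) (T : V → Prop) [DecidablePred T] (u : V) (hu : T u)
    (hT : ∀ c, T c → c ≠ u → ∀ p, ι c (p * g u) = ι c p) :
    eg g s ι u = ExtG_H s ι T * ExtG_in V I (g u) * (ExtG_H s ι T)⁻¹ := by
  refine ExtG_ext (fun c x => ?_) ?_
  · rw [ExtG_mul_fst, ExtG_mul_fst, ExtG_inv_fst, ExtG_mul_snd]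
    change (if c = u ∧ u ∈ s then Pi.single (ι u x) 1 + Pi.single (ι u (x * g u)) 1 else 0) =
      (if c ∈ s ∧ T c then Pi.single (ι c x) 1 else 0) + 0 +
        - (if c ∈ s ∧ T c then Pi.single (ι c (x * (1 * g u) * 1⁻¹)) 1 else 0 : I → ZMod 2)
    rw [one_mul, inv_one, mul_one, add_zero, ExtG_neg]
    by_cases hc : c = u
    · subst hc
      by_cases hs : c ∈ s
      · rw [if_pos ⟨rfl, hs⟩, if_pos ⟨hs, hu⟩, if_pos ⟨hs, hu⟩]
      · rw [if_neg fun h => hs h.2, if_neg fun h => hs h.1, if_neg fun h => hs h.1, add_zero]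
    · rw [if_neg fun h => hc h.1]
      by_cases hsT : c ∈ s ∧ T c
      · rw [if_pos hsT, if_pos hsT, hT c hsT.2 hc, ExtG_two]
      · rw [if_neg hsT, if_neg hsT, add_zero]
  · rw [ExtG_mul_snd, ExtG_mul_snd, ExtG_inv_snd]
    change g u = 1 * g u * 1⁻¹
    rw [one_mul, inv_one, mul_one]

private theorem ExtG_rel (M : CoxeterMatrix V) {P : Type} [Group P] (π : M.Group →* P)
    (s : Finset V) {I : Type} [DecidableEq I] (ι : V → P → I)
    (hι : ∀ v u, (Pool.Agent.H4.FC.gr M).Adj v u → ∀ p, ι v (p * π (M.simple u)) = ι v p) :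
    M.IsLiftable (eg (fun v => π (M.simple v)) s ι) := by
  have hS : ∀ u v : V, (M.simple u * M.simple v) ^ M u v = 1 := fun u v =>
    M.toCoxeterSystem.simple_mul_simple_pow u v
  have hS1 : ∀ u : V, M.simple u * M.simple u = 1 := fun u =>
    M.toCoxeterSystem.simple_mul_simple_self u
  intro u v
  by_cases huv : u = v
  · subst huv
    rw [M.diagonal, pow_one]
    have hg : π (M.simple u) * π (M.simple u) = 1 := by rw [← map_mul, hS1, map_one]
    refine ExtG_ext (fun c x => ?_) ?_
    · rw [ExtG_mul_fst, ExtG_one_fst]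
      change (if c = u ∧ u ∈ s then Pi.single (ι u x) 1 +
          Pi.single (ι u (x * π (M.simple u))) 1 else 0) +
        (if c = u ∧ u ∈ s then Pi.single (ι u (x * π (M.simple u))) 1 +
          Pi.single (ι u (x * π (M.simple u) * π (M.simple u))) 1 else 0) = (0 : I → ZMod 2)
      rw [mul_assoc, hg, mul_one]
      by_cases hc : c = u ∧ u ∈ s
      · rw [if_pos hc, if_pos hc, add_comm (Pi.single (ι u (x * π (M.simple u))) 1)]
        exact ExtG_two I _
      · rw [if_neg hc, if_neg hc, add_zero]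
    · exact hg
  · by_cases hM : M u v = 0
    · rw [hM, pow_zero]
    · have hadj : (Pool.Agent.H4.FC.gr M).Adj u v := ⟨huv, hM⟩
      have h1 := ExtG_conj (fun v => π (M.simple v)) s ι (fun c => c = u ∨ c = v) u (Or.inl rfl)
        (by
          rintro c (rfl | rfl) hc p
          · exact absurd rfl hc
          · exact hι _ _ hadj.symm p)
      have h2 := ExtG_conj (fun v => π (M.simple v)) s ι (fun c => c = u ∨ c = v) v (Or.inr rfl)
        (by
          rintro c (rfl | rfl) hc p
          · exact hι _ _ hadj p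
          · exact absurd rfl hc)
      rw [h1, h2]
      have h3 : (π (M.simple u) * π (M.simple v)) ^ M u v = 1 := by
        rw [← map_mul, ← map_pow, hS, map_one]
      have h4 : (ExtG_in V I (π (M.simple u)) * ExtG_in V I (π (M.simple v))) ^ M u v = 1 := by
        rw [← map_mul, ← map_pow, h3, map_one]
      generalize ExtG_H s ι (fun c => c = u ∨ c = v) = H
      have h5 : H * ExtG_in V I (π (M.simple u)) * H⁻¹ * (H * ExtG_in V I (π (M.simple v)) * H⁻¹) =
          H * (ExtG_in V I (π (M.simple u)) * ExtG_in V I (π (M.simple v))) * H⁻¹ := by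
        group
      rw [h5, conj_pow, h4, mul_one, mul_inv_cancel]

private theorem ExtG_pgroup {A : Type} [Group A] {P : Type} [Group P] {I : Type} {Ps : Type}
    [Group Ps] (j : A →* Ext_G V P I) (hj : Function.Injective j) (κ : P →* Ps)
    (hκ : IsPGroup 2 κ.ker) : IsPGroup 2 (κ.comp ((ePr V P I).comp j)).ker := by
  intro x
  have hx : κ (j x.1).2 = 1 := x.2
  obtain ⟨k, hk⟩ := hκ ⟨(j x.1).2, hx⟩
  refine ⟨k + 1, ?_⟩
  have h1 : (j (x.1 ^ 2 ^ k)).2 = 1 := by
    have h2 : (j (x.1 ^ 2 ^ k)).2 = (j x.1).2 ^ 2 ^ k := by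
      have h3 : ePr V P I (j (x.1 ^ 2 ^ k)) = (ePr V P I (j x.1)) ^ 2 ^ k := by
        rw [map_pow, map_pow]
      exact h3
    rw [h2]
    exact congrArg Subtype.val hk
  have h2 : j (x.1 ^ 2 ^ k * x.1 ^ 2 ^ k) = 1 := by
    rw [map_mul]
    exact ExtG_sq _ h1
  have h3 : x.1 ^ 2 ^ k * x.1 ^ 2 ^ k = 1 := hj (by rw [h2, map_one])
  apply Subtype.ext
  change x.1 ^ 2 ^ (k + 1) = 1
  rw [pow_succ, pow_mul, pow_two]
  exact h3

/-- the elements with vanishing coordinate `c` -/
private def ExtG_sub (V P I : Type) [Group P] (c : V) : Subgroup (Ext_G V P I) where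
  carrier := {q | q.1 c = 0}
  one_mem' := rfl
  mul_mem' := by
    intro a b ha hb
    have ha' : a.1 c = 0 := ha
    have hb' : b.1 c = 0 := hb
    change (a * b).1 c = 0
    funext x
    rw [ExtG_mul_fst, ha', hb']
    exact add_zero _
  inv_mem' := by
    intro a ha
    have ha' : a.1 c = 0 := ha
    change (a⁻¹).1 c = 0
    funext x
    rw [ExtG_inv_fst, ha']
    exact neg_zero

/-- **The group of the extension module** (note 3789, T3). `D'.π` is the homomorphism
`M.Group → Ext_G V P I` with `simple v ↦ eg D.g s ι v` (restricted to its range), `P' = range`,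
`q = ePr` restricted.
* Relations: for adjacent `u, v` let `H = (h, 1)` with `h c x = single (ι c x) 1` for
`c ∈ s`, `c = u` or `c = v`, and `0` otherwise. Then `eg u = H * (0, g u) * H⁻¹` and
`eg v = H * (0, g v) * H⁻¹` (`hι`), so `(eg u * eg v) ^ M u v = 1`. `eg v * eg v = 1` by direct
computation (`u = v`); nothing to prove if `M u v = 0`.
* The kernel of `κ ∘ q` is a two-group: extension of a subgroup of `D.κ.ker` by the kernel of `ePr`,
an elementary abelian two-group.
* `LinkGood`: let `x = (a, p)` be in all the subgroups of the links of `v ∈ σ`. `p = 1` as `D` is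
link-good. For `c` there is `v ∈ σ` not adjacent to `c`; the elements of `Ext_G` with `a c = 0` form a
subgroup which contains `eg u` for all `u ≠ c`, hence `a c = 0`. -/
theorem exists_group (M : CoxeterMatrix V) {Ps : Type} [Group Ps] (πs : M.Group →* Ps)
    {P : Type} [Group P] [Fintype P] (D : FQ M πs P)
    (hgood : LinkGood (Pool.Agent.H4.FC.gr M) D.g) (s : Finset V) {I : Type} [Fintype I]
    [DecidableEq I] (ι : V → P → I)
    (hι : ∀ v u, (Pool.Agent.H4.FC.gr M).Adj v u → ∀ p, ι v (p * D.g u) = ι v p) :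
    ∃ (P' : Type) (_ : Group P') (_ : Fintype P') (D' : FQ M πs P') (j : P' →* Ext_G V P I),
      LinkGood (Pool.Agent.H4.FC.gr M) D'.g ∧ (∀ v, j (D'.g v) = eg D.g s ι v) ∧
      Function.Surjective ((ePr V P I).comp j) ∧ IsPGroup 2 ((ePr V P I).comp j).ker := by
  classical
  have hrel : M.IsLiftable (eg D.g s ι) := ExtG_rel M D.π s ι hι
  let φ : M.Group →* Ext_G V P I := M.toCoxeterSystem.lift ⟨eg D.g s ι, hrel⟩
  have hφ : ∀ v, φ (M.simple v) = eg D.g s ι v := fun v => M.toCoxeterSystem.lift_apply_simple hrel v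
  have hφ2 : ∀ w, (φ w).2 = D.π w := by
    have h1 : (ePr V P I).comp φ = D.π := by
      refine M.toCoxeterSystem.ext_simple fun i => ?_
      change (φ (M.simple i)).2 = D.π (M.simple i)
      rw [hφ]
      rfl
    intro w
    exact DFunLike.congr_fun h1 w
  let j : φ.range →* Ext_G V P I := φ.range.subtype
  have hj : Function.Injective j := Subtype.val_injective
  have hker : ∀ {Ps' : Type} [Group Ps'] (κ : P →* Ps'), IsPGroup 2 κ.ker →
      IsPGroup 2 (κ.comp ((ePr V P I).comp j)).ker := fun κ hκ => ExtG_pgroup j hj κ hκ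
  let D' : FQ M πs φ.range :=
    { π := φ.rangeRestrict
      surj := φ.rangeRestrict_surjective
      κ := D.κ.comp ((ePr V P I).comp j)
      κπ := fun w => by
        change D.κ (φ w).2 = πs w
        rw [hφ2, D.κπ]
      two := hker D.κ D.two }
  have hD'g : ∀ v, j (D'.g v) = eg D.g s ι v := fun v => hφ v
  refine ⟨φ.range, inferInstance, Fintype.ofFinite _, D', j, ?_, hD'g, ?_, ?_⟩
  · intro σ hσ x hx
    have hp : (j x).2 = 1 := by
      refine hgood σ hσ (j x).2 fun v hv => ?_
      have h1 := Subgroup.mem_map_of_mem ((ePr V P I).comp j) (hx v hv)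
      rw [MonoidHom.map_closure, Set.image_image] at h1
      have h2 : (fun u => ((ePr V P I).comp j) (D'.g u)) = D.g := by
        funext u
        change (j (D'.g u)).2 = D.g u
        rw [hD'g]
        rfl
      rw [h2] at h1
      exact h1
    have ha : ∀ c, (j x).1 c = 0 := by
      intro c
      obtain ⟨v, hv, hvc⟩ := hσ c
      have h1 : Subgroup.closure (D'.g '' {u | (Pool.Agent.H4.FC.gr M).Adj v u}) ≤
          (ExtG_sub V P I c).comap j := by
        rw [Subgroup.closure_le]
        rintro _ ⟨u, hu, rfl⟩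
        change (j (D'.g u)).1 c = 0
        rw [hD'g]
        funext y
        change (if c = u ∧ u ∈ s then _ else _) = (0 : I → ZMod 2)
        rw [if_neg]
        rintro ⟨rfl, -⟩
        exact hvc hu
      exact h1 (hx v hv)
    apply hj
    rw [map_one]
    exact ExtG_ext (fun v y => by rw [ha v]; rfl) hp
  · intro p
    obtain ⟨w, hw⟩ := D.surj p
    refine ⟨φ.rangeRestrict w, ?_⟩
    change (φ w).2 = p
    rw [hφ2, hw]
  · have h1 := hker (MonoidHom.id P) (by
      intro x
      refine ⟨0, ?_⟩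
      have hx : x.1 = 1 := x.2
      apply Subtype.ext
      rw [pow_zero, pow_one]
      exact hx)
    exact h1

end Pool.Agent.H77.SX

end

section

/-!
# Singer without colours for Coxeter groups of FC type: the action on the extension module
-/

set_option autoImplicit false
set_option linter.unusedSectionVars false

open Finset

namespace Pool.Agent.H77.SX

open Pool.Agent.H77.SW

variable {V : Type} [DecidableEq V] [Fintype V] {K : Type} [Field K] [CharP K 2]

private theorem ExtR_mul_fst {V P I : Type} [Group P] (q q' : Ext_G V P I) (v : V) (x : P) :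
    (q * q').1 v x = q.1 v x + q'.1 v (x * q.2) := rfl

/-- the operator `∏ c ∈ s, (1 + a c E c)` at one point -/
private def ExtR_T (s : Finset V) (a : V → K) (f : Finset V → K) (A : Finset V) : K :=
  ∑ B ∈ (A ∩ s).powerset, (∏ c ∈ B, a c) * f (A \ B)

private theorem ExtR_T_off (s : Finset V) (a b : V → K) (f : Finset V → K) (A : Finset V)
    (h : ∀ c ∈ A, a c = b c) : ExtR_T s a f A = ExtR_T s b f A := by
  unfold ExtR_T
  refine sum_congr rfl fun B hB => ?_
  have hBA : B ⊆ A := (mem_powerset.1 hB).trans inter_subset_left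
  rw [prod_congr rfl fun c hc => h c (hBA hc)]

private theorem ExtR_T_on (s : Finset V) (a b : V → K) (t : K) (f : Finset V → K) (A : Finset V)
    (v : V) (hvA : v ∈ A) (hvs : v ∈ s) (h : ∀ c, c ≠ v → b c = a c) (hv : b v = a v + t) :
    ExtR_T s b f A = ExtR_T s a f A + t * ExtR_T s a f (A.erase v) := by
  unfold ExtR_T
  have hins : A ∩ s = insert v (A.erase v ∩ s) := by
    ext c
    simp only [mem_inter, mem_insert, mem_erase]
    constructor
    · rintro ⟨h1, h2⟩
      by_cases hc : c = v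
      · exact Or.inl hc
      · exact Or.inr ⟨⟨hc, h1⟩, h2⟩
    · rintro (h1 | ⟨⟨_, h1⟩, h2⟩)
      · rw [h1]; exact ⟨hvA, hvs⟩
      · exact ⟨h1, h2⟩
  have hnot : v ∉ A.erase v ∩ s := by
    intro hc
    exact (mem_erase.1 (mem_inter.1 hc).1).1 rfl
  have key : ∀ B ∈ (A.erase v ∩ s).powerset, v ∉ B := fun B hB hc =>
    hnot (mem_powerset.1 hB hc)
  have hprod : ∀ B ∈ (A.erase v ∩ s).powerset, ∏ c ∈ B, b c = ∏ c ∈ B, a c := by
    intro B hB
    refine prod_congr rfl fun c hc => h c fun hcv => ?_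
    rw [hcv] at hc
    exact key B hB hc
  rw [hins, sum_powerset_insert hnot, sum_powerset_insert hnot, mul_sum, ← sum_add_distrib,
    ← sum_add_distrib, ← sum_add_distrib]
  refine sum_congr rfl fun B hB => ?_
  have h1 : A \ insert v B = (A.erase v) \ B := by
    ext c
    simp only [mem_sdiff, mem_insert, mem_erase]
    tauto
  rw [prod_insert (key B hB), prod_insert (key B hB), h1, hv, hprod B hB]
  ring

private theorem ExtR_T_inj (s : Finset V) (a : V → K) (f : Finset V → K)
    (h : ∀ A, ExtR_T s a f A = 0) : ∀ A, f A = 0 := by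
  intro A
  induction A using Finset.strongInduction with
  | H A ih =>
    have h1 := h A
    unfold ExtR_T at h1
    rw [← Finset.add_sum_erase _ _ (empty_mem_powerset (A ∩ s))] at h1
    have h2 : ∑ B ∈ ((A ∩ s).powerset).erase ∅, (∏ c ∈ B, a c) * f (A \ B) = 0 := by
      refine sum_eq_zero fun B hB => ?_
      obtain ⟨hB0, hB1⟩ := mem_erase.1 hB
      have hBA : B ⊆ A := (mem_powerset.1 hB1).trans inter_subset_left
      obtain ⟨c, hc⟩ := nonempty_iff_ne_empty.2 hB0
      have hss : A \ B ⊂ A := by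
        refine ⟨sdiff_subset, fun hsub => ?_⟩
        exact (mem_sdiff.1 (hsub (hBA hc))).2 hc
      rw [ih _ hss, mul_zero]
    rw [h2, add_zero, prod_empty, one_mul, sdiff_empty] at h1
    exact h1

/-- the value of a vector in the field -/
private def ExtR_ev {I : Type} [Fintype I] (τ : I → K) (c : I → ZMod 2) : K :=
  ∑ i, ZMod.castHom (dvd_refl 2) K (c i) * τ i

private theorem ExtR_ev_single {I : Type} [Fintype I] [DecidableEq I] (τ : I → K) (c : I → ZMod 2)
    (j : I) : ExtR_ev τ (c + Pi.single j 1) = ExtR_ev τ c + τ j := by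
  unfold ExtR_ev
  have h1 : ∀ i, ZMod.castHom (dvd_refl 2) K ((c + (Pi.single j 1 : I → ZMod 2)) i) * τ i =
      ZMod.castHom (dvd_refl 2) K (c i) * τ i + if i = j then τ i else 0 := by
    intro i
    rw [Pi.add_apply, map_add, add_mul]
    congr 1
    by_cases hij : i = j
    · rw [if_pos hij, hij, Pi.single_eq_same, map_one, one_mul]
    · rw [if_neg hij, Pi.single_eq_of_ne hij, map_zero, zero_mul]
  rw [sum_congr rfl fun i _ => h1 i, sum_add_distrib, sum_ite_eq' univ j τ, if_pos (mem_univ j)]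

/-- the action on the extension module -/
private def ExtR_R {P : Type} [Group P] (s : Finset V) {I : Type} [Fintype I] (τ : I → K)
    (q : Ext_G V P I) : (Finset V × P → K) →ₗ[K] (Finset V × P → K) where
  toFun f x := ExtR_T s (fun c => ExtR_ev τ (q.1 c (x.2 * q.2⁻¹))) (fun A => f (A, x.2 * q.2⁻¹)) x.1
  map_add' f f' := by
    funext x
    simp only [ExtR_T, Pi.add_apply, mul_add, sum_add_distrib]
  map_smul' c f := by
    funext x
    simp only [ExtR_T, Pi.smul_apply, smul_eq_mul, RingHom.id_apply, mul_sum]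
    exact sum_congr rfl fun B _ => by ring

private theorem ExtR_R_apply {P : Type} [Group P] (s : Finset V) {I : Type} [Fintype I] (τ : I → K)
    (q : Ext_G V P I) (f : Finset V × P → K) (A : Finset V) (x : P) :
    ExtR_R s τ q f (A, x) =
      ExtR_T s (fun c => ExtR_ev τ (q.1 c (x * q.2⁻¹))) (fun A => f (A, x * q.2⁻¹)) A := rfl

private theorem ExtR_R_inj {P : Type} [Group P] (s : Finset V) {I : Type} [Fintype I] (τ : I → K)
    (q : Ext_G V P I) : Function.Injective (ExtR_R s τ q) := by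
  rw [injective_iff_map_eq_zero]
  intro f hf
  funext x
  obtain ⟨A, y⟩ := x
  have h := ExtR_T_inj s (fun c => ExtR_ev τ (q.1 c y)) (fun A => f (A, y)) fun A' => by
    have h1 := congrFun hf (A', y * q.2)
    rw [ExtR_R_apply, mul_inv_cancel_right] at h1
    exact h1
  exact h A

/-- **The action on the extension module.** Adapt the second half of `Pool.Agent.H77.SW.Ext`
(`Ext_T`, `Ext_ev`, `Ext_R`, `lower_rE`): `R (a, p) f (A, x) = (T (ev a) f) (A, x * p⁻¹)`; the only
difference is that the coordinate `v` of `eg g s ι v` is a sum of two unit vectors, so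
`ev` gives `τ (ι v x) + τ (ι v (x * g v))`. -/
theorem exists_R {P I : Type} [Group P] [Fintype I] [DecidableEq I] (g : V → P)
    (hsq : ∀ v, g v * g v = 1) (s : Finset V) (ι : V → P → I) (τ : I → K) :
    ∃ R : Ext_G V P I → (Finset V × P → K) →ₗ[K] (Finset V × P → K),
      (∀ x, Function.Injective (R x)) ∧
      ∀ x v f, rX g s (fun v p => τ (ι v p) + τ (ι v (p * g v))) v (R (x * eg g s ι v) f) =
        R x f := by
  refine ⟨ExtR_R s τ, ExtR_R_inj s τ, ?_⟩
  intro q v f
  funext x
  obtain ⟨A, x⟩ := x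
  have hg2 : (q * eg g s ι v).2 = q.2 * g v := rfl
  have hx : x * g v * (q.2 * g v)⁻¹ = x * q.2⁻¹ := by
    rw [mul_inv_rev, mul_assoc x, mul_inv_cancel_left]
  have hrhs := ExtR_R_apply s τ q f A x
  have hlhs : ∀ A', ExtR_R s τ (q * eg g s ι v) f (A', x * g v) =
      ExtR_T s (fun c => ExtR_ev τ ((q * eg g s ι v).1 c (x * q.2⁻¹)))
        (fun A => f (A, x * q.2⁻¹)) A' := by
    intro A'
    rw [ExtR_R_apply, hg2, hx]
  have hne : ∀ c, c ≠ v → ExtR_ev τ ((q * eg g s ι v).1 c (x * q.2⁻¹)) =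
      ExtR_ev τ (q.1 c (x * q.2⁻¹)) := by
    intro c hc
    rw [ExtR_mul_fst]
    change ExtR_ev τ (q.1 c (x * q.2⁻¹) + if c = v ∧ v ∈ s then _ else _) = _
    rw [if_neg fun h => hc h.1, add_zero]
  change ExtR_R s τ (q * eg g s ι v) f (A, x * g v) +
    (if v ∈ s ∧ v ∈ A then (τ (ι v x) + τ (ι v (x * g v))) *
      ExtR_R s τ (q * eg g s ι v) f (A.erase v, x * g v) else 0) = ExtR_R s τ q f (A, x)
  rw [hlhs A, hlhs (A.erase v), hrhs]
  by_cases hvs : v ∈ s
  · have hv : ExtR_ev τ ((q * eg g s ι v).1 v (x * q.2⁻¹)) =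
        ExtR_ev τ (q.1 v (x * q.2⁻¹)) + (τ (ι v x) + τ (ι v (x * g v))) := by
      rw [ExtR_mul_fst]
      change ExtR_ev τ (q.1 v (x * q.2⁻¹) +
        if v = v ∧ v ∈ s then Pi.single (ι v (x * q.2⁻¹ * q.2)) 1 +
          Pi.single (ι v (x * q.2⁻¹ * q.2 * g v)) 1 else 0) = _
      rw [if_pos ⟨rfl, hvs⟩, inv_mul_cancel_right, ← add_assoc, ExtR_ev_single, ExtR_ev_single,
        add_assoc]
    by_cases hvA : v ∈ A
    · rw [if_pos ⟨hvs, hvA⟩,
        ExtR_T_on s (fun c => ExtR_ev τ (q.1 c (x * q.2⁻¹))) _ (τ (ι v x) + τ (ι v (x * g v))) _ A v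
          hvA hvs hne hv,
        ExtR_T_off s (fun c => ExtR_ev τ ((q * eg g s ι v).1 c (x * q.2⁻¹)))
          (fun c => ExtR_ev τ (q.1 c (x * q.2⁻¹))) _ (A.erase v)
          (fun c hc => hne c (ne_of_mem_erase hc)), add_assoc, CharTwo.add_self_eq_zero, add_zero]
    · rw [if_neg fun h => hvA h.2, add_zero]
      exact ExtR_T_off s _ _ _ A fun c hc => hne c fun h => hvA (h ▸ hc)
  · rw [if_neg fun h => hvs h.1, add_zero]
    have hall : ∀ c, ExtR_ev τ ((q * eg g s ι v).1 c (x * q.2⁻¹)) =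
        ExtR_ev τ (q.1 c (x * q.2⁻¹)) := by
      intro c
      rw [ExtR_mul_fst]
      change ExtR_ev τ (q.1 c (x * q.2⁻¹) + if c = v ∧ v ∈ s then _ else _) = _
      rw [if_neg fun h => hvs h.2, add_zero]
    exact ExtR_T_off s _ _ _ A fun c _ => hall c

end Pool.Agent.H77.SX

end

section

/-!
# Singer without colours for Coxeter groups of FC type: congruence quotients of the Tits representation
-/

set_option autoImplicit false
set_option linter.unusedSectionVars false

open Finset

namespace Pool.Agent.H77.SX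

open Pool.Agent.H77.SW

open Filter

variable {V : Type} [DecidableEq V] [Fintype V]

/-! ### The reflection matrices -/

private theorem Tits_row {R : Type} [CommRing R] (c : V → V → R) {u v : V} (h : u ≠ v) :
    (Pool.Agent.H4.FC.refl c v) u = (1 : Matrix V V R) u := by
  funext j
  unfold Pool.Agent.H4.FC.refl
  rw [Matrix.sub_apply, Matrix.of_apply, if_neg h, sub_zero]

private theorem Tits_det {R : Type} [CommRing R] (c : V → V → R) (v : V) (hc : c v v = 2) :
    (Pool.Agent.H4.FC.refl c v).det = -1 := by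
  have h1 : Pool.Agent.H4.FC.refl c v =
      (1 : Matrix V V R).updateRow v (fun j => (1 : Matrix V V R) v j - c v j) := by
    ext i j
    rw [Matrix.updateRow_apply]
    unfold Pool.Agent.H4.FC.refl
    rw [Matrix.sub_apply, Matrix.of_apply]
    by_cases hi : i = v
    · rw [if_pos hi, if_pos hi, hi]
    · rw [if_neg hi, if_neg hi, sub_zero]
  rw [h1, ← Matrix.cramer_transpose_apply, Matrix.transpose_one, Matrix.cramer_one]
  show (1 : Matrix V V R) v v - c v v = -1
  rw [Matrix.one_apply_eq, hc]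
  norm_num

/-! ### The congruence quotients -/

section quot

variable {R : Type} [CommRing R]

/-- the ring modulo `2 ^ n` -/
private abbrev Tits_Q (R : Type) [CommRing R] (n : ℕ) : Type := R ⧸ Ideal.span {(2 : R) ^ n}

/-- the congruence quotient -/
private noncomputable def Tits_hom (M : CoxeterMatrix V) (T : M.Group →* Matrix V V R) (n : ℕ) :
    M.Group →* (Matrix V V (Tits_Q R n))ˣ × Multiplicative (ZMod 2) :=
  ((((Ideal.Quotient.mk (Ideal.span {(2 : R) ^ n})).mapMatrix : Matrix V V R →+*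
    Matrix V V (Tits_Q R n)) : Matrix V V R →* Matrix V V (Tits_Q R n)).comp T).toHomUnits.prod
      M.toCoxeterSystem.lengthParity

private theorem Tits_hom_val (M : CoxeterMatrix V) (T : M.Group →* Matrix V V R) (n : ℕ)
    (w : M.Group) (a b : V) : ((Tits_hom M T n w).1 : Matrix V V (Tits_Q R n)) a b =
      Ideal.Quotient.mk (Ideal.span {(2 : R) ^ n}) (T w a b) := rfl

private theorem Tits_hom_snd (M : CoxeterMatrix V) (T : M.Group →* Matrix V V R) (n : ℕ)
    (w : M.Group) : (Tits_hom M T n w).2 = M.toCoxeterSystem.lengthParity w := rfl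

private theorem Tits_fst_one (M : CoxeterMatrix V) (T : M.Group →* Matrix V V R) (n : ℕ)
    (w : M.Group) : (Tits_hom M T n w).1 = 1 ↔ ∀ a b, (2 : R) ^ n ∣ (T w - 1) a b := by
  have key : ∀ a b, (Ideal.Quotient.mk (Ideal.span {(2 : R) ^ n}) (T w a b) =
      (1 : Matrix V V (Tits_Q R n)) a b) ↔ (2 : R) ^ n ∣ (T w - 1) a b := by
    intro a b
    rw [Matrix.sub_apply, ← Ideal.mem_span_singleton, ← Ideal.Quotient.eq]
    have : Ideal.Quotient.mk (Ideal.span {(2 : R) ^ n}) ((1 : Matrix V V R) a b) =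
        (1 : Matrix V V (Tits_Q R n)) a b := by
      by_cases h : a = b
      · rw [h, Matrix.one_apply_eq, Matrix.one_apply_eq, map_one]
      · rw [Matrix.one_apply_ne h, Matrix.one_apply_ne h, map_zero]
    rw [this]
  constructor
  · intro h a b
    rw [← key, ← Tits_hom_val, h]
    rfl
  · intro h
    apply Units.ext
    ext a b
    rw [Tits_hom_val, (key a b).2 (h a b)]
    rfl

/-- powers of two of matrices which are `1` modulo two -/
private theorem Tits_pow (X : Matrix V V R) (h : ∃ A : Matrix V V R, X = 1 + (2 : R) ^ 1 • A)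
    (m : ℕ) : ∃ A : Matrix V V R, X ^ 2 ^ m = 1 + (2 : R) ^ (m + 1) • A := by
  induction m with
  | zero => simpa using h
  | succ m ih =>
    obtain ⟨A, hA⟩ := ih
    refine ⟨A + (2 : R) ^ m • (A * A), ?_⟩
    have e0 : ∀ Y : Matrix V V R, (1 + Y) * (1 + Y) = 1 + ((Y + Y) + Y * Y) := by
      intro Y
      noncomm_ring
    have e1 : (2 : R) ^ (m + 1 + 1) • A = (2 : R) ^ (m + 1) • A + (2 : R) ^ (m + 1) • A := by
      rw [← add_smul]
      congr 1
      ring
    have e2 : (2 : R) ^ (m + 1 + 1) * (2 : R) ^ m = (2 : R) ^ (m + 1) * (2 : R) ^ (m + 1) := by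
      ring
    rw [pow_succ 2 m, pow_mul, hA, sq, e0, smul_add, e1, smul_smul, e2, smul_mul_assoc,
      mul_smul_comm, smul_smul]

private theorem Tits_two (M : CoxeterMatrix V) (T : M.Group →* Matrix V V R) (j : ℕ)
    (w : M.Group) (h : Tits_hom M T 1 w = 1) : Tits_hom M T (j + 2) w ^ 2 ^ (j + 1) = 1 := by
  have h1 := (Tits_fst_one M T 1 w).1 (congrArg Prod.fst h)
  have h2 : M.toCoxeterSystem.lengthParity w = 1 := congrArg Prod.snd h
  choose A hA using h1
  obtain ⟨B, hB⟩ := Tits_pow (T w) ⟨Matrix.of A, by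
    ext a b
    rw [Matrix.add_apply, Matrix.smul_apply, Matrix.of_apply, smul_eq_mul, ← hA,
      Matrix.sub_apply]
    ring⟩ (j + 1)
  rw [← map_pow]
  apply Prod.ext
  · refine (Tits_fst_one M T (j + 2) _).2 ?_
    intro a b
    rw [map_pow, hB, Matrix.sub_apply, Matrix.add_apply, Matrix.smul_apply, smul_eq_mul,
      add_sub_cancel_left]
    exact Dvd.intro _ rfl
  · rw [Tits_hom_snd, map_pow, h2, one_pow]
    rfl

private theorem Tits_ker (M : CoxeterMatrix V) (T : M.Group →* Matrix V V R) {m n : ℕ}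
    (h : m ≤ n) (w : M.Group) (hw : Tits_hom M T n w = 1) : Tits_hom M T m w = 1 := by
  apply Prod.ext
  · have h1 := (Tits_fst_one M T n w).1 (congrArg Prod.fst hw)
    exact (Tits_fst_one M T m w).2 fun a b => (pow_dvd_pow 2 h).trans (h1 a b)
  · have h2 : M.toCoxeterSystem.lengthParity w = 1 := congrArg Prod.snd hw
    exact h2

/-- the sign of a matrix -/
private theorem Tits_par (M : CoxeterMatrix V) (T : M.Group →* Matrix V V R) {c : V → V → R}
    (hT : ∀ v, T (M.simple v) = Pool.Agent.H4.FC.refl c v) (hc : ∀ v, c v v = 2) (w : M.Group) :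
    (M.toCoxeterSystem.lengthParity w = 1 ∧ (T w).det = 1) ∨
      (M.toCoxeterSystem.lengthParity w = Multiplicative.ofAdd 1 ∧ (T w).det = -1) := by
  induction w using M.toCoxeterSystem.simple_induction_left with
  | one => left; rw [map_one, map_one, Matrix.det_one]; exact ⟨rfl, rfl⟩
  | mul_simple_left w i ih =>
    rw [map_mul, map_mul, Matrix.det_mul, M.toCoxeterSystem.lengthParity_simple,
      M.toCoxeterSystem_simple, hT, Tits_det c i (hc i)]
    rcases ih with ⟨h1, h2⟩ | ⟨h1, h2⟩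
    · right
      rw [h1, h2, mul_one, mul_one]
      exact ⟨rfl, rfl⟩
    · left
      rw [h1, h2]
      refine ⟨?_, by ring⟩
      decide

private theorem Tits_sign [IsDomain R] (M : CoxeterMatrix V) (T : M.Group →* Matrix V V R)
    {c : V → V → R} (hT : ∀ v, T (M.simple v) = Pool.Agent.H4.FC.refl c v)
    (hc : ∀ v, c v v = 2) (h2 : ¬ IsUnit (2 : R)) (hne : (2 : R) ≠ 0) (n : ℕ) (w : M.Group)
    (hw : (Tits_hom M T (n + 2) w).1 = 1) : Tits_hom M T (n + 2) w = 1 := by
  apply Prod.ext hw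
  rcases Tits_par M T hT hc w with h | h
  · exact h.1
  · exfalso
    have h1 : Ideal.Quotient.mk (Ideal.span {(2 : R) ^ (n + 2)}) (T w).det = 1 := by
      rw [RingHom.map_det]
      have : (Ideal.Quotient.mk (Ideal.span {(2 : R) ^ (n + 2)})).mapMatrix (T w) = 1 :=
        congrArg Units.val hw
      rw [this, Matrix.det_one]
    rw [h.2, ← map_one (Ideal.Quotient.mk (Ideal.span {(2 : R) ^ (n + 2)})), Ideal.Quotient.eq,
      Ideal.mem_span_singleton] at h1
    obtain ⟨r, hr⟩ := h1
    apply h2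
    have h3 : (2 : R) * (2 * 2 ^ n * (-r) - 1) = 0 := by
      have : (2 : R) ^ (n + 2) * r = 2 * (2 * 2 ^ n * r) := by ring
      rw [this] at hr
      linear_combination hr
    have h4 := (mul_eq_zero.1 h3).resolve_left hne
    exact IsUnit.of_mul_eq_one (2 ^ n * (-r)) (by linear_combination h4)

/-- the rows of the matrices in the subgroup generated by a set of reflections -/
private theorem Tits_rows (M : CoxeterMatrix V) (T : M.Group →* Matrix V V R) {c : V → V → R}
    (hT : ∀ v, T (M.simple v) = Pool.Agent.H4.FC.refl c v) (n : ℕ) (S : Set V) {u : V}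
    (hu : u ∉ S) (x : (Tits_hom M T n).range)
    (hx : x ∈ Subgroup.closure ((fun v => (Tits_hom M T n).rangeRestrict (M.simple v)) '' S)) :
    (x.1.1 : Matrix V V (Tits_Q R n)) u = (1 : Matrix V V (Tits_Q R n)) u := by
  induction hx using Subgroup.closure_induction with
  | mem x hx =>
    obtain ⟨v, hv, rfl⟩ := hx
    have huv : u ≠ v := fun h => hu (h ▸ hv)
    funext j
    show Ideal.Quotient.mk (Ideal.span {(2 : R) ^ n}) (T (M.simple v) u j) = _
    rw [hT, Tits_row c huv]
    by_cases h : u = j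
    · rw [h, Matrix.one_apply_eq, Matrix.one_apply_eq, map_one]
    · rw [Matrix.one_apply_ne h, Matrix.one_apply_ne h, map_zero]
  | one => rfl
  | mul x y _ _ hx hy =>
    have h1 : ((x * y).1.1 : Matrix V V (Tits_Q R n)) =
        (x.1.1 : Matrix V V (Tits_Q R n)) * (y.1.1 : Matrix V V (Tits_Q R n)) := rfl
    rw [h1]
    funext j
    rw [Matrix.mul_apply, hx, ← Matrix.mul_apply, one_mul, hy]
  | inv x _ hx =>
    have h1 : (x.1.1 : Matrix V V (Tits_Q R n)) * (x⁻¹.1.1 : Matrix V V (Tits_Q R n)) = 1 := by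
      have h2 : x * x⁻¹ = 1 := mul_inv_cancel x
      have h3 := congrArg (fun y : (Tits_hom M T n).range => (y.1.1 : Matrix V V (Tits_Q R n))) h2
      exact h3
    funext j
    have h2 := congrFun (congrFun h1 u) j
    rw [Matrix.mul_apply, hx, ← Matrix.mul_apply, one_mul] at h2
    exact h2

private theorem Tits_abs [IsDomain R] (M : CoxeterMatrix V) (T : M.Group →* Matrix V V R)
    {c : V → V → R} (hT : ∀ v, T (M.simple v) = Pool.Agent.H4.FC.refl c v)
    (hinj : Function.Injective T) (hc : ∀ v, c v v = 2) (h2 : ¬ IsUnit (2 : R))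
    (hne : (2 : R) ≠ 0) (hfin : ∀ n, Finite (Tits_Q R n))
    (hsep : ∀ r : R, r ≠ 0 → ∃ n, ¬ (2 : R) ^ n ∣ r) :
    ∃ (Ps : Type) (_ : Group Ps) (_ : Fintype Ps) (πs : M.Group →* Ps) (e : Ps → ZMod 2)
      (P : ℕ → Type) (_ : ∀ j, Group (P j)) (_ : ∀ j, Fintype (P j))
      (D : ∀ j, FQ M πs (P j)),
      (∀ p q, e (p * q) = e p + e q) ∧ (∀ v, e (πs (M.simple v)) = 1) ∧
      (∀ w : M.Group, w ≠ 1 → ∀ᶠ j in atTop, (D j).π w ≠ 1) ∧
      ∀ j, LinkGood (Pool.Agent.H4.FC.gr M) (D j).g := by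
  classical
  have hfin2 : ∀ n, Finite (Tits_hom M T n).range := by
    intro n
    have := hfin n
    have h3 : Finite (Matrix V V (Tits_Q R n)) := inferInstanceAs (Finite (V → V → Tits_Q R n))
    have h4 : Finite ((Matrix V V (Tits_Q R n))ˣ) :=
      Finite.of_injective (Units.val : (Matrix V V (Tits_Q R n))ˣ → _) Units.val_injective
    have h5 : Finite (Multiplicative (ZMod 2)) := inferInstanceAs (Finite (ZMod 2))
    infer_instance
  have hker : ∀ j, (Tits_hom M T (j + 2)).rangeRestrict.ker ≤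
      (Tits_hom M T 1).rangeRestrict.ker := by
    intro j w hw
    rw [MonoidHom.mem_ker] at hw ⊢
    have h1 : Tits_hom M T (j + 2) w = 1 := congrArg Subtype.val hw
    exact Subtype.ext (Tits_ker M T (by omega) w h1)
  have hsurj : ∀ n, Function.Surjective (Tits_hom M T n).rangeRestrict :=
    fun n => (Tits_hom M T n).rangeRestrict_surjective
  let D : ∀ j, FQ M (Tits_hom M T 1).rangeRestrict (Tits_hom M T (j + 2)).range := fun j =>
    { π := (Tits_hom M T (j + 2)).rangeRestrict
      surj := hsurj (j + 2)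
      κ := (Tits_hom M T (j + 2)).rangeRestrict.liftOfSurjective (hsurj (j + 2))
        ⟨(Tits_hom M T 1).rangeRestrict, hker j⟩
      κπ := fun w => MonoidHom.liftOfRightInverse_comp_apply _ _ _ _ w
      two := by
        rintro ⟨x, hx⟩
        obtain ⟨w, rfl⟩ := hsurj (j + 2) x
        refine ⟨j + 1, Subtype.ext (Subtype.ext ?_)⟩
        rw [MonoidHom.mem_ker, MonoidHom.liftOfSurjective,
          MonoidHom.liftOfRightInverse_comp_apply] at hx
        exact Tits_two M T j w (congrArg Subtype.val hx) }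
  refine ⟨(Tits_hom M T 1).range, inferInstance, @Fintype.ofFinite _ (hfin2 1),
    (Tits_hom M T 1).rangeRestrict, fun p => Multiplicative.toAdd p.1.2,
    fun j => (Tits_hom M T (j + 2)).range, fun j => inferInstance,
    fun j => @Fintype.ofFinite _ (hfin2 (j + 2)), D, fun p q => rfl, fun v => ?_, ?_, ?_⟩
  · show Multiplicative.toAdd (M.toCoxeterSystem.lengthParity (M.simple v)) = 1
    rw [← M.toCoxeterSystem_simple, M.toCoxeterSystem.lengthParity_simple]
    rfl
  · intro w hw
    have h1 : T w - 1 ≠ 0 := by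
      intro h0
      apply hw
      apply hinj
      rw [map_one]
      exact sub_eq_zero.1 h0
    obtain ⟨a, b, hab⟩ : ∃ a b, (T w - 1) a b ≠ 0 := by
      by_contra hcon
      push Not at hcon
      exact h1 (Matrix.ext hcon)
    obtain ⟨n, hn⟩ := hsep _ hab
    filter_upwards [eventually_ge_atTop n] with j hj h
    have h3 : Tits_hom M T (j + 2) w = 1 := congrArg Subtype.val h
    exact hn ((pow_dvd_pow 2 (by omega)).trans
      ((Tits_fst_one M T (j + 2) w).1 (congrArg Prod.fst h3) a b))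
  · intro j σ hσ x hx
    obtain ⟨w, rfl⟩ := hsurj (j + 2) x
    refine Subtype.ext (Tits_sign M T hT hc h2 hne j w ?_)
    apply Units.ext
    funext u
    obtain ⟨v, hv, huv⟩ := hσ u
    exact Tits_rows M T hT (j + 2) {u | (Pool.Agent.H4.FC.gr M).Adj v u} huv _ (hx v hv)

end quot

/-- **Congruence quotients** (note 3789, T1). As in the proof of
`Pool.Agent.H4.FC.exists_int_faithful` (`TitsInt`: number field `L`, `c : V → V → 𝓞 L`, the matrices
`refl c v` over `𝓞 L` satisfy the Coxeter relations and give an injective homomorphism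
`T : M.Group → Matrix V V (𝓞 L)`). Let `P j` be the range of the homomorphism
`M.Group → (Matrix V V (𝓞 L ⧸ (2 ^ (j + 2))))ˣ × Multiplicative (ZMod 2)` (reduction of `T`; the sign
`simple v ↦ ofAdd 1`), `Ps` the range for `𝓞 L ⧸ (2)` instead.
* The kernel of `P j → Ps` is a two-group: matrices `1 + 2 A` have order a power of two modulo
`2 ^ (j + 2)`.
* Separation: a nonzero entry of `T w - 1` is not divisible by `2 ^ (j + 2)` for large `j`.
* `LinkGood`: for `w ∈ M.Group` in the subgroup generated by `simple u`, `u ∈ S`, the image of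
`T w - 1` is in the span of the `e u`, `u ∈ S` (modulo `2 ^ (j + 2)`), i.e. the rows (or columns,
according to the definition of `refl`) with index outside `S` of the reduction are those of `1`. If `x`
is in the subgroups of the links of all `v ∈ σ` then each row index is outside some link, so the matrix
is `1`; its determinant is `(-1)^(sign)` in `𝓞 L ⧸ (2 ^ (j + 2))`, where `-1 ≠ 1`, so the sign is
`0`. -/
theorem exists_tower (M : CoxeterMatrix V) :
    ∃ (Ps : Type) (_ : Group Ps) (_ : Fintype Ps) (πs : M.Group →* Ps) (e : Ps → ZMod 2)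
      (P : ℕ → Type) (_ : ∀ j, Group (P j)) (_ : ∀ j, Fintype (P j))
      (D : ∀ j, FQ M πs (P j)),
      (∀ p q, e (p * q) = e p + e q) ∧ (∀ v, e (πs (M.simple v)) = 1) ∧
      (∀ w : M.Group, w ≠ 1 → ∀ᶠ j in atTop, (D j).π w ≠ 1) ∧
      ∀ j, LinkGood (Pool.Agent.H4.FC.gr M) (D j).g := by
  open Pool.Agent.H4.FC in
  have hy : ∀ p : V × V, IsIntegral ℤ (kR M p.1 p.2) := by
    intro p
    unfold kR
    split_ifs
    · have h2 : ((-2 : ℤ) : ℝ) = -2 := by norm_num
      rw [← h2]
      exact isIntegral_algebraMap (R := ℤ) (x := (-2 : ℤ))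
    · have h2 : -2 * Real.cos (Real.pi / M p.1 p.2) =
          -(2 * Real.cos (Real.pi / M p.1 p.2)) := by ring
      rw [h2]
      exact (two_cos_integral _).neg
  obtain ⟨K, iK, iN, τ, w, hw⟩ :=
    Pool.Agent.H85.Fold2.exists_numberField_int
      (fun p : V × V => Pool.Agent.H4.FC.kR M p.1 p.2) hy
  let f : NumberField.RingOfIntegers K →+* ℝ :=
    τ.comp (algebraMap (NumberField.RingOfIntegers K) K)
  have hf : Function.Injective f :=
    τ.injective.comp (NumberField.RingOfIntegers.coe_injective)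
  let c : V → V → NumberField.RingOfIntegers K := fun u v => w (u, v)
  have hfc : ∀ u v, f (c u v) = Pool.Agent.H4.FC.kR M u v := fun u v => hw (u, v)
  have hc : ∀ v, (Pool.Agent.H4.FC.refl c v).map f =
      Pool.Agent.H4.FC.refl (Pool.Agent.H4.FC.kR M) v := by
    intro v
    rw [Pool.Agent.H4.FC.refl_map]
    congr 1
    funext u v
    exact hw (u, v)
  have hF : Function.Injective (fun X : Matrix V V (NumberField.RingOfIntegers K) => X.map f) :=
    Matrix.map_injective hf
  have hrel : M.IsLiftable (Pool.Agent.H4.FC.refl c) := by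
    intro u v
    have h1 : f.mapMatrix ((Pool.Agent.H4.FC.refl c u * Pool.Agent.H4.FC.refl c v) ^ M u v) =
        f.mapMatrix 1 := by
      rw [map_pow, map_mul, map_one]
      show ((Pool.Agent.H4.FC.refl c u).map f * (Pool.Agent.H4.FC.refl c v).map f) ^ M u v = 1
      rw [hc, hc]
      exact Pool.Agent.H4.FC.refl_rel M u v
    exact hF h1
  let g : M.Group →* Matrix V V (NumberField.RingOfIntegers K) :=
    M.toCoxeterSystem.lift ⟨Pool.Agent.H4.FC.refl c, hrel⟩
  have hgs : ∀ v, g (M.toCoxeterSystem.simple v) = Pool.Agent.H4.FC.refl c v :=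
    fun v => M.toCoxeterSystem.lift_apply_simple hrel v
  have hg : (f.mapMatrix : Matrix V V (NumberField.RingOfIntegers K) →+*
      Matrix V V ℝ).toMonoidHom.comp g = Pool.Agent.H4.FC.titsHom M := by
    apply M.toCoxeterSystem.ext_simple
    intro v
    show f.mapMatrix (g (M.toCoxeterSystem.simple v)) = _
    rw [Pool.Agent.H4.FC.titsHom_simple, hgs]
    exact hc v
  have hgi : Function.Injective g := by
    intro x y hxy
    apply Pool.Agent.H4.FC.tits_injective M
    rw [← hg]
    show f.mapMatrix (g x) = f.mapMatrix (g y)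
    rw [hxy]
  have hne : (2 : NumberField.RingOfIntegers K) ≠ 0 := by
    intro h
    have h1 := congrArg f h
    rw [map_ofNat, map_zero] at h1
    exact two_ne_zero h1
  have h2 : ¬ IsUnit (2 : NumberField.RingOfIntegers K) := by
    intro h
    obtain ⟨u, hu⟩ := h.exists_right_inv
    have h1 : IsIntegral ℤ (f u) := (NumberField.RingOfIntegers.isIntegral u).map
      (f.toIntAlgHom : NumberField.RingOfIntegers K →ₐ[ℤ] ℝ)
    have h3 : f u = algebraMap ℚ ℝ (1 / 2) := by
      have h4 := congrArg f hu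
      rw [map_mul, map_ofNat, map_one] at h4
      have : algebraMap ℚ ℝ (1 / 2) = 1 / 2 := by norm_num
      rw [this]
      linarith
    rw [h3] at h1
    have h5 : IsIntegral ℤ (1 / 2 : ℚ) :=
      (isIntegral_algHom_iff (algebraMap ℚ ℝ).toIntAlgHom (algebraMap ℚ ℝ).injective).1 h1
    obtain ⟨z, hz⟩ := IsIntegrallyClosed.isIntegral_iff.1 h5
    have h6 : (2 : ℚ) * z = 1 := by
      have : (algebraMap ℤ ℚ z) = (z : ℚ) := rfl
      rw [← this, hz]
      norm_num
    have h7 : (2 : ℤ) * z = 1 := by exact_mod_cast h6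
    omega
  refine Tits_abs M g (c := c) (fun v => ?_) hgi (fun v => ?_) h2 hne (fun n => ?_)
    (fun r hr => ?_)
  · rw [← M.toCoxeterSystem_simple]
    exact hgs v
  · apply hf
    rw [hfc, Pool.Agent.H4.FC.kR_self, map_ofNat]
  · refine Ideal.finiteQuotientOfFreeOfNeBot _ ?_
    rw [Ne, Ideal.span_singleton_eq_bot]
    exact pow_ne_zero n hne
  · by_contra hcon
    push Not at hcon
    have h1 : Ideal.span {(2 : NumberField.RingOfIntegers K)} ≠ ⊤ := by
      rw [Ne, Ideal.span_singleton_eq_top]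
      exact h2
    have h3 := Ideal.iInf_pow_eq_bot_of_isDomain _ h1
    apply hr
    have h4 : r ∈ ⨅ i : ℕ, Ideal.span {(2 : NumberField.RingOfIntegers K)} ^ i := by
      rw [Ideal.mem_iInf]
      intro i
      rw [Ideal.span_singleton_pow, Ideal.mem_span_singleton]
      exact hcon i
    rw [h3] at h4
    exact h4

end Pool.Agent.H77.SX

end

section

/-!
# S9, S10, block T3: cofinality of the tower with an arbitrary start

`cofinalP`: a homomorphism `f` of `W` to a finite group, for which the image of `Γ 0` is a two-group, is trivial on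
some `Γ m`. `T_cofP`: the same for the tower of homomorphisms to `ℤ` with the start `Φ`.
-/

set_option autoImplicit false

open Subgroup

namespace Pool.Agent.S9

/-- characters of elementary abelian two-groups -/
theorem exists_char {Z : Type*} [Group Z] (hc : ∀ a b : Z, a * b = b * a) (h : ∀ z : Z, z * z = 1) {z : Z}
    (hz : z ≠ 1) : ∃ ζ : Z → ZMod 2, (∀ a b, ζ (a * b) = ζ a + ζ b) ∧ ζ z ≠ 0 := by
  letI : CommGroup Z := { (inferInstance : Group Z) with mul_comm := hc }
  letI : Module (ZMod 2) (Additive Z) := AddCommGroup.zmodModule fun x => by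
    rw [two_nsmul]
    exact congrArg Additive.ofMul (h x.toMul)
  by_contra hne
  push Not at hne
  refine hz (congrArg Additive.toMul ((Module.forall_dual_apply_eq_zero_iff (ZMod 2) (Additive.ofMul z)).1
    fun φ => hne (fun a => φ (Additive.ofMul a)) fun a b => ?_))
  rw [ofMul_mul, map_add]

section

variable {W V : Type*} [Group W] [DecidableEq V] {s : V → W} {Γ : ℕ → Subgroup W}

/-- a character of `Γ m` which vanishes on the conjugates of the subgroup without `v` vanishes on `Γ (m + 1)` -/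
theorem char_step {m : ℕ} (hn : (Γ m).Normal) (wall : Wall s Γ) (h1 : Γ (m + 1) ≤ Γ m) {Q : Type*} [Group Q]
    (f : W →* Q) (v : V) (hv : ∀ x ∈ Γ m, x ∈ closure (s '' {u | u ≠ v}) → f x = 1)
    (ζ : Q → ZMod 2) (hζ : ∀ x ∈ Γ m, ∀ y ∈ Γ m, ζ (f x * f y) = ζ (f x) + ζ (f y)) :
    ∀ x ∈ Γ (m + 1), ζ (f x) = 0 := by
  classical
  set U : Subgroup W := closure (s '' {u | u ≠ v}) with hU
  set L : Subgroup W := Γ m ⊔ U with hL
  have hex : ∀ w : W, ∃ x ∈ Γ m, ∃ u ∈ U, w = x * (w : W ⧸ L).out * u := by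
    intro w
    have h2 : (w : W ⧸ L).out⁻¹ * w ∈ L := by
      rw [← QuotientGroup.eq, QuotientGroup.out_eq']
    rw [hL, Subgroup.mem_sup_of_normal_left] at h2
    obtain ⟨y, hy, u, hu, h3⟩ := h2
    refine ⟨(w : W ⧸ L).out * y * (w : W ⧸ L).out⁻¹, hn.conj_mem y hy _, u, hu, ?_⟩
    rw [mul_assoc, mul_assoc, mul_assoc, inv_mul_cancel_left, h3, mul_inv_cancel_left]
  have huniq : ∀ (x x' r u u' : W), x ∈ Γ m → x' ∈ Γ m → u ∈ U → u' ∈ U → x * r * u = x' * r * u' →
      f x = f x' := by
    intro x x' r u u' hx hx' hu hu' h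
    have h2 : r⁻¹ * (x'⁻¹ * x) * r = u' * u⁻¹ := by
      have : x = x' * r * u' * u⁻¹ * r⁻¹ := by
        rw [← h]
        group
      rw [this]
      group
    have h3 : r⁻¹ * (x'⁻¹ * x) * r ∈ Γ m := by
      have := hn.conj_mem _ ((Γ m).mul_mem ((Γ m).inv_mem hx') hx) r⁻¹
      rwa [inv_inv] at this
    have h4 : f (r⁻¹ * (x'⁻¹ * x) * r) = 1 := by
      refine hv _ h3 ?_
      rw [h2]
      exact U.mul_mem hu' (U.inv_mem hu)
    rw [map_mul, map_mul, map_mul, map_inv, map_inv] at h4
    have h5 : (f x')⁻¹ * f x = 1 := by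
      have : (f x')⁻¹ * f x = f r * ((f r)⁻¹ * ((f x')⁻¹ * f x) * f r) * (f r)⁻¹ := by group
      rw [this, h4]
      group
    exact (inv_mul_eq_one.1 h5).symm
  choose X hX Y hY hXY using hex
  have hψ : ∀ x ∈ Γ m, ∀ w, ζ (f (X (x * w))) = ζ (f x) + ζ (f (X w)) := by
    intro x hx w
    have h2 : ((x * w : W) : W ⧸ L) = (w : W ⧸ L) := by
      rw [QuotientGroup.eq]
      have : (x * w)⁻¹ * w = w⁻¹ * x⁻¹ * (w⁻¹)⁻¹ := by group
      rw [this]
      exact (le_sup_left : Γ m ≤ L) (hn.conj_mem _ ((Γ m).inv_mem hx) _)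
    have h3 : f (X (x * w)) = f (x * X w) := by
      refine huniq _ _ (w : W ⧸ L).out (Y (x * w)) (Y w) (hX _) ((Γ m).mul_mem hx (hX w)) (hY _) (hY w) ?_
      have h4 := hXY (x * w)
      rw [h2] at h4
      rw [← h4, mul_assoc x, mul_assoc x, ← hXY w]
    rw [h3, map_mul, hζ x hx _ (hX w)]
  have hψu : ∀ u ≠ v, ∀ w, ζ (f (X (w * s u))) = ζ (f (X w)) := by
    intro u hu w
    have hsu : s u ∈ U := subset_closure ⟨u, hu, rfl⟩
    have h2 : ((w * s u : W) : W ⧸ L) = (w : W ⧸ L) := by
      rw [QuotientGroup.eq]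
      have : (w * s u)⁻¹ * w = (s u)⁻¹ := by group
      rw [this]
      exact (le_sup_right : U ≤ L) (U.inv_mem hsu)
    have h3 : f (X (w * s u)) = f (X w) := by
      refine huniq _ _ (w : W ⧸ L).out (Y (w * s u)) (Y w * s u) (hX _) (hX w) (hY _)
        (U.mul_mem (hY w) hsu) ?_
      have h4 := hXY (w * s u)
      rw [h2] at h4
      rw [← h4, ← mul_assoc, ← hXY w]
    rw [h3]
  intro x hx
  have h2 := wall m v (fun w => ζ (f (X w))) hψu (fun x hx w => by
    show ζ (f (X (x * w * s v))) + ζ (f (X (x * w))) = ζ (f (X (w * s v))) + ζ (f (X w))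
    rw [mul_assoc, hψ x hx, hψ x hx]
    have : (1 : ZMod 2) + 1 = 0 := by decide
    linear_combination (ζ (f x)) * this) x hx
  have h3 := hψ x (h1 hx) 1
  rw [mul_one] at h3
  have h4 : ζ (f (X x)) = ζ (f (X 1)) := h2
  rw [h4] at h3
  exact left_eq_add.1 (h3.trans (add_comm _ _))

/-- **Cofinality**: a homomorphism to a finite group, for which the image of `Γ 0` is a two-group, is trivial on some
`Γ m`. -/
theorem cofinalP [Finite V] (gen : closure (Set.range s) = ⊤) (hn : ∀ m, (Γ m).Normal)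
    (anti : Antitone Γ) (ret : Retr s Γ) (wall : Wall s Γ) {Q : Type*} [Group Q] [Finite Q]
    (f : W →* Q) (h2 : ∀ x ∈ Γ 0, ∃ k : ℕ, f x ^ 2 ^ k = 1) : ∃ m, ∀ x ∈ Γ m, f x = 1 := by
  classical
  haveI := Fintype.ofFinite V
  suffices H : ∀ (S : Finset V) (k : ℕ) (Q : Type _) [Group Q] [Finite Q], Nat.card Q ≤ k →
      ∀ f : W →* Q, Function.Surjective f → (∀ x ∈ Γ 0, ∃ k : ℕ, f x ^ 2 ^ k = 1) →
        (∀ u ∉ S, f (s u) = 1) → ∃ m, ∀ x ∈ Γ m, f x = 1 by
    obtain ⟨m, hm⟩ := H Finset.univ (Nat.card f.range) f.range le_rfl f.rangeRestrict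
      f.rangeRestrict_surjective (fun x hx => by
        obtain ⟨k, hk⟩ := h2 x hx
        exact ⟨k, Subtype.ext hk⟩) (fun u hu => absurd (Finset.mem_univ u) hu)
    exact ⟨m, fun x hx => congrArg Subtype.val (hm x hx)⟩
  clear h2 f
  intro S
  induction S using Finset.induction_on with
  | empty =>
    intro k Q _ _ _ f _ _ hf
    refine ⟨0, fun x _ => ?_⟩
    have h1 : f = 1 := by
      refine MonoidHom.eq_of_eqOn_dense gen ?_
      rintro _ ⟨u, rfl⟩
      exact hf u (by simp)
    rw [h1]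
    rfl
  | insert v S hvS ih =>
    intro k
    induction k with
    | zero =>
      intro Q _ _ hk
      exact absurd (Nat.card_pos (α := Q)) (by omega)
    | succ k ihk =>
      intro Q _ _ hk f hsurj h2 hf
      by_cases hB : ∀ x ∈ Γ 0, f x = 1
      · exact ⟨0, hB⟩
      haveI : Fact (Nat.Prime 2) := ⟨Nat.prime_two⟩
      set B : Subgroup Q := (Γ 0).map f with hBdef
      have hΓ0 := hn 0
      haveI hBn : B.Normal := Subgroup.Normal.map hΓ0 f hsurj
      have hBp : IsPGroup 2 B := by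
        rintro ⟨_, x, hx, rfl⟩
        obtain ⟨k, hk⟩ := h2 x hx
        exact ⟨k, Subtype.ext hk⟩
      haveI hBnt : Nontrivial B := by
        push Not at hB
        obtain ⟨x, hx, hfx⟩ := hB
        exact ⟨⟨⟨f x, x, hx, rfl⟩, 1, fun h => hfx (congrArg Subtype.val h)⟩⟩
      haveI := hBp.center_nontrivial
      obtain ⟨z, hz⟩ : ∃ z : center B, orderOf z = 2 := by
        have h1 : IsPGroup 2 (center B) := hBp.to_subgroup _
        obtain ⟨n, hn⟩ := IsPGroup.iff_card.1 h1
        refine exists_prime_orderOf_dvd_card' 2 ?_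
        rcases n with _ | n
        · exfalso
          rw [pow_zero] at hn
          exact absurd hn (Finite.one_lt_card (α := center B)).ne'
        · rw [hn, pow_succ]
          exact dvd_mul_left _ _
      have hz1 : ((z : B) : Q) ≠ 1 := by
        intro h
        have : z = 1 := Subtype.ext (Subtype.ext h)
        rw [this, orderOf_one] at hz
        omega
      have hzz : ((z : B) : Q) * ((z : B) : Q) = 1 := by
        have h1 : z ^ 2 = 1 := hz ▸ pow_orderOf_eq_one z
        rw [pow_two] at h1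
        exact congrArg Subtype.val (congrArg Subtype.val h1)
      have hzc : ∀ b ∈ B, b * ((z : B) : Q) = ((z : B) : Q) * b := fun b hb =>
        congrArg Subtype.val (mem_center_iff.1 z.2 ⟨b, hb⟩)
      -- the elements of order two of the centre of `B`
      let Z : Subgroup Q :=
        { carrier := {y | y ∈ B ∧ y * y = 1 ∧ ∀ b ∈ B, b * y = y * b}
          mul_mem' := by
            rintro a b ⟨ha1, ha2, ha3⟩ ⟨hb1, hb2, hb3⟩
            refine ⟨B.mul_mem ha1 hb1, ?_, fun c hc => ?_⟩
            · have : a * b * (a * b) = a * (b * a) * b := by group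
              rw [this, ha3 b hb1, ← mul_assoc, ha2, one_mul, hb2]
            · rw [← mul_assoc, ha3 c hc, mul_assoc, hb3 c hc, mul_assoc]
          one_mem' := ⟨B.one_mem, one_mul 1, fun b _ => by rw [mul_one, one_mul]⟩
          inv_mem' := by
            rintro a ⟨ha1, ha2, ha3⟩
            have : a⁻¹ = a := inv_eq_of_mul_eq_one_right ha2
            rw [this]
            exact ⟨ha1, ha2, ha3⟩ }
      have hZ : ∀ y, y ∈ Z ↔ y ∈ B ∧ y * y = 1 ∧ ∀ b ∈ B, b * y = y * b := fun y => Iff.rfl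
      haveI hZn : Z.Normal := by
        refine ⟨fun y hy g => ?_⟩
        obtain ⟨h3, h4, h5⟩ := hy
        refine ⟨hBn.conj_mem y h3 g, ?_, fun b hb => ?_⟩
        · have : g * y * g⁻¹ * (g * y * g⁻¹) = g * (y * y) * g⁻¹ := by group
          rw [this, h4]
          group
        · have h6 := h5 (g⁻¹ * b * g) (by
            have := hBn.conj_mem b hb g⁻¹
            rwa [inv_inv] at this)
          have h7 : b * (g * y * g⁻¹) = g * (g⁻¹ * b * g * y) * g⁻¹ := by group
          have h8 : g * y * g⁻¹ * b = g * (y * (g⁻¹ * b * g)) * g⁻¹ := by group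
          rw [h7, h8, h6]
      have hcard : Nat.card (Q ⧸ Z) ≤ k := by
        have h1 := Subgroup.card_eq_card_quotient_mul_card_subgroup Z
        have h3 : 1 < Nat.card Z := by
          haveI : Nontrivial Z := ⟨⟨⟨((z : B) : Q), (z : B).2, hzz, hzc⟩, 1,
            fun h => hz1 (congrArg Subtype.val h)⟩⟩
          exact Finite.one_lt_card
        have h4 : 0 < Nat.card (Q ⧸ Z) := Nat.card_pos
        nlinarith
      obtain ⟨m1, hm1⟩ := ihk (Q ⧸ Z) hcard ((QuotientGroup.mk' Z).comp f)
        ((QuotientGroup.mk'_surjective Z).comp hsurj) (fun x hx => by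
          obtain ⟨k, hk⟩ := h2 x hx
          refine ⟨k, ?_⟩
          rw [← map_pow, MonoidHom.comp_apply, map_pow, hk, map_one]) (fun u hu => by
          show ((f (s u) : Q) : Q ⧸ Z) = 1
          rw [hf u hu]
          rfl)
      obtain ⟨r, hr, hrΓ⟩ := ret S
      obtain ⟨m2, hm2⟩ := ih (Nat.card (f.comp r).range) (f.comp r).range le_rfl (f.comp r).rangeRestrict
        (f.comp r).rangeRestrict_surjective (fun x hx => by
          obtain ⟨k, hk⟩ := h2 (r x) (hrΓ 0 x hx)
          exact ⟨k, Subtype.ext hk⟩) (fun u hu => by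
          apply Subtype.ext
          show f (r (s u)) = 1
          rw [hr, if_neg hu, map_one])
      set m := max m1 m2 with hm
      refine ⟨m + 1, fun x hx => ?_⟩
      have hZm : ∀ x ∈ Γ m, f x ∈ Z := by
        intro x hx
        have h1 := hm1 x (anti (le_max_left m1 m2) hx)
        exact (QuotientGroup.eq_one_iff _).1 h1
      have hvm : ∀ x ∈ Γ m, x ∈ closure (s '' {u | u ≠ v}) → f x = 1 := by
        intro x hx hxu
        have h1 : f (r x) = 1 := congrArg Subtype.val (hm2 x (anti (le_max_right m1 m2) hx))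
        have h3 : ∀ y ∈ closure (s '' {u | u ≠ v}), f (r y) = f y := by
          intro y hy
          induction hy using closure_induction with
          | mem y hy =>
            obtain ⟨u, hu, rfl⟩ := hy
            rw [hr]
            split_ifs with h
            · rfl
            · rw [map_one, hf u]
              rw [Finset.mem_insert, not_or]
              exact ⟨hu, h⟩
          | one => simp
          | mul a b _ _ ha hb => simp only [map_mul, ha, hb]
          | inv a _ ha => simp only [map_inv, ha]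
        rw [← h3 x hxu]
        exact h1
      by_contra hne
      have hxm := hZm x (anti (Nat.le_succ m) hx)
      obtain ⟨ζ, hζ1, hζ2⟩ := exists_char (Z := Z) (fun a b => Subtype.ext (b.2.2.2 a.1 a.2.1))
        (fun a => Subtype.ext a.2.2.1) (z := ⟨f x, hxm⟩) (fun h => hne (congrArg Subtype.val h))
      refine hζ2 ?_
      have h5 := char_step (hn m) wall (anti (Nat.le_succ m)) f v hvm
        (fun q => if h : q ∈ Z then ζ ⟨q, h⟩ else 0) (fun x hx y hy => by
          rw [dif_pos (Z.mul_mem (hZm x hx) (hZm y hy)), dif_pos (hZm x hx), dif_pos (hZm y hy)]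
          exact hζ1 ⟨f x, hZm x hx⟩ ⟨f y, hZm y hy⟩) x hx
      rwa [dif_pos hxm] at h5

end

section Tower

variable {V : Type} [DecidableEq V] [Fintype V] {G : SimpleGraph V} {W : Type} [Group W]

/-- **the hypothesis `Wall` for the tower with an arbitrary start** -/
theorem wall_twr (R : Rac G W) {Φ : Subgroup W} (hΦ : ∀ g ∈ Φ, ∀ v, R.b g v = 0) : Wall R.s (twr Φ) := by
  intro m v psi h1 h2 x hx
  obtain ⟨hx1, hx2⟩ := hx
  refine wall_even G R.s R.sq R.comm R.gen R.lift (twr Φ m) ?_ v psi h1 h2 x hx1 hx2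
  exact fun e y hy => unit_one R e y (hΦ y (twr_anti Φ (Nat.zero_le m) hy))

theorem retr_twr (R : Rac G W) {Φ : Subgroup W} (hΦ : Lev0 R Φ) : Retr R.s (twr Φ) :=
  fun S => ⟨R.r S, R.r_s S, fun m x hx => (hΦ.twr m).ret S x hx⟩

/-- a homomorphism to a finite group, for which the image of `Φ` is a two-group, is trivial on a level of the tower -/
theorem T_homP (R : Rac G W) {Φ : Subgroup W} (hΦ : Lev0 R Φ) {Q : Type} [Group Q] [Finite Q] (f : W →* Q)
    (h2 : ∀ x ∈ Φ, ∃ k : ℕ, f x ^ 2 ^ k = 1) : ∃ m, ∀ x ∈ twr Φ m, f x = 1 :=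
  cofinalP R.gen (fun m => (hΦ.twr m).normal) (twr_anti Φ) (retr_twr R hΦ) (wall_twr R hΦ.bits) f h2

/-- **cofinality of the tower with the start `Φ`** -/
theorem T_cofP (R : Rac G W) {Φ : Subgroup W} (hΦ : Lev0 R Φ) (N : Subgroup W) (hN : N.Normal)
    (hf : N.FiniteIndex) (h2 : ∀ x ∈ Φ, ∃ k : ℕ, x ^ 2 ^ k ∈ N) : ∃ m, twr Φ m ≤ N := by
  obtain ⟨m, hm⟩ := T_homP R hΦ (QuotientGroup.mk' N) (fun x hx => by
    obtain ⟨k, hk⟩ := h2 x hx
    exact ⟨k, by rw [← map_pow]; exact (QuotientGroup.eq_one_iff _).2 hk⟩)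
  exact ⟨m, fun x hx => (QuotientGroup.eq_one_iff _).1 (hm x hx)⟩

end Tower

end Pool.Agent.S9

end

section

/-!
# S9, S10, block T3: homomorphisms of a level of the tower to finite two-groups
-/

set_option autoImplicit false

namespace Pool.Agent.S9

section

variable {G : Type} [Group G]

/-- the powers of an element of `Φ` reach all levels -/
theorem two_twr {Φ : Subgroup G} (m : ℕ) {x : G} (hx : x ∈ Φ) : ∃ k : ℕ, x ^ 2 ^ k ∈ twr Φ m := by
  induction m with
  | zero => exact ⟨0, by simpa using hx⟩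
  | succ m ih =>
    obtain ⟨k, hk⟩ := ih
    refine ⟨k + 1, ?_⟩
    rw [pow_succ, pow_mul]
    exact sq_mem_nxt hk

/-- `exists_core` relative to `Φ` -/
theorem exists_coreP {Φ Γ : Subgroup G} [Γ.Normal] [Γ.FiniteIndex] (hΦ : ∀ x ∈ Φ, ∃ k : ℕ, x ^ 2 ^ k ∈ Γ)
    {Q : Type} [Group Q] [Finite Q] (hQ : IsPGroup 2 Q) (f : Γ →* Q) : ∃ N : Subgroup G, N.Normal ∧
      N.FiniteIndex ∧ (∀ x ∈ Φ, ∃ k : ℕ, x ^ 2 ^ k ∈ N) ∧ N ≤ Γ ∧
        ∀ (x : G) (_ : x ∈ N) (h : x ∈ Γ), f ⟨x, h⟩ = 1 := by
  let K : Subgroup G := f.ker.map Γ.subtype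
  have hKΓ : K ≤ Γ := by
    rintro _ ⟨x, _, rfl⟩
    exact x.2
  have hK1 : ∀ (x : G) (_ : x ∈ K) (h : x ∈ Γ), f ⟨x, h⟩ = 1 := by
    rintro _ ⟨x, hx, rfl⟩ h
    exact hx
  have hK2 : ∀ x (h : x ∈ Γ), f ⟨x, h⟩ = 1 → x ∈ K := fun x h h1 => ⟨⟨x, h⟩, h1, rfl⟩
  have hfi : K.FiniteIndex := by
    have h1 : f.ker.FiniteIndex := inferInstance
    have h2 : K.subgroupOf Γ = f.ker := by
      ext x
      rw [Subgroup.mem_subgroupOf]
      exact ⟨fun h => hK1 _ h x.2, fun h => hK2 _ x.2 h⟩
    have h8 := Subgroup.relIndex_mul_index hKΓ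
    refine ⟨?_⟩
    rw [← h8, Subgroup.relIndex, h2]
    exact mul_ne_zero h1.index_ne_zero Subgroup.FiniteIndex.index_ne_zero
  obtain ⟨b, hb⟩ : ∃ b : ℕ, Nat.card Q = 2 ^ b := (IsPGroup.iff_card (p := 2)).1 hQ
  refine ⟨K.normalCore, inferInstance, inferInstance, fun x hx => ?_,
    (Subgroup.normalCore_le K).trans hKΓ, fun x hx h => hK1 x (Subgroup.normalCore_le K hx) h⟩
  obtain ⟨k, hk⟩ := hΦ x hx
  refine ⟨k + b, fun w => ?_⟩
  have h3 : w * x ^ 2 ^ k * w⁻¹ ∈ Γ := Subgroup.Normal.conj_mem inferInstance _ hk w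
  have h4 : w * x ^ 2 ^ (k + b) * w⁻¹ = (w * x ^ 2 ^ k * w⁻¹) ^ 2 ^ b := by
    rw [conj_pow, ← pow_mul, ← pow_add]
  rw [h4]
  refine hK2 _ (Γ.pow_mem h3 _) ?_
  have h5 : f ⟨(w * x ^ 2 ^ k * w⁻¹) ^ 2 ^ b, Γ.pow_mem h3 _⟩ = f ⟨w * x ^ 2 ^ k * w⁻¹, h3⟩ ^ 2 ^ b :=
    map_pow f ⟨w * x ^ 2 ^ k * w⁻¹, h3⟩ _
  rw [h5, ← hb, pow_card_eq_one']

end

section Tower

variable {V : Type} [DecidableEq V] [Fintype V] {G : SimpleGraph V} {W : Type} [Group W]

/-- **a homomorphism of a level of the tower to a finite two-group is trivial on a later level** -/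
theorem T_levP (R : Rac G W) {Φ : Subgroup W} (hΦ : Lev0 R Φ) (m : ℕ) {Q : Type} [Group Q] [Finite Q]
    (hQ : IsPGroup 2 Q) (f : twr Φ m →* Q) :
    ∃ m' ≥ m, ∀ (x : W) (_ : x ∈ twr Φ m') (h : x ∈ twr Φ m), f ⟨x, h⟩ = 1 := by
  haveI := (hΦ.twr m).normal
  haveI := (hΦ.twr m).fin
  obtain ⟨N, hN, hf, h2, -, h1⟩ := exists_coreP (Φ := Φ) (Γ := twr Φ m) (fun x hx => two_twr m hx) hQ f
  obtain ⟨m', hm'⟩ := T_cofP R hΦ N hN hf h2
  exact ⟨max m m', le_max_left m m', fun x hx h => h1 x (hm' (twr_anti Φ (le_max_right m m') hx)) h⟩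

end Tower

end Pool.Agent.S9

end

section

/-!
# S10, block EA: the minimal level of the tower (abstract form)
-/

set_option autoImplicit false

namespace Pool.Agent.S10.EA

open Pool.Agent.S9

variable {V : Type} [DecidableEq V] [Fintype V] {G : SimpleGraph V} {W : Type} [Group W]

/-- there is a level of the tower at which the growth of the character is at most the growth of all quotients of the
level which are finite two-groups -/
theorem min_core (R : Rac G W) {Φ : Subgroup W} (hΦ : Lev0 R Φ)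
    (zz : ∀ m r : ℕ, (twr Φ m →* Multiplicative (Fin r → ℤ)) → ℕ) (zo : Subgroup W → ℕ)
    (int : ∀ (m r : ℕ) (ab : twr Φ m →* Multiplicative (Fin r → ℤ)), Function.Surjective ab →
      (∀ f : twr Φ m →* Multiplicative ℤ, ∀ g, ab g = 1 → f g = 1) →
        (twr Φ m).relIndex Φ ∣ zz m r ab)
    (spec : ∀ (m r : ℕ) (ab : twr Φ m →* Multiplicative (Fin r → ℤ)), zz m r ab ≤ zo (twr Φ m))
    (tran : ∀ M M' : Subgroup W, M' ≤ M → M ≤ Φ → M'.FiniteIndex → (M'.subgroupOf M).Normal →
      (∀ x ∈ M, ∃ k : ℕ, x ^ 2 ^ k ∈ M') → zo M' ≤ M'.relIndex M * zo M) :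
    ∃ (m r : ℕ) (ab : twr Φ m →* Multiplicative (Fin r → ℤ)), Function.Surjective ab ∧
      (∀ f : twr Φ m →* Multiplicative ℤ, ∀ g, ab g = 1 → f g = 1) ∧
      ∀ (Q : Type) [Group Q] [Finite Q], IsPGroup 2 Q → ∀ f : twr Φ m →* Q,
        Nat.card f.range * zz m r ab ≤ zo (f.ker.map (twr Φ m).subtype) := by
  classical
  haveI := hΦ.fin
  haveI := hΦ.normal
  haveI := R.fg
  have hfi : ∀ m, (twr Φ m).FiniteIndex := fun m => (hΦ.twr m).fin
  have hno : ∀ m, (twr Φ m).Normal := fun m => (hΦ.twr m).normal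
  have hle : ∀ m, twr Φ m ≤ Φ := fun m => twr_anti Φ (Nat.zero_le m)
  -- the coordinates of a level
  have hco : ∀ m : ℕ, ∃ (r : ℕ) (ab : twr Φ m →* Multiplicative (Fin r → ℤ)) (b : ℕ),
      Function.Surjective ab ∧ (∀ f : twr Φ m →* Multiplicative ℤ, ∀ g, ab g = 1 → f g = 1) ∧
        zz m r ab = (twr Φ m).relIndex Φ * b := by
    intro m
    haveI := hfi m
    haveI : Group.FG (twr Φ m) := Subgroup.fg_of_index_ne_zero _
    obtain ⟨r, c, hc, hf⟩ := exists_coord (twr Φ m)
    have h0 : ∀ f : twr Φ m →* Multiplicative ℤ, ∀ g, c g = 1 → f g = 1 := by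
      intro f g hg
      obtain ⟨y, hy⟩ := hf f
      apply Multiplicative.toAdd.injective
      rw [hy, hg]
      simp
    obtain ⟨b, hb⟩ := int m r c hc h0
    exact ⟨r, c, b, hc, h0, hb⟩
  let S : Set ℕ := {b | ∃ (m r : ℕ) (ab : twr Φ m →* Multiplicative (Fin r → ℤ)),
    Function.Surjective ab ∧ (∀ f : twr Φ m →* Multiplicative ℤ, ∀ g, ab g = 1 → f g = 1) ∧
      zz m r ab = (twr Φ m).relIndex Φ * b}
  have hS : S.Nonempty := by
    obtain ⟨r, ab, b, h1, h2, h3⟩ := hco 0
    exact ⟨b, 0, r, ab, h1, h2, h3⟩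
  obtain ⟨m, r, ab, h1, h2, h3⟩ := Nat.sInf_mem hS
  refine ⟨m, r, ab, h1, h2, fun Q _ _ hQ f => ?_⟩
  set M : Subgroup W := f.ker.map (twr Φ m).subtype with hM
  have hMle : M ≤ twr Φ m := by
    rintro _ ⟨x, _, rfl⟩
    exact x.2
  have hMk : M.subgroupOf (twr Φ m) = f.ker := by
    ext x
    rw [Subgroup.mem_subgroupOf]
    constructor
    · rintro ⟨y, hy, hyx⟩
      have : y = x := Subtype.ext hyx
      rwa [← this]
    · intro hx
      exact ⟨x, hx, rfl⟩
  have hMi : M.relIndex (twr Φ m) = Nat.card f.range := by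
    rw [Subgroup.relIndex, hMk, Subgroup.index_ker]
  obtain ⟨m', hmm, hf'⟩ := T_levP R hΦ m hQ f
  have hM' : twr Φ m' ≤ M := by
    intro x hx
    exact ⟨⟨x, twr_anti Φ hmm hx⟩, hf' x hx _, rfl⟩
  obtain ⟨r', ab', b', h1', h2', h3'⟩ := hco m'
  have hb : sInf S ≤ b' := Nat.sInf_le ⟨m', r', ab', h1', h2', h3'⟩
  have ht := tran M (twr Φ m') hM' (hMle.trans (hle m)) (hfi m')
    (by haveI := hno m'; exact Subgroup.normal_subgroupOf) (fun x hx => two_twr m' (hle m (hMle hx)))
  have hs := spec m' r' ab'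
  have hrel1 : (twr Φ m').relIndex M * M.relIndex (twr Φ m) = (twr Φ m').relIndex (twr Φ m) :=
    Subgroup.relIndex_mul_relIndex _ _ _ hM' hMle
  have hrel2 : (twr Φ m').relIndex (twr Φ m) * (twr Φ m).relIndex Φ = (twr Φ m').relIndex Φ :=
    Subgroup.relIndex_mul_relIndex _ _ _ (twr_anti Φ hmm) (hle m)
  have hpos : 0 < (twr Φ m').relIndex M := by
    have h4 := Subgroup.relIndex_mul_index hM'
    rcases Nat.eq_zero_or_pos ((twr Φ m').relIndex M) with h5 | h5
    · rw [h5, zero_mul] at h4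
      exact absurd h4.symm (hfi m').index_ne_zero
    · exact h5
  have hfin : (twr Φ m').relIndex M * (Nat.card f.range * zz m r ab) ≤ (twr Φ m').relIndex M * zo M := by
    calc (twr Φ m').relIndex M * (Nat.card f.range * zz m r ab)
        = (twr Φ m').relIndex Φ * sInf S := by
          rw [← hMi, h3, ← hrel2, ← hrel1]
          ring
      _ ≤ (twr Φ m').relIndex Φ * b' := Nat.mul_le_mul_left _ hb
      _ = zz m' r' ab' := h3'.symm
      _ ≤ zo (twr Φ m') := hs
      _ ≤ _ := ht
  exact Nat.le_of_mul_le_mul_left hfin hpos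

end Pool.Agent.S10.EA

end
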