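import Pool.Agent.H71.TSG.M17
import Pool.Agent.H71.TSG.M19
import Pool.Agent.H71.TSG.M32
import Pool.Agent.H71.TSG.M36

/-! The parts of this file: H4.Singer.LuckVanish, H73.GC.Prod2, H19.Cub.Hodge, H19.LG.Core, H19.LG.MCmp, S10.MCl. -/

section

/-!
# Singer project: vanishing of the `ℓ²`-kernel by Lück approximation
-/

set_option autoImplicit false
set_option linter.unusedSectionVars false

open Filter Topology

namespace Pool.Agent.H4.Singer

open Pool.Agent.H4.Atiyah

theorem l2ker_trivial {G : Type} [Group G] [DecidableEq G] {P : ℕ → Type} [∀ j, Group (P j)]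
    [∀ j, Fintype (P j)] (π : ∀ j, G →* P j) (hπ : ∀ g : G, g ≠ 1 → ∀ᶠ j in atTop, π j g ≠ 1)
    {k n : ℕ} (A : Matrix (Fin k) (Fin n) (MonoidAlgebra ℤ G))
    (hdim : ∀ η > (0 : ℝ), ∀ᶠ j in atTop, (k * Fintype.card (P j) : ℝ) -
      (op ((toC A).map (MonoidAlgebra.mapDomainRingHom ℂ (π j)))).rank ≤
        η * Fintype.card (P j)) :
    ∀ x ∈ l2ker (toC A), x = 0 :=
  l2ker_trivial_of_vnDim _ (vnDim_nonpos π hπ A hdim)

end Pool.Agent.H4.Singer

end

section

/-!
# Growth calculus: the product lemma with the other factor, two conditions at once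
-/

set_option autoImplicit false
set_option linter.unusedSectionVars false

open Finset

namespace Pool.Agent.H73.GC

variable {V : Type} [DecidableEq V] [Fintype V]

/-- `prod_le` and `TensorProduct.comm` -/
theorem prod_le' {Y₁ Y₂ : Type} [AddCommGroup Y₁] [Module F2 Y₁] [AddCommGroup Y₂] [Module F2 Y₂]
    [Finite Y₁] [Finite Y₂] {G : SimpleGraph V} {U : Finset V} {r₁ : V → Module.End F2 Y₁}
    {r₂ E₂ : V → Module.End F2 Y₂} (h₁ : IsN G U r₁) (h₂ : IsN G U r₂) (hb : IsBit G U r₂ E₂)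
    {X : Finset V → Prop} (hc : ∀ s, X s → Cq G U s) (hm : ∀ s v, X (insert v s) → X s) (i : ℕ) :
    hX X (tens r₁ r₂) i ≤
      Module.finrank F2 Y₁ * hX X r₂ i := by
  have : Finite (TensorProduct F2 Y₁ Y₂) := finite_tens
  have : Finite (TensorProduct F2 Y₂ Y₁) := finite_tens
  have h3 : hX X (tens r₁ r₂) i = hX X (tens r₂ r₁) i := by
    refine hX_equiv (TensorProduct.comm F2 Y₁ Y₂) (fun s _ v _ y => ?_) i
    have h4 : (TensorProduct.comm F2 Y₁ Y₂).toLinearMap ∘ₗ tens r₁ r₂ v =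
        tens r₂ r₁ v ∘ₗ (TensorProduct.comm F2 Y₁ Y₂).toLinearMap := by
      refine TensorProduct.ext' fun a b => ?_
      simp [tens]
    exact LinearMap.congr_fun h4 y
  rw [h3]
  exact prod_le h₂ hb h₁ hc hm i

private theorem Prod2_self {Y : Type} [AddCommGroup Y] [Module F2 Y] (y : Y) : y + y = 0 := by
  have h : (2 : F2) • y = y + y := two_smul F2 y
  have h2 : (2 : F2) = 0 := by decide
  rw [← h, h2, zero_smul]

private theorem Prod2_mono {Y : Type} [AddCommGroup Y] [Module F2 Y] {G : SimpleGraph V}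
    {U U' : Finset V} (hU : U' ⊆ U) {r : V → Module.End F2 Y} (h : IsN G U r) : IsN G U' r := by
  refine ⟨fun v hv => h.sq v (hU hv), fun u hu v hv => h.comm u (hU hu) v (hU hv), ?_⟩
  obtain ⟨n, F, hF, h0, hn, hr⟩ := h.fil
  exact ⟨n, F, hF, h0, hn, fun j v hv => hr j v (hU hv)⟩

/-- the operators `r v`, `v ∉ U'`, are replaced by `1` -/
private theorem Prod2_ext {Y : Type} [AddCommGroup Y] [Module F2 Y] {G : SimpleGraph V}
    {U U' : Finset V} {r : V → Module.End F2 Y} (h : IsN G U' r) :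
    IsN G U (fun v => if v ∈ U' then r v else 1) := by
  refine ⟨?_, ?_, ?_⟩
  · intro v _ y
    by_cases hv : v ∈ U'
    · simp only [if_pos hv]
      exact h.sq v hv y
    · simp only [if_neg hv]
      rfl
  · intro u _ v _ huv y
    by_cases hv : v ∈ U'
    · by_cases hu : u ∈ U'
      · simp only [if_pos hv, if_pos hu]
        exact h.comm u hu v hv huv y
      · simp only [if_pos hv, if_neg hu]
        rfl
    · simp only [if_neg hv]
      rfl
  · obtain ⟨n, F, hF, h0, hn, hr⟩ := h.fil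
    refine ⟨n, F, hF, h0, hn, fun j v _ y hy => ?_⟩
    by_cases hv : v ∈ U'
    · simp only [if_pos hv]
      exact hr j v hv y hy
    · simp only [if_neg hv]
      rw [Module.End.one_apply, Prod2_self]
      exact Submodule.zero_mem _

/-- Two conditions at once: the tensor product of a module for `U` and a module for `U'`, on which the
`r v`, `v ∉ U'`, are replaced by `1`. -/
theorem gz_two {G : SimpleGraph V} {U U' : Finset V} (hU : U' ⊆ U) {i j : ℕ} (h : GZ G U i)
    (h' : GZ G U' j) (ε : ℝ) (hε : 0 < ε) :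
    ∃ (Y : Type) (_ : AddCommGroup Y) (_ : Module F2 Y) (_ : Finite Y)
      (r E : V → Module.End F2 Y), IsN G U r ∧ IsBit G U r E ∧ 0 < Module.finrank F2 Y ∧
        (hX (Cq G U) r i : ℝ) ≤ ε * Module.finrank F2 Y ∧
        (hX (Cq G U') r j : ℝ) ≤ ε * Module.finrank F2 Y := by
  obtain ⟨Y₁, _, _, _, r₁, E₁, hN₁, hB₁, hp₁, hX₁⟩ := h ε hε
  obtain ⟨Y₂, _, _, _, r₂, E₂, hN₂, hB₂, hp₂, hX₂⟩ := h' ε hε
  set q : V → Module.End F2 Y₂ := fun v => if v ∈ U' then r₂ v else 1 with hq
  have hNq : IsN G U q := Prod2_ext hN₂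
  have hNq' : IsN G U' q := Prod2_ext hN₂
  have hBq : IsBit G U' q E₂ := by
    refine ⟨hB₂.idem, ?_, ?_, hB₂.ee⟩
    · intro v hv y
      simp only [hq, if_pos hv]
      exact hB₂.bit v hv y
    · intro u hu v hv huv y
      simp only [hq, if_pos hv]
      exact hB₂.er u hu v hv huv y
  have hf : Module.finrank F2 (TensorProduct F2 Y₁ Y₂) =
      Module.finrank F2 Y₁ * Module.finrank F2 Y₂ := Module.finrank_tensorProduct
  refine ⟨TensorProduct F2 Y₁ Y₂, inferInstance, inferInstance, finite_tens, tens r₁ q,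
    fun v => TensorProduct.map (E₁ v) LinearMap.id, isN_tens hN₁ hNq, isBit_tens_left hB₁,
    by rw [hf]; exact Nat.mul_pos hp₁ hp₂, ?_, ?_⟩
  · have h3 := prod_le hN₁ hB₁ hNq (X := Cq G U) (fun s hs => hs) (mono_Cq G U) i
    have h4 : (hX (Cq G U) (tens r₁ q) i : ℝ) ≤
        Module.finrank F2 Y₂ * (hX (Cq G U) r₁ i : ℝ) := by exact_mod_cast h3
    rw [hf]
    push_cast
    have h5 : (Module.finrank F2 Y₂ : ℝ) * (hX (Cq G U) r₁ i : ℝ) ≤
        Module.finrank F2 Y₂ * (ε * Module.finrank F2 Y₁) :=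
      mul_le_mul_of_nonneg_left hX₁ (Nat.cast_nonneg _)
    linarith
  · have h3 := prod_le' (Prod2_mono hU hN₁) hNq' hBq (X := Cq G U') (fun s hs => hs)
      (mono_Cq G U') j
    have h6 : hX (Cq G U') q j = hX (Cq G U') r₂ j := by
      refine hX_congr (fun s => Iff.rfl) (fun s hs v hv y => ?_) j
      simp only [hq, if_pos (hs.2 hv)]
    rw [h6] at h3
    have h4 : (hX (Cq G U') (tens r₁ q) j : ℝ) ≤
        Module.finrank F2 Y₁ * (hX (Cq G U') r₂ j : ℝ) := by exact_mod_cast h3
    rw [hf]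
    push_cast
    have h5 : (Module.finrank F2 Y₁ : ℝ) * (hX (Cq G U') r₂ j : ℝ) ≤
        Module.finrank F2 Y₁ * (ε * Module.finrank F2 Y₂) :=
      mul_le_mul_of_nonneg_left hX₂ (Nat.cast_nonneg _)
    linarith

/-- Only the edges between vertices in `U` matter. -/
theorem gz_congr {G G' : SimpleGraph V} {U : Finset V} (h : ∀ a ∈ U, ∀ b ∈ U, G.Adj a b ↔ G'.Adj a b)
    {i : ℕ} (hz : GZ G U i) : GZ G' U i := by
  intro ε hε
  obtain ⟨Y, _, _, _, r, E, hN, hB, hp, hXi⟩ := hz ε hε
  refine ⟨Y, inferInstance, inferInstance, inferInstance, r, E, ⟨hN.sq, ?_, hN.fil⟩,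
    ⟨hB.idem, hB.bit, ?_, ?_⟩, hp, ?_⟩
  · exact fun u hu v hv huv => hN.comm u hu v hv ((h u hu v hv).2 huv)
  · exact fun u hu v hv huv => hB.er u hu v hv ((h u hu v hv).2 huv)
  · exact fun u hu v hv huv => hB.ee u hu v hv ((h u hu v hv).2 huv)
  · have h3 : hX (Cq G' U) r i = hX (Cq G U) r i := by
      refine hX_congr (fun s => ?_) (fun s _ v _ y => rfl) i
      constructor
      · rintro ⟨h4, h5⟩
        exact ⟨fun a ha b hb hab => (h a (h5 ha) b (h5 hb)).2 (h4 ha hb hab), h5⟩
      · rintro ⟨h4, h5⟩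
        exact ⟨fun a ha b hb hab => (h a (h5 ha) b (h5 hb)).1 (h4 ha hb hab), h5⟩
    rw [h3]
    exact hXi

/-- the functions on the cube: the operators -/
private def Prod2_r (v : V) : Module.End F2 ((V → ZMod 2) → F2) where
  toFun f x := f (x + Pi.single v 1)
  map_add' _ _ := rfl
  map_smul' _ _ := rfl

/-- the functions on the cube: the projections -/
private def Prod2_E (v : V) : Module.End F2 ((V → ZMod 2) → F2) where
  toFun f x := if x v = 0 then f x else 0
  map_add' f g := by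
    funext x
    by_cases h : x v = 0
    · simp only [if_pos h, Pi.add_apply]
    · simp only [if_neg h, Pi.add_apply, add_zero]
  map_smul' c f := by
    funext x
    by_cases h : x v = 0
    · simp only [if_pos h, Pi.smul_apply, RingHom.id_apply]
    · simp only [if_neg h, Pi.smul_apply, RingHom.id_apply, smul_zero]

private theorem Prod2_r_apply (v : V) (f : (V → ZMod 2) → F2) (x : V → ZMod 2) :
    Prod2_r v f x = f (x + Pi.single v 1) := rfl

private theorem Prod2_E_apply (v : V) (f : (V → ZMod 2) → F2) (x : V → ZMod 2) :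
    Prod2_E v f x = if x v = 0 then f x else 0 := rfl

/-- the functions on the cube: the group -/
private def Prod2_rho : Multiplicative (V → ZMod 2) →* Module.End F2 ((V → ZMod 2) → F2) where
  toFun p :=
    { toFun := fun f x => f (x + Multiplicative.toAdd p)
      map_add' := fun _ _ => rfl
      map_smul' := fun _ _ => rfl }
  map_one' := by
    refine LinearMap.ext fun f => ?_
    funext x
    change f (x + 0) = f x
    rw [add_zero]
  map_mul' p q := by
    refine LinearMap.ext fun f => ?_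
    funext x
    change f (x + (Multiplicative.toAdd p + Multiplicative.toAdd q)) =
      f (x + Multiplicative.toAdd p + Multiplicative.toAdd q)
    rw [add_assoc]

private theorem Prod2_isN (G : SimpleGraph V) (U : Finset V) : IsN G U (Prod2_r (V := V)) := by
  refine ⟨?_, ?_, ?_⟩
  · intro v _ f
    funext x
    rw [Prod2_r_apply, Prod2_r_apply, add_assoc, Prod2_self, add_zero]
  · intro u _ v _ _ f
    funext x
    rw [Prod2_r_apply, Prod2_r_apply, Prod2_r_apply, Prod2_r_apply, add_right_comm]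
  · refine fil_group (P := Multiplicative (V → ZMod 2)) ?_ Prod2_rho U Prod2_r
      (fun v => Multiplicative.ofAdd (Pi.single v 1)) (fun v _ => rfl)
    intro p
    refine ⟨1, ?_⟩
    change Multiplicative.ofAdd ((2 ^ 1) • Multiplicative.toAdd p) = 1
    rw [pow_one, two_nsmul, Prod2_self]
    rfl

private theorem Prod2_isBit (G : SimpleGraph V) (U : Finset V) :
    IsBit G U (Prod2_r (V := V)) Prod2_E := by
  refine ⟨?_, ?_, ?_, ?_⟩
  · intro v _ f
    funext x
    rw [Prod2_E_apply, Prod2_E_apply]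
    by_cases h : x v = 0
    · simp only [if_pos h]
    · simp only [if_neg h]
  · intro v _ f
    funext x
    rw [Pi.add_apply, Prod2_E_apply, Prod2_r_apply, Prod2_r_apply, Prod2_E_apply,
      Pi.add_apply, Pi.single_eq_same]
    have h2 : ∀ a : ZMod 2, (a = 0 ∧ a + 1 ≠ 0) ∨ (a ≠ 0 ∧ a + 1 = 0) := by decide
    rcases h2 (x v) with ⟨h3, h4⟩ | ⟨h3, h4⟩
    · rw [if_pos h3, if_neg h4, add_zero]
    · rw [if_neg h3, if_pos h4, zero_add]
  · intro u _ v _ huv f
    funext x
    rw [Prod2_E_apply, Prod2_r_apply, Prod2_r_apply, Prod2_E_apply, Pi.add_apply,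
      Pi.single_eq_of_ne huv.ne, add_zero]
  · intro u _ v _ huv f
    funext x
    rw [Prod2_E_apply, Prod2_E_apply, Prod2_E_apply, Prod2_E_apply]
    by_cases h : x u = 0
    · by_cases h' : x v = 0
      · simp only [if_pos h, if_pos h']
      · simp only [if_pos h, if_neg h']
    · by_cases h' : x v = 0
      · simp only [if_neg h, if_pos h']
      · simp only [if_neg h, if_neg h']

/-- There are no cliques with `i` vertices. (Module: the functions on the cube `V → ZMod 2`.) -/
theorem gz_high {G : SimpleGraph V} {U : Finset V} {i : ℕ}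
    (h : ∀ s, Cq G U s → s.card ≠ i) : GZ G U i := by
  intro ε hε
  have hp : 0 < Module.finrank F2 ((V → ZMod 2) → F2) := by
    have : Module.Finite F2 ((V → ZMod 2) → F2) := Module.Finite.of_finite
    exact Module.finrank_pos
  refine ⟨(V → ZMod 2) → F2, inferInstance, inferInstance, inferInstance, Prod2_r, Prod2_E,
    Prod2_isN G U, Prod2_isBit G U, hp, ?_⟩
  have h3 : Ch (Sy (Cq G U) (Prod2_r (V := V))) i = ⊥ := by
    rw [eq_bot_iff]
    intro f hf
    rw [Submodule.mem_bot]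
    funext s
    by_cases hs : s.card = i
    · exact ((mem_Sy.1 (hf s).1).1 fun hc => h s hc hs)
    · exact (hf s).2 hs
  have h4 : hX (Cq G U) (Prod2_r (V := V)) i ≤ 0 := by
    unfold hX hd hx
    rw [h3, bot_inf_eq, finrank_bot]
    simp
  have h5 : (hX (Cq G U) (Prod2_r (V := V)) i : ℝ) ≤ 0 := by exact_mod_cast h4
  exact h5.trans (mul_nonneg hε.le (Nat.cast_nonneg _))

end Pool.Agent.H73.GC

end

section

/-!
# Project MC: harmonic `ℓ²`-chains and reduced homology

Modelled on `Pool.Agent.H4.Singer.L2Hodge`: the group is replaced by the set `X` and `w * gen G v` by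
`s v x`, the supports are `σ ⊆ Y x ∧ clique ∧ σ.card = i`.
-/

set_option autoImplicit false
set_option linter.unusedSectionVars false

open Finset

namespace Pool.Agent.H19.Cub

open Pool.Agent.H4.Singer

section Hodge

variable {V X : Type} [Fintype V] [DecidableEq V]

private lemma sl2h_dbd_eq (ν : V → ℕ) (f : Finset V → X → ℂ) :
    bdry ν f = dl ℂ ν f := by
  funext τ w
  rw [dl_apply]
  unfold bdry sg
  refine Finset.sum_congr rfl fun v _ => ?_
  push_cast
  rfl

private lemma sl2h_dbd_l2 (ν : V → ℕ) {f : Finset V → X → ℂ}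
    (hf : ∀ σ, Summable fun w => ‖f σ w‖ ^ 2) (τ : Finset V) :
    Summable fun w => ‖bdry ν f τ w‖ ^ 2 :=
  l2h_sum _ _ fun v _ => l2h_mul _ (hf (insert v τ))

private lemma sl2h_chain_add {G : SimpleGraph V} {Y : X → Finset V} {s : V → X → X} {i : ℕ} {f g : Finset V → X → ℂ}
    (hf : IsL2S G Y s i f) (hg : IsL2S G Y s i g) : IsL2S G Y s i (f + g) where
  supp σ w h := by
    by_cases h1 : f σ w = 0
    · by_cases h2 : g σ w = 0
      · exact absurd (by simp [h1, h2]) h
      · exact hg.supp σ w h2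
    · exact hf.supp σ w h1
  anti σ v hv w := by
    simp only [Pi.add_apply]
    rw [hf.anti σ v hv w, hg.anti σ v hv w]
    ring
  l2 σ := l2h_add (hf.l2 σ) (hg.l2 σ)

private lemma sl2h_chain_smul {G : SimpleGraph V} {Y : X → Finset V} {s : V → X → X} {i : ℕ} (a : ℂ) {f : Finset V → X → ℂ}
    (hf : IsL2S G Y s i f) : IsL2S G Y s i (a • f) where
  supp σ w h := hf.supp σ w (right_ne_zero_of_mul h)
  anti σ v hv w := by
    simp only [Pi.smul_apply, smul_eq_mul]
    rw [hf.anti σ v hv w]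
    ring
  l2 σ := l2h_mul a (hf.l2 σ)

private lemma sl2h_chain_zero {G : SimpleGraph V} {Y : X → Finset V} {s : V → X → X} {i : ℕ} :
    IsL2S G Y s i (0 : Finset V → X → ℂ) where
  supp σ w h := absurd rfl h
  anti σ v hv w := by simp
  l2 σ := by simp

/-- boundaries -/
private noncomputable def sl2hB (G : SimpleGraph V) (Y : X → Finset V) (s : V → X → X) (ν : V → ℕ) (i : ℕ) :
    Submodule ℂ (lp (fun _ : Finset V × X => ℂ) 2) where
  carrier := {e | ∃ y : Finset V → X → ℂ, IsL2S G Y s (i + 1) y ∧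
    ∀ σ w, e (σ, w) = bdry ν y σ w}
  zero_mem' := ⟨0, sl2h_chain_zero, fun σ w => by simp [bdry]⟩
  add_mem' := by
    rintro e e' ⟨y, hy, h⟩ ⟨y', hy', h'⟩
    refine ⟨y + y', sl2h_chain_add hy hy', fun σ w => ?_⟩
    rw [sl2h_dbd_eq, map_add, ← sl2h_dbd_eq, ← sl2h_dbd_eq]
    show e (σ, w) + e' (σ, w) = bdry ν y σ w + bdry ν y' σ w
    rw [h, h']
  smul_mem' := by
    rintro a e ⟨y, hy, h⟩
    refine ⟨a • y, sl2h_chain_smul a hy, fun σ w => ?_⟩
    rw [sl2h_dbd_eq, map_smul, ← sl2h_dbd_eq]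
    show a * e (σ, w) = a * bdry ν y σ w
    rw [h]

/-- cycles -/
private noncomputable def sl2hT (G : SimpleGraph V) (Y : X → Finset V) (s : V → X → X) (ν : V → ℕ) (i : ℕ) :
    Submodule ℂ (lp (fun _ : Finset V × X => ℂ) 2) where
  carrier := {e | (∀ (σ : Finset V) (w : X),
      ¬ (σ ⊆ Y w ∧ G.IsClique (σ : Set V) ∧ σ.card = i) → e (σ, w) = 0) ∧
    (∀ (σ : Finset V), ∀ v ∈ σ, ∀ w : X, e (σ, s v w) = - e (σ, w)) ∧
    ∀ (τ : Finset V) (w : X), ∑ v ∈ τᶜ, (-1 : ℂ) ^ (τ.filter fun u => ν u < ν v).card * e (insert v τ, w) = 0}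
  zero_mem' := by
    refine ⟨fun σ w _ => rfl, fun σ v _ w => ?_, fun τ w => ?_⟩
    · show (0 : ℂ) = - 0
      simp
    · refine Finset.sum_eq_zero fun v _ => ?_
      show _ * (0 : ℂ) = 0
      simp
  add_mem' := by
    rintro e e' ⟨h1, h2, h3⟩ ⟨h1', h2', h3'⟩
    refine ⟨fun σ w h => ?_, fun σ v hv w => ?_, fun τ w => ?_⟩
    · show e (σ, w) + e' (σ, w) = 0
      rw [h1 σ w h, h1' σ w h, add_zero]
    · show e (σ, s v w) + e' (σ, s v w) = - (e (σ, w) + e' (σ, w))
      rw [h2 σ v hv w, h2' σ v hv w]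
      ring
    · show ∑ v ∈ τᶜ, (-1 : ℂ) ^ (τ.filter fun u => ν u < ν v).card *
        (e (insert v τ, w) + e' (insert v τ, w)) = 0
      simp only [mul_add, Finset.sum_add_distrib]
      rw [h3, h3', add_zero]
  smul_mem' := by
    rintro a e ⟨h1, h2, h3⟩
    refine ⟨fun σ w h => ?_, fun σ v hv w => ?_, fun τ w => ?_⟩
    · show a * e (σ, w) = 0
      rw [h1 σ w h, mul_zero]
    · show a * e (σ, s v w) = - (a * e (σ, w))
      rw [h2 σ v hv w]
      ring
    · show ∑ v ∈ τᶜ, (-1 : ℂ) ^ (τ.filter fun u => ν u < ν v).card *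
        (a * e (insert v τ, w)) = 0
      have := h3 τ w
      calc _ = a * ∑ v ∈ τᶜ, (-1 : ℂ) ^ (τ.filter fun u => ν u < ν v).card *
            e (insert v τ, w) := by
            rw [Finset.mul_sum]
            exact Finset.sum_congr rfl fun v _ => by ring
        _ = 0 := by rw [this, mul_zero]

private lemma sl2hT_closed (G : SimpleGraph V) (Y : X → Finset V) (s : V → X → X) (ν : V → ℕ) (i : ℕ) :
    IsClosed (sl2hT G Y s ν i : Set (lp (fun _ : Finset V × X => ℂ) 2)) := by
  have h : (sl2hT G Y s ν i : Set (lp (fun _ : Finset V × X => ℂ) 2)) =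
      ((⋂ σ : Finset V, ⋂ w : X, ⋂ _ : ¬ (σ ⊆ Y w ∧ G.IsClique (σ : Set V) ∧ σ.card = i),
        {e | l2hEv (σ, w) e = 0}) ∩
      (⋂ σ : Finset V, ⋂ v : V, ⋂ _ : v ∈ σ, ⋂ w : X,
        {e | l2hEv (σ, s v w) e = - l2hEv (σ, w) e})) ∩
      (⋂ τ : Finset V, ⋂ w : X,
        {e | ∑ v ∈ τᶜ, (-1 : ℂ) ^ (τ.filter fun u => ν u < ν v).card *
          l2hEv (insert v τ, w) e = 0}) := by
    ext e
    simp only [Set.mem_inter_iff, Set.mem_iInter, Set.mem_ofPred_eq, l2hEv_apply]
    constructor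
    · rintro ⟨h1, h2, h3⟩
      exact ⟨⟨h1, fun σ v hv w => h2 σ v hv w⟩, h3⟩
    · rintro ⟨⟨h1, h2⟩, h3⟩
      exact ⟨h1, fun σ v hv w => h2 σ v hv w, h3⟩
  rw [h]
  refine (IsClosed.inter ?_ ?_).inter ?_
  · refine isClosed_iInter fun σ => isClosed_iInter fun w => isClosed_iInter fun _ => ?_
    exact isClosed_eq (l2hEv _).continuous continuous_const
  · refine isClosed_iInter fun σ => isClosed_iInter fun v => isClosed_iInter fun _ =>
      isClosed_iInter fun w => ?_
    exact isClosed_eq (l2hEv _).continuous (l2hEv _).continuous.neg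
  · refine isClosed_iInter fun τ => isClosed_iInter fun w => ?_
    refine isClosed_eq ?_ continuous_const
    exact continuous_finsetSum _ fun v _ => continuous_const.mul (l2hEv _).continuous

private lemma sl2hB_le (G : SimpleGraph V) (Y : X → Finset V) (s : V → X → X) (ν : V → ℕ) (hν : Function.Injective ν) (i : ℕ) :
    sl2hB G Y s ν i ≤ sl2hT G Y s ν i := by
  rintro e ⟨y, hy, h⟩
  refine ⟨fun σ w hσ => ?_, fun σ v hv w => ?_, fun τ w => ?_⟩
  · rw [h]
    unfold bdry
    refine Finset.sum_eq_zero fun v hv => ?_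
    rw [Finset.mem_compl] at hv
    by_contra hne
    obtain ⟨h0, h1, h2⟩ := hy.supp _ _ (right_ne_zero_of_mul hne)
    apply hσ
    refine ⟨(Finset.subset_insert _ _).trans h0, h1.subset (by simp), ?_⟩
    rw [Finset.card_insert_of_notMem hv] at h2
    omega
  · rw [h, h]
    unfold bdry
    rw [← Finset.sum_neg_distrib]
    refine Finset.sum_congr rfl fun u _ => ?_
    rw [hy.anti (insert u σ) v (mem_insert_of_mem hv)]
    ring
  · have h1 := congrFun (congrFun (dl_dl (F := ℂ) ν hν y) τ) w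
    rw [← sl2h_dbd_eq, ← sl2h_dbd_eq] at h1
    simp only [Pi.zero_apply] at h1
    rw [← h1]
    show _ = ∑ v ∈ τᶜ, (-1 : ℂ) ^ (τ.filter fun u => ν u < ν v).card * bdry ν y (insert v τ) w
    exact Finset.sum_congr rfl fun v _ => by rw [h]

open Classical in
/-- the coboundary, restricted to cliques with `i + 1` elements -/
private noncomputable def sl2hC (G : SimpleGraph V) (Y : X → Finset V) (s : V → X → X) (ν : V → ℕ) (i : ℕ) (x : Finset V → X → ℂ) :
    Finset V → X → ℂ := fun ρ w =>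
  if ρ ⊆ Y w ∧ G.IsClique (ρ : Set V) ∧ ρ.card = i + 1 then
    ∑ v ∈ ρ, (-1 : ℂ) ^ ((ρ.erase v).filter fun u => ν u < ν v).card *
      (x (ρ.erase v) w - x (ρ.erase v) (s v w)) else 0

private lemma sl2hC_chain (G : SimpleGraph V) (Y : X → Finset V) (s : V → X → X)
    (hs : IsSpec G Y s) (ν : V → ℕ) (i : ℕ) {x : Finset V → X → ℂ}
    (hx : IsL2S G Y s i x) : IsL2S G Y s (i + 1) (sl2hC G Y s ν i x) where
  supp σ w h := by
    unfold sl2hC at h
    by_contra hcon
    rw [if_neg hcon] at h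
    exact h rfl
  anti ρ u hu w := by
    unfold sl2hC
    by_cases hρ : ρ ⊆ Y w ∧ G.IsClique (ρ : Set V) ∧ ρ.card = i + 1
    · have hCl : Pool.Agent.H85.Fold.Cl G ρ := fun a ha b hb hab => hρ.2.1 ha hb hab
      have hρ' : ρ ⊆ Y (s u w) ∧ G.IsClique (ρ : Set V) ∧ ρ.card = i + 1 :=
        ⟨hs.sub hCl hu hρ.1, hρ.2⟩
      rw [if_pos hρ, if_pos hρ', ← Finset.sum_neg_distrib]
      refine Finset.sum_congr rfl fun v hv => ?_
      by_cases huv : v = u
      · subst huv
        rw [hs.inv]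
        ring
      · have hadj : G.Adj u v := hρ.2.1 hu hv (Ne.symm huv)
        have hmem : u ∈ ρ.erase v := Finset.mem_erase.2 ⟨Ne.symm huv, hu⟩
        rw [hx.anti _ u hmem, ← hs.comm u v hadj, hx.anti _ u hmem]
        ring
    · have hρ' : ¬ (ρ ⊆ Y (s u w) ∧ G.IsClique (ρ : Set V) ∧ ρ.card = i + 1) := by
        rintro ⟨h1, h2, h3⟩
        have hCl : Pool.Agent.H85.Fold.Cl G ρ := fun a ha b hb hab => h2 ha hb hab
        exact hρ ⟨(hs.sub_iff hCl hu).1 h1, h2, h3⟩
      rw [if_neg hρ, if_neg hρ', neg_zero]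
  l2 ρ := by
    have h1 : Summable fun w => ‖∑ v ∈ ρ, (-1 : ℂ) ^
        ((ρ.erase v).filter fun u => ν u < ν v).card *
          (x (ρ.erase v) w - x (ρ.erase v) (s v w))‖ ^ 2 := by
      refine l2h_sum _ _ fun v _ => l2h_mul _ (l2h_sub (hx.l2 _) ?_)
      exact (show Function.Involutive (s v) from hs.inv v).toPerm.summable_iff
        (f := fun w => ‖x (ρ.erase v) w‖ ^ 2) |>.2 (hx.l2 _)
    refine h1.of_nonneg_of_le (fun w => sq_nonneg _) fun w => ?_
    unfold sl2hC
    split_ifs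
    · exact le_refl _
    · rw [norm_zero, zero_pow two_ne_zero]
      exact sq_nonneg _

private lemma sl2h_harm (G : SimpleGraph V) (Y : X → Finset V) (s : V → X → X)
    (hs : IsSpec G Y s) (ν : V → ℕ) (i : ℕ)
    (h : lp (fun _ : Finset V × X => ℂ) 2) (hT : h ∈ sl2hT G Y s ν i)
    (hperp : ∀ e ∈ sl2hB G Y s ν i, inner ℂ h e = 0) : IsHarmS G Y s ν i (fun σ w => h (σ, w)) := by
  classical
  obtain ⟨x, hx⟩ : ∃ x : Finset V → X → ℂ, x = fun σ w => h (σ, w) := ⟨_, rfl⟩
  have hxa : ∀ σ w, h (σ, w) = x σ w := fun σ w => by rw [hx]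
  rw [← hx]
  obtain ⟨hT1, hT2, hT3⟩ := hT
  have hxc : IsL2S G Y s i x :=
    { supp := fun σ w hne => by
        by_contra hcon
        apply hne
        rw [← hxa]
        exact hT1 σ w hcon
      anti := fun σ v hv w => by
        rw [← hxa, ← hxa]
        exact hT2 σ v hv w
      l2 := fun σ => by
        have := l2h_slice h σ
        simp only [hxa] at this
        exact this }
  have hcyc : bdry ν x = 0 := by
    funext τ w
    have := hT3 τ w
    simp only [hxa] at this
    exact this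
  obtain ⟨c, hc⟩ : ∃ c, c = sl2hC G Y s ν i x := ⟨_, rfl⟩
  have hcc : IsL2S G Y s (i + 1) c := by
    rw [hc]
    exact sl2hC_chain G Y s hs ν i hxc
  obtain ⟨dE, hdEa⟩ : ∃ dE : lp (fun _ : Finset V × X => ℂ) 2,
      ∀ σ w, dE (σ, w) = bdry ν c σ w :=
    ⟨⟨fun p => bdry ν c p.1 p.2, l2h_prod (bdry ν c) (sl2h_dbd_l2 ν hcc.l2)⟩, fun _ _ => rfl⟩
  have hdE : dE ∈ sl2hB G Y s ν i := ⟨c, hcc, hdEa⟩
  have hinner : inner ℂ h dE = 0 := hperp dE hdE
  rw [l2h_inner h dE] at hinner
  have key := adj_identity s hs.inv ν x c hxc.l2 hcc.l2 hcc.anti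
  have e1 : ∑ τ : Finset V, ∑' w, (starRingEnd ℂ) (x τ w) *
      (∑ v ∈ τᶜ, (-1 : ℂ) ^ (τ.filter fun u => ν u < ν v).card * c (insert v τ) w) = 0 := by
    rw [← hinner]
    refine Finset.sum_congr rfl fun τ _ => tsum_congr fun w => ?_
    rw [hdEa, hxa]
    rfl
  rw [e1] at key
  have e2 : ∀ ρ w, (starRingEnd ℂ)
        (∑ v ∈ ρ, (-1 : ℂ) ^ ((ρ.erase v).filter fun u => ν u < ν v).card *
          (x (ρ.erase v) w - x (ρ.erase v) (s v w))) * c ρ w = ((‖c ρ w‖ ^ 2 : ℝ) : ℂ) := by
    intro ρ w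
    have hsq : ∀ z : ℂ, (starRingEnd ℂ) z * z = ((‖z‖ ^ 2 : ℝ) : ℂ) := by
      intro z
      rw [mul_comm, Complex.mul_conj, Complex.normSq_eq_norm_sq]
    by_cases hρ : ρ ⊆ Y w ∧ G.IsClique (ρ : Set V) ∧ ρ.card = i + 1
    · have : c ρ w = ∑ v ∈ ρ, (-1 : ℂ) ^ ((ρ.erase v).filter fun u => ν u < ν v).card *
          (x (ρ.erase v) w - x (ρ.erase v) (s v w)) := by
        simp only [hc, sl2hC]
        rw [if_pos hρ]
      rw [← this]
      exact hsq _
    · have : c ρ w = 0 := by
        simp only [hc, sl2hC]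
        rw [if_neg hρ]
      rw [this]
      simp
  simp only [e2] at key
  have key2 : ∑ ρ : Finset V, ∑' w, ((‖c ρ w‖ ^ 2 : ℝ) : ℂ) = 0 := by
    have h2 : (1 / 2 : ℂ) ≠ 0 := by norm_num
    exact (mul_eq_zero.1 key.symm).resolve_left h2
  simp only [← Complex.ofReal_tsum, ← Complex.ofReal_sum] at key2
  have key3 : ∑ ρ : Finset V, ∑' w, ‖c ρ w‖ ^ 2 = 0 := by exact_mod_cast key2
  have hc0 : ∀ ρ w, c ρ w = 0 := by
    intro ρ w
    have h1 := (Finset.sum_eq_zero_iff_of_nonneg
      (fun ρ _ => tsum_nonneg fun w => sq_nonneg ‖c ρ w‖)).1 key3 ρ (mem_univ ρ)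
    have h2 := (hcc.l2 ρ).hasSum
    rw [h1] at h2
    have h3 := (hasSum_zero_iff_of_nonneg fun w => sq_nonneg ‖c ρ w‖).1 h2
    have h4 := congrFun h3 w
    simpa using h4
  exact
    { chain := hxc
      cyc := hcyc
      cocyc := fun ρ w h0 h1 h2 => by
        have h3 := hc0 ρ w
        simp only [hc, sl2hC] at h3
        rw [if_pos ⟨h0, h1, h2⟩] at h3
        exact h3 }

private lemma sl2h_closure (G : SimpleGraph V) (Y : X → Finset V) (s : V → X → X)
    (hs : IsSpec G Y s) (ν : V → ℕ)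
    (hν : Function.Injective ν) (i : ℕ)
    (h0 : ∀ x : Finset V → X → ℂ, IsHarmS G Y s ν i x → x = 0)
    (zE : lp (fun _ : Finset V × X => ℂ) 2) (hzT : zE ∈ sl2hT G Y s ν i) :
    zE ∈ (sl2hB G Y s ν i).topologicalClosure := by
  obtain ⟨B, hB⟩ : ∃ B, B = (sl2hB G Y s ν i).topologicalClosure := ⟨_, rfl⟩
  rw [← hB]
  have hcl : IsClosed (B : Set (lp (fun _ : Finset V × X => ℂ) 2)) := by
    rw [hB]
    exact (sl2hB G Y s ν i).isClosed_topologicalClosure
  have : CompleteSpace B := hcl.completeSpace_coe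
  have hBT : B ≤ sl2hT G Y s ν i := by
    rw [hB]
    exact Submodule.topologicalClosure_minimal _ (sl2hB_le G Y s ν hν i) (sl2hT_closed G Y s ν i)
  have hBB : sl2hB G Y s ν i ≤ B := by
    rw [hB]
    exact Submodule.le_topologicalClosure _
  obtain ⟨b, hb⟩ : ∃ b, b = B.starProjection zE := ⟨_, rfl⟩
  have hbB : b ∈ B := by
    rw [hb]
    exact Submodule.starProjection_apply_mem B zE
  have hperp : zE - b ∈ Bᗮ := by
    rw [hb]
    exact Submodule.sub_starProjection_mem_orthogonal zE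
  have hT : zE - b ∈ sl2hT G Y s ν i := (sl2hT G Y s ν i).sub_mem hzT (hBT hbB)
  have hharm := sl2h_harm G Y s hs ν i (zE - b) hT
    (fun e he => (Submodule.mem_orthogonal' B (zE - b)).1 hperp e (hBB he))
  have hx0 := h0 _ hharm
  have hh0 : zE - b = 0 := by
    ext p
    exact congrFun (congrFun hx0 p.1) p.2
  rw [sub_eq_zero] at hh0
  rw [hh0]
  exact hbB

end Hodge

/-- **Hodge decomposition.** -/
theorem hodgeS {V X : Type} [Fintype V] [DecidableEq V] (G : SimpleGraph V)
    (Y : X → Finset V) (s : V → X → X) (hs : IsSpec G Y s) (ν : V → ℕ)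
    (hν : Function.Injective ν) (i : ℕ)
    (h0 : ∀ x : Finset V → X → ℂ, IsHarmS G Y s ν i x → x = 0)
    (z : Finset V → X → ℂ) (hz : IsL2S G Y s i z) (hdz : bdry ν z = 0) (ε : ℝ) (hε : 0 < ε) :
    ∃ y : Finset V → X → ℂ, IsL2S G Y s (i + 1) y ∧
      ∑ σ, ∑' w, ‖z σ w - bdry ν y σ w‖ ^ 2 < ε := by
  obtain ⟨zE, hzE⟩ : ∃ zE : lp (fun _ : Finset V × X => ℂ) 2, ∀ σ w, zE (σ, w) = z σ w :=
    ⟨⟨fun p => z p.1 p.2, l2h_prod z hz.l2⟩, fun _ _ => rfl⟩
  have hzT : zE ∈ sl2hT G Y s ν i := by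
    refine ⟨fun σ w h => ?_, fun σ v hv w => ?_, fun τ w => ?_⟩
    · rw [hzE]
      by_contra hne
      exact h (hz.supp σ w hne)
    · rw [hzE, hzE]
      exact hz.anti σ v hv w
    · simp only [hzE]
      exact congrFun (congrFun hdz τ) w
  have hcl : zE ∈ closure (sl2hB G Y s ν i : Set (lp (fun _ : Finset V × X => ℂ) 2)) :=
    sl2h_closure G Y s hs ν hν i h0 zE hzT
  rw [Metric.mem_closure_iff] at hcl
  obtain ⟨e, ⟨y, hy, hey⟩, hdist⟩ := hcl (Real.sqrt ε) (Real.sqrt_pos.2 hε)
  refine ⟨y, hy, ?_⟩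
  rw [dist_eq_norm] at hdist
  have hn := l2h_norm (zE - e)
  have e3 : ∑ σ, ∑' w, ‖z σ w - bdry ν y σ w‖ ^ 2 = ∑ σ, ∑' w, ‖(zE - e) (σ, w)‖ ^ 2 := by
    refine Finset.sum_congr rfl fun σ _ => tsum_congr fun w => ?_
    have e4 : (zE - e) (σ, w) = zE (σ, w) - e (σ, w) := rfl
    rw [e4, hzE, hey]
  rw [e3, ← hn]
  calc ‖zE - e‖ ^ 2 < Real.sqrt ε ^ 2 := pow_lt_pow_left₀ hdist (norm_nonneg _) two_ne_zero
    _ = ε := Real.sq_sqrt hε.le

end Pool.Agent.H19.Cub

end

section

/-! # Project LG: Core -/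

set_option autoImplicit false
set_option linter.unusedSectionVars false

open Finset Filter Topology

namespace Pool.Agent.H19.LG

open Pool.Agent.H19.Cub Pool.Agent.H4.Singer Pool.Agent.H85.Fold

theorem nn_pr {V : Type} [DecidableEq V] [Fintype V] (G : SimpleGraph V) {Ω : Type} [Fintype Ω]
    (Y : Ω → Finset V) (P : Type) [Fintype P] (i : ℕ) :
    nn G (prY Y P) i = Fintype.card P * nn G Y i := by
  classical
  unfold nn
  rw [← Fintype.card_prod]
  refine Fintype.card_congr
    { toFun := fun q => (q.1.1.2, ⟨(q.1.1.1, q.1.2), q.2⟩)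
      invFun := fun q => ⟨((q.2.1.1, q.1), q.2.1.2), q.2.2⟩
      left_inv := fun q => rfl
      right_inv := fun q => rfl }

end Pool.Agent.H19.LG

end

section

/-!
# Project LG: MCmp

The Betti numbers over the complex numbers are at most those over an arbitrary field, characteristic two
included, when there are bits: the dimensions of the chains agree over all fields (`two_pow_cT`), and the cycles
are the kernel of an integer matrix.
-/

set_option autoImplicit false
set_option linter.unusedSectionVars false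

open Finset Filter Topology

namespace Pool.Agent.H19.LG

open Pool.Agent.H19.Cub Pool.Agent.H4.Singer Pool.Agent.H85.Fold Pool.Agent.H85.Fold2

private theorem lgMCmp_minor {m n K : Type} [Fintype m] [Fintype n] [Field K]
    (A : Matrix m n K) :
    ∃ (r : Fin A.rank → m) (c : Fin A.rank → n), (A.submatrix r c).det ≠ 0 := by
  classical
  have h1 : A.rank = Module.finrank K (Submodule.span K (Set.range A.row)) :=
    Matrix.rank_eq_finrank_span_row A
  obtain ⟨f, hf, -, hli⟩ := Submodule.exists_fun_fin_finrank_span_eq K (Set.range A.row)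
  choose r0 hr0 using hf
  have hli' : LinearIndependent K (fun i : Fin A.rank => A (r0 (Fin.cast h1 i))) := by
    have h2 : (fun i : Fin A.rank => A (r0 (Fin.cast h1 i))) = f ∘ (Fin.cast h1) := by
      funext i
      exact hr0 _
    rw [h2]
    exact hli.comp _ (Fin.cast_injective h1)
  set r : Fin A.rank → m := fun i => r0 (Fin.cast h1 i) with hr
  let B : Matrix (Fin A.rank) n K := A.submatrix r id
  have hB : B.rank = A.rank := by
    have := LinearIndependent.rank_matrix (M := B) hli'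
    simpa using this
  have h3 : B.rank = Module.finrank K (Submodule.span K (Set.range B.col)) :=
    Matrix.rank_eq_finrank_span_cols B
  obtain ⟨g, hg, -, hgli⟩ := Submodule.exists_fun_fin_finrank_span_eq K (Set.range B.col)
  choose c0 hc0 using hg
  have h4 : A.rank = Module.finrank K (Submodule.span K (Set.range B.col)) := by
    rw [← h3, hB]
  refine ⟨r, fun i => c0 (Fin.cast h4 i), ?_⟩
  have hli2 : LinearIndependent K (fun i : Fin A.rank => B.col (c0 (Fin.cast h4 i))) := by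
    have h2 : (fun i : Fin A.rank => B.col (c0 (Fin.cast h4 i))) = g ∘ (Fin.cast h4) := by
      funext i
      exact hc0 _
    rw [h2]
    exact hgli.comp _ (Fin.cast_injective h4)
  have h5 : IsUnit (A.submatrix r fun i => c0 (Fin.cast h4 i)) := by
    rw [← Matrix.linearIndependent_cols_iff_isUnit]
    exact hli2
  exact ((Matrix.isUnit_iff_isUnit_det _).1 h5).ne_zero

/-- ranks over the complex numbers and over an arbitrary field -/
private theorem lgMCmp_rank {m n : Type} [Fintype m] [Fintype n] (A : Matrix m n ℤ) (F : Type)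
    [Field F] : (A.map (Int.cast : ℤ → F)).rank ≤ (A.map (Int.cast : ℤ → ℂ)).rank := by
  classical
  obtain ⟨r, c, hdet⟩ := lgMCmp_minor (A.map (Int.cast : ℤ → F))
  generalize (A.map (Int.cast : ℤ → F)).rank = k at r c hdet ⊢
  have h1 : (((A.submatrix r c).det : ℤ) : F) ≠ 0 := by
    have : ((A.map (Int.cast : ℤ → F)).submatrix r c) =
        (Int.castRingHom F).mapMatrix (A.submatrix r c) := by
      ext i j
      simp
    rw [this, ← RingHom.map_det] at hdet
    simpa using hdet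
  have h2 : (A.submatrix r c).det ≠ 0 := by
    intro h
    rw [h] at h1
    simp at h1
  have h3 : ((A.map (Int.cast : ℤ → ℂ)).submatrix r c).det ≠ 0 := by
    have : ((A.map (Int.cast : ℤ → ℂ)).submatrix r c) =
        (Int.castRingHom ℂ).mapMatrix (A.submatrix r c) := by
      ext i j
      simp
    rw [this, ← RingHom.map_det]
    simpa using h2
  have h4 : LinearIndependent ℂ ((A.map (Int.cast : ℤ → ℂ)).submatrix r c).row := by
    rw [Matrix.linearIndependent_rows_iff_isUnit, Matrix.isUnit_iff_isUnit_det]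
    exact isUnit_iff_ne_zero.2 h3
  have h5 : LinearIndependent ℂ (fun i => (A.map (Int.cast : ℤ → ℂ)).row (r i)) := by
    refine LinearIndependent.of_comp (LinearMap.funLeft ℂ ℂ c) ?_
    exact h4
  rw [Matrix.rank_eq_finrank_span_row]
  have h6 : Submodule.span ℂ (Set.range fun i => (A.map (Int.cast : ℤ → ℂ)).row (r i)) ≤
      Submodule.span ℂ (Set.range (A.map (Int.cast : ℤ → ℂ)).row) := by
    refine Submodule.span_mono ?_
    rintro _ ⟨i, rfl⟩
    exact ⟨r i, rfl⟩
  have h7 := Submodule.finrank_mono h6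
  rw [finrank_span_eq_card h5] at h7
  simpa using h7

/-- the cycles over the complex numbers and over an arbitrary field -/
private theorem lgMCmp_zT {V : Type} [DecidableEq V] [Fintype V] (G : SimpleGraph V)
    {X : Type} [Fintype X] (Y : X → Finset V) (s : V → X → X) (ν : V → ℕ) (i : ℕ) (K : Type)
    [Field K] : zT ℂ G Y s ν i ≤ zT K G Y s ν i := by
  obtain ⟨C, R, -, H⟩ := exists_matsS G (fun _ => (1 : Matrix Unit Unit ℤ)) ν i
  obtain ⟨m, n, _, _, A₀, A₁, -, -, hA⟩ := H X Y s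
  have hmc : ∀ (K : Type) [Field K], mc K (fun _ : V => (1 : Matrix Unit Unit ℤ)) =
      fun _ => (1 : Matrix Unit Unit K) := by
    intro K _
    funext v
    exact Matrix.map_one _ Int.cast_zero Int.cast_one
  have a1 := (hA ℂ).2
  have a2 := (hA K).2
  rw [hmc] at a1 a2
  have c1 := lgMCmp_rank A₁ K
  unfold zT
  omega

theorem bT_complex_le_field {V : Type} [DecidableEq V] [Fintype V] (G : SimpleGraph V)
    {X : Type} [Fintype X] (Y : X → Finset V) (s : V → X → X) (hs : IsSpec G Y s)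
    (b : X → V → Bool) (hb : ∀ x u v, b (s u x) v = if u = v then !(b x v) else b x v)
    (ν : V → ℕ) (hν : Function.Injective ν) (i : ℕ) (K : Type) [Field K] :
    bT ℂ G Y s ν i ≤ bT K G Y s ν i := by
  have h1 := bS_add ℂ G Y (fun _ => (1 : Matrix Unit Unit ℂ)) s hs ν hν i
  have h2 := bS_add K G Y (fun _ => (1 : Matrix Unit Unit K)) s hs ν hν i
  have h3 := lgMCmp_zT G Y s ν i K
  have h4 := lgMCmp_zT G Y s ν (i + 1) K
  have h5 : cT ℂ G Y s (i + 1) = cT K G Y s (i + 1) := by
    have e1 := two_pow_cT ℂ G Y s hs b hb (i + 1)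
    have e2 := two_pow_cT K G Y s hs b hb (i + 1)
    exact Nat.eq_of_mul_eq_mul_left (Nat.two_pow_pos (i + 1)) (e1.trans e2.symm)
  unfold zT at h3 h4
  unfold cT at h5
  unfold bT
  omega

end Pool.Agent.H19.LG

end

section

/-!
# Project S10, block M: the unstable relation with restricted modules on a manifold

As `Pool.Agent.S9.MCl`, but all coefficient modules are modules over a group `Φ`, restricted along `θ : Γ →* Φ`.
-/

set_option autoImplicit false
set_option linter.unusedSectionVars false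

open Finset Pointwise

namespace Pool.Agent.S10

open Pool.Agent.H37.TM Pool.Agent.S9

/-- **Effaceability for tuples, restricted modules**: every `Γ`-equivariant cocycle of degree `k + 1` (on the lists with
`k + 2` elements of the set `C`) with coefficients in the restriction of a triangular `Φ`-module becomes a coboundary in
a larger triangular `Φ`-module -/
def EffR (K : Type) [Field K] {Γ Φ : Type} [Group Γ] [Group Φ] (θ : Γ →* Φ) (C : Type)
    [MulAction Γ C] (Λ : Subgroup Kˣ) : Prop :=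
  ∀ (k : ℕ) (E : Type) [AddCommGroup E] [Module K E] [FiniteDimensional K E]
    (ρ : Φ →* Module.End K E), Tri Λ ρ → ∀ x : List C → E, (∀ L, x L ≠ 0 → L.length = k + 2) →
    (∀ (g : Γ) L, x (L.map (g • ·)) = ρ (θ g) (x L)) → (∀ L, dT x L = 0) →
    ∃ (E' : Type) (_ : AddCommGroup E') (_ : Module K E') (_ : FiniteDimensional K E')
      (ρ' : Φ →* Module.End K E') (ι : E →ₗ[K] E') (y : List C → E'),
      Tri Λ ρ' ∧ Function.Injective ι ∧ (∀ g e, ι (ρ g e) = ρ' g (ι e)) ∧
      (∀ L, y L ≠ 0 → L.length = k + 1) ∧ (∀ (g : Γ) L, y (L.map (g • ·)) = ρ' (θ g) (y L)) ∧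
      ∀ L, L.length = k + 2 → dT y L = ι (x L)

end Pool.Agent.S10

end
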