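import Pool.Agent.H71.TSG.M13
import Pool.Agent.H71.TSG.M23
import Pool.Agent.H71.TSG.M30
import Pool.Agent.H71.TSG.M34
import Pool.Agent.H71.TSG.M37
import Pool.Agent.H71.TSG.M39
import Pool.Agent.H71.TSG.M40
import Pool.Agent.H71.TSG.M41

/-! The parts of this file: H4.FC.HarmInfL, H73.LK.Fin, H4.FC.HarmFinL, H77.SX.Count, H77.SX.Final, S10.Lvl. -/

section

/-!
# Project FC: harmonic `ℓ²`-chains are in the kernel of the matrix

Modelled on `Pool.Agent.H4.Singer.HarmInf` (replace `HM` by `HML`, `gen_inv'` by `simple_inv`; `IsHarmL.cocyc`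
is the vanishing of the column of the coboundary by `HML_cobd` with `π = MonoidHom.id`).
-/

set_option autoImplicit false

open Finset

namespace Pool.Agent.H4.FC

open Pool.Agent.H4.Atiyah Pool.Agent.H4.Singer

variable {V : Type} [Fintype V] [DecidableEq V]

/-- the matrix `HML` with rows and columns numbered by `Fin` -/
noncomputable def HAL (M : CoxeterMatrix V) (ν : V → ℕ) (i : ℕ) :
    Matrix (Fin (Fintype.card (RIL M i))) (Fin (Fintype.card (CIL M i)))
      (MonoidAlgebra ℤ M.Group) :=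
  (HML M ν i).submatrix (Fintype.equivFin (RIL M i)).symm (Fintype.equivFin (CIL M i)).symm

private lemma coeff_toC {W : Type} [Group W] (a : MonoidAlgebra ℤ W) (h : W) :
    (MonoidAlgebra.mapRingHom W (Int.castRingHom ℂ) a).coeff h = ((a.coeff h : ℤ) : ℂ) := by
  simp [MonoidAlgebra.mapRingHom]

private lemma sum_toC {W : Type} [Group W] (a : MonoidAlgebra ℤ W) (φ : W → ℂ) (g : W) :
    ∑ h ∈ (MonoidAlgebra.mapRingHom W (Int.castRingHom ℂ) a).coeff.support,
      φ (g * h⁻¹) * (MonoidAlgebra.mapRingHom W (Int.castRingHom ℂ) a).coeff h =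
      gact (MonoidHom.id W) a φ g := by
  unfold gact
  have hs : (MonoidAlgebra.mapRingHom W (Int.castRingHom ℂ) a).coeff.support =
      a.coeff.support := by
    ext h
    rw [Finsupp.mem_support_iff, Finsupp.mem_support_iff, coeff_toC]
    simp
  rw [hs]
  refine Finset.sum_congr rfl fun h _ => ?_
  rw [coeff_toC]
  rfl

theorem harm_infL (M : CoxeterMatrix V) (ν : V → ℕ) (i : ℕ)
    (h0 : ∀ x ∈ l2ker (toC (HAL M ν i)), x = 0) :
    ∀ x : Finset V → M.Group → ℂ, IsHarmL M ν i x → x = 0 := by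
  classical
  intro x hx
  have hsupp : ∀ σ : Finset V, ¬ (Sph M σ ∧ σ.card = i) → x σ = 0 := by
    intro σ hσ
    funext w
    by_contra hne
    exact hσ (hx.chain.supp σ w hne)
  -- the function on `Fin k × W`
  let row : Fin (Fintype.card (RIL M i)) → RIL M i := (Fintype.equivFin (RIL M i)).symm
  let F : Fin (Fintype.card (RIL M i)) × M.Group → ℂ := fun p => x (row p.1).1 p.2
  have hF : Memℓp F 2 := by
    refine memℓp_gen ?_
    have h1 : Summable fun p : Fin (Fintype.card (RIL M i)) × M.Group => ‖F p‖ ^ 2 := by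
      rw [summable_prod_of_nonneg (fun p => by positivity)]
      refine ⟨fun j => hx.chain.l2 (row j).1, ?_⟩
      exact Summable.of_finite
    refine h1.congr fun p => ?_
    norm_num
  let X : lp (fun _ : Fin (Fintype.card (RIL M i)) × M.Group => ℂ) 2 := ⟨F, hF⟩
  have hX : X ∈ l2ker (toC (HAL M ν i)) := by
    intro c g
    have h1 : ∀ j : Fin (Fintype.card (RIL M i)),
        ∑ h ∈ ((toC (HAL M ν i)) j c).coeff.support, X (j, g * h⁻¹) *
          ((toC (HAL M ν i)) j c).coeff h =
        gact (MonoidHom.id M.Group)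
          (HML M ν i (row j) ((Fintype.equivFin (CIL M i)).symm c)) (x (row j).1) g := by
      intro j
      exact sum_toC (HML M ν i (row j) ((Fintype.equivFin (CIL M i)).symm c)) (x (row j).1) g
    rw [Finset.sum_congr rfl fun j _ => h1 j]
    have h2 : ∑ j : Fin (Fintype.card (RIL M i)), gact (MonoidHom.id M.Group)
          (HML M ν i (row j) ((Fintype.equivFin (CIL M i)).symm c)) (x (row j).1) g =
        ∑ σ : RIL M i, gact (MonoidHom.id M.Group)
          (HML M ν i σ ((Fintype.equivFin (CIL M i)).symm c)) (x σ.1) g :=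
      Equiv.sum_comp (Fintype.equivFin (RIL M i)).symm (fun σ : RIL M i =>
        gact (MonoidHom.id M.Group) (HML M ν i σ ((Fintype.equivFin (CIL M i)).symm c)) (x σ.1) g)
    rw [h2]
    generalize (Fintype.equivFin (CIL M i)).symm c = cc
    rcases cc with ⟨σ', v⟩ | τ | ρ
    · rw [HML_anti M ν i (MonoidHom.id M.Group) x σ' v g]
      split_ifs with hv
      · rw [MonoidHom.id_apply, simple_inv, hx.chain.anti σ'.1 v hv g]
        ring
      · rfl
    · rw [HML_bd M ν i (MonoidHom.id M.Group) x hsupp τ g]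
      exact congrFun (congrFun hx.cyc τ) g
    · by_cases hρ : Sph M ρ ∧ ρ.card = i + 1
      · rw [HML_cobd M ν i (MonoidHom.id M.Group) x hsupp ρ hρ.1 hρ.2 g]
        exact hx.cocyc ρ g hρ.1 hρ.2
      · exact HML_cobd_zero M ν i (MonoidHom.id M.Group) x ρ hρ g
  have hX0 := h0 X hX
  funext σ w
  by_cases hσ : Sph M σ ∧ σ.card = i
  · have h4 : X (Fintype.equivFin (RIL M i) ⟨σ, hσ⟩, w) = 0 := by rw [hX0]; rfl
    have h5 : X (Fintype.equivFin (RIL M i) ⟨σ, hσ⟩, w) = x σ w := by
      change x (row (Fintype.equivFin (RIL M i) ⟨σ, hσ⟩)).1 w = x σ w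
      simp only [row, Equiv.symm_apply_apply]
    rw [h5] at h4
    simpa using h4
  · rw [hsupp σ hσ]
    rfl

end Pool.Agent.H4.FC

end

section

/-!
# The reduced `ℓ²`-homology of finite Coxeter groups

`l2_clique`: the reduced `ℓ²`-homology of a finite Coxeter group vanishes in the positive degrees.
A harmonic chain `c` is a coboundary `D u` by the exactness of the columns (`Pool.Agent.H19.PL.colL`), and
`⟨c, c⟩ = ⟨u, ∂ c⟩ = 0`.
-/

set_option autoImplicit false
set_option linter.unusedSectionVars false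

open Finset

namespace Pool.Agent.H73.LK

open Pool.Agent.H85.Fold Pool.Agent.H4.FC Pool.Agent.H19.PL Pool.Agent.H19.PD Pool.Agent.H4.Singer

variable {V : Type} [DecidableEq V] [Fintype V] {M : CoxeterMatrix V}

/-- square summable functions on the group -/
private abbrev LM (M : CoxeterMatrix V) : Type := lp (fun _ : M.Group => ℂ) 2

private theorem fi_mem (g : M.Group) (f : LM M) :
    Memℓp (E := fun _ : M.Group => ℂ) (fun w => f (w * g)) 2 := by
  rw [l2h_mem_iff]
  exact ((Equiv.mulRight g).summable_iff (f := fun w => ‖f w‖ ^ 2)).2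
    ((l2h_mem_iff _).1 (lp.memℓp f))

/-- right translations -/
private noncomputable def RT (M : CoxeterMatrix V) : M.Group →* Module.End ℝ (LM M) where
  toFun g :=
    { toFun := fun f => ⟨fun w => f (w * g), fi_mem g f⟩
      map_add' := fun f f' => by
        ext w
        rfl
      map_smul' := fun r f => by
        ext w
        rfl }
  map_one' := by
    ext f w
    show f (w * 1) = f w
    rw [mul_one]
  map_mul' g h := by
    ext f w
    show f (w * (g * h)) = f (w * g * h)
    rw [mul_assoc]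

private theorem RT_apply (g : M.Group) (f : LM M) (w : M.Group) : (RT M g f) w = f (w * g) := rfl

private theorem fi_symU : SymU (RT M) (innerₗ (LM M)) := by
  intro v x y
  simp only [innerₗ_apply_apply]
  rw [lp.inner_eq_tsum, lp.inner_eq_tsum]
  rw [← (Equiv.mulRight (M.simple v)).tsum_eq]
  refine tsum_congr fun w => ?_
  rw [RT_apply, RT_apply, Equiv.coe_mulRight, mul_assoc, simple_sq, mul_one]

private theorem lm_sum {ι : Type} (s : Finset ι) (f : ι → LM M) (w : M.Group) :
    (∑ v ∈ s, f v) w = ∑ v ∈ s, (f v) w := by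
  rw [← l2hEv_apply w, map_sum]
  rfl

/-- the boundary of chains with values in the functions -/
private theorem fi_bd (ν : V → ℕ) (c : Finset V → LM M) (τ : Finset V) (w : M.Group) :
    (bd ν c τ) w = ∑ v ∈ τᶜ, (-1 : ℂ) ^ (τ.filter fun u => ν u < ν v).card *
      (c (insert v τ)) w := by
  have h1 : bd ν c τ = ∑ v ∈ τᶜ, sgn ν v τ • c (insert v τ) := rfl
  rw [h1, lm_sum]
  refine sum_congr rfl fun v _ => ?_
  have h3 : (sgn ν v τ • c (insert v τ)) w = sgn ν v τ • (c (insert v τ)) w := rfl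
  rw [h3]
  unfold sgn
  rw [Complex.real_smul]
  push_cast
  rfl

/-- the antisymmetrization -/
private theorem fi_PS (ρ : Finset V) (f : LM M) (w : M.Group) :
    (PS (RT M) ρ f) w = (1 / ((parF M ρ).card : ℂ)) *
      altS M (MonoidHom.id M.Group) ρ (fun w => f w) w := by
  rw [PS_apply]
  have h1 : ((1 / ((parF M ρ).card : ℝ)) • ∑ u ∈ parF M ρ, er M u • RT M u f : LM M) w =
      (1 / ((parF M ρ).card : ℝ)) • ((∑ u ∈ parF M ρ, er M u • RT M u f : LM M) w) := rfl
  rw [h1, lm_sum, Complex.real_smul]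
  unfold altS
  have h3 : ∑ u ∈ parF M ρ, (er M u • RT M u f : LM M) w =
      ∑ u ∈ parF M ρ, (eps M u : ℂ) * f (w * (MonoidHom.id M.Group) u) := by
    refine sum_congr rfl fun u _ => ?_
    have h2 : (er M u • RT M u f : LM M) w = er M u • (f (w * u)) := rfl
    rw [h2, Complex.real_smul]
    unfold er
    push_cast
    rfl
  rw [h3]
  push_cast
  rfl

/-- **Finite Coxeter groups** have no reduced `ℓ²`-homology in the positive degrees. -/
theorem l2_clique {V : Type} [Fintype V] [DecidableEq V] {M : CoxeterMatrix V}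
    (h : Pool.Agent.H4.FC.Sph M univ) {i : ℕ} (hi : 1 ≤ i) :
    Pool.Agent.H4.FC.L2HomologyZero M i := by
  classical
  obtain ⟨l, rfl⟩ : ∃ l, i = l + 1 := ⟨i - 1, by omega⟩
  intro ν hν z hz hdz ε hε
  refine l2_hodgeL M ν hν (l + 1) (fun x0 hx0 => ?_) z hz hdz ε hε
  -- the chain with values in the functions
  obtain ⟨c, hcv⟩ : ∃ c : Finset V → LM M, ∀ σ w, (c σ) w = x0 σ w :=
    ⟨fun σ => ⟨x0 σ, (l2h_mem_iff _).2 (hx0.chain.l2 σ)⟩, fun _ _ => rfl⟩
  have hA : ∀ ρ, AntiS (RT M) ρ (c ρ) := by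
    intro σ v hv
    ext w
    rw [RT_apply, hcv, hx0.chain.anti σ v hv w, ← hcv]
    rfl
  have hs : ∀ ρ, c ρ ≠ 0 → ρ ⊆ univ ∧ ρ.card = l + 1 := by
    intro σ hσ
    obtain ⟨w, hw⟩ : ∃ w, (c σ) w ≠ 0 := by
      by_contra hcon
      push Not at hcon
      exact hσ (by
        ext w
        exact hcon w)
    rw [hcv] at hw
    exact ⟨subset_univ _, (hx0.chain.supp σ w hw).2⟩
  have hbd : ∀ κ, bd ν c κ = 0 := by
    intro τ
    ext w
    rw [fi_bd]
    have h1 := congrFun (congrFun hx0.cyc τ) w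
    unfold Pool.Agent.H4.FC.dbd at h1
    simp only [hcv]
    exact h1
  have hD : ∀ ρ ⊆ (univ : Finset V), ∑ v ∈ ρ, sgn ν v ρ • PS (RT M) ρ (c (ρ.erase v)) = 0 := by
    intro ρ _
    by_cases h2 : ρ.card = l + 1 + 1
    · ext w
      rw [lm_sum]
      have h4 := hx0.cocyc ρ w (h.mono (subset_univ ρ)) h2
      have h5 : ∀ v ∈ ρ, (sgn ν v ρ • PS (RT M) ρ (c (ρ.erase v)) : LM M) w =
          (1 / ((parF M ρ).card : ℂ)) * ((-1) ^ ((ρ.erase v).filter fun u => ν u < ν v).card *
            altS M (MonoidHom.id M.Group) ρ (x0 (ρ.erase v)) w) := by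
        intro v hv
        have h6 : (sgn ν v ρ • PS (RT M) ρ (c (ρ.erase v)) : LM M) w =
            sgn ν v ρ • ((PS (RT M) ρ (c (ρ.erase v)) : LM M) w) := rfl
        have h7 : (fun w => (c (ρ.erase v)) w) = x0 (ρ.erase v) := funext fun w => hcv _ w
        rw [h6, fi_PS, h7, ← sgn_erase_self]
        unfold sgn
        rw [Complex.real_smul]
        push_cast
        ring
      rw [sum_congr rfl h5, ← mul_sum, h4, mul_zero]
      rfl
    · refine sum_eq_zero fun v hv => ?_
      have h3 : c (ρ.erase v) = 0 := by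
        by_contra hne
        have h4 := (hs _ hne).2
        rw [card_erase_of_mem hv] at h4
        have h5 : 0 < ρ.card := card_pos.2 ⟨v, hv⟩
        omega
      rw [h3, map_zero, smul_zero]
  obtain ⟨u, huA, -, hu⟩ := colL (U := RT M) hν l univ h c hA hs hD
  -- the norm
  have hsum : ∑ ρ : Finset V, innerₗ (LM M) (c ρ) (c ρ) = 0 := by
    have h1 : ∀ ρ ∈ (univ : Finset (Finset V)), innerₗ (LM M) (c ρ) (c ρ) =
        ∑ v ∈ ρ, sgn ν v ρ * innerₗ (LM M) (c ρ) (u (ρ.erase v)) := by
      intro ρ _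
      have h2 : innerₗ (LM M) (c ρ) (c ρ) =
          innerₗ (LM M) (c ρ) (∑ v ∈ ρ, sgn ν v ρ • PS (RT M) ρ (u (ρ.erase v))) := by
        rw [hu ρ (subset_univ ρ)]
      rw [h2, map_sum]
      refine sum_congr rfl fun v _ => ?_
      rw [map_smul, smul_eq_mul, pair_PS fi_symU (h.mono (subset_univ ρ)) (hA ρ)]
    have h3 : ∀ κ ∈ (univ : Finset (Finset V)), innerₗ (LM M) (bd ν c κ) (u κ) =
        ∑ v ∈ κᶜ, sgn ν v κ * innerₗ (LM M) (c (insert v κ)) (u κ) := by
      intro κ _
      have h4 : bd ν c κ = ∑ v ∈ κᶜ, sgn ν v κ • c (insert v κ) := rfl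
      rw [h4, map_sum, LinearMap.sum_apply]
      refine sum_congr rfl fun v _ => ?_
      rw [map_smul, LinearMap.smul_apply, smul_eq_mul]
    have h5 : ∑ ρ : Finset V, innerₗ (LM M) (c ρ) (c ρ) =
        ∑ κ : Finset V, innerₗ (LM M) (bd ν c κ) (u κ) := by
      rw [sum_congr rfl h1, sum_congr rfl h3, sum_sigma', sum_sigma']
      refine (sum_bij' (fun z _ => ⟨insert z.2 z.1, z.2⟩) (fun z _ => ⟨z.1.erase z.2, z.2⟩)
        ?_ ?_ ?_ ?_ ?_).symm
      · rintro ⟨ρ, v⟩ h
        simp only [mem_sigma, mem_univ, true_and, mem_insert_self]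
      · rintro ⟨ρ, v⟩ h
        simp only [mem_sigma, mem_univ, true_and, mem_compl, mem_erase, ne_eq, not_true_eq_false,
          false_and, not_false_eq_true]
      · rintro ⟨ρ, v⟩ h
        simp only [mem_sigma, mem_univ, true_and, mem_compl] at h
        simp only [erase_insert h]
      · rintro ⟨ρ, v⟩ h
        simp only [mem_sigma, mem_univ, true_and] at h
        simp only [insert_erase h]
      · rintro ⟨ρ, v⟩ h
        simp only [mem_sigma, mem_univ, true_and, mem_compl] at h
        simp only [erase_insert h, sgn_insert_self]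
    rw [h5]
    refine sum_eq_zero fun κ _ => ?_
    rw [hbd κ, map_zero, LinearMap.zero_apply]
  -- the chain is zero
  have hc0 : ∀ ρ, c ρ = 0 := by
    intro ρ
    have h1 : ∀ ρ ∈ (univ : Finset (Finset V)), 0 ≤ innerₗ (LM M) (c ρ) (c ρ) := fun ρ _ =>
      @real_inner_self_nonneg (LM M) _ _ (c ρ)
    have h2 := (sum_eq_zero_iff_of_nonneg h1).1 hsum ρ (mem_univ _)
    exact inner_self_eq_zero.1 h2
  funext ρ w
  rw [← hcv, hc0]
  rfl

end Pool.Agent.H73.LK

end

section

/-!
# Project FC: the kernel of the matrix over a finite quotient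

Modelled on `Pool.Agent.H4.Singer.HarmFin` (copy the private lemmas `harmFin_coeff`, `harmFinExt…`,
`harmFin_key`); the extension by zero now has values in `Finset V → P → Unit → ℂ`, and
`harm_finrank_leL` replaces `harm_finrank_le`.
-/

set_option autoImplicit false

open Finset

namespace Pool.Agent.H4.FC

open Pool.Agent.H4.Atiyah Pool.Agent.H4.Singer Pool.Agent.H85.Fold Pool.Agent.H85.Fold2

variable {V : Type} [Fintype V] [DecidableEq V]

private theorem harmFin_coeff {W P : Type} [Group W] [Group P] [Fintype P] (π : W →* P)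
    (a : MonoidAlgebra ℤ W) (φ : P → ℂ) (h : P) :
    ∑ g, φ g * (MonoidAlgebra.mapDomainRingHom ℂ π
      (MonoidAlgebra.mapRingHom W (Int.castRingHom ℂ) a)).coeff (g⁻¹ * h) = gact π a φ h := by
  classical
  induction a using MonoidAlgebra.induction_linear with
  | zero => simp [gact_zero]
  | add a b ha hb =>
    rw [gact_add, ← ha, ← hb, ← Finset.sum_add_distrib]
    refine Finset.sum_congr rfl fun g _ => ?_
    rw [map_add, map_add, MonoidAlgebra.coeff_add, Finsupp.add_apply, mul_add]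
  | single g r =>
    rw [gact_single, MonoidAlgebra.mapRingHom_single, MonoidAlgebra.mapDomainRingHom_apply,
      MonoidAlgebra.mapDomain_single, Finset.sum_eq_single (h * (π g)⁻¹)]
    · rw [MonoidAlgebra.coeff_single, mul_inv_rev, inv_inv, inv_mul_cancel_right,
        Finsupp.single_eq_same]
      simp
    · intro g' _ hg'
      rw [MonoidAlgebra.coeff_single, Finsupp.single_eq_of_ne, mul_zero]
      intro he
      apply hg'
      rw [← he]
      group
    · intro hh
      exact absurd (Finset.mem_univ _) hh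

/-- the extension by zero of a vector indexed by the spherical sets -/
private noncomputable def harmFinExt (M : CoxeterMatrix V) (i : ℕ) (P : Type) :
    (Fin (Fintype.card (RIL M i)) × P → ℂ) →ₗ[ℂ] (Finset V → P → Unit → ℂ) := by
  classical
  exact
  { toFun := fun x σ p _ => if h : Sph M σ ∧ σ.card = i then
      x (Fintype.equivFin (RIL M i) ⟨σ, h⟩, p) else 0
    map_add' := by
      intro x y
      funext σ p u
      simp only [Pi.add_apply]
      split_ifs <;> simp
    map_smul' := by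
      intro c x
      funext σ p u
      simp only [Pi.smul_apply, RingHom.id_apply]
      split_ifs <;> simp }

omit [DecidableEq V] in
private theorem harmFinExt_of (M : CoxeterMatrix V) (i : ℕ) (P : Type)
    (x : Fin (Fintype.card (RIL M i)) × P → ℂ) (σ : RIL M i) (p : P) :
    harmFinExt M i P x σ.1 p () = x (Fintype.equivFin (RIL M i) σ, p) := by
  classical
  show (if h : Sph M σ.1 ∧ σ.1.card = i then
      x (Fintype.equivFin (RIL M i) ⟨σ.1, h⟩, p) else 0) = _
  rw [dif_pos σ.2]

omit [DecidableEq V] in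
private theorem harmFinExt_not (M : CoxeterMatrix V) (i : ℕ) (P : Type)
    (x : Fin (Fintype.card (RIL M i)) × P → ℂ) (σ : Finset V)
    (hσ : ¬ (Sph M σ ∧ σ.card = i)) : (fun p => harmFinExt M i P x σ p ()) = 0 := by
  classical
  funext p
  show (if h : Sph M σ ∧ σ.card = i then
      x (Fintype.equivFin (RIL M i) ⟨σ, h⟩, p) else 0) = _
  rw [dif_neg hσ]
  rfl

private theorem harmFinExt_injective (M : CoxeterMatrix V) (i : ℕ) (P : Type) :
    Function.Injective (harmFinExt M i P) := by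
  intro x y hxy
  funext ⟨j, p⟩
  have h1 := congrFun (congrFun (congrFun hxy ((Fintype.equivFin (RIL M i)).symm j).1) p) ()
  rwa [harmFinExt_of, harmFinExt_of, Equiv.apply_symm_apply] at h1

private theorem harmFin_key (M : CoxeterMatrix V) (ν : V → ℕ) (i : ℕ) (P : Type) [Group P]
    [Fintype P] (π : M.Group →* P) (x : Fin (Fintype.card (RIL M i)) × P → ℂ) (c : CIL M i)
    (h : P) :
    Matrix.vecMul x (op ((toC (HAL M ν i)).map (MonoidAlgebra.mapDomainRingHom ℂ π)))
      (Fintype.equivFin (CIL M i) c, h) =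
      ∑ σ : RIL M i, gact π (HML M ν i σ c) (fun p => harmFinExt M i P x σ.1 p ()) h := by
  rw [Matrix.vecMul, dotProduct, Fintype.sum_prod_type]
  rw [← Equiv.sum_comp (Fintype.equivFin (RIL M i))]
  refine Finset.sum_congr rfl fun σ _ => ?_
  rw [← harmFin_coeff]
  refine Finset.sum_congr rfl fun g _ => ?_
  rw [harmFinExt_of]
  congr 1
  simp only [op, Matrix.of_apply, Matrix.map_apply, toC, HAL, Matrix.submatrix_apply,
    Equiv.symm_apply_apply]

theorem harm_finL (M : CoxeterMatrix V) (G : SimpleGraph V) (hS : ∀ σ, Sph M σ ↔ Cl G σ)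
    (ν : V → ℕ) (hν : Function.Injective ν) (i : ℕ) (P : Type) [Group P] [Fintype P]
    (π : M.Group →* P) :
    ((Fintype.card (RIL M i) : ℕ) * Fintype.card P : ℝ) -
      (op ((toC (HAL M ν i)).map (MonoidAlgebra.mapDomainRingHom ℂ π))).rank ≤
        bP ℂ G univ (fun v => π (M.simple v)) ν i := by
  classical
  set A := op ((toC (HAL M ν i)).map (MonoidAlgebra.mapDomainRingHom ℂ π)) with hA
  have hker : ∀ x ∈ LinearMap.ker (Matrix.vecMulLinear A), ∀ (c : CIL M i) (h : P),
      ∑ σ : RIL M i, gact π (HML M ν i σ c) (fun p => harmFinExt M i P x σ.1 p ()) h = 0 := by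
    intro x hx c h
    have h1 : Matrix.vecMul x A = 0 := hx
    rw [← harmFin_key, ← hA, h1]
    rfl
  have hH : ∀ f ∈ (LinearMap.ker (Matrix.vecMulLinear A)).map (harmFinExt M i P),
      f ∈ YZ ℂ G univ (fun _ => (1 : Matrix Unit Unit ℂ))
        (fun v x => x * π (M.simple v)) ν i ∧ ∀ ρ x, Sph M ρ → ρ.card = i + 1 →
      ∑ v ∈ ρ, (-1 : ℂ) ^ ((ρ.erase v).filter fun u => ν u < ν v).card *
        altS M π ρ (fun x => f (ρ.erase v) x ()) x = 0 := by
    rintro f ⟨x, hx, rfl⟩
    have hk := hker x hx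
    have h0 := harmFinExt_not M i P x
    have h0' : ∀ σ : Finset V, ¬ (Sph M σ ∧ σ.card = i) → harmFinExt M i P x σ = 0 := by
      intro σ hσ
      funext p u
      exact congrFun (h0 σ hσ) p
    refine ⟨⟨⟨?_, ?_⟩, ?_⟩, ?_⟩
    · intro σ ω hne
      by_contra hcon
      have hσ : ¬ (Sph M σ ∧ σ.card = i) := fun h =>
        hcon ⟨Finset.subset_univ _, (hS σ).1 h.1, h.2⟩
      rw [h0' σ hσ] at hne
      exact hne rfl
    · intro σ v hv ω
      by_cases hσ : Sph M σ ∧ σ.card = i
      · have h1 := hk (Sum.inl (⟨σ, hσ⟩, v)) (ω * π (M.simple v))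
        rw [HML_anti M ν i π (fun τ p => harmFinExt M i P x τ p ()), if_pos hv] at h1
        have h2 : ω * π (M.simple v) * (π (M.simple v))⁻¹ = ω := by group
        rw [h2] at h1
        funext u
        rw [Matrix.one_mulVec]
        exact eq_neg_of_add_eq_zero_left h1
      · rw [h0' σ hσ]
        simp
    · show tdl ℂ ν (harmFinExt M i P x) = 0
      funext τ h u
      have h1 := hk (Sum.inr (Sum.inl τ)) h
      rw [HML_bd M ν i π (fun τ p => harmFinExt M i P x τ p ()) h0] at h1
      show (∑ v ∈ τᶜ, (sg ν v τ : ℂ) • harmFinExt M i P x (insert v τ) h) u = 0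
      rw [Finset.sum_apply, ← h1]
      refine Finset.sum_congr rfl fun v _ => ?_
      rw [Pi.smul_apply, smul_eq_mul]
      unfold sg
      push_cast
      rfl
    · intro ρ ω hρ hρi
      have h1 := hk (Sum.inr (Sum.inr ρ)) ω
      rw [HML_cobd M ν i π (fun τ p => harmFinExt M i P x τ p ()) h0 ρ hρ hρi] at h1
      exact h1
  have hle := harm_finrank_leL M G hS π ν hν i _ hH
  have hfin : Module.finrank ℂ
      ((LinearMap.ker (Matrix.vecMulLinear A)).map (harmFinExt M i P)) =
      Module.finrank ℂ (LinearMap.ker (Matrix.vecMulLinear A)) :=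
    (Submodule.equivMapOfInjective _ (harmFinExt_injective M i P) _).finrank_eq.symm
  have h1 := LinearMap.finrank_range_add_finrank_ker (Matrix.vecMulLinear A)
  rw [Module.finrank_fintype_fun_eq_card, Fintype.card_prod, Fintype.card_fin] at h1
  have h3 : Module.finrank ℂ (LinearMap.range (Matrix.vecMulLinear A)) = A.rank := by
    have h4 : Matrix.vecMulLinear A = (Matrix.transpose A).mulVecLin := by
      apply LinearMap.ext
      intro x
      rw [Matrix.vecMulLinear_apply, Matrix.mulVecLin_apply, Matrix.mulVec_transpose]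
    rw [h4, ← Matrix.rank_transpose A, Matrix.rank]
  rw [h3] at h1
  rw [hfin] at hle
  have h5 : ((Fintype.card (RIL M i) : ℕ) * Fintype.card P : ℝ) =
      (A.rank : ℝ) + Module.finrank ℂ (LinearMap.ker (Matrix.vecMulLinear A)) := by
    exact_mod_cast h1.symm
  rw [h5]
  have h6 : (Module.finrank ℂ (LinearMap.ker (Matrix.vecMulLinear A)) : ℝ) ≤
      bP ℂ G univ (fun v => π (M.simple v)) ν i := by
    exact_mod_cast hle
  linarith

end Pool.Agent.H4.FC

end

section

/-!
# Singer without colours for Coxeter groups of FC type: the dimension count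
-/

set_option autoImplicit false
set_option linter.unusedSectionVars false

open Finset

namespace Pool.Agent.H77.SX

open Pool.Agent.H77.SW Pool.Agent.H85.VK

/-- Linear maps with trivial common kernel. -/
private theorem count_inj {K Z E : Type} [Field K] [AddCommGroup Z] [Module K Z] [Module.Finite K Z]
    [AddCommGroup E] [Module K E] [Module.Finite K E] {ι : Type} [DecidableEq ι] (F : Finset ι)
    (f : ι → Z →ₗ[K] E) : Module.finrank K Z ≤
      Module.finrank K (⨅ i ∈ F, LinearMap.ker (f i) : Submodule K Z) +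
        ∑ i ∈ F, (Module.finrank K Z - Module.finrank K (LinearMap.ker (f i))) := by
  induction F using Finset.induction_on with
  | empty =>
    have h0 : (⨅ i ∈ (∅ : Finset ι), LinearMap.ker (f i)) = (⊤ : Submodule K Z) := by simp
    rw [h0, finrank_top]
    simp
  | insert i F hi ih =>
    rw [sum_insert hi, Finset.iInf_insert]
    have h1 := Submodule.finrank_sup_add_finrank_inf_eq (LinearMap.ker (f i))
      (⨅ j ∈ F, LinearMap.ker (f j))
    have h2 : Module.finrank K
        ((LinearMap.ker (f i)) ⊔ (⨅ j ∈ F, LinearMap.ker (f j)) : Submodule K Z) ≤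
        Module.finrank K Z := Submodule.finrank_le _
    omega

variable {V : Type} [DecidableEq V] [Fintype V] {K : Type} [Field K] [CharP K 2]

/-- the sum over the facets -/
private theorem count_facets (G : SimpleGraph V) (n : ℕ) {P : Type} [Group P] [Fintype P]
    (g : V → P) (c : ℕ) (h : ∀ s : Finset V, G.IsClique (s : Set V) → s.card = n →
      dG K G n g ≤ Module.finrank K (ZG K G n g s) + c) : dG K G n g ≤ 2 ^ Fintype.card V * c := by
  classical
  let Z := Zs K G n (rG K g)
  let f : Finset V → Z →ₗ[K] (P → K) := fun σ =>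
    (LinearMap.proj (R := K) (φ := fun _ : Finset V => P → K) σ).comp Z.subtype
  have h1 := count_inj (K := K) (univ : Finset (Finset V)) f
  have h2 : (⨅ i ∈ (univ : Finset (Finset V)), LinearMap.ker (f i) : Submodule K Z) = ⊥ := by
    rw [eq_bot_iff]
    intro z hz
    rw [Submodule.mem_bot]
    apply Subtype.ext
    funext σ
    have h3 := (Submodule.mem_iInf _).1 ((Submodule.mem_iInf _).1 hz σ) (mem_univ σ)
    exact h3
  rw [h2, finrank_bot, zero_add] at h1
  refine h1.trans ?_
  have h4 : ∀ σ ∈ (univ : Finset (Finset V)),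
      Module.finrank K Z - Module.finrank K (LinearMap.ker (f σ)) ≤ c := by
    intro σ _
    have h5 : Module.finrank K (LinearMap.ker (f σ)) = Module.finrank K (ZG K G n g σ) := by
      have e : (LinearMap.ker (f σ)).map Z.subtype = ZG K G n g σ := by
        ext z
        constructor
        · rintro ⟨w, hw, rfl⟩
          exact ⟨w.2, hw⟩
        · rintro ⟨hz1, hz2⟩
          exact ⟨⟨z, hz1⟩, hz2, rfl⟩
      rw [← e]
      exact (Submodule.equivMapOfInjective Z.subtype Z.injective_subtype _).finrank_eq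
    by_cases hσ : G.IsClique (σ : Set V) ∧ σ.card = n
    · have h6 := h σ hσ.1 hσ.2
      have h7 : Module.finrank K Z = dG K G n g := rfl
      omega
    · have h8 : ZG K G n g σ = Zs K G n (rG K g) := by
        refine le_antisymm inf_le_left fun z hz => ⟨hz, ?_⟩
        by_contra hne
        exact hσ (hz.1 σ hne)
      rw [h5, h8]
      have h7 : Module.finrank K Z = Module.finrank K (Zs K G n (rG K g)) := rfl
      omega
  refine (sum_le_card_nsmul _ _ _ h4).trans ?_
  rw [smul_eq_mul, Finset.card_univ, Fintype.card_finset]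

theorem FQ.sq {M : CoxeterMatrix V} {Ps : Type} [Group Ps] {πs : M.Group →* Ps} {P : Type}
    [Group P] (D : FQ M πs P) (v : V) : D.g v * D.g v = 1 := by
  have h1 := M.toCoxeterSystem.simple_mul_simple_self v
  rw [M.toCoxeterSystem_simple] at h1
  show D.π (M.simple v) * D.π (M.simple v) = 1
  rw [← map_mul, h1, map_one]

/-- **The dimension count.** -/
theorem small (X : GenSeq K) (M : CoxeterMatrix V) (k : ℕ)
    (hdim : ∀ σ : Finset V, (Pool.Agent.H4.FC.gr M).IsClique (σ : Set V) → σ.card ≤ k + 1)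
    (hvk : VanKampenZero (Pool.Agent.H4.FC.gr M) k) {Ps : Type} [Group Ps] (πs : M.Group →* Ps)
    (e : Ps → ZMod 2) (he : ∀ p q, e (p * q) = e p + e q) (heg : ∀ v, e (πs (M.simple v)) = 1)
    (hne : ∃ (P : Type) (_ : Group P) (_ : Fintype P) (D : FQ M πs P),
      LinkGood (Pool.Agent.H4.FC.gr M) D.g) (ε : ℝ) (hε : 0 < ε) :
    ∃ (P : Type) (_ : Group P) (_ : Fintype P) (D : FQ M πs P),
      (dG K (Pool.Agent.H4.FC.gr M) (k + 1) D.g : ℝ) ≤ ε * Fintype.card P := by
  classical
  by_contra hcon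
  push Not at hcon
  set G := Pool.Agent.H4.FC.gr M with hG
  let S : Set ℝ := {x | ∃ (P : Type) (_ : Group P) (_ : Fintype P) (D : FQ M πs P),
    LinkGood G D.g ∧ x = dG K G (k + 1) D.g / Fintype.card P}
  have hne' : S.Nonempty := by
    obtain ⟨P, grp, fin, D, hD⟩ := hne
    exact ⟨_, P, grp, fin, D, hD, rfl⟩
  have hcard : ∀ (P : Type) [Group P] [Fintype P], (0 : ℝ) < Fintype.card P := by
    intro P _ _
    exact_mod_cast Fintype.card_pos
  have hlow : ∀ x ∈ S, ε ≤ x := by
    rintro x ⟨P, grp, fin, D, _, rfl⟩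
    have h1 := hcon P grp fin D
    rw [le_div_iff₀ (hcard P)]
    exact h1.le
  have hbdd : BddBelow S := ⟨ε, hlow⟩
  set z := sInf S with hz
  have hzε : ε ≤ z := le_csInf hne' hlow
  have hz0 : 0 < z := hε.trans_le hzε
  set N : ℝ := 2 ^ Fintype.card V with hN
  have hN0 : 0 < N := by positivity
  obtain ⟨x, ⟨P, grp, fin, D, hgood, rfl⟩, hx⟩ :=
    exists_lt_of_csInf_lt hne' (show sInf S < z + z / (N * N) by
      have : 0 < z / (N * N) := by positivity
      linarith)
  set m : ℝ := (Fintype.card P : ℝ) with hm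
  have hm0 : 0 < m := hcard P
  set d : ℝ := (dG K G (k + 1) D.g : ℝ) with hd
  have h1 : d < (z + z / (N * N)) * m := by
    rwa [div_lt_iff₀ hm0] at hx
  have h2 : z * m ≤ d := by
    have h3 : z ≤ d / m := csInf_le hbdd ⟨P, grp, fin, D, hgood, rfl⟩
    rwa [le_div_iff₀ hm0] at h3
  -- the facets
  have hfac : ∀ s : Finset V, G.IsClique (s : Set V) → s.card = k + 1 →
      d ≤ Module.finrank K (ZG K G (k + 1) D.g s) + N * (d - z * m) := by
    intro s hs hsc
    have hmax : ∀ u, ∃ v ∈ s, ¬ G.Adj v u := by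
      intro u
      by_contra hc
      push Not at hc
      have hu : u ∉ s := fun h => (hc u h).ne rfl
      have hcl : G.IsClique ((insert u s : Finset V) : Set V) := by
        intro a ha b hb hab
        rw [mem_coe, mem_insert] at ha hb
        rcases ha with rfl | ha <;> rcases hb with rfl | hb
        · exact absurd rfl hab
        · exact (hc b hb).symm
        · exact hc a ha
        · exact hs ha hb hab
      have := hdim _ hcl
      rw [card_insert_of_notMem hu] at this
      omega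
    obtain ⟨I, _, _, ι, τ, hι, hgen⟩ := exists_gen X G D.g s (hgood s hmax)
    obtain ⟨P', grp', fin', D', j, hgood', hj, hjs, hj2⟩ := exists_group M πs D hgood s ι hι
    obtain ⟨R, hR, hRr⟩ := exists_R (K := K) D.g D.sq s ι τ
    have hjg : ∀ v, (ePr V P I).comp j (D'.g v) = D.g v := by
      intro v
      rw [MonoidHom.comp_apply, hj]
      rfl
    have h3 := lower (K := K) (A := Finset V) G (k + 1) D'.g D.g ((ePr V P I).comp j) hjg hjs hj2
      (rX D.g s fun v p => τ (ι v p) + τ (ι v (p * D.g v)))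
      (fun v f f' p hff a => by
        show f (a, p * D.g v) + _ = f' (a, p * D.g v) + _
        rw [hff a, hff (a.erase v)]) (fun x => R (j x)) (fun x => hR (j x))
      (fun x v f => by
        show rX D.g s (fun v p => τ (ι v p) + τ (ι v (p * D.g v))) v (R (j (x * D'.g v)) f) =
          R (j x) f
        rw [map_mul, hj]
        exact hRr (j x) v f)
    have h4 := upper_rX G (k + 1) D.g s (fun v p => τ (ι v p) + τ (ι v (p * D.g v))) s
      (key G k hvk D.g D.sq (fun p => e (D.κ p))
        (fun p v => by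
          rw [map_mul, he]
          show e (D.κ p) + e (D.κ (D.π (M.simple v))) = _
          rw [D.κπ, heg]) s hs hsc (fun v p => τ (ι v p))
        (fun v u hvu p => by rw [hι v u hvu p]) hgen)
    have h5 : z ≤ dG K G (k + 1) D'.g / Fintype.card P' :=
      csInf_le hbdd ⟨P', grp', fin', D', hgood', rfl⟩
    rw [le_div_iff₀ (hcard P')] at h5
    have h6 : (Fintype.card (Finset V × P) : ℝ) * dG K G (k + 1) D'.g ≤ Fintype.card P' *
        Module.finrank K (Zs K G (k + 1)
          (rX D.g s fun v p => τ (ι v p) + τ (ι v (p * D.g v)))) := by exact_mod_cast h3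
    have h7 : (Fintype.card (Finset V × P) : ℝ) = N * m := by
      rw [Fintype.card_prod, Fintype.card_finset]
      push_cast
      rfl
    rw [h7] at h6
    have h8 : N * m * z ≤ Module.finrank K (Zs K G (k + 1)
          (rX D.g s fun v p => τ (ι v p) + τ (ι v (p * D.g v)))) := by
      have h9 : (Fintype.card P' : ℝ) * (N * m * z) ≤ Fintype.card P' *
          Module.finrank K (Zs K G (k + 1)
            (rX D.g s fun v p => τ (ι v p) + τ (ι v (p * D.g v)))) := by
        refine le_trans ?_ h6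
        have h10 := mul_le_mul_of_nonneg_left h5 (mul_nonneg hN0.le hm0.le)
        linarith
      exact le_of_mul_le_mul_left h9 (hcard P')
    have h9 : (Module.finrank K (Zs K G (k + 1)
        (rX D.g s fun v p => τ (ι v p) + τ (ι v (p * D.g v)))) : ℝ) ≤
        Module.finrank K (ZG K G (k + 1) D.g s) + (N - 1) * d := by
      have h10 : ((2 ^ Fintype.card V - 1 : ℕ) : ℝ) = N - 1 := by
        rw [Nat.cast_sub Nat.one_le_two_pow]
        push_cast
        rfl
      rw [← h10, hd]
      exact_mod_cast h4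
    linarith
  have hc0 : 0 ≤ N * (d - z * m) := mul_nonneg hN0.le (by linarith)
  have h3 := count_facets (K := K) G (k + 1) D.g ⌊N * (d - z * m)⌋₊ (by
    intro s hs hsc
    have h4 := hfac s hs hsc
    have h5 : ((dG K G (k + 1) D.g : ℤ) : ℝ) -
        ((Module.finrank K (ZG K G (k + 1) D.g s) : ℤ) : ℝ) ≤ N * (d - z * m) := by
      push_cast
      linarith
    have h6 : (dG K G (k + 1) D.g : ℤ) - Module.finrank K (ZG K G (k + 1) D.g s) ≤
        ⌊N * (d - z * m)⌋ := by
      rw [Int.le_floor]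
      push_cast at h5 ⊢
      exact h5
    have h7 : (⌊N * (d - z * m)⌋₊ : ℤ) = ⌊N * (d - z * m)⌋ := Int.natCast_floor_eq_floor hc0
    omega)
  have h4 : d ≤ N * ⌊N * (d - z * m)⌋₊ := by
    have h5 : ((dG K G (k + 1) D.g : ℕ) : ℝ) ≤
        ((2 ^ Fintype.card V * ⌊N * (d - z * m)⌋₊ : ℕ) : ℝ) := Nat.cast_le.2 h3
    rw [Nat.cast_mul, Nat.cast_pow, Nat.cast_ofNat] at h5
    exact h5
  have h5 : (⌊N * (d - z * m)⌋₊ : ℝ) ≤ N * (d - z * m) := Nat.floor_le hc0
  have h6 : d ≤ N * (N * (d - z * m)) := h4.trans (mul_le_mul_of_nonneg_left h5 hN0.le)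
  have h7 : d - z * m < z / (N * N) * m := by linarith
  have h8 : N * (N * (d - z * m)) < N * (N * (z / (N * N) * m)) :=
    mul_lt_mul_of_pos_left (mul_lt_mul_of_pos_left h7 hN0) hN0
  have h9 : N * (N * (z / (N * N) * m)) = z * m := by
    field_simp
  linarith

end Pool.Agent.H77.SX

end

section

/-!
# Singer without colours for Coxeter groups of FC type: the main theorem
-/

set_option autoImplicit false
set_option linter.unusedSectionVars false

open Finset Filter Topology

namespace Pool.Agent.H77.SX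

open Pool.Agent.H77.SW Pool.Agent.H4.FC Pool.Agent.H4.Atiyah Pool.Agent.H85.VK Pool.Agent.H85.Fold2

variable {V : Type} [DecidableEq V] [Fintype V]

/-- **The main theorem for Coxeter groups of FC type.** -/
theorem fc_all (M : CoxeterMatrix V) (hM : Pool.Agent.H4.FD.IsFC M) (k : ℕ)
    (hdim : ∀ σ : Finset V, (gr M).IsClique (σ : Set V) → σ.card ≤ k + 1)
    (hvk : VanKampenZero (gr M) k) (i : ℕ) (hi : k < i) :
    Pool.Agent.H4.FC.L2HomologyZero M i := by
  classical
  intro ν hν z hz hdz ε hε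
  have hS : ∀ σ, Sph M σ ↔ Pool.Agent.H85.Fold.Cl (gr M) σ := fun σ => ⟨sph_cl M σ, hM σ⟩
  refine l2_hodgeL M ν hν i ?_ z hz hdz ε hε
  obtain ⟨K, _, _, ⟨X⟩⟩ := exists_genSeq
  obtain ⟨Ps, _, _, πs, e, P₁, grp₁, fin₁, D, he, heg, hsep, hgood⟩ := exists_tower M
  have h2 := fun j : ℕ => small X M k hdim hvk πs e he heg
    ⟨P₁ 0, grp₁ 0, fin₁ 0, D 0, hgood 0⟩ (1 / (j + 1 : ℝ)) (by positivity)
  choose P₂ grp₂ fin₂ E hE using h2
  let Pr : ∀ j, M.Group →* P₁ j × P₂ j := fun j => (D j).π.prod (E j).π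
  let P : ℕ → Type := fun j => (Pr j).range
  let fin : ∀ j, Fintype (P j) := fun j => Fintype.ofFinite _
  let π : ∀ j, M.Group →* P j := fun j => (Pr j).rangeRestrict
  have hsep' : ∀ w : M.Group, w ≠ 1 → ∀ᶠ j in atTop, π j w ≠ 1 := by
    intro w hw
    filter_upwards [hsep w hw] with j hj h
    exact hj (congrArg (fun x : P j => x.1.1) h)
  let q : ∀ j, P j →* P₂ j := fun j => (MonoidHom.snd (P₁ j) (P₂ j)).comp (Pr j).range.subtype
  have hq : ∀ j w, q j (π j w) = (E j).π w := fun j w => rfl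
  have hqs : ∀ j, Function.Surjective (q j) := by
    intro j y
    obtain ⟨w, hw⟩ := (E j).surj y
    exact ⟨π j w, (hq j w).trans hw⟩
  have hq2 : ∀ j, IsPGroup 2 (q j).ker := by
    rintro j ⟨x, hx⟩
    have hx2 : x.1.2 = 1 := hx
    have hx1 : x.1.1 ∈ (D j).κ.ker := by
      obtain ⟨w, hw⟩ := x.2
      have h3 : (D j).π w = x.1.1 := congrArg Prod.fst hw
      have h4 : (E j).π w = x.1.2 := congrArg Prod.snd hw
      rw [MonoidHom.mem_ker, ← h3, (D j).κπ, ← (E j).κπ, h4, hx2, map_one]
    obtain ⟨n, hn⟩ := (D j).two ⟨x.1.1, hx1⟩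
    refine ⟨n, ?_⟩
    apply Subtype.ext
    apply Subtype.ext
    apply Prod.ext
    · exact congrArg Subtype.val hn
    · show x.1.2 ^ 2 ^ n = 1
      rw [hx2, one_pow]
  refine harm_infL M ν i (Pool.Agent.H4.Singer.l2ker_trivial π hsep' (HAL M ν i) ?_)
  intro η hη
  have hbd : ∀ j, (bP ℂ (gr M) univ (fun v => π j (M.simple v)) ν i : ℝ) ≤
      1 / (j + 1 : ℝ) * Fintype.card (P j) := by
    intro j
    have hsq : ∀ v, (E j).g v * (E j).g v = 1 := (E j).sq
    have hsq' : ∀ v, π j (M.simple v) * π j (M.simple v) = 1 := by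
      intro v
      have h1 := M.toCoxeterSystem.simple_mul_simple_self v
      rw [M.toCoxeterSystem_simple] at h1
      rw [← map_mul, h1, map_one]
    have h3 := bP_le (K := K) (gr M) k hdim (fun v => π j (M.simple v)) hsq'
      (fun x => e ((D j).κ x.1.1))
      (fun p q => by
        show e ((D j).κ (p.1.1 * q.1.1)) = _
        rw [map_mul, he])
      (fun v => by
        show e ((D j).κ ((D j).π (M.simple v))) = 1
        rw [(D j).κπ, heg]) ν hν i hi
    have h4 := mono (K := K) (gr M) (k + 1) (fun v => π j (M.simple v)) (E j).g (q j)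
      (fun v => hq j (M.simple v)) hsq (hqs j) (hq2 j)
    have h6 := hE j
    have hc2 : (0 : ℝ) < Fintype.card (P₂ j) := by exact_mod_cast Fintype.card_pos
    have h7 : (Fintype.card (P₂ j) * bP ℂ (gr M) univ (fun v => π j (M.simple v)) ν i : ℝ) ≤
        Fintype.card (P j) * dG K (gr M) (k + 1) (E j).g := by
      exact_mod_cast (Nat.mul_le_mul_left _ h3).trans h4
    have h8 : (Fintype.card (P j) * dG K (gr M) (k + 1) (E j).g : ℝ) ≤
        Fintype.card (P j) * (1 / (j + 1 : ℝ) * Fintype.card (P₂ j)) :=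
      mul_le_mul_of_nonneg_left h6 (Nat.cast_nonneg _)
    have h9 : (Fintype.card (P₂ j) : ℝ) * bP ℂ (gr M) univ (fun v => π j (M.simple v)) ν i ≤
        Fintype.card (P₂ j) * (1 / (j + 1 : ℝ) * Fintype.card (P j)) := by
      refine (h7.trans h8).trans (le_of_eq ?_)
      ring
    exact le_of_mul_le_mul_left h9 hc2
  have hlim : Tendsto (fun j : ℕ => 1 / ((j : ℝ) + 1)) atTop (𝓝 0) :=
    tendsto_one_div_add_atTop_nhds_zero_nat
  filter_upwards [hlim.eventually (eventually_le_nhds hη)] with j hj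
  refine (harm_finL M (gr M) hS ν hν i (P j) (π j)).trans ((hbd j).trans ?_)
  exact mul_le_mul_of_nonneg_right hj (Nat.cast_nonneg _)

end Pool.Agent.H77.SX

end

section

/-!
# Project S10, block M: the level complex

`QL`: the cube complex with the vertices `W ⧸ Φ`, where `Φ` is a normal subgroup which acts trivially on the vertices of
`Q`; it is a covering of `Q` (`isCovL`). The universal cover of `QL` is a component of the active subcomplex, in all
positions (`isEmbL`, `exists_pos`).
-/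

set_option autoImplicit false
set_option linter.unusedSectionVars false

open Finset

namespace Pool.Agent.S10

open Pool.Agent.H19.Cub Pool.Agent.S9 Pool.Agent.H37.TM

section Level

variable {V X : Type} [DecidableEq V] [Fintype V] {Q : CubeComplex V X} {W : Type} [Group W]
  {R : Rac Q.graph W} {Φ : Subgroup W} [Φ.Normal] (hk : Φ ≤ raKer Q R) (x₀ : X)

/-- the vertex of `Q` below a vertex of the level -/
noncomputable def lv : W ⧸ Φ → X :=
  Quotient.lift (fun w => ra Q R x₀ w) fun a b hab => by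
    have h1 : a⁻¹ * b ∈ Φ := QuotientGroup.leftRel_apply.1 hab
    have h2 : ra Q R x₀ b = ra Q R (ra Q R x₀ a) (a⁻¹ * b) := by
      rw [← ra_mul, mul_inv_cancel_left]
    show ra Q R x₀ a = ra Q R x₀ b
    rw [h2, (mem_raKer Q R).1 (hk h1)]

theorem lv_mk (w : W) : lv hk x₀ (QuotientGroup.mk w : W ⧸ Φ) = ra Q R x₀ w := rfl

theorem lv_one : lv hk x₀ (1 : W ⧸ Φ) = x₀ := ra_one Q R x₀

theorem lv_mul_s (p : W ⧸ Φ) (v : V) :
    lv hk x₀ (p * (QuotientGroup.mk (R.s v) : W ⧸ Φ)) = Q.cs v (lv hk x₀ p) := by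
  induction p using QuotientGroup.induction_on with
  | H w => exact ra_mul_s Q R x₀ w v

/-- **the level complex** -/
noncomputable def QL : CubeComplex V (W ⧸ Φ) where
  graph := Q.graph
  lab p := Q.lab (lv hk x₀ p)
  nb v p := p * (QuotientGroup.mk (R.s v) : W ⧸ Φ)
  lab_nb v p hv := by
    rw [lv_mul_s]
    exact (lab_cs_self Q v _).2 hv
  nb_nb v p _ := by
    rw [mul_assoc, ← QuotientGroup.mk_mul, R.sq, QuotientGroup.mk_one, mul_one]
  lab_adj u v p huv hu _ := by
    rw [lv_mul_s]
    exact (lab_cs_adj Q huv.symm _).2 hu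
  nb_comm u v p huv _ _ := by
    rw [mul_assoc, mul_assoc, ← QuotientGroup.mk_mul, ← QuotientGroup.mk_mul, R.comm u v huv]

theorem QL_lab (p : W ⧸ Φ) : (QL hk x₀).lab p = Q.lab (lv hk x₀ p) := rfl

theorem QL_nb (v : V) (p : W ⧸ Φ) :
    (QL hk x₀).nb v p = p * (QuotientGroup.mk (R.s v) : W ⧸ Φ) := rfl

theorem isCovL : IsCov (QL hk x₀) Q id (lv hk x₀) where
  lab _ v hv := ⟨v, hv, rfl⟩
  lab' _ _ hv := hv
  inj _ _ _ _ _ h := h
  nb p v hv := by
    rw [QL_nb, lv_mul_s]
    exact Q.cs_of_mem hv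
  adj _ _ h := h
  adj' _ _ _ _ _ h := h

theorem dimLeL {d : ℕ} (hd : DimLe Q d) : DimLe (QL hk x₀) d := fun p σ h1 h2 =>
  hd (lv hk x₀ p) σ h1 h2

/-- the bits of the level, in the position `u` -/
noncomputable def bitL (R : Rac Q.graph W) (Φ : Subgroup W) (hb : ∀ g ∈ Φ, ∀ v, R.b g v = 0) (u : W) :
    W ⧸ Φ → V → ZMod 2 :=
  Quotient.lift (fun w v => R.b (u * w) v) fun a b hab => by
    have h1 : a⁻¹ * b ∈ Φ := QuotientGroup.leftRel_apply.1 hab
    funext v
    show R.b (u * a) v = R.b (u * b) v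
    have h2 : u * b = u * a * (a⁻¹ * b) := by group
    rw [h2, R.b_mul (u * a), hb _ h1 v, add_zero]

theorem bitL_mk (hb : ∀ g ∈ Φ, ∀ v, R.b g v = 0) (u w : W) (v : V) :
    bitL R Φ hb u (QuotientGroup.mk w : W ⧸ Φ) v = R.b (u * w) v := rfl

theorem isBitL (hb : ∀ g ∈ Φ, ∀ v, R.b g v = 0) (u : W) : IsBit (QL hk x₀) (bitL R Φ hb u) := by
  intro v p _ t
  induction p using QuotientGroup.induction_on with
  | H w =>
    show R.b (u * (w * R.s v)) t = R.b (u * w) t + _
    rw [← mul_assoc, R.b_mul, R.b_s]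
    by_cases h : t = v
    · rw [if_pos h, if_pos h.symm]
    · rw [if_neg h, if_neg fun h' => h h'.symm]

/-- the end point of a path in the level -/
theorem projL (c : (QL hk x₀).Cover 1) :
    (QL hk x₀).proj 1 c = (QuotientGroup.mk (em (QL hk x₀) R 1 c) : W ⧸ Φ) := by
  refine cover_ind (QL hk x₀) 1
    (fun c => (QL hk x₀).proj 1 c = (QuotientGroup.mk (em (QL hk x₀) R 1 c) : W ⧸ Φ)) ?_
    (fun c v hv ih => ?_) c
  · rw [em_bp, proj_bp]
    rfl
  · rw [em_nbc (QL hk x₀) R 1 c hv, proj_nbc (QL hk x₀) 1 c hv, ih]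
    rfl

theorem labL (c : (QL hk x₀).Cover 1) :
    (QL hk x₀).lab ((QL hk x₀).proj 1 c) = Q.lab (ra Q R x₀ (em (QL hk x₀) R 1 c)) := by
  rw [projL, QL_lab, lv_mk]

/-- the universal cover of the level is the same component -/
theorem exists_emL (c : Q.Cover x₀) : ∃ c' : (QL hk x₀).Cover 1,
    em (QL hk x₀) R 1 c' = em Q R x₀ c := by
  refine cover_ind Q x₀ (fun c => ∃ c' : (QL hk x₀).Cover 1,
    em (QL hk x₀) R 1 c' = em Q R x₀ c) ⟨bp (QL hk x₀) 1, ?_⟩ (fun c v hv ih => ?_) c
  · rw [em_bp, em_bp]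
  · obtain ⟨c', hc'⟩ := ih
    have hv' : v ∈ (QL hk x₀).lab ((QL hk x₀).proj 1 c') := by
      rw [labL, hc', ra_em]
      exact hv
    exact ⟨(QL hk x₀).nbc 1 v c', by rw [em_nbc (QL hk x₀) R 1 c' hv', em_nbc Q R x₀ c hv, hc']⟩

end Level

section DeckL

variable {V X : Type} [DecidableEq V] [Fintype V] {Q : CubeComplex V X} {W : Type} [Group W]
  {R : Rac Q.graph W} {Φ : Subgroup W} [Φ.Normal] (hk : Φ ≤ raKer Q R) (x₀ : X)

private theorem deck_cov {V X V' X' Γ : Type} [DecidableEq V] [DecidableEq V'] [Group Γ]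
    {Q' : CubeComplex V' X'} {Q : CubeComplex V X} {ψ : V' → V} {φ : X' → X} (h : IsCov Q' Q ψ φ)
    (y : X') (x : X) (hx : φ y = x) [MulAction Γ (Q.Cover x)] (hΓ : IsDeck Γ Q x) :
    ∃ (Γ' : Subgroup Γ) (_ : MulAction Γ' (Q'.Cover y)), IsDeck Γ' Q' y := by
  subst hx
  exact ⟨deckSub h y Γ, deckAct h y, isDeck_cov h y hΓ⟩

/-- the deck group of the level is a subgroup of the deck group of `Q` -/
theorem exists_deckL {Γ : Type} [Group Γ] [MulAction Γ (Q.Cover x₀)] (hΓ : IsDeck Γ Q x₀) :
    ∃ (Γ' : Subgroup Γ) (_ : MulAction Γ' ((QL hk x₀).Cover 1)), IsDeck Γ' (QL hk x₀) 1 :=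
  deck_cov (isCovL hk x₀) 1 x₀ (lv_one hk x₀) hΓ

variable {Γ : Type} [Group Γ] [MulAction Γ ((QL hk x₀).Cover 1)]

theorem jjL_mem (hΓ : IsDeck Γ (QL hk x₀) 1) (g : Γ) : jj (Q := QL hk x₀) R hΓ g ∈ Φ := by
  have h1 := projL hk x₀ (g • bp (QL hk x₀) 1)
  rw [hΓ.proj, proj_bp] at h1
  have h2 : (QuotientGroup.mk (jj (Q := QL hk x₀) R hΓ g) : W ⧸ Φ) = 1 := h1.symm
  exact (QuotientGroup.eq_one_iff _).1 h2

/-- the deck group of the level as a subgroup of `Φ`, in the position `u` -/
noncomputable def thL (hΓ : IsDeck Γ (QL hk x₀) 1) (u : W) : Γ →* Φ where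
  toFun g := ⟨u * jj (Q := QL hk x₀) R hΓ g * u⁻¹,
    (inferInstance : Φ.Normal).conj_mem _ (jjL_mem hk x₀ hΓ g) u⟩
  map_one' := Subtype.ext (by simp)
  map_mul' a b := Subtype.ext (by
    show u * jj (Q := QL hk x₀) R hΓ (a * b) * u⁻¹ = u * jj (Q := QL hk x₀) R hΓ a * u⁻¹ *
      (u * jj (Q := QL hk x₀) R hΓ b * u⁻¹)
    rw [map_mul]
    group)

theorem thL_apply (hΓ : IsDeck Γ (QL hk x₀) 1) (u : W) (g : Γ) :
    (thL hk x₀ hΓ u g : W) = u * jj (Q := QL hk x₀) R hΓ g * u⁻¹ := rfl

/-- the universal cover of the level in the position `u` -/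
noncomputable def jL (R : Rac Q.graph W) (hk : Φ ≤ raKer Q R) (x₀ : X) (u : W)
    (c : (QL hk x₀).Cover 1) : W := u * em (QL hk x₀) R 1 c

/-- **the universal cover of the level is a component of the active subcomplex**, in the position `u` -/
theorem isEmbL (hΓ : IsDeck Γ (QL hk x₀) 1) {u : W} (hu : ra Q R x₀ u = x₀) :
    IsEmb (QL hk x₀) R Φ (actv Q R x₀) 1 (thL hk x₀ hΓ u) (jL R hk x₀ u) where
  nb c v hv := by
    unfold jL
    rw [em_nbc (QL hk x₀) R 1 c hv]
    exact (mul_assoc _ _ _).symm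
  act c v := by
    unfold jL actv
    rw [ra_mul, hu, labL]
  smul g c := by
    unfold jL
    rw [em_smul (Q := QL hk x₀) (R := R) hΓ g c, thL_apply]
    group
  sep φ c c' h := by
    unfold jL at h
    have hm : u⁻¹ * (φ : W) * u ∈ Φ := by
      have h1 := (inferInstance : Φ.Normal).conj_mem φ φ.2 u⁻¹
      rwa [inv_inv] at h1
    have he : em (QL hk x₀) R 1 c' = u⁻¹ * (φ : W) * u * em (QL hk x₀) R 1 c := by
      have h2 : em (QL hk x₀) R 1 c' = u⁻¹ * (u * em (QL hk x₀) R 1 c') := by group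
      rw [h2, ← h]
      group
    have hp : (QL hk x₀).proj 1 c = (QL hk x₀).proj 1 c' := by
      rw [projL, projL, he, QuotientGroup.mk_mul, (QuotientGroup.eq_one_iff _).2 hm, one_mul]
    obtain ⟨g, hg⟩ := hΓ.trans c c' hp
    refine ⟨g, Subtype.ext ?_, hg⟩
    have h3 := em_smul (Q := QL hk x₀) (R := R) hΓ g c
    rw [hg, he] at h3
    have h4 : u⁻¹ * (φ : W) * u = jj (Q := QL hk x₀) R hΓ g := mul_right_cancel h3
    rw [thL_apply, ← h4]
    group

/-- every element is in one of the positions -/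
theorem exists_pos (w : W) : ∃ (u : W) (c : (QL hk x₀).Cover 1), ra Q R x₀ u = x₀ ∧
    w = jL R hk x₀ u c := by
  obtain ⟨g, y, hg, ⟨c, rfl⟩, rfl⟩ := exists_translate Q R x₀ w
  obtain ⟨c', hc'⟩ := exists_emL hk x₀ c
  exact ⟨g, c', hg, by unfold jL; rw [hc']⟩

/-- the bits -/
theorem bitL_proj (hb : ∀ g ∈ Φ, ∀ v, R.b g v = 0) (u : W) (c : (QL hk x₀).Cover 1) (v : V) :
    bitL R Φ hb u ((QL hk x₀).proj 1 c) v = R.b (jL R hk x₀ u c) v := by
  rw [projL, bitL_mk]
  rfl

end DeckL

end Pool.Agent.S10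

end
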