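import Pool.Agent.H71.TSG.M05
import Pool.Agent.H71.TSG.M08
import Pool.Agent.H71.TSG.M15
import Pool.Agent.H71.TSG.M27

/-! The parts of this file: H19.LI.Bd, H19.LI.BdCh, H19.LI.Hodge, H77.TC.Defs, H77.TC.Lower, S9.U.Claim, S9.UAlg. -/

section

/-!
# Project LI: the boundary operator

`(∑_{v ∈ lab x \ τ} |f (τ ∪ v, x, k)|) ^ 2 ≤ N ∑_v |f (τ ∪ v, x, k)| ^ 2`, and every `(σ, x, k)` is of the form
`(τ ∪ v, x, k)` for at most `|σ| ≤ N` sets `τ`: the norm is at most `N`.
-/

set_option autoImplicit false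

open Finset

namespace Pool.Agent.H19.LI

open Pool.Agent.H19.Cub

variable {V X : Type} [DecidableEq V]

/-- the formula of the boundary -/
noncomputable def liBdF {C : CubeComplex V X} {κ : Type} (ν : V → ℕ) (f : L2 (Jx C × κ))
    (s : Jx C × κ) : ℂ :=
  ∑ v ∈ C.lab s.1.1.2 \ s.1.1.1, (sv ν v s.1.1.1 : ℂ) * ev f (insert v s.1.1.1) s.1.1.2 s.2

theorem liBd_sv (ν : V → ℕ) (v : V) (τ : Finset V) : sv ν v τ * sv ν v τ = 1 := by
  unfold sv
  rw [← mul_pow]
  norm_num

theorem liBd_point {C : CubeComplex V X} {κ : Type} (ν : V → ℕ) (N : ℕ)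
    (hN : ∀ x, (C.lab x).card ≤ N) (f : L2 (Jx C × κ)) (s : Jx C × κ) :
    ‖liBdF ν f s‖ ^ 2 ≤
      N * ∑ v ∈ C.lab s.1.1.2 \ s.1.1.1, ‖ev f (insert v s.1.1.1) s.1.1.2 s.2‖ ^ 2 := by
  have h1 : ‖liBdF ν f s‖ ≤
      ∑ v ∈ C.lab s.1.1.2 \ s.1.1.1, ‖ev f (insert v s.1.1.1) s.1.1.2 s.2‖ := by
    refine (norm_sum_le _ _).trans (le_of_eq (Finset.sum_congr rfl fun v _ => ?_))
    rw [norm_mul, norm_sgn (liBd_sv ν v _), one_mul]
  calc ‖liBdF ν f s‖ ^ 2
      ≤ (∑ v ∈ C.lab s.1.1.2 \ s.1.1.1, ‖ev f (insert v s.1.1.1) s.1.1.2 s.2‖) ^ 2 :=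
        pow_le_pow_left₀ (norm_nonneg _) h1 2
    _ ≤ ((C.lab s.1.1.2 \ s.1.1.1).card : ℝ) *
        ∑ v ∈ C.lab s.1.1.2 \ s.1.1.1, ‖ev f (insert v s.1.1.1) s.1.1.2 s.2‖ ^ 2 :=
        sq_sum_le_card_mul_sum_sq
    _ ≤ _ := by
        refine mul_le_mul_of_nonneg_right ?_ (Finset.sum_nonneg fun _ _ => by positivity)
        exact_mod_cast (Finset.card_le_card Finset.sdiff_subset).trans (hN _)

open Classical in
/-- the map of the double counting -/
noncomputable def liBdPhi {C : CubeComplex V X} {κ : Type} (p : Σ _ : Jx C × κ, V) :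
    Σ _ : Jx C × κ, V :=
  ⟨if h : insert p.2 p.1.1.1.1 ⊆ C.lab p.1.1.1.2 then
    (⟨(insert p.2 p.1.1.1.1, p.1.1.1.2), h⟩, p.1.2) else p.1, p.2⟩

theorem liBdPhi_eq {C : CubeComplex V X} {κ : Type} (p : Σ _ : Jx C × κ, V)
    (h : insert p.2 p.1.1.1.1 ⊆ C.lab p.1.1.1.2) :
    liBdPhi p = ⟨(⟨(insert p.2 p.1.1.1.1, p.1.1.1.2), h⟩, p.1.2), p.2⟩ := by
  unfold liBdPhi
  rw [dif_pos h]

theorem liBd_sum {C : CubeComplex V X} {κ : Type} (ν : V → ℕ) (N : ℕ)
    (hN : ∀ x, (C.lab x).card ≤ N) (f : L2 (Jx C × κ)) (S : Finset (Jx C × κ)) :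
    ∑ s ∈ S, ‖liBdF ν f s‖ ^ 2 ≤ (N * ‖f‖) ^ 2 := by
  classical
  set P : Finset (Σ _ : Jx C × κ, V) := S.sigma fun s => C.lab s.1.1.2 \ s.1.1.1 with hP
  have hsub : ∀ p ∈ P, insert p.2 p.1.1.1.1 ⊆ C.lab p.1.1.1.2 := by
    intro p hp
    rw [hP, Finset.mem_sigma, Finset.mem_sdiff] at hp
    exact Finset.insert_subset hp.2.1 p.1.1.2
  have hinj : Set.InjOn (liBdPhi (C := C) (κ := κ)) (P : Set (Σ _ : Jx C × κ, V)) := by
    rintro ⟨⟨⟨⟨τ, x⟩, h⟩, k⟩, v⟩ hp ⟨⟨⟨⟨τ', x'⟩, h'⟩, k'⟩, v'⟩ hp' he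
    have hs := hsub _ hp
    have hs' := hsub _ hp'
    rw [liBdPhi_eq _ hs, liBdPhi_eq _ hs'] at he
    rw [Finset.mem_coe, hP, Finset.mem_sigma, Finset.mem_sdiff] at hp hp'
    have e2 : v = v' := by
      have := congrArg Sigma.snd he
      exact this
    have e1 := congrArg Sigma.fst he
    have e3 : k = k' := congrArg Prod.snd e1
    have e4 := congrArg (fun z : Jx C × κ => z.1.1) e1
    have e5 : x = x' := congrArg Prod.snd e4
    have e6 : insert v τ = insert v' τ' := congrArg Prod.fst e4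
    subst e2 e3 e5
    have f1 : v ∉ τ := hp.2.2
    have f2 : v ∉ τ' := hp'.2.2
    have e7 : τ = τ' := by
      rw [← Finset.erase_insert f1, ← Finset.erase_insert f2, e6]
    subst e7
    rfl
  have h1 : ∑ s ∈ S, ∑ v ∈ C.lab s.1.1.2 \ s.1.1.1, ‖ev f (insert v s.1.1.1) s.1.1.2 s.2‖ ^ 2 =
      ∑ q ∈ P.image liBdPhi, ‖f q.1‖ ^ 2 := by
    rw [Finset.sum_image hinj, hP, Finset.sum_sigma]
    refine Finset.sum_congr rfl fun s hs => Finset.sum_congr rfl fun v hv => ?_
    have hs := hsub ⟨s, v⟩ (Finset.mem_sigma.2 ⟨hs, hv⟩)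
    rw [liBdPhi_eq _ hs, ev_pos f hs]
  set T : Finset (Jx C × κ) := (P.image liBdPhi).image Sigma.fst with hT
  have h2 : ∑ q ∈ P.image liBdPhi, ‖f q.1‖ ^ 2 ≤ ∑ q ∈ T.sigma fun t => t.1.1.1, ‖f q.1‖ ^ 2 := by
    refine Finset.sum_le_sum_of_subset_of_nonneg ?_ fun _ _ _ => by positivity
    intro q hq
    rw [Finset.mem_sigma]
    refine ⟨Finset.mem_image_of_mem _ hq, ?_⟩
    obtain ⟨p, hp, rfl⟩ := Finset.mem_image.1 hq
    rw [liBdPhi_eq _ (hsub p hp)]
    exact Finset.mem_insert_self _ _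
  have h3 : ∑ q ∈ T.sigma fun t => t.1.1.1, ‖f q.1‖ ^ 2 ≤ N * ∑ t ∈ T, ‖f t‖ ^ 2 := by
    rw [Finset.sum_sigma, Finset.mul_sum]
    refine Finset.sum_le_sum fun t _ => ?_
    have h5 : ∑ _s ∈ t.1.1.1, ‖f t‖ ^ 2 = (t.1.1.1.card : ℝ) * ‖f t‖ ^ 2 := by
      rw [Finset.sum_const, nsmul_eq_mul]
    refine h5.le.trans (mul_le_mul_of_nonneg_right ?_ (by positivity))
    exact_mod_cast (Finset.card_le_card t.1.2).trans (hN _)
  have h4 : ∑ t ∈ T, ‖f t‖ ^ 2 ≤ ‖f‖ ^ 2 := by
    rw [norm_sq_eq]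
    exact (sum_sq f).sum_le_tsum T fun _ _ => by positivity
  calc ∑ s ∈ S, ‖liBdF ν f s‖ ^ 2
      ≤ ∑ s ∈ S, N * ∑ v ∈ C.lab s.1.1.2 \ s.1.1.1, ‖ev f (insert v s.1.1.1) s.1.1.2 s.2‖ ^ 2 :=
        Finset.sum_le_sum fun s _ => liBd_point ν N hN f s
    _ = N * ∑ q ∈ P.image liBdPhi, ‖f q.1‖ ^ 2 := by rw [← Finset.mul_sum, h1]
    _ ≤ N * (N * ‖f‖ ^ 2) := by
        refine mul_le_mul_of_nonneg_left ?_ (Nat.cast_nonneg _)
        exact (h2.trans h3).trans (mul_le_mul_of_nonneg_left h4 (Nat.cast_nonneg _))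
    _ = (N * ‖f‖) ^ 2 := by ring

theorem liBd_summable {C : CubeComplex V X} {κ : Type} (ν : V → ℕ) (N : ℕ)
    (hN : ∀ x, (C.lab x).card ≤ N) (f : L2 (Jx C × κ)) :
    Summable fun s => ‖liBdF ν f s‖ ^ 2 :=
  summable_of_sum_le (fun _ => by positivity) (liBd_sum ν N hN f)

theorem exists_bd (C : CubeComplex V X) (κ : Type) (ν : V → ℕ) (N : ℕ)
    (hN : ∀ x, (C.lab x).card ≤ N) :
    ∃ d : L2 (Jx C × κ) →L[ℂ] L2 (Jx C × κ), IsBd ν d := by
  let d0 : L2 (Jx C × κ) →ₗ[ℂ] L2 (Jx C × κ) :=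
    { toFun := fun f => mk2 (liBdF ν f) (liBd_summable ν N hN f)
      map_add' := by
        intro f g
        ext s
        show liBdF ν (f + g) s = liBdF ν f s + liBdF ν g s
        unfold liBdF
        rw [← Finset.sum_add_distrib]
        refine Finset.sum_congr rfl fun v _ => ?_
        rw [ev_add, mul_add]
      map_smul' := by
        intro c f
        ext s
        show liBdF ν (c • f) s = c * liBdF ν f s
        unfold liBdF
        rw [Finset.mul_sum]
        refine Finset.sum_congr rfl fun v _ => ?_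
        rw [ev_smul]
        ring }
  refine ⟨d0.mkContinuous N fun f => ?_, fun f τ x k => ?_⟩
  · refine (sq_le_sq₀ (norm_nonneg _) (by positivity)).1 ?_
    rw [norm_sq_eq]
    exact (liBd_summable ν N hN f).tsum_le_of_sum_le (liBd_sum ν N hN f)
  · by_cases h : τ ⊆ C.lab x
    · rw [if_pos h, ev_pos _ h]
      rfl
    · rw [if_neg h, ev_neg _ h]

end Pool.Agent.H19.LI

end

section

/-!
# Project LI: the boundary of a twisted chain is a twisted cycle

For `v ∈ τ` and `u ∉ τ` with `τ ∪ u` a clique, `u ∈ lab x` iff `u ∈ lab (nb v x)`.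
-/

set_option autoImplicit false

open Finset

namespace Pool.Agent.H19.LI

open Pool.Agent.H19.Cub Pool.Agent.H4.Singer

variable {V X : Type} [DecidableEq V] {C : CubeComplex V X} {Γ G : Type} [Group Γ]
  [MulAction Γ V] [Group G]

/-- the coefficients of a twisted chain at `g * z` -/
private theorem h53_ev_z (D : GD C Γ G) (T : ℂ) (i : ℕ) (f : L2 (Jx C × G)) (hf : f ∈ Ch D T i)
    (σ : Finset V) (x : X) (g : G) : ev f σ x (g * D.z) = - ev f σ x g := by
  by_cases h : σ ⊆ C.lab x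
  · rw [ev_pos _ h, ev_pos _ h]
    exact hf.1 _ _
  · rw [ev_neg _ h, ev_neg _ h, neg_zero]

/-- the support of a twisted chain -/
private theorem h53_ev_ne (D : GD C Γ G) (T : ℂ) (i : ℕ) (f : L2 (Jx C × G)) (hf : f ∈ Ch D T i)
    (σ : Finset V) (x : X) (g : G) (h0 : ev f σ x g ≠ 0) :
    C.graph.IsClique (σ : Set V) ∧ σ.card = i := by
  by_cases h : σ ⊆ C.lab x
  · rw [ev_pos _ h] at h0
    exact hf.2.1 _ _ h0
  · exact absurd (ev_neg _ h _) h0

/-- the labels of a cube are labels at the other end of each of its edges -/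
private theorem h53_sub_nb (σ : Finset V) (x : X) (hσ : σ ⊆ C.lab x)
    (hc : C.graph.IsClique (σ : Set V)) (v : V) (hv : v ∈ σ) : σ ⊆ C.lab (C.nb v x) := by
  intro u hu
  by_cases huv : u = v
  · subst huv
    exact C.lab_nb u x (hσ hu)
  · exact C.lab_adj u v x (hc (by exact_mod_cast hu) (by exact_mod_cast hv) huv) (hσ hu) (hσ hv)

theorem bd_mem (D : GD C Γ G) (ν : V → ℕ) (d : L2 (Jx C × G) →L[ℂ] L2 (Jx C × G))
    (hd : IsBd ν d) (T : ℂ) (i : ℕ) (f : L2 (Jx C × G)) (hf : f ∈ Ch D T (i + 1)) :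
    d f ∈ Ch D T i := by
  classical
  have key : ∀ (τ : Finset V) (x : X), τ ⊆ C.lab x → ∀ g, ev (d f) τ x g =
      ∑ v ∈ C.lab x \ τ, (sv ν v τ : ℂ) * ev f (insert v τ) x g := by
    intro τ x hτ g
    rw [hd f τ x g, if_pos hτ]
  refine ⟨?_, ?_, ?_⟩
  · rintro ⟨⟨τ, x⟩, hτ⟩ g
    rw [← ev_pos (d f) hτ, ← ev_pos (d f) hτ, key τ x hτ, key τ x hτ, ← Finset.sum_neg_distrib]
    refine Finset.sum_congr rfl fun v _ => ?_
    rw [h53_ev_z D T (i + 1) f hf]
    ring
  · rintro ⟨⟨τ, x⟩, hτ⟩ g h0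
    rw [← ev_pos (d f) hτ, key τ x hτ] at h0
    obtain ⟨v, hv, hne⟩ := Finset.exists_ne_zero_of_sum_ne_zero h0
    have h1 : ev f (insert v τ) x g ≠ 0 := fun h => hne (by rw [h, mul_zero])
    obtain ⟨hc, hcard⟩ := h53_ev_ne D T (i + 1) f hf _ _ _ h1
    have hvτ : v ∉ τ := (Finset.mem_sdiff.1 hv).2
    rw [Finset.card_insert_of_notMem hvτ] at hcard
    refine ⟨hc.subset (by
      intro a ha
      exact_mod_cast Finset.mem_insert_of_mem (by exact_mod_cast ha)), ?_⟩
    show τ.card = i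
    omega
  · intro τ x hτ hc v hv g
    have hτ' : τ ⊆ C.lab (C.nb v x) := h53_sub_nb τ x hτ hc v hv
    -- the labels which extend the cube
    set S : Finset V := (C.lab x \ τ).filter fun u => C.graph.IsClique ((insert u τ : Finset V) : Set V)
      with hS
    have hSx : ∀ g, ∑ u ∈ C.lab x \ τ, (sv ν u τ : ℂ) * ev f (insert u τ) x g =
        ∑ u ∈ S, (sv ν u τ : ℂ) * ev f (insert u τ) x g := by
      intro g
      rw [hS, Finset.sum_filter]
      refine Finset.sum_congr rfl fun u _ => ?_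
      by_cases h : C.graph.IsClique ((insert u τ : Finset V) : Set V)
      · rw [if_pos h]
      · rw [if_neg h]
        have h0 : ev f (insert u τ) x g = 0 := by
          by_contra h1
          exact h (h53_ev_ne D T (i + 1) f hf _ _ _ h1).1
        rw [h0, mul_zero]
    have hS' : S = (C.lab (C.nb v x) \ τ).filter
        fun u => C.graph.IsClique ((insert u τ : Finset V) : Set V) := by
      rw [hS]
      ext u
      simp only [Finset.mem_filter, Finset.mem_sdiff]
      constructor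
      · rintro ⟨⟨h1, h2⟩, h3⟩
        refine ⟨⟨?_, h2⟩, h3⟩
        have hsub : insert u τ ⊆ C.lab x := Finset.insert_subset h1 hτ
        exact h53_sub_nb (insert u τ) x hsub h3 v (Finset.mem_insert_of_mem hv)
          (Finset.mem_insert_self _ _)
      · rintro ⟨⟨h1, h2⟩, h3⟩
        refine ⟨⟨?_, h2⟩, h3⟩
        have hsub : insert u τ ⊆ C.lab (C.nb v x) := Finset.insert_subset h1 hτ'
        have h4 := h53_sub_nb (insert u τ) (C.nb v x) hsub h3 v (Finset.mem_insert_of_mem hv)
          (Finset.mem_insert_self _ _)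
        rwa [C.nb_nb v x (hτ hv)] at h4
    have hSn : ∀ g, ∑ u ∈ C.lab (C.nb v x) \ τ, (sv ν u τ : ℂ) * ev f (insert u τ) (C.nb v x) g =
        ∑ u ∈ S, (sv ν u τ : ℂ) * ev f (insert u τ) (C.nb v x) g := by
      intro g
      rw [hS', Finset.sum_filter]
      refine Finset.sum_congr rfl fun u _ => ?_
      by_cases h : C.graph.IsClique ((insert u τ : Finset V) : Set V)
      · rw [if_pos h]
      · rw [if_neg h]
        have h0 : ev f (insert u τ) (C.nb v x) g = 0 := by
          by_contra h1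
          exact h (h53_ev_ne D T (i + 1) f hf _ _ _ h1).1
        rw [h0, mul_zero]
    have hx : ev (d f) τ x = fun g => ∑ u ∈ S, (sv ν u τ : ℂ) * ev f (insert u τ) x g := by
      funext g
      rw [key τ x hτ, hSx]
    rw [key τ _ hτ', hSn, hx]
    simp only [Np, Nm]
    simp only [Finset.mul_sum, ← Finset.sum_add_distrib, ← Finset.sum_sub_distrib,
      ← Finset.sum_neg_distrib]
    refine Finset.sum_congr rfl fun u hu => ?_
    rw [hS, Finset.mem_filter, Finset.mem_sdiff] at hu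
    obtain ⟨⟨h1, h2⟩, h3⟩ := hu
    have e := hf.2.2 (insert u τ) x (Finset.insert_subset h1 hτ) h3 v
      (Finset.mem_insert_of_mem hv) g
    simp only [Np, Nm] at e
    linear_combination (sv ν u τ : ℂ) * e

/-- the sign of a new element after one more label -/
private theorem h20_sv_insert (ν : V → ℕ) (u v : V) (τ : Finset V) (hv : v ∉ τ) :
    sv ν u (insert v τ) = sv ν u τ * (if ν v < ν u then -1 else 1) := by
  unfold sv
  rw [Finset.filter_insert]
  split_ifs with h
  · rw [Finset.card_insert_of_notMem (by simp [hv]), pow_succ]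
  · rw [mul_one]

theorem bd_bd {κ : Type} (ν : V → ℕ) (hν : Function.Injective ν)
    (d : L2 (Jx C × κ) →L[ℂ] L2 (Jx C × κ)) (hd : IsBd ν d) (f : L2 (Jx C × κ)) :
    d (d f) = 0 := by
  classical
  have key : ∀ (τ : Finset V) (x : X) (k : κ), τ ⊆ C.lab x → ev (d (d f)) τ x k = 0 := by
    intro τ x k hτ
    rw [hd (d f) τ x k, if_pos hτ]
    set S : Finset V := C.lab x \ τ with hS
    set F : V → V → ℂ := fun v u => if v = u then 0 else
      (sv ν v τ : ℂ) * ((sv ν u (insert v τ) : ℂ) * ev f (insert u (insert v τ)) x k) with hF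
    have h1 : ∑ v ∈ S, (sv ν v τ : ℂ) * ev (d f) (insert v τ) x k = ∑ v ∈ S, ∑ u ∈ S, F v u := by
      refine Finset.sum_congr rfl fun v hv => ?_
      have hv' := Finset.mem_sdiff.1 hv
      have hsub : insert v τ ⊆ C.lab x := Finset.insert_subset hv'.1 hτ
      rw [hd f (insert v τ) x k, if_pos hsub, Finset.mul_sum]
      have hset : C.lab x \ insert v τ = S.erase v := by
        ext a
        simp only [hS, Finset.mem_sdiff, Finset.mem_insert, Finset.mem_erase, not_or]
        tauto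
      rw [hset]
      have h2 : ∑ u ∈ S.erase v, (sv ν v τ : ℂ) *
          ((sv ν u (insert v τ) : ℂ) * ev f (insert u (insert v τ)) x k) =
          ∑ u ∈ S.erase v, F v u := by
        refine Finset.sum_congr rfl fun u hu => ?_
        have hne : v ≠ u := fun h => (Finset.mem_erase.1 hu).1 h.symm
        rw [hF]
        simp only [if_neg hne]
      rw [h2]
      refine Finset.sum_subset (Finset.erase_subset _ _) fun u hu hu' => ?_
      have : u = v := by
        by_contra h
        exact hu' (Finset.mem_erase.2 ⟨h, hu⟩)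
      rw [hF]
      simp only [this, if_true]
    rw [h1]
    have hanti : ∀ v ∈ S, ∀ u ∈ S, F v u = - F u v := by
      intro v hv u hu
      by_cases h : v = u
      · subst h
        simp only [hF, if_true, neg_zero]
      · have h' : ¬ u = v := fun e => h e.symm
        have hv' := (Finset.mem_sdiff.1 hv).2
        have hu' := (Finset.mem_sdiff.1 hu).2
        simp only [hF, if_neg h, if_neg h']
        rw [h20_sv_insert ν u v τ hv', h20_sv_insert ν v u τ hu', Finset.insert_comm u v τ]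
        have hne : ν v ≠ ν u := fun e => h (hν e)
        rcases lt_or_gt_of_ne hne with hlt | hlt
        · rw [if_pos hlt, if_neg (not_lt.2 hlt.le)]
          push_cast
          ring
        · rw [if_pos hlt, if_neg (not_lt.2 hlt.le)]
          push_cast
          ring
    have h3 : ∑ v ∈ S, ∑ u ∈ S, F v u = - ∑ v ∈ S, ∑ u ∈ S, F v u := by
      calc ∑ v ∈ S, ∑ u ∈ S, F v u = ∑ v ∈ S, ∑ u ∈ S, - F u v :=
            Finset.sum_congr rfl fun v hv => Finset.sum_congr rfl fun u hu => hanti v hv u hu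
        _ = ∑ u ∈ S, ∑ v ∈ S, - F u v := Finset.sum_comm
        _ = - ∑ v ∈ S, ∑ u ∈ S, F v u := by
            simp only [Finset.sum_neg_distrib]
    have h4 : (2 : ℂ) * ∑ v ∈ S, ∑ u ∈ S, F v u = 0 := by
      linear_combination h3
    rcases mul_eq_zero.1 h4 with h5 | h5
    · exact absurd h5 two_ne_zero
    · exact h5
  ext p
  obtain ⟨⟨⟨σ, x⟩, h⟩, k⟩ := p
  have := key σ x k h
  rw [ev_pos _ h] at this
  rw [this]
  rfl

end Pool.Agent.H19.LI

end

section

/-!
# Project LI: the Hodge decomposition on `C`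

The `ℓ²`-chains of `C` are a closed subspace of `L2 (Jx C × Unit)`; `d` from `exists_bd`, `d d = 0` by `bd_bd`. An `ℓ²`-cycle
is the sum of a limit of boundaries and of a cycle orthogonal to all boundaries, which is 0 by `h`.
-/

set_option autoImplicit false

open Finset

namespace Pool.Agent.H19.LI

open Pool.Agent.H19.Cub

variable {V X : Type} [DecidableEq V]

/-- the labels of a cube are labels at the other end of each of its edges -/
private theorem h60_sub_nb (C : CubeComplex V X) (σ : Finset V) (x : X) (hσ : σ ⊆ C.lab x)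
    (hc : C.graph.IsClique (σ : Set V)) (v : V) (hv : v ∈ σ) : σ ⊆ C.lab (C.nb v x) := by
  intro u hu
  by_cases huv : u = v
  · subst huv
    exact C.lab_nb u x (hσ hu)
  · exact C.lab_adj u v x (hc (by exact_mod_cast hu) (by exact_mod_cast hv) huv) (hσ hu) (hσ hv)

/-- the index of a basis vector -/
private def h60_e (C : CubeComplex V X) (s : Jx C × Unit) : Finset V × X := s.1.1

private theorem h60_e_inj (C : CubeComplex V X) : Function.Injective (h60_e C) := by
  rintro ⟨p, a⟩ ⟨q, b⟩ h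
  have h1 : p.1 = q.1 := h
  have h2 : p = q := Subtype.ext h1
  have h3 : a = b := rfl
  rw [h2, h3]

private theorem h60_not_range (C : CubeComplex V X) (p : Finset V × X)
    (h : p ∉ Set.range (h60_e C)) : ¬ p.1 ⊆ C.lab p.2 :=
  fun h1 => h ⟨(⟨p, h1⟩, ()), rfl⟩

/-- the function of a vector -/
private noncomputable def h60_fn {C : CubeComplex V X} (w : L2 (Jx C × Unit)) :
    Finset V → X → ℂ := fun σ x => ev w σ x ()

private theorem h60_fn_zero_of {C : CubeComplex V X} (w : L2 (Jx C × Unit)) (σ : Finset V)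
    (x : X) (h : ¬ σ ⊆ C.lab x) : h60_fn w σ x = 0 := ev_neg _ h _

private theorem h60_fn_e {C : CubeComplex V X} (w : L2 (Jx C × Unit)) (s : Jx C × Unit) :
    h60_fn w (h60_e C s).1 (h60_e C s).2 = w s := by
  obtain ⟨⟨⟨σ, x⟩, h⟩, a⟩ := s
  exact ev_pos w h ()

private theorem h60_fn_sum {C : CubeComplex V X} (w : L2 (Jx C × Unit)) :
    Summable fun p : Finset V × X => ‖h60_fn w p.1 p.2‖ ^ 2 := by
  refine ((h60_e_inj C).summable_iff ?_).1 ?_
  · intro p hp
    rw [h60_fn_zero_of w _ _ (h60_not_range C p hp)]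
    norm_num
  · refine (sum_sq w).congr fun s => ?_
    simp only [Function.comp]
    rw [h60_fn_e]

private theorem h60_fn_tsum {C : CubeComplex V X} (w : L2 (Jx C × Unit)) :
    ∑' p : Finset V × X, ‖h60_fn w p.1 p.2‖ ^ 2 = ‖w‖ ^ 2 := by
  rw [norm_sq_eq, ← (h60_e_inj C).tsum_eq]
  · refine tsum_congr fun s => ?_
    rw [h60_fn_e]
  · intro p hp
    by_contra h
    refine hp ?_
    show ‖h60_fn w p.1 p.2‖ ^ 2 = 0
    rw [h60_fn_zero_of w _ _ (h60_not_range C p h)]
    norm_num

/-- the vector of a function -/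
private theorem h60_vec_sum {C : CubeComplex V X} (f : Finset V → X → ℂ)
    (hf : Summable fun p : Finset V × X => ‖f p.1 p.2‖ ^ 2) :
    Summable fun s : Jx C × Unit => ‖f s.1.1.1 s.1.1.2‖ ^ 2 :=
  hf.comp_injective (h60_e_inj C)

private noncomputable def h60_vec (C : CubeComplex V X) (f : Finset V → X → ℂ)
    (hf : Summable fun p : Finset V × X => ‖f p.1 p.2‖ ^ 2) : L2 (Jx C × Unit) :=
  mk2 (fun s : Jx C × Unit => f s.1.1.1 s.1.1.2) (h60_vec_sum f hf)

private theorem h60_fn_vec (C : CubeComplex V X) (f : Finset V → X → ℂ)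
    (hf : Summable fun p : Finset V × X => ‖f p.1 p.2‖ ^ 2)
    (h0 : ∀ σ x, f σ x ≠ 0 → σ ⊆ C.lab x) : h60_fn (h60_vec C f hf) = f := by
  funext σ x
  by_cases h : σ ⊆ C.lab x
  · exact ev_pos _ h ()
  · rw [h60_fn_zero_of _ _ _ h]
    by_contra h1
    exact h (h0 σ x fun h2 => h1 h2.symm)

private theorem h60_ext {C : CubeComplex V X} (w w' : L2 (Jx C × Unit))
    (h : h60_fn w = h60_fn w') : w = w' := by
  ext s
  rw [← h60_fn_e, ← h60_fn_e w', h]

/-- the boundary of the function of a vector -/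
private theorem h60_bd {C : CubeComplex V X} (ν : V → ℕ)
    (d : L2 (Jx C × Unit) →L[ℂ] L2 (Jx C × Unit)) (hd : IsBd ν d) (w : L2 (Jx C × Unit)) :
    bd C ν (h60_fn w) = h60_fn (d w) := by
  funext τ x
  show _ = ev (d w) τ x ()
  rw [hd w τ x ()]
  by_cases h : τ ⊆ C.lab x
  · rw [if_pos h]
    rfl
  · rw [if_neg h]
    refine Finset.sum_eq_zero fun v hv => ?_
    rw [h60_fn_zero_of w _ _ fun h1 => h ((Finset.subset_insert v τ).trans h1), mul_zero]

private theorem h60_bd_chain (C : CubeComplex V X) (ν : V → ℕ) (i : ℕ) (y : Finset V → X → ℂ)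
    (hy : IsChain C (i + 1) y)
    (hs : Summable fun p : Finset V × X => ‖bd C ν y p.1 p.2‖ ^ 2) :
    IsChain C i (bd C ν y) := by
  classical
  refine ⟨?_, ?_, hs⟩
  · intro τ x h0
    obtain ⟨v, hv, hne⟩ := Finset.exists_ne_zero_of_sum_ne_zero h0
    have h1 : y (insert v τ) x ≠ 0 := fun h => hne (by rw [h, mul_zero])
    obtain ⟨ha, hc, hcard⟩ := hy.supp _ _ h1
    have hvτ : v ∉ τ := (Finset.mem_sdiff.1 hv).2
    rw [Finset.card_insert_of_notMem hvτ] at hcard
    refine ⟨(Finset.subset_insert v τ).trans ha, hc.subset (by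
      intro a ha
      exact_mod_cast Finset.mem_insert_of_mem (by exact_mod_cast ha)), by omega⟩
  · intro τ x hτ v hv
    have hsupp : ∀ x', ∑ u ∈ C.lab x' \ τ, (sv ν u τ : ℂ) * y (insert u τ) x' =
        ∑ u ∈ (C.lab x' \ τ).filter
          (fun u => C.graph.IsClique ((insert u τ : Finset V) : Set V)),
          (sv ν u τ : ℂ) * y (insert u τ) x' := by
      intro x'
      rw [Finset.sum_filter]
      refine Finset.sum_congr rfl fun u _ => ?_
      by_cases h : C.graph.IsClique ((insert u τ : Finset V) : Set V)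
      · rw [if_pos h]
      · rw [if_neg h]
        have h0 : y (insert u τ) x' = 0 := by
          by_contra h1
          exact h (hy.supp _ _ h1).2.1
        rw [h0, mul_zero]
    have hset : (C.lab (C.nb v x) \ τ).filter
        (fun u => C.graph.IsClique ((insert u τ : Finset V) : Set V)) =
        (C.lab x \ τ).filter (fun u => C.graph.IsClique ((insert u τ : Finset V) : Set V)) := by
      ext u
      simp only [Finset.mem_filter, Finset.mem_sdiff]
      constructor
      · rintro ⟨⟨h1, h2⟩, h3⟩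
        refine ⟨⟨?_, h2⟩, h3⟩
        have hc : C.graph.IsClique (τ : Set V) := h3.subset (by
          intro a ha
          exact_mod_cast Finset.mem_insert_of_mem (by exact_mod_cast ha))
        have hτ' : τ ⊆ C.lab (C.nb v x) := h60_sub_nb C τ x hτ hc v hv
        have hsub : insert u τ ⊆ C.lab (C.nb v x) := Finset.insert_subset h1 hτ'
        have h4 := h60_sub_nb C (insert u τ) (C.nb v x) hsub h3 v (Finset.mem_insert_of_mem hv)
          (Finset.mem_insert_self _ _)
        rwa [C.nb_nb v x (hτ hv)] at h4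
      · rintro ⟨⟨h1, h2⟩, h3⟩
        refine ⟨⟨?_, h2⟩, h3⟩
        have hsub : insert u τ ⊆ C.lab x := Finset.insert_subset h1 hτ
        exact h60_sub_nb C (insert u τ) x hsub h3 v (Finset.mem_insert_of_mem hv)
          (Finset.mem_insert_self _ _)
    show ∑ u ∈ C.lab (C.nb v x) \ τ, (sv ν u τ : ℂ) * y (insert u τ) (C.nb v x) =
      - ∑ u ∈ C.lab x \ τ, (sv ν u τ : ℂ) * y (insert u τ) x
    rw [hsupp, hsupp, hset, ← Finset.sum_neg_distrib]
    refine Finset.sum_congr rfl fun u hu => ?_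
    rw [Finset.mem_filter, Finset.mem_sdiff] at hu
    rw [hy.anti (insert u τ) x (Finset.insert_subset hu.1.1 hτ) v (Finset.mem_insert_of_mem hv)]
    ring

/-- the chains in `L2` -/
private noncomputable def h60_Ch (C : CubeComplex V X) (i : ℕ) :
    Submodule ℂ (L2 (Jx C × Unit)) where
  carrier := {w | IsChain C i (h60_fn w)}
  zero_mem' := by
    refine ⟨fun σ x h => absurd (ev_zero σ x ()) h, fun σ x _ v _ => ?_, h60_fn_sum 0⟩
    show ev (0 : L2 (Jx C × Unit)) σ _ () = - ev (0 : L2 (Jx C × Unit)) σ x ()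
    rw [ev_zero, ev_zero, neg_zero]
  add_mem' := by
    rintro f g hf hg
    refine ⟨fun σ x h => ?_, fun σ x hσ v hv => ?_, h60_fn_sum _⟩
    · by_cases h1 : h60_fn f σ x = 0
      · by_cases h2 : h60_fn g σ x = 0
        · refine absurd ?_ h
          show ev (f + g) σ x () = 0
          rw [ev_add]
          show h60_fn f σ x + h60_fn g σ x = 0
          rw [h1, h2, add_zero]
        · exact hg.supp σ x h2
      · exact hf.supp σ x h1
    · have e1 := hf.anti σ x hσ v hv
      have e2 := hg.anti σ x hσ v hv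
      show ev (f + g) σ _ () = - ev (f + g) σ x ()
      rw [ev_add, ev_add]
      have e1' : ev f σ (C.nb v x) () = - ev f σ x () := e1
      have e2' : ev g σ (C.nb v x) () = - ev g σ x () := e2
      rw [e1', e2']
      ring
  smul_mem' := by
    rintro c f hf
    refine ⟨fun σ x h => ?_, fun σ x hσ v hv => ?_, h60_fn_sum _⟩
    · refine hf.supp σ x fun h1 => h ?_
      show ev (c • f) σ x () = 0
      have h1' : ev f σ x () = 0 := h1
      rw [ev_smul, h1', mul_zero]
    · have e1 : ev f σ (C.nb v x) () = - ev f σ x () := hf.anti σ x hσ v hv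
      show ev (c • f) σ _ () = - ev (c • f) σ x ()
      rw [ev_smul, ev_smul, e1]
      ring

private theorem h60_cont_ev {C : CubeComplex V X} (σ : Finset V) (x : X) :
    Continuous fun w : L2 (Jx C × Unit) => ev w σ x () := by
  by_cases h : σ ⊆ C.lab x
  · have : (fun w : L2 (Jx C × Unit) => ev w σ x ()) = fun w => w (⟨(σ, x), h⟩, ()) := by
      funext w
      exact ev_pos w h ()
    rw [this]
    exact (continuous_apply ((⟨(σ, x), h⟩, ()) : Jx C × Unit)).comp
      (lp.uniformContinuous_coe).continuous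
  · have : (fun w : L2 (Jx C × Unit) => ev w σ x ()) = fun _ => 0 := by
      funext w
      exact ev_neg w h ()
    rw [this]
    exact continuous_const

private theorem h60_Ch_closed (C : CubeComplex V X) (i : ℕ) :
    IsClosed (h60_Ch C i : Set (L2 (Jx C × Unit))) := by
  have h : (h60_Ch C i : Set (L2 (Jx C × Unit))) =
      (⋂ (σ : Finset V) (x : X) (_ : ¬ (σ ⊆ C.lab x ∧ C.graph.IsClique (σ : Set V) ∧
        σ.card = i)), {w | ev w σ x () = 0}) ∩
      (⋂ (σ : Finset V) (x : X) (_ : σ ⊆ C.lab x) (v : V) (_ : v ∈ σ),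
        {w | ev w σ (C.nb v x) () = - ev w σ x ()}) := by
    ext w
    simp only [Set.mem_inter_iff, Set.mem_iInter, Set.mem_ofPred_eq]
    constructor
    · intro hw
      have hw' : IsChain C i (h60_fn w) := hw
      refine ⟨fun σ x h => ?_, fun σ x hσ v hv => hw'.anti σ x hσ v hv⟩
      by_contra h1
      exact h (hw'.supp σ x h1)
    · rintro ⟨h1, h2⟩
      refine ⟨fun σ x h => ?_, fun σ x hσ v hv => h2 σ x hσ v hv, h60_fn_sum w⟩
      by_contra h3
      exact h (h1 σ x h3)
  rw [h]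
  refine IsClosed.inter ?_ ?_
  · exact isClosed_iInter fun σ => isClosed_iInter fun x => isClosed_iInter fun _ =>
      isClosed_eq (h60_cont_ev σ x) continuous_const
  · exact isClosed_iInter fun σ => isClosed_iInter fun x => isClosed_iInter fun _ =>
      isClosed_iInter fun v => isClosed_iInter fun _ =>
      isClosed_eq (h60_cont_ev σ _) (h60_cont_ev σ x).neg

private theorem h60_inner {C : CubeComplex V X} (w u : L2 (Jx C × Unit)) :
    ∑' p : Finset V × X, (starRingEnd ℂ) (h60_fn w p.1 p.2) * h60_fn u p.1 p.2 =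
      inner ℂ w u := by
  rw [lp.inner_eq_tsum, ← (h60_e_inj C).tsum_eq]
  · refine tsum_congr fun s => ?_
    rw [h60_fn_e, h60_fn_e, RCLike.inner_apply, mul_comm]
  · intro p hp
    by_contra h
    refine hp ?_
    show (starRingEnd ℂ) (h60_fn w p.1 p.2) * h60_fn u p.1 p.2 = 0
    rw [h60_fn_zero_of u _ _ (h60_not_range C p h), mul_zero]

theorem l2zero_of_harm (C : CubeComplex V X) (N : ℕ) (hN : ∀ x, (C.lab x).card ≤ N) (i : ℕ)
    (h : ∀ ν : V → ℕ, Function.Injective ν → ∀ f, IsChain C i f → bd C ν f = 0 →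
      (∀ y, IsChain C (i + 1) y →
        ∑' p : Finset V × X, (starRingEnd ℂ) (f p.1 p.2) * bd C ν y p.1 p.2 = 0) → f = 0) :
    L2Zero C i := by
  intro ν hν z hz hz0 ε hε
  obtain ⟨d, hd⟩ := exists_bd C Unit ν N hN
  have hzc : h60_fn (h60_vec C z hz.l2) = z := h60_fn_vec C z hz.l2 fun σ x h1 => (hz.supp σ x h1).1
  set Z : L2 (Jx C × Unit) := h60_vec C z hz.l2 with hZ
  have hdZ : d Z = 0 := by
    refine h60_ext _ _ ?_
    rw [← h60_bd ν d hd, hzc, hz0]
    funext σ x
    exact (ev_zero σ x ()).symm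
  have hZc : Z ∈ h60_Ch C i := by
    show IsChain C i (h60_fn Z)
    rw [hzc]
    exact hz
  -- the boundaries
  set B : Submodule ℂ (L2 (Jx C × Unit)) := (h60_Ch C (i + 1)).map (d : L2 (Jx C × Unit) →ₗ[ℂ] L2 (Jx C × Unit)) with hB
  have hBc : B ≤ h60_Ch C i := by
    rintro _ ⟨y, hy, rfl⟩
    show IsChain C i (h60_fn (d y))
    rw [← h60_bd ν d hd]
    refine h60_bd_chain C ν i _ hy ?_
    rw [h60_bd ν d hd]
    exact h60_fn_sum _
  have hBd : B ≤ LinearMap.ker (d : L2 (Jx C × Unit) →ₗ[ℂ] L2 (Jx C × Unit)) := by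
    rintro _ ⟨y, hy, rfl⟩
    exact bd_bd ν hν d hd y
  have hBc' : B.topologicalClosure ≤ h60_Ch C i :=
    Submodule.topologicalClosure_minimal _ hBc (h60_Ch_closed C i)
  have hBd' : B.topologicalClosure ≤
      LinearMap.ker (d : L2 (Jx C × Unit) →ₗ[ℂ] L2 (Jx C × Unit)) :=
    Submodule.topologicalClosure_minimal _ hBd d.isClosed_ker
  set b : L2 (Jx C × Unit) := B.topologicalClosure.starProjection Z with hb
  have hbB : b ∈ B.topologicalClosure := Submodule.starProjection_apply_mem _ _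
  have hw : Z - b ∈ B.topologicalClosureᗮ := Submodule.sub_starProjection_mem_orthogonal _
  set w : L2 (Jx C × Unit) := Z - b with hwd
  have hwc : w ∈ h60_Ch C i := Submodule.sub_mem _ hZc (hBc' hbB)
  have hdw : d w = 0 := by
    have h1 : d b = 0 := hBd' hbB
    rw [hwd, map_sub, hdZ, h1, sub_zero]
  have hw0 : h60_fn w = 0 := by
    refine h ν hν _ hwc ?_ fun y hy => ?_
    · rw [h60_bd ν d hd, hdw]
      funext σ x
      exact ev_zero σ x ()
    · have hyc : h60_fn (h60_vec C y hy.l2) = y :=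
        h60_fn_vec C y hy.l2 fun σ x h1 => (hy.supp σ x h1).1
      have h2 : bd C ν y = h60_fn (d (h60_vec C y hy.l2)) := by
        rw [← h60_bd ν d hd, hyc]
      rw [h2, h60_inner]
      have h3 : d (h60_vec C y hy.l2) ∈ B.topologicalClosure := by
        refine B.le_topologicalClosure ⟨h60_vec C y hy.l2, ?_, rfl⟩
        show IsChain C (i + 1) (h60_fn (h60_vec C y hy.l2))
        rw [hyc]
        exact hy
      rw [← inner_conj_symm, Submodule.mem_orthogonal _ _ |>.1 hw _ h3, map_zero]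
  have hZb : Z = b := by
    have h1 : w = 0 := by
      refine h60_ext _ _ ?_
      rw [hw0]
      funext σ x
      exact (ev_zero σ x ()).symm
    exact sub_eq_zero.1 h1
  have hZB : Z ∈ closure (B : Set (L2 (Jx C × Unit))) := by
    have h1 : Z ∈ B.topologicalClosure := hZb ▸ hbB
    exact h1
  obtain ⟨u, huB, hu⟩ := Metric.mem_closure_iff.1 hZB (Real.sqrt ε) (Real.sqrt_pos.2 hε)
  obtain ⟨Y, hY, rfl⟩ := huB
  have hY' : IsChain C (i + 1) (h60_fn Y) := hY
  have hfun : (fun p : Finset V × X => ‖z p.1 p.2 - bd C ν (h60_fn Y) p.1 p.2‖ ^ 2) =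
      fun p : Finset V × X => ‖h60_fn (Z - d Y) p.1 p.2‖ ^ 2 := by
    funext p
    rw [h60_bd ν d hd]
    have h1 : h60_fn (Z - d Y) p.1 p.2 = z p.1 p.2 - h60_fn (d Y) p.1 p.2 := by
      have h2 : Z - d Y = Z + (-1 : ℂ) • d Y := by
        rw [neg_one_smul, sub_eq_add_neg]
      show ev (Z - d Y) p.1 p.2 () = _
      rw [h2, ev_add, ev_smul]
      have h3 : ev Z p.1 p.2 () = z p.1 p.2 := congrFun (congrFun hzc p.1) p.2
      rw [h3]
      show z p.1 p.2 + -1 * h60_fn (d Y) p.1 p.2 = _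
      ring
    rw [h1]
  refine ⟨h60_fn Y, hY', ?_, ?_⟩
  · rw [hfun]
    exact h60_fn_sum _
  · rw [hfun, h60_fn_tsum]
    have h1 : ‖Z - d Y‖ < Real.sqrt ε := by
      rw [← dist_eq_norm]
      exact hu
    calc ‖Z - d Y‖ ^ 2 < Real.sqrt ε ^ 2 := by
          exact pow_lt_pow_left₀ h1 (norm_nonneg _) two_ne_zero
      _ = ε := Real.sq_sqrt hε.le

end Pool.Agent.H19.LI

end

section

/-!
# Project TM, counting side: definitions
-/

set_option autoImplicit false
set_option linter.unusedSectionVars false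

open Finset

namespace Pool.Agent.H77.TC

open Pool.Agent.H19.Cub Pool.Agent.H77.SX Pool.Agent.H37.TM

variable {V X : Type} [DecidableEq V]

/-- the dimension of the space of cycles with coefficients in the regular representation -/
noncomputable def dQ (K : Type) [Field K] [Fintype V] (Q : CubeComplex V X) (n : ℕ) {P : Type}
    [Group P] (g : V → P) : ℕ := Module.finrank K (ZQ K Q n (rG K g))

/-- the completed involution as a permutation -/
def pm (Q : CubeComplex V X) (v : V) : Equiv.Perm X :=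
  ⟨Q.cs v, Q.cs v, Q.isSpec.inv v, Q.isSpec.inv v⟩

end Pool.Agent.H77.TC

end

section

/-!
# Project TM, counting side: the lower bound for modules over extensions by two-groups
-/

set_option autoImplicit false
set_option linter.unusedSectionVars false

open Finset

namespace Pool.Agent.H77.TC

open Pool.Agent.H19.Cub Pool.Agent.H77.SX Pool.Agent.H37.TM

variable {V X : Type} [DecidableEq V] [Fintype V] [Fintype X] {K : Type} [Field K] [CharP K 2]

/-- the involutions on the functions `P → (J → K)` -/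
private def lrh {P : Type} [Group P] (g : V → P) {J : Type}
    (r : V → (J → K) →ₗ[K] (J → K)) (v : V) : (P → J → K) →ₗ[K] (P → J → K) where
  toFun φ p := r v (φ (p * g v))
  map_add' φ ψ := by
    funext p
    simp
  map_smul' c φ := by
    funext p
    simp

/-- the functions which are invariant under the left translations by `H` -/
private def lS (Q : CubeComplex V X) (n : ℕ) {P : Type} [Group P] (g : V → P) {J : Type}
    (r : V → (J → K) →ₗ[K] (J → K)) (H : Subgroup P) : Submodule K (Finset V → X → P → J → K) where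
  carrier := {φ | φ ∈ ZQ K Q n (lrh g r) ∧ ∀ h ∈ H, ∀ σ x p, φ σ x (h * p) = φ σ x p}
  zero_mem' := ⟨Submodule.zero_mem _, fun _ _ _ _ _ => rfl⟩
  add_mem' := by
    rintro φ ψ ⟨h1, h2⟩ ⟨h3, h4⟩
    refine ⟨Submodule.add_mem _ h1 h3, fun h hh σ x p => ?_⟩
    simp only [Pi.add_apply, h2 h hh, h4 h hh]
  smul_mem' := by
    rintro c φ ⟨h1, h2⟩
    refine ⟨Submodule.smul_mem _ c h1, fun h hh σ x p => ?_⟩
    simp only [Pi.smul_apply, h2 h hh]

/-- left translation preserves the cycles -/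
private theorem trans_mem {Q : CubeComplex V X} {n : ℕ} {P : Type} [Group P] {g : V → P} {J : Type}
    {r : V → (J → K) →ₗ[K] (J → K)} {φ : Finset V → X → P → J → K} (h : φ ∈ ZQ K Q n (lrh g r))
    (c : P) : (fun σ x p => φ σ x (c * p)) ∈ ZQ K Q n (lrh g r) := by
  obtain ⟨h1, h2, h3⟩ := h
  refine ⟨fun σ x hσ => h1 σ x fun h0 => hσ ?_, fun σ x hs v hv => ?_, fun κ x => ?_⟩
  · funext p
    change φ σ x (c * p) = 0
    rw [h0]
    rfl
  · funext p
    have := congrFun (h2 σ x hs v hv) (c * p)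
    simpa [lrh, mul_assoc] using this
  · funext p
    have := congrFun (h3 κ x) (c * p)
    simpa [Finset.sum_apply] using this

/-- the left translation as a linear map -/
private def lT {P : Type} [Group P] {J : Type} (c : P) :
    (Finset V → X → P → J → K) →ₗ[K] (Finset V → X → P → J → K) where
  toFun φ σ x p := φ σ x p + φ σ x (c * p)
  map_add' φ ψ := by
    funext σ x p
    simp only [Pi.add_apply]
    abel
  map_smul' k φ := by
    funext σ x p
    simp

private theorem char_add {J : Type} (f : J → K) : f + f = 0 := by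
  funext j
  exact CharTwo.add_self_eq_zero _

private theorem step (Q : CubeComplex V X) (n : ℕ) {P : Type} [Group P] [Fintype P] (g : V → P)
    {J : Type} [Fintype J] (r : V → (J → K) →ₗ[K] (J → K)) {H H' : Subgroup P} (hle : H ≤ H')
    (hc : Nat.card H' = 2 * Nat.card H) :
    Module.finrank K (lS Q n g r H) ≤ 2 * Module.finrank K (lS Q n g r H') := by
  have hpos : 0 < Nat.card H := Nat.card_pos
  -- an element outside
  obtain ⟨c, hc1, hc2⟩ : ∃ c ∈ H', c ∉ H := by
    by_contra hcon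
    push Not at hcon
    have : H = H' := le_antisymm hle hcon
    rw [this] at hc hpos
    omega
  have hidx : (H.subgroupOf H').index = 2 := by
    have h1 := (H.subgroupOf H').card_mul_index
    have h2 : Nat.card (H.subgroupOf H') = Nat.card H :=
      Nat.card_congr (Subgroup.subgroupOfEquivOfLe hle).toEquiv
    rw [h2, hc] at h1
    have h3 : Nat.card H * (H.subgroupOf H').index = Nat.card H * 2 := by rw [h1]; ring
    exact Nat.eq_of_mul_eq_mul_left hpos h3
  have hmul : ∀ a ∈ H', ∀ b ∈ H', a ∉ H → b ∉ H → a * b ∈ H := by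
    intro a ha b hb ha' hb'
    have := (Subgroup.mul_mem_iff_of_index_two hidx (a := ⟨a, ha⟩) (b := ⟨b, hb⟩))
    simp only [Subgroup.mem_subgroupOf] at this
    exact this.2 (by simp [ha', hb'])
  have hci : c⁻¹ ∉ H := fun h => hc2 (by simpa using H.inv_mem h)
  have hnot : ∀ h ∈ H, c * h ∉ H := fun h hh h' => hc2 (by
    have := H.mul_mem h' (H.inv_mem hh)
    simpa using this)
  -- the norm maps into the invariants
  have hmaps : ∀ φ ∈ lS Q n g r H, lT c φ ∈ lS Q n g r H' := by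
    rintro φ ⟨h1, h2⟩
    refine ⟨Submodule.add_mem _ h1 (trans_mem h1 c), fun h hh σ x p => ?_⟩
    change φ σ x (h * p) + φ σ x (c * (h * p)) = φ σ x p + φ σ x (c * p)
    by_cases hH : h ∈ H
    · rw [h2 h hH]
      have h3 : c * h * c⁻¹ ∈ H := hmul _ (H'.mul_mem hc1 hh) _ (H'.inv_mem hc1) (hnot h hH) hci
      have h4 : c * (h * p) = c * h * c⁻¹ * (c * p) := by group
      rw [h4, h2 _ h3]
    · have h3 : h * c⁻¹ ∈ H := hmul _ hh _ (H'.inv_mem hc1) hH hci
      have h4 : h * p = h * c⁻¹ * (c * p) := by group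
      have h5 : c * h ∈ H := hmul _ hc1 _ hh hc2 hH
      have h6 : c * (h * p) = c * h * p := by group
      rw [h6, h2 _ h5, h4, h2 _ h3]
      exact add_comm _ _
  let N : lS Q n g r H →ₗ[K] lS Q n g r H' :=
    ((lT c).comp (lS Q n g r H).subtype).codRestrict _ fun φ => hmaps φ.1 φ.2
  have hker : Module.finrank K (LinearMap.ker N) ≤ Module.finrank K (lS Q n g r H') := by
    have hk : ∀ x : LinearMap.ker N, ((x : lS Q n g r H) : Finset V → X → P → J → K) ∈
        lS Q n g r H' := by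
      rintro ⟨⟨φ, h1, h2⟩, hx⟩
      have h0 : ∀ σ x p, φ σ x (c * p) = φ σ x p := by
        intro σ x p
        have h3 : (N ⟨φ, h1, h2⟩ : Finset V → X → P → J → K) = 0 := by
          rw [LinearMap.mem_ker.1 hx]
          rfl
        have h4 : φ σ x p + φ σ x (c * p) = 0 := congrFun (congrFun (congrFun h3 σ) x) p
        have h5 := char_add (K := K) (φ σ x p)
        exact (add_left_cancel (h5.trans h4.symm)).symm
      refine ⟨h1, fun h hh σ x p => ?_⟩
      change φ σ x (h * p) = φ σ x p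
      by_cases hH : h ∈ H
      · exact h2 h hH σ x p
      · have h3 : h * c⁻¹ ∈ H := hmul _ hh _ (H'.inv_mem hc1) hH hci
        have h4 : h * p = h * c⁻¹ * (c * p) := by group
        rw [h4, h2 _ h3, h0]
    let M : LinearMap.ker N →ₗ[K] lS Q n g r H' :=
      ((lS Q n g r H).subtype.comp (LinearMap.ker N).subtype).codRestrict _ hk
    refine LinearMap.finrank_le_finrank_of_injective (f := M) ?_
    intro x y hxy
    have := congrArg Subtype.val hxy
    exact Subtype.ext (Subtype.ext this)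
  have h1 := LinearMap.finrank_range_add_finrank_ker N
  have h2 := Submodule.finrank_le (LinearMap.range N)
  omega

/-- **The lower bound.** `Pool.Agent.H77.SX.lower` for `ZQ` (one more index `x : X`; the proof is the
same, functions `φ : Finset V → X → P' → (A × P → K)`, in the frame condition
`φ σ (nb v x) = r̂ v (φ σ x)`). -/
theorem lower (Q : CubeComplex V X) (n : ℕ) {P' P A : Type} [Group P'] [Fintype P'] [Group P]
    [Fintype P] [Fintype A] (g' : V → P') (g : V → P) (q : P' →* P) (hq : ∀ v, q (g' v) = g v)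
    (hsurj : Function.Surjective q) (h2 : IsPGroup 2 q.ker)
    (r : V → (A × P → K) →ₗ[K] (A × P → K))
    (hloc : ∀ v (f f' : A × P → K) p, (∀ a, f (a, p * g v) = f' (a, p * g v)) →
      ∀ a, r v f (a, p) = r v f' (a, p))
    (R : P' → (A × P → K) →ₗ[K] (A × P → K)) (hR : ∀ p, Function.Injective (R p))
    (hr : ∀ p v f, r v (R (p * g' v) f) = R p f) :
    Fintype.card (A × P) * dQ K Q n g' ≤
      Fintype.card P' * Module.finrank K (ZQ K Q n r) := by
  classical
  -- (1)
  have h1 : Fintype.card (A × P) * dQ K Q n g' ≤ Module.finrank K (ZQ K Q n (lrh g' r)) := by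
    let Φ : (A × P → ZQ K Q n (rG K g')) →ₗ[K] (Finset V → X → P' → A × P → K) :=
      { toFun := fun z σ x p => R p (fun j => (z j).1 σ x p)
        map_add' := fun z w => by
          funext σ x p
          rw [show (fun j => ((z + w) j).1 σ x p) = (fun j => (z j).1 σ x p) + fun j => (w j).1 σ x p
            from rfl, map_add]
          rfl
        map_smul' := fun c z => by
          funext σ x p
          rw [show (fun j => ((c • z) j).1 σ x p) = c • (fun j => (z j).1 σ x p) from rfl, map_smul]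
          rfl }
    have hΦ : ∀ z, Φ z ∈ ZQ K Q n (lrh g' r) := by
      intro z
      refine ⟨fun σ x hσ => ?_, fun σ x hs v hv => ?_, fun κ x => ?_⟩
      · by_contra hcon
        refine hσ ?_
        have h0 : ∀ j, (z j).1 σ x = 0 := by
          intro j
          by_contra h
          exact hcon ((z j).2.1 σ x h)
        funext p
        change R p (fun j => (z j).1 σ x p) = 0
        rw [show (fun j => (z j).1 σ x p) = 0 from funext fun j => by rw [h0 j]; rfl, map_zero]
      · funext p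
        change R p (fun j => (z j).1 σ (Q.nb v x) p) = r v (R (p * g' v) (fun j => (z j).1 σ x (p * g' v)))
        rw [hr]
        congr 1
        funext j
        exact congrFun ((z j).2.2.1 σ x hs v hv) p
      · funext p
        rw [Finset.sum_apply]
        change ∑ v ∈ κᶜ, R p (fun j => (z j).1 (insert v κ) x p) = 0
        rw [← map_sum]
        have : (∑ v ∈ κᶜ, fun j => (z j).1 (insert v κ) x p) = (0 : A × P → K) := by
          funext j
          rw [Finset.sum_apply]
          have := congrFun ((z j).2.2.2 κ x) p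
          rw [Finset.sum_apply] at this
          exact this
        rw [this, map_zero]
    have hinj : Function.Injective (Φ.codRestrict (ZQ K Q n (lrh g' r)) hΦ) := by
      intro z w hzw
      have h2 : Φ z = Φ w := congrArg Subtype.val hzw
      funext j
      refine Subtype.ext ?_
      funext σ x p
      have h3 : R p (fun j => (z j).1 σ x p) = R p (fun j => (w j).1 σ x p) :=
        congrFun (congrFun (congrFun h2 σ) x) p
      exact congrFun (hR p h3) j
    have h2 := LinearMap.finrank_le_finrank_of_injective hinj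
    rw [Module.finrank_pi_fintype, Finset.sum_const, Finset.card_univ, smul_eq_mul] at h2
    exact h2
  -- (2)
  have h2' : Module.finrank K (ZQ K Q n (lrh g' r)) ≤ Module.finrank K (lS Q n g' r ⊥) := by
    have hm : ∀ z : ZQ K Q n (lrh g' r), (z : Finset V → X → P' → A × P → K) ∈ lS Q n g' r ⊥ := by
      rintro ⟨z, hz⟩
      refine ⟨hz, fun h hh σ x p => ?_⟩
      rw [Subgroup.mem_bot.1 hh, one_mul]
    refine LinearMap.finrank_le_finrank_of_injective
      (f := (ZQ K Q n (lrh g' r)).subtype.codRestrict _ hm) ?_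
    intro x y hxy
    have := congrArg Subtype.val hxy
    exact Subtype.ext this
  -- (3)
  have h3 : Module.finrank K (lS Q n g' r q.ker) ≤
      Fintype.card P * Module.finrank K (ZQ K Q n r) := by
    obtain ⟨sec, hsec⟩ : ∃ sec : P → P', ∀ y, q (sec y) = y :=
      ⟨fun y => (hsurj y).choose, fun y => (hsurj y).choose_spec⟩
    have hinv : ∀ φ ∈ lS Q n g' r q.ker, ∀ p₁ p₂, q p₁ = q p₂ → ∀ σ x, φ σ x p₁ = φ σ x p₂ := by
      rintro φ ⟨-, hφ⟩ p₁ p₂ h12 σ x
      have hk : p₁ * p₂⁻¹ ∈ q.ker := by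
        rw [MonoidHom.mem_ker, map_mul, map_inv, h12, mul_inv_cancel]
      have := hφ _ hk σ x p₂
      rwa [inv_mul_cancel_right] at this
    let E : (Finset V → X → P' → A × P → K) →ₗ[K] (P → Finset V → X → A × P → K) :=
      { toFun := fun φ y σ x j => φ σ x (sec (y * j.2)) j
        map_add' := fun _ _ => rfl
        map_smul' := fun _ _ => rfl }
    have hE : ∀ φ ∈ lS Q n g' r q.ker, ∀ y, E φ y ∈ ZQ K Q n r := by
      intro φ hφ y
      have hi := hinv φ hφ
      obtain ⟨⟨h4, h5, h6⟩, -⟩ := hφ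
      refine ⟨fun σ x hσ => h4 σ x fun h0 => hσ ?_, fun σ x hs v hv => ?_, fun κ x => ?_⟩
      · funext j
        change φ σ x (sec (y * j.2)) j = 0
        rw [h0]
        rfl
      · funext j
        obtain ⟨a, p⟩ := j
        have h7 := congrFun (h5 σ x hs v hv) (sec (y * p))
        change φ σ (Q.nb v x) (sec (y * p)) = r v (φ σ x (sec (y * p) * g' v)) at h7
        change φ σ (Q.nb v x) (sec (y * p)) (a, p) = r v (E φ y σ x) (a, p)
        rw [h7]
        refine hloc v _ _ p (fun a' => ?_) a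
        change φ σ x (sec (y * p) * g' v) (a', p * g v) = φ σ x (sec (y * (p * g v))) (a', p * g v)
        rw [hi (sec (y * (p * g v))) (sec (y * p) * g' v)]
        rw [hsec, map_mul, hsec, hq, mul_assoc]
      · funext j
        have h7 := congrFun (congrFun (h6 κ x) (sec (y * j.2))) j
        rw [Finset.sum_apply, Finset.sum_apply] at h7
        rw [Finset.sum_apply]
        exact h7
    let F : lS Q n g' r q.ker →ₗ[K] (P → ZQ K Q n r) :=
      { toFun := fun φ y => ⟨E φ.1 y, hE φ.1 φ.2 y⟩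
        map_add' := fun _ _ => rfl
        map_smul' := fun _ _ => rfl }
    have hF : Function.Injective F := by
      intro φ ψ h
      refine Subtype.ext ?_
      funext σ x p' j
      have h8 : E φ.1 (q p' * j.2⁻¹) σ x j = E ψ.1 (q p' * j.2⁻¹) σ x j :=
        congrFun (congrFun (congrFun (congrArg Subtype.val (congrFun h (q p' * j.2⁻¹))) σ) x) j
      change φ.1 σ x (sec (q p' * j.2⁻¹ * j.2)) j = ψ.1 σ x (sec (q p' * j.2⁻¹ * j.2)) j at h8
      rw [inv_mul_cancel_right] at h8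
      rw [hinv φ.1 φ.2 p' (sec (q p')) (hsec _).symm, hinv ψ.1 ψ.2 p' (sec (q p')) (hsec _).symm]
      exact h8
    have h9 := LinearMap.finrank_le_finrank_of_injective hF
    rw [Module.finrank_pi_fintype, Finset.sum_const, Finset.card_univ, smul_eq_mul] at h9
    exact h9
  -- the chain
  obtain ⟨N, hN⟩ := (IsPGroup.iff_card (p := 2)).1 h2
  have hcm : ∀ H : Subgroup q.ker, Nat.card (H.map q.ker.subtype) = Nat.card H := fun H =>
    Nat.card_congr (H.equivMapOfInjective _ q.ker.subtype_injective).toEquiv.symm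
  have h4 : ∀ m ≤ N, ∃ H : Subgroup q.ker, Nat.card H = 2 ^ m ∧
      Module.finrank K (lS Q n g' r ⊥) ≤
        2 ^ m * Module.finrank K (lS Q n g' r (H.map q.ker.subtype)) := by
    intro m
    induction m with
    | zero => exact fun _ => ⟨⊥, by simp, by rw [Subgroup.map_bot, pow_zero, one_mul]⟩
    | succ m ih =>
      intro hm
      obtain ⟨H, hH1, hH2⟩ := ih (by omega)
      have : Fact (Nat.Prime 2) := ⟨Nat.prime_two⟩
      obtain ⟨H', hH3, hH4⟩ := Sylow.exists_subgroup_card_pow_succ (p := 2) (n := m) (G := q.ker)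
        (by rw [hN]; exact pow_dvd_pow 2 hm) hH1
      refine ⟨H', hH3, hH2.trans ?_⟩
      have h5 := step (K := K) Q n g' r (Subgroup.map_mono (f := q.ker.subtype) hH4)
        (by rw [hcm, hcm, hH3, hH1, pow_succ]; ring)
      calc 2 ^ m * Module.finrank K (lS Q n g' r (H.map q.ker.subtype))
          ≤ 2 ^ m * (2 * Module.finrank K (lS Q n g' r (H'.map q.ker.subtype))) :=
            Nat.mul_le_mul_left _ h5
        _ = 2 ^ (m + 1) * Module.finrank K (lS Q n g' r (H'.map q.ker.subtype)) := by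
            rw [pow_succ]; ring
  obtain ⟨H, hH1, hH2⟩ := h4 N le_rfl
  have hHt : H = ⊤ := by
    refine Subgroup.eq_top_of_card_eq H ?_
    rw [hH1, hN]
  have hmt : H.map q.ker.subtype = q.ker := by
    rw [hHt, ← MonoidHom.range_eq_map, Subgroup.range_subtype]
  rw [hmt] at hH2
  have hcard : Fintype.card P' = 2 ^ N * Fintype.card P := by
    have h6 := q.ker.card_mul_index
    rw [Subgroup.index_ker, MonoidHom.range_eq_top.2 hsurj, hN, Subgroup.card_top,
      Nat.card_eq_fintype_card, Nat.card_eq_fintype_card] at h6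
    exact h6.symm
  rw [hcard, mul_assoc]
  exact h1.trans (h2'.trans (hH2.trans (Nat.mul_le_mul_left _ h3)))

/-- **Coverings.** As `Pool.Agent.H77.SX.mono`. -/
theorem mono (Q : CubeComplex V X) (n : ℕ) {P' P : Type} [Group P'] [Fintype P'] [Group P]
    [Fintype P] (g' : V → P') (g : V → P) (q : P' →* P) (hq : ∀ v, q (g' v) = g v)
    (hsq : ∀ v, g v * g v = 1) (hsurj : Function.Surjective q) (h2 : IsPGroup 2 q.ker) :
    Fintype.card P * dQ K Q n g' ≤ Fintype.card P' * dQ K Q n g := by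
  classical
  have _ := hsq
  let r : V → (Unit × P → K) →ₗ[K] (Unit × P → K) := fun v =>
    { toFun := fun f j => f (j.1, j.2 * g v)
      map_add' := fun _ _ => rfl
      map_smul' := fun _ _ => rfl }
  let R : P' → (Unit × P → K) →ₗ[K] (Unit × P → K) := fun p' =>
    { toFun := fun f j => f (j.1, j.2 * (q p')⁻¹)
      map_add' := fun _ _ => rfl
      map_smul' := fun _ _ => rfl }
  have h1 := lower (K := K) Q n g' g q hq hsurj h2 r
    (fun v f f' p h a => h a) R
    (fun p' f f' h => by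
      funext j
      have h3 := congrFun h (j.1, j.2 * q p')
      change f (j.1, j.2 * q p' * (q p')⁻¹) = f' (j.1, j.2 * q p' * (q p')⁻¹) at h3
      rwa [mul_inv_cancel_right] at h3)
    (fun p' v f => by
      funext j
      change f (j.1, j.2 * g v * (q (p' * g' v))⁻¹) = f (j.1, j.2 * (q p')⁻¹)
      rw [map_mul, hq, mul_inv_rev, mul_assoc, mul_inv_cancel_left])
  rw [Fintype.card_prod, Fintype.card_unit, one_mul] at h1
  refine h1.trans (Nat.mul_le_mul_left _ ?_)
  let E : (Finset V → X → Unit × P → K) →ₗ[K] (Finset V → X → P → K) :=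
    { toFun := fun z σ x p => z σ x ((), p)
      map_add' := fun _ _ => rfl
      map_smul' := fun _ _ => rfl }
  have hE : ∀ z : ZQ K Q n r, (E.comp (ZQ K Q n r).subtype) z ∈ ZQ K Q n (rG K g) := by
    rintro ⟨z, h4, h5, h6⟩
    refine ⟨fun σ x hσ => h4 σ x fun h0 => hσ ?_, fun σ x hs v hv => ?_, fun κ x => ?_⟩
    · funext p
      change z σ x ((), p) = 0
      rw [h0]
      rfl
    · funext p
      exact congrFun (h5 σ x hs v hv) ((), p)
    · funext p
      have h7 := congrFun (h6 κ x) ((), p)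
      rw [Finset.sum_apply] at h7 ⊢
      exact h7
  refine LinearMap.finrank_le_finrank_of_injective
    (f := (E.comp (ZQ K Q n r).subtype).codRestrict _ hE) ?_
  intro x y hxy
  refine Subtype.ext ?_
  funext σ x' j
  exact congrFun (congrFun (congrFun (congrArg Subtype.val hxy) σ) x') j.2

end Pool.Agent.H77.TC

end

section

/-!
# Project S9, block U: the recursion, abstractly

`claim`: the form of the recursion which is used both for spheres and for general manifolds.
-/

set_option autoImplicit false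
set_option linter.unusedSectionVars false

namespace Pool.Agent.S9.U

/-- **Abstract data for the recursion**: the cochains `x` are functions on `S`, the cochains `a` are functions on `S'`;
`XC ρ k x`: `x` is an equivariant cochain of degree `k` with coefficients in `ρ`, and `d x` is its coboundary;
`YC ρ a`: `a` is an equivariant cocycle (of a fixed degree) with coefficients in `ρ`; `I m T x a` is the integral of
`T (a cup_(m - 1) a) x` (zero for `m = 0`). -/
structure Sys (K : Type) [Field K] (Γ : Type) [Group Γ] where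
  /-- the cells of the cochains `x` -/
  S : Type
  /-- the cells of the cochains `a` -/
  S' : Type
  /-- the equivariant cochains `x` of degree `k` -/
  XC : ∀ {E : Type} [AddCommGroup E] [Module K E], (Γ →* Module.End K E) → ℕ → (S → E) → Prop
  /-- the coboundary -/
  d : ∀ {E : Type} [AddCommGroup E] [Module K E], (S → E) → S → E
  /-- the equivariant cocycles `a` -/
  YC : ∀ {N : Type} [AddCommGroup N] [Module K N], (Γ →* Module.End K N) → (S' → N) → Prop
  /-- the integral -/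
  I : ℕ → ∀ {E N : Type} [AddCommGroup E] [Module K E] [AddCommGroup N] [Module K N],
    (N →ₗ[K] N →ₗ[K] E →ₗ[K] K) → (S → E) → (S' → N) → K
  XC_map : ∀ {E E' : Type} [AddCommGroup E] [Module K E] [AddCommGroup E'] [Module K E']
    (ρ : Γ →* Module.End K E) (ρ' : Γ →* Module.End K E') (L : E →ₗ[K] E'),
    (∀ g e, L (ρ g e) = ρ' g (L e)) → ∀ (k : ℕ) (x : S → E), XC ρ k x →
      XC ρ' k fun s => L (x s)
  d_map : ∀ {E E' : Type} [AddCommGroup E] [Module K E] [AddCommGroup E'] [Module K E']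
    (L : E →ₗ[K] E') (x : S → E) (s : S), d (fun s => L (x s)) s = L (d x s)
  YC_map : ∀ {N N' : Type} [AddCommGroup N] [Module K N] [AddCommGroup N'] [Module K N']
    (ρ : Γ →* Module.End K N) (ρ' : Γ →* Module.End K N') (L : N →ₗ[K] N'),
    (∀ g e, L (ρ g e) = ρ' g (L e)) → ∀ a : S' → N, YC ρ a → YC ρ' fun s => L (a s)
  I_zero : ∀ {E N : Type} [AddCommGroup E] [Module K E] [AddCommGroup N] [Module K N]
    (T : N →ₗ[K] N →ₗ[K] E →ₗ[K] K) (x : S → E) (a : S' → N), I 0 T x a = 0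
  I_nat : ∀ (m : ℕ) {E N E' N' : Type} [AddCommGroup E] [Module K E] [AddCommGroup N] [Module K N]
    [AddCommGroup E'] [Module K E'] [AddCommGroup N'] [Module K N']
    (T : N →ₗ[K] N →ₗ[K] E →ₗ[K] K) (x : S → E) (a : S' → N)
    (T' : N' →ₗ[K] N' →ₗ[K] E' →ₗ[K] K) (x' : S → E') (a' : S' → N'),
    (∀ s t u, T (a s) (a t) (x u) = T' (a' s) (a' t) (x' u)) → I m T x a = I m T' x' a'
  step : ∀ (m k : ℕ) {E N : Type} [AddCommGroup E] [Module K E] [AddCommGroup N] [Module K N]
    [FiniteDimensional K E] [FiniteDimensional K N]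
    (ρE : Γ →* Module.End K E) (ρN : Γ →* Module.End K N)
    (T : N →ₗ[K] N →ₗ[K] E →ₗ[K] K) (x : S → E) (a : S' → N),
    (∀ g n n' e, T (ρN g n) (ρN g n') (ρE g e) = T n n' e) → XC ρE k x → YC ρN a →
      I (m + 1) T (d x) a = I m (T + T.flip) x a

section

variable {K : Type} [Field K] {Γ : Type} [Group Γ]

/-- **Effaceability**: every cocycle of degree `k + 1` with coefficients in a triangular module becomes a coboundary in a
larger triangular module -/
def EffA (𝒮 : Sys K Γ) (Λ : Subgroup Kˣ) : Prop :=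
  ∀ (k : ℕ) (E : Type) [AddCommGroup E] [Module K E] [FiniteDimensional K E]
    (ρ : Γ →* Module.End K E), Tri Λ ρ → ∀ x : 𝒮.S → E, 𝒮.XC ρ (k + 1) x → (∀ s, 𝒮.d x s = 0) →
    ∃ (E' : Type) (_ : AddCommGroup E') (_ : Module K E') (_ : FiniteDimensional K E')
      (ρ' : Γ →* Module.End K E') (ι : E →ₗ[K] E') (y : 𝒮.S → E'),
      Tri Λ ρ' ∧ Function.Injective ι ∧ (∀ g e, ι (ρ g e) = ρ' g (ι e)) ∧ 𝒮.XC ρ' k y ∧
        ∀ s, 𝒮.d y s = ι (x s)

/-! ### The construction -/

/-- the character `χ⁻²` -/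
def im2 (χ : Γ →* Kˣ) : Γ →* Kˣ := (χ ^ 2)⁻¹

theorem im2_apply (χ : Γ →* Kˣ) (g : Γ) : im2 χ g = (χ g ^ 2)⁻¹ := rfl

theorem im2_mem (χ : Γ →* Kˣ) (g : Γ) : im2 χ g ∈ sqr χ := (sqr χ).inv_mem (sq_mem_sqr χ g)

variable {E : Type} [AddCommGroup E] [Module K E] {E' : Type} [AddCommGroup E'] [Module K E']
  {N : Type} [AddCommGroup N] [Module K N]

private theorem inv_act {M : Type} [AddCommGroup M] [Module K M] (σ : Γ →* Module.End K M) (g : Γ)
    (y : M) : σ g⁻¹ (σ g y) = y := by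
  rw [← Module.End.mul_apply, ← map_mul, inv_mul_cancel, map_one, Module.End.one_apply]

private theorem act_inv {M : Type} [AddCommGroup M] [Module K M] (σ : Γ →* Module.End K M) (g : Γ)
    (y : M) : σ g (σ g⁻¹ y) = y := by
  rw [← Module.End.mul_apply, ← map_mul, mul_inv_cancel, map_one, Module.End.one_apply]

section Ext

variable {D : Type} [AddCommGroup D] [Module K D]

/-- the module `N₁` -/
private def N1 (ev : D →ₗ[K] N →ₗ[K] K) (ι : E →ₗ[K] E') (T : N →ₗ[K] N →ₗ[K] E →ₗ[K] K) :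
    Submodule K ((E' →ₗ[K] D) × N) where
  carrier := {s | ∀ e m, ev (s.1 (ι e)) m = T m s.2 e}
  zero_mem' := fun e m => by
    show ev ((0 : E' →ₗ[K] D) (ι e)) m = T m 0 e
    rw [map_zero, LinearMap.zero_apply, map_zero]
    rfl
  add_mem' := by
    rintro s t hs ht e m
    show ev ((s.1 + t.1) (ι e)) m = T m (s.2 + t.2) e
    rw [map_add, LinearMap.add_apply, LinearMap.add_apply, map_add, LinearMap.add_apply, hs e m,
      ht e m]
  smul_mem' := by
    rintro c s hs e m
    show ev ((c • s.1) (ι e)) m = T m (c • s.2) e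
    rw [map_smul, LinearMap.smul_apply, LinearMap.smul_apply, map_smul, LinearMap.smul_apply,
      hs e m]

/-- the form `T̃` -/
private def T2 (ev : D →ₗ[K] N →ₗ[K] K) (ι : E →ₗ[K] E') (T : N →ₗ[K] N →ₗ[K] E →ₗ[K] K) :
    N1 ev ι T →ₗ[K] N1 ev ι T →ₗ[K] E' →ₗ[K] K :=
  LinearMap.mk₂ K (fun s s' => (ev.flip s.1.2) ∘ₗ s'.1.1)
    (fun s t s' => by
      refine LinearMap.ext fun e => ?_
      show ev (s'.1.1 e) (s.1.2 + t.1.2) = ev (s'.1.1 e) s.1.2 + ev (s'.1.1 e) t.1.2
      exact map_add _ _ _)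
    (fun c s s' => by
      refine LinearMap.ext fun e => ?_
      show ev (s'.1.1 e) (c • s.1.2) = c • ev (s'.1.1 e) s.1.2
      exact map_smul _ _ _)
    (fun s s' t' => by
      refine LinearMap.ext fun e => ?_
      show ev (s'.1.1 e + t'.1.1 e) s.1.2 = ev (s'.1.1 e) s.1.2 + ev (t'.1.1 e) s.1.2
      rw [map_add, LinearMap.add_apply])
    (fun c s s' => by
      refine LinearMap.ext fun e => ?_
      show ev (c • s'.1.1 e) s.1.2 = c • ev (s'.1.1 e) s.1.2
      rw [map_smul, LinearMap.smul_apply])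

private theorem ext_gen [FiniteDimensional K D] [FiniteDimensional K N] [FiniteDimensional K E']
    (χ : Γ →* Kˣ) (ρ : Γ →* Module.End K E) (ρ' : Γ →* Module.End K E')
    (ρN : Γ →* Module.End K N) (ρD : Γ →* Module.End K D)
    (ev : D →ₗ[K] N →ₗ[K] K) (hev : ∀ g d m, ev (ρD g d) (ρN g m) = (im2 χ g : K) * ev d m)
    (lif : (N →ₗ[K] K) →ₗ[K] D) (hlif : ∀ φ, ev (lif φ) = φ)
    (ι : E →ₗ[K] E') (T : N →ₗ[K] N →ₗ[K] E →ₗ[K] K) (hinj : Function.Injective ι)
    (hι : ∀ g e, ι (ρ g e) = ρ' g (ι e))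
    (hT : ∀ g n n' e, T (ρN g n) (ρN g n') (ρ g e) = (im2 χ g : K) * T n n' e)
    (h1 : Tri (sqr χ) ρ') (h2 : Tri (sqr χ) ρN) (h3 : Tri (sqr χ) ρD) :
    ∃ (N₁ : Type) (_ : AddCommGroup N₁) (_ : Module K N₁) (_ : FiniteDimensional K N₁)
      (ρ₁ : Γ →* Module.End K N₁) (p : N₁ →ₗ[K] N) (T' : N₁ →ₗ[K] N₁ →ₗ[K] E' →ₗ[K] K),
      Tri (sqr χ) ρ₁ ∧ Function.Surjective p ∧ (∀ g y, p (ρ₁ g y) = ρN g (p y)) ∧
      (∀ s s' e, T' s s' (ι e) = T (p s) (p s') e) ∧
      ∀ g s s' e, T' (ρ₁ g s) (ρ₁ g s') (ρ' g e) = (im2 χ g : K) * T' s s' e := by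
  have hinv : ∀ g, ∀ s ∈ N1 ev ι T, prodR (homR ρ' ρD) ρN g s ∈ N1 ev ι T := by
    intro g s hs e m
    show ev (ρD g (s.1 (ρ' g⁻¹ (ι e)))) m = T m (ρN g s.2) e
    have h4 : ev (ρD g (s.1 (ρ' g⁻¹ (ι e)))) m =
        (im2 χ g : K) * ev (s.1 (ρ' g⁻¹ (ι e))) (ρN g⁻¹ m) := by
      rw [← hev, act_inv]
    rw [h4, ← hι, hs, ← hT, act_inv, act_inv]
  refine ⟨N1 ev ι T, inferInstance, inferInstance, inferInstance,
    subR (prodR (homR ρ' ρD) ρN) (N1 ev ι T) hinv, LinearMap.snd K _ N ∘ₗ (N1 ev ι T).subtype,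
    T2 ev ι T, Tri.sub (Tri.prod (Tri.hom h1 h3) h2) _ _, ?_, fun g y => rfl, ?_, ?_⟩
  · intro n
    obtain ⟨κ, hκ⟩ := LinearMap.exists_leftInverse_of_injective ι (LinearMap.ker_eq_bot.2 hinj)
    refine ⟨⟨(lif ∘ₗ (T.flip n).flip ∘ₗ κ, n), fun e m => ?_⟩, rfl⟩
    show ev (lif ((T.flip n).flip (κ (ι e)))) m = T m n e
    rw [hlif, ← LinearMap.comp_apply κ ι, hκ, LinearMap.id_apply]
    rfl
  · intro s s' e
    exact s'.2 e s.1.2
  · intro g s s' e
    show ev (ρD g (s'.1.1 (ρ' g⁻¹ (ρ' g e)))) (ρN g s.1.2) = (im2 χ g : K) * ev (s'.1.1 e) s.1.2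
    rw [hev, inv_act]

end Ext

/-- **The extension step.** -/
theorem ext_step [FiniteDimensional K N] [FiniteDimensional K E']
    (χ : Γ →* Kˣ) (ρ : Γ →* Module.End K E) (ρ' : Γ →* Module.End K E')
    (ρN : Γ →* Module.End K N)
    (ι : E →ₗ[K] E') (T : N →ₗ[K] N →ₗ[K] E →ₗ[K] K) (hinj : Function.Injective ι)
    (hι : ∀ g e, ι (ρ g e) = ρ' g (ι e))
    (hT : ∀ g n n' e, T (ρN g n) (ρN g n') (ρ g e) = (im2 χ g : K) * T n n' e)
    (h1 : Tri (sqr χ) ρ') (h2 : Tri (sqr χ) ρN) :
    ∃ (N₁ : Type) (_ : AddCommGroup N₁) (_ : Module K N₁) (_ : FiniteDimensional K N₁)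
      (ρ₁ : Γ →* Module.End K N₁) (p : N₁ →ₗ[K] N) (T' : N₁ →ₗ[K] N₁ →ₗ[K] E' →ₗ[K] K),
      Tri (sqr χ) ρ₁ ∧ Function.Surjective p ∧ (∀ g y, p (ρ₁ g y) = ρN g (p y)) ∧
      (∀ s s' e, T' s s' (ι e) = T (p s) (p s') e) ∧
      ∀ g s s' e, T' (ρ₁ g s) (ρ₁ g s') (ρ' g e) = (im2 χ g : K) * T' s s' e := by
  refine ext_gen χ ρ ρ' ρN (homR ρN (ch (im2 χ))) LinearMap.id (fun g d m => ?_) LinearMap.id
    (fun φ => rfl) ι T hinj hι hT h1 h2 (Tri.hom h2 (tri_ch (im2_mem χ)))
  show (im2 χ g : K) * d (ρN g⁻¹ (ρN g m)) = (im2 χ g : K) * d m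
  rw [inv_act]

/-- **The form on the quotient.** -/
theorem quo_form [CharP K 2] (ι : E →ₗ[K] E') (T : N →ₗ[K] N →ₗ[K] E' →ₗ[K] K)
    (hT : ∀ n n' e, T n n' (ι e) = T n' n (ι e)) :
    ∃ T' : N →ₗ[K] N →ₗ[K] (E' ⧸ LinearMap.range ι) →ₗ[K] K,
      ∀ n n' e, T' n n' ((LinearMap.range ι).mkQ e) = T n n' e + T n' n e := by
  have hv : ∀ n n', LinearMap.range ι ≤ LinearMap.ker (T n n' + T n' n) := by
    rintro n n' _ ⟨e, rfl⟩
    rw [LinearMap.mem_ker, LinearMap.add_apply, hT n n' e]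
    exact CharTwo.add_self_eq_zero _
  refine ⟨LinearMap.mk₂ K (fun n n' => (LinearMap.range ι).liftQ (T n n' + T n' n) (hv n n'))
    (fun s t s' => ?_) (fun c s s' => ?_) (fun s s' t' => ?_) (fun c s s' => ?_),
    fun n n' e => rfl⟩
  · refine Submodule.linearMap_qext _ (LinearMap.ext fun e => ?_)
    show T (s + t) s' e + T s' (s + t) e = (T s s' e + T s' s e) + (T t s' e + T s' t e)
    rw [map_add, map_add]
    simp only [LinearMap.add_apply]
    ring
  · refine Submodule.linearMap_qext _ (LinearMap.ext fun e => ?_)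
    show T (c • s) s' e + T s' (c • s) e = c • (T s s' e + T s' s e)
    rw [map_smul, map_smul, LinearMap.smul_apply, LinearMap.smul_apply, LinearMap.smul_apply,
      smul_add]
  · refine Submodule.linearMap_qext _ (LinearMap.ext fun e => ?_)
    show T s (s' + t') e + T (s' + t') s e = (T s s' e + T s' s e) + (T s t' e + T t' s e)
    rw [map_add, map_add]
    simp only [LinearMap.add_apply]
    ring
  · refine Submodule.linearMap_qext _ (LinearMap.ext fun e => ?_)
    show T s (c • s') e + T (c • s') s e = c • (T s s' e + T s' s e)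
    rw [map_smul, map_smul, LinearMap.smul_apply, LinearMap.smul_apply, LinearMap.smul_apply,
      smul_add]

/-- **The recursion.** -/
theorem claim [CharP K 2] (𝒮 : Sys K Γ) {χ : Γ →* Kˣ} (hE : EffA 𝒮 (sqr χ)) (m : ℕ) :
    ∀ k : ℕ, m ≤ k → ∀ (E N : Type) [AddCommGroup E] [Module K E] [FiniteDimensional K E]
    [AddCommGroup N] [Module K N] [FiniteDimensional K N]
    (ρE : Γ →* Module.End K E) (ρN : Γ →* Module.End K N), Tri (sqr χ) ρE → Tri (sqr χ) ρN →
    ∀ T : N →ₗ[K] N →ₗ[K] E →ₗ[K] K, (∀ n n', T n n' = T n' n) →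
    (∀ g n n' e, T (ρN g n) (ρN g n') (ρE g e) = (im2 χ g : K) * T n n' e) →
    ∀ x : 𝒮.S → E, 𝒮.XC ρE k x → (∀ s, 𝒮.d x s = 0) →
    ∃ (N' : Type) (_ : AddCommGroup N') (_ : Module K N') (_ : FiniteDimensional K N')
      (ρ' : Γ →* Module.End K N') (p : N' →ₗ[K] N), Tri (sqr χ) ρ' ∧ Function.Surjective p ∧
      (∀ g y, p (ρ' g y) = ρN g (p y)) ∧
      ∀ a : 𝒮.S' → N', 𝒮.YC (tw χ ρ') a → 𝒮.I m T x (fun s => p (a s)) = 0 := by
  induction m with
  | zero =>
    intro k _ E N _ _ _ _ _ _ ρE ρN h1 h2 T hT hg x hx hd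
    exact ⟨N, inferInstance, inferInstance, inferInstance, ρN, LinearMap.id, h2,
      Function.surjective_id, fun _ _ => rfl, fun a _ => 𝒮.I_zero _ _ _⟩
  | succ m ih =>
    intro k hk E N _ _ _ _ _ _ ρE ρN h1 h2 T hT hg x hx hd
    obtain ⟨k, rfl⟩ : ∃ k', k = k' + 1 := ⟨k - 1, by omega⟩
    obtain ⟨E', _, _, _, ρ', ι, y, h3, hι, hιg, hy, hyx⟩ := hE k E ρE h1 x hx hd
    obtain ⟨N₁, _, _, _, ρ₁, p₁, T2, q1, q2, q3, q4, q5⟩ :=
      ext_step χ ρE ρ' ρN ι T hι hιg hg h3 h2
    obtain ⟨T3, hT3⟩ := quo_form ι T2 fun n n' e => by rw [q4, q4, hT]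
    have hR : ∀ g, ∀ e ∈ LinearMap.range ι, ρ' g e ∈ LinearMap.range ι := by
      rintro g _ ⟨e, rfl⟩
      exact ⟨ρE g e, hιg g e⟩
    obtain ⟨N', _, _, _, ρN', p, h4, h5, h6, h7⟩ := ih k (by omega) (E' ⧸ LinearMap.range ι)
      N₁ (quoR ρ' (LinearMap.range ι) hR) ρ₁ (Tri.quo h3 _ hR) q1 T3
      (fun n n' => Submodule.linearMap_qext _ (LinearMap.ext fun e => by
        show T3 n n' ((LinearMap.range ι).mkQ e) = T3 n' n ((LinearMap.range ι).mkQ e)
        rw [hT3, hT3, add_comm]))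
      (by
        intro g s s' e
        obtain ⟨e, rfl⟩ := (LinearMap.range ι).mkQ_surjective e
        rw [quoR_mkQ, hT3, hT3, q5, q5, mul_add])
      (fun s => (LinearMap.range ι).mkQ (y s))
      (𝒮.XC_map ρ' _ (LinearMap.range ι).mkQ (fun _ _ => rfl) k y hy) (by
        intro s
        rw [𝒮.d_map, hyx]
        exact (Submodule.Quotient.mk_eq_zero _).2 ⟨x s, rfl⟩)
    refine ⟨N', inferInstance, inferInstance, inferInstance, ρN', p₁ ∘ₗ p, h4, q2.comp h5, ?_, ?_⟩
    · intro g y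
      show p₁ (p (ρN' g y)) = ρN g (p₁ (p y))
      rw [h6, q3]
    · intro a ha
      have hb : 𝒮.YC (tw χ ρ₁) fun s => p (a s) := by
        refine 𝒮.YC_map (tw χ ρN') _ p (fun g e => ?_) a ha
        show p ((χ g : K) • ρN' g e) = (χ g : K) • _
        rw [map_smul, h6]
      show 𝒮.I (m + 1) T x (fun s => p₁ (p (a s))) = 0
      rw [𝒮.I_nat (m + 1) T x (fun s => p₁ (p (a s))) T2 (fun s => ι (x s))
        (fun s => p (a s)) fun s t u => (q4 _ _ _).symm]
      have h8 : (fun s => ι (x s)) = 𝒮.d y := funext fun s => (hyx s).symm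
      rw [h8, 𝒮.step m k ρ' (tw χ ρ₁) T2 y (fun s => p (a s)) ?_ hy hb, ← h7 a ha]
      · refine 𝒮.I_nat m _ _ _ _ _ _ fun s t u => ?_
        rw [hT3]
        rfl
      · intro g s s' e
        show T2 ((χ g : K) • _) ((χ g : K) • _) _ = _
        rw [map_smul, map_smul, LinearMap.smul_apply, LinearMap.smul_apply, LinearMap.smul_apply,
          q5, im2_apply, smul_smul, smul_eq_mul, ← mul_assoc, Units.val_inv_eq_inv_val,
          Units.val_pow_eq_pow_val, pow_two, mul_inv_cancel₀, one_mul]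
        exact mul_ne_zero (χ g).ne_zero (χ g).ne_zero

end

end Pool.Agent.S9.U

end

section

/-!
# Project S9, block M: the algebraic step, in the form for manifolds
-/

set_option autoImplicit false
set_option linter.unusedSectionVars false

namespace Pool.Agent.S9

open Pool.Agent.S9.U

/-- **The algebraic step**: a symmetric form `b` on `N` with values in the dual of `E` is the symmetrisation of a
form on a larger module, with values in the dual of `E'`. -/
theorem alg_step {K : Type} [Field K] [CharP K 2] {Γ : Type} [Group Γ]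
    (χ : Γ →* Kˣ) {E N E' : Type} [AddCommGroup E] [Module K E]
    [FiniteDimensional K E] [AddCommGroup N] [Module K N] [FiniteDimensional K N] [AddCommGroup E']
    [Module K E'] [FiniteDimensional K E'] {rE : Γ →* Module.End K E} {rN : Γ →* Module.End K N}
    {rE' : Γ →* Module.End K E'} (hN : Tri (sqr χ) rN) (hE' : Tri (sqr χ) rE') (ι : E →ₗ[K] E')
    (hι : Function.Injective ι) (hιg : ∀ g e, ι (rE g e) = rE' g (ι e))
    (b : N →ₗ[K] N →ₗ[K] (E →ₗ[K] K)) (hsym : ∀ n n' e, b n n' e = b n' n e)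
    (hb : ∀ g n n' e, (χ g : K) ^ 2 * b (rN g n) (rN g n') (rE g e) = b n n' e) :
    ∃ (N₁ : Type) (_ : AddCommGroup N₁) (_ : Module K N₁) (_ : FiniteDimensional K N₁)
      (r₁ : Γ →* Module.End K N₁) (p : N₁ →ₗ[K] N)
      (E₁ : Type) (_ : AddCommGroup E₁) (_ : Module K E₁) (_ : FiniteDimensional K E₁)
      (rE₁ : Γ →* Module.End K E₁) (q : E' →ₗ[K] E₁)
      (bt : N₁ →ₗ[K] N₁ →ₗ[K] (E' →ₗ[K] K)) (b₁ : N₁ →ₗ[K] N₁ →ₗ[K] (E₁ →ₗ[K] K)),
      Tri (sqr χ) r₁ ∧ Tri (sqr χ) rE₁ ∧ Function.Surjective p ∧ (∀ g s, p (r₁ g s) = rN g (p s)) ∧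
      (∀ g e, q (rE' g e) = rE₁ g (q e)) ∧ (∀ e, q (ι e) = 0) ∧
      (∀ s s' e, bt s s' (ι e) = b (p s) (p s') e) ∧
      (∀ s s' e, b₁ s s' (q e) = bt s s' e + bt s' s e) ∧
      (∀ g s s' e, (χ g : K) ^ 2 * bt (r₁ g s) (r₁ g s') (rE' g e) = bt s s' e) ∧
      (∀ g s s' e, (χ g : K) ^ 2 * b₁ (r₁ g s) (r₁ g s') (rE₁ g e) = b₁ s s' e) ∧
      (∀ s s' e, b₁ s s' e = b₁ s' s e) := by
  have hx : ∀ g, (χ g : K) ^ 2 * (im2 χ g : K) = 1 := by
    intro g
    rw [im2_apply, Units.val_inv_eq_inv_val, Units.val_pow_eq_pow_val]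
    exact mul_inv_cancel₀ (pow_ne_zero 2 (χ g).ne_zero)
  have hb' : ∀ g n n' e, b (rN g n) (rN g n') (rE g e) = (im2 χ g : K) * b n n' e := by
    intro g n n' e
    rw [← hb g n n' e, ← mul_assoc, mul_comm (im2 χ g : K), hx, one_mul]
  obtain ⟨N₁, _, _, _, r₁, p, bt, h1, h2, h3, h4, h5⟩ :=
    ext_step χ rE rE' rN ι b hι hιg hb' hE' hN
  obtain ⟨b₁, hb₁⟩ := quo_form ι bt fun n n' e => by rw [h4, h4, hsym]
  have hR : ∀ g, ∀ e ∈ LinearMap.range ι, rE' g e ∈ LinearMap.range ι := by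
    rintro g _ ⟨e, rfl⟩
    exact ⟨rE g e, hιg g e⟩
  have h5' : ∀ g s s' e, (χ g : K) ^ 2 * bt (r₁ g s) (r₁ g s') (rE' g e) = bt s s' e := by
    intro g s s' e
    rw [h5, ← mul_assoc, hx, one_mul]
  refine ⟨N₁, inferInstance, inferInstance, inferInstance, r₁, p, E' ⧸ LinearMap.range ι,
    inferInstance, inferInstance, inferInstance, quoR rE' (LinearMap.range ι) hR,
    (LinearMap.range ι).mkQ, bt, b₁, h1, Tri.quo hE' _ hR, h2, h3, fun _ _ => rfl, fun e => ?_,
    h4, hb₁, h5', ?_, ?_⟩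
  · exact (Submodule.Quotient.mk_eq_zero _).2 ⟨e, rfl⟩
  · intro g s s' e
    obtain ⟨e, rfl⟩ := (LinearMap.range ι).mkQ_surjective e
    rw [quoR_mkQ, hb₁, hb₁, mul_add, h5', h5']
  · intro s s' e
    obtain ⟨e, rfl⟩ := (LinearMap.range ι).mkQ_surjective e
    rw [hb₁, hb₁, add_comm]

end Pool.Agent.S9

end
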