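import Pool.Agent.H71.TSG.M08

/-! The parts of this file: H19.LI.Act, H19.LI.ChInv2, H19.LI.ChInv, H19.LI.Semi. -/

section

/-!
# Project LI: the dimension data of the index set `Jx C × G`, group `Γ × G`

`(γ, u)` acts by `((σ, x), g) ↦ ((γ σ, γ x), u g (j γ)⁻¹)`, with the sign `sgi ν γ σ`.
-/

set_option autoImplicit false

open Finset
open scoped Pointwise

namespace Pool.Agent.H19.LI

open Pool.Agent.H19.Cub Pool.Agent.H4.Singer

variable {V X : Type} [DecidableEq V] {C : CubeComplex V X} {Γ G : Type} [Group Γ]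
  [MulAction Γ V] [MulAction Γ X] [Group G]

theorem smul_sub (hΓ : IsGeom Γ C) (g : Γ) {σ : Finset V} {x : X} (h : σ ⊆ C.lab x) :
    g • σ ⊆ C.lab (g • x) := by
  intro v hv
  obtain ⟨u, hu, rfl⟩ := Finset.mem_smul_finset.1 hv
  exact (hΓ.lab g u x).2 (h hu)

/-- the action on `Jx C` -/
def permJ (hΓ : IsGeom Γ C) : Γ →* Equiv.Perm (Jx C) where
  toFun g :=
    { toFun := fun p => ⟨(g • p.1.1, g • p.1.2), smul_sub hΓ g p.2⟩
      invFun := fun p => ⟨(g⁻¹ • p.1.1, g⁻¹ • p.1.2), smul_sub hΓ g⁻¹ p.2⟩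
      left_inv := fun p => by
        apply Subtype.ext
        show (g⁻¹ • g • p.1.1, g⁻¹ • g • p.1.2) = p.1
        rw [inv_smul_smul, inv_smul_smul]
      right_inv := fun p => by
        apply Subtype.ext
        show (g • g⁻¹ • p.1.1, g • g⁻¹ • p.1.2) = p.1
        rw [smul_inv_smul, smul_inv_smul] }
  map_one' := by
    ext p : 2
    show ((1 : Γ) • p.1.1, (1 : Γ) • p.1.2) = p.1
    rw [one_smul, one_smul]
  map_mul' g h := by
    ext p : 2
    show ((g * h) • p.1.1, (g * h) • p.1.2) = (g • h • p.1.1, g • h • p.1.2)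
    rw [mul_smul, mul_smul]

/-- the action on `Jx C × G` -/
def actG (D : GD C Γ G) (hΓ : IsGeom Γ C) : Γ × G →* Equiv.Perm (Jx C × G) where
  toFun q :=
    { toFun := fun p => (permJ hΓ q.1 p.1, q.2 * p.2 * (D.j q.1)⁻¹)
      invFun := fun p => ((permJ hΓ q.1).symm p.1, q.2⁻¹ * p.2 * D.j q.1)
      left_inv := fun p => by
        refine Prod.ext ((permJ hΓ q.1).symm_apply_apply p.1) ?_
        show q.2⁻¹ * (q.2 * p.2 * (D.j q.1)⁻¹) * D.j q.1 = p.2
        group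
      right_inv := fun p => by
        refine Prod.ext ((permJ hΓ q.1).apply_symm_apply p.1) ?_
        show q.2 * (q.2⁻¹ * p.2 * D.j q.1) * (D.j q.1)⁻¹ = p.2
        group }
  map_one' := by
    refine Equiv.ext fun p => Prod.ext ?_ ?_
    · show permJ hΓ 1 p.1 = p.1
      rw [map_one]
      rfl
    · show 1 * p.2 * (D.j 1)⁻¹ = p.2
      rw [map_one, inv_one, one_mul, mul_one]
  map_mul' q r := by
    refine Equiv.ext fun p => Prod.ext ?_ ?_
    · show permJ hΓ (q.1 * r.1) p.1 = permJ hΓ q.1 (permJ hΓ r.1 p.1)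
      rw [map_mul]
      rfl
    · show q.2 * r.2 * p.2 * (D.j (q.1 * r.1))⁻¹ = q.2 * (r.2 * p.2 * (D.j r.1)⁻¹) * (D.j q.1)⁻¹
      rw [map_mul]
      group

open Classical in
/-- the cutoff function -/
noncomputable def cI (C : CubeComplex V X) (G : Type) [Group G] (K : Cut Γ X) (p : Jx C × G) : ℝ :=
  if p.2 = 1 then K.c p.1.1.2 else 0

theorem fin_cI (C : CubeComplex V X) (G : Type) [Group G] (K : Cut Γ X) :
    {p : Jx C × G | cI C G K p ≠ 0}.Finite := by
  classical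
  have key : ∀ p : Jx C × G, cI C G K p ≠ 0 → p.2 = 1 ∧ K.c p.1.1.2 ≠ 0 := by
    intro p hp
    unfold cI at hp
    split_ifs at hp with h
    · exact ⟨h, hp⟩
    · exact absurd rfl hp
  refine Set.Finite.of_injOn (f := fun p : Jx C × G => p.1.1)
    (t := (↑(K.F.biUnion fun x => (C.lab x).powerset ×ˢ {x}) : Set (Finset V × X))) ?_ ?_
    (Finset.finite_toSet _)
  · intro p hp
    obtain ⟨-, h2⟩ := key p hp
    have hF : p.1.1.2 ∈ K.F := by
      by_contra h
      exact h2 (K.supp _ h)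
    rw [Finset.mem_coe, Finset.mem_biUnion]
    refine ⟨p.1.1.2, hF, ?_⟩
    rw [Finset.mem_product, Finset.mem_powerset, Finset.mem_singleton]
    exact ⟨p.1.2, rfl⟩
  · intro p hp q hq h
    exact Prod.ext (Subtype.ext h) ((key p hp).1.trans (key q hq).1.symm)

theorem sum_cI (D : GD C Γ G) (hΓ : IsGeom Γ C) (K : Cut Γ X) (p : Jx C × G) :
    HasSum (fun q : Γ × G => cI C G K (actG D hΓ q p)) 1 := by
  classical
  have hinj : Function.Injective fun γ : Γ => ((γ, D.j γ * p.2⁻¹) : Γ × G) := fun a b h =>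
    congrArg Prod.fst h
  have hval : ∀ q : Γ × G, cI C G K (actG D hΓ q p) =
      if q.2 * p.2 * (D.j q.1)⁻¹ = 1 then K.c (q.1 • p.1.1.2) else 0 := fun q => rfl
  rw [← Function.Injective.hasSum_iff hinj]
  · have he : ((fun q : Γ × G => cI C G K (actG D hΓ q p)) ∘ fun γ : Γ =>
        ((γ, D.j γ * p.2⁻¹) : Γ × G)) = fun γ : Γ => K.c (γ • p.1.1.2) := by
      funext γ
      rw [Function.comp_apply, hval, if_pos]
      show D.j γ * p.2⁻¹ * p.2 * (D.j γ)⁻¹ = 1
      rw [inv_mul_cancel_right, mul_inv_cancel]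
    rw [he]
    exact K.sum p.1.1.2
  · intro q hq
    rw [hval, if_neg]
    intro h
    refine hq ⟨q.1, Prod.ext rfl ?_⟩
    show D.j q.1 * p.2⁻¹ = q.2
    rw [mul_inv_eq_one] at h
    rw [← h, mul_inv_cancel_right]

/-- the dimension data -/
noncomputable def dimD (D : GD C Γ G) (hΓ : IsGeom Γ C) (K : Cut Γ X) (ν : V → ℕ) :
    Dm (Γ × G) (Jx C × G) where
  a := actG D hΓ
  F := (fin_cI C G K).toFinset
  c := cI C G K
  nonneg p := by
    unfold cI
    split_ifs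
    · exact K.nonneg _
    · exact le_rfl
  supp p hp := by
    by_contra h
    exact hp ((fin_cI C G K).mem_toFinset.2 h)
  sum := sum_cI D hΓ K
  sg q p := sgi ν q.1 p.1.1.1
  sg_sq q p := by
    unfold sgi
    rw [← mul_pow, neg_one_mul, neg_neg, one_pow]

theorem fin_orb (hΓ : IsGeom Γ C) (F : Finset X) (x : X) : {g : Γ | g • x ∈ F}.Finite := by
  classical
  have h1 : {g : Γ | g • x ∈ F} = ⋃ y ∈ (F : Set X), {g : Γ | g • x = y} := by
    ext g
    simp only [Set.mem_ofPred_eq, Set.mem_iUnion, Finset.mem_coe, exists_prop, exists_eq_right']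
  rw [h1]
  refine F.finite_toSet.biUnion fun y _ => ?_
  by_cases h : ∃ g0 : Γ, g0 • x = y
  · obtain ⟨g0, hg0⟩ := h
    refine Set.Finite.of_injOn (f := fun g : Γ => g0⁻¹ * g) (t := {g : Γ | g • x = x}) ?_ ?_
      (hΓ.proper x)
    · intro g hg
      show (g0⁻¹ * g) • x = x
      have hg' : g • x = y := hg
      rw [mul_smul, hg', ← hg0, inv_smul_smul]
    · intro g _ g' _ hh
      exact mul_left_cancel hh
  · have h2 : {g : Γ | g • x = y} = ∅ := by
      ext g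
      simp only [Set.mem_ofPred_eq, Set.mem_empty_iff_false, iff_false]
      exact fun hg => h ⟨g, hg⟩
    rw [h2]
    exact Set.finite_empty

theorem ncard_orb (F : Finset X) (h : Γ) (x : X) :
    Set.ncard {g : Γ | g • h • x ∈ F} = Set.ncard {g : Γ | g • x ∈ F} := by
  have h1 : {g : Γ | g • x ∈ F} = (fun g => g * h) '' {g : Γ | g • h • x ∈ F} := by
    ext g
    constructor
    · intro hg
      refine ⟨g * h⁻¹, ?_, inv_mul_cancel_right g h⟩
      show (g * h⁻¹) • h • x ∈ F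
      rw [smul_smul, inv_mul_cancel_right]
      exact hg
    · rintro ⟨g', hg', rfl⟩
      show (g' * h) • x ∈ F
      rw [mul_smul]
      exact hg'
  rw [h1, Set.ncard_image_of_injective _ (mul_left_injective h)]

/-- cutoff functions exist: if `F` meets all orbits put `c x = 1 / #{g | g x ∈ F}` for `x ∈ F` -/
theorem exists_cut (hΓ : IsGeom Γ C) : Nonempty (Cut Γ X) := by
  classical
  obtain ⟨F, hF⟩ := hΓ.cocompact
  let N : X → ℝ := fun x => (Set.ncard {g : Γ | g • x ∈ F} : ℝ)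
  have hN : ∀ (h : Γ) x, N (h • x) = N x := fun h x => by
    show ((Set.ncard {g : Γ | g • h • x ∈ F} : ℕ) : ℝ) = _
    rw [ncard_orb]
  have hpos : ∀ x, N x ≠ 0 := fun x => by
    obtain ⟨g, hg⟩ := hF x
    have h1 : Set.ncard {g : Γ | g • x ∈ F} ≠ 0 := by
      rw [Ne, Set.ncard_eq_zero (fin_orb hΓ F x)]
      exact fun h => Set.notMem_empty g (h ▸ hg)
    exact Nat.cast_ne_zero.2 h1
  refine ⟨{ F := F, c := fun x => if x ∈ F then (N x)⁻¹ else 0, nonneg := ?_, supp := ?_,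
            sum := ?_ }⟩
  · intro x
    split_ifs
    · exact inv_nonneg.2 (Nat.cast_nonneg _)
    · exact le_rfl
  · intro x hx
    exact if_neg hx
  · intro x
    have h2 : HasSum (fun g : Γ => if g • x ∈ F then (N (g • x))⁻¹ else 0)
        (∑ g ∈ (fin_orb hΓ F x).toFinset, if g • x ∈ F then (N (g • x))⁻¹ else 0) :=
      hasSum_sum_of_ne_finset_zero fun g hg => by
        rw [if_neg]
        intro h
        exact hg ((fin_orb hΓ F x).mem_toFinset.2 h)
    have h3 : (∑ g ∈ (fin_orb hΓ F x).toFinset, if g • x ∈ F then (N (g • x))⁻¹ else 0) =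
        (1 : ℝ) := by
      rw [Finset.sum_congr rfl (g := fun _ => (N x)⁻¹), Finset.sum_const, nsmul_eq_mul,
        ← Set.ncard_eq_toFinset_card _ (fin_orb hΓ F x)]
      · exact mul_inv_cancel₀ (hpos x)
      · intro g hg
        have hg' : g • x ∈ F := (fin_orb hΓ F x).mem_toFinset.1 hg
        rw [if_pos hg', hN]
    rw [h3] at h2
    exact h2

theorem exists_card (hΓ : IsGeom Γ C) : ∃ N, ∀ x, (C.lab x).card ≤ N := by
  classical
  obtain ⟨F, hF⟩ := hΓ.cocompact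
  refine ⟨F.sup fun x => (C.lab x).card, fun x => ?_⟩
  obtain ⟨g, hg⟩ := hF x
  have h1 : C.lab (g • x) = g • C.lab x := by
    ext v
    rw [Finset.mem_smul_finset]
    constructor
    · intro hv
      refine ⟨g⁻¹ • v, ?_, smul_inv_smul g v⟩
      rw [← hΓ.lab g, smul_inv_smul]
      exact hv
    · rintro ⟨u, hu, rfl⟩
      exact (hΓ.lab g u x).2 hu
  have h2 : (C.lab x).card = (C.lab (g • x)).card := by
    rw [h1, Finset.card_smul_finset]
  rw [h2]
  exact Finset.le_sup (f := fun x => (C.lab x).card) hg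

end Pool.Agent.H19.LI

end

section

/-!
# Project LI: the twisted chains are closed and invariant

`isClosed_Ch`: the coordinates are continuous. `inv_Ch`: `(U (γ, u) f) (γ σ, γ x, u g (j γ)⁻¹) = ± f (σ, x, g)`.
-/

set_option autoImplicit false

open Finset
open scoped Pointwise

namespace Pool.Agent.H19.LI

open Pool.Agent.H19.Cub Pool.Agent.H4.Singer

variable {V X : Type} [DecidableEq V] {C : CubeComplex V X} {Γ G : Type} [Group Γ]
  [MulAction Γ V] [MulAction Γ X] [Group G]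

theorem hh76_cont_ap {I : Type} (k : I) : Continuous fun f : L2 I => f k :=
  (lp.evalCLM (𝕜 := ℂ) (fun _ : I => ℂ) 2 k).continuous

theorem hh76_cont_ev {κ : Type} (σ : Finset V) (x : X) (k : κ) :
    Continuous fun f : L2 (Jx C × κ) => ev f σ x k := by
  by_cases h : σ ⊆ C.lab x
  · simp only [ev_pos _ h]
    exact hh76_cont_ap _
  · simp only [ev_neg _ h]
    exact continuous_const

theorem hh76_closed_imp {I : Type} (k : I) (P : Prop) : IsClosed {f : L2 I | f k ≠ 0 → P} := by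
  by_cases h : P
  · have e : {f : L2 I | f k ≠ 0 → P} = Set.univ := by
      ext f
      exact ⟨fun _ => trivial, fun _ _ => h⟩
    rw [e]
    exact isClosed_univ
  · have e : {f : L2 I | f k ≠ 0 → P} = {f | f k = (0 : ℂ)} := by
      ext f
      constructor
      · intro hf
        by_contra h0
        exact h (hf h0)
      · intro hf h0
        exact absurd hf h0
    rw [e]
    exact isClosed_eq (hh76_cont_ap k) continuous_const

theorem isClosed_Ch (D : GD C Γ G) (T : ℂ) (i : ℕ) :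
    IsClosed (Ch D T i : Set (L2 (Jx C × G))) := by
  have e : (Ch D T i : Set (L2 (Jx C × G))) =
      {f | ∀ p g, f (p, g * D.z) = - f (p, g)} ∩
      ({f | ∀ p g, f (p, g) ≠ 0 → C.graph.IsClique (p.1.1 : Set V) ∧ p.1.1.card = i} ∩
      {f | ∀ σ x, σ ⊆ C.lab x → C.graph.IsClique (σ : Set V) → ∀ v ∈ σ, ∀ g,
        2 * T * ev f σ (C.nb v x) g =
          - (Np D (ev f σ x) v g + T ^ 2 * Nm D (ev f σ x) v g)}) := by
    ext f
    rfl
  rw [e]
  refine IsClosed.inter ?_ (IsClosed.inter ?_ ?_)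
  · simp only [Set.ofPred_forall]
    refine isClosed_iInter fun p => isClosed_iInter fun g => ?_
    exact isClosed_eq (hh76_cont_ap _) (hh76_cont_ap _).neg
  · simp only [Set.ofPred_forall]
    refine isClosed_iInter fun p => isClosed_iInter fun g => ?_
    exact hh76_closed_imp (p, g) _
  · simp only [Set.ofPred_forall]
    refine isClosed_iInter fun σ => isClosed_iInter fun x => isClosed_iInter fun _ =>
      isClosed_iInter fun _ => isClosed_iInter fun v => isClosed_iInter fun _ =>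
      isClosed_iInter fun g => ?_
    unfold Np Nm
    refine isClosed_eq (continuous_const.mul (hh76_cont_ev _ _ _)) ?_
    exact (((hh76_cont_ev _ _ _).add (continuous_const.mul (hh76_cont_ev _ _ _))).add
      (continuous_const.mul
        ((hh76_cont_ev _ _ _).sub (continuous_const.mul (hh76_cont_ev _ _ _))))).neg

theorem hh76_ev_U (D : GD C Γ G) (hΓ : IsGeom Γ C) (K : Cut Γ X) (ν : V → ℕ) (q : Γ × G)
    (f : L2 (Jx C × G)) (σ : Finset V) (x : X) (g : G) :
    ev ((dimD D hΓ K ν).U q f) (q.1 • σ) (q.1 • x) (q.2 * g * (D.j q.1)⁻¹) =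
      (sgi ν q.1 σ : ℂ) * ev f σ x g := by
  by_cases h : σ ⊆ C.lab x
  · rw [ev_pos _ (smul_sub hΓ q.1 h), ev_pos _ h]
    exact (dimD D hΓ K ν).U_smul q f (⟨(σ, x), h⟩, g)
  · rw [ev_neg _ h, ev_neg, mul_zero]
    intro h'
    exact h fun v hv => (hΓ.lab q.1 v x).1 (h' (Finset.smul_mem_smul_finset hv))

theorem hh76_sgi_sq (ν : V → ℕ) (g : Γ) (σ : Finset V) : sgi ν g σ * sgi ν g σ = 1 := by
  unfold sgi
  rw [← mul_pow, neg_one_mul, neg_neg, one_pow]

theorem hh76_rel (D : GD C Γ G) (hΓ : IsGeom Γ C) {T : ℂ} {i : ℕ} {f f' : L2 (Jx C × G)}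
    (γ : Γ) (u : G) (s : Finset V → ℤ)
    (h : ∀ σ x g, ev f' (γ • σ) (γ • x) (u * g * (D.j γ)⁻¹) = (s σ : ℂ) * ev f σ x g)
    (hf : f ∈ Ch D T i) : f' ∈ Ch D T i := by
  have h' : ∀ σ x g, ev f' σ x g =
      (s (γ⁻¹ • σ) : ℂ) * ev f (γ⁻¹ • σ) (γ⁻¹ • x) (u⁻¹ * g * D.j γ) := by
    intro σ x g
    have h1 := h (γ⁻¹ • σ) (γ⁻¹ • x) (u⁻¹ * g * D.j γ)
    rwa [smul_inv_smul, smul_inv_smul,
      show u * (u⁻¹ * g * D.j γ) * (D.j γ)⁻¹ = g by group] at h1
  obtain ⟨h1, h2, h3⟩ := hf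
  have h1' : ∀ σ x g, ev f σ x (g * D.z) = - ev f σ x g := by
    intro σ x g
    by_cases hσ : σ ⊆ C.lab x
    · rw [ev_pos _ hσ, ev_pos _ hσ]
      exact h1 _ _
    · rw [ev_neg _ hσ, ev_neg _ hσ, neg_zero]
  have h2' : ∀ σ x g, ev f σ x g ≠ 0 → C.graph.IsClique (σ : Set V) ∧ σ.card = i := by
    intro σ x g hne
    by_cases hσ : σ ⊆ C.lab x
    · rw [ev_pos _ hσ] at hne
      exact h2 _ _ hne
    · exact absurd (ev_neg f hσ g) hne
  refine ⟨fun p g => ?_, fun p g hne => ?_, fun σ x hσ hc v hv g => ?_⟩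
  · obtain ⟨⟨σ, x⟩, hp⟩ := p
    rw [← ev_pos f' hp, ← ev_pos f' hp, h', h',
      show u⁻¹ * (g * D.z) * D.j γ = (u⁻¹ * g * D.j γ) * D.z by
        rw [mul_assoc, mul_assoc, D.zj, ← mul_assoc, ← mul_assoc], h1']
    ring
  · obtain ⟨⟨σ, x⟩, hp⟩ := p
    rw [← ev_pos f' hp, h'] at hne
    obtain ⟨hc, hk⟩ := h2' _ _ _ (right_ne_zero_of_mul hne)
    refine ⟨?_, ?_⟩
    · intro a ha b hb hab
      have ha' : γ⁻¹ • a ∈ ((γ⁻¹ • σ : Finset V) : Set V) :=
        Finset.mem_coe.2 (Finset.smul_mem_smul_finset (Finset.mem_coe.1 ha))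
      have hb' : γ⁻¹ • b ∈ ((γ⁻¹ • σ : Finset V) : Set V) :=
        Finset.mem_coe.2 (Finset.smul_mem_smul_finset (Finset.mem_coe.1 hb))
      have hab' : γ⁻¹ • a ≠ γ⁻¹ • b := fun e => hab (MulAction.injective γ⁻¹ e)
      exact (hΓ.graph γ⁻¹ a b).1 (hc ha' hb' hab')
    · rwa [Finset.card_smul_finset] at hk
  · have hv' : γ⁻¹ • v ∈ γ⁻¹ • σ := Finset.smul_mem_smul_finset hv
    have hσ' : γ⁻¹ • σ ⊆ C.lab (γ⁻¹ • x) := smul_sub hΓ γ⁻¹ hσ
    have hc' : C.graph.IsClique ((γ⁻¹ • σ : Finset V) : Set V) := by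
      intro a ha b hb hab
      obtain ⟨a', ha', rfl⟩ := Finset.mem_smul_finset.1 (Finset.mem_coe.1 ha)
      obtain ⟨b', hb', rfl⟩ := Finset.mem_smul_finset.1 (Finset.mem_coe.1 hb)
      exact (hΓ.graph γ⁻¹ a' b').2 (hc (Finset.mem_coe.2 ha') (Finset.mem_coe.2 hb')
        fun e => hab (by rw [e]))
    have e3 := h3 _ _ hσ' hc' _ hv' (u⁻¹ * g * D.j γ)
    rw [hΓ.nb γ⁻¹ v x (hσ hv)] at e3
    have eR : u⁻¹ * (g * D.R v) * D.j γ = u⁻¹ * g * D.j γ * D.R (γ⁻¹ • v) := by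
      rw [mul_assoc (u⁻¹ * g), D.jR, smul_inv_smul]
      group
    have eB : u⁻¹ * (g * D.B v) * D.j γ = u⁻¹ * g * D.j γ * D.B (γ⁻¹ • v) := by
      rw [mul_assoc (u⁻¹ * g), D.jB, smul_inv_smul]
      group
    simp only [Np, Nm] at e3 ⊢
    rw [h', h' σ x (g * D.R v), h' σ x (g * D.B v), eR, eB]
    linear_combination (s (γ⁻¹ • σ) : ℂ) * e3

theorem inv_Ch (D : GD C Γ G) (hΓ : IsGeom Γ C) (K : Cut Γ X) (ν : V → ℕ) (T : ℂ) (i : ℕ) :
    (dimD D hΓ K ν).Inv (Ch D T i) := by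
  intro q f
  constructor
  · intro hf
    exact hh76_rel D hΓ q.1 q.2 (sgi ν q.1) (hh76_ev_U D hΓ K ν q f) hf
  · intro hf
    refine hh76_rel D hΓ q.1⁻¹ q.2⁻¹ (fun σ => sgi ν q.1 (q.1⁻¹ • σ)) ?_ hf
    intro σ x g
    have h := hh76_ev_U D hΓ K ν q f (q.1⁻¹ • σ) (q.1⁻¹ • x) (q.2⁻¹ * g * (D.j q.1⁻¹)⁻¹)
    rw [smul_inv_smul, smul_inv_smul, map_inv, inv_inv,
      show q.2 * (q.2⁻¹ * g * D.j q.1) * (D.j q.1)⁻¹ = g by group] at h
    rw [map_inv, inv_inv, h, ← mul_assoc, sgn_mul (hh76_sgi_sq ν q.1 _), one_mul]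

end Pool.Agent.H19.LI

end

section

/-!
# Project LI: the twisted chains are closed and invariant, the boundary is equivariant

`isClosed_Ch`: the coordinates are continuous. `inv_Ch`: `(U (γ, u) f) (γ σ, γ x, u g (j γ)⁻¹) = ± f (σ, x, g)`; use
`jR`, `jB`, `zj`. `eqv_bd`: `sv ν (γ v) (γ τ) * sgi ν γ (insert v τ) = sv ν v τ * sgi ν γ τ` for `v ∉ τ`.
-/

set_option autoImplicit false
set_option linter.unusedSectionVars false

open Finset
open scoped Pointwise

namespace Pool.Agent.H19.LI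

open Pool.Agent.H19.Cub Pool.Agent.H4.Singer

variable {V X : Type} [DecidableEq V] {C : CubeComplex V X} {Γ G : Type} [Group Γ]
  [MulAction Γ V] [MulAction Γ X] [Group G]

private theorem hh3_sv (ν : V → ℕ) (v : V) (τ : Finset V) :
    sv ν v τ = ∏ u ∈ τ, if ν u < ν v then (-1 : ℤ) else 1 := by
  unfold sv
  rw [Finset.prod_ite, Finset.prod_const, Finset.prod_const_one, mul_one]

private theorem hh3_sgi (ν : V → ℕ) (g : Γ) (σ : Finset V) :
    sgi ν g σ = ∏ a ∈ σ, ∏ b ∈ σ,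
      if ν a < ν b ∧ ν (g • b) < ν (g • a) then (-1 : ℤ) else 1 := by
  unfold sgi
  rw [← Finset.prod_product' σ σ fun a b =>
      if ν a < ν b ∧ ν (g • b) < ν (g • a) then (-1 : ℤ) else 1,
    Finset.prod_ite, Finset.prod_const, Finset.prod_const_one, mul_one]

/-- the signs -/
theorem sgi_insert (ν : V → ℕ) (hν : Function.Injective ν) (g : Γ) (v : V) (τ : Finset V)
    (hv : v ∉ τ) :
    sv ν (g • v) (g • τ) * sgi ν g (insert v τ) = sv ν v τ * sgi ν g τ := by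
  have h1 : sv ν (g • v) (g • τ) = ∏ u ∈ τ, if ν (g • u) < ν (g • v) then (-1 : ℤ) else 1 := by
    rw [hh3_sv]
    show ∏ u ∈ τ.image (g • ·), _ = _
    rw [Finset.prod_image fun a _ b _ h => MulAction.injective g h]
  rw [h1, hh3_sgi, hh3_sgi ν g τ, hh3_sv, Finset.prod_insert hv, Finset.prod_insert hv]
  simp only [Finset.prod_insert hv]
  rw [Finset.prod_mul_distrib, if_neg (fun h => lt_irrefl _ h.1), one_mul, ← mul_assoc,
    ← mul_assoc, ← Finset.prod_mul_distrib, ← Finset.prod_mul_distrib]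
  congr 1
  refine Finset.prod_congr rfl fun u hu => ?_
  have huv : u ≠ v := fun h => hv (h ▸ hu)
  have h2 : ν u ≠ ν v := fun h => huv (hν h)
  have h3 : ν (g • u) ≠ ν (g • v) := fun h => huv (MulAction.injective g (hν h))
  rcases lt_or_gt_of_ne h2 with h4 | h4 <;> rcases lt_or_gt_of_ne h3 with h5 | h5 <;>
    simp [h4, h5, not_lt.2 h4.le, not_lt.2 h5.le]

/-- the boundary operator is equivariant -/
theorem eqv_bd (D : GD C Γ G) (hΓ : IsGeom Γ C) (K : Cut Γ X) (ν : V → ℕ)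
    (hν : Function.Injective ν) (d : L2 (Jx C × G) →L[ℂ] L2 (Jx C × G)) (hd : IsBd ν d) :
    Eqv (dimD D hΓ K ν) (dimD D hΓ K ν) d := by
  intro q f
  have hU := hh76_ev_U D hΓ K ν q
  have key : ∀ τ x g, τ ⊆ C.lab x →
      ev (d ((dimD D hΓ K ν).U q f)) (q.1 • τ) (q.1 • x) (q.2 * g * (D.j q.1)⁻¹) =
        ev ((dimD D hΓ K ν).U q (d f)) (q.1 • τ) (q.1 • x) (q.2 * g * (D.j q.1)⁻¹) := by
    intro τ x g hτ
    have hlab : C.lab (q.1 • x) \ (q.1 • τ) = (C.lab x \ τ).image (q.1 • ·) := by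
      ext v
      rw [Finset.mem_sdiff, Finset.mem_image]
      constructor
      · rintro ⟨h1, h2⟩
        refine ⟨q.1⁻¹ • v, Finset.mem_sdiff.2 ⟨?_, fun h => h2 ?_⟩, smul_inv_smul _ _⟩
        · rw [← hΓ.lab q.1, smul_inv_smul]
          exact h1
        · have h3 := Finset.smul_mem_smul_finset (a := q.1) h
          rwa [smul_inv_smul] at h3
      · rintro ⟨u, hu, rfl⟩
        rw [Finset.mem_sdiff] at hu
        refine ⟨(hΓ.lab q.1 u x).2 hu.1, fun h => hu.2 ?_⟩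
        exact (Finset.smul_mem_smul_finset_iff q.1).1 h
    rw [hd, if_pos (smul_sub hΓ q.1 hτ), hU, hd, if_pos hτ, hlab,
      Finset.sum_image fun a _ b _ h => MulAction.injective q.1 h, Finset.mul_sum]
    refine Finset.sum_congr rfl fun v hv => ?_
    have h1 : insert (q.1 • v) (q.1 • τ) = q.1 • insert v τ := by
      rw [Finset.smul_finset_insert]
    have h2 := sgi_insert ν hν q.1 v τ (Finset.mem_sdiff.1 hv).2
    have h3 : ((sv ν (q.1 • v) (q.1 • τ) : ℤ) : ℂ) * (sgi ν q.1 (insert v τ) : ℂ) =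
        (sv ν v τ : ℂ) * (sgi ν q.1 τ : ℂ) := by exact_mod_cast h2
    show (sv ν (q.1 • v) (q.1 • τ) : ℂ) * ev ((dimD D hΓ K ν).U q f)
      (insert (q.1 • v) (q.1 • τ)) (q.1 • x) (q.2 * g * (D.j q.1)⁻¹) = _
    rw [h1, hU, ← mul_assoc, h3]
    ring
  refine lp.ext (funext fun p => ?_)
  obtain ⟨⟨⟨τ, x⟩, hτ⟩, g⟩ := p
  have h1 : q.1⁻¹ • τ ⊆ C.lab (q.1⁻¹ • x) := smul_sub hΓ q.1⁻¹ hτ
  have h2 := key _ _ (q.2⁻¹ * g * D.j q.1) h1
  rw [smul_inv_smul, smul_inv_smul,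
    show q.2 * (q.2⁻¹ * g * D.j q.1) * (D.j q.1)⁻¹ = g by group,
    ev_pos _ hτ, ev_pos _ hτ] at h2
  exact h2

end Pool.Agent.H19.LI

end

section

/-!
# Project LI: concrete semicontinuity
-/

set_option autoImplicit false

open Finset

namespace Pool.Agent.H19.LI

open Pool.Agent.H19.Cub Pool.Agent.H4.Singer

variable {V X : Type} [DecidableEq V] {C : CubeComplex V X} {Γ G : Type} [Group Γ]
  [MulAction Γ V] [Group G]

/-- `ev` as a linear map -/
noncomputable def evL {κ : Type} (σ : Finset V) (x : X) (k : κ) : L2 (Jx C × κ) →ₗ[ℂ] ℂ where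
  toFun f := ev f σ x k
  map_add' f f' := ev_add f f' σ x k
  map_smul' c f := ev_smul c f σ x k

theorem ev_sum {κ : Type} {n : ℕ} (c : Fin n → ℂ) (f : Fin n → L2 (Jx C × κ)) (σ : Finset V)
    (x : X) (k : κ) : ev (∑ j, c j • f j) σ x k = ∑ j, c j * ev (f j) σ x k := by
  show evL σ x k (∑ j, c j • f j) = ∑ j, c j * evL σ x k (f j)
  rw [map_sum]
  refine sum_congr rfl fun j _ => ?_
  rw [map_smul, smul_eq_mul]

theorem ev_mk {κ : Type} (f : L2 (Jx C × κ)) (p : Jx C) (k : κ) :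
    f (p, k) = ev f p.1.1 p.1.2 k := (ev_pos f p.2 k).symm

/-- twisted cycles -/
noncomputable def Zy (D : GD C Γ G) (d : L2 (Jx C × G) →L[ℂ] L2 (Jx C × G)) (T : ℂ) (i : ℕ) :
    Submodule ℂ (L2 (Jx C × G)) :=
  Ch D T i ⊓ LinearMap.ker (d : L2 (Jx C × G) →ₗ[ℂ] L2 (Jx C × G))

theorem semi_mem (D : GD C Γ G) (d : L2 (Jx C × G) →L[ℂ] L2 (Jx C × G)) (i : ℕ) {k : ℕ}
    (T : Fin k → ℂ) (a : ℕ) (ha : a + 2 < k) (f : Fin k → L2 (Jx C × G))
    (hf : ∀ j, f j ∈ Zy D d (T j) i)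
    (h0 : ∀ b, a < b → b < k → ∑ j, T j ^ b • f j = 0) :
    ∑ j, T j ^ a • f j ∈ Zy D d 0 i := by
  refine ⟨⟨fun p g => ?_, fun p g h => ?_, fun σ x hσ hc v hv g => ?_⟩, ?_⟩
  · rw [ev_mk, ev_mk, ev_sum, ev_sum, ← sum_neg_distrib]
    refine sum_congr rfl fun j _ => ?_
    have h1 := (hf j).1.1 p g
    rw [ev_mk, ev_mk] at h1
    rw [h1, mul_neg]
  · rw [ev_mk, ev_sum] at h
    obtain ⟨j, -, hj⟩ := exists_ne_zero_of_sum_ne_zero h
    refine (hf j).1.2.1 p g ?_
    rw [ev_mk]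
    exact right_ne_zero_of_mul hj
  · have e1 : ∑ j, T j ^ a * (2 * T j * ev (f j) σ (C.nb v x) g +
        (Np D (ev (f j) σ x) v g + T j ^ 2 * Nm D (ev (f j) σ x) v g)) = 0 := by
      refine sum_eq_zero fun j _ => ?_
      rw [(hf j).1.2.2 σ x hσ hc v hv g]
      ring
    have e2 : ∀ b, ∀ σ' x' g', a < b → b < k → ∑ j, T j ^ b * ev (f j) σ' x' g' = 0 := by
      intro b σ' x' g' hb hb'
      rw [← ev_sum, h0 b hb hb', ev_zero]
    have e3 : Np D (ev (∑ j, T j ^ a • f j) σ x) v g = ∑ j, T j ^ a * Np D (ev (f j) σ x) v g := by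
      simp only [Np, ev_sum, mul_add, sum_add_distrib, mul_sum]
      congr 1
      refine sum_congr rfl fun j _ => ?_
      ring
    have e4 : ∑ j, T j ^ (a + 2) * Nm D (ev (f j) σ x) v g = 0 := by
      have h1 := e2 (a + 2) σ x (g * D.R v) (by omega) ha
      have h2 := e2 (a + 2) σ x (g * D.B v) (by omega) ha
      have h3 : ∑ j, T j ^ (a + 2) * Nm D (ev (f j) σ x) v g =
          ∑ j, T j ^ (a + 2) * ev (f j) σ x (g * D.R v) -
            Complex.I * ∑ j, T j ^ (a + 2) * ev (f j) σ x (g * D.B v) := by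
        rw [mul_sum, ← sum_sub_distrib]
        refine sum_congr rfl fun j _ => ?_
        unfold Nm
        ring
      rw [h3, h1, h2, mul_zero, sub_zero]
    have e5 := e2 (a + 1) σ (C.nb v x) g (by omega) (by omega)
    have e6 : ∑ j, T j ^ a * (2 * T j * ev (f j) σ (C.nb v x) g +
        (Np D (ev (f j) σ x) v g + T j ^ 2 * Nm D (ev (f j) σ x) v g)) =
        2 * ∑ j, T j ^ (a + 1) * ev (f j) σ (C.nb v x) g +
          (∑ j, T j ^ a * Np D (ev (f j) σ x) v g +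
            ∑ j, T j ^ (a + 2) * Nm D (ev (f j) σ x) v g) := by
      rw [mul_sum, ← sum_add_distrib, ← sum_add_distrib]
      refine sum_congr rfl fun j _ => ?_
      ring
    rw [e6, e5, e4, ← e3] at e1
    linear_combination e1
  · show d (∑ j, T j ^ a • f j) = 0
    rw [map_sum]
    refine sum_eq_zero fun j _ => ?_
    have hd : d (f j) = 0 := (hf j).2
    rw [map_smul, hd, smul_zero]

end Pool.Agent.H19.LI

end
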