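import Pool.Agent.H71.TSG.H19.LI.DimCh2
import Pool.Agent.H71.TSG.H37.TM.StarC
import Pool.Agent.H71.TSG.M33
import Pool.Agent.H71.TSG.M44

/-! The parts of this file: H19.LI.DimCh, H37.TM.StarB, H37.TM.StarD, S9.M.Aab, S9.M.AabN, S9.MStk. -/

section

/-!
# Project LI: the dimension of the chain spaces

Let `p = (σ, x)` with `σ` a clique with `i` elements. On the vectors `f` with `f (p, g z) = - f (p, g)` which are
supported on the pairs `(σ, y)` (`σ ⊆ lab y`) let `J v` (`v ∈ σ`) be the involution `f ↦ - r_v(T) f (nb v ·)` if `|T| = 1`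
(`r_v(T) = T⁻¹ N⁺ + T N⁻`), and `J v = - S v`, `S v = i R v B v`, if `T = 0` (`N⁺ = R (1 + S) / 2`, so
`N⁺ m = 0` iff `S m = - m`). These are commuting selfadjoint unitary involutions and the chains supported on
`σ` are their common fixed vectors. For `A ⊆ σ` let `P_A` be the projection onto the common fixed vectors of the
`J v`, `v ∈ A`; then `P_{A ∪ v} = (1 + J v) / 2 * P_A`. The operator `L = S v` (if `|T| = 1`) or `L = R v` (if
`T = 0`) is, up to a phase, right multiplication by an element of `G`; it anticommutes with `J v` and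
commutes with `J u`, `u ≠ v`, so `L* (J v P_A) L = - J v P_A`; as `J v P_A` commutes with the left
multiplications all its diagonal coefficients at `(σ, x, ·)` agree, hence they are 0. So the diagonal coefficients of
`P_A` are `2 ^ (-|A|) / 2`.
-/

set_option autoImplicit false

open Finset

namespace Pool.Agent.H19.LI

open Pool.Agent.H19.Cub Pool.Agent.H4.Singer

variable {V X : Type} [DecidableEq V] {C : CubeComplex V X} {Γ G : Type} [Group Γ]
  [MulAction Γ V] [MulAction Γ X] [Group G]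

open Classical in
theorem norm_proj_Ch (D : GD C Γ G) (T : ℂ) (hT : T = 0 ∨ ‖T‖ = 1) (i : ℕ) (p : Jx C) (g : G) :
    ‖(Ch D T i).topologicalClosure.starProjection (ee (p, g))‖ ^ 2 =
      if C.graph.IsClique (p.1.1 : Set V) ∧ p.1.1.card = i then (1 / 2 : ℝ) ^ (i + 1) else 0 :=
  DimCh_main D T hT i p g

/-- the dimension does not depend on `T` -/
theorem dm_Ch (D : GD C Γ G) (hΓ : IsGeom Γ C) (K : Cut Γ X) (ν : V → ℕ) (T : ℂ) (hT : ‖T‖ = 1)
    (i : ℕ) : (dimD D hΓ K ν).dm (Ch D T i) = (dimD D hΓ K ν).dm (Ch D 0 i) := by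
  unfold Dm.dm
  refine sum_congr rfl fun s _ => ?_
  obtain ⟨p, g⟩ := s
  rw [norm_proj_Ch D T (Or.inr hT), norm_proj_Ch D 0 (Or.inl rfl)]

end Pool.Agent.H19.LI

end

section

/-!
# Project TM: the relation on the manifold
-/

set_option autoImplicit false
set_option linter.unusedSectionVars false

open Finset Pointwise

namespace Pool.Agent.H37.TM

open Pool.Agent.H19.Cub Pool.Agent.H77.SX

variable {V X U Γ P K : Type} [DecidableEq V] [DecidableEq U] [Group Γ] [MulAction Γ U]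
  {Q : CubeComplex V X} {x₀ : X} [MulAction Γ (Q.Cover x₀)] {bit : X → V → ZMod 2}
  [Group P] [Field K] [Algebra (ZMod 2) K] {g : V → P} {t : V → P → K}
  {M B : Set (Finset U)} {n : ℕ} {ht : U → ℕ}

theorem al_add (x y : Finset U × Finset U →₀ ZMod 2) (τ : Finset U) :
    al (x + y) τ = al x τ + al y τ := by
  unfold al
  rw [← sum_add_distrib]
  rfl

theorem al_zero (τ : Finset U) : al (0 : Finset U × Finset U →₀ ZMod 2) τ = 0 := by
  unfold al
  simp

theorem al_smul' (c : ZMod 2) (x : Finset U × Finset U →₀ ZMod 2) (τ : Finset U) :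
    al (c • x) τ = c * al x τ := by
  unfold al
  rw [mul_sum]
  rfl

/-- `al` of a linear combination -/
theorem al_lin {A : Type} (F : A → (Finset U × Finset U →₀ ZMod 2)) (x : A →₀ ZMod 2)
    (τ : Finset U) : al (lin F x) τ = x.sum fun a c => c * al (F a) τ := by
  classical
  unfold lin
  rw [Finsupp.linearCombination_apply]
  induction x using Finsupp.induction with
  | zero => simp [al_zero]
  | single_add a b f ha hb ih =>
    rw [Finsupp.sum_add_index' (by intro a; simp) (by intro a b c; rw [add_smul]), al_add, ih,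
      Finsupp.sum_add_index' (by intro a; simp) (by intro a b c; rw [add_mul]),
      Finsupp.sum_single_index (by simp), Finsupp.sum_single_index (by simp), al_smul']

theorem powersetCard_image_erase {τ : Finset U} {n : ℕ} (h : τ.card = n + 1) :
    τ.powersetCard n = τ.image fun v => τ.erase v := by
  ext r
  rw [mem_powersetCard, mem_image]
  constructor
  · rintro ⟨h1, h2⟩
    have h3 : (τ \ r).card = 1 := by
      rw [card_sdiff_of_subset h1]
      omega
    obtain ⟨v, hv⟩ := card_eq_one.1 h3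
    have hv' : v ∈ τ \ r := by
      rw [hv]
      exact mem_singleton_self v
    refine ⟨v, (mem_sdiff.1 hv').1, ?_⟩
    ext w
    rw [mem_erase]
    constructor
    · rintro ⟨h4, h5⟩
      by_contra h6
      have h7 : w ∈ τ \ r := mem_sdiff.2 ⟨h5, h6⟩
      rw [hv, mem_singleton] at h7
      exact h4 h7
    · intro h4
      refine ⟨?_, h1 h4⟩
      rintro rfl
      exact (mem_sdiff.1 hv').2 h4
  · rintro ⟨v, hv, rfl⟩
    refine ⟨erase_subset v τ, ?_⟩
    rw [card_erase_of_mem hv]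
    omega

end Pool.Agent.H37.TM

end

section

/-!
# Project TM: evaluation of the two sides
-/

set_option autoImplicit false
set_option linter.unusedSectionVars false

open Finset Pointwise

namespace Pool.Agent.H37.TM

open Pool.Agent.H19.Cub Pool.Agent.H77.SX

variable {V X U Γ P K : Type} [DecidableEq V] [DecidableEq U] [Group Γ] [MulAction Γ U]
  {Q : CubeComplex V X} {x₀ : X} [MulAction Γ (Q.Cover x₀)] {bit : X → V → ZMod 2}
  [Group P] [Field K] [Algebra (ZMod 2) K] {g : V → P} {t : V → P → K}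

variable {M B : Set (Finset U)} {n : ℕ} {ht : U → ℕ}

/-! #### evaluation of the map to the tuples -/

/-- the value of the map to the tuples -/
theorem lam_eval {d : ℕ} {y : Finset U × Finset U →₀ ZMod 2} (hy : y ∈ TN M B n (d + 1))
    (F : List U → K) {S : Finset (Finset U)} (hS : ∀ e, y e ≠ 0 → e.2 ∈ S) :
    lin F (lin (lamE M n ht) y) = ∑ τ ∈ S, al y τ • lin F (lamT M n ht τ) := by
  classical
  have hcell : ∀ e, y e ≠ 0 → e ∈ TCell M B n (d + 1) := fun e he =>
    (Finsupp.mem_supported _ _).1 hy (Finsupp.mem_support_iff.2 he)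
  rw [← lin_lin]
  have h1 : lin (fun c => lin F (lamE M n ht c)) y =
      ∑ e ∈ y.support, y e • lin F (lamE M n ht e) := by
    unfold lin
    rw [Finsupp.linearCombination_apply]
    rfl
  rw [h1]
  have h2 : ∑ e ∈ y.support, y e • lin F (lamE M n ht e) =
      ∑ e ∈ (S.biUnion fun τ => τ.powerset) ×ˢ S, y e • lin F (lamE M n ht e) := by
    refine sum_subset (fun e he => ?_) fun e _ he => ?_
    · have he' := Finsupp.mem_support_iff.1 he
      exact mem_product.2 ⟨mem_biUnion.2 ⟨e.2, hS e he', mem_powerset.2 (hcell e he').2.1⟩, hS e he'⟩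
    · rw [Finsupp.notMem_support_iff.1 he, zero_smul]
  rw [h2, sum_product_right]
  refine sum_congr rfl fun τ hτ => ?_
  have h3 : ∑ σ ∈ S.biUnion (fun τ => τ.powerset), y (σ, τ) • lin F (lamE M n ht (σ, τ)) =
      ∑ σ ∈ τ.image (fun v => ({v} : Finset U)), y (σ, τ) • lin F (lamE M n ht (σ, τ)) := by
    refine (sum_subset (fun σ hσ => ?_) fun σ _ hσ => ?_).symm
    · obtain ⟨v, hv, rfl⟩ := mem_image.1 hσ
      exact mem_biUnion.2 ⟨τ, hτ, mem_powerset.2 (singleton_subset_iff.2 hv)⟩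
    · by_cases h4 : y (σ, τ) = 0
      · rw [h4, zero_smul]
      · obtain ⟨h5, h6, -⟩ := hcell _ h4
        have h7 : 1 < σ.card := by
          by_contra h8
          have h9 : σ.card = 1 := by
            have := card_pos.2 h5
            dsimp only at this
            omega
          obtain ⟨v, rfl⟩ := card_eq_one.1 h9
          exact hσ (mem_image.2 ⟨v, h6 (mem_singleton_self v), rfl⟩)
        rw [lamE_two h7, map_zero, smul_zero]
  rw [h3, sum_image (fun v _ w _ h => singleton_injective h)]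
  unfold al
  rw [Finset.sum_smul]
  refine sum_congr rfl fun v _ => ?_
  rw [lamE_one (card_singleton v)]

theorem lamT_eval {d : ℕ} {τ : Finset U} (hτ : τ.card + d = n + 1) (F : List U → K) :
    lin F (lamT M n ht τ) = open Classical in if ∀ u ∈ τ, d ≤ ht u then
      ∑ T ∈ cofs M τ (n + 1), F (frontL ht T d) else 0 := by
  classical
  have h1 : n + 1 - τ.card = d := by omega
  unfold lamT
  rw [h1]
  split_ifs with h
  · rw [map_sum]
    exact sum_congr rfl fun T _ => lin_single _ _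
  · rw [map_zero]

/-- the final segments of the top simplices -/
theorem top_seg (hA : MAct Γ M B n ht) {d : ℕ} {T : Finset U} (hT : T ∈ M)
    (hc : T.card = n + 1) (hd : d ≤ n + 1) : (T.filter fun u => d ≤ ht u).card + d = n + 1 := by
  have hinj := hA.ht_inj T hT
  have himg : T.image ht = range (n + 1) := by
    refine eq_of_subset_of_card_le (fun i hi => ?_) ?_
    · obtain ⟨u, hu, rfl⟩ := mem_image.1 hi
      exact mem_range.2 (by have := hA.ht_le T hT u hu; omega)
    · rw [card_image_of_injOn hinj, hc, card_range]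
  have h2 : (T.filter fun u => d ≤ ht u).image ht = (range (n + 1)).filter fun i => d ≤ i := by
    rw [← himg]
    ext i
    simp only [mem_image, mem_filter]
    constructor
    · rintro ⟨u, ⟨h3, h4⟩, rfl⟩
      exact ⟨⟨u, h3, rfl⟩, h4⟩
    · rintro ⟨⟨u, h3, rfl⟩, h4⟩
      exact ⟨u, ⟨h3, h4⟩, rfl⟩
  have h3 : ((range (n + 1)).filter fun i => d ≤ i).card + d = n + 1 := by
    have h4 : ((range (n + 1)).filter fun i => d ≤ i) = Ico d (n + 1) := by
      ext i
      simp only [mem_filter, mem_range, mem_Ico]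
      omega
    rw [h4, Nat.card_Ico]
    omega
  rw [← h3, ← h2, card_image_of_injOn (hinj.mono (by exact_mod_cast filter_subset _ T))]

/-- The columns of `al (Ψ e) τ` are finite and vanish outside `M` and in `B`. -/
theorem al_fin [Fintype V] [Fintype X] {d : ℕ} (hΓ : IsDeck Γ Q x₀) (hM : Psm M B n)
    (hA : MAct Γ M B n ht) {Ψ : Q.Cover x₀ × Finset V → (Finset U × Finset U →₀ ZMod 2)}
    (hΨ : IsPsi Γ Q x₀ bit M B n Ψ) :
    (∀ e ∈ Cell Q x₀ bit d, ∀ τ, al (Ψ e) τ ≠ 0 → τ ∈ M ∧ τ ∉ B ∧ τ.card + d = n + 1) ∧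
    (∀ e, {τ | al (Ψ e) τ ≠ 0}.Finite) ∧
    (∀ τ, {e | e ∈ Cell Q x₀ bit d ∧ al (Ψ e) τ ≠ 0}.Finite) ∧
    (∀ γ : Γ, ∀ e ∈ Cell Q x₀ bit d, ∀ τ, al (Ψ (γ • e)) (γ • τ) = al (Ψ e) τ) := by
  classical
  have h1 : ∀ e ∈ Cell Q x₀ bit d, ∀ τ, al (Ψ e) τ ≠ 0 → τ ∈ M ∧ τ ∉ B ∧ τ.card + d = n + 1 := by
    intro e he τ h
    obtain ⟨v, _, h2⟩ := exists_ne_zero_of_sum_ne_zero h
    have h3 := (Finsupp.mem_supported _ _).1 (hΨ.mem d e he) (Finsupp.mem_support_iff.2 h2)
    obtain ⟨-, -, h4, h5, h6⟩ := h3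
    refine ⟨h4, h5, ?_⟩
    dsimp only at h6
    rw [card_singleton] at h6
    omega
  have h2 : ∀ e, {τ | al (Ψ e) τ ≠ 0}.Finite := by
    intro e
    refine ((Ψ e).support.image Prod.snd).finite_toSet.subset fun τ hτ => ?_
    obtain ⟨v, _, h3⟩ := exists_ne_zero_of_sum_ne_zero hτ
    exact mem_coe.2 (mem_image.2 ⟨_, Finsupp.mem_support_iff.2 h3, rfl⟩)
  have h4 : ∀ γ : Γ, ∀ e ∈ Cell Q x₀ bit d, ∀ τ, al (Ψ (γ • e)) (γ • τ) = al (Ψ e) τ := by
    intro γ e he τ
    unfold al
    rw [hΨ.smul γ d e he, sum_smul]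
    refine sum_congr rfl fun v _ => ?_
    have h5 : (({γ • v} : Finset U), γ • τ) = γ • (({v} : Finset U), τ) := by
      rw [Prod.smul_mk, smul_finset_singleton]
    rw [h5]
    exact Finsupp.mapDomain_apply (MulAction.injective γ) _ _
  refine ⟨h1, h2, fun τ => ?_, h4⟩
  have h5 := finite_col (Γ := Γ) (M := ZMod 2)
    (fun (e : Q.Cover x₀ × Finset V) (τ : Finset U) =>
      if e ∈ Cell Q x₀ bit d then al (Ψ e) τ else 0)
    (fun γ e τ => by
      simp only [cell_smul hΓ]
      by_cases he : e ∈ Cell Q x₀ bit d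
      · rw [if_pos he, if_pos he, h4 γ e he]
      · rw [if_neg he, if_neg he])
    (fun e τ h γ hγ => by
      have he : e ∈ Cell Q x₀ bit d := by
        by_contra he
        exact h (if_neg he)
      rw [if_pos he] at h
      exact hA.free γ τ (h1 e he τ h).1 hγ)
    (fun e => (h2 e).subset fun τ h => by
      by_cases he : e ∈ Cell Q x₀ bit d
      · have h' : (if e ∈ Cell Q x₀ bit d then al (Ψ e) τ else 0) ≠ 0 := h
        rwa [if_pos he] at h'
      · exact absurd (if_neg he) h)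
    (by
      obtain ⟨F, hF⟩ := cu_fin (Γ := Γ) (Q := Q) (x₀ := x₀) hΓ
      exact ⟨F, fun e _ _ => hF e⟩) τ
  refine h5.subset fun e he => ?_
  show (if e ∈ Cell Q x₀ bit d then al (Ψ e) τ else 0) ≠ 0
  rw [if_pos he.1]
  exact he.2

theorem filter_smul' (hg : ∀ (γ : Γ) u, ht (γ • u) = ht u) (γ : Γ) (T : Finset U) (d : ℕ) :
    (γ • T).filter (fun u => d ≤ ht u) = γ • T.filter fun u => d ≤ ht u := by
  ext w
  obtain ⟨u, rfl⟩ : ∃ u, γ • u = w := ⟨γ⁻¹ • w, smul_inv_smul γ w⟩
  rw [mem_filter, mem_smul_iff', mem_smul_iff', mem_filter, hg]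

/-- squares of sums in characteristic two -/
theorem sq_sum_two [CharP K 2] {ι : Type} (E : Finset ι) (c : ι → ZMod 2) (x : ι → K) :
    (∑ e ∈ E, c e • x e) ^ 2 = ∑ e ∈ E, c e • x e ^ 2 := by
  classical
  induction E using Finset.induction_on with
  | empty => simp
  | insert a E ha ih =>
    rw [sum_insert ha, sum_insert ha, ← ih, CharTwo.add_sq]
    congr 1
    rw [smul_pow]
    congr 1
    generalize c a = b
    revert b
    decide

end Pool.Agent.H37.TM

end

section

/-!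
# S9, M block: cycles on the cover with plain coefficients and their dual cochains on the manifold

`z` is a function of the cubes of the cover with values in the field `K`; `Cyc` = the cycles (locally finite, no
equivariance); `aab` = the dual cochain on the manifold.
-/

set_option autoImplicit false
set_option linter.unusedSectionVars false

open Finset Pointwise

namespace Pool.Agent.S9.M

open Pool.Agent.H19.Cub Pool.Agent.H77.SX Pool.Agent.H37.TM

variable {V X U Γ K : Type} [DecidableEq V] [DecidableEq U] [Group Γ] [MulAction Γ U]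
  {Q : CubeComplex V X} {x₀ : X} [MulAction Γ (Q.Cover x₀)] {bit : X → V → ZMod 2}
  [Field K] [Algebra (ZMod 2) K] {M B : Set (Finset U)} {n : ℕ} {ht : U → ℕ}

/-- the cycles of degree `d` of the cover (functions of the pairs of a vertex and of the type of a cube) -/
structure Cyc [Fintype V] (Q : CubeComplex V X) (x₀ : X) (d : ℕ) (z : Q.Cover x₀ × Finset V → K) :
    Prop where
  valid : ∀ e, z e ≠ 0 → e.2 ⊆ Q.lab (Q.proj x₀ e.1) ∧ Q.graph.IsClique (e.2 : Set V) ∧
    e.2.card = d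
  nb : ∀ c σ, σ ⊆ Q.lab (Q.proj x₀ c) → ∀ v ∈ σ, z (Q.nbc x₀ v c, σ) = z (c, σ)
  bd : ∀ c κ, ∑ v ∈ κᶜ, z (c, insert v κ) = 0

theorem Cyc.sq [Fintype V] [CharP K 2] {d : ℕ} {z : Q.Cover x₀ × Finset V → K}
    (hz : Cyc Q x₀ d z) : Cyc Q x₀ d (fun e => z e ^ 2) where
  valid e h := hz.valid e fun h0 => h (by rw [h0]; exact zero_pow two_ne_zero)
  nb c σ hσ v hv := by
    show z (Q.nbc x₀ v c, σ) ^ 2 = z (c, σ) ^ 2
    rw [hz.nb c σ hσ v hv]
  bd c κ := by
    rw [← CharTwo.sum_sq, hz.bd c κ]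
    exact zero_pow two_ne_zero

open Classical in
/-- the dual cochain on the manifold -/
noncomputable def aab (Q : CubeComplex V X) (x₀ : X) (bit : X → V → ZMod 2) (d : ℕ)
    (Ψ : Q.Cover x₀ × Finset V → (Finset U × Finset U →₀ ZMod 2))
    (z : Q.Cover x₀ × Finset V → K) (τ : Finset U) : K :=
  ∑ᶠ e : Q.Cover x₀ × Finset V, if e ∈ Cell Q x₀ bit d then al (Ψ e) τ • z e else 0

/-- the value as a finite sum -/
theorem aab_eq {d : ℕ} {Ψ : Q.Cover x₀ × Finset V → (Finset U × Finset U →₀ ZMod 2)}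
    (z : Q.Cover x₀ × Finset V → K) {τ : Finset U} {S : Finset (Q.Cover x₀ × Finset V)}
    (hS : ∀ e, e ∈ S ↔ e ∈ Cell Q x₀ bit d ∧ al (Ψ e) τ ≠ 0) :
    aab Q x₀ bit d Ψ z τ = ∑ e ∈ S, al (Ψ e) τ • z e := by
  classical
  unfold aab
  rw [finsum_eq_sum_of_support_subset (s := S)]
  · exact sum_congr rfl fun e he => if_pos ((hS e).1 he).1
  · intro e he
    rw [Function.mem_support] at he
    by_cases hc : e ∈ Cell Q x₀ bit d
    · rw [if_pos hc] at he
      exact mem_coe.2 ((hS e).2 ⟨hc, fun h0 => he (by rw [h0, zero_smul])⟩)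
    · rw [if_neg hc] at he
      exact absurd rfl he

end Pool.Agent.S9.M

end

section

/-!
# S9, M block: the dual cochain of a function of the cubes with values in a module

`z` is a function of the cubes of the cover with values in a module `N` over the field of two elements; `aN Ψ z` is the
dual cochain on the manifold.
-/

set_option autoImplicit false
set_option linter.unusedSectionVars false

open Finset Pointwise

namespace Pool.Agent.S9.M

open Pool.Agent.H19.Cub Pool.Agent.H77.SX Pool.Agent.H37.TM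

variable {V X U Γ N N' : Type} [DecidableEq V] [DecidableEq U] [Group Γ] [MulAction Γ U]
  {Q : CubeComplex V X} {x₀ : X} [MulAction Γ (Q.Cover x₀)] {bit : X → V → ZMod 2}
  [AddCommGroup N] [Module (ZMod 2) N] [AddCommGroup N'] [Module (ZMod 2) N']
  {M B : Set (Finset U)} {n : ℕ} {ht : U → ℕ}

/-- the cycles of degree `d` of the cover with values in `N` (functions of the pairs of a vertex and of the type of a
cube) -/
structure CycN [Fintype V] (Q : CubeComplex V X) (x₀ : X) (d : ℕ) (z : Q.Cover x₀ × Finset V → N) :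
    Prop where
  valid : ∀ e, z e ≠ 0 → e.2 ⊆ Q.lab (Q.proj x₀ e.1) ∧ Q.graph.IsClique (e.2 : Set V) ∧
    e.2.card = d
  nb : ∀ c σ, σ ⊆ Q.lab (Q.proj x₀ c) → ∀ v ∈ σ, z (Q.nbc x₀ v c, σ) = z (c, σ)
  bd : ∀ c κ, ∑ v ∈ κᶜ, z (c, insert v κ) = 0

/-- an additive map is linear over the field of two elements -/
theorem map_smul_two (φ : N →+ N') (a : ZMod 2) (y : N) : φ (a • y) = a • φ y := by
  rcases (by decide : ∀ a : ZMod 2, a = 0 ∨ a = 1) a with rfl | rfl
  · rw [zero_smul, zero_smul, map_zero]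
  · rw [one_smul, one_smul]

open Classical in
/-- the dual cochain on the manifold -/
noncomputable def aN (Q : CubeComplex V X) (x₀ : X) (bit : X → V → ZMod 2) (d : ℕ)
    (Ψ : Q.Cover x₀ × Finset V → (Finset U × Finset U →₀ ZMod 2))
    (z : Q.Cover x₀ × Finset V → N) (τ : Finset U) : N :=
  ∑ᶠ e : Q.Cover x₀ × Finset V, if e ∈ Cell Q x₀ bit d then al (Ψ e) τ • z e else 0

/-- for the values in a field it is `aab` -/
theorem aN_eq_aab {K : Type} [Field K] [Algebra (ZMod 2) K] (d : ℕ)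
    (Ψ : Q.Cover x₀ × Finset V → (Finset U × Finset U →₀ ZMod 2))
    (z : Q.Cover x₀ × Finset V → K) : aN Q x₀ bit d Ψ z = aab Q x₀ bit d Ψ z := rfl

theorem aN_ne_zero {d : ℕ} {Ψ : Q.Cover x₀ × Finset V → (Finset U × Finset U →₀ ZMod 2)}
    (z : Q.Cover x₀ × Finset V → N) (τ : Finset U)
    (h : aN Q x₀ bit d Ψ z τ ≠ 0) : ∃ e ∈ Cell Q x₀ bit d, al (Ψ e) τ ≠ 0 := by
  classical
  by_contra hno
  push Not at hno
  apply h
  unfold aN
  refine finsum_eq_zero_of_forall_eq_zero fun e => ?_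
  by_cases hc : e ∈ Cell Q x₀ bit d
  · rw [if_pos hc, hno e hc, zero_smul]
  · rw [if_neg hc]

theorem aN_empty (d : ℕ) (Ψ : Q.Cover x₀ × Finset V → (Finset U × Finset U →₀ ZMod 2))
    (z : Q.Cover x₀ × Finset V → N) : aN Q x₀ bit d Ψ z ∅ = 0 := by
  unfold aN
  refine finsum_eq_zero_of_forall_eq_zero fun e => ?_
  unfold al
  rw [sum_empty, zero_smul, ite_self]

/-- the value as a finite sum -/
theorem aN_eq {d : ℕ} {Ψ : Q.Cover x₀ × Finset V → (Finset U × Finset U →₀ ZMod 2)}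
    (z : Q.Cover x₀ × Finset V → N) {τ : Finset U} {S : Finset (Q.Cover x₀ × Finset V)}
    (hS : ∀ e, e ∈ S ↔ e ∈ Cell Q x₀ bit d ∧ al (Ψ e) τ ≠ 0) :
    aN Q x₀ bit d Ψ z τ = ∑ e ∈ S, al (Ψ e) τ • z e := by
  classical
  unfold aN
  rw [finsum_eq_sum_of_support_subset (s := S)]
  · exact sum_congr rfl fun e he => if_pos ((hS e).1 he).1
  · intro e he
    rw [Function.mem_support] at he
    by_cases hc : e ∈ Cell Q x₀ bit d
    · rw [if_pos hc] at he
      exact mem_coe.2 ((hS e).2 ⟨hc, fun h0 => he (by rw [h0, zero_smul])⟩)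
    · rw [if_neg hc] at he
      exact absurd rfl he

section Act

variable [Fintype V] [Fintype X] {d : ℕ} (hΓ : IsDeck Γ Q x₀) (hM : Psm M B n)
  (hA : MAct Γ M B n ht) {Ψ : Q.Cover x₀ × Finset V → (Finset U × Finset U →₀ ZMod 2)}
  (hΨ : IsPsi Γ Q x₀ bit M B n Ψ)

include hΓ hM hA hΨ

/-- the dual cochain commutes with additive maps of the values -/
theorem aN_map (φ : N →+ N') (z : Q.Cover x₀ × Finset V → N) (τ : Finset U) :
    aN Q x₀ bit d Ψ (fun e => φ (z e)) τ = φ (aN Q x₀ bit d Ψ z τ) := by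
  classical
  have hcol := (al_fin (d := d) hΓ hM hA hΨ).2.2.1
  have hS : ∀ e, e ∈ (hcol τ).toFinset ↔ e ∈ Cell Q x₀ bit d ∧ al (Ψ e) τ ≠ 0 := fun e => by
    rw [Set.Finite.mem_toFinset]
    rfl
  rw [aN_eq _ hS, aN_eq _ hS, map_sum]
  exact sum_congr rfl fun e _ => (map_smul_two φ _ _).symm

/-- the dual cochain of the translate -/
theorem aN_smul {z : Q.Cover x₀ × Finset V → N} {γ : Γ} (φ : N →+ N)
    (hz : ∀ e, z (γ • e) = φ (z e)) (τ : Finset U) :
    aN Q x₀ bit d Ψ z (γ • τ) = φ (aN Q x₀ bit d Ψ z τ) := by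
  classical
  have heq := (al_fin (d := d) hΓ hM hA hΨ).2.2.2
  have h1 : aN Q x₀ bit d Ψ z (γ • τ) = aN Q x₀ bit d Ψ (fun e => φ (z e)) τ := by
    unfold aN
    rw [← finsum_comp_equiv (MulAction.toPerm γ)]
    refine finsum_congr fun e => ?_
    rw [MulAction.toPerm_apply]
    by_cases hc : e ∈ Cell Q x₀ bit d
    · rw [if_pos ((cell_smul hΓ γ e).2 hc), if_pos hc, heq γ e hc, hz]
    · rw [if_neg (fun h => hc ((cell_smul hΓ γ e).1 h)), if_neg hc]
  rw [h1, aN_map hΓ hM hA hΨ φ z τ]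

/-- the support of the dual cochain -/
theorem aN_rel (z : Q.Cover x₀ × Finset V → N) (τ : Finset U)
    (h : aN Q x₀ bit d Ψ z τ ≠ 0) : τ ∈ M ∧ τ ∉ B ∧ τ.card + d = n + 1 := by
  classical
  obtain ⟨hal1, -, -, -⟩ := al_fin (d := d) hΓ hM hA hΨ
  obtain ⟨e, he, h1⟩ := aN_ne_zero z τ h
  exact hal1 e he τ h1

/-- the dual cochain of a cycle is a cocycle -/
theorem aN_cob (hbit : IsBit Q bit) {z : Q.Cover x₀ × Finset V → N} (hz : CycN Q x₀ (d + 1) z)
    {τ : Finset U} (hτ : τ ∈ M) : ∑ v ∈ τ, aN Q x₀ bit (d + 1) Ψ z (τ.erase v) = 0 := by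
  classical
  obtain ⟨-, -, hcol, -⟩ := al_fin (d := d + 1) hΓ hM hA hΨ
  obtain ⟨-, -, hcol', -⟩ := al_fin (d := d) hΓ hM hA hΨ
  have hco := sum_cofaces (x₀ := x₀) (d := d) hbit z hz.valid hz.nb hz.bd
  set BS : Finset (Q.Cover x₀ × Finset V) := (hcol' τ).toFinset with hBS
  -- first step: one finite sum over the cubes
  have h1 : ∑ v ∈ τ, aN Q x₀ bit (d + 1) Ψ z (τ.erase v) =
      ∑ᶠ e : Q.Cover x₀ × Finset V, ∑ v ∈ τ,
        (if e ∈ Cell Q x₀ bit (d + 1) then al (Ψ e) (τ.erase v) • z e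
          else 0) := by
    rw [finsum_sum_comm]
    · unfold aN
      refine sum_congr rfl fun v _ => finsum_congr fun e => ?_
      split_ifs <;> rfl
    · intro v _
      refine (hcol (τ.erase v)).subset fun e he => ?_
      rw [Function.mem_support] at he
      by_cases hc : e ∈ Cell Q x₀ bit (d + 1)
      · rw [if_pos hc] at he
        exact ⟨hc, fun h0 => he (by rw [h0, zero_smul])⟩
      · rw [if_neg hc] at he
        exact absurd rfl he
  have h2 : ∀ e : Q.Cover x₀ × Finset V, (∑ v ∈ τ,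
        (if e ∈ Cell Q x₀ bit (d + 1) then al (Ψ e) (τ.erase v) • z e
          else 0)) = ∑ b ∈ BS, al (Ψ b) τ •
        (if e ∈ Cell Q x₀ bit (d + 1) then bdD Q x₀ e b • z e else 0) := by
    intro e
    by_cases hc : e ∈ Cell Q x₀ bit (d + 1)
    · simp only [if_pos hc]
      have h3 : ∑ v ∈ τ, al (Ψ e) (τ.erase v) = ∑ b ∈ BS, al (Ψ b) τ * bdD Q x₀ e b := by
        have h4 : cob (al (Ψ e)) τ = al (bdT M n (Ψ e)) τ := (al_bdT hM (hΨ.mem _ e hc) hτ).symm
        have h5 := hΨ.bd _ e hc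
        rw [if_neg (Nat.succ_ne_zero d), zero_add] at h5
        show cob (al (Ψ e)) τ = _
        rw [h4, h5, al_lin]
        have h6 : (bdD Q x₀ e).sum (fun a c => c * al (Ψ a) τ) =
            ∑ b ∈ (bdD Q x₀ e).support ∪ BS, bdD Q x₀ e b * al (Ψ b) τ := by
          refine sum_subset subset_union_left fun b _ hb => ?_
          show bdD Q x₀ e b * al (Ψ b) τ = 0
          rw [Finsupp.notMem_support_iff.1 hb, zero_mul]
        rw [h6]
        symm
        refine (sum_subset subset_union_right fun b _ hb => ?_).trans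
          (sum_congr rfl fun b _ => mul_comm _ _)
        by_cases h7 : bdD Q x₀ e b = 0
        · rw [h7, mul_zero]
        · have h8 := bdD_cell hbit hc b h7
          have h9 : al (Ψ b) τ = 0 := by
            by_contra h10
            exact hb ((Set.Finite.mem_toFinset _).2 ⟨h8, h10⟩)
          rw [h9, zero_mul]
      rw [← Finset.sum_smul, h3, Finset.sum_smul]
      exact sum_congr rfl fun b _ => mul_smul _ _ _
    · simp only [if_neg hc, sum_const_zero, smul_zero]
  rw [h1, finsum_congr h2, finsum_sum_comm]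
  · refine sum_eq_zero fun b hb => ?_
    obtain ⟨hb1, hb2⟩ := (Set.Finite.mem_toFinset _).1 hb
    obtain ⟨hf1, hf2⟩ := hco b hb1
    have h10 : ∑ᶠ e : Q.Cover x₀ × Finset V, al (Ψ b) τ •
        (if e ∈ Cell Q x₀ bit (d + 1) then bdD Q x₀ e b • z e else 0) =
        al (Ψ b) τ • ∑ᶠ e : Q.Cover x₀ × Finset V,
        (if e ∈ Cell Q x₀ bit (d + 1) then bdD Q x₀ e b • z e else 0) := by
      rcases (by decide : ∀ a : ZMod 2, a = 0 ∨ a = 1) (al (Ψ b) τ) with h | h
      · rw [h]
        simp only [zero_smul, finsum_zero]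
      · rw [h]
        simp only [one_smul]
    rw [h10]
    have h11 : ∑ᶠ e : Q.Cover x₀ × Finset V,
        (if e ∈ Cell Q x₀ bit (d + 1) then bdD Q x₀ e b • z e else 0) = 0 := by
      refine Eq.trans (finsum_congr fun e => ?_) hf2
      split_ifs <;> rfl
    rw [h11, smul_zero]
  · intro b hb
    obtain ⟨hb1, hb2⟩ := (Set.Finite.mem_toFinset _).1 hb
    refine (hco b hb1).1.subset fun e he => ?_
    rw [Function.mem_support] at he
    by_cases hc : e ∈ Cell Q x₀ bit (d + 1)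
    · rw [if_pos hc] at he
      exact ⟨hc, fun h0 => he (by rw [h0, zero_smul, smul_zero])⟩
    · rw [if_neg hc, smul_zero] at he
      exact absurd rfl he

/-- finitely many orbits of simplices of the support, for all `z` at once -/
theorem aN_fin (d : ℕ) : ∃ S : Finset (Finset U), ∀ (N : Type) (_ : AddCommGroup N)
    (_ : Module (ZMod 2) N) (z : Q.Cover x₀ × Finset V → N) (τ : Finset U),
    aN Q x₀ bit d Ψ z τ ≠ 0 → ∃ γ : Γ, γ • τ ∈ S := by
  classical
  obtain ⟨hal1, hal2, -, hal4⟩ := al_fin (d := d) hΓ hM hA hΨ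
  obtain ⟨S, hS⟩ := cu_fin (x₀ := x₀) hΓ
  refine ⟨S.biUnion fun e => (hal2 e).toFinset, fun N _ _ z τ h => ?_⟩
  obtain ⟨e, he, h11⟩ := aN_ne_zero z τ h
  obtain ⟨γ, hγ⟩ := hS e
  refine ⟨γ, mem_biUnion.2 ⟨γ • e, hγ, ?_⟩⟩
  rw [Set.Finite.mem_toFinset]
  show al (Ψ (γ • e)) (γ • τ) ≠ 0
  rwa [hal4 γ e he]

end Act

end Pool.Agent.S9.M

end

section

/-!
# Project S9, block M: integration over the top simplices modulo the group, Stokes
-/

set_option autoImplicit false
set_option linter.unusedSectionVars false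

open Finset Pointwise

namespace Pool.Agent.S9

open Pool.Agent.H37.TM

variable {U Γ : Type} [DecidableEq U] [Group Γ] [MulAction Γ U] {M B : Set (Finset U)} {n : ℕ}
  {ht : U → ℕ}

/-- the support is relative to the boundary and finite modulo the group -/
def SupC (Γ : Type) [Group Γ] [MulAction Γ U] (M B : Set (Finset U)) {A : Type} [Zero A]
    (w : Finset U → A) : Prop :=
  ∃ S : Finset (Finset U), ∀ τ, w τ ≠ 0 → ∃ τ' ⊆ τ, τ' ∈ M ∧ τ' ∉ B ∧ ∃ γ : Γ, γ • τ' ∈ S

theorem SupC.of_ne {A A' : Type} [Zero A] [Zero A'] {w : Finset U → A} (h : SupC Γ M B w)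
    {w' : Finset U → A'} (h' : ∀ τ, w' τ ≠ 0 → ∃ t ⊆ τ, w t ≠ 0) : SupC Γ M B w' := by
  obtain ⟨S, hS⟩ := h
  refine ⟨S, fun τ hτ => ?_⟩
  obtain ⟨t, ht1, ht2⟩ := h' τ hτ
  obtain ⟨τ', h1, h2⟩ := hS t ht2
  exact ⟨τ', h1.trans ht1, h2⟩

/-- the top simplices with nonzero value form finitely many orbits -/
theorem SupC.fin_top {A : Type} [Zero A] {w : Finset U → A} (hM : Psm M B n)
    (hA : MAct Γ M B n ht) (h : SupC Γ M B w) :
    ∃ F : Finset (Finset U), ∀ τ ∈ M, w τ ≠ 0 → ∃ γ : Γ, γ • τ ∈ F := by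
  classical
  obtain ⟨S, hS⟩ := h
  have hloc : ∀ r : Finset U, {τ | τ ∈ M ∧ r ⊆ τ ∧ r ∈ M}.Finite := by
    intro r
    by_cases hr : r ∈ M
    · exact (hM.locfin r hr).subset fun τ h => ⟨h.1, h.2.1⟩
    · exact Set.finite_empty.subset fun τ h => absurd h.2.2 hr
  refine ⟨S.biUnion fun r => (hloc r).toFinset, fun τ hτ hw => ?_⟩
  obtain ⟨τ', h1, h2, -, γ, hγ⟩ := hS τ hw
  refine ⟨γ, mem_biUnion.2 ⟨γ • τ', hγ, ?_⟩⟩
  rw [Set.Finite.mem_toFinset]
  exact ⟨hA.K_mem γ τ hτ, Finset.smul_finset_subset_smul_finset_iff.2 h1, hA.K_mem γ τ' h2⟩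

/-- **Stokes.** -/
theorem stokesR {Y : Type} [AddCommGroup Y] (h2 : ∀ y : Y, y + y = 0) (hM : Psm M B n)
    (hA : MAct Γ M B n ht) {R : Finset U → Y}
    (hR : ∀ (γ : Γ) (r : Finset U), Set.InjOn ht (r : Set U) → R (γ • r) = R r)
    (hS : SupC Γ M B R) :
    osum Γ (fun τ : Finset U => open Classical in
      if τ ∈ M ∧ τ.card = n + 1 then ∑ v ∈ τ, R (τ.erase v) else 0) = 0 := by
  classical
  let _ : Module (ZMod 2) Y := AddCommGroup.zmodModule (n := 2) fun y => by
    rw [two_nsmul]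
    exact h2 y
  have hMg : ∀ (γ : Γ) (τ : Finset U), γ • τ ∈ M ↔ τ ∈ M := by
    intro γ τ
    refine ⟨fun h => ?_, hA.K_mem γ τ⟩
    have h1 := hA.K_mem γ⁻¹ _ h
    rwa [inv_smul_smul] at h1
  have hk : ∀ τ r : Finset U, (if τ ∈ M ∧ τ.card = n + 1 ∧ r ⊆ τ ∧ r.card = n then R r else 0) ≠
      0 → (τ ∈ M ∧ τ.card = n + 1 ∧ r ⊆ τ ∧ r.card = n) ∧ R r ≠ 0 := by
    intro τ r h
    by_cases hc : τ ∈ M ∧ τ.card = n + 1 ∧ r ⊆ τ ∧ r.card = n
    · rw [if_pos hc] at h
      exact ⟨hc, h⟩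
    · rw [if_neg hc] at h
      exact absurd rfl h
  -- double counting
  have h4 : osum Γ (fun τ : Finset U => ∑ᶠ r : Finset U,
      if τ ∈ M ∧ τ.card = n + 1 ∧ r ⊆ τ ∧ r.card = n then R r else 0) =
      osum Γ (fun r : Finset U => ∑ᶠ τ : Finset U,
      if τ ∈ M ∧ τ.card = n + 1 ∧ r ⊆ τ ∧ r.card = n then R r else 0) := by
    refine osum_comm (Γ := Γ) (fun τ r : Finset U =>
      if τ ∈ M ∧ τ.card = n + 1 ∧ r ⊆ τ ∧ r.card = n then R r else 0) ?_ ?_ ?_ ?_ ?_
    · intro γ τ r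
      show (if γ • τ ∈ M ∧ (γ • τ).card = n + 1 ∧ γ • r ⊆ γ • τ ∧ (γ • r).card = n
        then R (γ • r) else 0) = _
      have hiff : (γ • τ ∈ M ∧ (γ • τ).card = n + 1 ∧ γ • r ⊆ γ • τ ∧ (γ • r).card = n) ↔
          (τ ∈ M ∧ τ.card = n + 1 ∧ r ⊆ τ ∧ r.card = n) := by
        rw [hMg, Finset.card_smul_finset, Finset.card_smul_finset,
          Finset.smul_finset_subset_smul_finset_iff]
      by_cases hc : τ ∈ M ∧ τ.card = n + 1 ∧ r ⊆ τ ∧ r.card = n
      · rw [if_pos hc, if_pos (hiff.2 hc)]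
        exact hR γ r ((hA.ht_inj τ hc.1).mono (by exact_mod_cast hc.2.2.1))
      · rw [if_neg hc, if_neg (fun h => hc (hiff.1 h))]
    · intro τ r h γ hγ
      exact hA.free γ τ (hk τ r h).1.1 hγ
    · intro τ r h γ hγ
      obtain ⟨⟨h5, h6, h7, h8⟩, h9⟩ := hk τ r h
      obtain ⟨S, hS'⟩ := hS
      obtain ⟨τ', h10, h11, -⟩ := hS' r h9
      exact hA.free γ r (hM.down τ h5 r h7 ((hM.ne τ' h11).mono h10)) hγ
    · intro τ
      refine (τ.powerset.finite_toSet).subset fun r h => ?_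
      exact mem_coe.2 (mem_powerset.2 (hk τ r h).1.2.2.1)
    · have hS2 : SupC Γ M B (fun τ : Finset U => ∑ r ∈ τ.powerset, if R r ≠ 0 then (1 : ℕ) else 0) := by
        refine hS.of_ne fun τ hτ => ?_
        obtain ⟨r, hr, h5⟩ := exists_ne_zero_of_sum_ne_zero hτ
        refine ⟨r, mem_powerset.1 hr, fun h0 => h5 (if_neg (not_not.2 h0))⟩
      obtain ⟨F, hF⟩ := hS2.fin_top hM hA
      refine ⟨F, fun τ r h => hF τ (hk τ r h).1.1 fun h0 => ?_⟩
      have h5 := (sum_eq_zero_iff.1 h0) r (mem_powerset.2 (hk τ r h).1.2.2.1)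
      rw [if_pos (hk τ r h).2] at h5
      exact one_ne_zero h5
  -- the left side
  have h5 : (fun τ : Finset U =>
      if τ ∈ M ∧ τ.card = n + 1 then ∑ v ∈ τ, R (τ.erase v) else 0) =
      fun τ : Finset U => ∑ᶠ r : Finset U,
      if τ ∈ M ∧ τ.card = n + 1 ∧ r ⊆ τ ∧ r.card = n then R r else 0 := by
    funext τ
    by_cases hτ : τ ∈ M ∧ τ.card = n + 1
    · rw [if_pos hτ]
      have h6 : ∀ r : Finset U, (if τ ∈ M ∧ τ.card = n + 1 ∧ r ⊆ τ ∧ r.card = n then R r else 0) =
          if r ∈ τ.powersetCard n then R r else 0 := by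
        intro r
        have h7 : (τ ∈ M ∧ τ.card = n + 1 ∧ r ⊆ τ ∧ r.card = n) ↔ r ∈ τ.powersetCard n := by
          rw [mem_powersetCard]
          exact ⟨fun h => h.2.2, fun h => ⟨hτ.1, hτ.2, h⟩⟩
        simp only [h7]
      rw [finsum_congr h6, finsum_eq_sum_of_support_subset (s := τ.powersetCard n) _ (by
        intro r hr
        rw [Function.mem_support] at hr
        by_contra h8
        exact hr (if_neg h8)), sum_congr rfl fun r hr => if_pos hr]
      rw [powersetCard_image_erase hτ.2, sum_image (Finset.erase_injOn τ)]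
    · rw [if_neg hτ]
      exact (finsum_eq_zero_of_forall_eq_zero fun r => if_neg fun h => hτ ⟨h.1, h.2.1⟩).symm
  -- the right side
  have h6 : (fun r : Finset U => ∑ᶠ τ : Finset U,
      if τ ∈ M ∧ τ.card = n + 1 ∧ r ⊆ τ ∧ r.card = n then R r else 0) = fun _ => 0 := by
    funext r
    by_cases hr : R r = 0
    · refine finsum_eq_zero_of_forall_eq_zero fun τ => ?_
      rw [hr, ite_self]
    · obtain ⟨S, hS'⟩ := hS
      obtain ⟨r', h10, h12, h13, -⟩ := hS' r hr
      by_cases hrM : r ∈ M ∧ r.card = n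
      · have hB : r ∉ B := fun h => h13 (hM.bd_down r h r' h10 (hM.ne r' h12))
        have h14 : ∀ τ : Finset U,
            (if τ ∈ M ∧ τ.card = n + 1 ∧ r ⊆ τ ∧ r.card = n then R r else 0) =
            if τ ∈ cofs M r (n + 1) then R r else 0 := by
          intro τ
          have h15 : (τ ∈ M ∧ τ.card = n + 1 ∧ r ⊆ τ ∧ r.card = n) ↔ τ ∈ cofs M r (n + 1) := by
            rw [mem_cofsP hM hrM.1]
            exact ⟨fun h => ⟨h.1, h.2.2.1, h.2.1⟩, fun h => ⟨h.1, h.2.2, h.2.1, hrM.2⟩⟩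
          simp only [h15]
        rw [finsum_congr h14, finsum_eq_sum_of_support_subset (s := cofs M r (n + 1)) _ (by
          intro τ hτ
          rw [Function.mem_support] at hτ
          by_contra h8
          exact hτ (if_neg h8)), sum_congr rfl fun τ hτ => if_pos hτ, sum_const,
          ← Nat.cast_smul_eq_nsmul (ZMod 2), even_cofs hM hrM.1 hB hrM.2, zero_smul]
      · refine finsum_eq_zero_of_forall_eq_zero fun τ => if_neg fun h => hrM ⟨?_, h.2.2.2⟩
        exact hM.down τ h.1 r h.2.2.1 (hM.ne r' h12 |>.mono h10)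
  have h7 : (fun τ : Finset U => open Classical in
      if τ ∈ M ∧ τ.card = n + 1 then ∑ v ∈ τ, R (τ.erase v) else 0) =
      fun τ : Finset U => ∑ᶠ r : Finset U,
      if τ ∈ M ∧ τ.card = n + 1 ∧ r ⊆ τ ∧ r.card = n then R r else 0 := by
    rw [← h5]
  rw [h7, h4, h6]
  unfold osum
  exact finsum_zero

/-! ### the integral -/

variable {C : Type} [MulAction Γ C] {K : Type} [Field K] {E : Type} [AddCommGroup E] [Module K E]

/-- equivariant functions of tuples -/
def TEq (ρ : Γ →* Module.End K E) (x : List C → E) : Prop :=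
  ∀ (γ : Γ) (L : List C), x (L.map (γ • ·)) = ρ γ (x L)

open Classical in
/-- the integral of the product of the function `x` of the tuples of `k + 1` elements and the cochain `w` -/
noncomputable def ITM (Γ : Type) [Group Γ] [MulAction Γ U] (M : Set (Finset U)) (n : ℕ) (ht : U → ℕ)
    (f : U → C) (k : ℕ) (x : List C → E) (w : Finset U → (E →ₗ[K] K)) : K :=
  osum Γ fun τ : Finset U =>
    if τ ∈ M ∧ τ.card = n + 1 then gP ht k (fun L => x (L.map f)) w τ else 0

/-- equivariant functions with values in the dual of `ρ` -/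
def DEq (ρ : Γ →* Module.End K E) (w : Finset U → (E →ₗ[K] K)) : Prop :=
  ∀ (γ : Γ) (τ : Finset U) (e : E), w (γ • τ) (ρ γ e) = w τ e

theorem gP_inv {ρ : Γ →* Module.End K E} (hA : MAct Γ M B n ht) {f : U → C} (hf : IsVMap Γ f)
    {x : List C → E} (hx : TEq ρ x) {w : Finset U → (E →ₗ[K] K)} (hw : DEq ρ w) (k : ℕ) (γ : Γ)
    (τ : Finset U) : gP ht k (fun L => x (L.map f)) w (γ • τ) = gP ht k (fun L => x (L.map f)) w τ := by
  refine gP_smul (fun u => hA.ht_smul γ u) (ρ γ) k (fun l => ?_) fun t _ e => hw γ t e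
  rw [← hx γ, List.map_map, List.map_map]
  exact congrArg x (List.map_congr_left fun u _ => hf γ u)

theorem gP_sup {w : Finset U → (E →ₗ[K] K)} (hS : SupC Γ M B w) (k : ℕ) (x : List U → E) :
    SupC Γ M B (gP ht k x w) := hS.of_ne fun _ h => gP_ne_zero k h

/-- **Stokes for the integral.** -/
theorem ITM_stokes [CharP K 2] (hM : Psm M B n) (hA : MAct Γ M B n ht) {f : U → C}
    (hf : IsVMap Γ f) {ρ : Γ →* Module.End K E} {y : List C → E} (hy : TEq ρ y)
    {w : Finset U → (E →ₗ[K] K)} (hw : DEq ρ w) (hS : SupC Γ M B w) {k : ℕ} (hk : k + 1 ≤ n) :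
    ITM Γ M n ht f (k + 1) (dT y) w = ITM Γ M n ht f k y (cobM w) := by
  classical
  have h1 := stokesR (Γ := Γ) CharTwo.add_self_eq_zero hM hA
    (R := gP ht k (fun L => y (L.map f)) w)
    (fun γ r _ => gP_inv hA hf hy hw k γ r) (gP_sup hS k _)
  have hdT : ∀ L : List U, dT (fun L => y (L.map f)) L = dT y (L.map f) := fun L => dT_map f L y
  have hS' : SupC Γ M B (cobM w) := hS.of_ne fun τ h => by
    obtain ⟨v, _, hv⟩ := exists_ne_zero_of_sum_ne_zero h
    exact ⟨_, erase_subset v τ, hv⟩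
  have h2 : osum Γ (fun τ : Finset U => if τ ∈ M ∧ τ.card = n + 1 then
      ∑ v ∈ τ, gP ht k (fun L => y (L.map f)) w (τ.erase v) else 0) =
      osum Γ (fun τ : Finset U => (if τ ∈ M ∧ τ.card = n + 1 then
        gP ht (k + 1) (fun L => dT y (L.map f)) w τ else 0) +
        if τ ∈ M ∧ τ.card = n + 1 then gP ht k (fun L => y (L.map f)) (cobM w) τ else 0) := by
    congr 1
    funext τ
    split_ifs with hτ
    · have h3 := cob_gP (ht := ht) k (fun L => y (L.map f)) w (hA.ht_inj τ hτ.1) (by omega)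
      rw [show (fun L => dT y (L.map f)) = dT (fun L => y (L.map f)) from
        funext fun L => (hdT L).symm]
      exact h3
    · rw [add_zero]
  obtain ⟨F, hF⟩ := (gP_sup (ht := ht) hS (k + 1) fun L => dT y (L.map f)).fin_top hM hA
  obtain ⟨F', hF'⟩ := (gP_sup (ht := ht) hS' k fun L => y (L.map f)).fin_top hM hA
  have hne : ∀ {k : ℕ} {x : List C → E} {w : Finset U → (E →ₗ[K] K)} {τ : Finset U},
      (if τ ∈ M ∧ τ.card = n + 1 then
      gP ht k (fun L => x (L.map f)) w τ else 0) ≠ 0 → τ ∈ M ∧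
        gP ht k (fun L => x (L.map f)) w τ ≠ 0 := by
    intro k x w τ h
    by_cases hc : τ ∈ M ∧ τ.card = n + 1
    · rw [if_pos hc] at h
      exact ⟨hc.1, h⟩
    · rw [if_neg hc] at h
      exact absurd rfl h
  have h4 : osum Γ (fun τ : Finset U => if τ ∈ M ∧ τ.card = n + 1 then
      ∑ v ∈ τ, gP ht k (fun L => y (L.map f)) w (τ.erase v) else 0) = 0 := by
    refine Eq.trans ?_ h1
    congr! 1
  rw [h4, osum_add _ _ ⟨F, fun τ h => hF τ (hne h).1 (hne h).2⟩
    ⟨F', fun τ h => hF' τ (hne h).1 (hne h).2⟩] at h2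
  have h5 := CharTwo.add_self_eq_zero (ITM Γ M n ht f (k + 1) (dT y) w)
  have h6 : ITM Γ M n ht f (k + 1) (dT y) w + ITM Γ M n ht f k y (cobM w) = 0 := h2.symm
  exact add_left_cancel (h5.trans h6.symm)

end Pool.Agent.S9

end
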