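import Pool.Agent.H71.TSG.M23
import Pool.Agent.H71.TSG.M24

/-! The parts of this file: S9.E.HK, S9.E.Lim, S10.EA.BaseC, S9.E.BaseA, S9.E.Red, S10.EA.Box, S10.EA.Grow, S10.EA.Two. -/

section

/-!
# S9, block E: ranks in the abelian tower (Hilbert–Kunz limit)

`RI I` is the group algebra over `ZMod 2` of the lattice `I → ℤ`, `RK I k` the one of `I → ZMod (2 ^ k)`.
`rank_lim`: for a matrix `M` over `RI I` the rank of the reduction over `RK I k`, as a matrix over `ZMod 2`, is
at least `(rank M - ε) * 2 ^ (k * |I|)` for large `k`.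
-/

set_option autoImplicit false

open Finset

namespace Pool.Agent.S9.HK

instance RI_isDomain (I : Type) : IsDomain (RI I) := by
  have : NoZeroDivisors (RI I) := inferInstance
  exact NoZeroDivisors.to_isDomain _

section Box

variable {I : Type}

/-- the box with the corner `a` and the side `n` -/
private def Box (a : I → ℤ) (n : ℕ) : Set (I → ℤ) := {u | ∀ i, a i ≤ u i ∧ u i < a i + n}

private theorem redZ_injOn (a : I → ℤ) (k : ℕ) : Set.InjOn (redZ I k) (Box a (2 ^ k)) := by
  intro u hu v hv h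
  funext i
  have h1 : ((u i : ℤ) : ZMod (2 ^ k)) = ((v i : ℤ) : ZMod (2 ^ k)) := congrFun h i
  rw [ZMod.intCast_eq_intCast_iff] at h1
  have h2 := (Int.modEq_iff_dvd.1 h1)
  obtain ⟨h3, h4⟩ := hu i
  obtain ⟨h5, h6⟩ := hv i
  have h7 : v i - u i = 0 := by
    refine Int.eq_zero_of_abs_lt_dvd h2 ?_
    rw [abs_lt]
    constructor <;> linarith
  linarith

private theorem red_injOn (a : I → ℤ) (k : ℕ) {x : RI I} (hx : (x.coeff.support : Set (I → ℤ)) ⊆ Box a (2 ^ k))
    (h : redR I k x = 0) : x = 0 := by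
  have h1 : Finsupp.mapDomain (redZ I k) x.coeff = Finsupp.mapDomain (redZ I k) (0 : (I → ℤ) →₀ ZMod 2) := by
    rw [Finsupp.mapDomain_zero]
    exact congrArg AddMonoidAlgebra.coeff h
  have h2 := Finsupp.mapDomain_injOn (M := ZMod 2) (Box a (2 ^ k)) (redZ_injOn a k) hx (by simp) h1
  exact AddMonoidAlgebra.coeff_eq_zero.1 h2

private theorem exists_box [Finite I] (f : RI I) : ∃ (a : I → ℤ) (c : ℕ),
    (f.coeff.support : Set (I → ℤ)) ⊆ Box a c := by
  classical
  have := Fintype.ofFinite I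
  have h1 : ∃ b : ℕ, ∀ u ∈ f.coeff.support, ∀ i, |u i| ≤ b := by
    refine ⟨∑ u ∈ f.coeff.support, ∑ i, (u i).natAbs, fun u hu i => ?_⟩
    have h2 : (u i).natAbs ≤ ∑ u ∈ f.coeff.support, ∑ i, (u i).natAbs :=
      (Finset.single_le_sum (f := fun i => (u i).natAbs) (fun _ _ => Nat.zero_le _) (mem_univ i)).trans
        (Finset.single_le_sum (f := fun u : I → ℤ => ∑ i, (u i).natAbs) (fun _ _ => Nat.zero_le _) hu)
    rw [Int.abs_eq_natAbs]
    exact_mod_cast h2
  obtain ⟨b, hb⟩ := h1
  refine ⟨fun _ => -b, 2 * b + 1, fun u hu i => ?_⟩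
  have h2 := abs_le.1 (hb u hu i)
  constructor
  · exact h2.1
  · push_cast
    linarith [h2.2]

/-- functions on the small box as elements of the group algebra -/
private noncomputable def emb (I : Type) [Finite I] (n : ℕ) : ((I → Fin n) → ZMod 2) →ₗ[ZMod 2] RI I :=
  (AddMonoidAlgebra.coeffLinearEquiv (ZMod 2)).symm.toLinearMap ∘ₗ
    Finsupp.lmapDomain (ZMod 2) (ZMod 2) (fun u : I → Fin n => fun i => ((u i : ℕ) : ℤ)) ∘ₗ
      (Finsupp.linearEquivFunOnFinite (ZMod 2) (ZMod 2) (I → Fin n)).symm.toLinearMap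

private theorem emb_inj [Finite I] (n : ℕ) : Function.Injective (emb I n) := by
  have h1 : Function.Injective (fun u : I → Fin n => fun i => ((u i : ℕ) : ℤ)) := by
    intro u v h
    funext i
    have h2 : ((u i : ℕ) : ℤ) = ((v i : ℕ) : ℤ) := congrFun h i
    exact Fin.ext (by exact_mod_cast h2)
  refine (AddMonoidAlgebra.coeffLinearEquiv (ZMod 2)).symm.injective.comp ?_
  exact (Finsupp.mapDomain_injective h1).comp
    (Finsupp.linearEquivFunOnFinite (ZMod 2) (ZMod 2) (I → Fin n)).symm.injective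

private theorem emb_supp [Finite I] (n : ℕ) (g : (I → Fin n) → ZMod 2) :
    ((emb I n g).coeff.support : Set (I → ℤ)) ⊆ Box 0 n := by
  classical
  intro u hu
  have h1 := Finsupp.mapDomain_support hu
  obtain ⟨v, -, rfl⟩ := Finset.mem_image.1 h1
  intro i
  refine ⟨?_, ?_⟩
  · change (0 : ℤ) ≤ ((v i : ℕ) : ℤ)
    exact_mod_cast Nat.zero_le _
  · rw [Pi.zero_apply, zero_add]
    change ((v i : ℕ) : ℤ) < n
    exact_mod_cast (v i).2

private theorem mul_supp (a : I → ℤ) {c n m : ℕ} (h : c + n ≤ m + 1) {f g : RI I}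
    (hf : (f.coeff.support : Set (I → ℤ)) ⊆ Box a c) (hg : (g.coeff.support : Set (I → ℤ)) ⊆ Box 0 n) :
    ((f * g).coeff.support : Set (I → ℤ)) ⊆ Box a m := by
  classical
  intro u hu
  have h1 := AddMonoidAlgebra.support_coeff_mul_subset f g hu
  obtain ⟨v, hv, w, hw, rfl⟩ := Finset.mem_add.1 h1
  intro i
  obtain ⟨h2, h3⟩ := hf hv i
  obtain ⟨h4, h5⟩ := hg hw i
  rw [Pi.zero_apply] at h4
  rw [Pi.zero_apply, zero_add] at h5
  rw [Pi.add_apply]
  have : (c : ℤ) + n ≤ m + 1 := by exact_mod_cast h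
  constructor <;> linarith

/-- multiplication by a fixed element and the reduction are injective on the small box -/
private theorem exists_inj [Finite I] {f : RI I} (hf : f ≠ 0) : ∃ c : ℕ, ∀ k n : ℕ, c + n ≤ 2 ^ k + 1 →
    ∀ g : (I → Fin n) → ZMod 2, redR I k (f * emb I n g) = 0 → g = 0 := by
  obtain ⟨a, c, hc⟩ := exists_box f
  refine ⟨c, fun k n h g hg => ?_⟩
  have h1 := red_injOn a k (x := f * emb I n g) (by
    have := mul_supp a (m := 2 ^ k) h hc (emb_supp n g)
    exact_mod_cast this) hg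
  have h2 := (mul_eq_zero.1 h1).resolve_left hf
  exact emb_inj n (by rw [h2, map_zero])

end Box

section Minor

/-- a nonzero minor -/
theorem exists_minor {F κ ι : Type} [Field F] [Fintype κ] [Fintype ι] (M : Matrix κ ι F) :
    ∃ (r : Fin M.rank → κ) (c : Fin M.rank → ι), (M.submatrix r c).det ≠ 0 := by
  classical
  have h1 : ∃ c : Fin M.rank → ι, LinearIndependent F (fun j => M.col (c j)) := by
    have h := Submodule.exists_fun_fin_finrank_span_eq F (Set.range M.col)
    rw [← Matrix.rank_eq_finrank_span_cols] at h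
    obtain ⟨f, hf1, -, hf3⟩ := h
    choose c hc using hf1
    refine ⟨c, ?_⟩
    have h2 : (fun j => M.col (c j)) = f := funext hc
    rw [h2]
    exact hf3
  obtain ⟨c, hc⟩ := h1
  have h2 : ((M.submatrix id c).transpose).rank = M.rank := by
    have h3 : LinearIndependent F ((M.submatrix id c).transpose).row := hc
    rw [h3.rank_matrix, Fintype.card_fin]
  have h4 : ∃ r : Fin M.rank → κ, LinearIndependent F (fun j => ((M.submatrix id c).transpose).col (r j)) := by
    have h := Submodule.exists_fun_fin_finrank_span_eq F (Set.range ((M.submatrix id c).transpose).col)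
    rw [← Matrix.rank_eq_finrank_span_cols, h2] at h
    obtain ⟨f, hf1, -, hf3⟩ := h
    choose r hr using hf1
    refine ⟨r, ?_⟩
    have h2 : (fun j => ((M.submatrix id c).transpose).col (r j)) = f := funext hr
    rw [h2]
    exact hf3
  obtain ⟨r, hr⟩ := h4
  refine ⟨r, c, ?_⟩
  have h5 : LinearIndependent F (M.submatrix r c).row := hr
  have h6 := Matrix.linearIndependent_rows_iff_isUnit.1 h5
  exact ((Matrix.isUnit_iff_isUnit_det _).1 h6).ne_zero

variable {R : Type} [CommRing R] {κ ι : Type} [Fintype κ] [Fintype ι]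

/-- the rank of a specialisation is at most the rank over the field of fractions -/
theorem rank_spec (K : Type) [Field K] [Algebra R K] [IsFractionRing R K] {F : Type} [Field F] (φ : R →+* F)
    (M : Matrix κ ι R) : (M.map φ).rank ≤ (M.map (algebraMap R K)).rank := by
  classical
  obtain ⟨r, c, h⟩ := exists_minor (M.map φ)
  have h1 : (M.submatrix r c).det ≠ 0 := by
    intro h0
    apply h
    rw [Matrix.submatrix_map, ← RingHom.mapMatrix_apply, ← RingHom.map_det, h0, map_zero]
  have h2 : ((M.map (algebraMap R K)).submatrix r c).det ≠ 0 := by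
    rw [Matrix.submatrix_map, ← RingHom.mapMatrix_apply, ← RingHom.map_det]
    intro h0
    exact h1 ((IsFractionRing.injective R K) (by rw [h0, map_zero]))
  have h3 := Matrix.rank_of_det_ne_zero h2
  rw [Fintype.card_fin] at h3
  rw [← h3]
  exact Matrix.rank_submatrix_le _ _ _

/-- injective specialisations do not change the rank -/
theorem rank_inj (K : Type) [Field K] [Algebra R K] [IsFractionRing R K] {F : Type} [Field F] {φ : R →+* F}
    (hφ : Function.Injective φ) (M : Matrix κ ι R) : (M.map φ).rank = (M.map (algebraMap R K)).rank := by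
  classical
  refine le_antisymm (rank_spec K φ M) ?_
  obtain ⟨r, c, h⟩ := exists_minor (M.map (algebraMap R K))
  have h1 : (M.submatrix r c).det ≠ 0 := by
    intro h0
    apply h
    rw [Matrix.submatrix_map, ← RingHom.mapMatrix_apply, ← RingHom.map_det, h0, map_zero]
  have h2 : ((M.map φ).submatrix r c).det ≠ 0 := by
    rw [Matrix.submatrix_map, ← RingHom.mapMatrix_apply, ← RingHom.map_det]
    intro h0
    exact h1 (hφ (by rw [h0, map_zero]))
  have h3 := Matrix.rank_of_det_ne_zero h2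
  rw [Fintype.card_fin] at h3
  rw [← h3]
  exact Matrix.rank_submatrix_le _ _ _

/-- a matrix of rank `ρ` over the field of fractions factors a nonzero multiple of the unit matrix of size `ρ` -/
theorem exists_factor [DecidableEq κ] [DecidableEq ι] (K : Type) [Field K] [Algebra R K] [IsFractionRing R K] (M : Matrix κ ι R) :
    ∃ (P : Matrix (Fin (M.map (algebraMap R K)).rank) κ R) (S : Matrix ι (Fin (M.map (algebraMap R K)).rank) R) (f : R),
      f ≠ 0 ∧ P * M * S = f • (1 : Matrix (Fin (M.map (algebraMap R K)).rank) (Fin (M.map (algebraMap R K)).rank) R) := by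
  classical
  obtain ⟨r, c, h⟩ := exists_minor (M.map (algebraMap R K))
  have h1 : (M.submatrix r c).det ≠ 0 := by
    intro h0
    apply h
    rw [Matrix.submatrix_map, ← RingHom.mapMatrix_apply, ← RingHom.map_det, h0, map_zero]
  refine ⟨(M.submatrix r c).adjugate * (1 : Matrix κ κ R).submatrix r id, (1 : Matrix ι ι R).submatrix id c,
    (M.submatrix r c).det, h1, ?_⟩
  rw [Matrix.mul_assoc, Matrix.mul_assoc]
  have h2 : (1 : Matrix κ κ R).submatrix r id * (M * (1 : Matrix ι ι R).submatrix id c) = M.submatrix r c := by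
    ext i j
    simp [Matrix.mul_apply, Matrix.one_apply]
  rw [h2, Matrix.adjugate_mul]

end Minor

section Rank

variable {I κ ι μ : Type} [Fintype I] [Fintype κ] [Fintype ι] [Fintype μ] [DecidableEq κ] [DecidableEq ι]
  [DecidableEq μ]

omit [Fintype I] in
theorem finite_RK [Finite I] (k : ℕ) : Finite (RK I k) := by
  have h1 : Finite ((I → ZMod (2 ^ k)) → ZMod 2) := inferInstance
  exact Finite.of_injective (fun x : RK I k => (x.coeff : (I → ZMod (2 ^ k)) → ZMod 2))
    fun x y h => AddMonoidAlgebra.coeff_injective (DFunLike.coe_injective h)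

/-- the linear map over `ZMod 2` of the reduction of a matrix -/
noncomputable def lk (k : ℕ) (M : Matrix κ ι (RI I)) : (ι → RK I k) →ₗ[ZMod 2] (κ → RK I k) :=
  (Matrix.mulVecLin (M.map (redR I k))).restrictScalars (ZMod 2)

omit [Fintype I] [Fintype κ] [DecidableEq κ] [DecidableEq ι] in
theorem lk_apply (k : ℕ) (M : Matrix κ ι (RI I)) (x : ι → RK I k) : lk k M x = (M.map (redR I k)).mulVec x := rfl

omit [Fintype I] [Fintype κ] [DecidableEq κ] [DecidableEq ι] [DecidableEq μ] in
theorem lk_mul (k : ℕ) (M : Matrix κ ι (RI I)) (N : Matrix ι μ (RI I)) : lk k (M * N) = lk k M ∘ₗ lk k N := by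
  refine LinearMap.ext fun x => ?_
  rw [LinearMap.comp_apply, lk_apply, lk_apply, lk_apply, Matrix.map_mul, Matrix.mulVec_mulVec]

theorem finrank_RK (k : ℕ) : Module.finrank (ZMod 2) (RK I k) = 2 ^ (k * Fintype.card I) := by
  classical
  have : Fintype (ZMod (2 ^ k)) := ZMod.fintype _
  rw [(AddMonoidAlgebra.coeffLinearEquiv (S := ZMod 2) (M := I → ZMod (2 ^ k)) (ZMod 2)).finrank_eq,
    Module.finrank_finsupp_self, Fintype.card_fun, ZMod.card, pow_mul]

/-- the rank of the reduction of a matrix over `ZMod 2` -/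
theorem le_rank (M : Matrix κ ι (RI I)) : ∃ c : ℕ, ∀ k n : ℕ, c + n ≤ 2 ^ k + 1 →
    (M.map (algebraMap (RI I) (KI I))).rank * n ^ Fintype.card I ≤
      Module.finrank (ZMod 2) (LinearMap.range (lk k M)) := by
  classical
  obtain ⟨P, S, f, hf, h⟩ := exists_factor (KI I) M
  obtain ⟨c, hc⟩ := exists_inj hf
  refine ⟨c, fun k n hn => ?_⟩
  have hfin : Finite (RK I k) := finite_RK k
  let ψ : ((I → Fin n) → ZMod 2) →+ RK I k :=
    (redR I k).toAddMonoidHom.comp ((AddMonoidHom.mulLeft f).comp (emb I n).toAddMonoidHom)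
  let Φ : (Fin (M.map (algebraMap (RI I) (KI I))).rank → (I → Fin n) → ZMod 2) →ₗ[ZMod 2]
      (Fin (M.map (algebraMap (RI I) (KI I))).rank → RK I k) :=
    LinearMap.pi fun j => (ψ.toZModLinearMap 2) ∘ₗ LinearMap.proj j
  have hΦ : ∀ g j, Φ g j = redR I k (f * emb I n (g j)) := fun _ _ => rfl
  have hinj : Function.Injective Φ := by
    rw [← LinearMap.ker_eq_bot, LinearMap.ker_eq_bot']
    intro g hg
    funext j
    refine hc k n hn (g j) ?_
    rw [← hΦ, hg, Pi.zero_apply]
  have hle : LinearMap.range Φ ≤ LinearMap.range (lk k (P * M * S)) := by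
    rintro _ ⟨g, rfl⟩
    refine ⟨fun j => redR I k (emb I n (g j)), ?_⟩
    funext j
    rw [h, lk_apply, hΦ, map_mul]
    rw [Matrix.mulVec, dotProduct, Finset.sum_eq_single j]
    · simp
    · intro i _ hij
      simp [Matrix.one_apply_ne (Ne.symm hij)]
    · intro h
      exact absurd (mem_univ j) h
  have h1 : Module.finrank (ZMod 2) (LinearMap.range Φ) =
      (M.map (algebraMap (RI I) (KI I))).rank * n ^ Fintype.card I := by
    rw [LinearMap.finrank_range_of_inj hinj, Module.finrank_pi_fintype]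
    simp
  have h2 : Module.finrank (ZMod 2) (LinearMap.range Φ) ≤
      Module.finrank (ZMod 2) (LinearMap.range (lk k (P * M * S))) := Submodule.finrank_mono hle
  have h3 : Module.finrank (ZMod 2) (LinearMap.range (lk k (P * M * S))) ≤
      Module.finrank (ZMod 2) (LinearMap.range (lk k M)) := by
    rw [lk_mul, lk_mul, LinearMap.range_comp]
    calc Module.finrank (ZMod 2) (((LinearMap.range (lk k S)).map (lk k P ∘ₗ lk k M)) : Submodule (ZMod 2) _)
        ≤ Module.finrank (ZMod 2) ((LinearMap.range (lk k M)).map (lk k P) : Submodule (ZMod 2) _) := by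
          refine Submodule.finrank_mono ?_
          rw [Submodule.map_comp]
          exact Submodule.map_mono (by rintro _ ⟨x, -, rfl⟩; exact ⟨x, rfl⟩)
      _ ≤ _ := Submodule.finrank_map_le _ _
  rw [← h1]
  exact h2.trans h3

/-- **Hilbert–Kunz limit.** -/
theorem rank_lim (M : Matrix κ ι (RI I)) {ε : ℝ} (hε : 0 < ε) : ∃ k₀ : ℕ, ∀ k ≥ k₀,
    (((M.map (algebraMap (RI I) (KI I))).rank : ℝ) - ε) * 2 ^ (k * Fintype.card I) ≤
      Module.finrank (ZMod 2) (LinearMap.range (lk k M)) := by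
  classical
  obtain ⟨c, hc⟩ := le_rank M
  set ρ := (M.map (algebraMap (RI I) (KI I))).rank
  set d := Fintype.card I
  obtain ⟨k₀, hk₀⟩ := pow_unbounded_of_one_lt (((ρ : ℝ) * (d * c)) / ε + c) (one_lt_two)
  refine ⟨k₀, fun k hk => ?_⟩
  have hpow : (2 : ℝ) ^ k₀ ≤ 2 ^ k := pow_le_pow_right₀ one_le_two hk
  have hnn : 0 ≤ ((ρ : ℝ) * (d * c)) / ε := by positivity
  have hcR : (c : ℝ) ≤ 2 ^ k := by linarith
  have hcN : c ≤ 2 ^ k := by exact_mod_cast hcR
  have h1 := hc k (2 ^ k - c) (by omega)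
  have h2 : ((2 ^ k - c : ℕ) : ℝ) = 2 ^ k - c := by
    rw [Nat.cast_sub hcN]
    push_cast
    rfl
  have h3 : (ρ : ℝ) * (2 ^ k - c) ^ d ≤ Module.finrank (ZMod 2) (LinearMap.range (lk k M)) := by
    rw [← h2]
    exact_mod_cast h1
  refine le_trans ?_ h3
  have hp : (0 : ℝ) < 2 ^ k := by positivity
  have h4 : (1 : ℝ) - d * (c / 2 ^ k) ≤ (1 - c / 2 ^ k) ^ d := by
    have h5 : (-2 : ℝ) ≤ -(c / 2 ^ k) := by
      have : (c : ℝ) / 2 ^ k ≤ 1 := (div_le_one hp).2 hcR
      linarith
    have h6 := one_add_mul_le_pow h5 d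
    have h7 : (1 : ℝ) + -((c : ℝ) / 2 ^ k) = 1 - c / 2 ^ k := by ring
    rw [h7] at h6
    linarith
  have h5 : ((2 : ℝ) ^ k - c) ^ d = (2 ^ k) ^ d * (1 - c / 2 ^ k) ^ d := by
    rw [← mul_pow]
    congr 1
    field_simp
  have h6 : (ρ : ℝ) * (d * (c / 2 ^ k)) ≤ ε := by
    have h7 : (ρ : ℝ) * (d * c) ≤ ε * 2 ^ k := by
      have : (ρ : ℝ) * (d * c) / ε ≤ 2 ^ k := by
        have : (0 : ℝ) ≤ c := Nat.cast_nonneg _
        linarith
      rw [div_le_iff₀ hε] at this
      linarith
    have h8 : (ρ : ℝ) * (d * (c / 2 ^ k)) = ρ * (d * c) / 2 ^ k := by ring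
    rw [h8, div_le_iff₀ hp]
    exact h7
  rw [h5, pow_mul]
  have h7 : (0 : ℝ) < (2 ^ k) ^ d := by positivity
  have h8 : (ρ : ℝ) - ε ≤ ρ * (1 - c / 2 ^ k) ^ d := by
    have h9 := mul_le_mul_of_nonneg_left h4 (Nat.cast_nonneg ρ : (0 : ℝ) ≤ ρ)
    linarith
  calc ((ρ : ℝ) - ε) * (2 ^ k) ^ d ≤ (ρ * (1 - c / 2 ^ k) ^ d) * (2 ^ k) ^ d :=
        mul_le_mul_of_nonneg_right h8 h7.le
    _ = _ := by ring

end Rank

end Pool.Agent.S9.HK

end

section

/-!
# Project S9, block E: ranks of matrices over the Laurent polynomials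
-/

set_option autoImplicit false
set_option linter.unusedSectionVars false

open Finset

namespace Pool.Agent.S9

variable {I : Type} [Fintype I] {κ μ : Type} [Fintype κ] [Fintype μ] [DecidableEq μ] [DecidableEq κ]

/-- (I3a), helper38: the rank of the reductions is at least the generic rank, up to `ε` -/
theorem rank_lim (M : Matrix κ μ (RI I)) (ε : ℝ) (hε : 0 < ε) :
    ∃ k₀ : ℕ, ∀ k ≥ k₀, (((M.map (algebraMap (RI I) (KI I))).rank : ℝ) - ε) *
      2 ^ (k * Fintype.card I) ≤
      Module.finrank (ZMod 2) (LinearMap.range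
        ((M.map (redR I k)).mulVecLin.restrictScalars (ZMod 2))) := HK.rank_lim M hε

/-- (I3c): specialisation -/
theorem rank_spec {F : Type} [Field F] (φ : RI I →+* F) (M : Matrix κ μ (RI I)) :
    (M.map φ).rank ≤ (M.map (algebraMap (RI I) (KI I))).rank := HK.rank_spec (KI I) φ M

/-- (I3d): injective substitution -/
theorem rank_sub (Z : (I → ℤ) →+ (I → ℤ)) (hZ : Function.Injective Z) (M : Matrix κ μ (RI I)) :
    ((M.map (subR Z)).map (algebraMap (RI I) (KI I))).rank =
      (M.map (algebraMap (RI I) (KI I))).rank := by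
  have h1 : Function.Injective (subR Z) := AddMonoidAlgebra.mapDomain_injective hZ
  have h2 : Function.Injective ((algebraMap (RI I) (KI I)).comp (subR Z)) :=
    (IsFractionRing.injective (RI I) (KI I)).comp h1
  rw [← HK.rank_inj (KI I) h2 M]
  rfl

end Pool.Agent.S9

end

section

/-!
# Project S10, block E: base change and specialisation for characters
-/

set_option autoImplicit false
set_option linter.unusedSectionVars false

open Finset

namespace Pool.Agent.S10.EA

open Pool.Agent.S9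

section One

variable {Γ : Type} [Group Γ] {S : Type} [CommRing S]

/-- the `1 × 1` matrices -/
def m1 (f : Γ →* S) : Γ →* Matrix (Fin 1) (Fin 1) S :=
  ((Matrix.scalar (Fin 1) : S →+* Matrix (Fin 1) (Fin 1) S) : S →* Matrix (Fin 1) (Fin 1) S).comp f

theorem m1_apply (f : Γ →* S) (g : Γ) (a b : Fin 1) : m1 f g a b = f g := by
  have h : m1 f g = Matrix.diagonal fun _ => f g := rfl
  rw [h, Subsingleton.elim b a, Matrix.diagonal_apply_eq]

theorem mmap_m1 {S' : Type} [CommRing S'] (φ : S →+* S') (f : Γ →* S) :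
    mmap φ (m1 f) = m1 ((φ : S →* S').comp f) := by
  refine MonoidHom.ext fun g => ?_
  refine Matrix.ext fun a b => ?_
  rw [mmap_apply, Matrix.map_apply, m1_apply, m1_apply]
  rfl

variable {I : Type}

/-- the monomials of a homomorphism -/
noncomputable def abR (ab : Γ →* Multiplicative (I → ℤ)) : Γ →* RI I where
  toFun g := ttR (ab g).toAdd
  map_one' := by
    rw [map_one]
    rfl
  map_mul' g h := by
    rw [map_mul, toAdd_mul]
    unfold ttR
    rw [AddMonoidAlgebra.single_mul_single, mul_one]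

/-- the substitution in the monomials -/
def subAb (Z : (I → ℤ) →+ (I → ℤ)) (ab : Γ →* Multiplicative (I → ℤ)) :
    Γ →* Multiplicative (I → ℤ) := (AddMonoidHom.toMultiplicative Z).comp ab

end One

section Lin

variable {W : Type} [Group W] {T T' : Type} {Γ : Subgroup W} {K : Type} [Field K]

/-- a one-dimensional representation as a representation by `1 × 1` matrices -/
theorem zL_m1 (L : T' → W → Finset (T × W)) (f : Γ →* K) (ρ : Γ →* Module.End K K)
    (h : ∀ g x, ρ g x = f g * x) : zL L Γ (mrep (m1 f)) = zL L Γ ρ := by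
  let E : (T → W → K) ≃ₗ[K] (T → W → Fin 1 → K) :=
    LinearEquiv.piCongrRight fun _ => LinearEquiv.piCongrRight fun _ =>
      (LinearEquiv.funUnique (Fin 1) K K).symm
  have hE : ∀ z t w a, E z t w a = z t w := fun _ _ _ _ => rfl
  have hm : ∀ (g : Γ) (x : Fin 1 → K), mrep (m1 f) g x = fun _ => f g * x 0 := by
    intro g x
    funext a
    rw [mrep_apply, Matrix.mulVec, dotProduct, Fin.sum_univ_one, m1_apply]
  unfold zL
  have h1 : ZL L Γ (mrep (m1 f)) = (ZL L Γ ρ).map E.toLinearMap := by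
    ext c
    rw [Submodule.mem_map, mem_ZL]
    constructor
    · rintro ⟨h1, h2⟩
      refine ⟨fun t w => c t w 0, mem_ZL.2 ⟨fun t g w => ?_, fun t' w => ?_⟩, ?_⟩
      · rw [h1, hm, h]
      · have h3 := congrFun (h2 t' w) 0
        rw [Finset.sum_apply] at h3
        exact h3
      · funext t w a
        rw [Subsingleton.elim a 0]
        rfl
    · rintro ⟨z, hz, rfl⟩
      obtain ⟨h1, h2⟩ := mem_ZL.1 hz
      refine ⟨fun t g w => ?_, fun t' w => ?_⟩
      · rw [hm]
        funext a
        show z t (g * w) = f g * z t w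
        rw [h1, h]
      · funext a
        rw [Finset.sum_apply]
        exact h2 t' w
  rw [h1]
  exact LinearEquiv.finrank_map_eq E _

end Lin

section Main

variable {W : Type} [Group W] {T T' : Type} {Γ : Subgroup W} [Γ.Normal] {I : Type}

private theorem ch_apply {K : Type} [Field K] (χ : Γ →* Kˣ) (g : Γ) (x : K) :
    ch χ g x = (χ g : K) * x := by
  unfold ch tw
  rfl

/-- the character over the ring -/
private theorem zL_chi [Fintype T] [Fintype (W ⧸ Γ)] (L : T' → W → Finset (T × W)) (hL : LInv L Γ)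
    (ab : Γ →* Multiplicative (I → ℤ)) (χ : Γ →* (KI I)ˣ)
    (hχ : ∀ g, (χ g : KI I) = tt (ab g).toAdd) :
    zL L Γ (ch χ) + ((BL L (m1 (abR ab))).map (algebraMap (RI I) (KI I))).rank =
      Fintype.card (T × (W ⧸ Γ) × Fin 1) := by
  rw [BL_map, mmap_m1, ← zL_m1 L (((algebraMap (RI I) (KI I) : RI I →+* KI I) : RI I →* KI I).comp
    (abR ab)) (ch χ) fun g x => ?_]
  · exact zL_add_rank hL _
  · rw [ch_apply, hχ]
    rfl

/-- **Base change**: an injective substitution does not change the dimension -/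
theorem zL_base' [Finite T] [Finite T'] [Finite (W ⧸ Γ)] [Finite I] (L : T' → W → Finset (T × W))
    (hL : LInv L Γ) (ab : Γ →* Multiplicative (I → ℤ)) (Z : (I → ℤ) →+ (I → ℤ))
    (hZ : Function.Injective Z) (χ χ' : Γ →* (KI I)ˣ) (hχ : ∀ g, (χ g : KI I) = tt (ab g).toAdd)
    (hχ' : ∀ g, (χ' g : KI I) = tt (Z (ab g).toAdd)) :
    zL L Γ (ch χ') = zL L Γ (ch χ) := by
  classical
  have : Fintype T := Fintype.ofFinite T
  have : Fintype T' := Fintype.ofFinite T'
  have : Fintype (W ⧸ Γ) := Fintype.ofFinite _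
  have : Fintype I := Fintype.ofFinite I
  have h1 := zL_chi L hL ab χ hχ
  have h2 := zL_chi L hL ((AddMonoidHom.toMultiplicative Z).comp ab) χ' hχ'
  have h3 : m1 (abR ((AddMonoidHom.toMultiplicative Z).comp ab)) = mmap (subR Z) (m1 (abR ab)) := by
    rw [mmap_m1]
    congr 1
    refine MonoidHom.ext fun g => ?_
    show ttR (Z (ab g).toAdd) = subR Z (ttR (ab g).toAdd)
    unfold subR ttR
    exact AddMonoidAlgebra.mapDomain_single.symm
  rw [h3, ← BL_map, rank_sub Z hZ] at h2
  omega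

/-- **Specialisation** at `1` -/
theorem zL_spec' [Finite T] [Finite T'] [Finite (W ⧸ Γ)] [Finite I] (L : T' → W → Finset (T × W))
    (hL : LInv L Γ) (ab : Γ →* Multiplicative (I → ℤ)) (χ : Γ →* (KI I)ˣ)
    (hχ : ∀ g, (χ g : KI I) = tt (ab g).toAdd) : zL L Γ (ch χ) ≤ z1 L Γ := by
  classical
  have : Fintype T := Fintype.ofFinite T
  have : Fintype T' := Fintype.ofFinite T'
  have : Fintype (W ⧸ Γ) := Fintype.ofFinite _
  have : Fintype I := Fintype.ofFinite I
  have h1 := zL_chi L hL ab χ hχ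
  have h2 := zL_add_rank hL (m1 (1 : Γ →* ZMod 2))
  have h3 : m1 (1 : Γ →* ZMod 2) = mmap (augR I) (m1 (abR ab)) := by
    rw [mmap_m1]
    congr 1
    refine MonoidHom.ext fun g => ?_
    show 1 = augR I (ttR (ab g).toAdd)
    unfold augR ttR
    rw [AddMonoidAlgebra.liftNCRingHom_single, map_one, MonoidHom.one_apply, mul_one]
  have h4 : zL L Γ (mrep (m1 (1 : Γ →* ZMod 2))) = z1 L Γ :=
    zL_m1 L (1 : Γ →* ZMod 2) 1 fun g x => by
      rw [MonoidHom.one_apply, MonoidHom.one_apply, one_mul]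
      rfl
  have h5 := rank_spec (augR I) (BL L (m1 (abR ab)))
  rw [h4, h3, ← BL_map] at h2
  omega

/-- base change along an injective endomorphism of the lattice -/
theorem zL_base [Finite T] [Finite T'] [Γ.FiniteIndex] [Finite I] {L : T' → W → Finset (T × W)}
    (hL : LInv L Γ) (ab : Γ →* Multiplicative (I → ℤ)) (Z : (I → ℤ) →+ (I → ℤ))
    (hZ : Function.Injective Z) : zL L Γ (ch (chiab (subAb Z ab))) = zL L Γ (ch (chiab ab)) :=
  zL_base' L hL ab Z hZ (chiab ab) (chiab (subAb Z ab)) (chiab_coe ab) fun _ => rfl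

end Main

end Pool.Agent.S10.EA

end

section

/-!
# Project S9, block E: base change and specialisation
-/

set_option autoImplicit false
set_option linter.unusedSectionVars false

open Finset

namespace Pool.Agent.S9

open Pool.Agent.H77.SW Pool.Agent.H19.SR Pool.Agent.H73.GC

variable {V : Type} [DecidableEq V] [Fintype V] {P : Type} [Group P] [Fintype P]
  {I : Type} [Fintype I] {n : ℕ}

private theorem Base_chiK (e : V → P → I → ℤ) :
    (fun v p => (chiR e v p).map (algebraMap (RI I) (KI I))) = chiK e := rfl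

private theorem Base_sub (Z : (I → ℤ) →+ (I → ℤ)) (a : I → ℤ) : subR Z (ttR a) = ttR (Z a) := by
  unfold subR ttR
  exact AddMonoidAlgebra.mapDomain_single

private theorem Base_aug (a : I → ℤ) : augR I (ttR a) = 1 := by
  unfold augR ttR
  rw [AddMonoidAlgebra.liftNCRingHom_single, map_one, MonoidHom.one_apply, mul_one]

/-- **Base change**: `Mat`, `rank_sub` (`BM D (chiR (Z ∘ e)) = (BM D (chiR e)).map (subR Z)`). -/
theorem zM_base {G : SimpleGraph V} (D : PG G P) (e : V → P → I → ℤ) (Z : (I → ℤ) →+ (I → ℤ))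
    (hZ : Function.Injective Z) (d : ℕ) :
    zM (KI I) D (chiK fun v p => Z (e v p)) d = zM (KI I) D (chiK e) d := by
  classical
  have h1 := zM_eq (K := KI I) D (chiK fun v p => Z (e v p)) d
  have h2 := zM_eq (K := KI I) D (chiK e) d
  have h3 : BM D (chiK e) d = (BM D (chiR e) d).map (algebraMap (RI I) (KI I)) := by
    rw [BM_map, Base_chiK]
  have h4 : BM D (chiR fun v p => Z (e v p)) d = (BM D (chiR e) d).map (subR Z) := by
    rw [BM_map]
    congr 1
    funext v p a b
    exact (Base_sub Z (e v p)).symm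
  have h5 : BM D (chiK fun v p => Z (e v p)) d =
      ((BM D (chiR e) d).map (subR Z)).map (algebraMap (RI I) (KI I)) := by
    rw [← h4, BM_map, Base_chiK]
  have h6 := rank_sub Z hZ (BM D (chiR e) d)
  rw [← h3, ← h5] at h6
  omega

private theorem Base_one {G : SimpleGraph V} (D : PG G P) (d : ℕ) :
    zM (ZMod 2) D (fun _ _ => (1 : Matrix (Fin 1) (Fin 1) (ZMod 2))) d = dz (ZMod 2) d D := by
  classical
  unfold zM dz
  let L : (Finset V → P → ZMod 2) ≃ₗ[ZMod 2] (Finset V → P → Fin 1 → ZMod 2) :=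
    LinearEquiv.piCongrRight fun _ => LinearEquiv.piCongrRight fun _ =>
      (LinearEquiv.funUnique (Fin 1) (ZMod 2) (ZMod 2)).symm
  have hL : ∀ z σ p a, L z σ p a = z σ p := fun _ _ _ _ => rfl
  have h1 : Zs (ZMod 2) G d (rM D fun _ _ => (1 : Matrix (Fin 1) (Fin 1) (ZMod 2))) =
      (Zs (ZMod 2) G d (rP (ZMod 2) D)).map L.toLinearMap := by
    ext z
    constructor
    · rintro ⟨h1, h2, h3⟩
      refine ⟨fun σ p => z σ p 0, ⟨fun σ hσ => h1 σ fun h0 => hσ ?_, fun σ v hv => ?_, fun κ => ?_⟩, ?_⟩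
      · funext p
        exact congrFun (congrFun h0 p) 0
      · funext p
        have h4 := congrFun (congrFun (h2 σ v hv) p) 0
        rw [rM_apply, Matrix.one_mulVec] at h4
        exact h4
      · funext p
        have h4 := congrFun (congrFun (h3 κ) p) 0
        rw [Finset.sum_apply, Finset.sum_apply] at h4
        rw [Finset.sum_apply]
        exact h4
      · funext σ p a
        rw [Subsingleton.elim a 0]
        rfl
    · rintro ⟨z, ⟨h1, h2, h3⟩, rfl⟩
      refine ⟨fun σ hσ => h1 σ fun h0 => hσ ?_, fun σ v hv => ?_, fun κ => ?_⟩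
      · funext p a
        exact congrFun h0 p
      · funext p a
        rw [rM_apply, Matrix.one_mulVec]
        exact congrFun (h2 σ v hv) p
      · funext p a
        have h4 := congrFun (h3 κ) p
        rw [Finset.sum_apply] at h4
        rw [Finset.sum_apply, Finset.sum_apply]
        exact h4
  rw [h1]
  exact LinearEquiv.finrank_map_eq L _

/-- **Specialisation** `t = 1`: `Mat`, `rank_spec` with `augR I`, `hX_reg`. -/
theorem spec {G : SimpleGraph V} (D : PG G P) (e : V → P → I → ℤ) (i : ℕ) :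
    hchi D e i ≤ hX (Cq G univ) (regP D.g) i := by
  classical
  have key : ∀ d, zM (KI I) D (chiK e) d ≤ dz (ZMod 2) d D := by
    intro d
    have h1 := zM_eq (K := KI I) D (chiK e) d
    have h2 := zM_eq (K := ZMod 2) D (fun _ _ => (1 : Matrix (Fin 1) (Fin 1) (ZMod 2))) d
    rw [Base_one] at h2
    have h3 : BM D (chiK e) d = (BM D (chiR e) d).map (algebraMap (RI I) (KI I)) := by
      rw [BM_map, Base_chiK]
    have h4 : BM D (fun _ _ => (1 : Matrix (Fin 1) (Fin 1) (ZMod 2))) d =
        (BM D (chiR e) d).map (augR I) := by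
      rw [BM_map]
      congr 1
      funext v p a b
      rw [Subsingleton.elim a b, Matrix.one_apply_eq]
      exact (Base_aug (e v p)).symm
    have h5 := rank_spec (augR I) (BM D (chiR e) d)
    rw [← h3, ← h4] at h5
    omega
  rw [hX_reg]
  unfold hchi cP
  have h1 := key i
  have h2 := key (i + 1)
  omega

end Pool.Agent.S9

end

section

/-!
# Project S9, block E: the reduction of triangular edge matrices is a module over the graph
-/

set_option autoImplicit false
set_option linter.unusedSectionVars false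

open Finset

namespace Pool.Agent.S9

open Pool.Agent.H77.SW Pool.Agent.H73.GC

variable {V : Type} [DecidableEq V] [Fintype V] {P : Type} [Group P]

section Gen

variable {S : Type} [CommRing S] [Module F2 S] [SMulCommClass F2 S S] [IsScalarTower F2 S S] {n : ℕ}

end Gen

section RK

variable {I : Type} {n : ℕ}

theorem finite_RK [Finite I] (k : ℕ) : Finite (RK I k) := HK.finite_RK k

theorem finrank_RK [Fintype I] (k : ℕ) :
    Module.finrank (ZMod 2) (RK I k) = 2 ^ (k * Fintype.card I) := HK.finrank_RK k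

instance charP_RK (k : ℕ) : CharP (RK I k) 2 :=
  charP_of_injective_algebraMap (algebraMap (ZMod 2) (RK I k)).injective 2

/-- monomials have two-power order -/
theorem single_pow_RK (k : ℕ) (a : I → ZMod (2 ^ k)) :
    (AddMonoidAlgebra.single a 1 : RK I k) ^ 2 ^ k = 1 := by
  rw [AddMonoidAlgebra.single_pow, one_pow]
  have h : (2 ^ k) • a = 0 := by
    funext i
    rw [Pi.smul_apply, Pi.zero_apply, nsmul_eq_mul]
    have h2 : ((2 ^ k : ℕ) : ZMod (2 ^ k)) = 0 := ZMod.natCast_self (2 ^ k)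
    rw [h2, zero_mul]
  rw [h]
  rfl

theorem redR_ttR (k : ℕ) (x : I → ℤ) :
    redR I k (ttR x) = AddMonoidAlgebra.single (redZ I k x) 1 := by
  unfold redR ttR
  rw [AddMonoidAlgebra.mapDomainRingHom_apply, AddMonoidAlgebra.mapDomain_single]

/-- the reduction of a triangular matrix with monomials on the diagonal -/
theorem ut_red (k : ℕ) {A : Matrix (Fin n) (Fin n) (RI I)}
    (hA : ∀ a b, b < a → A a b = 0) (hd : ∀ a, ∃ x : I → ℤ, A a a = ttR x) :
    UT (A.map (redR I k)) := by
  refine ⟨fun a b h => ?_, fun a => ⟨k, ?_⟩⟩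
  · rw [Matrix.map_apply, hA a b h, map_zero]
  · obtain ⟨x, hx⟩ := hd a
    rw [Matrix.map_apply, hx, redR_ttR, single_pow_RK]

/-- the operators of the edge matrices over `RI I` on the functions with values in the ring `RK I k` -/
noncomputable def rk {G : SimpleGraph V} (D : PG G P) (M : V → P → Matrix (Fin n) (Fin n) (RI I))
    (k : ℕ) (v : V) : Module.End F2 (P → Fin n → RK I k) :=
  (rM D (fun v p => (M v p).map (redR I k)) v).restrictScalars (ZMod 2)

theorem rk_apply {G : SimpleGraph V} (D : PG G P) (M : V → P → Matrix (Fin n) (Fin n) (RI I))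
    (k : ℕ) (v : V) (F : P → Fin n → RK I k) (p : P) :
    rk D M k v F p = ((M v p).map (redR I k)).mulVec (F (p * D.g v)) := rfl

/-- the projections -/
noncomputable def bk {G : SimpleGraph V} (D : PG G P) (I : Type) (n k : ℕ) (v : V) :
    Module.End F2 (P → Fin n → RK I k) where
  toFun F p := if D.b p v = 0 then F p else 0
  map_add' F F' := by
    funext p
    simp only [Pi.add_apply]
    split_ifs <;> simp
  map_smul' c F := by
    funext p
    simp only [Pi.smul_apply, RingHom.id_apply]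
    split_ifs <;> simp

theorem isEdg_red {G : SimpleGraph V} {D : PG G P} {M : V → P → Matrix (Fin n) (Fin n) (RI I)}
    (hM : IsEdg D M) (k : ℕ) : IsEdg D fun v p => (M v p).map (redR I k) := by
  refine ⟨fun v p => ?_, fun u v huv p => ?_⟩
  · show (M v p).map (redR I k) * (M v (p * D.g v)).map (redR I k) = 1
    rw [← Matrix.map_mul, hM.inv]
    exact Matrix.map_one _ (map_zero _) (map_one _)
  · show (M u p).map (redR I k) * (M v (p * D.g u)).map (redR I k) =
      (M v p).map (redR I k) * (M u (p * D.g v)).map (redR I k)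
    rw [← Matrix.map_mul, ← Matrix.map_mul, hM.comm u v huv]

/-- **The module is unipotent.** -/
theorem isN_rk [Fintype P] [Finite I] {G : SimpleGraph V} (D : PG G P)
    (M : V → P → Matrix (Fin n) (Fin n) (RI I))
    (hM : IsEdg D M) (htri : ∀ v p a b, b < a → M v p a b = 0)
    (w : V → P → Fin n → I → ℤ) (hw : ∀ v p a, M v p a a = ttR (w v p a)) (k : ℕ) :
    IsN G univ (rk D M k) := by
  have hE := isEdg_red hM k
  have hsq : ∀ v F, rk D M k v (rk D M k v F) = F := by
    intro v F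
    funext p
    have h1 := hE.inv v p
    rw [rk_apply, rk_apply, Matrix.mulVec_mulVec, h1, Matrix.one_mulVec, mul_assoc, D.sq, mul_one]
  have hfin : Finite (RK I k) := finite_RK k
  refine ⟨fun v _ F => hsq v F, fun u _ v _ huv F => ?_, ?_⟩
  · funext p
    have h1 := hE.comm u v huv p
    rw [rk_apply, rk_apply, rk_apply, rk_apply, Matrix.mulVec_mulVec, Matrix.mulVec_mulVec,
      h1, mul_assoc, mul_assoc, D.comm u v huv]
  · exact fil_edge D.two D.g (fun v p => (M v p).map (redR I k))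
      (fun v p => ut_red k (htri v p) fun a => ⟨_, hw v p a⟩) (rk D M k) (fun v F p => rfl) hsq

theorem isBit_rk {G : SimpleGraph V} (D : PG G P) (M : V → P → Matrix (Fin n) (Fin n) (RI I))
    (k : ℕ) : IsBit G univ (rk D M k) (bk D I n k) := by
  have hb : ∀ v F p, bk D I n k v F p = if D.b p v = 0 then F p else 0 := fun _ _ _ => rfl
  refine ⟨fun v _ F => ?_, fun v _ F => ?_, fun u _ v _ huv F => ?_, fun u _ v _ huv F => ?_⟩
  · funext p
    rw [hb, hb]
    split_ifs <;> rfl
  · funext p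
    rw [Pi.add_apply, hb, rk_apply, rk_apply, hb, D.b_mul, D.b_g, if_pos rfl]
    have h2 : ∀ a : ZMod 2, a = 0 ∨ a = 1 := by decide
    rcases h2 (D.b p v) with h | h
    · rw [h, if_pos rfl, if_neg (by decide), Matrix.mulVec_zero, add_zero]
    · rw [h, if_neg (by decide), if_pos (by decide), zero_add]
  · funext p
    rw [hb, rk_apply, rk_apply, hb, D.b_mul, D.b_g, if_neg huv.ne', add_zero]
    split_ifs
    · rfl
    · rw [Matrix.mulVec_zero]
  · funext p
    rw [hb, hb, hb, hb]
    split_ifs <;> rfl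

end RK

end Pool.Agent.S9

end

section

/-!
# Project S10, block E: the Hilbert-Kunz limit
-/

set_option autoImplicit false
set_option linter.unusedSectionVars false

open Finset

namespace Pool.Agent.S10.EA

open Pool.Agent.S9

variable {W : Type} [Group W] {T T' : Type} {I : Type} [Fintype I] {n : ℕ}

/-- **The Hilbert-Kunz limit**: the dimensions of the solutions over the group rings of `(ℤ/2^k)^I` -/
theorem box [Finite T] [Finite T'] {L : T' → W → Finset (T × W)} {Γ : Subgroup W} [Γ.Normal]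
    [Finite (W ⧸ Γ)] (hL : LInv L Γ) (μ : Γ →* Matrix (Fin n) (Fin n) (RI I)) (ε : ℝ) (hε : 0 < ε) :
    ∃ k₀ : ℕ, ∀ k ≥ k₀,
      (Module.finrank (ZMod 2) (ZL L Γ (mrep2 (mmap (redR I k) μ))) : ℝ) ≤
        ((zL L Γ (mrep (mmap (algebraMap (RI I) (KI I)) μ)) : ℝ) + ε) * 2 ^ (k * Fintype.card I) := by
  classical
  have : Fintype T := Fintype.ofFinite T
  have : Fintype T' := Fintype.ofFinite T'
  have : Fintype (W ⧸ Γ) := Fintype.ofFinite _
  obtain ⟨k₀, h₀⟩ := rank_lim (BL L μ) ε hε
  refine ⟨k₀, fun k hk => ?_⟩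
  have h1 := h₀ k hk
  have hfin : Finite (RK I k) := finite_RK k
  have h2 := zL2_add_rank (S := RK I k) hL (mmap (redR I k) μ)
  have h3 := zL_add_rank hL (mmap (algebraMap (RI I) (KI I)) μ)
  rw [BL_map] at h1
  rw [BL_map] at h1
  rw [finrank_RK (I := I) k] at h2
  have h4 : (Module.finrank (ZMod 2) (ZL L Γ (mrep2 (mmap (redR I k) μ))) : ℝ) +
      (Module.finrank (ZMod 2) (LinearMap.range
        ((BL L (mmap (redR I k) μ)).mulVecLin.restrictScalars (ZMod 2))) : ℝ) =
      (Fintype.card (T × (W ⧸ Γ) × Fin n) : ℝ) * 2 ^ (k * Fintype.card I) := by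
    exact_mod_cast h2
  have h5 : (zL L Γ (mrep (mmap (algebraMap (RI I) (KI I)) μ)) : ℝ) +
      ((BL L (mmap (algebraMap (RI I) (KI I)) μ)).rank : ℝ) =
      (Fintype.card (T × (W ⧸ Γ) × Fin n) : ℝ) := by exact_mod_cast h3
  rw [← h5] at h4
  nlinarith [h1, h4]

end Pool.Agent.S10.EA

end

section

/-!
# S10, block EA: the growth in the abelian tower over a level
-/

set_option autoImplicit false
set_option linter.unusedSectionVars false

open Finset

namespace Pool.Agent.S10.EA

open Pool.Agent.S9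

variable {W : Type} [Group W] {T T' : Type} {I : Type}

/-- the reduction of `ab` modulo `2 ^ k` -/
noncomputable def fk {Γ : Subgroup W} (ab : Γ →* Multiplicative (I → ℤ)) (k : ℕ) :
    Γ →* Multiplicative (I → ZMod (2 ^ k)) :=
  (AddMonoidHom.toMultiplicative (redZ I k)).comp ab

theorem fk_apply {Γ : Subgroup W} (ab : Γ →* Multiplicative (I → ℤ)) (k : ℕ) (g : Γ) :
    (fk ab k g).toAdd = redZ I k (ab g).toAdd := rfl

/-- the elements of `Γ` with values of `ab` divisible by `2 ^ k` -/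
noncomputable def Mk {Γ : Subgroup W} (ab : Γ →* Multiplicative (I → ℤ)) (k : ℕ) : Subgroup W :=
  (fk ab k).ker.map Γ.subtype

/-- the matrix representation of the monomials -/
noncomputable def mu1 {Γ : Subgroup W} (ab : Γ →* Multiplicative (I → ℤ)) :
    Γ →* Matrix (Fin 1) (Fin 1) (RI I) where
  toFun g := fun _ _ => ttR (ab g).toAdd
  map_one' := by
    ext a b
    rw [Subsingleton.elim a b, map_one, toAdd_one, Matrix.one_apply_eq]
    rfl
  map_mul' g h := by
    ext a b
    rw [Matrix.mul_apply, Fin.sum_univ_one, map_mul, toAdd_mul]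
    unfold ttR
    rw [AddMonoidAlgebra.single_mul_single, mul_one]

theorem mu1_apply {Γ : Subgroup W} (ab : Γ →* Multiplicative (I → ℤ)) (g : Γ) (a b : Fin 1) :
    mu1 ab g a b = ttR (ab g).toAdd := rfl

theorem mem_Mk {Γ : Subgroup W} {ab : Γ →* Multiplicative (I → ℤ)} {k : ℕ} {g : Γ} :
    (g : W) ∈ Mk ab k ↔ fk ab k g = 1 := by
  constructor
  · rintro ⟨x, hx, hxg⟩
    have : x = g := Subtype.ext hxg
    rw [← this]
    exact hx
  · intro h
    exact ⟨g, h, rfl⟩

theorem relIndex_Mk {Γ : Subgroup W} (ab : Γ →* Multiplicative (I → ℤ)) (k : ℕ) :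
    (Mk ab k).relIndex Γ = Nat.card (fk ab k).range := by
  have h : (Mk ab k).subgroupOf Γ = (fk ab k).ker := by
    ext x
    rw [Subgroup.mem_subgroupOf, mem_Mk]
    rfl
  rw [Subgroup.relIndex, h, Subgroup.index_ker]

/-- the solutions form a finite-dimensional space -/
theorem finite_ZL {K : Type} [Field K] {N : Type} [AddCommGroup N] [Module K N] [Module.Finite K N] [Finite T]
    (L : T' → W → Finset (T × W)) (Γ : Subgroup W) [Γ.FiniteIndex] (ρ : Γ →* Module.End K N) :
    Module.Finite K (ZL L Γ ρ) := by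
  classical
  have := Fintype.ofFinite T
  have : Finite (W ⧸ Γ) := inferInstance
  have := Fintype.ofFinite (W ⧸ Γ)
  let e : ZL L Γ ρ →ₗ[K] (T → (W ⧸ Γ) → N) :=
    { toFun := fun c t q => c.1 t (q.out)⁻¹
      map_add' := fun _ _ => rfl
      map_smul' := fun _ _ => rfl }
  refine Module.Finite.of_injective e ?_
  rw [← LinearMap.ker_eq_bot, LinearMap.ker_eq_bot']
  intro c hc
  apply Subtype.ext
  funext t w
  have h1 : ((QuotientGroup.mk w⁻¹ : W ⧸ Γ)) = QuotientGroup.mk (QuotientGroup.mk w⁻¹ : W ⧸ Γ).out :=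
    (QuotientGroup.out_eq' _).symm
  rw [QuotientGroup.eq] at h1
  have h2 : w = ((w⁻¹)⁻¹ * (QuotientGroup.mk w⁻¹ : W ⧸ Γ).out) * ((QuotientGroup.mk w⁻¹ : W ⧸ Γ).out)⁻¹ := by
    group
  have h3 := c.2.1 t ⟨_, h1⟩ ((QuotientGroup.mk w⁻¹ : W ⧸ Γ).out)⁻¹
  have h4 : c.1 t ((QuotientGroup.mk w⁻¹ : W ⧸ Γ).out)⁻¹ = 0 := congrFun (congrFun hc t) _
  rw [h4, map_zero] at h3
  rw [h2]
  exact h3

section Count

variable {Γ : Subgroup W} (ab : Γ →* Multiplicative (I → ℤ)) (k : ℕ)

private noncomputable def oo (x : I → ZMod (2 ^ k)) : Multiplicative (I → ZMod (2 ^ k)) :=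
  (QuotientGroup.mk (Multiplicative.ofAdd x) : Multiplicative (I → ZMod (2 ^ k)) ⧸ (fk ab k).range).out

private theorem gg_ex (x : I → ZMod (2 ^ k)) : ∃ g : Γ, fk ab k g = (oo ab k x)⁻¹ * Multiplicative.ofAdd x := by
  have h1 : (QuotientGroup.mk (oo ab k x) : Multiplicative (I → ZMod (2 ^ k)) ⧸ (fk ab k).range) =
      QuotientGroup.mk (Multiplicative.ofAdd x) := QuotientGroup.out_eq' _
  rw [QuotientGroup.eq] at h1
  exact h1

private noncomputable def gg (x : I → ZMod (2 ^ k)) : Γ := (gg_ex ab k x).choose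

private theorem gg_spec (x : I → ZMod (2 ^ k)) :
    fk ab k (gg ab k x) = (oo ab k x)⁻¹ * Multiplicative.ofAdd x := (gg_ex ab k x).choose_spec

private theorem mk_sub (x : I → ZMod (2 ^ k)) (g : Γ) :
    (QuotientGroup.mk (Multiplicative.ofAdd (-(fk ab k g).toAdd + x)) :
      Multiplicative (I → ZMod (2 ^ k)) ⧸ (fk ab k).range) = QuotientGroup.mk (Multiplicative.ofAdd x) := by
  rw [QuotientGroup.eq]
  refine ⟨g, ?_⟩
  rw [ofAdd_add, ofAdd_neg, ofAdd_toAdd]
  rw [mul_inv_rev, inv_inv, mul_assoc, mul_comm, mul_assoc, mul_inv_cancel, mul_one]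

private theorem oo_sub (x : I → ZMod (2 ^ k)) (g : Γ) :
    oo ab k (-(fk ab k g).toAdd + x) = oo ab k x := by
  unfold oo
  rw [mk_sub]

variable [Finite I] (L : T' → W → Finset (T × W))

/-- the solution over the group ring of a family of invariant solutions -/
private noncomputable def spread
    (F : Multiplicative (I → ZMod (2 ^ k)) ⧸ (fk ab k).range → T → W → ZMod 2) : T → W → Fin 1 → RK I k :=
  fun t w _ => (AddMonoidAlgebra.coeffLinearEquiv (ZMod 2)).symm
    ((Finsupp.linearEquivFunOnFinite (ZMod 2) (ZMod 2) (I → ZMod (2 ^ k))).symm fun x =>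
      F (QuotientGroup.mk (Multiplicative.ofAdd x)) t (((gg ab k x)⁻¹ : Γ) * w))

private theorem spread_coeff (F : Multiplicative (I → ZMod (2 ^ k)) ⧸ (fk ab k).range → T → W → ZMod 2)
    (t : T) (w : W) (a : Fin 1) (x : I → ZMod (2 ^ k)) : (spread ab k F t w a).coeff x =
      F (QuotientGroup.mk (Multiplicative.ofAdd x)) t (((gg ab k x)⁻¹ : Γ) * w) := rfl

private theorem rk_ext {y z : RK I k} (h : ∀ x, y.coeff x = z.coeff x) : y = z :=
  AddMonoidAlgebra.coeff_injective (Finsupp.ext h)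

private theorem spread_mem (hL : LInv L Γ)
    (F : Multiplicative (I → ZMod (2 ^ k)) ⧸ (fk ab k).range → T → W → ZMod 2)
    (hF : ∀ q, F q ∈ ZL L (Mk ab k) (1 : Mk ab k →* Module.End (ZMod 2) (ZMod 2))) :
    spread ab k F ∈ ZL L Γ (mrep2 (mmap (redR I k) (mu1 ab))) := by
  refine ⟨fun t g w => ?_, fun t' w => ?_⟩
  · funext a
    refine rk_ext k fun x => ?_
    rw [mrep2_apply, mmap_apply, Matrix.mulVec, dotProduct, Fin.sum_univ_one, Matrix.map_apply, mu1_apply,
      redR_ttR, AddMonoidAlgebra.coeff_single_mul_apply, one_mul, spread_coeff, spread_coeff]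
    have h1 := gg_spec ab k x
    have h2 := gg_spec ab k (-(fk ab k g).toAdd + x)
    rw [oo_sub] at h2
    have h3 := mk_sub ab k x g
    rw [← fk_apply, h3]
    have h4 : fk ab k ((gg ab k x)⁻¹ * g * gg ab k (-(fk ab k g).toAdd + x)) = 1 := by
      rw [map_mul, map_mul, map_inv, h1, h2, ofAdd_add, ofAdd_neg, ofAdd_toAdd]
      rw [mul_inv_rev, inv_inv]
      have h5 : ∀ a b c : Multiplicative (I → ZMod (2 ^ k)), a⁻¹ * b * c * (b⁻¹ * (c⁻¹ * a)) = 1 := by
        intro a b c
        apply Multiplicative.toAdd.injective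
        simp only [toAdd_mul, toAdd_inv, toAdd_one]
        abel
      exact h5 _ _ _
    have h6 := (hF (QuotientGroup.mk (Multiplicative.ofAdd x))).1 t
      ⟨(((gg ab k x)⁻¹ * g * gg ab k (-(fk ab k g).toAdd + x) : Γ) : W), mem_Mk.2 h4⟩
      (((gg ab k (-(fk ab k g).toAdd + x))⁻¹ : Γ) * w)
    rw [MonoidHom.one_apply] at h6
    have h7 : ((((gg ab k x)⁻¹ * g * gg ab k (-(fk ab k g).toAdd + x) : Γ) : W)) *
        ((((gg ab k (-(fk ab k g).toAdd + x))⁻¹ : Γ) : W) * w) = (((gg ab k x)⁻¹ : Γ) : W) * ((g : W) * w) := by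
      push_cast
      group
    change F _ t ((((gg ab k x)⁻¹ * g * gg ab k (-(fk ab k g).toAdd + x) : Γ) : W) *
        ((((gg ab k (-(fk ab k g).toAdd + x))⁻¹ : Γ) : W) * w)) = _ at h6
    rw [h7] at h6
    exact h6
  · funext a
    refine rk_ext k fun x => ?_
    have h1 := (hF (QuotientGroup.mk (Multiplicative.ofAdd x))).2 t' (((gg ab k x)⁻¹ : Γ) * w)
    rw [hL _ ((gg ab k x)⁻¹ : Γ).2] at h1
    rw [Finset.sum_apply, AddMonoidAlgebra.coeff_sum, Finsupp.finsetSum_apply]
    simp only [spread_coeff]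
    simp only [mul_assoc] at h1
    exact h1

/-- the dimension of the solutions over the group ring -/
theorem card_mul_z1_le [Finite T] [Γ.FiniteIndex] (hL : LInv L Γ) :
    2 ^ (k * Nat.card I) * z1 L (Mk ab k) ≤
      (Mk ab k).relIndex Γ * Module.finrank (ZMod 2) (ZL L Γ (mrep2 (mmap (redR I k) (mu1 ab)))) := by
  classical
  have := Fintype.ofFinite I
  have hfin : Finite (RK I k) := finite_RK k
  have : Finite (I → ZMod (2 ^ k)) := inferInstance
  have : Finite (Multiplicative (I → ZMod (2 ^ k))) := inferInstance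
  have hQ : Finite (Multiplicative (I → ZMod (2 ^ k)) ⧸ (fk ab k).range) := inferInstance
  have := Fintype.ofFinite (Multiplicative (I → ZMod (2 ^ k)) ⧸ (fk ab k).range)
  have hrel : (Mk ab k).relIndex Γ ≠ 0 := by
    rw [relIndex_Mk]
    exact Nat.card_pos.ne'
  have hle : Mk ab k ≤ Γ := by
    rintro _ ⟨x, _, rfl⟩
    exact x.2
  have hMf : (Mk ab k).FiniteIndex := by
    refine ⟨?_⟩
    rw [← Subgroup.relIndex_mul_index hle]
    exact mul_ne_zero hrel Subgroup.FiniteIndex.index_ne_zero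
  have hf1 : Module.Finite (ZMod 2) (ZL L (Mk ab k) (1 : Mk ab k →* Module.End (ZMod 2) (ZMod 2))) :=
    finite_ZL L _ _
  have hf2 : Module.Finite (ZMod 2) (ZL L Γ (mrep2 (mmap (redR I k) (mu1 ab)))) := finite_ZL L _ _
  let E : (Multiplicative (I → ZMod (2 ^ k)) ⧸ (fk ab k).range →
      ZL L (Mk ab k) (1 : Mk ab k →* Module.End (ZMod 2) (ZMod 2))) →ₗ[ZMod 2]
        ZL L Γ (mrep2 (mmap (redR I k) (mu1 ab))) :=
    { toFun := fun F => ⟨spread ab k fun q => (F q).1, spread_mem ab k L hL _ fun q => (F q).2⟩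
      map_add' := fun F F' => by
        apply Subtype.ext
        funext t w a
        exact rk_ext k fun x => rfl
      map_smul' := fun a F => by
        apply Subtype.ext
        funext t w b
        exact rk_ext k fun x => rfl }
  have hE : Function.Injective E := by
    rw [← LinearMap.ker_eq_bot, LinearMap.ker_eq_bot']
    intro F hF
    funext q
    apply Subtype.ext
    funext t w
    have h1 : (spread ab k (fun q => (F q).1) t w 0).coeff (Multiplicative.toAdd q.out) = 0 := by
      have h2 : spread ab k (fun q => (F q).1) = 0 := congrArg Subtype.val hF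
      rw [h2]
      rfl
    rw [spread_coeff, ofAdd_toAdd, QuotientGroup.out_eq'] at h1
    have h3 := gg_spec ab k (Multiplicative.toAdd q.out)
    have h4 : oo ab k (Multiplicative.toAdd q.out) = q.out := by
      unfold oo
      rw [ofAdd_toAdd, QuotientGroup.out_eq']
    rw [h4, ofAdd_toAdd, inv_mul_cancel] at h3
    have h5 : fk ab k (gg ab k (Multiplicative.toAdd q.out))⁻¹ = 1 := by rw [map_inv, h3, inv_one]
    have h6 := (F q).2.1 t ⟨(((gg ab k (Multiplicative.toAdd q.out))⁻¹ : Γ) : W), mem_Mk.2 h5⟩ w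
    rw [MonoidHom.one_apply] at h6
    exact h6.symm.trans h1
  have h1 := LinearMap.finrank_le_finrank_of_injective hE
  rw [Module.finrank_pi_fintype, Finset.sum_const, Finset.card_univ, smul_eq_mul] at h1
  have h2 := Subgroup.card_eq_card_quotient_mul_card_subgroup (fk ab k).range
  have h3 : Nat.card (Multiplicative (I → ZMod (2 ^ k))) = 2 ^ (k * Nat.card I) := by
    have h4 : Nat.card (Multiplicative (I → ZMod (2 ^ k))) = Nat.card (I → ZMod (2 ^ k)) := rfl
    rw [h4, Nat.card_fun, Nat.card_zmod, pow_mul]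
  rw [← h3, h2, relIndex_Mk, Nat.card_eq_fintype_card (α := Multiplicative (I → ZMod (2 ^ k)) ⧸ (fk ab k).range)]
  calc Fintype.card (Multiplicative (I → ZMod (2 ^ k)) ⧸ (fk ab k).range) * Nat.card (fk ab k).range *
        z1 L (Mk ab k)
      = Nat.card (fk ab k).range * (Fintype.card (Multiplicative (I → ZMod (2 ^ k)) ⧸ (fk ab k).range) *
        z1 L (Mk ab k)) := by ring
    _ ≤ _ := Nat.mul_le_mul_left _ h1

end Count

/-- the coefficients in the character as a matrix representation -/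
theorem zL_chiab (L : T' → W → Finset (T × W)) {Γ : Subgroup W} (ab : Γ →* Multiplicative (I → ℤ)) :
    zL L Γ (mrep (mmap (algebraMap (RI I) (KI I)) (mu1 ab))) = zL L Γ (ch (chiab ab)) := by
  have key : ∀ (g : Γ) (y : Fin 1 → KI I), (mrep (mmap (algebraMap (RI I) (KI I)) (mu1 ab)) g y) 0 =
      ch (chiab ab) g (y 0) := by
    intro g y
    rw [mrep_apply, mmap_apply, Matrix.mulVec, dotProduct, Fin.sum_univ_one, Matrix.map_apply, mu1_apply]
    rfl
  unfold zL
  refine LinearEquiv.finrank_eq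
    { toFun := fun c => ⟨fun t w => c.1 t w 0, fun t g w => ?_, fun t' w => ?_⟩
      invFun := fun c => ⟨fun t w _ => c.1 t w, fun t g w => ?_, fun t' w => ?_⟩
      map_add' := fun _ _ => rfl
      map_smul' := fun _ _ => rfl
      left_inv := fun c => ?_
      right_inv := fun c => rfl }
  · change c.1 t (g * w) 0 = _
    rw [c.2.1 t g w, key]
  · have h := congrFun (c.2.2 t' w) 0
    rw [Finset.sum_apply] at h
    exact h
  · funext a
    rw [Subsingleton.elim a 0, key]
    exact c.2.1 t g w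
  · funext a
    rw [Finset.sum_apply]
    exact c.2.2 t' w
  · apply Subtype.ext
    funext t w a
    change c.1 t w 0 = c.1 t w a
    rw [Subsingleton.elim a 0]

/-- **The growth in the abelian tower** over `Γ` is at most the dimension over the field of the character. -/
theorem grow_rel [Finite T] [Finite T'] [Finite I] {Γ : Subgroup W} [Γ.Normal] [Γ.FiniteIndex]
    (ab : Γ →* Multiplicative (I → ℤ)) (L : T' → W → Finset (T × W)) (hL : LInv L Γ) (ε : ℝ) (hε : 0 < ε) :
    ∃ k₀ : ℕ, ∀ k ≥ k₀, (z1 L (Mk ab k) : ℝ) ≤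
      ((zL L Γ (ch (chiab ab)) : ℝ) + ε) * (Mk ab k).relIndex Γ := by
  classical
  have := Fintype.ofFinite I
  have := Fintype.ofFinite T
  have := Fintype.ofFinite T'
  have : Finite (W ⧸ Γ) := inferInstance
  have := Fintype.ofFinite (W ⧸ Γ)
  obtain ⟨k₀, h₀⟩ := rank_lim (BL L (mu1 ab)) ε hε
  refine ⟨k₀, fun k hk => ?_⟩
  have h1 := h₀ k hk
  have hfin : Finite (RK I k) := finite_RK k
  rw [BL_map, BL_map] at h1
  have h2 := zL2_add_rank (S := RK I k) hL (mmap (redR I k) (mu1 ab))
  have h3 := zL_add_rank hL (mmap (algebraMap (RI I) (KI I)) (mu1 ab))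
  rw [zL_chiab] at h3
  rw [finrank_RK] at h2
  have h4 := card_mul_z1_le ab k L hL
  rw [Nat.card_eq_fintype_card (α := I)] at h4
  have h5 : (zL L Γ (mrep2 (mmap (redR I k) (mu1 ab))) : ℝ) +
      (Module.finrank (ZMod 2) (LinearMap.range
        ((BL L (mmap (redR I k) (mu1 ab))).mulVecLin.restrictScalars (ZMod 2))) : ℝ) =
      (Fintype.card (T × (W ⧸ Γ) × Fin 1) : ℝ) * 2 ^ (k * Fintype.card I) := by exact_mod_cast h2
  have h6 : (zL L Γ (ch (chiab ab)) : ℝ) +
      ((BL L (mmap (algebraMap (RI I) (KI I)) (mu1 ab))).rank : ℝ) =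
      (Fintype.card (T × (W ⧸ Γ) × Fin 1) : ℝ) := by exact_mod_cast h3
  have h7 : (2 : ℝ) ^ (k * Fintype.card I) * (z1 L (Mk ab k) : ℝ) ≤
      (Mk ab k).relIndex Γ * (zL L Γ (mrep2 (mmap (redR I k) (mu1 ab))) : ℝ) := by exact_mod_cast h4
  have h8 : (0 : ℝ) < 2 ^ (k * Fintype.card I) := by positivity
  have h9 : (zL L Γ (mrep2 (mmap (redR I k) (mu1 ab))) : ℝ) ≤
      ((zL L Γ (ch (chiab ab)) : ℝ) + ε) * 2 ^ (k * Fintype.card I) := by
    rw [← h6] at h5
    nlinarith [h1, h5]
  have h10 : (0 : ℝ) ≤ (Mk ab k).relIndex Γ := Nat.cast_nonneg _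
  have h11 : (2 : ℝ) ^ (k * Fintype.card I) * (z1 L (Mk ab k) : ℝ) ≤
      2 ^ (k * Fintype.card I) * (((zL L Γ (ch (chiab ab)) : ℝ) + ε) * (Mk ab k).relIndex Γ) := by
    calc (2 : ℝ) ^ (k * Fintype.card I) * (z1 L (Mk ab k) : ℝ)
        ≤ (Mk ab k).relIndex Γ * (zL L Γ (mrep2 (mmap (redR I k) (mu1 ab))) : ℝ) := h7
      _ ≤ (Mk ab k).relIndex Γ * (((zL L Γ (ch (chiab ab)) : ℝ) + ε) * 2 ^ (k * Fintype.card I)) :=
        mul_le_mul_of_nonneg_left h9 h10
      _ = _ := by ring
  exact le_of_mul_le_mul_left h11 h8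

/-- the index of `Mk` for surjective `ab` -/
theorem Mk_relIndex [Fintype I] {Γ : Subgroup W} (ab : Γ →* Multiplicative (I → ℤ)) (hab : Function.Surjective ab)
    (k : ℕ) : (Mk ab k).relIndex Γ = 2 ^ (k * Fintype.card I) := by
  classical
  have hs : Function.Surjective (fk ab k) := by
    intro x
    have h1 : ∀ i, ∃ z : ℤ, (z : ZMod (2 ^ k)) = (Multiplicative.toAdd x) i := fun i =>
      ZMod.intCast_surjective _
    choose z hz using h1
    obtain ⟨g, hg⟩ := hab (Multiplicative.ofAdd z)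
    refine ⟨g, ?_⟩
    apply Multiplicative.toAdd.injective
    rw [fk_apply, hg, toAdd_ofAdd]
    funext i
    exact hz i
  have h1 : (fk ab k).range = ⊤ := MonoidHom.range_eq_top.2 hs
  rw [relIndex_Mk, h1, Nat.card_congr Subgroup.topEquiv.toEquiv]
  have h4 : Nat.card (Multiplicative (I → ZMod (2 ^ k))) = Nat.card (I → ZMod (2 ^ k)) := rfl
  rw [h4, Nat.card_fun, Nat.card_zmod, pow_mul, Nat.card_eq_fintype_card]

/-- `Mk` is normal in the whole group, if `ab` is surjective and every homomorphism to `ℤ` factors through `ab` -/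
theorem Mk_normal {Γ : Subgroup W} [Γ.Normal] (ab : Γ →* Multiplicative (I → ℤ)) (hab : Function.Surjective ab)
    (h0 : ∀ f : Γ →* Multiplicative ℤ, ∀ g, ab g = 1 → f g = 1) (k : ℕ) : (Mk ab k).Normal := by
  refine ⟨fun x hx w => ?_⟩
  obtain ⟨g, hg, rfl⟩ := hx
  have hg' : fk ab k g = 1 := hg
  have h1 : ∀ i, ∃ z : ℤ, (Multiplicative.toAdd (ab g)) i = (2 ^ k : ℕ) * z := by
    intro i
    have h2 : (((Multiplicative.toAdd (ab g)) i : ℤ) : ZMod (2 ^ k)) = 0 :=
      congrFun (congrArg Multiplicative.toAdd hg') i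
    exact (ZMod.intCast_zmod_eq_zero_iff_dvd _ _).1 h2
  choose z hz using h1
  obtain ⟨g', hg2⟩ := hab (Multiplicative.ofAdd z)
  have h3 : ab (g * (g' ^ 2 ^ k)⁻¹) = 1 := by
    apply Multiplicative.toAdd.injective
    rw [map_mul, map_inv, map_pow, hg2, toAdd_mul, toAdd_inv, toAdd_pow, toAdd_ofAdd, toAdd_one]
    funext i
    rw [Pi.add_apply, Pi.neg_apply, Pi.smul_apply, hz i, nsmul_eq_mul, Pi.zero_apply]
    ring
  have h4 : (w * (g : W) * w⁻¹ : W) = ((MulAut.conjNormal w g : Γ) : W) := (MulAut.conjNormal_apply w g).symm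
  change w * (g : W) * w⁻¹ ∈ Mk ab k
  rw [h4, mem_Mk]
  apply Multiplicative.toAdd.injective
  rw [fk_apply, toAdd_one]
  funext i
  have h5 := h0 ((AddMonoidHom.toMultiplicative (Pi.evalAddMonoidHom (fun _ : I => ℤ) i)).comp
    (ab.comp (MulAut.conjNormal w).toMonoidHom)) _ h3
  rw [map_mul, map_inv, mul_inv_eq_one, map_pow] at h5
  have h6 : (Multiplicative.toAdd (ab (MulAut.conjNormal w g))) i =
      (2 ^ k : ℕ) * (Multiplicative.toAdd (ab (MulAut.conjNormal w g'))) i := by
    have h7 := congrArg Multiplicative.toAdd h5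
    rw [toAdd_pow, nsmul_eq_mul] at h7
    exact h7
  change (((Multiplicative.toAdd (ab (MulAut.conjNormal w g))) i : ℤ) : ZMod (2 ^ k)) = 0
  rw [h6, ZMod.intCast_zmod_eq_zero_iff_dvd]
  exact Dvd.intro _ rfl

/-- the growth of the invariants of the kernels `Mk` is at most the dimension of the character -/
theorem grow [Finite T] [Finite T'] [Fintype I] {L : T' → W → Finset (T × W)} {Γ : Subgroup W} [Γ.Normal]
    [Γ.FiniteIndex] (hL : LInv L Γ) (ab : Γ →* Multiplicative (I → ℤ)) (hab : Function.Surjective ab)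
    (ε : ℝ) (hε : 0 < ε) : ∃ k₀ : ℕ, ∀ k ≥ k₀,
      (z1 L (Mk ab k) : ℝ) ≤ ((zL L Γ (ch (chiab ab)) : ℝ) + ε) * 2 ^ (k * Fintype.card I) := by
  obtain ⟨k₀, h₀⟩ := grow_rel ab L hL ε hε
  refine ⟨k₀, fun k hk => ?_⟩
  have h1 := h₀ k hk
  rw [Mk_relIndex ab hab] at h1
  exact_mod_cast h1

end Pool.Agent.S10.EA

end

section

/-!
# Project S10, block E: triangular representations over a finite ring of characteristic two

A representation of a normal subgroup `Γ` of finite index by upper triangular matrices over a finite ring of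
characteristic two, with diagonal entries of two-power order, is trivial on a subgroup `N ≤ Γ` which is normal of finite
index in the whole group and such that `Γ / N` is a two-group.
-/

set_option autoImplicit false

open Finset

namespace Pool.Agent.S10.EA

open Pool.Agent.S9

section Mat

variable {S : Type} [CommRing S] {n : ℕ}

private theorem dg_mul {A B : Matrix (Fin n) (Fin n) S} (hA : ∀ a b, b < a → A a b = 0)
    (hB : ∀ a b, b < a → B a b = 0) (a : Fin n) : (A * B) a a = A a a * B a a := by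
  rw [Matrix.mul_apply, Finset.sum_eq_single a]
  · intro c _ hc
    rcases lt_or_gt_of_ne hc with h | h
    · rw [hA a c h, zero_mul]
    · rw [hB c a h, mul_zero]
  · intro h
    exact absurd (mem_univ a) h

private theorem tri_mul {A B : Matrix (Fin n) (Fin n) S} (hA : ∀ a b, b < a → A a b = 0)
    (hB : ∀ a b, b < a → B a b = 0) : ∀ a b, b < a → (A * B) a b = 0 := by
  intro a b h
  rw [Matrix.mul_apply]
  refine sum_eq_zero fun c _ => ?_
  rcases lt_or_ge c a with h1 | h1
  · rw [hA a c h1, zero_mul]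
  · rw [hB c b (lt_of_lt_of_le h h1), mul_zero]

/-- a matrix in `UT` has two-power order -/
theorem ut_pow [CharP S 2] {A : Matrix (Fin n) (Fin n) S} (hA : UT A) :
    ∃ k : ℕ, A ^ 2 ^ k = 1 := by
  -- a common exponent for the diagonal
  choose f hf using hA.2
  obtain ⟨k, hk⟩ : ∃ k : ℕ, ∀ a, A a a ^ 2 ^ k = 1 := by
    refine ⟨∑ a, f a, fun a => ?_⟩
    have h1 : f a ≤ ∑ a, f a := single_le_sum (fun _ _ => Nat.zero_le _) (mem_univ a)
    obtain ⟨c, hc⟩ := Nat.exists_eq_add_of_le h1
    rw [hc, pow_add, pow_mul, hf, one_pow]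
  have h1 : ∀ m : ℕ, (∀ a b, b < a → (A ^ m) a b = 0) ∧ ∀ a, (A ^ m) a a = A a a ^ m := by
    intro m
    induction m with
    | zero =>
      refine ⟨fun a b h => ?_, fun a => ?_⟩
      · rw [pow_zero, Matrix.one_apply_ne h.ne']
      · rw [pow_zero, pow_zero, Matrix.one_apply_eq]
    | succ m ih =>
      refine ⟨fun a b h => ?_, fun a => ?_⟩
      · rw [pow_succ]
        exact tri_mul ih.1 hA.1 a b h
      · rw [pow_succ, dg_mul ih.1 hA.1, ih.2, pow_succ]
  obtain ⟨B, hB⟩ : ∃ B, B = A ^ 2 ^ k - 1 := ⟨_, rfl⟩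
  have hB1 : A ^ 2 ^ k = 1 + B := by rw [hB]; abel
  have hB2 : ∀ a b, b ≤ a → B a b = 0 := by
    intro a b h
    rw [hB, Matrix.sub_apply]
    rcases eq_or_lt_of_le h with h2 | h2
    · subst h2
      rw [(h1 _).2, hk, Matrix.one_apply_eq, sub_self]
    · rw [(h1 _).1 a b h2, Matrix.one_apply_ne h2.ne', sub_zero]
  -- `B` is nilpotent
  have hB3 : ∀ m : ℕ, ∀ a b : Fin n, b.val < a.val + m → (B ^ m) a b = 0 := by
    intro m
    induction m with
    | zero =>
      intro a b h
      rw [pow_zero, Matrix.one_apply_ne]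
      intro h2
      rw [h2] at h
      omega
    | succ m ih =>
      intro a b h
      rw [pow_succ, Matrix.mul_apply]
      refine sum_eq_zero fun c _ => ?_
      rcases Nat.lt_or_ge c.val (a.val + m) with h2 | h2
      · rw [ih a c h2, zero_mul]
      · rw [hB2 c b (by rw [Fin.le_def]; omega), mul_zero]
  have hB4 : B ^ n = 0 := by
    ext a b
    rw [hB3 n a b (by have := b.isLt; omega), Matrix.zero_apply]
  refine ⟨k + n, ?_⟩
  rw [pow_add, pow_mul, hB1]
  rcases Nat.eq_zero_or_pos n with hn | hn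
  · subst hn
    ext a b
    exact a.elim0
  haveI : Nonempty (Fin n) := ⟨⟨0, hn⟩⟩
  haveI : Fact (Nat.Prime 2) := ⟨Nat.prime_two⟩
  haveI : CharP (Matrix (Fin n) (Fin n) S) 2 := inferInstance
  have h5 : (1 + B) ^ 2 ^ n = 1 ^ 2 ^ n + B ^ 2 ^ n := by
    have h6 : ∀ m : ℕ, (1 + B) ^ 2 ^ m = 1 + B ^ 2 ^ m := by
      intro m
      induction m with
      | zero => rw [pow_zero, pow_one, pow_one]
      | succ m ih =>
        rw [pow_succ, pow_mul, ih, pow_mul, pow_two, pow_two]
        have h7 : (B ^ 2 ^ m) + (B ^ 2 ^ m) = 0 := CharTwo.add_self_eq_zero _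
        have h8 : (1 + B ^ 2 ^ m) * (1 + B ^ 2 ^ m) =
            1 + ((B ^ 2 ^ m) + (B ^ 2 ^ m)) + B ^ 2 ^ m * B ^ 2 ^ m := by noncomm_ring
        rw [h8, h7, add_zero]
    rw [h6, one_pow]
  rw [h5, one_pow]
  have h9 : n ≤ 2 ^ n := Nat.lt_two_pow_self.le
  obtain ⟨c, hc⟩ := Nat.exists_eq_add_of_le h9
  rw [hc, pow_add, hB4, zero_mul, add_zero]

/-- a common exponent -/
theorem ut_exp [CharP S 2] [Finite S] :
    ∃ e : ℕ, ∀ A : Matrix (Fin n) (Fin n) S, UT A → A ^ 2 ^ e = 1 := by
  classical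
  haveI := Fintype.ofFinite (Matrix (Fin n) (Fin n) S)
  choose f hf using fun A : {A : Matrix (Fin n) (Fin n) S // UT A} => ut_pow A.2
  haveI := Fintype.ofFinite {A : Matrix (Fin n) (Fin n) S // UT A}
  refine ⟨∑ A, f A, fun A hA => ?_⟩
  have h1 : f ⟨A, hA⟩ ≤ ∑ A, f A := single_le_sum (fun _ _ => Nat.zero_le _) (mem_univ _)
  obtain ⟨c, hc⟩ := Nat.exists_eq_add_of_le h1
  rw [hc, pow_add, pow_mul, hf ⟨A, hA⟩, one_pow]

end Mat

section Grp

variable {W : Type} [Group W] (Γ : Subgroup W) [Γ.Normal] [Γ.FiniteIndex]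

/-- **A triangular representation over a finite ring** is trivial on a subgroup of two-power index in `Γ` which is
normal in the whole group. -/
theorem two_sub {S : Type} [CommRing S] [CharP S 2] [Finite S] {n : ℕ}
    (μ : Γ →* Matrix (Fin n) (Fin n) S) (hμ : ∀ g, UT (μ g)) :
    ∃ N : Subgroup W, N.Normal ∧ N.FiniteIndex ∧ N ≤ Γ ∧
      (∀ x (h : x ∈ Γ), x ∈ N → μ ⟨x, h⟩ = 1) ∧ ∀ x ∈ Γ, ∃ k : ℕ, x ^ 2 ^ k ∈ N := by
  classical
  obtain ⟨e, he⟩ := ut_exp (S := S) (n := n)
  let K : Subgroup W := μ.ker.map Γ.subtype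
  have hK : ∀ x, x ∈ K ↔ ∃ h : x ∈ Γ, μ ⟨x, h⟩ = 1 := by
    intro x
    constructor
    · rintro ⟨y, hy, rfl⟩
      exact ⟨y.2, hy⟩
    · rintro ⟨h, h1⟩
      exact ⟨⟨x, h⟩, h1, rfl⟩
  have hfin : K.FiniteIndex := by
    haveI h1 : μ.ker.FiniteIndex := by
      haveI : Finite (Matrix (Fin n) (Fin n) S) := inferInstance
      refine ⟨fun h0 => ?_⟩
      have h2 : Finite (Γ ⧸ μ.ker) := by
        refine Finite.of_injective (β := Matrix (Fin n) (Fin n) S)
          (Quotient.lift (fun g => μ g) fun a b hab => ?_) ?_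
        · have h3 : a⁻¹ * b ∈ μ.ker := QuotientGroup.leftRel_apply.1 hab
          have h4 : μ (a⁻¹ * b) = 1 := h3
          have h5 : μ a * μ (a⁻¹ * b) = μ b := by rw [← map_mul, mul_inv_cancel_left]
          rw [h4, mul_one] at h5
          exact h5
        · intro a b
          induction a using Quotient.inductionOn with | _ a => ?_
          induction b using Quotient.inductionOn with | _ b => ?_
          intro hab
          have h6 : μ a = μ b := hab
          refine Quotient.sound (QuotientGroup.leftRel_apply.2 ?_)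
          show μ (a⁻¹ * b) = 1
          rw [map_mul, ← h6, ← map_mul, inv_mul_cancel, map_one]
      exact Subgroup.index_ne_zero_of_finite h0
    refine ⟨?_⟩
    have h2 : K.relIndex Γ = μ.ker.index := by
      have h3 : K.subgroupOf Γ = μ.ker := by
        ext x
        rw [Subgroup.mem_subgroupOf, hK]
        constructor
        · rintro ⟨_, h⟩
          exact h
        · intro h
          exact ⟨x.2, h⟩
      rw [Subgroup.relIndex, h3]
    have hle : K ≤ Γ := fun x hx => ((hK x).1 hx).1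
    have h4 := Subgroup.relIndex_mul_index hle
    rw [← h4, h2]
    exact mul_ne_zero h1.index_ne_zero Subgroup.FiniteIndex.index_ne_zero
  refine ⟨K.normalCore, inferInstance, inferInstance, ?_, ?_, ?_⟩
  · intro x hx
    exact ((hK x).1 (Subgroup.normalCore_le K hx)).1
  · intro x h hx
    obtain ⟨_, h2⟩ := (hK x).1 (Subgroup.normalCore_le K hx)
    exact h2
  · intro x hx
    refine ⟨e, fun w => ?_⟩
    have h1 : w * x * w⁻¹ ∈ Γ := Subgroup.Normal.conj_mem inferInstance x hx w
    have h2 : w * x ^ 2 ^ e * w⁻¹ = (w * x * w⁻¹) ^ 2 ^ e := (conj_pow).symm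
    rw [h2]
    refine (hK _).2 ⟨Γ.pow_mem h1 _, ?_⟩
    have h3 : (⟨(w * x * w⁻¹) ^ 2 ^ e, Γ.pow_mem h1 _⟩ : Γ) = ⟨w * x * w⁻¹, h1⟩ ^ 2 ^ e := rfl
    rw [h3, map_pow, he _ (hμ _)]

/-- the same for the reduction `t ^ (2 ^ k) = 1` of a representation over the Laurent polynomials -/
theorem two_red {I : Type} [Finite I] {n : ℕ} (μ : Γ →* Matrix (Fin n) (Fin n) (RI I))
    (htri : ∀ g a b, b < a → μ g a b = 0) (w : Γ → Fin n → I → ℤ)
    (hw : ∀ g a, μ g a a = ttR (w g a)) (k : ℕ) :
    ∃ N : Subgroup W, N.Normal ∧ N.FiniteIndex ∧ N ≤ Γ ∧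
      (∀ x (h : x ∈ Γ), x ∈ N → (μ ⟨x, h⟩).map (redR I k) = 1) ∧
        ∀ x ∈ Γ, ∃ l : ℕ, x ^ 2 ^ l ∈ N := by
  haveI := finite_RK (I := I) k
  obtain ⟨N, h1, h2, h3, h4, h5⟩ := two_sub Γ
    (((redR I k).mapMatrix : Matrix (Fin n) (Fin n) (RI I) →+* Matrix (Fin n) (Fin n) (RK I k)).toMonoidHom.comp μ)
    (fun g => ut_red k (htri g) fun a => ⟨_, hw g a⟩)
  exact ⟨N, h1, h2, h3, fun x h hx => h4 x h hx, h5⟩

end Grp

end Pool.Agent.S10.EA

end
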