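import Pool.Agent.H71.TSG.M38

/-! The parts of this file: H37.TM.Sd, H37.TM.SdD, H37.TM.SdT, H37.TM.StarA, S10.DuDefs_1, S10.DuKer, S10.DuPsi. -/

section

/-!
# Project TM: the complex of the flags

The flags of a homology manifold form a pseudomanifold (`sd_psm`); its vertices are the simplices.
-/

set_option autoImplicit false
set_option linter.unusedSectionVars false

open Finset Pointwise

namespace Pool.Agent.H37.TM

variable {U : Type} [DecidableEq U] {K B : Set (Finset U)} {n : ℕ}

/-- the simplices of `K`, the vertices of the subdivision -/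
abbrev Sx (K : Set (Finset U)) : Type := {s : Finset U // s ∈ K}

/-- the flags of `K` -/
def sdK (K : Set (Finset U)) : Set (Finset (Sx K)) :=
  {c | c.Nonempty ∧ ∀ a ∈ c, ∀ b ∈ c, a.1 ⊆ b.1 ∨ b.1 ⊆ a.1}

/-- the flags of `B` -/
def sdB (K B : Set (Finset U)) : Set (Finset (Sx K)) :=
  {c | c ∈ sdK K ∧ ∀ a ∈ c, a.1 ∈ B}

theorem sd_sub {c : Finset (Sx K)} (hc : c ∈ sdK K) {a b : Sx K} (ha : a ∈ c) (hb : b ∈ c)
    (h : a.1.card ≤ b.1.card) : a.1 ⊆ b.1 := by
  rcases hc.2 a ha b hb with h1 | h1
  · exact h1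
  · rw [Finset.eq_of_subset_of_card_le h1 h]

theorem sd_inj {c : Finset (Sx K)} (hc : c ∈ sdK K) :
    Set.InjOn (fun a : Sx K => a.1.card) (c : Set (Sx K)) := by
  intro a ha b hb h
  have h' : a.1.card = b.1.card := h
  exact Subtype.ext (Finset.eq_of_subset_of_card_le (sd_sub hc ha hb h'.le) h'.ge)

/-- the largest simplex of a flag -/
theorem sd_top {c : Finset (Sx K)} (hc : c ∈ sdK K) : ∃ a ∈ c, ∀ b ∈ c, b.1 ⊆ a.1 := by
  obtain ⟨a, ha, h⟩ := Finset.exists_max_image c (fun a => a.1.card) hc.1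
  exact ⟨a, ha, fun b hb => sd_sub hc hb ha (h b hb)⟩

theorem sd_down {c c' : Finset (Sx K)} (hc : c ∈ sdK K) (h : c' ⊆ c) (h' : c'.Nonempty) :
    c' ∈ sdK K :=
  ⟨h', fun a ha b hb => hc.2 a (h ha) b (h hb)⟩

theorem sd_image (hM : Psm K B n) {c : Finset (Sx K)} (_hc : c ∈ sdK K) :
    c.image (fun a : Sx K => a.1.card) ⊆ Finset.Icc 1 (n + 1) := by
  intro i hi
  rw [Finset.mem_image] at hi
  obtain ⟨a, _, rfl⟩ := hi
  rw [Finset.mem_Icc]
  exact ⟨Finset.card_pos.2 (hM.ne _ a.2), hM.card_le _ a.2⟩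

theorem sd_card_le (hM : Psm K B n) {c : Finset (Sx K)} (hc : c ∈ sdK K) : c.card ≤ n + 1 := by
  have h1 := Finset.card_le_card (sd_image hM hc)
  rw [Finset.card_image_of_injOn (sd_inj hc), Nat.card_Icc] at h1
  omega

/-- the simplices which meet a finite set of vertices -/
theorem sd_near (hM : Psm K B n) (τ : Finset U) : {a : Sx K | ∃ v ∈ τ, v ∈ a.1}.Finite := by
  have h1 : ∀ v : U, {s | s ∈ K ∧ v ∈ s}.Finite := by
    intro v
    by_cases h : ({v} : Finset U) ∈ K
    · refine (hM.locfin _ h).subset fun t ht => ⟨ht.1, ?_⟩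
      rw [Finset.singleton_subset_iff]; exact ht.2
    · refine Set.Finite.subset Set.finite_empty fun t ht => ?_
      exact absurd (hM.down t ht.1 {v} (Finset.singleton_subset_iff.2 ht.2)
        (Finset.singleton_nonempty v)) h
  have h2 : (⋃ v ∈ τ, {s | s ∈ K ∧ v ∈ s}).Finite :=
    Set.Finite.biUnion (Finset.finite_toSet τ) fun v _ => h1 v
  refine Set.Finite.of_finite_image (f := Subtype.val) (h2.subset ?_)
    (Subtype.val_injective.injOn)
  rintro _ ⟨a, ⟨v, hv, hva⟩, rfl⟩
  simp only [Set.mem_iUnion, exists_prop]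
  exact ⟨v, hv, a.2, hva⟩

theorem sd_locfin (hM : Psm K B n) {s : Finset (Sx K)} (hs : s ∈ sdK K) :
    {t | t ∈ sdK K ∧ s ⊆ t}.Finite := by
  obtain ⟨a, ha⟩ := hs.1
  have h1 := sd_near hM a.1
  refine (h1.toFinset.powerset.finite_toSet).subset ?_
  rintro t ⟨ht, hst⟩
  rw [Finset.mem_coe, Finset.mem_powerset]
  intro b hb
  rw [Set.Finite.mem_toFinset]
  rcases ht.2 a (hst ha) b hb with h | h
  · obtain ⟨v, hv⟩ := hM.ne _ a.2
    exact ⟨v, hv, h hv⟩
  · obtain ⟨v, hv⟩ := hM.ne _ b.2
    exact ⟨v, h hv, hv⟩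

theorem mem_cofs_sd (hM : Psm K B n) {s : Finset (Sx K)} (hs : s ∈ sdK K) {j : ℕ}
    {t : Finset (Sx K)} : t ∈ cofs (sdK K) s j ↔ t ∈ sdK K ∧ s ⊆ t ∧ t.card = j := by
  have h : {t' | t' ∈ sdK K ∧ s ⊆ t' ∧ t'.card = j}.Finite :=
    (sd_locfin hM hs).subset fun t' h => ⟨h.1, h.2.1⟩
  unfold cofs
  rw [dif_pos h, Set.Finite.mem_toFinset]
  rfl

/-- counting the fillings of the gap of size `j` -/
theorem sd_count (hM : Psm K B n) {s : Finset (Sx K)} (hs : s ∈ sdK K) (hc : s.card = n) {j : ℕ}
    (hj : j ∈ Finset.Icc 1 (n + 1)) (hjs : j ∉ s.image (fun a : Sx K => a.1.card))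
    (G : Finset (Finset U)) (hG : ∀ b, b ∈ G ↔ b ∈ K ∧ b.card = j ∧
      (∀ e ∈ s, e.1.card < j → e.1 ⊆ b) ∧ ∀ e ∈ s, j < e.1.card → b ⊆ e.1) :
    (cofs (sdK K) s (n + 1)).card = G.card := by
  classical
  have hne : ∀ e ∈ s, e.1.card ≠ j := fun e he h => hjs (Finset.mem_image.2 ⟨e, he, h⟩)
  have hnot : ∀ b (hb : b ∈ G), (⟨b, ((hG b).1 hb).1⟩ : Sx K) ∉ s := fun b hb h =>
    hne _ h ((hG b).1 hb).2.1
  symm
  refine Finset.card_bij (fun b hb => insert (⟨b, ((hG b).1 hb).1⟩ : Sx K) s) ?_ ?_ ?_
  · intro b hb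
    obtain ⟨h1, h2, h3, h4⟩ := (hG b).1 hb
    rw [mem_cofs_sd hM hs]
    refine ⟨⟨Finset.insert_nonempty _ _, ?_⟩, Finset.subset_insert _ _, ?_⟩
    · have hcmp : ∀ e ∈ s, e.1 ⊆ b ∨ b ⊆ e.1 := by
        intro e he
        rcases Nat.lt_trichotomy e.1.card j with h | h | h
        · exact Or.inl (h3 e he h)
        · exact absurd h (hne e he)
        · exact Or.inr (h4 e he h)
      intro x hx y hy
      rw [Finset.mem_insert] at hx hy
      rcases hx with rfl | hx <;> rcases hy with rfl | hy
      · exact Or.inl subset_rfl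
      · exact (hcmp y hy).symm
      · exact hcmp x hx
      · exact hs.2 x hx y hy
    · rw [Finset.card_insert_of_notMem (hnot b hb), hc]
  · intro b hb b' hb' h
    have h1 : (⟨b, ((hG b).1 hb).1⟩ : Sx K) ∈ insert (⟨b', ((hG b').1 hb').1⟩ : Sx K) s := by
      have h0 : insert (⟨b, ((hG b).1 hb).1⟩ : Sx K) s =
        insert (⟨b', ((hG b').1 hb').1⟩ : Sx K) s := h
      rw [← h0]; exact Finset.mem_insert_self _ _
    rw [Finset.mem_insert] at h1
    rcases h1 with h1 | h1
    · exact congrArg Subtype.val h1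
    · exact absurd h1 (hnot b hb)
  · intro t ht
    rw [mem_cofs_sd hM hs] at ht
    obtain ⟨h1, h2, h3⟩ := ht
    have h4 : (t \ s).card = 1 := by
      rw [Finset.card_sdiff_of_subset h2]; omega
    obtain ⟨b, hb⟩ := Finset.card_eq_one.1 h4
    have hb1 : b ∈ t ∧ b ∉ s := by
      rw [← Finset.mem_sdiff, hb]; exact Finset.mem_singleton_self b
    have h5 : t.image (fun a : Sx K => a.1.card) = Finset.Icc 1 (n + 1) := by
      refine Finset.eq_of_subset_of_card_le (sd_image hM h1) ?_
      rw [Finset.card_image_of_injOn (sd_inj h1), Nat.card_Icc, h3]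
      omega
    have h6 : insert b s = t := by
      rw [← Finset.sdiff_union_of_subset h2, hb]; rfl
    have h7 : b.1.card = j := by
      have h8 : j ∈ t.image (fun a : Sx K => a.1.card) := by rw [h5]; exact hj
      rw [Finset.mem_image] at h8
      obtain ⟨e, he, hej⟩ := h8
      rw [← h6, Finset.mem_insert] at he
      rcases he with rfl | he
      · exact hej
      · exact absurd hej (hne e he)
    refine ⟨b.1, (hG b.1).2 ⟨b.2, h7, ?_, ?_⟩, h6⟩
    · intro e he h
      exact sd_sub h1 (h2 he) hb1.1 (by omega)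
    · intro e he h
      exact sd_sub h1 hb1.1 (h2 he) (by omega)

/-- **The flags form a pseudomanifold.** -/
theorem sd_psm (hM : Psm K B n) : Psm (sdK K) (sdB K B) n where
  ne := fun s hs => hs.1
  down := fun s hs t hts ht => sd_down hs hts ht
  bd_sub := fun s hs => hs.1
  bd_down := fun s hs t hts ht => ⟨sd_down hs.1 hts ht, fun a ha => hs.2 a (hts ha)⟩
  locfin := fun s hs => sd_locfin hM hs
  card_le := fun s hs => sd_card_le hM hs
  even := by
    classical
    intro s hs hB hc
    -- the missing size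
    have h1 : (Finset.Icc 1 (n + 1) \ s.image (fun a : Sx K => a.1.card)).card = 1 := by
      rw [Finset.card_sdiff_of_subset (sd_image hM hs),
        Finset.card_image_of_injOn (sd_inj hs), Nat.card_Icc, hc]
      omega
    obtain ⟨j, hj⟩ := Finset.card_eq_one.1 h1
    have hj1 : j ∈ Finset.Icc 1 (n + 1) ∧ j ∉ s.image (fun a : Sx K => a.1.card) := by
      rw [← Finset.mem_sdiff, hj]; exact Finset.mem_singleton_self j
    have hex : ∀ i, 1 ≤ i → i ≤ n + 1 → i ≠ j → ∃ e ∈ s, e.1.card = i := by
      intro i hi1 hi2 hij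
      by_contra hne
      have h2 : i ∈ Finset.Icc 1 (n + 1) \ s.image (fun a : Sx K => a.1.card) := by
        rw [Finset.mem_sdiff]
        refine ⟨Finset.mem_Icc.2 ⟨hi1, hi2⟩, fun h => hne ?_⟩
        rw [Finset.mem_image] at h
        exact h
      rw [hj, Finset.mem_singleton] at h2
      exact hij h2
    have hne : ∀ e ∈ s, e.1.card ≠ j := fun e he h => hj1.2 (Finset.mem_image.2 ⟨e, he, h⟩)
    have hn1 : 1 ≤ n := by
      rw [← hc]; exact Finset.card_pos.2 hs.1
    have hjI := Finset.mem_Icc.1 hj1.1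
    by_cases hjn : j = n + 1
    · -- the top gap
      obtain ⟨r, hr, hrc⟩ := hex n hn1 (by omega) (by omega)
      have hrmax : ∀ e ∈ s, e.1 ⊆ r.1 := by
        intro e he
        have h2 := hM.card_le _ e.2
        have h3 := hne e he
        exact sd_sub hs he hr (by omega)
      have hrB : r.1 ∉ B := by
        intro h
        exact hB ⟨hs, fun a ha => hM.bd_down _ h _ (hrmax a ha) (hM.ne _ a.2)⟩
      rw [sd_count hM hs hc hj1.1 hj1.2 (cofs K r.1 (n + 1)) (by
        intro b
        rw [mem_cofsP hM r.2]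
        constructor
        · rintro ⟨h2, h3, h4⟩
          refine ⟨h2, by omega, fun e he _ => (hrmax e he).trans h3, fun e he h => ?_⟩
          have h5 := hM.card_le _ e.2
          omega
        · rintro ⟨h2, h3, h4, _⟩
          exact ⟨h2, h4 r hr (by omega), by omega⟩)]
      exact hM.even r.1 r.2 hrB hrc
    · -- two fillings
      obtain ⟨c, hcs, hcc⟩ := hex (j + 1) (by omega) (by omega) (by omega)
      obtain ⟨a, ha1, ha2, ha3⟩ : ∃ a : Finset U, a ⊆ c.1 ∧ a.card + 1 = j ∧
          ∀ b : Finset U, (∀ e ∈ s, e.1.card < j → e.1 ⊆ b) ↔ a ⊆ b := by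
        by_cases hj2 : j = 1
        · refine ⟨∅, Finset.empty_subset _, by rw [hj2]; rfl, fun b => ?_⟩
          constructor
          · intro _; exact Finset.empty_subset _
          · intro _ e he h
            have h5 := Finset.card_pos.2 (hM.ne _ e.2)
            omega
        · obtain ⟨a, ha, hac⟩ := hex (j - 1) (by omega) (by omega) (by omega)
          refine ⟨a.1, sd_sub hs ha hcs (by omega), by omega, fun b => ?_⟩
          constructor
          · intro h; exact h a ha (by omega)
          · intro h e he h'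
            exact (sd_sub hs he ha (by omega)).trans h
      have h2 : (c.1 \ a).card = 2 := by
        rw [Finset.card_sdiff_of_subset ha1]; omega
      have h3 : ((c.1 \ a).image fun x => insert x a).card = 2 := by
        rw [Finset.card_image_of_injOn, h2]
        intro x hx y hy hxy
        have h4 : x ∈ insert y a := by
          have h0 : insert x a = insert y a := hxy
          rw [← h0]; exact Finset.mem_insert_self _ _
        rw [Finset.mem_insert] at h4
        rcases h4 with h4 | h4
        · exact h4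
        · exact absurd h4 (Finset.mem_sdiff.1 hx).2
      rw [sd_count hM hs hc hj1.1 hj1.2 ((c.1 \ a).image fun x => insert x a) (by
        intro b
        rw [ha3 b, Finset.mem_image]
        constructor
        · rintro ⟨x, hx, rfl⟩
          rw [Finset.mem_sdiff] at hx
          have h4 : insert x a ⊆ c.1 := Finset.insert_subset hx.1 ha1
          refine ⟨hM.down _ c.2 _ h4 (Finset.insert_nonempty _ _), ?_,
            Finset.subset_insert _ _, fun e he h => ?_⟩
          · rw [Finset.card_insert_of_notMem hx.2]; omega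
          · exact h4.trans (sd_sub hs hcs he (by omega))
        · rintro ⟨_, h5, h6, h7⟩
          have h8 := h7 c hcs (by omega)
          have h9 : (b \ a).card = 1 := by
            rw [Finset.card_sdiff_of_subset h6]; omega
          obtain ⟨x, hx⟩ := Finset.card_eq_one.1 h9
          have hx1 : x ∈ b ∧ x ∉ a := by
            rw [← Finset.mem_sdiff, hx]; exact Finset.mem_singleton_self x
          refine ⟨x, Finset.mem_sdiff.2 ⟨h8 hx1.1, hx1.2⟩, ?_⟩
          rw [← Finset.sdiff_union_of_subset h6, hx]; rfl), h3]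
      decide

end Pool.Agent.H37.TM

end

section

/-!
# Project TM: the chain map to the pairs of flags
-/

set_option autoImplicit false
set_option linter.unusedSectionVars false

open Finset Pointwise

namespace Pool.Agent.H37.TM

variable {U : Type} [DecidableEq U] {K B : Set (Finset U)} {n : ℕ}

theorem cofs_top (hM : Psm K B n) {t : Finset U} (ht : t ∈ K) (h : t.card = n + 1) :
    cofs K t (t.card + 1) = ∅ := by
  refine Finset.eq_empty_of_forall_notMem fun t' ht' => ?_
  rw [mem_cofsP hM ht] at ht'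
  have := hM.card_le _ ht'.1
  omega

/-- the boundary of a cell of index one -/
theorem bdE_one (hM : Psm K B n) {e : Finset U × Finset U} (he : e ∈ TCell K B n 1) :
    e.1.card = 1 ∧ e.2.card = n + 1 ∧ bdE K n e = Finsupp.single (∅, ∅) 1 := by
  obtain ⟨h1, h2, h3, h4, h5⟩ := he
  have h5 : e.1.card + n = e.2.card := h5
  have h6 := hM.card_le _ h3
  have h7 := Finset.card_pos.2 h1
  have h8 : e.1.card = 1 := by omega
  have h9 : e.2.card = n + 1 := by omega
  refine ⟨h8, h9, ?_⟩
  unfold bdE
  rw [if_neg h1.ne_empty, if_pos h8, if_pos h9, cofs_top hM h3 h9, Finset.sum_empty, add_zero]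

theorem bdE_mem (hM : Psm K B n) {m : ℕ} {e : Finset U × Finset U}
    (he : e ∈ TCell K B n (m + 1)) : bdE K n e ∈ TN K B n m := by
  classical
  cases m with
  | zero =>
    rw [(bdE_one hM he).2.2]
    exact Finsupp.single_mem_supported _ _ rfl
  | succ m =>
    obtain ⟨h1, h2, h3, h4, h5⟩ := he
    unfold bdE
    rw [if_neg h1.ne_empty]
    refine Submodule.add_mem _ ?_ (Submodule.sum_mem _ fun t ht => ?_)
    · split_ifs with h6 h7
      · have := Finset.card_le_card h2
        omega
      · exact Submodule.zero_mem _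
      · refine Submodule.sum_mem _ fun v hv => ?_
        refine Finsupp.single_mem_supported _ _ ⟨?_, ?_, h3, h4, ?_⟩
        · rw [← Finset.card_pos, Finset.card_erase_of_mem hv]
          have := Finset.card_pos.2 h1
          omega
        · exact (Finset.erase_subset _ _).trans h2
        · show (e.1.erase v).card + n = e.2.card + m
          rw [Finset.card_erase_of_mem hv]
          have := Finset.card_pos.2 h1
          omega
    · rw [mem_cofsP hM h3] at ht
      refine Finsupp.single_mem_supported _ _ ⟨h1, h2.trans ht.2.1, ht.1, fun h => ?_, ?_⟩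
      · exact h4 (hM.bd_down _ h _ ht.2.1 (hM.ne _ h3))
      · show e.1.card + n = t.card + m
        rw [ht.2.2]
        omega

theorem bdT_mem (hM : Psm K B n) {m : ℕ} {x : Finset U × Finset U →₀ ZMod 2}
    (hx : x ∈ TN K B n (m + 1)) : bdT K n x ∈ TN K B n m := by
  change lin (bdE K n) x ∈ TN K B n m
  refine lin_mem fun c hc => bdE_mem hM ?_
  exact (Finsupp.mem_supported _ _).1 hx (Finsupp.mem_support_iff.2 hc)

section

variable {φ : Sx K → U}

theorem image_sub_top {c : Finset (Sx K)} (hφ : ∀ a, φ a ∈ a.1) {a : Sx K}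
    (hmax : ∀ b ∈ c, b.1 ⊆ a.1) : c.image φ ⊆ a.1 := by
  intro v hv
  rw [Finset.mem_image] at hv
  obtain ⟨b, hb, rfl⟩ := hv
  exact hmax b hb (hφ b)

/-- the flags in `τ` with the image `τ`: there is exactly one -/
theorem uniq_flag (hM : Psm K B n) (hφ : ∀ a, φ a ∈ a.1) : ∀ k : ℕ, ∀ τ ∈ K, τ.card = k + 1 →
    ∃ c : Finset (Sx K), ∀ c' : Finset (Sx K),
      (c' ∈ sdK K ∧ c'.image φ = τ ∧ ∀ a ∈ c', a.1 ⊆ τ) ↔ c' = c := by
  classical
  intro k
  induction k with
  | zero =>
    intro τ hτ hc
    obtain ⟨v, hv⟩ := Finset.card_eq_one.1 hc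
    refine ⟨{⟨τ, hτ⟩}, fun c' => ⟨?_, ?_⟩⟩
    · rintro ⟨h1, _, h3⟩
      have h4 : ∀ a ∈ c', a = ⟨τ, hτ⟩ := by
        intro a ha
        refine Subtype.ext ?_
        have h5 := h3 a ha
        rw [hv, Finset.subset_singleton_iff] at h5
        rcases h5 with h5 | h5
        · exact absurd h5 (hM.ne _ a.2).ne_empty
        · show a.1 = τ
          rw [h5, hv]
      exact (Finset.eq_singleton_iff_nonempty_unique_mem).2 ⟨h1.1, h4⟩
    · rintro rfl
      have h4 : φ ⟨τ, hτ⟩ = v := by
        have h5 : φ ⟨τ, hτ⟩ ∈ τ := hφ ⟨τ, hτ⟩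
        have h6 : ∀ u ∈ τ, u = v := by
          intro u hu
          rwa [hv, Finset.mem_singleton] at hu
        exact h6 _ h5
      refine ⟨⟨Finset.singleton_nonempty _, ?_⟩, ?_, ?_⟩
      · intro a ha b hb
        rw [Finset.mem_singleton] at ha hb
        rw [ha, hb]
        exact Or.inl subset_rfl
      · rw [Finset.image_singleton, h4, hv]
      · intro a ha
        rw [Finset.mem_singleton] at ha
        rw [ha]
  | succ k ih =>
    intro τ hτ hc
    have hv : φ ⟨τ, hτ⟩ ∈ τ := hφ ⟨τ, hτ⟩
    set v := φ ⟨τ, hτ⟩ with hvdef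
    have hc' : (τ.erase v).card = k + 1 := by
      rw [Finset.card_erase_of_mem hv]; omega
    have hτ' : τ.erase v ∈ K := hM.down _ hτ _ (Finset.erase_subset _ _)
      (Finset.card_pos.1 (by omega))
    obtain ⟨c, hcu⟩ := ih _ hτ' hc'
    obtain ⟨hcK, hcim, hcsub⟩ := (hcu c).2 rfl
    refine ⟨insert ⟨τ, hτ⟩ c, fun c' => ⟨?_, ?_⟩⟩
    · rintro ⟨h1, h2, h3⟩
      -- the top element
      obtain ⟨a, ha, hmax⟩ := sd_top h1
      have haτ : a = ⟨τ, hτ⟩ := by
        refine Subtype.ext (Finset.Subset.antisymm (h3 a ha) ?_)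
        show τ ⊆ a.1
        rw [← h2]
        exact image_sub_top hφ hmax
      rw [haτ] at ha
      have hlt : ∀ b ∈ c'.erase ⟨τ, hτ⟩, b.1.card < τ.card := by
        intro b hb
        rw [Finset.mem_erase] at hb
        have h4 := h3 b hb.2
        refine lt_of_le_of_ne (Finset.card_le_card h4) fun h5 => hb.1 ?_
        exact Subtype.ext (Finset.eq_of_subset_of_card_le h4 h5.ge)
      have h4 : c'.card ≤ k + 2 := by
        have h5 : c'.image (fun a : Sx K => a.1.card) ⊆ Finset.Icc 1 (k + 2) := by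
          intro i hi
          rw [Finset.mem_image] at hi
          obtain ⟨b, hb, rfl⟩ := hi
          have := Finset.card_le_card (h3 b hb)
          rw [Finset.mem_Icc]
          exact ⟨Finset.card_pos.2 (hM.ne _ b.2), by omega⟩
        have h6 := Finset.card_le_card h5
        rw [Finset.card_image_of_injOn (sd_inj h1), Nat.card_Icc] at h6
        omega
      have hinj : Set.InjOn φ (c' : Set (Sx K)) := by
        rw [← Finset.card_image_iff]
        have h5 := Finset.card_image_le (s := c') (f := φ)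
        rw [h2] at h5 ⊢
        omega
      have hne : (c'.erase ⟨τ, hτ⟩).Nonempty := by
        rw [← Finset.card_pos, Finset.card_erase_of_mem ha]
        have h5 := Finset.card_image_le (s := c') (f := φ)
        rw [h2] at h5
        omega
      have h5 : c'.erase ⟨τ, hτ⟩ ∈ sdK K := sd_down h1 (Finset.erase_subset _ _) hne
      have h6 : (c'.erase ⟨τ, hτ⟩).image φ = τ.erase v := by
        ext u
        rw [Finset.mem_image, Finset.mem_erase]
        constructor
        · rintro ⟨b, hb, rfl⟩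
          rw [Finset.mem_erase] at hb
          refine ⟨fun h => hb.1 (hinj hb.2 ha h), ?_⟩
          rw [← h2]
          exact Finset.mem_image_of_mem φ hb.2
        · rintro ⟨hu, hu'⟩
          rw [← h2, Finset.mem_image] at hu'
          obtain ⟨b, hb, rfl⟩ := hu'
          refine ⟨b, Finset.mem_erase.2 ⟨?_, hb⟩, rfl⟩
          rintro rfl
          exact hu rfl
      obtain ⟨r, hr, hrmax⟩ := sd_top h5
      have h7 : τ.erase v = r.1 := by
        refine Finset.eq_of_subset_of_card_le ?_ ?_
        · rw [← h6]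
          exact image_sub_top hφ hrmax
        · have := hlt r hr
          omega
      have h8 : c'.erase ⟨τ, hτ⟩ = c := by
        rw [← hcu]
        refine ⟨h5, h6, fun b hb => ?_⟩
        rw [h7]
        exact hrmax b hb
      rw [← h8, Finset.insert_erase ha]
    · rintro rfl
      have h0 : ∀ a ∈ c, a.1 ⊆ τ := fun a ha => (hcsub a ha).trans (Finset.erase_subset _ _)
      refine ⟨⟨Finset.insert_nonempty _ _, ?_⟩, ?_, ?_⟩
      · intro a ha b hb
        rw [Finset.mem_insert] at ha hb
        rcases ha with rfl | ha <;> rcases hb with rfl | hb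
        · exact Or.inl subset_rfl
        · exact Or.inr (h0 b hb)
        · exact Or.inl (h0 a ha)
        · exact hcK.2 a ha b hb
      · rw [Finset.image_insert, hcim, ← hvdef, Finset.insert_erase hv]
      · intro a ha
        rw [Finset.mem_insert] at ha
        rcases ha with rfl | ha
        · exact subset_rfl
        · exact h0 a ha

end

end Pool.Agent.H37.TM

end

section

/-!
# Project TM: from the pairs of simplices to the pairs of flags

`φ a ∈ a` for all simplices `a`. The cell `(σ, τ)` goes to the sum of the pairs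
`(c ∩ φ⁻¹ σ, c)` of flags with `φ (c) = τ` such that `φ` is injective over `τ - σ`. This is a chain
map (`bdT_thE`); the cells of degree zero go to exactly one cell.
-/

set_option autoImplicit false
set_option linter.unusedSectionVars false

open Finset Pointwise

namespace Pool.Agent.H37.TM

section coeff

variable {U : Type} [DecidableEq U] {K B : Set (Finset U)} {n : ℕ}

open Classical in
/-- the coefficients of the boundary of a function of the pairs -/
noncomputable def DP (K : Set (Finset U)) (z : Finset U × Finset U → ZMod 2)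
    (p : Finset U × Finset U) : ZMod 2 :=
  if p.1 ⊆ p.2 ∧ p.2 ∈ K then
    ∑ w ∈ p.2 \ p.1, (z (insert w p.1, p.2) + z (p.1, p.2.erase w)) else 0

theorem bdE_coeff (hM : Psm K B n) {m : ℕ} {e : Finset U × Finset U}
    (he : e ∈ TCell K B n (m + 1)) {s t : Finset U} (hs : s.Nonempty) :
    bdE K n e (s, t) = DP K (Pi.single e 1) (s, t) := by
  classical
  obtain ⟨σ, τ⟩ := e
  obtain ⟨hσ, hστ, hτK, hτB, hcard⟩ := he
  simp only at hσ hστ hτK hτB hcard
  have hsne : s ≠ ∅ := hs.ne_empty
  -- the coefficients of `bdE`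
  have hA : bdE K n (σ, τ) (s, t) = (∑ v ∈ σ, if σ.erase v = s ∧ τ = t then (1 : ZMod 2) else 0) +
      (if σ = s ∧ t ∈ cofs K τ (τ.card + 1) then 1 else 0) := by
    unfold bdE
    rw [if_neg hσ.ne_empty, Finsupp.add_apply]
    congr 1
    · simp only
      by_cases h1 : σ.card = 1
      · rw [if_pos h1]
        obtain ⟨v, hv⟩ := Finset.card_eq_one.1 h1
        have h2 : (∑ v ∈ σ, if σ.erase v = s ∧ τ = t then (1 : ZMod 2) else 0) = 0 := by
          refine Finset.sum_eq_zero fun w hw => ?_
          rw [if_neg]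
          rintro ⟨h3, _⟩
          rw [hv, Finset.mem_singleton] at hw
          rw [hv, hw, Finset.erase_singleton] at h3
          exact hsne h3.symm
        rw [h2]
        split_ifs
        · rw [Finsupp.single_apply, if_neg]
          intro h3
          rw [Prod.mk.injEq] at h3
          exact hsne h3.1.symm
        · rfl
      · rw [if_neg h1, Finsupp.finsetSum_apply]
        refine Finset.sum_congr rfl fun v _ => ?_
        rw [Finsupp.single_apply]
        simp only [Prod.mk.injEq]
    · rw [Finsupp.finsetSum_apply]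
      simp only [Finsupp.single_apply, Prod.mk.injEq]
      by_cases h1 : σ = s
      · simp [h1]
      · simp [h1]
  rw [hA]
  unfold DP
  by_cases hc : s ⊆ t ∧ t ∈ K
  · rw [if_pos hc, Finset.sum_add_distrib]
    congr 1
    · have h1 : ∀ w ∈ t \ s, (Pi.single (σ, τ) (1 : ZMod 2) : Finset U × Finset U → ZMod 2)
          (insert w s, t) = if insert w s = σ ∧ t = τ then 1 else 0 := by
        intro w _
        rw [Pi.single_apply]
        simp only [Prod.mk.injEq]
      rw [Finset.sum_congr rfl h1, ← Finset.sum_filter, ← Finset.sum_filter]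
      refine Finset.sum_congr ?_ fun _ _ => rfl
      ext v
      simp only [Finset.mem_filter, Finset.mem_sdiff]
      constructor
      · rintro ⟨h2, h3, h4⟩
        refine ⟨⟨by rw [← h4]; exact hστ h2, ?_⟩, ?_, h4.symm⟩
        · rw [← h3]; exact Finset.notMem_erase _ _
        · rw [← h3, Finset.insert_erase h2]
      · rintro ⟨⟨_, h3⟩, h4, h5⟩
        refine ⟨by rw [← h4]; exact Finset.mem_insert_self _ _, ?_, h5.symm⟩
        rw [← h4, Finset.erase_insert h3]
    · have h1 : ∀ w ∈ t \ s, (Pi.single (σ, τ) (1 : ZMod 2) : Finset U × Finset U → ZMod 2)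
          (s, t.erase w) = if s = σ ∧ t.erase w = τ then 1 else 0 := by
        intro w _
        rw [Pi.single_apply]
        simp only [Prod.mk.injEq]
      rw [Finset.sum_congr rfl h1]
      by_cases h2 : σ = s ∧ t ∈ cofs K τ (τ.card + 1)
      · rw [if_pos h2]
        obtain ⟨h3, h4⟩ := h2
        rw [mem_cofsP hM hτK] at h4
        obtain ⟨_, h5, h6⟩ := h4
        have h7 : (t \ τ).card = 1 := by
          rw [Finset.card_sdiff_of_subset h5]; omega
        obtain ⟨w, hw⟩ := Finset.card_eq_one.1 h7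
        have hw1 : w ∈ t ∧ w ∉ τ := by
          rw [← Finset.mem_sdiff, hw]; exact Finset.mem_singleton_self w
        have hw2 : t.erase w = τ := by
          have h8 : τ ⊆ t.erase w := Finset.subset_erase.2 ⟨h5, hw1.2⟩
          refine (Finset.eq_of_subset_of_card_le h8 ?_).symm
          rw [Finset.card_erase_of_mem hw1.1]; omega
        rw [Finset.sum_eq_single w]
        · rw [if_pos ⟨h3.symm, hw2⟩]
        · intro v hv hvw
          rw [if_neg]
          rintro ⟨_, h9⟩
          rw [Finset.mem_sdiff] at hv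
          have : v ∈ t \ τ := by
            rw [Finset.mem_sdiff, ← h9]
            exact ⟨hv.1, Finset.notMem_erase _ _⟩
          rw [hw, Finset.mem_singleton] at this
          exact hvw this
        · intro h9
          exact absurd (Finset.mem_sdiff.2 ⟨hw1.1, fun h => hw1.2 (hστ (by rw [h3]; exact h))⟩) h9
      · rw [if_neg h2]
        symm
        refine Finset.sum_eq_zero fun w hw => ?_
        rw [if_neg]
        rintro ⟨h3, h4⟩
        rw [Finset.mem_sdiff] at hw
        refine h2 ⟨h3.symm, ?_⟩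
        rw [mem_cofsP hM hτK]
        refine ⟨hc.2, by rw [← h4]; exact Finset.erase_subset _ _, ?_⟩
        rw [← h4, Finset.card_erase_of_mem hw.1]
        have := Finset.card_pos.2 ⟨w, hw.1⟩
        omega
  · rw [if_neg hc]
    have h1 : (∑ v ∈ σ, if σ.erase v = s ∧ τ = t then (1 : ZMod 2) else 0) = 0 := by
      refine Finset.sum_eq_zero fun v _ => ?_
      rw [if_neg]
      rintro ⟨h3, h4⟩
      refine hc ⟨?_, by rw [← h4]; exact hτK⟩
      rw [← h3, ← h4]
      exact (Finset.erase_subset _ _).trans hστ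
    rw [h1, zero_add, if_neg]
    rintro ⟨h3, h4⟩
    rw [mem_cofsP hM hτK] at h4
    exact hc ⟨by rw [← h3]; exact hστ.trans h4.2.1, h4.1⟩

/-- `DP` is additive -/
theorem DP_add (z z' : Finset U × Finset U → ZMod 2) : DP K (z + z') = DP K z + DP K z' := by
  funext p
  rw [Pi.add_apply]
  unfold DP
  by_cases h : p.1 ⊆ p.2 ∧ p.2 ∈ K
  · rw [if_pos h, if_pos h, if_pos h, ← Finset.sum_add_distrib]
    refine Finset.sum_congr rfl fun w _ => ?_
    simp only [Pi.add_apply]; ring
  · rw [if_neg h, if_neg h, if_neg h, add_zero]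

/-- `DP` as an additive map -/
noncomputable def DPL (K : Set (Finset U)) :
    (Finset U × Finset U → ZMod 2) →+ (Finset U × Finset U → ZMod 2) where
  toFun := DP K
  map_zero' := by
    funext p
    unfold DP
    by_cases h : p.1 ⊆ p.2 ∧ p.2 ∈ K
    · rw [if_pos h]; simp
    · rw [if_neg h]; rfl
  map_add' := DP_add

/-- the coefficients of the boundary of a chain -/
theorem bdT_coeff (hM : Psm K B n) {m : ℕ} {x : Finset U × Finset U →₀ ZMod 2}
    (hx : x ∈ TN K B n (m + 1)) {s t : Finset U} (hs : s.Nonempty) :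
    bdT K n x (s, t) = DP K x (s, t) := by
  classical
  have hx' : ∀ e ∈ x.support, e ∈ TCell K B n (m + 1) := fun e he =>
    (Finsupp.mem_supported _ _).1 hx he
  have h1 : (x : Finset U × Finset U → ZMod 2) = ∑ e ∈ x.support, Pi.single e (x e) := by
    funext p
    rw [Finset.sum_apply]
    by_cases hp : p ∈ x.support
    · rw [Finset.sum_eq_single p]
      · rw [Pi.single_eq_same]
      · intro e _ hne
        rw [Pi.single_eq_of_ne hne.symm]
      · intro h; exact absurd hp h
    · rw [Finsupp.notMem_support_iff.1 hp]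
      symm
      refine Finset.sum_eq_zero fun e he => ?_
      rw [Pi.single_eq_of_ne]
      intro h; rw [h] at hp; exact hp he
  have h2 : DP K x = ∑ e ∈ x.support, DP K (Pi.single e (x e)) := by
    conv_lhs => rw [h1]
    exact map_sum (DPL K) _ _
  rw [h2, Finset.sum_apply]
  unfold bdT
  rw [Finsupp.linearCombination_apply, Finsupp.sum, Finsupp.finsetSum_apply]
  refine Finset.sum_congr rfl fun e he => ?_
  have h3 : x e = 1 := by
    have h4 := Finsupp.mem_support_iff.1 he
    revert h4
    generalize x e = a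
    revert a
    decide
  rw [h3, one_smul]
  exact bdE_coeff hM (hx' e he) hs

end coeff

variable {U : Type} [DecidableEq U] {K B : Set (Finset U)} {n : ℕ}

/-- the condition on the flag `c` for the cell `(σ, τ)` -/
def TC (φ : Sx K → U) (σ τ : Finset U) (c : Finset (Sx K)) : Prop :=
  c ∈ sdK K ∧ c.image φ = τ ∧ ∀ a ∈ c, ∀ b ∈ c, φ a = φ b → φ a ∉ σ → a = b

open Classical in
/-- the flags for the cell `(σ, τ)` -/
noncomputable def TF (φ : Sx K → U) (σ τ : Finset U) : Finset (Finset (Sx K)) :=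
  if h : {c | TC φ σ τ c}.Finite then h.toFinset else ∅

theorem TC_fin (hM : Psm K B n) (φ : Sx K → U) (hφ : ∀ a, φ a ∈ a.1) (σ τ : Finset U) :
    {c | TC φ σ τ c}.Finite := by
  refine ((sd_near hM τ).toFinset.powerset.finite_toSet).subset ?_
  rintro c ⟨_, h2, _⟩
  rw [Finset.mem_coe, Finset.mem_powerset]
  intro a ha
  rw [Set.Finite.mem_toFinset]
  exact ⟨φ a, by rw [← h2]; exact Finset.mem_image_of_mem φ ha, hφ a⟩

theorem mem_TF (hM : Psm K B n) {φ : Sx K → U} (hφ : ∀ a, φ a ∈ a.1) {σ τ : Finset U}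
    {c : Finset (Sx K)} : c ∈ TF φ σ τ ↔ TC φ σ τ c := by
  unfold TF
  rw [dif_pos (TC_fin hM φ hφ σ τ), Set.Finite.mem_toFinset]
  rfl

/-- the part of the flag over `σ` -/
def ov (φ : Sx K → U) (σ : Finset U) (c : Finset (Sx K)) : Finset (Sx K) :=
  c.filter fun a => φ a ∈ σ

/-- the image of the cell `(σ, τ)` -/
noncomputable def thE (φ : Sx K → U) (e : Finset U × Finset U) :
    Finset (Sx K) × Finset (Sx K) →₀ ZMod 2 :=
  if e.1 = ∅ then Finsupp.single (∅, ∅) 1
  else ∑ c ∈ TF φ e.1 e.2, Finsupp.single (ov φ e.1 c, c) 1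

open Classical in
/-- the coefficients of `thE` -/
noncomputable def tc (φ : Sx K → U) (σ τ : Finset U) (s t : Finset (Sx K)) : ZMod 2 :=
  if TC φ σ τ t ∧ s = ov φ σ t then 1 else 0

theorem thE_apply (hM : Psm K B n) {φ : Sx K → U} (hφ : ∀ a, φ a ∈ a.1) {σ τ : Finset U}
    (hσ : σ ≠ ∅) (s t : Finset (Sx K)) : thE φ (σ, τ) (s, t) = tc φ σ τ s t := by
  classical
  unfold thE tc
  rw [if_neg hσ, Finsupp.finsetSum_apply]
  simp only [Finsupp.single_apply, Prod.mk.injEq]
  by_cases h : TC φ σ τ t ∧ s = ov φ σ t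
  · rw [if_pos h, Finset.sum_eq_single t]
    · rw [if_pos ⟨h.2.symm, rfl⟩]
    · intro c _ hc
      rw [if_neg (fun h' => hc h'.2)]
    · intro h'
      exact absurd ((mem_TF hM hφ).2 h.1) h'
  · rw [if_neg h]
    refine Finset.sum_eq_zero fun c hc => ?_
    rw [if_neg]
    rintro ⟨h1, h2⟩
    rw [mem_TF hM hφ, h2] at hc
    rw [h2] at h1
    exact h ⟨hc, h1.symm⟩

/-- the image of a cell is a chain of the complex of the flags -/
theorem thE_mem (hM : Psm K B n) {φ : Sx K → U} (hφ : ∀ a, φ a ∈ a.1) {i : ℕ}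
    {e : Finset U × Finset U} (he : e ∈ TCell K B n i) :
    thE φ e ∈ TN (sdK K) (sdB K B) n i := by
  classical
  match i with
  | 0 =>
    have he' : e = (∅, ∅) := he
    subst he'
    unfold thE
    rw [if_pos rfl]
    exact Finsupp.single_mem_supported _ _ rfl
  | m + 1 =>
    obtain ⟨σ, τ⟩ := e
    obtain ⟨hσ, hστ, hτK, hτB, hcard⟩ := he
    simp only at hσ hστ hτK hτB hcard
    unfold thE
    rw [if_neg hσ.ne_empty]
    refine Submodule.sum_mem _ fun c hc => ?_
    rw [mem_TF hM hφ] at hc
    obtain ⟨h1, h2, h3⟩ := hc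
    simp only at h2 h3
    refine Finsupp.single_mem_supported _ _ ⟨?_, Finset.filter_subset _ _, h1, ?_, ?_⟩
    · obtain ⟨v, hv⟩ := hσ
      have h4 : v ∈ c.image φ := by rw [h2]; exact hστ hv
      rw [Finset.mem_image] at h4
      obtain ⟨a, ha, hav⟩ := h4
      exact ⟨a, Finset.mem_filter.2 ⟨ha, by rw [hav]; exact hv⟩⟩
    · rintro ⟨_, h4⟩
      obtain ⟨a, ha, hmax⟩ := sd_top h1
      have h5 : τ ⊆ a.1 := by
        rw [← h2]
        intro v hv
        rw [Finset.mem_image] at hv
        obtain ⟨b, hb, rfl⟩ := hv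
        exact hmax b hb (hφ b)
      exact hτB (hM.bd_down _ (h4 a ha) τ h5 (hM.ne _ hτK))
    · -- the sizes
      show (ov φ σ c).card + n = c.card + m
      have h4 : (c.filter fun a => φ a ∉ σ).card = (τ \ σ).card := by
        have h5 : (c.filter fun a => φ a ∉ σ).image φ = τ \ σ := by
          rw [← h2]
          ext v
          simp only [Finset.mem_image, Finset.mem_filter, Finset.mem_sdiff]
          constructor
          · rintro ⟨a, ⟨h6, h7⟩, rfl⟩
            exact ⟨⟨a, h6, rfl⟩, h7⟩
          · rintro ⟨⟨a, h6, rfl⟩, h7⟩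
            exact ⟨a, ⟨h6, h7⟩, rfl⟩
        rw [← h5, Finset.card_image_of_injOn]
        intro a ha b hb hab
        rw [Finset.mem_coe, Finset.mem_filter] at ha hb
        exact h3 a ha.1 b hb.1 hab ha.2
      have h5 := Finset.card_filter_add_card_filter_not (s := c) (fun a => φ a ∈ σ)
      have h6 : (c.filter fun a => ¬ φ a ∈ σ).card = (c.filter fun a => φ a ∉ σ).card := rfl
      have h7 : (τ \ σ).card = τ.card - σ.card := Finset.card_sdiff_of_subset hστ
      have h8 := Finset.card_le_card hστ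
      unfold ov
      omega

end Pool.Agent.H37.TM

end

section

/-!
# Project TM: existence of the chain map `Ψ`, of the vertex map `f` and of the homotopy `H`
-/

set_option autoImplicit false
set_option linter.unusedSectionVars false

open Finset Pointwise

namespace Pool.Agent.H37.TM

open Pool.Agent.H19.Cub Pool.Agent.H77.SX

variable {V X U Γ : Type} [DecidableEq V] [DecidableEq U] [Group Γ] [MulAction Γ U]
  {Q : CubeComplex V X} {x₀ : X} [MulAction Γ (Q.Cover x₀)] {bit : X → V → ZMod 2}
  {K B : Set (Finset U)} {n : ℕ} {ht : U → ℕ}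

/-! ### Generalities -/

/-- the action on the chains of a set with an action, as linear maps -/
noncomputable def rhoM (Γ A : Type) [Group Γ] (φ : Γ → A → A) (h1 : φ 1 = id)
    (hm : ∀ g h, φ (g * h) = φ g ∘ φ h) : Γ →* ((A →₀ ZMod 2) →ₗ[ZMod 2] (A →₀ ZMod 2)) where
  toFun g := Finsupp.lmapDomain (ZMod 2) (ZMod 2) (φ g)
  map_one' := by
    rw [h1, Finsupp.lmapDomain_id]
    rfl
  map_mul' g h := by
    rw [hm, Finsupp.lmapDomain_comp]
    rfl

theorem mapDomain_lin {A B C : Type} (φ : B → C) {f : A → (B →₀ ZMod 2)} {x : A →₀ ZMod 2} :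
    (lin f x).mapDomain φ = lin (fun c => (f c).mapDomain φ) x :=
  map_lin (Finsupp.lmapDomain (ZMod 2) (ZMod 2) φ)

theorem lin_mapDomain {A B N : Type} [AddCommGroup N] [Module (ZMod 2) N] (φ : A → B)
    {f : B → N} {x : A →₀ ZMod 2} : lin f (x.mapDomain φ) = lin (fun c => f (φ c)) x := by
  unfold lin
  rw [Finsupp.linearCombination_mapDomain]
  rfl

theorem cell_card {i : ℕ} {e : Q.Cover x₀ × Finset V} (he : e ∈ Cell Q x₀ bit i) :
    e.2.card = i := he.2.2.1

theorem cell_zero {e : Q.Cover x₀ × Finset V} (he : e ∈ Cell Q x₀ bit 0) : bdD Q x₀ e = 0 := by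
  unfold bdD
  rw [Finset.card_eq_zero.1 (cell_card he), Finset.sum_empty]

theorem cell_disj (i j : ℕ) (e : Q.Cover x₀ × Finset V) (he : e ∈ Cell Q x₀ bit i)
    (he' : e ∈ Cell Q x₀ bit j) : i = j := by
  rw [← cell_card he, ← cell_card he']

theorem bdD_smul (hΓ : IsDeck Γ Q x₀) {i : ℕ} (g : Γ) {e : Q.Cover x₀ × Finset V}
    (he : e ∈ Cell Q x₀ bit i) : bdD Q x₀ (g • e) = (bdD Q x₀ e).mapDomain (g • ·) := by
  unfold bdD
  rw [Finsupp.mapDomain_finsetSum]
  rw [cu_smul]
  refine Finset.sum_congr rfl fun v hv => ?_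
  rw [Finsupp.mapDomain_add, Finsupp.mapDomain_single, Finsupp.mapDomain_single, cu_smul, cu_smul]
  change Finsupp.single (g • e.1, e.2.erase v) 1 +
    Finsupp.single (Q.nbc x₀ v (g • e.1), e.2.erase v) 1 = _
  rw [hΓ.nb g v e.1 (he.1 hv)]

/-- a function of the type of the cubes only is killed by the boundary -/
theorem lin_bdD_const {N : Type} [AddCommGroup N] [Module (ZMod 2) N] (F : Finset V → N)
    (e : Q.Cover x₀ × Finset V) :
    lin (fun e : Q.Cover x₀ × Finset V => F e.2) (bdD Q x₀ e) = 0 := by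
  unfold bdD
  rw [map_sum]
  refine Finset.sum_eq_zero fun v _ => ?_
  rw [map_add, lin_single, lin_single]
  exact add_self_mod _

/-! ### The complex of pairs -/

theorem smul_mem_iff (hA : SAct Γ K B) (g : Γ) (s : Finset U) : g • s ∈ K ↔ s ∈ K := by
  refine ⟨fun h => ?_, hA.K_mem g s⟩
  have := hA.K_mem g⁻¹ _ h
  rwa [inv_smul_smul] at this

theorem smul_memB_iff (hA : SAct Γ K B) (g : Γ) (s : Finset U) : g • s ∈ B ↔ s ∈ B := by
  refine ⟨fun h => ?_, hA.B_mem g s⟩
  have := hA.B_mem g⁻¹ _ h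
  rwa [inv_smul_smul] at this

theorem cofs_smul (hA : SAct Γ K B) (g : Γ) (t : Finset U) (j : ℕ) :
    cofs K (g • t) j = (cofs K t j).map ⟨fun s => g • s, MulAction.injective g⟩ := by
  classical
  have hset : {t' | t' ∈ K ∧ g • t ⊆ t' ∧ t'.card = j} =
      (fun s => g • s) '' {t' | t' ∈ K ∧ t ⊆ t' ∧ t'.card = j} := by
    ext t'
    constructor
    · rintro ⟨h1, h2, h3⟩
      refine ⟨g⁻¹ • t', ⟨?_, ?_, ?_⟩, smul_inv_smul g t'⟩
      · rw [smul_mem_iff hA]; exact h1
      · rw [← Finset.smul_finset_subset_smul_finset_iff (a := g), smul_inv_smul]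
        exact h2
      · rw [Finset.card_smul_finset]; exact h3
    · rintro ⟨s, ⟨h1, h2, h3⟩, rfl⟩
      refine ⟨(smul_mem_iff hA g s).2 h1, ?_, ?_⟩
      · exact Finset.smul_finset_subset_smul_finset h2
      · rw [Finset.card_smul_finset]; exact h3
  have hfin : {t' | t' ∈ K ∧ g • t ⊆ t' ∧ t'.card = j}.Finite ↔
      {t' | t' ∈ K ∧ t ⊆ t' ∧ t'.card = j}.Finite := by
    rw [hset]
    exact Set.finite_image_iff (MulAction.injective g).injOn
  unfold cofs
  by_cases h : {t' | t' ∈ K ∧ t ⊆ t' ∧ t'.card = j}.Finite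
  · rw [dif_pos h, dif_pos (hfin.2 h)]
    ext t'
    rw [Set.Finite.mem_toFinset, Finset.mem_map]
    have : t' ∈ {t' | t' ∈ K ∧ g • t ⊆ t' ∧ t'.card = j} ↔
        t' ∈ (fun s => g • s) '' {t' | t' ∈ K ∧ t ⊆ t' ∧ t'.card = j} := by rw [hset]
    rw [this]
    simp only [Set.mem_image, Set.Finite.mem_toFinset]
    rfl
  · rw [dif_neg h, dif_neg fun h' => h (hfin.1 h'), Finset.map_empty]

theorem bdE_smul (hA : SAct Γ K B) (g : Γ) (e : Finset U × Finset U) :
    bdE K n (g • e) = (bdE K n e).mapDomain (g • ·) := by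
  have he : g • e = (g • e.1, g • e.2) := rfl
  unfold bdE
  by_cases h0 : e.1 = ∅
  · rw [if_pos h0, he, if_pos (by change g • e.1 = ∅; rw [h0, Finset.smul_finset_empty]),
      Finsupp.mapDomain_zero]
  · have h0' : ¬ (g • e).1 = ∅ := by
      change ¬ g • e.1 = ∅
      rwa [Finset.smul_finset_eq_empty]
    rw [if_neg h0, if_neg h0', Finsupp.mapDomain_add]
    have hc1 : (g • e).1.card = e.1.card := Finset.card_smul_finset g e.1
    have hc2 : (g • e).2.card = e.2.card := Finset.card_smul_finset g e.2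
    congr 1
    · rw [hc1, hc2]
      split_ifs with h1 h2
      · rw [Finsupp.mapDomain_single]
        congr 1
      · rw [Finsupp.mapDomain_zero]
      · rw [Finsupp.mapDomain_finsetSum]
        change ∑ v ∈ g • e.1, Finsupp.single ((g • e.1).erase v, g • e.2) 1 = _
        have hsm : g • e.1 = e.1.map ⟨fun u => g • u, MulAction.injective g⟩ := by
          rw [Finset.map_eq_image]
          rfl
        conv_lhs => rw [hsm]
        rw [Finset.sum_map]
        refine Finset.sum_congr rfl fun v _ => ?_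
        rw [Finsupp.mapDomain_single, ← hsm]
        change Finsupp.single ((g • e.1).erase (g • v), g • e.2) 1 =
          Finsupp.single (g • (e.1.erase v), g • e.2) 1
        rw [erase_smul]
    · rw [Finsupp.mapDomain_finsetSum]
      change ∑ t ∈ cofs K (g • e.2) ((g • e).2.card + 1), Finsupp.single (g • e.1, t) 1 = _
      rw [hc2, cofs_smul hA, Finset.sum_map]
      refine Finset.sum_congr rfl fun t _ => ?_
      rw [Finsupp.mapDomain_single]
      rfl

theorem tcell_smul (hA : SAct Γ K B) (g : Γ) (i : ℕ) (e : Finset U × Finset U)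
    (he : e ∈ TCell K B n i) : g • e ∈ TCell K B n i := by
  cases i with
  | zero =>
    have h : e = (∅, ∅) := he
    rw [h]
    change ((g • ∅ : Finset U), (g • ∅ : Finset U)) = (∅, ∅)
    rw [Finset.smul_finset_empty]
  | succ m =>
    obtain ⟨h1, h2, h3, h4, h5⟩ := he
    refine ⟨?_, ?_, ?_, ?_, ?_⟩
    · exact h1.smul_finset
    · exact Finset.smul_finset_subset_smul_finset h2
    · exact (smul_mem_iff hA g _).2 h3
    · exact fun h => h4 ((smul_memB_iff hA g _).1 h)
    · change (g • e.1).card + n = (g • e.2).card + m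
      rw [Finset.card_smul_finset, Finset.card_smul_finset]
      exact h5

theorem tn_smul (hA : SAct Γ K B) (g : Γ) (i : ℕ) (x : Finset U × Finset U →₀ ZMod 2)
    (hx : x ∈ TN K B n i) : x.mapDomain (g • ·) ∈ TN K B n i := by
  classical
  unfold TN at hx ⊢
  rw [Finsupp.mem_supported] at hx ⊢
  intro e he
  have h := Finsupp.mapDomain_support he
  rw [Finset.mem_image] at h
  obtain ⟨e', he', rfl⟩ := h
  exact tcell_smul hA g i e' (hx he')

/-- the action on the pairs -/
noncomputable def rhoE (Γ U : Type) [DecidableEq U] [Group Γ] [MulAction Γ U] :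
    Γ →* ((Finset U × Finset U →₀ ZMod 2) →ₗ[ZMod 2] (Finset U × Finset U →₀ ZMod 2)) :=
  rhoM Γ (Finset U × Finset U) (fun g e => g • e) (funext fun e => one_smul Γ e)
    fun g h => funext fun e => mul_smul g h e

/-- `lift_free` with `F` = the augmentation `e ↦ if e.2 = ∅ then single (∅, ∅) 1 else 0`, target `bdT K n`,
`M i = TN K B n i`, exact by `tot_exact` -/
theorem exists_psi (hbit : IsBit Q bit) (hΓ : IsDeck Γ Q x₀) {d : ℕ} (hd : DimLe Q d)
    (hM : Mfd K B n) (hK : AcycLt K d)
    (hA : SAct Γ K B) :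
    ∃ Ψ : Q.Cover x₀ × Finset V → (Finset U × Finset U →₀ ZMod 2),
      IsPsi Γ Q x₀ bit K B n Ψ := by
  classical
  obtain ⟨H, h1, h2, h3⟩ := lift_free (Γ := Γ) (A := Q.Cover x₀ × Finset V)
    (N := Finset U × Finset U →₀ ZMod 2) (Cell Q x₀ bit)
    (fun i g e he => (cell_smul hΓ g e).2 he) cell_disj
    (fun i e _ g h => cu_free hΓ e g h) (bdD Q x₀)
    (fun i e he b hb => bdD_cell hbit he b hb) (fun e he => cell_zero he)
    (fun i g e he => bdD_smul hΓ g he) (fun i e he => bdD_bdD he)
    (rhoE Γ U) (bdT K n)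
    (fun g x => by
      change bdT K n (x.mapDomain (g • ·)) = (bdT K n x).mapDomain (g • ·)
      change lin (bdE K n) (x.mapDomain (g • ·)) = (lin (bdE K n) x).mapDomain (g • ·)
      rw [lin_mapDomain, mapDomain_lin]
      exact lin_congr fun c _ => bdE_smul hA g c)
    (TN K B n) (fun i g x hx => tn_smul hA g i x hx)
    (fun i ⟨e, he⟩ x hx h0 => tot_exact hM hK i (he.2.2.1 ▸ hd _ _ he.1 he.2.1) x hx h0)
    (fun e => if e.2 = ∅ then Finsupp.single (∅, ∅) 1 else 0)
    (fun i e he => by
      split_ifs with h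
      · have hi : i = 0 := by
          rw [← cell_card he, h, Finset.card_empty]
        subst hi
        exact Finsupp.single_mem_supported (ZMod 2) (1 : ZMod 2)
          (show ((∅ : Finset U), (∅ : Finset U)) ∈ TCell K B n 0 from rfl)
      · exact Submodule.zero_mem _)
    (fun i g e he => by
      rw [cu_smul]
      dsimp only
      split_ifs with h
      · change _ = (Finsupp.single ((∅ : Finset U), (∅ : Finset U)) (1 : ZMod 2)).mapDomain (g • ·)
        rw [Finsupp.mapDomain_single]
        congr 1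
      · rw [map_zero])
    (fun i e he => by
      rw [lin_bdD_const (fun σ => if σ = ∅ then Finsupp.single ((∅ : Finset U), (∅ : Finset U))
        (1 : ZMod 2) else 0) e]
      split_ifs with h
      · change lin (bdE K n) (Finsupp.single ((∅ : Finset U), (∅ : Finset U)) (1 : ZMod 2)) = 0
        rw [lin_single]
        unfold bdE
        rw [if_pos rfl]
      · rw [map_zero])
  refine ⟨H, h1, fun g i e he => h2 i g e he, fun i e he => ?_⟩
  rw [h3 i e he]
  congr 1
  have h := cell_card he
  by_cases hi : i = 0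
  · subst hi
    rw [if_pos rfl, if_pos (Finset.card_eq_zero.1 h)]
  · rw [if_neg hi, if_neg]
    intro h'
    rw [h', Finset.card_empty] at h
    exact hi h.symm

/-- choose representatives of the orbits of the vertices -/
theorem exists_vmap (hA : SAct Γ K B) (hU : ∀ u : U, {u} ∈ K) :
    ∃ f : U → Q.Cover x₀, IsVMap Γ f := by
  obtain ⟨f, hf, -⟩ := exists_equivOn (G := Γ) (B := U) (M := Q.Cover x₀) Set.univ
    (fun _ _ _ => Set.mem_univ _)
    (fun u _ g h => hA.free g {u} (hU u) (by rw [Finset.smul_finset_singleton, h]))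
    (fun g c => g • c) (fun g h c => mul_smul g h c) (fun _ _ => True)
    (fun _ _ _ _ _ => trivial) (fun _ _ => ⟨base Q x₀, trivial⟩) (base Q x₀)
  exact ⟨f, fun g u => hf g u (Set.mem_univ u)⟩

/-! ### The homotopy -/

/-- the action on the tuples -/
noncomputable def rhoL (Γ D : Type) [Group Γ] [MulAction Γ D] :
    Γ →* ((List D →₀ ZMod 2) →ₗ[ZMod 2] (List D →₀ ZMod 2)) :=
  rhoM Γ (List D) (fun g l => l.map (g • ·))
    (funext fun l => by
      have : (fun x : D => (1 : Γ) • x) = id := funext fun x => one_smul Γ x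
      rw [this, List.map_id]
      rfl)
    fun g h => funext fun l => by
      have : (fun x : D => (g * h) • x) = (fun x => g • x) ∘ fun x => h • x :=
        funext fun x => mul_smul g h x
      rw [this, ← List.map_map]
      rfl

theorem tn_cell {i : ℕ} {y : Finset U × Finset U →₀ ZMod 2} (hy : y ∈ TN K B n i)
    (c : Finset U × Finset U) (hc : y c ≠ 0) : c ∈ TCell K B n i := by
  unfold TN at hy
  rw [Finsupp.mem_supported] at hy
  exact hy (Finsupp.mem_support_iff.2 hc)

theorem Phi_add {D : Type} (f : U → D) (y y' : Finset U × Finset U →₀ ZMod 2) :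
    Phi K n ht f (y + y') = Phi K n ht f y + Phi K n ht f y' := by
  unfold Phi
  rw [map_add, Finsupp.mapDomain_add]

theorem Phi_lin {D A : Type} (f : U → D) {Ψ : A → (Finset U × Finset U →₀ ZMod 2)}
    {x : A →₀ ZMod 2} : Phi K n ht f (lin Ψ x) = lin (fun e => Phi K n ht f (Ψ e)) x := by
  unfold Phi
  rw [map_lin, mapDomain_lin]

theorem Phi_smul {D : Type} [MulAction Γ D] (hM : Psm K B n) (hA : MAct Γ K B n ht) {f : U → D}
    (hf : IsVMap Γ f) (g : Γ) {i : ℕ} {y : Finset U × Finset U →₀ ZMod 2}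
    (hy : y ∈ TN K B n i) :
    Phi K n ht f (y.mapDomain (g • ·)) = (Phi K n ht f y).mapDomain (List.map (g • ·)) := by
  unfold Phi
  rw [lin_mapDomain, mapDomain_lin, mapDomain_lin, mapDomain_lin]
  refine lin_congr fun c hc => ?_
  rw [lamE_smul hM hA g (tn_cell hy c hc), ← Finsupp.mapDomain_comp, ← Finsupp.mapDomain_comp]
  congr 1
  funext l
  simp only [Function.comp, List.map_map]
  congr 1
  funext u
  exact hf g u

theorem BL_Phi {D : Type} (hM : Psm K B n) (hinj : ∀ s ∈ K, Set.InjOn ht (s : Set U))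
    (hle : ∀ s ∈ K, ∀ u ∈ s, ht u ≤ n) (f : U → D) {i : ℕ}
    {y : Finset U × Finset U →₀ ZMod 2} (hy : y ∈ TN K B n i) :
    BL (Phi K n ht f y) = Phi K n ht f (bdT K n y) := by
  unfold Phi
  rw [BL_map]
  congr 1
  rw [map_lin]
  change _ = lin (lamE K n ht) (lin (bdE K n) y)
  rw [← lin_lin]
  exact lin_congr fun c hc => BL_lamE hM hinj hle (tn_cell hy c hc)

/-- both `TT` and `Phi ∘ Ψ` are chain maps to the exact complex of tuples (`BL_TT`, `BL_lamE`, `BL_map`), the
augmentations cancel; `lift_free` with `F e = TT e + Phi (Ψ e)`, `M i = ⊤` -/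
theorem exists_homotopy (hbit : IsBit Q bit) (hΓ : IsDeck Γ Q x₀) (hM : Psm K B n)
    (hA : MAct Γ K B n ht) {Ψ : Q.Cover x₀ × Finset V → (Finset U × Finset U →₀ ZMod 2)}
    (hΨ : IsPsi Γ Q x₀ bit K B n Ψ) {f : U → Q.Cover x₀} (hf : IsVMap Γ f) :
    ∃ H : Q.Cover x₀ × Finset V → (List (Q.Cover x₀) →₀ ZMod 2),
      (∀ i, ∀ g : Γ, ∀ e ∈ Cell Q x₀ bit i, H (g • e) = (H e).mapDomain (List.map (g • ·))) ∧
      ∀ i, ∀ e ∈ Cell Q x₀ bit i,
        BL (H e) = TT Q x₀ e + Phi K n ht f (Ψ e) + lin H (bdD Q x₀ e) := by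
  classical
  have : Nonempty (Q.Cover x₀) := ⟨base Q x₀⟩
  have hlam0 : Phi K n ht f (Finsupp.single (∅, ∅) 1) = Finsupp.single [] 1 := by
    unfold Phi
    rw [lin_single]
    unfold lamE
    rw [if_pos rfl, Finsupp.mapDomain_single]
    rfl
  obtain ⟨H, h1, h2, h3⟩ := lift_free (Γ := Γ) (A := Q.Cover x₀ × Finset V)
    (N := List (Q.Cover x₀) →₀ ZMod 2) (Cell Q x₀ bit)
    (fun i g e he => (cell_smul hΓ g e).2 he) cell_disj
    (fun i e _ g h => cu_free hΓ e g h) (bdD Q x₀)
    (fun i e he b hb => bdD_cell hbit he b hb) (fun e he => cell_zero he)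
    (fun i g e he => bdD_smul hΓ g he) (fun i e he => bdD_bdD he)
    (rhoL Γ (Q.Cover x₀)) BL
    (fun g x => BL_map _ x)
    (fun _ => ⊤) (fun _ _ _ _ => Submodule.mem_top)
    (fun i _ x _ h0 => by
      obtain ⟨y, hy⟩ := BL_exact x h0
      exact ⟨y, Submodule.mem_top, hy⟩)
    (fun e => TT Q x₀ e + Phi K n ht f (Ψ e))
    (fun _ _ _ => Submodule.mem_top)
    (fun i g e he => by
      change TT Q x₀ (g • e) + Phi K n ht f (Ψ (g • e)) =
        (TT Q x₀ e + Phi K n ht f (Ψ e)).mapDomain (List.map (g • ·))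
      rw [Finsupp.mapDomain_add, cu_smul, TT_smul hΓ he g, ← cu_smul, hΨ.smul g i e he,
        Phi_smul hM hA hf g (hΨ.mem i e he)])
    (fun i e he => by
      rw [lin_add, map_add, BL_TT he, BL_Phi hM hA.ht_inj hA.ht_le f (hΨ.mem i e he),
        hΨ.bd i e he, Phi_add, Phi_lin]
      split_ifs with hi
      · subst hi
        rw [hlam0, cell_zero he, map_zero, map_zero, add_zero, add_zero]
        exact add_self_mod _
      · have h0 : Phi K n ht f (0 : Finset U × Finset U →₀ ZMod 2) = 0 := by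
          unfold Phi
          rw [map_zero, Finsupp.mapDomain_zero]
        rw [h0, zero_add])
  exact ⟨H, h2, h3⟩

end Pool.Agent.H37.TM

end

section

/-!
# Project S10D: duality pairs

`Dual K B mu n d`: `K` a locally finite simplicial complex, `B` a subcomplex, `mu` a cycle modulo two of dimension
`n` of `K` relative to `B` (infinite chains), such that the cohomology with compact supports of `(K, B)` is zero in
the degrees `j` with `n - d < j < n`, and the evaluation at `mu` is an isomorphism from the cohomology in the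
degree `n` onto the field of two elements. `K` may have any dimension.
-/

set_option autoImplicit false
set_option linter.unusedSectionVars false

open Finset Pointwise

namespace Pool.Agent.S10

open Pool.Agent.H37.TM

variable {U : Type} [DecidableEq U]

/-- the simplicial complex generated by `mu` -/
def gen (mu : Set (Finset U)) : Set (Finset U) := {s | s.Nonempty ∧ ∃ t ∈ mu, s ⊆ t}

variable {K B mu : Set (Finset U)} {n d : ℕ}

theorem gen_sub (hD : Dual K B mu n d) : gen mu ⊆ K := by
  rintro s ⟨h1, t, ht, hst⟩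
  exact hD.down t (hD.mu_sub t ht).1 s hst h1

/-- the top simplices of the generated complex -/
theorem gen_top (hD : Dual K B mu n d) {t : Finset U} (ht : t ∈ gen mu) (hc : t.card = n + 1) : t ∈ mu := by
  obtain ⟨-, t', ht', htt'⟩ := ht
  have h1 := eq_of_subset_of_card_le htt' (by rw [(hD.mu_sub t' ht').2.2, hc])
  rw [h1]
  exact ht'

theorem mu_gen (hD : Dual K B mu n d) {t : Finset U} (ht : t ∈ mu) : t ∈ gen mu :=
  ⟨hD.ne t (hD.mu_sub t ht).1, t, ht, subset_rfl⟩

/-- the generated complex is a pseudomanifold with the boundary in `B` -/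
theorem gen_psm (hD : Dual K B mu n d) : Psm (gen mu) (B ∩ gen mu) n where
  ne := fun s hs => hs.1
  down := by
    rintro s ⟨-, t, ht, hst⟩ t' hts' hne
    exact ⟨hne, t, ht, hts'.trans hst⟩
  bd_sub := Set.inter_subset_right
  bd_down := by
    rintro s ⟨h1, h2, t, ht, hst⟩ t' hts' hne
    exact ⟨hD.bd_down s h1 t' hts' hne, hne, t, ht, hts'.trans hst⟩
  locfin := fun s hs => (hD.locfin s (gen_sub hD hs)).subset fun t ht => ⟨gen_sub hD ht.1, ht.2⟩
  card_le := by
    rintro s ⟨-, t, ht, hst⟩
    rw [← (hD.mu_sub t ht).2.2]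
    exact card_le_card hst
  even := by
    intro s hs hB hc
    have hsK := gen_sub hD hs
    have hsB : s ∉ B := fun h => hB ⟨h, hs⟩
    have h1 := hD.even s hsK hsB hc
    have hset : {t | t ∈ mu ∧ s ⊆ t} = {t' | t' ∈ gen mu ∧ s ⊆ t' ∧ t'.card = n + 1} := by
      ext t
      constructor
      · rintro ⟨h2, h3⟩
        exact ⟨mu_gen hD h2, h3, (hD.mu_sub t h2).2.2⟩
      · rintro ⟨h2, h3, h4⟩
        exact ⟨gen_top hD h2 h4, h3⟩
    have hfin : {t' | t' ∈ gen mu ∧ s ⊆ t' ∧ t'.card = n + 1}.Finite :=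
      (hD.locfin s hsK).subset fun t ht => ⟨gen_sub hD ht.1, ht.2.1⟩
    have h2 : (cofs (gen mu) s (n + 1)).card = {t | t ∈ mu ∧ s ⊆ t}.ncard := by
      unfold cofs
      rw [dif_pos hfin, hset, Set.ncard_eq_toFinset_card _ hfin]
    rw [h2]
    exact (ZMod.natCast_eq_zero_iff_even).2 h1

/-- the free actions -/
theorem gen_sact {Γ : Type} [Group Γ] [MulAction Γ U] (hD : Dual K B mu n d) (hA : SAct Γ K B)
    (hmu : ∀ (g : Γ) (s : Finset U), s ∈ mu → g • s ∈ mu) : SAct Γ (gen mu) (B ∩ gen mu) := by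
  have h1 : ∀ (g : Γ) (s : Finset U), s ∈ gen mu → g • s ∈ gen mu := by
    rintro g s ⟨h1, t, ht, hst⟩
    exact ⟨h1.smul_finset, g • t, hmu g t ht, smul_finset_subset_smul_finset hst⟩
  exact
    { K_mem := h1
      B_mem := fun g s hs => ⟨hA.B_mem g s hs.1, h1 g s hs.2⟩
      free := fun g s hs => hA.free g s (gen_sub hD hs) }

end Pool.Agent.S10

end

section

/-!
# Project S10D: the kernel of the projection of the complex of pairs to the cochains is exact

`al : TN K B n (i + 1) → C^(n - i)(K, B)`. Columns: for a fixed simplex `τ` the pairs `(σ, τ)` form the chain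
complex of the simplex `τ`; the cone with a vertex of `τ` contracts it.
-/

set_option autoImplicit false
set_option linter.unusedSectionVars false

open Finset Pointwise

namespace Pool.Agent.S10

open Pool.Agent.H37.TM

variable {U : Type} [DecidableEq U] {K B : Set (Finset U)} {n : ℕ}

/-- the value of `DP` inside the complex -/
theorem DP_of {z : Finset U × Finset U → ZMod 2} {s t : Finset U} (hst : s ⊆ t) (ht : t ∈ K) :
    DP K z (s, t) = ∑ w ∈ t \ s, (z (insert w s, t) + z (s, t.erase w)) := by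
  unfold DP
  exact if_pos ⟨hst, ht⟩

theorem DP_of_not {z : Finset U × Finset U → ZMod 2} {s t : Finset U} (h : ¬ (s ⊆ t ∧ t ∈ K)) :
    DP K z (s, t) = 0 := by
  unfold DP
  exact if_neg h

/-- the square of the boundary -/
theorem DP_DP (hM : Psm K B n) (z : Finset U × Finset U → ZMod 2) {s t : Finset U} (hs : s.Nonempty) :
    DP K (DP K z) (s, t) = 0 := by
  classical
  by_cases h : s ⊆ t ∧ t ∈ K
  swap
  · exact DP_of_not h
  obtain ⟨hst, ht⟩ := h
  rw [DP_of hst ht]
  have key : ∀ w ∈ t \ s, (DP K z (insert w s, t) + DP K z (s, t.erase w)) =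
      ∑ u ∈ (t \ s).erase w, ((z (insert u (insert w s), t) + z (insert w s, t.erase u)) +
        (z (insert u s, t.erase w) + z (s, (t.erase w).erase u))) := by
    intro w hw
    rw [Finset.mem_sdiff] at hw
    have h1 : insert w s ⊆ t := Finset.insert_subset hw.1 hst
    have h2 : s ⊆ t.erase w := Finset.subset_erase.2 ⟨hst, hw.2⟩
    have h3 : t.erase w ∈ K := hM.down t ht _ (Finset.erase_subset _ _) (hs.mono h2)
    have e1 : t \ insert w s = (t \ s).erase w := by
      ext u; simp only [Finset.mem_sdiff, Finset.mem_insert, Finset.mem_erase]; tauto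
    have e2 : t.erase w \ s = (t \ s).erase w := by
      ext u; simp only [Finset.mem_sdiff, Finset.mem_erase]; tauto
    rw [DP_of h1 ht, DP_of h2 h3, e1, e2, ← Finset.sum_add_distrib]
  rw [Finset.sum_congr rfl key]
  refine TotX.sum_pairs_symm (t \ s) (fun w u => (z (insert u (insert w s), t) +
    z (insert w s, t.erase u)) + (z (insert u s, t.erase w) + z (s, (t.erase w).erase u))) ?_
  intro u w
  rw [Finset.insert_comm u w s, Finset.erase_right_comm (a := w) (b := u)]
  ring

theorem tn_of {i : ℕ} {x : Finset U × Finset U →₀ ZMod 2} (h : ∀ e, x e ≠ 0 → e ∈ TCell K B n i) :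
    x ∈ TN K B n i :=
  (Finsupp.mem_supported _ _).2 fun e he => h e (Finsupp.mem_support_iff.1 he)

/-- one step: make the columns over the simplices with `p` vertices zero -/
theorem ker_step (hM : Psm K B n) {m p : ℕ} {x : Finset U × Finset U →₀ ZMod 2}
    (hx : x ∈ TN K B n (m + 1)) (h0 : ∀ s t, s.Nonempty → DP K x (s, t) = 0) (ha : ∀ t ∈ K, al x t = 0)
    (hp : ∀ s t, x (s, t) ≠ 0 → p ≤ t.card) :
    ∃ y ∈ TN K B n (m + 2), (∀ t, al y t = 0) ∧
      ∀ s t, s.Nonempty → t.card ≤ p → DP K y (s, t) = x (s, t) := by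
  classical
  have hxc := tn_cell hx
  rcases isEmpty_or_nonempty U with hU | hU
  · have hx0 : ∀ e, x e = 0 := by
      intro e
      by_contra h
      obtain ⟨u, -⟩ := (hxc e h).1
      exact hU.false u
    refine ⟨0, Submodule.zero_mem _, fun t => ?_, fun s t hs _ => ?_⟩
    · unfold al
      simp
    · obtain ⟨u, -⟩ := hs
      exact (hU.false u).elim
  -- a vertex of every simplex
  have hv : ∀ t : Finset U, ∃ v : U, t.Nonempty → v ∈ t := by
    intro t
    by_cases h : t.Nonempty
    · obtain ⟨u, hu⟩ := h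
      exact ⟨u, fun _ => hu⟩
    · exact ⟨Classical.choice hU, fun h' => absurd h' h⟩
  choose v hv using hv
  -- the cone
  let b : Finset U × Finset U → ZMod 2 := fun e =>
    if e.2.card = p ∧ v e.2 ∈ e.1 then x (e.1.erase (v e.2), e.2) else 0
  have hb1 : ∀ s t, t.card = p → v t ∈ s → b (s, t) = x (s.erase (v t), t) := fun s t h1 h2 => if_pos ⟨h1, h2⟩
  have hb2 : ∀ s t, v t ∉ s → b (s, t) = 0 := fun s t h => if_neg fun h' => h h'.2
  have hb3 : ∀ s t, t.card ≠ p → b (s, t) = 0 := fun s t h => if_neg fun h' => h h'.1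
  have hsup : ∀ e, b e ≠ 0 → e.2.card = p ∧ v e.2 ∈ e.1 ∧ x (e.1.erase (v e.2), e.2) ≠ 0 := by
    intro e he
    by_cases h : e.2.card = p ∧ v e.2 ∈ e.1
    · refine ⟨h.1, h.2, fun h' => he ?_⟩
      show (if e.2.card = p ∧ v e.2 ∈ e.1 then x (e.1.erase (v e.2), e.2) else 0) = 0
      rw [h', ite_self]
    · exact absurd (if_neg h) he
  let y : Finset U × Finset U →₀ ZMod 2 :=
    Finsupp.onFinset (x.support.image fun e => (insert (v e.2) e.1, e.2)) b (by
      rintro ⟨s, t⟩ he
      obtain ⟨h1, h2, h3⟩ := hsup _ he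
      refine mem_image.2 ⟨(s.erase (v t), t), Finsupp.mem_support_iff.2 h3, ?_⟩
      show (insert (v t) (s.erase (v t)), t) = (s, t)
      rw [insert_erase h2])
  have hyb : ∀ e, y e = b e := fun e => rfl
  refine ⟨y, tn_of ?_, ?_, ?_⟩
  · rintro ⟨s, t⟩ he
    obtain ⟨h1, h2, h3⟩ := hsup _ he
    obtain ⟨h5, h6, h7, h8, h9⟩ := hxc _ h3
    simp only at h1 h2 h5 h6 h7 h8 h9
    refine ⟨⟨v t, h2⟩, ?_, h7, h8, ?_⟩
    · intro w hw
      by_cases h10 : w = v t
      · rw [h10]
        exact hv t (hM.ne t h7)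
      · exact h6 (mem_erase.2 ⟨h10, hw⟩)
    · show s.card + n = t.card + (m + 1)
      rw [card_erase_of_mem h2] at h9
      have := card_pos.2 ⟨v t, h2⟩
      omega
  · intro t
    unfold al
    refine sum_eq_zero fun u _ => ?_
    rw [hyb]
    by_contra he
    obtain ⟨h1, h2, h3⟩ := hsup _ he
    simp only [mem_singleton] at h2
    have h4 := (hxc _ h3).1
    simp only [h2] at h4
    rw [erase_singleton] at h4
    exact not_nonempty_empty h4
  · intro s t hs htp
    by_cases hst : s ⊆ t ∧ t ∈ K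
    swap
    · rw [DP_of_not hst]
      by_contra h
      obtain ⟨h5, h6, h7, h8, h9⟩ := hxc _ (Ne.symm h)
      exact hst ⟨h6, h7⟩
    obtain ⟨hst, htK⟩ := hst
    have hvt := hv t (hM.ne t htK)
    rcases Nat.lt_or_ge t.card p with hlt | hge
    · -- both sides vanish
      have h1 : x (s, t) = 0 := by
        by_contra h
        have := hp s t h
        omega
      rw [h1, DP_of hst htK]
      refine sum_eq_zero fun w hw => ?_
      rw [hyb, hyb, hb3 _ _ (by omega), hb3 _ _ (by
        rw [card_erase_of_mem (mem_sdiff.1 hw).1]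
        omega), add_zero]
    have htp : t.card = p := le_antisymm htp hge
    have hxe : ∀ w ∈ t, ∀ s', x (s', t.erase w) = 0 := by
      intro w hw s'
      by_contra h
      have h1 := hp s' _ h
      rw [card_erase_of_mem hw] at h1
      have := card_pos.2 ⟨w, hw⟩
      omega
    have h2 : DP K y (s, t) = ∑ w ∈ t \ s, y (insert w s, t) := by
      rw [DP_of hst htK]
      refine sum_congr rfl fun w hw => ?_
      rw [hyb (s, t.erase w), hb3 _ _ (by
        rw [card_erase_of_mem (mem_sdiff.1 hw).1]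
        have := card_pos.2 ⟨w, (mem_sdiff.1 hw).1⟩
        omega), add_zero]
    rw [h2]
    by_cases hvs : v t ∈ s
    · -- the cycle condition
      have h3 : ∀ w ∈ t \ s, y (insert w s, t) = x (insert w (s.erase (v t)), t) := by
        intro w hw
        have hwv : w ≠ v t := fun h => (mem_sdiff.1 hw).2 (h ▸ hvs)
        rw [hyb, hb1 _ _ htp (mem_insert_of_mem hvs), erase_insert_of_ne hwv]
      rw [sum_congr rfl h3]
      have h4 : t \ s.erase (v t) = insert (v t) (t \ s) := by
        ext u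
        simp only [mem_sdiff, mem_erase, mem_insert, not_and]
        by_cases hu : u = v t
        · simp [hu, hvt]
        · simp [hu]
      have h5 : v t ∉ t \ s := fun h => (mem_sdiff.1 h).2 hvs
      have h6 : ∑ w ∈ t \ s.erase (v t), x (insert w (s.erase (v t)), t) = 0 := by
        by_cases hne : (s.erase (v t)).Nonempty
        · have h7 := h0 (s.erase (v t)) t hne
          rw [DP_of ((erase_subset _ _).trans hst) htK] at h7
          rw [← h7]
          refine sum_congr rfl fun w hw => ?_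
          rw [hxe w (mem_sdiff.1 hw).1, add_zero]
        · rw [not_nonempty_iff_eq_empty] at hne
          rw [hne]
          have h7 := ha t htK
          unfold al at h7
          rw [← h7, sdiff_empty]
          exact sum_congr rfl fun w _ => rfl
      rw [h4, sum_insert h5, insert_erase hvs] at h6
      exact (CharTwo.add_eq_zero.1 h6).symm
    · rw [sum_eq_single_of_mem (v t) (mem_sdiff.2 ⟨hvt, hvs⟩), hyb, hb1 _ _ htp (mem_insert_self _ _),
        erase_insert hvs]
      intro w _ hwv
      rw [hyb]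
      refine hb2 _ _ fun h => ?_
      rw [mem_insert] at h
      rcases h with h | h
      · exact hwv h.symm
      · exact hvs h

/-- the coboundary of the zero cochain -/
theorem cob_zero_of {f : Finset U → ZMod 2} (h : ∀ t, f t = 0) (t : Finset U) : cob f t = 0 := by
  unfold cob
  exact sum_eq_zero fun v _ => h _

/-- **the kernel is exact** -/
theorem ker_exact (hM : Psm K B n) {m : ℕ} : ∀ q p : ℕ, p + q = n + 2 → ∀ x : Finset U × Finset U →₀ ZMod 2,
    x ∈ TN K B n (m + 1) → (∀ s t, s.Nonempty → DP K x (s, t) = 0) → (∀ t ∈ K, al x t = 0) →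
    (∀ s t, x (s, t) ≠ 0 → p ≤ t.card) →
    ∃ y ∈ TN K B n (m + 2), (∀ t, al y t = 0) ∧ ∀ s t, s.Nonempty → DP K y (s, t) = x (s, t) := by
  classical
  intro q
  induction q with
  | zero =>
    intro p hpq x hx _ _ hp
    have h1 : ∀ e, x e = 0 := by
      rintro ⟨s, t⟩
      by_contra h
      obtain ⟨h5, h6, h7, h8, h9⟩ := tn_cell hx _ h
      have h2 := hM.card_le t h7
      have h3 := hp s t h
      omega
    refine ⟨0, Submodule.zero_mem _, fun t => ?_, fun s t _ => ?_⟩
    · unfold al
      simp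
    · rw [h1]
      by_cases h : s ⊆ t ∧ t ∈ K
      · rw [DP_of h.1 h.2]
        simp
      · exact DP_of_not h
  | succ q ih =>
    intro p hpq x hx h0 ha hp
    obtain ⟨y, hy, hya, hyx⟩ := ker_step hM hx h0 ha hp
    have hby := bdT_mem hM hy
    have hco : ∀ s t, s.Nonempty → bdT K n y (s, t) = DP K y (s, t) := fun s t hs => bdT_coeff hM hy hs
    have hDadd : ∀ s t, s.Nonempty → DP K (x + bdT K n y : Finset U × Finset U →₀ ZMod 2) (s, t) =
        DP K x (s, t) + DP K (DP K y) (s, t) := by
      intro s t hs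
      by_cases h : s ⊆ t ∧ t ∈ K
      · rw [DP_of h.1 h.2, DP_of h.1 h.2, DP_of h.1 h.2, ← sum_add_distrib]
        refine sum_congr rfl fun w _ => ?_
        rw [Finsupp.add_apply, Finsupp.add_apply, hco _ _ (insert_nonempty _ _), hco _ _ hs]
        ring
      · rw [DP_of_not h, DP_of_not h, DP_of_not h, add_zero]
    obtain ⟨z, hz, hza, hzx⟩ := ih (p + 1) (by omega) (x + bdT K n y) (Submodule.add_mem _ hx hby)
      (fun s t hs => by rw [hDadd s t hs, h0 s t hs, DP_DP hM _ hs, add_zero])
      (fun t ht => by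
        rw [al_add', ha t ht, al_bdT hM hy ht, cob_zero_of hya, add_zero])
      (fun s t hst => by
        by_contra hlt
        have hs : s.Nonempty := (tn_cell (Submodule.add_mem _ hx hby) _ hst).1
        rw [Finsupp.add_apply, hco s t hs, hyx s t hs (by omega)] at hst
        exact hst (CharTwo.add_self_eq_zero _))
    refine ⟨y + z, Submodule.add_mem _ hy hz, fun t => by rw [al_add', hya, hza, add_zero], fun s t hs => ?_⟩
    have h1 : DP K (y + z : Finset U × Finset U →₀ ZMod 2) (s, t) = DP K y (s, t) + DP K z (s, t) := by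
      have h2 := congrFun (DP_add (K := K) (y : Finset U × Finset U → ZMod 2) z) (s, t)
      rw [Pi.add_apply] at h2
      rw [← h2]
      rfl
    rw [h1, hzx s t hs, Finsupp.add_apply, hco s t hs, add_left_comm, CharTwo.add_self_eq_zero, add_zero]

end Pool.Agent.S10

end

section

/-!
# Project S10D: the chain map from the cubes to the complex of pairs of the cycle of a duality pair
-/

set_option autoImplicit false
set_option linter.unusedSectionVars false

open Finset Pointwise

namespace Pool.Agent.S10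

open Pool.Agent.H19.Cub Pool.Agent.H77.SX Pool.Agent.H37.TM

variable {U : Type} [DecidableEq U] {K B mu : Set (Finset U)} {n d : ℕ}

/-! ### The coboundary -/

/-- the coboundary of the finite cochains of `K` -/
noncomputable def coF (K : Set (Finset U)) : (Finset U →₀ ZMod 2) →ₗ[ZMod 2] (Finset U →₀ ZMod 2) :=
  lin fun τ => ∑ t ∈ cofs K τ (τ.card + 1), Finsupp.single t 1

theorem mem_cofsD (hD : Dual K B mu n d) {t : Finset U} (ht : t ∈ K) {j : ℕ} {t' : Finset U} :
    t' ∈ cofs K t j ↔ t' ∈ K ∧ t ⊆ t' ∧ t'.card = j := by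
  have h : {t' | t' ∈ K ∧ t ⊆ t' ∧ t'.card = j}.Finite :=
    (hD.locfin t ht).subset fun t' h => ⟨h.1, h.2.1⟩
  unfold cofs
  rw [dif_pos h, Set.Finite.mem_toFinset]
  rfl

theorem coF_apply (hD : Dual K B mu n d) {f : Finset U →₀ ZMod 2} (hf : ∀ t, f t ≠ 0 → t ∈ K) (t : Finset U) :
    coF K f t = open Classical in if t ∈ K then ∑ v ∈ t, f (t.erase v) else 0 := by
  classical
  unfold coF lin
  rw [Finsupp.linearCombination_apply, Finsupp.sum, Finsupp.finsetSum_apply]
  have h1 : ∀ τ ∈ f.support, (f τ • ∑ t' ∈ cofs K τ (τ.card + 1), Finsupp.single t' (1 : ZMod 2)) t =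
      if t ∈ K ∧ τ ⊆ t ∧ t.card = τ.card + 1 then f τ else 0 := by
    intro τ hτ
    have hτK := hf τ (Finsupp.mem_support_iff.1 hτ)
    rw [Finsupp.smul_apply, Finsupp.finsetSum_apply]
    simp only [Finsupp.single_apply]
    rw [sum_ite_eq', smul_eq_mul]
    by_cases h : t ∈ K ∧ τ ⊆ t ∧ t.card = τ.card + 1
    · rw [if_pos ((mem_cofsD hD hτK).2 h), if_pos h, mul_one]
    · rw [if_neg fun h' => h ((mem_cofsD hD hτK).1 h'), if_neg h, mul_zero]
  rw [sum_congr rfl h1]
  by_cases ht : t ∈ K
  · rw [if_pos ht]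
    have h2 : ∑ v ∈ t, f (t.erase v) = ∑ τ ∈ t.image t.erase, f τ :=
      (sum_image fun v hv w hw h => erase_injOn t hv hw h).symm
    rw [h2, ← sum_filter]
    refine sum_subset ?_ ?_
    · intro τ hτ
      rw [mem_filter] at hτ
      obtain ⟨-, -, h3, h4⟩ := hτ
      have h5 : (t \ τ).card = 1 := by
        rw [card_sdiff_of_subset h3]
        omega
      obtain ⟨w, hw⟩ := card_eq_one.1 h5
      have hw1 : w ∈ t ∧ w ∉ τ := by
        rw [← mem_sdiff, hw]
        exact mem_singleton_self w
      refine mem_image.2 ⟨w, hw1.1, ?_⟩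
      have h8 : τ ⊆ t.erase w := subset_erase.2 ⟨h3, hw1.2⟩
      refine (eq_of_subset_of_card_le h8 ?_).symm
      rw [card_erase_of_mem hw1.1]
      omega
    · intro τ hτ hn
      obtain ⟨w, hw, rfl⟩ := mem_image.1 hτ
      by_contra h
      refine hn (mem_filter.2 ⟨Finsupp.mem_support_iff.2 h, ht, erase_subset _ _, ?_⟩)
      rw [card_erase_of_mem hw]
      have := card_pos.2 ⟨w, hw⟩
      omega
  · rw [if_neg ht]
    exact sum_eq_zero fun τ _ => if_neg fun h => ht h.1

/-! ### The augmentation -/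

theorem aug_eq (hD : Dual K B mu n d) {y : Finset U × Finset U →₀ ZMod 2}
    (hy : y ∈ TN (gen mu) (B ∩ gen mu) n 1) :
    bdT (gen mu) n y = Finsupp.single (∅, ∅) (∑ᶠ t ∈ mu, al y t) := by
  classical
  have hc : ∀ e ∈ y.support, e ∈ TCell (gen mu) (B ∩ gen mu) n 1 := fun e he =>
    (Finsupp.mem_supported _ _).1 hy he
  have hpsm := gen_psm hD
  have hval : ∀ e, y e ≠ 0 → ∃ v ∈ e.2, e.1 = {v} ∧ e.2 ∈ mu := by
    intro e he
    have h1 := hc e (Finsupp.mem_support_iff.2 he)
    obtain ⟨h2, h3, -⟩ := bdE_one hpsm h1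
    obtain ⟨h4, h5, h6, h7, h8⟩ := h1
    obtain ⟨v, hv⟩ := card_eq_one.1 h2
    refine ⟨v, h5 ?_, hv, gen_top hD h6 h3⟩
    rw [hv]
    exact mem_singleton_self v
  have h1 : bdT (gen mu) n y = Finsupp.single (∅, ∅) (∑ e ∈ y.support, y e) := by
    unfold bdT
    rw [Finsupp.linearCombination_apply, Finsupp.sum, Finsupp.single_finsetSum]
    refine sum_congr rfl fun e he => ?_
    rw [(bdE_one hpsm (hc e he)).2.2, Finsupp.smul_single, smul_eq_mul, mul_one]
  rw [h1]
  congr 1
  have h2 : ∑ᶠ t ∈ mu, al y t = ∑ t ∈ y.support.image Prod.snd, al y t := by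
    refine finsum_mem_eq_sum_of_inter_support_eq _ ?_
    ext t
    simp only [Set.mem_inter_iff, Function.mem_support, Finset.mem_coe]
    refine and_congr_left fun h => ⟨fun _ => ?_, fun h3 => ?_⟩
    · unfold al at h
      obtain ⟨v, -, hv⟩ := exists_ne_zero_of_sum_ne_zero h
      exact mem_image.2 ⟨({v}, t), Finsupp.mem_support_iff.2 hv, rfl⟩
    · obtain ⟨e, he, rfl⟩ := mem_image.1 h3
      obtain ⟨v, -, -, h4⟩ := hval e (Finsupp.mem_support_iff.1 he)
      exact h4
  rw [h2, ← sum_fiberwise_of_maps_to (s := y.support) (t := y.support.image Prod.snd) (g := Prod.snd)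
    (fun e he => mem_image_of_mem _ he)]
  refine sum_congr rfl fun t _ => ?_
  unfold al
  have h3 : ∑ v ∈ t, y ({v}, t) = ∑ e ∈ t.image fun v => (({v} : Finset U), t), y e :=
    (sum_image fun v _ w _ h => by
      rw [Prod.mk.injEq] at h
      exact singleton_inj.1 h.1).symm
  rw [h3]
  refine sum_subset ?_ ?_
  · intro e he
    obtain ⟨he1, he2⟩ := mem_filter.1 he
    obtain ⟨v, hv, h4, -⟩ := hval e (Finsupp.mem_support_iff.1 he1)
    rw [he2] at hv
    exact mem_image.2 ⟨v, hv, by rw [← h4, ← he2]⟩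
  · intro e he hn
    obtain ⟨v, hv, rfl⟩ := mem_image.1 he
    by_contra h
    exact hn (mem_filter.2 ⟨Finsupp.mem_support_iff.2 h, rfl⟩)

/-- cochains lift to the complex of pairs -/
theorem exists_sec {g : Finset U →₀ ZMod 2} {k : ℕ}
    (hg : ∀ t, g t ≠ 0 → t ∈ K ∧ t ∉ B ∧ t.card + k = n + 1) :
    ∃ y ∈ TN (gen mu) (B ∩ gen mu) n (k + 1), ∀ τ ∈ gen mu, al y τ = g τ := by
  classical
  have hv : ∀ t : Finset U, ∃ s : Finset U, t.Nonempty → ∃ v ∈ t, s = {v} := by
    intro t
    by_cases h : t.Nonempty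
    · obtain ⟨u, hu⟩ := h
      exact ⟨{u}, fun _ => ⟨u, hu, rfl⟩⟩
    · exact ⟨∅, fun h' => absurd h' h⟩
  choose s hs using hv
  refine ⟨∑ τ ∈ g.support with τ ∈ gen mu, g τ • Finsupp.single (s τ, τ) 1, ?_, ?_⟩
  · refine Submodule.sum_mem _ fun τ hτ => Submodule.smul_mem _ _ ?_
    obtain ⟨h1, h2⟩ := mem_filter.1 hτ
    obtain ⟨h3, h4, h5⟩ := hg τ (Finsupp.mem_support_iff.1 h1)
    obtain ⟨v, hv, h6⟩ := hs τ h2.1
    refine Finsupp.single_mem_supported _ _ ⟨?_, ?_, h2, fun h => h4 h.1, ?_⟩
    · show (s τ).Nonempty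
      rw [h6]
      exact singleton_nonempty v
    · show s τ ⊆ τ
      rw [h6]
      exact singleton_subset_iff.2 hv
    · show (s τ).card + n = τ.card + k
      rw [h6, card_singleton]
      omega
  · intro τ hτ
    obtain ⟨v, hv, h6⟩ := hs τ hτ.1
    rw [al_sum']
    have h1 : ∀ τ' : Finset U, al (g τ' • Finsupp.single (s τ', τ') (1 : ZMod 2)) τ = if τ' = τ then g τ else 0 := by
      intro τ'
      rw [al_smul'', al_single]
      by_cases h : τ' = τ
      · subst h
        rw [if_pos rfl, h6]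
        simp only [and_true, singleton_inj]
        rw [sum_ite_eq, if_pos hv, mul_one]
      · rw [if_neg h, sum_eq_zero, mul_zero]
        exact fun w _ => if_neg fun h' => h h'.2
    rw [sum_congr rfl fun τ' _ => h1 τ', sum_ite_eq']
    split_ifs with h
    · rfl
    · by_contra h2
      exact h (mem_filter.2 ⟨Finsupp.mem_support_iff.2 (Ne.symm h2), hτ⟩)

/-! ### The target complex -/

/-- pairs of a chain of the complex of pairs and a cochain of `K` with the same image -/
noncomputable def MM (K B mu : Set (Finset U)) (n : ℕ) :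
    ℕ → Submodule (ZMod 2) ((Finset U × Finset U →₀ ZMod 2) × (Finset U →₀ ZMod 2))
  | 0 => (TN (gen mu) (B ∩ gen mu) n 0).prod ⊥
  | m + 1 =>
    { carrier := {x | x.1 ∈ TN (gen mu) (B ∩ gen mu) n (m + 1) ∧
        x.2 ∈ Finsupp.supported (ZMod 2) (ZMod 2) {t | t ∈ K ∧ t ∉ B ∧ t.card + m = n + 1} ∧
        ∀ t ∈ gen mu, al x.1 t = x.2 t}
      add_mem' := by
        rintro x y ⟨h1, h2, h3⟩ ⟨h4, h5, h6⟩
        refine ⟨Submodule.add_mem _ h1 h4, Submodule.add_mem _ h2 h5, fun t ht => ?_⟩
        show al (x.1 + y.1) t = x.2 t + y.2 t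
        rw [al_add', h3 t ht, h6 t ht]
      zero_mem' := by
        refine ⟨Submodule.zero_mem _, Submodule.zero_mem _, fun t _ => ?_⟩
        show al (0 : Finset U × Finset U →₀ ZMod 2) t = 0
        unfold al
        simp
      smul_mem' := by
        rintro c x ⟨h1, h2, h3⟩
        refine ⟨Submodule.smul_mem _ c h1, Submodule.smul_mem _ c h2, fun t ht => ?_⟩
        show al (c • x.1) t = c * x.2 t
        rw [al_smul'', h3 t ht] }

/-- the boundary of the target complex -/
noncomputable def DD (K mu : Set (Finset U)) (n : ℕ) :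
    ((Finset U × Finset U →₀ ZMod 2) × (Finset U →₀ ZMod 2)) →ₗ[ZMod 2]
      ((Finset U × Finset U →₀ ZMod 2) × (Finset U →₀ ZMod 2)) :=
  (bdT (gen mu) n).prodMap (coF K)

/-- a finite cocycle in the degree `n - m` is a coboundary -/
theorem exists_cob (hD : Dual K B mu n d) {m : ℕ} (hm : m + 1 ≤ d) {f : Finset U →₀ ZMod 2}
    (hf : ∀ t, f t ≠ 0 → t ∈ K ∧ t ∉ B ∧ t.card + m = n + 1) (h0 : coF K f = 0)
    (h1 : m = 0 → ∑ᶠ t ∈ mu, f t = 0) :
    ∃ g : Finset U →₀ ZMod 2, (∀ t, g t ≠ 0 → t ∈ K ∧ t ∉ B ∧ t.card + (m + 1) = n + 1) ∧ coF K g = f := by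
  classical
  have hcoc : IsCob K B ∅ f 0 := by
    intro t ht _ _
    have h2 := DFunLike.congr_fun h0 t
    rw [coF_apply hD (fun t h => (hf t h).1), if_pos ht] at h2
    rw [sdiff_empty]
    exact h2
  have key : ∀ j : ℕ, j + m = n → (∃ g : Finset U →₀ ZMod 2, Rel K B ∅ j g ∧ IsCob K B ∅ g f) →
      ∃ g : Finset U →₀ ZMod 2, (∀ t, g t ≠ 0 → t ∈ K ∧ t ∉ B ∧ t.card + (m + 1) = n + 1) ∧
        coF K g = f := by
    rintro j hj ⟨g, hg, hgf⟩
    refine ⟨g, fun t ht => ?_, ?_⟩
    · obtain ⟨h2, h3, -, h4⟩ := hg t ht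
      exact ⟨h2, h3, by omega⟩
    · ext t
      rw [coF_apply hD (fun t h => (hg t h).1)]
      by_cases htK : t ∈ K
      · rw [if_pos htK]
        by_cases htB : t ∈ B
        · have h2 : f t = 0 := by
            by_contra h
            exact (hf t h).2.1 htB
          rw [h2]
          refine sum_eq_zero fun v _ => ?_
          by_contra h
          obtain ⟨h3, h4, -⟩ := hg _ h
          exact h4 (hD.bd_down t htB _ (erase_subset _ _) (hD.ne _ h3))
        · have h2 := hgf t htK htB (empty_subset t)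
          rw [sdiff_empty] at h2
          exact h2
      · rw [if_neg htK]
        by_contra h
        exact htK (hf t (Ne.symm h)).1
  rcases Nat.lt_or_ge n m with hmn | hmn
  · refine ⟨0, fun t ht => absurd rfl ht, ?_⟩
    rw [map_zero]
    ext t
    by_contra h
    obtain ⟨h2, h3, h4⟩ := hf t (Ne.symm h)
    have := card_pos.2 (hD.ne t h2)
    omega
  rcases Nat.eq_zero_or_pos m with rfl | hm0
  · refine key n (by omega) (hD.top f (fun t ht => ?_) hcoc (h1 rfl))
    obtain ⟨h2, h3, h4⟩ := hf t ht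
    exact ⟨h2, h3, empty_subset _, by omega⟩
  · refine key (n - m) (by omega) (hD.low (n - m) (by omega) (by omega) f (fun t ht => ?_) hcoc)
    obtain ⟨h2, h3, h4⟩ := hf t ht
    exact ⟨h2, h3, empty_subset _, by omega⟩

/-- **the target complex is exact** -/
theorem mm_exact (hD : Dual K B mu n d) (i : ℕ) (hi : i ≤ d)
    (x : (Finset U × Finset U →₀ ZMod 2) × (Finset U →₀ ZMod 2)) (hx : x ∈ MM K B mu n i)
    (h0 : DD K mu n x = 0) : ∃ y ∈ MM K B mu n (i + 1), DD K mu n y = x := by
  classical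
  have hpsm := gen_psm hD
  obtain ⟨y, f⟩ := x
  have h0a : bdT (gen mu) n y = 0 := congrArg Prod.fst h0
  have h0b : coF K f = 0 := congrArg Prod.snd h0
  match i with
  | 0 =>
    obtain ⟨hy, hf⟩ := hx
    have hf0 : f = 0 := hf
    obtain ⟨f1, hf1, hf2, hf3⟩ := hD.ex
    have hf4 : ∀ t, f1 t ≠ 0 → t ∈ K ∧ t ∉ B ∧ t.card + 0 = n + 1 := fun t ht => by
      obtain ⟨h2, h3, -, h4⟩ := hf1 t ht
      exact ⟨h2, h3, by omega⟩
    obtain ⟨y1, hy1, hy1f⟩ := exists_sec (mu := mu) hf4
    have h1 : coF K f1 = 0 := by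
      ext t
      rw [coF_apply hD (fun t h => (hf1 t h).1)]
      by_cases htK : t ∈ K
      · rw [if_pos htK]
        by_cases htB : t ∈ B
        · refine sum_eq_zero fun v _ => ?_
          by_contra h
          obtain ⟨h3, h4, -⟩ := hf1 _ h
          exact h4 (hD.bd_down t htB _ (erase_subset _ _) (hD.ne _ h3))
        · have h2 := hf2 t htK htB (empty_subset t)
          rw [sdiff_empty] at h2
          exact h2
      · rw [if_neg htK]
        rfl
    have h2 : ∑ᶠ t ∈ mu, al y1 t = 1 := by
      rw [← hf3]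
      exact finsum_mem_congr rfl fun t ht => hy1f t (mu_gen hD ht)
    have h3 : y = Finsupp.single (∅, ∅) (y (∅, ∅)) := by
      ext e
      rw [Finsupp.single_apply]
      split_ifs with h
      · rw [h]
      · by_contra h4
        exact h ((Set.mem_singleton_iff.1 ((Finsupp.mem_supported _ _).1 hy
          (Finsupp.mem_support_iff.2 h4))).symm)
    refine ⟨y (∅, ∅) • (y1, f1), Submodule.smul_mem _ _ ⟨hy1, ?_, hy1f⟩, ?_⟩
    · exact (Finsupp.mem_supported _ _).2 fun t ht => hf4 t (Finsupp.mem_support_iff.1 ht)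
    · rw [map_smul]
      show y (∅, ∅) • ((bdT (gen mu) n y1, coF K f1) : _ × _) = (y, f)
      rw [h1, aug_eq hD hy1, h2, hf0, Prod.smul_mk, smul_zero, Finsupp.smul_single, smul_eq_mul,
        mul_one, ← h3]
  | m + 1 =>
    obtain ⟨hy, hf, hyf⟩ := hx
    simp only at hy hf hyf
    have hfs : ∀ t, f t ≠ 0 → t ∈ K ∧ t ∉ B ∧ t.card + m = n + 1 := fun t ht =>
      (Finsupp.mem_supported _ _).1 hf (Finsupp.mem_support_iff.2 ht)
    obtain ⟨g, hg, hgf⟩ := exists_cob hD hi hfs h0b (by
      rintro rfl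
      have h1 := aug_eq hD hy
      rw [h0a] at h1
      have h2 := DFunLike.congr_fun h1 ((∅, ∅) : Finset U × Finset U)
      rw [Finsupp.single_eq_same] at h2
      rw [← finsum_mem_congr rfl fun t ht => hyf t (mu_gen hD ht), ← h2]
      rfl)
    obtain ⟨y1, hy1, hy1g⟩ := exists_sec (mu := mu) hg
    have hby := bdT_mem hpsm hy1
    have hco : ∀ s t, s.Nonempty → bdT (gen mu) n y1 (s, t) = DP (gen mu) y1 (s, t) :=
      fun s t hs => bdT_coeff hpsm hy1 hs
    obtain ⟨z, hz, hza, hzx⟩ := ker_exact hpsm (m := m) (n + 2) 0 (by omega) (y + bdT (gen mu) n y1)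
      (Submodule.add_mem _ hy hby)
      (fun s t hs => by
        have h3 : DP (gen mu) y (s, t) = 0 := by
          rw [← bdT_coeff hpsm hy hs, h0a]
          rfl
        have h4 := DP_DP hpsm (y1 : Finset U × Finset U → ZMod 2) (t := t) hs
        by_cases h : s ⊆ t ∧ t ∈ gen mu
        · rw [DP_of h.1 h.2] at h3 h4 ⊢
          refine Eq.trans ?_ ((congrArg₂ (· + ·) h3 h4).trans (add_zero 0))
          show _ = _ + _
          rw [← sum_add_distrib]
          refine sum_congr rfl fun w _ => ?_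
          rw [Finsupp.add_apply, Finsupp.add_apply, hco _ _ (insert_nonempty _ _), hco _ _ hs]
          ring
        · exact DP_of_not h)
      (fun t ht => by
        rw [al_add', hyf t ht, al_bdT hpsm hy1 ht]
        have h3 : cob (al y1) t = f t := by
          rw [← hgf, coF_apply hD (fun t h => (hg t h).1), if_pos (gen_sub hD ht)]
          unfold cob
          refine sum_congr rfl fun v hv => ?_
          by_cases hne : (t.erase v).Nonempty
          · exact hy1g _ (hpsm.down t ht _ (erase_subset _ _) hne)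
          · rw [not_nonempty_iff_eq_empty] at hne
            rw [hne]
            have h4 : g ∅ = 0 := by
              by_contra h
              exact not_nonempty_empty (hD.ne _ (hg _ h).1)
            rw [h4]
            unfold al
            simp
        rw [h3]
        exact CharTwo.add_self_eq_zero _)
      (fun s t _ => Nat.zero_le _)
    refine ⟨(y1 + z, g), ⟨Submodule.add_mem _ hy1 hz, ?_, fun t ht => ?_⟩, ?_⟩
    · exact (Finsupp.mem_supported _ _).2 fun t ht => hg t (Finsupp.mem_support_iff.1 ht)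
    · show al (y1 + z) t = g t
      rw [al_add', hy1g t ht, hza, add_zero]
    · show ((bdT (gen mu) n (y1 + z), coF K g) : _ × _) = (y, f)
      rw [hgf]
      congr 1
      ext ⟨s, t⟩
      by_cases hs : s.Nonempty
      · rw [map_add, Finsupp.add_apply, bdT_coeff hpsm hz hs, hzx s t hs, Finsupp.add_apply,
          add_left_comm, CharTwo.add_self_eq_zero, add_zero]
      · have h5 : ∀ x ∈ TN (gen mu) (B ∩ gen mu) n (m + 1), x (s, t) = 0 := by
          intro x hx
          by_contra h
          exact hs (tn_cell hx _ h).1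
        rw [h5 y hy, h5 _ (bdT_mem hpsm (Submodule.add_mem _ hy1 hz))]

end Pool.Agent.S10

end
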