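import Pool.Agent.H71.TSG.M21
import Pool.Agent.H71.TSG.M45
import Pool.Agent.H71.TSG.M48

/-! The parts of this file: S10.EA.Sub, S10.EA.Tran, S9.M.Cmp. -/

section

/-!
# Project S10, block E: triangular coefficients

Finite dimension of the solutions, subadditivity for an extension of coefficients, and for triangular matrix
representations; equality implies that the solutions of the quotient lift.
-/

set_option autoImplicit false
set_option linter.unusedSectionVars false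

open Finset

namespace Pool.Agent.S10.EA

open Pool.Agent.S9

variable {W : Type} [Group W] {T T' : Type} {K : Type} [Field K]

section Fin

variable {N : Type} [AddCommGroup N] [Module K N]

/-- the values at the representatives of the cosets -/
private noncomputable def Sub_ev (K : Type) [Field K] (T : Type) (Γ : Subgroup W) (N : Type) [AddCommGroup N]
    [Module K N] : (T → W → N) →ₗ[K] (T → (W ⧸ Γ) → N) where
  toFun c t q := c t (Quotient.out q)⁻¹
  map_add' _ _ := rfl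
  map_smul' _ _ := rfl

private theorem Sub_ev_inj {L : T' → W → Finset (T × W)} {Γ : Subgroup W} {ρ : Γ →* Module.End K N}
    {c : T → W → N} (hc : c ∈ ZL L Γ ρ) (h : Sub_ev K T Γ N c = 0) : c = 0 := by
  funext t w
  have h1 : ((Quotient.out ((w⁻¹ : W) : W ⧸ Γ) : W) : W ⧸ Γ) = ((w⁻¹ : W) : W ⧸ Γ) :=
    QuotientGroup.out_eq' _
  rw [QuotientGroup.eq] at h1
  -- `(out)⁻¹ * w⁻¹ ∈ Γ`
  have h2 : ((Quotient.out ((w⁻¹ : W) : W ⧸ Γ) : W)⁻¹ * w⁻¹)⁻¹ ∈ Γ := Γ.inv_mem h1
  have h3 : w = ((Quotient.out ((w⁻¹ : W) : W ⧸ Γ) : W)⁻¹ * w⁻¹)⁻¹ *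
      (Quotient.out ((w⁻¹ : W) : W ⧸ Γ) : W)⁻¹ := by
    group
  have h4 := hc.1 t ⟨_, h2⟩ (Quotient.out ((w⁻¹ : W) : W ⧸ Γ) : W)⁻¹
  have h5 : c t (Quotient.out ((w⁻¹ : W) : W ⧸ Γ) : W)⁻¹ = 0 := congrFun (congrFun h t) _
  rw [h5, map_zero] at h4
  have h6 : ((⟨_, h2⟩ : Γ) : W) * (Quotient.out ((w⁻¹ : W) : W ⧸ Γ) : W)⁻¹ = w := h3.symm
  rw [h6] at h4
  exact h4

/-- the solutions are finite dimensional -/
theorem ZL_finite [Finite T] (L : T' → W → Finset (T × W)) (Γ : Subgroup W) [Finite (W ⧸ Γ)]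
    [FiniteDimensional K N] (ρ : Γ →* Module.End K N) : FiniteDimensional K (ZL L Γ ρ) := by
  have h : Function.Injective ((Sub_ev K T Γ N).domRestrict (ZL L Γ ρ)) := by
    rw [← LinearMap.ker_eq_bot, LinearMap.ker_eq_bot']
    intro c hc
    exact Subtype.ext (Sub_ev_inj c.2 hc)
  exact Module.Finite.of_injective _ h

end Fin

section Ext

variable {N N' N'' : Type} [AddCommGroup N] [Module K N] [AddCommGroup N'] [Module K N'] [AddCommGroup N'']
  [Module K N'']

/-- composition with a linear map of the coefficients -/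
def cmp (K T W : Type) [Field K] {N N'' : Type} [AddCommGroup N] [Module K N] [AddCommGroup N''] [Module K N'']
    (f : N →ₗ[K] N'') : (T → W → N) →ₗ[K] (T → W → N'') where
  toFun c t w := f (c t w)
  map_add' c c' := by
    funext t w
    exact map_add f _ _
  map_smul' a c := by
    funext t w
    exact map_smul f _ _

theorem cmp_apply (f : N →ₗ[K] N'') (c : T → W → N) (t : T) (w : W) : cmp K T W f c t w = f (c t w) := rfl

theorem cmp_mem {L : T' → W → Finset (T × W)} {Γ : Subgroup W} {ρ : Γ →* Module.End K N}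
    {ρ'' : Γ →* Module.End K N''} (f : N →ₗ[K] N'') (hf : ∀ g y, f (ρ g y) = ρ'' g (f y)) {c : T → W → N}
    (hc : c ∈ ZL L Γ ρ) : cmp K T W f c ∈ ZL L Γ ρ'' := by
  refine ⟨fun t g w => ?_, fun t' w => ?_⟩
  · rw [cmp_apply, cmp_apply, hc.1, hf]
  · simp only [cmp_apply]
    rw [← map_sum, hc.2, map_zero]

private theorem Sub_main [Finite T] {L : T' → W → Finset (T × W)} {Γ : Subgroup W} [Finite (W ⧸ Γ)]
    [FiniteDimensional K N] [FiniteDimensional K N'] [FiniteDimensional K N'']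
    {ρ : Γ →* Module.End K N} {ρ' : Γ →* Module.End K N'} {ρ'' : Γ →* Module.End K N''}
    (f : N →ₗ[K] N'') (hf : ∀ g y, f (ρ g y) = ρ'' g (f y)) (j : N' →ₗ[K] N)
    (hj : Function.Injective j) (hjr : ∀ g y, j (ρ' g y) = ρ g (j y)) (he : ∀ y, f y = 0 → ∃ x, j x = y) :
    zL L Γ ρ ≤ Module.finrank K (LinearMap.range (((cmp K T W f).domRestrict (ZL L Γ ρ)).codRestrict (ZL L Γ ρ'')
      fun c => cmp_mem f hf c.2)) + zL L Γ ρ' := by
  have _ := ZL_finite (K := K) L Γ ρ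
  have _ := ZL_finite (K := K) L Γ ρ'
  have _ := ZL_finite (K := K) L Γ ρ''
  let g : ZL L Γ ρ →ₗ[K] ZL L Γ ρ'' := ((cmp K T W f).domRestrict (ZL L Γ ρ)).codRestrict (ZL L Γ ρ'')
      fun c => cmp_mem f hf c.2
  have e := LinearMap.finrank_range_add_finrank_ker g
  let i : ZL L Γ ρ' →ₗ[K] ZL L Γ ρ := ((cmp K T W j).domRestrict (ZL L Γ ρ')).codRestrict (ZL L Γ ρ)
      fun c => cmp_mem j hjr c.2
  have hk : LinearMap.ker g ≤ LinearMap.range i := by
    intro c hc
    have h1 : ∀ t w, f (c.1 t w) = 0 := fun t w => congrFun (congrFun (congrArg Subtype.val hc) t) w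
    have h2 : ∀ t w, ∃ x, j x = c.1 t w := fun t w => he _ (h1 t w)
    choose d hd using h2
    refine ⟨⟨d, ?_, ?_⟩, ?_⟩
    · intro t γ w
      apply hj
      rw [hjr, hd, hd]
      exact c.2.1 t γ w
    · intro t' w
      apply hj
      rw [map_sum, map_zero]
      simp only [hd]
      exact c.2.2 t' w
    · apply Subtype.ext
      funext t w
      exact hd t w
  have h3 : Module.finrank K (LinearMap.ker g) ≤ zL L Γ ρ' :=
    (Submodule.finrank_mono hk).trans (LinearMap.finrank_range_le i)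
  have h4 : Module.finrank K (LinearMap.range g) = Module.finrank K (LinearMap.range
    (((cmp K T W f).domRestrict (ZL L Γ ρ)).codRestrict (ZL L Γ ρ'') fun c => cmp_mem f hf c.2)) := rfl
  have h5 : zL L Γ ρ = Module.finrank K (ZL L Γ ρ) := rfl
  omega

/-- **Subadditivity for an extension of the coefficients.** -/
theorem zL_ext [Finite T] (L : T' → W → Finset (T × W)) (Γ : Subgroup W) [Finite (W ⧸ Γ)]
    [FiniteDimensional K N] [FiniteDimensional K N'] [FiniteDimensional K N'']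
    {ρ : Γ →* Module.End K N} {ρ' : Γ →* Module.End K N'} {ρ'' : Γ →* Module.End K N''}
    (f : N →ₗ[K] N'') (hf : ∀ g y, f (ρ g y) = ρ'' g (f y)) (j : N' →ₗ[K] N)
    (hj : Function.Injective j) (hjr : ∀ g y, j (ρ' g y) = ρ g (j y)) (he : ∀ y, f y = 0 → ∃ x, j x = y) :
    zL L Γ ρ ≤ zL L Γ ρ' + zL L Γ ρ'' := by
  have _ := ZL_finite (K := K) L Γ ρ''
  have h1 := Sub_main (L := L) f hf j hj hjr he
  have h2 : Module.finrank K (LinearMap.range (((cmp K T W f).domRestrict (ZL L Γ ρ)).codRestrict (ZL L Γ ρ'')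
      fun c => cmp_mem f hf c.2)) ≤ zL L Γ ρ'' := Submodule.finrank_le _
  omega

/-- **Equality in the subadditivity: the solutions of the quotient lift.** -/
theorem lift_ext [Finite T] (L : T' → W → Finset (T × W)) (Γ : Subgroup W) [Finite (W ⧸ Γ)]
    [FiniteDimensional K N] [FiniteDimensional K N'] [FiniteDimensional K N'']
    {ρ : Γ →* Module.End K N} {ρ' : Γ →* Module.End K N'} {ρ'' : Γ →* Module.End K N''}
    (f : N →ₗ[K] N'') (hf : ∀ g y, f (ρ g y) = ρ'' g (f y)) (j : N' →ₗ[K] N)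
    (hj : Function.Injective j) (hjr : ∀ g y, j (ρ' g y) = ρ g (j y)) (he : ∀ y, f y = 0 → ∃ x, j x = y)
    (heq : zL L Γ ρ' + zL L Γ ρ'' ≤ zL L Γ ρ) {c₀ : T → W → N''} (hc₀ : c₀ ∈ ZL L Γ ρ'') :
    ∃ c ∈ ZL L Γ ρ, ∀ t w, f (c t w) = c₀ t w := by
  have _ := ZL_finite (K := K) L Γ ρ''
  have h1 := Sub_main (L := L) f hf j hj hjr he
  have h7 : LinearMap.range (((cmp K T W f).domRestrict (ZL L Γ ρ)).codRestrict (ZL L Γ ρ'')
      fun c => cmp_mem f hf c.2) = ⊤ := by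
    apply Submodule.eq_top_of_finrank_eq
    refine le_antisymm (Submodule.finrank_le _) ?_
    have h5 : zL L Γ ρ'' = Module.finrank K (ZL L Γ ρ'') := rfl
    omega
  obtain ⟨c, hc⟩ := LinearMap.range_eq_top.1 h7 ⟨c₀, hc₀⟩
  refine ⟨c.1, c.2, fun t w => ?_⟩
  exact congrFun (congrFun (congrArg Subtype.val hc) t) w

end Ext

section Tri

/-- the upper left block -/
private def Sub_blk {n : ℕ} {Γ : Type} [Group Γ] (μ : Γ →* Matrix (Fin (n + 1)) (Fin (n + 1)) K) (hU : UTri μ) :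
    Γ →* Matrix (Fin n) (Fin n) K where
  toFun g := Matrix.of fun a b => μ g a.castSucc b.castSucc
  map_one' := by
    ext a b
    rw [Matrix.of_apply, map_one, Matrix.one_apply, Matrix.one_apply]
    simp only [Fin.castSucc_inj]
  map_mul' g h := by
    ext a b
    rw [Matrix.of_apply, map_mul, Matrix.mul_apply, Matrix.mul_apply, Fin.sum_univ_castSucc]
    have h1 : μ h (Fin.last n) b.castSucc = 0 := hU h _ _ (Fin.castSucc_lt_last b)
    rw [h1, mul_zero, add_zero]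
    rfl

private theorem Sub_blk_tri {n : ℕ} {Γ : Type} [Group Γ] (μ : Γ →* Matrix (Fin (n + 1)) (Fin (n + 1)) K)
    (hU : UTri μ) : UTri (Sub_blk μ hU) := fun g _ _ h => hU g _ _ (Fin.castSucc_lt_castSucc_iff.2 h)

/-- the inclusion of the first coordinates -/
private def Sub_inc (K : Type) [Field K] (n : ℕ) : (Fin n → K) →ₗ[K] (Fin (n + 1) → K) where
  toFun x := Fin.snoc x 0
  map_add' x y := by
    funext a
    refine Fin.lastCases ?_ (fun b => ?_) a
    · simp only [Pi.add_apply, Fin.snoc_last, add_zero]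
    · simp only [Pi.add_apply, Fin.snoc_castSucc]
  map_smul' c x := by
    funext a
    refine Fin.lastCases ?_ (fun b => ?_) a
    · simp only [Pi.smul_apply, Fin.snoc_last, smul_zero]
    · simp only [Pi.smul_apply, Fin.snoc_castSucc, RingHom.id_apply]

private theorem Sub_inc_last (n : ℕ) (x : Fin n → K) : Sub_inc K n x (Fin.last n) = 0 :=
  Fin.snoc_last (α := fun _ => K) 0 x

private theorem Sub_inc_cast (n : ℕ) (x : Fin n → K) (a : Fin n) : Sub_inc K n x a.castSucc = x a :=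
  Fin.snoc_castSucc (α := fun _ => K) 0 x a

private theorem Sub_inc_inj (n : ℕ) : Function.Injective (Sub_inc K n) := by
  intro x y h
  funext a
  rw [← Sub_inc_cast n x a, h, Sub_inc_cast]

private theorem Sub_inc_eq {n : ℕ} {Γ : Type} [Group Γ] (μ : Γ →* Matrix (Fin (n + 1)) (Fin (n + 1)) K)
    (hU : UTri μ) (g : Γ) (y : Fin n → K) :
    Sub_inc K n (mrep (Sub_blk μ hU) g y) = mrep μ g (Sub_inc K n y) := by
  funext a
  rw [mrep_apply, mrep_apply]
  refine Fin.lastCases ?_ (fun b => ?_) a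
  · rw [Sub_inc_last, Matrix.mulVec, dotProduct, Fin.sum_univ_castSucc, Sub_inc_last, mul_zero, add_zero]
    symm
    refine Finset.sum_eq_zero fun i _ => ?_
    rw [hU g _ _ (Fin.castSucc_lt_last i), zero_mul]
  · rw [Sub_inc_cast, Matrix.mulVec, dotProduct, Matrix.mulVec, dotProduct, Fin.sum_univ_castSucc,
      Sub_inc_last, mul_zero, add_zero]
    refine Finset.sum_congr rfl fun i _ => ?_
    rw [Sub_inc_cast]
    rfl

/-- the last coordinate -/
private def Sub_lst (K : Type) [Field K] (n : ℕ) : (Fin (n + 1) → K) →ₗ[K] K := LinearMap.proj (Fin.last n)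

private theorem ch_apply {Γ : Type} [Group Γ] (χ : Γ →* Kˣ) (g : Γ) (y : K) : ch χ g y = (χ g : K) * y := by
  show ((χ g : K) • (1 : Γ →* Module.End K K) g) y = _
  rw [MonoidHom.one_apply, LinearMap.smul_apply, Module.End.one_apply, smul_eq_mul]

private theorem Sub_lst_eq {n : ℕ} {Γ : Type} [Group Γ] (μ : Γ →* Matrix (Fin (n + 1)) (Fin (n + 1)) K)
    (hU : UTri μ) (χ : Γ →* Kˣ) (hχ : ∀ g, μ g (Fin.last n) (Fin.last n) = (χ g : K)) (g : Γ)
    (y : Fin (n + 1) → K) : Sub_lst K n (mrep μ g y) = ch χ g (Sub_lst K n y) := by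
  rw [ch_apply, mrep_apply]
  show (μ g).mulVec y (Fin.last n) = (χ g : K) * y (Fin.last n)
  rw [Matrix.mulVec, dotProduct, Fin.sum_univ_castSucc, hχ]
  have h1 : ∑ i : Fin n, μ g (Fin.last n) i.castSucc * y i.castSucc = 0 :=
    Finset.sum_eq_zero fun i _ => by rw [hU g _ _ (Fin.castSucc_lt_last i), zero_mul]
  rw [h1, zero_add]

private theorem Sub_exact (n : ℕ) (y : Fin (n + 1) → K) (h : Sub_lst K n y = 0) : ∃ x, Sub_inc K n x = y := by
  refine ⟨fun a => y a.castSucc, ?_⟩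
  funext a
  refine Fin.lastCases ?_ (fun b => ?_) a
  · rw [Sub_inc_last]
    exact h.symm
  · rw [Sub_inc_cast]

private theorem Sub_le [Finite T] (L : T' → W → Finset (T × W)) (Γ : Subgroup W) [Finite (W ⧸ Γ)] : ∀ {n : ℕ}
    (μ : Γ →* Matrix (Fin n) (Fin n) K) (_ : UTri μ) (χ : Fin n → Γ →* Kˣ)
    (_ : ∀ a g, μ g a a = (χ a g : K)), zL L Γ (mrep μ) ≤ ∑ a, zL L Γ (ch (χ a))
  | 0, μ, _, χ, _ => by
    have h1 : ZL L Γ (mrep μ) = ⊥ := (Submodule.eq_bot_iff _).2 fun c _ => by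
      funext t w a
      exact a.elim0
    have h2 : zL L Γ (mrep μ) = 0 := by
      unfold zL
      rw [h1, finrank_bot]
    rw [h2]
    exact Nat.zero_le _
  | n + 1, μ, hU, χ, hχ => by
    have ih := Sub_le L Γ (Sub_blk μ hU) (Sub_blk_tri μ hU) (fun a => χ a.castSucc)
      fun a g => hχ a.castSucc g
    have h1 := zL_ext (K := K) L Γ (Sub_lst K n) (Sub_lst_eq μ hU (χ (Fin.last n)) (hχ (Fin.last n)))
      (Sub_inc K n) (Sub_inc_inj n) (Sub_inc_eq μ hU) (Sub_exact n)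
    rw [Fin.sum_univ_castSucc]
    omega

private theorem Sub_lift [Finite T] (L : T' → W → Finset (T × W)) (Γ : Subgroup W) [Finite (W ⧸ Γ)] {n : ℕ}
    (μ : Γ →* Matrix (Fin (n + 1)) (Fin (n + 1)) K) (hU : UTri μ) (χ : Fin (n + 1) → Γ →* Kˣ)
    (hχ : ∀ a g, μ g a a = (χ a g : K)) (heq : ∑ a, zL L Γ (ch (χ a)) ≤ zL L Γ (mrep μ))
    (c₀ : T → W → K) (hc₀ : c₀ ∈ ZL L Γ (ch (χ (Fin.last n)))) :
    ∃ c ∈ ZL L Γ (mrep μ), ∀ t w, c t w (Fin.last n) = c₀ t w := by
  have ih := Sub_le L Γ (Sub_blk μ hU) (Sub_blk_tri μ hU) (fun a => χ a.castSucc)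
    fun a g => hχ a.castSucc g
  rw [Fin.sum_univ_castSucc] at heq
  exact lift_ext (K := K) L Γ (Sub_lst K n) (Sub_lst_eq μ hU (χ (Fin.last n)) (hχ (Fin.last n)))
    (Sub_inc K n) (Sub_inc_inj n) (Sub_inc_eq μ hU) (Sub_exact n) (by omega) hc₀

variable {n : ℕ}

/-- **Subadditivity for triangular matrix representations.** -/
theorem zL_le [Finite T] (L : T' → W → Finset (T × W)) {Γ : Subgroup W} [Γ.FiniteIndex]
    (μ : Γ →* Matrix (Fin n) (Fin n) K) (hμ : UTri μ) (lam : Fin n → Γ →* Kˣ)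
    (hlam : ∀ g a, μ g a a = lam a g) :
    zL L Γ (mrep μ) ≤ ∑ a, zL L Γ (ch (lam a)) := Sub_le L Γ μ hμ lam fun a g => hlam g a

/-- **Equality implies that the last coordinate is surjective.** -/
theorem lift_of_eq [Finite T] (L : T' → W → Finset (T × W)) {Γ : Subgroup W} [Γ.FiniteIndex]
    (μ : Γ →* Matrix (Fin (n + 1)) (Fin (n + 1)) K) (hμ : UTri μ) (lam : Fin (n + 1) → Γ →* Kˣ)
    (hlam : ∀ g a, μ g a a = lam a g)
    (heq : zL L Γ (mrep μ) = ∑ a, zL L Γ (ch (lam a)))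
    (c₀ : T → W → K) (hc₀ : c₀ ∈ ZL L Γ (ch (lam (Fin.last n)))) :
    ∃ c ∈ ZL L Γ (mrep μ), ∀ t w, c t w (Fin.last n) = c₀ t w :=
  Sub_lift L Γ μ hμ lam (fun a g => hlam g a) heq.ge c₀ hc₀

/-- the module with the same matrices in another basis -/
theorem zL_equiv (L : T' → W → Finset (T × W)) {Γ : Subgroup W}
    {N N' : Type} [AddCommGroup N] [Module K N] [AddCommGroup N'] [Module K N'] (ρ : Γ →* Module.End K N)
    (ρ' : Γ →* Module.End K N') (e : N ≃ₗ[K] N') (he : ∀ g x, e (ρ g x) = ρ' g (e x)) :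
    zL L Γ ρ = zL L Γ ρ' := by
  have he' : ∀ g x, e.symm (ρ' g x) = ρ g (e.symm x) := by
    intro g x
    apply e.injective
    rw [e.apply_symm_apply, he, e.apply_symm_apply]
  let f : ZL L Γ ρ →ₗ[K] ZL L Γ ρ' := ((cmp K T W (e : N →ₗ[K] N')).domRestrict (ZL L Γ ρ)).codRestrict
    (ZL L Γ ρ') fun c => cmp_mem (e : N →ₗ[K] N') he c.2
  let g : ZL L Γ ρ' →ₗ[K] ZL L Γ ρ := ((cmp K T W (e.symm : N' →ₗ[K] N)).domRestrict (ZL L Γ ρ')).codRestrict
    (ZL L Γ ρ) fun c => cmp_mem (e.symm : N' →ₗ[K] N) he' c.2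
  have h1 : f.comp g = LinearMap.id := by
    apply LinearMap.ext
    intro c
    apply Subtype.ext
    funext t w
    exact e.apply_symm_apply (c.1 t w)
  have h2 : g.comp f = LinearMap.id := by
    apply LinearMap.ext
    intro c
    apply Subtype.ext
    funext t w
    exact e.symm_apply_apply (c.1 t w)
  exact (LinearEquiv.ofLinearMap f g h1 h2).finrank_eq

/-- conjugation by a diagonal matrix -/
theorem zL_conj [Finite T] (L : T' → W → Finset (T × W)) {Γ : Subgroup W} [Γ.FiniteIndex]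
    (μ μ' : Γ →* Matrix (Fin n) (Fin n) K) (u : Fin n → K) (hu : ∀ a, u a ≠ 0)
    (h : ∀ g a b, μ' g a b * u b = u a * μ g a b) : zL L Γ (mrep μ') = zL L Γ (mrep μ) := by
  refine (zL_equiv L (mrep μ) (mrep μ')
    (LinearEquiv.piCongrRight fun a => LinearEquiv.smulOfNeZero K K (u a) (hu a)) fun g x => ?_).symm
  funext a
  rw [LinearEquiv.piCongrRight_apply, mrep_apply, mrep_apply, LinearEquiv.smulOfNeZero_apply, smul_eq_mul,
    Matrix.mulVec, dotProduct, Matrix.mulVec, dotProduct, Finset.mul_sum]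
  refine Finset.sum_congr rfl fun b _ => ?_
  rw [LinearEquiv.piCongrRight_apply, LinearEquiv.smulOfNeZero_apply, smul_eq_mul, ← mul_assoc, ← mul_assoc, h]

end Tri

end Pool.Agent.S10.EA

end

section

/-!
# Project S10, block E: transfer to a normal subgroup with a quotient which is a finite 2-group
-/

set_option autoImplicit false
set_option linter.unusedSectionVars false

open Finset

namespace Pool.Agent.S10.EA

variable {W : Type} [Group W] {T T' : Type}

variable {L : T' → W → Finset (T × W)} {Γ Γ' : Subgroup W} {Y : Type} [AddCommGroup Y] [Module (ZMod 2) Y]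

/-- the coordinates of the invariant chains with coefficients in `Y` -/
noncomputable def coordE {d : ℕ} (b : Module.Basis (Fin d) (ZMod 2) Y) (L : T' → W → Finset (T × W)) (M : Subgroup W) :
    ZL L M (1 : M →* Module.End (ZMod 2) Y) ≃ₗ[ZMod 2]
      (Fin d → ZL L M (1 : M →* Module.End (ZMod 2) (ZMod 2))) where
  toFun c i := ⟨fun t w => b.equivFun (c.1 t w) i, by
    refine mem_ZL.2 ⟨fun t g w => ?_, fun t' w => ?_⟩
    · rw [(mem_ZL.1 c.2).1]
      rfl
    · have h := congrArg (fun y => b.equivFun y i) ((mem_ZL.1 c.2).2 t' w)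
      simp only [map_sum, Finset.sum_apply, map_zero, Pi.zero_apply] at h
      exact h⟩
  map_add' c c' := by
    funext i
    refine Subtype.ext ?_
    funext t w
    change b.equivFun (c.1 t w + c'.1 t w) i = _
    rw [map_add]
    rfl
  map_smul' a c := by
    funext i
    refine Subtype.ext ?_
    funext t w
    change b.equivFun (a • c.1 t w) i = _
    rw [map_smul]
    rfl
  invFun c := ⟨fun t w => b.equivFun.symm fun i => (c i).1 t w, by
    refine mem_ZL.2 ⟨fun t g w => ?_, fun t' w => ?_⟩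
    · change _ = b.equivFun.symm fun i => (c i).1 t w
      congr 1
      funext i
      exact (mem_ZL.1 (c i).2).1 t g w
    · rw [← map_sum]
      have h : (∑ x ∈ L t' w, fun i => (c i).1 x.1 (w * x.2)) = (0 : Fin d → ZMod 2) := by
        funext i
        rw [Finset.sum_apply]
        exact (mem_ZL.1 (c i).2).2 t' w
      rw [h, map_zero]⟩
  left_inv c := by
    refine Subtype.ext ?_
    funext t w
    exact b.equivFun.symm_apply_apply (c.1 t w)
  right_inv c := by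
    funext i
    refine Subtype.ext ?_
    funext t w
    change b.equivFun (b.equivFun.symm fun i => (c i).1 t w) i = _
    rw [LinearEquiv.apply_symm_apply]

/-- the action on the chains which are invariant under a normal subgroup -/
def actU {Φ : Subgroup W} (hL : LInv L Φ) (hΓ : Γ ≤ Φ)
    (hn : ∀ g ∈ Γ, ∀ h ∈ Γ', g⁻¹ * h * g ∈ Γ') (ρ : Γ →* Module.End (ZMod 2) Y) :
    Γ →* Module.End (ZMod 2) (ZL L Γ' (1 : Γ' →* Module.End (ZMod 2) Y)) where
  toFun g :=
    { toFun := fun c => ⟨fun t w => ρ g (c.1 t ((g : W)⁻¹ * w)), by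
        refine mem_ZL.2 ⟨fun t h w => ?_, fun t' w => ?_⟩
        · have h1 := (mem_ZL.1 c.2).1 t ⟨_, hn g g.2 h h.2⟩ ((g : W)⁻¹ * w)
          have h2 : (g : W)⁻¹ * ((h : W) * w) = (g : W)⁻¹ * h * g * ((g : W)⁻¹ * w) := by group
          change ρ g (c.1 t ((g : W)⁻¹ * ((h : W) * w))) = ρ g (c.1 t ((g : W)⁻¹ * w))
          rw [h2]
          exact congrArg _ h1
        · have h1 := (mem_ZL.1 c.2).2 t' ((g : W)⁻¹ * w)
          rw [hL _ (Φ.inv_mem (hΓ g.2))] at h1
          rw [← map_sum]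
          have h2 : ∑ x ∈ L t' w, c.1 x.1 ((g : W)⁻¹ * (w * x.2)) = 0 := by
            rw [← h1]
            refine sum_congr rfl fun x _ => ?_
            rw [mul_assoc]
          rw [h2, map_zero]⟩
      map_add' := fun c c' => by
        refine Subtype.ext ?_
        funext t w
        exact map_add (ρ g) _ _
      map_smul' := fun a c => by
        refine Subtype.ext ?_
        funext t w
        exact map_smul (ρ g) _ _ }
  map_one' := by
    refine LinearMap.ext fun c => Subtype.ext ?_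
    funext t w
    change ρ 1 (c.1 t ((1 : W)⁻¹ * w)) = c.1 t w
    rw [map_one, inv_one, one_mul]
    rfl
  map_mul' g h := by
    refine LinearMap.ext fun c => Subtype.ext ?_
    funext t w
    change ρ (g * h) (c.1 t (((g : W) * h)⁻¹ * w)) = ρ g (ρ h (c.1 t ((h : W)⁻¹ * ((g : W)⁻¹ * w))))
    rw [map_mul, mul_inv_rev, mul_assoc]
    rfl

theorem actU_apply {Φ : Subgroup W} (hL : LInv L Φ) (hΓ : Γ ≤ Φ)
    (hn : ∀ g ∈ Γ, ∀ h ∈ Γ', g⁻¹ * h * g ∈ Γ') (ρ : Γ →* Module.End (ZMod 2) Y) (g : Γ)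
    (c : ZL L Γ' (1 : Γ' →* Module.End (ZMod 2) Y)) (t : T) (w : W) :
    (actU hL hΓ hn ρ g c).1 t w = ρ g (c.1 t ((g : W)⁻¹ * w)) := rfl

/-- the fixed chains are the equivariant chains -/
theorem finrank_fix {Φ : Subgroup W} (hL : LInv L Φ) (hΓ : Γ ≤ Φ) (hle : Γ' ≤ Γ)
    (hn : ∀ g ∈ Γ, ∀ h ∈ Γ', g⁻¹ * h * g ∈ Γ') (ρ : Γ →* Module.End (ZMod 2) Y)
    (h1 : ∀ g : Γ, (g : W) ∈ Γ' → ρ g = 1) :
    Module.finrank (ZMod 2) (fixS (actU hL hΓ hn ρ)) = Module.finrank (ZMod 2) (ZL L Γ ρ) := by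
  refine LinearEquiv.finrank_eq
    { toFun := fun x => ⟨x.1.1, ?_⟩
      map_add' := fun x y => rfl
      map_smul' := fun a x => rfl
      invFun := fun c => ⟨⟨c.1, ?_⟩, ?_⟩
      left_inv := fun x => rfl
      right_inv := fun c => rfl }
  · refine mem_ZL.2 ⟨fun t g w => ?_, (mem_ZL.1 x.1.2).2⟩
    have h2 := x.2 g
    have h3 := congrFun (congrFun (congrArg Subtype.val h2) t) (g * w)
    rw [actU_apply, inv_mul_cancel_left] at h3
    exact h3.symm
  · refine mem_ZL.2 ⟨fun t g w => ?_, (mem_ZL.1 c.2).2⟩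
    have h2 := (mem_ZL.1 c.2).1 t ⟨g, hle g.2⟩ w
    rw [h1 _ g.2] at h2
    exact h2
  · intro g
    refine Subtype.ext ?_
    funext t w
    rw [actU_apply]
    have h2 := (mem_ZL.1 c.2).1 t g ((g : W)⁻¹ * w)
    rw [mul_inv_cancel_left] at h2
    exact h2.symm

/-- **Transfer to a subgroup of 2-power index**: the coefficients are a space `Y` over the field with two elements on
which `Γ'` acts trivially -/
theorem tran_quot {Φ : Subgroup W} (hL : LInv L Φ) (hΓ : Γ ≤ Φ) (hle : Γ' ≤ Γ) [hN : (Γ'.subgroupOf Γ).Normal]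
    [Finite (Γ ⧸ Γ'.subgroupOf Γ)] (h2 : IsPGroup 2 (Γ ⧸ Γ'.subgroupOf Γ)) [FiniteDimensional (ZMod 2) Y]
    (ρ : Γ →* Module.End (ZMod 2) Y) (h1 : ∀ g : Γ, (g : W) ∈ Γ' → ρ g = 1) :
    Module.finrank (ZMod 2) Y * z1 L Γ' ≤ Γ'.relIndex Γ * Module.finrank (ZMod 2) (ZL L Γ ρ) := by
  by_cases hfd : FiniteDimensional (ZMod 2) (ZL L Γ' (1 : Γ' →* Module.End (ZMod 2) (ZMod 2)))
  · have hn : ∀ g ∈ Γ, ∀ h ∈ Γ', g⁻¹ * h * g ∈ Γ' := by
      intro g hg h hh
      have h3 := hN.conj_mem ⟨h, hle hh⟩ (Subgroup.mem_subgroupOf.2 hh) ⟨g⁻¹, Γ.inv_mem hg⟩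
      rw [Subgroup.mem_subgroupOf] at h3
      have h4 : g⁻¹ * h * g⁻¹⁻¹ ∈ Γ' := h3
      rw [inv_inv] at h4
      exact h4
    let b := Module.finBasis (ZMod 2) Y
    have e := coordE b L Γ'
    haveI : FiniteDimensional (ZMod 2) (ZL L Γ' (1 : Γ' →* Module.End (ZMod 2) Y)) :=
      LinearEquiv.finiteDimensional e.symm
    have h3 : Module.finrank (ZMod 2) (ZL L Γ' (1 : Γ' →* Module.End (ZMod 2) Y)) =
        Module.finrank (ZMod 2) Y * z1 L Γ' := by
      rw [e.finrank_eq, Module.finrank_pi_fintype, sum_const, card_univ, Fintype.card_fin, smul_eq_mul]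
      rfl
    rw [← h3, ← finrank_fix hL hΓ hle hn ρ h1]
    refine two_fix_quot (Γ'.subgroupOf Γ) h2 (actU hL hΓ hn ρ) fun g hg => ?_
    rw [Subgroup.mem_subgroupOf] at hg
    refine LinearMap.ext fun c => Subtype.ext ?_
    funext t w
    rw [actU_apply, h1 g hg]
    have h4 := (mem_ZL.1 c.2).1 t ⟨(g : W)⁻¹, Γ'.inv_mem hg⟩ w
    exact h4
  · have h3 : z1 L Γ' = 0 := Module.finrank_of_infinite_dimensional hfd
    rw [h3, mul_zero]
    exact Nat.zero_le _

/-- the same for the trivial coefficients -/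
theorem tran_one {Φ : Subgroup W} (hL : LInv L Φ) (hΓ : Γ ≤ Φ) (hle : Γ' ≤ Γ) [hN : (Γ'.subgroupOf Γ).Normal]
    [Finite (Γ ⧸ Γ'.subgroupOf Γ)] (h2 : IsPGroup 2 (Γ ⧸ Γ'.subgroupOf Γ)) :
    z1 L Γ' ≤ Γ'.relIndex Γ * z1 L Γ := by
  have h3 := tran_quot hL hΓ hle h2 (1 : Γ →* Module.End (ZMod 2) (ZMod 2)) fun g _ => rfl
  rw [Module.finrank_self, one_mul] at h3
  exact h3

/-- **Transfer for two-groups** -/
theorem tran {L : T' → W → Finset (T × W)} {Γ M : Subgroup W} (hL : LInv L Γ) (hM : M ≤ Γ) [M.FiniteIndex]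
    (hn : (M.subgroupOf Γ).Normal) (h2 : ∀ x ∈ Γ, ∃ k : ℕ, x ^ 2 ^ k ∈ M) {Y : Type} [AddCommGroup Y]
    [Module (ZMod 2) Y] [Module.Finite (ZMod 2) Y] (ρ : Γ →* Module.End (ZMod 2) Y)
    (hρ : ∀ x (h : x ∈ Γ), x ∈ M → ρ ⟨x, h⟩ = 1) :
    Module.finrank (ZMod 2) Y * z1 L M ≤ M.relIndex Γ * Module.finrank (ZMod 2) (ZL L Γ ρ) := by
  refine tran_quot hL le_rfl hM (fun q => ?_) ρ fun g hg => hρ g g.2 hg
  obtain ⟨g, rfl⟩ := QuotientGroup.mk_surjective q
  obtain ⟨k, hk⟩ := h2 g g.2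
  refine ⟨k, ?_⟩
  rw [← QuotientGroup.mk_pow, QuotientGroup.eq_one_iff, Subgroup.mem_subgroupOf]
  exact hk

end Pool.Agent.S10.EA

end

section

/-!
# S9, M block: the comparison of the sum over the cubes and of the sum over the top simplices
-/

set_option autoImplicit false
set_option linter.unusedSectionVars false

open Finset Pointwise

namespace Pool.Agent.S9.M

open Pool.Agent.H19.Cub Pool.Agent.H77.SX Pool.Agent.H37.TM Pool.Agent.H37.MA

variable {V X U Γ K : Type} [DecidableEq V] [DecidableEq U] [Group Γ] [MulAction Γ U]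
  {Q : CubeComplex V X} {x₀ : X} [MulAction Γ (Q.Cover x₀)] {bit : X → V → ZMod 2}
  [Field K] [Algebra (ZMod 2) K] {M B : Set (Finset U)} {n : ℕ} {ht : U → ℕ}

/-- `X` is a cocycle on the tuples and `z` a function of the cubes, their translates have inverse factors -/
structure Wt (Γ : Type) [Group Γ] (Q : CubeComplex V X) (x₀ : X) [MulAction Γ (Q.Cover x₀)]
    (c : Γ → K) (W : List (Q.Cover x₀) → K) (z : Q.Cover x₀ × Finset V → K) : Prop where
  cyc : ∀ x : List (Q.Cover x₀) →₀ ZMod 2, lin W (BL x) = 0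
  smul : ∀ (γ : Γ) (L : List (Q.Cover x₀)), W (L.map (γ • ·)) * c γ ^ 2 = W L
  z_smul : ∀ (γ : Γ) (e : Q.Cover x₀ × Finset V), z (γ • e) = c γ * z e

theorem Wt.lin_smul {c : Γ → K} {W : List (Q.Cover x₀) → K} {z : Q.Cover x₀ × Finset V → K}
    (hW : Wt Γ Q x₀ c W z) (γ : Γ) (x : List (Q.Cover x₀) →₀ ZMod 2) :
    lin W (x.mapDomain (List.map (γ • ·))) * c γ ^ 2 = lin W x := by
  rw [lin_map]
  have h1 : lin W x = lin (fun L => c γ ^ 2 * W (L.map (γ • ·))) x := by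
    congr 1
    exact congrArg lin (funext fun L => by rw [mul_comm, hW.smul])
  rw [h1, mul_comm]
  unfold lin
  rw [Finsupp.linearCombination_apply, Finsupp.linearCombination_apply, Finsupp.mul_sum]
  exact Finsupp.sum_congr fun a _ => mul_smul_comm _ _ _

/-- **The comparison.** -/
theorem cmpb [Fintype V] [Fintype X] [CharP K 2] {d : ℕ} (hbit : IsBit Q bit)
    (hΓ : IsDeck Γ Q x₀) {c : Γ → K} {W : List (Q.Cover x₀) → K}
    {z : Q.Cover x₀ × Finset V → K} (hz : Cyc Q x₀ (d + 1) z) (hW : Wt Γ Q x₀ c W z)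
    {F H : Q.Cover x₀ × Finset V → (List (Q.Cover x₀) →₀ ZMod 2)}
    (hH : ∀ i, ∀ γ : Γ, ∀ e ∈ Cell Q x₀ bit i,
      H (γ • e) = (H e).mapDomain (List.map (γ • ·)))
    (hF : ∀ i, ∀ e ∈ Cell Q x₀ bit i, BL (H e) = F e + lin H (bdD Q x₀ e)) :
    osum Γ (fun e : Q.Cover x₀ × Finset V => open Classical in
      if e ∈ Cell Q x₀ bit (d + 1) then lin W (F e) * z e ^ 2 else 0) = 0 := by
  classical
  -- the value at `F e`
  have hbe : ∀ e ∈ Cell Q x₀ bit (d + 1), lin W (F e) =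
      ∑ b ∈ (bdD Q x₀ e).support, bdD Q x₀ e b • lin W (H b) := by
    intro e he
    rw [← fun_lin]
    have h1 : lin W (BL (H e)) = 0 := hW.cyc _
    rw [hF _ e he, map_add] at h1
    have h2 := add_self_K (lin W (lin H (bdD Q x₀ e)))
    have h3 : lin W (F e) + lin W (lin H (bdD Q x₀ e)) = 0 := h1
    have h4 := h3.trans h2.symm
    exact add_right_cancel h4
  set k : Q.Cover x₀ × Finset V → Q.Cover x₀ × Finset V → K := fun e b =>
    if e ∈ Cell Q x₀ bit (d + 1) then bdD Q x₀ e b • (lin W (H b) * z e ^ 2) else 0 with hk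
  have hk0 : ∀ e b, k e b ≠ 0 → e ∈ Cell Q x₀ bit (d + 1) ∧ bdD Q x₀ e b ≠ 0 := by
    intro e b h
    by_cases he : e ∈ Cell Q x₀ bit (d + 1)
    · refine ⟨he, fun h0 => h ?_⟩
      simp only [hk, if_pos he, h0, zero_smul]
    · exact absurd (by simp only [hk, if_neg he]) h
  have hrow : ∀ e, (if e ∈ Cell Q x₀ bit (d + 1) then lin W (F e) * z e ^ 2 else 0) =
      ∑ᶠ b, k e b := by
    intro e
    rw [finsum_eq_sum_of_support_subset (s := (bdD Q x₀ e).support) (k e) (fun b hb => by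
      rw [mem_coe, Finsupp.mem_support_iff]
      exact (hk0 e b hb).2)]
    by_cases he : e ∈ Cell Q x₀ bit (d + 1)
    · simp only [hk, if_pos he]
      rw [hbe e he, sum_mul]
      exact sum_congr rfl fun b _ => smul_mul_assoc _ _ _
    · simp only [hk, if_neg he, sum_const_zero]
  have hinv : ∀ (γ : Γ) e b, k (γ • e) (γ • b) = k e b := by
    intro γ e b
    by_cases he : e ∈ Cell Q x₀ bit (d + 1)
    · have he' : γ • e ∈ Cell Q x₀ bit (d + 1) := (cell_smul hΓ γ e).2 he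
      simp only [hk, if_pos he, if_pos he']
      rw [bdD_smul_apply hΓ he]
      by_cases hb : bdD Q x₀ e b = 0
      · rw [hb, zero_smul, zero_smul]
      · have hb' := bdD_cell hbit he b hb
        congr 1
        rw [hH d γ b hb', hW.z_smul, ← hW.lin_smul γ (H b)]
        ring
    · have he' : γ • e ∉ Cell Q x₀ bit (d + 1) := fun h => he ((cell_smul hΓ γ e).1 h)
      simp only [hk, if_neg he, if_neg he']
  have h1 : osum Γ (fun e => ∑ᶠ b, k e b) = osum Γ fun b => ∑ᶠ e, k e b := by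
    refine osum_comm k hinv (fun e b _ γ h => cu_free hΓ e γ h) (fun e b _ γ h => cu_free hΓ b γ h)
      (fun e => ?_) ?_
    · exact (bdD Q x₀ e).support.finite_toSet.subset fun b hb => by
        rw [mem_coe, Finsupp.mem_support_iff]
        exact (hk0 e b hb).2
    · obtain ⟨S, hS⟩ := cu_fin (Q := Q) (x₀ := x₀) hΓ
      exact ⟨S, fun e _ _ => hS e⟩
  have h2 : (fun e : Q.Cover x₀ × Finset V =>
      if e ∈ Cell Q x₀ bit (d + 1) then lin W (F e) * z e ^ 2 else 0) = fun e => ∑ᶠ b, k e b :=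
    funext hrow
  rw [h2, h1]
  -- the columns
  have hcol : ∀ b, ∑ᶠ e, k e b = 0 := by
    intro b
    by_cases hb : b ∈ Cell Q x₀ bit d
    · obtain ⟨hf1, hf2⟩ := sum_cofaces hbit (fun e => z e ^ 2) hz.sq.valid hz.sq.nb hz.sq.bd b hb
      have h4 : ∀ e, k e b = lin W (H b) *
          (if e ∈ Cell Q x₀ bit (d + 1) then bdD Q x₀ e b • (z e ^ 2) else 0) := by
        intro e
        by_cases he : e ∈ Cell Q x₀ bit (d + 1)
        · simp only [hk, if_pos he]
          exact (mul_smul_comm _ _ _).symm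
        · simp only [hk, if_neg he, mul_zero]
      rw [finsum_congr h4, ← mul_finsum, hf2, mul_zero]
    · refine finsum_eq_zero_of_forall_eq_zero fun e => ?_
      by_contra h
      exact hb (bdD_cell hbit (hk0 e b h).1 b (hk0 e b h).2)
  simp only [hcol]
  unfold osum
  exact finsum_zero

open Classical in
/-- the kernel of the double sum -/
noncomputable def srb (Q : CubeComplex V X) (x₀ : X) (bit : X → V → ZMod 2) (d n : ℕ)
    (M : Set (Finset U)) (ht : U → ℕ)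
    (Ψ : Q.Cover x₀ × Finset V → (Finset U × Finset U →₀ ZMod 2)) (f : U → Q.Cover x₀)
    (z : Q.Cover x₀ × Finset V → K) (W : List (Q.Cover x₀) → K) (e : Q.Cover x₀ × Finset V)
    (T : Finset U) : K :=
  if e ∈ Cell Q x₀ bit d ∧ T ∈ M ∧ T.card = n + 1 then
    W ((frontL ht T d).map f) * (al (Ψ e) (T.filter fun u => d ≤ ht u) • z e ^ 2)
  else 0

theorem srb_smul [Fintype V] [Fintype X] {d : ℕ}
    (hΓ : IsDeck Γ Q x₀) (hM : Psm M B n) (hA : MAct Γ M B n ht)
    {Ψ : Q.Cover x₀ × Finset V → (Finset U × Finset U →₀ ZMod 2)}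
    (hΨ : IsPsi Γ Q x₀ bit M B n Ψ) {f : U → Q.Cover x₀} (hf : IsVMap Γ f)
    {c : Γ → K} {W : List (Q.Cover x₀) → K} {z : Q.Cover x₀ × Finset V → K}
    (hW : Wt Γ Q x₀ c W z) (γ : Γ) (e : Q.Cover x₀ × Finset V) (T : Finset U) :
    srb Q x₀ bit d n M ht Ψ f z W (γ • e) (γ • T) = srb Q x₀ bit d n M ht Ψ f z W e T := by
  classical
  have hTM : γ • T ∈ M ↔ T ∈ M :=
    ⟨fun h => by simpa using hA.K_mem γ⁻¹ _ h, fun h => hA.K_mem γ T h⟩
  unfold srb
  rw [cell_smul hΓ, hTM, card_smul_finset]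
  split_ifs with h
  · obtain ⟨he, hT, hc⟩ := h
    rw [filter_smul' hA.ht_smul, (al_fin (d := d) hΓ hM hA hΨ).2.2.2 γ e he,
      frontL_smul hA.ht_smul γ (hA.ht_inj T hT)]
    have hm : ((frontL ht T d).map (γ • ·)).map f = ((frontL ht T d).map f).map (γ • ·) := by
      rw [List.map_map, List.map_map]
      exact List.map_congr_left fun u _ => hf γ u
    rw [hm, hW.z_smul, ← hW.smul γ ((frontL ht T d).map f), mul_pow, mul_smul_comm, mul_smul_comm]
    congr 1
    ring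
  · rfl

theorem srb_row {d : ℕ}
    {Ψ : Q.Cover x₀ × Finset V → (Finset U × Finset U →₀ ZMod 2)} (f : U → Q.Cover x₀)
    (z : Q.Cover x₀ × Finset V → K) (W : List (Q.Cover x₀) → K) (e : Q.Cover x₀ × Finset V)
    (T : Finset U) (h : srb Q x₀ bit d n M ht Ψ f z W e T ≠ 0) :
    e ∈ Cell Q x₀ bit d ∧ T ∈ M ∧ T.card = n + 1 ∧
      al (Ψ e) (T.filter fun u => d ≤ ht u) ≠ 0 := by
  classical
  unfold srb at h
  by_cases h1 : e ∈ Cell Q x₀ bit d ∧ T ∈ M ∧ T.card = n + 1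
  · refine ⟨h1.1, h1.2.1, h1.2.2, fun h2 => ?_⟩
    rw [if_pos h1] at h
    refine h ?_
    rw [h2, zero_smul, mul_zero]
  · exact absurd (if_neg h1) h

/-- the sum over the rows -/
theorem srb_sum [Fintype V] [Fintype X] {d : ℕ}
    (hΓ : IsDeck Γ Q x₀) (hM : Psm M B n) (hA : MAct Γ M B n ht)
    {Ψ : Q.Cover x₀ × Finset V → (Finset U × Finset U →₀ ZMod 2)}
    (hΨ : IsPsi Γ Q x₀ bit M B n Ψ) (f : U → Q.Cover x₀)
    (z : Q.Cover x₀ × Finset V → K) (W : List (Q.Cover x₀) → K) (hd : d ≤ n + 1)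
    {e : Q.Cover x₀ × Finset V} (he : e ∈ Cell Q x₀ bit d) :
    lin W (Phi M n ht f (Ψ e)) * z e ^ 2 =
      ∑ᶠ T, srb Q x₀ bit d n M ht Ψ f z W e T := by
  classical
  obtain ⟨hf1, -, -, -⟩ := al_fin (d := d) hΓ hM hA hΨ
  set S : Finset (Finset U) := (Ψ e).support.image Prod.snd with hS
  have hSmem : ∀ e', Ψ e e' ≠ 0 → e'.2 ∈ S := fun e' h =>
    mem_image.2 ⟨e', Finsupp.mem_support_iff.2 h, rfl⟩
  have hSal : ∀ τ, al (Ψ e) τ ≠ 0 → τ ∈ S := fun τ h => by
    obtain ⟨v, _, h1⟩ := exists_ne_zero_of_sum_ne_zero h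
    exact hSmem _ h1
  set C : Finset U → Finset (Finset U) := fun τ =>
    if (∀ u ∈ τ, d ≤ ht u) ∧ τ ∈ M ∧ τ.card + d = n + 1 then cofs M τ (n + 1) else ∅ with hC
  have hCmem : ∀ τ T, T ∈ C τ ↔ (∀ u ∈ τ, d ≤ ht u) ∧ τ ∈ M ∧ τ.card + d = n + 1 ∧ T ∈ M ∧
      τ ⊆ T ∧ T.card = n + 1 := by
    intro τ T
    rw [hC]
    dsimp only
    split_ifs with h
    · rw [mem_cofsP hM h.2.1]
      tauto
    · simp only [notMem_empty, false_iff]
      tauto
  have hCseg : ∀ τ T, T ∈ C τ → (T.filter fun u => d ≤ ht u) = τ := by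
    intro τ T hT
    obtain ⟨h1, h2, h3, h4, h5, h6⟩ := (hCmem τ T).1 hT
    have h7 := top_seg hA h4 h6 hd
    refine (eq_of_subset_of_card_le (fun u hu => mem_filter.2 ⟨h5 hu, h1 u hu⟩) ?_).symm
    omega
  have hsum : ∑ᶠ T, srb Q x₀ bit d n M ht Ψ f z W e T =
      ∑ τ ∈ S, ∑ T ∈ C τ, srb Q x₀ bit d n M ht Ψ f z W e T := by
    rw [← sum_biUnion (fun τ _ τ' _ hne => disjoint_left.2 fun T hT hT' =>
      hne ((hCseg τ T hT).symm.trans (hCseg τ' T hT')))]
    refine finsum_eq_sum_of_support_subset _ fun T hT => ?_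
    obtain ⟨_, h2, h3, h4⟩ := srb_row f z W e T hT
    obtain ⟨h5, _, h6⟩ := hf1 e he _ h4
    exact mem_coe.2 (mem_biUnion.2 ⟨_, hSal _ h4, (hCmem _ _).2
      ⟨fun u hu => (mem_filter.1 hu).2, h5, h6, h2, filter_subset _ _, h3⟩⟩)
  have hbe : lin W (Phi M n ht f (Ψ e)) =
      ∑ τ ∈ S, al (Ψ e) τ • lin ((fun m => W (m.map f))) (lamT M n ht τ) := by
    unfold Phi
    rw [lin_map, ← lam_eval (hΨ.mem d e he) _ hSmem]
  rw [hsum, hbe, sum_mul]
  refine sum_congr rfl fun τ _ => ?_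
  by_cases h0 : al (Ψ e) τ = 0
  · rw [h0, zero_smul, zero_mul]
    refine (sum_eq_zero fun T hT => ?_).symm
    by_contra h1
    have h2 := (srb_row f z W e T h1).2.2.2
    rw [hCseg τ T hT] at h2
    exact h2 h0
  · obtain ⟨h1, _, h2⟩ := hf1 e he τ h0
    have h3 : ∀ T ∈ C τ, srb Q x₀ bit d n M ht Ψ f z W e T =
        W ((frontL ht T d).map f) * (al (Ψ e) τ • z e ^ 2) := by
      intro T hT
      obtain ⟨_, _, _, h4, _, h5⟩ := (hCmem τ T).1 hT
      unfold srb
      rw [if_pos ⟨he, h4, h5⟩, hCseg τ T hT]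
    rw [sum_congr rfl h3, ← sum_mul, lamT_eval h2]
    by_cases h4 : ∀ u ∈ τ, d ≤ ht u
    · have h5 : C τ = cofs M τ (n + 1) := by
        rw [hC]
        exact if_pos ⟨h4, h1, h2⟩
      rw [if_pos h4, h5, smul_mul_assoc, mul_smul_comm]
    · have h5 : C τ = ∅ := by
        rw [hC]
        exact if_neg fun h => h4 h.1
      rw [if_neg h4, h5, sum_empty, smul_zero, zero_mul, zero_mul]

/-- The right side. -/
theorem rightb [Fintype V] [Fintype X] [CharP K 2] {d : ℕ} (hΓ : IsDeck Γ Q x₀) (hM : Psm M B n)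
    (hA : MAct Γ M B n ht) {Ψ : Q.Cover x₀ × Finset V → (Finset U × Finset U →₀ ZMod 2)}
    (hΨ : IsPsi Γ Q x₀ bit M B n Ψ) {f : U → Q.Cover x₀} (hf : IsVMap Γ f)
    {c : Γ → K} {W : List (Q.Cover x₀) → K} {z : Q.Cover x₀ × Finset V → K}
    (hW : Wt Γ Q x₀ c W z) (hd : d ≤ n + 1) :
    osum Γ (fun e : Q.Cover x₀ × Finset V => open Classical in
      if e ∈ Cell Q x₀ bit d then lin W (Phi M n ht f (Ψ e)) * z e ^ 2 else 0) =
    osum Γ (fun τ : Finset U => open Classical in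
      if τ ∈ M ∧ τ.card = n + 1 then
        W ((frontL ht τ d).map f) * aab Q x₀ bit d Ψ z (τ.filter fun u => d ≤ ht u) ^ 2
      else 0) := by
  classical
  obtain ⟨hf1, -, hf3, -⟩ := al_fin (d := d) hΓ hM hA hΨ
  have h1 : (fun e : Q.Cover x₀ × Finset V =>
      if e ∈ Cell Q x₀ bit d then lin W (Phi M n ht f (Ψ e)) * z e ^ 2 else 0) =
      fun e => ∑ᶠ T, srb Q x₀ bit d n M ht Ψ f z W e T := by
    funext e
    by_cases he : e ∈ Cell Q x₀ bit d
    · rw [if_pos he, srb_sum hΓ hM hA hΨ f z W hd he]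
    · rw [if_neg he]
      refine (finsum_eq_zero_of_forall_eq_zero fun T => ?_).symm
      by_contra h
      exact he (srb_row f z W e T h).1
  have h2 : (fun τ : Finset U => if τ ∈ M ∧ τ.card = n + 1 then
        W ((frontL ht τ d).map f) * aab Q x₀ bit d Ψ z (τ.filter fun u => d ≤ ht u) ^ 2
      else 0) = fun T => ∑ᶠ e, srb Q x₀ bit d n M ht Ψ f z W e T := by
    funext T
    by_cases hT : T ∈ M ∧ T.card = n + 1
    · rw [if_pos hT]
      set τ := T.filter fun u => d ≤ ht u with hτ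
      set E := (hf3 τ).toFinset with hE
      have hEm : ∀ e, e ∈ E ↔ e ∈ Cell Q x₀ bit d ∧ al (Ψ e) τ ≠ 0 := fun e => by
        rw [hE, Set.Finite.mem_toFinset]
        rfl
      have h3 : ∑ᶠ e, srb Q x₀ bit d n M ht Ψ f z W e T =
          ∑ e ∈ E, srb Q x₀ bit d n M ht Ψ f z W e T := by
        refine finsum_eq_sum_of_support_subset _ fun e he => ?_
        obtain ⟨h4, _, _, h5⟩ := srb_row f z W e T he
        exact mem_coe.2 ((hEm e).2 ⟨h4, h5⟩)
      have h4 : ∀ e ∈ E, srb Q x₀ bit d n M ht Ψ f z W e T =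
          W ((frontL ht T d).map f) * (al (Ψ e) τ • z e ^ 2) := fun e he => by
        unfold srb
        rw [if_pos ⟨((hEm e).1 he).1, hT⟩]
      rw [h3, sum_congr rfl h4, aab_eq z hEm, sq_sum_two, mul_sum]
    · rw [if_neg hT]
      refine (finsum_eq_zero_of_forall_eq_zero fun e => ?_).symm
      by_contra h
      obtain ⟨_, h4, h5, _⟩ := srb_row f z W e T h
      exact hT ⟨h4, h5⟩
  have h3 := osum_comm (Γ := Γ) (fun (e : Q.Cover x₀ × Finset V) (T : Finset U) =>
    srb Q x₀ bit d n M ht Ψ f z W e T)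
    (fun γ e T => srb_smul hΓ hM hA hΨ hf hW γ e T)
    (fun e T _ γ hγ => cu_free hΓ e γ hγ)
    (fun e T h γ hγ => hA.free γ T (srb_row f z W e T h).2.1 hγ)
    (fun e => by
      refine (Set.Finite.biUnion ((Ψ e).support.image Prod.snd).finite_toSet
        (t := fun τ => {T | τ ∈ M ∧ T ∈ M ∧ τ ⊆ T}) fun τ _ => ?_).subset fun T hT => ?_
      · by_cases h5 : τ ∈ M
        · exact (hM.locfin τ h5).subset fun T hT => ⟨hT.2.1, hT.2.2⟩
        · exact Set.finite_empty.subset fun T hT => h5 hT.1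
      · obtain ⟨h5, h6, _, h7⟩ := srb_row f z W e T hT
        obtain ⟨v, _, h8⟩ := exists_ne_zero_of_sum_ne_zero h7
        exact Set.mem_biUnion (mem_coe.2 (mem_image.2 ⟨_, Finsupp.mem_support_iff.2 h8, rfl⟩))
          ⟨(hf1 e h5 _ h7).1, h6, filter_subset _ _⟩)
    (by
      obtain ⟨F, hF⟩ := cu_fin (Γ := Γ) (Q := Q) (x₀ := x₀) hΓ
      exact ⟨F, fun e _ _ => hF e⟩)
  rw [h1, h2]
  exact h3

/-- The sum over the cubes is the sum over the top simplices. -/
theorem topb [Fintype V] [Fintype X] [CharP K 2] {d : ℕ} (hbit : IsBit Q bit)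
    (hΓ : IsDeck Γ Q x₀) (hM : Psm M B n)
    (hA : MAct Γ M B n ht) {f : U → Q.Cover x₀} (hf : IsVMap Γ f)
    {Ψ : Q.Cover x₀ × Finset V → (Finset U × Finset U →₀ ZMod 2)}
    (hΨ : IsPsi Γ Q x₀ bit M B n Ψ) {c : Γ → K} {W : List (Q.Cover x₀) → K}
    {z : Q.Cover x₀ × Finset V → K} (hz : Cyc Q x₀ (d + 1) z) (hW : Wt Γ Q x₀ c W z)
    (hd : d + 1 ≤ n + 1) :
    osum Γ (fun e : Q.Cover x₀ × Finset V => open Classical in
      if e ∈ Cell Q x₀ bit (d + 1) then lin W (TT Q x₀ e) * z e ^ 2 else 0) =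
    osum Γ (fun τ : Finset U => open Classical in
      if τ ∈ M ∧ τ.card = n + 1 then
        W ((frontL ht τ (d + 1)).map f) *
          aab Q x₀ bit (d + 1) Ψ z (τ.filter fun u => d + 1 ≤ ht u) ^ 2
      else 0) := by
  classical
  obtain ⟨H, hH1, hH2⟩ := exists_homotopy hbit hΓ hM hA hΨ hf
  have h1 := cmpb hbit hΓ hz hW (F := fun e => TT Q x₀ e + Phi M n ht f (Ψ e)) hH1 hH2
  obtain ⟨S, hS⟩ := cu_fin (x₀ := x₀) hΓ
  rw [← rightb hΓ hM hA hΨ hf hW hd]
  have h3 := osum_add (Γ := Γ)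
    (fun e : Q.Cover x₀ × Finset V => open Classical in
      if e ∈ Cell Q x₀ bit (d + 1) then lin W (TT Q x₀ e) * z e ^ 2 else 0)
    (fun e : Q.Cover x₀ × Finset V => open Classical in
      if e ∈ Cell Q x₀ bit (d + 1) then lin W (Phi M n ht f (Ψ e)) * z e ^ 2 else 0)
      ⟨S, fun e _ => hS e⟩ ⟨S, fun e _ => hS e⟩
  have h4 := h3.symm.trans (Eq.trans (by
    congr 1
    funext e
    by_cases hc : e ∈ Cell Q x₀ bit (d + 1)
    · rw [if_pos hc, if_pos hc, if_pos hc, map_add, add_mul]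
    · rw [if_neg hc, if_neg hc, if_neg hc, add_zero]) h1)
  have h5 := add_self_K (osum Γ (fun e : Q.Cover x₀ × Finset V => open Classical in
      if e ∈ Cell Q x₀ bit (d + 1) then lin W (Phi M n ht f (Ψ e)) * z e ^ 2 else 0))
  exact add_right_cancel (h4.trans h5.symm)

end Pool.Agent.S9.M

end
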