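import Pool.Agent.H71.TSG.H37.TM.StarC
import Pool.Agent.H71.TSG.M21
import Pool.Agent.H71.TSG.M33

/-! The parts of this file: S10.ExtQ, S10.EffQ, S9.MG3, S10.EA.DictC. -/

section

/-!
# Project S10, block M: the augmented cubical chains of the universal cover and the tuples

`rhoQ`: the action of the deck group on the augmented cubical chains `NQ`. If this complex is exact (`ExQ`), there is an
equivariant chain map `S` from the tuples to the cubes (`exists_S`) and an equivariant homotopy between the identity and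
the composition of the subdivision `TT` with `S` (`exists_Hm`).
-/

set_option autoImplicit false
set_option linter.unusedSectionVars false

open Finset

namespace Pool.Agent.S10

open Pool.Agent.H19.Cub Pool.Agent.H77.SX Pool.Agent.H37.TM

section

variable {V X Γ : Type} [DecidableEq V] [Group Γ] (Q : CubeComplex V X) (x₀ : X)
  [MulAction Γ (Q.Cover x₀)]

/-- the action on the cells of the augmented complex -/
private noncomputable def aQ (g : Γ) :
    Option (Q.Cover x₀ × Finset V) → Option (Q.Cover x₀ × Finset V) :=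
  Option.map fun e => (g • e.1, e.2)

private theorem aQ_one : aQ Q x₀ (1 : Γ) = id := by
  funext a
  cases a with
  | none => rfl
  | some e =>
    show some ((1 : Γ) • e.1, e.2) = some e
    rw [one_smul]

private theorem aQ_mul (g h : Γ) : aQ Q x₀ (g * h) = aQ Q x₀ g ∘ aQ Q x₀ h := by
  funext a
  cases a with
  | none => rfl
  | some e =>
    show some ((g * h) • e.1, e.2) = some (g • h • e.1, e.2)
    rw [mul_smul]

/-- the action on the chains of the augmented complex -/
noncomputable def rhoQ : Γ →* (NQ Q x₀ →ₗ[ZMod 2] NQ Q x₀) where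
  toFun g := Finsupp.lmapDomain (ZMod 2) (ZMod 2) (Option.map fun e => (g • e.1, e.2))
  map_one' := by
    refine LinearMap.ext fun x => ?_
    show x.mapDomain (aQ Q x₀ (1 : Γ)) = x
    rw [aQ_one, Finsupp.mapDomain_id]
  map_mul' g h := by
    refine LinearMap.ext fun x => ?_
    show x.mapDomain (aQ Q x₀ (g * h)) = (x.mapDomain (aQ Q x₀ h)).mapDomain (aQ Q x₀ g)
    rw [aQ_mul, Finsupp.mapDomain_comp]

private theorem rhoQ_apply' (g : Γ) (x : NQ Q x₀) : rhoQ Q x₀ g x = x.mapDomain (aQ Q x₀ g) := rfl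

private theorem rhoQ_single' (g : Γ) (a : Option (Q.Cover x₀ × Finset V)) :
    rhoQ Q x₀ g (Finsupp.single a 1) = Finsupp.single (aQ Q x₀ g a) 1 := by
  rw [rhoQ_apply', Finsupp.mapDomain_single]

theorem rhoQ_none (g : Γ) : rhoQ Q x₀ g (Finsupp.single none 1) = Finsupp.single none 1 :=
  rhoQ_single' Q x₀ g none

theorem rhoQ_some (g : Γ) (e : Q.Cover x₀ × Finset V) :
    rhoQ Q x₀ g (Finsupp.single (some e) 1) = Finsupp.single (some (g • e.1, e.2)) 1 :=
  rhoQ_single' Q x₀ g (some e)

variable {Q x₀}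

theorem nbc_smul (hΓ : IsDeck Γ Q x₀) (g : Γ) (v : V) (c : Q.Cover x₀) :
    Q.nbc x₀ v (g • c) = g • Q.nbc x₀ v c := by
  by_cases h : v ∈ Q.lab (Q.proj x₀ c)
  · exact hΓ.nb g v c h
  · rw [nbc_of_notMem h, nbc_of_notMem]
    rwa [hΓ.proj]

theorem bdD_smul (hΓ : IsDeck Γ Q x₀) (g : Γ) (e : Q.Cover x₀ × Finset V) :
    bdD Q x₀ (g • e.1, e.2) = (bdD Q x₀ e).mapDomain fun e => (g • e.1, e.2) := by
  unfold bdD
  rw [show (Finsupp.mapDomain (fun e : Q.Cover x₀ × Finset V => (g • e.1, e.2))
      (∑ v ∈ e.2, (Finsupp.single (e.1, e.2.erase v) (1 : ZMod 2) +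
        Finsupp.single (Q.nbc x₀ v e.1, e.2.erase v) 1))) =
      Finsupp.lmapDomain (ZMod 2) (ZMod 2) (fun e : Q.Cover x₀ × Finset V => (g • e.1, e.2))
      (∑ v ∈ e.2, (Finsupp.single (e.1, e.2.erase v) (1 : ZMod 2) +
        Finsupp.single (Q.nbc x₀ v e.1, e.2.erase v) 1)) from rfl, map_sum]
  refine sum_congr rfl fun v _ => ?_
  rw [map_add, Finsupp.lmapDomain_apply, Finsupp.lmapDomain_apply, Finsupp.mapDomain_single,
    Finsupp.mapDomain_single, nbc_smul hΓ]

private theorem dQ1_rho (hΓ : IsDeck Γ Q x₀) (g : Γ) (a : Option (Q.Cover x₀ × Finset V)) :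
    dQ1 Q x₀ (aQ Q x₀ g a) = rhoQ Q x₀ g (dQ1 Q x₀ a) := by
  cases a with
  | none => exact (map_zero _).symm
  | some e =>
    show (if e.2 = ∅ then Finsupp.single none 1 else
      (bdD Q x₀ (g • e.1, e.2)).mapDomain some) =
      rhoQ Q x₀ g (if e.2 = ∅ then Finsupp.single none 1 else (bdD Q x₀ e).mapDomain some)
    by_cases h : e.2 = ∅
    · rw [if_pos h, if_pos h, rhoQ_none]
    · rw [if_neg h, if_neg h, bdD_smul hΓ, rhoQ_apply', ← Finsupp.mapDomain_comp,
        ← Finsupp.mapDomain_comp]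
      rfl

/-- the boundary is equivariant -/
theorem dQ_rho (hΓ : IsDeck Γ Q x₀) (g : Γ) (x : NQ Q x₀) :
    dQ Q x₀ (rhoQ Q x₀ g x) = rhoQ Q x₀ g (dQ Q x₀ x) := by
  unfold dQ
  rw [rhoQ_apply', lin_map, map_lin]
  congr 1
  congr 1
  funext a
  exact dQ1_rho hΓ g a

variable {bit : X → V → ZMod 2}

theorem cell_smul (hΓ : IsDeck Γ Q x₀) {i : ℕ} (g : Γ) {e : Q.Cover x₀ × Finset V}
    (he : e ∈ Cell Q x₀ bit i) : (g • e.1, e.2) ∈ Cell Q x₀ bit i := by
  obtain ⟨h1, h2, h3, h4⟩ := he
  refine ⟨?_, h2, h3, fun v hv => ?_⟩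
  · show e.2 ⊆ Q.lab (Q.proj x₀ (g • e.1))
    rw [hΓ.proj]
    exact h1
  · show bit (Q.proj x₀ (g • e.1)) v = 0
    rw [hΓ.proj]
    exact h4 v hv

theorem MQ_rho (hΓ : IsDeck Γ Q x₀) (i : ℕ) (g : Γ) (x : NQ Q x₀) (hx : x ∈ MQ Q x₀ bit i) :
    rhoQ Q x₀ g x ∈ MQ Q x₀ bit i := by
  classical
  rw [rhoQ_apply']
  cases i with
  | zero =>
    refine (Finsupp.mem_supported _ _).2 fun b hb => ?_
    obtain ⟨a, ha, rfl⟩ := Finset.mem_image.1 (Finsupp.mapDomain_support hb)
    have h1 : a = none := (Finsupp.mem_supported _ _).1 hx ha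
    rw [h1]
    rfl
  | succ i =>
    refine (Finsupp.mem_supported _ _).2 fun b hb => ?_
    obtain ⟨a, ha, rfl⟩ := Finset.mem_image.1 (Finsupp.mapDomain_support hb)
    obtain ⟨e, he, rfl⟩ := (Finsupp.mem_supported _ _).1 hx ha
    exact ⟨_, cell_smul hΓ g he, rfl⟩

variable (Q x₀ bit) in
/-- the augmented cubical complex is exact -/
def ExQ : Prop := ∀ (i : ℕ) (x : NQ Q x₀), x ∈ MQ Q x₀ bit i → dQ Q x₀ x = 0 →
  ∃ y ∈ MQ Q x₀ bit (i + 1), dQ Q x₀ y = x

/-! ### the chain map from the tuples -/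

/-- all faces of a tuple have one element less -/
theorem bdl_len {α : Type} : ∀ (L : List α) (b : List α), bdl L b ≠ 0 →
    b.length + 1 = L.length
  | [], b, h => absurd rfl h
  | x :: l, b, h => by
    classical
    by_cases h1 : b = l
    · rw [h1]
      rfl
    · have h2 : (bdl l).mapDomain (x :: ·) b ≠ 0 := by
        intro h3
        apply h
        have e : bdl (x :: l) = Finsupp.single l 1 + (bdl l).mapDomain (x :: ·) := rfl
        rw [e, Finsupp.add_apply, h3, Finsupp.single_eq_of_ne h1, add_zero]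
      obtain ⟨c, hc, rfl⟩ := Finset.mem_image.1
        (Finsupp.mapDomain_support (Finsupp.mem_support_iff.2 h2))
      have h3 := bdl_len l c (Finsupp.mem_support_iff.1 hc)
      rw [List.length_cons, List.length_cons, h3]

/-- **A chain map from the tuples to the cubes.** -/
theorem exists_S (hΓ : IsDeck Γ Q x₀) (hex : ExQ Q x₀ bit) : ∃ S : List (Q.Cover x₀) → NQ Q x₀,
    (∀ i L, L.length = i + 1 → S L ∈ MQ Q x₀ bit (i + 1)) ∧
    (∀ (g : Γ) L, L ≠ [] → S (L.map (g • ·)) = rhoQ Q x₀ g (S L)) ∧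
    (∀ c, dQ Q x₀ (S [c]) = Finsupp.single none 1) ∧
    ∀ L, 2 ≤ L.length → dQ Q x₀ (S L) = lin S (bdl L) := by
  classical
  let act : MulAction Γ (List (Q.Cover x₀)) :=
    { smul := fun g L => L.map (g • ·)
      one_smul := fun L => by
        show L.map ((1 : Γ) • ·) = L
        simp
      mul_smul := fun g h L => by
        show L.map ((g * h) • ·) = (L.map (h • ·)).map (g • ·)
        rw [List.map_map]
        congr 1
        funext c
        exact mul_smul g h c }
  have hact : ∀ (g : Γ) (L : List (Q.Cover x₀)), g • L = L.map (g • ·) :=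
    fun _ _ => rfl
  obtain ⟨bd, hbdef⟩ : ∃ bd : List (Q.Cover x₀) → (List (Q.Cover x₀) →₀ ZMod 2),
    ∀ L, bd L = if L.length ≤ 1 then 0 else bdl L := ⟨_, fun _ => rfl⟩
  obtain ⟨F, hFdef⟩ : ∃ F : List (Q.Cover x₀) → NQ Q x₀,
    ∀ L, F L = if L.length = 1 then Finsupp.single none 1 else 0 := ⟨_, fun _ => rfl⟩
  have hF1 : ∀ c, F [c] = Finsupp.single none 1 := fun c => by
    rw [hFdef]
    exact if_pos rfl
  have hfaces : ∀ L b, bd L b ≠ 0 → b.length + 1 = L.length ∧ 2 ≤ L.length := by
    intro L b h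
    rw [hbdef] at h
    by_cases h1 : L.length ≤ 1
    · rw [if_pos h1] at h
      exact absurd rfl h
    · rw [if_neg h1] at h
      exact ⟨bdl_len L b h, by omega⟩
  obtain ⟨H, hH1, hH2, hH3⟩ := lift_free (Γ := Γ) (A := List (Q.Cover x₀)) (N := NQ Q x₀)
    (fun i => {L | L.length = i + 1})
    (fun i g L (hL : L.length = i + 1) => by
      show (L.map (g • ·)).length = i + 1
      rw [List.length_map]
      exact hL)
    (fun i j L (hi : L.length = i + 1) (hj : L.length = j + 1) => by omega)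
    (fun i L (hi : L.length = i + 1) g hg => by
      match L, hi with
      | c :: l, _ =>
        have h1 : g • c :: l.map (g • ·) = c :: l := hg
        exact hΓ.free g c (List.cons.inj h1).1)
    bd
    (fun i L (hL : L.length = i + 1 + 1) b hb => by
      have := (hfaces L b hb).1
      show b.length = i + 1
      omega)
    (fun L (hL : L.length = 0 + 1) => by rw [hbdef, if_pos (by omega)])
    (fun i g L _ => by
      rw [hact, hbdef, hbdef, List.length_map]
      by_cases h : L.length ≤ 1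
      · rw [if_pos h, if_pos h, Finsupp.mapDomain_zero]
      · rw [if_neg h, if_neg h, bdl_map]
        rfl)
    (fun i L (hL : L.length = i + 1) => by
      by_cases h : L.length ≤ 1
      · rw [hbdef L, if_pos h, map_zero]
      · by_cases h2 : L.length = 2
        · rw [lin_congr (f' := bd) (f := fun _ => 0) (fun c hc => by
            have h3 := hfaces L c hc
            rw [hbdef, if_pos (by omega)])]
          exact lin_fun_zero _
        · rw [lin_congr (f' := bd) (f := bdl) (fun c hc => by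
            have h3 := hfaces L c hc
            rw [hbdef, if_neg (by omega)]), hbdef L, if_neg h]
          exact BL_bdl L)
    (rhoQ Q x₀) (dQ Q x₀) (dQ_rho hΓ) (MQ Q x₀ bit) (MQ_rho hΓ)
    (fun i _ x hx hd => hex i x hx hd)
    F
    (fun i L (hL : L.length = i + 1) => by
      rw [hFdef]
      by_cases h : L.length = 1
      · rw [if_pos h]
        have h1 : i = 0 := by omega
        subst h1
        exact Finsupp.single_mem_supported _ _ rfl
      · rw [if_neg h]
        exact Submodule.zero_mem _)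
    (fun i g L _ => by
      rw [hact, hFdef, hFdef, List.length_map]
      by_cases h : L.length = 1
      · rw [if_pos h, rhoQ_none]
      · rw [if_neg h, map_zero])
    (fun i L (hL : L.length = i + 1) => by
      by_cases h : L.length ≤ 1
      · have h1 : L.length = 1 := by omega
        rw [hbdef, if_pos h, map_zero, hFdef, if_pos h1]
        exact lin_single _ _
      · rw [hFdef, if_neg (by omega), map_zero]
        by_cases h2 : L.length = 2
        · match L, h2 with
          | [x, y], _ =>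
            rw [hbdef, if_neg h]
            simp only [bdl, Finsupp.mapDomain_zero, add_zero, Finsupp.mapDomain_single]
            rw [map_add, lin_single, lin_single, hF1, hF1]
            exact (chain_add_self _).symm
        · rw [lin_congr (f' := F) (f := fun _ => 0) (fun c hc => by
            have h3 := hfaces L c hc
            rw [hFdef, if_neg (by omega)])]
          exact (lin_fun_zero _).symm)
  refine ⟨H, fun i L hL => hH1 i L hL, fun g L hL => ?_, fun c => ?_, fun L hL => ?_⟩
  · have h1 : 0 < L.length := List.length_pos_iff.2 hL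
    exact hH2 (L.length - 1) g L (show L.length = L.length - 1 + 1 by omega)
  · have h1 := hH3 0 [c] rfl
    have h2 : bd [c] = 0 := by
      rw [hbdef]
      exact if_pos (by simp)
    rw [hF1, h2, map_zero, add_zero] at h1
    exact h1
  · have h1 := hH3 (L.length - 1) L (show L.length = L.length - 1 + 1 by omega)
    rw [hFdef, if_neg (by omega), hbdef, if_neg (by omega), zero_add] at h1
    exact h1

variable (Q x₀) in
private theorem Tm_len : ∀ (k : ℕ) (c : Q.Cover x₀) (σ : Finset V)
    (L : List (Q.Cover x₀)), Tm Q x₀ k c σ L ≠ 0 → L.length = k + 1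
  | 0, c, σ, L, h => by
    classical
    have h1 : Tm Q x₀ 0 c σ = Finsupp.single [c] 1 := rfl
    rw [h1] at h
    by_cases h2 : L = [c]
    · rw [h2]
      rfl
    · exact absurd (Finsupp.single_eq_of_ne h2) h
  | k + 1, c, σ, L, h => by
    classical
    have h1 : Tm Q x₀ (k + 1) c σ =
      ∑ v ∈ σ, (Tm Q x₀ k (Q.nbc x₀ v c) (σ.erase v)).mapDomain (c :: ·) := rfl
    rw [h1, Finsupp.finsetSum_apply] at h
    obtain ⟨v, -, hv⟩ := exists_ne_zero_of_sum_ne_zero h
    obtain ⟨L', hL', rfl⟩ := Finset.mem_image.1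
      (Finsupp.mapDomain_support (Finsupp.mem_support_iff.2 hv))
    have h2 := Tm_len k _ _ L' (Finsupp.mem_support_iff.1 hL')
    rw [List.length_cons, h2]

/-- all lists of `TT e` have `e.2.card + 1` elements -/
theorem TT_len (e : Q.Cover x₀ × Finset V) (L : List (Q.Cover x₀))
    (h : TT Q x₀ e L ≠ 0) : L.length = e.2.card + 1 := Tm_len Q x₀ _ _ _ L h

/-- **The homotopy.** -/
theorem exists_Hm (hΓ : IsDeck Γ Q x₀) (hbit : IsBit Q bit) (hex : ExQ Q x₀ bit)
    {S : List (Q.Cover x₀) → NQ Q x₀}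
    (hS1 : ∀ i L, L.length = i + 1 → S L ∈ MQ Q x₀ bit (i + 1))
    (hS2 : ∀ (g : Γ) L, L ≠ [] → S (L.map (g • ·)) = rhoQ Q x₀ g (S L))
    (hS3 : ∀ c, dQ Q x₀ (S [c]) = Finsupp.single none 1)
    (hS4 : ∀ L, 2 ≤ L.length → dQ Q x₀ (S L) = lin S (bdl L)) :
    ∃ H : Q.Cover x₀ × Finset V → NQ Q x₀,
      (∀ i, ∀ e ∈ Cell Q x₀ bit i, H e ∈ MQ Q x₀ bit (i + 2)) ∧
      (∀ i (g : Γ), ∀ e ∈ Cell Q x₀ bit i, H (g • e.1, e.2) = rhoQ Q x₀ g (H e)) ∧
      ∀ i, ∀ e ∈ Cell Q x₀ bit i, dQ Q x₀ (H e) =
        Finsupp.single (some e) 1 + lin S (TT Q x₀ e) + lin H (bdD Q x₀ e) := by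
  classical
  let act : MulAction Γ (Q.Cover x₀ × Finset V) :=
    { smul := fun g e => (g • e.1, e.2)
      one_smul := fun e => by
        show ((1 : Γ) • e.1, e.2) = e
        rw [one_smul]
      mul_smul := fun g h e => by
        show ((g * h) • e.1, e.2) = (g • h • e.1, e.2)
        rw [mul_smul] }
  have hact : ∀ (g : Γ) (e : Q.Cover x₀ × Finset V), g • e = (g • e.1, e.2) :=
    fun _ _ => rfl
  refine lift_free (Γ := Γ) (A := Q.Cover x₀ × Finset V) (N := NQ Q x₀)
    (fun i => Cell Q x₀ bit i)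
    (fun i g e he => cell_smul hΓ g he)
    (fun i j e hi hj => hi.2.2.1.symm.trans hj.2.2.1)
    (fun i e he g hg => hΓ.free g e.1 (congrArg Prod.fst hg))
    (bdD Q x₀)
    (fun i e he b hb => bdD_cell hbit he b hb)
    (fun e he => by
      unfold bdD
      rw [card_eq_zero.1 he.2.2.1, sum_empty])
    (fun i g e _ => bdD_smul hΓ g e)
    (fun i e he => bdD_bdD he)
    (rhoQ Q x₀) (dQ Q x₀) (dQ_rho hΓ) (fun i => MQ Q x₀ bit (i + 1)) (fun i => MQ_rho hΓ (i + 1))
    (fun i _ x hx hd => hex (i + 1) x hx hd)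
    (fun e => Finsupp.single (some e) 1 + lin S (TT Q x₀ e))
    (fun i e he => ?_) (fun i g e he => ?_) (fun i e he => ?_)
  · refine Submodule.add_mem _ (Finsupp.single_mem_supported _ _ ⟨e, he, rfl⟩) ?_
    refine lin_mem fun L hL => hS1 i L ?_
    rw [TT_len e L hL, he.2.2.1]
  · show Finsupp.single (some (g • e.1, e.2)) 1 + lin S (TT Q x₀ (g • e.1, e.2)) = _
    rw [map_add, rhoQ_some, TT_smul hΓ he, lin_map, map_lin]
    congr 1
    refine lin_congr fun L hL => ?_
    refine hS2 g L ?_
    rintro rfl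
    have h1 := TT_len e [] hL
    simp at h1
  · show dQ Q x₀ (Finsupp.single (some e) 1 + lin S (TT Q x₀ e)) =
      lin (fun e => Finsupp.single (some e) 1 + lin S (TT Q x₀ e)) (bdD Q x₀ e)
    have h0 : dQ Q x₀ (Finsupp.single (some e) 1) = dQ1 Q x₀ (some e) := lin_single _ _
    rw [map_add, h0]
    cases i with
    | zero =>
      have h1 : e.2 = ∅ := card_eq_zero.1 he.2.2.1
      have h2 : bdD Q x₀ e = 0 := by
        unfold bdD
        rw [h1, sum_empty]
      have h3 : TT Q x₀ e = Finsupp.single [e.1] 1 := by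
        unfold TT
        rw [h1, card_empty]
        rfl
      rw [h2, map_zero, h3, lin_single, hS3, dQ1_empty Q x₀ h1, chain_add_self]
    | succ i =>
      have h1 : e.2 ≠ ∅ := by
        intro h
        have h4 := he.2.2.1
        rw [h, card_empty] at h4
        omega
      have h2 : dQ1 Q x₀ (some e) = (bdD Q x₀ e).mapDomain some := if_neg h1
      have h3 : dQ Q x₀ (lin S (TT Q x₀ e)) = lin S (BL (TT Q x₀ e)) := by
        rw [map_lin, lin_congr (f' := fun L => dQ Q x₀ (S L)) (f := fun L => lin S (bdl L))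
          (fun L hL => hS4 L (by
            have h4 := TT_len e L hL
            have h5 := he.2.2.1
            omega))]
        exact lin_lin
      have h4 := BL_TT he
      rw [if_neg (Nat.succ_ne_zero i)] at h4
      rw [h2, h3, h4, lin_add, lin_lin]
      congr 1
      unfold lin
      rw [Finsupp.linearCombination_apply, Finsupp.mapDomain]
      refine Finsupp.sum_congr fun c _ => ?_
      rw [Finsupp.smul_single, smul_eq_mul, mul_one]

end

end Pool.Agent.S10

end

section

/-!
# Project S10, block M: cochains of the tuples and cochains of the cubes of the universal cover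

`zq l c`: the vertex of the cube spanned by the labels `l` at `c` whose bits vanish on `l`; `Tq k x`: the restriction of
the cochain `x` of the tuples to the cubes.
-/

set_option autoImplicit false
set_option linter.unusedSectionVars false

open Finset

namespace Pool.Agent.S10

open Pool.Agent.H19.Cub Pool.Agent.H77.SX Pool.Agent.H37.TM Pool.Agent.S9

variable {V X Γ Φ : Type} [DecidableEq V] [Fintype V] [Group Γ] [Group Φ] {Q : CubeComplex V X} {x₀ : X}
  [MulAction Γ (Q.Cover x₀)] {bit : X → V → ZMod 2}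

/-! ### the vertex with the bits zero -/

/-- `A` spans a cube at `c` -/
def Vd (Q : CubeComplex V X) (x₀ : X) (c : Q.Cover x₀) (A : Finset V) : Prop :=
  A ⊆ Q.lab (Q.proj x₀ c) ∧ Q.graph.IsClique (A : Set V)

theorem Vd.nbc {c : Q.Cover x₀} {A : Finset V} (h : Vd Q x₀ c A) {v : V} (hv : v ∈ A) :
    Vd Q x₀ (Q.nbc x₀ v c) A := by
  refine ⟨fun u hu => ?_, h.2⟩
  by_cases huv : u = v
  · rw [huv]
    exact (Q.cover x₀).lab_nb v c (h.1 hv)
  · exact (Q.cover x₀).lab_adj u v c (h.2 (mem_coe.2 hu) (mem_coe.2 hv) huv) (h.1 hu) (h.1 hv)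

theorem Vd.nn {c : Q.Cover x₀} {A : Finset V} (h : Vd Q x₀ c A) {v : V} (hv : v ∈ A) :
    Q.nbc x₀ v (Q.nbc x₀ v c) = c := (Q.cover x₀).nb_nb v c (h.1 hv)

theorem Vd.comm {c : Q.Cover x₀} {A : Finset V} (h : Vd Q x₀ c A) {u v : V} (hu : u ∈ A)
    (hv : v ∈ A) : Q.nbc x₀ u (Q.nbc x₀ v c) = Q.nbc x₀ v (Q.nbc x₀ u c) := by
  by_cases huv : u = v
  · rw [huv]
  · exact (Q.cover x₀).nb_comm u v c (h.2 (mem_coe.2 hu) (mem_coe.2 hv) huv) (h.1 hu) (h.1 hv)

theorem Vd.sub {c : Q.Cover x₀} {A B : Finset V} (h : Vd Q x₀ c A) (hB : B ⊆ A) : Vd Q x₀ c B :=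
  ⟨hB.trans h.1, h.2.subset (by exact_mod_cast hB)⟩

theorem Vd.bt {c : Q.Cover x₀} {A : Finset V} (h : Vd Q x₀ c A) (hbit : IsBit Q bit) {v : V}
    (hv : v ∈ A) (u : V) :
    bit (Q.proj x₀ (Q.nbc x₀ v c)) u = bit (Q.proj x₀ c) u + if u = v then 1 else 0 := by
  rw [proj_nbc Q x₀ c (h.1 hv)]
  exact hbit v _ (h.1 hv) u

theorem Vd.smul {c : Q.Cover x₀} {A : Finset V} (hΓ : IsDeck Γ Q x₀) (g : Γ) :
    Vd Q x₀ (g • c) A ↔ Vd Q x₀ c A := by
  unfold Vd
  rw [hΓ.proj]

/-- the vertex whose bits vanish on `l` -/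
noncomputable def zq (Q : CubeComplex V X) (x₀ : X) (bit : X → V → ZMod 2) : List V → Q.Cover x₀ → Q.Cover x₀
  | [], c => c
  | v :: l, c => zq Q x₀ bit l (if bit (Q.proj x₀ c) v = 0 then c else Q.nbc x₀ v c)

theorem zq_cons (v : V) (l : List V) (c : Q.Cover x₀) : zq Q x₀ bit (v :: l) c =
    zq Q x₀ bit l (if bit (Q.proj x₀ c) v = 0 then c else Q.nbc x₀ v c) := rfl

private theorem z2 {a : ZMod 2} (h : ¬ a = 0) : a + 1 = 0 := by
  revert h
  revert a
  decide

private theorem z3 {a : ZMod 2} (h : a = 0) : ¬ a + 1 = 0 := by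
  revert h
  revert a
  decide

/-- properties which do not change along the edges of the cube -/
theorem zq_inv {Y : Type} (f : Q.Cover x₀ → Y) {A : Finset V}
    (hf : ∀ c, Vd Q x₀ c A → ∀ v ∈ A, f (Q.nbc x₀ v c) = f c) : ∀ (l : List V) (c : Q.Cover x₀),
    (∀ v ∈ l, v ∈ A) → Vd Q x₀ c A → f (zq Q x₀ bit l c) = f c ∧ Vd Q x₀ (zq Q x₀ bit l c) A
  | [], _, _, hc => ⟨rfl, hc⟩
  | v :: l, c, hl, hc => by
    have hv : v ∈ A := hl v List.mem_cons_self
    have hl' : ∀ u ∈ l, u ∈ A := fun u hu => hl u (List.mem_cons_of_mem v hu)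
    rw [zq_cons]
    by_cases hb : bit (Q.proj x₀ c) v = 0
    · rw [if_pos hb]
      exact zq_inv f hf l c hl' hc
    · rw [if_neg hb]
      have h1 := zq_inv f hf l (Q.nbc x₀ v c) hl' (hc.nbc hv)
      exact ⟨h1.1.trans (hf c hc v hv), h1.2⟩

theorem zq_bit (hbit : IsBit Q bit) {A : Finset V} : ∀ (l : List V) (c : Q.Cover x₀), l.Nodup →
    (∀ v ∈ l, v ∈ A) → Vd Q x₀ c A → ∀ u, bit (Q.proj x₀ (zq Q x₀ bit l c)) u =
      if u ∈ l then 0 else bit (Q.proj x₀ c) u
  | [], c, _, _, _, u => by
    rw [if_neg List.not_mem_nil]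
    rfl
  | v :: l, c, hn, hl, hc, u => by
    have hv : v ∈ A := hl v List.mem_cons_self
    have hl' : ∀ u ∈ l, u ∈ A := fun u hu => hl u (List.mem_cons_of_mem v hu)
    obtain ⟨hvl, hn'⟩ := List.nodup_cons.1 hn
    rw [zq_cons]
    by_cases hb : bit (Q.proj x₀ c) v = 0
    · rw [if_pos hb, zq_bit hbit l c hn' hl' hc u]
      by_cases hu : u ∈ l
      · rw [if_pos hu, if_pos (List.mem_cons_of_mem v hu)]
      · rw [if_neg hu]
        by_cases huv : u = v
        · rw [huv, if_pos List.mem_cons_self, hb]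
        · rw [if_neg fun h => (List.mem_cons.1 h).elim huv hu]
    · rw [if_neg hb, zq_bit hbit l _ hn' hl' (hc.nbc hv) u]
      by_cases hu : u ∈ l
      · rw [if_pos hu, if_pos (List.mem_cons_of_mem v hu)]
      · rw [if_neg hu, hc.bt hbit hv]
        by_cases huv : u = v
        · rw [huv, if_pos rfl, if_pos List.mem_cons_self]
          exact z2 hb
        · rw [if_neg huv, add_zero, if_neg fun h => (List.mem_cons.1 h).elim huv hu]

theorem zq_of : ∀ (l : List V) (c : Q.Cover x₀), (∀ v ∈ l, bit (Q.proj x₀ c) v = 0) →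
    zq Q x₀ bit l c = c
  | [], _, _ => rfl
  | v :: l, c, h => by
    rw [zq_cons, if_pos (h v List.mem_cons_self)]
    exact zq_of l c fun u hu => h u (List.mem_cons_of_mem v hu)

theorem zq_nbc (hbit : IsBit Q bit) {A : Finset V} {v : V} (hv : v ∈ A) : ∀ (l : List V)
    (c : Q.Cover x₀), (∀ v ∈ l, v ∈ A) → Vd Q x₀ c A → v ∈ l →
    zq Q x₀ bit l (Q.nbc x₀ v c) = zq Q x₀ bit l c
  | u :: l, c, hl, hc, hvl => by
    have hu : u ∈ A := hl u List.mem_cons_self
    have hl' : ∀ u ∈ l, u ∈ A := fun w hw => hl w (List.mem_cons_of_mem u hw)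
    rw [zq_cons, zq_cons, hc.bt hbit hv]
    by_cases huv : u = v
    · subst huv
      rw [if_pos rfl]
      by_cases hb : bit (Q.proj x₀ c) u = 0
      · rw [if_pos hb, if_neg (z3 hb), hc.nn hv]
      · rw [if_neg hb, if_pos (z2 hb)]
    · rw [if_neg huv, add_zero]
      have hvl' : v ∈ l := (List.mem_cons.1 hvl).elim (fun h => absurd h.symm huv) id
      by_cases hb : bit (Q.proj x₀ c) u = 0
      · rw [if_pos hb, if_pos hb]
        exact zq_nbc hbit hv l c hl' hc hvl'
      · rw [if_neg hb, if_neg hb, hc.comm hu hv]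
        exact zq_nbc hbit hv l (Q.nbc x₀ u c) hl' (hc.nbc hu) hvl'

theorem zq_smul (hΓ : IsDeck Γ Q x₀) (g : Γ) {A : Finset V} : ∀ (l : List V) (c : Q.Cover x₀),
    (∀ v ∈ l, v ∈ A) → Vd Q x₀ c A → zq Q x₀ bit l (g • c) = g • zq Q x₀ bit l c
  | [], _, _, _ => rfl
  | v :: l, c, hl, hc => by
    have hv : v ∈ A := hl v List.mem_cons_self
    have hl' : ∀ u ∈ l, u ∈ A := fun u hu => hl u (List.mem_cons_of_mem v hu)
    rw [zq_cons, zq_cons, hΓ.proj]
    by_cases hb : bit (Q.proj x₀ c) v = 0
    · rw [if_pos hb, if_pos hb]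
      exact zq_smul hΓ g l c hl' hc
    · rw [if_neg hb, if_neg hb, hΓ.nb g v c (hc.1 hv)]
      exact zq_smul hΓ g l _ hl' (hc.nbc hv)

/-- the cell of the cube `(c, A)` -/
noncomputable def zc (Q : CubeComplex V X) (x₀ : X) (bit : X → V → ZMod 2)
    (e : Q.Cover x₀ × Finset V) : Q.Cover x₀ × Finset V := (zq Q x₀ bit e.2.toList e.1, e.2)

theorem zc_cell (hbit : IsBit Q bit) {e : Q.Cover x₀ × Finset V} (he : Vd Q x₀ e.1 e.2) :
    zc Q x₀ bit e ∈ Cell Q x₀ bit e.2.card := by
  have h1 := zq_inv (bit := bit) (fun _ => ()) (fun _ _ _ _ => rfl) e.2.toList e.1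
    (fun v hv => mem_toList.1 hv) he
  refine ⟨h1.2.1, h1.2.2, rfl, fun v hv => ?_⟩
  show bit (Q.proj x₀ (zq Q x₀ bit e.2.toList e.1)) v = 0
  have hv' : v ∈ e.2.toList := mem_toList.2 hv
  rw [zq_bit hbit e.2.toList e.1 (nodup_toList _) (fun v hv => mem_toList.1 hv) he v,
    if_pos hv']

theorem zc_of {e : Q.Cover x₀ × Finset V} (h : ∀ v ∈ e.2, bit (Q.proj x₀ e.1) v = 0) :
    zc Q x₀ bit e = e := by
  unfold zc
  rw [zq_of _ _ fun v hv => h v (mem_toList.1 hv)]

theorem zc_of_cell {k : ℕ} {e : Q.Cover x₀ × Finset V} (h : e ∈ Cell Q x₀ bit k) :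
    zc Q x₀ bit e = e := zc_of h.2.2.2

theorem zc_nbc (hbit : IsBit Q bit) {c : Q.Cover x₀} {A : Finset V} (h : Vd Q x₀ c A) {v : V}
    (hv : v ∈ A) : zc Q x₀ bit (Q.nbc x₀ v c, A) = zc Q x₀ bit (c, A) := by
  unfold zc
  show (zq Q x₀ bit A.toList (Q.nbc x₀ v c), A) = (zq Q x₀ bit A.toList c, A)
  rw [zq_nbc hbit hv A.toList c (fun v hv => mem_toList.1 hv) h (mem_toList.2 hv)]

theorem zc_smul (hΓ : IsDeck Γ Q x₀) (g : Γ) {e : Q.Cover x₀ × Finset V} (he : Vd Q x₀ e.1 e.2) :
    zc Q x₀ bit (g • e.1, e.2) = (g • (zc Q x₀ bit e).1, (zc Q x₀ bit e).2) := by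
  unfold zc
  show (zq Q x₀ bit e.2.toList (g • e.1), e.2) = (g • zq Q x₀ bit e.2.toList e.1, e.2)
  rw [zq_smul hΓ g e.2.toList e.1 (fun v hv => mem_toList.1 hv) he]

theorem zc_inv {Y : Type} (f : Q.Cover x₀ → Y) {A : Finset V}
    (hf : ∀ c, Vd Q x₀ c A → ∀ v ∈ A, f (Q.nbc x₀ v c) = f c) {c : Q.Cover x₀} (h : Vd Q x₀ c A) :
    f (zc Q x₀ bit (c, A)).1 = f c :=
  (zq_inv f hf A.toList c (fun v hv => mem_toList.1 hv) h).1

/-! ### the restriction of the cochains of the tuples -/

section Tst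

variable {K : Type} [Field K] {E : Type} [AddCommGroup E] [Module K E] [Module (ZMod 2) E]

open Classical in
/-- the restriction of a cochain of the tuples to the cubes of dimension `k` -/
noncomputable def Tq (Q : CubeComplex V X) (x₀ : X) (bit : X → V → ZMod 2) (k : ℕ)
    (x : List (Q.Cover x₀) → E) : Q.Cover x₀ × Finset V → E :=
  fun e => if Vd Q x₀ e.1 e.2 ∧ e.2.card = k then lin x (TT Q x₀ (zc Q x₀ bit e)) else 0

theorem Tq_pos {k : ℕ} (x : List (Q.Cover x₀) → E) {e : Q.Cover x₀ × Finset V}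
    (h : Vd Q x₀ e.1 e.2) (hk : e.2.card = k) :
    Tq Q x₀ bit k x e = lin x (TT Q x₀ (zc Q x₀ bit e)) := if_pos ⟨h, hk⟩

theorem Tq_cell {k : ℕ} (x : List (Q.Cover x₀) → E) {e : Q.Cover x₀ × Finset V}
    (he : e ∈ Cell Q x₀ bit k) : Tq Q x₀ bit k x e = lin x (TT Q x₀ e) := by
  rw [Tq_pos x ⟨he.1, he.2.1⟩ he.2.2.1, zc_of_cell he]

theorem Tq_CubC (hbit : IsBit Q bit) (hΓ : IsDeck Γ Q x₀) {k : ℕ} {x : List (Q.Cover x₀) → E}
    {θ : Γ →* Φ} {ρ : Φ →* Module.End K E}
    (hx : ∀ (g : Γ) L, x (L.map (g • ·)) = ρ (θ g) (x L)) :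
    CubC Q x₀ θ ρ k (Tq Q x₀ bit k x) := by
  classical
  refine ⟨fun e h => ?_, fun y σ hσ v hv => ?_, fun g e => ?_⟩
  · by_cases h1 : Vd Q x₀ e.1 e.2 ∧ e.2.card = k
    · exact ⟨h1.1.1, h1.1.2, h1.2⟩
    · exact absurd (if_neg h1) h
  · by_cases h : Q.graph.IsClique (σ : Set V) ∧ σ.card = k
    · have h1 : Vd Q x₀ y σ := ⟨hσ, h.1⟩
      rw [Tq_pos x (h1.nbc hv) h.2, Tq_pos x h1 h.2, zc_nbc hbit h1 hv]
    · have h1 : ∀ c : Q.Cover x₀, Tq Q x₀ bit k x (c, σ) = 0 := fun c =>
        if_neg fun h' => h ⟨h'.1.2, h'.2⟩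
      rw [h1, h1]
  · by_cases h : Vd Q x₀ e.1 e.2 ∧ e.2.card = k
    · rw [Tq_pos x (e := (g • e.1, e.2)) ((Vd.smul hΓ g).2 h.1) h.2, Tq_pos x h.1 h.2,
        zc_smul hΓ g h.1,
        TT_smul hΓ (zc_cell hbit h.1) g, lin_map]
      have h1 : (fun L => x (List.map (g • ·) L)) = fun L => zl (ρ (θ g)) (x L) :=
        funext fun L => hx g L
      rw [h1, ← map_lin]
      rfl
    · have h1 : Tq Q x₀ bit k x e = 0 := if_neg h
      rw [h1, map_zero]
      exact if_neg fun h' => h ⟨(Vd.smul hΓ g).1 h'.1, h'.2⟩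

theorem cbC_pos {N : Type} [AddCommGroup N] (c : Q.Cover x₀ × Finset V → N)
    {e : Q.Cover x₀ × Finset V} (h : Vd Q x₀ e.1 e.2) : cbC Q x₀ c e =
      ∑ v ∈ e.2, (c (e.1, e.2.erase v) + c (Q.nbc x₀ v e.1, e.2.erase v)) := if_pos h

theorem cbC_neg {N : Type} [AddCommGroup N] (c : Q.Cover x₀ × Finset V → N)
    {e : Q.Cover x₀ × Finset V} (h : ¬ Vd Q x₀ e.1 e.2) : cbC Q x₀ c e = 0 := if_neg h

/-- the coboundary does not depend on the vertex of the cube -/
theorem cbC_nbc {N : Type} [AddCommGroup N] {c : Q.Cover x₀ × Finset V → N}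
    (hc : ∀ y σ, σ ⊆ Q.lab (Q.proj x₀ y) → ∀ v ∈ σ, c (Q.nbc x₀ v y, σ) = c (y, σ))
    {y : Q.Cover x₀} {A : Finset V} (h : Vd Q x₀ y A) {v : V} (hv : v ∈ A) :
    cbC Q x₀ c (Q.nbc x₀ v y, A) = cbC Q x₀ c (y, A) := by
  rw [cbC_pos c (e := (Q.nbc x₀ v y, A)) (h.nbc hv), cbC_pos c (e := (y, A)) h]
  refine sum_congr rfl fun u hu => ?_
  show c (Q.nbc x₀ v y, A.erase u) + c (Q.nbc x₀ u (Q.nbc x₀ v y), A.erase u) =
    c (y, A.erase u) + c (Q.nbc x₀ u y, A.erase u)
  by_cases huv : v = u
  · subst huv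
    rw [h.nn hv, add_comm]
  · have h1 : v ∈ A.erase u := mem_erase.2 ⟨huv, hv⟩
    have h2 : A.erase u ⊆ Q.lab (Q.proj x₀ y) := (h.sub (erase_subset u A)).1
    have h3 : A.erase u ⊆ Q.lab (Q.proj x₀ (Q.nbc x₀ u y)) :=
      ((h.nbc hu).sub (erase_subset u A)).1
    rw [hc y _ h2 v h1, h.comm hu hv, hc _ _ h3 v h1]

theorem lin_bdDQ {N : Type} [AddCommGroup N] [Module (ZMod 2) N]
    (F : Q.Cover x₀ × Finset V → N) (e : Q.Cover x₀ × Finset V) :
    lin F (bdD Q x₀ e) =
      ∑ v ∈ e.2, (F (e.1, e.2.erase v) + F (Q.nbc x₀ v e.1, e.2.erase v)) := by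
  rw [bdD, map_sum]
  exact sum_congr rfl fun v _ => by rw [map_add, lin_single, lin_single]

/-- the restriction commutes with the coboundaries -/
theorem cbC_Tq (hbit : IsBit Q bit) (k : ℕ) (x : List (Q.Cover x₀) → E)
    (e : Q.Cover x₀ × Finset V) :
    cbC Q x₀ (Tq Q x₀ bit k x) e = Tq Q x₀ bit (k + 1) (dT x) e := by
  classical
  have hc : ∀ y σ, σ ⊆ Q.lab (Q.proj x₀ y) → ∀ v ∈ σ,
      Tq Q x₀ bit k x (Q.nbc x₀ v y, σ) = Tq Q x₀ bit k x (y, σ) := by
    intro y σ hσ v hv
    by_cases h : Q.graph.IsClique (σ : Set V) ∧ σ.card = k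
    · have h1 : Vd Q x₀ y σ := ⟨hσ, h.1⟩
      rw [Tq_pos x (h1.nbc hv) h.2, Tq_pos x h1 h.2, zc_nbc hbit h1 hv]
    · have h1 : ∀ c : Q.Cover x₀, Tq Q x₀ bit k x (c, σ) = 0 := fun c =>
        if_neg fun h' => h ⟨h'.1.2, h'.2⟩
      rw [h1, h1]
  obtain ⟨c, A⟩ := e
  by_cases hA : Vd Q x₀ c A
  · by_cases hk : A.card = k + 1
    · rw [Tq_pos _ (e := (c, A)) hA hk,
        ← zc_inv (bit := bit) (fun y => cbC Q x₀ (Tq Q x₀ bit k x) (y, A))
          (fun _ hy _ hv => cbC_nbc hc hy hv) hA]
      have he := zc_cell hbit (e := (c, A)) hA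
      set e' := zc Q x₀ bit (c, A) with he'
      have he2 : e'.2 = A := rfl
      rw [show (zc Q x₀ bit (c, A)).1 = e'.1 from rfl] at *
      have he3 : e' ∈ Cell Q x₀ bit (k + 1) := by
        have h0 : (c, A).2.card = k + 1 := hk
        rwa [h0] at he
      have h2 : dT x = fun L => lin x (bdl L) := funext fun L => dT_eq x L
      have h3 : lin (fun L => lin x (bdl L)) (TT Q x₀ e') = lin x (BL (TT Q x₀ e')) := lin_lin
      have hv' : Vd Q x₀ e'.1 A := ⟨he3.1, he3.2.1⟩
      rw [h2, h3, BL_TT he3, if_neg (Nat.succ_ne_zero k), ← lin_lin, lin_bdDQ, he2,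
        cbC_pos _ (e := (e'.1, A)) hv']
      refine sum_congr rfl fun v hv => ?_
      have h5 : (A.erase v).card = k := by
        rw [card_erase_of_mem hv, hk]
        rfl
      have h6 : (e'.1, A.erase v) ∈ Cell Q x₀ bit k := ⟨(hv'.sub (erase_subset v A)).1,
        (hv'.sub (erase_subset v A)).2, h5, fun u hu => he3.2.2.2 u (mem_of_mem_erase hu)⟩
      have h7 : (Q.nbc x₀ v e'.1, A.erase v) ∈ Cell Q x₀ bit k := by
        refine ⟨((hv'.nbc hv).sub (erase_subset v A)).1, (hv'.sub (erase_subset v A)).2, h5,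
          fun u hu => ?_⟩
        obtain ⟨h8, h9⟩ := mem_erase.1 hu
        show bit (Q.proj x₀ (Q.nbc x₀ v e'.1)) u = 0
        rw [hv'.bt hbit hv, if_neg h8, add_zero]
        exact he3.2.2.2 u h9
      rw [Tq_cell x h6, Tq_cell x h7]
    · have h1 : Tq Q x₀ bit (k + 1) (dT x) (c, A) = 0 := if_neg fun h => hk h.2
      rw [h1, cbC_pos _ (e := (c, A)) hA]
      refine sum_eq_zero fun v hv => ?_
      have h3 : ∀ y : Q.Cover x₀, Tq Q x₀ bit k x (y, A.erase v) = 0 := fun y => if_neg (by
        rintro ⟨-, h4⟩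
        apply hk
        have hv' : v ∈ A := hv
        have h5 : (A.erase v).card = k := h4
        rw [card_erase_of_mem hv'] at h5
        have h6 : 0 < A.card := card_pos.2 ⟨v, hv'⟩
        omega)
      show Tq Q x₀ bit k x (c, A.erase v) + Tq Q x₀ bit k x (Q.nbc x₀ v c, A.erase v) = 0
      rw [h3, h3, add_zero]
  · have h1 : Tq Q x₀ bit (k + 1) (dT x) (c, A) = 0 := if_neg fun h => hA h.1
    rw [h1]
    exact cbC_neg _ hA

end Tst

end Pool.Agent.S10

end

section

/-!
# Project S9, block M: effaceability for tuples, extension of cubical cocycles to the tuples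
-/

set_option autoImplicit false
set_option linter.unusedSectionVars false

open Finset

namespace Pool.Agent.S9

open Pool.Agent.H19.Cub Pool.Agent.H77.SX Pool.Agent.H77.SW Pool.Agent.H37.TM Pool.Agent.H37.MA
open Pool.Agent.H4.Singer (RGrp gen exists_lift gen_mul_gen gen_inv gen_comm racg)

variable {V : Type} [DecidableEq V] [Fintype V] {G : SimpleGraph V} {P : Type} [Group P]
  (D : PG G P)

/-! ### the homotopy on the tuples -/

/-- all faces of a tuple have one element less -/
private theorem bdl_len {α : Type} : ∀ (L : List α) (b : List α), bdl L b ≠ 0 →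
    b.length + 1 = L.length
  | [], b, h => absurd rfl h
  | x :: l, b, h => by
    classical
    by_cases h1 : b = l
    · rw [h1]
      rfl
    · have h2 : (bdl l).mapDomain (x :: ·) b ≠ 0 := by
        intro h3
        apply h
        have e : bdl (x :: l) = Finsupp.single l 1 + (bdl l).mapDomain (x :: ·) := rfl
        rw [e, Finsupp.add_apply, h3, Finsupp.single_eq_of_ne h1, add_zero]
      obtain ⟨c, hc, rfl⟩ := Finset.mem_image.1
        (Finsupp.mapDomain_support (Finsupp.mem_support_iff.2 h2))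
      have h3 := bdl_len l c (Finsupp.mem_support_iff.1 hc)
      rw [List.length_cons, List.length_cons, h3]

/-- the tuples of a cell of the augmented complex -/
noncomputable def TTo : Option ((QP D).Cover 1 × Finset V) → (List ((QP D).Cover 1) →₀ ZMod 2)
  | none => Finsupp.single [] 1
  | some e => TT (QP D) 1 e

theorem TTo_len {i : ℕ} {y : NA D} (hy : y ∈ MA D (i + 1)) (L : List ((QP D).Cover 1))
    (h : lin (TTo D) y L ≠ 0) : L.length = i + 1 := by
  classical
  have h1 : lin (TTo D) y ∈ Finsupp.supported (ZMod 2) (ZMod 2)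
      {L : List ((QP D).Cover 1) | L.length = i + 1} := by
    refine lin_mem fun a ha => ?_
    obtain ⟨e, he, rfl⟩ := (Finsupp.mem_supported _ _).1 hy (Finsupp.mem_support_iff.2 ha)
    refine (Finsupp.mem_supported _ _).2 fun L hL => ?_
    show L.length = i + 1
    rw [TT_len D e L (Finsupp.mem_support_iff.1 hL), he.2.2.1]
  exact (Finsupp.mem_supported _ _).1 h1 (Finsupp.mem_support_iff.2 h)

/-- `TTo` is a chain map -/
theorem BL_TTo {i : ℕ} {y : NA D} (hy : y ∈ MA D (i + 1)) :
    BL (lin (TTo D) y) = lin (TTo D) (dA D y) := by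
  classical
  have h1 : BL (lin (TTo D) y) = lin (fun a => BL (TTo D a)) y := map_lin BL
  have h2 : lin (TTo D) (dA D y) = lin (fun a => lin (TTo D) (dA1 D a)) y := lin_lin.symm
  rw [h1, h2]
  refine lin_congr fun a ha => ?_
  obtain ⟨e, he, rfl⟩ := (Finsupp.mem_supported _ _).1 hy (Finsupp.mem_support_iff.2 ha)
  show BL (TT (QP D) 1 e) = _
  rw [BL_TT he]
  by_cases h0 : i = 0
  · have h3 : e.2 = ∅ := card_eq_zero.1 (by rw [he.2.2.1, h0])
    rw [if_pos h0, dA1_empty D h3, lin_single]
    rfl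
  · have h3 : e.2 ≠ ∅ := by
      intro h
      have h4 := he.2.2.1
      rw [h, card_empty] at h4
      exact h0 h4.symm
    have h4 : dA1 D (some e) = (bdD (QP D) 1 e).mapDomain some := if_neg h3
    rw [if_neg h0, h4, lin_map]
    rfl

/-- `TTo` is equivariant -/
theorem TTo_rho {i : ℕ} {y : NA D} (hy : y ∈ MA D (i + 1)) (g : (piP D).ker) :
    lin (TTo D) (rhoA D g y) = (lin (TTo D) y).mapDomain (List.map (g • ·)) := by
  classical
  have h1 : rhoA D g y = y.mapDomain (Option.map fun e => (g • e.1, e.2)) := rfl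
  have h2 : (lin (TTo D) y).mapDomain (List.map (g • ·)) =
      lin (fun a => (TTo D a).mapDomain (List.map (g • ·))) y :=
    map_lin (Finsupp.lmapDomain (ZMod 2) (ZMod 2) (List.map (g • ·)))
  rw [h1, lin_map, h2]
  refine lin_congr fun a ha => ?_
  obtain ⟨e, he, rfl⟩ := (Finsupp.mem_supported _ _).1 hy (Finsupp.mem_support_iff.2 ha)
  exact TT_smul (qp_deck D) he g

/-- **The homotopy on the tuples.** -/
theorem exists_Kt {S : List ((QP D).Cover 1) → NA D}
    (hS1 : ∀ i L, L.length = i + 1 → S L ∈ MA D (i + 1))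
    (hS2 : ∀ (g : (piP D).ker) L, L ≠ [] → S (L.map (g • ·)) = rhoA D g (S L))
    (hS3 : ∀ c, dA D (S [c]) = Finsupp.single none 1)
    (hS4 : ∀ L, 2 ≤ L.length → dA D (S L) = lin S (bdl L)) :
    ∃ Kt : List ((QP D).Cover 1) → (List ((QP D).Cover 1) →₀ ZMod 2),
      (∀ L L', L ≠ [] → Kt L L' ≠ 0 → L'.length = L.length + 1) ∧
      (∀ (g : (piP D).ker) L, L ≠ [] → Kt (L.map (g • ·)) = (Kt L).mapDomain (List.map (g • ·))) ∧
      ∀ L, 2 ≤ L.length → BL (Kt L) =
        Finsupp.single L 1 + lin (TTo D) (S L) + lin Kt (bdl L) := by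
  classical
  let act : MulAction (piP D).ker (List ((QP D).Cover 1)) :=
    { smul := fun g L => L.map (g • ·)
      one_smul := fun L => by
        show L.map ((1 : (piP D).ker) • ·) = L
        simp
      mul_smul := fun g h L => by
        show L.map ((g * h) • ·) = (L.map (h • ·)).map (g • ·)
        rw [List.map_map]
        congr 1
        funext c
        exact mul_smul g h c }
  have hact : ∀ (g : (piP D).ker) (L : List ((QP D).Cover 1)), g • L = L.map (g • ·) :=
    fun _ _ => rfl
  obtain ⟨bd, hbdef⟩ : ∃ bd : List ((QP D).Cover 1) → (List ((QP D).Cover 1) →₀ ZMod 2),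
    ∀ L, bd L = if L.length ≤ 1 then 0 else bdl L := ⟨_, fun _ => rfl⟩
  have hfaces : ∀ L b, bd L b ≠ 0 → b.length + 1 = L.length ∧ 2 ≤ L.length := by
    intro L b h
    rw [hbdef] at h
    by_cases h1 : L.length ≤ 1
    · rw [if_pos h1] at h
      exact absurd rfl h
    · rw [if_neg h1] at h
      exact ⟨bdl_len L b h, by omega⟩
  let ρ : (piP D).ker →* ((List ((QP D).Cover 1) →₀ ZMod 2) →ₗ[ZMod 2]
      (List ((QP D).Cover 1) →₀ ZMod 2)) :=
    { toFun := fun g => Finsupp.lmapDomain (ZMod 2) (ZMod 2) (List.map (g • ·))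
      map_one' := by
        refine LinearMap.ext fun x => ?_
        have h1 : (List.map ((1 : (piP D).ker) • ·) : List ((QP D).Cover 1) → _) = id := by
          funext L
          simp
        show x.mapDomain (List.map ((1 : (piP D).ker) • ·)) = x
        rw [h1, Finsupp.mapDomain_id]
      map_mul' := fun g h => by
        refine LinearMap.ext fun x => ?_
        have h1 : (List.map ((g * h) • ·) : List ((QP D).Cover 1) → _) =
            List.map (g • ·) ∘ List.map (h • ·) := by
          funext L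
          show L.map ((g * h) • ·) = (L.map (h • ·)).map (g • ·)
          rw [List.map_map]
          congr 1
          funext c
          exact mul_smul g h c
        show x.mapDomain (List.map ((g * h) • ·)) =
          (x.mapDomain (List.map (h • ·))).mapDomain (List.map (g • ·))
        rw [h1, Finsupp.mapDomain_comp] }
  have hne : ∀ L : List ((QP D).Cover 1), ∀ i, L.length = i + 1 → L ≠ [] := by
    rintro _ i h rfl
    simp at h
  obtain ⟨H, hH1, hH2, hH3⟩ := lift_free (Γ := (piP D).ker) (A := List ((QP D).Cover 1))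
    (N := List ((QP D).Cover 1) →₀ ZMod 2)
    (fun i => {L | L.length = i + 1})
    (fun i g L (hL : L.length = i + 1) => by
      show (L.map (g • ·)).length = i + 1
      rw [List.length_map]
      exact hL)
    (fun i j L (hi : L.length = i + 1) (hj : L.length = j + 1) => by omega)
    (fun i L (hi : L.length = i + 1) g hg => by
      match L, hi with
      | c :: l, _ =>
        have h1 : g • c :: l.map (g • ·) = c :: l := hg
        exact (qp_deck D).free g c (List.cons.inj h1).1)
    bd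
    (fun i L (hL : L.length = i + 1 + 1) b hb => by
      have := (hfaces L b hb).1
      show b.length = i + 1
      omega)
    (fun L (hL : L.length = 0 + 1) => by rw [hbdef, if_pos (by omega)])
    (fun i g L _ => by
      rw [hact, hbdef, hbdef, List.length_map]
      by_cases h : L.length ≤ 1
      · rw [if_pos h, if_pos h, Finsupp.mapDomain_zero]
      · rw [if_neg h, if_neg h, bdl_map]
        rfl)
    (fun i L (hL : L.length = i + 1) => by
      by_cases h : L.length ≤ 1
      · rw [hbdef L, if_pos h, map_zero]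
      · by_cases h2 : L.length = 2
        · rw [lin_congr (f' := bd) (f := fun _ => 0) (fun c hc => by
            have h3 := hfaces L c hc
            rw [hbdef, if_pos (by omega)])]
          exact lin_fun_zero _
        · rw [lin_congr (f' := bd) (f := bdl) (fun c hc => by
            have h3 := hfaces L c hc
            rw [hbdef, if_neg (by omega)]), hbdef L, if_neg h]
          exact BL_bdl L)
    ρ BL (fun g x => BL_map (g • ·) x)
    (fun i => Finsupp.supported (ZMod 2) (ZMod 2) {L | L.length = i + 1})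
    (fun i g x hx => by
      refine (Finsupp.mem_supported _ _).2 fun b hb => ?_
      obtain ⟨a, ha, rfl⟩ := Finset.mem_image.1 (Finsupp.mapDomain_support hb)
      show (a.map (g • ·)).length = i + 1
      rw [List.length_map]
      exact (Finsupp.mem_supported _ _).1 hx ha)
    (fun i _ x hx hd => by
      refine ⟨x.mapDomain (base (QP D) 1 :: ·), ?_, ?_⟩
      · refine (Finsupp.mem_supported _ _).2 fun b hb => ?_
        obtain ⟨a, ha, rfl⟩ := Finset.mem_image.1 (Finsupp.mapDomain_support hb)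
        have h1 : a.length = i + 1 := (Finsupp.mem_supported _ _).1 hx ha
        show (base (QP D) 1 :: a).length = i + 1 + 1
        rw [List.length_cons, h1]
      · rw [BL_cons, hd, Finsupp.mapDomain_zero, add_zero])
    (fun L => Finsupp.single L 1 + lin (TTo D) (S L))
    (fun i L (hL : L.length = i + 1) => by
      refine Submodule.add_mem _ (Finsupp.single_mem_supported _ _ hL) ?_
      refine (Finsupp.mem_supported _ _).2 fun b hb => ?_
      exact TTo_len D (hS1 i L hL) b (Finsupp.mem_support_iff.1 hb))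
    (fun i g L (hL : L.length = i + 1) => by
      show Finsupp.single (L.map (g • ·)) 1 + lin (TTo D) (S (L.map (g • ·))) =
        (Finsupp.single L 1 + lin (TTo D) (S L)).mapDomain (List.map (g • ·))
      rw [hS2 g L (hne L i hL), TTo_rho D (hS1 i L hL), Finsupp.mapDomain_add,
        Finsupp.mapDomain_single])
    (fun i L (hL : L.length = i + 1) => by
      show BL (Finsupp.single L 1 + lin (TTo D) (S L)) =
        lin (fun L => Finsupp.single L 1 + lin (TTo D) (S L)) (bd L)
      rw [map_add, BL_single, BL_TTo D (hS1 i L hL)]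
      by_cases h : L.length ≤ 1
      · match L, hL, h with
        | [c], _, _ =>
          rw [hbdef, if_pos (by simp), map_zero, hS3, lin_single]
          show Finsupp.single [] 1 + (Finsupp.mapDomain _ 0) + Finsupp.single [] 1 = 0
          rw [Finsupp.mapDomain_zero, add_zero]
          exact chain_add_self _
      · rw [hbdef, if_neg h, hS4 L (by omega), lin_add, lin_lin]
        congr 1
        unfold lin
        rw [Finsupp.linearCombination_apply]
        conv_lhs => rw [← Finsupp.sum_single (bdl L)]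
        refine Finsupp.sum_congr fun c _ => ?_
        rw [Finsupp.smul_single, smul_eq_mul, mul_one])
  refine ⟨H, fun L L' hL h => ?_, fun g L hL => ?_, fun L hL => ?_⟩
  · have h1 : 0 < L.length := List.length_pos_iff.2 hL
    have h2 := hH1 (L.length - 1) L (show L.length = L.length - 1 + 1 by omega)
    have h3 : L'.length = L.length - 1 + 1 + 1 :=
      (Finsupp.mem_supported _ _).1 h2 (Finsupp.mem_support_iff.2 h)
    omega
  · have h1 : 0 < L.length := List.length_pos_iff.2 hL
    exact hH2 (L.length - 1) g L (show L.length = L.length - 1 + 1 by omega)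
  · have h1 := hH3 (L.length - 1) L (show L.length = L.length - 1 + 1 by omega)
    rw [hbdef, if_neg (by omega)] at h1
    exact h1

/-! ### effaceability -/

theorem two_mod {K : Type} [Field K] [CharP K 2] {E : Type} [AddCommGroup E] [Module K E] (y : E) :
    2 • y = 0 := by
  have h1 : ((2 : ℕ) : K) = 0 := CharP.cast_eq_zero K 2
  rw [← Nat.cast_smul_eq_nsmul K, h1, zero_smul]

/-! ### the extension of the cubical cocycles to the tuples -/

theorem prE_zero {E : Type} [AddCommGroup E] [Module (ZMod 2) E] (m : ℕ) (y : NA D) :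
    prE D m (0 : Finset V → RGrp G → E) y = 0 := by
  classical
  unfold prE
  refine (lin_congr (f := fun _ => 0) fun a _ => ?_).trans (lin_fun_zero _)
  cases a with
  | none => rfl
  | some e =>
    show (if e ∈ Cell (QP D) 1 D.b m then (0 : Finset V → RGrp G → E) e.2 (cw D e.1) else 0) = 0
    split_ifs <;> rfl

end Pool.Agent.S9

end

section

/-!
# Project S10, block EA: the number of the active cells (helper77)
-/

set_option autoImplicit false
set_option linter.unusedSectionVars false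

open Finset

namespace Pool.Agent.S10.EA

open Pool.Agent.S9 Pool.Agent.S10

variable {V : Type} [DecidableEq V] [Fintype V] {G : SimpleGraph V} {W : Type} [Group W]

section Clear

variable (R : Rac G W)

open Classical in
/-- the vertex of the cube of `l` at `w` all of whose bits in `l` are `0` -/
noncomputable def clr : List V → W → W
  | [], w => w
  | v :: l, w => clr l (if R.b w v = 0 then w else w * R.s v)

private theorem zmod2 (a : ZMod 2) (h : a ≠ 0) : a = 1 := by
  revert a
  decide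

theorem clr_bit_not {l : List V} {v : V} (hv : v ∉ l) (w : W) : R.b (clr R l w) v = R.b w v := by
  induction l generalizing w with
  | nil => rfl
  | cons u l ih =>
    rw [List.mem_cons, not_or] at hv
    unfold clr
    rw [ih hv.2]
    split_ifs
    · rfl
    · rw [R.b_mul, R.b_s, if_neg (Ne.symm hv.1), add_zero]

theorem clr_bit {l : List V} (hl : l.Nodup) {v : V} (hv : v ∈ l) (w : W) : R.b (clr R l w) v = 0 := by
  induction l generalizing w with
  | nil => exact absurd hv List.not_mem_nil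
  | cons u l ih =>
    unfold clr
    rw [List.nodup_cons] at hl
    by_cases hvl : v ∈ l
    · exact ih hl.2 hvl _
    · have huv : v = u := (List.mem_cons.1 hv).resolve_right hvl
      subst huv
      rw [clr_bit_not R hvl]
      split_ifs with h
      · exact h
      · rw [R.b_mul, R.b_s, if_pos rfl, zmod2 _ h]
        decide

theorem clr_mul {l : List V} {g : W} (hg : ∀ v, R.b g v = 0) (w : W) :
    clr R l (g * w) = g * clr R l w := by
  induction l generalizing w with
  | nil => rfl
  | cons u l ih =>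
    unfold clr
    rw [R.b_mul, hg, zero_add]
    split_ifs
    · exact ih w
    · rw [mul_assoc]
      exact ih _

theorem clr_self {l : List V} {w : W} (hw : ∀ v ∈ l, R.b w v = 0) : clr R l w = w := by
  induction l with
  | nil => rfl
  | cons u l ih =>
    unfold clr
    rw [if_pos (hw u List.mem_cons_self)]
    exact ih fun v hv => hw v (List.mem_cons_of_mem u hv)

theorem clr_s {l : List V} (hl : ∀ u ∈ l, ∀ v ∈ l, u ≠ v → G.Adj u v) {v : V} (hv : v ∈ l) (w : W) :
    clr R l (w * R.s v) = clr R l w := by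
  induction l generalizing w with
  | nil => exact absurd hv List.not_mem_nil
  | cons u l ih =>
    have hl' : ∀ u ∈ l, ∀ v ∈ l, u ≠ v → G.Adj u v := fun a ha b hb =>
      hl a (List.mem_cons_of_mem u ha) b (List.mem_cons_of_mem u hb)
    by_cases huv : u = v
    · subst huv
      unfold clr
      rw [R.b_mul, R.b_s, if_pos rfl]
      by_cases h : R.b w u = 0
      · rw [if_pos h, if_neg (by rw [h]; decide), mul_assoc, R.sq, mul_one]
      · rw [if_neg h, if_pos (by rw [zmod2 _ h]; decide)]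
    · have hvl : v ∈ l := (List.mem_cons.1 hv).resolve_left (Ne.symm huv)
      unfold clr
      rw [R.b_mul, R.b_s, if_neg (Ne.symm huv), add_zero]
      split_ifs
      · exact ih hl' hvl w
      · have h1 : w * R.s v * R.s u = w * R.s u * R.s v := by
          rw [mul_assoc, mul_assoc, R.comm u v (hl u List.mem_cons_self v hv huv)]
        rw [h1]
        exact ih hl' hvl _

theorem clr_inv {α : Type*} {l : List V} {f : W → α} (hf : ∀ v ∈ l, ∀ w, f (w * R.s v) = f w) (w : W) :
    f (clr R l w) = f w := by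
  induction l generalizing w with
  | nil => rfl
  | cons u l ih =>
    unfold clr
    rw [ih fun v hv => hf v (List.mem_cons_of_mem u hv)]
    split_ifs
    · rfl
    · exact hf u List.mem_cons_self w

end Clear

section Shapiro

variable {Φ Γ : Subgroup W} (hle : Γ ≤ Φ) {K : Type} [Field K] (ρ : Γ →* Module.End K K)

/-- the functions on `Φ` which are equivariant under `Γ` -/
def EqF : Submodule K (Φ → K) where
  carrier := {f | ∀ (g : Γ) (x : Φ), f (⟨g, hle g.2⟩ * x) = ρ g (f x)}
  zero_mem' := fun g _ => (map_zero (ρ g)).symm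
  add_mem' := by
    intro f f' h1 h2 g x
    rw [Pi.add_apply, Pi.add_apply, h1, h2, map_add]
  smul_mem' := by
    intro a f h1 g x
    rw [Pi.smul_apply, Pi.smul_apply, h1, map_smul]

theorem finrank_EqF [Γ.FiniteIndex] : FiniteDimensional K (EqF hle ρ) ∧
    Module.finrank K (EqF hle ρ) = Γ.relIndex Φ := by
  classical
  let H : Subgroup Φ := Γ.subgroupOf Φ
  let T := Quotient (QuotientGroup.rightRel H)
  haveI hH : H.FiniteIndex := inferInstance
  haveI : Finite (Φ ⧸ H) := Subgroup.finite_quotient_of_finiteIndex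
  let eT : T ≃ (Φ ⧸ H) := QuotientGroup.quotientRightRelEquivQuotientLeftRel H
  haveI : Finite T := Finite.of_equiv _ eT.symm
  haveI := Fintype.ofFinite T
  let L : EqF hle ρ →ₗ[K] (T → K) :=
    { toFun := fun f t => f.1 t.out
      map_add' := fun f f' => rfl
      map_smul' := fun a f => rfl }
  have hout : ∀ x : Φ, ∃ g : Γ, x = ⟨g, hle g.2⟩ * (Quotient.mk (QuotientGroup.rightRel H) x).out := by
    intro x
    have h1 : (QuotientGroup.rightRel H) x (Quotient.mk (QuotientGroup.rightRel H) x).out :=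
      Quotient.exact (Quotient.out_eq _).symm
    rw [QuotientGroup.rightRel_apply] at h1
    have h2 := H.inv_mem h1
    rw [mul_inv_rev, inv_inv] at h2
    refine ⟨⟨_, h2⟩, ?_⟩
    apply Subtype.ext
    show (x : W) = (x : W) * ((Quotient.mk (QuotientGroup.rightRel H) x).out : W)⁻¹ *
      ((Quotient.mk (QuotientGroup.rightRel H) x).out : W)
    rw [inv_mul_cancel_right]
  have hinj : Function.Injective L := by
    intro f f' h
    apply Subtype.ext
    funext x
    obtain ⟨g, hg⟩ := hout x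
    have h1 : f.1 (Quotient.mk (QuotientGroup.rightRel H) x).out =
        f'.1 (Quotient.mk (QuotientGroup.rightRel H) x).out := congrFun h _
    rw [hg, f.2, f'.2, h1]
  choose γ hγ using hout
  have hsurj : Function.Surjective L := by
    intro h
    refine ⟨⟨fun x => ρ (γ x) (h (Quotient.mk (QuotientGroup.rightRel H) x)), ?_⟩, ?_⟩
    · intro g x
      have h1 : (Quotient.mk (QuotientGroup.rightRel H) (⟨g, hle g.2⟩ * x) : T) =
          Quotient.mk (QuotientGroup.rightRel H) x := by
        apply Quotient.sound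
        show QuotientGroup.rightRel H (⟨g, hle g.2⟩ * x) x
        rw [QuotientGroup.rightRel_apply, mul_inv_rev, mul_inv_cancel_left]
        exact H.inv_mem g.2
      have h2 : γ (⟨g, hle g.2⟩ * x) = g * γ x := by
        have h3 := hγ (⟨g, hle g.2⟩ * x)
        rw [h1] at h3
        have h4 := hγ x
        apply Subtype.ext
        have h5 := congrArg (fun y : Φ => (y : W)) h3
        have h6 := congrArg (fun y : Φ => (y : W)) h4
        simp only [Subgroup.coe_mul] at h5 h6
        have h7 : (g : W) * ((γ x : W) * ((Quotient.mk (QuotientGroup.rightRel H) x).out : W)) =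
            (γ (⟨g, hle g.2⟩ * x) : W) * ((Quotient.mk (QuotientGroup.rightRel H) x).out : W) := by
          rw [← h6]
          exact h5
        rw [← mul_assoc] at h7
        exact (mul_right_cancel h7).symm
      show ρ (γ (⟨g, hle g.2⟩ * x)) (h (Quotient.mk (QuotientGroup.rightRel H) (⟨g, hle g.2⟩ * x))) = _
      rw [h1, h2, map_mul]
      rfl
    · funext t
      show ρ (γ t.out) (h (Quotient.mk (QuotientGroup.rightRel H) t.out)) = h t
      have h1 : (Quotient.mk (QuotientGroup.rightRel H) t.out : T) = t := Quotient.out_eq t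
      have h2 : γ t.out = 1 := by
        have h3 := hγ t.out
        rw [h1] at h3
        have h4 : (⟨γ t.out, hle (γ t.out).2⟩ : Φ) = 1 := mul_eq_right.1 h3.symm
        apply Subtype.ext
        exact congrArg (fun y : Φ => (y : W)) h4
      rw [h1, h2, map_one]
      rfl
  let e : EqF hle ρ ≃ₗ[K] (T → K) := LinearEquiv.ofBijective L ⟨hinj, hsurj⟩
  refine ⟨Module.Finite.equiv e.symm, ?_⟩
  rw [e.finrank_eq, Module.finrank_fintype_fun_eq_card, ← Nat.card_eq_fintype_card, Nat.card_congr eT]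
  rfl

end Shapiro

/-- the number of the active cells of degree `d`, modulo `Γ`: `q` = their number modulo `Φ` -/
theorem finrank_Ca (R : Rac G W) {Φ : Subgroup W} (hΦ : Lev0 R Φ) (act : V → W → Prop) (hact : IsActv R Φ act) (d : ℕ) :
    ∃ q : ℕ, ∀ (K : Type) [Field K] (Γ : Subgroup W) (ρ : Γ →* Module.End K K), Γ ≤ Φ → Γ.FiniteIndex →
      Module.finrank K (Ca R act Γ ρ d) = Γ.relIndex Φ * q := by
  classical
  haveI := hΦ.normal
  haveI := hΦ.fin
  haveI : Finite (W ⧸ Φ) := Subgroup.finite_quotient_of_finiteIndex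
  let P : Finset V → W → Prop := fun A w => G.IsClique (A : Set V) ∧ A.card = d ∧ (∀ v ∈ A, act v w) ∧
    ∀ v ∈ A, R.b w v = 0
  let Ω : Type := {x : Finset V × (W ⧸ Φ) // P x.1 x.2.out}
  haveI : Finite Ω := inferInstance
  haveI := Fintype.ofFinite Ω
  refine ⟨Fintype.card Ω, fun K _ Γ ρ hle hfin => ?_⟩
  haveI := hfin
  have hbit : ∀ g : Γ, ∀ v, R.b (g : W) v = 0 := fun g => hΦ.bits _ (hle g.2)
  have hP : ∀ A (g : Φ) w, P A (g * w) ↔ P A w := by
    intro A g w
    refine and_congr Iff.rfl (and_congr Iff.rfl (and_congr ?_ ?_))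
    · exact forall₂_congr fun v _ => hact.inv v g g.2 w
    · refine forall₂_congr fun v _ => ?_
      rw [R.b_mul, hΦ.bits _ g.2, zero_add]
  have hPc : ∀ A w, P A w ↔ P A (QuotientGroup.mk w : W ⧸ Φ).out := by
    intro A w
    conv_lhs => rw [← wg_out_eq (Γ := Φ) w]
    exact hP A _ _
  have hactc : ∀ (A : Finset V), G.IsClique (A : Set V) → ∀ v ∈ A, ∀ w, act v (clr R A.toList w) ↔ act v w := by
    intro A hA v hv w
    have h1 : ∀ u ∈ A.toList, ∀ w, act v (w * R.s u) = act v w := by
      intro u hu w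
      rw [Finset.mem_toList] at hu
      by_cases huv : u = v
      · subst huv
        exact propext (hact.self u w)
      · exact propext (hact.adj u v (hA (mem_coe.2 hu) (mem_coe.2 hv) huv) w)
    exact (clr_inv R h1 w).to_iff
  obtain ⟨hB1, hB2⟩ := finrank_EqF hle ρ
  let L : Ca R act Γ ρ d →ₗ[K] (Ω → EqF hle ρ) :=
    { toFun := fun c x => ⟨fun φ => c.1 x.1.1 (φ * x.1.2.out), fun g φ => by
        have h1 := c.2.1.2.2 x.1.1 g (φ * x.1.2.out)
        rw [← mul_assoc] at h1
        exact h1⟩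
      map_add' := fun c c' => rfl
      map_smul' := fun a c => rfl }
  have hinj : Function.Injective L := by
    rw [← LinearMap.ker_eq_bot, LinearMap.ker_eq_bot']
    intro c hc
    apply Subtype.ext
    funext A w
    by_contra hne
    have hne' : c.1 A w ≠ 0 := hne
    have h1 := c.2.1.1 A (fun h0 => hne' (by rw [h0]; rfl))
    have h2 : c.1 A (clr R A.toList w) = c.1 A w := by
      refine clr_inv R (f := c.1 A) (fun v hv w => c.2.1.2.1 A v (Finset.mem_toList.1 hv) w) w
    have h3 : P A (clr R A.toList w) := by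
      refine ⟨h1.1, h1.2, fun v hv => ?_, fun v hv => ?_⟩
      · exact (hactc A h1.1 v hv w).2 (c.2.2 A w hne' v hv)
      · exact clr_bit R A.nodup_toList (Finset.mem_toList.2 hv) w
    have h4 := congrFun hc ⟨(A, QuotientGroup.mk (clr R A.toList w)), (hPc A _).1 h3⟩
    have h5 := congrFun (congrArg Subtype.val h4) (wg Φ (clr R A.toList w))
    have h6 : c.1 A ((wg Φ (clr R A.toList w) : W) * (QuotientGroup.mk (clr R A.toList w) : W ⧸ Φ).out) = 0 := h5
    rw [wg_out_eq, h2] at h6
    exact hne' h6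
  have hsurj : Function.Surjective L := by
    intro h
    let val : Finset V → W → K := fun A w =>
      if hp : P A (QuotientGroup.mk w : W ⧸ Φ).out then (h ⟨(A, QuotientGroup.mk w), hp⟩).1 (wg Φ w) else 0
    have hval : ∀ A (g : Γ) w, val A (g * w) = ρ g (val A w) := by
      intro A g w
      have hmk : (QuotientGroup.mk ((g : W) * w) : W ⧸ Φ) = QuotientGroup.mk w :=
        mk_coe_mul (Γ := Φ) ⟨g, hle g.2⟩ w
      have hwg : wg Φ ((g : W) * w) = ⟨g, hle g.2⟩ * wg Φ w := wg_mul (Γ := Φ) ⟨g, hle g.2⟩ w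
      by_cases hp : P A (QuotientGroup.mk w : W ⧸ Φ).out
      · have hp' : P A (QuotientGroup.mk ((g : W) * w) : W ⧸ Φ).out := by rw [hmk]; exact hp
        have hx : (⟨(A, QuotientGroup.mk ((g : W) * w)), hp'⟩ : Ω) = ⟨(A, QuotientGroup.mk w), hp⟩ :=
          Subtype.ext (Prod.ext rfl hmk)
        have e1 : val A ((g : W) * w) = (h ⟨(A, QuotientGroup.mk ((g : W) * w)), hp'⟩).1 (wg Φ ((g : W) * w)) :=
          dif_pos hp'
        have e2 : val A w = (h ⟨(A, QuotientGroup.mk w), hp⟩).1 (wg Φ w) := dif_pos hp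
        rw [e1, e2, hx, hwg]
        exact (h ⟨(A, QuotientGroup.mk w), hp⟩).2 g (wg Φ w)
      · have hp' : ¬ P A (QuotientGroup.mk ((g : W) * w) : W ⧸ Φ).out := by rw [hmk]; exact hp
        have e1 : val A ((g : W) * w) = 0 := dif_neg hp'
        have e2 : val A w = 0 := dif_neg hp
        rw [e1, e2, map_zero]
    have hne : ∀ A w, val A w ≠ 0 → P A w := by
      intro A w hv
      by_contra hp
      exact hv (dif_neg fun h' => hp ((hPc A w).2 h'))
    let c : Finset V → W → K := fun A w => val A (clr R A.toList w)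
    have hc : c ∈ Ca R act Γ ρ d := by
      refine ⟨⟨fun A hA => ?_, fun A v hv w => ?_, fun A g w => ?_⟩, fun A w hA v hv => ?_⟩
      · obtain ⟨w, hw⟩ := Function.ne_iff.1 hA
        have h1 := hne A _ hw
        exact ⟨h1.1, h1.2.1⟩
      · show val A (clr R A.toList (w * R.s v)) = val A (clr R A.toList w)
        by_cases hA : G.IsClique (A : Set V)
        · rw [clr_s R (fun a ha b hb hab => hA (mem_coe.2 (Finset.mem_toList.1 ha))
            (mem_coe.2 (Finset.mem_toList.1 hb)) hab) (Finset.mem_toList.2 hv)]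
        · have h1 : ∀ w, val A w = 0 := fun w => by
            by_contra h0
            exact hA (hne A w h0).1
          rw [h1, h1]
      · show val A (clr R A.toList ((g : W) * w)) = ρ g (val A (clr R A.toList w))
        rw [clr_mul R (hbit g), hval]
      · have h1 := hne A _ hA
        exact (hactc A h1.1 v hv w).1 (h1.2.2.1 v hv)
    refine ⟨⟨c, hc⟩, ?_⟩
    funext x
    apply Subtype.ext
    funext φ
    show val x.1.1 (clr R x.1.1.toList ((φ : W) * x.1.2.out)) = (h x).1 φ
    have hx := x.2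
    rw [clr_mul R (hΦ.bits _ φ.2), clr_self R (fun v hv => hx.2.2.2 v (Finset.mem_toList.1 hv))]
    have hmk : (QuotientGroup.mk ((φ : W) * x.1.2.out) : W ⧸ Φ) = x.1.2 := by
      rw [mk_coe_mul, QuotientGroup.out_eq']
    have hwg : wg Φ ((φ : W) * x.1.2.out) = φ := by
      rw [wg_mul, wg_out, mul_one]
    have hp : P x.1.1 (QuotientGroup.mk ((φ : W) * x.1.2.out) : W ⧸ Φ).out := by
      rw [hmk]
      exact hx
    have e1 : val x.1.1 ((φ : W) * x.1.2.out) =
        (h ⟨(x.1.1, QuotientGroup.mk ((φ : W) * x.1.2.out)), hp⟩).1 (wg Φ ((φ : W) * x.1.2.out)) := dif_pos hp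
    have hxx : (⟨(x.1.1, QuotientGroup.mk ((φ : W) * x.1.2.out)), hp⟩ : Ω) = x :=
      Subtype.ext (Prod.ext rfl hmk)
    rw [e1, hxx, hwg]
  let e : Ca R act Γ ρ d ≃ₗ[K] (Ω → EqF hle ρ) := LinearEquiv.ofBijective L ⟨hinj, hsurj⟩
  rw [e.finrank_eq, Module.finrank_pi_fintype, sum_const, card_univ, smul_eq_mul, hB2, mul_comm]

theorem finite_Ca (R : Rac G W) {Γ : Subgroup W} [Γ.FiniteIndex] (act : V → W → Prop) {K : Type} [Field K] {N : Type}
    [AddCommGroup N] [Module K N] [FiniteDimensional K N] (ρ : Γ →* Module.End K N) (d : ℕ) :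
    FiniteDimensional K (Ca R act Γ ρ d) := by
  classical
  haveI : Finite (W ⧸ Γ) := Subgroup.finite_quotient_of_finiteIndex
  let T := Quotient (QuotientGroup.rightRel Γ)
  haveI : Finite T := Finite.of_equiv _ (QuotientGroup.quotientRightRelEquivQuotientLeftRel Γ).symm
  let L : Ca R act Γ ρ d →ₗ[K] (Finset V → T → N) :=
    { toFun := fun c A t => c.1 A t.out
      map_add' := fun c c' => rfl
      map_smul' := fun a c => rfl }
  refine FiniteDimensional.of_injective L ?_
  intro c c' h
  apply Subtype.ext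
  funext A w
  have h1 : (QuotientGroup.rightRel Γ) w (Quotient.mk (QuotientGroup.rightRel Γ) w).out :=
    Quotient.exact (Quotient.out_eq _).symm
  rw [QuotientGroup.rightRel_apply] at h1
  have h2 := Γ.inv_mem h1
  rw [mul_inv_rev, inv_inv] at h2
  have h3 : w = ((⟨_, h2⟩ : Γ) : W) * (Quotient.mk (QuotientGroup.rightRel Γ) w).out := by
    show w = w * ((Quotient.mk (QuotientGroup.rightRel Γ) w).out)⁻¹ * (Quotient.mk (QuotientGroup.rightRel Γ) w).out
    rw [inv_mul_cancel_right]
  have h4 : c.1 A (Quotient.mk (QuotientGroup.rightRel Γ) w).out =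
      c'.1 A (Quotient.mk (QuotientGroup.rightRel Γ) w).out := congrFun (congrFun h A) _
  rw [h3, c.2.1.2.2, c'.2.1.2.2, h4]

end Pool.Agent.S10.EA

end
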