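import Pool.Agent.H71.TSG.M41
import Pool.Agent.H71.TSG.M43
import Pool.Agent.H71.TSG.M45
import Pool.Agent.H71.TSG.M50

/-! The parts of this file: S10.EffR, S10.Pair. -/

section

/-!
# Project S10, block M: effaceability for tuples, extension of cubical cocycles to the tuples

`SD`: an equivariant chain map from the tuples to the cubes of the universal cover. `HD`: the homotopy.
-/

set_option autoImplicit false
set_option linter.unusedSectionVars false

open Finset

namespace Pool.Agent.S10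

open Pool.Agent.H19.Cub Pool.Agent.H77.SX Pool.Agent.H37.TM Pool.Agent.S9

variable {V X Γ Φ : Type} [DecidableEq V] [Fintype V] [Group Γ] [Group Φ] {Q : CubeComplex V X}
  {x₀ : X} [MulAction Γ (Q.Cover x₀)] {bit : X → V → ZMod 2}

/-- an equivariant chain map from the tuples to the cubes -/
structure SD (Γ : Type) [Group Γ] (Q : CubeComplex V X) (x₀ : X) [MulAction Γ (Q.Cover x₀)]
    (bit : X → V → ZMod 2) (S : List (Q.Cover x₀) → NQ Q x₀) : Prop where
  mem : ∀ i L, L.length = i + 1 → S L ∈ MQ Q x₀ bit (i + 1)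
  smul : ∀ (g : Γ) L, L ≠ [] → S (L.map (g • ·)) =
    (S L).mapDomain (Option.map fun e => (g • e.1, e.2))
  one : ∀ c, dQ Q x₀ (S [c]) = Finsupp.single none 1
  bd : ∀ L, 2 ≤ L.length → dQ Q x₀ (S L) = lin S (bdl L)

/-- the homotopy on the cubes -/
structure HD (Γ : Type) [Group Γ] (Q : CubeComplex V X) (x₀ : X) [MulAction Γ (Q.Cover x₀)]
    (bit : X → V → ZMod 2) (S : List (Q.Cover x₀) → NQ Q x₀)
    (H : Q.Cover x₀ × Finset V → NQ Q x₀) : Prop where
  mem : ∀ i, ∀ e ∈ Cell Q x₀ bit i, H e ∈ MQ Q x₀ bit (i + 2)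
  smul : ∀ i (g : Γ), ∀ e ∈ Cell Q x₀ bit i, H (g • e.1, e.2) =
    (H e).mapDomain (Option.map fun e => (g • e.1, e.2))
  bd : ∀ i, ∀ e ∈ Cell Q x₀ bit i, dQ Q x₀ (H e) =
    Finsupp.single (some e) 1 + lin S (TT Q x₀ e) + lin H (bdD Q x₀ e)

/-! ### the pairing of a cubical cochain with the chains -/

section Pr

variable {K : Type} [Field K] {E : Type} [AddCommGroup E] [Module K E] [Module (ZMod 2) E]

open Classical in
/-- the value of a cubical cochain on a cell -/
noncomputable def prv (Q : CubeComplex V X) (x₀ : X) (bit : X → V → ZMod 2) (m : ℕ)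
    (c : Q.Cover x₀ × Finset V → E) : Option (Q.Cover x₀ × Finset V) → E
  | none => 0
  | some e => if e ∈ Cell Q x₀ bit m then c e else 0

/-- the pairing of a cubical cochain with the chains -/
noncomputable def prE (Q : CubeComplex V X) (x₀ : X) (bit : X → V → ZMod 2) (m : ℕ)
    (c : Q.Cover x₀ × Finset V → E) : NQ Q x₀ →ₗ[ZMod 2] E := lin (prv Q x₀ bit m c)

private theorem prv_some {m : ℕ} (c : Q.Cover x₀ × Finset V → E) {e : Q.Cover x₀ × Finset V}
    (he : e ∈ Cell Q x₀ bit m) : prv Q x₀ bit m c (some e) = c e := if_pos he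

theorem prE_single {m : ℕ} (c : Q.Cover x₀ × Finset V → E) {e : Q.Cover x₀ × Finset V}
    (he : e ∈ Cell Q x₀ bit m) : prE Q x₀ bit m c (Finsupp.single (some e) 1) = c e := by
  unfold prE
  rw [lin_single, prv_some c he]

theorem prE_rho (hΓ : IsDeck Γ Q x₀) {m : ℕ} {c : Q.Cover x₀ × Finset V → E}
    {θ : Γ →* Φ} {ρ : Φ →* Module.End K E}
    (hc : ∀ (g : Γ) (e : Q.Cover x₀ × Finset V), c (g • e.1, e.2) = ρ (θ g) (c e)) (g : Γ)
    (y : NQ Q x₀) :
    prE Q x₀ bit m c (y.mapDomain (Option.map fun e => (g • e.1, e.2))) =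
      ρ (θ g) (prE Q x₀ bit m c y) := by
  classical
  unfold prE
  rw [lin_map]
  have h2 : (fun a => prv Q x₀ bit m c (Option.map (fun e => (g • e.1, e.2)) a)) =
      fun a => zl (ρ (θ g)) (prv Q x₀ bit m c a) := by
    funext a
    cases a with
    | none => exact (map_zero _).symm
    | some e =>
      show (if (g • e.1, e.2) ∈ Cell Q x₀ bit m then c (g • e.1, e.2) else 0) =
        ρ (θ g) (if e ∈ Cell Q x₀ bit m then c e else 0)
      have h1 : (g • e.1, e.2) ∈ Cell Q x₀ bit m ↔ e ∈ Cell Q x₀ bit m := Pool.Agent.H37.TM.cell_smul hΓ g e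
      by_cases h : e ∈ Cell Q x₀ bit m
      · rw [if_pos h, if_pos (h1.2 h)]
        exact hc _ _
      · rw [if_neg h, if_neg (fun h' => h (h1.1 h')), map_zero]
  rw [h2, ← map_lin]
  rfl

theorem face1Q {m : ℕ} {e : Q.Cover x₀ × Finset V} (he : e ∈ Cell Q x₀ bit (m + 1)) {v : V}
    (hv : v ∈ e.2) : (e.1, e.2.erase v) ∈ Cell Q x₀ bit m := by
  have h1 : Vd Q x₀ e.1 e.2 := ⟨he.1, he.2.1⟩
  have h2 := h1.sub (erase_subset v e.2)
  refine ⟨h2.1, h2.2, ?_, fun u hu => he.2.2.2 u (mem_of_mem_erase hu)⟩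
  rw [card_erase_of_mem hv, he.2.2.1]
  rfl

theorem face2Q (hbit : IsBit Q bit) {m : ℕ} {e : Q.Cover x₀ × Finset V}
    (he : e ∈ Cell Q x₀ bit (m + 1)) {v : V} (hv : v ∈ e.2) :
    (Q.nbc x₀ v e.1, e.2.erase v) ∈ Cell Q x₀ bit m := by
  have h1 : Vd Q x₀ e.1 e.2 := ⟨he.1, he.2.1⟩
  have h2 := (h1.nbc hv).sub (erase_subset v e.2)
  refine ⟨h2.1, h2.2, ?_, fun u hu => ?_⟩
  · rw [card_erase_of_mem hv, he.2.2.1]
    rfl
  · obtain ⟨h5, h6⟩ := mem_erase.1 hu
    show bit (Q.proj x₀ (Q.nbc x₀ v e.1)) u = 0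
    rw [h1.bt hbit hv, if_neg h5, add_zero]
    exact he.2.2.2 u h6

/-- the pairing and the boundary -/
theorem prE_dQ (hbit : IsBit Q bit) (m : ℕ) (c : Q.Cover x₀ × Finset V → E) {y : NQ Q x₀}
    (hy : y ∈ MQ Q x₀ bit (m + 2)) :
    prE Q x₀ bit m c (dQ Q x₀ y) = prE Q x₀ bit (m + 1) (cbC Q x₀ c) y := by
  classical
  have h1 : prE Q x₀ bit m c (dQ Q x₀ y) = lin (fun a => prE Q x₀ bit m c (dQ1 Q x₀ a)) y :=
    map_lin (prE Q x₀ bit m c) (f := dQ1 Q x₀) (x := y)
  rw [h1]
  refine lin_congr fun a ha => ?_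
  obtain ⟨e, he, rfl⟩ := (Finsupp.mem_supported _ _).1 hy (Finsupp.mem_support_iff.2 ha)
  have h3 : e.2 ≠ ∅ := by
    intro h
    have h4 := he.2.2.1
    rw [h, card_empty] at h4
    omega
  have h4 : dQ1 Q x₀ (some e) = (bdD Q x₀ e).mapDomain some := if_neg h3
  rw [h4]
  unfold prE
  rw [lin_map, lin_bdDQ, prv_some _ he, cbC_pos c ⟨he.1, he.2.1⟩]
  refine sum_congr rfl fun v hv => ?_
  rw [prv_some c (face1Q he hv), prv_some c (face2Q hbit he hv)]

end Pr

/-! ### the homotopy on the tuples -/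

/-- all faces of a tuple have one element less -/
private theorem bdl_len_er {α : Type} : ∀ (L : List α) (b : List α), bdl L b ≠ 0 →
    b.length + 1 = L.length
  | [], b, h => absurd rfl h
  | x :: l, b, h => by
    classical
    by_cases h1 : b = l
    · rw [h1]
      rfl
    · have h2 : (bdl l).mapDomain (x :: ·) b ≠ 0 := by
        intro h3
        apply h
        have e : bdl (x :: l) = Finsupp.single l 1 + (bdl l).mapDomain (x :: ·) := rfl
        rw [e, Finsupp.add_apply, h3, Finsupp.single_eq_of_ne h1, add_zero]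
      obtain ⟨c, hc, rfl⟩ := Finset.mem_image.1
        (Finsupp.mapDomain_support (Finsupp.mem_support_iff.2 h2))
      have h3 := bdl_len_er l c (Finsupp.mem_support_iff.1 hc)
      rw [List.length_cons, List.length_cons, h3]

private theorem Tm_len : ∀ (k : ℕ) (c : Q.Cover x₀) (σ : Finset V)
    (L : List (Q.Cover x₀)), Tm Q x₀ k c σ L ≠ 0 → L.length = k + 1
  | 0, c, σ, L, h => by
    classical
    have h1 : Tm Q x₀ 0 c σ = Finsupp.single [c] 1 := rfl
    rw [h1] at h
    by_cases h2 : L = [c]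
    · rw [h2]
      rfl
    · exact absurd (Finsupp.single_eq_of_ne h2) h
  | k + 1, c, σ, L, h => by
    classical
    have h1 : Tm Q x₀ (k + 1) c σ =
      ∑ v ∈ σ, (Tm Q x₀ k (Q.nbc x₀ v c) (σ.erase v)).mapDomain (c :: ·) := rfl
    rw [h1, Finsupp.finsetSum_apply] at h
    obtain ⟨v, _, hvL⟩ := exists_ne_zero_of_sum_ne_zero h
    obtain ⟨L', hL', rfl⟩ := Finset.mem_image.1
      (Finsupp.mapDomain_support (Finsupp.mem_support_iff.2 hvL))
    rw [List.length_cons, Tm_len k _ _ L' (Finsupp.mem_support_iff.1 hL')]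

theorem TT_lenQ (e : Q.Cover x₀ × Finset V) (L : List (Q.Cover x₀))
    (h : TT Q x₀ e L ≠ 0) : L.length = e.2.card + 1 := Tm_len _ _ _ L h

/-- the tuples of a cell of the augmented complex -/
noncomputable def TTo (Q : CubeComplex V X) (x₀ : X) :
    Option (Q.Cover x₀ × Finset V) → (List (Q.Cover x₀) →₀ ZMod 2)
  | none => Finsupp.single [] 1
  | some e => TT Q x₀ e

theorem TTo_len {i : ℕ} {y : NQ Q x₀} (hy : y ∈ MQ Q x₀ bit (i + 1)) (L : List (Q.Cover x₀))
    (h : lin (TTo Q x₀) y L ≠ 0) : L.length = i + 1 := by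
  classical
  have h1 : lin (TTo Q x₀) y ∈ Finsupp.supported (ZMod 2) (ZMod 2)
      {L : List (Q.Cover x₀) | L.length = i + 1} := by
    refine lin_mem fun a ha => ?_
    obtain ⟨e, he, rfl⟩ := (Finsupp.mem_supported _ _).1 hy (Finsupp.mem_support_iff.2 ha)
    refine (Finsupp.mem_supported _ _).2 fun L hL => ?_
    show L.length = i + 1
    rw [TT_lenQ e L (Finsupp.mem_support_iff.1 hL), he.2.2.1]
  exact (Finsupp.mem_supported _ _).1 h1 (Finsupp.mem_support_iff.2 h)

/-- `TTo` is a chain map -/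
theorem BL_TTo {i : ℕ} {y : NQ Q x₀} (hy : y ∈ MQ Q x₀ bit (i + 1)) :
    BL (lin (TTo Q x₀) y) = lin (TTo Q x₀) (dQ Q x₀ y) := by
  classical
  have h1 : BL (lin (TTo Q x₀) y) = lin (fun a => BL (TTo Q x₀ a)) y := map_lin BL
  have h2 : lin (TTo Q x₀) (dQ Q x₀ y) = lin (fun a => lin (TTo Q x₀) (dQ1 Q x₀ a)) y :=
    lin_lin.symm
  rw [h1, h2]
  refine lin_congr fun a ha => ?_
  obtain ⟨e, he, rfl⟩ := (Finsupp.mem_supported _ _).1 hy (Finsupp.mem_support_iff.2 ha)
  show BL (TT Q x₀ e) = _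
  rw [BL_TT he]
  by_cases h0 : i = 0
  · have h3 : e.2 = ∅ := card_eq_zero.1 (by rw [he.2.2.1, h0])
    rw [if_pos h0, dQ1_empty Q x₀ h3, lin_single]
    rfl
  · have h3 : e.2 ≠ ∅ := by
      intro h
      have h4 := he.2.2.1
      rw [h, card_empty] at h4
      exact h0 h4.symm
    have h4 : dQ1 Q x₀ (some e) = (bdD Q x₀ e).mapDomain some := if_neg h3
    rw [if_neg h0, h4, lin_map]
    rfl

/-- `TTo` is equivariant -/
theorem TTo_rho (hΓ : IsDeck Γ Q x₀) {i : ℕ} {y : NQ Q x₀} (hy : y ∈ MQ Q x₀ bit (i + 1)) (g : Γ) :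
    lin (TTo Q x₀) (y.mapDomain (Option.map fun e => (g • e.1, e.2))) =
      (lin (TTo Q x₀) y).mapDomain (List.map (g • ·)) := by
  classical
  have h2 : (lin (TTo Q x₀) y).mapDomain (List.map (g • ·)) =
      lin (fun a => (TTo Q x₀ a).mapDomain (List.map (g • ·))) y :=
    map_lin (Finsupp.lmapDomain (ZMod 2) (ZMod 2) (List.map (g • ·)))
  rw [lin_map, h2]
  refine lin_congr fun a ha => ?_
  obtain ⟨e, he, rfl⟩ := (Finsupp.mem_supported _ _).1 hy (Finsupp.mem_support_iff.2 ha)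
  exact TT_smul hΓ he g

/-- **The homotopy on the tuples.** -/
theorem exists_Kt (hΓ : IsDeck Γ Q x₀) {S : List (Q.Cover x₀) → NQ Q x₀} (hS : SD Γ Q x₀ bit S) :
    ∃ Kt : List (Q.Cover x₀) → (List (Q.Cover x₀) →₀ ZMod 2),
      (∀ L L', L ≠ [] → Kt L L' ≠ 0 → L'.length = L.length + 1) ∧
      (∀ (g : Γ) L, L ≠ [] → Kt (L.map (g • ·)) = (Kt L).mapDomain (List.map (g • ·))) ∧
      ∀ L, 2 ≤ L.length → BL (Kt L) =
        Finsupp.single L 1 + lin (TTo Q x₀) (S L) + lin Kt (bdl L) := by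
  classical
  obtain ⟨hS1, hS2, hS3, hS4⟩ := hS
  let act : MulAction Γ (List (Q.Cover x₀)) :=
    { smul := fun g L => L.map (g • ·)
      one_smul := fun L => by
        show L.map ((1 : Γ) • ·) = L
        simp
      mul_smul := fun g h L => by
        show L.map ((g * h) • ·) = (L.map (h • ·)).map (g • ·)
        rw [List.map_map]
        congr 1
        funext c
        exact mul_smul g h c }
  have hact : ∀ (g : Γ) (L : List (Q.Cover x₀)), g • L = L.map (g • ·) :=
    fun _ _ => rfl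
  obtain ⟨bd, hbdef⟩ : ∃ bd : List (Q.Cover x₀) → (List (Q.Cover x₀) →₀ ZMod 2),
    ∀ L, bd L = if L.length ≤ 1 then 0 else bdl L := ⟨_, fun _ => rfl⟩
  have hfaces : ∀ L b, bd L b ≠ 0 → b.length + 1 = L.length ∧ 2 ≤ L.length := by
    intro L b h
    rw [hbdef] at h
    by_cases h1 : L.length ≤ 1
    · rw [if_pos h1] at h
      exact absurd rfl h
    · rw [if_neg h1] at h
      exact ⟨bdl_len_er L b h, by omega⟩
  let ρ : Γ →* ((List (Q.Cover x₀) →₀ ZMod 2) →ₗ[ZMod 2]
      (List (Q.Cover x₀) →₀ ZMod 2)) :=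
    { toFun := fun g => Finsupp.lmapDomain (ZMod 2) (ZMod 2) (List.map (g • ·))
      map_one' := by
        refine LinearMap.ext fun x => ?_
        have h1 : (List.map ((1 : Γ) • ·) : List (Q.Cover x₀) → _) = id := by
          funext L
          simp
        show x.mapDomain (List.map ((1 : Γ) • ·)) = x
        rw [h1, Finsupp.mapDomain_id]
      map_mul' := fun g h => by
        refine LinearMap.ext fun x => ?_
        have h1 : (List.map ((g * h) • ·) : List (Q.Cover x₀) → _) =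
            List.map (g • ·) ∘ List.map (h • ·) := by
          funext L
          show L.map ((g * h) • ·) = (L.map (h • ·)).map (g • ·)
          rw [List.map_map]
          congr 1
          funext c
          exact mul_smul g h c
        show x.mapDomain (List.map ((g * h) • ·)) =
          (x.mapDomain (List.map (h • ·))).mapDomain (List.map (g • ·))
        rw [h1, Finsupp.mapDomain_comp] }
  have hne : ∀ L : List (Q.Cover x₀), ∀ i, L.length = i + 1 → L ≠ [] := by
    rintro _ i h rfl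
    simp at h
  obtain ⟨H, hH1, hH2, hH3⟩ := lift_free (Γ := Γ) (A := List (Q.Cover x₀))
    (N := List (Q.Cover x₀) →₀ ZMod 2)
    (fun i => {L | L.length = i + 1})
    (fun i g L (hL : L.length = i + 1) => by
      show (L.map (g • ·)).length = i + 1
      rw [List.length_map]
      exact hL)
    (fun i j L (hi : L.length = i + 1) (hj : L.length = j + 1) => by omega)
    (fun i L (hi : L.length = i + 1) g hg => by
      match L, hi with
      | c :: l, _ =>
        have h1 : g • c :: l.map (g • ·) = c :: l := hg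
        exact hΓ.free g c (List.cons.inj h1).1)
    bd
    (fun i L (hL : L.length = i + 1 + 1) b hb => by
      have := (hfaces L b hb).1
      show b.length = i + 1
      omega)
    (fun L (hL : L.length = 0 + 1) => by rw [hbdef, if_pos (by omega)])
    (fun i g L _ => by
      rw [hact, hbdef, hbdef, List.length_map]
      by_cases h : L.length ≤ 1
      · rw [if_pos h, if_pos h, Finsupp.mapDomain_zero]
      · rw [if_neg h, if_neg h, bdl_map]
        rfl)
    (fun i L (hL : L.length = i + 1) => by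
      by_cases h : L.length ≤ 1
      · rw [hbdef L, if_pos h, map_zero]
      · by_cases h2 : L.length = 2
        · rw [lin_congr (f' := bd) (f := fun _ => 0) (fun c hc => by
            have h3 := hfaces L c hc
            rw [hbdef, if_pos (by omega)])]
          exact lin_fun_zero _
        · rw [lin_congr (f' := bd) (f := bdl) (fun c hc => by
            have h3 := hfaces L c hc
            rw [hbdef, if_neg (by omega)]), hbdef L, if_neg h]
          exact BL_bdl L)
    ρ BL (fun g x => BL_map (g • ·) x)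
    (fun i => Finsupp.supported (ZMod 2) (ZMod 2) {L | L.length = i + 1})
    (fun i g x hx => by
      refine (Finsupp.mem_supported _ _).2 fun b hb => ?_
      obtain ⟨a, ha, rfl⟩ := Finset.mem_image.1 (Finsupp.mapDomain_support hb)
      show (a.map (g • ·)).length = i + 1
      rw [List.length_map]
      exact (Finsupp.mem_supported _ _).1 hx ha)
    (fun i _ x hx hd => by
      refine ⟨x.mapDomain (base Q x₀ :: ·), ?_, ?_⟩
      · refine (Finsupp.mem_supported _ _).2 fun b hb => ?_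
        obtain ⟨a, ha, rfl⟩ := Finset.mem_image.1 (Finsupp.mapDomain_support hb)
        have h1 : a.length = i + 1 := (Finsupp.mem_supported _ _).1 hx ha
        show (base Q x₀ :: a).length = i + 1 + 1
        rw [List.length_cons, h1]
      · rw [BL_cons, hd, Finsupp.mapDomain_zero, add_zero])
    (fun L => Finsupp.single L 1 + lin (TTo Q x₀) (S L))
    (fun i L (hL : L.length = i + 1) => by
      refine Submodule.add_mem _ (Finsupp.single_mem_supported _ _ hL) ?_
      refine (Finsupp.mem_supported _ _).2 fun b hb => ?_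
      exact TTo_len (hS1 i L hL) b (Finsupp.mem_support_iff.1 hb))
    (fun i g L (hL : L.length = i + 1) => by
      show Finsupp.single (L.map (g • ·)) 1 + lin (TTo Q x₀) (S (L.map (g • ·))) =
        (Finsupp.single L 1 + lin (TTo Q x₀) (S L)).mapDomain (List.map (g • ·))
      rw [hS2 g L (hne L i hL), TTo_rho hΓ (hS1 i L hL), Finsupp.mapDomain_add,
        Finsupp.mapDomain_single])
    (fun i L (hL : L.length = i + 1) => by
      show BL (Finsupp.single L 1 + lin (TTo Q x₀) (S L)) =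
        lin (fun L => Finsupp.single L 1 + lin (TTo Q x₀) (S L)) (bd L)
      rw [map_add, BL_single, BL_TTo (hS1 i L hL)]
      by_cases h : L.length ≤ 1
      · match L, hL, h with
        | [c], _, _ =>
          rw [hbdef, if_pos (by simp), map_zero, hS3, lin_single]
          show Finsupp.single [] 1 + (Finsupp.mapDomain _ 0) + Finsupp.single [] 1 = 0
          rw [Finsupp.mapDomain_zero, add_zero]
          exact chain_add_self _
      · rw [hbdef, if_neg h, hS4 L (by omega), lin_add, lin_lin]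
        congr 1
        unfold lin
        rw [Finsupp.linearCombination_apply]
        conv_lhs => rw [← Finsupp.sum_single (bdl L)]
        refine Finsupp.sum_congr fun c _ => ?_
        rw [Finsupp.smul_single, smul_eq_mul, mul_one])
  refine ⟨H, fun L L' hL h => ?_, fun g L hL => ?_, fun L hL => ?_⟩
  · have h1 : 0 < L.length := List.length_pos_iff.2 hL
    have h2 := hH1 (L.length - 1) L (show L.length = L.length - 1 + 1 by omega)
    have h3 : L'.length = L.length - 1 + 1 + 1 :=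
      (Finsupp.mem_supported _ _).1 h2 (Finsupp.mem_support_iff.2 h)
    omega
  · have h1 : 0 < L.length := List.length_pos_iff.2 hL
    exact hH2 (L.length - 1) g L (show L.length = L.length - 1 + 1 by omega)
  · have h1 := hH3 (L.length - 1) L (show L.length = L.length - 1 + 1 by omega)
    rw [hbdef, if_neg (by omega)] at h1
    exact h1

/-! ### effaceability -/

/-- **Effaceability for tuples** -/
theorem effR_of_effC {K : Type} [Field K] [CharP K 2] {Λ : Subgroup Kˣ} (hbit : IsBit Q bit)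
    (hΓ : IsDeck Γ Q x₀) {S : List (Q.Cover x₀) → NQ Q x₀} (hS : SD Γ Q x₀ bit S) (θ : Γ →* Φ)
    (hE : EffC Q x₀ K θ Λ) : EffR K θ (Q.Cover x₀) Λ := by
  classical
  intro k E _ _ _ ρ hρ x hx1 hx2 hx3
  let _ : Module (ZMod 2) E := AddCommGroup.zmodModule (two_mod (K := K))
  obtain ⟨Kt, hK0, hK1, hK2⟩ := exists_Kt hΓ hS
  obtain ⟨hS1, hS2, hS3, hS4⟩ := hS
  have hcb : ∀ e, cbC Q x₀ (Tq Q x₀ bit (k + 1) x) e = 0 := by
    intro e
    rw [cbC_Tq hbit]
    by_cases h : Vd Q x₀ e.1 e.2 ∧ e.2.card = k + 2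
    · rw [Tq_pos _ h.1 h.2]
      have h1 : dT x = fun _ => 0 := funext hx3
      rw [h1]
      exact lin_fun_zero _
    · exact if_neg h
  obtain ⟨E', iE1, iE2, iE3, ρ', ι, yc, h1, h2, h3, h4, h5⟩ :=
    hE k E ρ hρ (Tq Q x₀ bit (k + 1) x) (Tq_CubC hbit hΓ hx2) hcb
  let _ : Module (ZMod 2) E' := AddCommGroup.zmodModule (two_mod (K := K))
  obtain ⟨y, hy⟩ : ∃ y : List (Q.Cover x₀) → E', ∀ L, y L =
      if L.length = k + 1 then prE Q x₀ bit k yc (S L) + ι (lin x (Kt L)) else 0 :=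
    ⟨_, fun _ => rfl⟩
  refine ⟨E', iE1, iE2, iE3, ρ', ι, y, h1, h2, h3, fun L h => ?_, fun g L => ?_, fun L hL => ?_⟩
  · by_contra h6
    exact h (by rw [hy, if_neg h6])
  · rw [hy, hy, List.length_map]
    by_cases h : L.length = k + 1
    · have hne : L ≠ [] := by
        rintro rfl
        simp at h
      rw [if_pos h, if_pos h, map_add, hS2 g L hne, hK1 g L hne,
        prE_rho hΓ h4.smul g, lin_map, ← h3]
      congr 2
      have h6 : (fun L => x (List.map (g • ·) L)) = fun L => zl (ρ (θ g)) (x L) :=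
        funext fun L => hx2 g L
      rw [h6, ← map_lin]
      rfl
    · rw [if_neg h, if_neg h, map_zero]
  · have h6 : dT y L = prE Q x₀ bit k yc (lin S (bdl L)) + ι (lin x (lin Kt (bdl L))) := by
      rw [dT_eq, lin_congr (f' := y) (f := fun L => prE Q x₀ bit k yc (S L) + ι (lin x (Kt L)))
        (fun b hb => by
          have := bdl_len_er L b hb
          rw [hy, if_pos (by omega)]), lin_add, ← map_lin (prE Q x₀ bit k yc)]
      congr 1
      have h7 : ι (lin x (lin Kt (bdl L))) = zl ι (lin x (lin Kt (bdl L))) := rfl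
      rw [h7, ← lin_lin, map_lin]
      rfl
    have h7 : prE Q x₀ bit k yc (lin S (bdl L)) = ι (lin x (lin (TTo Q x₀) (S L))) := by
      rw [← hS4 L (by omega), prE_dQ hbit k yc (hS1 (k + 1) L hL)]
      have h8 : ι (lin x (lin (TTo Q x₀) (S L))) = zl ι (lin x (lin (TTo Q x₀) (S L))) := rfl
      rw [h8, ← lin_lin, map_lin]
      refine lin_congr fun a ha => ?_
      obtain ⟨e, he, rfl⟩ := (Finsupp.mem_supported _ _).1 (hS1 (k + 1) L hL)
        (Finsupp.mem_support_iff.2 ha)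
      have h9 := prE_single (cbC Q x₀ yc) he
      unfold prE at h9
      rw [lin_single] at h9
      rw [h9, h5, Tq_cell x he]
      rfl
    have h8 : x L = lin x (lin (TTo Q x₀) (S L)) + lin x (lin Kt (bdl L)) := by
      have h9 := congrArg (lin x) (hK2 L (by omega))
      rw [map_add, map_add, lin_single] at h9
      have h10 : lin x (BL (Kt L)) = 0 := by
        have h11 : lin x (BL (Kt L)) = lin (fun l => lin x (bdl l)) (Kt L) := lin_lin.symm
        rw [h11]
        have h12 : (fun l => lin x (bdl l)) = fun _ => 0 := funext fun l => by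
          rw [← dT_eq]
          exact hx3 l
        rw [h12]
        exact lin_fun_zero _
      rw [h10, add_assoc] at h9
      have h11 := add_self_mod (lin x (lin (TTo Q x₀) (S L)) + lin x (lin Kt (bdl L)))
      rw [← h11] at h9
      exact (add_right_cancel h9).symm
    rw [h6, h7, ← map_add, ← h8]

/-! ### the extension of the cubical cocycles to the tuples -/

theorem prE_zero {E : Type} [AddCommGroup E] [Module (ZMod 2) E] (m : ℕ) (y : NQ Q x₀) :
    prE Q x₀ bit m (fun _ => (0 : E)) y = 0 := by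
  classical
  unfold prE
  refine (lin_congr (f := fun _ => 0) fun a _ => ?_).trans (lin_fun_zero _)
  cases a with
  | none => rfl
  | some e =>
    show (if e ∈ Cell Q x₀ bit m then (0 : E) else 0) = 0
    split_ifs <;> rfl

/-- **The extension of a cubical cocycle to the tuples.** -/
theorem exists_extQ {K : Type} [Field K] {E : Type} [AddCommGroup E] [Module K E]
    [Module (ZMod 2) E] (hbit : IsBit Q bit) (hΓ : IsDeck Γ Q x₀)
    {S : List (Q.Cover x₀) → NQ Q x₀} (hS : SD Γ Q x₀ bit S)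
    {H : Q.Cover x₀ × Finset V → NQ Q x₀} (hH : HD Γ Q x₀ bit S H) {θ : Γ →* Φ}
    {ρ : Φ →* Module.End K E} {m : ℕ} {c : Q.Cover x₀ × Finset V → E}
    (hc : CubC Q x₀ θ ρ m c) (hd : ∀ e, cbC Q x₀ c e = 0) :
    ∃ (x : List (Q.Cover x₀) → E) (β : Q.Cover x₀ × Finset V → E),
      (∀ L, x L ≠ 0 → L.length = m + 1) ∧
      (∀ (g : Γ) L, x (L.map (g • ·)) = ρ (θ g) (x L)) ∧ (∀ L, dT x L = 0) ∧
      (∀ e, β e ≠ 0 → Vd Q x₀ e.1 e.2 ∧ e.2.card + 1 = m) ∧
      (∀ y σ, σ ⊆ Q.lab (Q.proj x₀ y) → ∀ v ∈ σ, β (Q.nbc x₀ v y, σ) = β (y, σ)) ∧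
      (∀ (g : Γ) (e : Q.Cover x₀ × Finset V), β (g • e.1, e.2) = ρ (θ g) (β e)) ∧
      ∀ e ∈ Cell Q x₀ bit m, lin x (TT Q x₀ e) = c e + cbC Q x₀ β e := by
  classical
  obtain ⟨hS1, hS2, hS3, hS4⟩ := hS
  obtain ⟨hH1, hH2, hH3⟩ := hH
  have hcb0 : cbC Q x₀ c = fun _ => 0 := funext hd
  obtain ⟨x, hx⟩ : ∃ x : List (Q.Cover x₀) → E, ∀ L, x L =
    if L.length = m + 1 then prE Q x₀ bit m c (S L) else 0 := ⟨_, fun _ => rfl⟩
  obtain ⟨β, hβ⟩ : ∃ β : Q.Cover x₀ × Finset V → E, ∀ e, β e =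
    if Vd Q x₀ e.1 e.2 ∧ e.2.card + 1 = m then
      prE Q x₀ bit m c (H (zc Q x₀ bit e)) else 0 := ⟨_, fun _ => rfl⟩
  have hβ' : ∀ k, k + 1 = m → ∀ e ∈ Cell Q x₀ bit k, β e = prE Q x₀ bit m c (H e) := by
    intro k hk e he
    rw [hβ, if_pos ⟨⟨he.1, he.2.1⟩, by rw [he.2.2.1, hk]⟩, zc_of_cell he]
  refine ⟨x, β, fun L h => ?_, fun g L => ?_, fun L => ?_, fun e h => ?_, fun y σ hσ v hv => ?_,
    fun g e => ?_, fun e he => ?_⟩
  · by_contra h6
    exact h (by rw [hx, if_neg h6])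
  · rw [hx, hx, List.length_map]
    by_cases h : L.length = m + 1
    · rw [if_pos h, if_pos h, hS2 g L (by rintro rfl; simp at h), prE_rho hΓ hc.smul g]
    · rw [if_neg h, if_neg h, map_zero]
  · rw [dT_eq]
    by_cases h : L.length = m + 2
    · rw [lin_congr (f' := x) (f := fun L => prE Q x₀ bit m c (S L)) (fun b hb => by
        have := bdl_len_er L b hb
        rw [hx, if_pos (by omega)]), ← map_lin (prE Q x₀ bit m c), ← hS4 L (by omega),
        prE_dQ hbit m c (hS1 (m + 1) L h), hcb0]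
      exact prE_zero _ _
    · rw [lin_congr (f' := x) (f := fun _ => 0) (fun b hb => by
        have := bdl_len_er L b hb
        rw [hx, if_neg (by omega)])]
      exact lin_fun_zero _
  · by_contra h6
    exact h (by rw [hβ, if_neg h6])
  · rw [hβ, hβ]
    by_cases h : Q.graph.IsClique (σ : Set V) ∧ σ.card + 1 = m
    · have h1 : Vd Q x₀ y σ := ⟨hσ, h.1⟩
      rw [if_pos (⟨h1, h.2⟩ : Vd Q x₀ y σ ∧ σ.card + 1 = m),
        if_pos (⟨h1.nbc hv, h.2⟩ : Vd Q x₀ (Q.nbc x₀ v y) σ ∧ σ.card + 1 = m), zc_nbc hbit h1 hv]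
    · rw [if_neg (fun h' : Vd Q x₀ y σ ∧ σ.card + 1 = m => h ⟨h'.1.2, h'.2⟩),
        if_neg (fun h' : Vd Q x₀ (Q.nbc x₀ v y) σ ∧ σ.card + 1 = m => h ⟨h'.1.2, h'.2⟩)]
  · rw [hβ, hβ]
    by_cases h : Vd Q x₀ e.1 e.2 ∧ e.2.card + 1 = m
    · rw [if_pos h, if_pos (⟨(Vd.smul hΓ g).2 h.1, h.2⟩ :
        Vd Q x₀ (g • e.1) e.2 ∧ e.2.card + 1 = m), zc_smul hΓ g h.1, ← prE_rho hΓ hc.smul g]
      congr 1
      exact hH2 _ g _ (zc_cell hbit h.1)
    · rw [if_neg h, if_neg (fun h' : Vd Q x₀ (g • e.1) e.2 ∧ e.2.card + 1 = m =>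
        h ⟨(Vd.smul hΓ g).1 h'.1, h'.2⟩), map_zero]
  · have h1 : lin x (TT Q x₀ e) = prE Q x₀ bit m c (lin S (TT Q x₀ e)) := by
      rw [map_lin]
      refine lin_congr fun L hL => ?_
      rw [hx, if_pos (by rw [TT_lenQ e L hL, he.2.2.1])]
    have h2 := congrArg (prE Q x₀ bit m c) (hH3 m e he)
    have h3 : prE Q x₀ bit m c (dQ Q x₀ (H e)) = 0 := by
      rw [prE_dQ hbit m c (hH1 m e he), hcb0]
      exact prE_zero _ _
    rw [h3, map_add, map_add, prE_single c he] at h2
    have h4 : prE Q x₀ bit m c (lin H (bdD Q x₀ e)) = cbC Q x₀ β e := by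
      rw [map_lin, lin_bdDQ, cbC_pos β ⟨he.1, he.2.1⟩]
      refine sum_congr rfl fun v hv => ?_
      obtain ⟨k, hk⟩ : ∃ k, m = k + 1 := by
        have h5 := he.2.2.1
        have h6 := card_pos.2 ⟨v, hv⟩
        exact ⟨m - 1, by omega⟩
      have he' : e ∈ Cell Q x₀ bit (k + 1) := by rw [← hk]; exact he
      rw [← hβ' k hk.symm _ (face1Q he' hv), ← hβ' k hk.symm _ (face2Q hbit he' hv)]
    rw [h1, ← h4]
    have h5 := add_self_mod (prE Q x₀ bit m c (lin S (TT Q x₀ e)))
    have h6 : c e + prE Q x₀ bit m c (lin H (bdD Q x₀ e)) +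
        prE Q x₀ bit m c (lin S (TT Q x₀ e)) = 0 := by
      rw [h2]
      abel
    rw [← h5] at h6
    exact (add_right_cancel h6).symm

end Pool.Agent.S10

end

section

/-!
# Project S10, block M: all cubical cocycles pair to zero with the square of the cycle
-/

set_option autoImplicit false
set_option linter.unusedSectionVars false

open Finset

namespace Pool.Agent.S10

open Pool.Agent.H19.Cub Pool.Agent.H77.SX Pool.Agent.H37.TM Pool.Agent.S9 Pool.Agent.S9.U Pool.Agent.S9.M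

variable {V X Γ Φ : Type} [DecidableEq V] [Fintype V] [Fintype X] [Group Γ] [Group Φ]
  {Q : CubeComplex V X} {x₀ : X} [MulAction Γ (Q.Cover x₀)] {bit : X → V → ZMod 2}

/-- a coboundary pairs to zero with the square of a cycle -/
theorem pair_cob {K : Type} [Field K] [Algebra (ZMod 2) K] [CharP K 2] {d : ℕ} (hbit : IsBit Q bit)
    (hΓ : IsDeck Γ Q x₀) {c : Γ → K} {β z : Q.Cover x₀ × Finset V → K} (hz : CycN Q x₀ (d + 1) z)
    (hze : ∀ (γ : Γ) (e : Q.Cover x₀ × Finset V), z (γ • e) = c γ * z e)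
    (hβ : ∀ (γ : Γ) (e : Q.Cover x₀ × Finset V), β (γ • e) * c γ ^ 2 = β e) :
    osum Γ (fun e : Q.Cover x₀ × Finset V => open Classical in
      if e ∈ Cell Q x₀ bit (d + 1) then cbC Q x₀ β e * z e ^ 2 else 0) = 0 := by
  classical
  have hzs : Cyc Q x₀ (d + 1) z := ⟨hz.valid, hz.nb, hz.bd⟩
  have hbe : ∀ e ∈ Cell Q x₀ bit (d + 1), cbC Q x₀ β e =
      ∑ b ∈ (bdD Q x₀ e).support, bdD Q x₀ e b • β b := by
    intro e he
    have h1 := lin_bdDQ β e
    rw [cbC_pos β ⟨he.1, he.2.1⟩, ← h1]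
    unfold lin
    rw [Finsupp.linearCombination_apply]
    rfl
  set k : Q.Cover x₀ × Finset V → Q.Cover x₀ × Finset V → K := fun e b =>
    if e ∈ Cell Q x₀ bit (d + 1) then bdD Q x₀ e b • (β b * z e ^ 2) else 0 with hk
  have hk0 : ∀ e b, k e b ≠ 0 → e ∈ Cell Q x₀ bit (d + 1) ∧ bdD Q x₀ e b ≠ 0 := by
    intro e b h
    by_cases he : e ∈ Cell Q x₀ bit (d + 1)
    · refine ⟨he, fun h0 => h ?_⟩
      simp only [hk, if_pos he, h0, zero_smul]
    · exact absurd (by simp only [hk, if_neg he]) h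
  have hrow : ∀ e, (if e ∈ Cell Q x₀ bit (d + 1) then cbC Q x₀ β e * z e ^ 2 else 0) =
      ∑ᶠ b, k e b := by
    intro e
    rw [finsum_eq_sum_of_support_subset (s := (bdD Q x₀ e).support) (k e) (fun b hb => by
      rw [mem_coe, Finsupp.mem_support_iff]
      exact (hk0 e b hb).2)]
    by_cases he : e ∈ Cell Q x₀ bit (d + 1)
    · simp only [hk, if_pos he]
      rw [hbe e he, sum_mul]
      exact sum_congr rfl fun b _ => smul_mul_assoc _ _ _
    · simp only [hk, if_neg he, sum_const_zero]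
  have hinv : ∀ (γ : Γ) e b, k (γ • e) (γ • b) = k e b := by
    intro γ e b
    by_cases he : e ∈ Cell Q x₀ bit (d + 1)
    · have he' : γ • e ∈ Cell Q x₀ bit (d + 1) := (Pool.Agent.H37.TM.cell_smul hΓ γ e).2 he
      simp only [hk, if_pos he, if_pos he']
      rw [bdD_smul_apply hΓ he, hze, ← hβ γ b]
      congr 1
      ring
    · have he' : γ • e ∉ Cell Q x₀ bit (d + 1) :=
        fun h => he ((Pool.Agent.H37.TM.cell_smul hΓ γ e).1 h)
      simp only [hk, if_neg he, if_neg he']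
  have h1 : osum Γ (fun e => ∑ᶠ b, k e b) = osum Γ fun b => ∑ᶠ e, k e b := by
    refine osum_comm k hinv (fun e b _ γ h => cu_free hΓ e γ h) (fun e b _ γ h => cu_free hΓ b γ h)
      (fun e => ?_) ?_
    · exact (bdD Q x₀ e).support.finite_toSet.subset fun b hb => by
        rw [mem_coe, Finsupp.mem_support_iff]
        exact (hk0 e b hb).2
    · obtain ⟨S, hS⟩ := cu_fin (Q := Q) (x₀ := x₀) hΓ
      exact ⟨S, fun e _ _ => hS e⟩
  have h2 : (fun e : Q.Cover x₀ × Finset V =>
      if e ∈ Cell Q x₀ bit (d + 1) then cbC Q x₀ β e * z e ^ 2 else 0) = fun e => ∑ᶠ b, k e b :=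
    funext hrow
  rw [h2, h1]
  have hcol : ∀ b, ∑ᶠ e, k e b = 0 := by
    intro b
    by_cases hb : b ∈ Cell Q x₀ bit d
    · obtain ⟨hf1, hf2⟩ := sum_cofaces hbit (fun e => z e ^ 2) hzs.sq.valid hzs.sq.nb hzs.sq.bd b hb
      have h4 : ∀ e, k e b = β b *
          (if e ∈ Cell Q x₀ bit (d + 1) then bdD Q x₀ e b • (z e ^ 2) else 0) := by
        intro e
        by_cases he : e ∈ Cell Q x₀ bit (d + 1)
        · simp only [hk, if_pos he]
          exact (mul_smul_comm _ _ _).symm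
        · simp only [hk, if_neg he, mul_zero]
      rw [finsum_congr h4, ← mul_finsum, hf2, mul_zero]
    · refine finsum_eq_zero_of_forall_eq_zero fun e => ?_
      by_contra h
      exact hb (bdD_cell hbit (hk0 e b h).1 b (hk0 e b h).2)
  simp only [hcol]
  unfold osum
  exact finsum_zero

/-- **Cubical cocycles pair to zero with the square of the cycle**, if the cocycles of the tuples do. -/
theorem pair_zero {K : Type} [Field K] [Algebra (ZMod 2) K] [CharP K 2] (hbit : IsBit Q bit)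
    (hΓ : IsDeck Γ Q x₀) (hex : ExQ Q x₀ bit) (θ : Γ →* Φ) (χ : Φ →* Kˣ) {i : ℕ} (hi : 1 ≤ i)
    {z₀ : Q.Cover x₀ × Finset V → K} (hz : CycN Q x₀ i z₀)
    (hzg : ∀ (γ : Γ) e, z₀ (γ • e) = (χ (θ γ) : K) * z₀ e)
    (hT : ∀ x : List (Q.Cover x₀) → K, (∀ L, x L ≠ 0 → L.length = i + 1) →
      (∀ (γ : Γ) L, x (L.map (γ • ·)) = (im2 χ (θ γ) : K) * x L) → (∀ L, dT x L = 0) →
      osum Γ (fun e : Q.Cover x₀ × Finset V => open Classical in
        if e ∈ Cell Q x₀ bit i then lin x (TT Q x₀ e) * z₀ e ^ 2 else 0) = 0)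
    (x : Q.Cover x₀ × Finset V → K) (hx : CubC Q x₀ θ (ch (im2 χ)) i x)
    (hd : ∀ e, cbC Q x₀ x e = 0) :
    osum Γ (fun e : Q.Cover x₀ × Finset V => open Classical in
      if e ∈ Cell Q x₀ bit i then x e * z₀ e ^ 2 else 0) = 0 := by
  classical
  obtain ⟨S, hS1, hS2, hS3, hS4⟩ := exists_S hΓ hex
  obtain ⟨H, hH1, hH2, hH3⟩ := exists_Hm hΓ hbit hex hS1 hS2 hS3 hS4
  have hSD : SD Γ Q x₀ bit S := ⟨hS1, hS2, hS3, hS4⟩
  have hHD : HD Γ Q x₀ bit S H := ⟨hH1, hH2, hH3⟩
  obtain ⟨xT, β, h1, h2, h3, h4, h5, h6, h7⟩ := exists_extQ hbit hΓ hSD hHD hx hd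
  have h8 := hT xT h1 (fun γ L => h2 γ L) h3
  obtain ⟨d, rfl⟩ : ∃ d, i = d + 1 := ⟨i - 1, by omega⟩
  have hc2 : ∀ γ : Γ, ((im2 χ (θ γ) : Kˣ) : K) * (χ (θ γ) : K) ^ 2 = 1 := by
    intro γ
    rw [im2_apply, ← Units.val_pow_eq_pow_val, Units.inv_mul]
  have h9 := pair_cob hbit hΓ (c := fun γ => (χ (θ γ) : K)) (β := β) hz hzg (fun γ e => by
    have h10 := h6 γ e
    have h11 : β (γ • e) = ((im2 χ (θ γ) : Kˣ) : K) * β e := h10
    rw [h11, mul_right_comm, hc2, one_mul])
  obtain ⟨F, hF⟩ := cu_fin (Q := Q) (x₀ := x₀) hΓ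
  have h12 := osum_add (Γ := Γ)
    (fun e : Q.Cover x₀ × Finset V =>
      if e ∈ Cell Q x₀ bit (d + 1) then x e * z₀ e ^ 2 else 0)
    (fun e : Q.Cover x₀ × Finset V =>
      if e ∈ Cell Q x₀ bit (d + 1) then cbC Q x₀ β e * z₀ e ^ 2 else 0)
    ⟨F, fun e _ => hF e⟩ ⟨F, fun e _ => hF e⟩
  have h13 : (fun e : Q.Cover x₀ × Finset V =>
      (if e ∈ Cell Q x₀ bit (d + 1) then x e * z₀ e ^ 2 else 0) +
      if e ∈ Cell Q x₀ bit (d + 1) then cbC Q x₀ β e * z₀ e ^ 2 else 0) =
      fun e => if e ∈ Cell Q x₀ bit (d + 1) then lin xT (TT Q x₀ e) * z₀ e ^ 2 else 0 := by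
    funext e
    by_cases he : e ∈ Cell Q x₀ bit (d + 1)
    · rw [if_pos he, if_pos he, if_pos he, h7 e he, add_mul]
    · rw [if_neg he, if_neg he, if_neg he, add_zero]
  rw [h13, h8] at h12
  have h14 : osum Γ (fun e : Q.Cover x₀ × Finset V =>
      if e ∈ Cell Q x₀ bit (d + 1) then cbC Q x₀ β e * z₀ e ^ 2 else 0) = 0 := h9
  rw [h14, add_zero] at h12
  exact h12.symm

end Pool.Agent.S10

end
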