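import Pool.Agent.H71.TSG.M12
import Pool.Agent.H71.TSG.M16
import Pool.Agent.H71.TSG.M18

/-! The parts of this file: H4.Singer3.SBasic, H4.Singer3.SProd, H73.GC.Glue1, H73.GC.Glue3, H73.GC.Glue4, H73.GC.Glue5, S9.IntRk, S9.IntM, S9.IntAct, S9.IntHH, S10.IntSt. -/

section

/-!
# Singer project, part three: basic facts
-/

set_option autoImplicit false
set_option linter.unusedSectionVars false

open Finset

namespace Pool.Agent.H4.Singer3

/-! ## Dimensions -/

section Dim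

variable {M M' M'' : Type} [AddCommGroup M] [Module (ZMod 2) M] [Module.Finite (ZMod 2) M]
  [AddCommGroup M'] [Module (ZMod 2) M'] [Module.Finite (ZMod 2) M']
  [AddCommGroup M''] [Module (ZMod 2) M''] [Module.Finite (ZMod 2) M'']

theorem hdim_eq (Z B : Submodule (ZMod 2) M) (hB : B ≤ Z) :
    hdim Z B = Module.finrank (ZMod 2) (Z.map B.mkQ) := by
  have h := LinearMap.finrank_range_add_finrank_ker (B.mkQ.comp Z.subtype)
  rw [LinearMap.range_comp, Submodule.range_subtype, LinearMap.ker_comp, Submodule.ker_mkQ] at h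
  have h2 : Module.finrank (ZMod 2) (B.comap Z.subtype) = Module.finrank (ZMod 2) B :=
    LinearEquiv.finrank_eq (Submodule.comapSubtypeEquivOfLe hB)
  rw [h2] at h
  unfold hdim
  omega

/-- the exactness lemma -/
theorem hdim_le (Z B : Submodule (ZMod 2) M) (Z' B' : Submodule (ZMod 2) M')
    (Z'' B'' : Submodule (ZMod 2) M'') (hB : B ≤ Z) (hB' : B' ≤ Z') (hB'' : B'' ≤ Z'')
    (ψ : M →ₗ[ZMod 2] M'') (φ : M' →ₗ[ZMod 2] M) (h1 : ∀ z ∈ Z, ψ z ∈ Z'')
    (h2 : ∀ b ∈ B, ψ b ∈ B'') (h3 : ∀ z ∈ Z, ψ z ∈ B'' → ∃ z' ∈ Z', φ z' - z ∈ B)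
    (h4 : ∀ b ∈ B', φ b ∈ B) : hdim Z B ≤ hdim Z' B' + hdim Z'' B'' := by
  rw [hdim_eq Z B hB, hdim_eq Z' B' hB', hdim_eq Z'' B'' hB'']
  let ψq := Submodule.mapQ B B'' ψ h2
  let φq := Submodule.mapQ B' B φ h4
  have h5 := LinearMap.finrank_range_add_finrank_ker (ψq.comp (Z.map B.mkQ).subtype)
  have h6 : Module.finrank (ZMod 2) (LinearMap.range (ψq.comp (Z.map B.mkQ).subtype)) ≤
      Module.finrank (ZMod 2) (Z''.map B''.mkQ) := by
    refine Submodule.finrank_mono ?_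
    rintro _ ⟨⟨x, hx⟩, rfl⟩
    obtain ⟨z, hz, rfl⟩ := hx
    exact ⟨ψ z, h1 z hz, rfl⟩
  have h7 : Module.finrank (ZMod 2) (LinearMap.ker (ψq.comp (Z.map B.mkQ).subtype)) ≤
      Module.finrank (ZMod 2) (Z'.map B'.mkQ) := by
    have h8 : (LinearMap.ker (ψq.comp (Z.map B.mkQ).subtype)).map (Z.map B.mkQ).subtype ≤
        (Z'.map B'.mkQ).map φq := by
      rintro _ ⟨⟨x, hx⟩, hk, rfl⟩
      obtain ⟨z, hz, rfl⟩ := hx
      have h9 : ψ z ∈ B'' := by
        have : (Submodule.Quotient.mk (ψ z) : M'' ⧸ B'') = 0 := hk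
        exact (Submodule.Quotient.mk_eq_zero _).1 this
      obtain ⟨z', hz', hd⟩ := h3 z hz h9
      refine ⟨B'.mkQ z', ⟨z', hz', rfl⟩, ?_⟩
      change Submodule.Quotient.mk (φ z') = Submodule.Quotient.mk z
      rwa [Submodule.Quotient.eq]
    have h10 := Submodule.finrank_mono h8
    have h11 := (Submodule.equivMapOfInjective (Z.map B.mkQ).subtype
      (Submodule.injective_subtype _)
      (LinearMap.ker (ψq.comp (Z.map B.mkQ).subtype))).finrank_eq
    rw [h11]
    exact h10.trans (Submodule.finrank_map_le _ _)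
  omega

/-- injective maps on homology -/
theorem hdim_le_of_inj (Z B : Submodule (ZMod 2) M) (Z'' B'' : Submodule (ZMod 2) M'')
    (hB : B ≤ Z) (hB'' : B'' ≤ Z'') (ψ : M →ₗ[ZMod 2] M'') (h1 : ∀ z ∈ Z, ψ z ∈ Z'')
    (h2 : ∀ b ∈ B, ψ b ∈ B'') (h3 : ∀ z ∈ Z, ψ z ∈ B'' → z ∈ B) :
    hdim Z B ≤ hdim Z'' B'' := by
  have h := hdim_le Z B B B Z'' B'' hB le_rfl hB'' ψ LinearMap.id h1 h2
    (fun z hz hz' => ⟨0, Submodule.zero_mem _, by
      simpa using h3 z hz hz'⟩) (fun b hb => hb)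
  simpa [hdim] using h

end Dim

/-! ## Chains -/

section Chains

variable {V : Type} [DecidableEq V] [Fintype V] {G : SimpleGraph V} {Ω : Type}

theorem bd_apply (f : Finset V → Ω → ZMod 2) (τ : Finset V) (ω : Ω) :
    bd f τ ω = ∑ v ∈ τᶜ, f (insert v τ) ω := rfl

theorem mem_CK {X : Act G Ω} {𝒦 : Finset V → Prop} {i : ℕ} {f : Finset V → Ω → ZMod 2} :
    f ∈ CK X 𝒦 i ↔ (∀ σ ω, f σ ω ≠ 0 → 𝒦 σ ∧ σ.card = i) ∧
      ∀ σ, ∀ v ∈ σ, ∀ ω, f σ (X.s v ω) = f σ ω := Iff.rfl

theorem mem_ZK {X : Act G Ω} {𝒦 : Finset V → Prop} {i : ℕ} {f : Finset V → Ω → ZMod 2} :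
    f ∈ ZK X 𝒦 i ↔ f ∈ CK X 𝒦 i ∧ bd f = 0 := Iff.rfl

theorem mem_BK {X : Act G Ω} {𝒦 : Finset V → Prop} {i : ℕ} {f : Finset V → Ω → ZMod 2} :
    f ∈ BK X 𝒦 i ↔ ∃ y ∈ CK X 𝒦 (i + 1), bd y = f := Iff.rfl

instance [Fintype Ω] : Module.Finite (ZMod 2) (Finset V → Ω → ZMod 2) := inferInstance

theorem KU_down {U σ τ : Finset V} (h : KU G U σ) (hτ : τ ⊆ σ) : KU G U τ :=
  ⟨hτ.trans h.1, h.2.subset (by exact_mod_cast hτ)⟩

/-- the boundary of a chain is a chain -/
theorem bd_mem_CK (X : Act G Ω) {𝒦 : Finset V → Prop} (h𝒦 : ∀ σ, 𝒦 σ → ∀ τ ⊆ σ, 𝒦 τ) {i : ℕ}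
    {f : Finset V → Ω → ZMod 2} (hf : f ∈ CK X 𝒦 (i + 1)) : bd f ∈ CK X 𝒦 i := by
  obtain ⟨h1, h2⟩ := hf
  refine ⟨fun τ ω h => ?_, fun τ v hv ω => ?_⟩
  · rw [bd_apply] at h
    obtain ⟨u, hu, hne⟩ := Finset.exists_ne_zero_of_sum_ne_zero h
    rw [Finset.mem_compl] at hu
    obtain ⟨h3, h4⟩ := h1 _ _ hne
    rw [Finset.card_insert_of_notMem hu] at h4
    exact ⟨h𝒦 _ h3 τ (subset_insert _ _), by omega⟩
  · rw [bd_apply, bd_apply]
    exact Finset.sum_congr rfl fun u _ => h2 (insert u τ) v (mem_insert_of_mem hv) ω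

/-- `∂∂ = 0` -/
theorem bd_bd (f : Finset V → Ω → ZMod 2) : bd (bd f) = 0 := by
  funext τ ω
  rw [bd_apply]
  simp only [bd_apply, Pi.zero_apply]
  rw [Finset.sum_sigma']
  refine Finset.sum_involution (fun p _ => ⟨p.2, p.1⟩) ?_ ?_ ?_ ?_
  · rintro ⟨v, u⟩ h
    simp only
    rw [Finset.insert_comm v u τ]
    exact CharTwo.add_self_eq_zero _
  · rintro ⟨v, u⟩ h _ heq
    simp only [Finset.mem_sigma, Finset.mem_compl, Finset.mem_insert, not_or] at h
    simp only [Sigma.mk.injEq, heq_eq_eq] at heq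
    exact h.2.1 heq.1
  · rintro ⟨v, u⟩ h
    simp only [Finset.mem_sigma, Finset.mem_compl, Finset.mem_insert, not_or] at h ⊢
    exact ⟨h.2.2, fun h1 => h.2.1 h1.symm, h.1⟩
  · rintro ⟨v, u⟩ _
    rfl

theorem BK_le_ZK (X : Act G Ω) {𝒦 : Finset V → Prop} (h𝒦 : ∀ σ, 𝒦 σ → ∀ τ ⊆ σ, 𝒦 τ) (i : ℕ) :
    BK X 𝒦 i ≤ ZK X 𝒦 i := by
  rintro _ ⟨f, hf, rfl⟩
  exact ⟨bd_mem_CK X h𝒦 hf, bd_bd f⟩

theorem KU_down' (G : SimpleGraph V) (U : Finset V) : ∀ σ, KU G U σ → ∀ τ ⊆ σ, KU G U τ :=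
  fun _ h _ hτ => KU_down h hτ

/-! ### Operators -/

/-- the part where the bit of `w` vanishes -/
def hf (X : Act G Ω) (w : V) : (Finset V → Ω → ZMod 2) →ₗ[ZMod 2] (Finset V → Ω → ZMod 2) where
  toFun f σ ω := if X.bit ω w then 0 else f σ ω
  map_add' f g := by
    funext σ ω
    simp only [Pi.add_apply]
    split_ifs <;> simp
  map_smul' c f := by
    funext σ ω
    simp only [Pi.smul_apply, smul_eq_mul, RingHom.id_apply]
    split_ifs <;> simp

end Chains

end Pool.Agent.H4.Singer3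

end

section

/-!
# Singer project, part three: products of two-groups
-/

set_option autoImplicit false
set_option linter.unusedSectionVars false

open Finset

namespace Pool.Agent.H4.Singer3

variable {V : Type} [DecidableEq V] [Fintype V] {G : SimpleGraph V}

/-! ### double covers -/

private def colOf (G : SimpleGraph V) : Pool.Agent.H4.Singer.ColGraph V V where
  adj := G.Adj
  symm := fun _ _ h => h.symm
  col := id
  ne := fun _ _ h => h.ne

private def toInv {Ω : Type} (X : Act G Ω) : Pool.Agent.H4.Singer.InvAct (colOf G) Ω where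
  s := X.s
  invol := X.invol
  comm := X.comm
  bit := X.bit
  bit_s := X.bit_s

private theorem exists_half3 {Ω : Type} [Finite Ω] (X : Act G Ω) (τ : Ω → Ω)
    (hτs : ∀ v ω, τ (X.s v ω) = X.s v (τ ω)) (hτ2 : ∀ ω, τ (τ ω) = ω) (hτ : ∀ ω, τ ω ≠ ω)
    (hbit : ∀ ω, X.bit (τ ω) = X.bit ω) (σ : Finset V) (hσ : G.IsClique (σ : Set V)) :
    ∃ D : Ω → Prop, (∀ v ∈ σ, ∀ ω, D (X.s v ω) ↔ D ω) ∧ ∀ ω, D ω ↔ ¬ D (τ ω) :=
  Pool.Agent.H4.Singer.exists_half (toInv X) τ hτs hτ2 hτ hbit σ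
    (fun u hu v hv huv => hσ (by exact_mod_cast hu) (by exact_mod_cast hv) huv)

/-- composition with a map -/
private def pl {Ω Ω' : Type} (p : Ω' → Ω) :
    (Finset V → Ω → ZMod 2) →ₗ[ZMod 2] (Finset V → Ω' → ZMod 2) where
  toFun f σ ω := f σ (p ω)
  map_add' _ _ := rfl
  map_smul' _ _ := rfl

private theorem pl_apply {Ω Ω' : Type} (p : Ω' → Ω) (f : Finset V → Ω → ZMod 2) (σ : Finset V)
    (ω : Ω') : pl p f σ ω = f σ (p ω) := rfl

private theorem pl_bd {Ω Ω' : Type} (p : Ω' → Ω) (f : Finset V → Ω → ZMod 2) :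
    pl p (bd f) = bd (pl p f) := rfl

private def ps {Ω Ω' : Type} (s : Ω → Ω') (τ : Ω' → Ω') :
    (Finset V → Ω' → ZMod 2) →ₗ[ZMod 2] (Finset V → Ω → ZMod 2) where
  toFun g σ ω := g σ (s ω) + g σ (τ (s ω))
  map_add' f g := by
    funext σ ω
    simp only [Pi.add_apply]
    ring
  map_smul' c f := by
    funext σ ω
    simp only [Pi.smul_apply, smul_eq_mul, RingHom.id_apply]
    ring

private theorem ps_apply {Ω Ω' : Type} (s : Ω → Ω') (τ : Ω' → Ω') (g : Finset V → Ω' → ZMod 2)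
    (σ : Finset V) (ω : Ω) : ps s τ g σ ω = g σ (s ω) + g σ (τ (s ω)) := rfl

private theorem ps_bd {Ω Ω' : Type} (s : Ω → Ω') (τ : Ω' → Ω') (g : Finset V → Ω' → ZMod 2) :
    ps s τ (bd g) = bd (ps s τ g) := by
  funext σ ω
  rw [ps_apply, bd_apply, bd_apply, bd_apply, ← Finset.sum_add_distrib]
  exact Finset.sum_congr rfl fun v _ => rfl

private theorem bet_double3 {Ω Ω' : Type} [Fintype Ω] [Fintype Ω'] (X : Act G Ω) (X' : Act G Ω')
    {𝒦 : Finset V → Prop} (h𝒦 : ∀ σ, 𝒦 σ → ∀ τ ⊆ σ, 𝒦 τ)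
    (hcl : ∀ σ, 𝒦 σ → G.IsClique (σ : Set V)) (i : ℕ) (p : Ω' → Ω)
    (hp : ∀ v ω, p (X'.s v ω) = X.s v (p ω)) (hbit : ∀ ω, X'.bit ω = X.bit (p ω))
    (hsurj : Function.Surjective p) (τ : Ω' → Ω') (hτs : ∀ v ω, τ (X'.s v ω) = X'.s v (τ ω))
    (hτ2 : ∀ ω, τ (τ ω) = ω) (hτ : ∀ ω, τ ω ≠ ω)
    (hfib : ∀ ω ω', p ω = p ω' ↔ ω' = ω ∨ ω' = τ ω) :
    bet X' 𝒦 i ≤ 2 * bet X 𝒦 i := by
  classical
  obtain ⟨s, hs⟩ := hsurj.hasRightInverse
  have hs' : ∀ ω, p (s ω) = ω := hs
  have hpτ : ∀ ω, p (τ ω) = p ω := fun ω => ((hfib ω (τ ω)).2 (Or.inr rfl)).symm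
  have hsec : ∀ ω', s (p ω') = ω' ∨ s (p ω') = τ ω' := by
    intro ω'
    exact (hfib ω' (s (p ω'))).1 (hs' (p ω')).symm
  have hcc : ∀ a : ZMod 2, a + a = 0 := fun a => CharTwo.add_self_eq_zero a
  have hneg : ∀ a : ZMod 2, -a = a := fun a => CharTwo.neg_eq a
  have hpush : ∀ (g : Finset V → Ω' → ZMod 2) (σ : Finset V) (ω' : Ω'),
      ps s τ g σ (p ω') = g σ ω' + g σ (τ ω') := by
    intro g σ ω'
    rw [ps_apply]
    rcases hsec ω' with h | h
    · rw [h]
    · rw [h, hτ2, add_comm]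
  -- the maps preserve chains
  have hpull_mem : ∀ (j : ℕ) (f : Finset V → Ω → ZMod 2), f ∈ CK X 𝒦 j →
      pl p f ∈ CK X' 𝒦 j := by
    intro j f hf
    rw [mem_CK] at hf ⊢
    refine ⟨fun σ ω h => hf.1 σ (p ω) h, fun σ v hv ω => ?_⟩
    rw [pl_apply, pl_apply, hp, hf.2 σ v hv]
  have hpush_mem : ∀ (j : ℕ) (g : Finset V → Ω' → ZMod 2), g ∈ CK X' 𝒦 j →
      ps s τ g ∈ CK X 𝒦 j := by
    intro j g hg
    rw [mem_CK] at hg ⊢
    refine ⟨fun σ ω h => ?_, fun σ v hv ω => ?_⟩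
    · rw [ps_apply] at h
      by_cases h1 : g σ (s ω) = 0
      · by_cases h2 : g σ (τ (s ω)) = 0
        · exact absurd (by rw [h1, h2, add_zero]) h
        · exact hg.1 _ _ h2
      · exact hg.1 _ _ h1
    · have e1 : X.s v ω = p (X'.s v (s ω)) := by rw [hp, hs']
      rw [e1, hpush, hτs, hg.2 σ v hv, hg.2 σ v hv, ps_apply]
  -- the map `r` is an inverse of the pull back on the kernel
  have hinv : ∀ g : Finset V → Ω' → ZMod 2, ps s τ g = 0 → pl p (pl s g) = g := by
    intro g hg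
    funext σ ω'
    have h1 : g σ ω' + g σ (τ ω') = 0 := by
      rw [← hpush, hg]
      rfl
    have h2 : g σ (τ ω') = g σ ω' := by
      have : g σ (τ ω') = - g σ ω' := by
        rw [eq_neg_iff_add_eq_zero, add_comm]
        exact h1
      rw [this, hneg]
    rw [pl_apply, pl_apply]
    rcases hsec ω' with h | h
    · rw [h]
    · rw [h, h2]
  have hr_mem : ∀ (j : ℕ) (g : Finset V → Ω' → ZMod 2), g ∈ CK X' 𝒦 j → ps s τ g = 0 →
      pl s g ∈ CK X 𝒦 j := by
    intro j g hg h0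
    have h1 := hinv g h0
    rw [mem_CK] at hg ⊢
    refine ⟨fun σ ω h => hg.1 σ (s ω) h, fun σ v hv ω => ?_⟩
    have e1 : X.s v ω = p (X'.s v (s ω)) := by rw [hp, hs']
    have e2 : pl s g σ (p (X'.s v (s ω))) = g σ (X'.s v (s ω)) :=
      congrFun (congrFun h1 σ) (X'.s v (s ω))
    rw [e1, e2, hg.2 σ v hv]
    rfl
  -- surjectivity
  have hpush_surj : ∀ (j : ℕ) (f : Finset V → Ω → ZMod 2), f ∈ CK X 𝒦 j →
      ∃ g ∈ CK X' 𝒦 j, ps s τ g = f := by
    intro j f hf
    rw [mem_CK] at hf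
    have hD : ∀ σ : Finset V, ∃ D : Ω' → Prop, 𝒦 σ →
        (∀ v ∈ σ, ∀ ω, D (X'.s v ω) ↔ D ω) ∧ ∀ ω, D ω ↔ ¬ D (τ ω) := by
      intro σ
      by_cases hσ : 𝒦 σ
      · obtain ⟨D, hD⟩ := exists_half3 X' τ hτs hτ2 hτ
          (fun ω => by rw [hbit, hbit, hpτ]) σ (hcl σ hσ)
        exact ⟨D, fun _ => hD⟩
      · exact ⟨fun _ => True, fun h => absurd h hσ⟩
    choose D hD using hD
    refine ⟨fun σ ω => if D σ ω then f σ (p ω) else 0, ?_, ?_⟩
    · rw [mem_CK]
      refine ⟨fun σ ω h => ?_, fun σ v hv ω => ?_⟩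
      · by_cases h1 : D σ ω
        · rw [if_pos h1] at h
          exact hf.1 _ _ h
        · rw [if_neg h1] at h
          exact absurd rfl h
      · by_cases hσ : 𝒦 σ
        · have h1 := (hD σ hσ).1 v hv ω
          by_cases h2 : D σ ω
          · simp only [if_pos (h1.2 h2), if_pos h2]
            rw [hp, hf.2 σ v hv]
          · simp only [if_neg (fun h => h2 (h1.1 h)), if_neg h2]
        · have h0 : ∀ ω, f σ ω = 0 := by
            intro ω
            by_contra h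
            exact hσ (hf.1 _ _ h).1
          simp only [h0, ite_self]
    · funext σ ω
      rw [ps_apply]
      by_cases hσ : 𝒦 σ
      · have h1 := (hD σ hσ).2 (s ω)
        by_cases h2 : D σ (s ω)
        · simp only [if_pos h2, if_neg (h1.1 h2), hs', add_zero]
        · have h3 : D σ (τ (s ω)) := by
            by_contra h
            exact h2 (h1.2 h)
          simp only [if_neg h2, if_pos h3, hpτ, hs', zero_add]
      · have h0 : ∀ ω, f σ ω = 0 := by
          intro ω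
          by_contra h
          exact hσ (hf.1 _ _ h).1
        simp only [h0, ite_self, add_zero]
  have hmain : hdim (ZK X' 𝒦 i) (BK X' 𝒦 i) ≤
      hdim (ZK X 𝒦 i) (BK X 𝒦 i) + hdim (ZK X 𝒦 i) (BK X 𝒦 i) := by
    refine hdim_le (ZK X' 𝒦 i) (BK X' 𝒦 i) (ZK X 𝒦 i) (BK X 𝒦 i) (ZK X 𝒦 i) (BK X 𝒦 i)
      (BK_le_ZK X' h𝒦 i) (BK_le_ZK X h𝒦 i) (BK_le_ZK X h𝒦 i) (ps s τ) (pl p) ?_ ?_ ?_ ?_
    · intro z hz
      rw [mem_ZK] at hz ⊢
      exact ⟨hpush_mem i z hz.1, by rw [← ps_bd, hz.2, map_zero]⟩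
    · rintro _ ⟨y, hy, rfl⟩
      exact ⟨ps s τ y, hpush_mem _ y hy, (ps_bd s τ y).symm⟩
    · intro z hz hψ
      rw [mem_ZK] at hz
      obtain ⟨y'', hy'', hyz⟩ := hψ
      obtain ⟨y, hy, hyy⟩ := hpush_surj (i + 1) y'' hy''
      have hker : ps s τ (z - bd y) = 0 := by
        rw [map_sub, ps_bd, hyy, hyz, sub_self]
      have hmem : z - bd y ∈ CK X' 𝒦 i := Submodule.sub_mem _ hz.1 (bd_mem_CK X' h𝒦 hy)
      refine ⟨pl s (z - bd y), ?_, ?_⟩
      · rw [mem_ZK]
        refine ⟨hr_mem i _ hmem hker, ?_⟩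
        rw [← pl_bd, map_sub, hz.2, bd_bd, sub_zero, map_zero]
      · rw [hinv _ hker, sub_sub_cancel_left]
        exact Submodule.neg_mem _ ⟨y, hy, rfl⟩
    · rintro _ ⟨y, hy, rfl⟩
      exact ⟨pl p y, hpull_mem _ y hy, (pl_bd p y).symm⟩
  unfold bet
  omega

/-- Betti numbers do not change under equivariant bijections. -/
private theorem bet_le_of_equiv {Ω Ω' : Type} [Fintype Ω] [Fintype Ω'] (X : Act G Ω)
    (X' : Act G Ω') {𝒦 : Finset V → Prop} (h𝒦 : ∀ σ, 𝒦 σ → ∀ τ ⊆ σ, 𝒦 τ) (i : ℕ) (e : Ω ≃ Ω')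
    (he : ∀ v ω, e (X.s v ω) = X'.s v (e ω)) : bet X 𝒦 i ≤ bet X' 𝒦 i := by
  have he' : ∀ v ω, e.symm (X'.s v ω) = X.s v (e.symm ω) := fun v ω => by
    rw [Equiv.symm_apply_eq, he, Equiv.apply_symm_apply]
  have h1 : ∀ (j : ℕ) (f : Finset V → Ω → ZMod 2), f ∈ CK X 𝒦 j → pl e.symm f ∈ CK X' 𝒦 j := by
    intro j f hf
    rw [mem_CK] at hf ⊢
    refine ⟨fun σ ω h => hf.1 σ _ h, fun σ v hv ω => ?_⟩
    rw [pl_apply, pl_apply, he', hf.2 σ v hv]
  have h2 : ∀ (j : ℕ) (f : Finset V → Ω' → ZMod 2), f ∈ CK X' 𝒦 j → pl e f ∈ CK X 𝒦 j := by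
    intro j f hf
    rw [mem_CK] at hf ⊢
    refine ⟨fun σ ω h => hf.1 σ _ h, fun σ v hv ω => ?_⟩
    rw [pl_apply, pl_apply, he, hf.2 σ v hv]
  have h3 : ∀ f : Finset V → Ω → ZMod 2, pl e (pl e.symm f) = f := by
    intro f
    funext σ ω
    rw [pl_apply, pl_apply, Equiv.symm_apply_apply]
  unfold bet
  refine hdim_le_of_inj _ _ _ _ (BK_le_ZK X h𝒦 i) (BK_le_ZK X' h𝒦 i) (pl e.symm) ?_ ?_ ?_
  · intro z hz
    rw [mem_ZK] at hz ⊢
    exact ⟨h1 i z hz.1, by rw [← pl_bd, hz.2, map_zero]⟩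
  · rintro _ ⟨y, hy, rfl⟩
    exact ⟨pl e.symm y, h1 _ y hy, (pl_bd _ y).symm⟩
  · rintro z _ ⟨y, hy, hyz⟩
    refine ⟨pl e y, h2 _ y hy, ?_⟩
    rw [← pl_bd, hyz, h3]

/-! ### products with two-groups -/

/-- the product of a group with elements `g v` and a set with an action -/
private def prodAct3 {Q Ω : Type} [Group Q] (g : V → Q) (hg : ∀ v, g v * g v = 1)
    (hgc : ∀ u v, G.Adj u v → g u * g v = g v * g u) (X : Act G Ω) : Act G (Q × Ω) where
  s v p := (p.1 * g v, X.s v p.2)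
  invol v p := by simp [X.invol, mul_assoc, hg]
  comm u v h p := by simp [X.comm u v h, mul_assoc, hgc u v h]
  bit p := X.bit p.2
  bit_s v p := X.bit_s v p.2

/-- a nontrivial finite two-group has a central element of order two -/
private theorem exists_central_two3 {P : Type} [Group P] [Fintype P] (hP : IsPGroup 2 P)
    (hc : Fintype.card P ≠ 1) : ∃ z : P, z ≠ 1 ∧ z * z = 1 ∧ ∀ x, z * x = x * z := by
  haveI : Fact (Nat.Prime 2) := ⟨Nat.prime_two⟩
  haveI : Nontrivial P := by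
    rw [← Fintype.one_lt_card_iff_nontrivial]
    have : 0 < Fintype.card P := Fintype.card_pos
    omega
  haveI := hP.center_nontrivial
  have h1 : 2 ∣ Nat.card (Subgroup.center P) := by
    rcases (hP.to_subgroup (Subgroup.center P)).card_eq_or_dvd with h | h
    · exact absurd h (by
        have := Finite.one_lt_card (α := Subgroup.center P)
        omega)
    · exact h
  obtain ⟨c, hc2⟩ := exists_prime_orderOf_dvd_card' 2 h1
  have h2 : c ^ 2 = 1 := by rw [← hc2]; exact pow_orderOf_eq_one c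
  have h3 : c ≠ 1 := by
    intro h
    rw [h, orderOf_one] at hc2
    exact absurd hc2 (by decide)
  refine ⟨c, fun h => h3 (Subtype.ext h), ?_, fun x => (Subgroup.mem_center_iff.1 c.2 x).symm⟩
  have := congrArg Subtype.val h2
  rwa [pow_two] at this

/-- the central subgroup `{1, z}` -/
private def twoSub3 {P : Type} [Group P] (z : P) (hz : z * z = 1) : Subgroup P where
  carrier := {x | x = 1 ∨ x = z}
  mul_mem' := by
    rintro a b (rfl | rfl) (rfl | rfl)
    · exact Or.inl (mul_one _)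
    · exact Or.inr (one_mul _)
    · exact Or.inr (mul_one _)
    · exact Or.inl hz
  one_mem' := Or.inl rfl
  inv_mem' := by
    rintro a (rfl | rfl)
    · exact Or.inl inv_one
    · exact Or.inr (inv_eq_of_mul_eq_one_left hz)

private theorem mem_twoSub3 {P : Type} [Group P] (z : P) (hz : z * z = 1) (x : P) :
    x ∈ twoSub3 z hz ↔ x = 1 ∨ x = z := Iff.rfl

private theorem twoSub3_normal {P : Type} [Group P] (z : P) (hz : z * z = 1)
    (hzc : ∀ x, z * x = x * z) : (twoSub3 z hz).Normal := by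
  refine ⟨fun n hn x => ?_⟩
  rw [mem_twoSub3] at hn ⊢
  rcases hn with rfl | rfl
  · left; group
  · right; rw [← hzc, mul_inv_cancel_right]

private theorem card_twoSub3 {P : Type} [Group P] (z : P) (hz : z * z = 1) (hz1 : z ≠ 1) :
    Nat.card (twoSub3 z hz) = 2 := by
  rw [Nat.card_eq_two_iff]
  refine ⟨⟨1, Or.inl rfl⟩, ⟨z, Or.inr rfl⟩, fun h => hz1 (congrArg Subtype.val h).symm, ?_⟩
  ext ⟨x, hx⟩
  simp only [Set.mem_insert_iff, Set.mem_singleton_iff, Set.mem_univ, iff_true, Subtype.mk.injEq]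
  exact hx

private theorem bet_prod_aux3 {Ω : Type} [Fintype Ω] (X : Act G Ω) (U : Finset V) (i : ℕ)
    (n : ℕ) : ∀ (P : Type) [Group P] [Fintype P],
    Fintype.card P ≤ n → IsPGroup 2 P → ∀ (g : V → P) (hg : ∀ v, g v * g v = 1)
    (hgc : ∀ u v, G.Adj u v → g u * g v = g v * g u),
    bet (prodAct3 g hg hgc X) (KU G U) i ≤ Fintype.card P * bet X (KU G U) i := by
  induction n with
  | zero =>
    intro P _ _ hn
    have : 0 < Fintype.card P := Fintype.card_pos
    omega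
  | succ n ih =>
    intro P _ _ hn hP g hg hgc
    by_cases hc : Fintype.card P = 1
    · have hsub : Subsingleton P := Fintype.card_le_one_iff_subsingleton.1 hc.le
      rw [hc, one_mul]
      exact bet_le_of_equiv (prodAct3 g hg hgc X) X (KU_down' G U) i
        { toFun := fun p => p.2
          invFun := fun ω => (1, ω)
          left_inv := fun p => Prod.ext (Subsingleton.elim _ _) rfl
          right_inv := fun ω => rfl } (fun v ω => rfl)
    · obtain ⟨z, hz1, hz, hzc⟩ := exists_central_two3 hP hc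
      haveI := twoSub3_normal z hz hzc
      letI : Fintype (P ⧸ twoSub3 z hz) := Fintype.ofFinite _
      have hcard : Fintype.card P = Fintype.card (P ⧸ twoSub3 z hz) * 2 := by
        rw [← card_twoSub3 z hz hz1, ← Nat.card_eq_fintype_card, ← Nat.card_eq_fintype_card]
        exact Subgroup.card_eq_card_quotient_mul_card_subgroup _
      have hpos : 0 < Fintype.card (P ⧸ twoSub3 z hz) := Fintype.card_pos
      have hg' : ∀ v, ((g v : P) : P ⧸ twoSub3 z hz) * (g v : P) = 1 := fun v => by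
        rw [← QuotientGroup.mk_mul, hg, QuotientGroup.mk_one]
      have hgc' : ∀ u v, G.Adj u v → ((g u : P) : P ⧸ twoSub3 z hz) * (g v : P) =
          ((g v : P) : P ⧸ twoSub3 z hz) * (g u : P) := fun u v h => by
        rw [← QuotientGroup.mk_mul, hgc u v h, QuotientGroup.mk_mul]
      have h1 := ih (P ⧸ twoSub3 z hz) (by omega) (hP.to_quotient _)
        (fun v => ((g v : P) : P ⧸ twoSub3 z hz)) hg' hgc'
      have h2 : bet (prodAct3 g hg hgc X) (KU G U) i ≤
          2 * bet (prodAct3 (fun v => ((g v : P) : P ⧸ twoSub3 z hz)) hg' hgc' X) (KU G U) i := by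
        refine bet_double3 _ _ (KU_down' G U) (fun σ hσ => hσ.2) i
          (fun p => ((p.1 : P ⧸ twoSub3 z hz), p.2))
          (fun v p => rfl) (fun p => rfl) ?_ (fun p => (z * p.1, p.2)) ?_ ?_ ?_ ?_
        · rintro ⟨x, ω⟩
          obtain ⟨y, rfl⟩ := QuotientGroup.mk_surjective x
          exact ⟨(y, ω), rfl⟩
        · intro v p
          show (z * (p.1 * g v), X.s v p.2) = ((z * p.1) * g v, X.s v p.2)
          rw [mul_assoc]
        · intro p
          show (z * (z * p.1), p.2) = p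
          rw [← mul_assoc, hz, one_mul]
        · intro p h
          have h3 : z * p.1 = p.1 := congrArg Prod.fst h
          exact hz1 (mul_eq_right.1 h3)
        · rintro ⟨x, ω⟩ ⟨x', ω'⟩
          simp only [Prod.mk.injEq]
          rw [QuotientGroup.eq, mem_twoSub3]
          constructor
          · rintro ⟨h | h, rfl⟩
            · left
              exact ⟨(inv_mul_eq_one.1 h).symm, rfl⟩
            · right
              refine ⟨?_, rfl⟩
              rw [hzc, ← h, mul_inv_cancel_left]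
          · rintro (⟨rfl, rfl⟩ | ⟨rfl, rfl⟩)
            · exact ⟨Or.inl (inv_mul_cancel _), rfl⟩
            · refine ⟨Or.inr ?_, rfl⟩
              rw [hzc, inv_mul_cancel_left]
      calc bet (prodAct3 g hg hgc X) (KU G U) i
          ≤ 2 * bet (prodAct3 (fun v => ((g v : P) : P ⧸ twoSub3 z hz)) hg' hgc' X)
              (KU G U) i := h2
        _ ≤ 2 * (Fintype.card (P ⧸ twoSub3 z hz) * bet X (KU G U) i) := Nat.mul_le_mul_left 2 h1
        _ = Fintype.card P * bet X (KU G U) i := by rw [hcard]; ring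

/-- the diagonal generators of a product -/
def Gen.prod {P Q : Type} [Group P] [Group Q] (D : Gen G P) (E : Gen G Q) : Gen G (P × Q) where
  g v := (D.g v, E.g v)
  sq v := by rw [Prod.mk_mul_mk, D.sq, E.sq]; rfl
  comm u v h := by rw [Prod.mk_mul_mk, Prod.mk_mul_mk, D.comm u v h, E.comm u v h]
  bit p := D.bit p.1
  bit_mul p v := D.bit_mul p.1 v

/-- the same with the factors exchanged (the map to the cube plays no role in `bet`) -/
theorem bet_prod_right {P Q : Type} [Group P] [Group Q] [Fintype P] [Fintype Q]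
    (hP : IsPGroup 2 P) (D : Gen G P) (E : Gen G Q) (U : Finset V) (i : ℕ) :
    bet (D.prod E).act (KU G U) i ≤ Fintype.card P * bet E.act (KU G U) i := by
  refine le_trans (bet_le_of_equiv (D.prod E).act (prodAct3 D.g D.sq D.comm E.act)
    (KU_down' G U) i (Equiv.refl (P × Q)) (fun v ω => rfl)) ?_
  exact bet_prod_aux3 E.act U i (Fintype.card P) P le_rfl hP D.g D.sq D.comm

end Pool.Agent.H4.Singer3

end

section

/-!
# Growth calculus: gluing, linear algebra
-/

set_option autoImplicit false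
set_option linter.unusedSectionVars false

open Finset

namespace Pool.Agent.H73.GC

variable {E E' : Type} [AddCommGroup E] [Module F2 E] [Finite E] [AddCommGroup E'] [Module F2 E']
  [Finite E']

/-- a map of complexes which is onto on the cycles -/
theorem glue_surj {d : Module.End F2 E} {d' : Module.End F2 E'} {C : ℕ → Submodule F2 E}
    {C' : ℕ → Submodule F2 E'} (hC : IsCx d C) (hC' : IsCx d' C') (Φ : E →ₗ[F2] E') (i : ℕ)
    (hΦ : ∀ x ∈ C (i + 1), Φ x ∈ C' (i + 1)) (hd : ∀ x ∈ C (i + 1), Φ (d x) = d' (Φ x))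
    (hs : ∀ z ∈ C' i, d' z = 0 → ∃ x ∈ C i, d x = 0 ∧ Φ x = z) : hx d' C' i ≤ hx d C i := by
  have h1 := LinA_rank Φ (C i ⊓ LinearMap.ker d)
  have h2 := LinA_rank Φ ((C i ⊓ LinearMap.ker d) ⊓ ((C' (i + 1)).map d').comap Φ)
  have h3 : ((C i ⊓ LinearMap.ker d) ⊓ ((C' (i + 1)).map d').comap Φ) ⊓ LinearMap.ker Φ =
      (C i ⊓ LinearMap.ker d) ⊓ LinearMap.ker Φ := by
    ext x
    constructor
    · rintro ⟨⟨h, -⟩, h'⟩
      exact ⟨h, h'⟩
    · rintro ⟨h, h'⟩
      refine ⟨⟨h, ?_⟩, h'⟩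
      change Φ x ∈ (C' (i + 1)).map d'
      rw [LinearMap.mem_ker.1 h']
      exact Submodule.zero_mem _
  have h4 : ((C i ⊓ LinearMap.ker d) ⊓ ((C' (i + 1)).map d').comap Φ).map Φ =
      (C' (i + 1)).map d' := by
    apply le_antisymm
    · rintro _ ⟨x, ⟨-, hx⟩, rfl⟩
      exact hx
    · rintro _ ⟨z, hz, rfl⟩
      obtain ⟨x, hx1, hx2, hx3⟩ := hs (d' z) (hC'.map i z hz) (hC'.sq (i + 1) z hz)
      refine ⟨x, ⟨⟨hx1, hx2⟩, ?_⟩, hx3⟩
      change Φ x ∈ (C' (i + 1)).map d'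
      rw [hx3]
      exact ⟨z, hz, rfl⟩
  have h5 : (C' i ⊓ LinearMap.ker d') ≤ (C i ⊓ LinearMap.ker d).map Φ := by
    rintro z ⟨hz, hz'⟩
    obtain ⟨x, hx1, hx2, hx3⟩ := hs z hz hz'
    exact ⟨x, ⟨hx1, hx2⟩, hx3⟩
  have h6 : (C (i + 1)).map d ≤
      (C i ⊓ LinearMap.ker d) ⊓ ((C' (i + 1)).map d').comap Φ := by
    rintro _ ⟨x, hx, rfl⟩
    refine ⟨⟨hC.map i x hx, hC.sq (i + 1) x hx⟩, ?_⟩
    change Φ (d x) ∈ (C' (i + 1)).map d'
    rw [hd x hx]
    exact ⟨Φ x, hΦ x hx, rfl⟩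
  have h7 := Submodule.finrank_mono h5
  have h8 := Submodule.finrank_mono h6
  rw [h3, h4] at h2
  rw [hx, hx]
  omega

/-- the functions with values in `C` -/
def gpi (n : ℕ) (C : Submodule F2 E) : Submodule F2 (Fin n → E) where
  carrier := {f | ∀ k, f k ∈ C}
  zero_mem' _ := Submodule.zero_mem _
  add_mem' hf hg k := Submodule.add_mem _ (hf k) (hg k)
  smul_mem' c _ hf k := Submodule.smul_mem _ c (hf k)

theorem finrank_gpi (n : ℕ) (C : Submodule F2 E) :
    Module.finrank F2 (gpi n C) = n * Module.finrank F2 C := by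
  have e : gpi n C ≃ₗ[F2] (Fin n → C) :=
    { toFun := fun f k => ⟨f.1 k, f.2 k⟩
      invFun := fun g => ⟨fun k => (g k : E), fun k => (g k).2⟩
      left_inv := fun _ => rfl
      right_inv := fun _ => rfl
      map_add' := fun _ _ => rfl
      map_smul' := fun _ _ => rfl }
  rw [e.finrank_eq, Module.finrank_pi_fintype, sum_const, card_univ, Fintype.card_fin,
    smul_eq_mul]

theorem glue_fil {n : ℕ} (S : Submodule F2 (Fin (n + 1) → E)) (C Z : Submodule F2 E)
    (h0 : ∀ f ∈ S, f 0 ∈ C)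
    (h : ∀ f ∈ S, ∀ k : ℕ, ∀ hk : k + 1 < n + 1, f ⟨k, by omega⟩ = 0 → f ⟨k + 1, hk⟩ ∈ Z) :
    Module.finrank F2 S ≤ Module.finrank F2 C + n * Module.finrank F2 Z := by
  obtain ⟨K, hK⟩ : ∃ K : ℕ → Submodule F2 (Fin (n + 1) → E), ∀ j f, f ∈ K j ↔
      f ∈ S ∧ ∀ l : Fin (n + 1), (l : ℕ) ≤ j → f l = 0 := by
    refine ⟨fun j => {
      carrier := {f | f ∈ S ∧ ∀ l : Fin (n + 1), (l : ℕ) ≤ j → f l = 0}
      zero_mem' := ⟨Submodule.zero_mem _, fun _ _ => rfl⟩
      add_mem' := ?_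
      smul_mem' := ?_ }, fun j f => Iff.rfl⟩
    · rintro f g ⟨h1, h2⟩ ⟨h3, h4⟩
      refine ⟨Submodule.add_mem _ h1 h3, fun l hl => ?_⟩
      rw [Pi.add_apply, h2 l hl, h4 l hl, add_zero]
    · rintro c f ⟨h1, h2⟩
      refine ⟨Submodule.smul_mem _ c h1, fun l hl => ?_⟩
      rw [Pi.smul_apply, h2 l hl, smul_zero]
  have hind : ∀ t j, j + t = n → Module.finrank F2 (K j) ≤ t * Module.finrank F2 Z := by
    intro t
    induction t with
    | zero =>
      intro j hj
      have h1 : K j = ⊥ := by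
        rw [eq_bot_iff]
        intro f hf
        rw [Submodule.mem_bot]
        funext l
        exact ((hK j f).1 hf).2 l (by omega)
      rw [h1, finrank_bot]
      omega
    | succ t ih =>
      intro j hj
      have hj1 : j + 1 < n + 1 := by omega
      have h1 := LinA_rank (LinearMap.proj (R := F2) (φ := fun _ : Fin (n + 1) => E)
        ⟨j + 1, hj1⟩) (K j)
      have h2 : (K j).map (LinearMap.proj (R := F2) (φ := fun _ : Fin (n + 1) => E)
        ⟨j + 1, hj1⟩) ≤ Z := by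
        rintro _ ⟨f, hf, rfl⟩
        have h3 := (hK j f).1 hf
        exact h f h3.1 j hj1 (h3.2 _ le_rfl)
      have h3 : K j ⊓ LinearMap.ker (LinearMap.proj (R := F2) (φ := fun _ : Fin (n + 1) => E)
        ⟨j + 1, hj1⟩) ≤ K (j + 1) := by
        rintro f ⟨hf, hk⟩
        have h4 := (hK j f).1 hf
        refine (hK (j + 1) f).2 ⟨h4.1, fun l hl => ?_⟩
        rcases Nat.lt_or_ge (l : ℕ) (j + 1) with h5 | h5
        · exact h4.2 l (by omega)
        · have h6 : l = ⟨j + 1, hj1⟩ := Fin.ext (by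
            change (l : ℕ) = j + 1
            omega)
          rw [h6]
          exact LinearMap.mem_ker.1 hk
      have h4 := Submodule.finrank_mono h2
      have h5 := Submodule.finrank_mono h3
      have h6 := ih (j + 1) (by omega)
      rw [Nat.add_mul, Nat.one_mul]
      omega
  have h1 := LinA_rank (LinearMap.proj (R := F2) (φ := fun _ : Fin (n + 1) => E) 0) S
  have h2 : S.map (LinearMap.proj (R := F2) (φ := fun _ : Fin (n + 1) => E) 0) ≤ C := by
    rintro _ ⟨f, hf, rfl⟩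
    exact h0 f hf
  have h3 : S ⊓ LinearMap.ker (LinearMap.proj (R := F2) (φ := fun _ : Fin (n + 1) => E) 0) ≤
      K 0 := by
    rintro f ⟨hf, hk⟩
    refine (hK 0 f).2 ⟨hf, fun l hl => ?_⟩
    have h6 : l = 0 := Fin.ext (by
      change (l : ℕ) = 0
      omega)
    rw [h6]
    exact LinearMap.mem_ker.1 hk
  have h4 := Submodule.finrank_mono h2
  have h5 := Submodule.finrank_mono h3
  have h6 := hind n 0 (by omega)
  omega

/-- the boundary `d + T D`, where `T` is the shift -/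
noncomputable def gsh (n : ℕ) (d D : Module.End F2 E) : Module.End F2 (Fin (n + 1) → E) where
  toFun f k := d (f k) + D (f ((finRotate (n + 1)).symm k))
  map_add' f g := by
    funext k
    simp only [Pi.add_apply, map_add]
    abel
  map_smul' c f := by
    funext k
    simp only [Pi.smul_apply, map_smul, smul_add, RingHom.id_apply]

theorem gsh_apply (n : ℕ) (d D : Module.End F2 E) (f : Fin (n + 1) → E) (k : Fin (n + 1)) :
    gsh n d D f k = d (f k) + D (f ((finRotate (n + 1)).symm k)) := rfl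

theorem glue_ker (n : ℕ) (d D : Module.End F2 E) (C : Submodule F2 E) :
    Module.finrank F2 (gpi (n + 1) C ⊓ LinearMap.ker (gsh n d D) :
      Submodule F2 (Fin (n + 1) → E)) ≤ Module.finrank F2 C +
        n * Module.finrank F2 (C ⊓ LinearMap.ker d : Submodule F2 E) := by
  refine glue_fil _ _ _ (fun f hf => hf.1 0) (fun f hf k hk h => ⟨hf.1 _, ?_⟩)
  have h1 := congrFun (LinearMap.mem_ker.1 hf.2) ⟨k + 1, hk⟩
  have h2 : (finRotate (n + 1)).symm ⟨k + 1, hk⟩ = ⟨k, by omega⟩ := by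
    rw [Equiv.symm_apply_eq]
    exact (finRotate_of_lt (by omega : k < n)).symm
  rw [gsh_apply, h2, h, map_zero, add_zero] at h1
  exact LinearMap.mem_ker.2 h1

theorem glue_shift (n : ℕ) (d D : Module.End F2 E) (C : ℕ → Submodule F2 E) (i : ℕ) :
    hx (gsh n d D) (fun j => gpi (n + 1) (C j)) i ≤ Module.finrank F2 (C i) + n * hx d C i := by
  have h1 := glue_ker n d D (C i)
  have h2 := glue_ker n d D (C (i + 1))
  have h3 := finrank_gpi (n + 1) (C (i + 1))
  rw [hx_eq, hx_eq]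
  zify at h1 h2 h3
  rw [h3]
  linarith

end Pool.Agent.H73.GC

end

section

/-!
# Growth calculus: gluing, the complex of the pairs of chains
-/

set_option autoImplicit false
set_option linter.unusedSectionVars false

open Finset

namespace Pool.Agent.H73.GC

variable {V : Type} [DecidableEq V] [Fintype V]
variable {Y : Type} [AddCommGroup Y] [Module F2 Y]

/-- the operators for the gluing -/
structure GOp (F : Finset V) (r : V → Module.End F2 Y) (ρ ν τ : Module.End F2 Y) : Prop where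
  ker : ∀ y, ν y = 0 ↔ ρ y = y
  sq : ∀ y, ν (ν y) = 0
  tau : ∀ y, ρ y = y → ν (τ y) = y
  nu_r : ∀ v ∈ F, ∀ y, ν (r v y) = r v (ν y)
  tau_r : ∀ v ∈ F, ∀ y, τ (r v y) = r v (τ y)

/-- the operators for the whole complex -/
def gtw (A : Finset V) (r : V → Module.End F2 Y) (ν : Module.End F2 Y) (v : V) :
    Module.End F2 Y := if v ∈ A then r v else (1 + ν) * r v * (1 + ν)

theorem gtw_mem {A : Finset V} {r : V → Module.End F2 Y} {ν : Module.End F2 Y} {v : V}
    (hv : v ∈ A) (y : Y) : gtw A r ν v y = r v y := by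
  rw [gtw, if_pos hv]

theorem gtw_not {A : Finset V} {r : V → Module.End F2 Y} {ν : Module.End F2 Y} {v : V}
    (hv : v ∉ A) (y : Y) : gtw A r ν v y = (1 + ν) (r v ((1 + ν) y)) := by
  rw [gtw, if_neg hv]
  rfl

theorem gone (ν : Module.End F2 Y) (y : Y) : (1 + ν) y = y + ν y := rfl

theorem GOp.gg {F : Finset V} {r : V → Module.End F2 Y} {ρ ν τ : Module.End F2 Y}
    (ho : GOp F r ρ ν τ) (y : Y) : (1 + ν) ((1 + ν) y) = y := by
  rw [gone, gone, map_add, ho.sq, add_zero, add_assoc, ZModModule.add_self, add_zero]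

/-- the link parts of both chains -/
def gU (c c' : V) : ((Finset V → Y) × (Finset V → Y)) →ₗ[F2] (Finset V → Y) :=
  (glk c).comp (LinearMap.fst F2 _ _) + (glk c').comp (LinearMap.snd F2 _ _)

theorem gU_apply (c c' : V) (f : (Finset V → Y) × (Finset V → Y)) :
    gU c c' f = glk c f.1 + glk c' f.2 := rfl

/-- the boundaries of both chains -/
def gd0 : Module.End F2 ((Finset V → Y) × (Finset V → Y)) := LinearMap.prodMap dd dd

/-- the correction of the boundary -/
def gD (c c' : V) (τ : Module.End F2 Y) : Module.End F2 ((Finset V → Y) × (Finset V → Y)) :=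
  (LinearMap.prod (τ.compLeft (Finset V)) (τ.compLeft (Finset V))).comp (gU c c')

/-- the boundary of the pairs of chains -/
def gdT (c c' : V) (τ : Module.End F2 Y) : Module.End F2 ((Finset V → Y) × (Finset V → Y)) :=
  gd0 + gD c c' τ

theorem gdT_apply (c c' : V) (τ : Module.End F2 Y) (f : (Finset V → Y) × (Finset V → Y)) :
    gdT c c' τ f = (dd f.1 + τ.compLeft (Finset V) (gU c c' f),
      dd f.2 + τ.compLeft (Finset V) (gU c c' f)) := rfl

/-- the pairs of chains -/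
def gC (G₁ G₂ : SimpleGraph V) (A B : Finset V) (c c' : V) (r : V → Module.End F2 Y)
    (ρ : Module.End F2 Y) (j : ℕ) : Submodule F2 ((Finset V → Y) × (Finset V → Y)) :=
  (Ch (Sy (Cq G₁ (insert c A)) (Function.update r c ρ)) j).prod
    (Ch (Sy (Cq G₂ (insert c' B)) (Function.update r c' ρ)) j)

theorem mem_gC {G₁ G₂ : SimpleGraph V} {A B : Finset V} {c c' : V} {r : V → Module.End F2 Y}
    {ρ : Module.End F2 Y} {j : ℕ} {f : (Finset V → Y) × (Finset V → Y)} :
    f ∈ gC G₁ G₂ A B c c' r ρ j ↔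
      f.1 ∈ Ch (Sy (Cq G₁ (insert c A)) (Function.update r c ρ)) j ∧
      f.2 ∈ Ch (Sy (Cq G₂ (insert c' B)) (Function.update r c' ρ)) j := Iff.rfl

/-- the map to the chains of the whole complex -/
def gPhi (c c' : V) (ν : Module.End F2 Y) :
    ((Finset V → Y) × (Finset V → Y)) →ₗ[F2] (Finset V → Y) :=
  (gdl c).comp (LinearMap.fst F2 _ _) +
    (((1 + ν : Module.End F2 Y).compLeft (Finset V)).comp (gdl c')).comp (LinearMap.snd F2 _ _)

theorem gPhi_apply (c c' : V) (ν : Module.End F2 Y) (f : (Finset V → Y) × (Finset V → Y)) :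
    gPhi c c' ν f = gdl c f.1 + (1 + ν : Module.End F2 Y).compLeft (Finset V) (gdl c' f.2) := rfl

theorem gSy_op {X : Finset V → Prop} {F : Finset V} (hX : ∀ s, X s → s ⊆ F)
    {r : V → Module.End F2 Y} {M : Module.End F2 Y} (hM : ∀ v ∈ F, ∀ y, M (r v y) = r v (M y))
    {s : Finset V} {y : Y} (hy : y ∈ Sy X r s) : M y ∈ Sy X r s := by
  refine ⟨fun hn => by rw [hy.1 hn, map_zero], fun v hv => ?_⟩
  by_cases hs : X s
  · rw [← hM v (hX s hs hv), hy.2 v hv]
  · rw [hy.1 hs, map_zero, map_zero]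

section Two

variable {G G₁ G₂ : SimpleGraph V} {A B F : Finset V} {c c' : V} {r : V → Module.End F2 Y}
  {ρ ν τ : Module.End F2 Y}

theorem gU_mem (h₁ : GHalf G₁ G A F c) (h₂ : GHalf G₂ G B F c') {j : ℕ}
    {f : (Finset V → Y) × (Finset V → Y)} (hf : f ∈ gC G₁ G₂ A B c c' r ρ j) (s : Finset V) :
    gU c c' f s ∈ Sy (Cq G F) r s ∧ ρ (gU c c' f s) = gU c c' f s ∧
      (s.card + 1 ≠ j → gU c c' f s = 0) := by
  obtain ⟨h3, h4, h5⟩ := h₁.lk_mem hf.1 s
  obtain ⟨h6, h7, h8⟩ := h₂.lk_mem hf.2 s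
  rw [gU_apply, Pi.add_apply]
  exact ⟨Submodule.add_mem _ h3 h6, by rw [map_add, h4, h7],
    fun hn => by rw [h5 hn, h8 hn, add_zero]⟩

theorem gtU_mem (h₁ : GHalf G₁ G A F c) (h₂ : GHalf G₂ G B F c')
    (hτ : ∀ v ∈ F, ∀ y, τ (r v y) = r v (τ y)) {j : ℕ}
    {f : (Finset V → Y) × (Finset V → Y)} (hf : f ∈ gC G₁ G₂ A B c c' r ρ (j + 1)) :
    τ.compLeft (Finset V) (gU c c' f) ∈ Ch (Sy (Cq G F) r) j := by
  intro s
  obtain ⟨h3, -, h5⟩ := gU_mem h₁ h₂ hf s
  refine ⟨gSy_op (fun _ h => h.2) hτ h3, fun hn => ?_⟩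
  change τ (gU c c' f s) = 0
  rw [h5 (by omega), map_zero]

theorem gU_zero (h₁ : GHalf G₁ G A F c) (h₂ : GHalf G₂ G B F c') {j : ℕ}
    {f : (Finset V → Y) × (Finset V → Y)} (hf : f ∈ gC G₁ G₂ A B c c' r ρ j) {s : Finset V}
    {v : V} (hv : v ∉ F) (hs : v ∈ s) : gU c c' f s = 0 :=
  (gU_mem h₁ h₂ hf s).1.1 fun hn => hv (hn.2 hs)

theorem glk_zero {v : V} {u : Finset V → Y} (hu : ∀ s, v ∈ s → u s = 0)
    (M : Module.End F2 Y) : glk v (M.compLeft (Finset V) u) = 0 := by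
  funext s
  by_cases hs : v ∈ s
  · rw [glk_mem hs, Pi.zero_apply]
  · rw [glk_not hs]
    change M (u (insert v s)) = 0
    rw [hu _ (mem_insert_self v s), map_zero]

theorem gdl_eq {v : V} {u : Finset V → Y} (hu : ∀ s, v ∈ s → u s = 0)
    (M : Module.End F2 Y) : gdl v (M.compLeft (Finset V) u) = M.compLeft (Finset V) u := by
  funext s
  by_cases hs : v ∈ s
  · rw [gdl_mem hs]
    change 0 = M (u s)
    rw [hu _ hs, map_zero]
  · rw [gdl_not hs]

theorem isCx_gC (h₁ : GHalf G₁ G A F c) (h₂ : GHalf G₂ G B F c')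
    (hτ : ∀ v ∈ F, ∀ y, τ (r v y) = r v (τ y)) :
    IsCx (gdT c c' τ) (gC G₁ G₂ A B c c' r ρ) := by
  have hc : c ∉ F := fun h => h₁.hc (h₁.hF h)
  have hc' : c' ∉ F := fun h => h₂.hc (h₂.hF h)
  refine ⟨fun j f hf => ?_, fun j f hf => ?_⟩
  · have h3 := gtU_mem h₁ h₂ hτ hf
    rw [gdT_apply]
    exact ⟨Submodule.add_mem _ ((isCx_Ch (mono_Sy (mono_Cq _ _) _)).map j _ hf.1) (h₁.mem_of h3),
      Submodule.add_mem _ ((isCx_Ch (mono_Sy (mono_Cq _ _) _)).map j _ hf.2) (h₂.mem_of h3)⟩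
  · have h3 : ∀ s, c ∈ s → gU c c' f s = 0 := fun s => gU_zero h₁ h₂ hf hc
    have h4 : ∀ s, c' ∈ s → gU c c' f s = 0 := fun s => gU_zero h₁ h₂ hf hc'
    have h5 : gU c c' (gdT c c' τ f) = dd (gU c c' f) := by
      rw [gdT_apply, gU_apply]
      dsimp only
      rw [map_add, map_add, glk_zero h3, glk_zero h4, add_zero, add_zero, glk_dd, glk_dd,
        ← map_add]
      rfl
    rw [gdT_apply c c' τ (gdT c c' τ f), h5, dd_compLeft, gdT_apply]
    dsimp only
    rw [map_add, map_add, dd_dd, dd_dd, zero_add, ZModModule.add_self]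
    rfl

theorem gPhi_dd (h₁ : GHalf G₁ G A F c) (h₂ : GHalf G₂ G B F c') (ho : GOp F r ρ ν τ) {j : ℕ}
    {f : (Finset V → Y) × (Finset V → Y)} (hf : f ∈ gC G₁ G₂ A B c c' r ρ j) :
    gPhi c c' ν (gdT c c' τ f) = dd (gPhi c c' ν f) := by
  have hc : c ∉ F := fun h => h₁.hc (h₁.hF h)
  have hc' : c' ∉ F := fun h => h₂.hc (h₂.hF h)
  have h3 : ∀ s, c ∈ s → gU c c' f s = 0 := fun s => gU_zero h₁ h₂ hf hc
  have h4 : ∀ s, c' ∈ s → gU c c' f s = 0 := fun s => gU_zero h₁ h₂ hf hc'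
  rw [gdT_apply, gPhi_apply, gPhi_apply]
  dsimp only
  rw [map_add (gdl c), map_add (gdl c'), gdl_eq h3, gdl_eq h4, gdl_dd, gdl_dd, map_add dd,
    ← dd_compLeft]
  funext s
  have h5 : ρ (gU c c' f s) = gU c c' f s := (gU_mem h₁ h₂ hf s).2.1
  have h6 : ν (τ (gU c c' f s)) = gU c c' f s := ho.tau _ h5
  have h7 : ν (glk c' f.2 s) = 0 := (ho.ker _).2 (h₂.lk_mem hf.2 s).2.1
  change dd (gdl c f.1) s + glk c f.1 s + τ (gU c c' f s) +
    (1 + ν) (dd (gdl c' f.2) s + glk c' f.2 s + τ (gU c c' f s)) =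
      dd (gdl c f.1) s + (1 + ν) (dd (gdl c' f.2) s)
  rw [gone, gone, map_add, map_add, h6, h7, gU_apply, Pi.add_apply]
  have h8 := ZModModule.add_self (τ (glk c f.1 s + glk c' f.2 s))
  have h9 := ZModModule.add_self (glk c f.1 s)
  have h10 := ZModModule.add_self (glk c' f.2 s)
  linear_combination (norm := module) h8 + h9 + h10

theorem gPhi_left {s : Finset V} {y : Y} (hy : y ∈ Sy (Cq G A) r s) :
    y ∈ Sy (Cq G (A ∪ B)) (gtw A r ν) s := by
  refine ⟨fun hn => hy.1 fun hn' => hn ⟨hn'.1, hn'.2.trans subset_union_left⟩, fun v hv => ?_⟩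
  by_cases hs : Cq G A s
  · rw [gtw_mem (hs.2 hv), hy.2 v hv]
  · rw [hy.1 hs, map_zero]

theorem gPhi_right (ho : GOp (A ∩ B) r ρ ν τ) {s : Finset V} {y : Y}
    (hy : y ∈ Sy (Cq G B) r s) : (1 + ν) y ∈ Sy (Cq G (A ∪ B)) (gtw A r ν) s := by
  refine ⟨fun hn => ?_, fun v hv => ?_⟩
  · rw [hy.1 fun hn' => hn ⟨hn'.1, hn'.2.trans subset_union_right⟩, map_zero]
  by_cases hs : Cq G B s
  · by_cases hA : v ∈ A
    · rw [gtw_mem hA, gone, map_add, ← ho.nu_r v (mem_inter.2 ⟨hA, hs.2 hv⟩), hy.2 v hv]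
    · rw [gtw_not hA, ho.gg, hy.2 v hv]
  · rw [hy.1 hs, map_zero, map_zero]

theorem gPhi_mem (h₁ : GHalf G₁ G A (A ∩ B) c) (h₂ : GHalf G₂ G B (A ∩ B) c')
    (ho : GOp (A ∩ B) r ρ ν τ) {j : ℕ}
    {f : (Finset V → Y) × (Finset V → Y)} (hf : f ∈ gC G₁ G₂ A B c c' r ρ j) :
    gPhi c c' ν f ∈ Ch (Sy (Cq G (A ∪ B)) (gtw A r ν)) j := by
  intro s
  have h3 := h₁.dl_mem hf.1 s
  have h4 := h₂.dl_mem hf.2 s
  have h5 : gPhi c c' ν f s = gdl c f.1 s + (1 + ν) (gdl c' f.2 s) := rfl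
  rw [h5]
  exact ⟨Submodule.add_mem _ (gPhi_left h3.1) (gPhi_right ho h4.1),
    fun hn => by rw [h3.2 hn, h4.2 hn, map_zero, add_zero]⟩

theorem gz_left {s : Finset V} {z : Y} (hz : z ∈ Sy (Cq G (A ∪ B)) (gtw A r ν) s) (hs : s ⊆ A) :
    z ∈ Sy (Cq G A) r s := by
  refine ⟨fun hn => hz.1 fun hn' => hn ⟨hn'.1, hs⟩, fun v hv => ?_⟩
  rw [← gtw_mem (hs hv) (ν := ν), hz.2 v hv]

theorem gz_right (hno : ∀ a ∈ A, a ∉ B → ∀ b ∈ B, b ∉ A → ¬ G.Adj a b)
    (ho : GOp (A ∩ B) r ρ ν τ) {s : Finset V} {z : Y}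
    (hz : z ∈ Sy (Cq G (A ∪ B)) (gtw A r ν) s) (hs : ¬ s ⊆ A) :
    (1 + ν) z ∈ Sy (Cq G B) r s := by
  obtain ⟨b, hb, hbA⟩ := not_subset.1 hs
  have h3 : Cq G (A ∪ B) s → s ⊆ B := by
    intro h a ha
    by_contra haB
    have h4 := h.2 ha
    have h5 := h.2 hb
    rw [mem_union] at h4 h5
    have h6 : a ∈ A := h4.resolve_right haB
    have h7 : b ∈ B := h5.resolve_left hbA
    exact hno a h6 haB b h7 hbA (h.1 ha hb fun e => haB (e ▸ h7))
  refine ⟨fun hn => ?_, fun v hv => ?_⟩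
  · rw [hz.1 fun hn' => hn ⟨hn'.1, h3 hn'⟩, map_zero]
  by_cases hc : Cq G (A ∪ B) s
  · have hvB := h3 hc hv
    have h4 := hz.2 v hv
    by_cases hA : v ∈ A
    · rw [gtw_mem hA] at h4
      rw [gone, map_add, ← ho.nu_r v (mem_inter.2 ⟨hA, hvB⟩), h4]
    · rw [gtw_not hA] at h4
      have h5 : (1 + ν) ((1 + ν) (r v ((1 + ν) z))) = (1 + ν) z := by rw [h4]
      rw [ho.gg] at h5
      exact h5
  · rw [hz.1 hc, map_zero, map_zero]

end Two

end Pool.Agent.H73.GC

end

section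

/-!
# Growth calculus: gluing, the cycles
-/

set_option autoImplicit false
set_option linter.unusedSectionVars false

open Finset

namespace Pool.Agent.H73.GC

variable {V : Type} [DecidableEq V] [Fintype V]
variable {Y : Type} [AddCommGroup Y] [Module F2 Y]
variable {G G₁ G₂ : SimpleGraph V} {A B : Finset V} {c c' : V} {r : V → Module.End F2 Y}
  {ρ ν τ : Module.End F2 Y}

theorem gPhi_surj (h₁ : GHalf G₁ G A (A ∩ B) c) (h₂ : GHalf G₂ G B (A ∩ B) c')
    (hno : ∀ a ∈ A, a ∉ B → ∀ b ∈ B, b ∉ A → ¬ G.Adj a b) (ho : GOp (A ∩ B) r ρ ν τ) {i : ℕ}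
    {z : Finset V → Y} (hz : z ∈ Ch (Sy (Cq G (A ∪ B)) (gtw A r ν)) i) (hdz : dd z = 0) :
    ∃ f ∈ gC G₁ G₂ A B c c' r ρ i, gdT c c' τ f = 0 ∧ gPhi c c' ν f = z := by
  have hc : c ∉ A ∩ B := fun h => h₁.hc (h₁.hF h)
  have hc' : c' ∉ A ∩ B := fun h => h₂.hc (h₂.hF h)
  obtain ⟨x₁, hx₁⟩ : ∃ x : Finset V → Y, ∀ s, x s = if s ⊆ A then z s else 0 := ⟨_, fun _ => rfl⟩
  obtain ⟨x₂, hx₂⟩ : ∃ x : Finset V → Y, ∀ s, x s = if s ⊆ A then 0 else (1 + ν) (z s) :=
    ⟨_, fun _ => rfl⟩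
  have hm₁ : x₁ ∈ Ch (Sy (Cq G A) r) i := by
    intro s
    rw [hx₁]
    by_cases hs : s ⊆ A
    · rw [if_pos hs]
      exact ⟨gz_left (hz s).1 hs, (hz s).2⟩
    · rw [if_neg hs]
      exact ⟨Submodule.zero_mem _, fun _ => rfl⟩
  have hm₂ : x₂ ∈ Ch (Sy (Cq G B) r) i := by
    intro s
    rw [hx₂]
    by_cases hs : s ⊆ A
    · rw [if_pos hs]
      exact ⟨Submodule.zero_mem _, fun _ => rfl⟩
    · rw [if_neg hs]
      exact ⟨gz_right hno ho (hz s).1 hs, fun hn => by rw [(hz s).2 hn, map_zero]⟩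
  have hzx : z = x₁ + (1 + ν : Module.End F2 Y).compLeft (Finset V) x₂ := by
    funext s
    change z s = x₁ s + (1 + ν) (x₂ s)
    rw [hx₁, hx₂]
    by_cases hs : s ⊆ A
    · rw [if_pos hs, if_pos hs, map_zero, add_zero]
    · rw [if_neg hs, if_neg hs, ho.gg, zero_add]
  obtain ⟨y, hy⟩ : ∃ y : Finset V → Y, y = dd x₁ := ⟨_, rfl⟩
  have hy2 : ∀ s, y s = (1 + ν) (dd x₂ s) := by
    intro s
    have h3 : dd z s = 0 := by rw [hdz]; rfl
    rw [hzx, map_add, ← dd_compLeft, ← hy] at h3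
    change y s + (1 + ν) (dd x₂ s) = 0 at h3
    have h4 := ZModModule.add_self ((1 + ν) (dd x₂ s))
    linear_combination (norm := module) h3 - h4
  have hy3 : ∀ s, (1 + ν) (y s) = dd x₂ s := fun s => by rw [hy2 s, ho.gg]
  have hyA : ∀ s, y s ∈ Sy (Cq G A) r s := by
    intro s
    rw [hy, dd_apply]
    exact Submodule.sum_mem _ fun v _ => mono_Sy (mono_Cq G A) r s v (hm₁ (insert v s)).1
  have hyB : ∀ s, dd x₂ s ∈ Sy (Cq G B) r s := by
    intro s
    rw [dd_apply]
    exact Submodule.sum_mem _ fun v _ => mono_Sy (mono_Cq G B) r s v (hm₂ (insert v s)).1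
  have hyF : ∀ s, y s ∈ Sy (Cq G (A ∩ B)) r s := by
    intro s
    refine ⟨fun hn => ?_, (hyA s).2⟩
    by_cases hsA : Cq G A s
    · rw [hy2 s, (hyB s).1 fun hsB => hn ⟨hsA.1, subset_inter hsA.2 hsB.2⟩, map_zero]
    · exact (hyA s).1 hsA
  have hyi : ∀ s : Finset V, s.card + 1 ≠ i → y s = 0 := by
    intro s hs
    rw [hy, dd_apply]
    refine sum_eq_zero fun v hv => (hm₁ (insert v s)).2 ?_
    rw [card_insert_of_notMem (mem_compl.1 hv)]
    exact hs
  have hdy : dd y = 0 := by rw [hy]; exact dd_dd x₁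
  obtain ⟨a₁, ha₁⟩ : ∃ a : Finset V → Y, a = y + (τ * ν : Module.End F2 Y).compLeft (Finset V) y :=
    ⟨_, rfl⟩
  obtain ⟨a₂, ha₂⟩ : ∃ a : Finset V → Y, a = a₁ + ν.compLeft (Finset V) y := ⟨_, rfl⟩
  have ha₁s : ∀ s, a₁ s = y s + τ (ν (y s)) := fun s => by rw [ha₁]; rfl
  have ha₂s : ∀ s, a₂ s = a₁ s + ν (y s) := fun s => by rw [ha₂]; rfl
  have hνρ : ∀ w, ρ (ν w) = ν w := fun w => (ho.ker _).1 (ho.sq w)
  have hF : ∀ s, Cq G (A ∩ B) s → s ⊆ A ∩ B := fun _ h => h.2
  have hm₃ : ∀ s, a₁ s ∈ Sy (Cq G (A ∩ B)) r s ∧ ρ (a₁ s) = a₁ s ∧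
      (s.card + 1 ≠ i → a₁ s = 0) := by
    intro s
    rw [ha₁s]
    refine ⟨Submodule.add_mem _ (hyF s) (gSy_op hF ho.tau_r (gSy_op hF ho.nu_r (hyF s))), ?_,
      fun hn => by rw [hyi s hn, map_zero, map_zero, add_zero]⟩
    rw [← ho.ker, map_add, ho.tau _ (hνρ _)]
    exact ZModModule.add_self _
  have hm₄ : ∀ s, a₂ s ∈ Sy (Cq G (A ∩ B)) r s ∧ ρ (a₂ s) = a₂ s ∧
      (s.card + 1 ≠ i → a₂ s = 0) := by
    intro s
    rw [ha₂s]
    exact ⟨Submodule.add_mem _ (hm₃ s).1 (gSy_op hF ho.nu_r (hyF s)),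
      by rw [map_add, hνρ, (hm₃ s).2.1],
      fun hn => by rw [(hm₃ s).2.2 hn, hyi s hn, map_zero, add_zero]⟩
  have hz₁ : ∀ s, c ∈ s → a₁ s = 0 := fun s hs => (hm₃ s).1.1 fun hn => hc (hn.2 hs)
  have hz₂ : ∀ s, c' ∈ s → a₂ s = 0 := fun s hs => (hm₄ s).1.1 fun hn => hc' (hn.2 hs)
  have hz₃ : ∀ s, c ∈ s → x₁ s = 0 := fun s hs => (hm₁ s).1.1 fun hn => h₁.hc (hn.2 hs)
  have hz₄ : ∀ s, c' ∈ s → x₂ s = 0 := fun s hs => (hm₂ s).1.1 fun hn => h₂.hc (hn.2 hs)
  have hf : (gmk c x₁ a₁, gmk c' x₂ a₂) ∈ gC G₁ G₂ A B c c' r ρ i :=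
    ⟨h₁.mk_mem hm₁ hm₃, h₂.mk_mem hm₂ hm₄⟩
  have hu : gU c c' (gmk c x₁ a₁, gmk c' x₂ a₂) = a₁ + a₂ := by
    rw [gU_apply]
    dsimp only
    rw [gmk_lk hz₁, gmk_lk hz₂]
  have hu₁ : ∀ s, c ∈ s → (a₁ + a₂) s = 0 := fun s hs => by
    rw [Pi.add_apply, hz₁ s hs, (hm₄ s).1.1 fun hn => hc (hn.2 hs), add_zero]
  have hu₂ : ∀ s, c' ∈ s → (a₁ + a₂) s = 0 := fun s hs => by
    rw [Pi.add_apply, hz₂ s hs, (hm₃ s).1.1 fun hn => hc' (hn.2 hs), add_zero]
  have hda₁ : dd a₁ = 0 := by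
    rw [ha₁, map_add, ← dd_compLeft, hdy, map_zero, add_zero]
  have hda₂ : dd a₂ = 0 := by
    rw [ha₂, map_add, ← dd_compLeft, hdy, map_zero, add_zero, hda₁]
  refine ⟨(gmk c x₁ a₁, gmk c' x₂ a₂), hf, ?_, ?_⟩
  · rw [gdT_apply, hu]
    refine Prod.ext ?_ ?_
    · refine gext c ?_ ?_
      · dsimp only
        rw [map_add, gdl_dd, gmk_dl hz₃, gmk_lk hz₁, gdl_eq hu₁, ← hy]
        funext s
        change y s + a₁ s + τ (a₁ s + a₂ s) = 0
        rw [ha₂s, ha₁s, ← add_assoc (y s + τ (ν (y s))) (y s + τ (ν (y s))) (ν (y s)),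
          ZModModule.add_self (y s + τ (ν (y s))), zero_add]
        have h3 := ZModModule.add_self (y s)
        have h5 := ZModModule.add_self (τ (ν (y s)))
        linear_combination (norm := module) h3 + h5
      · dsimp only
        rw [map_add, glk_dd, gmk_lk hz₁, glk_zero hu₁, hda₁, add_zero]
    · refine gext c' ?_ ?_
      · dsimp only
        rw [map_add, gdl_dd, gmk_dl hz₄, gmk_lk hz₂, gdl_eq hu₂]
        funext s
        change dd x₂ s + a₂ s + τ (a₁ s + a₂ s) = 0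
        rw [← hy3, gone, ha₂s, ha₁s, ← add_assoc (y s + τ (ν (y s))) (y s + τ (ν (y s))) (ν (y s)),
          ZModModule.add_self (y s + τ (ν (y s))), zero_add]
        have h3 := ZModModule.add_self (y s)
        have h4 := ZModModule.add_self (ν (y s))
        have h5 := ZModModule.add_self (τ (ν (y s)))
        linear_combination (norm := module) h3 + h4 + h5
      · dsimp only
        rw [map_add, glk_dd, gmk_lk hz₂, glk_zero hu₂, hda₂, add_zero]
  · rw [gPhi_apply]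
    dsimp only
    rw [gmk_dl hz₃, gmk_dl hz₄]
    exact hzx.symm

/-- The homology of the whole complex is bounded by the homology of the complex of the pairs. -/
theorem glue_cx [Finite Y] (h₁ : GHalf G₁ G A (A ∩ B) c) (h₂ : GHalf G₂ G B (A ∩ B) c')
    (hno : ∀ a ∈ A, a ∉ B → ∀ b ∈ B, b ∉ A → ¬ G.Adj a b) (ho : GOp (A ∩ B) r ρ ν τ) (i : ℕ) :
    hX (Cq G (A ∪ B)) (gtw A r ν) i ≤ hx (gdT c c' τ) (gC G₁ G₂ A B c c' r ρ) i := by
  refine glue_surj (isCx_gC h₁ h₂ ho.tau_r) (isCx_Ch (mono_Sy (mono_Cq _ _) _)) (gPhi c c' ν) i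
    (fun f hf => gPhi_mem h₁ h₂ ho hf) (fun f hf => gPhi_dd h₁ h₂ ho hf) fun z hz hdz => ?_
  obtain ⟨f, hf, h3, h4⟩ := gPhi_surj h₁ h₂ hno ho hz hdz
  exact ⟨f, hf, h3, h4⟩

end Pool.Agent.H73.GC

end

section

/-!
# Growth calculus: gluing, many copies of the module
-/

set_option autoImplicit false
set_option linter.unusedSectionVars false

open Finset

namespace Pool.Agent.H73.GC

section Lin

variable {E E' : Type} [AddCommGroup E] [Module F2 E] [Finite E] [AddCommGroup E'] [Module F2 E']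
  [Finite E']

theorem glue_fprod (C : Submodule F2 E) (C' : Submodule F2 E') :
    Module.finrank F2 (C.prod C') = Module.finrank F2 C + Module.finrank F2 C' := by
  have e : (C.prod C') ≃ₗ[F2] C × C' :=
    { toFun := fun x => (⟨x.1.1, x.2.1⟩, ⟨x.1.2, x.2.2⟩)
      invFun := fun y => ⟨(y.1, y.2), y.1.2, y.2.2⟩
      left_inv := fun _ => rfl
      right_inv := fun _ => rfl
      map_add' := fun _ _ => rfl
      map_smul' := fun _ _ => rfl }
  rw [e.finrank_eq, Module.finrank_prod]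

/-- the homology of a product -/
theorem glue_hprod (d : Module.End F2 E) (d' : Module.End F2 E') (C : ℕ → Submodule F2 E)
    (C' : ℕ → Submodule F2 E') (i : ℕ) :
    hx (LinearMap.prodMap d d' : Module.End F2 (E × E')) (fun j => (C j).prod (C' j)) i =
      hx d C i + hx d' C' i := by
  have h1 : ((C i).prod (C' i)) ⊓ LinearMap.ker (LinearMap.prodMap d d' : Module.End F2 (E × E')) =
      (C i ⊓ LinearMap.ker d).prod (C' i ⊓ LinearMap.ker d') := by
    ext x
    constructor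
    · rintro ⟨⟨h2, h3⟩, h4⟩
      have h5 : (d x.1, d' x.2) = ((0 : E), (0 : E')) := h4
      exact ⟨⟨h2, (Prod.ext_iff.1 h5).1⟩, ⟨h3, (Prod.ext_iff.1 h5).2⟩⟩
    · rintro ⟨⟨h2, h3⟩, ⟨h4, h5⟩⟩
      exact ⟨⟨h2, h4⟩, Prod.ext h3 h5⟩
  have h2 : ((C (i + 1)).prod (C' (i + 1))).map
      (LinearMap.prodMap d d' : Module.End F2 (E × E')) =
        ((C (i + 1)).map d).prod ((C' (i + 1)).map d') := by
    ext x
    constructor
    · rintro ⟨y, ⟨h3, h4⟩, rfl⟩
      exact ⟨⟨y.1, h3, rfl⟩, ⟨y.2, h4, rfl⟩⟩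
    · rintro ⟨⟨y, h3, h4⟩, ⟨y', h5, h6⟩⟩
      exact ⟨(y, y'), ⟨h3, h5⟩, Prod.ext h4 h6⟩
  rw [hx, hx, hx]
  rw [h1, h2, glue_fprod, glue_fprod]
  push_cast
  ring

end Lin

variable {V : Type} [DecidableEq V] [Fintype V]
variable {Y : Type} [AddCommGroup Y] [Module F2 Y]

/-- `1 + ρ` and the inverse of the shift -/
noncomputable def gnu (n : ℕ) (ρ : Module.End F2 Y) : Module.End F2 (Fin (n + 1) → Y) where
  toFun y k := y (finRotate (n + 1) k) + ρ (y (finRotate (n + 1) k))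
  map_add' y z := by
    funext k
    simp only [Pi.add_apply, map_add]
    abel
  map_smul' c y := by
    funext k
    simp only [Pi.smul_apply, map_smul, smul_add, RingHom.id_apply]

/-- `θ` and the shift -/
noncomputable def gta (n : ℕ) (θ : Module.End F2 Y) : Module.End F2 (Fin (n + 1) → Y) where
  toFun y k := θ (y ((finRotate (n + 1)).symm k))
  map_add' y z := by
    funext k
    simp only [Pi.add_apply, map_add]
  map_smul' c y := by
    funext k
    simp only [Pi.smul_apply, map_smul, RingHom.id_apply]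

theorem gnu_apply (n : ℕ) (ρ : Module.End F2 Y) (y : Fin (n + 1) → Y) (k : Fin (n + 1)) :
    gnu n ρ y k = y (finRotate (n + 1) k) + ρ (y (finRotate (n + 1) k)) := rfl

theorem gta_apply (n : ℕ) (θ : Module.End F2 Y) (y : Fin (n + 1) → Y) (k : Fin (n + 1)) :
    gta n θ y k = θ (y ((finRotate (n + 1)).symm k)) := rfl

/-- the diagonal operators -/
def gdi (n : ℕ) (r : V → Module.End F2 Y) (v : V) : Module.End F2 (Fin (n + 1) → Y) :=
  (r v).compLeft (Fin (n + 1))

theorem gdi_apply (n : ℕ) (r : V → Module.End F2 Y) (v : V) (y : Fin (n + 1) → Y)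
    (k : Fin (n + 1)) : gdi n r v y k = r v (y k) := rfl

theorem gop {F : Finset V} {r : V → Module.End F2 Y} {ρ θ : Module.End F2 Y} (n : ℕ)
    (hρ : ∀ y, ρ (ρ y) = y) (hθ : ∀ y, θ (ρ y) + ρ (θ y) = ρ y)
    (hρr : ∀ v ∈ F, ∀ y, ρ (r v y) = r v (ρ y)) (hθr : ∀ v ∈ F, ∀ y, θ (r v y) = r v (θ y)) :
    GOp F (gdi n r) (ρ.compLeft (Fin (n + 1))) (gnu n ρ) (gta n θ) := by
  refine ⟨fun y => ?_, fun y => ?_, fun y hy => ?_, fun v hv y => ?_, fun v hv y => ?_⟩
  · constructor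
    · intro h
      funext k
      have h1 := congrFun h ((finRotate (n + 1)).symm k)
      rw [gnu_apply, Equiv.apply_symm_apply] at h1
      change ρ (y k) = y k
      have h2 := ZModModule.add_self (y k)
      change y k + ρ (y k) = 0 at h1
      linear_combination (norm := module) h1 - h2
    · intro h
      funext k
      have h1 : ρ (y (finRotate (n + 1) k)) = y (finRotate (n + 1) k) := congrFun h _
      rw [gnu_apply, h1]
      exact ZModModule.add_self _
  · funext k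
    rw [gnu_apply, gnu_apply, map_add, hρ, add_comm (ρ _) (y _)]
    exact ZModModule.add_self _
  · funext k
    have h1 : ρ (y k) = y k := congrFun hy k
    have h2 := hθ (y k)
    rw [gnu_apply, gta_apply, Equiv.symm_apply_apply]
    rw [h1] at h2
    exact h2
  · funext k
    rw [gnu_apply, gdi_apply, gdi_apply, gnu_apply, map_add, hρr v hv]
  · funext k
    rw [gta_apply, gdi_apply, gdi_apply, gta_apply, hθr v hv]

/-- the chains with values in the functions -/
def gio (n : ℕ) : (Fin (n + 1) → (Finset V → Y) × (Finset V → Y)) →ₗ[F2]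
    (Finset V → (Fin (n + 1) → Y)) × (Finset V → (Fin (n + 1) → Y)) where
  toFun f := (fun s k => (f k).1 s, fun s k => (f k).2 s)
  map_add' _ _ := rfl
  map_smul' _ _ := rfl

theorem gio_fst (n : ℕ) (f : Fin (n + 1) → (Finset V → Y) × (Finset V → Y)) (s : Finset V)
    (k : Fin (n + 1)) : (gio n f).1 s k = (f k).1 s := rfl

theorem gio_snd (n : ℕ) (f : Fin (n + 1) → (Finset V → Y) × (Finset V → Y)) (s : Finset V)
    (k : Fin (n + 1)) : (gio n f).2 s k = (f k).2 s := rfl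

theorem gio_inj (n : ℕ) : Function.Injective (gio (V := V) (Y := Y) n) := by
  intro f g h
  funext k
  refine Prod.ext ?_ ?_
  · funext s
    exact congrFun (congrFun (Prod.ext_iff.1 h).1 s) k
  · funext s
    exact congrFun (congrFun (Prod.ext_iff.1 h).2 s) k

theorem gU_gio (n : ℕ) (c c' : V) (f : Fin (n + 1) → (Finset V → Y) × (Finset V → Y))
    (s : Finset V) (k : Fin (n + 1)) : gU c c' (gio n f) s k = gU c c' (f k) s := by
  rw [gU_apply, gU_apply, Pi.add_apply, Pi.add_apply, Pi.add_apply]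
  congr 1
  · by_cases hs : c ∈ s
    · rw [glk_mem hs, glk_mem hs, Pi.zero_apply]
    · rw [glk_not hs, glk_not hs, gio_fst]
  · by_cases hs : c' ∈ s
    · rw [glk_mem hs, glk_mem hs, Pi.zero_apply]
    · rw [glk_not hs, glk_not hs, gio_snd]

theorem gio_d (n : ℕ) (c c' : V) (θ : Module.End F2 Y)
    (f : Fin (n + 1) → (Finset V → Y) × (Finset V → Y)) :
    gio n (gsh n gd0 (gD c c' θ) f) = gdT c c' (gta n θ) (gio n f) := by
  rw [gdT_apply]
  refine Prod.ext ?_ ?_
  · funext s k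
    change dd (f k).1 s + θ (gU c c' (f ((finRotate (n + 1)).symm k)) s) =
      dd (gio n f).1 s k + gta n θ (gU c c' (gio n f) s) k
    rw [gta_apply, gU_gio, dd_apply, dd_apply, Finset.sum_apply]
    rfl
  · funext s k
    change dd (f k).2 s + θ (gU c c' (f ((finRotate (n + 1)).symm k)) s) =
      dd (gio n f).2 s k + gta n θ (gU c c' (gio n f) s) k
    rw [gta_apply, gU_gio, dd_apply, dd_apply, Finset.sum_apply]
    rfl

theorem gCh_iff (n : ℕ) (X : Finset V → Prop) (r : V → Module.End F2 Y) (j : ℕ)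
    (f : Finset V → (Fin (n + 1) → Y)) :
    f ∈ Ch (Sy X (gdi n r)) j ↔ ∀ k, (fun s => f s k) ∈ Ch (Sy X r) j := by
  constructor
  · intro h k s
    refine ⟨⟨fun hn => congrFun ((h s).1.1 hn) k, fun v hv => congrFun ((h s).1.2 v hv) k⟩,
      fun hn => congrFun ((h s).2 hn) k⟩
  · intro h s
    refine ⟨⟨fun hn => funext fun k => (h k s).1.1 hn, fun v hv => funext fun k =>
      (h k s).1.2 v hv⟩, fun hn => funext fun k => (h k s).2 hn⟩

variable {G G₁ G₂ : SimpleGraph V} {A B : Finset V} {c c' : V} {r : V → Module.End F2 Y}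
  {ρ θ : Module.End F2 Y}

theorem gdi_update (n : ℕ) (c : V) (r : V → Module.End F2 Y) (ρ : Module.End F2 Y) :
    Function.update (gdi n r) c (ρ.compLeft (Fin (n + 1))) = gdi n (Function.update r c ρ) := by
  funext v
  by_cases h : v = c
  · rw [h, Function.update_self, gdi, Function.update_self]
  · rw [Function.update_of_ne h, gdi, gdi, Function.update_of_ne h]

theorem gC_map (n : ℕ) (G₁ G₂ : SimpleGraph V) (A B : Finset V) (c c' : V)
    (r : V → Module.End F2 Y) (ρ : Module.End F2 Y) (j : ℕ) :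
    (gpi (n + 1) (gC G₁ G₂ A B c c' r ρ j)).map (gio n) =
      gC G₁ G₂ A B c c' (gdi n r) (ρ.compLeft (Fin (n + 1))) j := by
  ext f
  rw [mem_gC, gdi_update, gdi_update, gCh_iff, gCh_iff]
  constructor
  · rintro ⟨g, hg, rfl⟩
    exact ⟨fun k => (hg k).1, fun k => (hg k).2⟩
  · rintro ⟨h1, h2⟩
    exact ⟨fun k => (fun s => f.1 s k, fun s => f.2 s k), fun k => ⟨h1 k, h2 k⟩, rfl⟩

/-- The bound for the homology of the whole complex, with `n + 1` copies of `Y`. -/
theorem glue_mod [Finite Y] (h₁ : GHalf G₁ G A (A ∩ B) c) (h₂ : GHalf G₂ G B (A ∩ B) c')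
    (hno : ∀ a ∈ A, a ∉ B → ∀ b ∈ B, b ∉ A → ¬ G.Adj a b)
    (hρ : ∀ y, ρ (ρ y) = y) (hθ : ∀ y, θ (ρ y) + ρ (θ y) = ρ y)
    (hρr : ∀ v ∈ A ∩ B, ∀ y, ρ (r v y) = r v (ρ y))
    (hθr : ∀ v ∈ A ∩ B, ∀ y, θ (r v y) = r v (θ y)) (n i : ℕ) :
    hX (Cq G (A ∪ B)) (gtw A (gdi n r) (gnu n ρ)) i ≤
      (2 * Fintype.card (Finset V) * Module.finrank F2 Y : ℕ) +
        n * (hX (Cq G₁ (insert c A)) (Function.update r c ρ) i +
          hX (Cq G₂ (insert c' B)) (Function.update r c' ρ) i) := by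
  have h3 := glue_cx h₁ h₂ hno (gop n hρ hθ hρr hθr) i
  have h4 := hx_map (d := gsh n gd0 (gD c c' θ)) (d' := gdT c c' (gta n θ))
    (C := fun j => gpi (n + 1) (gC G₁ G₂ A B c c' r ρ j)) (gio n) (gio_inj n)
    (fun _ x _ => gio_d n c c' θ x) i
  have h5 : (fun k => (gpi (n + 1) (gC G₁ G₂ A B c c' r ρ k)).map (gio n)) =
      gC G₁ G₂ A B c c' (gdi n r) (ρ.compLeft (Fin (n + 1))) :=
    funext fun k => gC_map n G₁ G₂ A B c c' r ρ k
  rw [h5] at h4
  have h6 := glue_shift n (gd0 (V := V) (Y := Y)) (gD c c' θ) (gC G₁ G₂ A B c c' r ρ) i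
  have h7 := glue_hprod (dd (V := V) (Y := Y)) (dd (V := V) (Y := Y))
    (Ch (Sy (Cq G₁ (insert c A)) (Function.update r c ρ)))
    (Ch (Sy (Cq G₂ (insert c' B)) (Function.update r c' ρ))) i
  have h8 : hx (gd0 (V := V) (Y := Y)) (gC G₁ G₂ A B c c' r ρ) i =
      hX (Cq G₁ (insert c A)) (Function.update r c ρ) i +
        hX (Cq G₂ (insert c' B)) (Function.update r c' ρ) i := h7
  have h9 := Submodule.finrank_le (gC G₁ G₂ A B c c' r ρ i)
  rw [Module.finrank_prod, Module.finrank_pi_fintype, sum_const, card_univ, smul_eq_mul] at h9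
  rw [h8] at h6
  rw [h4] at h3
  have h10 : (Module.finrank F2 (gC G₁ G₂ A B c c' r ρ i) : ℤ) ≤
      (2 * Fintype.card (Finset V) * Module.finrank F2 Y : ℕ) := by
    rw [Nat.cast_le]
    linarith
  linarith

end Pool.Agent.H73.GC

end

section

/-
S9 (MP_ea75ba_gt), T2: `k[G]` over `k[A]` for a subgroup of finite index, given as an injective
hom `j : A →* G` (module `IntRk` of helper85's plan).  helper27.
-/

namespace Pool.Agent.S9

open Module

universe u v w y

section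

variable {A : Type v} [Group A] {G : Type w} [Group G] (j : A →* G)

/-- The right transversal `(out q)⁻¹`, `q` a left coset. -/
noncomputable def rtr (q : G ⧸ j.range) : G := (Quotient.out q)⁻¹

theorem rtr_bijective (hj : Function.Injective j) :
    Function.Bijective (fun p : (G ⧸ j.range) × A => j p.2 * rtr j p.1) := by
  constructor
  · rintro ⟨q, a⟩ ⟨q', a'⟩ h
    have h1 : j a * (Quotient.out q)⁻¹ = j a' * (Quotient.out q')⁻¹ := h
    have h2 : Quotient.out q * (j a)⁻¹ = Quotient.out q' * (j a')⁻¹ := by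
      have := congrArg (fun x => x⁻¹) h1
      simpa [mul_inv_rev] using this
    have hq : q = q' := by
      have e1 : (QuotientGroup.mk (Quotient.out q * (j a)⁻¹) : G ⧸ j.range) = q := by
        conv_rhs => rw [← QuotientGroup.out_eq' q]
        rw [QuotientGroup.eq]
        refine ⟨a, ?_⟩
        simp [Quotient.out]
      have e2 : (QuotientGroup.mk (Quotient.out q' * (j a')⁻¹) : G ⧸ j.range) = q' := by
        conv_rhs => rw [← QuotientGroup.out_eq' q']
        rw [QuotientGroup.eq]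
        refine ⟨a', ?_⟩
        simp [Quotient.out]
      rw [← e1, h2, e2]
    subst hq
    have h3 : j a = j a' := mul_right_cancel h1
    rw [hj h3]
  · intro g
    let q : G ⧸ j.range := QuotientGroup.mk g⁻¹
    have h : (Quotient.out q)⁻¹ * g⁻¹ ∈ j.range := by
      rw [← QuotientGroup.eq]
      exact QuotientGroup.out_eq' q
    obtain ⟨a, ha⟩ := h
    refine ⟨(q, a⁻¹), ?_⟩
    change j a⁻¹ * (Quotient.out q)⁻¹ = g
    rw [map_inv, ha]
    group

end

section

variable {k : Type u} [Ring k] {A : Type v} [Group A] {G : Type w} [Group G] (j : A →* G)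

end

section

variable {k : Type u} [CommRing k] [IsDomain k] {A : Type v} [CommGroup A] [UniqueProds A]
  {G : Type w} [Group G] [UniqueProds G] (j : A →* G)

/-- **Integrality for group rings, index form.** -/
theorem index_dvd_finrank (hj : Function.Injective j) (hfi : j.range.index ≠ 0)
    (M : Type y) [AddCommGroup M] [Module (MonoidAlgebra k G) M] [Module (MonoidAlgebra k A) M]
    (hM : ∀ (r : MonoidAlgebra k A) (m : M),
      r • m = MonoidAlgebra.mapDomainRingHom k j r • m) :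
    j.range.index ∣ finrank (MonoidAlgebra k A) M := by
  haveI : j.range.FiniteIndex := ⟨hfi⟩
  exact card_dvd_finrank j (rtr j) (rtr_bijective j hj) M hM

end

end Pool.Agent.S9

end

section

/-
S9 (MP_ea75ba_gt), T2: integrality, abstract form.  helper27.

`Q` with unique products, `A` an abelian subgroup of finite index, `K` = fraction field of
`F_2[A]`, `Z` a `K`-space with an ADDITIVE action of `Q` on which `A` acts through `K`:
then `[Q : A]` divides `dim_K Z`.
-/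

set_option autoImplicit false

namespace Pool.Agent.S9

open Module

universe u v w y z

section

variable {A : Type v} [CommGroup A] {Q : Type w} [Group Q] (j : A →* Q)
  {K : Type y} [Field K] [Algebra (MonoidAlgebra (ZMod 2) A) K]
  {Z : Type z} [AddCommGroup Z] [Module K Z]

/-- the scalars `ZMod 2` in the endomorphisms of `Z` -/
noncomputable def scal (A : Type v) [CommGroup A] (K : Type y) [Field K]
    [Algebra (MonoidAlgebra (ZMod 2) A) K] (Z : Type z) [AddCommGroup Z] [Module K Z] :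
    ZMod 2 →+* AddMonoid.End Z :=
  (Module.toAddMonoidEnd K Z).comp
    ((algebraMap (MonoidAlgebra (ZMod 2) A) K).comp MonoidAlgebra.singleOneRingHom)

theorem scal_comm (x : ZMod 2) (f : AddMonoid.End Z) : Commute (scal A K Z x) f := by
  have h : x = 0 ∨ x = 1 := by
    fin_cases x
    · exact Or.inl rfl
    · exact Or.inr rfl
  rcases h with h | h
  · rw [h, map_zero]
    exact Commute.zero_left f
  · rw [h, map_one]
    exact Commute.one_left f

/-- the action of the group ring of `Q` on `Z` -/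
noncomputable def actQ (A : Type v) [CommGroup A] (K : Type y) [Field K]
    [Algebra (MonoidAlgebra (ZMod 2) A) K] (L : Q →* AddMonoid.End Z) [Module K Z] :
    MonoidAlgebra (ZMod 2) Q →+* AddMonoid.End Z :=
  MonoidAlgebra.liftNCRingHom (scal A K Z) L (fun x g => scal_comm (A := A) (K := K) x (L g))

theorem actQ_comp (L : Q →* AddMonoid.End Z)
    (hL : ∀ (a : A) (z : Z), L (j a) z =
      algebraMap (MonoidAlgebra (ZMod 2) A) K (MonoidAlgebra.single a 1) • z) :
    (actQ A K L).comp (MonoidAlgebra.mapDomainRingHom (ZMod 2) j) =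
      (Module.toAddMonoidEnd K Z).comp (algebraMap (MonoidAlgebra (ZMod 2) A) K) := by
  refine MonoidAlgebra.ringHom_ext (fun r => ?_) (fun a => ?_)
  · rw [RingHom.comp_apply, RingHom.comp_apply]
    have h1 : MonoidAlgebra.mapDomainRingHom (ZMod 2) j (MonoidAlgebra.single 1 r) =
        MonoidAlgebra.single 1 r := by
      simp
    rw [h1]
    simp [actQ, scal]
  · rw [RingHom.comp_apply, RingHom.comp_apply]
    have h1 : MonoidAlgebra.mapDomainRingHom (ZMod 2) j (MonoidAlgebra.single a 1) =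
        MonoidAlgebra.single (j a) 1 := by
      simp
    rw [h1]
    ext z
    have h2 : actQ A K L (MonoidAlgebra.single (j a) 1) = L (j a) := by
      simp [actQ]
    rw [h2, hL]
    rfl

/-- **Integrality, abstract form.** -/
theorem int_core' [UniqueProds A] [UniqueProds Q] (hj : Function.Injective j)
    (hfi : j.range.index ≠ 0) [IsFractionRing (MonoidAlgebra (ZMod 2) A) K]
    (L : Q →* AddMonoid.End Z)
    (hL : ∀ (a : A) (z : Z), L (j a) z =
      algebraMap (MonoidAlgebra (ZMod 2) A) K (MonoidAlgebra.single a 1) • z) :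
    j.range.index ∣ finrank K Z := by
  letI : Module (MonoidAlgebra (ZMod 2) Q) Z := Module.compHom Z (actQ A K L)
  letI : Module (MonoidAlgebra (ZMod 2) A) Z :=
    Module.compHom Z (algebraMap (MonoidAlgebra (ZMod 2) A) K)
  haveI : IsScalarTower (MonoidAlgebra (ZMod 2) A) K Z := ⟨fun r s m => by
    rw [Algebra.smul_def, mul_smul]
    rfl⟩
  have h := index_dvd_finrank (k := ZMod 2) j hj hfi Z (fun r m => by
    have h1 := DFunLike.congr_fun (actQ_comp j L hL) r
    exact (DFunLike.congr_fun h1 m).symm)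
  rwa [← IsFractionRing.finrank_right_eq (S := K)] at h

end

section

variable {G : Type w} [Group G] {Γ : Subgroup G} {A : Type v} [CommGroup A] [UniqueProds A]
  {K : Type y} [Field K] [Algebra (MonoidAlgebra (ZMod 2) A) K]
  [IsFractionRing (MonoidAlgebra (ZMod 2) A) K] {Z : Type z} [AddCommGroup Z] [Module K Z]

/-- **Integrality on the level of the group**: `Γ ≤ G` of finite index, `ab : Γ → A` onto, the
kernel `N` of `ab` is normal in `G`, `G / N` has unique products, `G` acts additively on the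
`K`-space `Z` and `γ ∈ Γ` acts as the scalar `ab γ`. -/
theorem int_core (hfi : Γ.index ≠ 0) (ab : Γ →* A) (hab : Function.Surjective ab)
    (N : Subgroup G) [N.Normal] (hN : ∀ g : G, g ∈ N ↔ ∃ h : g ∈ Γ, ab ⟨g, h⟩ = 1)
    [UniqueProds (G ⧸ N)] (L : G →* AddMonoid.End Z)
    (hL : ∀ (γ : Γ) (z : Z), L γ z =
      algebraMap (MonoidAlgebra (ZMod 2) A) K (MonoidAlgebra.single (ab γ) 1) • z) :
    Γ.index ∣ finrank K Z := by
  classical
  -- the quotient map
  let q : G →* G ⧸ N := QuotientGroup.mk' N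
  have hker : ab.ker ≤ (q.comp Γ.subtype).ker := by
    intro γ hγ
    rw [MonoidHom.mem_ker] at hγ ⊢
    change (QuotientGroup.mk (γ : G) : G ⧸ N) = 1
    rw [QuotientGroup.eq_one_iff, hN]
    exact ⟨γ.2, hγ⟩
  let j : A →* G ⧸ N := (QuotientGroup.lift ab.ker (q.comp Γ.subtype) hker).comp
    (QuotientGroup.quotientKerEquivOfSurjective ab hab).symm.toMonoidHom
  have hjab : ∀ γ : Γ, j (ab γ) = q γ := by
    intro γ
    have h1 : (QuotientGroup.quotientKerEquivOfSurjective ab hab).symm (ab γ) =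
        QuotientGroup.mk γ := by
      rw [MulEquiv.symm_apply_eq]
      rfl
    change (QuotientGroup.lift ab.ker (q.comp Γ.subtype) hker)
      ((QuotientGroup.quotientKerEquivOfSurjective ab hab).symm (ab γ)) = q γ
    rw [h1]
    rfl
  have hj : Function.Injective j := by
    rw [injective_iff_map_eq_one]
    intro a ha
    obtain ⟨γ, rfl⟩ := hab a
    rw [hjab] at ha
    have h2 : (γ : G) ∈ N := (QuotientGroup.eq_one_iff (γ : G)).mp ha
    obtain ⟨h3, h4⟩ := (hN γ).mp h2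
    exact h4
  have hrange : j.range = Γ.map q := by
    ext x
    constructor
    · rintro ⟨a, rfl⟩
      obtain ⟨γ, rfl⟩ := hab a
      rw [hjab]
      exact ⟨γ, γ.2, rfl⟩
    · rintro ⟨g, hg, rfl⟩
      exact ⟨ab ⟨g, hg⟩, hjab ⟨g, hg⟩⟩
  have hqker : q.ker = N := QuotientGroup.ker_mk' N
  have hNΓ : N ≤ Γ := fun g hg => ((hN g).mp hg).1
  have hindex : j.range.index = Γ.index := by
    rw [hrange]
    exact Subgroup.index_map_eq Γ (QuotientGroup.mk'_surjective N) (by rw [hqker]; exact hNΓ)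
  -- the action of the quotient
  have hLN : N ≤ L.ker := by
    intro g hg
    obtain ⟨h1, h2⟩ := (hN g).mp hg
    rw [MonoidHom.mem_ker]
    ext z
    have h3 := hL ⟨g, h1⟩ z
    rw [h2] at h3
    have h4 : algebraMap (MonoidAlgebra (ZMod 2) A) K (MonoidAlgebra.single 1 1) = 1 := by
      rw [← MonoidAlgebra.one_def, map_one]
    rw [h4, one_smul] at h3
    exact h3
  let L' : G ⧸ N →* AddMonoid.End Z := QuotientGroup.lift N L hLN
  have hL' : ∀ (a : A) (z : Z), L' (j a) z =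
      algebraMap (MonoidAlgebra (ZMod 2) A) K (MonoidAlgebra.single a 1) • z := by
    intro a z
    obtain ⟨γ, rfl⟩ := hab a
    rw [hjab, ← hL γ z]
    rfl
  have h := int_core' j hj (by rw [hindex]; exact hfi) L' hL'
  rwa [hindex] at h

/-- the same, with `γ ∈ Γ` acting as the scalar `(ab γ)⁻¹` -/
theorem int_core_inv (hfi : Γ.index ≠ 0) (ab : Γ →* A) (hab : Function.Surjective ab)
    (N : Subgroup G) [N.Normal] (hN : ∀ g : G, g ∈ N ↔ ∃ h : g ∈ Γ, ab ⟨g, h⟩ = 1)
    [UniqueProds (G ⧸ N)] (L : G →* AddMonoid.End Z)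
    (hL : ∀ (γ : Γ) (z : Z), L γ z =
      algebraMap (MonoidAlgebra (ZMod 2) A) K (MonoidAlgebra.single (ab γ)⁻¹ 1) • z) :
    Γ.index ∣ finrank K Z := by
  refine int_core (K := K) hfi ab⁻¹ (fun a => ?_) N (fun g => ?_) L (fun γ z => ?_)
  · obtain ⟨γ, hγ⟩ := hab a⁻¹
    exact ⟨γ, by rw [MonoidHom.inv_apply, hγ, inv_inv]⟩
  · rw [hN g]
    constructor
    · rintro ⟨h, h1⟩
      exact ⟨h, by rw [MonoidHom.inv_apply, h1, inv_one]⟩
    · rintro ⟨h, h1⟩
      exact ⟨h, by rw [MonoidHom.inv_apply] at h1; exact inv_eq_one.mp h1⟩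
  · rw [MonoidHom.inv_apply]
    exact hL γ z

end

end Pool.Agent.S9

end

section

/-
S9 (MP_ea75ba_gt), T2: the left action of `W` on the functions `c : T → W → K` and integrality of
the dimension of every stable subspace of `Γ`-equivariant functions.  helper27.

`Γ` normal in `W`, `ab : Γ → A` onto a commutative group, the kernel of `ab` stable under the
conjugations by `W`, `K` the fraction field of `F_2[A]`;
`(L_g c) t w = σ_g (c t (g⁻¹ w))`, `σ_g (ab γ) = ab (g γ g⁻¹)`.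
-/

set_option autoImplicit false

namespace Pool.Agent.S9

open Module

universe u v w y z

section Act

variable {W : Type w} [Group W] {Γ : Subgroup W} [Γ.Normal] {A : Type v} [CommGroup A]
  (ab : Γ →* A) (hab : Function.Surjective ab)
  (hconj : ∀ (w : W) (γ : Γ), ab γ = 1 → ab (MulAut.conjNormal w γ) = 1)

/-- the automorphism of `A` induced by the conjugation by `w` -/
noncomputable def alpha (w : W) : A →* A :=
  (QuotientGroup.lift ab.ker (ab.comp (MulAut.conjNormal w : MulAut Γ).toMonoidHom)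
    (fun γ hγ => hconj w γ hγ)).comp
    (QuotientGroup.quotientKerEquivOfSurjective ab hab).symm.toMonoidHom

theorem alpha_ab (w : W) (γ : Γ) :
    alpha ab hab hconj w (ab γ) = ab (MulAut.conjNormal w γ) := by
  have h1 : (QuotientGroup.quotientKerEquivOfSurjective ab hab).symm (ab γ) =
      QuotientGroup.mk γ := by
    rw [MulEquiv.symm_apply_eq]
    rfl
  change (QuotientGroup.lift ab.ker (ab.comp (MulAut.conjNormal w : MulAut Γ).toMonoidHom)
    (fun γ hγ => hconj w γ hγ))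
    ((QuotientGroup.quotientKerEquivOfSurjective ab hab).symm (ab γ)) = _
  rw [h1]
  rfl

theorem alpha_mul (w w' : W) (a : A) :
    alpha ab hab hconj (w * w') a = alpha ab hab hconj w (alpha ab hab hconj w' a) := by
  obtain ⟨γ, rfl⟩ := hab a
  rw [alpha_ab, alpha_ab, alpha_ab, map_mul]
  rfl

theorem alpha_one (a : A) : alpha ab hab hconj 1 a = a := by
  obtain ⟨γ, rfl⟩ := hab a
  rw [alpha_ab, map_one]
  rfl

theorem alpha_mem (g : Γ) (a : A) : alpha ab hab hconj g a = a := by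
  obtain ⟨γ, rfl⟩ := hab a
  rw [alpha_ab]
  have h : MulAut.conjNormal (g : W) γ = g * γ * g⁻¹ := by
    apply Subtype.ext
    rw [MulAut.conjNormal_apply]
    rfl
  rw [h, map_mul, map_mul, map_inv, mul_comm (ab g), mul_inv_cancel_right]

theorem alpha_injective (w : W) : Function.Injective (alpha ab hab hconj w) := by
  intro a b h
  have h1 := congrArg (alpha ab hab hconj w⁻¹) h
  rw [← alpha_mul, ← alpha_mul, inv_mul_cancel, alpha_one, alpha_one] at h1
  exact h1

variable {K : Type y} [Field K] [Algebra (MonoidAlgebra (ZMod 2) A) K]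
  [IsFractionRing (MonoidAlgebra (ZMod 2) A) K]

theorem sigma_aux (w : W) : Function.Injective
    ((algebraMap (MonoidAlgebra (ZMod 2) A) K).comp
      (MonoidAlgebra.mapDomainRingHom (ZMod 2) (alpha ab hab hconj w))) := by
  rw [RingHom.coe_comp]
  refine (IsFractionRing.injective (MonoidAlgebra (ZMod 2) A) K).comp ?_
  exact MonoidAlgebra.mapDomain_injective (alpha_injective ab hab hconj w)

/-- the endomorphism of `K` induced by `alpha w` -/
noncomputable def sigma (K : Type y) [Field K] [Algebra (MonoidAlgebra (ZMod 2) A) K]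
    [IsFractionRing (MonoidAlgebra (ZMod 2) A) K] (w : W) : K →+* K :=
  IsFractionRing.lift (sigma_aux (K := K) ab hab hconj w)

theorem sigma_algebraMap (w : W) (x : MonoidAlgebra (ZMod 2) A) :
    sigma ab hab hconj K w (algebraMap _ K x) =
      algebraMap _ K (MonoidAlgebra.mapDomainRingHom (ZMod 2) (alpha ab hab hconj w) x) := by
  unfold sigma
  rw [IsFractionRing.lift_algebraMap]
  rfl

theorem sigma_single (w : W) (a : A) :
    sigma ab hab hconj K w (algebraMap (MonoidAlgebra (ZMod 2) A) K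
      (MonoidAlgebra.single a 1)) =
      algebraMap (MonoidAlgebra (ZMod 2) A) K
        (MonoidAlgebra.single (alpha ab hab hconj w a) 1) := by
  rw [sigma_algebraMap]
  simp

/-- two ring homs from `K` which agree on the monomials are equal -/
theorem K_ext {f g : K →+* K}
    (h : ∀ a : A, f (algebraMap (MonoidAlgebra (ZMod 2) A) K (MonoidAlgebra.single a 1)) =
      g (algebraMap (MonoidAlgebra (ZMod 2) A) K (MonoidAlgebra.single a 1))) : f = g := by
  refine IsLocalization.ringHom_ext (nonZeroDivisors (MonoidAlgebra (ZMod 2) A)) ?_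
  refine MonoidAlgebra.ringHom_ext (fun r => ?_) (fun a => h a)
  have hr : r = 0 ∨ r = 1 := by
    fin_cases r
    · exact Or.inl rfl
    · exact Or.inr rfl
  rcases hr with hr | hr
  · rw [hr, MonoidAlgebra.single_zero, map_zero, map_zero]
  · rw [hr]
    exact h 1

theorem sigma_mul (w w' : W) :
    sigma ab hab hconj K (w * w') = (sigma ab hab hconj K w).comp (sigma ab hab hconj K w') := by
  refine K_ext (A := A) fun a => ?_
  rw [RingHom.comp_apply, sigma_single, sigma_single, sigma_single, alpha_mul]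

theorem sigma_one : sigma ab hab hconj K 1 = RingHom.id K := by
  refine K_ext (A := A) fun a => ?_
  rw [sigma_single, alpha_one]
  rfl

theorem sigma_mem (g : Γ) : sigma ab hab hconj K (g : W) = RingHom.id K := by
  refine K_ext (A := A) fun a => ?_
  rw [sigma_single, alpha_mem]
  rfl

/-- the left action of `W` on the functions with values in `K` -/
noncomputable def Lact (K : Type y) [Field K] [Algebra (MonoidAlgebra (ZMod 2) A) K]
    [IsFractionRing (MonoidAlgebra (ZMod 2) A) K] (T : Type z) :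
    W →* AddMonoid.End (T → W → K) where
  toFun g :=
    { toFun := fun c t w => sigma ab hab hconj K g (c t (g⁻¹ * w))
      map_zero' := by
        funext t w
        exact map_zero _
      map_add' := fun c d => by
        funext t w
        exact map_add _ _ _ }
  map_one' := by
    refine AddMonoidHom.ext fun c => ?_
    funext t w
    change sigma ab hab hconj K 1 (c t (1⁻¹ * w)) = c t w
    rw [sigma_one, inv_one, one_mul]
    rfl
  map_mul' g h := by
    refine AddMonoidHom.ext fun c => ?_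
    funext t w
    change sigma ab hab hconj K (g * h) (c t ((g * h)⁻¹ * w)) =
      sigma ab hab hconj K g (sigma ab hab hconj K h (c t (h⁻¹ * (g⁻¹ * w))))
    rw [sigma_mul, mul_inv_rev, mul_assoc]
    rfl

theorem Lact_apply {T : Type z} (g : W) (c : T → W → K) (t : T) (w : W) :
    Lact ab hab hconj K T g c t w = sigma ab hab hconj K g (c t (g⁻¹ * w)) := rfl

/-- the left action preserves the equivariance -/
theorem Lact_equiv {T : Type z} (g : W) (c : T → W → K)
    (hc : ∀ (t : T) (γ : Γ) (w : W), c t (γ * w) =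
      algebraMap (MonoidAlgebra (ZMod 2) A) K (MonoidAlgebra.single (ab γ) 1) * c t w)
    (t : T) (γ : Γ) (w : W) : Lact ab hab hconj K T g c t (γ * w) =
      algebraMap (MonoidAlgebra (ZMod 2) A) K (MonoidAlgebra.single (ab γ) 1) *
        Lact ab hab hconj K T g c t w := by
  rw [Lact_apply, Lact_apply]
  have h1 : g⁻¹ * (γ * w) = ((MulAut.conjNormal g⁻¹ γ : Γ) : W) * (g⁻¹ * w) := by
    rw [MulAut.conjNormal_apply]
    group
  rw [h1, hc, map_mul, sigma_single, alpha_ab]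
  congr 4
  rw [map_inv]
  exact (MulAut.conjNormal g : MulAut Γ).apply_symm_apply γ

/-- an element of `Γ` acts on the equivariant functions as a scalar -/
theorem Lact_mem {T : Type z} (γ : Γ) (c : T → W → K)
    (hc : ∀ (t : T) (γ : Γ) (w : W), c t (γ * w) =
      algebraMap (MonoidAlgebra (ZMod 2) A) K (MonoidAlgebra.single (ab γ) 1) * c t w) :
    Lact ab hab hconj K T γ c =
      algebraMap (MonoidAlgebra (ZMod 2) A) K (MonoidAlgebra.single (ab γ)⁻¹ 1) • c := by
  funext t w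
  rw [Lact_apply, sigma_mem]
  change c t ((γ : W)⁻¹ * w) = _
  have h := hc t γ⁻¹ w
  rw [map_inv] at h
  exact h

/-- **Integrality for stable subspaces.** -/
theorem index_dvd_stable [UniqueProds A] {T : Type z} (Γ₀ : Subgroup W) (hle : Γ ≤ Γ₀)
    (hfi : Γ.relIndex Γ₀ ≠ 0)
    (N : Subgroup Γ₀) [N.Normal] (hN : ∀ g : Γ₀, g ∈ N ↔ ∃ h : (g : W) ∈ Γ, ab ⟨g, h⟩ = 1)
    [UniqueProds (Γ₀ ⧸ N)] (S : Submodule K (T → W → K))
    (hS : ∀ c ∈ S, ∀ (t : T) (γ : Γ) (w : W), c t (γ * w) =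
      algebraMap (MonoidAlgebra (ZMod 2) A) K (MonoidAlgebra.single (ab γ) 1) * c t w)
    (hst : ∀ g ∈ Γ₀, ∀ c ∈ S, Lact ab hab hconj K T g c ∈ S) :
    Γ.relIndex Γ₀ ∣ finrank K S := by
  -- the action of `Γ₀` on `S`
  let L : Γ₀ →* AddMonoid.End S :=
    { toFun := fun g =>
        { toFun := fun c => ⟨Lact ab hab hconj K T g c.1, hst g g.2 c.1 c.2⟩
          map_zero' := Subtype.ext (map_zero _)
          map_add' := fun c d => Subtype.ext (map_add _ _ _) }
      map_one' := by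
        refine AddMonoidHom.ext fun c => Subtype.ext ?_
        change Lact ab hab hconj K T ((1 : Γ₀) : W) c.1 = c.1
        rw [Subgroup.coe_one, map_one]
        rfl
      map_mul' := fun g h => by
        refine AddMonoidHom.ext fun c => Subtype.ext ?_
        change Lact ab hab hconj K T ((g * h : Γ₀) : W) c.1 = _
        rw [Subgroup.coe_mul, map_mul]
        rfl }
  -- the subgroup `Γ` of `Γ₀`
  let e : Γ.subgroupOf Γ₀ ≃* Γ := Subgroup.subgroupOfEquivOfLe hle
  have he : ∀ γ : Γ.subgroupOf Γ₀, ((e γ : Γ) : W) = ((γ : Γ₀) : W) := fun γ => rfl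
  have hab' : Function.Surjective (ab.comp e.toMonoidHom) := hab.comp e.surjective
  refine int_core_inv (K := K) (Γ := Γ.subgroupOf Γ₀) hfi (ab.comp e.toMonoidHom) hab' N
    (fun g => ?_) L (fun γ c => ?_)
  · rw [hN g]
    constructor
    · rintro ⟨h, h1⟩
      exact ⟨h, h1⟩
    · rintro ⟨h, h1⟩
      exact ⟨h, h1⟩
  · apply Subtype.ext
    exact Lact_mem ab hab hconj (e γ) c.1 (hS c.1 c.2)

end Act

end Pool.Agent.S9

end

section

/-
S9 (MP_ea75ba_gt), T2: integrality of the homology of the Davis complex.  helper27.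
-/

set_option autoImplicit false
set_option linter.unusedSectionVars false

open Finset

namespace Pool.Agent.S9

open Module

section Gen

variable {V : Type} [DecidableEq V] [Fintype V] {G : SimpleGraph V} {W : Type} [Group W]
  (R : Rac G W) {Γ : Subgroup W} [Γ.Normal] {A : Type} [CommGroup A]
  (ab : Γ →* A) (hab : Function.Surjective ab)
  (hconj : ∀ (w : W) (γ : Γ), ab γ = 1 → ab (MulAut.conjNormal w γ) = 1)
  {K : Type} [Field K] [Algebra (MonoidAlgebra (ZMod 2) A) K]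
  [IsFractionRing (MonoidAlgebra (ZMod 2) A) K]
  (χ : Γ →* Kˣ) (hχ : ∀ γ, (χ γ : K) =
    algebraMap (MonoidAlgebra (ZMod 2) A) K (MonoidAlgebra.single (ab γ) 1))

include hχ

theorem Cc_ch_equiv {k : ℕ} {c : Finset V → W → K} (hc : c ∈ Cc R Γ (ch χ) k)
    (B : Finset V) (γ : Γ) (w : W) : c B (γ * w) =
      algebraMap (MonoidAlgebra (ZMod 2) A) K (MonoidAlgebra.single (ab γ) 1) * c B w := by
  rw [hc.2.2 B γ w, ← hχ]
  rfl

theorem Lact_Cc {k : ℕ} {c : Finset V → W → K} (hc : c ∈ Cc R Γ (ch χ) k) (g : W) :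
    Lact ab hab hconj K (Finset V) g c ∈ Cc R Γ (ch χ) k := by
  refine ⟨fun B hB => hc.1 B fun h0 => hB ?_, fun B v hv w => ?_, fun B γ w => ?_⟩
  · funext w
    rw [Lact_apply, h0]
    exact map_zero _
  · rw [Lact_apply, Lact_apply, ← mul_assoc, hc.2.1 B v hv]
  · rw [Lact_equiv ab hab hconj g c (Cc_ch_equiv R ab χ hχ hc) B γ w, ← hχ]
    rfl

omit hχ in
theorem Lact_bd (c : Finset V → W → K) (g : W) :
    bd K (Lact ab hab hconj K (Finset V) g c) = Lact ab hab hconj K (Finset V) g (bd K c) := by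
  funext B w
  rw [bd_apply, Lact_apply, bd_apply, map_sum]
  rfl

include hab hconj in
theorem dvd_Zc [UniqueProds A] {Γ₀ : Subgroup W} (hle : Γ ≤ Γ₀)
    (hfi : Γ.relIndex Γ₀ ≠ 0)
    (N : Subgroup Γ₀) [N.Normal] (hN : ∀ g : Γ₀, g ∈ N ↔ ∃ h : (g : W) ∈ Γ, ab ⟨g, h⟩ = 1)
    [UniqueProds (Γ₀ ⧸ N)] (k : ℕ) :
    Γ.relIndex Γ₀ ∣ finrank K (Zc R Γ (ch χ) k) := by
  refine index_dvd_stable ab hab hconj Γ₀ hle hfi N hN _
    (fun c hc => Cc_ch_equiv R ab χ hχ hc.1) (fun g _ c hc => ?_)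
  refine ⟨Lact_Cc R ab hab hconj χ hχ hc.1 g, ?_⟩
  have h : bd K c = 0 := hc.2
  change bd K (Lact ab hab hconj K (Finset V) g c) = 0
  rw [Lact_bd, h, map_zero]

include hab hconj in
theorem dvd_Bc [UniqueProds A] {Γ₀ : Subgroup W} (hle : Γ ≤ Γ₀)
    (hfi : Γ.relIndex Γ₀ ≠ 0)
    (N : Subgroup Γ₀) [N.Normal] (hN : ∀ g : Γ₀, g ∈ N ↔ ∃ h : (g : W) ∈ Γ, ab ⟨g, h⟩ = 1)
    [UniqueProds (Γ₀ ⧸ N)] (k : ℕ) :
    Γ.relIndex Γ₀ ∣ finrank K (Bc R Γ (ch χ) k) := by
  refine index_dvd_stable ab hab hconj Γ₀ hle hfi N hN _ ?_ (fun g _ c hc => ?_)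
  · rintro _ ⟨c, hc, rfl⟩ B γ w
    rw [bd_apply, bd_apply, mul_sum]
    exact sum_congr rfl fun v _ => Cc_ch_equiv R ab χ hχ hc (insert v B) γ w
  · obtain ⟨d, hd, rfl⟩ := hc
    exact ⟨_, Lact_Cc R ab hab hconj χ hχ hd g, Lact_bd ab hab hconj d g⟩

include hab hconj in
theorem dvd_hh [UniqueProds A] {Γ₀ : Subgroup W} (hle : Γ ≤ Γ₀)
    (hfi : Γ.relIndex Γ₀ ≠ 0)
    (N : Subgroup Γ₀) [N.Normal] (hN : ∀ g : Γ₀, g ∈ N ↔ ∃ h : (g : W) ∈ Γ, ab ⟨g, h⟩ = 1)
    [UniqueProds (Γ₀ ⧸ N)] (k : ℕ) :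
    ((Γ.relIndex Γ₀ : ℕ) : ℤ) ∣ hh R Γ (ch χ) k := by
  unfold hh
  exact dvd_sub (Int.natCast_dvd_natCast.mpr (dvd_Zc R ab hab hconj χ hχ hle hfi N hN k))
    (Int.natCast_dvd_natCast.mpr (dvd_Bc R ab hab hconj χ hχ hle hfi N hN k))

end Gen

section Fin

variable {V : Type} [DecidableEq V] [Fintype V] {G : SimpleGraph V} {W : Type} [Group W]

/-- **T2, final form**: `Γ` normal in `W`, `ab : Γ → ℤ^r` onto, all homomorphisms to the integers factor through `ab`,
`F` the field of fractions of the Laurent polynomials, `χ γ = t ^ (ab γ)`: the index of `Γ` in `Γ₀` divides the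
dimension of the homology, if `Γ₀ / ker ab` has unique products -/
theorem int_hh (R : Rac G W) {Γ Γ₀ : Subgroup W} [Γ.Normal] (hle : Γ ≤ Γ₀)
    (hfi : Γ.relIndex Γ₀ ≠ 0) {r : ℕ} (ab : Γ →* Multiplicative (Fin r → ℤ))
    (hab : Function.Surjective ab)
    (h0 : ∀ f : Γ →* Multiplicative ℤ, ∀ g, ab g = 1 → f g = 1)
    (N : Subgroup Γ₀) [N.Normal] (hN : ∀ g : Γ₀, g ∈ N ↔ ∃ h : (g : W) ∈ Γ, ab ⟨g, h⟩ = 1)
    [UniqueProds (Γ₀ ⧸ N)]
    (χ : Γ →* (FractionRing (AddMonoidAlgebra (ZMod 2) (Fin r → ℤ)))ˣ)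
    (hχ : ∀ γ, (χ γ : FractionRing (AddMonoidAlgebra (ZMod 2) (Fin r → ℤ))) =
      algebraMap _ _ (AddMonoidAlgebra.single (Multiplicative.toAdd (ab γ)) (1 : ZMod 2)))
    (k : ℕ) : ((Γ.relIndex Γ₀ : ℕ) : ℤ) ∣ hh R Γ (ch χ) k := by
  -- the kernel of `ab` is stable under the conjugations
  have hconj : ∀ (w : W) (γ : Γ), ab γ = 1 → ab (MulAut.conjNormal w γ) = 1 := by
    intro w γ hγ
    have key : ∀ i : Fin r, Multiplicative.toAdd (ab (MulAut.conjNormal w γ)) i = 0 := by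
      intro i
      let p : Multiplicative (Fin r → ℤ) →* Multiplicative ℤ :=
        AddMonoidHom.toMultiplicative (Pi.evalAddMonoidHom (fun _ : Fin r => ℤ) i)
      have := h0 ((p.comp ab).comp (MulAut.conjNormal w : MulAut Γ).toMonoidHom) γ hγ
      exact this
    apply Multiplicative.toAdd.injective
    funext i
    exact key i
  -- the ring isomorphism
  let e := AddMonoidAlgebra.toMultiplicative (ZMod 2) (Fin r → ℤ)
  let F := FractionRing (AddMonoidAlgebra (ZMod 2) (Fin r → ℤ))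
  letI : Algebra (MonoidAlgebra (ZMod 2) (Multiplicative (Fin r → ℤ))) F :=
    ((algebraMap (AddMonoidAlgebra (ZMod 2) (Fin r → ℤ)) F).comp e.symm.toRingHom).toAlgebra
  haveI : IsFractionRing (MonoidAlgebra (ZMod 2) (Multiplicative (Fin r → ℤ))) F := by
    have h1 := IsLocalization.isLocalization_of_base_ringEquiv
      (nonZeroDivisors (AddMonoidAlgebra (ZMod 2) (Fin r → ℤ))) F e
    have h2 : (nonZeroDivisors (AddMonoidAlgebra (ZMod 2) (Fin r → ℤ))).map e =
      nonZeroDivisors (MonoidAlgebra (ZMod 2) (Multiplicative (Fin r → ℤ))) :=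
      MulEquivClass.map_nonZeroDivisors e
    rw [IsFractionRing, ← h2]
    exact h1
  refine dvd_hh (K := F) R ab hab hconj χ (fun γ => ?_) hle hfi N hN k
  rw [hχ γ]
  change _ = algebraMap (AddMonoidAlgebra (ZMod 2) (Fin r → ℤ)) F
    (e.symm (MonoidAlgebra.single (ab γ) 1))
  congr 1
  rw [RingEquiv.eq_symm_apply]
  exact AddMonoidAlgebra.toMultiplicative_single _ _

end Fin

end Pool.Agent.S9

end

section

/-
S10 (MP_ea75ba_gt, note 4276): integrality over an arbitrary start `Φ`, for every stable subspace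
of the equivariant functions `T → W → F`.  helper27.
-/

set_option autoImplicit false
set_option linter.unusedSectionVars false

open Finset

namespace Pool.Agent.S10

open Pool.Agent.S9 Module

section Up

variable {W : Type} [Group W]

/-- **the quotients of the tower have unique products** (arbitrary start) -/
theorem up_twr (Φ : Subgroup W) {N : Subgroup W} [N.Normal] {m : ℕ} (hN : N ≤ kr (twr Φ m))
    (h : UniqueProds ((twr Φ m).map (QuotientGroup.mk' N))) {l : ℕ} (hl : l ≤ m) :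
    UniqueProds ((twr Φ l).map (QuotientGroup.mk' N)) := by
  induction hl using Nat.decreasingInduction with
  | self => exact h
  | of_succ k hk ih => exact up_map (hN.trans (kr_mono (twr_anti Φ hk.le))) ih

/-- the quotient of the start by the kernel of the last term has unique products -/
theorem up_quot_twr (Φ : Subgroup W) {N : Subgroup W} [N.Normal] {m : ℕ} {A : Type} [Group A]
    [UniqueProds A] (ab : twr Φ m →* A) (hN : ∀ g : twr Φ m, (g : W) ∈ N ↔ ab g = 1)
    (hN' : N ≤ kr (twr Φ m)) : UniqueProds (Φ ⧸ N.subgroupOf Φ) := by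
  have h1 : UniqueProds (Φ.map (QuotientGroup.mk' N)) :=
    up_twr Φ hN' (up_last ab hN) (Nat.zero_le m)
  let p : Φ →* Φ.map (QuotientGroup.mk' N) := (QuotientGroup.mk' N).subgroupMap Φ
  have hk : N.subgroupOf Φ ≤ p.ker := by
    intro g hg
    exact Subtype.ext ((QuotientGroup.eq_one_iff (g : W)).2 (Subgroup.mem_subgroupOf.1 hg))
  let q : Φ ⧸ N.subgroupOf Φ →* Φ.map (QuotientGroup.mk' N) :=
    QuotientGroup.lift (N.subgroupOf Φ) p fun g hg => p.mem_ker.1 (hk hg)
  refine UniqueProds.of_injective_mulHom (q : _ →ₙ* _) ?_ h1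
  intro x y hxy
  rw [← inv_mul_eq_one]
  have h2 : q (x⁻¹ * y) = 1 := by
    rw [map_mul, map_inv]
    have : q x = q y := hxy
    rw [this, inv_mul_cancel]
  obtain ⟨g, hg⟩ := QuotientGroup.mk_surjective (x⁻¹ * y)
  rw [← hg] at h2 ⊢
  have h3 : (QuotientGroup.mk' N) (g : W) = 1 := congrArg Subtype.val h2
  exact (QuotientGroup.eq_one_iff g).2
    (Subgroup.mem_subgroupOf.2 ((QuotientGroup.eq_one_iff (g : W)).1 h3))

end Up

section Main

variable {W : Type} [Group W] {F : Type} [Field F]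

/-- the equivariant functions -/
def Eqv {Γ : Subgroup W} (χ : Γ →* Fˣ) {T : Type} (c : T → W → F) : Prop :=
  ∀ (t : T) (γ : Γ) (w : W), c t (γ * w) = (χ γ : F) * c t w

/-- the left action twisted by `σ` -/
def La (σ : W → F →+* F) (g : W) {T : Type} (c : T → W → F) : T → W → F :=
  fun t w => σ g (c t (g⁻¹ * w))

end Main

section Int

variable {W : Type} [Group W]

/-- **Integrality, arbitrary start.** -/
theorem int_stable (Φ : Subgroup W) [hΦ : Φ.Normal] (m : ℕ) [hf : (twr Φ m).FiniteIndex] {r : ℕ}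
    (ab : twr Φ m →* Multiplicative (Fin r → ℤ))
    (hab : Function.Surjective ab)
    (h0 : ∀ f : twr Φ m →* Multiplicative ℤ, ∀ g, ab g = 1 → f g = 1)
    (χ : twr Φ m →* (FractionRing (AddMonoidAlgebra (ZMod 2) (Fin r → ℤ)))ˣ)
    (hχ : ∀ γ, (χ γ : FractionRing (AddMonoidAlgebra (ZMod 2) (Fin r → ℤ))) =
      algebraMap _ _ (AddMonoidAlgebra.single (Multiplicative.toAdd (ab γ)) (1 : ZMod 2))) :
    ∃ σ : W → FractionRing (AddMonoidAlgebra (ZMod 2) (Fin r → ℤ)) →+*
        FractionRing (AddMonoidAlgebra (ZMod 2) (Fin r → ℤ)),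
      (∀ (T : Type) (g : W) (c : T → W → FractionRing (AddMonoidAlgebra (ZMod 2) (Fin r → ℤ))),
        Eqv χ c → Eqv χ (La σ g c)) ∧
      ∀ (T : Type) (S : Submodule (FractionRing (AddMonoidAlgebra (ZMod 2) (Fin r → ℤ)))
          (T → W → FractionRing (AddMonoidAlgebra (ZMod 2) (Fin r → ℤ)))),
        (∀ c ∈ S, Eqv χ c) → (∀ g ∈ Φ, ∀ c ∈ S, La σ g c ∈ S) →
        (twr Φ m).relIndex Φ ∣
          finrank (FractionRing (AddMonoidAlgebra (ZMod 2) (Fin r → ℤ))) S := by
  have hn : (twr Φ m).Normal := inferInstance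
  have hkz : (kr (twr Φ m)).Normal := inferInstanceAs (kz (twr Φ m)).Normal
  -- the kernel of `ab` is stable under the conjugations
  have hconj : ∀ (w : W) (γ : twr Φ m), ab γ = 1 → ab (MulAut.conjNormal w γ) = 1 := by
    intro w γ hγ
    have key : ∀ i : Fin r, Multiplicative.toAdd (ab (MulAut.conjNormal w γ)) i = 0 := by
      intro i
      let p : Multiplicative (Fin r → ℤ) →* Multiplicative ℤ :=
        AddMonoidHom.toMultiplicative (Pi.evalAddMonoidHom (fun _ : Fin r => ℤ) i)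
      have := h0 ((p.comp ab).comp (MulAut.conjNormal w : MulAut (twr Φ m)).toMonoidHom) γ hγ
      exact this
    apply Multiplicative.toAdd.injective
    funext i
    exact key i
  -- the kernel
  have hN : ∀ g : twr Φ m, (g : W) ∈ kr (twr Φ m) ↔ ab g = 1 := by
    intro g
    constructor
    · rintro ⟨_, h1⟩
      apply Multiplicative.toAdd.injective
      funext i
      let p : Multiplicative (Fin r → ℤ) →* Multiplicative ℤ :=
        AddMonoidHom.toMultiplicative (Pi.evalAddMonoidHom (fun _ : Fin r => ℤ) i)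
      exact h1 (p.comp ab)
    · intro h1
      exact ⟨g.2, fun f => h0 f g h1⟩
  have hup := up_quot_twr Φ ab hN le_rfl
  have hno : ((kr (twr Φ m)).subgroupOf Φ).Normal := inferInstance
  -- the ring isomorphism
  let e := AddMonoidAlgebra.toMultiplicative (ZMod 2) (Fin r → ℤ)
  let F := FractionRing (AddMonoidAlgebra (ZMod 2) (Fin r → ℤ))
  letI : Algebra (MonoidAlgebra (ZMod 2) (Multiplicative (Fin r → ℤ))) F :=
    ((algebraMap (AddMonoidAlgebra (ZMod 2) (Fin r → ℤ)) F).comp e.symm.toRingHom).toAlgebra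
  haveI : IsFractionRing (MonoidAlgebra (ZMod 2) (Multiplicative (Fin r → ℤ))) F := by
    have h1 := IsLocalization.isLocalization_of_base_ringEquiv
      (nonZeroDivisors (AddMonoidAlgebra (ZMod 2) (Fin r → ℤ))) F e
    have h2 : (nonZeroDivisors (AddMonoidAlgebra (ZMod 2) (Fin r → ℤ))).map e =
      nonZeroDivisors (MonoidAlgebra (ZMod 2) (Multiplicative (Fin r → ℤ))) :=
      MulEquivClass.map_nonZeroDivisors e
    rw [IsFractionRing, ← h2]
    exact h1
  have hχ' : ∀ γ, (χ γ : F) = algebraMap (MonoidAlgebra (ZMod 2) (Multiplicative (Fin r → ℤ))) F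
      (MonoidAlgebra.single (ab γ) 1) := by
    intro γ
    rw [hχ γ]
    change _ = algebraMap (AddMonoidAlgebra (ZMod 2) (Fin r → ℤ)) F
      (e.symm (MonoidAlgebra.single (ab γ) 1))
    congr 1
    rw [RingEquiv.eq_symm_apply]
    exact AddMonoidAlgebra.toMultiplicative_single _ _
  refine ⟨sigma ab hab hconj F, fun T g c hc t γ w => ?_, fun T S hS hst => ?_⟩
  · have hc' : ∀ (t : T) (γ : twr Φ m) (w : W), c t (γ * w) =
        algebraMap (MonoidAlgebra (ZMod 2) (Multiplicative (Fin r → ℤ))) F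
          (MonoidAlgebra.single (ab γ) 1) * c t w := fun t γ w => by
      rw [hc t γ w, hχ']
    rw [hχ']
    exact Lact_equiv ab hab hconj g c hc' t γ w
  · refine index_dvd_stable (K := F) ab hab hconj Φ (twr_le Φ m)
      (Subgroup.instFiniteIndex_subgroupOf (twr Φ m) Φ).index_ne_zero
      ((kr (twr Φ m)).subgroupOf Φ) (fun g => ?_) S (fun c hc t γ w => ?_) hst
    · rw [Subgroup.mem_subgroupOf]
      constructor
      · intro h1
        obtain ⟨h2, h3⟩ := h1
        exact ⟨h2, (hN ⟨g, h2⟩).1 ⟨h2, h3⟩⟩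
      · rintro ⟨h2, h3⟩
        exact (hN ⟨g, h2⟩).2 h3
    · rw [hS c hc t γ w, hχ']

end Int

end Pool.Agent.S10

end
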