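import Pool.Agent.H71.TSG.M23
import Pool.Agent.H71.TSG.M48
import Pool.Agent.H71.TSG.M52

/-! The parts of this file: H37.TM.SdC, H37.TM.SdD_1, H19.SR.RetG, H37.TM.SdE, S9.E.Count, S10.EA.Cyc, S9.Cnt, S9.DictB, S9.DictH, S9.BdBd, S9.E.Weight, S10.EA.Int, S9.TEc. -/

section

/-!
# Project TM: the map to the pairs of flags is a chain map
-/

set_option autoImplicit false
set_option linter.unusedSectionVars false

open Finset Pointwise

namespace Pool.Agent.H37.TM

variable {U : Type} [DecidableEq U] {K B : Set (Finset U)} {n : ℕ}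

section

variable {φ : Sx K → U} {σ τ : Finset U} {s t : Finset (Sx K)}

/-- another element of the fibre -/
def Mu (φ : Sx K → U) (t : Finset (Sx K)) (w : Sx K) : Prop := ∃ w' ∈ t, w' ≠ w ∧ φ w' = φ w

theorem mem_ov {a : Sx K} : a ∈ ov φ σ t ↔ a ∈ t ∧ φ a ∈ σ := by
  unfold ov
  rw [Finset.mem_filter]

/-- (C1) lowering at a multiple point is raising over `σ` -/
theorem sd_c1 (ht : t ∈ sdK K) (hs : s.Nonempty) (hst : s ⊆ t) (hστ : σ ⊆ τ) {w : Sx K}
    (hw : w ∈ t \ s) :
    ((TC φ σ τ t ∧ insert w s = ov φ σ t) ∧ Mu φ t w) ↔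
      ((TC φ σ τ (t.erase w) ∧ s = ov φ σ (t.erase w)) ∧ φ w ∈ σ) := by
  classical
  rw [Finset.mem_sdiff] at hw
  constructor
  · rintro ⟨⟨⟨_, h2, h3⟩, h4⟩, w', hw', hne, hφw⟩
    have hwσ : φ w ∈ σ := by
      have : w ∈ ov φ σ t := by rw [← h4]; exact Finset.mem_insert_self _ _
      exact (mem_ov.1 this).2
    refine ⟨⟨⟨sd_down ht (Finset.erase_subset _ _) ?_, ?_, ?_⟩, ?_⟩, hwσ⟩
    · exact hs.mono (Finset.subset_erase.2 ⟨hst, hw.2⟩)
    · rw [← h2]
      refine Finset.Subset.antisymm (Finset.image_subset_image (Finset.erase_subset _ _)) ?_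
      intro v hv
      rw [Finset.mem_image] at hv ⊢
      obtain ⟨a, ha, rfl⟩ := hv
      by_cases haw : a = w
      · exact ⟨w', Finset.mem_erase.2 ⟨hne, hw'⟩, by rw [hφw, haw]⟩
      · exact ⟨a, Finset.mem_erase.2 ⟨haw, ha⟩, rfl⟩
    · intro a ha b hb
      exact h3 a (Finset.mem_of_mem_erase ha) b (Finset.mem_of_mem_erase hb)
    · ext a
      rw [mem_ov, Finset.mem_erase]
      constructor
      · intro ha
        have h5 : a ∈ ov φ σ t := by rw [← h4]; exact Finset.mem_insert_of_mem ha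
        exact ⟨⟨fun h => hw.2 (h ▸ ha), (mem_ov.1 h5).1⟩, (mem_ov.1 h5).2⟩
      · rintro ⟨⟨h5, h6⟩, h7⟩
        have h8 : a ∈ insert w s := by rw [h4]; exact mem_ov.2 ⟨h6, h7⟩
        rw [Finset.mem_insert] at h8
        exact h8.resolve_left h5
  · rintro ⟨⟨⟨_, h2, h3⟩, h4⟩, hwσ⟩
    have h5 : φ w ∈ (t.erase w).image φ := by rw [h2]; exact hστ hwσ
    rw [Finset.mem_image] at h5
    obtain ⟨w', hw', hφw⟩ := h5
    rw [Finset.mem_erase] at hw'
    refine ⟨⟨⟨ht, ?_, ?_⟩, ?_⟩, w', hw'.2, hw'.1, hφw⟩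
    · rw [← h2]
      refine Finset.Subset.antisymm ?_ (Finset.image_subset_image (Finset.erase_subset _ _))
      intro v hv
      rw [Finset.mem_image] at hv ⊢
      obtain ⟨a, ha, rfl⟩ := hv
      by_cases haw : a = w
      · exact ⟨w', Finset.mem_erase.2 hw', by rw [hφw, haw]⟩
      · exact ⟨a, Finset.mem_erase.2 ⟨haw, ha⟩, rfl⟩
    · intro a ha b hb hab haσ
      have h6 : a ≠ w := fun h => haσ (by rw [h]; exact hwσ)
      have h7 : b ≠ w := fun h => haσ (by rw [hab, h]; exact hwσ)
      exact h3 a (Finset.mem_erase.2 ⟨h6, ha⟩) b (Finset.mem_erase.2 ⟨h7, hb⟩) hab haσ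
    · ext a
      rw [mem_ov, Finset.mem_insert]
      constructor
      · rintro (rfl | ha)
        · exact ⟨hw.1, hwσ⟩
        · rw [h4, mem_ov] at ha
          exact ⟨Finset.mem_of_mem_erase ha.1, ha.2⟩
      · rintro ⟨ha, haσ⟩
        by_cases haw : a = w
        · exact Or.inl haw
        · right
          rw [h4, mem_ov]
          exact ⟨Finset.mem_erase.2 ⟨haw, ha⟩, haσ⟩

open Classical in
/-- (C2) raising over `τ - σ` cancels in pairs -/
theorem sd_c2 (hs : s.Nonempty) (hst : s ⊆ t) (ht : t ∈ sdK K) :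
    ∑ w ∈ t \ s, (if (TC φ σ τ (t.erase w) ∧ s = ov φ σ (t.erase w)) ∧ φ w ∉ σ ∧ φ w ∈ τ
      then (1 : ZMod 2) else 0) = 0 := by
  rw [← Finset.sum_filter]
  set A := (t \ s).filter fun w => (TC φ σ τ (t.erase w) ∧ s = ov φ σ (t.erase w)) ∧
    φ w ∉ σ ∧ φ w ∈ τ with hA
  have hex : ∀ w ∈ A, ∃ w' ∈ t, w' ≠ w ∧ φ w' = φ w := by
    intro w hw
    rw [hA, Finset.mem_filter] at hw
    obtain ⟨_, ⟨⟨_, h2, _⟩, _⟩, _, h5⟩ := hw
    rw [← h2, Finset.mem_image] at h5
    obtain ⟨w', hw', h6⟩ := h5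
    rw [Finset.mem_erase] at hw'
    exact ⟨w', hw'.2, hw'.1, h6⟩
  choose! g hg1 hg2 hg3 using hex
  have hmem : ∀ w ∈ A, g w ∈ A := by
    intro w hw
    have hw0 := hw
    have e1 := hg1 w hw
    have e2 := hg2 w hw
    have e3 := hg3 w hw
    rw [hA, Finset.mem_filter] at hw
    obtain ⟨h0, ⟨⟨_, h2, h3⟩, h4⟩, h5, h6⟩ := hw
    rw [Finset.mem_sdiff] at h0
    have hgs : g w ∉ s := by
      intro h
      rw [h4, mem_ov, e3] at h
      exact h5 h.2
    have hov : ov φ σ (t.erase (g w)) = ov φ σ (t.erase w) := by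
      ext a
      rw [mem_ov, mem_ov, Finset.mem_erase, Finset.mem_erase]
      constructor
      · rintro ⟨⟨_, h7⟩, h8⟩
        exact ⟨⟨fun h => h5 (by rw [← h]; exact h8), h7⟩, h8⟩
      · rintro ⟨⟨_, h7⟩, h8⟩
        exact ⟨⟨fun h => h5 (by rw [← e3, ← h]; exact h8), h7⟩, h8⟩
    rw [hA, Finset.mem_filter]
    refine ⟨Finset.mem_sdiff.2 ⟨e1, hgs⟩, ⟨⟨?_, ?_, ?_⟩, ?_⟩, ?_, ?_⟩
    · exact sd_down ht (Finset.erase_subset _ _)
        (hs.mono (Finset.subset_erase.2 ⟨hst, hgs⟩))
    · rw [← h2]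
      ext v
      simp only [Finset.mem_image, Finset.mem_erase]
      constructor
      · rintro ⟨a, ⟨h7, h8⟩, rfl⟩
        by_cases haw : a = w
        · exact ⟨g w, ⟨e2, e1⟩, by rw [e3, haw]⟩
        · exact ⟨a, ⟨haw, h8⟩, rfl⟩
      · rintro ⟨a, ⟨h7, h8⟩, rfl⟩
        by_cases haw : a = g w
        · exact ⟨w, ⟨e2.symm, h0.1⟩, by rw [← e3, haw]⟩
        · exact ⟨a, ⟨haw, h8⟩, rfl⟩
    · intro a ha b hb hab haσ
      rw [Finset.mem_erase] at ha hb
      by_cases haw : a = w
      · by_cases hbw : b = w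
        · rw [haw, hbw]
        · exfalso
          have h7 : b = g w := h3 b (Finset.mem_erase.2 ⟨hbw, hb.2⟩) (g w)
            (Finset.mem_erase.2 ⟨e2, e1⟩) (by rw [← hab, haw, e3]) (by rw [← hab]; exact haσ)
          exact hb.1 h7
      · by_cases hbw : b = w
        · exfalso
          have h7 : a = g w := h3 a (Finset.mem_erase.2 ⟨haw, ha.2⟩) (g w)
            (Finset.mem_erase.2 ⟨e2, e1⟩) (by rw [hab, hbw, e3]) haσ
          exact ha.1 h7
        · exact h3 a (Finset.mem_erase.2 ⟨haw, ha.2⟩) b (Finset.mem_erase.2 ⟨hbw, hb.2⟩) hab haσ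
    · rw [hov]; exact h4
    · rw [e3]; exact h5
    · rw [e3]; exact h6
  have hinv : ∀ w ∈ A, g (g w) = w := by
    intro w hw
    have e1 := hg1 w hw
    have e2 := hg2 w hw
    have e3 := hg3 w hw
    have f1 := hg1 _ (hmem w hw)
    have f2 := hg2 _ (hmem w hw)
    have f3 := hg3 _ (hmem w hw)
    by_contra hne
    rw [hA, Finset.mem_filter] at hw
    obtain ⟨h0, ⟨⟨_, h2, h3⟩, h4⟩, h5, h6⟩ := hw
    exact f2 (h3 _ (Finset.mem_erase.2 ⟨hne, f1⟩) _ (Finset.mem_erase.2 ⟨e2, e1⟩) f3
      (by rw [f3, e3]; exact h5))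
  refine Finset.sum_involution (fun w _ => g w) ?_ ?_ ?_ ?_
  · intro w _; decide
  · intro w hw _ h
    exact hg2 w hw h
  · intro w hw; exact hmem w hw
  · intro w hw; exact hinv w hw

open Classical in
/-- (C3) raising outside of `τ` -/
theorem sd_c3 (hM : Psm K B n) (hφ : ∀ a, φ a ∈ a.1) (ht : t ∈ sdK K) (hs : s.Nonempty)
    (hst : s ⊆ t) (hτ : τ ∈ K) (hστ : σ ⊆ τ) :
    ∑ w ∈ t \ s, (if (TC φ σ τ (t.erase w) ∧ s = ov φ σ (t.erase w)) ∧ φ w ∉ τ
      then (1 : ZMod 2) else 0) = ∑ τ₁ ∈ cofs K τ (τ.card + 1), tc φ σ τ₁ s t := by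
  -- the image of a flag is a simplex
  have himK : t.image φ ∈ K := by
    obtain ⟨a, ha, hmax⟩ := sd_top ht
    refine hM.down _ a.2 _ ?_ (ht.1.image φ)
    intro v hv
    rw [Finset.mem_image] at hv
    obtain ⟨b, hb, rfl⟩ := hv
    exact hmax b hb (hφ b)
  -- the right side
  have hR : ∑ τ₁ ∈ cofs K τ (τ.card + 1), tc φ σ τ₁ s t =
      if (t.image φ ∈ cofs K τ (τ.card + 1) ∧
        ∀ a ∈ t, ∀ b ∈ t, φ a = φ b → φ a ∉ σ → a = b) ∧ s = ov φ σ t then 1 else 0 := by
    by_cases hc : (t.image φ ∈ cofs K τ (τ.card + 1) ∧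
        ∀ a ∈ t, ∀ b ∈ t, φ a = φ b → φ a ∉ σ → a = b) ∧ s = ov φ σ t
    · rw [if_pos hc, Finset.sum_eq_single (t.image φ)]
      · unfold tc
        rw [if_pos ⟨⟨ht, rfl, hc.1.2⟩, hc.2⟩]
      · intro τ₁ _ hne
        unfold tc
        rw [if_neg]
        rintro ⟨⟨_, h2, _⟩, _⟩
        exact hne h2.symm
      · intro h
        exact absurd hc.1.1 h
    · rw [if_neg hc]
      refine Finset.sum_eq_zero fun τ₁ hτ₁ => ?_
      unfold tc
      rw [if_neg]
      rintro ⟨⟨_, h2, h3⟩, h4⟩
      exact hc ⟨⟨by rw [h2]; exact hτ₁, h3⟩, h4⟩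
  rw [hR]
  by_cases hc : (t.image φ ∈ cofs K τ (τ.card + 1) ∧
        ∀ a ∈ t, ∀ b ∈ t, φ a = φ b → φ a ∉ σ → a = b) ∧ s = ov φ σ t
  · rw [if_pos hc]
    obtain ⟨⟨h1, h2⟩, h3⟩ := hc
    rw [mem_cofsP hM hτ] at h1
    obtain ⟨_, h4, h5⟩ := h1
    have h6 : (t.image φ \ τ).card = 1 := by
      rw [Finset.card_sdiff_of_subset h4]; omega
    obtain ⟨u, hu⟩ := Finset.card_eq_one.1 h6
    have hu1 : u ∈ t.image φ ∧ u ∉ τ := by
      rw [← Finset.mem_sdiff, hu]; exact Finset.mem_singleton_self u
    obtain ⟨w, hw, hwu⟩ := Finset.mem_image.1 hu1.1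
    have huσ : u ∉ σ := fun h => hu1.2 (hστ h)
    have hws : w ∉ s := by
      intro h
      rw [h3, mem_ov, hwu] at h
      exact huσ h.2
    have huniq : ∀ a ∈ t, φ a = u → a = w := by
      intro a ha hau
      exact h2 a ha w hw (by rw [hau, hwu]) (by rw [hau]; exact huσ)
    rw [Finset.sum_eq_single w]
    · rw [if_pos]
      refine ⟨⟨⟨sd_down ht (Finset.erase_subset _ _)
        (hs.mono (Finset.subset_erase.2 ⟨hst, hws⟩)), ?_, ?_⟩, ?_⟩, by rw [hwu]; exact hu1.2⟩
      · ext v
        rw [Finset.mem_image]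
        constructor
        · rintro ⟨a, ha, rfl⟩
          rw [Finset.mem_erase] at ha
          by_contra hv
          have h7 : φ a ∈ t.image φ \ τ := Finset.mem_sdiff.2 ⟨Finset.mem_image_of_mem φ ha.2, hv⟩
          rw [hu, Finset.mem_singleton] at h7
          exact ha.1 (huniq a ha.2 h7)
        · intro hv
          obtain ⟨a, ha, hav⟩ := Finset.mem_image.1 (h4 hv)
          refine ⟨a, Finset.mem_erase.2 ⟨?_, ha⟩, hav⟩
          rintro rfl
          rw [← hav, hwu] at hv
          exact hu1.2 hv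
      · intro a ha b hb
        exact h2 a (Finset.mem_of_mem_erase ha) b (Finset.mem_of_mem_erase hb)
      · rw [h3]
        ext a
        rw [mem_ov, mem_ov, Finset.mem_erase]
        constructor
        · rintro ⟨h7, h8⟩
          exact ⟨⟨fun h => huσ (by rw [← hwu, ← h]; exact h8), h7⟩, h8⟩
        · rintro ⟨⟨_, h7⟩, h8⟩
          exact ⟨h7, h8⟩
    · intro w' hw' hne
      rw [if_neg]
      rintro ⟨⟨⟨_, h7, _⟩, _⟩, h8⟩
      rw [Finset.mem_sdiff] at hw'
      have h9 : φ w' ∈ t.image φ \ τ := Finset.mem_sdiff.2 ⟨Finset.mem_image_of_mem φ hw'.1, h8⟩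
      rw [hu, Finset.mem_singleton] at h9
      exact hne (huniq w' hw'.1 h9)
    · intro h
      exact absurd (Finset.mem_sdiff.2 ⟨hw, hws⟩) h
  · rw [if_neg hc]
    refine Finset.sum_eq_zero fun w hw => ?_
    rw [if_neg]
    rintro ⟨⟨⟨_, h2, h3⟩, h4⟩, h5⟩
    rw [Finset.mem_sdiff] at hw
    have h6 : t.image φ = insert (φ w) τ := by
      rw [← h2, ← Finset.image_insert, Finset.insert_erase hw.1]
    refine hc ⟨⟨?_, ?_⟩, ?_⟩
    · rw [mem_cofsP hM hτ]
      refine ⟨himK, by rw [h6]; exact Finset.subset_insert _ _, ?_⟩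
      rw [h6, Finset.card_insert_of_notMem h5]
    · intro a ha b hb hab haσ
      by_cases haw : a = w
      · by_cases hbw : b = w
        · rw [haw, hbw]
        · exfalso
          have h7 : φ b ∈ (t.erase w).image φ :=
            Finset.mem_image_of_mem φ (Finset.mem_erase.2 ⟨hbw, hb⟩)
          rw [h2, ← hab, haw] at h7
          exact h5 h7
      · by_cases hbw : b = w
        · exfalso
          have h7 : φ a ∈ (t.erase w).image φ :=
            Finset.mem_image_of_mem φ (Finset.mem_erase.2 ⟨haw, ha⟩)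
          rw [h2, hab, hbw] at h7
          exact h5 h7
        · exact h3 a (Finset.mem_erase.2 ⟨haw, ha⟩) b (Finset.mem_erase.2 ⟨hbw, hb⟩) hab haσ
    · rw [h4]
      ext a
      rw [mem_ov, mem_ov, Finset.mem_erase]
      constructor
      · rintro ⟨⟨_, h7⟩, h8⟩
        exact ⟨h7, h8⟩
      · rintro ⟨h7, h8⟩
        exact ⟨⟨fun h => h5 (hστ (by rw [← h]; exact h8)), h7⟩, h8⟩

open Classical in
/-- (C4) lowering at a simple point -/
theorem sd_c4 (ht : t ∈ sdK K) (hστ : σ ⊆ τ) :
    ∑ w ∈ t \ s, (if (TC φ σ τ t ∧ insert w s = ov φ σ t) ∧ ¬ Mu φ t w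
      then (1 : ZMod 2) else 0) = ∑ v ∈ σ, tc φ (σ.erase v) τ s t := by
  unfold tc
  rw [← Finset.sum_filter, ← Finset.sum_filter]
  refine Finset.sum_bij (fun w _ => φ w) ?_ ?_ ?_ ?_
  · intro w hw
    rw [Finset.mem_filter, Finset.mem_sdiff] at hw
    obtain ⟨⟨h1, h2⟩, ⟨⟨_, h3, h4⟩, h5⟩, h6⟩ := hw
    have hwσ : φ w ∈ σ := by
      have : w ∈ ov φ σ t := by rw [← h5]; exact Finset.mem_insert_self _ _
      exact (mem_ov.1 this).2
    rw [Finset.mem_filter]
    refine ⟨hwσ, ⟨ht, h3, ?_⟩, ?_⟩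
    · intro a ha b hb hab haσ
      by_cases haw : φ a = φ w
      · have h7 : a = w := by
          by_contra hne
          exact h6 ⟨a, ha, hne, haw⟩
        have h8 : b = w := by
          by_contra hne
          exact h6 ⟨b, hb, hne, by rw [← hab, haw]⟩
        rw [h7, h8]
      · refine h4 a ha b hb hab fun h => haσ ?_
        exact Finset.mem_erase.2 ⟨haw, h⟩
    · ext a
      rw [mem_ov, Finset.mem_erase]
      constructor
      · intro ha
        have h7 : a ∈ ov φ σ t := by rw [← h5]; exact Finset.mem_insert_of_mem ha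
        rw [mem_ov] at h7
        refine ⟨h7.1, fun h => h6 ⟨a, h7.1, fun h' => h2 (h' ▸ ha), h⟩, h7.2⟩
      · rintro ⟨h7, h8, h9⟩
        have h10 : a ∈ insert w s := by rw [h5]; exact mem_ov.2 ⟨h7, h9⟩
        rw [Finset.mem_insert] at h10
        rcases h10 with rfl | h10
        · exact absurd rfl h8
        · exact h10
  · intro w hw w' hw' h
    rw [Finset.mem_filter, Finset.mem_sdiff] at hw hw'
    by_contra hne
    exact hw.2.2 ⟨w', hw'.1.1, fun h' => hne h'.symm, h.symm⟩
  · intro v hv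
    rw [Finset.mem_filter] at hv
    obtain ⟨hvσ, ⟨_, h3, h4⟩, h5⟩ := hv
    have h6 : v ∈ t.image φ := by rw [h3]; exact hστ hvσ
    obtain ⟨w, hw, hwv⟩ := Finset.mem_image.1 h6
    have hws : w ∉ s := by
      intro h
      rw [h5, mem_ov, Finset.mem_erase] at h
      exact h.2.1 hwv
    have huniq : ∀ a ∈ t, φ a = v → a = w := by
      intro a ha hav
      refine h4 a ha w hw (by rw [hav, hwv]) ?_
      rw [hav]
      exact Finset.notMem_erase _ _
    refine ⟨w, ?_, hwv⟩
    rw [Finset.mem_filter, Finset.mem_sdiff]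
    refine ⟨⟨hw, hws⟩, ⟨⟨ht, h3, ?_⟩, ?_⟩, ?_⟩
    · intro a ha b hb hab haσ
      exact h4 a ha b hb hab fun h => haσ (Finset.mem_of_mem_erase h)
    · ext a
      rw [mem_ov, Finset.mem_insert]
      constructor
      · rintro (rfl | ha)
        · exact ⟨hw, by rw [hwv]; exact hvσ⟩
        · rw [h5, mem_ov] at ha
          exact ⟨ha.1, Finset.mem_of_mem_erase ha.2⟩
      · rintro ⟨ha, haσ⟩
        by_cases hav : φ a = v
        · exact Or.inl (huniq a ha hav)
        · right
          rw [h5, mem_ov]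
          exact ⟨ha, Finset.mem_erase.2 ⟨hav, haσ⟩⟩
    · rintro ⟨a, ha, hne, h7⟩
      exact hne (huniq a ha (by rw [h7, hwv]))
  · intro w _
    rfl

/-- the pointwise identity -/
theorem zind (P1 P2 M S T : Prop) [Decidable P1] [Decidable P2] [Decidable (P1 ∧ ¬ M)]
    [Decidable (P2 ∧ ¬ T)] [Decidable (P2 ∧ ¬ S ∧ T)] (hc : (P1 ∧ M) ↔ (P2 ∧ S))
    (hST : S → T) :
    ((if P1 then 1 else 0) + (if P2 then 1 else 0) : ZMod 2) =
      (if P1 ∧ ¬ M then 1 else 0) + (if P2 ∧ ¬ T then 1 else 0) +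
        (if P2 ∧ ¬ S ∧ T then 1 else 0) := by
  by_cases p1 : P1
  · by_cases p2 : P2
    · by_cases m : M
      · have hS : S := (hc.1 ⟨p1, m⟩).2
        rw [if_pos p1, if_pos p2, if_neg (fun h => h.2 m), if_neg (fun h => h.2 (hST hS)),
          if_neg (fun h => h.2.1 hS)]
        decide
      · have hS : ¬ S := fun h => m (hc.2 ⟨p2, h⟩).2
        by_cases hT : T
        · rw [if_pos p1, if_pos p2, if_pos ⟨p1, m⟩, if_neg (fun h => h.2 hT),
            if_pos ⟨p2, hS, hT⟩]
          decide
        · rw [if_pos p1, if_pos p2, if_pos ⟨p1, m⟩, if_pos ⟨p2, hT⟩,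
            if_neg (fun h => hT h.2.2)]
          decide
    · have m : ¬ M := fun h => p2 (hc.1 ⟨p1, h⟩).1
      rw [if_pos p1, if_neg p2, if_pos ⟨p1, m⟩, if_neg (fun h => p2 h.1),
        if_neg (fun h => p2 h.1)]
      decide
  · by_cases p2 : P2
    · have hS : ¬ S := fun h => p1 (hc.2 ⟨p2, h⟩).1
      by_cases hT : T
      · rw [if_neg p1, if_pos p2, if_neg (fun h => p1 h.1), if_neg (fun h => h.2 hT),
          if_pos ⟨p2, hS, hT⟩]
        decide
      · rw [if_neg p1, if_pos p2, if_neg (fun h => p1 h.1), if_pos ⟨p2, hT⟩,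
          if_neg (fun h => hT h.2.2)]
        decide
    · rw [if_neg p1, if_neg p2, if_neg (fun h => p1 h.1), if_neg (fun h => p2 h.1),
        if_neg (fun h => p2 h.1)]
      decide

/-- **The identity of the coefficients.** -/
theorem sd_ident (hM : Psm K B n) (hφ : ∀ a, φ a ∈ a.1) (ht : t ∈ sdK K) (hs : s.Nonempty)
    (hst : s ⊆ t) (hτ : τ ∈ K) (hστ : σ ⊆ τ) :
    ∑ w ∈ t \ s, (tc φ σ τ (insert w s) t + tc φ σ τ s (t.erase w)) =
      ∑ v ∈ σ, tc φ (σ.erase v) τ s t + ∑ τ₁ ∈ cofs K τ (τ.card + 1), tc φ σ τ₁ s t := by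
  classical
  rw [← sd_c3 hM hφ ht hs hst hτ hστ, ← sd_c4 (φ := φ) ht hστ]
  have h0 := sd_c2 (φ := φ) (σ := σ) (τ := τ) hs hst ht
  have h1 : ∀ w ∈ t \ s, tc φ σ τ (insert w s) t + tc φ σ τ s (t.erase w) =
      (if (TC φ σ τ t ∧ insert w s = ov φ σ t) ∧ ¬ Mu φ t w then (1 : ZMod 2) else 0) +
      (if (TC φ σ τ (t.erase w) ∧ s = ov φ σ (t.erase w)) ∧ φ w ∉ τ then 1 else 0) +
      (if (TC φ σ τ (t.erase w) ∧ s = ov φ σ (t.erase w)) ∧ φ w ∉ σ ∧ φ w ∈ τ
        then 1 else 0) := by
    intro w hw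
    unfold tc
    exact zind _ _ _ _ _ (sd_c1 (φ := φ) ht hs hst hστ hw) (fun h => hστ h)
  rw [Finset.sum_congr rfl h1, Finset.sum_add_distrib, Finset.sum_add_distrib, h0, add_zero]

end

end Pool.Agent.H37.TM

end

section

/-!
# Project TM: the chain map to the pairs of flags
-/

set_option autoImplicit false
set_option linter.unusedSectionVars false

open Finset Pointwise

namespace Pool.Agent.H37.TM

variable {U : Type} [DecidableEq U] {K B : Set (Finset U)} {n : ℕ}

section

variable {φ : Sx K → U}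

/-- the image of a cell of index one is one cell -/
theorem thE_one (hM : Psm K B n) (hφ : ∀ a, φ a ∈ a.1) {e : Finset U × Finset U}
    (he : e ∈ TCell K B n 1) : ∃ p, thE φ e = Finsupp.single p 1 := by
  classical
  obtain ⟨h1, h2, _⟩ := bdE_one hM he
  obtain ⟨σ, τ⟩ := e
  obtain ⟨hσ, hστ, hτK, hτB, hcard⟩ := he
  simp only at hσ hστ hτK hτB hcard h1 h2
  obtain ⟨c, hc⟩ := uniq_flag hM hφ n τ hτK h2
  refine ⟨(ov φ σ c, c), ?_⟩
  unfold thE
  rw [if_neg hσ.ne_empty]
  have h3 : TF φ σ τ = {c} := by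
    ext c'
    rw [mem_TF hM hφ, Finset.mem_singleton, ← hc c']
    constructor
    · rintro ⟨h4, h5, _⟩
      refine ⟨h4, h5, ?_⟩
      obtain ⟨a, ha, hmax⟩ := sd_top h4
      have h6 : τ = a.1 := by
        refine Finset.eq_of_subset_of_card_le ?_ ?_
        · rw [← h5]; exact image_sub_top hφ hmax
        · rw [h2]; exact hM.card_le _ a.2
      rw [h6]
      exact hmax
    · rintro ⟨h4, h5, _⟩
      refine ⟨h4, h5, fun a ha b hb hab _ => ?_⟩
      have hinj : Set.InjOn φ (c' : Set (Sx K)) := by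
        rw [← Finset.card_image_iff]
        have h6 := Finset.card_image_le (s := c') (f := φ)
        have h7 := sd_card_le hM h4
        rw [h5] at h6 ⊢
        omega
      exact hinj ha hb hab
  rw [h3, Finset.sum_singleton]

theorem tc_zero {σ τ : Finset U} {s t : Finset (Sx K)} (h : ¬ (s ⊆ t ∧ t ∈ sdK K)) :
    tc φ σ τ s t = 0 := by
  unfold tc
  rw [if_neg]
  rintro ⟨⟨h1, _, _⟩, h2⟩
  exact h ⟨by rw [h2]; exact Finset.filter_subset _ _, h1⟩

/-- **The chain map.** -/
theorem bdT_thE (hM : Psm K B n) (hφ : ∀ a, φ a ∈ a.1) {i : ℕ} {e : Finset U × Finset U}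
    (he : e ∈ TCell K B n i) : bdT (sdK K) n (thE φ e) = lin (thE φ) (bdE K n e) := by
  classical
  have hsd := sd_psm hM
  match i with
  | 0 =>
    have he' : e = (∅, ∅) := he
    subst he'
    have h1 : bdE K n ((∅ : Finset U), (∅ : Finset U)) = 0 := by
      unfold bdE
      rw [if_pos rfl]
    have h2 : thE φ ((∅ : Finset U), (∅ : Finset U)) = Finsupp.single (∅, ∅) 1 := by
      unfold thE
      rw [if_pos rfl]
    rw [h1, h2, map_zero]
    change lin (bdE (sdK K) n) _ = 0
    rw [lin_single]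
    unfold bdE
    rw [if_pos rfl]
  | 1 =>
    obtain ⟨p, hp⟩ := thE_one hM hφ he
    have h1 := thE_mem hM hφ he
    rw [hp] at h1
    have h2 : p ∈ TCell (sdK K) (sdB K B) n 1 := by
      refine (Finsupp.mem_supported _ _).1 h1 ?_
      rw [Finset.mem_coe, Finsupp.mem_support_iff, Finsupp.single_eq_same]
      exact one_ne_zero
    rw [hp, (bdE_one hM he).2.2]
    change lin (bdE (sdK K) n) _ = _
    rw [lin_single, lin_single, (bdE_one hsd h2).2.2]
    unfold thE
    rw [if_pos rfl]
  | m + 2 =>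
    have hmemL : bdT (sdK K) n (thE φ e) ∈ TN (sdK K) (sdB K B) n (m + 1) :=
      bdT_mem hsd (thE_mem hM hφ he)
    have hmemR : lin (thE φ) (bdE K n e) ∈ TN (sdK K) (sdB K B) n (m + 1) := by
      refine lin_mem fun c hc => thE_mem hM hφ ?_
      exact (Finsupp.mem_supported _ _).1 (bdE_mem hM he) (Finsupp.mem_support_iff.2 hc)
    refine Finsupp.ext fun p => ?_
    obtain ⟨s, t⟩ := p
    by_cases hs : s.Nonempty
    · rw [bdT_coeff hsd (thE_mem hM hφ he) hs]
      obtain ⟨σ, τ⟩ := e
      obtain ⟨hσ, hστ, hτK, hτB, hcard⟩ := he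
      simp only at hσ hστ hτK hτB hcard
      -- the right side
      have hR : lin (thE φ) (bdE K n (σ, τ)) (s, t) =
          ∑ v ∈ σ, tc φ (σ.erase v) τ s t + ∑ τ₁ ∈ cofs K τ (τ.card + 1), tc φ σ τ₁ s t := by
        unfold bdE
        rw [if_neg hσ.ne_empty, map_add, Finsupp.add_apply]
        congr 1
        · simp only
          by_cases h1 : σ.card = 1
          · rw [if_pos h1]
            have h2 : ¬ τ.card = n + 1 := by
              intro h; omega
            rw [if_neg h2, map_zero, Finsupp.zero_apply]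
            symm
            refine Finset.sum_eq_zero fun v hv => ?_
            obtain ⟨w, hw⟩ := Finset.card_eq_one.1 h1
            rw [hw, Finset.mem_singleton] at hv
            rw [hw, hv, Finset.erase_singleton]
            unfold tc
            rw [if_neg]
            rintro ⟨_, h3⟩
            have h4 : ov φ ∅ t = ∅ := by
              unfold ov
              rw [Finset.filter_eq_empty_iff]
              intro a _
              exact Finset.notMem_empty _
            rw [h4] at h3
            exact hs.ne_empty h3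
          · rw [if_neg h1, map_sum, Finsupp.finsetSum_apply]
            refine Finset.sum_congr rfl fun v hv => ?_
            rw [lin_single]
            refine thE_apply hM hφ ?_ s t
            intro h
            have h2 := Finset.card_erase_of_mem hv
            have h3 := Finset.card_pos.2 hσ
            rw [h, Finset.card_empty] at h2
            omega
        · rw [map_sum, Finsupp.finsetSum_apply]
          refine Finset.sum_congr rfl fun τ₁ _ => ?_
          rw [lin_single]
          exact thE_apply hM hφ hσ.ne_empty s t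
      rw [hR]
      unfold DP
      by_cases hc : s ⊆ t ∧ t ∈ sdK K
      · rw [if_pos hc, ← sd_ident hM hφ hc.2 hs hc.1 hτK hστ]
        refine Finset.sum_congr rfl fun w _ => ?_
        simp only
        rw [thE_apply hM hφ hσ.ne_empty, thE_apply hM hφ hσ.ne_empty]
      · rw [if_neg hc]
        symm
        rw [Finset.sum_eq_zero fun v _ => tc_zero hc, Finset.sum_eq_zero fun v _ => tc_zero hc,
          add_zero]
    · have h1 : (s, t) ∉ TCell (sdK K) (sdB K B) n (m + 1) := fun h => hs h.1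
      have h2 : ∀ x ∈ TN (sdK K) (sdB K B) n (m + 1), x (s, t) = 0 := by
        intro x hx
        by_contra h
        exact h1 ((Finsupp.mem_supported _ _).1 hx (Finsupp.mem_support_iff.2 h))
      rw [h2 _ hmemL, h2 _ hmemR]

end

end Pool.Agent.H37.TM

end

section

/-!
# Project SR, module T1: groups with retractions
-/

set_option autoImplicit false
set_option linter.unusedSectionVars false

open Finset

namespace Pool.Agent.H19.SR

open Pool.Agent.H77.SW Pool.Agent.H73.GC

variable {V : Type} [DecidableEq V] [Fintype V] {Y : Type} [AddCommGroup Y] [Module F2 Y] [Finite Y]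

/-- the marked involutions of the product -/
private def RetG_g {G : SimpleGraph V} {P : Type} [Group P] (D : PG G P) (v : V) :
    Finset V → P := fun T => if v ∈ T then D.g v else 1

/-- the group generated by the marked involutions of the product -/
private def RetG_S {G : SimpleGraph V} {P : Type} [Group P] (D : PG G P) :
    Subgroup (Finset V → P) := Subgroup.closure (Set.range (RetG_g D))

private theorem RetG_two {P : Type} [Group P] [Fintype P] (h : IsPGroup 2 P) :
    IsPGroup 2 (Finset V → P) := by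
  obtain ⟨m, hm⟩ := IsPGroup.iff_card.1 h
  refine IsPGroup.iff_card.2 ⟨m * Fintype.card (Finset V), ?_⟩
  rw [Nat.card_eq_fintype_card] at hm
  rw [Nat.card_eq_fintype_card, Fintype.card_fun, hm, pow_mul]

/-- the marked involutions -/
private def RetG_D {G : SimpleGraph V} {P : Type} [Group P] [Fintype P] (D : PG G P) :
    PG G (RetG_S D) where
  g v := ⟨RetG_g D v, Subgroup.subset_closure ⟨v, rfl⟩⟩
  sq := by
    intro v
    refine Subtype.ext (funext fun T => ?_)
    change RetG_g D v T * RetG_g D v T = 1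
    simp only [RetG_g]
    split_ifs
    · exact D.sq v
    · exact one_mul 1
  comm := by
    intro u v h
    refine Subtype.ext (funext fun T => ?_)
    change RetG_g D u T * RetG_g D v T = RetG_g D v T * RetG_g D u T
    simp only [RetG_g]
    split_ifs
    · exact D.comm u v h
    · rw [mul_one, one_mul]
    · rw [mul_one, one_mul]
    · rfl
  b := fun p => D.b (p.1 univ)
  b_mul := fun p q v => D.b_mul (p.1 univ) (q.1 univ) v
  b_g := by
    intro u v
    have h : RetG_g D u univ = D.g u := if_pos (mem_univ u)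
    change D.b (RetG_g D u univ) v = _
    rw [h]
    exact D.b_g u v
  two := (RetG_two D.two).to_subgroup _

/-- the restriction to a set of vertices -/
private def RetG_rho {P : Type} [Group P] (A : Finset V) :
    (Finset V → P) →* (Finset V → P) where
  toFun p := fun T => p (T ∩ A)
  map_one' := rfl
  map_mul' _ _ := rfl

private theorem RetG_rho_g {G : SimpleGraph V} {P : Type} [Group P] (D : PG G P) (A : Finset V)
    (v : V) : RetG_rho A (RetG_g D v) = if v ∈ A then RetG_g D v else 1 := by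
  funext T
  change RetG_g D v (T ∩ A) = _
  by_cases h : v ∈ A
  · rw [if_pos h]
    simp only [RetG_g, mem_inter, h, and_true]
  · rw [if_neg h]
    simp only [RetG_g, mem_inter, h, and_false, if_false, Pi.one_apply]

private theorem RetG_rho_mem {G : SimpleGraph V} {P : Type} [Group P] (D : PG G P)
    (A : Finset V) : RetG_S D ≤ (RetG_S D).comap (RetG_rho A) := by
  refine (Subgroup.closure_le _).2 ?_
  rintro _ ⟨v, rfl⟩
  change RetG_rho A (RetG_g D v) ∈ RetG_S D
  rw [RetG_rho_g]
  split_ifs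
  · exact Subgroup.subset_closure ⟨v, rfl⟩
  · exact Subgroup.one_mem _

private theorem RetG_ret {G : SimpleGraph V} {P : Type} [Group P] [Fintype P] (D : PG G P) :
    Ret (RetG_D D).g := by
  constructor
  · have h1 : Set.range (RetG_D D).g = (((↑) : RetG_S D → (Finset V → P)) ⁻¹'
        (Set.range (RetG_g D))) := by
      ext x
      constructor
      · rintro ⟨v, rfl⟩
        exact ⟨v, rfl⟩
      · rintro ⟨v, hv⟩
        exact ⟨v, Subtype.ext hv⟩
    rw [h1]
    exact Subgroup.closure_closure_coe_preimage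
  · intro A
    refine ⟨((RetG_rho A).comp (RetG_S D).subtype).codRestrict (RetG_S D)
      (fun x => RetG_rho_mem D A x.2), fun v => ?_⟩
    refine Subtype.ext ?_
    change RetG_rho A (RetG_g D v) = _
    rw [RetG_rho_g]
    split_ifs
    · rfl
    · rfl

/-- **Retractions.** `P'` = the subgroup of `Finset V → P` (a product of copies of `P`) generated by
`g' v = (A ↦ if v ∈ A then D.g v else 1)`; the retraction for `B` is the restriction of `x ↦ (A ↦ x (A ∩ B))`;
`π x = x univ`; bits `D.b (x univ)`. (Cf. `Pool.Agent.H77.SW.Cover`.) -/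
theorem exists_ret {G : SimpleGraph V} {P : Type} [Group P] [Fintype P] (D : PG G P) :
    ∃ (P' : Type) (_ : Group P') (_ : Fintype P') (D' : PG G P') (π : P' →* P),
      Ret D'.g ∧ ∀ v, π (D'.g v) = D.g v := by
  classical
  refine ⟨RetG_S D, inferInstance, Fintype.ofFinite _, RetG_D D,
    (Pi.evalMonoidHom (fun _ : Finset V => P) univ).comp (RetG_S D).subtype, RetG_ret D,
    fun v => ?_⟩
  exact if_pos (mem_univ v)

/-- the product with the cube -/
private def RetG_P {G : SimpleGraph V} {P : Type} [Group P] (hP : IsPGroup 2 P) (g : V → P)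
    (hg : ∀ v, g v * g v = 1) (hgc : ∀ u v, G.Adj u v → g u * g v = g v * g u) :
    PG G (P × Multiplicative (V → ZMod 2)) where
  g v := (g v, Multiplicative.ofAdd (Pi.single v (1 : ZMod 2)))
  sq := by
    intro v
    refine Prod.ext (hg v) ?_
    change Multiplicative.ofAdd ((Pi.single v (1 : ZMod 2) : V → ZMod 2) +
      Pi.single v (1 : ZMod 2)) = 1
    rw [ZModModule.add_self]
    rfl
  comm u v huv := Prod.ext (hgc u v huv) (mul_comm _ _)
  b p v := Multiplicative.toAdd p.2 v
  b_mul _ _ _ := rfl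
  b_g := by
    intro u v
    change (Pi.single u (1 : ZMod 2) : V → ZMod 2) v = _
    by_cases h : u = v
    · subst h
      rw [if_pos rfl, Pi.single_eq_same]
    · rw [if_neg h, Pi.single_eq_of_ne (Ne.symm h)]
  two := by
    have hpow2 : ∀ x : Multiplicative (V → ZMod 2), x ^ 2 = 1 := by
      intro x
      rw [pow_two]
      change Multiplicative.ofAdd (Multiplicative.toAdd x + Multiplicative.toAdd x) = 1
      rw [ZModModule.add_self]
      rfl
    rintro ⟨a, c⟩
    obtain ⟨k, hk⟩ := hP a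
    refine ⟨k + 1, ?_⟩
    have e1 : a ^ 2 ^ (k + 1) = 1 := by
      rw [pow_succ, pow_mul, hk, one_pow]
    have e2 : c ^ 2 ^ (k + 1) = 1 := by
      rw [pow_succ, mul_comm, pow_mul, hpow2, one_pow]
    rw [Prod.pow_mk, e1, e2]
    rfl

/-- **From modules to groups with retractions.** `Pool.Agent.H73.GC.exists_group` gives a two-group `P₀` which acts on
`Y`; `P₁ = P₀ × Multiplicative (V → ZMod 2)` with the marked elements `(g v, e_v)` is in `PG G`; `exists_ret`; then
`reg_le` for every `U`. -/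
theorem to_group {G : SimpleGraph V} {r E : V → Module.End F2 Y} (hN : IsN G univ r)
    (hB : IsBit G univ r E) :
    ∃ (P : Type) (_ : Group P) (_ : Fintype P) (D : PG G P), Ret D.g ∧
      ∀ (U : Finset V) (i : ℕ),
        Module.finrank F2 Y * hX (Cq G U) (regP D.g) i ≤ Fintype.card P * hX (Cq G U) r i := by
  classical
  obtain ⟨P₀, _, _, ρ, g, hP, hρ, -, hg, hgc⟩ := exists_group hN
  have : Fintype P₀ := Fintype.ofFinite _
  obtain ⟨P', _, _, D', π, hR, hπ⟩ := exists_ret (RetG_P hP g hg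
    (fun u v h => hgc u (mem_univ u) v (mem_univ v) h))
  refine ⟨P', inferInstance, inferInstance, D', hR, fun U i => ?_⟩
  have hN' : IsN G U r := by
    refine ⟨fun v _ => hN.sq v (mem_univ v), fun u _ v _ => hN.comm u (mem_univ u) v (mem_univ v),
      ?_⟩
    obtain ⟨n, F, h1, h2, h3, h4⟩ := hN.fil
    exact ⟨n, F, h1, h2, h3, fun j v _ => h4 j v (mem_univ v)⟩
  have hB' : IsBit G U r E :=
    ⟨fun v _ => hB.idem v (mem_univ v), fun v _ => hB.bit v (mem_univ v),
      fun u _ v _ => hB.er u (mem_univ u) v (mem_univ v),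
      fun u _ v _ => hB.ee u (mem_univ u) v (mem_univ v)⟩
  refine reg_le hN' hB' D'.two (ρ.comp ((MonoidHom.fst P₀ (Multiplicative (V → ZMod 2))).comp π))
    D'.g D'.sq D'.comm (fun v _ => ?_) i
  change ρ (π (D'.g v)).1 = r v
  rw [hπ]
  exact hρ v (mem_univ v)

end Pool.Agent.H19.SR

end

section

/-!
# Project TM: the action on the flags

Every free simplicial action gives a free simplicial action on the flags, with an invariant height (`sd_mact`); the
chain map `thE` is equivariant if the choice `φ` is (`thE_smul`), and composition with it makes the map `Ψ` a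
map to the pairs of flags (`sd_psi`).
-/

set_option autoImplicit false
set_option linter.unusedSectionVars false

open Finset Pointwise

namespace Pool.Agent.H37.TM

open Pool.Agent.H19.Cub Pool.Agent.H77.SX

section

variable {U Γ : Type} [DecidableEq U] [Group Γ] [MulAction Γ U] {K B : Set (Finset U)} {n : ℕ}
  [MulAction Γ (Sx K)]

/-- the height of the vertices of the flags -/
def sdht (K : Set (Finset U)) (a : Sx K) : ℕ := a.1.card - 1

theorem sx_smul_iff (hact : ∀ (g : Γ) (a : Sx K), (g • a).1 = g • a.1) (g : Γ) (a b : Sx K) :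
    (g • a).1 ⊆ (g • b).1 ↔ a.1 ⊆ b.1 := by
  rw [hact, hact, Finset.smul_finset_subset_smul_finset_iff]

theorem sdK_smul (hact : ∀ (g : Γ) (a : Sx K), (g • a).1 = g • a.1) (g : Γ)
    {c : Finset (Sx K)} (hc : c ∈ sdK K) : g • c ∈ sdK K := by
  refine ⟨hc.1.smul_finset, ?_⟩
  intro a ha b hb
  rw [Finset.mem_smul_finset] at ha hb
  obtain ⟨a', ha', rfl⟩ := ha
  obtain ⟨b', hb', rfl⟩ := hb
  rw [sx_smul_iff hact, sx_smul_iff hact]
  exact hc.2 a' ha' b' hb'

/-- the action on the flags -/
theorem sd_mact (hM : Psm K B n) (hact : ∀ (g : Γ) (a : Sx K), (g • a).1 = g • a.1)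
    (hB : ∀ (g : Γ) (s : Finset U), s ∈ B → g • s ∈ B)
    (hfree : ∀ (g : Γ) (s : Finset U), s ∈ K → g • s = s → g = 1) :
    MAct Γ (sdK K) (sdB K B) n (sdht K) where
  K_mem := fun g s hs => sdK_smul hact g hs
  B_mem := by
    intro g s hs
    refine ⟨sdK_smul hact g hs.1, fun a ha => ?_⟩
    rw [Finset.mem_smul_finset] at ha
    obtain ⟨a', ha', rfl⟩ := ha
    rw [hact]
    exact hB g _ (hs.2 a' ha')
  free := by
    intro g s hs h
    obtain ⟨a, ha⟩ := hs.1
    have h1 : g • a ∈ s := by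
      rw [← h]
      exact Finset.smul_mem_smul_finset ha
    have h2 : g • a = a := by
      refine sd_inj hs h1 ha ?_
      show (g • a).1.card = a.1.card
      rw [hact, Finset.card_smul_finset]
    refine hfree g a.1 a.2 ?_
    rw [← hact, h2]
  ht_smul := by
    intro g a
    unfold sdht
    rw [hact, Finset.card_smul_finset]
  ht_inj := by
    intro s hs a ha b hb h
    have h1 := Finset.card_pos.2 (hM.ne _ a.2)
    have h2 := Finset.card_pos.2 (hM.ne _ b.2)
    refine sd_inj hs ha hb ?_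
    show a.1.card = b.1.card
    unfold sdht at h
    omega
  ht_le := by
    intro s _ a _
    have h1 := hM.card_le _ a.2
    unfold sdht
    omega

theorem sd_singleton (a : Sx K) : ({a} : Finset (Sx K)) ∈ sdK K := by
  refine ⟨Finset.singleton_nonempty a, fun b hb c hc => ?_⟩
  rw [Finset.mem_singleton] at hb hc
  rw [hb, hc]
  exact Or.inl subset_rfl

/-- an equivariant choice of a vertex of every simplex -/
theorem exists_phi (hM : Psm K B n) (hact : ∀ (g : Γ) (a : Sx K), (g • a).1 = g • a.1)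
    (hfree : ∀ (g : Γ) (s : Finset U), s ∈ K → g • s = s → g = 1) :
    ∃ φ : Sx K → U, (∀ a, φ a ∈ a.1) ∧ ∀ (g : Γ) a, φ (g • a) = g • φ a := by
  classical
  rcases isEmpty_or_nonempty (Sx K) with h | h
  · exact ⟨fun a => (h.false a).elim, fun a => (h.false a).elim, fun _ a => (h.false a).elim⟩
  · obtain ⟨a⟩ := h
    obtain ⟨m0, _⟩ := hM.ne _ a.2
    obtain ⟨φ, h1, h2⟩ := exists_equivOn (G := Γ) (B := Sx K) (M := U) Set.univ
      (fun _ _ _ => Set.mem_univ _)
      (fun b _ g h => hfree g b.1 b.2 (by rw [← hact, h]))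
      (fun g m => g • m) (fun g h m => mul_smul g h m) (fun b m => m ∈ b.1)
      (fun g b _ m hm => by
        rw [hact]
        exact Finset.smul_mem_smul_finset hm)
      (fun b _ => hM.ne _ b.2) m0
    exact ⟨φ, fun a => h2 a (Set.mem_univ a), fun g a => h1 g a (Set.mem_univ a)⟩

variable {φ : Sx K → U}

theorem ov_smul (hφg : ∀ (g : Γ) a, φ (g • a) = g • φ a) (g : Γ) (σ : Finset U)
    (c : Finset (Sx K)) : ov φ (g • σ) (g • c) = g • ov φ σ c := by
  ext a
  rw [mem_ov]
  constructor
  · rintro ⟨ha, h⟩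
    rw [Finset.mem_smul_finset] at ha
    obtain ⟨b, hb, rfl⟩ := ha
    rw [hφg, Finset.smul_mem_smul_finset_iff] at h
    exact Finset.smul_mem_smul_finset (mem_ov.2 ⟨hb, h⟩)
  · intro ha
    rw [Finset.mem_smul_finset] at ha
    obtain ⟨b, hb, rfl⟩ := ha
    rw [mem_ov] at hb
    refine ⟨Finset.smul_mem_smul_finset hb.1, ?_⟩
    rw [hφg, Finset.smul_mem_smul_finset_iff]
    exact hb.2

theorem TC_smul (hact : ∀ (g : Γ) (a : Sx K), (g • a).1 = g • a.1)
    (hφg : ∀ (g : Γ) a, φ (g • a) = g • φ a) (g : Γ) {σ τ : Finset U}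
    {c : Finset (Sx K)} (h : TC φ σ τ c) : TC φ (g • σ) (g • τ) (g • c) := by
  obtain ⟨h1, h2, h3⟩ := h
  refine ⟨sdK_smul hact g h1, ?_, ?_⟩
  · rw [← h2]
    ext u
    simp only [Finset.mem_image, Finset.mem_smul_finset]
    constructor
    · rintro ⟨_, ⟨a, ha, rfl⟩, rfl⟩
      exact ⟨φ a, ⟨a, ha, rfl⟩, (hφg g a).symm⟩
    · rintro ⟨_, ⟨a, ha, rfl⟩, rfl⟩
      exact ⟨g • a, ⟨a, ha, rfl⟩, hφg g a⟩
  · intro a ha b hb hab haσ
    rw [Finset.mem_smul_finset] at ha hb
    obtain ⟨a', ha', rfl⟩ := ha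
    obtain ⟨b', hb', rfl⟩ := hb
    rw [hφg, hφg] at hab
    rw [hφg, Finset.smul_mem_smul_finset_iff] at haσ
    rw [h3 a' ha' b' hb' (smul_left_cancel g hab) haσ]

theorem thE_smul (hM : Psm K B n) (hφ : ∀ a, φ a ∈ a.1)
    (hact : ∀ (g : Γ) (a : Sx K), (g • a).1 = g • a.1)
    (hφg : ∀ (g : Γ) a, φ (g • a) = g • φ a) (g : Γ) (e : Finset U × Finset U) :
    thE φ (g • e) = (thE φ e).mapDomain (g • ·) := by
  classical
  obtain ⟨σ, τ⟩ := e
  change thE φ (g • σ, g • τ) = _
  unfold thE
  simp only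
  by_cases h0 : σ = ∅
  · rw [if_pos h0, if_pos (by rw [h0, Finset.smul_finset_empty]), Finsupp.mapDomain_single]
    rfl
  · rw [if_neg h0, if_neg (by rwa [Finset.smul_finset_eq_empty]), Finsupp.mapDomain_finsetSum]
    symm
    refine Finset.sum_bij (fun c _ => g • c) ?_ ?_ ?_ ?_
    · intro c hc
      rw [mem_TF hM hφ] at hc ⊢
      exact TC_smul hact hφg g hc
    · intro c _ c' _ h
      exact smul_left_cancel g h
    · intro c hc
      rw [mem_TF hM hφ] at hc
      have h1 := TC_smul hact hφg g⁻¹ hc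
      rw [inv_smul_smul, inv_smul_smul] at h1
      exact ⟨g⁻¹ • c, (mem_TF hM hφ).2 h1, smul_inv_smul g c⟩
    · intro c _
      rw [Finsupp.mapDomain_single, ov_smul hφg]
      rfl

end

section

variable {V X U Γ : Type} [DecidableEq V] [DecidableEq U] [Group Γ] [MulAction Γ U]
  {Q : CubeComplex V X} {x₀ : X} [MulAction Γ (Q.Cover x₀)] {bit : X → V → ZMod 2}
  {K B : Set (Finset U)} {n : ℕ} [MulAction Γ (Sx K)] {φ : Sx K → U}

/-- **From the manifold to the flags.** -/
theorem sd_psi (hM : Psm K B n) (hφ : ∀ a, φ a ∈ a.1)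
    (hact : ∀ (g : Γ) (a : Sx K), (g • a).1 = g • a.1)
    (hφg : ∀ (g : Γ) a, φ (g • a) = g • φ a)
    {Ψ : Q.Cover x₀ × Finset V → (Finset U × Finset U →₀ ZMod 2)}
    (hΨ : IsPsi Γ Q x₀ bit K B n Ψ) :
    IsPsi Γ Q x₀ bit (sdK K) (sdB K B) n (fun e => lin (thE φ) (Ψ e)) where
  mem := fun i e he => lin_mem fun c hc => thE_mem hM hφ (tn_cell (hΨ.mem i e he) c hc)
  smul := by
    intro g i e he
    rw [hΨ.smul g i e he, lin_mapDomain, mapDomain_lin]
    exact lin_congr fun c _ => thE_smul hM hφ hact hφg g c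
  bd := by
    intro i e he
    have h1 : bdT (sdK K) n (lin (thE φ) (Ψ e)) = lin (thE φ) (bdT K n (Ψ e)) := by
      rw [map_lin]
      change _ = lin (thE φ) (lin (bdE K n) (Ψ e))
      rw [← lin_lin]
      exact lin_congr fun c hc => bdT_thE hM hφ (tn_cell (hΨ.mem i e he) c hc)
    rw [h1, hΨ.bd i e he, map_add, lin_lin]
    congr 1
    split_ifs
    · rw [lin_single]
      unfold thE
      rw [if_pos rfl]
    · rw [map_zero]

end

end Pool.Agent.H37.TM

end

section

/-!
# Project S9, block E: dimensions of chains and homology for a module over the field with two elements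
-/

set_option autoImplicit false
set_option linter.unusedSectionVars false

open Finset

namespace Pool.Agent.S9

open Pool.Agent.H77.SW Pool.Agent.H19.SR Pool.Agent.H73.GC

variable {V : Type} [DecidableEq V] [Fintype V] {Y : Type} [AddCommGroup Y] [Module F2 Y] [Finite Y]

private theorem count_zs {G : SimpleGraph V} (r : V → Module.End F2 Y) (n : ℕ) :
    (Zs (ZMod 2) G n r : Submodule (ZMod 2) (Finset V → Y)) =
      Ch (Sy (Cq G univ) r) n ⊓ LinearMap.ker dd := by
  ext z
  rw [mem_Zs, Submodule.mem_inf, mem_Ch, LinearMap.mem_ker]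
  constructor
  · rintro ⟨h1, h2, h3⟩
    refine ⟨fun s => ⟨⟨fun hn => ?_, fun v hv => h2 s v hv⟩, fun hn => ?_⟩, ?_⟩
    · by_contra h0
      exact hn ⟨(h1 s h0).1, subset_univ s⟩
    · by_contra h0
      exact hn (h1 s h0).2
    · funext s
      rw [dd_apply]
      exact h3 s
  · rintro ⟨h1, h3⟩
    refine ⟨fun s hs => ⟨?_, ?_⟩, fun s v hv => (h1 s).1.2 v hv, fun s => ?_⟩
    · by_contra h0
      exact hs ((h1 s).1.1 fun h => h0 h.1)
    · by_contra h0
      exact hs ((h1 s).2 h0)
    · have h4 := congrFun h3 s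
      rw [dd_apply] at h4
      exact h4

/-- as `Pool.Agent.H19.SR.hX_reg` for any module -/
theorem hX_gen {G : SimpleGraph V} (r : V → Module.End F2 Y) (i : ℕ) :
    hX (Cq G univ) r i = (Module.finrank F2 (Zs (ZMod 2) G i r) : ℤ) +
      Module.finrank F2 (Zs (ZMod 2) G (i + 1) r) -
      Module.finrank F2 (Ch (Sy (Cq G univ) r) (i + 1)) := by
  have hz : ∀ n, Module.finrank F2 (Zs (ZMod 2) G n r) = Module.finrank F2
      (Ch (Sy (Cq G univ) r) n ⊓ LinearMap.ker dd : Submodule F2 (Finset V → Y)) := by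
    intro n
    rw [count_zs]
  have hfin : Finite (Finset V → Y) := inferInstance
  have h := hx_eq (E := Finset V → Y) dd (Ch (Sy (Cq G univ) r)) i
  have h1 := hz i
  have h2 := hz (i + 1)
  unfold hX hd
  rw [h, h1, h2]

/-- as `Pool.Agent.H19.SR.finrank_ch` for any module with bits -/
theorem finrank_gen {G : SimpleGraph V} {r E : V → Module.End F2 Y} (hN : IsN G univ r)
    (hB : IsBit G univ r E) (d : ℕ) :
    Module.finrank F2 (Ch (Sy (Cq G univ) r) d) * 2 ^ d = ncl G d * Module.finrank F2 Y := by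
  classical
  have h1 : ∀ s : Finset V, s.card = d → G.IsClique (s : Set V) →
      Module.finrank F2 (Sy (Cq G univ) r s) * 2 ^ d = Module.finrank F2 Y := by
    intro s hs hc
    have hq : Cq G univ s := ⟨hc, subset_univ s⟩
    have h2 : Sy (Cq G univ) r s = Inv r s := by
      ext y
      rw [mem_Sy, mem_Inv]
      exact ⟨fun h => h.2, fun h => ⟨fun hn => absurd hq hn, h⟩⟩
    rw [h2, ← hs, finrank_Inv (IsBit.bitOn hN hB hq)]
  have h0 : ∀ s : Finset V, ¬ G.IsClique (s : Set V) →
      Module.finrank F2 (Sy (Cq G univ) r s) = 0 := by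
    intro s hc
    have h2 : Sy (Cq G univ) r s = ⊥ := by
      rw [eq_bot_iff]
      intro y hy
      exact (Submodule.mem_bot _).2 (hy.1 fun h => hc h.1)
    rw [h2, finrank_bot]
  rw [finrank_Ch, sum_mul]
  have h3 : ∀ s ∈ (univ : Finset (Finset V)).filter (fun s => s.card = d),
      Module.finrank F2 (Sy (Cq G univ) r s) * 2 ^ d =
        if G.IsClique (s : Set V) then Module.finrank F2 Y else 0 := by
    intro s hs
    split_ifs with hc
    · exact h1 s (mem_filter.1 hs).2 hc
    · rw [h0 s hc, zero_mul]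
  rw [sum_congr rfl h3, ← sum_filter, sum_const, smul_eq_mul, filter_filter]
  have h4 : ((univ : Finset (Finset V)).filter
      fun s : Finset V => s.card = d ∧ G.IsClique (s : Set V)).card = ncl G d := by
    unfold ncl
    congr 1
    ext s
    simp only [mem_filter, mem_univ, true_and, and_comm]
  rw [h4]

/-- the right regular representation -/
private def count_rho (P : Type) [Group P] : P →* Module.End F2 (P → F2) where
  toFun q :=
    { toFun := fun f p => f (p * q)
      map_add' := fun _ _ => rfl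
      map_smul' := fun _ _ => rfl }
  map_one' := by
    ext1 f
    funext p
    show f (p * 1) = f p
    rw [mul_one]
  map_mul' a b := by
    ext1 f
    funext p
    show f (p * (a * b)) = f (p * a * b)
    rw [mul_assoc]

/-- the homology of a covering: `reg_le` for the regular representation of `P` as a module over `Q` -/
theorem mono_reg {G : SimpleGraph V} {P Q : Type} [Group P] [Fintype P] [Group Q] [Fintype Q]
    (D : PG G P) (D' : PG G Q) (π : Q →* P) (h : ∀ v, π (D'.g v) = D.g v) (i : ℕ) :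
    (Fintype.card P : ℤ) * hX (Cq G univ) (regP D'.g) i ≤
      Fintype.card Q * hX (Cq G univ) (regP D.g) i := by
  have h1 := reg_le (isN_reg D) (isBit_reg D) D'.two ((count_rho P).comp π) D'.g D'.sq D'.comm
    (fun v _ => by
      show count_rho P (π (D'.g v)) = regP D.g v
      rw [h v]
      rfl) i
  rw [Module.finrank_fintype_fun_eq_card] at h1
  exact h1

end Pool.Agent.S9

end

section

/-!
# Project S10, block E: the cycles of two consecutive degrees as the solutions of one local system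
-/

set_option autoImplicit false
set_option linter.unusedSectionVars false

open Finset

namespace Pool.Agent.S10.EA

open Pool.Agent.S9 Pool.Agent.S10

variable {V : Type} [DecidableEq V] [Fintype V] {G : SimpleGraph V} {W : Type} [Group W]

open Classical in
/-- the local system of the cycles of the degrees `i` and `i + 1`: support, cells, boundary -/
noncomputable def Lz (R : Rac G W) (act : V → W → Prop) (i : ℕ) :
    ((Fin 2 × Finset V) ⊕ ((Fin 2 × Finset V × V) ⊕ (Fin 2 × Finset V))) → W → Finset ((Fin 2 × Finset V) × W)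
  | Sum.inl x, w => if (G.IsClique (x.2 : Set V) ∧ ∀ v ∈ x.2, act v w) ∧ x.2.card = i + x.1 then ∅ else {(x, 1)}
  | Sum.inr (Sum.inl (j, A, v)), _ => if v ∈ A then {((j, A), 1), ((j, A), R.s v)} else ∅
  | Sum.inr (Sum.inr (j, κ)), _ => κᶜ.image fun v => ((j, insert v κ), 1)

theorem lz_inv {R : Rac G W} {Φ : Subgroup W} {act : V → W → Prop} (h : IsActv R Φ act) (i : ℕ) :
    LInv (Lz R act i) Φ := by
  classical
  intro g hg t' w
  rcases t' with x | ⟨j, A, v⟩ | ⟨j, κ⟩
  · simp only [Lz]
    have h1 : (∀ v ∈ x.2, act v (g * w)) ↔ ∀ v ∈ x.2, act v w :=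
      forall_congr' fun v => forall_congr' fun _ => h.inv v g hg w
    by_cases h2 : (G.IsClique (x.2 : Set V) ∧ ∀ v ∈ x.2, act v w) ∧ x.2.card = i + x.1
    · rw [if_pos h2, if_pos ⟨⟨h2.1.1, h1.2 h2.1.2⟩, h2.2⟩]
    · rw [if_neg h2, if_neg fun h3 => h2 ⟨⟨h3.1.1, h1.1 h3.1.2⟩, h3.2⟩]
  · rfl
  · rfl

theorem add_eq_zero_two (K : Type) [Field K] [CharP K 2] {N : Type} [AddCommGroup N] [Module K N] (x y : N) :
    x + y = 0 ↔ y = x := by
  have h : ∀ z : N, z + z = 0 := fun z => by
    rw [← two_smul K z, CharTwo.two_eq_zero, zero_smul]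
  constructor
  · intro h1
    have h2 := h x
    rw [← h1] at h2
    exact (add_left_cancel h2).symm
  · rintro rfl
    exact h y

section Iff

variable {K : Type} [Field K] [CharP K 2] {N : Type} [AddCommGroup N] [Module K N]

/-- the solutions are the pairs of cycles -/
theorem mem_lz (R : Rac G W) (act : V → W → Prop) (i : ℕ) {Γ : Subgroup W} {ρ : Γ →* Module.End K N}
    {c : Fin 2 × Finset V → W → N} :
    c ∈ ZL (Lz R act i) Γ ρ ↔ ∀ j : Fin 2, (fun A => c (j, A)) ∈ Za R act Γ ρ (i + j) := by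
  classical
  have hs : ∀ v : V, (1 : W) ≠ R.s v := by
    intro v h
    have h1 := R.b_s v v
    rw [← h, R.b_one, if_pos rfl] at h1
    exact absurd h1 (by decide)
  have e1 : ∀ (x : Fin 2 × Finset V) (w : W), ∑ y ∈ Lz R act i (Sum.inl x) w, c y.1 (w * y.2) =
      if (G.IsClique (x.2 : Set V) ∧ ∀ v ∈ x.2, act v w) ∧ x.2.card = i + x.1 then 0 else c x w := by
    intro x w
    simp only [Lz]
    split_ifs
    · exact Finset.sum_empty
    · rw [Finset.sum_singleton, mul_one]
  have e2 : ∀ (j : Fin 2) (A : Finset V) (v : V) (w : W), v ∈ A →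
      ∑ y ∈ Lz R act i (Sum.inr (Sum.inl (j, A, v))) w, c y.1 (w * y.2) = c (j, A) w + c (j, A) (w * R.s v) := by
    intro j A v w hv
    simp only [Lz]
    rw [if_pos hv, Finset.sum_insert, Finset.sum_singleton, mul_one]
    rw [Finset.mem_singleton]
    intro h
    exact hs v (Prod.ext_iff.1 h).2
  have e3 : ∀ (j : Fin 2) (κ : Finset V) (w : W),
      ∑ y ∈ Lz R act i (Sum.inr (Sum.inr (j, κ))) w, c y.1 (w * y.2) = ∑ v ∈ κᶜ, c (j, insert v κ) w := by
    intro j κ w
    simp only [Lz]
    rw [Finset.sum_image]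
    · refine Finset.sum_congr rfl fun v _ => ?_
      rw [mul_one]
    · intro v hv u hu h
      rw [mem_coe, mem_compl] at hv hu
      have h1 : insert v κ = insert u κ := (Prod.ext_iff.1 (Prod.ext_iff.1 h).1).2
      have h2 : v ∈ insert u κ := by
        rw [← h1]
        exact mem_insert_self _ _
      exact (mem_insert.1 h2).resolve_right hv
  constructor
  · rintro ⟨h1, h2⟩ j
    have h5 : ∀ A w, c (j, A) w ≠ 0 → (G.IsClique (A : Set V) ∧ ∀ v ∈ A, act v w) ∧ A.card = i + j := by
      intro A w h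
      by_contra h3
      have h4 := h2 (Sum.inl (j, A)) w
      rw [e1, if_neg h3] at h4
      exact h h4
    refine ⟨⟨⟨fun A h => ?_, fun A v hv w => ?_, fun A g w => h1 (j, A) g w⟩, fun A w h => (h5 A w h).1.2⟩, ?_⟩
    · obtain ⟨w, hw⟩ := Function.ne_iff.1 h
      exact ⟨(h5 A w hw).1.1, (h5 A w hw).2⟩
    · have h4 := h2 (Sum.inr (Sum.inl (j, A, v))) w
      rw [e2 _ _ _ _ hv] at h4
      exact (add_eq_zero_two K _ _).1 h4
    · refine LinearMap.mem_ker.2 (funext fun κ => funext fun w => ?_)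
      rw [bd_apply]
      have h4 := h2 (Sum.inr (Sum.inr (j, κ))) w
      rw [e3] at h4
      exact h4
  · intro h
    refine ⟨fun t g w => (h t.1).1.1.2.2 t.2 g w, fun t' w => ?_⟩
    rcases t' with x | ⟨j, A, v⟩ | ⟨j, κ⟩
    · rw [e1]
      split_ifs with h1
      · rfl
      · by_contra h2
        have h3 := (h x.1).1.1.1 x.2 (fun h0 => h2 (congrFun h0 w))
        exact h1 ⟨⟨h3.1, (h x.1).1.2 x.2 w h2⟩, h3.2⟩
    · by_cases hv : v ∈ A
      · rw [e2 _ _ _ _ hv]
        exact (add_eq_zero_two K _ _).2 ((h j).1.1.2.1 A v hv w)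
      · simp only [Lz]
        rw [if_neg hv]
        exact Finset.sum_empty
    · rw [e3]
      have h1 := congrFun (congrFun (LinearMap.mem_ker.1 (h j).2) κ) w
      rw [bd_apply] at h1
      exact h1

/-- the solutions are the pairs of cycles -/
noncomputable def zE (R : Rac G W) (act : V → W → Prop) (i : ℕ) (Γ : Subgroup W) (ρ : Γ →* Module.End K N) :
    ZL (Lz R act i) Γ ρ ≃ₗ[K] ∀ j : Fin 2, Za R act Γ ρ (i + j) where
  toFun c j := ⟨fun A => c.1 (j, A), (mem_lz R act i).1 c.2 j⟩
  invFun z := ⟨fun t => (z t.1).1 t.2, (mem_lz R act i).2 fun j => (z j).2⟩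
  map_add' _ _ := rfl
  map_smul' _ _ := rfl
  left_inv _ := rfl
  right_inv _ := rfl

end Iff

end Pool.Agent.S10.EA

end

section

/-!
# S9: the number of the chains with coefficients in edge operators

`finrank_Cz`: the dimension of the space `Cz K G n r` of the chains of degree `n` for the functions `P → N` with edge
operators is `cP D n * finrank K N`.
-/

set_option autoImplicit false
set_option linter.unusedSectionVars false

open Finset

namespace Pool.Agent.S9

open Pool.Agent.H77.SW Pool.Agent.H73.GC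

variable {V : Type} [DecidableEq V] [Fintype V]

/-- the edge operators form a system of coefficients -/
structure IsEdL {G : SimpleGraph V} {P : Type} [Group P] (D : PG G P) {K : Type} [Field K] {N : Type}
    [AddCommGroup N] [Module K N] (L : V → P → N →ₗ[K] N) : Prop where
  inv : ∀ v p x, L v p (L v (p * D.g v) x) = x
  comm : ∀ u v, G.Adj u v → ∀ p x, L u p (L v (p * D.g u) x) = L v p (L u (p * D.g v) x)

section

variable {G : SimpleGraph V} {P : Type} [Group P] (D : PG G P) {K : Type} [Field K] {N : Type}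
  [AddCommGroup N] [Module K N] (L : V → P → N →ₗ[K] N)

/-- the functions which are invariant under the letters in `A` and vanish where a bit in `B` is not `0` -/
def SAB (A B : Finset V) : Submodule K (P → N) where
  carrier := {F | (∀ v ∈ A, rL D L v F = F) ∧ ∀ p, ∀ w ∈ B, D.b p w ≠ 0 → F p = 0}
  zero_mem' := ⟨fun v _ => map_zero _, fun _ _ _ _ => rfl⟩
  add_mem' := by
    rintro F F' ⟨h1, h2⟩ ⟨h3, h4⟩
    refine ⟨fun v hv => by rw [map_add, h1 v hv, h3 v hv], fun p w hw hb => ?_⟩
    rw [Pi.add_apply, h2 p w hw hb, h4 p w hw hb, add_zero]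
  smul_mem' := by
    rintro c F ⟨h1, h2⟩
    refine ⟨fun v hv => by rw [map_smul, h1 v hv], fun p w hw hb => ?_⟩
    rw [Pi.smul_apply, h2 p w hw hb, smul_zero]

variable {D L}

private theorem b_mul_g (p : P) (u v : V) : D.b (p * D.g u) v = D.b p v + if u = v then 1 else 0 := by
  rw [D.b_mul, D.b_g]

theorem rL_rL (hL : IsEdL D L) (v : V) (F : P → N) : rL D L v (rL D L v F) = F := by
  funext p
  rw [rL_apply, rL_apply, mul_assoc, D.sq, mul_one, hL.inv]

theorem rL_comm (hL : IsEdL D L) {u v : V} (h : G.Adj u v) (F : P → N) :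
    rL D L u (rL D L v F) = rL D L v (rL D L u F) := by
  funext p
  rw [rL_apply, rL_apply, rL_apply, rL_apply, hL.comm u v h, mul_assoc, mul_assoc, D.comm u v h]

/-- the restriction to the functions which vanish where the bit `v` is not `0` -/
def Ev0 (D : PG G P) (K : Type) [Field K] {N : Type} [AddCommGroup N] [Module K N] (v : V) :
    (P → N) →ₗ[K] (P → N) where
  toFun F p := if D.b p v = 0 then F p else 0
  map_add' F F' := by
    funext p
    simp only [Pi.add_apply]
    split_ifs <;> simp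
  map_smul' c F := by
    funext p
    simp only [Pi.smul_apply, RingHom.id_apply]
    split_ifs <;> simp

theorem Ev0_apply (v : V) (F : P → N) (p : P) :
    Ev0 D K v F p = if D.b p v = 0 then F p else 0 := rfl

theorem Ev0_rL {u v : V} (h : u ≠ v) (F : P → N) : rL D L u (Ev0 D K v F) = Ev0 D K v (rL D L u F) := by
  funext p
  rw [rL_apply, Ev0_apply, Ev0_apply, b_mul_g, if_neg h, add_zero, rL_apply]
  split_ifs
  · rfl
  · exact map_zero _

theorem Ev0_add (hL : IsEdL D L) (v : V) {F : P → N} (hF : rL D L v F = F) :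
    Ev0 D K v F + rL D L v (Ev0 D K v F) = F := by
  funext p
  rw [Pi.add_apply, rL_apply, Ev0_apply, Ev0_apply, b_mul_g, if_pos rfl]
  have h2 : ∀ a : ZMod 2, a = 0 ∨ a = 1 := by decide
  rcases h2 (D.b p v) with h | h
  · rw [h, if_pos rfl, if_neg (by decide), map_zero, add_zero]
  · rw [h, if_neg (by decide), if_pos (by decide), zero_add]
    exact congrFun hF p

theorem Ev0_of (v : V) {H : P → N} (hH : ∀ p, D.b p v ≠ 0 → H p = 0) :
    Ev0 D K v (H + rL D L v H) = H := by
  funext p
  rw [Ev0_apply, Pi.add_apply, rL_apply]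
  have h2 : ∀ a : ZMod 2, a = 0 ∨ a = 1 := by decide
  rcases h2 (D.b p v) with h | h
  · rw [if_pos h, hH (p * D.g v), map_zero, add_zero]
    rw [b_mul_g, if_pos rfl, h]
    decide
  · rw [if_neg (by rw [h]; decide), hH p (by rw [h]; decide)]

/-- one letter becomes a frozen bit -/
noncomputable def SABstep (hL : IsEdL D L) {A B : Finset V} {v : V} (hvA : v ∉ A) (hvB : v ∉ B)
    (hA : ∀ u ∈ A, G.Adj u v) : SAB D L (insert v A) B ≃ₗ[K] SAB D L A (insert v B) where
  toFun F := ⟨Ev0 D K v F.1, by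
    refine ⟨fun u hu => ?_, fun p w hw hb => ?_⟩
    · have huv : u ≠ v := fun h => hvA (h ▸ hu)
      rw [Ev0_rL huv, F.2.1 u (mem_insert_of_mem hu)]
    · rw [Ev0_apply]
      rcases mem_insert.1 hw with rfl | hw
      · rw [if_neg hb]
      · rw [F.2.2 p w hw hb, ite_self]⟩
  map_add' F F' := Subtype.ext (map_add _ _ _)
  map_smul' c F := Subtype.ext (map_smul _ _ _)
  invFun H := ⟨H.1 + rL D L v H.1, by
    refine ⟨fun u hu => ?_, fun p w hw hb => ?_⟩
    · rcases mem_insert.1 hu with rfl | hu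
      · rw [map_add, rL_rL hL, add_comm]
      · rw [map_add, rL_comm hL (hA u hu), H.2.1 u hu]
    · have hvw : v ≠ w := fun h => hvB (h ▸ hw)
      rw [Pi.add_apply, rL_apply, H.2.2 p w (mem_insert_of_mem hw) hb,
        H.2.2 (p * D.g v) w (mem_insert_of_mem hw), map_zero, add_zero]
      rwa [b_mul_g, if_neg hvw, add_zero]⟩
  left_inv F := Subtype.ext (Ev0_add hL v (F.2.1 v (mem_insert_self v A)))
  right_inv H := Subtype.ext (Ev0_of v fun p hp => H.2.2 p v (mem_insert_self v B) hp)

theorem finrank_SAB (hL : IsEdL D L) (A : Finset V) : ∀ B : Finset V, Disjoint A B →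
    G.IsClique ((A ∪ B : Finset V) : Set V) →
    Module.finrank K (SAB D L A B) = Module.finrank K (SAB D L ∅ (A ∪ B)) := by
  induction A using Finset.induction_on with
  | empty =>
    intro B _ _
    rw [empty_union]
  | insert v A hv ih =>
    intro B hd hc
    have hvB : v ∉ B := fun h => (Finset.disjoint_left.1 hd) (mem_insert_self v A) h
    have hA : ∀ u ∈ A, G.Adj u v := fun u hu =>
      hc (by simp [hu]) (by simp) (fun h => hv (h ▸ hu))
    rw [(SABstep hL hv hvB hA).finrank_eq, ih (insert v B) ?_ ?_]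
    · congr 2
      all_goals rw [union_insert, insert_union]
    · rw [Finset.disjoint_insert_right]
      exact ⟨hv, Finset.disjoint_of_subset_left (subset_insert v A) hd⟩
    · rwa [union_insert, ← insert_union]

/-- the functions on the representatives of the cells -/
noncomputable def SAB0 (A : Finset V) :
    SAB D L ∅ A ≃ₗ[K] ({p : P // ∀ v ∈ A, D.b p v = 0} → N) where
  toFun F p := F.1 p.1
  map_add' F F' := rfl
  map_smul' c F := rfl
  invFun H := by
    classical
    exact ⟨fun p => if h : ∀ v ∈ A, D.b p v = 0 then H ⟨p, h⟩ else 0, by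
      refine ⟨fun u hu => absurd hu (notMem_empty u), fun p w hw hb => ?_⟩
      exact dif_neg fun h => hb (h w hw)⟩
  left_inv F := by
    classical
    apply Subtype.ext
    funext p
    show (if h : ∀ v ∈ A, D.b p v = 0 then F.1 p else 0) = F.1 p
    split_ifs with h
    · rfl
    · rw [not_forall] at h
      obtain ⟨w, h⟩ := h
      rw [Classical.not_imp] at h
      exact (F.2.2 p w h.1 h.2).symm
  right_inv H := by
    classical
    funext p
    show (if h : ∀ v ∈ A, D.b p.1 v = 0 then H ⟨p.1, h⟩ else 0) = H p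
    rw [dif_pos p.2]

end

/-- the number of the cells of degree `n` of the cube complex of `P` -/
noncomputable def ncel {G : SimpleGraph V} {P : Type} [Group P] (D : PG G P) (n : ℕ) : ℕ := by
  classical
  exact ∑ A : Finset V, if G.IsClique (A : Set V) ∧ A.card = n then
    Nat.card {p : P // ∀ v ∈ A, D.b p v = 0} else 0

theorem finrank_CzL_ncel {G : SimpleGraph V} {P : Type} [Group P] [Finite P] {D : PG G P} {K : Type}
    [Field K] {N : Type} [AddCommGroup N] [Module K N] [FiniteDimensional K N]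
    {L : V → P → N →ₗ[K] N} (hL : IsEdL D L) (n : ℕ) :
    Module.finrank K (Cz K G n (rL D L)) = ncel D n * Module.finrank K N := by
  classical
  haveI := Fintype.ofFinite P
  let S : Finset V → Submodule K (P → N) := fun A =>
    if G.IsClique (A : Set V) ∧ A.card = n then SAB D L A ∅ else ⊥
  have hS : ∀ {z : Finset V → P → N}, z ∈ Cz K G n (rL D L) ↔ ∀ A, z A ∈ S A := by
    intro z
    rw [mem_Cz]
    constructor
    · rintro ⟨h1, h2⟩ A
      by_cases hA : G.IsClique (A : Set V) ∧ A.card = n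
      · show z A ∈ (if _ then _ else _ : Submodule K (P → N))
        rw [if_pos hA]
        exact ⟨h2 A, fun p w hw => absurd hw (notMem_empty w)⟩
      · show z A ∈ (if _ then _ else _ : Submodule K (P → N))
        rw [if_neg hA, Submodule.mem_bot]
        by_contra h
        exact hA (h1 A h)
    · intro h
      have h' : ∀ A : Finset V, (G.IsClique (A : Set V) ∧ A.card = n → z A ∈ SAB D L A ∅) ∧
          (¬ (G.IsClique (A : Set V) ∧ A.card = n) → z A = 0) := by
        intro A
        have h3 : z A ∈ (if G.IsClique (A : Set V) ∧ A.card = n then SAB D L A ∅ else ⊥ :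
          Submodule K (P → N)) := h A
        constructor
        · intro hA
          rwa [if_pos hA] at h3
        · intro hA
          rwa [if_neg hA, Submodule.mem_bot] at h3
      refine ⟨fun A hA => ?_, fun A v hv => ?_⟩
      · by_contra h4
        exact hA ((h' A).2 h4)
      · by_cases hA : G.IsClique (A : Set V) ∧ A.card = n
        · exact ((h' A).1 hA).1 v hv
        · rw [(h' A).2 hA, map_zero]
  let e : Cz K G n (rL D L) ≃ₗ[K] (∀ A, S A) :=
    { toFun := fun z A => ⟨z.1 A, hS.1 z.2 A⟩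
      map_add' := fun _ _ => rfl
      map_smul' := fun _ _ => rfl
      invFun := fun z => ⟨fun A => (z A).1, hS.2 fun A => (z A).2⟩
      left_inv := fun _ => rfl
      right_inv := fun _ => rfl }
  rw [e.finrank_eq, Module.finrank_pi_fintype, ncel, sum_mul]
  refine sum_congr rfl fun A _ => ?_
  by_cases hA : G.IsClique (A : Set V) ∧ A.card = n
  · have h1 : S A = SAB D L A ∅ := if_pos hA
    rw [if_pos hA, h1, finrank_SAB hL A ∅ (disjoint_empty_right A) (by rw [union_empty]; exact hA.1),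
      union_empty, (SAB0 A).finrank_eq, Module.finrank_pi_fintype, sum_const, smul_eq_mul, card_univ,
      Nat.card_eq_fintype_card]
  · have h1 : S A = ⊥ := if_neg hA
    rw [if_neg hA, h1, finrank_bot, zero_mul]

theorem cP_eq_ncel {G : SimpleGraph V} {P : Type} [Group P] [Fintype P] (D : PG G P) (n : ℕ) :
    cP D n = ncel D n := by
  classical
  have hL : IsEdL D (K := F2) (N := F2) (fun _ _ => LinearMap.id) := ⟨fun _ _ _ => rfl, fun _ _ _ _ _ => rfl⟩
  have h := finrank_CzL_ncel hL n
  rw [Module.finrank_self, mul_one] at h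
  have h1 : Ch (Sy (Cq G univ) (regP D.g)) n = Cz F2 G n (rL D (K := F2) (N := F2) fun _ _ => LinearMap.id) := by
    ext z
    rw [mem_Ch, mem_Cz]
    constructor
    · intro h2
      refine ⟨fun A hA => ⟨?_, ?_⟩, fun A v hv => (h2 A).1.2 v hv⟩
      · by_contra h0
        exact hA ((h2 A).1.1 fun h => h0 h.1)
      · by_contra h0
        exact hA ((h2 A).2 h0)
    · rintro ⟨h2, h3⟩ A
      refine ⟨⟨fun hn => ?_, fun v hv => h3 A v hv⟩, fun hn => ?_⟩
      · by_contra h0
        exact hn ⟨(h2 A h0).1, subset_univ A⟩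
      · by_contra h0
        exact hn (h2 A h0).2
  rw [cP, h1]
  exact h

/-- **the number of the chains** -/
theorem finrank_CzL {G : SimpleGraph V} {P : Type} [Group P] [Fintype P] {D : PG G P} {K : Type}
    [Field K] {N : Type} [AddCommGroup N] [Module K N] [FiniteDimensional K N]
    {L : V → P → N →ₗ[K] N} (hL : IsEdL D L) (n : ℕ) :
    Module.finrank K (Cz K G n (rL D L)) = cP D n * Module.finrank K N := by
  rw [finrank_CzL_ncel hL n, cP_eq_ncel]

theorem finrank_Cz {G : SimpleGraph V} {P : Type} [Group P] [Fintype P] {D : PG G P} {K : Type}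
    [Field K] {N : Type} [AddCommGroup N] [Module K N] [FiniteDimensional K N]
    {L : V → P → N →ₗ[K] N} (hinv : ∀ v p, L v p ∘ₗ L v (p * D.g v) = LinearMap.id)
    (hcomm : ∀ u v, G.Adj u v → ∀ p, L u p ∘ₗ L v (p * D.g u) = L v p ∘ₗ L u (p * D.g v)) (d : ℕ) :
    Module.finrank K (Cz K G d (rL D L)) = cP D d * Module.finrank K N :=
  finrank_CzL ⟨fun v p x => LinearMap.congr_fun (hinv v p) x,
    fun u v h p x => LinearMap.congr_fun (hcomm u v h p) x⟩ d

end Pool.Agent.S9

end

section

/-!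
# S9: the cycles of a level in a basis of the coefficients
-/

set_option autoImplicit false
set_option linter.unusedSectionVars false

open Finset

namespace Pool.Agent.S9

open Pool.Agent.H77.SW Pool.Agent.H73.GC

variable {V : Type} [DecidableEq V] [Fintype V] {G : SimpleGraph V} {W : Type} [Group W]
  (R : Rac G W) {Γ : Subgroup W} [Γ.Normal] (hΓ : Lev R Γ) {K : Type} [Field K] {N : Type}
  [AddCommGroup N] [Module K N] {n : Type} [Fintype n] [DecidableEq n]

/-- the edge matrices of a module in a basis -/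
noncomputable def MB (b : Module.Basis n K N) (ρ : Γ →* Module.End K N) (v : V) (p : W ⧸ Γ) : Matrix n n K :=
  LinearMap.toMatrix b b (ρ (gam R v p))

theorem isEdg_MB (b : Module.Basis n K N) (ρ : Γ →* Module.End K N) : IsEdg (qD R hΓ) (MB R b ρ) where
  inv v p := by
    unfold MB
    rw [← LinearMap.toMatrix_mul, ← map_mul, gam_inv, map_one, LinearMap.toMatrix_one]
  comm u v h p := by
    unfold MB
    rw [← LinearMap.toMatrix_mul, ← map_mul, gam_comm R hΓ h, map_mul, LinearMap.toMatrix_mul]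

theorem MB_tw (b : Module.Basis n K N) (χ : Γ →* Kˣ) (ρ : Γ →* Module.End K N) (v : V) (p : W ⧸ Γ) :
    MB R b (tw χ ρ) v p = (χ (gam R v p) : K) • MB R b ρ v p := by
  unfold MB
  rw [← LinearEquiv.map_smul]
  rfl

/-- the cycles of a level in a basis of the coefficients -/
noncomputable def dictB (b : Module.Basis n K N) (ρ : Γ →* Module.End K N) (d : ℕ) :
    Zc R Γ ρ d ≃ₗ[K] Zs K G d (rM (qD R hΓ) (MB R b ρ)) :=
  (dictZ R hΓ ρ d).trans <| Zs_congr
    (φ := LinearEquiv.piCongrRight fun _ => b.equivFun) fun v F => by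
    funext p i
    change b.repr (ρ (gam R v p) (F (p * (qD R hΓ).g v))) i =
      ((LinearMap.toMatrix b b (ρ (gam R v p))).mulVec fun j => b.repr (F (p * (qD R hΓ).g v)) j) i
    rw [← LinearMap.toMatrix_mulVec_repr b b]

theorem dictB_apply (b : Module.Basis n K N) (ρ : Γ →* Module.End K N) (d : ℕ) (c : Zc R Γ ρ d) (A : Finset V)
    (p : W ⧸ Γ) (i : n) :
    (dictB R hΓ b ρ d c : Finset V → W ⧸ Γ → n → K) A p i = b.repr ((c : Finset V → W → N) A p.out) i := rfl

end Pool.Agent.S9

end

section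

/-!
# S9: the dimension of the homology of a level
-/

set_option autoImplicit false
set_option linter.unusedSectionVars false

open Finset

namespace Pool.Agent.S9

open Pool.Agent.H77.SW Pool.Agent.H73.GC

variable {V : Type} [DecidableEq V] [Fintype V] {G : SimpleGraph V} {W : Type} [Group W]
  (R : Rac G W) {Γ : Subgroup W} [Γ.Normal] (hΓ : Lev R Γ) {K : Type} [Field K] {N : Type}
  [AddCommGroup N] [Module K N]

include hΓ

theorem finite_Cc [FiniteDimensional K N] (ρ : Γ →* Module.End K N) (d : ℕ) :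
    FiniteDimensional K (Cc R Γ ρ d) := by
  have := hΓ.fin
  have : FiniteDimensional K (Finset V → W ⧸ Γ → N) := inferInstance
  exact Module.Finite.equiv (dictC R hΓ ρ d).symm

theorem hh_eq_sub [FiniteDimensional K N] (ρ : Γ →* Module.End K N) (d : ℕ) :
    hh R Γ ρ d = (Module.finrank K (Zc R Γ ρ d) : ℤ) + Module.finrank K (Zc R Γ ρ (d + 1)) -
      Module.finrank K (Cc R Γ ρ (d + 1)) := by
  have h0 := finite_Cc R hΓ ρ (d + 1)
  let f : Cc R Γ ρ (d + 1) →ₗ[K] (Finset V → W → N) := (bd K).domRestrict (Cc R Γ ρ (d + 1))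
  have h1 : LinearMap.range f = Bc R Γ ρ d := LinearMap.range_domRestrict _ _
  have h2 : Module.finrank K (LinearMap.ker f) = Module.finrank K (Zc R Γ ρ (d + 1)) := by
    have h3 : (LinearMap.ker f).map (Cc R Γ ρ (d + 1)).subtype = Zc R Γ ρ (d + 1) := by
      ext x
      simp only [Submodule.mem_map, LinearMap.mem_ker]
      constructor
      · rintro ⟨y, hy, rfl⟩
        exact ⟨y.2, LinearMap.mem_ker.2 hy⟩
      · rintro ⟨hx, hx'⟩
        exact ⟨⟨x, hx⟩, LinearMap.mem_ker.1 hx', rfl⟩
    rw [← h3]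
    exact (LinearEquiv.finrank_eq (Submodule.equivMapOfInjective _ (Submodule.injective_subtype _) _))
  have h4 := LinearMap.finrank_range_add_finrank_ker f
  rw [h1, h2] at h4
  unfold hh
  omega

/-- the number of the cells -/
theorem finrank_Cc [Fintype (W ⧸ Γ)] [FiniteDimensional K N] (ρ : Γ →* Module.End K N) (d : ℕ) :
    Module.finrank K (Cc R Γ ρ d) = cP (qD R hΓ) d * Module.finrank K N := by
  rw [(dictC R hΓ ρ d).finrank_eq]
  refine finrank_Cz (fun v p => ?_) (fun u v h p => ?_) d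
  · have h1 : ρ (gam R v p) * ρ (gam R v (p * (qD R hΓ).g v)) = 1 := by
      rw [← map_mul, gam_inv, map_one]
    exact h1
  · have h1 : ρ (gam R u p) * ρ (gam R v (p * (qD R hΓ).g u)) =
        ρ (gam R v p) * ρ (gam R u (p * (qD R hΓ).g v)) := by
      rw [← map_mul, gam_comm R hΓ h, map_mul]
    exact h1

theorem hh_eq [Fintype (W ⧸ Γ)] [FiniteDimensional K N] (ρ : Γ →* Module.End K N) (d : ℕ) :
    hh R Γ ρ d = (Module.finrank K (Zc R Γ ρ d) : ℤ) + Module.finrank K (Zc R Γ ρ (d + 1)) -
      cP (qD R hΓ) (d + 1) * Module.finrank K N := by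
  rw [hh_eq_sub R hΓ, finrank_Cc R hΓ]
  push_cast
  rfl

/-- the homology with coefficients in the tautological character -/
theorem hh_chi [Fintype (W ⧸ Γ)] {I : Type} (ab : Γ →* Multiplicative (I → ℤ)) (χ : Γ →* (KI I)ˣ)
    (hχ : ∀ g, (χ g : KI I) = tt (ab g).toAdd) (d : ℕ) :
    hh R Γ (ch χ) d = hchi (qD R hΓ) (eab R ab) d := by
  rw [hh_eq R hΓ, finrank_Zc_chi R hΓ ab χ hχ, finrank_Zc_chi R hΓ ab χ hχ, Module.finrank_self, Nat.cast_one, mul_one]
  rfl

end Pool.Agent.S9

end

section

/-!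
# Project S9: boundaries are cycles, the dimension of the homology is not negative
-/

set_option autoImplicit false
set_option linter.unusedSectionVars false

open Finset

namespace Pool.Agent.S9

variable {V : Type} [DecidableEq V] [Fintype V] {G : SimpleGraph V} {W : Type} [Group W]
  (R : Rac G W) {Γ : Subgroup W} {K : Type} [Field K] {N : Type}
  [AddCommGroup N] [Module K N]

theorem bd_mem_Cc {ρ : Γ →* Module.End K N} {k : ℕ} {c : Finset V → W → N}
    (hc : c ∈ Cc R Γ ρ (k + 1)) : bd K c ∈ Cc R Γ ρ k := by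
  obtain ⟨h1, h2, h3⟩ := hc
  refine ⟨fun A hA => ?_, fun A v hv w => ?_, fun A g w => ?_⟩
  · by_contra hn
    apply hA
    funext w
    rw [bd_apply]
    refine sum_eq_zero fun v hv => ?_
    rw [mem_compl] at hv
    by_contra h0
    have h4 := h1 (insert v A) fun h => h0 (congrFun h w)
    refine hn ⟨?_, ?_⟩
    · refine h4.1.subset ?_
      rw [coe_insert]
      exact Set.subset_insert _ _
    · have h5 := h4.2
      rw [card_insert_of_notMem hv] at h5
      omega
  · rw [bd_apply, bd_apply]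
    exact sum_congr rfl fun u _ => h2 (insert u A) v (mem_insert_of_mem hv) w
  · rw [bd_apply, bd_apply, map_sum]
    exact sum_congr rfl fun u _ => h3 (insert u A) g w

theorem bd_bd [CharP K 2] (c : Finset V → W → N) : bd K (bd K c) = 0 := by
  funext A w
  rw [bd_apply]
  simp only [bd_apply]
  have hN : ∀ y : N, y + y = 0 := by
    intro y
    have h := CharTwo.add_self_eq_zero (1 : K)
    rw [← one_smul K y, ← add_smul, h, zero_smul]
  rw [Finset.sum_sigma']
  refine Finset.sum_involution (fun p _ => ⟨p.2, p.1⟩) ?_ ?_ ?_ ?_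
  · rintro ⟨x, y⟩ hxy
    show c (insert y (insert x A)) w + c (insert x (insert y A)) w = 0
    rw [insert_comm]
    exact hN _
  · rintro ⟨x, y⟩ hxy _ heq
    simp only [mem_sigma, mem_compl, mem_insert, not_or] at hxy
    simp only [Sigma.mk.injEq, heq_eq_eq] at heq
    exact hxy.2.1 heq.1
  · rintro ⟨x, y⟩ hxy
    simp only [mem_sigma, mem_compl, mem_insert, not_or] at hxy ⊢
    exact ⟨hxy.2.2, fun h => hxy.2.1 h.symm, hxy.1⟩
  · rintro ⟨x, y⟩ _
    rfl

theorem Bc_le_Zc [CharP K 2] (ρ : Γ →* Module.End K N) (k : ℕ) : Bc R Γ ρ k ≤ Zc R Γ ρ k := by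
  rintro _ ⟨c, hc, rfl⟩
  exact ⟨bd_mem_Cc R hc, LinearMap.mem_ker.2 (bd_bd c)⟩

theorem hh_nonneg [CharP K 2] [Γ.Normal] (hΓ : Lev R Γ) [FiniteDimensional K N] (ρ : Γ →* Module.End K N)
    (k : ℕ) : 0 ≤ hh R Γ ρ k := by
  haveI := finite_Cc R hΓ ρ k
  haveI : FiniteDimensional K (Zc R Γ ρ k) := Submodule.finiteDimensional_of_le (S₂ := Cc R Γ ρ k) inf_le_left
  have h := Submodule.finrank_mono (Bc_le_Zc R ρ k)
  unfold hh
  omega

end Pool.Agent.S9

end

section

/-!
# Project S9, block E: the weights of the squares of the tautological character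

Every homomorphism to the squares of the monomials is the monomial of `2 • Y` of the abelianisation, and `1 + 2 Y` is
injective.
-/

set_option autoImplicit false
set_option linter.unusedSectionVars false

open Finset

namespace Pool.Agent.S9

theorem ttR_inj {I : Type} {a b : I → ℤ} (h : ttR a = ttR b) : a = b :=
  AddMonoidAlgebra.single_left_injective (one_ne_zero (α := ZMod 2)) h

theorem tt_inj {I : Type} {a b : I → ℤ} (h : tt a = tt b) : a = b :=
  ttR_inj (IsFractionRing.injective (RI I) (KI I) h)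

/-- `1 + 2 Y` is injective -/
theorem inj_one_two {r : ℕ} (Y : (Fin r → ℤ) →+ (Fin r → ℤ)) :
    Function.Injective (AddMonoidHom.id (Fin r → ℤ) + 2 • Y : (Fin r → ℤ) →+ (Fin r → ℤ)) := by
  rw [injective_iff_map_eq_zero]
  intro x hx
  have key : ∀ k : ℕ, ∃ y : Fin r → ℤ, x = (2 ^ k : ℤ) • y ∧ y + 2 • Y y = 0 := by
    intro k
    induction k with
    | zero =>
      refine ⟨x, ?_, hx⟩
      rw [pow_zero, one_smul]
    | succ k ih =>
      obtain ⟨y, h1, h2⟩ := ih
      refine ⟨-Y y, ?_, ?_⟩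
      · rw [h1]
        funext i
        have h3 : y i + (Y y i + Y y i) = 0 := by
          have h4 := congrFun h2 i
          rw [two_nsmul] at h4
          exact h4
        have h4 : y i = 2 * -Y y i := by linarith
        show (2 ^ k : ℤ) * y i = 2 ^ (k + 1) * -Y y i
        rw [pow_succ, mul_assoc, ← h4]
      · have h5 : y = 2 • -Y y := by
          have h6 := eq_neg_of_add_eq_zero_left h2
          rw [← smul_neg] at h6
          exact h6
        have h7 : 2 • (-Y y + 2 • Y (-Y y)) = 0 := by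
          rw [smul_add, ← h5, ← map_nsmul, ← h5]
          exact h2
        funext i
        have h8 := congrFun h7 i
        rw [two_nsmul] at h8
        rw [Pi.add_apply, Pi.zero_apply] at h8
        rw [Pi.zero_apply]
        linarith
  funext i
  rw [Pi.zero_apply]
  by_contra h
  obtain ⟨y, h1, -⟩ := key (x i).natAbs
  have h2 : x i = 2 ^ (x i).natAbs * y i := by
    have h3 := congrFun h1 i
    rw [Pi.smul_apply, smul_eq_mul] at h3
    exact h3
  have h3 : y i ≠ 0 := by
    intro h4
    rw [h4, mul_zero] at h2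
    exact h h2
  have h4 : (x i).natAbs = 2 ^ (x i).natAbs * (y i).natAbs := by
    have h5 := congrArg Int.natAbs h2
    rw [Int.natAbs_mul, Int.natAbs_pow] at h5
    exact h5
  have h5 : 0 < (y i).natAbs := Int.natAbs_pos.2 h3
  have h6 : (x i).natAbs < 2 ^ (x i).natAbs := Nat.lt_two_pow_self
  have h7 : 2 ^ (x i).natAbs * 1 ≤ 2 ^ (x i).natAbs * (y i).natAbs := Nat.mul_le_mul_left _ h5
  rw [← h4, mul_one] at h7
  exact absurd h7 (not_le.2 h6)

/-- the values of the squares -/
theorem mem_sqr {H : Type} [Group H] {I : Type} (ab : H →* Multiplicative (I → ℤ))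
    (χ : H →* (KI I)ˣ) (hχ : ∀ g, (χ g : KI I) = tt (Multiplicative.toAdd (ab g)))
    (u : (KI I)ˣ) (hu : u ∈ sqr χ) : ∃ a : I → ℤ, (u : KI I) = tt (2 • a) := by
  unfold sqr at hu
  induction hu using Subgroup.closure_induction with
  | mem x hx =>
    obtain ⟨g, rfl⟩ := hx
    refine ⟨Multiplicative.toAdd (ab g), ?_⟩
    show ((χ g ^ 2 : (KI I)ˣ) : KI I) = _
    rw [Units.val_pow_eq_pow_val, hχ, two_nsmul, tt_add, pow_two]
  | one =>
    refine ⟨0, ?_⟩
    rw [smul_zero, tt_zero, Units.val_one]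
  | mul x y _ _ ihx ihy =>
    obtain ⟨a, ha⟩ := ihx
    obtain ⟨b, hb⟩ := ihy
    refine ⟨a + b, ?_⟩
    rw [Units.val_mul, ha, hb, ← tt_add, smul_add]
  | inv x _ ih =>
    obtain ⟨a, ha⟩ := ih
    refine ⟨-a, ?_⟩
    refine Units.inv_eq_of_mul_eq_one_right ?_
    rw [ha, ← tt_add, ← smul_add, add_neg_cancel, smul_zero, tt_zero]

theorem exists_wt {H : Type} [Group H] {r : ℕ} (ab : H →* Multiplicative (Fin r → ℤ))
    (hs : Function.Surjective ab)
    (hf : ∀ f : H →* Multiplicative ℤ, ∀ g, ab g = 1 → f g = 1)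
    (χ : H →* (KI (Fin r))ˣ)
    (hχ : ∀ g, (χ g : KI (Fin r)) = tt (Multiplicative.toAdd (ab g)))
    (lam : H →* (KI (Fin r))ˣ) (hl : ∀ g, lam g ∈ sqr χ) :
    ∃ Y : (Fin r → ℤ) →+ (Fin r → ℤ),
      (∀ g, (lam g : KI (Fin r)) = tt (2 • Y (Multiplicative.toAdd (ab g)))) ∧
      Function.Injective (AddMonoidHom.id (Fin r → ℤ) + 2 • Y : (Fin r → ℤ) →+ (Fin r → ℤ)) := by
  choose a ha using fun g => mem_sqr ab χ hχ (lam g) (hl g)
  have h2 : ∀ x y : Fin r → ℤ, 2 • x = 2 • y → x = y := by
    intro x y h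
    funext i
    have h3 := congrFun h i
    simp only [Pi.smul_apply, nsmul_eq_mul] at h3
    push_cast at h3
    linarith
  have hm : ∀ g h, a (g * h) = a g + a h := by
    intro g h
    refine h2 _ _ (tt_inj ?_)
    rw [← ha, map_mul, Units.val_mul, ha, ha, ← tt_add, smul_add]
  have h1 : a 1 = 0 := by
    have h3 := hm 1 1
    rw [mul_one] at h3
    exact left_eq_add.1 h3
  have hk : ∀ g, ab g = 1 → a g = 0 := by
    intro g hg
    funext i
    let f : H →* Multiplicative ℤ :=
      { toFun := fun g => Multiplicative.ofAdd (a g i)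
        map_one' := by
          show Multiplicative.ofAdd (a 1 i) = 1
          rw [h1]
          rfl
        map_mul' := fun g h => by
          show Multiplicative.ofAdd (a (g * h) i) = _
          rw [hm]
          rfl }
    have h3 : Multiplicative.ofAdd (a g i) = 1 := hf f g hg
    exact Multiplicative.ofAdd.injective h3
  have he : ∀ g h, ab g = ab h → a g = a h := by
    intro g h hgh
    have h3 : a (g * h⁻¹ * h) = a (g * h⁻¹) + a h := hm _ _
    rw [inv_mul_cancel_right, hk (g * h⁻¹) (by rw [map_mul, map_inv, hgh, mul_inv_cancel]), zero_add] at h3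
    exact h3
  choose s hs' using fun x : Fin r → ℤ => hs (Multiplicative.ofAdd x)
  have hY : ∀ x y, a (s (x + y)) = a (s x) + a (s y) := by
    intro x y
    rw [← hm]
    refine he _ _ ?_
    rw [map_mul, hs', hs', hs', ofAdd_add]
  let Y : (Fin r → ℤ) →+ (Fin r → ℤ) := AddMonoidHom.mk' (fun x => a (s x)) hY
  refine ⟨Y, fun g => ?_, inj_one_two Y⟩
  rw [ha g]
  have h3 : Y (Multiplicative.toAdd (ab g)) = a g := by
    show a (s (Multiplicative.toAdd (ab g))) = a g
    refine he _ _ ?_
    rw [hs', ofAdd_toAdd]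
  rw [h3]

end Pool.Agent.S9

end

section

/-!
# Project S10, block EA: integrality of the dimension of the solutions of an invariant local system
-/

set_option autoImplicit false
set_option linter.unusedSectionVars false

open Finset

namespace Pool.Agent.S10.EA

open Pool.Agent.S9 Pool.Agent.S10

variable {W : Type} [Group W] {T T' : Type}

/-- **Integrality.** The index of the level `m` of the tower of `Φ` divides the dimension of the solutions of every
`Φ`-invariant local system with coefficients in the tautological character. -/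
theorem int_ZL (Φ : Subgroup W) [Φ.Normal] (m : ℕ) [(twr Φ m).FiniteIndex] {r : ℕ}
    (ab : twr Φ m →* Multiplicative (Fin r → ℤ)) (hab : Function.Surjective ab)
    (h0 : ∀ f : twr Φ m →* Multiplicative ℤ, ∀ g, ab g = 1 → f g = 1)
    (L : T' → W → Finset (T × W)) (hL : LInv L Φ) :
    (twr Φ m).relIndex Φ ∣ zL L (twr Φ m) (ch (chiab ab)) := by
  obtain ⟨σ, h1, h2⟩ := int_stable Φ m ab hab h0 (chiab ab) (fun _ => rfl)
  have heq : ∀ c ∈ ZL L (twr Φ m) (ch (chiab ab)), Eqv (chiab ab) c := by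
    intro c hc t γ w
    rw [hc.1 t γ w]
    rfl
  refine h2 T (ZL L (twr Φ m) (ch (chiab ab))) heq (fun g hg c hc => ⟨fun t γ w => ?_, fun t' w => ?_⟩)
  · rw [h1 T g c (heq c hc) t γ w]
    rfl
  · have h3 : L t' w = L t' (g⁻¹ * w) := (hL g⁻¹ (Φ.inv_mem hg) t' w).symm
    have h4 := hc.2 t' (g⁻¹ * w)
    rw [← h3] at h4
    change ∑ x ∈ L t' w, σ g (c x.1 (g⁻¹ * (w * x.2))) = 0
    rw [← map_sum]
    have h5 : ∑ x ∈ L t' w, c x.1 (g⁻¹ * (w * x.2)) = ∑ x ∈ L t' w, c x.1 (g⁻¹ * w * x.2) :=
      sum_congr rfl fun x _ => by rw [mul_assoc]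
    rw [h5, h4, map_zero]

end Pool.Agent.S10.EA

end

section

/-!
# Project S9: the minimal level of the tower

`te_core`: if the growth of the character of every level is an integral multiple of `1 / |W ⧸ T 0|` (integrality) and
at most the mod 2 growth (specialisation), then it is at most the growth of all finite quotients at some level.
-/

set_option autoImplicit false
set_option linter.unusedSectionVars false

open Finset

namespace Pool.Agent.S9

open Pool.Agent.H77.SW Pool.Agent.H19.SR Pool.Agent.H73.GC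

variable {V : Type} [DecidableEq V] [Fintype V] {G : SimpleGraph V} {W : Type} [Group W]

instance T_normal (R : Rac G W) (m : ℕ) : (T R m).Normal := (T_lev R m).normal

instance T_finiteIndex (R : Rac G W) (m : ℕ) : (T R m).FiniteIndex := (T_lev R m).fin

noncomputable instance T_fintype (R : Rac G W) (m : ℕ) : Fintype (W ⧸ T R m) := Fintype.ofFinite _

/-- the coordinates of the characters of the level `m` -/
theorem T_coord (R : Rac G W) (m : ℕ) : ∃ (r : ℕ) (ab : T R m →* Multiplicative (Fin r → ℤ)),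
    Function.Surjective ab ∧ ∀ f : T R m →* Multiplicative ℤ, ∀ g, ab g = 1 → f g = 1 := by
  haveI := R.fg
  haveI : Group.FG (T R m) := Subgroup.fg_of_index_ne_zero (T R m)
  obtain ⟨r, c, hc, hf⟩ := exists_coord (T R m)
  refine ⟨r, c, hc, fun f g hg => ?_⟩
  obtain ⟨y, hy⟩ := hf f
  have h1 := hy g
  rw [hg] at h1
  have h2 : Multiplicative.toAdd (f g) = 0 := by
    rw [h1]
    exact sum_eq_zero fun i _ => mul_zero _
  exact h2

/-- **the minimal level** -/
theorem te_core (R : Rac G W) (i : ℕ)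
    (hspec : ∀ (P : Type) [Group P] [Fintype P] (D : PG G P) (r : ℕ) (e : V → P → Fin r → ℤ),
      IsEv D e → hchi D e i ≤ hX (Cq G univ) (regP D.g) i)
    (hint : ∀ (m r : ℕ) (ab : T R m →* Multiplicative (Fin r → ℤ)), Function.Surjective ab →
      (∀ f : T R m →* Multiplicative ℤ, ∀ g, ab g = 1 → f g = 1) →
      ∃ b : ℕ, hchi (qD R (T_lev R m)) (fun v p => Multiplicative.toAdd (ab (gam R v p))) i *
        Fintype.card (W ⧸ T R 0) = b * Fintype.card (W ⧸ T R m)) :
    ∃ (m r : ℕ) (ab : T R m →* Multiplicative (Fin r → ℤ)), Function.Surjective ab ∧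
      (∀ f : T R m →* Multiplicative ℤ, ∀ g, ab g = 1 → f g = 1) ∧
      MinAt (qD R (T_lev R m)) (fun v p => Multiplicative.toAdd (ab (gam R v p))) i := by
  classical
  -- the possible integers
  let S : Set ℕ := {b | ∃ (m r : ℕ) (ab : T R m →* Multiplicative (Fin r → ℤ)), Function.Surjective ab ∧
    (∀ f : T R m →* Multiplicative ℤ, ∀ g, ab g = 1 → f g = 1) ∧
    hchi (qD R (T_lev R m)) (fun v p => Multiplicative.toAdd (ab (gam R v p))) i *
        Fintype.card (W ⧸ T R 0) = b * Fintype.card (W ⧸ T R m)}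
  have hS : S.Nonempty := by
    obtain ⟨r, ab, h1, h2⟩ := T_coord R 0
    obtain ⟨b, hb⟩ := hint 0 r ab h1 h2
    exact ⟨b, 0, r, ab, h1, h2, hb⟩
  obtain ⟨m, r, ab, h1, h2, h3⟩ := Nat.sInf_mem hS
  refine ⟨m, r, ab, h1, h2, ?_⟩
  intro P' _ _ D'
  -- a level which maps to `P'`
  obtain ⟨f, hf⟩ := R.lift P' D'.g D'.sq D'.comm
  obtain ⟨m', hm'⟩ := T_hom R D'.two f
  obtain ⟨r', ab', h1', h2'⟩ := T_coord R m'
  obtain ⟨b', hb'⟩ := hint m' r' ab' h1' h2'
  have hle : sInf S ≤ b' := Nat.sInf_le ⟨m', r', ab', h1', h2', hb'⟩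
  have hev : IsEv (qD R (T_lev R m')) (fun v p => Multiplicative.toAdd (ab' (gam R v p))) := by
    refine ⟨fun v p => ?_, fun u v huv p => ?_⟩
    · rw [← toAdd_mul, ← map_mul, gam_inv, map_one]
      rfl
    · rw [← toAdd_mul, ← toAdd_mul, ← map_mul, ← map_mul, gam_comm R (T_lev R m') huv]
  have hs := hspec (W ⧸ T R m') (qD R (T_lev R m')) r' _ hev
  have hm := mono_reg D' (qD R (T_lev R m')) (QuotientGroup.lift (T R m') f fun x hx => hm' x hx)
    (fun v => by
      rw [qD_g, QuotientGroup.lift_mk]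
      exact hf v) i
  have hc0 : (0 : ℤ) < Fintype.card (W ⧸ T R 0) := by exact_mod_cast Fintype.card_pos
  have hcm : (0 : ℤ) < Fintype.card (W ⧸ T R m) := by exact_mod_cast Fintype.card_pos
  have hcm' : (0 : ℤ) < Fintype.card (W ⧸ T R m') := by exact_mod_cast Fintype.card_pos
  have hcP : (0 : ℤ) < Fintype.card P' := by exact_mod_cast Fintype.card_pos
  have hle' : ((sInf S : ℕ) : ℤ) ≤ b' := by exact_mod_cast hle
  set x := hchi (qD R (T_lev R m)) (fun v p => Multiplicative.toAdd (ab (gam R v p))) i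
  set x' := hchi (qD R (T_lev R m')) (fun v p => Multiplicative.toAdd (ab' (gam R v p))) i
  set y' := hX (Cq G univ) (regP (qD R (T_lev R m')).g) i
  set y := hX (Cq G univ) (regP D'.g) i
  set c0 : ℤ := ((Fintype.card (W ⧸ T R 0) : ℕ) : ℤ)
  set cm : ℤ := ((Fintype.card (W ⧸ T R m) : ℕ) : ℤ)
  set cm' : ℤ := ((Fintype.card (W ⧸ T R m') : ℕ) : ℤ)
  set cP' : ℤ := ((Fintype.card P' : ℕ) : ℤ)
  -- `x * cm' ≤ x' * cm`
  have e1 : x * cm' ≤ x' * cm := by
    have e2 : x * cm' * c0 ≤ x' * cm * c0 := by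
      have e3 : x * cm' * c0 = (sInf S : ℕ) * cm * cm' := by rw [← h3]; ring
      have e4 : x' * cm * c0 = b' * cm' * cm := by rw [← hb']; ring
      rw [e3, e4]
      have e5 : (0 : ℤ) < cm * cm' := mul_pos hcm hcm'
      nlinarith
    exact le_of_mul_le_mul_right e2 hc0
  have e6 : cP' * x * cm' ≤ cm * y * cm' := by
    calc cP' * x * cm' = cP' * (x * cm') := by ring
      _ ≤ cP' * (x' * cm) := mul_le_mul_of_nonneg_left e1 hcP.le
      _ = cm * (cP' * x') := by ring
      _ ≤ cm * (cP' * y') := mul_le_mul_of_nonneg_left (mul_le_mul_of_nonneg_left hs hcP.le) hcm.le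
      _ ≤ cm * (cm' * y) := mul_le_mul_of_nonneg_left hm hcm.le
      _ = cm * y * cm' := by ring
  exact le_of_mul_le_mul_right e6 hcm'

end Pool.Agent.S9

end
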