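import Pool.Agent.H71.TSG.M29
import Pool.Agent.H71.TSG.M34
import Pool.Agent.H71.TSG.M40
import Pool.Agent.H71.TSG.M46
import Pool.Agent.H71.TSG.M47
import Pool.Agent.H71.TSG.M49
import Pool.Agent.H71.TSG.M51
import Pool.Agent.H71.TSG.M53

/-! The parts of this file: S10.EA.Core, S10.EA.Min, S10.EA.Main, S10.MOf, S9.MTop, S9.MTopG, S9.MEnd, S10.MEnd_1, S10.DuEnd. -/

section

/-!
# Project S10, block EA: the lower bound and the lifts (helper73)
-/

set_option autoImplicit false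
set_option linter.unusedSectionVars false

open Finset

namespace Pool.Agent.S10.EA

open Pool.Agent.S9

variable {W : Type} [Group W] {T T' : Type} {I : Type} [Fintype I] {n : ℕ}

/-- the quotient by a normal subgroup as a homomorphism to a finite two-group -/
theorem MinL.le_sub {L : T' → W → Finset (T × W)} {Γ : Subgroup W} {ab : Γ →* Multiplicative (I → ℤ)} (h : MinL L Γ ab)
    (N : Subgroup W) [N.Normal] [N.FiniteIndex] (hN : N ≤ Γ) (h2 : ∀ x ∈ Γ, ∃ k : ℕ, x ^ 2 ^ k ∈ N) :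
    N.relIndex Γ * zL L Γ (ch (chiab ab)) ≤ z1 L N := by
  have h3 : IsPGroup 2 (Γ ⧸ N.subgroupOf Γ) := by
    intro x
    induction x using QuotientGroup.induction_on with
    | _ x =>
      obtain ⟨k, hk⟩ := h2 x.1 x.2
      refine ⟨k, ?_⟩
      rw [← QuotientGroup.mk_pow, QuotientGroup.eq_one_iff]
      exact hk
  have h4 := h (Γ ⧸ N.subgroupOf Γ) h3 (QuotientGroup.mk' (N.subgroupOf Γ))
  have h5 : Nat.card (QuotientGroup.mk' (N.subgroupOf Γ)).range = N.relIndex Γ := by
    rw [← Subgroup.index_ker, QuotientGroup.ker_mk']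
    rfl
  have h6 : (QuotientGroup.mk' (N.subgroupOf Γ)).ker.map Γ.subtype = N := by
    rw [QuotientGroup.ker_mk', Subgroup.subgroupOf_map_subtype]
    exact inf_eq_left.2 hN
  rwa [h5, h6] at h4

/-- **The lower bound** for coefficients over the ring -/
theorem lower_ring [Finite T] [Finite T'] {L : T' → W → Finset (T × W)} {Γ : Subgroup W} [Γ.Normal] [Γ.FiniteIndex]
    (hL : LInv L Γ) (ab : Γ →* Multiplicative (I → ℤ)) (hmin : MinL L Γ ab)
    (μ : Γ →* Matrix (Fin n) (Fin n) (RI I)) (hμ : UTri μ) (w : Γ → Fin n → I → ℤ)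
    (hw : ∀ g a, μ g a a = ttR (w g a)) :
    n * zL L Γ (ch (chiab ab)) ≤ zL L Γ (mrep (mmap (algebraMap (RI I) (KI I)) μ)) := by
  set A := zL L Γ (mrep (mmap (algebraMap (RI I) (KI I)) μ)) with hA
  have key : (n : ℝ) * (zL L Γ (ch (chiab ab)) : ℝ) ≤ (A : ℝ) := by
    refine le_of_forall_pos_le_add fun ε hε => ?_
    obtain ⟨k, hk⟩ := box hL μ ε hε
    have h1 := hk k le_rfl
    rw [← hA] at h1
    have hfin : Finite (RK I k) := finite_RK k
    obtain ⟨N, hN, hNf, hNΓ, hNt, hN2⟩ := two_red Γ μ hμ w hw k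
    have h3 := hmin.le_sub N hNΓ hN2
    have h4 := tran hL hNΓ inferInstance hN2 (mrep2 (mmap (redR I k) μ)) (fun x h hx => by
      refine LinearMap.ext fun y => ?_
      rw [mrep2_apply, mmap_apply, hNt x h hx, Matrix.one_mulVec]
      rfl)
    have h5 : Module.finrank (ZMod 2) (Fin n → RK I k) = n * 2 ^ (k * Fintype.card I) := by
      rw [Module.finrank_pi_fintype, sum_const, card_univ, smul_eq_mul, Fintype.card_fin, finrank_RK]
    rw [h5] at h4
    have hpos : 0 < N.relIndex Γ := by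
      have h6 := Subgroup.relIndex_mul_index hNΓ
      rcases Nat.eq_zero_or_pos (N.relIndex Γ) with h7 | h7
      · rw [h7, zero_mul] at h6
        exact absurd h6.symm hNf.index_ne_zero
      · exact h7
    have hpos' : (0 : ℝ) < N.relIndex Γ := by exact_mod_cast hpos
    have h7 : (0 : ℝ) < 2 ^ (k * Fintype.card I) := by positivity
    have h3' : (N.relIndex Γ : ℝ) * zL L Γ (ch (chiab ab)) ≤ z1 L N := by exact_mod_cast h3
    have h4' : ((n : ℝ) * 2 ^ (k * Fintype.card I)) * z1 L N ≤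
        N.relIndex Γ * Module.finrank (ZMod 2) (ZL L Γ (mrep2 (mmap (redR I k) μ))) := by exact_mod_cast h4
    have h8 : (N.relIndex Γ : ℝ) * ((n : ℝ) * zL L Γ (ch (chiab ab)) * 2 ^ (k * Fintype.card I)) ≤
        N.relIndex Γ * (((A : ℝ) + ε) * 2 ^ (k * Fintype.card I)) := by
      calc (N.relIndex Γ : ℝ) * ((n : ℝ) * zL L Γ (ch (chiab ab)) * 2 ^ (k * Fintype.card I))
          = ((n : ℝ) * 2 ^ (k * Fintype.card I)) * ((N.relIndex Γ : ℝ) * zL L Γ (ch (chiab ab))) := by ring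
        _ ≤ ((n : ℝ) * 2 ^ (k * Fintype.card I)) * z1 L N := mul_le_mul_of_nonneg_left h3' (by positivity)
        _ ≤ _ := h4'
        _ ≤ _ := mul_le_mul_of_nonneg_left h1 hpos'.le
    exact le_of_mul_le_mul_right (le_of_mul_le_mul_left h8 hpos') h7
  exact_mod_cast key

/-- **The lower bound** over the field -/
theorem lower_field [Finite T] [Finite T'] {L : T' → W → Finset (T × W)} {Γ : Subgroup W} [Γ.Normal] [Γ.FiniteIndex]
    [Group.FG Γ] (hL : LInv L Γ) (ab : Γ →* Multiplicative (I → ℤ)) (hmin : MinL L Γ ab)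
    (μ : Γ →* Matrix (Fin n) (Fin n) (KI I)) (hμ : UTri μ) (w : Γ → Fin n → I → ℤ)
    (hw : ∀ g a, μ g a a = tt (w g a)) :
    n * zL L Γ (ch (chiab ab)) ≤ zL L Γ (mrep μ) := by
  obtain ⟨d, hd, μ', h1, h2, h3⟩ := lat inferInstance μ hμ w hw
  have hdK : algebraMap (RI I) (KI I) d ≠ 0 := by
    intro h0
    exact hd ((IsFractionRing.injective (RI I) (KI I)) (h0.trans (map_zero _).symm))
  rw [← zL_conj L μ (mmap (algebraMap (RI I) (KI I)) μ') (fun a => (algebraMap (RI I) (KI I) d ^ (a : ℕ))⁻¹)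
    (fun a => inv_ne_zero (pow_ne_zero _ hdK)) fun g a b => ?_]
  · exact lower_ring hL ab hmin μ' h1 w h2
  · have h4 := congrFun (congrFun (h3 g) a) b
    unfold dg at h4
    rw [Matrix.diagonal_mul, Matrix.mul_diagonal] at h4
    have h5 : algebraMap (RI I) (KI I) d ^ (a : ℕ) ≠ 0 := pow_ne_zero _ hdK
    have h6 : algebraMap (RI I) (KI I) d ^ (b : ℕ) ≠ 0 := pow_ne_zero _ hdK
    change algebraMap (RI I) (KI I) (μ' g a b) * _ = _
    rw [Matrix.map_apply] at h4
    field_simp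
    linear_combination h4

/-- **Exactness**: the last coordinate is surjective -/
theorem lift_last [Finite T] [Finite T'] {L : T' → W → Finset (T × W)} {Γ : Subgroup W} [Γ.Normal] [Γ.FiniteIndex]
    [Group.FG Γ] (hL : LInv L Γ) (ab : Γ →* Multiplicative (I → ℤ)) (hmin : MinL L Γ ab)
    (μ : Γ →* Matrix (Fin (n + 1)) (Fin (n + 1)) (KI I)) (hμ : UTri μ)
    (Z : Fin (n + 1) → (I → ℤ) →+ (I → ℤ)) (hZ : ∀ a, Function.Injective (Z a))
    (hw : ∀ g a, μ g a a = tt (Z a (ab g).toAdd)) (c₀ : T → W → KI I)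
    (hc₀ : c₀ ∈ ZL L Γ (ch (chiab (subAb (Z (Fin.last n)) ab)))) :
    ∃ c ∈ ZL L Γ (mrep μ), ∀ t w, c t w (Fin.last n) = c₀ t w := by
  have h1 := lower_field hL ab hmin μ hμ (fun g a => Z a (ab g).toAdd) hw
  have h2 : ∀ g a, μ g a a = (chiab (subAb (Z a) ab) g : KI I) := hw
  have h3 := zL_le L μ hμ (fun a => chiab (subAb (Z a) ab)) h2
  have h4 : ∑ a : Fin (n + 1), zL L Γ (ch (chiab (subAb (Z a) ab))) = (n + 1) * zL L Γ (ch (chiab ab)) := by
    rw [sum_congr rfl fun a _ => zL_base hL ab (Z a) (hZ a), sum_const, card_univ, Fintype.card_fin, smul_eq_mul]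
  refine lift_of_eq L μ hμ (fun a => chiab (subAb (Z a) ab)) h2 ?_ c₀ hc₀
  rw [h4] at h3 ⊢
  exact le_antisymm h3 h1

/-- **Lifting to triangular modules** with weights in the squares of the character -/
theorem lifts_ZL [Finite T] [Finite T'] {L : T' → W → Finset (T × W)} {Γ : Subgroup W} [Γ.Normal] [Γ.FiniteIndex]
    [Group.FG Γ] (hL : LInv L Γ) {r : ℕ} (ab : Γ →* Multiplicative (Fin r → ℤ)) (hs : Function.Surjective ab)
    (hf : ∀ f : Γ →* Multiplicative ℤ, ∀ g, ab g = 1 → f g = 1) (hmin : MinL L Γ ab)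
    (N : Type) [AddCommGroup N] [Module (KI (Fin r)) N] [FiniteDimensional (KI (Fin r)) N]
    (ρ : Γ →* Module.End (KI (Fin r)) N) (π : N →ₗ[KI (Fin r)] KI (Fin r)) (hρ : Tri (sqr (chiab ab)) ρ)
    (hπ : Function.Surjective π) (hinv : ∀ g y, π (ρ g y) = π y)
    (c₀ : T → W → KI (Fin r)) (hc₀ : c₀ ∈ ZL L Γ (ch (chiab ab))) :
    ∃ c ∈ ZL L Γ (tw (chiab ab) ρ), ∀ t w, π (c t w) = c₀ t w := by
  obtain ⟨n, b, lam, hlam, htri, hdiag, hπb⟩ := exists_tri ρ hρ π hπ hinv
  choose Y hY hYi using fun a => exists_wt ab hs hf (chiab ab) (fun g => chiab_coe ab g) (lam a) (hlam a)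
  have hlast : ∀ g, LinearMap.toMatrix b b (ρ g) (Fin.last n) (Fin.last n) = 1 := by
    intro g
    have h1 := hinv g (b (Fin.last n))
    rw [← b.sum_repr (ρ g (b (Fin.last n)))] at h1
    simp only [map_sum, map_smul, hπb, smul_eq_mul, mul_ite, mul_one, mul_zero, Finset.sum_ite_eq',
      Finset.mem_univ, if_true] at h1
    rw [LinearMap.toMatrix_apply]
    exact h1
  let μ : Γ →* Matrix (Fin (n + 1)) (Fin (n + 1)) (KI (Fin r)) :=
    { toFun := fun g => LinearMap.toMatrix b b (tw (chiab ab) ρ g)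
      map_one' := by
        rw [map_one]
        exact LinearMap.toMatrix_one b
      map_mul' := fun g h => by
        rw [map_mul]
        exact LinearMap.toMatrix_mul b _ _ }
  have hval : ∀ g a c, μ g a c = (chiab ab g : KI (Fin r)) * LinearMap.toMatrix b b (ρ g) a c := by
    intro g a c
    change LinearMap.toMatrix b b ((chiab ab g : KI (Fin r)) • ρ g) a c = _
    rw [map_smul]
    rfl
  have hμ : UTri μ := by
    intro g a c hca
    rw [hval, htri g a c hca, mul_zero]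
  have hw : ∀ g a, μ g a a =
      tt ((AddMonoidHom.id (Fin r → ℤ) + 2 • Y a : (Fin r → ℤ) →+ (Fin r → ℤ)) (ab g).toAdd) := by
    intro g a
    rw [hval, hdiag, hY, chiab_coe, ← tt_add]
    rfl
  have hlc : ch (chiab (subAb (AddMonoidHom.id (Fin r → ℤ) + 2 • Y (Fin.last n)) ab)) = ch (chiab ab) := by
    refine MonoidHom.ext fun g => LinearMap.ext fun x => ?_
    rw [ch_apply, ch_apply]
    have h1 : (chiab (subAb (AddMonoidHom.id (Fin r → ℤ) + 2 • Y (Fin.last n)) ab) g : KI (Fin r)) =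
        μ g (Fin.last n) (Fin.last n) := (hw g (Fin.last n)).symm
    rw [h1, hval, hlast, mul_one]
  obtain ⟨c', hc', hc'l⟩ := lift_last hL ab hmin μ hμ (fun a => AddMonoidHom.id (Fin r → ℤ) + 2 • Y a) hYi hw c₀
    (by rw [hlc]; exact hc₀)
  have hact : ∀ g x, b.equivFun.symm ((μ g).mulVec x) = tw (chiab ab) ρ g (b.equivFun.symm x) := by
    intro g x
    rw [LinearEquiv.symm_apply_eq]
    have h1 := LinearMap.toMatrix_mulVec_repr b b (tw (chiab ab) ρ g) (b.equivFun.symm x)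
    have h2 : (b.repr (b.equivFun.symm x) : Fin (n + 1) → KI (Fin r)) = x := b.equivFun.apply_symm_apply x
    rw [h2] at h1
    exact h1
  refine ⟨fun t w => b.equivFun.symm (c' t w), ⟨fun t g w => ?_, fun t' w => ?_⟩, fun t w => ?_⟩
  · change b.equivFun.symm (c' t (g * w)) = tw (chiab ab) ρ g (b.equivFun.symm (c' t w))
    rw [hc'.1 t g w]
    exact hact g _
  · have h1 := hc'.2 t' w
    change ∑ x ∈ L t' w, b.equivFun.symm (c' x.1 (w * x.2)) = 0
    rw [← map_sum, h1, map_zero]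
  · change π (b.equivFun.symm (c' t w)) = c₀ t w
    rw [b.equivFun_symm_apply, map_sum]
    simp only [map_smul, hπb, smul_eq_mul, mul_ite, mul_one, mul_zero, Finset.sum_ite_eq',
      Finset.mem_univ, if_true]
    exact hc'l t w

end Pool.Agent.S10.EA

end

section

/-!
# S10, block EA: the minimal level of the tower
-/

set_option autoImplicit false
set_option linter.unusedSectionVars false

namespace Pool.Agent.S10.EA

open Pool.Agent.S9

variable {V : Type} [DecidableEq V] [Fintype V] {G : SimpleGraph V} {W : Type} [Group W] {T T' : Type}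

/-- **the minimal level of the tower**, from integrality, specialisation and transfer -/
theorem min_ex_of (R : Rac G W) {Φ : Subgroup W} (hΦ : Lev0 R Φ) (L : T' → W → Finset (T × W))
    (int : ∀ (m r : ℕ) (ab : twr Φ m →* Multiplicative (Fin r → ℤ)), Function.Surjective ab →
      (∀ f : twr Φ m →* Multiplicative ℤ, ∀ g, ab g = 1 → f g = 1) →
        (twr Φ m).relIndex Φ ∣ zL L (twr Φ m) (ch (chiab ab)))
    (spec : ∀ (m r : ℕ) (ab : twr Φ m →* Multiplicative (Fin r → ℤ)),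
      zL L (twr Φ m) (ch (chiab ab)) ≤ z1 L (twr Φ m))
    (tran : ∀ M M' : Subgroup W, M' ≤ M → M ≤ Φ → M'.FiniteIndex → (M'.subgroupOf M).Normal →
      (∀ x ∈ M, ∃ k : ℕ, x ^ 2 ^ k ∈ M') → z1 L M' ≤ M'.relIndex M * z1 L M) :
    ∃ (m r : ℕ) (ab : twr Φ m →* Multiplicative (Fin r → ℤ)), Function.Surjective ab ∧
      (∀ f : twr Φ m →* Multiplicative ℤ, ∀ g, ab g = 1 → f g = 1) ∧ MinL L (twr Φ m) ab := by
  obtain ⟨m, r, ab, h1, h2, h3⟩ := min_core R hΦ (fun m r ab => zL L (twr Φ m) (ch (chiab ab))) (z1 L)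
    int spec tran
  exact ⟨m, r, ab, h1, h2, fun Q _ _ hQ f => h3 Q hQ f⟩

/-- **the minimal level of the tower** -/
theorem min_ex [Finite T] [Finite T'] (R : Rac G W) {Φ : Subgroup W} (hΦ : Lev0 R Φ)
    {L : T' → W → Finset (T × W)} (hL : LInv L Φ) :
    ∃ (m r : ℕ) (ab : twr Φ m →* Multiplicative (Fin r → ℤ)), Function.Surjective ab ∧
      (∀ f : twr Φ m →* Multiplicative ℤ, ∀ g, ab g = 1 → f g = 1) ∧ MinL L (twr Φ m) ab := by
  classical
  have hle : ∀ m, twr Φ m ≤ Φ := fun m => twr_anti Φ (Nat.zero_le m)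
  refine min_ex_of R hΦ L (fun m r ab h1 h2 => ?_) (fun m r ab => ?_) (fun M M' h1 h2 h3 h4 h5 => ?_)
  · haveI := hΦ.normal
    haveI := (hΦ.twr m).fin
    exact int_ZL Φ m ab h1 h2 L hL
  · haveI := (hΦ.twr m).normal
    haveI := (hΦ.twr m).fin
    haveI : Fintype (W ⧸ twr Φ m) := Fintype.ofFinite _
    exact zL_spec' L (hL.mono (hle m)) ab (chiab ab) (chiab_coe ab)
  · haveI := h3
    haveI := h4
    haveI : (M'.subgroupOf M).FiniteIndex := inferInstance
    refine tran_one hL h2 h1 ?_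
    intro q
    induction q using QuotientGroup.induction_on with
    | H x =>
      obtain ⟨k, hk⟩ := h5 x.1 x.2
      refine ⟨k, ?_⟩
      rw [← QuotientGroup.mk_pow]
      exact (QuotientGroup.eq_one_iff _).2 (Subgroup.mem_subgroupOf.2 hk)

end Pool.Agent.S10.EA

end

section

/-!
# Project S10, block E: the main statement (helper73)
-/

set_option autoImplicit false
set_option linter.unusedSectionVars false

open Finset

namespace Pool.Agent.S10.EA

open Pool.Agent.S9 Pool.Agent.S10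

variable {V : Type} [DecidableEq V] [Fintype V] {G : SimpleGraph V} {W : Type} [Group W]

/-- rank and nullity of the boundary map -/
theorem finrank_Ba (R : Rac G W) {Γ : Subgroup W} [Γ.FiniteIndex] (act : V → W → Prop) {K : Type} [Field K] {N : Type}
    [AddCommGroup N] [Module K N] [FiniteDimensional K N] (ρ : Γ →* Module.End K N) (i : ℕ) :
    Module.finrank K (Ba R act Γ ρ i) + Module.finrank K (Za R act Γ ρ (i + 1)) =
      Module.finrank K (Ca R act Γ ρ (i + 1)) := by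
  have h0 := finite_Ca R act ρ (i + 1)
  have h1 := LinearMap.finrank_range_add_finrank_ker ((bd K).domRestrict (Ca R act Γ ρ (i + 1)))
  have h2 : LinearMap.range ((bd K).domRestrict (Ca R act Γ ρ (i + 1))) = Ba R act Γ ρ i := by
    rw [LinearMap.range_domRestrict]
    rfl
  have h3 : (LinearMap.ker ((bd K).domRestrict (Ca R act Γ ρ (i + 1)))).map (Ca R act Γ ρ (i + 1)).subtype =
      Za R act Γ ρ (i + 1) := by
    ext c
    constructor
    · rintro ⟨x, hx, rfl⟩
      exact ⟨x.2, hx⟩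
    · rintro ⟨h4, h5⟩
      exact ⟨⟨c, h4⟩, h5, rfl⟩
  have h4 : Module.finrank K (LinearMap.ker ((bd K).domRestrict (Ca R act Γ ρ (i + 1)))) =
      Module.finrank K (Za R act Γ ρ (i + 1)) := by
    rw [← h3, Submodule.finrank_map_subtype_eq]
  rw [← h2, ← h4]
  exact h1

/-- the dimension of the solutions of the local system of the cycles -/
theorem zL_eq (R : Rac G W) {Γ : Subgroup W} [Γ.FiniteIndex] (act : V → W → Prop) (i : ℕ) {K : Type} [Field K]
    [CharP K 2] {N : Type} [AddCommGroup N] [Module K N] [FiniteDimensional K N] (ρ : Γ →* Module.End K N) :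
    Module.finrank K (ZL (Lz R act i) Γ ρ) =
      Module.finrank K (Za R act Γ ρ i) + Module.finrank K (Za R act Γ ρ (i + 1)) := by
  have h0 : ∀ d, FiniteDimensional K (Za R act Γ ρ d) := fun d => by
    have := finite_Ca R act ρ d
    exact Submodule.finiteDimensional_inf_left _ _
  rw [LinearEquiv.finrank_eq (zE R act i Γ ρ), Module.finrank_pi_fintype, Fin.sum_univ_two]
  rfl

/-- BLOCK E: there is a level at which all cycles lift to all triangular modules, and the growth is the dimension of the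
homology with coefficients in `χ` -/
theorem EA_main (R : Rac G W) {Φ : Subgroup W} (hΦ : Lev0 R Φ) (act : V → W → Prop) (hact : IsActv R Φ act) (i : ℕ) :
    ∃ (m : ℕ) (K : Type) (_ : Field K) (_ : CharP K 2) (χ : twr Φ m →* Kˣ),
      (∀ z₀ ∈ Za R act (twr Φ m) (ch χ) i, LiftsA R act (twr Φ m) χ i z₀) ∧
      ((∀ z₀ ∈ Za R act (twr Φ m) (ch χ) i, z₀ ∈ Ba R act (twr Φ m) (ch χ) i) → GZA R act Φ i) := by
  classical
  have hL := lz_inv hact i
  obtain ⟨m, r, ab, hs, hf, hmin⟩ := min_ex R hΦ hL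
  have hchar : CharP (KI (Fin r)) 2 := by
    exact charP_of_injective_ringHom (((algebraMap (RI (Fin r)) (KI (Fin r))).comp
      (algebraMap (ZMod 2) (RI (Fin r)))).injective) 2
  have hno : (twr Φ m).Normal := (hΦ.twr m).normal
  have hfi : (twr Φ m).FiniteIndex := (hΦ.twr m).fin
  have hFG := R.fg
  have hFG' : Group.FG (twr Φ m) := Subgroup.fg_of_index_ne_zero _
  have hle : twr Φ m ≤ Φ := twr_le Φ m
  have hLm : LInv (Lz R act i) (twr Φ m) := hL.mono hle
  refine ⟨m, KI (Fin r), inferInstance, hchar, chiab ab, fun z₀ hz₀ => ?_, fun h => ?_⟩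
  · intro N _ _ _ ρ π hρ hπ hinv
    obtain ⟨c, hc, hcπ⟩ := lifts_ZL hLm ab hs hf hmin N ρ π hρ hπ hinv
      (fun t => if t.1 = 0 then z₀ t.2 else 0) ((mem_lz R act i).2 fun j => by
        by_cases hj : j = 0
        · subst hj
          exact hz₀
        · have h1 : (fun A => if ((j, A) : Fin 2 × Finset V).1 = 0 then z₀ ((j, A) : Fin 2 × Finset V).2 else 0) =
              (0 : Finset V → W → KI (Fin r)) := by
            funext A
            exact if_neg hj
          rw [h1]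
          exact Submodule.zero_mem _)
    exact ⟨fun A => c (0, A), (mem_lz R act i).1 hc 0, fun A w => hcπ (0, A) w⟩
  · intro ε hε
    obtain ⟨q, hq⟩ := finrank_Ca R hΦ act hact (i + 1)
    obtain ⟨k, hk⟩ := grow hLm ab hs ε hε
    have h1 := hk k le_rfl
    have hMle : Mk ab k ≤ twr Φ m := by
      rintro _ ⟨x, _, rfl⟩
      exact x.2
    have hMr := Mk_relIndex ab hs k
    have hMi : (Mk ab k).FiniteIndex := by
      have h2 := Subgroup.relIndex_mul_index hMle
      refine ⟨?_⟩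
      rw [← h2, hMr]
      exact mul_ne_zero (by positivity) hfi.index_ne_zero
    have hMn : (Mk ab k).Normal := Mk_normal ab hs hf k
    refine ⟨Mk ab k, hMn, hMi, hMle.trans hle, ?_⟩
    -- the character
    have e1 := zL_eq R act i (ch (chiab ab))
    have e2 := finrank_Ba R act (ch (chiab ab)) i
    have e3 := hq _ (twr Φ m) (ch (chiab ab)) hle hfi
    have e4 : Module.finrank (KI (Fin r)) (Za R act (twr Φ m) (ch (chiab ab)) i) ≤
        Module.finrank (KI (Fin r)) (Ba R act (twr Φ m) (ch (chiab ab)) i) := by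
      have h0 := finite_Ca R act (ch (chiab ab)) (i + 1)
      have h2 : FiniteDimensional (KI (Fin r)) (Ba R act (twr Φ m) (ch (chiab ab)) i) := by
        unfold Ba
        infer_instance
      exact Submodule.finrank_mono h
    have e5 : zL (Lz R act i) (twr Φ m) (ch (chiab ab)) ≤ (twr Φ m).relIndex Φ * q := by
      unfold zL
      omega
    -- the invariants
    have f1 := zL_eq R act i (1 : Mk ab k →* Module.End (ZMod 2) (ZMod 2))
    have f2 := finrank_Ba R act (1 : Mk ab k →* Module.End (ZMod 2) (ZMod 2)) i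
    have f3 := hq _ (Mk ab k) (1 : Mk ab k →* Module.End (ZMod 2) (ZMod 2)) (hMle.trans hle) hMi
    have f4 : (Mk ab k).relIndex Φ = 2 ^ (k * Fintype.card (Fin r)) * (twr Φ m).relIndex Φ := by
      rw [← hMr]
      exact (Subgroup.relIndex_mul_relIndex _ _ _ hMle hle).symm
    have f5 : (Mk ab k).index = 2 ^ (k * Fintype.card (Fin r)) * (twr Φ m).index := by
      rw [← hMr]
      exact (Subgroup.relIndex_mul_index hMle).symm
    have f6 : (hha R act (Mk ab k) (1 : Mk ab k →* Module.End (ZMod 2) (ZMod 2)) i : ℝ) =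
        (z1 (Lz R act i) (Mk ab k) : ℝ) - 2 ^ (k * Fintype.card (Fin r)) * ((twr Φ m).relIndex Φ * q : ℕ) := by
      have f7 : hha R act (Mk ab k) (1 : Mk ab k →* Module.End (ZMod 2) (ZMod 2)) i =
          (z1 (Lz R act i) (Mk ab k) : ℤ) - 2 ^ (k * Fintype.card (Fin r)) * ((twr Φ m).relIndex Φ * q : ℕ) := by
        unfold hha z1
        rw [f1]
        rw [f4, mul_assoc] at f3
        rw [f3] at f2
        push_cast
        have f8 : (Module.finrank (ZMod 2) (Ba R act (Mk ab k) (1 : Mk ab k →* Module.End (ZMod 2) (ZMod 2)) i) : ℤ) +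
            Module.finrank (ZMod 2) (Za R act (Mk ab k) (1 : Mk ab k →* Module.End (ZMod 2) (ZMod 2)) (i + 1)) =
              2 ^ (k * Fintype.card (Fin r)) * ((twr Φ m).relIndex Φ * q) := by exact_mod_cast f2
        linarith
      rw [f7]
      push_cast
      ring
    have f8 : (0 : ℝ) < 2 ^ (k * Fintype.card (Fin r)) := by positivity
    have e6 : (zL (Lz R act i) (twr Φ m) (ch (chiab ab)) : ℝ) ≤ ((twr Φ m).relIndex Φ * q : ℕ) := by exact_mod_cast e5
    have f9 : (1 : ℝ) ≤ (twr Φ m).index := by exact_mod_cast Nat.one_le_iff_ne_zero.2 hfi.index_ne_zero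
    rw [f6, f5]
    push_cast at h1 e6 ⊢
    have f10 := mul_le_mul_of_nonneg_left e6 f8.le
    have f11 : ε * 2 ^ (k * Fintype.card (Fin r)) * 1 ≤ ε * 2 ^ (k * Fintype.card (Fin r)) * (twr Φ m).index :=
      mul_le_mul_of_nonneg_left f9 (by positivity)
    nlinarith

end Pool.Agent.S10.EA

end

section

/-!
# Project S10, block M: the end, for a labelled complex whose universal cover is a component of the active subcomplex

`EndM`: the end for a group `Γ` with the action on a manifold, in the form which is used. `M_main_of`: the universal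
cover of `Q` with its deck group is (a translate of) every component of the active subcomplex of the Davis complex, with
its stabilizer in `Φ`.
-/

set_option autoImplicit false
set_option linter.unusedSectionVars false

open Finset

namespace Pool.Agent.S10

open Pool.Agent.H19.Cub Pool.Agent.H77.SX Pool.Agent.H37.TM Pool.Agent.S9 Pool.Agent.S9.U Pool.Agent.S9.M

open Classical in
/-- **The end for a group `Γ`, in the degree `i`**: a cocycle of the tuples pairs to zero with the square of a cycle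
which lifts, on all finite labelled complexes of dimension at most `d` with the deck group `Γ` -/
def EndM (Γ : Type) [Group Γ] (d i : ℕ) (K : Type) [Field K] [Algebra (ZMod 2) K] : Prop :=
  ∀ (V X : Type) [DecidableEq V] [Fintype V] [Fintype X] (Q : CubeComplex V X) (x₀ : X)
    [MulAction Γ (Q.Cover x₀)] (bit : X → V → ZMod 2), IsBit Q bit → IsDeck Γ Q x₀ → DimLe Q d →
    ∀ (Φ : Type) [Group Φ] (θ : Γ →* Φ) (χ : Φ →* Kˣ), EffR K θ (Q.Cover x₀) (sqr χ) →
    ∀ z₀ : Q.Cover x₀ × Finset V → K, CycN Q x₀ i z₀ →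
    (∀ (γ : Γ) e, z₀ (γ • e) = (χ (θ γ) : K) * z₀ e) → LiftsR θ Q x₀ χ i z₀ →
    ∀ x : List (Q.Cover x₀) → K, (∀ L, x L ≠ 0 → L.length = i + 1) →
    (∀ (γ : Γ) L, x (L.map (γ • ·)) = (im2 χ (θ γ) : K) * x L) → (∀ L, dT x L = 0) →
    osum Γ (fun e : Q.Cover x₀ × Finset V =>
      if e ∈ Cell Q x₀ bit i then lin x (TT Q x₀ e) * z₀ e ^ 2 else 0) = 0

/-- **The end**, for a labelled complex whose universal cover is a component of the active subcomplex. -/
theorem M_main_of {V X Γ W : Type} [DecidableEq V] [Fintype V] [Fintype X]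
    [Group Γ] [Group W] {Q : CubeComplex V X} {x₀ : X} [MulAction Γ (Q.Cover x₀)]
    (hex : ∀ bit : X → V → ZMod 2, IsBit Q bit → ExQ Q x₀ bit) (hΓ : IsDeck Γ Q x₀)
    {d : ℕ} (hd : DimLe Q d) {i : ℕ} (hi : 1 ≤ i)
    {K : Type} [Field K] [CharP K 2] [Algebra (ZMod 2) K] (hM : EndM Γ d i K)
    {R : Rac Q.graph W} {Φ : Subgroup W}
    (hΦ : Lev0 R Φ) {act : V → W → Prop} (hact : IsActv R Φ act)
    (hemb : ∀ w : W, ∃ (θ : Γ →* Φ) (j : Q.Cover x₀ → W) (bit : X → V → ZMod 2),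
      IsEmb Q R Φ act x₀ θ j ∧ (∃ (φ : Φ) (c : Q.Cover x₀), w = φ * j c) ∧ IsBit Q bit ∧
      ∀ c v, bit (Q.proj x₀ c) v = R.b (j c) v)
    (χ : Φ →* Kˣ) (hEff : EffA R act K Φ (sqr χ))
    (hl : ∀ z₀ ∈ Za R act Φ (ch χ) i, LiftsA R act Φ χ i z₀) :
    ∀ z₀ ∈ Za R act Φ (ch χ) i, z₀ ∈ Ba R act Φ (ch χ) i := by
  classical
  intro z₀ hz
  refine end_orb hΦ.bits hΦ.fin hact hΓ hz fun w => ?_
  obtain ⟨θ, j, bit, h1, h2, hb, h3⟩ := hemb w
  refine ⟨θ, j, bit, h1, h2, h3, ?_⟩
  obtain ⟨S, hS1, hS2, hS3, hS4⟩ := exists_S hΓ (hex _ hb)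
  have hSD : SD Γ Q x₀ bit S := ⟨hS1, hS2, hS3, hS4⟩
  have hR : EffR K θ (Q.Cover x₀) (sqr χ) := effR_of_effC hb hΓ hSD θ (effC_of_effA h1 hact hEff)
  obtain ⟨hc1, hc2⟩ := cyc_res h1 hz
  refine pair_zero hb hΓ (hex _ hb) θ χ hi hc1 hc2 fun x hx1 hx2 hx3 => ?_
  exact hM V X Q x₀ bit hb hΓ hd Φ θ χ hR _ hc1 hc2 (liftsR_of_liftsA h1 (hl z₀ hz)) x hx1 hx2 hx3

end Pool.Agent.S10

end

section

/-!
# Project S9, block M: the sum over the cubes is the integral over the top simplices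

`M_top`: for a scalar cocycle `x` on the tuples and a cycle `z` of the cover, the sum of `x (TT e) (z e) ^ 2` over the
cubes `e` modulo `Γ` is the integral of `a cup_(n - i) a` against `x`, where `a` is the dual cochain of `z`.
-/

set_option autoImplicit false
set_option linter.unusedSectionVars false

open Finset Pointwise

namespace Pool.Agent.S9

open Pool.Agent.H19.Cub Pool.Agent.H77.SX Pool.Agent.H37.TM Pool.Agent.S9.M Pool.Agent.S9.U

section Top

variable {U : Type} [DecidableEq U] {ht : U → ℕ} {K : Type} [Field K]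

theorem face1_full (s : Finset U) : face1 ht s s = s := by
  unfold face1
  exact filter_true_of_mem fun v hv => Or.inl hv

theorem face2_full (s : Finset U) : face2 ht s s = s := by
  unfold face2
  exact filter_true_of_mem fun v hv => Or.inl hv

/-- the cup product at a simplex of minimal dimension -/
theorem cupB_full {A A' Y : Type} [AddCommGroup A] [Module K A] [AddCommGroup A'] [Module K A']
    [AddCommGroup Y] [Module K Y] {m : ℕ} (b : A →ₗ[K] A' →ₗ[K] Y) (x : Finset U → A)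
    (y : Finset U → A') {s : Finset U} (hs : s.card = m) : cupB ht m b x y s = b (x s) (y s) := by
  unfold cupB
  rw [← hs, powersetCard_self, sum_singleton, face1_full, face2_full]

/-- the product with a tuple function at a top simplex -/
theorem gP_top {E : Type} [AddCommGroup E] [Module K E] {t : Finset U} {n : ℕ}
    (hinj : Set.InjOn ht (t : Set U)) (hle : ∀ u ∈ t, ht u ≤ n) (hcard : t.card = n + 1)
    {m : ℕ} (hm : m ≤ n) (x : List U → E) (w : Finset U → (E →ₗ[K] K)) :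
    gP ht m x w t = w (t.filter fun u => m ≤ ht u) (x (frontL ht t m)) ∧
      (t.filter fun u => m ≤ ht u).card = n + 1 - m := by
  classical
  have himg : t.image ht = range (n + 1) := by
    refine eq_of_subset_of_card_le (fun i hi => ?_) ?_
    · obtain ⟨u, hu, rfl⟩ := mem_image.1 hi
      exact mem_range.2 (by have := hle u hu; omega)
    · rw [card_image_of_injOn hinj, hcard, card_range]
  have hv : ∀ i, i ≤ n → ∃ u ∈ t, ht u = i := fun i hi => by
    have h1 : i ∈ t.image ht := by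
      rw [himg]
      exact mem_range.2 (by omega)
    obtain ⟨u, hu, h⟩ := mem_image.1 h1
    exact ⟨u, hu, h⟩
  have hne : t.Nonempty := card_pos.1 (by omega)
  obtain ⟨u0, _⟩ := hne
  have hv' : ∀ i, ∃ u, i ≤ n → u ∈ t ∧ ht u = i := fun i => by
    by_cases hi : i ≤ n
    · obtain ⟨u, hu⟩ := hv i hi
      exact ⟨u, fun _ => hu⟩
    · exact ⟨u0, fun h => absurd h hi⟩
  choose v hv using hv'
  have hlow : ∀ k, k ≤ n → lows ht (t.filter fun u => k ≤ ht u) = {v k} := fun k hk => by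
    refine lows_eq (hinj.mono ?_) ?_ ?_
    · exact_mod_cast filter_subset _ t
    · rw [mem_filter]
      exact ⟨(hv k hk).1, (hv k hk).2.ge⟩
    · intro u hu
      rw [(hv k hk).2]
      exact (mem_filter.1 hu).2
  have herase : ∀ k, k ≤ n → (t.filter fun u => k ≤ ht u).erase (v k) =
      t.filter fun u => k + 1 ≤ ht u := fun k hk => by
    ext u
    rw [mem_erase, mem_filter, mem_filter]
    constructor
    · rintro ⟨h1, h2, h3⟩
      refine ⟨h2, lt_of_le_of_ne h3 fun h4 => h1 ?_⟩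
      exact hinj h2 (hv k hk).1 (by rw [(hv k hk).2, ← h4])
    · rintro ⟨h2, h3⟩
      refine ⟨?_, h2, by omega⟩
      rintro rfl
      rw [(hv k hk).2] at h3
      omega
  have hcardk : ∀ k, k ≤ n + 1 → (t.filter fun u => k ≤ ht u).card = n + 1 - k := fun k => by
    induction k with
    | zero =>
      intro _
      rw [filter_true_of_mem (fun u _ => Nat.zero_le _), hcard, Nat.sub_zero]
    | succ k ih =>
      intro hk
      rw [← herase k (by omega), card_erase_of_mem, ih (by omega)]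
      · omega
      · rw [mem_filter]
        exact ⟨(hv k (by omega)).1, (hv k (by omega)).2.ge⟩
  have key2 : ∀ (m k : ℕ) (x : List U → E), k + m ≤ n →
      gP ht m x w (t.filter fun u => k ≤ ht u) =
        w (t.filter fun u => k + m ≤ ht u) (x ((List.range' k (m + 1)).map v)) := by
    intro m
    induction m with
    | zero =>
      intro k x hk
      rw [gP_zero, hlow k (by omega), sum_singleton]
      rfl
    | succ m ih =>
      intro k x hk
      rw [gP_succ, hlow k (by omega), sum_singleton, herase k (by omega), ih (k + 1) _ (by omega)]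
      have h2 : List.range' k (m + 1 + 1) = k :: List.range' (k + 1) (m + 1) := by
        rw [List.range'_succ]
      rw [h2, List.map_cons]
      have h4 : (fun u => k + 1 + m ≤ ht u) = fun u => k + (m + 1) ≤ ht u := by
        funext u
        rw [show k + 1 + m = k + (m + 1) by omega]
      simp only [h4]
  refine ⟨?_, hcardk m (by omega)⟩
  have h5 := key2 m 0 x (by omega)
  rw [filter_true_of_mem (fun u _ => Nat.zero_le _)] at h5
  simp only [zero_add] at h5
  rw [h5]
  have h6 : frontL ht t m = (List.range' 0 (m + 1)).map v := by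
    unfold frontL
    rw [List.range_eq_range', List.map_eq_flatMap]
    refine List.flatMap_congr fun i hi => ?_
    have hi' : i ≤ n := by
      rw [List.mem_range'] at hi
      obtain ⟨j, hj, rfl⟩ := hi
      omega
    have h6 : (t.filter fun u => ht u = i) = {v i} := by
      ext u
      rw [mem_filter, mem_singleton]
      constructor
      · rintro ⟨h7, h8⟩
        exact hinj h7 (hv i hi').1 (h8.trans (hv i hi').2.symm)
      · rintro rfl
        exact ⟨(hv i hi').1, (hv i hi').2⟩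
    rw [h6, toList_singleton]
  rw [h6]

end Top

variable {V X U Γ K : Type} [DecidableEq V] [DecidableEq U] [Group Γ] [MulAction Γ U]
  {Q : CubeComplex V X} {x₀ : X} [MulAction Γ (Q.Cover x₀)] {bit : X → V → ZMod 2}
  [Field K] [Algebra (ZMod 2) K] {M B : Set (Finset U)} {n : ℕ} {ht : U → ℕ}

/-- the form `T n n' e = n n' e` on the field -/
def TK (K : Type) [Field K] : K →ₗ[K] K →ₗ[K] K →ₗ[K] K :=
  LinearMap.mk₂ K (fun a b => (a * b) • LinearMap.id) (fun a a' b => by rw [add_mul, add_smul])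
    (fun c a b => by rw [smul_eq_mul, mul_assoc, mul_smul])
    (fun a b b' => by rw [mul_add, add_smul])
    (fun c a b => by rw [smul_eq_mul, mul_left_comm, mul_smul])

theorem TK_apply (a b e : K) : TK K a b e = a * b * e := rfl

/-- a cocycle on the tuples vanishes on the boundaries -/
theorem lin_BL {C : Type} {x : List C → K} (hx : ∀ L, dT x L = 0) (y : List C →₀ ZMod 2) :
    lin x (BL y) = 0 := by
  classical
  induction y using Finsupp.induction_linear with
  | zero => rw [map_zero, map_zero]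
  | add f g hf hg => rw [map_add, map_add, hf, hg, add_zero]
  | single L a =>
    rcases (by decide : ∀ a : ZMod 2, a = 0 ∨ a = 1) a with rfl | rfl
    · rw [Finsupp.single_zero, map_zero, map_zero]
    · rw [BL_single, ← dT_eq, hx]

/-- **The sum over the cubes is the integral over the top simplices.** -/
theorem M_top [Fintype V] [Fintype X] [CharP K 2] (hbit : IsBit Q bit)
    (hΓ : IsDeck Γ Q x₀) (hM : Psm M B n)
    (hA : MAct Γ M B n ht) {f : U → Q.Cover x₀} (hf : IsVMap Γ f)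
    {Ψ : Q.Cover x₀ × Finset V → (Finset U × Finset U →₀ ZMod 2)}
    (hΨ : IsPsi Γ Q x₀ bit M B n Ψ) (χ : Γ →* Kˣ) {x : List (Q.Cover x₀) → K}
    (hx : ∀ L, dT x L = 0) (hxe : TEq (ch (im2 χ)) x)
    {i : ℕ} (hi : 1 ≤ i) (hin : i ≤ n) {z : Q.Cover x₀ × Finset V → K} (hz : CycN Q x₀ i z)
    (hze : ∀ (γ : Γ) (e : Q.Cover x₀ × Finset V), z (γ • e) = (χ γ : K) * z e) :
    osum Γ (fun e : Q.Cover x₀ × Finset V => open Classical in
      if e ∈ Cell Q x₀ bit i then lin x (TT Q x₀ e) * z e ^ 2 else 0) =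
    ITM Γ M n ht f i x (cupB ht (n + 1 - i) (TK K) (aN Q x₀ bit i Ψ z) (aN Q x₀ bit i Ψ z)) := by
  classical
  obtain ⟨d, rfl⟩ : ∃ d', i = d' + 1 := ⟨i - 1, by omega⟩
  have hW : Wt Γ Q x₀ (fun γ => (χ γ : K)) x z := by
    refine ⟨lin_BL hx, fun γ L => ?_, hze⟩
    rw [hxe]
    show ((im2 χ γ : Kˣ) : K) * x L * (χ γ : K) ^ 2 = x L
    have h1 : ((im2 χ γ : Kˣ) : K) * (χ γ : K) ^ 2 = 1 := by
      rw [im2_apply, ← Units.val_pow_eq_pow_val, Units.inv_mul]
    rw [mul_right_comm, h1, one_mul]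
  rw [topb hbit hΓ hM hA hf hΨ ⟨hz.valid, hz.nb, hz.bd⟩ hW (by omega)]
  unfold ITM
  congr 1
  funext τ
  by_cases hτ : τ ∈ M ∧ τ.card = n + 1
  · rw [if_pos hτ, if_pos hτ]
    obtain ⟨h1, h2⟩ := gP_top (hA.ht_inj τ hτ.1) (hA.ht_le τ hτ.1) hτ.2 hin
      (fun L => x (L.map f)) (cupB ht (n + 1 - (d + 1)) (TK K) (aN Q x₀ bit (d + 1) Ψ z)
        (aN Q x₀ bit (d + 1) Ψ z))
    rw [h1, cupB_full _ _ _ h2, TK_apply, aN_eq_aab]
    ring
  · rw [if_neg hτ, if_neg hτ]

end Pool.Agent.S9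

end

section

/-!
# Project S9, block M: cubes of dimension greater than the dimension of the manifold
-/

set_option autoImplicit false
set_option linter.unusedSectionVars false

open Finset Pointwise

namespace Pool.Agent.S9

open Pool.Agent.H19.Cub Pool.Agent.H77.SX Pool.Agent.H37.TM Pool.Agent.S9.M Pool.Agent.S9.U

variable {V X U Γ K : Type} [DecidableEq V] [DecidableEq U] [Group Γ] [MulAction Γ U]
  {Q : CubeComplex V X} {x₀ : X} [MulAction Γ (Q.Cover x₀)] {bit : X → V → ZMod 2}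
  [Field K] [Algebra (ZMod 2) K] {M B : Set (Finset U)} {n : ℕ} {ht : U → ℕ}

/-- **The sum over the cubes is zero in the degrees above the dimension.** -/
theorem M_top_gt [Fintype V] [Fintype X] [CharP K 2] (hbit : IsBit Q bit)
    (hΓ : IsDeck Γ Q x₀) (hM : Psm M B n)
    (hA : MAct Γ M B n ht) {f : U → Q.Cover x₀} (hf : IsVMap Γ f)
    {Ψ : Q.Cover x₀ × Finset V → (Finset U × Finset U →₀ ZMod 2)}
    (hΨ : IsPsi Γ Q x₀ bit M B n Ψ) (χ : Γ →* Kˣ) {x : List (Q.Cover x₀) → K}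
    (hx : ∀ L, dT x L = 0) (hxe : TEq (ch (im2 χ)) x)
    {i : ℕ} (hin : n < i) {z : Q.Cover x₀ × Finset V → K} (hz : CycN Q x₀ i z)
    (hze : ∀ (γ : Γ) (e : Q.Cover x₀ × Finset V), z (γ • e) = (χ γ : K) * z e) :
    osum Γ (fun e : Q.Cover x₀ × Finset V => open Classical in
      if e ∈ Cell Q x₀ bit i then lin x (TT Q x₀ e) * z e ^ 2 else 0) = 0 := by
  classical
  obtain ⟨d, rfl⟩ : ∃ d', i = d' + 1 := ⟨i - 1, by omega⟩
  have hW : Wt Γ Q x₀ (fun γ => (χ γ : K)) x z := by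
    refine ⟨lin_BL hx, fun γ L => ?_, hze⟩
    rw [hxe]
    show ((im2 χ γ : Kˣ) : K) * x L * (χ γ : K) ^ 2 = x L
    have h1 : ((im2 χ γ : Kˣ) : K) * (χ γ : K) ^ 2 = 1 := by
      rw [im2_apply, ← Units.val_pow_eq_pow_val, Units.inv_mul]
    rw [mul_right_comm, h1, one_mul]
  obtain ⟨H, hH1, hH2⟩ := exists_homotopy hbit hΓ hM hA hΨ hf
  have h1 := cmpb hbit hΓ (d := d) ⟨hz.valid, hz.nb, hz.bd⟩ hW
    (F := fun e => TT Q x₀ e + Phi M n ht f (Ψ e)) hH1 hH2
  refine Eq.trans ?_ h1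
  congr 1
  funext e
  by_cases he : e ∈ Cell Q x₀ bit (d + 1)
  · rw [if_pos he, if_pos he]
    have h2 : Ψ e = 0 := by
      ext ⟨σ, τ⟩
      by_contra h3
      have h4 := (Finsupp.mem_supported _ _).1 (hΨ.mem _ e he) (Finsupp.mem_support_iff.2 h3)
      obtain ⟨h5, h6, h7, h8, h9⟩ := h4
      have h10 := hM.card_le _ h7
      have h11 := card_le_card h6
      dsimp only at h9 h10 h11
      omega
    have h3 : Phi M n ht f (Ψ e) = 0 := by
      rw [h2]
      unfold Phi
      rw [map_zero, Finsupp.mapDomain_zero]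
    rw [h3, add_zero]
  · rw [if_neg he, if_neg he]

end Pool.Agent.S9

end

section

/-!
# Project S9, block M: the end for a manifold, in terms of the cells of the cover
-/

set_option autoImplicit false
set_option linter.unusedSectionVars false

open Finset Pointwise

namespace Pool.Agent.S9

open Pool.Agent.H19.Cub Pool.Agent.H77.SX Pool.Agent.H37.TM Pool.Agent.S9.U Pool.Agent.S9.M

variable {V X U Γ : Type} [DecidableEq V] [DecidableEq U] [Group Γ] [MulAction Γ U]
  {Q : CubeComplex V X} {x₀ : X} [MulAction Γ (Q.Cover x₀)] {bit : X → V → ZMod 2}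
  {M B : Set (Finset U)} {n : ℕ} {ht : U → ℕ} {K : Type} [Field K] [Algebra (ZMod 2) K]

/-- the end in the degrees above the dimension -/
theorem m_psi_gt [Fintype V] [Fintype X] [CharP K 2] (hbit : IsBit Q bit) (hΓ : IsDeck Γ Q x₀)
    (hM : Psm M B n) (hA : MAct Γ M B n ht) (hU : ∀ u : U, {u} ∈ M)
    {Ψ : Q.Cover x₀ × Finset V → (Finset U × Finset U →₀ ZMod 2)}
    (hΨ : IsPsi Γ Q x₀ bit M B n Ψ) (χ : Γ →* Kˣ)
    {i : ℕ} (hi : n < i)
    {z₀ : Q.Cover x₀ × Finset V → K} (hz : CycN Q x₀ i z₀)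
    (hzg : ∀ (γ : Γ) e, z₀ (γ • e) = (χ γ : K) * z₀ e)
    {x : List (Q.Cover x₀) → K}
    (hxg : TEq (ch (im2 χ)) x) (hxd : ∀ L, dT x L = 0) :
    osum Γ (fun e : Q.Cover x₀ × Finset V => open Classical in
      if e ∈ Cell Q x₀ bit i then lin x (TT Q x₀ e) * z₀ e ^ 2 else 0) = 0 := by
  obtain ⟨f, hf⟩ := exists_vmap (Q := Q) (x₀ := x₀) hA.sact hU
  exact M_top_gt hbit hΓ hM hA hf hΨ χ hxd hxg hi hz hzg

end Pool.Agent.S9

end

section

/-!
# Project S10, block M: the end for a manifold, with restricted modules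
-/

set_option autoImplicit false
set_option linter.unusedSectionVars false

open Finset Pointwise

namespace Pool.Agent.S10

open Pool.Agent.H19.Cub Pool.Agent.H77.SX Pool.Agent.H37.TM Pool.Agent.S9 Pool.Agent.S9.U Pool.Agent.S9.M

variable {V X U Γ Φ : Type} [DecidableEq V] [DecidableEq U] [Group Γ] [Group Φ] [MulAction Γ U]
  {Q : CubeComplex V X} {x₀ : X} [MulAction Γ (Q.Cover x₀)] {bit : X → V → ZMod 2}
  {M B : Set (Finset U)} {n : ℕ} {ht : U → ℕ} {K : Type} [Field K] [Algebra (ZMod 2) K]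

/-- **The end, for a pseudomanifold with a chain map to the complex of pairs.** -/
theorem m_psiR [Fintype V] [Fintype X] [CharP K 2] (hbit : IsBit Q bit) (hΓ : IsDeck Γ Q x₀)
    (hM : Psm M B n) (hA : MAct Γ M B n ht) (hU : ∀ u : U, {u} ∈ M)
    {Ψ : Q.Cover x₀ × Finset V → (Finset U × Finset U →₀ ZMod 2)}
    (hΨ : IsPsi Γ Q x₀ bit M B n Ψ) (θ : Γ →* Φ) (χ : Φ →* Kˣ)
    (hEff : EffR K θ (Q.Cover x₀) (sqr χ))
    {i j : ℕ} (hij : i + j = n) (hji : j < i)
    {z₀ : Q.Cover x₀ × Finset V → K} (hz : CycN Q x₀ i z₀)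
    (hzg : ∀ (γ : Γ) e, z₀ (γ • e) = (χ (θ γ) : K) * z₀ e) (hl : LiftsR θ Q x₀ χ i z₀)
    {x : List (Q.Cover x₀) → K} (hx : ∀ L, x L ≠ 0 → L.length = i + 1)
    (hxg : ∀ (γ : Γ) L, x (L.map (γ • ·)) = (im2 χ (θ γ) : K) * x L) (hxd : ∀ L, dT x L = 0) :
    osum Γ (fun e : Q.Cover x₀ × Finset V => open Classical in
      if e ∈ Cell Q x₀ bit i then lin x (TT Q x₀ e) * z₀ e ^ 2 else 0) = 0 := by
  classical
  obtain ⟨f, hf⟩ := exists_vmap (Q := Q) (x₀ := x₀) hA.sact hU
  obtain ⟨c, hc⟩ : ∃ c, i = c + (j + 1) := ⟨i - (j + 1), by omega⟩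
  have hx2 : ∀ g, (χ g : K) ^ 2 * (im2 χ g : K) = 1 := by
    intro g
    rw [im2_apply, Units.val_inv_eq_inv_val, Units.val_pow_eq_pow_val]
    exact mul_inv_cancel₀ (pow_ne_zero 2 (χ g).ne_zero)
  obtain ⟨N', _, _, _, r', p, h1, h2, h3, h4⟩ := claimR hM hA hf θ χ hEff (c := c) (j + 1) (by omega)
    K 1 tri_one K (ch (im2 χ)) (tri_ch (im2_mem χ)) (TK K)
    (fun a a' e => by rw [TK_apply, TK_apply, mul_comm a a'])
    (fun g a a' e => by
      show (χ g : K) ^ 2 * (a * a' * ((im2 χ g : K) * e)) = a * a' * e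
      rw [mul_left_comm (a * a'), ← mul_assoc, hx2, one_mul])
    x (fun L hL => by rw [hx L hL, hc]) hxg hxd
  let _ : Module (ZMod 2) N' := AddCommGroup.zmodModule (n := 2) fun y => by
    rw [← Nat.cast_smul_eq_nsmul K, CharP.cast_eq_zero, zero_smul]
  obtain ⟨z, hz1, hz2, hz3⟩ := hl N' r' p h1 h2 fun g y => h3 g y
  obtain ⟨d, rfl⟩ : ∃ d, i = d + 1 := ⟨i - 1, by omega⟩
  obtain ⟨S, hS⟩ := aN_fin hΓ hM hA hΨ (d + 1)
  have ha : Rcc M B (χ.comp θ) (r'.comp θ) (aN Q x₀ bit (d + 1) Ψ z) :=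
    { smul := fun γ τ => aN_smul hΓ hM hA hΨ (tw χ r' (θ γ) : N' →ₗ[K] N').toAddMonoidHom (hz2 γ) τ
      sup := ⟨S, fun τ hτ => ⟨τ, Subset.refl τ, (aN_rel hΓ hM hA hΨ z τ hτ).1,
        (aN_rel hΓ hM hA hΨ z τ hτ).2.1, hS N' _ _ z τ hτ⟩⟩
      emp := aN_empty _ _ _
      coc := fun τ hτ => aN_cob hΓ hM hA hΨ hbit hz1 hτ }
  have h5 := h4 _ ha
  have h6 : (fun t => p (aN Q x₀ bit (d + 1) Ψ z t)) = aN Q x₀ bit (d + 1) Ψ z₀ := by
    funext t
    have h7 := aN_map hΓ hM hA hΨ p.toAddMonoidHom z t (d := d + 1)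
    refine h7.symm.trans ?_
    congr 1
    exact funext hz3
  rw [h6, ← hc] at h5
  have h8 := M_top hbit hΓ hM hA hf hΨ (χ.comp θ) hxd (x := x) (fun γ L => hxg γ L) (i := d + 1)
    (by omega) (by omega) hz hzg
  rw [h8, show n + 1 - (d + 1) = j + 1 by omega]
  exact h5

/-- **The end, for a homology manifold, with restricted modules.** `M` has to be acyclic in the degrees less than the
dimension `d` of `Q` only. -/
theorem m_mfdR [Fintype V] [Fintype X] [CharP K 2] (hbit : IsBit Q bit) (hΓ : IsDeck Γ Q x₀)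
    {d : ℕ} (hd : DimLe Q d) (hM : Mfd M B n) (hK : AcycLt M d) (hA : SAct Γ M B) (θ : Γ →* Φ)
    (χ : Φ →* Kˣ)
    (hEff : EffR K θ (Q.Cover x₀) (sqr χ)) {i : ℕ} (hi : n < 2 * i)
    {z₀ : Q.Cover x₀ × Finset V → K} (hz : CycN Q x₀ i z₀)
    (hzg : ∀ (γ : Γ) e, z₀ (γ • e) = (χ (θ γ) : K) * z₀ e) (hl : LiftsR θ Q x₀ χ i z₀)
    {x : List (Q.Cover x₀) → K} (hx : ∀ L, x L ≠ 0 → L.length = i + 1)
    (hxg : ∀ (γ : Γ) L, x (L.map (γ • ·)) = (im2 χ (θ γ) : K) * x L) (hxd : ∀ L, dT x L = 0) :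
    osum Γ (fun e : Q.Cover x₀ × Finset V => open Classical in
      if e ∈ Cell Q x₀ bit i then lin x (TT Q x₀ e) * z₀ e ^ 2 else 0) = 0 := by
  classical
  let iact : MulAction Γ (Sx M) :=
    { smul := fun g a => ⟨g • a.1, hA.K_mem g a.1 a.2⟩
      one_smul := fun a => Subtype.ext (one_smul Γ a.1)
      mul_smul := fun g h a => Subtype.ext (mul_smul g h a.1) }
  have hact : ∀ (g : Γ) (a : Sx M), (g • a).1 = g • a.1 := fun _ _ => rfl
  obtain ⟨Ψ, hΨ⟩ := exists_psi (Γ := Γ) (x₀ := x₀) (bit := bit) hbit hΓ hd hM hK hA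
  obtain ⟨φ, hφ, hφg⟩ := exists_phi hM.psm hact hA.free
  by_cases hin : n < i
  · exact m_psi_gt hbit hΓ (sd_psm hM.psm) (sd_mact hM.psm hact hA.B_mem hA.free) sd_singleton
      (sd_psi hM.psm hφ hact hφg hΨ) (χ.comp θ) hin hz hzg (x := x) (fun γ L => hxg γ L) hxd
  exact m_psiR hbit hΓ (sd_psm hM.psm) (sd_mact hM.psm hact hA.B_mem hA.free) sd_singleton
    (sd_psi hM.psm hφ hact hφg hΨ) θ χ hEff (i := i) (j := n - i) (by omega) (by omega) hz hzg hl
    hx hxg hxd

end Pool.Agent.S10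

end

section

/-!
# Project S10D: the end on the manifold side for a duality pair
-/

set_option autoImplicit false
set_option linter.unusedSectionVars false

open Finset Pointwise

namespace Pool.Agent.S10

open Pool.Agent.H19.Cub Pool.Agent.H77.SX Pool.Agent.H37.TM Pool.Agent.S9 Pool.Agent.S9.U Pool.Agent.S9.M

section

variable {V X U Γ : Type} [DecidableEq V] [DecidableEq U] [Group Γ] [MulAction Γ U]
  {Q : CubeComplex V X} {x₀ : X} [MulAction Γ (Q.Cover x₀)] {bit : X → V → ZMod 2}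
  {K B mu : Set (Finset U)} {n d : ℕ}

/-- the action on the target complex -/
noncomputable def rhoD (Γ U : Type) [DecidableEq U] [Group Γ] [MulAction Γ U] :
    Γ →* (((Finset U × Finset U →₀ ZMod 2) × (Finset U →₀ ZMod 2)) →ₗ[ZMod 2]
      ((Finset U × Finset U →₀ ZMod 2) × (Finset U →₀ ZMod 2))) where
  toFun g := (rhoE Γ U g).prodMap (rhoM Γ (Finset U) (fun g e => g • e)
    (funext fun e => one_smul Γ e) (fun g h => funext fun e => mul_smul g h e) g)
  map_one' := by
    rw [map_one, map_one]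
    rfl
  map_mul' g h := by
    rw [map_mul, map_mul]
    rfl

theorem rhoD_fst (g : Γ) (x : (Finset U × Finset U →₀ ZMod 2) × (Finset U →₀ ZMod 2)) :
    (rhoD Γ U g x).1 = x.1.mapDomain (g • ·) := rfl

theorem rhoD_snd (g : Γ) (x : (Finset U × Finset U →₀ ZMod 2) × (Finset U →₀ ZMod 2)) :
    (rhoD Γ U g x).2 = x.2.mapDomain (g • ·) := rfl

theorem map_smul_apply {A : Type} [MulAction Γ A] (g : Γ) (x : A →₀ ZMod 2) (a : A) :
    x.mapDomain (g • ·) a = x (g⁻¹ • a) := by
  have h := Finsupp.mapDomain_apply (MulAction.injective g) x (g⁻¹ • a)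
  rwa [smul_inv_smul] at h

theorem al_map (g : Γ) (y : Finset U × Finset U →₀ ZMod 2) (t : Finset U) :
    al (y.mapDomain (g • ·)) t = al y (g⁻¹ • t) := by
  unfold al
  have h1 : ∑ v ∈ g⁻¹ • t, y ({v}, g⁻¹ • t) = ∑ v ∈ t, y ({g⁻¹ • v}, g⁻¹ • t) := by
    have hsm : g⁻¹ • t = t.map ⟨fun u => g⁻¹ • u, MulAction.injective g⁻¹⟩ := by
      rw [Finset.map_eq_image]
      rfl
    conv_lhs => rw [hsm]
    rw [Finset.sum_map, ← hsm]
    rfl
  rw [h1]
  refine sum_congr rfl fun v _ => ?_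
  rw [map_smul_apply]
  show y (g⁻¹ • ({v} : Finset U), g⁻¹ • t) = _
  rw [Finset.smul_finset_singleton]

theorem coF_smul (hA : SAct Γ K B) (g : Γ) (f : Finset U →₀ ZMod 2) :
    coF K (f.mapDomain (g • ·)) = (coF K f).mapDomain (g • ·) := by
  unfold coF
  rw [lin_mapDomain, mapDomain_lin]
  refine lin_congr fun τ _ => ?_
  rw [Finset.card_smul_finset, cofs_smul hA, Finset.sum_map, Finsupp.mapDomain_finsetSum]
  refine sum_congr rfl fun t _ => ?_
  rw [Finsupp.mapDomain_single]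
  rfl

theorem mm_smul (hD : Dual K B mu n d) (hA : SAct Γ K B)
    (hmu : ∀ (g : Γ) (s : Finset U), s ∈ mu → g • s ∈ mu) (i : ℕ) (g : Γ)
    (x : (Finset U × Finset U →₀ ZMod 2) × (Finset U →₀ ZMod 2)) (hx : x ∈ MM K B mu n i) :
    rhoD Γ U g x ∈ MM K B mu n i := by
  have hA' := gen_sact hD hA hmu
  cases i with
  | zero =>
    obtain ⟨h1, h2⟩ := hx
    refine ⟨tn_smul hA' g 0 x.1 h1, ?_⟩
    have h3 : x.2 = 0 := h2
    show x.2.mapDomain (g • ·) = 0
    rw [h3, Finsupp.mapDomain_zero]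
  | succ m =>
    obtain ⟨h1, h2, h3⟩ := hx
    refine ⟨tn_smul hA' g (m + 1) x.1 h1, ?_, fun t ht => ?_⟩
    · rw [rhoD_snd]
      refine (Finsupp.mem_supported _ _).2 fun t ht => ?_
      have h4 := Finsupp.mem_support_iff.1 ht
      rw [map_smul_apply] at h4
      obtain ⟨h5, h6, h7⟩ := (Finsupp.mem_supported _ _).1 h2 (Finsupp.mem_support_iff.2 h4)
      refine ⟨(smul_mem_iff hA g⁻¹ t).1 h5, fun h => h6 ((smul_memB_iff hA g⁻¹ t).2 h), ?_⟩
      rw [Finset.card_smul_finset] at h7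
      exact h7
    · rw [rhoD_fst, rhoD_snd, al_map, map_smul_apply]
      exact h3 _ (hA'.K_mem g⁻¹ t ht)

/-- **the chain map for a duality pair** -/
theorem exists_psiD (hbit : IsBit Q bit) (hΓ : IsDeck Γ Q x₀) (hd : DimLe Q d)
    (hD : Dual K B mu n d) (hA : SAct Γ K B) (hmu : ∀ (g : Γ) (s : Finset U), s ∈ mu → g • s ∈ mu) :
    ∃ Ψ : Q.Cover x₀ × Finset V → (Finset U × Finset U →₀ ZMod 2),
      IsPsi Γ Q x₀ bit (gen mu) (B ∩ gen mu) n Ψ := by
  classical
  have hA' := gen_sact hD hA hmu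
  let F : Finset V → (Finset U × Finset U →₀ ZMod 2) × (Finset U →₀ ZMod 2) :=
    fun σ => (if σ = ∅ then Finsupp.single (∅, ∅) 1 else 0, 0)
  have hF0 : F ∅ = (Finsupp.single (∅, ∅) 1, 0) := by
    show (if (∅ : Finset V) = ∅ then Finsupp.single (∅, ∅) 1 else 0, 0) = _
    rw [if_pos rfl]
  have hF1 : ∀ σ, σ ≠ ∅ → F σ = 0 := by
    intro σ hσ
    show (if σ = ∅ then Finsupp.single (∅, ∅) 1 else 0, 0) = _
    rw [if_neg hσ]
    rfl
  obtain ⟨H, h1, h2, h3⟩ := lift_free (Γ := Γ) (A := Q.Cover x₀ × Finset V)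
    (N := (Finset U × Finset U →₀ ZMod 2) × (Finset U →₀ ZMod 2)) (Cell Q x₀ bit)
    (fun i g e he => (Pool.Agent.H37.TM.cell_smul hΓ g e).2 he) cell_disj
    (fun i e _ g h => cu_free hΓ e g h) (bdD Q x₀)
    (fun i e he b hb => bdD_cell hbit he b hb) (fun e he => cell_zero he)
    (fun i g e he => Pool.Agent.H37.TM.bdD_smul hΓ g he) (fun i e he => bdD_bdD he)
    (rhoD Γ U) (DD K mu n)
    (fun g x => by
      refine Prod.ext ?_ ?_
      · change bdT (gen mu) n (x.1.mapDomain (g • ·)) = (bdT (gen mu) n x.1).mapDomain (g • ·)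
        change lin (bdE (gen mu) n) (x.1.mapDomain (g • ·)) =
          (lin (bdE (gen mu) n) x.1).mapDomain (g • ·)
        rw [lin_mapDomain, mapDomain_lin]
        exact lin_congr fun c _ => bdE_smul hA' g c
      · exact coF_smul hA g x.2)
    (MM K B mu n) (fun i g x hx => mm_smul hD hA hmu i g x hx)
    (fun i ⟨e, he⟩ x hx h0 => mm_exact hD i (he.2.2.1 ▸ hd _ _ he.1 he.2.1) x hx h0)
    (fun e => F e.2)
    (fun i e he => by
      by_cases h : e.2 = ∅
      · have hi : i = 0 := by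
          rw [← cell_card he, h, Finset.card_empty]
        subst hi
        rw [h, hF0]
        exact ⟨Finsupp.single_mem_supported (ZMod 2) (1 : ZMod 2)
          (show ((∅ : Finset U), (∅ : Finset U)) ∈ TCell (gen mu) (B ∩ gen mu) n 0 from rfl), rfl⟩
      · rw [hF1 _ h]
        exact Submodule.zero_mem _)
    (fun i g e he => by
      rw [cu_smul]
      dsimp only
      by_cases h : e.2 = ∅
      · rw [h, hF0]
        refine Prod.ext ?_ ?_
        · change _ = (Finsupp.single ((∅ : Finset U), (∅ : Finset U)) (1 : ZMod 2)).mapDomain (g • ·)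
          rw [Finsupp.mapDomain_single]
          congr 1
        · change (0 : Finset U →₀ ZMod 2) = (0 : Finset U →₀ ZMod 2).mapDomain (g • ·)
          rw [Finsupp.mapDomain_zero]
      · rw [hF1 _ h, map_zero])
    (fun i e he => by
      rw [lin_bdD_const F e]
      by_cases h : e.2 = ∅
      · rw [h, hF0]
        refine Prod.ext ?_ ?_
        · change lin (bdE (gen mu) n) (Finsupp.single ((∅ : Finset U), (∅ : Finset U)) (1 : ZMod 2)) = 0
          rw [lin_single]
          unfold bdE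
          rw [if_pos rfl]
        · exact map_zero (coF K)
      · rw [hF1 _ h, map_zero])
  refine ⟨fun e => (H e).1, fun i e he => (h1 i e he).1, fun g i e he => ?_, fun i e he => ?_⟩
  · show (H (g • e)).1 = (H e).1.mapDomain (g • ·)
    rw [h2 i g e he, rhoD_fst]
  · have h4 := congrArg Prod.fst (h3 i e he)
    have h5 : (lin H (bdD Q x₀ e)).1 = lin (fun e => (H e).1) (bdD Q x₀ e) :=
      map_lin (LinearMap.fst (ZMod 2) (Finset U × Finset U →₀ ZMod 2) (Finset U →₀ ZMod 2))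
    rw [Prod.fst_add, h5] at h4
    refine h4.trans ?_
    congr 1
    have h := cell_card he
    by_cases hi : i = 0
    · subst hi
      rw [if_pos rfl, Finset.card_eq_zero.1 h, hF0]
    · rw [if_neg hi, hF1]
      · rfl
      · intro h'
        rw [h', Finset.card_empty] at h
        exact hi h.symm

end

variable {V X U Γ Φ : Type} [DecidableEq V] [DecidableEq U] [Group Γ] [Group Φ] [MulAction Γ U]
  {Q : CubeComplex V X} {x₀ : X} [MulAction Γ (Q.Cover x₀)] {bit : X → V → ZMod 2}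
  {M B mu : Set (Finset U)} {n d : ℕ} {K : Type} [Field K] [Algebra (ZMod 2) K]

/-- **The end, for a pseudomanifold which is not subdivided.** -/
theorem m_psmR [Fintype V] [Fintype X] [CharP K 2] (hbit : IsBit Q bit) (hΓ : IsDeck Γ Q x₀)
    (hM : Psm M B n) (hA : SAct Γ M B) {Ψ : Q.Cover x₀ × Finset V → (Finset U × Finset U →₀ ZMod 2)}
    (hΨ : IsPsi Γ Q x₀ bit M B n Ψ) (θ : Γ →* Φ) (χ : Φ →* Kˣ)
    (hEff : EffR K θ (Q.Cover x₀) (sqr χ)) {i : ℕ} (hi : n < 2 * i)
    {z₀ : Q.Cover x₀ × Finset V → K} (hz : CycN Q x₀ i z₀)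
    (hzg : ∀ (γ : Γ) e, z₀ (γ • e) = (χ (θ γ) : K) * z₀ e) (hl : LiftsR θ Q x₀ χ i z₀)
    {x : List (Q.Cover x₀) → K} (hx : ∀ L, x L ≠ 0 → L.length = i + 1)
    (hxg : ∀ (γ : Γ) L, x (L.map (γ • ·)) = (im2 χ (θ γ) : K) * x L) (hxd : ∀ L, dT x L = 0) :
    osum Γ (fun e : Q.Cover x₀ × Finset V => open Classical in
      if e ∈ Cell Q x₀ bit i then lin x (TT Q x₀ e) * z₀ e ^ 2 else 0) = 0 := by
  classical
  let iact : MulAction Γ (Sx M) :=
    { smul := fun g a => ⟨g • a.1, hA.K_mem g a.1 a.2⟩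
      one_smul := fun a => Subtype.ext (one_smul Γ a.1)
      mul_smul := fun g h a => Subtype.ext (mul_smul g h a.1) }
  have hact : ∀ (g : Γ) (a : Sx M), (g • a).1 = g • a.1 := fun _ _ => rfl
  obtain ⟨φ, hφ, hφg⟩ := exists_phi hM hact hA.free
  by_cases hin : n < i
  · exact m_psi_gt hbit hΓ (sd_psm hM) (sd_mact hM hact hA.B_mem hA.free) sd_singleton
      (sd_psi hM hφ hact hφg hΨ) (χ.comp θ) hin hz hzg (x := x) (fun γ L => hxg γ L) hxd
  exact m_psiR hbit hΓ (sd_psm hM) (sd_mact hM hact hA.B_mem hA.free) sd_singleton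
    (sd_psi hM hφ hact hφg hΨ) θ χ hEff (i := i) (j := n - i) (by omega) (by omega) hz hzg hl
    hx hxg hxd

/-- **The end, for a duality pair.** -/
theorem m_dualR [Fintype V] [Fintype X] [CharP K 2] (hbit : IsBit Q bit) (hΓ : IsDeck Γ Q x₀)
    (hd : DimLe Q d) (hM : Dual M B mu n d) (hA : SAct Γ M B)
    (hmu : ∀ (g : Γ) (s : Finset U), s ∈ mu → g • s ∈ mu) (θ : Γ →* Φ)
    (χ : Φ →* Kˣ)
    (hEff : EffR K θ (Q.Cover x₀) (sqr χ)) {i : ℕ} (hi : n < 2 * i)
    {z₀ : Q.Cover x₀ × Finset V → K} (hz : CycN Q x₀ i z₀)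
    (hzg : ∀ (γ : Γ) e, z₀ (γ • e) = (χ (θ γ) : K) * z₀ e) (hl : LiftsR θ Q x₀ χ i z₀)
    {x : List (Q.Cover x₀) → K} (hx : ∀ L, x L ≠ 0 → L.length = i + 1)
    (hxg : ∀ (γ : Γ) L, x (L.map (γ • ·)) = (im2 χ (θ γ) : K) * x L) (hxd : ∀ L, dT x L = 0) :
    osum Γ (fun e : Q.Cover x₀ × Finset V => open Classical in
      if e ∈ Cell Q x₀ bit i then lin x (TT Q x₀ e) * z₀ e ^ 2 else 0) = 0 := by
  obtain ⟨Ψ, hΨ⟩ := exists_psiD (Γ := Γ) (x₀ := x₀) (bit := bit) hbit hΓ hd hM hA hmu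
  exact m_psmR hbit hΓ (gen_psm hM) (gen_sact hM hA hmu) hΨ θ χ hEff hi hz hzg hl hx hxg hxd

end Pool.Agent.S10

end
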