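import Pool.Agent.H71.TSG.M35

/-! The parts of this file: H78.RA.Dim, H78.RA.GDim, H78.RA.Mop. -/

section

/-!
# The von Neumann dimension of invariant subspaces of `ℓ²(κ × G)`

`G` acts on `ℓ²(κ × G)` by left translations `Tr g`. For a closed subspace `K` the number
`gdim K` is the sum over `j` of the squared norms of the projections of the basis vectors
`(j, 1)` to `K`. Main results: `gdim_ker` (rank-nullity for equivariant operators),
`gdim_le_of_injOn` (monotonicity under injective equivariant operators), `gdim_faithful`.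
-/

set_option autoImplicit false
set_option linter.unusedSectionVars false

namespace Pool.Agent.H78.RA

open Filter Topology
open Pool.Agent.H4.Atiyah
open scoped ComplexConjugate

variable {κ ν μ G : Type*} [Group G]

/-- the permutation of the index set -/
def perm (g : G) : κ × G ≃ κ × G := Equiv.prodCongr (Equiv.refl κ) (Equiv.mulLeft g⁻¹)

theorem perm_apply (g : G) (p : κ × G) : perm g p = (p.1, g⁻¹ * p.2) := rfl

/-- left translation by `g` on `ℓ²(κ × G)` -/
noncomputable def Tr (g : G) : LL κ G →L[ℂ] LL κ G :=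
  LinearMap.mkContinuous
    { toFun := fun x => ⟨fun p => x (perm g p), (memlp_iff _).2
        (((perm g).summable_iff (f := fun p => ‖x p‖ ^ 2)).2 ((memlp_iff _).1 (lp.memℓp x)))⟩
      map_add' := by
        intro x y
        ext p
        rfl
      map_smul' := by
        intro c x
        ext p
        rfl }
    1 (by
      intro x
      rw [one_mul]
      apply le_of_sq_le_sq _ (norm_nonneg _)
      rw [norm_sq_lp, norm_sq_lp]
      exact le_of_eq ((perm g).tsum_eq (fun p => ‖x p‖ ^ 2)))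

theorem Tr_apply (g : G) (x : LL κ G) (p : κ × G) : Tr g x p = x (p.1, g⁻¹ * p.2) := rfl

theorem Tr_adj (g : G) (x y : LL κ G) : inner ℂ (Tr g x) y = inner ℂ x (Tr g⁻¹ y) := by
  rw [lp.inner_eq_tsum, lp.inner_eq_tsum]
  rw [← (perm g).tsum_eq (fun p => inner ℂ (x p) (Tr g⁻¹ y p))]
  apply tsum_congr
  intro p
  have hp : (((perm g p).1, g⁻¹⁻¹ * (perm g p).2) : κ × G) = p := by
    rw [perm_apply, inv_inv, mul_inv_cancel_left]
  rw [Tr_apply g⁻¹ y, hp]
  rfl

/-- equivariant operators -/
def Eqv (A : LL κ G →L[ℂ] LL ν G) : Prop := ∀ (g : G) (x : LL κ G), A (Tr g x) = Tr g (A x)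

theorem Eqv.id : Eqv (ContinuousLinearMap.id ℂ (LL κ G)) := fun _ _ => rfl

theorem Eqv.one : Eqv (1 : LL κ G →L[ℂ] LL κ G) := fun _ _ => rfl

theorem Eqv.comp {A : LL ν G →L[ℂ] LL μ G} {B : LL κ G →L[ℂ] LL ν G} (hA : Eqv A) (hB : Eqv B) :
    Eqv (A ∘L B) := by
  intro g x
  show A (B (Tr g x)) = Tr g (A (B x))
  rw [hB, hA]

theorem Eqv.sub {A B : LL κ G →L[ℂ] LL ν G} (hA : Eqv A) (hB : Eqv B) : Eqv (A - B) := by
  intro g x
  rw [sub_apply, sub_apply, hA, hB, map_sub]

theorem Eqv.add {A B : LL κ G →L[ℂ] LL ν G} (hA : Eqv A) (hB : Eqv B) : Eqv (A + B) := by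
  intro g x
  rw [add_apply, add_apply, hA, hB, map_add]

theorem Eqv.smul {A : LL κ G →L[ℂ] LL ν G} (c : ℂ) (hA : Eqv A) : Eqv (c • A) := by
  intro g x
  rw [smul_apply, smul_apply, hA, map_smul]

theorem Eqv.zero : Eqv (0 : LL κ G →L[ℂ] LL ν G) := by
  intro g x
  simp

theorem Eqv.sum {ι : Type*} (s : Finset ι) (A : ι → LL κ G →L[ℂ] LL ν G) (h : ∀ i ∈ s, Eqv (A i)) :
    Eqv (∑ i ∈ s, A i) := by
  classical
  induction s using Finset.induction_on with
  | empty => rw [Finset.sum_empty]; exact Eqv.zero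
  | insert a s ha ih =>
    rw [Finset.sum_insert ha]
    exact (h a (Finset.mem_insert_self _ _)).add (ih fun i hi => h i (Finset.mem_insert_of_mem hi))

theorem Eqv.adjoint {A : LL κ G →L[ℂ] LL ν G} (hA : Eqv A) :
    Eqv (ContinuousLinearMap.adjoint A) := by
  intro g x
  apply ext_inner_left ℂ
  intro v
  rw [ContinuousLinearMap.adjoint_inner_right, ← inv_inv g, ← Tr_adj, ← Tr_adj,
    ContinuousLinearMap.adjoint_inner_right, hA]

section Delta

variable [DecidableEq κ] [DecidableEq ν] [DecidableEq G]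

/-- basis vectors -/
noncomputable def dl (j : κ) (g : G) : LL κ G := lp.single 2 (j, g) (1 : ℂ)

theorem inner_dl (j : κ) (g : G) (x : LL κ G) : inner ℂ (dl j g) x = x (j, g) := by
  unfold dl
  rw [lp.inner_single_left]
  simp

theorem norm_dl (j : κ) (g : G) : ‖(dl j g : LL κ G)‖ = 1 := by
  unfold dl
  rw [lp.norm_single (by norm_num)]
  simp

theorem Tr_dl (g h : G) (j : κ) : Tr g (dl j h : LL κ G) = dl j (g * h) := by
  ext p
  rw [Tr_apply]
  unfold dl
  rw [lp.single_apply, lp.single_apply]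
  by_cases hp : p = (j, g * h)
  · subst hp
    rw [Pi.single_eq_same, show ((j, g * h).1, g⁻¹ * (j, g * h).2) = (j, h) by simp,
      Pi.single_eq_same]
  · rw [Pi.single_eq_of_ne hp, Pi.single_eq_of_ne]
    intro hc
    apply hp
    have h1 := (Prod.ext_iff.1 hc).1
    have h2 := (Prod.ext_iff.1 hc).2
    ext
    · exact h1
    · show p.2 = g * h
      rw [← show g⁻¹ * p.2 = h from h2, mul_inv_cancel_left]

/-- an operator which vanishes on the basis vectors is zero -/
theorem eq_of_dl {A B : LL κ G →L[ℂ] LL ν G} (h : ∀ j g, A (dl j g) = B (dl j g)) : A = B := by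
  have key : ∀ x : LL κ G, A x = B x := by
    intro x
    have h1 := lp.hasSum_single (p := 2) (by norm_num) x
    have hA := A.hasSum h1
    have hB := B.hasSum h1
    refine hA.unique ?_
    convert hB using 1
    funext p
    have h2 : (lp.single 2 p (x p) : LL κ G) = x p • dl p.1 p.2 := by
      unfold dl
      rw [← lp.single_smul]
      simp
    rw [h2, map_smul, map_smul, h]
  exact ContinuousLinearMap.ext key

variable [Fintype κ] [Fintype ν]

/-- the trace -/
noncomputable def tr (A : LL κ G →L[ℂ] LL κ G) : ℂ := ∑ j, A (dl j 1) (j, 1)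

theorem tr_sub (A B : LL κ G →L[ℂ] LL κ G) : tr (A - B) = tr A - tr B := by
  unfold tr
  rw [← Finset.sum_sub_distrib]
  rfl

theorem tr_smul (c : ℂ) (A : LL κ G →L[ℂ] LL κ G) : tr (c • A) = c * tr A := by
  unfold tr
  rw [Finset.mul_sum]
  rfl

theorem tr_one : tr (1 : LL κ G →L[ℂ] LL κ G) = Fintype.card κ := by
  unfold tr
  have : ∀ j : κ, (1 : LL κ G →L[ℂ] LL κ G) (dl j 1) (j, 1) = 1 := by
    intro j
    rw [← inner_dl]
    show inner ℂ (dl j 1 : LL κ G) (dl j 1) = 1
    rw [inner_self_eq_norm_sq_to_K, norm_dl]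
    simp
  rw [Finset.sum_congr rfl fun j _ => this j]
  simp

theorem tr_comp (A : LL ν G →L[ℂ] LL κ G) (B : LL κ G →L[ℂ] LL ν G) (hA : Eqv A) :
    tr (A ∘L B) = ∑ j, ∑ i, ∑' h : G, A (dl i 1) (j, h⁻¹) * B (dl j 1) (i, h) := by
  unfold tr
  apply Finset.sum_congr rfl
  intro j _
  show A (B (dl j 1)) (j, 1) = _
  rw [← inner_dl, ← ContinuousLinearMap.adjoint_inner_left]
  have hs := (lp.hasSum_inner (𝕜 := ℂ) (ContinuousLinearMap.adjoint A (dl j 1)) (B (dl j 1)))
  rw [← hs.tsum_eq, hs.summable.tsum_prod, tsum_fintype]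
  apply Finset.sum_congr rfl
  intro i _
  apply tsum_congr
  intro h
  rw [RCLike.inner_apply, mul_comm]
  congr 1
  rw [← inner_dl i h, ContinuousLinearMap.adjoint_inner_right, inner_conj_symm, inner_dl]
  rw [show (dl i h : LL ν G) = Tr h (dl i 1) by rw [Tr_dl, mul_one], hA, Tr_apply, mul_one]

/-- the trace property -/
theorem tr_comm (A : LL ν G →L[ℂ] LL κ G) (B : LL κ G →L[ℂ] LL ν G) (hA : Eqv A) (hB : Eqv B) :
    tr (A ∘L B) = tr (B ∘L A) := by
  rw [tr_comp A B hA, tr_comp B A hB, Finset.sum_comm]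
  apply Finset.sum_congr rfl
  intro i _
  apply Finset.sum_congr rfl
  intro j _
  rw [← (Equiv.inv G).tsum_eq]
  apply tsum_congr
  intro h
  rw [mul_comm]
  simp

end Delta

end Pool.Agent.H78.RA

end

section

/-!
# Rank-nullity, monotonicity and faithfulness of the von Neumann dimension
-/

set_option autoImplicit false
set_option linter.unusedSectionVars false

namespace Pool.Agent.H78.RA

open Filter Topology
open Pool.Agent.H4.Atiyah
open scoped ComplexConjugate

variable {κ ν μ G : Type*} [Group G]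

/-- the kernel of an operator -/
def kr (A : LL κ G →L[ℂ] LL ν G) : Submodule ℂ (LL κ G) where
  carrier := {x | A x = 0}
  add_mem' := by
    intro x y hx hy
    show A (x + y) = 0
    rw [map_add, show A x = 0 from hx, show A y = 0 from hy, add_zero]
  zero_mem' := map_zero A
  smul_mem' := by
    intro c x hx
    show A (c • x) = 0
    rw [map_smul, show A x = 0 from hx, smul_zero]

theorem mem_kr (A : LL κ G →L[ℂ] LL ν G) (x : LL κ G) : x ∈ kr A ↔ A x = 0 := Iff.rfl

theorem isClosed_kr (A : LL κ G →L[ℂ] LL ν G) : IsClosed (kr A : Set (LL κ G)) :=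
  isClosed_eq A.continuous continuous_const

instance (A : LL κ G →L[ℂ] LL ν G) : (kr A).HasOrthogonalProjection := by
  have : CompleteSpace (kr A) := (isClosed_kr A).completeSpace_coe
  infer_instance

/-- invariant subspaces -/
def Inv (K : Submodule ℂ (LL κ G)) : Prop := ∀ (g : G), ∀ x ∈ K, Tr g x ∈ K

theorem Inv.kr {A : LL κ G →L[ℂ] LL ν G} (hA : Eqv A) : Inv (kr A) := by
  intro g x hx
  rw [mem_kr, hA, (mem_kr A x).1 hx, map_zero]

theorem Inv.orth {K : Submodule ℂ (LL κ G)} (hK : Inv K) : Inv Kᗮ := by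
  intro g x hx
  rw [Submodule.mem_orthogonal]
  intro u hu
  have := (Submodule.mem_orthogonal K x).1 hx _ (hK g⁻¹ u hu)
  rwa [Tr_adj, inv_inv] at this

theorem eqv_proj {K : Submodule ℂ (LL κ G)} [K.HasOrthogonalProjection] (hK : Inv K) :
    Eqv K.starProjection := by
  intro g x
  apply Submodule.eq_starProjection_of_mem_of_inner_eq_zero
  · exact hK g _ (Submodule.starProjection_apply_mem _ _)
  · intro w hw
    rw [← map_sub, Tr_adj]
    exact Submodule.starProjection_inner_eq_zero _ _ (hK _ w hw)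

section GDim

variable [DecidableEq κ] [DecidableEq ν] [DecidableEq G] [Fintype κ] [Fintype ν]

/-- the von Neumann dimension -/
noncomputable def gdim (K : Submodule ℂ (LL κ G)) [K.HasOrthogonalProjection] : ℝ :=
  ∑ j, ‖K.starProjection (dl j 1 : LL κ G)‖ ^ 2

theorem gdim_congr {K K' : Submodule ℂ (LL κ G)} [K.HasOrthogonalProjection]
    [K'.HasOrthogonalProjection] (h : K = K') : gdim K = gdim K' := by
  subst h
  rfl

theorem norm_proj_le {K K' : Submodule ℂ (LL κ G)} [K.HasOrthogonalProjection]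
    [K'.HasOrthogonalProjection] (h : K ≤ K') (x : LL κ G) :
    ‖K.starProjection x‖ ≤ ‖K'.starProjection x‖ := by
  have h1 : K.starProjection x = K.starProjection (K'.starProjection x) := by
    have := Submodule.starProjection_comp_starProjection_of_le h
    exact (congrArg (fun A => A x) this).symm
  rw [h1]
  exact Submodule.norm_starProjection_apply_le _ _

theorem gdim_mono {K K' : Submodule ℂ (LL κ G)} [K.HasOrthogonalProjection]
    [K'.HasOrthogonalProjection] (h : K ≤ K') : gdim K ≤ gdim K' := by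
  unfold gdim
  apply Finset.sum_le_sum
  intro j _
  have := norm_proj_le h (dl j 1 : LL κ G)
  gcongr

theorem gdim_orth (K : Submodule ℂ (LL κ G)) [K.HasOrthogonalProjection] :
    gdim Kᗮ = Fintype.card κ - gdim K := by
  unfold gdim
  rw [eq_sub_iff_add_eq, ← Finset.sum_add_distrib]
  have : ∀ j : κ, ‖Kᗮ.starProjection (dl j 1 : LL κ G)‖ ^ 2
      + ‖K.starProjection (dl j 1 : LL κ G)‖ ^ 2 = 1 := by
    intro j
    have h1 := Submodule.norm_sq_eq_add_norm_sq_starProjection (dl j 1 : LL κ G) K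
    rw [norm_dl] at h1
    linarith
  rw [Finset.sum_congr rfl fun j _ => this j]
  simp

theorem infDist_eq (K : Submodule ℂ (LL κ G)) [K.HasOrthogonalProjection] (x : LL κ G) :
    ‖x‖ ^ 2 - Metric.infDist x (K : Set (LL κ G)) ^ 2 = ‖K.starProjection x‖ ^ 2 := by
  have h1 : Metric.infDist x (K : Set (LL κ G)) = ‖x - K.starProjection x‖ := by
    rw [Submodule.starProjection_minimal, Metric.infDist_eq_iInf]
    simp_rw [dist_eq_norm]
    rfl
  have h2 := Submodule.norm_sq_eq_add_norm_sq_starProjection x K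
  rw [h1, h2, Submodule.starProjection_orthogonal_val]
  ring

/-- traces of the powers of `1 - T† T / c` and `1 - T T† / c` -/
theorem tr_pow (T : LL κ G →L[ℂ] LL ν G) (hT : Eqv T) (c : ℝ) (n : ℕ) :
    tr (Sop T (ContinuousLinearMap.adjoint T) c ^ n) - Fintype.card κ
      = tr (Sop (ContinuousLinearMap.adjoint T) T c ^ n) - Fintype.card ν := by
  set T' := ContinuousLinearMap.adjoint T with hT'
  have eT' : Eqv T' := hT.adjoint
  have eS : Eqv (Sop T T' c) := Eqv.one.sub ((eT'.comp hT).smul _)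
  have eS' : Eqv (Sop T' T c) := Eqv.one.sub ((hT.comp eT').smul _)
  have ePow : ∀ n : ℕ, Eqv (Sop T' T c ^ n) := by
    intro n
    induction n with
    | zero => rw [pow_zero]; exact Eqv.one
    | succ n ih => rw [pow_succ]; exact ih.comp eS'
  have hcomm : ∀ n : ℕ, (Sop T T' c ^ n) ∘L T' = T' ∘L (Sop T' T c ^ n) := by
    intro n
    induction n with
    | zero => rfl
    | succ n ih =>
      have h1 : (Sop T T' c ^ (n + 1)) ∘L T' = (Sop T T' c ^ n) ∘L (Sop T T' c ∘L T') := by
        rw [pow_succ]; rfl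
      have h2 : Sop T T' c ∘L T' = T' ∘L Sop T' T c := by
        ext1 x
        show Sop T T' c (T' x) = T' (Sop T' T c x)
        rw [Sop_apply, Sop_apply, map_sub, map_smul]
      have h3 : T' ∘L (Sop T' T c ^ (n + 1)) = (T' ∘L (Sop T' T c ^ n)) ∘L Sop T' T c := by
        rw [pow_succ]; rfl
      rw [h1, h2, h3, ← ih]
      rfl
  induction n with
  | zero => rw [pow_zero, pow_zero, tr_one, tr_one, sub_self, sub_self]
  | succ n ih =>
    have h1 : Sop T T' c ^ (n + 1) = Sop T T' c ^ n
        - ((c⁻¹ : ℝ) : ℂ) • ((T' ∘L (Sop T' T c ^ n)) ∘L T) := by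
      rw [← hcomm, pow_succ]
      ext1 x
      show (Sop T T' c ^ n) (Sop T T' c x) = (Sop T T' c ^ n) x
        - ((c⁻¹ : ℝ) : ℂ) • ((Sop T T' c ^ n) (T' (T x)))
      rw [Sop_apply, map_sub, map_smul]
    have h2 : Sop T' T c ^ (n + 1) = Sop T' T c ^ n
        - ((c⁻¹ : ℝ) : ℂ) • (T ∘L (T' ∘L (Sop T' T c ^ n))) := by
      rw [pow_succ']
      ext1 x
      show Sop T' T c ((Sop T' T c ^ n) x) = _
      rw [Sop_apply]
      rfl
    rw [h1, h2, tr_sub, tr_sub, tr_smul, tr_smul, tr_comm _ T (eT'.comp (ePow n)) hT]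
    linear_combination ih

theorem tr_Sop (T : LL κ G →L[ℂ] LL ν G) (c : ℝ) (m : ℕ) :
    tr (Sop T (ContinuousLinearMap.adjoint T) c ^ (m + m))
      = ((∑ j, bet T (ContinuousLinearMap.adjoint T) c (dl j 1) m : ℝ) : ℂ) := by
  unfold tr
  rw [Complex.ofReal_sum]
  apply Finset.sum_congr rfl
  intro j _
  have hadj : ∀ x y, (inner ℂ (T x) y) = (inner ℂ x (ContinuousLinearMap.adjoint T y)) :=
    fun x y => (ContinuousLinearMap.adjoint_inner_right T x y).symm
  rw [← inner_pow hadj (dl j 1) (a := 0) (b := m + m) (m := m) (by omega), pow_zero, ← inner_dl]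
  rfl

theorem tendsto_gdim (T : LL κ G →L[ℂ] LL ν G) {c : ℝ} (hc : 0 < c) (hcT : ‖T‖ ^ 2 ≤ c) :
    Tendsto (fun m => ∑ j, bet T (ContinuousLinearMap.adjoint T) c (dl j 1) m) atTop
      (𝓝 (gdim (kr T))) := by
  unfold gdim
  apply tendsto_finsetSum
  intro j _
  have hadj : ∀ x y, (inner ℂ (T x) y) = (inner ℂ x (ContinuousLinearMap.adjoint T y)) :=
    fun x y => (ContinuousLinearMap.adjoint_inner_right T x y).symm
  have hb : ∀ y, ‖ContinuousLinearMap.adjoint T y‖ ^ 2 ≤ c * ‖y‖ ^ 2 := by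
    intro y
    have h1 := (ContinuousLinearMap.adjoint T).le_opNorm y
    rw [LinearIsometryEquiv.norm_map] at h1
    calc ‖ContinuousLinearMap.adjoint T y‖ ^ 2 ≤ (‖T‖ * ‖y‖) ^ 2 := by gcongr
      _ = ‖T‖ ^ 2 * ‖y‖ ^ 2 := by ring
      _ ≤ c * ‖y‖ ^ 2 := by gcongr
  have h := tendsto_bet hadj hc hb (dl j 1 : LL κ G)
  rwa [show {z | T z = 0} = (kr T : Set (LL κ G)) from rfl, infDist_eq] at h

/-- **Rank and nullity**: an operator and its adjoint have the same rank. -/
theorem gdim_kr (T : LL κ G →L[ℂ] LL ν G) (hT : Eqv T) :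
    Fintype.card κ - gdim (kr T)
      = Fintype.card ν - gdim (kr (ContinuousLinearMap.adjoint T)) := by
  set c : ℝ := ‖T‖ ^ 2 + 1 with hc
  have hc0 : 0 < c := by positivity
  have h1 := tendsto_gdim T hc0 (by rw [hc]; linarith)
  have h2 := tendsto_gdim (ContinuousLinearMap.adjoint T) hc0 (by
    rw [LinearIsometryEquiv.norm_map, hc]; linarith)
  rw [ContinuousLinearMap.adjoint_adjoint] at h2
  have h3 : ∀ m, ∑ j, bet T (ContinuousLinearMap.adjoint T) c (dl j 1) m - Fintype.card κ
      = ∑ j, bet (ContinuousLinearMap.adjoint T) T c (dl j 1) m - Fintype.card ν := by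
    intro m
    have h4 := tr_pow T hT c (m + m)
    rw [tr_Sop] at h4
    have h5 := tr_Sop (ContinuousLinearMap.adjoint T) c m
    rw [ContinuousLinearMap.adjoint_adjoint] at h5
    rw [h5] at h4
    exact_mod_cast h4
  have h6 := h1.sub_const (Fintype.card κ : ℝ)
  have h7 := h2.sub_const (Fintype.card ν : ℝ)
  simp_rw [h3] at h6
  have := tendsto_nhds_unique h6 h7
  linarith

/-- **Monotonicity** under injective equivariant operators. -/
theorem gdim_le_of_injOn {K : Submodule ℂ (LL κ G)} {K' : Submodule ℂ (LL ν G)}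
    [K.HasOrthogonalProjection] [K'.HasOrthogonalProjection] (hK : Inv K)
    (T : LL κ G →L[ℂ] LL ν G) (hT : Eqv T) (hmap : ∀ x ∈ K, T x ∈ K')
    (hinj : ∀ x ∈ K, T x = 0 → x = 0) : gdim K ≤ gdim K' := by
  set R : LL κ G →L[ℂ] LL ν G := T ∘L K.starProjection with hR
  have eR : Eqv R := hT.comp (eqv_proj hK)
  have h1 : kr R = Kᗮ := by
    ext x
    rw [mem_kr]
    show T (K.starProjection x) = 0 ↔ _
    rw [← Submodule.starProjection_apply_eq_zero_iff]
    constructor
    · exact hinj _ (Submodule.starProjection_apply_mem _ _)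
    · intro h
      rw [h, map_zero]
  have h2 : K'ᗮ ≤ kr (ContinuousLinearMap.adjoint R) := by
    intro y hy
    rw [mem_kr]
    apply ext_inner_right ℂ
    intro x
    rw [ContinuousLinearMap.adjoint_inner_left, inner_zero_left]
    rw [← inner_conj_symm]
    show conj (inner ℂ (T (K.starProjection x)) y) = 0
    rw [(Submodule.mem_orthogonal K' y).1 hy _ (hmap _ (Submodule.starProjection_apply_mem _ _)),
      map_zero]
  have h3 := gdim_kr R eR
  rw [gdim_congr h1, gdim_orth] at h3
  have h4 := gdim_mono h2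
  rw [gdim_orth] at h4
  linarith

/-- **Faithfulness.** -/
theorem gdim_faithful {K K' : Submodule ℂ (LL κ G)} [K.HasOrthogonalProjection]
    [K'.HasOrthogonalProjection] (hK : Inv K) (hK' : Inv K') (h : K ≤ K')
    (hd : gdim K' ≤ gdim K) : K' ≤ K := by
  have h1 : ∀ j : κ, ‖K.starProjection (dl j 1 : LL κ G)‖ ^ 2
      ≤ ‖K'.starProjection (dl j 1 : LL κ G)‖ ^ 2 := by
    intro j
    have := norm_proj_le h (dl j 1 : LL κ G)
    gcongr
  have h2 : ∀ j : κ, ‖K.starProjection (dl j 1 : LL κ G)‖ ^ 2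
      = ‖K'.starProjection (dl j 1 : LL κ G)‖ ^ 2 := by
    intro j
    have h3 := (Finset.sum_eq_sum_iff_of_le fun j _ => h1 j).1
      (le_antisymm (gdim_mono h) hd)
    exact h3 j (Finset.mem_univ _)
  have h4 : ∀ x : LL κ G, K.starProjection (K'.starProjection x) = K.starProjection x := by
    intro x
    have := Submodule.starProjection_comp_starProjection_of_le h
    exact congrArg (fun A => A x) this
  have h5 : ∀ j : κ, K.starProjection (dl j 1 : LL κ G) = K'.starProjection (dl j 1) := by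
    intro j
    have h6 := Submodule.norm_sq_eq_add_norm_sq_starProjection
      (K'.starProjection (dl j 1 : LL κ G)) K
    rw [h4, ← h2 j] at h6
    have h7 : ‖Kᗮ.starProjection (K'.starProjection (dl j 1 : LL κ G))‖ ^ 2 = 0 := by linarith
    have h8 := norm_eq_zero.1 (pow_eq_zero_iff (two_ne_zero) |>.1 h7)
    rw [Submodule.starProjection_orthogonal_val, h4, sub_eq_zero] at h8
    exact h8.symm
  have h9 : K.starProjection = K'.starProjection := by
    apply eq_of_dl
    intro j g
    rw [show (dl j g : LL κ G) = Tr g (dl j 1) by rw [Tr_dl, mul_one], eqv_proj hK, eqv_proj hK',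
      h5]
  intro x hx
  rw [← Submodule.starProjection_eq_self_iff, h9, Submodule.starProjection_eq_self_iff]
  exact hx

end GDim

section Exact

variable {κ₀ κ₁ κ₂ : Type*} [DecidableEq κ₀] [DecidableEq κ₁] [DecidableEq κ₂] [DecidableEq G]
  [Fintype κ₀] [Fintype κ₁] [Fintype κ₂]

omit [DecidableEq κ₁] [DecidableEq κ₂] [DecidableEq G] [Fintype κ₁] [Fintype κ₂] in
/-- the elements orthogonal to the kernel of the adjoint are limits of images -/
theorem exists_approx (d : LL κ₂ G →L[ℂ] LL κ₁ G) (x : LL κ₁ G)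
    (hx : x ∈ (kr (ContinuousLinearMap.adjoint d))ᗮ) (ε : ℝ) (hε : 0 < ε) :
    ∃ y, ‖x - d y‖ < ε := by
  have h1 : (LinearMap.range (d : LL κ₂ G →ₗ[ℂ] LL κ₁ G))ᗮ
      ≤ kr (ContinuousLinearMap.adjoint d) := by
    intro y hy
    rw [mem_kr]
    apply ext_inner_left ℂ
    intro w
    rw [ContinuousLinearMap.adjoint_inner_right, inner_zero_right]
    exact (Submodule.mem_orthogonal _ _).1 hy _ ⟨w, rfl⟩
  have h2 := Submodule.orthogonal_le h1 hx
  rw [Submodule.orthogonal_orthogonal_eq_closure] at h2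
  obtain ⟨_, ⟨y, rfl⟩, hy⟩ := Metric.mem_closure_iff.1 h2 ε hε
  exact ⟨y, by rwa [dist_eq_norm] at hy⟩

end Exact

end Pool.Agent.H78.RA

end

section

/-!
# Operators given by matrices of operators on `ℓ²(G)`
-/

set_option autoImplicit false
set_option linter.unusedSectionVars false

namespace Pool.Agent.H78.RA

open Filter Topology
open Pool.Agent.H4.Atiyah
open scoped ComplexConjugate

variable {κ ν μ G : Type*} [Group G]

/-- the operators on `ℓ²(G)` -/
abbrev BB (G : Type*) [Group G] := LL Unit G →L[ℂ] LL Unit G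

theorem eqv_Eop [DecidableEq κ] [DecidableEq ν] [Fintype κ] [Fintype ν] (j : κ) (i : ν) (s : G) :
    Eqv (Eop j i s : LL κ G →L[ℂ] LL ν G) := by
  intro g x
  ext p
  rw [Eop_apply, Tr_apply, Tr_apply, Eop_apply]
  simp only [mul_assoc]

section

variable [DecidableEq κ] [DecidableEq ν] [DecidableEq μ] [Fintype κ] [Fintype ν] [Fintype μ]

/-- the component with the index `j` -/
noncomputable def pr (j : κ) : LL κ G →L[ℂ] LL Unit G := Eop j () 1

/-- the inclusion of the component with the index `i` -/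
noncomputable def inc (i : ν) : LL Unit G →L[ℂ] LL ν G := Eop () i 1

theorem pr_apply (j : κ) (x : LL κ G) (g : G) : pr j x ((), g) = x (j, g) := by
  unfold pr
  rw [Eop_apply, if_pos rfl, inv_one, mul_one]

theorem pr_inc (i j : κ) (y : LL Unit G) : pr i (inc j y) = if i = j then y else 0 := by
  ext ⟨-, g⟩
  rw [pr_apply]
  unfold inc
  rw [Eop_apply, inv_one, mul_one]
  split_ifs <;> rfl

theorem ext_pr {x y : LL κ G} (h : ∀ j, pr j x = pr j y) : x = y := by
  ext ⟨j, g⟩
  rw [← pr_apply j x, h, pr_apply]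

/-- the operator of a matrix of operators -/
noncomputable def Mop (M : κ → ν → BB G) : LL κ G →L[ℂ] LL ν G :=
  ∑ j, ∑ i, inc i ∘L (M j i ∘L pr j)

theorem pr_Mop (M : κ → ν → BB G) (x : LL κ G) (i : ν) :
    pr i (Mop M x) = ∑ j, M j i (pr j x) := by
  unfold Mop
  rw [sum_apply, map_sum]
  apply Finset.sum_congr rfl
  intro j _
  rw [sum_apply, map_sum]
  rw [Finset.sum_eq_single i]
  · show pr i (inc i (M j i (pr j x))) = _
    rw [pr_inc, if_pos rfl]
  · intro b _ hb
    show pr i (inc b (M j b (pr j x))) = 0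
    rw [pr_inc, if_neg (Ne.symm hb)]
  · simp

theorem eqv_Mop (M : κ → ν → BB G) (h : ∀ j i, Eqv (M j i)) : Eqv (Mop M) :=
  Eqv.sum _ _ fun j _ => Eqv.sum _ _ fun i _ =>
    (eqv_Eop () i 1).comp ((h j i).comp (eqv_Eop j () 1))

end

end Pool.Agent.H78.RA

end
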