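import Pool.Agent.H71.TSG.M23
import Pool.Agent.H71.TSG.M25
import Pool.Agent.H71.TSG.M55

/-! The parts of this file: H73.LK.Prod, H73.LK.Dense, H73.LK.MV, H73.LK.MVY. -/

section

/-!
# Products: the Künneth formula for the vanishing

`V = A ∪ B`, all labels between `A` and `B` are 2. A harmonic chain is harmonic in the directions of `A` and
of `B`.
-/

set_option autoImplicit false
set_option linter.unusedSectionVars false

open Finset

namespace Pool.Agent.H73.LK

open Pool.Agent.H4.FC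
open Pool.Agent.H4.Singer (adjId_summable adjId_comp l2h_mul l2h_sum l2h_add)

variable {V : Type} [Fintype V] [DecidableEq V] {M : CoxeterMatrix V}

namespace Prd

/-! ### Square summable families -/

/-- square summable families -/
def L2 (f : Finset V → M.Group → ℂ) : Prop := ∀ σ, Summable fun w => ‖f σ w‖ ^ 2

/-- the scalar product -/
noncomputable def ip (f g : Finset V → M.Group → ℂ) : ℂ :=
  ∑ τ, ∑' w, (starRingEnd ℂ) (f τ w) * g τ w

/-- the square of the norm -/
noncomputable def N (f : Finset V → M.Group → ℂ) : ℝ := ∑ τ, ∑' w, ‖f τ w‖ ^ 2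

theorem ip_self (f : Finset V → M.Group → ℂ) : ip f f = (N f : ℂ) := by
  unfold ip N
  push_cast
  refine sum_congr rfl fun τ _ => tsum_congr fun w => ?_
  rw [mul_comm, Complex.mul_conj, Complex.normSq_eq_norm_sq]
  push_cast
  rfl

theorem N_nonneg (f : Finset V → M.Group → ℂ) : 0 ≤ N f :=
  sum_nonneg fun _ _ => tsum_nonneg fun _ => sq_nonneg _

theorem eq_zero_of_N {f : Finset V → M.Group → ℂ} (hf : L2 f) (h : N f ≤ 0) (τ : Finset V)
    (w : M.Group) : f τ w = 0 := by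
  have h1 : N f = 0 := le_antisymm h (N_nonneg f)
  have h2 := (sum_eq_zero_iff_of_nonneg fun τ _ => tsum_nonneg fun w => sq_nonneg ‖f τ w‖).1 h1 τ
    (mem_univ τ)
  have h3 : ‖f τ w‖ ^ 2 ≤ ∑' w, ‖f τ w‖ ^ 2 :=
    (hf τ).le_tsum w fun _ _ => sq_nonneg _
  rw [h2] at h3
  have h4 : ‖f τ w‖ = 0 := by nlinarith [norm_nonneg (f τ w)]
  exact norm_eq_zero.1 h4

theorem ip_conj (f g : Finset V → M.Group → ℂ) : ip g f = (starRingEnd ℂ) (ip f g) := by
  unfold ip
  rw [map_sum]
  refine sum_congr rfl fun τ _ => ?_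
  rw [Complex.conj_tsum]
  refine tsum_congr fun w => ?_
  rw [map_mul, Complex.conj_conj, mul_comm]

theorem ip_add {f g h : Finset V → M.Group → ℂ} (hf : L2 f) (hg : L2 g) (hh : L2 h) :
    ip f (fun τ w => g τ w + h τ w) = ip f g + ip f h := by
  unfold ip
  rw [← sum_add_distrib]
  refine sum_congr rfl fun τ _ => ?_
  rw [← (adjId_summable (hf τ) (hg τ)).tsum_add (adjId_summable (hf τ) (hh τ))]
  exact tsum_congr fun w => mul_add _ _ _

theorem ip_neg_right (f g : Finset V → M.Group → ℂ) : ip f (fun τ w => -g τ w) = -ip f g := by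
  unfold ip
  rw [← sum_neg_distrib]
  refine sum_congr rfl fun τ _ => ?_
  rw [← tsum_neg]
  exact tsum_congr fun w => mul_neg _ _

theorem ip_neg_left (f g : Finset V → M.Group → ℂ) : ip (fun τ w => -f τ w) g = -ip f g := by
  unfold ip
  rw [← sum_neg_distrib]
  refine sum_congr rfl fun τ _ => ?_
  rw [← tsum_neg]
  refine tsum_congr fun w => ?_
  rw [map_neg, neg_mul]

theorem N_sub {f g : Finset V → M.Group → ℂ} (hf : L2 f) (hg : L2 g) (h : ip f g = 0) :
    N (fun τ w => f τ w - g τ w) = N f + N g := by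
  have h1 : N (fun τ w => f τ w - g τ w) = N f + N g - 2 * (ip f g).re := by
    unfold N ip
    rw [Complex.re_sum, mul_sum, ← sum_add_distrib, ← sum_sub_distrib]
    refine sum_congr rfl fun τ _ => ?_
    have hs := adjId_summable (hf τ) (hg τ)
    rw [Complex.re_tsum hs, ← tsum_mul_left, ← (hf τ).tsum_add (hg τ),
      ← ((hf τ).add (hg τ)).tsum_sub ((Complex.hasSum_re hs.hasSum).summable.mul_left 2)]
    refine tsum_congr fun w => ?_
    rw [← Complex.normSq_eq_norm_sq, ← Complex.normSq_eq_norm_sq, ← Complex.normSq_eq_norm_sq,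
      Complex.normSq_sub]
    have h2 : ((starRingEnd ℂ) (f τ w) * g τ w).re = (f τ w * (starRingEnd ℂ) (g τ w)).re := by
      simp only [Complex.mul_re, Complex.conj_re, Complex.conj_im]
      ring
    rw [h2]
  rw [h1, h, Complex.zero_re, mul_zero, sub_zero]

/-! ### The operators -/

/-- the sign -/
noncomputable def s1 (ν : V → ℕ) (τ : Finset V) (v : V) : ℂ :=
  (-1 : ℂ) ^ (τ.filter fun u => ν u < ν v).card

theorem s1_conj (ν : V → ℕ) (τ : Finset V) (v : V) : (starRingEnd ℂ) (s1 ν τ v) = s1 ν τ v := by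
  unfold s1
  rw [map_pow, map_neg, map_one]

theorem s1_sq (ν : V → ℕ) (τ : Finset V) (v : V) : s1 ν τ v * s1 ν τ v = 1 := by
  unfold s1
  rw [← mul_pow]
  norm_num

/-- the boundary in the directions of `Y` -/
noncomputable def D (Y : Finset V) (ν : V → ℕ) (x : Finset V → M.Group → ℂ) (τ : Finset V)
    (w : M.Group) : ℂ := ∑ v ∈ Y \ τ, s1 ν τ v * x (insert v τ) w

/-- the projection to the antisymmetric functions -/
noncomputable def Pn (M : CoxeterMatrix V) (σ : Finset V) (f : M.Group → ℂ) (w : M.Group) : ℂ :=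
  (1 / ((parF M σ).card : ℂ)) * altS M (MonoidHom.id M.Group) σ f w

/-- the coboundary in the directions of `Y` -/
noncomputable def C (Y : Finset V) (ν : V → ℕ) (x : Finset V → M.Group → ℂ) (ρ : Finset V)
    (w : M.Group) : ℂ := ∑ v ∈ ρ ∩ Y, s1 ν (ρ.erase v) v * Pn M (ρ ∩ Y) (x (ρ.erase v)) w

theorem Pn_eq (σ : Finset V) (f : M.Group → ℂ) (w : M.Group) :
    Pn M σ f w = (1 / ((parF M σ).card : ℂ)) * ∑ u ∈ parF M σ, (eps M u : ℂ) * f (w * u) := rfl

theorem Pn_l2 (σ : Finset V) {f : M.Group → ℂ} (hf : Summable fun w => ‖f w‖ ^ 2) :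
    Summable fun w => ‖Pn M σ f w‖ ^ 2 := by
  simp only [Pn_eq]
  exact l2h_mul _ (l2h_sum _ _ fun u _ => l2h_mul _ (adjId_comp (Equiv.mulRight u) hf))

theorem D_l2 (Y : Finset V) (ν : V → ℕ) {x : Finset V → M.Group → ℂ} (hx : L2 x) :
    L2 (D Y ν x) := fun _ => l2h_sum _ _ fun _ _ => l2h_mul _ (hx _)

theorem C_l2 (Y : Finset V) (ν : V → ℕ) {x : Finset V → M.Group → ℂ} (hx : L2 x) :
    L2 (C Y ν x) := fun _ => l2h_sum _ _ fun _ _ => l2h_mul _ (Pn_l2 _ (hx _))

theorem Pn_adj {σ : Finset V} {f g : M.Group → ℂ} (hf : Summable fun x => ‖f x‖ ^ 2)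
    (hg : Summable fun x => ‖g x‖ ^ 2) (hσ : Sph M σ)
    (hanti : ∀ v ∈ σ, ∀ x, g (x * M.simple v) = - g x) :
    ∑' x, (starRingEnd ℂ) (Pn M σ f x) * g x = ∑' x, (starRingEnd ℂ) (f x) * g x := by
  have hc : ((parF M σ).card : ℂ) ≠ 0 := Nat.cast_ne_zero.2 (parF_card_pos hσ).ne'
  have h1 : ∀ x, (starRingEnd ℂ) (Pn M σ f x) * g x = (1 / ((parF M σ).card : ℂ)) *
      ∑ u ∈ parF M σ, (eps M u : ℂ) * ((starRingEnd ℂ) (f (x * u)) * g x) := by
    intro x
    rw [Pn_eq, map_mul, map_sum, mul_assoc, sum_mul, map_div₀, map_one, Complex.conj_natCast]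
    congr 1
    refine sum_congr rfl fun u _ => ?_
    rw [map_mul, map_intCast]
    ring
  have h2 : ∀ u : M.Group, Summable fun x => (starRingEnd ℂ) (f (x * u)) * g x :=
    fun u => adjId_summable (adjId_comp (Equiv.mulRight u) hf) hg
  have h3 : ∀ u ∈ parF M σ, ∑' x, (eps M u : ℂ) * ((starRingEnd ℂ) (f (x * u)) * g x) =
      ∑' x, (starRingEnd ℂ) (f x) * g x := by
    intro u hu
    have hu' := (mem_parF hσ u).1 hu
    rw [← (Equiv.mulRight u).tsum_eq fun x => (starRingEnd ℂ) (f x) * g x]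
    refine tsum_congr fun x => ?_
    have h4 := anti_ext M σ (MonoidHom.id M.Group) g hanti u hu' x
    rw [MonoidHom.id_apply] at h4
    rw [Equiv.coe_mulRight, h4]
    ring
  rw [tsum_congr h1, tsum_mul_left, Summable.tsum_finsetSum fun u _ => (h2 u).mul_left _,
    sum_congr rfl h3, sum_const, nsmul_eq_mul, ← mul_assoc, one_div, inv_mul_cancel₀ hc, one_mul]

/-- the adjoint of `D` -/
theorem ip_D (Y : Finset V) (ν : V → ℕ) {h c : Finset V → M.Group → ℂ} (hh : L2 h) (hc : L2 c)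
    (hsph : ∀ ρ, c ρ ≠ 0 → Sph M (ρ ∩ Y))
    (hanti : ∀ ρ, ∀ v ∈ ρ ∩ Y, ∀ w, c ρ (w * M.simple v) = - c ρ w) :
    ip h (D Y ν c) = ip (C Y ν h) c := by
  have h1 : ∀ τ : Finset V, ∑' w, (starRingEnd ℂ) (h τ w) * D Y ν c τ w =
      ∑ v ∈ Y \ τ, s1 ν τ v * ∑' w, (starRingEnd ℂ) (h τ w) * c (insert v τ) w := by
    intro τ
    have e1 : ∀ w, (starRingEnd ℂ) (h τ w) * D Y ν c τ w =
        ∑ v ∈ Y \ τ, s1 ν τ v * ((starRingEnd ℂ) (h τ w) * c (insert v τ) w) := by
      intro w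
      unfold D
      rw [mul_sum]
      exact sum_congr rfl fun v _ => by ring
    rw [tsum_congr e1, Summable.tsum_finsetSum fun v _ => (adjId_summable (hh τ) (hc _)).mul_left _]
    exact sum_congr rfl fun v _ => tsum_mul_left
  have h2 : ∀ ρ : Finset V, ∑' w, (starRingEnd ℂ) (C Y ν h ρ w) * c ρ w =
      ∑ v ∈ ρ ∩ Y, s1 ν (ρ.erase v) v * ∑' w, (starRingEnd ℂ) (h (ρ.erase v) w) * c ρ w := by
    intro ρ
    by_cases hcρ : c ρ = 0
    · simp [hcρ]
    have hρ := hsph ρ hcρ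
    have e1 : ∀ w, (starRingEnd ℂ) (C Y ν h ρ w) * c ρ w =
        ∑ v ∈ ρ ∩ Y, s1 ν (ρ.erase v) v *
          ((starRingEnd ℂ) (Pn M (ρ ∩ Y) (h (ρ.erase v)) w) * c ρ w) := by
      intro w
      unfold C
      rw [map_sum, sum_mul]
      refine sum_congr rfl fun v _ => ?_
      rw [map_mul, s1_conj]
      ring
    rw [tsum_congr e1, Summable.tsum_finsetSum fun v _ =>
      (adjId_summable (Pn_l2 _ (hh (ρ.erase v))) (hc ρ)).mul_left _]
    refine sum_congr rfl fun v _ => ?_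
    rw [tsum_mul_left, Pn_adj (hh (ρ.erase v)) (hc ρ) hρ fun v hv x => hanti ρ v hv x]
  unfold ip
  rw [sum_congr rfl fun τ _ => h1 τ, sum_congr rfl fun ρ _ => h2 ρ, sum_sigma', sum_sigma']
  refine sum_bij' (fun p _ => ⟨insert p.2 p.1, p.2⟩) (fun p _ => ⟨p.1.erase p.2, p.2⟩)
    ?_ ?_ ?_ ?_ ?_
  · rintro ⟨τ, v⟩ hp
    simp only [mem_sigma, mem_univ, mem_sdiff, true_and] at hp
    simp [hp.1]
  · rintro ⟨ρ, v⟩ hp
    simp only [mem_sigma, mem_univ, mem_inter, true_and] at hp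
    simp [hp.2]
  · rintro ⟨τ, v⟩ hp
    simp only [mem_sigma, mem_univ, mem_sdiff, true_and] at hp
    simp [erase_insert hp.2]
  · rintro ⟨ρ, v⟩ hp
    simp only [mem_sigma, mem_univ, mem_inter, true_and] at hp
    simp [insert_erase hp.1]
  · rintro ⟨τ, v⟩ hp
    simp only [mem_sigma, mem_univ, mem_sdiff, true_and] at hp
    simp only [erase_insert hp.2]

/-! ### Products -/

section

variable {A B : Finset V}

theorem simple_comm {u v : V} (h : M u v = 2) : M.simple u * M.simple v = M.simple v * M.simple u := by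
  have h1 := M.toCoxeterSystem.simple_mul_simple_pow u v
  rw [h, pow_two, M.toCoxeterSystem_simple] at h1
  have h2 := eq_inv_of_mul_eq_one_left h1
  rwa [mul_inv_rev, simple_inv, simple_inv] at h2

theorem par_comm {σ : Finset V} {v : V} (h : ∀ u ∈ σ, M u v = 2) {u : M.Group}
    (hu : u ∈ par M σ) : u * M.simple v = M.simple v * u := by
  refine par_induction M σ (p := fun u => u * M.simple v = M.simple v * u) ?_ ?_ u hu
  · rw [one_mul, mul_one]
  · intro a ha w hw
    rw [mul_assoc, hw, ← mul_assoc, simple_comm (h a ha), mul_assoc]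

theorem sph_union {σ τ : Finset V} (h : ∀ u ∈ σ, ∀ v ∈ τ, M u v = 2) (hσ : Sph M σ)
    (hτ : Sph M τ) : Sph M (σ ∪ τ) := by
  have h1 : (par M (σ ∪ τ) : Set M.Group) ⊆
      (fun p : M.Group × M.Group => p.1 * p.2) '' ((par M σ : Set M.Group) ×ˢ (par M τ)) := by
    intro w hw
    refine par_induction M (σ ∪ τ) (p := fun w => w ∈ (fun p : M.Group × M.Group => p.1 * p.2) ''
      ((par M σ : Set M.Group) ×ˢ (par M τ))) ?_ ?_ w hw
    · exact ⟨(1, 1), ⟨one_mem _, one_mem _⟩, one_mul 1⟩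
    · rintro v hv w ⟨⟨a, b⟩, ⟨ha, hb⟩, rfl⟩
      rcases mem_union.1 hv with hv | hv
      · exact ⟨(M.simple v * a, b), ⟨mul_mem (simple_mem_par M hv) ha, hb⟩, mul_assoc _ _ _⟩
      · refine ⟨(a, M.simple v * b), ⟨ha, mul_mem (simple_mem_par M hv) hb⟩, ?_⟩
        show a * (M.simple v * b) = M.simple v * (a * b)
        rw [← mul_assoc, par_comm (fun u hu => h u hu v hv) ha, mul_assoc]
  have h2 : (par M (σ ∪ τ) : Set M.Group).Finite := by
    refine Set.Finite.subset (Set.Finite.image _ (Set.Finite.prod ?_ ?_)) h1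
    · have : Finite (par M σ) := hσ
      exact Set.toFinite _
    · have : Finite (par M τ) := hτ
      exact Set.toFinite _
  exact h2.to_subtype

theorem Pn_mul {σ : Finset V} (hσ : Sph M σ) {v : V} (h : ∀ u ∈ σ, M u v = 2) {f : M.Group → ℂ}
    (hf : ∀ w, f (w * M.simple v) = -f w) (w : M.Group) :
    Pn M σ f (w * M.simple v) = -Pn M σ f w := by
  rw [Pn_eq, Pn_eq, ← mul_neg, ← sum_neg_distrib]
  congr 1
  refine sum_congr rfl fun u hu => ?_
  rw [mul_assoc, ← par_comm h ((mem_parF hσ u).1 hu), ← mul_assoc, hf, mul_neg]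

theorem Pn_anti {σ : Finset V} (hσ : Sph M σ) {v : V} (hv : v ∈ σ) (f : M.Group → ℂ)
    (w : M.Group) : Pn M σ f (w * M.simple v) = -Pn M σ f w := by
  unfold Pn
  have h1 := altS_anti M (MonoidHom.id M.Group) hσ f hv w
  rw [MonoidHom.id_apply] at h1
  rw [h1, mul_neg]

theorem Pn_not {σ : Finset V} (hσ : ¬ Sph M σ) (f : M.Group → ℂ) (w : M.Group) :
    Pn M σ f w = 0 := by
  have h1 : parF M σ = ∅ := by
    unfold parF
    rw [dif_neg]
    intro h
    exact hσ h.to_subtype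
  rw [Pn_eq, h1, sum_empty, mul_zero]

theorem Pn_zero {σ : Finset V} {f : M.Group → ℂ} (hf : f = 0) (w : M.Group) :
    Pn M σ f w = 0 := by
  rw [Pn_eq, hf]
  simp

theorem Pn_lin {σ : Finset V} {ι : Type} (s : Finset ι) (a : ι → ℂ) (f : ι → M.Group → ℂ)
    (w : M.Group) : Pn M σ (fun w => ∑ i ∈ s, a i * f i w) w = ∑ i ∈ s, a i * Pn M σ (f i) w := by
  simp only [Pn_eq, mul_sum]
  rw [sum_comm]
  refine sum_congr rfl fun i _ => sum_congr rfl fun u _ => ?_
  ring

/-- the coboundary of a chain is a chain -/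
theorem C_chain (hu : A ∪ B = univ) (h2 : ∀ u ∈ A, ∀ v ∈ B, M u v = 2) (ν : V → ℕ) {i : ℕ}
    {x : Finset V → M.Group → ℂ} (hx : IsL2Chain M i x) : IsL2Chain M (i + 1) (C B ν x) := by
  have hAB : ∀ ρ : Finset V, ∀ v ∈ ρ, v ∉ B → v ∈ A := by
    intro ρ v _ hv
    have h3 : v ∈ A ∪ B := hu ▸ mem_univ v
    exact (mem_union.1 h3).resolve_right hv
  refine ⟨fun ρ w h => ?_, fun ρ v hv w => ?_, C_l2 B ν hx.l2⟩
  · obtain ⟨v, hv, h3⟩ := exists_ne_zero_of_sum_ne_zero h
    have h4 := right_ne_zero_of_mul h3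
    obtain ⟨hvρ, hvB⟩ := mem_inter.1 hv
    have hsB : Sph M (ρ ∩ B) := by
      by_contra h5
      exact h4 (Pn_not h5 _ w)
    have hx0 : x (ρ.erase v) ≠ 0 := fun h5 => h4 (Pn_zero h5 w)
    obtain ⟨w', hw'⟩ := Function.ne_iff.1 hx0
    obtain ⟨h6, h7⟩ := hx.supp _ _ hw'
    refine ⟨?_, ?_⟩
    · have hsA : Sph M (ρ \ B) := h6.mono fun u hu => by
        obtain ⟨h8, h9⟩ := mem_sdiff.1 hu
        exact mem_erase.2 ⟨fun h => h9 (h ▸ hvB), h8⟩
      have h8 := sph_union (fun u hu v hv => h2 u (hAB ρ u (mem_sdiff.1 hu).1 (mem_sdiff.1 hu).2) v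
        (mem_inter.1 hv).2) hsA hsB
      have h9 : ρ \ B ∪ ρ ∩ B = ρ := sdiff_union_inter ρ B
      rwa [h9] at h8
    · rw [card_erase_of_mem hvρ] at h7
      have := card_pos.2 ⟨v, hvρ⟩
      omega
  · unfold C
    rw [← sum_neg_distrib]
    refine sum_congr rfl fun v' hv' => ?_
    rw [← mul_neg]
    congr 1
    by_cases hs : Sph M (ρ ∩ B)
    · by_cases hvB : v ∈ B
      · exact Pn_anti hs (mem_inter.2 ⟨hv, hvB⟩) _ w
      · have hvA := hAB ρ v hv hvB
        refine Pn_mul hs (fun u hu => ?_) (fun w => ?_) w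
        · rw [M.symmetric]
          exact h2 v hvA u (mem_inter.1 hu).2
        · refine hx.anti _ v (mem_erase.2 ⟨fun h => hvB (h ▸ (mem_inter.1 hv').2), hv⟩) w
    · rw [Pn_not hs, Pn_not hs, neg_zero]

theorem s1_swap {ν : V → ℕ} (hν : Function.Injective ν) {ρ : Finset V} {u v : V} (hu : u ∉ ρ)
    (hv : v ∉ ρ) (huv : u ≠ v) :
    s1 ν (insert v ρ) u * s1 ν (insert u ρ) v = -(s1 ν ρ v * s1 ν ρ u) := by
  unfold s1
  rw [filter_insert, filter_insert]
  rcases lt_or_gt_of_ne (fun h => huv (hν h) : ν u ≠ ν v) with h | h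
  · rw [if_pos h, if_neg (not_lt.2 h.le), card_insert_of_notMem (fun h1 => hu (mem_filter.1 h1).1)]
    ring
  · rw [if_neg (not_lt.2 h.le), if_pos h, card_insert_of_notMem (fun h1 => hv (mem_filter.1 h1).1)]
    ring

/-- the cross terms cancel -/
theorem DC (hd : Disjoint A B) {ν : V → ℕ} (hν : Function.Injective ν)
    (x : Finset V → M.Group → ℂ) (τ : Finset V) (w : M.Group) :
    C B ν (D A ν x) τ w = -D A ν (C B ν x) τ w := by
  have h1 : C B ν (D A ν x) τ w = ∑ v ∈ τ ∩ B, ∑ u ∈ A \ τ, s1 ν (τ.erase v) v *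
      (s1 ν (τ.erase v) u * Pn M (τ ∩ B) (x (insert u (τ.erase v))) w) := by
    unfold C
    refine sum_congr rfl fun v hv => ?_
    obtain ⟨hvτ, hvB⟩ := mem_inter.1 hv
    have h2 : A \ τ.erase v = A \ τ := by
      ext u
      simp only [mem_sdiff, mem_erase, not_and]
      constructor
      · rintro ⟨hu, h3⟩
        exact ⟨hu, h3 fun h => disjoint_left.1 hd hu (h ▸ hvB)⟩
      · rintro ⟨hu, h3⟩
        exact ⟨hu, fun _ => h3⟩
    have h3 : D A ν x (τ.erase v) = fun w => ∑ u ∈ A \ τ, s1 ν (τ.erase v) u *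
        x (insert u (τ.erase v)) w := by
      funext w
      unfold D
      rw [h2]
    rw [h3, Pn_lin, mul_sum]
  have h2 : D A ν (C B ν x) τ w = ∑ u ∈ A \ τ, ∑ v ∈ τ ∩ B, s1 ν τ u *
      (s1 ν (insert u (τ.erase v)) v * Pn M (τ ∩ B) (x (insert u (τ.erase v))) w) := by
    unfold D C
    refine sum_congr rfl fun u hu => ?_
    obtain ⟨huA, huτ⟩ := mem_sdiff.1 hu
    have huB : u ∉ B := disjoint_left.1 hd huA
    rw [insert_inter_of_notMem huB, mul_sum]
    refine sum_congr rfl fun v hv => ?_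
    have huv : u ≠ v := fun h => huB (h ▸ (mem_inter.1 hv).2)
    rw [erase_insert_of_ne huv]
  rw [h1, h2, sum_comm, ← sum_neg_distrib]
  refine sum_congr rfl fun u hu => ?_
  rw [← sum_neg_distrib]
  refine sum_congr rfl fun v hv => ?_
  obtain ⟨huA, huτ⟩ := mem_sdiff.1 hu
  obtain ⟨hvτ, hvB⟩ := mem_inter.1 hv
  have huv : u ≠ v := fun h => disjoint_left.1 hd huA (h ▸ hvB)
  have h3 := s1_swap hν (ρ := τ.erase v) (u := u) (v := v) (fun h => huτ (mem_of_mem_erase h))
    (notMem_erase v τ) huv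
  rw [insert_erase hvτ] at h3
  linear_combination (Pn M (τ ∩ B) (x (insert u (τ.erase v))) w) * h3

theorem dbd_eq (hd : Disjoint A B) (hu : A ∪ B = univ) (ν : V → ℕ)
    (x : Finset V → M.Group → ℂ) (τ : Finset V) (w : M.Group) :
    dbd ν x τ w = D A ν x τ w + D B ν x τ w := by
  have h1 : τᶜ = (A \ τ) ∪ (B \ τ) := by
    rw [← union_sdiff_distrib, hu]
    ext v
    simp
  unfold dbd D s1
  rw [h1, sum_union (hd.mono sdiff_subset sdiff_subset)]

/-- a harmonic chain is harmonic in both directions -/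
theorem harm (hd : Disjoint A B) (hu : A ∪ B = univ) (h2 : ∀ u ∈ A, ∀ v ∈ B, M u v = 2)
    {ν : V → ℕ} (hν : Function.Injective ν) {i : ℕ} {x : Finset V → M.Group → ℂ}
    (hx : IsHarmL M ν i x) :
    (∀ τ w, D A ν x τ w = 0) ∧ (∀ τ w, C A ν x τ w = 0) ∧ (∀ τ w, D B ν x τ w = 0) ∧
      ∀ τ w, C B ν x τ w = 0 := by
  have hxc := hx.chain
  have hx2 : L2 x := hxc.l2
  have h2' : ∀ u ∈ B, ∀ v ∈ A, M u v = 2 := fun u hu v hv => by
    rw [M.symmetric]
    exact h2 v hv u hu
  have hCA : IsL2Chain M (i + 1) (C A ν x) :=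
    C_chain (A := B) (B := A) (by rw [union_comm]; exact hu) h2' ν hxc
  have hCB : IsL2Chain M (i + 1) (C B ν x) := C_chain hu h2 ν hxc
  have adj : ∀ (Y : Finset V) {h c : Finset V → M.Group → ℂ} {j : ℕ}, L2 h → IsL2Chain M j c →
      ip h (D Y ν c) = ip (C Y ν h) c := by
    intro Y h c j hh hc
    refine ip_D Y ν hh hc.l2 (fun ρ hρ => ?_) fun ρ v hv w => hc.anti ρ v (mem_inter.1 hv).1 w
    obtain ⟨w, hw⟩ := Function.ne_iff.1 hρ
    exact (hc.supp ρ w hw).1.mono inter_subset_left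
  -- the coboundary
  set y : Finset V → M.Group → ℂ := fun τ w => C A ν x τ w + C B ν x τ w with hy
  have hyc : IsL2Chain M (i + 1) y := by
    refine ⟨fun σ w h => ?_, fun σ v hv w => ?_, fun σ => l2h_add (hCA.l2 σ) (hCB.l2 σ)⟩
    · by_cases h3 : C A ν x σ w = 0
      · refine hCB.supp σ w fun h4 => h ?_
        rw [hy]
        beta_reduce
        rw [h3, h4, add_zero]
      · exact hCA.supp σ w h3
    · rw [hy]
      beta_reduce
      rw [hCA.anti σ v hv w, hCB.anti σ v hv w]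
      ring
  have hxy : ip x (dbd ν y) = 0 := by
    have h3 := adj_identityL M (MonoidHom.id M.Group) ν x y hx2 hyc.l2 (fun ρ hρ => by
      obtain ⟨w, hw⟩ := Function.ne_iff.1 hρ
      exact (hyc.supp ρ w hw).1) (fun ρ v hv w => hyc.anti ρ v hv w)
    have h4 : ip x (dbd ν y) = ∑ τ : Finset V, ∑' w, (starRingEnd ℂ) (x τ w) *
        (∑ v ∈ τᶜ, (-1 : ℂ) ^ (τ.filter fun u => ν u < ν v).card * y (insert v τ) w) := rfl
    rw [h4, h3]
    refine sum_eq_zero fun ρ _ => ?_
    have h5 : ∀ w, (starRingEnd ℂ) (∑ v ∈ ρ, (-1 : ℂ) ^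
        ((ρ.erase v).filter fun u => ν u < ν v).card *
          altS M (MonoidHom.id M.Group) ρ (x (ρ.erase v)) w) * y ρ w = 0 := by
      intro w
      by_cases h6 : y ρ w = 0
      · rw [h6, mul_zero]
      · obtain ⟨h7, h8⟩ := hyc.supp ρ w h6
        rw [hx.cocyc ρ w h7 h8, map_zero, zero_mul]
    rw [tsum_congr h5, tsum_zero, mul_zero]
  have hyy : N y = 0 := by
    have h3 : dbd ν y = fun τ w => D A ν y τ w + D B ν y τ w :=
      funext fun τ => funext fun w => dbd_eq hd hu ν y τ w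
    have h4 : ip (C A ν x) y + ip (C B ν x) y = ip y y := by
      have h5 : ∀ f : Finset V → M.Group → ℂ, ip f y = (starRingEnd ℂ) (ip y f) := fun f => ip_conj y f
      have h6 : ip y y = ip y (C A ν x) + ip y (C B ν x) := by
        conv_lhs => rw [hy]
        exact ip_add hyc.l2 hCA.l2 hCB.l2
      rw [h5, h5, ← map_add, ← h6, ← ip_conj]
    rw [h3, ip_add hx2 (D_l2 A ν hyc.l2) (D_l2 B ν hyc.l2), adj A hx2 hyc, adj B hx2 hyc, h4,
      ip_self] at hxy
    exact_mod_cast hxy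
  have hy0 : ∀ τ w, C A ν x τ w = -C B ν x τ w := by
    intro τ w
    have h3 := eq_zero_of_N hyc.l2 hyy.le τ w
    rw [hy] at h3
    exact eq_neg_of_add_eq_zero_left h3
  have hd0 : ∀ τ w, D B ν x τ w = -D A ν x τ w := by
    intro τ w
    have h3 : dbd ν x τ w = 0 := congrFun (congrFun hx.cyc τ) w
    rw [dbd_eq hd hu] at h3
    exact eq_neg_of_add_eq_zero_right h3
  -- the main computation
  have hmain : ip (D A ν x) (D B ν x) = (starRingEnd ℂ) (ip (C B ν x) (C B ν x)) := by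
    rw [adj B (D_l2 A ν hx2) hxc]
    have h3 : C B ν (D A ν x) = fun τ w => -D A ν (C B ν x) τ w :=
      funext fun τ => funext fun w => DC hd hν x τ w
    rw [h3, ip_neg_left, ip_conj x, adj A hx2 hCB]
    have h4 : C A ν x = fun τ w => -C B ν x τ w := funext fun τ => funext fun w => hy0 τ w
    rw [h4, ip_neg_left, map_neg, neg_neg]
  have h3 : D B ν x = fun τ w => -D A ν x τ w := funext fun τ => funext fun w => hd0 τ w
  rw [h3, ip_neg_right, ip_self, ip_self, Complex.conj_ofReal] at hmain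
  have h4 : -N (D A ν x) = N (C B ν x) := by exact_mod_cast hmain
  have h5 := N_nonneg (D A ν x)
  have h6 := N_nonneg (C B ν x)
  have hA0 : ∀ τ w, D A ν x τ w = 0 := eq_zero_of_N (D_l2 A ν hx2) (by linarith)
  have hB0 : ∀ τ w, C B ν x τ w = 0 := eq_zero_of_N (C_l2 B ν hx2) (by linarith)
  refine ⟨hA0, fun τ w => ?_, fun τ w => ?_, hB0⟩
  · rw [hy0, hB0, neg_zero]
  · rw [hd0, hA0, neg_zero]

/-! ### One direction -/

/-- the sign of a set -/
noncomputable def kp (ν : V → ℕ) (R σ : Finset V) : ℂ := ∏ u ∈ σ, s1 ν R u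

theorem kp_sq (ν : V → ℕ) (R σ : Finset V) : kp ν R σ * kp ν R σ = 1 := by
  unfold kp
  rw [← prod_mul_distrib]
  exact prod_eq_one fun u _ => s1_sq ν R u

theorem kp_conj (ν : V → ℕ) (R σ : Finset V) : (starRingEnd ℂ) (kp ν R σ) = kp ν R σ := by
  unfold kp
  rw [map_prod]
  exact prod_congr rfl fun u _ => s1_conj ν R u

theorem kp_insert (ν : V → ℕ) (R : Finset V) {σ : Finset V} {v : V} (hv : v ∉ σ) :
    kp ν R (insert v σ) = s1 ν R v * kp ν R σ := by
  unfold kp
  rw [prod_insert hv]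

theorem s1_union (ν : V → ℕ) {σ R : Finset V} (h : Disjoint σ R) (v : V) :
    s1 ν (σ ∪ R) v = s1 ν σ v * s1 ν R v := by
  unfold s1
  rw [filter_union, card_union_of_disjoint (disjoint_filter_filter h), pow_add]

theorem reidx (hd : Disjoint A B) (hu : A ∪ B = univ) {R : Finset V} (hR : R ⊆ B)
    (F : Finset V → ℂ) :
    ∑ τ, (if τ ∩ B = R then F τ else 0) = ∑ σ, (if σ ⊆ A then F (σ ∪ R) else 0) := by
  rw [← sum_filter, ← sum_filter]
  have h1 : ∀ τ : Finset V, τ ∩ B = R → τ ∩ A ∪ R = τ := by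
    rintro τ rfl
    rw [← inter_union_distrib_left, hu, inter_univ]
  refine sum_bij' (fun τ _ => τ ∩ A) (fun σ _ => σ ∪ R) ?_ ?_ ?_ ?_ ?_
  · intro τ _
    exact mem_filter.2 ⟨mem_univ _, inter_subset_right⟩
  · intro σ hσ
    have h2 := (mem_filter.1 hσ).2
    refine mem_filter.2 ⟨mem_univ _, ?_⟩
    rw [union_inter_distrib_right, inter_eq_left.2 hR,
      disjoint_iff_inter_eq_empty.1 (hd.mono_left h2), empty_union]
  · intro τ hτ
    exact h1 τ (mem_filter.1 hτ).2
  · intro σ hσ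
    have h2 := (mem_filter.1 hσ).2
    rw [union_inter_distrib_right, inter_eq_left.2 h2,
      disjoint_iff_inter_eq_empty.1 (hd.symm.mono_left hR), union_empty]
  · intro τ hτ
    rw [h1 τ (mem_filter.1 hτ).2]

/-- a chain which is harmonic in the directions of `A` vanishes on the types with `p` elements in `A` -/
theorem one_dir (hd : Disjoint A B) (hu : A ∪ B = univ) {ν : V → ℕ} (hν : Function.Injective ν)
    {i : ℕ} {x : Finset V → M.Group → ℂ} (hx : IsL2Chain M i x) (hD : ∀ τ w, D A ν x τ w = 0)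
    (hC : ∀ τ w, C A ν x τ w = 0) {p : ℕ} (hp : VanS M A p) {R : Finset V} (hR : R ⊆ B)
    (hRp : p + R.card = i) {σ : Finset V} (hσ : σ ⊆ A) (w : M.Group) : x (σ ∪ R) w = 0 := by
  have hdis : ∀ {σ}, σ ⊆ A → Disjoint σ R := fun h => hd.mono h hR
  set f : Finset V → M.Group → ℂ := fun σ w => if σ ⊆ A then kp ν R σ * x (σ ∪ R) w else 0 with hf
  have hfc : IsL2Chain M p f := by
    refine ⟨fun σ w h => ?_, fun σ v hv w => ?_, fun σ => ?_⟩
    · rw [hf] at h
      beta_reduce at h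
      by_cases h1 : σ ⊆ A
      · rw [if_pos h1] at h
        obtain ⟨h3, h4⟩ := hx.supp _ _ (right_ne_zero_of_mul h)
        rw [card_union_of_disjoint (hdis h1)] at h4
        exact ⟨h3.mono subset_union_left, by omega⟩
      · rw [if_neg h1] at h
        exact absurd rfl h
    · rw [hf]
      beta_reduce
      split_ifs with h1
      · rw [hx.anti _ v (mem_union_left R hv) w, mul_neg]
      · rw [neg_zero]
    · rw [hf]
      by_cases h1 : σ ⊆ A
      · simp only [if_pos h1]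
        exact l2h_mul _ (hx.l2 _)
      · simp only [if_neg h1, norm_zero]
        simp
  have hfA : ∀ σ, f σ ≠ 0 → σ ⊆ A := by
    intro σ h
    by_contra h1
    refine h ?_
    funext w
    rw [hf]
    exact if_neg h1
  -- boundary of functions which are supported on subsets of `A`
  have hdA : ∀ (y : Finset V → M.Group → ℂ), (∀ σ, y σ ≠ 0 → σ ⊆ A) → ∀ σ ⊆ A, ∀ w,
      dbd ν y σ w = ∑ v ∈ A \ σ, s1 ν σ v * y (insert v σ) w := by
    intro y hy σ _ w
    rw [dbd_eq hd hu]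
    have h1 : D B ν y σ w = 0 := by
      unfold D
      refine sum_eq_zero fun v hv => ?_
      have h3 : y (insert v σ) = 0 := by
        by_contra h4
        exact disjoint_left.1 hd (hy _ h4 (mem_insert_self v σ)) (mem_sdiff.1 hv).1
      rw [h3, Pi.zero_apply, mul_zero]
    rw [h1, add_zero]
    rfl
  have hdA' : ∀ (y : Finset V → M.Group → ℂ), (∀ σ, y σ ≠ 0 → σ ⊆ A) → ∀ σ, ¬ σ ⊆ A → ∀ w,
      dbd ν y σ w = 0 := by
    intro y hy σ hσ w
    unfold dbd
    refine sum_eq_zero fun v hv => ?_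
    have h3 : y (insert v σ) = 0 := by
      by_contra h4
      exact hσ ((subset_insert v σ).trans (hy _ h4))
    rw [h3, Pi.zero_apply, mul_zero]
  have hfd : dbd ν f = 0 := by
    funext τ w
    show dbd ν f τ w = 0
    by_cases hτ : τ ⊆ A
    · rw [hdA f hfA τ hτ w]
      have h1 : ∑ v ∈ A \ τ, s1 ν τ v * f (insert v τ) w = kp ν R τ * D A ν x (τ ∪ R) w := by
        unfold D
        have h3 : A \ (τ ∪ R) = A \ τ := by
          ext v
          simp only [mem_sdiff, mem_union, not_or]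
          constructor
          · rintro ⟨h4, h5, -⟩
            exact ⟨h4, h5⟩
          · rintro ⟨h4, h5⟩
            exact ⟨h4, h5, fun h6 => disjoint_left.1 hd h4 (hR h6)⟩
        rw [h3, mul_sum]
        refine sum_congr rfl fun v hv => ?_
        obtain ⟨h4, h5⟩ := mem_sdiff.1 hv
        rw [hf]
        beta_reduce
        rw [if_pos (insert_subset h4 hτ), kp_insert ν R h5, s1_union ν (hdis hτ), insert_union]
        ring
      rw [h1, hD, mul_zero]
    · exact hdA' f hfA τ hτ w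
  have hNf : N f ≤ 0 := by
    refine le_of_forall_pos_le_add fun ε hε => ?_
    obtain ⟨y, hy, hyA, hlt⟩ := hp ν hν f hfc hfA hfd ε hε
    -- orthogonality
    set c : Finset V → M.Group → ℂ := fun ρ w =>
      if ρ ∩ B = R then kp ν R (ρ ∩ A) * y (ρ ∩ A) w else 0 with hc
    have hc2 : L2 c := by
      intro ρ
      rw [hc]
      by_cases h1 : ρ ∩ B = R
      · simp only [if_pos h1]
        exact l2h_mul _ (hy.l2 _)
      · simp only [if_neg h1, norm_zero]
        simp
    have h1 : ip x (D A ν c) = 0 := by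
      rw [ip_D A ν hx.l2 hc2 (fun ρ hρ => ?_) (fun ρ v hv w => ?_)]
      · unfold ip
        refine sum_eq_zero fun τ _ => ?_
        simp only [hC, map_zero, zero_mul, tsum_zero]
      · obtain ⟨w, hw⟩ := Function.ne_iff.1 hρ
        rw [hc] at hw
        beta_reduce at hw
        split_ifs at hw with h3
        · exact (hy.supp _ _ (right_ne_zero_of_mul hw)).1
        · exact absurd rfl hw
      · rw [hc]
        beta_reduce
        split_ifs with h3
        · rw [hy.anti _ v hv w, mul_neg]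
        · rw [neg_zero]
    have h2 : ip x (D A ν c) = ip f (dbd ν y) := by
      unfold ip
      have h3 : ∀ τ, ∑' w, (starRingEnd ℂ) (x τ w) * D A ν c τ w = if τ ∩ B = R then
          ∑' w, (starRingEnd ℂ) (x τ w) * (kp ν R (τ ∩ A) * dbd ν y (τ ∩ A) w) else 0 := by
        intro τ
        have h4 : ∀ v ∈ A \ τ, (insert v τ) ∩ B = τ ∩ B := by
          intro v hv
          exact insert_inter_of_notMem (disjoint_left.1 hd (mem_sdiff.1 hv).1)
        split_ifs with h5
        · refine tsum_congr fun w => ?_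
          congr 1
          rw [hdA y hyA _ inter_subset_right w]
          unfold D
          have h6 : A \ (τ ∩ A) = A \ τ := by
            ext v
            simp only [mem_sdiff, mem_inter, not_and]
            constructor
            · rintro ⟨h7, h8⟩
              exact ⟨h7, fun h9 => h8 h9 h7⟩
            · rintro ⟨h7, h8⟩
              exact ⟨h7, fun h9 => absurd h9 h8⟩
          rw [h6, mul_sum]
          refine sum_congr rfl fun v hv => ?_
          obtain ⟨h7, h8⟩ := mem_sdiff.1 hv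
          have h9 : (insert v τ) ∩ A = insert v (τ ∩ A) := insert_inter_of_mem h7
          have h10 : τ ∩ A ∪ R = τ := by
            rw [← h5, ← inter_union_distrib_left, hu, inter_univ]
          have h11 : s1 ν τ v = s1 ν (τ ∩ A) v * s1 ν R v := by
            rw [← s1_union ν (hdis inter_subset_right), h10]
          rw [hc]
          beta_reduce
          rw [h4 v hv, if_pos h5, h9, kp_insert ν R fun h => h8 (mem_inter.1 h).1, h11]
          linear_combination (s1 ν (τ ∩ A) v * kp ν R (τ ∩ A) * y (insert v (τ ∩ A)) w) *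
            s1_sq ν R v
        · have h6 : ∀ w, (starRingEnd ℂ) (x τ w) * D A ν c τ w = 0 := by
            intro w
            unfold D
            rw [sum_eq_zero fun v hv => ?_, mul_zero]
            rw [hc]
            beta_reduce
            rw [h4 v hv, if_neg h5, mul_zero]
          rw [tsum_congr h6, tsum_zero]
      rw [sum_congr rfl fun τ _ => h3 τ, reidx hd hu hR fun τ => ∑' w, (starRingEnd ℂ) (x τ w) *
        (kp ν R (τ ∩ A) * dbd ν y (τ ∩ A) w)]
      refine sum_congr rfl fun σ _ => ?_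
      split_ifs with h5
      · refine tsum_congr fun w => ?_
        have h6 : (σ ∪ R) ∩ A = σ := by
          rw [union_inter_distrib_right, inter_eq_left.2 h5,
            disjoint_iff_inter_eq_empty.1 (hd.symm.mono_left hR), union_empty]
        rw [h6, hf]
        beta_reduce
        rw [if_pos h5, map_mul, kp_conj]
        ring
      · have h6 : ∀ w, (starRingEnd ℂ) (f σ w) * dbd ν y σ w = 0 := by
          intro w
          rw [hdA' y hyA σ h5 w, mul_zero]
        rw [tsum_congr h6, tsum_zero]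
    have h3 : L2 (dbd ν y) := fun τ => l2h_sum _ _ fun v _ => l2h_mul _ (hy.l2 _)
    have h4 := N_sub hfc.l2 h3 (h2.symm.trans h1)
    have h5 : N (fun τ w => f τ w - dbd ν y τ w) < ε := hlt
    have h6 := N_nonneg (dbd ν y)
    linarith
  have h1 := eq_zero_of_N hfc.l2 hNf σ w
  rw [hf] at h1
  beta_reduce at h1
  rw [if_pos hσ] at h1
  refine (mul_eq_zero.1 h1).resolve_left fun h3 => ?_
  have h4 := kp_sq ν R σ
  rw [h3, zero_mul] at h4
  exact zero_ne_one h4

end

end Prd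

open Prd

/-- **Products.** -/
theorem prod {A B : Finset V} (hd : Disjoint A B) (hu : A ∪ B = univ)
    (h2 : ∀ u ∈ A, ∀ v ∈ B, M u v = 2) (i : ℕ)
    (h : ∀ p q, p + q = i → VanS M A p ∨ VanS M B q) : L2HomologyZero M i := by
  intro ν hν z hz hdz ε hε
  refine l2_hodgeL M ν hν i (fun x hx => ?_) z hz hdz ε hε
  obtain ⟨hDA, hCA, hDB, hCB⟩ := harm hd hu h2 hν hx
  funext ρ w
  show x ρ w = 0
  by_cases hρ : ρ.card = i
  · have h3 : ρ ∩ A ∪ ρ ∩ B = ρ := by rw [← inter_union_distrib_left, hu, inter_univ]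
    have h4 : Disjoint (ρ ∩ A) (ρ ∩ B) := hd.mono inter_subset_right inter_subset_right
    have h5 : (ρ ∩ A).card + (ρ ∩ B).card = i := by
      rw [← card_union_of_disjoint h4, h3, hρ]
    rcases h _ _ h5 with h6 | h6
    · have h7 := one_dir hd hu hν hx.chain hDA hCA h6 (R := ρ ∩ B) inter_subset_right h5
        (σ := ρ ∩ A) inter_subset_right w
      rwa [h3] at h7
    · have h7 := one_dir hd.symm (by rw [union_comm]; exact hu) hν hx.chain hDB hCB h6
        (R := ρ ∩ A) inter_subset_right (by omega) (σ := ρ ∩ B) inter_subset_right w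
      rwa [union_comm, h3] at h7
  · by_contra h3
    exact hρ (hx.chain.supp ρ w h3).2

end Pool.Agent.H73.LK

end

section

/-!
# A density lemma for equivariant operators

If the image of `T` is contained in the closure of the image of `S` (equivariant operators between
`ℓ²(κ × G)`, `κ` finite), then the vectors `x` for which `T x` is in the image of `S` are dense.
-/

set_option autoImplicit false
set_option linter.unusedSectionVars false

namespace Pool.Agent.H73.LK

open Filter Topology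
open Pool.Agent.H4.Atiyah Pool.Agent.H78.RA
open scoped ComplexConjugate

variable {κ₁ κ₂ κ₀ G : Type} [Group G] [DecidableEq κ₁] [DecidableEq κ₂] [DecidableEq κ₀]
  [Fintype κ₁] [Fintype κ₂] [Fintype κ₀] [DecidableEq G]

/-- the first component -/
noncomputable def fs : LL (κ₁ ⊕ κ₂) G →L[ℂ] LL κ₁ G :=
  Mop fun j i => if j = Sum.inl i then 1 else 0

/-- the second component -/
noncomputable def sn : LL (κ₁ ⊕ κ₂) G →L[ℂ] LL κ₂ G :=
  Mop fun j i => if j = Sum.inr i then 1 else 0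

theorem fs_apply (z : LL (κ₁ ⊕ κ₂) G) (p : κ₁ × G) : fs z p = z (Sum.inl p.1, p.2) := by
  have h : pr p.1 (fs z) = pr (Sum.inl p.1 : κ₁ ⊕ κ₂) z := by
    unfold fs
    rw [pr_Mop, Finset.sum_eq_single (Sum.inl p.1 : κ₁ ⊕ κ₂)]
    · rw [if_pos rfl]; rfl
    · intro b _ hb
      rw [if_neg hb]; rfl
    · intro h
      exact absurd (Finset.mem_univ _) h
  have h2 := congrArg (fun x : LL Unit G => x ((), p.2)) h
  simp only [pr_apply] at h2
  exact h2

theorem sn_apply (z : LL (κ₁ ⊕ κ₂) G) (p : κ₂ × G) : sn z p = z (Sum.inr p.1, p.2) := by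
  have h : pr p.1 (sn z) = pr (Sum.inr p.1 : κ₁ ⊕ κ₂) z := by
    unfold sn
    rw [pr_Mop, Finset.sum_eq_single (Sum.inr p.1 : κ₁ ⊕ κ₂)]
    · rw [if_pos rfl]; rfl
    · intro b _ hb
      rw [if_neg hb]; rfl
    · intro h
      exact absurd (Finset.mem_univ _) h
  have h2 := congrArg (fun x : LL Unit G => x ((), p.2)) h
  simp only [pr_apply] at h2
  exact h2

theorem eqv_fs : Eqv (fs : LL (κ₁ ⊕ κ₂) G →L[ℂ] LL κ₁ G) := by
  intro g x
  ext p
  rw [fs_apply, Tr_apply, Tr_apply, fs_apply]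

theorem eqv_sn : Eqv (sn : LL (κ₁ ⊕ κ₂) G →L[ℂ] LL κ₂ G) := by
  intro g x
  ext p
  rw [sn_apply, Tr_apply, Tr_apply, sn_apply]

theorem norm_fs (z : LL (κ₁ ⊕ κ₂) G) : ‖fs z‖ ≤ ‖z‖ := by
  apply le_of_sq_le_sq _ (norm_nonneg _)
  rw [norm_sq_lp, norm_sq_lp]
  have hz : Summable fun p => ‖z p‖ ^ 2 := (memlp_iff _).1 (lp.memℓp z)
  have hinj : Function.Injective fun p : κ₁ × G => ((Sum.inl p.1, p.2) : (κ₁ ⊕ κ₂) × G) := by
    rintro ⟨a, b⟩ ⟨c, d⟩ h
    simpa using h
  refine le_trans (le_of_eq ?_) (tsum_comp_le_tsum_of_inj hz (fun p => sq_nonneg _) hinj)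
  exact tsum_congr fun p => by rw [fs_apply]; rfl

theorem norm_sn (z : LL (κ₁ ⊕ κ₂) G) : ‖sn z‖ ≤ ‖z‖ := by
  apply le_of_sq_le_sq _ (norm_nonneg _)
  rw [norm_sq_lp, norm_sq_lp]
  have hz : Summable fun p => ‖z p‖ ^ 2 := (memlp_iff _).1 (lp.memℓp z)
  have hinj : Function.Injective fun p : κ₂ × G => ((Sum.inr p.1, p.2) : (κ₁ ⊕ κ₂) × G) := by
    rintro ⟨a, b⟩ ⟨c, d⟩ h
    simpa using h
  refine le_trans (le_of_eq ?_) (tsum_comp_le_tsum_of_inj hz (fun p => sq_nonneg _) hinj)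
  exact tsum_congr fun p => by rw [sn_apply]; rfl

/-- comparison of one projected basis vector -/
theorem proj_le {κ ν : Type} [DecidableEq κ] [DecidableEq ν] [Fintype κ] [Fintype ν]
    (K : Submodule ℂ (LL κ G)) [K.HasOrthogonalProjection]
    (K' : Submodule ℂ (LL ν G)) [K'.HasOrthogonalProjection] (A : LL κ G →L[ℂ] LL ν G)
    (hA : ∀ x, ‖A x‖ ≤ ‖x‖) (hK : ∀ x ∈ K, A x ∈ K') (j : κ) (i : ν)
    (hji : ∀ x : LL κ G, A x (i, 1) = x (j, 1)) :
    ‖K.starProjection (dl j 1 : LL κ G)‖ ^ 2 ≤ ‖K'.starProjection (dl i 1 : LL ν G)‖ ^ 2 := by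
  set u : LL κ G := K.starProjection (dl j 1) with hu
  have huK : u ∈ K := Submodule.starProjection_apply_mem _ _
  have h1 : inner ℂ (dl j 1 : LL κ G) u = ((‖u‖ ^ 2 : ℝ) : ℂ) := by
    have h2 : inner ℂ (dl j 1 - u) u = (0 : ℂ) := by
      have := Submodule.starProjection_inner_eq_zero (K := K) (dl j 1 : LL κ G) u huK
      rwa [← hu] at this
    rw [inner_sub_left, sub_eq_zero] at h2
    rw [h2, inner_self_eq_norm_sq_to_K]
    push_cast
    rfl
  have h3 : inner ℂ (dl j 1 : LL κ G) u = inner ℂ (dl i 1 : LL ν G) (A u) := by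
    rw [inner_dl, inner_dl, hji]
  have h4 : inner ℂ (dl i 1 : LL ν G) (A u) = inner ℂ (K'.starProjection (dl i 1 : LL ν G)) (A u) := by
    have h5 := Submodule.starProjection_inner_eq_zero (K := K') (dl i 1 : LL ν G) (A u) (hK u huK)
    rw [inner_sub_left, sub_eq_zero] at h5
    exact h5
  have h6 : ‖u‖ ^ 2 ≤ ‖K'.starProjection (dl i 1 : LL ν G)‖ * ‖u‖ := by
    have h7 : ((‖u‖ ^ 2 : ℝ) : ℂ) = inner ℂ (K'.starProjection (dl i 1 : LL ν G)) (A u) := by
      rw [← h1, h3, h4]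
    have h8 := norm_inner_le_norm (𝕜 := ℂ) (K'.starProjection (dl i 1 : LL ν G)) (A u)
    rw [← h7, Complex.norm_real, Real.norm_of_nonneg (sq_nonneg _)] at h8
    exact h8.trans (mul_le_mul_of_nonneg_left (hA u) (norm_nonneg _))
  rcases eq_or_ne ‖u‖ 0 with h0 | h0
  · rw [h0, sq, zero_mul]
    exact sq_nonneg _
  · have hpos : 0 < ‖u‖ := lt_of_le_of_ne (norm_nonneg _) (Ne.symm h0)
    have h9 : ‖u‖ ≤ ‖K'.starProjection (dl i 1 : LL ν G)‖ := by
      rw [sq] at h6
      exact le_of_mul_le_mul_right h6 hpos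
    gcongr

/-- the dimension of a closed subspace of a direct sum -/
theorem gdim_sum_le (K : Submodule ℂ (LL (κ₁ ⊕ κ₂) G)) [K.HasOrthogonalProjection]
    (K₁ : Submodule ℂ (LL κ₁ G)) [K₁.HasOrthogonalProjection]
    (K₂ : Submodule ℂ (LL κ₂ G)) [K₂.HasOrthogonalProjection]
    (h1 : ∀ x ∈ K, fs x ∈ K₁) (h2 : ∀ x ∈ K, sn x ∈ K₂) : gdim K ≤ gdim K₁ + gdim K₂ := by
  unfold gdim
  rw [Fintype.sum_sum_type]
  apply add_le_add
  · exact Finset.sum_le_sum fun i _ => proj_le K K₁ fs norm_fs h1 (Sum.inl i) i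
      fun x => fs_apply x (i, 1)
  · exact Finset.sum_le_sum fun i _ => proj_le K K₂ sn norm_sn h2 (Sum.inr i) i
      fun x => sn_apply x (i, 1)

theorem gdim_bot : gdim (⊥ : Submodule ℂ (LL κ₁ G)) = 0 := by
  unfold gdim
  apply Finset.sum_eq_zero
  intro j _
  rw [Submodule.starProjection_bot]
  simp

/-- An invariant subspace on which `T` is injective modulo the image of `S` is zero, if the image of
`T` is in the closure of the image of `S`. -/
theorem eq_bot (T : LL κ₁ G →L[ℂ] LL κ₀ G) (S : LL κ₂ G →L[ℂ] LL κ₀ G) (hT : Eqv T) (hS : Eqv S)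
    (h : ∀ x, T x ∈ closure (Set.range S)) (Q : Submodule ℂ (LL κ₁ G))
    [Q.HasOrthogonalProjection] (hQ : H78.RA.Inv Q) (hinj : ∀ x ∈ Q, ∀ y, T x = S y → x = 0) : Q = ⊥ := by
  set F : LL (κ₁ ⊕ κ₂) G →L[ℂ] LL κ₀ G := (T ∘L Q.starProjection) ∘L fs - S ∘L sn with hF
  have eF : Eqv F := ((hT.comp (eqv_proj hQ)).comp eqv_fs).sub (hS.comp eqv_sn)
  have hFz : ∀ z, F z = T (Q.starProjection (fs z)) - S (sn z) := fun _ => rfl
  have b1 := gdim_kr F eF
  have b2 := gdim_kr S hS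
  -- the kernels of the adjoints
  have m1 : kr (ContinuousLinearMap.adjoint S) ≤ kr (ContinuousLinearMap.adjoint F) := by
    intro y hy
    rw [mem_kr] at hy ⊢
    have horth : ∀ w ∈ closure (Set.range S), inner ℂ y w = (0 : ℂ) := by
      intro w hw
      have hcl : IsClosed {w : LL κ₀ G | inner ℂ y w = (0 : ℂ)} :=
        isClosed_eq (by fun_prop) continuous_const
      refine hcl.closure_subset_iff.2 ?_ hw
      rintro _ ⟨v, rfl⟩
      show inner ℂ y (S v) = (0 : ℂ)
      rw [← ContinuousLinearMap.adjoint_inner_left, hy, inner_zero_left]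
    apply ext_inner_right ℂ
    intro z
    rw [ContinuousLinearMap.adjoint_inner_left, inner_zero_left, hFz, inner_sub_right,
      horth _ (h _), horth _ (subset_closure ⟨_, rfl⟩), sub_zero]
  have m2 := gdim_mono m1
  -- the kernel of `F`
  have m3 : gdim (kr F) ≤ gdim Qᗮ + gdim (kr S) := by
    apply gdim_sum_le
    · intro z hz
      rw [mem_kr, hFz, sub_eq_zero] at hz
      have := hinj _ (Submodule.starProjection_apply_mem _ _) _ hz
      exact (Submodule.starProjection_apply_eq_zero_iff Q).1 this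
    · intro z hz
      rw [mem_kr, hFz, sub_eq_zero] at hz
      have h1 := hinj _ (Submodule.starProjection_apply_mem _ _) _ hz
      rw [h1, map_zero] at hz
      rw [mem_kr, ← hz]
  have m4 := gdim_orth Q
  rw [Fintype.card_sum] at b1
  push_cast at b1
  have m5 : gdim Q ≤ gdim (⊥ : Submodule ℂ (LL κ₁ G)) := by
    rw [gdim_bot]
    linarith
  have hInv : H78.RA.Inv (⊥ : Submodule ℂ (LL κ₁ G)) := by
    intro g x hx
    rw [Submodule.mem_bot] at hx ⊢
    rw [hx, map_zero]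
  exact le_bot_iff.1 (gdim_faithful hInv hQ bot_le m5)

/-- **Density.** -/
theorem dense (T : LL κ₁ G →L[ℂ] LL κ₀ G) (S : LL κ₂ G →L[ℂ] LL κ₀ G) (hT : Eqv T) (hS : Eqv S)
    (h : ∀ x, T x ∈ closure (Set.range S)) (x : LL κ₁ G) (ε : ℝ) (hε : 0 < ε) :
    ∃ x' y, ‖x - x'‖ < ε ∧ T x' = S y := by
  let M : Submodule ℂ (LL κ₁ G) :=
    { carrier := {x | ∃ y, T x = S y}
      add_mem' := by
        rintro a b ⟨y, hy⟩ ⟨y', hy'⟩
        exact ⟨y + y', by rw [map_add, map_add, hy, hy']⟩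
      zero_mem' := ⟨0, by rw [map_zero, map_zero]⟩
      smul_mem' := by
        rintro c a ⟨y, hy⟩
        exact ⟨c • y, by rw [map_smul, map_smul, hy]⟩ }
  have hM : H78.RA.Inv M := by
    rintro g a ⟨y, hy⟩
    exact ⟨Tr g y, by rw [hT, hS, hy]⟩
  have hQ : Mᗮ = ⊥ := by
    refine eq_bot T S hT hS h Mᗮ hM.orth ?_
    intro a ha y hy
    have h1 : a ∈ M := ⟨y, hy⟩
    have := (Submodule.mem_orthogonal M a).1 ha a h1
    exact inner_self_eq_zero.1 this
  have h2 : x ∈ Mᗮᗮ := by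
    rw [hQ, Submodule.bot_orthogonal_eq_top]
    trivial
  rw [Submodule.orthogonal_orthogonal_eq_closure] at h2
  obtain ⟨x', ⟨y, hy⟩, hx'⟩ := Metric.mem_closure_iff.1 h2 ε hε
  exact ⟨x', y, by rwa [dist_eq_norm] at hx', hy⟩

/-- **Density**, for invariant closed subspaces. -/
theorem dense_on (T : LL κ₁ G →L[ℂ] LL κ₀ G) (S : LL κ₂ G →L[ℂ] LL κ₀ G) (hT : Eqv T)
    (hS : Eqv S) (H : Submodule ℂ (LL κ₁ G)) [H.HasOrthogonalProjection] (hH : H78.RA.Inv H)
    (C : Submodule ℂ (LL κ₂ G)) [C.HasOrthogonalProjection] (hC : H78.RA.Inv C)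
    (h : ∀ x ∈ H, ∀ ε : ℝ, 0 < ε → ∃ y ∈ C, ‖T x - S y‖ < ε) (x : LL κ₁ G) (hx : x ∈ H)
    (ε : ℝ) (hε : 0 < ε) : ∃ x' ∈ H, ∃ y ∈ C, ‖x - x'‖ < ε ∧ T x' = S y := by
  obtain ⟨x', y, h1, h2⟩ := dense (T ∘L H.starProjection) (S ∘L C.starProjection)
    (hT.comp (eqv_proj hH)) (hS.comp (eqv_proj hC)) (by
      intro a
      rw [Metric.mem_closure_iff]
      intro δ hδ
      obtain ⟨y, hy, hy2⟩ := h _ (Submodule.starProjection_apply_mem H a) δ hδ
      refine ⟨S y, ⟨y, ?_⟩, by rw [dist_eq_norm]; exact hy2⟩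
      show S (C.starProjection y) = S y
      rw [Submodule.starProjection_eq_self_iff.2 hy]) x ε hε
  refine ⟨H.starProjection x', Submodule.starProjection_apply_mem _ _, C.starProjection y,
    Submodule.starProjection_apply_mem _ _, ?_, h2⟩
  have h3 : x - H.starProjection x' = H.starProjection (x - x') := by
    rw [map_sub, Submodule.starProjection_eq_self_iff.2 hx]
  rw [h3]
  exact (Submodule.norm_starProjection_apply_le _ _).trans_lt h1

end Pool.Agent.H73.LK

end

section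

/-!
# Mayer-Vietoris for the Davis complex of a Coxeter group

`am`: if the complex is the union of the subcomplexes of the types in `A` and in `B`, these have no
`ℓ²`-homology in degree `i` and their intersection has none in degree `i - 1`, then the complex has none in
degree `i`. `am'`: if the complex and the intersection have none in degree `i`, then the parts have none.
-/

set_option autoImplicit false
set_option linter.unusedSectionVars false

open Finset

namespace Pool.Agent.H73.LK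

open Pool.Agent.H4.FC Pool.Agent.H4.Atiyah Pool.Agent.H78.RA
open Classical

variable {V : Type} [Fintype V] [DecidableEq V] {M : CoxeterMatrix V}

/-- the sign -/
noncomputable def sgC (ν : V → ℕ) (τ : Finset V) (v : V) : ℂ :=
  (-1) ^ (τ.filter fun u => ν u < ν v).card

/-- the boundary operator on `ℓ²` -/
noncomputable def dL (M : CoxeterMatrix V) (ν : V → ℕ) :
    LL (Finset V) M.Group →L[ℂ] LL (Finset V) M.Group :=
  Mop fun σ τ => ∑ v ∈ τᶜ, if insert v τ = σ then sgC ν τ v • (1 : BB M.Group) else 0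

theorem dL_apply (ν : V → ℕ) (x : LL (Finset V) M.Group) (τ : Finset V) (w : M.Group) :
    dL M ν x (τ, w) = ∑ v ∈ τᶜ, sgC ν τ v * x (insert v τ, w) := by
  have h : pr τ (dL M ν x) = ∑ v ∈ τᶜ, sgC ν τ v • pr (insert v τ) x := by
    unfold dL
    rw [pr_Mop]
    have h1 : ∀ σ : Finset V, (∑ v ∈ τᶜ, if insert v τ = σ then sgC ν τ v • (1 : BB M.Group)
        else 0) (pr σ x) = ∑ v ∈ τᶜ, if insert v τ = σ then sgC ν τ v • pr σ x else 0 := by
      intro σ
      rw [_root_.sum_apply]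
      apply Finset.sum_congr rfl
      intro v _
      split_ifs <;> rfl
    rw [Finset.sum_congr rfl fun σ _ => h1 σ, Finset.sum_comm]
    apply Finset.sum_congr rfl
    intro v _
    rw [Finset.sum_ite_eq, if_pos (Finset.mem_univ _)]
  have h2 := congrArg (fun y : LL Unit M.Group => y ((), w)) h
  simp only [pr_apply] at h2
  rw [h2]
  have h3 : ∀ s : Finset V, (∑ v ∈ s, sgC ν τ v • pr (insert v τ) x : LL Unit M.Group) ((), w) =
      ∑ v ∈ s, sgC ν τ v * x (insert v τ, w) := by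
    intro s
    induction s using Finset.induction_on with
    | empty => rfl
    | insert a s ha ih =>
      rw [Finset.sum_insert ha, Finset.sum_insert ha, ← ih]
      show (sgC ν τ a • pr (insert a τ) x : LL Unit M.Group) ((), w) + _ = _
      congr 1
      show sgC ν τ a * pr (insert a τ) x ((), w) = _
      rw [pr_apply]
  exact h3 _

theorem eqv_dL (ν : V → ℕ) : Eqv (dL M ν) := by
  intro g x
  ext ⟨τ, w⟩
  rw [dL_apply, Tr_apply, dL_apply]
  apply Finset.sum_congr rfl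
  intro v _
  rw [Tr_apply]

/-- the `ℓ²`-chains of the types with the property `P` -/
def CS (M : CoxeterMatrix V) (P : Finset V → Prop) : Submodule ℂ (LL (Finset V) M.Group) where
  carrier := {x | (∀ σ w, ¬ P σ → x (σ, w) = 0) ∧
    ∀ σ, ∀ v ∈ σ, ∀ w, x (σ, w * M.simple v) = - x (σ, w)}
  add_mem' := by
    rintro a b ⟨h1, h2⟩ ⟨h3, h4⟩
    refine ⟨fun σ w h => ?_, fun σ v hv w => ?_⟩
    · show a (σ, w) + b (σ, w) = 0
      rw [h1 σ w h, h3 σ w h, add_zero]
    · show a (σ, _) + b (σ, _) = -(a (σ, w) + b (σ, w))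
      rw [h2 σ v hv, h4 σ v hv, neg_add]
  zero_mem' := ⟨fun _ _ _ => rfl, fun _ _ _ _ => by
    show (0 : ℂ) = -0
    rw [neg_zero]⟩
  smul_mem' := by
    rintro c a ⟨h1, h2⟩
    refine ⟨fun σ w h => ?_, fun σ v hv w => ?_⟩
    · show c * a (σ, w) = 0
      rw [h1 σ w h, mul_zero]
    · show c * a (σ, _) = -(c * a (σ, w))
      rw [h2 σ v hv, mul_neg]

theorem mem_CS {P : Finset V → Prop} {x : LL (Finset V) M.Group} :
    x ∈ CS M P ↔ (∀ σ w, ¬ P σ → x (σ, w) = 0) ∧
      ∀ σ, ∀ v ∈ σ, ∀ w, x (σ, w * M.simple v) = - x (σ, w) := Iff.rfl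

theorem continuous_coord (p : Finset V × M.Group) :
    Continuous fun x : LL (Finset V) M.Group => x p := by
  have h : (fun x : LL (Finset V) M.Group => x p) = fun x => inner ℂ (dl p.1 p.2) x := by
    funext x
    rw [inner_dl]
  rw [h]
  fun_prop

theorem isClosed_CS (P : Finset V → Prop) : IsClosed (CS M P : Set (LL (Finset V) M.Group)) := by
  have h : (CS M P : Set (LL (Finset V) M.Group)) =
      (⋂ σ, ⋂ w, ⋂ (_ : ¬ P σ), {x : LL (Finset V) M.Group | x (σ, w) = 0}) ∩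
      ⋂ σ, ⋂ v, ⋂ (_ : v ∈ σ), ⋂ w,
        {x : LL (Finset V) M.Group | x (σ, w * M.simple v) = - x (σ, w)} := by
    ext x
    simp only [Set.mem_inter_iff, Set.mem_iInter, Set.mem_ofPred_eq, SetLike.mem_coe, mem_CS]
  rw [h]
  refine IsClosed.inter ?_ ?_
  · exact isClosed_iInter fun σ => isClosed_iInter fun w => isClosed_iInter fun _ =>
      isClosed_eq (continuous_coord _) continuous_const
  · exact isClosed_iInter fun σ => isClosed_iInter fun v => isClosed_iInter fun _ =>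
      isClosed_iInter fun w => isClosed_eq (continuous_coord _) (continuous_coord _).neg

theorem inv_CS (P : Finset V → Prop) : H78.RA.Inv (CS M P) := by
  rintro g x ⟨h1, h2⟩
  refine ⟨fun σ w h => ?_, fun σ v hv w => ?_⟩
  · rw [Tr_apply]
    exact h1 σ _ h
  · rw [Tr_apply, Tr_apply]
    show x (σ, g⁻¹ * (w * M.simple v)) = _
    rw [← mul_assoc]
    exact h2 σ v hv _

theorem CS_mono {P Q : Finset V → Prop} (h : ∀ σ, P σ → Q σ) : CS M P ≤ CS M Q := by
  rintro x ⟨h1, h2⟩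
  exact ⟨fun σ w hσ => h1 σ w fun hp => hσ (h σ hp), h2⟩

/-- spherical types of cardinality `i` in `Y` -/
def tp (M : CoxeterMatrix V) (i : ℕ) (Y : Finset V) (σ : Finset V) : Prop :=
  (Sph M σ ∧ σ.card = i) ∧ σ ⊆ Y

theorem sph_mono {σ τ : Finset V} (h : Sph M σ) (hτ : τ ⊆ σ) : Sph M τ := by
  have hle : par M τ ≤ par M σ := by
    apply Subgroup.closure_mono
    rintro w ⟨v, hv, rfl⟩
    exact ⟨v, hτ hv, rfl⟩
  have : Finite (par M σ) := h
  exact Finite.of_injective _ (Subgroup.inclusion_injective hle)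

/-- the boundary of a chain -/
theorem dL_mem (ν : V → ℕ) {i : ℕ} {Y : Finset V} {x : LL (Finset V) M.Group}
    (hx : x ∈ CS M (tp M (i + 1) Y)) : dL M ν x ∈ CS M (tp M i Y) := by
  rw [mem_CS] at hx ⊢
  obtain ⟨h1, h2⟩ := hx
  refine ⟨fun τ w hτ => ?_, fun τ u hu w => ?_⟩
  · rw [dL_apply]
    apply Finset.sum_eq_zero
    intro v hv
    rw [h1, mul_zero]
    rintro ⟨⟨h3, h4⟩, h5⟩
    apply hτ
    rw [Finset.card_insert_of_notMem (Finset.mem_compl.1 hv)] at h4
    exact ⟨⟨sph_mono h3 (Finset.subset_insert _ _), by omega⟩,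
      (Finset.subset_insert _ _).trans h5⟩
  · rw [dL_apply, dL_apply, ← Finset.sum_neg_distrib]
    apply Finset.sum_congr rfl
    intro v _
    rw [h2 _ u (Finset.mem_insert_of_mem hu), mul_neg]

/-- the restriction to the types in `A` -/
noncomputable def rs (M : CoxeterMatrix V) (A : Finset V) :
    LL (Finset V) M.Group →L[ℂ] LL (Finset V) M.Group :=
  Mop fun σ τ => if σ = τ ∧ σ ⊆ A then 1 else 0

theorem rs_apply (A : Finset V) (x : LL (Finset V) M.Group) (σ : Finset V) (w : M.Group) :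
    rs M A x (σ, w) = if σ ⊆ A then x (σ, w) else 0 := by
  have h : pr σ (rs M A x) = if σ ⊆ A then pr σ x else 0 := by
    unfold rs
    rw [pr_Mop, Finset.sum_eq_single σ]
    · by_cases hA : σ ⊆ A
      · rw [if_pos ⟨rfl, hA⟩, if_pos hA]; rfl
      · rw [if_neg (fun h => hA h.2), if_neg hA]; rfl
    · intro b _ hb
      rw [if_neg (fun h => hb h.1)]; rfl
    · intro h
      exact absurd (Finset.mem_univ _) h
  have h2 := congrArg (fun y : LL Unit M.Group => y ((), w)) h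
  simp only [pr_apply] at h2
  rw [h2]
  split_ifs
  · rw [pr_apply]
  · rfl

theorem eqv_rs (A : Finset V) : Eqv (rs M A) := by
  intro g x
  ext ⟨τ, w⟩
  have h : Tr g (rs M A x) (τ, w) = rs M A x (τ, g⁻¹ * w) := Tr_apply _ _ _
  rw [h, rs_apply, rs_apply]
  rfl

theorem rs_mem {A Y : Finset V} {i : ℕ} {x : LL (Finset V) M.Group} (hx : x ∈ CS M (tp M i Y)) :
    rs M A x ∈ CS M (tp M i A) := by
  rw [mem_CS] at hx ⊢
  obtain ⟨h1, h2⟩ := hx
  refine ⟨fun τ w hτ => ?_, fun τ u hu w => ?_⟩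
  · rw [rs_apply]
    split_ifs with h
    · exact h1 τ w fun h3 => hτ ⟨h3.1, h⟩
    · rfl
  · rw [rs_apply, rs_apply]
    split_ifs
    · exact h2 τ u hu w
    · rw [neg_zero]

/-- the complement of the restriction to `A` lies in `B` -/
theorem sub_rs_mem {A B Y : Finset V} {i : ℕ} (hcov : ∀ σ, Sph M σ → σ ⊆ A ∨ σ ⊆ B)
    {x : LL (Finset V) M.Group} (hx : x ∈ CS M (tp M i Y)) : x - rs M A x ∈ CS M (tp M i B) := by
  rw [mem_CS] at hx ⊢
  obtain ⟨h1, h2⟩ := hx
  refine ⟨fun τ w hτ => ?_, fun τ u hu w => ?_⟩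
  · show x (τ, w) - rs M A x (τ, w) = 0
    rw [rs_apply]
    split_ifs with h
    · rw [sub_self]
    · rw [sub_zero]
      apply h1
      rintro ⟨h3, h4⟩
      exact hτ ⟨h3, (hcov τ h3.1).resolve_left h⟩
  · show x (τ, _) - rs M A x (τ, _) = -(x (τ, w) - rs M A x (τ, w))
    rw [rs_apply, rs_apply, h2 τ u hu]
    split_ifs <;> ring

/-- a chain in `A` and in `B` is a chain in `A ∩ B` -/
theorem mem_inter_CS {A B : Finset V} {i : ℕ} {x : LL (Finset V) M.Group}
    (hA : x ∈ CS M (tp M i A)) (hB : x ∈ CS M (tp M i B)) : x ∈ CS M (tp M i (A ∩ B)) := by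
  rw [mem_CS] at hA hB ⊢
  refine ⟨fun τ w hτ => ?_, hA.2⟩
  by_cases h : tp M i A τ
  · refine hB.1 τ w fun h' => hτ ⟨h.1, Finset.subset_inter h.2 h'.2⟩
  · exact hA.1 τ w h

/-- the sign relation -/
theorem sgC_rel (ν : V → ℕ) (hν : Function.Injective ν) (τ : Finset V) {u v : V} (hu : u ∉ τ)
    (hv : v ∉ τ) (huv : u ≠ v) :
    sgC ν τ v * sgC ν (insert v τ) u = -(sgC ν τ u * sgC ν (insert u τ) v) := by
  have key : ∀ a b : V, a ∉ τ → b ∉ τ → a ≠ b → ν a < ν b →
      sgC ν τ b * sgC ν (insert b τ) a = -(sgC ν τ a * sgC ν (insert a τ) b) := by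
    intro a b ha hb hab hlt
    have h1 : (insert b τ).filter (fun x => ν x < ν a) = τ.filter (fun x => ν x < ν a) := by
      rw [Finset.filter_insert, if_neg (not_lt.2 hlt.le)]
    have h2 : (insert a τ).filter (fun x => ν x < ν b) =
        insert a (τ.filter (fun x => ν x < ν b)) := by
      rw [Finset.filter_insert, if_pos hlt]
    unfold sgC
    rw [h1, h2, Finset.card_insert_of_notMem (fun h => ha (Finset.mem_filter.1 h).1), pow_succ]
    ring
  rcases lt_or_gt_of_ne (fun h => huv (hν h)) with h | h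
  · exact key u v hu hv huv h
  · rw [key v u hv hu huv.symm h, neg_neg]

theorem dL_dL (ν : V → ℕ) (hν : Function.Injective ν) (x : LL (Finset V) M.Group) :
    dL M ν (dL M ν x) = 0 := by
  ext ⟨τ, w⟩
  rw [dL_apply]
  show _ = (0 : ℂ)
  have h1 : ∀ v ∈ τᶜ, sgC ν τ v * dL M ν x (insert v τ, w) =
      ∑ u ∈ τᶜ, if u = v then 0 else
        sgC ν τ v * sgC ν (insert v τ) u * x (insert u (insert v τ), w) := by
    intro v hv
    rw [dL_apply, Finset.mul_sum, Finset.compl_insert, ← Finset.sum_erase_add _ _ hv,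
      if_pos rfl, add_zero]
    apply Finset.sum_congr rfl
    intro u hu
    rw [if_neg (Finset.mem_erase.1 hu).1, mul_assoc]
  rw [Finset.sum_congr rfl h1]
  set F : V → V → ℂ := fun v u => if u = v then 0 else
        sgC ν τ v * sgC ν (insert v τ) u * x (insert u (insert v τ), w) with hF
  have h2 : ∀ v ∈ τᶜ, ∀ u ∈ τᶜ, F v u = - F u v := by
    intro v hv u hu
    rw [Finset.mem_compl] at hv hu
    simp only [hF]
    by_cases h : u = v
    · rw [if_pos h, if_pos h.symm, neg_zero]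
    · rw [if_neg h, if_neg (Ne.symm h), sgC_rel ν hν τ hu hv h, Finset.insert_comm u v]
      ring
  have h3 : ∑ v ∈ τᶜ, ∑ u ∈ τᶜ, F v u = -∑ v ∈ τᶜ, ∑ u ∈ τᶜ, F v u := by
    conv_lhs => rw [Finset.sum_comm]
    rw [← Finset.sum_neg_distrib]
    apply Finset.sum_congr rfl
    intro v hv
    rw [← Finset.sum_neg_distrib]
    apply Finset.sum_congr rfl
    intro u hu
    exact h2 u hu v hv
  exact self_eq_neg.1 h3

/-- vanishing in the language of operators -/
def VanL (M : CoxeterMatrix V) (ν : V → ℕ) (Y : Finset V) (i : ℕ) : Prop :=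
  ∀ x ∈ CS M (tp M i Y), dL M ν x = 0 → ∀ ε : ℝ, 0 < ε →
    ∃ y ∈ CS M (tp M (i + 1) Y), ‖x - dL M ν y‖ < ε

/-- a family of functions as a vector -/
noncomputable def vec (f : Finset V → M.Group → ℂ) (h : ∀ σ, Summable fun w => ‖f σ w‖ ^ 2) :
    LL (Finset V) M.Group :=
  ⟨fun p => f p.1 p.2, (memlp_iff _).2 (by
    have h1 : ∀ σ : Finset V, HasSum (fun w => ‖f σ w‖ ^ 2) (∑' w, ‖f σ w‖ ^ 2) :=
      fun σ => (h σ).hasSum
    rw [summable_prod_of_nonneg (fun p => sq_nonneg _)]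
    exact ⟨h, Summable.of_finite⟩)⟩

theorem norm_sq_LL (x : LL (Finset V) M.Group) : ‖x‖ ^ 2 = ∑ σ, ∑' w, ‖x (σ, w)‖ ^ 2 := by
  rw [norm_sq_lp, Summable.tsum_prod ((memlp_iff _).1 (lp.memℓp x)), tsum_fintype]

theorem vanL_of_vanS {Y : Finset V} {i : ℕ} (h : VanS M Y i) (ν : V → ℕ)
    (hν : Function.Injective ν) : VanL M ν Y i := by
  intro x hx hdx ε hε
  rw [mem_CS] at hx
  have hs : ∀ σ, Summable fun w => ‖x (σ, w)‖ ^ 2 := by
    intro σ
    have h1 := (memlp_iff _).1 (lp.memℓp x)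
    exact h1.comp_injective (i := fun w => (σ, w)) fun a b hab => (Prod.ext_iff.1 hab).2
  have hz : IsL2Chain M i (fun σ w => x (σ, w)) := by
    refine ⟨fun σ w hw => ?_, hx.2, hs⟩
    by_contra hc
    exact hw (hx.1 σ w fun h => hc h.1)
  have hsup : ∀ σ, (fun w => x (σ, w)) ≠ 0 → σ ⊆ Y := by
    intro σ hσ
    by_contra hc
    exact hσ (funext fun w => hx.1 σ w fun h => hc h.2)
  have hd : dbd ν (fun σ w => x (σ, w)) = 0 := by
    funext τ w
    have := congrArg (fun y : LL (Finset V) M.Group => y (τ, w)) hdx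
    simp only [dL_apply] at this
    exact this
  obtain ⟨y, hy1, hy2, hy3⟩ := h ν hν _ hz hsup hd (ε ^ 2) (by positivity)
  refine ⟨vec y hy1.l2, ?_, ?_⟩
  · rw [mem_CS]
    refine ⟨fun σ w hσ => ?_, hy1.anti⟩
    by_contra hc
    have hc' : y σ w ≠ 0 := hc
    apply hσ
    exact ⟨hy1.supp σ w hc', hy2 σ fun h0 => hc' (by rw [h0]; rfl)⟩
  · apply lt_of_pow_lt_pow_left₀ 2 hε.le
    rw [norm_sq_LL]
    refine lt_of_eq_of_lt ?_ hy3
    apply Finset.sum_congr rfl
    intro σ _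
    apply tsum_congr
    intro w
    congr 2
    show x (σ, w) - dL M ν (vec y hy1.l2) (σ, w) = _
    rw [dL_apply]
    rfl

theorem vanS_of_vanL {Y : Finset V} {i : ℕ}
    (h : ∀ ν : V → ℕ, Function.Injective ν → VanL M ν Y i) : VanS M Y i := by
  intro ν hν z hz hsup hd ε hε
  have hx : vec z hz.l2 ∈ CS M (tp M i Y) := by
    rw [mem_CS]
    refine ⟨fun σ w hσ => ?_, hz.anti⟩
    by_contra hc
    have hc' : z σ w ≠ 0 := hc
    exact hσ ⟨hz.supp σ w hc', hsup σ fun h0 => hc' (by rw [h0]; rfl)⟩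
  have hdx : dL M ν (vec z hz.l2) = 0 := by
    ext ⟨τ, w⟩
    rw [dL_apply]
    exact congrFun (congrFun hd τ) w
  obtain ⟨y, hy, hy2⟩ := h ν hν _ hx hdx (Real.sqrt ε) (Real.sqrt_pos.2 hε)
  rw [mem_CS] at hy
  have hs : ∀ σ, Summable fun w => ‖y (σ, w)‖ ^ 2 := by
    intro σ
    have h1 := (memlp_iff _).1 (lp.memℓp y)
    exact h1.comp_injective (i := fun w => (σ, w)) fun a b hab => (Prod.ext_iff.1 hab).2
  refine ⟨fun σ w => y (σ, w), ⟨fun σ w hw => ?_, hy.2, hs⟩, fun σ hσ => ?_, ?_⟩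
  · by_contra hc
    exact hw (hy.1 σ w fun h => hc h.1)
  · by_contra hc
    exact hσ (funext fun w => hy.1 σ w fun h => hc h.2)
  · have h1 : ‖vec z hz.l2 - dL M ν y‖ ^ 2 < ε := by
      have := pow_lt_pow_left₀ hy2 (norm_nonneg _) two_ne_zero
      rwa [Real.sq_sqrt hε.le] at this
    rw [norm_sq_LL] at h1
    refine lt_of_eq_of_lt ?_ h1
    apply Finset.sum_congr rfl
    intro σ _
    apply tsum_congr
    intro w
    congr 2
    show _ = vec z hz.l2 (σ, w) - dL M ν y (σ, w)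
    rw [dL_apply]
    rfl

/-- the cycles -/
theorem exists_cyc (ν : V → ℕ) (P : Finset V → Prop) :
    ∃ H : Submodule ℂ (LL (Finset V) M.Group), ∃ _ : H.HasOrthogonalProjection,
      H78.RA.Inv H ∧ ∀ x, x ∈ H ↔ x ∈ CS M P ∧ dL M ν x = 0 := by
  refine ⟨CS M P ⊓ kr (dL M ν), ?_, ?_, ?_⟩
  · have hc : IsClosed ((CS M P ⊓ kr (dL M ν) : Submodule ℂ (LL (Finset V) M.Group)) :
        Set (LL (Finset V) M.Group)) := by
      rw [Submodule.coe_inf]
      exact (isClosed_CS P).inter (isClosed_kr _)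
    have : CompleteSpace (CS M P ⊓ kr (dL M ν) : Submodule ℂ (LL (Finset V) M.Group)) :=
      hc.completeSpace_coe
    infer_instance
  · intro g x hx
    exact ⟨inv_CS P g x hx.1, H78.RA.Inv.kr (eqv_dL ν) g x hx.2⟩
  · intro x
    rfl

theorem hasProj_CS (P : Finset V → Prop) : (CS M P).HasOrthogonalProjection := by
  have : CompleteSpace (CS M P) := (isClosed_CS P).completeSpace_coe
  infer_instance

/-- **Mayer-Vietoris**, the union, in the language of operators -/
theorem amL {A B : Finset V} {i : ℕ} (hcov : ∀ σ, Sph M σ → σ ⊆ A ∨ σ ⊆ B) (ν : V → ℕ)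
    (hν : Function.Injective ν) (hA : VanL M ν A (i + 1)) (hB : VanL M ν B (i + 1))
    (hC : VanL M ν (A ∩ B) i) : VanL M ν univ (i + 1) := by
  intro x hx hdx ε hε
  obtain ⟨H, _, hHi, hH⟩ := exists_cyc (M := M) ν (tp M (i + 1) univ)
  have := hasProj_CS (M := M) (tp M (i + 1) (A ∩ B))
  obtain ⟨x', hx', y, hy, h1, h2⟩ := dense_on (dL M ν ∘L rs M A) (dL M ν)
    ((eqv_dL ν).comp (eqv_rs A)) (eqv_dL ν) H hHi (CS M (tp M (i + 1) (A ∩ B))) (inv_CS _)
    (by
      intro a ha δ hδ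
      rw [hH] at ha
      have h3 : dL M ν (rs M A a) ∈ CS M (tp M i A) := dL_mem ν (rs_mem ha.1)
      have h4 : dL M ν (a - rs M A a) ∈ CS M (tp M i B) := dL_mem ν (sub_rs_mem hcov ha.1)
      rw [map_sub, ha.2, zero_sub] at h4
      have h5 : dL M ν (rs M A a) ∈ CS M (tp M i B) := by
        have := (CS M (tp M i B)).neg_mem h4
        rwa [neg_neg] at this
      exact hC _ (mem_inter_CS h3 h5) (dL_dL ν hν _) δ hδ)
    x ((hH x).2 ⟨hx, hdx⟩) (ε / 3) (by positivity)
  rw [hH] at hx'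
  have h2' : dL M ν (rs M A x') = dL M ν y := h2
  have hyA : y ∈ CS M (tp M (i + 1) A) :=
    CS_mono (fun σ h => ⟨h.1, h.2.trans Finset.inter_subset_left⟩) hy
  have hyB : y ∈ CS M (tp M (i + 1) B) :=
    CS_mono (fun σ h => ⟨h.1, h.2.trans Finset.inter_subset_right⟩) hy
  obtain ⟨uA, huA, hA'⟩ := hA (rs M A x' - y) ((CS M _).sub_mem (rs_mem hx'.1) hyA)
    (by rw [map_sub, h2', sub_self]) (ε / 3) (by positivity)
  obtain ⟨uB, huB, hB'⟩ := hB (x' - rs M A x' + y)
    ((CS M _).add_mem (sub_rs_mem hcov hx'.1) hyB)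
    (by rw [map_add, map_sub, hx'.2, h2', zero_sub, neg_add_cancel]) (ε / 3) (by positivity)
  refine ⟨uA + uB, (CS M _).add_mem
    (CS_mono (fun σ h => ⟨h.1, Finset.subset_univ _⟩) huA)
    (CS_mono (fun σ h => ⟨h.1, Finset.subset_univ _⟩) huB), ?_⟩
  have h6 : x - dL M ν (uA + uB) = (x - x') + ((rs M A x' - y - dL M ν uA) +
      (x' - rs M A x' + y - dL M ν uB)) := by
    rw [map_add]
    abel
  rw [h6]
  calc _ ≤ ‖x - x'‖ + (‖rs M A x' - y - dL M ν uA‖ + ‖x' - rs M A x' + y - dL M ν uB‖) :=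
        (norm_add_le _ _).trans (by gcongr; exact norm_add_le _ _)
    _ < ε := by linarith

/-- **Mayer-Vietoris**, the parts, in the language of operators -/
theorem amL' {A B : Finset V} {i : ℕ} (hcov : ∀ σ, Sph M σ → σ ⊆ A ∨ σ ⊆ B) (ν : V → ℕ)
    (hν : Function.Injective ν) (hL : VanL M ν univ i) (hC : VanL M ν (A ∩ B) i) :
    VanL M ν A i := by
  intro x hx hdx ε hε
  obtain ⟨H, _, hHi, hH⟩ := exists_cyc (M := M) ν (tp M i A)
  have := hasProj_CS (M := M) (tp M (i + 1) univ)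
  obtain ⟨x', hx', y, hy, h1, h2⟩ := dense_on (ContinuousLinearMap.id ℂ _) (dL M ν)
    Eqv.id (eqv_dL ν) H hHi (CS M (tp M (i + 1) univ)) (inv_CS _)
    (by
      intro a ha δ hδ
      rw [hH] at ha
      exact hL a (CS_mono (fun σ h => ⟨h.1, Finset.subset_univ _⟩) ha.1) ha.2 δ hδ)
    x ((hH x).2 ⟨hx, hdx⟩) (ε / 2) (by positivity)
  rw [hH] at hx'
  have h2' : x' = dL M ν y := h2
  have hyA : rs M A y ∈ CS M (tp M (i + 1) A) := rs_mem hy
  have h3 : dL M ν (y - rs M A y) ∈ CS M (tp M i B) := dL_mem ν (sub_rs_mem hcov hy)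
  have h4 : dL M ν (y - rs M A y) ∈ CS M (tp M i A) := by
    rw [map_sub, ← h2']
    exact (CS M _).sub_mem hx'.1 (dL_mem ν hyA)
  obtain ⟨u, hu, hu'⟩ := hC _ (mem_inter_CS h4 h3) (dL_dL ν hν _) (ε / 2) (by positivity)
  refine ⟨rs M A y + u, (CS M _).add_mem hyA
    (CS_mono (fun σ h => ⟨h.1, h.2.trans Finset.inter_subset_left⟩) hu), ?_⟩
  have h6 : x - dL M ν (rs M A y + u) = (x - x') + (dL M ν (y - rs M A y) - dL M ν u) := by
    rw [map_add, map_sub, ← h2']
    abel
  rw [h6]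
  exact (norm_add_le _ _).trans_lt (by linarith)

/-- **Mayer-Vietoris**, the union. -/
theorem am {A B : Finset V} {i : ℕ} (hcov : ∀ σ, Sph M σ → σ ⊆ A ∨ σ ⊆ B)
    (hA : VanS M A (i + 1)) (hB : VanS M B (i + 1)) (hC : VanS M (A ∩ B) i) :
    L2HomologyZero M (i + 1) :=
  vanS_univ.1 (vanS_of_vanL fun ν hν => amL hcov ν hν (vanL_of_vanS hA ν hν)
    (vanL_of_vanS hB ν hν) (vanL_of_vanS hC ν hν))

/-- **Mayer-Vietoris**, the parts. -/
theorem am' {A B : Finset V} {i : ℕ} (hcov : ∀ σ, Sph M σ → σ ⊆ A ∨ σ ⊆ B)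
    (hL : L2HomologyZero M i) (hC : VanS M (A ∩ B) i) : VanS M A i :=
  vanS_of_vanL fun ν hν => amL' hcov ν hν (vanL_of_vanS (vanS_univ.2 hL) ν hν)
    (vanL_of_vanS hC ν hν)

end Pool.Agent.H73.LK

end

section

/-!
# Mayer-Vietoris for a full subcomplex, and the rule for the links in codimension `m`
-/

set_option autoImplicit false
set_option linter.unusedSectionVars false

open Finset

namespace Pool.Agent.H73.LK

open Pool.Agent.H4.FC Pool.Agent.H4.FD Pool.Agent.H4.Atiyah Pool.Agent.H78.RA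
open Classical

variable {V : Type} [Fintype V] [DecidableEq V] {M : CoxeterMatrix V}

/-- the complement of the restriction to `A` lies in `B` -/
theorem sub_rs_memY {A B Y : Finset V} {i : ℕ} (hcov : ∀ σ, Sph M σ → σ ⊆ Y → σ ⊆ A ∨ σ ⊆ B)
    {x : LL (Finset V) M.Group} (hx : x ∈ CS M (tp M i Y)) : x - rs M A x ∈ CS M (tp M i B) := by
  rw [mem_CS] at hx ⊢
  obtain ⟨h1, h2⟩ := hx
  refine ⟨fun τ w hτ => ?_, fun τ u hu w => ?_⟩
  · show x (τ, w) - rs M A x (τ, w) = 0
    rw [rs_apply]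
    split_ifs with h
    · rw [sub_self]
    · rw [sub_zero]
      apply h1
      rintro ⟨h3, h4⟩
      exact hτ ⟨h3, (hcov τ h3.1 h4).resolve_left h⟩
  · show x (τ, _) - rs M A x (τ, _) = -(x (τ, w) - rs M A x (τ, w))
    rw [rs_apply, rs_apply, h2 τ u hu]
    split_ifs <;> ring

/-- **Mayer-Vietoris** in the full subcomplex on `Y`, in the language of operators -/
theorem amLY {Y A B : Finset V} {i : ℕ} (hcov : ∀ σ, Sph M σ → σ ⊆ Y → σ ⊆ A ∨ σ ⊆ B)
    (hAY : A ⊆ Y) (hBY : B ⊆ Y) (ν : V → ℕ) (hν : Function.Injective ν)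
    (hA : VanL M ν A (i + 1)) (hB : VanL M ν B (i + 1)) (hC : VanL M ν (A ∩ B) i) :
    VanL M ν Y (i + 1) := by
  intro x hx hdx ε hε
  obtain ⟨H, _, hHi, hH⟩ := exists_cyc (M := M) ν (tp M (i + 1) Y)
  have := hasProj_CS (M := M) (tp M (i + 1) (A ∩ B))
  obtain ⟨x', hx', y, hy, h1, h2⟩ := dense_on (dL M ν ∘L rs M A) (dL M ν)
    ((eqv_dL ν).comp (eqv_rs A)) (eqv_dL ν) H hHi (CS M (tp M (i + 1) (A ∩ B))) (inv_CS _)
    (by
      intro a ha δ hδ
      rw [hH] at ha
      have h3 : dL M ν (rs M A a) ∈ CS M (tp M i A) := dL_mem ν (rs_mem ha.1)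
      have h4 : dL M ν (a - rs M A a) ∈ CS M (tp M i B) := dL_mem ν (sub_rs_memY hcov ha.1)
      rw [map_sub, ha.2, zero_sub] at h4
      have h5 : dL M ν (rs M A a) ∈ CS M (tp M i B) := by
        have := (CS M (tp M i B)).neg_mem h4
        rwa [neg_neg] at this
      exact hC _ (mem_inter_CS h3 h5) (dL_dL ν hν _) δ hδ)
    x ((hH x).2 ⟨hx, hdx⟩) (ε / 3) (by positivity)
  rw [hH] at hx'
  have h2' : dL M ν (rs M A x') = dL M ν y := h2
  have hyA : y ∈ CS M (tp M (i + 1) A) :=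
    CS_mono (fun σ h => ⟨h.1, h.2.trans Finset.inter_subset_left⟩) hy
  have hyB : y ∈ CS M (tp M (i + 1) B) :=
    CS_mono (fun σ h => ⟨h.1, h.2.trans Finset.inter_subset_right⟩) hy
  obtain ⟨uA, huA, hA'⟩ := hA (rs M A x' - y) ((CS M _).sub_mem (rs_mem hx'.1) hyA)
    (by rw [map_sub, h2', sub_self]) (ε / 3) (by positivity)
  obtain ⟨uB, huB, hB'⟩ := hB (x' - rs M A x' + y)
    ((CS M _).add_mem (sub_rs_memY hcov hx'.1) hyB)
    (by rw [map_add, map_sub, hx'.2, h2', zero_sub, neg_add_cancel]) (ε / 3) (by positivity)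
  refine ⟨uA + uB, (CS M _).add_mem
    (CS_mono (fun σ h => ⟨h.1, h.2.trans hAY⟩) huA)
    (CS_mono (fun σ h => ⟨h.1, h.2.trans hBY⟩) huB), ?_⟩
  have h6 : x - dL M ν (uA + uB) = (x - x') + ((rs M A x' - y - dL M ν uA) +
      (x' - rs M A x' + y - dL M ν uB)) := by
    rw [map_add]
    abel
  rw [h6]
  calc _ ≤ ‖x - x'‖ + (‖rs M A x' - y - dL M ν uA‖ + ‖x' - rs M A x' + y - dL M ν uB‖) :=
        (norm_add_le _ _).trans (by gcongr; exact norm_add_le _ _)
    _ < ε := by linarith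

/-- **Mayer-Vietoris** in the full subcomplex on `Y`. -/
theorem amY {Y A B : Finset V} {i : ℕ} (hcov : ∀ σ, Sph M σ → σ ⊆ Y → σ ⊆ A ∨ σ ⊆ B)
    (hAY : A ⊆ Y) (hBY : B ⊆ Y) (hA : VanS M A (i + 1)) (hB : VanS M B (i + 1))
    (hC : VanS M (A ∩ B) i) : VanS M Y (i + 1) :=
  vanS_of_vanL fun ν hν => amLY hcov hAY hBY ν hν (vanL_of_vanS hA ν hν)
    (vanL_of_vanS hB ν hν) (vanL_of_vanS hC ν hν)

/-- **Links in codimension `m`.** If the full subcomplexes of the links of the cliques with `m` vertices have no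
reduced `ℓ²`-homology in the degrees `j ≥ i - m`, then there is none in degree `i`. -/
theorem codimY (hfin : ∀ (Y : Finset V) (i : ℕ), 1 ≤ i → (∀ u ∈ Y, ∀ v ∈ Y, M u v ≠ 0) → VanS M Y i) (m : ℕ) :
    ∀ i : ℕ, m ≤ i → ∀ Y : Finset V,
      (∀ σ ⊆ Y, σ.card = m → (∀ u ∈ σ, ∀ v ∈ σ, M u v ≠ 0) → ∀ Z ⊆ Y,
        (∀ v ∈ Z, v ∉ σ ∧ ∀ u ∈ σ, M u v ≠ 0) → ∀ j, i ≤ j + m → VanS M Z j) →
      VanS M Y i := by
  induction m with
  | zero =>
    intro i _ Y h
    exact h ∅ (empty_subset _) card_empty (fun u hu => absurd hu (notMem_empty u)) Y Subset.rfl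
      (fun v _ => ⟨notMem_empty v, fun u hu => absurd hu (notMem_empty u)⟩) i le_rfl
  | succ m ihm =>
    intro i hi Y
    obtain ⟨i, rfl⟩ : ∃ j, i = j + 1 := ⟨i - 1, by omega⟩
    induction Y using Finset.strongInduction with
    | H Y ihY =>
    intro h
    by_cases hc : ∀ u ∈ Y, ∀ v ∈ Y, M u v ≠ 0
    · exact hfin Y _ (by omega) hc
    push Not at hc
    obtain ⟨u, hu, v, hv, huv⟩ := hc
    have huv' : u ≠ v := by
      rintro rfl
      rw [M.diagonal] at huv
      exact one_ne_zero huv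
    -- the vertices of the link
    have hmem : ∀ w, w ∈ Y.filter (fun w => w ≠ u ∧ M u w ≠ 0) ↔ w ∈ Y ∧ w ≠ u ∧ M u w ≠ 0 :=
      fun w => mem_filter
    have hSt : insert u (Y.filter fun w => w ≠ u ∧ M u w ≠ 0) ⊂ Y := by
      refine (ssubset_iff_of_subset ?_).2 ⟨v, hv, ?_⟩
      · intro w hw
        rcases mem_insert.1 hw with rfl | hw
        · exact hu
        · exact ((hmem w).1 hw).1
      · intro hw
        rcases mem_insert.1 hw with hw | hw
        · exact huv' hw.symm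
        · exact ((hmem v).1 hw).2.2 huv
    have hint : (Y.erase u) ∩ insert u (Y.filter fun w => w ≠ u ∧ M u w ≠ 0) =
        Y.filter fun w => w ≠ u ∧ M u w ≠ 0 := by
      ext w
      rw [mem_inter, mem_erase, mem_insert, hmem]
      constructor
      · rintro ⟨⟨h1, h2⟩, h3 | h3⟩
        · exact absurd h3 h1
        · exact h3
      · intro h3
        exact ⟨⟨h3.2.1, h3.1⟩, Or.inr h3⟩
    have hmono : ∀ Y' ⊂ Y, VanS M Y' (i + 1) := by
      intro Y' hY'
      refine ihY Y' hY' ?_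
      intro σ hσ hcard hcl Z hZ hZσ j hj
      exact h σ (hσ.trans hY'.1) hcard hcl Z (hZ.trans hY'.1) hZσ j hj
    refine amY (A := Y.erase u) (B := insert u (Y.filter fun w => w ≠ u ∧ M u w ≠ 0)) ?_
      (erase_subset _ _) hSt.1 (hmono _ (erase_ssubset hu)) (hmono _ hSt) ?_
    · intro σ hσ hσY
      by_cases huσ : u ∈ σ
      · right
        intro w hw
        by_cases hwu : w = u
        · exact mem_insert.2 (Or.inl hwu)
        · exact mem_insert.2 (Or.inr ((hmem w).2 ⟨hσY hw, hwu,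
            (sph_cl M σ hσ u huσ w hw fun h => hwu h.symm).2⟩))
      · left
        intro w hw
        exact mem_erase.2 ⟨fun h => huσ (h ▸ hw), hσY hw⟩
    · rw [hint]
      refine ihm i (by omega) _ ?_
      intro σ hσ hcard hcl Z hZ hZσ j hj
      have huσ : u ∉ σ := fun h => ((hmem u).1 (hσ h)).2.1 rfl
      refine h (insert u σ) ?_ ?_ ?_ Z ?_ ?_ j (by omega)
      · intro w hw
        rcases mem_insert.1 hw with rfl | hw
        · exact hu
        · exact ((hmem w).1 (hσ hw)).1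
      · rw [card_insert_of_notMem huσ, hcard]
      · intro a ha b hb
        rcases mem_insert.1 ha with ha' | ha' <;> rcases mem_insert.1 hb with hb' | hb'
        · rw [ha', hb', M.diagonal]
          exact one_ne_zero
        · rw [ha']
          exact ((hmem b).1 (hσ hb')).2.2
        · rw [hb', M.symmetric]
          exact ((hmem a).1 (hσ ha')).2.2
        · exact hcl a ha' b hb'
      · intro w hw
        exact ((hmem w).1 (hZ hw)).1
      · intro w hw
        refine ⟨fun h' => ?_, fun a ha => ?_⟩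
        · rcases mem_insert.1 h' with rfl | h'
          · exact ((hmem w).1 (hZ hw)).2.1 rfl
          · exact (hZσ w hw).1 h'
        · rcases mem_insert.1 ha with rfl | ha
          · exact ((hmem w).1 (hZ hw)).2.2
          · exact (hZσ w hw).2 a ha

end Pool.Agent.H73.LK

end
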