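import Pool.Agent.H71.TSG.M13
import Pool.Agent.H71.TSG.M23
import Pool.Agent.H71.TSG.M28
import Pool.Agent.H71.TSG.M41
import Pool.Agent.H71.TSG.M43

/-! The parts of this file: H73.GC.Vk1, H73.GC.Vk2, S9.U.Sph, S9.U.Disc, S9.F.MainD. -/

section

/-!
# Growth calculus: the theorem of `Pool.Agent.H77.SW` over the field with two elements

`dz` does not depend on the field: `Zs K G n (rP K D)` is the kernel of a matrix with entries `0`, `1`, and the
rank of a matrix over `ZMod 2` does not change over an extension field.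
-/

set_option autoImplicit false
set_option linter.unusedSectionVars false

open Finset

namespace Pool.Agent.H73.GC

open Pool.Agent.H77.SW Pool.Agent.H85.VK

theorem dz_two_le {W : Type} [DecidableEq W] [Fintype W] (K : Type) [Field K] [CharP K 2]
    {G : SimpleGraph W} (n : ℕ) {P : Type} [Group P] [Fintype P] (D : PG G P) :
    dz (ZMod 2) n D ≤ dz K n D := by
  classical
  letI : Algebra (ZMod 2) K := ZMod.algebra K 2
  set f : ZMod 2 →+* K := algebraMap (ZMod 2) K with hf
  let B := Module.finBasis (ZMod 2) (Zs (ZMod 2) G n (rP (ZMod 2) D))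
  have hmem : ∀ i, (fun σ p => f ((B i : Finset W → P → ZMod 2) σ p)) ∈ Zs K G n (rP K D) := by
    intro i
    obtain ⟨h1, h2, h3⟩ := mem_Zs.1 (B i).2
    refine mem_Zs.2 ⟨fun σ h => h1 σ fun h0 => h ?_, fun σ v hv => ?_, fun κ => ?_⟩
    · funext p
      simp [h0]
    · funext p
      show f ((B i : Finset W → P → ZMod 2) σ (p * D.g v)) = f ((B i : Finset W → P → ZMod 2) σ p)
      have h := congrFun (h2 σ v hv) p
      exact congrArg f h
    · funext p
      have h := congrFun (h3 κ) p
      rw [Finset.sum_apply] at h ⊢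
      rw [← map_sum f, h]
      exact map_zero f
  let w : Fin (Module.finrank (ZMod 2) (Zs (ZMod 2) G n (rP (ZMod 2) D))) →
      Zs K G n (rP K D) := fun i => ⟨_, hmem i⟩
  have hw : LinearIndependent K w := by
    rw [Fintype.linearIndependent_iff]
    intro c hc i
    refine (Module.forall_dual_apply_eq_zero_iff (ZMod 2) (c i)).1 fun l => ?_
    have hB := Fintype.linearIndependent_iff.1 B.linearIndependent (fun i => l (c i)) ?_ i
    · exact hB
    · apply Subtype.ext
      funext σ p
      have h := congrFun (congrFun (congrArg Subtype.val hc) σ) p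
      simp only [Submodule.coe_sum, Submodule.coe_smul, Finset.sum_apply, Pi.smul_apply,
        Submodule.coe_zero, Pi.zero_apply, smul_eq_mul] at h ⊢
      have h' := congrArg l h
      rw [map_sum, map_zero] at h'
      rw [← h']
      refine Finset.sum_congr rfl fun j _ => ?_
      have h5 : c j * (w j : Finset W → P → K) σ p =
          ((B j : Finset W → P → ZMod 2) σ p) • c j := by
        rw [Algebra.smul_def, mul_comm]
      rw [h5, map_smul, smul_eq_mul, mul_comm]
  have h := hw.fintype_card_le_finrank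
  rwa [Fintype.card_fin] at h

theorem small_two {W : Type} [DecidableEq W] [Fintype W] (G : SimpleGraph W) (k : ℕ)
    (hdim : ∀ σ : Finset W, G.IsClique (σ : Set W) → σ.card ≤ k + 1) (hvk : VanKampenZero G k)
    (ε : ℝ) (hε : 0 < ε) : ∃ (P : Type) (_ : Group P) (_ : Fintype P) (D : PG G P),
      (dz (ZMod 2) (k + 1) D : ℝ) ≤ ε * Fintype.card P := by
  obtain ⟨K, hK, hchar, ⟨X⟩⟩ := exists_genSeq
  obtain ⟨P, hP, hfin, D, hD⟩ := small X G k hdim hvk ε hε
  refine ⟨P, hP, hfin, D, le_trans ?_ hD⟩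
  exact_mod_cast dz_two_le K (k + 1) D

end Pool.Agent.H73.GC

end

section

/-!
# Growth calculus: complexes with vanishing van Kampen obstruction

For `k + 1 < i` use `gz_high`. For `i = k + 1` let `P`, `D` be given by `small_two` for the induced graph; the module
is `P → F2`, `(r v f) p = f (p * g v)` for `v ∈ U`, `r v = 1` for `v ∉ U`, the projection of `v ∈ U` is the
restriction to `b p v = 0`; `fil_group` for `P`. There are no chains of degree `k + 2`, so `hX` is the
dimension of the cycles, and a cycle on the subsets of `U` is a cycle on the subsets of the subtype.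
-/

set_option autoImplicit false
set_option linter.unusedSectionVars false

open Finset

namespace Pool.Agent.H73.GC

open Pool.Agent.H77.SW Pool.Agent.H85.VK

variable {V : Type} [DecidableEq V] [Fintype V]

/-- the right regular representation -/
private def Vk2_rho (P : Type) [Group P] : P →* Module.End F2 (P → F2) where
  toFun q :=
    { toFun := fun f p => f (p * q)
      map_add' := fun _ _ => rfl
      map_smul' := fun _ _ => rfl }
  map_one' := by
    ext f p
    simp
  map_mul' q q' := by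
    apply LinearMap.ext
    intro f
    funext p
    show f (p * (q * q')) = f (p * q * q')
    rw [mul_assoc]

/-- the restriction to the elements with vanishing bit -/
private def Vk2_E {W : Type} {P : Type} (b : P → W → ZMod 2) (w : W) : Module.End F2 (P → F2) where
  toFun f p := if b p w = 0 then f p else 0
  map_add' f g := by
    funext p
    simp only [Pi.add_apply]
    split_ifs <;> simp
  map_smul' c f := by
    funext p
    simp only [Pi.smul_apply, RingHom.id_apply]
    split_ifs <;> simp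

private theorem Vk2_two (a : ZMod 2) : a + 1 = 0 ↔ a ≠ 0 := by
  revert a
  decide

theorem gz_vk {G : SimpleGraph V} {U : Finset V} (k : ℕ)
    (hdim : ∀ s : Finset V, Cq G U s → s.card ≤ k + 1)
    (hvk : VanKampenZero (G.comap (Subtype.val : {v // v ∈ U} → V)) k) {i : ℕ} (hi : k < i) :
    GZ G U i := by
  classical
  rcases Nat.lt_or_ge (k + 1) i with h | h
  · exact gz_high fun s hs he => by
      have := hdim s hs
      omega
  obtain rfl : i = k + 1 := by omega
  intro ε hε
  let e : {v // v ∈ U} ↪ V := Function.Embedding.subtype _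
  have he : ∀ w, e w = w.1 := fun _ => rfl
  have hcl : ∀ σ : Finset {v // v ∈ U}, Cq G U (σ.map e) ↔
      (G.comap (Subtype.val : {v // v ∈ U} → V)).IsClique (σ : Set {v // v ∈ U}) := by
    intro σ
    constructor
    · rintro ⟨h1, -⟩ a ha b hb hab
      exact h1 (by simpa [e] using ha) (by simpa [e] using hb) fun h => hab (Subtype.ext h)
    · intro h1
      refine ⟨?_, fun v hv => ?_⟩
      · intro a ha b hb hab
        rw [Finset.mem_coe, Finset.mem_map] at ha hb
        obtain ⟨a', ha', rfl⟩ := ha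
        obtain ⟨b', hb', rfl⟩ := hb
        exact h1 ha' hb' fun h => hab (congrArg e h)
      · obtain ⟨w, -, rfl⟩ := Finset.mem_map.1 hv
        exact w.2
  obtain ⟨P, hP, hfin, D, hD⟩ := small_two (G.comap (Subtype.val : {v // v ∈ U} → V)) k
    (fun σ hσ => by
      have h1 := hdim _ ((hcl σ).2 hσ)
      rwa [Finset.card_map] at h1) hvk ε hε
  let r : V → Module.End F2 (P → F2) := fun v => if h : v ∈ U then Vk2_rho P (D.g ⟨v, h⟩) else 1
  let E : V → Module.End F2 (P → F2) := fun v => if h : v ∈ U then Vk2_E D.b ⟨v, h⟩ else 1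
  have hr : ∀ v (h : v ∈ U) f p, r v f p = f (p * D.g ⟨v, h⟩) := by
    intro v h f p
    simp only [r, dif_pos h]
    rfl
  have hE : ∀ v (h : v ∈ U) f p, E v f p = if D.b p ⟨v, h⟩ = 0 then f p else 0 := by
    intro v h f p
    simp only [E, dif_pos h]
    rfl
  refine ⟨P → F2, inferInstance, inferInstance, inferInstance, r, E, ⟨?_, ?_, ?_⟩,
    ⟨?_, ?_, ?_, ?_⟩, ?_, ?_⟩
  · intro v hv y
    funext p
    rw [hr v hv, hr v hv, mul_assoc, D.sq, mul_one]
  · intro u hu v hv huv y
    funext p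
    rw [hr u hu, hr v hv, hr v hv, hr u hu, mul_assoc, mul_assoc]
    rw [D.comm ⟨u, hu⟩ ⟨v, hv⟩ huv]
  · exact fil_group D.two (Vk2_rho P) U r (fun v => if h : v ∈ U then D.g ⟨v, h⟩ else 1)
      (fun v hv => by simp only [r, dif_pos hv])
  · intro v hv y
    funext p
    rw [hE v hv, hE v hv]
    split_ifs <;> rfl
  · intro v hv y
    funext p
    rw [Pi.add_apply, hE v hv, hr v hv, hr v hv, hE v hv, D.b_mul, D.b_g, if_pos rfl]
    by_cases h0 : D.b p ⟨v, hv⟩ = 0
    · rw [if_pos h0, if_neg (fun h => (Vk2_two _).1 h h0), add_zero]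
    · rw [if_neg h0, if_pos ((Vk2_two _).2 h0), zero_add]
  · intro u hu v hv huv y
    funext p
    have hne : (⟨v, hv⟩ : {v // v ∈ U}) ≠ ⟨u, hu⟩ := fun h => huv.ne' (congrArg Subtype.val h)
    rw [hE u hu, hr v hv, hr v hv, hE u hu, D.b_mul, D.b_g, if_neg hne, add_zero]
  · intro u hu v hv _ y
    funext p
    rw [hE u hu, hE v hv, hE v hv, hE u hu]
    split_ifs <;> rfl
  · rw [Module.finrank_fintype_fun_eq_card]
    exact Fintype.card_pos
  · rw [Module.finrank_fintype_fun_eq_card]
    refine le_trans ?_ hD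
    have hkey : hX (Cq G U) r (k + 1) ≤ (dz (ZMod 2) (k + 1) D : ℤ) := by
      have hle : Module.finrank F2 (Ch (Sy (Cq G U) r) (k + 1) ⊓ LinearMap.ker dd :
          Submodule F2 (Finset V → P → F2)) ≤ dz (ZMod 2) (k + 1) D := by
        have hmem : ∀ z ∈ (Ch (Sy (Cq G U) r) (k + 1) ⊓ LinearMap.ker dd :
            Submodule F2 (Finset V → P → F2)), (fun σ => z (σ.map e)) ∈
              Zs (ZMod 2) (G.comap (Subtype.val : {v // v ∈ U} → V)) (k + 1)
                (rP (ZMod 2) D) := by
          rintro z ⟨hz1, hz2⟩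
          have hz1' : ∀ s, z s ∈ Sy (Cq G U) r s ∧ (s.card ≠ k + 1 → z s = 0) := hz1
          refine mem_Zs.2 ⟨fun σ hσ => ⟨?_, ?_⟩, fun σ v hv => ?_, fun κ => ?_⟩
          · refine (hcl σ).1 ?_
            by_contra hn
            exact hσ ((hz1' (σ.map e)).1.1 hn)
          · by_contra hn
            exact hσ ((hz1' (σ.map e)).2 (by rwa [Finset.card_map]))
          · have h1 := (hz1' (σ.map e)).1.2 v.1 (Finset.mem_map.2 ⟨v, hv, rfl⟩)
            funext p
            have h2 := congrFun h1 p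
            rw [hr v.1 v.2] at h2
            exact h2
          · have h1 : dd z (κ.map e) = 0 := congrFun (LinearMap.mem_ker.1 hz2) (κ.map e)
            rw [dd_apply] at h1
            rw [← h1]
            have h2 : ∑ v ∈ κᶜ, z ((insert v κ).map e) =
                ∑ v ∈ κᶜ.map e, z (insert v (κ.map e)) := by
              rw [Finset.sum_map]
              refine Finset.sum_congr rfl fun v _ => ?_
              rw [Finset.map_insert]
            rw [h2]
            refine Finset.sum_subset ?_ ?_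
            · intro v hv
              obtain ⟨w, hw, rfl⟩ := Finset.mem_map.1 hv
              rw [Finset.mem_compl] at hw ⊢
              intro h3
              exact hw ((Finset.mem_map' e).1 h3)
            · intro v hv hv'
              refine (hz1' _).1.1 fun hc => hv' ?_
              have hvU : v ∈ U := hc.2 (Finset.mem_insert_self _ _)
              refine Finset.mem_map.2 ⟨⟨v, hvU⟩, ?_, rfl⟩
              rw [Finset.mem_compl] at hv ⊢
              intro h3
              exact hv (Finset.mem_map.2 ⟨⟨v, hvU⟩, h3, rfl⟩)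
        let L : (Ch (Sy (Cq G U) r) (k + 1) ⊓ LinearMap.ker dd :
            Submodule F2 (Finset V → P → F2)) →ₗ[F2]
              Zs (ZMod 2) (G.comap (Subtype.val : {v // v ∈ U} → V)) (k + 1) (rP (ZMod 2) D) :=
          { toFun := fun z => ⟨fun σ => z.1 (σ.map e), hmem z.1 z.2⟩
            map_add' := fun _ _ => rfl
            map_smul' := fun _ _ => rfl }
        have hL : Function.Injective L := by
          rw [← LinearMap.ker_eq_bot, Submodule.eq_bot_iff]
          intro z hz
          have hz' : ∀ σ : Finset {v // v ∈ U}, z.1 (σ.map e) = 0 := fun σ =>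
            congrFun (congrArg Subtype.val (LinearMap.mem_ker.1 hz)) σ
          apply Subtype.ext
          funext s
          by_cases hs : s ⊆ U
          · have h1 : (s.subtype (fun v => v ∈ U)).map e = s :=
              Finset.subtype_map_of_mem hs
            have h2 := hz' (s.subtype (fun v => v ∈ U))
            rw [h1] at h2
            exact h2
          · exact (z.2.1 s).1.1 fun hc => hs hc.2
        exact LinearMap.finrank_le_finrank_of_injective hL
      unfold hX hd hx
      have h0 : (0 : ℤ) ≤ (Module.finrank F2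
          ((Ch (Sy (Cq G U) r) (k + 1 + 1)).map dd) : ℤ) := Int.natCast_nonneg _
      have h1 : (Module.finrank F2 (Ch (Sy (Cq G U) r) (k + 1) ⊓ LinearMap.ker dd :
          Submodule F2 (Finset V → P → F2)) : ℤ) ≤ (dz (ZMod 2) (k + 1) D : ℤ) := by
        exact_mod_cast hle
      linarith
    exact_mod_cast hkey

end Pool.Agent.H73.GC

end

section

/-!
# Project S9, block U: the unstable relation for spheres
-/

set_option autoImplicit false
set_option linter.unusedSectionVars false

open Finset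

namespace Pool.Agent.S9.U

open Pool.Agent.H19.SR (cob cupc bel Face gp IsSph)

variable {V : Type} [DecidableEq V] [Fintype V] {G : SimpleGraph V} {W : Type} [Group W]
  (R : Rac G W) {K : Type} [Field K]

section Den

variable {E : Type} [AddCommGroup E] [Module K E] {N : Type} [AddCommGroup N] [Module K N]

/-- the evaluation -/
def fl (K E : Type) [Field K] [AddCommGroup E] [Module K E] : E →ₗ[K] (E →ₗ[K] K) →ₗ[K] K :=
  (LinearMap.id : (E →ₗ[K] K) →ₗ[K] E →ₗ[K] K).flip

/-- the density `x cup T(a cup_(m - 1) a)` on one cube -/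
def dl (ν : V → ℕ) (m : ℕ) (T : N →ₗ[K] N →ₗ[K] E →ₗ[K] K) (x : Finset V → Finset V → E)
    (a : Finset V → Finset V → N) : Finset V → Finset V → K :=
  cupb (fl K E) ν 0 x (cupsb T ν m a a)

/-- the density on all cubes -/
noncomputable def den (ν : V → ℕ) (m : ℕ) (T : N →ₗ[K] N →ₗ[K] E →ₗ[K] K) (x : Finset V → W → E)
    (a : Finset V → W → N) (A : Finset V) (w : W) : K :=
  dl ν m T (loc R x w) (loc R a w) A ∅

theorem dl_nat {E' : Type} [AddCommGroup E'] [Module K E'] {N' : Type} [AddCommGroup N']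
    [Module K N'] (ν : V → ℕ) (m : ℕ) (T : N →ₗ[K] N →ₗ[K] E →ₗ[K] K)
    (T' : N' →ₗ[K] N' →ₗ[K] E' →ₗ[K] K) {x : Finset V → Finset V → E}
    {a : Finset V → Finset V → N} {x' : Finset V → Finset V → E'} {a' : Finset V → Finset V → N'}
    (h : ∀ B C B' C' D D', T (a B C) (a B' C') (x D D') = T' (a' B C) (a' B' C') (x' D D'))
    (B C : Finset V) : dl ν m T x a B C = dl ν m T' x' a' B C := by
  have h1 : ∀ B C D D', cupsb T ν m a a B C (x D D') = cupsb T' ν m a' a' B C (x' D D') := by
    intro B C D D'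
    cases m with
    | zero => rfl
    | succ m =>
      show cupb T ν m a a B C (x D D') = cupb T' ν m a' a' B C (x' D D')
      unfold cupb
      rw [LinearMap.sum_apply, LinearMap.sum_apply]
      refine sum_congr rfl fun M _ => ?_
      rw [LinearMap.sum_apply, LinearMap.sum_apply]
      exact sum_congr rfl fun F _ => h _ _ _ _ _ _
  unfold dl
  conv_lhs => unfold cupb
  conv_rhs => unfold cupb
  exact sum_congr rfl fun M _ => sum_congr rfl fun D _ => h1 _ _ _ _

theorem den_nat {E' : Type} [AddCommGroup E'] [Module K E'] {N' : Type} [AddCommGroup N']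
    [Module K N'] (ν : V → ℕ) (m : ℕ) (T : N →ₗ[K] N →ₗ[K] E →ₗ[K] K)
    (T' : N' →ₗ[K] N' →ₗ[K] E' →ₗ[K] K) {x : Finset V → W → E} {a : Finset V → W → N}
    {x' : Finset V → W → E'} {a' : Finset V → W → N'}
    (h : ∀ B w B' w' D w'', T (a B w) (a B' w') (x D w'') = T' (a' B w) (a' B' w') (x' D w''))
    (A : Finset V) (w : W) : den R ν m T x a A w = den R ν m T' x' a' A w :=
  dl_nat ν m T T' (fun _ _ _ _ _ _ => h _ _ _ _ _ _) A ∅

theorem den_inv {Γ : Subgroup W} (ν : V → ℕ) (m : ℕ) (T : N →ₗ[K] N →ₗ[K] E →ₗ[K] K)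
    (ρE : Γ →* Module.End K E) (ρN : Γ →* Module.End K N)
    (hT : ∀ g n n' e, T (ρN g n) (ρN g n') (ρE g e) = T n n' e)
    {x : Finset V → W → E} {a : Finset V → W → N} (hx : ∀ A, ∀ g : Γ, ∀ w, x A (g * w) = ρE g (x A w))
    (ha : ∀ A, ∀ g : Γ, ∀ w, a A (g * w) = ρN g (a A w)) (A : Finset V) (g : Γ) (w : W) :
    den R ν m T x a A (g * w) = den R ν m T x a A w := by
  refine dl_nat ν m T T (fun B C B' C' D D' => ?_) A ∅
  unfold loc
  rw [mul_assoc, mul_assoc, mul_assoc, hx, ha, ha, hT]

theorem dl_face (ν : V → ℕ) (m : ℕ) (T : N →ₗ[K] N →ₗ[K] E →ₗ[K] K) {Q : Finset V}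
    {x x' : Finset V → Finset V → E} {a a' : Finset V → Finset V → N}
    (hx : ∀ B C, Face Q B C → x B C = x' B C) (ha : ∀ B C, Face Q B C → a B C = a' B C)
    (B C : Finset V) (h : Face Q B C) : dl ν m T x a B C = dl ν m T x' a' B C :=
  cupb_face (fl K E) ν 0 hx (cupsb_face T ν m ha ha) B C h

theorem dl_shift (ν : V → ℕ) (m : ℕ) (T : N →ₗ[K] N →ₗ[K] E →ₗ[K] K) (v : V)
    (x : Finset V → Finset V → E) (a : Finset V → Finset V → N) (B C : Finset V) :
    dl ν m T (fun B C => x B (insert v C)) (fun B C => a B (insert v C)) B C =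
      dl ν m T x a B (insert v C) := by
  unfold dl
  rw [← cupb_shift]
  congr 1
  funext B C
  exact cupsb_shift T ν m v a a B C

theorem den_shift (ν : V → ℕ) (m : ℕ) (T : N →ₗ[K] N →ₗ[K] E →ₗ[K] K) (x : Finset V → W → E)
    (a : Finset V → W → N) {Q : Finset V} (hQ : G.IsClique (Q : Set V)) {v : V} (hv : v ∈ Q)
    (w : W) : den R ν m T x a (Q.erase v) (w * R.s v) =
      dl ν m T (loc R x w) (loc R a w) (Q.erase v) {v} := by
  unfold den
  rw [dl_face ν m T (loc_shift R x hQ hv w) (loc_shift R a hQ hv w) (Q.erase v) ∅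
    ⟨disjoint_empty_right _, by rw [union_empty]⟩, dl_shift]
  rfl

theorem den_cb [CharP K 2] [FiniteDimensional K E] [FiniteDimensional K N] {ν : V → ℕ}
    (hν : Function.Injective ν) (m : ℕ) (T : N →ₗ[K] N →ₗ[K] E →ₗ[K] K) (x : Finset V → W → E)
    {a : Finset V → W → N} (ha : cb R a = 0) {Q : Finset V} (hQ : G.IsClique (Q : Set V)) (w : W) :
    ∑ v ∈ Q, (den R ν (m + 1) T x a (Q.erase v) w +
      den R ν (m + 1) T x a (Q.erase v) (w * R.s v)) =
      den R ν (m + 1) T (cb R x) a Q w + den R ν m (T + T.flip) x a Q w := by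
  have hF : Face Q Q ∅ := ⟨disjoint_empty_right _, by rw [union_empty]⟩
  have h1 : ∑ v ∈ Q, (den R ν (m + 1) T x a (Q.erase v) w +
      den R ν (m + 1) T x a (Q.erase v) (w * R.s v)) =
      cobm (cupb (fl K E) ν 0 (loc R x w) (cupsb T ν (m + 1) (loc R a w) (loc R a w))) Q ∅ := by
    unfold cobm
    refine sum_congr rfl fun v hv => ?_
    rw [den_shift R ν (m + 1) T x a hQ hv w]
    rfl
  rw [h1, cobm_cupb_zero]
  congr 1
  · exact cupb_face (fl K E) ν 0 (cobm_loc R x hQ w) (fun _ _ _ => rfl) Q ∅ hF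
  · refine cupb_face (fl K E) ν 0 (fun _ _ _ => rfl) (fun B C h => ?_) Q ∅ hF
    refine cobm_cupsb_self T hν m (fun B C h => ?_) B C h
    rw [cobm_loc R a hQ w B C h, ha]
    rfl

end Den

theorem Cc_map {E : Type} [AddCommGroup E] [Module K E] {E' : Type} [AddCommGroup E'] [Module K E']
    {Γ : Subgroup W} (ρ : Γ →* Module.End K E) (ρ' : Γ →* Module.End K E') (L : E →ₗ[K] E')
    (hL : ∀ g e, L (ρ g e) = ρ' g (L e)) {k : ℕ} {x : Finset V → W → E} (hx : x ∈ Cc R Γ ρ k) :
    (fun A w => L (x A w)) ∈ Cc R Γ ρ' k := by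
  obtain ⟨h1, h2, h3⟩ := (mem_Cc R).1 hx
  refine (mem_Cc R).2 ⟨fun A hA => h1 A fun h => hA ?_, fun A v hv w => ?_, fun A g w => ?_⟩
  · funext w
    show L (x A w) = 0
    rw [h, Pi.zero_apply, map_zero]
  · show L (x A (w * R.s v)) = L (x A w)
    rw [h2 A v hv]
  · show L (x A (g * w)) = ρ' g (L (x A w))
    rw [h3 A g w, hL]

theorem cb_map {E : Type} [AddCommGroup E] [Module K E] {E' : Type} [AddCommGroup E'] [Module K E']
    (L : E →ₗ[K] E') (x : Finset V → W → E) (A : Finset V) (w : W) :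
    cb R (fun A w => L (x A w)) A w = L (cb R x A w) := by
  unfold cb
  by_cases h : G.IsClique (A : Set V)
  · rw [if_pos h, if_pos h, map_sum]
    exact sum_congr rfl fun v _ => (map_add L _ _).symm
  · rw [if_neg h, if_neg h, map_zero]

/-- the cup product of order `j` of a cochain of degree `j` with itself -/
theorem cupb_top {N M : Type} [AddCommGroup N] [Module K N] [AddCommGroup M] [Module K M]
    (b : N →ₗ[K] N →ₗ[K] M) (ν : V → ℕ) (j : ℕ) {a : Finset V → Finset V → N}
    (ha : ∀ B C, B.card ≠ j → a B C = 0) (B C : Finset V) :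
    cupb b ν j a a B C = b (a B C) (a B C) := by
  by_cases hB : B.card = j
  · unfold cupb
    have h1 : B.powersetCard j = {B} := by rw [← hB, powersetCard_self]
    have h2 : B \ B = ∅ := Finset.sdiff_self B
    rw [h1, sum_singleton, h2, powerset_empty, sum_singleton]
    simp
  · rw [ha B C hB, map_zero]
    unfold cupb
    refine sum_eq_zero fun N hN => sum_eq_zero fun D hD => ?_
    by_cases h1 : (B \ D).card = j
    · have h2 : (N ∪ D).card ≠ j := by
        intro h3
        obtain ⟨hN1, hN2⟩ := mem_powersetCard.1 hN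
        have hD1 := mem_powerset.1 hD
        have h4 : Disjoint N D := disjoint_sdiff_self_right.mono_right hD1
        rw [card_union_of_disjoint h4, hN2] at h3
        have h5 : D = ∅ := card_eq_zero.1 (by omega)
        rw [h5, sdiff_empty] at h1
        exact hB h1
      rw [ha _ _ h2, map_zero, LinearMap.zero_apply]
    · rw [ha _ _ h1, map_zero]

/-- the cup product of order `0` at the base point -/
theorem cupb_base {N N' M : Type} [AddCommGroup N] [Module K N] [AddCommGroup N'] [Module K N']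
    [AddCommGroup M] [Module K M] (b : N →ₗ[K] N' →ₗ[K] M) (ν : V → ℕ)
    (x : Finset V → Finset V → N) (y : Finset V → Finset V → N') (A : Finset V) :
    cupb b ν 0 x y A ∅ = ∑ D ∈ A.powerset, b (x D ∅) (y (A \ D) D) := by
  unfold cupb
  rw [powersetCard_zero, sum_singleton, sdiff_empty]
  refine sum_congr rfl fun τ _ => ?_
  have h6 : ∀ v, bel ν ∅ v = 0 := fun v => by simp [bel]
  have h7 : τ.filter (fun v => Even (bel ν ∅ v)) = τ :=
    filter_true_of_mem fun v _ => by rw [h6]; exact Even.zero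
  have h8 : ((A \ (∅ ∪ τ)).filter fun v => ¬ Even (bel ν ∅ v)) = ∅ :=
    filter_false_of_mem fun v _ h => h (by rw [h6]; exact Even.zero)
  rw [h7, h8, empty_union, empty_union]

end Pool.Agent.S9.U

end

section

/-!
# Project S9, block U: the unstable relation for discs
-/

set_option autoImplicit false
set_option linter.unusedSectionVars false

open Finset

namespace Pool.Agent.S9.U

open Pool.Agent.H19.SR (cob cupc bel Face gp IsSph)

variable {V : Type} [DecidableEq V] [Fintype V] {G : SimpleGraph V} {W : Type} [Group W]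
  (R : Rac G W) {K : Type} [Field K]

theorem den_bdry {E : Type} [AddCommGroup E] [Module K E] {N : Type} [AddCommGroup N] [Module K N]
    {Bd : Finset V → Prop} (ν : V → ℕ) (m : ℕ) (T : N →ₗ[K] N →ₗ[K] E →ₗ[K] K)
    (x : Finset V → W → E) {a : Finset V → W → N} {s : Finset V}
    (hd : ∀ t, Bd s → t ⊆ s → Bd t) (hs : Bd s) (ha : ∀ s, Bd s → ∀ w, a s w = 0) (w : W) :
    den R ν (m + 1) T x a s w = 0 := by
  have h1 : ∀ B C, Face s B C → loc R a w B C = (fun _ _ => (0 : N)) B C := fun B C h =>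
    ha B (hd B hs (subset_union_left.trans h.2)) _
  have h2 : ∀ B C, Face s B C → cupsb T ν (m + 1) (loc R a w) (loc R a w) B C =
      (fun _ _ => (0 : E →ₗ[K] K)) B C := by
    intro B C h
    show cupb T ν m (loc R a w) (loc R a w) B C = 0
    rw [cupb_face T ν m h1 (fun _ _ _ => rfl) B C h]
    exact cupb_zero_left T ν m _ B C
  show cupb (fl K E) ν 0 (loc R x w) (cupsb T ν (m + 1) (loc R a w) (loc R a w)) s ∅ = 0
  rw [cupb_face (fl K E) ν 0 (fun _ _ _ => rfl) h2 s ∅
    ⟨disjoint_empty_right _, by rw [union_empty]⟩]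
  exact cupb_zero_right (fl K E) ν 0 _ s ∅

/-- **The data for discs.** -/
noncomputable def dsc [CharP K 2] {n : ℕ} {Bd : Finset V → Prop} (hS : IsDisc G n Bd) {Γ : Subgroup W}
    (hb : ∀ g ∈ Γ, ∀ v, R.b g v = 0) {F : Finset W} (hF : IsTr Γ F) (j : ℕ) {ν : V → ℕ}
    (hν : Function.Injective ν) : Sys K Γ where
  S := Finset V × W
  S' := Finset V × W
  XC ρ k x := (fun A w => x (A, w)) ∈ Cc R Γ ρ k
  d x s := cb R (fun A w => x (A, w)) s.1 s.2
  YC ρ a := (fun A w => a (A, w)) ∈ Cc R Γ ρ j ∧ cb R (fun A w => a (A, w)) = 0 ∧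
    ∀ s, Bd s → ∀ w, a (s, w) = 0
  I m _ _ _ _ _ _ T x a := INT G R F n (den R ν m T (fun A w => x (A, w)) fun A w => a (A, w))
  XC_map ρ ρ' L hL k x hx := Cc_map R ρ ρ' L hL hx
  d_map L x s := cb_map R L _ _ _
  YC_map ρ ρ' L hL a ha := by
    refine ⟨Cc_map R ρ ρ' L hL ha.1, ?_, fun s hs w => ?_⟩
    · funext A w
      rw [cb_map R L (fun A w => a (A, w)), ha.2.1]
      exact map_zero L
    · show L (a (s, w)) = 0
      rw [ha.2.2 s hs w, map_zero]
  I_zero T x a := by
    refine INT_zero R F n fun A _ _ p _ => ?_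
    exact cupb_zero_right _ ν 0 _ A ∅
  I_nat m _ _ _ _ _ _ _ _ _ _ _ _ T x a T' x' a' h := by
    refine INT_congr R F n fun A _ _ p _ => ?_
    exact den_nat R ν m T T' (fun _ _ _ _ _ _ => h _ _ _) A p
  step m k _ _ _ _ _ _ _ _ ρE ρN T x a hT hx ha := by
    have h1 := stokesD R hS hF hb (M := K) CharTwo.add_self_eq_zero
      (den R ν (m + 1) T (fun A w => x (A, w)) fun A w => a (A, w)) (fun B g hg w =>
        den_inv R ν (m + 1) T ρE ρN hT ((mem_Cc R).1 hx).2.2 ((mem_Cc R).1 ha.1).2.2 B ⟨g, hg⟩ w)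
        (fun s hs w => den_bdry R ν m T _ (hS.down s) hs ha.2.2 w)
    rw [INT_congr R F n (fun A hA _ p _ => den_cb R hν m T (fun A w => x (A, w)) ha.2.1 hA p),
      INT_add] at h1
    exact CharTwo.add_eq_zero.1 h1

theorem effA_dsc [CharP K 2] {n : ℕ} {Bd : Finset V → Prop} (hS : IsDisc G n Bd) {Γ : Subgroup W}
    (hb : ∀ g ∈ Γ, ∀ v, R.b g v = 0) {F : Finset W} (hF : IsTr Γ F) (j : ℕ) {ν : V → ℕ}
    (hν : Function.Injective ν) {Λ : Subgroup Kˣ} (hE : Eff R K Γ Λ) :
    EffA (dsc R (K := K) hS hb hF j hν) Λ := by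
  intro k E _ _ _ ρ hρ x hx hd
  obtain ⟨E', i1, i2, i3, ρ', ι, y, h1, h2, h3, h4, h5⟩ := hE k E ρ hρ (fun A w => x (A, w)) hx
    (funext fun A => funext fun w => hd (A, w))
  exact ⟨E', i1, i2, i3, ρ', ι, fun s => y s.1 s.2, h1, h2, h3, h4, fun s => h5 s.1 s.2⟩

/-- **The unstable relation for discs.** -/
theorem U_mainD [CharP K 2] {n : ℕ} {Bd : Finset V → Prop} (hS : IsDisc G n Bd) {Γ : Subgroup W}
    (hb : ∀ g ∈ Γ, ∀ v, R.b g v = 0) (χ : Γ →* Kˣ) (hE : Eff R K Γ (sqr χ)) {F : Finset W}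
    (hF : IsTr Γ F) {i j : ℕ} (hij : i + j = n) (hji : j < i) {x : Finset V → W → K}
    (hx : x ∈ Cc R Γ (ch (χ⁻¹ ^ 2)) i) (hd : cb R x = 0) :
    ∃ (N : Type) (_ : AddCommGroup N) (_ : Module K N) (_ : FiniteDimensional K N)
      (ρ : Γ →* Module.End K N) (π : N →ₗ[K] K), Tri (sqr χ) ρ ∧ Function.Surjective π ∧
      (∀ g y, π (ρ g y) = π y) ∧ ∀ a ∈ Cc R Γ (tw χ ρ) j, cb R a = 0 → (∀ s, Bd s → a s = 0) →
        INT G R F n (fun A w => ∑ τ ∈ A.powersetCard i,
          x τ w * π (a (A \ τ) (w * gp R.s τ)) ^ 2) = 0 := by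
  classical
  obtain ⟨ν, hν⟩ : ∃ ν : V → ℕ, Function.Injective ν :=
    ⟨fun v => (Fintype.equivFin V v : ℕ), fun u v h =>
      (Fintype.equivFin V).injective (Fin.ext h)⟩
  have hc : (χ⁻¹ ^ 2 : Γ →* Kˣ) = im2 χ := MonoidHom.ext fun g => inv_pow (χ g) 2
  rw [hc] at hx
  have hE' := effA_dsc R hS hb hF j hν hE
  obtain ⟨N, i1, i2, i3, ρ, π, h1, h2, h3, h4⟩ := claim (dsc R (K := K) hS hb hF j hν) hE' (j + 1)
    i (by omega) K K (ch (im2 χ)) 1 (tri_ch (im2_mem χ)) tri_one
    (LinearMap.mk₂ K (fun n n' => (n * n') • (LinearMap.id : K →ₗ[K] K))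
      (fun a b c => by rw [add_mul, add_smul]) (fun c a b => by rw [smul_eq_mul, mul_assoc, mul_smul])
      (fun a b c => by rw [mul_add, add_smul])
      (fun c a b => by rw [smul_eq_mul, mul_left_comm, mul_smul]))
    (fun a b => by
      show (a * b) • (LinearMap.id : K →ₗ[K] K) = (b * a) • _
      rw [mul_comm])
    (fun g a b e => by
      show (a * b) * ((im2 χ g : K) * e) = (im2 χ g : K) * (a * b * e)
      ring)
    (fun s => x s.1 s.2) hx (fun s => by
      show cb R x s.1 s.2 = 0
      rw [hd]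
      rfl)
  refine ⟨N, i1, i2, i3, ρ, π, h1, h2, h3, fun a ha hca hBa => ?_⟩
  rw [← h4 (fun s => a s.1 s.2) ⟨ha, hca, fun s hs w => by
    show a s w = 0
    rw [hBa s hs]
    rfl⟩]
  refine INT_congr R F n fun A hA hAn p _ => ?_
  have hz : ∀ B C, B.card ≠ j → loc R (fun A w => π (a A w)) p B C = 0 := by
    intro B C hB
    have h5 : a B = 0 := by
      by_contra h
      exact hB (((mem_Cc R).1 ha).1 B h).2
    show π (a B _) = 0
    rw [h5, Pi.zero_apply, map_zero]
  show _ = cupb (fl K K) ν 0 (loc R x p) (cupb _ ν j (loc R (fun A w => π (a A w)) p)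
    (loc R (fun A w => π (a A w)) p)) A ∅
  rw [cupb_base]
  have h7 : ∀ B ∈ A.powerset, B ∉ A.powersetCard i → fl K K (loc R x p B ∅)
      (cupb (LinearMap.mk₂ K (fun n n' => (n * n') • (LinearMap.id : K →ₗ[K] K))
        (fun a b c => by rw [add_mul, add_smul])
        (fun c a b => by rw [smul_eq_mul, mul_assoc, mul_smul])
        (fun a b c => by rw [mul_add, add_smul])
        (fun c a b => by rw [smul_eq_mul, mul_left_comm, mul_smul])) ν j
        (loc R (fun A w => π (a A w)) p) (loc R (fun A w => π (a A w)) p) (A \ B) B) = 0 := by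
    intro B hB hB'
    have h9 : x B = 0 := by
      by_contra h
      exact hB' (mem_powersetCard.2 ⟨mem_powerset.1 hB, (((mem_Cc R).1 hx).1 B h).2⟩)
    have h10 : loc R x p B ∅ = 0 := by
      unfold loc
      rw [h9]
      rfl
    rw [h10, map_zero]
    rfl
  rw [← sum_subset (fun B hB => mem_powerset.2 (mem_powersetCard.1 hB).1) h7]
  refine sum_congr rfl fun τ hτ => ?_
  rw [cupb_top _ ν j hz]
  show x τ p * π (a (A \ τ) (p * gp R.s τ)) ^ 2 =
    (π (a (A \ τ) (p * gp R.s τ)) * π (a (A \ τ) (p * gp R.s τ))) * x τ (p * gp R.s ∅)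
  rw [gp_emp, mul_one]
  ring

end Pool.Agent.S9.U

end

section

/-!
# Project S9, block F: discs (spheres and balls)
-/

set_option autoImplicit false
set_option linter.unusedSectionVars false

open Finset

namespace Pool.Agent.S9

open Pool.Agent.H19.SR

variable {V : Type} [DecidableEq V] [Fintype V] {G : SimpleGraph V} {W : Type} [Group W]

/-- the unstable relation implies the main theorem of the block -/
theorem F_mainD_of (R : Rac G W) {n : ℕ} {B : Finset V → Prop} (hS : IsDisc G n B) {i : ℕ} {Γ : Subgroup W}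
    (hΓ : Lev R Γ) {K : Type} [Field K] [CharP K 2] (χ : Γ →* Kˣ)
    (hU : ∀ (F : Finset W), IsTr Γ F → ∀ j : ℕ, i + j = n → ∀ x ∈ Cc R Γ (ch (χ⁻¹ ^ 2)) i,
      cb R x = 0 → ∃ (N : Type) (_ : AddCommGroup N) (_ : Module K N) (_ : FiniteDimensional K N)
        (ρ : Γ →* Module.End K N) (π : N →ₗ[K] K), Tri (sqr χ) ρ ∧ Function.Surjective π ∧
        (∀ g y, π (ρ g y) = π y) ∧ ∀ a ∈ Cc R Γ (tw χ ρ) j, cb R a = 0 →
          (∀ s, B s → a s = 0) → INT G R F n (fun A w => ∑ τ ∈ A.powersetCard i,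
            x τ w * π (a (A \ τ) (w * gp R.s τ)) ^ 2) = 0)
    (z₀ : Finset V → W → K) (hz : z₀ ∈ Zc R Γ (ch χ) i) (hl : Lifts R Γ χ i z₀) :
    z₀ ∈ Bc R Γ (ch χ) i := by
  classical
  have := hΓ.fin
  obtain ⟨F, hF⟩ := tr_ex Γ
  refine uc R hΓ hF χ hz fun x hx hcx => ?_
  rcases Nat.lt_or_ge n i with hni | hni
  · -- no cells
    unfold PAIR
    refine sum_eq_zero fun A hA => sum_eq_zero fun p _ => ?_
    have h1 : x A = 0 := by
      by_contra h
      obtain ⟨h2, h3⟩ := ((mem_Cc R).1 hx).1 A h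
      have := hS.card_le A h2
      omega
    show x A p * z₀ A p ^ 2 = 0
    rw [h1, Pi.zero_apply, zero_mul]
  obtain ⟨N, _, _, _, ρ, π, hT, hπ, hinv, hint⟩ := hU F hF (n - i) (by omega) x hx hcx
  obtain ⟨z, hz', hzz⟩ := hl N ρ π hT hπ hinv
  obtain ⟨a, ha, hca, haB, hd⟩ := dualD R hS hΓ.bits hF (tw χ ρ) hni hz'
  have h1 := hd χ π (fun g y => by
    show π ((χ g : K) • ρ g y) = _
    rw [map_smul, hinv, smul_eq_mul]) x hx hcx
  rw [hint a ha hca haB] at h1
  rw [← h1]
  unfold PAIR
  refine sum_congr rfl fun A _ => sum_congr rfl fun p _ => ?_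
  show x A p * z₀ A p ^ 2 = x A p * π (z A p) ^ 2
  rw [hzz]

/-- BLOCKS U, F for discs -/
theorem F_mainD (R : Rac G W) {n : ℕ} {B : Finset V → Prop} (hS : IsDisc G n B) {i : ℕ} (hi : n < 2 * i) {Γ : Subgroup W}
    (hΓ : Lev R Γ) {K : Type} [Field K] [CharP K 2] (χ : Γ →* Kˣ) (hE : Eff R K Γ (sqr χ))
    (z₀ : Finset V → W → K) (hz : z₀ ∈ Zc R Γ (ch χ) i) (hl : Lifts R Γ χ i z₀) :
    z₀ ∈ Bc R Γ (ch χ) i :=
  F_mainD_of R hS hΓ χ (fun _ hF _ hij _ hx hcx =>
    U.U_mainD R hS hΓ.bits χ hE hF hij (by omega) hx hcx) z₀ hz hl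

end Pool.Agent.S9

end
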