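import Pool.Agent.H71.TSG.M23
import Pool.Agent.H71.TSG.M27
import Pool.Agent.H71.TSG.M29
import Pool.Agent.H71.TSG.M33
import Pool.Agent.H71.TSG.M41
import Pool.Agent.H71.TSG.M52

/-! The parts of this file: H4.Singer.HarmInf, H4.Singer.HarmFin, H4.Singer.HarmMatrix, H4.Singer3.SFinL2, H73.GC.Bridge. -/

section

/-!
# Singer project: harmonic `ℓ²`-chains are in the kernel of the matrix
-/

set_option autoImplicit false
set_option linter.unusedSectionVars false

open Finset

namespace Pool.Agent.H4.Singer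

open Pool.Agent.H4.Atiyah

variable {V : Type} [Fintype V] [DecidableEq V]

/-- the matrix `HM` with rows and columns numbered by `Fin` -/
noncomputable def HA (G : SimpleGraph V) (ν : V → ℕ) (i : ℕ) :
    Matrix (Fin (Fintype.card (RI G i))) (Fin (Fintype.card (CI G i)))
      (MonoidAlgebra ℤ (RGrp G)) :=
  (HM G ν i).submatrix (Fintype.equivFin (RI G i)).symm (Fintype.equivFin (CI G i)).symm

private lemma gen_inv' (G : SimpleGraph V) (v : V) : (gen G v)⁻¹ = gen G v := by
  have h : gen G v * gen G v = 1 := (racg G).toCoxeterSystem.simple_mul_simple_self v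
  exact inv_eq_of_mul_eq_one_left h

private lemma coeff_toC {W : Type} [Group W] (a : MonoidAlgebra ℤ W) (h : W) :
    (MonoidAlgebra.mapRingHom W (Int.castRingHom ℂ) a).coeff h = ((a.coeff h : ℤ) : ℂ) := by
  simp [MonoidAlgebra.mapRingHom]

private lemma sum_toC {W : Type} [Group W] (a : MonoidAlgebra ℤ W) (φ : W → ℂ) (g : W) :
    ∑ h ∈ (MonoidAlgebra.mapRingHom W (Int.castRingHom ℂ) a).coeff.support,
      φ (g * h⁻¹) * (MonoidAlgebra.mapRingHom W (Int.castRingHom ℂ) a).coeff h =
      gact (MonoidHom.id W) a φ g := by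
  unfold gact
  have hs : (MonoidAlgebra.mapRingHom W (Int.castRingHom ℂ) a).coeff.support =
      a.coeff.support := by
    ext h
    rw [Finsupp.mem_support_iff, Finsupp.mem_support_iff, coeff_toC]
    simp
  rw [hs]
  refine Finset.sum_congr rfl fun h _ => ?_
  rw [coeff_toC]
  rfl

/-- Proof: for a harmonic chain `x` the function `(j, w) ↦ x (row j) w` is in `lp` and in
`l2ker (toC (HA G ν i))` by `HM_anti`, `HM_bd`, `HM_cobd`, `HM_cobd_zero` (with `H = RGrp G`,
`π = id`; `(gen G v)⁻¹ = gen G v`). -/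
theorem harm_inf (G : SimpleGraph V) (ν : V → ℕ) (i : ℕ)
    (h0 : ∀ x ∈ l2ker (toC (HA G ν i)), x = 0) :
    ∀ x : Finset V → RGrp G → ℂ, IsHarm G ν i x → x = 0 := by
  classical
  intro x hx
  have hsupp : ∀ σ : Finset V, ¬ (G.IsClique (σ : Set V) ∧ σ.card = i) → x σ = 0 := by
    intro σ hσ
    funext w
    by_contra hne
    exact hσ (hx.chain.supp σ w hne)
  -- the function on `Fin k × W`
  let row : Fin (Fintype.card (RI G i)) → RI G i := (Fintype.equivFin (RI G i)).symm
  let F : Fin (Fintype.card (RI G i)) × RGrp G → ℂ := fun p => x (row p.1).1 p.2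
  have hF : Memℓp F 2 := by
    refine memℓp_gen ?_
    have h1 : Summable fun p : Fin (Fintype.card (RI G i)) × RGrp G => ‖F p‖ ^ 2 := by
      rw [summable_prod_of_nonneg (fun p => by positivity)]
      refine ⟨fun j => hx.chain.l2 (row j).1, ?_⟩
      exact Summable.of_finite
    refine h1.congr fun p => ?_
    norm_num
  let X : lp (fun _ : Fin (Fintype.card (RI G i)) × RGrp G => ℂ) 2 := ⟨F, hF⟩
  have hX : X ∈ l2ker (toC (HA G ν i)) := by
    intro c g
    have h1 : ∀ j : Fin (Fintype.card (RI G i)),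
        ∑ h ∈ ((toC (HA G ν i)) j c).coeff.support, X (j, g * h⁻¹) *
          ((toC (HA G ν i)) j c).coeff h =
        gact (MonoidHom.id (RGrp G))
          (HM G ν i (row j) ((Fintype.equivFin (CI G i)).symm c)) (x (row j).1) g := by
      intro j
      exact sum_toC (HM G ν i (row j) ((Fintype.equivFin (CI G i)).symm c)) (x (row j).1) g
    rw [Finset.sum_congr rfl fun j _ => h1 j]
    have h2 : ∑ j : Fin (Fintype.card (RI G i)), gact (MonoidHom.id (RGrp G))
          (HM G ν i (row j) ((Fintype.equivFin (CI G i)).symm c)) (x (row j).1) g =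
        ∑ σ : RI G i, gact (MonoidHom.id (RGrp G))
          (HM G ν i σ ((Fintype.equivFin (CI G i)).symm c)) (x σ.1) g :=
      Equiv.sum_comp (Fintype.equivFin (RI G i)).symm (fun σ : RI G i =>
        gact (MonoidHom.id (RGrp G)) (HM G ν i σ ((Fintype.equivFin (CI G i)).symm c)) (x σ.1) g)
    rw [h2]
    generalize (Fintype.equivFin (CI G i)).symm c = cc
    rcases cc with ⟨σ', v⟩ | τ | ρ
    · rw [HM_anti G ν i (MonoidHom.id (RGrp G)) x σ' v g]
      split_ifs with hv
      · rw [MonoidHom.id_apply, gen_inv', hx.chain.anti σ'.1 v hv g]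
        ring
      · rfl
    · rw [HM_bd G ν i (MonoidHom.id (RGrp G)) x hsupp τ g]
      exact congrFun (congrFun hx.cyc τ) g
    · by_cases hρ : G.IsClique (ρ : Set V) ∧ ρ.card = i + 1
      · rw [HM_cobd G ν i (MonoidHom.id (RGrp G)) x hsupp ρ hρ.1 hρ.2 g]
        have h3 := hx.cocyc ρ g hρ.1 hρ.2
        simp only [MonoidHom.id_apply, gen_inv']
        exact h3
      · exact HM_cobd_zero G ν i (MonoidHom.id (RGrp G)) x ρ hρ g
  have hX0 := h0 X hX
  funext σ w
  by_cases hσ : G.IsClique (σ : Set V) ∧ σ.card = i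
  · have h4 : X (Fintype.equivFin (RI G i) ⟨σ, hσ⟩, w) = 0 := by rw [hX0]; rfl
    have h5 : X (Fintype.equivFin (RI G i) ⟨σ, hσ⟩, w) = x σ w := by
      change x (row (Fintype.equivFin (RI G i) ⟨σ, hσ⟩)).1 w = x σ w
      simp only [row, Equiv.symm_apply_apply]
    rw [h5] at h4
    simpa using h4
  · rw [hsupp σ hσ]
    rfl

end Pool.Agent.H4.Singer

end

section

/-!
# Singer project: the kernel of the matrix over a finite quotient
-/

set_option autoImplicit false
set_option linter.unusedSectionVars false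

open Finset

namespace Pool.Agent.H4.Singer

open Pool.Agent.H4.Atiyah

variable {V C : Type} [DecidableEq V] [Fintype V] [DecidableEq C]

private theorem harmFin_coeff {W P : Type} [Group W] [Group P] [Fintype P] (π : W →* P)
    (a : MonoidAlgebra ℤ W) (φ : P → ℂ) (h : P) :
    ∑ g, φ g * (MonoidAlgebra.mapDomainRingHom ℂ π
      (MonoidAlgebra.mapRingHom W (Int.castRingHom ℂ) a)).coeff (g⁻¹ * h) = gact π a φ h := by
  classical
  induction a using MonoidAlgebra.induction_linear with
  | zero => simp [gact_zero]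
  | add a b ha hb =>
    rw [gact_add, ← ha, ← hb, ← Finset.sum_add_distrib]
    refine Finset.sum_congr rfl fun g _ => ?_
    rw [map_add, map_add, MonoidAlgebra.coeff_add, Finsupp.add_apply, mul_add]
  | single g r =>
    rw [gact_single, MonoidAlgebra.mapRingHom_single, MonoidAlgebra.mapDomainRingHom_apply,
      MonoidAlgebra.mapDomain_single, Finset.sum_eq_single (h * (π g)⁻¹)]
    · rw [MonoidAlgebra.coeff_single, mul_inv_rev, inv_inv, inv_mul_cancel_right,
        Finsupp.single_eq_same]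
      simp
    · intro g' _ hg'
      rw [MonoidAlgebra.coeff_single, Finsupp.single_eq_of_ne, mul_zero]
      intro he
      apply hg'
      rw [← he]
      group
    · intro hh
      exact absurd (Finset.mem_univ _) hh

/-- the extension by zero of a vector indexed by the cliques -/
private noncomputable def harmFinExt (G : SimpleGraph V) (i : ℕ) (P : Type) :
    (Fin (Fintype.card (RI G i)) × P → ℂ) →ₗ[ℂ] (Finset V → P → ℂ) := by
  classical
  exact
  { toFun := fun x σ p => if h : G.IsClique (σ : Set V) ∧ σ.card = i then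
      x (Fintype.equivFin (RI G i) ⟨σ, h⟩, p) else 0
    map_add' := by
      intro x y
      funext σ p
      simp only [Pi.add_apply]
      split_ifs <;> simp
    map_smul' := by
      intro c x
      funext σ p
      simp only [Pi.smul_apply, RingHom.id_apply]
      split_ifs <;> simp }

private theorem harmFinExt_of (G : SimpleGraph V) (i : ℕ) (P : Type)
    (x : Fin (Fintype.card (RI G i)) × P → ℂ) (σ : RI G i) (p : P) :
    harmFinExt G i P x σ.1 p = x (Fintype.equivFin (RI G i) σ, p) := by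
  classical
  show (if h : G.IsClique (σ.1 : Set V) ∧ σ.1.card = i then
      x (Fintype.equivFin (RI G i) ⟨σ.1, h⟩, p) else 0) = _
  rw [dif_pos σ.2]

private theorem harmFinExt_not (G : SimpleGraph V) (i : ℕ) (P : Type)
    (x : Fin (Fintype.card (RI G i)) × P → ℂ) (σ : Finset V)
    (hσ : ¬ (G.IsClique (σ : Set V) ∧ σ.card = i)) : harmFinExt G i P x σ = 0 := by
  classical
  funext p
  show (if h : G.IsClique (σ : Set V) ∧ σ.card = i then
      x (Fintype.equivFin (RI G i) ⟨σ, h⟩, p) else 0) = _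
  rw [dif_neg hσ]
  rfl

private theorem harmFinExt_injective (G : SimpleGraph V) (i : ℕ) (P : Type) :
    Function.Injective (harmFinExt G i P) := by
  intro x y hxy
  funext ⟨j, p⟩
  have h1 := congrFun (congrFun hxy ((Fintype.equivFin (RI G i)).symm j).1) p
  rwa [harmFinExt_of, harmFinExt_of, Equiv.apply_symm_apply] at h1

private theorem harmFin_key (G : SimpleGraph V) (ν : V → ℕ) (i : ℕ) (P : Type) [Group P]
    [Fintype P] (π : RGrp G →* P) (x : Fin (Fintype.card (RI G i)) × P → ℂ) (c : CI G i) (h : P) :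
    Matrix.vecMul x (op ((toC (HA G ν i)).map (MonoidAlgebra.mapDomainRingHom ℂ π)))
      (Fintype.equivFin (CI G i) c, h) =
      ∑ σ : RI G i, gact π (HM G ν i σ c) (harmFinExt G i P x σ.1) h := by
  rw [Matrix.vecMul, dotProduct, Fintype.sum_prod_type]
  rw [← Equiv.sum_comp (Fintype.equivFin (RI G i))]
  refine Finset.sum_congr rfl fun σ _ => ?_
  rw [← harmFin_coeff]
  refine Finset.sum_congr rfl fun g _ => ?_
  rw [harmFinExt_of]
  congr 1
  simp only [op, Matrix.of_apply, Matrix.map_apply, toC, HA, Matrix.submatrix_apply,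
    Equiv.symm_apply_apply]

/-- Proof: `k |P| - rank` is the dimension of the left kernel of the matrix (`Matrix.rank_transpose`,
rank-nullity). For `x` in the left kernel extend `x` to a function `Finset V → P → ℂ` by zero;
the map is injective and linear and the image `H` satisfies the hypothesis of `harm_finrank_le`, by
`HM_anti`, `HM_bd`, `HM_cobd` (with `H = P`): one has
`(x ᵥ* op (A.map (mapDomainRingHom ℂ π))) (c, h) = ∑ σ, gact π (A σ c) (x σ) h`. -/
theorem harm_fin (G : SimpleGraph V) (Γ : ColGraph V C) (hG : ∀ u v, G.Adj u v ↔ Γ.adj u v)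
    (ν : V → ℕ) (hν : Function.Injective ν) (i : ℕ) (P : Type) [Group P] [Fintype P]
    (π : RGrp G →* P) (XP : InvAct Γ P) (hXP : ∀ v p, XP.s v p = p * π (gen G v)) :
    ((Fintype.card (RI G i) : ℕ) * Fintype.card P : ℝ) -
      (op ((toC (HA G ν i)).map (MonoidAlgebra.mapDomainRingHom ℂ π))).rank ≤
        bet ℂ XP ν i := by
  classical
  set M := op ((toC (HA G ν i)).map (MonoidAlgebra.mapDomainRingHom ℂ π)) with hM
  -- the left kernel
  have hcl : ∀ σ : Finset V, Γ.Cl σ ↔ G.IsClique (σ : Set V) := by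
    intro σ
    constructor
    · intro h u hu v hv huv
      exact (hG u v).2 (h u hu v hv huv)
    · intro h u hu v hv huv
      exact (hG u v).1 (h hu hv huv)
  have hinv : ∀ v, (π (gen G v))⁻¹ = π (gen G v) := by
    intro v
    have h1 := XP.invol v 1
    rw [hXP, hXP, one_mul] at h1
    exact inv_eq_of_mul_eq_one_left h1
  have hker : ∀ x ∈ LinearMap.ker (Matrix.vecMulLinear M), ∀ (c : CI G i) (h : P),
      ∑ σ : RI G i, gact π (HM G ν i σ c) (harmFinExt G i P x σ.1) h = 0 := by
    intro x hx c h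
    have h1 : Matrix.vecMul x M = 0 := hx
    rw [← harmFin_key, ← hM, h1]
    rfl
  have hH : ∀ f ∈ (LinearMap.ker (Matrix.vecMulLinear M)).map (harmFinExt G i P),
      f ∈ Zc ℂ XP ν i ∧ ∀ ρ ω, Γ.Cl ρ → ρ.card = i + 1 →
      ∑ v ∈ ρ, (sg ν v (ρ.erase v) : ℂ) * (f (ρ.erase v) ω - f (ρ.erase v) (XP.s v ω)) = 0 := by
    rintro f ⟨x, hx, rfl⟩
    have hk := hker x hx
    have h0 := harmFinExt_not G i P x
    refine ⟨⟨?_, ?_⟩, ?_⟩
    · show harmFinExt G i P x ∈ Ch ℂ XP i
      rw [mem_Ch]
      refine ⟨?_, ?_⟩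
      · intro σ ω hne
        by_contra hcon
        rw [hcl] at hcon
        rw [h0 σ hcon] at hne
        exact hne rfl
      · intro σ v hv ω
        by_cases hσ : G.IsClique (σ : Set V) ∧ σ.card = i
        · have h1 := hk (Sum.inl (⟨σ, hσ⟩, v)) (XP.s v ω)
          rw [HM_anti, if_pos hv] at h1
          have h2 : XP.s v ω * (π (gen G v))⁻¹ = ω := by
            rw [hXP]
            group
          rw [h2] at h1
          exact eq_neg_of_add_eq_zero_left h1
        · rw [h0 σ hσ]
          simp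
    · show dl ℂ ν (harmFinExt G i P x) = 0
      funext τ h
      have h1 := hk (Sum.inr (Sum.inl τ)) h
      rw [HM_bd G ν i π _ h0] at h1
      rw [dl_apply, Pi.zero_apply, Pi.zero_apply, ← h1]
      refine Finset.sum_congr rfl fun v _ => ?_
      unfold sg
      push_cast
      rfl
    · intro ρ ω hρ hρi
      have h1 := hk (Sum.inr (Sum.inr ρ)) ω
      rw [HM_cobd G ν i π _ h0 ρ ((hcl ρ).1 hρ) hρi] at h1
      rw [← h1]
      refine Finset.sum_congr rfl fun v _ => ?_
      rw [hXP, hinv]
      unfold sg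
      push_cast
      rfl
  have hle := harm_finrank_le XP ν hν i _ hH
  have hfin : Module.finrank ℂ
      ((LinearMap.ker (Matrix.vecMulLinear M)).map (harmFinExt G i P)) =
      Module.finrank ℂ (LinearMap.ker (Matrix.vecMulLinear M)) :=
    (Submodule.equivMapOfInjective _ (harmFinExt_injective G i P) _).finrank_eq.symm
  have h1 := LinearMap.finrank_range_add_finrank_ker (Matrix.vecMulLinear M)
  rw [Module.finrank_fintype_fun_eq_card, Fintype.card_prod, Fintype.card_fin] at h1
  have h3 : Module.finrank ℂ (LinearMap.range (Matrix.vecMulLinear M)) = M.rank := by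
    have h4 : Matrix.vecMulLinear M = (Matrix.transpose M).mulVecLin := by
      apply LinearMap.ext
      intro x
      rw [Matrix.vecMulLinear_apply, Matrix.mulVecLin_apply, Matrix.mulVec_transpose]
    rw [h4, ← Matrix.rank_transpose M, Matrix.rank]
  rw [h3] at h1
  rw [hfin] at hle
  have h5 : ((Fintype.card (RI G i) : ℕ) * Fintype.card P : ℝ) =
      (M.rank : ℝ) + Module.finrank ℂ (LinearMap.ker (Matrix.vecMulLinear M)) := by
    exact_mod_cast h1.symm
  rw [h5]
  have h6 : (Module.finrank ℂ (LinearMap.ker (Matrix.vecMulLinear M)) : ℝ) ≤ bet ℂ XP ν i := by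
    exact_mod_cast hle
  linarith

end Pool.Agent.H4.Singer

end

section

/-!
# Singer project: harmonic chains as the kernel of an integer matrix over the group ring
-/

set_option autoImplicit false
set_option linter.unusedSectionVars false

open Finset

namespace Pool.Agent.H4.Singer

open Pool.Agent.H4.Atiyah

variable {V C : Type} [DecidableEq V] [Fintype V] [DecidableEq C]

theorem exists_harm_matrix (G : SimpleGraph V) (Γ : ColGraph V C)
    (hG : ∀ u v, G.Adj u v ↔ Γ.adj u v) (ν : V → ℕ) (hν : Function.Injective ν) (i : ℕ) :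
    ∃ (k n : ℕ) (A : Matrix (Fin k) (Fin n) (MonoidAlgebra ℤ (RGrp G))),
      ((∀ x ∈ l2ker (toC A), x = 0) →
        ∀ x : Finset V → RGrp G → ℂ, IsHarm G ν i x → x = 0) ∧
      ∀ (P : Type) [Group P] [Fintype P] (π : RGrp G →* P) (XP : InvAct Γ P),
        (∀ v p, XP.s v p = p * π (gen G v)) →
        (k * Fintype.card P : ℝ) -
          (op ((toC A).map (MonoidAlgebra.mapDomainRingHom ℂ π))).rank ≤ bet ℂ XP ν i :=
  ⟨_, _, HA G ν i, harm_inf G ν i, fun P _ _ π XP hXP => harm_fin G Γ hG ν hν i P π XP hXP⟩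

end Pool.Agent.H4.Singer

end

section

/-!
# Singer project, part three: from growth modulo two to `ℓ²`
-/

set_option autoImplicit false
set_option linter.unusedSectionVars false

open Finset Filter Topology

namespace Pool.Agent.H4.Singer3

open Pool.Agent.H4.Singer Pool.Agent.H4.Atiyah

variable {V : Type} [DecidableEq V] [Fintype V]

/-- the coloured graph with all colours different -/
def fl2Graph (G : SimpleGraph V) : ColGraph V V where
  adj := G.Adj
  symm _ _ h := h.symm
  col := id
  ne _ _ h := h.ne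

theorem fl2Graph_Cl (G : SimpleGraph V) (σ : Finset V) : (fl2Graph G).Cl σ ↔ KU G univ σ := by
  constructor
  · intro h
    exact ⟨Finset.subset_univ _, fun a ha b hb hab => h a (by exact_mod_cast ha) b
      (by exact_mod_cast hb) hab⟩
  · intro h a ha b hb hab
    exact h.2 (by exact_mod_cast ha) (by exact_mod_cast hb) hab

theorem fl2_neg (x : ZMod 2) : -x = x := CharTwo.neg_eq x

/-- an action as a set with involutions for the coloured graph -/
def fl2Inv {G : SimpleGraph V} {Ω : Type} (X : Act G Ω) : InvAct (fl2Graph G) Ω where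
  s := X.s
  invol := X.invol
  comm := X.comm
  bit := X.bit
  bit_s := X.bit_s

theorem fl2_Ch {G : SimpleGraph V} {Ω : Type} (X : Act G Ω) (i : ℕ) :
    Ch (ZMod 2) (fl2Inv X) i = CK X (KU G univ) i := by
  ext f
  rw [Singer.mem_Ch, mem_CK]
  constructor
  · rintro ⟨h1, h2⟩
    refine ⟨fun σ ω h => ⟨(fl2Graph_Cl G σ).1 (h1 σ ω h).1, (h1 σ ω h).2⟩, fun σ v hv ω => ?_⟩
    rw [← fl2_neg (f σ ω)]
    exact h2 σ v hv ω
  · rintro ⟨h1, h2⟩
    refine ⟨fun σ ω h => ⟨(fl2Graph_Cl G σ).2 (h1 σ ω h).1, (h1 σ ω h).2⟩, fun σ v hv ω => ?_⟩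
    rw [fl2_neg (f σ ω)]
    exact h2 σ v hv ω

theorem fl2_dl {Ω : Type} (ν : V → ℕ) :
    (Singer.dl (ZMod 2) ν : (Finset V → Ω → ZMod 2) →ₗ[ZMod 2] (Finset V → Ω → ZMod 2)) = bd := by
  refine LinearMap.ext fun f => ?_
  funext τ ω
  rw [Singer.dl_apply, bd_apply]
  refine Finset.sum_congr rfl fun v _ => ?_
  have h1 : ((sg ν v τ : ℤ) : ZMod 2) = 1 := by
    unfold sg
    push_cast
    rw [fl2_neg, one_pow]
  rw [h1, one_mul]

theorem fl2_bet {G : SimpleGraph V} {Ω : Type} (X : Act G Ω) (ν : V → ℕ) (i : ℕ) :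
    Singer.bet (ZMod 2) (fl2Inv X) ν i = bet X (KU G univ) i := by
  unfold Singer.bet bet hdim Zc Bc ZK BK
  rw [fl2_Ch, fl2_Ch, fl2_dl]

/-- the generators of the elementary abelian group -/
def fl2Cube (v : V) : V → Multiplicative (ZMod 2) :=
  Pi.mulSingle v (Multiplicative.ofAdd 1)

theorem fl2_mul_self (x : Multiplicative (ZMod 2)) : x * x = 1 := by
  revert x
  decide

theorem fl2Cube_sq (v : V) : fl2Cube v * fl2Cube v = (1 : V → Multiplicative (ZMod 2)) := by
  funext u
  exact fl2_mul_self _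

theorem fl2_isPGroup_cube : IsPGroup 2 (V → Multiplicative (ZMod 2)) := by
  intro x
  refine ⟨1, ?_⟩
  rw [pow_one, pow_two]
  funext u
  exact fl2_mul_self _

/-- generators of the product of a group with the cube -/
def fl2Ext {G : SimpleGraph V} {P : Type} [Group P] (g : V → P) (hg : ∀ v, g v * g v = 1)
    (hgc : ∀ u v, G.Adj u v → g u * g v = g v * g u) :
    Gen G (P × (V → Multiplicative (ZMod 2))) where
  g v := (g v, fl2Cube v)
  sq v := by
    rw [Prod.mk_mul_mk, hg, fl2Cube_sq]
    rfl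
  comm u v h := by
    rw [Prod.mk_mul_mk, Prod.mk_mul_mk, hgc u v h, mul_comm (fl2Cube u)]
  bit p u := decide (p.2 u = Multiplicative.ofAdd 1)
  bit_mul p v := by
    funext u
    by_cases h : u = v
    · subst h
      rw [Function.update_self]
      have h1 : (p * (g u, fl2Cube u)).2 u = p.2 u * Multiplicative.ofAdd 1 := by
        change p.2 u * (fl2Cube u : V → Multiplicative (ZMod 2)) u = _
        unfold fl2Cube
        rw [Pi.mulSingle_eq_same]
      rw [h1]
      generalize p.2 u = x
      revert x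
      decide
    · rw [Function.update_of_ne h]
      have h1 : (p * (g v, fl2Cube v)).2 u = p.2 u := by
        change p.2 u * (fl2Cube v : V → Multiplicative (ZMod 2)) u = _
        unfold fl2Cube
        rw [Pi.mulSingle_eq_of_ne h, mul_one]
      rw [h1]

theorem fl2_isPGroup_prod {P Q : Type} [Group P] [Group Q] (hP : IsPGroup 2 P) (hQ : IsPGroup 2 Q) :
    IsPGroup 2 (P × Q) := by
  rintro ⟨a, b⟩
  obtain ⟨k1, hk1⟩ := hP a
  obtain ⟨k2, hk2⟩ := hQ b
  refine ⟨k1 + k2, ?_⟩
  rw [Prod.pow_mk, pow_add, pow_mul, hk1, one_pow, mul_comm, pow_mul, hk2, one_pow]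
  rfl

/-- The proof of `Pool.Agent.H4.Singer.core` (part one, Core.lean) with the following changes.
Coloured graph: `Γ : ColGraph V V` with `col = id` and `adj = G.Adj`. For `j : ℕ` take
`P j = P₁ j × P₂ j` where `P₁ j` comes from `exists_two_group G j` (as in `exists_levels`,
Levels.lean) and `P₂ j`, `D j` from `h (2 ^ j)` (the hypothesis `Dens`);
`π j = (π₁ j).prod (the lift of (D j).g)` (`exists_lift`), `XP j : InvAct Γ (P j)` the right
multiplication by `π j (gen G v)` with the bits of `(D j).bit` on the second factor.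
For a finite set `Ω` with an `InvAct Γ Ω` whose involutions and that of an `Act G Ω` agree one has
`Singer.bet (ZMod 2) X ν i = Singer3.bet X' (KU G univ) i` (signs are `1` modulo two, `Γ.Cl σ` is
`G.IsClique σ`). By `bet_prod_right` (with `P := P₁ j`) `bet (XP j) ≤ |P₁ j| * bet (D j).act`, and
`2 ^ j * bet (D j).act ≤ |P₂ j|`, so `2 ^ j * bet (XP j) ≤ |P j|`. Then conclude as in `core` with
`bet_complex_le`, `l2_hodge`, `exists_harm_matrix`, `l2ker_trivial`. -/
theorem l2_of_dens (G : SimpleGraph V) (i : ℕ) (h : Dens G univ i) : L2HomologyZero G i := by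
  classical
  intro ν hν z hz hdz ε hε
  refine l2_hodge G ν hν i ?_ z hz hdz ε hε
  obtain ⟨kk, n, A, hA, hdim⟩ := exists_harm_matrix G (fl2Graph G) (fun _ _ => Iff.rfl) ν hν i
  have h1 := fun L => exists_two_group G L
  choose P₁ grp₁ fin₁ π₁ hP₁ hsep using h1
  have h2 := fun j : ℕ => h (2 ^ j)
  choose P₂ grp₂ fin₂ D hP₂ hD using h2
  let E : ∀ j, Gen G (P₁ j × (V → Multiplicative (ZMod 2))) := fun j =>
    fl2Ext (fun v => π₁ j (gen G v)) (fun v => by rw [← map_mul, gen_mul_gen, map_one])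
      (fun u v huv => by rw [← map_mul, ← map_mul, gen_comm G u v huv])
  obtain ⟨σ, hσ⟩ := exists_lift G (fl2Cube : V → V → Multiplicative (ZMod 2)) fl2Cube_sq
    (fun u v _ => mul_comm _ _)
  have h3 : ∀ j, ∃ π : RGrp G →* P₂ j, ∀ v, π (gen G v) = (D j).g v := fun j =>
    exists_lift G (D j).g (D j).sq (D j).comm
  choose π₂ hπ₂ using h3
  let π : ∀ j, RGrp G →* (P₁ j × (V → Multiplicative (ZMod 2))) × P₂ j := fun j =>
    ((π₁ j).prod σ).prod (π₂ j)
  have hπ : ∀ j v, π j (gen G v) = ((E j).prod (D j)).g v := by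
    intro j v
    change (((π₁ j) (gen G v), σ (gen G v)), (π₂ j) (gen G v)) =
      ((π₁ j (gen G v), fl2Cube v), (D j).g v)
    rw [hσ, hπ₂]
  have hsep' : ∀ w : RGrp G, w ≠ 1 → ∀ᶠ j in atTop, π j w ≠ 1 := by
    intro w hw
    filter_upwards [eventually_ge_atTop ((racg G).toCoxeterSystem.length w)] with j hj h0
    exact hsep j w hw hj (congrArg Prod.fst (congrArg Prod.fst h0))
  refine hA (l2ker_trivial π hsep' A ?_)
  intro η hη
  have hbd : ∀ j, (Singer.bet ℂ (fl2Inv ((E j).prod (D j)).act) ν i : ℝ) ≤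
      1 / 2 ^ j * Fintype.card ((P₁ j × (V → Multiplicative (ZMod 2))) × P₂ j) := by
    intro j
    have h4 : Singer.bet ℂ (fl2Inv ((E j).prod (D j)).act) ν i ≤
        Singer.bet (ZMod 2) (fl2Inv ((E j).prod (D j)).act) ν i :=
      bet_complex_le _ ν hν i (ZMod 2)
    rw [fl2_bet] at h4
    have h5 := bet_prod_right (fl2_isPGroup_prod (hP₁ j) fl2_isPGroup_cube) (E j) (D j) univ i
    have h6 := hD j
    have h7 : 2 ^ j * Singer.bet ℂ (fl2Inv ((E j).prod (D j)).act) ν i ≤
        Fintype.card ((P₁ j × (V → Multiplicative (ZMod 2))) × P₂ j) := by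
      rw [Fintype.card_prod]
      calc 2 ^ j * Singer.bet ℂ (fl2Inv ((E j).prod (D j)).act) ν i
          ≤ 2 ^ j * (Fintype.card (P₁ j × (V → Multiplicative (ZMod 2))) *
            bet (D j).act (KU G univ) i) := Nat.mul_le_mul_left _ (h4.trans h5)
        _ = Fintype.card (P₁ j × (V → Multiplicative (ZMod 2))) *
            (2 ^ j * bet (D j).act (KU G univ) i) := by ring
        _ ≤ _ := Nat.mul_le_mul_left _ h6
    have h8 : (2 ^ j * Singer.bet ℂ (fl2Inv ((E j).prod (D j)).act) ν i : ℝ) ≤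
        Fintype.card ((P₁ j × (V → Multiplicative (ZMod 2))) × P₂ j) := by exact_mod_cast h7
    rw [div_mul_eq_mul_div, le_div_iff₀ (by positivity)]
    linarith
  have hlim : Tendsto (fun j : ℕ => (1 : ℝ) / 2 ^ j) atTop (𝓝 0) := by
    have h9 : Tendsto (fun j : ℕ => (1 / 2 : ℝ) ^ j) atTop (𝓝 0) :=
      tendsto_pow_atTop_nhds_zero_of_lt_one (by norm_num) (by norm_num)
    refine h9.congr fun j => ?_
    rw [div_pow, one_pow]
  filter_upwards [hlim.eventually (eventually_le_nhds hη)] with j hj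
  refine (hdim _ (π j) (fl2Inv ((E j).prod (D j)).act) (fun v p => ?_)).trans ((hbd j).trans ?_)
  · rw [hπ]
    rfl
  · exact mul_le_mul_of_nonneg_right hj (Nat.cast_nonneg _)

end Pool.Agent.H4.Singer3

end

section

/-!
# Growth calculus: comparison with permutation modules

`GZ G U i` (bounds by modules) is equivalent to `Dens G U i` (bounds by finite two-groups), which gives the
vanishing of the `ℓ²`-homology.
-/

set_option autoImplicit false
set_option linter.unusedSectionVars false

open Finset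

namespace Pool.Agent.H73.GC

open Pool.Agent.H4.Singer3 (Dens Gen Act CK ZK BK bet KU)

variable {V : Type} [DecidableEq V] [Fintype V]

private theorem Bridge_cyc {P : Type} {G : SimpleGraph V} {U : Finset V} [Group P]
    (D : Gen G P) (i : ℕ) :
    (Ch (Sy (Cq G U) (regP D.g)) i : Submodule F2 (Finset V → P → F2)) =
      CK D.act (KU G U) i := by
  ext f
  rw [mem_Ch, Pool.Agent.H4.Singer3.mem_CK]
  constructor
  · intro h
    refine ⟨fun σ ω hne => ?_, fun σ v hv ω => ?_⟩
    · have h1 := (h σ).2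
      have h2 := (mem_Sy.1 (h σ).1).1
      have hf : f σ ≠ 0 := fun h0 => hne (by rw [h0]; rfl)
      have h3 : Cq G U σ := by
        by_contra hc
        exact hf (h2 hc)
      refine ⟨⟨h3.2, h3.1⟩, ?_⟩
      by_contra hc
      exact hf (h1 hc)
    · exact congrFun ((mem_Sy.1 (h σ).1).2 v hv) ω
  · rintro ⟨h1, h2⟩ σ
    refine ⟨mem_Sy.2 ⟨fun hc => ?_, fun v hv => ?_⟩, fun hc => ?_⟩
    · funext ω
      by_contra hne
      exact hc ⟨(h1 σ ω hne).1.2, (h1 σ ω hne).1.1⟩
    · funext ω
      exact h2 σ v hv ω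
    · funext ω
      by_contra hne
      exact hc (h1 σ ω hne).2

private theorem Bridge_dd {P : Type} :
    (dd : Module.End F2 (Finset V → P → F2)) = Pool.Agent.H4.Singer3.bd := by
  refine LinearMap.ext fun f => ?_
  funext s p
  rw [dd_apply, Finset.sum_apply]
  rfl

theorem hX_regP {G : SimpleGraph V} {U : Finset V} {P : Type} [Group P] [Fintype P]
    (D : Gen G P) (i : ℕ) : hX (Cq G U) (regP D.g) i = (bet D.act (KU G U) i : ℤ) := by
  have h1 := Submodule.finrank_mono
    (Pool.Agent.H4.Singer3.BK_le_ZK D.act (Pool.Agent.H4.Singer3.KU_down' G U) i)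
  have h2 : hX (Cq G U) (regP D.g) i =
      ((Module.finrank (ZMod 2) (ZK D.act (KU G U) i) : ℕ) : ℤ) -
        ((Module.finrank (ZMod 2) (BK D.act (KU G U) i) : ℕ) : ℤ) := by
    unfold hX hd hx
    rw [Bridge_cyc, Bridge_cyc, Bridge_dd]
    rfl
  rw [h2]
  unfold bet Pool.Agent.H4.Singer3.hdim
  generalize Module.finrank (ZMod 2) (ZK D.act (KU G U) i) = a at *
  generalize Module.finrank (ZMod 2) (BK D.act (KU G U) i) = b at *
  omega

theorem dens_of_gz {G : SimpleGraph V} {U : Finset V} {i : ℕ} (h : GZ G U i) : Dens G U i := by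
  intro m
  obtain ⟨Y, _, _, _, r, E, hN, hB, hpos, hbd⟩ := h (1 / (m + 1 : ℝ)) (by positivity)
  obtain ⟨P, _, _, ρ, g, hP, hρ, hg1, hsq, hcomm⟩ := exists_group hN
  have : Fintype P := Fintype.ofFinite P
  have hcomm' : ∀ u v, G.Adj u v → g u * g v = g v * g u := by
    intro u v huv
    by_cases hu : u ∈ U
    · by_cases hv : v ∈ U
      · exact hcomm u hu v hv huv
      · rw [hg1 v hv, mul_one, one_mul]
    · rw [hg1 u hu, mul_one, one_mul]
  let Cb := Pool.Agent.H4.Singer3.cubeGen G
  let D : Gen G (P × (V → Multiplicative (ZMod 2))) :=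
    { g := fun v => (g v, Cb.g v)
      sq := fun v => by
        rw [Prod.mk_mul_mk, hsq, Cb.sq]
        rfl
      comm := fun u v huv => by
        rw [Prod.mk_mul_mk, Prod.mk_mul_mk, hcomm' u v huv, Cb.comm u v huv]
      bit := fun p => Cb.bit p.2
      bit_mul := fun p v => Cb.bit_mul p.2 v }
  have hPP : IsPGroup 2 (P × (V → Multiplicative (ZMod 2))) :=
    Pool.Agent.H4.Singer3.isPGroup_prod hP Pool.Agent.H4.Singer3.isPGroup_cube
  refine ⟨P × (V → Multiplicative (ZMod 2)), inferInstance, inferInstance, D, hPP, ?_⟩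
  have h1 := reg_le hN hB hPP (ρ.comp (MonoidHom.fst P (V → Multiplicative (ZMod 2)))) D.g D.sq
    D.comm (fun v hv => hρ v hv) i
  rw [hX_regP] at h1
  have hc0 : (0 : ℝ) ≤ (Fintype.card (P × (V → Multiplicative (ZMod 2))) : ℝ) := Nat.cast_nonneg _
  have h6 : (0 : ℝ) ≤ (bet D.act (KU G U) i : ℝ) := Nat.cast_nonneg _
  have h2 : (Module.finrank F2 Y : ℝ) * (bet D.act (KU G U) i : ℝ) ≤
      Fintype.card (P × (V → Multiplicative (ZMod 2))) * (hX (Cq G U) r i : ℝ) := by
    exact_mod_cast h1
  suffices h8 : (m : ℝ) * (bet D.act (KU G U) i : ℝ) ≤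
      (Fintype.card (P × (V → Multiplicative (ZMod 2))) : ℝ) by exact_mod_cast h8
  generalize (Fintype.card (P × (V → Multiplicative (ZMod 2))) : ℝ) = c at *
  generalize (bet D.act (KU G U) i : ℝ) = b at *
  have hd : (0 : ℝ) < Module.finrank F2 Y := by exact_mod_cast hpos
  have h3 : (Module.finrank F2 Y : ℝ) * b ≤
      Module.finrank F2 Y * (c * (1 / (m + 1 : ℝ))) := by
    calc (Module.finrank F2 Y : ℝ) * b ≤ c * (hX (Cq G U) r i : ℝ) := h2
      _ ≤ c * (1 / (m + 1 : ℝ) * Module.finrank F2 Y) := mul_le_mul_of_nonneg_left hbd hc0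
      _ = _ := by ring
  have h4 : b ≤ c * (1 / (m + 1 : ℝ)) := le_of_mul_le_mul_left h3 hd
  have h5 : (m + 1 : ℝ) * b ≤ c := by
    rw [mul_one_div, le_div_iff₀ (by positivity)] at h4
    linarith
  nlinarith

/-! ### Restriction to the vertices in `U` -/

/-- extension by zero -/
private def Bridge_ex (U : Finset V) (P : Type) :
    (Finset {v // v ∈ U} → P → F2) →ₗ[F2] (Finset V → P → F2) where
  toFun f σ p := if σ ⊆ U then f (σ.subtype fun v => v ∈ U) p else 0
  map_add' f g := by
    funext σ p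
    simp only [Pi.add_apply]
    split_ifs <;> simp
  map_smul' c f := by
    funext σ p
    simp only [Pi.smul_apply, smul_eq_mul, RingHom.id_apply]
    split_ifs <;> simp

private theorem Bridge_ex_apply (U : Finset V) (P : Type) (f : Finset {v // v ∈ U} → P → F2)
    (σ : Finset V) (p : P) :
    Bridge_ex U P f σ p = if σ ⊆ U then f (σ.subtype fun v => v ∈ U) p else 0 := rfl

private theorem Bridge_sub_map (U : Finset V) (τ : Finset {v // v ∈ U}) :
    (τ.map (Function.Embedding.subtype _)) ⊆ U ∧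
      (τ.map (Function.Embedding.subtype _)).subtype (fun v => v ∈ U) = τ := by
  constructor
  · intro v hv
    obtain ⟨u, -, rfl⟩ := mem_map.1 hv
    exact u.2
  · ext ⟨v, hv⟩
    simp only [mem_subtype, mem_map, Function.Embedding.subtype_apply, Subtype.exists,
      exists_and_right, exists_eq_right]
    exact ⟨fun ⟨_, h⟩ => h, fun h => ⟨hv, h⟩⟩

private theorem Bridge_ex_inj (U : Finset V) (P : Type) : Function.Injective (Bridge_ex U P) := by
  intro f g h
  funext τ p
  obtain ⟨h1, h2⟩ := Bridge_sub_map U τ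
  have h3 := congrFun (congrFun h (τ.map (Function.Embedding.subtype _))) p
  rw [Bridge_ex_apply, Bridge_ex_apply, if_pos h1, if_pos h1, h2] at h3
  exact h3

private theorem Bridge_ex_bd (U : Finset V) (P : Type) (f : Finset {v // v ∈ U} → P → F2) :
    Pool.Agent.H4.Singer3.bd (Bridge_ex U P f) =
      Bridge_ex U P (Pool.Agent.H4.Singer3.bd f) := by
  funext σ p
  rw [Pool.Agent.H4.Singer3.bd_apply, Bridge_ex_apply]
  by_cases hσ : σ ⊆ U
  · rw [if_pos hσ, Pool.Agent.H4.Singer3.bd_apply]
    symm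
    refine Finset.sum_bij_ne_zero (fun v _ _ => v.1) ?_ ?_ ?_ ?_
    · rintro ⟨v, hv⟩ h1 _
      rw [mem_compl, mem_subtype] at h1
      exact mem_compl.2 h1
    · rintro ⟨v, hv⟩ _ _ ⟨w, hw⟩ _ _ h
      exact Subtype.ext h
    · intro v hv hne
      rw [Bridge_ex_apply] at hne
      by_cases hvU : v ∈ U
      · refine ⟨⟨v, hvU⟩, ?_, ?_, rfl⟩
        · rw [mem_compl, mem_subtype]
          exact mem_compl.1 hv
        · rw [if_pos (insert_subset hvU hσ)] at hne
          intro h0
          refine hne ?_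
          rw [← h0]
          congr 1
          ext ⟨w, hw⟩
          simp [Subtype.ext_iff]
      · exact absurd (if_neg fun h => hvU (h (mem_insert_self _ _))) hne
    · rintro ⟨v, hv⟩ _ _
      rw [Bridge_ex_apply, if_pos (insert_subset hv hσ)]
      congr 1
      ext ⟨w, hw⟩
      simp [Subtype.ext_iff]
  · rw [if_neg hσ]
    refine sum_eq_zero fun v _ => ?_
    rw [Bridge_ex_apply, if_neg fun h => hσ ((subset_insert _ _).trans h)]

theorem dens_comap {G : SimpleGraph V} {U : Finset V} {i : ℕ} (h : Dens G U i) :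
    Dens (G.comap (Subtype.val : {v // v ∈ U} → V)) univ i := by
  intro m
  obtain ⟨P, _, _, D, hP, hb⟩ := h m
  let G' : SimpleGraph {v // v ∈ U} := G.comap (Subtype.val : {v // v ∈ U} → V)
  let D' : Gen G' P :=
    { g := fun v => D.g v.1
      sq := fun v => D.sq v.1
      comm := fun u v huv => D.comm u.1 v.1 huv
      bit := fun p v => D.bit p v.1
      bit_mul := fun p v => by
        funext w
        rw [D.bit_mul]
        by_cases hw : w = v
        · rw [hw, Function.update_self, Function.update_self]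
        · rw [Function.update_of_ne hw, Function.update_of_ne fun h => hw (Subtype.ext h)] }
  refine ⟨P, inferInstance, inferInstance, D', hP, ?_⟩
  have hCK : ∀ j, (CK D'.act (KU G' univ) j).map (Bridge_ex U P) = CK D.act (KU G U) j := by
    intro j
    ext f
    constructor
    · rintro ⟨f, hf, rfl⟩
      obtain ⟨h1, h2⟩ := Pool.Agent.H4.Singer3.mem_CK.1 hf
      refine Pool.Agent.H4.Singer3.mem_CK.2 ⟨fun σ ω hne => ?_, fun σ v hv ω => ?_⟩
      · rw [Bridge_ex_apply] at hne
        by_cases hσ : σ ⊆ U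
        · rw [if_pos hσ] at hne
          obtain ⟨⟨-, h3⟩, h4⟩ := h1 _ _ hne
          refine ⟨⟨hσ, fun a ha b hb hab => ?_⟩, ?_⟩
          · have ha' : (⟨a, hσ ha⟩ : {v // v ∈ U}) ∈ σ.subtype fun v => v ∈ U :=
              mem_subtype.2 ha
            have hb' : (⟨b, hσ hb⟩ : {v // v ∈ U}) ∈ σ.subtype fun v => v ∈ U :=
              mem_subtype.2 hb
            exact h3 (mem_coe.2 ha') (mem_coe.2 hb') fun h => hab (congrArg Subtype.val h)
          · rw [← h4]
            rw [card_subtype, filter_true_of_mem fun x hx => hσ hx]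
        · exact absurd (if_neg hσ) hne
      · rw [Bridge_ex_apply, Bridge_ex_apply]
        split_ifs with hσ
        · exact h2 _ ⟨v, hσ hv⟩ (by simpa using hv) ω
        · rfl
    · intro hf
      obtain ⟨h1, h2⟩ := Pool.Agent.H4.Singer3.mem_CK.1 hf
      refine ⟨fun τ => f (τ.map (Function.Embedding.subtype _)),
        Pool.Agent.H4.Singer3.mem_CK.2 ⟨fun τ ω hne => ?_, fun τ v hv ω => ?_⟩, ?_⟩
      · obtain ⟨⟨-, h3⟩, h4⟩ := h1 _ _ hne
        refine ⟨⟨subset_univ _, fun a ha b hb hab => ?_⟩, ?_⟩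
        · exact h3 (mem_coe.2 (mem_map_of_mem _ (mem_coe.1 ha)))
            (mem_coe.2 (mem_map_of_mem _ (mem_coe.1 hb))) fun h => hab (Subtype.ext h)
        · rwa [card_map] at h4
      · exact h2 _ v.1 (mem_map_of_mem _ hv) ω
      · funext σ p
        rw [Bridge_ex_apply]
        by_cases hσ : σ ⊆ U
        · rw [if_pos hσ]
          congr 1
          ext v
          simp only [mem_map, mem_subtype, Function.Embedding.subtype_apply, Subtype.exists,
            exists_and_left, exists_prop, exists_eq_right_right]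
          exact ⟨fun h => h.1, fun h => ⟨h, hσ h⟩⟩
        · rw [if_neg hσ]
          by_contra hne
          exact hσ (h1 σ p (Ne.symm hne)).1.1
  have hZ : (ZK D'.act (KU G' univ) i).map (Bridge_ex U P) = ZK D.act (KU G U) i := by
    ext f
    rw [Pool.Agent.H4.Singer3.mem_ZK, ← hCK]
    constructor
    · rintro ⟨f, hf, rfl⟩
      refine ⟨⟨f, hf.1, rfl⟩, ?_⟩
      have h3 : Pool.Agent.H4.Singer3.bd f = 0 := hf.2
      rw [Bridge_ex_bd, h3, map_zero]
    · rintro ⟨⟨f, hf, rfl⟩, h3⟩
      refine ⟨f, ⟨hf, ?_⟩, rfl⟩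
      rw [Bridge_ex_bd] at h3
      exact Bridge_ex_inj U P (h3.trans (map_zero _).symm)
  have hB : (BK D'.act (KU G' univ) i).map (Bridge_ex U P) = BK D.act (KU G U) i := by
    ext f
    rw [Pool.Agent.H4.Singer3.mem_BK, ← hCK]
    constructor
    · rintro ⟨_, ⟨y, hy, rfl⟩, rfl⟩
      exact ⟨_, ⟨y, hy, rfl⟩, Bridge_ex_bd U P y⟩
    · rintro ⟨_, ⟨y, hy, rfl⟩, rfl⟩
      exact ⟨_, ⟨y, hy, rfl⟩, (Bridge_ex_bd U P y).symm⟩
  have h5 : bet D'.act (KU G' univ) i = bet D.act (KU G U) i := by
    unfold bet Pool.Agent.H4.Singer3.hdim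
    rw [← hZ, ← hB, ← (Submodule.equivMapOfInjective _ (Bridge_ex_inj U P) _).finrank_eq,
      ← (Submodule.equivMapOfInjective _ (Bridge_ex_inj U P) _).finrank_eq]
  rw [h5]
  exact hb

end Pool.Agent.H73.GC

end
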