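import Pool.Agent.H71.TSG.M23
import Pool.Agent.H71.TSG.M37
import Pool.Agent.H71.TSG.M41
import Pool.Agent.H71.TSG.M52

/-! The parts of this file: H73.GC.Glue6, H73.GC.Del, H73.GC.Glue, H73.GC.Merge, H73.GC.Rem. -/

section

/-!
# Growth calculus: gluing, the module for the whole complex
-/

set_option autoImplicit false
set_option linter.unusedSectionVars false

open Finset

namespace Pool.Agent.H73.GC

variable {V : Type} [DecidableEq V] [Fintype V]
variable {Y : Type} [AddCommGroup Y] [Module F2 Y]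

section Tw

variable {G : SimpleGraph V} {A B : Finset V} {ν : Module.End F2 Y}

theorem gtw_gg (hνν : ∀ y, ν (ν y) = 0) (y : Y) : (1 + ν) ((1 + ν) y) = y := by
  rw [gone, gone, map_add, hνν, add_zero, add_assoc, ZModModule.add_self, add_zero]

theorem gtw_comm_aux {P Q : V → Module.End F2 Y}
    (hPQ : ∀ u ∈ A ∪ B, ∀ v ∈ A ∪ B, G.Adj u v → ∀ y, P u (Q v y) = Q v (P u y))
    (hP : ∀ v ∈ A ∩ B, ∀ y, ν (P v y) = P v (ν y))
    (hno : ∀ a ∈ A, a ∉ B → ∀ b ∈ B, b ∉ A → ¬ G.Adj a b) {u v : V} (hu : u ∈ A)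
    (hv : v ∈ A ∪ B) (hvA : v ∉ A) (huv : G.Adj u v) (y : Y) :
    gtw A P ν u (gtw A Q ν v y) = gtw A Q ν v (gtw A P ν u y) := by
  have hvB : v ∈ B := (mem_union.1 hv).resolve_left hvA
  have huB : u ∈ B := by
    by_contra h
    exact hno u hu h v hvB hvA huv
  have h1 : ∀ w, P u ((1 + ν) w) = (1 + ν) (P u w) := by
    intro w
    rw [gone, gone, map_add, hP u (mem_inter.2 ⟨hu, huB⟩)]
  rw [gtw_mem hu, gtw_mem hu, gtw_not hvA, gtw_not hvA, h1,
    hPQ u (mem_union_left B hu) v hv huv, h1]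

theorem gtw_comm (hνν : ∀ y, ν (ν y) = 0) {P Q : V → Module.End F2 Y}
    (hPQ : ∀ u ∈ A ∪ B, ∀ v ∈ A ∪ B, G.Adj u v → ∀ y, P u (Q v y) = Q v (P u y))
    (hP : ∀ v ∈ A ∩ B, ∀ y, ν (P v y) = P v (ν y))
    (hQ : ∀ v ∈ A ∩ B, ∀ y, ν (Q v y) = Q v (ν y))
    (hno : ∀ a ∈ A, a ∉ B → ∀ b ∈ B, b ∉ A → ¬ G.Adj a b) :
    ∀ u ∈ A ∪ B, ∀ v ∈ A ∪ B, G.Adj u v → ∀ y,
      gtw A P ν u (gtw A Q ν v y) = gtw A Q ν v (gtw A P ν u y) := by
  intro u hu v hv huv y
  by_cases huA : u ∈ A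
  · by_cases hvA : v ∈ A
    · rw [gtw_mem huA, gtw_mem huA, gtw_mem hvA, gtw_mem hvA, hPQ u hu v hv huv]
    · exact gtw_comm_aux hPQ hP hno huA hv hvA huv y
  · by_cases hvA : v ∈ A
    · exact (gtw_comm_aux (P := Q) (Q := P)
        (fun a ha b hb hab y => (hPQ b hb a ha hab.symm y).symm) hQ hno hvA hu huA huv.symm
        y).symm
    · rw [gtw_not huA, gtw_not huA, gtw_not hvA, gtw_not hvA, gtw_gg hνν, gtw_gg hνν,
        hPQ u hu v hv huv]

end Tw

variable {G : SimpleGraph V} {A B : Finset V} {r E : V → Module.End F2 Y}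
  {ρ θ : Module.End F2 Y}

theorem gnu_sq (n : ℕ) (hρ : ∀ y, ρ (ρ y) = y) (y : Fin (n + 1) → Y) :
    gnu n ρ (gnu n ρ y) = 0 := by
  funext k
  rw [gnu_apply, gnu_apply, map_add, hρ, add_comm (ρ _) (y _)]
  exact ZModModule.add_self _

theorem gnu_comm (n : ℕ) {F : Finset V} (hρr : ∀ v ∈ F, ∀ y, ρ (r v y) = r v (ρ y)) :
    ∀ v ∈ F, ∀ y, gnu n ρ (gdi n r v y) = gdi n r v (gnu n ρ y) := by
  intro v hv y
  funext k
  rw [gnu_apply, gdi_apply, gdi_apply, gnu_apply, map_add, hρr v hv]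

theorem gdi_comm (n : ℕ) {U : Finset V} {P Q : V → Module.End F2 Y}
    (h : ∀ u ∈ U, ∀ v ∈ U, G.Adj u v → ∀ y, P u (Q v y) = Q v (P u y)) :
    ∀ u ∈ U, ∀ v ∈ U, G.Adj u v → ∀ y, gdi n P u (gdi n Q v y) = gdi n Q v (gdi n P u y) := by
  intro u hu v hv huv y
  funext k
  exact h u hu v hv huv (y k)

theorem gtw_fil (n : ℕ) (A B : Finset V)
    (hfil : Fil (univ : Finset (Option V)) (fun o => o.elim ρ r)) :
    Fil (A ∪ B) (gtw A (gdi n r) (gnu n ρ)) := by
  obtain ⟨m, F, hF, h0, hm, hr⟩ := hfil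
  have hrv : ∀ j v, ∀ y ∈ F (j + 1), y + r v y ∈ F j := fun j v => hr j (some v) (mem_univ _)
  have hrρ : ∀ j, ∀ y ∈ F (j + 1), y + ρ y ∈ F j := fun j => hr j none (mem_univ _)
  have hνj : ∀ j, ∀ y : Fin (n + 1) → Y, (∀ k, y k ∈ F (j + 1)) → ∀ k, gnu n ρ y k ∈ F j :=
    fun j y hy k => hrρ j _ (hy _)
  have hg : ∀ j, ∀ y : Fin (n + 1) → Y, (∀ k, y k ∈ F j) → ∀ k, (1 + gnu n ρ) y k ∈ F j := by
    intro j y hy k
    exact Submodule.add_mem _ (hy k) (hνj j y (fun k => hF (Nat.le_succ j) (hy k)) k)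
  obtain ⟨F', hF'⟩ : ∃ F' : ℕ → Submodule F2 (Fin (n + 1) → Y), ∀ j y,
      y ∈ F' j ↔ ∀ k, y k ∈ F j := by
    refine ⟨fun j => {
      carrier := {y | ∀ k, y k ∈ F j}
      zero_mem' := fun _ => Submodule.zero_mem _
      add_mem' := fun ha hb k => Submodule.add_mem _ (ha k) (hb k)
      smul_mem' := fun c _ ha k => Submodule.smul_mem _ c (ha k) }, fun j y => Iff.rfl⟩
  refine ⟨m, F', ?_, ?_, ?_, ?_⟩
  · intro i j hij y hy
    exact (hF' j y).2 fun k => hF hij ((hF' i y).1 hy k)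
  · rw [eq_bot_iff]
    intro y hy
    rw [Submodule.mem_bot]
    funext k
    have h1 := (hF' 0 y).1 hy k
    rw [h0, Submodule.mem_bot] at h1
    exact h1
  · rw [eq_top_iff]
    intro y _
    refine (hF' m y).2 fun k => ?_
    rw [hm]
    exact Submodule.mem_top
  · intro j v _ y hy
    have h1 := (hF' _ y).1 hy
    refine (hF' j _).2 fun k => ?_
    by_cases hv : v ∈ A
    · rw [gtw_mem hv]
      exact hrv j v _ (h1 k)
    · rw [gtw_not hv]
      have h2 := hg (j + 1) y h1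
      have h3 : ∀ k, ((1 + gnu n ρ) y + gdi n r v ((1 + gnu n ρ) y)) k ∈ F j :=
        fun k => hrv j v _ (h2 k)
      have h4 := hg j _ h3 k
      rw [map_add] at h4
      have h5 : (1 + gnu n ρ) ((1 + gnu n ρ) y) k + y k ∈ F j := by
        have h6 := hνj j _ h2 k
        have h7 := hνj j _ h1 k
        have h8 : (1 + gnu n ρ) ((1 + gnu n ρ) y) k + y k =
            gnu n ρ ((1 + gnu n ρ) y) k + gnu n ρ y k := by
          change (y k + gnu n ρ y k) + gnu n ρ ((1 + gnu n ρ) y) k + y k = _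
          have h9 := ZModModule.add_self (y k)
          linear_combination (norm := module) h9
        rw [h8]
        exact Submodule.add_mem _ h6 h7
      have h6 := Submodule.add_mem _ h4 h5
      have h7 : (y + (1 + gnu n ρ) (gdi n r v ((1 + gnu n ρ) y))) k =
          ((1 + gnu n ρ) ((1 + gnu n ρ) y) + (1 + gnu n ρ) (gdi n r v ((1 + gnu n ρ) y))) k +
            ((1 + gnu n ρ) ((1 + gnu n ρ) y) k + y k) := by
        change y k + (1 + gnu n ρ) (gdi n r v ((1 + gnu n ρ) y)) k =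
          ((1 + gnu n ρ) ((1 + gnu n ρ) y) k + (1 + gnu n ρ) (gdi n r v ((1 + gnu n ρ) y)) k) +
            ((1 + gnu n ρ) ((1 + gnu n ρ) y) k + y k)
        have h9 := ZModModule.add_self ((1 + gnu n ρ) ((1 + gnu n ρ) y) k)
        linear_combination (norm := module) -h9
      rw [h7]
      exact h6

theorem gtw_isN (n : ℕ) (hN : IsN G (A ∪ B) r) (hρ : ∀ y, ρ (ρ y) = y)
    (hρr : ∀ v ∈ A ∩ B, ∀ y, ρ (r v y) = r v (ρ y))
    (hno : ∀ a ∈ A, a ∉ B → ∀ b ∈ B, b ∉ A → ¬ G.Adj a b)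
    (hfil : Fil (univ : Finset (Option V)) (fun o => o.elim ρ r)) :
    IsN G (A ∪ B) (gtw A (gdi n r) (gnu n ρ)) := by
  have hνν := gnu_sq n hρ
  refine ⟨fun v hv y => ?_, ?_, gtw_fil n A B hfil⟩
  · have h1 : ∀ w, gdi n r v (gdi n r v w) = w := fun w => funext fun k => hN.sq v hv (w k)
    by_cases hvA : v ∈ A
    · rw [gtw_mem hvA, gtw_mem hvA, h1]
    · rw [gtw_not hvA, gtw_not hvA, gtw_gg hνν, h1, gtw_gg hνν]
  · exact gtw_comm hνν (gdi_comm n hN.comm) (gnu_comm n hρr) (gnu_comm n hρr) hno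

theorem gtw_isBit (n : ℕ) (hB : IsBit G (A ∪ B) r E) (hρ : ∀ y, ρ (ρ y) = y)
    (hρr : ∀ v ∈ A ∩ B, ∀ y, ρ (r v y) = r v (ρ y))
    (hρE : ∀ v ∈ A ∩ B, ∀ y, ρ (E v y) = E v (ρ y))
    (hno : ∀ a ∈ A, a ∉ B → ∀ b ∈ B, b ∉ A → ¬ G.Adj a b) :
    IsBit G (A ∪ B) (gtw A (gdi n r) (gnu n ρ)) (gtw A (gdi n E) (gnu n ρ)) := by
  have hνν := gnu_sq n hρ
  refine ⟨fun v hv y => ?_, fun v hv y => ?_, ?_, ?_⟩
  · have h1 : ∀ w, gdi n E v (gdi n E v w) = gdi n E v w :=
      fun w => funext fun k => hB.idem v hv (w k)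
    by_cases hvA : v ∈ A
    · rw [gtw_mem hvA, gtw_mem hvA, h1]
    · rw [gtw_not hvA, gtw_not hvA, gtw_gg hνν, h1]
  · have h1 : ∀ w, gdi n E v (gdi n r v w) + gdi n r v (gdi n E v w) = gdi n r v w :=
      fun w => funext fun k => hB.bit v hv (w k)
    by_cases hvA : v ∈ A
    · rw [gtw_mem hvA, gtw_mem hvA, gtw_mem hvA, gtw_mem hvA, h1]
    · rw [gtw_not hvA, gtw_not hvA, gtw_not hvA, gtw_not hvA, gtw_gg hνν, gtw_gg hνν,
        ← map_add (1 + gnu n ρ), h1]
  · exact gtw_comm hνν (gdi_comm n hB.er) (gnu_comm n hρE) (gnu_comm n hρr) hno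
  · exact gtw_comm hνν (gdi_comm n hB.ee) (gnu_comm n hρE) (gnu_comm n hρE) hno

end Pool.Agent.H73.GC

end

section

/-!
# Growth calculus: removing a vertex

`gz_two` for `U.erase v` (degree `i + 1`) and `lk G U v` (degree `i`) gives `Y`; the module for `U` is `Y × Y`
with `dbl r v 1`. `hd_res` with `e = {v}` and `A = Sy (Cq G U) (dbl r v 1)`: `del {v} A` is the system of
`U.erase v` with coefficients in `Y × Y`, its homology is twice that of `Y` (`hd_split` with the projection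
to the first factor, `hd_map` for `y ↦ (y, 0)` and `y ↦ (0, y)`), and `res {v} A` is the image of
`Sy (Cq G (lk G U v)) r` under `y ↦ (y, y)`.
-/

set_option autoImplicit false
set_option linter.unusedSectionVars false

open Finset

namespace Pool.Agent.H73.GC

variable {V : Type} [DecidableEq V] [Fintype V]

/-- coefficients in `Y × Y` -/
theorem hX_dbl {Y : Type} [AddCommGroup Y] [Module F2 Y] [Finite Y] {X : Finset V → Prop}
    (hm : ∀ s v, X (insert v s) → X s) {x : V} (hx : ∀ s, X s → x ∉ s)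
    (r : V → Module.End F2 Y) (q : Module.End F2 Y) (i : ℕ) :
    hX X (dbl r x q) i = 2 * hX X r i := by
  let e : Module.End F2 (Y × Y) := (LinearMap.inl F2 Y Y).comp (LinearMap.fst F2 Y Y)
  have he : ∀ y : Y × Y, e y = (y.1, 0) := fun _ => rfl
  have hmem : ∀ s (y : Y × Y), y ∈ Sy X (dbl r x q) s ↔ y.1 ∈ Sy X r s ∧ y.2 ∈ Sy X r s := by
    intro s y
    rw [mem_Sy, mem_Sy, mem_Sy]
    constructor
    · rintro ⟨h1, h2⟩
      by_cases hs : X s
      · have hne : ∀ w ∈ s, w ≠ x := fun w hw e => hx s hs (e ▸ hw)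
        refine ⟨⟨fun hc => absurd hs hc, fun w hw => ?_⟩, ⟨fun hc => absurd hs hc, fun w hw => ?_⟩⟩
        · have h3 := h2 w hw
          rw [dbl_ne r (hne w hw)] at h3
          exact congrArg Prod.fst h3
        · have h3 := h2 w hw
          rw [dbl_ne r (hne w hw)] at h3
          exact congrArg Prod.snd h3
      · rw [h1 hs]
        exact ⟨⟨fun _ => rfl, fun w _ => map_zero _⟩, ⟨fun _ => rfl, fun w _ => map_zero _⟩⟩
    · rintro ⟨⟨h1, h2⟩, h3, h4⟩
      by_cases hs : X s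
      · refine ⟨fun hc => absurd hs hc, fun w hw => ?_⟩
        have hne : w ≠ x := fun e => hx s hs (e ▸ hw)
        rw [dbl_ne r hne]
        exact Prod.ext (h2 w hw) (h4 w hw)
      · have h5 : y = 0 := Prod.ext (h1 hs) (h3 hs)
        rw [h5]
        exact ⟨fun _ => rfl, fun w _ => map_zero _⟩
  have hmono : Mono (Sy X (dbl r x q)) := mono_Sy hm _
  have h1 := hd_split hmono e (fun s y _ => rfl)
    (fun s y hy => (hmem s (e y)).2 ⟨((hmem s y).1 hy).1, Submodule.zero_mem _⟩) i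
  have e1 : (fun s => Sy X (dbl r x q) s ⊓ LinearMap.ker e) =
      fun s => (Sy X r s).map (LinearMap.inr F2 Y Y) := by
    funext s
    ext y
    rw [Submodule.mem_inf, LinearMap.mem_ker, he, hmem, Submodule.mem_map]
    constructor
    · rintro ⟨⟨_, h3⟩, h4⟩
      have h5 : y.1 = 0 := congrArg Prod.fst h4
      exact ⟨y.2, h3, Prod.ext h5.symm rfl⟩
    · rintro ⟨a, ha, rfl⟩
      exact ⟨⟨Submodule.zero_mem _, ha⟩, rfl⟩
  have e2 : (fun s => (Sy X (dbl r x q) s).map e) =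
      fun s => (Sy X r s).map (LinearMap.inl F2 Y Y) := by
    funext s
    ext y
    rw [Submodule.mem_map, Submodule.mem_map]
    constructor
    · rintro ⟨a, ha, rfl⟩
      exact ⟨a.1, ((hmem s a).1 ha).1, rfl⟩
    · rintro ⟨a, ha, rfl⟩
      exact ⟨(a, 0), (hmem s (a, 0)).2 ⟨ha, Submodule.zero_mem _⟩, rfl⟩
  rw [e1, e2, hd_map _ _ LinearMap.inr_injective, hd_map _ _ LinearMap.inl_injective] at h1
  unfold hX
  rw [h1, two_mul]

theorem gz_del {G : SimpleGraph V} {U : Finset V} {v : V} (hv : v ∈ U) {i : ℕ}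
    (h₁ : GZ G (U.erase v) (i + 1)) (h₂ : GZ G (lk G U v) i) : GZ G U (i + 1) := by
  classical
  intro ε hε
  have hlk : ∀ w, w ∈ lk G U v ↔ w ∈ U ∧ G.Adj v w := by
    intro w
    unfold lk
    rw [mem_filter]
  have hU : lk G U v ⊆ U.erase v := by
    intro w hw
    obtain ⟨h1, h2⟩ := (hlk w).1 hw
    exact mem_erase.2 ⟨h2.ne', h1⟩
  obtain ⟨Y, iY1, iY2, iY3, r, E, hN, hB, hpos, hle1, hle2⟩ :=
    gz_two hU h₁ h₂ (ε / 2) (by positivity)
  have hN' : IsN G U (dbl r v 1) :=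
    isN_dbl (G := G) (H := G) hN (fun a _ b _ hab => hab) 1 (Or.inl rfl)
  have hB' : IsBit G U (dbl r v 1) (dblE E v v false) := isBit_dbl_one hN hB
  have hfr : Module.finrank F2 (Y × Y) = Module.finrank F2 Y + Module.finrank F2 Y :=
    Module.finrank_prod
  refine ⟨Y × Y, inferInstance, inferInstance, inferInstance, dbl r v 1, dblE E v v false, hN', hB',
    by omega, ?_⟩
  let j : Y →ₗ[F2] Y × Y := LinearMap.prod LinearMap.id LinearMap.id
  have hj : ∀ y : Y, j y = (y, y) := fun _ => rfl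
  have hjinj : Function.Injective j := by
    intro a b hab
    rw [hj, hj] at hab
    exact congrArg Prod.fst hab
  have hmono : Mono (Sy (Cq G U) (dbl r v 1)) := mono_Sy (mono_Cq G U) _
  have h1 := hd_res hmono {v} i
  rw [card_singleton] at h1
  have e1 : del {v} (Sy (Cq G U) (dbl r v 1)) = Sy (Cq G (U.erase v)) (dbl r v 1) := by
    funext s
    ext y
    show (y ∈ Sy (Cq G U) (dbl r v 1) s ∧ ({v} ⊆ s → y = 0)) ↔ _
    rw [mem_Sy, mem_Sy]
    constructor
    · rintro ⟨⟨h2, h3⟩, h4⟩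
      refine ⟨fun hc => ?_, h3⟩
      by_cases hs : v ∈ s
      · exact h4 (singleton_subset_iff.2 hs)
      · refine h2 fun h5 => hc ⟨h5.1, fun w hw => mem_erase.2 ⟨fun e => hs (e ▸ hw), h5.2 hw⟩⟩
    · rintro ⟨h2, h3⟩
      refine ⟨⟨fun hc => h2 fun h5 => hc ⟨h5.1, fun w hw => mem_of_mem_erase (h5.2 hw)⟩, h3⟩, ?_⟩
      intro hs
      exact h2 fun h5 => notMem_erase v U (h5.2 (singleton_subset_iff.1 hs))
  have e2 : res {v} (Sy (Cq G U) (dbl r v 1)) = fun s => (Sy (Cq G (lk G U v)) r s).map j := by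
    funext s
    ext y
    show (y ∈ Sy (Cq G U) (dbl r v 1) ({v} ∪ s) ∧ (¬ Disjoint {v} s → y = 0)) ↔ _
    rw [mem_Sy, Submodule.mem_map, disjoint_singleton_left, not_not]
    constructor
    · rintro ⟨⟨h2, h3⟩, h4⟩
      by_cases hs : v ∈ s
      · rw [h4 hs]
        exact ⟨0, Submodule.zero_mem _, map_zero _⟩
      · have h5 : y.2 = y.1 := by
          have h6 := h3 v (mem_union_left _ (mem_singleton_self v))
          rw [dbl_self] at h6
          exact congrArg Prod.fst h6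
        refine ⟨y.1, ?_, ?_⟩
        · rw [mem_Sy]
          refine ⟨fun hc => ?_, fun w hw => ?_⟩
          · rw [h2 fun h6 => hc ⟨fun a ha b hb hab => h6.1
              (mem_coe.2 (mem_union_right _ (mem_coe.1 ha)))
              (mem_coe.2 (mem_union_right _ (mem_coe.1 hb))) hab, fun w hw => (hlk w).2
                ⟨h6.2 (mem_union_right _ hw), h6.1 (mem_coe.2 (mem_union_left _ (mem_singleton_self v)))
                  (mem_coe.2 (mem_union_right _ hw)) fun e => hs (e ▸ hw)⟩⟩]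
            rfl
          · have hwv : w ≠ v := fun e => hs (e ▸ hw)
            have h6 := h3 w (mem_union_right _ hw)
            rw [dbl_ne r hwv] at h6
            exact congrArg Prod.fst h6
        · rw [hj]
          exact Prod.ext rfl h5.symm
    · rintro ⟨a, ha, rfl⟩
      rw [mem_Sy] at ha
      rw [hj]
      refine ⟨⟨fun hc => ?_, fun w hw => ?_⟩, fun hs => ?_⟩
      · rw [ha.1 fun h2 => hc ⟨?_, ?_⟩]
        · rfl
        · intro b hb c hc' hbc
          have hb' := mem_union.1 (mem_coe.1 hb)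
          have hc'' := mem_union.1 (mem_coe.1 hc')
          rcases hb' with hb' | hb'
          · have hbv : b = v := mem_singleton.1 hb'
            rcases hc'' with hc'' | hc''
            · exact absurd (hbv.trans (mem_singleton.1 hc'').symm) hbc
            · rw [hbv]
              exact ((hlk c).1 (h2.2 hc'')).2
          · rcases hc'' with hc'' | hc''
            · rw [mem_singleton.1 hc'']
              exact ((hlk b).1 (h2.2 hb')).2.symm
            · exact h2.1 (mem_coe.2 hb') (mem_coe.2 hc'') hbc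
        · intro w hw
          rcases mem_union.1 hw with hw | hw
          · rw [mem_singleton.1 hw]
            exact hv
          · exact ((hlk w).1 (h2.2 hw)).1
      · by_cases hwv : w = v
        · rw [hwv, dbl_self]
          rfl
        · rw [dbl_ne r hwv]
          have hw' : w ∈ s := (mem_union.1 hw).resolve_left fun h2 => hwv (mem_singleton.1 h2)
          exact Prod.ext (ha.2 w hw') (ha.2 w hw')
      · rw [ha.1 fun h2 => ((hlk v).1 (h2.2 hs)).2.ne rfl]
        rfl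
  rw [e1, e2, hd_map _ j hjinj] at h1
  have h2 : hX (Cq G (U.erase v)) (dbl r v 1) (i + 1) = 2 * hX (Cq G (U.erase v)) r (i + 1) :=
    hX_dbl (mono_Cq G (U.erase v)) (fun s hs hvs => notMem_erase v U (hs.2 hvs)) r 1 (i + 1)
  have h3 : hX (Cq G U) (dbl r v 1) (i + 1) ≤
      2 * hX (Cq G (U.erase v)) r (i + 1) + hX (Cq G (lk G U v)) r i := by
    rw [← h2]
    exact h1
  have h4 : (hX (Cq G U) (dbl r v 1) (i + 1) : ℝ) ≤
      2 * (hX (Cq G (U.erase v)) r (i + 1) : ℝ) + (hX (Cq G (lk G U v)) r i : ℝ) := by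
    exact_mod_cast h3
  have h5 : (0 : ℝ) ≤ ε * Module.finrank F2 Y := by positivity
  rw [hfr]
  push_cast
  linarith

end Pool.Agent.H73.GC

end

section

/-!
# Growth calculus: gluing

The vertex set is `A ∪ B`, and there are no edges between `A \ B` and `B \ A`. The pieces are the flag complex on
`A` with a cone over `A ∩ B` (the cone vertex is `c`) and the flag complex on `B` with a cone over `A ∩ B` (the
cone vertex is `c'`).
-/

set_option autoImplicit false
set_option linter.unusedSectionVars false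

open Finset

namespace Pool.Agent.H73.GC

variable {V : Type} [DecidableEq V] [Fintype V]

/-- If the growth vanishes in degree `i` for the two pieces, then it vanishes for the whole complex. The vertex
`c` may be an element of `B`, and `c'` an element of `A`. -/
theorem gz_glue {G G₁ G₂ : SimpleGraph V} {A B : Finset V} {c c' : V} (hcA : c ∉ A) (hcB : c' ∉ B)
    (hno : ∀ a ∈ A, a ∉ B → ∀ b ∈ B, b ∉ A → ¬ G.Adj a b)
    (h1 : ∀ a ∈ A, ∀ b ∈ A, G₁.Adj a b ↔ G.Adj a b) (hc1 : ∀ a ∈ A, G₁.Adj c a ↔ a ∈ B)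
    (h2 : ∀ a ∈ B, ∀ b ∈ B, G₂.Adj a b ↔ G.Adj a b) (hc2 : ∀ a ∈ B, G₂.Adj c' a ↔ a ∈ A)
    {i : ℕ} (hz1 : GZ G₁ (insert c A) i) (hz2 : GZ G₂ (insert c' B) i) : GZ G (A ∪ B) i := by
  intro ε hε
  obtain ⟨Y₁, i1, i2, i3, r₁, E₁, hN₁, hB₁, hd₁, hb₁⟩ := hz1 (ε / 4) (by linarith)
  obtain ⟨Y₂, j1, j2, j3, r₂, E₂, hN₂, hB₂, hd₂, hb₂⟩ := hz2 (ε / 4) (by linarith)
  have hfY : Finite (TensorProduct F2 Y₁ Y₂) := finite_tens
  -- the pieces
  have H1 : GHalf G₁ G A (A ∩ B) c := by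
    refine ⟨hcA, inter_subset_left, h1, fun a ha => ?_⟩
    rw [hc1 a ha, mem_inter]
    exact ⟨fun h => ⟨ha, h⟩, fun h => h.2⟩
  have H2 : GHalf G₂ G B (A ∩ B) c' := by
    refine ⟨hcB, inter_subset_right, h2, fun a ha => ?_⟩
    rw [hc2 a ha, mem_inter]
    exact ⟨fun h => ⟨h, ha⟩, fun h => h.1⟩
  -- the operators
  obtain ⟨r, hr⟩ : ∃ r : V → Module.End F2 (TensorProduct F2 Y₁ Y₂),
      r = tens (gon A r₁) (gon B r₂) := ⟨_, rfl⟩
  have hrv : ∀ v, r v = TensorProduct.map (gon A r₁ v) (gon B r₂ v) := fun v => by rw [hr]; rfl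
  obtain ⟨ρ, hρ⟩ : ∃ ρ : Module.End F2 (TensorProduct F2 Y₁ Y₂),
      ρ = TensorProduct.map (r₁ c) (r₂ c') := ⟨_, rfl⟩
  obtain ⟨θ, hθ⟩ : ∃ θ : Module.End F2 (TensorProduct F2 Y₁ Y₂),
      θ = TensorProduct.map (E₁ c) LinearMap.id := ⟨_, rfl⟩
  obtain ⟨E, hE⟩ : ∃ E : V → Module.End F2 (TensorProduct F2 Y₁ Y₂),
      ∀ v, E v = if v ∈ A then TensorProduct.map (E₁ v) LinearMap.id
        else TensorProduct.map LinearMap.id (E₂ v) := ⟨_, fun _ => rfl⟩
  have hc : c ∈ insert c A := mem_insert_self c A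
  have hc' : c' ∈ insert c' B := mem_insert_self c' B
  have hA : ∀ v ∈ A, v ∈ insert c A := fun v hv => mem_insert_of_mem hv
  have hB : ∀ v ∈ B, v ∈ insert c' B := fun v hv => mem_insert_of_mem hv
  have hρρ : ∀ y, ρ (ρ y) = y := by
    intro y
    rw [hρ]
    exact tsq (hN₁.sq c hc) (hN₂.sq c' hc') y
  have hθρ : ∀ y, θ (ρ y) + ρ (θ y) = ρ y := by
    intro y
    rw [hρ, hθ]
    exact tbit_left (hB₁.bit c hc) y
  have hρr : ∀ v ∈ A ∩ B, ∀ y, ρ (r v y) = r v (ρ y) := by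
    intro v hv y
    have hv' := mem_inter.1 hv
    rw [hρ, hrv, gon_mem hv'.1, gon_mem hv'.2]
    exact tcomm (hN₁.comm c hc v (hA v hv'.1) ((hc1 v hv'.1).2 hv'.2))
      (hN₂.comm c' hc' v (hB v hv'.2) ((hc2 v hv'.2).2 hv'.1)) y
  have hθr : ∀ v ∈ A ∩ B, ∀ y, θ (r v y) = r v (θ y) := by
    intro v hv y
    have hv' := mem_inter.1 hv
    rw [hθ, hrv, gon_mem hv'.1, gon_mem hv'.2]
    exact tcomm (hB₁.er c hc v (hA v hv'.1) ((hc1 v hv'.1).2 hv'.2)) (by intro x; rfl) y
  have hρE : ∀ v ∈ A ∩ B, ∀ y, ρ (E v y) = E v (ρ y) := by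
    intro v hv y
    have hv' := mem_inter.1 hv
    rw [hρ, hE, if_pos hv'.1]
    exact tcomm (fun x => (hB₁.er v (hA v hv'.1) c hc ((hc1 v hv'.1).2 hv'.2).symm x).symm)
      (by intro x; rfl) y
  -- the module for the whole complex
  have hNr : IsN G (A ∪ B) r := by
    refine ⟨fun v _ y => ?_, fun u _ v _ huv y => ?_, ?_⟩
    · rw [hrv]
      exact tsq (gon_sq hN₁ v) (gon_sq hN₂ v) y
    · rw [hrv, hrv]
      exact tcomm (gon_comm h1 hN₁ u v huv) (gon_comm h2 hN₂ u v huv) y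
    · obtain ⟨m, F, hF, h0, hm, hq⟩ := fil_tens (gon_fil hN₁.fil) (gon_fil hN₂.fil)
      exact ⟨m, F, hF, h0, hm, fun j v _ y hy => by
        rw [hrv]
        exact hq j (some v) (mem_univ _) y hy⟩
  have hfil : Fil (univ : Finset (Option V)) (fun o => o.elim ρ r) := by
    obtain ⟨m, F, hF, h0, hm, hq⟩ := fil_tens (gon_fil hN₁.fil) (gon_fil hN₂.fil)
    refine ⟨m, F, hF, h0, hm, fun j o _ y hy => ?_⟩
    have h3 := hq j o (mem_univ _) y hy
    cases o with
    | none =>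
      change y + ρ y ∈ F j
      rw [hρ]
      exact h3
    | some v =>
      change y + r v y ∈ F j
      rw [hrv]
      exact h3
  have hBE : IsBit G (A ∪ B) r E := by
    have hr1 : ∀ u ∈ A, ∀ v, G.Adj u v → ∀ x, E₁ u (gon A r₁ v x) = gon A r₁ v (E₁ u x) := by
      intro u hu v huv x
      by_cases hv : v ∈ A
      · rw [gon_mem hv]
        exact hB₁.er u (hA u hu) v (hA v hv) ((h1 u hu v hv).2 huv) x
      · rw [gon_not hv]
        rfl
    have hr2 : ∀ u ∈ B, ∀ v, G.Adj u v → ∀ x, E₂ u (gon B r₂ v x) = gon B r₂ v (E₂ u x) := by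
      intro u hu v huv x
      by_cases hv : v ∈ B
      · rw [gon_mem hv]
        exact hB₂.er u (hB u hu) v (hB v hv) ((h2 u hu v hv).2 huv) x
      · rw [gon_not hv]
        rfl
    refine ⟨fun v hv y => ?_, fun v hv y => ?_, fun u hu v hv huv y => ?_,
      fun u hu v hv huv y => ?_⟩
    · rw [hE]
      by_cases hvA : v ∈ A
      · rw [if_pos hvA]
        exact tidem (hB₁.idem v (hA v hvA)) (by intro x; rfl) y
      · rw [if_neg hvA]
        exact tidem (by intro x; rfl) (hB₂.idem v (hB v ((mem_union.1 hv).resolve_left hvA))) y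
    · rw [hE, hrv]
      by_cases hvA : v ∈ A
      · rw [if_pos hvA, gon_mem hvA]
        exact tbit_left (hB₁.bit v (hA v hvA)) y
      · have hvB := (mem_union.1 hv).resolve_left hvA
        rw [if_neg hvA, gon_mem hvB]
        exact tbit_right (hB₂.bit v (hB v hvB)) y
    · rw [hE, hrv]
      by_cases huA : u ∈ A
      · rw [if_pos huA]
        exact tcomm (hr1 u huA v huv) (by intro x; rfl) y
      · rw [if_neg huA]
        exact tcomm (by intro x; rfl) (hr2 u ((mem_union.1 hu).resolve_left huA) v huv) y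
    · rw [hE, hE]
      by_cases huA : u ∈ A
      · by_cases hvA : v ∈ A
        · rw [if_pos huA, if_pos hvA]
          exact tcomm (hB₁.ee u (hA u huA) v (hA v hvA) ((h1 u huA v hvA).2 huv))
            (by intro x; rfl) y
        · rw [if_pos huA, if_neg hvA]
          exact tcomm (by intro x; rfl) (by intro x; rfl) y
      · by_cases hvA : v ∈ A
        · rw [if_neg huA, if_pos hvA]
          exact tcomm (by intro x; rfl) (by intro x; rfl) y
        · have huB := (mem_union.1 hu).resolve_left huA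
          have hvB := (mem_union.1 hv).resolve_left hvA
          rw [if_neg huA, if_neg hvA]
          exact tcomm (by intro x; rfl)
            (hB₂.ee u (hB u huB) v (hB v hvB) ((h2 u huB v hvB).2 huv)) y
  -- the two pieces
  have hX1 : hX (Cq G₁ (insert c A)) (Function.update r c ρ) i ≤
      Module.finrank F2 Y₂ * hX (Cq G₁ (insert c A)) r₁ i := by
    have h3 := prod_le hN₁ hB₁ (gon_isN hcA h1 hc1 h2 hc2 hN₂) (X := Cq G₁ (insert c A))
      (fun _ h => h) (mono_Cq _ _) i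
    have h4 : hX (Cq G₁ (insert c A)) (Function.update r c ρ) i =
        hX (Cq G₁ (insert c A)) (tens r₁ (Function.update (gon B r₂) c (r₂ c'))) i := by
      refine hX_congr (fun _ => Iff.rfl) (fun s hs v hv y => ?_) i
      rcases mem_insert.1 (hs.2 hv) with rfl | hvA
      · rw [Function.update_self, tens, Function.update_self, hρ]
      · have hne : v ≠ c := fun e => hcA (e ▸ hvA)
        rw [Function.update_of_ne hne, tens, Function.update_of_ne hne, hrv, gon_mem hvA]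
    rw [h4]
    exact h3
  have hX2 : hX (Cq G₂ (insert c' B)) (Function.update r c' ρ) i ≤
      Module.finrank F2 Y₁ * hX (Cq G₂ (insert c' B)) r₂ i := by
    have h3 := prod_le' (gon_isN hcB h2 hc2 h1 hc1 hN₁) hN₂ hB₂ (X := Cq G₂ (insert c' B))
      (fun _ h => h) (mono_Cq _ _) i
    have h4 : hX (Cq G₂ (insert c' B)) (Function.update r c' ρ) i =
        hX (Cq G₂ (insert c' B)) (tens (Function.update (gon A r₁) c' (r₁ c)) r₂) i := by
      refine hX_congr (fun _ => Iff.rfl) (fun s hs v hv y => ?_) i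
      rcases mem_insert.1 (hs.2 hv) with rfl | hvB
      · rw [Function.update_self, tens, Function.update_self, hρ]
      · have hne : v ≠ c' := fun e => hcB (e ▸ hvB)
        rw [Function.update_of_ne hne, tens, Function.update_of_ne hne, hrv, gon_mem hvB]
    rw [h4]
    exact h3
  -- the number of copies
  obtain ⟨n, hn⟩ := exists_nat_ge (2 * (2 * Fintype.card (Finset V) : ℕ) / ε : ℝ)
  have hn' : ((2 * Fintype.card (Finset V) : ℕ) : ℝ) ≤ ε / 2 * n := by
    rw [div_le_iff₀ hε] at hn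
    linarith
  have hfr : (Module.finrank F2 (TensorProduct F2 Y₁ Y₂) : ℝ) =
      Module.finrank F2 Y₁ * Module.finrank F2 Y₂ := by
    rw [Module.finrank_tensorProduct, Nat.cast_mul]
  have hmod := glue_mod H1 H2 hno hρρ hθρ hρr hθr n i
  have hfn : Module.finrank F2 (Fin (n + 1) → TensorProduct F2 Y₁ Y₂) =
      (n + 1) * Module.finrank F2 (TensorProduct F2 Y₁ Y₂) := by
    rw [Module.finrank_pi_fintype, sum_const, card_univ, Fintype.card_fin, smul_eq_mul]
  refine ⟨Fin (n + 1) → TensorProduct F2 Y₁ Y₂, inferInstance, inferInstance, inferInstance,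
    gtw A (gdi n r) (gnu n ρ), gtw A (gdi n E) (gnu n ρ), gtw_isN n hNr hρρ hρr hno hfil,
    gtw_isBit n hBE hρρ hρr hρE hno, ?_, ?_⟩
  · rw [hfn, Module.finrank_tensorProduct]
    positivity
  · have h5 : (hX (Cq G (A ∪ B)) (gtw A (gdi n r) (gnu n ρ)) i : ℝ) ≤
        ((2 * Fintype.card (Finset V) * Module.finrank F2 (TensorProduct F2 Y₁ Y₂) : ℕ) : ℝ) +
          n * ((hX (Cq G₁ (insert c A)) (Function.update r c ρ) i : ℝ) +
            (hX (Cq G₂ (insert c' B)) (Function.update r c' ρ) i : ℝ)) := by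
      exact_mod_cast hmod
    have h6 : (hX (Cq G₁ (insert c A)) (Function.update r c ρ) i : ℝ) ≤
        Module.finrank F2 Y₂ * (hX (Cq G₁ (insert c A)) r₁ i : ℝ) := by
      exact_mod_cast hX1
    have h7 : (hX (Cq G₂ (insert c' B)) (Function.update r c' ρ) i : ℝ) ≤
        Module.finrank F2 Y₁ * (hX (Cq G₂ (insert c' B)) r₂ i : ℝ) := by
      exact_mod_cast hX2
    have h8 : (Module.finrank F2 Y₂ : ℝ) * (hX (Cq G₁ (insert c A)) r₁ i : ℝ) ≤
        Module.finrank F2 Y₂ * (ε / 4 * Module.finrank F2 Y₁) :=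
      mul_le_mul_of_nonneg_left hb₁ (Nat.cast_nonneg _)
    have h9 : (Module.finrank F2 Y₁ : ℝ) * (hX (Cq G₂ (insert c' B)) r₂ i : ℝ) ≤
        Module.finrank F2 Y₁ * (ε / 4 * Module.finrank F2 Y₂) :=
      mul_le_mul_of_nonneg_left hb₂ (Nat.cast_nonneg _)
    obtain ⟨y, hy⟩ : ∃ y : ℝ, y = Module.finrank F2 (TensorProduct F2 Y₁ Y₂) := ⟨_, rfl⟩
    have hy0 : 0 ≤ y := by rw [hy]; exact Nat.cast_nonneg _
    have hn0 : (0 : ℝ) ≤ n := Nat.cast_nonneg n
    have h10 : (hX (Cq G₁ (insert c A)) (Function.update r c ρ) i : ℝ) ≤ ε / 4 * y := by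
      rw [hy, hfr]
      linarith
    have h11 : (hX (Cq G₂ (insert c' B)) (Function.update r c' ρ) i : ℝ) ≤ ε / 4 * y := by
      rw [hy, hfr]
      linarith
    have h12 : (n : ℝ) * ((hX (Cq G₁ (insert c A)) (Function.update r c ρ) i : ℝ) +
        (hX (Cq G₂ (insert c' B)) (Function.update r c' ρ) i : ℝ)) ≤ n * (ε / 4 * y + ε / 4 * y) :=
      mul_le_mul_of_nonneg_left (add_le_add h10 h11) hn0
    have h13 : ((2 * Fintype.card (Finset V) : ℕ) : ℝ) * y ≤ ε / 2 * n * y :=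
      mul_le_mul_of_nonneg_right hn' hy0
    rw [hfn]
    rw [Nat.cast_mul, ← hy] at h5
    rw [Nat.cast_mul, ← hy]
    push_cast at h5 h13 ⊢
    have h14 : 0 ≤ ε * y := mul_nonneg hε.le hy0
    nlinarith

end Pool.Agent.H73.GC

end

section

/-!
# Growth calculus: identification of two vertices

`gz_two` for the graph `merge G x u`, `U.erase x` in degree `i + 1` and `lk2 G U x u` in degree `i`
(`gz_congr`) gives `Y`; the module for `G` is `Y × Y` with `dbl r x (r u)`, `dblE E x u true`. The bound: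
`merge_a`; its first term by `merge_b` if `x`, `u` are adjacent, otherwise it is equal to the second term;
`merge_c`; `hd_half` with the vertex `u` and `X = Cq G (lk2 G U x u)`.
-/

set_option autoImplicit false
set_option linter.unusedSectionVars false

open Finset

namespace Pool.Agent.H73.GC

variable {V : Type} [DecidableEq V] [Fintype V]

theorem gz_merge {G : SimpleGraph V} {U : Finset V} {x u : V} (hx : x ∈ U) (hu : u ∈ U)
    (hxu : x ≠ u) (hN : NoSq G U x u) {i : ℕ} (h₁ : GZ (merge G x u) (U.erase x) (i + 1))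
    (h₂ : GZ G (lk2 G U x u) i) : GZ G U (i + 1) := by
  classical
  intro ε hε
  have hlk : ∀ w, w ∈ lk2 G U x u ↔ w ∈ U ∧ G.Adj x w ∧ G.Adj u w := by
    intro w
    unfold lk2
    rw [mem_filter]
  have hU : lk2 G U x u ⊆ U.erase x := by
    intro w hw
    obtain ⟨h1, h2, _⟩ := (hlk w).1 hw
    exact mem_erase.2 ⟨h2.ne', h1⟩
  have huE : u ∈ U.erase x := mem_erase.2 ⟨hxu.symm, hu⟩
  have h₂' : GZ (merge G x u) (lk2 G U x u) i := by
    refine gz_congr (fun a ha b hb => ?_) h₂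
    have hau : a ≠ u := ((hlk a).1 ha).2.2.ne'
    have hbu : b ≠ u := ((hlk b).1 hb).2.2.ne'
    constructor
    · intro h
      exact ⟨h.ne, Or.inl h⟩
    · rintro ⟨_, h | ⟨h, _⟩ | ⟨h, _⟩⟩
      · exact h
      · exact absurd h hau
      · exact absurd h hbu
  obtain ⟨Y, iY1, iY2, iY3, r, E, hR, hB, hpos, hle1, hle2⟩ :=
    gz_two hU h₁ h₂' (ε / 2) (by positivity)
  have hG : ∀ a ∈ U.erase x, ∀ b ∈ U.erase x, G.Adj a b → (merge G x u).Adj a b :=
    fun a _ b _ hab => ⟨hab.ne, Or.inl hab⟩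
  have hxa : ∀ w ∈ U.erase x, G.Adj x w → w = u ∨ (merge G x u).Adj u w := by
    intro w _ hw
    by_cases hwu : w = u
    · exact Or.inl hwu
    · exact Or.inr ⟨fun h => hwu h.symm, Or.inr (Or.inl ⟨rfl, hw⟩)⟩
  have hN' : IsN G U (dbl r x (r u)) :=
    isN_dbl (G := G) (H := merge G x u) hR hG (r u) (Or.inr ⟨u, huE, rfl, hxa⟩)
  have hB' : IsBit G U (dbl r x (r u)) (dblE E x u true) := isBit_dbl huE hR hB hG hxa
  have hfr : Module.finrank F2 (Y × Y) = Module.finrank F2 Y + Module.finrank F2 Y :=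
    Module.finrank_prod
  refine ⟨Y × Y, inferInstance, inferInstance, inferInstance, dbl r x (r u), dblE E x u true, hN',
    hB', by omega, ?_⟩
  have hhalf := hd_half (mono_Cq G (lk2 G U x u)) (r := r) (E := E) (u := u) (fun s hs => ⟨fun hus =>
    ((hlk u).1 (hs.2 hus)).2.2.ne rfl, IsBit.bitOn hR hB ⟨?_, ?_⟩⟩) i
  · have h0 : (0 : ℤ) ≤ hX (Cq G (lk2 G U x u)) r i := hd_nonneg (mono_Sy (mono_Cq G _) r) i
    have h1 := merge_a hx hu hxu hR hB (i + 1)
    have h2 := merge_c hx hu hxu hN r i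
    have h3 : hX (Cq G U) (Function.update r x (r u)) (i + 1) ≤
        hX (Cq (merge G x u) (U.erase x)) r (i + 1) +
          hd (fun s => Sy (Cq G (lk2 G U x u)) r s ⊓ Inv r {u}) i := by
      by_cases hadj : G.Adj x u
      · have h4 := merge_b hx hu hadj hN r (i + 1)
        linarith
      · have h4 : hX (Cq G U) (Function.update r x (r u)) (i + 1) =
            hX (fun s => Cq G U s ∧ ¬ (x ∈ s ∧ u ∈ s)) (Function.update r x (r u)) (i + 1) := by
          refine hX_congr (fun s => ⟨fun hs => ⟨hs, fun hc => hadj ?_⟩, fun hs => hs.1⟩)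
            (fun s _ v _ y => rfl) (i + 1)
          exact hs.1 (mem_coe.2 hc.1) (mem_coe.2 hc.2) hxu
        rw [h4]
        exact h2
    have h5 : hX (Cq G U) (dbl r x (r u)) (i + 1) ≤
        2 * hX (Cq (merge G x u) (U.erase x)) r (i + 1) + hX (Cq G (lk2 G U x u)) r i := by
      linarith
    have h6 : (hX (Cq G U) (dbl r x (r u)) (i + 1) : ℝ) ≤
        2 * (hX (Cq (merge G x u) (U.erase x)) r (i + 1) : ℝ) +
          (hX (Cq G (lk2 G U x u)) r i : ℝ) := by
      exact_mod_cast h5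
    have h7 : hX (Cq (merge G x u) (lk2 G U x u)) r i = hX (Cq G (lk2 G U x u)) r i := by
      refine hX_congr (fun s => ?_) (fun s _ v _ y => rfl) i
      constructor
      · intro hs
        refine ⟨fun a ha b hb hab => ?_, hs.2⟩
        have hau : a ≠ u := ((hlk a).1 (hs.2 (mem_coe.1 ha))).2.2.ne'
        have hbu : b ≠ u := ((hlk b).1 (hs.2 (mem_coe.1 hb))).2.2.ne'
        rcases (hs.1 ha hb hab).2 with h | ⟨h, _⟩ | ⟨h, _⟩
        · exact h
        · exact absurd h hau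
        · exact absurd h hbu
      · intro hs
        exact ⟨fun a ha b hb hab => ⟨hab, Or.inl (hs.1 ha hb hab)⟩, hs.2⟩
    rw [h7] at hle2
    have h8 : (0 : ℝ) ≤ ε * Module.finrank F2 Y := by positivity
    rw [hfr]
    push_cast
    linarith
  · intro a ha b hb hab
    have ha' := mem_insert.1 (mem_coe.1 ha)
    have hb' := mem_insert.1 (mem_coe.1 hb)
    refine ⟨hab, Or.inl ?_⟩
    rcases ha' with ha' | ha'
    · rcases hb' with hb' | hb'
      · exact absurd (ha'.trans hb'.symm) hab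
      · rw [ha']
        exact ((hlk b).1 (hs.2 hb')).2.2
    · rcases hb' with hb' | hb'
      · rw [hb']
        exact ((hlk a).1 (hs.2 ha')).2.2.symm
      · exact hs.1 (mem_coe.2 ha') (mem_coe.2 hb') hab
  · intro w hw
    rcases mem_insert.1 hw with hw | hw
    · rw [hw]
      exact huE
    · exact hU (hs.2 hw)

end Pool.Agent.H73.GC

end

section

/-!
# Growth calculus: removing a vertex, the other direction

`gz_two` for `U` and `lk G U v` (both in degree `i`) gives `Y`. `hd_del` with `e = {v}` and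
`A = Sy (Cq G U) r`: `del {v} A` is the system of `U.erase v`, and `res {v} A` consists of the vectors in
`Sy (Cq G (lk G U v)) r` which are invariant under `r v`; `hd_half`.
-/

set_option autoImplicit false
set_option linter.unusedSectionVars false

open Finset

namespace Pool.Agent.H73.GC

variable {V : Type} [DecidableEq V] [Fintype V]

theorem gz_rem {G : SimpleGraph V} {U : Finset V} {v : V} (hv : v ∈ U) {i : ℕ}
    (h₁ : GZ G U i) (h₂ : GZ G (lk G U v) i) : GZ G (U.erase v) i := by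
  classical
  intro ε hε
  have hlk : ∀ w, w ∈ lk G U v ↔ w ∈ U ∧ G.Adj v w := by
    intro w
    unfold lk
    rw [mem_filter]
  have hU : lk G U v ⊆ U := fun w hw => ((hlk w).1 hw).1
  obtain ⟨Y, iY1, iY2, iY3, r, E, hN, hB, hpos, hle1, hle2⟩ :=
    gz_two hU h₁ h₂ (ε / 2) (by positivity)
  have hN' : IsN G (U.erase v) r := by
    refine ⟨fun w hw => hN.sq w (mem_of_mem_erase hw),
      fun u hu w hw => hN.comm u (mem_of_mem_erase hu) w (mem_of_mem_erase hw), ?_⟩
    obtain ⟨n, F, hF, h0, hn, hr⟩ := hN.fil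
    exact ⟨n, F, hF, h0, hn, fun j w hw => hr j w (mem_of_mem_erase hw)⟩
  have hB' : IsBit G (U.erase v) r E :=
    ⟨fun w hw => hB.idem w (mem_of_mem_erase hw), fun w hw => hB.bit w (mem_of_mem_erase hw),
      fun u hu w hw => hB.er u (mem_of_mem_erase hu) w (mem_of_mem_erase hw),
      fun u hu w hw => hB.ee u (mem_of_mem_erase hu) w (mem_of_mem_erase hw)⟩
  refine ⟨Y, iY1, iY2, iY3, r, E, hN', hB', hpos, ?_⟩
  have hmono : Mono (Sy (Cq G U) r) := mono_Sy (mono_Cq G U) _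
  have h1 := hd_del hmono {v} i i (by rw [card_singleton])
  have e1 : del {v} (Sy (Cq G U) r) = Sy (Cq G (U.erase v)) r := by
    funext s
    ext y
    show (y ∈ Sy (Cq G U) r s ∧ ({v} ⊆ s → y = 0)) ↔ _
    rw [mem_Sy, mem_Sy]
    constructor
    · rintro ⟨⟨h2, h3⟩, h4⟩
      refine ⟨fun hc => ?_, h3⟩
      by_cases hs : v ∈ s
      · exact h4 (singleton_subset_iff.2 hs)
      · refine h2 fun h5 => hc ⟨h5.1, fun w hw => mem_erase.2 ⟨fun e => hs (e ▸ hw), h5.2 hw⟩⟩
    · rintro ⟨h2, h3⟩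
      refine ⟨⟨fun hc => h2 fun h5 => hc ⟨h5.1, fun w hw => mem_of_mem_erase (h5.2 hw)⟩, h3⟩, ?_⟩
      intro hs
      exact h2 fun h5 => notMem_erase v U (h5.2 (singleton_subset_iff.1 hs))
  -- cliques in the link
  have hcl : ∀ s, Cq G (lk G U v) s → v ∉ s ∧ Cq G U (insert v s) := by
    intro s hs
    have hvs : v ∉ s := fun h => ((hlk v).1 (hs.2 h)).2.ne rfl
    refine ⟨hvs, ?_, ?_⟩
    · rw [coe_insert]
      exact hs.1.insert fun b hb _ => ((hlk b).1 (hs.2 (mem_coe.1 hb))).2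
    · exact insert_subset hv fun w hw => ((hlk w).1 (hs.2 hw)).1
  have e2 : res {v} (Sy (Cq G U) r) = fun s => Sy (Cq G (lk G U v)) r s ⊓ Inv r {v} := by
    funext s
    ext y
    show (y ∈ Sy (Cq G U) r ({v} ∪ s) ∧ (¬ Disjoint {v} s → y = 0)) ↔ _
    rw [mem_Sy, Submodule.mem_inf, mem_Sy, mem_Inv, disjoint_singleton_left, not_not]
    constructor
    · rintro ⟨⟨h2, h3⟩, h4⟩
      refine ⟨⟨fun hc => ?_, fun w hw => h3 w (mem_union_right _ hw)⟩,
        fun w hw => h3 w (mem_union_left _ hw)⟩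
      by_cases hs : v ∈ s
      · exact h4 hs
      · refine h2 fun h6 => hc ⟨fun a ha b hb hab => h6.1 (mem_coe.2 (mem_union_right _
          (mem_coe.1 ha))) (mem_coe.2 (mem_union_right _ (mem_coe.1 hb))) hab, fun w hw => ?_⟩
        refine (hlk w).2 ⟨h6.2 (mem_union_right _ hw), h6.1 (mem_coe.2 (mem_union_left _
          (mem_singleton_self v))) (mem_coe.2 (mem_union_right _ hw)) fun e => hs (e ▸ hw)⟩
    · rintro ⟨⟨h2, h3⟩, h4⟩
      refine ⟨⟨fun hc => h2 fun h6 => hc ?_, fun w hw => ?_⟩, fun hs => ?_⟩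
      · rw [← insert_eq]
        exact (hcl s h6).2
      · rcases mem_union.1 hw with hw | hw
        · exact h4 w hw
        · exact h3 w hw
      · exact h2 fun h6 => (hcl s h6).1 hs
  have h2 := hd_half (X := Cq G (lk G U v)) (mono_Cq G _) (r := r) (E := E) (u := v)
    (fun s hs => ⟨(hcl s hs).1, IsBit.bitOn hN hB (hcl s hs).2⟩) i
  rw [e1, e2] at h1
  have h3 : (hX (Cq G (U.erase v)) r i : ℝ) ≤ hX (Cq G U) r i +
      (hd (fun s => Sy (Cq G (lk G U v)) r s ⊓ Inv r {v}) i : ℝ) := by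
    exact_mod_cast h1
  have h4 : 2 * (hd (fun s => Sy (Cq G (lk G U v)) r s ⊓ Inv r {v}) i : ℝ) =
      hX (Cq G (lk G U v)) r i := by
    exact_mod_cast h2
  have h5 : (0 : ℝ) < Module.finrank F2 Y := by exact_mod_cast hpos
  have h6 : 0 < ε * (Module.finrank F2 Y : ℝ) := by positivity
  linarith

end Pool.Agent.H73.GC

end
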