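import Pool.Agent.H71.TSG.M34
import Pool.Agent.H71.TSG.M40
import Pool.Agent.H71.TSG.M47
import Pool.Agent.H71.TSG.M53
import Pool.Agent.H71.TSG.M57
import Pool.Agent.H71.TSG.M58
import Pool.Agent.H71.TSG.M59

/-! The parts of this file: H73.GC.Good, S9.E.Base, S9.E.Gz, S9.E.Core, S9.E.Tr, S9.TE, S9.E.Main, S9.FinD, H3.SL.BallL2. -/

section

/-!
# Growth calculus: the inductive class
-/

set_option autoImplicit false
set_option linter.unusedSectionVars false

open Finset

namespace Pool.Agent.H73.GC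

open Pool.Agent.H85.VK

variable {V : Type} [DecidableEq V] [Fintype V]

/-- the class of flag complexes with the threshold `t` -/
inductive Good : SimpleGraph V → Finset V → ℕ → Prop
  | empty (G : SimpleGraph V) : Good G ∅ 1
  | susp (G : SimpleGraph V) (U : Finset V) (a b : V) (ha : a ∈ U) (hb : b ∈ U) (hab : a ≠ b)
      (hn : ¬ G.Adj a b) (h : ∀ w ∈ U, w ≠ a → w ≠ b → G.Adj a w ∧ G.Adj b w) : Good G U 0
  | vk (G : SimpleGraph V) (U : Finset V) (k : ℕ) (hdim : ∀ s : Finset V, Cq G U s → s.card ≤ k + 1)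
      (hvk : VanKampenZero (G.comap (Subtype.val : {v // v ∈ U} → V)) k) : Good G U (k + 1)
  | cone (G : SimpleGraph V) (U : Finset V) (v : V) (t : ℕ) (hv : v ∉ U)
      (h : ∀ w ∈ U, G.Adj v w) (h₁ : Good G U t) : Good G (insert v U) t
  | del (G : SimpleGraph V) (U : Finset V) (v : V) (t : ℕ) (hv : v ∈ U)
      (h₁ : Good G (U.erase v) (t + 1)) (h₂ : Good G (lk G U v) t) : Good G U (t + 1)
  | rem (G : SimpleGraph V) (U : Finset V) (v : V) (t : ℕ) (hv : v ∈ U)
      (h₁ : Good G U t) (h₂ : Good G (lk G U v) t) : Good G (U.erase v) t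
  | ident (G : SimpleGraph V) (U : Finset V) (x u : V) (t : ℕ) (hx : x ∈ U) (hu : u ∈ U)
      (hxu : x ≠ u) (hN : NoSq G U x u) (h₁ : Good (merge G x u) (U.erase x) (t + 1))
      (h₂ : Good G (lk2 G U x u) t) : Good G U (t + 1)
  | glue (G G₁ G₂ : SimpleGraph V) (A B : Finset V) (c c' : V) (t : ℕ) (hcA : c ∉ A) (hcB : c' ∉ B)
      (hno : ∀ a ∈ A, a ∉ B → ∀ b ∈ B, b ∉ A → ¬ G.Adj a b)
      (h1 : ∀ a ∈ A, ∀ b ∈ A, G₁.Adj a b ↔ G.Adj a b) (hc1 : ∀ a ∈ A, G₁.Adj c a ↔ a ∈ B)
      (h2 : ∀ a ∈ B, ∀ b ∈ B, G₂.Adj a b ↔ G.Adj a b) (hc2 : ∀ a ∈ B, G₂.Adj c' a ↔ a ∈ A)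
      (h₁ : Good G₁ (insert c A) t) (h₂ : Good G₂ (insert c' B) t) : Good G (A ∪ B) t
  | congr (G G' : SimpleGraph V) (U : Finset V) (t : ℕ)
      (h : ∀ a ∈ U, ∀ b ∈ U, G.Adj a b ↔ G'.Adj a b) (h₁ : Good G U t) : Good G' U t
  | le (G : SimpleGraph V) (U : Finset V) (t t' : ℕ) (ht : t ≤ t') (h₁ : Good G U t) : Good G U t'

theorem Good.gz {G : SimpleGraph V} {U : Finset V} {t : ℕ} (h : Good G U t) :
    ∀ i, t ≤ i → GZ G U i := by
  induction h with
  | empty G =>
    intro i hi
    refine gz_high fun s hs hc => ?_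
    have h1 : s = ∅ := subset_empty.1 hs.2
    rw [h1, card_empty] at hc
    omega
  | susp G U a b ha hb hab hn h => exact fun i _ => gz_susp ha hb hab hn h i
  | vk G U k hdim hvk => exact fun i hi => gz_vk k hdim hvk hi
  | cone G U v t hv h _ ih => exact fun i hi => gz_cone hv h (ih i hi)
  | del G U v t hv _ _ ih₁ ih₂ =>
    intro i hi
    obtain ⟨i, rfl⟩ : ∃ j, i = j + 1 := ⟨i - 1, by omega⟩
    exact gz_del hv (ih₁ _ hi) (ih₂ _ (by omega))
  | rem G U v t hv _ _ ih₁ ih₂ => exact fun i hi => gz_rem hv (ih₁ i hi) (ih₂ i hi)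
  | glue G G₁ G₂ A B c c' t hcA hcB hno h1 hc1 h2 hc2 _ _ ih₁ ih₂ =>
    exact fun i hi => gz_glue hcA hcB hno h1 hc1 h2 hc2 (ih₁ i hi) (ih₂ i hi)
  | congr G G' U t h _ ih => exact fun i hi => gz_congr h (ih i hi)
  | ident G U x u t hx hu hxu hN _ _ ih₁ ih₂ =>
    intro i hi
    obtain ⟨i, rfl⟩ : ∃ j, i = j + 1 := ⟨i - 1, by omega⟩
    exact gz_merge hx hu hxu hN (ih₁ _ hi) (ih₂ _ (by omega))
  | le G U t t' ht _ ih => exact fun i hi => ih i (ht.trans hi)

/-- the vanishing of the `ℓ²`-homology of right-angled Coxeter groups -/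
theorem gz_racg {G : SimpleGraph V} {U : Finset V} {i : ℕ} (h : GZ G U i) :
    Pool.Agent.H4.Singer.L2HomologyZero (G.comap (Subtype.val : {v // v ∈ U} → V)) i :=
  Pool.Agent.H4.Singer3.l2_of_dens _ i (dens_comap (dens_of_gz h))

theorem Good.racg {G : SimpleGraph V} {U : Finset V} {t : ℕ} (h : Good G U t) {i : ℕ} (hi : t ≤ i) :
    Pool.Agent.H4.Singer.L2HomologyZero (G.comap (Subtype.val : {v // v ∈ U} → V)) i :=
  gz_racg (h.gz i hi)

end Pool.Agent.H73.GC

end

section

/-!
# Project S9, block E: the limit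
-/

set_option autoImplicit false
set_option linter.unusedSectionVars false

open Finset

namespace Pool.Agent.S9

open Pool.Agent.H77.SW Pool.Agent.H73.GC

variable {V : Type} [DecidableEq V] [Fintype V] {P : Type} [Group P] [Fintype P]
  {I : Type} [Fintype I] {n : ℕ}

/-- **The Hilbert-Kunz limit** -/
theorem box {G : SimpleGraph V} (D : PG G P) (M : V → P → Matrix (Fin n) (Fin n) (RI I)) (d : ℕ)
    (ε : ℝ) (hε : 0 < ε) : ∃ k₀ : ℕ, ∀ k ≥ k₀,
      (Module.finrank (ZMod 2) (Zs (ZMod 2) G d (rk D M k)) : ℝ) ≤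
        ((zM (KI I) D (fun v p => (M v p).map (algebraMap (RI I) (KI I))) d : ℝ) + ε) *
          2 ^ (k * Fintype.card I) := by
  classical
  obtain ⟨k₀, h₀⟩ := rank_lim (BM D M d) ε hε
  refine ⟨k₀, fun k hk => ?_⟩
  have h1 := h₀ k hk
  have hfin : Finite (RK I k) := finite_RK k
  have h2 := zs_eq_ker (S := RK I k) D (fun v p => (M v p).map (redR I k)) d
  have h3 := zM_eq D (fun v p => (M v p).map (algebraMap (RI I) (KI I))) d
  rw [BM_map] at h1
  rw [BM_map] at h1
  have h4 : (Module.finrank (ZMod 2) (Zs (ZMod 2) G d (rk D M k)) : ℝ) +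
      (Module.finrank (ZMod 2) (LinearMap.range ((BM D (fun v p => (M v p).map (redR I k)) d).mulVecLin.restrictScalars (ZMod 2))) : ℝ) =
      (Fintype.card (Finset V × P × Fin n) : ℝ) * 2 ^ (k * Fintype.card I) := by
    have h5 := finrank_RK (I := I) k
    rw [h5] at h2
    exact_mod_cast h2
  have h5 : (zM (KI I) D (fun v p => (M v p).map (algebraMap (RI I) (KI I))) d : ℝ) +
      ((BM D (fun v p => (M v p).map (algebraMap (RI I) (KI I))) d).rank : ℝ) =
      (Fintype.card (Finset V × P × Fin n) : ℝ) := by exact_mod_cast h3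
  rw [← h5] at h4
  nlinarith [h1, h4]

end Pool.Agent.S9

end

section

/-!
# S9, block E: vanishing growth from the vanishing of the homology with generic coefficients
-/

set_option autoImplicit false
set_option linter.unusedSectionVars false

open Finset

namespace Pool.Agent.S9

open Pool.Agent.H77.SW Pool.Agent.H19.SR Pool.Agent.H73.GC

variable {V : Type} [DecidableEq V] [Fintype V] {P : Type} [Group P] [Fintype P]
  {I : Type} [Fintype I] {n : ℕ}

/-- the dimension of the coefficients -/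
theorem finrank_Yrk (k : ℕ) : Module.finrank F2 (P → Fin n → RK I k) =
    Fintype.card P * n * 2 ^ (k * Fintype.card I) := by
  have : Finite (RK I k) := finite_RK k
  have h1 : Module.finrank F2 (P → Fin n → RK I k) = Fintype.card P * Module.finrank F2 (Fin n → RK I k) := by
    rw [Module.finrank_pi_fintype, sum_const, card_univ, smul_eq_mul]
  have h2 : Module.finrank F2 (Fin n → RK I k) = n * Module.finrank F2 (RK I k) := by
    rw [Module.finrank_pi_fintype, sum_const, card_univ, smul_eq_mul, Fintype.card_fin]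
  rw [h1, h2, finrank_RK, mul_assoc]

/-- the dimension of the chains -/
theorem finrank_Ch_rk {G : SimpleGraph V} (D : PG G P) (M : V → P → Matrix (Fin n) (Fin n) (RI I)) {k : ℕ}
    (hN : IsN G univ (rk D M k)) (d : ℕ) :
    Module.finrank F2 (Ch (Sy (Cq G univ) (rk D M k)) d) = n * cP D d * 2 ^ (k * Fintype.card I) := by
  have : Finite (RK I k) := finite_RK k
  have h1 := finrank_gen hN (isBit_rk D M k) d
  have h2 := finrank_ch D d
  rw [finrank_Yrk] at h1
  have h3 : Module.finrank F2 (Ch (Sy (Cq G univ) (rk D M k)) d) * 2 ^ d =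
      n * cP D d * 2 ^ (k * Fintype.card I) * 2 ^ d := by
    have h4 : n * cP D d * 2 ^ (k * Fintype.card I) * 2 ^ d = (cP D d * 2 ^ d) * (n * 2 ^ (k * Fintype.card I)) := by ring
    rw [h1, h4]
    unfold cP
    rw [h2]
    ring
  exact Nat.eq_of_mul_eq_mul_right (by positivity) h3

/-- the homology of the reduction is at most the generic dimension, up to `ε` -/
theorem hX_rk_le {G : SimpleGraph V} (D : PG G P) (M : V → P → Matrix (Fin n) (Fin n) (RI I)) (hM : IsEdg D M)
    (htri : ∀ v p a b, b < a → M v p a b = 0)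
    (w : V → P → Fin n → I → ℤ) (hw : ∀ v p a, M v p a a = ttR (w v p a)) (i : ℕ) (ε : ℝ) (hε : 0 < ε) :
    ∃ k₀ : ℕ, ∀ k ≥ k₀, (hX (Cq G univ) (rk D M k) i : ℝ) ≤
      ((zM (KI I) D (fun v p => (M v p).map (algebraMap (RI I) (KI I))) i : ℝ) +
        zM (KI I) D (fun v p => (M v p).map (algebraMap (RI I) (KI I))) (i + 1) - n * cP D (i + 1) + ε) *
        2 ^ (k * Fintype.card I) := by
  obtain ⟨k₁, h₁⟩ := box D M i (ε / 2) (half_pos hε)
  obtain ⟨k₂, h₂⟩ := box D M (i + 1) (ε / 2) (half_pos hε)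
  refine ⟨max k₁ k₂, fun k hk => ?_⟩
  have : Finite (RK I k) := finite_RK k
  have e1 := h₁ k (le_trans (le_max_left _ _) hk)
  have e2 := h₂ k (le_trans (le_max_right _ _) hk)
  have e3 := finrank_Ch_rk D M (isN_rk D M hM htri w hw k) (i + 1)
  rw [hX_gen, e3]
  push_cast
  have e4 : ((zM (KI I) D (fun v p => (M v p).map (algebraMap (RI I) (KI I))) i : ℝ) +
        zM (KI I) D (fun v p => (M v p).map (algebraMap (RI I) (KI I))) (i + 1) - n * cP D (i + 1) + ε) *
        2 ^ (k * Fintype.card I) =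
      ((zM (KI I) D (fun v p => (M v p).map (algebraMap (RI I) (KI I))) i : ℝ) + ε / 2) * 2 ^ (k * Fintype.card I) +
      ((zM (KI I) D (fun v p => (M v p).map (algebraMap (RI I) (KI I))) (i + 1) : ℝ) + ε / 2) * 2 ^ (k * Fintype.card I) -
      n * cP D (i + 1) * 2 ^ (k * Fintype.card I) := by ring
  rw [e4]
  have e5 := add_le_add e1 e2
  linarith

theorem isEdg_chiR {G : SimpleGraph V} {D : PG G P} {e : V → P → I → ℤ} (he : IsEv D e) : IsEdg D (chiR e) := by
  have hadd : ∀ a b : I → ℤ, ttR a * ttR b = ttR (a + b) := by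
    intro a b
    unfold ttR
    rw [AddMonoidAlgebra.single_mul_single, mul_one]
  refine ⟨fun v p => ?_, fun u v h p => ?_⟩
  · funext a c
    rw [Matrix.mul_apply, Fin.sum_univ_one]
    change ttR (e v p) * ttR (e v (p * D.g v)) = _
    rw [hadd, he.inv, Subsingleton.elim a c, Matrix.one_apply_eq]
    rfl
  · funext a c
    rw [Matrix.mul_apply, Fin.sum_univ_one, Matrix.mul_apply, Fin.sum_univ_one]
    change ttR (e u p) * ttR (e v (p * D.g u)) = ttR (e v p) * ttR (e u (p * D.g v))
    rw [hadd, hadd, he.comm u v h]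

/-- **The growth vanishes if the homology with coefficients in the character does.** -/
theorem gz_of_zero {G : SimpleGraph V} (D : PG G P) (e : V → P → I → ℤ) (he : IsEv D e) (i : ℕ)
    (h : hchi D e i ≤ 0) : GZ G univ i := by
  intro ε hε
  have hM := isEdg_chiR he
  have htri : ∀ v p (a b : Fin 1), b < a → chiR e v p a b = 0 := by
    intro v p a b hab
    exact absurd hab (by rw [Subsingleton.elim a b]; exact lt_irrefl _)
  have hw : ∀ v p (a : Fin 1), chiR e v p a a = ttR (e v p) := fun v p a => rfl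
  obtain ⟨k, hk⟩ := hX_rk_le D (chiR e) hM htri (fun v p _ => e v p) hw i ε hε
  have hfin : Finite (RK I k) := finite_RK k
  have hN := isN_rk D (chiR e) hM htri (fun v p _ => e v p) hw k
  refine ⟨P → Fin 1 → RK I k, inferInstance, inferInstance, inferInstance, rk D (chiR e) k, bk D I 1 k, hN,
    isBit_rk D (chiR e) k, ?_, ?_⟩
  · rw [finrank_Yrk]
    have := Fintype.card_pos (α := P)
    positivity
  · have h1 := hk k le_rfl
    rw [finrank_Yrk]
    have h2 : ((zM (KI I) D (fun v p => (chiR e v p).map (algebraMap (RI I) (KI I))) i : ℝ) +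
        zM (KI I) D (fun v p => (chiR e v p).map (algebraMap (RI I) (KI I))) (i + 1) -
        ((1 : ℕ) : ℝ) * cP D (i + 1)) ≤ 0 := by
      have h3 : ((hchi D e i : ℤ) : ℝ) ≤ 0 := by exact_mod_cast h
      unfold hchi at h3
      push_cast at h3
      rw [Nat.cast_one, one_mul]
      exact h3
    have h4 : (1 : ℝ) ≤ Fintype.card P := by exact_mod_cast Fintype.card_pos
    have h5 : (0 : ℝ) < 2 ^ (k * Fintype.card I) := by positivity
    push_cast
    calc (hX (Cq G univ) (rk D (chiR e) k) i : ℝ) ≤ _ := h1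
      _ ≤ ε * 2 ^ (k * Fintype.card I) := mul_le_mul_of_nonneg_right (by linarith) h5.le
      _ ≤ ε * (Fintype.card P * ((1 : ℕ) : ℝ) * 2 ^ (k * Fintype.card I)) := by
        rw [Nat.cast_one, mul_one]
        refine mul_le_mul_of_nonneg_left ?_ hε.le
        nlinarith
      _ = _ := by norm_num

end Pool.Agent.S9

end

section

/-!
# S9, block E: the lower bound
-/

set_option autoImplicit false
set_option linter.unusedSectionVars false

open Finset

namespace Pool.Agent.S9

open Pool.Agent.H77.SW Pool.Agent.H19.SR Pool.Agent.H73.GC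

variable {V : Type} [DecidableEq V] [Fintype V] {P : Type} [Group P] [Fintype P]
  {I : Type} [Fintype I] {n : ℕ}

/-- **The lower bound** for coefficients over the ring -/
theorem lower_ring {G : SimpleGraph V} {D : PG G P} {e : V → P → I → ℤ} {i : ℕ}
    (hmin : MinAt D e i) (M : V → P → Matrix (Fin n) (Fin n) (RI I)) (hM : IsEdg D M)
    (htri : ∀ v p a b, b < a → M v p a b = 0)
    (w : V → P → Fin n → I → ℤ) (hw : ∀ v p a, M v p a a = ttR (w v p a)) :
    n * (zM (KI I) D (chiK e) i + zM (KI I) D (chiK e) (i + 1)) ≤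
      zM (KI I) D (fun v p => (M v p).map (algebraMap (RI I) (KI I))) i +
        zM (KI I) D (fun v p => (M v p).map (algebraMap (RI I) (KI I))) (i + 1) := by
  set A := zM (KI I) D (fun v p => (M v p).map (algebraMap (RI I) (KI I))) i with hA
  set B := zM (KI I) D (fun v p => (M v p).map (algebraMap (RI I) (KI I))) (i + 1) with hB
  have key : (n : ℝ) * (hchi D e i : ℝ) ≤ (A : ℝ) + B - n * cP D (i + 1) := by
    refine le_of_forall_pos_le_add fun ε hε => ?_
    obtain ⟨k, hk⟩ := hX_rk_le D M hM htri w hw i ε hε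
    have h1 := hk k le_rfl
    rw [← hA, ← hB] at h1
    have hfin : Finite (RK I k) := finite_RK k
    have hN := isN_rk D M hM htri w hw k
    obtain ⟨P', _, _, D', -, h2⟩ := to_group hN (isBit_rk D M k)
    have h3 := h2 univ i
    have h4 := hmin P' D'
    rw [finrank_Yrk] at h3
    have hP' : (0 : ℝ) < Fintype.card P' := by exact_mod_cast Fintype.card_pos
    have h5 : ((Fintype.card P * n * 2 ^ (k * Fintype.card I) : ℕ) : ℝ) * (hX (Cq G univ) (regP D'.g) i : ℝ) ≤
        Fintype.card P' * (hX (Cq G univ) (rk D M k) i : ℝ) := by exact_mod_cast h3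
    have h6 : (Fintype.card P' : ℝ) * (hchi D e i : ℝ) ≤ Fintype.card P * (hX (Cq G univ) (regP D'.g) i : ℝ) := by
      exact_mod_cast h4
    push_cast at h5
    have h7 : (0 : ℝ) < 2 ^ (k * Fintype.card I) := by positivity
    have h8 : (Fintype.card P' : ℝ) * ((n : ℝ) * (hchi D e i : ℝ) * 2 ^ (k * Fintype.card I)) ≤
        Fintype.card P' * (((A : ℝ) + B - n * cP D (i + 1) + ε) * 2 ^ (k * Fintype.card I)) := by
      calc (Fintype.card P' : ℝ) * ((n : ℝ) * (hchi D e i : ℝ) * 2 ^ (k * Fintype.card I))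
          = ((Fintype.card P' : ℝ) * (hchi D e i : ℝ)) * (n * 2 ^ (k * Fintype.card I)) := by ring
        _ ≤ (Fintype.card P * (hX (Cq G univ) (regP D'.g) i : ℝ)) * (n * 2 ^ (k * Fintype.card I)) :=
          mul_le_mul_of_nonneg_right h6 (by positivity)
        _ = (Fintype.card P : ℝ) * n * 2 ^ (k * Fintype.card I) * (hX (Cq G univ) (regP D'.g) i : ℝ) := by ring
        _ ≤ Fintype.card P' * (hX (Cq G univ) (rk D M k) i : ℝ) := h5
        _ ≤ _ := mul_le_mul_of_nonneg_left h1 hP'.le
    have h9 := le_of_mul_le_mul_left h8 hP'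
    exact le_of_mul_le_mul_right h9 h7
  have h10 : (n : ℝ) * ((zM (KI I) D (chiK e) i : ℝ) + zM (KI I) D (chiK e) (i + 1)) ≤ (A : ℝ) + B := by
    unfold hchi at key
    push_cast at key
    linarith
  exact_mod_cast h10

/-- **The lower bound** over the field -/
theorem lower_field {G : SimpleGraph V} {D : PG G P} {e : V → P → I → ℤ} {i : ℕ}
    (hmin : MinAt D e i) (M : V → P → Matrix (Fin n) (Fin n) (KI I)) (hM : IsEdg D M)
    (htri : ∀ v p a b, b < a → M v p a b = 0)
    (w : V → P → Fin n → I → ℤ) (hw : ∀ v p a, M v p a a = tt (w v p a)) :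
    n * (zM (KI I) D (chiK e) i + zM (KI I) D (chiK e) (i + 1)) ≤
      zM (KI I) D M i + zM (KI I) D M (i + 1) := by
  obtain ⟨d, hd0, c', h1, h2, h3⟩ := exists_den (R := RI I) (K := KI I) (fun x : V × P => M x.1 x.2)
    (fun x a b hab => htri x.1 x.2 a b hab) (fun x a => ttR (w x.1 x.2 a)) (fun x a => hw x.1 x.2 a)
  have hdK : algebraMap (RI I) (KI I) d ≠ 0 := by
    intro h0
    exact hd0 ((IsFractionRing.injective (RI I) (KI I)) (h0.trans (map_zero _).symm))
  have hM' : IsEdg D fun v p => c' (v, p) := by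
    refine ⟨fun v p => ?_, fun u v huv p => ?_⟩
    · refine den_inj hdK (den_mul (h3 (v, p)) (h3 (v, p * D.g v))) ?_
      have h4 : M v p * M v (p * D.g v) = 1 := hM.inv v p
      change _ = M v p * M v (p * D.g v) * _
      rw [h4]
      exact den_one _
    · refine den_inj hdK (den_mul (h3 (u, p)) (h3 (v, p * D.g u))) ?_
      have h4 : M u p * M v (p * D.g u) = M v p * M u (p * D.g v) := hM.comm u v huv p
      change _ = M u p * M v (p * D.g u) * _
      rw [h4]
      exact den_mul (h3 (v, p)) (h3 (u, p * D.g v))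
  have h5 := lower_ring hmin (fun v p => c' (v, p)) hM' (fun v p a b hab => h1 (v, p) a b hab) w
    (fun v p a => h2 (v, p) a)
  have h6 : ∀ k, zM (KI I) D (fun v p => (c' (v, p)).map (algebraMap (RI I) (KI I))) k = zM (KI I) D M k := by
    intro k
    refine zM_conj D M _ (fun a => algebraMap (RI I) (KI I) d ^ (a : ℕ)) (fun a => pow_ne_zero _ hdK)
      (fun v p a b => ?_) k
    have h7 := congrFun (congrFun (h3 (v, p)) a) b
    unfold dg at h7
    rw [Matrix.diagonal_mul, Matrix.mul_diagonal] at h7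
    rw [mul_comm]
    exact h7
  rw [h6, h6] at h5
  exact h5

/-- **Exactness**: the last coordinate of the cycles is surjective, in the degrees `i` and `i + 1`. The weights are
`e` composed with injective endomorphisms. -/
theorem lift_last {G : SimpleGraph V} {D : PG G P} {e : V → P → I → ℤ} {i : ℕ}
    (hmin : MinAt D e i) (M : V → P → Matrix (Fin (n + 1)) (Fin (n + 1)) (KI I)) (hM : IsEdg D M)
    (htri : ∀ v p a b, b < a → M v p a b = 0)
    (Z : Fin (n + 1) → (I → ℤ) →+ (I → ℤ)) (hZ : ∀ a, Function.Injective (Z a))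
    (hw : ∀ v p a, M v p a a = tt (Z a (e v p))) (d : ℕ) (hd : d = i ∨ d = i + 1)
    (z₀ : Finset V → P → Fin 1 → KI I)
    (hz₀ : z₀ ∈ Zs (KI I) G d (rM D (dM M (Fin.last n)))) :
    ∃ z ∈ Zs (KI I) G d (rM D M), ∀ σ p, z σ p (Fin.last n) = z₀ σ p 0 := by
  have h1 := lower_field hmin M hM htri (fun v p a => Z a (e v p)) hw
  have h2 : ∀ k a, zM (KI I) D (dM M a) k = zM (KI I) D (chiK e) k := by
    intro k a
    rw [← zM_base D e (Z a) (hZ a) k]
    have h3 : dM M a = chiK fun v p => Z a (e v p) := by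
      funext v p x y
      exact hw v p a
    rw [h3]
  have h4 : ∀ k, ∑ a : Fin (n + 1), zM (KI I) D (dM M a) k = (n + 1) * zM (KI I) D (chiK e) k := by
    intro k
    rw [sum_congr rfl fun a _ => h2 k a, sum_const, card_univ, Fintype.card_fin, smul_eq_mul]
  have h5 : ∀ k, zM (KI I) D M k ≤ (n + 1) * zM (KI I) D (chiK e) k := by
    intro k
    rw [← h4]
    exact zM_le D M htri k
  have h6 := h5 i
  have h7 := h5 (i + 1)
  rw [mul_add] at h1
  have h8 : zM (KI I) D M d = ∑ a : Fin (n + 1), zM (KI I) D (dM M a) d := by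
    rw [h4]
    rcases hd with rfl | rfl
    · omega
    · omega
  exact lift_of_eq D M htri d h8 z₀ hz₀

end Pool.Agent.S9

end

section

/-!
# S9, block E: translation of exactness to the level

`lifts_of`: if all cycles of the last coordinate lift (in the finite quotient), then all cycles of the tautological
character of the level have the property `Lifts`.
-/

set_option autoImplicit false
set_option linter.unusedSectionVars false

open Finset

namespace Pool.Agent.S9

open Pool.Agent.H77.SW Pool.Agent.H19.SR Pool.Agent.H73.GC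

variable {V : Type} [DecidableEq V] [Fintype V] {G : SimpleGraph V} {W : Type} [Group W]

/-- the lifting property of the finite quotient: the conclusion of `lift_last` -/
def LiftP {P : Type} [Group P] (D : PG G P) {I : Type} (e : V → P → I → ℤ) (d : ℕ) : Prop :=
  ∀ (n : ℕ) (M : V → P → Matrix (Fin (n + 1)) (Fin (n + 1)) (KI I)), IsEdg D M →
    (∀ v p a b, b < a → M v p a b = 0) →
    ∀ Z : Fin (n + 1) → (I → ℤ) →+ (I → ℤ), (∀ a, Function.Injective (Z a)) →
    (∀ v p a, M v p a a = tt (Z a (e v p))) →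
    ∀ z₀ : Finset V → P → Fin 1 → KI I,
      z₀ ∈ Zs (KI I) G d (rM D fun v p => fun _ _ : Fin 1 => M v p (Fin.last n) (Fin.last n)) →
      ∃ z ∈ Zs (KI I) G d (rM D M), ∀ σ p, z σ p (Fin.last n) = z₀ σ p 0

theorem lifts_of (R : Rac G W) {Γ : Subgroup W} [Γ.Normal] (hΓ : Lev R Γ) {r : ℕ}
    (ab : Γ →* Multiplicative (Fin r → ℤ)) (hs : Function.Surjective ab)
    (hf : ∀ f : Γ →* Multiplicative ℤ, ∀ g, ab g = 1 → f g = 1) {i : ℕ}
    (hL : LiftP (qD R hΓ) (eab R ab) i) (z₀ : Finset V → W → KI (Fin r))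
    (hz₀ : z₀ ∈ Zc R Γ (ch (chiab ab)) i) : Lifts R Γ (chiab ab) i z₀ := by
  intro N _ _ _ ρ π hρ hπ hinv
  obtain ⟨n, b, lam, hlam, htri, hdiag, hπb⟩ := exists_tri ρ hρ π hπ hinv
  choose Y hY hYi using fun a => exists_wt ab hs hf (chiab ab) (fun g => chiab_coe ab g) (lam a) (hlam a)
  have hM := isEdg_MB R hΓ b (tw (chiab ab) ρ)
  have hval : ∀ v p a c, MB R b (tw (chiab ab) ρ) v p a c =
      (chiab ab (gam R v p) : KI (Fin r)) * LinearMap.toMatrix b b (ρ (gam R v p)) a c := by
    intro v p a c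
    rw [MB_tw]
    rfl
  have hlast : ∀ g, LinearMap.toMatrix b b (ρ g) (Fin.last n) (Fin.last n) = 1 := by
    intro g
    have h1 := hinv g (b (Fin.last n))
    rw [← b.sum_repr (ρ g (b (Fin.last n)))] at h1
    simp only [map_sum, map_smul, hπb, smul_eq_mul, mul_ite, mul_one, mul_zero, Finset.sum_ite_eq',
      Finset.mem_univ, if_true] at h1
    rw [LinearMap.toMatrix_apply]
    exact h1
  have htri' : ∀ v p a c, c < a → MB R b (tw (chiab ab) ρ) v p a c = 0 := by
    intro v p a c hca
    rw [hval, htri _ _ _ hca, mul_zero]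
  have hw : ∀ v p a, MB R b (tw (chiab ab) ρ) v p a a =
      tt ((AddMonoidHom.id (Fin r → ℤ) + 2 • Y a : (Fin r → ℤ) →+ (Fin r → ℤ)) (eab R ab v p)) := by
    intro v p a
    rw [hval, hdiag, hY, chiab_coe, ← tt_add]
    rfl
  let z₁ : Zs (KI (Fin r)) G i (rM (qD R hΓ) (chiK (eab R ab))) :=
    dictChi R hΓ ab (chiab ab) (fun g => chiab_coe ab g) i ⟨z₀, hz₀⟩
  have hrM : (rM (qD R hΓ) fun v p => fun _ _ : Fin 1 => MB R b (tw (chiab ab) ρ) v p (Fin.last n) (Fin.last n)) =
      rM (qD R hΓ) (chiK (eab R ab)) := by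
    have h2 : (fun v p => fun _ _ : Fin 1 => MB R b (tw (chiab ab) ρ) v p (Fin.last n) (Fin.last n)) =
        chiK (eab R ab) := by
      funext v p a c
      rw [hval, hlast, mul_one, chiab_coe]
      rfl
    rw [h2]
  obtain ⟨z', hz', hz'l⟩ := hL n _ hM htri' (fun a => AddMonoidHom.id (Fin r → ℤ) + 2 • Y a) hYi hw
    (z₁ : Finset V → W ⧸ Γ → Fin 1 → KI (Fin r)) (by rw [hrM]; exact z₁.2)
  let c := (dictB R hΓ b (tw (chiab ab) ρ) i).symm ⟨z', hz'⟩
  refine ⟨c.1, c.2, fun A w => ?_⟩
  have h3 : ∀ p : W ⧸ Γ, π (c.1 A p.out) = z₀ A p.out := by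
    intro p
    have h4 : ∀ a, z' A p a = b.repr (c.1 A p.out) a := by
      intro a
      rw [← dictB_apply R hΓ b (tw (chiab ab) ρ) i c A p a]
      have h5 : dictB R hΓ b (tw (chiab ab) ρ) i c = ⟨z', hz'⟩ := LinearEquiv.apply_symm_apply _ _
      rw [h5]
    rw [← b.sum_repr (c.1 A p.out)]
    simp only [map_sum, map_smul, hπb, smul_eq_mul, mul_ite, mul_one, mul_zero, Finset.sum_ite_eq',
      Finset.mem_univ, if_true]
    rw [← h4, hz'l]
    rfl
  have h6 : c.1 A w = tw (chiab ab) ρ (wg Γ w) (c.1 A (QuotientGroup.mk w : W ⧸ Γ).out) := by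
    rw [← c.2.1.2.2 A (wg Γ w), wg_out_eq]
  have h7 : z₀ A w = (chiab ab (wg Γ w) : KI (Fin r)) * z₀ A (QuotientGroup.mk w : W ⧸ Γ).out := by
    rw [← ch_apply, ← hz₀.1.2.2 A (wg Γ w), wg_out_eq]
  rw [h6, h7, ← h3]
  change π ((chiab ab (wg Γ w) : KI (Fin r)) • ρ (wg Γ w) _) = _
  rw [map_smul, hinv, smul_eq_mul]

/-- if all cycles are boundaries, then the homology vanishes -/
theorem hh_le_zero (R : Rac G W) {Γ : Subgroup W} [Γ.Normal] (hΓ : Lev R Γ) {K : Type} [Field K] {N : Type}
    [AddCommGroup N] [Module K N] [FiniteDimensional K N] (ρ : Γ →* Module.End K N) (i : ℕ)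
    (h : ∀ z ∈ Zc R Γ ρ i, z ∈ Bc R Γ ρ i) : hh R Γ ρ i ≤ 0 := by
  have h0 := finite_Cc R hΓ ρ (i + 1)
  have h1 : FiniteDimensional K (Bc R Γ ρ i) := by
    unfold Bc
    infer_instance
  have h2 := Submodule.finrank_mono (show Zc R Γ ρ i ≤ Bc R Γ ρ i from h)
  unfold hh
  omega

/-- **block E from its parts** -/
theorem E_main_of (R : Rac G W) (i : ℕ)
    (hTE : ∃ (m r : ℕ) (ab : T R m →* Multiplicative (Fin r → ℤ)), Function.Surjective ab ∧
      (∀ f : T R m →* Multiplicative ℤ, ∀ g, ab g = 1 → f g = 1) ∧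
      MinAt (qD R (T_lev R m)) (fun v p => Multiplicative.toAdd (ab (gam R v p))) i)
    (hLift : ∀ (P : Type) [Group P] [Fintype P] (D : PG G P) (r : ℕ) (e : V → P → Fin r → ℤ),
      IsEv D e → MinAt D e i → LiftP D e i)
    (hGZ : ∀ (P : Type) [Group P] [Fintype P] (D : PG G P) (r : ℕ) (e : V → P → Fin r → ℤ),
      IsEv D e → hchi D e i ≤ 0 → GZ G univ i) :
    ∃ (Γ : Subgroup W) (K : Type) (_ : Field K) (_ : CharP K 2) (χ : Γ →* Kˣ), Lev R Γ ∧
      (∀ z₀ ∈ Zc R Γ (ch χ) i, Lifts R Γ χ i z₀) ∧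
      ((∀ z₀ ∈ Zc R Γ (ch χ) i, z₀ ∈ Bc R Γ (ch χ) i) → GZ G univ i) := by
  obtain ⟨m, r, ab, hs, hf, hmin⟩ := hTE
  have hchar : CharP (KI (Fin r)) 2 := by
    exact charP_of_injective_ringHom (((algebraMap (RI (Fin r)) (KI (Fin r))).comp
      (algebraMap (ZMod 2) (RI (Fin r)))).injective) 2
  refine ⟨T R m, KI (Fin r), inferInstance, hchar, chiab ab, T_lev R m, fun z₀ hz₀ => ?_, fun h => ?_⟩
  · exact lifts_of R (T_lev R m) ab hs hf (hLift _ _ r _ (isEv_eab R (T_lev R m) ab) hmin) z₀ hz₀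
  · refine hGZ _ (qD R (T_lev R m)) r _ (isEv_eab R (T_lev R m) ab) ?_
    rw [← hh_chi R (T_lev R m) ab (chiab ab) fun g => chiab_coe ab g]
    exact hh_le_zero R (T_lev R m) _ i h

end Pool.Agent.S9

end

section

/-!
# Project S9: the interface between the tower and block E
-/

set_option autoImplicit false
set_option linter.unusedSectionVars false

open Finset

namespace Pool.Agent.S9

open Pool.Agent.H77.SW Pool.Agent.H19.SR Pool.Agent.H73.GC

variable {V : Type} [DecidableEq V] [Fintype V] {G : SimpleGraph V} {W : Type} [Group W]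

theorem KI_charP (I : Type) : CharP (KI I) 2 := by
  haveI h1 : CharP (RI I) 2 := by
    refine CharP.of_ringHom_of_ne_zero (AddMonoidAlgebra.singleZeroRingHom (R := ZMod 2) (M := I → ℤ)) 2 (by decide)
  exact charP_of_injective_algebraMap (IsFractionRing.injective (RI I) (KI I)) 2

/-- the dimension of the homology of a level with coefficients in the tautological character -/
theorem hh_hchi (R : Rac G W) {Γ : Subgroup W} [Γ.Normal] [Fintype (W ⧸ Γ)] (hΓ : Lev R Γ) {I : Type}
    (ab : Γ →* Multiplicative (I → ℤ)) (χ : Γ →* (KI I)ˣ) (hχ : ∀ g, (χ g : KI I) = tt (ab g).toAdd)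
    (i : ℕ) : hh R Γ (ch χ) i = hchi (qD R hΓ) (eab R ab) i := by
  rw [hh_eq_sub R hΓ, finrank_Zc_chi R hΓ ab χ hχ, finrank_Zc_chi R hΓ ab χ hχ,
    (dictC R hΓ (ch χ) (i + 1)).finrank_eq, finrank_Cz, Module.finrank_self, mul_one]
  · rfl
  · intro v p
    rw [← Module.End.mul_eq_comp, ← map_mul, gam_inv R hΓ, map_one]
    rfl
  · intro u v h p
    rw [← Module.End.mul_eq_comp, ← Module.End.mul_eq_comp, ← map_mul, ← map_mul, gam_comm R hΓ h]

/-- **integrality** -/
theorem T_int (R : Rac G W) (m : ℕ) {r : ℕ} (ab : T R m →* Multiplicative (Fin r → ℤ))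
    (hab : Function.Surjective ab) (h0 : ∀ f : T R m →* Multiplicative ℤ, ∀ g, ab g = 1 → f g = 1)
    (χ : T R m →* (KI (Fin r))ˣ) (hχ : ∀ g, (χ g : KI (Fin r)) = tt (ab g).toAdd) (k : ℕ) :
    (((T R m).relIndex (T R 0) : ℕ) : ℤ) ∣ hh R (T R m) (ch χ) k := by
  have hle : T R m ≤ T R 0 := T_anti R (Nat.zero_le m)
  have hk : ∀ g : W, g ∈ kz (T R m) ↔ ∃ h : g ∈ T R m, ab ⟨g, h⟩ = 1 := by
    intro g
    constructor
    · rintro ⟨h, h1⟩
      refine ⟨h, ?_⟩
      have h2 : Multiplicative.toAdd (ab ⟨g, h⟩) = 0 := by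
        funext i
        have h3 := h1 ((AddMonoidHom.toMultiplicative (Pi.evalAddMonoidHom (fun _ : Fin r => ℤ) i)).comp ab)
        exact h3
      exact h2
    · rintro ⟨h, h1⟩
      exact ⟨h, fun f => h0 f _ h1⟩
  haveI : UniqueProds (T R 0 ⧸ (kz (T R m)).subgroupOf (T R 0)) :=
    up_quot R (N := kz (T R m)) (m := m) ab (fun g => by
      rw [hk]
      exact ⟨fun ⟨_, h⟩ => h, fun h => ⟨g.2, h⟩⟩) (fun g hg => hg)
  exact int_hh R hle (by
    have h1 := Subgroup.relIndex_mul_index hle
    intro h2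
    rw [h2, zero_mul] at h1
    exact (T_lev R m).fin.index_ne_zero h1.symm) ab hab h0 ((kz (T R m)).subgroupOf (T R 0))
    (fun g => by
      rw [Subgroup.mem_subgroupOf]
      exact hk g) χ hχ k

/-- **the interface between the tower and block E**: there is a level at which the growth of the character is at most
the growth of all finite quotients -/
theorem TE (R : Rac G W) (i : ℕ) :
    ∃ (m r : ℕ) (ab : T R m →* Multiplicative (Fin r → ℤ)), Function.Surjective ab ∧
      (∀ f : T R m →* Multiplicative ℤ, ∀ g, ab g = 1 → f g = 1) ∧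
      MinAt (qD R (T_lev R m)) (eab R ab) i := by
  refine te_core R i (fun P _ _ D r e _ => spec D e i) fun m r ab h1 h2 => ?_
  have h3 := T_int R m ab h1 h2 (chiab ab) (chiab_coe ab) i
  have h4 := hh_hchi R (T_lev R m) ab (chiab ab) (chiab_coe ab) i
  haveI := KI_charP (Fin r)
  have h5 := hh_nonneg R (T_lev R m) (ch (chiab ab)) i
  rw [h4] at h3 h5
  obtain ⟨b, hb⟩ := h3
  have hle : T R m ≤ T R 0 := T_anti R (Nat.zero_le m)
  have h6 : (Fintype.card (W ⧸ T R m) : ℤ) =
      ((T R m).relIndex (T R 0) : ℕ) * (Fintype.card (W ⧸ T R 0) : ℤ) := by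
    have h7 := Subgroup.relIndex_mul_index hle
    rw [← Nat.card_eq_fintype_card, ← Nat.card_eq_fintype_card]
    show (((T R m).index : ℕ) : ℤ) = _ * (((T R 0).index : ℕ) : ℤ)
    rw [← h7]
    push_cast
    ring
  have h8 : (0 : ℤ) < ((T R m).relIndex (T R 0) : ℕ) := by
    have h9 : (T R m).relIndex (T R 0) ≠ 0 := by
      intro h9
      have h7 := Subgroup.relIndex_mul_index hle
      rw [h9, zero_mul] at h7
      exact (T_lev R m).fin.index_ne_zero h7.symm
    exact_mod_cast Nat.pos_of_ne_zero h9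
  have h10 : 0 ≤ b := by
    rw [hb] at h5
    exact nonneg_of_mul_nonneg_right h5 h8
  refine ⟨b.toNat, ?_⟩
  rw [Int.toNat_of_nonneg h10, h6]
  have h11 : hchi (qD R (T_lev R m)) (fun v p => Multiplicative.toAdd (ab (gam R v p))) i =
      ((T R m).relIndex (T R 0) : ℕ) * b := hb
  rw [h11]
  ring

end Pool.Agent.S9

end

section

/-!
# S9, block E: the main statement
-/

set_option autoImplicit false
set_option linter.unusedSectionVars false

open Finset

namespace Pool.Agent.S9

open Pool.Agent.H77.SW Pool.Agent.H19.SR Pool.Agent.H73.GC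

variable {V : Type} [DecidableEq V] [Fintype V] {G : SimpleGraph V} {W : Type} [Group W]

/-- BLOCK E: there is a level at which all cycles lift to all triangular modules, and the growth is the dimension of the
homology with coefficients in `χ` -/
theorem E_main (R : Rac G W) (i : ℕ) :
    ∃ (Γ : Subgroup W) (K : Type) (_ : Field K) (_ : CharP K 2) (χ : Γ →* Kˣ), Lev R Γ ∧
      (∀ z₀ ∈ Zc R Γ (ch χ) i, Lifts R Γ χ i z₀) ∧
      ((∀ z₀ ∈ Zc R Γ (ch χ) i, z₀ ∈ Bc R Γ (ch χ) i) → GZ G univ i) := by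
  refine E_main_of R i (TE R i) (fun P _ _ D r e _ hmin => ?_) fun P _ _ D r e he h => gz_of_zero D e he i h
  intro n M hM htri Z hZ hw z₀ hz₀
  exact lift_last hmin M hM htri Z hZ hw i (Or.inl rfl) z₀ hz₀

end Pool.Agent.S9

end

section

/-!
# Project S9: spheres and balls: the theorem, full subcomplexes and `ℓ²`-homology
-/

set_option autoImplicit false
set_option linter.unusedSectionVars false

open Finset

namespace Pool.Agent.S9

open Pool.Agent.H73.GC Pool.Agent.H19.SR

/-- **S9 for discs**: the mod 2 homology growth of the right-angled Coxeter group of a flag homology sphere or ball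
vanishes above the middle -/
theorem S9_disc {V : Type} [DecidableEq V] [Fintype V] {G : SimpleGraph V} {n i : ℕ}
    {B : Finset V → Prop} (hS : IsDisc G n B) (hi : n < 2 * i) : GZ G univ i := by
  obtain ⟨W, _, ⟨R⟩⟩ := rac_ex G
  obtain ⟨Γ, K, _, _, χ, hΓ, h1, h2⟩ := E_main R i
  exact h2 fun z₀ hz => F_mainD R hS hi hΓ χ (G_main R hΓ K _) z₀ hz (h1 z₀ hz)

/-- **all full subcomplexes of flag homology spheres and balls** -/
theorem gz_disc (n : ℕ) : ∀ {V : Type} [DecidableEq V] [Fintype V] {G : SimpleGraph V}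
    {B : Finset V → Prop}, IsDisc G n B → ∀ i, n < 2 * i → ∀ U : Finset V, GZ G U i := by
  induction n using Nat.strong_induction_on with
  | _ n ih =>
  intro V _ _ G B hS i hi
  rcases Nat.lt_or_ge n i with hni | hni
  · intro U
    refine gz_high fun s hs hc' => ?_
    have := hS.card_le s hs.1
    omega
  -- the full subcomplexes
  have hsub : ∀ C : Finset V, GZ G (univ \ C) i := by
    intro C
    induction C using Finset.induction_on with
    | empty =>
      rw [sdiff_empty]
      exact S9_disc hS hi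
    | insert v C hv ihC =>
      have h1 : univ \ insert v C = (univ \ C).erase v := by
        ext w
        simp only [mem_sdiff, mem_univ, true_and, mem_insert, mem_erase, not_or]
      rw [h1]
      refine gz_rem (mem_sdiff.2 ⟨mem_univ _, hv⟩) ihC ?_
      have hcl : G.IsClique (({v} : Finset V) : Set V) := by
        rw [coe_singleton]
        exact SimpleGraph.isClique_singleton v
      have hlk : ∀ w, w ∈ lk G (univ \ C) v → w ∈ lkF G {v} := by
        classical
        intro w hw
        unfold lk at hw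
        unfold lkF
        rw [mem_filter] at hw ⊢
        refine ⟨mem_univ _, fun u hu => ?_⟩
        rw [mem_singleton] at hu
        rw [hu]
        exact hw.2
      have hlt : n - ({v} : Finset V).card < n := by
        rw [card_singleton]
        omega
      have h5 := ih (n - ({v} : Finset V).card) hlt (hS.link hcl) i (by omega)
        (univ.filter fun w : {w // w ∈ lkF G {v}} => w.1 ∈ lk G (univ \ C) v)
      have h6 := gz_map (Function.Embedding.subtype fun w => w ∈ lkF G {v}) G _ h5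
      have h7 : (univ.filter fun w : {w // w ∈ lkF G {v}} => w.1 ∈ lk G (univ \ C) v).map
          (Function.Embedding.subtype fun w => w ∈ lkF G {v}) = lk G (univ \ C) v := by
        ext w
        rw [mem_map]
        constructor
        · rintro ⟨a, ha, rfl⟩
          exact (mem_filter.1 ha).2
        · intro hw
          exact ⟨⟨w, hlk w hw⟩, mem_filter.2 ⟨mem_univ _, hw⟩, rfl⟩
      rw [h7] at h6
      exact h6
  intro U
  have h := hsub (univ \ U)
  rw [sdiff_sdiff_right_self, inf_eq_inter, univ_inter] at h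
  exact h

/-- **Singer's conjecture for right-angled Coxeter groups**, and more: `L` is a full subcomplex of a flag homology sphere
or ball of dimension `n - 1` over the field of two elements, `n < 2 i` -/
theorem l2_disc {V W : Type} [DecidableEq V] [Fintype V] [DecidableEq W] [Fintype W]
    {L : SimpleGraph V} {K : SimpleGraph W} {n : ℕ} {B : Finset W → Prop} (hK : IsDisc K n B)
    (e : L ↪g K) {i : ℕ} (hi : n < 2 * i) : Pool.Agent.H4.Singer.L2HomologyZero L i := by
  have h1 : GZ K (univ.map e.toEmbedding) i := gz_disc n hK i hi _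
  have h2 := gz_racg h1
  let φ : L ≃g K.comap (Subtype.val : {w // w ∈ univ.map e.toEmbedding} → W) :=
    { toFun := fun v => ⟨e v, mem_map_of_mem _ (mem_univ v)⟩
      invFun := fun w => (mem_map.1 w.2).choose
      left_inv := by
        intro v
        have h := (mem_map.1 (mem_map_of_mem e.toEmbedding (mem_univ v))).choose_spec.2
        exact e.injective h
      right_inv := by
        rintro ⟨w, hw⟩
        exact Subtype.ext (mem_map.1 hw).choose_spec.2
      map_rel_iff' := by
        intro a b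
        exact e.map_adj_iff }
  exact Pool.Agent.H85.OK.l2_iso φ h2

end Pool.Agent.S9

end

section

/-!
# Full subcomplexes of flag homology balls and spheres
-/

set_option autoImplicit false

open Finset

namespace Pool.Agent.H3.SL

/-- **Singer's conjecture for right-angled Coxeter groups.** `L` is a full subcomplex of a flag homology ball or sphere
of dimension `n - 1` over the field of two elements, `n < 2 i`. -/
theorem ball_l2 {V W : Type} [DecidableEq V] [Fintype V] [DecidableEq W] [Fintype W]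
    {L : SimpleGraph V} {K : SimpleGraph W} {n i : ℕ} (hK : HomologyBall2 K n) (e : L ↪g K)
    (hi : n < 2 * i) : Pool.Agent.H4.Singer.L2HomologyZero L i := by
  obtain ⟨B, hB⟩ := hK.isDisc
  exact Pool.Agent.S9.l2_disc hB e hi

end Pool.Agent.H3.SL

end
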