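import Pool.Agent.H71.TSG.M21
import Pool.Agent.H71.TSG.M33
import Pool.Agent.H71.TSG.M41
import Pool.Agent.H71.TSG.M43

/-! The parts of this file: H19.Cub.HInf, H19.Cub.HFin, S10.L2End, S10.GzQ. -/

section

/-!
# Project MC: harmonic `ℓ²`-chains are in the kernel of the matrix

Modelled on `Pool.Agent.H4.Singer.HarmInf`. For a harmonic chain `f` on `Ω × W` let `φ x σ w = f σ (x, w)` and
apply `HS_anti`, `HS_bd`, `HS_cobd`, `HS_zero` with `H = RGrp G`, `π = id`, `(gen G v)⁻¹ = gen G v`.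
-/

set_option autoImplicit false
set_option linter.unusedSectionVars false

open Finset

namespace Pool.Agent.H19.Cub

open Pool.Agent.H4.Singer Pool.Agent.H4.Atiyah

variable {V : Type} [Fintype V] [DecidableEq V] {Ω : Type} [Fintype Ω]

/-- the matrix `HS` with rows and columns numbered by `Fin` -/
noncomputable def HSA (G : SimpleGraph V) (Y : Ω → Finset V) (s : V → Ω → Ω) (ν : V → ℕ)
    (i : ℕ) : Matrix (Fin (Fintype.card (RS G Y i))) (Fin (Fintype.card (CS G Y i)))
      (MonoidAlgebra ℤ (RGrp G)) :=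
  (HS G Y s ν i).submatrix (Fintype.equivFin (RS G Y i)).symm (Fintype.equivFin (CS G Y i)).symm

private lemma hi_gen_inv (G : SimpleGraph V) (v : V) : (gen G v)⁻¹ = gen G v := by
  have h : gen G v * gen G v = 1 := (racg G).toCoxeterSystem.simple_mul_simple_self v
  exact inv_eq_of_mul_eq_one_left h

private lemma hi_coeff_toC {W : Type} [Group W] (a : MonoidAlgebra ℤ W) (h : W) :
    (MonoidAlgebra.mapRingHom W (Int.castRingHom ℂ) a).coeff h = ((a.coeff h : ℤ) : ℂ) := by
  simp [MonoidAlgebra.mapRingHom]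

private lemma hi_sum_toC {W : Type} [Group W] (a : MonoidAlgebra ℤ W) (φ : W → ℂ) (g : W) :
    ∑ h ∈ (MonoidAlgebra.mapRingHom W (Int.castRingHom ℂ) a).coeff.support,
      φ (g * h⁻¹) * (MonoidAlgebra.mapRingHom W (Int.castRingHom ℂ) a).coeff h =
      gact (MonoidHom.id W) a φ g := by
  unfold gact
  have hs : (MonoidAlgebra.mapRingHom W (Int.castRingHom ℂ) a).coeff.support =
      a.coeff.support := by
    ext h
    rw [Finsupp.mem_support_iff, Finsupp.mem_support_iff, hi_coeff_toC]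
    simp
  rw [hs]
  refine Finset.sum_congr rfl fun h _ => ?_
  rw [hi_coeff_toC]
  rfl

theorem harm_infS (G : SimpleGraph V) (Y : Ω → Finset V) (s : V → Ω → Ω) (hs : IsSpec G Y s)
    (ν : V → ℕ) (i : ℕ) (h0 : ∀ x ∈ l2ker (toC (HSA G Y s ν i)), x = 0) :
    ∀ f : Finset V → Ω × RGrp G → ℂ,
      IsHarmS G (prY Y (RGrp G)) (prS s (gen G)) ν i f → f = 0 := by
  classical
  intro f hf
  obtain ⟨x, hx⟩ : ∃ x : Ω → Finset V → RGrp G → ℂ, x = fun a σ w => f σ (a, w) := ⟨_, rfl⟩
  have hxf : ∀ a σ w, f σ (a, w) = x a σ w := fun a σ w => by rw [hx]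
  have hsupp : ∀ (a : Ω) (σ : Finset V),
      ¬ (σ ⊆ Y a ∧ G.IsClique (σ : Set V) ∧ σ.card = i) → x a σ = 0 := by
    intro a σ hσ
    funext w
    by_contra hne
    exact hσ (hf.chain.supp σ (a, w) (by rw [hxf]; exact hne))
  have hl2 : ∀ (a : Ω) (σ : Finset V), Summable fun w => ‖x a σ w‖ ^ 2 := by
    intro a σ
    have h1 := (hf.chain.l2 σ).comp_injective
      (i := fun w : RGrp G => (a, w)) (fun w w' h => (Prod.ext_iff.1 h).2)
    refine h1.congr fun w => ?_
    rw [← hxf]
    rfl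
  -- the function on `Fin k × W`
  let row : Fin (Fintype.card (RS G Y i)) → RS G Y i := (Fintype.equivFin (RS G Y i)).symm
  let F : Fin (Fintype.card (RS G Y i)) × RGrp G → ℂ :=
    fun p => x (row p.1).1.1 (row p.1).1.2 p.2
  have hF : Memℓp F 2 := by
    refine memℓp_gen ?_
    have h1 : Summable fun p : Fin (Fintype.card (RS G Y i)) × RGrp G => ‖F p‖ ^ 2 := by
      rw [summable_prod_of_nonneg (fun p => by positivity)]
      refine ⟨fun j => hl2 (row j).1.1 (row j).1.2, ?_⟩
      exact Summable.of_finite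
    refine h1.congr fun p => ?_
    norm_num
  let X : lp (fun _ : Fin (Fintype.card (RS G Y i)) × RGrp G => ℂ) 2 := ⟨F, hF⟩
  have hX : X ∈ l2ker (toC (HSA G Y s ν i)) := by
    intro c g
    have h1 : ∀ j : Fin (Fintype.card (RS G Y i)),
        ∑ h ∈ ((toC (HSA G Y s ν i)) j c).coeff.support, X (j, g * h⁻¹) *
          ((toC (HSA G Y s ν i)) j c).coeff h =
        gact (MonoidHom.id (RGrp G))
          (HS G Y s ν i (row j) ((Fintype.equivFin (CS G Y i)).symm c))
            (x (row j).1.1 (row j).1.2) g := by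
      intro j
      exact hi_sum_toC (HS G Y s ν i (row j) ((Fintype.equivFin (CS G Y i)).symm c))
        (x (row j).1.1 (row j).1.2) g
    rw [Finset.sum_congr rfl fun j _ => h1 j]
    have h2 : ∑ j : Fin (Fintype.card (RS G Y i)), gact (MonoidHom.id (RGrp G))
          (HS G Y s ν i (row j) ((Fintype.equivFin (CS G Y i)).symm c))
            (x (row j).1.1 (row j).1.2) g =
        ∑ r : RS G Y i, gact (MonoidHom.id (RGrp G))
          (HS G Y s ν i r ((Fintype.equivFin (CS G Y i)).symm c)) (x r.1.1 r.1.2) g :=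
      Equiv.sum_comp (Fintype.equivFin (RS G Y i)).symm (fun r : RS G Y i =>
        gact (MonoidHom.id (RGrp G)) (HS G Y s ν i r ((Fintype.equivFin (CS G Y i)).symm c))
          (x r.1.1 r.1.2) g)
    rw [h2]
    generalize (Fintype.equivFin (CS G Y i)).symm c = cc
    rcases cc with ⟨q, v⟩ | ⟨a, τ⟩ | ⟨a, ρ⟩
    · by_cases hv : v ∈ q.1.2
      · rw [HS_anti G Y s hs ν i (MonoidHom.id (RGrp G)) x hsupp q v hv g, MonoidHom.id_apply,
          hi_gen_inv]
        have h3 := hf.chain.anti q.1.2 v hv (q.1.1, g)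
        have h4 : x (s v q.1.1) q.1.2 (g * gen G v) = - x q.1.1 q.1.2 g := by
          rw [← hxf, ← hxf]
          exact h3
        rw [h4]
        ring
      · refine HS_zero G Y s hs ν i (MonoidHom.id (RGrp G)) x hsupp _ ⟨?_, ?_, ?_⟩ g
        · intro q' v' h
          have h3 := Prod.mk.inj (Sum.inl.inj h)
          obtain ⟨h4, h5⟩ := h3
          rw [← h4, ← h5]
          exact hv
        · intro p h
          exact absurd h (by simp)
        · intro y ρ h
          exact absurd h (by simp)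
    · rw [HS_bd G Y s hs ν i (MonoidHom.id (RGrp G)) x hsupp a τ g]
      have h3 := congrFun (congrFun hf.cyc τ) (a, g)
      rw [Pi.zero_apply, Pi.zero_apply] at h3
      rw [← h3]
      unfold bdry
      exact Finset.sum_congr rfl fun v _ => by rw [hxf]
    · by_cases hρ : ρ ⊆ Y a ∧ G.IsClique (ρ : Set V) ∧ ρ.card = i + 1
      · rw [HS_cobd G Y s hs ν i (MonoidHom.id (RGrp G)) x hsupp a ρ hρ.1 hρ.2.1 hρ.2.2 g]
        have h3 := hf.cocyc ρ (a, g) hρ.1 hρ.2.1 hρ.2.2
        rw [← h3]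
        refine Finset.sum_congr rfl fun v _ => ?_
        rw [MonoidHom.id_apply, hi_gen_inv, ← hxf, ← hxf]
        rfl
      · refine HS_zero G Y s hs ν i (MonoidHom.id (RGrp G)) x hsupp _ ⟨?_, ?_, ?_⟩ g
        · intro q' v' h
          exact absurd h (by simp)
        · intro p h
          exact absurd h (by simp)
        · intro y ρ' h
          have h3 := Prod.mk.inj (Sum.inr.inj (Sum.inr.inj h))
          obtain ⟨h4, h5⟩ := h3
          rw [← h4, ← h5]
          exact hρ
  have hX0 := h0 X hX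
  funext σ p
  obtain ⟨a, w⟩ := p
  rw [hxf]
  by_cases hσ : σ ⊆ Y a ∧ G.IsClique (σ : Set V) ∧ σ.card = i
  · have h4 : X (Fintype.equivFin (RS G Y i) ⟨(a, σ), hσ⟩, w) = 0 := by rw [hX0]; rfl
    have h5 : X (Fintype.equivFin (RS G Y i) ⟨(a, σ), hσ⟩, w) = x a σ w := by
      change x (row (Fintype.equivFin (RS G Y i) ⟨(a, σ), hσ⟩)).1.1
        (row (Fintype.equivFin (RS G Y i) ⟨(a, σ), hσ⟩)).1.2 w = x a σ w
      simp only [row, Equiv.symm_apply_apply]
    rw [h5] at h4
    simpa using h4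
  · rw [hsupp a σ hσ]
    rfl

end Pool.Agent.H19.Cub

end

section

/-!
# Project MC: harmonic chains on finite sets

`harm_finrankS`: modelled on `Pool.Agent.H4.Singer.FinHodge`. A chain `f = ∂ y` with `f` in the kernel of the
coboundary is zero by `adj_identity`. `harm_finS`: modelled on `Pool.Agent.H4.Singer.HarmFin`; with `H = P`. For
`x` in the left kernel of the matrix let `φ` be the extension by zero; the chain `f σ (x, p) = φ x σ p` on
`Ω × P`.
-/

set_option autoImplicit false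
set_option linter.unusedSectionVars false

open Finset

namespace Pool.Agent.H19.Cub

open Pool.Agent.H4.Singer Pool.Agent.H4.Atiyah Pool.Agent.H85.Fold

variable {V : Type} [Fintype V] [DecidableEq V]

private theorem hf_tdl_app {Ω : Type} (ν : V → ℕ) (f : Finset V → Ω → Unit → ℂ) (τ : Finset V)
    (ω : Ω) (u : Unit) : tdl ℂ ν f τ ω u =
      ∑ v ∈ τᶜ, (sg ν v τ : ℂ) * f (insert v τ) ω u := by
  show (∑ v ∈ τᶜ, (sg ν v τ : ℂ) • f (insert v τ) ω) u = _
  rw [Finset.sum_apply]
  exact Finset.sum_congr rfl fun v _ => rfl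

private theorem hf_tdl_tdl {Ω : Type} (ν : V → ℕ) (hν : Function.Injective ν)
    (f : Finset V → Ω → Unit → ℂ) : tdl ℂ ν (tdl ℂ ν f) = 0 := by
  funext τ ω u
  have h1 := congrFun (congrFun
    (dl_dl (F := ℂ) ν hν (fun σ (ω : Ω) => f σ ω u)) τ) ω
  rw [dl_apply] at h1
  rw [hf_tdl_app]
  rw [Pi.zero_apply, Pi.zero_apply, Pi.zero_apply]
  rw [Pi.zero_apply, Pi.zero_apply] at h1
  rw [← h1]
  refine Finset.sum_congr rfl fun v _ => ?_
  rw [hf_tdl_app, dl_apply]

private theorem hf_SB_le {G : SimpleGraph V} {X : Type} (Y : X → Finset V) (s : V → X → X)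
    (ν : V → ℕ) (hν : Function.Injective ν) (i : ℕ) :
    SB ℂ G Y (fun _ => (1 : Matrix Unit Unit ℂ)) s ν i ≤
      SZ ℂ G Y (fun _ => (1 : Matrix Unit Unit ℂ)) s ν i := by
  rintro f ⟨y, hy, rfl⟩
  obtain ⟨hy1, hy2⟩ := hy
  refine ⟨⟨?_, ?_⟩, LinearMap.mem_ker.mpr (hf_tdl_tdl ν hν y)⟩
  · intro τ ω hne
    have h' : ∑ v ∈ τᶜ, (sg ν v τ : ℂ) • y (insert v τ) ω ≠ 0 := hne
    obtain ⟨w, hw, hw'⟩ := Finset.exists_ne_zero_of_sum_ne_zero h'
    have hne' : y (insert w τ) ω ≠ 0 := by
      intro h0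
      exact hw' (by rw [h0, smul_zero])
    obtain ⟨h0, h1, h2⟩ := hy1 _ _ hne'
    refine ⟨(Finset.subset_insert _ _).trans h0,
      fun a ha b hb hab => h1 a (Finset.mem_insert_of_mem ha) b
      (Finset.mem_insert_of_mem hb) hab, ?_⟩
    rw [Finset.card_insert_of_notMem (Finset.mem_compl.mp hw)] at h2
    omega
  · intro τ v hv ω
    show ∑ w ∈ τᶜ, (sg ν w τ : ℂ) • y (insert w τ) (s v ω) =
      -(1 : Matrix Unit Unit ℂ).mulVec
        (∑ w ∈ τᶜ, (sg ν w τ : ℂ) • y (insert w τ) ω)
    rw [Matrix.one_mulVec, ← Finset.sum_neg_distrib]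
    refine Finset.sum_congr rfl fun w _ => ?_
    rw [hy2 _ v (Finset.mem_insert_of_mem hv) ω, Matrix.one_mulVec, smul_neg]

/-- forgetting the coordinate in `Unit` -/
private def hf_unitEq (V X : Type) : (Finset V → X → ℂ) ≃ₗ[ℂ] (Finset V → X → Unit → ℂ) where
  toFun f σ ω _ := f σ ω
  invFun g σ ω := g σ ω ()
  left_inv _ := rfl
  right_inv _ := rfl
  map_add' _ _ := rfl
  map_smul' _ _ := rfl

theorem harm_finrankS {X : Type} [Fintype X] (G : SimpleGraph V) (Y : X → Finset V)
    (s : V → X → X) (hs : IsSpec G Y s) (ν : V → ℕ) (hν : Function.Injective ν) (i : ℕ)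
    (H : Submodule ℂ (Finset V → X → ℂ)) (hH : ∀ f ∈ H, IsHarmS G Y s ν i f) :
    Module.finrank ℂ H ≤ bT ℂ G Y s ν i := by
  obtain ⟨H', hH'⟩ : ∃ H' : Submodule ℂ (Finset V → X → Unit → ℂ),
      H' = H.map (hf_unitEq V X).toLinearMap := ⟨_, rfl⟩
  have hfr : Module.finrank ℂ H' = Module.finrank ℂ H := by
    rw [hH', LinearEquiv.finrank_map_eq]
  have hmem : ∀ f ∈ H', IsHarmS G Y s ν i (fun σ x => f σ x ()) := by
    rw [hH']
    rintro _ ⟨f, hf, rfl⟩
    exact hH f hf
  have hbot : H' ⊓ SB ℂ G Y (fun _ => (1 : Matrix Unit Unit ℂ)) s ν i = ⊥ := by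
    rw [eq_bot_iff]
    rintro f ⟨hf, y, hy, hyf⟩
    obtain ⟨hy1, hy2⟩ := hy
    have hcoc := (hmem f hf).cocyc
    have key := adj_identity s hs.inv ν (fun σ x => f σ x ()) (fun σ x => y σ x ())
      (fun σ => (hasSum_fintype _).summable) (fun σ => (hasSum_fintype _).summable)
      (by
        intro ρ v hv x
        have h1 := congrFun (hy2 ρ v hv x) ()
        rw [Matrix.one_mulVec] at h1
        exact h1)
    have hl : ∀ τ x, (∑ v ∈ τᶜ, (-1 : ℂ) ^ (τ.filter fun u => ν u < ν v).card *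
        y (insert v τ) x ()) = f τ x () := by
      intro τ x
      rw [← hyf, hf_tdl_app]
      refine Finset.sum_congr rfl fun v _ => ?_
      unfold sg
      push_cast
      rfl
    have hr : ∀ ρ x, (starRingEnd ℂ)
        (∑ v ∈ ρ, (-1 : ℂ) ^ ((ρ.erase v).filter fun u => ν u < ν v).card *
          (f (ρ.erase v) x () - f (ρ.erase v) (s v x) ())) * y ρ x () = 0 := by
      intro ρ x
      by_cases h0 : y ρ x = 0
      · rw [h0, Pi.zero_apply, mul_zero]
      · obtain ⟨h00, h1, h2⟩ := hy1 ρ x h0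
        have h3 := hcoc ρ x h00 (fun a ha b hb hab => h1 a ha b hb hab) h2
        rw [h3, map_zero, zero_mul]
    simp only [hl, hr, tsum_fintype, Finset.sum_const_zero, mul_zero] at key
    have hsq : ∀ z : ℂ, (starRingEnd ℂ) z * z = ((‖z‖ ^ 2 : ℝ) : ℂ) := by
      intro z
      rw [mul_comm, Complex.mul_conj, Complex.normSq_eq_norm_sq]
    simp only [hsq, ← Complex.ofReal_sum] at key
    have key' : ∑ τ : Finset V, ∑ x : X, ‖f τ x ()‖ ^ 2 = 0 := by exact_mod_cast key
    rw [Submodule.mem_bot]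
    funext τ x u
    have h1 := (Finset.sum_eq_zero_iff_of_nonneg
      (fun τ _ => Finset.sum_nonneg fun x _ => sq_nonneg ‖f τ x ()‖)).1 key' τ (mem_univ τ)
    have h2 := (Finset.sum_eq_zero_iff_of_nonneg
      (fun x _ => sq_nonneg ‖f τ x ()‖)).1 h1 x (mem_univ x)
    simpa using h2
  have hHZ : H' ≤ SZ ℂ G Y (fun _ => (1 : Matrix Unit Unit ℂ)) s ν i := by
    intro f hf
    have h1 := hmem f hf
    refine ⟨⟨fun σ x hne => ?_, fun σ v hv x => ?_⟩, ?_⟩
    · have h2 : f σ x () ≠ 0 := by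
        intro h0
        apply hne
        funext u
        exact h0
      obtain ⟨h3, h4, h5⟩ := h1.chain.supp σ x h2
      exact ⟨h3, fun a ha b hb hab => h4 ha hb hab, h5⟩
    · rw [Matrix.one_mulVec]
      funext u
      exact h1.chain.anti σ v hv x
    · refine LinearMap.mem_ker.mpr ?_
      funext τ x u
      rw [hf_tdl_app]
      have h2 := congrFun (congrFun h1.cyc τ) x
      rw [Pi.zero_apply, Pi.zero_apply] at h2
      rw [Pi.zero_apply, Pi.zero_apply, Pi.zero_apply, ← h2]
      unfold bdry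
      refine Finset.sum_congr rfl fun v _ => ?_
      unfold sg
      push_cast
      rfl
  have hle : H' ⊔ SB ℂ G Y (fun _ => (1 : Matrix Unit Unit ℂ)) s ν i ≤
      SZ ℂ G Y (fun _ => (1 : Matrix Unit Unit ℂ)) s ν i :=
    sup_le hHZ (hf_SB_le Y s ν hν i)
  have h1 := Submodule.finrank_sup_add_finrank_inf_eq H'
    (SB ℂ G Y (fun _ => (1 : Matrix Unit Unit ℂ)) s ν i)
  rw [hbot, finrank_bot, add_zero] at h1
  have h2 := Submodule.finrank_mono hle
  rw [← hfr]
  show Module.finrank ℂ H' ≤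
    Module.finrank ℂ (SZ ℂ G Y (fun _ => (1 : Matrix Unit Unit ℂ)) s ν i) -
    Module.finrank ℂ (SB ℂ G Y (fun _ => (1 : Matrix Unit Unit ℂ)) s ν i)
  omega

private theorem hf_coeff {W P : Type} [Group W] [Group P] [Fintype P] (π : W →* P)
    (a : MonoidAlgebra ℤ W) (φ : P → ℂ) (h : P) :
    ∑ g, φ g * (MonoidAlgebra.mapDomainRingHom ℂ π
      (MonoidAlgebra.mapRingHom W (Int.castRingHom ℂ) a)).coeff (g⁻¹ * h) = gact π a φ h := by
  classical
  induction a using MonoidAlgebra.induction_linear with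
  | zero => simp [gact_zero]
  | add a b ha hb =>
    rw [gact_add, ← ha, ← hb, ← Finset.sum_add_distrib]
    refine Finset.sum_congr rfl fun g _ => ?_
    rw [map_add, map_add, MonoidAlgebra.coeff_add, Finsupp.add_apply, mul_add]
  | single g r =>
    rw [gact_single, MonoidAlgebra.mapRingHom_single, MonoidAlgebra.mapDomainRingHom_apply,
      MonoidAlgebra.mapDomain_single, Finset.sum_eq_single (h * (π g)⁻¹)]
    · rw [MonoidAlgebra.coeff_single, mul_inv_rev, inv_inv, inv_mul_cancel_right,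
        Finsupp.single_eq_same]
      simp
    · intro g' _ hg'
      rw [MonoidAlgebra.coeff_single, Finsupp.single_eq_of_ne, mul_zero]
      intro he
      apply hg'
      rw [← he]
      group
    · intro hh
      exact absurd (Finset.mem_univ _) hh

section Ext

variable {Ω : Type} [Fintype Ω]

/-- the extension by zero of a vector indexed by the rows -/
private noncomputable def hfExt (G : SimpleGraph V) (Y : Ω → Finset V) (i : ℕ) (P : Type) :
    (Fin (Fintype.card (RS G Y i)) × P → ℂ) →ₗ[ℂ] (Ω → Finset V → P → ℂ) := by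
  classical
  exact
  { toFun := fun x a σ p => if h : σ ⊆ Y a ∧ G.IsClique (σ : Set V) ∧ σ.card = i then
      x (Fintype.equivFin (RS G Y i) ⟨(a, σ), h⟩, p) else 0
    map_add' := by
      intro x y
      funext a σ p
      simp only [Pi.add_apply]
      split_ifs <;> simp
    map_smul' := by
      intro c x
      funext a σ p
      simp only [Pi.smul_apply, RingHom.id_apply]
      split_ifs <;> simp }

private theorem hfExt_of (G : SimpleGraph V) (Y : Ω → Finset V) (i : ℕ) (P : Type)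
    (x : Fin (Fintype.card (RS G Y i)) × P → ℂ) (r : RS G Y i) (p : P) :
    hfExt G Y i P x r.1.1 r.1.2 p = x (Fintype.equivFin (RS G Y i) r, p) := by
  classical
  show (if h : r.1.2 ⊆ Y r.1.1 ∧ G.IsClique (r.1.2 : Set V) ∧ r.1.2.card = i then
      x (Fintype.equivFin (RS G Y i) ⟨(r.1.1, r.1.2), h⟩, p) else 0) = _
  rw [dif_pos r.2]

private theorem hfExt_not (G : SimpleGraph V) (Y : Ω → Finset V) (i : ℕ) (P : Type)
    (x : Fin (Fintype.card (RS G Y i)) × P → ℂ) (a : Ω) (σ : Finset V)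
    (hσ : ¬ (σ ⊆ Y a ∧ G.IsClique (σ : Set V) ∧ σ.card = i)) : hfExt G Y i P x a σ = 0 := by
  classical
  funext p
  show (if h : σ ⊆ Y a ∧ G.IsClique (σ : Set V) ∧ σ.card = i then
      x (Fintype.equivFin (RS G Y i) ⟨(a, σ), h⟩, p) else 0) = _
  rw [dif_neg hσ]
  rfl

/-- the chain on the product -/
private noncomputable def hfCh (G : SimpleGraph V) (Y : Ω → Finset V) (i : ℕ) (P : Type) :
    (Fin (Fintype.card (RS G Y i)) × P → ℂ) →ₗ[ℂ] (Finset V → Ω × P → ℂ) where
  toFun x σ a := hfExt G Y i P x a.1 σ a.2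
  map_add' x y := by
    funext σ a
    rw [map_add]
    rfl
  map_smul' c x := by
    funext σ a
    rw [map_smul]
    rfl

private theorem hfCh_injective (G : SimpleGraph V) (Y : Ω → Finset V) (i : ℕ) (P : Type) :
    Function.Injective (hfCh G Y i P) := by
  intro x y hxy
  funext ⟨j, p⟩
  have h1 : hfExt G Y i P x ((Fintype.equivFin (RS G Y i)).symm j).1.1
      ((Fintype.equivFin (RS G Y i)).symm j).1.2 p =
      hfExt G Y i P y ((Fintype.equivFin (RS G Y i)).symm j).1.1
      ((Fintype.equivFin (RS G Y i)).symm j).1.2 p :=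
    congrFun (congrFun hxy ((Fintype.equivFin (RS G Y i)).symm j).1.2)
      (((Fintype.equivFin (RS G Y i)).symm j).1.1, p)
  rwa [hfExt_of, hfExt_of, Equiv.apply_symm_apply] at h1

private theorem hf_key (G : SimpleGraph V) (Y : Ω → Finset V) (s : V → Ω → Ω) (ν : V → ℕ) (i : ℕ)
    (P : Type) [Group P] [Fintype P] (π : RGrp G →* P)
    (x : Fin (Fintype.card (RS G Y i)) × P → ℂ) (c : CS G Y i) (h : P) :
    Matrix.vecMul x (op ((toC (HSA G Y s ν i)).map (MonoidAlgebra.mapDomainRingHom ℂ π)))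
      (Fintype.equivFin (CS G Y i) c, h) =
      ∑ r : RS G Y i, gact π (HS G Y s ν i r c) (hfExt G Y i P x r.1.1 r.1.2) h := by
  rw [Matrix.vecMul, dotProduct, Fintype.sum_prod_type]
  rw [← Equiv.sum_comp (Fintype.equivFin (RS G Y i))]
  refine Finset.sum_congr rfl fun r _ => ?_
  rw [← hf_coeff]
  refine Finset.sum_congr rfl fun g _ => ?_
  rw [hfExt_of]
  congr 1
  simp only [op, Matrix.of_apply, Matrix.map_apply, toC, HSA, Matrix.submatrix_apply,
    Equiv.symm_apply_apply]

end Ext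

theorem harm_finS {Ω : Type} [Fintype Ω] (G : SimpleGraph V) (Y : Ω → Finset V)
    (s : V → Ω → Ω) (hs : IsSpec G Y s) (ν : V → ℕ) (hν : Function.Injective ν) (i : ℕ)
    (P : Type) [Group P] [Fintype P] (π : RGrp G →* P) :
    ((Fintype.card (RS G Y i) : ℕ) * Fintype.card P : ℝ) -
      (op ((toC (HSA G Y s ν i)).map (MonoidAlgebra.mapDomainRingHom ℂ π))).rank ≤
        bT ℂ G (prY Y P) (prS s (fun v => π (gen G v))) ν i := by
  classical
  set M := op ((toC (HSA G Y s ν i)).map (MonoidAlgebra.mapDomainRingHom ℂ π)) with hM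
  have hgg : ∀ v, π (gen G v) * π (gen G v) = 1 := by
    intro v
    rw [← map_mul, gen_mul_gen, map_one]
  have hgc : ∀ u v, G.Adj u v → π (gen G u) * π (gen G v) = π (gen G v) * π (gen G u) := by
    intro u v huv
    rw [← map_mul, ← map_mul, gen_comm G u v huv]
  have hinv : ∀ v, (π (gen G v))⁻¹ = π (gen G v) := by
    intro v
    exact inv_eq_of_mul_eq_one_left (hgg v)
  have hspec : IsSpec G (prY Y P) (prS s (fun v => π (gen G v))) := isSpec_pr hs _ hgg hgc
  have hker : ∀ x ∈ LinearMap.ker (Matrix.vecMulLinear M), ∀ (c : CS G Y i) (h : P),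
      ∑ r : RS G Y i, gact π (HS G Y s ν i r c) (hfExt G Y i P x r.1.1 r.1.2) h = 0 := by
    intro x hx c h
    have h1 : Matrix.vecMul x M = 0 := hx
    rw [← hf_key, ← hM, h1]
    rfl
  have hH : ∀ f ∈ (LinearMap.ker (Matrix.vecMulLinear M)).map (hfCh G Y i P),
      IsHarmS G (prY Y P) (prS s (fun v => π (gen G v))) ν i f := by
    rintro f ⟨x, hx, rfl⟩
    have hk := hker x hx
    have h0 := hfExt_not G Y i P x
    refine ⟨⟨?_, ?_, ?_⟩, ?_, ?_⟩
    · intro σ a hne
      by_contra hcon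
      have h1 : hfExt G Y i P x a.1 σ a.2 ≠ 0 := hne
      rw [h0 a.1 σ hcon] at h1
      exact h1 rfl
    · intro σ v hv a
      show hfExt G Y i P x (s v a.1) σ (a.2 * π (gen G v)) = - hfExt G Y i P x a.1 σ a.2
      by_cases hσ : σ ⊆ Y a.1 ∧ G.IsClique (σ : Set V) ∧ σ.card = i
      · have h1 := hk (Sum.inl (⟨(a.1, σ), hσ⟩, v)) a.2
        rw [HS_anti G Y s hs ν i π _ h0 ⟨(a.1, σ), hσ⟩ v hv a.2, hinv] at h1
        exact eq_neg_of_add_eq_zero_right h1
      · have hσ' : ¬ (σ ⊆ Y (s v a.1) ∧ G.IsClique (σ : Set V) ∧ σ.card = i) := by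
          rintro ⟨h1, h2, h3⟩
          have hCl : Cl G σ := fun b hb c hc hbc => h2 hb hc hbc
          exact hσ ⟨(hs.sub_iff hCl hv).1 h1, h2, h3⟩
        rw [h0 _ σ hσ, h0 _ σ hσ']
        simp
    · intro σ
      exact (hasSum_fintype _).summable
    · funext τ a
      have h1 := hk (Sum.inr (Sum.inl (a.1, τ))) a.2
      rw [HS_bd G Y s hs ν i π _ h0] at h1
      rw [Pi.zero_apply, Pi.zero_apply, ← h1]
      rfl
    · intro ρ a hρY hρ hρi
      have h1 := hk (Sum.inr (Sum.inr (a.1, ρ))) a.2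
      rw [HS_cobd G Y s hs ν i π _ h0 a.1 ρ hρY hρ hρi] at h1
      rw [← h1]
      refine Finset.sum_congr rfl fun v _ => ?_
      rw [hinv]
      rfl
  have hle := harm_finrankS G (prY Y P) (prS s (fun v => π (gen G v))) hspec ν hν i _ hH
  have hfin : Module.finrank ℂ
      ((LinearMap.ker (Matrix.vecMulLinear M)).map (hfCh G Y i P)) =
      Module.finrank ℂ (LinearMap.ker (Matrix.vecMulLinear M)) :=
    (Submodule.equivMapOfInjective _ (hfCh_injective G Y i P) _).finrank_eq.symm
  have h1 := LinearMap.finrank_range_add_finrank_ker (Matrix.vecMulLinear M)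
  rw [Module.finrank_fintype_fun_eq_card, Fintype.card_prod, Fintype.card_fin] at h1
  have h3 : Module.finrank ℂ (LinearMap.range (Matrix.vecMulLinear M)) = M.rank := by
    have h4 : Matrix.vecMulLinear M = (Matrix.transpose M).mulVecLin := by
      apply LinearMap.ext
      intro x
      rw [Matrix.vecMulLinear_apply, Matrix.mulVecLin_apply, Matrix.mulVec_transpose]
    rw [h4, ← Matrix.rank_transpose M, Matrix.rank]
  rw [h3] at h1
  rw [hfin] at hle
  have h5 : ((Fintype.card (RS G Y i) : ℕ) * Fintype.card P : ℝ) =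
      (M.rank : ℝ) + Module.finrank ℂ (LinearMap.ker (Matrix.vecMulLinear M)) := by
    exact_mod_cast h1.symm
  rw [h5]
  have h6 : (Module.finrank ℂ (LinearMap.ker (Matrix.vecMulLinear M)) : ℝ) ≤
      bT ℂ G (prY Y P) (prS s (fun v => π (gen G v))) ν i := by
    exact_mod_cast hle
  linarith

end Pool.Agent.H19.Cub

end

section

/-!
# Project S10: vanishing mod 2 homology growth implies the vanishing of the reduced `ℓ²`-homology

For a finite special cube complex `Q` with bits and finite quotients `P` of its right-angled Coxeter group: `b_i` of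
the covering `Q × P` over the field of two elements is `dim Z_i + dim Z_(i+1) - (number of cells of dimension i+1)`.
The pattern is `Pool.Agent.H77.TC.count`.
-/

set_option autoImplicit false
set_option linter.unusedSectionVars false

open Finset Filter Topology

namespace Pool.Agent.S10

open Pool.Agent.H19.Cub Pool.Agent.H19.LG Pool.Agent.H37.TM Pool.Agent.H77.SX Pool.Agent.H77.TC Pool.Agent.H4.Singer Pool.Agent.H73.GC Pool.Agent.H85.Fold

variable {V X : Type} [DecidableEq V] [Fintype V] [Fintype X]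

open Classical in
/-- every cube of the type `σ` has `2 ^ #B` vertices with prescribed bits in `σ \ B` -/
private theorem L2_half {Q : CubeComplex V X} {bit : X → V → ZMod 2} (hbit : IsBit Q bit)
    {σ : Finset V} (hσ : Q.graph.IsClique (σ : Set V)) : ∀ B : Finset V, B ⊆ σ →
    2 ^ B.card * (univ.filter fun x => σ ⊆ Q.lab x ∧ ∀ v ∈ B, bit x v = 0).card =
      (univ.filter fun x => σ ⊆ Q.lab x).card := by
  intro B
  induction B using Finset.induction_on with
  | empty =>
    intro _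
    rw [card_empty, pow_zero, one_mul]
    refine congrArg Finset.card (filter_congr fun x _ => ?_)
    simp
  | insert v B hv ih =>
    intro hB
    have hvσ : v ∈ σ := hB (mem_insert_self v B)
    have hsub : ∀ x, σ ⊆ Q.lab x → σ ⊆ Q.lab (Q.nb v x) := by
      intro x hx u hu
      by_cases huv : u = v
      · rw [huv]
        exact Q.lab_nb v x (hx hvσ)
      · exact Q.lab_adj u v x (hσ (mem_coe.2 hu) (mem_coe.2 hvσ) huv) (hx hu) (hx hvσ)
    have h1 := ih fun u hu => hB (mem_insert_of_mem hu)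
    have h01 : ∀ a : ZMod 2, a = 0 ∨ a = 1 := by decide
    have h2 : (univ.filter fun x => σ ⊆ Q.lab x ∧ ∀ u ∈ B, bit x u = 0).card =
        (univ.filter fun x => σ ⊆ Q.lab x ∧ ∀ u ∈ insert v B, bit x u = 0).card +
        (univ.filter fun x => (σ ⊆ Q.lab x ∧ ∀ u ∈ B, bit x u = 0) ∧ bit x v ≠ 0).card := by
      rw [← card_filter_add_card_filter_not (s := univ.filter fun x => σ ⊆ Q.lab x ∧
        ∀ u ∈ B, bit x u = 0) (fun x => bit x v = 0), filter_filter, filter_filter]
      congr 1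
      refine congrArg Finset.card (filter_congr fun x _ => ?_)
      rw [forall_mem_insert]
      tauto
    have h3 : (univ.filter fun x => (σ ⊆ Q.lab x ∧ ∀ u ∈ B, bit x u = 0) ∧ bit x v ≠ 0).card =
        (univ.filter fun x => σ ⊆ Q.lab x ∧ ∀ u ∈ insert v B, bit x u = 0).card := by
      refine Finset.card_bij' (fun x _ => Q.nb v x) (fun x _ => Q.nb v x) ?_ ?_ ?_ ?_
      · intro x hx
        rw [mem_filter] at hx ⊢
        obtain ⟨-, ⟨hx1, hx2⟩, hx3⟩ := hx
        refine ⟨mem_univ _, hsub x hx1, fun u hu => ?_⟩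
        rw [hbit v x (hx1 hvσ) u]
        rcases mem_insert.1 hu with h | h
        · rw [h, if_pos rfl, (h01 _).resolve_left hx3]
          decide
        · rw [if_neg (fun h' : u = v => hv (h' ▸ h)), add_zero]
          exact hx2 u h
      · intro x hx
        rw [mem_filter] at hx ⊢
        obtain ⟨-, hx1, hx2⟩ := hx
        refine ⟨mem_univ _, ⟨hsub x hx1, fun u hu => ?_⟩, ?_⟩
        · rw [hbit v x (hx1 hvσ) u, if_neg (fun h' : u = v => hv (h' ▸ hu)), add_zero]
          exact hx2 u (mem_insert_of_mem hu)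
        · rw [hbit v x (hx1 hvσ) v, if_pos rfl, hx2 v (mem_insert_self v B)]
          decide
      · intro x hx
        rw [mem_filter] at hx
        exact Q.nb_nb v x (hx.2.1.1 hvσ)
      · intro x hx
        rw [mem_filter] at hx
        exact Q.nb_nb v x (hx.2.1 hvσ)
    rw [card_insert_of_notMem hv, pow_succ, mul_assoc, ← h1, h2, h3]
    ring

/-- the number of the cubes and the number of the pairs of a cube and a vertex of it -/
theorem nC_nn {Q : CubeComplex V X} {bit : X → V → ZMod 2} (hbit : IsBit Q bit) (k : ℕ) :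
    2 ^ k * nC Q bit k = nn Q.graph Q.lab k := by
  classical
  have h1 : nn Q.graph Q.lab k =
      ∑ σ ∈ univ.filter (fun σ : Finset V => Q.graph.IsClique (σ : Set V) ∧ σ.card = k),
        (univ.filter fun x => σ ⊆ Q.lab x).card := by
    unfold nn
    have h4 : Fintype.card (RS Q.graph Q.lab k) = (univ.filter fun p : X × Finset V =>
        p.2 ⊆ Q.lab p.1 ∧ Q.graph.IsClique (p.2 : Set V) ∧ p.2.card = k).card := by
      rw [← Fintype.card_subtype]
    rw [h4, card_filter, ← univ_product_univ, sum_product_right, sum_filter]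
    refine sum_congr rfl fun σ _ => ?_
    split_ifs with h
    · rw [card_filter]
      refine sum_congr rfl fun x _ => ?_
      simp only [h, and_true]
    · refine sum_eq_zero fun x _ => if_neg fun h3 => h h3.2
  rw [h1]
  unfold nC
  rw [mul_sum]
  refine sum_congr rfl fun σ hσ => ?_
  rw [mem_filter] at hσ
  have h2 := L2_half hbit hσ.2.1 σ Subset.rfl
  rw [hσ.2.2] at h2
  exact h2

/-- the cycles of the covering are the cycles with coefficients in the regular representation -/
private theorem L2_zT {Q : CubeComplex V X} {P : Type} [Group P] [Fintype P] (g : V → P)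
    (hg : ∀ v, g v * g v = 1) (ν : V → ℕ) (n : ℕ) :
    zT F2 Q.graph (prY Q.lab P) (prS Q.cs g) ν n ≤ Module.finrank F2 (ZQ F2 Q n (rG F2 g)) := by
  let Ψ : (Finset V → X × P → Unit → F2) →ₗ[F2] (Finset V → X → P → F2) :=
    { toFun := fun f σ x p => f σ (x, p) ()
      map_add' := fun f f' => rfl
      map_smul' := fun a f => rfl }
  have hmem : ∀ f : SZ F2 Q.graph (prY Q.lab P) (fun _ => (1 : Matrix Unit Unit F2))
      (prS Q.cs g) ν n, (Ψ.domRestrict _) f ∈ ZQ F2 Q n (rG F2 g) := by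
    rintro ⟨f, ⟨⟨h1, h2⟩, h3⟩⟩
    show Ψ f ∈ _
    rw [mem_ZQ]
    refine ⟨fun σ x h => ?_, fun σ x hσ v hv => ?_, fun κ x => ?_⟩
    · by_contra hc
      apply h
      funext p
      show f σ (x, p) () = 0
      by_contra h4
      apply hc
      obtain ⟨h5, h6, h7⟩ := h1 σ (x, p) (fun h8 => h4 (by rw [h8]; rfl))
      exact ⟨h5, fun a ha c hc hac => h6 a (mem_coe.1 ha) c (mem_coe.1 hc) hac, h7⟩
    · funext p
      show f σ (Q.nb v x, p) () = f σ (x, p * g v) ()
      have h4 := h2 σ v hv (x, p * g v)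
      have h5 : prS Q.cs g v (x, p * g v) = (Q.nb v x, p) := by
        unfold prS
        rw [Q.cs_of_mem (hσ hv), mul_assoc, hg, mul_one]
      rw [h5, Matrix.one_mulVec] at h4
      rw [h4]
      show -(f σ (x, p * g v) ()) = _
      rw [ZModModule.neg_eq_self]
    · funext p
      rw [Finset.sum_apply]
      have h4 : tdl F2 ν f = 0 := h3
      have h5 := congrFun (congrFun (congrFun h4 κ) (x, p)) ()
      have h6 : (tdl F2 ν f) κ (x, p) () =
          ∑ v ∈ κᶜ, (sg ν v κ : F2) * f (insert v κ) (x, p) () := by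
        show (∑ v ∈ κᶜ, (sg ν v κ : F2) • f (insert v κ) (x, p)) () = _
        rw [Finset.sum_apply]
        rfl
      rw [h6] at h5
      refine Eq.trans (Finset.sum_congr rfl fun v _ => ?_) h5
      have h7 : (sg ν v κ : F2) = 1 := by
        unfold sg
        rw [Int.cast_pow, Int.cast_neg, Int.cast_one, ZModModule.neg_eq_self, one_pow]
      rw [h7, one_mul]
      rfl
  unfold zT
  refine LinearMap.finrank_le_finrank_of_injective
    (f := LinearMap.codRestrict (ZQ F2 Q n (rG F2 g)) (Ψ.domRestrict _) hmem) ?_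
  intro f f' hff
  have h1 : Ψ f.1 = Ψ f'.1 := congrArg Subtype.val hff
  apply Subtype.ext
  funext σ x u
  exact congrFun (congrFun (congrFun h1 σ) x.1) x.2

/-- the complex Betti numbers of the coverings with bits -/
private theorem L2_bT {Q : CubeComplex V X} {bit : X → V → ZMod 2} (hbit : IsBit Q bit)
    {P : Type} [Group P] [Fintype P] (g : V → P) (hg : ∀ v, g v * g v = 1)
    (hgc : ∀ u v, Q.graph.Adj u v → g u * g v = g v * g u) (b : P → V → Bool)
    (hb : ∀ p u v, b (p * g u) v = if u = v then !(b p v) else b p v) (ν : V → ℕ)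
    (hν : Function.Injective ν) (i : ℕ) :
    bT ℂ Q.graph (prY Q.lab P) (prS Q.cs g) ν i + nC Q bit (i + 1) * Fintype.card P ≤
      Module.finrank F2 (ZQ F2 Q i (rG F2 g)) + Module.finrank F2 (ZQ F2 Q (i + 1) (rG F2 g)) := by
  have hs : IsSpec Q.graph (prY Q.lab P) (prS Q.cs g) := isSpec_pr Q.isSpec g hg hgc
  have hb' : ∀ (x : X × P) (u v : V), b (prS Q.cs g u x).2 v =
      if u = v then !(b x.2 v) else b x.2 v := fun x u v => hb x.2 u v
  have h1 := bT_complex_le_field Q.graph (prY Q.lab P) (prS Q.cs g) hs (fun x => b x.2) hb' ν hν i F2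
  have h2 := bS_add F2 Q.graph (prY Q.lab P) (fun _ => (1 : Matrix Unit Unit F2)) (prS Q.cs g) hs ν
    hν i
  have h3 := two_pow_cT F2 Q.graph (prY Q.lab P) (prS Q.cs g) hs (fun x => b x.2) hb' (i + 1)
  have h4 := L2_zT (Q := Q) g hg ν i
  have h5 := L2_zT (Q := Q) g hg ν (i + 1)
  rw [nn_pr, ← nC_nn hbit] at h3
  have h6 : cT F2 Q.graph (prY Q.lab P) (prS Q.cs g) (i + 1) =
      nC Q bit (i + 1) * Fintype.card P := by
    refine Nat.eq_of_mul_eq_mul_left (pow_pos two_pos (i + 1)) (h3.trans ?_)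
    ring
  unfold cT at h6
  unfold zT at h4 h5
  unfold bT at h1 ⊢
  omega

/-- **The end.** If the mod 2 Betti numbers `b_i` of finite coverings `Q × P` (`P` a finite quotient of the right-angled
Coxeter group, or a finite group over a quotient) are at most `ε * #P` for all `ε > 0`, then the reduced `ℓ²`-homology
of the universal cover vanishes in the degree `i`. -/
theorem l2_end (Q : CubeComplex V X) (bit : X → V → ZMod 2) (hbit : IsBit Q bit) (i : ℕ)
    (h : ∀ ε : ℝ, 0 < ε → ∃ (P : Type) (_ : Group P) (_ : Fintype P) (g : V → P),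
      (∀ v, g v * g v = 1) ∧ (∀ u v, Q.graph.Adj u v → g u * g v = g v * g u) ∧
      ((Module.finrank (ZMod 2) (ZQ (ZMod 2) Q i (regP g)) : ℝ) +
        Module.finrank (ZMod 2) (ZQ (ZMod 2) Q (i + 1) (regP g)) ≤
          (nC Q bit (i + 1) + ε) * Fintype.card P))
    (x₀ : X) : L2HomologyZero (Q.cover x₀) i := by
  classical
  intro ν hν z hz hdz ε hε
  have hW : ∀ f : Finset V → X × RGrp Q.graph → ℂ,
      IsHarmS Q.graph (prY Q.lab (RGrp Q.graph)) (prS Q.cs (gen Q.graph)) ν i f → f = 0 := by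
    choose P₁ grp₁ fin₁ π₁ hP₁ hsep using fun L => exists_two_group Q.graph L
    have h2 := fun j : ℕ => h (1 / (j + 1 : ℝ)) (by positivity)
    choose P₂ grp₂ fin₂ g₂ hsq₂ hcm₂ hle using h2
    -- the two-group with bits
    let B : Type := Multiplicative (V → ZMod 2)
    let gg : ∀ j, V → (P₁ j × B) × P₂ j := fun j v =>
      ((π₁ j (gen Q.graph v), Multiplicative.ofAdd (Pi.single v (1 : ZMod 2))), g₂ j v)
    have hgg : ∀ j v, gg j v * gg j v = 1 := by
      intro j v
      refine Prod.ext (Prod.ext ?_ ?_) (hsq₂ j v)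
      · change π₁ j (gen Q.graph v) * π₁ j (gen Q.graph v) = 1
        rw [← map_mul, gen_mul_gen, map_one]
      · change Multiplicative.ofAdd
          ((Pi.single v (1 : ZMod 2) : V → ZMod 2) + Pi.single v (1 : ZMod 2)) = 1
        rw [ZModModule.add_self]
        rfl
    have hggc : ∀ j u v, Q.graph.Adj u v → gg j u * gg j v = gg j v * gg j u := by
      intro j u v huv
      refine Prod.ext (Prod.ext ?_ (mul_comm _ _)) (hcm₂ j u v huv)
      change π₁ j (gen Q.graph u) * π₁ j (gen Q.graph v) =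
        π₁ j (gen Q.graph v) * π₁ j (gen Q.graph u)
      rw [← map_mul, ← map_mul, gen_comm Q.graph u v huv]
    have h3 : ∀ j, ∃ π : RGrp Q.graph →* (P₁ j × B) × P₂ j, ∀ v, π (gen Q.graph v) = gg j v :=
      fun j => exists_lift Q.graph (gg j) (hgg j) (hggc j)
    choose π hπ using h3
    have hπ₁ : ∀ j w, (π j w).1.1 = π₁ j w := by
      intro j w
      have e1 : ((MonoidHom.fst (P₁ j) B).comp (MonoidHom.fst (P₁ j × B) (P₂ j))).comp (π j) =
          π₁ j := by
        refine (racg Q.graph).toCoxeterSystem.ext_simple fun v => ?_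
        change (π j (gen Q.graph v)).1.1 = π₁ j (gen Q.graph v)
        rw [hπ]
      exact DFunLike.congr_fun e1 w
    have hsep' : ∀ w : RGrp Q.graph, w ≠ 1 → ∀ᶠ j in atTop, π j w ≠ 1 := by
      intro w hw
      filter_upwards [eventually_ge_atTop ((racg Q.graph).toCoxeterSystem.length w)] with j hj hj'
      refine hsep j w hw hj ?_
      rw [← hπ₁, hj']
      rfl
    have hpow2 : ∀ x : B, x ^ 2 = 1 := by
      intro x
      rw [pow_two]
      change Multiplicative.ofAdd (Multiplicative.toAdd x + Multiplicative.toAdd x) = 1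
      rw [ZModModule.add_self]
      rfl
    have hker : ∀ j, IsPGroup 2 (MonoidHom.snd (P₁ j × B) (P₂ j)).ker := by
      rintro j ⟨⟨⟨a, b⟩, c⟩, hx⟩
      have hc : c = 1 := hx
      obtain ⟨k, hk⟩ := hP₁ j a
      refine ⟨k + 1, ?_⟩
      apply Subtype.ext
      have e1 : a ^ 2 ^ (k + 1) = 1 := by rw [pow_succ, pow_mul, hk, one_pow]
      have e2 : b ^ 2 ^ (k + 1) = 1 := by
        rw [pow_succ, mul_comm, pow_mul, hpow2, one_pow]
      change (((a, b), c) : (P₁ j × B) × P₂ j) ^ 2 ^ (k + 1) = 1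
      rw [Prod.pow_mk, Prod.pow_mk, e1, e2, hc, one_pow]
      rfl
    let b : ∀ j, (P₁ j × B) × P₂ j → V → Bool := fun j p v =>
      decide (Multiplicative.toAdd p.1.2 v = 1)
    have hb : ∀ j p u v, b j (p * π j (gen Q.graph u)) v = if u = v then !(b j p v) else b j p v := by
      intro j p u v
      have e1 : (p * π j (gen Q.graph u)).1.2 = p.1.2 * (gg j u).1.2 := by
        rw [hπ]
        rfl
      have e2 : Multiplicative.toAdd (p * π j (gen Q.graph u)).1.2 v =
          Multiplicative.toAdd p.1.2 v + (Pi.single u (1 : ZMod 2) : V → ZMod 2) v := by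
        rw [e1]
        rfl
      change decide (Multiplicative.toAdd (p * π j (gen Q.graph u)).1.2 v = 1) = _
      rw [e2]
      by_cases huv : u = v
      · subst huv
        rw [if_pos rfl, Pi.single_eq_same]
        have key : ∀ x : ZMod 2, decide (x + 1 = 1) = !(decide (x = 1)) := by decide
        exact key _
      · rw [if_neg huv, Pi.single_eq_of_ne (Ne.symm huv), add_zero]
    refine harm_infS Q.graph Q.lab Q.cs Q.isSpec ν i
      (l2ker_trivial π hsep' (HSA Q.graph Q.lab Q.cs ν i) ?_)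
    intro η hη
    have hbd : ∀ j, (bT ℂ Q.graph (prY Q.lab ((P₁ j × B) × P₂ j))
        (prS Q.cs fun v => π j (gen Q.graph v)) ν i : ℝ) ≤
          1 / (j + 1 : ℝ) * Fintype.card ((P₁ j × B) × P₂ j) := by
      intro j
      have hsq' : ∀ v, π j (gen Q.graph v) * π j (gen Q.graph v) = 1 := by
        intro v
        rw [← map_mul, gen_mul_gen, map_one]
      have hcm' : ∀ u v, Q.graph.Adj u v →
          π j (gen Q.graph u) * π j (gen Q.graph v) =
            π j (gen Q.graph v) * π j (gen Q.graph u) := by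
        intro u v huv
        rw [← map_mul, ← map_mul, gen_comm Q.graph u v huv]
      have h3 := L2_bT hbit (fun v => π j (gen Q.graph v)) hsq' hcm' (b j) (hb j) ν hν i
      have hmono := fun n => mono (K := F2) Q n (fun v => π j (gen Q.graph v)) (g₂ j)
        (MonoidHom.snd (P₁ j × B) (P₂ j)) (fun v => by rw [hπ]; rfl) (hsq₂ j)
        Prod.snd_surjective (hker j)
      have h4 := hmono i
      have h5 := hmono (i + 1)
      unfold dQ at h4 h5
      have h6 : (Module.finrank F2 (ZQ F2 Q i (rG F2 (g₂ j))) : ℝ) +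
        Module.finrank F2 (ZQ F2 Q (i + 1) (rG F2 (g₂ j))) ≤
          (nC Q bit (i + 1) + 1 / (j + 1 : ℝ)) * Fintype.card (P₂ j) := hle j
      have hc2 : (0 : ℝ) < Fintype.card (P₂ j) := by exact_mod_cast Fintype.card_pos
      have hc1 : (0 : ℝ) ≤ Fintype.card ((P₁ j × B) × P₂ j) := Nat.cast_nonneg _
      have h3' : (bT ℂ Q.graph (prY Q.lab ((P₁ j × B) × P₂ j))
          (prS Q.cs fun v => π j (gen Q.graph v)) ν i : ℝ) +
          nC Q bit (i + 1) * Fintype.card ((P₁ j × B) × P₂ j) ≤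
          Module.finrank F2 (ZQ F2 Q i (rG F2 fun v => π j (gen Q.graph v))) +
          Module.finrank F2 (ZQ F2 Q (i + 1) (rG F2 fun v => π j (gen Q.graph v))) := by
        exact_mod_cast h3
      have h4' : (Fintype.card (P₂ j) : ℝ) *
          Module.finrank F2 (ZQ F2 Q i (rG F2 fun v => π j (gen Q.graph v))) ≤
          Fintype.card ((P₁ j × B) × P₂ j) *
            Module.finrank F2 (ZQ F2 Q i (rG F2 (g₂ j))) := by
        exact_mod_cast h4
      have h5' : (Fintype.card (P₂ j) : ℝ) *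
          Module.finrank F2 (ZQ F2 Q (i + 1) (rG F2 fun v => π j (gen Q.graph v))) ≤
          Fintype.card ((P₁ j × B) × P₂ j) *
            Module.finrank F2 (ZQ F2 Q (i + 1) (rG F2 (g₂ j))) := by
        exact_mod_cast h5
      have h7 := mul_le_mul_of_nonneg_left h6 hc1
      refine le_of_mul_le_mul_left ?_ hc2
      nlinarith [mul_le_mul_of_nonneg_left h3' hc2.le]
    have hlim : Tendsto (fun j : ℕ => 1 / ((j : ℝ) + 1)) atTop (𝓝 0) :=
      tendsto_one_div_add_atTop_nhds_zero_nat
    filter_upwards [hlim.eventually (eventually_le_nhds hη)] with j hj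
    refine (harm_finS Q.graph Q.lab Q.cs Q.isSpec ν hν i _ (π j)).trans ((hbd j).trans ?_)
    exact mul_le_mul_of_nonneg_right hj (Nat.cast_nonneg _)
  have h1 : ∀ f : Finset V → Q.Cover x₀ → ℂ,
      IsHarmS Q.graph (Q.cover x₀).lab (Q.cover x₀).cs ν i f → f = 0 :=
    fun f hf => Q.harm_ext x₀ ν i hW f hf
  obtain ⟨y, hy, hye⟩ := hodgeS Q.graph (Q.cover x₀).lab (Q.cover x₀).cs (Q.cover x₀).isSpec ν hν i
    h1 z (((Q.cover x₀).isL2_iff i z).1 hz) hdz ε hε
  exact ⟨y, ((Q.cover x₀).isL2_iff (i + 1) y).2 hy, hye⟩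

end Pool.Agent.S10

end

section

/-!
# Project S10: vanishing growth of the active subcomplex implies the vanishing of the reduced `ℓ²`-homology

`N` is a normal subgroup of finite index of `W` which acts trivially on the vertices `X` of `Q`, `P = W ⧸ N`. The
functions on the cells of `X × P` are the families (`c : X`) of `N`-invariant functions on the active cells:
`d c A w = z A (x₀ w) (u_c⁻¹ w)`, where `x₀ u_c = c`.
-/

set_option autoImplicit false
set_option linter.unusedSectionVars false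

open Finset

namespace Pool.Agent.S10

open Pool.Agent.S9 Pool.Agent.H19.Cub Pool.Agent.H19.LG Pool.Agent.H37.TM Pool.Agent.H73.GC Pool.Agent.H77.SX

variable {V X : Type} [DecidableEq V] [Fintype V] {Q : CubeComplex V X} {W : Type} [Group W]
  (R : Rac Q.graph W) {x₀ : X} {N : Subgroup W} [N.Normal]

/-- the marked elements of the quotient -/
def gN (N : Subgroup W) [N.Normal] (v : V) : W ⧸ N := QuotientGroup.mk (R.s v)

theorem gN_sq (v : V) : gN R N v * gN R N v = 1 := by
  unfold gN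
  rw [← QuotientGroup.mk_mul, R.sq]
  rfl

theorem gN_comm (u v : V) (h : Q.graph.Adj u v) : gN R N u * gN R N v = gN R N v * gN R N u := by
  unfold gN
  rw [← QuotientGroup.mk_mul, R.comm u v h]
  rfl

theorem mk_mul_s (w : W) (v : V) :
    (QuotientGroup.mk (w * R.s v) : W ⧸ N) = QuotientGroup.mk w * gN R N v := rfl

theorem mk_left {n : W} (hn : n ∈ N) (w : W) :
    (QuotientGroup.mk (n * w) : W ⧸ N) = QuotientGroup.mk w := by
  rw [QuotientGroup.mk_mul, (QuotientGroup.eq_one_iff n).2 hn, one_mul]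

theorem mk_mid {n : W} (hn : n ∈ N) (u w : W) :
    (QuotientGroup.mk (u * (n * w)) : W ⧸ N) = QuotientGroup.mk (u * w) := by
  rw [QuotientGroup.mk_mul, mk_left hn, ← QuotientGroup.mk_mul]

theorem out_eq (w : W) : ∃ n ∈ N, (QuotientGroup.mk w : W ⧸ N).out = n * w := by
  refine ⟨(QuotientGroup.mk w : W ⧸ N).out * w⁻¹, ?_, by rw [inv_mul_cancel_right]⟩
  rw [← QuotientGroup.eq_one_iff, QuotientGroup.mk_mul, QuotientGroup.out_eq', QuotientGroup.mk_inv,
    mul_inv_cancel]

section Maps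

variable (Q) (x₀) (N) (u : X → W)

/-- from the cells of `X × P` to the active cells -/
noncomputable def Th : (Finset V → X → W ⧸ N → F2) →ₗ[F2] (X → Finset V → W → F2) where
  toFun z c A w := z A (pt Q R x₀ w) (QuotientGroup.mk ((u c)⁻¹ * w))
  map_add' z z' := rfl
  map_smul' a z := rfl

/-- from the active cells to the cells of `X × P` -/
noncomputable def Xi : (X → Finset V → W → F2) →ₗ[F2] (Finset V → X → W ⧸ N → F2) where
  toFun d A x p := d (pt Q R x p.out⁻¹) A (u (pt Q R x p.out⁻¹) * p.out)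
  map_add' z z' := rfl
  map_smul' a z := rfl

end Maps

theorem Th_apply (u : X → W) (z : Finset V → X → W ⧸ N → F2) (c : X) (A : Finset V) (w : W) :
    Th Q R x₀ N u z c A w = z A (pt Q R x₀ w) (QuotientGroup.mk ((u c)⁻¹ * w)) := rfl

theorem Xi_apply (u : X → W) (d : X → Finset V → W → F2) (A : Finset V) (x : X) (p : W ⧸ N) :
    Xi Q R N u d A x p = d (pt Q R x p.out⁻¹) A (u (pt Q R x p.out⁻¹) * p.out) := rfl

theorem pt_inv (x : X) (w : W) : pt Q R (pt Q R x w⁻¹) w = x := by
  rw [← pt_mul, inv_mul_cancel, pt_one]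

theorem pt_triv (hN : ∀ g ∈ N, xh Q R g = 1) {n : W} (hn : n ∈ N) (x : X) : pt Q R x n = x := by
  have h := pt_of_ker Q R x (hN n hn) 1
  rwa [mul_one, pt_one] at h

theorem pt_triv_r (hN : ∀ g ∈ N, xh Q R g = 1) {n : W} (hn : n ∈ N) (x : X) (w : W) :
    pt Q R x (w * n) = pt Q R x w := by
  rw [pt_mul, pt_triv R hN hn]

/-- the map to the families is injective -/
theorem Th_inj {u : X → W} (hu : ∀ c, pt Q R x₀ (u c) = c) :
    Function.Injective (Th Q R x₀ N u) := by
  intro z z' h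
  funext A x p
  have h1 := congrFun (congrFun (congrFun h (pt Q R x p.out⁻¹)) A) (u (pt Q R x p.out⁻¹) * p.out)
  rw [Th_apply, Th_apply] at h1
  have h2 : pt Q R x₀ (u (pt Q R x p.out⁻¹) * p.out) = x := by
    rw [pt_mul, hu, pt_inv]
  have h3 : (QuotientGroup.mk ((u (pt Q R x p.out⁻¹))⁻¹ * (u (pt Q R x p.out⁻¹) * p.out)) :
      W ⧸ N) = p := by
    rw [inv_mul_cancel_left, QuotientGroup.out_eq']
  rw [h2, h3] at h1
  exact h1

/-- the map from the invariant families is injective -/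
theorem Xi_inj (hN : ∀ g ∈ N, xh Q R g = 1) {u : X → W} (hu : ∀ c, pt Q R x₀ (u c) = c)
    {d : X → Finset V → W → F2} (hd : ∀ c A, ∀ n ∈ N, ∀ w, d c A (n * w) = d c A w)
    (h : Xi Q R N u d = 0) : d = 0 := by
  funext c A w
  have h1 := congrFun (congrFun (congrFun h A) (pt Q R x₀ w))
    (QuotientGroup.mk ((u c)⁻¹ * w) : W ⧸ N)
  rw [Xi_apply] at h1
  obtain ⟨n, hn, hn'⟩ := out_eq (N := N) ((u c)⁻¹ * w)
  have h2 : pt Q R (pt Q R x₀ w) (QuotientGroup.mk ((u c)⁻¹ * w) : W ⧸ N).out⁻¹ = c := by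
    rw [hn', mul_inv_rev, mul_inv_rev, inv_inv, pt_triv_r R hN (N.inv_mem hn), ← pt_mul,
      mul_inv_cancel_left, hu]
  rw [h2, hn'] at h1
  have h3 : u c * (n * ((u c)⁻¹ * w)) = (u c * n * (u c)⁻¹) * w := by group
  rw [h3, hd c A _ (Subgroup.Normal.conj_mem inferInstance n hn (u c))] at h1
  exact h1

/-- a clique which is not contained in the labels of a vertex is not contained in those of a neighbour -/
private theorem lab_mv {A : Finset V} (hA : Q.graph.IsClique (A : Set V)) {v : V} (hv : v ∈ A)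
    (x : X) : A ⊆ Q.lab (mv Q v x) ↔ A ⊆ Q.lab x := by
  refine forall₂_congr fun a ha => ?_
  by_cases hav : v = a
  · subst hav
    exact mem_lab_mv_self Q v x
  · exact mem_lab_mv Q (hA (mem_coe.2 hv) (mem_coe.2 ha) hav) x

/-- the families of chains -/
theorem Th_mem (u : X → W) {k : ℕ} {z : Finset V → X → W ⧸ N → F2}
    (h1 : ∀ σ x, z σ x ≠ 0 → σ ⊆ Q.lab x ∧ Q.graph.IsClique (σ : Set V) ∧ σ.card = k)
    (h2 : ∀ σ x, σ ⊆ Q.lab x → ∀ v ∈ σ, z σ (Q.nb v x) = regP (gN R N) v (z σ x))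
    (hN : ∀ g ∈ N, xh Q R g = 1) (c : X) :
    Th Q R x₀ N u z c ∈ Ca R (acQ Q R x₀) N (1 : N →* Module.End F2 F2) k := by
  have hs : ∀ A w, Th Q R x₀ N u z c A w ≠ 0 →
      A ⊆ Q.lab (pt Q R x₀ w) ∧ Q.graph.IsClique (A : Set V) ∧ A.card = k := by
    intro A w h
    rw [Th_apply] at h
    exact h1 A _ fun h0 => h (congrFun h0 _)
  rw [mem_Ca, mem_Cc]
  refine ⟨⟨fun A h => ?_, fun A v hv w => ?_, fun A n w => ?_⟩, fun A w h v hv => ?_⟩
  · obtain ⟨w, hw⟩ : ∃ w, Th Q R x₀ N u z c A w ≠ 0 := by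
      by_contra hcon
      push Not at hcon
      exact h (funext hcon)
    exact (hs A w hw).2
  · rw [Th_apply, Th_apply, pt_mul_s, ← mul_assoc, mk_mul_s R]
    by_cases hA : A ⊆ Q.lab (pt Q R x₀ w)
    · rw [mv_pos Q (hA hv), h2 A _ hA v hv]
      show z A (pt Q R x₀ w) (QuotientGroup.mk ((u c)⁻¹ * w) * gN R N v * gN R N v) = _
      rw [mul_assoc, gN_sq, mul_one]
    · have h3 : z A (pt Q R x₀ w) = 0 := by
        by_contra hne
        exact hA (h1 A _ hne).1
      have h4 : z A (mv Q v (pt Q R x₀ w)) = 0 := by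
        by_contra hne
        obtain ⟨h5, h6, -⟩ := h1 A _ hne
        exact hA ((lab_mv h6 hv _).1 h5)
      rw [h3, h4]
      rfl
  · rw [Th_apply, Th_apply, pt_of_ker Q R x₀ (hN _ n.2), mk_mid n.2]
    rfl
  · exact (hs A w h).1 hv

theorem Th_memZ (u : X → W) {k : ℕ} {z : Finset V → X → W ⧸ N → F2}
    (hz : z ∈ ZQ F2 Q k (regP (gN R N))) (hN : ∀ g ∈ N, xh Q R g = 1) (c : X) :
    Th Q R x₀ N u z c ∈ Za R (acQ Q R x₀) N (1 : N →* Module.End F2 F2) k := by
  rw [mem_ZQ] at hz
  obtain ⟨h1, h2, h3⟩ := hz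
  refine ⟨Th_mem R u h1 h2 hN c, ?_⟩
  rw [SetLike.mem_coe, LinearMap.mem_ker]
  funext A w
  rw [bd_apply]
  have h4 := congrFun (h3 A (pt Q R x₀ w)) (QuotientGroup.mk ((u c)⁻¹ * w))
  rw [Finset.sum_apply] at h4
  exact h4

section Dim

variable [N.FiniteIndex]

/-- the invariant chains are finite dimensional -/
theorem finite_Ca (act : V → W → Prop) (k : ℕ) :
    FiniteDimensional F2 (Ca R act N (1 : N →* Module.End F2 F2) k) := by
  have : Finite (W ⧸ N) := inferInstance
  have : FiniteDimensional F2 (Finset V → W ⧸ N → F2) := inferInstance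
  let f : (Finset V → W → F2) →ₗ[F2] (Finset V → W ⧸ N → F2) :=
    { toFun := fun c A p => c A p.out
      map_add' := fun _ _ => rfl
      map_smul' := fun _ _ => rfl }
  refine FiniteDimensional.of_injective (f.domRestrict (Ca R act N (1 : N →* Module.End F2 F2) k)) ?_
  intro c d h
  apply Subtype.ext
  funext A w
  have h1 : c.1 A (QuotientGroup.mk w : W ⧸ N).out = d.1 A (QuotientGroup.mk w : W ⧸ N).out :=
    congrFun (congrFun h A) (QuotientGroup.mk w)
  obtain ⟨n, hn, hn'⟩ := out_eq (N := N) w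
  rw [hn'] at h1
  have h2 := c.2.1.2.2 A ⟨n, hn⟩ w
  have h3 := d.2.1.2.2 A ⟨n, hn⟩ w
  exact h2.symm.trans (h1.trans h3)

theorem hha_eq (act : V → W → Prop) (k : ℕ) :
    hha R act N (1 : N →* Module.End F2 F2) k =
      (Module.finrank F2 (Za R act N (1 : N →* Module.End F2 F2) k) : ℤ) +
        Module.finrank F2 (Za R act N (1 : N →* Module.End F2 F2) (k + 1)) -
        Module.finrank F2 (Ca R act N (1 : N →* Module.End F2 F2) (k + 1)) := by
  have h0 := finite_Ca R (N := N) act (k + 1)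
  let f : Ca R act N (1 : N →* Module.End F2 F2) (k + 1) →ₗ[F2] (Finset V → W → F2) :=
    (bd F2).domRestrict _
  have h1 : LinearMap.range f = Ba R act N (1 : N →* Module.End F2 F2) k :=
    LinearMap.range_domRestrict _ _
  have h2 : Module.finrank F2 (LinearMap.ker f) =
      Module.finrank F2 (Za R act N (1 : N →* Module.End F2 F2) (k + 1)) := by
    have h3 : (LinearMap.ker f).map (Ca R act N (1 : N →* Module.End F2 F2) (k + 1)).subtype =
        Za R act N (1 : N →* Module.End F2 F2) (k + 1) := by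
      ext x
      simp only [Submodule.mem_map, LinearMap.mem_ker]
      constructor
      · rintro ⟨y, hy, rfl⟩
        exact ⟨y.2, LinearMap.mem_ker.2 hy⟩
      · rintro ⟨hx, hx'⟩
        exact ⟨⟨x, hx⟩, LinearMap.mem_ker.1 hx', rfl⟩
    rw [← h3]
    exact (LinearEquiv.finrank_eq
      (Submodule.equivMapOfInjective _ (Submodule.injective_subtype _) _))
  have h4 := LinearMap.finrank_range_add_finrank_ker f
  rw [h1, h2] at h4
  unfold hha
  omega

variable [Fintype X]

/-- the cycles of the covering -/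
theorem finrank_ZQ_le (hN : ∀ g ∈ N, xh Q R g = 1) (hc : ∀ x, ∃ w, pt Q R x₀ w = x) (k : ℕ) :
    Module.finrank F2 (ZQ F2 Q k (regP (gN R N))) ≤
      Fintype.card X * Module.finrank F2 (Za R (acQ Q R x₀) N (1 : N →* Module.End F2 F2) k) := by
  choose u hu using hc
  have h0 := finite_Ca R (N := N) (acQ Q R x₀) k
  have h1 : FiniteDimensional F2 (Za R (acQ Q R x₀) N (1 : N →* Module.End F2 F2) k) :=
    FiniteDimensional.of_injective
      (Submodule.inclusion (inf_le_left : Za R (acQ Q R x₀) N (1 : N →* Module.End F2 F2) k ≤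
        Ca R (acQ Q R x₀) N (1 : N →* Module.End F2 F2) k)) (Submodule.inclusion_injective _)
  have h2 : Module.finrank F2 (X → Za R (acQ Q R x₀) N (1 : N →* Module.End F2 F2) k) =
      Fintype.card X * Module.finrank F2 (Za R (acQ Q R x₀) N (1 : N →* Module.End F2 F2) k) := by
    rw [Module.finrank_pi_fintype, sum_const, card_univ, smul_eq_mul]
  rw [← h2]
  let f : ZQ F2 Q k (regP (gN R N)) →ₗ[F2]
      (X → Za R (acQ Q R x₀) N (1 : N →* Module.End F2 F2) k) :=
    { toFun := fun z c => ⟨Th Q R x₀ N u z.1 c, Th_memZ R u z.2 hN c⟩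
      map_add' := fun z z' => rfl
      map_smul' := fun a z => rfl }
  refine LinearMap.finrank_le_finrank_of_injective (f := f) ?_
  intro z z' h
  apply Subtype.ext
  apply Th_inj R (x₀ := x₀) (N := N) hu
  funext c
  exact congrArg Subtype.val (congrFun h c)

/-- the families of invariant chains inside the chains of the covering -/
private theorem Xi_mem (hN : ∀ g ∈ N, xh Q R g = 1) {u : X → W} (hu : ∀ c, pt Q R x₀ (u c) = c)
    {k : ℕ} {d : X → Finset V → W → F2}
    (hd : ∀ c, d c ∈ Ca R (acQ Q R x₀) N (1 : N →* Module.End F2 F2) k) :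
    (fun (σ : Finset V) (y : X × (W ⧸ N)) (_ : Unit) => Xi Q R N u d σ y.1 y.2) ∈
      SCh F2 Q.graph (prY Q.lab (W ⧸ N)) (fun _ => (1 : Matrix Unit Unit F2))
        (prS Q.cs (gN R N)) k := by
  have hinv : ∀ c A, ∀ n ∈ N, ∀ w, d c A (n * w) = d c A w := by
    intro c A n hn w
    exact (hd c).1.2.2 A ⟨n, hn⟩ w
  have hpt : ∀ (x : X) (p : W ⧸ N), pt Q R x₀ (u (pt Q R x p.out⁻¹) * p.out) = x := by
    intro x p
    rw [pt_mul, hu, pt_inv]
  refine ⟨fun σ y h => ?_, fun σ v hv y => ?_⟩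
  · have h1 : Xi Q R N u d σ y.1 y.2 ≠ 0 := fun h0 => h (funext fun _ => h0)
    rw [Xi_apply] at h1
    have h2 := (hd _).2 σ _ h1
    have h3 := (hd _).1.1 σ (fun h0 => h1 (congrFun h0 _))
    refine ⟨fun v hv => ?_, fun a ha b hb hab => h3.1 (mem_coe.2 ha) (mem_coe.2 hb) hab, h3.2⟩
    have h4 := h2 v hv
    unfold acQ at h4
    rw [hpt] at h4
    exact h4
  · rw [Matrix.one_mulVec]
    funext _
    show Xi Q R N u d σ (Q.cs v y.1) (y.2 * gN R N v) = -(Xi Q R N u d σ y.1 y.2)
    rw [ZModModule.neg_eq_self, Xi_apply, Xi_apply]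
    obtain ⟨x, p⟩ := y
    show d (pt Q R (Q.cs v x) (p * gN R N v).out⁻¹) σ
      (u (pt Q R (Q.cs v x) (p * gN R N v).out⁻¹) * (p * gN R N v).out) =
      d (pt Q R x p.out⁻¹) σ (u (pt Q R x p.out⁻¹) * p.out)
    have h1 : (p * gN R N v) = (QuotientGroup.mk (p.out * R.s v) : W ⧸ N) := by
      rw [mk_mul_s R, QuotientGroup.out_eq']
    obtain ⟨n, hn, hn'⟩ := out_eq (N := N) (p.out * R.s v)
    rw [h1, hn']
    have hcs : Q.cs v x = pt Q R x (R.s v) := by
      rw [pt_s]
      rfl
    have hss : R.s v * (R.s v)⁻¹ = 1 := mul_inv_cancel _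
    have h2 : pt Q R (Q.cs v x) (n * (p.out * R.s v))⁻¹ = pt Q R x p.out⁻¹ := by
      rw [mul_inv_rev, mul_inv_rev, pt_triv_r R hN (N.inv_mem hn), hcs, ← pt_mul, ← mul_assoc, hss,
        one_mul]
    rw [h2]
    have h3 : u (pt Q R x p.out⁻¹) * (n * (p.out * R.s v)) =
        (u (pt Q R x p.out⁻¹) * n * (u (pt Q R x p.out⁻¹))⁻¹) *
          (u (pt Q R x p.out⁻¹) * p.out * R.s v) := by group
    rw [h3, hinv _ _ _ (Subgroup.Normal.conj_mem inferInstance n hn _)]
    exact (hd _).1.2.1 σ v hv _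

/-- the chains of the covering -/
theorem card_mul_finrank_Ca_le {bit : X → V → ZMod 2} (hbit : IsBit Q bit)
    (hN : ∀ g ∈ N, xh Q R g = 1) (hNb : ∀ g ∈ N, ∀ v, R.b g v = 0)
    (hc : ∀ x, ∃ w, pt Q R x₀ w = x) (k : ℕ) :
    Fintype.card X * Module.finrank F2 (Ca R (acQ Q R x₀) N (1 : N →* Module.End F2 F2) k) ≤
      nC Q bit k * N.index := by
  classical
  choose u hu using hc
  have hfin : Finite (W ⧸ N) := inferInstance
  let _ : Fintype (W ⧸ N) := Fintype.ofFinite _
  have h0 := finite_Ca R (N := N) (acQ Q R x₀) k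
  -- the bits of the quotient
  have hbb : ∀ w w' : W, (QuotientGroup.mk w : W ⧸ N) = QuotientGroup.mk w' →
      ∀ v, R.b w v = R.b w' v := by
    intro w w' h v
    have h1 : w⁻¹ * w' ∈ N := QuotientGroup.eq.1 h
    have h2 : R.b w' v = R.b (w * (w⁻¹ * w')) v := by rw [mul_inv_cancel_left]
    rw [h2, R.b_mul, hNb _ h1, add_zero]
  let b : X × (W ⧸ N) → V → Bool := fun y v => decide (R.b y.2.out v = 1)
  have hb : ∀ (y : X × (W ⧸ N)) (a v : V), b (prS Q.cs (gN R N) a y) v =
      if a = v then !(b y v) else b y v := by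
    rintro ⟨x, p⟩ a v
    show decide (R.b (p * gN R N a).out v = 1) = _
    have h1 : R.b (p * gN R N a).out v = R.b p.out v + R.b (R.s a) v := by
      rw [← R.b_mul]
      refine hbb _ _ ?_ v
      rw [QuotientGroup.out_eq', mk_mul_s R, QuotientGroup.out_eq']
    rw [h1, R.b_s]
    by_cases hav : a = v
    · rw [if_pos hav, if_pos hav]
      have key : ∀ x : ZMod 2, decide (x + 1 = 1) = !(decide (x = 1)) := by decide
      exact key _
    · rw [if_neg hav, if_neg hav, add_zero]
  have hs : IsSpec Q.graph (prY Q.lab (W ⧸ N)) (prS Q.cs (gN R N)) :=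
    isSpec_pr Q.isSpec (gN R N) (gN_sq R) (gN_comm R)
  have h3 := two_pow_cT F2 Q.graph (prY Q.lab (W ⧸ N)) (prS Q.cs (gN R N)) hs b hb k
  rw [nn_pr, ← nC_nn hbit] at h3
  have h4 : cT F2 Q.graph (prY Q.lab (W ⧸ N)) (prS Q.cs (gN R N)) k =
      nC Q bit k * Fintype.card (W ⧸ N) := by
    refine Nat.eq_of_mul_eq_mul_left (pow_pos two_pos k) (h3.trans ?_)
    ring
  have h5 : N.index = Fintype.card (W ⧸ N) := by
    unfold Subgroup.index
    rw [Nat.card_eq_fintype_card]
  rw [h5, ← h4]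
  have h2 : Module.finrank F2 (X → Ca R (acQ Q R x₀) N (1 : N →* Module.End F2 F2) k) =
      Fintype.card X * Module.finrank F2 (Ca R (acQ Q R x₀) N (1 : N →* Module.End F2 F2) k) := by
    rw [Module.finrank_pi_fintype, sum_const, card_univ, smul_eq_mul]
  rw [← h2]
  unfold cT
  let f : (X → Ca R (acQ Q R x₀) N (1 : N →* Module.End F2 F2) k) →ₗ[F2]
      SCh F2 Q.graph (prY Q.lab (W ⧸ N)) (fun _ => (1 : Matrix Unit Unit F2))
        (prS Q.cs (gN R N)) k :=
    { toFun := fun d => ⟨fun σ y _ => Xi Q R N u (fun c => (d c).1) σ y.1 y.2,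
        Xi_mem R hN hu fun c => (d c).2⟩
      map_add' := fun d d' => rfl
      map_smul' := fun a d => rfl }
  refine LinearMap.finrank_le_finrank_of_injective (f := f) ?_
  rw [injective_iff_map_eq_zero]
  intro d hd
  have h6 : Xi Q R N u (fun c => (d c).1) = 0 := by
    funext σ x p
    exact congrFun (congrFun (congrFun (congrArg Subtype.val hd) σ) (x, p)) ()
  have h7 := Xi_inj R (x₀ := x₀) hN hu (d := fun c => (d c).1)
    (fun c A n hn w => (d c).2.1.2.2 A ⟨n, hn⟩ w) h6
  funext c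
  apply Subtype.ext
  exact congrFun h7 c

end Dim

/-- **Vanishing growth implies the vanishing of the reduced `ℓ²`-homology.** `Q` is a finite special cube complex with
bits, `x₀` a vertex from which all vertices can be reached, `Φ` a group of elements of the right-angled Coxeter group
which fix all vertices and have even letters. If the mod 2 homology growth of the active subcomplex vanishes in degree
`i`, then the reduced `ℓ²`-homology of the universal cover of `Q` vanishes in this degree. -/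
theorem l2_of_gza [Fintype X] {bit : X → V → ZMod 2} (hbit : IsBit Q bit)
    (hc : ∀ x, ∃ w, pt Q R x₀ w = x) {Φ : Subgroup W} (hΦ : ∀ g ∈ Φ, xh Q R g = 1)
    (hΦb : ∀ g ∈ Φ, ∀ v, R.b g v = 0) {i : ℕ} (h : GZA R (acQ Q R x₀) Φ i) :
    L2HomologyZero (Q.cover x₀) i := by
  classical
  refine l2_end Q bit hbit i (fun ε hε => ?_) x₀
  have hX : (0 : ℝ) < Fintype.card X := by
    have : Nonempty X := ⟨x₀⟩
    exact_mod_cast Fintype.card_pos
  obtain ⟨N, hn, hf, hle, hh⟩ := h (ε / Fintype.card X) (div_pos hε hX)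
  have hfin : Finite (W ⧸ N) := inferInstance
  let _ : Fintype (W ⧸ N) := Fintype.ofFinite _
  have hN : ∀ g ∈ N, xh Q R g = 1 := fun g hg => hΦ g (hle hg)
  have hNb : ∀ g ∈ N, ∀ v, R.b g v = 0 := fun g hg => hΦb g (hle hg)
  refine ⟨W ⧸ N, inferInstance, inferInstance, gN R N, gN_sq R, gN_comm R, ?_⟩
  have h1 := finrank_ZQ_le R (x₀ := x₀) hN hc i
  have h2 := finrank_ZQ_le R (x₀ := x₀) hN hc (i + 1)
  have h3 := card_mul_finrank_Ca_le R (x₀ := x₀) hbit hN hNb hc (i + 1)
  have h4 := hha_eq R (N := N) (acQ Q R x₀) i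
  have h5 : N.index = Fintype.card (W ⧸ N) := by
    unfold Subgroup.index
    rw [Nat.card_eq_fintype_card]
  have h6 : (hha R (acQ Q R x₀) N (1 : N →* Module.End F2 F2) i : ℝ) ≤
    ε / Fintype.card X * N.index := hh
  rw [h4, h5] at h6
  rw [h5] at h3
  push_cast at h6
  have h1' : (Module.finrank F2 (ZQ F2 Q i (regP (gN R N))) : ℝ) ≤
      Fintype.card X * Module.finrank F2 (Za R (acQ Q R x₀) N (1 : N →* Module.End F2 F2) i) := by
    exact_mod_cast h1
  have h2' : (Module.finrank F2 (ZQ F2 Q (i + 1) (regP (gN R N))) : ℝ) ≤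
      Fintype.card X *
        Module.finrank F2 (Za R (acQ Q R x₀) N (1 : N →* Module.End F2 F2) (i + 1)) := by
    exact_mod_cast h2
  have h3' : (Fintype.card X : ℝ) *
      Module.finrank F2 (Ca R (acQ Q R x₀) N (1 : N →* Module.End F2 F2) (i + 1)) ≤
      nC Q bit (i + 1) * Fintype.card (W ⧸ N) := by
    exact_mod_cast h3
  have h7 := mul_le_mul_of_nonneg_left h6 hX.le
  have h8 : (Fintype.card X : ℝ) * (ε / Fintype.card X * Fintype.card (W ⧸ N)) =
      ε * Fintype.card (W ⧸ N) := by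
    field_simp
  rw [h8] at h7
  have h9 : (Fintype.card X : ℝ) *
      ((Module.finrank F2 (Za R (acQ Q R x₀) N (1 : N →* Module.End F2 F2) i) : ℝ) +
        Module.finrank F2 (Za R (acQ Q R x₀) N (1 : N →* Module.End F2 F2) (i + 1)) -
        Module.finrank F2 (Ca R (acQ Q R x₀) N (1 : N →* Module.End F2 F2) (i + 1))) =
      Fintype.card X * Module.finrank F2 (Za R (acQ Q R x₀) N (1 : N →* Module.End F2 F2) i) +
      Fintype.card X *
        Module.finrank F2 (Za R (acQ Q R x₀) N (1 : N →* Module.End F2 F2) (i + 1)) -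
      Fintype.card X *
        Module.finrank F2 (Ca R (acQ Q R x₀) N (1 : N →* Module.End F2 F2) (i + 1)) := by
    ring
  rw [h9] at h7
  show (Module.finrank F2 (ZQ F2 Q i (regP (gN R N))) : ℝ) +
    Module.finrank F2 (ZQ F2 Q (i + 1) (regP (gN R N))) ≤ (nC Q bit (i + 1) + ε) *
      Fintype.card (W ⧸ N)
  rw [add_mul]
  linarith

/-- the vertices which can be reached by paths -/
theorem exists_pt_fin (l : List V) : ∀ x : X, Q.IsPath x l → ∃ w, pt Q R x w = Q.fin x l := by
  induction l with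
  | nil => exact fun x _ => ⟨1, pt_one Q R x⟩
  | cons v l ih =>
    intro x h
    obtain ⟨w, hw⟩ := ih (Q.nb v x) h.2
    refine ⟨R.s v * w, ?_⟩
    rw [pt_mul, pt_s, mv_pos Q h.1, hw]
    rfl

theorem exists_pt_of_surj (hs : Function.Surjective (Q.proj x₀)) (x : X) :
    ∃ w, pt Q R x₀ w = x := by
  obtain ⟨c, rfl⟩ := hs x
  induction c using Quot.ind with
  | mk l => exact exists_pt_fin R l.1 x₀ l.2

/-- **BLOCK L2**, in the form of `S10.Main` -/
theorem L2_mainA {X : Type} [Fintype X] (Q : CubeComplex V X) (x₀ : X) {bit : X → V → ZMod 2}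
    (hbit : IsBit Q bit) (hsurj : Function.Surjective (Q.proj x₀)) (R : Rac Q.graph W)
    {Φ : Subgroup W} (hΦ : Lev0 R Φ) (hker : ∀ g ∈ Φ, xh Q R g = 1) {i : ℕ}
    (h : GZA R (acQ Q R x₀) Φ i) : L2HomologyZero (Q.cover x₀) i := by
  exact l2_of_gza R hbit (exists_pt_of_surj R hsurj) hker hΦ.bits h

end Pool.Agent.S10

end
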