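import Pool.Agent.H71.TSG.M13
import Pool.Agent.H71.TSG.M20
import Pool.Agent.H71.TSG.M24
import Pool.Agent.H71.TSG.M29
import Pool.Agent.H71.TSG.M43
import Pool.Agent.H71.TSG.M45
import Pool.Agent.H71.TSG.M62

/-! The parts of this file: H19.LI.VnD, H19.LI.VnE_1, H19.LI.Final. -/

section

/-!
# Project LI: the dimension formula

Apply `dm_ker_orth` to `A ∘ P` (`P` the projection onto `K`, equivariant by `proj_U`): `range (A ∘ P) = K.map A`,
`ker (A ∘ P) = Kᗮ + (K ⊓ ker A)`, so `(ker (A ∘ P))ᗮ = K ⊓ (K ⊓ ker A)ᗮ`; then `dm_add`.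
-/

set_option autoImplicit false

open Finset ContinuousLinearMap

namespace Pool.Agent.H19.LI

variable {Q I I' : Type} [Group Q] (D : Dm Q I) (D' : Dm Q I')

/-- **The dimension formula.** -/
theorem dm_rank {K : Submodule ℂ (L2 I)} (hK : IsClosed (K : Set (L2 I))) (iK : D.Inv K)
    (A : L2 I →L[ℂ] L2 I') (hA : Eqv D D' A) :
    D.dm K = D.dm (K ⊓ LinearMap.ker (A : L2 I →ₗ[ℂ] L2 I')) +
      D'.dm (K.map (A : L2 I →ₗ[ℂ] L2 I')) := by
  have hKc : K.topologicalClosure = K := IsClosed.submodule_topologicalClosure_eq hK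
  set P : L2 I →L[ℂ] L2 I := K.topologicalClosure.starProjection with hP
  have hPmem : ∀ x, P x ∈ K := fun x =>
    hKc.le (Submodule.starProjection_apply_mem K.topologicalClosure x)
  have hPid : ∀ x ∈ K, P x = x := fun x hx =>
    Submodule.starProjection_eq_self_iff.2 (hKc.ge hx)
  have hPorth : ∀ x, x - P x ∈ Kᗮ := by
    intro x
    have := Submodule.sub_starProjection_mem_orthogonal (K := K.topologicalClosure) x
    rwa [Submodule.orthogonal_closure] at this
  have hAP : Eqv D D' (A ∘L P) := eqv_comp D D hA (proj_U D iK)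
  have hker : IsClosed ((LinearMap.ker (A : L2 I →ₗ[ℂ] L2 I') : Submodule ℂ (L2 I)) :
      Set (L2 I)) := A.isClosed_ker
  have hKA : IsClosed ((K ⊓ LinearMap.ker (A : L2 I →ₗ[ℂ] L2 I') : Submodule ℂ (L2 I)) :
      Set (L2 I)) := by
    rw [Submodule.coe_inf]
    exact hK.inter hker
  have h1 := dm_ker_orth D D' (A ∘L P) hAP
  have h2 : LinearMap.range ((A ∘L P : L2 I →L[ℂ] L2 I') : L2 I →ₗ[ℂ] L2 I') =
      K.map (A : L2 I →ₗ[ℂ] L2 I') := by
    ext y
    constructor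
    · rintro ⟨x, rfl⟩
      exact ⟨P x, hPmem x, rfl⟩
    · rintro ⟨x, hx, rfl⟩
      refine ⟨x, ?_⟩
      show A (P x) = A x
      rw [hPid x hx]
  have h3 : (LinearMap.ker ((A ∘L P : L2 I →L[ℂ] L2 I') : L2 I →ₗ[ℂ] L2 I'))ᗮ =
      K ⊓ (K ⊓ LinearMap.ker (A : L2 I →ₗ[ℂ] L2 I'))ᗮ := by
    ext y
    constructor
    · intro hy
      have hyK : y ∈ K := by
        have h4 : y - P y = 0 := by
          have h5 : y - P y ∈ LinearMap.ker ((A ∘L P : L2 I →L[ℂ] L2 I') : L2 I →ₗ[ℂ] L2 I') := by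
            rw [LinearMap.mem_ker]
            show A (P (y - P y)) = 0
            rw [map_sub, hPid _ (hPmem y), sub_self, map_zero]
          have h6 := (Submodule.mem_orthogonal _ _).1 hy _ h5
          have h7 : inner ℂ (y - P y) (P y) = 0 :=
            (Submodule.mem_orthogonal' K _).1 (hPorth y) _ (hPmem y)
          have h8 : inner ℂ (y - P y) (y - P y) = 0 := by
            rw [inner_sub_right, h6, h7, sub_zero]
          exact inner_self_eq_zero.1 h8
        rw [sub_eq_zero.1 h4]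
        exact hPmem y
      refine ⟨hyK, (Submodule.mem_orthogonal _ _).2 fun z hz => ?_⟩
      refine (Submodule.mem_orthogonal _ _).1 hy z ?_
      rw [LinearMap.mem_ker]
      show A (P z) = 0
      rw [hPid z hz.1]
      exact LinearMap.mem_ker.1 hz.2
    · rintro ⟨hyK, hy⟩
      rw [Submodule.mem_orthogonal]
      intro z hz
      have hz' : A (P z) = 0 := LinearMap.mem_ker.1 hz
      have h4 : inner ℂ (P z) y = 0 := (Submodule.mem_orthogonal _ _).1 hy (P z)
        ⟨hPmem z, LinearMap.mem_ker.2 hz'⟩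
      have h5 : inner ℂ (z - P z) y = 0 := (Submodule.mem_orthogonal' K _).1 (hPorth z) y hyK
      have h6 : z = (z - P z) + P z := by abel
      rw [h6, inner_add_left, h5, h4, add_zero]
  rw [dm_add D hKA hK inf_le_left, ← h3, h1, h2]

end Pool.Agent.H19.LI

end

section

/-!
# Project LI: semicontinuity

`H^k = L2 (Fin k × I)` with the dimension data `D.pow k` (`c (j, s) = c s`). `∑ dm (Z j)` is the dimension of
`P = {f | every slice f (j, ·) is in Z j}`. Let `G a f = ∑ j, T j ^ a • slice j f` (equivariant) and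
`P_a = P ⊓ ⨅ b ≥ a, ker (G b)` (`b < k`). By `dm_rank`, `dm P_{a+1} ≤ dm P_a + dm (P_{a+1}.map (G a))`, and
`P_{a+1}.map (G a) ≤ Z0` if `a + 2 < k` by `h`; for the two largest `a` it is `≤ ⊤`. Finally
`P_0 = ⊥` (Vandermonde matrix).
-/

set_option autoImplicit false

open Finset ContinuousLinearMap

namespace Pool.Agent.H19.LI

variable {Q I : Type} [Group Q] (D : Dm Q I)

section slices

end slices

/-- **Semicontinuity.** -/
theorem semicont {k : ℕ} (T : Fin k → ℂ) (hT : Function.Injective T)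
    (Z : Fin k → Submodule ℂ (L2 I)) (hZ : ∀ j, IsClosed (Z j : Set (L2 I)))
    (iZ : ∀ j, D.Inv (Z j)) (Z0 : Submodule ℂ (L2 I))
    (h : ∀ a : ℕ, a + 2 < k → ∀ f : Fin k → L2 I, (∀ j, f j ∈ Z j) →
      (∀ b, a < b → b < k → ∑ j, T j ^ b • f j = 0) → ∑ j, T j ^ a • f j ∈ Z0) :
    ∑ j, D.dm (Z j) ≤ 2 * D.dm ⊤ + k * D.dm Z0 := by
  let G : ℕ → L2 (Fin k × I) →L[ℂ] L2 I := fun a => ∑ j, T j ^ a • slice j
  have hG : ∀ a f, G a f = ∑ j, T j ^ a • slice j f := by
    intro a f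
    show (∑ j, T j ^ a • slice j) f = _
    rw [_root_.sum_apply]
    rfl
  have eG : ∀ a, Eqv (D.pow k) D (G a) := by
    intro a q f
    rw [hG, hG, map_sum]
    refine Finset.sum_congr rfl fun j _ => ?_
    rw [eqv_slice D j q f, map_smul]
  let P : ℕ → Submodule ℂ (L2 (Fin k × I)) := fun m =>
    fam Z ⊓ ⨅ b : {b : ℕ // m ≤ b ∧ b < k}, LinearMap.ker (G b : L2 (Fin k × I) →ₗ[ℂ] L2 I)
  have mP : ∀ m f, f ∈ P m ↔ (∀ j, slice j f ∈ Z j) ∧ ∀ b, m ≤ b → b < k → G b f = 0 := by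
    intro m f
    show f ∈ fam Z ⊓ _ ↔ _
    rw [Submodule.mem_inf, mem_fam, Submodule.mem_iInf]
    refine and_congr_right fun _ => ?_
    constructor
    · intro h1 b hb hb'
      exact h1 ⟨b, hb, hb'⟩
    · intro h1 b
      exact h1 b.1 b.2.1 b.2.2
  have cP : ∀ m, IsClosed (P m : Set (L2 (Fin k × I))) := by
    intro m
    show IsClosed ((fam Z ⊓ _ : Submodule ℂ (L2 (Fin k × I))) : Set (L2 (Fin k × I)))
    rw [Submodule.coe_inf, Submodule.coe_iInf]
    exact (isClosed_fam hZ).inter (isClosed_iInter fun b => (G b).isClosed_ker)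
  have iP : ∀ m, (D.pow k).Inv (P m) := by
    intro m q f
    rw [mP, mP]
    refine and_congr ?_ ?_
    · have := inv_fam D iZ q f
      rwa [mem_fam, mem_fam] at this
    · refine forall_congr' fun b => forall_congr' fun _ => forall_congr' fun _ => ?_
      rw [eG b q f, map_eq_zero_iff _ (D.U q).injective]
  have hstep : ∀ m, m < k → (D.pow k).dm (P (m + 1)) ≤
      (D.pow k).dm (P m) + (if m + 2 < k then D.dm Z0 else D.dm ⊤) := by
    intro m hm
    have h1 := dm_rank (D.pow k) D (cP (m + 1)) (iP (m + 1)) (G m) (eG m)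
    have h2 : P (m + 1) ⊓ LinearMap.ker (G m : L2 (Fin k × I) →ₗ[ℂ] L2 I) = P m := by
      ext f
      rw [Submodule.mem_inf, mP, mP, LinearMap.mem_ker]
      constructor
      · rintro ⟨⟨h3, h4⟩, h5⟩
        refine ⟨h3, fun b hb hb' => ?_⟩
        rcases hb.eq_or_lt with rfl | hlt
        · exact h5
        · exact h4 b hlt hb'
      · rintro ⟨h3, h4⟩
        exact ⟨⟨h3, fun b hb hb' => h4 b (by omega) hb'⟩, h4 m le_rfl hm⟩
    rw [h2] at h1
    rw [h1]
    refine add_le_add le_rfl ?_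
    split_ifs with hk
    · refine dm_mono D ?_
      rintro y ⟨f, hf, rfl⟩
      have hf' := (mP _ _).1 hf
      show G m f ∈ Z0
      rw [hG]
      refine h m hk (fun j => slice j f) hf'.1 fun b hb hb' => ?_
      rw [← hG]
      exact hf'.2 b hb hb'
    · exact dm_mono D le_top
  have hP0 : P 0 = ⊥ := by
    rw [eq_bot_iff]
    intro f hf
    have hf' := (mP _ _).1 hf
    rw [Submodule.mem_bot]
    apply slice_ext
    intro j
    rw [map_zero]
    ext s
    have h1 : ∀ b : Fin k, ∑ j, (Matrix.vandermonde T) j b * (slice j f s) = 0 := by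
      intro b
      have h2 := hf'.2 b (Nat.zero_le _) b.2
      rw [hG] at h2
      have h3 := congrArg (fun g : L2 I => g s) h2
      have h4 : (∑ j, T j ^ (b : ℕ) • slice j f : L2 I) s = ∑ j, T j ^ (b : ℕ) * slice j f s := by
        rw [← inner_ee, inner_sum]
        refine Finset.sum_congr rfl fun j _ => ?_
        rw [inner_ee]
        rfl
      have h5 : (∑ j, T j ^ (b : ℕ) • slice j f : L2 I) s = 0 := h3
      rw [h4] at h5
      simpa [Matrix.vandermonde_apply] using h5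
    have h2 : Matrix.vecMul (fun j => slice j f s) (Matrix.vandermonde T) = 0 := by
      funext b
      rw [Matrix.vecMul, dotProduct]
      rw [Pi.zero_apply, ← h1 b]
      exact Finset.sum_congr rfl fun j _ => mul_comm _ _
    have h3 := Matrix.eq_zero_of_vecMul_eq_zero (Matrix.det_vandermonde_ne_zero_iff.2 hT) h2
    exact congrFun h3 j
  have hbound : ∀ m, m ≤ k → (D.pow k).dm (P m) ≤
      ∑ a ∈ range m, (if a + 2 < k then D.dm Z0 else D.dm ⊤) := by
    intro m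
    induction m with
    | zero =>
      intro _
      rw [hP0, dm_bot, Finset.range_zero, Finset.sum_empty]
    | succ m ih =>
      intro hm
      rw [Finset.sum_range_succ]
      exact (hstep m hm).trans (add_le_add (ih (by omega)) le_rfl)
  have hPk : P k = fam Z := by
    ext f
    rw [mP, mem_fam]
    refine ⟨fun h1 => h1.1, fun h1 => ⟨h1, fun b hb hb' => absurd hb' (by omega)⟩⟩
  rw [← dm_fam D hZ, ← hPk]
  refine (hbound k le_rfl).trans ?_
  have n0 := dm_nonneg D Z0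
  have n1 := dm_nonneg D ⊤
  have h5 : ∑ a ∈ range k, (if a + 2 < k then D.dm Z0 else D.dm ⊤) ≤
      ∑ a ∈ range k, (D.dm Z0 + (if a + 2 < k then 0 else D.dm ⊤)) := by
    refine Finset.sum_le_sum fun a _ => ?_
    split_ifs <;> linarith
  refine h5.trans ?_
  have h6 : ∑ a ∈ range k, (if a + 2 < k then (0 : ℝ) else D.dm ⊤) ≤ 2 * D.dm ⊤ := by
    have h7 : ∑ a ∈ range k, (if a + 2 < k then (0 : ℝ) else D.dm ⊤) =
        ((range k).filter fun a => ¬ a + 2 < k).card * D.dm ⊤ := by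
      rw [← nsmul_eq_mul, ← Finset.sum_const, Finset.sum_filter]
      refine Finset.sum_congr rfl fun a _ => ?_
      by_cases ha : a + 2 < k
      · rw [if_pos ha, if_neg (not_not.2 ha)]
      · rw [if_neg ha, if_pos ha]
    have h8 : ((range k).filter fun a => ¬ a + 2 < k).card ≤ 2 := by
      have h9 : (range k).filter (fun a => ¬ a + 2 < k) ⊆ {k - 1, k - 2} := by
        intro a ha
        rw [Finset.mem_filter, Finset.mem_range] at ha
        rw [Finset.mem_insert, Finset.mem_singleton]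
        omega
      exact (Finset.card_le_card h9).trans Finset.card_le_two
    rw [h7]
    have h10 : (((range k).filter fun a => ¬ a + 2 < k).card : ℝ) ≤ 2 := by exact_mod_cast h8
    exact mul_le_mul_of_nonneg_right h10 n1
  rw [Finset.sum_add_distrib, Finset.sum_const, card_range, nsmul_eq_mul]
  linarith

end Pool.Agent.H19.LI

end

section

/-!
# Project LI: the local-to-global theorem for CAT(0) cube complexes
-/

set_option autoImplicit false

open Finset

namespace Pool.Agent.H19.LI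

open Pool.Agent.H19.Cub Pool.Agent.H4.Singer

variable {V X : Type} [DecidableEq V] {C : CubeComplex V X} {Γ G : Type} [Group Γ]
  [MulAction Γ V] [MulAction Γ X] [Group G]

/-- boundaries -/
noncomputable def By (D : GD C Γ G) (d : L2 (Jx C × G) →L[ℂ] L2 (Jx C × G)) (T : ℂ) (i : ℕ) :
    Submodule ℂ (L2 (Jx C × G)) :=
  (Ch D T (i + 1)).map (d : L2 (Jx C × G) →ₗ[ℂ] L2 (Jx C × G))

theorem isClosed_Zy (D : GD C Γ G) (d : L2 (Jx C × G) →L[ℂ] L2 (Jx C × G)) (T : ℂ) (i : ℕ) :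
    IsClosed (Zy D d T i : Set (L2 (Jx C × G))) :=
  (isClosed_Ch D T i).inter (ContinuousLinearMap.isClosed_ker d)

section

variable (D : GD C Γ G) (hΓ : IsGeom Γ C) (K : Cut Γ X) (ν : V → ℕ) (hν : Function.Injective ν)
  (d : L2 (Jx C × G) →L[ℂ] L2 (Jx C × G)) (hd : IsBd ν d)

include hν hd

theorem inv_Zy (T : ℂ) (i : ℕ) : (dimD D hΓ K ν).Inv (Zy D d T i) :=
  inv_inf _ (inv_Ch D hΓ K ν T i) (inv_ker _ _ d (eqv_bd D hΓ K ν hν d hd))

theorem inv_By (T : ℂ) (i : ℕ) : (dimD D hΓ K ν).Inv (By D d T i) :=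
  inv_map _ _ (inv_Ch D hΓ K ν T (i + 1)) d (eqv_bd D hΓ K ν hν d hd)

/-- the dimension of the homology -/
theorem dm_hom (T : ℂ) (i : ℕ) :
    (dimD D hΓ K ν).dm (Zy D d T i ⊓ (By D d T i)ᗮ) =
      (dimD D hΓ K ν).dm (Zy D d T i) + (dimD D hΓ K ν).dm (Zy D d T (i + 1)) -
        (dimD D hΓ K ν).dm (Ch D T (i + 1)) := by
  have h1 : By D d T i ≤ Zy D d T i := by
    rintro _ ⟨f, hf, rfl⟩
    exact ⟨bd_mem D ν d hd T i f hf, bd_bd ν hν d hd f⟩
  have h2 : (By D d T i).topologicalClosure ≤ Zy D d T i :=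
    Submodule.topologicalClosure_minimal _ h1 (isClosed_Zy D d T i)
  have h3 := dm_add (dimD D hΓ K ν) (Submodule.isClosed_topologicalClosure _)
    (isClosed_Zy D d T i) h2
  have h4 := dm_rank (dimD D hΓ K ν) (dimD D hΓ K ν) (isClosed_Ch D T (i + 1))
    (inv_Ch D hΓ K ν T (i + 1)) d (eqv_bd D hΓ K ν hν d hd)
  rw [dm_closure, Submodule.orthogonal_closure] at h3
  have h5 : (dimD D hΓ K ν).dm (Ch D T (i + 1)) =
      (dimD D hΓ K ν).dm (Zy D d T (i + 1)) + (dimD D hΓ K ν).dm (By D d T i) := h4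
  linarith

/-- The dimensions of the homology groups for different parameters of absolute value 1 are bounded on
average. -/
theorem dm_sum (i : ℕ) (h : ∀ x, Pool.Agent.H4.Singer.L2HomologyZero (lk C x) i) {k : ℕ}
    (T : Fin k → ℂ) (hT : Function.Injective T) (hT1 : ∀ j, ‖T j‖ = 1) :
    ∑ j, (dimD D hΓ K ν).dm (Zy D d (T j) i ⊓ (By D d (T j) i)ᗮ) ≤
      4 * (dimD D hΓ K ν).dm ⊤ := by
  have h0 : Zy D d 0 i ⊓ (By D d 0 i)ᗮ = ⊥ := by
    rw [Submodule.eq_bot_iff]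
    rintro f ⟨⟨h1, h2⟩, h3⟩
    refine star_end D ν hν i h d hd f h1 h2 fun y hy => ?_
    exact h3 _ ⟨y, hy, rfl⟩
  have h1 := dm_hom D hΓ K ν hν d hd 0 i
  rw [h0, dm_bot] at h1
  have h2 : ∀ l, ∑ j, (dimD D hΓ K ν).dm (Zy D d (T j) l) ≤
      2 * (dimD D hΓ K ν).dm ⊤ + k * (dimD D hΓ K ν).dm (Zy D d 0 l) := fun l =>
    semicont (dimD D hΓ K ν) T hT (fun j => Zy D d (T j) l) (fun j => isClosed_Zy D d (T j) l)
      (fun j => inv_Zy D hΓ K ν hν d hd (T j) l) (Zy D d 0 l)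
      fun a ha f hf hf0 => semi_mem D d l T a ha f hf hf0
  have h3 : ∑ j, (dimD D hΓ K ν).dm (Zy D d (T j) i ⊓ (By D d (T j) i)ᗮ) =
      ∑ j, (dimD D hΓ K ν).dm (Zy D d (T j) i) +
        ∑ j, (dimD D hΓ K ν).dm (Zy D d (T j) (i + 1)) -
          k * (dimD D hΓ K ν).dm (Ch D 0 (i + 1)) := by
    have e : (k : ℝ) * (dimD D hΓ K ν).dm (Ch D 0 (i + 1)) =
        ∑ _j : Fin k, (dimD D hΓ K ν).dm (Ch D 0 (i + 1)) := by
      rw [sum_const, Finset.card_univ, Fintype.card_fin, nsmul_eq_mul]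
    rw [e, ← sum_add_distrib, ← sum_sub_distrib]
    refine sum_congr rfl fun j _ => ?_
    rw [dm_hom D hΓ K ν hν d hd (T j) i, dm_Ch D hΓ K ν (T j) (hT1 j)]
  have h4 := h2 i
  have h5 := h2 (i + 1)
  have h6 : (k : ℝ) * ((dimD D hΓ K ν).dm (Zy D d 0 i) + (dimD D hΓ K ν).dm (Zy D d 0 (i + 1)) -
      (dimD D hΓ K ν).dm (Ch D 0 (i + 1))) = 0 := by
    rw [← h1, mul_zero]
  linarith

end

/-- There are `k` different complex numbers of absolute value 1. -/
theorem exists_T (k : ℕ) : ∃ T : Fin k → ℂ, Function.Injective T ∧ ∀ j, ‖T j‖ = 1 := by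
  rcases Nat.eq_zero_or_pos k with rfl | hk
  · exact ⟨fun j => 1, fun a => a.elim0, fun a => a.elim0⟩
  · have h := Complex.isPrimitiveRoot_exp k hk.ne'
    refine ⟨fun j => Complex.exp (2 * Real.pi * Complex.I / k) ^ (j : ℕ), fun a b hab => ?_,
      fun j => ?_⟩
    · exact Fin.ext (h.pow_inj a.2 b.2 hab)
    · rw [norm_pow, h.norm'_eq_one hk.ne', one_pow]

/-- **The local-to-global theorem for CAT(0) cube complexes.** Let the group `Γ` act properly and
cocompactly on the CAT(0) cube complex `C`. If the reduced `ℓ²`-homology of the Davis complexes of the right-angled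
Coxeter groups of the links of all vertices vanishes in degree `i`, then so does the reduced
`ℓ²`-homology of `C`. -/
theorem local_global_cat0 (hC : IsCAT0 C) (hΓ : IsGeom Γ C) (i : ℕ)
    (h : ∀ x, Pool.Agent.H4.Singer.L2HomologyZero (lk C x) i) : L2Zero C i := by
  obtain ⟨N, hN⟩ := exists_card hΓ
  obtain ⟨K⟩ := exists_cut hΓ
  obtain ⟨G, _, ⟨D⟩⟩ := exists_GD hΓ
  refine l2zero_of_harm C N hN i fun ν hν f hf hz ho => ?_
  obtain ⟨d, hd⟩ := exists_bd C G ν N hN
  by_contra hne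
  obtain ⟨σ₁, x₁, hf1⟩ : ∃ σ x, f σ x ≠ 0 := by
    by_contra hcon
    push Not at hcon
    exact hne (funext fun σ => funext fun x => hcon σ x)
  have hσ₁ : σ₁ ⊆ C.lab x₁ := (hf.supp σ₁ x₁ hf1).1
  -- a translate with positive weight
  obtain ⟨γ, hγ⟩ : ∃ γ : Γ, K.c (γ • x₁) ≠ 0 := by
    by_contra hcon
    push Not at hcon
    have h1 := K.sum x₁
    simp only [hcon] at h1
    exact zero_ne_one (hasSum_zero.unique h1)
  have hγ0 : 0 < K.c (γ • x₁) := lt_of_le_of_ne (K.nonneg _) (Ne.symm hγ)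
  obtain ⟨S, hS⟩ : ∃ S, S = ∑' p : Finset V × X, ‖f p.1 p.2‖ ^ 2 := ⟨_, rfl⟩
  have hS0 : 0 < S := by
    rw [hS]
    refine hf.l2.tsum_pos (fun _ => by positivity) (σ₁, x₁) ?_
    have := norm_pos_iff.2 hf1
    positivity
  obtain ⟨δ, hδ⟩ : ∃ δ, δ = K.c (γ • x₁) * ‖f σ₁ x₁‖ ^ 2 / (2 * S) := ⟨_, rfl⟩
  have hδ0 : 0 < δ := by
    have := norm_pos_iff.2 hf1
    rw [hδ]
    positivity
  -- the lower bound
  have key : ∀ T : ℂ, ‖T‖ = 1 →
      δ ≤ (dimD D hΓ K ν).dm (Zy D d T i ⊓ (By D d T i)ᗮ) := by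
    intro T hT
    obtain ⟨F, hF, hdF, hoF, hnF, hF1⟩ := cover_end hC D ν T hT i d hd N hN f hf hz ho σ₁ x₁
    have hm : F ∈ Zy D d T i ⊓ (By D d T i)ᗮ := by
      refine ⟨⟨hF, hdF⟩, ?_⟩
      rintro _ ⟨y, hy, rfl⟩
      exact hoF y hy
    have hinv := inv_inf _ (inv_Zy D hΓ K ν hν d hd T i) (inv_orth _ (inv_By D hΓ K ν hν d hd T i))
    have hm' := (hinv (γ, D.j γ) F).1 hm
    have h1 := dm_lower (dimD D hΓ K ν) _ hm'
      ((dimD D hΓ K ν).a (γ, D.j γ) (⟨(σ₁, x₁), hσ₁⟩, 1))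
    rw [Dm.U_smul, norm_mul, norm_sgn ((dimD D hΓ K ν).sg_sq _ _), one_mul,
      LinearIsometryEquiv.norm_map, hnF, ← hS] at h1
    have h2 : F (⟨(σ₁, x₁), hσ₁⟩, 1) = f σ₁ x₁ := by
      rw [← hF1, ev_pos F hσ₁]
    have h3 : (dimD D hΓ K ν).c ((dimD D hΓ K ν).a (γ, D.j γ) (⟨(σ₁, x₁), hσ₁⟩, 1)) =
        K.c (γ • x₁) := by
      show cI C G K (permJ hΓ γ ⟨(σ₁, x₁), hσ₁⟩, D.j γ * 1 * (D.j γ)⁻¹) = _
      unfold cI
      rw [if_pos (by rw [mul_one, mul_inv_cancel])]
      rfl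
    rw [h2, h3] at h1
    rw [hδ, div_le_iff₀ (by positivity)]
    linarith
  -- the contradiction
  obtain ⟨k, hk⟩ := exists_nat_gt (4 * (dimD D hΓ K ν).dm ⊤ / δ)
  obtain ⟨T, hT, hT1⟩ := exists_T k
  have h1 := dm_sum D hΓ K ν hν d hd i h T hT hT1
  have h2 : (k : ℝ) * δ ≤ ∑ j, (dimD D hΓ K ν).dm (Zy D d (T j) i ⊓ (By D d (T j) i)ᗮ) := by
    calc (k : ℝ) * δ = ∑ _j : Fin k, δ := by
          rw [sum_const, Finset.card_univ, Fintype.card_fin, nsmul_eq_mul]
      _ ≤ _ := sum_le_sum fun j _ => key (T j) (hT1 j)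
  rw [div_lt_iff₀ hδ0] at hk
  linarith

end Pool.Agent.H19.LI

end
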