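import Pool.Agent.H71.TSG.M23
import Pool.Agent.H71.TSG.M30
import Pool.Agent.H71.TSG.M34

/-! The parts of this file: H73.LK.Zero, H73.LK.Bridge, H73.LK.PDL, H85.Fold4.Nice, S10.LvlQ, S10.Eff. -/

section

/-!
# Degree zero

An infinite Coxeter group has no reduced `ℓ²`-homology in degree 0: a harmonic function is invariant under all
generators, hence constant.
-/

set_option autoImplicit false
set_option linter.unusedSectionVars false

open Finset

namespace Pool.Agent.H73.LK

open Pool.Agent.H4.FC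

variable {V : Type} [Fintype V] [DecidableEq V] {M : CoxeterMatrix V}

/-- a harmonic chain in degree 0 is invariant under the generators -/
private theorem zero_inv {ν : V → ℕ} {x : Finset V → M.Group → ℂ} (hx : IsHarmL M ν 0 x) (u : V)
    (w : M.Group) : x ∅ (w * M.simple u) = x ∅ w := by
  classical
  have hpar : ∀ g, g ∈ par M ({u} : Finset V) ↔ g = 1 ∨ g = M.simple u := by
    intro g
    constructor
    · revert g
      refine par_induction M {u} (Or.inl rfl) ?_
      intro v hv w ih
      rw [mem_singleton.1 hv]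
      rcases ih with h | h
      · right
        rw [h, mul_one]
      · left
        rw [h, simple_sq]
    · rintro (h | h)
      · rw [h]
        exact one_mem _
      · rw [h]
        exact simple_mem_par M (mem_singleton_self u)
  have hs : Sph M ({u} : Finset V) := by
    show Finite (par M ({u} : Finset V))
    refine Set.Finite.to_subtype (Set.Finite.subset (Set.toFinite {1, M.simple u}) fun g hg => ?_)
    exact (hpar g).1 hg
  have hne : (1 : M.Group) ≠ M.simple u := by
    intro h
    have h1 := eps_simple M u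
    rw [← h, map_one] at h1
    norm_num at h1
  have hF : parF M ({u} : Finset V) = {1, M.simple u} := by
    ext g
    rw [mem_parF hs, hpar, mem_insert, mem_singleton]
  have h := hx.cocyc {u} w hs (card_singleton u)
  rw [sum_singleton] at h
  have e : ({u} : Finset V).erase u = ∅ := by simp
  rw [e, filter_empty, card_empty, pow_zero, one_mul] at h
  unfold altS at h
  rw [hF, sum_insert (by simpa using hne), sum_singleton, map_one, eps_simple] at h
  simp only [MonoidHom.id_apply, mul_one, Int.cast_one, one_mul, Int.cast_neg, neg_mul] at h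
  exact (sub_eq_zero.1 (by rw [sub_eq_add_neg]; exact h)).symm

/-- **Degree zero.** -/
theorem l2_infinite (h : Infinite M.Group) : Pool.Agent.H4.FC.L2HomologyZero M 0 := by
  intro ν hν z hz hdz ε hε
  refine l2_hodgeL M ν hν 0 (fun x hx => ?_) z hz hdz ε hε
  have hconst : ∀ w : M.Group, x ∅ w = x ∅ 1 := by
    intro w
    induction w using M.toCoxeterSystem.simple_induction_right with
    | one => rfl
    | mul_simple_right w i ih =>
      have e1 : M.toCoxeterSystem.simple i = M.simple i := by rw [M.toCoxeterSystem_simple]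
      rw [e1, zero_inv hx i, ih]
  funext σ w
  show x σ w = 0
  by_contra hne
  obtain ⟨-, hc⟩ := hx.chain.supp σ w hne
  rw [card_eq_zero] at hc
  subst hc
  have hsum : Summable fun _ : M.Group => ‖x ∅ (1 : M.Group)‖ ^ 2 := by
    have h1 := hx.chain.l2 ∅
    have h2 : (fun w => ‖x ∅ w‖ ^ 2) = fun _ : M.Group => ‖x ∅ (1 : M.Group)‖ ^ 2 :=
      funext fun w => by rw [hconst w]
    rw [h2] at h1
    exact h1
  have h0 := (summable_const_iff _).1 hsum
  refine hne ?_
  rw [hconst w]
  exact norm_eq_zero.1 (by nlinarith [norm_nonneg (x ∅ (1 : M.Group))])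

end Pool.Agent.H73.LK

end

section

/-!
# Right-angled Coxeter groups as Coxeter groups
-/

set_option autoImplicit false
set_option linter.unusedSectionVars false

open Finset

namespace Pool.Agent.H73.LK

open Pool.Agent.H4.Singer Pool.Agent.H85.Fold

variable {V : Type}

theorem racg_apply (G : SimpleGraph V) (u v : V) [Decidable (u = v)] [Decidable (G.Adj u v)] :
    racg G u v = if u = v then 1 else if G.Adj u v then 2 else 0 := by
  show (Matrix.of fun u v => _) u v = _
  simp only [Matrix.of_apply]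
  congr

theorem gr_racg (G : SimpleGraph V) : Pool.Agent.H4.FC.gr (racg G) = G := by
  classical
  ext u v
  show (u ≠ v ∧ racg G u v ≠ 0) ↔ _
  rw [racg_apply]
  constructor
  · rintro ⟨h1, h2⟩
    rw [if_neg h1] at h2
    by_contra h3
    rw [if_neg h3] at h2
    exact h2 rfl
  · intro h
    refine ⟨h.ne, ?_⟩
    rw [if_neg h.ne, if_pos h]
    norm_num

variable [Fintype V] [DecidableEq V]

theorem isDih_racg (G : SimpleGraph V) : Pool.Agent.H4.FC.IsDih (racg G) := by
  classical
  intro u v w huv _ _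
  left
  rw [racg_apply, if_neg huv.1, if_pos]
  rw [gr_racg] at huv
  exact huv

theorem sph_racg (G : SimpleGraph V) (σ : Finset V) :
    Pool.Agent.H4.FC.Sph (racg G) σ ↔ G.IsClique (σ : Set V) := by
  rw [Pool.Agent.H4.FC.sph_iff (racg G) (isDih_racg G), gr_racg]
  exact ⟨fun h _ ha _ hb => h _ (Finset.mem_coe.1 ha) _ (Finset.mem_coe.1 hb),
    fun h _ ha _ hb => h (Finset.mem_coe.2 ha) (Finset.mem_coe.2 hb)⟩

theorem chain_iff (G : SimpleGraph V) (i : ℕ) (f : Finset V → RGrp G → ℂ) :
    Pool.Agent.H4.FC.IsL2Chain (racg G) i f ↔ IsL2Chain G i f := by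
  constructor
  · intro h
    exact ⟨fun σ w hw => ⟨(sph_racg G σ).1 (h.supp σ w hw).1, (h.supp σ w hw).2⟩, h.anti, h.l2⟩
  · intro h
    exact ⟨fun σ w hw => ⟨(sph_racg G σ).2 (h.supp σ w hw).1, (h.supp σ w hw).2⟩, h.anti, h.l2⟩

/-- **The two complexes of a right-angled Coxeter group agree.** -/
theorem l2_racg (G : SimpleGraph V) (i : ℕ) :
    Pool.Agent.H4.FC.L2HomologyZero (racg G) i ↔ L2HomologyZero G i := by
  constructor
  · intro h ν hν z hz hd ε hε
    obtain ⟨y, hy, hy2⟩ := h ν hν z ((chain_iff G i z).2 hz) hd ε hε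
    exact ⟨y, (chain_iff G (i + 1) y).1 hy, hy2⟩
  · intro h ν hν z hz hd ε hε
    obtain ⟨y, hy, hy2⟩ := h ν hν z ((chain_iff G i z).1 hz) hd ε hε
    exact ⟨y, (chain_iff G (i + 1) y).2 hy, hy2⟩

end Pool.Agent.H73.LK

end

section

/-!
# Poincaré duality for the reduced `ℓ²`-homology of Coxeter groups of FC type

`pd`: if the nerve of the Coxeter group of FC type `W` of `M` is a real homology sphere of dimension `n - 1` and
the reduced `ℓ²`-homology of the Davis complex vanishes in degree `j`, then it vanishes in degree `n - j`.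
The proof is the one of `Pool.Agent.H19.PD.l2_dual`; the columns of the double complex are exact by
`Pool.Agent.H19.PL.colL`.
-/

set_option autoImplicit false
set_option linter.unusedSectionVars false

open Finset

namespace Pool.Agent.H73.LK

open Pool.Agent.H85.Fold Pool.Agent.H4.FC Pool.Agent.H19.PL Pool.Agent.H19.PD Pool.Agent.H4.Singer

variable {V : Type} [DecidableEq V] [Fintype V] {M : CoxeterMatrix V}

/-- square summable functions on the group -/
private abbrev LM (M : CoxeterMatrix V) : Type := lp (fun _ : M.Group => ℂ) 2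

private theorem pd_mem (g : M.Group) (f : LM M) :
    Memℓp (E := fun _ : M.Group => ℂ) (fun w => f (w * g)) 2 := by
  rw [l2h_mem_iff]
  exact ((Equiv.mulRight g).summable_iff (f := fun w => ‖f w‖ ^ 2)).2
    ((l2h_mem_iff _).1 (lp.memℓp f))

/-- right translations -/
private noncomputable def RT (M : CoxeterMatrix V) : M.Group →* Module.End ℝ (LM M) where
  toFun g :=
    { toFun := fun f => ⟨fun w => f (w * g), pd_mem g f⟩
      map_add' := fun f f' => by
        ext w
        rfl
      map_smul' := fun r f => by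
        ext w
        rfl }
  map_one' := by
    ext f w
    show f (w * 1) = f w
    rw [mul_one]
  map_mul' g h := by
    ext f w
    show f (w * (g * h)) = f (w * g * h)
    rw [mul_assoc]

private theorem RT_apply (g : M.Group) (f : LM M) (w : M.Group) : (RT M g f) w = f (w * g) := rfl

private theorem RT_inner (v : V) (f g : LM M) :
    inner ℝ (RT M (M.simple v) f) g = inner ℝ f (RT M (M.simple v) g) := by
  rw [lp.inner_eq_tsum, lp.inner_eq_tsum]
  rw [← (Equiv.mulRight (M.simple v)).tsum_eq]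
  refine tsum_congr fun w => ?_
  rw [RT_apply, RT_apply, Equiv.coe_mulRight, mul_assoc, simple_sq, mul_one]

private theorem pd_symU : SymU (RT M) (innerₗ (LM M)) := by
  intro v x y
  simp only [innerₗ_apply_apply]
  exact RT_inner v x y

/-- the sign of an element -/
private noncomputable def sx (M : CoxeterMatrix V) (w : M.Group) : ℂ := ((eps M w : ℤ) : ℂ)

private theorem sx_mul (w : M.Group) (v : V) : sx M (w * M.simple v) = - sx M w := by
  unfold sx
  rw [map_mul, eps_simple]
  push_cast
  ring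

private theorem sx_sq (w : M.Group) : sx M w * sx M w = 1 := by
  unfold sx
  exact_mod_cast eps_mul_self M w

private theorem sx_norm (w : M.Group) : ‖sx M w‖ = 1 := by
  have h1 := congrArg norm (sx_sq (M := M) w)
  rw [norm_mul, norm_one] at h1
  nlinarith [norm_nonneg (sx M w)]

private theorem lm_sum {ι : Type} (s : Finset ι) (f : ι → LM M) (w : M.Group) :
    (∑ v ∈ s, f v) w = ∑ v ∈ s, (f v) w := by
  rw [← l2hEv_apply w, map_sum]
  rfl

/-- the boundary of chains with values in the functions -/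
private theorem pd_bd (ν : V → ℕ) (c : Finset V → LM M) (τ : Finset V) (w : M.Group) :
    (bd ν c τ) w = ∑ v ∈ τᶜ, (-1 : ℂ) ^ (τ.filter fun u => ν u < ν v).card *
      (c (insert v τ)) w := by
  have h1 : bd ν c τ = ∑ v ∈ τᶜ, sgn ν v τ • c (insert v τ) := rfl
  rw [h1, lm_sum]
  refine sum_congr rfl fun v _ => ?_
  have h3 : (sgn ν v τ • c (insert v τ)) w = sgn ν v τ • (c (insert v τ)) w := rfl
  rw [h3]
  unfold sgn
  rw [Complex.real_smul]
  push_cast
  rfl

/-- the antisymmetrization -/
private theorem pd_PS (ρ : Finset V) (f : LM M) (w : M.Group) :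
    (PS (RT M) ρ f) w = (1 / ((parF M ρ).card : ℂ)) *
      altS M (MonoidHom.id M.Group) ρ (fun w => f w) w := by
  rw [PS_apply]
  have h1 : ((1 / ((parF M ρ).card : ℝ)) • ∑ u ∈ parF M ρ, er M u • RT M u f : LM M) w =
      (1 / ((parF M ρ).card : ℝ)) • ((∑ u ∈ parF M ρ, er M u • RT M u f : LM M) w) := rfl
  rw [h1, lm_sum, Complex.real_smul]
  unfold altS
  have h3 : ∑ u ∈ parF M ρ, (er M u • RT M u f : LM M) w =
      ∑ u ∈ parF M ρ, (eps M u : ℂ) * f (w * (MonoidHom.id M.Group) u) := by
    refine sum_congr rfl fun u _ => ?_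
    have h2 : (er M u • RT M u f : LM M) w = er M u • (f (w * u)) := rfl
    rw [h2, Complex.real_smul]
    unfold er
    push_cast
    rfl
  rw [h3]
  push_cast
  rfl

/-- **Poincaré duality.** -/
theorem pd (hM : Pool.Agent.H4.FD.IsFC M) {n i j : ℕ} (hS : IsHomologySphere (gr M) n)
    (hij : i + j = n) (h : Pool.Agent.H4.FC.L2HomologyZero M j) :
    Pool.Agent.H4.FC.L2HomologyZero M i := by
  classical
  intro ν hν z hz hdz ε hε
  refine l2_hodgeL M ν hν i (fun x0 hx0 => ?_) z hz hdz ε hε
  obtain ⟨o, ho⟩ := hS.isSphere ν hν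
  have hin : i ≤ n := by omega
  -- the chain with values in the functions
  obtain ⟨c, hcv⟩ : ∃ c : Finset V → LM M, ∀ σ w, (c σ) w = x0 σ w :=
    ⟨fun σ => ⟨x0 σ, (l2h_mem_iff _).2 (hx0.chain.l2 σ)⟩, fun _ _ => rfl⟩
  have hc : IsF (gr M) (eU (RT M)) ⊤ univ i c := by
    refine ⟨fun _ => Submodule.mem_top, fun σ v hv => ?_, fun σ hσ => ?_⟩
    · rw [eU_zero]
      ext w
      rw [RT_apply, hcv, hx0.chain.anti σ v hv w, ← hcv]
      rfl
    · obtain ⟨w, hw⟩ : ∃ w, (c σ) w ≠ 0 := by
        by_contra hcon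
        push Not at hcon
        exact hσ (by
          ext w
          exact hcon w)
      rw [hcv] at hw
      obtain ⟨h1, h2⟩ := hx0.chain.supp σ w hw
      exact ⟨subset_univ _, sph_cl M σ h1, h2⟩
  have hbd : bd ν c = 0 := by
    funext τ
    ext w
    rw [pd_bd]
    have h1 := congrFun (congrFun hx0.cyc τ) w
    unfold Pool.Agent.H4.FC.dbd at h1
    simp only [hcv]
    exact h1
  have hco : ∀ ρ, Cl (gr M) ρ → ρ.card = i + 1 →
      ∑ v ∈ ρ, sgn ν v ρ • PS (RT M) ρ (c (ρ.erase v)) = 0 := by
    intro ρ h1 h2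
    ext w
    rw [lm_sum]
    have h4 := hx0.cocyc ρ w (hM ρ h1) h2
    have h5 : ∀ v ∈ ρ, (sgn ν v ρ • PS (RT M) ρ (c (ρ.erase v)) : LM M) w =
        (1 / ((parF M ρ).card : ℂ)) * ((-1) ^ ((ρ.erase v).filter fun u => ν u < ν v).card *
          altS M (MonoidHom.id M.Group) ρ (x0 (ρ.erase v)) w) := by
      intro v hv
      have h6 : (sgn ν v ρ • PS (RT M) ρ (c (ρ.erase v)) : LM M) w =
          sgn ν v ρ • ((PS (RT M) ρ (c (ρ.erase v)) : LM M) w) := rfl
      have h7 : (fun w => (c (ρ.erase v)) w) = x0 (ρ.erase v) := funext fun w => hcv _ w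
      rw [h6, pd_PS, h7, ← sgn_erase_self]
      unfold sgn
      rw [Complex.real_smul]
      push_cast
      ring
    rw [sum_congr rfl h5, ← mul_sum, h4, mul_zero]
    rfl
  obtain ⟨x, hx⟩ := exists_res hν ho hc hbd
  obtain ⟨f, hf, hbf, hpr⟩ := zigL hM pd_symU hν ho hin hc hco hx
  -- the pairing vanishes
  have hpr0 : pr (innerₗ (LM M)) x f = 0 := by
    -- the twisted chain
    have hz1 : Pool.Agent.H4.FC.IsL2Chain M j (fun σ w => sx M w * (f σ) w) := by
      refine ⟨fun σ w hne => ?_, fun σ v hv w => ?_, fun σ => ?_⟩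
      · have h1 : f σ ≠ 0 := by
          intro h2
          apply hne
          show sx M w * (f σ) w = 0
          rw [h2]
          exact mul_zero _
        obtain ⟨-, h2, h3⟩ := hf.supp σ h1
        exact ⟨hM σ h2, by omega⟩
      · show sx M (w * M.simple v) * (f σ) (w * M.simple v) = -(sx M w * (f σ) w)
        have h1 := fU_zero.1 (hf.ker σ v hv)
        have h2 : (f σ) (w * M.simple v) = (f σ) w := by
          rw [← RT_apply, h1]
        rw [sx_mul, h2, neg_mul]
      · have h1 : (fun w => ‖sx M w * (f σ) w‖ ^ 2) = fun w => ‖(f σ) w‖ ^ 2 := by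
          funext w
          rw [norm_mul, sx_norm, one_mul]
        rw [h1]
        exact (l2h_mem_iff _).1 (lp.memℓp (f σ))
    have hz2 : Pool.Agent.H4.FC.dbd ν (fun σ w => sx M w * (f σ) w) = 0 := by
      funext τ w
      have h1 : (bd ν f τ) w = 0 := by
        rw [hbf]
        rfl
      rw [pd_bd] at h1
      show ∑ v ∈ τᶜ, (-1 : ℂ) ^ (τ.filter fun u => ν u < ν v).card *
        (sx M w * (f (insert v τ)) w) = 0
      have h2 : ∀ v ∈ τᶜ, (-1 : ℂ) ^ (τ.filter fun u => ν u < ν v).card *
          (sx M w * (f (insert v τ)) w) = sx M w *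
          ((-1 : ℂ) ^ (τ.filter fun u => ν u < ν v).card * (f (insert v τ)) w) := fun v _ => by
        ring
      rw [sum_congr rfl h2, ← mul_sum, h1, mul_zero]
    -- the estimate
    have hest : ∀ δ : ℝ, 0 < δ →
        |pr (innerₗ (LM M)) x f| ≤ (∑ σ : Finset V, ‖x ∅ σ‖) * δ := by
      intro δ hδ
      obtain ⟨y, hy, hyε⟩ := h ν hν _ hz1 hz2 (δ ^ 2) (by positivity)
      obtain ⟨y', hy'v⟩ : ∃ y' : Finset V → LM M, ∀ σ w, (y' σ) w = sx M w * y σ w := by
        refine ⟨fun σ => ⟨fun w => sx M w * y σ w, (l2h_mem_iff _).2 ?_⟩, fun _ _ => rfl⟩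
        have h1 : (fun w => ‖sx M w * y σ w‖ ^ 2) = fun w => ‖y σ w‖ ^ 2 := by
          funext w
          rw [norm_mul, sx_norm, one_mul]
        rw [h1]
        exact hy.l2 σ
      have hy' : IsF (gr M) (fU (RT M)) ⊤ univ (j + 1) y' := by
        refine ⟨fun _ => Submodule.mem_top, fun σ v hv => ?_, fun σ hσ => ?_⟩
        · rw [fU_zero]
          ext w
          rw [RT_apply, hy'v, hy'v, sx_mul, hy.anti σ v hv w, neg_mul_neg]
        · obtain ⟨w, hw⟩ : ∃ w, (y' σ) w ≠ 0 := by
            by_contra hcon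
            push Not at hcon
            exact hσ (by
              ext w
              exact hcon w)
          rw [hy'v] at hw
          obtain ⟨h1, h2⟩ := hy.supp σ w (right_ne_zero_of_mul hw)
          exact ⟨subset_univ _, sph_cl M σ h1, h2⟩
      -- boundaries are orthogonal
      have hb0 : pr (innerₗ (LM M)) x (bd ν y') = 0 := by
        rw [pr_bd_right hx.isD fun σ hσ => ⟨(hy'.supp σ hσ).1, (hy'.supp σ hσ).2.1⟩, ← hx.closed]
        refine sum_eq_zero fun σ _ => ?_
        have h3 : d1 ν x ∅ σ = ∑ v ∈ σ \ ∅, sgn ν v ∅ • x (insert v ∅) σ := rfl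
        rw [h3, map_sum, LinearMap.sum_apply]
        refine sum_eq_zero fun v hv => ?_
        rw [sdiff_empty] at hv
        have h4 := eU_zero.1 (hx.isD.ker (insert v ∅) σ v (mem_insert_self v ∅))
        have h5 := fU_zero.1 (hy'.ker σ v hv)
        have h6 : innerₗ (LM M) (x (insert v ∅) σ) (y' σ) = 0 := by
          have h7 := pd_symU (M := M) v (x (insert v ∅) σ) (y' σ)
          rw [h4, h5, map_neg, LinearMap.neg_apply] at h7
          linarith
        rw [map_smul, LinearMap.smul_apply, h6, smul_zero]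
      have hsub : pr (innerₗ (LM M)) x f = pr (innerₗ (LM M)) x (f - bd ν y') := by
        rw [pr_sub_right, hb0, sub_zero]
      rw [hsub]
      have hle : ∀ σ, ‖(f - bd ν y') σ‖ ≤ δ := by
        intro σ
        have h6 : ‖(f - bd ν y') σ‖ ^ 2 = ∑' w, ‖sx M w * (f σ) w - Pool.Agent.H4.FC.dbd ν y σ w‖ ^ 2 := by
          have h7 := lp.norm_rpow_eq_tsum (p := 2) (by norm_num) ((f - bd ν y') σ)
          have h8 : ‖(f - bd ν y') σ‖ ^ 2 = ∑' w, ‖((f - bd ν y') σ) w‖ ^ 2 := by simpa using h7
          rw [h8]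
          refine tsum_congr fun w => ?_
          have h9 : ((f - bd ν y') σ) w = (f σ) w - (bd ν y' σ) w := rfl
          have h10 : (bd ν y' σ) w = sx M w * Pool.Agent.H4.FC.dbd ν y σ w := by
            rw [pd_bd]
            unfold Pool.Agent.H4.FC.dbd
            rw [mul_sum]
            refine sum_congr rfl fun v _ => ?_
            rw [hy'v]
            ring
          have h11 : sx M w * (f σ) w - Pool.Agent.H4.FC.dbd ν y σ w =
              sx M w * ((f σ) w - sx M w * Pool.Agent.H4.FC.dbd ν y σ w) := by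
            rw [mul_sub, ← mul_assoc, sx_sq, one_mul]
          rw [h9, h10, h11, norm_mul, sx_norm, one_mul]
        have h12 : ‖(f - bd ν y') σ‖ ^ 2 ≤ δ ^ 2 := by
          rw [h6]
          refine le_trans ?_ hyε.le
          exact single_le_sum (f := fun σ => ∑' w, ‖sx M w * (f σ) w - Pool.Agent.H4.FC.dbd ν y σ w‖ ^ 2)
            (fun τ _ => tsum_nonneg fun w => by positivity) (mem_univ σ)
        exact (pow_le_pow_iff_left₀ (norm_nonneg _) hδ.le two_ne_zero).1 h12
      unfold pr
      refine (abs_sum_le_sum_abs _ _).trans ?_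
      rw [sum_mul]
      refine sum_le_sum fun σ _ => ?_
      refine (abs_real_inner_le_norm (x ∅ σ) ((f - bd ν y') σ)).trans ?_
      exact mul_le_mul_of_nonneg_left (hle σ) (norm_nonneg _)
    by_contra hne
    have h1 : 0 < |pr (innerₗ (LM M)) x f| := abs_pos.2 hne
    have h2 : 0 ≤ ∑ σ : Finset V, ‖x ∅ σ‖ := sum_nonneg fun σ _ => norm_nonneg _
    have h3 := hest (|pr (innerₗ (LM M)) x f| / (2 * ((∑ σ : Finset V, ‖x ∅ σ‖) + 1)))
      (by positivity)
    rw [mul_div_assoc', le_div_iff₀ (by positivity)] at h3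
    nlinarith
  rw [hpr0] at hpr
  -- the chain is zero
  have hc0 : ∀ ρ, c ρ = 0 := by
    intro ρ
    have h1 : ∀ ρ ∈ (univ : Finset (Finset V)), 0 ≤ innerₗ (LM M) (c ρ) (c ρ) := fun ρ _ =>
      @real_inner_self_nonneg (LM M) _ _ (c ρ)
    have h2 := (sum_eq_zero_iff_of_nonneg h1).1 hpr.symm ρ (mem_univ _)
    exact inner_self_eq_zero.1 h2
  funext ρ w
  rw [← hcv, hc0]
  rfl

end Pool.Agent.H73.LK

end

section

/-!
# Project FOLD, fourth stage: the class of graphs in the language of Mathlib
-/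

set_option autoImplicit false

open Finset

namespace Pool.Agent.H85.Fold4

open Pool.Agent.H85.Fold

section

variable {V : Type} [DecidableEq V] [Fintype V] {G : SimpleGraph V}

omit [DecidableEq V] [Fintype V] in
theorem cl_iff {σ : Finset V} : Cl G σ ↔ G.IsClique (σ : Set V) :=
  ⟨fun h _ ha _ hb => h _ (Finset.mem_coe.1 ha) _ (Finset.mem_coe.1 hb),
    fun h _ ha _ hb => h (Finset.mem_coe.2 ha) (Finset.mem_coe.2 hb)⟩

omit [Fintype V] in
theorem linkChain_iff {ρ : Finset V} {j : ℕ} {z : Finset V → ℝ} :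
    LinkChain G ρ j z ↔ LinkCh G ρ j z := by
  unfold LinkChain LinkCh
  simp only [cl_iff]

theorem HomologySphere.is {n : ℕ} (h : HomologySphere G n) : IsHomologySphere G n := by
  refine ⟨fun σ hσ => h.dim σ (cl_iff.1 hσ), ?_, ?_⟩
  · intro ν hν ρ hρ j hj z hz hz0
    obtain ⟨y, hy, hyz⟩ := h.low ν hν ρ (cl_iff.1 hρ) j hj z (linkChain_iff.1 hz) hz0
    exact ⟨y, linkChain_iff.2 hy, hyz⟩
  · intro ν hν ρ hρ j hj
    obtain ⟨o, ho, ho0, hne, hu⟩ := h.top ν hν ρ (cl_iff.1 hρ) j hj
    exact ⟨o, linkChain_iff.2 ho, ho0, hne, fun z hz hz0 => hu z (linkChain_iff.1 hz) hz0⟩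

end

end Pool.Agent.H85.Fold4

end

section

/-!
# Project S10, block M: the level complex, in terms of `xh` and `acQ`
-/

set_option autoImplicit false
set_option linter.unusedSectionVars false

open Finset

namespace Pool.Agent.S10

open Pool.Agent.H19.Cub Pool.Agent.S9 Pool.Agent.H37.TM

section

variable {V X : Type} [DecidableEq V] [Fintype V] {Q : CubeComplex V X} {W : Type} [Group W]
  {R : Rac Q.graph W}

/-- the two right actions are equal -/
theorem pt_ra (x : X) (w : W) : pt Q R x w = ra Q R x w := by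
  have hw : w ∈ Subgroup.closure (Set.range R.s) := by
    rw [R.gen]
    trivial
  have hs : ∀ (x : X) (v : V), mv Q v x = Q.cs v x := fun _ _ => rfl
  induction hw using Subgroup.closure_induction_right with
  | one => rw [pt_one, ra_one]
  | mul_right w _ s hs' ih =>
    obtain ⟨v, rfl⟩ := hs'
    rw [pt_mul_s, ra_mul_s, ih, hs]
  | mul_inv_cancel w _ s hs' ih =>
    obtain ⟨v, rfl⟩ := hs'
    rw [s_inv, pt_mul_s, ra_mul_s, ih, hs]

theorem acQ_actv (x₀ : X) : acQ Q R x₀ = actv Q R x₀ := by
  funext v w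
  unfold acQ actv
  rw [pt_ra]

theorem le_raKer {Φ : Subgroup W} (hker : ∀ g ∈ Φ, xh Q R g = 1) : Φ ≤ raKer Q R := by
  intro g hg
  refine (mem_raKer Q R).2 fun x => ?_
  rw [← pt_ra]
  have h1 := pt_of_ker Q R x (hker g hg) 1
  rwa [mul_one, pt_one] at h1

end

section

variable {V X : Type} [DecidableEq V] [Fintype V] {Q : CubeComplex V X} {W : Type} [Group W]
  {R : Rac Q.graph W} {Φ : Subgroup W} [Φ.Normal]

end

end Pool.Agent.S10

end

section

/-!
# Project S10, block G: effaceability on the active subcomplex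

The representative cocycles of positive degree on the active cells are coboundaries of representative cochains
(`gex_act`, `pot0`); so every cocycle of positive degree with coefficients in a triangular module becomes a coboundary in
a larger triangular module.
-/

set_option autoImplicit false
set_option linter.unusedSectionVars false

open Finset

namespace Pool.Agent.S10

open Pool.Agent.S9

variable {V : Type} [DecidableEq V] [Fintype V] {G : SimpleGraph V} {W : Type} [Group W]

section Rep

variable (R : Rac G W) (act : V → W → Prop) {K : Type} [Field K]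

/-- **Acyclicity of the representative cochains on the active cells** -/
def RepAct (Γ : Subgroup W) (Λ : Subgroup Kˣ) : Prop :=
  ∀ (k : ℕ) (x : Finset V → W → K), (∀ A, x A ∈ OW Γ Λ) →
    (∀ A, ∀ v ∈ A, ∀ w, x A (w * R.s v) = x A w) →
    (∀ A w, x A w ≠ 0 → G.IsClique (A : Set V) ∧ A.card = k + 1 ∧ ∀ v ∈ A, act v w) →
    (∀ A : Finset V, G.IsClique (A : Set V) → ∀ w, (∀ v ∈ A, act v w) → gd R.s x A w = 0) →
    ∃ η : Finset V → W → K, (∀ A : Finset V, G.IsClique (A : Set V) → A.card = k →
        η A ∈ OW Γ Λ ∧ ∀ v ∈ A, ∀ w, η A (w * R.s v) = η A w) ∧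
      ∀ A : Finset V, G.IsClique (A : Set V) → A.card = k + 1 → ∀ w, (∀ v ∈ A, act v w) →
        gd R.s η A w = x A w

end Rep

/-- the product of a representative function and the indicator of an invariant set -/
theorem OW_ite {Γ : Subgroup W} {K : Type} [Field K] {Λ : Subgroup Kˣ} {f : W → K}
    (hf : f ∈ OW Γ Λ) (P : W → Prop) [DecidablePred P] (hP : ∀ g ∈ Γ, ∀ w, P (g * w) ↔ P w) :
    (fun w => if P w then f w else 0) ∈ OW Γ Λ := by
  intro w
  by_cases h : P w
  · have e : (fun x : Γ => if P (x * w) then f (x * w) else 0) = fun x : Γ => f (x * w) := by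
      funext x
      rw [if_pos ((hP x x.2 w).2 h)]
    exact (congrArg (· ∈ Orep Λ Γ) e).mpr (hf w)
  · have e : (fun x : Γ => if P (x * w) then f (x * w) else 0) = 0 := by
      funext x
      rw [if_neg fun h' => h ((hP x x.2 w).1 h')]
      rfl
    exact (congrArg (· ∈ Orep Λ Γ) e).mpr (zero_mem _)

/-- primitives of tuples of scalar cocycles -/
theorem effa_prim {R : Rac G W} {Γ : Subgroup W} {act : V → W → Prop} (ha : IsActv R Γ act) {K : Type} [Field K]
    {Λ : Subgroup Kˣ} (hG : RepAct R act Γ Λ) {d k : ℕ} (x : Fin d → Finset V → W → K)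
    (hO : ∀ i A, x i A ∈ OW Γ Λ)
    (hinv : ∀ i A, ∀ v ∈ A, ∀ w, x i A (w * R.s v) = x i A w)
    (hsup : ∀ i A w, x i A w ≠ 0 → G.IsClique (A : Set V) ∧ A.card = k + 1 ∧ ∀ v ∈ A, act v w)
    (hco : ∀ i (A : Finset V), G.IsClique (A : Set V) → ∀ w, (∀ v ∈ A, act v w) →
      gd R.s (x i) A w = 0) :
    ∃ η : Fin d → Finset V → W → K, (∀ i A, η i A ∈ OW Γ Λ) ∧
      (∀ i (A : Finset V) w, η i A w ≠ 0 → G.IsClique (A : Set V) ∧ A.card = k ∧ ∀ v ∈ A, act v w) ∧
      (∀ i A, ∀ v ∈ A, ∀ w, η i A (w * R.s v) = η i A w) ∧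
      ∀ i (A : Finset V), G.IsClique (A : Set V) → A.card = k + 1 → ∀ w, (∀ v ∈ A, act v w) →
        gd R.s (η i) A w = x i A w := by
  classical
  have key : ∀ i, ∃ η : Finset V → W → K, (∀ A : Finset V, G.IsClique (A : Set V) → A.card = k →
      η A ∈ OW Γ Λ ∧ ∀ v ∈ A, ∀ w, η A (w * R.s v) = η A w) ∧
      ∀ A : Finset V, G.IsClique (A : Set V) → A.card = k + 1 → ∀ w, (∀ v ∈ A, act v w) →
        gd R.s η A w = x i A w := fun i => hG k (x i) (hO i) (hinv i) (hsup i) (hco i)
  choose η h1 h2 using key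
  obtain ⟨η', hη'⟩ : ∃ η' : Fin d → Finset V → W → K, ∀ i A, η' i A =
      if G.IsClique (A : Set V) ∧ A.card = k then (fun w => if ∀ v ∈ A, act v w then η i A w else 0)
      else 0 := ⟨_, fun _ _ => rfl⟩
  refine ⟨η', fun i A => ?_, fun i A w hA => ?_, fun i A v hv w => ?_, fun i A hA hk w hw => ?_⟩
  · rw [hη']
    split_ifs with h
    · exact OW_ite (h1 i A h.1 h.2).1 _ fun g hg w => forall₂_congr fun v _ => ha.inv v g hg w
    · exact zero_mem _
  · by_cases h : G.IsClique (A : Set V) ∧ A.card = k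
    · rw [hη', if_pos h] at hA
      refine ⟨h.1, h.2, ?_⟩
      by_contra h3
      exact hA (if_neg h3)
    · rw [hη', if_neg h] at hA
      exact absurd rfl hA
  · rw [hη']
    split_ifs with h
    · change (if ∀ v ∈ A, act v (w * R.s _) then η i A (w * R.s _) else 0) =
        if ∀ v ∈ A, act v w then η i A w else 0
      rw [(h1 i A h.1 h.2).2 v hv w]
      simp only [ha.all h.1 hv w]
    · rfl
  · rw [← h2 i A hA hk w hw]
    refine sum_congr rfl fun v hv => ?_
    have hcl : G.IsClique ((A.erase v : Finset V) : Set V) :=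
      hA.subset (by exact_mod_cast erase_subset v A)
    have hck : (A.erase v).card = k := by
      rw [card_erase_of_mem hv, hk, Nat.add_sub_cancel]
    have hw' : ∀ u ∈ A, act u (w * R.s v) := (ha.all hA hv w).2 hw
    rw [hη', if_pos ⟨hcl, hck⟩]
    rw [if_pos fun u hu => hw u (mem_of_mem_erase hu), if_pos fun u hu => hw' u (mem_of_mem_erase hu)]

/-- **Effaceability on the active cells** -/
theorem effA_of_rep (R : Rac G W) {Γ : Subgroup W} (hn : Γ.Normal) (hfi : Γ.FiniteIndex)
    {act : V → W → Prop} (ha : IsActv R Γ act) (K : Type) [Field K] (Λ : Subgroup Kˣ)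
    (hG : RepAct R act Γ Λ) : EffA R act K Γ Λ := by
  classical
  intro k E _ _ _ ρ hρ x hx hcb
  obtain ⟨hx0, hxa⟩ := (mem_Ca R act).1 hx
  obtain ⟨hx1, hx2, hx3⟩ := (mem_Cc R).1 hx0
  have hxs : ∀ A w, x A w ≠ 0 → G.IsClique (A : Set V) ∧ A.card = k + 1 := fun A w h =>
    hx1 A fun h1 => h (by rw [h1]; rfl)
  have hxz : ∀ (A : Finset V) (w : W), ¬ (G.IsClique (A : Set V) ∧ A.card = k + 1) → x A w = 0 := by
    intro A w h
    by_contra h0
    exact h (hxs A w h0)
  obtain ⟨d, ⟨b⟩⟩ : ∃ d : ℕ, Nonempty (Module.Basis (Fin d) K E) :=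
    ⟨_, ⟨Module.finBasis K E⟩⟩
  obtain ⟨cr, hcr⟩ : ∃ cr : Fin d → E →ₗ[K] K, ∀ i e, cr i e = b.repr e i :=
    ⟨fun i => b.coord i, fun i e => rfl⟩
  obtain ⟨η, hηO, hη1, hη2, hηd⟩ := effa_prim ha hG (d := d) (k := k)
    (fun i A w => cr i (x A w)) (fun i A w => by
      have h := coeff hρ (cr i) (x A w)
      refine (congrArg (· ∈ Orep Λ Γ) (funext fun g => ?_)).mp h
      change cr i (ρ g (x A w)) = cr i (x A (g * w))
      rw [hx3])
    (fun i A v hv w => by rw [hx2 A v hv w])
    (fun i A w h => by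
      have h0 : x A w ≠ 0 := fun h0 => h (by rw [h0, map_zero])
      exact ⟨(hxs A w h0).1, (hxs A w h0).2, hxa A w h0⟩)
    (fun i A hA w hw => by
      have h := congrFun (congrFun hcb A) w
      have h1 : cba R act x A w = ∑ v ∈ A, (x (A.erase v) w + x (A.erase v) (w * R.s v)) := by
        rw [cba, if_pos hw, cb, if_pos hA]
      rw [h1] at h
      have h2 := congrArg (cr i) h
      rw [map_sum] at h2
      simp only [map_add] at h2
      rw [gd, h2]
      exact map_zero _)
  -- one triangular space with all the functions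
  have hfin : Finite (W ⧸ Γ) := Subgroup.finite_quotient_of_finiteIndex
  obtain ⟨F, hF, hmem⟩ := exists_triO (Lam := Λ) (H := Γ)
    (ι := (Fin d × Finset V × (W ⧸ Γ)) ⊕ (Fin d × Fin d))
    (fun t => Sum.elim (fun t (g : Γ) => η t.1 t.2.1 (g * t.2.2.out))
      (fun t (g : Γ) => cr t.1 (ρ g (b t.2))) t) (fun t => by
        rcases t with t | t
        · exact hηO t.1 t.2.1 t.2.2.out
        · exact coeff hρ (cr t.1) (b t.2))
  have hst := hF.stable
  have hη : ∀ i A w, (fun g : Γ => η i A (g * w)) ∈ F := by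
    intro i A w
    have h1 := hmem (Sum.inl (i, A, (w : W ⧸ Γ)))
    obtain ⟨γ, hγ⟩ : ∃ γ : Γ, w = γ * (w : W ⧸ Γ).out := by
      have h2 : ((w : W ⧸ Γ).out)⁻¹ * w ∈ Γ := by
        rw [← QuotientGroup.eq, QuotientGroup.out_eq']
      refine ⟨⟨w * ((w : W ⧸ Γ).out)⁻¹, ?_⟩, by simp⟩
      have h3 := hn.conj_mem _ h2 ((w : W ⧸ Γ).out)
      simpa [mul_assoc] using h3
    have h4 := hst γ _ h1
    refine (congrArg (· ∈ F) (funext fun g => ?_)).mp h4
    change η i A (((g * γ : Γ) : W) * (w : W ⧸ Γ).out) = η i A (g * w)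
    conv_rhs => rw [hγ]
    rw [Subgroup.coe_mul, mul_assoc]
  have hρF : ∀ i e, (fun g : Γ => cr i (ρ g e)) ∈ F := by
    intro i e
    have h1 : (fun g : Γ => cr i (ρ g e)) = ∑ j, b.repr e j • fun g : Γ => cr i (ρ g (b j)) := by
      funext g
      conv_lhs => rw [← b.sum_repr e]
      rw [map_sum, map_sum, Finset.sum_apply]
      refine sum_congr rfl fun j _ => ?_
      rw [map_smul, map_smul]
      rfl
    rw [h1]
    exact Submodule.sum_mem _ fun j _ => Submodule.smul_mem _ _ (hmem (Sum.inr (i, j)))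
  refine ⟨Fin d → F, inferInstance, inferInstance, hF.finiteDimensional d, rtF F hst d,
    { toFun := fun e i => ⟨fun g => cr i (ρ g e), hρF i e⟩
      map_add' := fun e e' => by
        funext i
        refine Subtype.ext (funext fun g => ?_)
        change cr i (ρ g (e + e')) = cr i (ρ g e) + cr i (ρ g e')
        rw [map_add, map_add]
      map_smul' := fun c e => by
        funext i
        refine Subtype.ext (funext fun g => ?_)
        change cr i (ρ g (c • e)) = c • cr i (ρ g e)
        rw [map_smul, map_smul] },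
    fun A w i => ⟨fun g => η i A (g * w), hη i A w⟩, tri_pow hF d, ?_, ?_, ?_, ?_⟩
  · -- injectivity
    intro e e' h
    refine b.repr.injective (Finsupp.ext fun i => ?_)
    have h1 := congrFun (congrArg Subtype.val (congrFun h i)) 1
    change cr i (ρ 1 e) = cr i (ρ 1 e') at h1
    rw [map_one] at h1
    rw [← hcr, ← hcr]
    exact h1
  · -- equivariance
    intro g e
    funext i
    refine Subtype.ext (funext fun x => ?_)
    change cr i (ρ x (ρ g e)) = cr i (ρ (x * g) e)
    rw [map_mul]
    rfl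
  · -- the cochain
    refine ⟨⟨fun A hA => ?_, fun A v hv w => ?_, fun A g w => ?_⟩, fun A w hA => ?_⟩
    · by_contra h
      refine hA (funext fun w => funext fun i => Subtype.ext (funext fun g => ?_))
      change η i A (g * w) = 0
      by_contra h0
      exact h ⟨(hη1 i A _ h0).1, (hη1 i A _ h0).2.1⟩
    · funext i
      refine Subtype.ext (funext fun g => ?_)
      change η i A (g * (w * R.s v)) = η i A (g * w)
      rw [← mul_assoc, hη2 i A v hv]
    · funext i
      refine Subtype.ext (funext fun x => ?_)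
      change η i A (x * (g * w)) = η i A (((x * g : Γ) : W) * w)
      rw [Subgroup.coe_mul, mul_assoc]
    · by_contra h
      refine hA (funext fun i => Subtype.ext (funext fun g => ?_))
      change η i A (g * w) = 0
      by_contra h0
      exact h fun v hv => (ha.inv v g g.2 w).1 ((hη1 i A _ h0).2.2 v hv)
  · -- the coboundary
    intro A w
    funext i
    refine Subtype.ext (funext fun g => ?_)
    change _ = cr i (ρ g (x A w))
    rw [← hx3]
    by_cases hA : G.IsClique (A : Set V) ∧ ∀ v ∈ A, act v w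
    · rw [cba, if_pos hA.2, cb, if_pos hA.1, Finset.sum_apply]
      have e1 : ∀ (s : Finset V) (f : V → F), ((∑ v ∈ s, f v : F) : Γ → K) g =
          ∑ v ∈ s, (f v : Γ → K) g := by
        intro s f
        rw [AddSubmonoidClass.coe_finsetSum, Finset.sum_apply]
      rw [e1]
      change ∑ v ∈ A, (η i (A.erase v) (g * w) + η i (A.erase v) (g * (w * R.s v))) = _
      simp only [← mul_assoc]
      by_cases hk : A.card = k + 1
      · exact hηd i A hA.1 hk (g * w) fun v hv => (ha.inv v g g.2 w).2 (hA.2 v hv)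
      · rw [hxz A _ fun h => hk h.2, map_zero]
        refine sum_eq_zero fun v hv => ?_
        have h0 : ∀ w', η i (A.erase v) w' = 0 := by
          intro w'
          by_contra h0
          have h1 := (hη1 i _ _ h0).2.1
          rw [card_erase_of_mem hv] at h1
          have h2 := card_pos.2 ⟨v, hv⟩
          omega
        rw [h0, h0, add_zero]
    · have hz : cba R act (fun A w i => (⟨fun g => η i A (g * w), hη i A w⟩ : F)) A w = 0 := by
        unfold cba cb
        by_cases h2 : ∀ v ∈ A, act v w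
        · rw [if_pos h2, if_neg fun h1 => hA ⟨h1, h2⟩]
        · rw [if_neg h2]
      rw [hz]
      have h0 : x A (g * w) = 0 := by
        by_contra h0
        exact hA ⟨(hxs A _ h0).1, fun v hv => (ha.inv v g g.2 w).1 (hxa A _ h0 v hv)⟩
      rw [h0, map_zero]
      rfl

theorem repAct (R : Rac G W) {Γ : Subgroup W} (hΓ : Lev0 R Γ) {act : V → W → Prop}
    (ha : IsActv R Γ act) {K : Type} [Field K] [CharP K 2] (Λ : Subgroup Kˣ) : RepAct R act Γ Λ := by
  classical
  intro k x hO hinv hsup hco
  have hM : ∀ a : K, a + a = 0 := fun a => CharTwo.add_self_eq_zero a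
  have hact : Activ G R.s (OW (K := K) Γ Λ) act := by
    refine ⟨ha.self, ha.adj, fun v f hf f' h1 h2 => ?_⟩
    have e : f' = fun w => if act v w then f w else 0 := by
      funext w
      by_cases h : act v w
      · rw [if_pos h, h1 w h]
      · rw [if_neg h, h2 w h]
    rw [e]
    exact OW_ite hf _ fun g hg w => ha.inv v g hg w
  have hfull : ∀ T C : Finset V, G.IsClique (C : Set V) → (∀ u ∈ T, ∀ a ∈ C, G.Adj u a) →
      GEx G R.s (OW (K := K) Γ Λ) (fun _ _ => True) T C := by
    intro T C hC hTC k hk γ h1 h2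
    obtain ⟨η, h3, h4⟩ := g_ind G R.s R.sq R.comm hM (OW Γ Λ) (fun f hf v => OW_right hf (R.s v))
      (fun T C hC hTC c hc hci hcc => pot0 hΓ.normal hΓ.fin hΓ.ret ⟨hC, hTC, hci, hcc⟩ hc) T.card T C
      le_rfl hC hTC k hk γ h1 fun A hA hAc hAk w => h2 A hA hAc hAk w fun _ _ => trivial
    exact ⟨η, h3, fun A hA hAc hAk w _ => h4 A hA hAc hAk w⟩
  obtain ⟨η, h1, h2⟩ := gex_act G R.s R.sq R.comm hM (OW (K := K) Γ Λ) (fun f hf v => OW_right hf (R.s v))
    hfull (univ : Finset V).card univ ∅ le_rfl (by rw [coe_empty]; exact Set.pairwise_empty _)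
    (fun u _ a ha => absurd ha (notMem_empty a)) act hact (k + 1) (Nat.le_add_left 1 k) x
    (fun A _ _ _ => ⟨hO A, fun a ha w => hinv A a (by rwa [union_empty] at ha) w⟩)
    fun A _ hA _ w hw => hco A hA w hw
  exact ⟨η, fun A hA hk => ⟨(h1 A (subset_univ _) hA (by rw [hk])).1, fun v hv w =>
    (h1 A (subset_univ _) hA (by rw [hk])).2 v (by rwa [union_empty]) w⟩,
    fun A hA hk w hw => h2 A (subset_univ _) hA hk w hw⟩

/-- **Block G: effaceability on the active subcomplex** -/
theorem G_mainA (R : Rac G W) {Γ : Subgroup W} (hΓ : Lev0 R Γ) {act : V → W → Prop}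
    (ha : IsActv R Γ act) (K : Type) [Field K] [CharP K 2] (Λ : Subgroup Kˣ) : EffA R act K Γ Λ :=
  effA_of_rep R hΓ.normal hΓ.fin ha K Λ (repAct R hΓ ha Λ)

end Pool.Agent.S10

end
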