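import Pool.Agent.H71.TSG.M42
import Pool.Agent.H71.TSG.M54
import Pool.Agent.H71.TSG.M56
import Pool.Agent.H71.TSG.M60
import Pool.Agent.H71.TSG.M61
import Pool.Agent.H71.TSG.M63
import Pool.Agent.H71.TSG.M64

/-! The parts of this file: H73.LK.Cls_1, S10.MMain, S10.DuMain_1, H3.SL.Acts_1, H3.SL.Cls_1. -/

section

/-!
# A class of labelled flag complexes
-/

set_option autoImplicit false
set_option linter.unusedSectionVars false

open Finset

namespace Pool.Agent.H73.LK

open Pool.Agent.H4.FC Pool.Agent.H4.FD Pool.Agent.H4.HY Pool.Agent.H85.VK Pool.Agent.H85.Fold4 Pool.Agent.H19.VX Pool.Agent.H19.BL Pool.Agent.H19.Cub Pool.Agent.H19.LI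
open Pool.Agent.H4.Singer (racg)

/-- `Vanishing M i`: the least class of pairs of a Coxeter matrix `M` (a labelled finite flag complex `L`, the
flag complex of `gr M`) and a degree `i` with the following members and rules.

* `finite`: the group is finite and `i > 0`;
* `infinite`: the group is infinite and `i = 0`.

If every clique generates a finite group (`IsFC M`):
* `vanKampen`: `L` has dimension at most `k < i` and vanishing van Kampen obstruction (modulo two) to
  embedding in `ℝ^{2k}`;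
* `embedded`: `L` has dimension at most `k < i` and is a subcomplex, full or not, of a homology sphere of
  dimension `2 k` over the field with two elements;
* `sphere`: `L` is a full subcomplex of a folded sphere of dimension `n - 1`, or of the order complex of a
  finite graded poset of rank `n` with exact intervals, and `n < 2 i`;
* `dual`: `L` is a homology sphere of dimension `n - 1` which is in the class for the degree `n - i`;
* `codim`: `m ≤ i`, and the full subcomplexes of the links of the cliques with `m` vertices are in the class for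
  all degrees `j ≥ i - m`.

If all labels are two (`IsRA M`):
* `ball`: `L` is a full subcomplex of a homology ball or sphere of dimension `n - 1`, `3 ≤ n ≤ i + 1`;
* `remove`: `L` is a full subcomplex of a homology sphere `K` of dimension `2 k < 2 i`, the link in `K` of the
  vertex `v` of `L` is folded, and `L - v` is in the class for `i`.

For all labels:
* `glue`: `L` is the union of the full subcomplexes on `A` and on `B`, and these are in the class for the degree
  `i`, their intersection for the degree `i - 1`;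
* `part`: `L` and the intersection are in the class for `i`; then the parts are;
* `prod`: `L` is the join of `A` and `B`, with labels two between them, and for all `p + q = i` the complex on
  `A` is in the class for `p` or the complex on `B` is in the class for `q`. -/
inductive Vanishing : {V : Type} → [DecidableEq V] → [Fintype V] → CoxeterMatrix V → ℕ → Prop
  | finite {V : Type} [DecidableEq V] [Fintype V] (M : CoxeterMatrix V) (hM : Finite M.Group) (i : ℕ)
      (hi : 0 < i) : Vanishing M i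
  | infinite {V : Type} [DecidableEq V] [Fintype V] (M : CoxeterMatrix V) (hM : Infinite M.Group) :
      Vanishing M 0
  | vanKampen {V : Type} [DecidableEq V] [Fintype V] (M : CoxeterMatrix V) (hM : IsFC M) (k i : ℕ)
      (hk : k < i) (hdim : ∀ σ : Finset V, (gr M).IsClique (σ : Set V) → σ.card ≤ k + 1)
      (h : VanKampenZero (gr M) k) : Vanishing M i
  | embedded {V W : Type} [DecidableEq V] [Fintype V] [DecidableEq W] [Fintype W]
      (M : CoxeterMatrix V) (hM : IsFC M) (k i : ℕ) (hk : k < i)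
      (hdim : ∀ σ : Finset V, (gr M).IsClique (σ : Set V) → σ.card ≤ k + 1) (K : Set (Finset W))
      (hK : IsF2Sphere K (2 * k + 1)) (φ : V → W) (hφ : Function.Injective φ)
      (h : ∀ σ : Finset V, (gr M).IsClique (σ : Set V) → σ.image φ ∈ K) : Vanishing M i
  | sphere {V W : Type} [DecidableEq V] [Fintype V] [DecidableEq W] [Fintype W]
      (M : CoxeterMatrix V) (hM : IsFC M) (n i : ℕ) (K : SimpleGraph W)
      (hK : FoldedSphere K n ∨ OrderComplex K n) (e : gr M ↪g K) (hi : n < 2 * i) : Vanishing M i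
  | dual {V : Type} [DecidableEq V] [Fintype V] (M : CoxeterMatrix V) (hM : IsFC M) (n i j : ℕ)
      (hL : HomologySphere (gr M) n) (hij : i + j = n) (h : Vanishing M j) : Vanishing M i
  | codim {V : Type} [DecidableEq V] [Fintype V] (M : CoxeterMatrix V) (hM : IsFC M) (m i : ℕ)
      (hm : m ≤ i) (h : ∀ σ Z : Finset V, (gr M).IsClique (σ : Set V) → σ.card = m →
        (∀ v ∈ Z, ∀ u ∈ σ, (gr M).Adj u v) → ∀ j, i ≤ j + m → Vanishing (sub M Z) j) : Vanishing M i
  | ball {V W : Type} [DecidableEq V] [Fintype V] [DecidableEq W] [Fintype W]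
      (M : CoxeterMatrix V) (hM : IsRA M) (n i : ℕ) (hn : 3 ≤ n) (K : SimpleGraph W)
      (B : Finset W → Prop) (hK : HomologyBall K n B) (e : gr M ↪g K) (hi : n ≤ i + 1) :
      Vanishing M i
  | remove {V W : Type} [DecidableEq V] [Fintype V] [DecidableEq W] [Fintype W]
      (M : CoxeterMatrix V) (hM : IsRA M) (k i : ℕ) (hk : k < i) (K : SimpleGraph W)
      (hK : HomologySphere K (2 * k + 1)) (e : gr M ↪g K) (v : V)
      (hv : IsFolded (K.induce (K.neighborSet (e v))) (2 * k))
      (h : Vanishing (sub M (univ.erase v)) i) : Vanishing M i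
  | glue {V : Type} [DecidableEq V] [Fintype V] (M : CoxeterMatrix V) (A B : Finset V) (i : ℕ)
      (hAB : A ∪ B = univ) (h0 : ∀ u ∈ A \ B, ∀ v ∈ B \ A, M u v = 0)
      (hA : Vanishing (sub M A) (i + 1)) (hB : Vanishing (sub M B) (i + 1))
      (hC : Vanishing (sub M (A ∩ B)) i) : Vanishing M (i + 1)
  | part {V : Type} [DecidableEq V] [Fintype V] (M : CoxeterMatrix V) (A B : Finset V) (i : ℕ)
      (hAB : A ∪ B = univ) (h0 : ∀ u ∈ A \ B, ∀ v ∈ B \ A, M u v = 0)
      (hM : Vanishing M i) (hC : Vanishing (sub M (A ∩ B)) i) : Vanishing (sub M A) i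
  | prod {V : Type} [DecidableEq V] [Fintype V] (M : CoxeterMatrix V) (A B : Finset V) (i : ℕ)
      (S : Set ℕ) (hAB : A ∪ B = univ) (hd : Disjoint A B) (h2 : ∀ u ∈ A, ∀ v ∈ B, M u v = 2)
      (hA : ∀ p, p ≤ i → p ∈ S → Vanishing (sub M A) p)
      (hB : ∀ p, p ≤ i → p ∉ S → Vanishing (sub M B) (i - p)) : Vanishing M i

theorem cover {V : Type} [DecidableEq V] [Fintype V] {M : CoxeterMatrix V} {A B : Finset V}
    (hAB : A ∪ B = univ) (h0 : ∀ u ∈ A \ B, ∀ v ∈ B \ A, M u v = 0) (σ : Finset V)
    (hσ : Sph M σ) : σ ⊆ A ∨ σ ⊆ B := by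
  by_contra hc
  rw [not_or] at hc
  obtain ⟨⟨u, hu, huA⟩, v, hv, hvB⟩ := hc.imp Finset.not_subset.1 Finset.not_subset.1
  have hu' : u ∈ B := by
    have := mem_univ u
    rw [← hAB, mem_union] at this
    exact this.resolve_left huA
  have hv' : v ∈ A := by
    have := mem_univ v
    rw [← hAB, mem_union] at this
    exact this.resolve_right hvB
  have huv : v ≠ u := fun h => huA (h ▸ hv')
  exact (sph_cl M σ hσ v hv u hu huv).2
    (h0 v (mem_sdiff.2 ⟨hv', hvB⟩) u (mem_sdiff.2 ⟨hu', huA⟩))

/-- a right-angled Coxeter group is the one of its graph -/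
theorem IsRA.eq {V : Type} [DecidableEq V] [Fintype V] {M : CoxeterMatrix V} (hM : IsRA M) :
    M = racg (gr M) := by
  classical
  ext u v
  show M u v = racg (gr M) u v
  rw [racg_apply]
  split_ifs with h1 h2
  · rw [h1, M.diagonal]
  · exact (hM u v h1).resolve_left h2.2
  · by_contra h3
    exact h2 ⟨h1, h3⟩

theorem IsRA.l2 {V : Type} [DecidableEq V] [Fintype V] {M : CoxeterMatrix V} (hM : IsRA M) {i : ℕ}
    (h : Pool.Agent.H4.Singer.L2HomologyZero (gr M) i) : L2HomologyZero M i := by
  rw [hM.eq]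
  exact (l2_racg (gr M) i).2 h

theorem sph_of_finite {V : Type} [DecidableEq V] [Fintype V] {M : CoxeterMatrix V}
    (hM : Finite M.Group) : Sph M univ := by
  show Finite (par M univ)
  infer_instance

/-- **The main theorem for CAT(0) cube complexes.** -/
theorem transfer_cat0 {V X Γ : Type} [DecidableEq V] [Countable V] [Group Γ] [MulAction Γ V]
    [MulAction Γ X] {C : CubeComplex V X} (hC : IsCAT0 C) (hΓ : IsGeom Γ C) {i : ℕ}
    (h : ∀ x, L2HomologyZero (racg (lk C x)) i) : L2Zero C i :=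
  local_global_cat0 hC hΓ i fun x => (l2_racg _ i).1 (h x)

end Pool.Agent.H73.LK

end

section

/-!
# Project S10, block M: the main theorem

`M_mainX`: every cycle of degree `i` of the active subcomplex with coefficients in `χ` bounds, if its lifting property
and effaceability hold and if the end holds for all subgroups of `Γ`. `M_mainA`: for actions on homology manifolds of
dimension less than `2 i`.
-/

set_option autoImplicit false
set_option linter.unusedSectionVars false

open Finset

namespace Pool.Agent.S10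

open Pool.Agent.H19.Cub Pool.Agent.H77.SX Pool.Agent.H37.TM Pool.Agent.S9 Pool.Agent.S9.U Pool.Agent.S9.M

variable {V : Type} [DecidableEq V] [Fintype V] {W : Type} [Group W]

/-- **BLOCK M**, from the end for the subgroups of `Γ` -/
theorem M_mainX {X Γ : Type} [Fintype X] [Group Γ]
    (Q : CubeComplex V X) {x₀ : X} [MulAction Γ (Q.Cover x₀)] (hΓ : IsDeck Γ Q x₀)
    {d : ℕ} (hd : DimLe Q d) {i : ℕ} (hi : 1 ≤ i)
    {K : Type} [Field K] [CharP K 2] [Algebra (ZMod 2) K] (hM : ∀ Γ' : Subgroup Γ, EndM Γ' d i K)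
    (R : Rac Q.graph W) {Φ : Subgroup W} (hΦ : Lev0 R Φ) (hker : ∀ g ∈ Φ, xh Q R g = 1)
    (χ : Φ →* Kˣ) (hEff : EffA R (acQ Q R x₀) K Φ (sqr χ))
    (hl : ∀ z₀ ∈ Za R (acQ Q R x₀) Φ (ch χ) i, LiftsA R (acQ Q R x₀) Φ χ i z₀) :
    ∀ z₀ ∈ Za R (acQ Q R x₀) Φ (ch χ) i, z₀ ∈ Ba R (acQ Q R x₀) Φ (ch χ) i := by
  classical
  have hN := hΦ.normal
  have hF := hΦ.fin
  have hk : Φ ≤ raKer Q R := le_raKer hker
  let _ : Fintype (W ⧸ Φ) := Fintype.ofFinite _
  obtain ⟨Γ', iact, hD⟩ := exists_deckL hk x₀ hΓ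
  refine M_main_of (Q := QL hk x₀) (x₀ := (1 : W ⧸ Φ)) (Γ := Γ') (R := R)
    (fun bit hb => dQ_exact _ _ hb) hD (dimLeL hk x₀ hd) hi (hM Γ') hΦ (isActv Q R x₀ hker)
    (fun w => ?_) χ hEff hl
  obtain ⟨u, c, hu, rfl⟩ := exists_pos hk x₀ w
  refine ⟨thL hk x₀ hD u, jL R hk x₀ u, bitL R Φ hΦ.bits u, ?_, ⟨1, c, (one_mul _).symm⟩,
    isBitL hk x₀ hΦ.bits u, bitL_proj hk x₀ hΦ.bits u⟩
  rw [acQ_actv]
  exact isEmbL hk x₀ hD hu

/-- the end for a homology manifold -/
theorem endM_mfd {U Γ : Type} [DecidableEq U] [Group Γ] [MulAction Γ U] {M B : Set (Finset U)}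
    {n d : ℕ} (hM : Mfd M B n) (hK : AcycLt M d) (hA : SAct Γ M B) {i : ℕ} (hi : n < 2 * i)
    (K : Type) [Field K] [CharP K 2] [Algebra (ZMod 2) K] : EndM Γ d i K :=
  fun _ _ _ _ _ _ _ _ _ hbit hΓ hd _ _ θ χ hEff _ hz hzg hl _ hx hxg hxd =>
    m_mfdR hbit hΓ hd hM hK hA θ χ hEff hi hz hzg hl hx hxg hxd

end Pool.Agent.S10

end

section

/-!
# Project S10D: virtually special groups which act on manifolds or on duality pairs
-/

set_option autoImplicit false
set_option linter.unusedSectionVars false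

open Finset Pointwise

namespace Pool.Agent.S10

open Pool.Agent.S9 Pool.Agent.H19.Cub Pool.Agent.H77.SX Pool.Agent.H37.TM Pool.Agent.H65.RM
open Pool.Agent.H4.Singer (RGrp)

section

variable {U P : Type} [DecidableEq U] [Group P] [MulAction P U] {M B : Set (Finset U)} {n d : ℕ}

/-- the end for a duality pair -/
theorem endM_dual {mu : Set (Finset U)} (hM : Dual M B mu n d) (hA : SAct P M B)
    (hmu : ∀ (g : P) (s : Finset U), s ∈ mu → g • s ∈ mu) {i : ℕ} (hi : n < 2 * i)
    (K : Type) [Field K] [CharP K 2] [Algebra (ZMod 2) K] : EndM P d i K :=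
  fun _ _ _ _ _ _ _ _ _ hbit hΓ hd _ _ θ χ hEff _ hz hzg hl _ hx hxg hxd =>
    m_dualR hbit hΓ hd hM hA hmu θ χ hEff hi hz hzg hl hx hxg hxd

theorem endM_or (hM : ManOrDual P M B n d) (hA : SAct P M B) {i : ℕ} (hi : n < 2 * i)
    (K : Type) [Field K] [CharP K 2] [Algebra (ZMod 2) K] : EndM P d i K := by
  rcases hM with h | ⟨mu, h, h'⟩
  · exact endM_mfd h.1 h.2 hA hi K
  · exact endM_dual h hA h' hi K

end

/-- **the theorem for a finite special cube complex with bits**, from the end for the subgroups -/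
theorem S10_bitX {V X Γ : Type} [DecidableEq V] [Fintype V] [Fintype X] [Group Γ] (Q : CubeComplex V X) {x₀ : X}
    [MulAction Γ (Q.Cover x₀)] {bit : X → V → ZMod 2} (hbit : IsBit Q bit) (hsurj : Function.Surjective (Q.proj x₀))
    (hΓ : IsDeck Γ Q x₀) {d : ℕ} (hd : DimLe Q d) {i : ℕ} (hi : 1 ≤ i)
    (hM : ∀ (K : Type) [Field K] [CharP K 2] [Algebra (ZMod 2) K] (Γ' : Subgroup Γ), EndM Γ' d i K) :
    L2HomologyZero (Q.cover x₀) i := by
  classical
  have hfin : Finite (Equiv.Perm X)ᵐᵒᵖ := Finite.of_injective MulOpposite.unop MulOpposite.unop_injective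
  obtain ⟨W, _, ⟨R⟩⟩ := rac_ex Q.graph
  obtain ⟨Φ, hΦ, hker⟩ := exists_Phi R (xh Q R)
  have ha := isActv Q R x₀ hker
  obtain ⟨m, K, _, _, χ, h1, h2⟩ := EA.EA_main R hΦ _ ha i
  have hle : twr Φ m ≤ Φ := twr_anti Φ (Nat.zero_le m)
  let _ : Algebra (ZMod 2) K := ZMod.algebra K 2
  refine L2_mainA Q x₀ hbit hsurj R hΦ hker (h2 ?_)
  exact M_mainX Q hΓ hd hi (hM K) R (hΦ.twr m) (fun g hg => hker g (hle hg)) χ
    (G_mainA R (hΦ.twr m) (ha.mono hle) K _) h1

/-- **S10 for proper actions** -/
theorem l2_of_properD {V X U Γ : Type} [DecidableEq V] [Fintype V] [Fintype X] [DecidableEq U]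
    [Group Γ] [MulAction Γ U] (Q : CubeComplex V X) (x₀ : X) [MulAction Γ (Q.Cover x₀)]
    (hΓ : IsDeck Γ Q x₀) {M B : Set (Finset U)} {n d : ℕ} (hd : DimLe Q d) (hM : ManOrDual Γ M B n d)
    (hA : PAct Γ M B) {i : ℕ} (hn : n < 2 * i) : L2HomologyZero (Q.cover x₀) i := by
  rcases Nat.lt_or_ge d i with h | h
  · exact l2_aboveP hd h
  · obtain ⟨V', X', _, _, _, Q', y₀, bit', hbit', hsurj', hd', hmax', ⟨Γ', act', hΓ'⟩, htr⟩ :=
      relabel_reduce Q x₀ (by omega) hd hΓ
    refine htr i ?_
    have hA' : SAct Γ' M B := sact_of_proper hbit' hΓ' (PAct.sub hA Γ') hM.ne hM.down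
    refine S10_bitX Q' hbit' hsurj' hΓ' hd' (by omega) fun K _ _ _ Γ'' => ?_
    exact endM_or ((hM.sub Γ').sub Γ'')
      ⟨fun g s hs => hA'.K_mem g s hs, fun g s hs => hA'.B_mem g s hs,
        fun g s hs h => Subtype.ext (hA'.free g s hs h)⟩ hn K

end Pool.Agent.S10

end

section

/-!
# Right-angled Coxeter groups which act on homology manifolds
-/

set_option autoImplicit false
set_option linter.unusedSectionVars false

open Finset

namespace Pool.Agent.H3.SL

open Pool.Agent.S9 Pool.Agent.S10.DX Pool.Agent.H19.Cub Pool.Agent.H37.TM Pool.Agent.H65.RM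
open Pool.Agent.H4.Singer (RGrp gen gen_mul_gen gen_comm)

section Quo

variable {V : Type} [DecidableEq V] [Fintype V] (G : SimpleGraph V) (N : Subgroup (RGrp G))
  [N.Normal]

/-- the quotient of the Davis complex by `N` -/
noncomputable def QN : CubeComplex V (RGrp G ⧸ N) where
  graph := G
  lab _ := univ
  nb v x := x * QuotientGroup.mk (gen G v)
  lab_nb v x _ := mem_univ v
  nb_nb v x _ := by
    rw [mul_assoc, ← QuotientGroup.mk_mul, gen_mul_gen, QuotientGroup.mk_one, mul_one]
  lab_adj u v x _ _ _ := mem_univ u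
  nb_comm u v x h _ _ := by
    rw [mul_assoc, mul_assoc, ← QuotientGroup.mk_mul, ← QuotientGroup.mk_mul, gen_comm G u v h]

/-- the group as a right-angled Coxeter group of the complex -/
noncomputable abbrev RN : Rac (QN G N).graph (RGrp G) := racR G

theorem jj_surj : Function.Surjective (jj (RN G N) (1 : RGrp G ⧸ N)) := by
  intro w
  have h : w ∈ Subgroup.closure (Set.range (gen G)) :=
    (racR G).gen.symm ▸ Subgroup.mem_top w
  induction h using Subgroup.closure_induction_right with
  | one => exact ⟨bse (QN G N) 1, jj_base _ _⟩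
  | mul_right x hx y hy ih =>
    obtain ⟨c, rfl⟩ := ih
    obtain ⟨v, rfl⟩ := hy
    exact ⟨(QN G N).nbc 1 v c, jj_nb (RN G N) 1 (mem_univ v)⟩
  | mul_inv_cancel x hx y hy ih =>
    obtain ⟨c, rfl⟩ := ih
    obtain ⟨v, rfl⟩ := hy
    refine ⟨(QN G N).nbc 1 v c, ?_⟩
    rw [Pool.Agent.H4.Singer.gen_inv]
    exact jj_nb (RN G N) 1 (mem_univ v)

/-- the universal cover is the Davis complex -/
noncomputable def ej : (QN G N).Cover 1 ≃ RGrp G :=
  Equiv.ofBijective (jj (RN G N) 1) ⟨jj_inj (RN G N) 1, jj_surj G N⟩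

theorem ej_nb (v : V) (c : (QN G N).Cover 1) : ej G N ((QN G N).nbc 1 v c) = ej G N c * gen G v :=
  jj_nb (RN G N) 1 (mem_univ v)

theorem proj_ej (c : (QN G N).Cover 1) : (QN G N).proj 1 c = QuotientGroup.mk (ej G N c) := by
  induction c using cov_ind with
  | h0 =>
    show (1 : RGrp G ⧸ N) = QuotientGroup.mk (jj (RN G N) 1 (bse (QN G N) 1))
    rw [jj_base]
    rfl
  | h1 c v hv ih =>
    rw [proj_nbc' _ _ hv, ej_nb, QuotientGroup.mk_mul, ← ih]
    rfl

/-- the action of a group on the universal cover -/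
@[reducible] noncomputable def actN {Γ : Type} [Group Γ] (f : Γ →* RGrp G) : MulAction Γ ((QN G N).Cover 1) where
  smul g c := (ej G N).symm (f g * ej G N c)
  one_smul c := by
    show (ej G N).symm (f 1 * ej G N c) = c
    rw [f.map_one, one_mul, Equiv.symm_apply_apply]
  mul_smul g h c := by
    show (ej G N).symm (f (g * h) * ej G N c) =
      (ej G N).symm (f g * ej G N ((ej G N).symm (f h * ej G N c)))
    rw [f.map_mul, Equiv.apply_symm_apply, mul_assoc]

theorem isDeckN {Γ : Type} [Group Γ] (f : Γ →* RGrp G) (hf : Function.Injective f)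
    (hr : f.range = N) :
    let _ := actN G N f
    IsDeck Γ (QN G N) 1 := by
  let _ := actN G N f
  have hs : ∀ (g : Γ) (c : (QN G N).Cover 1), ej G N (g • c) = f g * ej G N c := fun g c =>
    Equiv.apply_symm_apply _ _
  constructor
  · intro g v c _
    refine (ej G N).injective ?_
    rw [ej_nb, hs, hs, ej_nb, mul_assoc]
  · intro g c
    rw [proj_ej, proj_ej, hs, QuotientGroup.mk_mul]
    have h1 : f g ∈ N := hr ▸ (⟨g, rfl⟩ : f g ∈ f.range)
    rw [(QuotientGroup.eq_one_iff (f g)).2 h1, one_mul]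
  · intro c c' h
    rw [proj_ej, proj_ej, QuotientGroup.eq] at h
    have h1 : ej G N c' * (ej G N c)⁻¹ ∈ N := by
      have h2 := (inferInstance : N.Normal).conj_mem _ h (ej G N c)
      rwa [mul_inv_cancel_left] at h2
    obtain ⟨g, hg⟩ : ej G N c' * (ej G N c)⁻¹ ∈ f.range := hr.symm ▸ h1
    refine ⟨g, (ej G N).injective ?_⟩
    rw [hs, hg, inv_mul_cancel_right]
  · intro g c h
    have h1 := congrArg (ej G N) h
    rw [hs] at h1
    refine hf ?_
    rw [map_one]
    exact mul_eq_right.1 h1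

/-- the `ℓ²`-homology of the universal cover and of the Davis complex -/
theorem l2_QN {i : ℕ} (h : L2HomologyZero ((QN G N).cover 1) i) :
    Pool.Agent.H4.Singer.L2HomologyZero G i := by
  intro ν hν z hz hbz ε hε
  have h0 : IsL2Chain ((QN G N).cover 1) i fun σ c => z σ (ej G N c) := by
    refine ⟨fun σ c hc => ⟨subset_univ σ, hz.supp σ _ hc⟩, fun σ c _ v hv => ?_, fun σ => ?_⟩
    · show z σ (ej G N ((QN G N).nbc 1 v c)) = - z σ (ej G N c)
      rw [ej_nb]
      exact hz.anti σ v hv _
    · exact ((ej G N).summable_iff (f := fun w => ‖z σ w‖ ^ 2)).2 (hz.l2 σ)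
  obtain ⟨y, hy, hyz⟩ := h ν hν _ h0
    (funext fun σ => funext fun c => congrFun (congrFun hbz σ) (ej G N c)) ε hε
  refine ⟨fun σ w => y σ ((ej G N).symm w), ⟨fun σ w hw => (hy.supp σ _ hw).2, fun σ v hv w => ?_,
    fun σ => ?_⟩, ?_⟩
  · have h1 : (ej G N).symm (w * gen G v) = (QN G N).nbc 1 v ((ej G N).symm w) := by
      refine (ej G N).injective ?_
      rw [ej_nb, Equiv.apply_symm_apply, Equiv.apply_symm_apply]
    show y σ ((ej G N).symm (w * gen G v)) = - y σ ((ej G N).symm w)
    rw [h1]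
    exact hy.anti σ _ (subset_univ σ) v hv
  · exact ((ej G N).symm.summable_iff (f := fun c => ‖y σ c‖ ^ 2)).2 (hy.l2 σ)
  · refine lt_of_eq_of_lt (sum_congr rfl fun σ _ => ?_) hyz
    rw [← (ej G N).tsum_eq]
    refine tsum_congr fun c => ?_
    have h2 : Pool.Agent.H4.Singer.dbd ν (fun σ w => y σ ((ej G N).symm w)) σ (ej G N c) =
        bdry ν y σ c := by
      unfold Pool.Agent.H4.Singer.dbd bdry
      refine sum_congr rfl fun v _ => ?_
      show _ * y (insert v σ) ((ej G N).symm (ej G N c)) = _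
      rw [Equiv.symm_apply_apply]
    rw [h2]

end Quo

/-- **Singer's conjecture for right-angled Coxeter groups** which act properly on a homology manifold. -/
theorem acts_l2 {V : Type} [DecidableEq V] [Fintype V] {G : SimpleGraph V} {n d i : ℕ}
    (hd : ∀ σ : Finset V, G.IsClique (σ : Set V) → σ.card ≤ d) (h : Acts (RGrp G) n d)
    (hi : n < 2 * i) : Pool.Agent.H4.Singer.L2HomologyZero G i := by
  classical
  obtain ⟨P, hP, U, _, _, K, B, hM, hA⟩ := h
  let N : Subgroup (RGrp G) := P.normalCore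
  have hN : N ≤ P := Subgroup.normalCore_le P
  have hNf : N.FiniteIndex := inferInstance
  let _ : Fintype (RGrp G ⧸ N) := Subgroup.fintypeQuotientOfFiniteIndex
  let f : N.subgroupOf P →* RGrp G := P.subtype.comp (N.subgroupOf P).subtype
  have hf : Function.Injective f := fun a b hab => Subtype.ext (Subtype.ext hab)
  have hr : f.range = N := by
    ext w
    constructor
    · rintro ⟨g, rfl⟩
      exact g.2
    · intro hw
      exact ⟨⟨⟨w, hN hw⟩, hw⟩, rfl⟩
  let _ := actN G N f
  exact l2_QN G N (Pool.Agent.S10.l2_of_properD (QN G N) 1 (isDeckN G N f hf hr)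
    (fun x σ _ hσ => hd σ hσ) (hM.sub (N.subgroupOf P)) (PAct.sub hA (N.subgroupOf P)) hi)

end Pool.Agent.H3.SL

end

section

/-!
# A class of labelled flag complexes
-/

set_option autoImplicit false
set_option linter.unusedSectionVars false

open Finset

namespace Pool.Agent.H3.SL

open Pool.Agent.H4.FC Pool.Agent.H4.FD Pool.Agent.H4.HY Pool.Agent.H85.VK Pool.Agent.H85.Fold4 Pool.Agent.H19.VX Pool.Agent.H19.Cub Pool.Agent.H19.LI Pool.Agent.H73.LK
open Pool.Agent.H4.Singer (racg)

theorem acts_of_eq {V : Type} [DecidableEq V] [Fintype V] {M M' : CoxeterMatrix V} (h : M = M')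
    {n d : ℕ} (hA : Acts M.Group n d) : Acts M'.Group n d := by
  subst h
  exact hA

/-- **The main theorem for the Davis complex.** -/
theorem Vanishing.l2 {V : Type} [iD : DecidableEq V] [iF : Fintype V] {M : CoxeterMatrix V} {i : ℕ}
    (h : Vanishing M i) : L2HomologyZero M i := by
  induction h with
  | ball M hM n i hi K hK e => exact hM.l2 (ball_l2 hK e hi)
  | acts M hM n d i hi hd h => exact hM.l2 (acts_l2 hd (acts_of_eq hM.eq h) hi)
  | finite M hM i hi => exact l2_clique (sph_of_finite hM) hi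
  | infinite M hM => exact l2_infinite hM
  | vanKampen M hM k i hk hdim h => exact Pool.Agent.H77.SX.fc_all M hM k hdim h i hk
  | dual M hM n i j hL hij _ h => exact pd hM hL.is hij h
  | codim M hM m i hm _ h =>
    refine vanS_univ.1 (codimY (fun Y i hi hY => ?_) m i hm univ ?_)
    · refine vanS_of_sub (l2_clique (sph_sub (hM Y fun u hu v hv huv => ⟨huv, hY u hu v hv⟩)) hi)
    · intro σ _ hσm hσ Z _ hZ j hj
      refine vanS_of_sub (h σ Z ?_ hσm ?_ j hj)
      · exact fun u hu v hv huv => ⟨huv, hσ u hu v hv⟩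
      · exact fun v hv u hu => ⟨fun h => (hZ v hv).1 (h ▸ hu), (hZ v hv).2 u hu⟩
  | glue M A B i hAB h0 _ _ _ hA hB hC =>
    exact am (cover hAB h0) (vanS_of_sub hA) (vanS_of_sub hB) (vanS_of_sub hC)
  | part M A B i hAB h0 _ _ hM hC =>
    exact sub_of_vanS (am' (cover hAB h0) hM (vanS_of_sub hC))
  | prod M A B i S hAB hd h2 _ _ hA hB =>
    refine Pool.Agent.H73.LK.prod hd hAB h2 i fun p q hpq => ?_
    by_cases hp : p ∈ S
    · exact Or.inl (vanS_of_sub (hA p (by omega) hp))
    · have hq : i - p = q := by omega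
      exact Or.inr (hq ▸ vanS_of_sub (hB p (by omega) hp))

end Pool.Agent.H3.SL

end
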