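import Pool.Agent.H71.TSG.H10.CI.CDefs
import Pool.Agent.H71.TSG.M04
import Pool.Agent.H71.TSG.M11
import Pool.Agent.H71.TSG.M14

/-! The parts of this file: H10.CI.CDefs_1, H65.BU.Main, H65.RM.Height, H65.RM.Stokes, H78.RA.Bd, H78.RA.Two, H78.RC.Defs_1, H78.RC.RootA, H78.RC.Root. -/

section

/-!
# Coarse embeddings of groups

`CoarseEmb f`: the map `f : A → Λ` of groups is a coarse embedding (for the left invariant coarse structures).
-/

set_option autoImplicit false

namespace Pool.Agent.H10.CI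

theorem CoarseEmb.prop_fin {A Λ : Type} [Group A] [Group Λ] {f : A → Λ} (hf : CoarseEmb f)
    {E : Set Λ} (hE : E.Finite) : {a : A | ∃ g : A, (f g)⁻¹ * f (g * a) ∈ E}.Finite := by
  have h1 : {a : A | ∃ g : A, (f g)⁻¹ * f (g * a) ∈ E} ⊆
      ⋃ x ∈ E, {a : A | ∃ g : A, (f g)⁻¹ * f (g * a) = x} := by
    rintro a ⟨g, hg⟩
    exact Set.mem_biUnion hg ⟨g, rfl⟩
  exact (hE.biUnion fun x _ => hf.prop x).subset h1

end Pool.Agent.H10.CI

end

section

/-!
# Project BU: the main theorem, abstract form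

PROOF: `hz_of_pairing G (k + 1)`; `exists_inter (oct G) p`; `exists_apts`; `exists_hh`; `D = hh + AA (nu e)`;
`exists_half` for `m = 2 k + 2`: there `hh = 0`, so `AA = dl d + (d' + d'ᵀ)` on the Ok pairs of total degree
`2 k + 2`. Sum `z s z t KK(…) s t`: `KK_congr`, `KK_add`, `KK_dl`, `KK_swap`; the cycle condition kills the first
part, symmetry the second, `KK_AA`, `pair_ev`.
-/

set_option autoImplicit false

open Finset

namespace Pool.Agent.H65.BU

/-- the sum against a cycle of a sum over faces vanishes -/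
theorem sum_cycle {V : Type} [Fintype V] [DecidableEq V] (z : Finset V → ZMod 2)
    (hdz : ∀ s, ∑ v ∈ sᶜ, z (insert v s) = 0) (f : Finset V → ZMod 2) :
    ∑ s : Finset V, z s * ∑ v ∈ s, f (s.erase v) = 0 := by
  have h2 : ∑ s : Finset V, z s * ∑ v ∈ s, f (s.erase v) =
      ∑ ρ : Finset V, (∑ v ∈ ρᶜ, z (insert v ρ)) * f ρ := by
    simp only [mul_sum, sum_mul]
    rw [sum_sigma', sum_sigma']
    refine sum_bij' (fun p _ => ⟨p.1.erase p.2, p.2⟩) (fun p _ => ⟨insert p.2 p.1, p.2⟩)
      ?_ ?_ ?_ ?_ ?_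
    · rintro ⟨σ, v⟩ _
      simp
    · rintro ⟨ρ, v⟩ _
      simp
    · rintro ⟨σ, v⟩ h
      simp only [mem_sigma, mem_univ, true_and] at h
      simp only [insert_erase h]
    · rintro ⟨ρ, v⟩ h
      simp only [mem_sigma, mem_univ, true_and, mem_compl] at h
      simp only [erase_insert h]
    · rintro ⟨σ, v⟩ h
      simp only [mem_sigma, mem_univ, true_and] at h
      simp only [insert_erase h]
  rw [h2]
  exact sum_eq_zero fun ρ _ => by rw [hdz, zero_mul]

/-- the double sum of a boundary and of a symmetric function against a cycle vanishes -/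
theorem double_sum {V : Type} [Fintype V] [DecidableEq V] (z : Finset V → ZMod 2)
    (hdz : ∀ s, ∑ v ∈ sᶜ, z (insert v s) = 0) (a b : Finset V → Finset V → ZMod 2) :
    ∑ s : Finset V, ∑ t : Finset V, z s * z t *
      ((∑ v ∈ s, a (s.erase v) t + ∑ v ∈ t, a s (t.erase v)) + (b s t + b t s)) = 0 := by
  have h1 : ∑ s : Finset V, ∑ t : Finset V, z s * z t * ∑ v ∈ s, a (s.erase v) t = 0 := by
    rw [sum_comm]
    refine sum_eq_zero fun t _ => ?_
    have h2 := congrArg (fun c => z t * c) (sum_cycle z hdz fun s => a s t)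
    simp only [mul_zero] at h2
    rw [mul_sum] at h2
    rw [← h2]
    exact sum_congr rfl fun s _ => by ring
  have h3 : ∑ s : Finset V, ∑ t : Finset V, z s * z t * ∑ v ∈ t, a s (t.erase v) = 0 := by
    refine sum_eq_zero fun s _ => ?_
    have h2 := congrArg (fun c => z s * c) (sum_cycle z hdz fun t => a s t)
    simp only [mul_zero] at h2
    rw [mul_sum] at h2
    rw [← h2]
    exact sum_congr rfl fun t _ => by ring
  have h4 : ∑ s : Finset V, ∑ t : Finset V, z s * z t * b t s =
      ∑ s : Finset V, ∑ t : Finset V, z s * z t * b s t := by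
    rw [sum_comm]
    exact sum_congr rfl fun s _ => sum_congr rfl fun t _ => by ring
  have h5 : ∑ s : Finset V, ∑ t : Finset V, z s * z t *
      ((∑ v ∈ s, a (s.erase v) t + ∑ v ∈ t, a s (t.erase v)) + (b s t + b t s)) =
      ((∑ s : Finset V, ∑ t : Finset V, z s * z t * ∑ v ∈ s, a (s.erase v) t) +
        ∑ s : Finset V, ∑ t : Finset V, z s * z t * ∑ v ∈ t, a s (t.erase v)) +
      ((∑ s : Finset V, ∑ t : Finset V, z s * z t * b s t) +
        ∑ s : Finset V, ∑ t : Finset V, z s * z t * b t s) := by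
    simp only [← sum_add_distrib]
    exact sum_congr rfl fun s _ => sum_congr rfl fun t _ => by ring
  rw [h5, h1, h3, h4, add_zero, zero_add]
  exact ZModModule.add_self _

end Pool.Agent.H65.BU

end

section

/-!
# Project RM: a function which is injective on the simplices

The complex is connected (it is acyclic) and locally finite, so its set of vertices is countable.
-/

set_option autoImplicit false

open Finset

namespace Pool.Agent.H65.RM

open Pool.Agent.H37.TM

theorem exists_height {U : Type} [DecidableEq U] {K B : Set (Finset U)} {n : ℕ}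
    (hM : Pool.Agent.H37.TM.Mfd K B n) (hK : Pool.Agent.H37.TM.Acyc K) :
    ∃ ht : U → ℕ, ∀ s ∈ K, Set.InjOn ht (s : Set U) := by
  classical
  rcases Set.eq_empty_or_nonempty K with rfl | ⟨s0, hs0⟩
  · exact ⟨fun _ => 0, fun s hs => (Set.notMem_empty s hs).elim⟩
  obtain ⟨u0, hu0⟩ := hM.ne s0 hs0
  have hu : ({u0} : Finset U) ∈ K :=
    hM.down s0 hs0 _ (Finset.singleton_subset_iff.mpr hu0) (Finset.singleton_nonempty u0)
  -- the neighbours of a vertex
  have hE : ∀ v : U, {w : U | ({v, w} : Finset U) ∈ K}.Finite := by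
    intro v
    by_cases hv : ({v} : Finset U) ∈ K
    · have hF := hM.locfin _ hv
      refine (hF.biUnion (t := fun t : Finset U => (t : Set U))
        (fun t _ => t.finite_toSet)).subset ?_
      intro w hw
      simp only [Set.mem_iUnion]
      exact ⟨{v, w}, ⟨hw, by simp⟩, by simp⟩
    · refine Set.Finite.subset Set.finite_empty ?_
      intro w hw
      exact hv (hM.down _ hw _ (by simp) (Finset.singleton_nonempty v))
  -- the balls around `u0`
  obtain ⟨Bl, hB0, hB1⟩ : ∃ Bl : ℕ → Set U, Bl 0 = {u0} ∧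
      ∀ k, Bl (k + 1) = Bl k ∪ ⋃ v ∈ Bl k, {w : U | ({v, w} : Finset U) ∈ K} :=
    ⟨fun k => Nat.rec {u0} (fun _ S => S ∪ ⋃ v ∈ S, {w : U | ({v, w} : Finset U) ∈ K}) k,
      rfl, fun k => rfl⟩
  have hfin : ∀ k, (Bl k).Finite := by
    intro k
    induction k with
    | zero => rw [hB0]; exact Set.finite_singleton u0
    | succ k ih => rw [hB1]; exact ih.union (ih.biUnion fun v _ => hE v)
  set R : Set U := ⋃ k, Bl k with hR
  have hcount : R.Countable := Set.countable_iUnion fun k => (hfin k).countable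
  have hu0R : u0 ∈ R := Set.mem_iUnion.mpr ⟨0, by rw [hB0]; rfl⟩
  have hstep : ∀ a b : U, ({a, b} : Finset U) ∈ K → a ∈ R → b ∈ R := by
    intro a b hab ha
    obtain ⟨k, hk⟩ := Set.mem_iUnion.mp ha
    refine Set.mem_iUnion.mpr ⟨k + 1, ?_⟩
    rw [hB1]
    exact Or.inr (Set.mem_biUnion hk hab)
  -- every vertex is in `R`
  have hall : ∀ v : U, ({v} : Finset U) ∈ K → v ∈ R := by
    intro v hv
    by_contra hvR
    let w : Finset U → ZMod 2 := fun s => if ∃ a ∈ R, s = {a} then 1 else 0
    have hw1 : ∀ a, w {a} = if a ∈ R then 1 else 0 := by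
      intro a
      by_cases ha : a ∈ R
      · rw [if_pos ha]
        exact if_pos ⟨a, ha, rfl⟩
      · rw [if_neg ha]
        refine if_neg ?_
        rintro ⟨b, hb, hab⟩
        rw [Finset.singleton_inj.mp hab] at ha
        exact ha hb
    have hw0 : ∀ s : Finset U, s.card ≠ 1 → w s = 0 := by
      intro s hs
      refine if_neg ?_
      rintro ⟨b, -, hab⟩
      exact hs (by rw [hab, Finset.card_singleton])
    let φ : (Finset U →₀ ZMod 2) →ₗ[ZMod 2] ZMod 2 := Finsupp.linearCombination (ZMod 2) w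
    have hφ : ∀ s : Finset U, φ (Finsupp.single s 1) = w s := by
      intro s
      simp only [φ, Finsupp.linearCombination_single, one_smul]
    have hbd : ∀ s : Finset U, φ (bdS (Finsupp.single s 1)) = ∑ x ∈ s, w (s.erase x) := by
      intro s
      simp only [bdS, Finsupp.linearCombination_single, one_smul, map_sum, hφ]
    have hbd0 : ∀ s ∈ K, φ (bdS (Finsupp.single s 1)) = 0 := by
      intro s hs
      rw [hbd]
      by_cases hc : s.card = 2
      · obtain ⟨a, b, hab, rfl⟩ := Finset.card_eq_two.mp hc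
        have h1 : ({a, b} : Finset U).erase a = {b} := by
          rw [Finset.erase_insert (by simpa using hab)]
        have h2 : ({a, b} : Finset U).erase b = {a} := by
          rw [Finset.pair_comm, Finset.erase_insert (by simpa using hab.symm)]
        rw [Finset.sum_pair hab, h1, h2, hw1, hw1]
        have hiff : a ∈ R ↔ b ∈ R :=
          ⟨hstep a b hs, hstep b a (by rw [Finset.pair_comm]; exact hs)⟩
        by_cases ha : a ∈ R
        · rw [if_pos ha, if_pos (hiff.mp ha)]; decide
        · rw [if_neg ha, if_neg (fun hb => ha (hiff.mpr hb))]; decide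
      · refine Finset.sum_eq_zero fun x hx => hw0 _ ?_
        rw [Finset.card_erase_of_mem hx]
        have := Finset.card_pos.mpr ⟨x, hx⟩
        omega
    obtain ⟨g, hg, hgf⟩ := hK (Finsupp.single {u0} 1 + Finsupp.single {v} 1)
      (by
        intro s hs
        left
        by_contra hsK
        apply hs
        have e1 : ({u0} : Finset U) ≠ s := fun h => hsK (h ▸ hu)
        have e2 : ({v} : Finset U) ≠ s := fun h => hsK (h ▸ hv)
        rw [Finsupp.add_apply, Finsupp.single_eq_of_ne' e1, Finsupp.single_eq_of_ne' e2, add_zero])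
      (by
        rw [map_add]
        have : ∀ a : U, bdS (Finsupp.single ({a} : Finset U) (1 : ZMod 2)) =
            Finsupp.single ∅ 1 := by
          intro a
          simp only [bdS, Finsupp.linearCombination_single, one_smul, Finset.sum_singleton]
          rw [Finset.erase_eq_empty_iff _ _ |>.mpr (Or.inr rfl)]
        rw [this, this, ← Finsupp.single_add]
        have h2 : (1 : ZMod 2) + 1 = 0 := by decide
        rw [h2, Finsupp.single_zero])
    have hz : φ (bdS g) = 0 := by
      have hsum : g = ∑ s ∈ g.support, g s • Finsupp.single s (1 : ZMod 2) := by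
        conv_lhs => rw [← Finsupp.sum_single g]
        rw [Finsupp.sum]
        refine Finset.sum_congr rfl fun s _ => ?_
        rw [Finsupp.smul_single, smul_eq_mul, mul_one]
      rw [hsum, map_sum, map_sum]
      refine Finset.sum_eq_zero fun s hs => ?_
      rw [map_smul, map_smul, hbd0 s (hg s (Finsupp.mem_support_iff.mp hs)), smul_zero]
    rw [hgf, map_add, hφ, hφ, hw1, hw1, if_pos hu0R, if_neg hvR, add_zero] at hz
    exact one_ne_zero hz
  -- the injection
  obtain ⟨e, he⟩ := Set.countable_iff_exists_injOn.mp hcount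
  refine ⟨e, fun s hs => ?_⟩
  intro a ha b hb hab
  have hmem : ∀ x ∈ (s : Set U), x ∈ R := fun x hx =>
    hall x (hM.down s hs _ (Finset.singleton_subset_iff.mpr hx) (Finset.singleton_nonempty x))
  exact he (hmem a ha) (hmem b hb) hab

end Pool.Agent.H65.RM

end

section

/-!
# Project RM: sums of coboundaries over the top simplices
-/

set_option autoImplicit false
set_option linter.unusedSectionVars false

open Finset

namespace Pool.Agent.H65.RM

open Pool.Agent.H37.TM

variable {U : Type} [DecidableEq U] {K B : Set (Finset U)} {n : ℕ}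

/-- an interior simplex with `n` vertices has an even number of cofaces -/
theorem cofs_even (hM : Mfd K B n) {s : Finset U} (hs : s ∈ K) (hB : s ∉ B)
    (hc : s.card = n) : ((cofs K s (n + 1)).card : ZMod 2) = 0 := by
  classical
  have hB' : ∀ t ∈ K, s ⊆ t → t ∉ B := fun t _ hst h => hB (hM.bd_down t h s hst (hM.ne s hs))
  have h1 := (hM.top s hs (fun t => if t ∈ cofs K s (n + 1) then 1 else 0) (by
    intro t ht'
    beta_reduce at ht'
    split_ifs at ht' with h
    · rw [mem_cofs hM hs] at h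
      exact ⟨h.1, hB' t h.1 h.2.1, h.2⟩
    · exact absurd rfl ht')).2 ⟨fun t => if t = s then 1 else 0, by
      intro t ht'
      beta_reduce at ht'
      split_ifs at ht' with h
      · rw [h]; exact ⟨hs, hB, subset_rfl, hc⟩
      · exact absurd rfl ht', by
      intro t htK htB hst
      beta_reduce
      have hcard := hM.card_le t htK
      have hst' := Finset.card_le_card hst
      by_cases h : t.card = n + 1
      · rw [if_pos ((mem_cofs hM hs).2 ⟨htK, hst, h⟩)]
        have h7 : (t \ s).card = 1 := by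
          rw [Finset.card_sdiff_of_subset hst]; omega
        obtain ⟨w, hw⟩ := Finset.card_eq_one.1 h7
        rw [hw, Finset.sum_singleton, if_pos]
        have hw1 : w ∈ t ∧ w ∉ s := by
          rw [← Finset.mem_sdiff, hw]; exact Finset.mem_singleton_self w
        have h8 : s ⊆ t.erase w := Finset.subset_erase.2 ⟨hst, hw1.2⟩
        refine (Finset.eq_of_subset_of_card_le h8 ?_).symm
        rw [Finset.card_erase_of_mem hw1.1]; omega
      · rw [if_neg (fun h' => h ((mem_cofs hM hs).1 h').2.2)]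
        have h9 : t = s := (Finset.eq_of_subset_of_card_le hst (by omega)).symm
        rw [h9, Finset.sdiff_self, Finset.sum_empty]⟩
  rw [← h1, finsum_eq_sum_of_support_subset (s := cofs K s (n + 1)) _ (by
    intro t ht'
    rw [Function.mem_support] at ht'
    split_ifs at ht' with h
    · exact h
    · exact absurd rfl ht'), Finset.sum_ite_mem, Finset.inter_self, Finset.sum_const,
    nsmul_eq_mul, mul_one]

/-- the interior top simplices -/
def Top (K B : Set (Finset U)) (n : ℕ) (t : Finset U) : Prop := t ∈ K ∧ t ∉ B ∧ t.card = n + 1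

open Classical in
/-- the sum of a coboundary over the top simplices -/
theorem stokes (hM : Mfd K B n) (ω : Finset U → ZMod 2) (hfin : {r | ω r ≠ 0}.Finite)
    (hω : ∀ r, ω r ≠ 0 → r ∈ K ∧ r ∉ B ∧ r.card = n) :
    ∑ᶠ t, (if Top K B n t then cob ω t else 0) = 0 := by
  classical
  let R := hfin.toFinset
  have hR : ∀ r, r ∈ R ↔ ω r ≠ 0 := fun r => hfin.mem_toFinset
  let T := R.biUnion fun r => cofs K r (n + 1)
  have h1 : ∀ t, Top K B n t → cob ω t = ∑ r ∈ R, if r ⊆ t then ω r else 0 := by
    intro t ht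
    have h2 : ∑ r ∈ R, (if r ⊆ t then ω r else 0) =
        ∑ r ∈ t.image (fun v => t.erase v), if r ∈ R then ω r else 0 := by
      rw [← sum_filter, ← sum_filter]
      refine sum_congr ?_ fun _ _ => rfl
      ext r
      rw [mem_filter, mem_filter, mem_image]
      constructor
      · rintro ⟨h3, h4⟩
        refine ⟨?_, h3⟩
        have h5 := (hω r ((hR r).1 h3)).2.2
        have h6 : (t \ r).card = 1 := by
          rw [card_sdiff_of_subset h4, ht.2.2, h5]
          omega
        obtain ⟨w, hw⟩ := card_eq_one.1 h6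
        have hw1 : w ∈ t ∧ w ∉ r := by
          rw [← mem_sdiff, hw]
          exact mem_singleton_self w
        refine ⟨w, hw1.1, ?_⟩
        refine (eq_of_subset_of_card_le (subset_erase.2 ⟨h4, hw1.2⟩) ?_).symm
        rw [card_erase_of_mem hw1.1, ht.2.2, h5]
        omega
      · rintro ⟨⟨v, hv, rfl⟩, h3⟩
        exact ⟨h3, erase_subset v t⟩
    rw [h2, sum_image]
    · unfold cob
      refine sum_congr rfl fun v _ => ?_
      by_cases h3 : t.erase v ∈ R
      · rw [if_pos h3]
      · rw [if_neg h3]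
        rw [hR, not_not] at h3
        exact h3
    · intro v hv w hw hvw
      have hvw' : t.erase v = t.erase w := hvw
      exact erase_injOn t hv hw hvw'
  rw [finsum_eq_sum_of_support_subset (s := T) _ (by
    intro t ht
    rw [Function.mem_support] at ht
    have h2 : Top K B n t := by
      by_contra h
      exact ht (if_neg h)
    rw [if_pos h2, h1 t h2] at ht
    obtain ⟨r, hr, hne⟩ := exists_ne_zero_of_sum_ne_zero ht
    have h3 : r ⊆ t := by
      by_contra h
      exact hne (if_neg h)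
    exact mem_coe.2 (mem_biUnion.2 ⟨r, hr, (mem_cofs hM (hω r ((hR r).1 hr)).1).2
      ⟨h2.1, h3, h2.2.2⟩⟩))]
  have h2 : ∀ t ∈ T, (if Top K B n t then cob ω t else 0) =
      ∑ r ∈ R, if t ∈ cofs K r (n + 1) then ω r else 0 := by
    intro t ht
    by_cases h3 : Top K B n t
    · rw [if_pos h3, h1 t h3]
      refine sum_congr rfl fun r hr => if_congr ?_ rfl rfl
      rw [mem_cofs hM (hω r ((hR r).1 hr)).1]
      exact ⟨fun h => ⟨h3.1, h, h3.2.2⟩, fun h => h.2.1⟩
    · rw [if_neg h3]
      symm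
      refine sum_eq_zero fun r hr => if_neg fun h => h3 ?_
      have h4 := hω r ((hR r).1 hr)
      rw [mem_cofs hM h4.1] at h
      exact ⟨h.1, fun h5 => h4.2.1 (hM.bd_down t h5 r h.2.1 (hM.ne r h4.1)), h.2.2⟩
  rw [sum_congr rfl h2, sum_comm]
  refine sum_eq_zero fun r hr => ?_
  have h3 : ∑ t ∈ T, (if t ∈ cofs K r (n + 1) then ω r else 0) =
      ∑ t ∈ cofs K r (n + 1), ω r := by
    rw [← sum_filter]
    refine sum_congr ?_ fun _ _ => rfl
    ext t
    rw [mem_filter]
    exact ⟨fun h => h.2, fun h => ⟨mem_biUnion.2 ⟨r, hr, h⟩, h⟩⟩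
  have h4 := hω r ((hR r).1 hr)
  rw [h3, sum_const, nsmul_eq_mul, cofs_even hM h4.1 h4.2.1 h4.2.2, zero_mul]

end Pool.Agent.H65.RM

end

section

/-!
# The boundary operator of the complex of all finite subsets
-/

set_option autoImplicit false
set_option linter.unusedSectionVars false

namespace Pool.Agent.H78.RA

open Finset

variable {V : Type*} [Fintype V] [DecidableEq V] {E F : Type*} [AddCommGroup E] [AddCommGroup F]

/-- the incidence sign -/
def sg (ν : V → ℕ) (τ : Finset V) (v : V) : ℤ := (-1) ^ (τ.filter fun u => ν u < ν v).card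

omit [Fintype V] in
theorem sg_insert (ν : V → ℕ) (τ : Finset V) (u v : V) (hv : v ∉ τ) :
    sg ν (insert v τ) u = sg ν τ u * (if ν v < ν u then -1 else 1) := by
  unfold sg
  rw [Finset.filter_insert]
  split_ifs with h
  · rw [Finset.card_insert_of_notMem (by simp [hv]), pow_succ]
  · rw [mul_one]

/-- the boundary -/
def bd (ν : V → ℕ) (f : Finset V → E) (τ : Finset V) : E := ∑ v ∈ τᶜ, sg ν τ v • f (insert v τ)

theorem bd_bd (ν : V → ℕ) (hν : Function.Injective ν) (f : Finset V → E) (τ : Finset V) :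
    bd ν (bd ν f) τ = 0 := by
  unfold bd
  have h1 : ∀ v ∈ τᶜ, (sg ν τ v • ∑ u ∈ (insert v τ)ᶜ, sg ν (insert v τ) u • f (insert u (insert v τ)))
      = ∑ u ∈ (insert v τ)ᶜ, (sg ν τ v * sg ν (insert v τ) u) • f (insert u (insert v τ)) := by
    intro v _
    rw [Finset.smul_sum]
    apply Finset.sum_congr rfl
    intro u _
    rw [mul_smul]
  rw [Finset.sum_congr rfl h1, Finset.sum_sigma']
  apply Finset.sum_involution (fun a _ => (⟨a.2, a.1⟩ : (_ : V) × V))
  · rintro ⟨v, u⟩ ha
    rw [Finset.mem_sigma, Finset.mem_compl, Finset.mem_compl, Finset.mem_insert, not_or] at ha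
    obtain ⟨hv, huv, hu⟩ := ha
    show (sg ν τ v * sg ν (insert v τ) u) • f (insert u (insert v τ))
      + (sg ν τ u * sg ν (insert u τ) v) • f (insert v (insert u τ)) = 0
    rw [Finset.insert_comm v u τ, ← add_smul, sg_insert ν τ u v hv, sg_insert ν τ v u hu]
    have hne : ν v ≠ ν u := fun h => huv (hν h).symm
    rcases lt_or_gt_of_ne hne with h | h
    · rw [if_pos h, if_neg (not_lt.2 h.le), show sg ν τ v * (sg ν τ u * -1)
        + sg ν τ u * (sg ν τ v * 1) = 0 by ring, zero_smul]
    · rw [if_neg (not_lt.2 h.le), if_pos h, show sg ν τ v * (sg ν τ u * 1)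
        + sg ν τ u * (sg ν τ v * -1) = 0 by ring, zero_smul]
  · rintro ⟨v, u⟩ ha _ hc
    rw [Finset.mem_sigma, Finset.mem_compl, Finset.mem_compl, Finset.mem_insert, not_or] at ha
    have h2 : u = v := congrArg Sigma.fst hc
    exact ha.2.1 h2
  · rintro ⟨v, u⟩ ha
    rw [Finset.mem_sigma, Finset.mem_compl, Finset.mem_compl, Finset.mem_insert, not_or] at ha ⊢
    exact ⟨ha.2.2, fun h => ha.2.1 h.symm, ha.1⟩
  · rintro ⟨v, u⟩ _
    rfl

theorem map_bd (ν : V → ℕ) (φ : E →+ F) (f : Finset V → E) (τ : Finset V) :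
    bd ν (fun σ => φ (f σ)) τ = φ (bd ν f τ) := by
  unfold bd
  rw [map_sum]
  apply Finset.sum_congr rfl
  intro v _
  rw [map_zsmul]

theorem bd_add (ν : V → ℕ) (f g : Finset V → E) : bd ν (f + g) = bd ν f + bd ν g := by
  funext τ
  unfold bd
  rw [Pi.add_apply, ← Finset.sum_add_distrib]
  apply Finset.sum_congr rfl
  intro v _
  rw [Pi.add_apply, smul_add]

/-- a predicate on finite sets contains the faces of the sets of another predicate -/
def Faces (P Q : Finset V → Prop) : Prop := ∀ τ v, v ∉ τ → P (insert v τ) → Q τ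

theorem bd_supp (ν : V → ℕ) {P Q : Finset V → Prop} (hPQ : Faces P Q) (f : Finset V → E)
    (hf : ∀ σ, f σ ≠ 0 → P σ) (τ : Finset V) (h : bd ν f τ ≠ 0) : Q τ := by
  unfold bd at h
  obtain ⟨v, hv, hne⟩ := Finset.exists_ne_zero_of_sum_ne_zero h
  apply hPQ τ v (Finset.mem_compl.1 hv)
  apply hf
  intro h0
  rw [h0, smul_zero] at hne
  exact hne rfl

end Pool.Agent.H78.RA

end

section

/-!
# Exactness modulo two implies exactness over `ℂ`
-/

set_option autoImplicit false
set_option linter.unusedSectionVars false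

namespace Pool.Agent.H78.RA

open Finset

section LinAlg

variable {K : Type*} [Field K] {A B : Type*} [AddCommGroup A] [Module K A] [AddCommGroup B]
  [Module K B]

/-- generalized inverses -/
theorem exists_ginv (f : A →ₗ[K] B) : ∃ s : B →ₗ[K] A, ∀ a, f (s (f a)) = f a := by
  obtain ⟨r, hr⟩ := LinearMap.exists_rightInverse_of_surjective f.rangeRestrict
    (LinearMap.range_rangeRestrict f)
  obtain ⟨s, hs⟩ := LinearMap.exists_extend r
  refine ⟨s, fun a => ?_⟩
  have h1 : s (f a) = r ⟨f a, ⟨a, rfl⟩⟩ := by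
    rw [← hs]
    rfl
  rw [h1]
  have h2 := congrArg (fun φ => (φ ⟨f a, ⟨a, rfl⟩⟩ : LinearMap.range f)) hr
  exact congrArg Subtype.val h2

end LinAlg

section

variable {V : Type*} [Fintype V] [DecidableEq V]

/-- the boundary as a linear map -/
def bdL (R : Type*) [CommRing R] (ν : V → ℕ) : (Finset V → R) →ₗ[R] (Finset V → R) where
  toFun := bd ν
  map_add' := bd_add ν
  map_smul' := by
    intro c f
    funext τ
    show bd ν (c • f) τ = c • bd ν f τ
    exact map_bd ν (AddMonoidHom.mulLeft c) f τ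

open Classical in
/-- the projection to the functions supported on `P` -/
noncomputable def pL (R : Type*) [CommRing R] (P : Finset V → Prop) :
    (Finset V → R) →ₗ[R] (Finset V → R) where
  toFun f := fun σ => if P σ then f σ else 0
  map_add' := by
    intro f g
    funext σ
    show (if P σ then f σ + g σ else 0) = (if P σ then f σ else 0) + (if P σ then g σ else 0)
    split_ifs
    · rfl
    · rw [add_zero]
  map_smul' := by
    intro c f
    funext σ
    show (if P σ then c * f σ else 0) = c * (if P σ then f σ else 0)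
    split_ifs
    · rfl
    · rw [mul_zero]

theorem pL_eq {R : Type*} [CommRing R] {P : Finset V → Prop} {f : Finset V → R}
    (hf : ∀ σ, f σ ≠ 0 → P σ) : pL R P f = f := by
  classical
  funext σ
  show (if P σ then f σ else 0) = f σ
  split_ifs with h
  · rfl
  · by_contra hne
    exact h (hf σ (Ne.symm hne))

theorem pL_supp {R : Type*} [CommRing R] (P : Finset V → Prop) (f : Finset V → R) (σ : Finset V)
    (h : pL R P f σ ≠ 0) : P σ := by
  classical
  by_contra hc
  apply h
  show (if P σ then f σ else 0) = 0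
  rw [if_neg hc]

/-- exactness at `P`: every cycle supported on `P` is the boundary of a chain supported on `Q` -/
def Ex (R : Type*) [CommRing R] (ν : V → ℕ) (P Q : Finset V → Prop) : Prop :=
  ∀ z : Finset V → R, (∀ σ, z σ ≠ 0 → P σ) → bd ν z = 0 →
    ∃ y : Finset V → R, (∀ σ, y σ ≠ 0 → Q σ) ∧ bd ν y = z

/-- an integral lift of a linear map modulo two -/
theorem exists_lift {n : Type*} [Fintype n] [DecidableEq n] (f : (n → ZMod 2) →ₗ[ZMod 2] (n → ZMod 2)) :
    ∃ M : Matrix n n ℤ, M.map (Int.castRingHom (ZMod 2)) = LinearMap.toMatrix' f := by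
  refine ⟨Matrix.of fun i j => ((LinearMap.toMatrix' f i j).val : ℤ), ?_⟩
  ext i j
  rw [Matrix.map_apply, Matrix.of_apply]
  simp

theorem toMatrix_bdL (R : Type*) [CommRing R] (ν : V → ℕ) :
    (LinearMap.toMatrix' (bdL ℤ ν)).map (Int.castRingHom R) = LinearMap.toMatrix' (bdL R ν) := by
  ext τ σ
  rw [Matrix.map_apply, LinearMap.toMatrix'_apply, LinearMap.toMatrix'_apply]
  show (Int.castRingHom R) (bd ν _ τ) = bd ν _ τ
  refine (map_bd ν (Int.castRingHom R).toAddMonoidHom _ τ).symm.trans ?_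
  congr 1
  funext ρ
  by_cases h : ρ = σ
  · subst h; simp
  · simp [h]

theorem toMatrix_pL (R : Type*) [CommRing R] (P : Finset V → Prop) :
    (LinearMap.toMatrix' (pL ℤ P)).map (Int.castRingHom R) = LinearMap.toMatrix' (pL R P) := by
  classical
  ext τ σ
  rw [Matrix.map_apply, LinearMap.toMatrix'_apply, LinearMap.toMatrix'_apply]
  show (Int.castRingHom R) (if P τ then _ else 0) = if P τ then _ else 0
  by_cases h : τ = σ
  · subst h
    split_ifs <;> simp
  · split_ifs <;> simp [h]

theorem ex_two (ν : V → ℕ) (hν : Function.Injective ν) {P Q : Finset V → Prop}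
    (hQP : Faces Q P) (h : Ex (ZMod 2) ν P Q) : Ex ℂ ν P Q := by
  classical
  -- homotopy modulo two
  obtain ⟨s, hs⟩ := exists_ginv (bdL (ZMod 2) ν ∘ₗ pL (ZMod 2) Q)
  obtain ⟨r, hr⟩ := exists_ginv (bdL (ZMod 2) ν ∘ₗ pL (ZMod 2) P)
  set H : (Finset V → ZMod 2) →ₗ[ZMod 2] (Finset V → ZMod 2) :=
    s ∘ₗ (LinearMap.id - pL (ZMod 2) P ∘ₗ r ∘ₗ bdL (ZMod 2) ν ∘ₗ pL (ZMod 2) P) with hH
  have key : bdL (ZMod 2) ν ∘ₗ pL (ZMod 2) Q ∘ₗ H ∘ₗ pL (ZMod 2) P
      + pL (ZMod 2) P ∘ₗ r ∘ₗ bdL (ZMod 2) ν ∘ₗ pL (ZMod 2) P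
      + (LinearMap.id - pL (ZMod 2) P) = LinearMap.id := by
    apply LinearMap.ext
    intro x
    set z := pL (ZMod 2) P x with hz
    have hz' : pL (ZMod 2) P z = z := pL_eq (pL_supp P x)
    set c := z - pL (ZMod 2) P (r (bdL (ZMod 2) ν z)) with hc
    have hcs : ∀ σ, c σ ≠ 0 → P σ := by
      intro σ hσ
      by_contra hn
      apply hσ
      show z σ - (pL (ZMod 2) P (r (bdL (ZMod 2) ν z))) σ = 0
      have e1 : z σ = 0 := by
        by_contra h0
        exact hn (pL_supp P x σ h0)
      have e2 : (pL (ZMod 2) P (r (bdL (ZMod 2) ν z))) σ = 0 := by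
        by_contra h0
        exact hn (pL_supp P _ σ h0)
      rw [e1, e2, sub_zero]
    have hcb : bdL (ZMod 2) ν c = 0 := by
      have h1 := hr z
      simp only [LinearMap.comp_apply, hz'] at h1
      rw [hc, map_sub, h1, sub_self]
    obtain ⟨y, hy1, hy2⟩ := h c hcs hcb
    have h2 : bdL (ZMod 2) ν (pL (ZMod 2) Q (s c)) = c := by
      have h3 := hs y
      simp only [LinearMap.comp_apply, pL_eq hy1] at h3
      rw [show bdL (ZMod 2) ν y = c from hy2] at h3
      exact h3
    simp only [LinearMap.add_apply, LinearMap.comp_apply, LinearMap.sub_apply, LinearMap.id_apply,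
      hH, ← hz, hz', ← hc, h2]
    rw [hc]
    abel
  obtain ⟨MH, hMH⟩ := exists_lift H
  obtain ⟨Mr, hMr⟩ := exists_lift r
  set D := LinearMap.toMatrix' (bdL ℤ ν) with hD
  set MP := LinearMap.toMatrix' (pL ℤ P) with hMP
  set MQ := LinearMap.toMatrix' (pL ℤ Q) with hMQ
  set M : Matrix (Finset V) (Finset V) ℤ :=
    D * (MQ * (MH * MP)) + MP * (Mr * (D * MP)) + (1 - MP) with hM
  have hM2 : M.map (Int.castRingHom (ZMod 2)) = 1 := by
    rw [← LinearMap.toMatrix'_id, ← key]
    simp only [map_add, map_sub, LinearMap.toMatrix'_comp, LinearMap.toMatrix'_id]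
    rw [← toMatrix_bdL (ZMod 2), ← toMatrix_pL (ZMod 2) P, ← toMatrix_pL (ZMod 2) Q, ← hMH, ← hMr, ← hD, ← hMP, ← hMQ, hM]
    have h1 : ∀ A B : Matrix (Finset V) (Finset V) ℤ, (A * B).map (Int.castRingHom (ZMod 2))
        = A.map (Int.castRingHom (ZMod 2)) * B.map (Int.castRingHom (ZMod 2)) := fun A B =>
      Matrix.map_mul
    have h2 : ∀ A B : Matrix (Finset V) (Finset V) ℤ, (A + B).map (Int.castRingHom (ZMod 2))
        = A.map (Int.castRingHom (ZMod 2)) + B.map (Int.castRingHom (ZMod 2)) := fun A B =>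
      Matrix.map_add _ (map_add _) A B
    have h3 : ∀ A B : Matrix (Finset V) (Finset V) ℤ, (A - B).map (Int.castRingHom (ZMod 2))
        = A.map (Int.castRingHom (ZMod 2)) - B.map (Int.castRingHom (ZMod 2)) := fun A B =>
      Matrix.map_sub _ (map_sub _) A B
    rw [h2, h2, h3, h1, h1, h1, h1, h1, h1, Matrix.map_one _ (map_zero _) (map_one _)]
  have hdet : M.det ≠ 0 := by
    intro h0
    have h1 : ((Int.castRingHom (ZMod 2)) M.det) = 1 := by
      rw [RingHom.map_det, RingHom.mapMatrix_apply, hM2, Matrix.det_one]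
    rw [h0, map_zero] at h1
    exact zero_ne_one h1
  -- over the complex numbers
  set MC : Matrix (Finset V) (Finset V) ℂ := M.map (Int.castRingHom ℂ) with hMC
  have hdetC : IsUnit MC.det := by
    rw [isUnit_iff_ne_zero, hMC, ← RingHom.mapMatrix_apply, ← RingHom.map_det]
    intro h0
    exact hdet (Int.cast_injective (α := ℂ) (by simpa using h0))
  have hinj : ∀ x : Finset V → ℂ, MC.mulVec x = 0 → x = 0 := by
    intro x hx
    have h1 : MC⁻¹.mulVec (MC.mulVec x) = x := by
      rw [Matrix.mulVec_mulVec, Matrix.nonsing_inv_mul _ hdetC, Matrix.one_mulVec]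
    rw [← h1, hx, Matrix.mulVec_zero]
  set L := Matrix.toLin' (MH.map (Int.castRingHom ℂ)) with hL
  have hMz : ∀ z : Finset V → ℂ, (∀ σ, z σ ≠ 0 → P σ) → bd ν z = 0 →
      MC.mulVec z = bdL ℂ ν (pL ℂ Q (L z)) := by
    intro z hz1 hz2
    have h1 : ∀ A B : Matrix (Finset V) (Finset V) ℤ, (A * B).map (Int.castRingHom ℂ)
        = A.map (Int.castRingHom ℂ) * B.map (Int.castRingHom ℂ) := fun A B =>
      Matrix.map_mul
    have h2 : ∀ A B : Matrix (Finset V) (Finset V) ℤ, (A + B).map (Int.castRingHom ℂ)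
        = A.map (Int.castRingHom ℂ) + B.map (Int.castRingHom ℂ) := fun A B =>
      Matrix.map_add _ (map_add _) A B
    have h3 : ∀ A B : Matrix (Finset V) (Finset V) ℤ, (A - B).map (Int.castRingHom ℂ)
        = A.map (Int.castRingHom ℂ) - B.map (Int.castRingHom ℂ) := fun A B =>
      Matrix.map_sub _ (map_sub _) A B
    rw [hMC, hM, h2, h2, h3, h1, h1, h1, h1, h1, h1, Matrix.map_one _ (map_zero _) (map_one _),
      hD, hMP, hMQ, toMatrix_bdL, toMatrix_pL, toMatrix_pL]
    simp only [Matrix.add_mulVec, Matrix.sub_mulVec, ← Matrix.mulVec_mulVec, Matrix.one_mulVec]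
    simp only [← Matrix.toLin'_apply, Matrix.toLin'_toMatrix', ← hL]
    rw [pL_eq hz1, show bdL ℂ ν z = 0 from hz2, map_zero, map_zero, sub_self, add_zero, add_zero]
  -- the cycles are mapped bijectively
  intro z hz1 hz2
  set Z : Submodule ℂ (Finset V → ℂ) :=
    { carrier := {x | (∀ σ, x σ ≠ 0 → P σ) ∧ bdL ℂ ν x = 0}
      add_mem' := by
        rintro x y ⟨hx1, hx2⟩ ⟨hy1, hy2⟩
        refine ⟨fun σ hσ => ?_, by rw [map_add, hx2, hy2, add_zero]⟩
        by_contra hn
        apply hσ
        show x σ + y σ = 0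
        have e1 : x σ = 0 := by
          by_contra h0
          exact hn (hx1 σ h0)
        have e2 : y σ = 0 := by
          by_contra h0
          exact hn (hy1 σ h0)
        rw [e1, e2, add_zero]
      zero_mem' := ⟨fun σ hσ => absurd rfl hσ, map_zero _⟩
      smul_mem' := by
        rintro c x ⟨hx1, hx2⟩
        refine ⟨fun σ hσ => hx1 σ fun h0 => hσ ?_, by rw [map_smul, hx2, smul_zero]⟩
        show c * x σ = 0
        rw [h0, mul_zero] } with hZ
  have hmem : ∀ x ∈ Z, MC.mulVecLin x ∈ Z := by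
    rintro x ⟨hx1, hx2⟩
    rw [Matrix.mulVecLin_apply, hMz x hx1 hx2]
    refine ⟨fun σ hσ => bd_supp ν hQP _ (pL_supp Q _) σ hσ, ?_⟩
    funext τ
    exact bd_bd ν hν _ τ
  have hbij : Function.Surjective (MC.mulVecLin.restrict hmem) := by
    apply LinearMap.surjective_of_injective
    intro x y hxy
    have h1 := congrArg Subtype.val hxy
    rw [LinearMap.coe_restrict_apply, LinearMap.coe_restrict_apply] at h1
    have h2 : MC.mulVec (x.1 - y.1) = 0 := by
      rw [Matrix.mulVec_sub]
      exact sub_eq_zero.2 h1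
    exact Subtype.ext (sub_eq_zero.1 (hinj _ h2))
  obtain ⟨⟨x, hx1, hx2⟩, hx⟩ := hbij ⟨z, hz1, hz2⟩
  have h1 := congrArg Subtype.val hx
  rw [LinearMap.coe_restrict_apply] at h1
  refine ⟨pL ℂ Q (L x), pL_supp Q _, ?_⟩
  have h2 := hMz x hx1 hx2
  exact h2.symm.trans h1

end

end Pool.Agent.H78.RA

end

section

/-!
# Project RC: definitions

Minimal blow-ups of the sphere (finite Coxeter groups) and of the torus (affine Coxeter groups) along the
reflection arrangement, as cube complexes with labelled edges.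
-/

set_option autoImplicit false

open Finset

namespace Pool.Agent.H78.RC

open Pool.Agent.H4.FC

section

variable {S : Type}

/-- the set `J` of vertices is nonempty and connected in the graph `D` -/
def Con [DecidableEq S] (D : SimpleGraph S) (J : Finset S) : Prop :=
  J.Nonempty ∧ ∀ A ⊆ J, A.Nonempty → (∀ a ∈ A, ∀ b ∈ J \ A, ¬ D.Adj a b) → A = J

/-- the Coxeter diagram -/
def diag (M : CoxeterMatrix S) : SimpleGraph S where
  Adj u v := u ≠ v ∧ M u v ≠ 2
  symm := ⟨fun u v h => ⟨h.1.symm, by rw [M.symmetric v u]; exact h.2⟩⟩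
  loopless := ⟨fun _ h => h.1 rfl⟩

/-- all elements of `J` commute with all elements of `K` -/
def Sep (M : CoxeterMatrix S) (J K : Finset S) : Prop := ∀ j ∈ J, ∀ k ∈ K, M j k = 2

/-- `t` is a reflection in the parabolic subgroup `W_J` -/
def IsRf (M : CoxeterMatrix S) (J : Finset S) (t : M.Group) : Prop :=
  ∃ w ∈ par M J, ∃ s ∈ J, t = w * M.simple s * w⁻¹

/-! ### Roots -/

/-- the bilinear form with the matrix `k` -/
def bf [Fintype S] (k : S → S → ℝ) (x y : S → ℝ) : ℝ := ∑ u, ∑ v, k u v * x u * y v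

/-- the height -/
def ht [Fintype S] (x : S → ℝ) : ℝ := ∑ u, x u

end

section

variable {S : Type} [Fintype S] [DecidableEq S]

open Classical in
/-- the positive roots of the finite parabolic subgroup `W_J` -/
noncomputable def posR (M : CoxeterMatrix S) (J : Finset S) : Finset (S → ℝ) :=
  ((parF M J ×ˢ J).image fun p => (titsHom M p.1).mulVec (Pi.single p.2 1)).filter
    fun r => ∀ i, 0 ≤ r i

/-- the properties of the positive roots of the parabolic subgroups `W_J`, `ok J` -/
structure LR (k : S → S → ℝ) (ok : Finset S → Prop) (P : Finset S → Finset (S → ℝ)) : Prop where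
  symm : ∀ u v, k u v = k v u
  two : ∀ u, k u u = 2
  nonpos : ∀ u v, u ≠ v → k u v ≤ 0
  nonneg : ∀ J, ok J → ∀ r ∈ P J, ∀ i, 0 ≤ r i
  supp : ∀ J, ok J → ∀ r ∈ P J, ∀ i, i ∉ J → r i = 0
  norm : ∀ J, ok J → ∀ r ∈ P J, bf k r r = 2
  single : ∀ J, ok J → ∀ s ∈ J, Pi.single s 1 ∈ P J
  refl : ∀ J, ok J → ∀ s ∈ J, ∀ r ∈ P J, r ≠ Pi.single s 1 →
    r - bf k r (Pi.single s 1) • (Pi.single s 1 : S → ℝ) ∈ P J
  mem : ∀ J K, ok J → ok K → ∀ r ∈ P J, (∀ i, i ∉ K → r i = 0) → r ∈ P K
  mix : ∀ J K, ok J → ok K → ∀ r ∈ P J, ∀ r' ∈ P K,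
    (∀ i, 0 ≤ (r - bf k r r' • r') i) ∨ (∀ i, (r - bf k r r' • r') i ≤ 0)

/-! ### Quotients of the Coxeter group -/

variable {Q : Type} [Group Q] [Fintype Q]

open Classical in
/-- the label of the face `J` of the chamber `x`: the images of the reflections which fix this face -/
noncomputable def lbl (M : CoxeterMatrix S) (π : M.Group →* Q) (x : Q) (J : Finset S) : Finset Q :=
  univ.filter fun q => ∃ t, IsRf M J t ∧ q = x * π t * x⁻¹

omit [Fintype S] [DecidableEq S] in
theorem mem_lbl {M : CoxeterMatrix S} {π : M.Group →* Q} {x : Q} {J : Finset S} {q : Q} :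
    q ∈ lbl M π x J ↔ ∃ t, IsRf M J t ∧ q = x * π t * x⁻¹ := by
  classical
  unfold lbl
  rw [mem_filter]
  exact ⟨fun h => h.2, fun h => ⟨mem_univ _, h⟩⟩

end

end Pool.Agent.H78.RC

end

section

/-!
# Project RC: the invariant form and the signs of the roots

Notation: `k = kR M` (so `k u u = 2`, `k u v = -2 cos (π / m) ≤ 0`, `kR_symm`, `kR_self`), `e s = Pi.single s 1`,
`T w x = (titsHom M w).mulVec x`, `B = bf k`. `T (s) x = x - B (e s) x • e s` by `titsHom_simple`, `refl_mulVec`,
`bf_single_left` (`M.toCoxeterSystem_simple`: `M.toCoxeterSystem.simple = M.simple`).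

* `kR_zero`: for `u ≠ v`: `kR M u v = 0 ↔ M u v = 2` (`M u v ≠ 1` by `off_diagonal`; `cos (π / m) = 0` iff
  `m = 2`, and `cos (π / m) > 0` for `m ≥ 3`; `m = 0`: `-2`; unfold `kR`).
* `bf_...`: finite sums.
* `bf_tits`: for a simple reflection directly from `B (e s) (e s) = 2`; then
  `M.toCoxeterSystem.simple_induction_left` (or `_right`).
* `tits_sign`: if `s` is not a right descent of `w`: `tits_pos`. Otherwise `s` is not a right descent of `w s`
  (`isRightDescent_iff_not_isRightDescent_mul`), and `T (w) (e s) = T (w s) T (s) (e s) = - T (w s) (e s)`.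
* `descent_iff`: the same; both signs at once would give `T (w) (e s) = 0`, but `B` of it is `2` (`bf_tits`).
* `tits_par`: `T (w) x - x` is supported in `J` for `w ∈ W_J` (`par_induction`, for all `x`).
* `tits_conj`: `T (w s w⁻¹) x = x - B r x • r`, `r = T (w) (e s)`: `T (w) (T (s) y) = T (w) y - B (e s) y • r`,
  `y = T (w⁻¹) x`, `B (e s) y = B r x` by `bf_tits`.
-/

set_option autoImplicit false

open Finset

namespace Pool.Agent.H78.RC

open Pool.Agent.H4.FC

variable {S : Type} [Fintype S] [DecidableEq S]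

theorem kR_zero (M : CoxeterMatrix S) {u v : S} (h : u ≠ v) : kR M u v = 0 ↔ M u v = 2 := by
  have h1 : M u v ≠ 1 := M.off_diagonal u v h
  unfold kR
  by_cases h0 : M u v = 0
  · rw [if_pos h0, h0]
    norm_num
  rw [if_neg h0]
  constructor
  · intro hc
    by_contra h2
    have h3 : 3 ≤ M u v := by omega
    have h3' : (3 : ℝ) ≤ M u v := by exact_mod_cast h3
    have hpi := Real.pi_pos
    have h4 : 0 < Real.cos (Real.pi / M u v) := by
      refine Real.cos_pos_of_mem_Ioo ⟨?_, ?_⟩
      · have : 0 < Real.pi / (M u v : ℝ) := by positivity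
        linarith
      · rw [div_lt_div_iff₀ (by linarith) (by norm_num)]
        nlinarith
    linarith
  · intro h2
    rw [h2]
    push_cast
    rw [Real.cos_pi_div_two]
    ring

theorem kR_nonpos (M : CoxeterMatrix S) {u v : S} (h : u ≠ v) : kR M u v ≤ 0 := by
  have h1 : M u v ≠ 1 := M.off_diagonal u v h
  unfold kR
  by_cases h0 : M u v = 0
  · rw [if_pos h0]
    norm_num
  rw [if_neg h0]
  have h3 : 2 ≤ M u v := by omega
  have h3' : (2 : ℝ) ≤ M u v := by exact_mod_cast h3
  have hpi := Real.pi_pos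
  have h4 : 0 ≤ Real.cos (Real.pi / M u v) := by
    refine Real.cos_nonneg_of_mem_Icc ⟨?_, ?_⟩
    · have : 0 < Real.pi / (M u v : ℝ) := by positivity
      linarith
    · rw [div_le_div_iff₀ (by linarith) (by norm_num)]
      nlinarith
  linarith

theorem bf_comm {k : S → S → ℝ} (hk : ∀ u v, k u v = k v u) (x y : S → ℝ) :
    bf k x y = bf k y x := by
  unfold bf
  rw [sum_comm]
  refine sum_congr rfl fun u _ => sum_congr rfl fun v _ => ?_
  rw [hk v u]
  ring

theorem bf_add_left (k : S → S → ℝ) (x y z : S → ℝ) : bf k (x + y) z = bf k x z + bf k y z := by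
  unfold bf
  rw [← sum_add_distrib]
  refine sum_congr rfl fun u _ => ?_
  rw [← sum_add_distrib]
  refine sum_congr rfl fun v _ => ?_
  rw [Pi.add_apply]
  ring

theorem bf_add_right (k : S → S → ℝ) (x y z : S → ℝ) : bf k x (y + z) = bf k x y + bf k x z := by
  unfold bf
  rw [← sum_add_distrib]
  refine sum_congr rfl fun u _ => ?_
  rw [← sum_add_distrib]
  refine sum_congr rfl fun v _ => ?_
  rw [Pi.add_apply]
  ring

theorem bf_smul_left (k : S → S → ℝ) (c : ℝ) (x y : S → ℝ) : bf k (c • x) y = c * bf k x y := by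
  unfold bf
  rw [mul_sum]
  refine sum_congr rfl fun u _ => ?_
  rw [mul_sum]
  refine sum_congr rfl fun v _ => ?_
  rw [Pi.smul_apply, smul_eq_mul]
  ring

theorem bf_smul_right (k : S → S → ℝ) (c : ℝ) (x y : S → ℝ) : bf k x (c • y) = c * bf k x y := by
  unfold bf
  rw [mul_sum]
  refine sum_congr rfl fun u _ => ?_
  rw [mul_sum]
  refine sum_congr rfl fun v _ => ?_
  rw [Pi.smul_apply, smul_eq_mul]
  ring

theorem bf_sub_left (k : S → S → ℝ) (x y z : S → ℝ) : bf k (x - y) z = bf k x z - bf k y z := by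
  have h := bf_add_left k (x - y) y z
  rw [sub_add_cancel] at h
  linarith

theorem bf_sub_right (k : S → S → ℝ) (x y z : S → ℝ) : bf k x (y - z) = bf k x y - bf k x z := by
  have h := bf_add_right k x (y - z) z
  rw [sub_add_cancel] at h
  linarith

theorem bf_single_left (k : S → S → ℝ) (s : S) (x : S → ℝ) :
    bf k (Pi.single s 1) x = ∑ u, k s u * x u := by
  unfold bf
  rw [sum_eq_single s]
  · refine sum_congr rfl fun v _ => ?_
    rw [Pi.single_eq_same]
    ring
  · intro u _ hu
    refine sum_eq_zero fun v _ => ?_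
    rw [Pi.single_eq_of_ne hu]
    ring
  · intro h
    exact absurd (mem_univ s) h

theorem bf_single (k : S → S → ℝ) (s t : S) :
    bf k (Pi.single s 1) (Pi.single t 1) = k s t := by
  rw [bf_single_left, sum_eq_single t]
  · rw [Pi.single_eq_same, mul_one]
  · intro u _ hu
    rw [Pi.single_eq_of_ne hu, mul_zero]
  · intro h
    exact absurd (mem_univ t) h

theorem bf_tits (M : CoxeterMatrix S) (w : M.Group) (x y : S → ℝ) :
    bf (kR M) ((titsHom M w).mulVec x) ((titsHom M w).mulVec y) = bf (kR M) x y := by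
  have hs : ∀ (s : S) (x y : S → ℝ), bf (kR M) ((refl (kR M) s).mulVec x)
      ((refl (kR M) s).mulVec y) = bf (kR M) x y := by
    intro s x y
    have hk := kR_symm M
    rw [refl_mulVec, refl_mulVec, ← bf_single_left, ← bf_single_left, bf_sub_left, bf_sub_right,
      bf_sub_right, bf_smul_left, bf_smul_left, bf_smul_right, bf_smul_right, bf_single, kR_self,
      bf_comm hk x (Pi.single s 1)]
    ring
  refine M.toCoxeterSystem.simple_induction_left (p := fun w => ∀ x y : S → ℝ,
    bf (kR M) ((titsHom M w).mulVec x) ((titsHom M w).mulVec y) = bf (kR M) x y) w ?_ ?_ x y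
  · intro x y
    rw [map_one, Matrix.one_mulVec, Matrix.one_mulVec]
  · intro w s ih x y
    rw [map_mul, titsHom_simple, ← Matrix.mulVec_mulVec, ← Matrix.mulVec_mulVec, hs, ih]

private theorem rootA_neg (M : CoxeterMatrix S) (w : M.Group) (s : S)
    (h : ¬ M.toCoxeterSystem.IsRightDescent (w * M.toCoxeterSystem.simple s) s) :
    ∀ i, (titsHom M w).mulVec (Pi.single s 1) i ≤ 0 := by
  intro i
  have h1 := tits_pos M (w * M.toCoxeterSystem.simple s) s h i
  have h2 : (refl (kR M) s).mulVec (Pi.single s 1) = -(Pi.single s 1 : S → ℝ) := by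
    rw [refl_mulVec, ← bf_single_left, bf_single, kR_self, two_smul]
    abel
  rw [map_mul, titsHom_simple, ← Matrix.mulVec_mulVec, h2, Matrix.mulVec_neg, Pi.neg_apply] at h1
  linarith

theorem tits_sign (M : CoxeterMatrix S) (w : M.Group) (s : S) :
    (∀ i, 0 ≤ (titsHom M w).mulVec (Pi.single s 1) i) ∨
      (∀ i, (titsHom M w).mulVec (Pi.single s 1) i ≤ 0) := by
  by_cases h : M.toCoxeterSystem.IsRightDescent w s
  · right
    rw [M.toCoxeterSystem.isRightDescent_iff_not_isRightDescent_mul] at h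
    exact rootA_neg M w s h
  · left
    exact tits_pos M w s h

theorem descent_iff (M : CoxeterMatrix S) (w : M.Group) (s : S) :
    M.toCoxeterSystem.IsRightDescent w s ↔
      ∀ i, (titsHom M w).mulVec (Pi.single s 1) i ≤ 0 := by
  constructor
  · intro h
    rw [M.toCoxeterSystem.isRightDescent_iff_not_isRightDescent_mul] at h
    exact rootA_neg M w s h
  · intro h
    by_contra hc
    have h1 := tits_pos M w s hc
    have h2 : (titsHom M w).mulVec (Pi.single s 1) = 0 := by
      funext i
      exact le_antisymm (h i) (h1 i)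
    have h3 := bf_tits M w (Pi.single s 1) (Pi.single s 1)
    rw [h2, bf_single, kR_self] at h3
    unfold bf at h3
    simp at h3

theorem tits_par (M : CoxeterMatrix S) {J : Finset S} {w : M.Group} (hw : w ∈ par M J)
    (x : S → ℝ) {i : S} (hi : i ∉ J) : (titsHom M w).mulVec x i = x i := by
  refine par_induction M J (p := fun w => (titsHom M w).mulVec x i = x i) ?_ ?_ w hw
  · rw [map_one, Matrix.one_mulVec]
  · intro v hv w ih
    have hiv : i ≠ v := by
      rintro rfl
      exact hi hv
    rw [← M.toCoxeterSystem_simple, map_mul, titsHom_simple, ← Matrix.mulVec_mulVec, refl_mulVec,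
      Pi.sub_apply, Pi.smul_apply, Pi.single_eq_of_ne hiv, smul_zero, sub_zero, ih]

theorem tits_conj (M : CoxeterMatrix S) (w : M.Group) (s : S) (x : S → ℝ) :
    (titsHom M (w * M.simple s * w⁻¹)).mulVec x =
      x - bf (kR M) ((titsHom M w).mulVec (Pi.single s 1)) x •
        (titsHom M w).mulVec (Pi.single s 1) := by
  have h1 : x = (titsHom M w).mulVec ((titsHom M w⁻¹).mulVec x) := by
    rw [Matrix.mulVec_mulVec, ← map_mul, mul_inv_cancel, map_one, Matrix.one_mulVec]
  obtain ⟨y, hy⟩ : ∃ y, y = (titsHom M w⁻¹).mulVec x := ⟨_, rfl⟩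
  rw [← hy] at h1
  rw [map_mul, map_mul, ← Matrix.mulVec_mulVec, ← Matrix.mulVec_mulVec, ← hy,
    ← M.toCoxeterSystem_simple, titsHom_simple, refl_mulVec, ← bf_single_left, Matrix.mulVec_sub,
    Matrix.mulVec_smul, ← bf_tits M w (Pi.single s 1) y, ← h1]

end Pool.Agent.H78.RC

end

section

/-!
# Project RC: the positive roots of the parabolic subgroups

Notation: `k = kR M`, `e s = Pi.single s 1`, `T w x = (titsHom M w).mulVec x`, `B = bf k`.

* `mem_posR`: definition, `mem_parF`.
* `root_par` (the main point): induction on the length of `t = w s w⁻¹`. Let `r = T (w) (e s)`, `r ≥ 0` with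
  support in `J`, so `T (t) x = x - B r x • r` (`tits_conj`) and `t = t⁻¹`. `2 = B r r = ∑_j r_j B (e j) r`, so
  there is `j ∈ J` with `r_j > 0`, `c = B (e j) r > 0`. If `r = e j` then done (`w = 1`, `s = j`). Otherwise `r` is
  not a multiple of `e j` (the norm is `2`, `r ≥ 0`), so there is `i ≠ j` with `r_i > 0`.
  `r' = T (j) r = r - c e_j` has `r'_i > 0`, `r' = T (j w) (e s)` is a root, so `r' ≥ 0` (`tits_sign`), the support
  is in `J`. Let `t' = j t j = (j w) s (j w)⁻¹`. `T (t) (e j) = e j - c r` has a negative coordinate at `i`, so `j`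
  is a right descent of `t` (`tits_pos`), and as `t⁻¹ = t` a left descent, `ℓ (j t) < ℓ (t)`.
  `T (j t) (e j) = T (j) (e j - c r) = - e j - c r'` has a negative coordinate at `j`, so `j` is a right descent
  of `j t`: `ℓ (t') < ℓ (t)`. By induction `r' = T (w') (e s')`, `w' ∈ W_J`, `s' ∈ J`; `r = T (j w') (e s')`.
* `LR_posR`: `refl`: `T (s) r` is a root of `W_J`; if it is `≤ 0` then `r_i = 0` for `i ≠ s` and `r = e s` by the
  norm. `mem`: `root_par`. `mix`: `r' = T (w') (e s')`, `r - B r r' • r' = T (t') r`, `t' = w' s' w'⁻¹`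
  (`tits_conj`, `bf_comm`), so it is of the form `T (v) (e s)`: `tits_sign`.
* `root_unique`: apply the identity of the two reflections to `x = r`: `2 • r = B r' r • r'`, so
  `r = c r'`, and the norms and `r, r' ≥ 0`, `r ≠ 0` give `c = 1`.
* `exists_root`: `t = w s w⁻¹`: `r = T (w) (e s)` or, if this is `≤ 0`, `r = T (w s) (e s) = - T (w) (e s)`.
  `exists_rf` is clear (`tits_conj`).
* `rf_unique`: `tits_injective`.
* `mem_of_isRf`: the root of `M.simple s` is `e s` (`root_unique`) and lies in `posR M J`: its support is in `J`.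
* `isRf_iff`: `exists_root`, `exists_rf`, `root_unique`, `rf_unique`.
-/

set_option autoImplicit false

open Finset

namespace Pool.Agent.H78.RC

open Pool.Agent.H4.FC

variable {S : Type} [Fintype S] [DecidableEq S]

private theorem root_simple (M : CoxeterMatrix S) (j : S) (x : S → ℝ) :
    (titsHom M (M.simple j)).mulVec x =
      x - bf (kR M) (Pi.single j 1) x • (Pi.single j 1 : S → ℝ) := by
  have h := titsHom_simple M j
  rw [M.toCoxeterSystem_simple] at h
  rw [h, refl_mulVec, bf_single_left]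

private theorem root_mul (M : CoxeterMatrix S) (w v : M.Group) (x : S → ℝ) :
    (titsHom M (w * v)).mulVec x = (titsHom M w).mulVec ((titsHom M v).mulVec x) := by
  rw [map_mul, Matrix.mulVec_mulVec]

private theorem root_one (M : CoxeterMatrix S) (x : S → ℝ) :
    (titsHom M (1 : M.Group)).mulVec x = x := by
  rw [map_one, Matrix.one_mulVec]

private theorem root_norm (M : CoxeterMatrix S) (w : M.Group) (s : S) :
    bf (kR M) ((titsHom M w).mulVec (Pi.single s 1)) ((titsHom M w).mulVec (Pi.single s 1)) =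
      2 := by
  rw [bf_tits, bf_single, kR_self]

private theorem root_supp (M : CoxeterMatrix S) {J : Finset S} {w : M.Group} (hw : w ∈ par M J)
    {s : S} (hs : s ∈ J) {i : S} (hi : i ∉ J) :
    (titsHom M w).mulVec (Pi.single s 1) i = 0 := by
  rw [tits_par M hw _ hi]
  refine Pi.single_eq_of_ne ?_ _
  rintro rfl
  exact hi hs

/-- a nonnegative vector of norm `2` which vanishes outside of `s` is `e s` -/
private theorem root_single (M : CoxeterMatrix S) {r : S → ℝ} (h0 : ∀ i, 0 ≤ r i)
    (hn : bf (kR M) r r = 2) {s : S} (h : ∀ i, i ≠ s → r i = 0) : r = Pi.single s 1 := by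
  have h1 : r = r s • (Pi.single s 1 : S → ℝ) := by
    funext i
    rw [Pi.smul_apply, smul_eq_mul]
    by_cases hi : i = s
    · rw [hi, Pi.single_eq_same, mul_one]
    · rw [Pi.single_eq_of_ne hi, mul_zero, h i hi]
  have h2 : r s = 1 := by
    have h3 := hn
    rw [h1, bf_smul_left, bf_smul_right, bf_single, kR_self] at h3
    nlinarith [h0 s]
  rw [h2, one_smul] at h1
  exact h1

private theorem root_bf_sum (k : S → S → ℝ) (r x : S → ℝ) :
    bf k r x = ∑ u, r u * bf k (Pi.single u 1) x := by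
  unfold bf
  refine sum_congr rfl fun u _ => ?_
  have h := bf_single_left k u x
  unfold bf at h
  rw [h, mul_sum]
  refine sum_congr rfl fun v _ => ?_
  ring

theorem mem_posR (M : CoxeterMatrix S) {J : Finset S} (hJ : Sph M J) {r : S → ℝ} :
    r ∈ posR M J ↔ (∃ w ∈ par M J, ∃ s ∈ J, r = (titsHom M w).mulVec (Pi.single s 1)) ∧
      ∀ i, 0 ≤ r i := by
  classical
  unfold posR
  rw [mem_filter, mem_image]
  constructor
  · rintro ⟨⟨⟨w, s⟩, hp, rfl⟩, h⟩
    rw [mem_product, mem_parF hJ] at hp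
    exact ⟨⟨w, hp.1, s, hp.2, rfl⟩, h⟩
  · rintro ⟨⟨w, hw, s, hs, rfl⟩, h⟩
    refine ⟨⟨(w, s), ?_, rfl⟩, h⟩
    rw [mem_product, mem_parF hJ]
    exact ⟨hw, hs⟩

/-- a positive root with support in `J` is a root of `W_J` -/
theorem root_par (M : CoxeterMatrix S) {J : Finset S} (w : M.Group) (s : S) (r : S → ℝ)
    (hr : r = (titsHom M w).mulVec (Pi.single s 1)) (h0 : ∀ i, 0 ≤ r i)
    (hJ : ∀ i, i ∉ J → r i = 0) :
    ∃ w' ∈ par M J, ∃ s' ∈ J, r = (titsHom M w').mulVec (Pi.single s' 1) := by
  obtain ⟨n, hn⟩ : ∃ n, n = M.toCoxeterSystem.length (w * M.simple s * w⁻¹) := ⟨_, rfl⟩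
  induction n using Nat.strong_induction_on generalizing w s r with
  | _ n ih =>
  have hnorm : bf (kR M) r r = 2 := by rw [hr]; exact root_norm M w s
  obtain ⟨j, -, hj⟩ : ∃ j ∈ (univ : Finset S), 0 < r j * bf (kR M) (Pi.single j 1) r := by
    refine exists_lt_of_sum_lt ?_
    rw [← root_bf_sum, hnorm, sum_const_zero]
    exact two_pos
  have hrj : 0 < r j := by
    refine lt_of_le_of_ne (h0 j) fun h => ?_
    rw [← h, zero_mul] at hj
    exact lt_irrefl _ hj
  have hc : 0 < bf (kR M) (Pi.single j 1) r := (mul_pos_iff_of_pos_left hrj).mp hj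
  have hjJ : j ∈ J := by
    by_contra h
    exact absurd (hJ j h) hrj.ne'
  by_cases hA : ∀ i, i ≠ j → r i = 0
  · refine ⟨1, one_mem _, j, hjJ, ?_⟩
    rw [root_one]
    exact root_single M h0 hnorm hA
  push Not at hA
  obtain ⟨i, hij, hri⟩ := hA
  have hri' : 0 < r i := lt_of_le_of_ne (h0 i) (Ne.symm hri)
  obtain ⟨c, hcd⟩ : ∃ c, c = bf (kR M) (Pi.single j 1) r := ⟨_, rfl⟩
  rw [← hcd] at hc
  obtain ⟨r', hr'⟩ : ∃ r' : S → ℝ, r' = r - c • (Pi.single j 1 : S → ℝ) := ⟨_, rfl⟩
  have hTr : (titsHom M (M.simple j)).mulVec r = r' := by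
    rw [root_simple, ← hcd, hr']
  have hr'T : r' = (titsHom M (M.simple j * w)).mulVec (Pi.single s 1) := by
    rw [root_mul, ← hr, hTr]
  have hr'i : ∀ l, l ≠ j → r' l = r l := by
    intro l hl
    rw [hr', Pi.sub_apply, Pi.smul_apply, Pi.single_eq_of_ne hl, smul_zero, sub_zero]
  have hr'0 : ∀ l, 0 ≤ r' l := by
    rcases tits_sign M (M.simple j * w) s with h | h
    · intro l
      rw [hr'T]
      exact h l
    · exfalso
      have h1 := h i
      rw [← hr'T, hr'i i hij] at h1
      exact absurd h1 (not_le.mpr hri')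
  have hr'J : ∀ l, l ∉ J → r' l = 0 := by
    intro l hl
    rw [hr'i l (fun h => hl (h ▸ hjJ)), hJ l hl]
  obtain ⟨t, ht⟩ : ∃ t, t = w * M.simple s * w⁻¹ := ⟨_, rfl⟩
  have hTt : ∀ x, (titsHom M t).mulVec x = x - bf (kR M) r x • r := by
    intro x
    rw [ht, tits_conj, ← hr]
  have htinv : t⁻¹ = t := by
    rw [ht, mul_inv_rev, mul_inv_rev, inv_inv, simple_inv, mul_assoc]
  have hTtj : (titsHom M t).mulVec (Pi.single j 1) = (Pi.single j 1 : S → ℝ) - c • r := by
    rw [hTt, bf_comm (kR_symm M) r, ← hcd]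
  have hd1 : M.toCoxeterSystem.IsRightDescent t j := by
    rw [descent_iff]
    rcases tits_sign M t j with h | h
    · exfalso
      have h1 := h i
      rw [hTtj, Pi.sub_apply, Pi.smul_apply, Pi.single_eq_of_ne hij, zero_sub, smul_eq_mul] at h1
      nlinarith
    · exact h
  have hd2 : M.toCoxeterSystem.IsLeftDescent t j := by
    rw [← M.toCoxeterSystem.isRightDescent_inv_iff, htinv]
    exact hd1
  have hl1 : M.toCoxeterSystem.length (M.simple j * t) < M.toCoxeterSystem.length t := hd2
  have hd3 : M.toCoxeterSystem.IsRightDescent (M.simple j * t) j := by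
    rw [descent_iff]
    rcases tits_sign M (M.simple j * t) j with h | h
    · exfalso
      have h1 := h j
      have h2 : (titsHom M (M.simple j * t)).mulVec (Pi.single j 1) =
          -(Pi.single j 1 : S → ℝ) - c • r' := by
        rw [root_mul, hTtj, Matrix.mulVec_sub, Matrix.mulVec_smul, hTr, root_simple, bf_single,
          kR_self, two_smul]
        abel
      rw [h2, Pi.sub_apply, Pi.neg_apply, Pi.smul_apply, Pi.single_eq_same, smul_eq_mul] at h1
      have h3 := mul_nonneg hc.le (hr'0 j)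
      linarith
    · exact h
  have hl2 : M.toCoxeterSystem.length (M.simple j * t * M.simple j) <
      M.toCoxeterSystem.length (M.simple j * t) := hd3
  have htt : M.simple j * w * M.simple s * (M.simple j * w)⁻¹ = M.simple j * t * M.simple j := by
    rw [ht, mul_inv_rev, simple_inv]
    simp only [mul_assoc]
  obtain ⟨w', hw', s', hs', he⟩ := ih (M.toCoxeterSystem.length
    (M.simple j * w * M.simple s * (M.simple j * w)⁻¹)) (by
      rw [htt, hn, ← ht]
      exact hl2.trans hl1) (M.simple j * w) s r' hr'T hr'0 hr'J rfl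
  refine ⟨M.simple j * w', mul_mem (simple_mem_par M hjJ) hw', s', hs', ?_⟩
  rw [root_mul, ← he, ← hTr, ← root_mul, simple_sq, root_one]

/-- the positive roots -/
theorem LR_posR (M : CoxeterMatrix S) (ok : Finset S → Prop) (hok : ∀ J, ok J → Sph M J) :
    LR (kR M) ok (posR M) where
  symm := kR_symm M
  two := kR_self M
  nonpos := fun u v h => kR_nonpos M h
  nonneg := fun J hJ r hr => ((mem_posR M (hok J hJ)).mp hr).2
  supp := by
    intro J hJ r hr i hi
    obtain ⟨⟨w, hw, s, hs, rfl⟩, -⟩ := (mem_posR M (hok J hJ)).mp hr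
    exact root_supp M hw hs hi
  norm := by
    intro J hJ r hr
    obtain ⟨⟨w, hw, s, hs, rfl⟩, -⟩ := (mem_posR M (hok J hJ)).mp hr
    exact root_norm M w s
  single := by
    intro J hJ s hs
    rw [mem_posR M (hok J hJ)]
    refine ⟨⟨1, one_mem _, s, hs, (root_one M _).symm⟩, fun i => ?_⟩
    by_cases hi : i = s
    · rw [hi, Pi.single_eq_same]
      exact zero_le_one
    · rw [Pi.single_eq_of_ne hi]
  refl := by
    intro J hJ s hs r hr hne
    obtain ⟨⟨w, hw, s1, hs1, hr1⟩, h0⟩ := (mem_posR M (hok J hJ)).mp hr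
    have h1 : r - bf (kR M) r (Pi.single s 1) • (Pi.single s 1 : S → ℝ) =
        (titsHom M (M.simple s * w)).mulVec (Pi.single s1 1) := by
      rw [root_mul, ← hr1, root_simple, bf_comm (kR_symm M) r]
    rw [mem_posR M (hok J hJ), h1]
    refine ⟨⟨M.simple s * w, mul_mem (simple_mem_par M hs) hw, s1, hs1, rfl⟩, ?_⟩
    rcases tits_sign M (M.simple s * w) s1 with h | h
    · exact h
    · exfalso
      refine hne (root_single M h0 (by rw [hr1]; exact root_norm M w s1) fun i hi => ?_)
      have h2 := h i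
      rw [← h1, Pi.sub_apply, Pi.smul_apply, Pi.single_eq_of_ne hi, smul_zero, sub_zero] at h2
      exact le_antisymm h2 (h0 i)
  mem := by
    intro J K hJ hK r hr h
    obtain ⟨⟨w, hw, s, hs, hr1⟩, h0⟩ := (mem_posR M (hok J hJ)).mp hr
    rw [mem_posR M (hok K hK)]
    exact ⟨root_par M w s r hr1 h0 h, h0⟩
  mix := by
    intro J K hJ hK r hr r' hr'
    obtain ⟨⟨w, hw, s, hs, hr1⟩, h0⟩ := (mem_posR M (hok J hJ)).mp hr
    obtain ⟨⟨w', hw', s', hs', hr1'⟩, h0'⟩ := (mem_posR M (hok K hK)).mp hr'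
    have h1 : r - bf (kR M) r r' • r' =
        (titsHom M (w' * M.simple s' * w'⁻¹ * w)).mulVec (Pi.single s 1) := by
      rw [root_mul, ← hr1, tits_conj, ← hr1', bf_comm (kR_symm M) r]
    rw [h1]
    exact tits_sign M _ s

theorem root_unique (M : CoxeterMatrix S) {r r' : S → ℝ} (h : bf (kR M) r r = 2)
    (h' : bf (kR M) r' r' = 2) (h0 : ∀ i, 0 ≤ r i) (h0' : ∀ i, 0 ≤ r' i)
    (he : ∀ x : S → ℝ, x - bf (kR M) r x • r = x - bf (kR M) r' x • r') : r = r' := by
  obtain ⟨c, hc⟩ : ∃ c, c = bf (kR M) r' r / 2 := ⟨_, rfl⟩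
  have h1 : r = c • r' := by
    have h2 := he r
    rw [h, show bf (kR M) r' r = 2 * c by rw [hc]; ring] at h2
    funext i
    have h3 := congrFun h2 i
    simp only [Pi.sub_apply, Pi.smul_apply, smul_eq_mul] at h3 ⊢
    linarith
  have h2 : c * c = 1 := by
    rw [h1, bf_smul_left, bf_smul_right, h'] at h
    linarith
  have h3 : c = 1 ∨ c = -1 := by
    have h4 : (c - 1) * (c + 1) = 0 := by linarith
    rcases mul_eq_zero.mp h4 with h5 | h5
    · left; linarith
    · right; linarith
  rcases h3 with h4 | h4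
  · rw [h1, h4, one_smul]
  · exfalso
    have h5 : r = 0 := by
      funext i
      have h6 := congrFun h1 i
      rw [h4, Pi.smul_apply, smul_eq_mul] at h6
      rw [Pi.zero_apply]
      linarith [h0 i, h0' i]
    have h6 : bf (kR M) (0 : S → ℝ) 0 = 0 := by
      have h7 := bf_smul_left (kR M) 0 (0 : S → ℝ) 0
      rw [zero_smul, zero_mul] at h7
      exact h7
    rw [h5, h6] at h
    exact two_ne_zero h.symm

theorem exists_root (M : CoxeterMatrix S) {J : Finset S} (hJ : Sph M J) {t : M.Group}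
    (ht : IsRf M J t) : ∃ r ∈ posR M J, ∀ x, (titsHom M t).mulVec x = x - bf (kR M) r x • r := by
  obtain ⟨w, hw, s, hs, rfl⟩ := ht
  rcases tits_sign M w s with h | h
  · refine ⟨(titsHom M w).mulVec (Pi.single s 1), ?_, fun x => tits_conj M w s x⟩
    rw [mem_posR M hJ]
    exact ⟨⟨w, hw, s, hs, rfl⟩, h⟩
  · have h1 : (titsHom M (w * M.simple s)).mulVec (Pi.single s 1) =
        -(titsHom M w).mulVec (Pi.single s 1) := by
      rw [root_mul, root_simple, bf_single, kR_self, two_smul, sub_add_cancel_left,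
        Matrix.mulVec_neg]
    refine ⟨(titsHom M (w * M.simple s)).mulVec (Pi.single s 1), ?_, fun x => ?_⟩
    · rw [mem_posR M hJ]
      refine ⟨⟨w * M.simple s, mul_mem hw (simple_mem_par M hs), s, hs, rfl⟩, fun i => ?_⟩
      rw [h1, Pi.neg_apply]
      linarith [h i]
    · rw [← tits_conj]
      congr 2
      rw [mul_inv_rev, simple_inv, mul_assoc w (M.simple s) (M.simple s), simple_sq, mul_one,
        mul_assoc]

theorem exists_rf (M : CoxeterMatrix S) {J : Finset S} (hJ : Sph M J) {r : S → ℝ}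
    (hr : r ∈ posR M J) :
    ∃ t, IsRf M J t ∧ ∀ x, (titsHom M t).mulVec x = x - bf (kR M) r x • r := by
  obtain ⟨⟨w, hw, s, hs, rfl⟩, -⟩ := (mem_posR M hJ).mp hr
  exact ⟨_, ⟨w, hw, s, hs, rfl⟩, fun x => tits_conj M w s x⟩

theorem rf_unique (M : CoxeterMatrix S) {t t' : M.Group}
    (h : ∀ x, (titsHom M t).mulVec x = (titsHom M t').mulVec x) : t = t' := by
  refine tits_injective M (Matrix.mulVec_injective ?_)
  funext x
  exact h x

theorem IsRf.mono {M : CoxeterMatrix S} {J K : Finset S} (h : J ⊆ K) {t : M.Group}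
    (ht : IsRf M J t) : IsRf M K t := by
  obtain ⟨w, hw, s, hs, rfl⟩ := ht
  exact ⟨w, par_mono M h hw, s, h hs, rfl⟩

theorem IsRf.conj {M : CoxeterMatrix S} {J : Finset S} {t w : M.Group} (ht : IsRf M J t)
    (hw : w ∈ par M J) : IsRf M J (w * t * w⁻¹) := by
  obtain ⟨v, hv, s, hs, rfl⟩ := ht
  refine ⟨w * v, mul_mem hw hv, s, hs, ?_⟩
  rw [mul_inv_rev]
  simp only [mul_assoc]

/-- a reflection lies in two parabolic subgroups if its root does -/
theorem isRf_iff (M : CoxeterMatrix S) {J K : Finset S} (hJ : Sph M J) (hK : Sph M K)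
    {t : M.Group} {r : S → ℝ} (ht : IsRf M J t) (hr : r ∈ posR M J)
    (h : ∀ x, (titsHom M t).mulVec x = x - bf (kR M) r x • r) : IsRf M K t ↔ r ∈ posR M K := by
  constructor
  · intro htK
    obtain ⟨r1, hr1, h1⟩ := exists_root M hK htK
    obtain ⟨⟨w, hw, s, hs, hr2⟩, h0⟩ := (mem_posR M hJ).mp hr
    obtain ⟨⟨w1, hw1, s1, hs1, hr3⟩, h01⟩ := (mem_posR M hK).mp hr1
    have h2 : r = r1 := by
      refine root_unique M (by rw [hr2]; exact root_norm M w s)
        (by rw [hr3]; exact root_norm M w1 s1) h0 h01 fun x => ?_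
      rw [← h, ← h1]
    rw [h2]
    exact hr1
  · intro hrK
    obtain ⟨t1, ht1, h1⟩ := exists_rf M hK hrK
    have h2 : t = t1 := rf_unique M fun x => by rw [h, h1]
    rw [h2]
    exact ht1

end Pool.Agent.H78.RC

end
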