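import Pool.Agent.H71.TSG.M48
import Pool.Agent.H71.TSG.M66
import Pool.Agent.H71.TSG.M67

/-! The parts of this file: H45.DA.Height, H65.RM.Al, H65.RM.Equi, H45.DA.Stokes, H65.RM.Man, H84.RX.Al, H84.RX.Int, H45.DA.Cel, H84.RX.Lst, S10.DuGen, H45.DA.Lst. -/

section

/-!
# Duality pairs: a function which is injective on the simplices

Every component of a locally finite complex has countably many vertices.
-/

set_option autoImplicit false

open Finset

namespace Pool.Agent.H45.DA

open Pool.Agent.H37.TM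

/-- the set of the ends of the walks of length `k` is finite in a locally finite graph -/
theorem finite_walks {U : Type} (G : SimpleGraph U) (hG : ∀ u, {w | G.Adj u w}.Finite) (k : ℕ) :
    ∀ u, {v | ∃ p : G.Walk u v, p.length = k}.Finite := by
  induction k with
  | zero =>
    intro u
    refine (Set.finite_singleton u).subset ?_
    rintro v ⟨p, hp⟩
    exact (SimpleGraph.Walk.eq_of_length_eq_zero hp).symm
  | succ k ih =>
    intro u
    refine ((hG u).biUnion fun w _ => ih w).subset ?_
    rintro v ⟨p, hp⟩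
    cases p with
    | nil => simp at hp
    | cons h q =>
      rw [SimpleGraph.Walk.length_cons] at hp
      exact Set.mem_biUnion h ⟨q, by omega⟩

theorem exists_heightP {U : Type} [DecidableEq U] {K B : Set (Finset U)} {n : ℕ} (hM : Psm K B n) :
    ∃ ht : U → ℕ, ∀ s ∈ K, Set.InjOn ht (s : Set U) := by
  classical
  let G : SimpleGraph U :=
    { Adj := fun a b => a ≠ b ∧ ({a, b} : Finset U) ∈ K
      symm := ⟨fun a b h => ⟨h.1.symm, by rw [Finset.pair_comm]; exact h.2⟩⟩
      loopless := ⟨fun a h => h.1 rfl⟩ }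
  have hG : ∀ u, {w | G.Adj u w}.Finite := by
    intro v
    by_cases hv : ({v} : Finset U) ∈ K
    · have hF := hM.locfin _ hv
      refine (hF.biUnion (t := fun t : Finset U => (t : Set U))
        (fun t _ => t.finite_toSet)).subset ?_
      intro w hw
      simp only [Set.mem_iUnion]
      exact ⟨{v, w}, ⟨hw.2, by simp⟩, by simp⟩
    · refine Set.Finite.subset Set.finite_empty ?_
      intro w hw
      exact hv (hM.down _ hw.2 _ (by simp) (Finset.singleton_nonempty v))
  have hc : ∀ u, {v | G.Reachable u v}.Countable := by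
    intro u
    refine (Set.countable_iUnion fun k => (finite_walks G hG k u).countable).mono ?_
    rintro v ⟨p⟩
    exact Set.mem_iUnion.2 ⟨p.length, p, rfl⟩
  have he : ∀ c : G.ConnectedComponent, ∃ e : U → ℕ, Set.InjOn e {v | G.connectedComponentMk v = c} := by
    intro c
    induction c using SimpleGraph.ConnectedComponent.ind with
    | h u =>
      have h1 : {v | G.connectedComponentMk v = G.connectedComponentMk u} ⊆ {v | G.Reachable u v} := by
        intro v hv
        exact (SimpleGraph.ConnectedComponent.exact hv).symm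
      exact Set.countable_iff_exists_injOn.mp ((hc u).mono h1)
  choose e he using he
  refine ⟨fun u => e (G.connectedComponentMk u) u, fun s hs a ha b hb hab => ?_⟩
  by_contra hne
  have h1 : ({a, b} : Finset U) ∈ K := by
    refine hM.down s hs _ ?_ (by simp)
    intro x hx
    rw [Finset.mem_insert, Finset.mem_singleton] at hx
    rcases hx with rfl | rfl
    · exact ha
    · exact hb
  have h2 : G.Adj a b := ⟨hne, h1⟩
  have h3 : G.connectedComponentMk b = G.connectedComponentMk a :=
    SimpleGraph.ConnectedComponent.sound h2.symm.reachable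
  dsimp only at hab
  rw [h3] at hab
  exact hne (he _ rfl h3 hab)

end Pool.Agent.H45.DA

end

section

/-!
# Project RM: the cochains dual to the images of the cubes
-/

set_option autoImplicit false
set_option linter.unusedSectionVars false

open Finset Pointwise

namespace Pool.Agent.H65.RM

open Pool.Agent.H37.TM

variable {A W U : Type} [Group A] [DecidableEq W] [DecidableEq U] [MulAction A U]

/-- the boundary of the cube `(g, s)` -/
noncomputable def bdO (e : W → A) (c : A × Finset W) : A × Finset W →₀ ZMod 2 :=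
  ∑ w ∈ c.2, (Finsupp.single (c.1, c.2.erase w) 1 + Finsupp.single (c.1 * e w, c.2.erase w) 1)

/-- equivariant chain maps from the cubes to the pairs of simplices -/
structure IsPsi (O : SimpleGraph W) (e : W → A) (K B : Set (Finset U)) (n : ℕ)
    (Ψ : A × Finset W → (Finset U × Finset U →₀ ZMod 2)) : Prop where
  mem : ∀ (g : A) (s : Finset W), O.IsClique (s : Set W) → Ψ (g, s) ∈ TN K B n (s.card + 1)
  smul : ∀ (h g : A) (s : Finset W), O.IsClique (s : Set W) →
    Ψ (h * g, s) = (Ψ (g, s)).mapDomain (h • ·)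
  bd : ∀ (g : A) (s : Finset W), O.IsClique (s : Set W) →
    bdT K n (Ψ (g, s)) = (if s = ∅ then Finsupp.single (∅, ∅) 1 else 0) + lin Ψ (bdO e (g, s))

/-- the cochain dual to the image of a cube -/
noncomputable def al (Ψ : A × Finset W → (Finset U × Finset U →₀ ZMod 2)) (c : A × Finset W)
    (t : Finset U) : ZMod 2 := ∑ v ∈ t, Ψ c ({v}, t)

variable {O : SimpleGraph W} {e : W → A} {K B : Set (Finset U)} {n : ℕ}
  {Ψ : A × Finset W → (Finset U × Finset U →₀ ZMod 2)}

theorem al_empty (c : A × Finset W) : al Ψ c ∅ = 0 := by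
  unfold al
  rw [sum_empty]

theorem al_supp (hΨ : IsPsi O e K B n Ψ) {g : A} {s : Finset W} (hs : O.IsClique (s : Set W))
    {t : Finset U} (h : al Ψ (g, s) t ≠ 0) : t ∈ K ∧ t ∉ B ∧ t.card + s.card = n + 1 := by
  unfold al at h
  obtain ⟨v, hv, hne⟩ := exists_ne_zero_of_sum_ne_zero h
  have h1 := (Finsupp.mem_supported _ _).1 (hΨ.mem g s hs) (mem_coe.2 (Finsupp.mem_support_iff.2 hne))
  obtain ⟨-, -, h3, h4, h5⟩ := h1
  simp only [card_singleton] at h3 h4 h5
  exact ⟨h3, h4, by omega⟩

theorem al_fin (c : A × Finset W) : {t | al Ψ c t ≠ 0}.Finite := by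
  classical
  refine Set.Finite.subset (((Ψ c).support.image Prod.snd).finite_toSet) fun t ht => ?_
  obtain ⟨v, _, hne⟩ := exists_ne_zero_of_sum_ne_zero ht
  exact mem_coe.2 (mem_image.2 ⟨({v}, t), Finsupp.mem_support_iff.2 hne, rfl⟩)

theorem lin_bdO (g : A) (s : Finset W) : lin Ψ (bdO e (g, s)) =
    ∑ w ∈ s, (Ψ (g, s.erase w) + Ψ (g * e w, s.erase w)) := by
  unfold bdO
  rw [map_sum]
  refine sum_congr rfl fun w _ => ?_
  rw [map_add, lin_single, lin_single]

/-- the coboundary of the cochain of a cube is the sum of the cochains of its faces -/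
theorem cob_al (hM : Mfd K B n) (hK : Acyc K) (hΨ : IsPsi O e K B n Ψ) {g : A} {s : Finset W}
    (hs : O.IsClique (s : Set W)) {t : Finset U} (ht : t ∈ K ∨ t = ∅) :
    cob (al Ψ (g, s)) t =
      ∑ w ∈ s, (al Ψ (g, s.erase w) t + al Ψ (g * e w, s.erase w) t) := by
  classical
  rcases ht with ht | rfl
  · have h1 : ∀ v ∈ t, bdT K n (Ψ (g, s)) ({v}, t) =
        ∑ w ∈ t.erase v, Ψ (g, s) ({v, w}, t) + ∑ w ∈ t.erase v, Ψ (g, s) ({v}, t.erase w) := by
      intro v hv
      rw [bdT_apply hM (hK.lt 0) (hΨ.mem g s hs) (singleton_nonempty v),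
        TotX.MX.D_of (toMX hM (hK.lt 0)) (singleton_nonempty v) (singleton_subset_iff.2 hv)
          (show t ∈ (toMX hM (hK.lt 0)).faces from ht), sdiff_singleton_eq_erase, ← sum_add_distrib]
      refine sum_congr rfl fun w _ => ?_
      rw [Finset.pair_comm]
    have h2 : ∀ v, bdT K n (Ψ (g, s)) ({v}, t) =
        ∑ w ∈ s, (Ψ (g, s.erase w) ({v}, t) + Ψ (g * e w, s.erase w) ({v}, t)) := by
      intro v
      rw [hΨ.bd g s hs, lin_bdO, Finsupp.add_apply, Finsupp.finsetSum_apply]
      have h3 : (if s = ∅ then Finsupp.single ((∅ : Finset U), (∅ : Finset U)) (1 : ZMod 2)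
          else 0) ({v}, t) = 0 := by
        split_ifs
        · rw [Finsupp.single_apply, if_neg]
          intro h
          exact (singleton_ne_empty v) (congrArg Prod.fst h).symm
        · rfl
      rw [h3, zero_add]
      rfl
    have h3 : ∑ v ∈ t, bdT K n (Ψ (g, s)) ({v}, t) = cob (al Ψ (g, s)) t := by
      rw [sum_congr rfl h1, sum_add_distrib,
        TotX.sum_pairs_symm t (fun v w => Ψ (g, s) ({v, w}, t))
          (fun u w => by rw [Finset.pair_comm]), zero_add]
      unfold cob al
      rw [Finset.sum_sigma', Finset.sum_sigma']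
      refine sum_bij' (fun p _ => ⟨p.2, p.1⟩) (fun p _ => ⟨p.2, p.1⟩) ?_ ?_ ?_ ?_ ?_
      · rintro ⟨v, w⟩ h
        simp only [mem_sigma, mem_erase] at h ⊢
        exact ⟨h.2.2, fun h' => h.2.1 h'.symm, h.1⟩
      · rintro ⟨w, v⟩ h
        simp only [mem_sigma, mem_erase] at h ⊢
        exact ⟨h.2.2, fun h' => h.2.1 h'.symm, h.1⟩
      · rintro ⟨v, w⟩ _
        rfl
      · rintro ⟨v, w⟩ _
        rfl
      · rintro ⟨v, w⟩ _
        rfl
    rw [← h3, sum_congr rfl fun v _ => h2 v, sum_comm]
    refine sum_congr rfl fun w _ => ?_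
    unfold al
    rw [sum_add_distrib]
  · unfold cob
    rw [sum_empty]
    symm
    refine sum_eq_zero fun w _ => ?_
    rw [al_empty, al_empty, add_zero]

/-- the augmentation -/
theorem sum_al (hM : Mfd K B n) (hΨ : IsPsi O e K B n Ψ) (g : A) :
    ∑ᶠ t, al Ψ (g, ∅) t = 1 := by
  classical
  have h0 : O.IsClique ((∅ : Finset W) : Set W) := by
    rw [coe_empty]
    exact Set.pairwise_empty _
  have hmem := hΨ.mem g ∅ h0
  rw [card_empty, zero_add] at hmem
  -- the cells of index one
  have h1 : ∀ c ∈ (Ψ (g, ∅)).support, bdE K n c (∅, ∅) = 1 ∧ ∃ v ∈ c.2, c.1 = {v} := by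
    intro c hc
    obtain ⟨h2, h3, h4, h5, h6⟩ := (Finsupp.mem_supported _ _).1 hmem (mem_coe.2 hc)
    have h6' : c.1.card + n = c.2.card + 0 := h6
    have h7 := hM.card_le _ h4
    have h8 := card_pos.2 h2
    have h9 : c.1.card = 1 := by omega
    have h10 : c.2.card = n + 1 := by omega
    refine ⟨?_, ?_⟩
    · unfold bdE
      rw [if_neg h2.ne_empty, if_pos h9, if_pos h10, Finsupp.add_apply, Finsupp.single_apply,
        if_pos rfl, Finsupp.finsetSum_apply, sum_eq_zero, add_zero]
      intro t _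
      rw [Finsupp.single_apply, if_neg]
      intro h
      exact h2.ne_empty (congrArg Prod.fst h)
    · obtain ⟨v, hv⟩ := card_eq_one.1 h9
      refine ⟨v, h3 ?_, hv⟩
      rw [hv]
      exact mem_singleton_self v
  have h2 : bdT K n (Ψ (g, ∅)) (∅, ∅) = ∑ c ∈ (Ψ (g, ∅)).support, Ψ (g, ∅) c := by
    unfold bdT
    rw [Finsupp.linearCombination_apply, Finsupp.sum, Finsupp.finsetSum_apply]
    refine sum_congr rfl fun c hc => ?_
    rw [Finsupp.smul_apply, (h1 c hc).1, smul_eq_mul, mul_one]
  have h3 : bdT K n (Ψ (g, ∅)) (∅, ∅) = 1 := by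
    rw [hΨ.bd g ∅ h0, if_pos rfl, lin_bdO, sum_empty, add_zero, Finsupp.single_apply, if_pos rfl]
  rw [finsum_eq_sum_of_support_subset (s := (Ψ (g, ∅)).support.image Prod.snd) _ (by
    intro t ht
    obtain ⟨v, _, hne⟩ := exists_ne_zero_of_sum_ne_zero ht
    exact mem_coe.2 (mem_image.2 ⟨({v}, t), Finsupp.mem_support_iff.2 hne, rfl⟩)), ← h3, h2,
    ← sum_fiberwise_of_maps_to (s := (Ψ (g, ∅)).support)
      (t := (Ψ (g, ∅)).support.image Prod.snd) (g := Prod.snd)
      (fun c hc => mem_image_of_mem _ hc)]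
  refine sum_congr rfl fun t _ => ?_
  unfold al
  symm
  rw [← sum_subset (s₁ := (t.filter fun v => Ψ (g, ∅) ({v}, t) ≠ 0)) (filter_subset _ _)
    (fun v hv hv' => by
      by_contra h
      exact hv' (mem_filter.2 ⟨hv, h⟩))]
  refine sum_bij' (fun c hc => (h1 c (mem_filter.1 hc).1).2.choose) (fun v _ => ({v}, t))
    ?_ ?_ ?_ ?_ ?_
  · intro c hc
    have h4 := (h1 c (mem_filter.1 hc).1).2.choose_spec
    have h5 := (mem_filter.1 hc).2
    have h6 : c = ({(h1 c (mem_filter.1 hc).1).2.choose}, t) := Prod.ext h4.2 h5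
    refine mem_filter.2 ⟨h5 ▸ h4.1, ?_⟩
    rw [← h6]
    exact Finsupp.mem_support_iff.1 (mem_filter.1 hc).1
  · intro v hv
    rw [mem_filter] at hv
    exact mem_filter.2 ⟨Finsupp.mem_support_iff.2 hv.2, rfl⟩
  · intro c hc
    have h4 := (h1 c (mem_filter.1 hc).1).2.choose_spec
    exact (Prod.ext h4.2 (mem_filter.1 hc).2).symm
  · intro v hv
    rw [mem_filter] at hv
    have h4 := (h1 ({v}, t) (Finsupp.mem_support_iff.2 hv.2)).2.choose_spec
    exact (singleton_injective h4.2).symm
  · intro c hc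
    have h4 := (h1 c (mem_filter.1 hc).1).2.choose_spec
    congr 1
    exact Prod.ext h4.2 (mem_filter.1 hc).2

theorem al_smul (hΨ : IsPsi O e K B n Ψ) (h g : A) {s : Finset W} (hs : O.IsClique (s : Set W))
    (t : Finset U) : al Ψ (h * g, s) (h • t) = al Ψ (g, s) t := by
  classical
  unfold al
  rw [hΨ.smul h g s hs]
  have hsm : h • t = t.map ⟨fun u => h • u, MulAction.injective h⟩ := by
    rw [Finset.map_eq_image]
    rfl
  conv_lhs => rw [hsm]
  rw [Finset.sum_map]
  refine sum_congr rfl fun v _ => ?_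
  rw [← hsm]
  have h1 : (({(⟨fun u => h • u, MulAction.injective h⟩ : U ↪ U) v}, h • t) :
      Finset U × Finset U) = h • (({v}, t) : Finset U × Finset U) := by
    change _ = (h • ({v} : Finset U), h • t)
    rw [smul_finset_singleton]
    rfl
  rw [h1]
  exact Finsupp.mapDomain_apply (MulAction.injective h) _ _

end Pool.Agent.H65.RM

end

section

/-!
# Project RM: equivariance of the complex of pairs, and the chain map from the cubes `(g, s)`
-/

set_option autoImplicit false
set_option linter.unusedSectionVars false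

open Finset Pointwise

namespace Pool.Agent.H65.RM

open Pool.Agent.H37.TM

/-! ### Generalities -/

/-- the action on the chains of a set with an action, as linear maps -/
noncomputable def rhoM (Γ A : Type) [Group Γ] (φ : Γ → A → A) (h1 : φ 1 = id)
    (hm : ∀ g h, φ (g * h) = φ g ∘ φ h) : Γ →* ((A →₀ ZMod 2) →ₗ[ZMod 2] (A →₀ ZMod 2)) where
  toFun g := Finsupp.lmapDomain (ZMod 2) (ZMod 2) (φ g)
  map_one' := by
    rw [h1, Finsupp.lmapDomain_id]
    rfl
  map_mul' g h := by
    rw [hm, Finsupp.lmapDomain_comp]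
    rfl

theorem mapDomain_lin {A B C : Type} (φ : B → C) {f : A → (B →₀ ZMod 2)} {x : A →₀ ZMod 2} :
    (lin f x).mapDomain φ = lin (fun c => (f c).mapDomain φ) x :=
  map_lin (Finsupp.lmapDomain (ZMod 2) (ZMod 2) φ)

theorem lin_mapDomain {A B N : Type} [AddCommGroup N] [Module (ZMod 2) N] (φ : A → B)
    {f : B → N} {x : A →₀ ZMod 2} : lin f (x.mapDomain φ) = lin (fun c => f (φ c)) x := by
  unfold lin
  rw [Finsupp.linearCombination_mapDomain]
  rfl

/-- a symmetric function of ordered pairs sums to zero -/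
theorem sum_pairs_zero {W N : Type} [DecidableEq W] [AddCommGroup N] [Module (ZMod 2) N]
    (s : Finset W) (F : W → W → N) (hF : ∀ u ∈ s, ∀ w ∈ s, u ≠ w → F u w = F w u) :
    ∑ u ∈ s, ∑ w ∈ s.erase u, F u w = 0 := by
  rw [Finset.sum_sigma']
  refine Finset.sum_involution (fun p _ => ⟨p.2, p.1⟩) ?_ ?_ ?_ ?_
  · rintro ⟨u, w⟩ h
    rw [Finset.mem_sigma] at h
    have h1 : u ∈ s := h.1
    have h2 : w ∈ s.erase u := h.2
    have h3 := Finset.mem_erase.1 h2
    show F u w + F w u = 0
    rw [hF u h1 w h3.2 h3.1.symm]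
    exact add_self_mod _
  · rintro ⟨u, w⟩ h _ he
    rw [Finset.mem_sigma] at h
    have h1 : w = u := congrArg Sigma.fst he
    exact Finset.ne_of_mem_erase h.2 h1
  · rintro ⟨u, w⟩ h
    rw [Finset.mem_sigma] at h ⊢
    have h1 : u ∈ s := h.1
    have h2 : w ∈ s.erase u := h.2
    exact ⟨Finset.mem_of_mem_erase h2,
      Finset.mem_erase.2 ⟨(Finset.ne_of_mem_erase h2).symm, h1⟩⟩
  · rintro ⟨u, w⟩ _
    rfl

section

variable {A U : Type} [Group A] [DecidableEq U] [MulAction A U] {K B : Set (Finset U)} {n : ℕ}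

/-! ### The complex of pairs -/

theorem smul_mem_iff (hA : PAct A K B) (g : A) (s : Finset U) : g • s ∈ K ↔ s ∈ K := by
  refine ⟨fun h => ?_, hA.K_mem g s⟩
  have := hA.K_mem g⁻¹ _ h
  rwa [inv_smul_smul] at this

theorem smul_memB_iff (hA : PAct A K B) (g : A) (s : Finset U) : g • s ∈ B ↔ s ∈ B := by
  refine ⟨fun h => ?_, hA.B_mem g s⟩
  have := hA.B_mem g⁻¹ _ h
  rwa [inv_smul_smul] at this

theorem erase_smul (g : A) (s : Finset U) (v : U) : (g • s).erase (g • v) = g • s.erase v := by
  ext w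
  obtain ⟨u, rfl⟩ : ∃ u, g • u = w := ⟨g⁻¹ • w, smul_inv_smul g w⟩
  rw [Finset.mem_erase, Finset.smul_mem_smul_finset_iff, Finset.smul_mem_smul_finset_iff,
    Finset.mem_erase]
  refine and_congr_left fun _ => not_congr ?_
  exact (MulAction.injective g).eq_iff

theorem cofs_smul (hA : PAct A K B) (g : A) (t : Finset U) (j : ℕ) :
    cofs K (g • t) j = (cofs K t j).map ⟨fun s => g • s, MulAction.injective g⟩ := by
  classical
  have hset : {t' | t' ∈ K ∧ g • t ⊆ t' ∧ t'.card = j} =
      (fun s => g • s) '' {t' | t' ∈ K ∧ t ⊆ t' ∧ t'.card = j} := by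
    ext t'
    constructor
    · rintro ⟨h1, h2, h3⟩
      refine ⟨g⁻¹ • t', ⟨?_, ?_, ?_⟩, smul_inv_smul g t'⟩
      · rw [smul_mem_iff hA]; exact h1
      · rw [← Finset.smul_finset_subset_smul_finset_iff (a := g), smul_inv_smul]
        exact h2
      · rw [Finset.card_smul_finset]; exact h3
    · rintro ⟨s, ⟨h1, h2, h3⟩, rfl⟩
      refine ⟨(smul_mem_iff hA g s).2 h1, ?_, ?_⟩
      · exact Finset.smul_finset_subset_smul_finset h2
      · rw [Finset.card_smul_finset]; exact h3
  have hfin : {t' | t' ∈ K ∧ g • t ⊆ t' ∧ t'.card = j}.Finite ↔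
      {t' | t' ∈ K ∧ t ⊆ t' ∧ t'.card = j}.Finite := by
    rw [hset]
    exact Set.finite_image_iff (MulAction.injective g).injOn
  unfold cofs
  by_cases h : {t' | t' ∈ K ∧ t ⊆ t' ∧ t'.card = j}.Finite
  · rw [dif_pos h, dif_pos (hfin.2 h)]
    ext t'
    rw [Set.Finite.mem_toFinset, Finset.mem_map]
    have : t' ∈ {t' | t' ∈ K ∧ g • t ⊆ t' ∧ t'.card = j} ↔
        t' ∈ (fun s => g • s) '' {t' | t' ∈ K ∧ t ⊆ t' ∧ t'.card = j} := by rw [hset]
    rw [this]
    simp only [Set.mem_image, Set.Finite.mem_toFinset]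
    rfl
  · rw [dif_neg h, dif_neg fun h' => h (hfin.1 h'), Finset.map_empty]

theorem bdE_smul (hA : PAct A K B) (g : A) (e : Finset U × Finset U) :
    bdE K n (g • e) = (bdE K n e).mapDomain (g • ·) := by
  have he : g • e = (g • e.1, g • e.2) := rfl
  unfold bdE
  by_cases h0 : e.1 = ∅
  · rw [if_pos h0, he, if_pos (by change g • e.1 = ∅; rw [h0, Finset.smul_finset_empty]),
      Finsupp.mapDomain_zero]
  · have h0' : ¬ (g • e).1 = ∅ := by
      change ¬ g • e.1 = ∅
      rwa [Finset.smul_finset_eq_empty]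
    rw [if_neg h0, if_neg h0', Finsupp.mapDomain_add]
    have hc1 : (g • e).1.card = e.1.card := Finset.card_smul_finset g e.1
    have hc2 : (g • e).2.card = e.2.card := Finset.card_smul_finset g e.2
    congr 1
    · rw [hc1, hc2]
      split_ifs with h1 h2
      · rw [Finsupp.mapDomain_single]
        congr 1
      · rw [Finsupp.mapDomain_zero]
      · rw [Finsupp.mapDomain_finsetSum]
        change ∑ v ∈ g • e.1, Finsupp.single ((g • e.1).erase v, g • e.2) 1 = _
        have hsm : g • e.1 = e.1.map ⟨fun u => g • u, MulAction.injective g⟩ := by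
          rw [Finset.map_eq_image]
          rfl
        conv_lhs => rw [hsm]
        rw [Finset.sum_map]
        refine Finset.sum_congr rfl fun v _ => ?_
        rw [Finsupp.mapDomain_single, ← hsm]
        change Finsupp.single ((g • e.1).erase (g • v), g • e.2) 1 =
          Finsupp.single (g • (e.1.erase v), g • e.2) 1
        rw [erase_smul]
    · rw [Finsupp.mapDomain_finsetSum]
      change ∑ t ∈ cofs K (g • e.2) ((g • e).2.card + 1), Finsupp.single (g • e.1, t) 1 = _
      rw [hc2, cofs_smul hA, Finset.sum_map]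
      refine Finset.sum_congr rfl fun t _ => ?_
      rw [Finsupp.mapDomain_single]
      rfl

/-- the boundary is equivariant -/
theorem bdT_smul (hA : PAct A K B) (g : A) (x : Finset U × Finset U →₀ ZMod 2) :
    bdT K n (x.mapDomain (g • ·)) = (bdT K n x).mapDomain (g • ·) := by
  change lin (bdE K n) (x.mapDomain (g • ·)) = (lin (bdE K n) x).mapDomain (g • ·)
  rw [lin_mapDomain, mapDomain_lin]
  exact lin_congr fun c _ => bdE_smul hA g c

theorem tcell_smul (hA : PAct A K B) (g : A) (i : ℕ) (e : Finset U × Finset U)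
    (he : e ∈ TCell K B n i) : g • e ∈ TCell K B n i := by
  cases i with
  | zero =>
    have h : e = (∅, ∅) := he
    rw [h]
    change ((g • ∅ : Finset U), (g • ∅ : Finset U)) = (∅, ∅)
    rw [Finset.smul_finset_empty]
  | succ m =>
    obtain ⟨h1, h2, h3, h4, h5⟩ := he
    refine ⟨?_, ?_, ?_, ?_, ?_⟩
    · exact h1.smul_finset
    · exact Finset.smul_finset_subset_smul_finset h2
    · exact (smul_mem_iff hA g _).2 h3
    · exact fun h => h4 ((smul_memB_iff hA g _).1 h)
    · change (g • e.1).card + n = (g • e.2).card + m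
      rw [Finset.card_smul_finset, Finset.card_smul_finset]
      exact h5

theorem tn_smul (hA : PAct A K B) (g : A) (i : ℕ) (x : Finset U × Finset U →₀ ZMod 2)
    (hx : x ∈ TN K B n i) : x.mapDomain (g • ·) ∈ TN K B n i := by
  classical
  unfold TN at hx ⊢
  rw [Finsupp.mem_supported] at hx ⊢
  intro e he
  have h := Finsupp.mapDomain_support he
  rw [Finset.mem_image] at h
  obtain ⟨e', he', rfl⟩ := h
  exact tcell_smul hA g i e' (hx he')

theorem tn_cell {i : ℕ} {y : Finset U × Finset U →₀ ZMod 2} (hy : y ∈ TN K B n i)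
    (c : Finset U × Finset U) (hc : y c ≠ 0) : c ∈ TCell K B n i := by
  unfold TN at hy
  rw [Finsupp.mem_supported] at hy
  exact hy (Finsupp.mem_support_iff.2 hc)

/-- the action on the pairs -/
noncomputable def rhoE (A U : Type) [DecidableEq U] [Group A] [MulAction A U] :
    A →* ((Finset U × Finset U →₀ ZMod 2) →ₗ[ZMod 2] (Finset U × Finset U →₀ ZMod 2)) :=
  rhoM A (Finset U × Finset U) (fun g e => g • e) (funext fun e => one_smul A e)
    fun g h => funext fun e => mul_smul g h e

end

/-! ### The cubes `(g, s)` -/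

section

variable {A W : Type} [Group A] [DecidableEq W]

end

end Pool.Agent.H65.RM

end

section

/-!
# Duality pairs: sums of coboundaries over the top simplices of a pseudomanifold
-/

set_option autoImplicit false
set_option linter.unusedSectionVars false

open Finset

namespace Pool.Agent.H45.DA

open Pool.Agent.H37.TM Pool.Agent.H65.RM

variable {U : Type} [DecidableEq U] {K B : Set (Finset U)} {n : ℕ}

open Classical in
/-- the sum of a coboundary over the top simplices -/
theorem stokesP (hM : Psm K B n) (ω : Finset U → ZMod 2) (hfin : {r | ω r ≠ 0}.Finite)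
    (hω : ∀ r, ω r ≠ 0 → r ∈ K ∧ r ∉ B ∧ r.card = n) :
    ∑ᶠ t, (if Top K B n t then cob ω t else 0) = 0 := by
  classical
  let R := hfin.toFinset
  have hR : ∀ r, r ∈ R ↔ ω r ≠ 0 := fun r => hfin.mem_toFinset
  let T := R.biUnion fun r => cofs K r (n + 1)
  have h1 : ∀ t, Top K B n t → cob ω t = ∑ r ∈ R, if r ⊆ t then ω r else 0 := by
    intro t ht
    have h2 : ∑ r ∈ R, (if r ⊆ t then ω r else 0) =
        ∑ r ∈ t.image (fun v => t.erase v), if r ∈ R then ω r else 0 := by
      rw [← sum_filter, ← sum_filter]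
      refine sum_congr ?_ fun _ _ => rfl
      ext r
      rw [mem_filter, mem_filter, mem_image]
      constructor
      · rintro ⟨h3, h4⟩
        refine ⟨?_, h3⟩
        have h5 := (hω r ((hR r).1 h3)).2.2
        have h6 : (t \ r).card = 1 := by
          rw [card_sdiff_of_subset h4, ht.2.2, h5]
          omega
        obtain ⟨w, hw⟩ := card_eq_one.1 h6
        have hw1 : w ∈ t ∧ w ∉ r := by
          rw [← mem_sdiff, hw]
          exact mem_singleton_self w
        refine ⟨w, hw1.1, ?_⟩
        refine (eq_of_subset_of_card_le (subset_erase.2 ⟨h4, hw1.2⟩) ?_).symm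
        rw [card_erase_of_mem hw1.1, ht.2.2, h5]
        omega
      · rintro ⟨⟨v, hv, rfl⟩, h3⟩
        exact ⟨h3, erase_subset v t⟩
    rw [h2, sum_image]
    · unfold cob
      refine sum_congr rfl fun v _ => ?_
      by_cases h3 : t.erase v ∈ R
      · rw [if_pos h3]
      · rw [if_neg h3]
        rw [hR, not_not] at h3
        exact h3
    · intro v hv w hw hvw
      have hvw' : t.erase v = t.erase w := hvw
      exact erase_injOn t hv hw hvw'
  rw [finsum_eq_sum_of_support_subset (s := T) _ (by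
    intro t ht
    rw [Function.mem_support] at ht
    have h2 : Top K B n t := by
      by_contra h
      exact ht (if_neg h)
    rw [if_pos h2, h1 t h2] at ht
    obtain ⟨r, hr, hne⟩ := exists_ne_zero_of_sum_ne_zero ht
    have h3 : r ⊆ t := by
      by_contra h
      exact hne (if_neg h)
    exact mem_coe.2 (mem_biUnion.2 ⟨r, hr, (mem_cofsP hM (hω r ((hR r).1 hr)).1).2
      ⟨h2.1, h3, h2.2.2⟩⟩))]
  have h2 : ∀ t ∈ T, (if Top K B n t then cob ω t else 0) =
      ∑ r ∈ R, if t ∈ cofs K r (n + 1) then ω r else 0 := by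
    intro t ht
    by_cases h3 : Top K B n t
    · rw [if_pos h3, h1 t h3]
      refine sum_congr rfl fun r hr => if_congr ?_ rfl rfl
      rw [mem_cofsP hM (hω r ((hR r).1 hr)).1]
      exact ⟨fun h => ⟨h3.1, h, h3.2.2⟩, fun h => h.2.1⟩
    · rw [if_neg h3]
      symm
      refine sum_eq_zero fun r hr => if_neg fun h => h3 ?_
      have h4 := hω r ((hR r).1 hr)
      rw [mem_cofsP hM h4.1] at h
      exact ⟨h.1, fun h5 => h4.2.1 (hM.bd_down t h5 r h.2.1 (hM.ne r h4.1)), h.2.2⟩
  rw [sum_congr rfl h2, sum_comm]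
  refine sum_eq_zero fun r hr => ?_
  have h3 : ∑ t ∈ T, (if t ∈ cofs K r (n + 1) then ω r else 0) =
      ∑ t ∈ cofs K r (n + 1), ω r := by
    rw [← sum_filter]
    refine sum_congr ?_ fun _ _ => rfl
    ext t
    rw [mem_filter]
    exact ⟨fun h => h.2, fun h => ⟨mem_biUnion.2 ⟨r, hr, h⟩, h⟩⟩
  have h4 := hω r ((hR r).1 hr)
  rw [h3, sum_const, nsmul_eq_mul, hM.even r h4.1 h4.2.1 h4.2.2, zero_mul]

end Pool.Agent.H45.DA

end

section

/-!
# Project RM: the intersection numbers of the cubes
-/

set_option autoImplicit false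
set_option linter.unusedSectionVars false

open Finset Pointwise

namespace Pool.Agent.H65.RM

open Pool.Agent.H37.TM

variable {A W U : Type} [Group A] [DecidableEq W] [DecidableEq U] [MulAction A U]
  {O : SimpleGraph W} {e : W → A} {K B : Set (Finset U)} {n : ℕ}
  {Ψ : A × Finset W → (Finset U × Finset U →₀ ZMod 2)} {ht : U → ℕ}

theorem cup_zero_l {j : ℕ} {x y : Finset U → ZMod 2} {s : Finset U}
    (hx : ∀ t ⊆ s, x t = 0) : cup ht j x y s = 0 :=
  Finset.sum_eq_zero fun B _ => by rw [hx _ (face1_subset _ _ _), zero_mul]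

theorem cup_congr {j : ℕ} {x x' y y' : Finset U → ZMod 2} {s : Finset U}
    (hx : ∀ t ⊆ s, x t = x' t) (hy : ∀ t ⊆ s, y t = y' t) : cup ht j x y s = cup ht j x' y' s :=
  Finset.sum_congr rfl fun B _ => by rw [hx _ (face1_subset _ _ _), hy _ (face2_subset _ _ _)]

theorem cup_sum_l {ι : Type} (I : Finset ι) {j : ℕ} (x : ι → Finset U → ZMod 2)
    (y : Finset U → ZMod 2) (s : Finset U) :
    cup ht j (fun t => ∑ i ∈ I, x i t) y s = ∑ i ∈ I, cup ht j (x i) y s := by
  unfold cup
  rw [sum_comm]
  refine sum_congr rfl fun B _ => ?_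
  rw [sum_mul]

theorem cup_sum_r {ι : Type} (I : Finset ι) {j : ℕ} (x : Finset U → ZMod 2)
    (y : ι → Finset U → ZMod 2) (s : Finset U) :
    cup ht j x (fun t => ∑ i ∈ I, y i t) s = ∑ i ∈ I, cup ht j x (y i) s := by
  unfold cup
  rw [sum_comm]
  refine sum_congr rfl fun B _ => ?_
  rw [mul_sum]

theorem cup_add_l {j : ℕ} (x x' y : Finset U → ZMod 2) (s : Finset U) :
    cup ht j (fun t => x t + x' t) y s = cup ht j x y s + cup ht j x' y s := by
  unfold cup
  rw [← sum_add_distrib]
  exact sum_congr rfl fun B _ => by rw [add_mul]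

theorem cup_add_r {j : ℕ} (x y y' : Finset U → ZMod 2) (s : Finset U) :
    cup ht j x (fun t => y t + y' t) s = cup ht j x y s + cup ht j x y' s := by
  unfold cup
  rw [← sum_add_distrib]
  exact sum_congr rfl fun B _ => by rw [mul_add]

/-- a nonzero cup product has two faces with nonzero values -/
theorem cup_ne {j : ℕ} {x y : Finset U → ZMod 2} {s : Finset U} (h : cup ht j x y s ≠ 0) :
    ∃ f ⊆ s, ∃ f' ⊆ s, x f ≠ 0 ∧ y f' ≠ 0 := by
  obtain ⟨C, _, hne⟩ := exists_ne_zero_of_sum_ne_zero h
  exact ⟨_, face1_subset _ _ _, _, face2_subset _ _ _, left_ne_zero_of_mul hne,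
    right_ne_zero_of_mul hne⟩

open Classical in
/-- the sum of a cup product over the top simplices -/
noncomputable def cI (K B : Set (Finset U)) (n : ℕ) (ht : U → ℕ) (j : ℕ)
    (x y : Finset U → ZMod 2) : ZMod 2 :=
  ∑ᶠ t, (if Top K B n t then cup ht j x y t else 0)

/-- the intersection number of two cubes -/
noncomputable def HH (K B : Set (Finset U)) (n : ℕ) (ht : U → ℕ)
    (Ψ : A × Finset W → (Finset U × Finset U →₀ ZMod 2)) (g : A) (s : Finset W) (g' : A)
    (s' : Finset W) : ZMod 2 :=
  if s.card + s'.card ≤ n then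
    cI K B n ht (n + 1 - (s.card + s'.card)) (al Ψ (g, s)) (al Ψ (g', s')) else 0

/-- the simplices which contain a simplex in the support of the cochain of a cube -/
theorem fin_up (hM : Mfd K B n) (hΨ : IsPsi O e K B n Ψ) (g : A) {s : Finset W}
    (hs : O.IsClique (s : Set W)) : {t | t ∈ K ∧ ∃ f ⊆ t, al Ψ (g, s) f ≠ 0}.Finite := by
  have h1 : {t | t ∈ K ∧ ∃ f ⊆ t, al Ψ (g, s) f ≠ 0} =
      ⋃ f ∈ {f | al Ψ (g, s) f ≠ 0}, {t | t ∈ K ∧ f ⊆ t} := by
    ext t
    simp only [Set.mem_ofPred_eq, Set.mem_iUnion, exists_prop]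
    constructor
    · rintro ⟨h2, f, h3, h4⟩
      exact ⟨f, h4, h2, h3⟩
    · rintro ⟨f, h4, h2, h3⟩
      exact ⟨h2, f, h3, h4⟩
  rw [h1]
  exact (al_fin (g, s)).biUnion fun f hf => hM.locfin f (al_supp hΨ hs hf).1

/-- the summation of a finite sum -/
theorem fin_cup (hM : Mfd K B n) (hΨ : IsPsi O e K B n Ψ) (g g' : A) {s s' : Finset W}
    (hs : O.IsClique (s : Set W)) (j : ℕ) : (Function.support fun t => open Classical in
      if Top K B n t then cup ht j (al Ψ (g, s)) (al Ψ (g', s')) t else 0).Finite := by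
  classical
  refine (fin_up hM hΨ g hs).subset fun t h => ?_
  rw [Function.mem_support] at h
  by_cases h1 : Top K B n t
  · rw [if_pos h1] at h
    obtain ⟨f, hf, f', _, h2, _⟩ := cup_ne h
    exact ⟨h1.1, f, hf, h2⟩
  · exact absurd (if_neg h1) h

theorem fin_cup' (hM : Mfd K B n) (hΨ : IsPsi O e K B n Ψ) (g g' : A) {s s' : Finset W}
    (hs' : O.IsClique (s' : Set W)) (j : ℕ) : (Function.support fun t => open Classical in
      if Top K B n t then cup ht j (al Ψ (g, s)) (al Ψ (g', s')) t else 0).Finite := by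
  classical
  refine (fin_up hM hΨ g' hs').subset fun t h => ?_
  rw [Function.mem_support] at h
  by_cases h1 : Top K B n t
  · rw [if_pos h1] at h
    obtain ⟨f, hf, f', hf', _, h2⟩ := cup_ne h
    exact ⟨h1.1, f', hf', h2⟩
  · exact absurd (if_neg h1) h

/-- the relation for the sums of cup products -/
theorem rel_aux (hM : Mfd K B n) (hK : Acyc K) (hinj : ∀ s ∈ K, Set.InjOn ht (s : Set U))
    (hΨ : IsPsi O e K B n Ψ) (g g' : A) {s s' : Finset W} (hs : O.IsClique (s : Set W))
    (hs' : O.IsClique (s' : Set W)) :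
    ∑ w ∈ s, (cI K B n ht (n + 1 - (s.card + s'.card) + 1) (al Ψ (g, s.erase w)) (al Ψ (g', s')) +
        cI K B n ht (n + 1 - (s.card + s'.card) + 1) (al Ψ (g * e w, s.erase w))
          (al Ψ (g', s'))) +
      ∑ w ∈ s', (cI K B n ht (n + 1 - (s.card + s'.card) + 1) (al Ψ (g, s))
          (al Ψ (g', s'.erase w)) +
        cI K B n ht (n + 1 - (s.card + s'.card) + 1) (al Ψ (g, s))
          (al Ψ (g' * e w, s'.erase w))) +
      (cI K B n ht (n + 1 - (s.card + s'.card)) (al Ψ (g, s)) (al Ψ (g', s')) +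
        cI K B n ht (n + 1 - (s.card + s'.card)) (al Ψ (g', s')) (al Ψ (g, s))) = 0 := by
  classical
  obtain ⟨m, hm⟩ : ∃ m, n + 1 - (s.card + s'.card) = m := ⟨_, rfl⟩
  rw [hm]
  set x := al Ψ (g, s) with hx
  set y := al Ψ (g', s') with hy
  -- the cochain `ω`
  let ω : Finset U → ZMod 2 := fun r => if r ∈ K ∧ r.card = n then cup ht (m + 1) x y r else 0
  have hω1 : ∀ r, ω r ≠ 0 → r ∈ K ∧ r.card = n ∧ cup ht (m + 1) x y r ≠ 0 := by
    intro r hr
    by_cases h : r ∈ K ∧ r.card = n
    · refine ⟨h.1, h.2, ?_⟩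
      rwa [show ω r = cup ht (m + 1) x y r from if_pos h] at hr
    · exact absurd (if_neg h) hr
  have hω : ∀ r, ω r ≠ 0 → r ∈ K ∧ r ∉ B ∧ r.card = n := by
    intro r hr
    obtain ⟨h1, h2, h3⟩ := hω1 r hr
    refine ⟨h1, fun h4 => ?_, h2⟩
    obtain ⟨f, hf, f', hf', h5, h6⟩ := cup_ne h3
    have h7 := al_supp hΨ hs h5
    exact h7.2.1 (hM.bd_down r h4 f hf (hM.ne f h7.1))
  have hfin : {r | ω r ≠ 0}.Finite := by
    refine (fin_up hM hΨ g hs).subset fun r hr => ?_
    obtain ⟨h1, h2, h3⟩ := hω1 r hr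
    obtain ⟨f, hf, f', hf', h5, h6⟩ := cup_ne h3
    exact ⟨h1, f, hf, h5⟩
  have h1 := stokes hM ω hfin hω
  -- the value on a top simplex
  have h2 : ∀ t, Top K B n t → cob ω t =
      ∑ w ∈ s, (cup ht (m + 1) (al Ψ (g, s.erase w)) y t +
        cup ht (m + 1) (al Ψ (g * e w, s.erase w)) y t) +
      ∑ w ∈ s', (cup ht (m + 1) x (al Ψ (g', s'.erase w)) t +
        cup ht (m + 1) x (al Ψ (g' * e w, s'.erase w)) t) +
      (cup ht m x y t + cup ht m y x t) := by
    intro t htT
    have h3 : cob ω t = cob (cup ht (m + 1) x y) t := by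
      unfold cob
      refine sum_congr rfl fun v hv => ?_
      by_cases h4 : (t.erase v).Nonempty
      · have h5 : t.erase v ∈ K := hM.down t htT.1 _ (erase_subset v t) h4
        have h6 : (t.erase v).card = n := by
          rw [card_erase_of_mem hv, htT.2.2]
          rfl
        exact if_pos ⟨h5, h6⟩
      · rw [not_nonempty_iff_eq_empty] at h4
        rw [h4]
        have h5 : ω ∅ = 0 := by
          refine if_neg fun h => ?_
          exact absurd (hM.ne ∅ h.1) Finset.not_nonempty_empty
        rw [h5]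
        symm
        refine cup_zero_l fun f hf => ?_
        rw [subset_empty.1 hf]
        exact al_empty _
    have hK' : ∀ f ⊆ t, f ∈ K ∨ f = ∅ := by
      intro f hf
      rcases f.eq_empty_or_nonempty with h | h
      · exact Or.inr h
      · exact Or.inl (hM.down t htT.1 f hf h)
    rw [h3, cob_cup ht m x y t (hinj t htT.1)]
    congr 1
    congr 1
    · rw [cup_congr (ht := ht) (fun f hf => cob_al hM hK hΨ hs (hK' f hf)) (fun f _ => rfl),
        cup_sum_l]
      exact sum_congr rfl fun w _ => cup_add_l _ _ _ _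
    · rw [cup_congr (ht := ht) (fun f _ => rfl) (fun f hf => cob_al hM hK hΨ hs' (hK' f hf)),
        cup_sum_r]
      exact sum_congr rfl fun w _ => cup_add_r _ _ _ _
  -- the sum over the top simplices
  have h3 : ∀ t, (if Top K B n t then cob ω t else 0) =
      ∑ w ∈ s, ((if Top K B n t then cup ht (m + 1) (al Ψ (g, s.erase w)) y t else 0) +
        (if Top K B n t then cup ht (m + 1) (al Ψ (g * e w, s.erase w)) y t else 0)) +
      ∑ w ∈ s', ((if Top K B n t then cup ht (m + 1) x (al Ψ (g', s'.erase w)) t else 0) +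
        (if Top K B n t then cup ht (m + 1) x (al Ψ (g' * e w, s'.erase w)) t else 0)) +
      ((if Top K B n t then cup ht m x y t else 0) +
        (if Top K B n t then cup ht m y x t else 0)) := by
    intro t
    by_cases h : Top K B n t
    · simp only [if_pos h]
      exact h2 t h
    · simp only [if_neg h, add_zero, sum_const_zero]
  rw [finsum_congr h3] at h1
  have f1 : ∀ w, (Function.support fun t =>
      if Top K B n t then cup ht (m + 1) (al Ψ (g, s.erase w)) y t else 0).Finite := fun w =>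
    fin_cup' (ht := ht) hM hΨ g g' hs' (m + 1)
  have f2 : ∀ w, (Function.support fun t =>
      if Top K B n t then cup ht (m + 1) (al Ψ (g * e w, s.erase w)) y t else 0).Finite := fun w =>
    fin_cup' (ht := ht) hM hΨ (g * e w) g' hs' (m + 1)
  have f3 : ∀ w, (Function.support fun t =>
      if Top K B n t then cup ht (m + 1) x (al Ψ (g', s'.erase w)) t else 0).Finite := fun w =>
    fin_cup (ht := ht) hM hΨ g g' hs (m + 1)
  have f4 : ∀ w, (Function.support fun t =>
      if Top K B n t then cup ht (m + 1) x (al Ψ (g' * e w, s'.erase w)) t else 0).Finite :=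
    fun w => fin_cup (ht := ht) hM hΨ g (g' * e w) hs (m + 1)
  have f5 : (Function.support fun t => if Top K B n t then cup ht m x y t else 0).Finite :=
    fin_cup (ht := ht) hM hΨ g g' hs m
  have f6 : (Function.support fun t => if Top K B n t then cup ht m y x t else 0).Finite :=
    fin_cup (ht := ht) hM hΨ g' g hs' m
  have g1 : ∀ w, (Function.support fun t =>
      (if Top K B n t then cup ht (m + 1) (al Ψ (g, s.erase w)) y t else 0) +
        (if Top K B n t then cup ht (m + 1) (al Ψ (g * e w, s.erase w)) y t else 0)).Finite :=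
    fun w => ((f1 w).union (f2 w)).subset (Function.support_add _ _)
  have g2 : ∀ w, (Function.support fun t =>
      (if Top K B n t then cup ht (m + 1) x (al Ψ (g', s'.erase w)) t else 0) +
        (if Top K B n t then cup ht (m + 1) x (al Ψ (g' * e w, s'.erase w)) t else 0)).Finite :=
    fun w => ((f3 w).union (f4 w)).subset (Function.support_add _ _)
  have g3 : (Function.support fun t => ∑ w ∈ s,
      ((if Top K B n t then cup ht (m + 1) (al Ψ (g, s.erase w)) y t else 0) +
        (if Top K B n t then cup ht (m + 1) (al Ψ (g * e w, s.erase w)) y t else 0))).Finite := by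
    refine Set.Finite.subset (Set.Finite.biUnion s.finite_toSet fun w _ => g1 w) fun t h => ?_
    obtain ⟨w, hw, hne⟩ := exists_ne_zero_of_sum_ne_zero h
    exact Set.mem_biUnion hw hne
  have g4 : (Function.support fun t => ∑ w ∈ s',
      ((if Top K B n t then cup ht (m + 1) x (al Ψ (g', s'.erase w)) t else 0) +
        (if Top K B n t then cup ht (m + 1) x (al Ψ (g' * e w, s'.erase w)) t else 0))).Finite := by
    refine Set.Finite.subset (Set.Finite.biUnion s'.finite_toSet fun w _ => g2 w) fun t h => ?_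
    obtain ⟨w, hw, hne⟩ := exists_ne_zero_of_sum_ne_zero h
    exact Set.mem_biUnion hw hne
  have g5 : (Function.support fun t => ∑ w ∈ s,
      ((if Top K B n t then cup ht (m + 1) (al Ψ (g, s.erase w)) y t else 0) +
        (if Top K B n t then cup ht (m + 1) (al Ψ (g * e w, s.erase w)) y t else 0)) +
      ∑ w ∈ s', ((if Top K B n t then cup ht (m + 1) x (al Ψ (g', s'.erase w)) t else 0) +
        (if Top K B n t then cup ht (m + 1) x (al Ψ (g' * e w, s'.erase w)) t else 0))).Finite :=
    (g3.union g4).subset (Function.support_add _ _)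
  have g6 : (Function.support fun t => (if Top K B n t then cup ht m x y t else 0) +
        (if Top K B n t then cup ht m y x t else 0)).Finite :=
    (f5.union f6).subset (Function.support_add _ _)
  rw [finsum_add_distrib g5 g6, finsum_add_distrib g3 g4, finsum_add_distrib f5 f6,
    finsum_sum_comm s _ fun w _ => g1 w, finsum_sum_comm s' _ fun w _ => g2 w] at h1
  rw [← h1]
  congr 1
  congr 1
  · refine sum_congr rfl fun w _ => ?_
    rw [finsum_add_distrib (f1 w) (f2 w)]
    rfl
  · refine sum_congr rfl fun w _ => ?_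
    rw [finsum_add_distrib (f3 w) (f4 w)]
    rfl

/-- order zero -/
theorem cI_zero (c c' : A × Finset W) : cI K B n ht 0 (al Ψ c) (al Ψ c') = 0 := by
  classical
  unfold cI
  have h : ∀ t : Finset U, (if Top K B n t then cup ht 0 (al Ψ c) (al Ψ c') t else 0) = 0 := by
    intro t
    split_ifs
    · unfold cup
      refine sum_eq_zero fun C hC => ?_
      rw [mem_powersetCard] at hC
      have h1 : C = ∅ := card_eq_zero.1 hC.2
      subst h1
      have h2 : face2 ht ∅ t = ∅ := by
        unfold face2 below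
        rw [filter_eq_empty_iff]
        intro v _
        simp
      rw [h2, al_empty, mul_zero]
    · rfl
  rw [finsum_congr h, finsum_zero]

/-- the relation -/
theorem HH_rel (hM : Mfd K B n) (hK : Acyc K) (hinj : ∀ s ∈ K, Set.InjOn ht (s : Set U))
    (hΨ : IsPsi O e K B n Ψ) (g : A) (s : Finset W) (g' : A) (s' : Finset W)
    (hs : O.IsClique (s : Set W)) (hs' : O.IsClique (s' : Set W)) :
    ∑ w ∈ s, (HH K B n ht Ψ g (s.erase w) g' s' + HH K B n ht Ψ (g * e w) (s.erase w) g' s') +
      ∑ w ∈ s', (HH K B n ht Ψ g s g' (s'.erase w) + HH K B n ht Ψ g s (g' * e w) (s'.erase w)) =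
      HH K B n ht Ψ g s g' s' + HH K B n ht Ψ g' s' g s := by
  have key : ∀ a b : ZMod 2, a + b = 0 → a = b := by decide
  by_cases hc : s.card + s'.card ≤ n + 1
  · have h1 := rel_aux (ht := ht) hM hK hinj hΨ g g' hs hs'
    apply key
    rw [← h1]
    congr 1
    · congr 1
      · refine sum_congr rfl fun w hw => ?_
        have h2 : (s.erase w).card + 1 = s.card := card_erase_add_one hw
        have h3 : n + 1 - ((s.erase w).card + s'.card) = n + 1 - (s.card + s'.card) + 1 := by
          omega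
        unfold HH
        rw [if_pos (by omega), if_pos (by omega), h3]
      · refine sum_congr rfl fun w hw => ?_
        have h2 : (s'.erase w).card + 1 = s'.card := card_erase_add_one hw
        have h3 : n + 1 - (s.card + (s'.erase w).card) = n + 1 - (s.card + s'.card) + 1 := by
          omega
        unfold HH
        rw [if_pos (by omega), if_pos (by omega), h3]
    · have h4 : s'.card + s.card = s.card + s'.card := add_comm _ _
      unfold HH
      rw [h4]
      by_cases h2 : s.card + s'.card ≤ n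
      · rw [if_pos h2, if_pos h2]
      · have h3 : n + 1 - (s.card + s'.card) = 0 := by omega
        rw [if_neg h2, if_neg h2, h3, cI_zero, cI_zero]
  · unfold HH
    rw [sum_eq_zero, sum_eq_zero, if_neg (by omega), if_neg (by omega)]
    · intro w hw
      have h2 : (s'.erase w).card + 1 = s'.card := card_erase_add_one hw
      rw [if_neg (by omega), if_neg (by omega), add_zero]
    · intro w hw
      have h2 : (s.erase w).card + 1 = s.card := card_erase_add_one hw
      rw [if_neg (by omega), if_neg (by omega), add_zero]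

/-- the self-intersection of a vertex -/
theorem HH_one (hM : Mfd K B n) (hΨ : IsPsi O e K B n Ψ) : HH K B n ht Ψ 1 ∅ 1 ∅ = 1 := by
  classical
  have h0 : O.IsClique ((∅ : Finset W) : Set W) := by
    rw [coe_empty]
    exact Set.pairwise_empty _
  unfold HH cI
  rw [card_empty, add_zero, if_pos (Nat.zero_le n), Nat.sub_zero, ← sum_al hM hΨ (1 : A)]
  refine finsum_congr fun t => ?_
  by_cases h : Top K B n t
  · rw [if_pos h]
    unfold cup
    rw [← h.2.2, powersetCard_self, sum_singleton]
    have h1 : face1 ht t t = t := filter_true_of_mem fun v hv => Or.inl hv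
    have h2 : face2 ht t t = t := filter_true_of_mem fun v hv => Or.inl hv
    rw [h1, h2]
    have h3 : ∀ a : ZMod 2, a * a = a := by decide
    exact h3 _
  · rw [if_neg h]
    symm
    by_contra hne
    obtain ⟨h1, h2, h3⟩ := al_supp hΨ h0 hne
    rw [card_empty, add_zero] at h3
    exact h ⟨h1, h2, h3⟩

/-- only finitely many relative positions of two cubes have nonzero intersection numbers -/
theorem HH_fin [Fintype W] (hM : Mfd K B n) (hΨ : IsPsi O e K B n Ψ) (hA : PAct A K B) :
    ∃ E : Finset A, ∀ (g : A) (s : Finset W) (g' : A) (s' : Finset W),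
      O.IsClique (s : Set W) → O.IsClique (s' : Set W) → HH K B n ht Ψ g s g' s' ≠ 0 →
      g⁻¹ * g' ∈ E := by
  classical
  -- the vertices of the simplices in the supports of the cochains of the cubes at `1`
  have h1 : {u | ∃ s : Finset W, O.IsClique (s : Set W) ∧ ∃ f, al Ψ ((1 : A), s) f ≠ 0 ∧
      u ∈ f}.Finite := by
    have h2 : {u | ∃ s : Finset W, O.IsClique (s : Set W) ∧ ∃ f, al Ψ ((1 : A), s) f ≠ 0 ∧
        u ∈ f} ⊆ ⋃ s ∈ (Set.univ : Set (Finset W)), ⋃ f ∈ {f | al Ψ ((1 : A), s) f ≠ 0},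
          ((f : Finset U) : Set U) := by
      rintro u ⟨s, _, f, hf, hu⟩
      exact Set.mem_biUnion (Set.mem_univ s) (Set.mem_biUnion hf hu)
    refine Set.Finite.subset ?_ h2
    exact Set.finite_univ.biUnion fun s _ => (al_fin _).biUnion fun f _ => f.finite_toSet
  have h3 : {h : A | ∃ u u' : U, (∃ s : Finset W, O.IsClique (s : Set W) ∧ ∃ f,
      al Ψ ((1 : A), s) f ≠ 0 ∧ u ∈ f) ∧ (∃ s : Finset W, O.IsClique (s : Set W) ∧ ∃ f,
      al Ψ ((1 : A), s) f ≠ 0 ∧ u' ∈ f) ∧ ∃ t ∈ K, u ∈ t ∧ h • u' ∈ t}.Finite := by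
    have h4 : ∀ u ∈ {u | ∃ s : Finset W, O.IsClique (s : Set W) ∧ ∃ f,
        al Ψ ((1 : A), s) f ≠ 0 ∧ u ∈ f}, {w | ∃ t ∈ K, u ∈ t ∧ w ∈ t}.Finite := by
      rintro u ⟨s, hs, f, hf, hu⟩
      have h5 := al_supp hΨ hs hf
      have h6 : ({u} : Finset U) ∈ K :=
        hM.down f h5.1 _ (singleton_subset_iff.2 hu) (singleton_nonempty u)
      have h7 : {w | ∃ t ∈ K, u ∈ t ∧ w ∈ t} ⊆
          ⋃ t ∈ {t | t ∈ K ∧ {u} ⊆ t}, ((t : Finset U) : Set U) := by
        rintro w ⟨t, ht1, ht2, ht3⟩
        exact Set.mem_biUnion (show t ∈ {t | t ∈ K ∧ {u} ⊆ t} from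
          ⟨ht1, singleton_subset_iff.2 ht2⟩) ht3
      exact ((hM.locfin _ h6).biUnion fun t _ => t.finite_toSet).subset h7
    have h5 : ∀ u ∈ {u | ∃ s : Finset W, O.IsClique (s : Set W) ∧ ∃ f,
        al Ψ ((1 : A), s) f ≠ 0 ∧ u ∈ f}, {u} ∈ K := by
      rintro u ⟨s, hs, f, hf, hu⟩
      exact hM.down f (al_supp hΨ hs hf).1 _ (singleton_subset_iff.2 hu) (singleton_nonempty u)
    refine Set.Finite.subset (h1.biUnion fun u hu => h1.biUnion fun u' hu' =>
      (h4 u hu).biUnion fun w _ => hA.proper u' w (h5 u' hu')) ?_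
    rintro h ⟨u, u', hu, hu', t, ht1, ht2, ht3⟩
    exact Set.mem_biUnion hu (Set.mem_biUnion hu' (Set.mem_biUnion
      (show h • u' ∈ {w | ∃ t ∈ K, u ∈ t ∧ w ∈ t} from ⟨t, ht1, ht2, ht3⟩) rfl))
  refine ⟨h3.toFinset, fun g s g' s' hs hs' hne => ?_⟩
  rw [Set.Finite.mem_toFinset]
  unfold HH at hne
  split_ifs at hne with hc
  · -- a top simplex with a nonzero cup product
    have h5 : ∃ t, (if Top K B n t then cup ht (n + 1 - (s.card + s'.card)) (al Ψ (g, s))
        (al Ψ (g', s')) t else 0) ≠ 0 := by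
      by_contra hcon
      push Not at hcon
      apply hne
      unfold cI
      rw [finsum_congr hcon, finsum_zero]
    obtain ⟨t, htne⟩ := h5
    by_cases hT : Top K B n t
    · rw [if_pos hT] at htne
      obtain ⟨f, hf, f', hf', h6, h7⟩ := cup_ne htne
      have e1 : al Ψ (g, s) f = al Ψ ((1 : A), s) (g⁻¹ • f) := by
        have := al_smul hΨ g 1 hs (g⁻¹ • f)
        rwa [smul_inv_smul, mul_one] at this
      have e2 : al Ψ (g', s') f' = al Ψ ((1 : A), s') (g'⁻¹ • f') := by
        have := al_smul hΨ g' 1 hs' (g'⁻¹ • f')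
        rwa [smul_inv_smul, mul_one] at this
      obtain ⟨u, hu⟩ := hM.ne f (al_supp hΨ hs h6).1
      obtain ⟨u', hu'⟩ := hM.ne f' (al_supp hΨ hs' h7).1
      rw [e1] at h6
      rw [e2] at h7
      refine ⟨g⁻¹ • u, g'⁻¹ • u', ⟨s, hs, _, h6, smul_mem_smul_finset hu⟩,
        ⟨s', hs', _, h7, smul_mem_smul_finset hu'⟩, g⁻¹ • t, hA.K_mem g⁻¹ t hT.1,
        smul_mem_smul_finset (hf hu), ?_⟩
      rw [← mul_smul, mul_assoc, mul_inv_cancel, mul_one]
      exact smul_mem_smul_finset (hf' hu')
    · exact absurd (if_neg hT) htne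
  · exact absurd rfl hne

/-- **The intersection numbers.** -/
theorem inter_of_psi [Fintype W] (hM : Mfd K B n) (hK : Acyc K) (hinj : ∀ s ∈ K, Set.InjOn ht (s : Set U))
    (hΨ : IsPsi O e K B n Ψ) (hA : PAct A K B) : Inter O e n (HH K B n ht Ψ) where
  rel g s g' s' hs hs' := HH_rel hM hK hinj hΨ g s g' s' hs hs'
  top g s g' s' _ _ h := by
    unfold HH
    rw [if_neg (by omega)]
  one := HH_one hM hΨ
  fin := HH_fin hM hΨ hA

end Pool.Agent.H65.RM

end

section

/-!
# Intersection numbers of abstract cells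

A group `P` acts freely on a set `X` of cells with a boundary mod 2. A proper action of `P` on an acyclic homology
manifold gives intersection numbers of the cells. (Copies of the proofs of project RM, where the cells are the
pairs `(g, s)`.)
-/

set_option autoImplicit false
set_option linter.unusedSectionVars false

open Finset Pointwise

namespace Pool.Agent.H84.RX

open Pool.Agent.H37.TM

/-- a free action of `P` on the cells of an augmented complex mod 2 -/
structure Cells (P : Type) {X : Type} [Group P] [MulAction P X] (sz : X → ℕ)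
    (bd : X → (X →₀ ZMod 2)) : Prop where
  free : ∀ (p : P) (x : X), p • x = x → p = 1
  sz_smul : ∀ (p : P) (x : X), sz (p • x) = sz x
  bd_sz : ∀ x y, bd x y ≠ 0 → sz y + 1 = sz x
  bd_smul : ∀ (p : P) (x : X), bd (p • x) = (bd x).mapDomain (p • ·)
  bd_bd : ∀ x, lin bd (bd x) = 0
  aug : ∀ x, sz x = 1 → lin (fun _ => (1 : ZMod 2)) (bd x) = 0

/-- Intersection numbers of the cells. -/
structure InterX (P : Type) {X : Type} [Group P] [MulAction P X] (sz : X → ℕ)
    (bd : X → (X →₀ ZMod 2)) (n : ℕ) (H : X → X → ZMod 2) : Prop where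
  rel : ∀ x y, lin (fun x' => H x' y) (bd x) + lin (fun y' => H x y') (bd y) = H x y + H y x
  top : ∀ x y, n < sz x + sz y → H x y = 0
  one : ∀ x, sz x = 0 → H x x = 1
  fin : ∀ x y, {p : P | ∃ q : P, H (q • x) ((q * p) • y) ≠ 0}.Finite

theorem lin_supp {X N : Type} [AddCommGroup N] [Module (ZMod 2) N] (f : X → N)
    (x : X →₀ ZMod 2) : lin f x = ∑ c ∈ x.support, f c := by
  unfold lin
  rw [Finsupp.linearCombination_apply, Finsupp.sum]
  refine sum_congr rfl fun c hc => ?_
  have h : x c = 1 :=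
    (by decide : ∀ a : ZMod 2, a ≠ 0 → a = 1) _ (Finsupp.mem_support_iff.1 hc)
  rw [h, one_smul]

variable {P X U : Type} [Group P] [MulAction P X] [DecidableEq U] [MulAction P U]
  {sz : X → ℕ} {bd : X → (X →₀ ZMod 2)}

theorem bd_zero (hX : Cells P sz bd) {x : X} (hx : sz x = 0) : bd x = 0 := by
  ext y
  by_contra h
  have := hX.bd_sz x y h
  omega

/-- equivariant chain maps from the cells to the pairs of simplices -/
structure IsPsi (P : Type) {X U : Type} [Group P] [MulAction P X] [DecidableEq U] [MulAction P U]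
    (sz : X → ℕ) (bd : X → (X →₀ ZMod 2)) (K B : Set (Finset U)) (n : ℕ)
    (Ψ : X → (Finset U × Finset U →₀ ZMod 2)) : Prop where
  mem : ∀ x, Ψ x ∈ TN K B n (sz x + 1)
  smul : ∀ (p : P) (x : X), Ψ (p • x) = (Ψ x).mapDomain (p • ·)
  bd : ∀ x, bdT K n (Ψ x) = (if sz x = 0 then Finsupp.single (∅, ∅) 1 else 0) + lin Ψ (bd x)

/-- the cochain dual to the image of a cell -/
noncomputable def al {X U : Type} [DecidableEq U] (Ψ : X → (Finset U × Finset U →₀ ZMod 2))
    (x : X) (t : Finset U) : ZMod 2 := ∑ v ∈ t, Ψ x ({v}, t)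

variable {K B : Set (Finset U)} {n : ℕ} {Ψ : X → (Finset U × Finset U →₀ ZMod 2)}

theorem al_empty (x : X) : al Ψ x ∅ = 0 := by
  unfold al
  rw [sum_empty]

theorem al_supp (hΨ : IsPsi P sz bd K B n Ψ) {x : X}
    {t : Finset U} (h : al Ψ x t ≠ 0) : t ∈ K ∧ t ∉ B ∧ t.card + sz x = n + 1 := by
  unfold al at h
  obtain ⟨v, hv, hne⟩ := exists_ne_zero_of_sum_ne_zero h
  have h1 := (Finsupp.mem_supported _ _).1 (hΨ.mem x) (mem_coe.2 (Finsupp.mem_support_iff.2 hne))
  obtain ⟨-, -, h3, h4, h5⟩ := h1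
  simp only [card_singleton] at h3 h4 h5
  exact ⟨h3, h4, by omega⟩

theorem al_fin (x : X) : {t | al Ψ x t ≠ 0}.Finite := by
  classical
  refine Set.Finite.subset (((Ψ x).support.image Prod.snd).finite_toSet) fun t ht => ?_
  obtain ⟨v, _, hne⟩ := exists_ne_zero_of_sum_ne_zero ht
  exact mem_coe.2 (mem_image.2 ⟨({v}, t), Finsupp.mem_support_iff.2 hne, rfl⟩)

/-- the coboundary of the cochain of a cell is the sum of the cochains of its faces -/
theorem cob_al (hM : Mfd K B n) (hK : Acyc K) (hΨ : IsPsi P sz bd K B n Ψ) {x : X}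
    {t : Finset U} (ht : t ∈ K ∨ t = ∅) :
    cob (al Ψ x) t = ∑ x' ∈ (bd x).support, al Ψ x' t := by
  classical
  rcases ht with ht | rfl
  · have h1 : ∀ v ∈ t, bdT K n (Ψ x) ({v}, t) =
        ∑ w ∈ t.erase v, Ψ x ({v, w}, t) + ∑ w ∈ t.erase v, Ψ x ({v}, t.erase w) := by
      intro v hv
      rw [bdT_apply hM (hK.lt 0) (hΨ.mem x) (singleton_nonempty v),
        TotX.MX.D_of (toMX hM (hK.lt 0)) (singleton_nonempty v) (singleton_subset_iff.2 hv)
          (show t ∈ (toMX hM (hK.lt 0)).faces from ht), sdiff_singleton_eq_erase, ← sum_add_distrib]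
      refine sum_congr rfl fun w _ => ?_
      rw [Finset.pair_comm]
    have h2 : ∀ v, bdT K n (Ψ x) ({v}, t) = ∑ x' ∈ (bd x).support, Ψ x' ({v}, t) := by
      intro v
      rw [hΨ.bd x, lin_supp, Finsupp.add_apply, Finsupp.finsetSum_apply]
      have h3 : (if sz x = 0 then Finsupp.single ((∅ : Finset U), (∅ : Finset U)) (1 : ZMod 2)
          else 0) ({v}, t) = 0 := by
        split_ifs
        · rw [Finsupp.single_apply, if_neg]
          intro h
          exact (singleton_ne_empty v) (congrArg Prod.fst h).symm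
        · rfl
      rw [h3, zero_add]
    have h3 : ∑ v ∈ t, bdT K n (Ψ x) ({v}, t) = cob (al Ψ x) t := by
      rw [sum_congr rfl h1, sum_add_distrib,
        TotX.sum_pairs_symm t (fun v w => Ψ x ({v, w}, t))
          (fun u w => by rw [Finset.pair_comm]), zero_add]
      unfold cob al
      rw [Finset.sum_sigma', Finset.sum_sigma']
      refine sum_bij' (fun p _ => ⟨p.2, p.1⟩) (fun p _ => ⟨p.2, p.1⟩) ?_ ?_ ?_ ?_ ?_
      · rintro ⟨v, w⟩ h
        simp only [mem_sigma, mem_erase] at h ⊢
        exact ⟨h.2.2, fun h' => h.2.1 h'.symm, h.1⟩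
      · rintro ⟨w, v⟩ h
        simp only [mem_sigma, mem_erase] at h ⊢
        exact ⟨h.2.2, fun h' => h.2.1 h'.symm, h.1⟩
      · rintro ⟨v, w⟩ _
        rfl
      · rintro ⟨v, w⟩ _
        rfl
      · rintro ⟨v, w⟩ _
        rfl
    rw [← h3, sum_congr rfl fun v _ => h2 v, sum_comm]
    rfl
  · unfold cob
    rw [sum_empty]
    symm
    refine sum_eq_zero fun w _ => ?_
    rw [al_empty]

/-- the augmentation -/
theorem sum_al (hM : Mfd K B n) (hX : Cells P sz bd) (hΨ : IsPsi P sz bd K B n Ψ) {x : X}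
    (hx : sz x = 0) : ∑ᶠ t, al Ψ x t = 1 := by
  classical
  have hmem := hΨ.mem x
  rw [hx, zero_add] at hmem
  -- the cells of index one
  have h1 : ∀ c ∈ (Ψ x).support, bdE K n c (∅, ∅) = 1 ∧ ∃ v ∈ c.2, c.1 = {v} := by
    intro c hc
    obtain ⟨h2, h3, h4, h5, h6⟩ := (Finsupp.mem_supported _ _).1 hmem (mem_coe.2 hc)
    have h6' : c.1.card + n = c.2.card + 0 := h6
    have h7 := hM.card_le _ h4
    have h8 := card_pos.2 h2
    have h9 : c.1.card = 1 := by omega
    have h10 : c.2.card = n + 1 := by omega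
    refine ⟨?_, ?_⟩
    · unfold bdE
      rw [if_neg h2.ne_empty, if_pos h9, if_pos h10, Finsupp.add_apply, Finsupp.single_apply,
        if_pos rfl, Finsupp.finsetSum_apply, sum_eq_zero, add_zero]
      intro t _
      rw [Finsupp.single_apply, if_neg]
      intro h
      exact h2.ne_empty (congrArg Prod.fst h)
    · obtain ⟨v, hv⟩ := card_eq_one.1 h9
      refine ⟨v, h3 ?_, hv⟩
      rw [hv]
      exact mem_singleton_self v
  have h2 : bdT K n (Ψ x) (∅, ∅) = ∑ c ∈ (Ψ x).support, Ψ x c := by
    unfold bdT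
    rw [Finsupp.linearCombination_apply, Finsupp.sum, Finsupp.finsetSum_apply]
    refine sum_congr rfl fun c hc => ?_
    rw [Finsupp.smul_apply, (h1 c hc).1, smul_eq_mul, mul_one]
  have h3 : bdT K n (Ψ x) (∅, ∅) = 1 := by
    rw [hΨ.bd x, if_pos hx, bd_zero hX hx, map_zero, add_zero, Finsupp.single_apply, if_pos rfl]
  rw [finsum_eq_sum_of_support_subset (s := (Ψ x).support.image Prod.snd) _ (by
    intro t ht
    obtain ⟨v, _, hne⟩ := exists_ne_zero_of_sum_ne_zero ht
    exact mem_coe.2 (mem_image.2 ⟨({v}, t), Finsupp.mem_support_iff.2 hne, rfl⟩)), ← h3, h2,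
    ← sum_fiberwise_of_maps_to (s := (Ψ x).support)
      (t := (Ψ x).support.image Prod.snd) (g := Prod.snd)
      (fun c hc => mem_image_of_mem _ hc)]
  refine sum_congr rfl fun t _ => ?_
  unfold al
  symm
  rw [← sum_subset (s₁ := (t.filter fun v => Ψ x ({v}, t) ≠ 0)) (filter_subset _ _)
    (fun v hv hv' => by
      by_contra h
      exact hv' (mem_filter.2 ⟨hv, h⟩))]
  refine sum_bij' (fun c hc => (h1 c (mem_filter.1 hc).1).2.choose) (fun v _ => ({v}, t))
    ?_ ?_ ?_ ?_ ?_
  · intro c hc
    have h4 := (h1 c (mem_filter.1 hc).1).2.choose_spec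
    have h5 := (mem_filter.1 hc).2
    have h6 : c = ({(h1 c (mem_filter.1 hc).1).2.choose}, t) := Prod.ext h4.2 h5
    refine mem_filter.2 ⟨h5 ▸ h4.1, ?_⟩
    rw [← h6]
    exact Finsupp.mem_support_iff.1 (mem_filter.1 hc).1
  · intro v hv
    rw [mem_filter] at hv
    exact mem_filter.2 ⟨Finsupp.mem_support_iff.2 hv.2, rfl⟩
  · intro c hc
    have h4 := (h1 c (mem_filter.1 hc).1).2.choose_spec
    exact (Prod.ext h4.2 (mem_filter.1 hc).2).symm
  · intro v hv
    rw [mem_filter] at hv
    have h4 := (h1 ({v}, t) (Finsupp.mem_support_iff.2 hv.2)).2.choose_spec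
    exact (singleton_injective h4.2).symm
  · intro c hc
    have h4 := (h1 c (mem_filter.1 hc).1).2.choose_spec
    congr 1
    exact Prod.ext h4.2 (mem_filter.1 hc).2

theorem al_smul (hΨ : IsPsi P sz bd K B n Ψ) (p : P) (x : X)
    (t : Finset U) : al Ψ (p • x) (p • t) = al Ψ x t := by
  classical
  unfold al
  rw [hΨ.smul p x]
  have hsm : p • t = t.map ⟨fun u => p • u, MulAction.injective p⟩ := by
    rw [Finset.map_eq_image]
    rfl
  conv_lhs => rw [hsm]
  rw [Finset.sum_map]
  refine sum_congr rfl fun v _ => ?_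
  rw [← hsm]
  have h1 : (({(⟨fun u => p • u, MulAction.injective p⟩ : U ↪ U) v}, p • t) :
      Finset U × Finset U) = p • (({v}, t) : Finset U × Finset U) := by
    change _ = (p • ({v} : Finset U), p • t)
    rw [smul_finset_singleton]
    rfl
  rw [h1]
  exact Finsupp.mapDomain_apply (MulAction.injective p) _ _

end Pool.Agent.H84.RX

end

section

/-!
# Intersection numbers of abstract cells, second part
-/

set_option autoImplicit false
set_option linter.unusedSectionVars false

open Finset Pointwise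

namespace Pool.Agent.H84.RX

open Pool.Agent.H37.TM Pool.Agent.H65.RM

variable {P X U : Type} [Group P] [MulAction P X] [DecidableEq U] [MulAction P U]
  {sz : X → ℕ} {bd : X → (X →₀ ZMod 2)} {K B : Set (Finset U)} {n : ℕ}
  {Ψ : X → (Finset U × Finset U →₀ ZMod 2)} {ht : U → ℕ}

/-- the intersection number of two cells -/
noncomputable def HH {X U : Type} [DecidableEq U] (K B : Set (Finset U)) (n : ℕ) (ht : U → ℕ)
    (sz : X → ℕ) (Ψ : X → (Finset U × Finset U →₀ ZMod 2)) (x y : X) : ZMod 2 :=
  if sz x + sz y ≤ n then cI K B n ht (n + 1 - (sz x + sz y)) (al Ψ x) (al Ψ y) else 0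

/-- the simplices which contain a simplex in the support of the cochain of a cell -/
theorem fin_up (hM : Mfd K B n) (hΨ : IsPsi P sz bd K B n Ψ) (x : X) :
    {t | t ∈ K ∧ ∃ f ⊆ t, al Ψ x f ≠ 0}.Finite := by
  have h1 : {t | t ∈ K ∧ ∃ f ⊆ t, al Ψ x f ≠ 0} =
      ⋃ f ∈ {f | al Ψ x f ≠ 0}, {t | t ∈ K ∧ f ⊆ t} := by
    ext t
    simp only [Set.mem_ofPred_eq, Set.mem_iUnion, exists_prop]
    constructor
    · rintro ⟨h2, f, h3, h4⟩
      exact ⟨f, h4, h2, h3⟩
    · rintro ⟨f, h4, h2, h3⟩
      exact ⟨h2, f, h3, h4⟩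
  rw [h1]
  exact (al_fin x).biUnion fun f hf => hM.locfin f (al_supp hΨ hf).1

/-- the summation of a finite sum -/
theorem fin_cup (hM : Mfd K B n) (hΨ : IsPsi P sz bd K B n Ψ) (x y : X) (j : ℕ) :
    (Function.support fun t => open Classical in
      if Top K B n t then cup ht j (al Ψ x) (al Ψ y) t else 0).Finite := by
  classical
  refine (fin_up hM hΨ x).subset fun t h => ?_
  rw [Function.mem_support] at h
  by_cases h1 : Top K B n t
  · rw [if_pos h1] at h
    obtain ⟨f, hf, f', _, h2, _⟩ := cup_ne h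
    exact ⟨h1.1, f, hf, h2⟩
  · exact absurd (if_neg h1) h

/-- the relation for the sums of cup products -/
theorem rel_aux (hM : Mfd K B n) (hK : Acyc K) (hinj : ∀ s ∈ K, Set.InjOn ht (s : Set U))
    (hΨ : IsPsi P sz bd K B n Ψ) (a b : X) :
    ∑ x' ∈ (bd a).support, cI K B n ht (n + 1 - (sz a + sz b) + 1) (al Ψ x') (al Ψ b) +
      ∑ y' ∈ (bd b).support, cI K B n ht (n + 1 - (sz a + sz b) + 1) (al Ψ a) (al Ψ y') +
      (cI K B n ht (n + 1 - (sz a + sz b)) (al Ψ a) (al Ψ b) +
        cI K B n ht (n + 1 - (sz a + sz b)) (al Ψ b) (al Ψ a)) = 0 := by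
  classical
  obtain ⟨m, hm⟩ : ∃ m, n + 1 - (sz a + sz b) = m := ⟨_, rfl⟩
  rw [hm]
  set x := al Ψ a with hx
  set y := al Ψ b with hy
  -- the cochain `ω`
  let ω : Finset U → ZMod 2 := fun r => if r ∈ K ∧ r.card = n then cup ht (m + 1) x y r else 0
  have hω1 : ∀ r, ω r ≠ 0 → r ∈ K ∧ r.card = n ∧ cup ht (m + 1) x y r ≠ 0 := by
    intro r hr
    by_cases h : r ∈ K ∧ r.card = n
    · refine ⟨h.1, h.2, ?_⟩
      rwa [show ω r = cup ht (m + 1) x y r from if_pos h] at hr
    · exact absurd (if_neg h) hr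
  have hω : ∀ r, ω r ≠ 0 → r ∈ K ∧ r ∉ B ∧ r.card = n := by
    intro r hr
    obtain ⟨h1, h2, h3⟩ := hω1 r hr
    refine ⟨h1, fun h4 => ?_, h2⟩
    obtain ⟨f, hf, f', hf', h5, h6⟩ := cup_ne h3
    have h7 := al_supp hΨ h5
    exact h7.2.1 (hM.bd_down r h4 f hf (hM.ne f h7.1))
  have hfin : {r | ω r ≠ 0}.Finite := by
    refine (fin_up hM hΨ a).subset fun r hr => ?_
    obtain ⟨h1, h2, h3⟩ := hω1 r hr
    obtain ⟨f, hf, f', hf', h5, h6⟩ := cup_ne h3
    exact ⟨h1, f, hf, h5⟩
  have h1 := stokes hM ω hfin hω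
  -- the value on a top simplex
  have h2 : ∀ t, Top K B n t → cob ω t =
      ∑ x' ∈ (bd a).support, cup ht (m + 1) (al Ψ x') y t +
      ∑ y' ∈ (bd b).support, cup ht (m + 1) x (al Ψ y') t +
      (cup ht m x y t + cup ht m y x t) := by
    intro t htT
    have h3 : cob ω t = cob (cup ht (m + 1) x y) t := by
      unfold cob
      refine sum_congr rfl fun v hv => ?_
      by_cases h4 : (t.erase v).Nonempty
      · have h5 : t.erase v ∈ K := hM.down t htT.1 _ (erase_subset v t) h4
        have h6 : (t.erase v).card = n := by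
          rw [card_erase_of_mem hv, htT.2.2]
          rfl
        exact if_pos ⟨h5, h6⟩
      · rw [not_nonempty_iff_eq_empty] at h4
        rw [h4]
        have h5 : ω ∅ = 0 := by
          refine if_neg fun h => ?_
          exact absurd (hM.ne ∅ h.1) Finset.not_nonempty_empty
        rw [h5]
        symm
        refine cup_zero_l fun f hf => ?_
        rw [subset_empty.1 hf]
        exact al_empty _
    have hK' : ∀ f ⊆ t, f ∈ K ∨ f = ∅ := by
      intro f hf
      rcases f.eq_empty_or_nonempty with h | h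
      · exact Or.inr h
      · exact Or.inl (hM.down t htT.1 f hf h)
    rw [h3, cob_cup ht m x y t (hinj t htT.1)]
    congr 1
    congr 1
    · rw [cup_congr (ht := ht) (fun f hf => cob_al hM hK hΨ (hK' f hf)) (fun f _ => rfl),
        cup_sum_l]
    · rw [cup_congr (ht := ht) (fun f _ => rfl) (fun f hf => cob_al hM hK hΨ (hK' f hf)),
        cup_sum_r]
  -- the sum over the top simplices
  have h3 : ∀ t, (if Top K B n t then cob ω t else 0) =
      ∑ x' ∈ (bd a).support, (if Top K B n t then cup ht (m + 1) (al Ψ x') y t else 0) +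
      ∑ y' ∈ (bd b).support, (if Top K B n t then cup ht (m + 1) x (al Ψ y') t else 0) +
      ((if Top K B n t then cup ht m x y t else 0) +
        (if Top K B n t then cup ht m y x t else 0)) := by
    intro t
    by_cases h : Top K B n t
    · simp only [if_pos h]
      exact h2 t h
    · simp only [if_neg h, add_zero, sum_const_zero]
  rw [finsum_congr h3] at h1
  have f1 : ∀ x' : X, (Function.support fun t =>
      if Top K B n t then cup ht (m + 1) (al Ψ x') y t else 0).Finite := fun x' =>
    fin_cup (ht := ht) hM hΨ x' b (m + 1)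
  have f3 : ∀ y' : X, (Function.support fun t =>
      if Top K B n t then cup ht (m + 1) x (al Ψ y') t else 0).Finite := fun y' =>
    fin_cup (ht := ht) hM hΨ a y' (m + 1)
  have f5 : (Function.support fun t => if Top K B n t then cup ht m x y t else 0).Finite :=
    fin_cup (ht := ht) hM hΨ a b m
  have f6 : (Function.support fun t => if Top K B n t then cup ht m y x t else 0).Finite :=
    fin_cup (ht := ht) hM hΨ b a m
  have g3 : (Function.support fun t => ∑ x' ∈ (bd a).support,
      (if Top K B n t then cup ht (m + 1) (al Ψ x') y t else 0)).Finite := by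
    refine Set.Finite.subset (Set.Finite.biUnion (bd a).support.finite_toSet
      fun w _ => f1 w) fun t h => ?_
    obtain ⟨w, hw, hne⟩ := exists_ne_zero_of_sum_ne_zero h
    exact Set.mem_biUnion hw hne
  have g4 : (Function.support fun t => ∑ y' ∈ (bd b).support,
      (if Top K B n t then cup ht (m + 1) x (al Ψ y') t else 0)).Finite := by
    refine Set.Finite.subset (Set.Finite.biUnion (bd b).support.finite_toSet
      fun w _ => f3 w) fun t h => ?_
    obtain ⟨w, hw, hne⟩ := exists_ne_zero_of_sum_ne_zero h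
    exact Set.mem_biUnion hw hne
  have g5 : (Function.support fun t => ∑ x' ∈ (bd a).support,
      (if Top K B n t then cup ht (m + 1) (al Ψ x') y t else 0) +
      ∑ y' ∈ (bd b).support,
        (if Top K B n t then cup ht (m + 1) x (al Ψ y') t else 0)).Finite :=
    (g3.union g4).subset (Function.support_add _ _)
  have g6 : (Function.support fun t => (if Top K B n t then cup ht m x y t else 0) +
        (if Top K B n t then cup ht m y x t else 0)).Finite :=
    (f5.union f6).subset (Function.support_add _ _)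
  rw [finsum_add_distrib g5 g6, finsum_add_distrib g3 g4, finsum_add_distrib f5 f6,
    finsum_sum_comm _ _ fun w _ => f1 w, finsum_sum_comm _ _ fun w _ => f3 w] at h1
  rw [← h1]
  rfl

/-- order zero -/
theorem cI_zero (x y : X) : cI K B n ht 0 (al Ψ x) (al Ψ y) = 0 := by
  classical
  unfold cI
  have h : ∀ t : Finset U, (if Top K B n t then cup ht 0 (al Ψ x) (al Ψ y) t else 0) = 0 := by
    intro t
    split_ifs
    · unfold cup
      refine sum_eq_zero fun C hC => ?_
      rw [mem_powersetCard] at hC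
      have h1 : C = ∅ := card_eq_zero.1 hC.2
      subst h1
      have h2 : face2 ht ∅ t = ∅ := by
        unfold face2 below
        rw [filter_eq_empty_iff]
        intro v _
        simp
      rw [h2, al_empty, mul_zero]
    · rfl
  rw [finsum_congr h, finsum_zero]

/-- the relation -/
theorem HH_rel (hM : Mfd K B n) (hK : Acyc K) (hinj : ∀ s ∈ K, Set.InjOn ht (s : Set U))
    (hX : Cells P sz bd) (hΨ : IsPsi P sz bd K B n Ψ) (x y : X) :
    lin (fun x' => HH K B n ht sz Ψ x' y) (bd x) + lin (fun y' => HH K B n ht sz Ψ x y') (bd y) =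
      HH K B n ht sz Ψ x y + HH K B n ht sz Ψ y x := by
  have key : ∀ a b : ZMod 2, a + b = 0 → a = b := by decide
  have hs : ∀ z, ∀ z' ∈ (bd z).support, sz z' + 1 = sz z := fun z z' hz' =>
    hX.bd_sz z z' (Finsupp.mem_support_iff.1 hz')
  rw [lin_supp, lin_supp]
  by_cases hc : sz x + sz y ≤ n + 1
  · have h1 := rel_aux (ht := ht) hM hK hinj hΨ x y
    apply key
    rw [← h1]
    congr 1
    · congr 1
      · refine sum_congr rfl fun w hw => ?_
        have h2 := hs x w hw
        have h3 : n + 1 - (sz w + sz y) = n + 1 - (sz x + sz y) + 1 := by omega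
        unfold HH
        rw [if_pos (by omega), h3]
      · refine sum_congr rfl fun w hw => ?_
        have h2 := hs y w hw
        have h3 : n + 1 - (sz x + sz w) = n + 1 - (sz x + sz y) + 1 := by omega
        unfold HH
        rw [if_pos (by omega), h3]
    · have h4 : sz y + sz x = sz x + sz y := add_comm _ _
      unfold HH
      rw [h4]
      by_cases h2 : sz x + sz y ≤ n
      · rw [if_pos h2, if_pos h2]
      · have h3 : n + 1 - (sz x + sz y) = 0 := by omega
        rw [if_neg h2, if_neg h2, h3, cI_zero, cI_zero]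
  · unfold HH
    rw [sum_eq_zero, sum_eq_zero, if_neg (by omega), if_neg (by omega)]
    · intro w hw
      have h2 := hs y w hw
      rw [if_neg (by omega)]
    · intro w hw
      have h2 := hs x w hw
      rw [if_neg (by omega)]

/-- the self-intersection of a vertex -/
theorem HH_one (hM : Mfd K B n) (hX : Cells P sz bd) (hΨ : IsPsi P sz bd K B n Ψ) {x : X}
    (hx : sz x = 0) : HH K B n ht sz Ψ x x = 1 := by
  classical
  unfold HH cI
  rw [hx, add_zero, if_pos (Nat.zero_le n), Nat.sub_zero, ← sum_al hM hX hΨ hx]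
  refine finsum_congr fun t => ?_
  by_cases h : Top K B n t
  · rw [if_pos h]
    unfold cup
    rw [← h.2.2, powersetCard_self, sum_singleton]
    have h1 : face1 ht t t = t := filter_true_of_mem fun v hv => Or.inl hv
    have h2 : face2 ht t t = t := filter_true_of_mem fun v hv => Or.inl hv
    rw [h1, h2]
    have h3 : ∀ a : ZMod 2, a * a = a := by decide
    exact h3 _
  · rw [if_neg h]
    symm
    by_contra hne
    obtain ⟨h1, h2, h3⟩ := al_supp hΨ hne
    rw [hx, add_zero] at h3
    exact h ⟨h1, h2, h3⟩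

/-- only finitely many relative positions of two cells have nonzero intersection numbers -/
theorem HH_fin (hM : Mfd K B n) (hΨ : IsPsi P sz bd K B n Ψ) (hA : PAct P K B) (x y : X) :
    {p : P | ∃ q : P, HH K B n ht sz Ψ (q • x) ((q * p) • y) ≠ 0}.Finite := by
  classical
  -- the vertices of the simplices in the support of the cochain of a cell
  have h1 : ∀ z : X, {u | ∃ f, al Ψ z f ≠ 0 ∧ u ∈ f}.Finite := by
    intro z
    have h2 : {u | ∃ f, al Ψ z f ≠ 0 ∧ u ∈ f} ⊆
        ⋃ f ∈ {f | al Ψ z f ≠ 0}, ((f : Finset U) : Set U) := by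
      rintro u ⟨f, hf, hu⟩
      exact Set.mem_biUnion hf hu
    exact Set.Finite.subset ((al_fin z).biUnion fun f _ => f.finite_toSet) h2
  have h5 : ∀ z : X, ∀ u ∈ {u | ∃ f, al Ψ z f ≠ 0 ∧ u ∈ f}, ({u} : Finset U) ∈ K := by
    rintro z u ⟨f, hf, hu⟩
    exact hM.down f (al_supp hΨ hf).1 _ (singleton_subset_iff.2 hu) (singleton_nonempty u)
  have h3 : {h : P | ∃ u u' : U, (∃ f, al Ψ x f ≠ 0 ∧ u ∈ f) ∧ (∃ f, al Ψ y f ≠ 0 ∧ u' ∈ f) ∧
      ∃ t ∈ K, u ∈ t ∧ h • u' ∈ t}.Finite := by
    have h4 : ∀ u ∈ {u | ∃ f, al Ψ x f ≠ 0 ∧ u ∈ f}, {w | ∃ t ∈ K, u ∈ t ∧ w ∈ t}.Finite := by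
      intro u hu
      have h6 := h5 x u hu
      have h7 : {w | ∃ t ∈ K, u ∈ t ∧ w ∈ t} ⊆
          ⋃ t ∈ {t | t ∈ K ∧ {u} ⊆ t}, ((t : Finset U) : Set U) := by
        rintro w ⟨t, ht1, ht2, ht3⟩
        exact Set.mem_biUnion (show t ∈ {t | t ∈ K ∧ {u} ⊆ t} from
          ⟨ht1, singleton_subset_iff.2 ht2⟩) ht3
      exact ((hM.locfin _ h6).biUnion fun t _ => t.finite_toSet).subset h7
    refine Set.Finite.subset ((h1 x).biUnion fun u hu => (h1 y).biUnion fun u' hu' =>
      (h4 u hu).biUnion fun w _ => hA.proper u' w (h5 y u' hu')) ?_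
    rintro h ⟨u, u', hu, hu', t, ht1, ht2, ht3⟩
    exact Set.mem_biUnion hu (Set.mem_biUnion hu' (Set.mem_biUnion
      (show h • u' ∈ {w | ∃ t ∈ K, u ∈ t ∧ w ∈ t} from ⟨t, ht1, ht2, ht3⟩) rfl))
  refine h3.subset ?_
  rintro p ⟨q, hne⟩
  unfold HH at hne
  split_ifs at hne with hc
  · -- a top simplex with a nonzero cup product
    have h5 : ∃ t, (if Top K B n t then cup ht (n + 1 - (sz (q • x) + sz ((q * p) • y)))
        (al Ψ (q • x)) (al Ψ ((q * p) • y)) t else 0) ≠ 0 := by
      by_contra hcon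
      push Not at hcon
      apply hne
      unfold cI
      rw [finsum_congr hcon, finsum_zero]
    obtain ⟨t, htne⟩ := h5
    by_cases hT : Top K B n t
    · rw [if_pos hT] at htne
      obtain ⟨f, hf, f', hf', h6, h7⟩ := cup_ne htne
      have e1 : al Ψ (q • x) f = al Ψ x (q⁻¹ • f) := by
        have := al_smul hΨ q x (q⁻¹ • f)
        rwa [smul_inv_smul] at this
      have e2 : al Ψ ((q * p) • y) f' = al Ψ y ((q * p)⁻¹ • f') := by
        have := al_smul hΨ (q * p) y ((q * p)⁻¹ • f')
        rwa [smul_inv_smul] at this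
      obtain ⟨u, hu⟩ := hM.ne f (al_supp hΨ h6).1
      obtain ⟨u', hu'⟩ := hM.ne f' (al_supp hΨ h7).1
      rw [e1] at h6
      rw [e2] at h7
      refine ⟨q⁻¹ • u, (q * p)⁻¹ • u', ⟨_, h6, smul_mem_smul_finset hu⟩,
        ⟨_, h7, smul_mem_smul_finset hu'⟩, q⁻¹ • t, hA.K_mem q⁻¹ t hT.1,
        smul_mem_smul_finset (hf hu), ?_⟩
      rw [← mul_smul, mul_inv_rev, mul_inv_cancel_left]
      exact smul_mem_smul_finset (hf' hu')
    · exact absurd (if_neg hT) htne
  · exact absurd rfl hne

/-- The equivariant chain map from the cells to the complex of pairs. -/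
theorem exists_psi_cells (hX : Cells P sz bd) (hM : Mfd K B n) (hK : Acyc K)
    (hA : PAct P K B) : ∃ Ψ : X → (Finset U × Finset U →₀ ZMod 2), IsPsi P sz bd K B n Ψ := by
  classical
  obtain ⟨H, h1, h2, h3⟩ := lift_free (Γ := P) (A := X)
    (N := Finset U × Finset U →₀ ZMod 2) (fun i => {x | sz x = i})
    (fun i g c hc' => (hX.sz_smul g c).trans hc') (fun i j c hi hj => hi.symm.trans hj)
    (fun i c _ g h => hX.free g c h)
    bd (fun i c hc' b hb => by
      have h4 := hX.bd_sz c b hb
      have h5 : sz c = i + 1 := hc'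
      exact (by omega : sz b = i))
    (fun c hc' => bd_zero hX hc')
    (fun i g c _ => hX.bd_smul g c) (fun i c _ => hX.bd_bd c)
    (Pool.Agent.H65.RM.rhoE P U) (bdT K n) (fun g x => bdT_smul hA g x)
    (TN K B n) (fun i g x hx => tn_smul hA g i x hx)
    (fun i _ x hx h0 => tot_exact hM (hK.lt i) i le_rfl x hx h0)
    (fun c => if sz c = 0 then Finsupp.single (∅, ∅) 1 else 0)
    (fun i c hc' => by
      split_ifs with h
      · have hi : i = 0 := hc'.symm.trans h
        subst hi
        exact Finsupp.single_mem_supported (ZMod 2) (1 : ZMod 2)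
          (show ((∅ : Finset U), (∅ : Finset U)) ∈ TCell K B n 0 from rfl)
      · exact Submodule.zero_mem _)
    (fun i g c _ => by
      change (if sz (g • c) = 0 then Finsupp.single ((∅ : Finset U), (∅ : Finset U)) (1 : ZMod 2)
          else 0) =
        (if sz c = 0 then Finsupp.single ((∅ : Finset U), (∅ : Finset U)) (1 : ZMod 2)
          else 0).mapDomain (g • ·)
      rw [hX.sz_smul]
      split_ifs with h
      · rw [Finsupp.mapDomain_single]
        congr 1
      · rw [Finsupp.mapDomain_zero])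
    (fun i c _ => by
      have hL : bdT K n (if sz c = 0 then Finsupp.single ((∅ : Finset U), (∅ : Finset U))
          (1 : ZMod 2) else 0) = 0 := by
        split_ifs with h
        · change lin (bdE K n) (Finsupp.single ((∅ : Finset U), (∅ : Finset U)) (1 : ZMod 2)) = 0
          rw [lin_single]
          unfold bdE
          rw [if_pos rfl]
        · rw [map_zero]
      rw [hL, lin_supp]
      symm
      by_cases h1 : sz c = 1
      · have h4 := hX.aug c h1
        rw [lin_supp] at h4
        have h5 : ∀ b ∈ (bd c).support, (if sz b = 0 then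
            Finsupp.single ((∅ : Finset U), (∅ : Finset U)) (1 : ZMod 2) else 0) =
            (1 : ZMod 2) • Finsupp.single ((∅ : Finset U), (∅ : Finset U)) (1 : ZMod 2) := by
          intro b hb
          have h6 := hX.bd_sz c b (Finsupp.mem_support_iff.1 hb)
          rw [if_pos (by omega), one_smul]
        rw [sum_congr rfl h5, ← Finset.sum_smul, h4, zero_smul]
      · refine sum_eq_zero fun b hb => ?_
        have h6 := hX.bd_sz c b (Finsupp.mem_support_iff.1 hb)
        exact if_neg (by omega))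
  exact ⟨H, fun x => h1 (sz x) x rfl, fun p x => h2 (sz x) p x rfl, fun x => h3 (sz x) x rfl⟩

/-- **Intersection numbers of abstract cells.** -/
theorem exists_inter_cells (hX : Cells P sz bd) (hM : Mfd K B n) (hK : Acyc K)
    (hA : PAct P K B) : ∃ H : X → X → ZMod 2, InterX P sz bd n H := by
  obtain ⟨Ψ, hΨ⟩ := exists_psi_cells hX hM hK hA
  obtain ⟨ht, hinj⟩ := exists_height hM hK
  exact ⟨HH K B n ht sz Ψ, HH_rel hM hK hinj hX hΨ,
    fun x y h => by
      unfold HH
      rw [if_neg (by omega)],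
    fun x hx => HH_one hM hX hΨ hx, HH_fin hM hΨ hA⟩

end Pool.Agent.H84.RX

end

section

/-!
# Duality pairs: intersection numbers of abstract cells, for pseudomanifolds

The proofs of `H84/RX/Al` and `H84/RX/Int` use only that `K` is a pseudomanifold with boundary `B` and the
equivariant chain map from the cells to the complex of pairs.
-/

set_option autoImplicit false
set_option linter.unusedSectionVars false

open Finset Pointwise

namespace Pool.Agent.H45.DA

open Pool.Agent.H37.TM hiding al IsPsi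
open Pool.Agent.H65.RM hiding IsPsi al al_supp cob_al sum_al al_smul al_empty al_fin cI_zero fin_up fin_cup fin_cup' rel_aux HH HH_rel HH_one HH_fin inter_of_psi
open Pool.Agent.H84.RX hiding cob_al sum_al fin_up fin_cup rel_aux HH_rel HH_one HH_fin

variable {P X U : Type} [Group P] [MulAction P X] [DecidableEq U] [MulAction P U]
  {sz : X → ℕ} {bd : X → (X →₀ ZMod 2)} {K B : Set (Finset U)} {n : ℕ}
  {Ψ : X → (Finset U × Finset U →₀ ZMod 2)} {ht : U → ℕ}

/-- the coboundary of the cochain of a cell is the sum of the cochains of its faces -/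
theorem cob_al (hM : Psm K B n) (hΨ : IsPsi P sz bd K B n Ψ) {x : X}
    {t : Finset U} (ht : t ∈ K ∨ t = ∅) :
    cob (al Ψ x) t = ∑ x' ∈ (bd x).support, al Ψ x' t := by
  classical
  rcases ht with ht | rfl
  · have h1 : Pool.Agent.H37.TM.al (bdT K n (Ψ x)) t = cob (al Ψ x) t := al_bdT hM (hΨ.mem x) ht
    have h2 : Pool.Agent.H37.TM.al
        (if sz x = 0 then Finsupp.single ((∅ : Finset U), (∅ : Finset U)) (1 : ZMod 2) else 0) t = 0 := by
      unfold Pool.Agent.H37.TM.al
      refine sum_eq_zero fun v _ => ?_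
      split_ifs
      · rw [Finsupp.single_apply, if_neg]
        intro h
        exact (singleton_ne_empty v) (congrArg Prod.fst h).symm
      · rfl
    rw [← h1, hΨ.bd x, al_add', h2, zero_add, lin_supp, al_sum']
    rfl
  · unfold cob
    rw [sum_empty]
    symm
    refine sum_eq_zero fun w _ => ?_
    rw [al_empty]

/-- the augmentation -/
theorem sum_al (hM : Psm K B n) (hX : Cells P sz bd) (hΨ : IsPsi P sz bd K B n Ψ) {x : X}
    (hx : sz x = 0) : ∑ᶠ t, al Ψ x t = 1 := by
  classical
  have hmem := hΨ.mem x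
  rw [hx, zero_add] at hmem
  -- the cells of index one
  have h1 : ∀ c ∈ (Ψ x).support, bdE K n c (∅, ∅) = 1 ∧ ∃ v ∈ c.2, c.1 = {v} := by
    intro c hc
    obtain ⟨h2, h3, h4, h5, h6⟩ := (Finsupp.mem_supported _ _).1 hmem (mem_coe.2 hc)
    have h6' : c.1.card + n = c.2.card + 0 := h6
    have h7 := hM.card_le _ h4
    have h8 := card_pos.2 h2
    have h9 : c.1.card = 1 := by omega
    have h10 : c.2.card = n + 1 := by omega
    refine ⟨?_, ?_⟩
    · unfold bdE
      rw [if_neg h2.ne_empty, if_pos h9, if_pos h10, Finsupp.add_apply, Finsupp.single_apply,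
        if_pos rfl, Finsupp.finsetSum_apply, sum_eq_zero, add_zero]
      intro t _
      rw [Finsupp.single_apply, if_neg]
      intro h
      exact h2.ne_empty (congrArg Prod.fst h)
    · obtain ⟨v, hv⟩ := card_eq_one.1 h9
      refine ⟨v, h3 ?_, hv⟩
      rw [hv]
      exact mem_singleton_self v
  have h2 : bdT K n (Ψ x) (∅, ∅) = ∑ c ∈ (Ψ x).support, Ψ x c := by
    unfold bdT
    rw [Finsupp.linearCombination_apply, Finsupp.sum, Finsupp.finsetSum_apply]
    refine sum_congr rfl fun c hc => ?_
    rw [Finsupp.smul_apply, (h1 c hc).1, smul_eq_mul, mul_one]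
  have h3 : bdT K n (Ψ x) (∅, ∅) = 1 := by
    rw [hΨ.bd x, if_pos hx, bd_zero hX hx, map_zero, add_zero, Finsupp.single_apply, if_pos rfl]
  rw [finsum_eq_sum_of_support_subset (s := (Ψ x).support.image Prod.snd) _ (by
    intro t ht
    obtain ⟨v, _, hne⟩ := exists_ne_zero_of_sum_ne_zero ht
    exact mem_coe.2 (mem_image.2 ⟨({v}, t), Finsupp.mem_support_iff.2 hne, rfl⟩)), ← h3, h2,
    ← sum_fiberwise_of_maps_to (s := (Ψ x).support)
      (t := (Ψ x).support.image Prod.snd) (g := Prod.snd)
      (fun c hc => mem_image_of_mem _ hc)]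
  refine sum_congr rfl fun t _ => ?_
  unfold al
  symm
  rw [← sum_subset (s₁ := (t.filter fun v => Ψ x ({v}, t) ≠ 0)) (filter_subset _ _)
    (fun v hv hv' => by
      by_contra h
      exact hv' (mem_filter.2 ⟨hv, h⟩))]
  refine sum_bij' (fun c hc => (h1 c (mem_filter.1 hc).1).2.choose) (fun v _ => ({v}, t))
    ?_ ?_ ?_ ?_ ?_
  · intro c hc
    have h4 := (h1 c (mem_filter.1 hc).1).2.choose_spec
    have h5 := (mem_filter.1 hc).2
    have h6 : c = ({(h1 c (mem_filter.1 hc).1).2.choose}, t) := Prod.ext h4.2 h5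
    refine mem_filter.2 ⟨h5 ▸ h4.1, ?_⟩
    rw [← h6]
    exact Finsupp.mem_support_iff.1 (mem_filter.1 hc).1
  · intro v hv
    rw [mem_filter] at hv
    exact mem_filter.2 ⟨Finsupp.mem_support_iff.2 hv.2, rfl⟩
  · intro c hc
    have h4 := (h1 c (mem_filter.1 hc).1).2.choose_spec
    exact (Prod.ext h4.2 (mem_filter.1 hc).2).symm
  · intro v hv
    rw [mem_filter] at hv
    have h4 := (h1 ({v}, t) (Finsupp.mem_support_iff.2 hv.2)).2.choose_spec
    exact (singleton_injective h4.2).symm
  · intro c hc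
    have h4 := (h1 c (mem_filter.1 hc).1).2.choose_spec
    congr 1
    exact Prod.ext h4.2 (mem_filter.1 hc).2

/-- the simplices which contain a simplex in the support of the cochain of a cell -/
theorem fin_up (hM : Psm K B n) (hΨ : IsPsi P sz bd K B n Ψ) (x : X) :
    {t | t ∈ K ∧ ∃ f ⊆ t, al Ψ x f ≠ 0}.Finite := by
  have h1 : {t | t ∈ K ∧ ∃ f ⊆ t, al Ψ x f ≠ 0} =
      ⋃ f ∈ {f | al Ψ x f ≠ 0}, {t | t ∈ K ∧ f ⊆ t} := by
    ext t
    simp only [Set.mem_ofPred_eq, Set.mem_iUnion, exists_prop]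
    constructor
    · rintro ⟨h2, f, h3, h4⟩
      exact ⟨f, h4, h2, h3⟩
    · rintro ⟨f, h4, h2, h3⟩
      exact ⟨h2, f, h3, h4⟩
  rw [h1]
  exact (al_fin x).biUnion fun f hf => hM.locfin f (al_supp hΨ hf).1

/-- the summation of a finite sum -/
theorem fin_cup (hM : Psm K B n) (hΨ : IsPsi P sz bd K B n Ψ) (x y : X) (j : ℕ) :
    (Function.support fun t => open Classical in
      if Top K B n t then cup ht j (al Ψ x) (al Ψ y) t else 0).Finite := by
  classical
  refine (fin_up hM hΨ x).subset fun t h => ?_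
  rw [Function.mem_support] at h
  by_cases h1 : Top K B n t
  · rw [if_pos h1] at h
    obtain ⟨f, hf, f', _, h2, _⟩ := cup_ne h
    exact ⟨h1.1, f, hf, h2⟩
  · exact absurd (if_neg h1) h

/-- the relation for the sums of cup products -/
theorem rel_aux (hM : Psm K B n) (hinj : ∀ s ∈ K, Set.InjOn ht (s : Set U))
    (hΨ : IsPsi P sz bd K B n Ψ) (a b : X) :
    ∑ x' ∈ (bd a).support, cI K B n ht (n + 1 - (sz a + sz b) + 1) (al Ψ x') (al Ψ b) +
      ∑ y' ∈ (bd b).support, cI K B n ht (n + 1 - (sz a + sz b) + 1) (al Ψ a) (al Ψ y') +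
      (cI K B n ht (n + 1 - (sz a + sz b)) (al Ψ a) (al Ψ b) +
        cI K B n ht (n + 1 - (sz a + sz b)) (al Ψ b) (al Ψ a)) = 0 := by
  classical
  obtain ⟨m, hm⟩ : ∃ m, n + 1 - (sz a + sz b) = m := ⟨_, rfl⟩
  rw [hm]
  set x := al Ψ a with hx
  set y := al Ψ b with hy
  -- the cochain `ω`
  let ω : Finset U → ZMod 2 := fun r => if r ∈ K ∧ r.card = n then cup ht (m + 1) x y r else 0
  have hω1 : ∀ r, ω r ≠ 0 → r ∈ K ∧ r.card = n ∧ cup ht (m + 1) x y r ≠ 0 := by
    intro r hr
    by_cases h : r ∈ K ∧ r.card = n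
    · refine ⟨h.1, h.2, ?_⟩
      rwa [show ω r = cup ht (m + 1) x y r from if_pos h] at hr
    · exact absurd (if_neg h) hr
  have hω : ∀ r, ω r ≠ 0 → r ∈ K ∧ r ∉ B ∧ r.card = n := by
    intro r hr
    obtain ⟨h1, h2, h3⟩ := hω1 r hr
    refine ⟨h1, fun h4 => ?_, h2⟩
    obtain ⟨f, hf, f', hf', h5, h6⟩ := cup_ne h3
    have h7 := al_supp hΨ h5
    exact h7.2.1 (hM.bd_down r h4 f hf (hM.ne f h7.1))
  have hfin : {r | ω r ≠ 0}.Finite := by
    refine (fin_up hM hΨ a).subset fun r hr => ?_
    obtain ⟨h1, h2, h3⟩ := hω1 r hr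
    obtain ⟨f, hf, f', hf', h5, h6⟩ := cup_ne h3
    exact ⟨h1, f, hf, h5⟩
  have h1 := stokesP hM ω hfin hω
  -- the value on a top simplex
  have h2 : ∀ t, Top K B n t → cob ω t =
      ∑ x' ∈ (bd a).support, cup ht (m + 1) (al Ψ x') y t +
      ∑ y' ∈ (bd b).support, cup ht (m + 1) x (al Ψ y') t +
      (cup ht m x y t + cup ht m y x t) := by
    intro t htT
    have h3 : cob ω t = cob (cup ht (m + 1) x y) t := by
      unfold cob
      refine sum_congr rfl fun v hv => ?_
      by_cases h4 : (t.erase v).Nonempty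
      · have h5 : t.erase v ∈ K := hM.down t htT.1 _ (erase_subset v t) h4
        have h6 : (t.erase v).card = n := by
          rw [card_erase_of_mem hv, htT.2.2]
          rfl
        exact if_pos ⟨h5, h6⟩
      · rw [not_nonempty_iff_eq_empty] at h4
        rw [h4]
        have h5 : ω ∅ = 0 := by
          refine if_neg fun h => ?_
          exact absurd (hM.ne ∅ h.1) Finset.not_nonempty_empty
        rw [h5]
        symm
        refine cup_zero_l fun f hf => ?_
        rw [subset_empty.1 hf]
        exact al_empty _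
    have hK' : ∀ f ⊆ t, f ∈ K ∨ f = ∅ := by
      intro f hf
      rcases f.eq_empty_or_nonempty with h | h
      · exact Or.inr h
      · exact Or.inl (hM.down t htT.1 f hf h)
    rw [h3, cob_cup ht m x y t (hinj t htT.1)]
    congr 1
    congr 1
    · rw [cup_congr (ht := ht) (fun f hf => cob_al hM hΨ (hK' f hf)) (fun f _ => rfl),
        cup_sum_l]
    · rw [cup_congr (ht := ht) (fun f _ => rfl) (fun f hf => cob_al hM hΨ (hK' f hf)),
        cup_sum_r]
  -- the sum over the top simplices
  have h3 : ∀ t, (if Top K B n t then cob ω t else 0) =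
      ∑ x' ∈ (bd a).support, (if Top K B n t then cup ht (m + 1) (al Ψ x') y t else 0) +
      ∑ y' ∈ (bd b).support, (if Top K B n t then cup ht (m + 1) x (al Ψ y') t else 0) +
      ((if Top K B n t then cup ht m x y t else 0) +
        (if Top K B n t then cup ht m y x t else 0)) := by
    intro t
    by_cases h : Top K B n t
    · simp only [if_pos h]
      exact h2 t h
    · simp only [if_neg h, add_zero, sum_const_zero]
  rw [finsum_congr h3] at h1
  have f1 : ∀ x' : X, (Function.support fun t =>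
      if Top K B n t then cup ht (m + 1) (al Ψ x') y t else 0).Finite := fun x' =>
    fin_cup (ht := ht) hM hΨ x' b (m + 1)
  have f3 : ∀ y' : X, (Function.support fun t =>
      if Top K B n t then cup ht (m + 1) x (al Ψ y') t else 0).Finite := fun y' =>
    fin_cup (ht := ht) hM hΨ a y' (m + 1)
  have f5 : (Function.support fun t => if Top K B n t then cup ht m x y t else 0).Finite :=
    fin_cup (ht := ht) hM hΨ a b m
  have f6 : (Function.support fun t => if Top K B n t then cup ht m y x t else 0).Finite :=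
    fin_cup (ht := ht) hM hΨ b a m
  have g3 : (Function.support fun t => ∑ x' ∈ (bd a).support,
      (if Top K B n t then cup ht (m + 1) (al Ψ x') y t else 0)).Finite := by
    refine Set.Finite.subset (Set.Finite.biUnion (bd a).support.finite_toSet
      fun w _ => f1 w) fun t h => ?_
    obtain ⟨w, hw, hne⟩ := exists_ne_zero_of_sum_ne_zero h
    exact Set.mem_biUnion hw hne
  have g4 : (Function.support fun t => ∑ y' ∈ (bd b).support,
      (if Top K B n t then cup ht (m + 1) x (al Ψ y') t else 0)).Finite := by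
    refine Set.Finite.subset (Set.Finite.biUnion (bd b).support.finite_toSet
      fun w _ => f3 w) fun t h => ?_
    obtain ⟨w, hw, hne⟩ := exists_ne_zero_of_sum_ne_zero h
    exact Set.mem_biUnion hw hne
  have g5 : (Function.support fun t => ∑ x' ∈ (bd a).support,
      (if Top K B n t then cup ht (m + 1) (al Ψ x') y t else 0) +
      ∑ y' ∈ (bd b).support,
        (if Top K B n t then cup ht (m + 1) x (al Ψ y') t else 0)).Finite :=
    (g3.union g4).subset (Function.support_add _ _)
  have g6 : (Function.support fun t => (if Top K B n t then cup ht m x y t else 0) +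
        (if Top K B n t then cup ht m y x t else 0)).Finite :=
    (f5.union f6).subset (Function.support_add _ _)
  rw [finsum_add_distrib g5 g6, finsum_add_distrib g3 g4, finsum_add_distrib f5 f6,
    finsum_sum_comm _ _ fun w _ => f1 w, finsum_sum_comm _ _ fun w _ => f3 w] at h1
  rw [← h1]
  rfl

/-- the relation -/
theorem HH_rel (hM : Psm K B n) (hinj : ∀ s ∈ K, Set.InjOn ht (s : Set U))
    (hX : Cells P sz bd) (hΨ : IsPsi P sz bd K B n Ψ) (x y : X) :
    lin (fun x' => HH K B n ht sz Ψ x' y) (bd x) + lin (fun y' => HH K B n ht sz Ψ x y') (bd y) =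
      HH K B n ht sz Ψ x y + HH K B n ht sz Ψ y x := by
  have key : ∀ a b : ZMod 2, a + b = 0 → a = b := by decide
  have hs : ∀ z, ∀ z' ∈ (bd z).support, sz z' + 1 = sz z := fun z z' hz' =>
    hX.bd_sz z z' (Finsupp.mem_support_iff.1 hz')
  rw [lin_supp, lin_supp]
  by_cases hc : sz x + sz y ≤ n + 1
  · have h1 := rel_aux (ht := ht) hM hinj hΨ x y
    apply key
    rw [← h1]
    congr 1
    · congr 1
      · refine sum_congr rfl fun w hw => ?_
        have h2 := hs x w hw
        have h3 : n + 1 - (sz w + sz y) = n + 1 - (sz x + sz y) + 1 := by omega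
        unfold HH
        rw [if_pos (by omega), h3]
      · refine sum_congr rfl fun w hw => ?_
        have h2 := hs y w hw
        have h3 : n + 1 - (sz x + sz w) = n + 1 - (sz x + sz y) + 1 := by omega
        unfold HH
        rw [if_pos (by omega), h3]
    · have h4 : sz y + sz x = sz x + sz y := add_comm _ _
      unfold HH
      rw [h4]
      by_cases h2 : sz x + sz y ≤ n
      · rw [if_pos h2, if_pos h2]
      · have h3 : n + 1 - (sz x + sz y) = 0 := by omega
        rw [if_neg h2, if_neg h2, h3, cI_zero, cI_zero]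
  · unfold HH
    rw [sum_eq_zero, sum_eq_zero, if_neg (by omega), if_neg (by omega)]
    · intro w hw
      have h2 := hs y w hw
      rw [if_neg (by omega)]
    · intro w hw
      have h2 := hs x w hw
      rw [if_neg (by omega)]

/-- the self-intersection of a vertex -/
theorem HH_one (hM : Psm K B n) (hX : Cells P sz bd) (hΨ : IsPsi P sz bd K B n Ψ) {x : X}
    (hx : sz x = 0) : HH K B n ht sz Ψ x x = 1 := by
  classical
  unfold HH cI
  rw [hx, add_zero, if_pos (Nat.zero_le n), Nat.sub_zero, ← sum_al hM hX hΨ hx]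
  refine finsum_congr fun t => ?_
  by_cases h : Top K B n t
  · rw [if_pos h]
    unfold cup
    rw [← h.2.2, powersetCard_self, sum_singleton]
    have h1 : face1 ht t t = t := filter_true_of_mem fun v hv => Or.inl hv
    have h2 : face2 ht t t = t := filter_true_of_mem fun v hv => Or.inl hv
    rw [h1, h2]
    have h3 : ∀ a : ZMod 2, a * a = a := by decide
    exact h3 _
  · rw [if_neg h]
    symm
    by_contra hne
    obtain ⟨h1, h2, h3⟩ := al_supp hΨ hne
    rw [hx, add_zero] at h3
    exact h ⟨h1, h2, h3⟩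

/-- only finitely many relative positions of two cells have nonzero intersection numbers -/
theorem HH_fin (hM : Psm K B n) (hΨ : IsPsi P sz bd K B n Ψ) (hA : PAct P K B) (x y : X) :
    {p : P | ∃ q : P, HH K B n ht sz Ψ (q • x) ((q * p) • y) ≠ 0}.Finite := by
  classical
  -- the vertices of the simplices in the support of the cochain of a cell
  have h1 : ∀ z : X, {u | ∃ f, al Ψ z f ≠ 0 ∧ u ∈ f}.Finite := by
    intro z
    have h2 : {u | ∃ f, al Ψ z f ≠ 0 ∧ u ∈ f} ⊆
        ⋃ f ∈ {f | al Ψ z f ≠ 0}, ((f : Finset U) : Set U) := by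
      rintro u ⟨f, hf, hu⟩
      exact Set.mem_biUnion hf hu
    exact Set.Finite.subset ((al_fin z).biUnion fun f _ => f.finite_toSet) h2
  have h5 : ∀ z : X, ∀ u ∈ {u | ∃ f, al Ψ z f ≠ 0 ∧ u ∈ f}, ({u} : Finset U) ∈ K := by
    rintro z u ⟨f, hf, hu⟩
    exact hM.down f (al_supp hΨ hf).1 _ (singleton_subset_iff.2 hu) (singleton_nonempty u)
  have h3 : {h : P | ∃ u u' : U, (∃ f, al Ψ x f ≠ 0 ∧ u ∈ f) ∧ (∃ f, al Ψ y f ≠ 0 ∧ u' ∈ f) ∧
      ∃ t ∈ K, u ∈ t ∧ h • u' ∈ t}.Finite := by
    have h4 : ∀ u ∈ {u | ∃ f, al Ψ x f ≠ 0 ∧ u ∈ f}, {w | ∃ t ∈ K, u ∈ t ∧ w ∈ t}.Finite := by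
      intro u hu
      have h6 := h5 x u hu
      have h7 : {w | ∃ t ∈ K, u ∈ t ∧ w ∈ t} ⊆
          ⋃ t ∈ {t | t ∈ K ∧ {u} ⊆ t}, ((t : Finset U) : Set U) := by
        rintro w ⟨t, ht1, ht2, ht3⟩
        exact Set.mem_biUnion (show t ∈ {t | t ∈ K ∧ {u} ⊆ t} from
          ⟨ht1, singleton_subset_iff.2 ht2⟩) ht3
      exact ((hM.locfin _ h6).biUnion fun t _ => t.finite_toSet).subset h7
    refine Set.Finite.subset ((h1 x).biUnion fun u hu => (h1 y).biUnion fun u' hu' =>
      (h4 u hu).biUnion fun w _ => hA.proper u' w (h5 y u' hu')) ?_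
    rintro h ⟨u, u', hu, hu', t, ht1, ht2, ht3⟩
    exact Set.mem_biUnion hu (Set.mem_biUnion hu' (Set.mem_biUnion
      (show h • u' ∈ {w | ∃ t ∈ K, u ∈ t ∧ w ∈ t} from ⟨t, ht1, ht2, ht3⟩) rfl))
  refine h3.subset ?_
  rintro p ⟨q, hne⟩
  unfold HH at hne
  split_ifs at hne with hc
  · -- a top simplex with a nonzero cup product
    have h5 : ∃ t, (if Top K B n t then cup ht (n + 1 - (sz (q • x) + sz ((q * p) • y)))
        (al Ψ (q • x)) (al Ψ ((q * p) • y)) t else 0) ≠ 0 := by
      by_contra hcon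
      push Not at hcon
      apply hne
      unfold cI
      rw [finsum_congr hcon, finsum_zero]
    obtain ⟨t, htne⟩ := h5
    by_cases hT : Top K B n t
    · rw [if_pos hT] at htne
      obtain ⟨f, hf, f', hf', h6, h7⟩ := cup_ne htne
      have e1 : al Ψ (q • x) f = al Ψ x (q⁻¹ • f) := by
        have := al_smul hΨ q x (q⁻¹ • f)
        rwa [smul_inv_smul] at this
      have e2 : al Ψ ((q * p) • y) f' = al Ψ y ((q * p)⁻¹ • f') := by
        have := al_smul hΨ (q * p) y ((q * p)⁻¹ • f')
        rwa [smul_inv_smul] at this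
      obtain ⟨u, hu⟩ := hM.ne f (al_supp hΨ h6).1
      obtain ⟨u', hu'⟩ := hM.ne f' (al_supp hΨ h7).1
      rw [e1] at h6
      rw [e2] at h7
      refine ⟨q⁻¹ • u, (q * p)⁻¹ • u', ⟨_, h6, smul_mem_smul_finset hu⟩,
        ⟨_, h7, smul_mem_smul_finset hu'⟩, q⁻¹ • t, hA.K_mem q⁻¹ t hT.1,
        smul_mem_smul_finset (hf hu), ?_⟩
      rw [← mul_smul, mul_inv_rev, mul_inv_cancel_left]
      exact smul_mem_smul_finset (hf' hu')
    · exact absurd (if_neg hT) htne
  · exact absurd rfl hne

/-- **Intersection numbers of abstract cells.** -/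
theorem inter_of_psi (hX : Cells P sz bd) (hM : Psm K B n) (hA : PAct P K B)
    (hΨ : IsPsi P sz bd K B n Ψ) : ∃ H : X → X → ZMod 2, InterX P sz bd n H := by
  obtain ⟨ht, hinj⟩ := exists_heightP hM
  exact ⟨HH K B n ht sz Ψ, HH_rel hM hinj hX hΨ,
    fun x y h => by
      unfold HH
      rw [if_neg (by omega)],
    fun x hx => HH_one hM hX hΨ hx, HH_fin hM hΨ hA⟩

end Pool.Agent.H45.DA

end

section

/-!
# Intersection numbers of lists of elements of a group

The cells are the nonempty lists of elements of `P` (degenerate lists are allowed), the faces of a list are the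
lists without one entry.
-/

set_option autoImplicit false

open Finset Pointwise

namespace Pool.Agent.H84.RX

open Pool.Agent.H37.TM Pool.Agent.H65.RM

/-- Intersection numbers of lists of elements of `P`. -/
structure InterL (P : Type) [Group P] (n : ℕ) (H : List P → List P → ZMod 2) : Prop where
  nil_left : ∀ τ, H [] τ = 0
  nil_right : ∀ σ, H σ [] = 0
  rel : ∀ σ τ, σ ≠ [] → τ ≠ [] →
    ∑ i ∈ Finset.range σ.length, H (σ.eraseIdx i) τ +
      ∑ i ∈ Finset.range τ.length, H σ (τ.eraseIdx i) = H σ τ + H τ σ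
  top : ∀ σ τ, n + 2 < σ.length + τ.length → H σ τ = 0
  one : ∀ g, H [g] [g] = 1
  fin : ∀ F : Finset (List P), ∃ E : Finset P, ∀ σ ∈ F, ∀ τ ∈ F, ∀ p q : P,
    H (σ.map (p * ·)) (τ.map (q * ·)) ≠ 0 → p⁻¹ * q ∈ E

theorem erase_erase {P : Type} : ∀ (l : List P) (i j : ℕ), i ≤ j →
    (l.eraseIdx i).eraseIdx j = (l.eraseIdx (j + 1)).eraseIdx i
  | [], i, j, _ => by simp
  | a :: l, 0, j, _ => by simp
  | a :: l, i + 1, 0, h => absurd h (by omega)
  | a :: l, i + 1, j + 1, h => by
    simp only [List.eraseIdx_cons_succ]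
    rw [erase_erase l i j (by omega)]

/-- the nonempty lists -/
abbrev NL (P : Type) : Type := {l : List P // l ≠ []}

/-- the basis element of a list, zero for the empty list -/
noncomputable def sub {P : Type} (m : List P) : NL P →₀ ZMod 2 :=
  open Classical in if h : m ≠ [] then Finsupp.single ⟨m, h⟩ 1 else 0

/-- the extension by zero -/
noncomputable def ext {P : Type} (H : NL P → NL P → ZMod 2) (σ τ : List P) : ZMod 2 :=
  open Classical in if h : σ ≠ [] ∧ τ ≠ [] then H ⟨σ, h.1⟩ ⟨τ, h.2⟩ else 0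

theorem sub_ne {P : Type} {m : List P} (h : m ≠ []) : sub m = Finsupp.single ⟨m, h⟩ 1 := by
  unfold sub
  rw [dif_pos h]

theorem sub_nil {P : Type} : sub ([] : List P) = 0 := by
  unfold sub
  rw [dif_neg (fun h => h rfl)]

theorem ext_ne {P : Type} (H : NL P → NL P → ZMod 2) {σ τ : List P} (h1 : σ ≠ []) (h2 : τ ≠ []) :
    ext H σ τ = H ⟨σ, h1⟩ ⟨τ, h2⟩ := by
  unfold ext
  rw [dif_pos ⟨h1, h2⟩]

theorem ext_nil_left {P : Type} (H : NL P → NL P → ZMod 2) (τ : List P) : ext H [] τ = 0 := by
  unfold ext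
  rw [dif_neg (fun h => h.1 rfl)]

theorem ext_nil_right {P : Type} (H : NL P → NL P → ZMod 2) (σ : List P) : ext H σ [] = 0 := by
  unfold ext
  rw [dif_neg (fun h => h.2 rfl)]

/-- the boundary of a list -/
noncomputable def bdl {P : Type} (x : NL P) : NL P →₀ ZMod 2 :=
  ∑ i ∈ Finset.range x.1.length, sub (x.1.eraseIdx i)

/-- the action on the lists -/
@[instance_reducible] def actL (P : Type) [Group P] : MulAction P (NL P) where
  smul p x := ⟨x.1.map (p * ·), fun h => x.2 (List.map_eq_nil_iff.1 h)⟩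
  one_smul x := by
    apply Subtype.ext
    change x.1.map (1 * ·) = x.1
    simp
  mul_smul p q x := by
    apply Subtype.ext
    change x.1.map ((p * q) * ·) = (x.1.map (q * ·)).map (p * ·)
    rw [List.map_map]
    refine List.map_congr_left fun a _ => ?_
    exact mul_assoc p q a

theorem lin_sub {P N : Type} [AddCommGroup N] [Module (ZMod 2) N] (f : NL P → N) {m : List P}
    (h : m ≠ []) : lin f (sub m) = f ⟨m, h⟩ := by
  rw [sub_ne h, lin_single]

/-- **Intersection numbers of lists.** -/
theorem exists_inter_list {P U : Type} [Group P] [DecidableEq U] [MulAction P U]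
    {K B : Set (Finset U)} {n : ℕ} (hM : Mfd K B n) (hK : Acyc K) (hA : PAct P K B) :
    ∃ H : List P → List P → ZMod 2, InterL P n H := by
  classical
  let _ := actL P
  have hsm : ∀ (p : P) (x : NL P), (p • x).1 = x.1.map (p * ·) := fun p x => rfl
  have hlen : ∀ x : NL P, 0 < x.1.length := fun x => List.length_pos_iff.2 x.2
  have hsub : ∀ (p : P) (m : List P), sub (m.map (p * ·)) = (sub m).mapDomain (p • ·) := by
    intro p m
    by_cases h : m = []
    · subst h
      rw [List.map_nil, sub_nil, Finsupp.mapDomain_zero]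
    · have h' : m.map (p * ·) ≠ [] := fun h' => h (List.map_eq_nil_iff.1 h')
      rw [sub_ne h, sub_ne h', Finsupp.mapDomain_single]
      rfl
  have hbd : ∀ m : List P, lin bdl (sub m) = ∑ j ∈ Finset.range m.length, sub (m.eraseIdx j) := by
    intro m
    by_cases h : m = []
    · subst h
      rw [sub_nil, map_zero, List.length_nil, Finset.range_zero, Finset.sum_empty]
    · rw [lin_sub bdl h]
      rfl
  have hX : Cells P (X := NL P) (fun x => x.1.length - 1) bdl := by
    refine ⟨?_, ?_, ?_, ?_, ?_, ?_⟩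
    · rintro p ⟨l, hl⟩ h
      have h1 : l.map (p * ·) = l := congrArg Subtype.val h
      cases l with
      | nil => exact absurd rfl hl
      | cons a l =>
        rw [List.map_cons] at h1
        exact mul_eq_right.1 (List.cons.inj h1).1
    · intro p x
      change (x.1.map (p * ·)).length - 1 = x.1.length - 1
      rw [List.length_map]
    · intro x y h
      unfold bdl at h
      rw [Finsupp.finsetSum_apply] at h
      obtain ⟨i, hi, hne⟩ := exists_ne_zero_of_sum_ne_zero h
      rw [Finset.mem_range] at hi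
      have h1 : x.1.eraseIdx i = y.1 := by
        by_cases h2 : x.1.eraseIdx i = []
        · rw [h2, sub_nil] at hne
          exact absurd rfl hne
        · rw [sub_ne h2, Finsupp.single_apply] at hne
          by_contra h3
          apply hne
          rw [if_neg]
          intro h4
          exact h3 (congrArg Subtype.val h4)
      have h2 := hlen y
      have h3 : (x.1.eraseIdx i).length = x.1.length - 1 := List.length_eraseIdx_of_lt hi
      rw [h1] at h3
      change y.1.length - 1 + 1 = x.1.length - 1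
      omega
    · intro p x
      unfold bdl
      rw [Finsupp.mapDomain_finsetSum, hsm, List.length_map]
      refine Finset.sum_congr rfl fun i _ => ?_
      rw [List.eraseIdx_map, hsub]
    · intro x
      have h1 : lin bdl (bdl x) = ∑ i ∈ Finset.range x.1.length,
          ∑ j ∈ Finset.range (x.1.length - 1), sub ((x.1.eraseIdx i).eraseIdx j) := by
        conv_lhs => rw [show bdl x = ∑ i ∈ Finset.range x.1.length, sub (x.1.eraseIdx i) from rfl]
        rw [map_sum]
        refine Finset.sum_congr rfl fun i hi => ?_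
        rw [hbd, List.length_eraseIdx_of_lt (Finset.mem_range.1 hi)]
      rw [h1, Finset.sum_sigma']
      refine Finset.sum_involution
        (fun p _ => if p.1 ≤ p.2 then ⟨p.2 + 1, p.1⟩ else ⟨p.2, p.1 - 1⟩) ?_ ?_ ?_ ?_
      · rintro ⟨i, j⟩ h
        by_cases hij : i ≤ j
        · simp only [if_pos hij]
          rw [erase_erase _ _ _ hij]
          exact add_self_mod _
        · simp only [if_neg hij]
          have h2 := erase_erase x.1 j (i - 1) (by omega)
          rw [Nat.sub_add_cancel (by omega : 1 ≤ i)] at h2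
          rw [h2]
          exact add_self_mod _
      · rintro ⟨i, j⟩ h _ he
        by_cases hij : i ≤ j
        · simp only [if_pos hij] at he
          have h2 : j + 1 = i := congrArg Sigma.fst he
          omega
        · simp only [if_neg hij] at he
          have h2 : j = i := congrArg Sigma.fst he
          omega
      · rintro ⟨i, j⟩ h
        rw [Finset.mem_sigma, Finset.mem_range, Finset.mem_range] at h
        have h1 : i < x.1.length := h.1
        have h2 : j < x.1.length - 1 := h.2
        by_cases hij : i ≤ j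
        · simp only [if_pos hij]
          rw [Finset.mem_sigma, Finset.mem_range, Finset.mem_range]
          exact ⟨(by omega : j + 1 < x.1.length), (by omega : i < x.1.length - 1)⟩
        · simp only [if_neg hij]
          rw [Finset.mem_sigma, Finset.mem_range, Finset.mem_range]
          exact ⟨(by omega : j < x.1.length), (by omega : i - 1 < x.1.length - 1)⟩
      · rintro ⟨i, j⟩ h
        by_cases hij : i ≤ j
        · simp only [if_pos hij]
          rw [if_neg (by omega : ¬ j + 1 ≤ i)]
          rfl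
        · simp only [if_neg hij]
          rw [if_pos (by omega : j ≤ i - 1), Nat.sub_add_cancel (by omega : 1 ≤ i)]
    · intro x hx
      have h1 : x.1.length = 2 := by
        have h2 := hlen x
        have h3 : x.1.length - 1 = 1 := hx
        omega
      unfold bdl
      rw [map_sum, h1, Finset.sum_range_succ, Finset.sum_range_one, lin_sub, lin_sub]
      · exact add_self_mod _
      · intro h
        have := congrArg List.length h
        rw [List.length_eraseIdx_of_lt (by omega), h1] at this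
        exact absurd this.symm (Nat.zero_ne_one)
      · intro h
        have := congrArg List.length h
        rw [List.length_eraseIdx_of_lt (by omega), h1] at this
        exact absurd this.symm (Nat.zero_ne_one)
  obtain ⟨H, hH⟩ := exists_inter_cells hX hM hK hA
  refine ⟨ext H, ext_nil_left H, ext_nil_right H, ?_, ?_, ?_, ?_⟩
  · intro σ τ h1 h2
    have h3 := hH.rel ⟨σ, h1⟩ ⟨τ, h2⟩
    rw [ext_ne H h1 h2, ext_ne H h2 h1, ← h3]
    congr 1
    · change _ = lin _ (∑ i ∈ Finset.range σ.length, sub (σ.eraseIdx i))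
      rw [map_sum]
      refine Finset.sum_congr rfl fun i _ => ?_
      by_cases h : σ.eraseIdx i = []
      · rw [h, sub_nil, map_zero, ext_nil_left]
      · rw [lin_sub _ h, ext_ne H h h2]
    · change _ = lin _ (∑ i ∈ Finset.range τ.length, sub (τ.eraseIdx i))
      rw [map_sum]
      refine Finset.sum_congr rfl fun i _ => ?_
      by_cases h : τ.eraseIdx i = []
      · rw [h, sub_nil, map_zero, ext_nil_right]
      · rw [lin_sub _ h, ext_ne H h1 h]
  · intro σ τ h
    by_cases h1 : σ = []
    · rw [h1, ext_nil_left]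
    by_cases h2 : τ = []
    · rw [h2, ext_nil_right]
    rw [ext_ne H h1 h2]
    apply hH.top
    have h3 := hlen ⟨σ, h1⟩
    have h4 := hlen ⟨τ, h2⟩
    change n < (σ.length - 1) + (τ.length - 1)
    change 0 < σ.length at h3
    change 0 < τ.length at h4
    omega
  · intro g
    rw [ext_ne H (List.cons_ne_nil g []) (List.cons_ne_nil g [])]
    exact hH.one _ rfl
  · intro F
    refine ⟨(F.attach ×ˢ F.attach).biUnion fun z =>
      if h : z.1.1 ≠ [] ∧ z.2.1 ≠ [] then
        (hH.fin ⟨z.1.1, h.1⟩ ⟨z.2.1, h.2⟩).toFinset else ∅, ?_⟩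
    intro σ hσ τ hτ p q hne
    by_cases h1 : σ = []
    · rw [h1, List.map_nil, ext_nil_left] at hne
      exact absurd rfl hne
    by_cases h2 : τ = []
    · rw [h2, List.map_nil, ext_nil_right] at hne
      exact absurd rfl hne
    rw [Finset.mem_biUnion]
    refine ⟨(⟨σ, hσ⟩, ⟨τ, hτ⟩), ?_, ?_⟩
    · exact Finset.mem_product.2 ⟨Finset.mem_attach _ _, Finset.mem_attach _ _⟩
    · rw [dif_pos (show (⟨σ, hσ⟩ : {x // x ∈ F}).1 ≠ [] ∧ (⟨τ, hτ⟩ : {x // x ∈ F}).1 ≠ [] from
        ⟨h1, h2⟩), Set.Finite.mem_toFinset]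
      refine ⟨p, ?_⟩
      have h3 : σ.map (p * ·) ≠ [] := fun h => h1 (List.map_eq_nil_iff.1 h)
      have h4 : τ.map (q * ·) ≠ [] := fun h => h2 (List.map_eq_nil_iff.1 h)
      rw [ext_ne H h3 h4] at hne
      rw [mul_inv_cancel_left]
      exact hne

end Pool.Agent.H84.RX

end

section

/-!
# Project S10D: chain maps from arbitrary free complexes to the complex of pairs of the cycle of a duality pair
-/

set_option autoImplicit false
set_option linter.unusedSectionVars false

open Finset Pointwise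

namespace Pool.Agent.S10

open Pool.Agent.H37.TM

/-- `Psi` is an equivariant chain map from the complex with the cells `cell i`, the boundary `bd` and the
augmentation `ep` to the complex of pairs -/
structure PsiG (Γ : Type) [Group Γ] {A U : Type} [MulAction Γ A] [DecidableEq U] [MulAction Γ U] (cell : ℕ → Set A)
    (bd : A → (A →₀ ZMod 2)) (ep : A → ZMod 2) (K B : Set (Finset U)) (n : ℕ)
    (Ψ : A → (Finset U × Finset U →₀ ZMod 2)) : Prop where
  mem : ∀ i, ∀ a ∈ cell i, Ψ a ∈ TN K B n (i + 1)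
  smul : ∀ (g : Γ) i, ∀ a ∈ cell i, Ψ (g • a) = (Ψ a).mapDomain (g • ·)
  bd : ∀ i, ∀ a ∈ cell i, bdT K n (Ψ a) = Finsupp.single (∅, ∅) (ep a) + lin Ψ (bd a)

/-- the action on the target complex -/
noncomputable def rhoG (Γ U : Type) [DecidableEq U] [Group Γ] [MulAction Γ U] :
    Γ →* (((Finset U × Finset U →₀ ZMod 2) × (Finset U →₀ ZMod 2)) →ₗ[ZMod 2]
      ((Finset U × Finset U →₀ ZMod 2) × (Finset U →₀ ZMod 2))) where
  toFun g := (Finsupp.lmapDomain (ZMod 2) (ZMod 2) (g • ·)).prodMap
    (Finsupp.lmapDomain (ZMod 2) (ZMod 2) (g • ·))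
  map_one' := by
    have h1 : (fun x : Finset U × Finset U => (1 : Γ) • x) = id := funext fun x => one_smul Γ x
    have h2 : (fun x : Finset U => (1 : Γ) • x) = id := funext fun x => one_smul Γ x
    rw [h1, h2, Finsupp.lmapDomain_id, Finsupp.lmapDomain_id]
    rfl
  map_mul' g h := by
    have h1 : (fun x : Finset U × Finset U => (g * h) • x) = (fun x => g • x) ∘ fun x => h • x :=
      funext fun x => mul_smul g h x
    have h2 : (fun x : Finset U => (g * h) • x) = (fun x => g • x) ∘ fun x => h • x :=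
      funext fun x => mul_smul g h x
    rw [h1, h2, Finsupp.lmapDomain_comp, Finsupp.lmapDomain_comp]
    rfl

section

variable {U Γ : Type} [DecidableEq U] [Group Γ] [MulAction Γ U] {K B mu : Set (Finset U)} {n d : ℕ}

theorem rhoG_fst (g : Γ) (x : (Finset U × Finset U →₀ ZMod 2) × (Finset U →₀ ZMod 2)) :
    (rhoG Γ U g x).1 = x.1.mapDomain (g • ·) := rfl

theorem rhoG_snd (g : Γ) (x : (Finset U × Finset U →₀ ZMod 2) × (Finset U →₀ ZMod 2)) :
    (rhoG Γ U g x).2 = x.2.mapDomain (g • ·) := rfl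

theorem map_apply_inv {A : Type} [MulAction Γ A] (g : Γ) (x : A →₀ ZMod 2) (a : A) :
    x.mapDomain (g • ·) a = x (g⁻¹ • a) := by
  have h := Finsupp.mapDomain_apply (MulAction.injective g) x (g⁻¹ • a)
  rwa [smul_inv_smul] at h

theorem al_map_inv (g : Γ) (y : Finset U × Finset U →₀ ZMod 2) (t : Finset U) :
    al (y.mapDomain (g • ·)) t = al y (g⁻¹ • t) := by
  unfold al
  have h1 : ∑ v ∈ g⁻¹ • t, y ({v}, g⁻¹ • t) = ∑ v ∈ t, y ({g⁻¹ • v}, g⁻¹ • t) := by
    have hsm : g⁻¹ • t = t.map ⟨fun u => g⁻¹ • u, MulAction.injective g⁻¹⟩ := by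
      rw [Finset.map_eq_image]
      rfl
    conv_lhs => rw [hsm]
    rw [Finset.sum_map, ← hsm]
    rfl
  rw [h1]
  refine sum_congr rfl fun v _ => ?_
  rw [map_apply_inv]
  show y (g⁻¹ • ({v} : Finset U), g⁻¹ • t) = _
  rw [Finset.smul_finset_singleton]

/-- the proper actions on the generated complex -/
theorem gen_pact (hD : Dual K B mu n d) (hA : Pool.Agent.H65.RM.PAct Γ K B)
    (hmu : ∀ (g : Γ) (s : Finset U), s ∈ mu → g • s ∈ mu) :
    Pool.Agent.H65.RM.PAct Γ (gen mu) (B ∩ gen mu) := by
  have h1 : ∀ (g : Γ) (s : Finset U), s ∈ gen mu → g • s ∈ gen mu := by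
    rintro g s ⟨h1, t, ht, hst⟩
    exact ⟨h1.smul_finset, g • t, hmu g t ht, smul_finset_subset_smul_finset hst⟩
  exact
    { K_mem := h1
      B_mem := fun g s hs => ⟨hA.B_mem g s hs.1, h1 g s hs.2⟩
      proper := fun u w hu => hA.proper u w (gen_sub hD hu) }

theorem coF_smulP (hA : Pool.Agent.H65.RM.PAct Γ K B) (g : Γ) (f : Finset U →₀ ZMod 2) :
    coF K (f.mapDomain (g • ·)) = (coF K f).mapDomain (g • ·) := by
  unfold coF
  rw [Pool.Agent.H65.RM.lin_mapDomain, Pool.Agent.H65.RM.mapDomain_lin]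
  refine lin_congr fun τ _ => ?_
  rw [Finset.card_smul_finset, Pool.Agent.H65.RM.cofs_smul hA, Finset.sum_map,
    Finsupp.mapDomain_finsetSum]
  refine sum_congr rfl fun t _ => ?_
  rw [Finsupp.mapDomain_single]
  rfl

theorem mm_smulP (hD : Dual K B mu n d) (hA : Pool.Agent.H65.RM.PAct Γ K B)
    (hmu : ∀ (g : Γ) (s : Finset U), s ∈ mu → g • s ∈ mu) (i : ℕ) (g : Γ)
    (x : (Finset U × Finset U →₀ ZMod 2) × (Finset U →₀ ZMod 2)) (hx : x ∈ MM K B mu n i) :
    rhoG Γ U g x ∈ MM K B mu n i := by
  have hA' := gen_pact hD hA hmu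
  cases i with
  | zero =>
    obtain ⟨h1, h2⟩ := hx
    refine ⟨Pool.Agent.H65.RM.tn_smul hA' g 0 x.1 h1, ?_⟩
    have h3 : x.2 = 0 := h2
    show x.2.mapDomain (g • ·) = 0
    rw [h3, Finsupp.mapDomain_zero]
  | succ m =>
    obtain ⟨h1, h2, h3⟩ := hx
    refine ⟨Pool.Agent.H65.RM.tn_smul hA' g (m + 1) x.1 h1, ?_, fun t ht => ?_⟩
    · rw [rhoG_snd]
      refine (Finsupp.mem_supported _ _).2 fun t ht => ?_
      have h4 := Finsupp.mem_support_iff.1 ht
      rw [map_apply_inv] at h4
      obtain ⟨h5, h6, h7⟩ := (Finsupp.mem_supported _ _).1 h2 (Finsupp.mem_support_iff.2 h4)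
      refine ⟨(Pool.Agent.H65.RM.smul_mem_iff hA g⁻¹ t).1 h5,
        fun h => h6 ((Pool.Agent.H65.RM.smul_memB_iff hA g⁻¹ t).2 h), ?_⟩
      rw [Finset.card_smul_finset] at h7
      exact h7
    · rw [rhoG_fst, rhoG_snd, al_map_inv, map_apply_inv]
      exact h3 _ (hA'.K_mem g⁻¹ t ht)

/-- **The chain map to the complex of pairs of the cycle of a duality pair**, from an arbitrary free complex. -/
theorem exists_psiG {A : Type} [MulAction Γ A] (cell : ℕ → Set A)
    (hcell : ∀ i, ∀ g : Γ, ∀ a ∈ cell i, g • a ∈ cell i)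
    (hdisj : ∀ i j, ∀ a ∈ cell i, a ∈ cell j → i = j)
    (hfree : ∀ i, ∀ a ∈ cell i, ∀ g : Γ, g • a = a → g = 1)
    (bd : A → (A →₀ ZMod 2)) (hbd : ∀ i, ∀ a ∈ cell (i + 1), ∀ b, bd a b ≠ 0 → b ∈ cell i)
    (hbd0 : ∀ a ∈ cell 0, bd a = 0)
    (hbdg : ∀ i, ∀ g : Γ, ∀ a ∈ cell i, bd (g • a) = (bd a).mapDomain (g • ·))
    (hbd2 : ∀ i, ∀ a ∈ cell i, lin bd (bd a) = 0)
    (ep : A → ZMod 2) (hep1 : ∀ i, ∀ a ∈ cell (i + 1), ep a = 0)
    (hepg : ∀ i, ∀ g : Γ, ∀ a ∈ cell i, ep (g • a) = ep a) (hepb : ∀ i, ∀ a ∈ cell i, lin ep (bd a) = 0)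
    (hD : Dual K B mu n d) (hA : Pool.Agent.H65.RM.PAct Γ K B)
    (hmu : ∀ (g : Γ) (s : Finset U), s ∈ mu → g • s ∈ mu)
    (hdim : ∀ i, (∃ a, a ∈ cell i) → i ≤ d) :
    ∃ Ψ : A → (Finset U × Finset U →₀ ZMod 2), PsiG Γ cell bd ep (gen mu) (B ∩ gen mu) n Ψ := by
  classical
  have hA' := gen_pact hD hA hmu
  let L : ZMod 2 →ₗ[ZMod 2] ((Finset U × Finset U →₀ ZMod 2) × (Finset U →₀ ZMod 2)) :=
    (Finsupp.lsingle ((∅ : Finset U), (∅ : Finset U))).prod 0
  have hL1 : ∀ c, (L c).1 = Finsupp.single (∅, ∅) c := fun c => rfl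
  have hL2 : ∀ c, (L c).2 = 0 := fun c => rfl
  obtain ⟨H, h1, h2, h3⟩ := lift_free (Γ := Γ) (A := A)
    (N := (Finset U × Finset U →₀ ZMod 2) × (Finset U →₀ ZMod 2)) cell hcell hdisj hfree bd hbd hbd0 hbdg hbd2
    (rhoG Γ U) (DD K mu n)
    (fun g x => by
      refine Prod.ext ?_ ?_
      · exact Pool.Agent.H65.RM.bdT_smul hA' g x.1
      · exact coF_smulP hA g x.2)
    (MM K B mu n) (fun i g x hx => mm_smulP hD hA hmu i g x hx)
    (fun i hi x hx h0 => mm_exact hD i (hdim i hi) x hx h0)
    (fun a => L (ep a))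
    (fun i a ha => by
      cases i with
      | zero =>
        exact ⟨Finsupp.single_mem_supported (ZMod 2) (ep a)
          (show ((∅ : Finset U), (∅ : Finset U)) ∈ TCell (gen mu) (B ∩ gen mu) n 0 from rfl), rfl⟩
      | succ i =>
        rw [hep1 i a ha, map_zero]
        exact Submodule.zero_mem _)
    (fun i g a ha => by
      rw [hepg i g a ha]
      refine Prod.ext ?_ ?_
      · rw [rhoG_fst, hL1, Finsupp.mapDomain_single]
        congr 1
      · rw [rhoG_snd, hL2, Finsupp.mapDomain_zero])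
    (fun i a ha => by
      have h4 : lin (fun a => L (ep a)) (bd a) = L (lin ep (bd a)) := (map_lin L).symm
      rw [h4, hepb i a ha, map_zero]
      refine Prod.ext ?_ ?_
      · change lin (bdE (gen mu) n) (Finsupp.single ((∅ : Finset U), (∅ : Finset U)) (ep a)) = 0
        unfold lin
        rw [Finsupp.linearCombination_single]
        unfold bdE
        rw [if_pos rfl, smul_zero]
      · exact map_zero (coF K))
  refine ⟨fun a => (H a).1, ⟨fun i a ha => (h1 i a ha).1, fun g i a ha => ?_, fun i a ha => ?_⟩⟩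
  · show (H (g • a)).1 = (H a).1.mapDomain (g • ·)
    rw [h2 i g a ha, rhoG_fst]
  · have h4 := congrArg Prod.fst (h3 i a ha)
    have h5 : (lin H (bd a)).1 = lin (fun a => (H a).1) (bd a) :=
      map_lin (LinearMap.fst (ZMod 2) (Finset U × Finset U →₀ ZMod 2) (Finset U →₀ ZMod 2))
    rw [Prod.fst_add, h5, hL1] at h4
    exact h4

end

end Pool.Agent.S10

end

section

/-!
# Duality pairs: intersection numbers of lists of elements of a group

`exists_inter_listD`: a group which acts properly on an acyclic homology manifold or on a duality pair of dimension `n`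
has intersection numbers of lists.
-/

set_option autoImplicit false

open Finset Pointwise

namespace Pool.Agent.H45.DA

open Pool.Agent.H37.TM hiding IsPsi al bdl tn_cell
open Pool.Agent.H65.RM hiding IsPsi al HH
open Pool.Agent.H84.RX
open Pool.Agent.S10 (Dual gen gen_psm gen_pact exists_psiG PsiG ManOrDual)

/-- the lists as cells -/
theorem cells_list (P : Type) [Group P] :
    @Cells P (NL P) _ (actL P) (fun x => x.1.length - 1) bdl := by
  classical
  let _ := actL P
  have hsm : ∀ (p : P) (x : NL P), (p • x).1 = x.1.map (p * ·) := fun p x => rfl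
  have hlen : ∀ x : NL P, 0 < x.1.length := fun x => List.length_pos_iff.2 x.2
  have hsub : ∀ (p : P) (m : List P), sub (m.map (p * ·)) = (sub m).mapDomain (p • ·) := by
    intro p m
    by_cases h : m = []
    · subst h
      rw [List.map_nil, sub_nil, Finsupp.mapDomain_zero]
    · have h' : m.map (p * ·) ≠ [] := fun h' => h (List.map_eq_nil_iff.1 h')
      rw [sub_ne h, sub_ne h', Finsupp.mapDomain_single]
      rfl
  have hbd : ∀ m : List P, lin bdl (sub m) = ∑ j ∈ Finset.range m.length, sub (m.eraseIdx j) := by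
    intro m
    by_cases h : m = []
    · subst h
      rw [sub_nil, map_zero, List.length_nil, Finset.range_zero, Finset.sum_empty]
    · rw [lin_sub bdl h]
      rfl
  refine ⟨?_, ?_, ?_, ?_, ?_, ?_⟩
  · rintro p ⟨l, hl⟩ h
    have h1 : l.map (p * ·) = l := congrArg Subtype.val h
    cases l with
    | nil => exact absurd rfl hl
    | cons a l =>
      rw [List.map_cons] at h1
      exact mul_eq_right.1 (List.cons.inj h1).1
  · intro p x
    change (x.1.map (p * ·)).length - 1 = x.1.length - 1
    rw [List.length_map]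
  · intro x y h
    unfold bdl at h
    rw [Finsupp.finsetSum_apply] at h
    obtain ⟨i, hi, hne⟩ := exists_ne_zero_of_sum_ne_zero h
    rw [Finset.mem_range] at hi
    have h1 : x.1.eraseIdx i = y.1 := by
      by_cases h2 : x.1.eraseIdx i = []
      · rw [h2, sub_nil] at hne
        exact absurd rfl hne
      · rw [sub_ne h2, Finsupp.single_apply] at hne
        by_contra h3
        apply hne
        rw [if_neg]
        intro h4
        exact h3 (congrArg Subtype.val h4)
    have h2 := hlen y
    have h3 : (x.1.eraseIdx i).length = x.1.length - 1 := List.length_eraseIdx_of_lt hi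
    rw [h1] at h3
    change y.1.length - 1 + 1 = x.1.length - 1
    omega
  · intro p x
    unfold bdl
    rw [Finsupp.mapDomain_finsetSum, hsm, List.length_map]
    refine Finset.sum_congr rfl fun i _ => ?_
    rw [List.eraseIdx_map, hsub]
  · intro x
    have h1 : lin bdl (bdl x) = ∑ i ∈ Finset.range x.1.length,
        ∑ j ∈ Finset.range (x.1.length - 1), sub ((x.1.eraseIdx i).eraseIdx j) := by
      conv_lhs => rw [show bdl x = ∑ i ∈ Finset.range x.1.length, sub (x.1.eraseIdx i) from rfl]
      rw [map_sum]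
      refine Finset.sum_congr rfl fun i hi => ?_
      rw [hbd, List.length_eraseIdx_of_lt (Finset.mem_range.1 hi)]
    rw [h1, Finset.sum_sigma']
    refine Finset.sum_involution
      (fun p _ => if p.1 ≤ p.2 then ⟨p.2 + 1, p.1⟩ else ⟨p.2, p.1 - 1⟩) ?_ ?_ ?_ ?_
    · rintro ⟨i, j⟩ h
      by_cases hij : i ≤ j
      · simp only [if_pos hij]
        rw [erase_erase _ _ _ hij]
        exact add_self_mod _
      · simp only [if_neg hij]
        have h2 := erase_erase x.1 j (i - 1) (by omega)
        rw [Nat.sub_add_cancel (by omega : 1 ≤ i)] at h2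
        rw [h2]
        exact add_self_mod _
    · rintro ⟨i, j⟩ h _ he
      by_cases hij : i ≤ j
      · simp only [if_pos hij] at he
        have h2 : j + 1 = i := congrArg Sigma.fst he
        omega
      · simp only [if_neg hij] at he
        have h2 : j = i := congrArg Sigma.fst he
        omega
    · rintro ⟨i, j⟩ h
      rw [Finset.mem_sigma, Finset.mem_range, Finset.mem_range] at h
      have h1 : i < x.1.length := h.1
      have h2 : j < x.1.length - 1 := h.2
      by_cases hij : i ≤ j
      · simp only [if_pos hij]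
        rw [Finset.mem_sigma, Finset.mem_range, Finset.mem_range]
        exact ⟨(by omega : j + 1 < x.1.length), (by omega : i < x.1.length - 1)⟩
      · simp only [if_neg hij]
        rw [Finset.mem_sigma, Finset.mem_range, Finset.mem_range]
        exact ⟨(by omega : j < x.1.length), (by omega : i - 1 < x.1.length - 1)⟩
    · rintro ⟨i, j⟩ h
      by_cases hij : i ≤ j
      · simp only [if_pos hij]
        rw [if_neg (by omega : ¬ j + 1 ≤ i)]
        rfl
      · simp only [if_neg hij]
        rw [if_pos (by omega : j ≤ i - 1), Nat.sub_add_cancel (by omega : 1 ≤ i)]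
  · intro x hx
    have h1 : x.1.length = 2 := by
      have h2 := hlen x
      have h3 : x.1.length - 1 = 1 := hx
      omega
    unfold bdl
    rw [map_sum, h1, Finset.sum_range_succ, Finset.sum_range_one, lin_sub, lin_sub]
    · exact add_self_mod _
    · intro h
      have := congrArg List.length h
      rw [List.length_eraseIdx_of_lt (by omega), h1] at this
      exact absurd this.symm (Nat.zero_ne_one)
    · intro h
      have := congrArg List.length h
      rw [List.length_eraseIdx_of_lt (by omega), h1] at this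
      exact absurd this.symm (Nat.zero_ne_one)

/-- intersection numbers of lists from the ones of cells -/
theorem interL_ext {P : Type} [Group P] {n : ℕ} {H : NL P → NL P → ZMod 2}
    (hH : @InterX P (NL P) _ (actL P) (fun x => x.1.length - 1) bdl n H) : InterL P n (ext H) := by
  classical
  let _ := actL P
  have hlen : ∀ x : NL P, 0 < x.1.length := fun x => List.length_pos_iff.2 x.2
  refine ⟨ext_nil_left H, ext_nil_right H, ?_, ?_, ?_, ?_⟩
  · intro σ τ h1 h2
    have h3 := hH.rel ⟨σ, h1⟩ ⟨τ, h2⟩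
    rw [ext_ne H h1 h2, ext_ne H h2 h1, ← h3]
    congr 1
    · change _ = lin _ (∑ i ∈ Finset.range σ.length, sub (σ.eraseIdx i))
      rw [map_sum]
      refine Finset.sum_congr rfl fun i _ => ?_
      by_cases h : σ.eraseIdx i = []
      · rw [h, sub_nil, map_zero, ext_nil_left]
      · rw [lin_sub _ h, ext_ne H h h2]
    · change _ = lin _ (∑ i ∈ Finset.range τ.length, sub (τ.eraseIdx i))
      rw [map_sum]
      refine Finset.sum_congr rfl fun i _ => ?_
      by_cases h : τ.eraseIdx i = []
      · rw [h, sub_nil, map_zero, ext_nil_right]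
      · rw [lin_sub _ h, ext_ne H h1 h]
  · intro σ τ h
    by_cases h1 : σ = []
    · rw [h1, ext_nil_left]
    by_cases h2 : τ = []
    · rw [h2, ext_nil_right]
    rw [ext_ne H h1 h2]
    apply hH.top
    have h3 := hlen ⟨σ, h1⟩
    have h4 := hlen ⟨τ, h2⟩
    change n < (σ.length - 1) + (τ.length - 1)
    change 0 < σ.length at h3
    change 0 < τ.length at h4
    omega
  · intro g
    rw [ext_ne H (List.cons_ne_nil g []) (List.cons_ne_nil g [])]
    exact hH.one _ rfl
  · intro F
    refine ⟨(F.attach ×ˢ F.attach).biUnion fun z =>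
      if h : z.1.1 ≠ [] ∧ z.2.1 ≠ [] then
        (hH.fin ⟨z.1.1, h.1⟩ ⟨z.2.1, h.2⟩).toFinset else ∅, ?_⟩
    intro σ hσ τ hτ p q hne
    by_cases h1 : σ = []
    · rw [h1, List.map_nil, ext_nil_left] at hne
      exact absurd rfl hne
    by_cases h2 : τ = []
    · rw [h2, List.map_nil, ext_nil_right] at hne
      exact absurd rfl hne
    rw [Finset.mem_biUnion]
    refine ⟨(⟨σ, hσ⟩, ⟨τ, hτ⟩), ?_, ?_⟩
    · exact Finset.mem_product.2 ⟨Finset.mem_attach _ _, Finset.mem_attach _ _⟩
    · rw [dif_pos (show (⟨σ, hσ⟩ : {x // x ∈ F}).1 ≠ [] ∧ (⟨τ, hτ⟩ : {x // x ∈ F}).1 ≠ [] from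
        ⟨h1, h2⟩), Set.Finite.mem_toFinset]
      refine ⟨p, ?_⟩
      have h3 : σ.map (p * ·) ≠ [] := fun h => h1 (List.map_eq_nil_iff.1 h)
      have h4 : τ.map (q * ·) ≠ [] := fun h => h2 (List.map_eq_nil_iff.1 h)
      rw [ext_ne H h3 h4] at hne
      rw [mul_inv_cancel_left]
      exact hne

section

variable {P U : Type} [Group P] [DecidableEq U] [MulAction P U] {K B mu : Set (Finset U)} {n : ℕ}

/-- the complex of pairs is zero above the index `n + 1` -/
theorem tn_high {x : Finset U × Finset U →₀ ZMod 2} (hx : x ∈ TN K B n (n + 2)) : x = 0 := by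
  ext e
  by_contra h
  obtain ⟨-, h2, -, -, h5⟩ := tn_cell hx e h
  have h3 := card_le_card h2
  omega

/-- **The chain map for a duality pair**, from abstract cells of all dimensions. -/
theorem exists_psi_cellsD {X : Type} [MulAction P X] {sz : X → ℕ} {bd : X → (X →₀ ZMod 2)}
    (hX : Cells P sz bd) (hD : Dual K B mu n (n + 1)) (hA : PAct P K B)
    (hmu : ∀ (g : P) (s : Finset U), s ∈ mu → g • s ∈ mu) :
    ∃ Ψ : X → (Finset U × Finset U →₀ ZMod 2), IsPsi P sz bd (gen mu) (B ∩ gen mu) n Ψ := by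
  classical
  obtain ⟨Ψ, hΨ⟩ := exists_psiG (Γ := P) (A := X) (fun i => {x | sz x = i ∧ i ≤ n + 1})
    (fun i g a ha => ⟨(hX.sz_smul g a).trans ha.1, ha.2⟩)
    (fun i j a hi hj => hi.1.symm.trans hj.1)
    (fun i a _ g h => hX.free g a h) bd
    (fun i a ha b hb => by
      have h4 := hX.bd_sz a b hb
      have h5 : sz a = i + 1 := ha.1
      exact ⟨(by omega : sz b = i), by have := ha.2; omega⟩)
    (fun a ha => bd_zero hX ha.1)
    (fun i g a _ => hX.bd_smul g a) (fun i a _ => hX.bd_bd a)
    (fun a => if sz a = 0 then 1 else 0)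
    (fun i a ha => by
      rw [if_neg]
      rw [ha.1]
      omega)
    (fun i g a _ => by rw [hX.sz_smul])
    (fun i a _ => by
      rw [lin_supp]
      by_cases h1 : sz a = 1
      · have h4 := hX.aug a h1
        rw [lin_supp] at h4
        rw [← h4]
        refine sum_congr rfl fun b hb => ?_
        have h6 := hX.bd_sz a b (Finsupp.mem_support_iff.1 hb)
        exact if_pos (by omega)
      · refine sum_eq_zero fun b hb => ?_
        have h6 := hX.bd_sz a b (Finsupp.mem_support_iff.1 hb)
        exact if_neg (by omega))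
    hD hA hmu (fun i ⟨a, ha⟩ => ha.2)
  have hz : ∀ y, sz y = n + 1 → Ψ y = 0 := fun y hy => tn_high (hΨ.mem (n + 1) y ⟨hy, le_rfl⟩)
  refine ⟨fun x => if sz x ≤ n + 1 then Ψ x else 0, ⟨fun x => ?_, fun p x => ?_, fun x => ?_⟩⟩
  · split_ifs with h
    · exact hΨ.mem (sz x) x ⟨rfl, h⟩
    · exact Submodule.zero_mem _
  · rw [hX.sz_smul]
    split_ifs with h
    · exact hΨ.smul p (sz x) x ⟨rfl, h⟩
    · rw [Finsupp.mapDomain_zero]
  · split_ifs with h h0 h0
    · rw [hΨ.bd (sz x) x ⟨rfl, h⟩, if_pos h0, lin_supp, lin_supp]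
      congr 1
      refine sum_congr rfl fun b hb => ?_
      have h6 := hX.bd_sz x b (Finsupp.mem_support_iff.1 hb)
      rw [if_pos (by omega)]
    · rw [hΨ.bd (sz x) x ⟨rfl, h⟩, if_neg h0, lin_supp, lin_supp, Finsupp.single_zero]
      congr 1
      refine sum_congr rfl fun b hb => ?_
      have h6 := hX.bd_sz x b (Finsupp.mem_support_iff.1 hb)
      rw [if_pos (by omega)]
    · omega
    · rw [map_zero, zero_add, lin_supp]
      symm
      refine sum_eq_zero fun b hb => ?_
      have h6 := hX.bd_sz x b (Finsupp.mem_support_iff.1 hb)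
      by_cases hb1 : sz b ≤ n + 1
      · rw [if_pos hb1]
        exact hz b (by omega)
      · rw [if_neg hb1]

/-- acyclic in the degrees up to the dimension -/
theorem acyc_of_lt (hM : Mfd K B n) (hK : AcycLt K (n + 1)) : Acyc K := by
  intro f hf h0
  refine hK f (fun s hs => ⟨hf s hs, ?_⟩) h0
  rcases hf s hs with h | rfl
  · exact hM.card_le s h
  · simp

/-- **Intersection numbers of lists.** -/
theorem exists_inter_listD (hM : ManOrDual P K B n (n + 1)) (hA : PAct P K B) :
    ∃ H : List P → List P → ZMod 2, InterL P n H := by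
  rcases hM with ⟨h1, h2⟩ | ⟨mu, hD, hmu⟩
  · exact exists_inter_list h1 (acyc_of_lt h1 h2) hA
  · let _ := actL P
    obtain ⟨Ψ, hΨ⟩ := exists_psi_cellsD (cells_list P) hD hA hmu
    obtain ⟨H, hH⟩ := inter_of_psi (cells_list P) (gen_psm hD) (gen_pact hD hA hmu) hΨ
    exact ⟨_, interL_ext hH⟩

end

end Pool.Agent.H45.DA

end
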