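import Pool.Agent.H71.TSG.H4.FC.Par
import Pool.Agent.H71.TSG.M67

/-! The parts of this file: H78.RC.Defs, H93.AA.Defs. -/

section

/-!
# Project RC: definitions

Minimal blow-ups of the sphere (finite Coxeter groups) and of the torus (affine Coxeter groups) along the
reflection arrangement, as cube complexes with labelled edges.
-/

set_option autoImplicit false

open Finset

namespace Pool.Agent.H78.RC

open Pool.Agent.H4.FC

section

variable {S : Type}

/-- `w` is the longest element of `W_J` -/
def IsLong (M : CoxeterMatrix S) (J : Finset S) (w : M.Group) : Prop :=
  w ∈ par M J ∧ ∀ v ∈ par M J, M.toCoxeterSystem.length v ≤ M.toCoxeterSystem.length w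

open Classical in
/-- the longest element of `W_J` -/
noncomputable def lw (M : CoxeterMatrix S) (J : Finset S) : M.Group :=
  if h : ∃ w, IsLong M J w then h.choose else 1

/-! ### Roots -/

end

section

/-! ### Quotients of the Coxeter group -/

end

end Pool.Agent.H78.RC

end

section

/-!
# Project AA (Artin groups): definitions

`BG M` is the Artin group of the Coxeter matrix `M`, `bgen M s` are its generators; `Sph M T`: the parabolic
subgroup `W_T = par M T` is finite; `lw M T` is its longest element.
-/

set_option autoImplicit false

open Finset

namespace Pool.Agent.H93.AA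

open Pool.Agent.H4.FC Pool.Agent.H78.RC H42.NU

variable {S : Type}

/-- the positive lift of `w`: the product of the generators along a reduced word of `w` -/
noncomputable def lft (M : CoxeterMatrix S) (w : M.Group) : BG M :=
  ((M.toCoxeterSystem.exists_isReduced w).choose.map (bgen M)).prod

/-- the element `Δ_T` of the Artin group: the positive lift of the longest element of `W_T` -/
noncomputable def dlt (M : CoxeterMatrix S) (T : Finset S) : BG M := lft M (lw M T)

open Classical in
/-- the elements of `W_T` which are the shortest elements of their cosets `w W_J` -/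
noncomputable def mn (M : CoxeterMatrix S) (T J : Finset S) : Finset M.Group :=
  (parF M T).filter fun w => ∀ t ∈ J, ¬ M.toCoxeterSystem.IsRightDescent w t

section

variable [DecidableEq S]

variable [Fintype S]

/-- The reduced homology modulo two of the nerve of the Coxeter group vanishes on the simplices with `j`
vertices (in degree `j - 1`): every cycle is a boundary. -/
def HL (M : CoxeterMatrix S) (j : ℕ) : Prop :=
  ∀ z : Finset S → ZMod 2, (∀ T, z T ≠ 0 → Sph M T ∧ T.card = j) →
    (∀ T, ∑ v ∈ Tᶜ, z (insert v T) = 0) →
    ∃ y : Finset S → ZMod 2, (∀ T, y T ≠ 0 → Sph M T ∧ T.card = j + 1) ∧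
      ∀ T, ∑ v ∈ Tᶜ, y (insert v T) = z T

end

end Pool.Agent.H93.AA

end
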