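import Pool.Agent.H71.TSG.H4.BD.SDefs
import Pool.Agent.H71.TSG.M70

/-! The parts of this file: H78.RA.Artin, H8.BD.Defs, H8.BD.Cub, H8.BD.Mat, H8.BD.Triv, H4.BD.Coh, H4.BD.Dual, H4.BD.Defs, H4.BD.Crs, H4.BD.HalfX, H4.BD.All, H4.BD.Tup, H97.BLD.BdA, H97.BLD.Bd, H22.BD.Avg, H8.BD.Dav, H97.BLD.WkA, H97.BLD.Wk, H4.BD.Cox, H4.BD.CellB, H4.BD.AAb, H4.BD.KKs, H4.BD.Pan, H4.BD.ResB, H4.BD.SelP, H4.BD.SelR, H97.BLD.CenF. -/

section

/-!
# Reduced `ℓ²`-homology of right-angled Artin groups

If the reduced mod 2 homology of the flag complex of `G` vanishes in degree `i - 1`, then the reduced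
`ℓ²`-homology of the universal cover of the Salvetti complex vanishes in degree `i`.
-/

set_option autoImplicit false
set_option linter.unusedSectionVars false

open Finset

namespace Pool.Agent.H78.RA

section

variable {V : Type} [Fintype V] [dV : DecidableEq V]

theorem sg_smul_two (ν : V → ℕ) (τ : Finset V) (v : V) (a : ZMod 2) : sg ν τ v • a = a := by
  unfold sg
  rcases neg_one_pow_eq_or ℤ (τ.filter fun u => ν u < ν v).card with h | h
  · rw [h, one_smul]
  · rw [h, neg_smul, one_smul, ZMod.neg_eq_self_mod_two]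

theorem bd_two (ν : V → ℕ) (f : Finset V → ZMod 2) (τ : Finset V) :
    bd ν f τ = ∑ v ∈ τᶜ, f (insert v τ) := by
  unfold bd
  exact Finset.sum_congr rfl fun v _ => sg_smul_two ν τ v _

end

end Pool.Agent.H78.RA

end

section

/-!
# Project BD: almost commuting projections and the cubical complex, definitions
-/

set_option autoImplicit false

open Finset

namespace Pool.Agent.H8.BD

open Pool.Agent.H78.RA

variable {S : Type} [Fintype S] [DecidableEq S]

/-- a chain of degree `i`: supported on the cubes `(A, T)`, `A ⊆ T` spherical, with `i` directions `T \ A` -/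
def Ch {E : Type*} [Zero E] (Sph : Finset S → Prop) (i : ℕ) (f : Finset S → Finset S → E) : Prop :=
  ∀ A T, f A T ≠ 0 → A ⊆ T ∧ Sph T ∧ (T \ A).card = i

/-- The boundary of the cubical complex: the faces of the cube `(A, T)` are the `(A, T - v)` and the `(A + v, T)`,
`v ∈ T \ A`; chains on the cubes of type `(A, T)` are elements of the image of `P A`. -/
def cbd {E : Type*} [AddCommGroup E] (ν : S → ℕ) (P : Finset S → E → E) (f : Finset S → Finset S → E) :
    Finset S → Finset S → E :=
  fun A T => if A ⊆ T then ∑ v ∈ Tᶜ, sg ν (T \ A) v • f A (insert v T)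
    - ∑ v ∈ A, sg ν (T \ A) v • P A (f (A.erase v) T) else 0

end Pool.Agent.H8.BD

end

section

/-!
# Project BD: the cubical complex
-/

set_option autoImplicit false
set_option linter.unusedSectionVars false

open Finset

namespace Pool.Agent.H8.BD

open Pool.Agent.H78.RA

variable {S : Type} [Fintype S] [DecidableEq S]

theorem sg_mul_sg (ν : S → ℕ) (D : Finset S) (v : S) : sg ν D v * sg ν D v = 1 := by
  unfold sg
  rw [← mul_pow]
  simp

theorem sg_swap (ν : S → ℕ) (hν : Function.Injective ν) (D : Finset S) (u v : S) (hu : u ∉ D)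
    (hv : v ∉ D) (huv : u ≠ v) :
    sg ν D v * sg ν (insert v D) u + sg ν D u * sg ν (insert u D) v = 0 := by
  rw [sg_insert ν D u v hv, sg_insert ν D v u hu]
  have hne : ν v ≠ ν u := fun h => huv (hν h).symm
  rcases lt_or_gt_of_ne hne with h | h
  · rw [if_pos h, if_neg (not_lt.2 h.le)]
    ring
  · rw [if_neg (not_lt.2 h.le), if_pos h]
    ring

section

variable {E : Type*} [AddCommGroup E]

theorem cbd_of_subset (ν : S → ℕ) (P : Finset S → E → E) (f : Finset S → Finset S → E) {A T : Finset S}
    (h : A ⊆ T) : cbd ν P f A T = ∑ v ∈ Tᶜ, sg ν (T \ A) v • f A (insert v T)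
      - ∑ v ∈ A, sg ν (T \ A) v • P A (f (A.erase v) T) := if_pos h

theorem cbd_of_not (ν : S → ℕ) (P : Finset S → E → E) (f : Finset S → Finset S → E) {A T : Finset S}
    (h : ¬ A ⊆ T) : cbd ν P f A T = 0 := if_neg h

theorem cbd_add (ν : S → ℕ) (P : Finset S → E →+ E) (f g : Finset S → Finset S → E) :
    cbd ν (fun A => P A) (f + g) = cbd ν (fun A => P A) f + cbd ν (fun A => P A) g := by
  funext A T
  rw [Pi.add_apply, Pi.add_apply]
  by_cases h : A ⊆ T
  · rw [cbd_of_subset ν _ _ h, cbd_of_subset ν _ _ h, cbd_of_subset ν _ _ h]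
    simp only [Pi.add_apply, smul_add, map_add, Finset.sum_add_distrib]
    abel
  · rw [cbd_of_not ν _ _ h, cbd_of_not ν _ _ h, cbd_of_not ν _ _ h, add_zero]

theorem cbd_zero (ν : S → ℕ) (P : Finset S → E →+ E) :
    cbd ν (fun A => P A) (0 : Finset S → Finset S → E) = 0 := by
  funext A T
  by_cases h : A ⊆ T
  · rw [cbd_of_subset ν _ _ h]
    simp
  · rw [cbd_of_not ν _ _ h]
    rfl

theorem cbd_neg (ν : S → ℕ) (P : Finset S → E →+ E) (f : Finset S → Finset S → E) :
    cbd ν (fun A => P A) (-f) = -cbd ν (fun A => P A) f := by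
  have h := cbd_add ν P f (-f)
  rw [add_neg_cancel, cbd_zero] at h
  exact (neg_eq_of_add_eq_zero_right h.symm).symm

theorem cbd_sub (ν : S → ℕ) (P : Finset S → E →+ E) (f g : Finset S → Finset S → E) :
    cbd ν (fun A => P A) (f - g) = cbd ν (fun A => P A) f - cbd ν (fun A => P A) g := by
  rw [sub_eq_add_neg, cbd_add, cbd_neg, sub_eq_add_neg]

theorem insert_sdiff {v : S} {A T : Finset S} (hv : v ∉ A) : insert v T \ A = insert v (T \ A) :=
  Finset.insert_sdiff_of_notMem T hv

theorem sdiff_erase' {v : S} {A T : Finset S} (hA : A ⊆ T) (hv : v ∈ A) :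
    T \ A.erase v = insert v (T \ A) := Finset.sdiff_erase (hA hv)

theorem cbd_cbd (ν : S → ℕ) (hν : Function.Injective ν) (P : Finset S → E →+ E)
    (hP : ∀ A, ∀ v ∈ A, ∀ x, P A (P (A.erase v) x) = P A x) (f : Finset S → Finset S → E) :
    cbd ν (fun A => P A) (cbd ν (fun A => P A) f) = 0 := by
  funext A T
  by_cases h : A ⊆ T
  swap
  · rw [cbd_of_not ν _ _ h]
    rfl
  rw [cbd_of_subset ν _ _ h]
  set D := T \ A with hD
  have hAD : ∀ v ∈ A, v ∉ D := fun v hv h0 => (Finset.mem_sdiff.1 h0).2 hv
  have hTD : ∀ v ∈ Tᶜ, v ∉ D := fun v hv h0 => Finset.mem_compl.1 hv (Finset.mem_sdiff.1 h0).1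
  have e1 : ∀ v ∈ Tᶜ, sg ν D v • cbd ν (fun A => P A) f A (insert v T)
      = (∑ u ∈ (insert v T)ᶜ, (sg ν D v * sg ν (insert v D) u) • f A (insert u (insert v T)))
        - ∑ u ∈ A, (sg ν D v * sg ν (insert v D) u) • P A (f (A.erase u) (insert v T)) := by
    intro v hv
    have hvA : v ∉ A := fun h0 => Finset.mem_compl.1 hv (h h0)
    rw [cbd_of_subset ν _ _ (h.trans (Finset.subset_insert v T)), insert_sdiff hvA, smul_sub,
      Finset.smul_sum, Finset.smul_sum]
    simp only [mul_smul, hD]
  have e2 : ∀ v ∈ A, sg ν D v • P A (cbd ν (fun A => P A) f (A.erase v) T)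
      = (∑ u ∈ Tᶜ, (sg ν D v * sg ν (insert v D) u) • P A (f (A.erase v) (insert u T)))
        - ∑ u ∈ A.erase v, (sg ν D v * sg ν (insert v D) u) • P A (f ((A.erase v).erase u) T) := by
    intro v hv
    rw [cbd_of_subset ν _ _ ((Finset.erase_subset v A).trans h), sdiff_erase' h hv, map_sub, smul_sub,
      map_sum, map_sum, Finset.smul_sum, Finset.smul_sum]
    simp only [map_zsmul, hP A v hv, mul_smul, hD]
  rw [Finset.sum_congr rfl e1, Finset.sum_congr rfl e2, Finset.sum_sub_distrib, Finset.sum_sub_distrib]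
  have z1 : ∑ v ∈ Tᶜ, ∑ u ∈ (insert v T)ᶜ, (sg ν D v * sg ν (insert v D) u) • f A (insert u (insert v T))
      = 0 := by
    rw [Finset.sum_sigma']
    apply Finset.sum_involution (fun a _ => (⟨a.2, a.1⟩ : (_ : S) × S))
    · rintro ⟨v, u⟩ ha
      simp only [Finset.mem_sigma, Finset.mem_compl, Finset.mem_insert, not_or] at ha
      obtain ⟨hv, huv, hu⟩ := ha
      show (sg ν D v * sg ν (insert v D) u) • f A (insert u (insert v T))
        + (sg ν D u * sg ν (insert u D) v) • f A (insert v (insert u T)) = 0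
      rw [Finset.insert_comm v u T, ← add_smul, sg_swap ν hν D u v (hTD u (Finset.mem_compl.2 hu))
        (hTD v (Finset.mem_compl.2 hv)) huv, zero_smul]
    · rintro ⟨v, u⟩ ha _ hc
      simp only [Finset.mem_sigma, Finset.mem_compl, Finset.mem_insert, not_or] at ha
      have h2 : u = v := congrArg Sigma.fst hc
      exact ha.2.1 h2
    · rintro ⟨v, u⟩ ha
      simp only [Finset.mem_sigma, Finset.mem_compl, Finset.mem_insert, not_or] at ha ⊢
      exact ⟨ha.2.2, fun h => ha.2.1 h.symm, ha.1⟩
    · rintro ⟨v, u⟩ _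
      rfl
  have z2 : ∑ v ∈ A, ∑ u ∈ A.erase v, (sg ν D v * sg ν (insert v D) u) • P A (f ((A.erase v).erase u) T)
      = 0 := by
    rw [Finset.sum_sigma']
    apply Finset.sum_involution (fun a _ => (⟨a.2, a.1⟩ : (_ : S) × S))
    · rintro ⟨v, u⟩ ha
      simp only [Finset.mem_sigma, Finset.mem_erase] at ha
      obtain ⟨hv, huv, hu⟩ := ha
      show (sg ν D v * sg ν (insert v D) u) • P A (f ((A.erase v).erase u) T)
        + (sg ν D u * sg ν (insert u D) v) • P A (f ((A.erase u).erase v) T) = 0
      rw [Finset.erase_right_comm, ← add_smul, sg_swap ν hν D u v (hAD u hu) (hAD v hv) huv, zero_smul]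
    · rintro ⟨v, u⟩ ha _ hc
      simp only [Finset.mem_sigma, Finset.mem_erase] at ha
      have h2 : u = v := congrArg Sigma.fst hc
      exact ha.2.1 h2
    · rintro ⟨v, u⟩ ha
      simp only [Finset.mem_sigma, Finset.mem_erase] at ha ⊢
      exact ⟨ha.2.2, fun h => ha.2.1 h.symm, ha.1⟩
    · rintro ⟨v, u⟩ _
      rfl
  have z3 : ∑ v ∈ Tᶜ, ∑ u ∈ A, (sg ν D v * sg ν (insert v D) u) • P A (f (A.erase u) (insert v T))
      + ∑ v ∈ A, ∑ u ∈ Tᶜ, (sg ν D v * sg ν (insert v D) u) • P A (f (A.erase v) (insert u T)) = 0 := by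
    rw [Finset.sum_comm, ← Finset.sum_add_distrib]
    apply Finset.sum_eq_zero
    intro v hv
    rw [← Finset.sum_add_distrib]
    apply Finset.sum_eq_zero
    intro u hu
    have huv : u ≠ v := by
      rintro rfl
      exact Finset.mem_compl.1 hu (h hv)
    rw [← add_smul, sg_swap ν hν D v u (hAD v hv) (hTD u hu) huv.symm, zero_smul]
  rw [z1, z2, zero_sub, sub_zero]
  rw [show (0 : Finset S → Finset S → E) A T = 0 from rfl, ← neg_eq_zero, neg_sub, sub_neg_eq_add, add_comm]
  exact z3

theorem cbd_supp (ν : S → ℕ) {Sph : Finset S → Prop} (hS : ∀ T U, T ⊆ U → Sph U → Sph T)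
    (P : Finset S → E →+ E) (i : ℕ) (f : Finset S → Finset S → E) (hf : Ch Sph (i + 1) f) :
    Ch Sph i (cbd ν (fun A => P A) f) := by
  intro A T h0
  have h : A ⊆ T := by
    by_contra hn
    exact h0 (cbd_of_not ν _ _ hn)
  refine ⟨h, ?_⟩
  rw [cbd_of_subset ν _ _ h] at h0
  have h1 : (∑ v ∈ Tᶜ, sg ν (T \ A) v • f A (insert v T)) ≠ 0 ∨
      (∑ v ∈ A, sg ν (T \ A) v • P A (f (A.erase v) T)) ≠ 0 := by
    by_contra hc
    push Not at hc
    rw [hc.1, hc.2, sub_zero] at h0
    exact h0 rfl
  rcases h1 with h1 | h1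
  · obtain ⟨v, hv, hne⟩ := Finset.exists_ne_zero_of_sum_ne_zero h1
    have h2 : f A (insert v T) ≠ 0 := fun h3 => hne (by rw [h3, smul_zero])
    obtain ⟨_, h4, h5⟩ := hf _ _ h2
    have hvT := Finset.mem_compl.1 hv
    rw [insert_sdiff fun h0 => hvT (h h0), Finset.card_insert_of_notMem
      fun h0 => hvT (Finset.mem_sdiff.1 h0).1] at h5
    exact ⟨hS _ _ (Finset.subset_insert v T) h4, by omega⟩
  · obtain ⟨v, hv, hne⟩ := Finset.exists_ne_zero_of_sum_ne_zero h1
    have h2 : f (A.erase v) T ≠ 0 := fun h3 => hne (by rw [h3, map_zero, smul_zero])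
    obtain ⟨_, h4, h5⟩ := hf _ _ h2
    rw [sdiff_erase' h hv, Finset.card_insert_of_notMem fun h0 => (Finset.mem_sdiff.1 h0).2 hv] at h5
    exact ⟨h4, by omega⟩

end

end Pool.Agent.H8.BD

end

section

/-!
# Project BD: the boundary as a matrix, contractions in matrix form
-/

set_option autoImplicit false
set_option linter.unusedSectionVars false

open Finset

namespace Pool.Agent.H8.BD

open Pool.Agent.H78.RA

variable {S : Type} [Fintype S] [DecidableEq S]

section

variable {ι : Type*} [Fintype ι] [DecidableEq ι]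

open Classical in
/-- the projection to the functions supported on `P` -/
noncomputable def pj (P : ι → Prop) : (ι → ℂ) →ₗ[ℂ] (ι → ℂ) where
  toFun f := fun σ => if P σ then f σ else 0
  map_add' := by
    intro f g
    funext σ
    show (if P σ then f σ + g σ else 0) = (if P σ then f σ else 0) + (if P σ then g σ else 0)
    split_ifs
    · rfl
    · rw [add_zero]
  map_smul' := by
    intro c f
    funext σ
    show (if P σ then c * f σ else 0) = c * (if P σ then f σ else 0)
    split_ifs
    · rfl
    · rw [mul_zero]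

theorem pj_eq {P : ι → Prop} {f : ι → ℂ} (hf : ∀ σ, f σ ≠ 0 → P σ) : pj P f = f := by
  classical
  funext σ
  show (if P σ then f σ else 0) = f σ
  split_ifs with h
  · rfl
  · by_contra hne
    exact h (hf σ (Ne.symm hne))

theorem pj_supp (P : ι → Prop) (f : ι → ℂ) (σ : ι) (h : pj P f σ ≠ 0) : P σ := by
  classical
  by_contra hc
  apply h
  show (if P σ then f σ else 0) = 0
  rw [if_neg hc]

/-- a contraction in matrix form -/
theorem contr_gen (D : Matrix ι ι ℂ) {P Q : ι → Prop}
    (h : ∀ z : ι → ℂ, (∀ σ, z σ ≠ 0 → P σ) → D.mulVec z = 0 →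
      ∃ y : ι → ℂ, (∀ σ, y σ ≠ 0 → Q σ) ∧ D.mulVec y = z) :
    ∃ η κ : Matrix ι ι ℂ, (∀ L K, η L K ≠ 0 → Q L) ∧ (∀ J M, κ J M ≠ 0 → P J) ∧
      ∀ J K, P K → (D * η + κ * D) J K = if J = K then 1 else 0 := by
  classical
  set Dl : (ι → ℂ) →ₗ[ℂ] (ι → ℂ) := D.mulVecLin with hDl
  have hDa : ∀ z, Dl z = D.mulVec z := fun z => rfl
  obtain ⟨s, hs⟩ := exists_ginv (Dl ∘ₗ pj Q)
  obtain ⟨r, hr⟩ := exists_ginv (Dl ∘ₗ pj P)
  have hmain : ∀ z : ι → ℂ, (∀ σ, z σ ≠ 0 → P σ) →
      Dl (pj Q ((s ∘ₗ (LinearMap.id - pj P ∘ₗ r ∘ₗ Dl)) z)) + pj P (r (Dl z)) = z := by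
    intro z hz
    have hz' : pj P z = z := pj_eq hz
    set c := z - pj P (r (Dl z)) with hc
    have hcs : ∀ σ, c σ ≠ 0 → P σ := by
      intro σ hσ
      by_contra hn
      apply hσ
      show z σ - (pj P (r (Dl z))) σ = 0
      have e1 : z σ = 0 := by
        by_contra h0
        exact hn (hz σ h0)
      have e2 : (pj P (r (Dl z))) σ = 0 := by
        by_contra h0
        exact hn (pj_supp P _ σ h0)
      rw [e1, e2, sub_zero]
    have hcb : D.mulVec c = 0 := by
      have h1 := hr z
      simp only [LinearMap.comp_apply, hz'] at h1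
      rw [← hDa, hc, map_sub, h1, sub_self]
    obtain ⟨y, hy1, hy2⟩ := h c hcs hcb
    have h2 : Dl (pj Q (s c)) = c := by
      have h3 := hs y
      simp only [LinearMap.comp_apply, pj_eq hy1] at h3
      rw [hDa y, hy2] at h3
      exact h3
    have h4 : (s ∘ₗ (LinearMap.id - pj P ∘ₗ r ∘ₗ Dl)) z = s c := by
      simp only [LinearMap.comp_apply, LinearMap.sub_apply, LinearMap.id_apply, hc]
    rw [h4, h2, hc]
    abel
  set H : (ι → ℂ) →ₗ[ℂ] (ι → ℂ) := s ∘ₗ (LinearMap.id - pj P ∘ₗ r ∘ₗ Dl) with hH
  refine ⟨LinearMap.toMatrix' (pj Q ∘ₗ H), LinearMap.toMatrix' (pj P ∘ₗ r), ?_, ?_, ?_⟩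
  · intro L K h0
    rw [LinearMap.toMatrix'_apply] at h0
    exact pj_supp Q _ L h0
  · intro J M h0
    rw [LinearMap.toMatrix'_apply] at h0
    exact pj_supp P _ J h0
  · intro J K hK
    have h1 := hmain (Pi.single K 1) (by
      intro σ h0
      rw [Pi.single_apply] at h0
      split_ifs at h0 with h3
      · rw [h3]; exact hK
      · exact absurd rfl h0)
    have h2 : (D * LinearMap.toMatrix' (pj Q ∘ₗ H) + LinearMap.toMatrix' (pj P ∘ₗ r) * D).mulVec
        (Pi.single K 1) = Pi.single K 1 := by
      rw [Matrix.add_mulVec, ← Matrix.mulVec_mulVec, ← Matrix.mulVec_mulVec,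
        LinearMap.toMatrix'_mulVec, LinearMap.toMatrix'_mulVec]
      exact h1
    have h3 := congrFun h2 J
    rw [Matrix.mulVec_single_one, Pi.single_apply] at h3
    exact h3

end

end Pool.Agent.H8.BD

end

section

/-!
# Project BD: exactness of the cubical complex when the links are acyclic

`exact_links`: if the simplicial chains of the links of all spherical sets (the empty set included) are exact in
size `i`, the cubical complex with any coefficients is exact in degree `i`. `ex_links`: this holds if all full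
subcomplexes of the nerve are exact in all sizes `≥ i`.
-/

set_option autoImplicit false
set_option linter.unusedSectionVars false

open Finset

namespace Pool.Agent.H8.BD

open Pool.Agent.H78.RA

variable {S : Type} [Fintype S] [DecidableEq S]

/-- the simplicial boundary as a matrix -/
def sm (ν : S → ℕ) : Matrix (Finset S) (Finset S) ℂ :=
  Matrix.of fun σ τ => ∑ v ∈ σᶜ, if τ = insert v σ then (sg ν σ v : ℂ) else 0

theorem sum_sm (ν : S → ℕ) {X : Type*} [AddCommGroup X] [Module ℂ X] (c : Finset S → X) (σ : Finset S) :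
    ∑ τ, sm ν σ τ • c τ = bd ν c σ := by
  have h1 : ∀ τ ∈ (univ : Finset (Finset S)), sm ν σ τ • c τ
      = ∑ v ∈ σᶜ, if τ = insert v σ then (sg ν σ v : ℂ) • c τ else 0 := by
    intro τ _
    show (∑ v ∈ σᶜ, if τ = insert v σ then (sg ν σ v : ℂ) else 0) • c τ = _
    rw [Finset.sum_smul]
    apply Finset.sum_congr rfl
    intro v _
    split_ifs
    · rfl
    · rw [zero_smul]
  rw [Finset.sum_congr rfl h1, Finset.sum_comm]
  unfold bd
  apply Finset.sum_congr rfl
  intro v _
  rw [Finset.sum_ite_eq' univ (insert v σ), if_pos (Finset.mem_univ _), Int.cast_smul_eq_zsmul]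

/-- fillings by a matrix -/
theorem vec_fill (ν : S → ℕ) {P Q : Finset S → Prop} (h : Ex ℂ ν P Q) :
    ∃ η : Finset S → Finset S → ℂ, (∀ σ τ, η σ τ ≠ 0 → Q σ) ∧
      ∀ {X : Type} [AddCommGroup X] [Module ℂ X] (c : Finset S → X), (∀ σ, c σ ≠ 0 → P σ) →
        bd ν c = 0 → bd ν (fun σ => ∑ τ, η σ τ • c τ) = c := by
  classical
  have hmv : ∀ z : Finset S → ℂ, (sm ν).mulVec z = bd ν z := by
    intro z
    funext σ
    rw [← sum_sm]
    rfl
  obtain ⟨η, κ, h1, h2, h3⟩ := contr_gen (sm ν) (P := P) (Q := Q) (by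
    intro z hz hz0
    rw [hmv] at hz0
    obtain ⟨y, hy1, hy2⟩ := h z hz hz0
    exact ⟨y, hy1, by rw [hmv, hy2]⟩)
  refine ⟨fun σ τ => η σ τ, fun σ τ h0 => h1 σ τ h0, ?_⟩
  intro X _ _ c hc hc0
  funext σ
  rw [← sum_sm]
  have e1 : ∑ τ, sm ν σ τ • ∑ ρ, η τ ρ • c ρ = ∑ ρ, (sm ν * η) σ ρ • c ρ := by
    simp only [Finset.smul_sum, smul_smul]
    rw [Finset.sum_comm]
    apply Finset.sum_congr rfl
    intro ρ _
    rw [← Finset.sum_smul, Matrix.mul_apply]
  have e2 : ∑ ρ, (κ * sm ν) σ ρ • c ρ = 0 := by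
    have e3 : ∑ ρ, (κ * sm ν) σ ρ • c ρ = ∑ τ, κ σ τ • ∑ ρ, sm ν τ ρ • c ρ := by
      simp only [Finset.smul_sum, smul_smul]
      rw [Finset.sum_comm]
      apply Finset.sum_congr rfl
      intro ρ _
      rw [← Finset.sum_smul, Matrix.mul_apply]
    rw [e3]
    apply Finset.sum_eq_zero
    intro τ _
    rw [sum_sm, hc0, Pi.zero_apply, smul_zero]
  have e4 : ∑ ρ, (sm ν * η + κ * sm ν) σ ρ • c ρ = c σ := by
    rw [Finset.sum_eq_single σ]
    · by_cases hσ : P σ
      · rw [h3 σ σ hσ, if_pos rfl, one_smul]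
      · have : c σ = 0 := by
          by_contra h0
          exact hσ (hc σ h0)
        rw [this, smul_zero]
    · intro ρ _ hne
      by_cases hρ : P ρ
      · rw [h3 σ ρ hρ, if_neg (Ne.symm hne), zero_smul]
      · have : c ρ = 0 := by
          by_contra h0
          exact hρ (hc ρ h0)
        rw [this, smul_zero]
    · intro h0
      exact absurd (Finset.mem_univ _) h0
  simp only [Matrix.add_apply, add_smul, Finset.sum_add_distrib] at e4
  rw [e2, add_zero] at e4
  rw [e1, e4]

/-- **exactness of the cubical complex when the links are acyclic** -/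
theorem exact_links (Sph : Finset S → Prop) (hS : ∀ T U, T ⊆ U → Sph U → Sph T) (ν : S → ℕ)
    (hν : Function.Injective ν) (i : ℕ)
    (hex : ∀ A, Sph A → Ex ℂ ν (fun σ => Sph (σ ∪ A) ∧ σ.card = i ∧ Disjoint σ A)
      (fun σ => Sph (σ ∪ A) ∧ σ.card = i + 1 ∧ Disjoint σ A))
    {X : Type} [AddCommGroup X] [Module ℂ X] (P : Finset S → X →ₗ[ℂ] X)
    (hP1 : ∀ A x, P A (P A x) = P A x) (hP2 : ∀ A, ∀ v ∈ A, ∀ x, P A (P (A.erase v) x) = P A x) :
    ∀ f : Finset S → Finset S → X, Ch Sph i f → (∀ A T, P A (f A T) = f A T) →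
      cbd ν (fun A => P A) f = 0 →
      ∃ g, Ch Sph (i + 1) g ∧ (∀ A T, P A (g A T) = g A T) ∧ cbd ν (fun A => P A) g = f := by
  classical
  have hη : ∀ A : Finset S, ∃ η : Finset S → Finset S → ℂ, Sph A →
      (∀ σ τ, η σ τ ≠ 0 → Sph (σ ∪ A) ∧ σ.card = i + 1 ∧ Disjoint σ A) ∧
      ∀ (c : Finset S → X), (∀ σ, c σ ≠ 0 → Sph (σ ∪ A) ∧ σ.card = i ∧ Disjoint σ A) →
        bd ν c = 0 → bd ν (fun σ => ∑ τ, η σ τ • c τ) = c := by
    intro A
    by_cases hA : Sph A
    · obtain ⟨η, h1, h2⟩ := vec_fill ν (hex A hA)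
      exact ⟨η, fun _ => ⟨h1, fun c => h2 c⟩⟩
    · exact ⟨0, fun h => absurd h hA⟩
  choose η hη using hη
  let Pa : Finset S → X →+ X := fun A => (P A).toAddMonoidHom
  have main : ∀ m : ℕ, ∀ f : Finset S → Finset S → X, Ch Sph i f → (∀ A T, P A (f A T) = f A T) →
      cbd ν (fun A => P A) f = 0 → (∀ A T, A.card + m < Fintype.card S + 1 → f A T = 0) →
      ∃ g, Ch Sph (i + 1) g ∧ (∀ A T, P A (g A T) = g A T) ∧ cbd ν (fun A => P A) g = f := by
    intro m
    induction m with
    | zero =>
      intro f _ _ _ hf0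
      refine ⟨0, fun A T h0 => absurd rfl h0, fun A T => map_zero _, ?_⟩
      have h1 := cbd_zero ν Pa
      rw [show cbd ν (fun A => P A) (0 : Finset S → Finset S → X) = 0 from h1]
      funext A T
      symm
      apply hf0
      have := Finset.card_le_univ A
      omega
    | succ m ih =>
      intro f hf hfP hfc hf0
      set c : Finset S → Finset S → X := fun A σ => if Disjoint σ A then f A (σ ∪ A) else 0 with hc
      set y : Finset S → Finset S → X := fun A σ => ∑ τ, η A σ τ • c A τ with hy
      set g : Finset S → Finset S → X := fun A T =>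
        if A.card + m = Fintype.card S ∧ A ⊆ T ∧ Sph A then y A (T \ A) else 0 with hg
      have hg0 : ∀ A T, A.card + m ≠ Fintype.card S → g A T = 0 := fun A T h =>
        if_neg fun h1 => h h1.1
      have hgch : Ch Sph (i + 1) g := by
        intro A T h0
        by_cases h1 : A.card + m = Fintype.card S ∧ A ⊆ T ∧ Sph A
        · have h2 : g A T = y A (T \ A) := if_pos h1
          rw [h2] at h0
          obtain ⟨τ, _, h3⟩ := Finset.exists_ne_zero_of_sum_ne_zero h0
          have h4 : η A (T \ A) τ ≠ 0 := fun h5 => h3 (by rw [h5, zero_smul])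
          obtain ⟨h5, h6, _⟩ := (hη A h1.2.2).1 _ _ h4
          rw [Finset.sdiff_union_of_subset h1.2.1] at h5
          exact ⟨h1.2.1, h5, h6⟩
        · exact absurd (if_neg h1) h0
      have hgP : ∀ A T, P A (g A T) = g A T := by
        intro A T
        by_cases h1 : A.card + m = Fintype.card S ∧ A ⊆ T ∧ Sph A
        · have h2 : g A T = y A (T \ A) := if_pos h1
          rw [h2, hy]
          simp only [map_sum, map_smul]
          apply Finset.sum_congr rfl
          intro τ _
          congr 1
          show P A (if Disjoint τ A then f A (τ ∪ A) else 0) = if Disjoint τ A then f A (τ ∪ A) else 0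
          split_ifs
          · exact hfP _ _
          · exact map_zero _
        · have h2 : g A T = 0 := if_neg h1
          rw [h2, map_zero]
      have hcyc : ∀ A, A.card + m = Fintype.card S → bd ν (c A) = 0 := by
        intro A hA
        funext σ
        show bd ν (c A) σ = 0
        unfold bd
        by_cases hd : Disjoint σ A
        swap
        · apply Finset.sum_eq_zero
          intro v _
          have : c A (insert v σ) = 0 := if_neg fun h => hd (h.mono_left (Finset.subset_insert v σ))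
          rw [this, smul_zero]
        have h1 : cbd ν (fun A => P A) f A (σ ∪ A) = 0 := by
          rw [hfc]
          rfl
        rw [cbd_of_subset ν _ _ Finset.subset_union_right] at h1
        have h2 : ∑ v ∈ A, sg ν ((σ ∪ A) \ A) v • P A (f (A.erase v) (σ ∪ A)) = 0 := by
          apply Finset.sum_eq_zero
          intro v hv
          rw [hf0 _ _ (by rw [Finset.card_erase_of_mem hv]; have := Finset.card_pos.2 ⟨v, hv⟩; omega),
            map_zero, smul_zero]
        have h3 : (σ ∪ A) \ A = σ := Finset.union_sdiff_cancel_right hd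
        rw [h2, sub_zero, h3] at h1
        rw [← h1]
        symm
        apply Finset.sum_subset_zero_on_sdiff
        · exact Finset.compl_subset_compl.2 Finset.subset_union_left
        · intro v hv
          rw [Finset.mem_sdiff, Finset.mem_compl, Finset.mem_compl, not_not, Finset.mem_union] at hv
          have hvA : v ∈ A := hv.2.resolve_left hv.1
          have : c A (insert v σ) = 0 := if_neg fun h =>
            Finset.disjoint_left.1 h (Finset.mem_insert_self v σ) hvA
          rw [this, smul_zero]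
        · intro v hv
          rw [Finset.mem_compl, Finset.mem_union, not_or] at hv
          have : c A (insert v σ) = f A (insert v σ ∪ A) := if_pos (by
            rw [Finset.disjoint_insert_left]
            exact ⟨hv.2, hd⟩)
          rw [this, Finset.insert_union]
      have hgc : ∀ A T, A.card + m < Fintype.card S + 1 → cbd ν (fun A => P A) g A T = f A T := by
        intro A T hA
        by_cases hAT : A ⊆ T
        swap
        · rw [cbd_of_not ν _ _ hAT]
          by_contra h0
          exact hAT (hf A T (Ne.symm h0)).1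
        rw [cbd_of_subset ν _ _ hAT]
        have h2 : ∑ v ∈ A, sg ν (T \ A) v • P A (g (A.erase v) T) = 0 := by
          apply Finset.sum_eq_zero
          intro v hv
          rw [hg0 _ _ (by rw [Finset.card_erase_of_mem hv]; have := Finset.card_pos.2 ⟨v, hv⟩; omega),
            map_zero, smul_zero]
        rw [h2, sub_zero]
        by_cases hA1 : A.card + m = Fintype.card S
        swap
        · rw [hf0 A T (by omega)]
          apply Finset.sum_eq_zero
          intro v _
          rw [hg0 _ _ hA1, smul_zero]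
        by_cases hAs : Sph A
        swap
        · have h3 : f A T = 0 := by
            by_contra h0
            exact hAs (hS _ _ hAT (hf A T h0).2.1)
          rw [h3]
          apply Finset.sum_eq_zero
          intro v _
          have : g A (insert v T) = 0 := if_neg fun h => hAs h.2.2
          rw [this, smul_zero]
        have h4 := (hη A hAs).2 (c A) (by
          intro σ h0
          by_cases hd : Disjoint σ A
          · have h5 : c A σ = f A (σ ∪ A) := if_pos hd
            rw [h5] at h0
            obtain ⟨_, h6, h7⟩ := hf _ _ h0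
            rw [Finset.union_sdiff_cancel_right hd] at h7
            exact ⟨h6, h7, hd⟩
          · exact absurd (if_neg hd) h0) (hcyc A hA1)
        have h5 := congrFun h4 (T \ A)
        have h6 : c A (T \ A) = f A T := by
          have : c A (T \ A) = f A (T \ A ∪ A) := if_pos Finset.sdiff_disjoint
          rw [this, Finset.sdiff_union_of_subset hAT]
        rw [h6] at h5
        rw [← h5]
        unfold bd
        apply Finset.sum_subset_zero_on_sdiff
        · exact Finset.compl_subset_compl.2 Finset.sdiff_subset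
        · intro v hv
          rw [Finset.mem_sdiff, Finset.mem_compl, Finset.mem_compl, not_not, Finset.mem_sdiff, not_and,
            not_not] at hv
          have hvA : v ∈ A := hv.1 hv.2
          have : ∑ τ, η A (insert v (T \ A)) τ • c A τ = 0 := by
            apply Finset.sum_eq_zero
            intro τ _
            have : η A (insert v (T \ A)) τ = 0 := by
              by_contra h0
              exact Finset.disjoint_left.1 ((hη A hAs).1 _ _ h0).2.2 (Finset.mem_insert_self _ _) hvA
            rw [this, zero_smul]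
          show sg ν (T \ A) v • ∑ τ, η A (insert v (T \ A)) τ • c A τ = 0
          rw [this, smul_zero]
        · intro v hv
          have hvT : v ∉ T := Finset.mem_compl.1 hv
          have h7 : g A (insert v T) = y A (insert v T \ A) :=
            if_pos ⟨hA1, hAT.trans (Finset.subset_insert v T), hAs⟩
          rw [h7, insert_sdiff fun h => hvT (hAT h)]
      obtain ⟨g₂, a1, a2, a3⟩ := ih (f - cbd ν (fun A => P A) g) (by
          intro A T h0
          by_cases h1 : f A T = 0
          · apply cbd_supp ν hS Pa i g hgch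
            intro h2
            apply h0
            show f A T - cbd ν (fun A => P A) g A T = 0
            rw [h1, show cbd ν (fun A => P A) g A T = 0 from h2, sub_zero]
          · exact hf _ _ h1) (by
          intro A T
          show P A (f A T - cbd ν (fun A => P A) g A T) = f A T - cbd ν (fun A => P A) g A T
          rw [map_sub, hfP]
          congr 1
          by_cases hAT : A ⊆ T
          · rw [cbd_of_subset ν _ _ hAT, map_sub, map_sum, map_sum]
            congr 1
            · apply Finset.sum_congr rfl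
              intro v _
              rw [map_zsmul, hgP]
            · apply Finset.sum_congr rfl
              intro v _
              rw [map_zsmul, hP1]
          · rw [cbd_of_not ν _ _ hAT, map_zero]) (by
          have h1 := cbd_sub ν Pa f (cbd ν (fun A => P A) g)
          have h2 := cbd_cbd ν hν Pa hP2 g
          refine h1.trans ?_
          rw [show cbd ν (fun A => Pa A) f = 0 from hfc,
            show cbd ν (fun A => Pa A) (cbd ν (fun A => P A) g) = 0 from h2, sub_zero]) (by
          intro A T hA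
          show f A T - cbd ν (fun A => P A) g A T = 0
          rw [hgc A T (by omega), sub_self])
      refine ⟨g + g₂, ?_, ?_, ?_⟩
      · intro A T h0
        by_cases h1 : g A T = 0
        · apply a1
          intro h2
          apply h0
          show g A T + g₂ A T = 0
          rw [h1, h2, add_zero]
        · exact hgch _ _ h1
      · intro A T
        show P A (g A T + g₂ A T) = g A T + g₂ A T
        rw [map_add, hgP, a2]
      · have h1 := cbd_add ν Pa g g₂
        refine h1.trans ?_
        rw [show cbd ν (fun A => Pa A) g₂ = f - cbd ν (fun A => P A) g from a3]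
        exact add_sub_cancel _ _
  intro f hf hfP hfc
  refine main (Fintype.card S + 1) f hf hfP hfc fun A T hA => ?_
  omega

/-- if all full subcomplexes are exact in the sizes `≥ i`, so are the links -/
theorem ex_links (Sph : Finset S → Prop) (hS : ∀ T U, T ⊆ U → Sph U → Sph T) (ν : S → ℕ)
    (hν : Function.Injective ν) (i : ℕ)
    (hL : ∀ j, i ≤ j → ∀ U : Finset S, Ex ℂ ν (fun σ => Sph σ ∧ σ.card = j ∧ σ ⊆ U)
      (fun σ => Sph σ ∧ σ.card = j + 1 ∧ σ ⊆ U)) (A : Finset S) :
    ∀ j, i ≤ j → ∀ U : Finset S, Ex ℂ ν (fun σ => Sph (σ ∪ A) ∧ σ.card = j ∧ Disjoint σ A ∧ σ ⊆ U)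
      (fun σ => Sph (σ ∪ A) ∧ σ.card = j + 1 ∧ Disjoint σ A ∧ σ ⊆ U) := by
  classical
  induction A using Finset.induction_on with
  | empty =>
    intro j hj U z hz hz0
    obtain ⟨y, h1, h2⟩ := hL j hj U z (fun σ h0 => by
      obtain ⟨a, b, _, d⟩ := hz σ h0
      rw [Finset.union_empty] at a
      exact ⟨a, b, d⟩) hz0
    refine ⟨y, fun σ h0 => ?_, h2⟩
    obtain ⟨a, b, d⟩ := h1 σ h0
    rw [Finset.union_empty]
    exact ⟨a, b, Finset.disjoint_empty_right _, d⟩
  | insert a A ha ih =>
    intro j hj U z hz hz0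
    have hza : ∀ σ, a ∈ σ → z σ = 0 := by
      intro σ hσ
      by_contra h0
      exact Finset.disjoint_left.1 (hz σ h0).2.2.1 hσ (Finset.mem_insert_self _ _)
    -- a filling which avoids `a`
    obtain ⟨y, hy1, hy2⟩ := ih j hj (U.erase a) z (by
      intro σ h0
      obtain ⟨h1, h2, h3, h4⟩ := hz σ h0
      refine ⟨hS _ _ (Finset.union_subset_union_right (Finset.subset_insert a A)) h1, h2,
        h3.mono_right (Finset.subset_insert a A), ?_⟩
      intro x hx
      refine Finset.mem_erase.2 ⟨?_, h4 hx⟩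
      rintro rfl
      exact h0 (hza σ hx)) hz0
    have hya : ∀ σ, a ∈ σ → y σ = 0 := by
      intro σ hσ
      by_contra h0
      exact (Finset.mem_erase.1 ((hy1 σ h0).2.2.2 hσ)).1 rfl
    -- the cone
    set w : Finset S → ℂ := fun σ => if a ∈ σ then (sg ν (σ.erase a) a : ℂ) * z (σ.erase a) else 0
      with hw
    have hw1 : ∀ σ, a ∉ σ → w σ = 0 := fun σ h => if_neg h
    have hw2 : ∀ σ, a ∉ σ → w (insert a σ) = (sg ν σ a : ℂ) * z σ := by
      intro σ h
      show (if a ∈ insert a σ then _ else _) = _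
      rw [if_pos (Finset.mem_insert_self _ _), Finset.erase_insert h]
    have hsq : ∀ (D : Finset S) (v : S), (sg ν D v : ℂ) * (sg ν D v : ℂ) = 1 := by
      intro D v
      have := sg_mul_sg ν D v
      exact_mod_cast this
    have hsw : ∀ (D : Finset S) (u v : S), u ∉ D → v ∉ D → u ≠ v →
        (sg ν D v : ℂ) * (sg ν (insert v D) u : ℂ) = -((sg ν D u : ℂ) * (sg ν (insert u D) v : ℂ)) := by
      intro D u v hu hv huv
      have := sg_swap ν hν D u v hu hv huv
      have h2 : (sg ν D v : ℂ) * (sg ν (insert v D) u : ℂ) + (sg ν D u : ℂ) * (sg ν (insert u D) v : ℂ)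
          = 0 := by exact_mod_cast this
      exact eq_neg_of_add_eq_zero_left h2
    have hbw : bd ν w = z := by
      funext σ
      unfold bd
      by_cases haσ : a ∈ σ
      · rw [hza σ haσ]
        set ρ := σ.erase a with hρ
        have haρ : a ∉ ρ := Finset.notMem_erase a σ
        have hσρ : σ = insert a ρ := (Finset.insert_erase haσ).symm
        have h1 : bd ν z ρ = 0 := by rw [hz0]; rfl
        unfold bd at h1
        have h2 : ∑ v ∈ σᶜ, sg ν σ v • w (insert v σ) = -((sg ν ρ a : ℂ) * ∑ v ∈ ρᶜ, sg ν ρ v •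
            z (insert v ρ)) := by
          rw [Finset.mul_sum, ← Finset.sum_neg_distrib]
          apply Finset.sum_subset_zero_on_sdiff
          · rw [hσρ]
            exact Finset.compl_subset_compl.2 (Finset.subset_insert a ρ)
          · intro v hv
            rw [Finset.mem_sdiff, Finset.mem_compl, Finset.mem_compl, not_not, hσρ,
              Finset.mem_insert] at hv
            have hva : v = a := hv.2.resolve_right hv.1
            rw [hza _ (by rw [hva]; exact Finset.mem_insert_self _ _), smul_zero, mul_zero, neg_zero]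
          · intro v hv
            rw [Finset.mem_compl, hσρ, Finset.mem_insert, not_or] at hv
            have h3 : insert v σ = insert a (insert v ρ) := by rw [hσρ, Finset.insert_comm]
            have h4 : a ∉ insert v ρ := by
              rw [Finset.mem_insert, not_or]
              exact ⟨Ne.symm hv.1, haρ⟩
            rw [h3, hw2 _ h4, zsmul_eq_mul, zsmul_eq_mul, hσρ, ← mul_assoc, ← mul_assoc, ← neg_mul]
            congr 1
            have e1 := hsw ρ v a hv.2 haρ hv.1
            have e2 := hsq ρ a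
            have e3 := hsq (insert v ρ) a
            -- multiply the relation by both signs
            calc (sg ν (insert a ρ) v : ℂ) * (sg ν (insert v ρ) a : ℂ)
                = ((sg ν ρ a : ℂ) * (sg ν ρ a : ℂ)) * ((sg ν (insert a ρ) v : ℂ)
                  * (sg ν (insert v ρ) a : ℂ)) := by rw [e2, one_mul]
              _ = (sg ν ρ a : ℂ) * ((sg ν ρ a : ℂ) * (sg ν (insert a ρ) v : ℂ))
                  * (sg ν (insert v ρ) a : ℂ) := by ring
              _ = -((sg ν ρ a : ℂ) * (sg ν ρ v : ℂ) * ((sg ν (insert v ρ) a : ℂ)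
                  * (sg ν (insert v ρ) a : ℂ))) := by rw [e1]; ring
              _ = -((sg ν ρ a : ℂ) * (sg ν ρ v : ℂ)) := by rw [e3, mul_one]
        rw [h2, h1, mul_zero, neg_zero]
      · rw [Finset.sum_eq_single a]
        · rw [hw2 σ haσ, zsmul_eq_mul, ← mul_assoc, hsq, one_mul]
        · intro v _ hva
          rw [hw1 _ (by
            rw [Finset.mem_insert, not_or]
            exact ⟨Ne.symm hva, haσ⟩), smul_zero]
        · intro h
          exact absurd (Finset.mem_compl.2 haσ) h
    obtain ⟨x, hx1, hx2⟩ := ih (j + 1) (by omega) (insert a U) (w - y) (by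
      intro σ h0
      by_cases haσ : a ∈ σ
      · set ρ := σ.erase a with hρ
        have haρ : a ∉ ρ := Finset.notMem_erase a σ
        have hσρ : σ = insert a ρ := (Finset.insert_erase haσ).symm
        have h1 : z ρ ≠ 0 := by
          intro h1
          apply h0
          show w σ - y σ = 0
          rw [hya σ haσ, hσρ, hw2 ρ haρ, h1, mul_zero, sub_zero]
        obtain ⟨h2, h3, h4, h5⟩ := hz ρ h1
        refine ⟨?_, ?_, ?_, ?_⟩
        · rw [hσρ, Finset.insert_union, ← Finset.union_insert]
          exact h2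
        · rw [hσρ, Finset.card_insert_of_notMem haρ, h3]
        · rw [hσρ, Finset.disjoint_insert_left]
          exact ⟨ha, h4.mono_right (Finset.subset_insert a A)⟩
        · rw [hσρ]
          exact Finset.insert_subset_insert a h5
      · have h1 : y σ ≠ 0 := by
          intro h1
          apply h0
          show w σ - y σ = 0
          rw [hw1 σ haσ, h1, sub_zero]
        obtain ⟨h2, h3, h4, h5⟩ := hy1 σ h1
        exact ⟨h2, h3, h4, (h5.trans (Finset.erase_subset a U)).trans (Finset.subset_insert a U)⟩) (by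
      have e1 : w - y = w + -y := sub_eq_add_neg w y
      have e2 : bd ν (-y) = -bd ν y := by
        funext σ
        unfold bd
        simp only [Pi.neg_apply, smul_neg, Finset.sum_neg_distrib]
      rw [e1, bd_add, e2, hbw, hy2, add_neg_cancel])
    refine ⟨fun σ => if a ∈ σ then 0 else -((sg ν σ a : ℂ) * x (insert a σ)), ?_, ?_⟩
    · intro σ h0
      by_cases haσ : a ∈ σ
      · exact absurd (if_pos haσ) h0
      · have h1 : x (insert a σ) ≠ 0 := by
          intro h1
          apply h0
          show (if a ∈ σ then (0 : ℂ) else _) = 0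
          rw [if_neg haσ, h1, mul_zero, neg_zero]
        obtain ⟨h2, h3, h4, h5⟩ := hx1 _ h1
        rw [Finset.card_insert_of_notMem haσ] at h3
        rw [Finset.insert_union, ← Finset.union_insert] at h2
        refine ⟨h2, by omega, ?_, ?_⟩
        · rw [Finset.disjoint_insert_right]
          exact ⟨haσ, h4.mono_left (Finset.subset_insert a σ)⟩
        · intro t ht
          rcases Finset.mem_insert.1 (h5 (Finset.mem_insert_of_mem ht)) with rfl | h
          · exact absurd ht haσ
          · exact h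
    · funext σ
      unfold bd
      by_cases haσ : a ∈ σ
      · rw [hza σ haσ]
        apply Finset.sum_eq_zero
        intro v _
        show sg ν σ v • (if a ∈ insert v σ then (0 : ℂ) else
          -((sg ν (insert v σ) a : ℂ) * x (insert a (insert v σ)))) = 0
        rw [if_pos (Finset.mem_insert_of_mem haσ), smul_zero]
      · have h1 : bd ν x (insert a σ) = (sg ν σ a : ℂ) * z σ := by
          rw [hx2]
          show w (insert a σ) - y (insert a σ) = _
          rw [hw2 σ haσ, hya _ (Finset.mem_insert_self _ _), sub_zero]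
        have h2 : z σ = (sg ν σ a : ℂ) * bd ν x (insert a σ) := by
          rw [h1, ← mul_assoc, hsq, one_mul]
        rw [h2]
        unfold bd
        rw [Finset.mul_sum]
        symm
        apply Finset.sum_subset_zero_on_sdiff
        · exact Finset.compl_subset_compl.2 (Finset.subset_insert a σ)
        · intro v hv
          rw [Finset.mem_sdiff, Finset.mem_compl, Finset.mem_compl, not_not, Finset.mem_insert] at hv
          have hva : v = a := hv.2.resolve_right hv.1
          show sg ν σ v • (if a ∈ insert v σ then (0 : ℂ) else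
            -((sg ν (insert v σ) a : ℂ) * x (insert a (insert v σ)))) = 0
          rw [if_pos (by rw [hva]; exact Finset.mem_insert_self _ _), smul_zero]
        · intro v hv
          rw [Finset.mem_compl, Finset.mem_insert, not_or] at hv
          have h4 : a ∉ insert v σ := by
            rw [Finset.mem_insert, not_or]
            exact ⟨Ne.symm hv.1, haσ⟩
          show (sg ν σ a : ℂ) * (sg ν (insert a σ) v • x (insert v (insert a σ)))
            = sg ν σ v • (if a ∈ insert v σ then (0 : ℂ) else
            -((sg ν (insert v σ) a : ℂ) * x (insert a (insert v σ))))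
          rw [if_neg h4, zsmul_eq_mul, zsmul_eq_mul, Finset.insert_comm v a σ, ← mul_assoc]
          have e1 := hsw σ v a hv.2 haσ hv.1
          rw [e1]
          ring

end Pool.Agent.H8.BD

end

section

/-!
# Project BD: from the homology of the nerves modulo two to complex coefficients

`ex_of_sub`: if the mod 2 homology of the nerve of `sub M U` vanishes in size `j`, the complex chains of the nerve of
`M` on the subsets of `U` are exact in size `j`.
-/

set_option autoImplicit false
set_option linter.unusedSectionVars false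

open Finset

namespace Pool.Agent.H4.BD

open Pool.Agent.H4.FC Pool.Agent.H78.RC Pool.Agent.H73.LK Pool.Agent.H93.AA Pool.Agent.H78.RA

private theorem coh_mem {V : Type} {Y : Finset V} {τ : Finset {v // v ∈ Y}} {v : V} :
    v ∈ τ.map (ind_emb Y) ↔ ∃ h : v ∈ Y, (⟨v, h⟩ : {v // v ∈ Y}) ∈ τ := by
  rw [mem_map]
  constructor
  · rintro ⟨w, hw, rfl⟩
    exact ⟨w.2, hw⟩
  · rintro ⟨h, hw⟩
    exact ⟨⟨v, h⟩, hw, rfl⟩

private theorem coh_par {V : Type} (M : CoxeterMatrix V) (Y : Finset V) (σ : Finset {v // v ∈ Y}) :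
    (par (sub M Y) σ).map (ind_hom M Y) = par M (σ.map (ind_emb Y)) := by
  unfold par
  rw [MonoidHom.map_closure]
  congr 1
  ext w
  constructor
  · rintro ⟨x, ⟨v, hv, rfl⟩, rfl⟩
    exact ⟨v.1, coh_mem.2 ⟨v.2, hv⟩, (ind_hom_simple M Y v).symm⟩
  · rintro ⟨v, hv, rfl⟩
    obtain ⟨h, hw⟩ := coh_mem.1 hv
    exact ⟨(sub M Y).simple ⟨v, h⟩, ⟨⟨v, h⟩, hw, rfl⟩, ind_hom_simple M Y ⟨v, h⟩⟩

private theorem coh_sph {V : Type} [Fintype V] [DecidableEq V] {M : CoxeterMatrix V} {Y : Finset V}
    {σ : Finset {v // v ∈ Y}} : Sph (sub M Y) σ ↔ Sph M (σ.map (ind_emb Y)) := by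
  unfold Sph
  rw [← coh_par]
  exact ((par (sub M Y) σ).equivMapOfInjective _ (ind_hom_injective M Y)).toEquiv.finite_iff

theorem ex_of_sub {S : Type} [Fintype S] [DecidableEq S] {M : CoxeterMatrix S} {j : ℕ}
    (U : Finset S) (h : HL (sub M U) j) {ν : S → ℕ} (hν : Function.Injective ν) :
    Ex ℂ ν (fun σ => Sph M σ ∧ σ.card = j ∧ σ ⊆ U)
      (fun σ => Sph M σ ∧ σ.card = j + 1 ∧ σ ⊆ U) := by
  classical
  apply ex_two ν hν
  · rintro τ v hv ⟨h1, h2, h3⟩
    refine ⟨h1.mono (Finset.subset_insert _ _), ?_, (Finset.subset_insert _ _).trans h3⟩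
    rw [Finset.card_insert_of_notMem hv] at h2
    omega
  intro z hz hz0
  -- sums over the complement
  have hsum : ∀ (c : Finset S → ZMod 2), (∀ σ, c σ ≠ 0 → σ ⊆ U) → ∀ T : Finset {v // v ∈ U},
      ∑ v ∈ Tᶜ, c ((insert v T).map (ind_emb U))
        = ∑ v ∈ (T.map (ind_emb U))ᶜ, c (insert v (T.map (ind_emb U))) := by
    intro c hc T
    have h1 : ∀ v ∈ Tᶜ, c ((insert v T).map (ind_emb U))
        = (fun u => c (insert u (T.map (ind_emb U)))) (ind_emb U v) := by
      intro v _
      rw [Finset.map_insert]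
    rw [Finset.sum_congr rfl h1, ← Finset.sum_map Tᶜ (ind_emb U)
      (fun u => c (insert u (T.map (ind_emb U))))]
    apply Finset.sum_subset
    · intro v hv
      obtain ⟨hU, hw⟩ := coh_mem.1 hv
      rw [Finset.mem_compl] at hw ⊢
      intro h2
      obtain ⟨_, h3⟩ := coh_mem.1 h2
      exact hw h3
    · intro v hv hv'
      by_contra h0
      have h2 := hc _ h0
      have hU : v ∈ U := h2 (Finset.mem_insert_self _ _)
      apply hv'
      rw [coh_mem]
      refine ⟨hU, ?_⟩
      rw [Finset.mem_compl] at hv ⊢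
      intro h3
      exact hv (coh_mem.2 ⟨hU, h3⟩)
  have hb : ∀ (c : Finset S → ZMod 2) τ, bd ν c τ = ∑ v ∈ τᶜ, c (insert v τ) := fun c τ => bd_two ν c τ
  have hmapsub : ∀ T : Finset {v // v ∈ U}, T.map (ind_emb U) ⊆ U := fun T v hv =>
    (coh_mem.1 hv).1
  obtain ⟨y, hy1, hy2⟩ := h (fun T => z (T.map (ind_emb U))) (by
    intro T h0
    obtain ⟨a, b, _⟩ := hz _ h0
    rw [Finset.card_map] at b
    exact ⟨coh_sph.2 a, b⟩) (by
    intro T
    have h1 := hsum z (fun σ h0 => (hz σ h0).2.2) T
    rw [← hb, hz0] at h1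
    have h2 : ∑ v ∈ Tᶜ, z ((insert v T).map (ind_emb U)) = 0 := h1
    rw [← h2])
  -- the preimage
  set pr : Finset S → Finset {v // v ∈ U} := fun σ => univ.filter fun w => w.1 ∈ σ with hpr
  have hpm : ∀ T : Finset {v // v ∈ U}, pr (T.map (ind_emb U)) = T := by
    intro T
    ext w
    rw [hpr, Finset.mem_filter, coh_mem]
    exact ⟨fun ⟨_, _, h2⟩ => h2, fun h => ⟨Finset.mem_univ _, w.2, h⟩⟩
  have hmp : ∀ σ, σ ⊆ U → (pr σ).map (ind_emb U) = σ := by
    intro σ hσ
    ext v
    rw [coh_mem]
    constructor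
    · rintro ⟨h1, h2⟩
      exact (Finset.mem_filter.1 h2).2
    · intro h1
      exact ⟨hσ h1, Finset.mem_filter.2 ⟨Finset.mem_univ _, h1⟩⟩
  refine ⟨fun σ => if σ ⊆ U then y (pr σ) else 0, ?_, ?_⟩
  · intro σ h0
    by_cases hσ : σ ⊆ U
    · have h1 : y (pr σ) ≠ 0 := by
        intro h1
        apply h0
        show (if σ ⊆ U then y (pr σ) else 0) = 0
        rw [if_pos hσ, h1]
      obtain ⟨a, b⟩ := hy1 _ h1
      have h2 := hmp σ hσ
      refine ⟨?_, ?_, hσ⟩
      · rw [← h2]
        exact coh_sph.1 a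
      · rw [← h2, Finset.card_map]
        exact b
    · exact absurd (if_neg hσ) h0
  · funext τ
    rw [hb]
    by_cases hτ : τ ⊆ U
    · have h1 := hsum (fun σ => if σ ⊆ U then y (pr σ) else 0) (fun σ h0 => by
        by_contra h1
        exact h0 (if_neg h1)) (pr τ)
      rw [hmp τ hτ] at h1
      have h2 : ∑ v ∈ τᶜ, (if insert v τ ⊆ U then y (pr (insert v τ)) else 0)
          = ∑ v ∈ (pr τ)ᶜ, y (insert v (pr τ)) := by
        refine h1.symm.trans ?_
        apply Finset.sum_congr rfl
        intro v _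
        rw [if_pos (hmapsub _), hpm]
      refine h2.trans ?_
      have h3 := hy2 (pr τ)
      rw [hmp τ hτ] at h3
      rw [← h3]
    · have h1 : z τ = 0 := by
        by_contra h0
        exact hτ (hz τ h0).2.2
      rw [h1]
      apply Finset.sum_eq_zero
      intro v _
      exact if_neg fun h2 => hτ ((Finset.subset_insert _ _).trans h2)

end Pool.Agent.H4.BD

end

section

/-!
# Project BD: vanishing of the homology of the nerve from the vanishing of the pairing
-/

set_option autoImplicit false

open Finset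

namespace Pool.Agent.H4.BD

open Pool.Agent.H4.FC Pool.Agent.H93.AA

section

variable {S : Type} [Fintype S] [DecidableEq S]

/-- the boundary as a linear map -/
private def bdp : (Finset S → ZMod 2) →ₗ[ZMod 2] (Finset S → ZMod 2) where
  toFun y s := ∑ v ∈ sᶜ, y (insert v s)
  map_add' f g := by
    funext s
    simp only [Pi.add_apply, sum_add_distrib]
  map_smul' c f := by
    funext s
    simp only [Pi.smul_apply, RingHom.id_apply, smul_sum]

private theorem bdp_apply (y : Finset S → ZMod 2) (s : Finset S) :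
    bdp y s = ∑ v ∈ sᶜ, y (insert v s) := rfl

private theorem bdp_single (s : Finset S) :
    bdp (Pi.single s (1 : ZMod 2)) = ∑ v ∈ s, Pi.single (s.erase v) (1 : ZMod 2) := by
  classical
  funext t
  rw [bdp_apply, Finset.sum_apply]
  simp only [Pi.single_apply]
  rw [← sum_filter, ← sum_filter, sum_const, sum_const]
  congr 1
  congr 1
  ext v
  simp only [mem_filter, mem_compl]
  constructor
  · rintro ⟨h1, h2⟩
    subst h2
    exact ⟨mem_insert_self v t, (erase_insert h1).symm⟩
  · rintro ⟨h1, h2⟩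
    subst h2
    exact ⟨notMem_erase v s, insert_erase h1⟩

/-- the chains on the spherical sets with `j` elements -/
private def chp (M : CoxeterMatrix S) (j : ℕ) : Submodule (ZMod 2) (Finset S → ZMod 2) where
  carrier := {y | ∀ s, y s ≠ 0 → Sph M s ∧ s.card = j}
  zero_mem' := fun s h => absurd rfl h
  add_mem' := by
    intro y z hy hz s h
    by_cases h1 : y s = 0
    · by_cases h2 : z s = 0
      · exact absurd (by rw [Pi.add_apply, h1, h2, add_zero]) h
      · exact hz s h2
    · exact hy s h1
  smul_mem' := by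
    intro c y hy s h
    refine hy s fun h1 => h ?_
    rw [Pi.smul_apply, h1, smul_zero]

end

/-- If all cycles on the spherical sets with `j` elements are orthogonal to the cocycles, then they are
boundaries. -/
theorem hl_of_pairing {S : Type} [Fintype S] [DecidableEq S] (M : CoxeterMatrix S) (j : ℕ)
    (h : ∀ x z : Finset S → ZMod 2,
      (∀ D, Sph M D → D.card = j + 1 → ∑ v ∈ D, x (D.erase v) = 0) →
      (∀ T, z T ≠ 0 → Sph M T ∧ T.card = j) → (∀ T, ∑ v ∈ Tᶜ, z (insert v T) = 0) →
      ∑ T, x T * z T = 0) : HL M j := by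
  intro z hz hdz
  by_contra hcon
  have hnot : z ∉ (chp M (j + 1)).map bdp := by
    rintro ⟨y, hy, hyz⟩
    exact hcon ⟨y, hy, fun s => by rw [← hyz]; rfl⟩
  obtain ⟨φ, hφ, hker⟩ := Submodule.exists_le_ker_of_notMem hnot
  refine hφ ?_
  have h1 : ∀ f : Finset S → ZMod 2, φ f = ∑ s, φ (Pi.single s 1) * f s := by
    intro f
    have h2 : f = ∑ s, f s • (Pi.single s (1 : ZMod 2) : Finset S → ZMod 2) := by
      funext t
      rw [Finset.sum_apply, Finset.sum_eq_single t]
      · rw [Pi.smul_apply, Pi.single_eq_same, smul_eq_mul, mul_one]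
      · intro s _ hs
        rw [Pi.smul_apply, Pi.single_eq_of_ne (Ne.symm hs), smul_zero]
      · exact fun h => absurd (mem_univ t) h
    conv_lhs => rw [h2]
    rw [map_sum]
    exact sum_congr rfl fun s _ => by rw [map_smul, smul_eq_mul, mul_comm]
  rw [h1]
  refine h _ z (fun s hs hc => ?_) hz hdz
  rw [← map_sum, ← bdp_single]
  refine hker ⟨_, fun t ht => ?_, rfl⟩
  by_cases hts : t = s
  · subst hts
    exact ⟨hs, hc⟩
  · exact absurd (Pi.single_eq_of_ne hts _) ht

end Pool.Agent.H4.BD

end

section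

/-!
# Project BD: Q1 for lattices of buildings. Definitions

`M : CoxeterMatrix S` (`S` finite), `W = M.Group`, `len` the length, `par M J` the parabolic subgroup `W_J`,
`Sph M J`: it is finite, `parF M J` its elements, `HL M j` the vanishing of the mod 2 homology of the nerve,
`nG M` the graph on the irreducible spherical sets `Irr M` (nested or orthogonal), `IsBuilding M δ`,
`residue M δ J x`.
-/

set_option autoImplicit false

open Finset

namespace Pool.Agent.H4.BD

open Pool.Agent.H4.FC Pool.Agent.H97.BLD Pool.Agent.H37.TM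

/-! ### Functions on pairs of cells -/

section gen

/-- the coboundary of a function on pairs of cells; `bd` is the boundary of a cell -/
noncomputable def dX {X : Type} (bd : X → (X →₀ ZMod 2)) (φ : X → X → ZMod 2) (x y : X) : ZMod 2 :=
  lin (fun x' => φ x' y) (bd x) + lin (fun y' => φ x y') (bd y)

/-- `y` is obtained from `x` by taking faces several times -/
def Rch {X : Type} (bd : X → (X →₀ ZMod 2)) : X → X → Prop :=
  Relation.ReflTransGen fun x y => bd x y ≠ 0

/-- the coboundary of a function on lists -/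
def dL {P : Type} (h : List P → ZMod 2) (l : List P) : ZMod 2 :=
  ∑ i ∈ range l.length, h (l.eraseIdx i)

end gen

/-! ### The Coxeter group -/

section cox

variable {S : Type} [Fintype S] [DecidableEq S]

open Classical in
/-- the first letters of `w` (the left descents) -/
noncomputable def fl (M : CoxeterMatrix S) (w : M.Group) : Finset S :=
  univ.filter fun s => len M (M.simple s * w) < len M w

omit [Fintype S] [DecidableEq S] in
/-- all elements of `T` are right descents of `z`: `z` is the longest element of the coset `z W_T` -/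
def Mx (M : CoxeterMatrix S) (T : Finset S) (z : M.Group) : Prop :=
  ∀ t ∈ T, len M (z * M.simple t) < len M z

open Classical in
omit [Fintype S] [DecidableEq S] in
/-- the longest elements of the cosets of `W_J` in the coset `z W_T` -/
noncomputable def cs (M : CoxeterMatrix S) (z : M.Group) (T J : Finset S) : Finset M.Group :=
  ((parF M T).image fun u => z * u).filter fun y => Mx M J y

/-- the labels which are allowed at the letters -/
class VLb (S Lb : Type) : Type where
  /-- the label `q.2` is allowed at the letter `q.1` -/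
  vl : S × Lb → Prop

variable {Lb : Type} [DecidableEq Lb] [VLb S Lb]

omit [Fintype S] [DecidableEq S] [DecidableEq Lb] in
/-- `a` is a labelling of the set of letters `A`: one label for every letter -/
def Lab (A : Finset S) (a : Finset (S × Lb)) : Prop :=
  (∀ q ∈ a, q.1 ∈ A) ∧ ∀ t ∈ A, ∃! j, (t, j) ∈ a

omit [Fintype S] [DecidableEq Lb] in
/-- the labels of the letters in `X` -/
def rs (X : Finset S) (a : Finset (S × Lb)) : Finset (S × Lb) := a.filter fun q => q.1 ∈ X

/-- cells `(z, s, a)`: a coset `z W_s` (`z` its longest element), and labels `a` of the letters `fl M z` -/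
abbrev Cel (M : CoxeterMatrix S) (Lb : Type) := M.Group × Finset S × Finset (S × Lb)

omit [DecidableEq Lb] in
/-- the face of a cell in the direction `v`, `y` the longest element of a coset of `W_(s \ v)` in `z W_s` -/
noncomputable def face (M : CoxeterMatrix S) (c : Cel M Lb) (v : S) (y : M.Group) : Cel M Lb :=
  (y, c.2.1.erase v, rs (fl M y) c.2.2)

omit [DecidableEq Lb] in
/-- the boundary of a cell -/
noncomputable def bdC (M : CoxeterMatrix S) (c : Cel M Lb) : Cel M Lb →₀ ZMod 2 :=
  ∑ v ∈ c.2.1, ∑ y ∈ cs M c.1 c.2.1 (c.2.1.erase v), Finsupp.single (face M c v y) 1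

/-- the cells which occur: the labels are allowed -/
def Vld (M : CoxeterMatrix S) (c : Cel M Lb) : Prop :=
  Sph M c.2.1 ∧ Mx M c.2.1 c.1 ∧ Lab (fl M c.1) c.2.2 ∧ ∀ q ∈ c.2.2, VLb.vl q

/-- the pairs of cells which occur: no common labelled letter -/
def Ok (M : CoxeterMatrix S) (c c' : Cel M Lb) : Prop := Vld M c ∧ Vld M c' ∧ Disjoint c.2.2 c'.2.2

omit [Fintype S] [DecidableEq S] [DecidableEq Lb] in
/-- the base cell -/
def b0 (M : CoxeterMatrix S) (Lb : Type) : Cel M Lb := (1, ∅, ∅)

omit [Fintype S] [DecidableEq S] [DecidableEq Lb] in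
/-- only finitely many pairs of cosets occur -/
def FinS {M : CoxeterMatrix S} (φ : Cel M Lb → Cel M Lb → ZMod 2) : Prop :=
  {q : M.Group × M.Group | ∃ s a t b, φ (q.1, s, a) (q.2, t, b) ≠ 0}.Finite

/-- Coherent coefficients on the pairs of labelled simplices of the nerve. -/
structure IsCoef (M : CoxeterMatrix S)
    (Q : (Finset (S × Lb) → Finset (S × Lb) → ZMod 2) → Finset S → Finset S → ZMod 2) : Prop where
  add : ∀ g g' A B, Q (fun a b => g a b + g' a b) A B = Q g A B + Q g' A B
  congr : ∀ g g' A B, Sph M A → Sph M B →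
    (∀ a b, Lab A a → Lab B b → (∀ q ∈ a, VLb.vl q) → (∀ q ∈ b, VLb.vl q) → Disjoint a b →
      g a b = g' a b) → Q g A B = Q g' A B
  left : ∀ g A A' B, Sph M A → Sph M B → A' ⊆ A → Q (fun a b => g (rs A' a) b) A B = Q g A' B
  right : ∀ g A B B', Sph M A → Sph M B → B' ⊆ B → Q (fun a b => g a (rs B' b)) A B = Q g A B'
  swap : ∀ g A B, Q g A B = Q (fun a b => g b a) B A

open Classical in
/-- the sum over all pairs of cells of the types `s`, `t` -/
noncomputable def KK (M : CoxeterMatrix S)
    (Q : (Finset (S × Lb) → Finset (S × Lb) → ZMod 2) → Finset S → Finset S → ZMod 2)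
    (φ : Cel M Lb → Cel M Lb → ZMod 2) (s t : Finset S) : ZMod 2 :=
  ∑ᶠ q : M.Group × M.Group, if Mx M s q.1 ∧ Mx M t q.2 then
    Q (fun a b => φ (q.1, s, a) (q.2, t, b)) (fl M q.1) (fl M q.2) else 0

end cox

/-! ### The building -/

section bld

variable {S Δ : Type}

/-- All panels are finite; the panel of type `s` of the chamber `c` has `q s c + 1` chambers. -/
def Reg (M : CoxeterMatrix S) (δ : Δ → Δ → M.Group) (q : S → Δ → ℕ) : Prop :=
  ∀ s c, {d | δ c d = M.simple s}.Finite ∧ {d | δ c d = M.simple s}.ncard = q s c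

/-- A set of chambers, closed towards `c`, which contains all the outer chambers of a panel with a new first
letter, and an odd number of the outer chambers of the other panels. -/
structure Sel (M : CoxeterMatrix S) (δ : Δ → Δ → M.Group) (c : Δ) (C : Set Δ) : Prop where
  base : c ∈ C
  down : ∀ x y u, δ x y = M.simple u → len M (δ c y) = len M (δ c x) + 1 → y ∈ C → x ∈ C
  new : ∀ x ∈ C, ∀ u t y, δ x y = M.simple u → len M (δ c x * M.simple u) = len M (δ c x) + 1 →
    M.simple t * δ c x = δ c x * M.simple u → y ∈ C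
  odd : ∀ x ∈ C, ∀ u, len M (δ c x * M.simple u) = len M (δ c x) + 1 →
    (∀ t, M.simple t * δ c x ≠ δ c x * M.simple u) → Odd {y | y ∈ C ∧ δ x y = M.simple u}.ncard

/-- the labels are neighbours of `c`, the allowed labels of a letter are different neighbours -/
def LabOk {Lb : Type} [VLb S Lb] (M : CoxeterMatrix S) (δ : Δ → Δ → M.Group) (c : Δ)
    (lab : S × Lb → Δ) : Prop :=
  (∀ q, δ c (lab q) = M.simple q.1) ∧
    ∀ t j j', VLb.vl (t, j) → VLb.vl (t, j') → lab (t, j) = lab (t, j') → j = j'

/-- the chambers in the set `C` over the coset of the cell, with the first letters labelled as in the cell -/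
def XX {Lb : Type} (M : CoxeterMatrix S) (δ : Δ → Δ → M.Group) (c : Δ) (lab : S × Lb → Δ) (C : Set Δ)
    (e : Cel M Lb) : Set Δ :=
  {x | x ∈ C ∧ e.1⁻¹ * δ c x ∈ par M e.2.1 ∧ ∀ q ∈ e.2.2, δ (lab q) x = M.simple q.1 * δ c x}

/-- Points of the group for the residues. -/
structure IsRr {P : Type} [Group P] (M : CoxeterMatrix S) (δ : Δ → Δ → M.Group)
    (rr : Finset S → Δ → P) : Prop where
  const : ∀ T x y, δ x y ∈ par M T → rr T x = rr T y
  near : ∃ E : Finset P, ∀ T x, Sph M T → (rr ∅ x)⁻¹ * rr T x ∈ E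
  far : ∀ E : Finset P, ∃ N : ℕ, ∀ x y, (rr ∅ x)⁻¹ * rr ∅ y ∈ E → len M (δ x y) ≤ N

end bld

section bld2

variable {S Δ : Type} [Fintype S] [DecidableEq S] {Lb : Type} [DecidableEq Lb] [VLb S Lb]

/-- The sum of the function `h` over the simplices `(R_∅(x), R_(T1)(x), …, R_s(x))`, `∅ ⊂ T1 ⊂ … ⊂ s` a maximal
flag, of the cube of the chamber `x` in the directions `s`. -/
noncomputable def cb {P : Type} (rr : Finset S → Δ → P) (x : Δ) (s : Finset S)
    (h : List P → ZMod 2) : ZMod 2 :=
  if s = ∅ then h [rr ∅ x] else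
    ∑ v ∈ s.attach, cb rr x (s.erase v.1) (fun l => h (l ++ [rr s x]))
termination_by s.card
decreasing_by exact card_erase_lt_of_mem v.2

open Classical in
/-- the intersection numbers of the cells of the building -/
noncomputable def hh {P : Type} (M : CoxeterMatrix S) (δ : Δ → Δ → M.Group) (c : Δ)
    (lab : S × Lb → Δ) (C : Set Δ) (rr : Finset S → Δ → P) (H : List P → List P → ZMod 2)
    (e e' : Cel M Lb) : ZMod 2 :=
  if Ok M e e' then ∑ᶠ x ∈ XX M δ c lab C e, ∑ᶠ y ∈ XX M δ c lab C e',
    cb rr x e.2.1 (fun l => cb rr y e'.2.1 (fun l' => H l l')) else 0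

end bld2

/-! ### Projections on the functions constant on residues -/

end Pool.Agent.H4.BD

end

section

/-!
# Project BD: coarse embeddings

Points of the group for the residues, moved with a coarse embedding of the group.
-/

set_option autoImplicit false
set_option linter.unusedSectionVars false

open Finset

namespace Pool.Agent.H4.BD

open Pool.Agent.H4.FC Pool.Agent.H97.BLD Pool.Agent.H10.CI

theorem IsRr.comp {S Δ P Λ : Type} [Group P] [Group Λ] {M : CoxeterMatrix S}
    {δ : Δ → Δ → M.Group} {rr : Finset S → Δ → P} (h : IsRr M δ rr) {f : P → Λ}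
    (hf : CoarseEmb f) : IsRr M δ fun T x => f (rr T x) := by
  classical
  have key : ∀ x y : P, x * (x⁻¹ * y) = y := fun x y => mul_inv_cancel_left x y
  refine ⟨fun T x y hxy => congrArg f (h.const T x y hxy), ?_, ?_⟩
  · obtain ⟨E, hE⟩ := h.near
    have h1 : (⋃ a ∈ (E : Set P), {z : Λ | ∃ g : P, (f g)⁻¹ * f (g * a) = z}).Finite :=
      E.finite_toSet.biUnion fun a _ => hf.lip a
    refine ⟨h1.toFinset, fun T x hT => ?_⟩
    rw [Set.Finite.mem_toFinset, Set.mem_iUnion₂]
    exact ⟨_, hE T x hT, rr ∅ x, by rw [key]⟩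
  · intro E
    obtain ⟨N, hN⟩ := h.far (hf.prop_fin E.finite_toSet).toFinset
    refine ⟨N, fun x y hxy => hN x y ?_⟩
    rw [Set.Finite.mem_toFinset]
    exact ⟨rr ∅ x, by rw [key]; exact hxy⟩

end Pool.Agent.H4.BD

end

section

/-!
# Project BD: the homotopy, abstract form

PROOF. Recursion on `sz x + sz y`: `φ x y = if WellOrderingRel x y ∧ Ok x y then D x y + dX bd φ x y else 0` (the faces have
smaller `sz`; for example construct by induction on `m` functions `φ_m` which are correct for `sz x + sz y ≤ m`, or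
`WellFounded.fix`). For `Ok x y`, `x ≠ y`, one of the two orders holds; say `x < y`: `φ x y = D x y + dX φ x y`, `φ y x = 0`.
The identity for `(x, y)` is the definition; for `(y, x)`: `D y x = D x y + dX D x y` (`hD`),
`dX D x y = ∑ (D f f') over the faces = ∑ (φ f f' + φ f' f + dX φ f f') = dX φ x y + dX φ y x + 0` (`dX (dX φ) = 0` from `hbd`, the
mixed terms cancel in pairs; induction for the faces, which are Ok by `hface`, `hsymm`). `x = y`: `x = b`, `dX φ b b = 0`.
Support: induction: `φ x y ≠ 0` gives `D x y ≠ 0` or a face pair with `φ ≠ 0`. (Compare H65/BU/Half, H65/RM/Sys.)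
-/

set_option autoImplicit false

open Finset

namespace Pool.Agent.H4.BD

open Pool.Agent.H37.TM

/-- the order of the summations -/
private theorem lin_comm {X Y : Type} (f : X → Y → ZMod 2) (a : X →₀ ZMod 2) (b : Y →₀ ZMod 2) :
    lin (fun x => lin (fun y => f x y) b) a = lin (fun y => lin (fun x => f x y) a) b := by
  unfold lin
  simp only [Finsupp.linearCombination_apply, Finsupp.sum, smul_sum]
  rw [sum_comm]
  refine sum_congr rfl fun y _ => sum_congr rfl fun x _ => ?_
  simp only [smul_eq_mul]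
  ring

private theorem lin_ne_hx {X : Type} {f : X → ZMod 2} {a : X →₀ ZMod 2} (h : lin f a ≠ 0) :
    ∃ x, a x ≠ 0 ∧ f x ≠ 0 := by
  by_contra hc
  push Not at hc
  refine h ?_
  have h1 : lin f a = lin (fun _ : X => (0 : ZMod 2)) a :=
    lin_congr fun c hc' => (hc c hc').symm ▸ rfl
  rw [h1]
  unfold lin
  rw [Finsupp.linearCombination_apply]
  exact sum_eq_zero fun x _ => smul_zero _

private theorem dX_congr {X : Type} {bd : X → (X →₀ ZMod 2)} {φ ψ : X → X → ZMod 2} {x y : X}
    (h1 : ∀ x', bd x x' ≠ 0 → φ x' y = ψ x' y) (h2 : ∀ y', bd y y' ≠ 0 → φ x y' = ψ x y') :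
    dX bd φ x y = dX bd ψ x y := by
  unfold dX
  rw [lin_congr fun c hc => h1 c hc, lin_congr fun c hc => h2 c hc]

theorem exists_halfX {X : Type} (sz : X → ℕ) (bd : X → (X →₀ ZMod 2)) (Ok : X → X → Prop)
    (hsymm : ∀ x y, Ok x y → Ok y x) (hface : ∀ x y x', Ok x y → bd x x' ≠ 0 → Ok x' y)
    (hsz : ∀ x y x', Ok x y → bd x x' ≠ 0 → sz x' < sz x)
    (hbd : ∀ x y, Ok x y → lin bd (bd x) = 0)
    (b : X) (hfix : ∀ x, Ok x x → x = b) (hb : bd b = 0)
    (D : X → X → ZMod 2) (hD : ∀ x y, Ok x y → dX bd D x y = D x y + D y x) (h0 : D b b = 0) :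
    ∃ φ : X → X → ZMod 2,
      (∀ x y, Ok x y → D x y = φ x y + φ y x + dX bd φ x y) ∧
      ∀ x y, φ x y ≠ 0 → ∃ x' y', Rch bd x x' ∧ Rch bd y y' ∧ D x' y' ≠ 0 := by
  classical
  -- the function, by recursion
  obtain ⟨φ, hφ⟩ : ∃ φ : X → X → ZMod 2, ∀ x y, φ x y =
      if WellOrderingRel x y ∧ Ok x y then D x y + dX bd φ x y else 0 := by
    let wf : WellFounded fun p q : X × X => sz p.1 + sz p.2 < sz q.1 + sz q.2 :=
      (measure fun p : X × X => sz p.1 + sz p.2).wf
    let F : (p : X × X) → ((q : X × X) → sz q.1 + sz q.2 < sz p.1 + sz p.2 → ZMod 2) → ZMod 2 :=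
      fun p rec => if WellOrderingRel p.1 p.2 ∧ Ok p.1 p.2 then
        D p.1 p.2 + dX bd (fun x' y' => if h : sz x' + sz y' < sz p.1 + sz p.2 then
          rec (x', y') h else 0) p.1 p.2 else 0
    refine ⟨fun x y => wf.fix F (x, y), fun x y => ?_⟩
    show wf.fix F (x, y) = _
    rw [wf.fix_eq]
    by_cases hc : WellOrderingRel x y ∧ Ok x y
    · rw [if_pos hc]
      show (if WellOrderingRel x y ∧ Ok x y then _ else _) = _
      rw [if_pos hc]
      congr 1
      refine dX_congr (fun x' hx' => ?_) fun y' hy' => ?_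
      · have h1 := hsz x y x' hc.2 hx'
        show (if h : sz x' + sz y < sz x + sz y then _ else _) = _
        rw [dif_pos (by omega)]
      · have h1 := hsz y x y' (hsymm _ _ hc.2) hy'
        show (if h : sz x + sz y' < sz x + sz y then _ else _) = _
        rw [dif_pos (by omega)]
    · rw [if_neg hc]
      show (if WellOrderingRel x y ∧ Ok x y then _ else _) = _
      rw [if_neg hc]
  refine ⟨φ, ?_, ?_⟩
  · -- the identity
    have key : ∀ n x y, sz x + sz y = n → Ok x y →
        D x y = φ x y + φ y x + dX bd φ x y := by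
      intro n
      induction n using Nat.strong_induction_on with
      | _ n ih =>
        intro x y hn hok
        rcases eq_or_ne x y with rfl | hne
        · have hx := hfix x hok
          subst hx
          have h1 : dX bd φ x x = 0 := by
            unfold dX
            rw [hb, map_zero, map_zero, add_zero]
          rw [h0, h1, add_zero, add_self_mod]
        rcases trichotomous_of (WellOrderingRel (α := X)) x y with hlt | heq | hgt
        · have h1 : φ y x = 0 := by
            rw [hφ, if_neg]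
            exact fun h => asymm hlt h.1
          have h2 : φ x y = D x y + dX bd φ x y := by
            rw [hφ x y, if_pos ⟨hlt, hok⟩]
          have h3 := add_self_mod (dX bd φ x y)
          rw [h1, h2, add_zero, add_assoc, h3, add_zero]
        · exact absurd heq hne
        · have hok' := hsymm _ _ hok
          have h1 : φ x y = 0 := by
            rw [hφ, if_neg]
            exact fun h => asymm hgt h.1
          have h2 : φ y x = D y x + dX bd φ y x := by
            rw [hφ y x, if_pos ⟨hgt, hok'⟩]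
          have h3 : dX bd D x y = dX bd φ x y + dX bd φ y x := by
            have e1 : lin (fun x' => D x' y) (bd x) =
                lin (fun x' => φ x' y + φ y x' + dX bd φ x' y) (bd x) := by
              refine lin_congr fun c hc => ?_
              have := hsz x y c hok hc
              exact ih (sz c + sz y) (by omega) c y rfl (hface x y c hok hc)
            have e2 : lin (fun y' => D x y') (bd y) =
                lin (fun y' => φ x y' + φ y' x + dX bd φ x y') (bd y) := by
              refine lin_congr fun c hc => ?_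
              have := hsz y x c hok' hc
              exact ih (sz x + sz c) (by omega) x c rfl (hsymm _ _ (hface y x c hok' hc))
            have e3 : lin (fun x' => dX bd φ x' y) (bd x) =
                lin (fun x' => lin (fun y' => φ x' y') (bd y)) (bd x) := by
              unfold dX
              rw [lin_add, lin_lin (f := fun x' => φ x' y) (e := bd), hbd x y hok, map_zero,
                zero_add]
            have e4 : lin (fun y' => dX bd φ x y') (bd y) =
                lin (fun y' => lin (fun x' => φ x' y') (bd x)) (bd y) := by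
              unfold dX
              rw [lin_add, lin_lin (f := fun y' => φ x y') (e := bd), hbd y x hok', map_zero,
                add_zero]
            have e5 := lin_comm φ (bd x) (bd y)
            show lin (fun x' => D x' y) (bd x) + lin (fun y' => D x y') (bd y) = _
            rw [e1, e2, lin_add, lin_add, lin_add, lin_add, e3, e4, e5]
            have h4 := add_self_mod (lin (fun y' => lin (fun x' => φ x' y') (bd x)) (bd y))
            unfold dX
            linear_combination h4
          have h4 := hD x y hok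
          have h5 := add_self_mod (D y x)
          rw [h1, h2]
          linear_combination h3 - h4 - h5
    exact fun x y hok => key _ x y rfl hok
  · have key : ∀ n x y, sz x + sz y = n → φ x y ≠ 0 →
        ∃ x' y', Rch bd x x' ∧ Rch bd y y' ∧ D x' y' ≠ 0 := by
      intro n
      induction n using Nat.strong_induction_on with
      | _ n ih =>
        intro x y hn hne
        rw [hφ] at hne
        by_cases hc : WellOrderingRel x y ∧ Ok x y
        · rw [if_pos hc] at hne
          by_cases hDz : D x y = 0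
          · rw [hDz, zero_add] at hne
            unfold dX at hne
            by_cases h1 : lin (fun x' => φ x' y) (bd x) = 0
            · rw [h1, zero_add] at hne
              obtain ⟨y', hy', hφ'⟩ := lin_ne_hx hne
              have := hsz y x y' (hsymm _ _ hc.2) hy'
              obtain ⟨x1, y1, r1, r2, r3⟩ := ih (sz x + sz y') (by omega) x y' rfl hφ'
              exact ⟨x1, y1, r1, Relation.ReflTransGen.head hy' r2, r3⟩
            · obtain ⟨x', hx', hφ'⟩ := lin_ne_hx h1
              have := hsz x y x' hc.2 hx'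
              obtain ⟨x1, y1, r1, r2, r3⟩ := ih (sz x' + sz y) (by omega) x' y rfl hφ'
              exact ⟨x1, y1, Relation.ReflTransGen.head hx' r1, r2, r3⟩
          · exact ⟨x, y, Relation.ReflTransGen.refl, Relation.ReflTransGen.refl, hDz⟩
        · rw [if_neg hc] at hne
          exact absurd rfl hne
    exact fun x y h => key _ x y rfl h

end Pool.Agent.H4.BD

end

section

/-!
# Project BD: the theorem
-/

set_option autoImplicit false

open Finset

namespace Pool.Agent.H4.BD

open Pool.Agent.H4.FC Pool.Agent.H97.BLD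

/-- without chambers there are no chains -/
theorem l2zeroB_of_empty {S Δ : Type} [Fintype S] [DecidableEq S] [IsEmpty Δ]
    (M : CoxeterMatrix S) (δ : Δ → Δ → M.Group) (i : ℕ) : L2ZeroB M δ i := by
  intro ν _ z hz _ ε hε
  have h1 : ∀ U T R, z U T R = 0 := by
    intro U T R
    by_contra h
    obtain ⟨-, -, -, x, -⟩ := hz.supp U T R h
    exact isEmptyElim x
  refine ⟨fun _ _ _ => 0, ⟨fun U T R h => absurd rfl h, fun U T => ?_⟩, ?_⟩
  · have h2 : (fun _ : Set Δ => ‖(0 : ℂ)‖ ^ 2) = fun _ => 0 := by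
      funext R
      simp
    rw [h2]
    exact summable_zero
  · have h2 : ∀ U T R, ‖z U T R - bdB M δ ν (fun _ _ _ => 0) U T R‖ ^ 2 = 0 := by
      intro U T R
      have h3 : ¬ (U ⊆ T ∧ ∃ x, R = residue M δ U x) := fun h => by
        obtain ⟨-, x, -⟩ := h
        exact isEmptyElim x
      unfold bdB
      rw [h1, if_neg h3]
      simp
    simp only [h2, tsum_zero, sum_const_zero]
    exact hε

end Pool.Agent.H4.BD

end

section

/-!
# Project BD: the sums over the maximal flags of a cube

`cb rr x s h` is the sum of `h` over the simplices of the cube of `x` in the directions `s`.  The boundary of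
this sum of simplices is the same for the directions `s \ v` plus the simplices without the vertex `∅`, which
only depend on the `v`-panels of `x` (`cb1`).
-/

set_option autoImplicit false

open Finset

namespace Pool.Agent.H4.BD

variable {S Δ P : Type} [DecidableEq S]

theorem cb_empty (rr : Finset S → Δ → P) (x : Δ) (h : List P → ZMod 2) :
    cb rr x ∅ h = h [rr ∅ x] := by
  rw [cb, if_pos rfl]

theorem cb_ne (rr : Finset S → Δ → P) (x : Δ) {s : Finset S} (hs : s ≠ ∅)
    (h : List P → ZMod 2) :
    cb rr x s h = ∑ v ∈ s, cb rr x (s.erase v) fun l => h (l ++ [rr s x]) := by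
  rw [cb, if_neg hs]
  exact sum_attach s fun v => cb rr x (s.erase v) fun l => h (l ++ [rr s x])

theorem cb_congr (rr : Finset S → Δ → P) (x : Δ) : ∀ (k : ℕ) (s : Finset S), s.card = k →
    ∀ h h' : List P → ZMod 2, (∀ l, l.length = k + 1 → h l = h' l) →
    cb rr x s h = cb rr x s h'
  | 0, s, hs, h, h', he => by
    rw [card_eq_zero.1 hs, cb_empty, cb_empty]
    exact he _ rfl
  | k + 1, s, hs, h, h', he => by
    have h0 : s ≠ ∅ := by
      rintro rfl
      simp at hs
    rw [cb_ne rr x h0, cb_ne rr x h0]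
    refine sum_congr rfl fun v hv => ?_
    refine cb_congr rr x k (s.erase v) (by rw [card_erase_of_mem hv, hs]; rfl) _ _ fun l hl => ?_
    exact he _ (by rw [List.length_append, hl]; rfl)

theorem cb_congr' (rr : Finset S → Δ → P) (x : Δ) (s : Finset S) (h h' : List P → ZMod 2)
    (he : ∀ l, l ≠ [] → h l = h' l) : cb rr x s h = cb rr x s h' :=
  cb_congr rr x s.card s rfl h h' fun l hl => he l fun h0 => by rw [h0] at hl; simp at hl

theorem cb_zero (rr : Finset S → Δ → P) (x : Δ) : ∀ (k : ℕ) (s : Finset S), s.card = k →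
    cb rr x s (fun _ => 0) = 0
  | 0, s, hs => by
    rw [card_eq_zero.1 hs, cb_empty]
  | k + 1, s, hs => by
    have h0 : s ≠ ∅ := by
      rintro rfl
      simp at hs
    rw [cb_ne rr x h0]
    exact sum_eq_zero fun v hv =>
      cb_zero rr x k (s.erase v) (by rw [card_erase_of_mem hv, hs]; rfl)

theorem cb_add (rr : Finset S → Δ → P) (x : Δ) : ∀ (k : ℕ) (s : Finset S), s.card = k →
    ∀ h h' : List P → ZMod 2, cb rr x s (fun l => h l + h' l) = cb rr x s h + cb rr x s h'
  | 0, s, hs, h, h' => by
    rw [card_eq_zero.1 hs, cb_empty, cb_empty, cb_empty]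
  | k + 1, s, hs, h, h' => by
    have h0 : s ≠ ∅ := by
      rintro rfl
      simp at hs
    rw [cb_ne rr x h0, cb_ne rr x h0, cb_ne rr x h0, ← sum_add_distrib]
    exact sum_congr rfl fun v hv =>
      cb_add rr x k (s.erase v) (by rw [card_erase_of_mem hv, hs]; rfl) _ _

theorem cb_sum (rr : Finset S → Δ → P) (x : Δ) (s : Finset S) {ι : Type*} (I : Finset ι)
    (h : ι → List P → ZMod 2) :
    cb rr x s (fun l => ∑ i ∈ I, h i l) = ∑ i ∈ I, cb rr x s (h i) := by
  classical
  induction I using Finset.induction_on with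
  | empty =>
    simp only [sum_empty]
    exact cb_zero rr x _ s rfl
  | insert i I hi ih =>
    simp only [sum_insert hi]
    rw [cb_add rr x _ s rfl, ih]

theorem cb_comm {Δ' : Type} (rr : Finset S → Δ → P) (rr' : Finset S → Δ' → P) (x : Δ) (y : Δ')
    (t : Finset S) : ∀ (k : ℕ) (s : Finset S), s.card = k → ∀ G : List P → List P → ZMod 2,
    cb rr x s (fun l => cb rr' y t fun l' => G l l') =
      cb rr' y t (fun l' => cb rr x s fun l => G l l')
  | 0, s, hs, G => by
    rw [card_eq_zero.1 hs, cb_empty]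
    exact cb_congr' rr' y t _ _ fun l' _ => (cb_empty rr x fun l => G l l').symm
  | k + 1, s, hs, G => by
    have h0 : s ≠ ∅ := by
      rintro rfl
      simp at hs
    have h1 : (fun l' => cb rr x s fun l => G l l') =
        fun l' => ∑ v ∈ s, cb rr x (s.erase v) fun l => G (l ++ [rr s x]) l' :=
      funext fun l' => cb_ne rr x h0 _
    rw [cb_ne rr x h0, h1, cb_sum]
    exact sum_congr rfl fun v hv =>
      cb_comm rr rr' x y t k (s.erase v) (by rw [card_erase_of_mem hv, hs]; rfl) _

/-- The sum over the flags `{v} ⊂ … ⊂ s`. -/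
noncomputable def cb1 (rr : Finset S → Δ → P) (x : Δ) (v : S) (s : Finset S)
    (h : List P → ZMod 2) : ZMod 2 :=
  if s ⊆ {v} then h [rr {v} x] else
    ∑ u ∈ (s.erase v).attach, cb1 rr x v (s.erase u.1) (fun l => h (l ++ [rr s x]))
termination_by s.card
decreasing_by exact card_erase_lt_of_mem (mem_of_mem_erase u.2)

theorem cb1_single (rr : Finset S → Δ → P) (x : Δ) (v : S) (h : List P → ZMod 2) :
    cb1 rr x v {v} h = h [rr {v} x] := by
  rw [cb1, if_pos Subset.rfl]

theorem cb1_ne (rr : Finset S → Δ → P) (x : Δ) {v : S} {s : Finset S} (hs : ¬ s ⊆ {v})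
    (h : List P → ZMod 2) :
    cb1 rr x v s h = ∑ u ∈ s.erase v, cb1 rr x v (s.erase u) fun l => h (l ++ [rr s x]) := by
  rw [cb1, if_neg hs]
  exact sum_attach (s.erase v) fun u => cb1 rr x v (s.erase u) fun l => h (l ++ [rr s x])

/-- `cb1` only depends on the panel. -/
theorem cb1_local (rr : Finset S → Δ → P) (x y : Δ) (v : S) : ∀ (k : ℕ) (s : Finset S),
    s.card = k → v ∈ s → (∀ T, v ∈ T → rr T x = rr T y) →
    ∀ h : List P → ZMod 2, cb1 rr x v s h = cb1 rr y v s h
  | 0, s, hs, hv, _, _ => by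
    rw [card_eq_zero.1 hs] at hv
    simp at hv
  | k + 1, s, hs, hv, he, h => by
    by_cases h1 : s ⊆ {v}
    · have h2 : s = {v} := Subset.antisymm h1 (singleton_subset_iff.2 hv)
      rw [h2, cb1_single, cb1_single, he {v} (mem_singleton_self v)]
    · rw [cb1_ne rr x h1, cb1_ne rr y h1, he s hv]
      refine sum_congr rfl fun u hu => ?_
      rw [mem_erase] at hu
      exact cb1_local rr x y v k (s.erase u) (by rw [card_erase_of_mem hu.2, hs]; rfl)
        (mem_erase.2 ⟨hu.1.symm, hv⟩) he _

/-- the sum over the flags without the vertex `∅` -/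
theorem cb_tail (rr : Finset S → Δ → P) (x : Δ) : ∀ (k : ℕ) (s : Finset S), s.card = k + 1 →
    ∀ h : List P → ZMod 2, cb rr x s (fun l => h (l.eraseIdx 0)) = ∑ v ∈ s, cb1 rr x v s h
  | 0, s, hs, h => by
    obtain ⟨v, rfl⟩ := card_eq_one.1 hs
    rw [cb_ne rr x (singleton_ne_empty v), sum_singleton, sum_singleton, erase_singleton,
      cb_empty, cb1_single]
    rfl
  | k + 1, s, hs, h => by
    have h0 : s ≠ ∅ := by
      rintro rfl
      simp at hs
    rw [cb_ne rr x h0]
    have h1 : ∀ v ∈ s, cb rr x (s.erase v) (fun l => h ((l ++ [rr s x]).eraseIdx 0)) =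
        ∑ u ∈ s.erase v, cb1 rr x u (s.erase v) fun l => h (l ++ [rr s x]) := by
      intro v hv
      rw [← cb_tail rr x k (s.erase v) (by rw [card_erase_of_mem hv, hs]; rfl)
        (fun l => h (l ++ [rr s x]))]
      refine cb_congr' rr x _ _ _ fun l hl => ?_
      cases l with
      | nil => exact absurd rfl hl
      | cons a l => rfl
    rw [sum_congr rfl h1]
    have h2 : ∀ v ∈ s, cb1 rr x v s h =
        ∑ u ∈ s.erase v, cb1 rr x v (s.erase u) fun l => h (l ++ [rr s x]) := by
      intro v hv
      refine cb1_ne rr x (fun h3 => ?_) h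
      have := card_le_card h3
      rw [card_singleton] at this
      omega
    rw [sum_congr rfl h2]
    refine sum_comm' fun u v => ?_
    simp only [mem_erase]
    constructor
    · rintro ⟨h3, h4, h5⟩
      exact ⟨⟨h4.symm, h3⟩, h5⟩
    · rintro ⟨⟨h3, h4⟩, h5⟩
      exact ⟨h4, h3.symm, h5⟩

theorem dL_append {P : Type} (h : List P → ZMod 2) (l : List P) (r : P) :
    dL h (l ++ [r]) = dL (fun m => h (m ++ [r])) l + h l := by
  unfold dL
  rw [List.length_append, List.length_singleton, sum_range_succ]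
  congr 1
  · refine sum_congr rfl fun i hi => ?_
    rw [mem_range] at hi
    rw [List.eraseIdx_append_of_lt_length hi]
  · rw [List.eraseIdx_append_of_length_le le_rfl]
    simp

theorem cb_add_self {N : Type*} [AddCommGroup N] [Module (ZMod 2) N] (a : N) : a + a = 0 := by
  have h : (2 : ZMod 2) • a = 0 := by
    have : (2 : ZMod 2) = 0 := by decide
    rw [this, zero_smul]
  rwa [two_smul] at h

/-- a sum over ordered pairs of different elements of a symmetric function is zero -/
theorem cb_sum_pairs (s : Finset S) (F : S → S → ZMod 2)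
    (hF : ∀ u ∈ s, ∀ v ∈ s, u ≠ v → F u v = F v u) : ∑ u ∈ s, ∑ v ∈ s.erase u, F u v = 0 := by
  rw [sum_sigma']
  refine sum_involution (fun p _ => ⟨p.2, p.1⟩) ?_ ?_ ?_ ?_
  · rintro ⟨u, w⟩ h
    rw [mem_sigma] at h
    have h1 : u ∈ s := h.1
    have h2 : w ∈ s.erase u := h.2
    have h3 := mem_erase.1 h2
    show F u w + F w u = 0
    rw [hF u h1 w h3.2 h3.1.symm]
    exact cb_add_self _
  · rintro ⟨u, w⟩ h _ he
    rw [mem_sigma] at h
    have h1 : w = u := congrArg Sigma.fst he
    exact ne_of_mem_erase h.2 h1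
  · rintro ⟨u, w⟩ h
    rw [mem_sigma] at h ⊢
    have h1 : u ∈ s := h.1
    have h2 : w ∈ s.erase u := h.2
    exact ⟨mem_of_mem_erase h2, mem_erase.2 ⟨(ne_of_mem_erase h2).symm, h1⟩⟩
  · rintro ⟨u, w⟩ _
    rfl

/-- **The boundary of the sum of the flags.** -/
theorem cb_dL (rr : Finset S → Δ → P) (x : Δ) : ∀ (k : ℕ) (s : Finset S), s.card = k →
    ∀ h : List P → ZMod 2, cb rr x s (dL h) =
      cb rr x s (fun l => h (l.eraseIdx 0)) + ∑ v ∈ s, cb rr x (s.erase v) h
  | 0, s, hs, h => by
    rw [card_eq_zero.1 hs, cb_empty, cb_empty, sum_empty, add_zero]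
    unfold dL
    simp
  | k + 1, s, hs, h => by
    have h0 : s ≠ ∅ := by
      rintro rfl
      simp at hs
    rw [cb_ne rr x h0, cb_ne rr x h0]
    have h1 : ∀ v ∈ s, cb rr x (s.erase v) (fun l => dL h (l ++ [rr s x])) =
        cb rr x (s.erase v) (fun l => h ((l ++ [rr s x]).eraseIdx 0)) +
          ∑ u ∈ s.erase v, cb rr x ((s.erase v).erase u) (fun m => h (m ++ [rr s x])) +
          cb rr x (s.erase v) h := by
      intro v hv
      have hc : (s.erase v).card = k := by rw [card_erase_of_mem hv, hs]; rfl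
      have h2 : (fun l => dL h (l ++ [rr s x])) =
          fun l => dL (fun m => h (m ++ [rr s x])) l + h l := funext fun l => dL_append h l _
      rw [h2, cb_add rr x _ _ rfl, cb_dL rr x k (s.erase v) hc]
      congr 2
      refine cb_congr' rr x _ _ _ fun l hl => ?_
      cases l with
      | nil => exact absurd rfl hl
      | cons a l => rfl
    rw [sum_congr rfl h1, sum_add_distrib, sum_add_distrib]
    rw [cb_sum_pairs s (fun v u => cb rr x ((s.erase v).erase u) fun m => h (m ++ [rr s x]))
      (fun u _ v _ _ => by rw [erase_right_comm]), add_zero]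

end Pool.Agent.H4.BD

end

section

/-!
# Project BLD: symmetry of the Weyl distance

Only the axioms and the length are used (no geometric representation).

* `symm_simple`: if `δ c d = s` then `step` for `(c := d) (c' := c) (d := c)`: `δ c c = s * δ d c` or `δ c c = δ d c`, and
  `δ c c = 1`. The second case gives `d = c`, `δ c d = 1 ≠ s` (`len_simple`).
* `symm`: **Claim**: if `len ((δ c d)⁻¹ * δ c b) = len (δ c d) + len (δ c b)` then `δ d b = (δ c d)⁻¹ * δ c b`. Induction on
  `n = len (δ c d)`, for all `c`. `n = 0` clear (`eq_one`). `δ c d = s w'` (`exists_left`), `c'` with `δ c' c = s`,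
  `δ c' d = s * δ c d = w'` (`exists_step`); `δ c' b = s * δ c b` by `step_up` (`len (s * δ c b) = len (δ c b) + 1` since
  `w'⁻¹ * (s * δ c b)` has length `n + len (δ c b)` and `len w' = n - 1`); the claim for `c'` gives
  `δ d b = w'⁻¹ * s * δ c b`. With `b = c` (`δ c c = 1`): `δ d c = (δ c d)⁻¹`.
* `stepR`, `stepR_up`, `exists_stepR`: from `symm`, `simple_inv`.
-/

set_option autoImplicit false

open Finset

namespace Pool.Agent.H97.BLD

open Pool.Agent.H4.FC Pool.Agent.H78.RC

universe v

variable {S : Type} {M : CoxeterMatrix S} {Δ : Type v} {δ : Δ → Δ → M.Group}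

theorem IsBuilding.self (h : IsBuilding M δ) (c : Δ) : δ c c = 1 := (h.eq_one c c).2 rfl

theorem IsBuilding.symm_simple (h : IsBuilding M δ) {c d : Δ} {s : S} (hs : δ c d = M.simple s) :
    δ d c = M.simple s := by
  rcases h.step s d c c hs with h1 | h1
  · rw [h.self] at h1
    rw [eq_comm, mul_eq_one_iff_inv_eq, simple_inv] at h1
    exact h1.symm
  · exfalso
    rw [h.self] at h1
    have h2 : d = c := (h.eq_one d c).1 h1.symm
    rw [h2, h.self] at hs
    have h3 := len_simple M s
    rw [← hs, len_one] at h3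
    omega

private theorem IsBuilding.bdA_claim (h : IsBuilding M δ) (d b : Δ) : ∀ (n : ℕ) (c : Δ), len M (δ c d) = n →
    len M ((δ c d)⁻¹ * δ c b) = len M (δ c d) + len M (δ c b) → δ d b = (δ c d)⁻¹ * δ c b := by
  intro n
  induction n with
  | zero =>
    intro c hc _
    have h1 : δ c d = 1 := (len_eq_zero M).1 hc
    have h2 : c = d := (h.eq_one c d).1 h1
    rw [h1, inv_one, one_mul, h2]
  | succ n ih =>
    intro c hc hl
    have h1 : δ c d ≠ 1 := by
      intro h1
      rw [h1, len_one] at hc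
      omega
    obtain ⟨s, hs⟩ := exists_left M h1
    obtain ⟨c', e1, e2⟩ := h.exists_step s c d
    have e3 : (δ c' d)⁻¹ * (M.simple s * δ c b) = (δ c d)⁻¹ * δ c b := by
      rw [e2, mul_inv_rev, mul_assoc, inv_mul_cancel_left]
    have h2 : len M (M.simple s * δ c b) = len M (δ c b) + 1 := by
      rcases len_simple_mul M (δ c b) s with h2 | h2
      · exact h2
      · exfalso
        have h3 := len_mul_le M (δ c' d)⁻¹ (M.simple s * δ c b)
        rw [e3, hl, len_inv, e2] at h3
        omega
    have e4 : δ c' b = M.simple s * δ c b := h.step_up s c c' b e1 h2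
    have h3 := ih c' (by rw [e2]; omega) (by rw [e4, e3, hl, h2, e2]; omega)
    rw [h3, e4, e3]

theorem IsBuilding.symm (h : IsBuilding M δ) (c d : Δ) : δ d c = (δ c d)⁻¹ := by
  have h1 := h.bdA_claim d c (len M (δ c d)) c rfl (by rw [h.self, mul_one, len_inv, len_one, add_zero])
  rwa [h.self, mul_one] at h1

theorem IsBuilding.stepR (h : IsBuilding M δ) {s : S} {a b b' : Δ} (hs : δ b b' = M.simple s) :
    δ a b' = δ a b * M.simple s ∨ δ a b' = δ a b := by
  rcases h.step s b b' a (h.symm_simple hs) with h1 | h1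
  · left
    rw [h.symm b' a, h1, mul_inv_rev, simple_inv, h.symm b a]
  · right
    rw [h.symm b' a, h1, h.symm b a]

theorem IsBuilding.stepR_up (h : IsBuilding M δ) {s : S} {a b b' : Δ} (hs : δ b b' = M.simple s)
    (hl : len M (δ a b * M.simple s) = len M (δ a b) + 1) : δ a b' = δ a b * M.simple s := by
  have h1 := h.step_up s b b' a (h.symm_simple hs) (by
    rw [← len_inv M (M.simple s * δ b a), mul_inv_rev, simple_inv, ← h.symm b a, hl, h.symm b a, len_inv])
  rw [h.symm b' a, h1, mul_inv_rev, simple_inv, h.symm b a]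

theorem IsBuilding.exists_stepR (h : IsBuilding M δ) (s : S) (a b : Δ) :
    ∃ b', δ b b' = M.simple s ∧ δ a b' = δ a b * M.simple s := by
  obtain ⟨b', h1, h2⟩ := h.exists_step s b a
  exact ⟨b', h.symm_simple h1, by rw [h.symm b' a, h2, mul_inv_rev, simple_inv, h.symm b a]⟩

end Pool.Agent.H97.BLD

end

section

/-!
# Project BLD: basic facts on buildings

`h : IsBuilding M δ`. Only the axioms and the length are used (no geometric representation).

* `par_trans`: the left step and `par_induction`, or induction on the length along a gallery: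
  `δ a b ∈ W_J`, `δ b c ∈ W_J` ⟹ `δ a c ∈ W_J`; more precisely `mem_mul`: if `δ b c ∈ W_J` then
  `(δ a b)⁻¹ * δ a c ∈ W_J`: induction on `len (δ b c)`: a left descent `s ∈ J` (for `w ∈ W_J` the descents are
  in `J`; without roots: use `par_induction` instead: for all `b` with `δ b c = w`), `b'` with `δ b' b = s`,
  `δ b' c = s * δ b c`, and `δ a b' = δ a b` or `δ a b * s`.
* `len_tri`: induction on `len (δ b c)` with `stepR`.
* `add`: induction on `len (δ a b)`: `δ a b = s w'`, `a'` with `δ a' a = s`, `δ a' b = w'`; `δ a' c = w' * δ b c` by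
  induction; `len (s w' δ b c) = len (w' δ b c) + 1` and `step_up` for `a`, `a'` (`symm_simple`).
* `exists_geo`: induction on `len v` (`exists_stepR`/`exists_step`).
* `geo_unique`: induction on `len v`. `v = 1`: `eq_one`. `v = v' s`, `len v = len v' + 1`: `exists_stepR` gives `b₁` with
  `δ a b₁ = v'`, `δ b b₁ = s`; the same for `b'`: `b₁'`. `δ b₁ c = s v⁻¹ w` by `step_up` (its length is one more since
  `v⁻¹ w` preceded by `s` is reduced: `len (v' (s v⁻¹ w)) = …`). By induction `b₁ = b₁'`. So `δ b b' = 1` or `s`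
  (`step`), and `s` is impossible: `step_up` would give `δ b c = s * δ b' c`.
-/

set_option autoImplicit false

open Finset

namespace Pool.Agent.H97.BLD

open Pool.Agent.H4.FC Pool.Agent.H78.RC

universe v

variable {S : Type} {M : CoxeterMatrix S} {Δ : Type v} {δ : Δ → Δ → M.Group}

private theorem bd_le_step {s : S} {v w w' : M.Group}
    (hs : len M (M.simple s * v) + 1 = len M v) (hv : Le M v w)
    (e1 : (M.simple s * v)⁻¹ * w' = v⁻¹ * w) (e2 : w' = M.simple s * w) :
    Le M (M.simple s * v) w' := by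
  unfold Le at hv ⊢
  rw [e1]
  have h1 : len M w' ≤ len M (M.simple s * v) + len M (v⁻¹ * w) := by
    have h2 := len_mul_le M (M.simple s * v) ((M.simple s * v)⁻¹ * w')
    rw [mul_inv_cancel_left, e1] at h2
    exact h2
  have h3 : len M w ≤ len M w' + 1 := by
    have h4 := len_mul_le M (M.simple s) w'
    rw [len_simple, e2, ← mul_assoc, simple_sq, one_mul, ← e2] at h4
    omega
  omega

theorem IsBuilding.mem_mul (h : IsBuilding M δ) {J : Finset S} {a b c : Δ}
    (hb : δ b c ∈ par M J) : (δ a b)⁻¹ * δ a c ∈ par M J := by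
  have key : ∀ w ∈ par M J, ∀ b, δ b c = w → (δ a b)⁻¹ * δ a c ∈ par M J := by
    refine par_induction M J ?_ ?_
    · intro b hb
      have h1 : b = c := (h.eq_one b c).1 hb
      rw [h1, inv_mul_cancel]
      exact one_mem _
    · intro s hs w ih b hb
      obtain ⟨b', h1, h2⟩ := h.exists_step s b c
      have h3 : δ b' c = w := by
        rw [h2, hb, ← mul_assoc, simple_sq, one_mul]
      have h4 := ih b' h3
      rcases h.stepR (a := a) h1 with h5 | h5
      · rw [h5, mul_inv_rev, simple_inv, mul_assoc]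
        exact mul_mem (simple_mem_par M hs) h4
      · rw [h5]
        exact h4
  exact key _ hb b rfl

theorem IsBuilding.par_trans (h : IsBuilding M δ) {J : Finset S} {a b c : Δ}
    (ha : δ a b ∈ par M J) (hb : δ b c ∈ par M J) : δ a c ∈ par M J := by
  have h1 := mul_mem ha (h.mem_mul (a := a) hb)
  rwa [mul_inv_cancel_left] at h1

theorem IsBuilding.add (h : IsBuilding M δ) {a b c : Δ}
    (hl : len M (δ a b * δ b c) = len M (δ a b) + len M (δ b c)) : δ a c = δ a b * δ b c := by
  have key : ∀ (n : ℕ) (a : Δ), len M (δ a b) = n →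
      len M (δ a b * δ b c) = len M (δ a b) + len M (δ b c) → δ a c = δ a b * δ b c := by
    intro n
    induction n with
    | zero =>
      intro a ha _
      have h1 : a = b := (h.eq_one a b).1 ((len_eq_zero M).1 ha)
      rw [h1, h.self, one_mul]
    | succ n ih =>
      intro a ha hl
      have h0 : δ a b ≠ 1 := by
        intro h1
        rw [h1, len_one] at ha
        omega
      obtain ⟨s, hs⟩ := exists_left M h0
      obtain ⟨a', h1, h2⟩ := h.exists_step s a b
      have h3 : len M (δ a' b) = n := by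
        rw [h2]
        omega
      have e1 : δ a b = M.simple s * δ a' b := by
        rw [h2, ← mul_assoc, simple_sq, one_mul]
      have h4 : len M (δ a' b * δ b c) = len M (δ a' b) + len M (δ b c) := by
        have h5 := len_mul_le M (δ a' b) (δ b c)
        have h6 := len_mul_le M (M.simple s) (δ a' b * δ b c)
        rw [len_simple, ← mul_assoc, ← e1] at h6
        omega
      have h7 := ih a' h3 h4
      have h8 := h.step_up s a' a c (h.symm_simple h1) (by
        rw [h7, ← mul_assoc, ← e1, hl, h4]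
        omega)
      rw [h8, h7, ← mul_assoc, ← e1]
  exact key _ a rfl hl

theorem IsBuilding.exists_geo (h : IsBuilding M δ) {a c : Δ} {v : M.Group}
    (hv : Le M v (δ a c)) : ∃ b, δ a b = v ∧ δ b c = v⁻¹ * δ a c := by
  have key : ∀ (n : ℕ) (v : M.Group) (a : Δ), len M v = n → Le M v (δ a c) →
      ∃ b, δ a b = v ∧ δ b c = v⁻¹ * δ a c := by
    intro n
    induction n with
    | zero =>
      intro v a hn _
      have h1 : v = 1 := (len_eq_zero M).1 hn
      rw [h1]
      exact ⟨a, h.self a, by rw [inv_one, one_mul]⟩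
    | succ n ih =>
      intro v a hn hv
      have h0 : v ≠ 1 := by
        intro h1
        rw [h1, len_one] at hn
        omega
      obtain ⟨s, hs⟩ := exists_left M h0
      obtain ⟨a', h1, h2⟩ := h.exists_step s a c
      have e1 : (M.simple s * v)⁻¹ * δ a' c = v⁻¹ * δ a c := by
        rw [h2, mul_inv_rev, simple_inv, mul_assoc, ← mul_assoc (M.simple s) (M.simple s), simple_sq,
          one_mul]
      have h3 : Le M (M.simple s * v) (δ a' c) := bd_le_step hs hv e1 h2
      obtain ⟨b, h4, h5⟩ := ih (M.simple s * v) a' (by omega) h3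
      refine ⟨b, ?_, ?_⟩
      · have h6 := h.step_up s a' a b (h.symm_simple h1) (by
          rw [h4, ← mul_assoc, simple_sq, one_mul]
          omega)
        rw [h6, h4, ← mul_assoc, simple_sq, one_mul]
      · rw [h5, e1]
  exact key _ v a rfl hv

theorem IsBuilding.geo_unique (h : IsBuilding M δ) {a b b' c : Δ} {v : M.Group}
    (hv : Le M v (δ a c)) (h1 : δ a b = v) (h2 : δ b c = v⁻¹ * δ a c) (h1' : δ a b' = v)
    (h2' : δ b' c = v⁻¹ * δ a c) : b = b' := by
  have key : ∀ (n : ℕ) (v : M.Group) (a : Δ), len M v = n → Le M v (δ a c) → δ a b = v →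
      δ b c = v⁻¹ * δ a c → δ a b' = v → δ b' c = v⁻¹ * δ a c → b = b' := by
    intro n
    induction n with
    | zero =>
      intro v a hn _ h1 _ h1' _
      have h3 : v = 1 := (len_eq_zero M).1 hn
      rw [h3] at h1 h1'
      rw [← (h.eq_one a b).1 h1, ← (h.eq_one a b').1 h1']
    | succ n ih =>
      intro v a hn hv h1 h2 h1' h2'
      have h0 : v ≠ 1 := by
        intro h3
        rw [h3, len_one] at hn
        omega
      obtain ⟨s, hs⟩ := exists_left M h0
      obtain ⟨a', g1, g2⟩ := h.exists_step s a c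
      have e1 : (M.simple s * v)⁻¹ * δ a' c = v⁻¹ * δ a c := by
        rw [g2, mul_inv_rev, simple_inv, mul_assoc, ← mul_assoc (M.simple s) (M.simple s), simple_sq,
          one_mul]
      have h3 : Le M (M.simple s * v) (δ a' c) := bd_le_step hs hv e1 g2
      have aux : ∀ x, δ a x = v → δ x c = v⁻¹ * δ a c → δ a' x = M.simple s * v := by
        intro x hx hxc
        rcases h.step s a a' x g1 with h4 | h4
        · rw [h4, hx]
        · exfalso
          rw [hx] at h4
          have h5 : δ a' c = δ a' x * δ x c := by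
            refine h.add ?_
            rw [h4, hxc, mul_inv_cancel_left]
            exact hv.symm
          rw [h4, hxc, mul_inv_cancel_left, g2] at h5
          have h6 : len M (M.simple s * δ a c) = len M (δ a c) := by rw [h5]
          rcases len_simple_mul M (δ a c) s with h7 | h7
          · omega
          · omega
      refine ih (M.simple s * v) a' (by omega) h3 (aux b h1 h2) ?_ (aux b' h1' h2') ?_
      · rw [h2, e1]
      · rw [h2', e1]
  exact key _ v a rfl hv h1 h2 h1' h2'

end Pool.Agent.H97.BLD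

end

section

/-!
# Project BD: the projections onto the functions which are constant on the residues

`KT M δ T`: the square summable functions on the set of chambers which are constant on the `T`-residues;
`PT M δ T`: the orthogonal projection onto `KT M δ T`. It is zero for `T` not spherical and the mean over the residues for
`T` spherical.
-/

set_option autoImplicit false

open Finset

namespace Pool.Agent.H22.BD

open Pool.Agent.H4.FC Pool.Agent.H78.RC Pool.Agent.H97.BLD

variable {S : Type} {Δ : Type}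

/-- square summable functions on the chambers -/
abbrev LD (Δ : Type) : Type := lp (fun _ : Δ => ℂ) 2

/-- the square summable functions which are constant on the residues of type `T` -/
def KT (M : CoxeterMatrix S) (δ : Δ → Δ → M.Group) (T : Finset S) : Submodule ℂ (LD Δ) where
  carrier := {f | ∀ c d, δ c d ∈ par M T → f c = f d}
  add_mem' := by
    intro f g hf hg c d h
    rw [lp.coeFn_add, Pi.add_apply, Pi.add_apply, hf c d h, hg c d h]
  zero_mem' := by
    intro c d _
    rw [lp.coeFn_zero, Pi.zero_apply, Pi.zero_apply]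
  smul_mem' := by
    intro a f hf c d h
    rw [lp.coeFn_smul, Pi.smul_apply, Pi.smul_apply, hf c d h]

theorem continuous_coord (c : Δ) : Continuous fun f : LD Δ => f c := by
  have h1 : ∀ f g : LD Δ, ‖f c - g c‖ ≤ ‖f - g‖ := fun f g => by
    have h2 := lp.norm_apply_le_norm (by norm_num : (2 : ENNReal) ≠ 0) (f - g) c
    rwa [lp.coeFn_sub, Pi.sub_apply] at h2
  refine (LipschitzWith.of_dist_le_mul (K := 1) fun f g => ?_).continuous
  rw [dist_eq_norm, dist_eq_norm, NNReal.coe_one, one_mul]
  exact h1 f g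

theorem isClosed_KT (M : CoxeterMatrix S) (δ : Δ → Δ → M.Group) (T : Finset S) :
    IsClosed (KT M δ T : Set (LD Δ)) := by
  have h1 : (KT M δ T : Set (LD Δ)) = ⋂ (c : Δ) (d : Δ) (_ : δ c d ∈ par M T), {f | f c = f d} := by
    ext f
    simp [KT]
  rw [h1]
  exact isClosed_iInter fun c => isClosed_iInter fun d => isClosed_iInter fun _ =>
    isClosed_eq (continuous_coord c) (continuous_coord d)

instance KT_complete (M : CoxeterMatrix S) (δ : Δ → Δ → M.Group) (T : Finset S) :
    CompleteSpace (KT M δ T) := (isClosed_KT M δ T).completeSpace_coe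

/-- the orthogonal projection onto the functions which are constant on the residues of type `T` -/
noncomputable def PT (M : CoxeterMatrix S) (δ : Δ → Δ → M.Group) (T : Finset S) :
    LD Δ →L[ℂ] LD Δ := (KT M δ T).starProjection

section basic

variable {M : CoxeterMatrix S} {δ : Δ → Δ → M.Group}

theorem PT_mem (T : Finset S) (f : LD Δ) : PT M δ T f ∈ KT M δ T :=
  Submodule.starProjection_apply_mem _ _

theorem PT_const {T : Finset S} (f : LD Δ) {c d : Δ} (h : δ c d ∈ par M T) :
    PT M δ T f c = PT M δ T f d := PT_mem T f c d h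

theorem PT_eq_self_iff {T : Finset S} {f : LD Δ} : PT M δ T f = f ↔ f ∈ KT M δ T :=
  Submodule.starProjection_eq_self_iff

theorem PT_inner (T : Finset S) (f : LD Δ) {g : LD Δ} (hg : g ∈ KT M δ T) :
    inner ℂ (f - PT M δ T f) g = 0 := Submodule.starProjection_inner_eq_zero _ _ hg

theorem KT_mono {T U : Finset S} (h : T ⊆ U) : KT M δ U ≤ KT M δ T := fun f hf c d hcd =>
  hf c d (Subgroup.closure_mono (fun w hw => by
    obtain ⟨v, hv, rfl⟩ := hw
    exact ⟨v, h hv, rfl⟩) hcd)

theorem PT_nest {T U : Finset S} (h : T ⊆ U) : PT M δ T * PT M δ U = PT M δ U := by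
  refine ContinuousLinearMap.ext fun f => ?_
  exact PT_eq_self_iff.mpr (KT_mono h (PT_mem U f))

theorem PT_nest' {T U : Finset S} (h : T ⊆ U) : PT M δ U * PT M δ T = PT M δ U := by
  refine ContinuousLinearMap.ext fun f => ?_
  show PT M δ U (PT M δ T f) = PT M δ U f
  have h1 : PT M δ U f = (KT M δ U).starProjection f := rfl
  rw [h1]
  refine Eq.symm (Submodule.eq_starProjection_of_mem_of_inner_eq_zero (PT_mem U _) fun w hw => ?_)
  have h2 : f - PT M δ U (PT M δ T f) =
      (f - PT M δ T f) + (PT M δ T f - PT M δ U (PT M δ T f)) := by abel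
  rw [h2, inner_add_left, PT_inner T f (KT_mono h hw), PT_inner U _ hw, add_zero]

end basic

section building

variable {M : CoxeterMatrix S} {δ : Δ → Δ → M.Group}

/-- the chambers at a given distance are finitely many -/
theorem finite_dist (h : IsBuilding M δ) (hq : ∀ s c, {d | δ c d = M.simple s}.Finite) (c : Δ)
    (w : M.Group) : {d | δ c d = w}.Finite := by
  obtain ⟨ω, hω⟩ := M.toCoxeterSystem.wordProd_surjective w
  subst hω
  induction ω using List.reverseRecOn with
  | nil =>
    refine (Set.finite_singleton c).subset fun d hd => ?_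
    have h1 : δ c d = 1 := by simpa using hd
    exact ((h.eq_one c d).1 h1).symm
  | append_singleton ω s ih =>
    refine (ih.biUnion fun b _ => hq s b).subset fun d hd => ?_
    obtain ⟨b, hb1, hb2⟩ := h.exists_stepR s c d
    have h1 : δ c b = M.toCoxeterSystem.wordProd ω := by
      have h2 : δ c d = M.toCoxeterSystem.wordProd ω * M.simple s := by
        have h3 : δ c d = M.toCoxeterSystem.wordProd (ω ++ [s]) := hd
        rw [h3, CoxeterSystem.wordProd_append]
        simp only [CoxeterSystem.wordProd_singleton]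
        rfl
      have h4 : M.simple s * M.simple s = 1 := M.toCoxeterSystem.simple_mul_simple_self s
      rw [hb2, h2, mul_assoc, h4, mul_one]
    exact Set.mem_biUnion (show b ∈ {d | δ c d = M.toCoxeterSystem.wordProd ω} from h1)
      (h.symm_simple hb1)

theorem residue_finite (h : IsBuilding M δ) (hq : ∀ s c, {d | δ c d = M.simple s}.Finite)
    {T : Finset S} (hT : Sph M T) (c : Δ) : (residue M δ T c).Finite := by
  have hT' : (par M T : Set M.Group).Finite := by
    have : Finite (par M T) := hT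
    exact Set.toFinite _
  refine (hT'.biUnion fun w _ => finite_dist h hq c w).subset fun d hd => ?_
  exact Set.mem_biUnion (show δ c d ∈ (par M T : Set M.Group) from hd) rfl

theorem mem_residue_self (h : IsBuilding M δ) (T : Finset S) (c : Δ) : c ∈ residue M δ T c := by
  rw [residue, Set.mem_ofPred_eq, h.self]
  exact one_mem _

/-- **For `T` spherical, `PT` is the mean over the residues of type `T`.** -/
theorem PT_avg (h : IsBuilding M δ) {T : Finset S} (c : Δ) (hfin : (residue M δ T c).Finite)
    (f : LD Δ) : PT M δ T f c = (hfin.toFinset.card : ℂ)⁻¹ * ∑ d ∈ hfin.toFinset, f d := by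
  classical
  set R := hfin.toFinset with hR
  have hmem : ∀ d, d ∈ R ↔ δ c d ∈ par M T := fun d => by
    rw [hR, Set.Finite.mem_toFinset, residue, Set.mem_ofPred_eq]
  let χ : LD Δ := ∑ d ∈ R, lp.single 2 d (1 : ℂ)
  have hχ : ∀ d, χ d = if d ∈ R then 1 else 0 := by
    intro d
    have h1 : χ d = ∑ e ∈ R, (lp.single 2 e (1 : ℂ) : LD Δ) d := by
      show (∑ e ∈ R, lp.single 2 e (1 : ℂ) : LD Δ) d = _
      rw [lp.coeFn_sum, Finset.sum_apply]
    rw [h1]
    by_cases hd : d ∈ R
    · rw [if_pos hd, Finset.sum_eq_single d]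
      · simp
      · intro e _ hne
        rw [lp.single_apply_ne 2 e _ (Ne.symm hne)]
      · intro h2
        exact absurd hd h2
    · rw [if_neg hd]
      refine Finset.sum_eq_zero fun e he => ?_
      rw [lp.single_apply_ne 2 e _ (fun h2 => hd (by rw [h2]; exact he))]
  have hχK : χ ∈ KT M δ T := by
    intro a b hab
    have h1 : a ∈ R ↔ b ∈ R := by
      rw [hmem, hmem]
      constructor
      · intro h2
        exact h.par_trans h2 hab
      · intro h2
        refine h.par_trans h2 ?_
        rw [h.symm a b]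
        exact inv_mem hab
    rw [hχ, hχ]
    by_cases h2 : a ∈ R
    · rw [if_pos h2, if_pos (h1.mp h2)]
    · rw [if_neg h2, if_neg fun h3 => h2 (h1.mpr h3)]
  have hinn : inner ℂ χ (f - PT M δ T f) = ∑ d ∈ R, (f d - PT M δ T f d) := by
    show inner ℂ (∑ d ∈ R, lp.single 2 d (1 : ℂ)) (f - PT M δ T f) = _
    rw [sum_inner]
    refine Finset.sum_congr rfl fun d _ => ?_
    rw [lp.inner_single_left, lp.coeFn_sub, Pi.sub_apply]
    simp
  have h0 : inner ℂ χ (f - PT M δ T f) = 0 := by
    rw [← inner_conj_symm, PT_inner T f hχK, map_zero]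
  rw [hinn, Finset.sum_sub_distrib, sub_eq_zero] at h0
  have h1 : ∑ d ∈ R, PT M δ T f d = (R.card : ℂ) * PT M δ T f c := by
    rw [Finset.sum_congr rfl fun d hd => (PT_const f ((hmem d).mp hd)).symm, Finset.sum_const,
      nsmul_eq_mul]
  have h2 : (R.card : ℂ) ≠ 0 := by
    have h3 : c ∈ R := by
      rw [hR, Set.Finite.mem_toFinset]
      exact mem_residue_self h T c
    exact Nat.cast_ne_zero.mpr (Finset.card_ne_zero_of_mem h3)
  rw [h0, h1, ← mul_assoc, inv_mul_cancel₀ h2, one_mul]

end building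

end Pool.Agent.H22.BD

end

section

/-!
# Project BD: the reduced `ℓ²`-homology of the Davis realization vanishes when the links are acyclic

`l2zeroB_of_ex`: for a building whose panels are finite of bounded size, if the simplicial chains of all full subcomplexes of
the nerve are exact in all sizes `≥ i`, then the reduced `ℓ²`-homology of the Davis realization of the building
vanishes in degree `i` (every square summable cycle is even a boundary).

A chain `z U T R` is turned into the functions `x ↦ z U T (R_U x) / |R_U x|` on the chambers; the boundary becomes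
`cbd` with the projections `PT`.
-/

set_option autoImplicit false
set_option linter.unusedSectionVars false

open Finset

namespace Pool.Agent.H8.BD

open Pool.Agent.H4.FC Pool.Agent.H78.RC Pool.Agent.H97.BLD Pool.Agent.H78.RA Pool.Agent.H22.BD
open Pool.Agent.H4.BD

variable {S : Type} [Fintype S] [DecidableEq S] {Δ : Type} {M : CoxeterMatrix S}
  {δ : Δ → Δ → M.Group}

/-! ### residues -/

theorem mem_res {U : Finset S} {x d : Δ} : d ∈ residue M δ U x ↔ δ x d ∈ par M U := Iff.rfl

theorem par_symm' (h : IsBuilding M δ) {U : Finset S} {x y : Δ} (hxy : δ x y ∈ par M U) :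
    δ y x ∈ par M U := by
  rw [h.symm x y]
  exact inv_mem hxy

theorem res_eq (h : IsBuilding M δ) {U : Finset S} {x y : Δ} (hxy : δ x y ∈ par M U) :
    residue M δ U x = residue M δ U y := by
  ext d
  rw [mem_res, mem_res]
  exact ⟨fun hd => h.par_trans (par_symm' h hxy) hd, fun hd => h.par_trans hxy hd⟩

theorem par_le {U V : Finset S} (hUV : U ⊆ V) : par M U ≤ par M V := by
  apply Subgroup.closure_mono
  rintro w ⟨v, hv, rfl⟩
  exact ⟨v, hUV hv, rfl⟩

theorem sph_sub {T U : Finset S} (hTU : T ⊆ U) (hU : Sph M U) : Sph M T := by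
  have h1 : Finite (par M U) := hU
  exact Finite.of_injective (Subgroup.inclusion (par_le hTU)) (Subgroup.inclusion_injective _)

theorem exists_dist_bound (h : IsBuilding M δ) (hf : ∀ s c, {d | δ c d = M.simple s}.Finite) {m : ℕ}
    (hm : ∀ s c, {d | δ c d = M.simple s}.ncard ≤ m) (w : M.Group) :
    ∃ N : ℕ, ∀ c, {d | δ c d = w}.ncard ≤ N := by
  obtain ⟨ω, hω⟩ := M.toCoxeterSystem.wordProd_surjective w
  subst hω
  induction ω using List.reverseRecOn with
  | nil =>
    refine ⟨1, fun c => ?_⟩
    have h1 : {d | δ c d = M.toCoxeterSystem.wordProd []} ⊆ {c} := by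
      intro d hd
      have h1 : δ c d = 1 := by simpa using hd
      exact ((h.eq_one c d).1 h1).symm
    exact (Set.ncard_le_ncard h1 (Set.finite_singleton c)).trans (by rw [Set.ncard_singleton])
  | append_singleton ω s ih =>
    obtain ⟨N, hN⟩ := ih
    refine ⟨N * m, fun c => ?_⟩
    have hA : {d | δ c d = M.toCoxeterSystem.wordProd ω}.Finite := finite_dist h hf c _
    have h1 : {d | δ c d = M.toCoxeterSystem.wordProd (ω ++ [s])} ⊆
        ⋃ b ∈ hA.toFinset, {d | δ b d = M.simple s} := by
      intro d hd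
      obtain ⟨b, hb1, hb2⟩ := h.exists_stepR s c d
      have h1 : δ c b = M.toCoxeterSystem.wordProd ω := by
        have h2 : δ c d = M.toCoxeterSystem.wordProd ω * M.simple s := by
          have h3 : δ c d = M.toCoxeterSystem.wordProd (ω ++ [s]) := hd
          rw [h3, CoxeterSystem.wordProd_append]
          simp only [CoxeterSystem.wordProd_singleton]
          rfl
        have h4 : M.simple s * M.simple s = 1 := M.toCoxeterSystem.simple_mul_simple_self s
        rw [hb2, h2, mul_assoc, h4, mul_one]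
      exact Set.mem_biUnion ((Set.Finite.mem_toFinset hA).2 h1) (h.symm_simple hb1)
    have hfU : (⋃ b ∈ hA.toFinset, {d | δ b d = M.simple s}).Finite :=
      Set.Finite.biUnion (Finset.finite_toSet _) fun b _ => hf s b
    refine (Set.ncard_le_ncard h1 hfU).trans ?_
    have h2 : (⋃ b ∈ hA.toFinset, {d | δ b d = M.simple s}).ncard
        ≤ ∑ b ∈ hA.toFinset, {d | δ b d = M.simple s}.ncard := by
      exact Finset.set_ncard_biUnion_le _ _
    refine h2.trans ?_
    have h3 : ∀ b ∈ hA.toFinset, {d | δ b d = M.simple s}.ncard ≤ m := fun b _ => hm s b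
    refine (Finset.sum_le_card_nsmul _ _ _ h3).trans ?_
    rw [smul_eq_mul]
    apply Nat.mul_le_mul_right
    rw [← Set.ncard_eq_toFinset_card _ hA]
    exact hN c

theorem exists_res_bound (h : IsBuilding M δ) (hf : ∀ s c, {d | δ c d = M.simple s}.Finite) {m : ℕ}
    (hm : ∀ s c, {d | δ c d = M.simple s}.ncard ≤ m) {U : Finset S}
    (hU : Sph M U) : ∃ N : ℕ, ∀ c, (residue M δ U c).ncard ≤ N := by
  have hU' : Finite (par M U) := hU
  have hfin : (par M U : Set M.Group).Finite := Set.toFinite _
  choose N hN using exists_dist_bound h hf hm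
  refine ⟨∑ w ∈ hfin.toFinset, N w, fun c => ?_⟩
  have h1 : residue M δ U c ⊆ ⋃ w ∈ hfin.toFinset, {d | δ c d = w} := by
    intro d hd
    exact Set.mem_biUnion ((Set.Finite.mem_toFinset hfin).2 hd) rfl
  have hfU : (⋃ w ∈ hfin.toFinset, {d | δ c d = w}).Finite :=
    Set.Finite.biUnion (Finset.finite_toSet _) fun w _ => finite_dist h hf c w
  refine (Set.ncard_le_ncard h1 hfU).trans ?_
  have h2 : (⋃ w ∈ hfin.toFinset, {d | δ c d = w}).ncard
      ≤ ∑ w ∈ hfin.toFinset, {d | δ c d = w}.ncard := Finset.set_ncard_biUnion_le _ _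
  exact h2.trans (Finset.sum_le_sum fun w _ => hN w c)

theorem res_ncard_pos (h : IsBuilding M δ) {U : Finset S} {x : Δ}
    (hfin : (residue M δ U x).Finite) : 0 < (residue M δ U x).ncard :=
  (Set.ncard_pos hfin).2 ⟨x, mem_residue_self h U x⟩

/-- the panels have bounded size if there are finitely many orbits of chambers -/
theorem exists_panel_bound {P : Type} [Group P] [MulAction P Δ] (hG : GAct P M δ)
    (hf : ∀ s c, {d | δ c d = M.simple s}.Finite) :
    ∃ m : ℕ, ∀ s c, {d | δ c d = M.simple s}.ncard ≤ m := by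
  obtain ⟨F, hF⟩ := hG.cof
  refine ⟨∑ s, ∑ y ∈ F, {d | δ y d = M.simple s}.ncard, fun s c => ?_⟩
  obtain ⟨p, y, hy, rfl⟩ := hF c
  have h1 : {d | δ (p • y) d = M.simple s} ⊆ (fun d => p • d) '' {d | δ y d = M.simple s} := by
    intro d hd
    refine ⟨p⁻¹ • d, ?_, smul_inv_smul p d⟩
    have h2 := hG.iso p y (p⁻¹ • d)
    rw [smul_inv_smul] at h2
    show δ y (p⁻¹ • d) = M.simple s
    rw [← h2]
    exact hd
  refine (Set.ncard_le_ncard h1 ((hf s y).image _)).trans ?_
  refine (Set.ncard_image_le (hf s y)).trans ?_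
  refine le_trans ?_ (Finset.single_le_sum (f := fun s => ∑ y ∈ F, {d | δ y d = M.simple s}.ncard)
    (fun _ _ => Nat.zero_le _) (Finset.mem_univ s))
  exact Finset.single_le_sum (f := fun y => {d | δ y d = M.simple s}.ncard)
    (fun _ _ => Nat.zero_le _) hy

/-! ### chains as functions on the chambers -/

/-- the function on the chambers -/
noncomputable def fz (M : CoxeterMatrix S) (δ : Δ → Δ → M.Group) (z : Finset S → Finset S → Set Δ → ℂ)
    (U T : Finset S) (x : Δ) : ℂ :=
  z U T (residue M δ U x) / ((residue M δ U x).ncard : ℂ)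

theorem memlp_fz (h : IsBuilding M δ) (hf : ∀ s c, {d | δ c d = M.simple s}.Finite) {i : ℕ}
    {z : Finset S → Finset S → Set Δ → ℂ} (hz : IsChB M δ i z) (U T : Finset S) :
    Memℓp (fz M δ z U T) 2 := by
  classical
  have h2 : (2 : ENNReal).toReal = 2 := by norm_num
  apply memℓp_gen
  rw [h2]
  have hnn : ∀ x, 0 ≤ ‖fz M δ z U T x‖ ^ (2 : ℝ) := fun x => by positivity
  refine summable_of_sum_le hnn (c := ∑' R, ‖z U T R‖ ^ 2) fun A => ?_
  have h1 : ∑ x ∈ A, ‖fz M δ z U T x‖ ^ (2 : ℝ)
      ≤ ∑ R ∈ A.image (residue M δ U), ‖z U T R‖ ^ 2 := by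
    rw [← Finset.sum_fiberwise_of_maps_to (g := residue M δ U) (t := A.image (residue M δ U))
      (fun x hx => Finset.mem_image_of_mem _ hx)]
    apply Finset.sum_le_sum
    intro R hR
    obtain ⟨x₀, hx₀, rfl⟩ := Finset.mem_image.1 hR
    by_cases h0 : z U T (residue M δ U x₀) = 0
    · rw [h0]
      apply le_of_eq
      rw [norm_zero]
      rw [show (0 : ℝ) ^ 2 = 0 by norm_num]
      apply Finset.sum_eq_zero
      intro x hx
      rw [Finset.mem_filter] at hx
      rw [fz, hx.2, h0, zero_div, norm_zero]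
      exact Real.zero_rpow (by norm_num)
    · obtain ⟨hUT, hT, _, _⟩ := hz.supp _ _ _ h0
      have hfin : (residue M δ U x₀).Finite := residue_finite h hf (sph_sub hUT hT) x₀
      set n := (residue M δ U x₀).ncard with hn
      have hnpos : 0 < n := res_ncard_pos h hfin
      have hn1 : (1 : ℝ) ≤ n := by exact_mod_cast hnpos
      have h3 : ∀ x ∈ A.filter (fun x => residue M δ U x = residue M δ U x₀),
          ‖fz M δ z U T x‖ ^ (2 : ℝ) ≤ ‖z U T (residue M δ U x₀)‖ ^ 2 / n ^ 2 := by
        intro x hx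
        rw [Finset.mem_filter] at hx
        rw [fz, hx.2, ← hn, norm_div, Complex.norm_natCast]
        apply le_of_eq
        rw [show ((2 : ℝ)) = ((2 : ℕ) : ℝ) by norm_num, Real.rpow_natCast, div_pow]
      refine (Finset.sum_le_card_nsmul _ _ _ h3).trans ?_
      have h4 : (A.filter (fun x => residue M δ U x = residue M δ U x₀)).card ≤ n := by
        rw [hn, Set.ncard_eq_toFinset_card _ hfin]
        apply Finset.card_le_card
        intro x hx
        rw [Finset.mem_filter] at hx
        rw [Set.Finite.mem_toFinset, ← hx.2]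
        exact mem_residue_self h U x
      rw [nsmul_eq_mul]
      have h5 : ((A.filter (fun x => residue M δ U x = residue M δ U x₀)).card : ℝ) ≤ n := by
        exact_mod_cast h4
      have h6 : (0 : ℝ) ≤ ‖z U T (residue M δ U x₀)‖ ^ 2 / n ^ 2 := by positivity
      refine (mul_le_mul_of_nonneg_right h5 h6).trans ?_
      have h7 : (n : ℝ) * (‖z U T (residue M δ U x₀)‖ ^ 2 / n ^ 2)
          = ‖z U T (residue M δ U x₀)‖ ^ 2 / n := by
        have : (n : ℝ) ≠ 0 := by positivity
        field_simp
      rw [h7]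
      exact div_le_self (by positivity) hn1
  exact h1.trans ((hz.l2 U T).sum_le_tsum _ fun R _ => by positivity)

/-- the elements of `ℓ²` -/
noncomputable def Fz (h : IsBuilding M δ) (hf : ∀ s c, {d | δ c d = M.simple s}.Finite) {i : ℕ}
    {z : Finset S → Finset S → Set Δ → ℂ} (hz : IsChB M δ i z) (U T : Finset S) : LD Δ :=
  ⟨fz M δ z U T, memlp_fz h hf hz U T⟩

theorem Fz_apply (h : IsBuilding M δ) (hf : ∀ s c, {d | δ c d = M.simple s}.Finite) {i : ℕ}
    {z : Finset S → Finset S → Set Δ → ℂ} (hz : IsChB M δ i z) (U T : Finset S) (x : Δ) :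
    (Fz h hf hz U T) x = z U T (residue M δ U x) / ((residue M δ U x).ncard : ℂ) := rfl

theorem Fz_mem (h : IsBuilding M δ) (hf : ∀ s c, {d | δ c d = M.simple s}.Finite) {i : ℕ}
    {z : Finset S → Finset S → Set Δ → ℂ} (hz : IsChB M δ i z) (U T : Finset S) :
    Fz h hf hz U T ∈ KT M δ U := by
  intro c d hcd
  rw [Fz_apply, Fz_apply, res_eq h hcd]

theorem Fz_ch (h : IsBuilding M δ) (hf : ∀ s c, {d | δ c d = M.simple s}.Finite) {i : ℕ}
    {z : Finset S → Finset S → Set Δ → ℂ} (hz : IsChB M δ i z) : Ch (Sph M) i (Fz h hf hz) := by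
  intro A T h0
  by_contra h1
  apply h0
  refine lp.ext (funext fun x => ?_)
  rw [lp.coeFn_zero, Pi.zero_apply, Fz_apply]
  have : z A T (residue M δ A x) = 0 := by
    by_contra h2
    obtain ⟨a, b, c, _⟩ := hz.supp _ _ _ h2
    exact h1 ⟨a, b, c⟩
  rw [this, zero_div]

theorem sgB_eq (ν : S → ℕ) (U T : Finset S) (v : S) : sgB ν U T v = (sg ν (T \ U) v : ℂ) := by
  unfold sgB sg
  push_cast
  rfl

theorem z_zero {i : ℕ} {z : Finset S → Finset S → Set Δ → ℂ} (hz : IsChB M δ i z) {U T : Finset S}
    (hT : ¬ Sph M T) (R : Set Δ) : z U T R = 0 := by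
  by_contra h0
  exact hT (hz.supp _ _ _ h0).2.1

theorem bdB_zero_of_not {i : ℕ} {z : Finset S → Finset S → Set Δ → ℂ} (hz : IsChB M δ i z)
    (ν : S → ℕ) {U T : Finset S} (hT : ¬ Sph M T) (R : Set Δ) : bdB M δ ν z U T R = 0 := by
  classical
  unfold bdB
  split_ifs
  · have h1 : ∑ v ∈ Tᶜ, sgB ν U T v * z U (insert v T) R = 0 := by
      apply Finset.sum_eq_zero
      intro v _
      rw [z_zero hz (fun h => hT (sph_sub (Finset.subset_insert v T) h)), mul_zero]
    have h2 : ∑ v ∈ U, sgB ν U T v * ∑ᶠ R' ∈ {R' | R' ⊆ R ∧ ∃ x, R' = residue M δ (U.erase v) x},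
        z (U.erase v) T R' = 0 := by
      apply Finset.sum_eq_zero
      intro v _
      have : ∑ᶠ R' ∈ {R' | R' ⊆ R ∧ ∃ x, R' = residue M δ (U.erase v) x},
        z (U.erase v) T R' = 0 := by
        apply finsum_mem_eq_zero_of_forall_eq_zero
        intro R' _
        exact z_zero hz hT R'
      rw [this, mul_zero]
    rw [h1, h2, sub_zero]
  · rfl

/-- the mean over a residue -/
theorem PT_Fz (h : IsBuilding M δ) (hf : ∀ s c, {d | δ c d = M.simple s}.Finite) {i : ℕ}
    {z : Finset S → Finset S → Set Δ → ℂ} (hz : IsChB M δ i z) {U T V : Finset S} (hVU : V ⊆ U)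
    (hU : Sph M U) (x : Δ) :
    (PT M δ U (Fz h hf hz V T)) x = (∑ᶠ R' ∈ {R' | R' ⊆ residue M δ U x ∧
      ∃ x, R' = residue M δ V x}, z V T R') / ((residue M δ U x).ncard : ℂ) := by
  classical
  have hfin : (residue M δ U x).Finite := residue_finite h hf hU x
  have hVs : Sph M V := sph_sub hVU hU
  rw [PT_avg h x hfin]
  rw [show ((hfin.toFinset.card : ℂ)) = ((residue M δ U x).ncard : ℂ) by
    rw [Set.ncard_eq_toFinset_card _ hfin]]
  rw [div_eq_inv_mul]
  congr 1
  -- the subresidues
  have hsub : ∀ d, d ∈ hfin.toFinset → residue M δ V d ⊆ residue M δ U x := by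
    intro d hd e he
    rw [Set.Finite.mem_toFinset, mem_res] at hd
    rw [mem_res] at he ⊢
    exact h.par_trans hd (par_le hVU he)
  have hset : {R' | R' ⊆ residue M δ U x ∧ ∃ x, R' = residue M δ V x}
      = ((hfin.toFinset.image (residue M δ V) : Finset (Set Δ)) : Set (Set Δ)) := by
    ext R'
    rw [Finset.coe_image]
    constructor
    · rintro ⟨h1, y, rfl⟩
      refine ⟨y, ?_, rfl⟩
      rw [Finset.mem_coe, Set.Finite.mem_toFinset]
      exact h1 (mem_residue_self h V y)
    · rintro ⟨y, hy, rfl⟩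
      exact ⟨hsub y hy, y, rfl⟩
  rw [hset, finsum_mem_coe_finset]
  rw [← Finset.sum_fiberwise_of_maps_to (g := residue M δ V)
    (t := hfin.toFinset.image (residue M δ V)) (fun x hx => Finset.mem_image_of_mem _ hx)]
  apply Finset.sum_congr rfl
  intro R hR
  obtain ⟨x₀, hx₀, rfl⟩ := Finset.mem_image.1 hR
  have hfin₀ : (residue M δ V x₀).Finite := residue_finite h hf hVs x₀
  have h1 : (hfin.toFinset.filter fun d => residue M δ V d = residue M δ V x₀) = hfin₀.toFinset := by
    ext d
    rw [Finset.mem_filter, Set.Finite.mem_toFinset hfin₀]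
    constructor
    · rintro ⟨_, h2⟩
      rw [← h2]
      exact mem_residue_self h V d
    · intro h2
      refine ⟨?_, (res_eq h h2).symm⟩
      rw [Set.Finite.mem_toFinset]
      exact hsub x₀ hx₀ h2
  have h2 : ∀ d ∈ hfin.toFinset.filter (fun d => residue M δ V d = residue M δ V x₀),
      (Fz h hf hz V T) d = z V T (residue M δ V x₀) / ((residue M δ V x₀).ncard : ℂ) := by
    intro d hd
    rw [Finset.mem_filter] at hd
    rw [Fz_apply, hd.2]
  rw [Finset.sum_congr rfl h2, Finset.sum_const, h1, ← Set.ncard_eq_toFinset_card _ hfin₀,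
    nsmul_eq_mul]
  have h3 : ((residue M δ V x₀).ncard : ℂ) ≠ 0 := by
    exact_mod_cast (res_ncard_pos h hfin₀).ne'
  rw [mul_div_cancel₀ _ h3]

/-- the boundary -/
theorem cbd_Fz (h : IsBuilding M δ) (hf : ∀ s c, {d | δ c d = M.simple s}.Finite) {i : ℕ}
    {z : Finset S → Finset S → Set Δ → ℂ} (hz : IsChB M δ i z) (ν : S → ℕ) (U T : Finset S) (x : Δ) :
    (cbd ν (fun A => ((PT M δ A : LD Δ →L[ℂ] LD Δ) : LD Δ →ₗ[ℂ] LD Δ)) (Fz h hf hz) U T) x
      = bdB M δ ν z U T (residue M δ U x) / ((residue M δ U x).ncard : ℂ) := by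
  classical
  by_cases hUT : U ⊆ T
  swap
  · rw [cbd_of_not ν _ _ hUT, lp.coeFn_zero, Pi.zero_apply]
    unfold bdB
    rw [if_neg fun h1 => hUT h1.1, zero_div]
  by_cases hT : Sph M T
  swap
  · rw [bdB_zero_of_not hz ν hT, zero_div, cbd_of_subset ν _ _ hUT]
    have h1 : ∑ v ∈ Tᶜ, sg ν (T \ U) v • Fz h hf hz U (insert v T) = 0 := by
      apply Finset.sum_eq_zero
      intro v _
      have : Fz h hf hz U (insert v T) = 0 := by
        by_contra h0
        exact hT (sph_sub (Finset.subset_insert v T) (Fz_ch h hf hz _ _ h0).2.1)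
      rw [this, smul_zero]
    have h2 : ∑ v ∈ U, sg ν (T \ U) v •
        ((PT M δ U : LD Δ →L[ℂ] LD Δ) : LD Δ →ₗ[ℂ] LD Δ) (Fz h hf hz (U.erase v) T) = 0 := by
      apply Finset.sum_eq_zero
      intro v _
      have : Fz h hf hz (U.erase v) T = 0 := by
        by_contra h0
        exact hT (Fz_ch h hf hz _ _ h0).2.1
      rw [this, map_zero, smul_zero]
    rw [h1, h2, sub_zero, lp.coeFn_zero, Pi.zero_apply]
  have hU : Sph M U := sph_sub hUT hT
  rw [cbd_of_subset ν _ _ hUT]
  unfold bdB
  rw [if_pos ⟨hUT, x, rfl⟩, sub_div, lp.coeFn_sub, Pi.sub_apply]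
  congr 1
  · rw [lp.coeFn_sum, Finset.sum_apply, Finset.sum_div]
    apply Finset.sum_congr rfl
    intro v _
    rw [sgB_eq, ← Int.cast_smul_eq_zsmul ℂ, lp.coeFn_smul, Pi.smul_apply, Fz_apply, smul_eq_mul,
      mul_div_assoc]
  · rw [lp.coeFn_sum, Finset.sum_apply, Finset.sum_div]
    apply Finset.sum_congr rfl
    intro v hv
    rw [sgB_eq, ← Int.cast_smul_eq_zsmul ℂ, lp.coeFn_smul, Pi.smul_apply, smul_eq_mul, mul_div_assoc]
    congr 1
    exact PT_Fz h hf hz (Finset.erase_subset v U) hU x

/-! ### functions as chains -/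

open Classical in
/-- the chain of the functions `g` -/
noncomputable def yg (M : CoxeterMatrix S) (δ : Δ → Δ → M.Group)
    (g : Finset S → Finset S → LD Δ) (U T : Finset S) (R : Set Δ) : ℂ :=
  if h : ∃ x, R = residue M δ U x then (R.ncard : ℂ) * (g U T) h.choose else 0

theorem yg_res (h : IsBuilding M δ) (g : Finset S → Finset S → LD Δ)
    {U T : Finset S} (hgU : g U T ∈ KT M δ U) (x : Δ) :
    yg M δ g U T (residue M δ U x) = ((residue M δ U x).ncard : ℂ) * (g U T) x := by
  have h1 : ∃ y, residue M δ U x = residue M δ U y := ⟨x, rfl⟩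
  unfold yg
  rw [dif_pos h1]
  congr 1
  refine hgU _ _ ?_
  have h2 := h1.choose_spec
  have h3 : x ∈ residue M δ U h1.choose := by
    rw [← h2]
    exact mem_residue_self h U x
  exact h3

theorem isCh_yg (h : IsBuilding M δ) (hf : ∀ s c, {d | δ c d = M.simple s}.Finite) {m : ℕ}
    (hm : ∀ s c, {d | δ c d = M.simple s}.ncard ≤ m) {i : ℕ}
    {g : Finset S → Finset S → LD Δ} (hg : Ch (Sph M) i g) :
    IsChB M δ i (yg M δ g) := by
  classical
  refine ⟨fun U T R h0 => ?_, fun U T => ?_⟩
  · unfold yg at h0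
    by_cases h1 : ∃ x, R = residue M δ U x
    · rw [dif_pos h1] at h0
      have h2 : g U T ≠ 0 := by
        intro h2
        apply h0
        rw [h2, lp.coeFn_zero, Pi.zero_apply, mul_zero]
      obtain ⟨a, b, c⟩ := hg _ _ h2
      exact ⟨a, b, c, h1⟩
    · exact absurd (dif_neg h1) h0
  · by_cases h0 : g U T = 0
    · have : (fun R => ‖yg M δ g U T R‖ ^ 2) = fun _ => 0 := by
        funext R
        unfold yg
        split_ifs
        · rw [h0, lp.coeFn_zero, Pi.zero_apply, mul_zero, norm_zero]
          norm_num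
        · rw [norm_zero]
          norm_num
      rw [this]
      exact summable_zero
    · obtain ⟨a, b, _⟩ := hg _ _ h0
      obtain ⟨N, hN⟩ := exists_res_bound h hf hm (sph_sub a b)
      have hs : Summable fun d => ‖(g U T) d‖ ^ 2 := by
        have h2 := (lp.memℓp (g U T)).summable (by norm_num)
        simpa using h2
      -- the bound
      set k : Set Δ → ℝ := fun R =>
        if h : ∃ x, R = residue M δ U x then ‖(g U T) h.choose‖ ^ 2 else 0 with hk
      have hks : Summable k := by
        set ι : {R : Set Δ // ∃ x, R = residue M δ U x} → Set Δ := fun R => R.1 with hι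
        have h1 : Summable (k ∘ ι) := by
          have h2 : k ∘ ι = (fun d => ‖(g U T) d‖ ^ 2) ∘
              fun R : {R : Set Δ // ∃ x, R = residue M δ U x} => R.2.choose := by
            funext R
            show (if h : ∃ x, R.1 = residue M δ U x then ‖(g U T) h.choose‖ ^ 2 else 0) = _
            rw [dif_pos R.2]
            rfl
          rw [h2]
          refine hs.comp_injective ?_
          intro R R' hRR
          have h3 := R.2.choose_spec
          have h4 := R'.2.choose_spec
          have hRR' : R.2.choose = R'.2.choose := hRR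
          rw [← hRR'] at h4
          exact Subtype.ext (h3.trans h4.symm)
        refine (Function.Injective.summable_iff (f := k) (g := ι) Subtype.val_injective ?_).1 h1
        intro R hR
        apply dif_neg
        intro h2
        exact hR ⟨⟨R, h2⟩, rfl⟩
      refine Summable.of_nonneg_of_le (fun R => by positivity) (fun R => ?_)
        (hks.mul_left ((N : ℝ) ^ 2))
      show ‖yg M δ g U T R‖ ^ 2 ≤ (N : ℝ) ^ 2 * k R
      unfold yg
      rw [hk]
      by_cases h1 : ∃ x, R = residue M δ U x
      · simp only [dif_pos h1]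
        rw [norm_mul, Complex.norm_natCast, mul_pow]
        apply mul_le_mul_of_nonneg_right _ (by positivity)
        have h2 : R.ncard ≤ N := by
          obtain ⟨x, hx⟩ := h1
          rw [hx]
          exact hN x
        have h3 : (R.ncard : ℝ) ≤ N := by exact_mod_cast h2
        exact pow_le_pow_left₀ (by positivity) h3 2
      · simp only [dif_neg h1]
        rw [norm_zero, mul_zero]
        norm_num

/-- **The reduced `ℓ²`-homology of the Davis realization vanishes in degree `i` if all full subcomplexes of the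
nerve are exact in the sizes `≥ i`.** -/
theorem l2zeroB_of_ex (h : IsBuilding M δ) (hf : ∀ s c, {d | δ c d = M.simple s}.Finite) {m : ℕ}
    (hm : ∀ s c, {d | δ c d = M.simple s}.ncard ≤ m) (i : ℕ)
    (hL : ∀ ν : S → ℕ, Function.Injective ν → ∀ j, i ≤ j → ∀ U : Finset S,
      Ex ℂ ν (fun σ => Sph M σ ∧ σ.card = j ∧ σ ⊆ U) (fun σ => Sph M σ ∧ σ.card = j + 1 ∧ σ ⊆ U)) :
    L2ZeroB M δ i := by
  classical
  intro ν hν z hz hz0 ε hε
  have hS : ∀ T U : Finset S, T ⊆ U → Sph M U → Sph M T := fun T U => sph_sub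
  have hex : ∀ A, Sph M A → Ex ℂ ν (fun σ => Sph M (σ ∪ A) ∧ σ.card = i ∧ Disjoint σ A)
      (fun σ => Sph M (σ ∪ A) ∧ σ.card = i + 1 ∧ Disjoint σ A) := by
    intro A _ c hc hc0
    obtain ⟨y, h1, h2⟩ := ex_links (Sph M) hS ν hν i (hL ν hν) A i le_rfl univ c (fun σ h0 => by
      obtain ⟨a, b, d⟩ := hc σ h0
      exact ⟨a, b, d, Finset.subset_univ _⟩) hc0
    refine ⟨y, fun σ h0 => ?_, h2⟩
    obtain ⟨a, b, d, _⟩ := h1 σ h0
    exact ⟨a, b, d⟩
  obtain ⟨g, hg1, hg2, hg3⟩ := exact_links (Sph M) hS ν hν i hex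
    (fun A => ((PT M δ A : LD Δ →L[ℂ] LD Δ) : LD Δ →ₗ[ℂ] LD Δ))
    (fun A x => by
      have := PT_nest (M := M) (δ := δ) (Finset.Subset.refl A)
      exact congrArg (fun L : LD Δ →L[ℂ] LD Δ => L x) this)
    (fun A v hv x => by
      have := PT_nest' (M := M) (δ := δ) (Finset.erase_subset v A)
      exact congrArg (fun L : LD Δ →L[ℂ] LD Δ => L x) this)
    (Fz h hf hz) (Fz_ch h hf hz) (fun A T => PT_eq_self_iff.2 (Fz_mem h hf hz A T)) (by
      funext U T
      refine lp.ext (funext fun x => ?_)
      rw [cbd_Fz, hz0]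
      show (0 : ℂ) / _ = ((0 : LD Δ)) x
      rw [zero_div, lp.coeFn_zero, Pi.zero_apply])
  have hgK : ∀ U T, g U T ∈ KT M δ U := fun U T => PT_eq_self_iff.1 (hg2 U T)
  have hy := isCh_yg h hf hm hg1
  refine ⟨yg M δ g, hy, ?_⟩
  -- the functions of the chain are `g`
  have hFg : Fz h hf hy = g := by
    funext U T
    refine lp.ext (funext fun x => ?_)
    rw [Fz_apply]
    by_cases h0 : g U T = 0
    · have : yg M δ g U T (residue M δ U x) = 0 := by
        rw [yg_res h g (hgK U T), h0, lp.coeFn_zero, Pi.zero_apply, mul_zero]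
      rw [this, h0, lp.coeFn_zero, Pi.zero_apply, zero_div]
    · obtain ⟨a, b, _⟩ := hg1 _ _ h0
      rw [yg_res h g (hgK U T)]
      have h3 : ((residue M δ U x).ncard : ℂ) ≠ 0 := by
        exact_mod_cast (res_ncard_pos h (residue_finite h hf (sph_sub a b) x)).ne'
      rw [mul_div_cancel_left₀ _ h3]
  have hbd : ∀ U T R, bdB M δ ν (yg M δ g) U T R = z U T R := by
    intro U T R
    by_cases hT : Sph M T
    swap
    · rw [bdB_zero_of_not hy ν hT, z_zero hz hT]
    by_cases h1 : U ⊆ T ∧ ∃ x, R = residue M δ U x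
    swap
    · unfold bdB
      rw [if_neg h1]
      by_contra h0
      obtain ⟨a, _, _, b⟩ := hz.supp _ _ _ (Ne.symm h0)
      exact h1 ⟨a, b⟩
    obtain ⟨hUT, x, rfl⟩ := h1
    have h2 := cbd_Fz h hf hy ν U T x
    rw [hFg, hg3, Fz_apply] at h2
    have h3 : ((residue M δ U x).ncard : ℂ) ≠ 0 := by
      exact_mod_cast (res_ncard_pos h (residue_finite h hf (sph_sub hUT hT) x)).ne'
    rw [div_left_inj' h3] at h2
    exact h2.symm
  have hzero : ∑ U : Finset S, ∑ T : Finset S, ∑' R : Set Δ,
      ‖z U T R - bdB M δ ν (yg M δ g) U T R‖ ^ 2 = 0 := by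
    apply Finset.sum_eq_zero
    intro U _
    apply Finset.sum_eq_zero
    intro T _
    have : (fun R => ‖z U T R - bdB M δ ν (yg M δ g) U T R‖ ^ 2) = fun _ => (0 : ℝ) := by
      funext R
      rw [hbd, sub_self, norm_zero]
      norm_num
    rw [this, tsum_zero]
  rw [hzero]
  exact hε

end Pool.Agent.H8.BD

end

section

/-!
# Project BLD: the weak order and inversion sets, first part

`Nv M w` = positive roots `β` with `w⁻¹ β < 0`. Signs of roots: `root_sign`, `root_not_neg`, `simple_pos`;
`len_up_iff`, `len_down_iff` (and `'` versions) translate lengths into signs; all in `Act`.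

* `not_mem_Nv`: `root_sign`, `root_not_neg`.
* `Nv_up`: let `β ∈ Nv (w s)`, `β ≠ w α_s`. Then `γ = w⁻¹ β` is a root, `≠ α_s`, and `s γ = (w s)⁻¹ β ≤ 0`. If
  `γ ≥ 0` then `s γ ≥ 0` by `simple_pos`: contradiction to `root_not_neg`. So `β ∈ Nv w`. The other inclusion is
  the same argument for `-γ`.
* `Nv_down`: `Nv_up` for `w s` instead of `w` (`w s s = w`, `T (w s) α_s = -T w α_s`).
* `Nv_finite`, `Nv_ncard`: induction on the length (`exists_right`).
* `len_inv_mul`: the map `β ↦ ± w β` (the sign that makes it positive) is a bijection from `Nv (w⁻¹ w')` to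
  `(Nv w' \ Nv w) ∪ (Nv w \ Nv w')`: if `w β > 0` then `w β ∈ Nv w' \ Nv w`, else `-w β ∈ Nv w \ Nv w'`.
* `le_iff`: `len (v⁻¹ w) = |Nv v \ Nv w| + |Nv w \ Nv v|`, `len w - len v = |Nv w \ Nv v| - |Nv v \ Nv w|`.
-/

set_option autoImplicit false

open Finset

namespace Pool.Agent.H97.BLD

open Pool.Agent.H4.FC Pool.Agent.H78.RC

variable {S : Type} [Fintype S] [DecidableEq S] (M : CoxeterMatrix S)

theorem not_mem_Nv {w : M.Group} {β : S → ℝ} (h : IsRoot M β) (h0 : ∀ i, 0 ≤ β i) :
    β ∉ Nv M w ↔ ∀ i, 0 ≤ T M w⁻¹ β i := by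
  constructor
  · intro h1
    rcases root_sign M (isRoot_T M h w⁻¹) with h2 | h2
    · exact h2
    · exact absurd ⟨h, h0, h2⟩ h1
  · intro h1 h2
    exact root_not_neg M (isRoot_T M h w⁻¹) h1 h2.2.2

theorem Nv_one : Nv M 1 = ∅ := by
  ext β
  simp only [Set.mem_empty_iff_false, iff_false]
  intro h
  have h1 := h.2.2
  rw [inv_one] at h1
  simp only [T_one] at h1
  exact root_not_neg M h.1 h.2.1 h1

theorem Nv_up {w : M.Group} {s : S} (h : len M (w * M.simple s) = len M w + 1) :
    T M w (Pi.single s 1) ∉ Nv M w ∧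
      Nv M (w * M.simple s) = insert (T M w (Pi.single s 1)) (Nv M w) := by
  have hpos := (len_up_iff M w s).1 h
  have hroot : IsRoot M (T M w (Pi.single s 1)) := ⟨w, s, rfl⟩
  have h1 : T M w (Pi.single s 1) ∉ Nv M w := by
    rw [not_mem_Nv M hroot hpos]
    intro i
    rw [T_inv_T]
    exact single_nonneg s i
  refine ⟨h1, ?_⟩
  have hinv : ∀ β, T M (w * M.simple s)⁻¹ β = T M (M.simple s) (T M w⁻¹ β) := by
    intro β
    rw [mul_inv_rev, simple_inv, T_mul]
  ext β
  rw [Set.mem_insert_iff]
  constructor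
  · rintro ⟨hβ, hβ0, hβ1⟩
    by_cases he : β = T M w (Pi.single s 1)
    · exact Or.inl he
    · right
      by_contra hc
      have h2 := (not_mem_Nv M hβ hβ0).1 hc
      have h3 : T M w⁻¹ β ≠ Pi.single s 1 := by
        intro h4
        apply he
        rw [← h4, T_T_inv]
      have h5 := simple_pos M (isRoot_T M hβ w⁻¹) h2 h3
      rw [← hinv] at h5
      exact root_not_neg M (isRoot_T M hβ _) h5 hβ1
  · rintro (rfl | ⟨hβ, hβ0, hβ1⟩)
    · refine ⟨hroot, hpos, fun i => ?_⟩
      rw [hinv, T_inv_T, T_simple_self, Pi.neg_apply]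
      exact neg_nonpos.2 (single_nonneg s i)
    · refine ⟨hβ, hβ0, fun i => ?_⟩
      have h2 : IsRoot M (-T M w⁻¹ β) := isRoot_neg M (isRoot_T M hβ w⁻¹)
      have h3 : ∀ i, 0 ≤ (-T M w⁻¹ β) i := fun i => by
        rw [Pi.neg_apply]
        exact neg_nonneg.2 (hβ1 i)
      have h4 : -T M w⁻¹ β ≠ Pi.single s 1 := by
        intro h5
        have h6 : β = -T M w (Pi.single s 1) := by
          rw [← h5, T_neg, T_T_inv, neg_neg]
        refine root_not_neg M hβ hβ0 fun i => ?_
        rw [h6, Pi.neg_apply]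
        exact neg_nonpos.2 (hpos i)
      have h5 := simple_pos M h2 h3 h4 i
      rw [T_neg, Pi.neg_apply] at h5
      rw [hinv]
      linarith

theorem Nv_down {w : M.Group} {s : S} (h : len M (w * M.simple s) + 1 = len M w) :
    -T M w (Pi.single s 1) ∉ Nv M (w * M.simple s) ∧
      Nv M w = insert (-T M w (Pi.single s 1)) (Nv M (w * M.simple s)) := by
  have e : w * M.simple s * M.simple s = w := by rw [mul_assoc, simple_sq, mul_one]
  have h1 : len M (w * M.simple s * M.simple s) = len M (w * M.simple s) + 1 := by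
    rw [e, h]
  have h2 := Nv_up M h1
  have h3 : T M (w * M.simple s) (Pi.single s 1) = -T M w (Pi.single s 1) := by
    rw [T_mul, T_simple_self, T_neg]
  rw [e, h3] at h2
  exact h2

private theorem wkA_ind {p : M.Group → Prop} (h1 : p 1)
    (h2 : ∀ w s, len M (w * M.simple s) + 1 = len M w → p (w * M.simple s) → p w) :
    ∀ w, p w := by
  intro w
  obtain ⟨n, hn⟩ : ∃ n, n = len M w := ⟨_, rfl⟩
  induction n generalizing w with
  | zero => rwa [(len_eq_zero M).1 hn.symm]
  | succ n ih =>
    have hw : w ≠ 1 := by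
      rintro rfl
      rw [len_one] at hn
      omega
    obtain ⟨s, hs⟩ := exists_right M hw
    exact h2 w s hs (ih _ (by omega))

theorem Nv_finite (w : M.Group) : (Nv M w).Finite := by
  refine wkA_ind M (p := fun w => (Nv M w).Finite) ?_ ?_ w
  · rw [Nv_one]
    exact Set.finite_empty
  · intro w s h1 h2
    rw [(Nv_down M h1).2]
    exact h2.insert _

theorem Nv_ncard (w : M.Group) : (Nv M w).ncard = len M w := by
  refine wkA_ind M (p := fun w => (Nv M w).ncard = len M w) ?_ ?_ w
  · rw [Nv_one, Set.ncard_empty, len_one]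
  · intro w s h1 h2
    rw [(Nv_down M h1).2, Set.ncard_insert_of_notMem (Nv_down M h1).1 (Nv_finite M _), h2, h1]

theorem len_inv_mul (w w' : M.Group) :
    len M (w⁻¹ * w') = (Nv M w \ Nv M w').ncard + (Nv M w' \ Nv M w).ncard := by
  classical
  -- sets
  have hinv : ∀ β, T M (w⁻¹ * w')⁻¹ β = T M w'⁻¹ (T M w β) := by
    intro β
    rw [mul_inv_rev, inv_inv, T_mul]
  obtain ⟨A, hA⟩ : ∃ A : Set (S → ℝ), A = {β | β ∈ Nv M (w⁻¹ * w') ∧ ∀ i, 0 ≤ T M w β i} := ⟨_, rfl⟩
  obtain ⟨B, hB⟩ : ∃ B : Set (S → ℝ), B = {β | β ∈ Nv M (w⁻¹ * w') ∧ ∀ i, T M w β i ≤ 0} := ⟨_, rfl⟩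
  have hAB : Nv M (w⁻¹ * w') = A ∪ B := by
    rw [hA, hB]
    ext β
    simp only [Set.mem_union, Set.mem_setOf_eq]
    constructor
    · intro h
      rcases root_sign M (isRoot_T M h.1 w) with h1 | h1
      · exact Or.inl ⟨h, h1⟩
      · exact Or.inr ⟨h, h1⟩
    · rintro (h | h)
      · exact h.1
      · exact h.1
  have hd : Disjoint A B := by
    rw [Set.disjoint_left]
    intro β h1 h2
    rw [hA] at h1
    rw [hB] at h2
    exact root_not_neg M (isRoot_T M h1.1.1 w) h1.2 h2.2
  have hAf : A.Finite := (Nv_finite M (w⁻¹ * w')).subset (by rw [hAB]; exact Set.subset_union_left)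
  have hBf : B.Finite := (Nv_finite M (w⁻¹ * w')).subset (by rw [hAB]; exact Set.subset_union_right)
  have hcard : (Nv M (w⁻¹ * w')).ncard = A.ncard + B.ncard := by
    rw [hAB, Set.ncard_union_eq hd hAf hBf]
  have hinj : Function.Injective (T M w) := by
    intro x y hxy
    rw [← T_inv_T M w x, hxy, T_inv_T]
  have hA' : T M w '' A = Nv M w' \ Nv M w := by
    ext γ
    constructor
    · rintro ⟨β, h1, rfl⟩
      rw [hA] at h1
      obtain ⟨⟨h2, h3, h4⟩, h5⟩ := h1
      refine ⟨⟨isRoot_T M h2 w, h5, ?_⟩, ?_⟩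
      · intro i
        rw [← hinv]
        exact h4 i
      · rw [not_mem_Nv M (isRoot_T M h2 w) h5]
        intro i
        rw [T_inv_T]
        exact h3 i
    · rintro ⟨⟨h2, h3, h4⟩, h5⟩
      rw [not_mem_Nv M h2 h3] at h5
      refine ⟨T M w⁻¹ γ, ?_, T_T_inv M w γ⟩
      rw [hA]
      refine ⟨⟨isRoot_T M h2 w⁻¹, h5, ?_⟩, ?_⟩
      · intro i
        rw [hinv, T_T_inv]
        exact h4 i
      · intro i
        rw [T_T_inv]
        exact h3 i
  have hB' : (fun β => -T M w β) '' B = Nv M w \ Nv M w' := by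
    ext γ
    constructor
    · rintro ⟨β, h1, rfl⟩
      rw [hB] at h1
      obtain ⟨⟨h2, h3, h4⟩, h5⟩ := h1
      have h6 : IsRoot M (-T M w β) := isRoot_neg M (isRoot_T M h2 w)
      have h7 : ∀ i, 0 ≤ (-T M w β) i := fun i => by
        rw [Pi.neg_apply]; exact neg_nonneg.2 (h5 i)
      refine ⟨⟨h6, h7, ?_⟩, ?_⟩
      · intro i
        rw [T_neg, T_inv_T, Pi.neg_apply]
        exact neg_nonpos.2 (h3 i)
      · rw [not_mem_Nv M h6 h7]
        intro i
        rw [T_neg, ← hinv, Pi.neg_apply]
        exact neg_nonneg.2 (h4 i)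
    · rintro ⟨⟨h2, h3, h4⟩, h5⟩
      rw [not_mem_Nv M h2 h3] at h5
      refine ⟨-T M w⁻¹ γ, ?_, ?_⟩
      · rw [hB]
        refine ⟨⟨isRoot_neg M (isRoot_T M h2 w⁻¹), fun i => ?_, fun i => ?_⟩, fun i => ?_⟩
        · rw [Pi.neg_apply]; exact neg_nonneg.2 (h4 i)
        · rw [hinv, T_neg, T_T_inv, T_neg, Pi.neg_apply]
          exact neg_nonpos.2 (h5 i)
        · rw [T_neg, T_T_inv, Pi.neg_apply]
          exact neg_nonpos.2 (h3 i)
      · show -T M w (-T M w⁻¹ γ) = γ
        rw [T_neg, T_T_inv, neg_neg]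
  rw [← Nv_ncard, hcard, ← hA', ← hB', Set.ncard_image_of_injective A hinj,
    Set.ncard_image_of_injective B (f := fun β => -T M w β) (fun x y hxy => hinj (neg_injective hxy)),
    add_comm]

theorem le_iff {v w : M.Group} : Le M v w ↔ Nv M v ⊆ Nv M w := by
  have h1 := len_inv_mul M v w
  have h2 := Set.ncard_inter_add_ncard_diff_eq_ncard (Nv M v) (Nv M w) (Nv_finite M v)
  have h3 := Set.ncard_inter_add_ncard_diff_eq_ncard (Nv M w) (Nv M v) (Nv_finite M w)
  rw [Nv_ncard] at h2 h3
  rw [Set.inter_comm] at h3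
  have h4 : (Nv M v \ Nv M w).Finite := (Nv_finite M v).subset Set.diff_subset
  unfold Le
  constructor
  · intro h
    have h5 : (Nv M v \ Nv M w).ncard = 0 := by omega
    rw [Set.ncard_eq_zero h4] at h5
    exact Set.diff_eq_empty.1 h5
  · intro h
    have h5 : (Nv M v \ Nv M w).ncard = 0 := by
      rw [Set.diff_eq_empty.2 h, Set.ncard_empty]
    omega

theorem le_trans' {u v w : M.Group} (h1 : Le M u v) (h2 : Le M v w) : Le M u w := by
  rw [le_iff] at h1 h2 ⊢
  exact h1.trans h2

end Pool.Agent.H97.BLD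

end

section

/-!
# Project BLD: the weak order and inversion sets, second part

* `descent_par`: the coordinate `s` of `w α_s` is `1` if `s ∉ J` (`T_par`), but `w α_s ≤ 0` (`len_down_iff`).
* `le_par`: downward induction on `len (v⁻¹ w)`: a right descent `s` of `v⁻¹ w` is one of `w`, in `J`, and
  `v ≤ w s`.
* `Nv_par`: the coordinates of `w⁻¹ β` outside `J` are those of `β` (`T_par`).
* `par_dec`: take `b` of minimal length in `W_J y`.
* `len_par_mul`: `Nv u ⊆ Nv (u b)`: let `β ∈ Nv u`; `-u⁻¹ β ≥ 0` has support in `J` (`Nv_par`, `T_par`), it is a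
  nonnegative combination of `α_t`, `t ∈ J`, and `b⁻¹ α_t ≥ 0` (`len_up_iff'`). So `(u b)⁻¹ β ≤ 0`. Then `le_iff`.
* `refl_short` (a wall which separates `y` and `b` is near to `y`): induction on `len (y⁻¹ b)`, for all `y`. It is not
  `0` as `γ` distinguishes `y` and `b`. Let `s` be a left descent of `y⁻¹ b`, `y₁ = y s`, `len (y₁⁻¹ b) = len (y⁻¹ b) - 1`.
  If `γ ∈ Nv y₁` then `γ = ± y α_s` (`Nv_up`, `Nv_down`), so `t = y s y⁻¹` (`T_conj`, `T_ext`) and `len (y⁻¹ t y) = 1`.
  Otherwise use the induction hypothesis and `y⁻¹ t y = s (y₁⁻¹ t y₁) s`.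
-/

set_option autoImplicit false

open Finset

namespace Pool.Agent.H97.BLD

open Pool.Agent.H4.FC Pool.Agent.H78.RC

variable {S : Type} [Fintype S] [DecidableEq S] (M : CoxeterMatrix S)

theorem descent_par {J : Finset S} {w : M.Group} (hw : w ∈ par M J) {s : S}
    (h : len M (w * M.simple s) + 1 = len M w) : s ∈ J := by
  by_contra hs
  have h1 := T_par M hw (Pi.single s 1) hs
  have h2 := (len_down_iff M w s).1 h s
  rw [h1, Pi.single_eq_same] at h2
  linarith

theorem Nv_par {J : Finset S} {w : M.Group} (hw : w ∈ par M J) {β : S → ℝ} (hβ : β ∈ Nv M w)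
    {i : S} (hi : i ∉ J) : β i = 0 := by
  have h1 := hβ.2.2 i
  rw [T_par M (inv_mem hw) β hi] at h1
  exact le_antisymm h1 (hβ.2.1 i)

theorem par_dec (J : Finset S) (y : M.Group) :
    ∃ a ∈ par M J, ∃ b, y = a * b ∧ ∀ t ∈ J, len M (M.simple t * b) = len M b + 1 := by
  obtain ⟨b, ⟨a, ha, hab⟩, hmin⟩ := (measure (len M)).wf.has_min
    {b | ∃ a ∈ par M J, y = a * b} ⟨y, 1, one_mem _, (one_mul y).symm⟩
  refine ⟨a, ha, b, hab, fun t ht => ?_⟩
  rcases len_simple_mul M b t with h1 | h1
  · exact h1
  · exfalso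
    refine hmin (M.simple t * b) ⟨a * M.simple t, mul_mem ha (simple_mem_par M ht), ?_⟩ ?_
    · rw [mul_assoc, ← mul_assoc (M.simple t) (M.simple t) b, simple_sq, one_mul]
      exact hab
    · show len M (M.simple t * b) < len M b
      omega

theorem len_par_mul {J : Finset S} {u b : M.Group} (hu : u ∈ par M J)
    (hb : ∀ t ∈ J, len M (M.simple t * b) = len M b + 1) : len M (u * b) = len M u + len M b := by
  have h1 : Le M u (u * b) := by
    rw [le_iff]
    intro β hβ
    refine ⟨hβ.1, hβ.2.1, fun i => ?_⟩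
    rw [mul_inv_rev, T_mul, T_apply]
    refine Finset.sum_nonpos fun j _ => ?_
    by_cases hj : j ∈ J
    · exact mul_nonpos_of_nonpos_of_nonneg (hβ.2.2 j) ((len_up_iff' M b j).1 (hb j hj) i)
    · rw [T_par M (inv_mem hu) β hj, Nv_par M hu hβ hj, zero_mul]
  unfold Le at h1
  rw [inv_mul_cancel_left] at h1
  exact h1.symm

theorem refl_short {γ : S → ℝ} {t y b : M.Group} (ht : ∀ x, T M t x = x - bf (kR M) γ x • γ)
    (h1 : γ ∈ Nv M b) (h2 : γ ∉ Nv M y) : len M (y⁻¹ * t * y) ≤ 2 * len M (y⁻¹ * b) := by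
  obtain ⟨n, hn⟩ : ∃ n, len M (y⁻¹ * b) = n := ⟨_, rfl⟩
  induction n generalizing y with
  | zero =>
    exfalso
    have h3 : y = b := inv_mul_eq_one.1 ((len_eq_zero M).1 hn)
    rw [h3] at h2
    exact h2 h1
  | succ n ih =>
    have h3 : y⁻¹ * b ≠ 1 := by
      intro h0
      rw [h0, len_one] at hn
      omega
    obtain ⟨s, hs⟩ := exists_left M h3
    by_cases h4 : γ ∈ Nv M (y * M.simple s)
    · have h5 : γ = T M y (Pi.single s 1) := by
        rcases len_mul_simple M y s with h6 | h6
        · rw [(Nv_up M h6).2] at h4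
          rcases h4 with h7 | h7
          · exact h7
          · exact absurd h7 h2
        · exfalso
          refine h2 ?_
          rw [(Nv_down M h6).2]
          exact Set.mem_insert_of_mem _ h4
      have h6 : t = y * M.simple s * y⁻¹ := by
        refine T_ext M fun x => ?_
        rw [ht, T_conj, h5]
      have h7 : y⁻¹ * t * y = M.simple s := by
        rw [h6]
        group
      rw [h7, len_simple, hn]
      omega
    · have h5 : (y * M.simple s)⁻¹ * b = M.simple s * (y⁻¹ * b) := by
        rw [mul_inv_rev, simple_inv, mul_assoc]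
      have h6 : len M ((y * M.simple s)⁻¹ * b) = n := by
        rw [h5]
        omega
      have h7 := ih h4 h6
      rw [h6] at h7
      have h8 : y⁻¹ * t * y =
          M.simple s * ((y * M.simple s)⁻¹ * t * (y * M.simple s)) * M.simple s := by
        have h9 : M.simple s * M.simple s = 1 := simple_sq M s
        rw [mul_inv_rev, simple_inv]
        calc y⁻¹ * t * y = 1 * (y⁻¹ * t * y) * 1 := by rw [one_mul, mul_one]
          _ = (M.simple s * M.simple s) * (y⁻¹ * t * y) * (M.simple s * M.simple s) := by rw [h9]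
          _ = _ := by simp only [mul_assoc]
      rw [h8, hn]
      have h10 := len_mul_le M (M.simple s * ((y * M.simple s)⁻¹ * t * (y * M.simple s)))
        (M.simple s)
      have h11 := len_mul_le M (M.simple s) ((y * M.simple s)⁻¹ * t * (y * M.simple s))
      rw [len_simple] at h10 h11
      omega

end Pool.Agent.H97.BLD

end

section

/-!
# Project BD: first letters, cosets of spherical subgroups and their longest elements

`fl M w` = first letters, `Mx M s z`: `z` is the longest element of its coset of `W_s`, `cs M z s s'`: the longest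
elements of the cosets of `W_s'` in `z W_s`.
-/

set_option autoImplicit false
set_option linter.unusedSectionVars false

open Finset

namespace Pool.Agent.H4.BD

open Pool.Agent.H4.FC Pool.Agent.H78.RC Pool.Agent.H97.BLD

variable {S : Type} [Fintype S] [DecidableEq S] (M : CoxeterMatrix S)

/-! ### First letters -/

theorem mem_fl {w : M.Group} {t : S} : t ∈ fl M w ↔ len M (M.simple t * w) + 1 = len M w := by
  unfold fl
  rw [mem_filter, and_iff_right (mem_univ t)]
  rcases len_simple_mul M w t with h | h <;> omega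

theorem not_mem_fl {w : M.Group} {t : S} :
    t ∉ fl M w ↔ len M (M.simple t * w) = len M w + 1 := by
  rw [mem_fl]
  rcases len_simple_mul M w t with h | h <;> omega

theorem mem_fl_iff {w : M.Group} {t : S} : t ∈ fl M w ↔ (Pi.single t 1 : S → ℝ) ∈ Nv M w := by
  rw [mem_fl, len_down_iff']
  exact ⟨fun h => ⟨isRoot_simple M t, single_nonneg t, h⟩, fun h => h.2.2⟩

theorem fl_mono {v w : M.Group} (h : Le M v w) : fl M v ⊆ fl M w := by
  intro t ht
  rw [mem_fl_iff] at ht ⊢
  exact (le_iff M).1 h ht

theorem fl_one : fl M 1 = ∅ := by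
  refine eq_empty_of_forall_notMem fun t => ?_
  rw [not_mem_fl, mul_one, len_simple, len_one]

theorem fl_eq_empty {w : M.Group} : fl M w = ∅ ↔ w = 1 := by
  refine ⟨fun h => ?_, fun h => by rw [h, fl_one]⟩
  by_contra hw
  obtain ⟨t, ht⟩ := exists_left M hw
  exact notMem_empty t (h ▸ (mem_fl M).2 ht)

theorem simple_inj {s t : S} (h : M.simple s = M.simple t) : s = t := by
  have h1 := T_simple_self (M := M) s
  rw [h, T_simple] at h1
  by_contra hst
  have h2 := congrFun h1 s
  rw [Pi.sub_apply, Pi.smul_apply, Pi.neg_apply, Pi.single_eq_same,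
    Pi.single_eq_of_ne hst, smul_zero] at h2
  norm_num at h2

/-- a new first letter -/
theorem fold {w : M.Group} {t u : S} (h0 : t ∉ fl M w) (h1 : t ∈ fl M (w * M.simple u)) :
    M.simple t * w = w * M.simple u := by
  rw [not_mem_fl] at h0
  rw [mem_fl] at h1
  -- lengths
  have h2 : len M (w * M.simple u) = len M w + 1 := by
    have h3 := len_mul_simple M (M.simple t * w) u
    have h4 := len_mul_simple M w u
    rw [mul_assoc] at h3
    omega
  have h3 : len M (M.simple t * w * M.simple u) + 1 = len M (M.simple t * w) := by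
    rw [mul_assoc]
    omega
  have h4 := (len_up_iff M w u).1 h2
  have h5 := (len_down_iff M (M.simple t * w) u).1 h3
  have h6 : T M w (Pi.single u 1) = Pi.single t 1 := by
    refine root_eq_single M ⟨w, u, rfl⟩ h4 fun i hi => ?_
    have h7 := h5 i
    rw [T_mul, T_simple_apply M t i hi] at h7
    exact le_antisymm h7 (h4 i)
  have h7 : w * M.simple u * w⁻¹ = M.simple t := by
    refine T_ext M fun x => ?_
    rw [T_conj, T_simple, h6]
  rw [← h7, inv_mul_cancel_right]

/-- conversely -/
theorem new_of_eq {w : M.Group} {t u : S} (h : M.simple t * w = w * M.simple u)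
    (hl : len M (w * M.simple u) = len M w + 1) : t ∉ fl M w ∧ t ∈ fl M (w * M.simple u) := by
  constructor
  · rw [not_mem_fl, h, hl]
  · rw [mem_fl, ← h, ← mul_assoc, simple_sq, one_mul, h, hl]

/-! ### Longest elements -/

variable {M}

theorem mx_iff {s : Finset S} {z : M.Group} :
    Mx M s z ↔ ∀ v ∈ s, len M (z * M.simple v) + 1 = len M z := by
  refine forall₂_congr fun v _ => ?_
  rcases len_mul_simple M z v with h | h <;> omega

theorem mx_empty (z : M.Group) : Mx M ∅ z := fun v hv => absurd hv (notMem_empty v)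

theorem Mx.len_add {s : Finset S} {z : M.Group} (hz : Mx M s z) {u : M.Group}
    (hu : u ∈ par M s) : len M (z * u) + len M u = len M z := by
  rw [mx_iff] at hz
  obtain ⟨n, hn⟩ : ∃ n, len M u = n := ⟨_, rfl⟩
  induction n generalizing u with
  | zero =>
    rw [(len_eq_zero M).1 hn, mul_one, len_one, add_zero]
  | succ n ih =>
    have h1 : u ≠ 1 := by
      rintro rfl
      rw [len_one] at hn
      omega
    obtain ⟨v, hv⟩ := exists_right M h1
    have hvs : v ∈ s := descent_par M hu hv
    have h2 : u * M.simple v ∈ par M s := mul_mem hu (simple_mem_par M hvs)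
    have h3 := ih h2 (by omega)
    have h4 : len M (z * (u * M.simple v) * M.simple v) + 1 = len M (z * (u * M.simple v)) := by
      rw [len_down_iff]
      intro i
      rw [T_mul, T_apply]
      refine Finset.sum_nonpos fun j _ => ?_
      by_cases hj : j ∈ s
      · refine mul_nonpos_of_nonneg_of_nonpos ?_ ((len_down_iff M z j).1 (hz j hj) i)
        refine (len_up_iff M (u * M.simple v) v).1 ?_ j
        rw [mul_assoc, simple_sq, mul_one]
        omega
      · have h5 : j ≠ v := by
          rintro rfl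
          exact hj hvs
        rw [T_par M h2 _ hj, Pi.single_eq_of_ne h5, zero_mul]
    have h5 : z * (u * M.simple v) * M.simple v = z * u := by
      rw [mul_assoc, mul_assoc, simple_sq, mul_one]
    rw [h5] at h4
    omega

theorem Mx.le {s : Finset S} {z w : M.Group} (hz : Mx M s z) (h : z⁻¹ * w ∈ par M s) :
    Le M w z := by
  have h1 := hz.len_add h
  rw [mul_inv_cancel_left] at h1
  unfold Le
  have h2 : w⁻¹ * z = (z⁻¹ * w)⁻¹ := by group
  rw [h2, len_inv]
  exact h1

theorem Mx.sph {s : Finset S} {z : M.Group} (hz : Mx M s z) : Sph M s := by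
  have h1 : (par M s : Set M.Group) ⊆ {w | len M w ≤ len M z} := fun u hu => by
    have h2 := hz.len_add hu
    show len M u ≤ len M z
    omega
  exact ((len_finite M (len M z)).subset h1).to_subtype

theorem Mx.unique {s : Finset S} {z z' : M.Group} (hz : Mx M s z) (hz' : Mx M s z')
    (h : z⁻¹ * z' ∈ par M s) : z = z' := by
  have h1 := hz.len_add h
  have h2 := hz'.len_add (u := z'⁻¹ * z) (by
    have := inv_mem h
    rwa [mul_inv_rev, inv_inv] at this)
  rw [mul_inv_cancel_left] at h1 h2
  have h3 : z⁻¹ * z' = 1 := (len_eq_zero M).1 (by omega)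
  exact inv_mul_eq_one.1 h3

/-- every coset of a spherical subgroup has a longest element -/
theorem exists_mx {s : Finset S} (hs : Sph M s) (w : M.Group) :
    ∃ z, Mx M s z ∧ z⁻¹ * w ∈ par M s := by
  have hne : (parF M s).Nonempty := ⟨1, (mem_parF hs 1).2 (one_mem _)⟩
  obtain ⟨u, hu, hmax⟩ := exists_max_image (parF M s) (fun u => len M (w * u)) hne
  rw [mem_parF hs] at hu
  refine ⟨w * u, mx_iff.2 fun v hv => ?_, ?_⟩
  · have h1 := hmax (u * M.simple v) ((mem_parF hs _).2 (mul_mem hu (simple_mem_par M hv)))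
    rw [← mul_assoc] at h1
    rcases len_mul_simple M (w * u) v with h2 | h2
    · omega
    · exact h2
  · have h1 : (w * u)⁻¹ * w = u⁻¹ := by group
    rw [h1]
    exact inv_mem hu

theorem mem_cs {s s' : Finset S} (hs : Sph M s) {z w : M.Group} :
    w ∈ cs M z s s' ↔ z⁻¹ * w ∈ par M s ∧ Mx M s' w := by
  classical
  unfold cs
  rw [mem_filter, mem_image]
  refine and_congr_left fun _ => ⟨?_, fun h => ?_⟩
  · rintro ⟨u, hu, rfl⟩
    rw [inv_mul_cancel_left]
    exact (mem_parF hs u).1 hu
  · exact ⟨z⁻¹ * w, (mem_parF hs _).2 h, mul_inv_cancel_left z w⟩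

/-- the cells of type `s''` in a cell of type `s` are those in its cells of type `s'` -/
theorem sum_cs {N : Type} [AddCommMonoid N] {s s' s'' : Finset S} (hs : Sph M s) (h1 : s' ⊆ s)
    (z : M.Group) (g : M.Group → N) :
    ∑ w ∈ cs M z s s'', g w = ∑ y ∈ cs M z s s', ∑ w ∈ cs M y s' s'', g w := by
  classical
  have hs' : Sph M s' := hs.mono h1
  rw [← sum_biUnion]
  · refine sum_congr ?_ fun _ _ => rfl
    ext w
    rw [mem_biUnion, mem_cs hs]
    constructor
    · rintro ⟨h3, h4⟩
      obtain ⟨y, hy1, hy2⟩ := exists_mx hs' w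
      refine ⟨y, (mem_cs hs).2 ⟨?_, hy1⟩, (mem_cs hs').2 ⟨hy2, h4⟩⟩
      have h5 : z⁻¹ * y = z⁻¹ * w * (y⁻¹ * w)⁻¹ := by group
      rw [h5]
      exact mul_mem h3 (inv_mem (par_mono M h1 hy2))
    · rintro ⟨y, hy, hw⟩
      rw [mem_cs hs] at hy
      rw [mem_cs hs'] at hw
      refine ⟨?_, hw.2⟩
      have h5 : z⁻¹ * w = z⁻¹ * y * (y⁻¹ * w) := by group
      rw [h5]
      exact mul_mem hy.1 (par_mono M h1 hw.1)
  · intro y hy y' hy' hne
    refine disjoint_left.2 fun w hw hw' => hne ?_
    rw [mem_coe, mem_cs hs] at hy hy'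
    rw [mem_cs hs'] at hw hw'
    refine hy.2.unique hy'.2 ?_
    have h5 : y⁻¹ * y' = y⁻¹ * w * (y'⁻¹ * w)⁻¹ := by group
    rw [h5]
    exact mul_mem hw.1 (inv_mem hw'.1)

/-- the first letters of the elements of a coset are first letters of the longest element -/
theorem fl_coset {s : Finset S} {z w : M.Group} (hz : Mx M s z) (h : z⁻¹ * w ∈ par M s) :
    fl M w ⊆ fl M z := fl_mono M (hz.le h)

end Pool.Agent.H4.BD

end

section

/-!
# Project BD: the boundary of the cells

Faces of valid cells are valid, the boundary of the boundary is zero, faces of faces have near positions.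
-/

set_option autoImplicit false
set_option linter.unusedSectionVars false

open Finset

namespace Pool.Agent.H4.BD

open Pool.Agent.H4.FC Pool.Agent.H78.RC Pool.Agent.H97.BLD Pool.Agent.H37.TM

variable {S : Type} [Fintype S] [DecidableEq S] {M : CoxeterMatrix S}
  {Lb : Type} [DecidableEq Lb] [VLb S Lb]

theorem rs_rs {X Y : Finset S} (h : Y ⊆ X) (a : Finset (S × Lb)) : rs Y (rs X a) = rs Y a := by
  ext q
  unfold rs
  rw [mem_filter, mem_filter, mem_filter, and_assoc]
  exact and_congr_right fun _ => ⟨fun h1 => h1.2, fun h1 => ⟨h h1, h1⟩⟩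

theorem rs_subset (X : Finset S) (a : Finset (S × Lb)) : rs X a ⊆ a := filter_subset _ _

theorem Lab.rs {A B : Finset S} {a : Finset (S × Lb)} (ha : Lab A a) (h : B ⊆ A) :
    Lab B (rs B a) := by
  refine ⟨fun q hq => (mem_filter.1 hq).2, fun t ht => ?_⟩
  obtain ⟨j, hj, hu⟩ := ha.2 t (h ht)
  exact ⟨j, mem_filter.2 ⟨hj, ht⟩, fun j' hj' => hu j' (mem_filter.1 hj').1⟩

theorem Lab.empty_of {A : Finset S} (ha : Lab A (∅ : Finset (S × Lb))) : A = ∅ := by
  refine eq_empty_of_forall_notMem fun t ht => ?_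
  obtain ⟨j, hj, -⟩ := ha.2 t ht
  exact notMem_empty _ hj

/-- the faces -/
theorem bdC_ne {x x' : Cel M Lb} (h : bdC M x x' ≠ 0) :
    ∃ v ∈ x.2.1, ∃ y ∈ cs M x.1 x.2.1 (x.2.1.erase v), x' = face M x v y := by
  classical
  unfold bdC at h
  rw [Finsupp.finsetSum_apply] at h
  obtain ⟨v, hv, h1⟩ := exists_ne_zero_of_sum_ne_zero h
  rw [Finsupp.finsetSum_apply] at h1
  obtain ⟨y, hy, h2⟩ := exists_ne_zero_of_sum_ne_zero h1
  rw [Finsupp.single_apply] at h2
  refine ⟨v, hv, y, hy, ?_⟩
  by_contra h3
  exact h2 (if_neg fun h4 => h3 h4.symm)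

theorem vld_face {x : Cel M Lb} (hx : Vld M x) {v : S} {y : M.Group}
    (hy : y ∈ cs M x.1 x.2.1 (x.2.1.erase v)) : Vld M (face M x v y) := by
  rw [mem_cs hx.1] at hy
  exact ⟨hx.1.mono (erase_subset _ _), hy.2, hx.2.2.1.rs (fl_coset hx.2.1 hy.1),
    fun q hq => hx.2.2.2 q (rs_subset _ _ hq)⟩

theorem Ok.symm {x y : Cel M Lb} (h : Ok M x y) : Ok M y x := ⟨h.2.1, h.1, h.2.2.symm⟩

theorem ok_face {x y x' : Cel M Lb} (h : Ok M x y) (hx : bdC M x x' ≠ 0) : Ok M x' y := by
  obtain ⟨v, -, z, hz, rfl⟩ := bdC_ne hx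
  exact ⟨vld_face h.1 hz, h.2.1, disjoint_of_subset_left (rs_subset _ _) h.2.2⟩

theorem sz_face {x x' : Cel M Lb} (hx : bdC M x x' ≠ 0) : x'.2.1.card < x.2.1.card := by
  obtain ⟨v, hv, z, hz, rfl⟩ := bdC_ne hx
  exact card_erase_lt_of_mem hv

theorem ok_self {x : Cel M Lb} (h : Ok M x x) : x = b0 M Lb := by
  obtain ⟨⟨-, h2, h3⟩, -, h4⟩ := h
  obtain ⟨z, s, a⟩ := x
  have h5 : a = ∅ := disjoint_self_iff_empty a |>.1 h4
  subst h5
  have h6 : z = 1 := (fl_eq_empty M).1 h3.1.empty_of
  subst h6
  have h7 : s = ∅ := by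
    refine eq_empty_of_forall_notMem fun v hv => ?_
    have h8 := (mx_iff.1 h2) v hv
    rw [one_mul, len_simple, len_one] at h8
    omega
  subst h7
  rfl

theorem bdC_b0 : bdC M (b0 M Lb) = 0 := sum_empty

theorem vld_b0 : Vld M (b0 M Lb) := by
  refine ⟨?_, mx_empty 1, ?_⟩
  · exact (mx_empty (M := M) 1).sph
  · rw [show (b0 M Lb).1 = 1 from rfl, fl_one]
    exact ⟨⟨fun q hq => absurd hq (notMem_empty q), fun t ht => absurd ht (notMem_empty t)⟩,
      fun q hq => absurd hq (notMem_empty q)⟩

theorem ok_b0 : Ok M (b0 M Lb) (b0 M Lb) := ⟨vld_b0, vld_b0, disjoint_empty_left _⟩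

/-- a function on the boundary -/
theorem lin_bdC {N : Type} [AddCommGroup N] [Module (ZMod 2) N] (f : Cel M Lb → N) (x : Cel M Lb) :
    lin f (bdC M x) = ∑ v ∈ x.2.1, ∑ y ∈ cs M x.1 x.2.1 (x.2.1.erase v), f (face M x v y) := by
  unfold bdC
  rw [map_sum]
  refine sum_congr rfl fun v _ => ?_
  rw [map_sum]
  exact sum_congr rfl fun y _ => lin_single _ _

theorem add_self_two {N : Type} [AddCommGroup N] [Module (ZMod 2) N] (x : N) : x + x = 0 := by
  have h1 : (2 : ZMod 2) • x = x + x := two_smul _ x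
  rw [← h1, show (2 : ZMod 2) = 0 from rfl, zero_smul]

/-- symmetric double sums over the pairs of different elements -/
theorem sum_pairs {N : Type} [AddCommGroup N] [Module (ZMod 2) N] (s : Finset S)
    (H : S → S → N) (hH : ∀ v w, H v w = H w v) : ∑ v ∈ s, ∑ w ∈ s.erase v, H v w = 0 := by
  rw [sum_sigma']
  refine sum_involution (fun q _ => ⟨q.2, q.1⟩) ?_ ?_ ?_ ?_
  · rintro ⟨v, w⟩ _
    show H v w + H w v = 0
    rw [hH w v]
    exact add_self_two _
  · rintro ⟨v, w⟩ hq _ h
    rw [mem_sigma] at hq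
    have h1 : w = v := congrArg Sigma.fst h
    exact (mem_erase.1 hq.2).1 h1
  · rintro ⟨v, w⟩ hq
    rw [mem_sigma] at hq ⊢
    have h1 := mem_erase.1 hq.2
    exact ⟨h1.2, mem_erase.2 ⟨h1.1.symm, hq.1⟩⟩
  · rintro ⟨v, w⟩ _
    rfl

theorem face_face {x : Cel M Lb} (hx : Vld M x) {v w : S} {y y' : M.Group}
    (hy : y ∈ cs M x.1 x.2.1 (x.2.1.erase v))
    (hy' : y' ∈ cs M y (x.2.1.erase v) ((x.2.1.erase v).erase w)) :
    face M (face M x v y) w y' = (y', (x.2.1.erase v).erase w, rs (fl M y') x.2.2) := by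
  have hs' : Sph M (x.2.1.erase v) := hx.1.mono (erase_subset _ _)
  rw [mem_cs hx.1] at hy
  rw [mem_cs hs'] at hy'
  show (y', (x.2.1.erase v).erase w, rs (fl M y') (rs (fl M y) x.2.2)) = _
  rw [rs_rs (fl_coset hy.2 hy'.1)]

/-- the boundary of the boundary is zero -/
theorem bdC_bdC {x : Cel M Lb} (hx : Vld M x) : lin (bdC M) (bdC M x) = 0 := by
  classical
  rw [lin_bdC]
  have h1 : ∀ v ∈ x.2.1, ∑ y ∈ cs M x.1 x.2.1 (x.2.1.erase v), bdC M (face M x v y) =
      ∑ w ∈ x.2.1.erase v, ∑ y' ∈ cs M x.1 x.2.1 ((x.2.1.erase v).erase w),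
        Finsupp.single (((y', (x.2.1.erase v).erase w, rs (fl M y') x.2.2)) : Cel M Lb)
          (1 : ZMod 2) := by
    intro v _
    have h2 : ∀ y ∈ cs M x.1 x.2.1 (x.2.1.erase v), bdC M (face M x v y) =
        ∑ w ∈ x.2.1.erase v, ∑ y' ∈ cs M y (x.2.1.erase v) ((x.2.1.erase v).erase w),
          Finsupp.single (((y', (x.2.1.erase v).erase w, rs (fl M y') x.2.2)) : Cel M Lb)
            (1 : ZMod 2) := by
      intro y hy
      show ∑ w ∈ x.2.1.erase v, ∑ y' ∈ cs M y (x.2.1.erase v) ((x.2.1.erase v).erase w),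
        Finsupp.single (face M (face M x v y) w y') (1 : ZMod 2) = _
      refine sum_congr rfl fun w _ => sum_congr rfl fun y' hy' => ?_
      rw [face_face hx hy hy']
    rw [sum_congr rfl h2, sum_comm]
    refine sum_congr rfl fun w _ => ?_
    exact (sum_cs hx.1 (erase_subset _ _) x.1 _).symm
  rw [sum_congr rfl h1]
  refine sum_pairs x.2.1 (fun v w => ∑ y' ∈ cs M x.1 x.2.1 ((x.2.1.erase v).erase w),
    Finsupp.single (((y', (x.2.1.erase v).erase w, rs (fl M y') x.2.2)) : Cel M Lb)
      (1 : ZMod 2)) fun v w => ?_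
  rw [erase_right_comm]

/-! ### Supports -/

theorem mem_parF_sph {s : Finset S} {u : M.Group} (h : u ∈ parF M s) :
    Sph M s ∧ u ∈ par M s := by
  by_cases hf : (par M s : Set M.Group).Finite
  · have hs : Sph M s := hf.to_subtype
    exact ⟨hs, (mem_parF hs u).1 h⟩
  · exfalso
    unfold parF at h
    rw [dif_neg hf] at h
    exact notMem_empty _ h

theorem rch_par {x x' : Cel M Lb} (h : Rch (bdC M) x x') :
    x = x' ∨ (Sph M x.2.1 ∧ x.1⁻¹ * x'.1 ∈ par M x.2.1 ∧ x'.2.1 ⊆ x.2.1) := by
  classical
  unfold Rch at h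
  induction h with
  | refl => exact Or.inl rfl
  | tail h1 h2 ih =>
    rename_i y z
    obtain ⟨v, hv, w, hw, h3⟩ := bdC_ne h2
    unfold cs at hw
    rw [mem_filter, mem_image] at hw
    obtain ⟨⟨u, hu, huw⟩, -⟩ := hw
    obtain ⟨hs, hu'⟩ := mem_parF_sph hu
    have h5 : z.1 = y.1 * u := by
      rw [h3, huw]
      rfl
    have h6 : z.2.1 ⊆ y.2.1 := by
      rw [h3]
      exact erase_subset _ _
    right
    rcases ih with rfl | ⟨h7, h8, h9⟩
    · refine ⟨hs, ?_, h6⟩
      rw [h5, inv_mul_cancel_left]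
      exact hu'
    · refine ⟨h7, ?_, h6.trans h9⟩
      rw [h5, ← mul_assoc]
      exact mul_mem h8 (par_mono M h9 hu')

/-- functions which are reached from a function with finite support -/
theorem finS_rch {D φ : Cel M Lb → Cel M Lb → ZMod 2} (hD : FinS D)
    (h : ∀ x y, φ x y ≠ 0 → ∃ x' y', Rch (bdC M) x x' ∧ Rch (bdC M) y y' ∧ D x' y' ≠ 0) :
    FinS φ := by
  classical
  have hU : (insert (1 : M.Group) (⋃ s : Finset S,
      ((parF M s : Finset M.Group) : Set M.Group))).Finite :=
    (Set.finite_iUnion fun s => finite_toSet _).insert _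
  obtain ⟨U, hUdef⟩ : ∃ U : Set M.Group, U = insert (1 : M.Group) (⋃ s : Finset S,
      ((parF M s : Finset M.Group) : Set M.Group)) := ⟨_, rfl⟩
  rw [← hUdef] at hU
  have key : ∀ x x' : Cel M Lb, Rch (bdC M) x x' → ∃ u ∈ U, x.1 = x'.1 * u⁻¹ := by
    intro x x' h1
    rcases rch_par h1 with rfl | ⟨h2, h3, -⟩
    · refine ⟨1, ?_, by rw [inv_one, mul_one]⟩
      rw [hUdef]
      exact Set.mem_insert _ _
    · refine ⟨x.1⁻¹ * x'.1, ?_, by group⟩
      rw [hUdef]
      right
      rw [Set.mem_iUnion]
      exact ⟨x.2.1, (mem_parF h2 _).2 h3⟩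
  have hD0 : {q : M.Group × M.Group | ∃ s a t b, D (q.1, s, a) (q.2, t, b) ≠ 0}.Finite := hD
  refine ((hD0.prod (hU.prod hU)).image fun q => (q.1.1 * q.2.1⁻¹, q.1.2 * q.2.2⁻¹)).subset ?_
  rintro ⟨z, z'⟩ ⟨s, a, t, b, hne⟩
  obtain ⟨x', y', hx, hy, hD'⟩ := h _ _ hne
  obtain ⟨u, hu, hu'⟩ := key _ _ hx
  obtain ⟨w, hw, hw'⟩ := key _ _ hy
  refine ⟨((x'.1, y'.1), (u, w)), ⟨?_, hu, hw⟩, ?_⟩
  · exact ⟨x'.2.1, x'.2.2, y'.2.1, y'.2.2, hD'⟩
  · exact Prod.ext hu'.symm hw'.symm

end Pool.Agent.H4.BD

end

section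

/-!
# Project BD: the alternating function

A valid cell `(z, s, a)` with `z ∈ W_s` is the coset `W_s` itself, `z` its longest element, and its first
letters are the letters in `s` (`fl_par`).  The sum over the faces in `W_(s \ v)` is the sum over the labels
(`lin_par`).
-/

set_option autoImplicit false
set_option linter.unusedSectionVars false

open Finset

namespace Pool.Agent.H4.BD

open Pool.Agent.H4.FC Pool.Agent.H78.RC Pool.Agent.H97.BLD Pool.Agent.H37.TM Pool.Agent.H85.VK

variable {S : Type} [Fintype S] [DecidableEq S]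
  {Lb : Type} [DecidableEq Lb] [VLb S Lb]

open Classical in
/-- the alternating function on the cells which contain the identity -/
noncomputable def AA (M : CoxeterMatrix S) (μ : S × Lb → ℕ) (x y : Cel M Lb) : ZMod 2 :=
  if Ok M x y ∧ x.1 ∈ par M x.2.1 ∧ y.1 ∈ par M y.2.1 then eP μ x.2.2 y.2.2 else 0

variable {M : CoxeterMatrix S}

/-- the first letters of the longest element of `W_s` -/
theorem fl_par {s : Finset S} {z : M.Group} (hz : Mx M s z) (hp : z ∈ par M s) : fl M z = s := by
  ext t
  constructor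
  · intro ht
    rw [mem_fl] at ht
    have h1 : len M (z⁻¹ * M.simple t) + 1 = len M z⁻¹ := by
      rw [← len_inv M (z⁻¹ * M.simple t), mul_inv_rev, inv_inv, simple_inv, len_inv M z]
      exact ht
    exact descent_par M (inv_mem hp) h1
  · intro ht
    rw [mem_fl]
    have h1 : z⁻¹ * (M.simple t * z) ∈ par M s :=
      mul_mem (inv_mem hp) (mul_mem (simple_mem_par M ht) hp)
    have h2 := hz.len_add h1
    rw [mul_inv_cancel_left] at h2
    rcases len_simple_mul M z t with h3 | h3 <;> omega

/-- the longest element of `W_J` -/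
theorem exists_lg {J : Finset S} (hJ : Sph M J) : ∃ y, Mx M J y ∧ y ∈ par M J := by
  obtain ⟨y, h1, h2⟩ := exists_mx hJ 1
  rw [mul_one] at h2
  have h3 := inv_mem h2
  rw [inv_inv] at h3
  exact ⟨y, h1, h3⟩

/-- the labels of the letters different from `v` -/
theorem rs_erase {A : Finset S} {a : Finset (S × Lb)} (ha : Lab A a) {q : S × Lb} (hq : q ∈ a) :
    rs (A.erase q.1) a = a.erase q := by
  ext p
  unfold rs
  rw [mem_filter, mem_erase, mem_erase]
  constructor
  · rintro ⟨h1, h2, h3⟩
    refine ⟨?_, h1⟩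
    rintro rfl
    exact h2 rfl
  · rintro ⟨h1, h2⟩
    refine ⟨h2, fun h3 => h1 ?_, ha.1 p h2⟩
    obtain ⟨j, hj, hu⟩ := ha.2 q.1 (ha.1 q hq)
    have h4 := hu q.2 hq
    have h5 := hu p.2 (by rw [← h3]; exact h2)
    exact Prod.ext h3 (h5.trans h4.symm)

/-- sums over the letters are sums over the labels -/
theorem sum_lab {A : Finset S} {a : Finset (S × Lb)} (ha : Lab A a)
    (g : Finset (S × Lb) → ZMod 2) :
    ∑ v ∈ A, g (rs (A.erase v) a) = ∑ q ∈ a, g (a.erase q) := by
  symm
  refine sum_bij (fun q _ => q.1) (fun q hq => ha.1 q hq) ?_ ?_ ?_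
  · intro q hq p hp h
    obtain ⟨j, hj, hu⟩ := ha.2 q.1 (ha.1 q hq)
    have h4 := hu q.2 hq
    have h5 := hu p.2 (by rw [h]; exact hp)
    exact Prod.ext h (h4.trans h5.symm)
  · intro v hv
    obtain ⟨j, hj, -⟩ := ha.2 v hv
    exact ⟨(v, j), hj, rfl⟩
  · intro q hq
    rw [rs_erase ha hq]

/-- a function on the boundary of the coset `W_s` -/
theorem lin_par {x : Cel M Lb} (hx : Vld M x) (hp : x.1 ∈ par M x.2.1) (f : Cel M Lb → ZMod 2)
    (g : Finset (S × Lb) → ZMod 2)
    (h1 : ∀ x', Vld M x' → x'.1 ∈ par M x'.2.1 → x'.2.2 ⊆ x.2.2 →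
      f x' = g x'.2.2)
    (h0 : ∀ x', x'.1 ∉ par M x'.2.1 → f x' = 0) :
    lin f (bdC M x) = ∑ q ∈ x.2.2, g (x.2.2.erase q) := by
  have hf : fl M x.1 = x.2.1 := fl_par hx.2.1 hp
  have hl : Lab x.2.1 x.2.2 := by
    have h := hx.2.2.1
    rwa [hf] at h
  rw [lin_bdC, ← sum_lab hl]
  refine sum_congr rfl fun v hv => ?_
  have hs' : Sph M (x.2.1.erase v) := hx.1.mono (erase_subset _ _)
  obtain ⟨y, hy1, hy2⟩ := exists_lg hs'
  have hyc : y ∈ cs M x.1 x.2.1 (x.2.1.erase v) := by
    rw [mem_cs hx.1]
    exact ⟨mul_mem (inv_mem hp) (par_mono M (erase_subset _ _) hy2), hy1⟩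
  rw [sum_eq_single y]
  · have hfy : fl M y = x.2.1.erase v := fl_par hy1 hy2
    have h2 := h1 (face M x v y) (vld_face hx hyc) hy2 (rs_subset _ _)
    rw [h2]
    show g (rs (fl M y) x.2.2) = _
    rw [hfy]
  · intro w hw hne
    refine h0 _ fun h => hne ?_
    rw [mem_cs hx.1] at hw
    exact hw.2.unique hy1 (mul_mem (inv_mem h) hy2)
  · intro h
    exact absurd hyc h

/-- faces of the other cosets -/
theorem lin_not_par {x : Cel M Lb} (hx : Vld M x) (hp : x.1 ∉ par M x.2.1) (f : Cel M Lb → ZMod 2)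
    (h0 : ∀ x', x'.1 ∉ par M x'.2.1 → f x' = 0) : lin f (bdC M x) = 0 := by
  rw [lin_bdC]
  refine sum_eq_zero fun v hv => sum_eq_zero fun y hy => h0 _ fun h => hp ?_
  rw [mem_cs hx.1] at hy
  have h1 : y ∈ par M x.2.1 := par_mono M (erase_subset _ _) h
  have h2 : x.1 = y * (x.1⁻¹ * y)⁻¹ := by group
  rw [h2]
  exact mul_mem h1 (inv_mem hy.1)

theorem AA_rel {μ : S × Lb → ℕ} (hμ : Function.Injective μ) {x y : Cel M Lb} (h : Ok M x y) :
    dX (bdC M) (AA M μ) x y = AA M μ x y + AA M μ y x := by
  classical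
  have n1 : ∀ x' y' : Cel M Lb, x'.1 ∉ par M x'.2.1 → AA M μ x' y' = 0 := fun x' y' h1 =>
    if_neg fun h2 => h1 h2.2.1
  have n2 : ∀ x' y' : Cel M Lb, y'.1 ∉ par M y'.2.1 → AA M μ x' y' = 0 := fun x' y' h1 =>
    if_neg fun h2 => h1 h2.2.2
  unfold dX
  by_cases hx : x.1 ∈ par M x.2.1
  · by_cases hy : y.1 ∈ par M y.2.1
    · have h1 : AA M μ x y = eP μ x.2.2 y.2.2 := if_pos ⟨h, hx, hy⟩
      have h2 : AA M μ y x = eP μ y.2.2 x.2.2 := if_pos ⟨h.symm, hy, hx⟩
      rw [h1, h2, ← dP_eP hμ h.2.2]
      unfold dP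
      congr 1
      · refine lin_par h.1 hx _ (fun a => eP μ a y.2.2) (fun x' hx' hp hs => ?_)
          fun x' hx' => n1 x' y hx'
        exact if_pos ⟨⟨hx', h.2.1, disjoint_of_subset_left hs h.2.2⟩, hp, hy⟩
      · refine lin_par h.2.1 hy _ (fun b => eP μ x.2.2 b) (fun y' hy' hp hs => ?_)
          fun y' hy' => n2 x y' hy'
        exact if_pos ⟨⟨h.1, hy', disjoint_of_subset_right hs h.2.2⟩, hx, hp⟩
    · rw [n2 x y hy, n1 y x hy, lin_not_par h.2.1 hy _ fun y' hy' => n2 x y' hy']
      have h1 : (fun x' => AA M μ x' y) = fun _ => 0 := funext fun x' => n2 x' y hy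
      rw [h1, lin_bdC]
      simp
  · rw [n1 x y hx, n2 y x hx, lin_not_par h.1 hx _ fun x' hx' => n1 x' y hx']
    have h1 : (fun y' => AA M μ x y') = fun _ => 0 := funext fun y' => n1 x y' hx
    rw [h1, lin_bdC]
    simp

theorem AA_base (μ : S × Lb → ℕ) : AA M μ (b0 M Lb) (b0 M Lb) = 1 := by
  have h1 : AA M μ (b0 M Lb) (b0 M Lb) = eP μ (∅ : Finset (S × Lb)) ∅ :=
    if_pos ⟨ok_b0, one_mem _, one_mem _⟩
  rw [h1]
  unfold eP altF
  rw [union_empty, if_pos (altP_empty μ _ true)]

theorem AA_finS (μ : S × Lb → ℕ) : FinS (AA M μ) := by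
  classical
  have hU : (⋃ s : Finset S, ((parF M s : Finset M.Group) : Set M.Group)).Finite :=
    Set.finite_iUnion fun s => finite_toSet _
  refine (hU.prod hU).subset ?_
  rintro ⟨z, z'⟩ ⟨s, a, t, b, hne⟩
  have h1 : Ok M ((z, s, a) : Cel M Lb) (z', t, b) ∧ z ∈ par M s ∧ z' ∈ par M t := by
    by_contra h
    exact hne (if_neg h)
  exact ⟨Set.mem_iUnion.2 ⟨s, (mem_parF h1.1.1.1 z).2 h1.2.1⟩,
    Set.mem_iUnion.2 ⟨t, (mem_parF h1.1.2.1.1 z').2 h1.2.2⟩⟩

theorem KK_AA {Q : (Finset (S × Lb) → Finset (S × Lb) → ZMod 2) → Finset S → Finset S → ZMod 2}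
    (hQ : IsCoef M Q) (μ : S × Lb → ℕ) {s t : Finset S} (hs : Sph M s) (ht : Sph M t) :
    KK M Q (AA M μ) s t = Q (eP μ) s t := by
  classical
  obtain ⟨z, hz1, hz2⟩ := exists_lg hs
  obtain ⟨z', hz1', hz2'⟩ := exists_lg ht
  have hQ0 : ∀ A B, Q (fun _ _ => 0) A B = 0 := by
    intro A B
    have h1 := hQ.add (fun _ _ => 0) (fun _ _ => 0) A B
    simp only [add_zero] at h1
    have key : ∀ a : ZMod 2, a = a + a → a = 0 := by decide
    exact key _ h1
  unfold KK
  rw [finsum_eq_single _ (z, z')]
  · rw [if_pos ⟨hz1, hz1'⟩]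
    have e1 : fl M z = s := fl_par hz1 hz2
    have e2 : fl M z' = t := fl_par hz1' hz2'
    show Q (fun a b => AA M μ (z, s, a) (z', t, b)) (fl M z) (fl M z') = _
    rw [e1, e2]
    refine hQ.congr _ _ s t hs ht fun a b ha hb ha' hb' hab => ?_
    have hx : Vld M ((z, s, a) : Cel M Lb) := by
      refine ⟨hs, hz1, ?_, ha'⟩
      show Lab (fl M z) a
      rwa [e1]
    have hy : Vld M ((z', t, b) : Cel M Lb) := by
      refine ⟨ht, hz1', ?_, hb'⟩
      show Lab (fl M z') b
      rwa [e2]
    have hO : Ok M ((z, s, a) : Cel M Lb) (z', t, b) := ⟨hx, hy, hab⟩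
    exact if_pos ⟨hO, hz2, hz2'⟩
  · rintro ⟨w, w'⟩ hne
    by_cases h : Mx M s w ∧ Mx M t w'
    · rw [if_pos h]
      have h1 : (fun a b => AA M μ ((w, s, a) : Cel M Lb) (w', t, b)) = fun _ _ => 0 := by
        funext a b
        refine if_neg fun h2 => hne ?_
        have h3 : w = z := h.1.unique hz1 (mul_mem (inv_mem h2.2.1) hz2)
        have h4 : w' = z' := h.2.unique hz1' (mul_mem (inv_mem h2.2.2) hz2')
        rw [h3, h4]
      show Q (fun a b => AA M μ (w, s, a) (w', t, b)) (fl M w) (fl M w') = 0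
      rw [h1, hQ0]
    · rw [if_neg h]

end Pool.Agent.H4.BD

end

section

/-!
# Project BD: the sums over all pairs of cells

`KK M Q φ s t` = sum over all pairs of cells of the types `s`, `t`. `KK_dX`: the coboundary; every coset of `W_(s - v)` is in
exactly one coset of `W_s`.
-/

set_option autoImplicit false
set_option linter.unusedSectionVars false

open Finset

namespace Pool.Agent.H4.BD

open Pool.Agent.H4.FC Pool.Agent.H78.RC Pool.Agent.H97.BLD Pool.Agent.H37.TM

variable {S : Type} [Fintype S] [DecidableEq S] {M : CoxeterMatrix S}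
  {Lb : Type} [DecidableEq Lb] [VLb S Lb]

/-- the first letters form a spherical set -/
theorem sph_fl (w : M.Group) : Sph M (fl M w) := by
  have h1 : Mx M (fl M w) w⁻¹ := by
    rw [mx_iff]
    intro v hv
    rw [mem_fl] at hv
    have h2 : w⁻¹ * M.simple v = (M.simple v * w)⁻¹ := by
      rw [mul_inv_rev, simple_inv]
    rw [h2, len_inv, len_inv]
    exact hv
  exact h1.sph

/-- sums over fibres -/
theorem finsum_fib {α β N : Type} [AddCommMonoid N] (π : β → α) (P : α → Prop) (Pb : β → Prop)
    (F : α → Finset β) (g : β → N) (hg : (Function.support g).Finite)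
    (hF : ∀ a, P a → ∀ b, b ∈ F a ↔ Pb b ∧ π b = a) (hP : ∀ b, Pb b → P (π b))
    (hg0 : ∀ b, ¬ Pb b → g b = 0) (T : α → N) (hT : ∀ a, P a → T a = ∑ b ∈ F a, g b)
    (hT0 : ∀ a, ¬ P a → T a = 0) : ∑ᶠ a, T a = ∑ᶠ b, g b := by
  classical
  have hPb : ∀ b, g b ≠ 0 → Pb b := fun b hb => by
    by_contra h
    exact hb (hg0 b h)
  rw [finsum_eq_sum_of_support_subset (s := hg.toFinset) g (by rw [Set.Finite.coe_toFinset]),
    finsum_eq_sum_of_support_subset (s := hg.toFinset.image π) T ?_,
    ← sum_fiberwise_of_maps_to (g := π) (t := hg.toFinset.image π)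
      fun b hb => mem_image_of_mem π hb]
  · refine sum_congr rfl fun a ha => ?_
    rw [mem_image] at ha
    obtain ⟨b, hb, rfl⟩ := ha
    rw [Set.Finite.mem_toFinset, Function.mem_support] at hb
    have h1 : P (π b) := hP b (hPb b hb)
    rw [hT _ h1]
    symm
    refine sum_subset ?_ ?_
    · intro b' hb'
      rw [mem_filter, Set.Finite.mem_toFinset, Function.mem_support] at hb'
      exact (hF _ h1 b').2 ⟨hPb b' hb'.1, hb'.2⟩
    · intro b' hb' hn
      by_contra h2
      refine hn ?_
      rw [mem_filter, Set.Finite.mem_toFinset, Function.mem_support]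
      exact ⟨h2, ((hF _ h1 b').1 hb').2⟩
  · intro a ha
    rw [Function.mem_support] at ha
    have h1 : P a := by
      by_contra h
      exact ha (hT0 a h)
    rw [hT a h1] at ha
    obtain ⟨b, hb, hb'⟩ := exists_ne_zero_of_sum_ne_zero ha
    rw [coe_image]
    refine ⟨b, ?_, ((hF a h1 b).1 hb).2⟩
    rw [mem_coe, Set.Finite.mem_toFinset]
    exact hb'

variable {Q : (Finset (S × Lb) → Finset (S × Lb) → ZMod 2) → Finset S → Finset S → ZMod 2}

theorem IsCoef.zero (hQ : IsCoef M Q) (A B : Finset S) : Q (fun _ _ => 0) A B = 0 := by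
  have h1 := hQ.add (fun _ _ => 0) (fun _ _ => 0) A B
  rw [show (fun _ _ => (0 : ZMod 2) + 0 : Finset (S × Lb) → Finset (S × Lb) → ZMod 2) =
    fun _ _ => 0 from by funext a b; exact add_zero 0] at h1
  exact left_eq_add.1 h1

theorem IsCoef.sum (hQ : IsCoef M Q) {ι : Type} (I : Finset ι)
    (g : ι → Finset (S × Lb) → Finset (S × Lb) → ZMod 2) (A B : Finset S) :
    Q (fun a b => ∑ i ∈ I, g i a b) A B = ∑ i ∈ I, Q (g i) A B := by
  classical
  induction I using Finset.induction_on with
  | empty => exact hQ.zero A B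
  | insert i I hi ih =>
    rw [sum_insert hi, ← ih, ← hQ.add]
    congr 1
    funext a b
    rw [sum_insert hi]

theorem kk_supp (hQ : IsCoef M Q) {φ : Cel M Lb → Cel M Lb → ZMod 2} (hφ : FinS φ)
    (s t : Finset S) (P : M.Group × M.Group → Prop) [DecidablePred P] :
    (Function.support fun q : M.Group × M.Group => if P q then
      Q (fun a b => φ (q.1, s, a) (q.2, t, b)) (fl M q.1) (fl M q.2) else 0).Finite := by
  have hφ' : {q : M.Group × M.Group | ∃ s a t b, φ (q.1, s, a) (q.2, t, b) ≠ 0}.Finite := hφ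
  refine hφ'.subset fun q hq => ?_
  rw [Function.mem_support] at hq
  by_contra h
  refine hq ?_
  have h1 : (fun a b => φ (q.1, s, a) (q.2, t, b)) = fun _ _ => (0 : ZMod 2) := by
    funext a b
    by_contra h2
    exact h ⟨s, a, t, b, h2⟩
  rw [h1, hQ.zero]
  split_ifs <;> rfl

theorem kk_add (hQ : IsCoef M Q) {φ ψ : Cel M Lb → Cel M Lb → ZMod 2} (hφ : FinS φ)
    (hψ : FinS ψ) (s t : Finset S) :
    KK M Q (fun x y => φ x y + ψ x y) s t = KK M Q φ s t + KK M Q ψ s t := by
  classical
  unfold KK
  rw [← finsum_add_distrib (kk_supp hQ hφ s t _) (kk_supp hQ hψ s t _)]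
  refine finsum_congr fun q => ?_
  split_ifs
  · exact hQ.add _ _ _ _
  · exact (add_zero 0).symm

theorem kk_congr (hQ : IsCoef M Q) {φ ψ : Cel M Lb → Cel M Lb → ZMod 2}
    (h : ∀ x y, Ok M x y → φ x y = ψ x y) (s t : Finset S) :
    KK M Q φ s t = KK M Q ψ s t := by
  classical
  unfold KK
  refine finsum_congr fun q => ?_
  split_ifs with h1
  · refine hQ.congr _ _ _ _ (sph_fl _) (sph_fl _) fun a b ha hb ha' hb' hab => ?_
    have hx : Vld M ((q.1, s, a) : Cel M Lb) := ⟨h1.1.sph, h1.1, ha, ha'⟩
    have hy : Vld M ((q.2, t, b) : Cel M Lb) := ⟨h1.2.sph, h1.2, hb, hb'⟩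
    have hO : Ok M ((q.1, s, a) : Cel M Lb) (q.2, t, b) := ⟨hx, hy, hab⟩
    exact h _ _ hO
  · rfl

theorem kk_swap (hQ : IsCoef M Q) (φ : Cel M Lb → Cel M Lb → ZMod 2) (s t : Finset S) :
    KK M Q (fun x y => φ y x) s t = KK M Q φ t s := by
  classical
  unfold KK
  rw [← finsum_comp_equiv (Equiv.prodComm M.Group M.Group)]
  refine finsum_congr fun q => ?_
  show (if Mx M s q.2 ∧ Mx M t q.1 then
    Q (fun a b => φ (q.1, t, b) (q.2, s, a)) (fl M q.2) (fl M q.1) else 0) = _
  by_cases h1 : Mx M t q.1 ∧ Mx M s q.2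
  · rw [if_pos h1, if_pos h1.symm, hQ.swap]
  · rw [if_neg h1, if_neg fun h2 => h1 h2.symm]

theorem kk_zero (hQ : IsCoef M Q) {φ : Cel M Lb → Cel M Lb → ZMod 2} {s t : Finset S}
    (h : ∀ z a z' b, φ (z, s, a) (z', t, b) = 0) : KK M Q φ s t = 0 := by
  classical
  unfold KK
  refine (finsum_congr fun q => ?_).trans finsum_zero
  have h1 : (fun a b => φ (q.1, s, a) (q.2, t, b)) = fun _ _ => (0 : ZMod 2) := by
    funext a b
    exact h _ _ _ _
  rw [h1, hQ.zero]
  split_ifs <;> rfl

/-- the first half of the coboundary -/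
theorem kk_left (hQ : IsCoef M Q) {φ : Cel M Lb → Cel M Lb → ZMod 2} (hφ : FinS φ)
    {s t : Finset S} (hs : Sph M s) :
    KK M Q (fun x y => lin (fun x' => φ x' y) (bdC M x)) s t =
      ∑ v ∈ s, KK M Q φ (s.erase v) t := by
  classical
  -- the function on pairs
  have key : ∀ v ∈ s, KK M Q φ (s.erase v) t = ∑ᶠ q : M.Group × M.Group,
      if Mx M s q.1 ∧ Mx M t q.2 then ∑ y ∈ cs M q.1 s (s.erase v),
        Q (fun a b => φ (y, s.erase v, a) (q.2, t, b)) (fl M y) (fl M q.2) else 0 := by
    intro v _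
    have hs' : Sph M (s.erase v) := hs.mono (erase_subset _ _)
    unfold KK
    symm
    refine finsum_fib (fun q => ((exists_mx hs q.1).choose, q.2))
      (fun q => Mx M s q.1 ∧ Mx M t q.2) (fun q => Mx M (s.erase v) q.1 ∧ Mx M t q.2)
      (fun q => (cs M q.1 s (s.erase v)).image fun y => (y, q.2)) _ (kk_supp hQ hφ _ _ _) ?_ ?_ ?_
      _ ?_ ?_
    · rintro ⟨z, z'⟩ ⟨hz, hz'⟩ ⟨y, y'⟩
      rw [mem_image]
      have h1 := (exists_mx hs y).choose_spec
      constructor
      · rintro ⟨y₀, hy₀, h2⟩
        obtain ⟨rfl, rfl⟩ := Prod.mk.inj h2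
        rw [mem_cs hs] at hy₀
        refine ⟨⟨hy₀.2, hz'⟩, Prod.ext ?_ rfl⟩
        refine h1.1.unique hz ?_
        have h3 : (exists_mx hs y₀).choose⁻¹ * z =
          (exists_mx hs y₀).choose⁻¹ * y₀ * (z⁻¹ * y₀)⁻¹ := by group
        show (exists_mx hs y₀).choose⁻¹ * z ∈ par M s
        rw [h3]
        exact mul_mem h1.2 (inv_mem hy₀.1)
      · rintro ⟨⟨hy, hy'⟩, h2⟩
        obtain ⟨h3, h4⟩ := Prod.mk.inj h2
        refine ⟨y, ?_, Prod.ext rfl h4.symm⟩
        rw [mem_cs hs]
        refine ⟨?_, hy⟩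
        show z⁻¹ * y ∈ par M s
        rw [← h3]
        exact h1.2
    · rintro ⟨y, y'⟩ ⟨hy, hy'⟩
      exact ⟨(exists_mx hs y).choose_spec.1, hy'⟩
    · intro q hq
      exact if_neg hq
    · rintro ⟨z, z'⟩ hz
      rw [if_pos hz, sum_image fun y _ y' _ h => (Prod.mk.inj h).1]
      refine sum_congr rfl fun y hy => ?_
      rw [mem_cs hs] at hy
      exact (if_pos ⟨hy.2, hz.2⟩).symm
    · intro q hq
      exact if_neg hq
  rw [sum_congr rfl key]
  -- the sum over the directions
  have hfin : ∀ v ∈ s, (Function.support fun q : M.Group × M.Group =>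
      if Mx M s q.1 ∧ Mx M t q.2 then ∑ y ∈ cs M q.1 s (s.erase v),
        Q (fun a b => φ (y, s.erase v, a) (q.2, t, b)) (fl M y) (fl M q.2) else 0).Finite := by
    intro v _
    have h0 : {q : M.Group × M.Group | ∃ s a t b, φ (q.1, s, a) (q.2, t, b) ≠ 0}.Finite := hφ
    have h1 := h0.image2 (fun (q : M.Group × M.Group) (u : M.Group) => (q.1 * u⁻¹, q.2))
      (finite_toSet (parF M s))
    refine h1.subset fun q hq => ?_
    rw [Function.mem_support] at hq
    split_ifs at hq with h2
    · obtain ⟨y, hy, hne⟩ := exists_ne_zero_of_sum_ne_zero hq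
      rw [mem_cs hs] at hy
      refine ⟨(y, q.2), ?_, q.1⁻¹ * y, (mem_parF hs _).2 hy.1, ?_⟩
      · by_contra h3
        refine hne ?_
        have h4 : (fun a b => φ (y, s.erase v, a) (q.2, t, b)) = fun _ _ => (0 : ZMod 2) := by
          funext a b
          by_contra h5
          exact h3 ⟨_, a, _, b, h5⟩
        rw [h4, hQ.zero]
      · exact Prod.ext (by show y * (q.1⁻¹ * y)⁻¹ = q.1; group) rfl
    · exact absurd rfl hq
  rw [← finsum_sum_comm s _ hfin]
  unfold KK
  refine finsum_congr fun q => ?_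
  split_ifs with h1
  · have h2 : (fun a b => lin (fun x' => φ x' (q.2, t, b)) (bdC M ((q.1, s, a) : Cel M Lb))) =
        fun a b => ∑ v ∈ s, ∑ y ∈ cs M q.1 s (s.erase v),
          φ (y, s.erase v, rs (fl M y) a) (q.2, t, b) := by
      funext a b
      exact lin_bdC _ _
    show Q (fun a b => lin (fun x' => φ x' (q.2, t, b)) (bdC M ((q.1, s, a) : Cel M Lb)))
      (fl M q.1) (fl M q.2) = _
    rw [h2, hQ.sum]
    refine sum_congr rfl fun v _ => ?_
    rw [hQ.sum]
    refine sum_congr rfl fun y hy => ?_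
    rw [mem_cs hs] at hy
    exact hQ.left (fun a b => φ (y, s.erase v, a) (q.2, t, b)) _ _ _ (sph_fl _) (sph_fl _)
      (fl_coset h1.1 hy.1)
  · exact (sum_const_zero).symm

theorem FinS.swap {φ : Cel M Lb → Cel M Lb → ZMod 2} (hφ : FinS φ) :
    FinS fun x y => φ y x := by
  have h0 : {q : M.Group × M.Group | ∃ s a t b, φ (q.1, s, a) (q.2, t, b) ≠ 0}.Finite := hφ
  refine (h0.image Prod.swap).subset ?_
  rintro ⟨z, z'⟩ ⟨s, a, t, b, h⟩
  exact ⟨(z', z), ⟨t, b, s, a, h⟩, rfl⟩

theorem lin_ne {N : Type} [AddCommGroup N] [Module (ZMod 2) N] {A : Type} {f : A → N}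
    {x : A →₀ ZMod 2} (h : lin f x ≠ 0) : ∃ c, x c ≠ 0 ∧ f c ≠ 0 := by
  by_contra hn
  refine h ?_
  have h1 : lin f x = lin (fun _ => (0 : N)) x := lin_congr fun c hc => by
    by_contra h2
    exact hn ⟨c, hc, h2⟩
  rw [h1]
  unfold lin
  rw [Finsupp.linearCombination_apply]
  exact sum_eq_zero fun c _ => smul_zero _

theorem FinS.left {φ : Cel M Lb → Cel M Lb → ZMod 2} (hφ : FinS φ) :
    FinS fun x y => lin (fun x' => φ x' y) (bdC M x) := by
  refine finS_rch hφ fun x y h => ?_
  obtain ⟨x', h1, h2⟩ := lin_ne h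
  exact ⟨x', y, Relation.ReflTransGen.single h1, Relation.ReflTransGen.refl, h2⟩

theorem FinS.dX {φ : Cel M Lb → Cel M Lb → ZMod 2} (hφ : FinS φ) : FinS (dX (bdC M) φ) := by
  refine finS_rch hφ fun x y h => ?_
  unfold Pool.Agent.H4.BD.dX at h
  by_cases h1 : lin (fun x' => φ x' y) (bdC M x) = 0
  · rw [h1, zero_add] at h
    obtain ⟨y', h2, h3⟩ := lin_ne h
    exact ⟨x, y', Relation.ReflTransGen.refl, Relation.ReflTransGen.single h2, h3⟩
  · obtain ⟨x', h2, h3⟩ := lin_ne h1
    exact ⟨x', y, Relation.ReflTransGen.single h2, Relation.ReflTransGen.refl, h3⟩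

/-- the coboundary -/
theorem kk_dX (hQ : IsCoef M Q) {φ : Cel M Lb → Cel M Lb → ZMod 2} (hφ : FinS φ)
    {s t : Finset S} (hs : Sph M s) (ht : Sph M t) :
    KK M Q (dX (bdC M) φ) s t =
      ∑ v ∈ s, KK M Q φ (s.erase v) t + ∑ v ∈ t, KK M Q φ s (t.erase v) := by
  have h1 := kk_left hQ hφ (t := t) hs
  have h2 := kk_left hQ hφ.swap (t := s) ht
  have h3 : KK M Q (fun x y => lin (fun y' => φ x y') (bdC M y)) s t =
      ∑ v ∈ t, KK M Q φ s (t.erase v) := by
    rw [kk_swap hQ (fun x y => lin (fun x' => φ y x') (bdC M x)) s t, h2]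
    exact sum_congr rfl fun v _ => kk_swap hQ φ _ _
  rw [← h1, ← h3]
  exact kk_add hQ hφ.left (FinS.swap (φ := fun x y => lin (fun x' => φ y x') (bdC M x))
    hφ.swap.left) s t

/-- Pairing with a cycle of pairs: the coboundary of `φ` and the symmetric part of `φ` give nothing. -/
theorem kk_cycle (hQ : IsCoef M Q) {D φ : Cel M Lb → Cel M Lb → ZMod 2} (hφ : FinS φ)
    (hD : ∀ x y, Ok M x y → D x y = φ x y + φ y x + dX (bdC M) φ x y)
    {z : Finset S → ZMod 2} (hz : ∀ T, z T ≠ 0 → Sph M T)
    (hdz : ∀ T, ∑ v ∈ Tᶜ, z (insert v T) = 0) :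
    ∑ s, ∑ t, z s * z t * KK M Q D s t = 0 := by
  have h1 : ∀ s t, z s * z t * KK M Q D s t = z s * z t *
      ((∑ v ∈ s, KK M Q φ (s.erase v) t + ∑ v ∈ t, KK M Q φ s (t.erase v)) +
        (KK M Q φ s t + KK M Q φ t s)) := by
    intro s t
    by_cases hs : z s = 0
    · rw [hs, zero_mul, zero_mul, zero_mul]
    · by_cases ht : z t = 0
      · rw [ht, mul_zero, zero_mul, zero_mul]
      · rw [kk_congr hQ hD s t, kk_add hQ (φ := fun x y => φ x y + φ y x) ?_ hφ.dX,
          kk_add hQ hφ hφ.swap, kk_swap hQ φ s t, kk_dX hQ hφ (hz s hs) (hz t ht), add_comm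
            (KK M Q φ s t + KK M Q φ t s)]
        have h0 : {q : M.Group × M.Group | ∃ s a t b, φ (q.1, s, a) (q.2, t, b) ≠ 0}.Finite := hφ
        have h0' : {q : M.Group × M.Group | ∃ s a t b, φ (q.2, t, b) (q.1, s, a) ≠ 0}.Finite :=
          hφ.swap
        refine (h0.union h0').subset ?_
        rintro q ⟨s, a, t, b, h⟩
        by_cases h2 : φ (q.1, s, a) (q.2, t, b) = 0
        · right
          refine ⟨s, a, t, b, fun h3 => h ?_⟩
          show φ (q.1, s, a) (q.2, t, b) + φ (q.2, t, b) (q.1, s, a) = 0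
          rw [h2, h3, add_zero]
        · exact Or.inl ⟨s, a, t, b, h2⟩
  rw [sum_congr rfl fun s _ => sum_congr rfl fun t _ => h1 s t]
  exact Pool.Agent.H65.BU.double_sum z hdz (fun s t => KK M Q φ s t) fun s t => KK M Q φ s t

end Pool.Agent.H4.BD

end

section

/-!
# Project BD: panels and the sets `XX` of chambers

A label of the letter `t` is a chamber `b` with `δ c b = t`. The chamber `x` is compatible with it if
`δ b x = t * δ c x`; this is a condition only if `t` is a first letter of `δ c x`. The panel of type `v` of `x` is the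
set of the `y` with `δ x y ∈ par M {v}`. Main results: `even_XX`, `sum_XX_const` (every panel of a type in `s` has an
even number of chambers in `XX`), `sum_XX_face` (`XX` is the disjoint union of the sets of the faces), `XX_finite`.
-/

set_option autoImplicit false
set_option linter.unusedSectionVars false

open Finset

namespace Pool.Agent.H4.BD

open Pool.Agent.H4.FC Pool.Agent.H78.RC Pool.Agent.H97.BLD

variable {S : Type} [Fintype S] [DecidableEq S] {M : CoxeterMatrix S} {Δ : Type}
  {δ : Δ → Δ → M.Group}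

/-- the chamber `x` is compatible with the labels `a t`, `t ∈ Z` -/
def Gd (δ : Δ → Δ → M.Group) (c : Δ) (Z : Finset S) (a : S → Δ) (x : Δ) : Prop :=
  ∀ t ∈ Z, δ (a t) x = M.simple t * δ c x

/-- letters which are not first letters do not give a condition -/
theorem gd_up (h : IsBuilding M δ) {c x : Δ} {a : Δ} {t : S} (ha : δ c a = M.simple t)
    (ht : t ∉ fl M (δ c x)) : δ a x = M.simple t * δ c x :=
  h.step_up t c a x (h.symm_simple ha) ((not_mem_fl M).1 ht)

/-- a chamber of the panel, from the projection -/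
theorem gd_down (h : IsBuilding M δ) {c x₀ y : Δ} {a : Δ} {t v : S}
    (hy : δ x₀ y = M.simple v) (hl : len M (δ c x₀ * M.simple v) = len M (δ c x₀) + 1)
    (ht : t ∈ fl M (δ c x₀)) (hg : δ a x₀ = M.simple t * δ c x₀) :
    δ a y = M.simple t * δ c y := by
  have h1 := h.stepR_up hy hl
  have h2 : len M (M.simple t * (δ c x₀ * M.simple v)) + 1 = len M (δ c x₀ * M.simple v) := by
    rcases len_simple_mul M (δ c x₀ * M.simple v) t with h3 | h3
    · exfalso
      rw [mem_fl] at ht
      have h4 := len_mul_simple M (M.simple t * δ c x₀) v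
      rw [mul_assoc] at h4
      omega
    · exact h3
  rw [h1, ← mul_assoc]
  rw [mem_fl] at ht
  have h3 : len M (δ a x₀ * M.simple v) = len M (δ a x₀) + 1 := by
    rw [hg, mul_assoc]
    omega
  rw [h.stepR_up hy h3, hg]

/-- the projection of the panel is compatible if another chamber is compatible -/
theorem gd_proj (h : IsBuilding M δ) {c x₀ y : Δ} {a : Δ} {t v : S} (ha : δ c a = M.simple t)
    (hy : δ x₀ y = M.simple v) (hl : len M (δ c x₀ * M.simple v) = len M (δ c x₀) + 1)
    (hg : δ a y = M.simple t * δ c y) : δ a x₀ = M.simple t * δ c x₀ := by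
  by_cases ht : t ∈ fl M (δ c x₀)
  · have h1 := h.stepR_up hy hl
    rcases h.step t c a x₀ (h.symm_simple ha) with h2 | h2
    · exact h2
    · exfalso
      rcases h.stepR (a := a) (h.symm_simple hy) with h3 | h3
      · rw [hg, h1, ← mul_assoc, mul_assoc, simple_sq, mul_one] at h3
        rw [h3] at h2
        have h4 := congrArg (len M) h2
        rw [mem_fl] at ht
        omega
      · rw [hg, h1] at h3
        rw [h3] at h2
        have h4 := congrArg (len M) h2
        have h5 : M.simple t * δ c x₀ = δ c x₀ * M.simple v := by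
          have h6 : M.simple t * (M.simple t * (δ c x₀ * M.simple v)) = M.simple t * δ c x₀ := by
            rw [h2]
          rw [← mul_assoc, simple_sq, one_mul] at h6
          exact h6.symm
        have h6 := congrArg (len M) h5
        rw [mem_fl] at ht
        omega
  · exact gd_up h ha ht

/-- the panel of type `v` of the chamber `x` -/
def pan (δ : Δ → Δ → M.Group) (v : S) (x : Δ) : Set Δ := {y | y = x ∨ δ x y = M.simple v}

theorem mem_pan_self (v : S) (x : Δ) : x ∈ pan δ v x := Or.inl rfl

theorem pan_symm (h : IsBuilding M δ) {v : S} {x y : Δ} (hy : y ∈ pan δ v x) : x ∈ pan δ v y := by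
  rcases hy with hy | hy
  · exact Or.inl hy.symm
  · exact Or.inr (h.symm_simple hy)

theorem pan_trans (h : IsBuilding M δ) {v : S} {x y z : Δ} (hy : y ∈ pan δ v x)
    (hz : z ∈ pan δ v y) : z ∈ pan δ v x := by
  rcases hy with rfl | hy
  · exact hz
  · rcases hz with rfl | hz
    · exact Or.inr hy
    · rcases h.step v y x z hy with h1 | h1
      · left
        rw [hz, simple_sq] at h1
        exact ((h.eq_one x z).1 h1).symm
      · right
        rw [h1, hz]

theorem pan_eq (h : IsBuilding M δ) {v : S} {x y : Δ} (hy : y ∈ pan δ v x) :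
    pan δ v y = pan δ v x :=
  Set.Subset.antisymm (fun _ hz => pan_trans h hy hz)
    (fun _ hz => pan_trans h (pan_symm h hy) hz)

/-- the projection of `c` on a panel -/
theorem exists_proj (h : IsBuilding M δ) (c : Δ) (v : S) (x : Δ) :
    ∃ x₀ ∈ pan δ v x, len M (δ c x₀ * M.simple v) = len M (δ c x₀) + 1 := by
  rcases len_mul_simple M (δ c x) v with h1 | h1
  · exact ⟨x, mem_pan_self v x, h1⟩
  · obtain ⟨x₀, h2, h3⟩ := h.exists_stepR v c x
    refine ⟨x₀, Or.inr h2, ?_⟩
    rw [h3, mul_assoc, simple_sq, mul_one]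
    omega

/-- PARITY: every panel has an even number of compatible chambers of the set `C`. -/
theorem even_panel (h : IsBuilding M δ) {c : Δ} {Z : Finset S} {a : S → Δ}
    (ha : ∀ t ∈ Z, δ c (a t) = M.simple t) {K : Set M.Group} {v : S}
    (hK : ∀ w ∈ K, w * M.simple v ∈ K) (hZ : ∀ w ∈ K, fl M w ⊆ Z) {C : Set Δ}
    (hC0 : ∀ x₀ y, δ x₀ y = M.simple v → len M (δ c x₀ * M.simple v) = len M (δ c x₀) + 1 →
      y ∈ C → x₀ ∈ C)
    (hC1 : ∀ x₀ y, δ x₀ y = M.simple v → len M (δ c x₀ * M.simple v) = len M (δ c x₀) + 1 →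
      x₀ ∈ C → ¬ fl M (δ c x₀ * M.simple v) ⊆ fl M (δ c x₀) → y ∈ C)
    (hC2 : ∀ x₀, len M (δ c x₀ * M.simple v) = len M (δ c x₀) + 1 → x₀ ∈ C →
      fl M (δ c x₀ * M.simple v) ⊆ fl M (δ c x₀) →
      Odd {y | δ x₀ y = M.simple v ∧ y ∈ C}.ncard) (x : Δ) :
    Even {y | y ∈ pan δ v x ∧ y ∈ C ∧ δ c y ∈ K ∧ Gd δ c Z a y}.ncard := by
  obtain ⟨x₀, hx₀, hl⟩ := exists_proj h c v x
  rw [← pan_eq h hx₀]
  have hK' : ∀ w, w * M.simple v ∈ K → w ∈ K := by
    intro w hw
    have h1 := hK _ hw
    rwa [mul_assoc, simple_sq, mul_one] at h1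
  have hc : ∀ y, δ x₀ y = M.simple v → δ c y = δ c x₀ * M.simple v := fun y hy => h.stepR_up hy hl
  have hne : ∀ y, δ x₀ y = M.simple v → y ≠ x₀ := by
    rintro y hy rfl
    rw [h.self] at hy
    have h1 := len_simple M v
    rw [← hy, len_one] at h1
    omega
  by_cases hA : x₀ ∈ C ∧ δ c x₀ ∈ K ∧ Gd δ c Z a x₀
  · obtain ⟨hA0, hA1, hA2⟩ := hA
    by_cases hB : fl M (δ c x₀ * M.simple v) ⊆ fl M (δ c x₀)
    · -- no new letter
      have h1 : {y | y ∈ pan δ v x₀ ∧ y ∈ C ∧ δ c y ∈ K ∧ Gd δ c Z a y} =
          insert x₀ {y | δ x₀ y = M.simple v ∧ y ∈ C} := by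
        ext y
        rw [Set.mem_insert_iff]
        refine ⟨fun hy => ?_, fun hy => ?_⟩
        · rcases hy.1 with h1 | h1
          · exact Or.inl h1
          · exact Or.inr ⟨h1, hy.2.1⟩
        · rcases hy with rfl | hy
          · exact ⟨mem_pan_self v y, hA0, hA1, hA2⟩
          · refine ⟨Or.inr hy.1, hy.2, by rw [hc y hy.1]; exact hK _ hA1, fun t ht => ?_⟩
            by_cases htF : t ∈ fl M (δ c y)
            · rw [hc y hy.1] at htF
              exact gd_down h hy.1 hl (hB htF) (hA2 t ht)
            · exact gd_up h (ha t ht) htF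
      have h2 := hC2 x₀ hl hA0 hB
      have h3 : {y | δ x₀ y = M.simple v ∧ y ∈ C}.Finite := by
        refine Set.finite_of_ncard_ne_zero fun h0 => ?_
        rw [h0] at h2
        exact absurd h2 (by decide)
      rw [h1, Set.ncard_insert_of_notMem (fun h4 => hne x₀ h4.1 rfl) h3]
      exact h2.add_one
    · -- a new letter
      have hB' := hB
      rw [not_subset] at hB
      obtain ⟨t, ht1, ht0⟩ := hB
      have htw := fold M ht0 ht1
      have htZ : t ∈ Z := hZ _ (hK _ hA1) ht1
      have hat : δ (a t) x₀ = δ c x₀ * M.simple v := (hA2 t htZ).trans htw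
      obtain ⟨y₁, hy1, hy2⟩ := h.exists_stepR v (a t) x₀
      rw [hat, mul_assoc, simple_sq, mul_one] at hy2
      have hle : Le M (δ c x₀) (δ (a t) x₀) := by
        unfold Le
        rw [hat, inv_mul_cancel_left, len_simple, hl]
      have h1 : {y | y ∈ pan δ v x₀ ∧ y ∈ C ∧ δ c y ∈ K ∧ Gd δ c Z a y} = {x₀, y₁} := by
        ext y
        rw [Set.mem_insert_iff, Set.mem_singleton_iff]
        constructor
        · rintro ⟨hy | hy, -, -, hg⟩
          · exact Or.inl hy
          · right
            refine h.geo_unique (a := a t) (c := x₀) hle ?_ ?_ hy2 ?_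
            · rw [hg t htZ, hc y hy, ← mul_assoc, htw, mul_assoc, simple_sq, mul_one]
            · rw [hat, inv_mul_cancel_left]
              exact h.symm_simple hy
            · rw [hat, inv_mul_cancel_left]
              exact h.symm_simple hy1
        · rintro (rfl | rfl)
          · exact ⟨mem_pan_self v y, hA0, hA1, hA2⟩
          · refine ⟨Or.inr hy1, hC1 x₀ y hy1 hl hA0 hB', by rw [hc y hy1]; exact hK _ hA1,
              fun t' ht' => ?_⟩
            by_cases htF : t' ∈ fl M (δ c y)
            · rw [hc y hy1] at htF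
              by_cases ht0' : t' ∈ fl M (δ c x₀)
              · exact gd_down h hy1 hl ht0' (hA2 t' ht')
              · have h3 := fold M ht0' htF
                have h4 : t' = t := simple_inj M (mul_right_cancel (h3.trans htw.symm))
                subst h4
                rw [hc y hy1, ← mul_assoc, h3, mul_assoc, simple_sq, mul_one, hy2]
            · exact gd_up h (ha t' ht') htF
      rw [h1, Set.ncard_pair (hne y₁ hy1).symm]
      exact even_two
  · have h1 : {y | y ∈ pan δ v x₀ ∧ y ∈ C ∧ δ c y ∈ K ∧ Gd δ c Z a y} = ∅ := by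
      refine Set.eq_empty_of_forall_notMem ?_
      rintro y ⟨hy | hy, hy0, hy1, hy2⟩
      · subst hy
        exact hA ⟨hy0, hy1, hy2⟩
      · refine hA ⟨hC0 x₀ y hy hl hy0, hK' _ ?_, fun t ht => ?_⟩
        · rw [← hc y hy]
          exact hy1
        · exact gd_proj h (ha t ht) hy hl (hy2 t ht)
    rw [h1, Set.ncard_empty]
    exact Even.zero

/-! ### Labels -/

theorem mem_par_single {v : S} {w : M.Group} : w ∈ par M {v} ↔ w = 1 ∨ w = M.simple v := by
  constructor
  · refine par_induction M {v} (p := fun w => w = 1 ∨ w = M.simple v) (Or.inl rfl) ?_ w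
    intro u hu w hw
    rw [mem_singleton] at hu
    subst hu
    rcases hw with rfl | rfl
    · right
      rw [mul_one]
    · left
      exact simple_sq M u
  · rintro (rfl | rfl)
    · exact one_mem _
    · exact simple_mem_par M (mem_singleton_self v)

theorem mem_par_empty {w : M.Group} : w ∈ par M (∅ : Finset S) ↔ w = 1 := by
  constructor
  · exact par_induction M ∅ (p := fun w => w = 1) rfl
      (fun v hv => absurd hv (notMem_empty v)) w
  · rintro rfl
    exact one_mem _

theorem mem_pan_iff (h : IsBuilding M δ) {v : S} {x y : Δ} :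
    y ∈ pan δ v x ↔ δ x y ∈ par M {v} := by
  rw [mem_par_single]
  refine or_congr_left ?_
  rw [h.eq_one]
  exact eq_comm

variable {Lb : Type} [DecidableEq Lb] [VLb S Lb]

/-- the labels of a cell as a function -/
theorem exists_gd {c : Δ} {lab : S × Lb → Δ} (hL : LabOk M δ c lab) {A : Finset S}
    {a : Finset (S × Lb)} (ha : Lab A a) : ∃ a' : S → Δ, (∀ t ∈ A, δ c (a' t) = M.simple t) ∧
      ∀ x, (∀ q ∈ a, δ (lab q) x = M.simple q.1 * δ c x) ↔ Gd δ c A a' x := by
  have h1 : ∀ t, ∃ b : Δ, t ∈ A → ∃ j, (t, j) ∈ a ∧ (∀ j', (t, j') ∈ a → j' = j) ∧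
      b = lab (t, j) := by
    intro t
    by_cases ht : t ∈ A
    · obtain ⟨j, hj, hu⟩ := ha.2 t ht
      exact ⟨lab (t, j), fun _ => ⟨j, hj, hu, rfl⟩⟩
    · exact ⟨c, fun h => absurd h ht⟩
  choose f hf using h1
  refine ⟨f, fun t ht => ?_, fun x => ?_⟩
  · obtain ⟨j, -, -, h2⟩ := hf t ht
    rw [h2]
    exact hL.1 _
  · constructor
    · intro h t ht
      obtain ⟨j, h1, -, h2⟩ := hf t ht
      rw [h2]
      exact h _ h1
    · rintro h ⟨t, j⟩ hq
      have ht : t ∈ A := ha.1 _ hq
      obtain ⟨j', -, h2, h3⟩ := hf t ht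
      have h1 := h t ht
      rw [h3, ← h2 j hq] at h1
      exact h1

/-- PARITY of the panels of the set of chambers of a cell -/
theorem even_XX (h : IsBuilding M δ) {c : Δ} {C : Set Δ} (hS : Sel M δ c C) {lab : S × Lb → Δ}
    (hL : LabOk M δ c lab) {e : Cel M Lb} (he : Vld M e) {v : S} (hv : v ∈ e.2.1) (x : Δ) :
    Even {y | y ∈ XX M δ c lab C e ∧ δ x y ∈ par M {v}}.ncard := by
  obtain ⟨a, ha1, ha2⟩ := exists_gd hL he.2.2.1
  have h1 := even_panel h ha1 (K := {w | e.1⁻¹ * w ∈ par M e.2.1}) (v := v) (fun w hw => by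
    show e.1⁻¹ * (w * M.simple v) ∈ par M e.2.1
    rw [← mul_assoc]
    exact mul_mem hw (simple_mem_par M hv)) (fun w hw => fl_coset he.2.1 hw)
    (C := C) (fun x₀ y hy hl hyC => hS.down x₀ y v hy (by rw [h.stepR_up hy hl, hl]) hyC)
    (fun x₀ y hy hl hx hn => by
      rw [not_subset] at hn
      obtain ⟨t, ht1, ht2⟩ := hn
      exact hS.new x₀ hx v t y hy hl (fold M ht2 ht1))
    (fun x₀ hl hx hn => by
      have h2 := hS.odd x₀ hx v hl (fun t ht => by
        have h3 := new_of_eq M ht hl
        exact h3.1 (hn h3.2))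
      have h3 : {y | δ x₀ y = M.simple v ∧ y ∈ C} = {y | y ∈ C ∧ δ x₀ y = M.simple v} := by
        ext y
        exact and_comm
      rw [h3]
      exact h2) x
  have h2 : {y | y ∈ XX M δ c lab C e ∧ δ x y ∈ par M {v}} =
      {y | y ∈ pan δ v x ∧ y ∈ C ∧ δ c y ∈ {w | e.1⁻¹ * w ∈ par M e.2.1} ∧
        Gd δ c (fl M e.1) a y} := by
    ext y
    constructor
    · rintro ⟨⟨h3, h4, h5⟩, h6⟩
      exact ⟨(mem_pan_iff h).2 h6, h3, h4, (ha2 y).1 h5⟩
    · rintro ⟨h6, h3, h4, h5⟩
      exact ⟨⟨h3, h4, (ha2 y).2 h5⟩, (mem_pan_iff h).1 h6⟩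
  rw [h2]
  exact h1

/-! ### Finiteness -/

theorem sphere_finite (h : IsBuilding M δ) {q : S → Δ → ℕ} (hq : Reg M δ q) (c : Δ) (w : M.Group) :
    {x | δ c x = w}.Finite := by
  obtain ⟨n, hn⟩ : ∃ n, len M w = n := ⟨_, rfl⟩
  induction n generalizing w with
  | zero =>
    refine (Set.finite_singleton c).subset fun x hx => ?_
    have h1 : δ c x = 1 := by
      rw [show δ c x = w from hx]
      exact (len_eq_zero M).1 hn
    exact ((h.eq_one c x).1 h1).symm
  | succ n ih =>
    have h1 : w ≠ 1 := by
      rintro rfl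
      rw [len_one] at hn
      omega
    obtain ⟨u, hu⟩ := exists_right M h1
    have h2 := ih (w * M.simple u) (by omega)
    refine (h2.biUnion fun x' _ => (hq u x').1).subset fun x hx => ?_
    obtain ⟨x', h3, h4⟩ := h.exists_stepR u c x
    rw [Set.mem_iUnion₂]
    refine ⟨x', ?_, h.symm_simple h3⟩
    show δ c x' = w * M.simple u
    rw [h4, show δ c x = w from hx]

theorem XX_finite (h : IsBuilding M δ) {q : S → Δ → ℕ} (hq : Reg M δ q) {c : Δ} {C : Set Δ}
    {lab : S × Lb → Δ} {e : Cel M Lb} (he : Sph M e.2.1) : (XX M δ c lab C e).Finite := by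
  classical
  have h1 : {w | e.1⁻¹ * w ∈ par M e.2.1}.Finite := by
    have h2 : {w | e.1⁻¹ * w ∈ par M e.2.1} ⊆ (((parF M e.2.1).image fun u => e.1 * u :
        Finset M.Group) : Set M.Group) := by
      intro w hw
      rw [coe_image]
      exact ⟨e.1⁻¹ * w, (mem_parF he _).2 hw, mul_inv_cancel_left _ _⟩
    exact (finite_toSet _).subset h2
  refine (h1.biUnion fun w _ => sphere_finite h hq c w).subset fun x hx => ?_
  rw [Set.mem_iUnion₂]
  exact ⟨δ c x, hx.2.1, rfl⟩

/-- functions which are constant on the panels of type `v` have sum zero -/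
theorem sum_XX_const (h : IsBuilding M δ) {q : S → Δ → ℕ} (hq : Reg M δ q) {c : Δ} {C : Set Δ}
    (hS : Sel M δ c C) {lab : S × Lb → Δ} (hL : LabOk M δ c lab) {e : Cel M Lb} (he : Vld M e)
    {v : S} (hv : v ∈ e.2.1) (g : Δ → ZMod 2) (hg : ∀ x y, δ x y ∈ par M {v} → g x = g y) :
    ∑ᶠ x ∈ XX M δ c lab C e, g x = 0 := by
  classical
  have hfin := XX_finite h hq (C := C) (lab := lab) (c := c) he.1
  rw [finsum_mem_eq_finite_toFinset_sum _ hfin,
    ← sum_fiberwise_of_maps_to (t := hfin.toFinset.image fun x => residue M δ {v} x)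
      (g := fun x => residue M δ {v} x) (fun x hx => mem_image_of_mem _ hx)]
  refine sum_eq_zero fun R hR => ?_
  rw [mem_image] at hR
  obtain ⟨x, -, rfl⟩ := hR
  have h1 : ∀ y, residue M δ {v} y = residue M δ {v} x ↔ δ x y ∈ par M {v} := by
    intro y
    constructor
    · intro h2
      have h3 : x ∈ residue M δ {v} y := by
        rw [h2]
        show δ x x ∈ par M {v}
        rw [h.self]
        exact one_mem _
      have h4 : δ y x ∈ par M {v} := h3
      rw [h.symm]
      exact inv_mem h4
    · intro h2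
      ext z
      constructor
      · intro h3
        exact h.par_trans h2 h3
      · intro h3
        refine h.par_trans ?_ h3
        rw [h.symm]
        exact inv_mem h2
  have h2 : (hfin.toFinset.filter fun y => residue M δ {v} y = residue M δ {v} x).card =
      {y | y ∈ XX M δ c lab C e ∧ δ x y ∈ par M {v}}.ncard := by
    rw [← Set.ncard_coe_finset]
    congr 1
    ext y
    rw [mem_coe, mem_filter, Set.Finite.mem_toFinset]
    exact and_congr_right fun _ => h1 y
  have h3 : ∀ y ∈ hfin.toFinset.filter fun y => residue M δ {v} y = residue M δ {v} x,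
      g y = g x := by
    intro y hy
    rw [mem_filter] at hy
    exact (hg x y ((h1 y).1 hy.2)).symm
  rw [sum_congr rfl h3, sum_const, h2, nsmul_eq_mul]
  have h4 := even_XX h hS hL he hv x
  rw [(ZMod.natCast_eq_zero_iff_even).2 h4, zero_mul]

/-! ### Faces -/

theorem XX_face (h : IsBuilding M δ) {c : Δ} {C : Set Δ} {lab : S × Lb → Δ}
    (hL : LabOk M δ c lab) {e : Cel M Lb} (he : Vld M e) {v : S} {y : M.Group}
    (hy : y ∈ cs M e.1 e.2.1 (e.2.1.erase v)) {x : Δ} :
    x ∈ XX M δ c lab C (face M e v y) ↔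
      x ∈ XX M δ c lab C e ∧ y⁻¹ * δ c x ∈ par M (e.2.1.erase v) := by
  rw [mem_cs he.1] at hy
  constructor
  · rintro ⟨h1, h2, h3⟩
    refine ⟨⟨h1, ?_, fun q hq => ?_⟩, h2⟩
    · have h4 : e.1⁻¹ * δ c x = e.1⁻¹ * y * (y⁻¹ * δ c x) := by group
      rw [h4]
      exact mul_mem hy.1 (par_mono M (erase_subset _ _) h2)
    · by_cases h4 : q.1 ∈ fl M y
      · exact h3 q (mem_filter.2 ⟨hq, h4⟩)
      · exact gd_up h (hL.1 q) fun h5 => h4 (fl_coset hy.2 h2 h5)
  · rintro ⟨⟨h1, h2, h3⟩, h4⟩
    exact ⟨h1, h4, fun q hq => h3 q (mem_filter.1 hq).1⟩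

/-- the chambers of a cell are the chambers of its faces in the direction `v` -/
theorem sum_XX_face (h : IsBuilding M δ) {q : S → Δ → ℕ} (hq : Reg M δ q) {c : Δ} {C : Set Δ}
    {lab : S × Lb → Δ} (hL : LabOk M δ c lab) {e : Cel M Lb} (he : Vld M e) (v : S)
    (g : Δ → ZMod 2) :
    ∑ᶠ x ∈ XX M δ c lab C e, g x =
      ∑ y ∈ cs M e.1 e.2.1 (e.2.1.erase v), ∑ᶠ x ∈ XX M δ c lab C (face M e v y), g x := by
  have hs' : Sph M (e.2.1.erase v) := he.1.mono (erase_subset _ _)
  have h1 : XX M δ c lab C e = ⋃ y ∈ (cs M e.1 e.2.1 (e.2.1.erase v) : Set M.Group),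
      XX M δ c lab C (face M e v y) := by
    ext x
    rw [Set.mem_iUnion₂]
    constructor
    · intro hx
      obtain ⟨y, hy1, hy2⟩ := exists_mx hs' (δ c x)
      have hy : y ∈ cs M e.1 e.2.1 (e.2.1.erase v) := by
        rw [mem_cs he.1]
        refine ⟨?_, hy1⟩
        have h4 : e.1⁻¹ * y = e.1⁻¹ * δ c x * (y⁻¹ * δ c x)⁻¹ := by group
        rw [h4]
        exact mul_mem hx.2.1 (inv_mem (par_mono M (erase_subset _ _) hy2))
      exact ⟨y, hy, (XX_face h hL he hy).2 ⟨hx, hy2⟩⟩
    · rintro ⟨y, hy, hx⟩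
      exact ((XX_face h hL he hy).1 hx).1
  have h5 : (cs M e.1 e.2.1 (e.2.1.erase v) : Set M.Group).PairwiseDisjoint
      fun y => XX M δ c lab C (face M e v y) := by
    intro y hy y' hy' hne
    refine Set.disjoint_left.2 fun x hx hx' => hne ?_
    have h2 := ((XX_face h hL he hy).1 hx).2
    have h3 := ((XX_face h hL he hy').1 hx').2
    have hy2 := ((mem_cs he.1).1 hy).2
    have hy2' := ((mem_cs he.1).1 hy').2
    refine hy2.unique hy2' ?_
    have h4 : y⁻¹ * y' = y⁻¹ * δ c x * (y'⁻¹ * δ c x)⁻¹ := by group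
    rw [h4]
    exact mul_mem h2 (inv_mem h3)
  rw [h1, finsum_mem_biUnion h5 (finite_toSet _) fun y _ => XX_finite h hq hs']
  exact finsum_mem_coe_finset _ _

/-- the chambers of the base cell -/
theorem XX_base (h : IsBuilding M δ) {c : Δ} {C : Set Δ} (hS : Sel M δ c C)
    {lab : S × Lb → Δ} : XX M δ c lab C (b0 M Lb) = {c} := by
  ext x
  rw [Set.mem_singleton_iff]
  constructor
  · rintro ⟨-, h1, -⟩
    have h2 : (1 : M.Group)⁻¹ * δ c x ∈ par M (∅ : Finset S) := h1
    rw [inv_one, one_mul, mem_par_empty, h.eq_one] at h2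
    exact h2.symm
  · rintro rfl
    refine ⟨hS.base, ?_, fun q hq => absurd hq (notMem_empty q)⟩
    show (1 : M.Group)⁻¹ * δ x x ∈ par M (∅ : Finset S)
    rw [h.self, inv_one, one_mul]
    exact one_mem _

end Pool.Agent.H4.BD

end

section

/-!
# Project BD: residues are buildings

PROOFS. `ind_hom M J : (sub M J).Group →* M.Group` is injective (`ind_hom_injective`), maps `par (sub M J) T` onto `par M (T.map (ind_emb J))`,
its image is `par M J`; `len_ind`: reduced words of elements of `par M J` use only letters in `J` (exchange condition; or: `descent_iff`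
and `ind_tits`: `w s < w` in `sub M J` iff `ind w s < ind w` in `M`, induction). `Δ' = {x // δ c x ∈ par M J}`, `δ' x y` the preimage of
`δ x y ∈ par M J` (`IsBuilding.par_trans`, symmetry).
-/

set_option autoImplicit false
set_option linter.unusedSectionVars false

open Finset

namespace Pool.Agent.H4.BD

open Pool.Agent.H4.FC Pool.Agent.H78.RC Pool.Agent.H97.BLD Pool.Agent.H73.LK

variable {S Δ : Type} [Fintype S] [DecidableEq S] {M : CoxeterMatrix S} {δ : Δ → Δ → M.Group}

/-- the image of the parabolic subgroups -/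
private theorem map_par (M : CoxeterMatrix S) (J : Finset S) (T : Finset {v // v ∈ J}) :
    (par (sub M J) T).map (ind_hom M J) = par M (T.map (ind_emb J)) := by
  unfold par
  rw [MonoidHom.map_closure]
  congr 1
  ext w
  constructor
  · rintro ⟨u, ⟨v, hv, rfl⟩, rfl⟩
    exact ⟨v.1, mem_map.2 ⟨v, hv, rfl⟩, ind_hom_simple M J v⟩
  · rintro ⟨v, hv, rfl⟩
    obtain ⟨u, hu, rfl⟩ := mem_map.1 hv
    exact ⟨(sub M J).simple u, ⟨u, hu, rfl⟩, ind_hom_simple M J u⟩

private theorem map_univ_emb (J : Finset S) : (univ : Finset {v // v ∈ J}).map (ind_emb J) = J := by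
  ext v
  rw [mem_map]
  constructor
  · rintro ⟨w, _, rfl⟩
    exact w.2
  · intro hv
    exact ⟨⟨v, hv⟩, mem_univ _, rfl⟩

theorem par_ind (J : Finset S) (T : Finset {v // v ∈ J}) (w : (sub M J).Group) :
    ind_hom M J w ∈ par M (T.map (ind_emb J)) ↔ w ∈ par (sub M J) T := by
  rw [← map_par, Subgroup.mem_map_iff_mem (ind_hom_injective M J)]

theorem exists_ind (J : Finset S) {w : M.Group} (h : w ∈ par M J) : ∃ w', ind_hom M J w' = w := by
  have h1 := map_par M J univ
  rw [map_univ_emb] at h1
  rw [← h1] at h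
  obtain ⟨w', _, hw'⟩ := h
  exact ⟨w', hw'⟩

private theorem len_ind_le (J : Finset S) : ∀ (n : ℕ) (w : (sub M J).Group), len (sub M J) w = n →
    len M (ind_hom M J w) ≤ n := by
  intro n
  induction n with
  | zero =>
    intro w hw
    rw [(len_eq_zero (sub M J)).1 hw, map_one, len_one]
  | succ n ih =>
    intro w hw
    have h1 : w ≠ 1 := by
      rintro rfl
      rw [len_one] at hw
      omega
    obtain ⟨s, hs⟩ := exists_right (sub M J) h1
    have h2 := ih (w * (sub M J).simple s) (by omega)
    rw [map_mul, ind_hom_simple] at h2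
    rcases len_mul_simple M (ind_hom M J w) s.1 with h3 | h3 <;> omega

theorem ind_mem (J : Finset S) (w : (sub M J).Group) : ind_hom M J w ∈ par M J := by
  have key : ∀ (n : ℕ) (w : (sub M J).Group), len (sub M J) w = n → ind_hom M J w ∈ par M J := by
    intro n
    induction n with
    | zero =>
      intro w hw
      rw [(len_eq_zero (sub M J)).1 hw, map_one]
      exact one_mem _
    | succ n ih =>
      intro w hw
      have h1 : w ≠ 1 := by
        rintro rfl
        rw [len_one] at hw
        omega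
      obtain ⟨s, hs⟩ := exists_right (sub M J) h1
      have h2 := ih (w * (sub M J).simple s) (by omega)
      rw [map_mul, ind_hom_simple] at h2
      have h3 : M.simple s.1 ∈ par M J := Subgroup.subset_closure ⟨s.1, s.2, rfl⟩
      exact (Subgroup.mul_mem_cancel_right _ h3).1 h2
  exact key _ w rfl

theorem len_ind (J : Finset S) (w : (sub M J).Group) :
    len M (ind_hom M J w) = len (sub M J) w := by
  have key : ∀ (n : ℕ) (w : (sub M J).Group), len M (ind_hom M J w) = n → len (sub M J) w ≤ n := by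
    intro n
    induction n with
    | zero =>
      intro w hw
      have h1 := (len_eq_zero M).1 hw
      rw [← map_one (ind_hom M J)] at h1
      rw [ind_hom_injective M J h1, len_one]
    | succ n ih =>
      intro w hw
      have h1 : ind_hom M J w ≠ 1 := by
        intro h1
        rw [h1, len_one] at hw
        omega
      obtain ⟨s, hs⟩ := exists_right M h1
      have hsJ : s ∈ J := descent_par M (ind_mem J w) hs
      have h2 := ih (w * (sub M J).simple ⟨s, hsJ⟩) (by
        rw [map_mul, ind_hom_simple]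
        show len M (ind_hom M J w * M.simple s) = n
        omega)
      rcases len_mul_simple (sub M J) w ⟨s, hsJ⟩ with h3 | h3 <;> omega
  exact le_antisymm (len_ind_le J _ w rfl) (key _ w rfl)

theorem sph_ind (J : Finset S) (T : Finset {v // v ∈ J}) :
    Sph (sub M J) T ↔ Sph M (T.map (ind_emb J)) := by
  unfold Sph
  rw [← map_par]
  exact ((par (sub M J) T).equivMapOfInjective _ (ind_hom_injective M J)).toEquiv.finite_iff

/-- `δ'` is the restriction of the Weyl distance to a residue of type `J` -/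
structure IsRes (M : CoxeterMatrix S) (δ : Δ → Δ → M.Group) (J : Finset S) {Δ' : Type}
    (δ' : Δ' → Δ' → (sub M J).Group) (ι : Δ' → Δ) : Prop where
  inj : Function.Injective ι
  dist : ∀ x y, ind_hom M J (δ' x y) = δ (ι x) (ι y)
  all : ∀ x y, δ (ι x) y ∈ par M J → ∃ y', ι y' = y

theorem exists_res (hδ : IsBuilding M δ) (J : Finset S) (c : Δ) :
    ∃ (Δ' : Type) (δ' : Δ' → Δ' → (sub M J).Group) (ι : Δ' → Δ),
      IsRes M δ J δ' ι ∧ IsBuilding (sub M J) δ' ∧ ∃ c', ι c' = c := by
  have hin : ∀ x y : Δ, δ c x ∈ par M J → δ c y ∈ par M J → δ x y ∈ par M J := by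
    intro x y hx hy
    refine hδ.par_trans ?_ hy
    rw [hδ.symm c x]
    exact inv_mem hx
  choose f hf using fun p : {p : Δ × Δ // δ c p.1 ∈ par M J ∧ δ c p.2 ∈ par M J} =>
    exists_ind (M := M) J (hin p.1.1 p.1.2 p.2.1 p.2.2)
  let D : Type := {x : Δ // δ c x ∈ par M J}
  let g : D → D → (sub M J).Group := fun x y => f ⟨(x.1, y.1), x.2, y.2⟩
  have hg : ∀ x y : D, ind_hom M J (g x y) = δ x.1 y.1 := fun x y => hf ⟨(x.1, y.1), x.2, y.2⟩
  have hs : ∀ (s : {v // v ∈ J}) (x y : D), g x y = (sub M J).simple s ↔ δ x.1 y.1 = M.simple s.1 := by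
    intro s x y
    rw [← hg, ← ind_hom_simple]
    exact (ind_hom_injective M J).eq_iff.symm
  have hcc : δ c c ∈ par M J := by
    rw [hδ.self]
    exact one_mem _
  refine ⟨D, g, Subtype.val, ⟨Subtype.val_injective, hg, fun x y hy => ?_⟩, ⟨?_, ?_, ?_, ?_⟩, ⟨c, hcc⟩, rfl⟩
  · exact ⟨⟨y, hδ.par_trans x.2 hy⟩, rfl⟩
  · intro x y
    rw [← (ind_hom_injective M J).eq_iff, hg, map_one, hδ.eq_one]
    exact Subtype.ext_iff.symm
  · intro s x x' y h
    have h1 := hδ.step s.1 x.1 x'.1 y.1 ((hs s x' x).1 h)
    rw [← (ind_hom_injective M J).eq_iff, ← (ind_hom_injective M J).eq_iff (b := g x y), map_mul,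
      ind_hom_simple, hg, hg]
    exact h1
  · intro s x x' y h hl
    have h1 := hδ.step_up s.1 x.1 x'.1 y.1 ((hs s x' x).1 h) (by
      rw [← hg x y, ← ind_hom_simple, ← map_mul, len_ind, len_ind]
      exact hl)
    rw [← (ind_hom_injective M J).eq_iff, map_mul, ind_hom_simple, hg, hg]
    exact h1
  · intro s x y
    obtain ⟨x', h1, h2⟩ := hδ.exists_step s.1 x.1 y.1
    have h3 : δ c x' ∈ par M J := by
      refine hδ.par_trans x.2 ?_
      rw [hδ.symm_simple h1]
      exact Subgroup.subset_closure ⟨s.1, s.2, rfl⟩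
    refine ⟨⟨x', h3⟩, (hs s _ _).2 h1, ?_⟩
    rw [← (ind_hom_injective M J).eq_iff, map_mul, ind_hom_simple, hg, hg]
    exact h2

variable {J : Finset S} {Δ' : Type} {δ' : Δ' → Δ' → (sub M J).Group} {ι : Δ' → Δ}

theorem IsRes.reg (h : IsRes M δ J δ' ι) {q : S → Δ → ℕ} (hq : Reg M δ q) :
    Reg (sub M J) δ' (fun s x => q s.1 (ι x)) := by
  intro s x
  have h1 : ι '' {y | δ' x y = (sub M J).simple s} = {y | δ (ι x) y = M.simple s.1} := by
    ext y
    constructor
    · rintro ⟨y', hy', rfl⟩
      have h2 : δ' x y' = (sub M J).simple s := hy'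
      show δ (ι x) (ι y') = M.simple s.1
      rw [← h.dist, h2, ind_hom_simple]
    · intro hy
      have hy1 : δ (ι x) y = M.simple s.1 := hy
      obtain ⟨y', rfl⟩ := h.all x y (by
        rw [hy1]
        exact Subgroup.subset_closure ⟨s.1, s.2, rfl⟩)
      refine ⟨y', ?_, rfl⟩
      show δ' x y' = (sub M J).simple s
      rw [← (ind_hom_injective M J).eq_iff, h.dist, hy1, ind_hom_simple]
  obtain ⟨h2, h3⟩ := hq s.1 (ι x)
  rw [← h1] at h2 h3
  refine ⟨(Set.finite_image_iff h.inj.injOn).1 h2, ?_⟩
  rw [Set.ncard_image_of_injective _ h.inj] at h3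
  exact h3

theorem IsRes.rr (h : IsRes M δ J δ' ι) {P : Type} [Group P] {rr : Finset S → Δ → P}
    (hrr : IsRr M δ rr) :
    IsRr (sub M J) δ' (fun T x => rr (T.map (ind_emb J)) (ι x)) := by
  refine ⟨fun T x y hxy => ?_, ?_, fun E => ?_⟩
  · refine hrr.const _ _ _ ?_
    rw [← h.dist]
    exact (par_ind J T _).2 hxy
  · obtain ⟨E, hE⟩ := hrr.near
    refine ⟨E, fun T x hT => ?_⟩
    have h1 := hE (T.map (ind_emb J)) (ι x) ((sph_ind J T).1 hT)
    rw [map_empty]
    exact h1
  · obtain ⟨N, hN⟩ := hrr.far E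
    refine ⟨N, fun x y hxy => ?_⟩
    have h1 := hN (ι x) (ι y) (by
      rw [map_empty] at hxy
      exact hxy)
    rw [← h.dist, len_ind] at h1
    exact h1

end Pool.Agent.H4.BD

end

section

/-!
# Project BD: parallel panels

`panel_equiv`: if all letters of `J` commute with `v` (and are different from `v`), then the `v`-panels of two chambers at
distance in `par M J` have the same number of chambers; `panel_proj`: in a residue of type `{v} ∪ J` every `v`-panel
contains exactly one chamber of every residue of type `J`.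
-/

set_option autoImplicit false
set_option linter.unusedSectionVars false

open Finset

namespace Pool.Agent.H4.BD

open Pool.Agent.H4.FC Pool.Agent.H78.RC Pool.Agent.H97.BLD

variable {S Δ : Type} [Fintype S] [DecidableEq S] {M : CoxeterMatrix S} {δ : Δ → Δ → M.Group}

private theorem selP_comm {v t : S} (h : M v t = 2) :
    M.simple v * M.simple t = M.simple t * M.simple v := by
  have h1 := M.toCoxeterSystem.simple_mul_simple_pow v t
  rw [M.toCoxeterSystem_simple, h, pow_two] at h1
  have h2 : M.simple v * M.simple t = (M.simple v * M.simple t)⁻¹ :=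
    eq_inv_of_mul_eq_one_left h1
  rw [mul_inv_rev, simple_inv, simple_inv] at h2
  exact h2

private theorem selP_not_mem {v : S} {J : Finset S} (hv : v ∉ J) : M.simple v ∉ par M J := by
  intro h
  refine hv (descent_par M h ?_)
  rw [simple_sq, len_one, len_simple]

private theorem selP_len {v t : S} (h : t ≠ v) : len M (M.simple t * M.simple v) = 2 := by
  rcases len_simple_mul M (M.simple v) t with h1 | h1
  · rw [h1, len_simple]
  · exfalso
    rw [len_simple] at h1
    have h2 : M.simple t * M.simple v = 1 := (len_eq_zero M).1 (by omega)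
    rw [mul_eq_one_iff_eq_inv, simple_inv] at h2
    exact selP_not_mem (M := M) (v := v) (J := {t}) (fun h3 => h (mem_singleton.1 h3).symm)
      (h2 ▸ simple_mem_par M (mem_singleton_self t))

/-- the map between two adjacent parallel panels -/
private theorem selP_map (h : IsBuilding M δ) {v t : S} (hne : t ≠ v) (hc : M v t = 2) {x y d : Δ}
    (hxy : δ x y = M.simple t) (hd : δ x d = M.simple v) :
    ∃! d', δ y d' = M.simple v ∧ δ d' d = M.simple t := by
  have h1 : δ y d = M.simple v * M.simple t := by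
    have h2 := h.step_up t x y d (h.symm_simple hxy) (by
      rw [hd, selP_len hne, len_simple])
    rw [h2, hd, selP_comm hc]
  have hle : Le M (M.simple v) (δ y d) := by
    unfold Le
    rw [h1, ← mul_assoc, simple_inv, simple_sq, one_mul, len_simple, len_simple, selP_comm hc,
      selP_len hne]
  have e1 : (M.simple v)⁻¹ * δ y d = M.simple t := by
    rw [h1, inv_mul_cancel_left]
  obtain ⟨d', h3, h4⟩ := h.exists_geo hle
  refine ⟨d', ⟨h3, h4.trans e1⟩, fun d'' hd'' => ?_⟩
  exact h.geo_unique hle hd''.1 (hd''.2.trans e1.symm) h3 h4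

private theorem selP_adj (h : IsBuilding M δ) {v t : S} (hne : t ≠ v) (hc : M v t = 2) {x y : Δ}
    (hxy : δ x y = M.simple t) :
    Nonempty ({d | δ x d = M.simple v} ≃ {d | δ y d = M.simple v}) := by
  have hyx := h.symm_simple hxy
  choose f hf hfu using fun d : {d | δ x d = M.simple v} => selP_map h hne hc hxy d.2
  choose g hg hgu using fun d : {d | δ y d = M.simple v} => selP_map h hne hc hyx d.2
  refine ⟨⟨fun d => ⟨f d, (hf d).1⟩, fun d => ⟨g d, (hg d).1⟩, fun d => ?_, fun d => ?_⟩⟩
  · apply Subtype.ext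
    exact (hgu ⟨f d, (hf d).1⟩ d.1 ⟨d.2, h.symm_simple (hf d).2⟩).symm
  · apply Subtype.ext
    exact (hfu ⟨g d, (hg d).1⟩ d.1 ⟨d.2, h.symm_simple (hg d).2⟩).symm

/-- **Parallel panels.** -/
theorem panel_equiv (h : IsBuilding M δ) {v : S} {J : Finset S} (hJ : ∀ t ∈ J, t ≠ v ∧ M v t = 2)
    {x y : Δ} (hxy : δ x y ∈ par M J) :
    Nonempty ({d | δ x d = M.simple v} ≃ {d | δ y d = M.simple v}) := by
  have key : ∀ w ∈ par M J, ∀ x, δ x y = w →
      Nonempty ({d | δ x d = M.simple v} ≃ {d | δ y d = M.simple v}) := by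
    refine par_induction M J ?_ ?_
    · intro x hx
      have h1 : x = y := (h.eq_one x y).1 hx
      rw [h1]
      exact ⟨Equiv.refl _⟩
    · intro s hs w ih x hx
      obtain ⟨x', h1, h2⟩ := h.exists_step s x y
      have h3 : δ x' y = w := by
        rw [h2, hx, ← mul_assoc, simple_sq, one_mul]
      obtain ⟨e⟩ := ih x' h3
      obtain ⟨e'⟩ := selP_adj h (hJ s hs).1 (hJ s hs).2 (h.symm_simple h1)
      exact ⟨e'.trans e⟩
  exact key _ hxy x rfl

theorem panel_ncard (h : IsBuilding M δ) {v : S} {J : Finset S} (hJ : ∀ t ∈ J, t ≠ v ∧ M v t = 2)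
    {x y : Δ} (hxy : δ x y ∈ par M J) :
    {d | δ x d = M.simple v}.ncard = {d | δ y d = M.simple v}.ncard := by
  obtain ⟨e⟩ := panel_equiv h hJ hxy
  exact Set.ncard_congr' e

/-- the elements of the subgroup of the letters `v` and `J` -/
theorem mem_par_insert {v : S} {J : Finset S} (hJ : ∀ t ∈ J, t ≠ v ∧ M v t = 2) {w : M.Group}
    (hw : w ∈ par M (insert v J)) : w ∈ par M J ∨ w * M.simple v ∈ par M J := by
  have hcom : ∀ p ∈ par M J, M.simple v * p = p * M.simple v := by
    refine par_induction M J ?_ ?_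
    · rw [mul_one, one_mul]
    · intro t ht p ih
      rw [← mul_assoc, selP_comm (hJ t ht).2, mul_assoc, ih, mul_assoc]
  refine par_induction M (insert v J) (p := fun w => w ∈ par M J ∨ w * M.simple v ∈ par M J)
    (Or.inl (one_mem _)) ?_ w hw
  intro t ht w ih
  rw [mem_insert] at ht
  rcases ht with rfl | ht
  · rcases ih with h1 | h1
    · right
      rw [hcom w h1, mul_assoc, simple_sq, mul_one]
      exact h1
    · left
      have h2 := hcom _ h1
      rw [mul_assoc, simple_sq, mul_one] at h2
      have h3 : M.simple t * w = M.simple t * (w * M.simple t) * M.simple t := by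
        rw [mul_assoc, mul_assoc, simple_sq, mul_one]
      rw [h3, hcom _ h1, mul_assoc, simple_sq, mul_one]
      exact h1
  · rcases ih with h1 | h1
    · exact Or.inl (mul_mem (simple_mem_par M ht) h1)
    · right
      rw [mul_assoc]
      exact mul_mem (simple_mem_par M ht) h1

end Pool.Agent.H4.BD

end

section

/-!
# Project BD: the set of chambers, with right-angled letters with an even `q`

PROOF. `q v b + 1` is the number of chambers of the `v`-panel of `b`. If `q v b` is even for some `b` then `M s v ∈ {2, 0}` for `s ≠ v`;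
`v^⊥ = {s ≠ v | M s v = 2}`. In every residue `R` of type `{v} ∪ v^⊥` which does not contain `c` choose a chamber `e_R ∈ R` such that `v` is a
right descent of `δ c (e_R)`, `Bad v = {b | the residue R of b does not contain c, δ (e_R) b ∈ par (v^⊥), q v b even}` (`q v` is constant on `R`:
parallel panels). `C = {x | ∀ b, Le M (δ c b) (δ c x) → δ b x = (δ c b)⁻¹ δ c x → ∀ v, b ∉ Bad v}`.
`base`, `down`: clear. KEY: if `w_b` has the only right descent `v`, `Le M w_b y`, `u` a right descent of `y`, then `Le M w_b (y u)` or (`u = v` and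
`w_b⁻¹ y ∈ par (v^⊥)`); induction on `len (w_b⁻¹ y)`, last letter `u'` of `w_b⁻¹ y`: `u' = u` clear, else `u`, `u'` are both right descents of `y`, so
`y = y₁ w_(u,u')` (finite dihedral), and `m = 2` if one of them is `v`; go down with the induction hypothesis.
A bad chamber `b` can be replaced by the chamber of its `v^⊥`-residue closest to `c`: then `v` is the only right descent. So for `x ∈ C` and
an outer chamber `y` of a `u`-panel, `x` its projection: `y ∈ C` iff `u` is not even or `y ∉ Bad u`. `new`, `u` even: `t w₀ = w₀ u` gives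
`w₀ ∈ par (u^⊥)`, so the residue of `x` contains `c`, and no outer chamber is bad. `odd`, `u` even: `c` is not in `R` (else `w₀ ∈ par (u^⊥)`,
`u` is new) and exactly one outer chamber of the panel is in the class of `e_R`.
-/

set_option autoImplicit false
set_option linter.unusedSectionVars false

open Finset

namespace Pool.Agent.H4.BD

open Pool.Agent.H4.FC Pool.Agent.H78.RC Pool.Agent.H97.BLD

variable {S Δ : Type} [Fintype S] [DecidableEq S] {M : CoxeterMatrix S} {δ : Δ → Δ → M.Group}
  {q : S → Δ → ℕ}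

/-! ### Right-angled letters -/

/-- the letters orthogonal to `v` -/
private def selR_pp (M : CoxeterMatrix S) (v : S) : Finset S :=
  univ.filter fun s => s ≠ v ∧ M v s = 2

private theorem selR_mem {v s : S} : s ∈ selR_pp M v ↔ s ≠ v ∧ M v s = 2 := by
  unfold selR_pp
  rw [mem_filter, and_iff_right (mem_univ s)]

private theorem selR_comm2 {u v : S} (h : M u v = 2) :
    M.simple u * M.simple v = M.simple v * M.simple u := by
  have h1 := M.toCoxeterSystem.simple_mul_simple_pow u v
  rw [M.toCoxeterSystem_simple, h, pow_two] at h1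
  have h2 : M.simple u * M.simple v = (M.simple u * M.simple v)⁻¹ := eq_inv_of_mul_eq_one_left h1
  rw [mul_inv_rev, simple_inv, simple_inv] at h2
  exact h2

private theorem selR_T {v : S} {p : M.Group} (hp : p ∈ par M (selR_pp M v)) :
    T M p (Pi.single v 1) = Pi.single v 1 := by
  refine par_induction M (selR_pp M v) (p := fun p => T M p (Pi.single v 1) = Pi.single v 1) ?_ ?_
    p hp
  · exact T_one M _
  · intro s hs w ih
    rw [selR_mem] at hs
    have h1 : kR M s v = 0 := by
      rw [kR_symm]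
      exact (kR_zero M (Ne.symm hs.1)).2 hs.2
    show T M (M.simple s * w) (Pi.single v 1) = Pi.single v 1
    rw [T_mul, ih, T_simple, bf_single, h1, zero_smul, sub_zero]

private theorem selR_par_comm {v : S} {p : M.Group} (hp : p ∈ par M (selR_pp M v)) :
    p * M.simple v = M.simple v * p := by
  refine par_induction M (selR_pp M v) (p := fun p => p * M.simple v = M.simple v * p) ?_ ?_
    p hp
  · show (1 : M.Group) * M.simple v = M.simple v * 1
    rw [one_mul, mul_one]
  · intro s hs w ih
    rw [selR_mem] at hs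
    show M.simple s * w * M.simple v = M.simple v * (M.simple s * w)
    rw [mul_assoc, ih, ← mul_assoc, ← mul_assoc, selR_comm2 hs.2]

private theorem selR_down {v : S} {p : M.Group} (hp : p ∈ par M (selR_pp M v)) (w : M.Group) :
    len M (w * p * M.simple v) + 1 = len M (w * p) ↔ len M (w * M.simple v) + 1 = len M w := by
  rw [len_down_iff, len_down_iff, T_mul, selR_T hp]

private theorem selR_insert {v : S} {w : M.Group} (hw : w ∈ par M (insert v (selR_pp M v))) :
    w ∈ par M (selR_pp M v) ∨ w * M.simple v ∈ par M (selR_pp M v) := by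
  refine par_induction M (insert v (selR_pp M v)) (p := fun w => w ∈ par M (selR_pp M v) ∨
    w * M.simple v ∈ par M (selR_pp M v)) (Or.inl (one_mem _)) ?_ w hw
  intro s hs w ih
  rw [mem_insert] at hs
  rcases hs with rfl | hs
  · rcases ih with h1 | h1
    · right
      rw [← selR_par_comm h1, mul_assoc, simple_sq, mul_one]
      exact h1
    · left
      have h2 : M.simple s * w = w * M.simple s := by
        have h3 := selR_par_comm h1
        rw [mul_assoc, simple_sq, mul_one] at h3
        have h4 : M.simple s * w = M.simple s * (w * M.simple s) * M.simple s := by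
          rw [← mul_assoc, mul_assoc, simple_sq, mul_one]
        rw [h4, ← h3]
      rw [h2]
      exact h1
  · rcases ih with h1 | h1
    · exact Or.inl (mul_mem (simple_mem_par M hs) h1)
    · right
      rw [mul_assoc]
      exact mul_mem (simple_mem_par M hs) h1

private theorem selR_not_mem {v : S} : M.simple v ∉ par M (selR_pp M v) := by
  intro h
  have h1 : v ∈ selR_pp M v := descent_par M h (by
    rw [simple_sq, len_one, len_simple])
  exact (selR_mem.1 h1).1 rfl

/-- an element of `W_(v, v^⊥)` without the descent `v` -/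
private theorem selR_insert_up {v : S} {w : M.Group} (hw : w ∈ par M (insert v (selR_pp M v)))
    (hl : len M (w * M.simple v) = len M w + 1) : w ∈ par M (selR_pp M v) := by
  rcases selR_insert hw with h | h
  · exact h
  · exfalso
    have h1 : ¬ len M (w * M.simple v * M.simple v) + 1 = len M (w * M.simple v) := fun h2 =>
      (selR_mem.1 (descent_par M h h2)).1 rfl
    apply h1
    rw [mul_assoc, simple_sq, mul_one, hl]

/-- two right descents -/
private theorem selR_ne_zero {y : M.Group} {s t : S} (hst : s ≠ t)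
    (hs : len M (y * M.simple s) + 1 = len M y) (ht : len M (y * M.simple t) + 1 = len M y) :
    Mx M {s, t} y ∧ M s t ≠ 0 := by
  have h1 : Mx M {s, t} y := by
    rw [mx_iff]
    intro x hx
    rw [mem_insert, mem_singleton] at hx
    rcases hx with rfl | rfl
    · exact hs
    · exact ht
  refine ⟨h1, ?_⟩
  exact ((sph_cl M _ h1.sph) s (by simp) t (by simp) hst).2

/-! ### Right descents and the weak order -/

private theorem selR_le_step {w y : M.Group} {s : S} (h : Le M w y)
    (hs : len M (w⁻¹ * y * M.simple s) + 1 = len M (w⁻¹ * y)) :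
    len M (y * M.simple s) + 1 = len M y ∧ Le M w (y * M.simple s) := by
  unfold Le at h ⊢
  have h1 : w⁻¹ * (y * M.simple s) = w⁻¹ * y * M.simple s := by group
  have h2 : len M (y * M.simple s) ≤ len M w + len M (w⁻¹ * (y * M.simple s)) := by
    have h3 := len_mul_le M w (w⁻¹ * (y * M.simple s))
    rwa [mul_inv_cancel_left] at h3
  rw [h1] at h2 ⊢
  rcases len_mul_simple M y s with h3 | h3 <;> omega

private theorem selR_key {v : S} (hv : ∀ t, t ≠ v → M v t = 2 ∨ M v t = 0) {w : M.Group}
    (hw : ∀ s, len M (w * M.simple s) + 1 = len M w → s = v) (n : ℕ) :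
    ∀ y, Le M w y → len M (w⁻¹ * y) = n → ∀ u, len M (y * M.simple u) + 1 = len M y →
      Le M w (y * M.simple u) ∨ (u = v ∧ w⁻¹ * y ∈ par M (selR_pp M v)) := by
  induction n using Nat.strong_induction_on with
  | _ n ih =>
    intro y hy hn u hu
    by_cases h1 : w⁻¹ * y = 1
    · right
      have h2 : y = w := (inv_mul_eq_one.1 h1).symm
      rw [h1]
      rw [h2] at hu
      exact ⟨hw u hu, one_mem _⟩
    obtain ⟨u', hu'⟩ := exists_right M h1
    obtain ⟨h2, h3⟩ := selR_le_step hy hu'
    by_cases huu : u' = u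
    · left
      rw [← huu]
      exact h3
    obtain ⟨hmx, hM0⟩ := selR_ne_zero (Ne.symm huu) hu h2
    have hlt : len M (w⁻¹ * (y * M.simple u')) < n := by
      have h4 : w⁻¹ * (y * M.simple u') = w⁻¹ * y * M.simple u' := by group
      rw [h4]
      omega
    by_cases hM2 : M u u' = 2
    · -- orthogonal letters
      have hc : M.simple u * M.simple u' = M.simple u' * M.simple u := selR_comm2 hM2
      have hlen : len M (y * (M.simple u * M.simple u')) + 2 = len M y := by
        have h4 := hmx.len_add (u := M.simple u * M.simple u') (mul_mem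
          (simple_mem_par M (by simp)) (simple_mem_par M (by simp)))
        have h5 : len M (M.simple u * M.simple u') = 2 := by
          rcases len_mul_simple M (M.simple u) u' with h6 | h6
          · rw [h6, len_simple]
          · exfalso
            rw [len_simple] at h6
            have h7 : M.simple u * M.simple u' = 1 := (len_eq_zero M).1 (by omega)
            have h8 : M.simple u = M.simple u' := by
              rw [← simple_inv M u']
              exact eq_inv_of_mul_eq_one_left h7
            exact huu (simple_inj M h8).symm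
        omega
      have h4 : len M (y * M.simple u' * M.simple u) + 1 = len M (y * M.simple u') := by
        rw [mul_assoc, ← hc]
        omega
      rcases ih _ hlt (y * M.simple u') h3 rfl u h4 with h5 | ⟨h5, h6⟩
      · left
        refine le_trans' M h5 ?_
        unfold Le
        have h6 : (y * M.simple u' * M.simple u)⁻¹ * (y * M.simple u) = M.simple u' := by
          have h7 : y * M.simple u' * M.simple u = y * M.simple u * M.simple u' := by
            rw [mul_assoc, ← hc, ← mul_assoc]
          rw [h7, mul_inv_rev, simple_inv]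
          group
        rw [h6, len_simple, mul_assoc, ← hc]
        omega
      · right
        refine ⟨h5, ?_⟩
        have h7 : u' ∈ selR_pp M v := by
          rw [selR_mem, ← h5]
          exact ⟨huu, hM2⟩
        have h8 : w⁻¹ * y = w⁻¹ * (y * M.simple u') * M.simple u' := by
          rw [mul_assoc, mul_assoc, simple_sq, mul_one]
        rw [h8]
        exact mul_mem h6 (simple_mem_par M h7)
    · -- a dihedral group without the letter `v`
      have huv : u ≠ v := by
        rintro rfl
        rcases hv u' huu with h4 | h4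
        · exact hM2 h4
        · exact hM0 h4
      have hu'v : u' ≠ v := by
        rintro rfl
        have h5 : M u' u = M u u' := M.symmetric u' u
        rcases hv u (Ne.symm huu) with h4 | h4
        · exact hM2 (h5 ▸ h4)
        · exact hM0 (h5 ▸ h4)
      left
      have claim : ∀ k, ∀ p ∈ par M {u, u'}, len M p = k →
          len M (M.simple u' * p) = len M p + 1 → Le M w (y * (M.simple u' * p)) := by
        intro k
        induction k with
        | zero =>
          intro p _ hp _
          rw [(len_eq_zero M).1 hp, mul_one]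
          exact h3
        | succ k ihk =>
          intro p hpp hp hl
          have hp1 : p ≠ 1 := by
            rintro rfl
            rw [len_one] at hp
            omega
          obtain ⟨s, hs⟩ := exists_right M hp1
          have hsJ : s ∈ ({u, u'} : Finset S) := descent_par M hpp hs
          have hps : p * M.simple s ∈ par M {u, u'} := mul_mem hpp (simple_mem_par M hsJ)
          have h4 : len M (M.simple u' * (p * M.simple s)) = len M (p * M.simple s) + 1 := by
            rcases len_simple_mul M (p * M.simple s) u' with h5 | h5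
            · exact h5
            · exfalso
              have h6 := len_mul_simple M (M.simple u' * (p * M.simple s)) s
              have h7 : M.simple u' * (p * M.simple s) * M.simple s = M.simple u' * p := by
                rw [mul_assoc, mul_assoc, simple_sq, mul_one]
              rw [h7] at h6
              omega
          have h5 := ihk (p * M.simple s) hps (by omega) h4
          have h6 : len M (M.simple u' * p) + len M (y * (M.simple u' * p)) = len M y := by
            have h7 := hmx.len_add (u := M.simple u' * p) (mul_mem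
              (simple_mem_par M (by simp)) hpp)
            omega
          have h7 : len M (M.simple u' * (p * M.simple s)) +
              len M (y * (M.simple u' * (p * M.simple s))) = len M y := by
            have h8 := hmx.len_add (u := M.simple u' * (p * M.simple s)) (mul_mem
              (simple_mem_par M (by simp)) hps)
            omega
          have h8 : y * (M.simple u' * (p * M.simple s)) * M.simple s = y * (M.simple u' * p) := by
            rw [mul_assoc, mul_assoc, mul_assoc, simple_sq, mul_one]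
          have h9 : s ≠ v := by
            rw [mem_insert, mem_singleton] at hsJ
            rcases hsJ with rfl | rfl
            · exact huv
            · exact hu'v
          have h10 : len M (w⁻¹ * (y * (M.simple u' * (p * M.simple s)))) < n := by
            unfold Le at h5 hy
            omega
          rcases ih _ h10 _ h5 rfl s (by rw [h8]; omega) with h11 | h11
          · rw [h8] at h11
            exact h11
          · exact absurd h11.1 h9
      obtain ⟨z, hz, hz1⟩ := exists_mx hmx.sph 1
      rw [mul_one] at hz1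
      rw [mx_iff] at hz
      have hdes : ∀ t ∈ ({u, u'} : Finset S), len M (M.simple t * z⁻¹) + 1 = len M z⁻¹ := by
        intro t ht
        have h4 := hz t ht
        rw [← len_inv M (z * M.simple t), mul_inv_rev, simple_inv] at h4
        rw [h4, len_inv]
      have h4 := claim _ (M.simple u' * z⁻¹) (mul_mem (simple_mem_par M (by simp)) hz1) rfl (by
        rw [← mul_assoc, simple_sq, one_mul]
        exact (hdes u' (by simp)).symm)
      rw [← mul_assoc (M.simple u'), simple_sq, one_mul] at h4
      refine le_trans' M h4 ?_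
      unfold Le
      have h5 : (y * z⁻¹)⁻¹ * (y * M.simple u) = (M.simple u * z⁻¹)⁻¹ := by
        rw [mul_inv_rev, mul_inv_rev, inv_inv, simple_inv]
        group
      have h6 := hmx.len_add hz1
      have h7 := hdes u (by simp)
      rw [h5, len_inv]
      omega

/-- a letter conjugate to a right-angled letter -/
private theorem selR_conj {u t : S} (hv : ∀ s, s ≠ u → M u s = 2 ∨ M u s = 0) (n : ℕ) :
    ∀ w : M.Group, len M w = n → len M (w * M.simple u) = len M w + 1 →
      M.simple t * w = w * M.simple u → w ∈ par M (selR_pp M u) := by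
  induction n with
  | zero =>
    intro w hw _ _
    rw [(len_eq_zero M).1 hw]
    exact one_mem _
  | succ n ih =>
    intro w hw hl ht
    have hw1 : w ≠ 1 := by
      rintro rfl
      rw [len_one] at hw
      omega
    obtain ⟨s, hs⟩ := exists_right M hw1
    have hsu : s ≠ u := by
      rintro rfl
      omega
    have h1 : M.simple t * (w * M.simple s) = w * M.simple u * M.simple s := by
      rw [← mul_assoc, ht]
    have h2 : len M (w * M.simple u * M.simple s) + 1 = len M (w * M.simple u) := by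
      have h3 := len_simple_mul M (w * M.simple s) t
      have h4 := len_mul_simple M (w * M.simple u) s
      rw [h1] at h3
      omega
    have h3 : len M (w * M.simple u * M.simple u) + 1 = len M (w * M.simple u) := by
      rw [mul_assoc, simple_sq, mul_one, hl]
    have h4 : M u s = 2 := by
      rcases hv s hsu with h5 | h5
      · exact h5
      · exact absurd h5 (selR_ne_zero (Ne.symm hsu) h3 h2).2
    have h5 : M.simple u * M.simple s = M.simple s * M.simple u := selR_comm2 h4
    have h6 : w * M.simple u * M.simple s = w * M.simple s * M.simple u := by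
      rw [mul_assoc, h5, ← mul_assoc]
    have h7 := ih (w * M.simple s) (by omega) (by
      rw [← h6]
      omega) (by rw [h1, h6])
    have h8 : w = w * M.simple s * M.simple s := by rw [mul_assoc, simple_sq, mul_one]
    rw [h8]
    exact mul_mem h7 (simple_mem_par M (selR_mem.2 ⟨hsu, h4⟩))

/-! ### Geodesics from `c` -/

/-- the chamber `b` is on a geodesic from `c` to `x` -/
private def SelRG (M : CoxeterMatrix S) (δ : Δ → Δ → M.Group) (c b x : Δ) : Prop :=
  Le M (δ c b) (δ c x) ∧ δ b x = (δ c b)⁻¹ * δ c x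

private theorem selR_geo_refl (h : IsBuilding M δ) (c x : Δ) : SelRG M δ c x x := by
  refine ⟨?_, ?_⟩
  · unfold Le
    rw [inv_mul_cancel, len_one, add_zero]
  · rw [h.self, inv_mul_cancel]

private theorem selR_geo_trans (h : IsBuilding M δ) {c b b' x : Δ} (h1 : SelRG M δ c b' b)
    (h2 : SelRG M δ c b x) : SelRG M δ c b' x := by
  have h3 := le_trans' M h1.1 h2.1
  refine ⟨h3, ?_⟩
  have h4 : δ b' b * δ b x = (δ c b')⁻¹ * δ c x := by
    rw [h1.2, h2.2]
    group
  rw [← h4]
  refine h.add ?_
  rw [h4, h1.2, h2.2]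
  have h5 := h1.1
  have h6 := h2.1
  unfold Le at h3 h5 h6
  omega

private theorem selR_le_up {w : M.Group} {u : S}
    (hl : len M (w * M.simple u) = len M w + 1) : Le M w (w * M.simple u) := by
  unfold Le
  rw [inv_mul_cancel_left, len_simple, hl]

private theorem selR_geo_up (h : IsBuilding M δ) {c b x y : Δ} {u : S} (hxy : δ x y = M.simple u)
    (hl : len M (δ c x * M.simple u) = len M (δ c x) + 1) (hg : SelRG M δ c b x) :
    SelRG M δ c b y := by
  have h1 := h.stepR_up hxy hl
  have h2 : Le M (δ c b) (δ c y) := by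
    rw [h1]
    exact le_trans' M hg.1 (selR_le_up hl)
  refine ⟨h2, ?_⟩
  have h3 : δ b x * M.simple u = (δ c b)⁻¹ * δ c y := by
    rw [hg.2, h1, mul_assoc]
  rw [← h3]
  refine h.stepR_up hxy ?_
  rw [h3, hg.2]
  have h4 := hg.1
  unfold Le at h2 h4
  rw [h1] at h2 ⊢
  omega

private theorem selR_geo_down (h : IsBuilding M δ) {c b x y : Δ} {u : S}
    (hxy : δ x y = M.simple u) (hl : len M (δ c x * M.simple u) = len M (δ c x) + 1)
    (hg : SelRG M δ c b y) (hle : Le M (δ c b) (δ c x)) : SelRG M δ c b x := by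
  refine ⟨hle, ?_⟩
  have h1 := h.stepR_up hxy hl
  obtain ⟨x', hx1, hx2⟩ := h.exists_stepR u b y
  have h2 : δ b x' = (δ c b)⁻¹ * δ c x := by
    rw [hx2, hg.2, h1, mul_assoc, mul_assoc, simple_sq, mul_one]
  have h3 : δ c x' = δ c x := by
    have h4 : δ c b * δ b x' = δ c x := by rw [h2, mul_inv_cancel_left]
    rw [← h4]
    refine h.add ?_
    rw [h4, h2]
    exact hle.symm
  have h4 : x = x' := by
    have h5 : (δ c x)⁻¹ * δ c y = M.simple u := by rw [h1, inv_mul_cancel_left]
    refine h.geo_unique (a := c) (c := y) (v := δ c x) ?_ rfl ?_ h3 ?_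
    · rw [h1]
      exact selR_le_up hl
    · rw [h5, hxy]
    · rw [h5]
      exact h.symm_simple hx1
  rw [h4, h2, ← h4]

/-- the chamber of the `J`-residue of `b` closest to `c` -/
private theorem selR_near (h : IsBuilding M δ) (J : Finset S) (c b : Δ) :
    ∃ b', SelRG M δ c b' b ∧ δ b' b ∈ par M J ∧
      ∀ s ∈ J, len M (δ c b' * M.simple s) = len M (δ c b') + 1 := by
  obtain ⟨a, ha, g, hg, hd⟩ := par_dec M J (δ c b)⁻¹
  have h1 : δ c b = g⁻¹ * a⁻¹ := by
    rw [← mul_inv_rev, ← hg, inv_inv]
  have h2 : (g⁻¹)⁻¹ * δ c b = a⁻¹ := by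
    rw [h1]
    group
  have h3 : Le M g⁻¹ (δ c b) := by
    unfold Le
    rw [h2, len_inv, len_inv, ← len_inv M (δ c b), hg, len_par_mul M ha hd, add_comm]
  obtain ⟨b', hb1, hb2⟩ := h.exists_geo h3
  refine ⟨b', ⟨?_, ?_⟩, ?_, ?_⟩
  · rw [hb1]
    exact h3
  · rw [hb2, hb1]
  · rw [hb2, h2]
    exact inv_mem ha
  · intro s hs
    rw [hb1, ← len_inv M (g⁻¹ * M.simple s), mul_inv_rev, simple_inv, inv_inv, len_inv]
    exact hd s hs

/-! ### Bad chambers -/

open Classical in
/-- a chosen chamber of the set `R` -/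
private noncomputable def selR_e (M : CoxeterMatrix S) (δ : Δ → Δ → M.Group) (c : Δ) (v : S)
    (R : Set Δ) : Δ :=
  if h : ∃ d, d ∈ R ∧ len M (δ c d * M.simple v) + 1 = len M (δ c d) then h.choose else c

/-- the bad chambers of type `v` -/
private def SelRB (M : CoxeterMatrix S) (δ : Δ → Δ → M.Group) (c : Δ) (v : S) : Set Δ :=
  {b | c ∉ residue M δ (insert v (selR_pp M v)) b ∧
    δ (selR_e M δ c v (residue M δ (insert v (selR_pp M v)) b)) b ∈ par M (selR_pp M v)}

private theorem selR_e_spec (h : IsBuilding M δ) (c : Δ) (v : S) (x : Δ) :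
    selR_e M δ c v (residue M δ (insert v (selR_pp M v)) x) ∈
      residue M δ (insert v (selR_pp M v)) x ∧
    len M (δ c (selR_e M δ c v (residue M δ (insert v (selR_pp M v)) x)) * M.simple v) + 1 =
      len M (δ c (selR_e M δ c v (residue M δ (insert v (selR_pp M v)) x))) := by
  have h1 : ∃ d, d ∈ residue M δ (insert v (selR_pp M v)) x ∧
      len M (δ c d * M.simple v) + 1 = len M (δ c d) := by
    rcases len_mul_simple M (δ c x) v with h2 | h2
    · obtain ⟨x', h3, h4⟩ := h.exists_stepR v c x
      refine ⟨x', ?_, ?_⟩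
      · show δ x x' ∈ par M (insert v (selR_pp M v))
        rw [h3]
        exact simple_mem_par M (mem_insert_self _ _)
      · rw [h4, mul_assoc, simple_sq, mul_one, h2]
    · refine ⟨x, ?_, h2⟩
      show δ x x ∈ par M (insert v (selR_pp M v))
      rw [h.self]
      exact one_mem _
  unfold selR_e
  rw [dif_pos h1]
  exact h1.choose_spec

private theorem selR_symm_par (h : IsBuilding M δ) {J : Finset S} {a b : Δ}
    (hab : δ a b ∈ par M J) : δ b a ∈ par M J := by
  rw [h.symm a b]
  exact inv_mem hab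

private theorem selR_res (h : IsBuilding M δ) {J : Finset S} {a b : Δ}
    (hab : δ a b ∈ par M J) : residue M δ J a = residue M δ J b := by
  ext d
  exact ⟨fun hd => h.par_trans (selR_symm_par h hab) hd, fun hd => h.par_trans hab hd⟩

private theorem selR_bad_class (h : IsBuilding M δ) {c b b' : Δ} {v : S}
    (hb : b ∈ SelRB M δ c v) (hbb : δ b b' ∈ par M (selR_pp M v)) : b' ∈ SelRB M δ c v := by
  have h1 : residue M δ (insert v (selR_pp M v)) b = residue M δ (insert v (selR_pp M v)) b' :=
    selR_res h (par_mono M (subset_insert _ _) hbb)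
  obtain ⟨h2, h3⟩ := hb
  rw [h1] at h2 h3
  exact ⟨h2, h.par_trans h3 hbb⟩

private theorem selR_bad_desc (h : IsBuilding M δ) {c b : Δ} {v : S}
    (hb : b ∈ SelRB M δ c v) : len M (δ c b * M.simple v) + 1 = len M (δ c b) := by
  have h1 := (selR_e_spec h c v b).2
  have h2 := h.mem_mul (a := c) hb.2
  have h3 := (selR_down h2 _).2 h1
  rw [mul_inv_cancel_left] at h3
  exact h3

private theorem selR_main (h : IsBuilding M δ) {c x y b : Δ} {u v : S}
    (hv : ∀ t, t ≠ v → M v t = 2 ∨ M v t = 0) (hxy : δ x y = M.simple u)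
    (hl : len M (δ c x * M.simple u) = len M (δ c x) + 1) (hb : b ∈ SelRB M δ c v)
    (hg : SelRG M δ c b y) :
    (∃ b' ∈ SelRB M δ c v, δ b' b ∈ par M (selR_pp M v) ∧ SelRG M δ c b' x) ∨
      (u = v ∧ δ y b ∈ par M (selR_pp M v) ∧ y ∈ SelRB M δ c v) := by
  obtain ⟨b', h1, h2, h3⟩ := selR_near h (selR_pp M v) c b
  have h4 : b' ∈ SelRB M δ c v := selR_bad_class h hb (selR_symm_par h h2)
  have h5 := selR_geo_trans h h1 hg
  have h6 : δ c y = δ c x * M.simple u := h.stepR_up hxy hl
  have h7 : ∀ s, len M (δ c b' * M.simple s) + 1 = len M (δ c b') → s = v := by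
    intro s hs
    by_contra hsv
    have h8 := (selR_ne_zero hsv hs (selR_bad_desc h h4)).2
    rcases hv s hsv with h9 | h9
    · have h10 := h3 s (selR_mem.2 ⟨hsv, h9⟩)
      omega
    · rw [M.symmetric v s] at h9
      exact h8 h9
  have h8 : len M (δ c y * M.simple u) + 1 = len M (δ c y) := by
    rw [h6, mul_assoc, simple_sq, mul_one, hl]
  rcases selR_key hv h7 _ (δ c y) h5.1 rfl u h8 with h9 | ⟨h9, h10⟩
  · left
    refine ⟨b', h4, h2, selR_geo_down h hxy hl h5 ?_⟩
    rw [h6, mul_assoc, simple_sq, mul_one] at h9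
    exact h9
  · right
    rw [← h5.2] at h10
    exact ⟨h9, h.par_trans (selR_symm_par h h10) h2, selR_bad_class h h4 h10⟩

/-- exactly one of the outer chambers is bad -/
private theorem selR_one (h : IsBuilding M δ) {c x : Δ} {u : S}
    (hl : len M (δ c x * M.simple u) = len M (δ c x) + 1)
    (hn : ∀ t, M.simple t * δ c x ≠ δ c x * M.simple u) :
    ∃ y₀, δ x y₀ = M.simple u ∧ ∀ y, δ x y = M.simple u → (y ∈ SelRB M δ c u ↔ y = y₀) := by
  have hres : ∀ y, δ x y = M.simple u → residue M δ (insert u (selR_pp M u)) y =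
      residue M δ (insert u (selR_pp M u)) x := by
    intro y hy
    refine (selR_res h ?_).symm
    rw [hy]
    exact simple_mem_par M (mem_insert_self _ _)
  have hc : c ∉ residue M δ (insert u (selR_pp M u)) x := by
    intro hc
    have h1 : δ c x ∈ par M (insert u (selR_pp M u)) := selR_symm_par h hc
    have h2 := selR_insert_up h1 hl
    exact hn u (selR_par_comm h2).symm
  obtain ⟨h1, h2⟩ := selR_e_spec h c u x
  obtain ⟨e, he⟩ : ∃ e, e = selR_e M δ c u (residue M δ (insert u (selR_pp M u)) x) := ⟨_, rfl⟩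
  rw [← he] at h1 h2
  have h3 : δ x e ∉ par M (selR_pp M u) := by
    intro h3
    have h4 := h.mem_mul (a := c) h3
    have h5 := (selR_down h4 (δ c x)).1 (by
      rw [mul_inv_cancel_left]
      exact h2)
    omega
  have h4 : δ x e * M.simple u ∈ par M (selR_pp M u) := by
    rcases selR_insert h1 with h4 | h4
    · exact absurd h4 h3
    · exact h4
  have h5 : M.simple u * δ x e ∈ par M (selR_pp M u) := by
    have h6 := selR_par_comm h4
    have h7 : M.simple u * δ x e = δ x e * M.simple u := by
      rw [mul_assoc, simple_sq, mul_one] at h6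
      have h8 : M.simple u * δ x e = M.simple u * (δ x e * M.simple u) * M.simple u := by
        rw [← mul_assoc, mul_assoc, simple_sq, mul_one]
      rw [h8, ← h6]
    rw [h7]
    exact h4
  obtain ⟨y₀, h6, h7⟩ := h.exists_step u x e
  have h8 : δ x y₀ = M.simple u := h.symm_simple h6
  have h9 : δ e y₀ ∈ par M (selR_pp M u) := by
    refine selR_symm_par h ?_
    rw [h7]
    exact h5
  refine ⟨y₀, h8, fun y hy => ⟨fun hb => ?_, fun hb => ?_⟩⟩
  · have h10 : δ e y ∈ par M (selR_pp M u) := by
      have h11 := hb.2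
      rw [hres y hy, ← he] at h11
      exact h11
    have h11 : δ y₀ y ∈ par M (selR_pp M u) := h.par_trans (selR_symm_par h h9) h10
    rcases h.step u x y₀ y h6 with h12 | h12
    · rw [hy, simple_sq] at h12
      exact ((h.eq_one _ _).1 h12).symm
    · rw [hy] at h12
      rw [h12] at h11
      exact absurd h11 selR_not_mem
  · rw [hb]
    refine ⟨?_, ?_⟩
    · rw [hres y₀ h8]
      exact hc
    · rw [hres y₀ h8, ← he]
      exact h9

private theorem selR_size (h : IsBuilding M δ) (hq : Reg M δ q) {b b' : Δ} {v : S}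
    (hb : δ b' b ∈ par M (selR_pp M v)) : q v b' = q v b := by
  rw [← (hq v b').2, ← (hq v b).2]
  exact panel_ncard h (fun t ht => selR_mem.1 ht) hb

private theorem selR_panel (h : IsBuilding M δ) (hq : Reg M δ q) {x y : Δ} {u : S}
    (hy : δ x y = M.simple u) : q u y = q u x := by
  have h1 : ∀ z, pan δ u z = insert z {d | δ z d = M.simple u} := by
    intro z
    ext d
    exact Iff.rfl
  have h2 : ∀ z, (pan δ u z).ncard = q u z + 1 := by
    intro z
    rw [h1, Set.ncard_insert_of_notMem ?_ (hq u z).1, (hq u z).2]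
    intro h3
    have h4 : δ z z = M.simple u := h3
    rw [h.self] at h4
    have h5 := congrArg (len M) h4
    rw [len_one, len_simple] at h5
    omega
  have h3 := congrArg Set.ncard (pan_eq h (v := u) (x := x) (y := y) (Or.inr hy))
  rw [h2, h2] at h3
  omega

/-- **The set of chambers.** -/
theorem exists_sel (hδ : IsBuilding M δ) (hq : Reg M δ q) (h1 : ∀ s x, 1 ≤ q s x)
    (hpar : ∀ s, (∀ x, Odd (q s x)) ∨ ∀ t, t ≠ s → M s t = 2 ∨ M s t = 0) (c : Δ) :
    ∃ C, Sel M δ c C := by
  have hev : ∀ v b, ¬ Odd (q v b) → ∀ t, t ≠ v → M v t = 2 ∨ M v t = 0 := fun v b hv =>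
    (hpar v).resolve_left fun h => hv (h b)
  refine ⟨{x | ∀ v, ∀ b ∈ SelRB M δ c v, ¬ Odd (q v b) → ¬ SelRG M δ c b x}, ?_, ?_, ?_, ?_⟩
  · -- base
    intro v b hb _ hg
    have h2 := hg.1
    unfold Le at h2
    rw [hδ.self, len_one] at h2
    have h3 : δ c b = 1 := (len_eq_zero M).1 (by omega)
    have h4 : c = b := (hδ.eq_one c b).1 h3
    apply hb.1
    rw [← h4]
    show δ c c ∈ par M (insert v (selR_pp M v))
    rw [hδ.self]
    exact one_mem _
  · -- down
    intro x y u hxy hlen hy v b hb hv hg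
    have hl : len M (δ c x * M.simple u) = len M (δ c x) + 1 := by
      rcases hδ.stepR (a := c) hxy with h2 | h2
      · rw [← h2]
        exact hlen
      · rw [h2] at hlen
        omega
    exact hy v b hb hv (selR_geo_up hδ hxy hl hg)
  · -- new
    intro x hx u t y hxy hl ht v b hb hv hg
    rcases selR_main hδ (hev v b hv) hxy hl hb hg with ⟨b', h2, h3, h4⟩ | ⟨h2, _, h3⟩
    · refine hx v b' h2 ?_ h4
      rw [selR_size hδ hq h3]
      exact hv
    · apply h3.1
      have h4 : δ c x ∈ par M (selR_pp M v) := by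
        rw [h2] at hl ht
        exact selR_conj (hev v b hv) _ (δ c x) rfl hl ht
      have h5 : δ c y ∈ par M (insert v (selR_pp M v)) := by
        rw [hδ.stepR_up hxy hl, h2]
        exact mul_mem (par_mono M (subset_insert _ _) h4)
          (simple_mem_par M (mem_insert_self _ _))
      exact selR_symm_par hδ h5
  · -- odd
    intro x hx u hl hn
    by_cases hu : Odd (q u x)
    · have h2 : {y | y ∈ {x | ∀ v, ∀ b ∈ SelRB M δ c v, ¬ Odd (q v b) → ¬ SelRG M δ c b x} ∧
          δ x y = M.simple u} = {y | δ x y = M.simple u} := by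
        ext y
        refine ⟨fun hy => hy.2, fun hy => ⟨?_, hy⟩⟩
        intro v b hb hv hg
        rcases selR_main hδ (hev v b hv) hy hl hb hg with ⟨b', h2, h3, h4⟩ | ⟨h2, h3, _⟩
        · refine hx v b' h2 ?_ h4
          rw [selR_size hδ hq h3]
          exact hv
        · apply hv
          rw [← selR_size hδ hq h3, ← h2, selR_panel hδ hq hy]
          exact hu
      rw [h2, (hq u x).2]
      exact hu
    · obtain ⟨y₀, hy0, hy1⟩ := selR_one hδ hl hn
      have h2 : {y | y ∈ {x | ∀ v, ∀ b ∈ SelRB M δ c v, ¬ Odd (q v b) → ¬ SelRG M δ c b x} ∧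
          δ x y = M.simple u} = {y | δ x y = M.simple u} \ {y₀} := by
        ext y
        refine ⟨fun hy => ⟨hy.2, fun h2 => ?_⟩, fun hy => ⟨?_, hy.1⟩⟩
        · rw [Set.mem_singleton_iff] at h2
          refine hy.1 u y ((hy1 y hy.2).2 h2) ?_ (selR_geo_refl hδ c y)
          rw [selR_panel hδ hq hy.2]
          exact hu
        · intro v b hb hv hg
          rcases selR_main hδ (hev v b hv) hy.1 hl hb hg with ⟨b', h2, h3, h4⟩ | ⟨h2, _, h3⟩
          · refine hx v b' h2 ?_ h4
            rw [selR_size hδ hq h3]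
            exact hv
          · rw [← h2] at h3
            exact hy.2 ((hy1 y hy.1).1 h3)
      have h3 : ({y | δ x y = M.simple u} : Set Δ).Finite := (hq u x).1
      have h4 := Set.ncard_sdiff_singleton_add_one (show y₀ ∈ {y | δ x y = M.simple u} from hy0) h3
      rw [h2]
      rw [(hq u x).2] at h4
      have h5 : Even (q u x) := Nat.not_odd_iff_even.1 hu
      obtain ⟨k, hk⟩ := h5
      refine ⟨k - 1, ?_⟩
      have h6 := h1 u x
      omega

end Pool.Agent.H4.BD

end

section

/-!
# Project BLD: elements with short conjugates of the generators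

Map `a` to the family `(a⁻¹ t a)_{t ∈ J}` of elements of the finite ball (`len_finite`): there are finitely many families. If
`a`, `a'` have the same family then `c = a' a⁻¹ ∈ W_J` commutes with all `t ∈ J`. Then `c α_t = ± α_t` for `t ∈ J`: the
reflection in `c α_t` is `c t c⁻¹ = t` (`T_conj`), so `bf (c α_t) x • c α_t = bf α_t x • α_t` for all `x`; with `x = α_t` both are
proportional, norm `2` (cf. `root_unique` after a choice of sign). `c ∈ W_J` is determined by the signs: if
`c α_t = c' α_t` for all `t ∈ J` then `d = c⁻¹ c' ∈ W_J` fixes all `α_t`, `t ∈ J`, so no `s ∈ J` is a right descent of `d`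
(`len_down_iff`, `root_not_neg`), no `s ∉ J` either (`descent_par`), so `d = 1` (`exists_right`). So the fibres of the map are
finite (at most `2^|J|` elements).
-/

set_option autoImplicit false

open Finset

namespace Pool.Agent.H97.BLD

open Pool.Agent.H4.FC Pool.Agent.H78.RC

variable {S : Type} [Fintype S] [DecidableEq S] (M : CoxeterMatrix S)

private theorem cenF_sign {c : M.Group} {t : S} (hc : c * M.simple t * c⁻¹ = M.simple t) :
    T M c (Pi.single t 1) = Pi.single t 1 ∨ T M c (Pi.single t 1) = -Pi.single t 1 := by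
  have h1 := T_conj M c t (Pi.single t 1)
  rw [hc, T_simple_self] at h1
  have h2 : bf (kR M) (T M c (Pi.single t 1)) (T M c (Pi.single t 1)) = 2 :=
    root_norm M ⟨c, t, rfl⟩
  have h3 : bf (kR M) (Pi.single t 1) (Pi.single t 1) = 2 := root_norm M (isRoot_simple M t)
  generalize T M c (Pi.single t 1) = β at h1 h2 ⊢
  generalize (Pi.single t 1 : S → ℝ) = α at h1 h3 ⊢
  generalize bf (kR M) β α = x at h1
  have h4 : x • β = (2 : ℝ) • α := by
    have h5 : x • β = α - (α - x • β) := by abel
    rw [h5, ← h1]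
    module
  have h6 : x * x = 4 := by
    have h7 : bf (kR M) (x • β) (x • β) = bf (kR M) ((2 : ℝ) • α) ((2 : ℝ) • α) := by rw [h4]
    rw [bf_smul_left, bf_smul_right, bf_smul_left, bf_smul_right, h2, h3] at h7
    linarith
  have h8 : (x - 2) * (x + 2) = 0 := by ring_nf; linarith
  rcases mul_eq_zero.1 h8 with h9 | h9
  · left
    have h10 : x = 2 := by linarith
    rw [h10] at h4
    exact smul_right_injective (S → ℝ) (two_ne_zero (α := ℝ)) h4
  · right
    have h10 : x = -2 := by linarith
    rw [h10] at h4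
    refine smul_right_injective (S → ℝ) (two_ne_zero (α := ℝ)) ?_
    show (2 : ℝ) • β = (2 : ℝ) • -α
    rw [smul_neg, ← h4]
    module

private theorem cenF_one {J : Finset S} {d : M.Group} (hd : d ∈ par M J)
    (h : ∀ t ∈ J, T M d (Pi.single t 1) = Pi.single t 1) : d = 1 := by
  by_contra h1
  obtain ⟨s, hs⟩ := exists_right M h1
  have h2 := descent_par M hd hs
  have h3 := (len_down_iff M d s).1 hs s
  rw [h s h2, Pi.single_eq_same] at h3
  linarith

theorem cen_fin (J : Finset S) (D : ℕ) :
    {a : M.Group | a ∈ par M J ∧ ∀ t ∈ J, len M (a⁻¹ * M.simple t * a) ≤ D}.Finite := by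
  classical
  refine Set.Finite.of_finite_fibers
    (fun (a : M.Group) (t : S) => if t ∈ J then a⁻¹ * M.simple t * a else 1) ?_ ?_
  · refine (Set.Finite.pi' fun _ : S => len_finite M D).subset ?_
    rintro _ ⟨a, ⟨-, ha⟩, rfl⟩ t
    show len M (if t ∈ J then a⁻¹ * M.simple t * a else 1) ≤ D
    by_cases ht : t ∈ J
    · rw [if_pos ht]
      exact ha t ht
    · rw [if_neg ht, len_one]
      exact Nat.zero_le D
  · rintro _ ⟨a₀, ⟨h0, -⟩, rfl⟩
    refine Set.Finite.of_injOn (f := fun (a : M.Group) (t : S) =>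
      decide (T M (a * a₀⁻¹) (Pi.single t 1) = Pi.single t 1)) (t := Set.univ)
      (fun _ _ => Set.mem_univ _) ?_ Set.finite_univ
    rintro a ⟨⟨ha, -⟩, haf⟩ b ⟨⟨hb, -⟩, hbf⟩ hab
    have key : ∀ x : M.Group, (fun t : S => if t ∈ J then x⁻¹ * M.simple t * x else 1) =
        (fun t : S => if t ∈ J then a₀⁻¹ * M.simple t * a₀ else 1) → ∀ t ∈ J,
        (x * a₀⁻¹) * M.simple t * (x * a₀⁻¹)⁻¹ = M.simple t := by
      intro x hx t ht
      have h1 := congrFun hx t
      simp only [if_pos ht] at h1
      have h2 : M.simple t = x * (x⁻¹ * M.simple t * x) * x⁻¹ := by group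
      conv_rhs => rw [h2, h1]
      group
    have h1 : ∀ t ∈ J, T M (a * a₀⁻¹) (Pi.single t 1) = T M (b * a₀⁻¹) (Pi.single t 1) := by
      intro t ht
      have h2 := congrFun hab t
      simp only [decide_eq_decide] at h2
      rcases cenF_sign M (key a haf t ht) with h3 | h3
      · rw [h3, h2.1 h3]
      · rcases cenF_sign M (key b hbf t ht) with h4 | h4
        · rw [h4, h2.2 h4]
        · rw [h3, h4]
    have h5 : (b * a₀⁻¹)⁻¹ * (a * a₀⁻¹) = 1 := by
      refine cenF_one M (J := J) ?_ fun t ht => ?_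
      · exact (par M J).mul_mem ((par M J).inv_mem ((par M J).mul_mem hb ((par M J).inv_mem h0)))
          ((par M J).mul_mem ha ((par M J).inv_mem h0))
      · rw [T_mul, h1 t ht, T_inv_T]
    have h6 : a * a₀⁻¹ = b * a₀⁻¹ := (inv_mul_eq_one.1 h5).symm
    exact mul_right_cancel h6

end Pool.Agent.H97.BLD

end
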