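import Pool.Agent.H71.TSG.H85.VK.Order
import Pool.Agent.H71.TSG.M68
import Pool.Agent.H71.TSG.M71

/-! The parts of this file: H4.BD.HHr, H4.BD.Orb, H4.BD.SelA, H4.BD.CoefH, H4.BD.CoefI, H4.BD.CoefJ, H97.BLD.MinA, H97.BLD.MinH, H97.BLD.LowA, H97.BLD.Low, H4.BD.Sep, H4.BD.HHf, H4.BD.MainM, H4.BD.FinM, H45.DA.Bld. -/

section

/-!
# Project BD: the relation of the intersection numbers of the cells
-/

set_option autoImplicit false

open Finset

namespace Pool.Agent.H4.BD

open Pool.Agent.H4.FC Pool.Agent.H78.RC Pool.Agent.H97.BLD Pool.Agent.H37.TM Pool.Agent.H84.RX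

variable {S Δ : Type} [Fintype S] [DecidableEq S] {Lb : Type} [DecidableEq Lb] [VLb S Lb]

/-- the facts about the sets `XX` -/
structure PanOk (M : CoxeterMatrix S) (δ : Δ → Δ → M.Group) (X : Cel M Lb → Set Δ) : Prop where
  fin : ∀ e, Vld M e → (X e).Finite
  even : ∀ e, Vld M e → ∀ v ∈ e.2.1, ∀ f : Δ → ZMod 2,
    (∀ x y, δ x y ∈ par M {v} → f x = f y) → ∑ᶠ x ∈ X e, f x = 0
  part : ∀ e, Vld M e → ∀ v ∈ e.2.1, ∀ f : Δ → ZMod 2, ∑ᶠ x ∈ X e, f x =
    ∑ y ∈ cs M e.1 e.2.1 (e.2.1.erase v), ∑ᶠ x ∈ X (face M e v y), f x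
  vld : ∀ e : Cel M Lb, Vld M e → ∀ v ∈ e.2.1, ∀ y ∈ cs M e.1 e.2.1 (e.2.1.erase v),
    Vld M (face M e v y)

omit [DecidableEq Lb] in
theorem hh_lin_bdC (M : CoxeterMatrix S) (F : Cel M Lb → ZMod 2) (e : Cel M Lb) :
    lin F (bdC M e) = ∑ v ∈ e.2.1, ∑ y ∈ cs M e.1 e.2.1 (e.2.1.erase v), F (face M e v y) := by
  unfold bdC
  rw [map_sum]
  refine sum_congr rfl fun v _ => ?_
  rw [map_sum]
  exact sum_congr rfl fun y _ => lin_single _ _

omit [DecidableEq Lb] in
theorem ok_face_left (M : CoxeterMatrix S) {δ : Δ → Δ → M.Group} {X : Cel M Lb → Set Δ}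
    (hX : PanOk M δ X) {e e' : Cel M Lb} (h : Ok M e e') {v : S} (hv : v ∈ e.2.1) {y : M.Group}
    (hy : y ∈ cs M e.1 e.2.1 (e.2.1.erase v)) : Ok M (face M e v y) e' := by
  refine ⟨hX.vld e h.1 v hv y hy, h.2.1, ?_⟩
  refine disjoint_left.2 fun q hq => disjoint_left.1 h.2.2 ?_
  exact (mem_filter.1 (show q ∈ e.2.2.filter fun q => q.1 ∈ fl M y from hq)).1

omit [DecidableEq Lb] in
theorem hh_ok_symm (M : CoxeterMatrix S) {e e' : Cel M Lb} (h : Ok M e e') : Ok M e' e :=
  ⟨h.2.1, h.1, h.2.2.symm⟩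

/-- **The relation of the intersection numbers.** -/
theorem hh_rel_of {P : Type} [Group P] (M : CoxeterMatrix S) (δ : Δ → Δ → M.Group) (c : Δ)
    (lab : S × Lb → Δ) (C : Set Δ) (rr : Finset S → Δ → P) {n : ℕ} {H : List P → List P → ZMod 2}
    (hH : InterL P n H) (hrr : ∀ T x y, δ x y ∈ par M T → rr T x = rr T y)
    (hmono : ∀ (T T' : Finset S), T ⊆ T' → ∀ w, w ∈ par M T → w ∈ par M T')
    (hX : PanOk M δ (XX M δ c lab C)) (e e' : Cel M Lb) (hok : Ok M e e') :
    dX (bdC M) (hh M δ c lab C rr H) e e' =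
      hh M δ c lab C rr H e e' + hh M δ c lab C rr H e' e := by
  classical
  obtain ⟨s, hs⟩ : ∃ s, s = e.2.1 := ⟨_, rfl⟩
  obtain ⟨t, ht⟩ : ∃ t, t = e'.2.1 := ⟨_, rfl⟩
  have fX := hX.fin e hok.1
  have fY := hX.fin e' hok.2.1
  -- the panels
  have hpan : ∀ (v : S) (x y : Δ), δ x y ∈ par M {v} → ∀ T : Finset S, v ∈ T →
      rr T x = rr T y := fun v x y h T hT =>
    hrr T x y (hmono {v} T (singleton_subset_iff.2 hT) _ h)
  -- the left side
  have L1 : lin (fun x' => hh M δ c lab C rr H x' e') (bdC M e) =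
      ∑ v ∈ s, ∑ᶠ x ∈ XX M δ c lab C e, ∑ᶠ y ∈ XX M δ c lab C e',
        cb rr x (s.erase v) (fun l => cb rr y t (fun l' => H l l')) := by
    rw [hh_lin_bdC, ← hs]
    refine sum_congr rfl fun v hv => ?_
    rw [hs] at hv
    rw [hs, hX.part e hok.1 v hv]
    refine sum_congr rfl fun z hz => ?_
    unfold hh
    rw [if_pos (ok_face_left M hX hok hv hz), ht]
    rfl
  have L2 : lin (fun y' => hh M δ c lab C rr H e y') (bdC M e') =
      ∑ v ∈ t, ∑ᶠ x ∈ XX M δ c lab C e, ∑ᶠ y ∈ XX M δ c lab C e',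
        cb rr x s (fun l => cb rr y (t.erase v) (fun l' => H l l')) := by
    rw [hh_lin_bdC, ← ht]
    refine sum_congr rfl fun v hv => ?_
    rw [ht] at hv
    have h1 : ∀ x, ∑ᶠ y ∈ XX M δ c lab C e',
        cb rr x s (fun l => cb rr y (t.erase v) (fun l' => H l l')) =
        ∑ z ∈ cs M e'.1 e'.2.1 (e'.2.1.erase v), ∑ᶠ y ∈ XX M δ c lab C (face M e' v z),
          cb rr x s (fun l => cb rr y (t.erase v) (fun l' => H l l')) := fun x =>
      hX.part e' hok.2.1 v hv _
    rw [finsum_mem_congr rfl fun x _ => h1 x, finsum_mem_eq_finite_toFinset_sum _ fX,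
      sum_comm, ht]
    refine sum_congr rfl fun z hz => ?_
    have h2 := hh_ok_symm M (ok_face_left M hX (hh_ok_symm M hok) hv hz)
    unfold hh
    rw [if_pos h2, finsum_mem_eq_finite_toFinset_sum _ fX, hs]
    rfl
  -- the right side
  have R1 : hh M δ c lab C rr H e e' = ∑ᶠ x ∈ XX M δ c lab C e, ∑ᶠ y ∈ XX M δ c lab C e',
      cb rr x s (fun l => cb rr y t (fun l' => H l l')) := by
    unfold hh
    rw [if_pos hok, hs, ht]
  have R2 : hh M δ c lab C rr H e' e = ∑ᶠ x ∈ XX M δ c lab C e, ∑ᶠ y ∈ XX M δ c lab C e',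
      cb rr x s (fun l => cb rr y t (fun l' => H l' l)) := by
    unfold hh
    rw [if_pos (hh_ok_symm M hok), finsum_mem_eq_finite_toFinset_sum _ fX,
      finsum_mem_eq_finite_toFinset_sum _ fY]
    have h1 : ∀ y, ∑ᶠ x ∈ XX M δ c lab C e,
        cb rr y e'.2.1 (fun l' => cb rr x e.2.1 (fun l => H l' l)) =
        ∑ x ∈ fX.toFinset, cb rr y e'.2.1 (fun l' => cb rr x e.2.1 (fun l => H l' l)) := fun y =>
      finsum_mem_eq_finite_toFinset_sum _ fX
    have h2 : ∀ x, ∑ᶠ y ∈ XX M δ c lab C e',
        cb rr x s (fun l => cb rr y t (fun l' => H l' l)) =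
        ∑ y ∈ fY.toFinset, cb rr x s (fun l => cb rr y t (fun l' => H l' l)) := fun x =>
      finsum_mem_eq_finite_toFinset_sum _ fY
    rw [sum_congr rfl fun y _ => h1 y, sum_congr rfl fun x _ => h2 x, sum_comm]
    refine sum_congr rfl fun x _ => sum_congr rfl fun y _ => ?_
    rw [hs, ht]
    exact cb_comm rr rr y x e.2.1 _ e'.2.1 rfl fun l' l => H l' l
  unfold dX
  rw [L1, L2, R1, R2]
  -- finite sums
  have hfin : ∀ G : Δ → Δ → ZMod 2, ∑ᶠ x ∈ XX M δ c lab C e, ∑ᶠ y ∈ XX M δ c lab C e', G x y =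
      ∑ x ∈ fX.toFinset, ∑ y ∈ fY.toFinset, G x y := by
    intro G
    rw [finsum_mem_eq_finite_toFinset_sum _ fX]
    exact sum_congr rfl fun x _ => finsum_mem_eq_finite_toFinset_sum _ fY
  simp only [hfin]
  -- one pair of chambers
  have key : ∀ x y : Δ,
      cb rr x s (fun l => cb rr y t (fun l' => H l l')) +
        cb rr x s (fun l => cb rr y t (fun l' => H l' l)) =
      (cb rr x s (fun l => (fun m => cb rr y t (fun l' => H m l')) (l.eraseIdx 0)) +
        ∑ v ∈ s, cb rr x (s.erase v) (fun l => cb rr y t (fun l' => H l l'))) +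
      (cb rr x s (fun l => cb rr y t (fun l' => H l (l'.eraseIdx 0))) +
        ∑ v ∈ t, cb rr x s (fun l => cb rr y (t.erase v) (fun l' => H l l'))) := by
    intro x y
    have a1 : cb rr x s (fun l => (fun m => cb rr y t (fun l' => H m l')) (l.eraseIdx 0)) +
        ∑ v ∈ s, cb rr x (s.erase v) (fun l => cb rr y t (fun l' => H l l')) =
        cb rr x s (dL fun m => cb rr y t (fun l' => H m l')) :=
      (cb_dL rr x _ s rfl (fun m => cb rr y t (fun l' => H m l'))).symm
    have a2 : ∑ v ∈ t, cb rr x s (fun l => cb rr y (t.erase v) (fun l' => H l l')) =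
        cb rr x s (fun l => ∑ v ∈ t, cb rr y (t.erase v) (fun l' => H l l')) :=
      (cb_sum rr x s t fun v l => cb rr y (t.erase v) (fun l' => H l l')).symm
    rw [a1, a2, ← cb_add rr x _ s rfl, ← cb_add rr x _ s rfl, ← cb_add rr x _ s rfl]
    refine cb_congr' rr x s _ _ fun l hl => ?_
    have h1 : cb rr y t (fun l' => H l (l'.eraseIdx 0)) +
        ∑ v ∈ t, cb rr y (t.erase v) (fun l' => H l l') = cb rr y t (dL (H l)) :=
      (cb_dL rr y _ t rfl (H l)).symm
    have h2 : dL (fun m => cb rr y t (fun l' => H m l')) l =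
        cb rr y t (fun l' => ∑ i ∈ range l.length, H (l.eraseIdx i) l') := by
      unfold dL
      rw [cb_sum]
    rw [h1, h2, ← cb_add rr y _ t rfl, ← cb_add rr y _ t rfl]
    refine cb_congr' rr y t _ _ fun l' hl' => ?_
    exact (hH.rel l l' hl hl').symm
  have key2 : ∑ x ∈ fX.toFinset, ∑ y ∈ fY.toFinset,
      cb rr x s (fun l => (fun m => cb rr y t (fun l' => H m l')) (l.eraseIdx 0)) = 0 := by
    rw [sum_comm]
    refine sum_eq_zero fun y _ => ?_
    rcases s.eq_empty_or_nonempty with h0 | h0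
    · refine sum_eq_zero fun x _ => ?_
      rw [h0, cb_empty]
      change cb rr y t (fun l' => H [] l') = 0
      rw [cb_congr' rr y t _ (fun _ => 0) fun l' _ => hH.nil_left l']
      exact cb_zero rr y _ t rfl
    · obtain ⟨k, hk⟩ : ∃ k, s.card = k + 1 := ⟨s.card - 1, by
        have := card_pos.2 h0
        omega⟩
      rw [sum_congr rfl fun x _ => cb_tail rr x k s hk fun m => cb rr y t fun l' => H m l',
        sum_comm]
      refine sum_eq_zero fun v hv => ?_
      rw [← finsum_mem_eq_finite_toFinset_sum]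
      refine hX.even e hok.1 v (hs ▸ hv) _ fun x x' hxx => ?_
      exact cb1_local rr x x' v _ s rfl hv (hpan v x x' hxx) _
  have key3 : ∑ x ∈ fX.toFinset, ∑ y ∈ fY.toFinset,
      cb rr x s (fun l => cb rr y t (fun l' => H l (l'.eraseIdx 0))) = 0 := by
    refine sum_eq_zero fun x _ => ?_
    rcases t.eq_empty_or_nonempty with h0 | h0
    · refine sum_eq_zero fun y _ => ?_
      rw [h0]
      have h1 : ∀ l : List P, l ≠ [] → cb rr y ∅ (fun l' => H l (l'.eraseIdx 0)) = 0 := by
        intro l _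
        rw [cb_empty]
        exact hH.nil_right l
      rw [cb_congr' rr x s _ (fun _ => 0) h1]
      exact cb_zero rr x _ s rfl
    · obtain ⟨k, hk⟩ : ∃ k, t.card = k + 1 := ⟨t.card - 1, by
        have := card_pos.2 h0
        omega⟩
      have h1 : ∀ y, cb rr x s (fun l => cb rr y t (fun l' => H l (l'.eraseIdx 0))) =
          ∑ v ∈ t, cb rr x s (fun l => cb1 rr y v t (fun l' => H l l')) := by
        intro y
        rw [← cb_sum]
        refine cb_congr' rr x s _ _ fun l _ => ?_
        exact cb_tail rr y k t hk fun l' => H l l'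
      rw [sum_congr rfl fun y _ => h1 y, sum_comm]
      refine sum_eq_zero fun v hv => ?_
      rw [← finsum_mem_eq_finite_toFinset_sum]
      refine hX.even e' hok.2.1 v (ht ▸ hv) _ fun y y' hyy => ?_
      refine cb_congr' rr x s _ _ fun l _ => ?_
      exact cb1_local rr y y' v _ t rfl hv (hpan v y y' hyy) _
  have key4 : ∑ x ∈ fX.toFinset, ∑ y ∈ fY.toFinset,
      (cb rr x s (fun l => cb rr y t (fun l' => H l l')) +
        cb rr x s (fun l => cb rr y t (fun l' => H l' l))) =
      ∑ x ∈ fX.toFinset, ∑ y ∈ fY.toFinset,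
        ∑ v ∈ s, cb rr x (s.erase v) (fun l => cb rr y t (fun l' => H l l')) +
      ∑ x ∈ fX.toFinset, ∑ y ∈ fY.toFinset,
        ∑ v ∈ t, cb rr x s (fun l => cb rr y (t.erase v) (fun l' => H l l')) := by
    rw [sum_congr rfl fun x _ => sum_congr rfl fun y _ => key x y]
    simp only [sum_add_distrib]
    simp only at key2
    rw [key2, key3, zero_add, zero_add]
  have key5 : ∀ (I : Finset S) (F : S → Δ → Δ → ZMod 2),
      ∑ x ∈ fX.toFinset, ∑ y ∈ fY.toFinset, ∑ v ∈ I, F v x y =
        ∑ v ∈ I, ∑ x ∈ fX.toFinset, ∑ y ∈ fY.toFinset, F v x y := by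
    intro I F
    rw [sum_congr rfl fun x _ => sum_comm, sum_comm]
  rw [key5, key5] at key4
  rw [← key4]
  simp only [sum_add_distrib]

omit [DecidableEq Lb] in
theorem hh_vld_face (M : CoxeterMatrix S) {e : Cel M Lb} (he : Vld M e) {v : S} {y : M.Group}
    (hy : y ∈ cs M e.1 e.2.1 (e.2.1.erase v)) : Vld M (face M e v y) := by
  rw [mem_cs he.1] at hy
  have hfl : fl M y ⊆ fl M e.1 := fl_coset he.2.1 hy.1
  refine ⟨he.1.mono (erase_subset _ _), hy.2, ⟨?_, ?_⟩, fun q hq => he.2.2.2 q
    (mem_filter.1 (show q ∈ e.2.2.filter fun q => q.1 ∈ fl M y from hq)).1⟩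
  · intro q hq
    exact (mem_filter.1 (show q ∈ e.2.2.filter fun q => q.1 ∈ fl M y from hq)).2
  · intro t ht
    obtain ⟨j, hj, hu⟩ := he.2.2.1.2 t (hfl ht)
    refine ⟨j, mem_filter.2 ⟨hj, ht⟩, fun j' hj' => hu j' ?_⟩
    exact (mem_filter.1 (show (t, j') ∈ e.2.2.filter fun q => q.1 ∈ fl M y from hj')).1

/-- **The relation of the intersection numbers of the cells.** -/
theorem hh_rel {P : Type} [Group P] {M : CoxeterMatrix S} {δ : Δ → Δ → M.Group}
    (h : IsBuilding M δ) {q : S → Δ → ℕ} (hq : Reg M δ q) {c : Δ} {C : Set Δ} (hS : Sel M δ c C)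
    {lab : S × Lb → Δ} (hL : LabOk M δ c lab) {rr : Finset S → Δ → P}
    (hrr : ∀ T x y, δ x y ∈ par M T → rr T x = rr T y) {n : ℕ} {H : List P → List P → ZMod 2}
    (hH : InterL P n H) (e e' : Cel M Lb) (hok : Ok M e e') :
    dX (bdC M) (hh M δ c lab C rr H) e e' =
      hh M δ c lab C rr H e e' + hh M δ c lab C rr H e' e :=
  hh_rel_of M δ c lab C rr hH hrr (fun T T' hT w hw => par_mono M hT hw)
    ⟨fun e he => XX_finite h hq he.1, fun e he v hv f hf => sum_XX_const h hq hS hL he hv f hf,
      fun e he v _ f => sum_XX_face h hq hL he v f, fun e he v _ y hy => hh_vld_face M he hy⟩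
    e e' hok

end Pool.Agent.H4.BD

end

section

/-!
# Project BD: orbit representatives

PROOF. `F` finite, every chamber `x = g x • f x`, `f x ∈ F`. `rr ∅ x = g x`; `rr T x = g (x_R)`, `x_R` a chosen chamber of the residue `R` of
type `T` of `x` (a function of the set `residue M δ T x`). `near`: `len (δ x x_R)` is bounded for `T` spherical, so
`(g x)⁻¹ g (x_R)` maps `f (x_R) ∈ F` into a ball around `f x ∈ F`: finitely many chambers (`sphere_finite`), finite stabilizers.
`far`: `δ x y = δ (f x) (e • f y)` for `e = (g x)⁻¹ (g y) ∈ E`: finitely many values.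
-/

set_option autoImplicit false
set_option linter.unusedSectionVars false

open Finset

namespace Pool.Agent.H4.BD

open Pool.Agent.H4.FC Pool.Agent.H78.RC Pool.Agent.H97.BLD

variable {S Δ P : Type} [Fintype S] [DecidableEq S] [Group P] [MulAction P Δ]
  {M : CoxeterMatrix S} {δ : Δ → Δ → M.Group} {q : S → Δ → ℕ}

private theorem orb_residue (h : IsBuilding M δ) {T : Finset S} {x y : Δ} (hxy : δ x y ∈ par M T) :
    residue M δ T x = residue M δ T y := by
  have hyx : δ y x ∈ par M T := by
    rw [h.symm x y]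
    exact inv_mem hxy
  ext d
  exact ⟨fun hd => h.par_trans hyx hd, fun hd => h.par_trans hxy hd⟩

private theorem orb_ball (h : IsBuilding M δ) (hq : Reg M δ q) (c : Δ) (n : ℕ) :
    {x | len M (δ c x) ≤ n}.Finite := by
  refine ((len_finite M n).biUnion fun w _ => sphere_finite h hq c w).subset fun x hx => ?_
  rw [Set.mem_iUnion₂]
  exact ⟨δ c x, hx, rfl⟩

private theorem orb_bound (M : CoxeterMatrix S) :
    ∃ n : ℕ, ∀ T : Finset S, Sph M T → ∀ w ∈ par M T, len M w ≤ n := by
  have h1 : ({w : M.Group | ∃ T : Finset S, Sph M T ∧ w ∈ par M T}).Finite := by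
    have h2 : ({w : M.Group | ∃ T : Finset S, Sph M T ∧ w ∈ par M T}) =
        ⋃ T ∈ {T : Finset S | Sph M T}, (par M T : Set M.Group) := by
      ext w
      rw [Set.mem_iUnion₂]
      exact ⟨fun ⟨T, h3, h4⟩ => ⟨T, h3, h4⟩, fun ⟨T, h3, h4⟩ => ⟨T, h3, h4⟩⟩
    rw [h2]
    refine Set.Finite.biUnion (Set.toFinite _) fun T hT => ?_
    have h3 : Finite (par M T) := hT
    exact Set.toFinite _
  obtain ⟨n, hn⟩ := (h1.image (len M)).bddAbove
  exact ⟨n, fun T hT w hw => hn ⟨w, ⟨T, hT, hw⟩, rfl⟩⟩

theorem exists_rr (hδ : IsBuilding M δ) (hq : Reg M δ q) (hP : GAct P M δ) :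
    ∃ rr : Finset S → Δ → P, IsRr M δ rr := by
  classical
  obtain ⟨F, hF⟩ := hP.cof
  choose g f hfF hgf using hF
  -- a chosen chamber of a residue
  obtain ⟨ch, hch⟩ : ∃ ch : Set Δ → Δ → Δ, (∀ R x, R.Nonempty → ch R x ∈ R) ∧
      ∀ R x y, R.Nonempty → ch R x = ch R y :=
    ⟨fun R x => if h : R.Nonempty then h.some else x, fun R x h => by
      show (if h : R.Nonempty then h.some else x) ∈ R
      rw [dif_pos h]
      exact h.some_mem, fun R x y h => by
      show (if h : R.Nonempty then h.some else x) = (if h : R.Nonempty then h.some else y)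
      rw [dif_pos h, dif_pos h]⟩
  have hne : ∀ T x, (residue M δ T x).Nonempty := fun T x => ⟨x, by
    show δ x x ∈ par M T
    rw [hδ.self]
    exact one_mem _⟩
  have h0 : ∀ x, ch (residue M δ ∅ x) x = x := by
    intro x
    have h1 : δ x (ch (residue M δ ∅ x) x) ∈ par M ∅ := hch.1 _ x (hne ∅ x)
    exact ((hδ.eq_one _ _).1 (mem_par_empty.1 h1)).symm
  refine ⟨fun T x => g (ch (residue M δ T x) x), ?_, ?_, ?_⟩
  · intro T x y hxy
    show g _ = g _
    rw [orb_residue hδ hxy, hch.2 _ x y (hne T y)]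
  · obtain ⟨n, hn⟩ := orb_bound M
    have hfin : {e : P | ∃ a ∈ F, ∃ b ∈ F, len M (δ a (e • b)) ≤ n}.Finite := by
      have h1 : {e : P | ∃ a ∈ F, ∃ b ∈ F, len M (δ a (e • b)) ≤ n} =
          ⋃ a ∈ (F : Set Δ), ⋃ b ∈ (F : Set Δ), ⋃ z ∈ {z | len M (δ a z) ≤ n},
            {e : P | e • b = z} := by
        ext e
        simp only [Set.mem_iUnion, mem_coe, exists_prop]
        exact ⟨fun ⟨a, ha, b, hb, h2⟩ => ⟨a, ha, b, hb, e • b, h2, rfl⟩,
          fun ⟨a, ha, b, hb, z, h2, h3⟩ => ⟨a, ha, b, hb, by rw [h3]; exact h2⟩⟩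
      rw [h1]
      refine F.finite_toSet.biUnion fun a _ => F.finite_toSet.biUnion fun b _ =>
        (orb_ball hδ hq a n).biUnion fun z _ => ?_
      by_cases hz : ∃ e : P, e • b = z
      · obtain ⟨e₀, he₀⟩ := hz
        refine ((hP.fin b).image fun p => e₀ * p).subset fun e he => ?_
        refine ⟨e₀⁻¹ * e, ?_, mul_inv_cancel_left _ _⟩
        show (e₀⁻¹ * e) • b = b
        rw [mul_smul, show e • b = z from he, ← he₀, inv_smul_smul]
      · refine Set.finite_empty.subset fun e he => hz ⟨e, he⟩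
    refine ⟨hfin.toFinset, fun T x hT => ?_⟩
    show (g (ch (residue M δ ∅ x) x))⁻¹ * g (ch (residue M δ T x) x) ∈ _
    rw [h0, Set.Finite.mem_toFinset]
    obtain ⟨y, hy⟩ : ∃ y, y = ch (residue M δ T x) x := ⟨_, rfl⟩
    have hxy : δ x y ∈ par M T := by
      rw [hy]
      exact hch.1 _ x (hne T x)
    rw [← hy]
    refine ⟨f x, hfF x, f y, hfF y, ?_⟩
    have h2 : δ (f x) (((g x)⁻¹ * g y) • f y) = δ x y := by
      rw [← hP.iso (g x) (f x) (((g x)⁻¹ * g y) • f y), mul_smul, smul_inv_smul, hgf x, hgf y]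
    rw [h2]
    exact hn T hT _ hxy
  · intro E
    obtain ⟨n, hn⟩ : ∃ n : ℕ, ∀ e ∈ E, ∀ a ∈ F, ∀ b ∈ F, len M (δ a (e • b)) ≤ n := by
      refine ⟨∑ e ∈ E, ∑ a ∈ F, ∑ b ∈ F, len M (δ a (e • b)), fun e he a ha b hb => ?_⟩
      have h1 := single_le_sum (f := fun b => len M (δ a (e • b))) (fun _ _ => Nat.zero_le _) hb
      have h2 := single_le_sum (f := fun a => ∑ b ∈ F, len M (δ a (e • b)))
        (fun _ _ => Nat.zero_le _) ha
      have h3 := single_le_sum (f := fun e => ∑ a ∈ F, ∑ b ∈ F, len M (δ a (e • b)))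
        (fun _ _ => Nat.zero_le _) he
      exact h1.trans (h2.trans h3)
    refine ⟨n, fun x y hxy => ?_⟩
    have hxy' : (g (ch (residue M δ ∅ x) x))⁻¹ * g (ch (residue M δ ∅ y) y) ∈ E := hxy
    rw [h0, h0] at hxy'
    have h2 : δ (f x) (((g x)⁻¹ * g y) • f y) = δ x y := by
      rw [← hP.iso (g x) (f x) (((g x)⁻¹ * g y) • f y), mul_smul, smul_inv_smul, hgf x, hgf y]
    rw [← h2]
    exact hn _ hxy' _ (hfF x) _ (hfF y)

end Pool.Agent.H4.BD

end

section

/-!
# Project BD: right descents and right-angled letters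

`key_descent`: let `v` be a right-angled letter (`M s v ∈ {2, 0}`), `b` an element with `v` as its only right descent, `b ≤ y`,
and `u` a right descent of `y`. Then `b ≤ y u`, or `u = v` and `b⁻¹ y` is in the subgroup of the letters which commute
with `v`.
-/

set_option autoImplicit false
set_option linter.unusedSectionVars false

open Finset

namespace Pool.Agent.H4.BD

open Pool.Agent.H4.FC Pool.Agent.H78.RC Pool.Agent.H97.BLD

variable {S : Type} [Fintype S] [DecidableEq S] {M : CoxeterMatrix S}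

/-- a spherical pair has a finite label -/
theorem sph_pair {s t : S} (hst : s ≠ t) (h : Sph M {s, t}) : M s t ≠ 0 := by
  intro h0
  obtain ⟨w, hw, hm⟩ : ∃ w, w ∈ par M ({s, t} : Finset S) ∧ Mx M {s, t} w := by
    obtain ⟨w, h1, h2⟩ := exists_mx h 1
    exact ⟨w, by simpa using inv_mem h2, h1⟩
  have hk : kR M s t = -2 := by
    unfold kR
    rw [if_pos h0]
  have hk' : kR M t s = -2 := by rw [kR_symm, hk]
  -- the vector fixed by the group
  have hfix : ∀ u ∈ ({s, t} : Finset S),
      bf (kR M) (Pi.single u 1) (Pi.single s 1 + Pi.single t 1) = 0 := by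
    intro u hu
    rw [mem_insert, mem_singleton] at hu
    rw [bf_add_right, bf_single, bf_single]
    rcases hu with rfl | rfl
    · rw [kR_self, hk]
      norm_num
    · rw [kR_self, hk']
      norm_num
  have h1 : T M w (Pi.single s 1 + Pi.single t 1) = Pi.single s 1 + Pi.single t 1 := by
    refine par_induction M {s, t}
      (p := fun w => T M w (Pi.single s 1 + Pi.single t 1) = Pi.single s 1 + Pi.single t 1)
      (T_one M _) ?_ w hw
    intro u hu w ih
    rw [T_mul, ih, T_simple, hfix u hu, zero_smul, sub_zero]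
  have h2 := (len_down_iff M w s).1 ((mx_iff.1 hm) s (mem_insert_self s _)) s
  have h3 := (len_down_iff M w t).1 ((mx_iff.1 hm) t (mem_insert_of_mem (mem_singleton_self t))) s
  have h4 := congrFun h1 s
  rw [T_add, Pi.add_apply, Pi.add_apply, Pi.single_eq_same, Pi.single_eq_of_ne hst] at h4
  linarith

end Pool.Agent.H4.BD

end

section

/-!
# Project BD: the coefficients

A right-angled letter (a letter in `R`) has two labels, the other letters have three labels `0`, `1`, `2`. For
`v ∈ A ∩ B` the pair of labels of `v` is one of the pairs of different labels; the letters in a set `D` of right-angled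
letters in `A \ B` or `B \ A`, such that `(A ∩ B) ∪ D` is spherical, have an arbitrary label; the other letters have the
label `0`. The coefficient is the value of the polynomial `FS` of `(A ∩ B) ∪ D` at the set of the letters in `A ∩ B` whose
pair is one of `(0, 1)`, `(2, 1)`, `(2, 0)` and the letters in `D ∩ B`.
-/

set_option autoImplicit false
set_option linter.unusedSectionVars false

open Finset

namespace Pool.Agent.H4.BD

open Pool.Agent.H4.FC Pool.Agent.H78.RC Pool.Agent.H65.RA

variable {S : Type} [Fintype S] [DecidableEq S]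

/-- the ordered pairs of different labels -/
def K3 : Finset (Fin 3 × Fin 3) := univ.filter fun p => p.1 ≠ p.2

/-- a half of the pairs -/
def s3 (p : Fin 3 × Fin 3) : Bool := decide (p = (0, 1) ∨ p = (2, 1) ∨ p = (2, 0))

/-- the pairs of labels of the letters -/
def WF (R E D : Finset S) (v : S) : Finset (Fin 3 × Fin 3) :=
  if v ∈ E then if v ∈ R then {(0, 1), (1, 0)} else K3
  else if v ∈ D then {(0, 0), (1, 1)} else {(0, 0)}

/-- the pairs of labellings -/
def LbF (R E D : Finset S) : Finset (S → Fin 3 × Fin 3) := Fintype.piFinset (WF R E D)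

/-- a labelling -/
def lbl (A : Finset S) (a : S → Fin 3) : Finset (S × Fin 3) := A.image fun v => (v, a v)

/-- the letters whose pair is in the half -/
def TF (E : Finset S) (F : S → Fin 3 × Fin 3) : Finset S := E.filter fun v => s3 (F v) = true

theorem mem_lbl {A : Finset S} {a : S → Fin 3} {q : S × Fin 3} :
    q ∈ lbl A a ↔ q.1 ∈ A ∧ q.2 = a q.1 := by
  unfold lbl
  rw [mem_image]
  constructor
  · rintro ⟨v, hv, rfl⟩
    exact ⟨hv, rfl⟩
  · rintro ⟨h1, h2⟩
    exact ⟨q.1, h1, Prod.ext rfl h2.symm⟩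

theorem lbl_congr {A : Finset S} {a a' : S → Fin 3} (h : ∀ v ∈ A, a v = a' v) :
    lbl A a = lbl A a' := image_congr fun v hv => by rw [h v hv]

theorem lab_lbl (A : Finset S) (a : S → Fin 3) : Lab A (lbl A a) :=
  ⟨fun q hq => (mem_lbl.1 hq).1, fun t ht => ⟨a t, mem_lbl.2 ⟨ht, rfl⟩,
    fun j hj => (mem_lbl.1 hj).2⟩⟩

theorem rs_lbl {A A' : Finset S} (h : A' ⊆ A) (a : S → Fin 3) : rs A' (lbl A a) = lbl A' a := by
  ext q
  unfold rs
  rw [mem_filter, mem_lbl, mem_lbl]
  exact ⟨fun h1 => ⟨h1.2, h1.1.2⟩, fun h1 => ⟨⟨h h1.1, h1.2⟩, h1.1⟩⟩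

theorem TF_subset (E : Finset S) (F : S → Fin 3 × Fin 3) : TF E F ⊆ E := filter_subset _ _

/-- the sum over the labels of one letter -/
theorem sum_pi (W : S → Finset (Fin 3 × Fin 3)) (v : S) (f : (S → Fin 3 × Fin 3) → ZMod 2) :
    ∑ F ∈ Fintype.piFinset W, f F =
      ∑ F ∈ Fintype.piFinset (Function.update W v {(0, 0)}), ∑ p ∈ W v,
        f (Function.update F v p) := by
  rw [← sum_product']
  refine sum_bij' (fun F _ => (Function.update F v (0, 0), F v))
    (fun Fp _ => Function.update Fp.1 v Fp.2) ?_ ?_ ?_ ?_ ?_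
  · intro F hF
    rw [Fintype.mem_piFinset] at hF
    refine mem_product.2 ⟨Fintype.mem_piFinset.2 fun u => ?_, hF v⟩
    by_cases huv : u = v
    · subst huv
      simp
    · simp only [Function.update_of_ne huv]
      exact hF u
  · rintro ⟨F, p⟩ hF
    obtain ⟨h1, h2⟩ := mem_product.1 hF
    rw [Fintype.mem_piFinset] at h1
    refine Fintype.mem_piFinset.2 fun u => ?_
    by_cases huv : u = v
    · subst huv
      simpa using h2
    · have h3 := h1 u
      simp only [Function.update_of_ne huv] at h3 ⊢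
      exact h3
  · intro F _
    simp
  · rintro ⟨F, p⟩ hF
    obtain ⟨h1, -⟩ := mem_product.1 hF
    have h2 := Fintype.mem_piFinset.1 h1 v
    rw [Function.update_self, mem_singleton] at h2
    have h2' : F v = (0, 0) := h2
    refine Prod.ext ?_ ?_
    · show Function.update (Function.update F v p) v (0, 0) = F
      rw [Function.update_idem, ← h2', Function.update_eq_self]
    · show Function.update F v p v = p
      rw [Function.update_self]
  · intro F _
    simp

theorem sum_K3 (f : Fin 3 × Fin 3 → ZMod 2) :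
    ∑ p ∈ K3, f p = f (0, 1) + f (0, 2) + f (1, 0) + f (1, 2) + f (2, 0) + f (2, 1) := by
  have h : K3 = {(0, 1), (0, 2), (1, 0), (1, 2), (2, 0), (2, 1)} := by decide
  rw [h]
  simp [add_assoc]

theorem s3_swap {p : Fin 3 × Fin 3} (h : p ∈ K3) : s3 p.swap = !(s3 p) := by
  revert p
  decide

theorem WF_erase {R E D : Finset S} {v : S} (hE : v ∉ E) (hD : v ∉ D) :
    Function.update (WF R (insert v E) D) v {(0, 0)} = WF R E D := by
  funext u
  by_cases huv : u = v
  · subst huv
    rw [Function.update_self]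
    unfold WF
    rw [if_neg hE, if_neg hD]
  · rw [Function.update_of_ne huv]
    unfold WF
    simp only [mem_insert, huv, false_or]

theorem WF_erase' {R E D : Finset S} {v : S} (hE : v ∉ E) (hD : v ∉ D) :
    Function.update (WF R E (insert v D)) v {(0, 0)} = WF R E D := by
  funext u
  by_cases huv : u = v
  · subst huv
    rw [Function.update_self]
    unfold WF
    rw [if_neg hE, if_neg hD]
  · rw [Function.update_of_ne huv]
    unfold WF
    simp only [mem_insert, huv, false_or]

theorem sum_LbF {R E D : Finset S} {v : S} (hE : v ∉ E) (hD : v ∉ D) (hR : v ∉ R)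
    (f : (S → Fin 3 × Fin 3) → ZMod 2) :
    ∑ F ∈ LbF R (insert v E) D, f F = ∑ F ∈ LbF R E D, ∑ p ∈ K3, f (Function.update F v p) := by
  unfold LbF
  rw [sum_pi _ v, WF_erase hE hD]
  have h1 : WF R (insert v E) D v = K3 := by
    unfold WF
    rw [if_pos (mem_insert_self v E), if_neg hR]
  rw [h1]

theorem sum_LbF_R {R E D : Finset S} {v : S} (hE : v ∉ E) (hD : v ∉ D) (hR : v ∈ R)
    (f : (S → Fin 3 × Fin 3) → ZMod 2) :
    ∑ F ∈ LbF R (insert v E) D, f F = ∑ F ∈ LbF R E D,
      (f (Function.update F v (0, 1)) + f (Function.update F v (1, 0))) := by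
  unfold LbF
  rw [sum_pi _ v, WF_erase hE hD]
  have h1 : WF R (insert v E) D v = {(0, 1), (1, 0)} := by
    unfold WF
    rw [if_pos (mem_insert_self v E), if_pos hR]
  rw [h1]
  refine sum_congr rfl fun F _ => ?_
  rw [sum_pair (by decide)]

theorem sum_LbF_D {R E D : Finset S} {v : S} (hE : v ∉ E) (hD : v ∉ D)
    (f : (S → Fin 3 × Fin 3) → ZMod 2) :
    ∑ F ∈ LbF R E (insert v D), f F = ∑ F ∈ LbF R E D,
      (f (Function.update F v (0, 0)) + f (Function.update F v (1, 1))) := by
  unfold LbF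
  rw [sum_pi _ v, WF_erase' hE hD]
  have h1 : WF R E (insert v D) v = {(0, 0), (1, 1)} := by
    unfold WF
    rw [if_neg hE, if_pos (mem_insert_self v D)]
  rw [h1]
  refine sum_congr rfl fun F _ => ?_
  rw [sum_pair (by decide)]

theorem mem_LbF_zero {R E D : Finset S} {F : S → Fin 3 × Fin 3} (hF : F ∈ LbF R E D) {v : S}
    (hE : v ∉ E) (hD : v ∉ D) : F v = (0, 0) := by
  have h1 := Fintype.mem_piFinset.1 hF v
  unfold WF at h1
  rw [if_neg hE, if_neg hD] at h1
  exact mem_singleton.1 h1

theorem mem_LbF_ne {R E D : Finset S} {F : S → Fin 3 × Fin 3} (hF : F ∈ LbF R E D) {v : S}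
    (hE : v ∈ E) : F v ∈ K3 := by
  have h1 := Fintype.mem_piFinset.1 hF v
  unfold WF at h1
  rw [if_pos hE] at h1
  by_cases hR : v ∈ R
  · rw [if_pos hR, mem_insert, mem_singleton] at h1
    rcases h1 with h1 | h1
    · rw [h1]
      decide
    · rw [h1]
      decide
  · rwa [if_neg hR] at h1

/-- the labels of right-angled letters are not `2` -/
theorem mem_LbF_R {R E D : Finset S} {F : S → Fin 3 × Fin 3} (hF : F ∈ LbF R E D) {v : S}
    (hR : v ∈ R) : (F v).1 ≠ 2 ∧ (F v).2 ≠ 2 := by
  have h1 := Fintype.mem_piFinset.1 hF v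
  unfold WF at h1
  rw [if_pos hR] at h1
  split_ifs at h1
  · rw [mem_insert, mem_singleton] at h1
    rcases h1 with h1 | h1 <;> rw [h1] <;> decide
  · rw [mem_insert, mem_singleton] at h1
    rcases h1 with h1 | h1 <;> rw [h1] <;> decide
  · rw [mem_singleton] at h1
    rw [h1]
    decide

/-- the summand -/
def tm (e : S → ℕ) (x : Finset S → ZMod 2) (k : ℕ) (R E D A B : Finset S)
    (g : Finset (S × Fin 3) → Finset (S × Fin 3) → ZMod 2) : ZMod 2 :=
  ∑ F ∈ LbF R E D, FS e x k (E ∪ D) (TF E F ∪ (D ∩ B)) *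
    g (lbl A fun v => (F v).1) (lbl B fun v => (F v).2)

open Classical in
/-- the coefficients -/
noncomputable def Qh (M : CoxeterMatrix S) (R : Finset S) (e : S → ℕ) (x : Finset S → ZMod 2)
    (k : ℕ) (g : Finset (S × Fin 3) → Finset (S × Fin 3) → ZMod 2) (A B : Finset S) : ZMod 2 :=
  if Sph M A ∧ Sph M B then ∑ D ∈ (R ∩ ((A \ B) ∪ (B \ A))).powerset,
    if Sph M ((A ∩ B) ∪ D) then tm e x k R (A ∩ B) D A B g else 0 else 0

variable {M : CoxeterMatrix S} {R : Finset S} {e : S → ℕ} {x : Finset S → ZMod 2} {k : ℕ}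

open Classical in
theorem Qh_pos (g : Finset (S × Fin 3) → Finset (S × Fin 3) → ZMod 2) {A B : Finset S}
    (hA : Sph M A) (hB : Sph M B) : Qh M R e x k g A B =
      ∑ D ∈ (R ∩ ((A \ B) ∪ (B \ A))).powerset,
        if Sph M ((A ∩ B) ∪ D) then tm e x k R (A ∩ B) D A B g else 0 := if_pos ⟨hA, hB⟩

theorem Qh_congr (g g' : Finset (S × Fin 3) → Finset (S × Fin 3) → ZMod 2) (A B : Finset S)
    (h : ∀ a b, Lab A a → Lab B b → Disjoint a b → (∀ q ∈ a, q.1 ∈ R → q.2 ≠ 2) →
      (∀ q ∈ b, q.1 ∈ R → q.2 ≠ 2) → g a b = g' a b) :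
    Qh M R e x k g A B = Qh M R e x k g' A B := by
  classical
  unfold Qh
  by_cases h0 : Sph M A ∧ Sph M B
  · rw [if_pos h0, if_pos h0]
    refine sum_congr rfl fun D hD => ?_
    by_cases h1 : Sph M ((A ∩ B) ∪ D)
    · rw [if_pos h1, if_pos h1]
      unfold tm
      refine sum_congr rfl fun F hF => ?_
      rw [h _ _ (lab_lbl A _) (lab_lbl B _)]
      · rw [disjoint_left]
        intro q hq hq'
        obtain ⟨h2, h3⟩ := mem_lbl.1 hq
        obtain ⟨h4, h5⟩ := mem_lbl.1 hq'
        have h6 := mem_LbF_ne hF (mem_inter.2 ⟨h2, h4⟩)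
        unfold K3 at h6
        exact (mem_filter.1 h6).2 (h3.symm.trans h5)
      · intro q hq hR
        rw [(mem_lbl.1 hq).2]
        exact (mem_LbF_R hF hR).1
      · intro q hq hR
        rw [(mem_lbl.1 hq).2]
        exact (mem_LbF_R hF hR).2
    · rw [if_neg h1, if_neg h1]
  · rw [if_neg h0, if_neg h0]

theorem LbF_swap {E D : Finset S} (f : (S → Fin 3 × Fin 3) → ZMod 2) :
    ∑ F ∈ LbF R E D, f F = ∑ F ∈ LbF R E D, f fun v => (F v).swap := by
  have h00 : ∀ v, ∀ p ∈ WF R E D v, p.swap ∈ WF R E D v := by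
    intro v p
    unfold WF
    split_ifs
    · revert p
      decide
    · revert p
      decide
    · revert p
      decide
    · revert p
      decide
  have h0 : ∀ F ∈ LbF R E D, (fun v => (F v).swap) ∈ LbF R E D := by
    intro F hF
    exact Fintype.mem_piFinset.2 fun v => h00 v _ (Fintype.mem_piFinset.1 hF v)
  refine sum_nbij' (fun F v => (F v).swap) (fun F v => (F v).swap) h0 h0 ?_ ?_ ?_
  · intro F _
    funext v
    exact Prod.swap_swap _
  · intro F _
    funext v
    exact Prod.swap_swap _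
  · intro F _
    rfl

theorem tm_swap (he : Function.Injective e)
    (hx : ∀ D, Sph M D → D.card = k + 2 → ∑ v ∈ D, x (D.erase v) = 0) {A B D : Finset S}
    (hD : D ⊆ (A \ B) ∪ (B \ A)) (hS : Sph M ((A ∩ B) ∪ D))
    (g : Finset (S × Fin 3) → Finset (S × Fin 3) → ZMod 2) :
    tm e x k R (A ∩ B) D A B g = tm e x k R (B ∩ A) D B A fun a b => g b a := by
  classical
  unfold tm
  rw [inter_comm B A, LbF_swap]
  refine sum_congr rfl fun F hF => ?_
  have h1 : TF (A ∩ B) (fun v => (F v).swap) ∪ (D ∩ B) =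
      ((A ∩ B) ∪ D) \ (TF (A ∩ B) F ∪ (D ∩ A)) := by
    ext v
    have h2 : v ∈ D → (v ∈ A ∧ v ∉ B) ∨ (v ∈ B ∧ v ∉ A) := by
      intro hv
      have h3 := hD hv
      rw [mem_union, mem_sdiff, mem_sdiff] at h3
      exact h3
    unfold TF
    simp only [mem_union, mem_sdiff, mem_filter, mem_inter]
    by_cases hv : v ∈ A ∩ B
    · have h3 := s3_swap (mem_LbF_ne hF hv)
      rw [mem_inter] at hv
      rw [h3]
      rcases h4 : s3 (F v) with _ | _
      · simp only [Bool.not_false, hv.1, hv.2]
        tauto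
      · simp only [Bool.not_true, hv.1, hv.2]
        have h5 : v ∉ D := fun h => by
          rcases h2 h with h6 | h6
          · exact h6.2 hv.2
          · exact h6.2 hv.1
        simp [h5]
    · rw [mem_inter] at hv
      tauto
  rw [h1, FS_compl e he x k ((A ∩ B) ∪ D) (TF (A ∩ B) F ∪ (D ∩ A)) fun D' hD' hc =>
    hx D' (hS.mono hD') hc]
  rfl

theorem Qh_swap (he : Function.Injective e)
    (hx : ∀ D, Sph M D → D.card = k + 2 → ∑ v ∈ D, x (D.erase v) = 0)
    (g : Finset (S × Fin 3) → Finset (S × Fin 3) → ZMod 2) (A B : Finset S) :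
    Qh M R e x k g A B = Qh M R e x k (fun a b => g b a) B A := by
  classical
  by_cases h : Sph M A ∧ Sph M B
  · rw [Qh_pos g h.1 h.2, Qh_pos _ h.2 h.1, union_comm (B \ A) (A \ B), inter_comm B A]
    refine sum_congr rfl fun D hD => ?_
    have hD' : D ⊆ (A \ B) ∪ (B \ A) := (mem_powerset.1 hD).trans inter_subset_right
    by_cases h1 : Sph M ((A ∩ B) ∪ D)
    · rw [if_pos h1, if_pos h1, tm_swap he hx hD' h1, inter_comm B A]
    · rw [if_neg h1, if_neg h1]
  · unfold Qh
    rw [if_neg h, if_neg fun h' => h ⟨h'.2, h'.1⟩]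

/-! ### Forgetting a label -/

/-- the labels of `B` after a change of the label of `v` -/
theorem lbl_update (B : Finset S) (F : S → Fin 3 × Fin 3) (v : S) (p : Fin 3 × Fin 3) :
    (lbl B fun u => (Function.update F v p u).2) =
      lbl B (Function.update (fun u => (F u).2) v p.2) := by
  refine lbl_congr fun u _ => ?_
  by_cases huv : u = v
  · rw [huv, Function.update_self, Function.update_self]
  · rw [Function.update_of_ne huv, Function.update_of_ne huv]

theorem lbl_update_erase (A : Finset S) (F : S → Fin 3 × Fin 3) (v : S) (p : Fin 3 × Fin 3) :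
    (lbl (A.erase v) fun u => (Function.update F v p u).1) =
      lbl (A.erase v) fun u => (F u).1 := by
  refine lbl_congr fun u hu => ?_
  rw [Function.update_of_ne (mem_erase.1 hu).1]

theorem lbl_zero {F : S → Fin 3 × Fin 3} {v : S} (h : F v = (0, 0)) (B : Finset S) :
    (lbl B fun u => (F u).2) = lbl B (Function.update (fun u => (F u).2) v 0) := by
  refine lbl_congr fun u _ => ?_
  by_cases huv : u = v
  · rw [huv, Function.update_self, h]
  · rw [Function.update_of_ne huv]

theorem TF_update {E : Finset S} {v : S} (hE : v ∉ E) (F : S → Fin 3 × Fin 3)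
    (p : Fin 3 × Fin 3) : TF E (Function.update F v p) = TF E F := by
  refine filter_congr fun u hu => ?_
  have huv : u ≠ v := fun h => hE (h ▸ hu)
  rw [Function.update_of_ne huv]

theorem TF_insert {E : Finset S} {v : S} (hE : v ∉ E) (F : S → Fin 3 × Fin 3)
    (p : Fin 3 × Fin 3) : TF (insert v E) (Function.update F v p) =
      if s3 p = true then insert v (TF E F) else TF E F := by
  have h5 := TF_update hE F p
  unfold TF at h5 ⊢
  rw [filter_insert, Function.update_self, h5]

/-- a common letter which is not right-angled -/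
theorem tm_forget {E D A B : Finset S} {v : S} (hE : v ∉ E) (hD : v ∉ D) (hR : v ∉ R)
    (g : Finset (S × Fin 3) → Finset (S × Fin 3) → ZMod 2) :
    (∑ F ∈ LbF R (insert v E) D, FS e x k (insert v E ∪ D) (TF (insert v E) F ∪ (D ∩ B)) *
      g (lbl (A.erase v) fun u => (F u).1) (lbl B fun u => (F u).2)) =
      tm e x k R E D (A.erase v) B g := by
  classical
  unfold tm
  rw [sum_LbF hE hD hR]
  refine sum_congr rfl fun F hF => ?_
  have hvT : v ∉ TF E F ∪ (D ∩ B) := fun h => by
    rcases mem_union.1 h with h | h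
    · exact hE (TF_subset E F h)
    · exact hD (mem_inter.1 h).1
  have h4 : ∀ p : Fin 3 × Fin 3, TF (insert v E) (Function.update F v p) ∪ (D ∩ B) =
      if s3 p = true then insert v (TF E F ∪ (D ∩ B)) else TF E F ∪ (D ∩ B) := by
    intro p
    rw [TF_insert hE]
    split_ifs
    · rw [insert_union]
    · rfl
  have h6 := FS_toggle e x k (mem_insert_self v (E ∪ D)) hvT
  have hvS : v ∉ E ∪ D := fun h => (mem_union.1 h).elim hE hD
  rw [erase_insert hvS, ← insert_union] at h6
  simp only [lbl_update_erase, lbl_update, h4, sum_K3]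
  rw [lbl_zero (mem_LbF_zero hF hE hD) B, ← h6]
  have h7 : s3 (0, 1) = true ∧ s3 (0, 2) = false ∧ s3 (1, 0) = false ∧ s3 (1, 2) = false ∧
      s3 (2, 0) = true ∧ s3 (2, 1) = true := by decide
  obtain ⟨a1, a2, a3, a4, a5, a6⟩ := h7
  simp only [a1, a2, a3, a4, a5, a6, if_true, if_false, Bool.false_eq_true]
  generalize FS e x k (insert v E ∪ D) (insert v (TF E F ∪ (D ∩ B))) = p1
  generalize FS e x k (insert v E ∪ D) (TF E F ∪ (D ∩ B)) = p2
  generalize g (lbl (A.erase v) fun u => (F u).1)
    (lbl B (Function.update (fun u => (F u).2) v 0)) = g0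
  generalize g (lbl (A.erase v) fun u => (F u).1)
    (lbl B (Function.update (fun u => (F u).2) v 1)) = g1
  generalize g (lbl (A.erase v) fun u => (F u).1)
    (lbl B (Function.update (fun u => (F u).2) v 2)) = g2
  revert p1 p2 g0 g1 g2
  decide

/-- a common right-angled letter -/
theorem tm_forget_R {E D A B : Finset S} {v : S} (hE : v ∉ E) (hD : v ∉ D) (hR : v ∈ R)
    (hvB : v ∈ B) (g : Finset (S × Fin 3) → Finset (S × Fin 3) → ZMod 2) :
    (∑ F ∈ LbF R (insert v E) D, FS e x k (insert v E ∪ D) (TF (insert v E) F ∪ (D ∩ B)) *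
      g (lbl (A.erase v) fun u => (F u).1) (lbl B fun u => (F u).2)) =
      tm e x k R E D (A.erase v) B g + tm e x k R E (insert v D) (A.erase v) B g := by
  classical
  unfold tm
  rw [sum_LbF_R hE hD hR, sum_LbF_D hE hD, ← sum_add_distrib]
  refine sum_congr rfl fun F hF => ?_
  have hvT : v ∉ TF E F ∪ (D ∩ B) := fun h => by
    rcases mem_union.1 h with h | h
    · exact hE (TF_subset E F h)
    · exact hD (mem_inter.1 h).1
  have h4 : ∀ p : Fin 3 × Fin 3, TF (insert v E) (Function.update F v p) ∪ (D ∩ B) =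
      if s3 p = true then insert v (TF E F ∪ (D ∩ B)) else TF E F ∪ (D ∩ B) := by
    intro p
    rw [TF_insert hE]
    split_ifs
    · rw [insert_union]
    · rfl
  have h5 : ∀ p : Fin 3 × Fin 3, TF E (Function.update F v p) ∪ (insert v D ∩ B) =
      insert v (TF E F ∪ (D ∩ B)) := by
    intro p
    rw [TF_update hE, insert_inter_of_mem hvB, union_insert]
  have h8 : E ∪ insert v D = insert v E ∪ D := by
    rw [union_insert, insert_union]
  have h6 := FS_toggle e x k (mem_insert_self v (E ∪ D)) hvT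
  have hvS : v ∉ E ∪ D := fun h => (mem_union.1 h).elim hE hD
  rw [erase_insert hvS, ← insert_union] at h6
  simp only [lbl_update_erase, lbl_update, h4, h5, h8]
  rw [lbl_zero (mem_LbF_zero hF hE hD) B, ← h6]
  have h7 : s3 (0, 1) = true ∧ s3 (1, 0) = false := by decide
  obtain ⟨a1, a3⟩ := h7
  simp only [a1, a3, if_true, if_false, Bool.false_eq_true]
  generalize FS e x k (insert v E ∪ D) (insert v (TF E F ∪ (D ∩ B))) = p1
  generalize FS e x k (insert v E ∪ D) (TF E F ∪ (D ∩ B)) = p2
  generalize g (lbl (A.erase v) fun u => (F u).1)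
    (lbl B (Function.update (fun u => (F u).2) v 0)) = g0
  generalize g (lbl (A.erase v) fun u => (F u).1)
    (lbl B (Function.update (fun u => (F u).2) v 1)) = g1
  revert p1 p2 g0 g1
  decide

/-- a free right-angled letter of `A` -/
theorem tm_forget_D {E D A B : Finset S} {v : S} (hE : v ∉ E) (hD : v ∉ D) (hvB : v ∉ B)
    (g : Finset (S × Fin 3) → Finset (S × Fin 3) → ZMod 2) :
    (∑ F ∈ LbF R E (insert v D), FS e x k (E ∪ insert v D) (TF E F ∪ (insert v D ∩ B)) *
      g (lbl (A.erase v) fun u => (F u).1) (lbl B fun u => (F u).2)) = 0 := by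
  classical
  rw [sum_LbF_D hE hD]
  refine sum_eq_zero fun F hF => ?_
  have h1 : ∀ p : Fin 3 × Fin 3, (lbl B fun u => (Function.update F v p u).2) =
      lbl B fun u => (F u).2 := by
    intro p
    refine lbl_congr fun u hu => ?_
    have huv : u ≠ v := fun h => hvB (h ▸ hu)
    rw [Function.update_of_ne huv]
  simp only [lbl_update_erase, h1, TF_update hE]
  exact z2_add_self _

/-- a right-angled letter can be added to a spherical set if it commutes with all elements -/
theorem sph_insert_ra {d : S} (hd : ∀ t, t ≠ d → M d t = 2 ∨ M d t = 0) {X : Finset S}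
    (hX : Sph M X) (h : ∀ t ∈ X, t ≠ d → M d t ≠ 0) : Sph M (insert d X) := by
  classical
  by_cases hdX : d ∈ X
  · rwa [insert_eq_of_mem hdX]
  have hJ : ∀ t ∈ X, t ≠ d ∧ M d t = 2 := by
    intro t ht
    have h1 : t ≠ d := fun h => hdX (h ▸ ht)
    exact ⟨h1, (hd t h1).resolve_right (h t ht h1)⟩
  have hfin : ((par M X : Set M.Group) ∪ (fun w => w * M.simple d) '' (par M X : Set M.Group)).Finite := by
    have h1 : (par M X : Set M.Group).Finite := by
      have : Finite (par M X) := hX
      exact Set.toFinite _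
    exact h1.union (h1.image _)
  have h2 : (par M (insert d X) : Set M.Group).Finite := by
    refine hfin.subset fun w hw => ?_
    rcases mem_par_insert hJ hw with h3 | h3
    · exact Or.inl h3
    · refine Or.inr ⟨w * M.simple d, h3, ?_⟩
      show w * M.simple d * M.simple d = w
      rw [mul_assoc, simple_sq, mul_one]
  exact h2.to_subtype

/-- the condition on the free letters does not change -/
theorem sph_iff {A B D E : Finset S} (hRA : ∀ v ∈ R, ∀ t, t ≠ v → M v t = 2 ∨ M v t = 0)
    (hA : Sph M A) (hB : Sph M B) {v : S} (hAB : A ∩ B = insert v E)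
    (hD : D ⊆ R ∩ ((A \ B) ∪ (B \ A))) : Sph M (insert v E ∪ D) ↔ Sph M (E ∪ D) := by
  classical
  refine ⟨fun h => h.mono (union_subset_union (subset_insert v E) (Subset.refl D)),
    fun h => ?_⟩
  have key : ∀ D' ⊆ D, Sph M (insert v E ∪ D') := by
    intro D'
    induction D' using Finset.induction_on with
    | empty =>
      intro _
      rw [union_empty, ← hAB]
      exact hA.mono inter_subset_left
    | insert d D' hd ih =>
      intro hD'
      have h1 := ih ((subset_insert d D').trans hD')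
      have hdD := hD' (mem_insert_self d D')
      have h2 := mem_inter.1 (hD hdD)
      rw [union_insert]
      refine sph_insert_ra (hRA d h2.1) h1 fun t ht htd => ?_
      rcases mem_union.1 ht with h3 | h3
      · rw [← hAB, mem_inter] at h3
        rcases mem_union.1 h2.2 with h4 | h4
        · refine sph_pair htd.symm (hA.mono ?_)
          intro u hu
          rw [mem_insert, mem_singleton] at hu
          rcases hu with rfl | rfl
          · exact (mem_sdiff.1 h4).1
          · exact h3.1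
        · refine sph_pair htd.symm (hB.mono ?_)
          intro u hu
          rw [mem_insert, mem_singleton] at hu
          rcases hu with rfl | rfl
          · exact (mem_sdiff.1 h4).1
          · exact h3.2
      · refine sph_pair htd.symm (h.mono ?_)
        intro u hu
        rw [mem_insert, mem_singleton] at hu
        rcases hu with rfl | rfl
        · exact mem_union_right _ hdD
        · exact mem_union_right _ (hD' (mem_insert_of_mem h3))
  exact key D (Subset.refl D)

/-- forget the label of a letter in the first variable -/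
theorem Qh_forget (hRA : ∀ v ∈ R, ∀ t, t ≠ v → M v t = 2 ∨ M v t = 0)
    (g : Finset (S × Fin 3) → Finset (S × Fin 3) → ZMod 2) {A B : Finset S}
    (hA : Sph M A) (hB : Sph M B) {v : S} (hv : v ∈ A) :
    Qh M R e x k (fun a b => g (rs (A.erase v) a) b) A B = Qh M R e x k g (A.erase v) B := by
  classical
  rw [Qh_pos _ hA hB, Qh_pos g (hA.mono (erase_subset _ _)) hB]
  have htm : ∀ E D, tm e x k R E D A B (fun a b => g (rs (A.erase v) a) b) =
      ∑ F ∈ LbF R E D, FS e x k (E ∪ D) (TF E F ∪ (D ∩ B)) *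
        g (lbl (A.erase v) fun u => (F u).1) (lbl B fun u => (F u).2) := by
    intro E D
    unfold tm
    simp only [rs_lbl (erase_subset v A)]
  simp only [htm]
  by_cases hvB : v ∈ B
  · obtain ⟨E, hEE⟩ : ∃ E, E = A.erase v ∩ B := ⟨_, rfl⟩
    have hAB : A ∩ B = insert v E := by
      rw [hEE]
      ext u
      rw [mem_insert, mem_inter, mem_inter, mem_erase]
      constructor
      · rintro ⟨h1, h2⟩
        by_cases huv : u = v
        · exact Or.inl huv
        · exact Or.inr ⟨⟨huv, h1⟩, h2⟩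
      · rintro (rfl | ⟨⟨-, h1⟩, h2⟩)
        · exact ⟨hv, hvB⟩
        · exact ⟨h1, h2⟩
    have hE : v ∉ E := by
      rw [hEE]
      exact fun h => notMem_erase v A (mem_inter.1 h).1
    rw [← hEE, hAB]
    have hX : v ∉ R ∩ ((A \ B) ∪ (B \ A)) := by
      intro h
      rcases mem_union.1 (mem_inter.1 h).2 with h1 | h1
      · exact (mem_sdiff.1 h1).2 hvB
      · exact (mem_sdiff.1 h1).2 hv
    by_cases hR : v ∈ R
    · have hX' : R ∩ ((A.erase v \ B) ∪ (B \ A.erase v)) =
          insert v (R ∩ ((A \ B) ∪ (B \ A))) := by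
        ext u
        simp only [mem_inter, mem_union, mem_sdiff, mem_erase, mem_insert]
        by_cases huv : u = v
        · subst huv
          simp [hR, hvB]
        · simp [huv]
      rw [hX', sum_powerset_insert hX, ← sum_add_distrib]
      refine sum_congr rfl fun D hD => ?_
      rw [mem_powerset] at hD
      have hvD : v ∉ D := fun h => hX (hD h)
      have h8 : E ∪ insert v D = insert v E ∪ D := by
        rw [union_insert, insert_union]
      rw [h8]
      by_cases hS : Sph M (insert v E ∪ D)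
      · rw [if_pos hS, if_pos ((sph_iff hRA hA hB hAB hD).1 hS), if_pos hS,
          tm_forget_R hE hvD hR hvB]
      · rw [if_neg hS, if_neg fun h => hS ((sph_iff hRA hA hB hAB hD).2 h), if_neg hS, add_zero]
    · have hX' : R ∩ ((A.erase v \ B) ∪ (B \ A.erase v)) = R ∩ ((A \ B) ∪ (B \ A)) := by
        ext u
        simp only [mem_inter, mem_union, mem_sdiff, mem_erase]
        by_cases huv : u = v
        · subst huv
          simp [hR]
        · simp [huv]
      rw [hX']
      refine sum_congr rfl fun D hD => ?_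
      rw [mem_powerset] at hD
      have hvD : v ∉ D := fun h => hX (hD h)
      by_cases hS : Sph M (insert v E ∪ D)
      · rw [if_pos hS, if_pos ((sph_iff hRA hA hB hAB hD).1 hS), tm_forget hE hvD hR]
      · rw [if_neg hS, if_neg fun h => hS ((sph_iff hRA hA hB hAB hD).2 h)]
  · have hAB : A.erase v ∩ B = A ∩ B := by
      ext u
      rw [mem_inter, mem_inter, mem_erase]
      constructor
      · rintro ⟨⟨-, h1⟩, h2⟩
        exact ⟨h1, h2⟩
      · rintro ⟨h1, h2⟩
        exact ⟨⟨fun h => hvB (h ▸ h2), h1⟩, h2⟩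
    rw [hAB]
    have hE : v ∉ A ∩ B := fun h => hvB (mem_inter.1 h).2
    have hX : v ∉ R ∩ ((A.erase v \ B) ∪ (B \ A.erase v)) := by
      intro h
      rcases mem_union.1 (mem_inter.1 h).2 with h1 | h1
      · exact notMem_erase v A (mem_sdiff.1 h1).1
      · exact hvB (mem_sdiff.1 h1).1
    by_cases hR : v ∈ R
    · have hX' : R ∩ ((A \ B) ∪ (B \ A)) =
          insert v (R ∩ ((A.erase v \ B) ∪ (B \ A.erase v))) := by
        ext u
        simp only [mem_inter, mem_union, mem_sdiff, mem_erase, mem_insert]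
        by_cases huv : u = v
        · subst huv
          simp [hR, hvB, hv]
        · simp [huv]
      rw [hX', sum_powerset_insert hX, ← sum_add_distrib]
      refine sum_congr rfl fun D hD => ?_
      rw [mem_powerset] at hD
      have hvD : v ∉ D := fun h => hX (hD h)
      have h1 : (if Sph M (A ∩ B ∪ insert v D) then
          ∑ F ∈ LbF R (A ∩ B) (insert v D), FS e x k (A ∩ B ∪ insert v D)
            (TF (A ∩ B) F ∪ (insert v D ∩ B)) *
            g (lbl (A.erase v) fun u => (F u).1) (lbl B fun u => (F u).2) else 0) = 0 := by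
        rw [tm_forget_D hE hvD hvB, ite_self]
      rw [h1, add_zero]
      rfl
    · have hX' : R ∩ ((A.erase v \ B) ∪ (B \ A.erase v)) = R ∩ ((A \ B) ∪ (B \ A)) := by
        ext u
        simp only [mem_inter, mem_union, mem_sdiff, mem_erase]
        by_cases huv : u = v
        · subst huv
          simp [hR]
        · simp [huv]
      rw [hX']
      rfl

end Pool.Agent.H4.BD

end

section

/-!
# Project BD: the value of the coefficients at the alternating function
-/

set_option autoImplicit false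
set_option linter.unusedSectionVars false

open Finset

namespace Pool.Agent.H4.BD

open Pool.Agent.H4.FC Pool.Agent.H78.RC Pool.Agent.H65.RA Pool.Agent.H85.VK

variable {S : Type} [Fintype S] [DecidableEq S] {M : CoxeterMatrix S} {R : Finset S}
  {e : S → ℕ} {x : Finset S → ZMod 2} {k : ℕ}

/-- the lexicographic order of the labelled letters -/
def m3 (e : S → ℕ) (q : S × Fin 3) : ℕ := 3 * e q.1 + q.2.1

theorem m3_inj (he : Function.Injective e) : Function.Injective (m3 e) := by
  rintro ⟨v, i⟩ ⟨u, j⟩ h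
  unfold m3 at h
  have h1 : e v = e u := by
    have := i.2
    have := j.2
    simp only at h
    omega
  have h2 : v = u := he h1
  subst h2
  have h3 : i = j := Fin.ext (by simp only at h; omega)
  rw [h3]

theorem lbl_insert (a : S) (C : Finset S) (f : S → Fin 3) :
    lbl (insert a C) f = insert (a, f a) (lbl C f) := image_insert _ _ _

/-- the value for one more letter before the others -/
theorem eP_step {a : S} {C : Finset S} (hlt : ∀ u ∈ C, e a < e u) (f f' : S → Fin 3)
    {i j : Fin 3} (hij : i ≠ j) :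
    eP (m3 e) (insert (a, i) (lbl C f)) (insert (a, j) (lbl C f')) =
      if i < j then eP (m3 e) (lbl C f) (lbl C f') else 0 := by
  classical
  have haC : a ∉ C := fun h => lt_irrefl _ (hlt a h)
  have hrest : ∀ (c : Fin 3), ∀ q ∈ lbl C f ∪ lbl C f', m3 e (a, c) < m3 e q := by
    intro c q hq
    have hq1 : q.1 ∈ C := by
      rcases mem_union.1 hq with h | h
      · exact (mem_lbl.1 h).1
      · exact (mem_lbl.1 h).1
    have h1 := hlt q.1 hq1
    have h2 := c.2
    unfold m3
    simp only
    omega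
  unfold eP
  by_cases hlt' : i < j
  · rw [if_pos hlt']
    have h1 : insert (a, i) (lbl C f) ∪ insert (a, j) (lbl C f') =
        insert (a, i) (insert (a, j) (lbl C f ∪ lbl C f')) := by
      ext q
      simp only [mem_union, mem_insert]
      tauto
    rw [h1, altF_insert, altF_insert]
    · rw [if_pos (by simp), if_pos, Bool.not_not]
      · refine altF_congr fun q hq => ?_
        have h2 : q ≠ (a, i) := by
          rintro rfl
          exact absurd (hrest i _ hq) (lt_irrefl _)
        simp [h2]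
      · have h2 : (a, j) ∉ insert (a, i) (lbl C f) := by
          intro h
          rcases mem_insert.1 h with h | h
          · exact hij (Prod.ext_iff.1 h).2.symm
          · exact haC (mem_lbl.1 h).1
        simp [h2]
    · exact hrest j
    · intro q hq
      rcases mem_insert.1 hq with rfl | h
      · unfold m3
        have h3 : i.1 < j.1 := hlt'
        simp only
        omega
      · exact hrest i q h
  · rw [if_neg hlt']
    have hji : j < i := lt_of_le_of_ne (not_lt.1 hlt') hij.symm
    have h1 : insert (a, i) (lbl C f) ∪ insert (a, j) (lbl C f') =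
        insert (a, j) (insert (a, i) (lbl C f ∪ lbl C f')) := by
      ext q
      simp only [mem_union, mem_insert]
      tauto
    rw [h1, altF_insert]
    · rw [if_neg]
      have h2 : (a, j) ∉ insert (a, i) (lbl C f) := by
        intro h
        rcases mem_insert.1 h with h | h
        · exact hij (Prod.ext_iff.1 h).2.symm
        · exact haC (mem_lbl.1 h).1
      simp [h2]
    · intro q hq
      rcases mem_insert.1 hq with rfl | h
      · unfold m3
        have h3 : j.1 < i.1 := hji
        simp only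
        omega
      · exact hrest j q h

theorem sum_eP3 (he : Function.Injective e) (A : Finset S) :
    ∑ F ∈ LbF R A ∅, eP (m3 e) (lbl A fun v => (F v).1) (lbl A fun v => (F v).2) = 1 := by
  classical
  induction A using Finset.induction_on_min_value e with
  | empty =>
    have h1 : LbF R (∅ : Finset S) ∅ = {fun _ => (0, 0)} := by
      ext F
      unfold LbF WF
      rw [Fintype.mem_piFinset, mem_singleton]
      simp only [notMem_empty, if_false, mem_singleton]
      exact ⟨fun h => funext h, fun h v => congrFun h v⟩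
    rw [h1, sum_singleton]
    have h2 : ∀ a : S → Fin 3, lbl (∅ : Finset S) a = ∅ := fun a => image_empty _
    rw [h2]
    unfold eP
    rw [union_empty]
    exact if_pos (altP_empty _ _ _)
  | insert a C ha hmin ih =>
    have hlt : ∀ u ∈ C, e a < e u := fun u hu =>
      lt_of_le_of_ne (hmin u hu) fun h => ha (he h ▸ hu)
    have h1 : ∀ (F : S → Fin 3 × Fin 3) (p : Fin 3 × Fin 3), p.1 ≠ p.2 →
        eP (m3 e) (lbl (insert a C) fun v => (Function.update F a p v).1)
        (lbl (insert a C) fun v => (Function.update F a p v).2) =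
        if p.1 < p.2 then eP (m3 e) (lbl C fun v => (F v).1) (lbl C fun v => (F v).2) else 0 := by
      intro F p hp
      rw [lbl_insert, lbl_insert]
      simp only [Function.update_self]
      have h2 : (lbl C fun v => (Function.update F a p v).1) = lbl C fun v => (F v).1 :=
        lbl_congr fun v hv => by
          rw [Function.update_of_ne (fun h => ha (h ▸ hv) : v ≠ a)]
      have h3 : (lbl C fun v => (Function.update F a p v).2) = lbl C fun v => (F v).2 :=
        lbl_congr fun v hv => by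
          rw [Function.update_of_ne (fun h => ha (h ▸ hv) : v ≠ a)]
      rw [h2, h3]
      exact eP_step hlt _ _ hp
    rw [← ih]
    by_cases hR : a ∈ R
    · rw [sum_LbF_R ha (notMem_empty a) hR]
      refine sum_congr rfl fun F _ => ?_
      rw [h1 F (0, 1) (by decide), h1 F (1, 0) (by decide), if_pos (by decide),
        if_neg (by decide), add_zero]
    · rw [sum_LbF ha (notMem_empty a) hR]
      refine sum_congr rfl fun F _ => ?_
      rw [sum_K3, h1 F (0, 1) (by decide), h1 F (0, 2) (by decide), h1 F (1, 0) (by decide),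
        h1 F (1, 2) (by decide), h1 F (2, 0) (by decide), h1 F (2, 1) (by decide),
        if_pos (by decide), if_pos (by decide), if_neg (by decide), if_pos (by decide),
        if_neg (by decide), if_neg (by decide)]
      generalize eP (m3 e) (lbl C fun v => (F v).1) (lbl C fun v => (F v).2) = y
      revert y
      decide

/-- `altF` depends only on the order and the colours -/
theorem altF_map {W : Type} [DecidableEq W] {ν : W → ℕ} {χ χ' : W → Bool} {b : Bool}
    {P : Finset W} (h : W → W)
    (hm : ∀ y ∈ P, ∀ z ∈ P, ν (h y) < ν (h z) ↔ ν y < ν z) (hχ : ∀ y ∈ P, χ' (h y) = χ y) :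
    altF ν χ' b (P.image h) = altF ν χ b P := by
  classical
  have h1 : AltP ν χ' b (P.image h) ↔ AltP ν χ b P := by
    unfold AltP
    simp only [forall_mem_image]
    constructor
    · rintro ⟨h2, h3⟩
      refine ⟨fun y hy z hz hyz hc => ?_, fun y hy hc => ?_⟩
      · rw [← hχ y hy, ← hχ z hz]
        refine h2 hy hz ((hm y hy z hz).2 hyz) fun w hw hw' => ?_
        exact hc w hw ⟨(hm y hy w hw).1 hw'.1, (hm w hw z hz).1 hw'.2⟩
      · rw [← hχ y hy]
        refine h3 hy fun w hw => ?_
        by_contra h4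
        exact absurd (hc w hw) (not_le.2 ((hm w hw y hy).1 (not_le.1 h4)))
    · rintro ⟨h2, h3⟩
      refine ⟨fun y hy z hz hyz hc => ?_, fun y hy hc => ?_⟩
      · rw [hχ y hy, hχ z hz]
        refine h2 y hy z hz ((hm y hy z hz).1 hyz) fun w hw hw' => ?_
        exact hc hw ⟨(hm y hy w hw).2 hw'.1, (hm w hw z hz).2 hw'.2⟩
      · rw [hχ y hy]
        refine h3 y hy fun w hw => ?_
        by_contra h4
        exact absurd (hc hw) (not_le.2 ((hm w hw y hy).2 (not_le.1 h4)))
  unfold altF
  exact if_congr h1 rfl rfl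

/-- the label of a letter which is not common does not matter -/
theorem eP_indep (he : Function.Injective e) {A B : Finset S} {v : S} (hv : v ∉ A ∩ B)
    (F : S → Fin 3 × Fin 3) (i : Fin 3) :
    eP (m3 e) (lbl A fun u => (Function.update F v (i, i) u).1)
      (lbl B fun u => (Function.update F v (i, i) u).2) =
      eP (m3 e) (lbl A fun u => (F u).1) (lbl B fun u => (F u).2) := by
  classical
  obtain ⟨h, hh⟩ : ∃ h : S × Fin 3 → S × Fin 3, h = fun q => if q.1 = v then (v, i) else q :=
    ⟨_, rfl⟩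
  have hv1 : ∀ q : S × Fin 3, q.1 = v → h q = (v, i) := fun q hq => by rw [hh]; exact if_pos hq
  have hv2 : ∀ q : S × Fin 3, q.1 ≠ v → h q = q := fun q hq => by rw [hh]; exact if_neg hq
  have hfst : ∀ q : S × Fin 3, (h q).1 = q.1 := by
    intro q
    by_cases hq : q.1 = v
    · rw [hv1 q hq, hq]
    · rw [hv2 q hq]
  have himA : (lbl A fun u => (Function.update F v (i, i) u).1) =
      (lbl A fun u => (F u).1).image h := by
    unfold lbl
    rw [image_image]
    refine image_congr fun u _ => ?_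
    show (u, (Function.update F v (i, i) u).1) = h (u, (F u).1)
    by_cases huv : u = v
    · rw [hv1 _ huv, huv, Function.update_self]
    · rw [hv2 _ huv, Function.update_of_ne huv]
  have himB : (lbl B fun u => (Function.update F v (i, i) u).2) =
      (lbl B fun u => (F u).2).image h := by
    unfold lbl
    rw [image_image]
    refine image_congr fun u _ => ?_
    show (u, (Function.update F v (i, i) u).2) = h (u, (F u).2)
    by_cases huv : u = v
    · rw [hv1 _ huv, huv, Function.update_self]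
    · rw [hv2 _ huv, Function.update_of_ne huv]
  unfold eP
  rw [himA, himB, ← image_union]
  -- two elements over `v` are equal
  have huniq : ∀ y ∈ (lbl A fun u => (F u).1) ∪ (lbl B fun u => (F u).2),
      ∀ z ∈ (lbl A fun u => (F u).1) ∪ (lbl B fun u => (F u).2), y.1 = v → z.1 = v → y = z := by
    intro y hy z hz hy1 hz1
    rw [mem_union, mem_lbl, mem_lbl, hy1] at hy
    rw [mem_union, mem_lbl, mem_lbl, hz1] at hz
    refine Prod.ext (hy1.trans hz1.symm) ?_
    rcases hy with hy | hy <;> rcases hz with hz | hz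
    · rw [hy.2, hz.2]
    · exact absurd (mem_inter.2 ⟨hy.1, hz.1⟩) hv
    · exact absurd (mem_inter.2 ⟨hz.1, hy.1⟩) hv
    · rw [hy.2, hz.2]
  have hlt : ∀ y z : S × Fin 3, y.1 ≠ z.1 → (m3 e y < m3 e z ↔ e y.1 < e z.1) := by
    intro y z hyz
    have h1 : e y.1 ≠ e z.1 := fun h' => hyz (he h')
    have h2 := y.2.2
    have h3 := z.2.2
    unfold m3
    omega
  refine altF_map h ?_ ?_
  · intro y hy z hz
    by_cases hyz : y.1 = z.1
    · by_cases hyv : y.1 = v
      · rw [huniq y hy z hz hyv (hyz.symm.trans hyv)]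
        simp
      · rw [hv2 y hyv, hv2 z (fun h' => hyv (hyz.trans h'))]
    · rw [hlt _ _ (by rw [hfst, hfst]; exact hyz), hlt _ _ hyz, hfst, hfst]
  · intro y hy
    rw [decide_eq_decide]
    constructor
    · intro h1
      obtain ⟨y', hy', hyy⟩ := mem_image.1 h1
      have h2 : y'.1 = y.1 := by rw [← hfst y', hyy, hfst]
      by_cases hyv : y.1 = v
      · rw [← huniq y' (mem_union_left _ hy') y hy (h2.trans hyv) hyv]
        exact hy'
      · rw [hv2 y hyv, hv2 y' (fun h' => hyv (h2.symm.trans h'))] at hyy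
        rwa [← hyy]
    · intro h1
      exact mem_image_of_mem h h1

/-- the value of the coefficients at the alternating function -/
theorem Qh_eP (he : Function.Injective e) {A B : Finset S} (hA : Sph M A) (hB : Sph M B)
    (hAc : A.card = k + 1) (hBc : B.card = k + 1) :
    Qh M R e x k (eP (m3 e)) A B = if A = B then x A else 0 := by
  classical
  rw [Qh_pos _ hA hB]
  by_cases hAB : A = B
  · subst hAB
    rw [if_pos rfl]
    have h1 : R ∩ ((A \ A) ∪ (A \ A)) = ∅ := by
      rw [Finset.sdiff_self, union_empty, inter_empty]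
    rw [h1, powerset_empty, sum_singleton, inter_self, union_empty, if_pos hA]
    unfold tm
    have h2 : ∀ F ∈ LbF R A ∅, FS e x k (A ∪ ∅) (TF A F ∪ (∅ ∩ A)) *
        eP (m3 e) (lbl A fun v => (F v).1) (lbl A fun v => (F v).2) =
        x A * eP (m3 e) (lbl A fun v => (F v).1) (lbl A fun v => (F v).2) := by
      intro F _
      rw [union_empty, FS_top e x k _ hAc]
    rw [sum_congr rfl h2, ← mul_sum, sum_eP3 he A, mul_one]
  · rw [if_neg hAB]
    refine sum_eq_zero fun D hD => ?_
    rw [mem_powerset] at hD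
    by_cases hS : Sph M ((A ∩ B) ∪ D)
    · rw [if_pos hS]
      rcases D.eq_empty_or_nonempty with rfl | ⟨v, hvD⟩
      · unfold tm
        have h1 : (A ∩ B).card ≤ k := by
          by_contra h
          have h3 : A ∩ B = A := eq_of_subset_of_card_le inter_subset_left (by
            rw [hAc]
            omega)
          have h4 : A = B := eq_of_subset_of_card_le (inter_eq_left.1 h3) (by
            rw [hAc, hBc])
          exact hAB h4
        refine sum_eq_zero fun F _ => ?_
        rw [union_empty, FS_small e x k _ h1, zero_mul]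
      · obtain ⟨D', hvD', rfl⟩ : ∃ D', v ∉ D' ∧ D = insert v D' :=
          ⟨D.erase v, notMem_erase v D, (insert_erase hvD).symm⟩
        have h1 := (mem_inter.1 (hD hvD)).2
        have hE : v ∉ A ∩ B := by
          intro h
          rw [mem_inter] at h
          rcases mem_union.1 h1 with h2 | h2
          · exact (mem_sdiff.1 h2).2 h.2
          · exact (mem_sdiff.1 h2).2 h.1
        unfold tm
        rw [sum_LbF_D hE hvD']
        refine sum_eq_zero fun F _ => ?_
        rw [TF_update hE, TF_update hE, eP_indep he hE, eP_indep he hE]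
        exact z2_add_self _
    · rw [if_neg hS]

end Pool.Agent.H4.BD

end

section

/-!
# Project BD: coherent coefficients for every nerve

Two labels at the right-angled letters and three labels at the other letters are enough.
-/

set_option autoImplicit false
set_option linter.unusedSectionVars false

open Finset

namespace Pool.Agent.H4.BD

open Pool.Agent.H4.FC Pool.Agent.H78.RC Pool.Agent.H65.RA Pool.Agent.H85.VK

variable {S : Type} [Fintype S] [DecidableEq S]

/-- there are coherent coefficients with the labels `Lb` for every cocycle of the nerve -/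
def HasCoef (M : CoxeterMatrix S) (Lb : Type) [DecidableEq Lb] [VLb S Lb] : Prop :=
  ∀ (k : ℕ) (x : Finset S → ZMod 2),
    (∀ D, Sph M D → D.card = k + 2 → ∑ v ∈ D, x (D.erase v) = 0) →
    ∃ Q : (Finset (S × Lb) → Finset (S × Lb) → ZMod 2) → Finset S → Finset S → ZMod 2,
      IsCoef M Q ∧ ∃ μ : S × Lb → ℕ, Function.Injective μ ∧ ∀ z : Finset S → ZMod 2,
        (∀ T, z T ≠ 0 → Sph M T ∧ T.card = k + 1) → (∀ T, ∑ v ∈ Tᶜ, z (insert v T) = 0) →
        ∑ A, ∑ B, z A * z B * Q (eP μ) A B = ∑ T, x T * z T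

/-- the label `2` is not allowed at the letters in `R` -/
abbrev vlb (R : Finset S) : VLb S (Fin 3) := ⟨fun q => q.1 ∈ R → q.2 ≠ 2⟩

/-- **Two labels at the right-angled letters and three labels at the other letters are enough.** -/
theorem hasCoef_mix {M : CoxeterMatrix S} {R : Finset S}
    (hRA : ∀ v ∈ R, ∀ t, t ≠ v → M v t = 2 ∨ M v t = 0) :
    @HasCoef S _ _ M (Fin 3) _ (vlb R) := by
  classical
  intro k x hx
  letI : VLb S (Fin 3) := vlb R
  obtain ⟨e, he⟩ : ∃ e : S → ℕ, Function.Injective e :=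
    ⟨fun s => (Fintype.equivFin S s).1, fun s t h =>
      (Fintype.equivFin S).injective (Fin.ext h)⟩
  have hleft : ∀ (n : ℕ) (g : Finset (S × Fin 3) → Finset (S × Fin 3) → ZMod 2)
      (A A' B : Finset S), (A \ A').card = n → Sph M A → Sph M B → A' ⊆ A →
      Qh M R e x k (fun a b => g (rs A' a) b) A B = Qh M R e x k g A' B := by
    intro n
    induction n with
    | zero =>
      intro g A A' B hn hA hB hAA
      have h1 : A = A' := by
        rw [card_eq_zero, sdiff_eq_empty_iff_subset] at hn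
        exact Subset.antisymm hn hAA
      subst h1
      refine Qh_congr _ _ _ _ fun a b ha _ _ _ _ => ?_
      have h2 : rs A a = a := filter_true_of_mem ha.1
      rw [h2]
    | succ n ih =>
      intro g A A' B hn hA hB hAA
      obtain ⟨v, hv⟩ : (A \ A').Nonempty := card_pos.1 (by omega)
      rw [mem_sdiff] at hv
      have h1 : A' ⊆ A.erase v := fun w hw =>
        mem_erase.2 ⟨fun h => hv.2 (h ▸ hw), hAA hw⟩
      have h2 : ((A.erase v) \ A').card = n := by
        rw [erase_sdiff_comm, card_erase_of_mem (mem_sdiff.2 hv), hn]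
        rfl
      rw [← ih g (A.erase v) A' B h2 (hA.mono (erase_subset _ _)) hB h1,
        ← Qh_forget hRA _ hA hB hv.1]
      refine Qh_congr _ _ _ _ fun a b _ _ _ _ _ => ?_
      congr 1
      unfold rs
      rw [filter_filter]
      refine filter_congr fun q _ => ?_
      exact ⟨fun h => ⟨h1 h, h⟩, fun h => h.2⟩
  have hswap := fun g A B => Qh_swap (R := R) he hx g A B
  refine ⟨Qh M R e x k, ⟨?_, ?_, ?_, ?_, hswap⟩, m3 e, m3_inj he, ?_⟩
  · intro g g' A B
    unfold Qh
    split_ifs
    · rw [← sum_add_distrib]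
      refine sum_congr rfl fun D _ => ?_
      split_ifs
      · unfold tm
        rw [← sum_add_distrib]
        exact sum_congr rfl fun F _ => mul_add _ _ _
      · rw [add_zero]
    · rw [add_zero]
  · intro g g' A B _ _ h
    exact Qh_congr g g' A B fun a b ha hb hab ha' hb' => h a b ha hb ha' hb' hab
  · intro g A A' B hA hB h
    exact hleft _ g A A' B rfl hA hB h
  · intro g A B B' hA hB h
    rw [hswap, hswap g]
    exact hleft _ (fun a b => g b a) B B' A rfl hB hA h
  · intro z hz _
    refine sum_congr rfl fun A _ => ?_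
    by_cases hA : z A = 0
    · simp only [hA, zero_mul, mul_zero, sum_const_zero]
    rw [sum_eq_single A]
    · rw [Qh_eP he (hz A hA).1 (hz A hA).1 (hz A hA).2 (hz A hA).2, if_pos rfl]
      generalize z A = y
      generalize x A = y'
      revert y y'
      decide
    · intro B _ hBA
      by_cases hB : z B = 0
      · rw [hB, mul_zero, zero_mul]
      rw [Qh_eP he (hz A hA).1 (hz B hB).1 (hz A hA).2 (hz B hB).2, if_neg (Ne.symm hBA), mul_zero]
    · intro h
      exact absurd (mem_univ A) h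

end Pool.Agent.H4.BD

end

section

/-!
# Project BLD: bounded elements

* `conj_le`: `par_induction` (for `u ∈ W_J` there is `m` such that `len (y⁻¹ u y) ≤ m` for all `y` with
  `len (y⁻¹ t y) ≤ D`, `t ∈ J`): `y⁻¹ (t u) y = (y⁻¹ t y) (y⁻¹ u y)`.
* `bound`: induction on the number of elements of `univ \ J`, for all `D`. Let `y` be as stated; `par_dec`:
  `y = a b`. For `t ∈ J`, `u = a⁻¹ t a ∈ W_J`: `len u ≤ len (u b) - len b ≤ len (b⁻¹ u b) = len (y⁻¹ t y) ≤ D` (`len_par_mul`,
  `len_mul_le`), so `a` is in the finite set `cen_fin M J D`; let `A` bound the lengths of its elements, and `m` the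
  maximum of the `m` of `conj_le` for `u = a⁻¹`, `a` in this set. `len (y⁻¹ b) = len (y⁻¹ a⁻¹ y) ≤ m`. If `b = 1`: `len y ≤ A`.
  Otherwise `b` has a left descent `t'` (`exists_left`), `t' ∉ J`; it is not a left descent of `y`. So `α_{t'} ∈ Nv b \ Nv y`,
  `refl_short`: `len (y⁻¹ t' y) ≤ 2 m`. Use the induction hypothesis for `insert t' J` and `max D (2 m)`. `L` = the maximum
  of `A` and of these bounds for the `t' ∉ J`. (For `J = univ` always `b = 1`.)
-/

set_option autoImplicit false

open Finset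

namespace Pool.Agent.H97.BLD

open Pool.Agent.H4.FC Pool.Agent.H78.RC

variable {S : Type} [Fintype S] [DecidableEq S] (M : CoxeterMatrix S)

theorem conj_le (J : Finset S) (D : ℕ) {u : M.Group} (hu : u ∈ par M J) : ∃ m : ℕ, ∀ y : M.Group,
    (∀ t ∈ J, len M (y⁻¹ * M.simple t * y) ≤ D) → len M (y⁻¹ * u * y) ≤ m := by
  refine par_induction M J (p := fun u => ∃ m : ℕ, ∀ y : M.Group,
    (∀ t ∈ J, len M (y⁻¹ * M.simple t * y) ≤ D) → len M (y⁻¹ * u * y) ≤ m) ?_ ?_ u hu
  · refine ⟨0, fun y _ => ?_⟩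
    rw [mul_one, inv_mul_cancel, len_one]
  · rintro t ht w ⟨m, hm⟩
    refine ⟨D + m, fun y hy => ?_⟩
    have h1 : y⁻¹ * (M.simple t * w) * y = (y⁻¹ * M.simple t * y) * (y⁻¹ * w * y) := by group
    rw [h1]
    exact (len_mul_le M _ _).trans (add_le_add (hy t ht) (hm y hy))

theorem bound (J : Finset S) (D : ℕ) : ∃ L : ℕ, ∀ y : M.Group,
    (∀ s, len M (M.simple s * y) + 1 = len M y → s ∈ J) →
    (∀ t ∈ J, len M (y⁻¹ * M.simple t * y) ≤ D) → len M y ≤ L := by
  classical
  induction hk : (univ \ J).card using Nat.strong_induction_on generalizing J D with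
  | _ k ih =>
    obtain ⟨F, hF⟩ : ∃ F : Finset M.Group, ∀ a, a ∈ F ↔
        a ∈ par M J ∧ ∀ t ∈ J, len M (a⁻¹ * M.simple t * a) ≤ D :=
      ⟨(cen_fin M J D).toFinset, fun a => by rw [Set.Finite.mem_toFinset]; rfl⟩
    have hm0 : ∀ a : M.Group, ∃ m : ℕ, a ∈ par M J → ∀ y : M.Group,
        (∀ t ∈ J, len M (y⁻¹ * M.simple t * y) ≤ D) → len M (y⁻¹ * a⁻¹ * y) ≤ m := by
      intro a
      by_cases ha : a ∈ par M J
      · obtain ⟨m, hm⟩ := conj_le M J D (inv_mem ha)
        exact ⟨m, fun _ => hm⟩
      · exact ⟨0, fun h => absurd h ha⟩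
    choose mf hmf using hm0
    have hL0 : ∀ t' : S, ∃ L : ℕ, t' ∉ J → ∀ y : M.Group,
        (∀ s, len M (M.simple s * y) + 1 = len M y → s ∈ insert t' J) →
        (∀ t ∈ insert t' J, len M (y⁻¹ * M.simple t * y) ≤ max D (2 * F.sup mf)) →
        len M y ≤ L := by
      intro t'
      by_cases ht' : t' ∈ J
      · exact ⟨0, fun h => absurd ht' h⟩
      · have hlt : (univ \ insert t' J).card < k := by
          rw [← hk]
          refine card_lt_card ⟨sdiff_subset_sdiff (Subset.refl _) (subset_insert _ _), fun h => ?_⟩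
          have h1 := h (mem_sdiff.2 ⟨mem_univ t', ht'⟩)
          exact (mem_sdiff.1 h1).2 (mem_insert_self _ _)
        obtain ⟨L, hL⟩ := ih _ hlt (insert t' J) (max D (2 * F.sup mf)) rfl
        exact ⟨L, fun _ => hL⟩
    choose Lf hLf using hL0
    refine ⟨F.sup (len M) + ∑ t', Lf t', fun y hd hy => ?_⟩
    obtain ⟨a, ha, b, hyab, hb⟩ := par_dec M J y
    have haF : a ∈ F := by
      refine (hF a).2 ⟨ha, fun t ht => ?_⟩
      have hu : a⁻¹ * M.simple t * a ∈ par M J :=
        mul_mem (mul_mem (inv_mem ha) (simple_mem_par M ht)) ha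
      have h1 := len_par_mul M hu hb
      have h2 : a⁻¹ * M.simple t * a * b = b * (y⁻¹ * M.simple t * y) := by
        rw [hyab]; group
      have h3 := len_mul_le M b (y⁻¹ * M.simple t * y)
      rw [← h2] at h3
      have h4 := hy t ht
      omega
    have h5 : len M (y⁻¹ * b) ≤ F.sup mf := by
      have h6 : y⁻¹ * b = y⁻¹ * a⁻¹ * y := by
        rw [hyab]; group
      rw [h6]
      exact (hmf a ha y hy).trans (le_sup (f := mf) haF)
    by_cases hb1 : b = 1
    · have h7 : y = a := by rw [hyab, hb1, mul_one]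
      rw [h7]
      exact (le_sup (f := len M) haF).trans (Nat.le_add_right _ _)
    · obtain ⟨t', ht'⟩ := exists_left M hb1
      have htJ : t' ∉ J := fun h => by
        have h8 := hb t' h
        omega
      have hup : len M (M.simple t' * y) = len M y + 1 := by
        rcases len_simple_mul M y t' with h9 | h9
        · exact h9
        · exact absurd (hd t' h9) htJ
      have h10 : (Pi.single t' 1 : S → ℝ) ∈ Nv M b :=
        ⟨isRoot_simple M t', single_nonneg t', (len_down_iff' M b t').1 ht'⟩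
      have h11 : (Pi.single t' 1 : S → ℝ) ∉ Nv M y :=
        (not_mem_Nv M (isRoot_simple M t') (single_nonneg t')).2 ((len_up_iff' M y t').1 hup)
      have h12 := refl_short M (T_simple M t') h10 h11
      have h13 : len M y ≤ Lf t' := by
        refine hLf t' htJ y (fun s hs => mem_insert_of_mem (hd s hs)) fun t ht => ?_
        rcases mem_insert.1 ht with h14 | h14
        · rw [h14]
          exact (h12.trans (Nat.mul_le_mul_left 2 h5)).trans (le_max_right _ _)
        · exact (hy t h14).trans (le_max_left _ _)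
      exact h13.trans ((single_le_sum (f := Lf) (fun _ _ => Nat.zero_le _) (mem_univ t')).trans
        (Nat.le_add_left _ _))

end Pool.Agent.H97.BLD

end

section

/-!
# Project BLD: minimal elements of half-spaces

* `exists_small`: `L` = the maximum over `s` of the bounds of `bound` for `J = {s}`. Given `p`, let `z` be an element of
  minimal length with `Le M z p`, `β ∈ Nv M z`. `z ≠ 1` (`Nv_one`). For every right descent `s` of `z`, `z s ≤ z ≤ p`, so
  `β ∉ Nv (z s)` and `β = -z α_s` (`Nv_down`). So there is exactly one right descent `s` (`z α_s = z α_{s'}` gives `s = s'`).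
  `y = z⁻¹`: its left descents are the right descents of `z`; `y⁻¹ s y = z s z⁻¹ = r` (`T_conj`, `T_ext`), `len r ≤ D`.
-/

set_option autoImplicit false

open Finset

namespace Pool.Agent.H97.BLD

open Pool.Agent.H4.FC Pool.Agent.H78.RC

variable {S : Type} [Fintype S] [DecidableEq S] (M : CoxeterMatrix S)

theorem exists_small (D : ℕ) : ∃ L : ℕ, ∀ (r : M.Group) (β : S → ℝ), len M r ≤ D →
    (∀ x, T M r x = x - bf (kR M) β x • β) → ∀ p, β ∈ Nv M p →
      ∃ z, Le M z p ∧ β ∈ Nv M z ∧ len M z ≤ L := by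
  classical
  choose L hL using fun s : S => bound M {s} D
  refine ⟨Finset.univ.sup L, fun r β hr hβr p hp => ?_⟩
  have hex : ∃ n, ∃ z, len M z = n ∧ Le M z p ∧ β ∈ Nv M z :=
    ⟨len M p, p, rfl, by unfold Le; rw [inv_mul_cancel, len_one, Nat.add_zero], hp⟩
  obtain ⟨z, hz1, hz2, hz3⟩ := Nat.find_spec hex
  have hmin : ∀ y, len M y < len M z → Le M y p → β ∉ Nv M y := by
    intro y hy hyp hyβ
    rw [hz1] at hy
    exact Nat.find_min hex hy ⟨y, rfl, hyp, hyβ⟩
  refine ⟨z, hz2, hz3, ?_⟩
  have hdesc : ∀ s, len M (z * M.simple s) + 1 = len M z → β = -T M z (Pi.single s 1) := by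
    intro s hs
    have h1 : Le M (z * M.simple s) z := by
      unfold Le
      rw [mul_inv_rev, mul_assoc, inv_mul_cancel, mul_one, simple_inv, len_simple]
      exact hs
    have h2 := hmin (z * M.simple s) (by omega) (le_trans' M h1 hz2)
    have h3 := (Nv_down M hs).2
    rw [h3] at hz3
    rcases hz3 with h4 | h4
    · exact h4
    · exact absurd h4 h2
  have hne : z ≠ 1 := by
    rintro rfl
    rw [Nv_one] at hz3
    exact hz3
  obtain ⟨s, hs⟩ := exists_right M hne
  have hβ := hdesc s hs
  have hrz : z * M.simple s * z⁻¹ = r := by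
    refine T_ext M fun x => ?_
    rw [T_conj, hβr, hβ]
    have h1 : bf (kR M) (-T M z (Pi.single s 1)) x = -bf (kR M) (T M z (Pi.single s 1)) x := by
      rw [← neg_one_smul ℝ (T M z (Pi.single s 1)), bf_smul_left]
      ring
    rw [h1, neg_smul, smul_neg, neg_neg]
  have h5 := hL s z⁻¹ (fun s' hs' => ?_) (fun t ht => ?_)
  · rw [len_inv] at h5
    exact h5.trans (Finset.le_sup (Finset.mem_univ s))
  · rw [mem_singleton]
    have h6 : len M (z * M.simple s') + 1 = len M z := by
      rw [← len_inv M (z * M.simple s'), mul_inv_rev, simple_inv, hs', len_inv]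
    have h7 := hdesc s' h6
    rw [hβ, neg_inj] at h7
    have h8 := congrArg (T M z⁻¹) h7
    rw [T_inv_T, T_inv_T] at h8
    by_contra h9
    have h10 := congrFun h8 s
    rw [Pi.single_eq_same, Pi.single_eq_of_ne (fun h => h9 h.symm)] at h10
    exact one_ne_zero h10
  · rw [mem_singleton] at ht
    rw [ht, inv_inv, hrz]
    exact hr

end Pool.Agent.H97.BLD

end

section

/-!
# Project BLD: common lower bounds in the weak order

* `retreat`: `γ ∈ Nv v`, reflection `t` of `γ`. `r = v⁻¹ t v` is the reflection in `β = -v⁻¹ γ ≥ 0` (`bf_T_left`), and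
  `β ∈ Nv (v⁻¹)` (`v β = -γ ≤ 0`). `exists_small` with `p = v⁻¹`: `z ≤ v⁻¹`, `β ∈ Nv z`, `len z ≤ L`. Put `v' = v z`:
  `Le M v' v`: `v'⁻¹ v = z⁻¹`, `len (v z) = len (z⁻¹ v⁻¹) = len v - len z`. `γ ∉ Nv v'`: `v'⁻¹ γ = z⁻¹ v⁻¹ γ = -z⁻¹ β ≥ 0`.
* `exists_lower`: induction on `R`: for `R + 1` let `F'` be the number for `R`. `w⁻¹ w' ≠ 1`: write `w' = w'' s` with
  `len (w⁻¹ w'') = len (w⁻¹ w') - 1` (`exists_right`). `v ≤ w, w''`, `len (v⁻¹ w) ≤ F'`. If `len w' = len w'' + 1` then `v ≤ w'' ≤ w'`. If
  `len w' + 1 = len w''` then `Nv w'' = insert γ (Nv w')`, `γ = -w'' α_s` (`Nv_down`). If `γ ∉ Nv v` then `Nv v ⊆ Nv w'`. If `γ ∈ Nv v`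
  then the reflection `t = w'' s w''⁻¹` of `γ` has `len (v⁻¹ t v) ≤ 2 len (v⁻¹ w'') + 1 ≤ 2 (F' + R + 1) + 1`; `retreat` gives `v' ≤ v` with
  `γ ∉ Nv v'`, so `Nv v' ⊆ Nv w'`. `F = F' + ` the number of `retreat` for `D = 2 (F' + R + 1) + 1`.
-/

set_option autoImplicit false

open Finset

namespace Pool.Agent.H97.BLD

open Pool.Agent.H4.FC Pool.Agent.H78.RC

variable {S : Type} [Fintype S] [DecidableEq S] (M : CoxeterMatrix S)

theorem retreat (D : ℕ) : ∃ L : ℕ, ∀ (v t : M.Group) (γ : S → ℝ), len M (v⁻¹ * t * v) ≤ D →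
    (∀ x, T M t x = x - bf (kR M) γ x • γ) → γ ∈ Nv M v →
      ∃ v', Le M v' v ∧ γ ∉ Nv M v' ∧ len M (v'⁻¹ * v) ≤ L := by
  obtain ⟨L, hL⟩ := exists_small M D
  refine ⟨L, fun v t γ hD ht hγ => ?_⟩
  obtain ⟨hr, h0, h1⟩ := hγ
  have hrefl : ∀ x, T M (v⁻¹ * t * v) x =
      x - bf (kR M) (-T M v⁻¹ γ) x • (-T M v⁻¹ γ) := by
    intro x
    have e1 : bf (kR M) (T M v⁻¹ γ) x = bf (kR M) γ (T M v x) := by
      rw [bf_T_left, inv_inv]
    have e2 : bf (kR M) (-T M v⁻¹ γ) x = -bf (kR M) (T M v⁻¹ γ) x := by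
      rw [← neg_one_smul ℝ (T M v⁻¹ γ), bf_smul_left, neg_one_mul]
    rw [T_mul, T_mul, ht, T_sub, T_inv_T, T_smul, e2, e1]
    module
  have hmem : -T M v⁻¹ γ ∈ Nv M v⁻¹ := by
    refine ⟨isRoot_neg M (isRoot_T M hr v⁻¹), fun i => ?_, fun i => ?_⟩
    · have := h1 i
      rw [Pi.neg_apply]
      linarith
    · rw [inv_inv, T_neg, T_T_inv, Pi.neg_apply]
      have := h0 i
      linarith
  obtain ⟨z, hz, hzβ, hzL⟩ := hL (v⁻¹ * t * v) (-T M v⁻¹ γ) hD hrefl v⁻¹ hmem
  have e3 : (v * z)⁻¹ * v = z⁻¹ := by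
    rw [mul_inv_rev, mul_assoc, inv_mul_cancel, mul_one]
  refine ⟨v * z, ?_, ?_, ?_⟩
  · unfold Le at hz ⊢
    rw [e3, len_inv, ← len_inv M (v * z), mul_inv_rev, add_comm, hz, len_inv]
  · rintro ⟨-, -, h3⟩
    have h4 : T M (v * z)⁻¹ γ = -T M z⁻¹ (-T M v⁻¹ γ) := by
      rw [mul_inv_rev, T_mul, T_neg, neg_neg]
    have h5 : ∀ i, 0 ≤ T M (v * z)⁻¹ γ i := by
      intro i
      have := hzβ.2.2 i
      rw [h4, Pi.neg_apply]
      linarith
    exact root_not_neg M (isRoot_T M hr (v * z)⁻¹) h5 h3
  · rw [e3, len_inv]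
    exact hzL

theorem exists_lower (R : ℕ) : ∃ F : ℕ, ∀ w w' : M.Group, len M (w⁻¹ * w') ≤ R →
    ∃ v, Le M v w ∧ Le M v w' ∧ len M (v⁻¹ * w) ≤ F := by
  have hself : ∀ w : M.Group, Le M w w := by
    intro w
    unfold Le
    rw [inv_mul_cancel, len_one, add_zero]
  have hone : ∀ (F : ℕ) (w w' : M.Group), w⁻¹ * w' = 1 →
      ∃ v, Le M v w ∧ Le M v w' ∧ len M (v⁻¹ * w) ≤ F := by
    intro F w w' h
    have hw : w = w' := by
      rw [inv_mul_eq_one] at h
      exact h
    subst hw
    refine ⟨w, hself w, hself w, ?_⟩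
    rw [inv_mul_cancel, len_one]
    exact Nat.zero_le _
  induction R with
  | zero =>
    refine ⟨0, fun w w' h => hone 0 w w' ?_⟩
    exact (len_eq_zero M).1 (Nat.le_zero.1 h)
  | succ R ih =>
    obtain ⟨F', hF'⟩ := ih
    obtain ⟨L, hL⟩ := retreat M (2 * (F' + (R + 1)) + 1)
    refine ⟨F' + L, fun w w' h => ?_⟩
    by_cases h1 : w⁻¹ * w' = 1
    · exact hone _ w w' h1
    obtain ⟨s, hs⟩ := exists_right M h1
    obtain ⟨v, hv1, hv2, hv3⟩ := hF' w (w' * M.simple s) (by
      rw [← mul_assoc]
      omega)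
    rcases len_mul_simple M w' s with h2 | h2
    · obtain ⟨-, hN⟩ := Nv_up M h2
      by_cases hγ : T M w' (Pi.single s 1) ∈ Nv M v
      · have hlen : len M (v⁻¹ * (w' * M.simple s * w'⁻¹) * v) ≤ 2 * (F' + (R + 1)) + 1 := by
          have e1 : v⁻¹ * (w' * M.simple s * w'⁻¹) * v =
              (v⁻¹ * w * (w⁻¹ * w')) * M.simple s * (v⁻¹ * w * (w⁻¹ * w'))⁻¹ := by
            group
          have e2 := len_mul_le M ((v⁻¹ * w * (w⁻¹ * w')) * M.simple s)
            (v⁻¹ * w * (w⁻¹ * w'))⁻¹
          have e3 := len_mul_le M (v⁻¹ * w * (w⁻¹ * w')) (M.simple s)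
          have e4 := len_mul_le M (v⁻¹ * w) (w⁻¹ * w')
          rw [len_inv] at e2
          rw [len_simple] at e3
          rw [e1]
          omega
        obtain ⟨v', hv'1, hv'2, hv'3⟩ := hL v (w' * M.simple s * w'⁻¹)
          (T M w' (Pi.single s 1)) hlen (T_conj M w' s) hγ
        refine ⟨v', le_trans' M hv'1 hv1, ?_, ?_⟩
        · rw [le_iff] at hv'1 hv2 ⊢
          intro β hβ
          have h3 := hv2 (hv'1 hβ)
          rw [hN] at h3
          rcases h3 with h3 | h3
          · rw [h3] at hβ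
            exact absurd hβ hv'2
          · exact h3
        · have e5 : v'⁻¹ * w = v'⁻¹ * v * (v⁻¹ * w) := by group
          have e6 := len_mul_le M (v'⁻¹ * v) (v⁻¹ * w)
          rw [e5]
          omega
      · refine ⟨v, hv1, ?_, by omega⟩
        rw [le_iff] at hv2 ⊢
        intro β hβ
        have h3 := hv2 hβ
        rw [hN] at h3
        rcases h3 with h3 | h3
        · rw [h3] at hβ
          exact absurd hβ hγ
        · exact h3
    · refine ⟨v, hv1, le_trans' M hv2 ?_, by omega⟩
      unfold Le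
      have e1 : (w' * M.simple s)⁻¹ * w' = (M.simple s)⁻¹ := by group
      rw [e1, len_inv, len_simple]
      exact h2

end Pool.Agent.H97.BLD

end

section

/-!
# Project BLD: common lower bounds of sets in the weak order

* `exists_lower_set`: `X` is finite, with at most `N` elements (the number of elements of the ball of radius `R`). For
  a list of `m` elements at mutual distance `≤ R` there is a common lower bound at distance `≤ F_m` from all of them:
  induction on `m`: `v ≤ w_1, …, w_m`; `exists_lower` for `v`, `w_{m+1}` with `len (v⁻¹ w_{m+1}) ≤ F_m + R` gives `v' ≤ v, w_{m+1}`.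
  Put `F = max_{m ≤ N} F_m` (or take `F_m` monotone).
-/

set_option autoImplicit false

open Finset

namespace Pool.Agent.H97.BLD

open Pool.Agent.H4.FC Pool.Agent.H78.RC

variable {S : Type} [Fintype S] [DecidableEq S] (M : CoxeterMatrix S)

omit [Fintype S] [DecidableEq S] in
private theorem low_dist (u v w : M.Group) : len M (u⁻¹ * w) ≤ len M (u⁻¹ * v) + len M (v⁻¹ * w) := by
  have h := len_mul_le M (u⁻¹ * v) (v⁻¹ * w)
  have h1 : u⁻¹ * v * (v⁻¹ * w) = u⁻¹ * w := by group
  rwa [h1] at h

omit [Fintype S] [DecidableEq S] in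
private theorem low_refl (w : M.Group) : Le M w w := by
  unfold Le
  rw [inv_mul_cancel, len_one, add_zero]

private theorem low_card (R m : ℕ) : ∃ F : ℕ, ∀ X : Finset M.Group, X.card ≤ m →
    (∀ w ∈ X, ∀ w' ∈ X, len M (w⁻¹ * w') ≤ R) →
      ∃ v, ∀ w ∈ X, Le M v w ∧ len M (v⁻¹ * w) ≤ F := by
  classical
  induction m with
  | zero =>
    refine ⟨0, fun X hX _ => ⟨1, fun w hw => ?_⟩⟩
    rw [card_eq_zero.1 (Nat.le_zero.1 hX)] at hw
    exact absurd hw (notMem_empty w)
  | succ m ih =>
    obtain ⟨F, hF⟩ := ih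
    obtain ⟨G, hG⟩ := exists_lower M (F + R)
    refine ⟨G + F + R, fun X hX hR => ?_⟩
    rcases X.eq_empty_or_nonempty with h0 | ⟨a, ha⟩
    · refine ⟨1, fun w hw => ?_⟩
      rw [h0] at hw
      exact absurd hw (notMem_empty w)
    · have hY : (X.erase a).card ≤ m := by
        rw [card_erase_of_mem ha]
        omega
      obtain ⟨v, hv⟩ := hF (X.erase a) hY fun w hw w' hw' =>
        hR w (mem_of_mem_erase hw) w' (mem_of_mem_erase hw')
      rcases (X.erase a).eq_empty_or_nonempty with h1 | ⟨b, hb⟩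
      · refine ⟨a, fun w hw => ?_⟩
        have h2 : w = a := by
          by_contra h3
          have h4 := mem_erase.2 ⟨h3, hw⟩
          rw [h1] at h4
          exact absurd h4 (notMem_empty w)
        rw [h2]
        refine ⟨low_refl M a, ?_⟩
        rw [inv_mul_cancel, len_one]
        exact Nat.zero_le _
      · have h2 := low_dist M v b a
        have h3 := (hv b hb).2
        have h4 := hR b (mem_of_mem_erase hb) a ha
        obtain ⟨v', h5, h6, h7⟩ := hG v a (by omega)
        refine ⟨v', fun w hw => ?_⟩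
        by_cases hwa : w = a
        · rw [hwa]
          have h8 := low_dist M v' v a
          exact ⟨h6, by omega⟩
        · obtain ⟨h8, h9⟩ := hv w (mem_erase.2 ⟨hwa, hw⟩)
          have h10 := low_dist M v' v w
          exact ⟨le_trans' M h5 h8, by omega⟩

theorem exists_lower_set (R : ℕ) : ∃ F : ℕ, ∀ X : Set M.Group,
    (∀ w ∈ X, ∀ w' ∈ X, len M (w⁻¹ * w') ≤ R) →
      ∃ v, ∀ w ∈ X, Le M v w ∧ len M (v⁻¹ * w) ≤ F := by
  classical
  obtain ⟨B, hB⟩ : ∃ B : Finset M.Group, B = (len_finite M R).toFinset := ⟨_, rfl⟩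
  obtain ⟨F, hF⟩ := low_card M R B.card
  refine ⟨F, fun X hX => ?_⟩
  rcases X.eq_empty_or_nonempty with h0 | ⟨a, ha⟩
  · refine ⟨1, fun w hw => ?_⟩
    rw [h0] at hw
    exact absurd hw (Set.notMem_empty w)
  · have h1 : X ⊆ ((B.image fun w => a * w : Finset M.Group) : Set M.Group) := by
      intro w hw
      rw [mem_coe, mem_image]
      refine ⟨a⁻¹ * w, ?_, mul_inv_cancel_left a w⟩
      rw [hB, Set.Finite.mem_toFinset]
      exact hX a ha w hw
    have h2 : X.Finite := (finite_toSet _).subset h1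
    have h3 : h2.toFinset ⊆ B.image fun w => a * w := by
      intro w hw
      exact h1 (h2.mem_toFinset.1 hw)
    obtain ⟨v, hv⟩ := hF h2.toFinset ((card_le_card h3).trans card_image_le) fun w hw w' hw' =>
      hX w (h2.mem_toFinset.1 hw) w' (h2.mem_toFinset.1 hw')
    exact ⟨v, fun w hw => hv w (h2.mem_toFinset.2 hw)⟩

end Pool.Agent.H97.BLD

end

section

/-!
# Project BD: separation

`exists_common`: for all but finitely many `w` the elements of the ball around `w` have a common first letter.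
`sep_label`: two chambers at bounded distance which are compatible with the labels `a`, `b` for a common first letter of
a ball: `a = b`. `sep_finite`: only finitely many pairs of cosets have cells without common labelled letters whose
chambers are at bounded distance.
-/

set_option autoImplicit false
set_option linter.unusedSectionVars false

open Finset

namespace Pool.Agent.H4.BD

open Pool.Agent.H4.FC Pool.Agent.H78.RC Pool.Agent.H97.BLD

variable {S : Type} [Fintype S] [DecidableEq S] {M : CoxeterMatrix S} {Δ : Type}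
  {δ : Δ → Δ → M.Group}

/-- the label is transported along a panel if the letter is a first letter of both positions -/
theorem gd_move (h : IsBuilding M δ) {c a x y : Δ} {t v : S} (ha : δ c a = M.simple t)
    (hy : y ∈ pan δ v x) (h1 : t ∈ fl M (δ c x)) (h2 : t ∈ fl M (δ c x * M.simple v))
    (hg : δ a x = M.simple t * δ c x) : δ a y = M.simple t * δ c y := by
  rcases hy with rfl | hy
  · exact hg
  · rcases len_mul_simple M (δ c x) v with h3 | h3
    · exact gd_down h hy h3 h1 hg
    · obtain ⟨x₀, h4, h5⟩ := h.exists_stepR v c x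
      have h6 : len M (δ c x₀ * M.simple v) = len M (δ c x₀) + 1 := by
        rw [h5, mul_assoc, simple_sq, mul_one]
        omega
      have h7 := gd_proj h ha (h.symm_simple h4) h6 hg
      rcases pan_trans h (pan_symm h (Or.inr h4)) (Or.inr hy : y ∈ pan δ v x) with h8 | h8
      · rw [h8]
        exact h7
      · refine gd_down h h8 h6 ?_ h7
        rw [h5]
        exact h2

/-- the label is transported to a chamber at bounded distance if the letter is a first letter of a ball -/
theorem gd_far (h : IsBuilding M δ) {c a y : Δ} {t : S} (ha : δ c a = M.simple t) (n : ℕ) :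
    ∀ x, len M (δ x y) = n → (∀ u, len M u ≤ n → t ∈ fl M (δ c x * u)) →
      δ a x = M.simple t * δ c x → δ a y = M.simple t * δ c y := by
  induction n with
  | zero =>
    intro x hl _ hg
    have h1 := (h.eq_one x y).1 ((len_eq_zero M).1 hl)
    rw [← h1]
    exact hg
  | succ n ih =>
    intro x hl hb hg
    have h1 : δ x y ≠ 1 := by
      intro h0
      rw [h0, len_one] at hl
      omega
    obtain ⟨v, hv⟩ := exists_left M h1
    obtain ⟨x', h2, h3⟩ := h.exists_step v x y
    have h4 : x' ∈ pan δ v x := Or.inr (h.symm_simple h2)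
    have h5 : t ∈ fl M (δ c x) := by
      have := hb 1 (by rw [len_one]; omega)
      rwa [mul_one] at this
    have h6 : t ∈ fl M (δ c x * M.simple v) := hb _ (by rw [len_simple]; omega)
    refine ih x' (by rw [h3]; omega) (fun u hu => ?_) (gd_move h ha h4 h5 h6 hg)
    rcases h.stepR (a := c) (h.symm_simple h2) with h7 | h7
    · rw [h7, mul_assoc]
      refine hb _ ?_
      rcases len_simple_mul M u v with h8 | h8 <;> omega
    · rw [h7]
      exact hb _ (by omega)

/-- labels with a common compatible position are equal -/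
theorem label_unique (h : IsBuilding M δ) {c a b y : Δ} {t : S} (ha : δ c a = M.simple t)
    (hb : δ c b = M.simple t) (ht : t ∈ fl M (δ c y)) (hga : δ a y = M.simple t * δ c y)
    (hgb : δ b y = M.simple t * δ c y) : a = b := by
  have hle : Le M (M.simple t) (δ c y) := by
    unfold Le
    rw [mem_fl] at ht
    rw [len_simple, simple_inv]
    omega
  refine h.geo_unique hle ha ?_ hb ?_
  · rw [simple_inv]
    exact hga
  · rw [simple_inv]
    exact hgb

/-- the first letters of a ball are first letters of the positions at bounded distance -/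
theorem fl_far' (h : IsBuilding M δ) {c y : Δ} {t : S} (n : ℕ) :
    ∀ x, len M (δ x y) = n → (∀ u, len M u ≤ n → t ∈ fl M (δ c x * u)) → t ∈ fl M (δ c y) := by
  induction n with
  | zero =>
    intro x' h3 h4
    have h5 := (h.eq_one x' y).1 ((len_eq_zero M).1 h3)
    have h6 := h4 1 (by rw [len_one])
    rwa [mul_one, h5] at h6
  | succ n ih =>
    intro x' h3 h4
    have h5 : δ x' y ≠ 1 := by
      intro h0
      rw [h0, len_one] at h3
      omega
    obtain ⟨v, hv⟩ := exists_left M h5
    obtain ⟨x'', h6, h7⟩ := h.exists_step v x' y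
    refine ih x'' (by rw [h7]; omega) fun u hu => ?_
    rcases h.stepR (a := c) (h.symm_simple h6) with h8 | h8
    · rw [h8, mul_assoc]
      refine h4 _ ?_
      rcases len_simple_mul M u v with h9 | h9 <;> omega
    · rw [h8]
      exact h4 _ (by omega)

theorem fl_far (h : IsBuilding M δ) {c x y : Δ} {t : S} {r : ℕ}
    (ht : ∀ u, len M u ≤ r → t ∈ fl M (δ c x * u)) (hl : len M (δ x y) ≤ r) :
    t ∈ fl M (δ c y) := fl_far' h _ x rfl fun u hu => ht u (hu.trans hl)

/-- the positions of two chambers are as near as the chambers -/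
theorem len_near (h : IsBuilding M δ) (c x y : Δ) :
    len M ((δ c x)⁻¹ * δ c y) ≤ len M (δ x y) := by
  obtain ⟨n, hn⟩ : ∃ n, len M (δ x y) = n := ⟨_, rfl⟩
  induction n generalizing x with
  | zero =>
    rw [(h.eq_one x y).1 ((len_eq_zero M).1 hn), inv_mul_cancel, len_one]
    exact Nat.zero_le _
  | succ n ih =>
    have h5 : δ x y ≠ 1 := by
      intro h0
      rw [h0, len_one] at hn
      omega
    obtain ⟨v, hv⟩ := exists_left M h5
    obtain ⟨x', h6, h7⟩ := h.exists_step v x y
    have h8 := ih x' (by rw [h7]; omega)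
    rw [h7] at h8
    rcases h.stepR (a := c) (h.symm_simple h6) with h9 | h9
    · rw [h9, mul_inv_rev, simple_inv, mul_assoc] at h8
      have h10 := len_simple_mul M ((δ c x)⁻¹ * δ c y) v
      omega
    · rw [h9] at h8
      omega

/-- SEPARATION of labels -/
theorem sep_label (h : IsBuilding M δ) {c a b x y : Δ} {t : S} (ha : δ c a = M.simple t)
    (hb : δ c b = M.simple t) {r : ℕ} (hl : len M (δ x y) ≤ r)
    (hball : ∀ u, len M u ≤ r → t ∈ fl M (δ c x * u))
    (hga : δ a x = M.simple t * δ c x) (hgb : δ b y = M.simple t * δ c y) : a = b :=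
  label_unique h ha hb (fl_far h hball hl)
    (gd_far h ha _ x rfl (fun u hu => hball u (hu.trans hl)) hga) hgb

variable (M)

/-- for all but finitely many `w` the ball around `w` has a common first letter -/
theorem exists_common (r : ℕ) :
    {w : M.Group | ¬ ∃ t, ∀ u, len M u ≤ r → t ∈ fl M (w * u)}.Finite := by
  obtain ⟨F, hF⟩ := exists_lower_set M (2 * r)
  refine (len_finite M F).subset fun w hw => ?_
  obtain ⟨v, hv⟩ := hF {x | len M (w⁻¹ * x) ≤ r} fun x hx y hy => by
    have h1 : x⁻¹ * y = (w⁻¹ * x)⁻¹ * (w⁻¹ * y) := by group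
    rw [h1]
    refine (len_mul_le M _ _).trans ?_
    rw [len_inv]
    have h2 : len M (w⁻¹ * x) ≤ r := hx
    have h3 : len M (w⁻¹ * y) ≤ r := hy
    omega
  by_cases h1 : v = 1
  · have h2 := (hv w (by
      show len M (w⁻¹ * w) ≤ r
      rw [inv_mul_cancel, len_one]
      omega)).2
    rw [h1, inv_one, one_mul] at h2
    exact h2
  · exfalso
    obtain ⟨t, ht⟩ := exists_left M h1
    refine hw ⟨t, fun u hu => ?_⟩
    have h2 := (hv (w * u) (by
      show len M (w⁻¹ * (w * u)) ≤ r
      rw [inv_mul_cancel_left]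
      exact hu)).1
    refine fl_mono M h2 ?_
    rw [mem_fl]
    exact ht

variable {M} {Lb : Type} [DecidableEq Lb] [VLb S Lb]

/-- the chambers of cells without a common labelled letter are far from each other -/
theorem sep_XX (h : IsBuilding M δ) {c : Δ} {C : Set Δ} {lab : S × Lb → Δ}
    (hL : LabOk M δ c lab) {e e' : Cel M Lb} (hO : Ok M e e') {x y : Δ}
    (hx : x ∈ XX M δ c lab C e) (hy : y ∈ XX M δ c lab C e') {r : ℕ} (hl : len M (δ x y) ≤ r) :
    ¬ ∃ t, ∀ u, len M u ≤ r → t ∈ fl M (δ c x * u) := by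
  rintro ⟨t, ht⟩
  obtain ⟨he, he', hdis⟩ := hO
  have h1 : t ∈ fl M e.1 := fl_coset he.2.1 hx.2.1 (by
    have := ht 1 (by rw [len_one]; omega)
    rwa [mul_one] at this)
  have h2 : t ∈ fl M e'.1 := fl_coset he'.2.1 hy.2.1 (fl_far h ht hl)
  obtain ⟨j, hj, -⟩ := he.2.2.1.2 t h1
  obtain ⟨j', hj', -⟩ := he'.2.2.1.2 t h2
  have h3 := sep_label h (hL.1 (t, j)) (hL.1 (t, j')) hl ht (hx.2.2 _ hj) (hy.2.2 _ hj')
  have h4 := hL.2 t j j' (he.2.2.2 _ hj) (he'.2.2.2 _ hj') h3
  subst h4
  exact disjoint_left.1 hdis hj hj'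

theorem sep_finite (h : IsBuilding M δ) {c : Δ} {C : Set Δ} {lab : S × Lb → Δ}
    (hL : LabOk M δ c lab) (r : ℕ) :
    {q : M.Group × M.Group | ∃ s a t b, Ok M (q.1, s, a) (q.2, t, b) ∧
      ∃ x ∈ XX M δ c lab C (q.1, s, a), ∃ y ∈ XX M δ c lab C (q.2, t, b),
        len M (δ x y) ≤ r}.Finite := by
  classical
  have hB := exists_common M r
  -- the elements near to `B`
  have hU : (⋃ s : Finset S, ((parF M s : Finset M.Group) : Set M.Group)).Finite :=
    Set.finite_iUnion fun s => finite_toSet _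
  have hB1 := hB.mul hU.inv
  have hB2 := (hB.mul (len_finite M r)).mul hU.inv
  refine (hB1.prod hB2).subset ?_
  rintro ⟨z, z'⟩ ⟨s, a, t, b, hO, x, hx, y, hy, hl⟩
  have h1 := sep_XX h hL hO hx hy hl
  have key : ∀ (s : Finset S) (w z : M.Group), Sph M s → z⁻¹ * w ∈ par M s →
      (z⁻¹ * w)⁻¹ ∈ (⋃ s : Finset S, ((parF M s : Finset M.Group) : Set M.Group))⁻¹ := by
    intro s w z hs h2
    rw [Set.inv_mem_inv, Set.mem_iUnion]
    exact ⟨s, (mem_parF hs _).2 h2⟩
  constructor
  · refine ⟨δ c x, h1, (z⁻¹ * δ c x)⁻¹, key s _ _ hO.1.1 hx.2.1, ?_⟩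
    show δ c x * (z⁻¹ * δ c x)⁻¹ = z
    group
  · refine ⟨δ c y, ⟨δ c x, h1, (δ c x)⁻¹ * δ c y, ?_, ?_⟩, (z'⁻¹ * δ c y)⁻¹,
      key t _ _ hO.2.1.1 hy.2.1, ?_⟩
    · exact (len_near h c x y).trans hl
    · show δ c x * ((δ c x)⁻¹ * δ c y) = δ c y
      group
    · show δ c y * (z'⁻¹ * δ c y)⁻¹ = z'
      group

end Pool.Agent.H4.BD

end

section

/-!
# Project BD: the intersection numbers of the cells: base, top, finite support
-/

set_option autoImplicit false
set_option linter.unusedSectionVars false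

open Finset

namespace Pool.Agent.H4.BD

open Pool.Agent.H4.FC Pool.Agent.H78.RC Pool.Agent.H97.BLD Pool.Agent.H37.TM Pool.Agent.H84.RX

variable {S Δ P : Type} [Fintype S] [DecidableEq S] [Group P] {M : CoxeterMatrix S}
  {δ : Δ → Δ → M.Group} {Lb : Type} [DecidableEq Lb] [VLb S Lb] {q : S → Δ → ℕ} {c : Δ} {lab : S × Lb → Δ}
  {C : Set Δ} {rr : Finset S → Δ → P} {n : ℕ} {H : List P → List P → ZMod 2}

theorem hh_base (hδ : IsBuilding M δ) (hC : Sel M δ c C) (hlab : LabOk M δ c lab)
    (hH : InterL P n H) : hh M δ c lab C rr H (b0 M Lb) (b0 M Lb) = 1 := by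
  unfold hh
  rw [if_pos ok_b0, XX_base hδ hC, finsum_mem_singleton, finsum_mem_singleton]
  show cb rr c ∅ (fun l => cb rr c ∅ fun l' => H l l') = 1
  rw [cb_empty, cb_empty]
  exact hH.one _

theorem hh_top (hH : InterL P n H) {x y : Cel M Lb} (h : n < x.2.1.card + y.2.1.card) :
    hh M δ c lab C rr H x y = 0 := by
  unfold hh
  split_ifs with hO
  · refine finsum_mem_eq_zero_of_forall_eq_zero fun a _ => ?_
    refine finsum_mem_eq_zero_of_forall_eq_zero fun b _ => ?_
    have h1 : ∀ l : List P, l.length = x.2.1.card + 1 →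
        cb rr b y.2.1 (fun l' => H l l') = 0 := by
      intro l hl
      rw [cb_congr rr b _ y.2.1 rfl (fun l' => H l l') (fun _ => 0) fun l' hl' =>
        hH.top l l' (by rw [hl, hl']; omega)]
      exact cb_zero rr b _ y.2.1 rfl
    rw [cb_congr rr a _ x.2.1 rfl (fun l => cb rr b y.2.1 fun l' => H l l') (fun _ => 0) h1]
    exact cb_zero rr a _ x.2.1 rfl
  · rfl

/-- a list of the cube on which the function does not vanish -/
private theorem cb_exists (rr : Finset S → Δ → P) (x : Δ) : ∀ (k : ℕ) (s : Finset S),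
    s.card = k → ∀ h : List P → ZMod 2, cb rr x s h ≠ 0 →
      ∃ l : List P, l.length = k + 1 ∧ (∀ a ∈ l, ∃ T ⊆ s, a = rr T x) ∧ h l ≠ 0
  | 0, s, hs, h, h0 => by
    rw [card_eq_zero.1 hs, cb_empty] at h0
    refine ⟨[rr ∅ x], rfl, fun a ha => ⟨∅, empty_subset _, ?_⟩, h0⟩
    rwa [List.mem_singleton] at ha
  | k + 1, s, hs, h, h0 => by
    have hne : s ≠ ∅ := by
      rintro rfl
      simp at hs
    rw [cb_ne rr x hne] at h0
    obtain ⟨v, hv, h1⟩ := exists_ne_zero_of_sum_ne_zero h0
    obtain ⟨l, h2, h3, h4⟩ := cb_exists rr x k (s.erase v)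
      (by rw [card_erase_of_mem hv, hs]; rfl) _ h1
    refine ⟨l ++ [rr s x], by rw [List.length_append, h2]; rfl, fun a ha => ?_, h4⟩
    rw [List.mem_append, List.mem_singleton] at ha
    rcases ha with ha | ha
    · obtain ⟨T, hT, h5⟩ := h3 a ha
      exact ⟨T, hT.trans (erase_subset _ _), h5⟩
    · exact ⟨s, Subset.rfl, ha⟩

/-- the lists of bounded length with entries in a finite set -/
private theorem lists_finite (E : Finset P) (N : ℕ) :
    {l : List P | l.length ≤ N ∧ ∀ a ∈ l, a ∈ E}.Finite := by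
  have h1 : {l : List E | l.length ≤ N}.Finite := List.finite_length_le E N
  refine (h1.image (List.map Subtype.val)).subset ?_
  rintro l ⟨h2, h3⟩
  refine ⟨l.pmap (fun a h => (⟨a, h⟩ : E)) h3, ?_, ?_⟩
  · show (l.pmap _ h3).length ≤ N
    rw [List.length_pmap]
    exact h2
  · rw [List.map_pmap]
    exact (List.pmap_eq_map _).trans (List.map_id _)

theorem hh_finS (hδ : IsBuilding M δ) (hq : Reg M δ q) (hlab : LabOk M δ c lab)
    (hrr : IsRr M δ rr) (hH : InterL P n H) : FinS (hh M δ c lab C rr H) := by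
  classical
  obtain ⟨E, hE⟩ := hrr.near
  obtain ⟨E', hE'⟩ := hH.fin (lists_finite E (Fintype.card S + 1)).toFinset
  obtain ⟨N, hN⟩ := hrr.far E'
  refine (sep_finite (C := C) hδ hlab N).subset ?_
  rintro ⟨z, z'⟩ ⟨s, a, t, b, h0⟩
  unfold hh at h0
  split_ifs at h0 with hO
  swap
  · exact absurd rfl h0
  obtain ⟨x, hx, h1⟩ := exists_ne_zero_of_finsum_mem_ne_zero h0
  obtain ⟨y, hy, h2⟩ := exists_ne_zero_of_finsum_mem_ne_zero h1
  obtain ⟨l, hl1, hl2, h3⟩ := cb_exists rr x _ s rfl _ h2
  obtain ⟨l', hl1', hl2', h4⟩ := cb_exists rr y _ t rfl _ h3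
  refine ⟨s, a, t, b, hO, x, hx, y, hy, hN x y (hE' (l.map ((rr ∅ x)⁻¹ * ·)) ?_
    (l'.map ((rr ∅ y)⁻¹ * ·)) ?_ (rr ∅ x) (rr ∅ y) ?_)⟩
  · rw [Set.Finite.mem_toFinset]
    refine ⟨?_, fun g hg => ?_⟩
    · rw [List.length_map, hl1]
      exact Nat.succ_le_succ (card_le_univ s)
    · obtain ⟨g', h5, rfl⟩ := List.mem_map.1 hg
      obtain ⟨T, hT, rfl⟩ := hl2 g' h5
      exact hE T x (hO.1.1.mono hT)
  · rw [Set.Finite.mem_toFinset]
    refine ⟨?_, fun g hg => ?_⟩
    · rw [List.length_map, hl1']
      exact Nat.succ_le_succ (card_le_univ t)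
    · obtain ⟨g', h5, rfl⟩ := List.mem_map.1 hg
      obtain ⟨T, hT, rfl⟩ := hl2' g' h5
      exact hE T y (hO.2.1.1.mono hT)
  · have h5 : ∀ (p : P) (l : List P), (l.map (p⁻¹ * ·)).map (p * ·) = l := by
      intro p l
      rw [List.map_map]
      have : ((p * ·) ∘ (p⁻¹ * ·) : P → P) = id := by
        funext g
        exact mul_inv_cancel_left p g
      rw [this, List.map_id]
    rw [h5, h5]
    exact h4

end Pool.Agent.H4.BD

end

section

/-!
# Project BD: the manifold side

The intersection numbers `hh` of the cells and the alternating function `AA` satisfy the same relation and have the same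
value on the base cell, so their sum is the coboundary of a function `φ` plus its symmetric part (`exists_halfX`). In
the degree `k + 1`, `2 (k + 1) > n`, the intersection numbers are zero, so the pairing of a cocycle with a cycle of
the nerve, computed with the alternating function (`hasCoef_mix`), is zero (`kk_cycle`).
-/

set_option autoImplicit false
set_option linter.unusedSectionVars false

open Finset

namespace Pool.Agent.H4.BD

open Pool.Agent.H4.FC Pool.Agent.H78.RC Pool.Agent.H97.BLD Pool.Agent.H37.TM Pool.Agent.H84.RX Pool.Agent.H93.AA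

variable {S Δ P : Type} [Fintype S] [DecidableEq S] [Group P] {M : CoxeterMatrix S}
  {δ : Δ → Δ → M.Group} {q : S → Δ → ℕ} {c : Δ} {C : Set Δ} {rr : Finset S → Δ → P} {n k : ℕ}
  {H : List P → List P → ZMod 2}

/-- enough neighbours give labels -/
theorem exists_lab (hq : Reg M δ q) {R : Finset S} (h2 : ∀ s x, 2 ≤ q s x)
    (h3 : ∀ s x, s ∉ R → 3 ≤ q s x) (c : Δ) :
    ∃ lab : S × Fin 3 → Δ, @LabOk S Δ (Fin 3) (vlb R) M δ c lab := by
  classical
  have h0 : ∀ (s : S) (m : ℕ), m ≤ q s c →
      ∃ f : Fin m → Δ, (∀ j, δ c (f j) = M.simple s) ∧ Function.Injective f := by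
    intro s m hm
    obtain ⟨hf, hc⟩ := hq s c
    have hF : Fintype {d | δ c d = M.simple s} := hf.fintype
    have h2 : Fintype.card (Fin m) ≤ Fintype.card {d | δ c d = M.simple s} := by
      rw [← Nat.card_eq_fintype_card (α := {d | δ c d = M.simple s}), Nat.card_coe_set_eq, hc,
        Fintype.card_fin]
      exact hm
    obtain ⟨f⟩ := Function.Embedding.nonempty_of_card_le h2
    exact ⟨fun j => (f j).1, fun j => (f j).2, fun i j h => f.injective (Subtype.ext h)⟩
  have h1 : ∀ s : S, ∃ f : Fin 3 → Δ, (∀ j, δ c (f j) = M.simple s) ∧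
      ∀ j j', (s ∈ R → j ≠ 2) → (s ∈ R → j' ≠ 2) → f j = f j' → j = j' := by
    intro s
    by_cases hs : s ∈ R
    · obtain ⟨f, hf1, hf2⟩ := h0 s 2 (h2 s c)
      refine ⟨fun j => if j = 0 then f 0 else f 1, fun j => ?_, fun j j' hj hj' h => ?_⟩
      · by_cases hj : j = 0
        · simp only [if_pos hj]
          exact hf1 0
        · simp only [if_neg hj]
          exact hf1 1
      · have h4 : f 0 ≠ f 1 := fun h' => absurd (hf2 h') (by decide)
        have key : ∀ i : Fin 3, i ≠ 2 → i = 0 ∨ i = 1 := by decide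
        have h5 : (if j = 0 then f 0 else f 1) = if j' = 0 then f 0 else f 1 := h
        rcases key j (hj hs) with rfl | rfl <;> rcases key j' (hj' hs) with rfl | rfl
        · rfl
        · rw [if_pos rfl, if_neg (by decide)] at h5
          exact absurd h5 h4
        · rw [if_neg (by decide), if_pos rfl] at h5
          exact absurd h5.symm h4
        · rfl
    · obtain ⟨f, hf1, hf2⟩ := h0 s 3 (h3 s c hs)
      exact ⟨f, hf1, fun j j' _ _ h => hf2 h⟩
  choose f hf1 hf2 using h1
  exact ⟨fun p => f p.1 p.2, fun p => hf1 p.1 p.2, fun t j j' hj hj' h => hf2 t j j' hj hj' h⟩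

theorem hl_bld {Lb : Type} [DecidableEq Lb] [VLb S Lb] (hco : HasCoef M Lb)
    (hδ : IsBuilding M δ) (hq : Reg M δ q) {lab : S × Lb → Δ} (hlab : LabOk M δ c lab)
    (hC : Sel M δ c C) (hrr : IsRr M δ rr)
    (hH : InterL P n H) (hn : n ≤ 2 * k + 1) : HL M (k + 1) := by
  classical
  refine hl_of_pairing M (k + 1) fun x z hx hz hdz => ?_
  obtain ⟨Q, hQ, μ, hμ, hval⟩ := hco k x hx
  rw [← hval z hz hdz]
  -- the sum of the two functions
  obtain ⟨D, hDef⟩ : ∃ D : Cel M Lb → Cel M Lb → ZMod 2,
      D = fun e e' => hh M δ c lab C rr H e e' + AA M μ e e' := ⟨_, rfl⟩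
  have hF1 : FinS (hh M δ c lab C rr H) := hh_finS hδ hq hlab hrr hH
  have hF2 : FinS (AA M μ) := AA_finS μ
  have hFD : FinS D := by
    have h1 : {q : M.Group × M.Group | ∃ s a t b,
      hh M δ c lab C rr H (q.1, s, a) (q.2, t, b) ≠ 0}.Finite := hF1
    have h2 : {q : M.Group × M.Group | ∃ s a t b, AA M μ (q.1, s, a) (q.2, t, b) ≠ 0}.Finite := hF2
    refine (h1.union h2).subset ?_
    rintro q ⟨s, a, t, b, h⟩
    rw [hDef] at h
    by_cases h3 : hh M δ c lab C rr H (q.1, s, a) (q.2, t, b) = 0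
    · right
      refine ⟨s, a, t, b, fun h4 => h ?_⟩
      show hh M δ c lab C rr H (q.1, s, a) (q.2, t, b) + AA M μ (q.1, s, a) (q.2, t, b) = 0
      rw [h3, h4, add_zero]
    · exact Or.inl ⟨s, a, t, b, h3⟩
  have hD : ∀ e e', Ok M e e' → dX (bdC M) D e e' = D e e' + D e' e := by
    intro e e' hok
    have h1 := hh_rel hδ hq hC hlab hrr.const hH e e' hok
    have h2 := AA_rel hμ hok
    have h3 : dX (bdC M) D e e' =
        dX (bdC M) (hh M δ c lab C rr H) e e' + dX (bdC M) (AA M μ) e e' := by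
      rw [hDef]
      unfold dX
      rw [lin_add, lin_add]
      ring
    rw [h3, h1, h2, hDef]
    ring
  have h0 : D (b0 M Lb) (b0 M Lb) = 0 := by
    rw [hDef]
    show hh M δ c lab C rr H (b0 M Lb) (b0 M Lb) +
      AA M μ (b0 M Lb) (b0 M Lb) = 0
    rw [hh_base hδ hC hlab hH, AA_base μ]
    rfl
  obtain ⟨φ, hφ1, hφ2⟩ := exists_halfX (fun e : Cel M Lb => e.2.1.card) (bdC M) (Ok M)
    (fun _ _ h => h.symm) (fun _ _ _ h h' => ok_face h h') (fun _ _ _ _ h' => sz_face h')
    (fun _ _ h => bdC_bdC h.1) (b0 M Lb) (fun _ h => ok_self h) bdC_b0 D hD h0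
  have hFφ : FinS φ := finS_rch hFD hφ2
  have key := kk_cycle hQ (D := D) hFφ hφ1 (z := z) (fun T hT => (hz T hT).1) hdz
  rw [← key]
  refine sum_congr rfl fun A _ => sum_congr rfl fun B _ => ?_
  by_cases hA : z A = 0
  · rw [hA, zero_mul, zero_mul, zero_mul]
  by_cases hB : z B = 0
  · rw [hB, mul_zero, zero_mul, zero_mul]
  congr 1
  have h1 : KK M Q D A B = KK M Q (hh M δ c lab C rr H) A B + KK M Q (AA M μ) A B := by
    rw [hDef]
    exact kk_add hQ hF1 hF2 A B
  have h2 : KK M Q (hh M δ c lab C rr H) A B = 0 := by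
    refine kk_zero hQ fun w a w' b => hh_top hH ?_
    show n < A.card + B.card
    rw [(hz A hA).2, (hz B hB).2]
    omega
  rw [h1, h2, zero_add, KK_AA hQ μ (hz A hA).1 (hz B hB).1]

end Pool.Agent.H4.BD

end

section

/-!
# Project BD: the manifold side, for all full subcomplexes of the nerve

The residues of type `J` are buildings of type `sub M J`; a letter has two labels if it is right-angled in
`sub M J` and three labels otherwise.
-/

set_option autoImplicit false
set_option linter.unusedSectionVars false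

open Finset

namespace Pool.Agent.H4.BD

open Pool.Agent.H4.FC Pool.Agent.H78.RC Pool.Agent.H97.BLD Pool.Agent.H37.TM Pool.Agent.H84.RX Pool.Agent.H93.AA Pool.Agent.H73.LK

theorem hl_all {S Δ P : Type} [Fintype S] [DecidableEq S] [Group P] {M : CoxeterMatrix S}
    {δ : Δ → Δ → M.Group} {q : S → Δ → ℕ} {rr : Finset S → Δ → P} {n k : ℕ}
    {H : List P → List P → ZMod 2} [Nonempty Δ] (hδ : IsBuilding M δ) (hq : Reg M δ q)
    (hth : ∀ s x, 2 ≤ q s x)
    (hpar : ∀ s, (∀ x, Odd (q s x)) ∨ ∀ t, t ≠ s → M s t = 2 ∨ M s t = 0) (hrr : IsRr M δ rr)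
    (hH : InterL P n H) (hn : n ≤ 2 * k + 1) (J : Finset S) : HL (sub M J) (k + 1) := by
  classical
  obtain ⟨c⟩ := ‹Nonempty Δ›
  obtain ⟨Δ', δ', ι, hι, hδ', c', -⟩ := exists_res hδ J c
  have hpar' : ∀ s : {v // v ∈ J}, (∀ x, Odd (q s.1 (ι x))) ∨
      ∀ t, t ≠ s → sub M J s t = 2 ∨ sub M J s t = 0 := by
    intro s
    rcases hpar s.1 with h | h
    · exact Or.inl fun x => h (ι x)
    · exact Or.inr fun t ht => h t.1 fun h' => ht (Subtype.ext h')
  obtain ⟨C, hC⟩ := exists_sel hδ' (hι.reg hq) (fun s x => le_trans (by norm_num) (hth s.1 (ι x)))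
    hpar' c'
  -- the right-angled letters
  obtain ⟨R, hR⟩ : ∃ R : Finset {v // v ∈ J}, R =
      univ.filter fun s => ∀ t, t ≠ s → sub M J s t = 2 ∨ sub M J s t = 0 := ⟨_, rfl⟩
  have hRA : ∀ s ∈ R, ∀ t, t ≠ s → sub M J s t = 2 ∨ sub M J s t = 0 := by
    intro s hs
    rw [hR] at hs
    exact (mem_filter.1 hs).2
  have h3 : ∀ s x, s ∉ R → 3 ≤ q s.1 (ι x) := by
    intro s x hs
    rcases hpar' s with h | h
    · obtain ⟨m, hm⟩ := h x
      have h4 := hth s.1 (ι x)
      omega
    · rw [hR] at hs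
      exact absurd (mem_filter.2 ⟨mem_univ s, h⟩) hs
  obtain ⟨lab, hlab⟩ := exists_lab (hι.reg hq) (R := R) (fun s x => hth s.1 (ι x)) h3 c'
  letI : VLb {v // v ∈ J} (Fin 3) := vlb R
  exact hl_bld (hasCoef_mix hRA) hδ' (hι.reg hq) hlab hC (hι.rr hrr) hH hn

end Pool.Agent.H4.BD

end

section

/-!
# Duality pairs: buildings
-/

set_option autoImplicit false

open Finset

namespace Pool.Agent.H45.DA

open Pool.Agent.H4.BD Pool.Agent.H4.FC Pool.Agent.H78.RC Pool.Agent.H97.BLD Pool.Agent.H84.RX

/-- **Group actions on buildings**: let the building of type `M` be thick and locally finite, such that for every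
letter all panels have an even number of chambers or the letter is right-angled. If a group acts on it with finite
stabilizers and finitely many orbits of chambers, and embeds coarsely into a group with intersection numbers of lists
in dimension `n`, then the `ℓ²`-homology of the Davis realization of the building vanishes above the degree `n / 2`. -/
theorem bld_singerL {S : Type} [Fintype S] [DecidableEq S] (M : CoxeterMatrix S) (Δ : Type)
    (δ : Δ → Δ → M.Group) (P Λ : Type) [Group P] [MulAction P Δ] [Group Λ] (n : ℕ) (hδ : IsBuilding M δ)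
    (hfin : ∀ s c, {d | δ c d = M.simple s}.Finite)
    (hth : ∀ s c, 2 ≤ {d | δ c d = M.simple s}.ncard)
    (hpar : ∀ s, (∀ c, Odd {d | δ c d = M.simple s}.ncard) ∨
      ∀ t, t ≠ s → M s t = 2 ∨ M s t = 0) (hP : GAct P M δ)
    (f : P → Λ) (hf : Pool.Agent.H10.CI.CoarseEmb f)
    {H : List Λ → List Λ → ZMod 2} (hH : InterL Λ n H) (i : ℕ) (hi : n < 2 * i) :
    L2ZeroB M δ i := by
  classical
  rcases isEmpty_or_nonempty Δ with hΔ | hΔ
  · exact l2zeroB_of_empty M δ i
  have hq : Reg M δ (fun s c => {d | δ c d = M.simple s}.ncard) := fun s c => ⟨hfin s c, rfl⟩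
  obtain ⟨m, hm⟩ := Pool.Agent.H8.BD.exists_panel_bound hP hfin
  refine Pool.Agent.H8.BD.l2zeroB_of_ex hδ hfin hm i fun ν hν j hj U' => ?_
  obtain ⟨rr, hrr⟩ := exists_rr hδ hq hP
  obtain ⟨k, rfl⟩ : ∃ k, j = k + 1 := ⟨j - 1, by omega⟩
  exact ex_of_sub U' (hl_all hδ hq hth hpar (hrr.comp hf) hH (by omega) U') hν

end Pool.Agent.H45.DA

end
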