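import Pool.Agent.H71.TSG.M70

/-! The parts of this file: H65.AB.AgDefs, H65.AB.CxDefs. -/

section

/-!
# Project AB: the group

`M` is a Coxeter matrix, `F` a set of generators all whose labels are two or infinity, `Γ v` a group for every generator
`v`. `AG M F Γ` is the Artin group of `M` in which the generator `v` is replaced by the group `Γ v` for `v ∈ F`.
-/

set_option autoImplicit false

open Finset

namespace Pool.Agent.H65.AB

open H42.NU

/-- the commutator -/
def cmt {G : Type} [Group G] (x y : G) : G := x * y * x⁻¹ * y⁻¹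

section

variable {S : Type} (M : CoxeterMatrix S) (F : Finset S) (Γ : S → Type) [∀ v, Group (Γ v)]

/-- the free product of the Artin group of `M` and of the groups `Γ v` -/
def FPr : Type := Monoid.Coprod (BG M) (Monoid.CoprodI Γ)

/-- the group structure of the free product -/
instance groupFPr : Group (FPr M Γ) := Monoid.Coprod.instGroup

/-- the inclusion of the Artin group in the free product -/
def eB : BG M →* FPr M Γ := Monoid.Coprod.inl

/-- the inclusion of the group `Γ v` in the free product -/
def eG (v : S) : Γ v →* FPr M Γ := Monoid.Coprod.inr.comp Monoid.CoprodI.of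

/-- The relations: the generators `v ∈ F` of the Artin group and the groups `Γ v`, `v ∉ F`, are trivial; a generator
`s` commutes with `Γ v` if `M s v = 2`, the groups `Γ u` and `Γ v` commute if `M u v = 2`. -/
def rels : Set (FPr M Γ) :=
  {r | (∃ v ∈ F, r = eB M Γ (bgen M v)) ∨
    (∃ v, v ∉ F ∧ ∃ a : Γ v, r = eG M Γ v a) ∨
    (∃ s v, M s v = 2 ∧ ∃ a : Γ v, r = cmt (eB M Γ (bgen M s)) (eG M Γ v a)) ∨
    ∃ u v, M u v = 2 ∧ ∃ (a : Γ u) (b : Γ v), r = cmt (eG M Γ u a) (eG M Γ v b)}

/-- the normal subgroup of the relations -/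
def nrel : Subgroup (FPr M Γ) := Subgroup.normalClosure (rels M F Γ)

instance nrel_normal : (nrel M F Γ).Normal := Subgroup.normalClosure_normal

/-- The Artin group of `M` in which the generators `v ∈ F` are replaced by the groups `Γ v`. -/
def AG : Type := FPr M Γ ⧸ nrel M F Γ

/-- the group structure of the quotient -/
instance groupAG : Group (AG M F Γ) := QuotientGroup.Quotient.group (nrel M F Γ)

end

variable {S : Type} {M : CoxeterMatrix S} {F : Finset S} {Γ : S → Type} [∀ v, Group (Γ v)]

/-- the homomorphism of the Artin group -/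
def th (M : CoxeterMatrix S) (F : Finset S) (Γ : S → Type) [∀ v, Group (Γ v)] : BG M →* AG M F Γ :=
  (QuotientGroup.mk' (nrel M F Γ)).comp (eB M Γ)

/-- the homomorphisms of the vertex groups -/
def io (M : CoxeterMatrix S) (F : Finset S) {Γ : S → Type} [∀ v, Group (Γ v)] (v : S) :
    Γ v →* AG M F Γ :=
  (QuotientGroup.mk' (nrel M F Γ)).comp (eG M Γ v)

end Pool.Agent.H65.AB

end

section

/-!
# Project AB: the complex and its reduced chains

The complex: Davis complex in the directions `v ∈ F` (coset complex, if `Γ v` is infinite), Salvetti complex in the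
other directions.
-/

set_option autoImplicit false

open Finset

namespace Pool.Agent.H65.AB

open H42.NU Pool.Agent.H4.FC Pool.Agent.H93.AA

section

variable {S : Type} [Fintype S] [DecidableEq S] (M : CoxeterMatrix S) (F : Finset S) (Γ : S → Type)
  [∀ v, Group (Γ v)]

/-- Cellular `ℓ²`-chains of degree `i`. The cells are the `(Q, R, g)`, `Q ⊆ F` and `R` disjoint, `Q ∪ R` spherical,
of dimension `|R|`, `(Q, R, g) = (Q, R, g x)` for `x` in the product of the groups `Γ v`, `v ∈ Q`; such a cell is the
product of the cell `R \ F` of the Salvetti complex and of a cube with the directions `R ∩ F`. `c Q R g` is the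
coefficient of this cell. (If `Γ v` is infinite for some `v ∈ Q`, then `c Q R g = 0` by the conditions `inv` and
`l2`: the `ℓ²`-chains on the translates of a cell are the vectors of `ℓ²` invariant under its stabilizer.) -/
structure IsChainAG (i : ℕ) (c : Finset S → Finset S → AG M F Γ → ℂ) : Prop where
  supp : ∀ Q R g, c Q R g ≠ 0 → Q ⊆ F ∧ Disjoint Q R ∧ Sph M (Q ∪ R) ∧ R.card = i
  inv : ∀ Q R, ∀ v ∈ Q, ∀ (x : Γ v) (g : AG M F Γ), c Q R (g * io M F v x) = c Q R g
  l2 : ∀ Q R, Summable fun g => ‖c Q R g‖ ^ 2

/-- The boundary of the Salvetti complex of the generators outside `F` in the direction `v`: the sum over the shortest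
elements `w` of the cosets `w W_(R \ F)` in `W_((R \ F) ∪ {v})` of `(-1) ^ ℓ(w)` times the translate by the positive
lift of `w`. -/
noncomputable def bS (R : Finset S) (v : S) (f : AG M F Γ → ℂ) (g : AG M F Γ) : ℂ :=
  ∑ w ∈ mn M (insert v (R \ F)) (R \ F), (-1) ^ M.toCoxeterSystem.length w *
    f (g * (th M F Γ (lft M w))⁻¹)

open Classical in
/-- The cellular boundary: the boundary of the cell `(Q, R, g)` is the sum over `v ∈ R` of the sign of `v` times: for
`v ∈ F` the difference of the faces `(Q ∪ {v}, R \ {v}, g)` and `(Q, R \ {v}, g)` (the first one is zero in `ℓ²` if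
`Γ v` is infinite); for `v ∉ F` the sum of the cells `(Q, R \ {v}, g w~)` with the signs `-(-1) ^ ℓ(w)`, see `bS`. -/
noncomputable def bdAG (ν : S → ℕ) (c : Finset S → Finset S → AG M F Γ → ℂ) (Q R : Finset S)
    (g : AG M F Γ) : ℂ :=
  ∑ v ∈ Rᶜ, (-1) ^ (R.filter fun u => ν u < ν v).card *
    (if v ∈ F then
      (if v ∈ Q then
        (if Finite (Γ v) then ∑ᶠ x : Γ v, c (Q.erase v) (insert v R) (g * io M F v x) else 0)
        else -c Q (insert v R) g)
    else -bS M F Γ R v (c Q (insert v R)) g)

/-- The reduced `ℓ²`-homology vanishes in degree `i`: every `ℓ²`-cycle is an `ℓ²`-limit of boundaries of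
`ℓ²`-chains. -/
def L2ZeroAG (i : ℕ) : Prop :=
  ∀ ν : S → ℕ, Function.Injective ν → ∀ z : Finset S → Finset S → AG M F Γ → ℂ,
    IsChainAG M F Γ i z → (∀ Q R g, bdAG M F Γ ν z Q R g = 0) → ∀ ε : ℝ, 0 < ε →
    ∃ y : Finset S → Finset S → AG M F Γ → ℂ, IsChainAG M F Γ (i + 1) y ∧
      ∑ Q, ∑ R, ∑' g, ‖z Q R g - bdAG M F Γ ν y Q R g‖ ^ 2 < ε

end

end Pool.Agent.H65.AB

end
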