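import Pool.Agent.H71.TSG.M66
import Pool.Agent.H71.TSG.M73

/-! The parts of this file: H42.NU.Exist, H65.AB.Grp, H78.RC.Nest, H93.AA.Defs_1. -/

section

/-!
# NCU B4: existence of the representation of the braid group

(1) `Monoid (CM F)` with `X * Y = ⟨X.mat + Y.mat - X.mat * F * Y.mat⟩`, `1 = ⟨0⟩` (`mul_assoc` by noncommutative ring
algebra). (Local instance in this file is fine: `noncomputable instance`.)
(2) For `t, t' ∈ R` with `F s s = 1 + t`, `t t' = 1`: the unit `sg s : (CM F)ˣ` with value `⟨single s s 1⟩` and inverse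
`⟨single s s t'⟩`; check: `single s s 1 + single s s t' - single s s 1 * F * single s s t' = (1 + t' - (1+t) t') single s s 1 = 0`
and the same in the other order. Here `R = Lau`, `t = T 1`, `t' = T (-1)`, `F = Fm M pos (T 1)`.
(3) In the group `(CM F)ˣ` the function `L g = g.val.mat` satisfies `IsRep F sg L` (definition). By `L_pr_eq`
(module Braid) and injectivity of `g ↦ g.val.mat` on units, `pr sg s s' m = pr sg s' s m` for `s ≠ s'`, `m = M s s' ≠ 0`
(for `m = 0` both are `1`; for `s = s'` both sides are the same). So `sg` kills the relations `brel M`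
(`FreeGroup.lift sg (pr FreeGroup.of s s' n) = pr sg s s' n`, `map_pr` below).
(4) `bg_hom`: for any group `H` and `f : S → H` with `Artin M f` there is `Φ : BG M →* H` with `Φ (bgen M s) = f s`
(`PresentedGroup.toGroup`, `PresentedGroup.toGroup.of`).
`exists_rep`: `L' x = (Φ x).val.mat` with `Φ : BG M →* (CM F)ˣ`.
`artin_bgen`: `PresentedGroup.of` kills the relations: from `PresentedGroup.one_of_mem` or the quotient map:
`pr (bgen M) s s' n` is the class of `pr FreeGroup.of s s' n`.
`artin_simple`: `Artin M cs.simple` by `dih_top` (module Dih).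
-/

set_option autoImplicit false

namespace H42.NU

open LaurentPolynomial

universe u w w'

variable {S : Type u} {M : CoxeterMatrix S}

theorem map_pr {G : Type w} {H : Type w'} [Monoid G] [Monoid H] (φ : G →* H) (f : S → G)
    (s s' : S) (n : ℕ) : φ (pr f s s' n) = pr (fun i => φ (f i)) s s' n := by
  induction n with
  | zero => exact map_one φ
  | succ n ih =>
    show φ (pr f s s' n * f (lt s s' n)) = pr (fun i => φ (f i)) s s' n * φ (f (lt s s' n))
    rw [map_mul, ih]

theorem bg_hom {H : Type w} [Group H] (f : S → H) (hf : Artin M f) :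
    ∃ Φ : BG M →* H, ∀ s, Φ (bgen M s) = f s := by
  have h : ∀ r ∈ brel M, FreeGroup.lift f r = 1 := by
    rintro r ⟨s, s', rfl⟩
    have e : (fun i => FreeGroup.lift f (FreeGroup.of i)) = f := by
      funext i
      exact FreeGroup.lift_apply_of
    rw [map_mul, map_inv, map_pr, map_pr, e]
    by_cases hs : s = s'
    · rw [hs, mul_inv_cancel]
    · rw [hf s s' hs, mul_inv_cancel]
  exact ⟨PresentedGroup.toGroup h, fun s => PresentedGroup.toGroup.of h⟩

theorem artin_bgen : Artin M (bgen M) := by
  intro s s' _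
  have e : (bgen M) = fun i => PresentedGroup.mk (brel M) (FreeGroup.of i) := rfl
  have h : PresentedGroup.mk (brel M)
      (pr FreeGroup.of s s' (M s s') * (pr FreeGroup.of s' s (M s s'))⁻¹) = 1 :=
    PresentedGroup.one_of_mem ⟨s, s', rfl⟩
  rw [map_mul, map_inv, mul_inv_eq_one, map_pr, map_pr] at h
  rw [e]
  exact h

section CMon
variable {R : Type w} [CommRing R] [Fintype S] [DecidableEq S] {F : Matrix S S R}

end CMon

end H42.NU

end

section

/-!
# Project AB: the group

`M` is a Coxeter matrix, `F` a set of vertices, `Γ v` a group for every vertex `v`. `AG M F Γ` is the Artin group of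
`M` in which the generator `v` is replaced by the group `Γ v` for `v ∈ F`.
-/

set_option autoImplicit false
set_option linter.unusedSectionVars false

open Finset

namespace Pool.Agent.H65.AB

open H42.NU

/-- The hypothesis on `F`: the labels of the elements of `F` are two or infinity (written `0`). -/
structure Mix {S : Type} (M : CoxeterMatrix S) (F : Finset S) : Prop where
  two : ∀ v ∈ F, ∀ s, s ≠ v → M v s = 2 ∨ M v s = 0

variable {S : Type} {M : CoxeterMatrix S} {F : Finset S} {Γ : S → Type} [∀ v, Group (Γ v)]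

private theorem rel_one {r : FPr M Γ} (h : r ∈ rels M F Γ) :
    (QuotientGroup.mk' (nrel M F Γ)) r = 1 :=
  (QuotientGroup.eq_one_iff _).2 (Subgroup.subset_normalClosure h)

theorem th_F {v : S} (hv : v ∈ F) : th M F Γ (bgen M v) = 1 :=
  rel_one (Or.inl ⟨v, hv, rfl⟩)

theorem io_nF {v : S} (hv : v ∉ F) (a : Γ v) : io M F v a = 1 :=
  rel_one (Or.inr (Or.inl ⟨v, hv, a, rfl⟩))

theorem th_io {s v : S} (h : M s v = 2) (a : Γ v) :
    th M F Γ (bgen M s) * io M F v a = io M F v a * th M F Γ (bgen M s) := by
  have h2 : th M F Γ (bgen M s) * io M F v a * (th M F Γ (bgen M s))⁻¹ * (io M F v a)⁻¹ = 1 :=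
    rel_one (F := F) (Or.inr (Or.inr (Or.inl ⟨s, v, h, a, rfl⟩)))
  rwa [mul_inv_eq_one, mul_inv_eq_iff_eq_mul] at h2

theorem io_io {u v : S} (h : M u v = 2) (a : Γ u) (b : Γ v) :
    io M F u a * io M F v b = io M F v b * io M F u a := by
  have h2 : io M F u a * io M F v b * (io M F u a)⁻¹ * (io M F v b)⁻¹ = 1 :=
    rel_one (F := F) (Or.inr (Or.inr (Or.inr ⟨u, v, h, a, b, rfl⟩)))
  rwa [mul_inv_eq_one, mul_inv_eq_iff_eq_mul] at h2

/-- the homomorphism of the free product -/
private def liF {H : Type} [Group H] (f : BG M →* H) (k : ∀ v, Γ v →* H) : FPr M Γ →* H :=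
  (Monoid.Coprod.lift f (Monoid.CoprodI.lift k) :
    Monoid.Coprod (BG M) (Monoid.CoprodI Γ) →* H)

private theorem liF_eB {H : Type} [Group H] (f : BG M →* H) (k : ∀ v, Γ v →* H) (x : BG M) :
    liF f k (eB M Γ x) = f x :=
  Monoid.Coprod.lift_apply_inl _ _ _

private theorem liF_eG {H : Type} [Group H] (f : BG M →* H) (k : ∀ v, Γ v →* H) (v : S)
    (a : Γ v) : liF f k (eG M Γ v a) = k v a := by
  have h : liF f k (eG M Γ v a) = Monoid.CoprodI.lift k (Monoid.CoprodI.of a) :=
    Monoid.Coprod.lift_apply_inr _ _ _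
  rw [h, Monoid.CoprodI.lift_of]

private theorem liF_comm {H : Type} [Group H] (f : BG M →* H) (k : ∀ v, Γ v →* H)
    {x y : FPr M Γ} (h : liF f k x * liF f k y = liF f k y * liF f k x) :
    liF f k (cmt x y) = 1 := by
  unfold cmt
  rw [map_mul, map_mul, map_mul, map_inv, map_inv, h,
    mul_inv_cancel_right, mul_inv_cancel]

/-- **The universal property.** -/
def liftAG {H : Type} [Group H] (f : BG M →* H) (k : ∀ v, Γ v →* H)
    (h1 : ∀ v ∈ F, f (bgen M v) = 1) (h2 : ∀ v, v ∉ F → ∀ a, k v a = 1)
    (h3 : ∀ s v, s ∉ F → v ∈ F → M s v = 2 → ∀ a, f (bgen M s) * k v a = k v a * f (bgen M s))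
    (h4 : ∀ u v, u ∈ F → v ∈ F → M u v = 2 → ∀ (a : Γ u) (b : Γ v), k u a * k v b = k v b * k u a) :
    AG M F Γ →* H :=
  QuotientGroup.lift (nrel M F Γ) (liF f k) (by
    have hle : nrel M F Γ ≤ (liF (Γ := Γ) f k).ker := by
      refine Subgroup.normalClosure_le_normal ?_
      rintro r (⟨v, hv, rfl⟩ | ⟨v, hv, a, rfl⟩ | ⟨s, v, h, a, rfl⟩ | ⟨u, v, h, a, b, rfl⟩)
      · show liF f k _ = 1
        rw [liF_eB]
        exact h1 v hv
      · show liF f k _ = 1
        rw [liF_eG]
        exact h2 v hv a
      · refine liF_comm f k ?_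
        rw [liF_eB, liF_eG]
        by_cases hs : s ∈ F
        · rw [h1 s hs, one_mul, mul_one]
        · by_cases hv : v ∈ F
          · exact h3 s v hs hv h a
          · rw [h2 v hv, one_mul, mul_one]
      · refine liF_comm f k ?_
        rw [liF_eG, liF_eG]
        by_cases hu : u ∈ F
        · by_cases hv : v ∈ F
          · exact h4 u v hu hv h a b
          · rw [h2 v hv, one_mul, mul_one]
        · rw [h2 u hu, one_mul, mul_one]
    exact fun x hx => hle hx)

section

variable {H : Type} [Group H] (f : BG M →* H) (k : ∀ v, Γ v →* H)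
    (h1 : ∀ v ∈ F, f (bgen M v) = 1) (h2 : ∀ v, v ∉ F → ∀ a, k v a = 1)
    (h3 : ∀ s v, s ∉ F → v ∈ F → M s v = 2 → ∀ a, f (bgen M s) * k v a = k v a * f (bgen M s))
    (h4 : ∀ u v, u ∈ F → v ∈ F → M u v = 2 → ∀ (a : Γ u) (b : Γ v), k u a * k v b = k v b * k u a)

theorem liftAG_th (x : BG M) : liftAG f k h1 h2 h3 h4 (th M F Γ x) = f x := by
  exact liF_eB f k x

theorem liftAG_io (v : S) (a : Γ v) : liftAG f k h1 h2 h3 h4 (io M F v a) = k v a := by
  exact liF_eG f k v a

end

/-- induction in the Artin group by multiplication on the right -/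
theorem bg_ind {C : BG M → Prop} (h1 : C 1) (hm : ∀ g s, C g → C (g * bgen M s))
    (hi : ∀ g s, C g → C (g * (bgen M s)⁻¹)) (g : BG M) : C g := by
  have h2 : g ∈ Subgroup.closure (Set.range (bgen M)) := by
    have h3 := PresentedGroup.closure_range_of (brel M)
    have h4 : Set.range (bgen M) = Set.range (PresentedGroup.of : S → BG M) := rfl
    rw [h4, h3]
    exact Subgroup.mem_top g
  refine Subgroup.closure_induction_right (p := fun x _ => C x) h1 ?_ ?_ h2
  · rintro x _ y ⟨s, rfl⟩ hx
    exact hm x s hx
  · rintro x _ y ⟨s, rfl⟩ hx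
    exact hi x s hx

private theorem fpr_ind {C : FPr M Γ → Prop} (h1 : C 1) (hB : ∀ x, C (eB M Γ x))
    (hG : ∀ v a, C (eG M Γ v a)) (hm : ∀ x y, C x → C y → C (x * y)) (x : FPr M Γ) : C x := by
  refine Monoid.Coprod.induction_on (motive := C) (x : Monoid.Coprod (BG M) (Monoid.CoprodI Γ))
    hB (fun y => ?_) hm
  refine Monoid.CoprodI.induction_on (motive := fun y => C
    (Monoid.Coprod.inr y : Monoid.Coprod (BG M) (Monoid.CoprodI Γ))) y ?_ hG ?_
  · have h2 : (Monoid.Coprod.inr 1 : Monoid.Coprod (BG M) (Monoid.CoprodI Γ)) = 1 := map_one _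
    exact h2 ▸ h1
  · intro a b ha hb
    have h2 : (Monoid.Coprod.inr (a * b) : Monoid.Coprod (BG M) (Monoid.CoprodI Γ)) =
      Monoid.Coprod.inr a * Monoid.Coprod.inr b := map_mul _ _ _
    exact h2 ▸ hm _ _ ha hb

/-- induction by multiplication on the right -/
theorem AG.ind {C : AG M F Γ → Prop} (h1 : C 1)
    (hm : ∀ g s, s ∉ F → C g → C (g * th M F Γ (bgen M s)))
    (hi : ∀ g s, s ∉ F → C g → C (g * (th M F Γ (bgen M s))⁻¹))
    (ha : ∀ g v, v ∈ F → ∀ a : Γ v, C g → C (g * io M F v a)) (g : AG M F Γ) : C g := by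
  let π : FPr M Γ →* AG M F Γ := QuotientGroup.mk' (nrel M F Γ)
  have h2 : ∀ x : FPr M Γ, ∀ g, C g → C (g * π x) := by
    intro x
    refine fpr_ind (C := fun x => ∀ g, C g → C (g * π x)) ?_ ?_ ?_ ?_ x
    · intro g hg
      rw [map_one, mul_one]
      exact hg
    · intro y
      refine bg_ind (C := fun y => ∀ g, C g → C (g * π (eB M Γ y))) ?_ ?_ ?_ y
      · intro g hg
        rw [map_one, map_one, mul_one]
        exact hg
      · intro y s hy g hg
        rw [map_mul, map_mul, ← mul_assoc]
        by_cases hs : s ∈ F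
        · have h3 : π (eB M Γ (bgen M s)) = 1 := th_F hs
          rw [h3, mul_one]
          exact hy g hg
        · exact hm _ s hs (hy g hg)
      · intro y s hy g hg
        rw [map_mul, map_mul, ← mul_assoc, map_inv, map_inv]
        by_cases hs : s ∈ F
        · have h3 : π (eB M Γ (bgen M s)) = 1 := th_F hs
          rw [h3, inv_one, mul_one]
          exact hy g hg
        · exact hi _ s hs (hy g hg)
    · intro v a g hg
      by_cases hv : v ∈ F
      · exact ha g v hv a hg
      · have h3 : π (eG M Γ v a) = 1 := io_nF hv a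
        rw [h3, mul_one]
        exact hg
    · intro x y hx hy g hg
      rw [map_mul, ← mul_assoc]
      exact hy _ (hx _ hg)
  obtain ⟨x, hx⟩ : ∃ x, π x = g := QuotientGroup.mk'_surjective (nrel M F Γ) g
  have h3 := h2 x 1 h1
  rwa [one_mul, hx] at h3

/-! ### Homomorphisms of the Artin group -/

/-- the universal property of the Artin group -/
def liftBG {H : Type} [Group H] (f : S → H) (hf : Artin M f) : BG M →* H :=
  PresentedGroup.toGroup (f := f) (rels := brel M) (by
    rintro r ⟨s, s', rfl⟩
    have hpr : ∀ n, FreeGroup.lift f (pr FreeGroup.of s s' n) = pr f s s' n ∧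
        FreeGroup.lift f (pr FreeGroup.of s' s n) = pr f s' s n := by
      intro n
      induction n with
      | zero => exact ⟨map_one _, map_one _⟩
      | succ n ih =>
        constructor
        · show FreeGroup.lift f (pr FreeGroup.of s s' n * FreeGroup.of (lt s s' n)) = _
          rw [map_mul, ih.1, FreeGroup.lift_apply_of]
          rfl
        · show FreeGroup.lift f (pr FreeGroup.of s' s n * FreeGroup.of (lt s' s n)) = _
          rw [map_mul, ih.2, FreeGroup.lift_apply_of]
          rfl
    rw [map_mul, map_inv, (hpr _).1, (hpr _).2, mul_inv_eq_one]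
    by_cases h : s = s'
    · rw [h]
    · exact hf s s' h)

theorem liftBG_gen {H : Type} [Group H] (f : S → H) (hf : Artin M f) (s : S) :
    liftBG f hf (bgen M s) = f s :=
  PresentedGroup.toGroup.of _

theorem bg_hom_ext {H : Type} [Group H] {f g : BG M →* H} (h : ∀ s, f (bgen M s) = g (bgen M s)) :
    f = g := by
  refine MonoidHom.ext fun x => ?_
  refine bg_ind (C := fun x => f x = g x) (by rw [map_one, map_one]) (fun x s hx => ?_)
    (fun x s hx => ?_) x
  · rw [map_mul, map_mul, hx, h s]
  · rw [map_mul, map_mul, map_inv, map_inv, hx, h s]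

/-- a family of elements in which two elements commute, or are equal if the label is not two or infinity,
satisfies the braid relations -/
theorem artin_of {H : Type} [Group H] (f : S → H)
    (h1 : ∀ s t, s ≠ t → M s t = 2 → f s * f t = f t * f s)
    (h2 : ∀ s t, s ≠ t → M s t ≠ 0 → M s t ≠ 2 → f s = f t) : Artin M f := by
  intro s s' hne
  by_cases h0 : M s s' = 0
  · rw [h0]
    rfl
  · by_cases h3 : M s s' = 2
    · rw [h3]
      show 1 * f s * f s' = 1 * f s' * f s
      rw [one_mul, one_mul]
      exact h1 s s' hne h3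
    · have h4 := h2 s s' hne h0 h3
      have h5 : ∀ n, pr f s s' n = f s ^ n ∧ pr f s' s n = f s ^ n := by
        intro n
        induction n with
        | zero => exact ⟨(pow_zero _).symm, (pow_zero _).symm⟩
        | succ n ih =>
          constructor
          · show pr f s s' n * f (lt s s' n) = _
            rw [ih.1, pow_succ]
            unfold lt
            split_ifs
            · rfl
            · rw [← h4]
          · show pr f s' s n * f (lt s' s n) = _
            rw [ih.2, pow_succ]
            unfold lt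
            split_ifs
            · rw [← h4]
            · rfl
      rw [(h5 _).1, (h5 _).2]

/-! ### The retraction, the projections, the numbers of letters -/

section

variable [DecidableEq S]

private theorem pr_congr' {G : Type} [Monoid G] {f g : S → G} {s s' : S} (h : f s = g s)
    (h' : f s' = g s') (n : ℕ) : pr f s s' n = pr g s s' n := by
  have h1 : ∀ n, f (lt s s' n) = g (lt s s' n) := by
    intro n
    unfold lt
    split_ifs
    · exact h
    · exact h'
  induction n with
  | zero => rfl
  | succ n ih =>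
    show pr f s s' n * _ = pr g s s' n * _
    rw [ih, h1]

private theorem pr_two' {G : Type} [Monoid G] (f : S → G) {s s' : S}
    (hM : M s s' = 2 ∨ M s s' = 0) (h : f s * f s' = f s' * f s) :
    pr f s s' (M s s') = pr f s' s (M s s') := by
  rcases hM with h1 | h1
  · rw [h1]
    show 1 * f s * f s' = 1 * f s' * f s
    rw [one_mul, one_mul]
    exact h
  · rw [h1]
    rfl

/-- the endomorphism of the Artin group which kills the generators in `F` -/
theorem exists_killBG (hX : Mix M F) : ∃ ρ : BG M →* BG M, ∀ s, ρ (bgen M s) =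
    if s ∈ F then 1 else bgen M s := by
  have hA : Artin M (fun s => if s ∈ F then 1 else bgen M s) := by
    intro s s' hne
    by_cases hs : s ∈ F
    · refine pr_two' _ (hX.two s hs s' hne.symm) ?_
      beta_reduce
      rw [if_pos hs, one_mul, mul_one]
    · by_cases hs' : s' ∈ F
      · refine pr_two' _ ?_ ?_
        · rw [M.symmetric s s']
          exact hX.two s' hs' s hne
        · beta_reduce
          rw [if_pos hs', one_mul, mul_one]
      · rw [pr_congr' (g := bgen M) (s := s) (s' := s') (if_neg hs) (if_neg hs'),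
          pr_congr' (g := bgen M) (s := s') (s' := s) (if_neg hs') (if_neg hs)]
        exact artin_bgen s s' hne
  exact ⟨liftBG _ hA, fun s => liftBG_gen _ hA s⟩

/-- **The retraction.** -/
theorem exists_ret (hX : Mix M F) (Γ : S → Type) [∀ v, Group (Γ v)] :
    ∃ r : AG M F Γ →* BG M, (∀ s, s ∉ F → r (th M F Γ (bgen M s)) = bgen M s) ∧
      ∀ v (a : Γ v), r (io M F v a) = 1 := by
  obtain ⟨ρ, hρ⟩ := exists_killBG (M := M) hX
  refine ⟨liftAG ρ (fun _ => 1) (fun v hv => by rw [hρ, if_pos hv])
    (fun _ _ _ => rfl) (fun s v _ _ _ a => by rw [MonoidHom.one_apply, one_mul, mul_one])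
    (fun u v _ _ _ a b => by rw [MonoidHom.one_apply, MonoidHom.one_apply]), fun s hs => ?_,
    fun v a => ?_⟩
  · rw [liftAG_th, hρ, if_neg hs]
  · rw [liftAG_io, MonoidHom.one_apply]

open Classical in
/-- the projection to the vertex group `Γ v` -/
noncomputable def pj (M : CoxeterMatrix S) (F : Finset S) {Γ : S → Type} [∀ v, Group (Γ v)] (v : S) :
    AG M F Γ →* Γ v :=
  liftAG 1 (fun u => if h : u = v ∧ v ∈ F then h.1 ▸ MonoidHom.id (Γ u) else 1)
    (fun _ _ => rfl) (by
      intro u hu a
      have h2 : ¬ (u = v ∧ v ∈ F) := fun h => hu (h.1.symm ▸ h.2)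
      rw [dif_neg h2, MonoidHom.one_apply]) (by
      intro s u _ _ _ a
      rw [MonoidHom.one_apply, one_mul, mul_one]) (by
      intro u w _ _ h a b
      by_cases h1 : u = v ∧ v ∈ F
      · have h2 : ¬ (w = v ∧ v ∈ F) := fun h2 => by
          rw [h1.1, h2.1, M.diagonal] at h
          exact absurd h (by norm_num)
        rw [dif_neg h2, MonoidHom.one_apply, mul_one, one_mul]
      · rw [dif_neg h1, MonoidHom.one_apply, mul_one, one_mul])

theorem pj_same {v : S} (hv : v ∈ F) (a : Γ v) : pj M F v (io M F v a) = a := by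
  unfold pj
  rw [liftAG_io, dif_pos ⟨rfl, hv⟩]
  rfl

theorem pj_ne {u v : S} (h : u ≠ v) (a : Γ u) : pj M F v (io M F u a) = 1 := by
  unfold pj
  rw [liftAG_io, dif_neg (fun h' => h h'.1), MonoidHom.one_apply]

theorem pj_th (v : S) (x : BG M) : pj M F v (th M F Γ x) = 1 := by
  unfold pj
  rw [liftAG_th, MonoidHom.one_apply]

end

/-- `L` counts the generators in `C` -/
structure IsLam (M : CoxeterMatrix S) (F : Finset S) (Γ : S → Type) [∀ v, Group (Γ v)] (C : Finset S)
    (L : AG M F Γ → ℤ) : Prop where
  mul : ∀ g h, L (g * h) = L g + L h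
  io : ∀ v (a : Γ v), L (io M F v a) = 0
  mem : ∀ s ∈ C, L (th M F Γ (bgen M s)) = 1
  nmem : ∀ s, s ∉ C → L (th M F Γ (bgen M s)) = 0

theorem IsLam.zero : IsLam M F Γ ∅ (fun _ => 0) :=
  ⟨fun _ _ => (add_zero _).symm, fun _ _ => rfl, fun s hs => absurd hs (notMem_empty s),
    fun _ _ => rfl⟩

theorem IsLam.one {C : Finset S} {L : AG M F Γ → ℤ} (h : IsLam M F Γ C L) : L 1 = 0 := by
  have h1 := h.mul 1 1
  rw [mul_one] at h1
  omega

theorem IsLam.inv {C : Finset S} {L : AG M F Γ → ℤ} (h : IsLam M F Γ C L) (g : AG M F Γ) :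
    L g⁻¹ = -L g := by
  have h1 := h.mul g⁻¹ g
  rw [inv_mul_cancel, h.one] at h1
  omega

/-! ### Full subgroups -/

section

variable [DecidableEq S]

/-- the elements of `F` in `U` -/
def rF (F U : Finset S) : Finset {v // v ∈ U} := univ.filter fun v => v.1 ∈ F

theorem mem_rF {U : Finset S} {v : {v // v ∈ U}} : v ∈ rF F U ↔ v.1 ∈ F := by
  unfold rF
  rw [mem_filter]
  exact ⟨fun h => h.2, fun h => ⟨mem_univ v, h⟩⟩

end

end Pool.Agent.H65.AB

end

section

/-!
# Project RC: the complex of nested connected subsets of a connected graph is a homology sphere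

`Con D J`: the set `J` of vertices is nonempty and connected in the graph `D`.
`NG B`: the graph on the sets in which `I`, `J` are joined if they are nested, or disjoint and
`I ∪ J` is not in the family `B`.

Main result `nested_sphere`: for a connected set `U` the graph of the connected proper subsets of `U` is
a homology sphere (the dual of the graph associahedron).

Proof: a vertex `s` with `U \ s` connected exists.  Without the edges at `s` the graph is a suspension of
the one for `U \ s`.  Then the edges at `s` are added one by one.  When the edge `a b` is added to `D0`, the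
sets `K` which become connected have exactly two parts `K1 ∋ a`, `K2 ∋ b`, connected in `D0`; adding them in
the order of decreasing size each of them subdivides the edge `K1 K2`.
-/

set_option autoImplicit false

open Finset

namespace Pool.Agent.H78.RC

section

variable {S : Type} [DecidableEq S]

theorem con_single (D : SimpleGraph S) (s : S) : Con D {s} := by
  refine ⟨singleton_nonempty s, fun A hA hne _ => ?_⟩
  obtain ⟨x, hx⟩ := hne
  have hxs := mem_singleton.1 (hA hx)
  subst hxs
  exact Subset.antisymm hA (singleton_subset_iff.2 hx)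

/-- a closed subset meets a connected set in nothing or everything -/
theorem Con.closed {D : SimpleGraph S} {J A : Finset S} (hJ : Con D J)
    (h : ∀ a ∈ A ∩ J, ∀ b ∈ J, b ∉ A → ¬ D.Adj a b) : Disjoint A J ∨ J ⊆ A := by
  by_cases hne : (A ∩ J).Nonempty
  · right
    have h1 := hJ.2 (A ∩ J) inter_subset_right hne (fun a ha b hb => by
      rw [mem_sdiff, mem_inter] at hb
      exact h a ha b hb.1 (fun hbA => hb.2 ⟨hbA, hb.1⟩))
    intro x hx
    rw [← h1] at hx
    exact (mem_inter.1 hx).1
  · left
    rw [not_nonempty_iff_eq_empty] at hne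
    exact disjoint_iff_inter_eq_empty.2 hne

end

end Pool.Agent.H78.RC

end

section

/-!
# Project AA (Artin groups): definitions

`BG M` is the Artin group of the Coxeter matrix `M`, `bgen M s` are its generators; `Sph M T`: the parabolic
subgroup `W_T = par M T` is finite; `lw M T` is its longest element.
-/

set_option autoImplicit false

open Finset

namespace Pool.Agent.H93.AA

open Pool.Agent.H4.FC Pool.Agent.H78.RC H42.NU

variable {S : Type}

/-- the elements `β_{T,J}` of the group ring of the Artin group -/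
noncomputable def bt (M : CoxeterMatrix S) (T J : Finset S) : MonoidAlgebra ℤ (BG M) :=
  ∑ w ∈ mn M T J, (-1 : ℤ) ^ M.toCoxeterSystem.length w • MonoidAlgebra.of ℤ (BG M) (lft M w)

section

variable [DecidableEq S]

/-- the irreducible spherical sets of generators -/
abbrev Irr (M : CoxeterMatrix S) : Type := {T : Finset S // Sph M T ∧ Con (diag M) T}

/-- irreducible spherical sets are adjacent if one contains the other or if they are orthogonal -/
def nG (M : CoxeterMatrix S) : SimpleGraph (Irr M) where
  Adj X Y := X ≠ Y ∧ (X.1 ⊆ Y.1 ∨ Y.1 ⊆ X.1 ∨ Sep M X.1 Y.1)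
  symm := ⟨fun X Y h => ⟨h.1.symm, by
    rcases h.2 with h1 | h1 | h1
    · exact Or.inr (Or.inl h1)
    · exact Or.inl h1
    · exact Or.inr (Or.inr fun j hj k hk => by rw [M.symmetric]; exact h1 k hk j hj)⟩⟩
  loopless := ⟨fun _ h => h.1 rfl⟩

/-- the squares `Δ_T ^ 2` -/
noncomputable def xg (M : CoxeterMatrix S) (X : Irr M) : BG M := dlt M X.1 ^ 2

end

end Pool.Agent.H93.AA

end
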