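import Pool.Agent.H71.TSG.M11
import Pool.Agent.H71.TSG.M67

/-! The parts of this file: H65.AB.Nb, H65.RA.Defs, H65.RA.Psi, H65.BU.Defs, H65.BU.Apt, H65.BU.Faces, H65.BU.HH. -/

section

/-!
# Project AB: common neighbours
-/

set_option autoImplicit false
set_option linter.unusedSectionVars false

open Finset

namespace Pool.Agent.H65.AB

variable {S : Type} [Fintype S] [DecidableEq S] {M : CoxeterMatrix S} {F : Finset S}

/-- the common neighbours of `T` (labels two) -/
def nb (M : CoxeterMatrix S) (T : Finset S) : Finset S := univ.filter fun s => ∀ v ∈ T, M v s = 2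

theorem mem_nb {T : Finset S} {s : S} : s ∈ nb M T ↔ ∀ v ∈ T, M v s = 2 := by
  unfold nb
  rw [mem_filter]
  exact ⟨fun h => h.2, fun h => ⟨mem_univ s, h⟩⟩

/-- pairwise orthogonal -/
def Orth (M : CoxeterMatrix S) (T : Finset S) : Prop := ∀ u ∈ T, ∀ v ∈ T, u ≠ v → M u v = 2

end Pool.Agent.H65.AB

end

section

/-!
# Project RA: definitions

The octahedralisation of a flag complex and the vanishing of reduced mod 2 homology.
-/

set_option autoImplicit false

open Finset

namespace Pool.Agent.H65.RA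

variable {V : Type}

/-- The graph of the octahedralisation of the flag complex of `G`: every vertex `v` is replaced by
the two vertices `(v, false)`, `(v, true)`, which are not adjacent. -/
def oct (G : SimpleGraph V) : SimpleGraph (V × Bool) where
  Adj a b := G.Adj a.1 b.1
  symm := ⟨fun _ _ h => h.symm⟩
  loopless := ⟨fun a h => G.loopless.irrefl a.1 h⟩

/-- The reduced homology modulo two of the flag complex of `G` vanishes on the simplices with `j`
vertices (in degree `j - 1`): every cycle is a boundary. -/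
def HZ [DecidableEq V] [Fintype V] (G : SimpleGraph V) (j : ℕ) : Prop :=
  ∀ z : Finset V → ZMod 2, (∀ s, z s ≠ 0 → G.IsClique (s : Set V) ∧ s.card = j) →
    (∀ s, ∑ v ∈ sᶜ, z (insert v s) = 0) →
    ∃ y : Finset V → ZMod 2, (∀ s, y s ≠ 0 → G.IsClique (s : Set V) ∧ s.card = j + 1) ∧
      ∀ s, ∑ v ∈ sᶜ, y (insert v s) = z s

end Pool.Agent.H65.RA

end

section

/-!
# Project RA: the equivariant chain map

For a function `g` on pairs of simplices of the octahedralisation, `Ps g` is a function on the pairs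
of simplices of the flag complex. It commutes with the coboundary operators and with the exchange of
the two simplices.
-/

set_option autoImplicit false
set_option linter.unusedSectionVars false

open Finset

namespace Pool.Agent.H65.RA

variable {V : Type} [DecidableEq V]

/-- the simplex `σ` with the signs `b` -/
def sgn (σ : Finset V) (b : V → Bool) : Finset (V × Bool) := σ.image fun v => (v, b v)

theorem mem_sgn {σ : Finset V} {b : V → Bool} {w : V × Bool} :
    w ∈ sgn σ b ↔ w.1 ∈ σ ∧ w.2 = b w.1 := by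
  unfold sgn
  rw [mem_image]
  constructor
  · rintro ⟨v, hv, rfl⟩
    exact ⟨hv, rfl⟩
  · rintro ⟨h1, h2⟩
    exact ⟨w.1, h1, Prod.ext rfl h2.symm⟩

theorem sgn_congr {σ : Finset V} {b b' : V → Bool} (h : ∀ v ∈ σ, b v = b' v) :
    sgn σ b = sgn σ b' := by
  unfold sgn
  exact image_congr fun v hv => by rw [h v hv]

theorem sgn_inj (b : V → Bool) : Function.Injective fun v : V => (v, b v) :=
  fun _ _ h => congrArg Prod.fst h

theorem card_sgn (σ : Finset V) (b : V → Bool) : (sgn σ b).card = σ.card :=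
  card_image_of_injective σ (sgn_inj b)

theorem sum_sgn (σ : Finset V) (b : V → Bool) (f : V × Bool → ZMod 2) :
    ∑ w ∈ sgn σ b, f w = ∑ v ∈ σ, f (v, b v) :=
  sum_image fun _ _ _ _ h => sgn_inj b h

theorem erase_sgn (σ : Finset V) (b : V → Bool) (v : V) :
    (sgn σ b).erase (v, b v) = sgn (σ.erase v) b := by
  unfold sgn
  rw [image_erase (sgn_inj b)]

theorem clique_sgn {G : SimpleGraph V} {σ : Finset V} (b : V → Bool)
    (h : G.IsClique (σ : Set V)) : (oct G).IsClique (sgn σ b : Set (V × Bool)) := by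
  intro w hw w' hw' hne
  rw [mem_coe, mem_sgn] at hw hw'
  refine h hw.1 hw'.1 fun h1 => hne (Prod.ext h1 ?_)
  rw [hw.2, hw'.2, h1]

/-- the signs of the first simplex -/
def sA (S A : Finset V) (v : V) : Bool := decide (v ∈ A ∨ v ∉ S)

/-- the signs of the second simplex -/
def sB (A : Finset V) (v : V) : Bool := decide (v ∉ A)

/-- the point at which the polynomial is evaluated -/
def ep (σ τ A : Finset V) : Finset V := (A ∩ (σ ∩ τ)) ∪ (τ \ σ)

open Classical in
/-- the cliques between `σ ∩ τ` and `σ ∪ τ` -/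
noncomputable def bet (G : SimpleGraph V) (σ τ : Finset V) : Finset (Finset V) :=
  (σ ∪ τ).powerset.filter fun S => σ ∩ τ ⊆ S ∧ G.IsClique (S : Set V)

theorem mem_bet {G : SimpleGraph V} {σ τ S : Finset V} :
    S ∈ bet G σ τ ↔ S ⊆ σ ∪ τ ∧ σ ∩ τ ⊆ S ∧ G.IsClique (S : Set V) := by
  classical
  unfold bet
  rw [mem_filter, mem_powerset]

theorem bet_comm (G : SimpleGraph V) (σ τ : Finset V) : bet G σ τ = bet G τ σ := by
  ext S
  rw [mem_bet, mem_bet, union_comm, inter_comm]

/-- the pull-back of a function on the pairs of simplices of the octahedralisation -/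
noncomputable def Ps (G : SimpleGraph V) (e : V → ℕ) (x : Finset V → ZMod 2) (k : ℕ)
    (g : Finset (V × Bool) → Finset (V × Bool) → ZMod 2) (σ τ : Finset V) : ZMod 2 :=
  ∑ S ∈ bet G σ τ, ∑ A ∈ S.powerset,
    FS e x k S (ep σ τ A) * g (sgn σ (sA S A)) (sgn τ (sB A))

variable {G : SimpleGraph V} (e : V → ℕ) (x : Finset V → ZMod 2) (k : ℕ)

/-- the exchange of the two simplices -/
theorem Ps_swap (he : Function.Injective e)
    (hx : ∀ D : Finset V, G.IsClique (D : Set V) → D.card = k + 2 → ∑ v ∈ D, x (D.erase v) = 0)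
    (g : Finset (V × Bool) → Finset (V × Bool) → ZMod 2) (σ τ : Finset V) :
    Ps G e x k g σ τ = Ps G e x k (fun a b => g b a) τ σ := by
  unfold Ps
  rw [bet_comm G τ σ]
  refine sum_congr rfl fun S hS => ?_
  rw [mem_bet] at hS
  obtain ⟨hS1, hS2, hS3⟩ := hS
  refine sum_nbij' (fun A => S \ A) (fun A => S \ A) ?_ ?_ ?_ ?_ ?_
  · intro A _
    exact mem_powerset.2 sdiff_subset
  · intro A _
    exact mem_powerset.2 sdiff_subset
  · intro A hA
    exact Finset.sdiff_sdiff_eq_self (mem_powerset.1 hA)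
  · intro A hA
    exact Finset.sdiff_sdiff_eq_self (mem_powerset.1 hA)
  · intro A hA
    rw [mem_powerset] at hA
    beta_reduce
    congr 1
    · rw [← FS_compl e he x k S (ep σ τ A)
        fun D hD hc => hx D (fun a ha b hb hab => hS3 (hD ha) (hD hb) hab) hc]
      refine FS_congr e x k fun u hu => ?_
      have h1 := hS1 hu
      unfold ep
      simp only [mem_sdiff, mem_union, mem_inter] at h1 ⊢
      tauto
    · congr 1
      · refine sgn_congr fun v _ => ?_
        unfold sA sB
        rw [decide_eq_decide, mem_sdiff]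
        tauto
      · refine sgn_congr fun v _ => ?_
        unfold sA sB
        rw [decide_eq_decide, mem_sdiff]
        have := @hA v
        tauto

/-- a clique of `σ ∪ τ` together with an element of `σ ∩ τ` is a clique -/
theorem clique_insert {σ τ S : Finset V} (hσ : G.IsClique (σ : Set V))
    (hτ : G.IsClique (τ : Set V)) {v : V} (hvσ : v ∈ σ) (hvτ : v ∈ τ) (hS : S ⊆ σ ∪ τ)
    (hc : G.IsClique (S : Set V)) : G.IsClique ((insert v S : Finset V) : Set V) := by
  intro a ha b hb hab
  rw [mem_coe, mem_insert] at ha hb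
  have key : ∀ u ∈ S, u ≠ v → G.Adj v u := by
    intro u hu huv
    rcases mem_union.1 (hS hu) with h | h
    · exact hσ hvσ h huv.symm
    · exact hτ hvτ h huv.symm
  rcases ha with rfl | ha
  · rcases hb with rfl | hb
    · exact absurd rfl hab
    · exact key b hb hab.symm
  · rcases hb with rfl | hb
    · exact (key a ha hab).symm
    · exact hc ha hb hab

private theorem step_out {σ τ : Finset V} {v : V} (hvτ : v ∉ τ)
    (g : Finset (V × Bool) → Finset (V × Bool) → ZMod 2) :
    ∑ S ∈ bet G σ τ, ∑ A ∈ S.powerset,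
      FS e x k S (ep σ τ A) * g (sgn (σ.erase v) (sA S A)) (sgn τ (sB A)) =
    Ps G e x k g (σ.erase v) τ := by
  unfold Ps
  have hsub : bet G (σ.erase v) τ ⊆ bet G σ τ := by
    intro S hS
    rw [mem_bet] at hS ⊢
    refine ⟨hS.1.trans (union_subset_union (erase_subset v σ) (Subset.refl τ)), ?_, hS.2.2⟩
    intro u hu
    rw [mem_inter] at hu
    refine hS.2.1 (mem_inter.2 ⟨mem_erase.2 ⟨fun h => hvτ (h ▸ hu.2), hu.1⟩, hu.2⟩)
  rw [← sum_subset hsub]
  · refine sum_congr rfl fun S hS => sum_congr rfl fun A _ => ?_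
    congr 1
    refine FS_congr e x k fun u hu => ?_
    have huv : u ≠ v := by
      intro h
      rw [mem_bet] at hS
      have h1 := hS.1 hu
      rw [mem_union, mem_erase] at h1
      rcases h1 with h1 | h1
      · exact h1.1 h
      · exact hvτ (h ▸ h1)
    unfold ep
    simp only [mem_union, mem_inter, mem_sdiff, mem_erase]
    tauto
  · intro S hS hS'
    have hvS : v ∈ S := by
      by_contra h
      apply hS'
      rw [mem_bet] at hS ⊢
      refine ⟨fun u hu => ?_, fun u hu => ?_, hS.2.2⟩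
      · have huv : u ≠ v := fun h' => h (h' ▸ hu)
        have h1 := hS.1 hu
        rw [mem_union] at h1 ⊢
        rw [mem_erase]
        tauto
      · rw [mem_inter] at hu
        exact hS.2.1 (mem_inter.2 ⟨mem_of_mem_erase hu.1, hu.2⟩)
    obtain ⟨S', hvS', rfl⟩ : ∃ S', v ∉ S' ∧ S = insert v S' :=
      ⟨S.erase v, notMem_erase v S, (insert_erase hvS).symm⟩
    rw [sum_powerset_insert hvS', ← sum_add_distrib]
    refine sum_eq_zero fun A hA => ?_
    rw [mem_powerset] at hA
    have hvA : v ∉ A := fun h => hvS' (hA h)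
    have h1 : FS e x k (insert v S') (ep σ τ (insert v A)) =
        FS e x k (insert v S') (ep σ τ A) := by
      refine FS_congr e x k fun u _ => ?_
      unfold ep
      simp only [mem_union, mem_inter, mem_sdiff, mem_insert]
      constructor
      · rintro (⟨h2 | h2, h3, h4⟩ | h2)
        · exact absurd (h2 ▸ h4) hvτ
        · exact Or.inl ⟨h2, h3, h4⟩
        · exact Or.inr h2
      · rintro (⟨h2, h3, h4⟩ | h2)
        · exact Or.inl ⟨Or.inr h2, h3, h4⟩
        · exact Or.inr h2
    have h2 : sgn (σ.erase v) (sA (insert v S') (insert v A)) =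
        sgn (σ.erase v) (sA (insert v S') A) := by
      refine sgn_congr fun u hu => ?_
      unfold sA
      rw [decide_eq_decide, mem_insert]
      have := ne_of_mem_erase hu
      tauto
    have h3 : sgn τ (sB (insert v A)) = sgn τ (sB A) := by
      refine sgn_congr fun u hu => ?_
      unfold sB
      rw [decide_eq_decide, mem_insert]
      have : u ≠ v := fun h => hvτ (h ▸ hu)
      tauto
    rw [h1, h2, h3]
    exact z2_add_self _

private theorem step_in {σ τ : Finset V} (hσ : G.IsClique (σ : Set V))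
    (hτ : G.IsClique (τ : Set V)) {v : V} (hvσ : v ∈ σ) (hvτ : v ∈ τ)
    (g : Finset (V × Bool) → Finset (V × Bool) → ZMod 2) :
    ∑ S ∈ bet G σ τ, ∑ A ∈ S.powerset,
      FS e x k S (ep σ τ A) * g (sgn (σ.erase v) (sA S A)) (sgn τ (sB A)) =
    Ps G e x k g (σ.erase v) τ := by
  classical
  have hU : σ.erase v ∪ τ = σ ∪ τ := by
    ext u
    simp only [mem_union, mem_erase]
    constructor
    · rintro (⟨_, h⟩ | h)
      · exact Or.inl h
      · exact Or.inr h
    · rintro (h | h)
      · by_cases huv : u = v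
        · exact Or.inr (huv ▸ hvτ)
        · exact Or.inl ⟨huv, h⟩
      · exact Or.inr h
  have hmem1 : ∀ S, S ∈ bet G σ τ ↔ S ∈ (bet G (σ.erase v) τ).filter (v ∈ ·) := by
    intro S
    rw [mem_filter, mem_bet, mem_bet, hU]
    constructor
    · rintro ⟨h1, h2, h3⟩
      refine ⟨⟨h1, fun u hu => h2 ?_, h3⟩, h2 (mem_inter.2 ⟨hvσ, hvτ⟩)⟩
      rw [mem_inter] at hu ⊢
      exact ⟨mem_of_mem_erase hu.1, hu.2⟩
    · rintro ⟨⟨h1, h2, h3⟩, h4⟩
      refine ⟨h1, fun u hu => ?_, h3⟩
      by_cases huv : u = v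
      · rwa [huv]
      · rw [mem_inter] at hu
        exact h2 (mem_inter.2 ⟨mem_erase.2 ⟨huv, hu.1⟩, hu.2⟩)
  have hmem : bet G σ τ = (bet G (σ.erase v) τ).filter (v ∈ ·) := by
    ext S
    exact hmem1 S
  unfold Ps
  rw [← sum_filter_add_sum_filter_not (bet G (σ.erase v) τ) (v ∈ ·), ← hmem]
  have h2 : ∑ S ∈ (bet G (σ.erase v) τ).filter (fun S => ¬ v ∈ S), ∑ A ∈ S.powerset,
      FS e x k S (ep (σ.erase v) τ A) * g (sgn (σ.erase v) (sA S A)) (sgn τ (sB A)) =
      ∑ S ∈ bet G σ τ, ∑ A ∈ (S.erase v).powerset,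
      FS e x k (S.erase v) (ep (σ.erase v) τ A) *
        g (sgn (σ.erase v) (sA (S.erase v) A)) (sgn τ (sB A)) := by
    refine sum_nbij' (fun S => insert v S) (fun S => S.erase v) ?_ ?_ ?_ ?_ ?_
    · intro S hS
      rw [mem_filter, mem_bet, hU] at hS
      obtain ⟨⟨h1, h2, h3⟩, h4⟩ := hS
      rw [mem_bet]
      refine ⟨insert_subset (mem_union_left _ hvσ) h1, fun u hu => ?_,
        clique_insert hσ hτ hvσ hvτ h1 h3⟩
      by_cases huv : u = v
      · rw [huv]
        exact mem_insert_self v S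
      · rw [mem_inter] at hu
        exact mem_insert_of_mem (h2 (mem_inter.2 ⟨mem_erase.2 ⟨huv, hu.1⟩, hu.2⟩))
    · intro S hS
      rw [mem_bet] at hS
      obtain ⟨h1, h2, h3⟩ := hS
      rw [mem_filter, mem_bet, hU]
      refine ⟨⟨(erase_subset v S).trans h1, fun u hu => ?_, fun a ha b hb hab =>
        h3 (mem_of_mem_erase ha) (mem_of_mem_erase hb) hab⟩, notMem_erase v S⟩
      rw [mem_inter, mem_erase] at hu
      exact mem_erase.2 ⟨hu.1.1, h2 (mem_inter.2 ⟨hu.1.2, hu.2⟩)⟩
    · intro S hS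
      rw [mem_filter] at hS
      exact erase_insert hS.2
    · intro S hS
      rw [hmem, mem_filter] at hS
      exact insert_erase hS.2
    · intro S hS
      rw [mem_filter] at hS
      rw [erase_insert hS.2]
  rw [h2, ← sum_add_distrib]
  refine sum_congr rfl fun S hS => ?_
  have hvS : v ∈ S := by
    rw [hmem, mem_filter] at hS
    exact hS.2
  obtain ⟨S', hvS', rfl⟩ : ∃ S', v ∉ S' ∧ S = insert v S' :=
    ⟨S.erase v, notMem_erase v S, (insert_erase hvS).symm⟩
  rw [erase_insert hvS', sum_powerset_insert hvS', sum_powerset_insert hvS',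
    ← sum_add_distrib, ← sum_add_distrib, ← sum_add_distrib]
  refine sum_congr rfl fun A hA => ?_
  rw [mem_powerset] at hA
  have hvA : v ∉ A := fun h => hvS' (hA h)
  have h3 : FS e x k (insert v S') (ep σ τ (insert v A)) =
      FS e x k (insert v S') (ep (σ.erase v) τ (insert v A)) := by
    refine FS_congr e x k fun u _ => ?_
    unfold ep
    simp only [mem_union, mem_inter, mem_sdiff, mem_insert, mem_erase]
    by_cases huv : u = v
    · subst huv
      tauto
    · tauto
  have h4 : FS e x k (insert v S') (ep (σ.erase v) τ A) =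
      FS e x k (insert v S') (insert v (ep σ τ A)) := by
    refine FS_congr e x k fun u _ => ?_
    unfold ep
    simp only [mem_union, mem_inter, mem_sdiff, mem_insert, mem_erase]
    by_cases huv : u = v
    · subst huv
      tauto
    · tauto
  have hvep : v ∉ ep σ τ A := by
    unfold ep
    simp only [mem_union, mem_inter, mem_sdiff]
    tauto
  have h5 : FS e x k S' (ep (σ.erase v) τ A) = FS e x k S' (ep σ τ A) := by
    refine FS_congr e x k fun u hu => ?_
    have huv : u ≠ v := fun h => hvS' (h ▸ hu)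
    unfold ep
    simp only [mem_union, mem_inter, mem_sdiff, mem_erase]
    tauto
  have h6 := FS_toggle e x k (S := insert v S') (mem_insert_self v S') hvep
  rw [erase_insert hvS'] at h6
  have h7 : sgn (σ.erase v) (sA S' A) = sgn (σ.erase v) (sA (insert v S') A) := by
    refine sgn_congr fun u hu => ?_
    unfold sA
    rw [decide_eq_decide, mem_insert]
    have := ne_of_mem_erase hu
    tauto
  rw [h3, h4, h5, h7, ← h6]
  have h8 := z2_add_self (FS e x k (insert v S') (insert v (ep σ τ A)) *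
    g (sgn (σ.erase v) (sA (insert v S') A)) (sgn τ (sB A)))
  linear_combination -h8

end Pool.Agent.H65.RA

end

section

/-!
# Project BU: definitions

Graph products with at least three elements in every vertex group. `W` is the right-angled Coxeter group of the
graph `G`, an apartment is a map `W → A`; cubes of an apartment with signs for the first letters.
-/

set_option autoImplicit false

open Finset

namespace Pool.Agent.H65.BU

open Pool.Agent.H65.RA

variable {V W A : Type} [Fintype V] [DecidableEq V] [Group W] [Group A] {M : CoxeterMatrix V}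

/-- `M` is the right-angled Coxeter matrix of the graph `G` -/
def RA (G : SimpleGraph V) (M : CoxeterMatrix V) : Prop :=
  ∀ u v, u ≠ v → (G.Adj u v → M u v = 2) ∧ (¬ G.Adj u v → M u v = 0)

open Classical in
/-- the first letters of `w` (left descents) -/
noncomputable def fst (cs : CoxeterSystem M W) (w : W) : Finset V :=
  univ.filter fun v => cs.IsLeftDescent w v

open Classical in
/-- the first letters of the elements of the cube `(w, s)` (the coset of `w` of the subgroup of `s`) -/
noncomputable def FH (cs : CoxeterSystem M W) (w : W) (s : Finset V) : Finset V :=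
  fst cs w ∪ s.filter fun v => cs.simple v * w = w * cs.simple v

/-- The facts on the right-angled Coxeter group. -/
structure Facts (G : SimpleGraph V) (cs : CoxeterSystem M W) : Prop where
  comm : ∀ u v, G.Adj u v → cs.simple u * cs.simple v = cs.simple v * cs.simple u
  clique : ∀ w, G.IsClique (fst cs w : Set V)
  exch : ∀ w u v, v ∉ fst cs w → v ∈ fst cs (w * cs.simple u) →
    cs.simple v * w = w * cs.simple u
  same : ∀ w u v, cs.simple v * w = w * cs.simple u → u = v
  left : ∀ w u v, G.Adj u v → (v ∈ fst cs (cs.simple u * w) ↔ v ∈ fst cs w)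
  inj : ∀ u v, cs.simple u = cs.simple v → u = v
  step : ∀ w v, cs.simple v * w = w * cs.simple v → v ∉ fst cs w → w ≠ 1 →
    ∃ w' u, w = w' * cs.simple u ∧ cs.length w = cs.length w' + 1 ∧ G.Adj u v ∧
      cs.simple v * w' = w' * cs.simple v ∧ v ∉ fst cs w'

/-- Parities and apartments: `pr w v` is the parity of the number of letters `v` of `w`, `g a` is the apartment
for the signs `a`. -/
structure Apts (cs : CoxeterSystem M W) (pr : W → V → ZMod 2) (p : V × Bool → A)
    (g : (V → Bool) → W → A) : Prop where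
  pr_one : ∀ v, pr 1 v = 0
  pr_mul : ∀ w v u, pr (w * cs.simple v) u = pr w u + if u = v then 1 else 0
  one : ∀ a, g a 1 = 1
  mul : ∀ a w v, g a (w * cs.simple v) =
    if pr w v = 0 then g a w * p (v, a v) else g a w * (p (v, a v))⁻¹

/-- cubes with signs: the corner `w` (with even parities in the directions `s`), the directions `s`, the signed
first letters -/
abbrev Cub (V W : Type) := W × Finset V × Finset (V × Bool)

/-- the signs over `X` -/
def res (X : Finset V) (a : Finset (V × Bool)) : Finset (V × Bool) := a.filter fun q => q.1 ∈ X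

/-- the faces of a cube -/
noncomputable def fa (cs : CoxeterSystem M W) (c : Cub V W) (v : V) : Cub V W :=
  (c.1, c.2.1.erase v, res (FH cs c.1 (c.2.1.erase v)) c.2.2)

/-- the opposite faces of a cube -/
noncomputable def fb (cs : CoxeterSystem M W) (c : Cub V W) (v : V) : Cub V W :=
  (c.1 * cs.simple v, c.2.1.erase v, res (FH cs (c.1 * cs.simple v) (c.2.1.erase v)) c.2.2)

/-- the coboundary of a function on pairs of cubes -/
noncomputable def dl (cs : CoxeterSystem M W) (φ : Cub V W → Cub V W → ZMod 2)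
    (c c' : Cub V W) : ZMod 2 :=
  ∑ v ∈ c.2.1, (φ (fa cs c v) c' + φ (fb cs c v) c') +
    ∑ v ∈ c'.2.1, (φ c (fa cs c' v) + φ c (fb cs c' v))

/-- the cubes which occur -/
def Valid (G : SimpleGraph V) (cs : CoxeterSystem M W) (pr : W → V → ZMod 2) (c : Cub V W) : Prop :=
  G.IsClique (c.2.1 : Set V) ∧ (∀ v ∈ c.2.1, pr c.1 v = 0) ∧
    ∃ α : V → Bool, c.2.2 = sgn (FH cs c.1 c.2.1) α

/-- the pairs of cubes which occur -/
def Ok (G : SimpleGraph V) (cs : CoxeterSystem M W) (pr : W → V → ZMod 2) (c c' : Cub V W) : Prop :=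
  Valid G cs pr c ∧ Valid G cs pr c' ∧ Disjoint c.2.2 c'.2.2

/-- the base point -/
def b0 (V W : Type) [Group W] : Cub V W := (1, ∅, ∅)

/-- finitely many pairs of corners -/
def FinSupp (φ : Cub V W → Cub V W → ZMod 2) : Prop :=
  {q : W × W | ∃ s a t b, φ (q.1, s, a) (q.2, t, b) ≠ 0}.Finite

end Pool.Agent.H65.BU

end

section

/-!
# Project BU: apartments

PROOF of `exists_apts`: for signs `a` the group `W` acts on `A × (V → ZMod 2)` from the right:
`(x, c) · s_v = (x p(v, a v)^(±1), c + e_v)` with `+` iff `c v = 0`. The relations hold: `s_v s_v`: `(x, c)` goes to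
`x p p⁻¹` or `x p⁻¹ p`; for adjacent `u, v` the elements commute (`hp`), `u ≠ v`. Use `cs.lift` into
`Equiv.Perm (A × (V → ZMod 2))` (left action: `ρ(s_v)` = this map, `ρ(w w') = ρ(w) ρ(w')`, so
`(w) ↦ ρ(w⁻¹) (1, 0)` satisfies `ρ((w s_v)⁻¹)(1,0) = ρ(s_v) (ρ(w⁻¹)(1,0))`). `g a w` = first component, `pr w` = second
component (it does not depend on `a`).
`apt_indep`: induction on the length by `Facts.step`: `w = w' s_u`, `u` adjacent to `v`, so `u ≠ v` and `a u = b u`.
-/

set_option autoImplicit false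
set_option linter.unusedSectionVars false

open Finset

namespace Pool.Agent.H65.BU

open Pool.Agent.H65.RA

variable {V W A : Type} [Fintype V] [DecidableEq V] [Group W] [Group A] {M : CoxeterMatrix V}

/-- the letter `v` acts on the pairs (element, parities) -/
def aptStep (p : V × Bool → A) (a : V → Bool) (v : V) (z : A × (V → ZMod 2)) : A × (V → ZMod 2) :=
  (if z.2 v = 0 then z.1 * p (v, a v) else z.1 * (p (v, a v))⁻¹, z.2 + Pi.single v 1)

private theorem apt_zmod2_cases (c : ZMod 2) : c = 0 ∨ c = 1 := by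
  revert c
  decide

theorem aptStep_invol (p : V × Bool → A) (a : V → Bool) (v : V) :
    Function.Involutive (aptStep p a v) := by
  rintro ⟨y, c⟩
  have hc : c + (Pi.single v 1 : V → ZMod 2) + (Pi.single v 1 : V → ZMod 2) = c := by
    rw [add_assoc, ← Pi.single_add]
    have h1 : (1 + 1 : ZMod 2) = 0 := by decide
    rw [h1, Pi.single_zero, add_zero]
  rcases apt_zmod2_cases (c v) with h | h
  · have h' : (c + (Pi.single v 1 : V → ZMod 2)) v ≠ 0 := by
      rw [Pi.add_apply, Pi.single_eq_same, h]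
      decide
    unfold aptStep
    simp only [if_pos h, if_neg h', mul_inv_cancel_right, hc]
  · have h0 : c v ≠ 0 := by
      rw [h]
      decide
    have h' : (c + (Pi.single v 1 : V → ZMod 2)) v = 0 := by
      rw [Pi.add_apply, Pi.single_eq_same, h]
      decide
    unfold aptStep
    simp only [if_neg h0, if_pos h', inv_mul_cancel_right, hc]

/-- the permutation of the letter `v` -/
def aptPerm (p : V × Bool → A) (a : V → Bool) (v : V) : Equiv.Perm (A × (V → ZMod 2)) :=
  (aptStep_invol p a v).toPerm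

theorem aptPerm_apply (p : V × Bool → A) (a : V → Bool) (v : V) (z : A × (V → ZMod 2)) :
    aptPerm p a v z = aptStep p a v z := rfl

theorem aptPerm_sq (p : V × Bool → A) (a : V → Bool) (v : V) :
    aptPerm p a v * aptPerm p a v = 1 := by
  ext1 z
  rw [Equiv.Perm.mul_apply, aptPerm_apply, aptPerm_apply, aptStep_invol, Equiv.Perm.one_apply]

theorem aptPerm_comm {p : V × Bool → A} {a : V → Bool} {u v : V} (huv : u ≠ v)
    (h : p (u, a u) * p (v, a v) = p (v, a v) * p (u, a u)) :
    aptPerm p a u * aptPerm p a v = aptPerm p a v * aptPerm p a u := by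
  ext1 z
  obtain ⟨y, c⟩ := z
  have h1 : (c + (Pi.single v 1 : V → ZMod 2)) u = c u := by
    rw [Pi.add_apply, Pi.single_eq_of_ne huv, add_zero]
  have h2 : (c + (Pi.single u 1 : V → ZMod 2)) v = c v := by
    rw [Pi.add_apply, Pi.single_eq_of_ne huv.symm, add_zero]
  have hcomm : Commute (p (u, a u)) (p (v, a v)) := h
  rw [Equiv.Perm.mul_apply, Equiv.Perm.mul_apply, aptPerm_apply, aptPerm_apply, aptPerm_apply,
    aptPerm_apply]
  unfold aptStep
  simp only [h1, h2]
  refine Prod.ext ?_ (add_right_comm _ _ _)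
  simp only
  split_ifs
  · rw [mul_assoc, mul_assoc, hcomm.symm.eq]
  · rw [mul_assoc, mul_assoc, hcomm.symm.inv_left.eq]
  · rw [mul_assoc, mul_assoc, hcomm.symm.inv_right.eq]
  · rw [mul_assoc, mul_assoc, hcomm.symm.inv_inv.eq]

theorem aptPerm_liftable {G : SimpleGraph V} (hM : RA G M) {p : V × Bool → A}
    (hp : ∀ x y, (oct G).Adj x y → p x * p y = p y * p x) (a : V → Bool) :
    M.IsLiftable (aptPerm p a) := by
  intro u v
  by_cases huv : u = v
  · subst huv
    rw [M.diagonal u, pow_one, aptPerm_sq]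
  · by_cases hadj : G.Adj u v
    · rw [(hM u v huv).1 hadj, pow_two]
      have hc := aptPerm_comm (p := p) (a := a) huv (hp (u, a u) (v, a v) hadj)
      rw [mul_assoc, ← mul_assoc (aptPerm p a v), ← hc, mul_assoc, aptPerm_sq, mul_one, aptPerm_sq]
    · rw [(hM u v huv).2 hadj, pow_zero]

theorem exists_apts {G : SimpleGraph V} (hM : RA G M) (cs : CoxeterSystem M W) (p : V × Bool → A)
    (hp : ∀ x y, (oct G).Adj x y → p x * p y = p y * p x) :
    ∃ (pr : W → V → ZMod 2) (g : (V → Bool) → W → A), Apts cs pr p g := by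
  set R : (V → Bool) → (W →* Equiv.Perm (A × (V → ZMod 2))) :=
    fun a => cs.lift ⟨aptPerm p a, aptPerm_liftable hM hp a⟩ with hR
  have hRs : ∀ a v, R a (cs.simple v) = aptPerm p a v := fun a v =>
    cs.lift_apply_simple (aptPerm_liftable hM hp a) v
  have key : ∀ a w v, R a (w * cs.simple v)⁻¹ ((1 : A), (0 : V → ZMod 2)) =
      aptStep p a v (R a w⁻¹ (1, 0)) := by
    intro a w v
    rw [mul_inv_rev, cs.inv_simple, map_mul, Equiv.Perm.mul_apply, hRs, aptPerm_apply]
  have hone : ∀ a, R a (1 : W)⁻¹ ((1 : A), (0 : V → ZMod 2)) = (1, 0) := by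
    intro a
    rw [inv_one, map_one, Equiv.Perm.one_apply]
  set a0 : V → Bool := fun _ => true with ha0
  have hind : ∀ a w, (R a w⁻¹ ((1 : A), (0 : V → ZMod 2))).2 =
      (R a0 w⁻¹ ((1 : A), (0 : V → ZMod 2))).2 := by
    intro a w
    induction w using cs.simple_induction_right with
    | one => rw [hone, hone]
    | mul_simple_right w v ih =>
      rw [key, key]
      unfold aptStep
      simp only
      rw [ih]
  refine ⟨fun w => (R a0 w⁻¹ ((1 : A), (0 : V → ZMod 2))).2,
    fun a w => (R a w⁻¹ ((1 : A), (0 : V → ZMod 2))).1, ?_, ?_, ?_, ?_⟩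
  · intro v
    rw [hone]
    rfl
  · intro w v u
    rw [key]
    unfold aptStep
    simp only
    rw [Pi.add_apply, Pi.single_apply]
  · intro a
    rw [hone]
  · intro a w v
    rw [key, ← hind a w]
    rfl

theorem apt_indep {G : SimpleGraph V} {cs : CoxeterSystem M W} (hF : Facts G cs) {p : V × Bool → A}
    {pr : W → V → ZMod 2} {g : (V → Bool) → W → A} (hg : Apts cs pr p g) {a b : V → Bool} {v : V}
    (hab : ∀ u, u ≠ v → a u = b u) {w : W} (hc : cs.simple v * w = w * cs.simple v)
    (hv : v ∉ fst cs w) : g a w = g b w := by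
  obtain ⟨n, hn⟩ : ∃ n, cs.length w = n := ⟨_, rfl⟩
  induction n using Nat.strong_induction_on generalizing w with
  | _ n ih =>
    by_cases h1 : w = 1
    · rw [h1, hg.one, hg.one]
    · obtain ⟨w', u, hw, hl, hadj, hc', hv'⟩ := hF.step w v hc hv h1
      have hi := ih (cs.length w') (by omega) hc' hv' rfl
      rw [hw, hg.mul, hg.mul, hi, hab u hadj.ne]

/-- an element without the letter `v` -/
theorem pr_indep {G : SimpleGraph V} {cs : CoxeterSystem M W} (hF : Facts G cs) {p : V × Bool → A}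
    {pr : W → V → ZMod 2} {g : (V → Bool) → W → A} (hg : Apts cs pr p g) {v : V}
    {w : W} (hc : cs.simple v * w = w * cs.simple v) (hv : v ∉ fst cs w) : pr w v = 0 := by
  obtain ⟨n, hn⟩ : ∃ n, cs.length w = n := ⟨_, rfl⟩
  induction n using Nat.strong_induction_on generalizing w with
  | _ n ih =>
    by_cases h1 : w = 1
    · rw [h1, hg.pr_one]
    · obtain ⟨w', u, hw, hl, hadj, hc', hv'⟩ := hF.step w v hc hv h1
      have hi := ih (cs.length w') (by omega) hc' hv' rfl
      rw [hw, hg.pr_mul, hi, if_neg hadj.ne.symm, add_zero]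

end Pool.Agent.H65.BU

end

section

/-!
# Project BU: the first letters of the faces of a cube

`(w, s)` with `pr w v = 0` for `v ∈ s`, `s` a clique.

PROOF. `FH_clique`: `u ∈ F(w)`, `v ∈ s` with `s_v w = w s_v`: if `v ∈ F(w)` clear (but in fact impossible: `w = s_v w'`,
`pr w' v = 0` by `pr_indep`, `pr w v = 1`); if `v ∉ F(w)`: `u ∈ F(w s_v) = F(s_v w) ∋ v`: adjacent or equal; or
`u ∉ F(w s_v)`: `exch` for `w s_v`: `s_u (w s_v) = w`, `same`: `u = v`. `FH_a`: by the definition.
`FH_b` (always the SAME set): case `s_v w ≠ w s_v`: then `F(w s_v) = F(w)` (a letter which is in only one of them: `exch`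
gives `s_u w = w s_v` or `s_u w s_v = w`, so `u = v`), and `s_u`, `u ∈ s - v`, commutes with `w s_v` iff with `w`. Case
`s_v w = w s_v`: then `v ∉ F(w)` (else `w = s_v w'`, `pr w v = 1`), `F(w s_v) = F(s_v w) = F(w) ∪ {v}` (all of `F(w)`
is adjacent to `v`, see Persist (b)).
-/

set_option autoImplicit false
set_option linter.unusedSectionVars false
set_option linter.unusedVariables false

open Finset

namespace Pool.Agent.H65.BU

open Pool.Agent.H65.RA

variable {V W A : Type} [Fintype V] [DecidableEq V] [Group W] [Group A] {M : CoxeterMatrix V}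
  {G : SimpleGraph V} {cs : CoxeterSystem M W} {p : V × Bool → A} {pr : W → V → ZMod 2}
  {g : (V → Bool) → W → A}

theorem mem_fst {w : W} {v : V} : v ∈ fst cs w ↔ cs.IsLeftDescent w v := by
  classical
  unfold fst
  simp

theorem mem_FH {w : W} {s : Finset V} {v : V} :
    v ∈ FH cs w s ↔ v ∈ fst cs w ∨ (v ∈ s ∧ cs.simple v * w = w * cs.simple v) := by
  classical
  unfold FH
  simp

/-- the first letter is gone -/
theorem not_fst_mul {w : W} {v : V} (h : v ∈ fst cs w) : v ∉ fst cs (cs.simple v * w) := by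
  rw [mem_fst] at h ⊢
  intro h2
  unfold CoxeterSystem.IsLeftDescent at h h2
  rw [cs.simple_mul_simple_cancel_left] at h2
  exact absurd h (not_lt.2 h2.le)

theorem fst_mul {w : W} {v : V} (h : v ∉ fst cs w) : v ∈ fst cs (cs.simple v * w) := by
  rw [mem_fst] at h ⊢
  unfold CoxeterSystem.IsLeftDescent at h ⊢
  rw [cs.simple_mul_simple_cancel_left]
  rcases cs.length_simple_mul w v with h1 | h1
  · omega
  · omega

theorem not_fst_of_pr (hF : Facts G cs) (hg : Apts cs pr p g) {w : W} {v : V}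
    (hc : cs.simple v * w = w * cs.simple v) (hp : pr w v = 0) : v ∉ fst cs w := by
  intro hv
  have h1 : v ∉ fst cs (cs.simple v * w) := not_fst_mul hv
  have h2 : cs.simple v * (cs.simple v * w) = cs.simple v * w * cs.simple v := by
    rw [mul_assoc, ← hc]
  have h3 := pr_indep hF hg h2 h1
  rw [hc, hg.pr_mul, hp, if_pos rfl, zero_add] at h3
  exact one_ne_zero h3

/-- the first letters are adjacent to a commuting letter which is not first -/
theorem adj_of_fst (hF : Facts G cs) {w : W} {u v : V} (hc : cs.simple v * w = w * cs.simple v)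
    (hv : v ∉ fst cs w) (hu : u ∈ fst cs w) : G.Adj u v := by
  have huv : u ≠ v := fun h => hv (h ▸ hu)
  have h1 : v ∈ fst cs (w * cs.simple v) := by
    rw [← hc]
    exact fst_mul hv
  by_cases h2 : u ∈ fst cs (w * cs.simple v)
  · exact hF.clique _ h2 h1 huv
  · have h3 : u ∈ fst cs (w * cs.simple v * cs.simple v) := by
      rw [cs.simple_mul_simple_cancel_right]
      exact hu
    have h4 := hF.exch _ _ _ h2 h3
    exact absurd (hF.same _ _ _ h4).symm huv

theorem FH_clique (hF : Facts G cs) (hg : Apts cs pr p g) {w : W} {s : Finset V}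
    (hs : G.IsClique (s : Set V)) (hp : ∀ v ∈ s, pr w v = 0) : G.IsClique (FH cs w s : Set V) := by
  intro u hu v hv huv
  rw [mem_coe, mem_FH] at hu hv
  rcases hu with hu | ⟨hu1, hu2⟩
  · rcases hv with hv | ⟨hv1, hv2⟩
    · exact hF.clique _ hu hv huv
    · exact adj_of_fst hF hv2 (not_fst_of_pr hF hg hv2 (hp _ hv1)) hu
  · rcases hv with hv | ⟨hv1, hv2⟩
    · exact (adj_of_fst hF hu2 (not_fst_of_pr hF hg hu2 (hp _ hu1)) hv).symm
    · exact hs hu1 hv1 huv

theorem FH_a (w : W) {s : Finset V} {v : V} (hv : v ∈ s) :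
    FH cs w (s.erase v) = FH cs w s ∨ (FH cs w (s.erase v) = (FH cs w s).erase v ∧
      v ∈ FH cs w s ∧ v ∉ fst cs w ∧ cs.simple v * w = w * cs.simple v) := by
  by_cases h : v ∉ fst cs w ∧ cs.simple v * w = w * cs.simple v
  · right
    refine ⟨?_, mem_FH.2 (Or.inr ⟨hv, h.2⟩), h.1, h.2⟩
    ext u
    rw [mem_erase, mem_FH, mem_FH, mem_erase]
    constructor
    · rintro (h1 | ⟨⟨h1, h2⟩, h3⟩)
      · exact ⟨fun h2 => h.1 (h2 ▸ h1), Or.inl h1⟩
      · exact ⟨h1, Or.inr ⟨h2, h3⟩⟩
    · rintro ⟨h1, h2 | ⟨h2, h3⟩⟩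
      · exact Or.inl h2
      · exact Or.inr ⟨⟨h1, h2⟩, h3⟩
  · left
    ext u
    rw [mem_FH, mem_FH, mem_erase]
    constructor
    · rintro (h1 | ⟨⟨h1, h2⟩, h3⟩)
      · exact Or.inl h1
      · exact Or.inr ⟨h2, h3⟩
    · rintro (h2 | ⟨h2, h3⟩)
      · exact Or.inl h2
      · by_cases huv : u = v
        · left
          subst huv
          by_contra h4
          exact h ⟨h4, h3⟩
        · exact Or.inr ⟨⟨huv, h2⟩, h3⟩

theorem FH_b (hF : Facts G cs) (hg : Apts cs pr p g) {w : W} {s : Finset V}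
    (hs : G.IsClique (s : Set V)) (hp : ∀ v ∈ s, pr w v = 0) {v : V} (hv : v ∈ s) :
    FH cs (w * cs.simple v) (s.erase v) = FH cs w s := by
  have hcomm : ∀ u ∈ s, u ≠ v → (cs.simple u * (w * cs.simple v) = w * cs.simple v * cs.simple u ↔
      cs.simple u * w = w * cs.simple u) := by
    intro u hu huv
    have h1 := hF.comm u v (hs hu hv huv)
    constructor
    · intro h2
      rw [mul_assoc, ← h1, ← mul_assoc, ← mul_assoc] at h2
      exact mul_right_cancel h2
    · intro h2
      rw [mul_assoc, ← h1, ← mul_assoc, ← mul_assoc, h2]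
  have hsub : ∀ x, x ∈ fst cs (w * cs.simple v) → x ∉ fst cs w →
      x = v ∧ cs.simple v * w = w * cs.simple v := by
    intro x h1 h2
    have h3 := hF.exch _ _ _ h2 h1
    have h4 := hF.same _ _ _ h3
    subst h4
    exact ⟨rfl, h3⟩
  by_cases hc : cs.simple v * w = w * cs.simple v
  · have hvw : v ∉ fst cs w := not_fst_of_pr hF hg hc (hp v hv)
    ext u
    rw [mem_FH, mem_FH, mem_erase]
    constructor
    · rintro (h1 | ⟨⟨h1, h2⟩, h3⟩)
      · by_cases h2 : u ∈ fst cs w
        · exact Or.inl h2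
        · obtain ⟨rfl, _⟩ := hsub u h1 h2
          exact Or.inr ⟨hv, hc⟩
      · exact Or.inr ⟨h2, (hcomm u h2 h1).1 h3⟩
    · rintro (h2 | ⟨h2, h3⟩)
      · left
        rw [← hc]
        exact (hF.left w v u (adj_of_fst hF hc hvw h2).symm).2 h2
      · by_cases huv : u = v
        · left
          subst huv
          rw [← hc]
          exact fst_mul hvw
        · exact Or.inr ⟨⟨huv, h2⟩, (hcomm u h2 huv).2 h3⟩
  · ext u
    rw [mem_FH, mem_FH, mem_erase]
    constructor
    · rintro (h1 | ⟨⟨h1, h2⟩, h3⟩)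
      · by_cases h2 : u ∈ fst cs w
        · exact Or.inl h2
        · exact absurd (hsub u h1 h2).2 hc
      · exact Or.inr ⟨h2, (hcomm u h2 h1).1 h3⟩
    · rintro (h2 | ⟨h2, h3⟩)
      · left
        by_contra h4
        have h5 : u ∈ fst cs (w * cs.simple v * cs.simple v) := by
          rw [cs.simple_mul_simple_cancel_right]
          exact h2
        have h6 := hF.exch _ _ _ h4 h5
        have h7 := hF.same _ _ _ h6
        subst h7
        rw [cs.simple_mul_simple_cancel_right, ← mul_assoc] at h6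
        apply hc
        calc cs.simple v * w = cs.simple v * w * cs.simple v * cs.simple v := by
              rw [cs.simple_mul_simple_cancel_right]
          _ = w * cs.simple v := by rw [h6]
      · by_cases huv : u = v
        · subst huv
          exact absurd h3 hc
        · exact Or.inr ⟨⟨huv, h2⟩, (hcomm u h2 huv).2 h3⟩

theorem fst_one (cs : CoxeterSystem M W) : fst cs 1 = ∅ := by
  ext v
  rw [mem_fst]
  unfold CoxeterSystem.IsLeftDescent
  simp

theorem FH_one (cs : CoxeterSystem M W) (s : Finset V) : FH cs 1 s = s := by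
  ext v
  rw [mem_FH, fst_one]
  simp

theorem FH_empty {w : W} {s : Finset V} (h : FH cs w s = ∅) : w = 1 ∧ s = ∅ := by
  have hw : w = 1 := by
    by_contra hw
    obtain ⟨v, hv⟩ := cs.exists_leftDescent_of_ne_one hw
    have h1 : v ∈ FH cs w s := mem_FH.2 (Or.inl (mem_fst.2 hv))
    rw [h] at h1
    exact absurd h1 (notMem_empty v)
  subst hw
  rw [FH_one] at h
  exact ⟨rfl, h⟩

theorem FH_erase_subset (w : W) (s : Finset V) (v : V) : FH cs w (s.erase v) ⊆ FH cs w s := by
  intro u hu
  rw [mem_FH, mem_erase] at hu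
  rw [mem_FH]
  tauto

private theorem res_sgn_aux {X Y : Finset V} (h : X ⊆ Y) (α : V → Bool) : res X (sgn Y α) = sgn X α := by
  ext q
  unfold res
  rw [mem_filter, mem_sgn, mem_sgn]
  constructor
  · rintro ⟨⟨_, h2⟩, h3⟩
    exact ⟨h3, h2⟩
  · rintro ⟨h1, h2⟩
    exact ⟨⟨h h1, h2⟩, h1⟩

theorem valid_fa {c : Cub V W} (h : Valid G cs pr c) {v : V} (hv : v ∈ c.2.1) :
    Valid G cs pr (fa cs c v) := by
  obtain ⟨h1, h2, α, h3⟩ := h
  refine ⟨?_, ?_, α, ?_⟩
  · exact h1.subset (fun x hx => mem_coe.2 (mem_of_mem_erase (mem_coe.1 hx)))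
  · intro u hu
    exact h2 u (mem_of_mem_erase hu)
  · show res _ c.2.2 = _
    rw [h3]
    exact res_sgn_aux (FH_erase_subset _ _ _) α

/-- the signs of the opposite face -/
theorem res_fb (hF : Facts G cs) (hg : Apts cs pr p g) {c : Cub V W} (h : Valid G cs pr c) {v : V}
    (hv : v ∈ c.2.1) : (fb cs c v).2.2 = c.2.2 := by
  obtain ⟨h1, h2, α, h3⟩ := h
  show res (FH cs (c.1 * cs.simple v) (c.2.1.erase v)) c.2.2 = _
  rw [FH_b hF hg h1 h2 hv, h3]
  exact res_sgn_aux (subset_refl _) α

theorem valid_fb (hF : Facts G cs) (hg : Apts cs pr p g) {c : Cub V W} (h : Valid G cs pr c) {v : V}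
    (hv : v ∈ c.2.1) : Valid G cs pr (fb cs c v) := by
  have h0 := res_fb hF hg h hv
  obtain ⟨h1, h2, α, h3⟩ := h
  refine ⟨?_, ?_, α, ?_⟩
  · exact h1.subset (fun x hx => mem_coe.2 (mem_of_mem_erase (mem_coe.1 hx)))
  · intro u hu
    have hu' : u ∈ c.2.1.erase v := hu
    rw [mem_erase] at hu'
    show pr (c.1 * cs.simple v) u = 0
    rw [hg.pr_mul, h2 u hu'.2, if_neg hu'.1, add_zero]
  · rw [h0, h3]
    show _ = sgn (FH cs (c.1 * cs.simple v) (c.2.1.erase v)) α
    rw [FH_b hF hg h1 h2 hv]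

/-- a far corner is not 1 -/
theorem fb_ne (hg : Apts cs pr p g) {c : Cub V W} (h : Valid G cs pr c) {v : V}
    (hv : v ∈ c.2.1) : (fb cs c v).1 ≠ 1 := by
  intro h1
  have h1' : c.1 * cs.simple v = 1 := h1
  have h2 := h.2.1 v hv
  have h3 := hg.pr_mul c.1 v v
  rw [h1', hg.pr_one, h2, if_pos rfl, zero_add] at h3
  exact one_ne_zero h3.symm

theorem res_subset (X : Finset V) (a : Finset (V × Bool)) : res X a ⊆ a :=
  filter_subset _ _

theorem ok_symm {c c' : Cub V W} (h : Ok G cs pr c c') : Ok G cs pr c' c :=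
  ⟨h.2.1, h.1, h.2.2.symm⟩

theorem ok_fa {c c' : Cub V W} (h : Ok G cs pr c c') {v : V} (hv : v ∈ c.2.1) :
    Ok G cs pr (fa cs c v) c' :=
  ⟨valid_fa h.1 hv, h.2.1, h.2.2.mono_left (res_subset _ _)⟩

theorem ok_fb (hF : Facts G cs) (hg : Apts cs pr p g) {c c' : Cub V W} (h : Ok G cs pr c c') {v : V}
    (hv : v ∈ c.2.1) : Ok G cs pr (fb cs c v) c' :=
  ⟨valid_fb hF hg h.1 hv, h.2.1, h.2.2.mono_left (res_subset _ _)⟩

/-- the only cube which is ok with itself -/
theorem ok_self {c : Cub V W} (h : Ok G cs pr c c) : c = b0 V W := by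
  obtain ⟨⟨_, _, α, h3⟩, _, h4⟩ := h
  have h5 : c.2.2 = ∅ := disjoint_self.1 h4
  have h6 : FH cs c.1 c.2.1 = ∅ := by
    rw [h5] at h3
    rw [← card_eq_zero, ← card_sgn _ α, ← h3, card_empty]
  obtain ⟨h7, h8⟩ := FH_empty h6
  exact Prod.ext h7 (Prod.ext h8 h5)

theorem ok_b0 (hg : Apts cs pr p g) : Ok G cs pr (b0 V W) (b0 V W) := by
  have h : Valid G cs pr (b0 V W) := by
    refine ⟨?_, ?_, fun _ => true, ?_⟩
    · intro a ha
      exact absurd ha (by simp [b0])
    · intro v hv
      exact absurd hv (by simp [b0])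
    · show ∅ = sgn (FH cs 1 ∅) _
      rw [FH_one]
      simp [sgn]
  exact ⟨h, h, by simp [b0]⟩

end Pool.Agent.H65.BU

end

section

/-!
# Project BU: the two functions on pairs of cubes

PROOF of `exists_hh`: `sg a v := decide ((v, false) ∉ a)`; `φ c c' := if Ok c c' then
H (g (sg a) w) (sgn s (sg a)) (g (sg b) w') (sgn t (sg b)) else 0` for `c = (w, s, a)`, `c' = (w', t, b)`.
If `a = sgn (FH w s) α` then `sg a = α` on `FH w s` and `true` elsewhere. Faces: `sgn (s.erase v) (sg a) =
(sgn s (sg a)).erase (v, sg a v)` (`erase_sgn`), `g (sg a) (w s_v) = g (sg a) w * p (v, sg a v)` (`pr w v = 0`).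
For `fa` either the signs are the same or `v` is forgotten and `g (sg a') w = g (sg a) w` by `apt_indep` (`FH_a`); for
`fb` the signs are the same (`res_fb`). Then `Inter.rel` for the cliques `sgn s (sg a)` (`clique_sgn`), `sum_sgn`.
`φ b0 b0 = H 1 ∅ 1 ∅ = 1`. `FinSupp`: `Inter.fin` and `Sep` (`fst ⊆ FH`, the signs at common letters differ since `a`, `b`
are disjoint).
PROOF of the facts on `AA`: `c.1 = c'.1 = 1`: `FH 1 s = s`, `res (s.erase v) a = a.erase (v, α v)`, the far faces have corner
`≠ 1` (`fb_ne`), so `dl AA = dP (eP ν) a b` (`dP_eP`); otherwise all terms vanish.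
-/

set_option autoImplicit false

open Finset

namespace Pool.Agent.H65.BU

open Pool.Agent.H65.RA Pool.Agent.H85.VK

variable {V W A : Type} [Fintype V] [DecidableEq V] [Group W] [Group A] {M : CoxeterMatrix V}
  {G : SimpleGraph V} {cs : CoxeterSystem M W} {p : V × Bool → A} {pr : W → V → ZMod 2}
  {g : (V → Bool) → W → A}

/-- the signs of a set of signed letters -/
private noncomputable def sg (a : Finset (V × Bool)) (v : V) : Bool := decide ((v, false) ∉ a)

private theorem sg_sgn {X : Finset V} {α : V → Bool} {v : V} (hv : v ∈ X) :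
    sg (sgn X α) v = α v := by
  unfold sg
  by_cases h : α v = false
  · rw [h, decide_eq_false_iff_not, not_not, mem_sgn]
    exact ⟨hv, h.symm⟩
  · rw [Bool.not_eq_false] at h
    rw [h, decide_eq_true_eq, mem_sgn]
    rintro ⟨-, h'⟩
    simp only at h'
    rw [h] at h'
    exact absurd h' (by simp)

private theorem valid_sg {c : Cub V W} (h : Valid G cs pr c) :
    c.2.2 = sgn (FH cs c.1 c.2.1) (sg c.2.2) := by
  obtain ⟨-, -, α, hα⟩ := h
  conv_lhs => rw [hα]
  apply sgn_congr
  intro v hv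
  rw [hα, sg_sgn hv]

private theorem fst_mem {c : Cub V W} (h : Valid G cs pr c) {q : V × Bool} (hq : q ∈ c.2.2) :
    q.1 ∈ FH cs c.1 c.2.1 := by
  rw [valid_sg h, mem_sgn] at hq
  exact hq.1

private theorem fa_eq (hF : Facts G cs) (hg : Apts cs pr p g) {c : Cub V W}
    (h : Valid G cs pr c) {v : V} (hv : v ∈ c.2.1) :
    g (sg (fa cs c v).2.2) (fa cs c v).1 = g (sg c.2.2) c.1 ∧
      sgn (fa cs c v).2.1 (sg (fa cs c v).2.2) = (sgn c.2.1 (sg c.2.2)).erase (v, sg c.2.2 v) := by
  rw [erase_sgn]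
  rcases FH_a (cs := cs) c.1 hv with h1 | ⟨h1, -, h2, h3⟩
  · have h4 : (fa cs c v).2.2 = c.2.2 := by
      show res (FH cs c.1 (c.2.1.erase v)) c.2.2 = c.2.2
      rw [h1]
      unfold res
      exact filter_true_of_mem fun q hq => fst_mem h hq
    rw [h4]
    exact ⟨rfl, rfl⟩
  · have h4 : ∀ u, u ≠ v → sg (fa cs c v).2.2 u = sg c.2.2 u := by
      intro u hu
      unfold sg
      congr 1
      rw [eq_iff_iff, not_iff_not]
      show (u, false) ∈ res (FH cs c.1 (c.2.1.erase v)) c.2.2 ↔ _
      rw [h1]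
      unfold res
      rw [mem_filter]
      constructor
      · exact fun h' => h'.1
      · exact fun h' => ⟨h', mem_erase.2 ⟨hu, fst_mem h h'⟩⟩
    refine ⟨apt_indep hF hg h4 h3 h2, ?_⟩
    exact sgn_congr fun u hu => h4 u (mem_erase.1 hu).1

private theorem fb_eq (hF : Facts G cs) (hg : Apts cs pr p g) {c : Cub V W}
    (h : Valid G cs pr c) {v : V} (hv : v ∈ c.2.1) :
    g (sg (fb cs c v).2.2) (fb cs c v).1 = g (sg c.2.2) c.1 * p (v, sg c.2.2 v) ∧
      sgn (fb cs c v).2.1 (sg (fb cs c v).2.2) = (sgn c.2.1 (sg c.2.2)).erase (v, sg c.2.2 v) := by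
  rw [erase_sgn, res_fb hF hg h hv]
  refine ⟨?_, rfl⟩
  show g (sg c.2.2) (c.1 * cs.simple v) = _
  rw [hg.mul, if_pos (h.2.1 v hv)]

open Classical in
/-- the intersection numbers on cubes -/
private noncomputable def hh (G : SimpleGraph V) (cs : CoxeterSystem M W) (pr : W → V → ZMod 2)
    (g : (V → Bool) → W → A) (H : A → Finset (V × Bool) → A → Finset (V × Bool) → ZMod 2)
    (c c' : Cub V W) : ZMod 2 :=
  if Ok G cs pr c c' then H (g (sg c.2.2) c.1) (sgn c.2.1 (sg c.2.2)) (g (sg c'.2.2) c'.1)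
    (sgn c'.2.1 (sg c'.2.2)) else 0

open Classical in
/-- the alternating function at the corner 1 -/
noncomputable def AA (ν : V × Bool → ℕ) (c c' : Cub V W) : ZMod 2 :=
  if c.1 = 1 ∧ c'.1 = 1 then eP ν c.2.2 c'.2.2 else 0

private theorem res_one {c : Cub V W} (h : Valid G cs pr c) (h1 : c.1 = 1) {v : V}
    (hv : v ∈ c.2.1) : (fa cs c v).2.2 = c.2.2.erase (v, sg c.2.2 v) := by
  have h2 := valid_sg h
  rw [h1, FH_one] at h2
  show res (FH cs c.1 (c.2.1.erase v)) c.2.2 = _
  rw [h1, FH_one]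
  ext q
  unfold res
  rw [mem_filter, mem_erase, mem_erase]
  constructor
  · rintro ⟨h3, h4, h5⟩
    exact ⟨fun h6 => h4 (congrArg Prod.fst h6), h3⟩
  · rintro ⟨h3, h4⟩
    have h5 := h4
    rw [h2, mem_sgn] at h5
    refine ⟨h4, fun h6 => h3 (Prod.ext h6 ?_), h5.1⟩
    show q.2 = sg c.2.2 v
    rw [h5.2, h6]

theorem AA_rel (hF : Facts G cs) (hg : Apts cs pr p g) {ν : V × Bool → ℕ}
    (hν : Function.Injective ν) (c c' : Cub V W) (h : Ok G cs pr c c') :
    dl cs (AA ν) c c' = AA ν c c' + AA ν c' c := by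
  have hb1 : ∀ v ∈ c.2.1, AA ν (fb cs c v) c' = 0 := fun v hv =>
    if_neg fun h' => fb_ne hg h.1 hv h'.1
  have hb2 : ∀ v ∈ c'.2.1, AA ν c (fb cs c' v) = 0 := fun v hv =>
    if_neg fun h' => fb_ne hg h.2.1 hv h'.2
  by_cases h1 : c.1 = 1 ∧ c'.1 = 1
  · have e1 : AA ν c c' = eP ν c.2.2 c'.2.2 := if_pos h1
    have e2 : AA ν c' c = eP ν c'.2.2 c.2.2 := if_pos ⟨h1.2, h1.1⟩
    rw [e1, e2, ← dP_eP hν h.2.2]
    unfold dl dP
    have f1 : ∑ v ∈ c.2.1, (AA ν (fa cs c v) c' + AA ν (fb cs c v) c')
        = ∑ q ∈ c.2.2, eP ν (c.2.2.erase q) c'.2.2 := by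
      have h2 := valid_sg h.1
      rw [h1.1, FH_one] at h2
      have h3 : ∑ q ∈ c.2.2, eP ν (c.2.2.erase q) c'.2.2
          = ∑ q ∈ sgn c.2.1 (sg c.2.2), eP ν (c.2.2.erase q) c'.2.2 := by
        rw [← h2]
      rw [h3, sum_sgn]
      refine sum_congr rfl fun v hv => ?_
      rw [hb1 v hv, add_zero]
      have h4 : AA ν (fa cs c v) c' = eP ν (fa cs c v).2.2 c'.2.2 := if_pos h1
      rw [h4, res_one h.1 h1.1 hv]
    have f2 : ∑ v ∈ c'.2.1, (AA ν c (fa cs c' v) + AA ν c (fb cs c' v))
        = ∑ q ∈ c'.2.2, eP ν c.2.2 (c'.2.2.erase q) := by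
      have h2 := valid_sg h.2.1
      rw [h1.2, FH_one] at h2
      have h3 : ∑ q ∈ c'.2.2, eP ν c.2.2 (c'.2.2.erase q)
          = ∑ q ∈ sgn c'.2.1 (sg c'.2.2), eP ν c.2.2 (c'.2.2.erase q) := by
        rw [← h2]
      rw [h3, sum_sgn]
      refine sum_congr rfl fun v hv => ?_
      rw [hb2 v hv, add_zero]
      have h4 : AA ν c (fa cs c' v) = eP ν c.2.2 (fa cs c' v).2.2 := if_pos h1
      rw [h4, res_one h.2.1 h1.2 hv]
    rw [f1, f2]
  · have e1 : AA ν c c' = 0 := if_neg h1
    have e2 : AA ν c' c = 0 := if_neg fun h' => h1 ⟨h'.2, h'.1⟩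
    rw [e1, e2, add_zero]
    unfold dl
    rw [sum_eq_zero, sum_eq_zero, add_zero]
    · intro v hv
      rw [hb2 v hv, add_zero]
      exact if_neg h1
    · intro v hv
      rw [hb1 v hv, add_zero]
      exact if_neg h1

theorem AA_b0 (ν : V × Bool → ℕ) : AA ν (b0 V W) (b0 V W) = 1 := by
  have h1 : AA ν (b0 V W) (b0 V W) = eP ν ∅ ∅ := if_pos ⟨rfl, rfl⟩
  rw [h1]
  unfold eP altF
  rw [if_pos]
  refine ⟨fun x hx => ?_, fun x hx => ?_⟩
  · simp at hx
  · simp at hx

theorem AA_fin (ν : V × Bool → ℕ) : FinSupp (AA ν : Cub V W → Cub V W → ZMod 2) := by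
  refine (Set.finite_singleton ((1 : W), (1 : W))).subset ?_
  rintro ⟨w, w'⟩ ⟨s, a, t, b, hne⟩
  by_contra hc
  apply hne
  exact if_neg fun h' => hc (Prod.ext h'.1 h'.2)

end Pool.Agent.H65.BU

end
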