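import Pool.Agent.H71.TSG.M35
import Pool.Agent.H71.TSG.M74
import Pool.Agent.H71.TSG.M75

/-! The parts of this file: H10.CI.Int, H65.AB.KapC, H65.AB.Defs, H65.AB.Zp, H65.BU.Kill, H65.RA.End, H65.AB.FacesZ, H65.BU.Cox, H75.Oct.Pair, H65.BU.Ler, H65.RA.Inter, H65.BU.Eval, H93.AA.Ch2. -/

section

/-!
# Coarse version of theorem M: intersection numbers

`exists_inter_coarse`: the group `A` with the commuting elements `e w` is coarsely embedded into a group `Λ` which
acts properly on an acyclic homology manifold; then `A` has intersection numbers.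
-/

set_option autoImplicit false
set_option linter.unusedSectionVars false

open Finset Pointwise

namespace Pool.Agent.H10.CI

variable {A Λ W U : Type} [Group A] [Group Λ] [DecidableEq W] [DecidableEq U] [MulAction Λ U]

/-! ### Examples of coarse embeddings -/

theorem CoarseEmb.hom {f : A →* Λ} (hf : Function.Injective f) : CoarseEmb (f : A → Λ) where
  lip a := by
    refine (Set.finite_singleton (f a)).subset ?_
    rintro x ⟨g, rfl⟩
    rw [map_mul, inv_mul_cancel_left]
    rfl
  prop x := by
    refine Set.Subsingleton.finite ?_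
    rintro a ⟨g, hg⟩ b ⟨h, hh⟩
    rw [map_mul, inv_mul_cancel_left] at hg hh
    exact hf (hg.trans hh.symm)

/-- composition -/
theorem CoarseEmb.comp {Δ : Type} [Group Δ] {f : A → Λ} {g : Λ → Δ} (hg : CoarseEmb g)
    (hf : CoarseEmb f) : CoarseEmb (g ∘ f) where
  lip a := by
    refine ((hf.lip a).biUnion fun x _ => hg.lip x).subset ?_
    rintro y ⟨h, rfl⟩
    refine Set.mem_biUnion ⟨h, rfl⟩ ⟨f h, ?_⟩
    rw [mul_inv_cancel_left]
    rfl
  prop y := by
    refine ((hg.prop y).biUnion fun x _ => hf.prop x).subset ?_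
    rintro a ⟨h, rfl⟩
    refine Set.mem_biUnion (x := (f h)⁻¹ * f (h * a)) ⟨f h, ?_⟩ ⟨h, rfl⟩
    rw [mul_inv_cancel_left]
    rfl

end Pool.Agent.H10.CI

end

section

/-!
# Project AB: maps which detect a subgroup of the Artin group

`r : AG M F Γ → BG M` is the retraction, `K` a subgroup of `BG M`. The map `κ : AG M F Γ → D`: the elements of `Γ v` multiply
by `e v` if the value of `θ v` changes, the elements `th y` multiply by `τ` if the membership of the image under `r` in `K`
changes.

PROOF of `exists_kapC` (as `exists_kap` in KapX): `AG M F Γ` acts from the right on `D × (∀ v, Γ v) × BG M`: `Γ v` as in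
BU/Kap, `y : BG M` as `(x, c, b) ↦ (x * (if (b ∈ K ↔ b * ρ y ∈ K) then 1 else τ), c, b * ρ y)`, `ρ y = r (th y)` (a
homomorphism, so this is an action of `BG M`: the factors telescope as `τ * τ = 1`). The generators `s ∈ F` act trivially
(`ρ` kills them). `s ∉ F` and `Γ u`, `M s u = 2`: either `bgen s ∈ K` (no factor) or `e u` commutes with `τ` (`hK`).
`κ g` = the first component of `(1, 1, 1) · g`, the second component is `pj v g`, the third `r g`.
-/

set_option autoImplicit false
set_option linter.unusedSectionVars false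

open Finset

namespace Pool.Agent.H65.AB

open H42.NU

section

variable {S W B : Type} [DecidableEq S] [Group W] [Group B] {Γ : S → Type} [∀ v, Group (Γ v)]

/-- the factor of the step from `p` to `r` -/
private def kg_stp (e : S → W) (θ : ∀ v, Γ v → Bool) (v : S) (p r : Γ v) : W :=
  if θ v r = θ v p then 1 else e v

/-- the right action of the vertex groups -/
private def kg_ract (e : S → W) (θ : ∀ v, Γ v → Bool) (v : S) (h : Γ v)
    (x : W × (∀ v, Γ v) × B) : W × (∀ v, Γ v) × B :=
  (x.1 * kg_stp e θ v (x.2.1 v) (x.2.1 v * h), Function.update x.2.1 v (x.2.1 v * h), x.2.2)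

private theorem kg_stp_mul (e : S → W) (he : ∀ v, e v * e v = 1) (θ : ∀ v, Γ v → Bool) (v : S)
    (p q r : Γ v) : kg_stp e θ v p q * kg_stp e θ v q r = kg_stp e θ v p r := by
  unfold kg_stp
  by_cases h1 : θ v q = θ v p
  · rw [if_pos h1, one_mul, h1]
  · rw [if_neg h1]
    by_cases h2 : θ v r = θ v q
    · rw [if_pos h2, mul_one, h2, if_neg h1]
    · have h3 : θ v r = θ v p := by
        revert h1 h2
        cases θ v r <;> cases θ v q <;> cases θ v p <;> simp
      rw [if_neg h2, if_pos h3, he]

private theorem kg_ract_one (e : S → W) (θ : ∀ v, Γ v → Bool) (v : S)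
    (x : W × (∀ v, Γ v) × B) : kg_ract e θ v 1 x = x := by
  unfold kg_ract kg_stp
  rw [mul_one, if_pos rfl, mul_one, Function.update_eq_self]

private theorem kg_ract_mul (e : S → W) (he : ∀ v, e v * e v = 1) (θ : ∀ v, Γ v → Bool) (v : S)
    (a b : Γ v) (x : W × (∀ v, Γ v) × B) :
    kg_ract e θ v (a * b) x = kg_ract e θ v b (kg_ract e θ v a x) := by
  unfold kg_ract
  refine Prod.ext ?_ (Prod.ext ?_ rfl)
  · show x.1 * kg_stp e θ v (x.2.1 v) (x.2.1 v * (a * b)) =
      x.1 * kg_stp e θ v (x.2.1 v) (x.2.1 v * a) *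
        kg_stp e θ v (Function.update x.2.1 v (x.2.1 v * a) v)
          (Function.update x.2.1 v (x.2.1 v * a) v * b)
    rw [Function.update_self, mul_assoc x.1, kg_stp_mul e he, mul_assoc (x.2.1 v)]
  · show Function.update x.2.1 v (x.2.1 v * (a * b)) =
      Function.update (Function.update x.2.1 v (x.2.1 v * a)) v
        (Function.update x.2.1 v (x.2.1 v * a) v * b)
    rw [Function.update_self, Function.update_idem, mul_assoc]

private theorem kg_ract_comm (e : S → W) (θ : ∀ v, Γ v → Bool) {u v : S} (huv : u ≠ v)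
    (hc : e u * e v = e v * e u) (a : Γ u) (b : Γ v) (x : W × (∀ v, Γ v) × B) :
    kg_ract e θ u a (kg_ract e θ v b x) = kg_ract e θ v b (kg_ract e θ u a x) := by
  have h1 : ∀ p r p' r', kg_stp e θ u p r * kg_stp e θ v p' r' =
      kg_stp e θ v p' r' * kg_stp e θ u p r := by
    intro p r p' r'
    unfold kg_stp
    by_cases h1 : θ u r = θ u p
    · rw [if_pos h1, one_mul, mul_one]
    · by_cases h2 : θ v r' = θ v p'
      · rw [if_pos h2, one_mul, mul_one]
      · rw [if_neg h1, if_neg h2, hc]
  unfold kg_ract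
  refine Prod.ext ?_ (Prod.ext ?_ rfl)
  · show x.1 * kg_stp e θ v (x.2.1 v) (x.2.1 v * b) *
        kg_stp e θ u (Function.update x.2.1 v (x.2.1 v * b) u)
          (Function.update x.2.1 v (x.2.1 v * b) u * a) =
      x.1 * kg_stp e θ u (x.2.1 u) (x.2.1 u * a) *
        kg_stp e θ v (Function.update x.2.1 u (x.2.1 u * a) v)
          (Function.update x.2.1 u (x.2.1 u * a) v * b)
    rw [Function.update_of_ne huv, Function.update_of_ne huv.symm, mul_assoc, mul_assoc, h1]
  · show Function.update (Function.update x.2.1 v (x.2.1 v * b)) u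
        (Function.update x.2.1 v (x.2.1 v * b) u * a) =
      Function.update (Function.update x.2.1 u (x.2.1 u * a)) v
        (Function.update x.2.1 u (x.2.1 u * a) v * b)
    rw [Function.update_of_ne huv, Function.update_of_ne huv.symm, Function.update_comm huv]

/-- the left action of a vertex group -/
private def kg_lact (B : Type) [Group B] (e : S → W) (he : ∀ v, e v * e v = 1)
    (θ : ∀ v, Γ v → Bool) (v : S) : Γ v →* Function.End (W × (∀ v, Γ v) × B) where
  toFun h := fun x => kg_ract e θ v h⁻¹ x
  map_one' := by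
    funext x
    show kg_ract e θ v (1 : Γ v)⁻¹ x = x
    rw [inv_one, kg_ract_one]
  map_mul' a b := by
    funext x
    show kg_ract e θ v (a * b)⁻¹ x = kg_ract e θ v a⁻¹ (kg_ract e θ v b⁻¹ x)
    rw [mul_inv_rev, kg_ract_mul e he]

open Classical in
/-- the factor of the step from `b` to `b'` -/
private noncomputable def kg_sz (K : Set B) (c : W) (b b' : B) : W :=
  if (b ∈ K ↔ b' ∈ K) then 1 else c

private theorem kg_sz_mul (K : Set B) (c : W) (hc : c * c = 1) (n m k : B) :
    kg_sz K c n m * kg_sz K c m k = kg_sz K c n k := by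
  unfold kg_sz
  by_cases h1 : (n ∈ K ↔ m ∈ K)
  · rw [if_pos h1, one_mul]
    by_cases h2 : (m ∈ K ↔ k ∈ K)
    · rw [if_pos h2, if_pos (h1.trans h2)]
    · rw [if_neg h2, if_neg]
      exact fun h3 => h2 (h1.symm.trans h3)
  · rw [if_neg h1]
    by_cases h2 : (m ∈ K ↔ k ∈ K)
    · rw [if_pos h2, if_neg, mul_one]
      exact fun h3 => h1 (h3.trans h2.symm)
    · rw [if_neg h2, if_pos, hc]
      tauto

/-- the right action of the group `B` -/
private noncomputable def kg_zact (K : Set B) (c : W) (y : B) (x : W × (∀ v, Γ v) × B) :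
    W × (∀ v, Γ v) × B :=
  (x.1 * kg_sz K c x.2.2 (x.2.2 * y), x.2.1, x.2.2 * y)

private theorem kg_zact_one (K : Set B) (c : W) (x : W × (∀ v, Γ v) × B) :
    kg_zact K c 1 x = x := by
  unfold kg_zact kg_sz
  rw [mul_one, if_pos Iff.rfl, mul_one]

private theorem kg_zact_mul (K : Set B) (c : W) (hc : c * c = 1) (k l : B)
    (x : W × (∀ v, Γ v) × B) : kg_zact K c (k * l) x = kg_zact K c l (kg_zact K c k x) := by
  unfold kg_zact
  refine Prod.ext ?_ (Prod.ext rfl ?_)
  · show x.1 * kg_sz K c x.2.2 (x.2.2 * (k * l)) =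
      x.1 * kg_sz K c x.2.2 (x.2.2 * k) * kg_sz K c (x.2.2 * k) (x.2.2 * k * l)
    rw [mul_assoc x.1, kg_sz_mul K c hc, mul_assoc x.2.2]
  · show x.2.2 * (k * l) = x.2.2 * k * l
    rw [mul_assoc]

private theorem kg_zact_comm (K : Set B) (c : W) (e : S → W) (θ : ∀ v, Γ v → Bool) (v : S) (k : B)
    (hc : (∀ b, b ∈ K ↔ b * k ∈ K) ∨ c * e v = e v * c) (a : Γ v) (x : W × (∀ v, Γ v) × B) :
    kg_zact K c k (kg_ract e θ v a x) = kg_ract e θ v a (kg_zact K c k x) := by
  unfold kg_zact kg_ract
  refine Prod.ext ?_ rfl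
  show x.1 * kg_stp e θ v (x.2.1 v) (x.2.1 v * a) * kg_sz K c x.2.2 (x.2.2 * k) =
    x.1 * kg_sz K c x.2.2 (x.2.2 * k) * kg_stp e θ v (x.2.1 v) (x.2.1 v * a)
  rw [mul_assoc, mul_assoc]
  congr 1
  unfold kg_stp kg_sz
  by_cases h1 : (x.2.2 ∈ K ↔ x.2.2 * k ∈ K)
  · rw [if_pos h1, one_mul, mul_one]
  · rw [if_neg h1]
    rcases hc with hc | hc
    · exact absurd (hc x.2.2) h1
    · split_ifs
      · rw [one_mul, mul_one]
      · exact hc.symm

/-- the left action of the group `B` -/
private noncomputable def kg_zl (Γ : S → Type) [∀ v, Group (Γ v)] (K : Set B) (c : W)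
    (hc : c * c = 1) : B →* Function.End (W × (∀ v, Γ v) × B) where
  toFun h := fun x => kg_zact K c h⁻¹ x
  map_one' := by
    funext x
    show kg_zact K c (1 : B)⁻¹ x = x
    rw [inv_one, kg_zact_one]
  map_mul' a b := by
    funext x
    show kg_zact K c (a * b)⁻¹ x = kg_zact K c a⁻¹ (kg_zact K c b⁻¹ x)
    rw [mul_inv_rev, kg_zact_mul K c hc]

end

variable {S : Type} [Fintype S] [DecidableEq S] {M : CoxeterMatrix S} {F : Finset S}
  {Γ : S → Type} [∀ v, Group (Γ v)] {D : Type} [Group D]

open Classical in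
/-- The maps `κ`. -/
structure IsKapC (e : S → D) (τ : D) (K : Subgroup (BG M)) (r : AG M F Γ →* BG M)
    (θ : ∀ v, Γ v → Bool) (κ : AG M F Γ → D) : Prop where
  one : κ 1 = 1
  io : ∀ g, ∀ v ∈ F, ∀ a : Γ v, κ (g * io M F v a) =
    κ g * if θ v (pj M F v g * a) = θ v (pj M F v g) then 1 else e v
  th : ∀ g (y : BG M), κ (g * th M F Γ y) =
    κ g * if (r g ∈ K ↔ r (g * th M F Γ y) ∈ K) then 1 else τ

open Classical in
/-- general form -/
private theorem kg_exists (hM : Mix M F) (K : Subgroup (BG M)) (e : S → D) (he : ∀ v, e v * e v = 1)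
    (hee : ∀ u ∈ F, ∀ v ∈ F, M u v = 2 → e u * e v = e v * e u) (c : D) (hc : c * c = 1)
    (hce : ∀ s, s ∉ F → ∀ v ∈ F, M s v = 2 → bgen M s ∈ K ∨ c * e v = e v * c)
    (r : AG M F Γ →* BG M) (hr : ∀ s, s ∉ F → r (th M F Γ (bgen M s)) = bgen M s)
    (hr' : ∀ v (a : Γ v), r (io M F v a) = 1) (θ : ∀ v, Γ v → Bool) :
    ∃ κ : AG M F Γ → D, κ 1 = 1 ∧
      (∀ g, ∀ v ∈ F, ∀ a : Γ v, κ (g * io M F v a) =
        κ g * if θ v (pj M F v g * a) = θ v (pj M F v g) then 1 else e v) ∧
      ∀ g (y : BG M), κ (g * th M F Γ y) =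
        κ g * if (r g ∈ K ↔ r (g * th M F Γ y) ∈ K) then 1 else c := by
  obtain ⟨ρ, hρ⟩ := exists_killBG (M := M) hM
  let zl := kg_zl Γ (K : Set (BG M)) c hc
  let f : BG M →* (Function.End (D × (∀ v, Γ v) × BG M))ˣ := zl.toHomUnits.comp ρ
  let k : ∀ v, Γ v →* (Function.End (D × (∀ v, Γ v) × BG M))ˣ := fun v =>
    if v ∈ F then (kg_lact (BG M) e he θ v).toHomUnits else 1
  have hk : ∀ v ∈ F, k v = (kg_lact (BG M) e he θ v).toHomUnits := fun v hv => if_pos hv
  have hk' : ∀ v, v ∉ F → k v = 1 := fun v hv => if_neg hv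
  have hf : ∀ y, f y = zl.toHomUnits (ρ y) := fun y => rfl
  have hf1 : ∀ s, s ∉ F → f (bgen M s) = zl.toHomUnits (bgen M s) := fun s hs => by
    rw [hf, hρ, if_neg hs]
  have hf2 : ∀ s ∈ F, f (bgen M s) = 1 := fun s hs => by
    rw [hf, hρ, if_pos hs, map_one]
  let R : AG M F Γ →* (Function.End (D × (∀ v, Γ v) × BG M))ˣ :=
    liftAG f k hf2 (fun v hv a => by rw [hk' v hv, MonoidHom.one_apply])
      (fun s v hs hv h2 a => by
        rw [hf1 s hs, hk v hv]
        refine Units.ext ?_
        funext x
        refine kg_zact_comm (K : Set (BG M)) c e θ v (bgen M s)⁻¹ ?_ a⁻¹ x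
        rcases hce s hs v hv h2 with h | h
        · refine Or.inl fun b => ?_
          show b ∈ K ↔ b * (bgen M s)⁻¹ ∈ K
          rw [K.mul_mem_cancel_right (K.inv_mem h)]
        · exact Or.inr h)
      (fun u v hu hv h2 a b => by
        rw [hk u hu, hk v hv]
        refine Units.ext ?_
        funext x
        have huv : u ≠ v := by
          intro h
          rw [h, M.diagonal] at h2
          exact absurd h2 (by norm_num)
        exact kg_ract_comm e θ huv (hee u hu v hv h2) a⁻¹ b⁻¹ x)
  have hRth : ∀ x, R (th M F Γ x) = f x := fun x => liftAG_th _ _ _ _ _ _ x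
  have hRio : ∀ v (a : Γ v), R (io M F v a) = k v a := fun v a => liftAG_io _ _ _ _ _ _ v a
  let st : AG M F Γ → D × (∀ v, Γ v) × BG M := fun g => (R g⁻¹).val (1, fun _ => 1, 1)
  have h1 : st 1 = (1, fun _ => 1, 1) := by
    show (R (1 : AG M F Γ)⁻¹).val (1, fun _ => 1, 1) = _
    rw [inv_one, map_one]
    rfl
  have h2 : ∀ g, ∀ v ∈ F, ∀ h : Γ v, st (g * io M F v h) = kg_ract e θ v h (st g) := by
    intro g v hv h
    show (R (g * io M F v h)⁻¹).val (1, fun _ => 1, 1) = _
    rw [mul_inv_rev, map_mul, ← map_inv (io M F v) h, hRio, hk v hv]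
    show kg_ract e θ v (h⁻¹)⁻¹ (st g) = _
    rw [inv_inv]
  have h5 : ∀ g y, st (g * th M F Γ y) = kg_zact (K : Set (BG M)) c (ρ y) (st g) := by
    intro g y
    show (R (g * th M F Γ y)⁻¹).val (1, fun _ => 1, 1) = _
    rw [mul_inv_rev, map_mul, ← map_inv (th M F Γ) y, hRth, hf, map_inv]
    show kg_zact (K : Set (BG M)) c ((ρ y)⁻¹)⁻¹ (st g) = _
    rw [inv_inv]
  have hrth : ∀ y, r (th M F Γ y) = ρ y := by
    have h3 : r.comp (th M F Γ) = ρ := by
      refine bg_hom_ext fun s => ?_
      show r (th M F Γ (bgen M s)) = ρ (bgen M s)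
      rw [hρ]
      by_cases hs : s ∈ F
      · rw [if_pos hs, th_F hs, map_one]
      · rw [if_neg hs, hr s hs]
    exact fun y => DFunLike.congr_fun h3 y
  have h6 : ∀ g, (∀ v ∈ F, (st g).2.1 v = pj M F v g) ∧ (st g).2.2 = r g := by
    intro g
    refine AG.ind (C := fun g => (∀ v ∈ F, (st g).2.1 v = pj M F v g) ∧ (st g).2.2 = r g)
      ?_ ?_ ?_ ?_ g
    · refine ⟨fun v _ => ?_, ?_⟩
      · rw [h1, map_one]
      · rw [h1, map_one]
    · rintro g s - ⟨hg, hg'⟩
      refine ⟨fun v hv => ?_, ?_⟩
      · rw [h5, map_mul, pj_th, mul_one]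
        exact hg v hv
      · rw [h5, map_mul, hrth]
        show (st g).2.2 * ρ (bgen M s) = _
        rw [hg']
    · rintro g s - ⟨hg, hg'⟩
      refine ⟨fun v hv => ?_, ?_⟩
      · rw [← map_inv, h5, map_mul, pj_th, mul_one]
        exact hg v hv
      · rw [← map_inv, h5, map_mul, hrth]
        show (st g).2.2 * ρ (bgen M s)⁻¹ = _
        rw [hg']
    · rintro g u hu a ⟨hg, hg'⟩
      refine ⟨fun v hv => ?_, ?_⟩
      · rw [h2 g u hu, map_mul]
        show Function.update (st g).2.1 u ((st g).2.1 u * a) v = _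
        by_cases huv : v = u
        · subst huv
          rw [Function.update_self, pj_same hv, hg v hv]
        · rw [Function.update_of_ne huv, pj_ne (Ne.symm huv), mul_one, hg v hv]
      · rw [h2 g u hu, map_mul, hr', mul_one]
        exact hg'
  refine ⟨fun g => (st g).1, ?_, ?_, ?_⟩
  · show (st 1).1 = 1
    rw [h1]
  · intro g v hv a
    show (st (g * io M F v a)).1 = (st g).1 * _
    rw [h2 g v hv, ← (h6 g).1 v hv]
    rfl
  · intro g y
    show (st (g * th M F Γ y)).1 = (st g).1 * _
    rw [h5, map_mul, ← (h6 g).2, hrth]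
    rfl

theorem exists_kapC (hM : Mix M F) {r : AG M F Γ →* BG M}
    (hr1 : ∀ s, s ∉ F → r (th M F Γ (bgen M s)) = bgen M s) (hr2 : ∀ v (a : Γ v), r (io M F v a) = 1)
    {e : S → D} {τ : D} (he : ∀ v ∈ F, e v * e v = 1)
    (hec : ∀ u ∈ F, ∀ v ∈ F, M u v = 2 → e u * e v = e v * e u) (hτ : τ * τ = 1)
    {K : Subgroup (BG M)}
    (hK : ∀ s, s ∉ F → ∀ u ∈ F, M s u = 2 → bgen M s ∈ K ∨ e u * τ = τ * e u)
    (θ : ∀ v, Γ v → Bool) : ∃ κ : AG M F Γ → D, IsKapC e τ K r θ κ := by
  let e' : S → D := fun v => if v ∈ F then e v else 1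
  have he' : ∀ v ∈ F, e' v = e v := fun v hv => if_pos hv
  have hsq : ∀ v, e' v * e' v = 1 := by
    intro v
    by_cases hv : v ∈ F
    · rw [he' v hv, he v hv]
    · show (if v ∈ F then e v else 1) * (if v ∈ F then e v else 1) = 1
      rw [if_neg hv, one_mul]
  obtain ⟨κ, h1, h2, h3⟩ := kg_exists (Γ := Γ) hM K e' hsq
    (fun u hu v hv h => by rw [he' u hu, he' v hv, hec u hu v hv h]) τ hτ
    (fun s hs v hv h => by
      rw [he' v hv]
      exact (hK s hs v hv h).imp id Eq.symm) r hr1 hr2 θ
  refine ⟨κ, h1, fun g v hv a => ?_, h3⟩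
  rw [h2 g v hv a, he' v hv]

end Pool.Agent.H65.AB

end

section

/-!
# Project AB: definitions for the chain level

`FF` is the set of the letters `v` with vertex groups (as in BU); every other letter `z` has elements `p (z, b)`. The
cubes `(w, s, a)`, `w` in the subgroup `wf cs FF` of the letters in `FF`; in the directions `v ∈ FF` a cube has two
faces, in the other directions one face (a sum over all powers of `p (z, b)`).
-/

set_option autoImplicit false

open Finset

namespace Pool.Agent.H65.AB

open Pool.Agent.H65.RA Pool.Agent.H65.BU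

variable {V W A : Type} [Fintype V] [DecidableEq V] [Group W] [Group A] {M : CoxeterMatrix V}

/-- the subgroup of the letters in `FF` -/
def wf (cs : CoxeterSystem M W) (FF : Finset V) : Subgroup W :=
  Subgroup.closure {x | ∃ v ∈ FF, x = cs.simple v}

/-- the coboundary of a function on pairs of cubes -/
noncomputable def dlF (cs : CoxeterSystem M W) (FF : Finset V) (φ : Cub V W → Cub V W → ZMod 2)
    (c c' : Cub V W) : ZMod 2 :=
  ∑ v ∈ c.2.1, (φ (fa cs c v) c' + if v ∈ FF then φ (fb cs c v) c' else 0) +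
    ∑ v ∈ c'.2.1, (φ c (fa cs c' v) + if v ∈ FF then φ c (fb cs c' v) else 0)

/-- the pairs of cubes which occur -/
def OkF (G : SimpleGraph V) (cs : CoxeterSystem M W) (FF : Finset V) (pr : W → V → ZMod 2)
    (c c' : Cub V W) : Prop :=
  Ok G cs pr c c' ∧ c.1 ∈ wf cs FF ∧ c'.1 ∈ wf cs FF

open Classical in
/-- the sum over the pairs of cubes of the types `s`, `t` -/
noncomputable def KKF (G : SimpleGraph V) (cs : CoxeterSystem M W) (FF : Finset V)
    (pr : W → V → ZMod 2) (e : V → ℕ) (x : Finset V → ZMod 2) (k : ℕ)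
    (φ : Cub V W → Cub V W → ZMod 2) (s t : Finset V) : ZMod 2 :=
  ∑ᶠ q : W × W, if (q.1 ∈ wf cs FF ∧ q.2 ∈ wf cs FF) ∧
      (∀ v ∈ s, pr q.1 v = 0) ∧ (∀ v ∈ t, pr q.2 v = 0) then
    Ps G e x k (fun a b => φ (q.1, s, a) (q.2, t, b)) (FH cs q.1 s) (FH cs q.2 t) else 0

/-- exponents: supported on pairwise adjacent letters outside `FF` -/
def Pos (G : SimpleGraph V) (FF : Finset V) (m : V → ℕ) : Prop :=
  (∀ z, m z ≠ 0 → z ∉ FF) ∧ ∀ y z, m y ≠ 0 → m z ≠ 0 → y ≠ z → G.Adj y z

/-- the product of the powers -/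
noncomputable def zp (p : V × Bool → A) (a : V → Bool) (m : V → ℕ) : A :=
  ((univ : Finset V).toList.map fun z => p (z, a z) ^ m z).prod

/-- the conditions on the signs of two positions `(w, m)`, `(w', m')` -/
structure Opp (cs : CoxeterSystem M W) (w w' : W) (m m' : V → ℕ) (a b : V → Bool) : Prop where
  fst : ∀ v ∈ fst cs w, v ∈ fst cs w' → a v ≠ b v
  free : ∀ z, m z ≠ 0 → m' z ≠ 0 → cs.simple z * w = w * cs.simple z →
    cs.simple z * w' = w' * cs.simple z → a z ≠ b z
  left : ∀ z, m z ≠ 0 → ¬ (cs.simple z * w = w * cs.simple z) → a z = true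
  right : ∀ z, m' z ≠ 0 → ¬ (cs.simple z * w' = w' * cs.simple z) → b z = true

/-- Separation: pairs of positions `(w, m)`, `(w', m')` with different signs are far from each other, with finitely
many exceptions. -/
def SepZ (G : SimpleGraph V) (cs : CoxeterSystem M W) (FF : Finset V) (p : V × Bool → A)
    (g : (V → Bool) → W → A) : Prop :=
  ∀ E : Finset A, {q : (W × (V → ℕ)) × (W × (V → ℕ)) | q.1.1 ∈ wf cs FF ∧ q.2.1 ∈ wf cs FF ∧
    Pos G FF q.1.2 ∧ Pos G FF q.2.2 ∧ ∃ a b : V → Bool, Opp cs q.1.1 q.2.1 q.1.2 q.2.2 a b ∧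
    (g a q.1.1 * zp p a q.1.2)⁻¹ * (g b q.2.1 * zp p b q.2.2) ∈ E}.Finite

end Pool.Agent.H65.AB

end

section

/-!
# Project AB: products of powers
-/

set_option autoImplicit false
set_option linter.unusedSectionVars false

open Finset

namespace Pool.Agent.H65.AB

open Pool.Agent.H65.RA Pool.Agent.H65.BU

variable {V A B : Type} [Fintype V] [DecidableEq V] [Group A] [Group B]

theorem zp_zero (p : V × Bool → A) (a : V → Bool) : zp p a 0 = 1 := by
  simp [zp]

/-- the products depend only on the signs of the letters which occur -/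
theorem zp_congr (p : V × Bool → A) {a b : V → Bool} {m : V → ℕ} (h : ∀ z, m z ≠ 0 → a z = b z) :
    zp p a m = zp p b m := by
  unfold zp
  refine congrArg List.prod (List.map_congr_left fun z _ => ?_)
  by_cases hz : m z = 0
  · rw [hz, pow_zero, pow_zero]
  · rw [h z hz]

/-- homomorphisms -/
theorem zp_map (f : A →* B) (p : V × Bool → A) (a : V → Bool) (m : V → ℕ) :
    f (zp p a m) = zp (fun x => f (p x)) a m := by
  unfold zp
  rw [map_list_prod, List.map_map]
  refine congrArg List.prod (List.map_congr_left fun z _ => ?_)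
  simp only [Function.comp_apply, map_pow]

/-- only the values of `p` at the letters which occur are needed -/
theorem zp_congr' {p p' : V × Bool → A} {a : V → Bool} {m : V → ℕ}
    (h : ∀ z, m z ≠ 0 → p (z, a z) = p' (z, a z)) : zp p a m = zp p' a m := by
  unfold zp
  refine congrArg List.prod (List.map_congr_left fun z _ => ?_)
  by_cases hz : m z = 0
  · rw [hz, pow_zero, pow_zero]
  · rw [h z hz]

/-- an element which commutes with all letters which occur -/
theorem zp_comm {p : V × Bool → A} {a : V → Bool} {m : V → ℕ} {x : A}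
    (h : ∀ z, m z ≠ 0 → x * p (z, a z) = p (z, a z) * x) : x * zp p a m = zp p a m * x := by
  unfold zp
  have key : ∀ l : List V, Commute x (l.map fun z => p (z, a z) ^ m z).prod := by
    intro l
    induction l with
    | nil => simp
    | cons z l ih =>
      rw [List.map_cons, List.prod_cons]
      refine Commute.mul_right ?_ ih
      by_cases hz : m z = 0
      · rw [hz, pow_zero]
        exact Commute.one_right x
      · exact Commute.pow_right (h z hz) _
  exact key _

/-- one more factor -/
theorem zp_add {p : V × Bool → A} {a : V → Bool} {m : V → ℕ} {z : V}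
    (h : ∀ y, m y ≠ 0 → y ≠ z → p (y, a y) * p (z, a z) = p (z, a z) * p (y, a y)) :
    zp p a (m + Pi.single z 1) = zp p a m * p (z, a z) := by
  unfold zp
  have hne : ∀ l : List V, z ∉ l →
      (l.map fun y => p (y, a y) ^ (m + Pi.single z 1 : V → ℕ) y).prod =
        (l.map fun y => p (y, a y) ^ m y).prod := by
    intro l hl
    refine congrArg List.prod (List.map_congr_left fun y hy => ?_)
    have : y ≠ z := fun hyz => hl (hyz ▸ hy)
    rw [Pi.add_apply, Pi.single_eq_of_ne this, add_zero]
  have hcm : ∀ l : List V, z ∉ l →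
      Commute (p (z, a z)) (l.map fun y => p (y, a y) ^ m y).prod := by
    intro l
    induction l with
    | nil => intro _; simp
    | cons y l ih =>
      intro hl
      rw [List.map_cons, List.prod_cons]
      refine Commute.mul_right ?_ (ih fun hz => hl (List.mem_cons_of_mem _ hz))
      have hyz : y ≠ z := fun hyz => hl (hyz ▸ List.mem_cons_self)
      by_cases hm : m y = 0
      · rw [hm, pow_zero]
        exact Commute.one_right _
      · exact Commute.pow_right (h y hm hyz).symm _
  have key : ∀ l : List V, l.Nodup → z ∈ l →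
      (l.map fun y => p (y, a y) ^ (m + Pi.single z 1 : V → ℕ) y).prod =
        (l.map fun y => p (y, a y) ^ m y).prod * p (z, a z) := by
    intro l
    induction l with
    | nil => intro _ hz; simp at hz
    | cons y l ih =>
      intro hnd hz
      rw [List.map_cons, List.prod_cons, List.map_cons, List.prod_cons]
      rw [List.nodup_cons] at hnd
      by_cases hyz : y = z
      · subst hyz
        rw [hne l hnd.1, Pi.add_apply, Pi.single_eq_same, pow_succ, mul_assoc, mul_assoc,
          (hcm l hnd.1).eq]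
      · have hzl : z ∈ l := by
          rcases List.mem_cons.1 hz with h1 | h1
          · exact absurd h1.symm hyz
          · exact h1
        rw [ih hnd.2 hzl, Pi.add_apply, Pi.single_eq_of_ne hyz, add_zero, mul_assoc]
  exact key _ (Finset.nodup_toList _) (Finset.mem_toList.2 (Finset.mem_univ z))

/-- powers of the letters -/
theorem zp_smul {p : V × Bool → A} {a : V → Bool} (N : ℕ) (m : V → ℕ) :
    zp p a (N • m) = zp (fun x => p x ^ N) a m := by
  unfold zp
  refine congrArg List.prod (List.map_congr_left fun z _ => ?_)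
  rw [Pi.smul_apply, smul_eq_mul, pow_mul]

/-- a function of the letters with values in an additive commutative group -/
theorem zp_sum {R : Type} [AddCommGroup R] (L : A → R) (hL : ∀ x y, L (x * y) = L x + L y)
    (p : V × Bool → A) (a : V → Bool) (m : V → ℕ) : L (zp p a m) = ∑ z, m z • L (p (z, a z)) := by
  have h1 : L 1 = 0 := by
    have := hL 1 1
    rw [mul_one] at this
    exact left_eq_add.1 this
  have hpow : ∀ (x : A) (n : ℕ), L (x ^ n) = n • L x := by
    intro x n
    induction n with
    | zero => rw [pow_zero, zero_smul, h1]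
    | succ n ih => rw [pow_succ, hL, ih, succ_nsmul]
  have key : ∀ l : List V, L (l.map fun z => p (z, a z) ^ m z).prod =
      (l.map fun z => m z • L (p (z, a z))).sum := by
    intro l
    induction l with
    | nil => simp [h1]
    | cons z l ih => rw [List.map_cons, List.prod_cons, List.map_cons, List.sum_cons, hL, ih, hpow]
  unfold zp
  rw [key, Finset.sum_map_toList]

/-- the products are in every subgroup which contains the letters which occur -/
theorem zp_mem {p : V × Bool → A} {a : V → Bool} {m : V → ℕ} {K : Subgroup A}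
    (h : ∀ z, m z ≠ 0 → p (z, a z) ∈ K) : zp p a m ∈ K := by
  unfold zp
  refine K.list_prod_mem fun x hx => ?_
  obtain ⟨z, _, rfl⟩ := List.mem_map.1 hx
  by_cases hz : m z = 0
  · rw [hz, pow_zero]
    exact K.one_mem
  · exact K.pow_mem (h z hz) _

end Pool.Agent.H65.AB

end

section

/-!
# Project BU: killing a letter; balls are finite

PROOF. `r` = `cs.lift` of `u ↦ if u = v then 1 else s_u` (relations: `(s_u s_w)^(M u w)`; if `u = v ≠ w` this is
`s_w^(M v w)` with `M v w = 2` or `0`). `ℓ(r w) ≤ ℓ(w)` (words) and `r (r w) = r w`. If `v ∈ fst (r w)`, then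
`r w = s_v x`, `ℓ(x) < ℓ(r w)`, `r w = r (r w) = r x`, so `ℓ(r w) ≤ ℓ(x)`, absurd. Balls: words of length `n`.
-/

set_option autoImplicit false

open Finset

namespace Pool.Agent.H65.BU

variable {V W : Type} [Fintype V] [DecidableEq V] [Group W] {M : CoxeterMatrix V}

theorem exists_kill {G : SimpleGraph V} (hM : RA G M) (cs : CoxeterSystem M W) (v : V) :
    ∃ r : W →* W, (∀ u, r (cs.simple u) = if u = v then 1 else cs.simple u) ∧
      ∀ w, v ∉ fst cs (r w) := by
  classical
  have hev : ∀ u w : V, u ≠ w → M u w = 2 ∨ M u w = 0 := by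
    intro u w huw
    by_cases h : G.Adj u w
    · exact Or.inl ((hM u w huw).1 h)
    · exact Or.inr ((hM u w huw).2 h)
  have hl : CoxeterMatrix.IsLiftable M fun u => if u = v then (1 : W) else cs.simple u := by
    intro u w
    by_cases hu : u = v
    · by_cases hw : w = v
      · simp only [if_pos hu, if_pos hw, mul_one, one_pow]
      · simp only [if_pos hu, if_neg hw, one_mul]
        rcases hev u w (fun h => hw (h ▸ hu)) with h | h
        · rw [h, cs.simple_sq]
        · rw [h, pow_zero]
    · by_cases hw : w = v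
      · simp only [if_neg hu, if_pos hw, mul_one]
        rcases hev u w (fun h => hu (h ▸ hw)) with h | h
        · rw [h, cs.simple_sq]
        · rw [h, pow_zero]
      · simp only [if_neg hu, if_neg hw]
        exact cs.simple_mul_simple_pow u w
  set r : W →* W := cs.lift ⟨_, hl⟩ with hr
  have hs : ∀ u, r (cs.simple u) = if u = v then 1 else cs.simple u := fun u =>
    cs.lift_apply_simple hl u
  refine ⟨r, hs, fun w hw => ?_⟩
  have hrr : ∀ w, r (r w) = r w := by
    have h1 : r.comp r = r := by
      refine cs.ext_simple fun u => ?_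
      show r (r (cs.simple u)) = r (cs.simple u)
      rw [hs]
      by_cases hu : u = v
      · rw [if_pos hu, map_one]
      · rw [if_neg hu, hs, if_neg hu]
    exact fun w => DFunLike.congr_fun h1 w
  have hword : ∀ ω : List V, r (cs.wordProd ω) = cs.wordProd (ω.filter fun u => u ≠ v) := by
    intro ω
    induction ω with
    | nil => simp
    | cons u ω ih =>
      rw [cs.wordProd_cons, map_mul, hs, ih]
      by_cases hu : u = v
      · rw [if_pos hu, one_mul, List.filter_cons_of_neg (by simp [hu])]
      · rw [if_neg hu, List.filter_cons_of_pos (by simp [hu]), cs.wordProd_cons]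
  have hlen : ∀ w, cs.length (r w) ≤ cs.length w := by
    intro w
    obtain ⟨ω, hω, rfl⟩ := cs.exists_isReduced w
    rw [hword, hω.eq]
    exact (cs.length_wordProd_le _).trans (List.length_filter_le _ _)
  unfold fst at hw
  rw [mem_filter] at hw
  have h1 : cs.length (cs.simple v * r w) < cs.length (r w) := hw.2
  have h2 : r (cs.simple v * r w) = r w := by
    rw [map_mul, hs, if_pos rfl, one_mul, hrr]
  have h3 := hlen (cs.simple v * r w)
  rw [h2] at h3
  omega

theorem ball_finite (cs : CoxeterSystem M W) (N : ℕ) : {w : W | cs.length w ≤ N}.Finite := by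
  refine ((List.finite_length_le V N).image cs.wordProd).subset ?_
  intro w hw
  obtain ⟨ω, hω, rfl⟩ := cs.exists_isReduced w
  refine ⟨ω, ?_, rfl⟩
  show ω.length ≤ N
  rw [← hω.eq]
  exact hw

end Pool.Agent.H65.BU

end

section

/-!
# Project RA: the pairing of cocycles and cycles
-/

set_option autoImplicit false
set_option linter.unusedSectionVars false

open Finset

namespace Pool.Agent.H65.RA

variable {V : Type} [DecidableEq V] {G : SimpleGraph V} {e : V → ℕ} {x : Finset V → ZMod 2}
  {k : ℕ}

theorem bet_self {σ : Finset V} (hσ : G.IsClique (σ : Set V)) : bet G σ σ = {σ} := by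
  ext S
  rw [mem_bet, union_self, inter_self, mem_singleton]
  constructor
  · rintro ⟨h1, h2, _⟩
    exact Subset.antisymm h1 h2
  · rintro rfl
    exact ⟨Subset.refl _, Subset.refl _, hσ⟩

/-- the value of `Ps g` on the diagonal -/
theorem Ps_self {σ : Finset V} (hσ : G.IsClique (σ : Set V)) (hc : σ.card = k + 1)
    (g : Finset (V × Bool) → Finset (V × Bool) → ZMod 2) :
    Ps G e x k g σ σ = x σ * ∑ A ∈ σ.powerset, g (sgn σ (sA σ A)) (sgn σ (sB A)) := by
  unfold Ps
  rw [bet_self hσ, sum_singleton, mul_sum]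
  exact sum_congr rfl fun A _ => by rw [FS_top e x k _ hc]

/-- the two signed simplices are disjoint -/
theorem sgn_disjoint {σ τ S A : Finset V} (hS : σ ∩ τ ⊆ S) :
    Disjoint (sgn σ (sA S A)) (sgn τ (sB A)) := by
  rw [disjoint_left]
  intro w h1 h2
  rw [mem_sgn] at h1 h2
  have h3 := hS (mem_inter.2 ⟨h1.1, h2.1⟩)
  have h4 := h1.2.symm.trans h2.2
  unfold sA sB at h4
  rw [decide_eq_decide] at h4
  tauto

variable (g : Finset (V × Bool) → Finset (V × Bool) → ZMod 2)

/-- a symmetric function has the sum of its diagonal, modulo two -/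
theorem sum_sym {α : Type} [DecidableEq α] (s : Finset α) (f : α → α → ZMod 2)
    (hf : ∀ a ∈ s, ∀ b ∈ s, a ≠ b → f a b = f b a) :
    ∑ a ∈ s, ∑ b ∈ s, f a b = ∑ a ∈ s, f a a := by
  induction s using Finset.induction_on with
  | empty => simp
  | insert c s hc ih =>
    rw [sum_insert hc, sum_insert hc, sum_insert hc]
    have h1 : ∀ a ∈ s, ∑ b ∈ insert c s, f a b = f c a + ∑ b ∈ s, f a b := by
      intro a ha
      rw [sum_insert hc, hf a (mem_insert_of_mem ha) c (mem_insert_self c s)
        (fun h => hc (h ▸ ha))]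
    rw [sum_congr rfl h1, sum_add_distrib,
      ih fun a ha b hb => hf a (mem_insert_of_mem ha) b (mem_insert_of_mem hb)]
    have h2 := z2_add_self (∑ b ∈ s, f c b)
    linear_combination h2

end Pool.Agent.H65.RA

end

section

/-!
# Project AB: the cubes over the subgroup of the letters in `FF`

PROOF of `fst_wf`: let `R : W →* W` be the homomorphism which kills the letters outside `FF` (it exists by `RA`, as in
`exists_kill`); `R w = w` for `w` in `wf`. If `w = s_z w'` with `ℓ w' < ℓ w`, `z ∉ FF`, then `w = R w = R w'`, of length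
`≤ ℓ w'`. `pr_wf`: induction over the closure by multiplication on the right. The rest: `ok_fa`, `ok_fb` of BU/Faces.
-/

set_option autoImplicit false
set_option linter.unusedSectionVars false

open Finset

namespace Pool.Agent.H65.AB

open Pool.Agent.H65.RA Pool.Agent.H65.BU

variable {V W A : Type} [Fintype V] [DecidableEq V] [Group W] [Group A] {M : CoxeterMatrix V}
  {G : SimpleGraph V} {cs : CoxeterSystem M W} {p : V × Bool → A} {pr : W → V → ZMod 2}
  {g : (V → Bool) → W → A} {FF : Finset V}

theorem simple_wf {v : V} (hv : v ∈ FF) : cs.simple v ∈ wf cs FF :=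
  Subgroup.subset_closure ⟨v, hv, rfl⟩

theorem mul_wf {v : V} (hv : v ∈ FF) {w : W} : w * cs.simple v ∈ wf cs FF ↔ w ∈ wf cs FF :=
  ⟨fun h => by
    have h1 := (wf cs FF).mul_mem h (simple_wf (cs := cs) hv)
    rwa [cs.simple_mul_simple_cancel_right] at h1,
  fun h => (wf cs FF).mul_mem h (simple_wf hv)⟩

/-- induction by multiplication on the right -/
theorem wf_ind {C : W → Prop} (h1 : C 1)
    (hm : ∀ w v, w ∈ wf cs FF → v ∈ FF → C w → C (w * cs.simple v)) {w : W} (hw : w ∈ wf cs FF) :
    C w := by
  have h2 : w ∈ wf cs FF ∧ C w := by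
    refine Subgroup.closure_induction_right (p := fun x _ => x ∈ wf cs FF ∧ C x)
      ⟨(wf cs FF).one_mem, h1⟩ ?_ ?_ hw
    · rintro x _ y ⟨v, hv, rfl⟩ ⟨hx, hx'⟩
      exact ⟨(wf cs FF).mul_mem hx (simple_wf hv), hm x v hx hv hx'⟩
    · rintro x _ y ⟨v, hv, rfl⟩ ⟨hx, hx'⟩
      rw [cs.inv_simple]
      exact ⟨(wf cs FF).mul_mem hx (simple_wf hv), hm x v hx hv hx'⟩
  exact h2.2

private theorem wf_WP {w : W} (hw : w ∈ wf cs FF) :
    w ∈ Pool.Agent.H73.HVN.WP cs (FF : Set V) := by
  refine (Subgroup.closure_le _).2 ?_ hw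
  rintro x ⟨v, hv, rfl⟩
  exact Subgroup.subset_closure ⟨v, mem_coe.2 hv, rfl⟩

/-- the first letters -/
theorem fst_wf (hM : RA G M) {w : W} (hw : w ∈ wf cs FF) : fst cs w ⊆ FF := by
  intro v hv
  rw [mem_fst] at hv
  obtain ⟨ω, hω, hω'⟩ := cs.exists_isReduced (cs.simple v * w)
  have h1 : w = cs.wordProd (v :: ω) := by
    rw [cs.wordProd_cons, ← hω', cs.simple_mul_simple_cancel_left]
  have h2 : cs.IsReduced (v :: ω) := by
    unfold CoxeterSystem.IsReduced
    rw [← h1, List.length_cons, ← hω.eq, ← hω']
    have h3 := cs.isLeftDescent_iff.1 hv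
    omega
  have h3 := wf_WP hw
  rw [h1] at h3
  exact mem_coe.1 (Pool.Agent.H73.HVN.mem_of_isReduced cs h2 h3 v List.mem_cons_self)

theorem pr_wf (hg : Apts cs pr p g) {w : W} (hw : w ∈ wf cs FF) {z : V} (hz : z ∉ FF) :
    pr w z = 0 := by
  refine wf_ind (C := fun w => pr w z = 0) (hg.pr_one z) (fun w v _ hv ih => ?_) hw
  have h1 : z ≠ v := fun h => hz (h ▸ hv)
  rw [hg.pr_mul, ih, if_neg h1, add_zero]

theorem okF_symm {c c' : Cub V W} (h : OkF G cs FF pr c c') : OkF G cs FF pr c' c :=
  ⟨ok_symm h.1, h.2.2, h.2.1⟩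

theorem okF_fa {c c' : Cub V W} (h : OkF G cs FF pr c c') {v : V} (hv : v ∈ c.2.1) :
    OkF G cs FF pr (fa cs c v) c' :=
  ⟨ok_fa h.1 hv, h.2.1, h.2.2⟩

theorem okF_fb (hF : Facts G cs) (hg : Apts cs pr p g) {c c' : Cub V W} (h : OkF G cs FF pr c c')
    {v : V} (hv : v ∈ c.2.1) (hv' : v ∈ FF) : OkF G cs FF pr (fb cs c v) c' :=
  ⟨ok_fb hF hg h.1 hv, (mul_wf hv').2 h.2.1, h.2.2⟩

theorem okF_self {c : Cub V W} (h : OkF G cs FF pr c c) : c = b0 V W := ok_self h.1

theorem okF_b0 (hg : Apts cs pr p g) : OkF G cs FF pr (b0 V W) (b0 V W) :=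
  ⟨ok_b0 hg, (wf cs FF).one_mem, (wf cs FF).one_mem⟩

end Pool.Agent.H65.AB

end

section

/-!
# Project BU: the right-angled Coxeter group

PROOF. `exists_ra`: the matrix 1 on the diagonal, 2 for adjacent, 0 otherwise. `facts_of_ra`:
`comm`: `M u v = 2`. `inj`: `H73.HVN.simple_injective`. `clique`: two left descents have a finite label
(`two_left_descents`). `exch`: `deodhar_left`. `same`: count the letters `v` modulo 2. `left`: lengths of
`w, s_u w, s_v w, s_u s_v w`. `step`: `w = w' s_u` with `u` a right descent; `u` and `v` are right descents of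
`s_v w = w s_v`, so they are adjacent.
-/

set_option autoImplicit false
set_option linter.unusedSectionVars false

open Finset

namespace Pool.Agent.H65.BU

open Pool.Agent.H73.HVN

open Classical in
/-- every graph has a right-angled Coxeter matrix -/
theorem exists_ra {V : Type} (G : SimpleGraph V) : ∃ M : CoxeterMatrix V, RA G M := by
  refine ⟨⟨Matrix.of fun u v => if u = v then 1 else if G.Adj u v then 2 else 0, ?_, ?_, ?_⟩, ?_⟩
  · ext u v
    simp only [Matrix.transpose_apply, Matrix.of_apply, eq_comm (a := v) (b := u), G.adj_comm v u]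
  · intro u
    simp
  · intro u v h
    simp only [Matrix.of_apply, if_neg h]
    split_ifs <;> decide
  · intro u v h
    refine ⟨fun h1 => ?_, fun h1 => ?_⟩
    · show (if u = v then 1 else if G.Adj u v then 2 else 0 : ℕ) = 2
      rw [if_neg h, if_pos h1]
    · show (if u = v then 1 else if G.Adj u v then 2 else 0 : ℕ) = 0
      rw [if_neg h, if_neg h1]

variable {V W : Type} [Fintype V] [DecidableEq V] [Group W] {M : CoxeterMatrix V}

private theorem mem_fst_cx {cs : CoxeterSystem M W} {w : W} {v : V} : v ∈ fst cs w ↔ cs.IsLeftDescent w v := by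
  classical
  unfold fst
  rw [mem_filter]
  exact ⟨fun h => h.2, fun h => ⟨mem_univ v, h⟩⟩

/-- the parity of the number of letters `v` -/
private theorem exists_par {G : SimpleGraph V} (hM : RA G M) (cs : CoxeterSystem M W) (v : V) :
    ∃ f : W →* Multiplicative (ZMod 2), ∀ u, f (cs.simple u) =
      Multiplicative.ofAdd (if u = v then 1 else 0 : ZMod 2) := by
  have h2 : ∀ x : Multiplicative (ZMod 2), x * x = 1 := by decide
  have hl : M.IsLiftable (fun u => Multiplicative.ofAdd (if u = v then 1 else 0 : ZMod 2)) := by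
    intro i j
    by_cases hij : i = j
    · subst hij
      rw [h2, one_pow]
    · by_cases hadj : G.Adj i j
      · rw [(hM i j hij).1 hadj, pow_two, h2]
      · rw [(hM i j hij).2 hadj, pow_zero]
  exact ⟨cs.lift ⟨_, hl⟩, fun u => cs.lift_apply_simple hl u⟩

/-- the facts on right-angled Coxeter groups -/
theorem facts_of_ra {G : SimpleGraph V} (hM : RA G M) (cs : CoxeterSystem M W) : Facts G cs := by
  have comm : ∀ u v, G.Adj u v → cs.simple u * cs.simple v = cs.simple v * cs.simple u := by
    intro u v h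
    have h1 := cs.simple_mul_simple_pow u v
    rw [(hM u v h.ne).1 h, pow_two] at h1
    have h2 := eq_inv_of_mul_eq_one_left h1
    rwa [mul_inv_rev, cs.inv_simple, cs.inv_simple] at h2
  have adj : ∀ u v, u ≠ v → M u v ≠ 0 → G.Adj u v := by
    intro u v h h1
    by_contra h2
    exact h1 ((hM u v h).2 h2)
  have left1 : ∀ w u v, G.Adj u v → cs.IsLeftDescent w v → cs.IsLeftDescent (cs.simple u * w) v := by
    intro w u v h hv
    by_cases hu : cs.IsLeftDescent w u
    · exact (two_left_descents cs h.ne hu hv).2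
    · by_contra h1
      have e1 := cs.not_isLeftDescent_iff.1 hu
      have e2 := cs.not_isLeftDescent_iff.1 h1
      have e3 := cs.isLeftDescent_iff.1 hv
      have e4 : cs.simple v * (cs.simple u * w) = cs.simple u * (cs.simple v * w) := by
        rw [← mul_assoc, ← comm u v h, mul_assoc]
      rw [e4] at e2
      have e5 := cs.length_simple_mul (cs.simple v * w) u
      omega
  refine ⟨comm, ?_, ?_, ?_, ?_, fun u v h => simple_injective cs h, ?_⟩
  · intro w u hu v hv huv
    exact adj u v huv (two_left_descents cs huv (mem_fst_cx.1 hu) (mem_fst_cx.1 hv)).1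
  · intro w u v hv hv'
    rcases deodhar_left cs (L := {v}) (v := w) (by
      rintro i rfl
      exact fun h => hv (mem_fst_cx.2 h)) u with h | ⟨i, rfl, h⟩
    · exact absurd (mem_fst_cx.1 hv') (h v rfl)
    · exact h.symm
  · intro w u v h
    obtain ⟨f, hf⟩ := exists_par hM cs v
    have h1 := congrArg f h
    rw [map_mul, map_mul, mul_comm, hf, hf, if_pos rfl] at h1
    by_contra hne
    rw [if_neg hne] at h1
    have h2 := mul_left_cancel h1
    exact absurd h2 (by decide)
  · intro w u v h
    rw [mem_fst_cx, mem_fst_cx]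
    refine ⟨fun h1 => ?_, left1 w u v h⟩
    have h2 := left1 (cs.simple u * w) u v h h1
    rwa [cs.simple_mul_simple_cancel_left] at h2
  · intro w v hc hv hw
    obtain ⟨u, hu⟩ := cs.exists_rightDescent_of_ne_one hw
    have hv1 := cs.not_isLeftDescent_iff.1 (fun h => hv (mem_fst_cx.2 h))
    have hu1 := cs.isRightDescent_iff.1 hu
    have huv : u ≠ v := by
      rintro rfl
      rw [← hc] at hu1
      omega
    have hdu : cs.IsRightDescent (w * cs.simple v) u := by
      rw [cs.isRightDescent_iff, ← hc, mul_assoc]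
      have h1 := cs.length_simple_mul (w * cs.simple u) v
      have h2 := cs.length_mul_simple (cs.simple v * w) u
      rw [mul_assoc] at h2
      omega
    have hdv : cs.IsRightDescent (w * cs.simple v) v := by
      rw [cs.isRightDescent_iff, cs.simple_mul_simple_cancel_right, ← hc]
      omega
    have hadj : G.Adj u v := adj u v huv (two_descents cs huv hdu hdv).1
    refine ⟨w * cs.simple u, u, ?_, by omega, hadj, ?_, ?_⟩
    · rw [cs.simple_mul_simple_cancel_right]
    · rw [← mul_assoc, hc, mul_assoc, mul_assoc, comm u v hadj]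
    · intro h
      have h1 := cs.isLeftDescent_iff.1 (mem_fst_cx.1 h)
      have h2 := cs.length_mul_simple (cs.simple v * (w * cs.simple u)) u
      have h3 : cs.simple v * (w * cs.simple u) * cs.simple u = cs.simple v * w := by
        rw [mul_assoc, mul_assoc, cs.simple_mul_simple_self, mul_one]
      rw [h3] at h2
      omega

end Pool.Agent.H65.BU

end

section

/-!
# Project RA: vanishing of the homology from the pairing with the cocycles
-/

set_option autoImplicit false

open Finset

namespace Pool.Agent.H75.Oct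

open Pool.Agent.H65.RA

variable {V : Type} [DecidableEq V] [Fintype V]

/-- the boundary as a linear map -/
private def bdp : (Finset V → ZMod 2) →ₗ[ZMod 2] (Finset V → ZMod 2) where
  toFun y s := ∑ v ∈ sᶜ, y (insert v s)
  map_add' f g := by
    funext s
    simp only [Pi.add_apply, sum_add_distrib]
  map_smul' c f := by
    funext s
    simp only [Pi.smul_apply, RingHom.id_apply, smul_sum]

private theorem bdp_apply (y : Finset V → ZMod 2) (s : Finset V) :
    bdp y s = ∑ v ∈ sᶜ, y (insert v s) := rfl

private theorem bdp_single (s : Finset V) :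
    bdp (Pi.single s (1 : ZMod 2)) = ∑ v ∈ s, Pi.single (s.erase v) (1 : ZMod 2) := by
  classical
  funext t
  rw [bdp_apply, Finset.sum_apply]
  simp only [Pi.single_apply]
  rw [← sum_filter, ← sum_filter, sum_const, sum_const]
  congr 1
  congr 1
  ext v
  simp only [mem_filter, mem_compl]
  constructor
  · rintro ⟨h1, h2⟩
    subst h2
    exact ⟨mem_insert_self v t, (erase_insert h1).symm⟩
  · rintro ⟨h1, h2⟩
    subst h2
    exact ⟨notMem_erase v s, insert_erase h1⟩

/-- the chains on the cliques with `j` vertices -/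
private def chp (G : SimpleGraph V) (j : ℕ) : Submodule (ZMod 2) (Finset V → ZMod 2) where
  carrier := {y | ∀ s, y s ≠ 0 → G.IsClique (s : Set V) ∧ s.card = j}
  zero_mem' := fun s h => absurd rfl h
  add_mem' := by
    intro y z hy hz s h
    by_cases h1 : y s = 0
    · by_cases h2 : z s = 0
      · exact absurd (by rw [Pi.add_apply, h1, h2, add_zero]) h
      · exact hz s h2
    · exact hy s h1
  smul_mem' := by
    intro c y hy s h
    refine hy s fun h1 => h ?_
    rw [Pi.smul_apply, h1, smul_zero]

/-- If all cycles on the cliques with `j` vertices are orthogonal to the cocycles, then they are boundaries. -/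
theorem hz_of_pairing (G : SimpleGraph V) (j : ℕ)
    (h : ∀ x z : Finset V → ZMod 2,
      (∀ s : Finset V, G.IsClique (s : Set V) → s.card = j + 1 → ∑ v ∈ s, x (s.erase v) = 0) →
      (∀ s, z s ≠ 0 → G.IsClique (s : Set V) ∧ s.card = j) →
      (∀ s, ∑ v ∈ sᶜ, z (insert v s) = 0) → ∑ s, x s * z s = 0) : HZ G j := by
  intro z hz hdz
  by_contra hcon
  have hnot : z ∉ (chp G (j + 1)).map bdp := by
    rintro ⟨y, hy, hyz⟩
    exact hcon ⟨y, hy, fun s => by rw [← hyz]; rfl⟩
  obtain ⟨φ, hφ, hker⟩ := Submodule.exists_le_ker_of_notMem hnot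
  refine hφ ?_
  have h1 : ∀ f : Finset V → ZMod 2, φ f = ∑ s, φ (Pi.single s 1) * f s := by
    intro f
    have h2 : f = ∑ s, f s • (Pi.single s (1 : ZMod 2) : Finset V → ZMod 2) := by
      funext t
      rw [Finset.sum_apply, Finset.sum_eq_single t]
      · rw [Pi.smul_apply, Pi.single_eq_same, smul_eq_mul, mul_one]
      · intro s _ hs
        rw [Pi.smul_apply, Pi.single_eq_of_ne (Ne.symm hs), smul_zero]
      · exact fun h => absurd (mem_univ t) h
    conv_lhs => rw [h2]
    rw [map_sum]
    exact sum_congr rfl fun s _ => by rw [map_smul, smul_eq_mul, mul_comm]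
  rw [h1]
  refine h _ z (fun s hs hc => ?_) hz hdz
  rw [← map_sum, ← bdp_single]
  refine hker ⟨_, fun t ht => ?_, rfl⟩
  by_cases hts : t = s
  · subst hts
    exact ⟨hs, hc⟩
  · exact absurd (Pi.single_eq_of_ne hts _) ht

end Pool.Agent.H75.Oct

end

section

/-!
# Project BU: exactness of the reduced chains without any largeness (Lemma A)

`X` a complex vector space with idempotents `P v`, `v ∈ V`, which commute for adjacent vertices. If the complexes of
ALL full subcomplexes are exact in size `i`, then the complex of the families `f σ ∈ ⋂_(v ∈ σ) ker P v` is exact in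
size `i`.

PROOF. Induction on the number of active vertices. If no vertex is active: coefficients in a vector space
(`ex_coeff`). Let `v` be active, `f` a cycle. Without the condition at `v`: `f = bd y`. The family
`a τ = ± P v (y (τ + v))`, `τ` in the link of `v` (a full subcomplex), is a cycle with values in the image of `P v`, so
`a = bd x`; then `y + bd x⁺`, `x⁺ (τ + v) = ± x τ`, satisfies the condition at `v`.
-/

set_option autoImplicit false
set_option linter.unusedSectionVars false

open Finset

namespace Pool.Agent.H65.BU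

open Pool.Agent.H78.RA

section coeff

variable {V : Type} [Fintype V] [DecidableEq V] {X : Type} [AddCommGroup X] [Module ℂ X]

private theorem ler_bd_sum {ι : Type} (ν : V → ℕ) (s : Finset ι) (g : ι → Finset V → X)
    (σ : Finset V) : bd ν (fun τ => ∑ k ∈ s, g k τ) σ = ∑ k ∈ s, bd ν (g k) σ := by
  unfold bd
  rw [Finset.sum_comm]
  refine Finset.sum_congr rfl fun v _ => ?_
  rw [Finset.smul_sum]

/-- exactness with coefficients in a vector space -/
theorem ex_coeff {ν : V → ℕ} {P Q : Finset V → Prop} (h : Ex ℂ ν P Q) (f : Finset V → X)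
    (hf : ∀ σ, f σ ≠ 0 → P σ) (hb : bd ν f = 0) :
    ∃ y : Finset V → X, (∀ σ, y σ ∈ Submodule.span ℂ (Set.range f)) ∧ (∀ σ, y σ ≠ 0 → Q σ) ∧
      bd ν y = f := by
  classical
  set W : Submodule ℂ X := Submodule.span ℂ (Set.range f) with hW
  have : FiniteDimensional ℂ W := FiniteDimensional.span_of_finite ℂ (Set.finite_range f)
  let b := Module.finBasis ℂ W
  let F : Finset V → W := fun σ => ⟨f σ, Submodule.subset_span ⟨σ, rfl⟩⟩
  have hbF : ∀ σ, bd ν F σ = 0 := by
    intro σ
    have h1 := map_bd ν (W.subtype.toAddMonoidHom) F σ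
    have h2 : bd ν (fun τ => W.subtype.toAddMonoidHom (F τ)) σ = bd ν f σ := rfl
    rw [h2, hb] at h1
    exact Subtype.ext h1.symm
  have hk : ∀ k, ∃ y : Finset V → ℂ, (∀ σ, y σ ≠ 0 → Q σ) ∧
      bd ν y = fun σ => b.repr (F σ) k := by
    intro k
    refine h (fun σ => b.repr (F σ) k) (fun σ hσ => hf σ fun h0 => hσ ?_) ?_
    · have h1 : F σ = 0 := Subtype.ext h0
      rw [h1, map_zero]
      rfl
    · funext σ
      let φ : W →+ ℂ := ((Finsupp.lapply k : (_ →₀ ℂ) →ₗ[ℂ] ℂ) ∘ₗ
        (b.repr : W →ₗ[ℂ] _)).toAddMonoidHom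
      have h1 := map_bd ν φ F σ
      rw [hbF σ, map_zero] at h1
      exact h1
  choose y hy1 hy2 using hk
  refine ⟨fun σ => ∑ k, y k σ • (b k : X), fun σ => ?_, fun σ hσ => ?_, ?_⟩
  · exact Submodule.sum_mem _ fun k _ => Submodule.smul_mem _ _ (b k).2
  · obtain ⟨k, _, hk⟩ := Finset.exists_ne_zero_of_sum_ne_zero hσ
    exact hy1 k σ fun h0 => hk (by rw [h0, zero_smul])
  · funext σ
    rw [ler_bd_sum]
    have h1 : ∀ k, bd ν (fun τ => y k τ • (b k : X)) σ = b.repr (F σ) k • (b k : X) := by
      intro k
      let φ : ℂ →+ X := ((LinearMap.toSpanSingleton ℂ X (b k : X))).toAddMonoidHom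
      have h2 := map_bd ν φ (y k) σ
      rw [hy2 k] at h2
      exact h2
    rw [Finset.sum_congr rfl fun k _ => h1 k]
    have h3 := b.sum_repr (F σ)
    have h4 := congrArg (Subtype.val) h3
    rw [Submodule.coe_sum] at h4
    exact h4

end coeff

section signs

variable {V : Type} [Fintype V] [DecidableEq V] {X : Type} [AddCommGroup X] [Module ℂ X]

end signs

section main

variable {V : Type} [Fintype V] [DecidableEq V] {X : Type} [AddCommGroup X] [Module ℂ X]

end main

end Pool.Agent.H65.BU

end

section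

/-!
# Project RA: interlacing in the order by blocks
-/

set_option autoImplicit false
set_option linter.unusedSectionVars false

open Finset

namespace Pool.Agent.H65.RA

open Pool.Agent.H85.VK

variable {V : Type} [DecidableEq V]

/-- the numbering of the vertices of the octahedralisation by blocks -/
def nu (e : V → ℕ) (w : V × Bool) : ℕ := 2 * e w.1 + if w.2 then 1 else 0

theorem nu_inj {e : V → ℕ} (he : Function.Injective e) : Function.Injective (nu e) := by
  rintro ⟨v, b⟩ ⟨u, c⟩ h
  unfold nu at h
  simp only at h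
  have h1 : e v = e u := by
    split_ifs at h <;> omega
  have h2 := he h1
  subst h2
  cases b <;> cases c <;> simp_all

/-- interlacing is invariant under maps which preserve the order -/
theorem inter_image {W : Type} [DecidableEq W] {ν : W → ℕ} {φ : W → W}
    (hφ : Function.Injective φ) {σ τ : Finset W}
    (h : ∀ a ∈ σ ∪ τ, ∀ b ∈ σ ∪ τ, ν (φ a) < ν (φ b) ↔ ν a < ν b) :
    Interlace ν (σ.image φ) (τ.image φ) ↔ Interlace ν σ τ := by
  unfold Interlace
  rw [← image_union]
  constructor
  · intro hI a ha b hb hab hc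
    rw [← hφ.mem_finset_image (s := σ), ← hφ.mem_finset_image (s := τ)]
    refine hI (φ a) (mem_image_of_mem φ ha) (φ b) (mem_image_of_mem φ hb) ((h a ha b hb).2 hab)
      fun z hz => ?_
    rw [mem_image] at hz
    obtain ⟨c, hc', rfl⟩ := hz
    rw [h a ha c hc', h c hc' b hb]
    exact hc c hc'
  · intro hI x hx y hy hxy hc
    rw [mem_image] at hx hy
    obtain ⟨a, ha, rfl⟩ := hx
    obtain ⟨b, hb, rfl⟩ := hy
    rw [hφ.mem_finset_image, hφ.mem_finset_image]
    refine hI a ha b hb ((h a ha b hb).1 hxy) fun c hc' => ?_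
    have h1 := hc (φ c) (mem_image_of_mem φ hc')
    rwa [h a ha c hc', h c hc' b hb] at h1

/-- the change of the sign of `v` -/
def flip (v : V) (w : V × Bool) : V × Bool := if w.1 = v then (w.1, !w.2) else w

theorem flip_fst (v : V) (w : V × Bool) : (flip v w).1 = w.1 := by
  unfold flip
  split_ifs <;> rfl

theorem flip_inj (v : V) : Function.Injective (flip v) := by
  intro w w' h
  have h1 : w.1 = w'.1 := by
    rw [← flip_fst v w, h, flip_fst]
  unfold flip at h
  rw [h1] at h
  by_cases h2 : w'.1 = v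
  · rw [if_pos h2, if_pos h2, Prod.mk.injEq] at h
    exact Prod.ext h1 (by simpa using h.2)
  · rwa [if_neg h2, if_neg h2] at h

theorem flip_sgn (v : V) (σ : Finset V) (b : V → Bool) :
    (sgn σ b).image (flip v) = sgn σ (fun u => if u = v then !(b u) else b u) := by
  unfold sgn
  rw [image_image]
  refine image_congr fun u _ => ?_
  simp only [Function.comp, flip]
  split_ifs <;> rfl

/-- The sign of a vertex which is in only one of the two simplices does not matter. -/
theorem inter_flip {e : V → ℕ} (he : Function.Injective e) {σ τ : Finset V} {v : V}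
    (hv : v ∉ σ ∨ v ∉ τ) (b c : V → Bool) :
    Interlace (nu e) (sgn σ fun u => if u = v then !(b u) else b u)
      (sgn τ fun u => if u = v then !(c u) else c u) ↔
      Interlace (nu e) (sgn σ b) (sgn τ c) := by
  rw [← flip_sgn, ← flip_sgn]
  refine inter_image (flip_inj v) fun a ha a' ha' => ?_
  by_cases h1 : a = a'
  · rw [h1]
    constructor <;> intro h <;> exact absurd h (lt_irrefl _)
  · -- the first coordinates differ if one of them is `v`
    have key : a.1 = v → a'.1 = v → False := by
      intro h2 h3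
      apply h1
      rw [mem_union, mem_sgn, mem_sgn] at ha ha'
      refine Prod.ext (h2.trans h3.symm) ?_
      rcases hv with hv | hv
      · rcases ha with ⟨h4, _⟩ | ⟨_, h4⟩
        · exact absurd (h2 ▸ h4) hv
        · rcases ha' with ⟨h5, _⟩ | ⟨_, h5⟩
          · exact absurd (h3 ▸ h5) hv
          · rw [h4, h5, h2, h3]
      · rcases ha with ⟨_, h4⟩ | ⟨h4, _⟩
        · rcases ha' with ⟨_, h5⟩ | ⟨h5, _⟩
          · rw [h4, h5, h2, h3]
          · exact absurd (h3 ▸ h5) hv
        · exact absurd (h2 ▸ h4) hv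
    by_cases h2 : a.1 = v
    · have h3 : a'.1 ≠ v := fun h => key h2 h
      have h4 : e a.1 ≠ e a'.1 := fun h => h3 (by rw [← he h, h2])
      unfold nu flip
      rw [if_pos h2, if_neg h3]
      simp only
      split_ifs <;> omega
    · by_cases h3 : a'.1 = v
      · have h4 : e a.1 ≠ e a'.1 := fun h => h2 (by rw [he h, h3])
        unfold nu flip
        rw [if_neg h2, if_pos h3]
        simp only
        split_ifs <;> omega
      · unfold flip
        rw [if_neg h2, if_neg h3]

open Classical in
/-- the indicator function of interlacing -/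
noncomputable def iv (e : V → ℕ) (a b : Finset (V × Bool)) : ZMod 2 :=
  if Interlace (nu e) a b then 1 else 0

/-- The pull-back of the function `iv` vanishes on the pairs of different simplices. -/
theorem Ps_inter {G : SimpleGraph V} {e : V → ℕ} (he : Function.Injective e)
    (x : Finset V → ZMod 2) (k : ℕ) {σ τ : Finset V} (hσ : σ.card = k + 1)
    (hτ : τ.card = k + 1) (hne : σ ≠ τ) : Ps G e x k (iv e) σ τ = 0 := by
  unfold Ps
  refine sum_eq_zero fun S hS => ?_
  rw [mem_bet] at hS
  by_cases h : S ⊆ σ ∩ τ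
  · have h1 : S.card ≤ k := by
      have h2 : (σ ∩ τ).card < σ.card := by
        refine card_lt_card (_root_.ssubset_iff_subset_ne.2 ⟨inter_subset_left, fun h3 => hne ?_⟩)
        have h4 : σ ⊆ τ := by
          rw [← h3]
          exact inter_subset_right
        exact eq_of_subset_of_card_le h4 (by omega)
      have := card_le_card h
      omega
    refine sum_eq_zero fun A _ => ?_
    rw [FS_small e x k _ h1, zero_mul]
  · rw [not_subset] at h
    obtain ⟨v, hvS, hv⟩ := h
    have hv' : v ∉ σ ∨ v ∉ τ := by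
      rw [mem_inter] at hv
      tauto
    obtain ⟨S', hvS', rfl⟩ : ∃ S', v ∉ S' ∧ S = insert v S' :=
      ⟨S.erase v, notMem_erase v S, (insert_erase hvS).symm⟩
    rw [sum_powerset_insert hvS', ← sum_add_distrib]
    refine sum_eq_zero fun A hA => ?_
    rw [mem_powerset] at hA
    have hvA : v ∉ A := fun h => hvS' (hA h)
    have h1 : FS e x k (insert v S') (ep σ τ (insert v A)) =
        FS e x k (insert v S') (ep σ τ A) := by
      refine FS_congr e x k fun u _ => ?_
      unfold ep
      simp only [mem_union, mem_inter, mem_sdiff, mem_insert]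
      by_cases huv : u = v
      · subst huv
        tauto
      · tauto
    have h2 : sgn σ (sA (insert v S') (insert v A)) =
        sgn σ (fun u => if u = v then !(sA (insert v S') A u) else sA (insert v S') A u) := by
      refine sgn_congr fun u _ => ?_
      by_cases huv : u = v
      · subst huv
        rw [if_pos rfl]
        unfold sA
        simp [hvA]
      · rw [if_neg huv]
        unfold sA
        rw [decide_eq_decide, mem_insert]
        tauto
    have h3 : sgn τ (sB (insert v A)) =
        sgn τ (fun u => if u = v then !(sB A u) else sB A u) := by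
      refine sgn_congr fun u _ => ?_
      by_cases huv : u = v
      · subst huv
        rw [if_pos rfl]
        unfold sB
        simp [hvA]
      · rw [if_neg huv]
        unfold sB
        rw [decide_eq_decide, mem_insert]
        tauto
    have h4 : iv e (sgn σ (sA (insert v S') (insert v A))) (sgn τ (sB (insert v A))) =
        iv e (sgn σ (sA (insert v S') A)) (sgn τ (sB A)) := by
      unfold iv
      rw [h2, h3, inter_flip he hv']
    rw [h1, h4]
    exact z2_add_self _

/-- antipodal signed simplices interlace if all signs are equal -/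
theorem inter_full (e : V → ℕ) (σ : Finset V) :
    Interlace (nu e) (sgn σ (sA σ σ)) (sgn σ (sB σ)) := by
  have h1 : ∀ w : V × Bool, w ∈ sgn σ (sA σ σ) ↔ w.1 ∈ σ ∧ w.2 = true := by
    intro w
    rw [mem_sgn]
    unfold sA
    constructor
    · rintro ⟨h, h'⟩
      exact ⟨h, by rw [h']; simp [h]⟩
    · rintro ⟨h, h'⟩
      exact ⟨h, by rw [h']; simp [h]⟩
  have h2 : ∀ w : V × Bool, w ∈ sgn σ (sB σ) ↔ w.1 ∈ σ ∧ w.2 = false := by
    intro w
    rw [mem_sgn]
    unfold sB
    constructor
    · rintro ⟨h, h'⟩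
      exact ⟨h, by rw [h']; simp [h]⟩
    · rintro ⟨h, h'⟩
      exact ⟨h, by rw [h']; simp [h]⟩
  have h3 : ∀ w : V × Bool, w.1 ∈ σ → w ∈ sgn σ (sA σ σ) ∪ sgn σ (sB σ) := by
    intro w hw
    rw [mem_union, h1, h2]
    cases h : w.2
    · exact Or.inr ⟨hw, rfl⟩
    · exact Or.inl ⟨hw, rfl⟩
  rintro ⟨v, b⟩ hx ⟨u, c⟩ hy hxy hc
  have hv : v ∈ σ := by
    rw [mem_union, h1, h2] at hx
    rcases hx with h | h <;> exact h.1
  have hu : u ∈ σ := by
    rw [mem_union, h1, h2] at hy
    rcases hy with h | h <;> exact h.1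
  rw [h1, h2]
  simp only [hv, hu, true_and]
  cases b
  · -- the next vertex is `(v, true)`
    cases c
    · exfalso
      refine hc (v, true) (h3 _ hv) ?_
      unfold nu at hxy ⊢
      simp only at hxy ⊢
      have : e v < e u := by
        simp at hxy
        omega
      simp
      omega
    · simp
  · cases c
    · simp
    · exfalso
      refine hc (u, false) (h3 _ hu) ?_
      unfold nu at hxy ⊢
      simp only at hxy ⊢
      simp at hxy ⊢
      omega

/-- if antipodal signed simplices interlace and one sign is positive, then all are positive -/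
theorem inter_only {e : V → ℕ} (he : Function.Injective e) {σ A : Finset V} (hA : A ⊆ σ) {v₀ : V}
    (hv₀ : v₀ ∈ A) (hI : Interlace (nu e) (sgn σ (sA σ A)) (sgn σ (sB A))) : A = σ := by
  have h1 : ∀ w : V × Bool, w ∈ sgn σ (sA σ A) ↔ w.1 ∈ σ ∧ (w.2 = true ↔ w.1 ∈ A) := by
    intro w
    rw [mem_sgn]
    refine and_congr_right fun h => ?_
    unfold sA
    by_cases h' : w.1 ∈ A
    · simp [h']
    · simp [h', h]
  have h2 : ∀ w : V × Bool, w ∈ sgn σ (sB A) ↔ w.1 ∈ σ ∧ (w.2 = false ↔ w.1 ∈ A) := by
    intro w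
    rw [mem_sgn]
    refine and_congr_right fun h => ?_
    unfold sB
    by_cases h' : w.1 ∈ A
    · simp [h']
    · simp [h']
  have h3 : ∀ w : V × Bool, w.1 ∈ σ → w ∈ sgn σ (sA σ A) ∪ sgn σ (sB A) := by
    intro w hw
    rw [mem_union, h1, h2]
    by_cases h' : w.1 ∈ A
    · cases h : w.2
      · exact Or.inr ⟨hw, by simp [h']⟩
      · exact Or.inl ⟨hw, by simp [h']⟩
    · cases h : w.2
      · exact Or.inl ⟨hw, by simp [h']⟩
      · exact Or.inr ⟨hw, by simp [h']⟩
  -- consecutive vertices
  have h4 : ∀ v ∈ σ, ∀ u ∈ σ, e v < e u → (∀ w ∈ σ, ¬ (e v < e w ∧ e w < e u)) →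
      (v ∈ A ↔ u ∈ A) := by
    intro v hv u hu hvu hc
    have h5 := hI (v, true) (h3 _ hv) (u, false) (h3 _ hu) (by
      unfold nu
      simp
      omega) (by
      rintro ⟨w, b⟩ hw ⟨h6, h7⟩
      have hwσ : w ∈ σ := by
        rw [mem_union, h1, h2] at hw
        rcases hw with h | h <;> exact h.1
      have h8 := hc w hwσ
      unfold nu at h6 h7
      simp only at h6 h7
      cases b
      · simp at h6 h7
        omega
      · simp at h6 h7
        omega)
    rw [h1, h2] at h5
    simpa [hv, hu] using h5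
  -- all vertices
  have hne : σ.Nonempty := ⟨v₀, hA hv₀⟩
  obtain ⟨m, hm, hmin⟩ := exists_min_image σ e hne
  have h5 : ∀ n : ℕ, ∀ v ∈ σ, e v = n → (m ∈ A ↔ v ∈ A) := by
    intro n
    induction n using Nat.strong_induction_on with
    | _ n ih =>
      intro v hv hn
      by_cases hvm : v = m
      · rw [hvm]
      · have h6 : (σ.filter fun u => e u < e v).Nonempty := by
          refine ⟨m, mem_filter.2 ⟨hm, lt_of_le_of_ne (hmin v hv) fun h => hvm (he h).symm⟩⟩
        obtain ⟨u, hu, hmax⟩ := exists_max_image _ e h6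
        rw [mem_filter] at hu
        rw [ih (e u) (by omega) u hu.1 rfl]
        refine h4 u hu.1 v hv hu.2 fun w hw hc => ?_
        have := hmax w (mem_filter.2 ⟨hw, hc.2⟩)
        omega
  refine Subset.antisymm hA fun v hv => ?_
  exact (h5 _ v hv rfl).1 ((h5 _ v₀ (hA hv₀) rfl).2 hv₀)

end Pool.Agent.H65.RA

end

section

/-!
# Project BU: the value of the alternating function

PROOF of `KK_AA`: only `q = (1, 1)` (there `pr = 0`, `FH 1 s = s`). PROOF of `pair_ev`: `z s z t Ps (s, t) (eP)` summed over
all `(s, t)`: the pairs `(s, t)`, `(t, s)`, `s ≠ t`: `Ps_swap`, `eP_add_swap` (`eP ν a b + eP ν b a = [Interlace ν a b]` for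
disjoint `a`, `b`), `Ps_inter` (= 0): so the function is symmetric off the diagonal, `sum_sym` gives the diagonal:
`Ps_self`: `x s * ∑_A eP (sgn s (sA s A)) (sgn s (sB A))`; pair `A` with `s \ A`: interlacing only for `A = s`, `∅`
(`inter_full`, `inter_only`), so the sum is 1 (see `QQ_diag` in RA/End).
-/

set_option autoImplicit false
set_option linter.unusedSectionVars false

open Finset

namespace Pool.Agent.H65.BU

open Pool.Agent.H65.RA Pool.Agent.H85.VK

variable {V W A : Type} [Fintype V] [DecidableEq V] [Group W] [Group A] {M : CoxeterMatrix V}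
  {G : SimpleGraph V} {cs : CoxeterSystem M W} {p : V × Bool → A} {pr : W → V → ZMod 2}
  {g : (V → Bool) → W → A} {e : V → ℕ} {x : Finset V → ZMod 2} {k : ℕ}

/-- the sum of `eP` over the antipodal signings -/
theorem sum_eP (he : Function.Injective e) {σ : Finset V} (hσ : σ.Nonempty) :
    ∑ A ∈ σ.powerset, eP (nu e) (sgn σ (sA σ A)) (sgn σ (sB A)) = 1 := by
  classical
  obtain ⟨v₀, hv₀⟩ := hσ
  obtain ⟨σ', hv', rfl⟩ : ∃ σ', v₀ ∉ σ' ∧ σ = insert v₀ σ' :=
    ⟨σ.erase v₀, notMem_erase v₀ σ, (insert_erase hv₀).symm⟩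
  rw [sum_powerset_insert hv']
  have h3 : ∑ A ∈ σ'.powerset, eP (nu e) (sgn (insert v₀ σ') (sA (insert v₀ σ') A))
      (sgn (insert v₀ σ') (sB A)) = ∑ A ∈ σ'.powerset, eP (nu e)
        (sgn (insert v₀ σ') (sB (insert v₀ A)))
        (sgn (insert v₀ σ') (sA (insert v₀ σ') (insert v₀ A))) := by
    refine sum_nbij' (fun A => σ' \ A) (fun A => σ' \ A) ?_ ?_ ?_ ?_ ?_
    · intro A _
      exact mem_powerset.2 sdiff_subset
    · intro A _
      exact mem_powerset.2 sdiff_subset
    · intro A hA
      exact Finset.sdiff_sdiff_eq_self (mem_powerset.1 hA)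
    · intro A hA
      exact Finset.sdiff_sdiff_eq_self (mem_powerset.1 hA)
    · intro A hA
      rw [mem_powerset] at hA
      have h4 : sgn (insert v₀ σ') (sA (insert v₀ σ') (insert v₀ (σ' \ A))) =
          sgn (insert v₀ σ') (sB A) := by
        refine sgn_congr fun u hu => ?_
        unfold sA sB
        rw [decide_eq_decide, mem_insert, mem_sdiff]
        have h5 := @hA u
        have h6 : v₀ ∉ A := fun h => hv' (hA h)
        rw [mem_insert] at hu
        by_cases huv : u = v₀
        · subst huv
          simp [h6]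
        · have hu' : u ∈ σ' := by tauto
          simp [huv, hu']
      have h5 : sgn (insert v₀ σ') (sB (insert v₀ (σ' \ A))) =
          sgn (insert v₀ σ') (sA (insert v₀ σ') A) := by
        refine sgn_congr fun u hu => ?_
        unfold sA sB
        rw [decide_eq_decide, mem_insert, mem_sdiff]
        have h6 : v₀ ∉ A := fun h => hv' (hA h)
        by_cases huv : u = v₀
        · subst huv
          simp [h6]
        · rw [mem_insert] at hu
          have hu' : u ∈ σ' := by tauto
          simp [huv, hu']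
      rw [h4, h5]
  rw [h3, ← sum_add_distrib]
  have h4 : ∀ A ∈ σ'.powerset, eP (nu e) (sgn (insert v₀ σ') (sB (insert v₀ A)))
        (sgn (insert v₀ σ') (sA (insert v₀ σ') (insert v₀ A))) + eP (nu e)
        (sgn (insert v₀ σ') (sA (insert v₀ σ') (insert v₀ A)))
        (sgn (insert v₀ σ') (sB (insert v₀ A))) = iv e
        (sgn (insert v₀ σ') (sA (insert v₀ σ') (insert v₀ A)))
        (sgn (insert v₀ σ') (sB (insert v₀ A))) := by
    intro A _
    rw [add_comm, eP_add_swap (nu_inj he) (sgn_disjoint (by rw [inter_self]))]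
    · unfold iv
      rfl
    · refine ⟨(v₀, sA (insert v₀ σ') (insert v₀ A) v₀), mem_union_left _ ?_⟩
      rw [mem_sgn]
      exact ⟨mem_insert_self v₀ σ', rfl⟩
  rw [sum_congr rfl h4, sum_eq_single σ']
  · unfold iv
    rw [if_pos (inter_full e _)]
  · intro A hA hne'
    rw [mem_powerset] at hA
    unfold iv
    rw [if_neg]
    intro hI
    have h5 := inter_only he (insert_subset_insert v₀ hA) (mem_insert_self v₀ A) hI
    apply hne'
    have h6 : v₀ ∉ A := fun h => hv' (hA h)
    rw [← erase_insert h6, h5, erase_insert hv']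
  · intro h
    exact absurd (mem_powerset_self σ') h

theorem pair_ev (he : Function.Injective e)
    (hx : ∀ D : Finset V, G.IsClique (D : Set V) → D.card = k + 2 → ∑ v ∈ D, x (D.erase v) = 0)
    (z : Finset V → ZMod 2) (hz : ∀ s, z s ≠ 0 → G.IsClique (s : Set V) ∧ s.card = k + 1) :
    ∑ s : Finset V, ∑ t : Finset V, z s * z t * Ps G e x k (eP (nu e)) s t = ∑ s, x s * z s := by
  classical
  rw [sum_sym univ (fun s t => z s * z t * Ps G e x k (eP (nu e)) s t)]
  · refine sum_congr rfl fun s _ => ?_
    by_cases h3 : z s = 0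
    · rw [h3]
      ring
    · obtain ⟨h4, h5⟩ := hz s h3
      rw [Ps_self h4 h5, sum_eP he (card_pos.1 (by omega)), mul_one]
      have h6 : ∀ a b : ZMod 2, b * b * a = a * b := by decide
      exact h6 _ _
  · intro s _ t _ hne
    by_cases h3 : z s = 0
    · rw [h3]
      ring
    · by_cases h4 : z t = 0
      · rw [h4]
        ring
      · obtain ⟨h5, h6⟩ := hz s h3
        obtain ⟨h7, h8⟩ := hz t h4
        have h9 : Ps G e x k (eP (nu e)) s t + Ps G e x k (eP (nu e)) t s = 0 := by
          rw [Ps_swap e x k he hx (eP (nu e)) t s, ← Ps_inter he x k h6 h8 hne]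
          unfold Ps
          rw [← sum_add_distrib]
          refine sum_congr rfl fun S hS => ?_
          rw [← sum_add_distrib]
          refine sum_congr rfl fun A _ => ?_
          rw [mem_bet] at hS
          rw [← mul_add, eP_add_swap (nu_inj he) (sgn_disjoint hS.2.1)]
          · unfold iv
            rfl
          · have h10 : s.Nonempty := card_pos.1 (by omega)
            obtain ⟨v, hv⟩ := h10
            refine ⟨(v, sA S A v), mem_union_left _ ?_⟩
            rw [mem_sgn]
            exact ⟨hv, rfl⟩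
        have h10 := zmod2_eq_of_add h9
        rw [h10]
        ring

end Pool.Agent.H65.BU

end

section

/-!
# Project AA: chains modulo two: cones, simplicial maps
-/

set_option autoImplicit false

open Finset

namespace Pool.Agent.H93.AA

section Gen

variable {V U : Type} [Fintype V] [DecidableEq V] [Fintype U] [DecidableEq U]

/-- the boundary -/
def bd2 (f : Finset V → ZMod 2) (s : Finset V) : ZMod 2 := ∑ v ∈ sᶜ, f (insert v s)

omit [Fintype V] in
/-- the coboundary -/
def cob2 (x : Finset V → ZMod 2) (s : Finset V) : ZMod 2 := ∑ v ∈ s, x (s.erase v)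

omit [Fintype V] in
/-- the cone with apex `a` -/
def cone2 (a : V) (f : Finset V → ZMod 2) (s : Finset V) : ZMod 2 :=
  if a ∈ s then f (s.erase a) else 0

open Classical in
/-- pull-back of cochains -/
noncomputable def pb2 (p : V → U) (x : Finset U → ZMod 2) (s : Finset V) : ZMod 2 :=
  if Set.InjOn p (s : Set V) then x (s.image p) else 0

/-- push-forward of chains -/
noncomputable def pf2 (p : V → U) (f : Finset V → ZMod 2) (t : Finset U) : ZMod 2 :=
  ∑ s, pb2 p (Pi.single t 1) s * f s

theorem bd_cone (a : V) (f : Finset V → ZMod 2) (s : Finset V) :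
    bd2 (cone2 a f) s + cone2 a (bd2 f) s = f s := by
  unfold bd2 cone2
  by_cases ha : a ∈ s
  · rw [if_pos ha]
    beta_reduce
    have h1 : (s.erase a)ᶜ = insert a sᶜ := by
      ext x
      simp only [mem_compl, mem_erase, mem_insert, not_and_or, not_not]
    rw [h1, sum_insert (by simpa using ha), insert_erase ha]
    have h2 : ∀ v ∈ sᶜ, (if a ∈ insert v s then f ((insert v s).erase a) else 0)
        = f (insert v (s.erase a)) := by
      intro v hv
      have hva : v ≠ a := by
        rintro rfl
        exact (mem_compl.1 hv) ha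
      rw [if_pos (mem_insert_of_mem ha), erase_insert_of_ne hva]
    rw [sum_congr rfl h2, add_comm (f s), ← add_assoc, CharTwo.add_self_eq_zero, zero_add]
  · rw [if_neg ha, add_zero, sum_eq_single a]
    · rw [if_pos (mem_insert_self a s), erase_insert ha]
    · intro v _ hva
      rw [if_neg]
      intro h
      rcases mem_insert.1 h with h | h
      · exact hva h.symm
      · exact ha h
    · intro h
      exact absurd (mem_compl.2 ha) h

theorem bd_sum2 {ι : Type} (A : Finset ι) (f : ι → Finset V → ZMod 2) :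
    bd2 (∑ i ∈ A, f i) = ∑ i ∈ A, bd2 (f i) := by
  classical
  funext s
  simp only [bd2, Finset.sum_apply]
  rw [sum_comm]

theorem bd_smul2 (c : ZMod 2) (f : Finset V → ZMod 2) : bd2 (c • f) = c • bd2 f := by
  funext s
  simp [bd2, mul_sum]

theorem cone_zero2 (a : V) : cone2 a (0 : Finset V → ZMod 2) = 0 := by
  funext s
  simp [cone2]

theorem pair_bd2 (x f : Finset V → ZMod 2) : ∑ s, x s * bd2 f s = ∑ s, cob2 x s * f s := by
  have h1 : ∀ s : Finset V, x s * bd2 f s = ∑ v, if v ∉ s then x s * f (insert v s) else 0 := by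
    intro s
    unfold bd2
    rw [mul_sum, ← sum_filter]
    refine sum_congr ?_ fun _ _ => rfl
    ext v
    simp
  have h2 : ∀ s : Finset V, cob2 x s * f s = ∑ v, if v ∈ s then x (s.erase v) * f s else 0 := by
    intro s
    unfold cob2
    rw [sum_mul, ← sum_filter]
    refine sum_congr ?_ fun _ _ => rfl
    ext v
    simp
  simp_rw [h1, h2]
  rw [sum_comm, sum_comm (s := (univ : Finset (Finset V))) (t := (univ : Finset V))]
  refine sum_congr rfl fun v _ => ?_
  rw [← sum_filter, ← sum_filter]
  refine sum_bij' (fun s _ => insert v s) (fun s _ => s.erase v) ?_ ?_ ?_ ?_ ?_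
  · intro s _
    simp
  · intro s _
    simp
  · intro s hs
    exact erase_insert (mem_filter.1 hs).2
  · intro s hs
    exact insert_erase (mem_filter.1 hs).2
  · intro s hs
    rw [erase_insert (mem_filter.1 hs).2]

theorem cob_pb2 (p : V → U) (x : Finset U → ZMod 2) : cob2 (pb2 p x) = pb2 p (cob2 x) := by
  classical
  funext s
  unfold cob2 pb2
  by_cases hs : Set.InjOn p (s : Set V)
  · rw [if_pos hs]
    beta_reduce
    rw [sum_image fun a ha b hb h => hs ha hb h]
    refine sum_congr rfl fun v hv => ?_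
    rw [if_pos (hs.mono (by simp))]
    congr 1
    ext u
    simp only [mem_image, mem_erase]
    constructor
    · rintro ⟨a, ⟨h1, h2⟩, rfl⟩
      exact ⟨fun h => h1 (hs h2 hv h), a, h2, rfl⟩
    · rintro ⟨h1, a, h2, rfl⟩
      exact ⟨a, ⟨fun h => h1 (by rw [h]), h2⟩, rfl⟩
  · rw [if_neg hs]
    obtain ⟨a, ha, b, hb, hab, hne⟩ : ∃ a ∈ s, ∃ b ∈ s, p a = p b ∧ a ≠ b := by
      by_contra hc
      push Not at hc
      exact hs fun a ha b hb h => hc a ha b hb h
    have h1 : ∀ v ∈ s, v ≠ a → v ≠ b →
        (if Set.InjOn p ((s.erase v : Finset V) : Set V) then x ((s.erase v).image p) else 0)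
          = 0 := by
      intro v _ hva hvb
      rw [if_neg]
      intro h
      exact hne (h (by simp [ha, hva.symm]) (by simp [hb, hvb.symm]) hab)
    have himg : ∀ c d : V, c ∈ s → d ∈ s → p c = p d → c ≠ d → (s.erase c).image p = s.image p := by
      intro c d hc hd hcd hcne
      apply Subset.antisymm (image_subset_image (erase_subset _ _))
      intro u hu
      obtain ⟨e, he, rfl⟩ := mem_image.1 hu
      by_cases hec : e = c
      · subst hec
        exact mem_image.2 ⟨d, mem_erase.2 ⟨hcne.symm, hd⟩, hcd.symm⟩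
      · exact mem_image.2 ⟨e, mem_erase.2 ⟨hec, he⟩, rfl⟩
    have hinj : ∀ c d : V, c ∈ s → d ∈ s → p c = p d → c ≠ d →
        Set.InjOn p ((s.erase c : Finset V) : Set V) →
          Set.InjOn p ((s.erase d : Finset V) : Set V) := by
      intro c d hc hd hcd hcne h
      have key : ∀ u ∈ s, u ≠ d → ∀ v ∈ s, v ≠ d → p u = p v → u = v := by
        intro u hu hud v hv hvd huv
        by_cases huc : u = c
        · by_cases hvc : v = c
          · rw [huc, hvc]
          · exfalso
            apply hvd
            exact h (by simp [hvc, hv]) (by simp [hcne.symm, hd]) (by rw [← huv, huc, hcd])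
        · by_cases hvc : v = c
          · exfalso
            apply hud
            exact h (by simp [huc, hu]) (by simp [hcne.symm, hd]) (by rw [huv, hvc, hcd])
          · exact h (by simp [huc, hu]) (by simp [hvc, hv]) huv
      intro u hu v hv huv
      have hu' := mem_erase.1 (mem_coe.1 hu)
      have hv' := mem_erase.1 (mem_coe.1 hv)
      exact key u hu'.2 hu'.1 v hv'.2 hv'.1 huv
    rw [← sum_subset (show ({a, b} : Finset V) ⊆ s by
      intro c hc
      rcases mem_insert.1 hc with rfl | hc
      · exact ha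
      · rw [mem_singleton.1 hc]; exact hb)]
    · rw [sum_pair hne, himg a b ha hb hab hne, himg b a hb ha hab.symm hne.symm]
      by_cases h : Set.InjOn p ((s.erase a : Finset V) : Set V)
      · rw [if_pos h, if_pos (hinj a b ha hb hab hne h), CharTwo.add_self_eq_zero]
      · rw [if_neg h, if_neg fun h' => h (hinj b a hb ha hab.symm hne.symm h'), add_zero]
    · intro v hv hv'
      rw [mem_insert, mem_singleton, not_or] at hv'
      exact h1 v hv hv'.1 hv'.2

theorem pair_pf2 (p : V → U) (x : Finset U → ZMod 2) (f : Finset V → ZMod 2) :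
    ∑ t, x t * pf2 p f t = ∑ s, pb2 p x s * f s := by
  classical
  unfold pf2
  simp_rw [mul_sum]
  rw [sum_comm]
  refine sum_congr rfl fun s _ => ?_
  unfold pb2
  by_cases h : Set.InjOn p (s : Set V)
  · simp_rw [if_pos h]
    rw [sum_eq_single (s.image p)]
    · rw [Pi.single_eq_same, one_mul]
    · intro t _ ht
      rw [Pi.single_eq_of_ne (Ne.symm ht), zero_mul, mul_zero]
    · intro h'
      exact absurd (mem_univ _) h'
  · simp_rw [if_neg h]
    simp

theorem ext_pair2 {f g : Finset U → ZMod 2} (h : ∀ x : Finset U → ZMod 2,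
    ∑ t, x t * f t = ∑ t, x t * g t) : f = g := by
  funext t
  have h1 := h (Pi.single t 1)
  have h2 : ∀ k : Finset U → ZMod 2, ∑ u, (Pi.single t 1 : Finset U → ZMod 2) u * k u = k t := by
    intro k
    rw [sum_eq_single t]
    · rw [Pi.single_eq_same, one_mul]
    · intro u _ hu
      rw [Pi.single_eq_of_ne hu, zero_mul]
    · intro h'
      exact absurd (mem_univ _) h'
  rw [h2, h2] at h1
  exact h1

theorem pf_bd2 (p : V → U) (f : Finset V → ZMod 2) : pf2 p (bd2 f) = bd2 (pf2 p f) := by
  apply ext_pair2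
  intro x
  rw [pair_pf2, pair_bd2, cob_pb2, pair_bd2, pair_pf2]

/-- a simplicial map and cones -/
theorem pair_cone2 (p : V → U) (c : V) (x : Finset U → ZMod 2) (f : Finset V → ZMod 2) :
    ∑ s, pb2 p x s * cone2 c f s =
      ∑ s, pb2 p (fun t => if p c ∈ t then 0 else x (insert (p c) t)) s * f s := by
  classical
  have h1 : ∀ s : Finset V, pb2 p x s * cone2 c f s
      = if c ∈ s then pb2 p x s * f (s.erase c) else 0 := by
    intro s
    unfold cone2
    split_ifs <;> simp
  have h2 : ∀ s : Finset V, pb2 p (fun t => if p c ∈ t then 0 else x (insert (p c) t)) s * f s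
      = if c ∉ s then pb2 p x (insert c s) * f s else 0 := by
    intro s
    unfold pb2
    by_cases hc : c ∈ s
    · rw [if_neg (not_not.2 hc)]
      by_cases h : Set.InjOn p (s : Set V)
      · rw [if_pos h]
        beta_reduce
        rw [if_pos (mem_image_of_mem p hc), zero_mul]
      · rw [if_neg h, zero_mul]
    · rw [if_pos hc]
      congr 1
      by_cases h : Set.InjOn p (s : Set V)
      · rw [if_pos h]
        beta_reduce
        by_cases hp : p c ∈ s.image p
        · rw [if_pos hp, if_neg]
          intro h'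
          obtain ⟨a, ha, hpa⟩ := mem_image.1 hp
          have := h' (by simpa using Or.inr ha) (by simp) hpa
          exact hc (this ▸ ha)
        · rw [if_neg hp, if_pos, image_insert]
          rw [coe_insert, Set.injOn_insert (by simpa using hc)]
          exact ⟨h, by simpa using hp⟩
      · rw [if_neg h, if_neg]
        intro h'
        exact h (h'.mono (by simp))
  simp_rw [h1, h2]
  rw [← sum_filter, ← sum_filter]
  refine sum_bij' (fun s _ => s.erase c) (fun s _ => insert c s) ?_ ?_ ?_ ?_ ?_
  · intro s _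
    simp
  · intro s _
    simp
  · intro s hs
    exact insert_erase (mem_filter.1 hs).2
  · intro s hs
    exact erase_insert (mem_filter.1 hs).2
  · intro s hs
    rw [insert_erase (mem_filter.1 hs).2]

end Gen

end Pool.Agent.H93.AA

end
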