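import Pool.Agent.H71.TSG.M55
import Pool.Agent.H71.TSG.M76

/-! The parts of this file: H65.BU.Persist, H65.AB.LemB, H65.AB.LemC, H3.MX.Theta, H65.AB.SepU, H65.AB.ExNb, H93.AB.Cx, H93.AB.Tri. -/

section

/-!
# Project BU: persistent first letters

PROOF (helper93, note 4004 (2)): for `w ≠ 1` write `w = π w₁`, `π` = product of the (commuting) letters of `F(w)`;
`u ∉ F(w)` for `u ∈ F(w₁)` and `ℓ(w) = |F(w)| + ℓ(w₁)` (by `left` the others stay descents). If
`u ∈ F(w₁ y)` for all `ℓ(y) ≤ N`, then `u ∉ F(w)`, so some `v ∈ F(w)` has `v ≠ u`, `v` not adjacent to `u` (else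
`left` gives `u ∈ F(w)`), and `v ∈ F(w y)` for all `ℓ(y) ≤ N + 1`:
(a) `ℓ(y) ≤ N`: `z = w₁ y` has `u ∈ F(z)`; `v ∈ F(π' z)`, `π' = s_v π`, would give `v ∈ F(z)` by `left`,
so `v` adjacent to `u` (`clique`), absurd; so `v ∈ F(s_v π' z) = F(w y)`.
(b) `y = y' s_r`, `ℓ(y') = N`: if `v ∈ F(x)`, `v ∉ F(x s_r)`, `x = w y'`, `exch` gives `s_v x = x s_r`, `r = v`
(`same`), so `s_v` commutes with `x` and with `z = w₁ y'`, `u ∈ F(z)`, `v ∉ F(z)`: then `u` is adjacent to `v`
(`u ∈ F(z s_v) = F(s_v z) ∋ v`: clique; `u ∉ F(z s_v)`: exch, same give `u = v`). Absurd.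
So the exceptional sets satisfy `X_0 = {1}`, `X_(N+1) ⊆ {w : w₁ ∈ X_N}`: finite.
-/

set_option autoImplicit false

open Finset

namespace Pool.Agent.H65.BU

set_option linter.unusedSectionVars false

variable {V W : Type} [Fintype V] [DecidableEq V] [Group W] {M : CoxeterMatrix V}

private theorem mem_fst_ps {cs : CoxeterSystem M W} {w : W} {v : V} :
    v ∈ fst cs w ↔ cs.IsLeftDescent w v := by
  unfold fst
  simp

/-- the product of the letters of a list -/
private def pl (cs : CoxeterSystem M W) (l : List V) : W := (l.map cs.simple).prod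

private theorem pl_left {G : SimpleGraph V} {cs : CoxeterSystem M W} (hF : Facts G cs) {u : V}
    (z : W) : ∀ l : List V, (∀ v ∈ l, G.Adj v u) → (u ∈ fst cs (pl cs l * z) ↔ u ∈ fst cs z) := by
  intro l
  induction l with
  | nil => intro _; simp [pl]
  | cons a l ih =>
    intro h
    have h1 : pl cs (a :: l) * z = cs.simple a * (pl cs l * z) := by
      simp [pl, mul_assoc]
    rw [h1, hF.left _ a u (h a (by simp)), ih fun v hv => h v (by simp [hv])]

private theorem pl_comm {G : SimpleGraph V} {cs : CoxeterSystem M W} (hF : Facts G cs) {u : V} :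
    ∀ l : List V, (∀ v ∈ l, G.Adj v u) → cs.simple u * pl cs l = pl cs l * cs.simple u := by
  intro l
  induction l with
  | nil => intro _; simp [pl]
  | cons a l ih =>
    intro h
    have h1 : pl cs (a :: l) = cs.simple a * pl cs l := by simp [pl]
    rw [h1, ← mul_assoc, ← hF.comm a u (h a (by simp)), mul_assoc,
      ih fun v hv => h v (by simp [hv]), mul_assoc]

/-- splitting off a first letter -/
private theorem pl_split {G : SimpleGraph V} {cs : CoxeterSystem M W} (hF : Facts G cs) (w : W)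
    {v : V} (hv : v ∈ fst cs w) : ∃ l : List V, (∀ a ∈ l, G.Adj a v) ∧
      pl cs (fst cs w).toList = cs.simple v * pl cs l := by
  refine ⟨(fst cs w).toList.erase v, fun a ha => ?_, ?_⟩
  · have h1 : a ∈ (fst cs w).toList := List.mem_of_mem_erase ha
    have h2 : a ≠ v := by
      rintro rfl
      exact ((fst cs w).nodup_toList.not_mem_erase) ha
    exact hF.clique w (by simpa using h1) (by simpa using hv) h2
  · have h1 : (fst cs w).toList.Perm (v :: (fst cs w).toList.erase v) :=
      List.perm_cons_erase (by simpa using hv)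
    have h2 : ((fst cs w).toList.map cs.simple).Pairwise Commute := by
      rw [List.pairwise_map]
      refine (fst cs w).nodup_toList.pairwise_of_forall_ne fun a ha b hb hab => ?_
      exact hF.comm a b (hF.clique w (by simpa using ha) (by simpa using hb) hab)
    have h3 := List.Perm.prod_eq' (h1.map cs.simple) h2
    unfold pl
    rw [h3, List.map_cons, List.prod_cons]

private theorem fst_flip {cs : CoxeterSystem M W} {v : V} {x : W} (h : v ∉ fst cs x) :
    v ∈ fst cs (cs.simple v * x) := by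
  rw [mem_fst_ps] at h ⊢
  rw [cs.isLeftDescent_iff_not_isLeftDescent_mul, cs.simple_mul_simple_cancel_left]
  exact h

private theorem fst_flip' {cs : CoxeterSystem M W} {v : V} {x : W} (h : v ∈ fst cs x) :
    v ∉ fst cs (cs.simple v * x) := by
  rw [mem_fst_ps] at h ⊢
  rwa [cs.isLeftDescent_iff_not_isLeftDescent_mul] at h

/-- the step -/
private theorem persist_step {G : SimpleGraph V} {cs : CoxeterSystem M W} (hF : Facts G cs) (N : ℕ)
    {w w₁ : W} (hw : w = pl cs (fst cs w).toList * w₁) {u : V} (hu : u ∈ fst cs w₁)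
    (hN : ∀ y, cs.length y ≤ N → u ∈ fst cs (w₁ * y)) :
    ∃ v ∈ fst cs w, ∀ y, cs.length y ≤ N + 1 → v ∈ fst cs (w * y) := by
  have h1 : u ∉ fst cs w := by
    intro h
    obtain ⟨l, hl1, hl2⟩ := pl_split hF w h
    have h2 : cs.simple u * w = pl cs l * w₁ := by
      conv_lhs => rw [hw, hl2]
      rw [mul_assoc, cs.simple_mul_simple_cancel_left]
    have h3 := fst_flip' h
    rw [h2, pl_left hF w₁ l hl1] at h3
    exact h3 hu
  have h2 : ∃ v ∈ fst cs w, ¬ G.Adj v u := by
    by_contra hcon
    push Not at hcon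
    refine h1 ?_
    rw [hw, pl_left hF w₁ _ fun v hv => hcon v (by simpa using hv)]
    exact hu
  obtain ⟨v, hv, hvu⟩ := h2
  have hne : v ≠ u := by
    rintro rfl
    exact h1 hv
  obtain ⟨l, hl1, hl2⟩ := pl_split hF w hv
  have hnot : ∀ z, u ∈ fst cs z → v ∉ fst cs z := fun z h3 h4 => hvu (hF.clique z h4 h3 hne)
  have ha : ∀ y, cs.length y ≤ N → v ∈ fst cs (w * y) := by
    intro y hy
    have h3 : w * y = cs.simple v * (pl cs l * (w₁ * y)) := by
      conv_lhs => rw [hw, hl2]
      simp only [mul_assoc]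
    rw [h3]
    refine fst_flip ?_
    rw [pl_left hF _ l hl1]
    exact hnot _ (hN y hy)
  refine ⟨v, hv, fun y hy => ?_⟩
  rcases Nat.lt_or_ge (cs.length y) (N + 1) with h3 | h3
  · exact ha y (by omega)
  · have hy1 : y ≠ 1 := by
      rintro rfl
      rw [cs.length_one] at h3
      omega
    obtain ⟨r, hr⟩ := cs.exists_rightDescent_of_ne_one hy1
    obtain ⟨y', hyy, hy2⟩ : ∃ y', y = y' * cs.simple r ∧ cs.length y' ≤ N := by
      refine ⟨y * cs.simple r, (cs.simple_mul_simple_cancel_right r).symm, ?_⟩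
      have h4 : cs.length (y * cs.simple r) < cs.length y := hr
      omega
    by_contra hcon
    have h5 : w * y = w * y' * cs.simple r := by rw [hyy, mul_assoc]
    have h6 : v ∈ fst cs (w * y * cs.simple r) := by
      rw [h5, cs.simple_mul_simple_cancel_right]
      exact ha y' hy2
    have h7 := hF.exch _ _ _ hcon h6
    have h8 : cs.simple v * (w * y') = w * y' * cs.simple r := by
      rw [h5] at h7
      rw [cs.simple_mul_simple_cancel_right] at h7
      rw [← mul_assoc] at h7
      calc cs.simple v * (w * y') = cs.simple v * (w * y') * cs.simple r * cs.simple r := by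
            rw [cs.simple_mul_simple_cancel_right]
        _ = w * y' * cs.simple r := by rw [h7]
    have h9 := hF.same _ _ _ h8
    subst h9
    have hcomm : cs.simple r * (w₁ * y') = w₁ * y' * cs.simple r := by
      have h10 : w * y' = cs.simple r * (pl cs l * (w₁ * y')) := by
        conv_lhs => rw [hw, hl2]
        simp only [mul_assoc]
      rw [h10] at h8
      have h11 := pl_comm hF l hl1
      have h12 : cs.simple r * pl cs l * (cs.simple r * (w₁ * y')) =
          cs.simple r * pl cs l * (w₁ * y' * cs.simple r) := by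
        calc cs.simple r * pl cs l * (cs.simple r * (w₁ * y'))
            = cs.simple r * (pl cs l * cs.simple r) * (w₁ * y') := by simp only [mul_assoc]
          _ = cs.simple r * (cs.simple r * pl cs l) * (w₁ * y') := by rw [h11]
          _ = cs.simple r * (cs.simple r * (pl cs l * (w₁ * y'))) := by simp only [mul_assoc]
          _ = cs.simple r * (pl cs l * (w₁ * y')) * cs.simple r := h8
          _ = cs.simple r * pl cs l * (w₁ * y' * cs.simple r) := by simp only [mul_assoc]
      exact mul_left_cancel h12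
    have huz := hN y' hy2
    have hrz := hnot _ huz
    have h13 : r ∈ fst cs (w₁ * y' * cs.simple r) := by
      rw [← hcomm]
      exact fst_flip hrz
    by_cases h14 : u ∈ fst cs (w₁ * y' * cs.simple r)
    · exact hnot _ h14 h13
    · have h15 : u ∈ fst cs (w₁ * y' * cs.simple r * cs.simple r) := by
        rw [cs.simple_mul_simple_cancel_right]
        exact huz
      have h16 := hF.exch _ _ _ h14 h15
      have h17 : cs.simple u * (w₁ * y') = w₁ * y' * cs.simple r := by
        rw [cs.simple_mul_simple_cancel_right, ← mul_assoc] at h16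
        calc cs.simple u * (w₁ * y')
            = cs.simple u * (w₁ * y') * cs.simple r * cs.simple r := by
              rw [cs.simple_mul_simple_cancel_right]
          _ = w₁ * y' * cs.simple r := by rw [h16]
      exact hne (hF.same _ _ _ h17)

/-- all but finitely many elements have a first letter which stays a first letter in the ball of radius `N` -/
theorem persist {G : SimpleGraph V} {cs : CoxeterSystem M W} (hF : Facts G cs) (N : ℕ) :
    {w : W | ¬ ∃ v ∈ fst cs w, ∀ y, cs.length y ≤ N → v ∈ fst cs (w * y)}.Finite := by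
  induction N with
  | zero =>
    refine (Set.finite_singleton (1 : W)).subset fun w hw => ?_
    by_contra hne
    have hne : w ≠ 1 := hne
    obtain ⟨v, hv⟩ := cs.exists_leftDescent_of_ne_one hne
    refine hw ⟨v, mem_fst_ps.mpr hv, fun y hy => ?_⟩
    have h1 : y = 1 := cs.length_eq_zero_iff.mp (Nat.le_zero.mp hy)
    rw [h1, mul_one]
    exact mem_fst_ps.mpr hv
  | succ N ih =>
    have h1 : ((Set.univ : Set (Finset V)) ×ˢ
        {w : W | ¬ ∃ v ∈ fst cs w, ∀ y, cs.length y ≤ N → v ∈ fst cs (w * y)}).Finite :=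
      Set.finite_univ.prod ih
    refine (h1.image fun q => pl cs q.1.toList * q.2).subset fun w hw => ?_
    refine ⟨(fst cs w, (pl cs (fst cs w).toList)⁻¹ * w), ⟨Set.mem_univ _, ?_⟩, ?_⟩
    · rintro ⟨u, hu, hN⟩
      exact hw (persist_step hF N (mul_inv_cancel_left _ _).symm hu hN)
    · exact mul_inv_cancel_left _ _

end Pool.Agent.H65.BU

end

section

/-!
# Project AB: a lemma on right-angled Coxeter groups

PROOF of `comm_of_comm`: strong induction on the length with `Facts.step`: `w = w' s_u`, `u` adjacent to `y`, `u ∈ FF`,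
so `u` is adjacent to `z`, `w'` in `wf`.
PROOF of `lemB`: let `C` = centraliser of `s_z`, `P` = subgroup of the letters adjacent to `z`. An element of `C` without
the letter `z` is in `P`. Let `w_1` be of minimal length in `w P`. `w_1 ≠ 1` as `w ∉ C`, so there is `v ∈ fst w_1`. For
`y ∈ P`: `v ∈ fst (w_1 y)`: if `v ∈ fst (w_1 y')`, `v ∉ fst (w_1 y' s_u)`, then `s_v w_1 y' = w_1 y' s_u` (`exch`), so
`s_v w_1 = w_1 (y' s_u y'⁻¹) ∈ w_1 P`, shorter than `w_1`. So `v ∈ fst w`, `v ∈ fst w'`. If `w⁻¹ r w ∈ C`, write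
`w = w_1 y`: `r w = r w_1 r y`, `r y ∈ P`, `r w_1 ∈ w_1 P`, but `ℓ (r w_1) < ℓ w_1`. The same for `w'`.
-/

set_option autoImplicit false
set_option linter.unusedSectionVars false

open Finset

namespace Pool.Agent.H65.AB

open Pool.Agent.H65.RA Pool.Agent.H65.BU

variable {V W : Type} [Fintype V] [DecidableEq V] [Group W] {M : CoxeterMatrix V}

/-- the subgroup of the letters in `S` -/
private def WS (cs : CoxeterSystem M W) (S : Set V) : Subgroup W := Subgroup.closure (cs.simple '' S)

private theorem simple_mem (cs : CoxeterSystem M W) {S : Set V} {u : V} (hu : u ∈ S) : cs.simple u ∈ WS cs S :=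
  Subgroup.subset_closure ⟨u, hu, rfl⟩

private theorem WS_mono (cs : CoxeterSystem M W) {S T : Set V} (h : S ⊆ T) : WS cs S ≤ WS cs T :=
  Subgroup.closure_mono (Set.image_mono h)

/-- induction from the right -/
private theorem WS_induction (cs : CoxeterSystem M W) {S : Set V} {p : W → Prop} (h1 : p 1)
    (hs : ∀ x, x ∈ WS cs S → p x → ∀ u ∈ S, p (x * cs.simple u)) {x : W} (hx : x ∈ WS cs S) : p x := by
  refine Subgroup.closure_induction_right (p := fun x _ => p x) h1 ?_ ?_ hx
  · rintro x hx y ⟨u, hu, rfl⟩ h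
    exact hs x hx h u hu
  · rintro x hx y ⟨u, hu, rfl⟩ h
    rw [cs.inv_simple]
    exact hs x hx h u hu

/-- a homomorphism which kills a letter -/
private def IsKill (cs : CoxeterSystem M W) (v : V) (r : W →* W) : Prop :=
  ∀ u, r (cs.simple u) = if u = v then 1 else cs.simple u

private theorem kill_word (cs : CoxeterSystem M W) {v : V} {r : W →* W} (hs : IsKill cs v r) (ω : List V) :
    r (cs.wordProd ω) = cs.wordProd (ω.filter fun u => u ≠ v) := by
  induction ω with
  | nil => simp
  | cons u ω ih =>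
    rw [cs.wordProd_cons, map_mul, hs, ih]
    by_cases hu : u = v
    · rw [if_pos hu, one_mul, List.filter_cons_of_neg (by simp [hu])]
    · rw [if_neg hu, List.filter_cons_of_pos (by simp [hu]), cs.wordProd_cons]

private theorem kill_length (cs : CoxeterSystem M W) {v : V} {r : W →* W} (hs : IsKill cs v r) (w : W) :
    cs.length (r w) ≤ cs.length w := by
  obtain ⟨ω, hω, rfl⟩ := cs.exists_isReduced w
  rw [kill_word cs hs, hω.eq]
  exact (cs.length_wordProd_le _).trans (List.length_filter_le _ _)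

private theorem kill_mem (cs : CoxeterSystem M W) {v : V} {r : W →* W} (hs : IsKill cs v r) {S : Set V} {x : W}
    (hx : x ∈ WS cs S) : r x ∈ WS cs S := by
  refine WS_induction cs (p := fun x => r x ∈ WS cs S) ?_ ?_ hx
  · rw [map_one]
    exact one_mem _
  · intro x _ h u hu
    rw [map_mul, hs]
    refine mul_mem h ?_
    split_ifs
    · exact one_mem _
    · exact simple_mem cs hu

private theorem kill_fix (cs : CoxeterSystem M W) {v : V} {r : W →* W} (hs : IsKill cs v r) {S : Set V}
    (hv : v ∉ S) {x : W} (hx : x ∈ WS cs S) : r x = x := by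
  refine WS_induction cs (p := fun x => r x = x) (map_one r) ?_ hx
  intro x _ h u hu
  rw [map_mul, h, hs, if_neg]
  rintro rfl
  exact hv hu

/-- an element without the letter `X` has not the first letter `X` -/
private theorem not_fst {G : SimpleGraph V} (hM : RA G M) (cs : CoxeterSystem M W) {S : Set V} {X : V} (hX : X ∉ S) {x : W}
    (hx : x ∈ WS cs S) : X ∉ fst cs x := by
  obtain ⟨r, hr, h⟩ := exists_kill hM cs X
  have := h x
  rwa [kill_fix cs hr hX hx] at this

/-- the letters adjacent to `X` generate the centralizer, up to `X` -/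
private theorem mem_of_comm {G : SimpleGraph V} {cs : CoxeterSystem M W} (hF : Facts G cs) {X : V} :
    ∀ (n : ℕ) (x : W), cs.length x = n → X ∉ fst cs x → cs.simple X * x = x * cs.simple X →
      x ∈ WS cs {u | G.Adj u X} := by
  intro n
  induction n with
  | zero =>
    intro x hx _ _
    rw [cs.length_eq_zero_iff.1 hx]
    exact one_mem _
  | succ n ih =>
    intro x hx h1 h2
    have hx1 : x ≠ 1 := by
      rintro rfl
      rw [cs.length_one] at hx
      omega
    obtain ⟨x', u, h3, h4, h5, h6, h7⟩ := hF.step x X h2 h1 hx1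
    rw [h3]
    exact mul_mem (ih x' (by omega) h7 h6) (simple_mem cs h5)

private theorem comm_of_mem {G : SimpleGraph V} {cs : CoxeterSystem M W} (hF : Facts G cs) {X : V} {x : W}
    (hx : x ∈ WS cs {u | G.Adj u X}) : cs.simple X * x = x * cs.simple X := by
  refine WS_induction cs (p := fun x => cs.simple X * x = x * cs.simple X) (by simp) ?_ hx
  intro x _ h u hu
  rw [← mul_assoc, h, mul_assoc, ← hF.comm u X hu, mul_assoc]

/-- the first letters of a shortest element of a coset stay -/
private theorem fst_stay {G : SimpleGraph V} {cs : CoxeterSystem M W} (hF : Facts G cs) {S : Set V} {w₁ : W}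
    (hmin : ∀ y ∈ WS cs S, cs.length w₁ ≤ cs.length (w₁ * y)) {v : V} (hv : v ∈ fst cs w₁) {y : W}
    (hy : y ∈ WS cs S) : v ∈ fst cs (w₁ * y) := by
  have hlen : cs.length (cs.simple v * w₁) < cs.length w₁ := by
    classical
    unfold fst at hv
    exact (mem_filter.1 hv).2
  refine WS_induction cs (p := fun y => v ∈ fst cs (w₁ * y)) (by rwa [mul_one]) ?_ hy
  intro y hy h u hu
  by_contra hn
  have h1 := hF.exch (w₁ * (y * cs.simple u)) u v hn (by
    rw [← mul_assoc, cs.simple_mul_simple_cancel_right]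
    exact h)
  have h2 : cs.simple v * w₁ = w₁ * (y * cs.simple u * y⁻¹) := by
    have h3 : cs.simple v * w₁ * (y * cs.simple u) = w₁ * y := by
      rw [mul_assoc, h1, ← mul_assoc, cs.simple_mul_simple_cancel_right]
    have h4 : cs.simple v * w₁ = w₁ * y * (y * cs.simple u)⁻¹ := eq_mul_inv_of_mul_eq h3
    rw [h4, mul_inv_rev, cs.inv_simple]
    simp only [mul_assoc]
  have h5 := hmin _ (mul_mem (mul_mem hy (simple_mem cs hu)) (inv_mem hy))
  rw [← h2] at h5
  omega

/-- Lemma B for the subgroup of all letters but one -/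
private theorem lemB_aux {G : SimpleGraph V} (hM : RA G M) {cs : CoxeterSystem M W} (hF : Facts G cs) {X : V} {w w' : W}
    (hw : w ∈ WS cs {u | u ≠ X}) (hw' : w' ∈ WS cs {u | u ≠ X})
    (hc : cs.simple X * (w⁻¹ * w') = w⁻¹ * w' * cs.simple X)
    (hn : cs.simple X * w ≠ w * cs.simple X) :
    ∃ v ∈ fst cs w, v ∈ fst cs w' ∧ ∀ r : W →* W, IsKill cs v r →
      cs.simple X * (w⁻¹ * r w) ≠ w⁻¹ * r w * cs.simple X ∧
      cs.simple X * (w'⁻¹ * r w') ≠ w'⁻¹ * r w' * cs.simple X := by
  classical
  set Q := WS cs {u | u ≠ X} with hQ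
  set P := WS cs {u | G.Adj u X} with hP
  have hXQ : X ∉ {u : V | u ≠ X} := fun h => h rfl
  have hPQ : P ≤ Q := WS_mono cs fun u (hu : G.Adj u X) => hu.ne
  have hmem : ∀ x ∈ Q, cs.simple X * x = x * cs.simple X → x ∈ P := fun x hx h =>
    mem_of_comm hF _ x rfl (not_fst hM cs hXQ hx) h
  obtain ⟨z, hz, hmin⟩ : ∃ z ∈ P, ∀ y ∈ P, cs.length (w * z) ≤ cs.length (w * y) := by
    have hne : ∃ n, ∃ z ∈ P, cs.length (w * z) = n := ⟨_, 1, one_mem _, rfl⟩
    obtain ⟨z, hz, hz2⟩ := Nat.find_spec hne
    refine ⟨z, hz, fun y hy => ?_⟩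
    rw [hz2]
    exact Nat.find_min' hne ⟨y, hy, rfl⟩
  set w₁ := w * z with hw₁
  have hmin1 : ∀ y ∈ P, cs.length w₁ ≤ cs.length (w₁ * y) := by
    intro y hy
    have := hmin (z * y) (mul_mem hz hy)
    rwa [← mul_assoc] at this
  have hw₁Q : w₁ ∈ Q := mul_mem hw (hPQ hz)
  have h1 : w₁ ≠ 1 := by
    intro h
    refine hn (comm_of_mem hF ?_)
    have : w = z⁻¹ := eq_inv_of_mul_eq_one_left h
    rw [this]
    exact inv_mem hz
  obtain ⟨v, hv⟩ := cs.exists_leftDescent_of_ne_one h1
  have hvf : v ∈ fst cs w₁ := by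
    unfold fst
    rw [mem_filter]
    exact ⟨mem_univ v, hv⟩
  have hvX : v ≠ X := by
    rintro rfl
    exact not_fst hM cs hXQ hw₁Q hvf
  have hshort : ∀ r : W →* W, IsKill cs v r → ∀ x y, x = w₁ * y → y ∈ P →
      cs.simple X * (x⁻¹ * r x) ≠ x⁻¹ * r x * cs.simple X := by
    intro r hr x y hx hy he
    have hxQ : x ∈ Q := by
      rw [hx]
      exact mul_mem hw₁Q (hPQ hy)
    have h2 : x⁻¹ * r x ∈ P := hmem _ (mul_mem (inv_mem hxQ) (kill_mem cs hr hxQ)) he
    have h3 : w₁⁻¹ * r w₁ = y * (x⁻¹ * r x) * (r y)⁻¹ := by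
      have e1 : r x = r w₁ * r y := by rw [hx, map_mul]
      have e2 : x⁻¹ = y⁻¹ * w₁⁻¹ := by rw [hx, mul_inv_rev]
      rw [e1, e2]
      simp only [mul_assoc, mul_inv_cancel_left, mul_inv_cancel, mul_one]
    have h4 : w₁⁻¹ * r w₁ ∈ P := by
      rw [h3]
      exact mul_mem (mul_mem hy h2) (inv_mem (kill_mem cs hr hy))
    have h5 := hmin1 _ h4
    rw [mul_inv_cancel_left] at h5
    have h6 : r (cs.simple v * w₁) = r w₁ := by
      rw [map_mul, hr v, if_pos rfl, one_mul]
    have h7 := kill_length cs hr (cs.simple v * w₁)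
    have h8 : cs.length (cs.simple v * w₁) < cs.length w₁ := hv
    rw [h6] at h7
    omega
  have hww : w = w₁ * z⁻¹ := by
    rw [hw₁, mul_inv_cancel_right]
  have hww' : w' = w₁ * (z⁻¹ * (w⁻¹ * w')) := by
    rw [hw₁]
    group
  have hzz : z⁻¹ * (w⁻¹ * w') ∈ P := mul_mem (inv_mem hz) (hmem _ (mul_mem (inv_mem hw) hw') hc)
  refine ⟨v, ?_, ?_, fun r hr => ⟨hshort r hr w _ hww (inv_mem hz), hshort r hr w' _ hww' hzz⟩⟩
  · rw [hww]
    exact fst_stay hF hmin1 hvf (inv_mem hz)
  · rw [hww']
    exact fst_stay hF hmin1 hvf hzz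

private theorem wf_eq (cs : CoxeterSystem M W) (FF : Finset V) : wf cs FF = WS cs (FF : Set V) := by
  unfold wf WS
  congr 1
  ext x
  constructor
  · rintro ⟨v, hv, rfl⟩
    exact ⟨v, hv, rfl⟩
  · rintro ⟨v, hv, rfl⟩
    exact ⟨v, hv, rfl⟩

variable {G : SimpleGraph V} {cs : CoxeterSystem M W} {FF : Finset V}

/-- two letters with the same neighbours in `FF` -/
theorem comm_of_comm (hM : RA G M) {y z : V} (hy : y ∉ FF) (hz : z ∉ FF)
    (h : ∀ v ∈ FF, G.Adj v y → G.Adj v z) {w : W} (hw : w ∈ wf cs FF)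
    (hc : cs.simple y * w = w * cs.simple y) : cs.simple z * w = w * cs.simple z := by
  have hF := facts_of_ra hM cs
  have key : ∀ (n : ℕ) (x : W), cs.length x = n → x ∈ WS cs (FF : Set V) →
      cs.simple y * x = x * cs.simple y → cs.simple z * x = x * cs.simple z := by
    intro n
    induction n with
    | zero =>
      intro x hx _ _
      rw [cs.length_eq_zero_iff.1 hx, mul_one, one_mul]
    | succ n ih =>
      intro x hx hxF h2
      have hx1 : x ≠ 1 := by
        rintro rfl
        rw [cs.length_one] at hx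
        omega
      obtain ⟨x', u, h3, h4, h5, h6, h7⟩ := hF.step x y h2 (not_fst hM cs (by simpa using hy) hxF) hx1
      have hu : u ∈ FF := by
        by_contra hu
        have h8 := not_fst hM cs (S := (FF : Set V)) (X := u) (by simpa using hu) (inv_mem hxF)
        apply h8
        classical
        unfold fst
        rw [mem_filter]
        refine ⟨mem_univ u, ?_⟩
        rw [cs.isLeftDescent_inv_iff]
        show cs.length (x * cs.simple u) < cs.length x
        rw [h3, cs.simple_mul_simple_cancel_right, ← h3]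
        omega
      have hx' : x' ∈ WS cs (FF : Set V) := by
        have : x' = x * cs.simple u := by rw [h3, cs.simple_mul_simple_cancel_right]
        rw [this]
        exact mul_mem hxF (simple_mem cs (by simpa using hu))
      rw [h3, ← mul_assoc, ih x' (by omega) hx' h6, mul_assoc, ← hF.comm u z (h u hu h5), mul_assoc]
  rw [wf_eq] at hw
  exact key _ w rfl hw hc

/-- **Lemma B.** -/
theorem lemB (hM : RA G M) {z : V} (hz : z ∉ FF) {w w' : W} (hw : w ∈ wf cs FF)
    (hw' : w' ∈ wf cs FF) (hc : cs.simple z * (w⁻¹ * w') = w⁻¹ * w' * cs.simple z)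
    (hn : ¬ (cs.simple z * w = w * cs.simple z)) :
    ∃ v ∈ fst cs w, v ∈ fst cs w' ∧ ∀ r : W →* W,
      (∀ u, r (cs.simple u) = if u = v then 1 else cs.simple u) →
      ¬ (cs.simple z * (w⁻¹ * r w) = w⁻¹ * r w * cs.simple z) ∧
      ¬ (cs.simple z * (w'⁻¹ * r w') = w'⁻¹ * r w' * cs.simple z) := by
  have hs : (FF : Set V) ⊆ {u | u ≠ z} := by
    rintro u hu rfl
    exact hz (by simpa using hu)
  rw [wf_eq] at hw hw'
  exact lemB_aux hM (facts_of_ra hM cs) (WS_mono cs hs hw) (WS_mono cs hs hw') hc hn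

end Pool.Agent.H65.AB

end

section

/-!
# Project AB: right-angled Coxeter groups with an additional letter

PROOF of `wf_inter`: the last letter of an element of `wf cs A` is in `A`; induction on the length. `i` by `cs.lift`; there
is a homomorphism `ρ : D → W` which kills the new letter `τ` and maps `simple (some v)` to `simple v`, so `ρ (i y) = y`. If
`τ` commutes with `i y`: `i y` has no letter `τ`, so it is a product of letters adjacent to `τ` (`Facts.step`, as in LemB),
`y = ρ (i y)` is a product of letters `v` with `Q v`.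
-/

set_option autoImplicit false
set_option linter.unusedSectionVars false

open Finset

namespace Pool.Agent.H65.AB

open Pool.Agent.H65.RA Pool.Agent.H65.BU

variable {V W D : Type} [Fintype V] [DecidableEq V] [Group W] [Group D] {M : CoxeterMatrix V}
  {G : SimpleGraph V} {cs : CoxeterSystem M W}

/-- the graph with an additional vertex, adjacent to the vertices with `Q` -/
def exG {V : Type} (G : SimpleGraph V) (Q : V → Prop) : SimpleGraph (Option V) where
  Adj x y := match x, y with
    | some u, some v => G.Adj u v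
    | some u, none => Q u
    | none, some v => Q v
    | none, none => False
  symm := ⟨fun x y h => by
    cases x <;> cases y
    · exact h
    · exact h
    · exact h
    · exact SimpleGraph.Adj.symm (G := G) h⟩
  loopless := ⟨fun x h => by
    cases x
    · exact h
    · exact G.loopless.irrefl _ h⟩

/-- the subgroup of the letters in `S` -/
private def lcS (cs : CoxeterSystem M W) (S : Set V) : Subgroup W := Subgroup.closure (cs.simple '' S)

private theorem lc_simple (cs : CoxeterSystem M W) {S : Set V} {u : V} (hu : u ∈ S) :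
    cs.simple u ∈ lcS cs S :=
  Subgroup.subset_closure ⟨u, hu, rfl⟩

/-- induction from the right -/
private theorem lc_induction (cs : CoxeterSystem M W) {S : Set V} {p : W → Prop} (h1 : p 1)
    (hs : ∀ x, x ∈ lcS cs S → p x → ∀ u ∈ S, p (x * cs.simple u)) {x : W} (hx : x ∈ lcS cs S) : p x := by
  refine Subgroup.closure_induction_right (p := fun x _ => p x) h1 ?_ ?_ hx
  · rintro x hx y ⟨u, hu, rfl⟩ h
    exact hs x hx h u hu
  · rintro x hx y ⟨u, hu, rfl⟩ h
    rw [cs.inv_simple]
    exact hs x hx h u hu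

private theorem lc_eq (cs : CoxeterSystem M W) (FF : Finset V) : wf cs FF = lcS cs (FF : Set V) := by
  unfold wf lcS
  congr 1
  ext x
  constructor
  · rintro ⟨v, hv, rfl⟩
    exact ⟨v, hv, rfl⟩
  · rintro ⟨v, hv, rfl⟩
    exact ⟨v, hv, rfl⟩

/-- an element without the letter `X` has not the first letter `X` -/
private theorem lc_not_fst (hM : RA G M) (cs : CoxeterSystem M W) {S : Set V} {X : V} (hX : X ∉ S)
    {x : W} (hx : x ∈ lcS cs S) : X ∉ fst cs x := by
  obtain ⟨r, hr, h⟩ := exists_kill hM cs X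
  have h1 : r x = x := by
    refine lc_induction cs (p := fun x => r x = x) (map_one r) ?_ hx
    intro x _ h u hu
    rw [map_mul, h, hr, if_neg]
    rintro rfl
    exact hX hu
  have h2 := h x
  rwa [h1] at h2

/-- the last letter -/
private theorem lc_last (hM : RA G M) (cs : CoxeterSystem M W) {S : Set V} {x : W} (hx : x ∈ lcS cs S)
    {u : V} (hu : cs.length (x * cs.simple u) < cs.length x) : u ∈ S := by
  classical
  by_contra h
  apply lc_not_fst hM cs h (inv_mem hx)
  unfold fst
  rw [mem_filter]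
  refine ⟨mem_univ u, ?_⟩
  rw [cs.isLeftDescent_inv_iff]
  exact hu

private theorem lc_inter (hM : RA G M) (cs : CoxeterSystem M W) {S T : Set V} : ∀ (n : ℕ) (x : W),
    cs.length x = n → x ∈ lcS cs S → x ∈ lcS cs T → x ∈ lcS cs (S ∩ T) := by
  intro n
  induction n with
  | zero =>
    intro x hx _ _
    rw [cs.length_eq_zero_iff.1 hx]
    exact one_mem _
  | succ n ih =>
    intro x hx hS hT
    have hx1 : x ≠ 1 := by
      rintro rfl
      rw [cs.length_one] at hx
      omega
    obtain ⟨u, hu⟩ := cs.exists_rightDescent_of_ne_one hx1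
    have hu' : cs.length (x * cs.simple u) < cs.length x := hu
    have h1 := lc_last hM cs hS hu'
    have h2 := lc_last hM cs hT hu'
    have h3 : cs.length (x * cs.simple u) = n := by
      have := cs.length_mul_simple x u
      omega
    have h4 := ih _ h3 (mul_mem hS (lc_simple cs h1)) (mul_mem hT (lc_simple cs h2))
    have h5 := mul_mem h4 (lc_simple cs (S := S ∩ T) ⟨h1, h2⟩)
    rwa [cs.simple_mul_simple_cancel_right] at h5

/-- the letters adjacent to `X` generate the centralizer, up to `X` -/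
private theorem lc_comm (hF : Facts G cs) {X : V} : ∀ (n : ℕ) (x : W), cs.length x = n →
    X ∉ fst cs x → cs.simple X * x = x * cs.simple X → x ∈ lcS cs {u | G.Adj u X} := by
  intro n
  induction n with
  | zero =>
    intro x hx _ _
    rw [cs.length_eq_zero_iff.1 hx]
    exact one_mem _
  | succ n ih =>
    intro x hx h1 h2
    have hx1 : x ≠ 1 := by
      rintro rfl
      rw [cs.length_one] at hx
      omega
    obtain ⟨x', u, h3, h4, h5, h6, h7⟩ := hF.step x X h2 h1 hx1
    rw [h3]
    exact mul_mem (ih x' (by omega) h7 h6) (lc_simple cs h5)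

theorem wf_inter (hM : RA G M) {A B : Finset V} {y : W} (hA : y ∈ wf cs A) (hB : y ∈ wf cs B) :
    y ∈ wf cs (A ∩ B) := by
  rw [lc_eq] at hA hB ⊢
  rw [coe_inter]
  exact lc_inter hM cs _ y rfl hA hB

/-- elements whose letters are adjacent to `z` -/
theorem comm_of_wf (hF : Facts G cs) {A : Finset V} {z : V} (h : ∀ v ∈ A, G.Adj v z) {y : W}
    (hy : y ∈ wf cs A) : cs.simple z * y = y * cs.simple z := by
  rw [lc_eq] at hy
  refine lc_induction cs (p := fun x => cs.simple z * x = x * cs.simple z) (by simp) ?_ hy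
  intro x _ h1 u hu
  rw [← mul_assoc, h1, mul_assoc, ← hF.comm u z (h u hu), mul_assoc]

private theorem lc_two {H : SimpleGraph V} (hH : RA H M) {K : Type} [Group K] {f : V → K}
    (h1 : ∀ v, f v * f v = 1) (h2 : ∀ u v, H.Adj u v → (f u * f v) * (f u * f v) = 1) :
    M.IsLiftable f := by
  intro u v
  by_cases huv : u = v
  · subst huv
    rw [h1, one_pow]
  · by_cases hadj : H.Adj u v
    · rw [(hH u v huv).1 hadj, pow_two]
      exact h2 u v hadj
    · rw [(hH u v huv).2 hadj, pow_zero]

/-- **Lemma C.** -/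
theorem lemC (hM : RA G M) {Q : V → Prop} {M1 : CoxeterMatrix (Option V)} (hM1 : RA (exG G Q) M1)
    (cs1 : CoxeterSystem M1 D) : ∃ i : W →* D, (∀ v, i (cs.simple v) = cs1.simple (some v)) ∧
      ∀ (A : Finset V) (y : W), y ∈ wf cs A → cs1.simple none * i y = i y * cs1.simple none →
        ∀ v, ¬ Q v → y ∈ wf cs (A.erase v) := by
  classical
  have hF := facts_of_ra hM cs
  have hF1 := facts_of_ra hM1 cs1
  have hl : M.IsLiftable fun v => cs1.simple (some v) := by
    refine lc_two hM (fun v => cs1.simple_mul_simple_self _) fun u v huv => ?_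
    have h1 : cs1.simple (some u) * cs1.simple (some v) = cs1.simple (some v) * cs1.simple (some u) :=
      hF1.comm (some u) (some v) huv
    rw [mul_assoc, ← mul_assoc (cs1.simple (some v)), ← h1, mul_assoc (cs1.simple (some u)),
      cs1.simple_mul_simple_self, mul_one, cs1.simple_mul_simple_self]
  have hl1 : M1.IsLiftable fun x : Option V => x.elim (1 : W) cs.simple := by
    refine lc_two hM1 (fun x => ?_) fun x y hxy => ?_
    · cases x
      · simp
      · exact cs.simple_mul_simple_self _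
    · cases x with
      | none =>
        cases y with
        | none => simp
        | some v =>
          show (1 * cs.simple v) * (1 * cs.simple v) = 1
          rw [one_mul, cs.simple_mul_simple_self]
      | some u =>
        cases y with
        | none =>
          show (cs.simple u * 1) * (cs.simple u * 1) = 1
          rw [mul_one, cs.simple_mul_simple_self]
        | some v =>
          show (cs.simple u * cs.simple v) * (cs.simple u * cs.simple v) = 1
          have h1 : cs.simple u * cs.simple v = cs.simple v * cs.simple u := hF.comm u v hxy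
          rw [mul_assoc, ← mul_assoc (cs.simple v), ← h1, mul_assoc (cs.simple u),
            cs.simple_mul_simple_self, mul_one, cs.simple_mul_simple_self]
  set i : W →* D := cs.lift ⟨_, hl⟩ with hi
  set ρ : D →* W := cs1.lift ⟨_, hl1⟩ with hρ
  have hi1 : ∀ v, i (cs.simple v) = cs1.simple (some v) := fun v => cs.lift_apply_simple hl v
  have hρ1 : ∀ x, ρ (cs1.simple x) = x.elim (1 : W) cs.simple := fun x => cs1.lift_apply_simple hl1 x
  have hρi : ∀ y, ρ (i y) = y := by
    have h1 : ρ.comp i = MonoidHom.id W := by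
      refine cs.ext_simple fun v => ?_
      show ρ (i (cs.simple v)) = cs.simple v
      rw [hi1, hρ1]
      rfl
    exact fun y => DFunLike.congr_fun h1 y
  refine ⟨i, hi1, fun A y hy hc v hv => ?_⟩
  rw [lc_eq] at hy ⊢
  have h1 : i y ∈ lcS cs1 {x : Option V | x ≠ none} := by
    refine lc_induction cs (p := fun y => i y ∈ lcS cs1 {x : Option V | x ≠ none}) ?_ ?_ hy
    · rw [map_one]
      exact one_mem _
    · intro x _ h u _
      rw [map_mul, hi1]
      exact mul_mem h (lc_simple cs1 (Option.some_ne_none u))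
  have h0 : (none : Option V) ∉ {x : Option V | x ≠ none} := fun h => h rfl
  have h2 : none ∉ fst cs1 (i y) := lc_not_fst hM1 cs1 h0 h1
  have h3 := lc_comm hF1 _ (i y) rfl h2 hc
  have h4 : ρ (i y) ∈ lcS cs {v : V | Q v} := by
    refine lc_induction cs1 (p := fun z => ρ z ∈ lcS cs {v : V | Q v}) ?_ ?_ h3
    · rw [map_one]
      exact one_mem _
    · intro x _ h u hu
      rw [map_mul, hρ1]
      cases u with
      | none => exact mul_mem h (one_mem _)
      | some u => exact mul_mem h (lc_simple cs (S := {v : V | Q v}) hu)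
  rw [hρi] at h4
  have h5 := lc_inter hM cs _ y rfl hy h4
  refine Subgroup.closure_mono (Set.image_mono ?_) h5
  rintro u ⟨hu1, hu2⟩
  rw [mem_coe, mem_erase]
  refine ⟨?_, hu1⟩
  rintro rfl
  exact hv hu2

end Pool.Agent.H65.AB

end

section

/-!
# Graph products of infinite cyclic groups and finite groups: comparison with constant coefficients

The chains `f σ ∈ ℓ²(Γ)`, `σ` in a family of finite sets, with `∑ h ∈ K v, f σ (g h) = 0` for `v ∈ σ`
(no condition if `K v = 0`). The boundary in the direction `v` is the identity for the letters with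
`F v`, multiplication by `t v - 1` for the others.
-/

set_option autoImplicit false
set_option linter.unusedSectionVars false

namespace Pool.Agent.H3.MX

open Finset
open Pool.Agent.H4.Atiyah Pool.Agent.H78.RA

section

open Classical

variable {V : Type*} [Fintype V] {Γ : Type*} [Group Γ]

/-- the sum of the right translates by the elements of `K` -/
noncomputable def Kop (K : Multiset Γ) : BB Γ := (K.map fun h => (Eop () () h⁻¹ : BB Γ)).sum

theorem Kop_zero : Kop (0 : Multiset Γ) = 0 := by
  unfold Kop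
  rw [Multiset.map_zero, Multiset.sum_zero]

theorem Kop_cons (h : Γ) (K : Multiset Γ) : Kop (h ::ₘ K) = Eop () () h⁻¹ + Kop K := by
  unfold Kop
  rw [Multiset.map_cons, Multiset.sum_cons]

theorem Kop_apply (K : Multiset Γ) (x : LL Unit Γ) (g : Γ) :
    Kop K x ((), g) = (K.map fun h => x ((), g * h)).sum := by
  induction K using Multiset.induction_on with
  | empty =>
    rw [Kop_zero, Multiset.map_zero, Multiset.sum_zero]
    rfl
  | cons h K ih =>
    rw [Kop_cons, Multiset.map_cons, Multiset.sum_cons, ← ih]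
    show (Eop () () h⁻¹ x : LL Unit Γ) ((), g) + Kop K x ((), g) = _
    rw [Eop_apply, if_pos rfl, inv_inv]

theorem eqv_Kop (K : Multiset Γ) : Eqv (Kop K) := by
  induction K using Multiset.induction_on with
  | empty =>
    rw [Kop_zero]
    exact Eqv.zero
  | cons h K ih =>
    rw [Kop_cons]
    exact (eqv_Eop () () h⁻¹).add ih

end

end Pool.Agent.H3.MX

end

section

/-!
# Project AB: separation for a subset of the letters

PROOF. `i = ind_hom M Y : (sub M Y).Group →* M.Group` (H73/LK/Ind) is injective and preserves the left descents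
(`i w` and `w`: Tits representation): `v ∈ fst (i w) ↔ v ∈ Y ∧ v ∈ fst w`. `g a (i w) = g' (a ∘ val) w` (induction on
`w`; the parities agree). `(w, m) ↦ (i w, m extended by 0)` maps the positions of the subsystem to positions of the
system; `Pos`, `Opp` are preserved (`s_z` commutes with `i w` iff it commutes with `w`, `z ∈ Y`), signs `a` are extended by
`true`. The products `zp` do not depend on the order, as the elements of adjacent letters commute (`Apts`).
-/

set_option autoImplicit false
set_option linter.unusedSectionVars false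

open Finset

namespace Pool.Agent.H65.AB

open Pool.Agent.H65.RA Pool.Agent.H65.BU Pool.Agent.H4.FC
open Pool.Agent.H73.LK (sub ind_hom ind_hom_simple ind_hom_injective sub_apply)

section descent

variable {S : Type} [Fintype S] [DecidableEq S] {M : CoxeterMatrix S}

/-- extension by zero -/
private noncomputable def su_ext (Y : Finset S) (x : {v // v ∈ Y} → ℝ) (v : S) : ℝ :=
  if h : v ∈ Y then x ⟨v, h⟩ else 0

private theorem su_ext_sub (Y : Finset S) (x y : {v // v ∈ Y} → ℝ) (r : ℝ) :
    su_ext Y (x - r • y) = su_ext Y x - r • su_ext Y y := by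
  funext v
  unfold su_ext
  by_cases h : v ∈ Y
  · simp [h]
  · simp [h]

private theorem su_ext_single (Y : Finset S) (v : {v // v ∈ Y}) :
    su_ext Y (Pi.single v 1) = Pi.single v.1 1 := by
  funext u
  unfold su_ext
  by_cases h : u ∈ Y
  · rw [dif_pos h]
    by_cases h1 : u = v.1
    · subst h1
      rw [Pi.single_eq_same, Pi.single_eq_same]
    · rw [Pi.single_eq_of_ne h1, Pi.single_eq_of_ne]
      exact fun h2 => h1 (congrArg Subtype.val h2)
  · rw [dif_neg h, Pi.single_eq_of_ne]
    exact fun h1 => h (h1 ▸ v.2)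

private theorem su_simple (M : CoxeterMatrix S) (v : S) : M.toCoxeterSystem.simple v = M.simple v := by
  rw [M.toCoxeterSystem_simple]

private theorem su_ind_simple (M : CoxeterMatrix S) (Y : Finset S) (v : {v // v ∈ Y}) :
    ind_hom M Y ((sub M Y).toCoxeterSystem.simple v) = M.toCoxeterSystem.simple v.1 := by
  rw [su_simple, su_simple, ind_hom_simple]

private theorem su_tits (M : CoxeterMatrix S) (Y : Finset S) (w : (sub M Y).Group)
    (x : {v // v ∈ Y} → ℝ) :
    (titsHom M (ind_hom M Y w)).mulVec (su_ext Y x) = su_ext Y ((titsHom (sub M Y) w).mulVec x) := by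
  induction w using (sub M Y).toCoxeterSystem.simple_induction_left generalizing x with
  | one => rw [map_one, map_one, map_one, Matrix.one_mulVec, Matrix.one_mulVec]
  | mul_simple_left w i ih =>
    have e1 : (sub M Y).toCoxeterSystem.simple i = (sub M Y).simple i := su_simple _ _
    rw [e1, map_mul, map_mul, map_mul, ind_hom_simple, ← Matrix.mulVec_mulVec, ← Matrix.mulVec_mulVec, ih]
    have e2 : titsHom M (M.simple i.1) = refl (kR M) i.1 := titsHom_simple M i.1
    have e3 : titsHom (sub M Y) ((sub M Y).simple i) = refl (kR (sub M Y)) i := titsHom_simple _ i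
    rw [e2, e3, refl_mulVec, refl_mulVec, su_ext_sub, su_ext_single]
    congr 2
    have h1 : ∀ u ∉ Y, kR M i.1 u * su_ext Y ((titsHom (sub M Y) w).mulVec x) u = 0 := by
      intro u hu
      unfold su_ext
      rw [dif_neg hu, mul_zero]
    rw [← Finset.sum_subset (Finset.subset_univ Y) fun u _ hu => h1 u hu, ← Finset.sum_coe_sort]
    refine Finset.sum_congr rfl fun u _ => ?_
    have h2 : su_ext Y ((titsHom (sub M Y) w).mulVec x) u.1 = (titsHom (sub M Y) w).mulVec x u := by
      unfold su_ext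
      rw [dif_pos u.2]
    rw [h2]
    rfl

/-- the coordinates outside `Y` do not change -/
private theorem su_coord (M : CoxeterMatrix S) (Y : Finset S) (w : (sub M Y).Group) (x : S → ℝ)
    {v : S} (hv : v ∉ Y) : (titsHom M (ind_hom M Y w)).mulVec x v = x v := by
  induction w using (sub M Y).toCoxeterSystem.simple_induction_left with
  | one => rw [map_one, map_one, Matrix.one_mulVec]
  | mul_simple_left w i ih =>
    have e1 : (sub M Y).toCoxeterSystem.simple i = (sub M Y).simple i := su_simple _ _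
    have e2 : titsHom M (M.simple i.1) = refl (kR M) i.1 := titsHom_simple M i.1
    have hvi : v ≠ i.1 := fun h => hv (by rw [h]; exact i.2)
    rw [e1, map_mul, map_mul, ind_hom_simple, ← Matrix.mulVec_mulVec, e2, refl_mulVec, Pi.sub_apply,
      Pi.smul_apply, Pi.single_eq_of_ne hvi, smul_zero, sub_zero, ih]

/-- the right descents -/
private theorem su_descent (U : Finset S) (w : (sub M U).Group) (s : {v // v ∈ U}) :
    (sub M U).toCoxeterSystem.IsRightDescent w s ↔
      M.toCoxeterSystem.IsRightDescent (ind_hom M U w) s.1 := by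
  rw [Pool.Agent.H78.RC.descent_iff, Pool.Agent.H78.RC.descent_iff]
  have h1 := su_tits M U w (Pi.single s 1)
  rw [su_ext_single] at h1
  rw [h1]
  constructor
  · intro h i
    unfold su_ext
    split_ifs with hi
    · exact h ⟨i, hi⟩
    · exact le_rfl
  · intro h i
    have h2 := h i.1
    unfold su_ext at h2
    rw [dif_pos i.2] at h2
    exact h2

private theorem su_descent' (U : Finset S) (w : (sub M U).Group) {s : S} (hs : s ∉ U) :
    ¬ M.toCoxeterSystem.IsRightDescent (ind_hom M U w) s := by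
  rw [Pool.Agent.H78.RC.descent_iff]
  intro h
  have h1 := h s
  rw [su_coord M U w _ hs, Pi.single_eq_same] at h1
  linarith

/-- the first letters -/
private theorem su_fst (U : Finset S) (w : (sub M U).Group) {v : S} :
    v ∈ fst M.toCoxeterSystem (ind_hom M U w) ↔
      ∃ h : v ∈ U, (⟨v, h⟩ : {v // v ∈ U}) ∈ fst (sub M U).toCoxeterSystem w := by
  classical
  have e1 : v ∈ fst M.toCoxeterSystem (ind_hom M U w) ↔
      M.toCoxeterSystem.IsLeftDescent (ind_hom M U w) v := by
    unfold fst
    rw [mem_filter]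
    exact ⟨fun h => h.2, fun h => ⟨mem_univ v, h⟩⟩
  have e2 : ∀ u : {v // v ∈ U}, u ∈ fst (sub M U).toCoxeterSystem w ↔
      (sub M U).toCoxeterSystem.IsLeftDescent w u := by
    intro u
    unfold fst
    rw [mem_filter]
    exact ⟨fun h => h.2, fun h => ⟨mem_univ u, h⟩⟩
  have e3 : M.toCoxeterSystem.IsLeftDescent (ind_hom M U w) v ↔
      M.toCoxeterSystem.IsRightDescent (ind_hom M U w⁻¹) v := by
    rw [map_inv, M.toCoxeterSystem.isRightDescent_inv_iff]
  rw [e1, e3]
  constructor
  · intro h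
    by_cases hv : v ∈ U
    · refine ⟨hv, ?_⟩
      rw [e2, ← (sub M U).toCoxeterSystem.isRightDescent_inv_iff, su_descent]
      exact h
    · exact absurd h (su_descent' U _ hv)
  · rintro ⟨hv, h⟩
    rw [e2, ← (sub M U).toCoxeterSystem.isRightDescent_inv_iff, su_descent] at h
    exact h

end descent

section main

variable {V A : Type} [Fintype V] [DecidableEq V] [Group A] {M : CoxeterMatrix V}

/-- the elements of adjacent letters commute -/
private theorem su_comm {G : SimpleGraph V} (hM : RA G M) {p : V × Bool → A}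
    {pr : M.Group → V → ZMod 2} {g : (V → Bool) → M.Group → A}
    (hg : Apts M.toCoxeterSystem pr p g) {u v : V} (huv : G.Adj u v) (a : V → Bool) :
    Commute (p (u, a u)) (p (v, a v)) := by
  have hne : u ≠ v := huv.ne
  have h2 : M u v = 2 := (hM u v hne).1 huv
  have hc : M.toCoxeterSystem.simple u * M.toCoxeterSystem.simple v =
      M.toCoxeterSystem.simple v * M.toCoxeterSystem.simple u := by
    have h3 := M.toCoxeterSystem.simple_mul_simple_pow u v
    rw [h2, pow_two] at h3
    have h4 : M.toCoxeterSystem.simple u * M.toCoxeterSystem.simple v =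
        (M.toCoxeterSystem.simple u * M.toCoxeterSystem.simple v)⁻¹ := eq_inv_of_mul_eq_one_left h3
    rw [h4, mul_inv_rev, M.toCoxeterSystem.inv_simple, M.toCoxeterSystem.inv_simple]
  have key : ∀ x y : V, x ≠ y → g a (M.toCoxeterSystem.simple x * M.toCoxeterSystem.simple y) =
      p (x, a x) * p (y, a y) := by
    intro x y hxy
    have h3 := hg.mul a 1 x
    rw [one_mul, if_pos (hg.pr_one x), hg.one, one_mul] at h3
    have h4 : pr (M.toCoxeterSystem.simple x) y = 0 := by
      have h5 := hg.pr_mul 1 x y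
      rw [one_mul, hg.pr_one, if_neg (Ne.symm hxy), zero_add] at h5
      exact h5
    rw [hg.mul, if_pos h4, h3]
  have h5 := key u v hne
  rw [hc, key v u (Ne.symm hne)] at h5
  exact h5.symm

/-- the extension of exponents -/
private def su_m (Y : Finset V) (m : {v // v ∈ Y} → ℕ) (v : V) : ℕ :=
  if h : v ∈ Y then m ⟨v, h⟩ else 0

private theorem su_m_val (Y : Finset V) (m : {v // v ∈ Y} → ℕ) (v : {v // v ∈ Y}) :
    su_m Y m v.1 = m v := by
  unfold su_m
  rw [dif_pos v.2]

private theorem su_m_not {Y : Finset V} (m : {v // v ∈ Y} → ℕ) {v : V} (h : v ∉ Y) :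
    su_m Y m v = 0 := by
  unfold su_m
  rw [dif_neg h]

private theorem su_m_inj (Y : Finset V) : Function.Injective (su_m Y) := by
  intro m m' h
  funext v
  rw [← su_m_val Y m v, h, su_m_val]

/-- the extension of signs -/
private def su_a (Y : Finset V) (a : {v // v ∈ Y} → Bool) (v : V) : Bool :=
  if h : v ∈ Y then a ⟨v, h⟩ else true

private theorem su_a_val (Y : Finset V) (a : {v // v ∈ Y} → Bool) (v : {v // v ∈ Y}) :
    su_a Y a v.1 = a v := by
  unfold su_a
  rw [dif_pos v.2]

/-- products of powers -/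
private theorem su_zp {G : SimpleGraph V} {p : V × Bool → A} (Y : Finset V) (FF : Finset V)
    (a : {v // v ∈ Y} → Bool) (m : {v // v ∈ Y} → ℕ) (hm : Pos G FF (su_m Y m))
    (hc : ∀ u v, G.Adj u v → Commute (p (u, su_a Y a u)) (p (v, su_a Y a v))) :
    zp p (su_a Y a) (su_m Y m) = zp (fun x : {v // v ∈ Y} × Bool => p (x.1.1, x.2)) a m := by
  classical
  unfold zp
  obtain ⟨F, hF⟩ : ∃ F : V → A, F = fun z => p (z, su_a Y a z) ^ su_m Y m z := ⟨_, rfl⟩
  have hF1 : ∀ z ∉ Y, F z = 1 := by
    intro z hz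
    rw [hF]
    show p (z, su_a Y a z) ^ su_m Y m z = 1
    rw [su_m_not m hz, pow_zero]
  have hFv : ∀ z : {v // v ∈ Y}, F z.1 = p (z.1, a z) ^ m z := by
    intro z
    rw [hF]
    show p (z.1, su_a Y a z.1) ^ su_m Y m z.1 = p (z.1, a z) ^ m z
    rw [su_m_val, su_a_val]
  have hcF : ∀ x y, Commute (F x) (F y) := by
    intro x y
    rw [hF]
    show Commute (p (x, su_a Y a x) ^ su_m Y m x) (p (y, su_a Y a y) ^ su_m Y m y)
    by_cases h1 : su_m Y m x = 0
    · rw [h1, pow_zero]
      exact Commute.one_left _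
    by_cases h2 : su_m Y m y = 0
    · rw [h2, pow_zero]
      exact Commute.one_right _
    by_cases h3 : x = y
    · subst h3
      exact Commute.pow_pow_self _ _ _
    · exact (hc x y (hm.2 x y h1 h2 h3)).pow_pow _ _
  have hL : ((univ : Finset V).toList.map fun z => p (z, su_a Y a z) ^ su_m Y m z) =
      (univ : Finset V).toList.map F := by rw [hF]
  rw [hL]
  have hperm : (univ : Finset V).toList.Perm
      (((univ : Finset {v // v ∈ Y}).toList.map Subtype.val) ++ (Yᶜ).toList) := by
    rw [List.perm_ext_iff_of_nodup (nodup_toList _)]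
    · intro z
      refine ⟨fun _ => List.mem_append.2 ?_, fun _ => mem_toList.2 (mem_univ z)⟩
      by_cases hz : z ∈ Y
      · exact Or.inl (List.mem_map.2 ⟨⟨z, hz⟩, mem_toList.2 (mem_univ _), rfl⟩)
      · exact Or.inr (mem_toList.2 (mem_compl.2 hz))
    · rw [List.nodup_append]
      refine ⟨(nodup_toList _).map Subtype.val_injective, nodup_toList _, ?_⟩
      intro x hx y hy hxy
      rw [List.mem_map] at hx
      obtain ⟨z, _, rfl⟩ := hx
      rw [mem_toList, mem_compl] at hy
      exact hy (hxy ▸ z.2)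
  have hpw : ∀ L : List V, (L.map F).Pairwise Commute := by
    intro L
    induction L with
    | nil => exact List.Pairwise.nil
    | cons x L ih =>
      rw [List.map_cons]
      refine List.Pairwise.cons ?_ ih
      intro y hy
      obtain ⟨z, _, rfl⟩ := List.mem_map.1 hy
      exact hcF x z
  rw [(hperm.map F).prod_eq' (hpw _), List.map_append, List.prod_append, List.map_map]
  have h1 : ((Yᶜ).toList.map F).prod = 1 := by
    refine List.prod_eq_one fun x hx => ?_
    rw [List.mem_map] at hx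
    obtain ⟨z, hz, rfl⟩ := hx
    rw [mem_toList, mem_compl] at hz
    exact hF1 z hz
  rw [h1, mul_one]
  refine congrArg List.prod (List.map_congr_left fun z _ => ?_)
  exact hFv z

end main

theorem sepZ_sub {V A : Type} [Fintype V] [DecidableEq V] [Group A] {M : CoxeterMatrix V}
    {G : SimpleGraph V} (hM : RA G M) (Y FF : Finset V) {p : V × Bool → A}
    {pr : M.Group → V → ZMod 2} {g : (V → Bool) → M.Group → A}
    (hg : Apts M.toCoxeterSystem pr p g) {pr' : (sub M Y).Group → {v // v ∈ Y} → ZMod 2}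
    {g' : ({v // v ∈ Y} → Bool) → (sub M Y).Group → A}
    (hg' : Apts (sub M Y).toCoxeterSystem pr' (fun x : {v // v ∈ Y} × Bool => p (x.1.1, x.2)) g')
    (h : SepZ G M.toCoxeterSystem FF p g) :
    SepZ (G.comap (Subtype.val : {v // v ∈ Y} → V)) (sub M Y).toCoxeterSystem (rF FF Y)
      (fun x : {v // v ∈ Y} × Bool => p (x.1.1, x.2)) g' := by
  classical
  intro E
  have hinj := ind_hom_injective M Y
  obtain ⟨Φ, hΦ⟩ : ∃ Φ : ((sub M Y).Group × ({v // v ∈ Y} → ℕ)) ×
      ((sub M Y).Group × ({v // v ∈ Y} → ℕ)) → (M.Group × (V → ℕ)) × (M.Group × (V → ℕ)),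
      ∀ q, Φ q = ((ind_hom M Y q.1.1, su_m Y q.1.2), (ind_hom M Y q.2.1, su_m Y q.2.2)) :=
    ⟨_, fun _ => rfl⟩
  have hΦi : Function.Injective Φ := by
    intro q q' hq
    rw [hΦ, hΦ] at hq
    have h1 := congrArg (fun x => x.1.1) hq
    have h2 := congrArg (fun x => x.1.2) hq
    have h3 := congrArg (fun x => x.2.1) hq
    have h4 := congrArg (fun x => x.2.2) hq
    exact Prod.ext (Prod.ext (hinj h1) (su_m_inj Y h2)) (Prod.ext (hinj h3) (su_m_inj Y h4))
  -- the parities and the apartments
  have hpr : ∀ (w : (sub M Y).Group) (v : {v // v ∈ Y}), pr (ind_hom M Y w) v.1 = pr' w v := by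
    intro w
    induction w using (sub M Y).toCoxeterSystem.simple_induction_right with
    | one =>
      intro v
      rw [map_one, hg.pr_one, hg'.pr_one]
    | mul_simple_right w i ih =>
      intro v
      rw [map_mul, su_ind_simple, hg.pr_mul, hg'.pr_mul, ih]
      by_cases hvi : v = i
      · rw [if_pos hvi, if_pos (congrArg Subtype.val hvi)]
      · rw [if_neg hvi, if_neg fun h => hvi (Subtype.ext h)]
  have hgg : ∀ (a : V → Bool) (a' : {v // v ∈ Y} → Bool), (∀ v : {v // v ∈ Y}, a v.1 = a' v) →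
      ∀ w : (sub M Y).Group, g a (ind_hom M Y w) = g' a' w := by
    intro a a' haa w
    induction w using (sub M Y).toCoxeterSystem.simple_induction_right with
    | one => rw [map_one, hg.one, hg'.one]
    | mul_simple_right w i ih =>
      rw [map_mul, su_ind_simple, hg.mul, hg'.mul, ih, hpr, haa]
  -- the subgroup of the letters
  have hwf : ∀ w ∈ wf (sub M Y).toCoxeterSystem (rF FF Y), ind_hom M Y w ∈ wf M.toCoxeterSystem FF := by
    intro w hw
    have h1 : wf (sub M Y).toCoxeterSystem (rF FF Y) ≤ (wf M.toCoxeterSystem FF).comap (ind_hom M Y) := by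
      unfold wf
      rw [Subgroup.closure_le]
      rintro x ⟨v, hv, rfl⟩
      show ind_hom M Y ((sub M Y).toCoxeterSystem.simple v) ∈
        Subgroup.closure {x | ∃ v ∈ FF, x = M.toCoxeterSystem.simple v}
      rw [su_ind_simple]
      exact Subgroup.subset_closure ⟨v.1, mem_rF.1 hv, rfl⟩
    exact h1 hw
  have hpos : ∀ m : {v // v ∈ Y} → ℕ, Pos (G.comap (Subtype.val : {v // v ∈ Y} → V)) (rF FF Y) m →
      Pos G FF (su_m Y m) := by
    intro m hm
    have h1 : ∀ z, su_m Y m z ≠ 0 → ∃ hz : z ∈ Y, m ⟨z, hz⟩ ≠ 0 := by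
      intro z hz
      by_cases hzY : z ∈ Y
      · refine ⟨hzY, ?_⟩
        rw [← su_m_val Y m ⟨z, hzY⟩]
        exact hz
      · exact absurd (su_m_not m hzY) hz
    refine ⟨fun z hz hzF => ?_, fun y z hy hz hyz => ?_⟩
    · obtain ⟨h2, h3⟩ := h1 z hz
      exact hm.1 _ h3 (mem_rF.2 hzF)
    · obtain ⟨h2, h3⟩ := h1 y hy
      obtain ⟨h4, h5⟩ := h1 z hz
      exact hm.2 _ _ h3 h5 fun h6 => hyz (congrArg Subtype.val h6)
  have hcomm : ∀ (w : (sub M Y).Group) (z : {v // v ∈ Y}),
      M.toCoxeterSystem.simple z.1 * ind_hom M Y w = ind_hom M Y w * M.toCoxeterSystem.simple z.1 ↔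
      (sub M Y).toCoxeterSystem.simple z * w = w * (sub M Y).toCoxeterSystem.simple z := by
    intro w z
    rw [← su_ind_simple, ← map_mul, ← map_mul]
    exact hinj.eq_iff
  refine Set.Finite.of_finite_image (f := Φ) ((h E).subset ?_) hΦi.injOn
  rintro _ ⟨q, ⟨h1, h2, h3, h4, a, b, hopp, hE⟩, rfl⟩
  rw [hΦ]
  have hp1 := hpos _ h3
  have hp2 := hpos _ h4
  refine ⟨hwf _ h1, hwf _ h2, hp1, hp2, su_a Y a, su_a Y b, ⟨?_, ?_, ?_, ?_⟩, ?_⟩
  · intro v hv hv'
    obtain ⟨hvY, h5⟩ := (su_fst Y q.1.1).1 hv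
    obtain ⟨_, h6⟩ := (su_fst Y q.2.1).1 hv'
    have h7 := hopp.fst _ h5 h6
    rw [← su_a_val Y a ⟨v, hvY⟩, ← su_a_val Y b ⟨v, hvY⟩] at h7
    exact h7
  · intro z hz hz' hw hw'
    by_cases hzY : z ∈ Y
    · have h5 : q.1.2 ⟨z, hzY⟩ ≠ 0 := by
        rw [← su_m_val Y q.1.2 ⟨z, hzY⟩]
        exact hz
      have h6 : q.2.2 ⟨z, hzY⟩ ≠ 0 := by
        rw [← su_m_val Y q.2.2 ⟨z, hzY⟩]
        exact hz'
      have h7 := hopp.free _ h5 h6 ((hcomm q.1.1 ⟨z, hzY⟩).1 hw) ((hcomm q.2.1 ⟨z, hzY⟩).1 hw')
      rw [← su_a_val Y a ⟨z, hzY⟩, ← su_a_val Y b ⟨z, hzY⟩] at h7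
      exact h7
    · exact absurd (su_m_not _ hzY) hz
  · intro z hz hw
    by_cases hzY : z ∈ Y
    · have h5 : q.1.2 ⟨z, hzY⟩ ≠ 0 := by
        rw [← su_m_val Y q.1.2 ⟨z, hzY⟩]
        exact hz
      have h7 := hopp.left _ h5 fun h8 => hw ((hcomm q.1.1 ⟨z, hzY⟩).2 h8)
      rw [← su_a_val Y a ⟨z, hzY⟩] at h7
      exact h7
    · exact absurd (su_m_not _ hzY) hz
  · intro z hz hw
    by_cases hzY : z ∈ Y
    · have h5 : q.2.2 ⟨z, hzY⟩ ≠ 0 := by
        rw [← su_m_val Y q.2.2 ⟨z, hzY⟩]
        exact hz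
      have h7 := hopp.right _ h5 fun h8 => hw ((hcomm q.2.1 ⟨z, hzY⟩).2 h8)
      rw [← su_a_val Y b ⟨z, hzY⟩] at h7
      exact h7
    · exact absurd (su_m_not _ hzY) hz
  · show (g (su_a Y a) (ind_hom M Y q.1.1) * zp p (su_a Y a) (su_m Y q.1.2))⁻¹ *
      (g (su_a Y b) (ind_hom M Y q.2.1) * zp p (su_a Y b) (su_m Y q.2.2)) ∈ E
    rw [hgg _ a (su_a_val Y a), hgg _ b (su_a_val Y b),
      su_zp Y FF a q.1.2 hp1 (fun u v huv => su_comm hM hg huv _),
      su_zp Y FF b q.2.2 hp2 (fun u v huv => su_comm hM hg huv _)]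
    exact hE

/-- the Coxeter matrix of a full subgraph -/
theorem ra_sub {V : Type} [Fintype V] [DecidableEq V] {M : CoxeterMatrix V} {G : SimpleGraph V}
    (hM : RA G M) (Y : Finset V) : RA (G.comap (Subtype.val : {v // v ∈ Y} → V)) (sub M Y) :=
  fun u v h => hM u.1 v.1 fun h' => h (Subtype.ext h')

end Pool.Agent.H65.AB

end

section

/-!
# Project AB: exactness for full subcomplexes of the nerve

Written by helper10 (part of LerN).
-/

set_option autoImplicit false
set_option linter.unusedSectionVars false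

open Finset

namespace Pool.Agent.H65.AB

open H42.NU Pool.Agent.H4.FC Pool.Agent.H93.AA Pool.Agent.H78.RA
open Pool.Agent.H73.LK (sub)

variable {S : Type} [Fintype S] [DecidableEq S] {M : CoxeterMatrix S} {F : Finset S}

/-! ### Full subcomplexes -/

private theorem lrn_sph {U : Finset S} {σ : Finset {v // v ∈ U}} :
    Sph (sub M U) σ ↔ Sph M (σ.map (Function.Embedding.subtype _)) := by
  have h1 : (par (sub M U) σ).map (Pool.Agent.H73.LK.ind_hom M U) =
      par M (σ.map (Function.Embedding.subtype _)) := by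
    unfold par
    rw [MonoidHom.map_closure]
    congr 1
    ext w
    constructor
    · rintro ⟨u, ⟨v, hv, rfl⟩, rfl⟩
      exact ⟨v.1, mem_map.2 ⟨v, hv, rfl⟩, Pool.Agent.H73.LK.ind_hom_simple M U v⟩
    · rintro ⟨v, hv, rfl⟩
      obtain ⟨u, hu, rfl⟩ := mem_map.1 hv
      exact ⟨(sub M U).simple u, ⟨u, hu, rfl⟩, Pool.Agent.H73.LK.ind_hom_simple M U u⟩
  unfold Sph
  rw [← h1]
  exact ((par (sub M U) σ).equivMapOfInjective _
    (Pool.Agent.H73.LK.ind_hom_injective M U)).toEquiv.finite_iff

private theorem lrn_tw_sg (ν : S → ℕ) (τ : Finset S) (v : S) (a : ZMod 2) :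
    sg ν τ v • a = a := by
  unfold sg
  rcases neg_one_pow_eq_or ℤ (τ.filter fun u => ν u < ν v).card with h | h
  · rw [h, one_smul]
  · rw [h, neg_smul, one_smul, ZMod.neg_eq_self_mod_two]

private theorem lrn_tw_bd (ν : S → ℕ) (f : Finset S → ZMod 2)
    (τ : Finset S) : bd ν f τ = ∑ v ∈ τᶜ, f (insert v τ) := by
  unfold bd
  exact Finset.sum_congr rfl fun v _ => lrn_tw_sg ν τ v _

private theorem lrn_tw_sub {U : Finset S} (s : Finset {v // v ∈ U}) :
    (s.map (Function.Embedding.subtype _) : Finset S) ⊆ U := by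
  intro a ha
  obtain ⟨a', -, rfl⟩ := mem_map.1 ha
  exact a'.2

private theorem lrn_tw_map {U τ : Finset S} (h : τ ⊆ U) :
    ∃ s : Finset {v // v ∈ U}, s.map (Function.Embedding.subtype _) = τ := by
  classical
  refine ⟨τ.subtype _, ?_⟩
  ext a
  rw [mem_map]
  constructor
  · rintro ⟨a', ha', rfl⟩
    exact mem_subtype.1 ha'
  · intro ha
    exact ⟨⟨a, h ha⟩, mem_subtype.2 ha, rfl⟩

private theorem lrn_tw_sum {U : Finset S} [Fintype {v // v ∈ U}] [DecidableEq {v // v ∈ U}]
    (f : Finset S → ZMod 2) (s : Finset {v // v ∈ U})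
    (hF : ∀ u, u ∉ U → f (insert u (s.map (Function.Embedding.subtype _))) = 0) :
    ∑ u ∈ (s.map (Function.Embedding.subtype _))ᶜ,
      f (insert u (s.map (Function.Embedding.subtype _))) =
    ∑ u ∈ sᶜ, f ((insert u s).map (Function.Embedding.subtype _)) := by
  have h1 : ∑ u ∈ sᶜ, f ((insert u s).map (Function.Embedding.subtype _)) =
      ∑ u ∈ sᶜ.map (Function.Embedding.subtype _),
        f (insert u (s.map (Function.Embedding.subtype _))) := by
    rw [sum_map]
    apply sum_congr rfl
    intro w _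
    rw [map_insert]
  rw [h1]
  symm
  apply sum_subset
  · intro u hu
    obtain ⟨w, hw, rfl⟩ := mem_map.1 hu
    rw [mem_compl] at hw ⊢
    intro h
    obtain ⟨w', hw', h'⟩ := mem_map.1 h
    exact hw (Function.Embedding.injective _ h' ▸ hw')
  · intro u hu hu'
    rw [mem_compl] at hu
    by_cases hA : u ∈ U
    · exfalso
      apply hu'
      refine mem_map.2 ⟨⟨u, hA⟩, ?_, rfl⟩
      rw [mem_compl]
      intro h
      exact hu (mem_map.2 ⟨_, h, rfl⟩)
    · exact hF u hA

private theorem lrn_tw_ex {U : Finset S} {i : ℕ} (h : HL (sub M U) i) (ν : S → ℕ) :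
    Ex (ZMod 2) ν (fun σ => Sph M σ ∧ σ.card = i ∧ σ ⊆ U)
      (fun σ => Sph M σ ∧ σ.card = i + 1 ∧ σ ⊆ U) := by
  intro z hz1 hz2
  have hzero : ∀ ρ : Finset S, ∑ u ∈ ρᶜ, z (insert u ρ) = 0 := by
    intro ρ
    rw [← lrn_tw_bd ν, hz2]
    rfl
  have hF : ∀ (s : Finset {v // v ∈ U}) (u : S), u ∉ U →
      z (insert u (s.map (Function.Embedding.subtype _))) = 0 := by
    intro s u hu
    by_contra hne
    exact hu ((hz1 _ hne).2.2 (mem_insert_self _ _))
  obtain ⟨y', hy1, hy2⟩ := h (fun s => z (s.map (Function.Embedding.subtype _))) (by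
    intro s hs
    obtain ⟨h1, h2, -⟩ := hz1 _ hs
    rw [card_map] at h2
    exact ⟨lrn_sph.2 h1, h2⟩) (by
    intro s
    rw [← lrn_tw_sum z s (hF s)]
    exact hzero _)
  have hinj : Function.Injective fun s : Finset {v // v ∈ U} =>
      s.map (Function.Embedding.subtype _) := Finset.map_injective _
  set y : Finset S → ZMod 2 := Function.extend (fun s : Finset {v // v ∈ U} =>
    s.map (Function.Embedding.subtype _)) y' 0 with hy
  have hye : ∀ s, y (s.map (Function.Embedding.subtype _)) = y' s := by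
    intro s
    exact hinj.extend_apply y' 0 s
  have hyn : ∀ τ, y τ ≠ 0 → ∃ s : Finset {v // v ∈ U},
      s.map (Function.Embedding.subtype _) = τ := by
    intro τ hτ
    by_contra hc
    apply hτ
    rw [hy, Function.extend_apply' _ _ _ hc]
    rfl
  refine ⟨y, ?_, ?_⟩
  · intro τ hτ
    obtain ⟨s, rfl⟩ := hyn τ hτ
    rw [hye] at hτ
    obtain ⟨h1, h2⟩ := hy1 s hτ
    exact ⟨lrn_sph.1 h1, by rw [card_map, h2], lrn_tw_sub s⟩
  · funext τ
    rw [lrn_tw_bd]
    by_cases hτ : τ ⊆ U
    · obtain ⟨s, rfl⟩ := lrn_tw_map hτ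
      rw [lrn_tw_sum y s]
      · simp_rw [hye]
        exact hy2 s
      · intro u hu
        by_contra hne
        obtain ⟨s', hs'⟩ := hyn _ hne
        have h1 := lrn_tw_sub s'
        rw [hs'] at h1
        exact hu (h1 (mem_insert_self _ _))
    · have h1 : z τ = 0 := by
        by_contra hne
        exact hτ (hz1 τ hne).2.2
      rw [h1]
      apply sum_eq_zero
      intro u _
      by_contra hne
      obtain ⟨s', hs'⟩ := hyn _ hne
      apply hτ
      have h2 := lrn_tw_sub s'
      rw [hs'] at h2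
      exact (subset_insert _ _).trans h2

/-- exactness for a full subcomplex, from the homology modulo two of the nerve of the parabolic subgroup -/
theorem ex_sub (U : Finset S) {i : ℕ} (h : HL (sub M U) i) (ν : S → ℕ) (hν : Function.Injective ν) :
    Ex ℂ ν (fun σ => Sph M σ ∧ σ.card = i ∧ σ ⊆ U) (fun σ => Sph M σ ∧ σ.card = i + 1 ∧ σ ⊆ U) := by
  refine ex_two ν hν ?_ (lrn_tw_ex h ν)
  rintro τ v hv ⟨h1, h2, h3⟩
  refine ⟨h1.mono (subset_insert _ _), ?_, (subset_insert _ _).trans h3⟩
  rw [Finset.card_insert_of_notMem hv] at h2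
  omega

end Pool.Agent.H65.AB

end

section

/-!
# Project AB: the mixed complex, operator form

`Y` the letters, `F` the finite ones. The cells are the pairs `p = (Q, σ)`; the boundary in the direction `y` is
`- E y` from `(Q \ y, σ ∪ y)` if `y ∈ Q`, and `N σ y` from `(Q, σ ∪ y)` otherwise. If all `N σ y` are 1, then a cycle is
filled by induction on the number of elements of `Q` (helper8, helper10), using the links of the `Q`.
-/

set_option autoImplicit false
set_option linter.unusedSectionVars false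

namespace Pool.Agent.H93.AB

open Finset
open Pool.Agent.H4.Atiyah Pool.Agent.H78.RA

section

open Classical

variable {Y : Type} [Fintype Y] {Γ : Type} [Group Γ]

/-- the cell whose face in the direction `y` is `p` -/
noncomputable def fc (y : Y) (p : Finset Y × Finset Y) : Finset Y × Finset Y :=
  (p.1.erase y, insert y p.2)

/-- the operator of the direction `y` -/
noncomputable def Ty (E : Y → BB Γ) (N : Finset Y → Y → BB Γ) (y : Y) (p : Finset Y × Finset Y) :
    BB Γ := if y ∈ p.1 then -E y else N p.2 y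

/-- the boundary -/
noncomputable def dF (ν : Y → ℕ) (E : Y → BB Γ) (N : Finset Y → Y → BB Γ)
    (f : Finset Y × Finset Y → LL Unit Γ) (p : Finset Y × Finset Y) : LL Unit Γ :=
  ∑ y ∈ (p.2)ᶜ, sg ν p.2 y • Ty E N y p (f (fc y p))

/-- the allowed cells -/
def Al (F : Y → Prop) (K : Finset Y → Prop) (p : Finset Y × Finset Y) : Prop :=
  (∀ y ∈ p.1, F y) ∧ Disjoint p.1 p.2 ∧ K (p.1 ∪ p.2)

theorem fc_union {y : Y} {p : Finset Y × Finset Y} (h : y ∈ p.1) :
    (fc y p).1 ∪ (fc y p).2 = p.1 ∪ p.2 := by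
  ext u
  simp only [fc, mem_union, mem_erase, mem_insert]
  constructor
  · rintro (h1 | h1 | h1)
    · exact Or.inl h1.2
    · exact Or.inl (h1 ▸ h)
    · exact Or.inr h1
  · rintro (h1 | h1)
    · by_cases huy : u = y
      · exact Or.inr (Or.inl huy)
      · exact Or.inl ⟨huy, h1⟩
    · exact Or.inr (Or.inr h1)

theorem al_of_fc {F : Y → Prop} {K : Finset Y → Prop} (hK : ∀ σ τ, τ ⊆ σ → K σ → K τ) {y : Y}
    {p : Finset Y × Finset Y} (hy : y ∉ p.2) (hF : y ∈ p.1 → F y) (h : Al F K (fc y p)) :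
    Al F K p := by
  obtain ⟨h1, h2, h3⟩ := h
  have hd : Disjoint p.1 p.2 := by
    rw [disjoint_left] at h2 ⊢
    intro u hu hu2
    have huy : u ≠ y := fun h => hy (h ▸ hu2)
    exact h2 (mem_erase.2 ⟨huy, hu⟩) (mem_insert_of_mem hu2)
  refine ⟨fun u hu => ?_, hd, ?_⟩
  · by_cases huy : u = y
    · subst huy
      exact hF hu
    · exact h1 u (mem_erase.2 ⟨huy, hu⟩)
  · by_cases hyQ : y ∈ p.1
    · rwa [fc_union hyQ] at h3
    · refine hK _ _ ?_ h3
      unfold fc
      rw [erase_eq_of_notMem hyQ]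
      exact union_subset_union (Subset.refl _) (subset_insert _ _)

/-- the letter of the direction is in the nerve with all letters of the cell -/
theorem k_of_fc {F : Y → Prop} {K : Finset Y → Prop} (hK : ∀ σ τ, τ ⊆ σ → K σ → K τ) {y : Y}
    {p : Finset Y × Finset Y} (h : Al F K (fc y p)) : K (insert y (p.1 ∪ p.2)) := by
  refine hK _ _ ?_ h.2.2
  intro u hu
  rcases mem_insert.1 hu with rfl | hu
  · exact mem_union_right _ (mem_insert_self _ _)
  · by_cases huy : u = y
    · exact mem_union_right _ (huy ▸ mem_insert_self _ _)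
    · rcases mem_union.1 hu with h1 | h1
      · exact mem_union_left _ (mem_erase.2 ⟨huy, h1⟩)
      · exact mem_union_right _ (mem_insert_of_mem h1)

theorem dF_add (ν : Y → ℕ) (E : Y → BB Γ) (N : Finset Y → Y → BB Γ)
    (f g : Finset Y × Finset Y → LL Unit Γ) (p : Finset Y × Finset Y) :
    dF ν E N (fun p => f p + g p) p = dF ν E N f p + dF ν E N g p := by
  unfold dF
  rw [← sum_add_distrib]
  exact sum_congr rfl fun y _ => by rw [map_add, smul_add]

theorem dF_sub (ν : Y → ℕ) (E : Y → BB Γ) (N : Finset Y → Y → BB Γ)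
    (f g : Finset Y × Finset Y → LL Unit Γ) (p : Finset Y × Finset Y) :
    dF ν E N (fun p => f p - g p) p = dF ν E N f p - dF ν E N g p := by
  unfold dF
  rw [← sum_sub_distrib]
  exact sum_congr rfl fun y _ => by rw [map_sub, smul_sub]

/-- the support of the boundary -/
theorem dF_supp {ν : Y → ℕ} {E : Y → BB Γ} {N : Finset Y → Y → BB Γ} {F : Y → Prop}
    {K : Finset Y → Prop} (hK : ∀ σ τ, τ ⊆ σ → K σ → K τ) (hE : ∀ y, ¬ F y → E y = 0)
    {c c' : ℕ → Prop} (hc : ∀ n, c (n + 1) → c' n) {f : Finset Y × Finset Y → LL Unit Γ}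
    (hf : ∀ p, f p ≠ 0 → Al F K p ∧ c p.2.card) (p : Finset Y × Finset Y)
    (h : dF ν E N f p ≠ 0) : Al F K p ∧ c' p.2.card := by
  obtain ⟨y, hy, h1⟩ := exists_ne_zero_of_sum_ne_zero h
  have hy' := mem_compl.1 hy
  have h2 : f (fc y p) ≠ 0 := by
    intro h0
    rw [h0, map_zero, smul_zero] at h1
    exact h1 rfl
  obtain ⟨h3, h4⟩ := hf _ h2
  have h5 : (fc y p).2.card = p.2.card + 1 := card_insert_of_notMem hy'
  rw [h5] at h4
  refine ⟨al_of_fc hK hy' (fun hyQ => ?_) h3, hc _ h4⟩
  by_contra hF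
  apply h1
  unfold Ty
  rw [if_pos hyQ, hE y hF, neg_zero]
  exact smul_zero _

/-- the square of the boundary with all `N σ y` equal to 1 -/
theorem dF_dF {ν : Y → ℕ} (hν : Function.Injective ν) {E : Y → BB Γ} {F : Y → Prop}
    {K : Finset Y → Prop} (hK : ∀ σ τ, τ ⊆ σ → K σ → K τ)
    (hEE : ∀ y z, y ≠ z → K {y, z} → ∀ x, E y (E z x) = E z (E y x))
    {f : Finset Y × Finset Y → LL Unit Γ} (hf : ∀ p, f p ≠ 0 → Al F K p)
    (p : Finset Y × Finset Y) :
    dF ν E (fun _ _ => 1) (dF ν E (fun _ _ => 1) f) p = 0 := by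
  have hT : ∀ y z : Y, z ≠ y → Ty E (fun _ _ => (1 : BB Γ)) z (fc y p) =
      Ty E (fun _ _ => (1 : BB Γ)) z p := by
    intro y z hzy
    unfold Ty
    have h1 : z ∈ (fc y p).1 ↔ z ∈ p.1 := by
      unfold fc
      rw [mem_erase]
      exact ⟨fun h => h.2, fun h => ⟨hzy, h⟩⟩
    by_cases hz : z ∈ p.1
    · rw [if_pos hz, if_pos (h1.2 hz)]
    · rw [if_neg hz, if_neg (fun h => hz (h1.1 h))]
  have hfc : ∀ y z : Y, fc z (fc y p) = fc y (fc z p) := by
    intro y z
    unfold fc
    rw [erase_right_comm, insert_comm]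
  have hsym : ∀ y z : Y, y ≠ z → ∀ x : LL Unit Γ, (x ≠ 0 → K {y, z}) →
      Ty E (fun _ _ => (1 : BB Γ)) y p (Ty E (fun _ _ => (1 : BB Γ)) z p x) =
        Ty E (fun _ _ => (1 : BB Γ)) z p (Ty E (fun _ _ => (1 : BB Γ)) y p x) := by
    intro y z hyz x hx
    by_cases hx0 : x = 0
    · subst hx0
      simp only [map_zero]
    unfold Ty
    by_cases hy : y ∈ p.1
    · by_cases hz : z ∈ p.1
      · rw [if_pos hy, if_pos hz]
        show -(E y (-(E z x))) = -(E z (-(E y x)))
        rw [map_neg, map_neg, hEE y z hyz (hx hx0)]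
      · rw [if_pos hy, if_neg hz]
        rfl
    · by_cases hz : z ∈ p.1
      · rw [if_neg hy, if_pos hz]
        rfl
      · rw [if_neg hy, if_neg hz]
  unfold dF
  have h1 : ∀ y ∈ (p.2)ᶜ, sg ν p.2 y • Ty E (fun _ _ => (1 : BB Γ)) y p
      (∑ z ∈ ((fc y p).2)ᶜ, sg ν (fc y p).2 z • Ty E (fun _ _ => (1 : BB Γ)) z (fc y p)
        (f (fc z (fc y p)))) = ∑ z ∈ (insert y p.2)ᶜ, (sg ν p.2 y * sg ν (insert y p.2) z) •
        Ty E (fun _ _ => (1 : BB Γ)) y p (Ty E (fun _ _ => (1 : BB Γ)) z p
          (f (fc z (fc y p)))) := by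
    intro y _
    rw [map_sum, smul_sum]
    refine sum_congr rfl fun z hz => ?_
    have hzy : z ≠ y := fun h => (mem_compl.1 hz) (h ▸ mem_insert_self _ _)
    rw [map_zsmul, smul_smul, hT y z hzy]
    rfl
  rw [sum_congr rfl h1, sum_sigma']
  apply sum_involution (fun a _ => (⟨a.2, a.1⟩ : (_ : Y) × Y))
  · rintro ⟨v, u⟩ ha
    rw [mem_sigma, mem_compl, mem_compl, mem_insert, not_or] at ha
    obtain ⟨hv, huv, hu⟩ := ha
    show (sg ν p.2 v * sg ν (insert v p.2) u) • Ty E (fun _ _ => (1 : BB Γ)) v p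
        (Ty E (fun _ _ => (1 : BB Γ)) u p (f (fc u (fc v p)))) +
      (sg ν p.2 u * sg ν (insert u p.2) v) • Ty E (fun _ _ => (1 : BB Γ)) u p
        (Ty E (fun _ _ => (1 : BB Γ)) v p (f (fc v (fc u p)))) = 0
    rw [hfc v u, hsym v u (Ne.symm huv) (f (fc v (fc u p))) ?_, ← add_smul, sg_insert ν p.2 u v hv,
      sg_insert ν p.2 v u hu]
    · have hne : ν v ≠ ν u := fun h => huv (hν h).symm
      rcases lt_or_gt_of_ne hne with h | h
      · rw [if_pos h, if_neg (not_lt.2 h.le), show sg ν p.2 v * (sg ν p.2 u * -1)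
          + sg ν p.2 u * (sg ν p.2 v * 1) = 0 by ring, zero_smul]
      · rw [if_neg (not_lt.2 h.le), if_pos h, show sg ν p.2 v * (sg ν p.2 u * 1)
          + sg ν p.2 u * (sg ν p.2 v * -1) = 0 by ring, zero_smul]
    · intro hx
      refine hK _ _ ?_ (hf _ hx).2.2
      intro w hw
      refine mem_union_right _ ?_
      unfold fc
      rcases mem_insert.1 hw with rfl | hw
      · exact mem_insert_self _ _
      · rw [mem_singleton] at hw
        subst hw
        exact mem_insert_of_mem (mem_insert_self _ _)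
  · rintro ⟨v, u⟩ ha _ hc
    rw [mem_sigma, mem_compl, mem_compl, mem_insert, not_or] at ha
    have h2 : u = v := congrArg Sigma.fst hc
    exact ha.2.1 h2
  · rintro ⟨v, u⟩ ha
    rw [mem_sigma, mem_compl, mem_compl, mem_insert, not_or] at ha ⊢
    exact ⟨ha.2.2, fun h => ha.2.1 h.symm, ha.1⟩
  · rintro ⟨v, u⟩ _
    rfl

end

end Pool.Agent.H93.AB

end

section

/-!
# Project AB: exactness of the mixed complex with trivial coefficients

Filtration of a cycle by the number of elements of `Q` (helper8, helper10): the part of a cycle with the smallest `Q`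
consists of simplicial cycles of the links of the `Q`, with values in the invariants.
-/

set_option autoImplicit false
set_option linter.unusedSectionVars false

namespace Pool.Agent.H93.AB

open Finset
open Pool.Agent.H4.Atiyah Pool.Agent.H78.RA Pool.Agent.H3.MX

section

variable {Γ : Type} [Group Γ]

/-- the right translation by `k` -/
noncomputable def Rt (k : Γ) : BB Γ := Eop () () k⁻¹

theorem Rt_apply (k : Γ) (x : LL Unit Γ) (g : Γ) : Rt k x ((), g) = x ((), g * k) := by
  unfold Rt
  rw [Eop_apply, if_pos rfl, inv_inv]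

theorem Kop_Rt {K : Multiset Γ} {k : Γ} (h : ∀ l ∈ K, l * k = k * l) (x : LL Unit Γ) :
    Kop K (Rt k x) = Rt k (Kop K x) := by
  ext ⟨-, g⟩
  rw [Kop_apply, Rt_apply, Kop_apply]
  congr 1
  refine Multiset.map_congr rfl fun l hl => ?_
  rw [Rt_apply, mul_assoc, h l hl, ← mul_assoc]

theorem Rt_Kop {K : Multiset Γ} {k : Γ} (h : K.map (fun l => k * l) = K) (x : LL Unit Γ) :
    Rt k (Kop K x) = Kop K x := by
  ext ⟨-, g⟩
  rw [Rt_apply, Kop_apply, Kop_apply]
  conv_rhs => rw [← h, Multiset.map_map]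
  congr 1
  refine Multiset.map_congr rfl fun l _ => ?_
  rw [Function.comp_apply, mul_assoc]

theorem Kop_sum_Rt (K : Multiset Γ) (x : LL Unit Γ) : Kop K x = (K.map fun k => Rt k x).sum := by
  induction K using Multiset.induction_on with
  | empty =>
    rw [Kop_zero, Multiset.map_zero, Multiset.sum_zero]
    rfl
  | cons h K ih =>
    rw [Kop_cons, Multiset.map_cons, Multiset.sum_cons, ← ih]
    rfl

/-- the sums over `K` commute with an additive map which commutes with the translations -/
theorem map_Kop (φ : LL Unit Γ →+ LL Unit Γ) (K : Multiset Γ)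
    (h : ∀ k ∈ K, ∀ x, φ (Rt k x) = Rt k (φ x)) (x : LL Unit Γ) : φ (Kop K x) = Kop K (φ x) := by
  rw [Kop_sum_Rt, Kop_sum_Rt, map_multiset_sum, Multiset.map_map]
  congr 1
  refine Multiset.map_congr rfl fun k hk => ?_
  rw [Function.comp_apply, h k hk]

theorem Kop_Kop {K L : Multiset Γ} (h : ∀ k ∈ K, ∀ l ∈ L, k * l = l * k) (x : LL Unit Γ) :
    Kop K (Kop L x) = Kop L (Kop K x) :=
  map_Kop ((Kop K : BB Γ) : LL Unit Γ →+ LL Unit Γ) L
    (fun l hl x => Kop_Rt (fun k hk => h k hk l hl) x) x

end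

section

open Classical

variable {Y : Type} [Fintype Y] {Γ : Type} [Group Γ]

/-- the invariants under the `Kf y`, `y ∈ Q` -/
noncomputable def VQ (Kf : Y → Multiset Γ) (Q : Finset Y) : Submodule ℂ (LL Unit Γ) :=
  ⨅ (y : Y) (_ : y ∈ Q) (k : Γ) (_ : k ∈ Kf y), kr (Rt k - 1)

theorem mem_VQ {Kf : Y → Multiset Γ} {Q : Finset Y} {x : LL Unit Γ} :
    x ∈ VQ Kf Q ↔ ∀ y ∈ Q, ∀ k ∈ Kf y, Rt k x = x := by
  unfold VQ
  simp only [Submodule.mem_iInf, mem_kr]
  constructor
  · intro h y hy k hk
    have h1 : Rt k x - x = 0 := h y hy k hk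
    exact sub_eq_zero.1 h1
  · intro h y hy k hk
    show Rt k x - x = 0
    exact sub_eq_zero.2 (h y hy k hk)

/-- the boundary preserves the invariants -/
theorem dF_inv {ν : Y → ℕ} {N : Finset Y → Y → BB Γ} {F : Y → Prop} {K : Finset Y → Prop}
    (hK : ∀ σ τ, τ ⊆ σ → K σ → K τ) {Kf : Y → Multiset Γ}
    (hgrp : ∀ y, ∀ k ∈ Kf y, (Kf y).map (fun l => k * l) = Kf y)
    (hcom : ∀ y z, y ≠ z → K {y, z} → ∀ k ∈ Kf y, ∀ l ∈ Kf z, k * l = l * k)
    (hRN : ∀ τ y z, y ∉ τ → z ∉ τ → z ≠ y → K (insert z (insert y τ)) → ∀ k ∈ Kf z, ∀ x,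
      Rt k (N τ y x) = N τ y (Rt k x))
    {f : Finset Y × Finset Y → LL Unit Γ} (hf : ∀ p, f p ≠ 0 → Al F K p)
    (hf2 : ∀ p, f p ∈ VQ Kf p.1) (p : Finset Y × Finset Y) :
    dF ν (fun y => Kop (Kf y)) N f p ∈ VQ Kf p.1 := by
  refine Submodule.sum_mem _ fun y hy => ?_
  refine Submodule.smul_of_tower_mem _ _ ?_
  have hy' := mem_compl.1 hy
  by_cases h0 : f (fc y p) = 0
  · rw [h0, map_zero]
    exact Submodule.zero_mem _
  have hAl := hf _ h0
  have h2 := hf2 (fc y p)
  have hKy := k_of_fc hK hAl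
  rw [mem_VQ] at h2 ⊢
  intro z hz k hk
  unfold Ty
  by_cases hyQ : y ∈ p.1
  · rw [if_pos hyQ]
    show Rt k (-(Kop (Kf y) (f (fc y p)))) = -(Kop (Kf y) (f (fc y p)))
    rw [map_neg]
    congr 1
    by_cases hzy : z = y
    · subst hzy
      exact Rt_Kop (hgrp z k hk) _
    · rw [← Kop_Rt (fun l hl => ?_), h2 z (mem_erase.2 ⟨hzy, hz⟩) k hk]
      refine hcom y z (Ne.symm hzy) (hK _ _ ?_ hKy) l hl k hk
      intro w hw
      rcases mem_insert.1 hw with rfl | hw
      · exact mem_insert_self _ _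
      · rw [mem_singleton] at hw
        subst hw
        exact mem_insert_of_mem (mem_union_left _ hz)
  · rw [if_neg hyQ]
    have hzy : z ≠ y := fun h => hyQ (h ▸ hz)
    have hd := hAl.2.1
    have hz1 : z ∈ (fc y p).1 := mem_erase.2 ⟨hzy, hz⟩
    have hzσ : z ∉ p.2 := fun h => disjoint_left.1 hd hz1 (mem_insert_of_mem h)
    rw [hRN p.2 y z hy' hzσ hzy (hK _ _ ?_ hKy) k hk, h2 z hz1 k hk]
    intro w hw
    rcases mem_insert.1 hw with rfl | hw
    · exact mem_insert_of_mem (mem_union_left _ hz)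
    · rcases mem_insert.1 hw with rfl | hw
      · exact mem_insert_self _ _
      · exact mem_insert_of_mem (mem_union_right _ hw)

/-- the link of `Q` -/
def Lk (K : Finset Y → Prop) (Q : Finset Y) (j : ℕ) (σ : Finset Y) : Prop :=
  Disjoint Q σ ∧ K (Q ∪ σ) ∧ σ.card = j

private theorem tri_aux {ν : Y → ℕ} (hν : Function.Injective ν) {F : Y → Prop}
    {K : Finset Y → Prop} (hK : ∀ σ τ, τ ⊆ σ → K σ → K τ) {Kf : Y → Multiset Γ}
    (hF : ∀ y, ¬ F y → Kf y = 0)
    (hgrp : ∀ y, ∀ k ∈ Kf y, (Kf y).map (fun l => k * l) = Kf y)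
    (hcom : ∀ y z, y ≠ z → K {y, z} → ∀ k ∈ Kf y, ∀ l ∈ Kf z, k * l = l * k) {i : ℕ}
    (hex : ∀ Q : Finset Y, (∀ y ∈ Q, F y) → K Q → Ex ℂ ν (Lk K Q i) (Lk K Q (i + 1))) (n : ℕ) :
    ∀ a, a + n = Fintype.card Y + 1 → ∀ f : Finset Y × Finset Y → LL Unit Γ,
    (∀ p, f p ≠ 0 → Al F K p ∧ p.2.card = i) → (∀ p, f p ∈ VQ Kf p.1) →
    (∀ p, dF ν (fun y => Kop (Kf y)) (fun _ _ => 1) f p = 0) → (∀ p, f p ≠ 0 → a ≤ p.1.card) →
    ∃ w : Finset Y × Finset Y → LL Unit Γ, (∀ p, w p ≠ 0 → Al F K p ∧ p.2.card = i + 1) ∧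
      (∀ p, w p ∈ VQ Kf p.1) ∧ ∀ p, dF ν (fun y => Kop (Kf y)) (fun _ _ => 1) w p = f p := by
  have hE0 : ∀ y, ¬ F y → (Kop (Kf y) : BB Γ) = 0 := fun y hy => by rw [hF y hy, Kop_zero]
  have hz : ∀ p, dF ν (fun y => Kop (Kf y)) (fun _ _ => (1 : BB Γ))
      (fun _ => (0 : LL Unit Γ)) p = 0 := by
    intro p
    unfold dF
    exact sum_eq_zero fun y _ => by rw [map_zero, smul_zero]
  have hEE : ∀ y z, y ≠ z → K {y, z} → ∀ x : LL Unit Γ, (Kop (Kf y) : BB Γ) (Kop (Kf z) x) =
      Kop (Kf z) (Kop (Kf y) x) := fun y z hyz hyzK x => Kop_Kop (hcom y z hyz hyzK) x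
  have hRN : ∀ (τ : Finset Y) (y z : Y), y ∉ τ → z ∉ τ → z ≠ y → K (insert z (insert y τ)) →
      ∀ k ∈ Kf z, ∀ x : LL Unit Γ, Rt k ((1 : BB Γ) x) = (1 : BB Γ) (Rt k x) :=
    fun _ _ _ _ _ _ _ _ _ _ => rfl
  induction n with
  | zero =>
    intro a ha f hf1 hf2 hf3 hf4
    have h0 : ∀ p, f p = 0 := by
      intro p
      by_contra h
      have h1 := hf4 p h
      have h2 := card_le_univ p.1
      omega
    exact ⟨fun _ => 0, fun p h => absurd rfl h, fun p => Submodule.zero_mem _, fun p => by
      rw [hz, h0]⟩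
  | succ n ih =>
    intro a ha f hf1 hf2 hf3 hf4
    -- the simplicial boundary of a component
    have hcmp : ∀ (g : Finset Y × Finset Y → LL Unit Γ) (Q σ : Finset Y), Q.card = a →
        (∀ p, g p ≠ 0 → Disjoint p.1 p.2) → (∀ p, p.1.card < a → g p = 0) →
        dF ν (fun y => Kop (Kf y)) (fun _ _ => 1) g (Q, σ) = bd ν (fun σ => g (Q, σ)) σ := by
      intro g Q σ hQ hg1 hg2
      unfold dF bd
      refine sum_congr rfl fun y _ => ?_
      beta_reduce
      congr 1
      unfold Ty fc
      beta_reduce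
      by_cases hy : y ∈ Q
      · have h1 : g (Q.erase y, insert y σ) = 0 := by
          apply hg2
          show (Q.erase y).card < a
          rw [card_erase_of_mem hy]
          have := card_pos.2 ⟨y, hy⟩
          omega
        have h2 : g (Q, insert y σ) = 0 := by
          by_contra h
          exact disjoint_left.1 (hg1 _ h) hy (mem_insert_self _ _)
        rw [h2, if_pos hy]
        show -(Kop (Kf y) (g (Q.erase y, insert y σ))) = 0
        rw [h1, map_zero, neg_zero]
      · rw [if_neg hy, erase_eq_of_notMem hy]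
        rfl
    have hflow : ∀ p, p.1.card < a → f p = 0 := by
      intro p hp
      by_contra h
      have := hf4 p h
      omega
    -- fill the components with `a` elements
    have hfill : ∀ Q : Finset Y, ∃ y : Finset Y → LL Unit Γ, Q.card = a →
        (∀ σ, y σ ∈ VQ Kf Q) ∧ (∀ σ, y σ ≠ 0 → (∀ u ∈ Q, F u) ∧ Lk K Q (i + 1) σ) ∧
        ∀ σ, bd ν y σ = f (Q, σ) := by
      intro Q
      by_cases hQ : Q.card = a
      swap
      · exact ⟨fun _ => 0, fun h => absurd h hQ⟩
      by_cases hQ2 : (∀ y ∈ Q, F y) ∧ K Q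
      · obtain ⟨y, hy1, hy2, hy3⟩ := Pool.Agent.H65.BU.ex_coeff (hex Q hQ2.1 hQ2.2) (fun σ => f (Q, σ))
          (fun σ hσ => ⟨(hf1 _ hσ).1.2.1, (hf1 _ hσ).1.2.2, (hf1 _ hσ).2⟩) (by
            funext σ
            rw [← hcmp f Q σ hQ (fun p h => (hf1 p h).1.2.1) hflow]
            exact hf3 _)
        refine ⟨y, fun _ => ⟨fun σ => ?_, fun σ hσ => ⟨hQ2.1, hy2 σ hσ⟩, fun σ => by rw [hy3]⟩⟩
        have hle : Submodule.span ℂ (Set.range fun σ => f (Q, σ)) ≤ VQ Kf Q := by
          rw [Submodule.span_le]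
          rintro _ ⟨τ, rfl⟩
          exact hf2 (Q, τ)
        exact hle (hy1 σ)
      · have h0 : ∀ σ, f (Q, σ) = 0 := by
          intro σ
          by_contra h
          have h1 := (hf1 _ h).1
          exact hQ2 ⟨h1.1, hK _ _ subset_union_left h1.2.2⟩
        refine ⟨fun _ => 0, fun _ => ⟨fun σ => Submodule.zero_mem _, fun σ h => absurd rfl h,
          fun σ => ?_⟩⟩
        rw [h0]
        unfold bd
        exact sum_eq_zero fun _ _ => smul_zero _
    choose y hy using hfill
    let w0 : Finset Y × Finset Y → LL Unit Γ := fun p => if p.1.card = a then y p.1 p.2 else 0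
    have hw01 : ∀ p, w0 p ≠ 0 → Al F K p ∧ p.2.card = i + 1 := by
      intro p hp
      by_cases hpa : p.1.card = a
      · have h1 : w0 p = y p.1 p.2 := if_pos hpa
        rw [h1] at hp
        obtain ⟨h2, h3, h4, h5⟩ := (hy p.1 hpa).2.1 p.2 hp
        exact ⟨⟨h2, h3, h4⟩, h5⟩
      · exact absurd (if_neg hpa) hp
    have hw02 : ∀ p, w0 p ∈ VQ Kf p.1 := by
      intro p
      by_cases hpa : p.1.card = a
      · have h1 : w0 p = y p.1 p.2 := if_pos hpa
        rw [h1]
        exact (hy p.1 hpa).1 p.2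
      · have h1 : w0 p = 0 := if_neg hpa
        rw [h1]
        exact Submodule.zero_mem _
    have hw03 : ∀ p, p.1.card < a → w0 p = 0 := fun p hp => if_neg (by omega)
    -- the rest
    obtain ⟨w, hw1, hw2, hw3⟩ := ih (a + 1) (by omega)
      (fun p => f p - dF ν (fun y => Kop (Kf y)) (fun _ _ => 1) w0 p) (fun p hp => by
        by_cases h1 : f p = 0
        · have h2 : dF ν (fun y => Kop (Kf y)) (fun _ _ => 1) w0 p ≠ 0 := by
            intro h3
            apply hp
            rw [h1, h3, sub_zero]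
          exact dF_supp hK hE0 (c := fun n => n = i + 1) (c' := fun n => n = i)
            (fun n hn => by omega) hw01 p h2
        · exact hf1 p h1)
      (fun p => Submodule.sub_mem _ (hf2 p)
        (dF_inv hK hgrp hcom hRN (fun p h => (hw01 p h).1) hw02 p))
      (fun p => by
        rw [dF_sub, hf3, dF_dF hν hK hEE (fun p h => (hw01 p h).1), sub_zero])
      (fun p hp => by
        by_contra h
        have h4 : p.1.card ≤ a := by omega
        apply hp
        rcases lt_or_eq_of_le h4 with h5 | h5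
        · rw [hflow p h5, zero_sub, neg_eq_zero]
          unfold dF
          refine sum_eq_zero fun u _ => ?_
          rw [hw03 (fc u p), map_zero, smul_zero]
          exact lt_of_le_of_lt (card_le_card (erase_subset _ _)) h5
        · obtain ⟨Q, σ⟩ := p
          rw [hcmp w0 Q σ h5 (fun p h => (hw01 p h).1.2.1) hw03]
          have h6 : (fun σ => w0 (Q, σ)) = y Q := by
            funext τ
            exact if_pos h5
          rw [h6, (hy Q h5).2.2, sub_self])
    refine ⟨fun p => w0 p + w p, fun p hp => ?_, fun p => Submodule.add_mem _ (hw02 p) (hw2 p),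
      fun p => ?_⟩
    · by_cases h1 : w0 p = 0
      · refine hw1 p fun h2 => hp ?_
        beta_reduce
        rw [h1, h2, add_zero]
      · exact hw01 p h1
    · rw [dF_add, hw3]
      abel

/-- **Exactness with trivial coefficients**, from the exactness of the links. -/
theorem exact_tri {ν : Y → ℕ} (hν : Function.Injective ν) {F : Y → Prop}
    {K : Finset Y → Prop} (hK : ∀ σ τ, τ ⊆ σ → K σ → K τ) {Kf : Y → Multiset Γ}
    (hF : ∀ y, ¬ F y → Kf y = 0)
    (hgrp : ∀ y, ∀ k ∈ Kf y, (Kf y).map (fun l => k * l) = Kf y)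
    (hcom : ∀ y z, y ≠ z → K {y, z} → ∀ k ∈ Kf y, ∀ l ∈ Kf z, k * l = l * k) {i : ℕ}
    (hex : ∀ Q : Finset Y, (∀ y ∈ Q, F y) → K Q → Ex ℂ ν (Lk K Q i) (Lk K Q (i + 1)))
    (f : Finset Y × Finset Y → LL Unit Γ) (hf1 : ∀ p, f p ≠ 0 → Al F K p ∧ p.2.card = i)
    (hf2 : ∀ p, f p ∈ VQ Kf p.1)
    (hf3 : ∀ p, dF ν (fun y => Kop (Kf y)) (fun _ _ => 1) f p = 0) :
    ∃ w : Finset Y × Finset Y → LL Unit Γ, (∀ p, w p ≠ 0 → Al F K p ∧ p.2.card = i + 1) ∧
      (∀ p, w p ∈ VQ Kf p.1) ∧ ∀ p, dF ν (fun y => Kop (Kf y)) (fun _ _ => 1) w p = f p :=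
  tri_aux hν hK hF hgrp hcom hex (Fintype.card Y + 1) 0 (by omega) f hf1 hf2 hf3
    fun _ _ => Nat.zero_le _

end

end Pool.Agent.H93.AB

end
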