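import Pool.Agent.H71.TSG.M35
import Pool.Agent.H71.TSG.M67

/-! The parts of this file: H42.NU.Ord, H42.NU.Dih, H42.NU.Mats. -/

section

/-!
# NCU A1: the order of `s s'` in a Coxeter group is exactly `M s s'`

`M_ne_zero`: if `M s s' = 0` then `s ≠ s'` (the diagonal entries are `1`), and
`Pool.Agent.H73.HVN.pow_ne_one_of_eq_zero` (imported, module `H73/HVN/Geom.lean`) says
`(s s')^n ≠ 1` for all `n ≠ 0`, but `W` is finite (`isOfFinOrder_of_finite`, `orderOf_pos`, `pow_orderOf_eq_one`).

`pow_ne_one`: let `m = M s s' ≥ 2` (`M.off_diagonal`: it is `≠ 1`), `θ = π / m`, `0 < j < m`. Use the geometric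
representation. The module `H73/HVN/Geom.lean` contains everything needed, but as private lemmas
(`geom_pow`, `geomR`, `geomR_mul`, `geomR_liftable`, `geomF_single`, ...): copy them into this file (rename; keep them
private), the file is `/workdir/pool/Pool/Agent/H73/HVN/Geom.lean` (also in origin/main). `geom_pow` gives, for
`P = R_s R_{s'}` on `S →₀ ℝ`, real numbers `x, y` with `x sin θ = sin (j θ)`, `y sin θ = sin ((j+1) θ)` and
`P^j v = v + (-2 x (f v x + g v y)) • a + (-2 x (f v (2 c x - y) + g v x)) • b`, `a = single s 1`, `b = single s' 1`,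
`f a = 1`, `g b = 1`, `f b = g a = -c`, `c = cos θ`.
If `(s s')^j = 1` then `P^j = 1` (apply `cs.lift ⟨geomR M, _⟩`), so with `v = b` (`f v = -c`, `g v = 1`)
the coefficient of `a`: `x (y - c x) = 0`, and with `v = a` (`f v = 1`, `g v = -c`): `x (x - c y) = 0`. Now `x ≠ 0` unless
`sin (j θ) = 0`, but `0 < j θ < π` (as `0 < j < m`), so `sin (j θ) > 0` and `x > 0`. Hence `y = c x`, `x = c y = c² x`,
`c² = 1`, contradiction to `0 < sin θ` (`0 < θ < π`, `m ≥ 2`), `sin² + cos² = 1`.
-/

set_option autoImplicit false

namespace H42.NU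

universe u v

section ordgeom

variable {B : Type v} {M : CoxeterMatrix B}

/-! ### the product of two reflections -/

private theorem ord_geom_pow {V : Type v} [AddCommGroup V] [Module ℝ V] (f g : V →ₗ[ℝ] ℝ) (a b : V)
    (c : ℝ) (θ : ℝ) (hθ : c = Real.cos θ) (hfa : f a = 1) (hgb : g b = 1) (hfb : f b = -c)
    (hga : g a = -c) (P : V →ₗ[ℝ] V)
    (hP : ∀ v, P v = v - (2 * g v) • b - (2 * f v + 4 * c * g v) • a) (n : ℕ) :
    ∃ s t : ℝ, s * Real.sin θ = Real.sin (n * θ) ∧ t * Real.sin θ = Real.sin ((n + 1) * θ) ∧
      t ^ 2 - 2 * c * s * t + s ^ 2 = 1 ∧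
      ∀ v, (P ^ n) v = v + (-2 * s * (f v * s + g v * t)) • a +
        (-2 * s * (f v * (2 * c * s - t) + g v * s)) • b := by
  induction n with
  | zero =>
    refine ⟨0, 1, by simp, by simp, by ring, fun v => ?_⟩
    simp
  | succ n ih =>
    obtain ⟨s, t, hs, ht, hst, hv⟩ := ih
    refine ⟨t, 2 * c * t - s, ?_, ?_, by linear_combination hst, fun v => ?_⟩
    · rw [ht]
      push_cast
      ring_nf
    · have h1 : Real.sin ((n + 1 + 1) * θ) =
          2 * Real.cos θ * Real.sin ((n + 1) * θ) - Real.sin (n * θ) := by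
        have e1 : ((n : ℝ) + 1 + 1) * θ = (n + 1) * θ + θ := by ring
        have e2 : (n : ℝ) * θ = (n + 1) * θ - θ := by ring
        rw [e1, e2, Real.sin_add, Real.sin_sub]
        ring
      push_cast
      rw [h1, ← ht, ← hs, hθ]
      ring
    · have hf : f ((P ^ n) v) = f v + (-2 * s * (f v * s + g v * t)) -
          c * (-2 * s * (f v * (2 * c * s - t) + g v * s)) := by
        rw [hv v, map_add, map_add, map_smul, map_smul, hfa, hfb]
        simp only [smul_eq_mul]
        ring
      have hg : g ((P ^ n) v) = g v - c * (-2 * s * (f v * s + g v * t)) +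
          (-2 * s * (f v * (2 * c * s - t) + g v * s)) := by
        rw [hv v, map_add, map_add, map_smul, map_smul, hga, hgb]
        simp only [smul_eq_mul]
        ring
      rw [pow_succ', Module.End.mul_apply, hP ((P ^ n) v), hf, hg, hv v]
      generalize f v = x
      generalize g v = y
      have e1 : (-2 * t * (x * t + y * (2 * c * t - s))) =
          (-2 * s * (x * s + y * t)) -
          (2 * (x + -2 * s * (x * s + y * t) - c * (-2 * s * (x * (2 * c * s - t) + y * s))) +
            4 * c * (y - c * (-2 * s * (x * s + y * t)) +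
              -2 * s * (x * (2 * c * s - t) + y * s))) := by
        linear_combination (-(2 * x + 4 * c * y)) * hst
      have e2 : (-2 * t * (x * (2 * c * t - (2 * c * t - s)) + y * t)) =
          (-2 * s * (x * (2 * c * s - t) + y * s)) -
          2 * (y - c * (-2 * s * (x * s + y * t)) +
              -2 * s * (x * (2 * c * s - t) + y * s)) := by
        linear_combination (-(2 * y)) * hst
      rw [e1, e2]
      module

private theorem ord_geom_pow_eq_one {V : Type v} [AddCommGroup V] [Module ℝ V] (f g : V →ₗ[ℝ] ℝ)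
    (a b : V) (m : ℕ) (hm : 2 ≤ m) (hfa : f a = 1) (hgb : g b = 1)
    (hfb : f b = -Real.cos (Real.pi / m)) (hga : g a = -Real.cos (Real.pi / m)) (P : V →ₗ[ℝ] V)
    (hP : ∀ v, P v = v - (2 * g v) • b - (2 * f v + 4 * Real.cos (Real.pi / m) * g v) • a) :
    P ^ m = 1 := by
  obtain ⟨s, t, hs, -, -, hv⟩ := ord_geom_pow f g a b _ (Real.pi / m) rfl hfa hgb hfb hga P hP m
  have hm0 : (0 : ℝ) < m := by exact_mod_cast (by omega : 0 < m)
  have h1 : (m : ℝ) * (Real.pi / m) = Real.pi := by field_simp
  rw [h1, Real.sin_pi] at hs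
  have h2 : 0 < Real.sin (Real.pi / m) := by
    apply Real.sin_pos_of_pos_of_lt_pi
    · exact div_pos Real.pi_pos hm0
    · rw [div_lt_iff₀ hm0]
      have h3 : (2 : ℝ) ≤ m := by exact_mod_cast hm
      nlinarith [Real.pi_pos]
  have h3 : s = 0 := by
    rcases mul_eq_zero.1 hs with h | h
    · exact h
    · exact absurd h h2.ne'
  ext v
  rw [hv v, h3]
  simp

/-! ### the geometric representation -/

/-- the bilinear form on the simple roots -/
private noncomputable def ord_geomK (M : CoxeterMatrix B) (i j : B) : ℝ :=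
  if M i j = 0 then -1 else -Real.cos (Real.pi / M i j)

private theorem ord_geomK_symm (i j : B) : ord_geomK M i j = ord_geomK M j i := by
  unfold ord_geomK
  rw [M.symmetric i j]

private theorem ord_geomK_self (i : B) : ord_geomK M i i = 1 := by
  unfold ord_geomK
  rw [M.diagonal i]
  simp

/-- the form with the simple root number `i` -/
private noncomputable def ord_geomF (M : CoxeterMatrix B) (i : B) : (B →₀ ℝ) →ₗ[ℝ] ℝ :=
  Finsupp.linearCombination ℝ (fun j => ord_geomK M i j)

private theorem ord_geomF_single (i j : B) : ord_geomF M i (Finsupp.single j 1) = ord_geomK M i j := by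
  unfold ord_geomF
  rw [Finsupp.linearCombination_single, one_smul]

/-- the reflection number `i` -/
private noncomputable def ord_geomR (M : CoxeterMatrix B) (i : B) : Module.End ℝ (B →₀ ℝ) :=
  LinearMap.id - (2 : ℝ) • (ord_geomF M i).smulRight (Finsupp.single i 1)

private theorem ord_geomR_apply (i : B) (v : B →₀ ℝ) :
    ord_geomR M i v = v - (2 * ord_geomF M i v) • Finsupp.single i (1 : ℝ) := by
  unfold ord_geomR
  rw [LinearMap.sub_apply, LinearMap.smul_apply, LinearMap.smulRight_apply, LinearMap.id_apply,
    smul_smul]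

private theorem ord_geomR_mul (i j : B) (v : B →₀ ℝ) :
    (ord_geomR M i * ord_geomR M j) v = v - (2 * ord_geomF M j v) • Finsupp.single j (1 : ℝ) -
      (2 * ord_geomF M i v + 4 * (-ord_geomK M i j) * ord_geomF M j v) • Finsupp.single i (1 : ℝ) := by
  rw [Module.End.mul_apply, ord_geomR_apply, ord_geomR_apply, map_sub, map_smul, ord_geomF_single]
  congr 2
  simp only [smul_eq_mul]
  ring

private theorem ord_geomR_liftable : M.IsLiftable (ord_geomR M) := by
  intro i j
  rcases Nat.eq_zero_or_pos (M i j) with h0 | h0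
  · rw [h0, pow_zero]
  by_cases hij : i = j
  · subst hij
    rw [M.diagonal i, pow_one]
    refine LinearMap.ext fun v => ?_
    rw [ord_geomR_mul, ord_geomK_self, Module.End.one_apply]
    module
  · have h1 : M i j ≠ 1 := M.off_diagonal i j hij
    have hk : ord_geomK M i j = -Real.cos (Real.pi / M i j) := by
      unfold ord_geomK
      rw [if_neg h0.ne']
    refine ord_geom_pow_eq_one (ord_geomF M i) (ord_geomF M j) (Finsupp.single i 1) (Finsupp.single j 1)
      (M i j) (by omega) ?_ ?_ ?_ ?_ _ fun v => ?_
    · rw [ord_geomF_single, ord_geomK_self]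
    · rw [ord_geomF_single, ord_geomK_self]
    · rw [ord_geomF_single, hk]
    · rw [ord_geomF_single, ord_geomK_symm, hk]
    · rw [ord_geomR_mul, hk, neg_neg]

end ordgeom

variable {S : Type u} {W : Type v} [Group W] {M : CoxeterMatrix S} (cs : CoxeterSystem M W)

include cs

theorem M_ne_zero [Finite W] (s s' : S) : M s s' ≠ 0 := by
  intro h
  exact Pool.Agent.H73.HVN.pow_ne_one_of_eq_zero cs h
    (orderOf_pos (cs.simple s * cs.simple s')).ne' (pow_orderOf_eq_one _)

theorem pow_ne_one {s s' : S} (h : s ≠ s') (hM : M s s' ≠ 0) {j : ℕ} (hj : 0 < j)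
    (hj' : j < M s s') : (cs.simple s * cs.simple s') ^ j ≠ 1 := by
  intro h1
  have hm2 : 2 ≤ M s s' := by
    have h2 := M.off_diagonal s s' h
    omega
  have hm0 : (0 : ℝ) < (M s s' : ℝ) := by exact_mod_cast (by omega : 0 < M s s')
  have hm2' : (2 : ℝ) ≤ (M s s' : ℝ) := by exact_mod_cast hm2
  have hk : ord_geomK M s s' = -Real.cos (Real.pi / M s s') := by
    unfold ord_geomK
    rw [if_neg hM]
  have hk' : ord_geomK M s' s = -Real.cos (Real.pi / M s s') := by
    rw [ord_geomK_symm, hk]
  have h2 := congrArg (cs.lift ⟨ord_geomR M, ord_geomR_liftable⟩) h1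
  rw [map_pow, map_mul, map_one, cs.lift_apply_simple, cs.lift_apply_simple] at h2
  obtain ⟨x, y, hx, -, -, hv⟩ := ord_geom_pow (ord_geomF M s) (ord_geomF M s')
    (Finsupp.single s 1) (Finsupp.single s' 1) (Real.cos (Real.pi / M s s')) (Real.pi / M s s') rfl
    (by rw [ord_geomF_single, ord_geomK_self]) (by rw [ord_geomF_single, ord_geomK_self])
    (by rw [ord_geomF_single, hk]) (by rw [ord_geomF_single, hk'])
    (ord_geomR M s * ord_geomR M s') (fun v => by rw [ord_geomR_mul, hk, neg_neg]) j
  have hcoef : ∀ v, -2 * x * (ord_geomF M s v * x + ord_geomF M s' v * y) = 0 := by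
    intro v
    have h3 := hv v
    rw [h2, Module.End.one_apply] at h3
    have h4 := congrArg (fun w : S →₀ ℝ => w s) h3
    simp only [Finsupp.add_apply, Finsupp.smul_apply, Finsupp.single_eq_same, smul_eq_mul] at h4
    rw [Finsupp.single_eq_of_ne h] at h4
    linarith
  have hj0 : (0 : ℝ) < (j : ℝ) := by exact_mod_cast hj
  have hjm : (j : ℝ) < (M s s' : ℝ) := by exact_mod_cast hj'
  have hsin : 0 < Real.sin (Real.pi / M s s') := by
    apply Real.sin_pos_of_pos_of_lt_pi
    · exact div_pos Real.pi_pos hm0
    · rw [div_lt_iff₀ hm0]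
      nlinarith [Real.pi_pos]
  have hsinj : 0 < Real.sin (j * (Real.pi / M s s')) := by
    apply Real.sin_pos_of_pos_of_lt_pi
    · exact mul_pos hj0 (div_pos Real.pi_pos hm0)
    · rw [mul_div_assoc', div_lt_iff₀ hm0]
      nlinarith [Real.pi_pos]
  have hx0 : x ≠ 0 := by
    rintro rfl
    rw [zero_mul] at hx
    exact hsinj.ne hx
  have e1 := hcoef (Finsupp.single s' 1)
  have e2 := hcoef (Finsupp.single s 1)
  rw [ord_geomF_single, ord_geomF_single, hk, ord_geomK_self] at e1
  rw [ord_geomF_single, ord_geomF_single, hk', ord_geomK_self] at e2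
  have hc := Real.sin_sq_add_cos_sq (Real.pi / M s s')
  generalize Real.cos (Real.pi / M s s') = c at e1 e2 hc
  have f1 : y = c * x := by
    have h3 : -2 * x ≠ 0 := mul_ne_zero (by norm_num) hx0
    have h4 := (mul_eq_zero.mp e1).resolve_left h3
    linarith
  have f2 : x = c * y := by
    have h3 : -2 * x ≠ 0 := mul_ne_zero (by norm_num) hx0
    have h4 := (mul_eq_zero.mp e2).resolve_left h3
    linarith
  have f3 : x * (1 - c ^ 2) = 0 := by
    rw [f1] at f2
    linear_combination f2
  have f4 := (mul_eq_zero.mp f3).resolve_left hx0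
  have f5 : 0 < Real.sin (Real.pi / M s s') ^ 2 := by positivity
  linarith

end H42.NU

end

section

/-!
# NCU A2: dihedral cosets

Notation: `z_n = pr cs.simple s s' n`, `z'_n = pr cs.simple s' s n`, `m = M s s' ≠ 0` (so `m ≥ 2`), `L = {s, s'}`,
`WP cs L` the parabolic subgroup (module `H73/HVN/Parab.lean`; useful theorems there, namespace `Pool.Agent.H73.HVN`:
`exists_reduced_word_mem`, `mem_of_isReduced`, `right_descent_mem`, `length_mul_of_min`, `exists_min`, `strong_exchange`).

Auxiliary facts on `pr` (in any monoid / group), by induction: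
 * `z_{2k} = (s s')^k`, `z_{2k+1} = (s s')^k s`;  `pr f s s' (n+1) = f s * pr f s' s n`;
 * `z'_j⁻¹ * z_i = (s s')^((i+j)/2)` when `i + j` is even (for involutions `s`, `s'`), and `z_j⁻¹ z_i = z_{i-j}`-type
   identities: for `j ≤ i`, `i - j` even, `z_i = z_j` implies `(s s')^((i-j)/2) = 1` or `(s' s)^((i-j)/2) = 1`
   (cancel the common first letters).
`dih_top`: `z_m = z'_m` from `(s s')^m = 1` (`cs.simple_mul_simple_pow`). (Mathlib: `wordProd_braidWord_eq`,
`alternatingWord`; but it may be easier to do it directly: `z'_m⁻¹ z_m = (s s')^m = 1`.)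

`pr_mem`: products of elements of `cs.simple '' L`.

`dih_len` for `v = 1`: `ℓ(z_n) = n` for `n ≤ m`. Suppose not; take a reduced word `ω` of `z_n` with letters in `L`
(`exists_reduced_word_mem`), `ω.length = ℓ(z_n) < n` (`length_wordProd_le`) and `ℓ(z_n) ≡ n mod 2`
(`cs.length_mul_mod_two` or `lengthParity`). A reduced word has no two equal neighbouring letters, so, its letters being
in `{s, s'}`, it is alternating: `z_n = z_k` or `z_n = z'_k` with `k = ω.length < n`, `k ≡ n mod 2`. (Lemma: a reduced word
with letters in `{s, s'}` has `wordProd = pr s s' length` or `pr s' s length`: induction from the left with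
`pr f s s' (n+1) = f s * pr f s' s n`.) In the first case `(s s')^((n-k)/2) = 1` with `0 < (n-k)/2 < m`, in the second
`(s s')^((n+k)/2) = 1` with `0 < (n+k)/2 < n ≤ m`: contradiction to `pow_ne_one` (also for `s' s`, use
`M.symmetric`).
General `v`: `length_mul_of_min` with `L` (`hu : ∀ i ∈ L, ¬ descent`), `pr_mem`: `ℓ(v z_n) = ℓ(v) + ℓ(z_n) = ℓ(v) + n`.

`dih_asc`: from `dih_len` for `n` and `n + 1`.

`dih_cases`: `exists_min` with `L`: `w = v l`, `l ∈ WP L`, `v` without right descent in `L`. By the lemma on words
`l = z_k` or `l = z'_k` with `k = ℓ(l)`; if `k > m` then `z_k = z_m * (rest)`... simpler: `k = ℓ(l)` and the word is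
reduced so `k ≤ m`: otherwise its first `m+1` letters form a reduced word (`IsReduced.take`), but
`not_isReduced_alternatingWord` in Mathlib, or directly: `z_{m+1} = z_m * letter = z'_m * letter` where `letter` is the last
letter of `z'_m` so `z_{m+1} = z'_{m-1}` has length `≤ m - 1`.
-/

set_option autoImplicit false

namespace H42.NU

open Pool.Agent.H73.HVN

universe u v w

variable {S : Type u} {W : Type v} [Group W] {M : CoxeterMatrix S} (cs : CoxeterSystem M W)

private theorem dih_lt_succ (s s' : S) (n : ℕ) : lt s s' (n + 1) = lt s' s n := by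
  unfold lt
  by_cases h : n % 2 = 0
  · rw [if_pos h, if_neg (by omega)]
  · rw [if_neg h, if_pos (by omega)]

private theorem dih_lt_mem (s s' : S) (n : ℕ) : lt s s' n ∈ ({s, s'} : Set S) := by
  unfold lt
  split_ifs
  · exact Or.inl rfl
  · exact Or.inr rfl

theorem pr_succ' {G : Type w} [Monoid G] (f : S → G) (s s' : S) (n : ℕ) :
    pr f s s' (n + 1) = f s * pr f s' s n := by
  induction n with
  | zero =>
    show 1 * f (lt s s' 0) = f s * 1
    rw [one_mul, mul_one]
    rfl
  | succ n ih =>
    show pr f s s' (n + 1) * f (lt s s' (n + 1)) = f s * (pr f s' s n * f (lt s' s n))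
    rw [ih, dih_lt_succ, mul_assoc]

private theorem dih_even {G : Type w} [Monoid G] (f : S → G) (s s' : S) (k : ℕ) :
    pr f s s' (2 * k) = (f s * f s') ^ k := by
  induction k with
  | zero => rw [pow_zero]; rfl
  | succ k ih =>
    rw [pow_succ', ← ih]
    show pr f s s' (2 * k + 1 + 1) = _
    rw [pr_succ', pr_succ', mul_assoc]

theorem pr_mem (s s' : S) (n : ℕ) : pr cs.simple s s' n ∈ WP cs ({s, s'} : Set S) := by
  induction n with
  | zero => exact one_mem _
  | succ n ih => exact mul_mem ih (Subgroup.subset_closure ⟨_, dih_lt_mem s s' n, rfl⟩)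

private theorem dih_same (k n : ℕ) : ∀ (s s' : S), pr cs.simple s s' k = pr cs.simple s s' (n + k) →
    pr cs.simple s s' n = 1 ∨ pr cs.simple s' s n = 1 := by
  induction k with
  | zero =>
    intro s s' h
    exact Or.inl h.symm
  | succ k ih =>
    intro s s' h
    rw [← add_assoc, pr_succ', pr_succ', mul_right_inj] at h
    exact (ih s' s h).symm

private theorem dih_diff (k : ℕ) : ∀ (s s' : S) (n : ℕ), pr cs.simple s' s k = pr cs.simple s s' n →
    pr cs.simple s s' (n + k) = 1 ∨ pr cs.simple s' s (n + k) = 1 := by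
  induction k with
  | zero =>
    intro s s' n h
    exact Or.inl h.symm
  | succ k ih =>
    intro s s' n h
    have h1 : pr cs.simple s s' k = pr cs.simple s' s (n + 1) := by
      rw [pr_succ', ← h, pr_succ', cs.simple_mul_simple_cancel_left]
    have h2 := ih s' s (n + 1) h1
    rw [show n + 1 + k = n + (k + 1) by omega] at h2
    exact h2.symm

private theorem dih_of_one (k : ℕ) : ∀ (s s' : S) (n : ℕ), pr cs.simple s s' (n + k) = 1 →
    pr cs.simple s' s (n + k) = 1 → pr cs.simple s' s k = pr cs.simple s s' n := by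
  induction k with
  | zero =>
    intro s s' n h _
    exact h.symm
  | succ k ih =>
    intro s s' n h h'
    have h1 := ih s' s (n + 1) (by rw [show n + 1 + k = n + (k + 1) by omega]; exact h')
      (by rw [show n + 1 + k = n + (k + 1) by omega]; exact h)
    rw [pr_succ', h1, pr_succ', cs.simple_mul_simple_cancel_left]

theorem dih_top (s s' : S) : pr cs.simple s s' (M s s') = pr cs.simple s' s (M s s') := by
  refine (dih_of_one cs (M s s') s s' (M s s') ?_ ?_).symm
  · rw [← two_mul, dih_even, cs.simple_mul_simple_pow]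
  · rw [← two_mul, dih_even, cs.simple_mul_simple_pow']

/-- reduced words in two letters are alternating -/
private theorem dih_word (s s' : S) (ω : List S) (hω : cs.IsReduced ω)
    (hL : ∀ i ∈ ω, i ∈ ({s, s'} : Set S)) :
    (cs.wordProd ω = pr cs.simple s s' ω.length ∧ ω.head? ≠ some s' ∨
      cs.wordProd ω = pr cs.simple s' s ω.length ∧ ω.head? ≠ some s) ∨ s = s' := by
  by_cases hss : s = s'
  · exact Or.inr hss
  left
  induction ω with
  | nil =>
    left
    exact ⟨by rw [cs.wordProd_nil]; rfl, by simp⟩
  | cons i ω ih =>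
    have h1 : cs.IsReduced ω := by
      have := hω.drop 1
      simpa using this
    have h2 := ih h1 (fun k hk => hL k (List.mem_cons_of_mem _ hk))
    have hne : ω.head? ≠ some i := by
      intro h
      cases ω with
      | nil => simp at h
      | cons j ω =>
        have hj : j = i := by simpa using h
        subst hj
        have h3 := hω.eq
        rw [cs.wordProd_cons, cs.wordProd_cons, cs.simple_mul_simple_cancel_left] at h3
        have h4 := cs.length_wordProd_le ω
        rw [h3] at h4
        simp at h4
    rw [cs.wordProd_cons, List.length_cons]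
    rcases hL i (List.mem_cons_self) with hi | hi
    · subst hi
      left
      refine ⟨?_, by simpa using hss⟩
      rw [pr_succ']
      rcases h2 with ⟨h2, h3⟩ | ⟨h2, h3⟩
      · cases ω with
        | nil => rw [cs.wordProd_nil]; rfl
        | cons j ω =>
          exfalso
          rcases hL j (by simp) with hj | hj
          · subst hj
            exact hne (by simp)
          · rw [Set.mem_singleton_iff] at hj
            subst hj
            exact h3 (by simp)
      · rw [h2]
    · rw [Set.mem_singleton_iff] at hi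
      subst hi
      right
      refine ⟨?_, by simpa using fun h => hss h.symm⟩
      rw [pr_succ']
      rcases h2 with ⟨h2, h3⟩ | ⟨h2, h3⟩
      · rw [h2]
      · cases ω with
        | nil => rw [cs.wordProd_nil]; rfl
        | cons j ω =>
          exfalso
          rcases hL j (by simp) with hj | hj
          · subst hj
            exact h3 (by simp)
          · rw [Set.mem_singleton_iff] at hj
            subst hj
            exact hne (by simp)

private theorem dih_len_le (s s' : S) (n : ℕ) : cs.length (pr cs.simple s s' n) ≤ n ∧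
    cs.length (pr cs.simple s s' n) % 2 = n % 2 := by
  induction n with
  | zero =>
    show cs.length 1 ≤ 0 ∧ cs.length 1 % 2 = 0 % 2
    rw [cs.length_one]
    exact ⟨le_rfl, rfl⟩
  | succ n ih =>
    have h1 := cs.length_mul_simple (pr cs.simple s s' n) (lt s s' n)
    show cs.length (pr cs.simple s s' n * cs.simple (lt s s' n)) ≤ n + 1 ∧
      cs.length (pr cs.simple s s' n * cs.simple (lt s s' n)) % 2 = (n + 1) % 2
    omega

private theorem dih_len_add (s s' : S) (a b : ℕ) : cs.length (pr cs.simple s s' (a + b)) ≤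
    cs.length (pr cs.simple s s' a) + b := by
  induction b with
  | zero => exact le_rfl
  | succ b ih =>
    have h1 := cs.length_mul_simple (pr cs.simple s s' (a + b)) (lt s s' (a + b))
    show cs.length (pr cs.simple s s' (a + b) * cs.simple (lt s s' (a + b))) ≤ _
    omega

private theorem dih_pow {s s' : S} (hne : s ≠ s') (hM : M s s' ≠ 0) {j : ℕ} (hj : 0 < j)
    (hj' : j < 2 * M s s') (he : j % 2 = 0) :
    ¬ (pr cs.simple s s' j = 1 ∨ pr cs.simple s' s j = 1) := by
  obtain ⟨i, rfl⟩ : ∃ i, j = 2 * i := ⟨j / 2, by omega⟩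
  rw [dih_even, dih_even]
  rintro (h | h)
  · exact pow_ne_one cs hne hM (by omega) (by omega) h
  · exact pow_ne_one cs hne.symm (by rwa [M.symmetric s' s]) (by omega)
      (by rw [M.symmetric s' s]; omega) h

private theorem dih_len_one {s s' : S} (hne : s ≠ s') (hM : M s s' ≠ 0) {n : ℕ}
    (hn : n ≤ M s s') : cs.length (pr cs.simple s s' n) = n := by
  obtain ⟨h1, h2⟩ := dih_len_le cs s s' n
  by_contra hcon
  obtain ⟨ω, hω, hz, hL⟩ := exists_reduced_word_mem cs (pr_mem cs s s' n)
  have h3 := hω.eq
  rw [← hz] at h3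
  rcases dih_word cs s s' ω hω hL with (⟨h, -⟩ | ⟨h, -⟩) | h
  · rw [← hz] at h
    have h4 := dih_same cs ω.length (n - ω.length) s s'
      (by rw [show n - ω.length + ω.length = n by omega]; exact h.symm)
    exact dih_pow cs hne hM (by omega) (by omega) (by omega) h4
  · rw [← hz] at h
    have h4 := dih_diff cs ω.length s s' n h.symm
    exact dih_pow cs hne hM (by omega) (by omega) (by omega) h4
  · exact hne h

theorem dih_len {s s' : S} (hne : s ≠ s') (hM : M s s' ≠ 0) {v : W}
    (h1 : ¬ cs.IsRightDescent v s) (h2 : ¬ cs.IsRightDescent v s') {n : ℕ} (hn : n ≤ M s s') :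
    cs.length (v * pr cs.simple s s' n) = cs.length v + n := by
  rw [length_mul_of_min cs (L := {s, s'}) ?_ (pr_mem cs s s' n), dih_len_one cs hne hM hn]
  intro i hi
  rcases hi with hi | hi
  · subst hi
    exact h1
  · rw [Set.mem_singleton_iff] at hi
    subst hi
    exact h2

theorem dih_asc {s s' : S} (hne : s ≠ s') (hM : M s s' ≠ 0) {v : W}
    (h1 : ¬ cs.IsRightDescent v s) (h2 : ¬ cs.IsRightDescent v s') {n : ℕ} (hn : n < M s s') :
    ¬ cs.IsRightDescent (v * pr cs.simple s s' n) (lt s s' n) := by
  intro h
  unfold CoxeterSystem.IsRightDescent at h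
  have h3 := dih_len cs hne hM h1 h2 (n := n) hn.le
  have h4 := dih_len cs hne hM h1 h2 (n := n + 1) hn
  rw [mul_assoc] at h
  have h5 : pr cs.simple s s' n * cs.simple (lt s s' n) = pr cs.simple s s' (n + 1) := rfl
  rw [h5] at h
  omega

private theorem dih_bound {s s' : S} (hM : M s s' ≠ 0) {k : ℕ}
    (hk : cs.length (pr cs.simple s s' k) = k) : k ≤ M s s' := by
  by_contra hcon
  obtain ⟨j, rfl⟩ : ∃ j, k = M s s' + 1 + j := ⟨k - (M s s' + 1), by omega⟩
  obtain ⟨m, hm⟩ : ∃ m, M s s' = m + 1 := ⟨M s s' - 1, by omega⟩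
  have h1 := dih_len_add cs s s' (M s s' + 1) j
  have h2 : pr cs.simple s s' (M s s' + 1) = pr cs.simple s' s m := by
    show pr cs.simple s s' (M s s') * cs.simple (lt s s' (M s s')) = _
    rw [dih_top]
    rw [hm, dih_lt_succ]
    show pr cs.simple s' s m * cs.simple (lt s' s m) * cs.simple (lt s' s m) = _
    rw [cs.simple_mul_simple_cancel_right]
  have h3 := (dih_len_le cs s' s m).1
  rw [h2] at h1
  omega

theorem dih_cases {s s' : S} (hne : s ≠ s') (hM : M s s' ≠ 0) (w : W) :
    ∃ (v : W) (n : ℕ), ¬ cs.IsRightDescent v s ∧ ¬ cs.IsRightDescent v s' ∧ n ≤ M s s' ∧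
      (w = v * pr cs.simple s s' n ∨ w = v * pr cs.simple s' s n) := by
  obtain ⟨v, l, hv, hl, hw⟩ := exists_min cs ({s, s'} : Set S) w
  obtain ⟨ω, hω, hz, hL⟩ := exists_reduced_word_mem cs hl
  have h3 := hω.eq
  refine ⟨v, ω.length, hv s (Or.inl rfl), hv s' (Or.inr rfl), ?_, ?_⟩
  · rcases dih_word cs s s' ω hω hL with (⟨h, -⟩ | ⟨h, -⟩) | h
    · rw [h] at h3
      exact dih_bound cs hM h3
    · rw [h] at h3
      have h4 := dih_bound cs (s := s') (s' := s) (by rwa [M.symmetric s' s]) h3
      rwa [M.symmetric s' s] at h4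
    · exact absurd h hne
  · rcases dih_word cs s s' ω hω hL with (⟨h, -⟩ | ⟨h, -⟩) | h
    · left
      rw [hw, hz, h]
    · right
      rw [hw, hz, h]
    · exact absurd h hne

end H42.NU

end

section

/-!
# NCU A3: the positive lift is well defined (Matsumoto)

`M` is a Coxeter matrix, `W` finite, so all `M s s' ≠ 0` (`M_ne_zero cs`). Let `f : S → G` satisfy the braid
relations (`Artin M f`) in a monoid `G`. Define the relation
`inductive LR : W → G → Prop | one : LR 1 1 | step : LR w g → ¬ cs.IsRightDescent w s → LR (w * cs.simple s) (g * f s)`.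
Existence: for every `w` there is `g` with `LR w g`: induction on `ℓ(w)`; if `w ≠ 1` take a right descent `s`
(`exists_rightDescent_of_ne_one`), `w = (w s) s`, and `s` is not a descent of `w s`
(`isRightDescent_iff_not_isRightDescent_mul`).
Uniqueness: by strong induction on `ℓ(w)`: `LR w g → LR w g' → g = g'`. Inversion: `LR w g` means `w = 1, g = 1` or
`w = w₁ s`, `g = g₁ f(s)`, `LR w₁ g₁`, `s` not a descent of `w₁` (so `ℓ(w) = ℓ(w₁) + 1`, `w₁ = w s`). For `w = 1` a step is
impossible by the length. Let both be steps with `s`, `s'`. If `s = s'` then `w₁ = w₁'` and the induction hypothesis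
applies. Let `s ≠ s'`. By `dih_cases` for `(s, s')`: `w = v z_n` or `w = v z'_n` with `z_n = pr cs.simple s s' n`,
`n ≤ m = M s s'`, `v` having neither `s` nor `s'` as right descent; both `s` and `s'` are right descents of `w`.
Then `n = m`: if `n < m` then by `dih_asc` the letter `lt s s' n ∈ {s, s'}` is not a right descent of `v z_n`
(same for `z'`). So `w = v z_m = v z'_m` (`dih_top`; `M.symmetric`). Let `LR v g₀` (existence). Along both arms
(`dih_asc`) `LR (v z_k) (g₀ * pr f s s' k)` and `LR (v z'_k) (g₀ * pr f s' s k)` for all `k ≤ m`. The last letter of `z_m` is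
`lt s s' (m-1)` and that of `z'_m` is `lt s' s (m-1)`, the other one (`m ≥ 1`). Say `s = lt s s' (m-1)` (the other case is
symmetric): `w₁ = w s = v z_{m-1}` and by the induction hypothesis `g₁ = g₀ * pr f s s' (m-1)`, so
`g = g₁ f(s) = g₀ * pr f s s' m`; and `w₁' = w s' = v z'_{m-1}`, `g₁' = g₀ * pr f s' s (m-1)`, `g' = g₀ * pr f s' s m`. They
are equal by `Artin`.
`exists_lift`: choose `lift w` with `LR w (lift w)`; the equations follow from uniqueness.
`lift_wordProd`: induction on the reduced word from the right (`List.reverseRecOn`, `IsReduced.take`).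
`lift_mul`: induction on `ℓ(z)`: `z = 1` clear; otherwise `z = z₁ s`, `ℓ(z) = ℓ(z₁) + 1`; from
`ℓ(x z) = ℓ(x) + ℓ(z)` we get `ℓ(x z₁) = ℓ(x) + ℓ(z₁)` (`≤` by `length_mul_le`, `≥` since `ℓ(x z) ≤ ℓ(x z₁) + 1`) and `s` is
not a descent of `x z₁`; apply `step` twice.
`lift_descent`: `w = (w s) s` and `s` is not a right descent of `w s`.
-/

set_option autoImplicit false

namespace H42.NU

open Pool.Agent.H73.HVN

universe u v w

variable {S : Type u} {W : Type v} [Group W] {M : CoxeterMatrix S} (cs : CoxeterSystem M W)
  {G : Type w} [Monoid G] {σ : S → G} {lift : W → G}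

/-- the pairs of an element and a value of the lift -/
private inductive MatsLR (cs : CoxeterSystem M W) (σ : S → G) : W → G → Prop
  | one : MatsLR cs σ 1 1
  | step {x : W} {g : G} {s : S} : MatsLR cs σ x g → ¬ cs.IsRightDescent x s →
      MatsLR cs σ (x * cs.simple s) (g * σ s)

private theorem MatsLR_exists (σ : S → G) : ∀ (n : ℕ) (x : W), cs.length x = n →
    ∃ g, MatsLR cs σ x g := by
  intro n
  induction n with
  | zero =>
    intro x hx
    have h1 : x = 1 := cs.length_eq_zero_iff.1 hx
    subst h1
    exact ⟨1, MatsLR.one⟩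
  | succ n ih =>
    intro x hx
    have h1 : x ≠ 1 := by
      rintro rfl
      simp at hx
    obtain ⟨s, hs⟩ := cs.exists_rightDescent_of_ne_one h1
    have h2 := cs.isRightDescent_iff.1 hs
    obtain ⟨g, hg⟩ := ih (x * cs.simple s) (by omega)
    have h3 := (cs.isRightDescent_iff_not_isRightDescent_mul).1 hs
    have h4 := MatsLR.step hg h3
    rw [mul_assoc, cs.simple_mul_simple_self, mul_one] at h4
    exact ⟨_, h4⟩

private theorem MatsLR_inv {σ : S → G} {x : W} {g : G} (h : MatsLR cs σ x g) :
    (x = 1 ∧ g = 1) ∨ ∃ (y : W) (g' : G) (s : S), MatsLR cs σ y g' ∧ ¬ cs.IsRightDescent y s ∧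
      x = y * cs.simple s ∧ g = g' * σ s := by
  cases h with
  | one => exact Or.inl ⟨rfl, rfl⟩
  | step h1 h2 => exact Or.inr ⟨_, _, _, h1, h2, rfl, rfl⟩

private theorem MatsLR_arm {σ : S → G} {a b : S} (hab : a ≠ b) (hM : M a b ≠ 0) {v : W} {g₀ : G}
    (hv : MatsLR cs σ v g₀) (h1 : ¬ cs.IsRightDescent v a) (h2 : ¬ cs.IsRightDescent v b) :
    ∀ k ≤ M a b, MatsLR cs σ (v * pr cs.simple a b k) (g₀ * pr σ a b k) := by
  intro k
  induction k with
  | zero => intro _; simpa [pr] using hv
  | succ k ih =>
    intro hk
    have h3 := MatsLR.step (ih (by omega)) (dih_asc cs hab hM h1 h2 (n := k) (by omega))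
    rw [mul_assoc, mul_assoc] at h3
    exact h3

private theorem MatsLR_end {σ : S → G} {a b c : S} (hab : a ≠ b) (hM : M a b ≠ 0) {v x : W}
    {g₀ g₁ : G} (hv : MatsLR cs σ v g₀) (h1 : ¬ cs.IsRightDescent v a)
    (h2 : ¬ cs.IsRightDescent v b) {k : ℕ} (hk : k < M a b) (hc : lt a b k = c)
    (hx : v * pr cs.simple a b (k + 1) = x * cs.simple c)
    (IH : ∀ g g', MatsLR cs σ x g → MatsLR cs σ x g' → g = g') (hg : MatsLR cs σ x g₁) :
    g₁ * σ c = g₀ * pr σ a b (k + 1) := by
  have e1 : v * pr cs.simple a b (k + 1) = (v * pr cs.simple a b k) * cs.simple c := by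
    change v * (pr cs.simple a b k * cs.simple (lt a b k)) = _
    rw [hc, mul_assoc]
  have e2 : v * pr cs.simple a b k = x := mul_right_cancel (e1.symm.trans hx)
  have h3 := MatsLR_arm cs hab hM hv h1 h2 k hk.le
  rw [e2] at h3
  rw [IH _ _ hg h3]
  change _ = g₀ * (pr σ a b k * σ (lt a b k))
  rw [hc, mul_assoc]

private theorem MatsLR_len {x : W} {s : S} (h : ¬ cs.IsRightDescent x s) :
    cs.length (x * cs.simple s) = cs.length x + 1 := cs.not_isRightDescent_iff.1 h

private theorem MatsLR_desc {x : W} {s : S} (h : ¬ cs.IsRightDescent x s) :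
    cs.IsRightDescent (x * cs.simple s) s := by
  by_contra hc
  have h1 := MatsLR_len cs h
  have h2 := MatsLR_len cs hc
  rw [mul_assoc, cs.simple_mul_simple_self, mul_one] at h2
  omega

private theorem MatsLR_unique [Finite W] {σ : S → G} (h : Artin M σ) : ∀ (n : ℕ) (x : W),
    cs.length x ≤ n → ∀ g g', MatsLR cs σ x g → MatsLR cs σ x g' → g = g' := by
  intro n
  induction n with
  | zero =>
    intro x hx g g' h1 h2
    rcases MatsLR_inv cs h1 with ⟨-, e1⟩ | ⟨y, g1, s, -, hy, rfl, -⟩
    · rcases MatsLR_inv cs h2 with ⟨-, e2⟩ | ⟨y, g1, s, -, hy, rfl, -⟩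
      · rw [e1, e2]
      · have := MatsLR_len cs hy
        omega
    · have := MatsLR_len cs hy
      omega
  | succ n ih =>
    intro x hx g g' h1 h2
    rcases MatsLR_inv cs h1 with ⟨e0, e1⟩ | ⟨y, g1, s, hg1, hy, hxy, rfl⟩
    · rcases MatsLR_inv cs h2 with ⟨-, e2⟩ | ⟨y, g1, s, -, hy, hxy, -⟩
      · rw [e1, e2]
      · have := MatsLR_len cs hy
        rw [← hxy, e0, cs.length_one] at this
        omega
    · rcases MatsLR_inv cs h2 with ⟨e0, -⟩ | ⟨y', g1', s', hg1', hy', hxy', rfl⟩
      · have := MatsLR_len cs hy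
        rw [← hxy, e0, cs.length_one] at this
        omega
      · have l1 := MatsLR_len cs hy
        have l2 := MatsLR_len cs hy'
        rw [← hxy] at l1
        rw [← hxy'] at l2
        by_cases hss : s = s'
        · subst hss
          have e : y = y' := mul_right_cancel (hxy.symm.trans hxy')
          subst e
          rw [ih y (by omega) _ _ hg1 hg1']
        · have d1 : cs.IsRightDescent x s := by rw [hxy]; exact MatsLR_desc cs hy
          have d2 : cs.IsRightDescent x s' := by rw [hxy']; exact MatsLR_desc cs hy'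
          have hM := M_ne_zero cs s s'
          have hM' := M_ne_zero cs s' s
          have hsym : M s' s = M s s' := M.symmetric s' s
          have hss' : s' ≠ s := fun e => hss e.symm
          obtain ⟨v, m, hv1, hv2, hm, hxv⟩ := dih_cases cs hss hM x
          have hlt : ∀ (a b : S) (k : ℕ), lt a b k = a ∨ lt a b k = b := by
            intro a b k
            unfold lt
            split
            · exact Or.inl rfl
            · exact Or.inr rfl
          have hmm : m = M s s' := by
            by_contra hne
            have hlt' : m < M s s' := lt_of_le_of_ne hm hne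
            rcases hxv with e | e
            · have h3 := dih_asc cs hss hM hv1 hv2 hlt'
              rw [← e] at h3
              rcases hlt s s' m with h4 | h4
              · rw [h4] at h3; exact h3 d1
              · rw [h4] at h3; exact h3 d2
            · have h3 := dih_asc cs hss' hM' hv2 hv1 (n := m) (by rw [hsym]; exact hlt')
              rw [← e] at h3
              rcases hlt s' s m with h4 | h4
              · rw [h4] at h3; exact h3 d2
              · rw [h4] at h3; exact h3 d1
          have htop := dih_top cs s s'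
          subst hmm
          have x1 : x = v * pr cs.simple s s' (M s s') := by
            rcases hxv with e | e
            · exact e
            · rw [htop]; exact e
          have x2 : x = v * pr cs.simple s' s (M s s') := by
            rw [← htop]; exact x1
          obtain ⟨g₀, hg₀⟩ := MatsLR_exists cs σ _ v rfl
          obtain ⟨k, hk⟩ : ∃ k, M s s' = k + 1 := ⟨M s s' - 1, by omega⟩
          have hA := h s s' hss
          rw [hk] at x1 x2 hA
          have IH1 := ih y (by omega)
          have IH2 := ih y' (by omega)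
          rcases Nat.mod_two_eq_zero_or_one k with hp | hp
          · have c1 : lt s s' k = s := by unfold lt; rw [if_pos hp]
            have c2 : lt s' s k = s' := by unfold lt; rw [if_pos hp]
            have e1 := MatsLR_end cs hss hM hg₀ hv1 hv2 (k := k) (by omega) c1
              (x1.symm.trans hxy) IH1 hg1
            have e2 := MatsLR_end cs hss' hM' hg₀ hv2 hv1 (k := k) (by omega) c2
              (x2.symm.trans hxy') IH2 hg1'
            rw [e1, e2, hA]
          · have c1 : lt s s' k = s' := by unfold lt; rw [if_neg (by omega)]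
            have c2 : lt s' s k = s := by unfold lt; rw [if_neg (by omega)]
            have e1 := MatsLR_end cs hss hM hg₀ hv1 hv2 (k := k) (by omega) c1
              (x1.symm.trans hxy') IH2 hg1'
            have e2 := MatsLR_end cs hss' hM' hg₀ hv2 hv1 (k := k) (by omega) c2
              (x2.symm.trans hxy) IH1 hg1
            rw [e1, e2, hA]

theorem exists_lift [Finite W] (σ : S → G) (h : Artin M σ) : ∃ lift : W → G, IsLift cs σ lift := by
  choose f hf using fun x : W => MatsLR_exists cs σ _ x rfl
  refine ⟨f, ?_, ?_⟩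
  · exact MatsLR_unique cs h _ 1 le_rfl _ _ (hf 1) MatsLR.one
  · intro x s hs
    exact MatsLR_unique cs h _ _ le_rfl _ _ (hf _) (MatsLR.step (hf x) hs)

variable {cs}

theorem lift_wordProd (hl : IsLift cs σ lift) {ω : List S} (hω : cs.IsReduced ω) :
    lift (cs.wordProd ω) = (ω.map σ).prod := by
  induction ω using List.reverseRecOn with
  | nil => simpa using hl.one
  | append_singleton l s ih =>
    have h1 : cs.IsReduced l := by
      have := hω.take l.length
      rwa [List.take_left] at this
    have h2 : ¬ cs.IsRightDescent (cs.wordProd l) s := by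
      rw [cs.not_isRightDescent_iff]
      have h3 := hω.eq
      rw [cs.wordProd_append, cs.wordProd_singleton, List.length_append, List.length_singleton] at h3
      rw [h3, h1.eq]
    rw [cs.wordProd_append, cs.wordProd_singleton, hl.step _ _ h2, ih h1]
    simp

private theorem Mats_descent (hl : IsLift cs σ lift) {w : W} {s : S} (h : cs.IsRightDescent w s) :
    lift w = lift (w * cs.simple s) * σ s := by
  have h1 := (cs.isRightDescent_iff_not_isRightDescent_mul).1 h
  have h2 := hl.step _ _ h1
  rwa [mul_assoc, cs.simple_mul_simple_self, mul_one] at h2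

theorem lift_mul (hl : IsLift cs σ lift) {x z : W}
    (h : cs.length (x * z) = cs.length x + cs.length z) : lift (x * z) = lift x * lift z := by
  have key : ∀ (n : ℕ) (z : W), cs.length z = n → cs.length (x * z) = cs.length x + cs.length z →
      lift (x * z) = lift x * lift z := by
    intro n
    induction n with
    | zero =>
      intro z hz _
      have h1 : z = 1 := cs.length_eq_zero_iff.1 hz
      subst h1
      rw [mul_one, hl.one, mul_one]
    | succ n ih =>
      intro z hz hxz
      have h1 : z ≠ 1 := by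
        rintro rfl
        simp at hz
      obtain ⟨s, hs⟩ := cs.exists_rightDescent_of_ne_one h1
      have h2 := cs.isRightDescent_iff.1 hs
      have h3 := cs.length_mul_le x (z * cs.simple s)
      have h4 := cs.length_mul_simple (x * z) s
      rw [mul_assoc] at h4
      have h5 := ih (z * cs.simple s) (by omega) (by omega)
      have h6 : cs.IsRightDescent (x * z) s := by
        rw [cs.isRightDescent_iff, mul_assoc]
        omega
      rw [Mats_descent hl h6, mul_assoc, h5, Mats_descent hl hs, mul_assoc]
  exact key _ z rfl h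

theorem lift_descent (hl : IsLift cs σ lift) {w : W} {s : S} (h : cs.IsRightDescent w s) :
    lift w = lift (w * cs.simple s) * σ s := by
  exact Mats_descent hl h

theorem lift_simple (hl : IsLift cs σ lift) (s : S) : lift (cs.simple s) = σ s := by
  have h := hl.step 1 s (cs.not_isRightDescent_one s)
  rwa [one_mul, hl.one, one_mul] at h

end H42.NU

end
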