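import Pool.Agent.H71.TSG.M55
import Pool.Agent.H71.TSG.M74
import Pool.Agent.H71.TSG.M75
import Pool.Agent.H71.TSG.M78

/-! The parts of this file: H65.BU.Coh, H65.BU.Sum, H78.RA.Cpx, H78.RA.Fn, H3.MX.Sub, H78.RA.Gen, H78.RC.Long, H85.AA.Cross, H85.AA.FullRoot, H85.AA.Lift, H93.AA.Ex, H93.AA.Lift, H93.AA.Fac, H93.AA.L2, H93.AB.Gen. -/

section

/-!
# Project BU: coherence of the polynomials `Ps`

PROOF of `Ps_forget`: `res (σ.erase v) (sgn σ b) = sgn (σ.erase v) b`; then this is `step_in` / `step_out` of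
`H65/RA/Psi.lean` (private there: copy the two lemmas).
-/

set_option autoImplicit false
set_option linter.unusedSectionVars false

open Finset

namespace Pool.Agent.H65.BU

open Pool.Agent.H65.RA

variable {V : Type} [DecidableEq V]

theorem res_sgn {X σ : Finset V} (h : X ⊆ σ) (b : V → Bool) : res X (sgn σ b) = sgn X b := by
  ext q
  unfold res
  rw [mem_filter, mem_sgn, mem_sgn]
  constructor
  · rintro ⟨⟨-, h2⟩, h3⟩
    exact ⟨h3, h2⟩
  · rintro ⟨h1, h2⟩
    exact ⟨⟨h h1, h2⟩, h1⟩

variable {G : SimpleGraph V} (e : V → ℕ) (x : Finset V → ZMod 2) (k : ℕ)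

private theorem step_out {σ τ : Finset V} {v : V} (hvτ : v ∉ τ)
    (g : Finset (V × Bool) → Finset (V × Bool) → ZMod 2) :
    ∑ S ∈ bet G σ τ, ∑ A ∈ S.powerset,
      FS e x k S (ep σ τ A) * g (sgn (σ.erase v) (sA S A)) (sgn τ (sB A)) =
    Ps G e x k g (σ.erase v) τ := by
  unfold Ps
  have hsub : bet G (σ.erase v) τ ⊆ bet G σ τ := by
    intro S hS
    rw [mem_bet] at hS ⊢
    refine ⟨hS.1.trans (union_subset_union (erase_subset v σ) (Subset.refl τ)), ?_, hS.2.2⟩
    intro u hu
    rw [mem_inter] at hu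
    refine hS.2.1 (mem_inter.2 ⟨mem_erase.2 ⟨fun h => hvτ (h ▸ hu.2), hu.1⟩, hu.2⟩)
  rw [← sum_subset hsub]
  · refine sum_congr rfl fun S hS => sum_congr rfl fun A _ => ?_
    congr 1
    refine FS_congr e x k fun u hu => ?_
    have huv : u ≠ v := by
      intro h
      rw [mem_bet] at hS
      have h1 := hS.1 hu
      rw [mem_union, mem_erase] at h1
      rcases h1 with h1 | h1
      · exact h1.1 h
      · exact hvτ (h ▸ h1)
    unfold ep
    simp only [mem_union, mem_inter, mem_sdiff, mem_erase]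
    tauto
  · intro S hS hS'
    have hvS : v ∈ S := by
      by_contra h
      apply hS'
      rw [mem_bet] at hS ⊢
      refine ⟨fun u hu => ?_, fun u hu => ?_, hS.2.2⟩
      · have huv : u ≠ v := fun h' => h (h' ▸ hu)
        have h1 := hS.1 hu
        rw [mem_union] at h1 ⊢
        rw [mem_erase]
        tauto
      · rw [mem_inter] at hu
        exact hS.2.1 (mem_inter.2 ⟨mem_of_mem_erase hu.1, hu.2⟩)
    obtain ⟨S', hvS', rfl⟩ : ∃ S', v ∉ S' ∧ S = insert v S' :=
      ⟨S.erase v, notMem_erase v S, (insert_erase hvS).symm⟩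
    rw [sum_powerset_insert hvS', ← sum_add_distrib]
    refine sum_eq_zero fun A hA => ?_
    rw [mem_powerset] at hA
    have hvA : v ∉ A := fun h => hvS' (hA h)
    have h1 : FS e x k (insert v S') (ep σ τ (insert v A)) =
        FS e x k (insert v S') (ep σ τ A) := by
      refine FS_congr e x k fun u _ => ?_
      unfold ep
      simp only [mem_union, mem_inter, mem_sdiff, mem_insert]
      constructor
      · rintro (⟨h2 | h2, h3, h4⟩ | h2)
        · exact absurd (h2 ▸ h4) hvτ
        · exact Or.inl ⟨h2, h3, h4⟩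
        · exact Or.inr h2
      · rintro (⟨h2, h3, h4⟩ | h2)
        · exact Or.inl ⟨Or.inr h2, h3, h4⟩
        · exact Or.inr h2
    have h2 : sgn (σ.erase v) (sA (insert v S') (insert v A)) =
        sgn (σ.erase v) (sA (insert v S') A) := by
      refine sgn_congr fun u hu => ?_
      unfold sA
      rw [decide_eq_decide, mem_insert]
      have := ne_of_mem_erase hu
      tauto
    have h3 : sgn τ (sB (insert v A)) = sgn τ (sB A) := by
      refine sgn_congr fun u hu => ?_
      unfold sB
      rw [decide_eq_decide, mem_insert]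
      have : u ≠ v := fun h => hvτ (h ▸ hu)
      tauto
    rw [h1, h2, h3]
    exact z2_add_self _

private theorem step_in {σ τ : Finset V} (hσ : G.IsClique (σ : Set V))
    (hτ : G.IsClique (τ : Set V)) {v : V} (hvσ : v ∈ σ) (hvτ : v ∈ τ)
    (g : Finset (V × Bool) → Finset (V × Bool) → ZMod 2) :
    ∑ S ∈ bet G σ τ, ∑ A ∈ S.powerset,
      FS e x k S (ep σ τ A) * g (sgn (σ.erase v) (sA S A)) (sgn τ (sB A)) =
    Ps G e x k g (σ.erase v) τ := by
  classical
  have hU : σ.erase v ∪ τ = σ ∪ τ := by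
    ext u
    simp only [mem_union, mem_erase]
    constructor
    · rintro (⟨_, h⟩ | h)
      · exact Or.inl h
      · exact Or.inr h
    · rintro (h | h)
      · by_cases huv : u = v
        · exact Or.inr (huv ▸ hvτ)
        · exact Or.inl ⟨huv, h⟩
      · exact Or.inr h
  have hmem1 : ∀ S, S ∈ bet G σ τ ↔ S ∈ (bet G (σ.erase v) τ).filter (v ∈ ·) := by
    intro S
    rw [mem_filter, mem_bet, mem_bet, hU]
    constructor
    · rintro ⟨h1, h2, h3⟩
      refine ⟨⟨h1, fun u hu => h2 ?_, h3⟩, h2 (mem_inter.2 ⟨hvσ, hvτ⟩)⟩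
      rw [mem_inter] at hu ⊢
      exact ⟨mem_of_mem_erase hu.1, hu.2⟩
    · rintro ⟨⟨h1, h2, h3⟩, h4⟩
      refine ⟨h1, fun u hu => ?_, h3⟩
      by_cases huv : u = v
      · rwa [huv]
      · rw [mem_inter] at hu
        exact h2 (mem_inter.2 ⟨mem_erase.2 ⟨huv, hu.1⟩, hu.2⟩)
  have hmem : bet G σ τ = (bet G (σ.erase v) τ).filter (v ∈ ·) := by
    ext S
    exact hmem1 S
  unfold Ps
  rw [← sum_filter_add_sum_filter_not (bet G (σ.erase v) τ) (v ∈ ·), ← hmem]
  have h2 : ∑ S ∈ (bet G (σ.erase v) τ).filter (fun S => ¬ v ∈ S), ∑ A ∈ S.powerset,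
      FS e x k S (ep (σ.erase v) τ A) * g (sgn (σ.erase v) (sA S A)) (sgn τ (sB A)) =
      ∑ S ∈ bet G σ τ, ∑ A ∈ (S.erase v).powerset,
      FS e x k (S.erase v) (ep (σ.erase v) τ A) *
        g (sgn (σ.erase v) (sA (S.erase v) A)) (sgn τ (sB A)) := by
    refine sum_nbij' (fun S => insert v S) (fun S => S.erase v) ?_ ?_ ?_ ?_ ?_
    · intro S hS
      rw [mem_filter, mem_bet, hU] at hS
      obtain ⟨⟨h1, h2, h3⟩, h4⟩ := hS
      rw [mem_bet]
      refine ⟨insert_subset (mem_union_left _ hvσ) h1, fun u hu => ?_,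
        clique_insert hσ hτ hvσ hvτ h1 h3⟩
      by_cases huv : u = v
      · rw [huv]
        exact mem_insert_self v S
      · rw [mem_inter] at hu
        exact mem_insert_of_mem (h2 (mem_inter.2 ⟨mem_erase.2 ⟨huv, hu.1⟩, hu.2⟩))
    · intro S hS
      rw [mem_bet] at hS
      obtain ⟨h1, h2, h3⟩ := hS
      rw [mem_filter, mem_bet, hU]
      refine ⟨⟨(erase_subset v S).trans h1, fun u hu => ?_, fun a ha b hb hab =>
        h3 (mem_of_mem_erase ha) (mem_of_mem_erase hb) hab⟩, notMem_erase v S⟩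
      rw [mem_inter, mem_erase] at hu
      exact mem_erase.2 ⟨hu.1.1, h2 (mem_inter.2 ⟨hu.1.2, hu.2⟩)⟩
    · intro S hS
      rw [mem_filter] at hS
      exact erase_insert hS.2
    · intro S hS
      rw [hmem, mem_filter] at hS
      exact insert_erase hS.2
    · intro S hS
      rw [mem_filter] at hS
      rw [erase_insert hS.2]
  rw [h2, ← sum_add_distrib]
  refine sum_congr rfl fun S hS => ?_
  have hvS : v ∈ S := by
    rw [hmem, mem_filter] at hS
    exact hS.2
  obtain ⟨S', hvS', rfl⟩ : ∃ S', v ∉ S' ∧ S = insert v S' :=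
    ⟨S.erase v, notMem_erase v S, (insert_erase hvS).symm⟩
  rw [erase_insert hvS', sum_powerset_insert hvS', sum_powerset_insert hvS',
    ← sum_add_distrib, ← sum_add_distrib, ← sum_add_distrib]
  refine sum_congr rfl fun A hA => ?_
  rw [mem_powerset] at hA
  have hvA : v ∉ A := fun h => hvS' (hA h)
  have h3 : FS e x k (insert v S') (ep σ τ (insert v A)) =
      FS e x k (insert v S') (ep (σ.erase v) τ (insert v A)) := by
    refine FS_congr e x k fun u _ => ?_
    unfold ep
    simp only [mem_union, mem_inter, mem_sdiff, mem_insert, mem_erase]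
    by_cases huv : u = v
    · subst huv
      tauto
    · tauto
  have h4 : FS e x k (insert v S') (ep (σ.erase v) τ A) =
      FS e x k (insert v S') (insert v (ep σ τ A)) := by
    refine FS_congr e x k fun u _ => ?_
    unfold ep
    simp only [mem_union, mem_inter, mem_sdiff, mem_insert, mem_erase]
    by_cases huv : u = v
    · subst huv
      tauto
    · tauto
  have hvep : v ∉ ep σ τ A := by
    unfold ep
    simp only [mem_union, mem_inter, mem_sdiff]
    tauto
  have h5 : FS e x k S' (ep (σ.erase v) τ A) = FS e x k S' (ep σ τ A) := by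
    refine FS_congr e x k fun u hu => ?_
    have huv : u ≠ v := fun h => hvS' (h ▸ hu)
    unfold ep
    simp only [mem_union, mem_inter, mem_sdiff, mem_erase]
    tauto
  have h6 := FS_toggle e x k (S := insert v S') (mem_insert_self v S') hvep
  rw [erase_insert hvS'] at h6
  have h7 : sgn (σ.erase v) (sA S' A) = sgn (σ.erase v) (sA (insert v S') A) := by
    refine sgn_congr fun u hu => ?_
    unfold sA
    rw [decide_eq_decide, mem_insert]
    have := ne_of_mem_erase hu
    tauto
  rw [h3, h4, h5, h7, ← h6]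
  have h8 := z2_add_self (FS e x k (insert v S') (insert v (ep σ τ A)) *
    g (sgn (σ.erase v) (sA (insert v S') A)) (sgn τ (sB A)))
  linear_combination -h8

/-- forget a sign in the first variable -/
theorem Ps_forget {σ τ : Finset V} (hσ : G.IsClique (σ : Set V)) (hτ : G.IsClique (τ : Set V))
    {v : V} (hv : v ∈ σ) (f : Finset (V × Bool) → Finset (V × Bool) → ZMod 2) :
    Ps G e x k (fun a b => f (res (σ.erase v) a) b) σ τ = Ps G e x k f (σ.erase v) τ := by
  have h1 : Ps G e x k (fun a b => f (res (σ.erase v) a) b) σ τ = ∑ S ∈ bet G σ τ,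
      ∑ A ∈ S.powerset, FS e x k S (ep σ τ A) * f (sgn (σ.erase v) (sA S A)) (sgn τ (sB A)) := by
    unfold Ps
    refine sum_congr rfl fun S _ => sum_congr rfl fun A _ => ?_
    beta_reduce
    rw [res_sgn (erase_subset v σ)]
  rw [h1]
  by_cases hvτ : v ∈ τ
  · exact step_in e x k hσ hτ hv hvτ f
  · exact step_out e x k hvτ f

/-- `Ps` uses only pairs of disjoint signed simplices -/
theorem Ps_congr {f f' : Finset (V × Bool) → Finset (V × Bool) → ZMod 2} {σ τ : Finset V}
    (h : ∀ α β : V → Bool, Disjoint (sgn σ α) (sgn τ β) →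
      f (sgn σ α) (sgn τ β) = f' (sgn σ α) (sgn τ β)) : Ps G e x k f σ τ = Ps G e x k f' σ τ := by
  unfold Ps
  refine sum_congr rfl fun S hS => sum_congr rfl fun A _ => ?_
  rw [h (sA S A) (sB A)]
  rw [mem_bet] at hS
  rw [Finset.disjoint_left]
  intro w hw hw'
  rw [mem_sgn] at hw hw'
  have h1 : w.1 ∈ S := hS.2.1 (mem_inter.2 ⟨hw.1, hw'.1⟩)
  have h2 := hw.2.symm.trans hw'.2
  unfold sA sB at h2
  rw [decide_eq_decide] at h2
  tauto

theorem Ps_add (f f' : Finset (V × Bool) → Finset (V × Bool) → ZMod 2) (σ τ : Finset V) :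
    Ps G e x k (fun a b => f a b + f' a b) σ τ = Ps G e x k f σ τ + Ps G e x k f' σ τ := by
  unfold Ps
  rw [← sum_add_distrib]
  refine sum_congr rfl fun S _ => ?_
  rw [← sum_add_distrib]
  exact sum_congr rfl fun A _ => mul_add _ _ _

theorem Ps_sum {ι : Type} (s : Finset ι) (f : ι → Finset (V × Bool) → Finset (V × Bool) → ZMod 2)
    (σ τ : Finset V) : Ps G e x k (fun a b => ∑ i ∈ s, f i a b) σ τ =
      ∑ i ∈ s, Ps G e x k (f i) σ τ := by
  classical
  induction s using Finset.induction_on with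
  | empty =>
    unfold Ps
    refine sum_eq_zero fun S _ => sum_eq_zero fun A _ => ?_
    beta_reduce
    rw [sum_empty, mul_zero]
  | insert a s ha ih =>
    rw [sum_insert ha, ← ih, ← Ps_add]
    refine Ps_congr e x k fun α β _ => ?_
    rw [sum_insert ha]

theorem Ps_zero (σ τ : Finset V) : Ps G e x k (fun _ _ => 0) σ τ = 0 := by
  unfold Ps
  exact sum_eq_zero fun S _ => sum_eq_zero fun A _ => mul_zero _

end Pool.Agent.H65.BU

end

section

/-!
# Project BU: the sum over all pairs of cubes

PROOF of `KK_dl`: `Ps_add`, `Ps_sum`; the term of `v ∈ s`: for `q` with `pr q.1 v = 0` (and the other conditions)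
`Ps (fun a b => φ (fa (q.1, s, a) v) (q.2, t, b)) (FH q.1 s) (FH q.2 t) = Ps (fun a b => φ (q.1, s.erase v, a) (q.2, t, b))
(FH q.1 (s.erase v)) (FH q.2 t)` by `FH_a` (`Ps_forget` or `Ps_congr` with `res = id`), and the same with `q.1 s_v` for
`fb` (`FH_b`). The map `w ↦ w s_v` exchanges the elements with `pr w v = 0` and with `pr w v = 1` (it keeps
`pr w u = 0` for `u ∈ s - v`), so the two sums over `{pr w v = 0}` add up to the sum over all `w`. All sums are finite
(`FinSupp`). Second variable: `KK_swap`.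
-/

set_option autoImplicit false
set_option linter.unusedSectionVars false

open Finset

namespace Pool.Agent.H65.BU

open Pool.Agent.H65.RA

variable {V W A : Type} [Fintype V] [DecidableEq V] [Group W] [Group A] {M : CoxeterMatrix V}
  {G : SimpleGraph V} {cs : CoxeterSystem M W} {p : V × Bool → A} {pr : W → V → ZMod 2}
  {g : (V → Bool) → W → A} {e : V → ℕ} {x : Finset V → ZMod 2} {k : ℕ}

/-- a sum over the union of `C` and its image under an involution -/
private theorem sum_fold_finsum {α : Type} (σ : α → α) (hσ : Function.Involutive σ) {T : α → ZMod 2}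
    (hT : (Function.support T).Finite) (C C' : α → Prop) [DecidablePred C] [DecidablePred C']
    (h1 : ∀ q, C' q ↔ C q ∨ C (σ q)) (h2 : ∀ q, C q → ¬ C (σ q)) :
    ∑ᶠ q, (if C q then T q + T (σ q) else 0) = ∑ᶠ q, if C' q then T q else 0 := by
  have hF1 : (Function.support fun q => if C q then T q else 0).Finite := by
    refine hT.subset fun q hq => ?_
    rw [Function.mem_support] at hq ⊢
    intro h
    apply hq
    simp only [h, ite_self]
  have hF2 : (Function.support fun q => if C q then T (σ q) else 0).Finite := by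
    refine (hT.preimage hσ.injective.injOn).subset fun q hq => ?_
    rw [Function.mem_support] at hq
    rw [Set.mem_preimage, Function.mem_support]
    intro h
    apply hq
    simp only [h, ite_self]
  have hF3 : (Function.support fun q => if C (σ q) then T q else 0).Finite := by
    refine hT.subset fun q hq => ?_
    rw [Function.mem_support] at hq ⊢
    intro h
    apply hq
    simp only [h, ite_self]
  have e1 : ∑ᶠ q, (if C q then T q + T (σ q) else 0) =
      ∑ᶠ q, ((if C q then T q else 0) + (if C q then T (σ q) else 0)) := by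
    refine finsum_congr fun q => ?_
    by_cases h : C q
    · rw [if_pos h, if_pos h, if_pos h]
    · rw [if_neg h, if_neg h, if_neg h, add_zero]
  have e2 : ∑ᶠ q, (if C q then T (σ q) else 0) = ∑ᶠ q, (if C (σ q) then T q else 0) := by
    rw [← finsum_comp σ hσ.bijective (g := fun q => if C (σ q) then T q else 0)]
    refine finsum_congr fun q => ?_
    simp only [hσ q]
  rw [e1, finsum_add_distrib hF1 hF2, e2, ← finsum_add_distrib hF1 hF3]
  refine finsum_congr fun q => ?_
  by_cases h : C q
  · rw [if_pos h, if_neg (h2 q h), if_pos ((h1 q).2 (Or.inl h)), add_zero]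
  · by_cases h' : C (σ q)
    · rw [if_neg h, if_pos h', if_pos ((h1 q).2 (Or.inr h')), zero_add]
    · rw [if_neg h, if_neg h', if_neg (fun hc => ((h1 q).1 hc).elim h h'), add_zero]

/-- the term of the pair `q` -/
private noncomputable def trm (G : SimpleGraph V) (cs : CoxeterSystem M W) (e : V → ℕ)
    (x : Finset V → ZMod 2) (k : ℕ) (φ : Cub V W → Cub V W → ZMod 2) (s t : Finset V)
    (q : W × W) : ZMod 2 :=
  Ps G e x k (fun a b => φ (q.1, s, a) (q.2, t, b)) (FH cs q.1 s) (FH cs q.2 t)

private theorem trm_support {φ : Cub V W → Cub V W → ZMod 2} (h : FinSupp φ) (s t : Finset V) :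
    (Function.support (trm G cs e x k φ s t)).Finite := by
  refine Set.Finite.subset h fun q hq => ?_
  by_contra hn
  apply hq
  have h0 : (fun a b => φ (q.1, s, a) (q.2, t, b)) = fun _ _ => (0 : ZMod 2) := by
    funext a b
    by_contra h1
    exact hn ⟨s, a, t, b, h1⟩
  unfold trm
  rw [h0, Ps_zero]

private theorem ite_support {α : Type} {T : α → ZMod 2} (h : (Function.support T).Finite)
    (C : α → Prop) [DecidablePred C] : (Function.support fun q => if C q then T q else 0).Finite := by
  refine h.subset fun q hq => ?_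
  rw [Function.mem_support] at hq ⊢
  intro h0
  apply hq
  simp only [h0, ite_self]

private theorem finSupp_swap {φ : Cub V W → Cub V W → ZMod 2} (h : FinSupp φ) :
    FinSupp (fun c c' => φ c' c) := by
  have h1 : {q : W × W | ∃ s a t b, φ (q.1, s, a) (q.2, t, b) ≠ 0}.Finite := h
  refine (h1.preimage (Prod.swap_injective.injOn (s := _))).subset ?_
  rintro q ⟨s, a, t, b, hq⟩
  exact ⟨t, b, s, a, hq⟩

private theorem finSupp_add {φ φ' : Cub V W → Cub V W → ZMod 2} (h : FinSupp φ)
    (h' : FinSupp φ') : FinSupp (fun c c' => φ c c' + φ' c c') := by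
  refine (Set.Finite.union h h').subset ?_
  rintro q ⟨s, a, t, b, hq⟩
  by_cases h0 : φ (q.1, s, a) (q.2, t, b) = 0
  · right
    refine ⟨s, a, t, b, fun h1 => hq ?_⟩
    simp only [h0, h1, add_zero]
  · exact Or.inl ⟨s, a, t, b, h0⟩

/-- the term of a face -/
private theorem Ps_fa (hF : Facts G cs) (hg : Apts cs pr p g) {s t : Finset V}
    (hs : G.IsClique (s : Set V)) (ht : G.IsClique (t : Set V)) (φ : Cub V W → Cub V W → ZMod 2)
    {q : W × W} (hq1 : ∀ v ∈ s, pr q.1 v = 0) (hq2 : ∀ v ∈ t, pr q.2 v = 0) {v : V} (hv : v ∈ s) :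
    Ps G e x k (fun a b => φ (fa cs (q.1, s, a) v) (q.2, t, b)) (FH cs q.1 s) (FH cs q.2 t) =
      trm G cs e x k φ (s.erase v) t q := by
  unfold trm
  have hX := FH_clique hF hg hs hq1
  have hY := FH_clique hF hg ht hq2
  rcases FH_a (cs := cs) q.1 hv with h | ⟨h, hvX, _, _⟩
  · rw [h]
    refine Ps_congr e x k fun α β _ => ?_
    have h1 : fa cs (q.1, s, sgn (FH cs q.1 s) α) v =
        (q.1, s.erase v, sgn (FH cs q.1 s) α) := by
      unfold fa
      simp only
      rw [h, res_sgn (Finset.Subset.refl _)]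
    rw [h1]
  · have h2 := Ps_forget (G := G) e x k hX hY hvX
      (fun a b => φ (q.1, s.erase v, a) (q.2, t, b))
    rw [← h] at h2
    exact h2

/-- the term of an opposite face -/
private theorem Ps_fb (hF : Facts G cs) (hg : Apts cs pr p g) {s t : Finset V}
    (hs : G.IsClique (s : Set V)) (φ : Cub V W → Cub V W → ZMod 2)
    {q : W × W} (hq1 : ∀ v ∈ s, pr q.1 v = 0) {v : V} (hv : v ∈ s) :
    Ps G e x k (fun a b => φ (fb cs (q.1, s, a) v) (q.2, t, b)) (FH cs q.1 s) (FH cs q.2 t) =
      trm G cs e x k φ (s.erase v) t (q.1 * cs.simple v, q.2) := by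
  unfold trm
  have h := FH_b hF hg hs hq1 hv
  simp only
  rw [h]
  refine Ps_congr e x k fun α β _ => ?_
  have h1 : fb cs (q.1, s, sgn (FH cs q.1 s) α) v =
      (q.1 * cs.simple v, s.erase v, sgn (FH cs q.1 s) α) := by
    unfold fb
    simp only
    rw [h, res_sgn (Finset.Subset.refl _)]
  rw [h1]

end Pool.Agent.H65.BU

end

section

/-!
# The `ℓ²`-chain complex of commuting elements of infinite order

`t : V → Γ` are elements of infinite order of a group, which commute for adjacent vertices of a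
graph. The chain complex has one generator for every clique, the boundary of `σ` is the signed sum
of `(t v - 1) (σ - v)`. If the flag complex of the graph is exact at a place over `ℂ`, then the
reduced `ℓ²`-homology vanishes there.
-/

set_option autoImplicit false
set_option linter.unusedSectionVars false

namespace Pool.Agent.H78.RA

open Finset
open Pool.Agent.H4.Atiyah

section

open Classical

variable {V : Type*} [Fintype V] {Γ : Type*} [Group Γ]

theorem Eqv.zsmul {κ ν : Type*} {A : LL κ Γ →L[ℂ] LL ν Γ} (c : ℤ) (hA : Eqv A) : Eqv (c • A) := by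
  intro g x
  show c • A (Tr g x) = Tr g (c • A x)
  rw [hA, map_zsmul]

section Main

variable (G : SimpleGraph V) (t : V → Γ)

/-- evaluation of a component -/
noncomputable def ev (g : Γ) : LL Unit Γ →+ ℂ where
  toFun y := y ((), g)
  map_zero' := rfl
  map_add' _ _ := rfl

theorem ev_ext {x y : LL Unit Γ} (h : ∀ g, ev g x = ev g y) : x = y := by
  ext ⟨-, g⟩
  exact h g

end Main

end

end Pool.Agent.H78.RA

end

section

/-!
# Reduced `ℓ²`-homology of the chain complex of commuting elements of infinite order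
-/

set_option autoImplicit false
set_option linter.unusedSectionVars false

namespace Pool.Agent.H78.RA

open Finset
open Pool.Agent.H4.Atiyah

section

open Classical

variable {V : Type*} [Fintype V] {Γ : Type*} [Group Γ]

theorem ev_smul (c : ℤ) (g : Γ) (x : LL Unit Γ) : ev g (c • x) = c * ev g x := by
  rw [map_zsmul, zsmul_eq_mul]

end

end Pool.Agent.H78.RA

end

section

/-!
# Comparison of complexes of invariant subspaces of free modules

`X₂ → X₁ → LL κ₀ G`: closed invariant subspaces of `ℓ²(κ × G)`. If the complex `d` maps injectively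
to an exact complex `e` on the same subspaces, then every cycle of `d` is a limit of boundaries.
-/

set_option autoImplicit false
set_option linter.unusedSectionVars false

namespace Pool.Agent.H3.MX

open Filter Topology
open Pool.Agent.H4.Atiyah Pool.Agent.H78.RA

variable {κ₀ κ₁ κ₂ G : Type*} [Group G] [DecidableEq κ₀] [DecidableEq κ₁] [DecidableEq κ₂]
  [DecidableEq G] [Fintype κ₀] [Fintype κ₁] [Fintype κ₂]

theorem hasProj {κ : Type*} {X : Submodule ℂ (LL κ G)} (h : IsClosed (X : Set (LL κ G))) :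
    X.HasOrthogonalProjection := by
  have : CompleteSpace X := h.completeSpace_coe
  infer_instance

theorem approx_sub (d₁ e₁ : LL κ₁ G →L[ℂ] LL κ₀ G) (d₂ e₂ : LL κ₂ G →L[ℂ] LL κ₁ G)
    (a₀ : LL κ₀ G →L[ℂ] LL κ₀ G) (a₁ : LL κ₁ G →L[ℂ] LL κ₁ G) (a₂ : LL κ₂ G →L[ℂ] LL κ₂ G)
    (X₁ : Submodule ℂ (LL κ₁ G)) (X₂ : Submodule ℂ (LL κ₂ G))
    (hX₁ : IsClosed (X₁ : Set (LL κ₁ G))) (hX₂ : IsClosed (X₂ : Set (LL κ₂ G)))
    (hI₁ : Pool.Agent.H78.RA.Inv X₁) (hI₂ : Pool.Agent.H78.RA.Inv X₂) (hd₁ : Eqv d₁)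
    (hd₂ : Eqv d₂) (he₂ : Eqv e₂) (ha₁ : Eqv a₁) (ha₂ : Eqv a₂) (hdX : ∀ x ∈ X₂, d₂ x ∈ X₁)
    (haX₁ : ∀ x ∈ X₁, a₁ x ∈ X₁) (haX₂ : ∀ x ∈ X₂, a₂ x ∈ X₂)
    (hdd : ∀ x ∈ X₂, d₁ (d₂ x) = 0) (hc₁ : ∀ x ∈ X₁, e₁ (a₁ x) = a₀ (d₁ x))
    (hc₂ : ∀ x ∈ X₂, e₂ (a₂ x) = a₁ (d₂ x)) (hi₁ : ∀ x ∈ X₁, a₁ x = 0 → x = 0)
    (hi₂ : ∀ x ∈ X₂, a₂ x = 0 → x = 0) (hex : ∀ x ∈ X₁, e₁ x = 0 → ∃ w ∈ X₂, e₂ w = x)
    (x : LL κ₁ G) (hx : x ∈ X₁) (hdx : d₁ x = 0) (ε : ℝ) (hε : 0 < ε) :
    ∃ y ∈ X₂, ‖x - d₂ y‖ < ε := by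
  have : X₁.HasOrthogonalProjection := hasProj hX₁
  have : X₂.HasOrthogonalProjection := hasProj hX₂
  have : (kr d₁ ⊓ X₁).HasOrthogonalProjection := hasProj (by
    rw [Submodule.coe_inf]
    exact (isClosed_kr d₁).inter hX₁)
  have : (kr e₁ ⊓ X₁).HasOrthogonalProjection := hasProj (by
    rw [Submodule.coe_inf]
    exact (isClosed_kr e₁).inter hX₁)
  have hp : ∀ y, X₂.starProjection y ∈ X₂ := fun y => Submodule.starProjection_apply_mem _ _
  have hpx : ∀ y ∈ X₂, X₂.starProjection y = y := fun y hy =>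
    Submodule.starProjection_eq_self_iff.2 hy
  set R : LL κ₂ G →L[ℂ] LL κ₁ G := d₂ ∘L X₂.starProjection with hR
  set R' : LL κ₂ G →L[ℂ] LL κ₁ G := e₂ ∘L X₂.starProjection with hR'
  have eR : Eqv R := hd₂.comp (eqv_proj hI₂)
  have eR' : Eqv R' := he₂.comp (eqv_proj hI₂)
  have hRa : ∀ y, R y = d₂ (X₂.starProjection y) := fun _ => rfl
  have hRa' : ∀ y, R' y = e₂ (X₂.starProjection y) := fun _ => rfl
  have b1 := gdim_kr R eR
  have b2 := gdim_kr R' eR'
  have iZ : Pool.Agent.H78.RA.Inv (kr d₁ ⊓ X₁) := fun g y hy => ⟨Inv.kr hd₁ g y hy.1, hI₁ g y hy.2⟩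
  have m1 : gdim (kr d₁ ⊓ X₁) ≤ gdim (kr e₁ ⊓ X₁) := by
    refine gdim_le_of_injOn iZ a₁ ha₁ ?_ (fun y hy => hi₁ y hy.2)
    intro y hy
    refine ⟨(mem_kr _ _).2 ?_, haX₁ y hy.2⟩
    rw [hc₁ y hy.2, (mem_kr _ _).1 hy.1, map_zero]
  -- the kernels
  set T : LL κ₂ G →L[ℂ] LL κ₂ G := a₂ ∘L X₂.starProjection +
    (ContinuousLinearMap.id ℂ (LL κ₂ G) - X₂.starProjection) with hT
  have eT : Eqv T := (ha₂.comp (eqv_proj hI₂)).add (Eqv.id.sub (eqv_proj hI₂))
  have hTa : ∀ y, T y = a₂ (X₂.starProjection y) + (y - X₂.starProjection y) := fun _ => rfl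
  have hTp : ∀ y, X₂.starProjection (T y) = a₂ (X₂.starProjection y) := by
    intro y
    rw [hTa, map_add, map_sub, hpx _ (haX₂ _ (hp y)), hpx _ (hp y), sub_self, add_zero]
  have m2 : gdim (kr R) ≤ gdim (kr R') := by
    refine gdim_le_of_injOn (Inv.kr eR) T eT ?_ ?_
    · intro y hy
      rw [mem_kr, hRa', hTp, hc₂ _ (hp y), ← hRa, (mem_kr _ _).1 hy, map_zero]
    · intro y _ hy
      have h1 : X₂.starProjection y = 0 := by
        apply hi₂ _ (hp y)
        rw [← hTp, hy, map_zero]
      rw [hTa, h1, map_zero, zero_add, sub_zero] at hy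
      exact hy
  have m3 : gdim (kr e₁ ⊓ X₁) ≤ gdim (kr (ContinuousLinearMap.adjoint R'))ᗮ := by
    apply gdim_mono
    intro y hy
    rw [Submodule.mem_orthogonal']
    intro v hv
    obtain ⟨w, hw, rfl⟩ := hex y hy.2 hy.1
    have h1 : e₂ w = R' w := by rw [hRa', hpx w hw]
    rw [h1, ← ContinuousLinearMap.adjoint_inner_right, (mem_kr _ _).1 hv, inner_zero_right]
  have m4 := gdim_orth (kr (ContinuousLinearMap.adjoint R'))
  have m5 := gdim_orth (kr (ContinuousLinearMap.adjoint R))
  have hRZ : ∀ y, R y ∈ kr d₁ ⊓ X₁ := fun y => ⟨hdd _ (hp y), hdX _ (hp y)⟩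
  have hle : (kr (ContinuousLinearMap.adjoint R))ᗮ ≤ kr d₁ ⊓ X₁ := by
    have h1 : (kr d₁ ⊓ X₁)ᗮ ≤ kr (ContinuousLinearMap.adjoint R) := by
      intro v hv
      rw [mem_kr]
      apply ext_inner_right ℂ
      intro w
      rw [ContinuousLinearMap.adjoint_inner_left, inner_zero_left]
      exact (Submodule.mem_orthogonal' _ _).1 hv _ (hRZ w)
    have h2 := Submodule.orthogonal_le h1
    rwa [Submodule.orthogonal_orthogonal] at h2
  have key := gdim_faithful (Inv.kr eR.adjoint).orth iZ hle (by linarith)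
  obtain ⟨y, hy⟩ := exists_approx R x (key ⟨hdx, hx⟩) ε hε
  exact ⟨X₂.starProjection y, hp y, hy⟩

end Pool.Agent.H3.MX

end

section

/-!
# Reduced `ℓ²`-homology of simplicial complexes of groups: the general comparison theorem

`Γ` is a group, the chain complex has one generator for every set `σ` of a family of finite sets,
the boundary of `σ` is the signed sum of `c τ v · τ`, `σ = τ ∪ v`, with elements `c τ v` of the group
ring. If there are elements `lam σ` of the group ring with `c τ v * lam τ = lam (τ ∪ v)`, which act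
injectively on `ℓ²(Γ)`, and the simplicial chain complex is exact at a place over `ℂ`, then the
reduced `ℓ²`-homology vanishes there.
-/

set_option autoImplicit false
set_option linter.unusedSectionVars false

namespace Pool.Agent.H78.RA

open Finset
open Pool.Agent.H4.Atiyah

section Rop

variable {Γ : Type*} [Group Γ]

/-- right translation, as a homomorphism to the opposite ring -/
noncomputable def Eh : Γ →* (BB Γ)ᵐᵒᵖ where
  toFun s := MulOpposite.op (Eop () () s)
  map_one' := by
    rw [← MulOpposite.op_one]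
    congr 1
    ext1 x
    ext ⟨-, g⟩
    rw [Eop_apply, if_pos rfl, inv_one, mul_one]
    rfl
  map_mul' := by
    intro s t
    rw [← MulOpposite.op_mul]
    congr 1
    ext1 x
    ext ⟨-, g⟩
    show (Eop () () (s * t) x : LL Unit Γ) ((), g)
      = (Eop () () t (Eop () () s x) : LL Unit Γ) ((), g)
    rw [Eop_apply, if_pos rfl, Eop_apply, if_pos rfl, Eop_apply, if_pos rfl, mul_inv_rev,
      mul_assoc]

/-- right multiplication by an element of the group ring -/
noncomputable def Rop (a : MonoidAlgebra ℂ Γ) : BB Γ :=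
  MulOpposite.unop (MonoidAlgebra.lift ℂ (BB Γ)ᵐᵒᵖ Γ Eh a)

theorem Rop_mul (a b : MonoidAlgebra ℂ Γ) : Rop (a * b) = Rop b * Rop a := by
  unfold Rop
  rw [map_mul, MulOpposite.unop_mul]

theorem Rop_eq (a : MonoidAlgebra ℂ Γ) :
    Rop a = a.coeff.sum fun s z => z • (Eop () () s : BB Γ) := by
  unfold Rop
  rw [MonoidAlgebra.lift_apply]
  unfold Finsupp.sum
  rw [Finset.unop_sum]
  rfl

theorem Rop_apply (a : MonoidAlgebra ℂ Γ) (x : LL Unit Γ) (g : Γ) :
    Rop a x ((), g) = a.coeff.sum fun s z => z * x ((), g * s⁻¹) := by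
  rw [Rop_eq]
  unfold Finsupp.sum
  rw [_root_.sum_apply, lp_sum_apply]
  apply Finset.sum_congr rfl
  intro s _
  rw [smul_apply, lp_smul_apply, Eop_apply, if_pos rfl]

theorem eqv_Rop (a : MonoidAlgebra ℂ Γ) : Eqv (Rop a) := by
  rw [Rop_eq]
  unfold Finsupp.sum
  exact Eqv.sum _ _ fun s _ => (eqv_Eop () () s).smul _

end Rop

section

open Classical

variable {V : Type*} [Fintype V] {Γ : Type*} [Group Γ]

end

end Pool.Agent.H78.RA

end

section

/-!
# Project RC: longest elements

Notation: `e s = Pi.single s 1`, `T w x = (titsHom M w).mulVec x`, `B = bf (kR M)`, `P = posR M J`, `W_J = par M J`.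
Let `neg w` be: `w ∈ W_J` and `T (w) (e s) ≤ 0` for all `s ∈ J`.

* Existence (`lw_spec`): `W_J` is finite, take an element of maximal length.
* `IsLong.neg`: for `s ∈ J` `w s ∈ W_J`, so `ℓ (w s) ≤ ℓ w`, hence `s` is a right descent (the lengths differ by
  one): `descent_iff`.
* `neg_posR`: if `neg w`, `r ∈ P`, then `-T (w) r ∈ P`: `r = ∑_{j ∈ J} r_j e j`, so `T (w) r ≤ 0`; `r = T (v) (e s)`
  and `-T (w) r = T (w v s) (e s)` is a root of `W_J`.
* `inv_neg`: if `neg w` then `neg w⁻¹`: `r ↦ -T (w) r` is injective from the finite set `P` to itself, hence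
  surjective, so `e s = -T (w) r` for an `r ∈ P` and `T (w⁻¹) (e s) = -r ≤ 0`.
* `neg_unique`: let `neg w`, `neg w'`, `u = w' w⁻¹ ∈ W_J`. For `s ∈ J` `T (w⁻¹) (e s) = -r`, `r ∈ P`, and
  `T (u) (e s) = -T (w') r ∈ P`, so `≥ 0`; for `s ∉ J` the coordinate `s` of `T (u) (e s)` is `1` (`tits_par`). So
  `u` has no right descent (`descent_iff`; both signs: the vector is zero, contradiction to `B = 2`), hence
  `u = 1` (`exists_rightDescent_of_ne_one`).
* `lw_mul_self`: `neg (lw)⁻¹` and uniqueness.
* `lw_simple`: let `w = lw M J`, `s ∈ J`, `r = -T (w) (e s) ∈ P`. Then `T (w) r = - e s` (as `w w = 1`). `r` has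
  support in `J`, `-T (w) r = ∑_j r_j r^j` with `r^j = -T (w) (e j) ∈ P`, `r_j ≥ 0`; so if `r_j > 0` then `r^j` is
  a multiple of `e s`, hence `r^j = e s` (norm, sign), `e j = -T (w) (e s) = r`. As `r ≠ 0` such a `j` exists:
  `T (w) (e s) = - e j`, `j ∈ J`.
* `exists_perm`: `σ s = j` for `s ∈ J`, `σ s = s` otherwise. `σ σ = 1` since `w w = 1`. `w s w⁻¹ = σ s` by
  `tits_conj` (with `r = - e (σ s)`) and `rf_unique` or `tits_injective`. `kR` by `bf_tits`, `bf_single`.
* `exists_opp`: `K ↦ K.image σ`. Connectedness: `Con` is transported by `σ` since for `a ≠ b` in `J` `diag` is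
  `kR ≠ 0` (`kR_zero`). The set of all `w_J v w_J`, `v ∈ par M K`, is `par M (σ K)` (`par_induction` in both
  directions). Reflections: from this. `lw M (σ K) = w_J w_K w_J`: it is in `par M (σ K)` and for `s ∈ K`
  `T (w_J w_K w_J) (e (σ s)) = T (w_J w_K) (- e s) = T (w_J) r`, `r = -T (w_K) (e s)` a positive root of
  `W_K ⊆ W_J`, so it is `≤ 0` (`neg_posR`); `neg_unique`.
* `sep_comm`: `j`, `k` commute if `M j k = 2`; `par_induction` twice.
-/

set_option autoImplicit false

open Finset

namespace Pool.Agent.H78.RC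

open Pool.Agent.H4.FC

variable {S : Type} [Fintype S] [DecidableEq S]

private theorem Long_mul (M : CoxeterMatrix S) (w v : M.Group) (x : S → ℝ) :
    (titsHom M (w * v)).mulVec x = (titsHom M w).mulVec ((titsHom M v).mulVec x) := by
  rw [map_mul, Matrix.mulVec_mulVec]

private theorem Long_one (M : CoxeterMatrix S) (x : S → ℝ) : (titsHom M 1).mulVec x = x := by
  rw [map_one, Matrix.one_mulVec]

private theorem Long_inv (M : CoxeterMatrix S) (w : M.Group) (x : S → ℝ) :
    (titsHom M w⁻¹).mulVec ((titsHom M w).mulVec x) = x := by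
  rw [← Long_mul, inv_mul_cancel, Long_one]

private theorem Long_simple (M : CoxeterMatrix S) (s : S) (x : S → ℝ) :
    (titsHom M (M.simple s)).mulVec x =
      x - bf (kR M) (Pi.single s 1) x • (Pi.single s 1 : S → ℝ) := by
  have h := tits_conj M 1 s x
  rwa [one_mul, inv_one, mul_one, Long_one] at h

private theorem Long_neg_e (M : CoxeterMatrix S) (s : S) :
    (titsHom M (M.simple s)).mulVec (Pi.single s 1) = -(Pi.single s 1 : S → ℝ) := by
  rw [Long_simple, bf_single, kR_self]
  module

private theorem Long_apply (M : CoxeterMatrix S) (w : M.Group) (x : S → ℝ) (i : S) :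
    (titsHom M w).mulVec x i = ∑ j, x j * (titsHom M w).mulVec (Pi.single j 1) i := by
  rw [Matrix.mulVec, dotProduct]
  refine Finset.sum_congr rfl fun j _ => ?_
  rw [Matrix.mulVec_single_one, mul_comm]
  rfl

private theorem Long_LR (M : CoxeterMatrix S) : LR (kR M) (Sph M) (posR M) :=
  LR_posR M (Sph M) fun _ h => h

private theorem Long_e_ne {a b : S} (h : (Pi.single a 1 : S → ℝ) = Pi.single b 1) : a = b := by
  by_contra hab
  have h1 := congrFun h a
  rw [Pi.single_eq_same, Pi.single_eq_of_ne hab] at h1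
  exact one_ne_zero h1

theorem lw_spec (M : CoxeterMatrix S) {J : Finset S} (hJ : Sph M J) : IsLong M J (lw M J) := by
  have hfin : Finite (par M J) := hJ
  have hex : ∃ w, IsLong M J w := by
    obtain ⟨x, hx⟩ := Finite.exists_max (fun v : par M J => M.toCoxeterSystem.length v.1)
    exact ⟨x.1, x.2, fun v hv => hx ⟨v, hv⟩⟩
  unfold lw
  rw [dif_pos hex]
  exact hex.choose_spec

theorem IsLong.neg {M : CoxeterMatrix S} {J : Finset S} {w : M.Group} (h : IsLong M J w) {s : S}
    (hs : s ∈ J) (i : S) : (titsHom M w).mulVec (Pi.single s 1) i ≤ 0 := by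
  refine (descent_iff M w s).1 ?_ i
  have h1 : w * M.simple s ∈ par M J := mul_mem h.1 (simple_mem_par M hs)
  have h2 := h.2 _ h1
  have h3 := M.toCoxeterSystem.length_mul_simple_ne w s
  rw [M.toCoxeterSystem_simple] at h3
  unfold CoxeterSystem.IsRightDescent
  rw [M.toCoxeterSystem_simple]
  exact lt_of_le_of_ne h2 h3

theorem neg_posR (M : CoxeterMatrix S) {J : Finset S} (hJ : Sph M J) {w : M.Group}
    (hw : w ∈ par M J) (h : ∀ s ∈ J, ∀ i, (titsHom M w).mulVec (Pi.single s 1) i ≤ 0)
    {r : S → ℝ} (hr : r ∈ posR M J) : -(titsHom M w).mulVec r ∈ posR M J := by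
  have h0 := hr
  rw [mem_posR M hJ] at hr ⊢
  obtain ⟨⟨v, hv, s, hs, rfl⟩, hpos⟩ := hr
  refine ⟨⟨w * (v * M.simple s), mul_mem hw (mul_mem hv (simple_mem_par M hs)), s, hs, ?_⟩, ?_⟩
  · rw [Long_mul, Long_mul, Long_neg_e, Matrix.mulVec_neg, Matrix.mulVec_neg]
  · intro i
    rw [Pi.neg_apply, Long_apply]
    have h1 : ∑ j, (titsHom M v).mulVec (Pi.single s 1) j *
        (titsHom M w).mulVec (Pi.single j 1) i ≤ 0 := by
      refine Finset.sum_nonpos fun j _ => ?_
      by_cases hj : j ∈ J
      · exact mul_nonpos_of_nonneg_of_nonpos (hpos j) (h j hj i)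
      · rw [(Long_LR M).supp J hJ _ h0 j hj, zero_mul]
    linarith

private theorem Long_surj (M : CoxeterMatrix S) {J : Finset S} (hJ : Sph M J) {w : M.Group}
    (hw : w ∈ par M J) (h : ∀ s ∈ J, ∀ i, (titsHom M w).mulVec (Pi.single s 1) i ≤ 0)
    {x : S → ℝ} (hx : x ∈ posR M J) : ∃ r ∈ posR M J, -(titsHom M w).mulVec r = x := by
  classical
  have h1 : Set.InjOn (fun r : S → ℝ => -(titsHom M w).mulVec r) (posR M J : Set (S → ℝ)) := by
    intro a _ b _ hab
    have h2 : (titsHom M w).mulVec a = (titsHom M w).mulVec b := neg_injective hab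
    rw [← Long_inv M w a, h2, Long_inv]
  have h3 : Set.MapsTo (fun r : S → ℝ => -(titsHom M w).mulVec r) (posR M J : Set (S → ℝ))
      (posR M J : Set (S → ℝ)) := fun r hr => neg_posR M hJ hw h hr
  have h4 := Finset.surjOn_of_injOn_of_card_le _ h3 h1 le_rfl
  obtain ⟨r, hr, h5⟩ := h4 hx
  exact ⟨r, hr, h5⟩

theorem inv_neg (M : CoxeterMatrix S) {J : Finset S} (hJ : Sph M J) {w : M.Group}
    (hw : w ∈ par M J) (h : ∀ s ∈ J, ∀ i, (titsHom M w).mulVec (Pi.single s 1) i ≤ 0) {s : S}
    (hs : s ∈ J) (i : S) : (titsHom M w⁻¹).mulVec (Pi.single s 1) i ≤ 0 := by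
  obtain ⟨r, hr, h1⟩ := Long_surj M hJ hw h ((Long_LR M).single J hJ s hs)
  have h2 : (titsHom M w⁻¹).mulVec (Pi.single s 1) = -r := by
    rw [← h1, Matrix.mulVec_neg, Long_inv]
  rw [h2, Pi.neg_apply]
  linarith [(Long_LR M).nonneg J hJ r hr i]

theorem neg_unique (M : CoxeterMatrix S) {J : Finset S} (hJ : Sph M J) {w w' : M.Group}
    (hw : w ∈ par M J) (h : ∀ s ∈ J, ∀ i, (titsHom M w).mulVec (Pi.single s 1) i ≤ 0)
    (hw' : w' ∈ par M J) (h' : ∀ s ∈ J, ∀ i, (titsHom M w').mulVec (Pi.single s 1) i ≤ 0) :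
    w = w' := by
  by_contra hne
  have hu : w' * w⁻¹ ≠ 1 := fun h1 => hne (mul_inv_eq_one.1 h1).symm
  have hmem : w' * w⁻¹ ∈ par M J := mul_mem hw' (inv_mem hw)
  obtain ⟨s, hs⟩ := M.toCoxeterSystem.exists_rightDescent_of_ne_one hu
  have h1 := (descent_iff M _ s).1 hs
  by_cases hsJ : s ∈ J
  · obtain ⟨r, hr, h2⟩ := Long_surj M hJ hw h ((Long_LR M).single J hJ s hsJ)
    have h3 : (titsHom M (w' * w⁻¹)).mulVec (Pi.single s 1) = -(titsHom M w').mulVec r := by
      rw [Long_mul, ← h2, Matrix.mulVec_neg, Long_inv, Matrix.mulVec_neg]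
    have h4 := neg_posR M hJ hw' h' hr
    have h5 : (titsHom M (w' * w⁻¹)).mulVec (Pi.single s 1) = 0 := by
      funext i
      have h6 := (Long_LR M).nonneg J hJ _ h4 i
      rw [← h3] at h6
      exact le_antisymm (h1 i) h6
    have h7 := bf_tits M (w' * w⁻¹) (Pi.single s 1) (Pi.single s 1)
    rw [h5, bf_single, kR_self] at h7
    have h8 := bf_smul_left (kR M) 0 (0 : S → ℝ) 0
    rw [zero_smul, zero_mul] at h8
    rw [h8] at h7
    norm_num at h7
  · have h2 := h1 s
    rw [tits_par M hmem _ hsJ, Pi.single_eq_same] at h2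
    linarith

theorem lw_mul_self (M : CoxeterMatrix S) {J : Finset S} (hJ : Sph M J) :
    lw M J * lw M J = 1 := by
  have h1 := lw_spec M hJ
  have h2 : ∀ s ∈ J, ∀ i, (titsHom M (lw M J)).mulVec (Pi.single s 1) i ≤ 0 :=
    fun s hs i => h1.neg hs i
  have h3 : lw M J = (lw M J)⁻¹ :=
    neg_unique M hJ h1.1 h2 (inv_mem h1.1) fun s hs i => inv_neg M hJ h1.1 h2 hs i
  nth_rewrite 2 [h3]
  exact mul_inv_cancel _

theorem lw_simple (M : CoxeterMatrix S) {J : Finset S} (hJ : Sph M J) {s : S} (hs : s ∈ J) :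
    ∃ j ∈ J, (titsHom M (lw M J)).mulVec (Pi.single s 1) = -(Pi.single j 1 : S → ℝ) := by
  have h1 := lw_spec M hJ
  have h2 : ∀ s ∈ J, ∀ i, (titsHom M (lw M J)).mulVec (Pi.single s 1) i ≤ 0 :=
    fun s hs i => h1.neg hs i
  have hP := Long_LR M
  have hww : ∀ x, (titsHom M (lw M J)).mulVec ((titsHom M (lw M J)).mulVec x) = x := fun x => by
    rw [← Long_mul, lw_mul_self M hJ, Long_one]
  have hrj : ∀ j ∈ J, -(titsHom M (lw M J)).mulVec (Pi.single j 1) ∈ posR M J := fun j hj =>
    neg_posR M hJ h1.1 h2 (hP.single J hJ j hj)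
  obtain ⟨r, hr0⟩ : ∃ r, r = -(titsHom M (lw M J)).mulVec (Pi.single s 1) := ⟨_, rfl⟩
  have hr : r ∈ posR M J := hr0 ▸ hrj s hs
  have hTr : (titsHom M (lw M J)).mulVec r = -(Pi.single s 1 : S → ℝ) := by
    rw [hr0, Matrix.mulVec_neg, hww]
  obtain ⟨j, hj⟩ : ∃ j, 0 < r j := by
    by_contra hc
    push Not at hc
    have h3 : r = 0 := by
      funext i
      exact le_antisymm (hc i) (hP.nonneg J hJ r hr i)
    have h4 := hP.norm J hJ r hr
    rw [h3] at h4
    have h8 := bf_smul_left (kR M) 0 (0 : S → ℝ) 0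
    rw [zero_smul, zero_mul] at h8
    rw [h8] at h4
    norm_num at h4
  have hjJ : j ∈ J := by
    by_contra hc
    rw [hP.supp J hJ r hr j hc] at hj
    exact lt_irrefl _ hj
  have hzero : ∀ i, i ≠ s → (-(titsHom M (lw M J)).mulVec (Pi.single j 1)) i = 0 := by
    intro i hi
    have h3 : ∑ k, r k * (-(titsHom M (lw M J)).mulVec (Pi.single k 1)) i = 0 := by
      have h4 := Long_apply M (lw M J) r i
      rw [hTr, Pi.neg_apply, Pi.single_eq_of_ne hi, neg_zero] at h4
      have h5 : ∀ k, r k * (-(titsHom M (lw M J)).mulVec (Pi.single k 1)) i =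
          -(r k * (titsHom M (lw M J)).mulVec (Pi.single k 1) i) := fun k => by
        rw [Pi.neg_apply, mul_neg]
      rw [Finset.sum_congr rfl fun k _ => h5 k, Finset.sum_neg_distrib, ← h4, neg_zero]
    have h6 : ∀ k ∈ (univ : Finset S), 0 ≤ r k * (-(titsHom M (lw M J)).mulVec (Pi.single k 1)) i := by
      intro k _
      by_cases hk : k ∈ J
      · exact mul_nonneg (hP.nonneg J hJ r hr k) (hP.nonneg J hJ _ (hrj k hk) i)
      · rw [hP.supp J hJ r hr k hk, zero_mul]
    have h7 := (Finset.sum_eq_zero_iff_of_nonneg h6).1 h3 j (mem_univ _)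
    exact (mul_eq_zero.1 h7).resolve_left hj.ne'
  obtain ⟨c, hc⟩ : ∃ c, c = (-(titsHom M (lw M J)).mulVec (Pi.single j 1)) s := ⟨_, rfl⟩
  have hc0 : 0 ≤ c := hc ▸ hP.nonneg J hJ _ (hrj j hjJ) s
  have hvec : -(titsHom M (lw M J)).mulVec (Pi.single j 1) = c • (Pi.single s 1 : S → ℝ) := by
    funext i
    by_cases hi : i = s
    · subst hi
      rw [Pi.smul_apply, Pi.single_eq_same, smul_eq_mul, mul_one, hc]
    · rw [hzero i hi, Pi.smul_apply, Pi.single_eq_of_ne hi, smul_zero]
  have hn := hP.norm J hJ _ (hrj j hjJ)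
  rw [hvec, bf_smul_left, bf_smul_right, bf_single, hP.two] at hn
  have hc1 : c = 1 := by nlinarith
  rw [hc1, one_smul] at hvec
  refine ⟨j, hjJ, ?_⟩
  rw [← hvec, Matrix.mulVec_neg, hww]

theorem exists_perm (M : CoxeterMatrix S) {J : Finset S} (hJ : Sph M J) :
    ∃ σ : S → S, (∀ s, σ (σ s) = s) ∧ (∀ s ∈ J, σ s ∈ J) ∧
      (∀ s ∈ J, lw M J * M.simple s * lw M J = M.simple (σ s)) ∧
      ∀ s ∈ J, ∀ t ∈ J, kR M (σ s) (σ t) = kR M s t := by
  classical
  have hex : ∀ s : S, ∃ j, (s ∈ J → j ∈ J ∧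
      (titsHom M (lw M J)).mulVec (Pi.single s 1) = -(Pi.single j 1 : S → ℝ)) ∧ (s ∉ J → j = s) := by
    intro s
    by_cases hs : s ∈ J
    · obtain ⟨j, hj, h1⟩ := lw_simple M hJ hs
      exact ⟨j, fun _ => ⟨hj, h1⟩, fun h => absurd hs h⟩
    · exact ⟨s, fun h => absurd h hs, fun _ => rfl⟩
  choose σ hσ using hex
  have hww : ∀ x, (titsHom M (lw M J)).mulVec ((titsHom M (lw M J)).mulVec x) = x := fun x => by
    rw [← Long_mul, lw_mul_self M hJ, Long_one]
  have hinv : (lw M J)⁻¹ = lw M J := inv_eq_of_mul_eq_one_left (lw_mul_self M hJ)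
  refine ⟨σ, ?_, fun s hs => ((hσ s).1 hs).1, ?_, ?_⟩
  · intro s
    by_cases hs : s ∈ J
    · obtain ⟨h1, h2⟩ := (hσ s).1 hs
      obtain ⟨h3, h4⟩ := (hσ (σ s)).1 h1
      have h5 := hww (Pi.single s 1)
      rw [h2, Matrix.mulVec_neg, h4, neg_neg] at h5
      exact Long_e_ne h5
    · rw [(hσ s).2 hs, (hσ s).2 hs]
  · intro s hs
    obtain ⟨h1, h2⟩ := (hσ s).1 hs
    apply rf_unique
    intro x
    have h3 := tits_conj M (lw M J) s x
    rw [hinv, h2] at h3
    rw [h3, Long_simple, ← neg_one_smul ℝ (Pi.single (σ s) 1 : S → ℝ), bf_smul_left]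
    module
  · intro s hs t ht
    have h2 := ((hσ s).1 hs).2
    have h3 := ((hσ t).1 ht).2
    have h4 := bf_tits M (lw M J) (Pi.single s 1) (Pi.single t 1)
    rw [h2, h3, ← neg_one_smul ℝ (Pi.single (σ s) 1 : S → ℝ),
      ← neg_one_smul ℝ (Pi.single (σ t) 1 : S → ℝ), bf_smul_left, bf_smul_right, bf_single,
      bf_single] at h4
    linarith

theorem sep_comm (M : CoxeterMatrix S) {J K : Finset S} (h : Sep M J K) {w v : M.Group}
    (hw : w ∈ par M J) (hv : v ∈ par M K) : w * v = v * w := by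
  have h0 : ∀ j ∈ J, ∀ k ∈ K, M.simple j * M.simple k = M.simple k * M.simple j := by
    intro j hj k hk
    have h1 := M.toCoxeterSystem.simple_mul_simple_pow j k
    rw [h j hj k hk, M.toCoxeterSystem_simple] at h1
    have h2 : M.simple j * M.simple k = (M.simple j * M.simple k)⁻¹ := by
      rw [eq_inv_iff_mul_eq_one, ← pow_two]
      exact h1
    rw [h2, mul_inv_rev, simple_inv, simple_inv]
  have h1 : ∀ v ∈ par M K, ∀ j ∈ J, M.simple j * v = v * M.simple j := by
    refine par_induction M K ?_ ?_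
    · intro j _
      rw [mul_one, one_mul]
    · intro k hk v ih j hj
      rw [← mul_assoc, h0 j hj k hk, mul_assoc, ih j hj, mul_assoc]
  have h2 : ∀ w ∈ par M J, w * v = v * w := by
    refine par_induction M J ?_ ?_
    · rw [mul_one, one_mul]
    · intro j hj w ih
      rw [mul_assoc, ih, ← mul_assoc, h1 v hv j hj, mul_assoc]
  exact h2 w hw

end Pool.Agent.H78.RC

end

section

/-!
# Project AA: crossing numbers

`cjF`: the action of `W` on the functions on `W` by conjugation; `exists_cross`: the homomorphism of the Artin group to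
the semidirect product which maps the generator `s` to the pair of the indicator function of `s` and of `s`;
`cross_word`: its values on positive words.
-/

set_option autoImplicit false
set_option linter.unusedSectionVars false

open Finset

namespace Pool.Agent.H85.AA

open H42.NU Pool.Agent.H73.HVN CoxeterSystem

section

variable {W : Type} [Group W]

/-- conjugation of functions -/
def cjE (w : W) : (W → ℤ) ≃+ (W → ℤ) where
  toFun f r := f (w⁻¹ * r * w)
  invFun f r := f (w * r * w⁻¹)
  left_inv f := by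
    funext r
    show f (w⁻¹ * (w * r * w⁻¹) * w) = f r
    congr 1
    group
  right_inv f := by
    funext r
    show f (w * (w⁻¹ * r * w) * w⁻¹) = f r
    congr 1
    group
  map_add' _ _ := rfl

/-- the action of `W` on the functions on `W` by conjugation -/
def cjF : W →* MulAut (Multiplicative (W → ℤ)) where
  toFun w := AddEquiv.toMultiplicative (cjE w)
  map_one' := by
    ext f r
    show (Multiplicative.toAdd f) (1⁻¹ * r * 1) = (Multiplicative.toAdd f) r
    rw [inv_one, one_mul, mul_one]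
  map_mul' u w := by
    ext f r
    show (Multiplicative.toAdd f) ((u * w)⁻¹ * r * (u * w)) =
      (Multiplicative.toAdd f) (w⁻¹ * (u⁻¹ * r * u) * w)
    congr 1
    group

/-- the semidirect product -/
abbrev CW (W : Type) [Group W] : Type := Multiplicative (W → ℤ) ⋊[cjF (W := W)] W

open Classical in
/-- the indicator function of `t` -/
noncomputable def ind (t : W) : W → ℤ := fun r => if r = t then 1 else 0

theorem cjE_ind (w t : W) : cjE w (ind t) = ind (w * t * w⁻¹) := by
  funext r
  show ind t (w⁻¹ * r * w) = ind (w * t * w⁻¹) r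
  unfold ind
  have h : w⁻¹ * r * w = t ↔ r = w * t * w⁻¹ := by
    constructor
    · rintro rfl
      group
    · rintro rfl
      group
  by_cases h1 : r = w * t * w⁻¹
  · rw [if_pos h1, if_pos (h.2 h1)]
  · rw [if_neg h1, if_neg fun h2 => h1 (h.1 h2)]

variable {S : Type} (σ : S → W)

/-- the image of a generator -/
noncomputable def cgen (s : S) : CW W := ⟨Multiplicative.ofAdd (ind (σ s)), σ s⟩

theorem lt_succ (s s' : S) (n : ℕ) : lt s s' (n + 1) = lt s' s n := by
  unfold lt
  rcases Nat.mod_two_eq_zero_or_one n with h | h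
  · rw [if_neg (by omega), if_pos h]
  · rw [if_pos (by omega), if_neg (by omega)]

theorem conj_pr (hσ : ∀ s, σ s * σ s = 1) : ∀ (n : ℕ) (s s' : S),
    pr σ s s' n * σ (lt s s' n) * (pr σ s s' n)⁻¹ = (σ s * σ s') ^ n * σ s := by
  intro n
  induction n with
  | zero =>
    intro s s'
    show 1 * σ (lt s s' 0) * 1⁻¹ = (σ s * σ s') ^ 0 * σ s
    rw [pow_zero, inv_one, mul_one]
    rfl
  | succ n ih =>
    intro s s'
    have h1 := ih s' s
    have hinv : (σ s)⁻¹ = σ s := inv_eq_of_mul_eq_one_left (hσ s)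
    rw [pr_succ', lt_succ, mul_inv_rev, hinv]
    calc σ s * pr σ s' s n * σ (lt s' s n) * ((pr σ s' s n)⁻¹ * σ s)
        = σ s * (pr σ s' s n * σ (lt s' s n) * (pr σ s' s n)⁻¹) * σ s := by group
      _ = σ s * ((σ s' * σ s) ^ n * σ s') * σ s := by rw [h1]
      _ = (σ s * (σ s' * σ s) ^ n) * (σ s' * σ s) := by group
      _ = ((σ s * σ s') ^ n * σ s) * (σ s' * σ s) := by
        have h2 : ∀ k : ℕ, σ s * (σ s' * σ s) ^ k = (σ s * σ s') ^ k * σ s := by
          intro k
          induction k with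
          | zero => simp
          | succ k ihk =>
            rw [pow_succ, ← mul_assoc, ihk, pow_succ]
            group
        rw [h2]
      _ = (σ s * σ s') ^ (n + 1) * σ s := by
        rw [pow_succ]
        group

theorem pr_cgen (hσ : ∀ s, σ s * σ s = 1) (s s' : S) (n : ℕ) :
    pr (cgen σ) s s' n =
      (⟨Multiplicative.ofAdd (∑ i ∈ range n, ind ((σ s * σ s') ^ i * σ s)), pr σ s s' n⟩ :
        CW W) := by
  induction n with
  | zero =>
    apply SemidirectProduct.ext
    · rfl
    · rfl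
  | succ n ih =>
    have h1 : pr (cgen σ) s s' (n + 1) = pr (cgen σ) s s' n * cgen σ (lt s s' n) := rfl
    rw [h1, ih]
    apply SemidirectProduct.ext
    · show Multiplicative.ofAdd (∑ i ∈ range n, ind ((σ s * σ s') ^ i * σ s)) *
        cjF (pr σ s s' n) (Multiplicative.ofAdd (ind (σ (lt s s' n)))) =
        Multiplicative.ofAdd (∑ i ∈ range (n + 1), ind ((σ s * σ s') ^ i * σ s))
      have h2 : cjF (pr σ s s' n) (Multiplicative.ofAdd (ind (σ (lt s s' n)))) =
          Multiplicative.ofAdd (ind ((σ s * σ s') ^ n * σ s)) := by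
        show Multiplicative.ofAdd (cjE (pr σ s s' n) (ind (σ (lt s s' n)))) = _
        rw [cjE_ind, conj_pr σ hσ]
      rw [h2, sum_range_succ, ofAdd_add]
    · rfl

/-- the braid relations -/
theorem artin_cgen {M : CoxeterMatrix S} (cs : CoxeterSystem M W) :
    Artin M (cgen cs.simple) := by
  intro s s' hss
  rw [pr_cgen cs.simple cs.simple_mul_simple_self, pr_cgen cs.simple cs.simple_mul_simple_self]
  apply SemidirectProduct.ext
  · show Multiplicative.ofAdd (∑ i ∈ range (M s s'), ind ((cs.simple s * cs.simple s') ^ i *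
      cs.simple s)) = Multiplicative.ofAdd (∑ i ∈ range (M s s'),
        ind ((cs.simple s' * cs.simple s) ^ i * cs.simple s'))
    congr 1
    rw [← sum_range_reflect]
    refine sum_congr rfl fun i hi => ?_
    rw [mem_range] at hi
    congr 1
    have hm : (cs.simple s * cs.simple s') ^ M s s' = 1 := cs.simple_mul_simple_pow s s'
    have h1 : cs.simple s' * cs.simple s = (cs.simple s * cs.simple s')⁻¹ := by
      rw [mul_inv_rev, cs.inv_simple, cs.inv_simple]
    have h2 : (cs.simple s * cs.simple s') ^ (i + 1) *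
        (cs.simple s * cs.simple s') ^ (M s s' - 1 - i) = 1 := by
      rw [← pow_add, show i + 1 + (M s s' - 1 - i) = M s s' by omega, hm]
    have h3 : (cs.simple s * cs.simple s') ^ (M s s' - 1 - i) =
        ((cs.simple s * cs.simple s') ^ (i + 1))⁻¹ := (inv_eq_of_mul_eq_one_right h2).symm
    rw [h3, h1, inv_pow, pow_succ', mul_inv_rev, mul_assoc, mul_inv_rev, cs.inv_simple,
      cs.inv_simple, mul_assoc, cs.simple_mul_simple_self, mul_one]
  · exact dih_top cs s s'

end

section

variable {S : Type} {W : Type} [Group W] {M : CoxeterMatrix S} (cs : CoxeterSystem M W)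

/-- **The crossing homomorphism.** -/
theorem exists_cross : ∃ Ψ : BG M →* CW W, ∀ s, Ψ (bgen M s) = cgen cs.simple s :=
  bg_hom (cgen cs.simple) (artin_cgen cs)

variable {cs}

open Classical in
theorem cross_word {Ψ : BG M →* CW W} (hΨ : ∀ s, Ψ (bgen M s) = cgen cs.simple s)
    (ω : List S) : Ψ (ω.map (bgen M)).prod =
      (⟨Multiplicative.ofAdd fun r => ((cs.leftInvSeq ω).count r : ℤ), cs.wordProd ω⟩ : CW W) := by
  induction ω with
  | nil =>
    rw [List.map_nil, List.prod_nil, map_one]
    apply SemidirectProduct.ext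
    · rfl
    · rfl
  | cons i ω ih =>
    rw [List.map_cons, List.prod_cons, map_mul, hΨ, ih]
    apply SemidirectProduct.ext
    · show Multiplicative.ofAdd (ind (cs.simple i)) * cjF (cs.simple i)
        (Multiplicative.ofAdd fun r => ((cs.leftInvSeq ω).count r : ℤ)) =
        Multiplicative.ofAdd fun r => ((cs.leftInvSeq (i :: ω)).count r : ℤ)
      show Multiplicative.ofAdd (ind (cs.simple i) + cjE (cs.simple i)
        fun r => ((cs.leftInvSeq ω).count r : ℤ)) = _
      congr 1
      funext r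
      show ind (cs.simple i) r + ((cs.leftInvSeq ω).count ((cs.simple i)⁻¹ * r * cs.simple i) : ℤ) =
        ((cs.simple i :: List.map (MulAut.conj (cs.simple i)) (cs.leftInvSeq ω)).count r : ℤ)
      rw [List.count_cons]
      have h1 : r = MulAut.conj (cs.simple i) ((cs.simple i)⁻¹ * r * cs.simple i) := by
        rw [MulAut.conj_apply]
        group
      have h2 : (List.map (MulAut.conj (cs.simple i)) (cs.leftInvSeq ω)).count r =
          (cs.leftInvSeq ω).count ((cs.simple i)⁻¹ * r * cs.simple i) := by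
        conv_lhs => rw [h1]
        exact List.count_map_of_injective _ _ (MulAut.conj (cs.simple i)).injective _
      rw [h2]
      unfold ind
      by_cases h3 : r = cs.simple i
      · rw [if_pos h3, h3]
        simp [add_comm]
      · rw [if_neg h3, if_neg]
        · simp
        · simpa using fun h => h3 h.symm
    · rfl

end

end Pool.Agent.H85.AA

end

section

/-!
# Project AA: reflections with full support

The highest root of an irreducible finite parabolic subgroup `W_X` has full support, so its reflection is in no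
parabolic subgroup `W_Y`, `Y` not containing `X`.
-/

set_option autoImplicit false

open Finset

namespace Pool.Agent.H85.AA

open Pool.Agent.H4.FC Pool.Agent.H78.RC

variable {S : Type} [Fintype S] [DecidableEq S]

theorem exists_full (M : CoxeterMatrix S) {X : Finset S} (hX : Sph M X) (hc : Con (diag M) X) :
    ∃ r ∈ posR M X, ∀ i ∈ X, r i ≠ 0 := by
  have hLR : LR (kR M) (Sph M) (posR M) := LR_posR M (Sph M) fun _ h => h
  obtain ⟨s₀, hs₀⟩ := hc.1
  have hne : (posR M X).Nonempty := ⟨_, hLR.single X hX s₀ hs₀⟩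
  obtain ⟨r, hr, hmax⟩ := exists_max_image (posR M X) (fun r => ht r) hne
  refine ⟨r, hr, ?_⟩
  have h0 := hLR.nonneg X hX r hr
  have hbf : ∀ t ∈ X, 0 ≤ bf (kR M) r (Pi.single t 1) := by
    intro t ht
    by_cases hrt : r = Pi.single t 1
    · rw [hrt, bf_single, kR_self]
      norm_num
    · have h1 := hmax _ (hLR.refl X hX t ht r hr hrt)
      have h2 : Pool.Agent.H78.RC.ht (r - bf (kR M) r (Pi.single t 1) • (Pi.single t 1 : S → ℝ)) =
          Pool.Agent.H78.RC.ht r - bf (kR M) r (Pi.single t 1) := by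
        unfold Pool.Agent.H78.RC.ht
        simp only [Pi.sub_apply, Pi.smul_apply, smul_eq_mul, sum_sub_distrib, ← mul_sum,
          Finset.sum_pi_single', mem_univ, if_true, mul_one]
      have h1' : Pool.Agent.H78.RC.ht
          (r - bf (kR M) r (Pi.single t 1) • (Pi.single t 1 : S → ℝ)) ≤
          Pool.Agent.H78.RC.ht r := h1
      rw [h2] at h1'
      linarith
  have hA := hc.2 (X.filter fun i => r i ≠ 0) (filter_subset _ _) (by
    by_contra hcon
    rw [not_nonempty_iff_eq_empty] at hcon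
    have hr0 : r = 0 := by
      funext i
      by_cases hi : i ∈ X
      · by_contra hne
        have : i ∈ X.filter fun i => r i ≠ 0 := mem_filter.2 ⟨hi, hne⟩
        rw [hcon] at this
        exact absurd this (notMem_empty i)
      · exact hLR.supp X hX r hr i hi
    have h1 := hLR.norm X hX r hr
    rw [hr0] at h1
    unfold bf at h1
    simp at h1) (by
    intro a ha b hb hadj
    obtain ⟨haX, ha0⟩ := mem_filter.1 ha
    obtain ⟨hbX, hb0⟩ := mem_sdiff.1 hb
    have hb1 : r b = 0 := by
      by_contra hne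
      exact hb0 (mem_filter.2 ⟨hbX, hne⟩)
    have h1 := hbf b hbX
    rw [bf_comm (kR_symm M), bf_single_left] at h1
    have h2 : ∀ u ∈ (univ : Finset S), kR M b u * r u ≤ 0 := by
      intro u _
      by_cases hu : u = b
      · rw [hu, hb1, mul_zero]
      · exact mul_nonpos_of_nonpos_of_nonneg (kR_nonpos M fun h => hu h.symm) (h0 u)
    have h3 : ∑ u, kR M b u * r u = 0 := le_antisymm (sum_nonpos h2) h1
    have h4 := (sum_eq_zero_iff_of_nonpos h2).1 h3 a (mem_univ a)
    rcases mul_eq_zero.1 h4 with h5 | h5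
    · have hab : b ≠ a := fun h => hadj.1 h.symm
      have h6 := (kR_zero M hab).1 h5
      rw [M.symmetric] at h6
      exact hadj.2 h6
    · exact ha0 h5)
  intro i hi
  rw [← hA] at hi
  exact (mem_filter.1 hi).2

/-- **Reflections with full support.** -/
theorem exists_full_rf (M : CoxeterMatrix S) {X : Finset S} (hX : Sph M X)
    (hc : Con (diag M) X) : ∃ t, IsRf M X t ∧ ∀ Y, Sph M Y → (IsRf M Y t ↔ X ⊆ Y) := by
  obtain ⟨r, hr, hfull⟩ := exists_full M hX hc
  obtain ⟨t, ht, htr⟩ := exists_rf M hX hr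
  refine ⟨t, ht, fun Y hY => ⟨fun h => ?_, fun h => ht.mono h⟩⟩
  have h1 := (isRf_iff M hX hY ht hr htr).1 h
  intro i hi
  by_contra hiY
  exact hfull i hi ((LR_posR M (Sph M) fun _ h => h).supp Y hY r h1 i hiY)

end Pool.Agent.H85.AA

end

section

/-!
# Project AA: the positive lift is well defined (Matsumoto), all Coxeter groups

This is `H42/NU/Mats` without the hypothesis that `W` is finite: if an element has two different right descents `s`, `s'`
then `m(s, s')` is finite (`ne_zero_of_desc`).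
-/

set_option autoImplicit false
set_option linter.unusedSectionVars false

namespace Pool.Agent.H85.AA

open Pool.Agent.H73.HVN H42.NU CoxeterSystem

universe w

section

variable {S : Type} [Fintype S] [DecidableEq S] {W : Type} [Group W] {M : CoxeterMatrix S}
  (cs : CoxeterSystem M W)

omit [Fintype S] [DecidableEq S] in
private theorem alt_of_desc {s s' : S} (hss : s ≠ s') : ∀ (n : ℕ) (l : W), cs.length l = n →
    l ∈ WP cs ({s, s'} : Set S) →
    (cs.IsRightDescent l s → l = cs.wordProd (alternatingWord s' s n)) ∧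
      (cs.IsRightDescent l s' → l = cs.wordProd (alternatingWord s s' n)) := by
  intro n
  induction n with
  | zero =>
    intro l hl _
    constructor
    · intro h
      have := cs.isRightDescent_iff.1 h
      omega
    · intro h
      have := cs.isRightDescent_iff.1 h
      omega
  | succ n ih =>
    intro l hl hmem
    have key : ∀ c c' : S, ((c = s ∧ c' = s') ∨ (c = s' ∧ c' = s)) → cs.IsRightDescent l c →
        l = cs.wordProd (alternatingWord c' c (n + 1)) := by
      intro c c' hc hd
      have h1 := cs.isRightDescent_iff.1 hd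
      have h2 : cs.length (l * cs.simple c) = n := by omega
      have h3 : l * cs.simple c ∈ WP cs ({s, s'} : Set S) := by
        refine mul_mem hmem (Subgroup.subset_closure ⟨c, ?_, rfl⟩)
        rcases hc with ⟨rfl, -⟩ | ⟨rfl, -⟩
        · exact Or.inl rfl
        · exact Or.inr rfl
      have h4 : l * cs.simple c = cs.wordProd (alternatingWord c c' n) := by
        rcases Nat.eq_zero_or_pos n with rfl | hn
        · rw [cs.length_eq_zero_iff.1 h2]
          rfl
        · have h5 : l * cs.simple c ≠ 1 := by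
            intro h
            rw [h, cs.length_one] at h2
            omega
          obtain ⟨d, hd2⟩ := cs.exists_rightDescent_of_ne_one h5
          have h6 := right_descent_mem cs h3 hd2
          have h7 : d ≠ c := by
            rintro rfl
            exact (cs.isRightDescent_iff_not_isRightDescent_mul.1 hd) hd2
          have h8 := ih _ h2 h3
          rcases hc with ⟨rfl, rfl⟩ | ⟨rfl, rfl⟩
          · rcases h6 with rfl | rfl
            · exact absurd rfl h7
            · exact h8.2 hd2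
          · rcases h6 with rfl | rfl
            · exact h8.1 hd2
            · exact absurd rfl h7
      rw [alternatingWord_succ, List.concat_eq_append, cs.wordProd_append, ← h4,
        cs.wordProd_singleton, mul_assoc, cs.simple_mul_simple_self, mul_one]
    exact ⟨key s s' (Or.inl ⟨rfl, rfl⟩), key s' s (Or.inr ⟨rfl, rfl⟩)⟩

private theorem pow_ne_one {s s' : S} (hss : s ≠ s') (hM : M s s' = 0) (k : ℕ) (hk : 0 < k) :
    (cs.simple s * cs.simple s') ^ k ≠ 1 := by
  intro h
  have h1 := congrArg cs.mulEquiv h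
  rw [map_pow, map_mul, map_one] at h1
  have h2 : ∀ i, cs.mulEquiv (cs.simple i) = M.toCoxeterSystem.simple i := by
    intro i
    unfold CoxeterSystem.simple
    rw [MulEquiv.apply_symm_apply]
    rfl
  rw [h2, h2] at h1
  exact Pool.Agent.H4.FC.alt_infinite M s s' hss hM k hk h1

/-- an element has two different right descents only if the label is finite -/
theorem ne_zero_of_desc {x : W} {s s' : S} (hss : s ≠ s') (h1 : cs.IsRightDescent x s)
    (h2 : cs.IsRightDescent x s') : M s s' ≠ 0 := by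
  intro hM
  obtain ⟨u, l, hu, hl, rfl⟩ := exists_min cs ({s, s'} : Set S) x
  have hs : cs.simple s ∈ WP cs ({s, s'} : Set S) := Subgroup.subset_closure ⟨s, Or.inl rfl, rfl⟩
  have hs' : cs.simple s' ∈ WP cs ({s, s'} : Set S) := Subgroup.subset_closure ⟨s', Or.inr rfl, rfl⟩
  have e0 := length_mul_of_min cs hu hl
  have e1 := length_mul_of_min cs hu (mul_mem hl hs)
  have e2 := length_mul_of_min cs hu (mul_mem hl hs')
  have d1 : cs.IsRightDescent l s := by
    unfold CoxeterSystem.IsRightDescent at h1 ⊢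
    rw [mul_assoc] at h1
    omega
  have d2 : cs.IsRightDescent l s' := by
    unfold CoxeterSystem.IsRightDescent at h2 ⊢
    rw [mul_assoc] at h2
    omega
  obtain ⟨h3, h4⟩ := alt_of_desc cs hss _ l rfl hl
  have h5 := (h3 d1).symm.trans (h4 d2)
  have hn : 0 < cs.length l := by
    have := cs.isRightDescent_iff.1 d1
    omega
  generalize cs.length l = n at h5 hn
  rw [prod_alternatingWord_eq_mul_pow, prod_alternatingWord_eq_mul_pow] at h5
  have hinv : ∀ k : ℕ, (cs.simple s * cs.simple s') ^ k * (cs.simple s' * cs.simple s) ^ k = 1 := by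
    intro k
    have : cs.simple s' * cs.simple s = (cs.simple s * cs.simple s')⁻¹ := by
      rw [mul_inv_rev, cs.inv_simple, cs.inv_simple]
    rw [this, inv_pow, mul_inv_cancel]
  rcases Nat.even_or_odd' n with ⟨k, rfl | rfl⟩
  · rw [if_pos (by simp), if_pos (by simp), one_mul, one_mul,
      Nat.mul_div_cancel_left k (by norm_num)] at h5
    refine pow_ne_one cs hss hM (k + k) (by omega) ?_
    rw [pow_add]
    nth_rewrite 2 [← h5]
    exact hinv k
  · rw [if_neg (by simp), if_neg (by simp)] at h5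
    have e : (2 * k + 1) / 2 = k := by omega
    rw [e] at h5
    have h6 : (cs.simple s' * cs.simple s) ^ (k + 1) = (cs.simple s * cs.simple s') ^ k := by
      rw [pow_succ', mul_assoc, h5, ← mul_assoc, cs.simple_mul_simple_self, one_mul]
    refine pow_ne_one cs hss hM ((k + 1) + k) (by omega) ?_
    rw [pow_add, ← h6]
    exact hinv (k + 1)

variable {G : Type w} [Monoid G] {σ : S → G}

/-- the pairs of an element and a value of the lift -/
private inductive MatsLR (cs : CoxeterSystem M W) (σ : S → G) : W → G → Prop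
  | one : MatsLR cs σ 1 1
  | step {x : W} {g : G} {s : S} : MatsLR cs σ x g → ¬ cs.IsRightDescent x s →
      MatsLR cs σ (x * cs.simple s) (g * σ s)

private theorem MatsLR_exists (σ : S → G) : ∀ (n : ℕ) (x : W), cs.length x = n →
    ∃ g, MatsLR cs σ x g := by
  intro n
  induction n with
  | zero =>
    intro x hx
    have h1 : x = 1 := cs.length_eq_zero_iff.1 hx
    subst h1
    exact ⟨1, MatsLR.one⟩
  | succ n ih =>
    intro x hx
    have h1 : x ≠ 1 := by
      rintro rfl
      simp at hx
    obtain ⟨s, hs⟩ := cs.exists_rightDescent_of_ne_one h1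
    have h2 := cs.isRightDescent_iff.1 hs
    obtain ⟨g, hg⟩ := ih (x * cs.simple s) (by omega)
    have h3 := (cs.isRightDescent_iff_not_isRightDescent_mul).1 hs
    have h4 := MatsLR.step hg h3
    rw [mul_assoc, cs.simple_mul_simple_self, mul_one] at h4
    exact ⟨_, h4⟩

private theorem MatsLR_inv {σ : S → G} {x : W} {g : G} (h : MatsLR cs σ x g) :
    (x = 1 ∧ g = 1) ∨ ∃ (y : W) (g' : G) (s : S), MatsLR cs σ y g' ∧ ¬ cs.IsRightDescent y s ∧
      x = y * cs.simple s ∧ g = g' * σ s := by
  cases h with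
  | one => exact Or.inl ⟨rfl, rfl⟩
  | step h1 h2 => exact Or.inr ⟨_, _, _, h1, h2, rfl, rfl⟩

private theorem MatsLR_arm {σ : S → G} {a b : S} (hab : a ≠ b) (hM : M a b ≠ 0) {v : W} {g₀ : G}
    (hv : MatsLR cs σ v g₀) (h1 : ¬ cs.IsRightDescent v a) (h2 : ¬ cs.IsRightDescent v b) :
    ∀ k ≤ M a b, MatsLR cs σ (v * pr cs.simple a b k) (g₀ * pr σ a b k) := by
  intro k
  induction k with
  | zero => intro _; simpa [pr] using hv
  | succ k ih =>
    intro hk
    have h3 := MatsLR.step (ih (by omega)) (dih_asc cs hab hM h1 h2 (n := k) (by omega))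
    rw [mul_assoc, mul_assoc] at h3
    exact h3

private theorem MatsLR_end {σ : S → G} {a b c : S} (hab : a ≠ b) (hM : M a b ≠ 0) {v x : W}
    {g₀ g₁ : G} (hv : MatsLR cs σ v g₀) (h1 : ¬ cs.IsRightDescent v a)
    (h2 : ¬ cs.IsRightDescent v b) {k : ℕ} (hk : k < M a b) (hc : lt a b k = c)
    (hx : v * pr cs.simple a b (k + 1) = x * cs.simple c)
    (IH : ∀ g g', MatsLR cs σ x g → MatsLR cs σ x g' → g = g') (hg : MatsLR cs σ x g₁) :
    g₁ * σ c = g₀ * pr σ a b (k + 1) := by
  have e1 : v * pr cs.simple a b (k + 1) = (v * pr cs.simple a b k) * cs.simple c := by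
    change v * (pr cs.simple a b k * cs.simple (lt a b k)) = _
    rw [hc, mul_assoc]
  have e2 : v * pr cs.simple a b k = x := mul_right_cancel (e1.symm.trans hx)
  have h3 := MatsLR_arm cs hab hM hv h1 h2 k hk.le
  rw [e2] at h3
  rw [IH _ _ hg h3]
  change _ = g₀ * (pr σ a b k * σ (lt a b k))
  rw [hc, mul_assoc]

private theorem MatsLR_len {x : W} {s : S} (h : ¬ cs.IsRightDescent x s) :
    cs.length (x * cs.simple s) = cs.length x + 1 := cs.not_isRightDescent_iff.1 h

private theorem MatsLR_desc {x : W} {s : S} (h : ¬ cs.IsRightDescent x s) :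
    cs.IsRightDescent (x * cs.simple s) s := by
  by_contra hc
  have h1 := MatsLR_len cs h
  have h2 := MatsLR_len cs hc
  rw [mul_assoc, cs.simple_mul_simple_self, mul_one] at h2
  omega

private theorem MatsLR_unique {σ : S → G} (h : Artin M σ) : ∀ (n : ℕ) (x : W),
    cs.length x ≤ n → ∀ g g', MatsLR cs σ x g → MatsLR cs σ x g' → g = g' := by
  intro n
  induction n with
  | zero =>
    intro x hx g g' h1 h2
    rcases MatsLR_inv cs h1 with ⟨-, e1⟩ | ⟨y, g1, s, -, hy, rfl, -⟩
    · rcases MatsLR_inv cs h2 with ⟨-, e2⟩ | ⟨y, g1, s, -, hy, rfl, -⟩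
      · rw [e1, e2]
      · have := MatsLR_len cs hy
        omega
    · have := MatsLR_len cs hy
      omega
  | succ n ih =>
    intro x hx g g' h1 h2
    rcases MatsLR_inv cs h1 with ⟨e0, e1⟩ | ⟨y, g1, s, hg1, hy, hxy, rfl⟩
    · rcases MatsLR_inv cs h2 with ⟨-, e2⟩ | ⟨y, g1, s, -, hy, hxy, -⟩
      · rw [e1, e2]
      · have := MatsLR_len cs hy
        rw [← hxy, e0, cs.length_one] at this
        omega
    · rcases MatsLR_inv cs h2 with ⟨e0, -⟩ | ⟨y', g1', s', hg1', hy', hxy', rfl⟩
      · have := MatsLR_len cs hy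
        rw [← hxy, e0, cs.length_one] at this
        omega
      · have l1 := MatsLR_len cs hy
        have l2 := MatsLR_len cs hy'
        rw [← hxy] at l1
        rw [← hxy'] at l2
        by_cases hss : s = s'
        · subst hss
          have e : y = y' := mul_right_cancel (hxy.symm.trans hxy')
          subst e
          rw [ih y (by omega) _ _ hg1 hg1']
        · have d1 : cs.IsRightDescent x s := by rw [hxy]; exact MatsLR_desc cs hy
          have d2 : cs.IsRightDescent x s' := by rw [hxy']; exact MatsLR_desc cs hy'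
          have hM := ne_zero_of_desc cs hss d1 d2
          have hM' : M s' s ≠ 0 := by
            rw [M.symmetric]
            exact hM
          have hsym : M s' s = M s s' := M.symmetric s' s
          have hss' : s' ≠ s := fun e => hss e.symm
          obtain ⟨v, m, hv1, hv2, hm, hxv⟩ := dih_cases cs hss hM x
          have hlt : ∀ (a b : S) (k : ℕ), lt a b k = a ∨ lt a b k = b := by
            intro a b k
            unfold lt
            split
            · exact Or.inl rfl
            · exact Or.inr rfl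
          have hmm : m = M s s' := by
            by_contra hne
            have hlt' : m < M s s' := lt_of_le_of_ne hm hne
            rcases hxv with e | e
            · have h3 := dih_asc cs hss hM hv1 hv2 hlt'
              rw [← e] at h3
              rcases hlt s s' m with h4 | h4
              · rw [h4] at h3; exact h3 d1
              · rw [h4] at h3; exact h3 d2
            · have h3 := dih_asc cs hss' hM' hv2 hv1 (n := m) (by rw [hsym]; exact hlt')
              rw [← e] at h3
              rcases hlt s' s m with h4 | h4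
              · rw [h4] at h3; exact h3 d2
              · rw [h4] at h3; exact h3 d1
          have htop := dih_top cs s s'
          subst hmm
          have x1 : x = v * pr cs.simple s s' (M s s') := by
            rcases hxv with e | e
            · exact e
            · rw [htop]; exact e
          have x2 : x = v * pr cs.simple s' s (M s s') := by
            rw [← htop]; exact x1
          obtain ⟨g₀, hg₀⟩ := MatsLR_exists cs σ _ v rfl
          obtain ⟨k, hk⟩ : ∃ k, M s s' = k + 1 := ⟨M s s' - 1, by omega⟩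
          have hA := h s s' hss
          rw [hk] at x1 x2 hA
          have IH1 := ih y (by omega)
          have IH2 := ih y' (by omega)
          rcases Nat.mod_two_eq_zero_or_one k with hp | hp
          · have c1 : lt s s' k = s := by unfold lt; rw [if_pos hp]
            have c2 : lt s' s k = s' := by unfold lt; rw [if_pos hp]
            have e1 := MatsLR_end cs hss hM hg₀ hv1 hv2 (k := k) (by omega) c1
              (x1.symm.trans hxy) IH1 hg1
            have e2 := MatsLR_end cs hss' hM' hg₀ hv2 hv1 (k := k) (by omega) c2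
              (x2.symm.trans hxy') IH2 hg1'
            rw [e1, e2, hA]
          · have c1 : lt s s' k = s' := by unfold lt; rw [if_neg (by omega)]
            have c2 : lt s' s k = s := by unfold lt; rw [if_neg (by omega)]
            have e1 := MatsLR_end cs hss hM hg₀ hv1 hv2 (k := k) (by omega) c1
              (x1.symm.trans hxy') IH2 hg1'
            have e2 := MatsLR_end cs hss' hM' hg₀ hv2 hv1 (k := k) (by omega) c2
              (x2.symm.trans hxy) IH1 hg1
            rw [e1, e2, hA]

/-- **Matsumoto's theorem.** -/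
theorem exists_lift (σ : S → G) (h : Artin M σ) : ∃ lift : W → G, IsLift cs σ lift := by
  choose f hf using fun x : W => MatsLR_exists cs σ _ x rfl
  refine ⟨f, ?_, ?_⟩
  · exact MatsLR_unique cs h _ 1 le_rfl _ _ (hf 1) MatsLR.one
  · intro x s hs
    exact MatsLR_unique cs h _ _ le_rfl _ _ (hf _) (MatsLR.step (hf x) hs)

end

end Pool.Agent.H85.AA

end

section

/-!
# Project AA: homomorphisms to the integers with the values `2 δ` on the elements `Δ_X ^ 2`

See (B) of note 3967. `Γ` is the pure Artin group.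
-/

set_option autoImplicit false

open Finset

namespace Pool.Agent.H93.AA

open Pool.Agent.H4.FC Pool.Agent.H78.RC H42.NU Pool.Agent.H85.AA Pool.Agent.H73.HVN

variable {S : Type} [Fintype S] [DecidableEq S]

private theorem isRf_of_mem (M : CoxeterMatrix S) {T : Finset S} : ∀ ω : List S,
    (∀ i ∈ ω, i ∈ T) → ∀ r ∈ M.toCoxeterSystem.leftInvSeq ω, IsRf M T r := by
  intro ω
  induction ω with
  | nil =>
    intro _ r hr
    exact absurd hr (List.not_mem_nil)
  | cons i ω ih =>
    intro hω r hr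
    have hi : i ∈ T := hω i List.mem_cons_self
    have hr' : r ∈ M.toCoxeterSystem.simple i :: List.map (MulAut.conj
      (M.toCoxeterSystem.simple i)) (M.toCoxeterSystem.leftInvSeq ω) := hr
    rw [M.toCoxeterSystem_simple] at hr'
    rcases List.mem_cons.1 hr' with rfl | hr'
    · exact ⟨1, one_mem _, i, hi, by rw [one_mul, inv_one, mul_one]⟩
    · obtain ⟨q, hq, rfl⟩ := List.mem_map.1 hr'
      have h1 := ih (fun j hj => hω j (List.mem_cons_of_mem _ hj)) q hq
      rw [MulAut.conj_apply]
      exact h1.conj (simple_mem_par M hi)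

private theorem isReflection_of_isRf (M : CoxeterMatrix S) {T : Finset S} {r : M.Group}
    (h : IsRf M T r) : M.toCoxeterSystem.IsReflection r := by
  obtain ⟨w, -, s, -, rfl⟩ := h
  exact ⟨w, s, by rw [M.toCoxeterSystem_simple]⟩

private theorem mem_par_of_isRf (M : CoxeterMatrix S) {T : Finset S} {r : M.Group}
    (h : IsRf M T r) : r ∈ par M T := by
  obtain ⟨w, hw, s, hs, rfl⟩ := h
  exact mul_mem (mul_mem hw (simple_mem_par M hs)) (inv_mem hw)

private theorem mem_WP (M : CoxeterMatrix S) {T : Finset S} {w : M.Group} (hw : w ∈ par M T) :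
    w ∈ WP M.toCoxeterSystem (T : Set S) := by
  refine (Subgroup.closure_le (K := WP M.toCoxeterSystem (T : Set S))).2 ?_ hw
  rintro x ⟨v, hv, rfl⟩
  refine Subgroup.subset_closure ⟨v, hv, ?_⟩
  rw [M.toCoxeterSystem_simple]

/-- the inversions of the longest element -/
private theorem mem_lis (M : CoxeterMatrix S) {T : Finset S} (hT : Sph M T) {ω : List S}
    (hω : M.toCoxeterSystem.IsReduced ω) (hw : lw M T = M.toCoxeterSystem.wordProd ω)
    (r : M.Group) : r ∈ M.toCoxeterSystem.leftInvSeq ω ↔ IsRf M T r := by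
  have hl := lw_spec M hT
  constructor
  · refine fun h => isRf_of_mem M ω ?_ r h
    have h1 := mem_WP M hl.1
    rw [hw] at h1
    exact fun i hi => mem_coe.1 (mem_of_isReduced M.toCoxeterSystem hω h1 i hi)
  · intro h
    have hr := isReflection_of_isRf M h
    have h1 : M.toCoxeterSystem.length (r * lw M T) ≤ M.toCoxeterSystem.length (lw M T) :=
      hl.2 _ (mul_mem (mem_par_of_isRf M h) hl.1)
    have h2 : M.toCoxeterSystem.length (r * lw M T) ≠ M.toCoxeterSystem.length (lw M T) :=
      hr.length_mul_right_ne _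
    have h3 : M.toCoxeterSystem.length (M.toCoxeterSystem.wordProd ω.reverse * r) <
        M.toCoxeterSystem.length (M.toCoxeterSystem.wordProd ω.reverse) := by
      rw [M.toCoxeterSystem.wordProd_reverse, ← hw, M.toCoxeterSystem.length_inv]
      have h4 : (lw M T)⁻¹ * r = (r * lw M T)⁻¹ := by
        rw [mul_inv_rev, hr.inv]
      rw [h4, M.toCoxeterSystem.length_inv]
      exact lt_of_le_of_ne h1 h2
    obtain ⟨j, hj, hjr⟩ := strong_exchange M.toCoxeterSystem hr h3
    rw [← M.toCoxeterSystem.wordProd_mul_getD_rightInvSeq] at hjr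
    have h5 := mul_left_cancel hjr
    have hj' : j < (M.toCoxeterSystem.rightInvSeq ω.reverse).length := by
      rw [M.toCoxeterSystem.length_rightInvSeq]
      exact hj
    rw [List.getD_eq_getElem _ 1 hj'] at h5
    have h6 : r ∈ M.toCoxeterSystem.rightInvSeq ω.reverse := by
      rw [h5]
      exact List.getElem_mem hj'
    rw [M.toCoxeterSystem.rightInvSeq_reverse, List.mem_reverse] at h6
    exact h6

section

open Classical in
/-- the crossing numbers of the squares -/
private theorem cross_xg (M : CoxeterMatrix S) {Ψ : BG M →* CW M.Group}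
    (hΨ : ∀ s, Ψ (bgen M s) = cgen M.toCoxeterSystem.simple s) {T : Finset S} (hT : Sph M T) :
    Ψ (dlt M T ^ 2) = (⟨Multiplicative.ofAdd fun r => if IsRf M T r then 2 else 0, 1⟩ :
      CW M.Group) := by
  obtain ⟨hred, hword⟩ := (M.toCoxeterSystem.exists_isReduced (lw M T)).choose_spec
  have h1 : dlt M T = ((M.toCoxeterSystem.exists_isReduced (lw M T)).choose.map
    (bgen M)).prod := rfl
  generalize (M.toCoxeterSystem.exists_isReduced (lw M T)).choose = ω at h1 hred hword
  have h2 : Ψ (dlt M T) = (⟨Multiplicative.ofAdd fun r => if IsRf M T r then 1 else 0,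
      lw M T⟩ : CW M.Group) := by
    rw [h1, cross_word hΨ ω, ← hword]
    apply SemidirectProduct.ext
    · show Multiplicative.ofAdd (fun r => ((M.toCoxeterSystem.leftInvSeq ω).count r : ℤ)) =
        Multiplicative.ofAdd fun r => if IsRf M T r then 1 else 0
      congr 1
      funext r
      have h3 := mem_lis M hT hred hword r
      rw [List.Nodup.count (hred.nodup_leftInvSeq)]
      by_cases h4 : IsRf M T r
      · rw [if_pos h4, if_pos (h3.2 h4)]
        rfl
      · rw [if_neg h4, if_neg fun h5 => h4 (h3.1 h5)]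
        rfl
    · rfl
  rw [pow_two, map_mul, h2]
  have hl := lw_spec M hT
  apply SemidirectProduct.ext
  · show Multiplicative.ofAdd ((fun r => if IsRf M T r then (1 : ℤ) else 0) +
      cjE (lw M T) fun r => if IsRf M T r then (1 : ℤ) else 0) =
      Multiplicative.ofAdd fun r => if IsRf M T r then 2 else 0
    congr 1
    funext r
    show (if IsRf M T r then (1 : ℤ) else 0) +
      (if IsRf M T ((lw M T)⁻¹ * r * lw M T) then (1 : ℤ) else 0) = if IsRf M T r then 2 else 0
    have h3 : IsRf M T ((lw M T)⁻¹ * r * lw M T) ↔ IsRf M T r := by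
      constructor
      · intro h
        have h4 := h.conj hl.1
        have h5 : lw M T * ((lw M T)⁻¹ * r * lw M T) * (lw M T)⁻¹ = r := by group
        rwa [h5] at h4
      · intro h
        have h4 := h.conj (inv_mem hl.1)
        rwa [inv_inv] at h4
    by_cases h4 : IsRf M T r
    · rw [if_pos h4, if_pos (h3.2 h4), if_pos h4]
      norm_num
    · rw [if_neg h4, if_neg fun h5 => h4 (h3.1 h5), if_neg h4, add_zero]
  · show lw M T * lw M T = 1
    exact lw_mul_self M hT

end

theorem exists_ex (M : CoxeterMatrix S) :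
    ∃ (Γ : Subgroup (BG M)) (ex : Irr M → Γ → ℤ), (∀ X g h, ex X (g * h) = ex X g + ex X h) ∧
      ∀ Y : Irr M, ∃ hY : xg M Y ∈ Γ, ∀ X : Irr M, ex X ⟨xg M Y, hY⟩ = if X = Y then 2 else 0 := by
  classical
  obtain ⟨Ψ, hΨ⟩ := exists_cross (M := M) M.toCoxeterSystem
  obtain ⟨Γ, hΓ⟩ : ∃ Γ : Subgroup (BG M), ∀ g, g ∈ Γ ↔ (Ψ g).right = 1 :=
    ⟨(SemidirectProduct.rightHom.comp Ψ).ker, fun g => by
      rw [MonoidHom.mem_ker]
      rfl⟩
  have hY : ∀ Y : Irr M, xg M Y ∈ Γ := by
    intro Y
    rw [hΓ]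
    unfold xg
    rw [cross_xg M hΨ Y.2.1]
  have hadd : ∀ (t : M.Group) (g h : Γ), Multiplicative.toAdd (Ψ (g * h : Γ)).left t =
      Multiplicative.toAdd (Ψ g).left t + Multiplicative.toAdd (Ψ h).left t := by
    intro t g h
    rw [Subgroup.coe_mul, map_mul, SemidirectProduct.mul_left, (hΓ g).1 g.2, map_one]
    rfl
  choose t ht htY using fun X : Irr M => exists_full_rf M X.2.1 X.2.2
  have hval : ∀ X Y : Irr M, Multiplicative.toAdd (Ψ (xg M Y)).left (t X) =
      if X.1 ⊆ Y.1 then 2 else 0 := by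
    intro X Y
    unfold xg
    rw [cross_xg M hΨ Y.2.1]
    show (if IsRf M Y.1 (t X) then (2 : ℤ) else 0) = _
    by_cases h : X.1 ⊆ Y.1
    · rw [if_pos h, if_pos ((htY X Y.1 Y.2.1).2 h)]
    · rw [if_neg h, if_neg fun h1 => h ((htY X Y.1 Y.2.1).1 h1)]
  have : Fintype (Irr M) := Fintype.ofFinite _
  have key : ∀ n : ℕ, ∀ X : Irr M, Fintype.card S - X.1.card = n → ∃ e : Γ → ℤ,
      (∀ g h, e (g * h) = e g + e h) ∧ ∀ Y : Irr M, e ⟨xg M Y, hY Y⟩ = if X = Y then 2 else 0 := by
    intro n
    induction n using Nat.strong_induction_on with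
    | _ n ih =>
      intro X hX
      have h1 : ∀ Z : Irr M, ∃ e : Γ → ℤ, X.1 ⊂ Z.1 → ((∀ g h, e (g * h) = e g + e h) ∧
          ∀ Y : Irr M, e ⟨xg M Y, hY Y⟩ = if Z = Y then 2 else 0) := by
        intro Z
        by_cases hZ : X.1 ⊂ Z.1
        · have h2 := card_lt_card hZ
          have h3 := card_le_univ Z.1
          obtain ⟨e, he⟩ := ih (Fintype.card S - Z.1.card) (by omega) Z rfl
          exact ⟨e, fun _ => he⟩
        · exact ⟨0, fun h => absurd h hZ⟩
      choose e he using h1
      refine ⟨fun g => Multiplicative.toAdd (Ψ g).left (t X) -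
        ∑ Z ∈ univ.filter (fun Z : Irr M => X.1 ⊂ Z.1), e Z g, fun g h => ?_, fun Y => ?_⟩
      · show Multiplicative.toAdd (Ψ (g * h : Γ)).left (t X) -
          ∑ Z ∈ univ.filter (fun Z : Irr M => X.1 ⊂ Z.1), e Z (g * h) =
          (Multiplicative.toAdd (Ψ g).left (t X) -
            ∑ Z ∈ univ.filter (fun Z : Irr M => X.1 ⊂ Z.1), e Z g) +
          (Multiplicative.toAdd (Ψ h).left (t X) -
            ∑ Z ∈ univ.filter (fun Z : Irr M => X.1 ⊂ Z.1), e Z h)
        rw [hadd, sum_congr rfl fun Z hZ => (he Z (mem_filter.1 hZ).2).1 g h, sum_add_distrib]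
        ring
      · show Multiplicative.toAdd (Ψ (xg M Y)).left (t X) -
          ∑ Z ∈ univ.filter (fun Z : Irr M => X.1 ⊂ Z.1), e Z ⟨xg M Y, hY Y⟩ = _
        rw [hval, sum_congr rfl fun Z hZ => (he Z (mem_filter.1 hZ).2).2 Y, sum_ite_eq']
        have hmem : ∀ Z : Irr M, Z ∈ univ.filter (fun Z : Irr M => X.1 ⊂ Z.1) ↔ X.1 ⊂ Z.1 :=
          fun Z => ⟨fun h => (mem_filter.1 h).2, fun h => mem_filter.2 ⟨mem_univ _, h⟩⟩
        by_cases h1 : X = Y
        · subst h1
          rw [if_pos Subset.rfl, if_neg fun h => (ssubset_irrefl _) ((hmem X).1 h), if_pos rfl]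
          rfl
        · rw [if_neg h1]
          by_cases h2 : X.1 ⊆ Y.1
          · have h3 : X.1 ⊂ Y.1 := lt_of_le_of_ne h2 fun h => h1 (Subtype.ext h)
            rw [if_pos h2, if_pos ((hmem Y).2 h3), sub_self]
          · rw [if_neg h2, if_neg fun h => h2 ((hmem Y).1 h).subset, sub_self]
  choose ex hex1 hex2 using fun X : Irr M => key _ X rfl
  exact ⟨Γ, ex, fun X g h => hex1 X g h, fun Y => ⟨hY Y, fun X => hex2 X Y⟩⟩

end Pool.Agent.H93.AA

end

section

/-!
# Project AA: the positive lift is well defined (Matsumoto)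
-/

set_option autoImplicit false

namespace Pool.Agent.H93.AA

open H42.NU

variable {S : Type} [Fintype S] [DecidableEq S]

theorem lft_isLift (M : CoxeterMatrix S) : IsLift M.toCoxeterSystem (bgen M) (lft M) := by
  obtain ⟨lift, hl⟩ := Pool.Agent.H85.AA.exists_lift M.toCoxeterSystem (bgen M) artin_bgen
  have h : lft M = lift := by
    funext w
    obtain ⟨h1, h2⟩ := (M.toCoxeterSystem.exists_isReduced w).choose_spec
    have h3 := lift_wordProd hl h1
    rw [← h2] at h3
    rw [h3]
    rfl
  rw [h]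
  exact hl

end Pool.Agent.H93.AA

end

section

/-!
# Project AA: parabolic factorisation of the elements `β_{T,J}` and their alternating sum

`bt_mul`: every `w ∈ W_T` without right descents in `I` is `u * v` with `u ∈ W_T` without right descents in `J`
and `v ∈ W_J` without right descents in `I`, in exactly one way, and `ℓ w = ℓ u + ℓ v` (H73/HVN/Parab:
`exists_min`, `length_mul_of_min`, `min_unique`), so `lft w = lft u * lft v` (H42/NU/Mats `lift_mul`).
`bt_alt`: an element `w` of `W_T` occurs in `β_{T,J}` iff `J` contains no right descent of `w`; the sum of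
`(-1) ^ |J|` over the `J` in `T` without right descents of `w` is zero unless all elements of `T` are right descents
of `w`; then `w` is the longest element (`lw_spec`, `neg_unique`, `descent_iff` in H78/RC).
-/

set_option autoImplicit false

open Finset

namespace Pool.Agent.H93.AA

open Pool.Agent.H4.FC Pool.Agent.H78.RC Pool.Agent.H73.HVN H42.NU

variable {S : Type}

theorem par_eq_WP (M : CoxeterMatrix S) (T : Finset S) :
    par M T = WP M.toCoxeterSystem (T : Set S) := by
  unfold par WP
  congr 1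
  ext w
  constructor
  · rintro ⟨v, hv, rfl⟩
    exact ⟨v, hv, rfl⟩
  · rintro ⟨v, hv, rfl⟩
    exact ⟨v, hv, rfl⟩

theorem mem_mn {M : CoxeterMatrix S} {T J : Finset S} (hT : Sph M T) {w : M.Group} :
    w ∈ mn M T J ↔ w ∈ WP M.toCoxeterSystem (T : Set S) ∧
      ∀ t ∈ J, ¬ M.toCoxeterSystem.IsRightDescent w t := by
  classical
  unfold mn
  rw [Finset.mem_filter, mem_parF hT, par_eq_WP]

variable [Fintype S] [DecidableEq S]

theorem bt_self (M : CoxeterMatrix S) {T : Finset S} (hT : Sph M T) : bt M T T = 1 := by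
  have h1 : mn M T T = {1} := by
    ext w
    rw [mem_mn hT, Finset.mem_singleton]
    constructor
    · rintro ⟨h1, h2⟩
      by_contra hne
      obtain ⟨s, hs⟩ := M.toCoxeterSystem.exists_rightDescent_of_ne_one hne
      exact h2 s (right_descent_mem M.toCoxeterSystem h1 hs) hs
    · rintro rfl
      exact ⟨one_mem _, fun t _ => M.toCoxeterSystem.not_isRightDescent_one t⟩
  unfold bt
  rw [h1, Finset.sum_singleton, M.toCoxeterSystem.length_one, pow_zero, one_smul,
    (lft_isLift M).one, map_one]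

omit [Fintype S] [DecidableEq S] in
private theorem desc_iff (M : CoxeterMatrix S) {J : Finset S} {u v : M.Group}
    (hu : ∀ i ∈ (J : Set S), ¬ M.toCoxeterSystem.IsRightDescent u i)
    (hv : v ∈ WP M.toCoxeterSystem (J : Set S)) {t : S} (ht : t ∈ J) :
    M.toCoxeterSystem.IsRightDescent (u * v) t ↔ M.toCoxeterSystem.IsRightDescent v t := by
  have h1 := length_mul_of_min M.toCoxeterSystem hu hv
  have h2 := length_mul_of_min M.toCoxeterSystem hu
    (mul_mem hv ((simple_mem_WP_iff M.toCoxeterSystem).2 (Finset.mem_coe.2 ht)))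
  unfold CoxeterSystem.IsRightDescent
  rw [mul_assoc]
  omega

theorem bt_mul (M : CoxeterMatrix S) {T J I : Finset S} (hT : Sph M T) (hJ : J ⊆ T) (hI : I ⊆ J) :
    bt M T J * bt M J I = bt M T I := by
  have hJs : Sph M J := hT.mono hJ
  set cs := M.toCoxeterSystem with hcs
  have hmono : WP cs (J : Set S) ≤ WP cs (T : Set S) := by
    rw [← par_eq_WP, ← par_eq_WP]
    exact par_mono M hJ
  unfold bt
  rw [Finset.sum_mul_sum, ← Finset.sum_product']
  refine Finset.sum_bij (fun p _ => p.1 * p.2) ?_ ?_ ?_ ?_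
  · rintro ⟨u, v⟩ hp
    rw [Finset.mem_product, mem_mn hT, mem_mn hJs] at hp
    obtain ⟨⟨hu, hu'⟩, hv, hv'⟩ := hp
    rw [mem_mn hT]
    exact ⟨mul_mem hu (hmono hv), fun t ht hd => hv' t ht ((desc_iff M hu' hv (hI ht)).1 hd)⟩
  · rintro ⟨u, v⟩ hp ⟨u', v'⟩ hp' h
    rw [Finset.mem_product, mem_mn hT, mem_mn hJs] at hp hp'
    obtain ⟨h1, h2⟩ := min_unique cs (L := (J : Set S)) hp.1.2 hp'.1.2 hp.2.1 hp'.2.1 h
    exact Prod.ext h1 h2
  · intro w hw
    rw [mem_mn hT] at hw
    obtain ⟨u, l, hu, hl, rfl⟩ := exists_min cs (J : Set S) w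
    have hu' : ∀ t ∈ J, ¬ cs.IsRightDescent u t := fun t ht => hu t (Finset.mem_coe.2 ht)
    refine ⟨(u, l), ?_, rfl⟩
    rw [Finset.mem_product, mem_mn hT, mem_mn hJs]
    refine ⟨⟨?_, hu'⟩, hl, fun t ht hd => hw.2 t ht ((desc_iff M hu hl (hI ht)).2 hd)⟩
    have := mul_mem hw.1 (inv_mem (hmono hl))
    rwa [mul_inv_cancel_right] at this
  · rintro ⟨u, v⟩ hp
    rw [Finset.mem_product, mem_mn hT, mem_mn hJs] at hp
    obtain ⟨⟨hu, hu'⟩, hv, hv'⟩ := hp
    have h1 := length_mul_of_min cs hu' hv
    dsimp only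
    rw [h1, lift_mul (lft_isLift M) h1, map_mul, pow_add, smul_mul_smul_comm]

theorem bt_alt (M : CoxeterMatrix S) {T : Finset S} (hT : Sph M T) :
    ∑ J ∈ T.powerset, (-1 : ℤ) ^ J.card • bt M T J =
      (-1 : ℤ) ^ M.toCoxeterSystem.length (lw M T) • MonoidAlgebra.of ℤ (BG M) (dlt M T) := by
  classical
  set cs := M.toCoxeterSystem with hcs
  have hlw := lw_spec M hT
  have h1 : ∀ J, bt M T J = ∑ w ∈ parF M T, if (∀ t ∈ J, ¬ cs.IsRightDescent w t) then
      (-1 : ℤ) ^ cs.length w • MonoidAlgebra.of ℤ (BG M) (lft M w) else 0 := by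
    intro J
    unfold bt mn
    rw [Finset.sum_filter]
    refine Finset.sum_congr rfl fun w _ => ?_
    congr 1
  simp_rw [h1, Finset.smul_sum]
  rw [Finset.sum_comm]
  have h2 : ∀ w ∈ parF M T, ∑ J ∈ T.powerset, (-1 : ℤ) ^ J.card •
      (if (∀ t ∈ J, ¬ cs.IsRightDescent w t) then
        (-1 : ℤ) ^ cs.length w • MonoidAlgebra.of ℤ (BG M) (lft M w) else 0) =
      if w = lw M T then (-1 : ℤ) ^ cs.length w • MonoidAlgebra.of ℤ (BG M) (lft M w) else 0 := by
    intro w hw
    rw [mem_parF hT] at hw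
    have h3 : ∑ J ∈ T.powerset, (-1 : ℤ) ^ J.card •
        (if (∀ t ∈ J, ¬ cs.IsRightDescent w t) then
          (-1 : ℤ) ^ cs.length w • MonoidAlgebra.of ℤ (BG M) (lft M w) else 0) =
        ∑ J ∈ (T.filter fun t => ¬ cs.IsRightDescent w t).powerset, (-1 : ℤ) ^ J.card •
          ((-1 : ℤ) ^ cs.length w • MonoidAlgebra.of ℤ (BG M) (lft M w)) := by
      have h4 : (T.filter fun t => ¬ cs.IsRightDescent w t).powerset =
          T.powerset.filter fun J => ∀ t ∈ J, ¬ cs.IsRightDescent w t := by
        ext J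
        simp only [Finset.mem_powerset, Finset.mem_filter]
        constructor
        · intro h
          exact ⟨fun t ht => (Finset.mem_filter.1 (h ht)).1, fun t ht =>
            (Finset.mem_filter.1 (h ht)).2⟩
        · rintro ⟨h, h'⟩ t ht
          exact Finset.mem_filter.2 ⟨h ht, h' t ht⟩
      rw [h4, Finset.sum_filter]
      refine Finset.sum_congr rfl fun J _ => ?_
      split_ifs
      · rfl
      · rw [smul_zero]
    rw [h3, ← Finset.sum_smul, Finset.sum_powerset_neg_one_pow_card]
    have h5 : (T.filter fun t => ¬ cs.IsRightDescent w t) = ∅ ↔ w = lw M T := by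
      rw [Finset.filter_eq_empty_iff]
      constructor
      · intro h
        refine neg_unique M hT hw (fun s hs => (descent_iff M w s).1 ?_) hlw.1
          (fun s hs => hlw.neg hs)
        exact not_not.1 (h hs)
      · rintro rfl t ht
        exact not_not.2 ((descent_iff M _ t).2 (hlw.neg ht))
    by_cases h6 : w = lw M T
    · rw [if_pos (h5.2 h6), if_pos h6, one_smul]
    · rw [if_neg (fun h => h6 (h5.1 h)), if_neg h6, zero_smul]
  rw [Finset.sum_congr rfl h2, Finset.sum_ite_eq' (parF M T) (lw M T), if_pos ((mem_parF hT _).2 hlw.1)]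
  rfl

end Pool.Agent.H93.AA

end

section

/-!
# Project AA: the reduced `ℓ²`-homology of the Salvetti complex

The elements `β_{σ,∅}` map the Salvetti complex to the simplicial chain complex of the nerve with
coefficients in `ℓ²`; they act injectively since the alternating sum of the `β_{σ,J}` is `± Δ_σ`.
-/

set_option autoImplicit false
set_option linter.unusedSectionVars false

open Finset

namespace Pool.Agent.H93.AA

open Pool.Agent.H4.FC Pool.Agent.H78.RC Pool.Agent.H78.RA Pool.Agent.H4.Atiyah H42.NU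

section Lin

variable {Γ : Type} [Group Γ]

/-- an element of `ℓ²` whose absolute values are invariant under the translation by an element of
infinite order is zero -/
theorem zero_of_norm (t : Γ) (ht : ∀ n : ℕ, 0 < n → t ^ n ≠ 1) (x : Γ → ℂ)
    (hs : Summable fun g => ‖x g‖ ^ 2) (h1 : ∀ g, ‖x (g * t⁻¹)‖ = ‖x g‖) : x = 0 := by
  have h2 : ∀ (n : ℕ) (g : Γ), ‖x (g * (t ^ n)⁻¹)‖ = ‖x g‖ := by
    intro n
    induction n with
    | zero => intro g; simp
    | succ n ih =>
      intro g
      rw [pow_succ, mul_inv_rev, ← mul_assoc, ih, h1]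
  funext g
  show x g = 0
  by_contra hne
  have hinj : Function.Injective fun n : ℕ => g * (t ^ n)⁻¹ := by
    intro a b hab
    have h3 : g * (t ^ a)⁻¹ = g * (t ^ b)⁻¹ := hab
    have h4 : t ^ a = t ^ b := inv_injective (mul_left_cancel h3)
    by_contra hc
    rcases lt_or_gt_of_ne hc with hl | hl
    · apply ht (b - a) (by omega)
      have h5 : t ^ a * t ^ (b - a) = t ^ a * 1 := by
        rw [← pow_add, Nat.add_sub_cancel' hl.le, mul_one, h4]
      exact mul_left_cancel h5
    · apply ht (a - b) (by omega)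
      have h5 : t ^ b * t ^ (a - b) = t ^ b * 1 := by
        rw [← pow_add, Nat.add_sub_cancel' hl.le, mul_one, h4]
      exact mul_left_cancel h5
  have h6 := hs.comp_injective hinj
  have h7 : (fun g => ‖x g‖ ^ 2) ∘ (fun n : ℕ => g * (t ^ n)⁻¹) = fun _ => ‖x g‖ ^ 2 := by
    funext n
    show ‖x (g * (t ^ n)⁻¹)‖ ^ 2 = _
    rw [h2]
  rw [h7] at h6
  have h8 := (summable_const_iff _).1 h6
  exact hne (norm_eq_zero.1 (pow_eq_zero_iff (two_ne_zero) |>.1 h8))

end Lin

section

variable {S : Type} [Fintype S] [dS : DecidableEq S]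

/-- the elements `β_{T,J}` with complex coefficients -/
noncomputable def bC (M : CoxeterMatrix S) (T J : Finset S) : MonoidAlgebra ℂ (BG M) :=
  MonoidAlgebra.mapRingHom (BG M) (Int.castRingHom ℂ) (bt M T J)

theorem bC_eq (M : CoxeterMatrix S) (T J : Finset S) : bC M T J =
    ∑ w ∈ mn M T J, (-1 : ℂ) ^ M.toCoxeterSystem.length w •
      MonoidAlgebra.of ℂ (BG M) (lft M w) := by
  unfold bC bt
  rw [map_sum]
  apply Finset.sum_congr rfl
  intro w _
  rw [MonoidAlgebra.of_apply, MonoidAlgebra.of_apply, MonoidAlgebra.smul_single,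
    MonoidAlgebra.smul_single, MonoidAlgebra.mapRingHom_single]
  simp

theorem bC_self (M : CoxeterMatrix S) {T : Finset S} (hT : Sph M T) : bC M T T = 1 := by
  unfold bC
  rw [bt_self M hT, map_one]

theorem bC_mul (M : CoxeterMatrix S) {T J I : Finset S} (hT : Sph M T) (hJ : J ⊆ T) (hI : I ⊆ J) :
    bC M T J * bC M J I = bC M T I := by
  unfold bC
  rw [← map_mul, bt_mul M hT hJ hI]

theorem bC_alt (M : CoxeterMatrix S) {T : Finset S} (hT : Sph M T) :
    ∑ J ∈ T.powerset, (-1 : ℤ) ^ J.card • bC M T J =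
      (-1 : ℤ) ^ M.toCoxeterSystem.length (lw M T) • MonoidAlgebra.of ℂ (BG M) (dlt M T) := by
  have h := congrArg (MonoidAlgebra.mapRingHom (BG M) (Int.castRingHom ℂ)) (bt_alt M hT)
  rw [map_sum] at h
  simp only [map_zsmul] at h
  rw [MonoidAlgebra.of_apply, MonoidAlgebra.mapRingHom_single, map_one] at h
  exact h

theorem Rop_zsmul {Γ : Type} [Group Γ] (c : ℤ) (a : MonoidAlgebra ℂ Γ) :
    Rop (c • a) = c • Rop a := by
  unfold Rop
  rw [map_zsmul]
  rfl

theorem Rop_sum {Γ ι : Type} [Group Γ] (s : Finset ι) (a : ι → MonoidAlgebra ℂ Γ) :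
    Rop (∑ i ∈ s, a i) = ∑ i ∈ s, Rop (a i) := by
  unfold Rop
  rw [map_sum, Finset.unop_sum]

end

end Pool.Agent.H93.AA

end

section

/-!
# Project AB: components with general indices

As H78/RA/Cpx, Fn (written by helper78), with an arbitrary finite type of indices instead of the finite sets.
-/

set_option autoImplicit false
set_option linter.unusedSectionVars false

namespace Pool.Agent.H93.AB

open Finset
open Pool.Agent.H4.Atiyah Pool.Agent.H78.RA

/-- the indices which satisfy a predicate -/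
abbrev Iy {I : Type} (P : I → Prop) := {p : I // P p}

section

open Classical

variable {I : Type} [Fintype I] {Γ : Type} [Group Γ]

/-- the component with an index -/
noncomputable def cq (P : I → Prop) (x : LL (Iy P) Γ) (p : I) : LL Unit Γ :=
  if h : P p then pr (⟨p, h⟩ : Iy P) x else 0

theorem cq_pos {P : I → Prop} (x : LL (Iy P) Γ) (p : I) (h : P p) :
    cq P x p = pr (⟨p, h⟩ : Iy P) x := dif_pos h

theorem cq_neg {P : I → Prop} (x : LL (Iy P) Γ) (p : I) (h : ¬ P p) : cq P x p = 0 := dif_neg h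

theorem cq_supp {P : I → Prop} (x : LL (Iy P) Γ) (p : I) (h : cq P x p ≠ 0) : P p := by
  by_contra hc
  exact h (cq_neg x p hc)

theorem cq_ext {P : I → Prop} {x y : LL (Iy P) Γ} (h : ∀ p, cq P x p = cq P y p) : x = y := by
  apply ext_pr
  rintro ⟨p, hp⟩
  rw [← cq_pos, ← cq_pos, h]

theorem cq_zero {P : I → Prop} (p : I) : cq P (0 : LL (Iy P) Γ) p = 0 := by
  unfold cq
  split_ifs
  · exact map_zero _
  · rfl

theorem cq_sub {P : I → Prop} (x y : LL (Iy P) Γ) (p : I) :
    cq P (x - y) p = cq P x p - cq P y p := by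
  unfold cq
  split_ifs
  · exact map_sub _ _ _
  · rw [sub_zero]

/-- the operator of a matrix of operators -/
noncomputable def Mq (P Q : I → Prop) (M : I → I → BB Γ) : LL (Iy P) Γ →L[ℂ] LL (Iy Q) Γ :=
  Mop fun a b => M a.1 b.1

theorem cq_Mq (P Q : I → Prop) (M : I → I → BB Γ) (x : LL (Iy P) Γ) (b : I) (hb : Q b) :
    cq Q (Mq P Q M x) b = ∑ a, M a b (cq P x a) := by
  rw [cq_pos _ _ hb]
  unfold Mq
  rw [pr_Mop]
  have h1 : ∀ a, M a b (cq P x a) ≠ 0 → P a := by
    intro a ha
    by_contra hc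
    apply ha
    rw [cq_neg _ _ hc, map_zero]
  rw [← Finset.sum_filter_of_ne (p := P) (fun a _ h => h1 a h),
    Finset.sum_subtype (univ.filter P) (p := P) (by simp)]
  apply Finset.sum_congr rfl
  rintro ⟨a, ha⟩ _
  rw [cq_pos _ _ ha]

theorem eqv_Mq (P Q : I → Prop) (M : I → I → BB Γ) (h : ∀ a b, Eqv (M a b)) : Eqv (Mq P Q M) :=
  eqv_Mop _ fun a b => h a.1 b.1

/-- the diagonal operator -/
noncomputable def Aq (P : I → Prop) (α : I → BB Γ) : LL (Iy P) Γ →L[ℂ] LL (Iy P) Γ :=
  Mq P P fun a b => if a = b then α a else 0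

theorem cq_Aq (P : I → Prop) (α : I → BB Γ) (x : LL (Iy P) Γ) (p : I) :
    cq P (Aq P α x) p = α p (cq P x p) := by
  by_cases hp : P p
  · unfold Aq
    rw [cq_Mq P P _ x p hp, Finset.sum_eq_single p, if_pos rfl]
    · intro a _ ha
      rw [if_neg ha]
      rfl
    · intro h
      exact absurd (Finset.mem_univ _) h
  · rw [cq_neg _ _ hp, cq_neg _ _ hp, map_zero]

theorem eqv_Aq (P : I → Prop) (α : I → BB Γ) (hα : ∀ p, Eqv (α p)) : Eqv (Aq P α) := by
  apply eqv_Mq
  intro a b
  split_ifs
  · exact hα _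
  · exact Eqv.zero

/-- the element of `ℓ²` with given components -/
theorem exists_of_cq (P : I → Prop) (y : I → LL Unit Γ) (hy : ∀ p, y p ≠ 0 → P p) :
    ∃ w : LL (Iy P) Γ, ∀ p, cq P w p = y p := by
  refine ⟨∑ a : Iy P, inc a (y a.1), fun p => ?_⟩
  by_cases h : P p
  · rw [cq_pos _ _ h, map_sum, Finset.sum_eq_single (⟨p, h⟩ : Iy P)]
    · rw [pr_inc, if_pos rfl]
    · intro b _ hb
      rw [pr_inc, if_neg (Ne.symm hb)]
    · intro h1
      exact absurd (Finset.mem_univ _) h1
  · rw [cq_neg _ _ h]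
    by_contra h0
    exact h (hy p (Ne.symm h0))

/-! ### Functions -/

/-- square summable chains supported on the indices which satisfy `P` -/
structure IsF2 (P : I → Prop) (f : I → Γ → ℂ) : Prop where
  supp : ∀ p g, f p g ≠ 0 → P p
  l2 : ∀ p, Summable fun g => ‖f p g‖ ^ 2

theorem mem_of_f2 (P : I → Prop) {f : I → Γ → ℂ} (hf : IsF2 P f) :
    Summable fun p : Iy P × Γ => ‖f p.1.1 p.2‖ ^ 2 := by
  rw [← (Equiv.prodComm (Iy P) Γ).symm.summable_iff]
  apply (summable_prod_of_nonneg _).2
  · constructor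
    · intro g
      exact (hasSum_fintype _).summable
    · have h1 : ∀ g : Γ, ∑' j : Iy P, ‖f j.1 g‖ ^ 2 = ∑ j : Iy P, ‖f j.1 g‖ ^ 2 := fun g =>
        tsum_fintype _
      show Summable fun g : Γ => ∑' j : Iy P, ‖f j.1 g‖ ^ 2
      simp_rw [h1]
      exact summable_sum fun j _ => hf.l2 j.1
  · intro p
    exact sq_nonneg _

/-- the element of `ℓ²` of a chain -/
noncomputable def toQ (P : I → Prop) {f : I → Γ → ℂ} (hf : IsF2 P f) : LL (Iy P) Γ :=
  ⟨fun p => f p.1.1 p.2, (memlp_iff _).2 (mem_of_f2 P hf)⟩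

theorem ev_toQ (P : I → Prop) {f : I → Γ → ℂ} (hf : IsF2 P f) (p : I) (g : Γ) :
    ev g (cq P (toQ P hf) p) = f p g := by
  by_cases h : P p
  · rw [cq_pos _ _ h]
    show pr (⟨p, h⟩ : Iy P) (toQ P hf) ((), g) = _
    rw [pr_apply]
    rfl
  · rw [cq_neg _ _ h, map_zero]
    by_contra hne
    exact h (hf.supp p g (Ne.symm hne))

/-- the chain of an element of `ℓ²` -/
theorem isF2_cq (P : I → Prop) (x : LL (Iy P) Γ) : IsF2 P fun p g => ev g (cq P x p) where
  supp := by
    intro p g h
    apply cq_supp x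
    intro h0
    rw [h0, map_zero] at h
    exact h rfl
  l2 := by
    intro p
    have h1 : Summable fun q : Unit × Γ => ‖(cq P x p) q‖ ^ 2 := (memlp_iff _).1 (lp.memℓp _)
    exact h1.comp_injective (i := fun g : Γ => ((), g)) (fun a b h => (Prod.ext_iff.1 h).2)

theorem norm_sq_cq (P : I → Prop) (x : LL (Iy P) Γ) :
    ∑ p, ∑' g, ‖ev g (cq P x p)‖ ^ 2 = ‖x‖ ^ 2 := by
  have hs : Summable fun p : Iy P × Γ => ‖x p‖ ^ 2 := (memlp_iff _).1 (lp.memℓp _)
  rw [norm_sq_lp, hs.tsum_prod, tsum_fintype]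
  have h1 : ∀ p : I, ∑' g, ‖ev g (cq P x p)‖ ^ 2 ≠ 0 → P p := by
    intro p hp
    by_contra hc
    apply hp
    rw [cq_neg _ _ hc]
    simp
  rw [← Finset.sum_filter_of_ne (p := P) (fun p _ h => h1 p h),
    Finset.sum_subtype (univ.filter P) (p := P) (by simp)]
  apply Finset.sum_congr rfl
  rintro ⟨p, hp⟩ _
  apply tsum_congr
  intro g
  rw [cq_pos _ _ hp]
  show ‖pr (⟨p, hp⟩ : Iy P) x ((), g)‖ ^ 2 = _
  rw [pr_apply]

end

end Pool.Agent.H93.AB

end
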