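import Pool.Agent.H71.TSG.M77
import Pool.Agent.H71.TSG.M79

/-! The parts of this file: H65.AB.SumZ, H93.AA.Gar, H65.AB.Let, H65.AB.ExpS, H65.AB.KapDefs, H65.AB.KapX, H65.AB.LemK, H65.AB.LemKC, H65.AB.MAB, H65.AB.SepW, H65.AB.Wn, H65.AB.SepBl, H93.AB.Emb, H93.AB.Apx. -/

section

/-!
# Project AB: the sum over all pairs of cubes

PROOF: as BU/Sum; for `v ∈ FF` the involution `w ↦ w s_v` preserves `wf` (`mul_wf`); for `v ∉ FF` there is only the face
`fa`, and the condition `pr q.1 v = 0` is automatic for `q.1 ∈ wf` (`pr_wf`).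
-/

set_option autoImplicit false
set_option linter.unusedSectionVars false

open Finset

namespace Pool.Agent.H65.AB

open Pool.Agent.H65.RA Pool.Agent.H65.BU

variable {V W A : Type} [Fintype V] [DecidableEq V] [Group W] [Group A] {M : CoxeterMatrix V}
  {G : SimpleGraph V} {cs : CoxeterSystem M W} {p : V × Bool → A} {pr : W → V → ZMod 2}
  {g : (V → Bool) → W → A} {e : V → ℕ} {x : Finset V → ZMod 2} {k : ℕ} {FF : Finset V}

/-- a sum over the union of `C` and its image under an involution -/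
private theorem sum_fold_finsum {α : Type} (σ : α → α) (hσ : Function.Involutive σ) {T : α → ZMod 2}
    (hT : (Function.support T).Finite) (C C' : α → Prop) [DecidablePred C] [DecidablePred C']
    (h1 : ∀ q, C' q ↔ C q ∨ C (σ q)) (h2 : ∀ q, C q → ¬ C (σ q)) :
    ∑ᶠ q, (if C q then T q + T (σ q) else 0) = ∑ᶠ q, if C' q then T q else 0 := by
  have hF1 : (Function.support fun q => if C q then T q else 0).Finite := by
    refine hT.subset fun q hq => ?_
    rw [Function.mem_support] at hq ⊢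
    intro h
    apply hq
    simp only [h, ite_self]
  have hF2 : (Function.support fun q => if C q then T (σ q) else 0).Finite := by
    refine (hT.preimage hσ.injective.injOn).subset fun q hq => ?_
    rw [Function.mem_support] at hq
    rw [Set.mem_preimage, Function.mem_support]
    intro h
    apply hq
    simp only [h, ite_self]
  have hF3 : (Function.support fun q => if C (σ q) then T q else 0).Finite := by
    refine hT.subset fun q hq => ?_
    rw [Function.mem_support] at hq ⊢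
    intro h
    apply hq
    simp only [h, ite_self]
  have e1 : ∑ᶠ q, (if C q then T q + T (σ q) else 0) =
      ∑ᶠ q, ((if C q then T q else 0) + (if C q then T (σ q) else 0)) := by
    refine finsum_congr fun q => ?_
    by_cases h : C q
    · rw [if_pos h, if_pos h, if_pos h]
    · rw [if_neg h, if_neg h, if_neg h, add_zero]
  have e2 : ∑ᶠ q, (if C q then T (σ q) else 0) = ∑ᶠ q, (if C (σ q) then T q else 0) := by
    rw [← finsum_comp σ hσ.bijective (g := fun q => if C (σ q) then T q else 0)]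
    refine finsum_congr fun q => ?_
    simp only [hσ q]
  rw [e1, finsum_add_distrib hF1 hF2, e2, ← finsum_add_distrib hF1 hF3]
  refine finsum_congr fun q => ?_
  by_cases h : C q
  · rw [if_pos h, if_neg (h2 q h), if_pos ((h1 q).2 (Or.inl h)), add_zero]
  · by_cases h' : C (σ q)
    · rw [if_neg h, if_pos h', if_pos ((h1 q).2 (Or.inr h')), zero_add]
    · rw [if_neg h, if_neg h', if_neg (fun hc => ((h1 q).1 hc).elim h h'), add_zero]

/-- the term of the pair `q` -/
private noncomputable def trm (G : SimpleGraph V) (cs : CoxeterSystem M W) (e : V → ℕ)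
    (x : Finset V → ZMod 2) (k : ℕ) (φ : Cub V W → Cub V W → ZMod 2) (s t : Finset V)
    (q : W × W) : ZMod 2 :=
  Ps G e x k (fun a b => φ (q.1, s, a) (q.2, t, b)) (FH cs q.1 s) (FH cs q.2 t)

private theorem trm_support {φ : Cub V W → Cub V W → ZMod 2} (h : FinSupp φ) (s t : Finset V) :
    (Function.support (trm G cs e x k φ s t)).Finite := by
  refine Set.Finite.subset h fun q hq => ?_
  by_contra hn
  apply hq
  have h0 : (fun a b => φ (q.1, s, a) (q.2, t, b)) = fun _ _ => (0 : ZMod 2) := by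
    funext a b
    by_contra h1
    exact hn ⟨s, a, t, b, h1⟩
  unfold trm
  rw [h0, Ps_zero]

private theorem ite_support {α : Type} {T : α → ZMod 2} (h : (Function.support T).Finite)
    (C : α → Prop) [DecidablePred C] : (Function.support fun q => if C q then T q else 0).Finite := by
  refine h.subset fun q hq => ?_
  rw [Function.mem_support] at hq ⊢
  intro h0
  apply hq
  simp only [h0, ite_self]

theorem KKF_congr {φ φ' : Cub V W → Cub V W → ZMod 2} {s t : Finset V}
    (hs : G.IsClique (s : Set V)) (ht : G.IsClique (t : Set V))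
    (h : ∀ w w' a b, OkF G cs FF pr (w, s, a) (w', t, b) →
      φ (w, s, a) (w', t, b) = φ' (w, s, a) (w', t, b)) :
    KKF G cs FF pr e x k φ s t = KKF G cs FF pr e x k φ' s t := by
  unfold KKF
  refine finsum_congr fun q => ?_
  by_cases hq : (q.1 ∈ wf cs FF ∧ q.2 ∈ wf cs FF) ∧
      (∀ v ∈ s, pr q.1 v = 0) ∧ (∀ v ∈ t, pr q.2 v = 0)
  · rw [if_pos hq, if_pos hq]
    refine Ps_congr e x k fun α β hd => h q.1 q.2 _ _ ?_
    exact ⟨⟨⟨hs, hq.2.1, α, rfl⟩, ⟨ht, hq.2.2, β, rfl⟩, hd⟩, hq.1⟩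
  · rw [if_neg hq, if_neg hq]

theorem KKF_add {φ φ' : Cub V W → Cub V W → ZMod 2} (h : FinSupp φ) (h' : FinSupp φ')
    (s t : Finset V) : KKF G cs FF pr e x k (fun c c' => φ c c' + φ' c c') s t =
      KKF G cs FF pr e x k φ s t + KKF G cs FF pr e x k φ' s t := by
  classical
  have hf := trm_support (G := G) (cs := cs) (e := e) (x := x) (k := k) h s t
  have hf' := trm_support (G := G) (cs := cs) (e := e) (x := x) (k := k) h' s t
  unfold KKF
  unfold trm at hf hf'
  rw [← finsum_add_distrib (ite_support hf _) (ite_support hf' _)]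
  refine finsum_congr fun q => ?_
  by_cases hq : (q.1 ∈ wf cs FF ∧ q.2 ∈ wf cs FF) ∧
      (∀ v ∈ s, pr q.1 v = 0) ∧ (∀ v ∈ t, pr q.2 v = 0)
  · rw [if_pos hq, if_pos hq, if_pos hq, Ps_add]
  · rw [if_neg hq, if_neg hq, if_neg hq, add_zero]

theorem KKF_swap (he : Function.Injective e)
    (hx : ∀ D : Finset V, G.IsClique (D : Set V) → D.card = k + 2 → ∑ v ∈ D, x (D.erase v) = 0)
    (φ : Cub V W → Cub V W → ZMod 2) (s t : Finset V) :
    KKF G cs FF pr e x k (fun c c' => φ c' c) s t = KKF G cs FF pr e x k φ t s := by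
  classical
  unfold KKF
  refine Eq.trans ?_ (finsum_comp_equiv (Equiv.prodComm W W)
    (f := fun q : W × W => if (q.1 ∈ wf cs FF ∧ q.2 ∈ wf cs FF) ∧
        (∀ v ∈ t, pr q.1 v = 0) ∧ (∀ v ∈ s, pr q.2 v = 0) then
      Ps G e x k (fun a b => φ (q.1, t, a) (q.2, s, b)) (FH cs q.1 t) (FH cs q.2 s) else 0))
  refine finsum_congr fun q => ?_
  simp only [Equiv.prodComm_apply, Prod.fst_swap, Prod.snd_swap]
  by_cases hq : (q.1 ∈ wf cs FF ∧ q.2 ∈ wf cs FF) ∧
      (∀ v ∈ s, pr q.1 v = 0) ∧ (∀ v ∈ t, pr q.2 v = 0)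
  · rw [if_pos hq, if_pos ⟨hq.1.symm, hq.2.symm⟩]
    exact Ps_swap e x k he hx (fun a b => φ (q.2, t, b) (q.1, s, a)) (FH cs q.1 s) (FH cs q.2 t)
  · rw [if_neg hq, if_neg (fun h => hq ⟨h.1.symm, h.2.symm⟩)]

/-- the part of the coboundary in the first variable -/
private noncomputable def dlFA (cs : CoxeterSystem M W) (FF : Finset V)
    (φ : Cub V W → Cub V W → ZMod 2) (c c' : Cub V W) : ZMod 2 :=
  ∑ v ∈ c.2.1, (φ (fa cs c v) c' + if v ∈ FF then φ (fb cs c v) c' else 0)

private theorem dlF_eq (cs : CoxeterSystem M W) (FF : Finset V) (φ : Cub V W → Cub V W → ZMod 2) :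
    dlF cs FF φ = fun c c' => dlFA cs FF φ c c' + dlFA cs FF (fun a b => φ b a) c' c := rfl

private theorem finSupp_swap {φ : Cub V W → Cub V W → ZMod 2} (h : FinSupp φ) :
    FinSupp (fun c c' => φ c' c) := by
  have h1 : {q : W × W | ∃ s a t b, φ (q.1, s, a) (q.2, t, b) ≠ 0}.Finite := h
  refine (h1.preimage (Prod.swap_injective.injOn (s := _))).subset ?_
  rintro q ⟨s, a, t, b, hq⟩
  exact ⟨t, b, s, a, hq⟩

private theorem finSupp_add {φ φ' : Cub V W → Cub V W → ZMod 2} (h : FinSupp φ)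
    (h' : FinSupp φ') : FinSupp (fun c c' => φ c c' + φ' c c') := by
  refine (Set.Finite.union h h').subset ?_
  rintro q ⟨s, a, t, b, hq⟩
  by_cases h0 : φ (q.1, s, a) (q.2, t, b) = 0
  · right
    refine ⟨s, a, t, b, fun h1 => hq ?_⟩
    simp only [h0, h1, add_zero]
  · exact Or.inl ⟨s, a, t, b, h0⟩

private theorem finSupp_dlFA {φ : Cub V W → Cub V W → ZMod 2} (h : FinSupp φ) :
    FinSupp (dlFA cs FF φ) := by
  have h1 : {q : W × W | ∃ s a t b, φ (q.1, s, a) (q.2, t, b) ≠ 0}.Finite := h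
  have h2 : ∀ v : V, ((fun q : W × W => (q.1 * cs.simple v, q.2)) ⁻¹'
      {q : W × W | ∃ s a t b, φ (q.1, s, a) (q.2, t, b) ≠ 0}).Finite := by
    intro v
    refine h1.preimage (Function.Injective.injOn ?_)
    rintro ⟨a, b⟩ ⟨a', b'⟩ hab
    rw [Prod.mk.injEq] at hab ⊢
    exact ⟨mul_right_cancel hab.1, hab.2⟩
  refine (h1.union (Set.finite_iUnion h2)).subset ?_
  rintro q ⟨s, a, t, b, hq⟩
  obtain ⟨v, _, hv⟩ := Finset.exists_ne_zero_of_sum_ne_zero hq
  by_cases h0 : φ (fa cs (q.1, s, a) v) (q.2, t, b) = 0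
  · right
    rw [Set.mem_iUnion]
    refine ⟨v, ?_⟩
    rw [h0, zero_add] at hv
    by_cases hvF : v ∈ FF
    · rw [if_pos hvF] at hv
      exact ⟨_, _, t, b, hv⟩
    · exact absurd (if_neg hvF) hv
  · left
    exact ⟨_, _, t, b, h0⟩

theorem finSupp_dlF {φ : Cub V W → Cub V W → ZMod 2} (h : FinSupp φ) :
    FinSupp (dlF cs FF φ) := by
  rw [dlF_eq]
  exact finSupp_add (finSupp_dlFA h) (finSupp_swap (finSupp_dlFA (finSupp_swap h)))

/-- the term of a face -/
private theorem Ps_fa (hF : Facts G cs) (hg : Apts cs pr p g) {s t : Finset V}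
    (hs : G.IsClique (s : Set V)) (ht : G.IsClique (t : Set V)) (φ : Cub V W → Cub V W → ZMod 2)
    {q : W × W} (hq1 : ∀ v ∈ s, pr q.1 v = 0) (hq2 : ∀ v ∈ t, pr q.2 v = 0) {v : V} (hv : v ∈ s) :
    Ps G e x k (fun a b => φ (fa cs (q.1, s, a) v) (q.2, t, b)) (FH cs q.1 s) (FH cs q.2 t) =
      trm G cs e x k φ (s.erase v) t q := by
  unfold trm
  have hX := FH_clique hF hg hs hq1
  have hY := FH_clique hF hg ht hq2
  rcases FH_a (cs := cs) q.1 hv with h | ⟨h, hvX, _, _⟩
  · rw [h]
    refine Ps_congr e x k fun α β _ => ?_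
    have h1 : fa cs (q.1, s, sgn (FH cs q.1 s) α) v =
        (q.1, s.erase v, sgn (FH cs q.1 s) α) := by
      unfold fa
      simp only
      rw [h, res_sgn (Finset.Subset.refl _)]
    rw [h1]
  · have h2 := Ps_forget (G := G) e x k hX hY hvX
      (fun a b => φ (q.1, s.erase v, a) (q.2, t, b))
    rw [← h] at h2
    exact h2

/-- the term of an opposite face -/
private theorem Ps_fb (hF : Facts G cs) (hg : Apts cs pr p g) {s t : Finset V}
    (hs : G.IsClique (s : Set V)) (φ : Cub V W → Cub V W → ZMod 2)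
    {q : W × W} (hq1 : ∀ v ∈ s, pr q.1 v = 0) {v : V} (hv : v ∈ s) :
    Ps G e x k (fun a b => φ (fb cs (q.1, s, a) v) (q.2, t, b)) (FH cs q.1 s) (FH cs q.2 t) =
      trm G cs e x k φ (s.erase v) t (q.1 * cs.simple v, q.2) := by
  unfold trm
  have h := FH_b hF hg hs hq1 hv
  simp only
  rw [h]
  refine Ps_congr e x k fun α β _ => ?_
  have h1 : fb cs (q.1, s, sgn (FH cs q.1 s) α) v =
      (q.1 * cs.simple v, s.erase v, sgn (FH cs q.1 s) α) := by
    unfold fb
    simp only
    rw [h, res_sgn (Finset.Subset.refl _)]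
  rw [h1]

private theorem KKF_dlA (hF : Facts G cs) (hg : Apts cs pr p g)
    {φ : Cub V W → Cub V W → ZMod 2} (hφ : FinSupp φ) {s t : Finset V}
    (hs : G.IsClique (s : Set V)) (ht : G.IsClique (t : Set V)) :
    KKF G cs FF pr e x k (dlFA cs FF φ) s t = ∑ v ∈ s, KKF G cs FF pr e x k φ (s.erase v) t := by
  classical
  have hfin : ∀ v, (Function.support (trm G cs e x k φ (s.erase v) t)).Finite :=
    fun v => trm_support hφ (s.erase v) t
  have hinv : ∀ v, Function.Involutive fun q : W × W => (q.1 * cs.simple v, q.2) := by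
    rintro v ⟨a, b⟩
    simp only [cs.simple_mul_simple_cancel_right]
  -- the sum of the terms
  have e1 : KKF G cs FF pr e x k (dlFA cs FF φ) s t =
      ∑ᶠ q : W × W, ∑ v ∈ s, (if (q.1 ∈ wf cs FF ∧ q.2 ∈ wf cs FF) ∧
          (∀ u ∈ s, pr q.1 u = 0) ∧ (∀ u ∈ t, pr q.2 u = 0) then
        trm G cs e x k φ (s.erase v) t q +
          (if v ∈ FF then trm G cs e x k φ (s.erase v) t (q.1 * cs.simple v, q.2) else 0)
        else 0) := by
    unfold KKF
    refine finsum_congr fun q => ?_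
    by_cases hq : (q.1 ∈ wf cs FF ∧ q.2 ∈ wf cs FF) ∧
        (∀ u ∈ s, pr q.1 u = 0) ∧ (∀ u ∈ t, pr q.2 u = 0)
    · rw [if_pos hq]
      have e2 : ∀ v ∈ s, (if (q.1 ∈ wf cs FF ∧ q.2 ∈ wf cs FF) ∧
          (∀ u ∈ s, pr q.1 u = 0) ∧ (∀ u ∈ t, pr q.2 u = 0) then
          trm G cs e x k φ (s.erase v) t q +
          (if v ∈ FF then trm G cs e x k φ (s.erase v) t (q.1 * cs.simple v, q.2) else 0)
          else 0) =
          Ps G e x k (fun a b => φ (fa cs (q.1, s, a) v) (q.2, t, b) +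
            (if v ∈ FF then φ (fb cs (q.1, s, a) v) (q.2, t, b) else 0))
            (FH cs q.1 s) (FH cs q.2 t) := by
        intro v hv
        rw [if_pos hq, Ps_add, Ps_fa hF hg hs ht φ hq.2.1 hq.2.2 hv]
        congr 1
        by_cases hvF : v ∈ FF
        · simp only [if_pos hvF]
          exact (Ps_fb hF hg hs φ hq.2.1 hv).symm
        · simp only [if_neg hvF]
          exact (Ps_zero e x k _ _).symm
      rw [sum_congr rfl e2, ← Ps_sum]
      rfl
    · rw [if_neg hq]
      symm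
      exact sum_eq_zero fun v _ => if_neg hq
  have hfin2 : ∀ v ∈ s, (Function.support fun q : W × W =>
      (if (q.1 ∈ wf cs FF ∧ q.2 ∈ wf cs FF) ∧
          (∀ u ∈ s, pr q.1 u = 0) ∧ (∀ u ∈ t, pr q.2 u = 0) then
        trm G cs e x k φ (s.erase v) t q +
          (if v ∈ FF then trm G cs e x k φ (s.erase v) t (q.1 * cs.simple v, q.2) else 0)
        else 0)).Finite := by
    intro v _
    have h1 := (hfin v).union ((hfin v).preimage ((hinv v).injective.injOn (s := _)))
    refine ite_support (h1.subset fun q hq => ?_) _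
    by_cases h0 : trm G cs e x k φ (s.erase v) t q = 0
    · right
      rw [Function.mem_support, h0, zero_add] at hq
      by_cases hvF : v ∈ FF
      · rw [if_pos hvF] at hq
        exact hq
      · exact absurd (if_neg hvF) hq
    · exact Or.inl h0
  rw [e1, finsum_sum_comm s _ hfin2]
  refine sum_congr rfl fun v hv => ?_
  have hC : ∀ w : W, (∀ u ∈ s, pr w u = 0) ↔ pr w v = 0 ∧ ∀ u ∈ s.erase v, pr w u = 0 := by
    intro w
    constructor
    · intro h
      exact ⟨h v hv, fun u hu => h u (mem_of_mem_erase hu)⟩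
    · rintro ⟨h1, h2⟩ u hu
      by_cases huv : u = v
      · rw [huv, h1]
      · exact h2 u (mem_erase.2 ⟨huv, hu⟩)
  by_cases hvF : v ∈ FF
  · simp only [if_pos hvF]
    unfold KKF
    refine sum_fold_finsum (fun q : W × W => (q.1 * cs.simple v, q.2)) (hinv v)
      (T := trm G cs e x k φ (s.erase v) t) (hfin v)
      (fun q => (q.1 ∈ wf cs FF ∧ q.2 ∈ wf cs FF) ∧
        (∀ u ∈ s, pr q.1 u = 0) ∧ (∀ u ∈ t, pr q.2 u = 0))
      (fun q => (q.1 ∈ wf cs FF ∧ q.2 ∈ wf cs FF) ∧
        (∀ u ∈ s.erase v, pr q.1 u = 0) ∧ (∀ u ∈ t, pr q.2 u = 0)) ?_ ?_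
    · intro q
      have hE : (∀ u ∈ s.erase v, pr (q.1 * cs.simple v) u = 0) ↔
          ∀ u ∈ s.erase v, pr q.1 u = 0 := by
        refine forall₂_congr fun u hu => ?_
        rw [hg.pr_mul, if_neg (ne_of_mem_erase hu), add_zero]
      have hv1 : pr (q.1 * cs.simple v) v = pr q.1 v + 1 := by
        rw [hg.pr_mul, if_pos rfl]
      have hz : ∀ c : ZMod 2, c = 0 ∨ c + 1 = 0 := by decide
      simp only [hC, hE, hv1, mul_wf hvF]
      have := hz (pr q.1 v)
      tauto
    · rintro q ⟨_, h1, _⟩ ⟨_, h2, _⟩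
      have h3 := h2 v hv
      simp only at h3
      rw [hg.pr_mul, if_pos rfl, h1 v hv] at h3
      exact absurd h3 (by decide)
  · unfold KKF
    refine finsum_congr fun q => ?_
    by_cases hq : (q.1 ∈ wf cs FF ∧ q.2 ∈ wf cs FF) ∧
        (∀ u ∈ s, pr q.1 u = 0) ∧ (∀ u ∈ t, pr q.2 u = 0)
    · rw [if_pos hq, if_neg hvF, add_zero,
        if_pos ⟨hq.1, ((hC q.1).1 hq.2.1).2, hq.2.2⟩]
      rfl
    · rw [if_neg hq, if_neg]
      rintro ⟨h1, h2, h3⟩
      exact hq ⟨h1, (hC q.1).2 ⟨pr_wf hg h1.1 hvF, h2⟩, h3⟩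

/-- **The boundary of the sum over all pairs of cubes.** -/
theorem KKF_dl (hF : Facts G cs) (hg : Apts cs pr p g) (he : Function.Injective e)
    (hx : ∀ D : Finset V, G.IsClique (D : Set V) → D.card = k + 2 → ∑ v ∈ D, x (D.erase v) = 0)
    {φ : Cub V W → Cub V W → ZMod 2} (hφ : FinSupp φ) {s t : Finset V}
    (hs : G.IsClique (s : Set V)) (ht : G.IsClique (t : Set V)) :
    KKF G cs FF pr e x k (dlF cs FF φ) s t =
      ∑ v ∈ s, KKF G cs FF pr e x k φ (s.erase v) t +
        ∑ v ∈ t, KKF G cs FF pr e x k φ s (t.erase v) := by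
  have hφ' := finSupp_swap hφ
  rw [dlF_eq, KKF_add (finSupp_dlFA hφ) (finSupp_swap (finSupp_dlFA hφ')),
    KKF_dlA hF hg hφ hs ht, KKF_swap he hx (dlFA cs FF fun a b => φ b a) s t,
    KKF_dlA hF hg hφ' ht hs]
  congr 1
  refine sum_congr rfl fun v _ => ?_
  exact KKF_swap he hx φ (t.erase v) s

end Pool.Agent.H65.AB

end

section

/-!
# Project AA: the elements `Δ_T`

`dlt_conj`: for `s ∈ T` there is `s' ∈ T` with `lw * s = s' * lw` (`exists_perm`), `ℓ (lw * s) = ℓ lw - 1`, so
`Δ = lft (lw * s) * s = s' * lft (s' * lw)`, hence `s' * Δ = Δ * s`.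
`dlt_order`: the homomorphism to the integers with the value one on all generators (`bg_hom`) has the value
`ℓ (lw M T) > 0` on `Δ_T`.
-/

set_option autoImplicit false

open Finset

namespace Pool.Agent.H93.AA

open Pool.Agent.H4.FC Pool.Agent.H78.RC H42.NU

variable {S : Type}

/-- the two notions of parabolic subgroups agree -/
theorem mem_WP_of_par (M : CoxeterMatrix S) {T : Finset S} {w : M.Group} (hw : w ∈ par M T) :
    w ∈ Pool.Agent.H73.HVN.WP M.toCoxeterSystem (T : Set S) := by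
  refine (Subgroup.closure_le (K := Pool.Agent.H73.HVN.WP M.toCoxeterSystem (T : Set S))).2 ?_ hw
  rintro x ⟨v, hv, rfl⟩
  refine Subgroup.subset_closure ⟨v, hv, ?_⟩
  rw [M.toCoxeterSystem_simple]

/-- an element which commutes with the generators in `T` commutes with the lifts of the elements of `W_T` -/
theorem lft_comm_of (M : CoxeterMatrix S) {T : Finset S} {c : BG M}
    (hc : ∀ s ∈ T, c * bgen M s = bgen M s * c) {w : M.Group} (hw : w ∈ par M T) :
    c * lft M w = lft M w * c := by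
  have hred := (M.toCoxeterSystem.exists_isReduced w).choose_spec
  obtain ⟨ω, hω⟩ : ∃ ω, ω = (M.toCoxeterSystem.exists_isReduced w).choose := ⟨_, rfl⟩
  rw [← hω] at hred
  have hlft : lft M w = (ω.map (bgen M)).prod := by
    rw [hω]
    rfl
  have hmem : ∀ i ∈ ω, i ∈ (T : Set S) := by
    refine Pool.Agent.H73.HVN.mem_of_isReduced M.toCoxeterSystem hred.1 ?_
    rw [← hred.2]
    exact mem_WP_of_par M hw
  rw [hlft]
  clear hred hω hlft
  induction ω with
  | nil => simp
  | cons i ω ih =>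
    rw [List.map_cons, List.prod_cons, ← mul_assoc, hc i (hmem i List.mem_cons_self), mul_assoc,
      ih (fun j hj => hmem j (List.mem_cons_of_mem _ hj)), mul_assoc]

section

variable [Fintype S] [DecidableEq S]

/-- conjugation with `Δ_T` permutes the generators in `T`, the permutation is an involution -/
theorem dlt_conj (M : CoxeterMatrix S) {T : Finset S} (hT : Sph M T) :
    ∃ σ : S → S, (∀ s, σ (σ s) = s) ∧ (∀ s ∈ T, σ s ∈ T) ∧
      ∀ s ∈ T, dlt M T * bgen M s = bgen M (σ s) * dlt M T := by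
  obtain ⟨σ, h1, h2, h3, -⟩ := exists_perm M hT
  refine ⟨σ, h1, h2, fun s hs => ?_⟩
  have hl := lft_isLift M
  have hw := lw_spec M hT
  have hww := lw_mul_self M hT
  have hcs : ∀ i, M.toCoxeterSystem.simple i = M.simple i := fun i => by
    rw [M.toCoxeterSystem_simple]
  -- `w s = σ s w`
  have e1 : lw M T * M.simple s = M.simple (σ s) * lw M T := by
    rw [← h3 s hs, mul_assoc, hww, mul_one]
  -- `s` is a right descent
  have hd : M.toCoxeterSystem.IsRightDescent (lw M T) s := by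
    have a1 : lw M T * M.simple s ∈ par M T := mul_mem hw.1 (simple_mem_par M hs)
    have a2 := hw.2 _ a1
    have a3 := M.toCoxeterSystem.length_mul_simple_ne (lw M T) s
    rw [M.toCoxeterSystem_simple] at a3
    unfold CoxeterSystem.IsRightDescent
    rw [M.toCoxeterSystem_simple]
    exact lt_of_le_of_ne a2 a3
  have hlen := M.toCoxeterSystem.isRightDescent_iff.1 hd
  rw [hcs] at hlen
  -- `Δ = lft (w s) s`
  have e2 : dlt M T = lft M (lw M T * M.simple s) * bgen M s := by
    have := lift_descent hl hd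
    rw [hcs] at this
    exact this
  -- `Δ = s' lft (w s)`
  have e3 : dlt M T = bgen M (σ s) * lft M (lw M T * M.simple s) := by
    have a1 : lw M T = M.simple (σ s) * (lw M T * M.simple s) := by
      rw [e1, ← mul_assoc, simple_sq, one_mul]
    have a2 : M.toCoxeterSystem.length (M.simple (σ s) * (lw M T * M.simple s)) =
        M.toCoxeterSystem.length (M.simple (σ s)) +
          M.toCoxeterSystem.length (lw M T * M.simple s) := by
      rw [← a1, ← hcs (σ s), M.toCoxeterSystem.length_simple]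
      omega
    have a3 := lift_mul hl a2
    rw [← a1, ← hcs (σ s), lift_simple hl] at a3
    exact a3
  calc dlt M T * bgen M s = (bgen M (σ s) * lft M (lw M T * M.simple s)) * bgen M s := by rw [← e3]
    _ = bgen M (σ s) * (lft M (lw M T * M.simple s) * bgen M s) := mul_assoc _ _ _
    _ = bgen M (σ s) * dlt M T := by rw [← e2]

/-- `Δ_T ^ 2` is central in the subgroup generated by `T` -/
theorem dlt_sq_comm (M : CoxeterMatrix S) {T : Finset S} (hT : Sph M T) {s : S} (hs : s ∈ T) :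
    dlt M T ^ 2 * bgen M s = bgen M s * dlt M T ^ 2 := by
  obtain ⟨σ, h1, h2, h3⟩ := dlt_conj M hT
  rw [pow_two, mul_assoc, h3 s hs, ← mul_assoc, h3 (σ s) (h2 s hs), h1, mul_assoc]

theorem xg_comm (M : CoxeterMatrix S) {X Y : Irr M} (h : (nG M).Adj X Y) :
    xg M X * xg M Y = xg M Y * xg M X := by
  -- nested sets
  have key : ∀ X Y : Irr M, X.1 ⊆ Y.1 → xg M X * xg M Y = xg M Y * xg M X := by
    intro X Y hXY
    have h1 : dlt M Y.1 ^ 2 * dlt M X.1 = dlt M X.1 * dlt M Y.1 ^ 2 :=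
      lft_comm_of M (fun s hs => dlt_sq_comm M Y.2.1 (hXY hs)) (lw_spec M X.2.1).1
    have h2 : Commute (dlt M X.1) (dlt M Y.1 ^ 2) := h1.symm
    exact h2.pow_left 2
  rcases h.2 with h1 | h1 | h1
  · exact key X Y h1
  · exact (key Y X h1).symm
  · -- orthogonal sets
    have h0 : ∀ j ∈ X.1, ∀ k ∈ Y.1, bgen M j * bgen M k = bgen M k * bgen M j := by
      intro j hj k hk
      have hjk := h1 j hj k hk
      have hne : j ≠ k := by
        rintro rfl
        rw [M.diagonal] at hjk
        omega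
      have := artin_bgen (M := M) j k hne
      rw [hjk] at this
      simpa [pr, lt] using this
    have h2 : ∀ j ∈ X.1, bgen M j * dlt M Y.1 = dlt M Y.1 * bgen M j := fun j hj =>
      lft_comm_of M (fun k hk => h0 j hj k hk) (lw_spec M Y.2.1).1
    have h3 : dlt M Y.1 * dlt M X.1 = dlt M X.1 * dlt M Y.1 :=
      lft_comm_of M (fun j hj => (h2 j hj).symm) (lw_spec M X.2.1).1
    have h4 : Commute (dlt M X.1) (dlt M Y.1) := h3.symm
    exact (h4.pow_left 2).pow_right 2

theorem dlt_order (M : CoxeterMatrix S) {T : Finset S} (hT : Sph M T) (hne : T.Nonempty) (n : ℕ)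
    (hn : 0 < n) : dlt M T ^ n ≠ 1 := by
  have hA : Artin M (fun _ : S => Multiplicative.ofAdd (1 : ℤ)) := by
    intro s s' _
    have : ∀ (a b : S) (k : ℕ), pr (fun _ : S => Multiplicative.ofAdd (1 : ℤ)) a b k =
        Multiplicative.ofAdd (1 : ℤ) ^ k := by
      intro a b k
      induction k with
      | zero => rfl
      | succ k ih =>
        show pr (fun _ : S => Multiplicative.ofAdd (1 : ℤ)) a b k * _ = _
        rw [ih, pow_succ]
    rw [this, this]
  obtain ⟨Φ, hΦ⟩ := bg_hom _ hA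
  have hlen : Φ (dlt M T) =
      Multiplicative.ofAdd (1 : ℤ) ^ M.toCoxeterSystem.length (lw M T) := by
    have hred := (M.toCoxeterSystem.exists_isReduced (lw M T)).choose_spec
    obtain ⟨ω, hω⟩ : ∃ ω, ω = (M.toCoxeterSystem.exists_isReduced (lw M T)).choose := ⟨_, rfl⟩
    rw [← hω] at hred
    have hlft : dlt M T = (ω.map (bgen M)).prod := by
      rw [hω]
      rfl
    have h1 : ∀ l : List S, Φ (l.map (bgen M)).prod = Multiplicative.ofAdd (1 : ℤ) ^ l.length := by
      intro l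
      induction l with
      | nil => simp
      | cons i l ih => rw [List.map_cons, List.prod_cons, map_mul, hΦ, ih, List.length_cons, pow_succ']
    rw [hlft, h1, hred.2]
    congr 1
    exact hred.1.eq.symm
  have hpos : 0 < M.toCoxeterSystem.length (lw M T) := by
    obtain ⟨s, hs⟩ := hne
    have h1 := (lw_spec M hT).2 _ (simple_mem_par M hs)
    rw [← M.toCoxeterSystem_simple, M.toCoxeterSystem.length_simple] at h1
    omega
  intro h
  have h2 := congrArg Φ h
  rw [map_pow, map_one, hlen, ← pow_mul, ← ofAdd_nsmul] at h2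
  have h3 := congrArg Multiplicative.toAdd h2
  simp only [toAdd_ofAdd, toAdd_one, nsmul_eq_mul, mul_one] at h3
  have h4 : M.toCoxeterSystem.length (lw M T) * n = 0 := by exact_mod_cast h3
  rcases Nat.mul_eq_zero.1 h4 with h5 | h5 <;> omega

end

end Pool.Agent.H93.AA

end

section

/-!
# Project AB: the letters

The letters are the irreducible spherical sets `X : Irr M`; `lF M F` is the set of the letters `{v}`, `v ∈ F`; all the
other letters are disjoint from `F` (`disj`).
-/

set_option autoImplicit false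
set_option linter.unusedSectionVars false

open Finset

namespace Pool.Agent.H65.AB

open H42.NU Pool.Agent.H4.FC Pool.Agent.H78.RC Pool.Agent.H93.AA Pool.Agent.H65.RA

variable {S : Type} [Fintype S] [DecidableEq S] {M : CoxeterMatrix S} {F : Finset S}
  {Γ : S → Type} [∀ v, Group (Γ v)]

private theorem let_sph_single (M : CoxeterMatrix S) (v : S) : Sph M {v} := by
  have h1 : (par M {v} : Set M.Group) ⊆ {1, M.simple v} := by
    refine par_induction M {v} (p := fun w => w ∈ ({1, M.simple v} : Set M.Group))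
      (Or.inl rfl) ?_
    intro u hu w hw
    rw [Finset.mem_singleton.mp hu]
    rcases hw with hw | hw
    · right
      rw [hw, mul_one]
      exact rfl
    · left
      rw [Set.mem_singleton_iff.mp hw, simple_sq]
  exact (((Set.finite_singleton (M.simple v)).insert 1).subset h1).to_subtype

private theorem let_sph_ne {X : Finset S} (hX : Sph M X) {s t : S} (hs : s ∈ X) (ht : t ∈ X)
    (hst : s ≠ t) : M s t ≠ 0 :=
  (sph_cl M X hX s hs t ht hst).2

theorem irr_sing (M : CoxeterMatrix S) (v : S) : Sph M {v} ∧ Con (diag M) {v} :=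
  ⟨let_sph_single M v, con_single (diag M) v⟩

/-- the letter `{v}` -/
def sing (M : CoxeterMatrix S) (v : S) : Irr M := ⟨{v}, irr_sing M v⟩

open Classical in
/-- the letters of the groups `Γ v`, `v ∈ F` -/
noncomputable def lF (M : CoxeterMatrix S) [Fintype (Irr M)] (F : Finset S) : Finset (Irr M) :=
  univ.filter fun X => ∃ v ∈ F, X = sing M v

theorem mem_lF [Fintype (Irr M)] {X : Irr M} : X ∈ lF M F ↔ ∃ v ∈ F, X = sing M v := by
  classical
  unfold lF
  rw [mem_filter]
  exact ⟨fun h => h.2, fun h => ⟨mem_univ X, h⟩⟩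

theorem sing_inj {u v : S} (h : sing M u = sing M v) : u = v :=
  singleton_injective (congrArg Subtype.val h)

open Classical in
/-- the elements of the letters: `q v b` in the group `Γ v`, the powers `Δ_X ^ (± 2)` otherwise -/
noncomputable def pA (M : CoxeterMatrix S) (F : Finset S) {Γ : S → Type} [∀ v, Group (Γ v)]
    (q : ∀ v, Bool → Γ v) (x : Irr M × Bool) : AG M F Γ :=
  if h : ∃ v ∈ F, x.1 = sing M v then io M F h.choose (q h.choose x.2)
  else if x.2 then th M F Γ (xg M x.1) else (th M F Γ (xg M x.1))⁻¹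

theorem pA_sing (q : ∀ v, Bool → Γ v) {v : S} (hv : v ∈ F) (b : Bool) :
    pA M F q (sing M v, b) = io M F v (q v b) := by
  have h : ∃ u ∈ F, (sing M v, b).1 = sing M u := ⟨v, hv, rfl⟩
  have h1 : h.choose = v := (sing_inj h.choose_spec.2).symm
  unfold pA
  rw [dif_pos h, h1]

theorem pA_true [Fintype (Irr M)] (q : ∀ v, Bool → Γ v) {X : Irr M} (hX : X ∉ lF M F) :
    pA M F q (X, true) = th M F Γ (xg M X) := by
  have h : ¬ ∃ u ∈ F, (X, true).1 = sing M u := fun h => hX (mem_lF.2 h)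
  unfold pA
  rw [dif_neg h, if_pos rfl]

theorem pA_false [Fintype (Irr M)] (q : ∀ v, Bool → Γ v) {X : Irr M} (hX : X ∉ lF M F) :
    pA M F q (X, false) = (th M F Γ (xg M X))⁻¹ := by
  have h : ¬ ∃ u ∈ F, (X, false).1 = sing M u := fun h => hX (mem_lF.2 h)
  unfold pA
  rw [dif_neg h, if_neg (by simp)]

/-- the other letters are disjoint from `F` -/
theorem disj [Fintype (Irr M)] (hM : Mix M F) {X : Irr M} (hX : X ∉ lF M F) : Disjoint X.1 F := by
  rw [Finset.disjoint_left]
  intro v hv hvF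
  refine hX (mem_lF.2 ⟨v, hvF, Subtype.ext ?_⟩)
  show X.1 = {v}
  refine (X.2.2.2 {v} (singleton_subset_iff.2 hv) (singleton_nonempty v) ?_).symm
  intro a ha b hb hab
  rw [mem_singleton] at ha
  subst ha
  rw [mem_sdiff, mem_singleton] at hb
  rcases hM.two a hvF b hb.2 with h1 | h1
  · exact hab.2 h1
  · exact let_sph_ne X.2.1 hv hb.1 hab.1 h1

theorem adj_sing [Fintype (Irr M)] (hM : Mix M F) {X : Irr M} (hX : X ∉ lF M F) {v : S}
    (hv : v ∈ F) : (nG M).Adj (sing M v) X ↔ ∀ s ∈ X.1, M v s = 2 := by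
  have hd := disj hM hX
  constructor
  · rintro ⟨-, h1 | h1 | h1⟩ s hs
    · exact absurd hv (Finset.disjoint_left.1 hd (h1 (mem_singleton_self v)))
    · have h2 : s = v := mem_singleton.1 (h1 hs)
      rw [h2] at hs
      exact absurd hv (Finset.disjoint_left.1 hd hs)
    · exact h1 v (mem_singleton_self v) s hs
  · intro h
    refine ⟨fun he => hX (mem_lF.2 ⟨v, hv, he.symm⟩), Or.inr (Or.inr fun j hj k hk => ?_)⟩
    rw [mem_singleton.1 hj]
    exact h k hk

theorem adj_sing_sing (hM : Mix M F) {u v : S} (hu : u ∈ F) :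
    (nG M).Adj (sing M u) (sing M v) ↔ M u v = 2 := by
  constructor
  · rintro ⟨hne, h1 | h1 | h1⟩
    · exact absurd (congrArg (sing M) (mem_singleton.1 (h1 (mem_singleton_self u)))) hne
    · exact absurd (congrArg (sing M) (mem_singleton.1 (h1 (mem_singleton_self v))).symm) hne
    · exact h1 u (mem_singleton_self u) v (mem_singleton_self v)
  · intro h
    refine ⟨fun he => ?_, Or.inr (Or.inr fun j hj k hk => ?_)⟩
    · rw [sing_inj he, M.diagonal] at h
      exact absurd h (by norm_num)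
    · rw [mem_singleton.1 hj, mem_singleton.1 hk]
      exact h

/-- a reduced word -/
private theorem let_word (M : CoxeterMatrix S) {T : Finset S} {w : M.Group} (hw : w ∈ par M T) :
    ∃ ω : List S, ω.length = M.toCoxeterSystem.length w ∧ (∀ i ∈ ω, i ∈ T) ∧
      lft M w = (ω.map (bgen M)).prod := by
  have hred := (M.toCoxeterSystem.exists_isReduced w).choose_spec
  obtain ⟨ω, hω⟩ : ∃ ω, ω = (M.toCoxeterSystem.exists_isReduced w).choose := ⟨_, rfl⟩
  rw [← hω] at hred
  have hlft : lft M w = (ω.map (bgen M)).prod := by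
    rw [hω]
    rfl
  have hmem : ∀ i ∈ ω, i ∈ (T : Set S) := by
    refine Pool.Agent.H73.HVN.mem_of_isReduced M.toCoxeterSystem hred.1 ?_
    rw [← hred.2]
    exact mem_WP_of_par M hw
  refine ⟨ω, ?_, hmem, hlft⟩
  have h1 := hred.1.eq
  rw [← hred.2] at h1
  exact h1.symm

/-- the positive lifts of the elements of `W_T` are in the subgroup of the generators in `T` -/
theorem lft_mem_gp (M : CoxeterMatrix S) {T : Finset S} {w : M.Group} (hw : w ∈ par M T) :
    lft M w ∈ Subgroup.closure {x : BG M | ∃ s ∈ T, x = bgen M s} := by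
  obtain ⟨ω, -, hmem, hlft⟩ := let_word M hw
  rw [hlft]
  refine Subgroup.list_prod_mem _ fun x hx => ?_
  obtain ⟨i, hi, rfl⟩ := List.mem_map.1 hx
  exact Subgroup.subset_closure ⟨i, hmem i hi, rfl⟩

theorem xg_mem_gp (M : CoxeterMatrix S) (X : Irr M) :
    xg M X ∈ Subgroup.closure {x : BG M | ∃ s ∈ X.1, x = bgen M s} :=
  pow_mem (lft_mem_gp M (lw_spec M X.2.1).1) 2

private theorem let_pA [Fintype (Irr M)] (q : ∀ v, Bool → Γ v) {X : Irr M} (hX : X ∉ lF M F)
    (b : Bool) {c : AG M F Γ} (h : Commute c (th M F Γ (xg M X))) : Commute c (pA M F q (X, b)) := by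
  cases b
  · rw [pA_false q hX]
    exact h.inv_right
  · rw [pA_true q hX]
    exact h

private theorem let_io [Fintype (Irr M)] (hM : Mix M F) {X : Irr M} (hX : X ∉ lF M F) {v : S}
    (hv : v ∈ F) (h : (nG M).Adj (sing M v) X) (a : Γ v) :
    Commute (io M F v a) (th M F Γ (xg M X)) := by
  have h1 := (adj_sing hM hX hv).1 h
  have h2 : xg M X ∈ (Subgroup.centralizer {io M F v a}).comap (th M F Γ) := by
    refine (Subgroup.closure_le _).2 ?_ (xg_mem_gp M X)
    rintro x ⟨s, hs, rfl⟩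
    show th M F Γ (bgen M s) ∈ Subgroup.centralizer {io M F v a}
    rw [Subgroup.mem_centralizer_iff]
    intro y hy
    rw [Set.mem_singleton_iff.1 hy]
    have h3 : M s v = 2 := by
      rw [M.symmetric]
      exact h1 s hs
    exact (th_io h3 a).symm
  have h3 : th M F Γ (xg M X) ∈ Subgroup.centralizer {io M F v a} := h2
  rw [Subgroup.mem_centralizer_iff] at h3
  exact h3 _ rfl

/-- **The elements of adjacent letters commute.** -/
theorem pA_comm [Fintype (Irr M)] (hM : Mix M F) (q : ∀ v, Bool → Γ v) (x y : Irr M × Bool)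
    (h : (oct (nG M)).Adj x y) : pA M F q x * pA M F q y = pA M F q y * pA M F q x := by
  obtain ⟨X, b⟩ := x
  obtain ⟨Y, c⟩ := y
  have hXY : (nG M).Adj X Y := h
  by_cases hX : X ∈ lF M F
  · obtain ⟨u, hu, rfl⟩ := mem_lF.1 hX
    by_cases hY : Y ∈ lF M F
    · obtain ⟨v, hv, rfl⟩ := mem_lF.1 hY
      rw [pA_sing q hu, pA_sing q hv]
      exact io_io ((adj_sing_sing hM hu).1 hXY) _ _
    · rw [pA_sing q hu]
      exact let_pA q hY c (let_io hM hY hu hXY _)
  · by_cases hY : Y ∈ lF M F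
    · obtain ⟨v, hv, rfl⟩ := mem_lF.1 hY
      rw [pA_sing q hv]
      exact (let_pA q hX b (let_io hM hX hv hXY.symm _)).symm
    · refine let_pA q hY c (Commute.symm (let_pA q hX b ?_))
      show th M F Γ (xg M Y) * th M F Γ (xg M X) = th M F Γ (xg M X) * th M F Γ (xg M Y)
      rw [← map_mul, ← map_mul, xg_comm M hXY]

/-- the subgroup generated by the generators in `Y` -/
def gp (M : CoxeterMatrix S) (Y : Finset S) : Subgroup (BG M) :=
  Subgroup.closure {x : BG M | ∃ s ∈ Y, x = bgen M s}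

end Pool.Agent.H65.AB

end

section

/-!
# Project AB: the exponents of close positions

PROOF. Let `r` be the retraction (`exists_ret`). `r (g a w) = 1` for `w ∈ wf` (`wf_ind`), `r (th (xg X)) = xg X` for
`X ∉ lF` (`xg_mem_gp`, `disj`). So for `h⁻¹ h' = x ∈ E` the element `r x = r (zp a m)⁻¹ r (zp b m')`, where
`r (zp (pA) a m) = zp (xg X ^ ±1) a m` (`zp_map`, `zp_congr'`), is in the subgroup `Γ` of `exists_ex`, and
`ex X (r x) = 2 (± m' X) - 2 (± m X)` (`zp_sum` in the group `Γ`). `N` = the maximum of the `|ex X (r x)|`.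
-/

set_option autoImplicit false
set_option linter.unusedSectionVars false

open Finset

namespace Pool.Agent.H65.AB

open H42.NU Pool.Agent.H4.FC Pool.Agent.H78.RC Pool.Agent.H93.AA Pool.Agent.H65.RA
open Pool.Agent.H65.BU (RA Apts)

/-- signs -/
def sz (b : Bool) : ℤ := if b then 1 else -1

variable {S : Type} [Fintype S] [DecidableEq S] {M : CoxeterMatrix S} {F : Finset S}
  {Γ : S → Type} [∀ v, Group (Γ v)] {W : Type} [Group W] [Fintype (Irr M)]
  {M' : CoxeterMatrix (Irr M)} {cs : CoxeterSystem M' W}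
  {q : ∀ v, Bool → Γ v} {pr : W → Irr M → ZMod 2} {g : (Irr M → Bool) → W → AG M F Γ}

/-- the retraction is the identity on the letters outside `F` -/
private theorem ret_th (hM : Mix M F) {r : AG M F Γ →* BG M}
    (hr : ∀ s, s ∉ F → r (th M F Γ (bgen M s)) = bgen M s) {X : Irr M} (hX : X ∉ lF M F) :
    r (th M F Γ (xg M X)) = xg M X := by
  have h1 := xg_mem_gp M X
  have h2 := disj hM hX
  refine Subgroup.closure_induction (p := fun x _ => r (th M F Γ x) = x) ?_ ?_ ?_ ?_ h1
  · rintro x ⟨s, hs, rfl⟩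
    exact hr s fun h => (disjoint_left.1 h2) hs h
  · rw [map_one, map_one]
  · intro x y _ _ hx hy
    rw [map_mul, map_mul, hx, hy]
  · intro x _ hx
    rw [map_inv, map_inv, hx]

/-- the retraction kills the apartments -/
private theorem ret_g (hg : Apts cs pr (pA M F q) g) {r : AG M F Γ →* BG M}
    (hi : ∀ v (a : Γ v), r (io M F v a) = 1) (a : Irr M → Bool) {w : W}
    (hw : w ∈ wf cs (lF M F)) : r (g a w) = 1 := by
  refine wf_ind (C := fun w => r (g a w) = 1) ?_ ?_ hw
  · rw [hg.one, map_one]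
  · intro w X _ hX hw
    obtain ⟨v, hv, rfl⟩ := mem_lF.1 hX
    have h1 : r (pA M F q (sing M v, a (sing M v))) = 1 := by
      rw [pA_sing q hv, hi]
    rw [hg.mul]
    split_ifs
    · rw [map_mul, hw, h1, one_mul]
    · rw [map_mul, map_inv, hw, h1, one_mul, inv_one]

/-- **The exponents of close positions.** -/
theorem exps (hM : Mix M F) (hg : Apts cs pr (pA M F q) g) (E : Finset (AG M F Γ)) :
    ∃ N : ℤ, ∀ (w w' : W) (m m' : Irr M → ℕ) (a b : Irr M → Bool), w ∈ wf cs (lF M F) →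
      w' ∈ wf cs (lF M F) → Pos (nG M) (lF M F) m → Pos (nG M) (lF M F) m' →
      (g a w * zp (pA M F q) a m)⁻¹ * (g b w' * zp (pA M F q) b m') ∈ E →
      ∀ X : Irr M, |sz (b X) * m' X - sz (a X) * m X| ≤ N := by
  classical
  obtain ⟨r, hr, hi⟩ := exists_ret hM Γ
  obtain ⟨Γ₀, ex, hex, hexY⟩ := exists_ex M
  choose hY hval using hexY
  -- the elements of `Γ₀`
  let P : Irr M × Bool → Γ₀ := fun x => if x.2 then ⟨xg M x.1, hY x.1⟩ else ⟨xg M x.1, hY x.1⟩⁻¹
  have hone : ∀ X, ex X 1 = 0 := by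
    intro X
    have h1 := hex X 1 1
    rw [mul_one] at h1
    omega
  have hinv : ∀ X (x : Γ₀), ex X x⁻¹ = -ex X x := by
    intro X x
    have h1 := hex X x⁻¹ x
    rw [inv_mul_cancel, hone] at h1
    omega
  have hP : ∀ X Y b, ex X (P (Y, b)) = if X = Y then 2 * sz b else 0 := by
    intro X Y b
    cases b
    · show ex X (if false = true then _ else _) = _
      rw [if_neg Bool.false_ne_true, hinv, hval]
      split_ifs
      · rfl
      · rfl
    · show ex X (if true = true then _ else _) = _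
      rw [if_pos rfl, hval]
      rfl
  -- the retraction of the products
  have hz : ∀ (a : Irr M → Bool) (m : Irr M → ℕ), Pos (nG M) (lF M F) m →
      r (zp (pA M F q) a m) = (zp P a m : Γ₀) := by
    intro a m hm
    have h1 : ((zp P a m : Γ₀) : BG M) = zp (fun x => (P x : BG M)) a m := zp_map Γ₀.subtype P a m
    rw [zp_map, h1]
    refine zp_congr' fun X hX => ?_
    have hX' : X ∉ lF M F := hm.1 X hX
    show r (pA M F q (X, a X)) = (P (X, a X) : BG M)
    cases h2 : a X
    · rw [pA_false q hX', map_inv, ret_th hM hr hX']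
      show _ = (((if false = true then _ else _ : Γ₀)) : BG M)
      rw [if_neg Bool.false_ne_true]
      rfl
    · rw [pA_true q hX', ret_th hM hr hX']
      show _ = (((if true = true then _ else _ : Γ₀)) : BG M)
      rw [if_pos rfl]
  have hsum : ∀ X (a : Irr M → Bool) (m : Irr M → ℕ), ex X (zp P a m) = 2 * (sz (a X) * m X) := by
    intro X a m
    rw [zp_sum (ex X) (hex X) P a m, Finset.sum_eq_single X]
    · rw [hP, if_pos rfl, nsmul_eq_mul]
      ring
    · intro Y _ hYX
      rw [hP, if_neg fun h => hYX h.symm, smul_zero]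
    · intro h
      exact absurd (mem_univ X) h
  -- the bound
  let f : AG M F Γ → Irr M → ℤ := fun x X => if h : r x ∈ Γ₀ then |ex X ⟨r x, h⟩| else 0
  have hf : ∀ x X, 0 ≤ f x X := by
    intro x X
    show 0 ≤ (if h : r x ∈ Γ₀ then |ex X ⟨r x, h⟩| else 0)
    split_ifs
    · exact abs_nonneg _
    · exact le_rfl
  refine ⟨∑ x ∈ E, ∑ X, f x X, fun w w' m m' a b hw hw' hm hm' hE X => ?_⟩
  have h1 : r ((g a w * zp (pA M F q) a m)⁻¹ * (g b w' * zp (pA M F q) b m')) =
      (((zp P a m)⁻¹ * zp P b m' : Γ₀) : BG M) := by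
    rw [map_mul, map_inv, map_mul, map_mul, ret_g hg hi a hw, ret_g hg hi b hw', hz a m hm,
      hz b m' hm', one_mul, one_mul]
    rfl
  have h2 : r ((g a w * zp (pA M F q) a m)⁻¹ * (g b w' * zp (pA M F q) b m')) ∈ Γ₀ := by
    rw [h1]
    exact SetLike.coe_mem _
  have h3 : f ((g a w * zp (pA M F q) a m)⁻¹ * (g b w' * zp (pA M F q) b m')) X =
      |2 * (sz (b X) * m' X) - 2 * (sz (a X) * m X)| := by
    show (if h : r _ ∈ Γ₀ then |ex X ⟨r _, h⟩| else 0) = _
    rw [dif_pos h2]
    have h4 : (⟨r ((g a w * zp (pA M F q) a m)⁻¹ * (g b w' * zp (pA M F q) b m')), h2⟩ : Γ₀) =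
        (zp P a m)⁻¹ * zp P b m' := Subtype.ext h1
    rw [h4, hex, hinv, hsum, hsum]
    congr 1
    ring
  have h5 : f ((g a w * zp (pA M F q) a m)⁻¹ * (g b w' * zp (pA M F q) b m')) X ≤
      ∑ x ∈ E, ∑ X, f x X := by
    refine le_trans (single_le_sum (f := fun X => f _ X) (fun X _ => hf _ X) (mem_univ X)) ?_
    exact single_le_sum (f := fun x => ∑ X, f x X)
      (fun x _ => sum_nonneg fun X _ => hf x X) hE
  rw [h3, ← mul_sub, abs_mul, abs_two] at h5
  have h6 := abs_nonneg (sz (b X) * (m' X : ℤ) - sz (a X) * m X)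
  linarith

end Pool.Agent.H65.AB

end

section

/-!
# Project AB: the maps to the right-angled Coxeter group, definitions
-/

set_option autoImplicit false
set_option linter.unusedSectionVars false

open Finset

namespace Pool.Agent.H65.AB

open H42.NU Pool.Agent.H4.FC Pool.Agent.H78.RC Pool.Agent.H93.AA Pool.Agent.H65.RA

variable {S : Type} [Fintype S] [DecidableEq S] {M : CoxeterMatrix S} {F : Finset S}
  {Γ : S → Type} [∀ v, Group (Γ v)] {W : Type} [Group W] {M' : CoxeterMatrix (Irr M)}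

/-- The map `κ`: the elements of `Γ v` multiply by `s_v` if the value of `θ v` changes, the elements of the Artin group
multiply by `s_X` if `L` changes between `0` and `≠ 0`. -/
structure IsKap (cs : CoxeterSystem M' W) (X : Irr M) (L : AG M F Γ → ℤ) (θ : ∀ v, Γ v → Bool)
    (κ : AG M F Γ → W) : Prop where
  one : κ 1 = 1
  io : ∀ g, ∀ v ∈ F, ∀ a : Γ v, κ (g * io M F v a) =
    κ g * if θ v (pj M F v g * a) = θ v (pj M F v g) then 1 else cs.simple (sing M v)
  th : ∀ g (y : BG M), κ (g * th M F Γ y) =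
    κ g * if (L g = 0 ↔ L (g * th M F Γ y) = 0) then 1 else cs.simple X

end Pool.Agent.H65.AB

end

section

/-!
# Project AB: existence of the maps to the right-angled Coxeter group

PROOF (as BU/Kap, `exists_kappa`): `AG M F Γ` acts from the right on `W × (∀ v, Γ v) × ℤ`. The elements of `Γ v` act as
`ract`; a generator `s ∈ C`: `(x, c, n) ↦ (x * (if (n = 0 ↔ n + 1 = 0) then 1 else s_X), c, n + 1)`, the other generators
trivially. Relations: `artin_of` (two generators with a label different from two and infinity are both in `C` or both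
not in `C`), a generator `s ∈ C` and `Γ v`, `M s v = 2`: `s_X` and `s_v` commute (`hadj`). `κ g` is the first component of
`(1, 1, 0) · g`; the second component is `pj M F v g`, the third `L g`. The formula for `κ (g * th y)`: induction on `y`
(`bg_ind`).
-/

set_option autoImplicit false
set_option linter.unusedSectionVars false

open Finset

namespace Pool.Agent.H65.AB

open H42.NU Pool.Agent.H4.FC Pool.Agent.H78.RC Pool.Agent.H93.AA Pool.Agent.H65.RA
open Pool.Agent.H65.BU (RA Apts)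

section

variable {S W : Type} [DecidableEq S] [Group W] {Γ : S → Type} [∀ v, Group (Γ v)]

/-- the factor of the step from `p` to `r` -/
private def kx_stp (e : S → W) (θ : ∀ v, Γ v → Bool) (v : S) (p r : Γ v) : W :=
  if θ v r = θ v p then 1 else e v

/-- the right action of the vertex groups -/
private def kx_ract (e : S → W) (θ : ∀ v, Γ v → Bool) (v : S) (h : Γ v)
    (x : W × (∀ v, Γ v) × ℤ) : W × (∀ v, Γ v) × ℤ :=
  (x.1 * kx_stp e θ v (x.2.1 v) (x.2.1 v * h), Function.update x.2.1 v (x.2.1 v * h), x.2.2)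

private theorem kx_stp_mul (e : S → W) (he : ∀ v, e v * e v = 1) (θ : ∀ v, Γ v → Bool) (v : S)
    (p q r : Γ v) : kx_stp e θ v p q * kx_stp e θ v q r = kx_stp e θ v p r := by
  unfold kx_stp
  by_cases h1 : θ v q = θ v p
  · rw [if_pos h1, one_mul, h1]
  · rw [if_neg h1]
    by_cases h2 : θ v r = θ v q
    · rw [if_pos h2, mul_one, h2, if_neg h1]
    · have h3 : θ v r = θ v p := by
        revert h1 h2
        cases θ v r <;> cases θ v q <;> cases θ v p <;> simp
      rw [if_neg h2, if_pos h3, he]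

private theorem kx_ract_one (e : S → W) (θ : ∀ v, Γ v → Bool) (v : S)
    (x : W × (∀ v, Γ v) × ℤ) : kx_ract e θ v 1 x = x := by
  unfold kx_ract kx_stp
  rw [mul_one, if_pos rfl, mul_one, Function.update_eq_self]

private theorem kx_ract_mul (e : S → W) (he : ∀ v, e v * e v = 1) (θ : ∀ v, Γ v → Bool) (v : S)
    (a b : Γ v) (x : W × (∀ v, Γ v) × ℤ) :
    kx_ract e θ v (a * b) x = kx_ract e θ v b (kx_ract e θ v a x) := by
  unfold kx_ract
  refine Prod.ext ?_ (Prod.ext ?_ rfl)
  · show x.1 * kx_stp e θ v (x.2.1 v) (x.2.1 v * (a * b)) =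
      x.1 * kx_stp e θ v (x.2.1 v) (x.2.1 v * a) *
        kx_stp e θ v (Function.update x.2.1 v (x.2.1 v * a) v)
          (Function.update x.2.1 v (x.2.1 v * a) v * b)
    rw [Function.update_self, mul_assoc x.1, kx_stp_mul e he, mul_assoc (x.2.1 v)]
  · show Function.update x.2.1 v (x.2.1 v * (a * b)) =
      Function.update (Function.update x.2.1 v (x.2.1 v * a)) v
        (Function.update x.2.1 v (x.2.1 v * a) v * b)
    rw [Function.update_self, Function.update_idem, mul_assoc]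

private theorem kx_ract_comm (e : S → W) (θ : ∀ v, Γ v → Bool) {u v : S} (huv : u ≠ v)
    (hc : e u * e v = e v * e u) (a : Γ u) (b : Γ v) (x : W × (∀ v, Γ v) × ℤ) :
    kx_ract e θ u a (kx_ract e θ v b x) = kx_ract e θ v b (kx_ract e θ u a x) := by
  have h1 : ∀ p r p' r', kx_stp e θ u p r * kx_stp e θ v p' r' =
      kx_stp e θ v p' r' * kx_stp e θ u p r := by
    intro p r p' r'
    unfold kx_stp
    by_cases h1 : θ u r = θ u p
    · rw [if_pos h1, one_mul, mul_one]
    · by_cases h2 : θ v r' = θ v p'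
      · rw [if_pos h2, one_mul, mul_one]
      · rw [if_neg h1, if_neg h2, hc]
  unfold kx_ract
  refine Prod.ext ?_ (Prod.ext ?_ rfl)
  · show x.1 * kx_stp e θ v (x.2.1 v) (x.2.1 v * b) *
        kx_stp e θ u (Function.update x.2.1 v (x.2.1 v * b) u)
          (Function.update x.2.1 v (x.2.1 v * b) u * a) =
      x.1 * kx_stp e θ u (x.2.1 u) (x.2.1 u * a) *
        kx_stp e θ v (Function.update x.2.1 u (x.2.1 u * a) v)
          (Function.update x.2.1 u (x.2.1 u * a) v * b)
    rw [Function.update_of_ne huv, Function.update_of_ne huv.symm, mul_assoc, mul_assoc, h1]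
  · show Function.update (Function.update x.2.1 v (x.2.1 v * b)) u
        (Function.update x.2.1 v (x.2.1 v * b) u * a) =
      Function.update (Function.update x.2.1 u (x.2.1 u * a)) v
        (Function.update x.2.1 u (x.2.1 u * a) v * b)
    rw [Function.update_of_ne huv, Function.update_of_ne huv.symm, Function.update_comm huv]

/-- the left action of a vertex group -/
private def kx_lact (e : S → W) (he : ∀ v, e v * e v = 1) (θ : ∀ v, Γ v → Bool) (v : S) :
    Γ v →* Function.End (W × (∀ v, Γ v) × ℤ) where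
  toFun h := fun x => kx_ract e θ v h⁻¹ x
  map_one' := by
    funext x
    show kx_ract e θ v (1 : Γ v)⁻¹ x = x
    rw [inv_one, kx_ract_one]
  map_mul' a b := by
    funext x
    show kx_ract e θ v (a * b)⁻¹ x = kx_ract e θ v a⁻¹ (kx_ract e θ v b⁻¹ x)
    rw [mul_inv_rev, kx_ract_mul e he]

/-- the factor of the step of the integers from `n` to `m` -/
private def kx_sz (c : W) (n m : ℤ) : W := if (n = 0 ↔ m = 0) then 1 else c

private theorem kx_sz_mul (c : W) (hc : c * c = 1) (n m k : ℤ) :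
    kx_sz c n m * kx_sz c m k = kx_sz c n k := by
  unfold kx_sz
  by_cases h1 : (n = 0 ↔ m = 0)
  · rw [if_pos h1, one_mul]
    by_cases h2 : (m = 0 ↔ k = 0)
    · rw [if_pos h2, if_pos (h1.trans h2)]
    · rw [if_neg h2, if_neg]
      exact fun h3 => h2 (h1.symm.trans h3)
  · rw [if_neg h1]
    by_cases h2 : (m = 0 ↔ k = 0)
    · rw [if_pos h2, if_neg, mul_one]
      exact fun h3 => h1 (h3.trans h2.symm)
    · rw [if_neg h2, if_pos, hc]
      tauto

/-- the right action of the integers -/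
private def kx_zact (c : W) (k : ℤ) (x : W × (∀ v, Γ v) × ℤ) : W × (∀ v, Γ v) × ℤ :=
  (x.1 * kx_sz c x.2.2 (x.2.2 + k), x.2.1, x.2.2 + k)

private theorem kx_zact_zero (c : W) (x : W × (∀ v, Γ v) × ℤ) : kx_zact c 0 x = x := by
  unfold kx_zact kx_sz
  rw [add_zero, if_pos Iff.rfl, mul_one]

private theorem kx_zact_add (c : W) (hc : c * c = 1) (k l : ℤ) (x : W × (∀ v, Γ v) × ℤ) :
    kx_zact c (k + l) x = kx_zact c l (kx_zact c k x) := by
  unfold kx_zact
  refine Prod.ext ?_ (Prod.ext rfl ?_)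
  · show x.1 * kx_sz c x.2.2 (x.2.2 + (k + l)) =
      x.1 * kx_sz c x.2.2 (x.2.2 + k) * kx_sz c (x.2.2 + k) (x.2.2 + k + l)
    rw [mul_assoc, kx_sz_mul c hc, add_assoc]
  · show x.2.2 + (k + l) = x.2.2 + k + l
    rw [add_assoc]

private theorem kx_zact_comm (c : W) (e : S → W) (θ : ∀ v, Γ v → Bool) (v : S)
    (hc : c * e v = e v * c) (k : ℤ) (a : Γ v) (x : W × (∀ v, Γ v) × ℤ) :
    kx_zact c k (kx_ract e θ v a x) = kx_ract e θ v a (kx_zact c k x) := by
  unfold kx_zact kx_ract
  refine Prod.ext ?_ rfl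
  show x.1 * kx_stp e θ v (x.2.1 v) (x.2.1 v * a) * kx_sz c x.2.2 (x.2.2 + k) =
    x.1 * kx_sz c x.2.2 (x.2.2 + k) * kx_stp e θ v (x.2.1 v) (x.2.1 v * a)
  rw [mul_assoc, mul_assoc]
  congr 1
  unfold kx_stp kx_sz
  split_ifs
  · rfl
  · rw [one_mul, mul_one]
  · rw [one_mul, mul_one]
  · exact hc.symm

/-- the left action of the integers -/
private def kx_zl (Γ : S → Type) [∀ v, Group (Γ v)] (c : W) (hc : c * c = 1) :
    Multiplicative ℤ →* Function.End (W × (∀ v, Γ v) × ℤ) where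
  toFun h := fun x => kx_zact c (-Multiplicative.toAdd h) x
  map_one' := by
    funext x
    show kx_zact c (-(0 : ℤ)) x = x
    rw [neg_zero, kx_zact_zero]
  map_mul' a b := by
    funext x
    show kx_zact c (-(Multiplicative.toAdd a + Multiplicative.toAdd b)) x =
      kx_zact c (-Multiplicative.toAdd a) (kx_zact c (-Multiplicative.toAdd b) x)
    rw [← kx_zact_add c hc, neg_add, add_comm]

end

variable {S : Type} [Fintype S] [DecidableEq S] {M : CoxeterMatrix S} {F : Finset S}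
  {Γ : S → Type} [∀ v, Group (Γ v)] {W : Type} [Group W] [Fintype (Irr M)]
  {M' : CoxeterMatrix (Irr M)}

/-- **The maps `κ`.** -/
theorem exists_kap (hM : Mix M F) (hM' : RA (nG M) M') (cs : CoxeterSystem M' W) {C : Finset S}
    (hC : ∀ s ∈ C, s ∉ F) (hC2 : ∀ s ∈ C, ∀ t, t ∉ F → M s t ≠ 0 → M s t ≠ 2 → t ∈ C) (X : Irr M)
    (hadj : ∀ s ∈ C, ∀ v ∈ F, M v s = 2 → (nG M).Adj (sing M v) X) {L : AG M F Γ → ℤ}
    (hL : IsLam M F Γ C L) (θ : ∀ v, Γ v → Bool) :
    ∃ κ : AG M F Γ → W, IsKap cs X L θ κ := by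
  have hF := Pool.Agent.H65.BU.facts_of_ra hM' cs
  let e : S → W := fun v => cs.simple (sing M v)
  have he : ∀ v, e v * e v = 1 := fun v => cs.simple_mul_simple_self _
  let c : W := cs.simple X
  have hc : c * c = 1 := cs.simple_mul_simple_self _
  let z1 : (Function.End (W × (∀ v, Γ v) × ℤ))ˣ :=
    (kx_zl Γ c hc).toHomUnits (Multiplicative.ofAdd (1 : ℤ))
  let f0 : S → (Function.End (W × (∀ v, Γ v) × ℤ))ˣ := fun s => if s ∈ C then z1 else 1
  have hf0 : Artin M f0 := by
    refine artin_of f0 (fun s t _ _ => ?_) (fun s t hst h0 h2 => ?_)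
    · show (if s ∈ C then z1 else 1) * (if t ∈ C then z1 else 1) =
        (if t ∈ C then z1 else 1) * (if s ∈ C then z1 else 1)
      split_ifs
      · rfl
      · rw [mul_one, one_mul]
      · rw [mul_one, one_mul]
      · rfl
    · have h1 : s ∈ C → t ∈ C := by
        intro hs
        refine hC2 s hs t (fun ht => ?_) h0 h2
        rcases hM.two t ht s hst with h | h
        · exact h2 (by rw [M.symmetric]; exact h)
        · exact h0 (by rw [M.symmetric]; exact h)
      have h1' : t ∈ C → s ∈ C := by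
        intro ht
        refine hC2 t ht s (fun hs => ?_) (by rw [M.symmetric]; exact h0)
          (by rw [M.symmetric]; exact h2)
        rcases hM.two s hs t (Ne.symm hst) with h | h
        · exact h2 h
        · exact h0 h
      show (if s ∈ C then z1 else 1) = (if t ∈ C then z1 else 1)
      by_cases h3 : s ∈ C
      · rw [if_pos h3, if_pos (h1 h3)]
      · rw [if_neg h3, if_neg (fun h => h3 (h1' h))]
  let f : BG M →* (Function.End (W × (∀ v, Γ v) × ℤ))ˣ := liftBG f0 hf0
  let k : ∀ v, Γ v →* (Function.End (W × (∀ v, Γ v) × ℤ))ˣ := fun v =>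
    if v ∈ F then (kx_lact e he θ v).toHomUnits else 1
  have hk : ∀ v ∈ F, k v = (kx_lact e he θ v).toHomUnits := fun v hv => if_pos hv
  have hk' : ∀ v, v ∉ F → k v = 1 := fun v hv => if_neg hv
  have hfg : ∀ s, f (bgen M s) = f0 s := fun s => liftBG_gen f0 hf0 s
  have hf1 : ∀ s ∈ C, f0 s = z1 := fun s hs => if_pos hs
  have hf2 : ∀ s, s ∉ C → f0 s = 1 := fun s hs => if_neg hs
  let ρ : AG M F Γ →* (Function.End (W × (∀ v, Γ v) × ℤ))ˣ :=
    liftAG f k (fun v hv => by rw [hfg, hf2 v (fun h => hC v h hv)])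
      (fun v hv a => by rw [hk' v hv, MonoidHom.one_apply])
      (fun s v hs hv h2 a => by
        rw [hfg]
        by_cases hsC : s ∈ C
        · rw [hf1 s hsC, hk v hv]
          refine Units.ext ?_
          funext x
          exact kx_zact_comm c e θ v
            (hF.comm X (sing M v) (hadj s hsC v hv (by rw [M.symmetric]; exact h2)).symm)
            (-1) a⁻¹ x
        · rw [hf2 s hsC, one_mul, mul_one])
      (fun u v hu hv h2 a b => by
        rw [hk u hu, hk v hv]
        refine Units.ext ?_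
        funext x
        have huv : u ≠ v := by
          intro h
          rw [h, M.diagonal] at h2
          exact absurd h2 (by norm_num)
        exact kx_ract_comm e θ huv (hF.comm _ _ ((adj_sing_sing hM hu).2 h2)) a⁻¹ b⁻¹ x)
  have hρth : ∀ x, ρ (th M F Γ x) = f x := fun x => liftAG_th _ _ _ _ _ _ x
  have hρio : ∀ v (a : Γ v), ρ (io M F v a) = k v a := fun v a => liftAG_io _ _ _ _ _ _ v a
  let st : AG M F Γ → W × (∀ v, Γ v) × ℤ := fun g => (ρ g⁻¹).val (1, fun _ => 1, 0)
  have h1 : st 1 = (1, fun _ => 1, 0) := by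
    show (ρ (1 : AG M F Γ)⁻¹).val (1, fun _ => 1, 0) = _
    rw [inv_one, map_one]
    rfl
  have h2 : ∀ g, ∀ v ∈ F, ∀ h : Γ v, st (g * io M F v h) = kx_ract e θ v h (st g) := by
    intro g v hv h
    show (ρ (g * io M F v h)⁻¹).val (1, fun _ => 1, 0) = _
    rw [mul_inv_rev, map_mul, ← map_inv (io M F v) h, hρio, hk v hv]
    show kx_ract e θ v (h⁻¹)⁻¹ (st g) = _
    rw [inv_inv]
  have h3 : ∀ g, ∀ s ∈ C, st (g * th M F Γ (bgen M s)) = kx_zact c 1 (st g) := by
    intro g s hs
    show (ρ (g * th M F Γ (bgen M s))⁻¹).val (1, fun _ => 1, 0) = _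
    rw [mul_inv_rev, map_mul, map_inv ρ (th M F Γ (bgen M s)), hρth, hfg, hf1 s hs]
    have h4 : z1⁻¹ = (kx_zl Γ c hc).toHomUnits (Multiplicative.ofAdd (-1 : ℤ)) := by
      show ((kx_zl Γ c hc).toHomUnits (Multiplicative.ofAdd (1 : ℤ)))⁻¹ = _
      rw [← map_inv, ← ofAdd_neg]
    rw [h4]
    show kx_zact c (-(-1 : ℤ)) (st g) = _
    rw [neg_neg]
  have h4 : ∀ g s, s ∉ C → st (g * th M F Γ (bgen M s)) = st g := by
    intro g s hs
    show (ρ (g * th M F Γ (bgen M s))⁻¹).val (1, fun _ => 1, 0) = _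
    rw [mul_inv_rev, map_mul, map_inv ρ (th M F Γ (bgen M s)), hρth, hfg, hf2 s hs, inv_one]
    rfl
  have h5 : ∀ y g, st (g * th M F Γ y) = kx_zact c (L (th M F Γ y)) (st g) := by
    intro y
    refine bg_ind (C := fun y => ∀ g, st (g * th M F Γ y) = kx_zact c (L (th M F Γ y)) (st g))
      ?_ ?_ ?_ y
    · intro g
      rw [map_one, mul_one, hL.one, kx_zact_zero]
    · intro y s hy g
      rw [map_mul, ← mul_assoc, hL.mul]
      by_cases hs : s ∈ C
      · rw [h3 _ s hs, hy, hL.mem s hs, kx_zact_add c hc]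
      · rw [h4 _ s hs, hy, hL.nmem s hs, add_zero]
    · intro y s hy g
      rw [map_mul, ← mul_assoc, hL.mul, map_inv, hL.inv]
      by_cases hs : s ∈ C
      · have h6 := h3 (g * th M F Γ y * (th M F Γ (bgen M s))⁻¹) s hs
        rw [inv_mul_cancel_right, hy] at h6
        rw [hL.mem s hs, kx_zact_add c hc, h6, ← kx_zact_add c hc]
        rw [show (1 : ℤ) + -1 = 0 from rfl, kx_zact_zero]
      · have h6 := h4 (g * th M F Γ y * (th M F Γ (bgen M s))⁻¹) s hs
        rw [inv_mul_cancel_right, hy] at h6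
        rw [hL.nmem s hs, neg_zero, add_zero, h6]
  have h6 : ∀ g, (∀ v ∈ F, (st g).2.1 v = pj M F v g) ∧ (st g).2.2 = L g := by
    intro g
    refine AG.ind (C := fun g => (∀ v ∈ F, (st g).2.1 v = pj M F v g) ∧ (st g).2.2 = L g)
      ?_ ?_ ?_ ?_ g
    · refine ⟨fun v _ => ?_, ?_⟩
      · rw [h1, map_one]
      · rw [h1, hL.one]
    · rintro g s - ⟨hg, hg'⟩
      refine ⟨fun v hv => ?_, ?_⟩
      · rw [h5, map_mul, pj_th, mul_one]
        exact hg v hv
      · rw [h5, hL.mul]
        show (st g).2.2 + L (th M F Γ (bgen M s)) = _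
        rw [hg']
    · rintro g s - ⟨hg, hg'⟩
      refine ⟨fun v hv => ?_, ?_⟩
      · rw [← map_inv, h5, map_mul, pj_th, mul_one]
        exact hg v hv
      · rw [← map_inv, h5, hL.mul]
        show (st g).2.2 + L (th M F Γ (bgen M s)⁻¹) = _
        rw [hg']
    · rintro g u hu a ⟨hg, hg'⟩
      refine ⟨fun v hv => ?_, ?_⟩
      · rw [h2 g u hu, map_mul]
        show Function.update (st g).2.1 u ((st g).2.1 u * a) v = _
        by_cases huv : v = u
        · subst huv
          rw [Function.update_self, pj_same hv, hg v hv]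
        · rw [Function.update_of_ne huv, pj_ne (Ne.symm huv), mul_one, hg v hv]
      · rw [h2 g u hu, hL.mul, hL.io, add_zero]
        exact hg'
  refine ⟨fun g => (st g).1, ?_, ?_, ?_⟩
  · show (st 1).1 = 1
    rw [h1]
  · intro g v hv a
    show (st (g * io M F v a)).1 = (st g).1 * _
    rw [h2 g v hv, ← (h6 g).1 v hv]
    rfl
  · intro g y
    show (st (g * th M F Γ y)).1 = (st g).1 * _
    rw [h5, hL.mul, ← (h6 g).2]
    rfl

end Pool.Agent.H65.AB

end

section

/-!
# Project AB: the increments of the maps to the right-angled Coxeter group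

PROOF. `kap_lip`, `lemK`: `AG.ind` on `x`. For `x = x' io a`: the factor depends only on `pj v (y x')`, the same for `κ` and
`κ0`. For `x = x' s^(±1)`: no change if `L (y x') ∉ {0, -1}` resp. `∉ {0, 1}`, `L (y x') = L y + L x'`; for `κ0` there is
never a change. `kap_apt`: `wf_ind` (see BU/Kap, `kappa_apt`): `pj v (g a w) = q v (a v)` or `1` according to the parity
`pr w (sing v)`, `κ` changes iff `θ v (q v (a v)) ≠ θ v 1`; all letters are in `lF M F`. `L (g a w) = 0` there.
-/

set_option autoImplicit false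
set_option linter.unusedSectionVars false

open Finset

namespace Pool.Agent.H65.AB

open H42.NU Pool.Agent.H4.FC Pool.Agent.H78.RC Pool.Agent.H93.AA Pool.Agent.H65.RA
open Pool.Agent.H65.BU (RA Apts)

variable {S : Type} [Fintype S] [DecidableEq S] {M : CoxeterMatrix S} {F : Finset S}
  {Γ : S → Type} [∀ v, Group (Γ v)] {W : Type} [Group W] [Fintype (Irr M)]
  {M' : CoxeterMatrix (Irr M)} {cs : CoxeterSystem M' W} {X : Irr M} {θ : ∀ v, Γ v → Bool}
  {L : AG M F Γ → ℤ} {κ κ0 : AG M F Γ → W}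

private theorem th_neg (s : S) : (th M F Γ (bgen M s))⁻¹ = th M F Γ (bgen M s)⁻¹ :=
  (map_inv (th M F Γ) (bgen M s)).symm

/-- bounded increments -/
theorem kap_lip (hκ : IsKap cs X L θ κ) (x : AG M F Γ) :
    ∃ N : ℕ, ∀ y, cs.length ((κ y)⁻¹ * κ (y * x)) ≤ N := by
  have key : ∀ (x : AG M F Γ) (b : BG M), (∃ N : ℕ, ∀ y, cs.length ((κ y)⁻¹ * κ (y * x)) ≤ N) →
      ∃ N : ℕ, ∀ y, cs.length ((κ y)⁻¹ * κ (y * (x * th M F Γ b))) ≤ N := by
    rintro x b ⟨N, hN⟩
    refine ⟨N + 1, fun y => ?_⟩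
    rw [← mul_assoc, hκ.th, ← mul_assoc]
    refine (cs.length_mul_le _ _).trans (Nat.add_le_add (hN y) ?_)
    split_ifs
    · rw [cs.length_one]
      exact Nat.zero_le _
    · rw [cs.length_simple]
  refine AG.ind (C := fun x => ∃ N : ℕ, ∀ y, cs.length ((κ y)⁻¹ * κ (y * x)) ≤ N) ?_
    (fun x s _ h => key x (bgen M s) h) (fun x s _ h => ?_) (fun x v hv a h => ?_) x
  · refine ⟨0, fun y => ?_⟩
    rw [mul_one, inv_mul_cancel, cs.length_one]
  · rw [th_neg]
    exact key x (bgen M s)⁻¹ h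
  · obtain ⟨N, hN⟩ := h
    refine ⟨N + 1, fun y => ?_⟩
    rw [← mul_assoc, hκ.io _ v hv, ← mul_assoc]
    refine (cs.length_mul_le _ _).trans (Nat.add_le_add (hN y) ?_)
    split_ifs
    · rw [cs.length_one]
      exact Nat.zero_le _
    · rw [cs.length_simple]

variable {q : ∀ v, Bool → Γ v} {pr : W → Irr M → ZMod 2} {g : (Irr M → Bool) → W → AG M F Γ}

/-- the values of `κ` on the apartments -/
theorem kap_apt (hκ : IsKap cs X L θ κ) (hg : Apts cs pr (pA M F q) g) (a : Irr M → Bool)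
    (R : W →* W) (hR : ∀ v ∈ F, R (cs.simple (sing M v)) =
      if θ v (q v (a (sing M v))) = θ v 1 then 1 else cs.simple (sing M v)) {w : W}
    (hw : w ∈ wf cs (lF M F)) : κ (g a w) = R w := by
  have h0 : ∀ c : ZMod 2, c ≠ 0 → c + 1 = 0 := by decide
  have h01 : (0 : ZMod 2) + 1 ≠ 0 := by decide
  have h1 : (∀ v ∈ F, pj M F v (g a w) = if pr w (sing M v) = 0 then 1 else q v (a (sing M v))) ∧
      κ (g a w) = R w := by
    refine wf_ind (C := fun w => (∀ v ∈ F, pj M F v (g a w) =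
      if pr w (sing M v) = 0 then 1 else q v (a (sing M v))) ∧ κ (g a w) = R w) ?_ ?_ hw
    · refine ⟨fun v _ => ?_, ?_⟩
      · rw [hg.one, map_one, hg.pr_one, if_pos rfl]
      · rw [hg.one, hκ.one, map_one]
    · rintro w x _ hx ⟨hp, hk⟩
      obtain ⟨u, hu, rfl⟩ := mem_lF.1 hx
      by_cases hpu : pr w (sing M u) = 0
      · have h2 : g a (w * cs.simple (sing M u)) =
            g a w * io M F u (q u (a (sing M u))) := by
          rw [hg.mul, if_pos hpu, pA_sing q hu]
        have h3 : pj M F u (g a w) = 1 := by rw [hp u hu, if_pos hpu]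
        refine ⟨fun v hv => ?_, ?_⟩
        · rw [h2, map_mul, hg.pr_mul]
          by_cases huv : v = u
          · subst huv
            rw [pj_same hv, h3, one_mul, hpu, if_pos rfl, if_neg h01]
          · rw [pj_ne (Ne.symm huv), mul_one, if_neg fun h => huv (sing_inj h), add_zero,
              hp v hv]
        · rw [h2, hκ.io _ u hu, h3, one_mul, map_mul, hR u hu, hk]
      · have h2 : g a (w * cs.simple (sing M u)) =
            g a w * io M F u (q u (a (sing M u)))⁻¹ := by
          rw [hg.mul, if_neg hpu, pA_sing q hu, map_inv]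
        have h3 : pj M F u (g a w) = q u (a (sing M u)) := by rw [hp u hu, if_neg hpu]
        refine ⟨fun v hv => ?_, ?_⟩
        · rw [h2, map_mul, hg.pr_mul]
          by_cases huv : v = u
          · subst huv
            rw [pj_same hv, h3, mul_inv_cancel, if_pos rfl, if_pos (h0 _ hpu)]
          · rw [pj_ne (Ne.symm huv), mul_one, if_neg fun h => huv (sing_inj h), add_zero,
              hp v hv]
        · rw [h2, hκ.io _ u hu, h3, mul_inv_cancel, map_mul, hR u hu, hk]
          by_cases h4 : θ u 1 = θ u (q u (a (sing M u)))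
          · rw [if_pos h4, if_pos h4.symm]
          · rw [if_neg h4, if_neg (Ne.symm h4)]
  exact h1.2

end Pool.Agent.H65.AB

end

section

/-!
# Project AB: the increments of the maps which detect a subgroup

PROOF: as LemK. `kapC_incr`: `AG.ind` on `x`, `R` = the images under `r` of the prefixes of a word for `x` (contains `1` and
`r x`); if `r y * ρ ∉ K` for all of them, no factor `τ` occurs in `κ (y * x)`; for `K = ⊤` no factor `τ` occurs at all.
-/

set_option autoImplicit false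
set_option linter.unusedSectionVars false

open Finset

namespace Pool.Agent.H65.AB

open H42.NU Pool.Agent.H4.FC Pool.Agent.H78.RC Pool.Agent.H93.AA Pool.Agent.H65.RA
open Pool.Agent.H65.BU (RA Apts)

variable {S : Type} [Fintype S] [DecidableEq S] {M : CoxeterMatrix S} {F : Finset S}
  {Γ : S → Type} [∀ v, Group (Γ v)] {D : Type} [Group D] {e : S → D} {τ : D}
  {K : Subgroup (BG M)} {r : AG M F Γ →* BG M} {θ : ∀ v, Γ v → Bool} {κ κ0 : AG M F Γ → D}

private theorem kc_neg (s : S) : (th M F Γ (bgen M s))⁻¹ = th M F Γ (bgen M s)⁻¹ :=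
  (map_inv (th M F Γ) (bgen M s)).symm

theorem kapC_incr (hr2 : ∀ v (a : Γ v), r (io M F v a) = 1) (hκ : IsKapC e τ K r θ κ)
    (hκ0 : IsKapC e τ ⊤ r θ κ0) (x : AG M F Γ) :
    ∃ R : Finset (BG M), 1 ∈ R ∧ r x ∈ R ∧ ∀ y, (∀ ρ ∈ R, r y * ρ ∉ K) →
      (κ y)⁻¹ * κ (y * x) = (κ0 y)⁻¹ * κ0 (y * x) := by
  have key : ∀ (x : AG M F Γ) (b : BG M),
      (∃ R : Finset (BG M), 1 ∈ R ∧ r x ∈ R ∧ ∀ y, (∀ ρ ∈ R, r y * ρ ∉ K) →
        (κ y)⁻¹ * κ (y * x) = (κ0 y)⁻¹ * κ0 (y * x)) →
      ∃ R : Finset (BG M), 1 ∈ R ∧ r (x * th M F Γ b) ∈ R ∧ ∀ y, (∀ ρ ∈ R, r y * ρ ∉ K) →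
        (κ y)⁻¹ * κ (y * (x * th M F Γ b)) = (κ0 y)⁻¹ * κ0 (y * (x * th M F Γ b)) := by
    classical
    rintro x b ⟨R, h1, hx, hR⟩
    refine ⟨insert (r (x * th M F Γ b)) R, mem_insert_of_mem h1, mem_insert_self _ _,
      fun y hy => ?_⟩
    have h2 : r (y * x) ∉ K := by
      rw [map_mul]
      exact hy _ (mem_insert_of_mem hx)
    have h3 : r (y * x * th M F Γ b) ∉ K := by
      rw [mul_assoc, map_mul]
      exact hy _ (mem_insert_self _ _)
    rw [← mul_assoc, hκ.th, hκ0.th, if_pos (iff_of_false h2 h3),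
      if_pos (iff_of_true (Subgroup.mem_top _) (Subgroup.mem_top _)), mul_one, mul_one]
    exact hR y fun ρ hρ => hy ρ (mem_insert_of_mem hρ)
  refine AG.ind (C := fun x => ∃ R : Finset (BG M), 1 ∈ R ∧ r x ∈ R ∧
    ∀ y, (∀ ρ ∈ R, r y * ρ ∉ K) → (κ y)⁻¹ * κ (y * x) = (κ0 y)⁻¹ * κ0 (y * x)) ?_
    (fun x s _ h => key x (bgen M s) h) (fun x s _ h => ?_) (fun x v hv a h => ?_) x
  · refine ⟨{1}, mem_singleton_self _, ?_, fun y _ => ?_⟩
    · rw [map_one]
      exact mem_singleton_self _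
    · rw [mul_one, inv_mul_cancel, inv_mul_cancel]
  · rw [kc_neg]
    exact key x (bgen M s)⁻¹ h
  · obtain ⟨R, h1, hx, hR⟩ := h
    refine ⟨R, h1, ?_, fun y hy => ?_⟩
    · rw [map_mul, hr2, mul_one]
      exact hx
    · rw [← mul_assoc, hκ.io _ v hv, hκ0.io _ v hv, ← mul_assoc, ← mul_assoc, hR y hy]

variable {W : Type} [Group W] [Fintype (Irr M)] {M' : CoxeterMatrix (Irr M)}
  {cs : CoxeterSystem M' W} {q : ∀ v, Bool → Γ v} {pr : W → Irr M → ZMod 2}
  {g : (Irr M → Bool) → W → AG M F Γ}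

/-- the elements of the apartments are killed by `r` -/
theorem r_apt (hr2 : ∀ v (a : Γ v), r (io M F v a) = 1) (hg : Apts cs pr (pA M F q) g)
    (a : Irr M → Bool) {w : W} (hw : w ∈ wf cs (lF M F)) : r (g a w) = 1 := by
  refine wf_ind (C := fun w => r (g a w) = 1) ?_ (fun w v _ hv h => ?_) hw
  · rw [hg.one, map_one]
  · obtain ⟨u, hu, rfl⟩ := mem_lF.1 hv
    rw [hg.mul]
    split_ifs
    · rw [map_mul, h, pA_sing q hu, hr2, one_mul]
    · rw [map_mul, h, map_inv, pA_sing q hu, hr2, inv_one, one_mul]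

/-- the values of `κ` on the apartments -/
theorem kapC_apt (hκ : IsKapC e τ K r θ κ) (hg : Apts cs pr (pA M F q) g) (a : Irr M → Bool)
    (he : ∀ v ∈ F, e v * e v = 1) (R : W →* D) (hR : ∀ v ∈ F, R (cs.simple (sing M v)) =
      if θ v (q v (a (sing M v))) = θ v 1 then 1 else e v) {w : W}
    (hw : w ∈ wf cs (lF M F)) : κ (g a w) = R w := by
  have h0 : ∀ c : ZMod 2, c ≠ 0 → c + 1 = 0 := by decide
  have h01 : (0 : ZMod 2) + 1 ≠ 0 := by decide
  have h1 : (∀ v ∈ F, pj M F v (g a w) = if pr w (sing M v) = 0 then 1 else q v (a (sing M v))) ∧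
      κ (g a w) = R w := by
    refine wf_ind (C := fun w => (∀ v ∈ F, pj M F v (g a w) =
      if pr w (sing M v) = 0 then 1 else q v (a (sing M v))) ∧ κ (g a w) = R w) ?_ ?_ hw
    · refine ⟨fun v _ => ?_, ?_⟩
      · rw [hg.one, map_one, hg.pr_one, if_pos rfl]
      · rw [hg.one, hκ.one, map_one]
    · rintro w x _ hx ⟨hp, hk⟩
      obtain ⟨u, hu, rfl⟩ := mem_lF.1 hx
      by_cases hpu : pr w (sing M u) = 0
      · have h2 : g a (w * cs.simple (sing M u)) =
            g a w * io M F u (q u (a (sing M u))) := by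
          rw [hg.mul, if_pos hpu, pA_sing q hu]
        have h3 : pj M F u (g a w) = 1 := by rw [hp u hu, if_pos hpu]
        refine ⟨fun v hv => ?_, ?_⟩
        · rw [h2, map_mul, hg.pr_mul]
          by_cases huv : v = u
          · subst huv
            rw [pj_same hv, h3, one_mul, hpu, if_pos rfl, if_neg h01]
          · rw [pj_ne (Ne.symm huv), mul_one, if_neg fun h => huv (sing_inj h), add_zero,
              hp v hv]
        · rw [h2, hκ.io _ u hu, h3, one_mul, map_mul, hR u hu, hk]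
      · have h2 : g a (w * cs.simple (sing M u)) =
            g a w * io M F u (q u (a (sing M u)))⁻¹ := by
          rw [hg.mul, if_neg hpu, pA_sing q hu, map_inv]
        have h3 : pj M F u (g a w) = q u (a (sing M u)) := by rw [hp u hu, if_neg hpu]
        refine ⟨fun v hv => ?_, ?_⟩
        · rw [h2, map_mul, hg.pr_mul]
          by_cases huv : v = u
          · subst huv
            rw [pj_same hv, h3, mul_inv_cancel, if_pos rfl, if_pos (h0 _ hpu)]
          · rw [pj_ne (Ne.symm huv), mul_one, if_neg fun h => huv (sing_inj h), add_zero,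
              hp v hv]
        · rw [h2, hκ.io _ u hu, h3, mul_inv_cancel, map_mul, hR u hu, hk]
          by_cases h4 : θ u 1 = θ u (q u (a (sing M u)))
          · rw [if_pos h4, if_pos h4.symm]
          · rw [if_neg h4, if_neg (Ne.symm h4)]
  exact h1.2

end Pool.Agent.H65.AB

end

section

/-!
# Project AB: the nerve
-/

set_option autoImplicit false
set_option linter.unusedSectionVars false

open Finset

namespace Pool.Agent.H65.AB

open H42.NU Pool.Agent.H4.FC Pool.Agent.H78.RC Pool.Agent.H93.AA Pool.Agent.H65.RA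
open Pool.Agent.H10.CI (CoarseEmb)

variable {S : Type} [Fintype S] [DecidableEq S] (M : CoxeterMatrix S) (F : Finset S)
  (Γ : S → Type) [∀ v, Group (Γ v)]

/-- the subgroup generated by the groups `Γ v`, `v ∈ F`, and by the powers `Δ_X ^ (2 N)` -/
def AN (N : ℕ) : Subgroup (AG M F Γ) :=
  Subgroup.closure ({x | ∃ v ∈ F, ∃ a : Γ v, x = io M F v a} ∪
    {x | ∃ X : Irr M, x = th M F Γ (xg M X) ^ N})

/-- For some `N > 0` the subgroup `AN M F Γ N` generated by the groups `Γ v` and by the `Δ_X ^ (2 N)` is coarsely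
embedded into the group `Λ`. -/
def CEm (Λ : Type) [Group Λ] : Prop := ∃ N : ℕ, 0 < N ∧ ∃ f : AN M F Γ N → Λ, CoarseEmb f

variable {M F Γ} {U : Type} [DecidableEq U] {Λ : Type} [Group Λ]

open Classical in
/-- the elements of the letters in the subgroup `AN` -/
private noncomputable def pN [Fintype (Irr M)] (N : ℕ) (q : ∀ v, Bool → Γ v) (x : Irr M × Bool) :
    AG M F Γ :=
  if x.1 ∈ lF M F then pA M F q x else pA M F q x ^ N

private theorem pN_mem [Fintype (Irr M)] (N : ℕ) (q : ∀ v, Bool → Γ v) (x : Irr M × Bool) :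
    pN N q x ∈ AN M F Γ N := by
  obtain ⟨X, b⟩ := x
  unfold pN
  by_cases hX : X ∈ lF M F
  · rw [if_pos hX]
    obtain ⟨v, hv, rfl⟩ := mem_lF.1 hX
    rw [pA_sing q hv]
    exact Subgroup.subset_closure (Or.inl ⟨v, hv, _, rfl⟩)
  · rw [if_neg hX]
    have h1 : th M F Γ (xg M X) ^ N ∈ AN M F Γ N := Subgroup.subset_closure (Or.inr ⟨X, rfl⟩)
    cases b
    · rw [pA_false q hX, inv_pow]
      exact (AN M F Γ N).inv_mem h1
    · rw [pA_true q hX]
      exact h1

private theorem pN_comm [Fintype (Irr M)] (hM : Mix M F) (N : ℕ) (q : ∀ v, Bool → Γ v)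
    (x y : Irr M × Bool) (h : (oct (nG M)).Adj x y) : Commute (pN (F := F) N q x) (pN N q y) := by
  have h1 : Commute (pA M F q x) (pA M F q y) := pA_comm hM q x y h
  unfold pN
  split_ifs
  · exact h1
  · exact h1.pow_right N
  · exact h1.pow_left N
  · exact h1.pow_pow N N

end Pool.Agent.H65.AB

end

section

/-!
# Project AB: separation, finitely many pairs `(w, w')`

PROOF (as BU/Sep): `κ^o` for `L = 0` (`C = ∅`), `θ^o v x = decide (x ≠ 1)` for `o = none`, and for
`o = some u`, `u ∈ F`: `θ^o u x = decide (x = q u true)`, `θ^o v x = decide (x ≠ 1)` for `v ≠ u`. `κ^o (h) = κ^o (g a w) = w` or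
`r w` (`kap_apt`, `r` kills the letter `sing u`, if `a (sing u) = false`). Then the proof of `sep_of_kappa`: `persist`,
`exists_kill`, `ball_finite`; the letters `v ∈ fst w` are in `lF M F` (`fst_wf`).
-/

set_option autoImplicit false
set_option linter.unusedSectionVars false

open Finset

namespace Pool.Agent.H65.AB

open H42.NU Pool.Agent.H4.FC Pool.Agent.H78.RC Pool.Agent.H93.AA Pool.Agent.H65.RA
open Pool.Agent.H65.BU (RA Apts)

variable {S : Type} [Fintype S] [DecidableEq S] {M : CoxeterMatrix S} {F : Finset S}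
  {Γ : S → Type} [∀ v, Group (Γ v)] {W : Type} [Group W] [Fintype (Irr M)]
  {M' : CoxeterMatrix (Irr M)} {cs : CoxeterSystem M' W}
  {q : ∀ v, Bool → Γ v} {pr : W → Irr M → ZMod 2} {g : (Irr M → Bool) → W → AG M F Γ}

/-- the products of powers are in the image of the Artin group -/
private theorem sw_zp_range (q : ∀ v, Bool → Γ v) {m : Irr M → ℕ} (hm : Pos (nG M) (lF M F) m)
    (a : Irr M → Bool) : ∃ y, zp (pA M F q) a m = th M F Γ y := by
  have h1 : zp (pA M F q) a m ∈ (th M F Γ).range := by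
    refine zp_mem fun z hz => ?_
    have hz' := hm.1 z hz
    cases a z
    · rw [pA_false q hz']
      exact ⟨(xg M z)⁻¹, map_inv _ _⟩
    · rw [pA_true q hz']
      exact ⟨xg M z, rfl⟩
  obtain ⟨y, hy⟩ := h1
  exact ⟨y, hy.symm⟩

/-- (1) finitely many pairs `(w, w')` -/
theorem sep_w (hM : Mix M F) (hM' : RA (nG M) M') (h1 : ∀ v ∈ F, ∀ b, q v b ≠ 1)
    (h2 : ∀ v ∈ F, q v true ≠ q v false) (hg : Apts cs pr (pA M F q) g) (E : Finset (AG M F Γ)) :
    {k : W × W | k.1 ∈ wf cs (lF M F) ∧ k.2 ∈ wf cs (lF M F) ∧ ∃ (m m' : Irr M → ℕ)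
      (a b : Irr M → Bool), Pos (nG M) (lF M F) m ∧ Pos (nG M) (lF M F) m' ∧
      Opp cs k.1 k.2 m m' a b ∧
      (g a k.1 * zp (pA M F q) a m)⁻¹ * (g b k.2 * zp (pA M F q) b m') ∈ E}.Finite := by
  classical
  by_cases hne : Nonempty (Irr M)
  swap
  · refine (Set.finite_singleton ((1, 1) : W × W)).subset ?_
    rintro ⟨w, w'⟩ ⟨hw, hw', -⟩
    have h3 : ∀ x ∈ wf cs (lF M F), x = 1 := by
      intro x hx
      refine wf_ind (C := fun x : W => x = 1) rfl (fun _ v _ _ _ => ?_) hx
      exact absurd ⟨v⟩ hne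
    show (w, w') = (1, 1)
    rw [h3 w hw, h3 w' hw']
  obtain ⟨X⟩ := hne
  have hF := Pool.Agent.H65.BU.facts_of_ra hM' cs
  let θ : Option S → ∀ v, Γ v → Bool := fun o v x =>
    if o = some v then decide (x = q v true) else decide (x ≠ 1)
  have hex : ∀ o, ∃ κ : AG M F Γ → W, IsKap cs X (fun _ => 0) (θ o) κ := fun o =>
    exists_kap hM hM' cs (C := ∅) (fun s hs => absurd hs (notMem_empty s))
      (fun s hs => absurd hs (notMem_empty s)) X (fun s hs => absurd hs (notMem_empty s))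
      IsLam.zero (θ o)
  choose κ hκ using hex
  have hlip : ∀ o x, ∃ N : ℕ, ∀ y, cs.length ((κ o y)⁻¹ * κ o (y * x)) ≤ N :=
    fun o x => kap_lip (hκ o) x
  choose N hN using hlip
  -- the values on the products
  have hz : ∀ o x (m : Irr M → ℕ) (a : Irr M → Bool), Pos (nG M) (lF M F) m →
      κ o (x * zp (pA M F q) a m) = κ o x := by
    intro o x m a hm
    obtain ⟨y, hy⟩ := sw_zp_range q hm a
    rw [hy, (hκ o).th, if_pos Iff.rfl, mul_one]
  have hne1 : ∀ o, ∀ v ∈ F, ∀ b, o ≠ some v → θ o v (q v b) ≠ θ o v 1 := by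
    intro o v hv b ho
    show (if o = some v then decide (q v b = q v true) else decide (q v b ≠ 1)) ≠
      (if o = some v then decide ((1 : Γ v) = q v true) else decide ((1 : Γ v) ≠ 1))
    rw [if_neg ho, if_neg ho, decide_eq_true (h1 v hv b), decide_eq_false (fun h => h rfl)]
    exact Bool.noConfusion
  have hid : ∀ u, MonoidHom.id W (cs.simple u) = cs.simple u := fun u => rfl
  have k0 : ∀ a, ∀ w ∈ wf cs (lF M F), κ none (g a w) = w := by
    intro a w hw
    refine kap_apt (hκ none) hg a (MonoidHom.id W) (fun v hv => ?_) hw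
    rw [hid, if_neg (hne1 none v hv _ (by simp))]
  have k1 : ∀ u ∈ F, ∀ a, ∀ w ∈ wf cs (lF M F), a (sing M u) = true →
      κ (some u) (g a w) = w := by
    intro u hu a w hw hau
    refine kap_apt (hκ (some u)) hg a (MonoidHom.id W) (fun v hv => ?_) hw
    rw [hid]
    by_cases huv : u = v
    · subst huv
      have h3 : θ (some u) u (q u (a (sing M u))) ≠ θ (some u) u 1 := by
        show (if some u = some u then decide (q u (a (sing M u)) = q u true)
            else decide (q u (a (sing M u)) ≠ 1)) ≠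
          (if some u = some u then decide ((1 : Γ u) = q u true) else decide ((1 : Γ u) ≠ 1))
        rw [if_pos rfl, if_pos rfl, hau, decide_eq_true rfl,
          decide_eq_false (Ne.symm (h1 u hu true))]
        exact Bool.noConfusion
      rw [if_neg h3]
    · rw [if_neg (hne1 (some u) v hv _ (fun h => huv (Option.some.inj h)))]
  have k2 : ∀ u ∈ F, ∀ r : W →* W,
      (∀ z, r (cs.simple z) = if z = sing M u then 1 else cs.simple z) →
      ∀ a, ∀ w ∈ wf cs (lF M F), a (sing M u) = false → κ (some u) (g a w) = r w := by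
    intro u hu r hr a w hw hau
    refine kap_apt (hκ (some u)) hg a r (fun v hv => ?_) hw
    rw [hr]
    by_cases huv : u = v
    · subst huv
      have h3 : θ (some u) u (q u (a (sing M u))) = θ (some u) u 1 := by
        show (if some u = some u then decide (q u (a (sing M u)) = q u true)
            else decide (q u (a (sing M u)) ≠ 1)) =
          (if some u = some u then decide ((1 : Γ u) = q u true) else decide ((1 : Γ u) ≠ 1))
        rw [if_pos rfl, if_pos rfl, hau, decide_eq_false (Ne.symm (h2 u hu)),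
          decide_eq_false (Ne.symm (h1 u hu true))]
      rw [if_pos rfl, if_pos h3]
    · rw [if_neg (fun h => huv (sing_inj h).symm),
        if_neg (hne1 (some u) v hv _ (fun h => huv (Option.some.inj h)))]
  obtain ⟨N0, hN0⟩ : ∃ N0, ∀ x ∈ E, ∀ o : Option S, N o x ≤ N0 :=
    ⟨E.sup fun x => univ.sup fun o => N o x, fun x hx o =>
      (Finset.le_sup (f := fun o => N o x) (mem_univ o)).trans
        (Finset.le_sup (f := fun x => univ.sup fun o => N o x) hx)⟩
  have hX := Pool.Agent.H65.BU.persist hF (2 * N0)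
  have hB := Pool.Agent.H65.BU.ball_finite cs N0
  refine ((hX.prod hB).image fun q : W × W => (q.1, q.1 * q.2)).subset ?_
  rintro ⟨w, w'⟩ ⟨hw, hw', m, m', a, b, hm, hm', hab, hx⟩
  simp only at hab hx hw hw'
  obtain ⟨x, hxE, hgx⟩ : ∃ x ∈ E, g b w' * zp (pA M F q) b m' = g a w * zp (pA M F q) a m * x :=
    ⟨_, hx, (mul_inv_cancel_left _ _).symm⟩
  have hk : ∀ o, cs.length ((κ o (g a w))⁻¹ * κ o (g b w')) ≤ N0 := by
    intro o
    have h3 := (hN o x (g a w * zp (pA M F q) a m)).trans (hN0 x hxE o)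
    rw [← hgx, hz o _ m a hm, hz o _ m' b hm'] at h3
    exact h3
  have hd : cs.length (w⁻¹ * w') ≤ N0 := by
    have h := hk none
    rwa [k0 a w hw, k0 b w' hw'] at h
  refine ⟨(w, w⁻¹ * w'), ⟨?_, hd⟩, ?_⟩
  · rintro ⟨v, hv, hp⟩
    have hv' : v ∈ Pool.Agent.H65.BU.fst cs w' := by
      have h := hp (w⁻¹ * w') (by omega)
      rwa [mul_inv_cancel_left] at h
    have hne := hab.fst v hv hv'
    obtain ⟨u, hu, rfl⟩ := mem_lF.1 (fst_wf hM' hw hv)
    obtain ⟨r, hr, hrv⟩ := Pool.Agent.H65.BU.exists_kill hM' cs (sing M u)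
    have hk' := hk (some u)
    cases ha : a (sing M u)
    · have hb : b (sing M u) = true := by
        cases hb : b (sing M u)
        · rw [ha, hb] at hne
          exact absurd rfl hne
        · rfl
      rw [k2 u hu r hr a w hw ha, k1 u hu b w' hw' hb] at hk'
      refine hrv w ?_
      have h := hp (w⁻¹ * r w) ?_
      · rwa [mul_inv_cancel_left] at h
      · have e : w⁻¹ * r w = (w⁻¹ * w') * ((r w)⁻¹ * w')⁻¹ := by group
        rw [e]
        refine (cs.length_mul_le _ _).trans ?_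
        rw [cs.length_inv]
        omega
    · have hb : b (sing M u) = false := by
        cases hb : b (sing M u)
        · rfl
        · rw [ha, hb] at hne
          exact absurd rfl hne
      rw [k1 u hu a w hw ha, k2 u hu r hr b w' hw' hb] at hk'
      refine hrv w' ?_
      have h := hp (w⁻¹ * r w') (by omega)
      rwa [mul_inv_cancel_left] at h
  · simp only [mul_inv_cancel_left]

end Pool.Agent.H65.AB

end

section

/-!
# Project AB: crossing numbers and the subgroups generated by sets of generators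

PROOF. `Ψ : BG M →* CW M.Group` the crossing homomorphism (`exists_cross`, `cross_xg` of H93/AA/Ex), `t` the reflection
with full support of `X` (`exists_full_rf`; here also for non-spherical sets: `IsRf M Y t → X ⊆ Y` for every `Y`).
Elements of `gp M Y` have crossing numbers supported on the reflections of `W_Y` (closure induction). So if
`b = zp ... * ρ ∈ gp M Y`, then `0 = Ψ(b).left t = Ψ(zp).left t + Ψ(ρ).left t` (`zp` is in the pure Artin group), and
`Ψ(zp).left t = ∑_(Z ⊇ X) 2 m Z ≥ 2 m X` (all the signs are `true`).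
-/

set_option autoImplicit false
set_option linter.unusedSectionVars false

open Finset

namespace Pool.Agent.H65.AB

open H42.NU Pool.Agent.H4.FC Pool.Agent.H78.RC Pool.Agent.H93.AA

section

open Pool.Agent.H85.AA Pool.Agent.H73.HVN

variable {S : Type} [Fintype S] [DecidableEq S]

private theorem wn_isRf_of_mem (M : CoxeterMatrix S) {T : Finset S} : ∀ ω : List S,
    (∀ i ∈ ω, i ∈ T) → ∀ r ∈ M.toCoxeterSystem.leftInvSeq ω, IsRf M T r := by
  intro ω
  induction ω with
  | nil =>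
    intro _ r hr
    exact absurd hr (List.not_mem_nil)
  | cons i ω ih =>
    intro hω r hr
    have hi : i ∈ T := hω i List.mem_cons_self
    have hr' : r ∈ M.toCoxeterSystem.simple i :: List.map (MulAut.conj
      (M.toCoxeterSystem.simple i)) (M.toCoxeterSystem.leftInvSeq ω) := hr
    rw [M.toCoxeterSystem_simple] at hr'
    rcases List.mem_cons.1 hr' with rfl | hr'
    · exact ⟨1, one_mem _, i, hi, by rw [one_mul, inv_one, mul_one]⟩
    · obtain ⟨q, hq, rfl⟩ := List.mem_map.1 hr'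
      have h1 := ih (fun j hj => hω j (List.mem_cons_of_mem _ hj)) q hq
      rw [MulAut.conj_apply]
      exact h1.conj (simple_mem_par M hi)

private theorem wn_isReflection (M : CoxeterMatrix S) {T : Finset S} {r : M.Group}
    (h : IsRf M T r) : M.toCoxeterSystem.IsReflection r := by
  obtain ⟨w, -, s, -, rfl⟩ := h
  exact ⟨w, s, by rw [M.toCoxeterSystem_simple]⟩

private theorem wn_mem_par (M : CoxeterMatrix S) {T : Finset S} {r : M.Group}
    (h : IsRf M T r) : r ∈ par M T := by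
  obtain ⟨w, hw, s, hs, rfl⟩ := h
  exact mul_mem (mul_mem hw (simple_mem_par M hs)) (inv_mem hw)

private theorem wn_mem_WP (M : CoxeterMatrix S) {T : Finset S} {w : M.Group} (hw : w ∈ par M T) :
    w ∈ WP M.toCoxeterSystem (T : Set S) := by
  refine (Subgroup.closure_le (K := WP M.toCoxeterSystem (T : Set S))).2 ?_ hw
  rintro x ⟨v, hv, rfl⟩
  refine Subgroup.subset_closure ⟨v, hv, ?_⟩
  rw [M.toCoxeterSystem_simple]

/-- a reflection which shortens an element is one of its inversions -/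
private theorem wn_inv (M : CoxeterMatrix S) {ω : List S} {r : M.Group}
    (hr : M.toCoxeterSystem.IsReflection r)
    (h : M.toCoxeterSystem.length (r * M.toCoxeterSystem.wordProd ω) <
      M.toCoxeterSystem.length (M.toCoxeterSystem.wordProd ω)) :
    r ∈ M.toCoxeterSystem.leftInvSeq ω := by
  have h3 : M.toCoxeterSystem.length (M.toCoxeterSystem.wordProd ω.reverse * r) <
      M.toCoxeterSystem.length (M.toCoxeterSystem.wordProd ω.reverse) := by
    rw [M.toCoxeterSystem.wordProd_reverse, M.toCoxeterSystem.length_inv]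
    have h4 : (M.toCoxeterSystem.wordProd ω)⁻¹ * r = (r * M.toCoxeterSystem.wordProd ω)⁻¹ := by
      rw [mul_inv_rev, hr.inv]
    rw [h4, M.toCoxeterSystem.length_inv]
    exact h
  obtain ⟨j, hj, hjr⟩ := strong_exchange M.toCoxeterSystem hr h3
  rw [← M.toCoxeterSystem.wordProd_mul_getD_rightInvSeq] at hjr
  have h5 := mul_left_cancel hjr
  have hj' : j < (M.toCoxeterSystem.rightInvSeq ω.reverse).length := by
    rw [M.toCoxeterSystem.length_rightInvSeq]
    exact hj
  rw [List.getD_eq_getElem _ 1 hj'] at h5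
  have h6 : r ∈ M.toCoxeterSystem.rightInvSeq ω.reverse := by
    rw [h5]
    exact List.getElem_mem hj'
  rw [M.toCoxeterSystem.rightInvSeq_reverse, List.mem_reverse] at h6
  exact h6

/-- the inversions of the longest element -/
private theorem wn_lis (M : CoxeterMatrix S) {T : Finset S} (hT : Sph M T) {ω : List S}
    (hω : M.toCoxeterSystem.IsReduced ω) (hw : lw M T = M.toCoxeterSystem.wordProd ω)
    (r : M.Group) : r ∈ M.toCoxeterSystem.leftInvSeq ω ↔ IsRf M T r := by
  have hl := lw_spec M hT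
  constructor
  · refine fun h => wn_isRf_of_mem M ω ?_ r h
    have h1 := wn_mem_WP M hl.1
    rw [hw] at h1
    exact fun i hi => mem_coe.1 (mem_of_isReduced M.toCoxeterSystem hω h1 i hi)
  · intro h
    have hr := wn_isReflection M h
    have h1 : M.toCoxeterSystem.length (r * lw M T) ≤ M.toCoxeterSystem.length (lw M T) :=
      hl.2 _ (mul_mem (wn_mem_par M h) hl.1)
    have h2 : M.toCoxeterSystem.length (r * lw M T) ≠ M.toCoxeterSystem.length (lw M T) :=
      hr.length_mul_right_ne _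
    refine wn_inv M hr ?_
    rw [← hw]
    exact lt_of_le_of_ne h1 h2

open Classical in
/-- the crossing numbers of the squares -/
private theorem wn_xg (M : CoxeterMatrix S) {Ψ : BG M →* CW M.Group}
    (hΨ : ∀ s, Ψ (bgen M s) = cgen M.toCoxeterSystem.simple s) {T : Finset S} (hT : Sph M T) :
    Ψ (dlt M T ^ 2) = (⟨Multiplicative.ofAdd fun r => if IsRf M T r then 2 else 0, 1⟩ :
      CW M.Group) := by
  obtain ⟨hred, hword⟩ := (M.toCoxeterSystem.exists_isReduced (lw M T)).choose_spec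
  have h1 : dlt M T = ((M.toCoxeterSystem.exists_isReduced (lw M T)).choose.map
    (bgen M)).prod := rfl
  generalize (M.toCoxeterSystem.exists_isReduced (lw M T)).choose = ω at h1 hred hword
  have h2 : Ψ (dlt M T) = (⟨Multiplicative.ofAdd fun r => if IsRf M T r then 1 else 0,
      lw M T⟩ : CW M.Group) := by
    rw [h1, cross_word hΨ ω, ← hword]
    apply SemidirectProduct.ext
    · show Multiplicative.ofAdd (fun r => ((M.toCoxeterSystem.leftInvSeq ω).count r : ℤ)) =
        Multiplicative.ofAdd fun r => if IsRf M T r then 1 else 0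
      congr 1
      funext r
      have h3 := wn_lis M hT hred hword r
      rw [List.Nodup.count (hred.nodup_leftInvSeq)]
      by_cases h4 : IsRf M T r
      · rw [if_pos h4, if_pos (h3.2 h4)]
        rfl
      · rw [if_neg h4, if_neg fun h5 => h4 (h3.1 h5)]
        rfl
    · rfl
  rw [pow_two, map_mul, h2]
  have hl := lw_spec M hT
  apply SemidirectProduct.ext
  · show Multiplicative.ofAdd ((fun r => if IsRf M T r then (1 : ℤ) else 0) +
      cjE (lw M T) fun r => if IsRf M T r then (1 : ℤ) else 0) =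
      Multiplicative.ofAdd fun r => if IsRf M T r then 2 else 0
    congr 1
    funext r
    show (if IsRf M T r then (1 : ℤ) else 0) +
      (if IsRf M T ((lw M T)⁻¹ * r * lw M T) then (1 : ℤ) else 0) = if IsRf M T r then 2 else 0
    have h3 : IsRf M T ((lw M T)⁻¹ * r * lw M T) ↔ IsRf M T r := by
      constructor
      · intro h
        have h4 := h.conj hl.1
        have h5 : lw M T * ((lw M T)⁻¹ * r * lw M T) * (lw M T)⁻¹ = r := by group
        rwa [h5] at h4
      · intro h
        have h4 := h.conj (inv_mem hl.1)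
        rwa [inv_inv] at h4
    by_cases h4 : IsRf M T r
    · rw [if_pos h4, if_pos (h3.2 h4), if_pos h4]
      norm_num
    · rw [if_neg h4, if_neg fun h5 => h4 (h3.1 h5), if_neg h4, add_zero]
  · show lw M T * lw M T = 1
    exact lw_mul_self M hT

/-- reflections with full support, arbitrary sets of generators -/
private theorem wn_full (M : CoxeterMatrix S) {X : Finset S} (hX : Sph M X)
    (hc : Con (diag M) X) : ∃ t, ∀ Y, IsRf M Y t ↔ X ⊆ Y := by
  obtain ⟨t, ht, h⟩ := exists_full_rf M hX hc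
  refine ⟨t, fun Y => ⟨fun hY => ?_, fun hXY => ht.mono hXY⟩⟩
  obtain ⟨ω, hred, hω⟩ := M.toCoxeterSystem.exists_isReduced t
  have h1 : ∀ i ∈ ω, i ∈ X ∩ Y := by
    intro i hi
    have h2 := wn_mem_WP M (wn_mem_par M ht)
    have h3 := wn_mem_WP M (wn_mem_par M hY)
    rw [hω] at h2 h3
    exact mem_inter.2 ⟨mem_coe.1 (mem_of_isReduced M.toCoxeterSystem hred h2 i hi),
      mem_coe.1 (mem_of_isReduced M.toCoxeterSystem hred h3 i hi)⟩
  have hr := wn_isReflection M ht
  have h4 : t ∈ M.toCoxeterSystem.leftInvSeq ω := by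
    refine wn_inv M hr ?_
    rw [← hω, hr.mul_self, M.toCoxeterSystem.length_one]
    exact hr.odd_length.pos
  have h5 := wn_isRf_of_mem M ω h1 t h4
  have h6 := (h (X ∩ Y) (hX.mono inter_subset_left)).1 h5
  exact h6.trans inter_subset_right

/-- the crossing numbers of the elements of `gp M Y` -/
private theorem wn_gp (M : CoxeterMatrix S) {Ψ : BG M →* CW M.Group}
    (hΨ : ∀ s, Ψ (bgen M s) = cgen M.toCoxeterSystem.simple s) {Y : Finset S} {x : BG M}
    (hx : x ∈ gp M Y) : (Ψ x).right ∈ par M Y ∧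
      ∀ r, ¬ IsRf M Y r → Multiplicative.toAdd (Ψ x).left r = 0 := by
  have hcj : ∀ w ∈ par M Y, ∀ r, ¬ IsRf M Y r → ¬ IsRf M Y (w⁻¹ * r * w) := by
    intro w hw r hr h
    have h1 := h.conj hw
    have h2 : w * (w⁻¹ * r * w) * w⁻¹ = r := by group
    rw [h2] at h1
    exact hr h1
  refine Subgroup.closure_induction (p := fun x _ => (Ψ x).right ∈ par M Y ∧
      ∀ r, ¬ IsRf M Y r → Multiplicative.toAdd (Ψ x).left r = 0) ?_ ?_ ?_ ?_ hx
  · rintro x ⟨s, hs, rfl⟩
    rw [hΨ]
    refine ⟨?_, fun r hr => ?_⟩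
    · show M.toCoxeterSystem.simple s ∈ par M Y
      rw [M.toCoxeterSystem_simple]
      exact simple_mem_par M hs
    · show ind (M.toCoxeterSystem.simple s) r = 0
      unfold ind
      rw [if_neg]
      rintro rfl
      refine hr ⟨1, one_mem _, s, hs, ?_⟩
      rw [M.toCoxeterSystem_simple, one_mul, inv_one, mul_one]
  · rw [map_one]
    exact ⟨one_mem _, fun r _ => rfl⟩
  · rintro x y _ _ ⟨hx1, hx2⟩ ⟨hy1, hy2⟩
    rw [map_mul]
    refine ⟨mul_mem hx1 hy1, fun r hr => ?_⟩
    show Multiplicative.toAdd (Ψ x).left r +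
      Multiplicative.toAdd (Ψ y).left ((Ψ x).right⁻¹ * r * (Ψ x).right) = 0
    rw [hx2 r hr, hy2 _ (hcj _ hx1 r hr), add_zero]
  · rintro x _ ⟨hx1, hx2⟩
    rw [map_inv]
    refine ⟨inv_mem hx1, fun r hr => ?_⟩
    show -Multiplicative.toAdd (Ψ x).left ((Ψ x).right⁻¹⁻¹ * r * (Ψ x).right⁻¹) = 0
    rw [hx2 _ (hcj _ (inv_mem hx1) r hr), neg_zero]

variable {M : CoxeterMatrix S} [Fintype (Irr M)]

theorem wn_bound (X : Irr M) {Y : Finset S} (hXY : ¬ X.1 ⊆ Y) (ρ : BG M) :
    ∃ N : ℕ, ∀ (m : Irr M → ℕ) (a : Irr M → Bool),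
      (∀ Z, m Z ≠ 0 → X.1 ⊆ Z.1 → a Z = true) →
      zp (fun x : Irr M × Bool => if x.2 then xg M x.1 else (xg M x.1)⁻¹) a m * ρ ∈ gp M Y →
      m X ≤ N := by
  classical
  obtain ⟨Ψ, hΨ⟩ := exists_cross (M := M) M.toCoxeterSystem
  obtain ⟨t, ht⟩ := wn_full M X.2.1 X.2.2
  obtain ⟨Γ, hΓ⟩ : ∃ Γ : Subgroup (BG M), ∀ g, g ∈ Γ ↔ (Ψ g).right = 1 :=
    ⟨(SemidirectProduct.rightHom.comp Ψ).ker, fun g => by
      rw [MonoidHom.mem_ker]
      rfl⟩
  have hxg : ∀ Z : Irr M, xg M Z ∈ Γ := by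
    intro Z
    rw [hΓ]
    unfold xg
    rw [wn_xg M hΨ Z.2.1]
  obtain ⟨L, hL⟩ : ∃ L : Γ → ℤ, ∀ g, L g = Multiplicative.toAdd (Ψ g).left t :=
    ⟨fun g => Multiplicative.toAdd (Ψ g).left t, fun _ => rfl⟩
  have hadd : ∀ g h : Γ, L (g * h) = L g + L h := by
    intro g h
    rw [hL, hL, hL, Subgroup.coe_mul, map_mul, SemidirectProduct.mul_left, (hΓ g).1 g.2, map_one]
    rfl
  have hone : L 1 = 0 := by
    have h1 := hadd 1 1
    rw [mul_one] at h1
    omega
  have hinv : ∀ g : Γ, L g⁻¹ = -L g := by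
    intro g
    have h1 := hadd g⁻¹ g
    rw [inv_mul_cancel, hone] at h1
    omega
  have hval : ∀ Z : Irr M, L ⟨xg M Z, hxg Z⟩ = if X.1 ⊆ Z.1 then 2 else 0 := by
    intro Z
    rw [hL]
    show Multiplicative.toAdd (Ψ (dlt M Z.1 ^ 2)).left t = _
    rw [wn_xg M hΨ Z.2.1]
    show (if IsRf M Z.1 t then (2 : ℤ) else 0) = _
    by_cases h : X.1 ⊆ Z.1
    · rw [if_pos h, if_pos ((ht Z.1).2 h)]
    · rw [if_neg h, if_neg fun h1 => h ((ht Z.1).1 h1)]
  let P : Irr M × Bool → Γ := fun x => if x.2 then ⟨xg M x.1, hxg x.1⟩ else ⟨xg M x.1, hxg x.1⟩⁻¹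
  refine ⟨(Multiplicative.toAdd (Ψ ρ).left t).natAbs, fun m a ha hb => ?_⟩
  have h1 : ((zp P a m : Γ) : BG M) =
      zp (fun x : Irr M × Bool => if x.2 then xg M x.1 else (xg M x.1)⁻¹) a m := by
    have h2 : ((zp P a m : Γ) : BG M) = zp (fun x => (P x : BG M)) a m := zp_map Γ.subtype P a m
    rw [h2]
    refine zp_congr' fun Z _ => ?_
    show (P (Z, a Z) : BG M) = if a Z then xg M Z else (xg M Z)⁻¹
    cases a Z
    · rfl
    · rfl
  rw [← h1] at hb
  have h3 := (wn_gp M hΨ hb).2 t fun h => hXY ((ht Y).1 h)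
  have h4 : Multiplicative.toAdd (Ψ ((zp P a m : Γ) * ρ)).left t =
      L (zp P a m) + Multiplicative.toAdd (Ψ ρ).left t := by
    rw [hL, map_mul, SemidirectProduct.mul_left, (hΓ _).1 (zp P a m).2, map_one]
    rfl
  rw [h4, zp_sum L hadd P a m] at h3
  -- the terms are nonnegative
  have h5 : ∀ Z : Irr M, m Z • L (P (Z, a Z)) = if X.1 ⊆ Z.1 then 2 * (m Z : ℤ) else 0 := by
    intro Z
    by_cases hm : m Z = 0
    · rw [hm]
      simp
    · by_cases hXZ : X.1 ⊆ Z.1
      · rw [if_pos hXZ, ha Z hm hXZ]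
        show m Z • L ⟨xg M Z, hxg Z⟩ = _
        rw [hval, if_pos hXZ, nsmul_eq_mul]
        ring
      · rw [if_neg hXZ]
        have h6 : L (P (Z, a Z)) = 0 := by
          show L (if a Z then ⟨xg M Z, hxg Z⟩ else ⟨xg M Z, hxg Z⟩⁻¹) = 0
          split_ifs
          · rw [hval, if_neg hXZ]
          · rw [hinv, hval, if_neg hXZ, neg_zero]
        rw [h6, smul_zero]
  have h6 : 2 * (m X : ℤ) ≤ ∑ Z, m Z • L (P (Z, a Z)) := by
    have h7 : 2 * (m X : ℤ) = m X • L (P (X, a X)) := by
      rw [h5, if_pos Subset.rfl]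
    rw [h7]
    refine single_le_sum (f := fun Z => m Z • L (P (Z, a Z))) (fun Z _ => ?_) (mem_univ X)
    show 0 ≤ m Z • L (P (Z, a Z))
    rw [h5]
    split_ifs
    · positivity
    · exact le_rfl
  omega

end

end Pool.Agent.H65.AB

end

section

/-!
# Project AB: the blocked exponents are bounded

PROOF. Let `h = g a w * zp a m`, `h' = g b w' * zp b m' = h x`, `x ∈ E`, `m X ≠ 0`, `s_X` does not commute with `w`.
`r` = the retraction (`exists_ret`), `r h = zp (xg ^ ±1) a m =: b₀`.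
(a) All `Z ⊇ X` with `m Z ≠ 0` do not commute with `w`, so `a Z = true`.
(b) Let `v' ∈ F` not adjacent to `X` (so `¬ X.1 ⊆ Y`, `Y := {s ∉ F | M s v' = 2}`). `K = gp M Y`,
`Q Z := ∃ u ∈ F, Z = sing M u ∧ ∃ s ∉ F, M s u = 2 ∧ M s v' ≠ 2`, `τ` the additional letter of `lemC`. If `m X` is large,
then the products `r h * ρ` are not in `K`, so `τ` commutes with `i y`, `y = w⁻¹ w'`, or `y = (r_u w)⁻¹ w'` or
`w⁻¹ r_u w'` if the signs at `sing u` are different. By `lemC` `y` does not contain the letter `sing v'` (`sb_step`).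
(c) So `s_X` commutes with `y` (`sb_comm`).
(d) `lemB` gives a contradiction.
-/

set_option autoImplicit false
set_option linter.unusedSectionVars false

open Finset

namespace Pool.Agent.H65.AB

open H42.NU Pool.Agent.H4.FC Pool.Agent.H78.RC Pool.Agent.H93.AA Pool.Agent.H65.RA
open Pool.Agent.H65.BU (RA Apts)

variable {S : Type} [Fintype S] [DecidableEq S] {M : CoxeterMatrix S} {F : Finset S}
  {Γ : S → Type} [∀ v, Group (Γ v)] {W : Type} [Group W] [Fintype (Irr M)]
  {M' : CoxeterMatrix (Irr M)} {cs : CoxeterSystem M' W}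
  {q : ∀ v, Bool → Γ v} {pr : W → Irr M → ZMod 2} {g : (Irr M → Bool) → W → AG M F Γ}

open Classical in
/-- the values of `θ` -/
private noncomputable def sbTh (q : ∀ v, Bool → Γ v) (o : Option S) (v : S) (x : Γ v) : Bool :=
  if o = some v then decide (x = q v true) else decide (x ≠ 1)

private theorem sbTh_val (h1 : ∀ v ∈ F, ∀ b, q v b ≠ 1) (h2 : ∀ v ∈ F, q v true ≠ q v false)
    (o : Option S) {v : S} (hv : v ∈ F) (b : Bool) :
    (sbTh q o v (q v b) = sbTh q o v 1) ↔ (o = some v ∧ b = false) := by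
  unfold sbTh
  by_cases ho : o = some v
  · rw [if_pos ho, if_pos ho]
    have e1 : (1 : Γ v) ≠ q v true := fun h => h1 v hv true h.symm
    cases b
    · simp [ho, e1, (h2 v hv).symm]
    · simp [e1]
  · rw [if_neg ho, if_neg ho]
    simp [ho, h1 v hv b]

/-- the products of powers are in the image of the Artin group -/
private theorem sb_zp_th {m : Irr M → ℕ} (hm : Pos (nG M) (lF M F) m) (a : Irr M → Bool) :
    ∃ y : BG M, zp (pA M F q) a m = th M F Γ y := by
  have h3 : zp (pA M F q) a m ∈ (th M F Γ).range := by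
    refine zp_mem fun z hz => ?_
    have hz' := hm.1 z hz
    cases haz : a z
    · rw [pA_false q hz']
      exact inv_mem ⟨_, rfl⟩
    · rw [pA_true q hz']
      exact ⟨_, rfl⟩
  obtain ⟨y, hy⟩ := h3
  exact ⟨y, hy.symm⟩

/-- the retraction is the identity on the letters outside `F` -/
private theorem sb_ret_th (hM : Mix M F) {r : AG M F Γ →* BG M}
    (hr : ∀ s, s ∉ F → r (th M F Γ (bgen M s)) = bgen M s) {X : Irr M} (hX : X ∉ lF M F) :
    r (th M F Γ (xg M X)) = xg M X := by
  have h1 := xg_mem_gp M X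
  have h2 := disj hM hX
  refine Subgroup.closure_induction (p := fun x _ => r (th M F Γ x) = x) ?_ ?_ ?_ ?_ h1
  · rintro x ⟨s, hs, rfl⟩
    exact hr s fun h => (disjoint_left.1 h2) hs h
  · rw [map_one, map_one]
  · intro x y _ _ hx hy
    rw [map_mul, map_mul, hx, hy]
  · intro x _ hx
    rw [map_inv, map_inv, hx]

/-- the retraction of the products of powers -/
private theorem sb_ret_zp (hM : Mix M F) {r : AG M F Γ →* BG M}
    (hr : ∀ s, s ∉ F → r (th M F Γ (bgen M s)) = bgen M s) {m : Irr M → ℕ}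
    (hm : Pos (nG M) (lF M F) m) (a : Irr M → Bool) : r (zp (pA M F q) a m) =
      zp (fun x : Irr M × Bool => if x.2 then xg M x.1 else (xg M x.1)⁻¹) a m := by
  rw [zp_map]
  refine zp_congr' fun X hX => ?_
  have hX' : X ∉ lF M F := hm.1 X hX
  show r (pA M F q (X, a X)) = if a X then xg M X else (xg M X)⁻¹
  cases h2 : a X
  · rw [pA_false q hX', map_inv, sb_ret_th hM hr hX', if_neg Bool.false_ne_true]
  · rw [pA_true q hX', sb_ret_th hM hr hX', if_pos rfl]

/-- (b) the letter `sing v'` does not occur -/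
private theorem sb_step (hM : Mix M F) (hM' : RA (nG M) M') (hg : Apts cs pr (pA M F q) g)
    (θ : ∀ v, Γ v → Bool) {X : Irr M} (hX : X ∉ lF M F) {v' : S} (hv' : v' ∈ F)
    (hadj : ¬ (nG M).Adj (sing M v') X) (x : AG M F Γ) :
    ∃ N : ℕ, ∀ (w w' : W) (m m' : Irr M → ℕ) (a b : Irr M → Bool),
      w ∈ wf cs (lF M F) → w' ∈ wf cs (lF M F) → Pos (nG M) (lF M F) m →
      Pos (nG M) (lF M F) m' → (∀ Z, m Z ≠ 0 → X.1 ⊆ Z.1 → a Z = true) →
      g b w' * zp (pA M F q) b m' = g a w * zp (pA M F q) a m * x → N < m X →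
      ∀ R R' : W →* W,
        (∀ v ∈ F, R (cs.simple (sing M v)) =
          if θ v (q v (a (sing M v))) = θ v 1 then 1 else cs.simple (sing M v)) →
        (∀ v ∈ F, R' (cs.simple (sing M v)) =
          if θ v (q v (b (sing M v))) = θ v 1 then 1 else cs.simple (sing M v)) →
        (R w)⁻¹ * R' w' ∈ wf cs ((lF M F).erase (sing M v')) := by
  classical
  obtain ⟨r, hr1, hr2⟩ := exists_ret hM Γ
  obtain ⟨Y, hY⟩ : ∃ Y : Finset S, ∀ s, s ∈ Y ↔ s ∉ F ∧ M s v' = 2 :=
    ⟨univ.filter fun s => s ∉ F ∧ M s v' = 2, fun s => by rw [mem_filter, and_iff_right (mem_univ s)]⟩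
  have hXY : ¬ X.1 ⊆ Y := by
    intro h
    refine hadj ((adj_sing hM hX hv').2 fun s hs => ?_)
    rw [M.symmetric]
    exact ((hY s).1 (h hs)).2
  obtain ⟨Q, hQ⟩ : ∃ Q : Irr M → Prop, ∀ Z, Q Z ↔ ∃ u ∈ F, Z = sing M u ∧
      ∃ s, s ∉ F ∧ M s u = 2 ∧ M s v' ≠ 2 := ⟨_, fun Z => Iff.rfl⟩
  obtain ⟨M1, hM1⟩ := Pool.Agent.H65.BU.exists_ra (exG (nG M) Q)
  have hF1 := Pool.Agent.H65.BU.facts_of_ra hM1 M1.toCoxeterSystem
  obtain ⟨cs1, hcs1⟩ : ∃ cs1, cs1 = M1.toCoxeterSystem := ⟨_, rfl⟩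
  rw [← hcs1] at hF1
  obtain ⟨i, hi, hiC⟩ := lemC hM' (cs := cs) hM1 cs1
  obtain ⟨e, he⟩ : ∃ e : S → M1.Group, ∀ u, e u = cs1.simple (some (sing M u)) :=
    ⟨_, fun u => rfl⟩
  obtain ⟨τ, hτ⟩ : ∃ τ, τ = cs1.simple none := ⟨_, rfl⟩
  have hee : ∀ v, e v * e v = 1 := fun v => by
    rw [he]
    exact cs1.simple_mul_simple_self _
  have hec : ∀ u ∈ F, ∀ v ∈ F, M u v = 2 → e u * e v = e v * e u := by
    intro u hu v _ huv
    rw [he, he]
    exact hF1.comm (some (sing M u)) (some (sing M v)) ((adj_sing_sing hM hu).2 huv)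
  have hττ : τ * τ = 1 := by
    rw [hτ]
    exact cs1.simple_mul_simple_self _
  have hK : ∀ s, s ∉ F → ∀ u ∈ F, M s u = 2 → bgen M s ∈ gp M Y ∨ e u * τ = τ * e u := by
    intro s hs u hu hsu
    by_cases h3 : M s v' = 2
    · exact Or.inl (Subgroup.subset_closure ⟨s, (hY s).2 ⟨hs, h3⟩, rfl⟩)
    · right
      rw [he, hτ]
      exact hF1.comm (some (sing M u)) none ((hQ _).2 ⟨u, hu, rfl, s, hs, hsu, h3⟩)
  obtain ⟨κ, hκ⟩ := exists_kapC hM hr1 hr2 (fun v _ => hee v) hec hττ hK θ
  obtain ⟨κ0, hκ0⟩ := exists_kapC hM hr1 hr2 (fun v _ => hee v) hec hττ (K := ⊤)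
    (fun s _ u _ _ => Or.inl (Subgroup.mem_top _)) θ
  obtain ⟨P, hP1, hPx, hP⟩ := kapC_incr hr2 hκ hκ0 x
  choose N hN using wn_bound X hXY
  refine ⟨P.sup N, fun w w' m m' a b hw hw' hm hm' hsg hx hlt R R' hR hR' => ?_⟩
  have hh : r (g a w * zp (pA M F q) a m) =
      zp (fun x : Irr M × Bool => if x.2 then xg M x.1 else (xg M x.1)⁻¹) a m := by
    rw [map_mul, r_apt hr2 hg a hw, one_mul, sb_ret_zp hM hr1 hm]
  have hout : ∀ ρ ∈ P, r (g a w * zp (pA M F q) a m) * ρ ∉ gp M Y := by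
    intro ρ hρ h3
    rw [hh] at h3
    have h4 := hN ρ m a hsg h3
    have h5 : N ρ ≤ P.sup N := Finset.le_sup hρ
    omega
  have hin := hP _ hout
  rw [← hx] at hin
  have o1 : r (g a w * zp (pA M F q) a m) ∉ gp M Y := by
    have h3 := hout 1 hP1
    rwa [mul_one] at h3
  have o2 : r (g b w' * zp (pA M F q) b m') ∉ gp M Y := by
    rw [hx, map_mul]
    exact hout _ hPx
  obtain ⟨y, hy⟩ := sb_zp_th (q := q) (Γ := Γ) hm a
  obtain ⟨y', hy'⟩ := sb_zp_th (q := q) (Γ := Γ) hm' b
  have e1 : κ (g a w * zp (pA M F q) a m) = κ (g a w) * τ := by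
    rw [hy] at o1 ⊢
    rw [hκ.th, if_neg]
    rw [r_apt hr2 hg a hw]
    exact fun h3 => o1 (h3.1 (one_mem _))
  have e2 : κ (g b w' * zp (pA M F q) b m') = κ (g b w') * τ := by
    rw [hy'] at o2 ⊢
    rw [hκ.th, if_neg]
    rw [r_apt hr2 hg b hw']
    exact fun h3 => o2 (h3.1 (one_mem _))
  have e3 : κ0 (g a w * zp (pA M F q) a m) = κ0 (g a w) := by
    rw [hy, hκ0.th, if_pos ⟨fun _ => Subgroup.mem_top _, fun _ => Subgroup.mem_top _⟩, mul_one]
  have e4 : κ0 (g b w' * zp (pA M F q) b m') = κ0 (g b w') := by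
    rw [hy', hκ0.th, if_pos ⟨fun _ => Subgroup.mem_top _, fun _ => Subgroup.mem_top _⟩, mul_one]
  have hcomp : ∀ (R : W →* W) (a : Irr M → Bool), (∀ v ∈ F, R (cs.simple (sing M v)) =
      if θ v (q v (a (sing M v))) = θ v 1 then 1 else cs.simple (sing M v)) →
      ∀ v ∈ F, (i.comp R) (cs.simple (sing M v)) =
        if θ v (q v (a (sing M v))) = θ v 1 then 1 else e v := by
    intro R a hR v hv
    show i (R (cs.simple (sing M v))) = _
    rw [hR v hv]
    split_ifs
    · exact map_one i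
    · rw [hi, he]
  have f1 : κ (g a w) = i (R w) := kapC_apt hκ hg a (fun v _ => hee v) (i.comp R) (hcomp R a hR) hw
  have f2 : κ (g b w') = i (R' w') :=
    kapC_apt hκ hg b (fun v _ => hee v) (i.comp R') (hcomp R' b hR') hw'
  have f3 : κ0 (g a w) = i (R w) :=
    kapC_apt hκ0 hg a (fun v _ => hee v) (i.comp R) (hcomp R a hR) hw
  have f4 : κ0 (g b w') = i (R' w') :=
    kapC_apt hκ0 hg b (fun v _ => hee v) (i.comp R') (hcomp R' b hR') hw'
  rw [e1, e2, e3, e4, f1, f2, f3, f4] at hin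
  have hcom : cs1.simple none * i ((R w)⁻¹ * R' w') = i ((R w)⁻¹ * R' w') * cs1.simple none := by
    rw [← hτ, map_mul, map_inv]
    have h3 : (i (R w) * τ)⁻¹ * (i (R' w') * τ) = τ * ((i (R w))⁻¹ * i (R' w')) * τ := by
      have h4 : τ⁻¹ = τ := inv_eq_of_mul_eq_one_left hττ
      rw [mul_inv_rev, h4]
      group
    rw [h3] at hin
    have h4 : τ * ((i (R w))⁻¹ * i (R' w')) * τ * τ = (i (R w))⁻¹ * i (R' w') * τ := by
      rw [hin]
    rwa [mul_assoc (τ * _) τ τ, hττ, mul_one] at h4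
  have hmem : ∀ (R : W →* W) (a : Irr M → Bool), (∀ v ∈ F, R (cs.simple (sing M v)) =
      if θ v (q v (a (sing M v))) = θ v 1 then 1 else cs.simple (sing M v)) →
      ∀ w ∈ wf cs (lF M F), R w ∈ wf cs (lF M F) := by
    intro R a hR w hw
    refine wf_ind (cs := cs) (FF := lF M F) (C := fun w => R w ∈ wf cs (lF M F)) ?_ ?_ hw
    · show R 1 ∈ _
      rw [map_one]
      exact one_mem _
    · intro w z _ hz h
      obtain ⟨v, hv, rfl⟩ := mem_lF.1 hz
      show R (w * cs.simple (sing M v)) ∈ _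
      rw [map_mul, hR v hv]
      split_ifs
      · rw [mul_one]
        exact h
      · exact mul_mem h (simple_wf hz)
  refine hiC (lF M F) _ (mul_mem (inv_mem (hmem R a hR w hw)) (hmem R' b hR' w' hw')) hcom _ ?_
  rw [hQ]
  rintro ⟨u, -, hu, s, -, h3, h4⟩
  rw [← sing_inj hu] at h3
  exact h4 h3

/-- (c) an element in which only the letters adjacent to `X` occur -/
private theorem sb_comm (hM' : RA (nG M) M') {X : Irr M} {y : W} (hy : y ∈ wf cs (lF M F))
    (h : ∀ v ∈ F, ¬ (nG M).Adj (sing M v) X → y ∈ wf cs ((lF M F).erase (sing M v))) :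
    cs.simple X * y = y * cs.simple X := by
  classical
  have hF := Pool.Agent.H65.BU.facts_of_ra hM' cs
  have key : ∀ T : Finset S, (∀ v ∈ T, v ∈ F ∧ ¬ (nG M).Adj (sing M v) X) →
      y ∈ wf cs ((lF M F) \ T.image (sing M)) := by
    intro T
    induction T using Finset.induction_on with
    | empty =>
      intro _
      rw [image_empty, sdiff_empty]
      exact hy
    | insert v T _ ih =>
      intro hT
      have h3 := ih fun u hu => hT u (mem_insert_of_mem hu)
      have h4 := hT v (mem_insert_self v T)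
      have h5 := wf_inter hM' h3 (h v h4.1 h4.2)
      have h6 : (lF M F \ T.image (sing M)) ∩ (lF M F).erase (sing M v) =
          lF M F \ (insert v T).image (sing M) := by
        ext z
        rw [mem_inter, mem_sdiff, mem_erase, mem_sdiff, image_insert, mem_insert, not_or]
        tauto
      rwa [h6] at h5
  refine comm_of_wf hF (A := (lF M F) \ (F.filter fun v => ¬ (nG M).Adj (sing M v) X).image
    (sing M)) (fun z hz => ?_) (key _ fun v hv => mem_filter.1 hv)
  rw [mem_sdiff] at hz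
  obtain ⟨v, hv, rfl⟩ := mem_lF.1 hz.1
  by_contra h3
  exact hz.2 (mem_image_of_mem _ (mem_filter.2 ⟨hv, h3⟩))

/-- the blocked exponents are bounded -/
theorem sep_blocked (hM : Mix M F) (hM' : RA (nG M) M') (h1 : ∀ v ∈ F, ∀ b, q v b ≠ 1)
    (h2 : ∀ v ∈ F, q v true ≠ q v false) (hg : Apts cs pr (pA M F q) g) (E : Finset (AG M F Γ))
    (X : Irr M) : ∃ N : ℕ, ∀ (w w' : W) (m m' : Irr M → ℕ) (a b : Irr M → Bool),
      w ∈ wf cs (lF M F) → w' ∈ wf cs (lF M F) → Pos (nG M) (lF M F) m →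
      Pos (nG M) (lF M F) m' → Opp cs w w' m m' a b →
      (g a w * zp (pA M F q) a m)⁻¹ * (g b w' * zp (pA M F q) b m') ∈ E →
      ¬ (cs.simple X * w = w * cs.simple X) → m X ≤ N := by
  classical
  by_cases hX : X ∈ lF M F
  · refine ⟨0, fun w w' m m' a b _ _ hm _ _ _ _ => ?_⟩
    by_contra h3
    exact hm.1 X (by omega) hX
  have hst : ∀ (v' : S) (o : Option S) (x : AG M F Γ), ∃ N : ℕ, v' ∈ F →
      ¬ (nG M).Adj (sing M v') X → ∀ (w w' : W) (m m' : Irr M → ℕ) (a b : Irr M → Bool),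
      w ∈ wf cs (lF M F) → w' ∈ wf cs (lF M F) → Pos (nG M) (lF M F) m →
      Pos (nG M) (lF M F) m' → (∀ Z, m Z ≠ 0 → X.1 ⊆ Z.1 → a Z = true) →
      g b w' * zp (pA M F q) b m' = g a w * zp (pA M F q) a m * x → N < m X →
      ∀ R R' : W →* W,
        (∀ v ∈ F, R (cs.simple (sing M v)) =
          if sbTh q o v (q v (a (sing M v))) = sbTh q o v 1 then 1 else cs.simple (sing M v)) →
        (∀ v ∈ F, R' (cs.simple (sing M v)) =
          if sbTh q o v (q v (b (sing M v))) = sbTh q o v 1 then 1 else cs.simple (sing M v)) →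
        (R w)⁻¹ * R' w' ∈ wf cs ((lF M F).erase (sing M v')) := by
    intro v' o x
    by_cases hv' : v' ∈ F
    · by_cases hadj : (nG M).Adj (sing M v') X
      · exact ⟨0, fun _ h => absurd hadj h⟩
      · obtain ⟨N, hN⟩ := sb_step hM hM' hg (sbTh q o) hX hv' hadj x
        exact ⟨N, fun _ _ => hN⟩
    · exact ⟨0, fun h => absurd h hv'⟩
  choose N hN using hst
  refine ⟨E.sup fun x => univ.sup fun o : Option S => univ.sup fun v' : S => N v' o x,
    fun w w' m m' a b hw hw' hm hm' hab hx hn => ?_⟩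
  by_contra hlt
  rw [not_le] at hlt
  obtain ⟨x, hxE, hgx⟩ : ∃ x ∈ E, g b w' * zp (pA M F q) b m' =
      g a w * zp (pA M F q) a m * x := ⟨_, hx, (mul_inv_cancel_left _ _).symm⟩
  have hNlt : ∀ v' o, N v' o x < m X := by
    intro v' o
    refine lt_of_le_of_lt ?_ hlt
    refine le_trans ?_ (Finset.le_sup
      (f := fun x => univ.sup fun o : Option S => univ.sup fun v' : S => N v' o x) hxE)
    refine le_trans ?_ (Finset.le_sup
      (f := fun o : Option S => univ.sup fun v' : S => N v' o x) (mem_univ o))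
    exact Finset.le_sup (f := fun v' : S => N v' o x) (mem_univ v')
  -- (a) the signs
  have hsg : ∀ Z, m Z ≠ 0 → X.1 ⊆ Z.1 → a Z = true := by
    intro Z hZ hXZ
    have hZ' := hm.1 Z hZ
    refine hab.left Z hZ fun h3 => hn ?_
    refine comm_of_comm hM' hZ' hX (fun v hv hadj => ?_) hw h3
    obtain ⟨u, hu, rfl⟩ := mem_lF.1 hv
    exact (adj_sing hM hX hu).2 fun s hs => (adj_sing hM hZ' hu).1 hadj s (hXZ hs)
  -- (c) the commutation
  have hcom : ∀ (o : Option S) (R R' : W →* W),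
      (∀ v ∈ F, R (cs.simple (sing M v)) =
        if sbTh q o v (q v (a (sing M v))) = sbTh q o v 1 then 1 else cs.simple (sing M v)) →
      (∀ v ∈ F, R' (cs.simple (sing M v)) =
        if sbTh q o v (q v (b (sing M v))) = sbTh q o v 1 then 1 else cs.simple (sing M v)) →
      (R w)⁻¹ * R' w' ∈ wf cs (lF M F) →
      cs.simple X * ((R w)⁻¹ * R' w') = (R w)⁻¹ * R' w' * cs.simple X := by
    intro o R R' hR hR' hmem
    refine sb_comm hM' hmem fun v' hv' hadj => ?_
    exact hN v' o x hv' hadj w w' m m' a b hw hw' hm hm' hsg hgx (hNlt v' o) R R' hR hR'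
  have hid : ∀ (o : Option S) (c : Irr M → Bool), (∀ v ∈ F, o = some v → c (sing M v) = true) →
      ∀ v ∈ F, (MonoidHom.id W) (cs.simple (sing M v)) =
        if sbTh q o v (q v (c (sing M v))) = sbTh q o v 1 then 1 else cs.simple (sing M v) := by
    intro o c ho v hv
    rw [if_neg]
    · rfl
    · rw [sbTh_val h1 h2 o hv]
      rintro ⟨h3, h4⟩
      rw [ho v hv h3] at h4
      exact absurd h4 (by decide)
  have hkr : ∀ (u : S) (c : Irr M → Bool), c (sing M u) = false → ∀ r : W →* W,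
      (∀ z, r (cs.simple z) = if z = sing M u then 1 else cs.simple z) →
      ∀ v ∈ F, r (cs.simple (sing M v)) =
        if sbTh q (some u) v (q v (c (sing M v))) = sbTh q (some u) v 1 then 1
        else cs.simple (sing M v) := by
    intro u c hc r hr v hv
    rw [hr]
    refine if_congr ?_ rfl rfl
    rw [sbTh_val h1 h2 (some u) hv]
    constructor
    · intro h3
      have h4 : v = u := sing_inj h3
      subst h4
      exact ⟨rfl, hc⟩
    · rintro ⟨h3, _⟩
      rw [Option.some.inj h3]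
  have hcw : cs.simple X * (w⁻¹ * w') = w⁻¹ * w' * cs.simple X :=
    hcom none (MonoidHom.id W) (MonoidHom.id W)
      (hid none a fun v _ h => absurd h (by simp)) (hid none b fun v _ h => absurd h (by simp))
      (mul_mem (inv_mem hw) hw')
  obtain ⟨v, hv, hv', hvr⟩ := lemB hM' hX hw hw' hcw hn
  have hne := hab.fst v hv hv'
  obtain ⟨u, hu, rfl⟩ := mem_lF.1 (fst_wf hM' hw hv)
  obtain ⟨r, hr, _⟩ := Pool.Agent.H65.BU.exists_kill hM' cs (sing M u)
  obtain ⟨n1, n2⟩ := hvr r hr
  have hrw : ∀ w ∈ wf cs (lF M F), r w ∈ wf cs (lF M F) := by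
    intro w hw
    refine wf_ind (cs := cs) (FF := lF M F) (C := fun w => r w ∈ wf cs (lF M F)) ?_ ?_ hw
    · show r 1 ∈ _
      rw [map_one]
      exact one_mem _
    · intro w z _ hz h
      show r (w * cs.simple z) ∈ _
      rw [map_mul, hr z]
      split_ifs
      · rw [mul_one]
        exact h
      · exact mul_mem h (simple_wf hz)
  cases ha : a (sing M u)
  · have hb : b (sing M u) = true := by
      cases hb : b (sing M u)
      · rw [ha, hb] at hne
        exact absurd rfl hne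
      · rfl
    have h3 := hcom (some u) r (MonoidHom.id W) (hkr u a ha r hr)
      (hid (some u) b fun v _ h => Option.some.inj h ▸ hb) (mul_mem (inv_mem (hrw w hw)) hw')
    refine n1 ?_
    have h4 : Commute (cs.simple X) (w⁻¹ * w') := hcw
    have h5 : Commute (cs.simple X) ((r w)⁻¹ * w') := h3
    have h6 := h4.mul_right h5.inv_right
    have e : w⁻¹ * w' * ((r w)⁻¹ * w')⁻¹ = w⁻¹ * r w := by group
    rw [e] at h6
    exact h6
  · have hb : b (sing M u) = false := by
      cases hb : b (sing M u)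
      · rfl
      · rw [ha, hb] at hne
        exact absurd rfl hne
    have h3 := hcom (some u) (MonoidHom.id W) r
      (hid (some u) a fun v _ h => Option.some.inj h ▸ ha) (hkr u b hb r hr)
      (mul_mem (inv_mem hw) (hrw w' hw'))
    refine n2 ?_
    have h4 : Commute (cs.simple X) (w⁻¹ * w') := hcw
    have h5 : Commute (cs.simple X) (w⁻¹ * r w') := h3
    have h6 := h4.inv_right.mul_right h5
    have e : (w⁻¹ * w')⁻¹ * (w⁻¹ * r w') = w'⁻¹ * r w' := by group
    rw [e] at h6
    exact h6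

end Pool.Agent.H65.AB

end

section

/-!
# Project AB: coarse embeddings of subgroups
-/

set_option autoImplicit false

namespace Pool.Agent.H93.AB

open Pool.Agent.H93.AA Pool.Agent.H4.FC H42.NU Pool.Agent.H65.AB
open Pool.Agent.H10.CI (CoarseEmb CoarseEmb.hom CoarseEmb.comp)

/-- a coarse embedding of a subgroup which contains the groups `Γ v` and powers of the elements `Δ_T` -/
theorem cem_of_sub {S Λ : Type} [Fintype S] [DecidableEq S] [Group Λ] {M : CoxeterMatrix S}
    {F : Finset S} (hF : Mix M F) {Γ : S → Type} [∀ v, Group (Γ v)] (P : Subgroup (AG M F Γ))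
    (hP1 : ∀ v ∈ F, ∀ a : Γ v, io M F v a ∈ P)
    (hP2 : ∀ T : Finset S, Sph M T → Disjoint T F → ∃ k : ℕ, 0 < k ∧ th M F Γ (dlt M T) ^ k ∈ P)
    {f : P → Λ} (hf : CoarseEmb f) : CEm M F Γ Λ := by
  classical
  let fI : Fintype (Irr M) := Fintype.ofFinite _
  have h1 : ∀ X : Irr M, ∃ k : ℕ, 0 < k ∧ th M F Γ (xg M X) ^ k ∈ P := by
    intro X
    by_cases hX : X ∈ lF M F
    · obtain ⟨v, hv, rfl⟩ := mem_lF.1 hX
      refine ⟨1, one_pos, ?_⟩
      have h2 : xg M (sing M v) ∈ (th M F Γ).ker := by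
        refine (Subgroup.closure_le _).2 ?_ (xg_mem_gp M (sing M v))
        rintro x ⟨s, hs, rfl⟩
        have hs' : s = v := Finset.mem_singleton.1 hs
        rw [hs']
        exact th_F hv
      rw [MonoidHom.mem_ker.1 h2, one_pow]
      exact P.one_mem
    · obtain ⟨k, hk, hkP⟩ := hP2 X.1 X.2.1 (disj hF hX)
      refine ⟨k, hk, ?_⟩
      have h2 : th M F Γ (xg M X) ^ k = (th M F Γ (dlt M X.1) ^ k) ^ 2 := by
        show th M F Γ (dlt M X.1 ^ 2) ^ k = _
        rw [map_pow, ← pow_mul, ← pow_mul, mul_comm]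
      rw [h2]
      exact P.pow_mem hkP 2
  choose k hk hkP using h1
  refine ⟨∏ X, k X, Finset.prod_pos fun X _ => hk X, ?_⟩
  have h2 : AN M F Γ (∏ X, k X) ≤ P := by
    unfold AN
    rw [Subgroup.closure_le]
    rintro x (⟨v, hv, a, rfl⟩ | ⟨X, rfl⟩)
    · exact hP1 v hv a
    · obtain ⟨m, hm⟩ := Finset.dvd_prod_of_mem k (Finset.mem_univ X)
      show _ ∈ P
      rw [hm, pow_mul]
      exact P.pow_mem (hkP X) m
  exact ⟨_, hf.comp (CoarseEmb.hom (f := Subgroup.inclusion h2) (Subgroup.inclusion_injective h2))⟩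

end Pool.Agent.H93.AB

end

section

/-!
# Project AB: the mixed complex, comparison with trivial coefficients
-/

set_option autoImplicit false
set_option linter.unusedSectionVars false

namespace Pool.Agent.H93.AB

open Finset
open Pool.Agent.H4.Atiyah Pool.Agent.H78.RA Pool.Agent.H3.MX

section

open Classical

variable {Y : Type} [Fintype Y] {Γ : Type} [Group Γ]

/-- the allowed cells with a condition on the dimension -/
def Ac (F : Y → Prop) (K : Finset Y → Prop) (c : ℕ → Prop) (p : Finset Y × Finset Y) : Prop :=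
  Al F K p ∧ c p.2.card

/-- the boundary operator -/
noncomputable def Dq (ν : Y → ℕ) (E : Y → BB Γ) (N : Finset Y → Y → BB Γ)
    (P Q : Finset Y × Finset Y → Prop) : LL (Iy P) Γ →L[ℂ] LL (Iy Q) Γ :=
  Mq P Q fun a b => ∑ y ∈ (b.2)ᶜ, if fc y b = a then sg ν b.2 y • Ty E N y b else 0

theorem cq_Dq {ν : Y → ℕ} {E : Y → BB Γ} {N : Finset Y → Y → BB Γ} {F : Y → Prop}
    {K : Finset Y → Prop} (hK : ∀ σ τ, τ ⊆ σ → K σ → K τ) (hE : ∀ y, ¬ F y → E y = 0)
    {c c' : ℕ → Prop} (hc : ∀ n, c (n + 1) → c' n) (x : LL (Iy (Ac F K c)) Γ)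
    (b : Finset Y × Finset Y) :
    cq (Ac F K c') (Dq ν E N (Ac F K c) (Ac F K c') x) b = dF ν E N (cq (Ac F K c) x) b := by
  by_cases hb : Ac F K c' b
  · unfold Dq
    rw [cq_Mq _ _ _ _ _ hb]
    have h1 : ∀ a, (∑ y ∈ (b.2)ᶜ, if fc y b = a then sg ν b.2 y • Ty E N y b else 0)
        (cq (Ac F K c) x a) = ∑ y ∈ (b.2)ᶜ, if fc y b = a then
          sg ν b.2 y • Ty E N y b (cq (Ac F K c) x a) else 0 := by
      intro a
      rw [_root_.sum_apply]
      refine sum_congr rfl fun y _ => ?_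
      split_ifs <;> rfl
    rw [sum_congr rfl fun a _ => h1 a, sum_comm]
    unfold dF
    refine sum_congr rfl fun y _ => ?_
    rw [sum_ite_eq univ (fc y b) fun a => sg ν b.2 y • Ty E N y b (cq (Ac F K c) x a),
      if_pos (mem_univ _)]
  · rw [cq_neg _ _ hb]
    by_contra h0
    exact hb (dF_supp hK hE hc (fun p hp => cq_supp x p hp) b (Ne.symm h0))

theorem eqv_Dq (ν : Y → ℕ) {E : Y → BB Γ} {N : Finset Y → Y → BB Γ}
    (P Q : Finset Y × Finset Y → Prop) (hE : ∀ y, Eqv (E y)) (hN : ∀ τ y, Eqv (N τ y)) :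
    Eqv (Dq ν E N P Q) := by
  refine eqv_Mq _ _ _ fun a b => Eqv.sum _ _ fun y _ => ?_
  split_ifs
  · refine Eqv.zsmul _ ?_
    unfold Ty
    split_ifs
    · have h : -E y = (-1 : ℂ) • E y := by rw [neg_smul, one_smul]
      rw [h]
      exact (hE y).smul _
    · exact hN _ _
  · exact Eqv.zero

/-- the invariant chains -/
noncomputable def Xq (Kf : Y → Multiset Γ) (P : Finset Y × Finset Y → Prop) :
    Submodule ℂ (LL (Iy P) Γ) :=
  ⨅ (p : Iy P) (y : Y) (_ : y ∈ p.1.1) (k : Γ) (_ : k ∈ Kf y), kr ((Rt k - 1) ∘L pr p)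

theorem mem_Xq {Kf : Y → Multiset Γ} {P : Finset Y × Finset Y → Prop} {x : LL (Iy P) Γ} :
    x ∈ Xq Kf P ↔ ∀ p, cq P x p ∈ VQ Kf p.1 := by
  unfold Xq
  simp only [Submodule.mem_iInf, mem_kr, mem_VQ]
  constructor
  · intro h p y hy k hk
    by_cases hp : P p
    · rw [cq_pos _ _ hp]
      have h1 : Rt k (pr (⟨p, hp⟩ : Iy P) x) - pr (⟨p, hp⟩ : Iy P) x = 0 := h ⟨p, hp⟩ y hy k hk
      exact sub_eq_zero.1 h1
    · rw [cq_neg _ _ hp, map_zero]
  · intro h p y hy k hk
    have h1 := h p.1 y hy k hk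
    rw [cq_pos _ _ p.2] at h1
    show Rt k (pr p x) - pr p x = 0
    exact sub_eq_zero.2 h1

theorem isClosed_Xq (Kf : Y → Multiset Γ) (P : Finset Y × Finset Y → Prop) :
    IsClosed (Xq Kf P : Set (LL (Iy P) Γ)) := by
  unfold Xq
  simp only [Submodule.coe_iInf]
  exact isClosed_iInter fun p => isClosed_iInter fun y => isClosed_iInter fun _ =>
    isClosed_iInter fun k => isClosed_iInter fun _ => isClosed_kr _

theorem eqv_Rt (k : Γ) : Eqv (Rt k) := eqv_Eop () () k⁻¹

theorem inv_Xq (Kf : Y → Multiset Γ) (P : Finset Y × Finset Y → Prop) :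
    Pool.Agent.H78.RA.Inv (Xq Kf P) := by
  intro g x hx
  unfold Xq at hx ⊢
  simp only [Submodule.mem_iInf] at hx ⊢
  intro p y hy k hk
  exact Inv.kr (((eqv_Rt k).sub Eqv.one).comp (eqv_Eop p () 1)) g x (hx p y hy k hk)

/-- **The comparison theorem**, operator form. -/
theorem approx_ab {ν : Y → ℕ} (hν : Function.Injective ν) {F : Y → Prop} {K : Finset Y → Prop}
    (hK : ∀ σ τ, τ ⊆ σ → K σ → K τ) {Kf : Y → Multiset Γ} (hF : ∀ y, ¬ F y → Kf y = 0)
    (hgrp : ∀ y, ∀ k ∈ Kf y, (Kf y).map (fun l => k * l) = Kf y)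
    (hcom : ∀ y z, y ≠ z → K {y, z} → ∀ k ∈ Kf y, ∀ l ∈ Kf z, k * l = l * k)
    (N : Finset Y → Y → BB Γ) (α : Finset Y → BB Γ) (hN : ∀ τ y, Eqv (N τ y))
    (hα : ∀ σ, Eqv (α σ)) (hN1 : ∀ τ y, F y → N τ y = 1)
    (hmul : ∀ τ y, y ∉ τ → K (insert y τ) → α (insert y τ) = α τ * N τ y)
    (hinj : ∀ σ, K σ → ∀ x, α σ x = 0 → x = 0)
    (hRN : ∀ τ y z, y ∉ τ → z ∉ τ → z ≠ y → K (insert z (insert y τ)) → ∀ k ∈ Kf z, ∀ x,
      Rt k (N τ y x) = N τ y (Rt k x))
    (hRα : ∀ τ z, z ∉ τ → K (insert z τ) → ∀ k ∈ Kf z, ∀ x, Rt k (α τ x) = α τ (Rt k x))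
    {i : ℕ} (hex : ∀ Q : Finset Y, (∀ y ∈ Q, F y) → K Q → Ex ℂ ν (Lk K Q i) (Lk K Q (i + 1)))
    (x : LL (Iy (Ac F K fun n => n = i)) Γ) (hx : x ∈ Xq Kf (Ac F K fun n => n = i))
    (hd : Dq ν (fun y => Kop (Kf y)) N (Ac F K fun n => n = i) (Ac F K fun n => n + 1 = i) x = 0)
    (ε : ℝ) (hε : 0 < ε) :
    ∃ y ∈ Xq Kf (Ac F K fun n => n = i + 1), ‖x - Dq ν (fun y => Kop (Kf y)) N
      (Ac F K fun n => n = i + 1) (Ac F K fun n => n = i) y‖ < ε := by
  have hE0 : ∀ y, ¬ F y → (Kop (Kf y) : BB Γ) = 0 := fun y hy => by rw [hF y hy, Kop_zero]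
  have hEE : ∀ y z, y ≠ z → K {y, z} → ∀ x : LL Unit Γ, (Kop (Kf y) : BB Γ) (Kop (Kf z) x) =
      Kop (Kf z) (Kop (Kf y) x) := fun y z hyz hyzK x => Kop_Kop (hcom y z hyz hyzK) x
  have hEe : ∀ y, Eqv (Kop (Kf y) : BB Γ) := fun y => eqv_Kop _
  have h10 : ∀ n : ℕ, (fun n => n = i) (n + 1) → (fun n => n + 1 = i) n := fun n hn => hn
  have h21 : ∀ n : ℕ, (fun n => n = i + 1) (n + 1) → (fun n => n = i) n := fun n hn => by
    have : n + 1 = i + 1 := hn
    omega
  have hRN1 : ∀ (τ : Finset Y) (y z : Y), y ∉ τ → z ∉ τ → z ≠ y → K (insert z (insert y τ)) →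
      ∀ k ∈ Kf z, ∀ x : LL Unit Γ, Rt k ((1 : BB Γ) x) = (1 : BB Γ) (Rt k x) :=
    fun _ _ _ _ _ _ _ _ _ _ => rfl
  -- the letters of `Q` are not in `σ`, and form a simplex with it
  have hQσ : ∀ p, Al F K p → ∀ z ∈ p.1, z ∉ p.2 ∧ K (insert z p.2) := by
    intro p hp z hz
    refine ⟨fun h => disjoint_left.1 hp.2.1 hz h, hK _ _ ?_ hp.2.2⟩
    intro w hw
    rcases mem_insert.1 hw with rfl | hw
    · exact mem_union_left _ hz
    · exact mem_union_right _ hw
  -- the diagonal operator is injective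
  have hA : ∀ (c : ℕ → Prop) (x : LL (Iy (Ac F K c)) Γ),
      Aq (Ac F K c) (fun p => α p.2) x = 0 → x = 0 := by
    intro c x hx
    apply cq_ext
    intro p
    rw [cq_zero]
    by_cases h : Ac F K c p
    · apply hinj p.2 (hK _ _ subset_union_right h.1.2.2)
      have h1 := cq_Aq (Ac F K c) (fun p => α p.2) x p
      rw [hx, cq_zero] at h1
      exact h1.symm
    · exact cq_neg _ _ h
  -- it preserves the invariant chains
  have hXA : ∀ (c : ℕ → Prop), ∀ x ∈ Xq Kf (Ac F K c),
      Aq (Ac F K c) (fun p => α p.2) x ∈ Xq Kf (Ac F K c) := by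
    intro c x hx
    rw [mem_Xq] at hx ⊢
    intro p
    rw [cq_Aq]
    by_cases h : Ac F K c p
    · rw [mem_VQ]
      intro z hz k hk
      obtain ⟨h1, h2⟩ := hQσ p h.1 z hz
      rw [hRα p.2 z h1 h2 k hk, (mem_VQ.1 (hx p)) z hz k hk]
    · rw [cq_neg _ _ h, map_zero]
      exact Submodule.zero_mem _
  -- the chain map
  have hch : ∀ (c c' : ℕ → Prop), (∀ n, c (n + 1) → c' n) → ∀ x : LL (Iy (Ac F K c)) Γ,
      Dq ν (fun y => Kop (Kf y)) (fun _ _ => 1) (Ac F K c) (Ac F K c')
        (Aq (Ac F K c) (fun p => α p.2) x) =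
      Aq (Ac F K c') (fun p => α p.2)
        (Dq ν (fun y => Kop (Kf y)) N (Ac F K c) (Ac F K c') x) := by
    intro c c' hc x
    apply cq_ext
    intro p
    rw [cq_Dq hK hE0 hc, cq_Aq, cq_Dq hK hE0 hc]
    unfold dF
    rw [map_sum]
    refine sum_congr rfl fun y hy => ?_
    have hy' := mem_compl.1 hy
    rw [map_zsmul, cq_Aq]
    congr 1
    by_cases h0 : cq (Ac F K c) x (fc y p) = 0
    · rw [h0]
      simp only [map_zero]
    have hAc := cq_supp x _ h0
    have hKi := k_of_fc hK hAc.1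
    have hKy : K (insert y p.2) := hK _ _ (insert_subset_insert _ subset_union_right) hKi
    have h2 : (fc y p).2 = insert y p.2 := rfl
    rw [h2]
    unfold Ty
    by_cases hyQ : y ∈ p.1
    · rw [if_pos hyQ, if_pos hyQ]
      by_cases hFy : F y
      · have h3 : α (insert y p.2) = α p.2 := by
          rw [hmul p.2 y hy' hKy, hN1 _ _ hFy, mul_one]
        rw [h3]
        show -(Kop (Kf y) (α p.2 (cq (Ac F K c) x (fc y p)))) =
          α p.2 (-(Kop (Kf y) (cq (Ac F K c) x (fc y p))))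
        rw [map_neg]
        congr 1
        exact (map_Kop ((α p.2 : BB Γ) : LL Unit Γ →+ LL Unit Γ) (Kf y)
          (fun k hk x => (hRα p.2 y hy' hKy k hk x).symm) _).symm
      · have h4 : (-(fun y => Kop (Kf y)) y : BB Γ) = 0 := by
          show -Kop (Kf y) = 0
          rw [hE0 y hFy, neg_zero]
        rw [h4]
        show (0 : LL Unit Γ) = α p.2 0
        rw [map_zero]
    · rw [if_neg hyQ, if_neg hyQ, hmul p.2 y hy' hKy]
      rfl
  -- the square of the boundary with trivial coefficients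
  have hee : ∀ x : LL (Iy (Ac F K fun n => n = i + 1)) Γ,
      Dq ν (fun y => Kop (Kf y)) (fun _ _ => 1) (Ac F K fun n => n = i)
        (Ac F K fun n => n + 1 = i) (Dq ν (fun y => Kop (Kf y)) (fun _ _ => 1)
          (Ac F K fun n => n = i + 1) (Ac F K fun n => n = i) x) = 0 := by
    intro x
    apply cq_ext
    intro p
    rw [cq_Dq hK hE0 h10, cq_zero]
    have h1 : cq (Ac F K fun n => n = i) (Dq ν (fun y => Kop (Kf y)) (fun _ _ => 1)
        (Ac F K fun n => n = i + 1) (Ac F K fun n => n = i) x) =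
        dF ν (fun y => Kop (Kf y)) (fun _ _ => 1) (cq (Ac F K fun n => n = i + 1) x) :=
      funext fun q => cq_Dq hK hE0 h21 x q
    rw [h1]
    exact dF_dF hν hK hEE (fun q hq => (cq_supp x q hq).1) p
  refine approx_sub
    (Dq ν (fun y => Kop (Kf y)) N (Ac F K fun n => n = i) (Ac F K fun n => n + 1 = i))
    (Dq ν (fun y => Kop (Kf y)) (fun _ _ => 1) (Ac F K fun n => n = i) (Ac F K fun n => n + 1 = i))
    (Dq ν (fun y => Kop (Kf y)) N (Ac F K fun n => n = i + 1) (Ac F K fun n => n = i))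
    (Dq ν (fun y => Kop (Kf y)) (fun _ _ => 1) (Ac F K fun n => n = i + 1)
      (Ac F K fun n => n = i))
    (Aq _ fun p => α p.2) (Aq _ fun p => α p.2) (Aq _ fun p => α p.2) (Xq Kf _) (Xq Kf _)
    (isClosed_Xq _ _) (isClosed_Xq _ _) (inv_Xq _ _) (inv_Xq _ _) (eqv_Dq _ _ _ hEe hN)
    (eqv_Dq _ _ _ hEe hN) (eqv_Dq _ _ _ hEe fun _ _ => Eqv.one) (eqv_Aq _ _ fun p => hα p.2)
    (eqv_Aq _ _ fun p => hα p.2) ?_ (hXA _) (hXA _) ?_ (fun x _ => hch _ _ h10 x)
    (fun x _ => hch _ _ h21 x) (fun x _ => hA _ x) (fun x _ => hA _ x) ?_ x hx hd ε hε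
  · -- the boundary preserves the invariant chains
    intro y hy
    rw [mem_Xq] at hy ⊢
    intro p
    rw [cq_Dq hK hE0 h21]
    exact dF_inv hK hgrp hcom hRN (fun q hq => (cq_supp y q hq).1) hy p
  · intro y _
    apply hA
    rw [← hch _ _ h10, ← hch _ _ h21, hee]
  · intro f hf hfe
    have hfe' : ∀ p, dF ν (fun y => Kop (Kf y)) (fun _ _ => 1) (cq _ f) p = 0 := by
      intro p
      rw [← cq_Dq hK hE0 h10, hfe, cq_zero]
    obtain ⟨w, hw1, hw2, hw3⟩ := exact_tri hν hK hF hgrp hcom hex (cq _ f)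
      (fun p hp => cq_supp f p hp) (mem_Xq.1 hf) hfe'
    obtain ⟨W, hW⟩ := exists_of_cq (Ac F K fun n => n = i + 1) w hw1
    have hW' : cq (Ac F K fun n => n = i + 1) W = w := funext hW
    refine ⟨W, mem_Xq.2 fun p => by rw [hW]; exact hw2 p, ?_⟩
    apply cq_ext
    intro p
    rw [cq_Dq hK hE0 h21, hW', hw3]

end

end Pool.Agent.H93.AB

end
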