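import Pool.Agent.H71.TSG.M76
import Pool.Agent.H71.TSG.M79

/-! The parts of this file: H65.AB.HalfZ, H65.AB.SepN, H65.AB.EvalZ, H65.AB.HHZ, H93.AA.Sd, H65.AB.HzIso. -/

section

/-!
# Project AB: the homotopy

PROOF: as BU/Half with `dlF`, `OkF` (the face `fb` only for `v ∈ FF`).
-/

set_option autoImplicit false
set_option linter.unusedSectionVars false

open Finset

namespace Pool.Agent.H65.AB

open Pool.Agent.H65.RA Pool.Agent.H65.BU

variable {V W A : Type} [Fintype V] [DecidableEq V] [Group W] [Group A] {M : CoxeterMatrix V}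
  {G : SimpleGraph V} {cs : CoxeterSystem M W} {p : V × Bool → A} {pr : W → V → ZMod 2}
  {g : (V → Bool) → W → A} {FF : Finset V}

/-! ### The faces as one function -/

/-- the faces `fa` and `fb` -/
private noncomputable def halfF (cs : CoxeterSystem M W) (c : Cub V W) (v : V) (b : Bool) : Cub V W :=
  if b then fb cs c v else fa cs c v

/-- the faces in direction `v` -/
private def halfB (FF : Finset V) (v : V) : Finset Bool :=
  if v ∈ FF then univ else {false}

private theorem halfB_true {v : V} (h : true ∈ halfB FF v) : v ∈ FF := by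
  unfold halfB at h
  split_ifs at h with hv
  · exact hv
  · simp at h

private theorem halfB_sum (v : V) (f : Bool → ZMod 2) :
    ∑ b ∈ halfB FF v, f b = f false + if v ∈ FF then f true else 0 := by
  unfold halfB
  split_ifs with hv
  · rw [Fintype.sum_bool, add_comm]
  · rw [sum_singleton, add_zero]

private theorem halfF_card (cs : CoxeterSystem M W) (c : Cub V W) (v : V) (b : Bool) :
    (halfF cs c v b).2.1 = c.2.1.erase v := by
  cases b <;> rfl

private theorem half_dl (cs : CoxeterSystem M W) (φ : Cub V W → Cub V W → ZMod 2) (c c' : Cub V W) :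
    dlF cs FF φ c c' = ∑ v ∈ c.2.1, ∑ b ∈ halfB FF v, φ (halfF cs c v b) c' +
      ∑ v ∈ c'.2.1, ∑ b ∈ halfB FF v, φ c (halfF cs c' v b) := by
  unfold dlF
  congr 1
  · refine sum_congr rfl fun v _ => ?_
    rw [halfB_sum]
    rfl
  · refine sum_congr rfl fun v _ => ?_
    rw [halfB_sum]
    rfl

private theorem half_add (cs : CoxeterSystem M W) (φ ψ : Cub V W → Cub V W → ZMod 2)
    (c c' : Cub V W) :
    dlF cs FF (fun x y => φ x y + ψ x y) c c' = dlF cs FF φ c c' + dlF cs FF ψ c c' := by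
  simp only [half_dl, sum_add_distrib]
  ring

private theorem half_tr (cs : CoxeterSystem M W) (φ : Cub V W → Cub V W → ZMod 2)
    (c c' : Cub V W) : dlF cs FF (fun x y => φ y x) c c' = dlF cs FF φ c' c := by
  simp only [half_dl]
  rw [add_comm]

private theorem half_self (x : ZMod 2) : x + x = 0 := CharTwo.add_self_eq_zero x

private theorem half_eq {x y : ZMod 2} (h : x + y = 0) : x = y := by
  rw [← sub_eq_zero, sub_eq_add_neg, ZModModule.neg_eq_self]
  exact h

/-- a symmetric sum over the pairs of different elements -/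
private theorem half_sym (s : Finset V) (R : V → V → ZMod 2)
    (h : ∀ u ∈ s, ∀ v ∈ s, u ≠ v → R u v = R v u) : ∑ v ∈ s, ∑ u ∈ s.erase v, R v u = 0 := by
  rw [Finset.sum_sigma']
  refine Finset.sum_involution (fun p _ => ⟨p.2, p.1⟩) ?_ ?_ ?_ ?_
  · rintro ⟨v, u⟩ hp
    rw [mem_sigma, mem_erase] at hp
    simp only at hp ⊢
    rw [h v hp.1 u hp.2.2 hp.2.1.symm]
    exact half_self _
  · rintro ⟨v, u⟩ hp _ heq
    rw [mem_sigma, mem_erase] at hp
    simp only [Sigma.mk.injEq] at heq
    exact hp.2.1 heq.1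
  · rintro ⟨v, u⟩ hp
    rw [mem_sigma, mem_erase] at hp ⊢
    exact ⟨hp.2.2, hp.2.1.symm, hp.1⟩
  · rintro ⟨v, u⟩ hp
    rfl

/-! ### The iterated faces -/

private theorem res_res {X Y : Finset V} (h : X ⊆ Y) (a : Finset (V × Bool)) :
    res X (res Y a) = res X a := by
  unfold res
  rw [filter_filter]
  refine filter_congr fun q _ => ?_
  exact ⟨fun hq => hq.2, fun hq => ⟨h hq, hq⟩⟩

/-- the corner of a face -/
private noncomputable def halfW (cs : CoxeterSystem M W) (w : W) (v : V) (b : Bool) : W :=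
  if b then w * cs.simple v else w

private theorem halfF_eq (cs : CoxeterSystem M W) (c : Cub V W) (v : V) (b : Bool) :
    halfF cs c v b = (halfW cs c.1 v b, c.2.1.erase v,
      res (FH cs (halfW cs c.1 v b) (c.2.1.erase v)) c.2.2) := by
  cases b <;> rfl

private theorem half_valid (hF : Facts G cs) (hg : Apts cs pr p g) {c : Cub V W}
    (h : Valid G cs pr c) {v : V} (hv : v ∈ c.2.1) (b : Bool) : Valid G cs pr (halfF cs c v b) := by
  cases b
  · exact valid_fa h hv
  · exact valid_fb hF hg h hv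

private theorem half_ok (hF : Facts G cs) (hg : Apts cs pr p g) {c c' : Cub V W}
    (h : OkF G cs FF pr c c') {v : V} (hv : v ∈ c.2.1) {b : Bool} (hb : b ∈ halfB FF v) :
    OkF G cs FF pr (halfF cs c v b) c' := by
  cases b
  · exact okF_fa h hv
  · exact okF_fb hF hg h hv (halfB_true hb)

/-- the first letters of a face -/
private theorem half_sub (hF : Facts G cs) (hg : Apts cs pr p g) {c : Cub V W}
    (h : Valid G cs pr c) {v : V} (hv : v ∈ c.2.1) (b : Bool) :
    FH cs (halfW cs c.1 v b) (c.2.1.erase v) ⊆ FH cs c.1 c.2.1 := by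
  cases b
  · rcases FH_a (cs := cs) c.1 hv with h1 | h1
    · exact h1.subset
    · exact h1.1.subset.trans (erase_subset _ _)
  · exact (FH_b hF hg h.1 h.2.1 hv).subset

private theorem half_iter (hF : Facts G cs) (hg : Apts cs pr p g) {c : Cub V W}
    (h : Valid G cs pr c) {v : V} (hv : v ∈ c.2.1) (b : Bool) {u : V} (hu : u ∈ c.2.1) (hne : u ≠ v)
    (b' : Bool) : halfF cs (halfF cs c v b) u b' =
      (halfW cs (halfW cs c.1 v b) u b', (c.2.1.erase v).erase u,
        res (FH cs (halfW cs (halfW cs c.1 v b) u b') ((c.2.1.erase v).erase u)) c.2.2) := by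
  have h1 := half_valid hF hg h hv b
  have hu' : u ∈ (halfF cs c v b).2.1 := by
    rw [halfF_card]
    exact mem_erase.2 ⟨hne, hu⟩
  have h2 := half_sub hF hg h1 hu' b'
  rw [halfF_eq cs (halfF cs c v b) u b']
  rw [halfF_eq cs c v b] at h2 ⊢
  rw [res_res h2]

private theorem half_swap (hF : Facts G cs) (hg : Apts cs pr p g) {c : Cub V W}
    (h : Valid G cs pr c) {v : V} (hv : v ∈ c.2.1) (b : Bool) {u : V} (hu : u ∈ c.2.1) (hne : u ≠ v)
    (b' : Bool) : halfF cs (halfF cs c v b) u b' = halfF cs (halfF cs c u b') v b := by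
  rw [half_iter hF hg h hv b hu hne b', half_iter hF hg h hu b' hv hne.symm b]
  have hadj : G.Adj v u := h.1 (mem_coe.2 hv) (mem_coe.2 hu) hne.symm
  have e1 : halfW cs (halfW cs c.1 v b) u b' = halfW cs (halfW cs c.1 u b') v b := by
    cases b <;> cases b'
    · rfl
    · rfl
    · rfl
    · show c.1 * cs.simple v * cs.simple u = c.1 * cs.simple u * cs.simple v
      rw [mul_assoc, mul_assoc, hF.comm v u hadj]
  have e2 : (c.2.1.erase v).erase u = (c.2.1.erase u).erase v := erase_right_comm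
  rw [e1, e2]

private theorem half_dldl (hF : Facts G cs) (hg : Apts cs pr p g)
    (φ : Cub V W → Cub V W → ZMod 2) {c c' : Cub V W} (h : OkF G cs FF pr c c') :
    dlF cs FF (dlF cs FF φ) c c' = 0 := by
  have hz : ∀ (x : Cub V W), Valid G cs pr x → ∀ ψ : Cub V W → ZMod 2,
      ∑ v ∈ x.2.1, ∑ b ∈ halfB FF v, ∑ u ∈ x.2.1.erase v, ∑ b' ∈ halfB FF u,
        ψ (halfF cs (halfF cs x v b) u b') = 0 := by
    intro x hx ψ
    have e : ∀ v ∈ x.2.1, ∑ b ∈ halfB FF v, ∑ u ∈ x.2.1.erase v, ∑ b' ∈ halfB FF u,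
        ψ (halfF cs (halfF cs x v b) u b') =
        ∑ u ∈ x.2.1.erase v, ∑ b ∈ halfB FF v, ∑ b' ∈ halfB FF u,
        ψ (halfF cs (halfF cs x v b) u b') := fun v _ => sum_comm
    rw [sum_congr rfl e]
    apply half_sym
    intro u hu v hv hne
    rw [sum_comm]
    refine sum_congr rfl fun b _ => sum_congr rfl fun b' _ => ?_
    rw [half_swap hF hg hx hu b' hv hne.symm b]
  rw [half_dl]
  have e1 : ∀ v ∈ c.2.1, ∑ b ∈ halfB FF v, dlF cs FF φ (halfF cs c v b) c' =
      ∑ b ∈ halfB FF v, ∑ u ∈ c.2.1.erase v, ∑ b' ∈ halfB FF u,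
        φ (halfF cs (halfF cs c v b) u b') c' +
        ∑ b ∈ halfB FF v, ∑ v' ∈ c'.2.1, ∑ b' ∈ halfB FF v',
          φ (halfF cs c v b) (halfF cs c' v' b') := by
    intro v _
    rw [← sum_add_distrib]
    refine sum_congr rfl fun b _ => ?_
    rw [half_dl, halfF_card]
  have e2 : ∀ v' ∈ c'.2.1, ∑ b' ∈ halfB FF v', dlF cs FF φ c (halfF cs c' v' b') =
      ∑ b' ∈ halfB FF v', ∑ v ∈ c.2.1, ∑ b ∈ halfB FF v, φ (halfF cs c v b) (halfF cs c' v' b') +
        ∑ b' ∈ halfB FF v', ∑ u ∈ c'.2.1.erase v', ∑ b ∈ halfB FF u,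
          φ c (halfF cs (halfF cs c' v' b') u b) := by
    intro v _
    rw [← sum_add_distrib]
    refine sum_congr rfl fun b _ => ?_
    rw [half_dl, halfF_card]
  rw [sum_congr rfl e1, sum_congr rfl e2, sum_add_distrib, sum_add_distrib,
    hz c h.1.1 (fun x => φ x c'), hz c' h.1.2.1 (fun x => φ c x)]
  have e3 : ∑ v' ∈ c'.2.1, ∑ b' ∈ halfB FF v', ∑ v ∈ c.2.1, ∑ b ∈ halfB FF v,
      φ (halfF cs c v b) (halfF cs c' v' b') =
      ∑ v ∈ c.2.1, ∑ b ∈ halfB FF v, ∑ v' ∈ c'.2.1, ∑ b' ∈ halfB FF v',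
      φ (halfF cs c v b) (halfF cs c' v' b') := by
    have e4 : ∀ v' ∈ c'.2.1, ∑ b' ∈ halfB FF v', ∑ v ∈ c.2.1, ∑ b ∈ halfB FF v,
        φ (halfF cs c v b) (halfF cs c' v' b') =
        ∑ v ∈ c.2.1, ∑ b ∈ halfB FF v, ∑ b' ∈ halfB FF v',
        φ (halfF cs c v b) (halfF cs c' v' b') := by
      intro v' _
      rw [sum_comm]
      exact sum_congr rfl fun v _ => sum_comm
    rw [sum_congr rfl e4, sum_comm]
    exact sum_congr rfl fun v _ => sum_comm
  rw [e3, zero_add, add_zero]
  exact half_self _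

/-! ### Finite supports -/

private theorem half_fin_add {φ ψ : Cub V W → Cub V W → ZMod 2} (h1 : FinSupp φ) (h2 : FinSupp ψ) :
    FinSupp fun x y => φ x y + ψ x y := by
  refine (Set.Finite.union h1 h2).subset ?_
  rintro q ⟨s, a, t, b, h⟩
  by_cases h3 : φ (q.1, s, a) (q.2, t, b) = 0
  · right
    refine ⟨s, a, t, b, ?_⟩
    change φ (q.1, s, a) (q.2, t, b) + ψ (q.1, s, a) (q.2, t, b) ≠ 0 at h
    rwa [h3, zero_add] at h
  · left
    exact ⟨s, a, t, b, h3⟩

private theorem half_fin_dl {φ : Cub V W → Cub V W → ZMod 2} (h : FinSupp φ) :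
    FinSupp (dlF cs FF φ) := by
  have h1 : ∀ v : V, {q : W × W | (q.1 * cs.simple v, q.2) ∈
      {q : W × W | ∃ s a t b, φ (q.1, s, a) (q.2, t, b) ≠ 0}}.Finite := by
    intro v
    refine h.preimage (f := fun q : W × W => (q.1 * cs.simple v, q.2)) ?_
    rintro ⟨a, b⟩ _ ⟨a', b'⟩ _ hab
    simp only [Prod.mk.injEq, mul_left_inj] at hab
    rw [hab.1, hab.2]
  have h2 : ∀ v : V, {q : W × W | (q.1, q.2 * cs.simple v) ∈
      {q : W × W | ∃ s a t b, φ (q.1, s, a) (q.2, t, b) ≠ 0}}.Finite := by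
    intro v
    refine h.preimage (f := fun q : W × W => (q.1, q.2 * cs.simple v)) ?_
    rintro ⟨a, b⟩ _ ⟨a', b'⟩ _ hab
    simp only [Prod.mk.injEq, mul_left_inj] at hab
    rw [hab.1, hab.2]
  refine ((Set.Finite.union h (Set.finite_iUnion h1)).union (Set.finite_iUnion h2)).subset ?_
  rintro q ⟨s, a, t, b, hne⟩
  by_contra hcon
  apply hne
  simp only [Set.mem_union, Set.mem_iUnion, Set.mem_ofPred_eq, not_or, not_exists, not_not] at hcon
  obtain ⟨⟨g1, g2⟩, g3⟩ := hcon
  unfold dlF fa fb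
  simp only [g1, g2, g3, add_zero, sum_const_zero, ite_self]

open Classical in
/-- half of a symmetric function -/
private noncomputable def half (F : Cub V W → Cub V W → ZMod 2) (c c' : Cub V W) : ZMod 2 :=
  if WellOrderingRel c c' then F c c' else 0

private theorem half_fin {F : Cub V W → Cub V W → ZMod 2} (h : FinSupp F) : FinSupp (half F) := by
  refine h.subset ?_
  rintro q ⟨s, a, t, b, hne⟩
  refine ⟨s, a, t, b, fun h0 => hne ?_⟩
  unfold half
  split_ifs
  · exact h0
  · rfl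

private theorem half_half {F : Cub V W → Cub V W → ZMod 2} {c c' : Cub V W} (hne : c ≠ c')
    (h : F c c' = F c' c) : half F c c' + half F c' c = F c c' := by
  classical
  unfold half
  rcases trichotomous_of (WellOrderingRel : Cub V W → Cub V W → Prop) c c' with h1 | h1 | h1
  · rw [if_pos h1, if_neg (asymm_of WellOrderingRel h1), add_zero]
  · exact absurd h1 hne
  · rw [if_pos h1, if_neg (asymm_of WellOrderingRel h1), zero_add, h]

private theorem half_congr (hF : Facts G cs) (hg : Apts cs pr p g) {m : ℕ}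
    {φ ψ : Cub V W → Cub V W → ZMod 2}
    (h : ∀ c c', OkF G cs FF pr c c' → c.2.1.card + c'.2.1.card = m → φ c c' = ψ c c')
    {c c' : Cub V W} (hok : OkF G cs FF pr c c') (hm : c.2.1.card + c'.2.1.card = m + 1) :
    dlF cs FF φ c c' = dlF cs FF ψ c c' := by
  rw [half_dl, half_dl]
  congr 1
  · refine sum_congr rfl fun v hv => sum_congr rfl fun b hb => ?_
    apply h _ _ (half_ok hF hg hok hv hb)
    rw [halfF_card, card_erase_of_mem hv]
    have := card_pos.2 ⟨v, hv⟩
    omega
  · refine sum_congr rfl fun v hv => sum_congr rfl fun b hb => ?_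
    apply h _ _ (okF_symm (half_ok hF hg (okF_symm hok) hv hb))
    rw [halfF_card, card_erase_of_mem hv]
    have := card_pos.2 ⟨v, hv⟩
    omega

theorem exists_halfF (hF : Facts G cs) (hg : Apts cs pr p g) (D : Cub V W → Cub V W → ZMod 2)
    (hD : ∀ c c', OkF G cs FF pr c c' → dlF cs FF D c c' = D c c' + D c' c)
    (h0 : D (b0 V W) (b0 V W) = 0) (hfin : FinSupp D) (m : ℕ) :
    ∃ d d' : Cub V W → Cub V W → ZMod 2, FinSupp d ∧ FinSupp d' ∧
      ∀ c c', OkF G cs FF pr c c' → c.2.1.card + c'.2.1.card = m →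
        D c c' = dlF cs FF d c c' + (d' c c' + d' c' c) := by
  induction m with
  | zero =>
    refine ⟨fun _ _ => 0, half D, ?_, half_fin hfin, ?_⟩
    · have : {q : W × W | ∃ (s : Finset V) (a : Finset (V × Bool)) (t : Finset V)
          (b : Finset (V × Bool)), (fun _ _ => 0 : Cub V W → Cub V W → ZMod 2) (q.1, s, a) (q.2, t, b) ≠ 0} = ∅ := by
        rw [Set.eq_empty_iff_forall_notMem]
        rintro q ⟨s, a, t, b, h⟩
        exact h rfl
      unfold FinSupp
      rw [this]
      exact Set.finite_empty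
    · intro c c' hok hm
      have h1 : c.2.1 = ∅ := card_eq_zero.1 (by omega)
      have h2 : c'.2.1 = ∅ := card_eq_zero.1 (by omega)
      have h3 : dlF cs FF (fun _ _ => (0 : ZMod 2)) c c' = 0 := by
        unfold dlF
        simp only [add_zero, sum_const_zero, ite_self]
      rw [h3, zero_add]
      have h4 := hD c c' hok
      unfold dlF at h4
      rw [h1, h2, sum_empty, sum_empty, add_zero] at h4
      have h5 : D c c' = D c' c := half_eq h4.symm
      by_cases hne : c = c'
      · subst hne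
        have h6 := okF_self hok
        rw [half_self, h6, h0]
      · exact (half_half hne h5).symm
  | succ m ih =>
    obtain ⟨d, d', hd, hd', hdd⟩ := ih
    refine ⟨d', half fun x y => D x y + dlF cs FF d' x y, hd',
      half_fin (half_fin_add hfin (half_fin_dl hd')), ?_⟩
    intro c c' hok hm
    have hne : c ≠ c' := by
      rintro rfl
      have h6 := okF_self hok
      rw [h6] at hm
      simp [b0] at hm
    have h1 := half_congr hF hg (φ := D)
      (ψ := fun c c' => dlF cs FF d c c' + (d' c c' + d' c' c)) hdd hok hm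
    rw [half_add, half_add (φ := fun c c' => d' c c') (ψ := fun c c' => d' c' c), half_tr cs d',
      half_dldl hF hg d hok, zero_add, hD c c' hok] at h1
    have h2 : D c c' + dlF cs FF d' c c' = D c' c + dlF cs FF d' c' c := by
      apply half_eq
      have h3 : D c c' + dlF cs FF d' c c' + (D c' c + dlF cs FF d' c' c) =
          (D c c' + D c' c) + (dlF cs FF d' c c' + dlF cs FF d' c' c) := by ring
      rw [h3, h1]
      exact half_self _
    rw [half_half (F := fun x y => D x y + dlF cs FF d' x y) hne h2]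
    have h4 := half_self (dlF cs FF d' c c')
    linear_combination -h4

end Pool.Agent.H65.AB

end

section

/-!
# Project AB: separation for powers and for subgroups

PROOF: `j (g' a w) = g a w` for `w` in `wf` (`wf_ind`, `Apts.mul`; `pr` and `pr'` agree: both count letters),
`j (zp p' a m) = zp p a (N • m)` (`zp_map`, `zp_congr'`, `zp_smul`), so `(w, m) ↦ (w, N • m)` maps the set of `p'` for
`E'` injectively into the set of `p` for `E = j (E')`; `Pos` and `Opp` are the same for `m` and `N • m`.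
-/

set_option autoImplicit false
set_option linter.unusedSectionVars false

open Finset

namespace Pool.Agent.H65.AB

open Pool.Agent.H65.RA Pool.Agent.H65.BU

theorem sepZ_pow {V W A B : Type} [Fintype V] [DecidableEq V] [Group W] [Group A] [Group B]
    {M : CoxeterMatrix V} {G : SimpleGraph V} {cs : CoxeterSystem M W} {FF : Finset V}
    (hM : RA G M) {p : V × Bool → A} {p' : V × Bool → B} {N : ℕ} (hN : 0 < N) (j : B →* A)
    (h1 : ∀ x, x.1 ∈ FF → j (p' x) = p x) (h2 : ∀ x, x.1 ∉ FF → j (p' x) = p x ^ N)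
    {pr pr' : W → V → ZMod 2} {g : (V → Bool) → W → A} {g' : (V → Bool) → W → B}
    (hg : Apts cs pr p g) (hg' : Apts cs pr' p' g') (h : SepZ G cs FF p g) :
    SepZ G cs FF p' g' := by
  classical
  -- the apartments
  have key : ∀ {w : W}, w ∈ wf cs FF → (∀ v, pr w v = pr' w v) ∧ ∀ a, j (g' a w) = g a w := by
    intro w hw
    refine wf_ind (C := fun w => (∀ v, pr w v = pr' w v) ∧ ∀ a, j (g' a w) = g a w) ?_ ?_ hw
    · exact ⟨fun v => by rw [hg.pr_one, hg'.pr_one], fun a => by rw [hg.one, hg'.one, map_one]⟩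
    · rintro w v _ hv ⟨ih1, ih2⟩
      refine ⟨fun u => by rw [hg.pr_mul, hg'.pr_mul, ih1], fun a => ?_⟩
      rw [hg.mul, hg'.mul, ih1 v]
      by_cases h0 : pr' w v = 0
      · rw [if_pos h0, if_pos h0, map_mul, ih2, h1 (v, a v) hv]
      · rw [if_neg h0, if_neg h0, map_mul, map_inv, ih2, h1 (v, a v) hv]
  have hz : ∀ (a : V → Bool) (m : V → ℕ), Pos G FF m → j (zp p' a m) = zp p a (N • m) := by
    intro a m hm
    rw [zp_map, zp_smul]
    refine zp_congr' fun z hz => ?_
    exact h2 (z, a z) (hm.1 z hz)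
  have hm0 : ∀ (m : V → ℕ) z, (N • m) z ≠ 0 ↔ m z ≠ 0 := by
    intro m z
    rw [Pi.smul_apply, smul_eq_mul, mul_ne_zero_iff]
    exact ⟨fun h => h.2, fun h => ⟨hN.ne', h⟩⟩
  have hPos : ∀ m : V → ℕ, Pos G FF m → Pos G FF (N • m) := fun m hm =>
    ⟨fun z hz => hm.1 z ((hm0 m z).1 hz),
      fun y z hy hz => hm.2 y z ((hm0 m y).1 hy) ((hm0 m z).1 hz)⟩
  intro E
  let f : (W × (V → ℕ)) × (W × (V → ℕ)) → (W × (V → ℕ)) × (W × (V → ℕ)) :=
    fun q => ((q.1.1, N • q.1.2), (q.2.1, N • q.2.2))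
  have hf : Function.Injective f := by
    have h3 : ∀ m m' : V → ℕ, N • m = N • m' → m = m' := by
      intro m m' h
      funext z
      have h4 := congrFun h z
      rw [Pi.smul_apply, Pi.smul_apply, smul_eq_mul, smul_eq_mul] at h4
      exact Nat.eq_of_mul_eq_mul_left hN h4
    rintro ⟨⟨w, m⟩, ⟨w', m'⟩⟩ ⟨⟨u, l⟩, ⟨u', l'⟩⟩ h
    simp only [f, Prod.mk.injEq] at h
    obtain ⟨⟨h5, h6⟩, h7, h8⟩ := h
    rw [h5, h7, h3 _ _ h6, h3 _ _ h8]
  refine ((h (E.image j)).preimage hf.injOn).subset ?_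
  rintro ⟨⟨w, m⟩, ⟨w', m'⟩⟩ ⟨hw, hw', hm, hm', a, b, hab, hE⟩
  simp only at hw hw' hm hm' hab hE
  refine ⟨hw, hw', hPos m hm, hPos m' hm', a, b, ?_, ?_⟩
  · exact ⟨hab.fst, fun z h3 h4 => hab.free z ((hm0 m z).1 h3) ((hm0 m' z).1 h4),
      fun z h3 => hab.left z ((hm0 m z).1 h3), fun z h3 => hab.right z ((hm0 m' z).1 h3)⟩
  · have h3 : (g a w * zp p a (N • m))⁻¹ * (g b w' * zp p b (N • m')) =
        j ((g' a w * zp p' a m)⁻¹ * (g' b w' * zp p' b m')) := by
      rw [map_mul, map_inv, map_mul, map_mul, (key hw).2, (key hw').2, hz a m hm, hz b m' hm']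
    show (g a w * zp p a (N • m))⁻¹ * (g b w' * zp p b (N • m')) ∈ E.image j
    rw [h3]
    exact mem_image_of_mem _ hE

end Pool.Agent.H65.AB

end

section

/-!
# Project AB: the value of the alternating function
-/

set_option autoImplicit false
set_option linter.unusedSectionVars false

open Finset

namespace Pool.Agent.H65.AB

open Pool.Agent.H65.RA Pool.Agent.H65.BU Pool.Agent.H85.VK

variable {V W A : Type} [Fintype V] [DecidableEq V] [Group W] [Group A] {M : CoxeterMatrix V}
  {G : SimpleGraph V} {cs : CoxeterSystem M W} {p : V × Bool → A} {pr : W → V → ZMod 2}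
  {g : (V → Bool) → W → A} {e : V → ℕ} {x : Finset V → ZMod 2} {k : ℕ} {FF : Finset V}

theorem KKF_AA (hg : Apts cs pr p g) (ν : V × Bool → ℕ) (s t : Finset V) :
    KKF G cs FF pr e x k (AA ν) s t = Ps G e x k (eP ν) s t := by
  classical
  unfold KKF
  rw [finsum_eq_single _ ((1, 1) : W × W)]
  · beta_reduce
    rw [if_pos ⟨⟨(wf cs FF).one_mem, (wf cs FF).one_mem⟩, fun v _ => hg.pr_one v,
      fun v _ => hg.pr_one v⟩, FH_one, FH_one]
    unfold Ps
    refine sum_congr rfl fun S _ => sum_congr rfl fun A _ => ?_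
    congr 1
    unfold AA
    exact if_pos ⟨rfl, rfl⟩
  · rintro ⟨w, w'⟩ hne
    have h1 : ¬ (w = 1 ∧ w' = 1) := fun h => hne (by rw [h.1, h.2])
    split_ifs with h2
    · unfold Ps
      refine sum_eq_zero fun S _ => sum_eq_zero fun A _ => ?_
      have h3 : ∀ a b, AA ν ((w, w').1, s, a) ((w, w').2, t, b) = 0 := fun a b => if_neg h1
      beta_reduce
      rw [h3, mul_zero]
    · rfl

end Pool.Agent.H65.AB

end

section

/-!
# Project AB: the intersection numbers summed over all powers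

PROOF of `exists_hhZ` (see BU/HH for the signs `sg a`): `φ c c' := if OkF c c' then
∑ᶠ q : (V → ℕ) × (V → ℕ), if supp q.1 ⊆ s \ FF ∧ supp q.2 ⊆ t \ FF then
H (g (sg a) w * zp p (sg a) q.1) (sgn s (sg a)) (g (sg b) w' * zp p (sg b) q.2) (sgn t (sg b)) else 0`. The sums are
finite by `Inter.fin` and `hsep` (the signs satisfy `Opp`: the letters of `FH` have opposite signs as `a`, `b` are
disjoint; a letter `z ∈ s` which does not commute with `w` is not in `FH w s`, so its sign is `true`).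
Relation: sum `Inter.rel` over all `q`. Faces: `v ∈ FF`: as in BU (`fa_eq`, `fb_eq`; `p (v, b)` commutes with
`zp p (sg a) m` as `s` is a clique). `z ∉ FF`: the sum over `q` of `H (h, s - z) + H (h e_z, s - z)` is the sum over the `q`
with `q.1 z = 0` (telescope; `q ↦ q + single z 1` is a bijection to the `q` with `q.1 z ≠ 0`), i.e. the term of
`fa cs c z` (for `FH_a`, second case, the sign of `z` is forgotten: it does not occur any more, `apt_indep`, `zp_congr`).
-/

set_option autoImplicit false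
set_option linter.unusedSectionVars false

open Finset

namespace Pool.Agent.H65.AB

open Pool.Agent.H65.RA Pool.Agent.H65.RM Pool.Agent.H85.VK Pool.Agent.H65.BU

variable {V W A : Type} [Fintype V] [DecidableEq V] [Group W] [Group A] {M : CoxeterMatrix V}
  {G : SimpleGraph V} {cs : CoxeterSystem M W} {p : V × Bool → A} {pr : W → V → ZMod 2}
  {g : (V → Bool) → W → A} {FF : Finset V}

/-- the signs of a set of signed letters -/
private noncomputable def sg (a : Finset (V × Bool)) (v : V) : Bool := decide ((v, false) ∉ a)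

private theorem sg_sgn {X : Finset V} {α : V → Bool} {v : V} (hv : v ∈ X) :
    sg (sgn X α) v = α v := by
  unfold sg
  by_cases h : α v = false
  · rw [h, decide_eq_false_iff_not, not_not, mem_sgn]
    exact ⟨hv, h.symm⟩
  · rw [Bool.not_eq_false] at h
    rw [h, decide_eq_true_eq, mem_sgn]
    rintro ⟨-, h'⟩
    simp only at h'
    rw [h] at h'
    exact absurd h' (by simp)

private theorem valid_sg {c : Cub V W} (h : Valid G cs pr c) :
    c.2.2 = sgn (FH cs c.1 c.2.1) (sg c.2.2) := by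
  obtain ⟨-, -, α, hα⟩ := h
  conv_lhs => rw [hα]
  apply sgn_congr
  intro v hv
  rw [hα, sg_sgn hv]

private theorem fst_mem {c : Cub V W} (h : Valid G cs pr c) {q : V × Bool} (hq : q ∈ c.2.2) :
    q.1 ∈ FH cs c.1 c.2.1 := by
  rw [valid_sg h, mem_sgn] at hq
  exact hq.1

private theorem mem_of_FH {c : Cub V W} (h : Valid G cs pr c) {v : V}
    (hv : v ∈ FH cs c.1 c.2.1) : (v, sg c.2.2 v) ∈ c.2.2 := by
  have h1 := valid_sg h
  rw [h1, mem_sgn]
  refine ⟨hv, ?_⟩
  rw [← h1]

private theorem fa_sg {c : Cub V W} (h : Valid G cs pr c) {v : V} (hv : v ∈ c.2.1) {u : V}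
    (hu : u ≠ v) : sg (fa cs c v).2.2 u = sg c.2.2 u := by
  rcases FH_a (cs := cs) c.1 hv with h1 | ⟨h1, -, h2, h3⟩
  · have h4 : (fa cs c v).2.2 = c.2.2 := by
      show res (FH cs c.1 (c.2.1.erase v)) c.2.2 = c.2.2
      rw [h1]
      unfold res
      exact filter_true_of_mem fun q hq => fst_mem h hq
    rw [h4]
  · unfold sg
    congr 1
    rw [eq_iff_iff, not_iff_not]
    show (u, false) ∈ res (FH cs c.1 (c.2.1.erase v)) c.2.2 ↔ _
    rw [h1]
    unfold res
    rw [mem_filter]
    constructor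
    · exact fun h' => h'.1
    · exact fun h' => ⟨h', mem_erase.2 ⟨hu, fst_mem h h'⟩⟩

private theorem fa_eq (hF : Facts G cs) (hg : Apts cs pr p g) {c : Cub V W}
    (h : Valid G cs pr c) {v : V} (hv : v ∈ c.2.1) :
    g (sg (fa cs c v).2.2) (fa cs c v).1 = g (sg c.2.2) c.1 ∧
      sgn (fa cs c v).2.1 (sg (fa cs c v).2.2) = (sgn c.2.1 (sg c.2.2)).erase (v, sg c.2.2 v) := by
  rw [erase_sgn]
  refine ⟨?_, sgn_congr fun u hu => fa_sg h hv (mem_erase.1 hu).1⟩
  rcases FH_a (cs := cs) c.1 hv with h1 | ⟨h1, -, h2, h3⟩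
  · have h4 : (fa cs c v).2.2 = c.2.2 := by
      show res (FH cs c.1 (c.2.1.erase v)) c.2.2 = c.2.2
      rw [h1]
      unfold res
      exact filter_true_of_mem fun q hq => fst_mem h hq
    rw [h4]
    rfl
  · exact apt_indep hF hg (fun u hu => fa_sg h hv hu) h3 h2

private theorem fb_eq (hF : Facts G cs) (hg : Apts cs pr p g) {c : Cub V W}
    (h : Valid G cs pr c) {v : V} (hv : v ∈ c.2.1) :
    g (sg (fb cs c v).2.2) (fb cs c v).1 = g (sg c.2.2) c.1 * p (v, sg c.2.2 v) ∧
      sgn (fb cs c v).2.1 (sg (fb cs c v).2.2) = (sgn c.2.1 (sg c.2.2)).erase (v, sg c.2.2 v) := by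
  rw [erase_sgn, res_fb hF hg h hv]
  refine ⟨?_, rfl⟩
  show g (sg c.2.2) (c.1 * cs.simple v) = _
  rw [hg.mul, if_pos (h.2.1 v hv)]

/-! ### The telescope -/

private theorem telescope {X : Type} (v : V) (f : (V → ℕ) × X → ZMod 2)
    (hf : (Function.support f).Finite) :
    ∑ᶠ z, f z + ∑ᶠ z : (V → ℕ) × X, f (z.1 + Pi.single v 1, z.2) =
      ∑ᶠ z : (V → ℕ) × X, if z.1 v = 0 then f z else 0 := by
  classical
  let τ : (V → ℕ) × X → (V → ℕ) × X := fun z => (z.1 + Pi.single v 1, z.2)
  have hτ : Function.Injective τ := by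
    intro z z' h
    have h1 : z.1 + Pi.single v 1 = z'.1 + Pi.single v 1 := congrArg Prod.fst h
    have h2 : z.2 = z'.2 := congrArg (fun x => x.2) h
    exact Prod.ext (add_right_cancel h1) h2
  have hr : ∀ z, z ∈ Set.range τ ↔ z.1 v ≠ 0 := by
    intro z
    constructor
    · rintro ⟨z', rfl⟩
      show z'.1 v + (Pi.single v 1 : V → ℕ) v ≠ 0
      rw [Pi.single_eq_same]
      exact Nat.succ_ne_zero _
    · intro h
      refine ⟨(fun y => if y = v then z.1 v - 1 else z.1 y, z.2), Prod.ext (funext fun y => ?_) rfl⟩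
      show (if y = v then z.1 v - 1 else z.1 y) + (Pi.single v 1 : V → ℕ) y = z.1 y
      by_cases hy : y = v
      · subst hy
        rw [if_pos rfl, Pi.single_eq_same]
        omega
      · rw [if_neg hy, Pi.single_eq_of_ne hy, add_zero]
  have h1 : ∑ᶠ z : (V → ℕ) × X, f (z.1 + Pi.single v 1, z.2) =
      ∑ᶠ z : (V → ℕ) × X, if z.1 v ≠ 0 then f z else 0 := by
    have h2 := finsum_mem_range (f := f) hτ
    rw [show (∑ᶠ z : (V → ℕ) × X, f (z.1 + Pi.single v 1, z.2)) = ∑ᶠ z, f (τ z) from rfl, ← h2]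
    rw [finsum_mem_def]
    refine finsum_congr fun z => ?_
    by_cases hz : z.1 v ≠ 0
    · rw [if_pos hz, Set.indicator_of_mem ((hr z).2 hz)]
    · rw [if_neg hz, Set.indicator_of_notMem fun h => hz ((hr z).1 h)]
  have h2 : ∑ᶠ z, f z = (∑ᶠ z : (V → ℕ) × X, if z.1 v = 0 then f z else 0) +
      ∑ᶠ z : (V → ℕ) × X, if z.1 v ≠ 0 then f z else 0 := by
    rw [← finsum_add_distrib]
    · refine finsum_congr fun z => ?_
      by_cases hz : z.1 v = 0
      · rw [if_pos hz, if_neg (not_not.2 hz), add_zero]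
      · rw [if_neg hz, if_pos hz, zero_add]
    · refine hf.subset fun z hz => ?_
      rw [Function.mem_support] at hz ⊢
      intro h
      apply hz
      rw [h, ite_self]
    · refine hf.subset fun z hz => ?_
      rw [Function.mem_support] at hz ⊢
      intro h
      apply hz
      rw [h, ite_self]
  rw [h1, h2, add_assoc, CharTwo.add_self_eq_zero, add_zero]

/-! ### One slot -/

/-- the exponents of a cube -/
private def PP (FF s : Finset V) (m : V → ℕ) : Prop := ∀ y, m y ≠ 0 → y ∈ s \ FF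

private instance (FF s : Finset V) (m : V → ℕ) : Decidable (PP FF s m) := by
  unfold PP
  infer_instance

/-- the elements of a cube -/
private noncomputable def el (p : V × Bool → A) (g : (V → Bool) → W → A) (c : Cub V W) (m : V → ℕ) :
    A := g (sg c.2.2) c.1 * zp p (sg c.2.2) m

/-- the signed directions of a cube -/
private noncomputable def sd (c : Cub V W) : Finset (V × Bool) := sgn c.2.1 (sg c.2.2)

private noncomputable def s1 {X : Type} (p : V × Bool → A) (g : (V → Bool) → W → A) (FF : Finset V)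
    (K : A → Finset (V × Bool) → X → ZMod 2) (c : Cub V W) : ZMod 2 :=
  ∑ᶠ z : (V → ℕ) × X, if PP FF c.2.1 z.1 then K (el p g c z.1) (sd c) z.2 else 0

private theorem el_fa (hF : Facts G cs) (hg : Apts cs pr p g) {c : Cub V W}
    (h : Valid G cs pr c) {v : V} (hv : v ∈ c.2.1) {m : V → ℕ} (hm : m v = 0) :
    el p g (fa cs c v) m = el p g c m := by
  unfold el
  rw [(fa_eq hF hg h hv).1]
  congr 1
  refine zp_congr p fun z hz => fa_sg h hv ?_
  rintro rfl
  exact hz hm

private theorem sd_fa (hF : Facts G cs) (hg : Apts cs pr p g) {c : Cub V W}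
    (h : Valid G cs pr c) {v : V} (hv : v ∈ c.2.1) :
    sd (fa cs c v) = (sd c).erase (v, sg c.2.2 v) := (fa_eq hF hg h hv).2

private theorem el_add (hp : ∀ x y, (oct G).Adj x y → p x * p y = p y * p x) {c : Cub V W}
    (h : Valid G cs pr c) {v : V} (hv : v ∈ c.2.1) {m : V → ℕ} (hm : PP FF c.2.1 m) :
    el p g c (m + Pi.single v 1) = el p g c m * p (v, sg c.2.2 v) := by
  unfold el
  rw [zp_add, mul_assoc]
  intro y hy hyv
  apply hp
  exact h.1 (mem_sdiff.1 (hm y hy)).1 hv hyv

private theorem el_fb (hF : Facts G cs) (hg : Apts cs pr p g)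
    (hp : ∀ x y, (oct G).Adj x y → p x * p y = p y * p x) {c : Cub V W}
    (h : Valid G cs pr c) {v : V} (hv : v ∈ c.2.1) (hvF : v ∈ FF) {m : V → ℕ}
    (hm : PP FF c.2.1 m) : el p g (fb cs c v) m = el p g c m * p (v, sg c.2.2 v) := by
  unfold el
  rw [(fb_eq hF hg h hv).1, res_fb hF hg h hv, mul_assoc, mul_assoc]
  congr 1
  apply zp_comm
  intro z hz
  apply hp
  have h1 := mem_sdiff.1 (hm z hz)
  refine h.1 hv h1.1 fun h2 => h1.2 ?_
  have h3 : v = z := h2
  rw [← h3]
  exact hvF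

private theorem s1_face (hF : Facts G cs) (hg : Apts cs pr p g)
    (hp : ∀ x y, (oct G).Adj x y → p x * p y = p y * p x) {X : Type}
    (K : A → Finset (V × Bool) → X → ZMod 2) {c : Cub V W} (h : Valid G cs pr c) {v : V}
    (hv : v ∈ c.2.1) (hfin : (Function.support fun z : (V → ℕ) × X => if PP FF c.2.1 z.1 then
      K (el p g c z.1) ((sd c).erase (v, sg c.2.2 v)) z.2 else 0).Finite) :
    (∑ᶠ z : (V → ℕ) × X, if PP FF c.2.1 z.1 then
      K (el p g c z.1) ((sd c).erase (v, sg c.2.2 v)) z.2 else 0) +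
      (∑ᶠ z : (V → ℕ) × X, if PP FF c.2.1 z.1 then
      K (el p g c z.1 * p (v, sg c.2.2 v)) ((sd c).erase (v, sg c.2.2 v)) z.2 else 0) =
      s1 p g FF K (fa cs c v) + if v ∈ FF then s1 p g FF K (fb cs c v) else 0 := by
  by_cases hvF : v ∈ FF
  · rw [if_pos hvF]
    have hPP : ∀ m, PP FF (c.2.1.erase v) m ↔ PP FF c.2.1 m := by
      intro m
      refine forall_congr' fun y => imp_congr_right fun _ => ?_
      rw [mem_sdiff, mem_sdiff, mem_erase]
      constructor
      · exact fun h1 => ⟨h1.1.2, h1.2⟩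
      · exact fun h1 => ⟨⟨fun h2 => h1.2 (h2 ▸ hvF), h1.1⟩, h1.2⟩
    have h0 : ∀ m, PP FF c.2.1 m → m v = 0 := by
      intro m hm
      by_contra h1
      exact (mem_sdiff.1 (hm v h1)).2 hvF
    congr 1
    · unfold s1
      refine finsum_congr fun z => ?_
      by_cases hz : PP FF c.2.1 z.1
      · rw [if_pos hz, if_pos (show PP FF (fa cs c v).2.1 z.1 from (hPP _).2 hz),
          el_fa hF hg h hv (h0 _ hz), sd_fa hF hg h hv]
      · rw [if_neg hz, if_neg (show ¬ PP FF (fa cs c v).2.1 z.1 from fun h1 => hz ((hPP _).1 h1))]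
    · unfold s1
      refine finsum_congr fun z => ?_
      by_cases hz : PP FF c.2.1 z.1
      · rw [if_pos hz, if_pos (show PP FF (fb cs c v).2.1 z.1 from (hPP _).2 hz),
          el_fb hF hg hp h hv hvF hz]
        rw [show sd (fb cs c v) = (sd c).erase (v, sg c.2.2 v) from (fb_eq hF hg h hv).2]
      · rw [if_neg hz, if_neg (show ¬ PP FF (fb cs c v).2.1 z.1 from fun h1 => hz ((hPP _).1 h1))]
  · rw [if_neg hvF, add_zero]
    have hvs : v ∈ c.2.1 \ FF := mem_sdiff.2 ⟨hv, hvF⟩
    have h1 := telescope v _ hfin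
    have hPP : ∀ m : V → ℕ, PP FF c.2.1 (m + Pi.single v 1) ↔ PP FF c.2.1 m := by
      intro m
      refine forall_congr' fun y => ?_
      by_cases hy : y = v
      · subst hy
        exact ⟨fun _ _ => hvs, fun _ _ => hvs⟩
      · rw [Pi.add_apply, Pi.single_eq_of_ne hy, add_zero]
    have h2 : (∑ᶠ z : (V → ℕ) × X, if PP FF c.2.1 z.1 then
        K (el p g c z.1 * p (v, sg c.2.2 v)) ((sd c).erase (v, sg c.2.2 v)) z.2 else 0) =
        ∑ᶠ z : (V → ℕ) × X, if PP FF c.2.1 (z.1 + Pi.single v 1) then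
          K (el p g c (z.1 + Pi.single v 1)) ((sd c).erase (v, sg c.2.2 v)) z.2 else 0 := by
      refine finsum_congr fun z => ?_
      by_cases hz : PP FF c.2.1 z.1
      · rw [if_pos hz, if_pos ((hPP _).2 hz), el_add hp h hv hz]
      · rw [if_neg hz, if_neg fun h3 => hz ((hPP _).1 h3)]
    rw [h2]
    refine h1.trans ?_
    unfold s1
    refine finsum_congr fun z => ?_
    have hPP' : PP FF (fa cs c v).2.1 z.1 ↔ PP FF c.2.1 z.1 ∧ z.1 v = 0 := by
      show PP FF (c.2.1.erase v) z.1 ↔ _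
      constructor
      · intro h3
        refine ⟨fun y hy => ?_, ?_⟩
        · have h4 := mem_sdiff.1 (h3 y hy)
          exact mem_sdiff.2 ⟨(mem_erase.1 h4.1).2, h4.2⟩
        · by_contra h4
          exact (mem_erase.1 (mem_sdiff.1 (h3 v h4)).1).1 rfl
      · rintro ⟨h3, h4⟩ y hy
        have h5 := mem_sdiff.1 (h3 y hy)
        refine mem_sdiff.2 ⟨mem_erase.2 ⟨?_, h5.1⟩, h5.2⟩
        rintro rfl
        exact hy h4
    by_cases h3 : z.1 v = 0
    · rw [if_pos h3]
      by_cases h4 : PP FF c.2.1 z.1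
      · rw [if_pos h4, if_pos (hPP'.2 ⟨h4, h3⟩), el_fa hF hg h hv h3, sd_fa hF hg h hv]
      · rw [if_neg h4, if_neg fun h5 => h4 (hPP'.1 h5).1]
    · rw [if_neg h3, if_neg fun h5 => h3 (hPP'.1 h5).2]

/-! ### Two slots -/

/-- the second slot fixed -/
private noncomputable def KR (p : V × Bool → A) (g : (V → Bool) → W → A) (FF : Finset V)
    (H : A → Finset (V × Bool) → A → Finset (V × Bool) → ZMod 2) (c' : Cub V W) (h : A)
    (S : Finset (V × Bool)) (m : V → ℕ) : ZMod 2 :=
  if PP FF c'.2.1 m then H h S (el p g c' m) (sd c') else 0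

open Classical in
/-- the intersection numbers on cubes -/
private noncomputable def hz (G : SimpleGraph V) (cs : CoxeterSystem M W) (FF : Finset V)
    (pr : W → V → ZMod 2) (p : V × Bool → A) (g : (V → Bool) → W → A)
    (H : A → Finset (V × Bool) → A → Finset (V × Bool) → ZMod 2) (c c' : Cub V W) : ZMod 2 :=
  if OkF G cs FF pr c c' then s1 p g FF (KR p g FF H c') c else 0

/-- the other order -/
private theorem s1_swap (H : A → Finset (V × Bool) → A → Finset (V × Bool) → ZMod 2)
    (c c' : Cub V W) :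
    s1 p g FF (KR p g FF H c') c = s1 p g FF (KR p g FF (fun h S h' T => H h' T h S) c) c' := by
  unfold s1
  rw [← finsum_comp_equiv (Equiv.prodComm (V → ℕ) (V → ℕ))]
  refine finsum_congr fun z => ?_
  unfold KR
  show (if PP FF c.2.1 z.2 then (if PP FF c'.2.1 z.1 then _ else 0) else 0) =
    (if PP FF c'.2.1 z.1 then (if PP FF c.2.1 z.2 then _ else 0) else 0)
  by_cases h1 : PP FF c.2.1 z.2
  · by_cases h2 : PP FF c'.2.1 z.1
    · rw [if_pos h1, if_pos h2, if_pos h2, if_pos h1]
      rfl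
    · rw [if_pos h1, if_neg h2, if_neg h2]
  · rw [if_neg h1]
    by_cases h2 : PP FF c'.2.1 z.1
    · rw [if_pos h2, if_neg h1]
    · rw [if_neg h2]

/-- the positions of two cubes satisfy `Opp` -/
private theorem opp (hM : RA G M) {c c' : Cub V W} (h : OkF G cs FF pr c c') {m m' : V → ℕ}
    (hm : PP FF c.2.1 m) (hm' : PP FF c'.2.1 m') :
    Opp cs c.1 c'.1 m m' (sg c.2.2) (sg c'.2.2) := by
  have hdis : ∀ z, z ∈ FH cs c.1 c.2.1 → z ∈ FH cs c'.1 c'.2.1 → sg c.2.2 z ≠ sg c'.2.2 z := by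
    intro z hz hz' heq
    have h1 := mem_of_FH h.1.1 hz
    have h2 := mem_of_FH h.1.2.1 hz'
    rw [heq] at h1
    exact disjoint_left.1 h.1.2.2 h1 h2
  have hsign : ∀ {c : Cub V W} {m : V → ℕ}, Valid G cs pr c → c.1 ∈ wf cs FF → PP FF c.2.1 m →
      ∀ z, m z ≠ 0 → ¬ (cs.simple z * c.1 = c.1 * cs.simple z) → sg c.2.2 z = true := by
    intro c m hv hw hm z hz hc
    unfold sg
    rw [decide_eq_true_eq]
    intro h1
    have h2 := fst_mem hv h1
    rw [mem_FH] at h2
    rcases h2 with h2 | h2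
    · exact (mem_sdiff.1 (hm z hz)).2 (fst_wf hM hw h2)
    · exact hc h2.2
  refine ⟨fun v hv hv' => hdis v ?_ ?_, fun z hz hz' hc hc' => hdis z ?_ ?_,
    hsign h.1.1 h.2.1 hm, hsign h.1.2.1 h.2.2 hm'⟩
  · exact mem_FH.2 (Or.inl hv)
  · exact mem_FH.2 (Or.inl hv')
  · exact mem_FH.2 (Or.inr ⟨(mem_sdiff.1 (hm z hz)).1, hc⟩)
  · exact mem_FH.2 (Or.inr ⟨(mem_sdiff.1 (hm' z hz')).1, hc'⟩)

private theorem pos_of_PP {c : Cub V W} (h : Valid G cs pr c) {m : V → ℕ} (hm : PP FF c.2.1 m) :
    Pos G FF m :=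
  ⟨fun z hz => (mem_sdiff.1 (hm z hz)).2, fun y z hy hz hyz =>
    h.1 (mem_sdiff.1 (hm y hy)).1 (mem_sdiff.1 (hm z hz)).1 hyz⟩

private theorem fin_pos (hM : RA G M) (hsep : SepZ G cs FF p g) {c c' : Cub V W}
    (h : OkF G cs FF pr c c') (E : Finset A) :
    {z : (V → ℕ) × (V → ℕ) | PP FF c.2.1 z.1 ∧ PP FF c'.2.1 z.2 ∧
      (el p g c z.1)⁻¹ * el p g c' z.2 ∈ E}.Finite := by
  refine ((hsep E).preimage (f := fun z : (V → ℕ) × (V → ℕ) => ((c.1, z.1), (c'.1, z.2)))
    ?_).subset ?_
  · intro z _ z' _ h1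
    have h2 : z.1 = z'.1 := congrArg (fun x => x.1.2) h1
    have h3 : z.2 = z'.2 := congrArg (fun x => x.2.2) h1
    exact Prod.ext h2 h3
  · rintro z ⟨h1, h2, h3⟩
    exact ⟨h.2.1, h.2.2, pos_of_PP h.1.1 h1, pos_of_PP h.1.2.1 h2, sg c.2.2, sg c'.2.2,
      opp hM h h1 h2, h3⟩

/-- the terms -/
private noncomputable def fk (p : V × Bool → A) (g : (V → Bool) → W → A) (FF : Finset V)
    (H : A → Finset (V × Bool) → A → Finset (V × Bool) → ZMod 2) (c c' : Cub V W)
    (S T : Finset (V × Bool)) (u u' : A) (z : (V → ℕ) × (V → ℕ)) : ZMod 2 :=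
  if PP FF c.2.1 z.1 ∧ PP FF c'.2.1 z.2 then H (el p g c z.1 * u) S (el p g c' z.2 * u') T else 0

private theorem fk_fin (hM : RA G M) (hsep : SepZ G cs FF p g) {c c' : Cub V W}
    (h : OkF G cs FF pr c c') {H : A → Finset (V × Bool) → A → Finset (V × Bool) → ZMod 2}
    {E : Finset A} {S T : Finset (V × Bool)} (hE : ∀ x y : A, H x S y T ≠ 0 → x⁻¹ * y ∈ E)
    (u u' : A) : (Function.support (fk p g FF H c c' S T u u')).Finite := by
  classical
  refine (fin_pos hM hsep h (E.image fun y => u * y * u'⁻¹)).subset fun z hz => ?_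
  rw [Function.mem_support] at hz
  unfold fk at hz
  by_cases h1 : PP FF c.2.1 z.1 ∧ PP FF c'.2.1 z.2
  · rw [if_pos h1] at hz
    refine ⟨h1.1, h1.2, mem_image.2 ⟨_, hE _ _ hz, ?_⟩⟩
    group
  · rw [if_neg h1] at hz
    exact absurd rfl hz

private theorem ite_and' {x y : Prop} [Decidable x] [Decidable y] (k : ZMod 2) :
    (if x then (if y then k else 0) else 0) = if x ∧ y then k else 0 := by
  by_cases h1 : x
  · by_cases h2 : y
    · rw [if_pos h1, if_pos h2, if_pos ⟨h1, h2⟩]
    · rw [if_pos h1, if_neg h2, if_neg fun h => h2 h.2]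
  · rw [if_neg h1, if_neg fun h => h1 h.1]

/-- the faces of the first cube -/
private theorem face1 (hM : RA G M) (hF : Facts G cs) (hg : Apts cs pr p g)
    (hp : ∀ x y, (oct G).Adj x y → p x * p y = p y * p x) (hsep : SepZ G cs FF p g)
    {H : A → Finset (V × Bool) → A → Finset (V × Bool) → ZMod 2} {E : Finset A}
    (hE : ∀ (x : A) (S : Finset (V × Bool)) (y : A) (T : Finset (V × Bool)),
      (oct G).IsClique (S : Set (V × Bool)) → (oct G).IsClique (T : Set (V × Bool)) →
        H x S y T ≠ 0 → x⁻¹ * y ∈ E) {c c' : Cub V W} (h : OkF G cs FF pr c c') {v : V}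
    (hv : v ∈ c.2.1) :
    (∑ᶠ z, fk p g FF H c c' ((sd c).erase (v, sg c.2.2 v)) (sd c') 1 1 z) +
      (∑ᶠ z, fk p g FF H c c' ((sd c).erase (v, sg c.2.2 v)) (sd c') (p (v, sg c.2.2 v)) 1 z) =
      s1 p g FF (KR p g FF H c') (fa cs c v) +
        if v ∈ FF then s1 p g FF (KR p g FF H c') (fb cs c v) else 0 := by
  have hcl : (oct G).IsClique ((sd c).erase (v, sg c.2.2 v) : Set (V × Bool)) := by
    intro x hx y hy hxy
    rw [mem_coe, mem_erase] at hx hy
    exact clique_sgn (sg c.2.2) h.1.1.1 hx.2 hy.2 hxy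
  have hcl' : (oct G).IsClique (sd c' : Set (V × Bool)) := clique_sgn (sg c'.2.2) h.1.2.1.1
  have e1 : ∀ z : (V → ℕ) × (V → ℕ), (if PP FF c.2.1 z.1 then
      KR p g FF H c' (el p g c z.1) ((sd c).erase (v, sg c.2.2 v)) z.2 else 0) =
      fk p g FF H c c' ((sd c).erase (v, sg c.2.2 v)) (sd c') 1 1 z := by
    intro z
    unfold KR fk
    rw [ite_and', mul_one, mul_one]
  have e2 : ∀ z : (V → ℕ) × (V → ℕ), (if PP FF c.2.1 z.1 then
      KR p g FF H c' (el p g c z.1 * p (v, sg c.2.2 v)) ((sd c).erase (v, sg c.2.2 v)) z.2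
        else 0) =
      fk p g FF H c c' ((sd c).erase (v, sg c.2.2 v)) (sd c') (p (v, sg c.2.2 v)) 1 z := by
    intro z
    unfold KR fk
    rw [ite_and', mul_one]
  have h1 := s1_face (FF := FF) hF hg hp (KR p g FF H c') h.1.1 hv (by
    simp only [e1]
    exact fk_fin hM hsep h (fun x y => hE x _ y _ hcl hcl') 1 1)
  rw [← h1]
  simp only [e1, e2]

/-- the intersection numbers of the cubes, summed over the powers -/
theorem exists_hhZ (hM : RA G M) (hF : Facts G cs) (hg : Apts cs pr p g)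
    (hp : ∀ x y, (oct G).Adj x y → p x * p y = p y * p x) (hsep : SepZ G cs FF p g) {n : ℕ}
    {H : A → Finset (V × Bool) → A → Finset (V × Bool) → ZMod 2} (hH : Inter (oct G) p n H) :
    ∃ φ : Cub V W → Cub V W → ZMod 2,
      (∀ c c', OkF G cs FF pr c c' → dlF cs FF φ c c' = φ c c' + φ c' c) ∧
      φ (b0 V W) (b0 V W) = 1 ∧
      (∀ c c', n < c.2.1.card + c'.2.1.card → φ c c' = 0) ∧ FinSupp φ := by
  classical
  obtain ⟨E, hE⟩ := hH.fin
  let H' : A → Finset (V × Bool) → A → Finset (V × Bool) → ZMod 2 := fun h S h' T => H h' T h S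
  have hE' : ∀ (x : A) (S : Finset (V × Bool)) (y : A) (T : Finset (V × Bool)),
      (oct G).IsClique (S : Set (V × Bool)) → (oct G).IsClique (T : Set (V × Bool)) →
        H' x S y T ≠ 0 → x⁻¹ * y ∈ E.image fun y => y⁻¹ := by
    intro x S y T hS hT h
    refine mem_image.2 ⟨_, hE y T x S hT hS h, ?_⟩
    group
  -- the terms in the other order
  have hsw : ∀ (c c' : Cub V W) (S T : Finset (V × Bool)) (u u' : A),
      ∑ᶠ z, fk p g FF H' c' c T S u' u z = ∑ᶠ z, fk p g FF H c c' S T u u' z := by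
    intro c c' S T u u'
    rw [← finsum_comp_equiv (Equiv.prodComm (V → ℕ) (V → ℕ))]
    refine finsum_congr fun z => ?_
    unfold fk
    show (if PP FF c'.2.1 z.2 ∧ PP FF c.2.1 z.1 then _ else 0) = _
    by_cases h1 : PP FF c.2.1 z.1 ∧ PP FF c'.2.1 z.2
    · rw [if_pos h1, if_pos h1.symm]
      rfl
    · rw [if_neg h1, if_neg fun h2 => h1 h2.symm]
  have hs1 : ∀ c c' : Cub V W, s1 p g FF (KR p g FF H c') c =
      ∑ᶠ z, fk p g FF H c c' (sd c) (sd c') 1 1 z := by
    intro c c'
    unfold s1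
    refine finsum_congr fun z => ?_
    unfold KR fk
    rw [ite_and', mul_one, mul_one]
  refine ⟨hz G cs FF pr p g H, fun c c' h => ?_, ?_, fun c c' h => ?_, ?_⟩
  · have hh := okF_symm h
    have hcl : (oct G).IsClique (sd c : Set (V × Bool)) := clique_sgn (sg c.2.2) h.1.1.1
    have hcl' : (oct G).IsClique (sd c' : Set (V × Bool)) := clique_sgn (sg c'.2.2) h.1.2.1.1
    have hce : ∀ x, (oct G).IsClique ((sd c).erase x : Set (V × Bool)) := by
      intro x y hy z hz hyz
      rw [mem_coe, mem_erase] at hy hz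
      exact hcl hy.2 hz.2 hyz
    have hce' : ∀ x, (oct G).IsClique ((sd c').erase x : Set (V × Bool)) := by
      intro x y hy z hz hyz
      rw [mem_coe, mem_erase] at hy hz
      exact hcl' hy.2 hz.2 hyz
    have e0 : hz G cs FF pr p g H c c' = ∑ᶠ z, fk p g FF H c c' (sd c) (sd c') 1 1 z := by
      rw [← hs1]
      exact if_pos h
    have e0' : hz G cs FF pr p g H c' c = ∑ᶠ z, fk p g FF H' c c' (sd c) (sd c') 1 1 z := by
      have h1 : hz G cs FF pr p g H c' c = s1 p g FF (KR p g FF H c) c' := if_pos hh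
      rw [h1, hs1, ← hsw]
    have eA : ∀ v ∈ c.2.1, hz G cs FF pr p g H (fa cs c v) c' +
        (if v ∈ FF then hz G cs FF pr p g H (fb cs c v) c' else 0) =
        (∑ᶠ z, fk p g FF H c c' ((sd c).erase (v, sg c.2.2 v)) (sd c') 1 1 z) +
        ∑ᶠ z, fk p g FF H c c' ((sd c).erase (v, sg c.2.2 v)) (sd c') (p (v, sg c.2.2 v)) 1 z := by
      intro v hv
      rw [face1 hM hF hg hp hsep hE h hv]
      congr 1
      · exact if_pos (okF_fa h hv)
      · split_ifs with hvF
        · exact if_pos (okF_fb hF hg h hv hvF)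
        · rfl
    have eB : ∀ v ∈ c'.2.1, hz G cs FF pr p g H c (fa cs c' v) +
        (if v ∈ FF then hz G cs FF pr p g H c (fb cs c' v) else 0) =
        (∑ᶠ z, fk p g FF H c c' (sd c) ((sd c').erase (v, sg c'.2.2 v)) 1 1 z) +
        ∑ᶠ z, fk p g FF H c c' (sd c) ((sd c').erase (v, sg c'.2.2 v)) 1
          (p (v, sg c'.2.2 v)) z := by
      intro v hv
      rw [← hsw, ← hsw, face1 hM hF hg hp hsep hE' hh hv]
      congr 1
      · rw [← s1_swap]
        exact if_pos (okF_symm (okF_fa hh hv))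
      · split_ifs with hvF
        · rw [← s1_swap]
          exact if_pos (okF_symm (okF_fb hF hg hh hv hvF))
        · rfl
    have fin : ∀ (S T : Finset (V × Bool)) (u u' : A), (oct G).IsClique (S : Set (V × Bool)) →
        (oct G).IsClique (T : Set (V × Bool)) →
        (Function.support (fk p g FF H c c' S T u u')).Finite := fun S T u u' hS hT =>
      fk_fin hM hsep h (fun x y => hE x _ y _ hS hT) u u'
    have fin' : (Function.support (fk p g FF H' c c' (sd c) (sd c') 1 1)).Finite :=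
      fk_fin hM hsep h (fun x y => hE' x _ y _ hcl hcl') 1 1
    rw [e0, e0', ← finsum_add_distrib (fin _ _ _ _ hcl hcl') fin']
    unfold dlF
    rw [sum_congr rfl eA, sum_congr rfl eB]
    have sA : ∀ v ∈ c.2.1, (∑ᶠ z, fk p g FF H c c' ((sd c).erase (v, sg c.2.2 v)) (sd c') 1 1 z) +
        (∑ᶠ z, fk p g FF H c c' ((sd c).erase (v, sg c.2.2 v)) (sd c') (p (v, sg c.2.2 v)) 1 z) =
        ∑ᶠ z, (fk p g FF H c c' ((sd c).erase (v, sg c.2.2 v)) (sd c') 1 1 z +
          fk p g FF H c c' ((sd c).erase (v, sg c.2.2 v)) (sd c') (p (v, sg c.2.2 v)) 1 z) :=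
      fun v _ => (finsum_add_distrib (fin _ _ _ _ (hce _) hcl') (fin _ _ _ _ (hce _) hcl')).symm
    have sB : ∀ v ∈ c'.2.1, (∑ᶠ z, fk p g FF H c c' (sd c) ((sd c').erase (v, sg c'.2.2 v)) 1 1 z) +
        (∑ᶠ z, fk p g FF H c c' (sd c) ((sd c').erase (v, sg c'.2.2 v)) 1 (p (v, sg c'.2.2 v)) z) =
        ∑ᶠ z, (fk p g FF H c c' (sd c) ((sd c').erase (v, sg c'.2.2 v)) 1 1 z +
          fk p g FF H c c' (sd c) ((sd c').erase (v, sg c'.2.2 v)) 1 (p (v, sg c'.2.2 v)) z) :=
      fun v _ => (finsum_add_distrib (fin _ _ _ _ hcl (hce' _)) (fin _ _ _ _ hcl (hce' _))).symm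
    have fA : ∀ v ∈ c.2.1, (Function.support fun z =>
        (fk p g FF H c c' ((sd c).erase (v, sg c.2.2 v)) (sd c') 1 1 z +
          fk p g FF H c c' ((sd c).erase (v, sg c.2.2 v)) (sd c') (p (v, sg c.2.2 v)) 1 z)).Finite :=
      fun v _ => ((fin _ _ _ _ (hce _) hcl').union (fin _ _ _ _ (hce _) hcl')).subset
        (Function.support_add _ _)
    have fB : ∀ v ∈ c'.2.1, (Function.support fun z =>
        (fk p g FF H c c' (sd c) ((sd c').erase (v, sg c'.2.2 v)) 1 1 z +
          fk p g FF H c c' (sd c) ((sd c').erase (v, sg c'.2.2 v)) 1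
            (p (v, sg c'.2.2 v)) z)).Finite :=
      fun v _ => ((fin _ _ _ _ hcl (hce' _)).union (fin _ _ _ _ hcl (hce' _))).subset
        (Function.support_add _ _)
    rw [sum_congr rfl sA, sum_congr rfl sB, ← finsum_sum_comm _ _ fA, ← finsum_sum_comm _ _ fB,
      ← finsum_add_distrib]
    · refine finsum_congr fun z => ?_
      by_cases h1 : PP FF c.2.1 z.1 ∧ PP FF c'.2.1 z.2
      · have hrel := hH.rel (el p g c z.1) (sd c) (el p g c' z.2) (sd c') hcl hcl'
        have t1 : ∀ (S T : Finset (V × Bool)) (u u' : A), fk p g FF H c c' S T u u' z =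
            H (el p g c z.1 * u) S (el p g c' z.2 * u') T := fun S T u u' => if_pos h1
        have t2 : fk p g FF H' c c' (sd c) (sd c') 1 1 z =
            H (el p g c' z.2 * 1) (sd c') (el p g c z.1 * 1) (sd c) := if_pos h1
        simp only [t1, t2, mul_one]
        rw [← hrel]
        unfold sd
        rw [sum_sgn, sum_sgn]
      · have t1 : ∀ (S T : Finset (V × Bool)) (u u' : A), fk p g FF H c c' S T u u' z = 0 :=
          fun S T u u' => if_neg h1
        have t2 : fk p g FF H' c c' (sd c) (sd c') 1 1 z = 0 := if_neg h1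
        simp only [t1, t2, add_zero, sum_const_zero]
    · refine (Set.Finite.biUnion c.2.1.finite_toSet fA).subset ?_
      intro z hz
      rw [Function.mem_support] at hz
      obtain ⟨v, hv, hne⟩ := exists_ne_zero_of_sum_ne_zero hz
      exact Set.mem_biUnion hv hne
    · refine (Set.Finite.biUnion c'.2.1.finite_toSet fB).subset ?_
      intro z hz
      rw [Function.mem_support] at hz
      obtain ⟨v, hv, hne⟩ := exists_ne_zero_of_sum_ne_zero hz
      exact Set.mem_biUnion hv hne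
  · have h1 : hz G cs FF pr p g H (b0 V W) (b0 V W) =
        ∑ᶠ z, fk p g FF H (b0 V W) (b0 V W) (sd (b0 V W)) (sd (b0 V W)) 1 1 z := by
      rw [← hs1]
      exact if_pos (okF_b0 hg)
    have h0 : ∀ m : V → ℕ, PP FF (b0 V W).2.1 m → m = 0 := by
      intro m hm
      funext y
      by_contra h2
      exact notMem_empty y (mem_sdiff.1 (hm y h2)).1
    rw [h1, finsum_eq_single _ (0, 0)]
    · have h2 : fk p g FF H (b0 V W) (b0 V W) (sd (b0 V W)) (sd (b0 V W)) 1 1 (0, 0) =
          H (el p g (b0 V W) 0 * 1) (sd (b0 V W)) (el p g (b0 V W) 0 * 1) (sd (b0 V W)) :=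
        if_pos ⟨fun y hy => absurd rfl hy, fun y hy => absurd rfl hy⟩
      have h3 : el p g (b0 V W) 0 = 1 := by
        unfold el
        rw [zp_zero, mul_one]
        exact hg.one _
      have h4 : sd (b0 V W) = (∅ : Finset (V × Bool)) := rfl
      rw [h2, h3, h4, mul_one]
      exact hH.one
    · intro z hz
      refine if_neg fun h2 => hz ?_
      exact Prod.ext (h0 _ h2.1) (h0 _ h2.2)
  · by_cases hok : OkF G cs FF pr c c'
    · have h1 : hz G cs FF pr p g H c c' = ∑ᶠ z, fk p g FF H c c' (sd c) (sd c') 1 1 z := by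
        rw [← hs1]
        exact if_pos hok
      rw [h1]
      refine finsum_eq_zero_of_forall_eq_zero fun z => ?_
      unfold fk
      split_ifs
      · refine hH.top _ _ _ _ (clique_sgn _ hok.1.1.1) (clique_sgn _ hok.1.2.1.1) ?_
        rw [sd, sd, card_sgn, card_sgn]
        exact h
      · rfl
    · exact if_neg hok
  · refine (((hsep E).image fun q => (q.1.1, q.2.1))).subset ?_
    rintro ⟨w, w'⟩ ⟨s, a, t, b, hne⟩
    have hok : OkF G cs FF pr (w, s, a) (w', t, b) := by
      by_contra hc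
      exact hne (if_neg hc)
    have h1 : hz G cs FF pr p g H (w, s, a) (w', t, b) =
        ∑ᶠ z, fk p g FF H (w, s, a) (w', t, b) (sd (w, s, a)) (sd (w', t, b)) 1 1 z := by
      rw [← hs1]
      exact if_pos hok
    rw [h1] at hne
    obtain ⟨z, hz⟩ : ∃ z, fk p g FF H (w, s, a) (w', t, b) (sd (w, s, a)) (sd (w', t, b)) 1 1 z ≠
        0 := by
      by_contra hc
      push Not at hc
      exact hne (finsum_eq_zero_of_forall_eq_zero hc)
    unfold fk at hz
    by_cases h2 : PP FF s z.1 ∧ PP FF t z.2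
    · rw [if_pos h2, mul_one, mul_one] at hz
      refine ⟨((w, z.1), (w', z.2)), ⟨hok.2.1, hok.2.2, pos_of_PP hok.1.1 h2.1,
        pos_of_PP hok.1.2.1 h2.2, sg a, sg b, opp hM hok h2.1 h2.2, ?_⟩, rfl⟩
      exact hE _ _ _ _ (clique_sgn _ hok.1.1.1) (clique_sgn _ hok.1.2.1.1) hz
    · rw [if_neg h2] at hz
      exact absurd rfl hz

/-- the alternating function -/
theorem AA_relF (hF : Facts G cs) (hg : Apts cs pr p g) {ν : V × Bool → ℕ}
    (hν : Function.Injective ν) (c c' : Cub V W) (h : OkF G cs FF pr c c') :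
    dlF cs FF (AA ν) c c' = AA ν c c' + AA ν c' c := by
  rw [← AA_rel hF hg hν c c' h.1]
  have hb1 : ∀ v ∈ c.2.1, AA ν (fb cs c v) c' = 0 := fun v hv =>
    if_neg fun h' => fb_ne hg h.1.1 hv h'.1
  have hb2 : ∀ v ∈ c'.2.1, AA ν c (fb cs c' v) = 0 := fun v hv =>
    if_neg fun h' => fb_ne hg h.1.2.1 hv h'.2
  unfold dlF dl
  congr 1
  · refine sum_congr rfl fun v hv => ?_
    rw [hb1 v hv, ite_self]
  · refine sum_congr rfl fun v hv => ?_
    rw [hb2 v hv, ite_self]

end Pool.Agent.H65.AB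

end

section

/-!
# Project AA: from the complex of the irreducible spherical sets to the nerve

(C) of note 3967: `sdF T` is the cone over the sum of the `sdF (T \ s)` with apex the irreducible component of `T`
which contains the largest element of `T`; the largest element of `X` is a simplicial map; the composition is
the identity.
-/

set_option autoImplicit false
set_option linter.unusedSectionVars false

open Finset

namespace Pool.Agent.H93.AA

open Pool.Agent.H4.FC Pool.Agent.H78.RC H42.NU Pool.Agent.H65.RA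

variable {S : Type} [Fintype S] [DecidableEq S]

/-! ### Spherical sets -/

theorem sph_empty (M : CoxeterMatrix S) : Sph M ∅ := by
  have h : par M ∅ = ⊥ := by
    unfold Pool.Agent.H4.FC.par
    rw [Subgroup.closure_eq_bot_iff]
    rintro w ⟨v, hv, _⟩
    simp at hv
  show Finite (par M ∅)
  rw [h]
  infer_instance

theorem sph_union (M : CoxeterMatrix S) {X Y : Finset S} (hX : Sph M X) (hY : Sph M Y)
    (h : Sep M X Y) : Sph M (X ∪ Y) := by
  have h1 : Finite (par M X) := hX
  have h2 : Finite (par M Y) := hY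
  have key : ∀ w ∈ par M (X ∪ Y), ∃ a ∈ par M X, ∃ b ∈ par M Y, w = a * b := by
    apply par_induction
    · exact ⟨1, one_mem _, 1, one_mem _, by simp⟩
    · rintro v hv w ⟨a, ha, b, hb, rfl⟩
      rcases mem_union.1 hv with hv | hv
      · exact ⟨M.simple v * a, mul_mem (simple_mem_par M hv) ha, b, hb, by rw [mul_assoc]⟩
      · refine ⟨a, ha, M.simple v * b, mul_mem (simple_mem_par M hv) hb, ?_⟩
        rw [← mul_assoc, ← mul_assoc, sep_comm M h ha (simple_mem_par M hv)]
  have h3 : (par M (X ∪ Y) : Set M.Group) ⊆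
      (fun p : M.Group × M.Group => p.1 * p.2) '' ((par M X : Set M.Group) ×ˢ (par M Y : Set M.Group)) := by
    intro w hw
    obtain ⟨a, ha, b, hb, rfl⟩ := key w hw
    exact ⟨(a, b), ⟨ha, hb⟩, rfl⟩
  exact Set.Finite.subset (((Set.toFinite _).prod (Set.toFinite _)).image _) h3

theorem sph_clique (M : CoxeterMatrix S) (α : Finset (Irr M)) (h : (nG M).IsClique (α : Set (Irr M))) :
    Sph M (α.biUnion Subtype.val) := by
  induction hn : α.card using Nat.strong_induction_on generalizing α with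
  | _ n ih =>
    rcases α.eq_empty_or_nonempty with rfl | hne
    · rw [biUnion_empty]
      exact sph_empty M
    · obtain ⟨X, hX, hmax⟩ := α.exists_max_image (fun X => X.1.card) hne
      classical
      set β : Finset (Irr M) := α.filter fun Y => Sep M X.1 Y.1 with hβ
      have hXβ : X ∉ β := by
        intro h'
        have h1 := (mem_filter.1 h').2
        obtain ⟨a, ha⟩ := X.2.2.1
        have h2 := h1 a ha a ha
        rw [M.diagonal a] at h2
        omega
      have hlt : β.card < α.card :=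
        card_lt_card (Finset.ssubset_iff_subset_ne.2 ⟨filter_subset _ _, fun h' => hXβ (h'.symm ▸ hX)⟩)
      have h1 := ih β.card (hn ▸ hlt) β (h.subset (coe_subset.2 (filter_subset _ _))) rfl
      have hsep : Sep M X.1 (β.biUnion Subtype.val) := by
        intro j hj k hk
        obtain ⟨Y, hY, hk⟩ := mem_biUnion.1 hk
        exact (mem_filter.1 hY).2 j hj k hk
      refine (sph_union M X.2.1 h1 hsep).mono ?_
      intro s hs
      obtain ⟨Y, hY, hs⟩ := mem_biUnion.1 hs
      by_cases hXY : X = Y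
      · exact mem_union_left _ (hXY ▸ hs)
      · rcases (h hX hY hXY).2 with h2 | h2 | h2
        · exfalso
          exact hXY (Subtype.ext (eq_of_subset_of_card_le h2 (hmax Y hY)))
        · exact mem_union_left _ (h2 hs)
        · exact mem_union_right _ (mem_biUnion.2 ⟨Y, mem_filter.2 ⟨hY, h2⟩, hs⟩)

/-! ### Components and maxima -/

/-- the component of `m` in `T` -/
theorem exists_comp (D : SimpleGraph S) (T : Finset S) {m : S} (hm : m ∈ T) :
    ∃ C ⊆ T, m ∈ C ∧ Con D C ∧ ∀ a ∈ C, ∀ b ∈ T \ C, ¬ D.Adj a b := by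
  classical
  have hne : (T.powerset.filter fun C => m ∈ C ∧ ∀ a ∈ C, ∀ b ∈ T \ C, ¬ D.Adj a b).Nonempty :=
    ⟨T, by
      rw [mem_filter, mem_powerset]
      exact ⟨Subset.refl T, hm, fun a _ b hb => absurd (mem_sdiff.1 hb).1 (mem_sdiff.1 hb).2⟩⟩
  obtain ⟨C, hC, hmin⟩ := exists_min_image _ (fun C : Finset S => C.card) hne
  rw [mem_filter, mem_powerset] at hC
  refine ⟨C, hC.1, hC.2.1, ⟨⟨m, hC.2.1⟩, fun A hA hAne hcl => ?_⟩, hC.2.2⟩
  by_cases hmA : m ∈ A
  · apply eq_of_subset_of_card_le hA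
    apply hmin
    rw [mem_filter, mem_powerset]
    refine ⟨hA.trans hC.1, hmA, fun a ha b hb => ?_⟩
    by_cases hbC : b ∈ C
    · exact hcl a ha b (mem_sdiff.2 ⟨hbC, (mem_sdiff.1 hb).2⟩)
    · exact hC.2.2 a (hA ha) b (mem_sdiff.2 ⟨(mem_sdiff.1 hb).1, hbC⟩)
  · exfalso
    have h1 : C.card ≤ (C \ A).card := by
      apply hmin
      rw [mem_filter, mem_powerset]
      refine ⟨sdiff_subset.trans hC.1, mem_sdiff.2 ⟨hC.2.1, hmA⟩, fun a ha b hb hab => ?_⟩
      have ha' := mem_sdiff.1 ha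
      by_cases hbA : b ∈ A
      · exact hcl b hbA a ha hab.symm
      · exact hC.2.2 a ha'.1 b (mem_sdiff.2 ⟨(mem_sdiff.1 hb).1,
          fun hbC => (mem_sdiff.1 hb).2 (mem_sdiff.2 ⟨hbC, hbA⟩)⟩) hab
    have h2 : (C \ A).card < C.card := card_lt_card (sdiff_ssubset hA hAne)
    omega

section

variable (M : CoxeterMatrix S) (ν : S → ℕ)

theorem exists_mx (X : Irr M) : ∃ m ∈ X.1, ∀ y ∈ X.1, ν y ≤ ν m :=
  X.1.exists_max_image ν X.2.2.1

/-- the largest element -/
noncomputable def mx (X : Irr M) : S := (exists_mx M ν X).choose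

theorem mx_mem (X : Irr M) : mx M ν X ∈ X.1 := (exists_mx M ν X).choose_spec.1

theorem le_mx (X : Irr M) {y : S} (hy : y ∈ X.1) : ν y ≤ ν (mx M ν X) :=
  (exists_mx M ν X).choose_spec.2 y hy

theorem exists_cc {T : Finset S} (hT : Sph M T) (hne : T.Nonempty) :
    ∃ c : Irr M, c.1 ⊆ T ∧ (∀ a ∈ c.1, ∀ b ∈ T \ c.1, ¬ (diag M).Adj a b) ∧
      ∀ y ∈ T, ν y ≤ ν (mx M ν c) := by
  obtain ⟨m, hm, hmax⟩ := T.exists_max_image ν hne
  obtain ⟨C, h1, h2, h3, h4⟩ := exists_comp (diag M) T hm
  refine ⟨⟨C, hT.mono h1, h3⟩, h1, h4, fun y hy => ?_⟩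
  exact (hmax y hy).trans (le_mx M ν ⟨C, hT.mono h1, h3⟩ h2)

open Classical in
/-- the apex -/
noncomputable def cc (T : Finset S) : Option (Irr M) :=
  if h : Sph M T ∧ T.Nonempty then some (exists_cc M ν h.1 h.2).choose else none

theorem cc_spec {T : Finset S} (hT : Sph M T) (hne : T.Nonempty) :
    ∃ c : Irr M, cc M ν T = some c ∧ c.1 ⊆ T ∧ (∀ a ∈ c.1, ∀ b ∈ T \ c.1, ¬ (diag M).Adj a b) ∧
      ∀ y ∈ T, ν y ≤ ν (mx M ν c) := by
  refine ⟨(exists_cc M ν hT hne).choose, ?_, (exists_cc M ν hT hne).choose_spec⟩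
  unfold cc
  rw [dif_pos ⟨hT, hne⟩]

open Classical in
/-- the subdivision of the simplex `T` -/
noncomputable def sdF (T : Finset S) : Finset (Irr M) → ZMod 2 :=
  if T = ∅ then Pi.single ∅ 1 else
    match cc M ν T with
    | none => 0
    | some c => cone2 c (∑ s ∈ T.attach, sdF (T.erase s.1))
termination_by T.card
decreasing_by exact Finset.card_erase_lt_of_mem s.2

theorem sdF_empty : sdF M ν ∅ = Pi.single ∅ 1 := by
  rw [sdF, if_pos rfl]

theorem sdF_some {T : Finset S} (hne : T.Nonempty) {c : Irr M} (hc : cc M ν T = some c) :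
    sdF M ν T = cone2 c (∑ s ∈ T, sdF M ν (T.erase s)) := by
  rw [sdF, if_neg hne.ne_empty, hc]
  show cone2 c _ = _
  rw [sum_attach T fun s => sdF M ν (T.erase s)]

theorem sum_erase_erase {A : Type} [AddCommGroup A] (h2 : ∀ a : A, a + a = 0) (F : Finset S → A)
    (T : Finset S) : ∑ s ∈ T, ∑ t ∈ T.erase s, F ((T.erase s).erase t) = 0 := by
  rw [sum_sigma']
  refine sum_involution (fun p _ => ⟨p.2, p.1⟩) ?_ ?_ ?_ ?_
  · rintro ⟨s, t⟩ hp
    show F ((T.erase s).erase t) + F ((T.erase t).erase s) = 0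
    rw [erase_right_comm, h2]
  · rintro ⟨s, t⟩ hp _ heq
    rw [mem_sigma, mem_erase] at hp
    have h3 : t = s := congrArg Sigma.fst heq
    exact hp.2.1 h3
  · rintro ⟨s, t⟩ hp
    rw [mem_sigma, mem_erase] at hp ⊢
    exact ⟨hp.2.2, hp.2.1.symm, hp.1⟩
  · rintro ⟨s, t⟩ _
    rfl

theorem bd_sdF [Fintype (Irr M)] (T : Finset S) (hT : Sph M T) :
    bd2 (sdF M ν T) = ∑ s ∈ T, sdF M ν (T.erase s) := by
  induction hn : T.card using Nat.strong_induction_on generalizing T with
  | _ n ih =>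
    rcases T.eq_empty_or_nonempty with rfl | hne
    · rw [sdF_empty, sum_empty]
      funext s
      unfold bd2
      apply sum_eq_zero
      intro v _
      rw [Pi.single_eq_of_ne (insert_ne_empty v s)]
    · obtain ⟨c, hc, -⟩ := cc_spec M ν hT hne
      rw [sdF_some M ν hne hc]
      have h1 : bd2 (∑ s ∈ T, sdF M ν (T.erase s)) = 0 := by
        rw [bd_sum2]
        have h2 : ∀ s ∈ T, bd2 (sdF M ν (T.erase s)) = ∑ t ∈ T.erase s, sdF M ν ((T.erase s).erase t) :=
          fun s hs => ih _ (hn ▸ card_erase_lt_of_mem hs) _ (hT.mono (erase_subset s T)) rfl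
        rw [sum_congr rfl h2]
        exact sum_erase_erase (fun a => CharTwo.add_self_eq_zero a) _ T
      funext s
      have h3 := bd_cone c (∑ s ∈ T, sdF M ν (T.erase s)) s
      rw [h1, cone_zero2, Pi.zero_apply, add_zero] at h3
      exact h3

theorem supp_sdF (T : Finset S) (hT : Sph M T) (α : Finset (Irr M)) (hα : sdF M ν T α ≠ 0) :
    (nG M).IsClique (α : Set (Irr M)) ∧ α.card = T.card ∧ ∀ X ∈ α, X.1 ⊆ T := by
  induction hn : T.card using Nat.strong_induction_on generalizing T α with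
  | _ n ih =>
    rcases T.eq_empty_or_nonempty with rfl | hne
    · rw [sdF_empty] at hα
      have h1 : α = ∅ := by
        by_contra h
        exact hα (Pi.single_eq_of_ne h _)
      subst h1
      simp at hn
      subst hn
      simp
    · obtain ⟨c, hc, hcT, hcl, -⟩ := cc_spec M ν hT hne
      rw [sdF_some M ν hne hc] at hα
      unfold cone2 at hα
      split_ifs at hα with hcα
      · rw [Finset.sum_apply] at hα
        obtain ⟨s, hs, hα⟩ := exists_ne_zero_of_sum_ne_zero hα
        obtain ⟨h1, h2, h3⟩ := ih _ (hn ▸ card_erase_lt_of_mem hs) (T.erase s)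
          (hT.mono (erase_subset s T)) _ hα rfl
        have h4 : ∀ X ∈ α, X.1 ⊆ T := by
          intro X hX
          by_cases hXc : X = c
          · rw [hXc]; exact hcT
          · exact (h3 X (mem_erase.2 ⟨hXc, hX⟩)).trans (erase_subset s T)
        refine ⟨?_, ?_, h4⟩
        · have h5 : ∀ X ∈ α, X ≠ c → (nG M).Adj X c := by
            intro X hX hXc
            refine ⟨hXc, ?_⟩
            have h6 : Disjoint c.1 X.1 ∨ X.1 ⊆ c.1 := X.2.2.closed fun a ha b hb hbc =>
              hcl a (mem_inter.1 ha).1 b (mem_sdiff.2 ⟨h4 X hX hb, hbc⟩)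
            rcases h6 with h6 | h6
            · right; right
              intro j hj k hk
              by_contra hne2
              exact hcl k hk j (mem_sdiff.2 ⟨h4 X hX hj, fun h7 => disjoint_left.1 h6 h7 hj⟩)
                ⟨fun h7 => disjoint_left.1 h6 hk (h7 ▸ hj), fun h7 => hne2 (by
                  rw [M.symmetric]; exact h7)⟩
            · exact Or.inl h6
          intro X hX Y hY hXY
          by_cases hXc : X = c
          · rw [hXc]
            exact (h5 Y hY (fun h => hXY (hXc.trans h.symm))).symm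
          · by_cases hYc : Y = c
            · rw [hYc]
              exact h5 X hX hXc
            · exact h1 (by simp [hXc, hX]) (by simp [hYc, hY]) hXY
        · have h5 : 0 < T.card := hne.card_pos
          rw [card_erase_of_mem hs, card_erase_of_mem hcα] at h2
          have h6 : 0 < α.card := card_pos.2 ⟨c, hcα⟩
          omega
      · exact absurd rfl hα

theorem pair_sdF [Fintype (Irr M)] (T : Finset S) (hT : Sph M T)
    (x : Finset S → ZMod 2) : ∑ α, pb2 (mx M ν) x α * sdF M ν T α = x T := by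
  induction hn : T.card using Nat.strong_induction_on generalizing T x with
  | _ n ih =>
    rcases T.eq_empty_or_nonempty with rfl | hne
    · rw [sdF_empty, sum_eq_single ∅]
      · rw [Pi.single_eq_same, mul_one]
        unfold pb2
        rw [if_pos (by simp), image_empty]
      · intro α _ hα
        rw [Pi.single_eq_of_ne hα, mul_zero]
      · intro h
        exact absurd (mem_univ _) h
    · obtain ⟨c, hc, hcT, hcl, hmax⟩ := cc_spec M ν hT hne
      rw [sdF_some M ν hne hc, pair_cone2]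
      simp_rw [Finset.sum_apply, mul_sum]
      rw [sum_comm]
      have h1 : ∀ s ∈ T, ∑ α, pb2 (mx M ν) (fun t => if mx M ν c ∈ t then 0 else
          x (insert (mx M ν c) t)) α * sdF M ν (T.erase s) α =
          if mx M ν c ∈ T.erase s then 0 else x (insert (mx M ν c) (T.erase s)) := fun s hs =>
        ih _ (hn ▸ card_erase_lt_of_mem hs) (T.erase s) (hT.mono (erase_subset s T)) _ rfl
      rw [sum_congr rfl h1]
      have hm : mx M ν c ∈ T := hcT (mx_mem M ν c)
      rw [sum_eq_single (mx M ν c)]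
      · rw [if_neg (by simp), insert_erase hm]
      · intro s _ hs
        rw [if_pos (mem_erase.2 ⟨hs.symm, hm⟩)]
      · intro h
        exact absurd hm h

end

theorem hl_of_hz (M : CoxeterMatrix S) [Fintype (Irr M)] {j : ℕ} (h : HZ (nG M) j) : HL M j := by
  classical
  set ν : S → ℕ := fun s => (Fintype.equivFin S s).1
  intro z hz hzb
  have hzb' : bd2 z = 0 := funext hzb
  set Z : Finset (Irr M) → ZMod 2 := ∑ T, z T • sdF M ν T with hZ
  have h1 : ∀ α, Z α = ∑ T, z T * sdF M ν T α := by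
    intro α
    rw [hZ, Finset.sum_apply]
    rfl
  have h2 : ∀ α, Z α ≠ 0 → (nG M).IsClique (α : Set (Irr M)) ∧ α.card = j := by
    intro α hα
    rw [h1] at hα
    obtain ⟨T, -, hT⟩ := exists_ne_zero_of_sum_ne_zero hα
    have h3 := hz T (left_ne_zero_of_mul hT)
    have h4 := supp_sdF M ν T h3.1 α (right_ne_zero_of_mul hT)
    exact ⟨h4.1, h4.2.1.trans h3.2⟩
  have h3 : bd2 Z = 0 := by
    rw [hZ, bd_sum2]
    funext α
    rw [Finset.sum_apply]
    have h4 : ∀ T : Finset S, bd2 (z T • sdF M ν T) α = cob2 (fun T => sdF M ν T α) T * z T := by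
      intro T
      rw [bd_smul2, Pi.smul_apply, smul_eq_mul]
      by_cases hT : z T = 0
      · rw [hT]; simp
      · rw [bd_sdF M ν T (hz T hT).1, Finset.sum_apply, mul_comm]
        rfl
    rw [sum_congr rfl fun T _ => h4 T, ← pair_bd2, hzb']
    simp
  obtain ⟨Y, hY1, hY2⟩ := h Z h2 (fun s => congrFun h3 s)
  have hY2' : bd2 Y = Z := funext hY2
  refine ⟨pf2 (mx M ν) Y, ?_, ?_⟩
  · intro T hT
    unfold pf2 at hT
    obtain ⟨α, -, hα⟩ := exists_ne_zero_of_sum_ne_zero hT
    have h4 := hY1 α (right_ne_zero_of_mul hα)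
    have h5 := left_ne_zero_of_mul hα
    unfold pb2 at h5
    split_ifs at h5 with h6
    · have h7 : α.image (mx M ν) = T := by
        by_contra h8
        exact h5 (Pi.single_eq_of_ne h8 _)
      constructor
      · refine (sph_clique M α h4.1).mono ?_
        rw [← h7]
        intro s hs
        obtain ⟨X, hX, rfl⟩ := mem_image.1 hs
        exact mem_biUnion.2 ⟨X, hX, mx_mem M ν X⟩
      · rw [← h7, card_image_of_injOn h6, h4.2]
    · exact absurd rfl h5
  · intro T
    have h4 : bd2 (pf2 (mx M ν) Y) = z := by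
      rw [← pf_bd2, hY2']
      apply ext_pair2
      intro x
      rw [pair_pf2]
      simp_rw [h1, mul_sum]
      rw [sum_comm]
      refine sum_congr rfl fun T _ => ?_
      by_cases hT : z T = 0
      · simp [hT]
      · rw [← pair_sdF M ν T (hz T hT).1 x, sum_mul]
        exact sum_congr rfl fun α _ => by ring
    exact congrFun h4 T

end Pool.Agent.H93.AA

end

section

/-!
# Project AB: the letters of a full subset of the generators

PROOF. `Irr (sub M U)` is the set of the `X : Irr M` with `X.1 ⊆ U` (`X ↦ X.1.map (ind_emb U)`; spherical sets: `ind_sph`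
(private in Ind), connected sets: by the definition), the graphs agree; `HZ` is invariant under isomorphisms of
graphs; `hl_of_hz`.
-/

set_option autoImplicit false
set_option linter.unusedSectionVars false

open Finset

namespace Pool.Agent.H65.AB

open H42.NU Pool.Agent.H4.FC Pool.Agent.H78.RC Pool.Agent.H93.AA Pool.Agent.H65.RA
open Pool.Agent.H73.LK (sub ind_hom ind_emb)

/-! ### Isomorphisms of graphs -/

private theorem hzIso_sum {V V' : Type} [Fintype V] [DecidableEq V] [Fintype V'] [DecidableEq V']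
    (e : V ≃ V') (f : Finset V' → ZMod 2) (s : Finset V) :
    ∑ v ∈ sᶜ, f ((insert v s).map e.toEmbedding) =
      ∑ v ∈ (s.map e.toEmbedding)ᶜ, f (insert v (s.map e.toEmbedding)) := by
  refine Finset.sum_equiv e (fun v => ?_) (fun v _ => ?_)
  · rw [mem_compl, mem_compl, not_iff_not]
    exact (Finset.mem_map' e.toEmbedding).symm
  · rw [Finset.map_insert]
    rfl

private theorem hzIso_hz {V V' : Type} [Fintype V] [DecidableEq V] [Fintype V'] [DecidableEq V']
    {G : SimpleGraph V} {G' : SimpleGraph V'} (e : V ≃ V') (hG : ∀ a b, G'.Adj (e a) (e b) ↔ G.Adj a b)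
    {j : ℕ} (h : HZ G j) : HZ G' j := by
  intro z hz hzb
  have hcl : ∀ s : Finset V, G'.IsClique (s.map e.toEmbedding : Set V') ↔ G.IsClique (s : Set V) := by
    intro s
    constructor
    · intro hs a ha b hb hab
      refine (hG a b).1 (hs (mem_coe.2 (mem_map_of_mem _ (mem_coe.1 ha)))
        (mem_coe.2 (mem_map_of_mem _ (mem_coe.1 hb))) ?_)
      exact fun h1 => hab (e.injective h1)
    · intro hs a ha b hb hab
      obtain ⟨a', ha', rfl⟩ := mem_map.1 (mem_coe.1 ha)
      obtain ⟨b', hb', rfl⟩ := mem_map.1 (mem_coe.1 hb)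
      exact (hG a' b').2 (hs (mem_coe.2 ha') (mem_coe.2 hb') fun h1 => hab (by rw [h1]))
  obtain ⟨y, hy, hyb⟩ := h (fun s => z (s.map e.toEmbedding))
    (fun s hs => by
      have h1 := hz _ hs
      rw [hcl, card_map] at h1
      exact h1)
    (fun s => by
      rw [hzIso_sum e z s]
      exact hzb _)
  have hback : ∀ t : Finset V', (t.map e.symm.toEmbedding).map e.toEmbedding = t := by
    intro t
    ext v
    simp
  refine ⟨fun t => y (t.map e.symm.toEmbedding), fun t ht => ?_, fun t => ?_⟩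
  · have h1 := hy _ ht
    rw [← hcl, hback, card_map] at h1
    exact h1
  · have h1 := hyb (t.map e.symm.toEmbedding)
    rw [hback] at h1
    rw [← h1]
    exact hzIso_sum e.symm y t

/-! ### The letters of `sub M U` -/

variable {S : Type} [Fintype S] [DecidableEq S] {M : CoxeterMatrix S} [Fintype (Irr M)]

private theorem hzIso_par (M : CoxeterMatrix S) (Y : Finset S) (σ : Finset {v // v ∈ Y}) :
    (Pool.Agent.H4.FC.par (sub M Y) σ).map (ind_hom M Y) =
      Pool.Agent.H4.FC.par M (σ.map (ind_emb Y)) := by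
  unfold Pool.Agent.H4.FC.par
  rw [MonoidHom.map_closure]
  congr 1
  ext w
  constructor
  · rintro ⟨u, ⟨v, hv, rfl⟩, rfl⟩
    exact ⟨v.1, mem_map.2 ⟨v, hv, rfl⟩, Pool.Agent.H73.LK.ind_hom_simple M Y v⟩
  · rintro ⟨v, hv, rfl⟩
    obtain ⟨u, hu, rfl⟩ := mem_map.1 hv
    exact ⟨(sub M Y).simple u, ⟨u, hu, rfl⟩, Pool.Agent.H73.LK.ind_hom_simple M Y u⟩

private theorem hzIso_sph {M : CoxeterMatrix S} {Y : Finset S} {σ : Finset {v // v ∈ Y}} :
    Sph (sub M Y) σ ↔ Sph M (σ.map (ind_emb Y)) := by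
  unfold Sph
  rw [← hzIso_par]
  exact ((Pool.Agent.H4.FC.par (sub M Y) σ).equivMapOfInjective _
    (Pool.Agent.H73.LK.ind_hom_injective M Y)).toEquiv.finite_iff

private theorem hzIso_mem {Y : Finset S} {τ : Finset {v // v ∈ Y}} {v : {v // v ∈ Y}} :
    v.1 ∈ τ.map (ind_emb Y) ↔ v ∈ τ := Finset.mem_map' (ind_emb Y)

private theorem hzIso_adj {M : CoxeterMatrix S} {Y : Finset S} (u v : {v // v ∈ Y}) :
    (diag (sub M Y)).Adj u v ↔ (diag M).Adj u.1 v.1 := by
  constructor
  · intro h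
    exact ⟨fun h1 => h.1 (Subtype.ext h1), h.2⟩
  · intro h
    exact ⟨fun h1 => h.1 (congrArg Subtype.val h1), h.2⟩

private theorem hzIso_con {M : CoxeterMatrix S} {Y : Finset S} {σ : Finset {v // v ∈ Y}} :
    Con (diag (sub M Y)) σ ↔ Con (diag M) (σ.map (ind_emb Y)) := by
  constructor
  · rintro ⟨hne, h⟩
    refine ⟨hne.map, fun A hA hAne hsep => ?_⟩
    set A' : Finset {v // v ∈ Y} := σ.filter fun v => v.1 ∈ A with hA'
    have hm : A'.map (ind_emb Y) = A := by
      ext v
      rw [mem_map]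
      constructor
      · rintro ⟨u, hu, rfl⟩
        rw [hA', mem_filter] at hu
        exact hu.2
      · intro hv
        obtain ⟨u, hu, rfl⟩ := mem_map.1 (hA hv)
        exact ⟨u, by rw [hA', mem_filter]; exact ⟨hu, hv⟩, rfl⟩
    have hne' : A'.Nonempty := by
      rw [← hm] at hAne
      exact Finset.map_nonempty.1 hAne
    have h1 := h A' (filter_subset _ _) hne' (fun a ha b hb hab => by
      refine hsep a.1 ?_ b.1 ?_ ((hzIso_adj a b).1 hab)
      · rw [← hm]
        exact hzIso_mem.2 ha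
      · rw [mem_sdiff] at hb ⊢
        refine ⟨hzIso_mem.2 hb.1, ?_⟩
        rw [← hm]
        exact fun h2 => hb.2 (hzIso_mem.1 h2))
    rw [← hm, h1]
  · rintro ⟨hne, h⟩
    refine ⟨Finset.map_nonempty.1 hne, fun A hA hAne hsep => ?_⟩
    have h1 := h (A.map (ind_emb Y)) (Finset.map_subset_map.2 hA) hAne.map (fun a ha b hb hab => by
      obtain ⟨a', ha', rfl⟩ := mem_map.1 ha
      rw [mem_sdiff] at hb
      obtain ⟨b', hb', rfl⟩ := mem_map.1 hb.1
      refine hsep a' ha' b' (mem_sdiff.2 ⟨hb', fun h2 => hb.2 (mem_map_of_mem _ h2)⟩) ?_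
      exact (hzIso_adj a' b').2 hab)
    exact Finset.map_injective _ h1

open Classical in
/-- the letters contained in `U` -/
noncomputable def lU (M : CoxeterMatrix S) [Fintype (Irr M)] (U : Finset S) : Finset (Irr M) :=
  univ.filter fun X => X.1 ⊆ U

theorem mem_lU {U : Finset S} {X : Irr M} : X ∈ lU M U ↔ X.1 ⊆ U := by
  classical
  unfold lU
  rw [mem_filter]
  exact ⟨fun h => h.2, fun h => ⟨mem_univ X, h⟩⟩

private theorem hzIso_sub {U : Finset S} (τ : Finset {v // v ∈ U}) : τ.map (ind_emb U) ⊆ U := by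
  intro v hv
  obtain ⟨u, _, rfl⟩ := mem_map.1 hv
  exact u.2

/-- the letter of `M` of a letter of `sub M U` -/
private def hzIso_f (M : CoxeterMatrix S) [Fintype (Irr M)] (U : Finset S) (X : Irr (sub M U)) :
    {X // X ∈ lU M U} :=
  ⟨⟨X.1.map (ind_emb U), hzIso_sph.1 X.2.1, hzIso_con.1 X.2.2⟩, mem_lU.2 (hzIso_sub X.1)⟩

private theorem hzIso_bij (M : CoxeterMatrix S) [Fintype (Irr M)] (U : Finset S) :
    Function.Bijective (hzIso_f M U) := by
  constructor
  · intro X Y h
    have h1 : X.1.map (ind_emb U) = Y.1.map (ind_emb U) :=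
      congrArg (fun Z : {X // X ∈ lU M U} => Z.1.1) h
    exact Subtype.ext (Finset.map_injective _ h1)
  · rintro ⟨Z, hZ⟩
    have hZU : Z.1 ⊆ U := mem_lU.1 hZ
    have hm : (univ.filter fun w : {v // v ∈ U} => w.1 ∈ Z.1).map (ind_emb U) = Z.1 := by
      ext v
      rw [mem_map]
      constructor
      · rintro ⟨u, hu, rfl⟩
        exact (mem_filter.1 hu).2
      · intro hv
        exact ⟨⟨v, hZU hv⟩, mem_filter.2 ⟨mem_univ _, hv⟩, rfl⟩
    refine ⟨⟨univ.filter fun w : {v // v ∈ U} => w.1 ∈ Z.1, ?_, ?_⟩, ?_⟩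
    · rw [hzIso_sph, hm]
      exact Z.2.1
    · rw [hzIso_con, hm]
      exact Z.2.2
    · exact Subtype.ext (Subtype.ext hm)

private theorem hzIso_nG (M : CoxeterMatrix S) [Fintype (Irr M)] (U : Finset S) (X Y : Irr (sub M U)) :
    (nG M).Adj (hzIso_f M U X).1 (hzIso_f M U Y).1 ↔ (nG (sub M U)).Adj X Y := by
  have h1 : (hzIso_f M U X).1 ≠ (hzIso_f M U Y).1 ↔ X ≠ Y := by
    rw [not_iff_not]
    constructor
    · intro h
      exact (hzIso_bij M U).1 (Subtype.ext h)
    · rintro rfl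
      rfl
  have h2 : ∀ X Y : Irr (sub M U), (hzIso_f M U X).1.1 ⊆ (hzIso_f M U Y).1.1 ↔ X.1 ⊆ Y.1 :=
    fun _ _ => Finset.map_subset_map
  have h3 : Sep M (hzIso_f M U X).1.1 (hzIso_f M U Y).1.1 ↔ Sep (sub M U) X.1 Y.1 := by
    constructor
    · intro h j hj k hk
      exact h j.1 (hzIso_mem.2 hj) k.1 (hzIso_mem.2 hk)
    · intro h j hj k hk
      obtain ⟨j', hj', rfl⟩ := mem_map.1 hj
      obtain ⟨k', hk', rfl⟩ := mem_map.1 hk
      exact h j' hj' k' hk'
  constructor
  · rintro ⟨g1, g2⟩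
    refine ⟨h1.1 g1, ?_⟩
    rcases g2 with g2 | g2 | g2
    · exact Or.inl ((h2 _ _).1 g2)
    · exact Or.inr (Or.inl ((h2 _ _).1 g2))
    · exact Or.inr (Or.inr (h3.1 g2))
  · rintro ⟨g1, g2⟩
    refine ⟨h1.2 g1, ?_⟩
    rcases g2 with g2 | g2 | g2
    · exact Or.inl ((h2 _ _).2 g2)
    · exact Or.inr (Or.inl ((h2 _ _).2 g2))
    · exact Or.inr (Or.inr (h3.2 g2))

theorem hl_of_hz_lU (U : Finset S) {j : ℕ}
    (h : HZ ((nG M).comap (Subtype.val : {X // X ∈ lU M U} → Irr M)) j) : HL (sub M U) j := by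
  classical
  set e : Irr (sub M U) ≃ {X // X ∈ lU M U} := Equiv.ofBijective _ (hzIso_bij M U) with he
  have : Fintype (Irr (sub M U)) := Fintype.ofEquiv _ e.symm
  apply hl_of_hz
  refine hzIso_hz e.symm (fun a b => ?_) h
  have h1 := hzIso_nG M U (e.symm a) (e.symm b)
  have h2 : ∀ c, hzIso_f M U (e.symm c) = c := fun c => e.apply_symm_apply c
  rw [h2, h2] at h1
  exact h1.symm

end Pool.Agent.H65.AB

end
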