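import Pool.Agent.H71.TSG.M68
import Pool.Agent.H71.TSG.M80
import Pool.Agent.H71.TSG.M81

/-! The parts of this file: H45.DA.Cube, H65.AB.MainZ, H65.AB.SepAB, H93.AB.Art, H65.AB.L2AB, H45.DA.Art. -/

section

/-!
# Intersection numbers of cubes from intersection numbers of lists

`inter_of_interL`: the group `A` with the commuting elements `e w` is coarsely embedded into a group `Λ` with
intersection numbers of lists; then `A` has intersection numbers of the cubes `(g, s)`. The cube `(g, s)` is replaced by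
the sum of the lists of its vertices along the edge paths from `g` to the opposite vertex.
-/

set_option autoImplicit false
set_option linter.unusedSectionVars false

open Finset

namespace Pool.Agent.H45.DA

open Pool.Agent.H37.TM (lin lin_single lin_congr lin_lin map_lin lin_add add_self_mod)
open Pool.Agent.H65.RM (Inter sum_pairs_zero lin_mapDomain mapDomain_lin)
open Pool.Agent.H84.RX (InterL lin_supp)
open Pool.Agent.H10.CI (CoarseEmb)

/-! ### The boundary of lists -/

/-- the boundary of a list -/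
noncomputable def dl {A : Type} (σ : List A) : List A →₀ ZMod 2 :=
  ∑ i ∈ range σ.length, Finsupp.single (σ.eraseIdx i) 1

theorem dl_cons {A : Type} (g : A) (σ : List A) :
    dl (g :: σ) = Finsupp.single σ 1 + (dl σ).mapDomain (g :: ·) := by
  unfold dl
  rw [List.length_cons, sum_range_succ', Finsupp.mapDomain_finsetSum, add_comm]
  congr 1
  refine sum_congr rfl fun i _ => ?_
  rw [Finsupp.mapDomain_single, List.eraseIdx_cons_succ]

theorem lin_dl_cons {A : Type} (g : A) (x : List A →₀ ZMod 2) :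
    lin dl (x.mapDomain (g :: ·)) = x + (lin dl x).mapDomain (g :: ·) := by
  have h1 : lin dl (x.mapDomain (g :: ·)) =
      lin (fun σ => Finsupp.single σ 1 + (dl σ).mapDomain (g :: ·)) x := by
    rw [lin_mapDomain]
    exact lin_congr fun c _ => dl_cons g c
  rw [h1, lin_add, mapDomain_lin]
  congr 1
  unfold lin
  rw [Finsupp.linearCombination_apply, Finsupp.sum]
  have h2 : ∀ c ∈ x.support, x c • Finsupp.single c (1 : ZMod 2) = Finsupp.single c (x c) := by
    intro c _
    rw [Finsupp.smul_single, smul_eq_mul, mul_one]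
  rw [sum_congr rfl h2]
  exact Finsupp.sum_single x

/-! ### The chain of a cube -/

section

variable {A W : Type} [Group A] [DecidableEq W]

/-- the chain of the cube `(g, s)`, `m` the number of elements of `s` -/
noncomputable def qc (e : W → A) : ℕ → A → Finset W → (List A →₀ ZMod 2)
  | 0, g, _ => Finsupp.single [g] 1
  | m + 1, g, s => ∑ w ∈ s, (qc e m (g * e w) (s.erase w)).mapDomain (g :: ·)

theorem qc_smul (e : W → A) (h : A) : ∀ (m : ℕ) (g : A) (s : Finset W),
    qc e m (h * g) s = (qc e m g s).mapDomain (List.map (h * ·))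
  | 0, g, s => by
    unfold qc
    rw [Finsupp.mapDomain_single]
    rfl
  | m + 1, g, s => by
    unfold qc
    rw [Finsupp.mapDomain_finsetSum]
    refine sum_congr rfl fun w _ => ?_
    rw [mul_assoc, qc_smul e h m, ← Finsupp.mapDomain_comp, ← Finsupp.mapDomain_comp]
    rfl

theorem qc_len (e : W → A) : ∀ (m : ℕ) (g : A) (s : Finset W) (σ : List A), qc e m g s σ ≠ 0 →
    σ.length = m + 1
  | 0, g, s, σ, h => by
    classical
    unfold qc at h
    rw [Finsupp.single_apply] at h
    by_cases h1 : [g] = σ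
    · rw [← h1]
      rfl
    · exact absurd (if_neg h1) h
  | m + 1, g, s, σ, h => by
    classical
    unfold qc at h
    rw [Finsupp.finsetSum_apply] at h
    obtain ⟨w, -, hne⟩ := exists_ne_zero_of_sum_ne_zero h
    have h1 := Finsupp.mapDomain_support (Finsupp.mem_support_iff.2 hne)
    obtain ⟨τ, hτ, rfl⟩ := mem_image.1 h1
    rw [List.length_cons, qc_len e m _ _ τ (Finsupp.mem_support_iff.1 hτ)]

/-- the boundary of the chain of a cube -/
theorem qc_bd {O : SimpleGraph W} {e : W → A} (hc : ∀ u w, O.Adj u w → e u * e w = e w * e u) :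
    ∀ (m : ℕ) (g : A) (s : Finset W), O.IsClique (s : Set W) → s.card = m + 1 →
      lin dl (qc e (m + 1) g s) = ∑ w ∈ s, (qc e m g (s.erase w) + qc e m (g * e w) (s.erase w))
  | 0, g, s, _, _ => by
    show lin dl (∑ w ∈ s, (qc e 0 (g * e w) (s.erase w)).mapDomain (g :: ·)) = _
    rw [map_sum]
    refine sum_congr rfl fun w _ => ?_
    rw [lin_dl_cons]
    unfold qc
    rw [lin_single]
    have h1 : dl [g * e w] = Finsupp.single [] 1 := by
      unfold dl
      rw [List.length_singleton, sum_range_one]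
      rfl
    rw [h1, Finsupp.mapDomain_single, add_comm]
  | m + 1, g, s, hs, hcard => by
    have hfc : ∀ w ∈ s, O.IsClique ((s.erase w : Finset W) : Set W) ∧ (s.erase w).card = m + 1 := by
      intro w hw
      refine ⟨hs.subset (by exact_mod_cast erase_subset w s), ?_⟩
      rw [card_erase_of_mem hw, hcard]
      rfl
    show lin dl (∑ w ∈ s, (qc e (m + 1) (g * e w) (s.erase w)).mapDomain (g :: ·)) = _
    rw [map_sum]
    have h1 : ∀ w ∈ s, lin dl ((qc e (m + 1) (g * e w) (s.erase w)).mapDomain (g :: ·)) =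
        qc e (m + 1) (g * e w) (s.erase w) +
          (∑ u ∈ s.erase w, (qc e m (g * e w) ((s.erase w).erase u)).mapDomain (g :: ·) +
          ∑ u ∈ s.erase w, (qc e m (g * e w * e u) ((s.erase w).erase u)).mapDomain (g :: ·)) := by
      intro w hw
      rw [lin_dl_cons, qc_bd hc m _ _ (hfc w hw).1 (hfc w hw).2, Finsupp.mapDomain_finsetSum,
        ← sum_add_distrib]
      congr 1
      exact sum_congr rfl fun u _ => Finsupp.mapDomain_add
    rw [sum_congr rfl h1, sum_add_distrib, sum_add_distrib, sum_add_distrib]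
    have h2 : ∑ w ∈ s, ∑ u ∈ s.erase w,
        (qc e m (g * e w * e u) ((s.erase w).erase u)).mapDomain (g :: ·) = 0 := by
      refine sum_pairs_zero s _ fun u hu w hw huw => ?_
      have h4 : O.Adj u w := hs hu hw huw
      rw [Finset.erase_right_comm, mul_assoc g (e u) (e w), hc u w h4, ← mul_assoc g (e w) (e u)]
    have h3 : ∑ w ∈ s, ∑ u ∈ s.erase w,
        (qc e m (g * e w) ((s.erase w).erase u)).mapDomain (g :: ·) =
        ∑ w ∈ s, qc e (m + 1) g (s.erase w) := by
      have h5 : ∀ w ∈ s, qc e (m + 1) g (s.erase w) = ∑ u ∈ s.erase w,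
          (qc e m (g * e u) ((s.erase w).erase u)).mapDomain (g :: ·) := fun w _ => rfl
      rw [sum_congr rfl h5, Finset.sum_sigma', Finset.sum_sigma']
      refine sum_bij' (fun p _ => ⟨p.2, p.1⟩) (fun p _ => ⟨p.2, p.1⟩) ?_ ?_ ?_ ?_ ?_
      · rintro ⟨v, w⟩ h
        simp only [mem_sigma, mem_erase] at h ⊢
        exact ⟨h.2.2, fun h' => h.2.1 h'.symm, h.1⟩
      · rintro ⟨w, v⟩ h
        simp only [mem_sigma, mem_erase] at h ⊢
        exact ⟨h.2.2, fun h' => h.2.1 h'.symm, h.1⟩
      · rintro ⟨v, w⟩ _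
        rfl
      · rintro ⟨v, w⟩ _
        rfl
      · rintro ⟨v, w⟩ _
        show _ = (qc e m (g * e v) ((s.erase w).erase v)).mapDomain (g :: ·)
        rw [Finset.erase_right_comm]
    rw [h2, h3, add_zero, add_comm]

end

/-! ### The pairing -/

/-- the bilinear extension -/
noncomputable def pair {B : Type} (F : B → B → ZMod 2) (x y : B →₀ ZMod 2) : ZMod 2 :=
  lin (fun σ => lin (fun τ => F σ τ) y) x

section

variable {B : Type} (F : B → B → ZMod 2)

theorem pair_sum (x y : B →₀ ZMod 2) :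
    pair F x y = ∑ σ ∈ x.support, ∑ τ ∈ y.support, F σ τ := by
  unfold pair
  rw [lin_supp]
  exact sum_congr rfl fun σ _ => lin_supp _ _

theorem pair_add_l (x x' y : B →₀ ZMod 2) : pair F (x + x') y = pair F x y + pair F x' y := by
  unfold pair
  rw [map_add]

theorem pair_add_r (x y y' : B →₀ ZMod 2) : pair F x (y + y') = pair F x y + pair F x y' := by
  unfold pair
  rw [← lin_add]
  exact lin_congr fun c _ => by rw [map_add]

theorem pair_sum_l {ι : Type} (s : Finset ι) (x : ι → (B →₀ ZMod 2)) (y : B →₀ ZMod 2) :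
    pair F (∑ i ∈ s, x i) y = ∑ i ∈ s, pair F (x i) y := by
  unfold pair
  rw [map_sum]

theorem pair_comm (x y : B →₀ ZMod 2) :
    pair F x y = pair (fun σ τ => F τ σ) y x := by
  rw [pair_sum, pair_sum, sum_comm]

theorem pair_sum_r {ι : Type} (s : Finset ι) (x : B →₀ ZMod 2) (y : ι → (B →₀ ZMod 2)) :
    pair F x (∑ i ∈ s, y i) = ∑ i ∈ s, pair F x (y i) := by
  rw [pair_comm, pair_sum_l]
  exact sum_congr rfl fun i _ => (pair_comm F x (y i)).symm

theorem pair_ne {x y : B →₀ ZMod 2} (h : pair F x y ≠ 0) :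
    ∃ σ τ, x σ ≠ 0 ∧ y τ ≠ 0 ∧ F σ τ ≠ 0 := by
  rw [pair_sum] at h
  obtain ⟨σ, hσ, h1⟩ := exists_ne_zero_of_sum_ne_zero h
  obtain ⟨τ, hτ, h2⟩ := exists_ne_zero_of_sum_ne_zero h1
  exact ⟨σ, τ, Finsupp.mem_support_iff.1 hσ, Finsupp.mem_support_iff.1 hτ, h2⟩

end

/-- the relation for chains of nonempty lists -/
theorem pair_rel {A : Type} {F : List A → List A → ZMod 2}
    (hF : ∀ σ τ, σ ≠ [] → τ ≠ [] →
      lin (fun σ' => F σ' τ) (dl σ) + lin (fun τ' => F σ τ') (dl τ) = F σ τ + F τ σ)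
    {x y : List A →₀ ZMod 2} (hx : ∀ σ, x σ ≠ 0 → σ ≠ []) (hy : ∀ τ, y τ ≠ 0 → τ ≠ []) :
    pair F (lin dl x) y + pair F x (lin dl y) = pair F x y + pair F y x := by
  have h1 : pair F (lin dl x) y = ∑ σ ∈ x.support, ∑ τ ∈ y.support, lin (fun σ' => F σ' τ) (dl σ) := by
    rw [pair_comm]
    unfold pair
    rw [lin_supp (x := y), sum_comm]
    refine sum_congr rfl fun τ _ => ?_
    rw [← lin_lin, lin_supp]
  have h2 : pair F x (lin dl y) = ∑ σ ∈ x.support, ∑ τ ∈ y.support, lin (fun τ' => F σ τ') (dl τ) := by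
    unfold pair
    rw [lin_supp (x := x)]
    refine sum_congr rfl fun σ _ => ?_
    rw [← lin_lin, lin_supp]
  have h3 : pair F y x = ∑ σ ∈ x.support, ∑ τ ∈ y.support, F τ σ := by
    rw [pair_sum, sum_comm]
  rw [h1, h2, h3, pair_sum, ← sum_add_distrib, ← sum_add_distrib]
  refine sum_congr rfl fun σ hσ => ?_
  rw [← sum_add_distrib, ← sum_add_distrib]
  exact sum_congr rfl fun τ hτ => hF σ τ (hx σ (Finsupp.mem_support_iff.1 hσ))
    (hy τ (Finsupp.mem_support_iff.1 hτ))

/-! ### The theorem -/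

section

variable {A Λ W : Type} [Group A] [Group Λ] [DecidableEq W]

/-- the translated images of a list under a coarse embedding are finitely many -/
theorem fin_shapes {f : A → Λ} (hf : CoarseEmb f) : ∀ τ : List A,
    {l : List Λ | ∃ g : A, τ.map (fun a => (f g)⁻¹ * f (g * a)) = l}.Finite
  | [] => by
    refine (Set.finite_singleton ([] : List Λ)).subset ?_
    rintro l ⟨g, rfl⟩
    rfl
  | a :: τ => by
    refine ((hf.lip a).image2 List.cons (fin_shapes hf τ)).subset ?_
    rintro l ⟨g, rfl⟩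
    exact ⟨_, ⟨g, rfl⟩, _, ⟨g, rfl⟩, rfl⟩

/-- **Intersection numbers of the cubes from intersection numbers of lists.** -/
theorem inter_of_interL [Fintype W] (O : SimpleGraph W) (e : W → A)
    (hc : ∀ u w, O.Adj u w → e u * e w = e w * e u) {n : ℕ} {H : List Λ → List Λ → ZMod 2}
    (hH : InterL Λ n H) {f : A → Λ} (hf : CoarseEmb f) :
    ∃ H' : A → Finset W → A → Finset W → ZMod 2, Inter O e n H' := by
  classical
  let F : List A → List A → ZMod 2 := fun σ τ => H (σ.map f) (τ.map f)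
  have hF : ∀ σ τ, σ ≠ [] → τ ≠ [] →
      lin (fun σ' => F σ' τ) (dl σ) + lin (fun τ' => F σ τ') (dl τ) = F σ τ + F τ σ := by
    intro σ τ hσ hτ
    have h1 := hH.rel (σ.map f) (τ.map f) (fun h => hσ (List.map_eq_nil_iff.1 h))
      (fun h => hτ (List.map_eq_nil_iff.1 h))
    rw [List.length_map, List.length_map] at h1
    rw [show F σ τ + F τ σ = H (σ.map f) (τ.map f) + H (τ.map f) (σ.map f) from rfl, ← h1]
    unfold dl
    rw [map_sum, map_sum]
    congr 1
    · refine sum_congr rfl fun i _ => ?_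
      rw [lin_single, List.eraseIdx_map]
    · refine sum_congr rfl fun i _ => ?_
      rw [lin_single, List.eraseIdx_map]
  have hne : ∀ (g : A) (s : Finset W) (σ : List A), qc e s.card g s σ ≠ 0 → σ ≠ [] := by
    rintro g s σ h rfl
    have := qc_len e s.card g s [] h
    simp at this
  -- the boundary of a cube
  have hbl : ∀ (g : A) (s : Finset W) (y : List A →₀ ZMod 2), O.IsClique (s : Set W) →
      ∑ w ∈ s, (pair F (qc e (s.erase w).card g (s.erase w)) y +
        pair F (qc e (s.erase w).card (g * e w) (s.erase w)) y) =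
      pair F (lin dl (qc e s.card g s)) y := by
    intro g s y hs
    obtain ⟨m, hm⟩ : ∃ m, s.card = m := ⟨_, rfl⟩
    cases m with
    | zero =>
      rw [card_eq_zero] at hm
      subst hm
      rw [sum_empty, card_empty]
      unfold qc
      rw [lin_single]
      have h1 : dl [g] = Finsupp.single [] 1 := by
        unfold dl
        rw [List.length_singleton, sum_range_one]
        rfl
      rw [h1]
      unfold pair
      rw [lin_single]
      symm
      rw [lin_supp]
      exact sum_eq_zero fun τ _ => hH.nil_left _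
    | succ m =>
      rw [hm, qc_bd hc m g s hs hm, pair_sum_l]
      refine sum_congr rfl fun w hw => ?_
      rw [pair_add_l, card_erase_of_mem hw, hm]
      rfl
  have hbr : ∀ (g : A) (s : Finset W) (x : List A →₀ ZMod 2), O.IsClique (s : Set W) →
      ∑ w ∈ s, (pair F x (qc e (s.erase w).card g (s.erase w)) +
        pair F x (qc e (s.erase w).card (g * e w) (s.erase w))) =
      pair F x (lin dl (qc e s.card g s)) := by
    intro g s x hs
    obtain ⟨m, hm⟩ : ∃ m, s.card = m := ⟨_, rfl⟩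
    cases m with
    | zero =>
      rw [card_eq_zero] at hm
      subst hm
      rw [sum_empty, card_empty]
      unfold qc
      rw [lin_single]
      have h1 : dl [g] = Finsupp.single [] 1 := by
        unfold dl
        rw [List.length_singleton, sum_range_one]
        rfl
      rw [h1]
      unfold pair
      symm
      rw [lin_supp]
      refine sum_eq_zero fun τ _ => ?_
      rw [lin_single]
      exact hH.nil_right _
    | succ m =>
      rw [hm, qc_bd hc m g s hs hm, pair_sum_r]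
      refine sum_congr rfl fun w hw => ?_
      rw [pair_add_r, card_erase_of_mem hw, hm]
      rfl
  refine ⟨fun g s g' s' => pair F (qc e s.card g s) (qc e s'.card g' s'), ?_, ?_, ?_, ?_⟩
  · intro g s g' s' hs hs'
    rw [hbl g s _ hs, hbr g' s' _ hs']
    exact pair_rel hF (hne g s) (hne g' s')
  · intro g s g' s' _ _ hn
    by_contra h
    obtain ⟨σ, τ, h1, h2, h3⟩ := pair_ne F h
    refine h3 (hH.top _ _ ?_)
    rw [List.length_map, List.length_map, qc_len e _ _ _ _ h1, qc_len e _ _ _ _ h2]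
    omega
  · show pair F (qc e 0 1 ∅) (qc e 0 1 ∅) = 1
    unfold qc pair
    rw [lin_single, lin_single]
    exact hH.one (f 1)
  · -- the shapes
    let T : Finset (List A) := univ.biUnion fun s : Finset W => (qc e s.card 1 s).support
    have hT : ∀ (g : A) (s : Finset W) (σ : List A), qc e s.card g s σ ≠ 0 →
        ∃ τ ∈ T, σ = τ.map (g * ·) := by
      intro g s σ h
      have h1 : qc e s.card g s = (qc e s.card 1 s).mapDomain (List.map (g * ·)) := by
        rw [← qc_smul, mul_one]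
      rw [h1] at h
      have h2 := Finsupp.mapDomain_support (Finsupp.mem_support_iff.2 h)
      obtain ⟨τ, hτ, rfl⟩ := mem_image.1 h2
      exact ⟨τ, mem_biUnion.2 ⟨s, mem_univ s, hτ⟩, rfl⟩
    have hfin : (⋃ τ ∈ T, {l : List Λ | ∃ g : A, τ.map (fun a => (f g)⁻¹ * f (g * a)) = l}).Finite :=
      T.finite_toSet.biUnion fun τ _ => fin_shapes hf τ
    obtain ⟨E, hE⟩ := hH.fin hfin.toFinset
    refine ⟨(hf.prop_fin (E := (E : Set Λ)) E.finite_toSet).toFinset, fun g s g' s' _ _ h => ?_⟩
    rw [Set.Finite.mem_toFinset]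
    refine ⟨g, ?_⟩
    rw [mul_inv_cancel_left]
    obtain ⟨σ, σ', h1, h2, h3⟩ := pair_ne F h
    obtain ⟨τ, hτ, rfl⟩ := hT g s σ h1
    obtain ⟨τ', hτ', rfl⟩ := hT g' s' σ' h2
    have key : ∀ (k : A) (t : List A), (t.map (k * ·)).map f =
        (t.map (fun a => (f k)⁻¹ * f (k * a))).map (f k * ·) := by
      intro k t
      rw [List.map_map, List.map_map]
      refine List.map_congr_left fun a _ => ?_
      show f (k * a) = f k * ((f k)⁻¹ * f (k * a))
      rw [mul_inv_cancel_left]
    have h4 : H ((τ.map (fun a => (f g)⁻¹ * f (g * a))).map (f g * ·))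
        ((τ'.map (fun a => (f g')⁻¹ * f (g' * a))).map (f g' * ·)) ≠ 0 := by
      rw [← key, ← key]
      exact h3
    refine hE _ ?_ _ ?_ _ _ h4
    · rw [Set.Finite.mem_toFinset]
      exact Set.mem_biUnion hτ ⟨g, rfl⟩
    · rw [Set.Finite.mem_toFinset]
      exact Set.mem_biUnion hτ' ⟨g', rfl⟩

end

end Pool.Agent.H45.DA

end

section

/-!
# Project AB: the main theorem, abstract form

PROOF: as `hz_of_inter` in BU/Main.
-/

set_option autoImplicit false

open Finset

namespace Pool.Agent.H65.AB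

open Pool.Agent.H65.RA Pool.Agent.H65.RM Pool.Agent.H85.VK Pool.Agent.H65.BU

/-- **The main theorem, from intersection numbers.** -/
theorem hz_of_interZ {V W A : Type} [Fintype V] [DecidableEq V] [Group W] [Group A]
    {M : CoxeterMatrix V} {G : SimpleGraph V} (hM : RA G M) (cs : CoxeterSystem M W) (FF : Finset V)
    (p : V × Bool → A) (hp : ∀ x y, (oct G).Adj x y → p x * p y = p y * p x)
    (hsep : ∀ (pr : W → V → ZMod 2) (g : (V → Bool) → W → A), Apts cs pr p g → SepZ G cs FF p g)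
    {n k : ℕ} {H : A → Finset (V × Bool) → A → Finset (V × Bool) → ZMod 2}
    (hH : Inter (oct G) p n H) (hn : n ≤ 2 * k + 1) : HZ G (k + 1) := by
  have hF := facts_of_ra hM cs
  obtain ⟨pr, g, hg⟩ := exists_apts hM cs p hp
  obtain ⟨φ, hφ1, hφ2, hφ3, hφ4⟩ := exists_hhZ hM hF hg hp (hsep pr g hg) hH
  refine Pool.Agent.H75.Oct.hz_of_pairing G (k + 1) fun x z hx hz hdz => ?_
  let e : V → ℕ := fun v => (Fintype.equivFin V v : ℕ)
  have he : Function.Injective e := fun a b hab =>
    (Fintype.equivFin V).injective (Fin.ext hab)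
  have hν := nu_inj he
  have hD1 : ∀ c c', OkF G cs FF pr c c' →
      dlF cs FF (fun c c' => φ c c' + AA (nu e) c c') c c' =
      (φ c c' + AA (nu e) c c') + (φ c' c + AA (nu e) c' c) := by
    intro c c' h
    have h0 : ∀ (P : Prop) [Decidable P] (x y : ZMod 2), (if P then x + y else 0) =
        (if P then x else 0) + (if P then y else 0) := by
      intro P _ x y
      split_ifs
      · rfl
      · rw [add_zero]
    have h1 : dlF cs FF (fun c c' => φ c c' + AA (nu e) c c') c c' =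
        dlF cs FF φ c c' + dlF cs FF (AA (nu e)) c c' := by
      unfold dlF
      simp only [h0, sum_add_distrib]
      ring
    rw [h1, hφ1 c c' h, AA_relF hF hg hν c c' h]
    ring
  have hD2 : φ (b0 V W) (b0 V W) + AA (nu e) (b0 V W) (b0 V W) = 0 := by
    rw [hφ2, AA_b0]
    decide
  have hD3 : FinSupp (fun c c' : Cub V W => φ c c' + AA (nu e) c c') := by
    refine (hφ4.union (AA_fin (nu e))).subset ?_
    rintro q ⟨s, a, t, b, h⟩
    by_cases h1 : φ (q.1, s, a) (q.2, t, b) = 0
    · refine Or.inr ⟨s, a, t, b, fun h2 => h ?_⟩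
      beta_reduce
      rw [h1, h2, add_zero]
    · exact Or.inl ⟨s, a, t, b, h1⟩
  obtain ⟨d, d', hd, hd', hdd⟩ := exists_halfF hF hg _ hD1 hD2 hD3 (2 * k + 2)
  have key : ∀ s t : Finset V, z s ≠ 0 → z t ≠ 0 → Ps G e x k (eP (nu e)) s t =
      (∑ v ∈ s, KKF G cs FF pr e x k d (s.erase v) t +
        ∑ v ∈ t, KKF G cs FF pr e x k d s (t.erase v)) +
      (KKF G cs FF pr e x k d' s t + KKF G cs FF pr e x k d' t s) := by
    intro s t hs ht
    obtain ⟨h1, h2⟩ := hz s hs
    obtain ⟨h3, h4⟩ := hz t ht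
    have hd'' : FinSupp (fun c c' : Cub V W => d' c' c) := by
      refine (hd'.image Prod.swap).subset ?_
      rintro q ⟨s, a, t, b, h⟩
      exact ⟨q.swap, ⟨t, b, s, a, h⟩, Prod.swap_swap q⟩
    have hds : FinSupp (fun c c' : Cub V W => d' c c' + d' c' c) := by
      refine (hd'.union hd'').subset ?_
      rintro q ⟨s, a, t, b, h⟩
      by_cases h1 : d' (q.1, s, a) (q.2, t, b) = 0
      · refine Or.inr ⟨s, a, t, b, fun h2 => h ?_⟩
        beta_reduce at h2 ⊢
        rw [h1, h2, add_zero]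
      · exact Or.inl ⟨s, a, t, b, h1⟩
    rw [← KKF_AA (FF := FF) hg (nu e) s t, ← KKF_dl hF hg he hx hd h1 h3,
      ← KKF_swap he hx d' s t, ← KKF_add hd' hd'' s t, ← KKF_add (finSupp_dlF hd) hds s t]
    refine KKF_congr h1 h3 fun w w' a b hok => ?_
    have h5 := hdd _ _ hok (by
      show s.card + t.card = 2 * k + 2
      omega)
    have h6 : φ (w, s, a) (w', t, b) = 0 := hφ3 _ _ (by
      show n < s.card + t.card
      omega)
    beta_reduce at h5
    rw [h6, zero_add] at h5
    exact h5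
  have h7 := pair_ev he hx z hz
  have h8 : ∑ s : Finset V, ∑ t : Finset V, z s * z t * Ps G e x k (eP (nu e)) s t =
      ∑ s : Finset V, ∑ t : Finset V, z s * z t *
      ((∑ v ∈ s, KKF G cs FF pr e x k d (s.erase v) t +
        ∑ v ∈ t, KKF G cs FF pr e x k d s (t.erase v)) +
      (KKF G cs FF pr e x k d' s t + KKF G cs FF pr e x k d' t s)) := by
    refine sum_congr rfl fun s _ => sum_congr rfl fun t _ => ?_
    by_cases hs : z s = 0
    · rw [hs, zero_mul, zero_mul, zero_mul]
    · by_cases ht : z t = 0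
      · rw [ht, mul_zero, zero_mul, zero_mul]
      · rw [key s t hs ht]
  rw [← h7, h8]
  exact double_sum z hdz (fun s t => KKF G cs FF pr e x k d s t)
    fun s t => KKF G cs FF pr e x k d' s t

end Pool.Agent.H65.AB

end

section

/-!
# Project AB: separation

PROOF. `sep_w`: finitely many `(w, w')`. `exps`: `|± m' X ∓ m X| ≤ N`. `sep_blocked` for `E` and (by symmetry) for `E⁻¹`: `m X` is
bounded if `s_X` does not commute with `w`, `m' X` is bounded if `s_X` does not commute with `w'`; with `exps` both are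
bounded. If `s_X` commutes with both: if `m X = 0` or `m' X = 0` use `exps`; otherwise the signs are different (`Opp.free`)
and `m X + m' X ≤ N`. So all exponents are bounded.
-/

set_option autoImplicit false
set_option linter.unusedSectionVars false

open Finset

namespace Pool.Agent.H65.AB

open H42.NU Pool.Agent.H4.FC Pool.Agent.H78.RC Pool.Agent.H93.AA Pool.Agent.H65.RA
open Pool.Agent.H65.BU (RA Apts)

variable {S : Type} [Fintype S] [DecidableEq S] {M : CoxeterMatrix S} {F : Finset S}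
  {Γ : S → Type} [∀ v, Group (Γ v)] {W : Type} [Group W] [Fintype (Irr M)]
  {M' : CoxeterMatrix (Irr M)} {cs : CoxeterSystem M' W}
  {q : ∀ v, Bool → Γ v} {pr : W → Irr M → ZMod 2} {g : (Irr M → Bool) → W → AG M F Γ}

/-- the signs of two positions with the roles exchanged -/
theorem Opp.symm {V W : Type} [Fintype V] [DecidableEq V] [Group W] {M : CoxeterMatrix V}
    {cs : CoxeterSystem M W} {w w' : W} {m m' : V → ℕ} {a b : V → Bool}
    (h : Opp cs w w' m m' a b) : Opp cs w' w m' m b a :=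
  ⟨fun v h1 h2 h3 => h.fst v h2 h1 h3.symm, fun z h1 h2 h3 h4 h5 => h.free z h2 h1 h4 h3 h5.symm,
    h.right, h.left⟩

/-- **Separation.** -/
theorem sepZ_ab (hM : Mix M F) (hM' : RA (nG M) M') (h1 : ∀ v ∈ F, ∀ b, q v b ≠ 1)
    (h2 : ∀ v ∈ F, q v true ≠ q v false) (hg : Apts cs pr (pA M F q) g) :
    SepZ (nG M) cs (lF M F) (pA M F q) g := by
  classical
  intro E
  have hW := sep_w hM hM' h1 h2 hg E
  obtain ⟨N, hN⟩ := exps hM hg E
  choose N1 hN1 using sep_blocked hM hM' h1 h2 hg E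
  choose N2 hN2 using sep_blocked hM hM' h1 h2 hg (E.image fun x => x⁻¹)
  let B : Irr M → ℕ := fun X => N1 X + N2 X + N.natAbs
  have hfin : {m : Irr M → ℕ | ∀ X, m X ∈ Set.Iic (B X)}.Finite :=
    Set.Finite.pi' fun X => Set.finite_Iic (B X)
  refine ((hW.prod (hfin.prod hfin)).image fun k : (W × W) × ((Irr M → ℕ) × (Irr M → ℕ)) =>
    ((k.1.1, k.2.1), (k.1.2, k.2.2))).subset ?_
  rintro ⟨⟨w, m⟩, w', m'⟩ ⟨hw, hw', hm, hm', a, b, hab, hx⟩
  simp only at hw hw' hm hm' hab hx
  have hx' : (g b w' * zp (pA M F q) b m')⁻¹ * (g a w * zp (pA M F q) a m) ∈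
      E.image fun x => x⁻¹ := by
    refine mem_image.2 ⟨_, hx, ?_⟩
    rw [mul_inv_rev, inv_inv]
  have hb : ∀ X, m X ≤ B X ∧ m' X ≤ B X := by
    intro X
    have h3 := hN w w' m m' a b hw hw' hm hm' hx X
    rw [abs_le] at h3
    have h4 : (m' X : ℤ) ≤ m X + N ∧ (m X : ℤ) ≤ m' X + N := by
      cases hbX : b X <;> cases haX : a X <;> rw [hbX, haX] at h3 <;> unfold sz at h3 <;>
        simp at h3 <;> omega
    have hNn : N ≤ N.natAbs := Int.le_natAbs
    show m X ≤ N1 X + N2 X + N.natAbs ∧ m' X ≤ N1 X + N2 X + N.natAbs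
    by_cases c1 : cs.simple X * w = w * cs.simple X
    · by_cases c2 : cs.simple X * w' = w' * cs.simple X
      · by_cases hmX : m X = 0
        · omega
        · by_cases hmX' : m' X = 0
          · omega
          · have h5 := hab.free X hmX hmX' c1 c2
            cases hbX : b X <;> cases haX : a X <;> rw [hbX, haX] at h3 h5 <;>
              unfold sz at h3 <;> simp at h3 h5 <;> omega
      · have h5 := hN2 X w' w m' m b a hw' hw hm' hm hab.symm hx' c2
        omega
    · have h5 := hN1 X w w' m m' a b hw hw' hm hm' hab hx c1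
      omega
  exact ⟨((w, w'), (m, m')), ⟨⟨hw, hw', m, m', a, b, hm, hm', hab, hx⟩,
    fun X => (hb X).1, fun X => (hb X).2⟩, rfl⟩

end Pool.Agent.H65.AB

end

section

/-!
# Project AB: the operators of the Artin directions

`φ : BG M →* A` is a homomorphism of the Artin group; `tS φ T J` is the operator of the image of `β_{T,J}`.
-/

set_option autoImplicit false
set_option linter.unusedSectionVars false

open Finset

namespace Pool.Agent.H93.AB

open Pool.Agent.H4.FC Pool.Agent.H78.RC Pool.Agent.H78.RA Pool.Agent.H4.Atiyah H42.NU Pool.Agent.H93.AA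

variable {S : Type} [Fintype S] [DecidableEq S] {M : CoxeterMatrix S} {A : Type} [Group A]

/-- the homomorphism of the group rings -/
noncomputable def Ph (φ : BG M →* A) : MonoidAlgebra ℂ (BG M) →ₐ[ℂ] MonoidAlgebra ℂ A :=
  MonoidAlgebra.lift ℂ (MonoidAlgebra ℂ A) (BG M) ((MonoidAlgebra.of ℂ A).comp φ)

theorem Ph_of (φ : BG M →* A) (g : BG M) :
    Ph φ (MonoidAlgebra.of ℂ (BG M) g) = MonoidAlgebra.of ℂ A (φ g) := by
  unfold Ph
  rw [MonoidAlgebra.lift_of]
  rfl

/-- the operator of the image of `β_{T,J}` -/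
noncomputable def tS (φ : BG M →* A) (T J : Finset S) : BB A := Rop (Ph φ (bC M T J))

theorem Rop_smul' (c : ℂ) (a : MonoidAlgebra ℂ A) : Rop (c • a) = c • Rop a := by
  unfold Rop
  rw [map_smul]
  rfl

theorem Rop_of (g : A) (x : LL Unit A) (h : A) :
    Rop (MonoidAlgebra.of ℂ A g) x ((), h) = x ((), h * g⁻¹) := by
  rw [Rop_apply, MonoidAlgebra.of_apply, MonoidAlgebra.coeff_single,
    Finsupp.sum_single_index (zero_mul _), one_mul]

theorem eqv_tS (φ : BG M →* A) (T J : Finset S) : Eqv (tS φ T J) := eqv_Rop _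

theorem tS_apply (φ : BG M →* A) (T J : Finset S) (x : LL Unit A) (g : A) :
    ev g (tS φ T J x) = ∑ w ∈ mn M T J, (-1 : ℂ) ^ M.toCoxeterSystem.length w *
      ev (g * (φ (lft M w))⁻¹) x := by
  unfold tS
  rw [bC_eq, map_sum, Rop_sum, _root_.sum_apply, map_sum]
  refine sum_congr rfl fun w _ => ?_
  rw [map_smul, Rop_smul', Ph_of]
  show ((-1 : ℂ) ^ M.toCoxeterSystem.length w • Rop (MonoidAlgebra.of ℂ A (φ (lft M w))) x :
    LL Unit A) ((), g) = _
  rw [lp_smul_apply, Rop_of]
  rfl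

theorem tS_self (φ : BG M →* A) {T : Finset S} (hT : Sph M T) : tS φ T T = 1 := by
  unfold tS
  rw [bC_self M hT, map_one]
  unfold Rop
  rw [map_one]
  rfl

theorem tS_mul (φ : BG M →* A) {T J I : Finset S} (hT : Sph M T) (hJ : J ⊆ T) (hI : I ⊆ J) :
    tS φ T I = tS φ J I * tS φ T J := by
  unfold tS
  rw [← Rop_mul, ← map_mul, bC_mul M hT hJ hI]

/-- the operators `β_{σ,∅}` are injective -/
theorem tS_inj (φ : BG M →* A) (σ : Finset S) (hσ : Sph M σ)
    (hord : ∀ T ⊆ σ, T.Nonempty → ∀ n : ℕ, 0 < n → φ (dlt M T) ^ n ≠ 1) (x : LL Unit A)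
    (hx : tS φ σ ∅ x = 0) : x = 0 := by
  classical
  induction σ using Finset.strongInduction generalizing x with
  | H σ ih =>
    have h1 : ∀ J ∈ σ.powerset, J ≠ σ → tS φ σ J x = 0 := by
      intro J hJ hne
      have hJ' : J ⊆ σ := Finset.mem_powerset.1 hJ
      apply ih J (lt_of_le_of_ne hJ' hne) (hσ.mono hJ') (fun T hT => hord T (hT.trans hJ'))
      rw [tS_mul φ hσ hJ' (Finset.empty_subset J)] at hx
      exact hx
    have h2 : (∑ J ∈ σ.powerset, (-1 : ℤ) ^ J.card • tS φ σ J) x =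
        ((-1 : ℤ) ^ M.toCoxeterSystem.length (lw M σ) •
          Rop (MonoidAlgebra.of ℂ A (φ (dlt M σ)))) x := by
      have h3 := congrArg (fun a => Rop (Ph φ a)) (bC_alt M hσ)
      simp only [map_sum, map_zsmul, Rop_sum, Rop_zsmul, Ph_of] at h3
      have h4 := congrArg (fun B : BB A => B x) h3
      exact h4
    rw [_root_.sum_apply, Finset.sum_eq_single σ] at h2
    · rw [tS_self φ hσ] at h2
      have h4 : ∀ g, ‖x ((), g * (φ (dlt M σ))⁻¹)‖ = ‖x ((), g)‖ := by
        intro g
        have h5 : ‖ev g (((-1 : ℤ) ^ σ.card • (1 : BB A)) x)‖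
            = ‖ev g (((-1 : ℤ) ^ M.toCoxeterSystem.length (lw M σ) •
            Rop (MonoidAlgebra.of ℂ A (φ (dlt M σ)))) x)‖ := by rw [h2]
        have h6 : ev g (((-1 : ℤ) ^ σ.card • (1 : BB A)) x)
            = (((-1 : ℤ) ^ σ.card : ℤ) : ℂ) * x ((), g) := by
          show ev g ((-1 : ℤ) ^ σ.card • x) = _
          rw [ev_smul]
          rfl
        have h7 : ev g (((-1 : ℤ) ^ M.toCoxeterSystem.length (lw M σ) •
            Rop (MonoidAlgebra.of ℂ A (φ (dlt M σ)))) x)
            = (((-1 : ℤ) ^ M.toCoxeterSystem.length (lw M σ) : ℤ) : ℂ)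
              * x ((), g * (φ (dlt M σ))⁻¹) := by
          show ev g ((-1 : ℤ) ^ M.toCoxeterSystem.length (lw M σ) •
            Rop (MonoidAlgebra.of ℂ A (φ (dlt M σ))) x) = _
          rw [ev_smul]
          congr 1
          exact Rop_of _ x g
        rw [h6, h7, norm_mul, norm_mul] at h5
        simpa using h5.symm
      rcases σ.eq_empty_or_nonempty with he | hne
      · subst he
        rw [tS_self φ hσ] at hx
        exact hx
      · have h8 := zero_of_norm (φ (dlt M σ)) (hord σ (Subset.refl σ) hne) (fun g => x ((), g)) (by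
          have h9 : Summable fun p : Unit × A => ‖x p‖ ^ 2 := (memlp_iff _).1 (lp.memℓp _)
          exact h9.comp_injective (i := fun g : A => ((), g))
            (fun a b h => (Prod.ext_iff.1 h).2)) h4
        apply ev_ext
        intro g
        exact congrFun h8 g
    · intro J hJ hne
      show (-1 : ℤ) ^ J.card • tS φ σ J x = 0
      rw [h1 J hJ hne, smul_zero]
    · intro h
      exact absurd (Finset.mem_powerset_self σ) h

/-- the operators `β_{T,J}` commute with the translations by elements which commute with the generators in `T` -/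
theorem Rt_tS (φ : BG M →* A) {T J : Finset S} (k : A)
    (hk : ∀ w ∈ mn M T J, φ (lft M w) * k = k * φ (lft M w)) (x : LL Unit A) :
    Rt k (tS φ T J x) = tS φ T J (Rt k x) := by
  apply ev_ext
  intro g
  rw [tS_apply]
  show (Rt k (tS φ T J x)) ((), g) = _
  rw [Rt_apply]
  show ev (g * k) (tS φ T J x) = _
  rw [tS_apply]
  refine sum_congr rfl fun w hw => ?_
  congr 1
  show x ((), g * k * (φ (lft M w))⁻¹) = Rt k x ((), g * (φ (lft M w))⁻¹)
  rw [Rt_apply]
  have h1 : k * (φ (lft M w))⁻¹ = (φ (lft M w))⁻¹ * k := by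
    rw [mul_inv_eq_iff_eq_mul, mul_assoc, ← hk w hw, inv_mul_cancel_left]
  rw [mul_assoc, h1, ← mul_assoc]

end Pool.Agent.H93.AB

end

section

/-!
# Project AB: the reduced `ℓ²`-homology of the complex

PROOF. `approx_ab` (H93/AB/Apx) for the letters `S`, the finite letters `v ∈ F`, `Γ v` finite, the spherical sets, the operators
`N τ v = 1` (`v ∈ F`), `N τ v` = the operator of `β_{T ∪ v, T}`, `T = τ \ F` (`v ∉ F`), `α τ` = the operator of `β_{T,∅}`.
-/

set_option autoImplicit false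
set_option linter.unusedSectionVars false

open Finset

namespace Pool.Agent.H65.AB

open H42.NU Pool.Agent.H4.FC Pool.Agent.H78.RC Pool.Agent.H93.AA Pool.Agent.H93.AB
open Pool.Agent.H73.LK (sub)
open Pool.Agent.H4.Atiyah (LL memlp_iff)
open Pool.Agent.H78.RA (BB ev ev_ext ev_smul Ex Eqv sg)
open Pool.Agent.H3.MX (Kop Kop_apply)

section pre

variable {S : Type} [Fintype S] [DecidableEq S] {M : CoxeterMatrix S} {F : Finset S}
  {Γ : S → Type} [∀ v, Group (Γ v)]

open Classical in
/-- the elements of the finite vertex groups -/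
private noncomputable def kf (F : Finset S) (Γ : S → Type) [∀ v, Group (Γ v)]
    (M : CoxeterMatrix S) (v : S) : Multiset (AG M F Γ) :=
  if h : v ∈ F ∧ Finite (Γ v) then
    (@Finset.univ (Γ v) (@Fintype.ofFinite _ h.2)).val.map (io M F v) else 0

private theorem kf_sum {v : S} (h : v ∈ F) (hv : Finite (Γ v)) (f : AG M F Γ → ℂ)
    (g : AG M F Γ) :
    ((kf F Γ M v).map fun a => f (g * a)).sum = ∑ᶠ x : Γ v, f (g * io M F v x) := by
  let _ : Fintype (Γ v) := Fintype.ofFinite _
  unfold kf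
  rw [dif_pos ⟨h, hv⟩, Multiset.map_map, finsum_eq_sum_of_fintype]
  rfl

private theorem kf_neg {v : S} (h : ¬ (v ∈ F ∧ Finite (Γ v))) : kf F Γ M v = 0 :=
  dif_neg h

private theorem mem_kf {v : S} {k : AG M F Γ} (hk : k ∈ kf F Γ M v) :
    (v ∈ F ∧ Finite (Γ v)) ∧ ∃ a : Γ v, io M F v a = k := by
  by_cases h : v ∈ F ∧ Finite (Γ v)
  · unfold kf at hk
    rw [dif_pos h] at hk
    obtain ⟨a, -, ha⟩ := Multiset.mem_map.1 hk
    exact ⟨h, a, ha⟩
  · rw [kf_neg h] at hk
    exact absurd hk (Multiset.notMem_zero k)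

private theorem kf_grp (v : S) (k : AG M F Γ) (hk : k ∈ kf F Γ M v) :
    (kf F Γ M v).map (fun l => k * l) = kf F Γ M v := by
  obtain ⟨h, a, rfl⟩ := mem_kf hk
  have := h.2
  let _ : Fintype (Γ v) := Fintype.ofFinite _
  have h0 : kf F Γ M v = (Finset.univ : Finset (Γ v)).val.map (io M F v) := by
    unfold kf
    rw [dif_pos h]
  rw [h0, Multiset.map_map]
  have h1 : ((Finset.univ : Finset (Γ v)).map (Equiv.mulLeft a).toEmbedding).val.map (io M F v) =
      (Finset.univ : Finset (Γ v)).val.map (io M F v) := by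
    rw [Finset.map_univ_equiv]
  rw [← h1, Finset.map_val, Multiset.map_map]
  refine Multiset.map_congr rfl fun x _ => ?_
  show io M F v a * io M F v x = io M F v (a * x)
  rw [map_mul]

/-- two elements of a spherical set, one of them in `F` -/
private theorem two_of_sph (hM : Mix M F) {σ : Finset S} (hσ : Sph M σ) {v s : S} (hv : v ∈ σ)
    (hs : s ∈ σ) (hvs : v ≠ s) (hvF : v ∈ F) : M v s = 2 := by
  rcases hM.two v hvF s (Ne.symm hvs) with h | h
  · exact h
  · exact absurd h (sph_cl M σ hσ v hv s hs hvs).2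

private theorem kf_com (hM : Mix M F) (y z : S) (hyz : y ≠ z)
    (hs : Sph M {y, z}) (k : AG M F Γ) (hk : k ∈ kf F Γ M y) (l : AG M F Γ)
    (hl : l ∈ kf F Γ M z) : k * l = l * k := by
  obtain ⟨hy, a, rfl⟩ := mem_kf hk
  obtain ⟨-, b, rfl⟩ := mem_kf hl
  exact io_io (two_of_sph hM hs (mem_insert_self _ _)
    (mem_insert_of_mem (mem_singleton_self _)) hyz hy.1) a b

/-- the cells with an infinite stabilizer carry no chains -/
private theorem fin_of_chain {i : ℕ} {c : Finset S → Finset S → AG M F Γ → ℂ}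
    (hc : IsChainAG M F Γ i c) {Q R : Finset S} {g : AG M F Γ} (h : c Q R g ≠ 0) {v : S}
    (hv : v ∈ Q) : v ∈ F ∧ Finite (Γ v) := by
  have hvF := (hc.supp Q R g h).1 hv
  refine ⟨hvF, ?_⟩
  by_contra hinf
  have hinf' : Infinite (Γ v) := not_finite_iff_infinite.1 hinf
  have h1 : Function.Injective fun x : Γ v => g * io M F v x := by
    intro x y hxy
    have h2 := congrArg (pj M F v) (mul_left_cancel hxy)
    rwa [pj_same hvF, pj_same hvF] at h2
  have h2 := (hc.l2 Q R).comp_injective h1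
  have h3 : ((fun g => ‖c Q R g‖ ^ 2) ∘ fun x : Γ v => g * io M F v x) =
      fun _ => ‖c Q R g‖ ^ 2 := by
    funext x
    show ‖c Q R (g * io M F v x)‖ ^ 2 = _
    rw [hc.inv Q R v hv x g]
  rw [h3] at h2
  have h4 := (summable_const_iff _).1 h2
  exact h (norm_eq_zero.1 (pow_eq_zero_iff (two_ne_zero) |>.1 h4))

/-- the lifts of the elements of a parabolic subgroup commute with the orthogonal groups -/
private theorem lft_io {T : Finset S} {z : S} (hT : ∀ s ∈ T, M s z = 2) (a : Γ z) {w : M.Group}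
    (hw : w ∈ par M T) : th M F Γ (lft M w) * io M F z a = io M F z a * th M F Γ (lft M w) := by
  have h2 : lft M w ∈ (Subgroup.centralizer {io M F z a}).comap (th M F Γ) := by
    refine (Subgroup.closure_le _).2 ?_ (lft_mem_gp M hw)
    rintro x ⟨s, hs, rfl⟩
    show th M F Γ (bgen M s) ∈ Subgroup.centralizer {io M F z a}
    rw [Subgroup.mem_centralizer_iff]
    intro y hy
    rw [Set.mem_singleton_iff.1 hy]
    exact (th_io (hT s hs) a).symm
  have h3 : th M F Γ (lft M w) ∈ Subgroup.centralizer {io M F z a} := h2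
  rw [Subgroup.mem_centralizer_iff] at h3
  exact (h3 _ rfl).symm

/-- the elements `Δ_T` have infinite order -/
private theorem ord_th (hM : Mix M F) {T : Finset S} (hT : Sph M T) (hTF : Disjoint T F)
    (hne : T.Nonempty) (n : ℕ) (hn : 0 < n) : th M F Γ (dlt M T) ^ n ≠ 1 := by
  intro h
  obtain ⟨r, hr, -⟩ := exists_ret hM Γ
  have h1 : r (th M F Γ (dlt M T)) = dlt M T := by
    have h2 : Set.EqOn (r.comp (th M F Γ)) (MonoidHom.id (BG M))
        (Subgroup.closure {x : BG M | ∃ s ∈ T, x = bgen M s}) := by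
      refine MonoidHom.eqOn_closure ?_
      rintro x ⟨s, hs, rfl⟩
      exact hr s fun hsF => disjoint_left.1 hTF hs hsF
    exact h2 (lft_mem_gp M (lw_spec M hT).1)
  have h3 := congrArg r h
  rw [map_pow, h1, map_one] at h3
  exact dlt_order M hT hne n hn h3

/-- the links -/
private theorem ex_lk (hM : Mix M F) {i : ℕ} (hG : ∀ T ⊆ F, Orth M T → HL (sub M (nb M T)) i)
    {ν : S → ℕ} (hν : Function.Injective ν) (Q : Finset S) (hQ : ∀ y ∈ Q, y ∈ F) (hQs : Sph M Q) :
    Ex ℂ ν (fun σ => Disjoint Q σ ∧ Sph M (Q ∪ σ) ∧ σ.card = i)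
      (fun σ => Disjoint Q σ ∧ Sph M (Q ∪ σ) ∧ σ.card = i + 1) := by
  have horth : Orth M Q := fun u hu v hv huv => two_of_sph hM hQs hu hv huv (hQ u hu)
  have hiff : ∀ j σ, (Disjoint Q σ ∧ Sph M (Q ∪ σ) ∧ σ.card = j) ↔
      (Sph M σ ∧ σ.card = j ∧ σ ⊆ nb M Q) := by
    intro j σ
    constructor
    · rintro ⟨h1, h2, h3⟩
      refine ⟨h2.mono subset_union_right, h3, fun s hs => ?_⟩
      rw [mem_nb]
      intro v hv
      exact two_of_sph hM h2 (mem_union_left _ hv) (mem_union_right _ hs)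
        (fun h => disjoint_left.1 h1 hv (h ▸ hs)) (hQ v hv)
    · rintro ⟨h1, h2, h3⟩
      refine ⟨?_, sph_union M hQs h1 fun j hj k hk => (mem_nb.1 (h3 hk)) j hj, h2⟩
      rw [disjoint_left]
      intro s hs hsσ
      have h4 := (mem_nb.1 (h3 hsσ)) s hs
      rw [M.diagonal] at h4
      exact absurd h4 (by norm_num)
  have h1 := ex_sub (nb M Q) (hG Q (fun y hy => hQ y hy) horth) ν hν
  intro z hz1 hz2
  obtain ⟨y, hy1, hy2⟩ := h1 z (fun σ hσ => (hiff i σ).1 (hz1 σ hσ)) hz2
  exact ⟨y, fun σ hσ => (hiff (i + 1) σ).2 (hy1 σ hσ), hy2⟩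

private theorem sg_cast' (ν : S → ℕ) (T : Finset S) (v : S) :
    ((sg ν T v : ℤ) : ℂ) = (-1) ^ (T.filter fun u => ν u < ν v).card := by
  unfold sg
  push_cast
  rfl

end pre

section main

variable {S : Type} [Fintype S] {M : CoxeterMatrix S} {F : Finset S} {Γ : S → Type}
  [∀ v, Group (Γ v)]

open Classical in
/-- the operators of the directions -/
private noncomputable def nA (M : CoxeterMatrix S) (F : Finset S) (Γ : S → Type)
    [∀ v, Group (Γ v)] (τ : Finset S) (v : S) : BB (AG M F Γ) :=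
  if v ∈ F then 1 else tS (th M F Γ) (insert v (τ \ F)) (τ \ F)

open Classical in
/-- the comparison operators -/
private noncomputable def alA (M : CoxeterMatrix S) (F : Finset S) (Γ : S → Type)
    [∀ v, Group (Γ v)] (τ : Finset S) : BB (AG M F Γ) := tS (th M F Γ) (τ \ F) ∅

open Classical in
/-- the boundary of functions and of elements of `ℓ²` -/
private theorem ev_dF (ν : S → ℕ)
    (f : Finset S × Finset S → LL Unit (AG M F Γ)) (hf : ∀ p, f p ≠ 0 → ∀ y ∈ p.1, y ∈ F)
    (Q R : Finset S) (g : AG M F Γ) :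
    ev g (dF ν (fun y => Kop (kf F Γ M y)) (nA M F Γ) f (Q, R)) =
      -bdAG M F Γ ν (fun Q R g => ev g (f (Q, R))) Q R g := by
  unfold dF bdAG
  rw [map_sum, ← sum_neg_distrib]
  refine sum_congr rfl fun v hv => ?_
  rw [ev_smul, sg_cast', ← mul_neg]
  congr 1
  unfold Ty fc
  beta_reduce
  by_cases hvF : v ∈ F
  · rw [if_pos hvF]
    by_cases hvQ : v ∈ Q
    · rw [if_pos hvQ, if_pos hvQ]
      by_cases hfin : Finite (Γ v)
      · rw [if_pos hfin]
        have h := kf_sum (M := M) hvF hfin (fun a => ev a (f (Q.erase v, insert v R))) g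
        show ev g (-(Kop (kf F Γ M v) (f (Q.erase v, insert v R)))) =
          -(∑ᶠ a : Γ v, ev (g * io M F v a) (f (Q.erase v, insert v R)))
        rw [map_neg, ← h]
        congr 1
        exact Kop_apply _ _ _
      · rw [if_neg hfin, kf_neg fun h => hfin h.2, Pool.Agent.H3.MX.Kop_zero, neg_zero, neg_zero]
        exact map_zero _
    · rw [if_neg hvQ, if_neg hvQ, neg_neg, erase_eq_of_notMem hvQ]
      unfold nA
      rw [if_pos hvF]
      rfl
  · rw [if_neg hvF]
    by_cases hvQ : v ∈ Q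
    · have h0 : ∀ R', f (Q, R') = 0 := by
        intro R'
        by_contra h
        exact hvF (hf _ h v hvQ)
      rw [if_pos hvQ, kf_neg fun h => hvF h.1, Pool.Agent.H3.MX.Kop_zero, neg_zero]
      unfold bS
      simp only [h0, map_zero, mul_zero, sum_const_zero, neg_zero]
      exact map_zero _
    · rw [if_neg hvQ, neg_neg, erase_eq_of_notMem hvQ]
      unfold nA
      rw [if_neg hvF, tS_apply]
      rfl

open Classical in
private theorem bdAG_neg (ν : S → ℕ) (c : Finset S → Finset S → AG M F Γ → ℂ) (Q R : Finset S)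
    (g : AG M F Γ) :
    bdAG M F Γ ν (fun Q R g => -c Q R g) Q R g = -bdAG M F Γ ν c Q R g := by
  unfold bdAG bS
  rw [← sum_neg_distrib]
  refine sum_congr rfl fun v _ => ?_
  rw [← mul_neg]
  congr 1
  split_ifs
  · exact finsum_neg_distrib _
  · exact neg_zero.symm
  · rfl
  · congr 1
    rw [← sum_neg_distrib]
    exact sum_congr rfl fun w _ => mul_neg _ _

private theorem main [dS : DecidableEq S] (hM : Mix M F) {i : ℕ}
    (hG : ∀ T ⊆ F, Orth M T → HL (sub M (nb M T)) i) : L2ZeroAG M F Γ i := by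
  have hd : dS = fun a b => Classical.propDecidable (a = b) := Subsingleton.elim _ _
  subst hd
  classical
  intro ν hν z hz hb ε hε
  have hK : ∀ σ τ : Finset S, τ ⊆ σ → Sph M σ → Sph M τ := fun σ τ h hσ => hσ.mono h
  have hz2 : IsF2 (Ac (fun v => v ∈ F ∧ Finite (Γ v)) (Sph M) fun n => n = i)
      (fun (p : Finset S × Finset S) (g : AG M F Γ) => z p.1 p.2 g) := by
    refine ⟨fun p g hne => ?_, fun p => hz.l2 p.1 p.2⟩
    obtain ⟨h1, h2, h3, h4⟩ := hz.supp p.1 p.2 g hne
    exact ⟨⟨fun y hy => fin_of_chain hz hne hy, h2, h3⟩, h4⟩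
  -- facts on the operators
  have hNe : ∀ τ y, Eqv (nA M F Γ τ y) := by
    intro τ y
    unfold nA
    split_ifs
    · exact Eqv.one
    · exact eqv_tS _ _ _
  have hN1 : ∀ τ y, y ∈ F ∧ Finite (Γ y) → nA M F Γ τ y = 1 := fun τ y hy => if_pos hy.1
  have hmul : ∀ τ y, y ∉ τ → Sph M (insert y τ) →
      alA M F Γ (insert y τ) = alA M F Γ τ * nA M F Γ τ y := by
    intro τ y _ hs
    unfold alA nA
    by_cases hy : y ∈ F
    · rw [if_pos hy, mul_one, insert_sdiff_of_mem _ hy]
    · rw [if_neg hy, insert_sdiff_of_notMem _ hy]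
      refine tS_mul _ (hs.mono ?_) (subset_insert _ _) (empty_subset _)
      exact insert_subset_insert _ sdiff_subset
  have hinj : ∀ σ, Sph M σ → ∀ x, alA M F Γ σ x = 0 → x = 0 := by
    intro σ hσ x hx
    refine tS_inj _ (σ \ F) (hσ.mono sdiff_subset) (fun T hT hne n hn => ?_) x hx
    exact ord_th hM (hσ.mono (hT.trans sdiff_subset)) (sdiff_disjoint.mono_left hT) hne n hn
  have hRN : ∀ τ y z, y ∉ τ → z ∉ τ → z ≠ y → Sph M (insert z (insert y τ)) →
      ∀ k ∈ kf F Γ M z, ∀ x, Rt k (nA M F Γ τ y x) = nA M F Γ τ y (Rt k x) := by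
    intro τ y z _ hzτ hzy hs k hk x
    obtain ⟨⟨hzF, -⟩, a, rfl⟩ := mem_kf hk
    unfold nA
    by_cases hy : y ∈ F
    · rw [if_pos hy]
      rfl
    · rw [if_neg hy]
      have hT : Sph M (insert y (τ \ F)) := hs.mono
        ((insert_subset_insert _ sdiff_subset).trans (subset_insert _ _))
      refine Rt_tS _ _ (fun w hw => ?_) x
      refine lft_io (T := insert y (τ \ F)) (fun s hsT => ?_) a
        (by rw [par_eq_WP]; exact ((mem_mn hT).1 hw).1)
      rw [M.symmetric]
      have hs2 : s ∈ insert z (insert y τ) := by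
        refine mem_insert_of_mem ?_
        rcases mem_insert.1 hsT with h | h
        · exact h ▸ mem_insert_self _ _
        · exact mem_insert_of_mem (mem_sdiff.1 h).1
      refine two_of_sph hM hs (mem_insert_self _ _) hs2 (fun h => ?_) hzF
      rcases mem_insert.1 hsT with h1 | h1
      · exact hzy (h.trans h1)
      · exact (mem_sdiff.1 h1).2 (h ▸ hzF)
  have hRα : ∀ τ z, z ∉ τ → Sph M (insert z τ) → ∀ k ∈ kf F Γ M z, ∀ x,
      Rt k (alA M F Γ τ x) = alA M F Γ τ (Rt k x) := by
    intro τ z hzτ hs k hk x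
    obtain ⟨⟨hzF, -⟩, a, rfl⟩ := mem_kf hk
    have hT : Sph M (τ \ F) := hs.mono (sdiff_subset.trans (subset_insert _ _))
    refine Rt_tS _ _ (fun w hw => ?_) x
    refine lft_io (T := τ \ F) (fun s hsT => ?_) a
      (by rw [par_eq_WP]; exact ((mem_mn hT).1 hw).1)
    rw [M.symmetric]
    exact two_of_sph hM hs (mem_insert_self _ _) (mem_insert_of_mem (mem_sdiff.1 hsT).1)
      (fun h => (mem_sdiff.1 hsT).2 (h ▸ hzF)) hzF
  have hE0 : ∀ y, ¬ (y ∈ F ∧ Finite (Γ y)) → (Kop (kf F Γ M y) : BB (AG M F Γ)) = 0 :=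
    fun y hy => by rw [kf_neg hy, Pool.Agent.H3.MX.Kop_zero]
  -- the cycle
  have hx : toQ _ hz2 ∈ Xq (kf F Γ M) (Ac (fun v => v ∈ F ∧ Finite (Γ v)) (Sph M) fun n => n = i) := by
    rw [mem_Xq]
    intro p
    rw [mem_VQ]
    intro y hy k hk
    obtain ⟨-, a, rfl⟩ := mem_kf hk
    apply ev_ext
    intro g
    show Rt (io M F y a) (cq _ (toQ _ hz2) p) ((), g) = _
    rw [Rt_apply]
    show ev (g * io M F y a) (cq _ (toQ _ hz2) p) = _
    rw [ev_toQ, ev_toQ]
    exact hz.inv p.1 p.2 y hy a g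
  have hdx : Dq ν (fun y => Kop (kf F Γ M y)) (nA M F Γ)
      (Ac (fun v => v ∈ F ∧ Finite (Γ v)) (Sph M) fun n => n = i)
      (Ac (fun v => v ∈ F ∧ Finite (Γ v)) (Sph M) fun n => n + 1 = i) (toQ _ hz2) = 0 := by
    apply cq_ext
    rintro ⟨Q, R⟩
    rw [cq_Dq (F := fun v => v ∈ F ∧ Finite (Γ v)) (c := fun n => n = i) (c' := fun n => n + 1 = i) hK hE0
      (fun n hn => hn), cq_zero]
    apply ev_ext
    intro g
    rw [ev_dF ν _ (fun p hp y hy => ((cq_supp _ p hp).1.1 y hy).1), map_zero]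
    simp only [ev_toQ]
    rw [hb, neg_zero]
  obtain ⟨y, hy, hlt⟩ := approx_ab hν (F := fun v => v ∈ F ∧ Finite (Γ v)) hK (fun y hy => kf_neg hy)
    (fun v k hk => kf_grp v k hk) (fun y z hyz hs k hk l hl => kf_com hM y z hyz hs k hk l hl)
    (nA M F Γ) (alA M F Γ) hNe (fun _ => eqv_tS _ _ _) hN1 hmul hinj hRN hRα
    (fun Q hQ hQs => ex_lk hM hG hν Q (fun y hy => (hQ y hy).1) hQs) (toQ _ hz2) hx hdx (Real.sqrt ε)
    (Real.sqrt_pos.2 hε)
  refine ⟨fun Q R g => -ev g (cq _ y (Q, R)), ⟨fun Q R g hne => ?_, fun Q R v hv a g => ?_,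
    fun Q R => ?_⟩, ?_⟩
  · have h1 : cq _ y (Q, R) ≠ 0 := by
      intro h0
      apply hne
      rw [h0, map_zero, neg_zero]
    obtain ⟨⟨h2, h3, h4⟩, h5⟩ := cq_supp y _ h1
    exact ⟨fun y hy => (h2 y hy).1, h3, h4, h5⟩
  · congr 1
    have h1 := (mem_VQ.1 (mem_Xq.1 hy (Q, R))) v hv (io M F v a)
    by_cases hvF : v ∈ F ∧ Finite (Γ v)
    · have h2 : io M F v a ∈ kf F Γ M v := by
        unfold kf
        rw [dif_pos hvF]
        exact Multiset.mem_map_of_mem _
          (@Finset.mem_univ_val _ (@Fintype.ofFinite _ hvF.2) a)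
      have h3 := congrArg (ev g) (h1 h2)
      rw [← h3]
      exact (Rt_apply _ _ _).symm
    · have h2 : cq _ y (Q, R) = 0 := by
        by_contra h
        exact hvF ((cq_supp y _ h).1.1 v hv)
      rw [h2, map_zero, map_zero]
  · simp only [norm_neg]
    exact (isF2_cq _ y).l2 (Q, R)
  · have h2 : ∀ Q R g, z Q R g - bdAG M F Γ ν (fun Q R g => -ev g (cq _ y (Q, R))) Q R g =
        ev g (cq (Ac (fun v => v ∈ F ∧ Finite (Γ v)) (Sph M) fun n => n = i) (toQ _ hz2 -
          Dq ν (fun y => Kop (kf F Γ M y)) (nA M F Γ)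
          (Ac (fun v => v ∈ F ∧ Finite (Γ v)) (Sph M) fun n => n = i + 1)
          (Ac (fun v => v ∈ F ∧ Finite (Γ v)) (Sph M) fun n => n = i) y) (Q, R)) := by
      intro Q R g
      rw [cq_sub, map_sub, ev_toQ, cq_Dq (F := fun v => v ∈ F ∧ Finite (Γ v)) (c := fun n => n = i + 1)
        (c' := fun n => n = i) hK hE0 (fun n hn => by
        have : n + 1 = i + 1 := hn
        omega), ev_dF ν _ (fun p hp y hy => ((cq_supp _ p hp).1.1 y hy).1), bdAG_neg]
    simp_rw [h2]
    rw [← Finset.sum_product', Finset.univ_product_univ]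
    rw [norm_sq_cq (Ac (fun v => v ∈ F ∧ Finite (Γ v)) (Sph M) fun n => n = i)]
    calc _ < Real.sqrt ε ^ 2 := by gcongr
      _ = ε := Real.sq_sqrt hε.le

end main

/-- **Theorem L2.** -/
theorem l2zeroAG_of_hl {S : Type} [Fintype S] [DecidableEq S] {M : CoxeterMatrix S} {F : Finset S}
    {Γ : S → Type} [∀ v, Group (Γ v)] (hM : Mix M F) {i : ℕ}
    (hG : ∀ T ⊆ F, Orth M T → HL (sub M (nb M T)) i) : L2ZeroAG M F Γ i :=
  main hM hG

end Pool.Agent.H65.AB

end

section

/-!
# Duality pairs: the nerve of the groups `AG M F Γ`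
-/

set_option autoImplicit false
set_option linter.unusedSectionVars false

open Finset

namespace Pool.Agent.H45.DA

open Pool.Agent.H65.AB
open H42.NU Pool.Agent.H4.FC Pool.Agent.H78.RC Pool.Agent.H93.AA Pool.Agent.H65.RA Pool.Agent.H65.RM Pool.Agent.H37.TM
open Pool.Agent.H73.LK (sub)
open Pool.Agent.H84.RX (InterL)
open Pool.Agent.H10.CI (CoarseEmb)

variable {S : Type} [Fintype S] [DecidableEq S] {M : CoxeterMatrix S} {F : Finset S}
  {Γ : S → Type} [∀ v, Group (Γ v)] {Λ : Type} [Group Λ]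

open Classical in
/-- the elements of the letters in the subgroup `AN` -/
private noncomputable def pN [Fintype (Irr M)] (N : ℕ) (q : ∀ v, Bool → Γ v) (x : Irr M × Bool) :
    AG M F Γ :=
  if x.1 ∈ lF M F then pA M F q x else pA M F q x ^ N

private theorem pN_mem [Fintype (Irr M)] (N : ℕ) (q : ∀ v, Bool → Γ v) (x : Irr M × Bool) :
    pN N q x ∈ AN M F Γ N := by
  obtain ⟨X, b⟩ := x
  unfold pN
  by_cases hX : X ∈ lF M F
  · rw [if_pos hX]
    obtain ⟨v, hv, rfl⟩ := mem_lF.1 hX
    rw [pA_sing q hv]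
    exact Subgroup.subset_closure (Or.inl ⟨v, hv, _, rfl⟩)
  · rw [if_neg hX]
    have h1 : th M F Γ (xg M X) ^ N ∈ AN M F Γ N := Subgroup.subset_closure (Or.inr ⟨X, rfl⟩)
    cases b
    · rw [pA_false q hX, inv_pow]
      exact (AN M F Γ N).inv_mem h1
    · rw [pA_true q hX]
      exact h1

private theorem pN_comm [Fintype (Irr M)] (hM : Mix M F) (N : ℕ) (q : ∀ v, Bool → Γ v)
    (x y : Irr M × Bool) (h : (oct (nG M)).Adj x y) : Commute (pN (F := F) N q x) (pN N q y) := by
  have h1 : Commute (pA M F q x) (pA M F q y) := pA_comm hM q x y h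
  unfold pN
  split_ifs
  · exact h1
  · exact h1.pow_right N
  · exact h1.pow_left N
  · exact h1.pow_pow N N

/-- **The nerves of all full subgroups.** -/
theorem hl_of_cemL (hM : Mix M F) (h3 : ∀ v ∈ F, ∃ x y : Γ v, x ≠ 1 ∧ y ≠ 1 ∧ x ≠ y)
    (hE : CEm M F Γ Λ) {n k : ℕ} {HL' : List Λ → List Λ → ZMod 2} (hL : InterL Λ n HL')
    (hn : n ≤ 2 * k + 1) (Y : Finset S) :
    HL (sub M Y) (k + 1) := by
  classical
  let fI : Fintype (Irr M) := Fintype.ofFinite _
  obtain ⟨N, hN, f, hf⟩ := hE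
  -- the elements of the finite groups
  have hq : ∃ q : ∀ v, Bool → Γ v, (∀ v ∈ F, ∀ b, q v b ≠ 1) ∧ ∀ v ∈ F, q v true ≠ q v false := by
    have h4 : ∀ v, ∃ q : Bool → Γ v, v ∈ F → (∀ b, q b ≠ 1) ∧ q true ≠ q false := by
      intro v
      by_cases hv : v ∈ F
      · obtain ⟨x, y, hx, hy, hxy⟩ := h3 v hv
        refine ⟨fun b => if b then x else y, fun _ => ⟨fun b => ?_, hxy⟩⟩
        cases b
        · exact hy
        · exact hx
      · exact ⟨fun _ => 1, fun h => absurd h hv⟩
    choose q hq using h4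
    exact ⟨q, fun v hv => (hq v hv).1, fun v hv => (hq v hv).2⟩
  obtain ⟨q, hq1, hq2⟩ := hq
  obtain ⟨M', hM'⟩ := Pool.Agent.H65.BU.exists_ra (nG M)
  obtain ⟨pr, g, hg⟩ := Pool.Agent.H65.BU.exists_apts hM' M'.toCoxeterSystem (pA M F q)
    (pA_comm hM q)
  have hsep := sepZ_ab hM hM' hq1 hq2 hg
  -- the letters
  let Z := lU M Y
  let G' : SimpleGraph {X // X ∈ Z} := (nG M).comap (Subtype.val : {X // X ∈ Z} → Irr M)
  let cs' := (sub M' Z).toCoxeterSystem
  let p1 : {X // X ∈ Z} × Bool → AG M F Γ := fun x => pA M F q (x.1.1, x.2)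
  have hp1 : ∀ x y, (oct G').Adj x y → p1 x * p1 y = p1 y * p1 x := fun x y h =>
    pA_comm hM q (x.1.1, x.2) (y.1.1, y.2) h
  obtain ⟨pr1, g1, hg1⟩ := Pool.Agent.H65.BU.exists_apts (ra_sub hM' Z) cs' p1 hp1
  have hsep1 := sepZ_sub hM' Z (lF M F) hg hg1 hsep
  -- the subgroup
  let p' : {X // X ∈ Z} × Bool → AN M F Γ N := fun x => ⟨pN N q (x.1.1, x.2), pN_mem N q _⟩
  have hp' : ∀ x y, (oct G').Adj x y → p' x * p' y = p' y * p' x := fun x y h =>
    Subtype.ext (pN_comm hM N q (x.1.1, x.2) (y.1.1, y.2) h).eq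
  obtain ⟨H, hH⟩ := inter_of_interL (oct G') p' hp' hL hf
  refine hl_of_hz_lU Y (hz_of_interZ (ra_sub hM' Z) cs' (rF (lF M F) Z) p' hp'
    (fun pr' g' hg' => ?_) hH hn)
  refine sepZ_pow (ra_sub hM' Z) hN (AN M F Γ N).subtype (fun x hx => ?_) (fun x hx => ?_) hg1 hg'
    hsep1
  · show pN N q (x.1.1, x.2) = _
    unfold pN
    rw [if_pos (mem_rF.1 hx)]
  · show pN N q (x.1.1, x.2) = _
    unfold pN
    rw [if_neg fun h => hx (mem_rF.2 h)]

end Pool.Agent.H45.DA

end
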