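import Mathlib

/-! The parts of this file: S11.EdDefs, S11.Fin, S14.Cls. -/

section

/-!
# Project S11, block END: definitions

`L2ZeroS X i`: the reduced `ℓ²`-homology of the simplicial complex `X` vanishes in degree `i`.
`FreeX`: a free cocompact simplicial action; `Rps`: representatives of the orbits of the simplices with `k` vertices;
`incR`: incidence numbers with respect to the order `r` of the vertices; `mtx`: the matrices of the boundary.
-/

set_option autoImplicit false
set_option linter.unusedSectionVars false

open Finset Pointwise

namespace Pool.Agent.S11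

section

variable {U : Type} [DecidableEq U]

open Classical in
/-- the sign of a new vertex with respect to the order `r` of the vertices -/
noncomputable def sgR (r : U → U → Prop) (s : Finset U) (v : U) : ℤ := (-1) ^ (s.filter fun u => r u v).card

/-- square summable real chains on the simplices with `k` vertices -/
structure IsL2Ch (X : Set (Finset U)) (k : ℕ) (z : Finset U → ℝ) : Prop where
  supp : ∀ s, z s ≠ 0 → s ∈ X ∧ s.card = k
  l2 : Summable fun s => z s ^ 2

/-- the simplicial boundary -/
noncomputable def bdR (r : U → U → Prop) (z : Finset U → ℝ) (s : Finset U) : ℝ :=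
  ∑ᶠ v ∈ {v | v ∉ s}, (sgR r s v : ℝ) * z (insert v s)

/-- The reduced `ℓ²`-homology of the simplicial complex `X` vanishes in degree `i`: every square summable cycle is a
limit of boundaries of square summable chains.  The orientations come from a total order of the vertices. -/
def L2ZeroS (X : Set (Finset U)) (i : ℕ) : Prop :=
  ∀ r : U → U → Prop, IsStrictTotalOrder U r → ∀ z, IsL2Ch X (i + 1) z → (∀ s ∈ X, bdR r z s = 0) → ∀ ε : ℝ, 0 < ε →
    ∃ y, IsL2Ch X (i + 2) y ∧ (Summable fun s => (z s - bdR r y s) ^ 2) ∧ ∑' s, (z s - bdR r y s) ^ 2 < ε

end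

end Pool.Agent.S11

end

section

/-!
# Project S11: finite index bookkeeping

`IsGeomS G X`: a proper cocompact simplicial action on the simplicial complex `X`.
-/

set_option autoImplicit false
set_option linter.unusedSectionVars false

open Finset Pointwise

namespace Pool.Agent.S11

/-- The group `G` acts properly and cocompactly by simplicial automorphisms on the simplicial complex `X` (a set of
nonempty finite sets of vertices): the stabilizers of the simplices are finite and there are finitely many orbits of
simplices. -/
structure IsGeomS (G : Type) [Group G] {V : Type} [DecidableEq V] [MulAction G V] (X : Set (Finset V)) : Prop where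
  ne : ∀ s ∈ X, s.Nonempty
  down : ∀ s ∈ X, ∀ t, t ⊆ s → t.Nonempty → t ∈ X
  mem : ∀ (g : G), ∀ s ∈ X, g • s ∈ X
  proper : ∀ s ∈ X, {g : G | g • s = s}.Finite
  cocompact : ∃ F : Finset (Finset V), ∀ s ∈ X, ∃ g : G, g • s ∈ F

section

end

end Pool.Agent.S11

end

section

/-!
# Project S14: residually (amenable and left-orderable) groups
-/

set_option autoImplicit false

namespace Pool.Agent.S14

/-- `L` is amenable (Foelner's condition): for every finite set `S` and `ε > 0` there is a finite nonempty set `E` such
that at most `ε |E|` elements of `s E` are not in `E`, for all `s ∈ S` -/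
def Amen (L : Type) [Group L] : Prop :=
  ∀ (S : Finset L) (ε : ℝ), 0 < ε →
    ∃ E : Finset L, E.Nonempty ∧ ∀ s ∈ S, ({x ∈ (E : Set L) | s * x ∉ E}.ncard : ℝ) ≤ ε * E.card

/-- `L` is left-orderable: there is a positive cone -/
def LeftOrd (L : Type) [Group L] : Prop :=
  ∃ P : Set L, (∀ x ∈ P, ∀ y ∈ P, x * y ∈ P) ∧ (1 : L) ∉ P ∧ ∀ x, x ≠ 1 → x ∈ P ∨ x⁻¹ ∈ P

/-- `H` is residually (amenable and left-orderable): for every `x ≠ 1` there is a homomorphism from `H` to an amenable
left-orderable group which does not kill `x` -/
def RAL (H : Type) [Group H] : Prop :=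
  ∀ x : H, x ≠ 1 → ∃ (L : Type) (_ : Group L) (φ : H →* L), Amen L ∧ LeftOrd L ∧ φ x ≠ 1

end Pool.Agent.S14

end
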