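import Pool.Agent.H71.TSG.M35
import Pool.Agent.H71.TSG.M83

/-! The parts of this file: H93.S11.Rk, H93.S11.Seq, S11.EDefs, S11.EdCol, S11.EdMin, S11.EdL2, S11.FL.Defs, S11.FL.Grade, S11.Cnt0, S11.CntA, S11.Cnt, S11.Flat, S11.FL.Star, S11.Pack, S11.SqA, S11.SqDefs, S11.EdDefs_1, S11.EdOrd, S11.EdRep, S11.SqB, S11.StA, S12.Fol, S12.LinD, S12.Ore, S14.Cl, S14.Cls_1, S14.E0, S14.E5, S14.EnA, S14.Ext, S14.Frac, S14.Gr, S14.KH, S14.LDefs, S14.FrcA, S14.Ld, S14.OreK, S14.Pair, S14.Ser, S14.Ser1, S14.Ser2, S14.SerD, S14.Pr, S14.Low, S14.Fine, S14.Coef, S14.Up. -/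

section

/-!
# S11: from the growth of the ranks over a field to the vanishing of the `ℓ²`-kernel

`D₁` is a `c × a` matrix, `D₂` a `b × c` matrix over `ℤ[G]` with `D₂ * D₁ = 0`. If for the finite quotients `P` of `G`
the sum of the ranks of `D₁` and `D₂` over `P` and a field is at least `(c - η) |P|`, then an `ℓ²` row vector `x` with
`x D₁ = 0` and `x D₂ᴴ = 0` is zero.
-/

set_option autoImplicit false
set_option linter.unusedSectionVars false

open Finset Filter Topology

namespace Pool.Agent.H93.S11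

/-- the adjoint matrix over the group ring -/
noncomputable def adj {R G : Type} [Semiring R] [Group G] {m n : Type} (A : Matrix m n (MonoidAlgebra R G)) :
    Matrix n m (MonoidAlgebra R G) :=
  Matrix.of fun i j => MonoidAlgebra.ofCoeff ((A j i).coeff.equivMapDomain (Equiv.inv G))

theorem coeff_adj {R G : Type} [Semiring R] [Group G] {m n : Type} (A : Matrix m n (MonoidAlgebra R G)) (i : n) (j : m)
    (g : G) : (adj A i j).coeff g = (A j i).coeff g⁻¹ := by
  unfold adj
  simp

open scoped ComplexOrder in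
/-- the ranks of two matrices with product zero add up in the matrix of the harmonic equations -/
theorem rank_add_le {l m n : Type} [Fintype l] [Fintype m] [Fintype n] (M : Matrix m n ℂ) (N : Matrix l m ℂ)
    (h : N * M = 0) : M.rank + N.rank ≤ (Matrix.fromCols M N.conjTranspose).rank := by
  classical
  have h1 : LinearMap.range M.mulVecLin ⊔ LinearMap.range N.conjTranspose.mulVecLin ≤
      LinearMap.range (Matrix.fromCols M N.conjTranspose).mulVecLin := by
    refine sup_le ?_ ?_
    · rintro _ ⟨v, rfl⟩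
      refine ⟨Sum.elim v 0, ?_⟩
      rw [Matrix.mulVecLin_apply, Matrix.mulVecLin_apply, Matrix.fromCols_mulVec_sumElim, Matrix.mulVec_zero, add_zero]
    · rintro _ ⟨v, rfl⟩
      refine ⟨Sum.elim 0 v, ?_⟩
      rw [Matrix.mulVecLin_apply, Matrix.mulVecLin_apply, Matrix.fromCols_mulVec_sumElim, Matrix.mulVec_zero, zero_add]
  have h2 : LinearMap.range M.mulVecLin ⊓ LinearMap.range N.conjTranspose.mulVecLin = ⊥ := by
    rw [Submodule.eq_bot_iff]
    rintro _ ⟨⟨v, hv⟩, ⟨w, rfl⟩⟩
    rw [Matrix.mulVecLin_apply] at hv ⊢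
    have h3 : N.mulVec (N.conjTranspose.mulVec w) = 0 := by
      rw [← Matrix.mulVecLin_apply N.conjTranspose, ← hv, Matrix.mulVec_mulVec, h, Matrix.zero_mulVec]
    rw [Matrix.mulVec_mulVec] at h3
    exact (Matrix.self_mul_conjTranspose_mulVec_eq_zero N w).1 h3
  have h4 := Submodule.finrank_sup_add_finrank_inf_eq (LinearMap.range M.mulVecLin)
    (LinearMap.range N.conjTranspose.mulVecLin)
  rw [h2, finrank_bot, add_zero] at h4
  have h5 : N.rank = N.conjTranspose.rank := (Matrix.rank_conjTranspose N).symm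
  rw [h5]
  unfold Matrix.rank
  rw [← h4]
  exact Submodule.finrank_mono h1

end Pool.Agent.H93.S11

end

section

/-!
# S11: the sequence of finite two-groups for Lück approximation

`Grows K A r` is the conclusion of `Pool.Agent.H20.GR.growth`. For a residually finite-two group `H` and `D₂ * D₁ = 0`
with `Grows K D₁ r₁`, `Grows K D₂ r₂`, `c ≤ r₁ + r₂`: the `ℓ²`-kernel of the harmonic equations is zero.
-/

set_option autoImplicit false
set_option linter.unusedSectionVars false

open Finset Filter Topology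

namespace Pool.Agent.H93.S11

/-- the matrix of an integer matrix over a field -/
noncomputable def toK (K : Type) [Field K] {H m n : Type} [Group H] (A : Matrix m n (MonoidAlgebra ℤ H)) :
    Matrix m n (MonoidAlgebra K H) :=
  A.map (MonoidAlgebra.mapRingHom H (Int.castRingHom K))

end Pool.Agent.H93.S11

end

section

/-!
# Project S11, block END: definitions and stubs of the statements

`X` = a simplicial complex on `V` (acyclic over the field of two elements, free action), `(K, B)` = the pair of dimension `n`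
on `U`.  `ChMaps` = chain maps `F` (chains of `X` to relative cochains with compact support of `(K, B)`), `G` (back), and a
homotopy `h` from `G F` to the identity.
-/

set_option autoImplicit false
set_option linter.unusedSectionVars false

open Finset Pointwise

namespace Pool.Agent.S11

open Pool.Agent.H37.TM

section

variable {Γ V U : Type} [Group Γ] [DecidableEq V] [MulAction Γ V] [DecidableEq U] [MulAction Γ U]

/-- chain maps between the chains of `X` and the cochains with compact support of `(K, B)`, and a homotopy.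
The empty simplex is not a chain: all equations between chains of `X` are evaluated at nonempty `s'`. -/
structure ChMaps (Γ : Type) [Group Γ] [MulAction Γ V] [MulAction Γ U] (X : Set (Finset V)) (K B : Set (Finset U))
    (n : ℕ) (F : Finset V → (Finset U →₀ ZMod 2)) (G : Finset U → (Finset V →₀ ZMod 2))
    (h : Finset V → (Finset V →₀ ZMod 2)) : Prop where
  F_smul : ∀ (g : Γ), ∀ s ∈ X, F (g • s) = (F s).mapDomain (g • ·)
  G_smul : ∀ (g : Γ), ∀ t ∈ K, t ∉ B → G (g • t) = (G t).mapDomain (g • ·)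
  h_smul : ∀ (g : Γ), ∀ s ∈ X, h (g • s) = (h s).mapDomain (g • ·)
  F_supp : ∀ s ∈ X, ∀ t, F s t ≠ 0 → t ∈ K ∧ t ∉ B ∧ t.card + s.card = n + 2
  G_supp : ∀ t ∈ K, t ∉ B → ∀ s, G t s ≠ 0 → s ∈ X ∧ s.card + t.card = n + 2
  h_supp : ∀ s ∈ X, ∀ s', h s s' ≠ 0 → s' ∈ X ∧ s'.card = s.card + 1
  F_empty : F ∅ = 0
  h_empty : h ∅ = 0
  /-- `F` is a chain map: the coboundary of `F s` is `F` of the boundary of `s` -/
  F_bd : ∀ s ∈ X, ∀ t ∈ K, t ∉ B → ∑ v ∈ t, F s (t.erase v) = ∑ v ∈ s, F (s.erase v) t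
  /-- `G` is a chain map: the boundary of `G f` is `G` of the coboundary `f'` of `f` -/
  G_bd : ∀ (q : ℕ) (f f' : Finset U →₀ ZMod 2), Rel K B ∅ q f → Rel K B ∅ (q + 1) f' → IsCob K B ∅ f f' →
    ∀ s' : Finset V, s'.Nonempty →
      bdS (Finsupp.linearCombination (ZMod 2) G f) s' = Finsupp.linearCombination (ZMod 2) G f' s'
  /-- `h` is a homotopy from `G F` to the identity -/
  htpy : ∀ s ∈ X, ∀ s' : Finset V, s'.Nonempty →
    Finsupp.linearCombination (ZMod 2) G (F s) s' + Finsupp.single s (1 : ZMod 2) s' =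
      bdS (h s) s' + ∑ v ∈ s, h (s.erase v) s'

end

end Pool.Agent.S11

end

section

/-!
# Project S11, block END: column exactness gives row exactness over a division ring
-/

set_option autoImplicit false
set_option linter.unusedSectionVars false

open Matrix

namespace Pool.Agent.S11

/-- the multiplication of column vectors as a linear map of right spaces -/
def colMap {D : Type} [DivisionRing D] {a b : ℕ} (A : Matrix (Fin a) (Fin b) D) :
    (Fin b → D) →ₗ[Dᵐᵒᵖ] (Fin a → D) where
  toFun x := A *ᵥ x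
  map_add' x y := Matrix.mulVec_add A x y
  map_smul' d x := by
    funext i
    rw [Pi.smul_apply, RingHom.id_apply]
    simp only [Matrix.mulVec, dotProduct, Pi.smul_apply, MulOpposite.smul_eq_mul_unop]
    rw [Finset.sum_mul]
    refine Finset.sum_congr rfl fun j _ => ?_
    rw [mul_assoc]

/-- the pairing with a row vector -/
def rowFun {D : Type} [DivisionRing D] {b : ℕ} (v : Fin b → D) : (Fin b → D) →ₗ[Dᵐᵒᵖ] D where
  toFun x := v ⬝ᵥ x
  map_add' x y := dotProduct_add v x y
  map_smul' d x := by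
    simp only [dotProduct, Pi.smul_apply, MulOpposite.smul_eq_mul_unop, RingHom.id_apply]
    rw [Finset.sum_mul]
    refine Finset.sum_congr rfl fun j _ => ?_
    rw [mul_assoc]

/-- **Column exactness gives row exactness.** -/
theorem row_of_col {D : Type} [DivisionRing D] {a b c : ℕ} (A : Matrix (Fin a) (Fin b) D) (B : Matrix (Fin b) (Fin c) D)
    (hex : ∀ v : Fin b → D, A *ᵥ v = 0 → ∃ u, B *ᵥ u = v) :
    ∀ v : Fin b → D, v ᵥ* B = 0 → ∃ u, u ᵥ* A = v := by
  intro v hv
  have h1 : LinearMap.ker (colMap A) ≤ LinearMap.ker (rowFun v) := by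
    intro x hx
    obtain ⟨u, hu⟩ := hex x hx
    rw [LinearMap.mem_ker]
    show v ⬝ᵥ x = 0
    rw [← hu, Matrix.dotProduct_mulVec, hv, zero_dotProduct]
  obtain ⟨h, hh⟩ : ∃ h : (Fin a → D) →ₗ[Dᵐᵒᵖ] D, h.comp (colMap A) = rowFun v := by
    obtain ⟨g, hg⟩ := LinearMap.exists_extend
      (((LinearMap.ker (colMap A)).liftQ (rowFun v) h1).comp (colMap A).quotKerEquivRange.symm.toLinearMap)
    refine ⟨g, LinearMap.ext fun x => ?_⟩
    have h2 := LinearMap.congr_fun hg ⟨colMap A x, x, rfl⟩
    have h3 : (colMap A).quotKerEquivRange.symm ⟨colMap A x, x, rfl⟩ = Submodule.Quotient.mk x := by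
      rw [LinearEquiv.symm_apply_eq]
      rfl
    rw [LinearMap.comp_apply] at h2
    rw [LinearMap.comp_apply]
    refine Eq.trans h2 ?_
    rw [LinearMap.comp_apply]
    show (Submodule.liftQ _ _ h1) ((colMap A).quotKerEquivRange.symm ⟨colMap A x, x, rfl⟩) = _
    rw [h3]
    rfl
  refine ⟨fun i => h (Pi.single i 1), ?_⟩
  have h2 : ∀ y : Fin a → D, h y = ∑ i, h (Pi.single i 1) * y i := by
    intro y
    have h3 : y = ∑ i, (MulOpposite.op (y i)) • (Pi.single i 1 : Fin a → D) := by
      funext j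
      rw [Finset.sum_apply, Finset.sum_eq_single j]
      · rw [Pi.smul_apply, Pi.single_eq_same, MulOpposite.smul_eq_mul_unop, MulOpposite.unop_op, one_mul]
      · intro k _ hk
        rw [Pi.smul_apply, Pi.single_eq_of_ne hk.symm, smul_zero]
      · intro h4
        exact absurd (Finset.mem_univ j) h4
    conv_lhs => rw [h3, map_sum]
    refine Finset.sum_congr rfl fun i _ => ?_
    rw [map_smul, MulOpposite.smul_eq_mul_unop, MulOpposite.unop_op]
  funext j
  have h4 := LinearMap.congr_fun hh (Pi.single j 1)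
  rw [LinearMap.comp_apply, h2] at h4
  have h5 : rowFun v (Pi.single j 1) = v j := by
    show v ⬝ᵥ Pi.single j 1 = v j
    rw [dotProduct_single, mul_one]
  rw [h5] at h4
  rw [← h4]
  show ∑ i, h (Pi.single i 1) * A i j = _
  refine Finset.sum_congr rfl fun i _ => ?_
  congr 1
  show A i j = (A *ᵥ Pi.single j 1) i
  rw [Matrix.mulVec_single]
  simp

end Pool.Agent.S11

end

section

/-!
# Project S11, block END: invertible minors over a division ring

`exists_minor`: a matrix over a division ring has an invertible square submatrix whose size is the dimension of the row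
space.  `exists_minors`: the two minors of an exact sequence.
-/

set_option autoImplicit false
set_option linter.unusedSectionVars false

open Matrix

namespace Pool.Agent.S11

section

variable {D : Type} [DivisionRing D]

/-- a square matrix over a division ring whose rows are independent is invertible -/
theorem isUnit_of_vecMul_inj {p : ℕ} (M : Matrix (Fin p) (Fin p) D) (h : ∀ u : Fin p → D, u ᵥ* M = 0 → u = 0) :
    IsUnit M := by
  have hinj : Function.Injective (Matrix.vecMulLinear M) := by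
    rw [← LinearMap.ker_eq_bot, LinearMap.ker_eq_bot']
    intro u hu
    exact h u hu
  have hbij : Function.Bijective (Matrix.vecMulLinear M) :=
    ⟨hinj, LinearMap.injective_iff_surjective.1 hinj⟩
  let e := LinearEquiv.ofBijective (Matrix.vecMulLinear M) hbij
  have e1 : ∀ u : Fin p → D, (e.symm u) ᵥ* M = u := fun u => e.apply_symm_apply u
  have e2 : ∀ u : Fin p → D, e.symm (u ᵥ* M) = u := fun u => e.symm_apply_apply u
  let M' : Matrix (Fin p) (Fin p) D := LinearMap.toMatrixRight' (e.symm : (Fin p → D) →ₗ[D] (Fin p → D))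
  have e3 : ∀ u : Fin p → D, u ᵥ* M' = e.symm u := by
    intro u
    have h1 : Matrix.toLinearMapRight' M' = (e.symm : (Fin p → D) →ₗ[D] (Fin p → D)) :=
      LinearMap.toMatrixRight'.symm_apply_apply _
    have h2 : Matrix.toLinearMapRight' M' u = e.symm u := by
      rw [h1]
      rfl
    exact h2
  have hone : ∀ N : Matrix (Fin p) (Fin p) D, (∀ u : Fin p → D, u ᵥ* N = u) → N = 1 := by
    intro N hN
    ext i j
    have h1 := congrFun (hN (Pi.single i 1)) j
    rw [Matrix.single_one_vecMul] at h1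
    rw [Matrix.one_apply]
    have h2 : N i j = (Pi.single i (1 : D) : Fin p → D) j := h1
    rw [h2, Pi.single_apply]
    by_cases hij : i = j
    · rw [if_pos hij, if_pos hij.symm]
    · rw [if_neg hij, if_neg fun h' => hij h'.symm]
  refine ⟨⟨M, M', hone _ fun u => ?_, hone _ fun u => ?_⟩, rfl⟩
  · rw [← Matrix.vecMul_vecMul, e3]
    exact e2 u
  · rw [← Matrix.vecMul_vecMul, e3]
    exact e1 u

/-- an invertible minor -/
theorem exists_minor {a b : ℕ} (A : Matrix (Fin a) (Fin b) D) :
    ∃ (r : Fin (Module.finrank D (LinearMap.range (Matrix.vecMulLinear A))) → Fin a)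
      (c : Fin (Module.finrank D (LinearMap.range (Matrix.vecMulLinear A))) → Fin b), IsUnit (A.submatrix r c) := by
  classical
  set p := Module.finrank D (LinearMap.range (Matrix.vecMulLinear A)) with hp
  have hspan : LinearMap.range (Matrix.vecMulLinear A) = Submodule.span D (Set.range A.row) := by
    ext v
    rw [LinearMap.mem_range, Submodule.mem_span_range_iff_exists_fun]
    refine exists_congr fun u => ?_
    have h1 : Matrix.vecMulLinear A u = ∑ i, u i • A.row i := by
      funext j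
      show (u ᵥ* A) j = _
      rw [Matrix.vecMul, dotProduct, Finset.sum_apply]
      rfl
    rw [h1]
  -- the rows
  obtain ⟨κ, r, hr, hs, hli⟩ := exists_linearIndependent' D A.row
  have hfin : Finite κ := Finite.of_injective r hr
  have := Fintype.ofFinite κ
  have hcard : Fintype.card κ = p := by
    rw [hp, hspan, ← hs]
    exact (finrank_span_eq_card hli).symm
  let ek : Fin p ≃ κ := (Fintype.equivFinOfCardEq hcard).symm
  have hli' : LinearIndependent D (fun i : Fin p => A.row (r (ek i))) := hli.comp ek ek.injective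
  let f : (Fin p → D) →ₗ[D] (Fin b → D) := Matrix.vecMulLinear (A.submatrix (fun i => r (ek i)) id)
  have hf : ∀ u, f u = ∑ i, u i • A.row (r (ek i)) := by
    intro u
    funext j
    show (u ᵥ* (A.submatrix (fun i => r (ek i)) id)) j = _
    rw [Matrix.vecMul, dotProduct, Finset.sum_apply]
    rfl
  have hfinj : Function.Injective f := by
    rw [← LinearMap.ker_eq_bot, LinearMap.ker_eq_bot']
    intro u hu
    rw [hf] at hu
    have := Fintype.linearIndependent_iff.1 hli' u hu
    exact funext this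
  -- the columns
  let Q := (Fin b → D) ⧸ LinearMap.range f
  let v : Fin b → Q := fun j => (LinearMap.range f).mkQ (Pi.single j 1)
  obtain ⟨J, c, hc, hcs, hcl⟩ := exists_linearIndependent' D v
  have hfinJ : Finite J := Finite.of_injective c hc
  have := Fintype.ofFinite J
  have hv : Submodule.span D (Set.range v) = ⊤ := by
    have h1 : Submodule.span D (Set.range v) =
        (Submodule.span D (Set.range fun j : Fin b => (Pi.single j 1 : Fin b → D))).map (LinearMap.range f).mkQ := by
      rw [Submodule.map_span, ← Set.range_comp]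
      rfl
    have h2 : Submodule.span D (Set.range fun j : Fin b => (Pi.single j 1 : Fin b → D)) = ⊤ := by
      have h3 := (Pi.basisFun D (Fin b)).span_eq
      rw [← h3]
      congr 2
      funext j
      exact (Pi.basisFun_apply D (Fin b) j).symm
    rw [h1, h2, Submodule.map_top, Submodule.range_mkQ]
  have hJ : Fintype.card J + p = b := by
    have h1 : Module.finrank D Q = Fintype.card J := by
      rw [← finrank_span_eq_card hcl, hcs, hv, finrank_top]
    have h2 : Module.finrank D (LinearMap.range f) = p := by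
      rw [LinearMap.finrank_range_of_inj hfinj, Module.finrank_fin_fun]
    have h3 := Submodule.finrank_quotient_add_finrank (LinearMap.range f)
    rw [Module.finrank_fin_fun, h2] at h3
    have h4 : Module.finrank D ((Fin b → D) ⧸ LinearMap.range f) = Fintype.card J := h1
    omega
  -- the complement
  let S : Finset (Fin b) := (Finset.univ.image c)ᶜ
  have hS : S.card = p := by
    rw [Finset.card_compl, Finset.card_image_of_injective _ hc, Finset.card_univ, Fintype.card_fin]
    omega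
  let cc : Fin p → Fin b := fun i => (S.orderIsoOfFin hS i : Fin b)
  have hcc : ∀ j, j ∉ Finset.univ.image c → ∃ i, cc i = j := by
    intro j hj
    have hjS : j ∈ S := Finset.mem_compl.2 hj
    refine ⟨(S.orderIsoOfFin hS).symm ⟨j, hjS⟩, ?_⟩
    show ((S.orderIsoOfFin hS ((S.orderIsoOfFin hS).symm ⟨j, hjS⟩) : S) : Fin b) = j
    rw [OrderIso.apply_symm_apply]
  refine ⟨fun i => r (ek i), cc, isUnit_of_vecMul_inj _ fun u hu => ?_⟩
  have h1 : ∀ j, j ∉ Finset.univ.image c → f u j = 0 := by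
    intro j hj
    obtain ⟨i, rfl⟩ := hcc j hj
    exact congrFun hu i
  -- `f u` is a combination of the `e_j`, `j ∈ J`
  have h2 : f u = ∑ k : J, f u (c k) • (Pi.single (c k) 1 : Fin b → D) := by
    funext j
    rw [Finset.sum_apply]
    by_cases hj : j ∈ Finset.univ.image c
    · obtain ⟨k, -, rfl⟩ := Finset.mem_image.1 hj
      rw [Finset.sum_eq_single k]
      · rw [Pi.smul_apply, Pi.single_eq_same, smul_eq_mul, mul_one]
      · intro k' _ hk'
        rw [Pi.smul_apply, Pi.single_eq_of_ne fun h' => hk' (hc h').symm, smul_zero]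
      · intro h'
        exact absurd (Finset.mem_univ k) h'
    · rw [h1 j hj]
      symm
      refine Finset.sum_eq_zero fun k _ => ?_
      rw [Pi.smul_apply, Pi.single_eq_of_ne, smul_zero]
      intro h'
      exact hj (Finset.mem_image.2 ⟨k, Finset.mem_univ k, h'.symm⟩)
  have h3 : ∑ k : J, f u (c k) • v (c k) = 0 := by
    have h4 : (LinearMap.range f).mkQ (f u) = 0 := by
      rw [Submodule.mkQ_apply, Submodule.Quotient.mk_eq_zero]
      exact ⟨u, rfl⟩
    rw [h2, map_sum] at h4
    rw [← h4]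
    refine Finset.sum_congr rfl fun k _ => ?_
    rw [map_smul]
  have h5 : ∀ k : J, f u (c k) = 0 := Fintype.linearIndependent_iff.1 hcl _ h3
  have h6 : f u = 0 := by
    rw [h2]
    exact Finset.sum_eq_zero fun k _ => by rw [h5 k, zero_smul]
  exact hfinj (h6.trans (map_zero f).symm)

/-- **The minors of an exact sequence** -/
theorem exists_minors {a b c : ℕ} (A : Matrix (Fin a) (Fin b) D) (B : Matrix (Fin b) (Fin c) D) (hAB : A * B = 0)
    (hex : ∀ v : Fin b → D, v ᵥ* B = 0 → ∃ u, u ᵥ* A = v) :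
    ∃ (p q : ℕ) (r₁ : Fin p → Fin a) (c₁ : Fin p → Fin b) (r₂ : Fin q → Fin b) (c₂ : Fin q → Fin c),
      IsUnit (A.submatrix r₁ c₁) ∧ IsUnit (B.submatrix r₂ c₂) ∧ p + q = b := by
  obtain ⟨r₁, c₁, h1⟩ := exists_minor A
  obtain ⟨r₂, c₂, h2⟩ := exists_minor B
  refine ⟨_, _, r₁, c₁, r₂, c₂, h1, h2, ?_⟩
  have h3 : LinearMap.range (Matrix.vecMulLinear A) = LinearMap.ker (Matrix.vecMulLinear B) := by
    ext v
    constructor
    · rintro ⟨u, rfl⟩
      show (u ᵥ* A) ᵥ* B = 0
      rw [Matrix.vecMul_vecMul, hAB, Matrix.vecMul_zero]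
    · intro hv
      obtain ⟨u, hu⟩ := hex v hv
      exact ⟨u, hu⟩
  have h4 := LinearMap.finrank_range_add_finrank_ker (Matrix.vecMulLinear B)
  rw [Module.finrank_fin_fun] at h4
  rw [h3]
  omega

end

end Pool.Agent.S11

end

section

/-!
# Project S11, block END: from exactness over the division ring to the `ℓ²`-kernel
-/

set_option autoImplicit false
set_option linter.unusedSectionVars false

open Matrix

namespace Pool.Agent.S11

/-- the rows of an exact sequence -/
theorem exists_rows {D : Type} [DivisionRing D] {a b c : ℕ} (A : Matrix (Fin a) (Fin b) D) (B : Matrix (Fin b) (Fin c) D)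
    (hAB : A * B = 0) (hex : ∀ v : Fin b → D, v ᵥ* B = 0 → ∃ u, u ᵥ* A = v) :
    ∃ (p q : ℕ) (r₁ : Fin p → Fin a) (r₂ : Fin q → Fin b), (∀ v : Fin p → D, v ᵥ* (A.submatrix r₁ id) = 0 → v = 0) ∧
      (∀ v : Fin q → D, v ᵥ* (B.submatrix r₂ id) = 0 → v = 0) ∧ p + q = b := by
  obtain ⟨p, q, r₁, c₁, r₂, c₂, h1, h2, h3⟩ := exists_minors A B hAB hex
  have key : ∀ {k l m : ℕ} (M : Matrix (Fin l) (Fin m) D) (r : Fin k → Fin l) (s : Fin k → Fin m),
      IsUnit (M.submatrix r s) → ∀ v : Fin k → D, v ᵥ* (M.submatrix r id) = 0 → v = 0 := by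
    intro k l m M r s hu v hv
    obtain ⟨U, hU⟩ := hu
    have h4 : v ᵥ* (M.submatrix r s) = 0 := by
      funext j
      exact congrFun hv (s j)
    have h5 : v ᵥ* (M.submatrix r s * (↑U⁻¹ : Matrix (Fin k) (Fin k) D)) = 0 := by
      rw [← Matrix.vecMul_vecMul, h4, Matrix.zero_vecMul]
    rw [← hU, Units.mul_inv, Matrix.vecMul_one] at h5
    exact h5
  exact ⟨p, q, r₁, r₂, key A r₁ c₁ h1, key B r₂ c₂ h2, h3⟩

end Pool.Agent.S11

end

section

/-!
# S11, flatness: definitions

`K` a field, `H` a group, `V` a `K`-algebra with a monoid homomorphism `j : H →* V`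
(group elements).  For a representation `ρ` of `H` on `X` the group `H` acts on
`MM K V X = V ⊗ (X ⊗ V)` by `g (a ⊗ x ⊗ b) = a g⁻¹ ⊗ g x ⊗ g b`.  `II j ρ N` is the span of
all `g m - m`, `g ∈ N`.  `FlatOn j N` says that `X ↦ MM X / II N` preserves injections.
-/

open TensorProduct

namespace Pool.Agent.S11.FL

universe w

section

variable {K : Type*} [Field K] {H : Type*} [Group H] {V : Type*} [Ring V] [Algebra K V]
  (j : H →* V)

variable (K V) in
/-- The module `V ⊗ (X ⊗ V)`. -/
abbrev MM (X : Type*) [AddCommGroup X] [Module K X] : Type _ := V ⊗[K] (X ⊗[K] V)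

/-- The action of `g` on `V ⊗ (X ⊗ V)`: `a ⊗ x ⊗ b ↦ a g⁻¹ ⊗ g x ⊗ g b`. -/
noncomputable def act {X : Type*} [AddCommGroup X] [Module K X] (ρ : Representation K H X)
    (g : H) : MM K V X →ₗ[K] MM K V X :=
  TensorProduct.map (LinearMap.mulRight K (j g⁻¹))
    (TensorProduct.map (ρ g) (LinearMap.mulLeft K (j g)))

@[simp] theorem act_tmul {X : Type*} [AddCommGroup X] [Module K X] (ρ : Representation K H X)
    (g : H) (a : V) (x : X) (b : V) :
    act j ρ g (a ⊗ₜ[K] (x ⊗ₜ[K] b)) = (a * j g⁻¹) ⊗ₜ[K] (ρ g x ⊗ₜ[K] (j g * b)) := by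
  simp [act]

/-- The span of all `g m - m`, `g ∈ N`. -/
noncomputable def II {X : Type*} [AddCommGroup X] [Module K X] (ρ : Representation K H X)
    (N : Subgroup H) : Submodule K (MM K V X) :=
  Submodule.span K {z | ∃ g ∈ N, ∃ m : MM K V X, z = act j ρ g m - m}

theorem act_sub_mem {X : Type*} [AddCommGroup X] [Module K X] (ρ : Representation K H X)
    {N : Subgroup H} {g : H} (hg : g ∈ N) (m : MM K V X) : act j ρ g m - m ∈ II j ρ N :=
  Submodule.subset_span ⟨g, hg, m, rfl⟩

theorem II_le {X : Type*} [AddCommGroup X] [Module K X] (ρ : Representation K H X)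
    {N : Subgroup H} {L : Submodule K (MM K V X)}
    (h : ∀ g ∈ N, ∀ m : MM K V X, act j ρ g m - m ∈ L) : II j ρ N ≤ L := by
  refine Submodule.span_le.2 ?_
  rintro z ⟨g, hg, m, rfl⟩
  exact h g hg m

/-- The map `V ⊗ (X' ⊗ V) → V ⊗ (X ⊗ V)` induced by `i : X' → X`. -/
noncomputable def mapX (V : Type*) [Ring V] [Algebra K V] {X' X : Type*} [AddCommGroup X']
    [Module K X'] [AddCommGroup X] [Module K X]
    (i : X' →ₗ[K] X) : MM K V X' →ₗ[K] MM K V X :=
  TensorProduct.map LinearMap.id (TensorProduct.map i LinearMap.id)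

@[simp] theorem mapX_tmul {X' X : Type*} [AddCommGroup X'] [Module K X'] [AddCommGroup X]
    [Module K X] (i : X' →ₗ[K] X) (a : V) (x : X') (b : V) :
    mapX V i (a ⊗ₜ[K] (x ⊗ₜ[K] b)) = a ⊗ₜ[K] (i x ⊗ₜ[K] b) := by
  simp [mapX]

/-- Two linear maps out of `V ⊗ (X ⊗ V)` which agree on pure tensors are equal. -/
theorem MM_ext {X : Type*} [AddCommGroup X] [Module K X] {P : Type*} [AddCommGroup P]
    [Module K P] {f g : MM K V X →ₗ[K] P}
    (h : ∀ (a : V) (x : X) (b : V), f (a ⊗ₜ[K] (x ⊗ₜ[K] b)) = g (a ⊗ₜ[K] (x ⊗ₜ[K] b))) :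
    f = g := by
  refine TensorProduct.ext' fun a t => ?_
  induction t with
  | zero => simp
  | add s t hs ht => rw [TensorProduct.tmul_add, map_add, map_add, hs, ht]
  | tmul x b => exact h a x b

/-- `X ↦ MM X / II N` preserves injections. -/
def FlatOn (N : Subgroup H) : Prop :=
  ∀ (X' X : Type w) [AddCommGroup X'] [Module K X'] [AddCommGroup X] [Module K X]
    (ρ' : Representation K H X') (ρ : Representation K H X) (i : X' →ₗ[K] X),
    Function.Injective i → (∀ g x, i (ρ' g x) = ρ g (i x)) →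
    ∀ m : MM K V X', mapX V i m ∈ II j ρ N → m ∈ II j ρ' N

end

end Pool.Agent.S11.FL

end

section

/-!
# S11, flatness: gradings along a homomorphism and two-sided separation
-/

open TensorProduct

namespace Pool.Agent.S11.FL

set_option linter.unusedSectionVars false

variable {K : Type*} [Field K] {H : Type*} [Group H] {V : Type*} [Ring V] [Algebra K V]
  (j : H →* V) {Q : Type*} [Group Q]

/-- The data used in one step: `φ : H →* Q`, `π α` = restriction of the support to
`φ⁻¹(α)`, `D` = elements supported in `ker φ`. -/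
structure Grading (φ : H →* Q) (π : Q → V →ₗ[K] V) (D : Set V) : Prop where
  mul_mem : ∀ a ∈ D, ∀ b ∈ D, a * b ∈ D
  inv_mem : ∀ a ∈ D, a ≠ 0 → ∃ b ∈ D, a * b = 1 ∧ b * a = 1
  ker_mem : ∀ g ∈ φ.ker, j g ∈ D
  mulR : ∀ α a, ∀ d ∈ D, π α (a * d) = π α a * d
  mulL : ∀ α a, ∀ d ∈ D, π α (d * a) = d * π α a
  shiftR : ∀ α a g, π α (a * j g) = π (α * (φ g)⁻¹) a * j g
  shiftL : ∀ α a g, π α (j g * a) = j g * π ((φ g)⁻¹ * α) a
  sep : ∀ a, (∀ α, π α a = 0) → a = 0
  unitL : ∀ α, (∃ a, π α a ≠ 0) → ∃ g, ∀ a, j g * π α a ∈ D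
  unitR : ∀ α, (∃ a, π α a ≠ 0) → ∃ g, ∀ a, π α a * j g ∈ D
  fin : ∀ a b α β, {f : Q | π (α * f) a ≠ 0 ∧ π (f⁻¹ * β) b ≠ 0}.Finite

variable {j}

/-- The component map `π α ⊗ (1 ⊗ π β)`. -/
noncomputable def comp (π : Q → V →ₗ[K] V) {X : Type*} [AddCommGroup X] [Module K X]
    (α β : Q) : MM K V X →ₗ[K] MM K V X :=
  TensorProduct.map (π α) (TensorProduct.map LinearMap.id (π β))

namespace Grading

variable {φ : H →* Q} {π : Q → V →ₗ[K] V} {D : Set V} (h : Grading j φ π D)
include h

end Grading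

/-- left multiplication on the first factor preserves `II`. -/
theorem mulLeft_II {X : Type*} [AddCommGroup X] [Module K X] (ρ : Representation K H X)
    (N : Subgroup H) (v : V) {m : MM K V X} (hm : m ∈ II j ρ N) :
    (LinearMap.mulLeft K v).rTensor (X ⊗[K] V) m ∈ II j ρ N := by
  have : II j ρ N ≤ (II j ρ N : Submodule K (MM K V X)).comap
      ((LinearMap.mulLeft K v).rTensor (X ⊗[K] V)) := by
    refine II_le j ρ fun n hn m => ?_
    rw [Submodule.mem_comap, map_sub]
    have e : (LinearMap.mulLeft K v).rTensor (X ⊗[K] V) ∘ₗ act j ρ n =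
        act j ρ n ∘ₗ (LinearMap.mulLeft K v).rTensor (X ⊗[K] V) :=
      MM_ext fun a x b => by simp [mul_assoc]
    rw [show (LinearMap.mulLeft K v).rTensor (X ⊗[K] V) (act j ρ n m) =
      act j ρ n ((LinearMap.mulLeft K v).rTensor (X ⊗[K] V) m) from LinearMap.congr_fun e m]
    exact act_sub_mem j ρ hn _
  exact this hm

/-- right multiplication on the last factor preserves `II`. -/
theorem mulRight_II {X : Type*} [AddCommGroup X] [Module K X] (ρ : Representation K H X)
    (N : Subgroup H) (v : V) {m : MM K V X} (hm : m ∈ II j ρ N) :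
    TensorProduct.map (LinearMap.id : V →ₗ[K] V)
      (TensorProduct.map (LinearMap.id : X →ₗ[K] X) (LinearMap.mulRight K v)) m ∈
      II j ρ N := by
  set R : MM K V X →ₗ[K] MM K V X := TensorProduct.map (LinearMap.id : V →ₗ[K] V)
      (TensorProduct.map (LinearMap.id : X →ₗ[K] X) (LinearMap.mulRight K v)) with hR
  have : II j ρ N ≤ (II j ρ N : Submodule K (MM K V X)).comap R := by
    refine II_le j ρ fun n hn m => ?_
    rw [Submodule.mem_comap, map_sub]
    have e : R ∘ₗ act j ρ n = act j ρ n ∘ₗ R :=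
      MM_ext fun a x b => by simp [hR, mul_assoc]
    rw [show R (act j ρ n m) = act j ρ n (R m) from LinearMap.congr_fun e m]
    exact act_sub_mem j ρ hn _
  exact this hm

namespace Grading

variable {φ : H →* Q} {π : Q → V →ₗ[K] V} {D : Set V} (h : Grading j φ π D)
include h

end Grading

end Pool.Agent.S11.FL

end

section

/-!
# Project S11: geometric actions on simplicial complexes, finite fibres and local finiteness
-/

set_option autoImplicit false
set_option linter.unusedSectionVars false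

open Finset Pointwise

namespace Pool.Agent.S11

section

variable {V G : Type} [DecidableEq V] [Group G] [MulAction G V] {X : Set (Finset V)}

/-- the elements which map a simplex to a given simplex -/
theorem IsGeomS.fin_fib (hG : IsGeomS G X) {s : Finset V} (hs : s ∈ X) (t : Finset V) :
    {g : G | g • s = t}.Finite := by
  by_cases h : ∃ g0 : G, g0 • s = t
  · obtain ⟨g0, h0⟩ := h
    refine ((hG.proper s hs).image fun g => g0 * g).subset ?_
    intro g hg
    refine ⟨g0⁻¹ * g, ?_, mul_inv_cancel_left g0 g⟩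
    change (g0⁻¹ * g) • s = s
    rw [mul_smul, show g • s = t from hg, ← h0, inv_smul_smul]
  · refine Set.finite_empty.subset ?_
    intro g hg
    exact h ⟨g, hg⟩

/-- **Local finiteness.** -/
theorem IsGeomS.locfin (hG : IsGeomS G X) {s : Finset V} (hs : s ∈ X) : {t | t ∈ X ∧ s ⊆ t}.Finite := by
  obtain ⟨F, hF⟩ := hG.cocompact
  have h1 : (⋃ f ∈ F, ⋃ u ∈ f.powerset, {g : G | g • s = u}).Finite :=
    F.finite_toSet.biUnion fun f _ => f.powerset.finite_toSet.biUnion fun u _ => hG.fin_fib hs u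
  refine ((h1.prod F.finite_toSet).image fun p : G × Finset V => p.1⁻¹ • p.2).subset ?_
  rintro t ⟨ht, hst⟩
  obtain ⟨g, hg⟩ := hF t ht
  refine ⟨(g, g • t), ⟨?_, hg⟩, inv_smul_smul g t⟩
  simp only [Set.mem_iUnion]
  exact ⟨g • t, hg, g • s, mem_powerset.2 (smul_finset_subset_smul_finset hst), rfl⟩

/-- a group with a geometric action on a countable complex is countable -/
theorem IsGeomS.countable (hG : IsGeomS G X) {s : Finset V} (hs : s ∈ X) (hX : X.Countable) : Countable G := by
  rw [← Set.countable_univ_iff]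
  refine (hX.biUnion (t := fun t _ => {g : G | g • s = t}) fun t _ => (hG.fin_fib hs t).countable).mono ?_
  intro g _
  simp only [Set.mem_iUnion]
  exact ⟨g • s, hG.mem g s hs, rfl⟩

end

end Pool.Agent.S11

end

section

/-!
# Project S11: acyclic complexes with a proper cocompact action are countable

`nonempty_X`; `countable_X`: the complex is connected and locally finite, therefore countable.
-/

set_option autoImplicit false
set_option linter.unusedSectionVars false

open Finset Pointwise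

namespace Pool.Agent.S11

open Pool.Agent.H37.TM

variable {V G : Type} [DecidableEq V] [Group G] [MulAction G V] {X : Set (Finset V)}

/-- a locally finite relation has countable components -/
theorem countable_comp {A : Type} (r : A → A → Prop) (hr : ∀ a, {b | r a b}.Finite) (a : A) :
    {b | Relation.ReflTransGen r a b}.Countable := by
  -- the balls
  let B : ℕ → Set A := fun n => Nat.rec {a} (fun _ S => ⋃ x ∈ S, {b | r x b}) n
  have hB : ∀ n, (B n).Countable := by
    intro n
    induction n with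
    | zero => exact Set.countable_singleton a
    | succ n ih => exact ih.biUnion fun x _ => (hr x).countable
  refine (Set.countable_iUnion hB).mono ?_
  intro b hb
  have hb' : Relation.ReflTransGen r a b := hb
  induction hb' with
  | refl => exact Set.mem_iUnion.2 ⟨0, rfl⟩
  | tail h1 h2 ih =>
    obtain ⟨n, hn⟩ := Set.mem_iUnion.1 (ih h1)
    refine Set.mem_iUnion.2 ⟨n + 1, ?_⟩
    exact Set.mem_biUnion hn h2

theorem conn_X (hac : Acyc X) {u v : V} (hu : {u} ∈ X) (hv : {v} ∈ X) :
    Relation.ReflTransGen (fun a b : V => ({a, b} : Finset V) ∈ X) u v := by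
  classical
  by_contra hcon
  let C : Set V := {b | Relation.ReflTransGen (fun a b : V => ({a, b} : Finset V) ∈ X) u b}
  let c : Finset V → ZMod 2 := fun s => if ∃ w ∈ C, s = {w} then 1 else 0
  have hc1 : ∀ w, c {w} = if w ∈ C then 1 else 0 := by
    intro w
    by_cases hw : w ∈ C
    · rw [if_pos hw]; exact if_pos ⟨w, hw, rfl⟩
    · rw [if_neg hw]
      refine if_neg ?_
      rintro ⟨w', hw', e⟩
      rw [Finset.singleton_inj] at e
      exact hw (e ▸ hw')
  have hc0 : ∀ s : Finset V, s.card ≠ 1 → c s = 0 := by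
    intro s hs
    refine if_neg ?_
    rintro ⟨w, _, rfl⟩
    exact hs (Finset.card_singleton w)
  have hCadj : ∀ a b : V, ({a, b} : Finset V) ∈ X → (a ∈ C ↔ b ∈ C) := by
    intro a b hab
    constructor
    · intro ha
      exact Relation.ReflTransGen.tail ha hab
    · intro hb
      refine Relation.ReflTransGen.tail hb ?_
      show ({b, a} : Finset V) ∈ X
      rwa [Finset.pair_comm]
  let φ : (Finset V →₀ ZMod 2) →ₗ[ZMod 2] ZMod 2 := Finsupp.linearCombination (ZMod 2) c
  have hφ : ∀ s : Finset V, φ (Finsupp.single s 1) = c s := by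
    intro s
    show Finsupp.linearCombination (ZMod 2) c (Finsupp.single s 1) = c s
    rw [Finsupp.linearCombination_single, one_smul]
  have hbd : ∀ s : Finset V, bdS (Finsupp.single s 1) = ∑ w ∈ s, Finsupp.single (s.erase w) (1 : ZMod 2) := by
    intro s
    rw [bdS, Finsupp.linearCombination_single, one_smul]
  -- the boundaries
  have h1 : ∀ s ∈ X, φ (bdS (Finsupp.single s 1)) = 0 := by
    intro s hs
    rw [hbd, map_sum]
    simp only [hφ]
    by_cases h2 : s.card = 2
    · obtain ⟨a, b, hab, rfl⟩ := Finset.card_eq_two.1 h2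
      have e1 : ({a, b} : Finset V).erase a = {b} := by
        rw [Finset.erase_insert]
        rw [Finset.mem_singleton]; exact hab
      have e2 : ({a, b} : Finset V).erase b = {a} := by
        rw [Finset.pair_comm, Finset.erase_insert]
        rw [Finset.mem_singleton]; exact hab.symm
      rw [Finset.sum_pair hab, e1, e2, hc1, hc1]
      have := hCadj a b hs
      by_cases ha : a ∈ C
      · rw [if_pos ha, if_pos (this.1 ha)]; rfl
      · rw [if_neg ha, if_neg (fun h => ha (this.2 h))]; rfl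
    · refine Finset.sum_eq_zero fun w hw => hc0 _ ?_
      rw [Finset.card_erase_of_mem hw]
      have : 0 < s.card := Finset.card_pos.2 ⟨w, hw⟩
      omega
  have h2 : ∀ g : Finset V →₀ ZMod 2, (∀ s, g s ≠ 0 → s ∈ X) → φ (bdS g) = 0 := by
    intro g hg
    have e : g = ∑ s ∈ g.support, g s • Finsupp.single s (1 : ZMod 2) := by
      conv_lhs => rw [← Finsupp.sum_single g]
      rw [Finsupp.sum]
      refine Finset.sum_congr rfl fun s _ => ?_
      rw [Finsupp.smul_single, smul_eq_mul, mul_one]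
    rw [e, map_sum, map_sum]
    refine Finset.sum_eq_zero fun s hs => ?_
    rw [map_smul, map_smul, h1 s (hg s (Finsupp.mem_support_iff.1 hs)), smul_zero]
  -- the chain `u + v`
  obtain ⟨g, hg1, hg2⟩ := hac (Finsupp.single {u} 1 + Finsupp.single {v} 1) (by
    intro s hs
    left
    rw [Finsupp.add_apply, Finsupp.single_apply, Finsupp.single_apply] at hs
    by_cases e1 : ({u} : Finset V) = s
    · rw [← e1]; exact hu
    · by_cases e2 : ({v} : Finset V) = s
      · rw [← e2]; exact hv
      · rw [if_neg e1, if_neg e2, add_zero] at hs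
        exact absurd rfl hs) (by
    rw [map_add, hbd, hbd, Finset.sum_singleton, Finset.sum_singleton, Finset.erase_singleton,
      Finset.erase_singleton, ← Finsupp.single_add]
    have : (1 : ZMod 2) + 1 = 0 := rfl
    rw [this, Finsupp.single_zero])
  have h3 := h2 g hg1
  rw [hg2, map_add, hφ, hφ, hc1, hc1, if_pos (show u ∈ C from Relation.ReflTransGen.refl), if_neg (show v ∉ C from hcon)] at h3
  exact absurd h3 (by decide)

/-- acyclic complexes are nonempty -/
theorem nonempty_X (hac : Acyc X) : ∃ s, s ∈ X := by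
  classical
  by_contra hcon
  push Not at hcon
  obtain ⟨g, hg1, hg2⟩ := hac (Finsupp.single ∅ 1) (by
    intro s hs
    right
    rw [Finsupp.single_apply] at hs
    by_contra hne
    rw [if_neg (fun h => hne h.symm)] at hs
    exact hs rfl) (by
    rw [bdS, Finsupp.linearCombination_single, Finset.sum_empty, smul_zero])
  have hg0 : g = 0 := by
    ext s
    by_contra h
    exact hcon s (hg1 s h)
  rw [hg0, map_zero] at hg2
  have := DFunLike.congr_fun hg2 ∅
  rw [Finsupp.single_eq_same, Finsupp.zero_apply] at this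
  exact absurd this (by decide)

/-- acyclic complexes with a proper cocompact action are countable -/
theorem countable_X (hG : IsGeomS G X) (hac : Acyc X) : X.Countable := by
  classical
  rcases Set.eq_empty_or_nonempty X with h | ⟨s0, hs0⟩
  · rw [h]; exact Set.countable_empty
  · obtain ⟨u, hu⟩ := hG.ne s0 hs0
    have hu' : {u} ∈ X := hG.down s0 hs0 _ (Finset.singleton_subset_iff.2 hu) (Finset.singleton_nonempty u)
    have hloc : ∀ a : V, {b | ({a, b} : Finset V) ∈ X}.Finite := by
      intro a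
      by_cases ha : {a} ∈ X
      · refine ((hG.locfin ha).biUnion fun t _ => t.finite_toSet).subset ?_
        intro b hb
        refine Set.mem_biUnion (x := ({a, b} : Finset V)) ⟨hb, ?_⟩ ?_
        · exact Finset.singleton_subset_iff.2 (Finset.mem_insert_self a {b})
        · exact Finset.mem_coe.2 (Finset.mem_insert_of_mem (Finset.mem_singleton_self b))
      · have : {b | ({a, b} : Finset V) ∈ X} = ∅ := by
          ext b
          refine iff_of_false (fun hb => ha ?_) (Set.notMem_empty b)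
          exact hG.down _ hb _ (Finset.singleton_subset_iff.2 (Finset.mem_insert_self a {b})) (Finset.singleton_nonempty a)
        rw [this]; exact Set.finite_empty
    have hC := countable_comp (fun a b : V => ({a, b} : Finset V) ∈ X) hloc u
    have hC2 := Set.countable_ofPred_finite_subset hC
    refine (hC2.preimage_of_injOn (f := fun s : Finset V => (s : Set V)) Finset.coe_injective.injOn).mono ?_
    intro s hs
    refine ⟨s.finite_toSet, fun v hv => ?_⟩
    exact conn_X hac hu' (hG.down s hs _ (Finset.singleton_subset_iff.2 hv) (Finset.singleton_nonempty v))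

end Pool.Agent.S11

end

section

/-!
# Project S11: groups which act geometrically on acyclic complexes are countable
-/

set_option autoImplicit false

open Finset Pointwise

namespace Pool.Agent.S11

/-- a group with a proper cocompact action on an acyclic complex is countable -/
theorem countable_of_geom {V G : Type} [DecidableEq V] [Group G] [MulAction G V] {X : Set (Finset V)}
    (hG : IsGeomS G X) (hac : Pool.Agent.H37.TM.Acyc X) : Countable G := by
  obtain ⟨s, hs⟩ := nonempty_X hac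
  exact hG.countable hs (countable_X hG hac)

end Pool.Agent.S11

end

section

/-!
# Project S11: flatness of representations, kernels of the coinvariants

`Kr τ J` = kernel of the coinvariants of the subgroup `J`.

PROOFS.  `Kr` is `Submodule.span` of `τ j t - t`; the statements are formal.  `Kr_sup`: `J'` generated by `J` and the `y k`,
`J` normal: the submodule `Kr τ J + span {τ (y k) t - t}` contains `τ j t - t` for all `j ∈ J'` (`Subgroup.closure_induction`).
`Kr_exact`: let `f, p` be exact at `X'`, `p` surjective; if `p w ∈ Kr` then `w ∈ Kr + f(T)` (lift the generators; for the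
tensor products use `rTensor_exact`).  `Flat.of_retract`: apply `(lTensor)` of the two maps.
-/

set_option autoImplicit false
set_option linter.unusedSectionVars false

open TensorProduct

namespace Pool.Agent.S11

section

variable {H : Type} [Group H] {M : Type} [AddCommGroup M] [Module (ZMod 2) M]
  {X : Type} [AddCommGroup X] [Module (ZMod 2) X] {X' : Type} [AddCommGroup X'] [Module (ZMod 2) X']
  {X'' : Type} [AddCommGroup X''] [Module (ZMod 2) X'']

/-- the kernel of the coinvariants of the subgroup `J` -/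
def Kr (τ : Representation (ZMod 2) H M) (J : Subgroup H) : Submodule (ZMod 2) M :=
  Submodule.span (ZMod 2) {m | ∃ j ∈ J, ∃ t, m = τ j t - t}

theorem sub_mem_Kr (τ : Representation (ZMod 2) H M) {J : Subgroup H} {j : H} (hj : j ∈ J) (t : M) :
    τ j t - t ∈ Kr τ J := Submodule.subset_span ⟨j, hj, t, rfl⟩

theorem Kr_le {τ : Representation (ZMod 2) H M} {J : Subgroup H} {L : Submodule (ZMod 2) M}
    (h : ∀ j ∈ J, ∀ t, τ j t - t ∈ L) : Kr τ J ≤ L :=
  Submodule.span_le.2 (by rintro _ ⟨j, hj, t, rfl⟩; exact h j hj t)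

/-- linear maps which commute with the subgroup -/
theorem Kr_map {τ : Representation (ZMod 2) H M} {ρ : Representation (ZMod 2) H X} {J : Subgroup H}
    {f : M →ₗ[ZMod 2] X} (hf : ∀ j ∈ J, ∀ t, f (τ j t) = ρ j (f t)) {t : M} (ht : t ∈ Kr τ J) :
    f t ∈ Kr ρ J := by
  have : Kr τ J ≤ (Kr ρ J).comap f := Kr_le fun j hj t => by
    rw [Submodule.mem_comap, map_sub, hf j hj]
    exact sub_mem_Kr ρ hj _
  exact this ht

theorem rTensor_tprod (τ : Representation (ZMod 2) H M) {ρ' : Representation (ZMod 2) H X'}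
    {ρ'' : Representation (ZMod 2) H X''} {p : X' →ₗ[ZMod 2] X''}
    (hp : ∀ h x, p (ρ' h x) = ρ'' h (p x)) (h : H) (t : X' ⊗[ZMod 2] M) :
    p.rTensor M ((ρ'.tprod τ) h t) = (ρ''.tprod τ) h (p.rTensor M t) := by
  induction t with
  | zero => simp
  | add a b ha hb => simp only [map_add, ha, hb]
  | tmul x m => simp [Representation.tprod_apply, hp]

/-- right exactness -/
theorem Kr_exact (τ : Representation (ZMod 2) H M) {ρ : Representation (ZMod 2) H X}
    {ρ' : Representation (ZMod 2) H X'} {ρ'' : Representation (ZMod 2) H X''} {J : Subgroup H}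
    {f : X →ₗ[ZMod 2] X'} {p : X' →ₗ[ZMod 2] X''}
    (hp : ∀ h x, p (ρ' h x) = ρ'' h (p x)) (hex : Function.Exact f p) (hsur : Function.Surjective p)
    {w : X' ⊗[ZMod 2] M} (hw : p.rTensor M w ∈ Kr (ρ''.tprod τ) J) :
    ∃ u : X ⊗[ZMod 2] M, w - f.rTensor M u ∈ Kr (ρ'.tprod τ) J := by
  have hle : Kr (ρ''.tprod τ) J ≤ (Kr (ρ'.tprod τ) J).map (p.rTensor M) := by
    refine Kr_le fun j hj t => ?_
    obtain ⟨t', rfl⟩ := LinearMap.rTensor_surjective M hsur t
    refine ⟨(ρ'.tprod τ) j t' - t', sub_mem_Kr _ hj _, ?_⟩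
    rw [map_sub, rTensor_tprod τ hp]
  obtain ⟨κ, hκ, hκw⟩ := hle hw
  have h0 : p.rTensor M (w - κ) = 0 := by rw [map_sub, hκw, sub_self]
  obtain ⟨u, hu⟩ := (rTensor_exact M hex hsur (w - κ)).1 h0
  refine ⟨u, ?_⟩
  have e : w - f.rTensor M u = κ := by rw [hu]; abel
  rw [e]
  exact hκ

/-- `M` is flat over the group algebra of `H` -/
def Flat (τ : Representation (ZMod 2) H M) : Prop :=
  ∀ (X X' : Type) [AddCommGroup X] [Module (ZMod 2) X] [AddCommGroup X'] [Module (ZMod 2) X']
    (ρ : Representation (ZMod 2) H X) (ρ' : Representation (ZMod 2) H X') (f : X →ₗ[ZMod 2] X'),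
    (∀ g x, f (ρ g x) = ρ' g (f x)) → Function.Injective f → ∀ t : X ⊗[ZMod 2] M,
    f.rTensor M t ∈ Kr (ρ'.tprod τ) ⊤ → t ∈ Kr (ρ.tprod τ) ⊤

/-- retracts of flat representations -/
theorem Flat.of_retract {M' : Type} [AddCommGroup M'] [Module (ZMod 2) M'] {τ : Representation (ZMod 2) H M}
    {τ' : Representation (ZMod 2) H M'} (h : Flat τ) (i : M' →ₗ[ZMod 2] M) (p : M →ₗ[ZMod 2] M')
    (hi : ∀ g m, i (τ' g m) = τ g (i m)) (hp : ∀ g m, p (τ g m) = τ' g (p m)) (hpi : ∀ m, p (i m) = m) :
    Flat τ' := by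
  intro X X' _ _ _ _ ρ ρ' f hf hinj t ht
  have hL : ∀ {Z : Type} [AddCommGroup Z] [Module (ZMod 2) Z] {A B : Type} [AddCommGroup A]
      [Module (ZMod 2) A] [AddCommGroup B] [Module (ZMod 2) B]
      (σ : Representation (ZMod 2) H Z) (α : Representation (ZMod 2) H A)
      (β : Representation (ZMod 2) H B) (q : A →ₗ[ZMod 2] B) (_ : ∀ g m, q (α g m) = β g (q m))
      (t : Z ⊗[ZMod 2] A), t ∈ Kr (σ.tprod α) ⊤ → q.lTensor Z t ∈ Kr (σ.tprod β) ⊤ := by
    intro Z _ _ A B _ _ _ _ σ α β q hq t ht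
    refine Kr_map (τ := σ.tprod α) (ρ := σ.tprod β) (fun j _ t => ?_) ht
    induction t with
    | zero => simp
    | add a b ha hb => simp only [map_add, ha, hb]
    | tmul x m => simp [Representation.tprod_apply, hq]
  have h1 : f.rTensor M (i.lTensor X t) ∈ Kr (ρ'.tprod τ) ⊤ := by
    have e : f.rTensor M (i.lTensor X t) = i.lTensor X' (f.rTensor M' t) := by
      rw [← LinearMap.comp_apply, ← LinearMap.comp_apply, LinearMap.rTensor_comp_lTensor,
        LinearMap.lTensor_comp_rTensor]
    rw [e]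
    exact hL ρ' τ' τ i hi _ ht
  have h2 := h X X' ρ ρ' f hf hinj _ h1
  have h3 := hL ρ τ τ' p hp _ h2
  have e : p.lTensor X (i.lTensor X t) = t := by
    rw [← LinearMap.comp_apply, ← LinearMap.lTensor_comp]
    have : p ∘ₗ i = LinearMap.id := LinearMap.ext hpi
    rw [this, LinearMap.lTensor_id]
    rfl
  rwa [e] at h3

/-- **Exact sequences stay exact** -/
theorem Flat.exact {τ : Representation (ZMod 2) H M} (h : Flat τ) {ρ : Representation (ZMod 2) H X}
    {ρ' : Representation (ZMod 2) H X'} {ρ'' : Representation (ZMod 2) H X''}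
    {f : X →ₗ[ZMod 2] X'} {p : X' →ₗ[ZMod 2] X''} (hf : ∀ h x, f (ρ h x) = ρ' h (f x))
    (hp : ∀ h x, p (ρ' h x) = ρ'' h (p x)) (hex : Function.Exact f p) {w : X' ⊗[ZMod 2] M}
    (hw : p.rTensor M w ∈ Kr (ρ''.tprod τ) ⊤) :
    ∃ u : X ⊗[ZMod 2] M, w - f.rTensor M u ∈ Kr (ρ'.tprod τ) ⊤ := by
  have hst : ∀ g, ∀ z ∈ LinearMap.range p, ρ'' g z ∈ LinearMap.range p := by
    rintro g _ ⟨x, rfl⟩
    exact ⟨ρ' g x, hp g x⟩
  let ρZ : Representation (ZMod 2) H (LinearMap.range p) :=
    { toFun := fun g => (ρ'' g).restrict (hst g)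
      map_one' := by
        ext z
        simp
      map_mul' := fun a b => by
        ext z
        simp [LinearMap.restrict_apply] }
  have h1 : ∀ g z, ((LinearMap.range p).subtype (ρZ g z)) = ρ'' g ((LinearMap.range p).subtype z) :=
    fun g z => rfl
  have h2 : p.rTensor M w = (LinearMap.range p).subtype.rTensor M (p.rangeRestrict.rTensor M w) := by
    rw [← LinearMap.comp_apply, ← LinearMap.rTensor_comp]
    rfl
  rw [h2] at hw
  have h3 := h _ _ ρZ ρ'' (LinearMap.range p).subtype h1 (Submodule.injective_subtype _) _ hw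
  refine Kr_exact τ (ρ := ρ) (ρ' := ρ') (ρ'' := ρZ) (f := f) (p := p.rangeRestrict)
    (fun g x => Subtype.ext (hp g x)) ?_ p.surjective_rangeRestrict h3
  intro x
  rw [← hex x]
  constructor
  · intro hx
    exact congrArg Subtype.val hx
  · intro hx
    exact Subtype.ext hx

end

end Pool.Agent.S11

end

section

/-!
# S11, flatness: the division ring with an anti-automorphism

`V` a division ring with `V ⊗ V` flat for the action `a ⊗ b ↦ a g⁻¹ ⊗ g b`, `i : D → V` a division subring which contains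
the group and has an anti-automorphism `st` with `st g = g⁻¹`.  Then `D ⊗ D` is flat for the diagonal action
`a ⊗ b ↦ g a ⊗ g b`: it is a retract of `V ⊗ V` (`D → V` has a retraction which is linear over `D` on the right, and one
which is linear over `D` on the left).
-/

set_option autoImplicit false
set_option linter.unusedSectionVars false

open TensorProduct

namespace Pool.Agent.S11.FL

section

variable {V D : Type} [DivisionRing V] [DivisionRing D]

/-- a retraction, linear over `D` on the left -/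
theorem exists_retr_left (i : D →+* V) :
    ∃ p : V →+ D, (∀ d v, p (i d * v) = d * p v) ∧ ∀ d, p (i d) = d := by
  letI : Module D V := Module.compHom V i
  let I : D →ₗ[D] V :=
    { toFun := i
      map_add' := map_add i
      map_smul' := fun a b => by
        show i (a * b) = i a * i b
        exact map_mul i a b }
  have hI : LinearMap.ker I = ⊥ := LinearMap.ker_eq_bot.2 i.injective
  obtain ⟨p, hp⟩ := LinearMap.exists_leftInverse_of_injective I hI
  refine ⟨p.toAddMonoidHom, fun d v => ?_, fun d => LinearMap.congr_fun hp d⟩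
  exact p.map_smul d v

/-- a retraction, linear over `D` on the right -/
theorem exists_retr_right (i : D →+* V) :
    ∃ p : V →+ D, (∀ d v, p (v * i d) = p v * d) ∧ ∀ d, p (i d) = d := by
  letI : Module Dᵐᵒᵖ V := Module.compHom V (RingHom.op i)
  let I : D →ₗ[Dᵐᵒᵖ] V :=
    { toFun := i
      map_add' := map_add i
      map_smul' := fun a b => by
        show i (b * a.unop) = i b * i a.unop
        exact map_mul i b a.unop }
  have hI : LinearMap.ker I = ⊥ := LinearMap.ker_eq_bot.2 i.injective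
  obtain ⟨p, hp⟩ := LinearMap.exists_leftInverse_of_injective I hI
  refine ⟨p.toAddMonoidHom, fun d v => ?_, fun d => LinearMap.congr_fun hp d⟩
  exact p.map_smul (MulOpposite.op d) v

end

section

variable {H : Type} [Group H] {V D : Type} [DivisionRing V] [Module (ZMod 2) V] [DivisionRing D]
  [Module (ZMod 2) D]

/-- **Flatness for the diagonal action.** `R`, `L` = the actions `v ↦ v g⁻¹`, `v ↦ g v` on `V`; `T` = the action
`d ↦ g d` on `D`. -/
theorem flat_star {R L : Representation (ZMod 2) H V} {T : Representation (ZMod 2) H D}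
    {j : H → V} {k : H → D} (i : D →+* V) (hk : ∀ g, i (k g) = j g)
    (hR : ∀ g v, R g v = v * j g⁻¹) (hL : ∀ g v, L g v = j g * v) (hT : ∀ g d, T g d = k g * d)
    (st : D → D) (st_add : ∀ a b, st (a + b) = st a + st b) (st_mul : ∀ a b, st (a * b) = st b * st a)
    (st_st : ∀ a, st (st a) = a) (st_g : ∀ g, st (k g) = k g⁻¹)
    (h : Flat (R.tprod L)) : Flat (T.tprod T) := by
  obtain ⟨pl, hpl, hpl1⟩ := exists_retr_left i
  obtain ⟨pr, hpr, hpr1⟩ := exists_retr_right i
  let S : D →+ D := AddMonoidHom.mk' st st_add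
  have hS : ∀ a, S a = st a := fun _ => rfl
  let i₁ : D →ₗ[ZMod 2] V := (i.toAddMonoidHom.comp S).toZModLinearMap 2
  let i₂ : D →ₗ[ZMod 2] V := i.toAddMonoidHom.toZModLinearMap 2
  let p₁ : V →ₗ[ZMod 2] D := (S.comp pr).toZModLinearMap 2
  let p₂ : V →ₗ[ZMod 2] D := pl.toZModLinearMap 2
  have hi₁ : ∀ d, i₁ d = i (st d) := fun _ => rfl
  have hi₂ : ∀ d, i₂ d = i d := fun _ => rfl
  have hp₁ : ∀ v, p₁ v = st (pr v) := fun _ => rfl
  have hp₂ : ∀ v, p₂ v = pl v := fun _ => rfl
  refine h.of_retract (TensorProduct.map i₁ i₂) (TensorProduct.map p₁ p₂) ?_ ?_ ?_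
  · intro g m
    induction m with
    | zero => simp
    | add a b ha hb => simp only [map_add, ha, hb]
    | tmul a b =>
      simp only [Representation.tprod_apply, TensorProduct.map_tmul, hi₁, hi₂, hR, hL, hT]
      rw [st_mul, map_mul, map_mul, st_g, hk, hk]
  · intro g m
    induction m with
    | zero => simp
    | add a b ha hb => simp only [map_add, ha, hb]
    | tmul a b =>
      simp only [Representation.tprod_apply, TensorProduct.map_tmul, hp₁, hp₂, hR, hL, hT]
      rw [← hk, ← hk, hpr, hpl, st_mul, st_g, inv_inv]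
  · intro m
    induction m with
    | zero => simp
    | add a b ha hb => simp only [map_add, ha, hb]
    | tmul a b =>
      simp only [TensorProduct.map_tmul, hi₁, hi₂, hp₁, hp₂, hpr1, hpl1, st_st]

end

end Pool.Agent.S11.FL

end

section

/-!
# Project S11: the interface between the algebra and the topology

`lft ι` = the left multiplication on `D`; `Grow ι` = the growth property; `DPack H` = a division ring of characteristic two
with a homomorphism from the group algebra such that `D ⊗ D` with the diagonal action is flat, and with the growth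
property.
-/

set_option autoImplicit false
set_option linter.unusedSectionVars false

open TensorProduct

namespace Pool.Agent.S11

section

variable {H : Type} [Group H] {D : Type} [DivisionRing D] [Algebra (ZMod 2) D]

/-- the left multiplication -/
noncomputable def lft (ι : MonoidAlgebra (ZMod 2) H →+* D) : Representation (ZMod 2) H D where
  toFun g := LinearMap.mulLeft (ZMod 2) (ι (MonoidAlgebra.single g 1))
  map_one' := by
    refine LinearMap.ext fun d => ?_
    rw [LinearMap.mulLeft_apply, ← MonoidAlgebra.one_def, map_one, one_mul]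
    rfl
  map_mul' g h := by
    refine LinearMap.ext fun d => ?_
    rw [Module.End.mul_apply, LinearMap.mulLeft_apply, LinearMap.mulLeft_apply, LinearMap.mulLeft_apply,
      ← mul_assoc, ← map_mul, MonoidAlgebra.single_mul_single, mul_one]

theorem lft_apply (ι : MonoidAlgebra (ZMod 2) H →+* D) (g : H) (d : D) :
    lft ι g d = ι (MonoidAlgebra.single g 1) * d := rfl

open Pool.Agent.H4.Atiyah in
/-- **The growth property**: a matrix which has `r` rows which are independent over `D` has a large rank over the group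
algebras of suitable finite two-groups. -/
def Grow (ι : MonoidAlgebra (ZMod 2) H →+* D) : Prop :=
  ∀ (a c r : ℕ) (A : Matrix (Fin a) (Fin c) (MonoidAlgebra (ZMod 2) H)) (rows : Fin r → Fin a),
    (∀ v : Fin r → D, Matrix.vecMul v ((A.submatrix rows id).map ι) = 0 → v = 0) → ∀ ε : ℝ, 0 < ε →
    ∃ (P : Type) (_ : Group P) (_ : Fintype P), IsPGroup 2 P ∧ ∃ π : H →* P,
      ∀ (P' : Type) [Group P'] [Fintype P'], IsPGroup 2 P' → ∀ π' : H →* P',
        ((r : ℝ) - ε) * Fintype.card (P × P') ≤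
          ((op (A.map (MonoidAlgebra.mapDomainRingHom (ZMod 2) (π.prod π')))).rank : ℝ)

end

/-- the division ring -/
structure DPack (H : Type) [Group H] where
  /-- the division ring -/
  D : Type
  /-- it is a division ring -/
  div : DivisionRing D
  /-- of characteristic two -/
  alg : Algebra (ZMod 2) D
  /-- the homomorphism from the group algebra -/
  ι : MonoidAlgebra (ZMod 2) H →+* D
  flat : Flat ((lft ι).tprod (lft ι))
  grow : Grow ι

attribute [instance] DPack.div DPack.alg

end Pool.Agent.S11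

end

section

/-!
# Project S11, square lemma: the square map of a vector space over the field of two elements

`Sym / Alt` of `V ⊗ V` is `V`: `δ` is the diagonal part with respect to a basis; on the symmetric tensors it does not
depend on the basis.
-/

set_option autoImplicit false
set_option linter.unusedSectionVars false

open scoped TensorProduct

noncomputable section

namespace Pool.Agent.S11

variable {V : Type} [AddCommGroup V] [Module (ZMod 2) V]

/-- the exchange of the two factors -/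
def sw : V ⊗[ZMod 2] V →ₗ[ZMod 2] V ⊗[ZMod 2] V := (TensorProduct.comm (ZMod 2) V V).toLinearMap

@[simp] theorem sw_tmul (u v : V) : sw (u ⊗ₜ[ZMod 2] v) = v ⊗ₜ[ZMod 2] u := rfl

theorem sw_sw (x : V ⊗[ZMod 2] V) : sw (sw x) = x := by
  induction x using TensorProduct.induction_on with
  | zero => simp
  | tmul u v => rfl
  | add a b ha hb => rw [map_add, map_add, ha, hb]

theorem add_self_tt {W : Type} [AddCommGroup W] [Module (ZMod 2) W] (x : W) : x + x = 0 := by
  have h : (1 + 1 : ZMod 2) = 0 := rfl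
  calc x + x = (1 + 1 : ZMod 2) • x := by rw [add_smul, one_smul]
    _ = 0 := by rw [h, zero_smul]

/-- the image of `1 + T` -/
def Alt : Submodule (ZMod 2) (V ⊗[ZMod 2] V) := LinearMap.range (LinearMap.id + sw)

theorem mem_Alt {x : V ⊗[ZMod 2] V} : x ∈ (Alt : Submodule (ZMod 2) (V ⊗[ZMod 2] V)) ↔ ∃ y, y + sw y = x := Iff.rfl

theorem alt_sym {x : V ⊗[ZMod 2] V} (h : x ∈ (Alt : Submodule (ZMod 2) (V ⊗[ZMod 2] V))) : sw x = x := by
  obtain ⟨y, rfl⟩ := mem_Alt.1 h
  rw [map_add, sw_sw, add_comm]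

theorem exists_diag (V : Type) [AddCommGroup V] [Module (ZMod 2) V] :
    ∃ δ : V ⊗[ZMod 2] V →ₗ[ZMod 2] V, (∀ v, δ (v ⊗ₜ[ZMod 2] v) = v) ∧ (∀ x ∈ (Alt : Submodule (ZMod 2) (V ⊗[ZMod 2] V)), δ x = 0) ∧
      ∀ x, sw x = x → x + δ x ⊗ₜ[ZMod 2] δ x ∈ (Alt : Submodule (ZMod 2) (V ⊗[ZMod 2] V)) := by
  classical
  obtain ⟨ι, b⟩ := Module.Free.exists_basis (R := ZMod 2) (M := V)
  obtain ⟨i⟩ : Nonempty (LinearOrder ι) := ⟨linearOrderOfSTO (WellOrderingRel)⟩
  let _ := i
  set B := b.tensorProduct b with hB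
  set δ : V ⊗[ZMod 2] V →ₗ[ZMod 2] V := B.constr (ZMod 2) (fun p : ι × ι => if p.1 = p.2 then b p.1 else 0) with hδ
  have h1 : ∀ (x : V ⊗[ZMod 2] V) (i : ι), b.repr (δ x) i = B.repr x (i, i) := by
    intro x i
    have h2 : (b.coord i) ∘ₗ δ = B.coord (i, i) := by
      refine B.ext fun p => ?_
      obtain ⟨k, l⟩ := p
      rw [LinearMap.comp_apply, hδ, Module.Basis.constr_basis, Module.Basis.coord_apply, Module.Basis.coord_apply,
        Module.Basis.repr_self]
      by_cases hkl : k = l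
      · subst hkl
        simp [Finsupp.single_apply]
      · simp only [hkl, if_false, map_zero, Finsupp.coe_zero, Pi.zero_apply, Finsupp.single_apply, Prod.mk.injEq]
        rw [if_neg]
        rintro ⟨rfl, rfl⟩
        exact hkl rfl
    exact LinearMap.congr_fun h2 x
  have h2 : ∀ (u v : V) (i j : ι), B.repr (u ⊗ₜ[ZMod 2] v) (i, j) = b.repr u i * b.repr v j := by
    intro u v i j
    rw [hB, Module.Basis.tensorProduct_repr_tmul_apply, smul_eq_mul, mul_comm]
  have h3 : ∀ (x : V ⊗[ZMod 2] V) (i j : ι), B.repr (sw x) (i, j) = B.repr x (j, i) := by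
    intro x i j
    induction x using TensorProduct.induction_on with
    | zero => simp
    | tmul u v => rw [sw_tmul, h2, h2, mul_comm]
    | add a b ha hb => rw [map_add, map_add, map_add, Finsupp.add_apply, Finsupp.add_apply, ha, hb]
  have hsq : ∀ c : ZMod 2, c * c = c := by decide
  have hch : ∀ c : ZMod 2, c + c = 0 := by decide
  -- the diagonal part
  have h4 : ∀ x : V ⊗[ZMod 2] V, sw x = x → ∃ y, ∀ i j, B.repr (x + (y + sw y)) (i, j) = if i = j then B.repr x (i, i) else 0 := by
    intro x hx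
    refine ⟨B.repr.symm ((B.repr x).filter fun p => p.1 < p.2), fun i j => ?_⟩
    rw [map_add, map_add, Finsupp.add_apply, Finsupp.add_apply, h3, LinearEquiv.apply_symm_apply, Finsupp.filter_apply,
      Finsupp.filter_apply]
    have h5 : B.repr x (j, i) = B.repr x (i, j) := by
      conv_lhs => rw [← hx]
      rw [h3]
    rcases lt_trichotomy i j with h | h | h
    · simp only [h, if_true, not_lt.2 h.le, if_false, add_zero, h.ne]
      exact hch _
    · subst h
      simp
    · simp only [h, if_true, not_lt.2 h.le, if_false, zero_add, h.ne']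
      rw [h5]
      exact hch _
  refine ⟨δ, fun v => ?_, fun x hx => ?_, fun x hx => ?_⟩
  · refine b.ext_elem fun i => ?_
    rw [h1, h2, hsq]
  · obtain ⟨y, rfl⟩ := mem_Alt.1 hx
    refine b.ext_elem fun i => ?_
    rw [h1, map_add, Finsupp.add_apply, h3, hch, map_zero, Finsupp.coe_zero, Pi.zero_apply]
  · obtain ⟨y, hy⟩ := h4 x hx
    obtain ⟨y', hy'⟩ := h4 (δ x ⊗ₜ[ZMod 2] δ x) (by rw [sw_tmul])
    refine mem_Alt.2 ⟨y + y', ?_⟩
    have h5 : x + (y + sw y) = δ x ⊗ₜ[ZMod 2] δ x + (y' + sw y') := by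
      refine B.ext_elem fun p => ?_
      obtain ⟨i, j⟩ := p
      rw [hy, hy', h2, hsq, h1]
    have h6 : x + δ x ⊗ₜ[ZMod 2] δ x = (x + (y + sw y)) + (y + sw y) + δ x ⊗ₜ[ZMod 2] δ x := by
      rw [add_assoc x, add_self_tt, add_zero]
    rw [h6, h5, map_add]
    have h7 := add_self_tt (δ x ⊗ₜ[ZMod 2] δ x)
    calc y + y' + (sw y + sw y') = (y' + sw y') + (y + sw y) + 0 := by abel
      _ = (y' + sw y') + (y + sw y) + (δ x ⊗ₜ[ZMod 2] δ x + δ x ⊗ₜ[ZMod 2] δ x) := by rw [h7]
      _ = _ := by abel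

end Pool.Agent.S11

end
end

section

/-!
# Project S11, square lemma: equivariant cochains with finite support modulo the group

`K` a simplicial complex (nonempty finite sets), `B` a subcomplex, `Γ` a group which acts on the vertices, `ρ` a
representation of `Γ` over the field of two elements.
-/

set_option autoImplicit false
set_option linter.unusedSectionVars false

open Finset Pointwise

namespace Pool.Agent.S11

variable {Γ U : Type} [Group Γ] [DecidableEq U] [MulAction Γ U] {W : Type} [AddCommGroup W] [Module (ZMod 2) W]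

/-- equivariant cochains of `K` relative to `B` on the simplices with `q` vertices with values in `ρ`, with finite
support modulo `Γ` -/
structure EqC (K B : Set (Finset U)) (ρ : Γ →* Module.End (ZMod 2) W) (q : ℕ) (c : Finset U → W) : Prop where
  supp : ∀ s, c s ≠ 0 → s ∈ K ∧ s ∉ B ∧ s.card = q
  eqv : ∀ (g : Γ) (s : Finset U), c (g • s) = ρ g (c s)
  fin : ∃ F : Finset (Finset U), ∀ s, c s ≠ 0 → ∃ g : Γ, g • s ∈ F

/-- `f` is the coboundary of `c` -/
def IsCb (K B : Set (Finset U)) (c f : Finset U → W) : Prop :=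
  ∀ t ∈ K, t ∉ B → ∑ v ∈ t, c (t.erase v) = f t

/-- the cohomology of degree `q` of the complex of cochains with values in `ρ` vanishes -/
def ExactAt (K B : Set (Finset U)) (ρ : Γ →* Module.End (ZMod 2) W) (q : ℕ) : Prop :=
  ∀ c : Finset U → W, EqC K B ρ (q + 1) c → IsCb K B c 0 → ∃ b, EqC K B ρ q b ∧ IsCb K B b c

/-- the relation `r` is a strict total order on `s` -/
def TotOn (r : U → U → Prop) (s : Finset U) : Prop :=
  (∀ u ∈ s, ¬ r u u) ∧ (∀ u ∈ s, ∀ v ∈ s, ∀ w ∈ s, r u v → r v w → r u w) ∧ ∀ u ∈ s, ∀ v ∈ s, u ≠ v → r u v ∨ r v u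

/-- simplicial pairs with a free simplicial action; the complex is locally finite, of any dimension, the action need
not be cocompact -/
structure SCx (Γ : Type) [Group Γ] [MulAction Γ U] (K B : Set (Finset U)) : Prop where
  ne : ∀ s ∈ K, s.Nonempty
  down : ∀ s ∈ K, ∀ t, t ⊆ s → t.Nonempty → t ∈ K
  bd_sub : B ⊆ K
  bd_down : ∀ s ∈ B, ∀ t, t ⊆ s → t.Nonempty → t ∈ B
  locfin : ∀ s ∈ K, {t | t ∈ K ∧ s ⊆ t}.Finite
  K_mem : ∀ (g : Γ) (s : Finset U), s ∈ K → g • s ∈ K
  B_mem : ∀ (g : Γ) (s : Finset U), s ∈ B → g • s ∈ B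
  free : ∀ (g : Γ) (s : Finset U), s ∈ K → g • s = s → g = 1

/-- simplicial pairs with a free simplicial action and an invariant relation which is a strict total order on every
simplex -/
structure SPair (Γ : Type) [Group Γ] [MulAction Γ U] (K B : Set (Finset U)) (r : U → U → Prop) : Prop
    extends SCx Γ K B where
  r_smul : ∀ (g : Γ) (u v : U), r (g • u) (g • v) ↔ r u v
  r_tot : ∀ s ∈ K, TotOn r s

end Pool.Agent.S11

end

section

/-!
# Project S11, block END: definitions

`L2ZeroS X i`: the reduced `ℓ²`-homology of the simplicial complex `X` vanishes in degree `i`.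
`FreeX`: a free cocompact simplicial action; `Rps`: representatives of the orbits of the simplices with `k` vertices;
`incR`: incidence numbers with respect to the order `r` of the vertices; `mtx`: the matrices of the boundary.
-/

set_option autoImplicit false
set_option linter.unusedSectionVars false

open Finset Pointwise

namespace Pool.Agent.S11

section

variable {U : Type} [DecidableEq U]

/-- a relation which orders every simplex -/
def Tot (X : Set (Finset U)) (r : U → U → Prop) : Prop :=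
  ∀ s ∈ X, ∀ u ∈ s, ∀ v ∈ s, u ≠ v → ((r u v ∧ ¬ r v u) ∨ (r v u ∧ ¬ r u v)) ∧ ∀ w ∈ s, r u v → r v w → r u w

/-- the cochains which are cocycles -/
def IsCoc (X : Set (Finset U)) (r : U → U → Prop) (z : Finset U → ℝ) : Prop :=
  ∀ t ∈ X, ∑ v ∈ t, (sgR r (t.erase v) v : ℝ) * z (t.erase v) = 0

/-- the incidence numbers -/
noncomputable def incR (r : U → U → Prop) (s t : Finset U) : ℤ :=
  if s ⊆ t ∧ t.card = s.card + 1 then ∏ v ∈ t \ s, sgR r s v else 0

/-- the boundary of the functions with values in a vector space over the field of two elements -/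
noncomputable def bdV {W : Type} [AddCommGroup W] (e : Finset U → W) (s : Finset U) : W :=
  ∑ᶠ v ∈ {v | v ∉ s}, e (insert v s)

/-- a free cocompact simplicial action on the simplicial complex `X` -/
structure FreeX (H : Type) [Group H] [MulAction H U] (X : Set (Finset U)) : Prop where
  ne : ∀ s ∈ X, s.Nonempty
  down : ∀ s ∈ X, ∀ t, t ⊆ s → t.Nonempty → t ∈ X
  mem : ∀ (g : H), ∀ s ∈ X, g • s ∈ X
  free : ∀ (g : H), ∀ s ∈ X, g • s = s → g = 1
  fin : ∃ F : Finset (Finset U), ∀ s ∈ X, ∃ g : H, g • s ∈ F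

variable {H : Type} [Group H] [MulAction H U]

/-- the boundary is exact on the equivariant functions on the simplices with `k` vertices -/
def ExactBd (X : Set (Finset U)) {W : Type} [AddCommGroup W] [Module (ZMod 2) W] (ρ : H →* Module.End (ZMod 2) W)
    (k : ℕ) : Prop :=
  ∀ e, EqC X ∅ ρ k e → (∀ s ∈ X, bdV e s = 0) → ∃ f, EqC X ∅ ρ (k + 1) f ∧ ∀ s ∈ X, bdV f s = e s

/-- `R` represents the orbits of the simplices with `k` vertices -/
structure Rps (H : Type) [Group H] [MulAction H U] (X : Set (Finset U)) (k : ℕ) {a : ℕ} (R : Fin a → Finset U) :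
    Prop where
  mem : ∀ j, R j ∈ X
  card : ∀ j, (R j).card = k
  ex : ∀ s ∈ X, s.card = k → ∃ (g : H) (j : Fin a), s = g • R j
  uniq : ∀ (g g' : H) (j j' : Fin a), g • R j = g' • R j' → g = g' ∧ j = j'

/-- the matrix of the boundary: the coefficient of `h` is the incidence number of `R l` and `h • R' j` -/
noncomputable def mtx (H : Type) [Group H] [MulAction H U] (r : U → U → Prop) {a b : ℕ} (R : Fin a → Finset U)
    (R' : Fin b → Finset U) : Matrix (Fin a) (Fin b) (MonoidAlgebra ℤ H) :=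
  fun l j => ∑ᶠ h : H, MonoidAlgebra.single h (incR r (R l) (h • R' j))

/-- reduction of the coefficients modulo two -/
noncomputable def mod2 {H : Type} [Group H] {a b : ℕ} (A : Matrix (Fin a) (Fin b) (MonoidAlgebra ℤ H)) :
    Matrix (Fin a) (Fin b) (MonoidAlgebra (ZMod 2) H) :=
  A.map (MonoidAlgebra.mapRingHom H (Int.castRingHom (ZMod 2)))

end

end Pool.Agent.S11

end

section

/-!
# Project S11, block END: change of the order of the vertices

`eps s = ∏ over the pairs u, w in s (each pair once) of ±1`, `-1` if `r` and `r'` order them differently; then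
`sgR r' s v = eps s * eps (insert v s) * sgR r s v` for `insert v s ∈ X`.  A chain `z` goes to `eps * z`.
-/

set_option autoImplicit false
set_option linter.unusedSectionVars false
set_option linter.unusedVariables false

open Finset

namespace Pool.Agent.S11

variable {U : Type} [DecidableEq U] {X : Set (Finset U)}

open Classical in
/-- the pairs of elements of `s` which are ordered differently -/
private noncomputable def edInv (r r' : U → U → Prop) (s : Finset U) : Finset (U × U) :=
  (s ×ˢ s).filter fun p => p.1 ≠ p.2 ∧ r p.1 p.2 ∧ r' p.2 p.1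

private noncomputable def edEps (r r' : U → U → Prop) (s : Finset U) : ℤ := (-1) ^ (edInv r r' s).card

open Classical in
private theorem edInv_insert (r r' : U → U → Prop) {s : Finset U} {v : U} (hv : v ∉ s) :
    (edInv r r' (insert v s)).card = (edInv r r' s).card + (s.filter fun u => r u v ∧ r' v u).card +
      (s.filter fun u => r v u ∧ r' u v).card := by
  have h : edInv r r' (insert v s) = (edInv r r' s ∪ (s.filter fun u => r u v ∧ r' v u).image fun u => (u, v)) ∪
      (s.filter fun u => r v u ∧ r' u v).image fun u => (v, u) := by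
    ext ⟨a, b⟩
    simp only [edInv, mem_filter, mem_product, mem_insert, mem_union, mem_image, Prod.mk.injEq]
    constructor
    · rintro ⟨⟨ha, hb⟩, hab, h1, h2⟩
      rcases ha with rfl | ha
      · rcases hb with rfl | hb
        · exact absurd rfl hab
        · exact Or.inr ⟨b, ⟨hb, h1, h2⟩, rfl, rfl⟩
      · rcases hb with rfl | hb
        · exact Or.inl (Or.inr ⟨a, ⟨ha, h1, h2⟩, rfl, rfl⟩)
        · exact Or.inl (Or.inl ⟨⟨ha, hb⟩, hab, h1, h2⟩)
    · rintro ((⟨⟨ha, hb⟩, hab, h1, h2⟩ | ⟨u, ⟨hu, h1, h2⟩, rfl, rfl⟩) | ⟨u, ⟨hu, h1, h2⟩, rfl, rfl⟩)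
      · exact ⟨⟨Or.inr ha, Or.inr hb⟩, hab, h1, h2⟩
      · exact ⟨⟨Or.inr hu, Or.inl rfl⟩, fun e => hv (e ▸ hu), h1, h2⟩
      · exact ⟨⟨Or.inl rfl, Or.inr hu⟩, fun e => hv (e ▸ hu), h1, h2⟩
  rw [h, card_union_of_disjoint, card_union_of_disjoint, card_image_of_injective, card_image_of_injective]
  · intro x y hxy
    exact (Prod.mk.inj hxy).2
  · intro x y hxy
    exact (Prod.mk.inj hxy).1
  · rw [disjoint_left]
    rintro ⟨a, b⟩ h1 h2
    simp only [edInv, mem_filter, mem_product] at h1
    simp only [mem_image, mem_filter, Prod.mk.injEq] at h2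
    obtain ⟨u, -, rfl, rfl⟩ := h2
    exact hv h1.1.2
  · rw [disjoint_left]
    rintro ⟨a, b⟩ h1 h2
    simp only [edInv, mem_union, mem_filter, mem_product, mem_image, Prod.mk.injEq] at h1
    simp only [mem_image, mem_filter, Prod.mk.injEq] at h2
    obtain ⟨u, hu, rfl, rfl⟩ := h2
    rcases h1 with h1 | ⟨w, hw, rfl, rfl⟩
    · exact hv h1.1.1
    · exact hv hw.1

open Classical in
private theorem edCard (P Q P' Q' : U → Prop) (s : Finset U) (hP : ∀ u ∈ s, P u ↔ ¬ P' u) (hQ : ∀ u ∈ s, Q u ↔ ¬ Q' u) :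
    (s.filter P).card + (s.filter Q).card = (s.filter fun u => P u ∧ Q' u).card + (s.filter fun u => P' u ∧ Q u).card +
      2 * (s.filter fun u => P u ∧ Q u).card := by
  have h1 : (s.filter P).card = (s.filter fun u => P u ∧ Q u).card + (s.filter fun u => P u ∧ Q' u).card := by
    rw [← card_filter_add_card_filter_not (s := s.filter P) Q, filter_filter, filter_filter]
    congr 1
    refine congrArg card (filter_congr fun u hu => ?_)
    have := hQ u hu
    tauto
  have h2 : (s.filter Q).card = (s.filter fun u => P u ∧ Q u).card + (s.filter fun u => P' u ∧ Q u).card := by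
    rw [← card_filter_add_card_filter_not (s := s.filter Q) P, filter_filter, filter_filter]
    congr 1
    · refine congrArg card (filter_congr fun u hu => ?_)
      tauto
    · refine congrArg card (filter_congr fun u hu => ?_)
      have := hP u hu
      tauto
  omega

theorem exists_eps (hdown : ∀ s ∈ X, ∀ t, t ⊆ s → t.Nonempty → t ∈ X) {r r' : U → U → Prop} (hT : Tot X r) (hT' : Tot X r') :
    ∃ eps : Finset U → ℤ, (∀ s, eps s = 1 ∨ eps s = -1) ∧
      ∀ s v, v ∉ s → insert v s ∈ X → sgR r' s v = eps s * eps (insert v s) * sgR r s v := by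
  classical
  refine ⟨edEps r r', fun s => neg_one_pow_eq_or ℤ _, fun s v hv hX => ?_⟩
  have h1 : ∀ u ∈ s, (r u v ↔ ¬ r v u) ∧ (r' u v ↔ ¬ r' v u) := by
    intro u hu
    have hne : u ≠ v := fun e => hv (e ▸ hu)
    have a1 := (hT _ hX u (mem_insert_of_mem hu) v (mem_insert_self _ _) hne).1
    have a2 := (hT' _ hX u (mem_insert_of_mem hu) v (mem_insert_self _ _) hne).1
    constructor <;> tauto
  have h2 := edCard (fun u => r u v) (fun u => r' u v) (fun u => r v u) (fun u => r' v u) s (fun u hu => (h1 u hu).1)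
    (fun u hu => (h1 u hu).2)
  have h3 := edInv_insert r r' hv
  have h4 : (-1 : ℤ) ^ (s.filter fun u => r' u v).card * (-1) ^ (s.filter fun u => r u v).card =
      (-1) ^ (edInv r r' s).card * (-1) ^ (edInv r r' (insert v s)).card := by
    rw [← pow_add, ← pow_add, h3, add_comm (s.filter fun u => r' u v).card, h2]
    rw [show (edInv r r' s).card + ((edInv r r' s).card + (s.filter fun u => r u v ∧ r' v u).card +
      (s.filter fun u => r v u ∧ r' u v).card) = ((s.filter fun u => r u v ∧ r' v u).card +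
      (s.filter fun u => r v u ∧ r' u v).card) + 2 * (edInv r r' s).card by ring, pow_add _ _ (2 * _), pow_add _ _ (2 * _),
      pow_mul, pow_mul]
    norm_num
  have h5 : (-1 : ℤ) ^ (s.filter fun u => r u v).card * (-1) ^ (s.filter fun u => r u v).card = 1 := by
    rw [← pow_add, ← two_mul, pow_mul]
    norm_num
  unfold sgR edEps
  rw [← h4, mul_assoc, h5, mul_one]

theorem tot_of_order {r : U → U → Prop} (hr : IsStrictTotalOrder U r) : Tot X r := by
  intro s _ u _ v _ huv
  have hirr : ∀ a, ¬ r a a := fun a => irrefl_of r a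
  have htr : ∀ a b c, r a b → r b c → r a c := fun a b c h1 h2 => trans_of r h1 h2
  refine ⟨?_, fun w _ h1 h2 => htr _ _ _ h1 h2⟩
  rcases trichotomous_of r u v with h | h | h
  · exact Or.inl ⟨h, fun h' => hirr _ (htr _ _ _ h h')⟩
  · exact absurd h huv
  · exact Or.inr ⟨h, fun h' => hirr _ (htr _ _ _ h h')⟩

/-- if harmonic chains vanish for one order then for every order -/
theorem harm_order (hdown : ∀ s ∈ X, ∀ t, t ⊆ s → t.Nonempty → t ∈ X) {r r' : U → U → Prop} (hT : Tot X r) (hT' : Tot X r') (k : ℕ)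
    (h : ∀ z, IsL2Ch X k z → (∀ s ∈ X, bdR r z s = 0) → IsCoc X r z → z = 0) :
    ∀ z, IsL2Ch X k z → (∀ s ∈ X, bdR r' z s = 0) → IsCoc X r' z → z = 0 := by
  classical
  obtain ⟨eps, he, hs⟩ := exists_eps hdown hT hT'
  have he2 : ∀ s, eps s * eps s = 1 := by
    intro s
    rcases he s with h | h <;> rw [h] <;> norm_num
  have he2' : ∀ s, (eps s : ℝ) * eps s = 1 := by
    intro s
    exact_mod_cast he2 s
  -- the formula in the other direction
  have hs' : ∀ s v, v ∉ s → insert v s ∈ X → (sgR r s v : ℝ) * eps (insert v s) = eps s * sgR r' s v := by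
    intro s v hv hX
    have h1 : sgR r s v * eps (insert v s) = eps s * sgR r' s v := by
      rw [hs s v hv hX, ← mul_assoc, ← mul_assoc, he2, one_mul, mul_comm]
    exact_mod_cast h1
  intro z hz hb hc
  have key : (fun s => (eps s : ℝ) * z s) = 0 := by
    refine h _ ⟨fun s hs => hz.supp s fun h0 => hs (by simp [h0]), ?_⟩ ?_ ?_
    · refine hz.l2.congr fun s => ?_
      show z s ^ 2 = ((eps s : ℝ) * z s) ^ 2
      have h2 := he2' s
      calc z s ^ 2 = ((eps s : ℝ) * eps s) * z s ^ 2 := by rw [h2, one_mul]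
        _ = ((eps s : ℝ) * z s) ^ 2 := by ring
    · intro s hsX
      have h1 : bdR r (fun s => (eps s : ℝ) * z s) s = (eps s : ℝ) • bdR r' z s := by
        unfold bdR
        rw [smul_finsum]
        refine finsum_congr fun v => ?_
        rw [smul_finsum]
        refine finsum_congr fun hv => ?_
        by_cases h0 : z (insert v s) = 0
        · simp [h0]
        · have h2 := hs' s v hv (hz.supp _ h0).1
          rw [smul_eq_mul, ← mul_assoc, h2, mul_assoc]
      rw [h1, hb s hsX, smul_zero]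
    · intro t ht
      have h1 : ∑ v ∈ t, (sgR r (t.erase v) v : ℝ) * ((eps (t.erase v) : ℝ) * z (t.erase v)) =
          (eps t : ℝ) * ∑ v ∈ t, (sgR r' (t.erase v) v : ℝ) * z (t.erase v) := by
        rw [mul_sum]
        refine sum_congr rfl fun v hv => ?_
        have h2 := hs' (t.erase v) v (notMem_erase v t) (by rwa [insert_erase hv])
        rw [insert_erase hv] at h2
        have h3 : (sgR r (t.erase v) v : ℝ) * eps (t.erase v) = eps t * sgR r' (t.erase v) v := by
          have e1 : (sgR r (t.erase v) v : ℝ) * eps t * eps t * eps (t.erase v) =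
              eps (t.erase v) * sgR r' (t.erase v) v * eps t * eps (t.erase v) := by rw [h2]
          have e2 := he2' t
          have e3 := he2' (t.erase v)
          calc (sgR r (t.erase v) v : ℝ) * eps (t.erase v) = (sgR r (t.erase v) v : ℝ) * (eps t * eps t) * eps (t.erase v) := by
                rw [e2, mul_one]
            _ = eps (t.erase v) * sgR r' (t.erase v) v * eps t * eps (t.erase v) := by rw [← e1]; ring
            _ = (eps (t.erase v) * eps (t.erase v)) * (eps t * sgR r' (t.erase v) v) := by ring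
            _ = eps t * sgR r' (t.erase v) v := by rw [e3, one_mul]
        rw [← mul_assoc, h3, mul_assoc]
      rw [h1, hc t ht, mul_zero]
  funext s
  have h1 := congrFun key s
  simp only [Pi.zero_apply] at h1
  rcases he s with h2 | h2
  · rw [h2] at h1
    simpa using h1
  · rw [h2] at h1
    simpa using h1

end Pool.Agent.S11

end

section

/-!
# Project S11, block END: representatives of the orbits

`finite_smul_sub`: `g • s ⊆ t`; the set `g • s` is one of the finitely many subsets of `t`, and the action on the simplices is free.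
`cofaces_finite`: `t = g⁻¹ • f`, `f ∈ F`, and `g • s ⊆ f`.  `exists_rps`: choose one element in each orbit which meets `F`.
-/

set_option autoImplicit false
set_option linter.unusedSectionVars false
set_option linter.unusedVariables false

open Finset Pointwise

namespace Pool.Agent.S11

variable {U H : Type} [DecidableEq U] [Group H] [MulAction H U] {X : Set (Finset U)}

theorem finite_smul_sub (hX : FreeX H X) {s : Finset U} (hs : s ∈ X) (t : Finset U) : {g : H | g • s ⊆ t}.Finite := by
  have hsub : {g : H | g • s ⊆ t} ⊆ (fun g : H => g • s) ⁻¹' (↑t.powerset : Set (Finset U)) := by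
    intro g hg
    exact Finset.mem_coe.2 (Finset.mem_powerset.2 hg)
  have hinj : Function.Injective (fun g : H => g • s) := by
    intro g g' h
    have h1 : (g'⁻¹ * g) • s = s := by
      rw [mul_smul]
      have : g • s = g' • s := h
      rw [this, inv_smul_smul]
    have h2 := hX.free _ s hs h1
    have : g' = g := by
      rw [inv_mul_eq_one] at h2
      exact h2
    exact this.symm
  exact (Set.Finite.preimage hinj.injOn (Finset.finite_toSet _)).subset hsub

theorem finite_sub_smul (hX : FreeX H X) {s : Finset U} (hs : s ∈ X) {t : Finset U} (ht : t ∈ X) : {g : H | s ⊆ g • t}.Finite := by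
  have h1 : {g : H | g • s ⊆ t}.Finite := finite_smul_sub hX hs t
  have h2 : {g : H | s ⊆ g • t} ⊆ (fun g : H => g⁻¹) '' {g : H | g • s ⊆ t} := by
    intro g hg
    refine ⟨g⁻¹, ?_, inv_inv g⟩
    have : g⁻¹ • s ⊆ g⁻¹ • (g • t) := Finset.smul_finset_subset_smul_finset hg
    rwa [inv_smul_smul] at this
  exact (h1.image _).subset h2

theorem cofaces_finite (hX : FreeX H X) {s : Finset U} (hs : s ∈ X) : {t | t ∈ X ∧ s ⊆ t}.Finite := by
  obtain ⟨F, hF⟩ := hX.fin
  have h2 : {t | t ∈ X ∧ s ⊆ t} ⊆ ⋃ f ∈ (↑F : Set (Finset U)), (fun g : H => g⁻¹ • f) '' {g : H | g • s ⊆ f} := by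
    rintro t ⟨ht, hst⟩
    obtain ⟨g, hg⟩ := hF t ht
    simp only [Set.mem_iUnion]
    refine ⟨g • t, Finset.mem_coe.2 hg, g, ?_, inv_smul_smul g t⟩
    exact Finset.smul_finset_subset_smul_finset hst
  exact (Set.Finite.biUnion (Finset.finite_toSet F) fun f _ => (finite_smul_sub hX hs f).image _).subset h2

theorem exists_rps (hX : FreeX H X) (k : ℕ) : ∃ (a : ℕ) (R : Fin a → Finset U), Rps H X k R := by
  classical
  obtain ⟨F, hF⟩ := hX.fin
  -- the set of orbits of the simplices with `k` vertices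
  let Q : Set (MulAction.orbitRel.Quotient H (Finset U)) :=
    (fun s : Finset U => (Quotient.mk _ s : MulAction.orbitRel.Quotient H (Finset U))) '' {s | s ∈ X ∧ s.card = k}
  have hQ : Q.Finite := by
    refine ((Finset.finite_toSet F).image (fun s : Finset U => (Quotient.mk _ s : MulAction.orbitRel.Quotient H (Finset U)))).subset ?_
    rintro _ ⟨s, ⟨hs, _⟩, rfl⟩
    obtain ⟨g, hg⟩ := hF s hs
    refine ⟨g • s, Finset.mem_coe.2 hg, ?_⟩
    apply Quotient.sound
    exact ⟨g, rfl⟩
  have : Finite Q := hQ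
  have : Fintype Q := Fintype.ofFinite _
  let e := Fintype.equivFin Q
  have hch : ∀ j : Fin (Fintype.card Q), ∃ s : Finset U, (s ∈ X ∧ s.card = k) ∧
      (Quotient.mk _ s : MulAction.orbitRel.Quotient H (Finset U)) = (e.symm j).1 := fun j => (e.symm j).2
  choose R hR1 hR2 using hch
  refine ⟨Fintype.card Q, R, fun j => (hR1 j).1, fun j => (hR1 j).2, ?_, ?_⟩
  · intro s hs hk
    have hq : (Quotient.mk _ s : MulAction.orbitRel.Quotient H (Finset U)) ∈ Q := ⟨s, ⟨hs, hk⟩, rfl⟩
    have h1 := hR2 (e ⟨_, hq⟩)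
    rw [e.symm_apply_apply] at h1
    have h2 := Quotient.exact h1.symm
    obtain ⟨g, hg⟩ := h2
    exact ⟨g, _, hg.symm⟩
  · intro g g' j j' h
    have h1 : (Quotient.mk _ (R j) : MulAction.orbitRel.Quotient H (Finset U)) = Quotient.mk _ (R j') := by
      apply Quotient.sound
      refine ⟨g⁻¹ * g', ?_⟩
      show (g⁻¹ * g') • R j' = R j
      rw [mul_smul, ← h, inv_smul_smul]
    rw [hR2, hR2] at h1
    have h2 : j = j' := e.symm.injective (Subtype.ext h1)
    subst h2
    refine ⟨?_, rfl⟩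
    have h3 : (g'⁻¹ * g) • R j = R j := by
      rw [mul_smul, h, inv_smul_smul]
    have h4 := hX.free _ _ (hR1 j).1 h3
    rw [inv_mul_eq_one] at h4
    exact h4.symm

end Pool.Agent.S11

end

section

/-!
# Project S11, square lemma: operations on equivariant cochains
-/

set_option autoImplicit false
set_option linter.unusedSectionVars false

open Finset Pointwise
open scoped TensorProduct

noncomputable section

namespace Pool.Agent.S11

variable {Γ U : Type} [Group Γ] [DecidableEq U] [MulAction Γ U] {K B : Set (Finset U)}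
  {W W' : Type} [AddCommGroup W] [Module (ZMod 2) W] [AddCommGroup W'] [Module (ZMod 2) W']
  {ρ : Γ →* Module.End (ZMod 2) W} {ρ' : Γ →* Module.End (ZMod 2) W'}

namespace EqC

theorem zero (q : ℕ) : EqC K B ρ q (0 : Finset U → W) where
  supp := fun s h => absurd rfl h
  eqv := fun g s => by simp
  fin := ⟨∅, fun s h => absurd rfl h⟩

theorem add {q : ℕ} {c d : Finset U → W} (hc : EqC K B ρ q c) (hd : EqC K B ρ q d) :
    EqC K B ρ q (c + d) where
  supp := by
    intro s h
    by_cases h0 : c s = 0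
    · refine hd.supp s fun h1 => h ?_
      rw [Pi.add_apply, h0, h1, add_zero]
    · exact hc.supp s h0
  eqv := fun g s => by rw [Pi.add_apply, Pi.add_apply, hc.eqv, hd.eqv, map_add]
  fin := by
    obtain ⟨F, hF⟩ := hc.fin
    obtain ⟨F', hF'⟩ := hd.fin
    refine ⟨F ∪ F', fun s h => ?_⟩
    by_cases h0 : c s = 0
    · obtain ⟨g, hg⟩ := hF' s fun h1 => h (by rw [Pi.add_apply, h0, h1, add_zero])
      exact ⟨g, mem_union_right _ hg⟩
    · obtain ⟨g, hg⟩ := hF s h0
      exact ⟨g, mem_union_left _ hg⟩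

/-- the image under a map which is additive and equivariant on the values -/
theorem map {q : ℕ} {c : Finset U → W} (hc : EqC K B ρ q c) (L : W → W') (h0 : L 0 = 0)
    (hL : ∀ g s, L (ρ g (c s)) = ρ' g (L (c s))) : EqC K B ρ' q (fun s => L (c s)) where
  supp := fun s h => hc.supp s fun h1 => h (by rw [h1, h0])
  eqv := fun g s => by rw [hc.eqv, hL]
  fin := by
    obtain ⟨F, hF⟩ := hc.fin
    exact ⟨F, fun s h => hF s fun h1 => h (by rw [h1, h0])⟩

theorem empty {q : ℕ} {c : Finset U → W} (hne : ∀ s ∈ K, s.Nonempty) (hc : EqC K B ρ q c) : c ∅ = 0 := by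
  by_contra h
  exact absurd (hne _ (hc.supp _ h).1) (by simp)

theorem eq_zero {c : Finset U → W} (hne : ∀ s ∈ K, s.Nonempty) (hc : EqC K B ρ 0 c) (s : Finset U) : c s = 0 := by
  by_contra h
  obtain ⟨h1, -, h2⟩ := hc.supp s h
  exact absurd (hne s h1) (by simp [card_eq_zero.1 h2])

theorem eq_zero_of_mem {q : ℕ} {c : Finset U → W} (hc : EqC K B ρ q c) {s : Finset U} (hs : s ∈ B) : c s = 0 := by
  by_contra h
  exact (hc.supp s h).2.1 hs

end EqC

open Classical in
/-- the coboundary -/
def cbK (K B : Set (Finset U)) (c : Finset U → W) (t : Finset U) : W :=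
  if t ∈ K ∧ t ∉ B then ∑ v ∈ t, c (t.erase v) else 0

theorem cbK_eq {c : Finset U → W} {t : Finset U} (h : t ∈ K) (h' : t ∉ B) : cbK K B c t = ∑ v ∈ t, c (t.erase v) := if_pos ⟨h, h'⟩

theorem isCb_cbK (c : Finset U → W) : IsCb K B c (cbK K B c) := fun _ h h' => (cbK_eq h h').symm

theorem IsCb.add {c d f e : Finset U → W} (h1 : IsCb K B c f) (h2 : IsCb K B d e) : IsCb K B (c + d) (f + e) := by
  intro t h h'
  rw [Pi.add_apply, ← h1 t h h', ← h2 t h h', ← sum_add_distrib]
  rfl

theorem IsCb.map {c f : Finset U → W} (h1 : IsCb K B c f) (L : W →ₗ[ZMod 2] W') :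
    IsCb K B (fun s => L (c s)) (fun s => L (f s)) := by
  intro t h h'
  show ∑ v ∈ t, L (c (t.erase v)) = L (f t)
  rw [← h1 t h h', map_sum]

theorem erase_smul (g : Γ) (s : Finset U) (v : U) : (g • s).erase (g • v) = g • s.erase v := by
  ext u
  rw [mem_erase, ← inv_smul_mem_iff, ← inv_smul_mem_iff, mem_erase]
  refine and_congr_left fun _ => not_congr ?_
  rw [inv_smul_eq_iff]

theorem sum_smul_set {M : Type} [AddCommMonoid M] (g : Γ) (s : Finset U) (f : U → M) : ∑ v ∈ g • s, f v = ∑ v ∈ s, f (g • v) := by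
  show ∑ v ∈ s.image (g • ·), f v = _
  rw [sum_image]
  intro a _ b _ h
  exact smul_left_cancel g h

variable (h : SCx Γ K B)

include h

theorem mem_iff_smul (g : Γ) (s : Finset U) : g • s ∈ K ↔ s ∈ K :=
  ⟨fun h1 => by simpa using h.K_mem g⁻¹ _ h1, h.K_mem g s⟩

theorem memB_iff_smul (g : Γ) (s : Finset U) : g • s ∈ B ↔ s ∈ B :=
  ⟨fun h1 => by simpa using h.B_mem g⁻¹ _ h1, h.B_mem g s⟩

/-- the coboundary of an equivariant cochain -/
theorem EqC.cb {q : ℕ} {c : Finset U → W} (hc : EqC K B ρ q c) : EqC K B ρ (q + 1) (cbK K B c) where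
  supp := by
    intro s hs
    unfold cbK at hs
    split_ifs at hs with h1
    · obtain ⟨v, hv, hv'⟩ := exists_ne_zero_of_sum_ne_zero hs
      obtain ⟨-, -, h4⟩ := hc.supp _ hv'
      rw [card_erase_of_mem hv] at h4
      have := card_pos.2 ⟨v, hv⟩
      exact ⟨h1.1, h1.2, by omega⟩
    · exact absurd rfl hs
  eqv := by
    intro g s
    by_cases h1 : s ∈ K ∧ s ∉ B
    · rw [cbK_eq h1.1 h1.2, cbK_eq ((mem_iff_smul h g s).2 h1.1) (fun h2 => h1.2 ((memB_iff_smul h g s).1 h2)), sum_smul_set,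
        map_sum]
      exact sum_congr rfl fun v _ => by rw [erase_smul, hc.eqv]
    · have h2 : ¬ (g • s ∈ K ∧ g • s ∉ B) := by
        rwa [mem_iff_smul h, memB_iff_smul h]
      unfold cbK
      rw [if_neg h1, if_neg h2, map_zero]
  fin := by
    classical
    obtain ⟨F, hF⟩ := hc.fin
    refine ⟨(F.filter (· ∈ K)).attach.biUnion fun t => (h.locfin t.1 (mem_filter.1 t.2).2).toFinset, fun s hs => ?_⟩
    unfold cbK at hs
    split_ifs at hs with h1
    · obtain ⟨v, hv, hv'⟩ := exists_ne_zero_of_sum_ne_zero hs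
      obtain ⟨g, hg⟩ := hF _ hv'
      have h2 : g • s.erase v ∈ K := h.K_mem g _ (hc.supp _ hv').1
      refine ⟨g, mem_biUnion.2 ⟨⟨g • s.erase v, mem_filter.2 ⟨hg, h2⟩⟩, mem_attach _ _, ?_⟩⟩
      rw [Set.Finite.mem_toFinset]
      exact ⟨h.K_mem g s h1.1, smul_finset_subset_smul_finset (erase_subset _ _)⟩
    · exact absurd rfl hs

omit h in
theorem sum_sum_erase (c : Finset U → W) (t : Finset U) : ∑ v ∈ t, ∑ w ∈ t.erase v, c ((t.erase v).erase w) = 0 := by
  rw [sum_sigma']
  refine sum_involution (fun p _ => ⟨p.2, p.1⟩) ?_ ?_ ?_ ?_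
  · rintro ⟨u, v⟩ _
    show c ((t.erase u).erase v) + c ((t.erase v).erase u) = 0
    rw [erase_right_comm]
    exact add_self_tt _
  · rintro ⟨u, v⟩ h _ he
    rw [mem_sigma] at h
    have h1 : v = u := congrArg Sigma.fst he
    exact ne_of_mem_erase h.2 h1
  · rintro ⟨u, v⟩ h
    rw [mem_sigma] at h ⊢
    have h2 : v ∈ t.erase u := h.2
    have h1 : u ∈ t := h.1
    exact ⟨mem_of_mem_erase h2, mem_erase.2 ⟨(ne_of_mem_erase h2).symm, h1⟩⟩
  · rintro ⟨u, v⟩ _
    rfl

/-- the sum over the faces of a simplex of `B` -/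
theorem sum_of_mem_B {q : ℕ} {c : Finset U → W} (hc : EqC K B ρ q c) {t : Finset U} (ht' : t ∈ B) :
    ∑ v ∈ t, c (t.erase v) = 0 := by
  refine sum_eq_zero fun v hv => ?_
  by_contra h1
  obtain ⟨h2, h3, -⟩ := hc.supp _ h1
  exact h3 (h.bd_down t ht' _ (erase_subset _ _) (h.ne _ h2))

/-- the coboundary of a coboundary -/
theorem cb_cb {q : ℕ} {c f : Finset U → W} (hc : EqC K B ρ q c) (hf : EqC K B ρ (q + 1) f) (hcf : IsCb K B c f) : IsCb K B f 0 := by
  intro t ht1 ht2
  have h1 : ∀ v ∈ t, f (t.erase v) = ∑ w ∈ t.erase v, c ((t.erase v).erase w) := by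
    intro v hv
    rcases (t.erase v).eq_empty_or_nonempty with h0 | h0
    · rw [h0, sum_empty]
      exact hf.empty h.ne
    · have h2 := h.down t ht1 _ (erase_subset v t) h0
      by_cases h3 : t.erase v ∈ B
      · rw [sum_of_mem_B h hc h3, hf.eq_zero_of_mem h3]
      · exact (hcf _ h2 h3).symm
  rw [sum_congr rfl h1, sum_sum_erase]
  rfl

/-- equivariant lifts of cochains -/
theorem EqC.lift (L : W →ₗ[ZMod 2] W') (hL : ∀ g x, L (ρ g x) = ρ' g (L x)) {q : ℕ} {c : Finset U → W'}
    (hc : EqC K B ρ' q c) (hr : ∀ s, c s ∈ LinearMap.range L) : ∃ b, EqC K B ρ q b ∧ ∀ s, L (b s) = c s := by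
  classical
  choose y hy using fun s => LinearMap.mem_range.1 (hr s)
  -- representatives
  let R : Finset U → Finset U := fun s => (Quotient.out (s := MulAction.orbitRel Γ (Finset U)) ⟦s⟧)
  have hr1 : ∀ s, ∃ g : Γ, g • R s = s := by
    intro s
    have h1 : (MulAction.orbitRel Γ (Finset U)).r (R s) s := Quotient.exact (Quotient.out_eq _)
    obtain ⟨g, hg⟩ := MulAction.orbitRel_apply.1 ((MulAction.orbitRel Γ (Finset U)).symm h1)
    exact ⟨g, hg⟩
  have hr2 : ∀ (g : Γ) s, R (g • s) = R s := by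
    intro g s
    show Quotient.out _ = Quotient.out _
    congr 1
    exact Quotient.sound (MulAction.orbitRel_apply.2 ⟨g, rfl⟩)
  choose γ hγ using hr1
  have hr3 : ∀ s ∈ K, R s ∈ K := fun s hs => by
    have h1 : γ s • R s ∈ K := by rw [hγ]; exact hs
    exact (mem_iff_smul h _ _).1 h1
  have hr4 : ∀ (g : Γ) s, s ∈ K → γ (g • s) = g * γ s := by
    intro g s hs
    have h1 : (γ (g • s))⁻¹ * (g * γ s) = 1 := by
      refine h.free _ (R s) (hr3 s hs) ?_
      rw [mul_smul, mul_smul, hγ, inv_smul_eq_iff]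
      have h2 := hγ (g • s)
      rw [hr2] at h2
      exact h2.symm
    exact (inv_mul_eq_one.1 h1)
  refine ⟨fun s => if c s = 0 then 0 else ρ (γ s) (y (R s)), ⟨fun s hs => ?_, fun g s => ?_, ?_⟩, fun s => ?_⟩
  · refine hc.supp s fun h0 => hs ?_
    rw [if_pos h0]
  · have h1 : c (g • s) = 0 ↔ c s = 0 := by
      rw [hc.eqv]
      constructor
      · intro h0
        have h2 := congrArg (ρ' g⁻¹) h0
        rw [map_zero, ← Module.End.mul_apply, ← map_mul, inv_mul_cancel, map_one] at h2
        exact h2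
      · intro h0
        rw [h0, map_zero]
    show (if c (g • s) = 0 then 0 else _) = ρ g (if c s = 0 then 0 else _)
    by_cases h0 : c s = 0
    · rw [if_pos h0, if_pos (h1.2 h0), map_zero]
    · rw [if_neg h0, if_neg (fun h3 => h0 (h1.1 h3)), hr2, hr4 g s (hc.supp s h0).1, map_mul]
      rfl
  · obtain ⟨F, hF⟩ := hc.fin
    exact ⟨F, fun s hs => hF s fun h0 => hs (if_pos h0)⟩
  · show L (if c s = 0 then 0 else _) = c s
    by_cases h0 : c s = 0
    · rw [if_pos h0, map_zero, h0]
    · rw [if_neg h0, hL, hy, ← hc.eqv, hγ]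

end Pool.Agent.S11

end
end

section

/-!
# Project S11, block STAR: the anti-involution of the group algebra, the Ore condition

`stA` = the anti-involution `g ↦ g⁻¹` of the group algebra over the field of two elements.  `ore_of_box`: a group with
boxes has common non-zero left multiples in the group algebra.

PROOF of `ore_of_box`.  `S` = the union of the supports of `a, a'`, `ε = 1 / (2 (|S| + 1))`, `W₀ = ⊤`, `Ω` the box; the linear
map `(c, c') ↦ c a - c' a'` from the pairs of functions with support in `Ω` to the functions with support in `Ω ∪ Ω S`, which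
has at most `|Ω| (1 + |S| ε) < 2 |Ω|` elements, has a non-zero element in its kernel; there are no zero divisors.
-/

set_option autoImplicit false
set_option linter.unusedSectionVars false

namespace Pool.Agent.S11

section

variable {Γ : Type} [Group Γ]

/-- the anti-involution -/
noncomputable def stA (a : MonoidAlgebra (ZMod 2) Γ) : MonoidAlgebra (ZMod 2) Γ :=
  MonoidAlgebra.ofCoeff (a.coeff.mapDomain fun x => x⁻¹)

theorem stA_single (x : Γ) (r : ZMod 2) :
    stA (MonoidAlgebra.single x r) = MonoidAlgebra.single x⁻¹ r := by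
  show MonoidAlgebra.ofCoeff ((Finsupp.single x r).mapDomain fun x => x⁻¹) = _
  rw [Finsupp.mapDomain_single]
  rfl

theorem stA_zero : stA (0 : MonoidAlgebra (ZMod 2) Γ) = 0 := by
  simp [stA]

theorem stA_add (a b : MonoidAlgebra (ZMod 2) Γ) : stA (a + b) = stA a + stA b := by
  simp [stA, Finsupp.mapDomain_add]

theorem stA_one : stA (1 : MonoidAlgebra (ZMod 2) Γ) = 1 := by
  rw [MonoidAlgebra.one_def, stA_single, inv_one]

theorem stA_stA (a : MonoidAlgebra (ZMod 2) Γ) : stA (stA a) = a := by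
  induction a using MonoidAlgebra.induction_linear with
  | zero => simp [stA_zero]
  | add f g hf hg => rw [stA_add, stA_add, hf, hg]
  | single x r => rw [stA_single, stA_single, inv_inv]

theorem stA_mul (a b : MonoidAlgebra (ZMod 2) Γ) : stA (a * b) = stA b * stA a := by
  induction a using MonoidAlgebra.induction_linear with
  | zero => simp [stA_zero]
  | add f g hf hg => rw [add_mul, stA_add, hf, hg, stA_add, mul_add]
  | single x r =>
    induction b using MonoidAlgebra.induction_linear with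
    | zero => simp [stA_zero]
    | add f g hf hg => rw [mul_add, stA_add, hf, hg, stA_add, add_mul]
    | single y s =>
      rw [MonoidAlgebra.single_mul_single, stA_single, stA_single, stA_single,
        MonoidAlgebra.single_mul_single, mul_inv_rev, mul_comm r s]

theorem stA_ne_zero {a : MonoidAlgebra (ZMod 2) Γ} (h : a ≠ 0) : stA a ≠ 0 := by
  intro h0
  apply h
  rw [← stA_stA a, h0, stA_zero]

end

end Pool.Agent.S11

end

section

/-!
# Project S12: the Foelner condition (in a weak form) for the groups which embed in a group with boxes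

PROOF of `fol_of_box`.  `S = f(C)`, `ε` with `ε * (C.card + 1) < 1`; `E' ⊆ E` from `FBox Γ`.  Partition `E` by the cosets
`x * f.range`: some coset has `E_x` nonempty and `(1 - ε) * E_x.card ≤ E'_x.card`.  `F` = preimage of `x⁻¹ E_x` under `f`,
`F'` = preimage of `x⁻¹ E'_x`; `F' * C ⊆ F`, so `G = F ∪ (F \ F') * C` has at most `F.card + ε F.card C.card < 2 F.card`
elements.  `Fol.left`: inverses.
-/

set_option autoImplicit false
set_option linter.unusedSectionVars false

namespace Pool.Agent.S12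

/-- a weak form of the Foelner condition -/
def Fol (Q : Type) [Group Q] : Prop :=
  ∀ C : Finset Q, ∃ F G : Finset Q, (∀ f ∈ F, ∀ c ∈ C, f * c ∈ G) ∧ G.card < 2 * F.card

section

variable {Q : Type} [Group Q]

end

end Pool.Agent.S12

end

section

/-!
# Project S12: a system of linear equations over a division ring with more unknowns than equations
-/

set_option autoImplicit false

namespace Pool.Agent.S12

/-- unknowns on the left -/
theorem exists_left {D : Type*} [DivisionRing D] {m n : Type*} [Fintype m] [Fintype n] (M : m → n → D)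
    (h : Fintype.card n < Fintype.card m) : ∃ v : m → D, v ≠ 0 ∧ ∀ j, ∑ i, v i * M i j = 0 := by
  let f : (m → D) →ₗ[D] (n → D) := Fintype.linearCombination D M
  have h1 : LinearMap.ker f ≠ ⊥ := LinearMap.ker_ne_bot_of_finrank_lt (by simpa using h)
  obtain ⟨v, hv, hv0⟩ := (Submodule.ne_bot_iff _).1 h1
  refine ⟨v, hv0, fun j => ?_⟩
  have h2 := congrFun (LinearMap.mem_ker.1 hv) j
  rw [Fintype.linearCombination_apply, Finset.sum_apply] at h2
  exact h2

end Pool.Agent.S12

end

section

/-!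
# Project S12: fractions of a subring of a division ring with the Ore condition
-/

set_option autoImplicit false

namespace Pool.Agent.S12

section

variable {V : Type*} [DivisionRing V] (S : Subring V)

/-- the left Ore condition -/
def LOre : Prop := ∀ u ∈ S, ∀ t ∈ S, t ≠ 0 → ∃ p ∈ S, ∃ r ∈ S, p ≠ 0 ∧ p * u = r * t

variable {S}

/-- the subfield of the left fractions -/
theorem exists_lfrac (h : LOre S) : ∃ E : Subfield V, ∀ a, a ∈ E ↔ ∃ s ∈ S, s ≠ 0 ∧ s * a ∈ S := by
  refine ⟨{ carrier := {a | ∃ s ∈ S, s ≠ 0 ∧ s * a ∈ S}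
            mul_mem' := ?_, one_mem' := ?_, add_mem' := ?_, zero_mem' := ?_, neg_mem' := ?_, inv_mem' := ?_ },
    fun a => Iff.rfl⟩
  · rintro a b ⟨s, hs, hs0, hsa⟩ ⟨t, ht, ht0, htb⟩
    obtain ⟨p, hp, r, hr, hp0, hpr⟩ := h (s * a) hsa t ht ht0
    refine ⟨p * s, S.mul_mem hp hs, mul_ne_zero hp0 hs0, ?_⟩
    have e : p * s * (a * b) = r * (t * b) := by
      rw [← mul_assoc, mul_assoc p s a, hpr, mul_assoc]
    rw [e]
    exact S.mul_mem hr htb
  · exact ⟨1, S.one_mem, one_ne_zero, by rw [mul_one]; exact S.one_mem⟩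
  · rintro a b ⟨s, hs, hs0, hsa⟩ ⟨t, ht, ht0, htb⟩
    obtain ⟨p, hp, r, hr, hp0, hpr⟩ := h s hs t ht ht0
    refine ⟨p * s, S.mul_mem hp hs, mul_ne_zero hp0 hs0, ?_⟩
    have e : p * s * (a + b) = p * (s * a) + r * (t * b) := by
      rw [mul_add, mul_assoc, hpr, mul_assoc]
    rw [e]
    exact S.add_mem (S.mul_mem hp hsa) (S.mul_mem hr htb)
  · exact ⟨1, S.one_mem, one_ne_zero, by rw [mul_zero]; exact S.zero_mem⟩
  · rintro a ⟨s, hs, hs0, hsa⟩
    exact ⟨s, hs, hs0, by rw [mul_neg]; exact S.neg_mem hsa⟩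
  · rintro a ⟨s, hs, hs0, hsa⟩
    by_cases ha : a = 0
    · exact ⟨1, S.one_mem, one_ne_zero, by rw [ha, inv_zero, mul_zero]; exact S.zero_mem⟩
    · exact ⟨s * a, hsa, mul_ne_zero hs0 ha, by rw [mul_inv_cancel_right₀ ha]; exact hs⟩

/-- common left denominators -/
theorem common_left (h : LOre S) (F : Finset V) (hF : ∀ a ∈ F, ∃ s ∈ S, s ≠ 0 ∧ s * a ∈ S) :
    ∃ s ∈ S, s ≠ 0 ∧ ∀ a ∈ F, s * a ∈ S := by
  classical
  induction F using Finset.induction_on with
  | empty => exact ⟨1, S.one_mem, one_ne_zero, fun a ha => absurd ha (Finset.notMem_empty a)⟩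
  | insert b F _ ih =>
    obtain ⟨s, hs, hs0, hsF⟩ := ih fun a ha => hF a (Finset.mem_insert_of_mem ha)
    obtain ⟨t, ht, ht0, htb⟩ := hF b (Finset.mem_insert_self b F)
    obtain ⟨p, hp, r, hr, hp0, hpr⟩ := h s hs t ht ht0
    refine ⟨p * s, S.mul_mem hp hs, mul_ne_zero hp0 hs0, fun a ha => ?_⟩
    rcases Finset.mem_insert.1 ha with rfl | ha
    · rw [hpr, mul_assoc]
      exact S.mul_mem hr htb
    · rw [mul_assoc]
      exact S.mul_mem hp (hsF a ha)

end

end Pool.Agent.S12

end

section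

/-!
# Project S14: the homogeneous components `DN * u h` of a division ring

`u : H →* D` a homomorphism to a division ring, `N` a normal subgroup; `DN u N` = the subfield generated by `u N`;
`cl u N q` = the set of the products `d * u h`, `d ∈ DN u N`, `h` in the coset `q`; `SD u N` = the sum of the `cl u N q`, a subring.
-/

set_option autoImplicit false
set_option linter.unusedSectionVars false

namespace Pool.Agent.S14

section

variable {H D : Type} [Group H] [DivisionRing D] (u : H →* D) (N : Subgroup H)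

theorem u_ne (h : H) : u h ≠ 0 := fun h0 => by
  have h1 := u.map_mul h h⁻¹
  rw [mul_inv_cancel, map_one, h0, zero_mul] at h1
  exact one_ne_zero h1

theorem u_inv (h : H) : u h⁻¹ = (u h)⁻¹ :=
  eq_inv_of_mul_eq_one_left (by rw [← map_mul, inv_mul_cancel, map_one])

/-- the subfield generated by `u N` -/
def DN : Subfield D := Subfield.closure (u '' (N : Set H))

variable {N}

theorem u_mem_DN {n : H} (hn : n ∈ N) : u n ∈ DN u N := Subfield.subset_closure ⟨n, hn, rfl⟩

theorem DN_mono {N' : Subgroup H} (h : N ≤ N') : DN u N ≤ DN u N' :=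
  Subfield.closure_mono (Set.image_mono h)

variable [hN : N.Normal]

theorem conj_DN (h : H) {d : D} (hd : d ∈ DN u N) : u h * d * (u h)⁻¹ ∈ DN u N := by
  have h0 := u_ne u h
  induction hd using Subfield.closure_induction with
  | mem x hx =>
    obtain ⟨n, hn, rfl⟩ := hx
    rw [← u_inv, ← map_mul, ← map_mul]
    exact u_mem_DN u (hN.conj_mem n hn h)
  | one => rw [mul_one, mul_inv_cancel₀ h0]; exact (DN u N).one_mem
  | add x y _ _ hx hy => rw [mul_add, add_mul]; exact (DN u N).add_mem hx hy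
  | neg x _ hx => rw [mul_neg, neg_mul]; exact (DN u N).neg_mem hx
  | inv x _ hx =>
    have e : u h * x⁻¹ * (u h)⁻¹ = (u h * x * (u h)⁻¹)⁻¹ := by
      rw [mul_inv_rev, mul_inv_rev, inv_inv, mul_assoc]
    rw [e]
    exact (DN u N).inv_mem hx
  | mul x y _ _ hx hy =>
    have e : u h * (x * y) * (u h)⁻¹ = (u h * x * (u h)⁻¹) * (u h * y * (u h)⁻¹) := by
      simp only [mul_assoc, inv_mul_cancel_left₀ h0]
    rw [e]
    exact (DN u N).mul_mem hx hy

/-- the homogeneous component -/
def cl (q : H ⧸ N) : AddSubgroup D where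
  carrier := {a | ∀ h : H, (h : H ⧸ N) = q → a * (u h)⁻¹ ∈ DN u N}
  zero_mem' := fun h _ => by rw [zero_mul]; exact (DN u N).zero_mem
  add_mem' := fun {a b} ha hb h hh => by rw [add_mul]; exact (DN u N).add_mem (ha h hh) (hb h hh)
  neg_mem' := fun {a} ha h hh => by rw [neg_mul]; exact (DN u N).neg_mem (ha h hh)

theorem mem_cl_iff {q : H ⧸ N} {h : H} (hh : (h : H ⧸ N) = q) {a : D} : a ∈ cl u q ↔ a * (u h)⁻¹ ∈ DN u N := by
  refine ⟨fun ha => ha h hh, fun ha h' hh' => ?_⟩
  have h1 : h * h'⁻¹ ∈ N := by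
    have h2 : (h' : H ⧸ N) = h := by rw [hh, hh']
    have h3 := hN.mem_comm (QuotientGroup.eq.1 h2)
    exact h3
  have e : a * (u h')⁻¹ = a * (u h)⁻¹ * u (h * h'⁻¹) := by
    rw [map_mul, u_inv, mul_assoc, inv_mul_cancel_left₀ (u_ne u h)]
  rw [e]
  exact (DN u N).mul_mem ha (u_mem_DN u h1)

theorem mul_u_mem_cl {d : D} (hd : d ∈ DN u N) (h : H) : d * u h ∈ cl u (h : H ⧸ N) := by
  rw [mem_cl_iff u rfl, mul_assoc, mul_inv_cancel₀ (u_ne u h), mul_one]
  exact hd

theorem u_mul_mem_cl {d : D} (hd : d ∈ DN u N) (h : H) : u h * d ∈ cl u (h : H ⧸ N) := by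
  rw [mem_cl_iff u rfl]
  exact conj_DN u h hd

theorem u_mem_cl (h : H) : u h ∈ cl u (h : H ⧸ N) := by
  have h1 := mul_u_mem_cl u (N := N) (DN u N).one_mem h
  rwa [one_mul] at h1

theorem exists_mem_DN {h : H} {a : D} (ha : a ∈ cl u (h : H ⧸ N)) : ∃ d ∈ DN u N, a = d * u h :=
  ⟨a * (u h)⁻¹, ha h rfl, by rw [inv_mul_cancel_right₀ (u_ne u h)]⟩

theorem mem_cl_one {a : D} : a ∈ cl u (1 : H ⧸ N) ↔ a ∈ DN u N := by
  have h1 := mem_cl_iff u (N := N) (q := 1) (h := 1) (QuotientGroup.mk_one N) (a := a)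
  rwa [map_one, inv_one, mul_one] at h1

theorem cl_one : (1 : D) ∈ cl u (1 : H ⧸ N) := (mem_cl_one u).2 (DN u N).one_mem

theorem cl_mul {p q : H ⧸ N} {a b : D} (ha : a ∈ cl u p) (hb : b ∈ cl u q) : a * b ∈ cl u (p * q) := by
  obtain ⟨h, rfl⟩ := QuotientGroup.mk_surjective p
  obtain ⟨k, rfl⟩ := QuotientGroup.mk_surjective q
  obtain ⟨c, hc, rfl⟩ := exists_mem_DN u ha
  obtain ⟨d, hd, rfl⟩ := exists_mem_DN u hb
  have e : c * u h * (d * u k) = c * (u h * d * (u h)⁻¹) * u (h * k) := by
    rw [map_mul]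
    simp only [mul_assoc, inv_mul_cancel_left₀ (u_ne u h)]
  rw [e]
  exact mul_u_mem_cl u ((DN u N).mul_mem hc (conj_DN u h hd)) (h * k)

theorem cl_inv {q : H ⧸ N} {a : D} (ha : a ∈ cl u q) : a⁻¹ ∈ cl u q⁻¹ := by
  obtain ⟨h, rfl⟩ := QuotientGroup.mk_surjective q
  obtain ⟨d, hd, rfl⟩ := exists_mem_DN u ha
  rw [mul_inv_rev, ← u_inv]
  exact u_mul_mem_cl u ((DN u N).inv_mem hd) h⁻¹

variable (P : Subgroup (H ⧸ N))

/-- the sum of the homogeneous components of the degrees in `P` -/
def SD : Subring D where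
  carrier := AddSubgroup.closure {a | ∃ q ∈ P, a ∈ cl u q}
  zero_mem' := AddSubgroup.zero_mem _
  add_mem' := AddSubgroup.add_mem _
  neg_mem' := AddSubgroup.neg_mem _
  one_mem' := AddSubgroup.subset_closure ⟨1, P.one_mem, cl_one u⟩
  mul_mem' := fun {a b} ha hb => by
    induction ha, hb using AddSubgroup.closure_induction₂ with
    | mem x y hx hy =>
      obtain ⟨p, hp, hp'⟩ := hx
      obtain ⟨q, hq, hq'⟩ := hy
      exact AddSubgroup.subset_closure ⟨p * q, P.mul_mem hp hq, cl_mul u hp' hq'⟩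
    | zero_left x _ => rw [zero_mul]; exact AddSubgroup.zero_mem _
    | zero_right x _ => rw [mul_zero]; exact AddSubgroup.zero_mem _
    | add_left x y z _ _ _ h1 h2 => rw [add_mul]; exact AddSubgroup.add_mem _ h1 h2
    | add_right x y z _ _ _ h1 h2 => rw [mul_add]; exact AddSubgroup.add_mem _ h1 h2
    | neg_left x y _ _ h1 => rw [neg_mul]; exact AddSubgroup.neg_mem _ h1
    | neg_right x y _ _ h1 => rw [mul_neg]; exact AddSubgroup.neg_mem _ h1

variable {P}

theorem cl_le_SD {q : H ⧸ N} (hq : q ∈ P) {a : D} (ha : a ∈ cl u q) : a ∈ SD u P :=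
  AddSubgroup.subset_closure ⟨q, hq, ha⟩

theorem u_mem_SD {h : H} (hh : (h : H ⧸ N) ∈ P) : u h ∈ SD u P := cl_le_SD u hh (u_mem_cl u h)

/-- the elements of `SD` are finite sums of homogeneous elements -/
theorem mem_SD {a : D} : a ∈ SD u P ↔
    ∃ s : (H ⧸ N) →₀ D, (∀ q, s q ∈ cl u q) ∧ (∀ q, s q ≠ 0 → q ∈ P) ∧ (s.sum fun _ a => a) = a := by
  classical
  constructor
  · intro ha
    change a ∈ AddSubgroup.closure {a | ∃ q ∈ P, a ∈ cl u q} at ha
    induction ha using AddSubgroup.closure_induction with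
    | mem x hx =>
      obtain ⟨q, hq, hqx⟩ := hx
      refine ⟨Finsupp.single q x, fun p => ?_, fun p hp => ?_, Finsupp.sum_single_index rfl⟩
      · rw [Finsupp.single_apply]
        split_ifs with h
        · rw [← h]; exact hqx
        · exact (cl u p).zero_mem
      · rw [Finsupp.single_apply] at hp
        split_ifs at hp with h
        · rwa [← h]
        · exact absurd rfl hp
    | zero => exact ⟨0, fun q => (cl u q).zero_mem, fun q hq => absurd rfl hq, Finsupp.sum_zero_index⟩
    | add x y _ _ hx hy =>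
      obtain ⟨s, hs, hs', rfl⟩ := hx
      obtain ⟨t, ht, ht', rfl⟩ := hy
      refine ⟨s + t, fun q => (cl u q).add_mem (hs q) (ht q), fun q hq => ?_,
        Finsupp.sum_add_index' (fun _ => rfl) fun _ _ _ => rfl⟩
      by_contra hc
      apply hq
      rw [Finsupp.add_apply, not_imp_comm.1 (hs' q) hc, not_imp_comm.1 (ht' q) hc, add_zero]
    | neg x _ hx =>
      obtain ⟨s, hs, hs', rfl⟩ := hx
      refine ⟨-s, fun q => (cl u q).neg_mem (hs q), fun q hq => hs' q fun h0 => hq ?_, ?_⟩
      · rw [Finsupp.neg_apply, h0, neg_zero]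
      · rw [Finsupp.sum_neg_index fun _ => rfl]
        exact Finsupp.sum_neg
  · rintro ⟨s, hs, hs', rfl⟩
    exact (SD u P).sum_mem fun q hq => cl_le_SD u (hs' q (Finsupp.mem_support_iff.1 hq)) (hs q)

end

end Pool.Agent.S14

end

section

/-!
# Project S14: residually (amenable and left-orderable) groups
-/

set_option autoImplicit false

namespace Pool.Agent.S14

/-- subgroups -/
theorem RAL.comap {H G : Type} [Group H] [Group G] {f : H →* G} (hf : Function.Injective f) (h : RAL G) : RAL H := by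
  intro x hx
  obtain ⟨L, hL, φ, h1, h2, h3⟩ := h (f x) fun h0 => hx (hf (h0.trans f.map_one.symm))
  exact ⟨L, hL, φ.comp f, h1, h2, h3⟩

end Pool.Agent.S14

end

section

/-!
# Project S14, block END: Foelner sets and compressions of matrices over group algebras
-/

set_option autoImplicit false
set_option linter.unusedSectionVars false

namespace Pool.Agent.S14

/-- the Foelner condition: `E'` is the part of `E` which stays in `E` under the right translations by `S` -/
def Foel (Q : Type) [Group Q] : Prop :=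
  ∀ (S : Finset Q) (ε : ℝ), 0 < ε → ∃ E E' : Finset Q, E.Nonempty ∧ E' ⊆ E ∧
    (∀ g ∈ E', ∀ s ∈ S, g * s ∈ E) ∧ (1 - ε) * (E.card : ℝ) ≤ (E'.card : ℝ)

/-- the compression of `op A` to the rows over `E` and the columns over `F` -/
def cmp {R Q : Type} [Semiring R] [Group Q] {k n : Type} (E F : Finset Q) (A : Matrix k n (MonoidAlgebra R Q)) :
    Matrix (k × E) (n × F) R :=
  Matrix.of fun x y => (A x.1 y.1).coeff ((x.2 : Q)⁻¹ * (y.2 : Q))

theorem cmp_apply {R Q : Type} [Semiring R] [Group Q] {k n : Type} (E F : Finset Q) (A : Matrix k n (MonoidAlgebra R Q))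
    (i : k) (g : E) (j : n) (h : F) : cmp E F A (i, g) (j, h) = (A i j).coeff ((g : Q)⁻¹ * (h : Q)) := rfl

end Pool.Agent.S14

end

section

/-!
# Project S14: permanence of the Foelner condition
-/

set_option autoImplicit false
set_option linter.unusedSectionVars false

open Finset

namespace Pool.Agent.S14

/-- amenable groups: by the inversion -/
theorem Amen.foel {L : Type} [Group L] (h : Amen L) : Foel L := by
  classical
  intro S ε hε
  obtain ⟨E, hne, hE⟩ := h (S.image fun s => s⁻¹) (ε / (S.card + 1)) (by positivity)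
  refine ⟨E.image fun x => x⁻¹, (E.image fun x => x⁻¹).filter fun g => ∀ s ∈ S, g * s ∈ E.image fun x => x⁻¹,
    hne.image _, filter_subset _ _, fun g hg s hs => (mem_filter.1 hg).2 s hs, ?_⟩
  set F := E.image fun x => x⁻¹ with hF
  have hcard : F.card = E.card := card_image_of_injective _ inv_injective
  have h1 : (F.filter fun g => ¬ ∀ s ∈ S, g * s ∈ F) ⊆ S.biUnion fun s => F.filter fun g => g * s ∉ F := by
    intro g hg
    rw [mem_filter] at hg
    obtain ⟨h2, h3⟩ := hg
    push Not at h3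
    obtain ⟨s, hs, h4⟩ := h3
    exact mem_biUnion.2 ⟨s, hs, mem_filter.2 ⟨h2, h4⟩⟩
  have h2 : ∀ s ∈ S, ((F.filter fun g => g * s ∉ F).card : ℝ) ≤ ε / (S.card + 1) * E.card := by
    intro s hs
    refine le_trans ?_ (hE s⁻¹ (mem_image_of_mem _ hs))
    have h3 : {x ∈ (E : Set L) | s⁻¹ * x ∉ E} = ((E.filter fun x => s⁻¹ * x ∉ E : Finset L) : Set L) := by
      ext x
      simp
    rw [h3, Set.ncard_coe_finset]
    have h4 : (F.filter fun g => g * s ∉ F) ⊆ (E.filter fun x => s⁻¹ * x ∉ E).image fun x => x⁻¹ := by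
      intro g hg
      rw [mem_filter] at hg
      obtain ⟨x, hx, rfl⟩ := mem_image.1 hg.1
      refine mem_image_of_mem _ (mem_filter.2 ⟨hx, fun h5 => hg.2 (mem_image.2 ⟨_, h5, ?_⟩)⟩)
      rw [mul_inv_rev, inv_inv]
    exact_mod_cast (card_le_card h4).trans card_image_le
  have h3 : ((F.filter fun g => ¬ ∀ s ∈ S, g * s ∈ F).card : ℝ) ≤ ε * F.card := by
    have h4 : ((F.filter fun g => ¬ ∀ s ∈ S, g * s ∈ F).card : ℝ) ≤ ∑ s ∈ S, ((F.filter fun g => g * s ∉ F).card : ℝ) := by
      exact_mod_cast (card_le_card h1).trans card_biUnion_le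
    refine h4.trans ((sum_le_sum h2).trans ?_)
    rw [sum_const, nsmul_eq_mul, hcard]
    have h5 : (S.card : ℝ) * (ε / (S.card + 1)) ≤ ε := by
      rw [mul_div_assoc', div_le_iff₀ (by positivity)]
      nlinarith
    calc (S.card : ℝ) * (ε / (S.card + 1) * E.card) = (S.card : ℝ) * (ε / (S.card + 1)) * E.card := by ring
      _ ≤ ε * E.card := mul_le_mul_of_nonneg_right h5 (Nat.cast_nonneg _)
  have h4 : ((F.filter fun g => ∀ s ∈ S, g * s ∈ F).card : ℝ) + (F.filter fun g => ¬ ∀ s ∈ S, g * s ∈ F).card = F.card := by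
    exact_mod_cast card_filter_add_card_filter_not (s := F) (p := fun g => ∀ s ∈ S, g * s ∈ F)
  linarith

/-- subgroups -/
theorem Foel.comap {Q Γ : Type} [Group Q] [Group Γ] (f : Q →* Γ) (hf : Function.Injective f) (hΓ : Foel Γ) : Foel Q := by
  classical
  intro C ε hε
  obtain ⟨E, E', hne, hE', hS, hcard⟩ := hΓ (C.image f) ε hε
  -- a coset
  obtain ⟨κ, hκ, hle⟩ : ∃ κ ∈ E.image (QuotientGroup.mk : Γ → Γ ⧸ f.range),
      (1 - ε) * ((E.filter fun e => (QuotientGroup.mk e : Γ ⧸ f.range) = κ).card : ℝ) ≤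
        ((E'.filter fun e => (QuotientGroup.mk e : Γ ⧸ f.range) = κ).card : ℝ) := by
    refine Finset.exists_le_of_sum_le (hne.image _) ?_
    rw [← Finset.mul_sum]
    have h1 := Finset.card_eq_sum_card_fiberwise (s := E) (f := (QuotientGroup.mk : Γ → Γ ⧸ f.range))
      (t := E.image (QuotientGroup.mk : Γ → Γ ⧸ f.range)) (fun e he => Finset.mem_coe.2 (Finset.mem_image_of_mem _ he))
    have h2 := Finset.card_eq_sum_card_fiberwise (s := E') (f := (QuotientGroup.mk : Γ → Γ ⧸ f.range))
      (t := E.image (QuotientGroup.mk : Γ → Γ ⧸ f.range))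
      (fun e he => Finset.mem_coe.2 (Finset.mem_image_of_mem _ (hE' he)))
    have h3 : ((E.card : ℕ) : ℝ) = ∑ κ ∈ E.image (QuotientGroup.mk : Γ → Γ ⧸ f.range),
        ((E.filter fun e => (QuotientGroup.mk e : Γ ⧸ f.range) = κ).card : ℝ) := by
      exact_mod_cast h1
    have h4 : ((E'.card : ℕ) : ℝ) = ∑ κ ∈ E.image (QuotientGroup.mk : Γ → Γ ⧸ f.range),
        ((E'.filter fun e => (QuotientGroup.mk e : Γ ⧸ f.range) = κ).card : ℝ) := by
      exact_mod_cast h2
    rw [← h3, ← h4]
    exact hcard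
  obtain ⟨x, hx, rfl⟩ := Finset.mem_image.1 hκ
  -- the preimages
  let g : Q → Γ := fun q => x * f q
  have hg : Function.Injective g := fun a b hab => hf (mul_left_cancel hab)
  have hrange : ∀ e : Γ, e ∈ Set.range g ↔ (QuotientGroup.mk e : Γ ⧸ f.range) = (QuotientGroup.mk x : Γ ⧸ f.range) := by
    intro e
    rw [eq_comm, QuotientGroup.eq]
    constructor
    · rintro ⟨q, rfl⟩
      exact ⟨q, by simp [g]⟩
    · rintro ⟨q, hq⟩
      exact ⟨q, by simp [g, hq]⟩
  have hcp : ∀ T : Finset Γ, (T.preimage g hg.injOn).card =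
      (T.filter fun e => (QuotientGroup.mk e : Γ ⧸ f.range) = (QuotientGroup.mk x : Γ ⧸ f.range)).card := by
    intro T
    rw [Finset.card_preimage]
    congr 1
    exact Finset.filter_congr fun e _ => hrange e
  refine ⟨E.preimage g hg.injOn, E'.preimage g hg.injOn, ⟨1, Finset.mem_preimage.2 (by simpa [g] using hx)⟩,
    fun q hq => Finset.mem_preimage.2 (hE' (Finset.mem_preimage.1 hq)), fun q hq s hs => Finset.mem_preimage.2 ?_, ?_⟩
  · have h9 := hS _ (Finset.mem_preimage.1 hq) (f s) (Finset.mem_image_of_mem _ hs)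
    simpa [g, mul_assoc] using h9
  · rw [hcp, hcp]
    exact hle

/-- products -/
theorem foel_pi {n : ℕ} {L : Fin n → Type} [∀ i, Group (L i)] (h : ∀ i, Foel (L i)) : Foel (∀ i, L i) := by
  classical
  intro S ε hε
  obtain ⟨δ, hδ⟩ : ∃ δ, δ = min ε 1 / ((n : ℝ) + 1) := ⟨_, rfl⟩
  have hm : (0 : ℝ) < min ε 1 := lt_min hε one_pos
  have hδ0 : 0 < δ := by
    rw [hδ]
    positivity
  have hnδ : (n : ℝ) * δ ≤ ε := by
    rw [hδ, mul_div_assoc', div_le_iff₀ (by positivity)]
    have h1 : min ε 1 ≤ ε := min_le_left _ _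
    nlinarith [Nat.cast_nonneg (α := ℝ) n]
  have hδ1 : δ ≤ 1 := by
    rw [hδ, div_le_one (by positivity)]
    have h1 : min ε 1 ≤ 1 := min_le_right _ _
    linarith [Nat.cast_nonneg (α := ℝ) n]
  choose E E' hne hsub hS hcard using fun i => h i (S.image fun s => s i) δ hδ0
  refine ⟨Fintype.piFinset E, Fintype.piFinset E', Fintype.piFinset_nonempty.2 hne,
    Fintype.piFinset_subset _ _ hsub, fun g hg s hs => Fintype.mem_piFinset.2 fun i =>
      hS i _ (Fintype.mem_piFinset.1 hg i) _ (mem_image_of_mem (fun s => s i) hs), ?_⟩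
  rw [Fintype.card_piFinset, Fintype.card_piFinset]
  push_cast
  have h1 : ∏ i, ((1 - δ) * ((E i).card : ℝ)) ≤ ∏ i, ((E' i).card : ℝ) :=
    prod_le_prod (fun i _ => mul_nonneg (by linarith) (Nat.cast_nonneg _)) fun i _ => hcard i
  rw [prod_mul_distrib, prod_const, card_univ, Fintype.card_fin] at h1
  refine le_trans (mul_le_mul_of_nonneg_right ?_ (prod_nonneg fun i _ => Nat.cast_nonneg _)) h1
  have h2 := one_add_mul_le_pow (a := -δ) (by linarith) n
  have h3 : (1 : ℝ) + n * (-δ) = 1 - n * δ := by ring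
  have h4 : (1 : ℝ) + -δ = 1 - δ := by ring
  rw [h3, h4] at h2
  linarith

/-- the weak form -/
theorem Foel.fol {Q : Type} [Group Q] (h : Foel Q) : S12.Fol Q := by
  intro C
  obtain ⟨E, E', hne, hsub, hS, hcard⟩ := h C (1 / 4) (by norm_num)
  refine ⟨E', E, hS, ?_⟩
  have h1 : (0 : ℝ) < E.card := by exact_mod_cast hne.card_pos
  have h2 : (E.card : ℝ) < 2 * E'.card := by linarith
  exact_mod_cast h2

end Pool.Agent.S14

end

section

/-!
# Project S14, block END: compressions of the convolution operators to finite sets of an infinite group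

`cpr E F A` = the matrix of the right multiplication by `A` with rows in `E` and columns in `F`.
-/

set_option autoImplicit false
set_option linter.unusedSectionVars false

open Matrix Pointwise
open scoped ComplexOrder ComplexConjugate

namespace Pool.Agent.S14

open Pool.Agent.H4.Atiyah

section

variable {R : Type*} [Semiring R] {Γ : Type*} [Group Γ] {κ ν μ : Type*}

/-- the compression: rows in `E`, columns in `F` -/
def cpr (E F : Finset Γ) (A : Matrix κ ν (MonoidAlgebra R Γ)) : Matrix (κ × E) (ν × F) R :=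
  Matrix.of fun x y => (A x.1 y.1).coeff ((x.2 : Γ)⁻¹ * y.2)

theorem cpr_apply (E F : Finset Γ) (A : Matrix κ ν (MonoidAlgebra R Γ)) (x : κ × E) (y : ν × F) :
    cpr E F A x y = (A x.1 y.1).coeff ((x.2 : Γ)⁻¹ * y.2) := rfl

/-- the entries are supported in `S` -/
def Sub (S : Finset Γ) (A : Matrix κ ν (MonoidAlgebra R Γ)) : Prop := ∀ i j g, (A i j).coeff g ≠ 0 → g ∈ S

theorem Sub.mono {S T : Finset Γ} {A : Matrix κ ν (MonoidAlgebra R Γ)} (h : Sub S A) (hST : S ⊆ T) : Sub T A :=
  fun i j g hg => hST (h i j g hg)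

theorem exists_sub [Finite κ] [Finite ν] (A : Matrix κ ν (MonoidAlgebra R Γ)) : ∃ S : Finset Γ, Sub S A := by
  classical
  let _ := Fintype.ofFinite κ
  let _ := Fintype.ofFinite ν
  refine ⟨(Finset.univ : Finset (κ × ν)).biUnion fun p => (A p.1 p.2).coeff.support, fun i j g hg => ?_⟩
  exact Finset.mem_biUnion.2 ⟨(i, j), Finset.mem_univ _, Finsupp.mem_support_iff.2 hg⟩

/-- a row of a product -/
theorem cpr_mul_row [Fintype ν] {E F F' : Finset Γ} {S : Finset Γ} {A : Matrix κ ν (MonoidAlgebra R Γ)} (hA : Sub S A)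
    (B : Matrix ν μ (MonoidAlgebra R Γ)) (x : κ × E) (hx : ∀ s ∈ S, (x.2 : Γ) * s ∈ F) (y : μ × F') :
    (cpr E F A * cpr F F' B) x y = cpr E F' (A * B) x y := by
  classical
  rw [Matrix.mul_apply, Fintype.sum_prod_type, cpr_apply, Matrix.mul_apply, MonoidAlgebra.coeff_sum,
    Finsupp.finsetSum_apply]
  refine Finset.sum_congr rfl fun j _ => ?_
  rw [MonoidAlgebra.coeff_mul_apply_left, Finsupp.sum]
  have h1 : ∀ g ∈ (A x.1 j).coeff.support, (x.2 : Γ) * g ∈ F := fun g hg =>
    hx g (hA x.1 j g (Finsupp.mem_support_iff.1 hg))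
  symm
  refine Finset.sum_bij_ne_zero (fun g hg _ => (⟨(x.2 : Γ) * g, h1 g hg⟩ : F)) (fun _ _ _ => Finset.mem_univ _) ?_ ?_ ?_
  · intro a _ _ b _ _ hab
    exact mul_left_cancel (congrArg Subtype.val hab)
  · intro f _ hf
    have hne : (A x.1 j).coeff ((x.2 : Γ)⁻¹ * f) ≠ 0 := by
      intro h0
      apply hf
      rw [cpr_apply]
      change (A x.1 j).coeff ((x.2 : Γ)⁻¹ * f) * _ = 0
      rw [h0, zero_mul]
    have he : (x.2 : Γ) * ((x.2 : Γ)⁻¹ * f) = f := mul_inv_cancel_left _ _
    refine ⟨(x.2 : Γ)⁻¹ * f, Finsupp.mem_support_iff.2 hne, ?_, Subtype.ext he⟩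
    intro h0
    apply hf
    rw [cpr_apply, cpr_apply]
    change (A x.1 j).coeff ((x.2 : Γ)⁻¹ * f) * (B j y.1).coeff ((f : Γ)⁻¹ * y.2) = 0
    rw [← h0]
    congr 2
    group
  · intro g hg _
    rw [cpr_apply, cpr_apply]
    change _ = (A x.1 j).coeff ((x.2 : Γ)⁻¹ * (x.2 * g)) * (B j y.1).coeff (((x.2 : Γ) * g)⁻¹ * y.2)
    congr 2
    · group
    · group

/-- products -/
theorem cpr_mul [Fintype ν] {E F F' : Finset Γ} {S : Finset Γ} {A : Matrix κ ν (MonoidAlgebra R Γ)} (hA : Sub S A)
    (B : Matrix ν μ (MonoidAlgebra R Γ)) (h : ∀ e ∈ E, ∀ s ∈ S, e * s ∈ F) :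
    cpr E F A * cpr F F' B = cpr E F' (A * B) := by
  ext x y
  exact cpr_mul_row hA B x (h x.2 x.2.2) y

theorem cpr_one [DecidableEq κ] [DecidableEq Γ] (E : Finset Γ) : cpr E E (1 : Matrix κ κ (MonoidAlgebra R Γ)) = 1 := by
  ext ⟨i, g⟩ ⟨j, h⟩
  rw [cpr_apply]
  by_cases hij : i = j
  · subst hij
    rw [Matrix.one_apply_eq, MonoidAlgebra.one_def, MonoidAlgebra.coeff_single, Finsupp.single_apply]
    by_cases hgh : g = h
    · subst hgh
      simp
    · rw [if_neg, Matrix.one_apply_ne]
      · intro hc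
        exact hgh (Prod.ext_iff.1 hc).2
      · intro hc
        have h1 : (g : Γ)⁻¹ * h = 1 := hc.symm
        rw [inv_mul_eq_one] at h1
        exact hgh (Subtype.ext h1)
  · rw [Matrix.one_apply_ne hij, Matrix.one_apply_ne (fun h => hij (Prod.ext_iff.1 h).1)]
    rfl

theorem Sub.one [DecidableEq κ] {S : Finset Γ} (h1 : (1 : Γ) ∈ S) : Sub S (1 : Matrix κ κ (MonoidAlgebra R Γ)) := by
  classical
  intro i j g hg
  by_cases hij : i = j
  · subst hij
    rw [Matrix.one_apply_eq, MonoidAlgebra.one_def, MonoidAlgebra.coeff_single, Finsupp.single_apply] at hg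
    by_cases hg1 : 1 = g
    · rwa [← hg1]
    · exact absurd (if_neg hg1) hg
  · rw [Matrix.one_apply_ne hij] at hg
    exact absurd rfl hg

theorem Sub.mul [DecidableEq Γ] [Fintype ν] {S T : Finset Γ} {A : Matrix κ ν (MonoidAlgebra R Γ)}
    {B : Matrix ν μ (MonoidAlgebra R Γ)} (hA : Sub S A) (hB : Sub T B) : Sub (S * T) (A * B) := by
  intro i l g hg
  rw [Matrix.mul_apply, MonoidAlgebra.coeff_sum, Finsupp.finsetSum_apply] at hg
  obtain ⟨j, _, hj⟩ := Finset.exists_ne_zero_of_sum_ne_zero hg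
  rw [MonoidAlgebra.coeff_mul_apply_left, Finsupp.sum] at hj
  obtain ⟨a, ha, h1⟩ := Finset.exists_ne_zero_of_sum_ne_zero hj
  refine Finset.mem_mul.2 ⟨a, hA i j a (Finsupp.mem_support_iff.1 ha), a⁻¹ * g, hB j l _ ?_, mul_inv_cancel_left _ _⟩
  intro h0
  exact h1 (by rw [h0, mul_zero])

theorem Sub.pow [DecidableEq Γ] [Fintype κ] [DecidableEq κ] {S : Finset Γ} {A : Matrix κ κ (MonoidAlgebra R Γ)}
    (hA : Sub S A) (m : ℕ) : Sub (S ^ m) (A ^ m) := by
  induction m with
  | zero =>
    rw [pow_zero, pow_zero]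
    exact Sub.one (Finset.one_mem_one)
  | succ m ih =>
    rw [pow_succ, pow_succ]
    exact ih.mul hA

/-- the rows of the powers far from the boundary -/
theorem cpr_pow_row [DecidableEq Γ] [Fintype κ] [DecidableEq κ] {E S : Finset Γ} (h1 : (1 : Γ) ∈ S)
    {B : Matrix κ κ (MonoidAlgebra R Γ)} (hB : Sub S B) (m : ℕ) (x : κ × E) (hx : ∀ s ∈ S ^ m, (x.2 : Γ) * s ∈ E)
    (y : κ × E) : (cpr E E B ^ m) x y = cpr E E (B ^ m) x y := by
  induction m generalizing x with
  | zero => rw [pow_zero, pow_zero, cpr_one]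
  | succ m ih =>
    have hS : ∀ s ∈ S, (x.2 : Γ) * s ∈ E := by
      intro s hs
      refine hx s ?_
      rw [pow_succ']
      exact Finset.mem_mul.2 ⟨s, hs, 1, Finset.one_mem_pow h1, mul_one s⟩
    rw [pow_succ', pow_succ', ← cpr_mul_row hB _ x hS y, Matrix.mul_apply, Matrix.mul_apply]
    refine Finset.sum_congr rfl fun z _ => ?_
    by_cases h0 : cpr E E B x z = 0
    · rw [h0, zero_mul, zero_mul]
    · congr 1
      refine ih z fun s hs => ?_
      have h2 : (x.2 : Γ)⁻¹ * z.2 ∈ S := hB _ _ _ h0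
      have h3 := hx ((x.2 : Γ)⁻¹ * z.2 * s) (by
        rw [pow_succ']
        exact Finset.mul_mem_mul h2 hs)
      rwa [← mul_assoc, mul_inv_cancel_left] at h3

end

section

variable {Γ : Type*} [Group Γ] {κ ν : Type*}

theorem cpr_astar (E F : Finset Γ) (A : Matrix κ ν (MonoidAlgebra ℂ Γ)) :
    cpr F E (Astar A) = (cpr E F A)ᴴ := by
  ext x y
  rw [conjTranspose_apply, cpr_apply, cpr_apply]
  simp only [Astar, Matrix.of_apply, astar_coeff, _root_.mul_inv_rev, inv_inv]
  rfl

theorem cpr_sub (E F : Finset Γ) (A B : Matrix κ ν (MonoidAlgebra ℂ Γ)) :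
    cpr E F (A - B) = cpr E F A - cpr E F B := rfl

theorem cpr_smul (E F : Finset Γ) (c : ℂ) (A : Matrix κ ν (MonoidAlgebra ℂ Γ)) :
    cpr E F (c • A) = c • cpr E F A := rfl

variable [Fintype κ] [Fintype ν] [DecidableEq κ] [DecidableEq ν] [DecidableEq Γ]

/-- the compression of the Laplacian -/
theorem cpr_Dop {E F S : Finset Γ} {A : Matrix κ ν (MonoidAlgebra ℂ Γ)} (hA : Sub S A)
    (h : ∀ e ∈ E, ∀ s ∈ S, e * s ∈ F) (c : ℝ) :
    1 - ((c⁻¹ : ℝ) : ℂ) • (cpr E F A * (cpr E F A)ᴴ) = cpr E E (Dop A c) := by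
  rw [← cpr_astar, cpr_mul hA _ h, ← cpr_one, ← cpr_smul, ← cpr_sub]
  rfl

theorem sum_row {E S : Finset Γ} {a : MonoidAlgebra ℂ Γ} (ha : ∀ g, a.coeff g ≠ 0 → g ∈ S) (e : Γ)
    (he : ∀ s ∈ S, e * s ∈ E) : ∑ f : E, ‖a.coeff (e⁻¹ * f)‖ ^ 2 = sqn a := by
  unfold sqn Finsupp.sum
  symm
  refine Finset.sum_bij_ne_zero (fun g hg _ => (⟨e * g, he g (ha g (Finsupp.mem_support_iff.1 hg))⟩ : E))
    (fun _ _ _ => Finset.mem_univ _) ?_ ?_ ?_
  · intro a _ _ b _ _ hab
    exact mul_left_cancel (congrArg Subtype.val hab)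
  · intro f _ hf
    have hne : a.coeff (e⁻¹ * f) ≠ 0 := by
      intro h0
      apply hf
      rw [h0]
      simp
    exact ⟨e⁻¹ * f, Finsupp.mem_support_iff.2 hne, hf, Subtype.ext (mul_inv_cancel_left _ _)⟩
  · intro g _ _
    rw [inv_mul_cancel_left]

/-- **The trace of the powers of the compression** -/
theorem trace_cpr_ge {E F S S' : Finset Γ} {A : Matrix κ ν (MonoidAlgebra ℂ Γ)} (c : ℝ) (m : ℕ) (h1 : (1 : Γ) ∈ S)
    (hA : Sub S' A) (hD : Sub S (Dop A c)) (h : ∀ e ∈ E, ∀ s ∈ S', e * s ∈ F) :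
    (((E.filter fun e => ∀ s ∈ S ^ m, e * s ∈ E).card : ℕ) : ℝ) * phi A c m ≤
      ∑ i, (1 - c⁻¹ * vnEv (cpr E F A) i) ^ (m + m) := by
  classical
  set T := cpr E E (Dop A c) with hT
  have h2 := trace_pow (cpr E F A) c (m + m)
  rw [cpr_Dop hA h c, ← hT] at h2
  have h3 : T.IsHermitian := by
    rw [hT, ← cpr_Dop hA h c]
    refine Matrix.IsHermitian.sub Matrix.isHermitian_one ?_
    exact Matrix.IsHermitian.smul (herm_sq _) (Complex.conj_ofReal _)
  rw [pow_add] at h2
  have h4 : (T ^ m * T ^ m).trace = ((∑ x, ∑ y, ‖(T ^ m) x y‖ ^ 2 : ℝ) : ℂ) := by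
    nth_rewrite 2 [← (h3.pow m).eq]
    rw [Matrix.trace]
    push_cast
    refine Finset.sum_congr rfl fun x _ => ?_
    rw [Matrix.diag_apply, Matrix.mul_apply]
    refine Finset.sum_congr rfl fun y _ => ?_
    rw [conjTranspose_apply]
    exact Complex.mul_conj' _
  rw [h4] at h2
  have h5 := Complex.ofReal_injective h2
  rw [← h5, Fintype.sum_prod_type, Finset.sum_comm]
  have h6 : ∀ e : E, (∀ s ∈ S ^ m, (e : Γ) * s ∈ E) → ∑ i, ∑ y, ‖(T ^ m) (i, e) y‖ ^ 2 = phi A c m := by
    intro e he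
    unfold phi
    refine Finset.sum_congr rfl fun i _ => ?_
    rw [Fintype.sum_prod_type]
    refine Finset.sum_congr rfl fun i' _ => ?_
    rw [← sum_row (E := E) (fun g hg => (hD.pow m) i i' g hg) (e : Γ) he]
    refine Finset.sum_congr rfl fun f _ => ?_
    rw [hT, cpr_pow_row h1 hD m (i, e) he (i', f), cpr_apply]
  have h7 : (((E.filter fun e => ∀ s ∈ S ^ m, e * s ∈ E).card : ℕ) : ℝ) * phi A c m =
      ∑ e : E, if (∀ s ∈ S ^ m, (e : Γ) * s ∈ E) then phi A c m else 0 := by
    rw [Finset.sum_coe_sort E (fun e : Γ => if (∀ s ∈ S ^ m, e * s ∈ E) then phi A c m else 0), ← Finset.sum_filter,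
      Finset.sum_const, nsmul_eq_mul]
  rw [h7]
  refine Finset.sum_le_sum fun e _ => ?_
  split_ifs with he
  · exact (h6 e he).ge
  · exact Finset.sum_nonneg fun i _ => Finset.sum_nonneg fun y _ => sq_nonneg _

end

section

variable {G : Type*} [Group G] {Γ : Type*} [Group Γ] {κ ν : Type*} [Fintype κ] [Fintype ν] [DecidableEq κ]
  [DecidableEq ν]

/-- the norm of the compression -/
theorem nrm_cpr_le (π : G →* Γ) (A : Matrix κ ν (MonoidAlgebra ℂ G)) {c : ℝ} (hc : l1 A ^ 2 ≤ c) (E F : Finset Γ)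
    (x : κ × E → ℂ) : nrm (Matrix.vecMul x (cpr E F (A.map (MonoidAlgebra.mapDomainRingHom ℂ π)))) ^ 2 ≤
      c * nrm x ^ 2 := by
  classical
  let x' : κ × Γ → ℂ := fun p => if h : p.2 ∈ E then x (p.1, ⟨p.2, h⟩) else 0
  have hx'0 : ∀ p : κ × Γ, p ∉ ((Finset.univ : Finset κ) ×ˢ E) → x' p = 0 := by
    intro p hp
    refine dif_neg fun h => hp ?_
    exact Finset.mem_product.2 ⟨Finset.mem_univ _, h⟩
  have hs : Summable fun p => ‖x' p‖ ^ 2 := summable_of_ne_finset_zero (s := (Finset.univ : Finset κ) ×ˢ E)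
    fun p hp => by rw [hx'0 p hp]; simp
  set X : LL κ Γ := ⟨x', (memlp_iff _).2 hs⟩ with hX
  have h1 : ‖X‖ ^ 2 = nrm x ^ 2 := by
    rw [norm_sq_lp, nrm_sq, tsum_eq_sum (s := (Finset.univ : Finset κ) ×ˢ E)
      (fun p hp => by
        show ‖x' p‖ ^ 2 = 0
        rw [hx'0 p hp]; simp), Finset.sum_product, Fintype.sum_prod_type]
    refine Finset.sum_congr rfl fun i _ => ?_
    rw [← Finset.sum_coe_sort E]
    refine Finset.sum_congr rfl fun e _ => ?_
    show ‖x' (i, (e : Γ))‖ ^ 2 = _
    have : x' (i, (e : Γ)) = x (i, e) := dif_pos e.2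
    rw [this]
  have h2 : ∀ p : ν × F, Matrix.vecMul x (cpr E F (A.map (MonoidAlgebra.mapDomainRingHom ℂ π))) p =
      Lop π A X (p.1, (p.2 : Γ)) := by
    rintro ⟨i, h⟩
    rw [Lop_apply]
    show ∑ y, x y * cpr E F (A.map (MonoidAlgebra.mapDomainRingHom ℂ π)) y (i, h) = _
    rw [Fintype.sum_prod_type]
    refine Finset.sum_congr rfl fun j _ => ?_
    show ∑ e : E, x (j, e) * (Finsupp.mapDomain π (A j i).coeff) ((e : Γ)⁻¹ * h) =
      (A j i).coeff.sum fun s z => x' (j, h * (π s)⁻¹) * z
    have h3 : (A j i).coeff.sum (fun s z => x' (j, h * (π s)⁻¹) * z)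
        = (Finsupp.mapDomain π (A j i).coeff).sum (fun t z => x' (j, h * t⁻¹) * z) := by
      rw [Finsupp.sum_mapDomain_index]
      · intro t; simp
      · intro t a b; ring
    rw [h3, Finsupp.sum]
    symm
    have hE : ∀ t : Γ, x' (j, h * t⁻¹) ≠ 0 → (h : Γ) * t⁻¹ ∈ E := by
      intro t ht
      by_contra hc
      exact ht (dif_neg hc)
    refine Finset.sum_bij_ne_zero (fun t _ ht => (⟨(h : Γ) * t⁻¹, hE t fun h0 => ht (by rw [h0, zero_mul])⟩ : E))
      (fun _ _ _ => Finset.mem_univ _) ?_ ?_ ?_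
    · intro a _ _ b _ _ hab
      exact inv_injective (mul_left_cancel (congrArg Subtype.val hab))
    · intro e _ he
      have h4 : (h : Γ) * ((e : Γ)⁻¹ * h)⁻¹ = e := by group
      have h5 : (Finsupp.mapDomain π (A j i).coeff) ((e : Γ)⁻¹ * h) ≠ 0 := fun h0 => he (by rw [h0, mul_zero])
      have h6 : x' (j, (h : Γ) * ((e : Γ)⁻¹ * h)⁻¹) = x (j, e) := by
        rw [h4]
        exact dif_pos e.2
      refine ⟨(e : Γ)⁻¹ * h, Finsupp.mem_support_iff.2 h5, ?_, Subtype.ext h4⟩
      rw [h6]
      exact he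
    · intro t _ ht
      have h7 := hE t fun h0 => ht (by rw [h0, zero_mul])
      have h8 : x' (j, (h : Γ) * t⁻¹) = x (j, ⟨(h : Γ) * t⁻¹, h7⟩) := dif_pos h7
      have h9 : ((h : Γ) * t⁻¹)⁻¹ * h = t := by group
      show x' (j, (h : Γ) * t⁻¹) * (Finsupp.mapDomain π (A j i).coeff) t =
        x (j, ⟨(h : Γ) * t⁻¹, h7⟩) * (Finsupp.mapDomain π (A j i).coeff) (((h : Γ) * t⁻¹)⁻¹ * h)
      exact congrArg₂ (· * ·) h8 (congrArg (Finsupp.mapDomain π (A j i).coeff) h9.symm)
  have h3 : nrm (Matrix.vecMul x (cpr E F (A.map (MonoidAlgebra.mapDomainRingHom ℂ π)))) ^ 2 ≤ ‖Lop π A X‖ ^ 2 := by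
    rw [nrm_sq, norm_sq_lp]
    have hsum : Summable fun p => ‖Lop π A X p‖ ^ 2 := (memlp_iff _).1 (lp.memℓp (Lop π A X))
    have hinj : Function.Injective fun p : ν × F => ((p.1, (p.2 : Γ)) : ν × Γ) := by
      rintro ⟨a, b⟩ ⟨c, d⟩ hab
      rw [Prod.mk.injEq] at hab
      exact Prod.ext hab.1 (Subtype.ext hab.2)
    have h4 := tsum_comp_le_tsum_of_inj hsum (fun p => sq_nonneg _) hinj
    rw [tsum_fintype] at h4
    refine le_trans (le_of_eq ?_) h4
    refine Finset.sum_congr rfl fun p _ => ?_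
    rw [h2]
    rfl
  rw [← h1]
  exact h3.trans (norm_Lop_sq π A hc X)

/-- the numbers `phi` at a level where the supports are separated -/
theorem phi_map (π : G →* Γ) (A : Matrix κ ν (MonoidAlgebra ℂ G)) (c : ℝ) (m : ℕ)
    (hinj : ∀ i i', Set.InjOn π ((Dop A c ^ m) i i').coeff.support) :
    phi (A.map (MonoidAlgebra.mapDomainRingHom ℂ π)) c m = phi A c m := by
  set f := MonoidAlgebra.mapDomainRingHom ℂ π with hf
  have h1 : Dop (A.map f) c = (Dop A c).map f := by
    unfold Dop
    rw [← Astar_map, ← Matrix.map_mul]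
    ext1 i j
    simp only [Matrix.map_apply, Matrix.sub_apply, Matrix.smul_apply, map_sub]
    congr 1
    · rw [Matrix.one_apply, Matrix.one_apply]
      split_ifs <;> simp
    · apply MonoidAlgebra.coeff_injective
      show _ = Finsupp.mapDomain π ((((c⁻¹ : ℝ) : ℂ) • (A * Astar A) i j).coeff)
      rw [MonoidAlgebra.coeff_smul, MonoidAlgebra.coeff_smul, Finsupp.mapDomain_smul]
      rfl
  have h2 : Dop (A.map f) c ^ m = (Dop A c ^ m).map f := by
    rw [h1]
    exact (map_pow f.mapMatrix (Dop A c) m).symm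
  unfold phi
  rw [h2]
  refine Finset.sum_congr rfl fun i _ => Finset.sum_congr rfl fun i' _ => ?_
  rw [Matrix.map_apply]
  exact sqn_map π _ (hinj i i')

end

end Pool.Agent.S14

end

section

/-!
# S14/Ext: a homomorphism from a subring extends to the division ring of its left fractions
-/

namespace S14

/-- `ev : A → D` injective, every element of the division ring `D` is a left fraction of elements
of `A`, `ρ : A → R` makes all nonzero elements invertible: then `ρ` extends to `D`. -/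
theorem exists_ext {A D R : Type} [Ring A] [DivisionRing D] [Ring R] (ev : A →+* D)
    (inj : ∀ a, ev a = 0 → a = 0)
    (frac : ∀ d : D, ∃ s t : A, ev s ≠ 0 ∧ ev s * d = ev t)
    (ρ : A →+* R) (unit : ∀ a, a ≠ 0 → IsUnit (ρ a)) :
    ∃ Ψ : D →+* R, ∀ a, Ψ (ev a) = ρ a := by
  have inj' : ∀ a b : A, ev a = ev b → a = b := fun a b h =>
    sub_eq_zero.1 (inj _ (by rw [map_sub, h, sub_self]))
  have hun : ∀ a, ev a ≠ 0 → IsUnit (ρ a) := fun a ha => unit a fun h => ha (by rw [h, map_zero])
  -- `r` is the value at `d`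
  let P : D → R → Prop := fun d r => ∀ s t : A, ev s * d = ev t → ρ s * r = ρ t
  have hex : ∀ d, ∃ r, P d r := by
    intro d
    obtain ⟨s₀, t₀, h0, h1⟩ := frac d
    obtain ⟨w, hw⟩ := hun s₀ h0
    refine ⟨↑w⁻¹ * ρ t₀, fun s t h => ?_⟩
    obtain ⟨u, v, hu, huv⟩ := frac (ev s * (ev s₀)⁻¹)
    have e1 : u * s = v * s₀ := by
      refine inj' _ _ ?_
      rw [map_mul, map_mul, ← huv, mul_assoc, mul_assoc, inv_mul_cancel₀ h0, mul_one]
    have e2 : v * t₀ = u * t := by
      refine inj' _ _ ?_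
      rw [map_mul, map_mul, ← h1, ← h, ← mul_assoc, ← mul_assoc, ← map_mul, ← map_mul, e1]
    have h3 : ρ s₀ * (↑w⁻¹ * ρ t₀) = ρ t₀ := by
      rw [← hw, ← mul_assoc, Units.mul_inv, one_mul]
    refine (hun u hu).mul_left_cancel ?_
    rw [← mul_assoc, ← map_mul, e1, map_mul, mul_assoc, h3, ← map_mul, e2, map_mul]
  have huq : ∀ d r r', P d r → P d r' → r = r' := by
    intro d r r' h h'
    obtain ⟨s₀, t₀, h0, h1⟩ := frac d
    refine (hun s₀ h0).mul_left_cancel ?_
    rw [h _ _ h1, h' _ _ h1]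
  have hadd : ∀ d d' r r', P d r → P d' r' → P (d + d') (r + r') := by
    intro d d' r r' h h' s t hst
    obtain ⟨u, v, hu, huv⟩ := frac (ev s * d)
    have e1 : ev (u * s) * d = ev v := by rw [map_mul, mul_assoc, huv]
    have e2 : ev (u * s) * d' = ev (u * t - v) := by
      rw [map_sub, ← e1, map_mul ev u t, ← hst, map_mul, mul_add, mul_add, ← mul_assoc, ← mul_assoc]
      abel
    refine (hun u hu).mul_left_cancel ?_
    rw [← mul_assoc, ← map_mul, mul_add, h _ _ e1, h' _ _ e2, ← map_add, ← map_mul]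
    congr 1
    abel
  have hmul : ∀ d d' r r', P d r → P d' r' → P (d * d') (r * r') := by
    intro d d' r r' h h' s t hst
    obtain ⟨u, v, hu, huv⟩ := frac (ev s * d)
    have e1 : ev (u * s) * d = ev v := by rw [map_mul, mul_assoc, huv]
    have e2 : ev v * d' = ev (u * t) := by
      rw [← e1, map_mul ev u t, ← hst, map_mul]
      simp only [mul_assoc]
    refine (hun u hu).mul_left_cancel ?_
    rw [← mul_assoc, ← mul_assoc, ← map_mul, h _ _ e1, h' _ _ e2, map_mul]
  have hev : ∀ a, P (ev a) (ρ a) := by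
    intro a s t h
    rw [← map_mul] at h
    rw [← map_mul, inj' _ _ h]
  choose Ψ hΨ using hex
  have key : ∀ a, Ψ (ev a) = ρ a := fun a => huq _ _ _ (hΨ _) (hev a)
  exact ⟨{ toFun := Ψ
           map_one' := by have := key 1; rwa [map_one, map_one] at this
           map_zero' := by have := key 0; rwa [map_zero, map_zero] at this
           map_add' := fun d d' => huq _ _ _ (hΨ _) (hadd _ _ _ _ (hΨ d) (hΨ d'))
           map_mul' := fun d d' => huq _ _ _ (hΨ _) (hmul _ _ _ _ (hΨ d) (hΨ d')) }, key⟩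

end S14

end

section

/-!
# Project S14: the sum of the homogeneous components is an Ore ring if the group of the degrees is amenable

`direct`: the components `cl u q` are independent.  `S12.Fol` = a weak form of the Foelner condition.
-/

set_option autoImplicit false
set_option linter.unusedSectionVars false

namespace Pool.Agent.S14

open Pool.Agent.S12

section

variable {H D : Type} [Group H] [DivisionRing D] (u : H →* D) {N : Subgroup H} [hN : N.Normal]

/-- the homogeneous components are independent -/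
def Direct (N : Subgroup H) [N.Normal] : Prop :=
  ∀ s : (H ⧸ N) →₀ D, (∀ q, s q ∈ cl u q) → (s.sum fun _ a => a) = 0 → s = 0

/-- a translation of a finite sum -/
theorem sum_shift {Q : Type} [Group Q] (s : Q →₀ D) (f : Q) (G : Finset Q) (h : ∀ q, s q ≠ 0 → f * q ∈ G) :
    ∑ g ∈ G, s (f⁻¹ * g) = s.sum fun _ a => a := by
  classical
  rw [Finsupp.sum, ← Finset.sum_image (s := G) (g := fun g => f⁻¹ * g) (f := fun q => s q)
    (fun x _ y _ hxy => mul_left_cancel hxy)]
  symm
  refine Finset.sum_subset (fun q hq => ?_) fun q _ hq => Finsupp.notMem_support_iff.1 hq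
  exact Finset.mem_image.2 ⟨f * q, h q (Finsupp.mem_support_iff.1 hq), inv_mul_cancel_left f q⟩

/-- the left Ore condition -/
theorem lore_SD (hd : Direct u N) (P : Subgroup (H ⧸ N)) (hP : Fol P) : LOre (SD u P) := by
  classical
  intro x hx t ht ht0
  obtain ⟨a, ha, haP, rfl⟩ := (mem_SD u).1 hx
  obtain ⟨b, hb, hbP, rfl⟩ := (mem_SD u).1 ht
  -- the Foelner set
  obtain ⟨F, G, hFP, hFG, hcard⟩ : ∃ F G : Finset (H ⧸ N), (∀ f ∈ F, f ∈ P) ∧
      (∀ f ∈ F, ∀ q, (a q ≠ 0 ∨ b q ≠ 0) → f * q ∈ G) ∧ G.card < 2 * F.card := by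
    let C : Finset P := (a.support ∪ b.support).subtype fun q => q ∈ P
    obtain ⟨F, G, h1, h2⟩ := hP C
    refine ⟨F.map ⟨Subtype.val, Subtype.val_injective⟩, G.map ⟨Subtype.val, Subtype.val_injective⟩, ?_, ?_, ?_⟩
    · intro f hf
      obtain ⟨f', -, rfl⟩ := Finset.mem_map.1 hf
      exact f'.2
    · intro f hf q hq
      obtain ⟨f', hf', rfl⟩ := Finset.mem_map.1 hf
      have hqP : q ∈ P := hq.elim (haP q) (hbP q)
      have hqC : (⟨q, hqP⟩ : P) ∈ C := by
        rw [Finset.mem_subtype, Finset.mem_union, Finsupp.mem_support_iff, Finsupp.mem_support_iff]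
        exact hq
      exact Finset.mem_map.2 ⟨f' * ⟨q, hqP⟩, h1 f' hf' _ hqC, rfl⟩
    · rw [Finset.card_map, Finset.card_map]
      exact h2
  -- representatives
  obtain ⟨rp, hrp⟩ : ∃ rp : H ⧸ N → H, ∀ α, ((rp α : H) : H ⧸ N) = α :=
    (QuotientGroup.mk_surjective (s := N)).hasRightInverse
  have hmem : ∀ (c : (H ⧸ N) →₀ D), (∀ q, c q ∈ cl u q) → ∀ f g : H ⧸ N,
      u (rp f) * c (f⁻¹ * g) * (u (rp g))⁻¹ ∈ DN u N := by
    intro c hc f g
    have h1 : u (rp f) * c (f⁻¹ * g) ∈ cl u g := by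
      have h2 := cl_mul u (u_mem_cl u (N := N) (rp f)) (hc (f⁻¹ * g))
      rwa [hrp, mul_inv_cancel_left] at h2
    exact h1 (rp g) (hrp g)
  obtain ⟨v, hv0, hv⟩ := exists_left (D := DN u N) (m := F ⊕ F) (n := G)
    (fun i j => Sum.elim (fun f : F => (⟨_, hmem a ha f.1 j.1⟩ : DN u N))
      (fun f : F => -(⟨_, hmem b hb f.1 j.1⟩ : DN u N)) i)
    (by rw [Fintype.card_sum, Fintype.card_coe, Fintype.card_coe]; omega)
  set p : D := ∑ f : F, (v (Sum.inl f) : D) * u (rp f.1) with hp
  set r : D := ∑ f : F, (v (Sum.inr f) : D) * u (rp f.1) with hr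
  have hprod : ∀ (c : (H ⧸ N) →₀ D) (w : F → DN u N), (∀ q, c q ≠ 0 → a q ≠ 0 ∨ b q ≠ 0) →
      (∑ f : F, (w f : D) * u (rp f.1)) * (c.sum fun _ a => a) =
      ∑ g : G, (∑ f : F, (w f : D) * (u (rp f.1) * c (f.1⁻¹ * g.1) * (u (rp g.1))⁻¹)) * u (rp g.1) := by
    intro c w hcw
    have h1 : ∀ g : G, (∑ f : F, (w f : D) * (u (rp f.1) * c (f.1⁻¹ * g.1) * (u (rp g.1))⁻¹)) * u (rp g.1) =
        ∑ f : F, (w f : D) * u (rp f.1) * c (f.1⁻¹ * g.1) := by
      intro g
      rw [Finset.sum_mul]
      refine Finset.sum_congr rfl fun f _ => ?_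
      rw [mul_assoc, inv_mul_cancel_right₀ (u_ne u _), mul_assoc]
    rw [Finset.sum_congr rfl fun g _ => h1 g, Finset.sum_comm, Finset.sum_mul]
    refine Finset.sum_congr rfl fun f _ => ?_
    rw [← Finset.mul_sum]
    congr 1
    rw [← sum_shift c f.1 G fun q hq => hFG f.1 f.2 q (hcw q hq)]
    exact (Finset.sum_coe_sort G fun g => c (f.1⁻¹ * g)).symm
  have hup : p * (a.sum fun _ a => a) = r * (b.sum fun _ a => a) := by
    rw [← sub_eq_zero, hp, hr, hprod a _ fun q hq => Or.inl hq, hprod b _ fun q hq => Or.inr hq,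
      ← Finset.sum_sub_distrib]
    refine Finset.sum_eq_zero fun g _ => ?_
    rw [← sub_mul]
    have h1 := congrArg (fun d : DN u N => (d : D)) (hv g)
    rw [Fintype.sum_sum_type] at h1
    simp only [Sum.elim_inl, Sum.elim_inr] at h1
    have h2 : (∑ f : F, (v (Sum.inl f) : D) * (u (rp f.1) * a (f.1⁻¹ * g.1) * (u (rp g.1))⁻¹)) -
        ∑ f : F, (v (Sum.inr f) : D) * (u (rp f.1) * b (f.1⁻¹ * g.1) * (u (rp g.1))⁻¹) = 0 := by
      rw [sub_eq_add_neg, ← Finset.sum_neg_distrib]
      refine Eq.trans ?_ h1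
      rw [Subfield.coe_add, AddSubmonoidClass.coe_finsetSum, AddSubmonoidClass.coe_finsetSum]
      congr 1
      refine Finset.sum_congr rfl fun f _ => ?_
      rw [← mul_neg]
      rfl
    rw [h2, zero_mul]
  have hzero : ∀ w : F → DN u N, (∑ f : F, (w f : D) * u (rp f.1)) = 0 → ∀ f, w f = 0 := by
    intro w hw f
    let s : (H ⧸ N) →₀ D := Finsupp.indicator F fun q hq => (w ⟨q, hq⟩ : D) * u (rp q)
    have hs1 : ∀ q (hq : q ∈ F), s q = (w ⟨q, hq⟩ : D) * u (rp q) := fun q hq => Finsupp.indicator_of_mem hq _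
    have hs0 : ∀ q, q ∉ F → s q = 0 := fun q hq => Finsupp.indicator_of_notMem hq _
    have hs : s = 0 := by
      refine hd s (fun q => ?_) ?_
      · by_cases hq : q ∈ F
        · rw [hs1 q hq]
          have h1 := mul_u_mem_cl u (w ⟨q, hq⟩).2 (rp q)
          rwa [hrp] at h1
        · rw [hs0 q hq]
          exact (cl u q).zero_mem
      · rw [← hw, Finsupp.sum]
        rw [Finset.sum_subset (s₁ := s.support) (s₂ := F) (fun q hq => ?_) fun q _ hq => Finsupp.notMem_support_iff.1 hq]
        · rw [← Finset.sum_coe_sort F]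
          exact Finset.sum_congr rfl fun q _ => hs1 q.1 q.2
        · by_contra hc
          exact Finsupp.mem_support_iff.1 hq (hs0 q hc)
    have h1 := hs1 f.1 f.2
    rw [hs, Finsupp.zero_apply] at h1
    rcases mul_eq_zero.1 h1.symm with h2 | h2
    · exact Subtype.ext h2
    · exact absurd h2 (u_ne u _)
  have hmemS : ∀ w : F → DN u N, (∑ f : F, (w f : D) * u (rp f.1)) ∈ SD u P := fun w =>
    (SD u P).sum_mem fun f _ => cl_le_SD u (q := ((rp f.1 : H) : H ⧸ N)) (by rw [hrp]; exact hFP f.1 f.2)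
      (mul_u_mem_cl u (w f).2 (rp f.1))
  refine ⟨p, hmemS fun f => v (Sum.inl f), r, hmemS fun f => v (Sum.inr f), fun hp0 => hv0 ?_, hup⟩
  rw [hp0, zero_mul] at hup
  have hr0 : r = 0 := (mul_eq_zero.1 hup.symm).resolve_right ht0
  funext i
  rcases i with f | f
  · exact hzero (fun f => v (Sum.inl f)) hp0 f
  · exact hzero (fun f => v (Sum.inr f)) hr0 f

/-- **Fractions.** -/
theorem exists_frac (hd : Direct u N) (P : Subgroup (H ⧸ N)) (hP : Fol P) {c : D}
    (hc : c ∈ DN u (P.comap (QuotientGroup.mk' N))) : ∃ s ∈ SD u P, s ≠ 0 ∧ s * c ∈ SD u P := by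
  obtain ⟨E, hE⟩ := exists_lfrac (lore_SD u hd P hP)
  refine (hE c).1 ?_
  have h1 : DN u (P.comap (QuotientGroup.mk' N)) ≤ E := by
    refine Subfield.closure_le.2 ?_
    rintro _ ⟨h, hh, rfl⟩
    refine (hE _).2 ⟨1, (SD u P).one_mem, one_ne_zero, ?_⟩
    rw [one_mul]
    exact u_mem_SD u hh
  exact h1 hc

end

end Pool.Agent.S14

end

section

/-!
# S14/Gr: left ordered groups with explicit order data, graded pieces of a division ring

`LOG Q` is a left invariant linear order on the group `Q`.  `WO` is well-ordered for it.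
`Gr D Q` is a family of additive subgroups `S q` of the division ring `D`, `q` in `Q`, such that the
sum is direct and every element of `D` is a left fraction of two elements of the sum.
-/

namespace S14

/-- A left invariant linear order on a group (explicit data). -/
structure LOG (Q : Type) [Group Q] where
  ord : LinearOrder Q
  left : ∀ a b c : Q, ord.lt a b → ord.lt (c * a) (c * b)

namespace LOG

variable {Q : Type} [Group Q] (o : LOG Q)

/-- The strict order. -/
def lt (a b : Q) : Prop := o.ord.lt a b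

/-- The opposite order is left invariant, too. -/
def rev : LOG Q where
  ord := letI := o.ord; (inferInstance : LinearOrder Qᵒᵈ)
  left := fun a b c h => o.left b a c h

theorem irrefl (a : Q) : ¬ o.lt a a := by
  let _ := o.ord
  exact lt_irrefl (a := a)

theorem trans {a b c : Q} (h : o.lt a b) (h' : o.lt b c) : o.lt a c := by
  let _ := o.ord
  exact lt_trans (α := Q) h h'

theorem asymm {a b : Q} (h : o.lt a b) : ¬ o.lt b a := fun h' => o.irrefl a (o.trans h h')

theorem tri (a b : Q) : o.lt a b ∨ a = b ∨ o.lt b a := by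
  let _ := o.ord
  exact lt_trichotomy (α := Q) a b

theorem lt_of_lt_of_not {a b c : Q} (h : o.lt a b) (h' : ¬ o.lt c b) : o.lt a c := by
  rcases o.tri a c with h1 | h1 | h1
  · exact h1
  · exact absurd (h1 ▸ h) h'
  · exact absurd (o.trans h1 h) h'

theorem lt_of_not_of_lt {a b c : Q} (h : ¬ o.lt b a) (h' : o.lt b c) : o.lt a c := by
  rcases o.tri a c with h1 | h1 | h1
  · exact h1
  · exact absurd (h1 ▸ h') h
  · exact absurd (o.trans h' h1) h

theorem mul_lt (c : Q) {a b : Q} (h : o.lt a b) : o.lt (c * a) (c * b) := o.left a b c h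

theorem mul_lt_iff (c a b : Q) : o.lt (c * a) (c * b) ↔ o.lt a b := by
  refine ⟨fun h => ?_, o.mul_lt c⟩
  have := o.mul_lt c⁻¹ h
  simpa using this

theorem lt_inv_mul (c a b : Q) : o.lt a (c⁻¹ * b) ↔ o.lt (c * a) b := by
  rw [← o.mul_lt_iff c]
  simp

theorem inv_mul_lt (c a b : Q) : o.lt (c⁻¹ * a) b ↔ o.lt a (c * b) := by
  rw [← o.mul_lt_iff c]
  simp

/-- Well-ordered subsets. -/
def WO (s : Set Q) : Prop := s.WellFoundedOn o.lt

variable {o} {s t : Set Q}

theorem WO.mono (h : o.WO t) (hs : s ⊆ t) : o.WO s := Set.WellFoundedOn.subset h hs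

theorem WO.union (h : o.WO s) (h' : o.WO t) : o.WO (s ∪ t) := by
  let _ := o.ord
  exact Set.IsWF.union (α := Q) h h'

theorem WO.of_finite (h : s.Finite) : o.WO s := by
  let _ := o.ord
  exact Set.Finite.isWF (α := Q) h

theorem WO.biUnion {ι : Type} (F : Finset ι) (f : ι → Set Q) (h : ∀ i ∈ F, o.WO (f i)) :
    o.WO (⋃ i ∈ F, f i) := by
  classical
  induction F using Finset.induction_on with
  | empty =>
    refine WO.of_finite ?_
    simp
  | insert a F _ ih =>
    rw [Finset.set_biUnion_insert]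
    exact WO.union (h a (Finset.mem_insert_self _ _))
      (ih fun i hi => h i (Finset.mem_insert_of_mem hi))

theorem WO.min (h : o.WO s) (hs : s.Nonempty) : ∃ a ∈ s, ∀ b ∈ s, ¬ o.lt b a := by
  let _ := o.ord
  exact ⟨Set.IsWF.min (α := Q) h hs, Set.IsWF.min_mem (α := Q) h hs, fun b hb =>
    Set.IsWF.not_lt_min (α := Q) h hs hb⟩

theorem wo_of_min (h : ∀ t : Set Q, t ⊆ s → t.Nonempty → ∃ a ∈ t, ∀ b ∈ t, ¬ o.lt b a) :
    o.WO s := by
  refine WellFounded.wellFounded_iff_has_min.2 ?_
  intro T hT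
  obtain ⟨a, ha, hm⟩ := h (Subtype.val '' T) (by rintro _ ⟨x, _, rfl⟩; exact x.2) (hT.image _)
  obtain ⟨x, hx, rfl⟩ := ha
  exact ⟨x, hx, fun y hy => hm y.1 ⟨y, hy, rfl⟩⟩

/-- The image of a well-ordered set under a weakly monotone map is well-ordered. -/
theorem WO.image {R : Type} [Group R] (o' : LOG R) (f : Q → R)
    (hf : ∀ a b, o'.lt (f a) (f b) → o.lt a b) (h : o.WO s) : o'.WO (f '' s) := by
  refine wo_of_min fun t hts htn => ?_
  have h1 : (s ∩ f ⁻¹' t).Nonempty := by
    obtain ⟨y, hy⟩ := htn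
    obtain ⟨x, hx, rfl⟩ := hts hy
    exact ⟨x, hx, hy⟩
  obtain ⟨a, ha, hm⟩ := WO.min (WO.mono h Set.inter_subset_left) h1
  refine ⟨f a, ha.2, fun b hb hlt => ?_⟩
  obtain ⟨x, hx, rfl⟩ := hts hb
  exact hm x ⟨hx, hb⟩ (hf _ _ hlt)

theorem WO.lmul (h : o.WO s) (c : Q) : o.WO ((fun x => c * x) '' s) :=
  WO.image o (fun x => c * x) (fun a b hab => (o.mul_lt_iff c a b).1 hab) h

/-- A set which is well-ordered for the order and for its opposite is finite. -/
theorem WO.finite (h : o.WO s) (h' : o.rev.WO s) : s.Finite := by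
  let _ := o.ord
  by_contra hc
  have hinf : s.Infinite := hc
  let f := hinf.natEmbedding
  have hpwo : s.IsPWO := Set.IsWF.isPWO (α := Q) h
  obtain ⟨g, hg⟩ := hpwo.exists_monotone_subseq (f := fun n => (f n : Q)) (fun n => (f n).2)
  obtain ⟨m, hm, hmax⟩ := WO.min (o := o.rev) (s := Set.range fun n => (f (g n) : Q))
    (h'.mono (by rintro _ ⟨n, rfl⟩; exact (f (g n)).2)) ⟨_, 0, rfl⟩
  obtain ⟨n, rfl⟩ := hm
  refine hmax (f (g (n + 1))) ⟨n + 1, rfl⟩ ?_
  have h1 : (f (g n) : Q) ≤ f (g (n + 1)) := hg (Nat.le_succ n)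
  have h2 : (f (g n) : Q) ≠ f (g (n + 1)) := by
    intro he
    have h3 := g.injective (f.injective (Subtype.ext he))
    omega
  exact lt_of_le_of_ne h1 h2

end LOG

variable {D Q : Type} [DivisionRing D] [Group Q]

/-- Sum of the coefficients. -/
noncomputable def ev (s : Q →₀ D) : D := s.sum fun _ d => d

/-- A family of additive subgroups of the division ring `D` indexed by `Q`, multiplicative, closed
under inverses, with direct sum, whose left fractions are all of `D`. -/
structure Gr (D Q : Type) [DivisionRing D] [Group Q] where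
  S : Q → AddSubgroup D
  one : (1 : D) ∈ S 1
  mul : ∀ {p q : Q} {a b : D}, a ∈ S p → b ∈ S q → a * b ∈ S (p * q)
  inv : ∀ {q : Q} {a : D}, a ∈ S q → a⁻¹ ∈ S q⁻¹
  direct : ∀ s : Q →₀ D, (∀ q, s q ∈ S q) → ev s = 0 → s = 0
  frac : ∀ d : D, ∃ s t : Q →₀ D, (∀ q, s q ∈ S q) ∧ (∀ q, t q ∈ S q) ∧ ev s ≠ 0 ∧
    ev s * d = ev t

/-- Series: functions `Q → D` with homogeneous values and well-ordered support. -/
def ser (G : Gr D Q) (o : LOG Q) : AddSubgroup (Q → D) where
  carrier := {f | (∀ q, f q ∈ G.S q) ∧ o.WO {q | f q ≠ 0}}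
  zero_mem' := ⟨fun q => (G.S q).zero_mem, LOG.WO.of_finite (by simp)⟩
  add_mem' := fun {f g} hf hg => ⟨fun q => (G.S q).add_mem (hf.1 q) (hg.1 q),
    (LOG.WO.union hf.2 hg.2).mono fun q hq => by
      by_contra hc
      simp only [Set.mem_union, Set.mem_ofPred_eq, not_or, not_not] at hc
      exact hq (by simp [hc.1, hc.2])⟩
  neg_mem' := fun {f} hf => ⟨fun q => (G.S q).neg_mem (hf.1 q), hf.2.mono fun q hq => by
    simpa using hq⟩

/-- The type of series. -/
def Ser (G : Gr D Q) (o : LOG Q) : Type := ser G o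

noncomputable instance (G : Gr D Q) (o : LOG Q) : AddCommGroup (Ser G o) :=
  inferInstanceAs (AddCommGroup (ser G o))

variable {G : Gr D Q} {o : LOG Q}

/-- The function underlying a series. -/
def Ser.co (f : Ser G o) : Q → D := f.1

/-- A series from its coefficients. -/
def Ser.mk (f : Q → D) (h : ∀ q, f q ∈ G.S q) (h' : o.WO {q | f q ≠ 0}) : Ser G o := ⟨f, h, h'⟩

theorem Ser.co_mk (f : Q → D) (h : ∀ q, f q ∈ G.S q) (h' : o.WO {q | f q ≠ 0}) :
    (Ser.mk f h h' : Ser G o).co = f := rfl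

theorem Ser.mem (f : Ser G o) (q : Q) : f.co q ∈ G.S q := f.2.1 q

theorem Ser.wo (f : Ser G o) : o.WO {q | f.co q ≠ 0} := f.2.2

theorem Ser.ext {f g : Ser G o} (h : ∀ q, f.co q = g.co q) : f = g := Subtype.ext (funext h)

theorem Ser.co_zero : (0 : Ser G o).co = 0 := rfl

theorem Ser.co_add (f g : Ser G o) (q : Q) : (f + g).co q = f.co q + g.co q := rfl

theorem Ser.co_sub (f g : Ser G o) (q : Q) : (f - g).co q = f.co q - g.co q := rfl

theorem Ser.co_neg (f : Ser G o) (q : Q) : (-f).co q = -f.co q := rfl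

theorem Ser.exists_min (f : Ser G o) (hf : f ≠ 0) :
    ∃ q, f.co q ≠ 0 ∧ ∀ p, o.lt p q → f.co p = 0 := by
  have h1 : {q | f.co q ≠ 0}.Nonempty := by
    by_contra hc
    rw [Set.not_nonempty_iff_eq_empty] at hc
    refine hf (Ser.ext fun q => ?_)
    by_contra hq
    have : q ∈ {q | f.co q ≠ 0} := hq
    rw [hc] at this
    exact this
  obtain ⟨q, hq, hm⟩ := LOG.WO.min f.wo h1
  exact ⟨q, hq, fun p hp => by
    by_contra hc
    exact hm p hc hp⟩

open Classical in
/-- The restriction of a series to a set of degrees. -/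
noncomputable def Ser.res (f : Ser G o) (P : Set Q) : Ser G o :=
  Ser.mk (fun q => if q ∈ P then f.co q else 0)
    (fun q => by
      split_ifs
      · exact f.mem q
      · exact (G.S q).zero_mem)
    (f.wo.mono fun q hq => by
      intro hc
      exact hq (by simp [hc]))

open Classical in
theorem Ser.co_res (f : Ser G o) (P : Set Q) (q : Q) :
    (f.res P).co q = if q ∈ P then f.co q else 0 := rfl

theorem Ser.co_res_mem (f : Ser G o) {P : Set Q} {q : Q} (h : q ∈ P) :
    (f.res P).co q = f.co q := by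
  rw [Ser.co_res, if_pos h]

theorem Ser.co_res_not (f : Ser G o) {P : Set Q} {q : Q} (h : q ∉ P) :
    (f.res P).co q = 0 := by
  rw [Ser.co_res, if_neg h]

open Classical in
/-- The series with one term. -/
noncomputable def Ser.sgl (G : Gr D Q) (o : LOG Q) (q : Q) (x : D) (hx : x ∈ G.S q) : Ser G o :=
  Ser.mk (fun p => if p = q then x else 0)
    (fun p => by
      split_ifs with h
      · exact h ▸ hx
      · exact (G.S p).zero_mem)
    (LOG.WO.of_finite ((Set.finite_singleton q).subset fun p hp => by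
      by_contra hc
      exact hp (if_neg hc)))

theorem Ser.co_sgl (q : Q) (x : D) (hx : x ∈ G.S q) : (Ser.sgl G o q x hx).co q = x := if_pos rfl

theorem Ser.co_sgl_ne (q : Q) (x : D) (hx : x ∈ G.S q) {p : Q} (h : p ≠ q) :
    (Ser.sgl G o q x hx).co p = 0 := if_neg h

/-- Right multiplication of a series with an element of degree one. -/
def Ser.rm (c : D) (hc : c ∈ G.S 1) : Ser G o →+ Ser G o where
  toFun f := Ser.mk (fun q => f.co q * c) (fun q => by simpa using G.mul (f.mem q) hc)
    (f.wo.mono fun q hq => by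
      intro h
      exact hq (by simp [h]))
  map_zero' := Ser.ext fun q => by simp [Ser.co_mk, Ser.co_zero]
  map_add' f g := Ser.ext fun q => by simp [Ser.co_mk, Ser.co_add, add_mul]

theorem Ser.co_rm (c : D) (hc : c ∈ G.S 1) (f : Ser G o) (q : Q) :
    (Ser.rm c hc f).co q = f.co q * c := rfl

end S14

end

section

/-!
# Project S14: the group algebra itself

`X ↦ (K[H] ⊗ X ⊗ K[H])_H` preserves injections: it is `X ⊗ K[H]`.
-/

set_option autoImplicit false
set_option linter.unusedSectionVars false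

open TensorProduct

namespace Pool.Agent.S14

open Pool.Agent.S11.FL

section

variable {H : Type} [Group H] {X : Type} [AddCommGroup X] [Module (ZMod 2) X] (ρ : Representation (ZMod 2) H X)

variable (H) in
/-- the left multiplication -/
noncomputable def lKH : Representation (ZMod 2) H (MonoidAlgebra (ZMod 2) H) where
  toFun g := LinearMap.mulLeft (ZMod 2) (MonoidAlgebra.of (ZMod 2) H g)
  map_one' := by
    refine LinearMap.ext fun f => ?_
    rw [map_one]
    exact one_mul f
  map_mul' g h := by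
    refine LinearMap.ext fun f => ?_
    rw [map_mul]
    exact mul_assoc _ _ f

/-- the action on `X ⊗ K[H]` -/
noncomputable def aKH : Representation (ZMod 2) H (X ⊗[ZMod 2] MonoidAlgebra (ZMod 2) H) := ρ.tprod (lKH H)

/-- the invariant -/
noncomputable def psiK : MM (ZMod 2) (MonoidAlgebra (ZMod 2) H) X →ₗ[ZMod 2] X ⊗[ZMod 2] MonoidAlgebra (ZMod 2) H :=
  TensorProduct.lift (aKH ρ).asAlgebraHom.toLinearMap

theorem psiK_tmul (a : MonoidAlgebra (ZMod 2) H) (t : X ⊗[ZMod 2] MonoidAlgebra (ZMod 2) H) :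
    psiK ρ (a ⊗ₜ[ZMod 2] t) = (aKH ρ).asAlgebraHom a t := rfl

theorem act_tmul' (g : H) (a : MonoidAlgebra (ZMod 2) H) (t : X ⊗[ZMod 2] MonoidAlgebra (ZMod 2) H) :
    act (MonoidAlgebra.of (ZMod 2) H) ρ g (a ⊗ₜ[ZMod 2] t) =
      (a * MonoidAlgebra.of (ZMod 2) H g⁻¹) ⊗ₜ[ZMod 2] (aKH ρ g t) := rfl

theorem psiK_act (g : H) (m : MM (ZMod 2) (MonoidAlgebra (ZMod 2) H) X) :
    psiK ρ (act (MonoidAlgebra.of (ZMod 2) H) ρ g m) = psiK ρ m := by
  have : psiK ρ ∘ₗ act (MonoidAlgebra.of (ZMod 2) H) ρ g = psiK ρ := TensorProduct.ext' fun a t => by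
    rw [LinearMap.comp_apply, act_tmul', psiK_tmul, psiK_tmul, map_mul, Representation.asAlgebraHom_of]
    have e : (aKH ρ) g⁻¹ ((aKH ρ) g t) = t := by
      rw [← Module.End.mul_apply, ← map_mul, inv_mul_cancel, map_one]
      rfl
    change (aKH ρ).asAlgebraHom a ((aKH ρ) g⁻¹ ((aKH ρ) g t)) = _
    rw [e]
  exact LinearMap.congr_fun this m

theorem psiK_II {N : Subgroup H} {m : MM (ZMod 2) (MonoidAlgebra (ZMod 2) H) X}
    (hm : m ∈ II (MonoidAlgebra.of (ZMod 2) H) ρ N) : psiK ρ m = 0 := by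
  have : II (MonoidAlgebra.of (ZMod 2) H) ρ N ≤ LinearMap.ker (psiK ρ) :=
    II_le (MonoidAlgebra.of (ZMod 2) H) ρ fun g _ m => by
      rw [LinearMap.mem_ker, map_sub, psiK_act, sub_self]
  exact this hm

theorem sub_psiK (m : MM (ZMod 2) (MonoidAlgebra (ZMod 2) H) X) :
    (1 : MonoidAlgebra (ZMod 2) H) ⊗ₜ[ZMod 2] psiK ρ m - m ∈
      II (MonoidAlgebra.of (ZMod 2) H) ρ (⊤ : Subgroup H) := by
  refine TensorProduct.induction_on m ?_ (fun a t => ?_) fun m m' h h' => ?_
  · rw [map_zero, TensorProduct.tmul_zero, sub_zero]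
    exact Submodule.zero_mem _
  rotate_left
  · rw [map_add, TensorProduct.tmul_add, add_sub_add_comm]
    exact Submodule.add_mem _ h h'
  ·
    rw [psiK_tmul]
    induction a using MonoidAlgebra.induction_linear with
    | zero => rw [map_zero, LinearMap.zero_apply, TensorProduct.tmul_zero, TensorProduct.zero_tmul, sub_zero]
              exact Submodule.zero_mem _
    | add a b ha hb =>
      rw [map_add, LinearMap.add_apply, TensorProduct.tmul_add, TensorProduct.add_tmul, add_sub_add_comm]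
      exact Submodule.add_mem _ ha hb
    | single h r =>
      have e1 : (MonoidAlgebra.single h r : MonoidAlgebra (ZMod 2) H) = r • MonoidAlgebra.of (ZMod 2) H h := by
        rw [MonoidAlgebra.of_apply, MonoidAlgebra.smul_single, smul_eq_mul, mul_one]
      have e2 : act (MonoidAlgebra.of (ZMod 2) H) ρ h (MonoidAlgebra.of (ZMod 2) H h ⊗ₜ[ZMod 2] t) =
          (1 : MonoidAlgebra (ZMod 2) H) ⊗ₜ[ZMod 2] (aKH ρ h t) := by
        rw [act_tmul', ← map_mul, mul_inv_cancel, map_one]
      have key := Submodule.smul_mem _ r (act_sub_mem (MonoidAlgebra.of (ZMod 2) H) ρ (Subgroup.mem_top h)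
        (MonoidAlgebra.of (ZMod 2) H h ⊗ₜ[ZMod 2] t))
      rw [e2, smul_sub] at key
      have e3 : (1 : MonoidAlgebra (ZMod 2) H) ⊗ₜ[ZMod 2] ((aKH ρ).asAlgebraHom (MonoidAlgebra.single h r) t) =
          r • ((1 : MonoidAlgebra (ZMod 2) H) ⊗ₜ[ZMod 2] (aKH ρ h t)) := by
        rw [e1, map_smul, LinearMap.smul_apply, TensorProduct.tmul_smul, Representation.asAlgebraHom_of]
      have e4 : (MonoidAlgebra.single h r : MonoidAlgebra (ZMod 2) H) ⊗ₜ[ZMod 2] t =
          r • (MonoidAlgebra.of (ZMod 2) H h ⊗ₜ[ZMod 2] t) := by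
        rw [e1]
        rfl
      rw [e3, e4]
      exact key

/-- **The group algebra.** -/
theorem flatOn_KH : FlatOn.{0} (K := ZMod 2) (MonoidAlgebra.of (ZMod 2) H) (⊤ : Subgroup H) := by
  intro X' X _ _ _ _ ρ' ρ i hi he m hm
  have h1 := psiK_II ρ hm
  have h2 : psiK ρ (mapX (MonoidAlgebra (ZMod 2) H) i m) =
      TensorProduct.map i LinearMap.id (psiK ρ' m) := by
    have : psiK ρ ∘ₗ mapX (MonoidAlgebra (ZMod 2) H) i = TensorProduct.map i LinearMap.id ∘ₗ psiK ρ' := by
      refine TensorProduct.ext' fun a t => ?_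
      rw [LinearMap.comp_apply, LinearMap.comp_apply, psiK_tmul]
      change (aKH ρ).asAlgebraHom a (TensorProduct.map i LinearMap.id t) = _
      induction a using MonoidAlgebra.induction_linear with
      | zero => rw [map_zero, map_zero, LinearMap.zero_apply, LinearMap.zero_apply, map_zero]
      | add a b ha hb => rw [map_add, map_add, LinearMap.add_apply, LinearMap.add_apply, map_add, ha, hb]
      | single h r =>
        have e1 : (MonoidAlgebra.single h r : MonoidAlgebra (ZMod 2) H) = r • MonoidAlgebra.of (ZMod 2) H h := by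
          rw [MonoidAlgebra.of_apply, MonoidAlgebra.smul_single, smul_eq_mul, mul_one]
        rw [e1, map_smul, map_smul, LinearMap.smul_apply, LinearMap.smul_apply, map_smul,
          Representation.asAlgebraHom_of, Representation.asAlgebraHom_of]
        congr 1
        induction t with
        | zero => simp only [map_zero]
        | add t t' ht ht' => simp only [map_add, ht, ht']
        | tmul x b =>
          change ρ h (i x) ⊗ₜ[ZMod 2] (lKH H h b) = i (ρ' h x) ⊗ₜ[ZMod 2] (lKH H h b)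
          rw [he]
    exact LinearMap.congr_fun this m
  rw [h1] at h2
  have h3 : Function.Injective (TensorProduct.map i (LinearMap.id : MonoidAlgebra (ZMod 2) H →ₗ[ZMod 2] _)) :=
    Module.Flat.rTensor_preserves_injective_linearMap i hi
  have h4 : psiK ρ' m = 0 := h3 (by rw [map_zero]; exact h2.symm)
  have h5 := sub_psiK ρ' m
  rw [h4, TensorProduct.tmul_zero, zero_sub] at h5
  exact (Submodule.neg_mem_iff _).1 h5

end

end Pool.Agent.S14

end

section

/-!
# Project S14: left-ordered groups and the interface between the algebra and the topology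

`LO G` = a left-invariant total order.  `L2P ι` = a complex of matrices over `ℤ[H]` which is exact after the reduction
modulo two and `ι` has no `ℓ²`-harmonic chains.  `LPack H` = a division ring of characteristic two with a homomorphism
from the group algebra such that `D ⊗ D` with the diagonal action is flat, and with the property `L2P`.
-/

set_option autoImplicit false
set_option linter.unusedSectionVars false

open TensorProduct

namespace Pool.Agent.S14

open Pool.Agent.S11

/-- a total order on a group which is invariant on the left -/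
class LO (G : Type) [Group G] extends LinearOrder G where
  lt_l : ∀ a b c : G, a < b → c * a < c * b

/-- No `ℓ²`-harmonic chains for the complexes of matrices over `ℤ[H]` which are exact over `D`. -/
def L2P {H D : Type} [Group H] [DivisionRing D] (ι : MonoidAlgebra (ZMod 2) H →+* D) : Prop :=
  ∀ (a b c : ℕ) (A : Matrix (Fin a) (Fin b) (MonoidAlgebra ℤ H)) (B : Matrix (Fin b) (Fin c) (MonoidAlgebra ℤ H)),
    A * B = 0 →
    (∀ y : Fin b → D, ((mod2 A).map ι).mulVec y = 0 → ∃ z : Fin c → D, ((mod2 B).map ι).mulVec z = y) →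
    ∀ x : Fin b → H → ℝ, (∀ j, Summable fun h => x j h ^ 2) →
    (∀ (l : Fin a) (g : H), ∑ j, ∑ h ∈ (A l j).coeff.support, ((A l j).coeff h : ℝ) * x j (g * h) = 0) →
    (∀ (l : Fin c) (g : H), ∑ j, ∑ h ∈ (B j l).coeff.support, ((B j l).coeff h : ℝ) * x j (g * h⁻¹) = 0) →
    ∀ j h, x j h = 0

/-- the division ring -/
structure LPack (H : Type) [Group H] where
  /-- the division ring -/
  D : Type
  /-- it is a division ring -/
  div : DivisionRing D
  /-- of characteristic two -/
  alg : Algebra (ZMod 2) D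
  /-- the homomorphism from the group algebra -/
  ι : MonoidAlgebra (ZMod 2) H →+* D
  flat : Flat ((lft ι).tprod (lft ι))
  l2 : L2P ι

attribute [instance] LPack.div LPack.alg

end Pool.Agent.S14

end

section

/-!
# Project S14: the division ring of fractions of the group algebra of a left-ordered amenable group
-/

set_option autoImplicit false
set_option linter.unusedSectionVars false

open scoped nonZeroDivisors

namespace Pool.Agent.S14

open Pool.Agent.S11

section

variable {Q : Type} [Group Q]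

/-- the group algebra of a left-ordered group is a domain -/
theorem LO.noZeroDivisors (K : Type) [Field K] [LO Q] : NoZeroDivisors (MonoidAlgebra K Q) := by
  have : MulLeftStrictMono Q := ⟨fun c a b h => LO.lt_l a b c h⟩
  infer_instance

theorem mul_coeff_sum {K : Type} [Field K] (F : Finset Q) (v : F → K) (x : MonoidAlgebra K Q) (y : Q) :
    ((∑ f : F, MonoidAlgebra.single (f : Q) (v f)) * x).coeff y = ∑ f : F, v f * x.coeff ((f : Q)⁻¹ * y) := by
  rw [Finset.sum_mul, MonoidAlgebra.coeff_sum, Finsupp.finsetSum_apply]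
  exact Finset.sum_congr rfl fun f _ => MonoidAlgebra.coeff_single_mul_apply _ _ _ _

theorem comb_eq_zero {K : Type} [Field K] (F : Finset Q) (v : F → K)
    (h : ∑ f : F, MonoidAlgebra.single (f : Q) (v f) = 0) (f : F) : v f = 0 := by
  classical
  have h1 := mul_coeff_sum F v 1 f
  rw [h, zero_mul, Finset.sum_eq_single f] at h1
  · rw [inv_mul_cancel, MonoidAlgebra.one_def, MonoidAlgebra.coeff_single, Finsupp.single_eq_same, mul_one] at h1
    exact h1.symm
  · intro g _ hg
    rw [MonoidAlgebra.one_def, MonoidAlgebra.coeff_single, Finsupp.single_eq_of_ne, mul_zero]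
    intro h3
    exact hg (Subtype.ext (inv_mul_eq_one.1 h3))
  · intro h3
    exact absurd (Finset.mem_univ _) h3

/-- **The left Ore condition** -/
theorem exists_lore (hQ : S12.Fol Q) {K : Type} [Field K] [NoZeroDivisors (MonoidAlgebra K Q)]
    (r s : MonoidAlgebra K Q) (hs : s ≠ 0) : ∃ r' s' : MonoidAlgebra K Q, s' ≠ 0 ∧ s' * r = r' * s := by
  classical
  obtain ⟨F, G, hFG, hcard⟩ := hQ (r.coeff.support ∪ s.coeff.support)
  obtain ⟨v, hv0, hv⟩ := S12.exists_left (D := K) (m := F ⊕ F) (n := G)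
    (fun i γ => Sum.elim (fun f : F => r.coeff ((f : Q)⁻¹ * γ)) (fun f : F => -s.coeff ((f : Q)⁻¹ * γ)) i) (by
      rw [Fintype.card_sum, Fintype.card_coe, Fintype.card_coe]
      omega)
  have hz : ∀ (x : MonoidAlgebra K Q), x.coeff.support ⊆ r.coeff.support ∪ s.coeff.support → ∀ f : F, ∀ γ, γ ∉ G →
      x.coeff ((f : Q)⁻¹ * γ) = 0 := by
    intro x hx f γ hγ
    by_contra h0
    have h1 := hFG f f.2 _ (hx (Finsupp.mem_support_iff.2 h0))
    rw [mul_inv_cancel_left] at h1
    exact hγ h1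
  have heq : (∑ f : F, MonoidAlgebra.single (f : Q) (v (Sum.inl f))) * r =
      (∑ f : F, MonoidAlgebra.single (f : Q) (v (Sum.inr f))) * s := by
    apply MonoidAlgebra.coeff_injective
    ext γ
    rw [mul_coeff_sum F (fun f => v (Sum.inl f)), mul_coeff_sum F (fun f => v (Sum.inr f))]
    by_cases hγ : γ ∈ G
    · have h1 := hv ⟨γ, hγ⟩
      rw [Fintype.sum_sum_type] at h1
      simp only [Sum.elim_inl, Sum.elim_inr, mul_neg, Finset.sum_neg_distrib] at h1
      exact add_neg_eq_zero.1 h1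
    · rw [Finset.sum_eq_zero fun f _ => by rw [hz r Finset.subset_union_left f γ hγ, mul_zero],
        Finset.sum_eq_zero fun f _ => by rw [hz s Finset.subset_union_right f γ hγ, mul_zero]]
  refine ⟨_, _, fun h0 => hv0 ?_, heq⟩
  rw [h0, zero_mul] at heq
  have h1 := (mul_eq_zero.1 heq.symm).resolve_right hs
  funext i
  rcases i with i | i
  · exact comb_eq_zero F (fun f => v (Sum.inl f)) h0 i
  · exact comb_eq_zero F (fun f => v (Sum.inr f)) h1 i

theorem nonempty_oreSet (hQ : S12.Fol Q) (K : Type) [Field K] [NoZeroDivisors (MonoidAlgebra K Q)] :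
    Nonempty (OreLocalization.OreSet (MonoidAlgebra K Q)⁰) := by
  rw [OreLocalization.nonempty_oreSet_iff_of_noZeroDivisors]
  intro r s
  obtain ⟨r', s', h0, h⟩ := exists_lore hQ r s (nonZeroDivisors.coe_ne_zero s)
  exact ⟨r', ⟨s', mem_nonZeroDivisors_of_ne_zero h0⟩, h⟩

end

/-- the anti-involution as a homomorphism -/
noncomputable def stO {Q : Type} [Group Q] : MonoidAlgebra (ZMod 2) Q →+* (MonoidAlgebra (ZMod 2) Q)ᵐᵒᵖ where
  toFun x := MulOpposite.op (stA x)
  map_zero' := by rw [stA_zero, MulOpposite.op_zero]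
  map_one' := by rw [stA_one, MulOpposite.op_one]
  map_add' x y := by rw [stA_add, MulOpposite.op_add]
  map_mul' x y := by rw [stA_mul, MulOpposite.op_mul]

/-- **The division ring of fractions with the anti-involution** -/
theorem exists_frcA {Q : Type} [Group Q] [LO Q] (hQ : S12.Fol Q) :
    ∃ (F : Type) (_ : DivisionRing F) (v : MonoidAlgebra (ZMod 2) Q →+* F) (st : F →+ F),
      Function.Injective v ∧ (∀ d : F, ∃ s t, s ≠ 0 ∧ v s * d = v t) ∧ (∀ a b, st (a * b) = st b * st a) ∧
      (∀ a, st (st a) = a) ∧ ∀ x, st (v x) = v (stA x) := by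
  have := LO.noZeroDivisors (Q := Q) (ZMod 2)
  obtain ⟨hS⟩ := nonempty_oreSet hQ (ZMod 2)
  let _ : OreLocalization.OreSet (MonoidAlgebra (ZMod 2) Q)⁰ := hS
  let F := OreLocalization (MonoidAlgebra (ZMod 2) Q)⁰ (MonoidAlgebra (ZMod 2) Q)
  let v : MonoidAlgebra (ZMod 2) Q →+* F := OreLocalization.numeratorRingHom
  have hv : Function.Injective v := OreLocalization.numeratorHom_inj inf_le_left
  have hfrac : ∀ d : F, ∃ s t, s ≠ 0 ∧ v s * d = v t := by
    intro d
    induction d using OreLocalization.ind with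
    | _ r s => exact ⟨s.1, r, nonZeroDivisors.coe_ne_zero s, OreLocalization.mul_cancel⟩
  let φ : MonoidAlgebra (ZMod 2) Q →+* Fᵐᵒᵖ := v.op.comp stO
  have h0 : ∀ s : (MonoidAlgebra (ZMod 2) Q)⁰, φ s.1 ≠ 0 := by
    intro s h
    have h1 : v (stA s.1) = 0 := MulOpposite.op_injective h
    rw [← map_zero v] at h1
    exact stA_ne_zero (nonZeroDivisors.coe_ne_zero s) (hv h1)
  let fS : (MonoidAlgebra (ZMod 2) Q)⁰ →* (Fᵐᵒᵖ)ˣ :=
    { toFun := fun s => Units.mk0 (φ s.1) (h0 s)
      map_one' := Units.ext (map_one φ)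
      map_mul' := fun s t => Units.ext (map_mul φ s.1 t.1) }
  obtain ⟨σ, hσ⟩ : ∃ σ : F →+* Fᵐᵒᵖ, ∀ x, σ (v x) = MulOpposite.op (v (stA x)) :=
    ⟨OreLocalization.universalHom φ fS (fun s => rfl), fun x => OreLocalization.universalHom_commutes φ fS _⟩
  let st : F →+ F := (MulOpposite.opAddEquiv (α := F)).symm.toAddMonoidHom.comp σ.toAddMonoidHom
  have hst : ∀ a, st a = (σ a).unop := fun a => rfl
  have hstv : ∀ x, st (v x) = v (stA x) := by
    intro x
    rw [hst, hσ, MulOpposite.unop_op]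
  have hmul : ∀ a b, st (a * b) = st b * st a := by
    intro a b
    rw [hst, map_mul, MulOpposite.unop_mul]
    rfl
  refine ⟨F, inferInstance, v, st, hv, hfrac, hmul, fun a => ?_, hstv⟩
  obtain ⟨s, t, hs, h⟩ := hfrac a
  have hs' : v s ≠ 0 := fun h0 => hs (hv (by rw [h0, map_zero]))
  have h1 := congrArg st (congrArg st h)
  rw [hmul, hmul, hstv, hstv, hstv, hstv, stA_stA, stA_stA, ← h] at h1
  exact mul_left_cancel₀ hs' h1

end Pool.Agent.S14

end

section

/-!
# S14/Ld: the leading map of a finitely supported function on a left ordered group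
-/

namespace S14

variable {D Q : Type} [DivisionRing D] [Group Q]

/-- `μ` is the element of the support of `s` for which `μ * α` is smallest. -/
def IsLd (o : LOG Q) (s : Q →₀ D) (α μ : Q) : Prop :=
  s μ ≠ 0 ∧ ∀ ν, s ν ≠ 0 → ν ≠ μ → o.lt (μ * α) (ν * α)

theorem exists_min_fin (o : LOG Q) (F : Finset Q) (hF : F.Nonempty) (g : Q → Q)
    (hg : Function.Injective g) : ∃ μ ∈ F, ∀ ν ∈ F, ν ≠ μ → o.lt (g μ) (g ν) := by
  obtain ⟨a, ha, hm⟩ := LOG.WO.min (o := o) (s := g '' (F : Set Q))
    (LOG.WO.of_finite ((Finset.finite_toSet F).image g)) (by simpa using hF)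
  obtain ⟨μ, hμ, rfl⟩ := ha
  refine ⟨μ, hμ, fun ν hν hne => ?_⟩
  rcases o.tri (g μ) (g ν) with h | h | h
  · exact h
  · exact absurd (hg h).symm hne
  · exact absurd h (hm _ ⟨ν, hν, rfl⟩)

theorem exists_ld (o : LOG Q) {s : Q →₀ D} (hs : s ≠ 0) (α : Q) : ∃ μ, IsLd o s α μ := by
  obtain ⟨μ, hμ, hm⟩ := exists_min_fin o s.support (Finsupp.support_nonempty_iff.2 hs)
    (fun x => x * α) (mul_left_injective α)
  exact ⟨μ, Finsupp.mem_support_iff.1 hμ, fun ν hν hne =>
    hm ν (Finsupp.mem_support_iff.2 hν) hne⟩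

theorem IsLd.le {o : LOG Q} {s : Q →₀ D} {α μ ν : Q} (h : IsLd o s α μ) (hν : s ν ≠ 0) :
    ¬ o.lt (ν * α) (μ * α) := by
  by_cases hne : ν = μ
  · subst hne
    exact o.irrefl _
  · exact o.asymm (h.2 ν hν hne)

theorem IsLd.unique {o : LOG Q} {s : Q →₀ D} {α μ ν : Q} (h : IsLd o s α μ)
    (h' : IsLd o s α ν) : μ = ν := by
  by_contra hne
  exact o.asymm (h.2 ν h'.1 (Ne.symm hne)) (h'.2 μ h.1 hne)

/-- The leading position is strictly increasing. -/
theorem IsLd.lt {o : LOG Q} {s : Q →₀ D} {α β μ ν : Q} (h : IsLd o s α μ) (h' : IsLd o s β ν)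
    (hab : o.lt α β) : o.lt (μ * α) (ν * β) :=
  o.lt_of_not_of_lt (h.le h'.1) (o.mul_lt ν hab)

/-- Every element is a leading position. -/
theorem ld_onto (o : LOG Q) {s : Q →₀ D} (hs : s ≠ 0) (δ : Q) :
    ∃ α μ, IsLd o s α μ ∧ μ * α = δ := by
  obtain ⟨μ, hμ, hm⟩ := exists_min_fin o.rev s.support (Finsupp.support_nonempty_iff.2 hs)
    (fun x => x⁻¹ * δ) (fun a b hab => inv_injective (mul_left_injective δ hab))
  refine ⟨μ⁻¹ * δ, μ, ⟨Finsupp.mem_support_iff.1 hμ, fun ν hν hne => ?_⟩, by simp⟩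
  have h1 : o.lt (ν⁻¹ * δ) (μ⁻¹ * δ) := hm ν (Finsupp.mem_support_iff.2 hν) hne
  rw [o.inv_mul_lt] at h1
  simpa using h1

variable {V : Type} [AddCommGroup V] [Module D V]

/-- The lowest value of a twisted sum. -/
theorem sum_ld (o : LOG Q) {s : Q →₀ D} (φ : Q → V) {α μ : Q}
    (hφ : ∀ p, o.lt p α → φ p = 0) (h : IsLd o s α μ) :
    (s.sum fun ν d => d • φ (ν⁻¹ * (μ * α))) = s μ • φ α := by
  rw [Finsupp.sum, Finset.sum_eq_single μ]
  · simp
  · intro ν hν hne
    rw [hφ, smul_zero]
    rw [o.inv_mul_lt]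
    exact h.2 ν (Finsupp.mem_support_iff.1 hν) hne
  · intro hc
    exact absurd (Finsupp.mem_support_iff.2 h.1) hc

/-- Below the lowest position a twisted sum vanishes. -/
theorem sum_ld_zero (o : LOG Q) {s : Q →₀ D} (φ : Q → V) {α μ : Q}
    (hφ : ∀ p, o.lt p α → φ p = 0) (h : IsLd o s α μ) {δ : Q} (hδ : o.lt δ (μ * α)) :
    (s.sum fun ν d => d • φ (ν⁻¹ * δ)) = 0 := by
  rw [Finsupp.sum]
  refine Finset.sum_eq_zero fun ν hν => ?_
  rw [hφ, smul_zero]
  rw [o.inv_mul_lt]
  exact o.lt_of_lt_of_not hδ (h.le (Finsupp.mem_support_iff.1 hν))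

end S14

end

section

/-!
# Project S14: the group algebra of an amenable group is an Ore ring if it has no zero divisors
-/

set_option autoImplicit false
set_option linter.unusedSectionVars false

namespace Pool.Agent.S14

/-- **The left Ore condition** -/
theorem oreK {Q : Type} [Group Q] (hQ : Foel Q) (h0 : ∀ a b : MonoidAlgebra (ZMod 2) Q, a * b = 0 → a = 0 ∨ b = 0)
    (a b : MonoidAlgebra (ZMod 2) Q) (hb : b ≠ 0) :
    ∃ p r : MonoidAlgebra (ZMod 2) Q, p ≠ 0 ∧ p * a = r * b := by
  have : NoZeroDivisors (MonoidAlgebra (ZMod 2) Q) := ⟨fun {a b} h => h0 a b h⟩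
  obtain ⟨r, p, hp, h⟩ := exists_lore hQ.fol a b hb
  exact ⟨p, r, hp, h⟩

end Pool.Agent.S14

end

section

/-!
# Project S14: one level (abstract interface) and the pairing `P`

`Lvl ι st N`: the division ring `DN` of the subgroup `N`, the coefficients `co q b` of `b • 1` in the series module and the coefficients
`cop q b` of `b • 1` in the series module of the opposite order, the fine elements.
`P (a ⊗ x ⊗ b) = ∑ q, st (cop q (st a)) ⊗ x ⊗ co q b`.
-/

set_option autoImplicit false
set_option linter.unusedSectionVars false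

open TensorProduct

namespace Pool.Agent.S14

open Pool.Agent.S11.FL

section

variable {H D : Type} [Group H] [DivisionRing D] [Algebra (ZMod 2) D]

/-- the group elements -/
noncomputable def uh (ι : MonoidAlgebra (ZMod 2) H →+* D) : H →* D :=
  (ι : MonoidAlgebra (ZMod 2) H →* D).comp (MonoidAlgebra.of (ZMod 2) H)

theorem uh_apply (ι : MonoidAlgebra (ZMod 2) H →+* D) (h : H) : uh ι h = ι (MonoidAlgebra.single h 1) := rfl

/-- the anti-automorphism -/
structure Inv (ι : MonoidAlgebra (ZMod 2) H →+* D) where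
  /-- the map -/
  st : D →+ D
  mul : ∀ a b, st (a * b) = st b * st a
  inv : ∀ a, st (st a) = a
  uh : ∀ h, st (uh ι h) = Pool.Agent.S14.uh ι h⁻¹

/-- one level -/
structure Lvl (ι : MonoidAlgebra (ZMod 2) H →+* D) (σ : Inv ι) (N : Subgroup H) [N.Normal] where
  /-- the division ring of `N` -/
  DN : Subfield D
  st_mem : ∀ c ∈ DN, σ.st c ∈ DN
  conj_mem : ∀ c ∈ DN, ∀ h : H, uh ι h * c * uh ι h⁻¹ ∈ DN
  /-- the coefficients -/
  co : H ⧸ N → D →+ D
  /-- the coefficients for the opposite order -/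
  cop : H ⧸ N → D →+ D
  co_mul : ∀ q b, ∀ c ∈ DN, co q (b * c) = co q b * c
  cop_mul : ∀ q b, ∀ c ∈ DN, cop q (b * c) = cop q b * c
  co_uh : ∀ (h : H) q b, co ((h : H ⧸ N) * q) (uh ι h * b) = uh ι h * co q b
  cop_uh : ∀ (h : H) q b, cop ((h : H ⧸ N) * q) (uh ι h * b) = uh ι h * cop q b
  co_self : ∀ c ∈ DN, ∀ h : H, co (h : H ⧸ N) (c * uh ι h) = c * uh ι h
  cop_self : ∀ c ∈ DN, ∀ h : H, cop (h : H ⧸ N) (c * uh ι h) = c * uh ι h
  co_ne : ∀ c ∈ DN, ∀ (h : H) (q : H ⧸ N), q ≠ (h : H ⧸ N) → co q (c * uh ι h) = 0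
  cop_ne : ∀ c ∈ DN, ∀ (h : H) (q : H ⧸ N), q ≠ (h : H ⧸ N) → cop q (c * uh ι h) = 0
  fin : ∀ a b, {q | cop q a ≠ 0 ∧ co q b ≠ 0}.Finite
  /-- the fine elements -/
  Fine : Subring D
  uh_mem : ∀ h, uh ι h ∈ Fine
  fine_co : ∀ b ∈ Fine, ∀ q, ∃ a, co q b = ι a
  fine_cop : ∀ b ∈ Fine, ∀ q, ∃ a, cop q b = ι a

/-- the multiplication on the first factor -/
noncomputable def Lm {X : Type} [AddCommGroup X] [Module (ZMod 2) X] (s : D) :
    MM (ZMod 2) D X →ₗ[ZMod 2] MM (ZMod 2) D X :=
  (LinearMap.mulLeft (ZMod 2) s).rTensor (X ⊗[ZMod 2] D)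

/-- the multiplication on the last factor -/
noncomputable def Rm {X : Type} [AddCommGroup X] [Module (ZMod 2) X] (s : D) :
    MM (ZMod 2) D X →ₗ[ZMod 2] MM (ZMod 2) D X :=
  TensorProduct.map (LinearMap.id : D →ₗ[ZMod 2] D)
      (TensorProduct.map (LinearMap.id : X →ₗ[ZMod 2] X) (LinearMap.mulRight (ZMod 2) s))

variable {X : Type} [AddCommGroup X] [Module (ZMod 2) X]

theorem Lm_tmul (s a : D) (x : X) (b : D) :
    Lm s (a ⊗ₜ[ZMod 2] (x ⊗ₜ[ZMod 2] b)) = (s * a) ⊗ₜ[ZMod 2] (x ⊗ₜ[ZMod 2] b) := rfl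

theorem Rm_tmul (s a : D) (x : X) (b : D) :
    Rm s (a ⊗ₜ[ZMod 2] (x ⊗ₜ[ZMod 2] b)) = a ⊗ₜ[ZMod 2] (x ⊗ₜ[ZMod 2] (b * s)) := rfl

theorem Lm_II (j : H →* D) (ρ : Representation (ZMod 2) H X) (J : Subgroup H) (s : D) {m : MM (ZMod 2) D X}
    (hm : m ∈ II j ρ J) : Lm s m ∈ II j ρ J := mulLeft_II (j := j) ρ J s hm

theorem Rm_II (j : H →* D) (ρ : Representation (ZMod 2) H X) (J : Subgroup H) (s : D) {m : MM (ZMod 2) D X}
    (hm : m ∈ II j ρ J) : Rm s m ∈ II j ρ J := mulRight_II (j := j) ρ J s hm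

theorem Lm_Lm (s t : D) (m : MM (ZMod 2) D X) : Lm s (Lm t m) = Lm (s * t) m := by
  have : Lm s ∘ₗ Lm t = Lm (X := X) (s * t) := MM_ext fun a x b => by
    rw [LinearMap.comp_apply, Lm_tmul, Lm_tmul, Lm_tmul, mul_assoc]
  exact LinearMap.congr_fun this m

theorem Rm_Rm (s t : D) (m : MM (ZMod 2) D X) : Rm s (Rm t m) = Rm (t * s) m := by
  have : Rm s ∘ₗ Rm t = Rm (X := X) (t * s) := MM_ext fun a x b => by
    rw [LinearMap.comp_apply, Rm_tmul, Rm_tmul, Rm_tmul, mul_assoc]
  exact LinearMap.congr_fun this m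

theorem Lm_one (m : MM (ZMod 2) D X) : Lm 1 m = m := by
  have : Lm 1 = (LinearMap.id : MM (ZMod 2) D X →ₗ[ZMod 2] _) := MM_ext fun a x b => by
    rw [Lm_tmul, one_mul, LinearMap.id_apply]
  exact LinearMap.congr_fun this m

theorem Rm_one (m : MM (ZMod 2) D X) : Rm 1 m = m := by
  have : Rm 1 = (LinearMap.id : MM (ZMod 2) D X →ₗ[ZMod 2] _) := MM_ext fun a x b => by
    rw [Rm_tmul, mul_one, LinearMap.id_apply]
  exact LinearMap.congr_fun this m

theorem Lm_Rm (s t : D) (m : MM (ZMod 2) D X) : Lm s (Rm t m) = Rm t (Lm s m) := by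
  have : Lm s ∘ₗ Rm t = Rm t ∘ₗ Lm (X := X) s := MM_ext fun a x b => by
    rw [LinearMap.comp_apply, LinearMap.comp_apply, Lm_tmul, Rm_tmul, Rm_tmul, Lm_tmul]
  exact LinearMap.congr_fun this m

theorem Lm_add (s t : D) (m : MM (ZMod 2) D X) : Lm (s + t) m = Lm s m + Lm t m := by
  have : Lm (s + t) = Lm s + Lm (X := X) t := MM_ext fun a x b => by
    rw [LinearMap.add_apply, Lm_tmul, Lm_tmul, Lm_tmul, add_mul, TensorProduct.add_tmul]
  exact LinearMap.congr_fun this m

theorem Rm_add (s t : D) (m : MM (ZMod 2) D X) : Rm (s + t) m = Rm s m + Rm t m := by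
  have : Rm (s + t) = Rm s + Rm (X := X) t := MM_ext fun a x b => by
    rw [LinearMap.add_apply, Rm_tmul, Rm_tmul, Rm_tmul, mul_add, TensorProduct.tmul_add, TensorProduct.tmul_add]
  exact LinearMap.congr_fun this m

theorem Lm_act (j : H →* D) (ρ : Representation (ZMod 2) H X) (s : D) (g : H) (m : MM (ZMod 2) D X) :
    Lm s (act j ρ g m) = act j ρ g (Lm s m) := by
  have : Lm s ∘ₗ act j ρ g = act j ρ g ∘ₗ Lm s := MM_ext fun a x b => by
    rw [LinearMap.comp_apply, LinearMap.comp_apply, act_tmul, Lm_tmul, Lm_tmul, act_tmul, mul_assoc]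
  exact LinearMap.congr_fun this m

theorem Rm_act (j : H →* D) (ρ : Representation (ZMod 2) H X) (s : D) (g : H) (m : MM (ZMod 2) D X) :
    Rm s (act j ρ g m) = act j ρ g (Rm s m) := by
  have : Rm s ∘ₗ act j ρ g = act j ρ g ∘ₗ Rm s := MM_ext fun a x b => by
    rw [LinearMap.comp_apply, LinearMap.comp_apply, act_tmul, Rm_tmul, Rm_tmul, act_tmul, mul_assoc]
  exact LinearMap.congr_fun this m

theorem Lm_mapX {X' : Type} [AddCommGroup X'] [Module (ZMod 2) X'] (i : X →ₗ[ZMod 2] X') (s : D)
    (m : MM (ZMod 2) D X) : Lm s (mapX D i m) = mapX D i (Lm s m) := by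
  have : Lm s ∘ₗ mapX D i = mapX D i ∘ₗ Lm s := MM_ext fun a x b => by
    rw [LinearMap.comp_apply, LinearMap.comp_apply, mapX_tmul, Lm_tmul, Lm_tmul, mapX_tmul]
  exact LinearMap.congr_fun this m

theorem Rm_mapX {X' : Type} [AddCommGroup X'] [Module (ZMod 2) X'] (i : X →ₗ[ZMod 2] X') (s : D)
    (m : MM (ZMod 2) D X) : Rm s (mapX D i m) = mapX D i (Rm s m) := by
  have : Rm s ∘ₗ mapX D i = mapX D i ∘ₗ Rm s := MM_ext fun a x b => by
    rw [LinearMap.comp_apply, LinearMap.comp_apply, mapX_tmul, Rm_tmul, Rm_tmul, mapX_tmul]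
  exact LinearMap.congr_fun this m

namespace Lvl

variable {ι : MonoidAlgebra (ZMod 2) H →+* D} {σ : Inv ι} {N : Subgroup H} [N.Normal] (L : Lvl ι σ N)

/-- the part of the pairing at `q` -/
noncomputable def Pq (q : H ⧸ N) : MM (ZMod 2) D X →ₗ[ZMod 2] MM (ZMod 2) D X :=
  TensorProduct.map (((σ.st.comp (L.cop q)).comp σ.st).toZModLinearMap 2)
    (TensorProduct.map (LinearMap.id : X →ₗ[ZMod 2] X) ((L.co q).toZModLinearMap 2))

theorem Pq_tmul (q : H ⧸ N) (a : D) (x : X) (b : D) : L.Pq q (a ⊗ₜ[ZMod 2] (x ⊗ₜ[ZMod 2] b)) =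
    σ.st (L.cop q (σ.st a)) ⊗ₜ[ZMod 2] (x ⊗ₜ[ZMod 2] L.co q b) := rfl

theorem Pq_fin (m : MM (ZMod 2) D X) : (Function.support fun q => L.Pq q m).Finite := by
  refine TensorProduct.induction_on m ?_ (fun a t => ?_) fun m m' h h' => ?_
  · refine Set.finite_empty.subset fun q hq => ?_
    exact hq (map_zero (L.Pq q))
  · refine TensorProduct.induction_on t ?_ (fun x b => ?_) fun t t' h h' => ?_
    · refine Set.finite_empty.subset fun q hq => hq ?_
      change L.Pq q (a ⊗ₜ[ZMod 2] (0 : X ⊗[ZMod 2] D)) = 0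
      rw [TensorProduct.tmul_zero, map_zero]
    · refine (L.fin (σ.st a) b).subset fun q hq => ?_
      constructor
      · intro h0
        apply hq
        change L.Pq q (a ⊗ₜ[ZMod 2] (x ⊗ₜ[ZMod 2] b)) = 0
        rw [Pq_tmul, h0, map_zero, TensorProduct.zero_tmul]
      · intro h0
        apply hq
        change L.Pq q (a ⊗ₜ[ZMod 2] (x ⊗ₜ[ZMod 2] b)) = 0
        rw [Pq_tmul, h0, TensorProduct.tmul_zero, TensorProduct.tmul_zero]
    · refine (h.union h').subset fun q hq => ?_
      by_contra hcon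
      rw [Set.mem_union, not_or] at hcon
      apply hq
      change L.Pq q (a ⊗ₜ[ZMod 2] (t + t')) = 0
      rw [TensorProduct.tmul_add, map_add, Function.notMem_support.1 hcon.1, Function.notMem_support.1 hcon.2, add_zero]
  · refine (h.union h').subset fun q hq => ?_
    by_contra hcon
    rw [Set.mem_union, not_or] at hcon
    apply hq
    change L.Pq q (m + m') = 0
    rw [map_add, Function.notMem_support.1 hcon.1, Function.notMem_support.1 hcon.2, add_zero]

variable (X) in
/-- **The pairing** -/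
noncomputable def P : MM (ZMod 2) D X →ₗ[ZMod 2] MM (ZMod 2) D X :=
  (AddMonoidHom.mk' (fun m => ∑ᶠ q, L.Pq q m) fun m m' => by
    rw [← finsum_add_distrib (L.Pq_fin m) (L.Pq_fin m')]
    exact finsum_congr fun q => map_add _ _ _).toZModLinearMap 2

theorem P_apply (m : MM (ZMod 2) D X) : L.P X m = ∑ᶠ q, L.Pq q m := rfl

/-- a linear map which commutes with all parts -/
theorem P_comm {X' : Type} [AddCommGroup X'] [Module (ZMod 2) X'] (T : MM (ZMod 2) D X →ₗ[ZMod 2] MM (ZMod 2) D X')
    (h : ∀ q m, L.Pq q (T m) = T (L.Pq q m)) (m : MM (ZMod 2) D X) : L.P X' (T m) = T (L.P X m) := by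
  rw [P_apply, P_apply]
  rw [show T (∑ᶠ q, L.Pq q m) = ∑ᶠ q, T (L.Pq q m) from T.toAddMonoidHom.map_finsum (L.Pq_fin m)]
  exact finsum_congr fun q => h q m

theorem P_mapX {X' : Type} [AddCommGroup X'] [Module (ZMod 2) X'] (i : X →ₗ[ZMod 2] X') (m : MM (ZMod 2) D X) :
    L.P X' (mapX D i m) = mapX D i (L.P X m) := by
  refine L.P_comm (mapX D i) (fun q m => ?_) m
  have : L.Pq q ∘ₗ mapX D i = mapX D i ∘ₗ L.Pq q := MM_ext fun a x b => by
    rw [LinearMap.comp_apply, LinearMap.comp_apply, mapX_tmul, Pq_tmul, Pq_tmul, mapX_tmul]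
  exact LinearMap.congr_fun this m

theorem P_Lm {c : D} (hc : c ∈ L.DN) (m : MM (ZMod 2) D X) : L.P X (Lm c m) = Lm c (L.P X m) := by
  refine L.P_comm (Lm c) (fun q m => ?_) m
  have : L.Pq q ∘ₗ Lm (X := X) c = Lm c ∘ₗ L.Pq q := MM_ext fun a x b => by
    rw [LinearMap.comp_apply, LinearMap.comp_apply, Lm_tmul, Pq_tmul, Pq_tmul, Lm_tmul, σ.mul,
      L.cop_mul _ _ _ (L.st_mem c hc), σ.mul, σ.inv]
  exact LinearMap.congr_fun this m

theorem P_Rm {c : D} (hc : c ∈ L.DN) (m : MM (ZMod 2) D X) : L.P X (Rm c m) = Rm c (L.P X m) := by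
  refine L.P_comm (Rm c) (fun q m => ?_) m
  have : L.Pq q ∘ₗ Rm (X := X) c = Rm c ∘ₗ L.Pq q := MM_ext fun a x b => by
    rw [LinearMap.comp_apply, LinearMap.comp_apply, Rm_tmul, Pq_tmul, Pq_tmul, Rm_tmul, L.co_mul _ _ _ hc]
  exact LinearMap.congr_fun this m

theorem Pq_act (ρ : Representation (ZMod 2) H X) (g : H) (q : H ⧸ N) (m : MM (ZMod 2) D X) :
    L.Pq ((g : H ⧸ N) * q) (act (uh ι) ρ g m) = act (uh ι) ρ g (L.Pq q m) := by
  have : L.Pq ((g : H ⧸ N) * q) ∘ₗ act (uh ι) ρ g = act (uh ι) ρ g ∘ₗ L.Pq q := MM_ext fun a x b => by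
    rw [LinearMap.comp_apply, LinearMap.comp_apply, act_tmul, Pq_tmul, Pq_tmul, act_tmul, L.co_uh, σ.mul, σ.uh,
      inv_inv, L.cop_uh, σ.mul, σ.uh]
  exact LinearMap.congr_fun this m

theorem P_act (ρ : Representation (ZMod 2) H X) (g : H) (m : MM (ZMod 2) D X) :
    L.P X (act (uh ι) ρ g m) = act (uh ι) ρ g (L.P X m) := by
  rw [P_apply, P_apply]
  rw [show act (uh ι) ρ g (∑ᶠ q, L.Pq q m) = ∑ᶠ q, act (uh ι) ρ g (L.Pq q m) from
    (act (uh ι) ρ g).toAddMonoidHom.map_finsum (L.Pq_fin m)]
  symm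
  refine finsum_eq_of_bijective (fun q : H ⧸ N => (g : H ⧸ N) * q) (Group.mulLeft_bijective _) fun q => ?_
  rw [L.Pq_act]

end Lvl

end

end Pool.Agent.S14

end

section

/-!
# S14/Ser: the homogeneous finite sums act on series
-/

namespace S14

open MonoidAlgebra

variable {D Q : Type} [DivisionRing D] [Group Q]

/-- The finite homogeneous sums, a subring of the monoid algebra. -/
noncomputable def Gr.A (G : Gr D Q) : Subring (MonoidAlgebra D Q) where
  carrier := {x | ∀ q, x.coeff q ∈ G.S q}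
  mul_mem' := by
    classical
    intro x y hx hy q
    rw [MonoidAlgebra.coeff_mul]
    refine AddSubgroup.sum_mem _ fun μ _ => AddSubgroup.sum_mem _ fun ν _ => ?_
    dsimp only
    split_ifs with h
    · rw [← h]
      exact G.mul (hx μ) (hy ν)
    · exact (G.S q).zero_mem
  one_mem' := by
    classical
    intro q
    rw [MonoidAlgebra.one_def, MonoidAlgebra.coeff_single, Finsupp.single_apply]
    split_ifs with h
    · rw [← h]
      exact G.one
    · exact (G.S q).zero_mem
  add_mem' := by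
    intro x y hx hy q
    rw [MonoidAlgebra.coeff_add, Finsupp.add_apply]
    exact (G.S q).add_mem (hx q) (hy q)
  zero_mem' := by
    intro q
    exact (G.S q).zero_mem
  neg_mem' := by
    intro x hx q
    rw [MonoidAlgebra.coeff_neg, Finsupp.neg_apply]
    exact (G.S q).neg_mem (hx q)

/-- Sum of the coefficients, a ring homomorphism. -/
noncomputable def evR : MonoidAlgebra D Q →+* D :=
  MonoidAlgebra.liftNCRingHom (RingHom.id D) 1 fun _ _ => Commute.one_right _

theorem evR_apply (x : MonoidAlgebra D Q) : evR x = ev x.coeff := by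
  conv_lhs => rw [← MonoidAlgebra.sum_coeff_single x]
  rw [map_finsuppSum, ev]
  refine Finset.sum_congr rfl fun μ _ => ?_
  dsimp only
  rw [evR, MonoidAlgebra.liftNCRingHom_single]
  simp

theorem evR_inj (G : Gr D Q) {x : MonoidAlgebra D Q} (hx : x ∈ G.A) (h : evR x = 0) : x = 0 := by
  rw [evR_apply] at h
  have h1 := G.direct x.coeff hx h
  rw [← MonoidAlgebra.ofCoeff_coeff x, h1]
  rfl

/-- Translation of functions. -/
def trn : Q →* AddMonoid.End (Q → D) where
  toFun := fun μ =>
    { toFun := fun f δ => f (μ⁻¹ * δ)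
      map_zero' := rfl
      map_add' := fun _ _ => rfl }
  map_one' := by
    refine AddMonoidHom.ext fun f => funext fun δ => ?_
    change f (1⁻¹ * δ) = f δ
    simp
  map_mul' := by
    intro μ ν
    refine AddMonoidHom.ext fun f => funext fun δ => ?_
    change f ((μ * ν)⁻¹ * δ) = f (ν⁻¹ * (μ⁻¹ * δ))
    rw [mul_inv_rev, mul_assoc]

/-- The monoid algebra acts on functions. -/
noncomputable def rho0 : MonoidAlgebra D Q →+* AddMonoid.End (Q → D) :=
  MonoidAlgebra.liftNCRingHom (Module.toAddMonoidEnd D (Q → D)) trn (fun _ _ => rfl)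

theorem rho0_apply (x : MonoidAlgebra D Q) (f : Q → D) (δ : Q) :
    rho0 x f δ = x.coeff.sum fun μ d => d * f (μ⁻¹ * δ) := by
  have h : ∀ (μ : Q) (d : D), rho0 (MonoidAlgebra.single μ d) f δ = d * f (μ⁻¹ * δ) := by
    intro μ d
    rw [rho0, MonoidAlgebra.liftNCRingHom_single]
    rfl
  let ψ : AddMonoid.End (Q → D) →+ D :=
    { toFun := fun φ => φ f δ
      map_zero' := rfl
      map_add' := fun _ _ => rfl }
  have h1 : rho0 x f δ = ψ (rho0 x) := rfl
  rw [h1]
  conv_lhs => rw [← MonoidAlgebra.sum_coeff_single x]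
  rw [map_finsuppSum, map_finsuppSum]
  refine Finset.sum_congr rfl fun μ _ => ?_
  exact h μ _

variable (G : Gr D Q) (o : LOG Q)

theorem rho0_mem {x : MonoidAlgebra D Q} (hx : x ∈ G.A) {f : Q → D} (hf : f ∈ ser G o) :
    rho0 x f ∈ ser G o := by
  constructor
  · intro δ
    rw [rho0_apply]
    refine AddSubgroup.sum_mem _ fun μ _ => ?_
    have h := G.mul (hx μ) (hf.1 (μ⁻¹ * δ))
    simpa using h
  · refine (LOG.WO.biUnion x.coeff.support (fun μ => (fun y => μ * y) '' {q | f q ≠ 0})
      fun μ _ => LOG.WO.lmul hf.2 μ).mono fun δ hδ => ?_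
    by_contra hc
    refine hδ ?_
    rw [rho0_apply]
    refine Finset.sum_eq_zero fun μ hμ => ?_
    by_contra h0
    refine hc (Set.mem_biUnion hμ ⟨μ⁻¹ * δ, ?_, by simp⟩)
    intro h1
    exact h0 (by
      dsimp only
      rw [h1, mul_zero])

/-- The homogeneous finite sums act on the series. -/
noncomputable def Gr.rho : G.A →+* AddMonoid.End (Ser G o) where
  toFun x :=
    { toFun := fun f => ⟨rho0 x.1 f.1, rho0_mem G o x.2 f.2⟩
      map_zero' := Subtype.ext (map_zero (rho0 x.1))
      map_add' := fun f g => Subtype.ext (map_add (rho0 x.1) f.1 g.1) }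
  map_one' := AddMonoidHom.ext fun f => Subtype.ext (by
    change rho0 1 f.1 = f.1
    rw [map_one]
    rfl)
  map_mul' := fun x y => AddMonoidHom.ext fun f => Subtype.ext (by
    change rho0 (x.1 * y.1) f.1 = rho0 x.1 (rho0 y.1 f.1)
    rw [map_mul]
    rfl)
  map_zero' := AddMonoidHom.ext fun f => Subtype.ext (by
    change rho0 0 f.1 = 0
    rw [map_zero]
    rfl)
  map_add' := fun x y => AddMonoidHom.ext fun f => Subtype.ext (by
    change rho0 (x.1 + y.1) f.1 = rho0 x.1 f.1 + rho0 y.1 f.1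
    rw [map_add]
    rfl)

theorem rho_co (x : G.A) (f : Ser G o) (δ : Q) :
    (G.rho o x f).co δ = x.1.coeff.sum fun μ d => d * f.co (μ⁻¹ * δ) :=
  rho0_apply x.1 f.1 δ

end S14

end

section

/-!
# S14/Ser1: nonzero homogeneous sums act injectively on series
-/

namespace S14

variable {D Q : Type} [DivisionRing D] [Group Q] (G : Gr D Q) (o : LOG Q)

theorem rho_inj (x : G.A) (hx : x ≠ 0) (f : Ser G o) (h : G.rho o x f = 0) : f = 0 := by
  by_contra hf
  obtain ⟨α, hα, hmin⟩ := f.exists_min hf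
  have hx0 : x.1.coeff ≠ 0 := by
    intro hc
    refine hx (Subtype.ext ?_)
    rw [← MonoidAlgebra.ofCoeff_coeff x.1, hc]
    rfl
  obtain ⟨μ, hμ⟩ := exists_ld o hx0 α
  have h1 := sum_ld o (V := D) f.co hmin hμ
  have h2 := rho_co G o x f (μ * α)
  simp only [smul_eq_mul] at h1
  rw [h1, h] at h2
  have h3 : x.1.coeff μ * f.co α = 0 := by
    rw [← h2]
    rfl
  rcases mul_eq_zero.1 h3 with h4 | h4
  · exact hμ.1 h4
  · exact hα h4

end S14

end

section

/-!
# S14/Ser2: nonzero homogeneous sums act surjectively on series (Zorn)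

Partial solutions of `ρ x f = h`, ordered by inclusion of their graphs; comparable partial solutions are end-extensions of each other.
-/

namespace S14

variable {D Q : Type} [DivisionRing D] [Group Q] (G : Gr D Q) (o : LOG Q)

/-- `f` solves `ρ x f = h` up to the leading position of every element of its support. -/
def Ser2Sol (x : G.A) (h f : Ser G o) : Prop :=
  ∀ α μ, f.co α ≠ 0 → IsLd o x.1.coeff α μ → ∀ δ, ¬ o.lt (μ * α) δ → (G.rho o x f).co δ = h.co δ

variable {G o}

theorem ser2_coeff_ne {x : G.A} (hx : x ≠ 0) : x.1.coeff ≠ 0 := by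
  intro h0
  refine hx (Subtype.ext ?_)
  rw [← MonoidAlgebra.ofCoeff_coeff x.1, h0]
  rfl

/-- the lowest value -/
theorem ser2_ld {x : G.A} {f : Ser G o} {α μ : Q} (hf : ∀ p, o.lt p α → f.co p = 0) (h : IsLd o x.1.coeff α μ) :
    (G.rho o x f).co (μ * α) = x.1.coeff μ * f.co α := by
  rw [rho_co]
  have h1 := sum_ld (V := D) o f.co hf h
  rw [smul_eq_mul] at h1
  exact h1

/-- below the lowest value -/
theorem ser2_ld_zero {x : G.A} {f : Ser G o} {α μ : Q} (hf : ∀ p, o.lt p α → f.co p = 0) (h : IsLd o x.1.coeff α μ) {δ : Q}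
    (hδ : o.lt δ (μ * α)) : (G.rho o x f).co δ = 0 := by
  rw [rho_co]
  exact sum_ld_zero (V := D) o f.co hf h hδ

/-- comparable partial solutions: the larger one is an end-extension of the smaller one -/
theorem ser2_end {x : G.A} (hx : x ≠ 0) {h f g : Ser G o} (hf : Ser2Sol G o x h f) (hg : Ser2Sol G o x h g)
    (hfg : ∀ q, f.co q ≠ 0 → g.co q = f.co q) {q : Q} (hq : g.co q ≠ 0) (hq' : f.co q = 0) {p : Q} (hp : f.co p ≠ 0) : o.lt p q := by
  rcases o.tri p q with h1 | h1 | h1
  · exact h1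
  · exact absurd (h1 ▸ hq') hp
  · exfalso
    have hd : g - f ≠ 0 := by
      intro h0
      have h2 : (g - f).co q = 0 := by rw [h0]; rfl
      rw [Ser.co_sub, hq', sub_zero] at h2
      exact hq h2
    obtain ⟨q₀, h2, h3⟩ := Ser.exists_min _ hd
    have h4 : ¬ o.lt q q₀ := fun h5 => by
      have h6 := h3 q h5
      rw [Ser.co_sub, hq', sub_zero] at h6
      exact hq h6
    have h5 : o.lt q₀ p := o.lt_of_not_of_lt h4 h1
    obtain ⟨μ, hμ⟩ := exists_ld o (ser2_coeff_ne hx) q₀
    obtain ⟨ν, hν⟩ := exists_ld o (ser2_coeff_ne hx) p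
    have h6 : o.lt (μ * q₀) (ν * p) := hμ.lt hν h5
    have h7 := hf p ν hp hν (μ * q₀) (o.asymm h6)
    have h8 := hg p ν (by rw [hfg p hp]; exact hp) hν (μ * q₀) (o.asymm h6)
    have h9 := ser2_ld h3 hμ
    rw [map_sub, Ser.co_sub, h7, h8, sub_self] at h9
    exact mul_ne_zero hμ.1 h2 h9.symm

variable (G o)

theorem rho_surj (x : G.A) (hx : x ≠ 0) (h : Ser G o) : ∃ f : Ser G o, G.rho o x f = h := by
  classical
  obtain ⟨⟨f, hf⟩, hmax⟩ := exists_maximal_of_chains_bounded
    (α := {f : Ser G o // Ser2Sol G o x h f}) (r := fun f g => ∀ q, f.1.co q ≠ 0 → g.1.co q = f.1.co q) (by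
      intro c hc
      -- comparability
      have hcmp : ∀ f ∈ c, ∀ g ∈ c, ∀ q, f.1.co q ≠ 0 → g.1.co q ≠ 0 → f.1.co q = g.1.co q := by
        intro f hf g hg q h1 h2
        by_cases he : f = g
        · rw [he]
        · rcases hc hf hg he with h3 | h3
          · exact (h3 q h1).symm
          · exact h3 q h2
      have hend : ∀ f ∈ c, ∀ g ∈ c, ∀ q, g.1.co q ≠ 0 → f.1.co q = 0 → ∀ p, f.1.co p ≠ 0 → o.lt p q := by
        intro f hf g hg q h1 h2 p h3
        by_cases he : f = g
        · rw [he] at h2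
          exact absurd h2 h1
        · rcases hc hf hg he with h4 | h4
          · exact ser2_end hx f.2 g.2 h4 h1 h2 h3
          · exact absurd ((h4 q h1).symm.trans h2) h1
      obtain ⟨F, hF⟩ : ∃ F : Q → D, F = fun q => if hq : ∃ f ∈ c, f.1.co q ≠ 0 then hq.choose.1.co q else 0 := ⟨_, rfl⟩
      have hF1 : ∀ f ∈ c, ∀ q, f.1.co q ≠ 0 → F q = f.1.co q := by
        intro f hf q h1
        have hq : ∃ f ∈ c, f.1.co q ≠ 0 := ⟨f, hf, h1⟩
        rw [hF]
        simp only
        rw [dif_pos hq]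
        exact hcmp _ hq.choose_spec.1 f hf q hq.choose_spec.2 h1
      have hF2 : ∀ q, F q ≠ 0 → ∃ f ∈ c, f.1.co q ≠ 0 := by
        intro q h1
        by_contra hq
        rw [hF] at h1
        simp only at h1
        rw [dif_neg hq] at h1
        exact h1 rfl
      have hFS : ∀ q, F q ∈ G.S q := by
        intro q
        by_cases h1 : F q = 0
        · rw [h1]
          exact (G.S q).zero_mem
        · obtain ⟨f, hf, h2⟩ := hF2 q h1
          rw [hF1 f hf q h2]
          exact f.1.mem q
      have hFW : o.WO {q | F q ≠ 0} := by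
        refine LOG.wo_of_min fun t ht htn => ?_
        obtain ⟨x₀, hx₀⟩ := htn
        obtain ⟨f, hf, h1⟩ := hF2 x₀ (ht hx₀)
        obtain ⟨a, ha, hmin⟩ := LOG.WO.min (LOG.WO.mono (s := t ∩ {q | f.1.co q ≠ 0}) f.1.wo Set.inter_subset_right) ⟨x₀, hx₀, h1⟩
        refine ⟨a, ha.1, fun b hb hlt => ?_⟩
        by_cases h2 : f.1.co b = 0
        · obtain ⟨g, hg, h3⟩ := hF2 b (ht hb)
          exact o.asymm hlt (hend f hf g hg b h3 h2 a ha.2)
        · exact hmin b ⟨hb, h2⟩ hlt
      refine ⟨⟨Ser.mk F hFS hFW, ?_⟩, fun f hf q h1 => hF1 f hf q h1⟩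
      intro α μ hα hμ δ hδ
      obtain ⟨f, hf, h1⟩ := hF2 α hα
      have h2 := f.2 α μ h1 hμ δ hδ
      rw [← h2, rho_co, rho_co, Ser.co_mk, Finsupp.sum, Finsupp.sum]
      refine Finset.sum_congr rfl fun ν hν => ?_
      congr 1
      by_cases h3 : f.1.co (ν⁻¹ * δ) = 0
      · rw [h3]
        by_contra h4
        obtain ⟨g, hg, h5⟩ := hF2 _ h4
        have h6 := hend f hf g hg _ h5 h3 α h1
        rw [o.lt_inv_mul] at h6
        exact hδ (o.lt_of_not_of_lt (hμ.le (Finsupp.mem_support_iff.1 hν)) h6)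
      · exact hF1 f hf _ h3)
    (fun {a b d} hab hbd q h1 => by
      have h2 := hab q h1
      rw [hbd q (by rw [h2]; exact h1), h2])
  refine ⟨f, ?_⟩
  by_contra hne
  have he : h - G.rho o x f ≠ 0 := fun h0 => hne (sub_eq_zero.1 h0).symm
  obtain ⟨δ, hδ, hmin⟩ := Ser.exists_min _ he
  obtain ⟨α, μ, hμ, hμα⟩ := ld_onto o (ser2_coeff_ne hx) δ
  -- the new degree is above the support
  have habove : ∀ β, f.co β ≠ 0 → o.lt β α := by
    intro β hβ
    obtain ⟨ν, hν⟩ := exists_ld o (ser2_coeff_ne hx) β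
    have h1 : o.lt (ν * β) (μ * α) := by
      by_contra h2
      rw [hμα] at h2
      have h3 := hf β ν hβ hν δ h2
      rw [Ser.co_sub, h3, sub_self] at hδ
      exact hδ rfl
    rcases o.tri β α with h2 | h2 | h2
    · exact h2
    · subst h2
      rw [hν.unique hμ] at h1
      exact absurd h1 (o.irrefl _)
    · exact absurd h1 (o.asymm (hμ.lt hν h2))
  have hα0 : f.co α = 0 := by
    by_contra h1
    exact o.irrefl _ (habove α h1)
  have hc : (x.1.coeff μ)⁻¹ * (h - G.rho o x f).co δ ∈ G.S α := by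
    have h1 := G.mul (G.inv (x.2 μ)) ((h - G.rho o x f).mem δ)
    rw [← hμα, inv_mul_cancel_left] at h1
    rw [← hμα]
    exact h1
  obtain ⟨s, hs⟩ : ∃ s : Ser G o, s = Ser.sgl G o α _ hc := ⟨_, rfl⟩
  have hs0 : s.co α = (x.1.coeff μ)⁻¹ * (h - G.rho o x f).co δ := by
    rw [hs, Ser.co_sgl]
  have hsne : ∀ p, p ≠ α → s.co p = 0 := fun p hp => by
    rw [hs, Ser.co_sgl_ne _ _ _ hp]
  have hslt : ∀ p, o.lt p α → s.co p = 0 := fun p hp => hsne p fun h1 => o.irrefl α (h1 ▸ hp)
  have hxs : (G.rho o x s).co δ = (h - G.rho o x f).co δ := by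
    have h1 := ser2_ld hslt hμ
    rw [hμα, hs0, mul_inv_cancel_left₀ hμ.1] at h1
    exact h1
  have hsol : ∀ δ', ¬ o.lt δ δ' → (G.rho o x (f + s)).co δ' = h.co δ' := by
    intro δ' h1
    rw [map_add, Ser.co_add]
    rcases o.tri δ' δ with h2 | h2 | h2
    · have h3 := hmin δ' h2
      rw [Ser.co_sub, sub_eq_zero] at h3
      rw [ser2_ld_zero hslt hμ (by rw [hμα]; exact h2), add_zero, h3]
    · rw [h2, hxs, Ser.co_sub, add_sub_cancel]
    · exact absurd h2 h1
  have hf' : Ser2Sol G o x h (f + s) := by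
    intro β ν hβ hν δ' h1
    refine hsol δ' fun h2 => h1 ?_
    by_cases h3 : β = α
    · rw [h3] at hν ⊢
      rw [hν.unique hμ, hμα]
      exact h2
    · have h4 : f.co β ≠ 0 := by
        rw [Ser.co_add, hsne β h3, add_zero] at hβ
        exact hβ
      have h5 := hν.lt hμ (habove β h4)
      rw [hμα] at h5
      exact o.trans h5 h2
  have h1 := hmax ⟨f + s, hf'⟩ fun q hq => by
    show (f + s).co q = f.co q
    rw [Ser.co_add, hsne q fun h2 => hq (h2 ▸ hα0), add_zero]
  have h2 : (f + s).co α ≠ 0 := by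
    rw [Ser.co_add, hα0, zero_add, hs0]
    exact mul_ne_zero (inv_ne_zero hμ.1) hδ
  exact h2 ((h1 α h2).symm.trans hα0)

theorem rho_unit (x : G.A) (hx : x ≠ 0) : IsUnit (G.rho o x) := by
  have hbij : Function.Bijective (G.rho o x) := by
    refine ⟨(injective_iff_map_eq_zero (G.rho o x)).2 fun f hf => rho_inj G o x hx f hf,
      fun h => rho_surj G o x hx h⟩
  let e : Ser G o ≃+ Ser G o := AddEquiv.ofBijective (G.rho o x) hbij
  refine ⟨⟨G.rho o x, (e.symm : Ser G o →+ Ser G o), ?_, ?_⟩, rfl⟩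
  · refine AddMonoidHom.ext fun f => ?_
    exact e.apply_symm_apply f
  · refine AddMonoidHom.ext fun f => ?_
    exact e.symm_apply_apply f

end S14

end

section

/-!
# S14/SerD: the series form a left module over the division ring
-/

namespace S14

variable {D Q : Type} [DivisionRing D] [Group Q] (G : Gr D Q) (o : LOG Q)

theorem exists_act : ∃ Ψ : D →+* AddMonoid.End (Ser G o),
    ∀ x : G.A, Ψ (evR x.1) = G.rho o x := by
  refine exists_ext (evR.comp G.A.subtype) (fun a ha => Subtype.ext (evR_inj G a.2 ha)) ?_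
    (G.rho o) (rho_unit G o)
  intro d
  obtain ⟨s, t, hs, ht, h0, h1⟩ := G.frac d
  refine ⟨⟨MonoidAlgebra.ofCoeff s, hs⟩, ⟨MonoidAlgebra.ofCoeff t, ht⟩, ?_, ?_⟩
  · rwa [RingHom.comp_apply, Subring.subtype_apply, evR_apply]
  · simpa only [RingHom.comp_apply, Subring.subtype_apply, evR_apply] using h1

/-- The action of `D` on series. -/
noncomputable def serAct : D →+* AddMonoid.End (Ser G o) := (exists_act G o).choose

theorem serAct_ev (x : G.A) : serAct G o (evR x.1) = G.rho o x := (exists_act G o).choose_spec x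

noncomputable instance : Module D (Ser G o) := Module.compHom (Ser G o) (serAct G o)

theorem smul_def' (b : D) (f : Ser G o) : b • f = serAct G o b f := rfl

variable {G o}

/-- The action of a finite homogeneous sum. -/
theorem ev_smul (s : Q →₀ D) (hs : ∀ q, s q ∈ G.S q) (f : Ser G o) (δ : Q) :
    (ev s • f).co δ = s.sum fun μ d => d * f.co (μ⁻¹ * δ) := by
  have h := rho_co G o ⟨MonoidAlgebra.ofCoeff s, hs⟩ f δ
  rw [← serAct_ev] at h
  rw [smul_def']
  rw [evR_apply] at h
  exact h

/-- A homogeneous element translates the degrees. -/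
theorem hom_smul {x : D} {μ : Q} (hx : x ∈ G.S μ) (f : Ser G o) (δ : Q) :
    (x • f).co δ = x * f.co (μ⁻¹ * δ) := by
  classical
  have hs : ∀ q, (Finsupp.single μ x) q ∈ G.S q := by
    intro q
    rw [Finsupp.single_apply]
    split_ifs with h
    · rw [← h]
      exact hx
    · exact (G.S q).zero_mem
  have h1 : ev (Finsupp.single μ x) = x := by
    rw [ev, Finsupp.sum_single_index rfl]
  have h2 := ev_smul (Finsupp.single μ x) hs f δ
  rwa [h1, Finsupp.sum_single_index (by rw [zero_mul])] at h2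

theorem smul_cancel {b : D} (hb : b ≠ 0) {f g : Ser G o} (h : b • f = b • g) : f = g := by
  have h1 := congrArg (fun x => b⁻¹ • x) h
  simpa only [smul_smul, inv_mul_cancel₀ hb, one_smul] using h1

/-- The action commutes with the right multiplication with elements of degree one. -/
theorem smul_rm (b : D) (c : D) (hc : c ∈ G.S 1) (f : Ser G o) :
    b • (Ser.rm c hc f) = Ser.rm c hc (b • f) := by
  have key : ∀ (s : Q →₀ D), (∀ q, s q ∈ G.S q) → ∀ g : Ser G o,
      ev s • (Ser.rm c hc g) = Ser.rm c hc (ev s • g) := by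
    intro s hs g
    refine Ser.ext fun δ => ?_
    rw [ev_smul s hs, Ser.co_rm, ev_smul s hs, Finsupp.sum, Finsupp.sum, Finset.sum_mul]
    refine Finset.sum_congr rfl fun μ _ => ?_
    rw [Ser.co_rm, mul_assoc]
  obtain ⟨s, t, hs, ht, h0, h1⟩ := G.frac b
  refine smul_cancel h0 ?_
  rw [smul_smul, h1, key t ht, key s hs, smul_smul, h1]

end S14

end

section

/-!
# S14/Pr: a finer and a coarser grading of the same division ring; coarse parts of fine series
-/

namespace S14

variable {D Q R : Type} [DivisionRing D] [Group Q] [Group R]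

/-- The grading `G` over `Q` refines the grading `G'` over `R` along `π`. -/
structure Pr (G : Gr D Q) (G' : Gr D R) (π : Q →* R) : Prop where
  le : ∀ q, G.S q ≤ G'.S (π q)
  unit : ∀ r, ∃ q, π q = r ∧ ∃ x ∈ G.S q, x ≠ 0
  frac : ∀ c ∈ G'.S 1, ∃ s t : Q →₀ D, (∀ q, s q ∈ G.S q) ∧ (∀ q, t q ∈ G.S q) ∧
    (∀ q, s q ≠ 0 → π q = 1) ∧ (∀ q, t q ≠ 0 → π q = 1) ∧ ev s ≠ 0 ∧ ev s * c = ev t

variable {G : Gr D Q} {G' : Gr D R} {π : Q →* R} {o : LOG Q} {o' : LOG R}

/-- The part of `f` over `p`. -/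
noncomputable def Ser.cl (π : Q →* R) (p : R) (f : Ser G o) : Ser G o := f.res {q | π q = p}

theorem Ser.co_cl (π : Q →* R) (p : R) (f : Ser G o) {q : Q} (h : π q = p) :
    (f.cl π p).co q = f.co q := f.co_res_mem h

theorem Ser.co_cl_ne (π : Q →* R) (p : R) (f : Ser G o) {q : Q} (h : π q ≠ p) :
    (f.cl π p).co q = 0 := f.co_res_not h

theorem cl_add (f g : Ser G o) (p : R) : (f + g).cl π p = f.cl π p + g.cl π p := by
  refine Ser.ext fun δ => ?_
  rw [Ser.co_add]
  by_cases h : π δ = p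
  · rw [Ser.co_cl _ _ _ h, Ser.co_cl _ _ _ h, Ser.co_cl _ _ _ h, Ser.co_add]
  · rw [Ser.co_cl_ne _ _ _ h, Ser.co_cl_ne _ _ _ h, Ser.co_cl_ne _ _ _ h, add_zero]

theorem cl_zero (p : R) : (0 : Ser G o).cl π p = 0 := by
  refine Ser.ext fun δ => ?_
  by_cases h : π δ = p
  · rw [Ser.co_cl _ _ _ h]
  · rw [Ser.co_cl_ne _ _ _ h]
    rfl

/-- The part over `p` as an additive map. -/
noncomputable def clHom (G : Gr D Q) (o : LOG Q) (π : Q →* R) (p : R) : Ser G o →+ Ser G o where
  toFun f := f.cl π p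
  map_zero' := cl_zero p
  map_add' f g := cl_add f g p

/-- Elements which are homogeneous for the fine grading. -/
private theorem cl_fine {y : D} {q : Q} (hy : y ∈ G.S q) (f : Ser G o) (p : R) :
    (y • f).cl π (π q * p) = y • f.cl π p := by
  refine Ser.ext fun δ => ?_
  rw [hom_smul hy]
  by_cases h : π δ = π q * p
  · have h1 : π (q⁻¹ * δ) = p := by
      rw [map_mul, map_inv, h, inv_mul_cancel_left]
    rw [Ser.co_cl _ _ _ h, Ser.co_cl _ _ _ h1, hom_smul hy]
  · have h1 : π (q⁻¹ * δ) ≠ p := by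
      intro hc
      refine h ?_
      rw [← hc, map_mul, map_inv, mul_inv_cancel_left]
    rw [Ser.co_cl_ne _ _ _ h, Ser.co_cl_ne _ _ _ h1, mul_zero]

/-- Finite sums of degrees in the kernel preserve the parts. -/
private theorem cl_ker {s : Q →₀ D} (hs : ∀ q, s q ∈ G.S q) (hk : ∀ q, s q ≠ 0 → π q = 1)
    (f : Ser G o) (p : R) : (ev s • f).cl π p = ev s • f.cl π p := by
  refine Ser.ext fun δ => ?_
  rw [ev_smul s hs]
  by_cases h : π δ = p
  · rw [Ser.co_cl _ _ _ h, ev_smul s hs, Finsupp.sum, Finsupp.sum]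
    refine Finset.sum_congr rfl fun μ hμ => ?_
    have h1 : π (μ⁻¹ * δ) = p := by
      rw [map_mul, map_inv, hk μ (Finsupp.mem_support_iff.1 hμ), inv_one, one_mul, h]
    rw [Ser.co_cl _ _ _ h1]
  · rw [Ser.co_cl_ne _ _ _ h, Finsupp.sum]
    refine (Finset.sum_eq_zero fun μ hμ => ?_).symm
    have h1 : π (μ⁻¹ * δ) ≠ p := by
      rw [map_mul, map_inv, hk μ (Finsupp.mem_support_iff.1 hμ), inv_one, one_mul]
      exact h
    rw [Ser.co_cl_ne _ _ _ h1, mul_zero]

/-- A coarsely homogeneous element translates the coarse parts. -/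
theorem cl_smul (P : Pr G G' π) {x : D} {r : R} (hx : x ∈ G'.S r) (f : Ser G o) (p : R) :
    (x • f).cl π (r * p) = x • f.cl π p := by
  obtain ⟨q, rfl, y, hy, hy0⟩ := P.unit r
  have hc : x * y⁻¹ ∈ G'.S 1 := by
    have h := G'.mul hx (G'.inv (P.le q hy))
    rwa [mul_inv_cancel] at h
  obtain ⟨s, t, hs, ht, hks, hkt, h0, h1⟩ := P.frac _ hc
  have h2 : ∀ (g : Ser G o) (a : R), ((x * y⁻¹) • g).cl π a = (x * y⁻¹) • g.cl π a := by
    intro g a
    refine smul_cancel h0 ?_
    rw [← cl_ker hs hks, smul_smul, smul_smul, h1, cl_ker ht hkt]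
  have h3 : x = x * y⁻¹ * y := by
    rw [mul_assoc, inv_mul_cancel₀ hy0, mul_one]
  have h4 : ∀ g : Ser G o, x • g = (x * y⁻¹) • (y • g) := fun g => by
    rw [smul_smul, ← h3]
  rw [h4, h4, h2, cl_fine hy]

/-- The coarse parts of the product with a coarsely homogeneous finite sum. -/
theorem cl_ev_smul (P : Pr G G' π) (s : R →₀ D) (hs : ∀ r, s r ∈ G'.S r) (f : Ser G o) (δ : R) :
    (ev s • f).cl π δ = s.sum fun μ d => d • f.cl π (μ⁻¹ * δ) := by
  have h1 : ev s • f = ∑ μ ∈ s.support, s μ • f := by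
    rw [ev, Finsupp.sum, Finset.sum_smul]
  have h2 : (ev s • f).cl π δ = clHom G o π δ (ev s • f) := rfl
  rw [h2, h1, map_sum, Finsupp.sum]
  refine Finset.sum_congr rfl fun μ _ => ?_
  have h3 := cl_smul P (hs μ) f (μ⁻¹ * δ)
  rw [mul_inv_cancel_left] at h3
  exact h3

end S14

end

section

/-!
# S14/Low: the lowest coarse part of `b • f`
-/

namespace S14

variable {D R : Type} [DivisionRing D] [Group R]

/-- The leading positions of two finitely supported functions give a strictly increasing map. -/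
theorem exists_low_aux (o' : LOG R) {s t : R →₀ D} (hs0 : s ≠ 0) (ht0 : t ≠ 0) :
    ∃ (σ μ τ : R → R), ∀ p, IsLd o' t p (τ p) ∧ IsLd o' s (σ p) (μ p) ∧ μ p * σ p = τ p * p := by
  have h : ∀ p, ∃ α μ τ, IsLd o' t p τ ∧ IsLd o' s α μ ∧ μ * α = τ * p := by
    intro p
    obtain ⟨τ, hτ⟩ := exists_ld o' ht0 p
    obtain ⟨α, μ, h1, h2⟩ := ld_onto o' hs0 (τ * p)
    exact ⟨α, μ, τ, hτ, h1, h2⟩
  choose σ μ τ h using h
  exact ⟨σ, μ, τ, h⟩

/-- The coarse part over `r` vanishes when the coefficients over `r` vanish. -/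
theorem cl_eq_zero {Q : Type} [Group Q] {G : Gr D Q} {o : LOG Q} (π : Q →* R) (f : Ser G o) {r : R}
    (h : ∀ q, π q = r → f.co q = 0) : f.cl π r = 0 := by
  refine Ser.ext fun q => ?_
  by_cases hq : π q = r
  · rw [Ser.co_cl π r f hq, h q hq]
    rfl
  · rw [Ser.co_cl_ne π r f hq]
    rfl

/-- For `b ≠ 0` there are a strictly increasing map `σ` and a function `e` with finitely many
values, homogeneous and nonzero, such that for every refinement and every series `f` without terms
below the class `p` the part of `b • f` over `σ p` is `e p` times the part of `f` over `p`, and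
`b • f` has no terms below the class `σ p`. -/
theorem exists_low (G' : Gr D R) (o' : LOG R) (b : D) (hb : b ≠ 0) :
    ∃ (σ : R → R) (e : R → D), (∀ p p', o'.lt p p' → o'.lt (σ p) (σ p')) ∧
      (Set.range e).Finite ∧ (∀ p, e p ≠ 0 ∧ e p ∈ G'.S (σ p * p⁻¹)) ∧
      ∀ {Q : Type} [Group Q] (G : Gr D Q) (o : LOG Q) (π : Q →* R) (_ : Pr G G' π)
        (_ : ∀ a b : Q, o'.lt (π a) (π b) → o.lt a b) (f : Ser G o) (p : R)
        (_ : ∀ q, o'.lt (π q) p → f.co q = 0),
        (∀ q, o'.lt (π q) (σ p) → (b • f).co q = 0) ∧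
          (b • f).cl π (σ p) = e p • f.cl π p := by
  classical
  obtain ⟨s, t, hs, ht, hs0, hst⟩ := G'.frac b
  have hs1 : s ≠ 0 := by
    rintro rfl
    exact hs0 (by rw [ev, Finsupp.sum_zero_index])
  have ht1 : t ≠ 0 := by
    rintro rfl
    refine mul_ne_zero hs0 hb ?_
    rw [hst, ev, Finsupp.sum_zero_index]
  obtain ⟨σ, μ, τ, h⟩ := exists_low_aux o' hs1 ht1
  refine ⟨σ, fun p => (s (μ p))⁻¹ * t (τ p), ?_, ?_, ?_, ?_⟩
  · intro p p' hpp
    obtain ⟨h1, h2, h3⟩ := h p
    obtain ⟨h1', h2', h3'⟩ := h p'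
    have h4 : o'.lt (μ p * σ p) (μ p' * σ p') := by
      rw [h3, h3']
      exact h1.lt h1' hpp
    rcases o'.tri (σ p) (σ p') with h5 | h5 | h5
    · exact h5
    · rw [← h5] at h2' h4
      rw [h2.unique h2'] at h4
      exact absurd h4 (o'.irrefl _)
    · exact absurd h4 (o'.asymm (h2'.lt h2 h5))
  · refine ((s.support ×ˢ t.support).image fun x => (s x.1)⁻¹ * t x.2).finite_toSet.subset ?_
    rintro _ ⟨p, rfl⟩
    refine Finset.mem_coe.2 (Finset.mem_image.2 ⟨(μ p, τ p), Finset.mem_product.2 ⟨?_, ?_⟩, rfl⟩)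
    · exact Finsupp.mem_support_iff.2 (h p).2.1.1
    · exact Finsupp.mem_support_iff.2 (h p).1.1
  · intro p
    obtain ⟨h1, h2, h3⟩ := h p
    refine ⟨mul_ne_zero (inv_ne_zero h2.1) h1.1, ?_⟩
    have h4 : σ p * p⁻¹ = (μ p)⁻¹ * τ p := by
      rw [mul_inv_eq_iff_eq_mul, mul_assoc, ← h3, inv_mul_cancel_left]
    rw [h4]
    exact G'.mul (G'.inv (hs _)) (ht _)
  · intro Q _ G o π P hmono f p hf
    obtain ⟨h1, h2, h3⟩ := h p
    have hg : ev s • (b • f) = ev t • f := by
      rw [smul_smul, hst]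
    have hfz : ∀ r, o'.lt r p → f.cl π r = 0 := fun r hr =>
      cl_eq_zero π f fun q hq => hf q (by rw [hq]; exact hr)
    -- no terms below the class
    have key : ∀ q, o'.lt (π q) (σ p) → (b • f).co q = 0 := by
      intro q hq
      by_contra hc
      obtain ⟨r, hr, hmin⟩ := LOG.WO.min (o := o')
        (LOG.WO.image o' π hmono (b • f).wo) ⟨π q, q, hc, rfl⟩
      have hrlt : o'.lt r (σ p) := by
        have := hmin (π q) ⟨q, hc, rfl⟩
        exact o'.lt_of_not_of_lt this hq
      obtain ⟨q', hq', rfl⟩ := hr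
      obtain ⟨μ0, hμ0⟩ := exists_ld o' hs1 (π q')
      have hgz : ∀ r, o'.lt r (π q') → (b • f).cl π r = 0 := fun r hr =>
        cl_eq_zero π _ fun a ha => by
          by_contra hca
          exact hmin (π a) ⟨a, hca, rfl⟩ (by rw [ha]; exact hr)
      have e1 : (ev s • (b • f)).cl π (μ0 * π q') = s μ0 • (b • f).cl π (π q') := by
        rw [cl_ev_smul P s hs]
        exact sum_ld o' (fun r => (b • f).cl π r) hgz hμ0
      have hlt : o'.lt (μ0 * π q') (τ p * p) := by
        rw [← h3]
        exact hμ0.lt h2 hrlt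
      have e2 : (ev t • f).cl π (μ0 * π q') = 0 := by
        rw [cl_ev_smul P t ht]
        exact sum_ld_zero o' (fun r => f.cl π r) hfz h1 hlt
      rw [hg, e2] at e1
      have e3 : (b • f).cl π (π q') = 0 := by
        have := congrArg (fun z => (s μ0)⁻¹ • z) e1.symm
        rwa [smul_zero, smul_smul, inv_mul_cancel₀ hμ0.1, one_smul] at this
      refine hq' ?_
      rw [← Ser.co_cl π (π q') (b • f) rfl, e3]
      rfl
    refine ⟨key, ?_⟩
    have hgz : ∀ r, o'.lt r (σ p) → (b • f).cl π r = 0 := fun r hr =>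
      cl_eq_zero π _ fun q hq => key q (by rw [hq]; exact hr)
    have e1 : (ev s • (b • f)).cl π (μ p * σ p) = s (μ p) • (b • f).cl π (σ p) := by
      rw [cl_ev_smul P s hs]
      exact sum_ld o' (fun r => (b • f).cl π r) hgz h2
    have e2 : (ev t • f).cl π (τ p * p) = t (τ p) • f.cl π p := by
      rw [cl_ev_smul P t ht]
      exact sum_ld o' (fun r => f.cl π r) hfz h1
    rw [hg, h3, e2] at e1
    rw [mul_smul, e1, smul_smul, inv_mul_cancel₀ h2.1, one_smul]

end S14

end

section

/-!
# S14/Fine: towers of gradings; fine elements; every element is fine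
-/

namespace S14

variable {H D : Type} [Group H] [DivisionRing D]

/-- The subring generated by the units `u h`. -/
def KH (u : H →* D) : Subring D := Subring.closure (Set.range u)

theorem u_mem_KH (u : H →* D) (h : H) : u h ∈ KH u := Subring.subset_closure ⟨h, rfl⟩

private theorem kh_add (u : H →* D) (h2 : (2 : D) = 0) {x y : D}
    (hx : ∃ A : Finset H, x = ∑ h ∈ A, u h) (hy : ∃ A : Finset H, y = ∑ h ∈ A, u h) :
    ∃ A : Finset H, x + y = ∑ h ∈ A, u h := by
  classical
  obtain ⟨A, rfl⟩ := hx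
  obtain ⟨B, rfl⟩ := hy
  refine ⟨symmDiff A B, ?_⟩
  have h1 : ∑ h ∈ A, u h = ∑ h ∈ A \ B, u h + ∑ h ∈ A ∩ B, u h := by
    rw [← Finset.sum_union (Finset.disjoint_sdiff_inter A B), Finset.sdiff_union_inter]
  have h3 : ∑ h ∈ B, u h = ∑ h ∈ B \ A, u h + ∑ h ∈ A ∩ B, u h := by
    rw [Finset.inter_comm A B,
      ← Finset.sum_union (Finset.disjoint_sdiff_inter B A), Finset.sdiff_union_inter]
  have h4 : ∑ h ∈ symmDiff A B, u h = ∑ h ∈ A \ B, u h + ∑ h ∈ B \ A, u h := by
    rw [symmDiff_def, Finset.sup_eq_union, Finset.sum_union]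
    exact disjoint_sdiff_sdiff
  rw [h4, h1, h3]
  have h5 : ∑ h ∈ A ∩ B, u h + ∑ h ∈ A ∩ B, u h = 0 := by
    rw [← two_mul, h2, zero_mul]
  calc _ = ∑ h ∈ A \ B, u h + ∑ h ∈ B \ A, u h + (∑ h ∈ A ∩ B, u h + ∑ h ∈ A ∩ B, u h) := by
        abel
    _ = _ := by rw [h5, add_zero]

/-- In characteristic two the elements of `KH` are the finite sums of distinct `u h`. -/
theorem exists_finset_of_mem_KH (u : H →* D) (h2 : (2 : D) = 0) {x : D} (hx : x ∈ KH u) :
    ∃ A : Finset H, x = ∑ h ∈ A, u h := by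
  classical
  have hz : ∃ A : Finset H, (0 : D) = ∑ h ∈ A, u h := ⟨∅, by simp⟩
  induction hx using Subring.closure_induction with
  | mem x hx =>
    obtain ⟨h, rfl⟩ := hx
    exact ⟨{h}, by simp⟩
  | zero => exact hz
  | one => exact ⟨{1}, by simp⟩
  | add x y _ _ hx hy => exact kh_add u h2 hx hy
  | neg x _ hx =>
    obtain ⟨A, rfl⟩ := hx
    refine ⟨A, ?_⟩
    rw [neg_eq_iff_add_eq_zero, ← two_mul, h2, zero_mul]
  | mul x y hx0 _ hx hy =>
    obtain ⟨A, rfl⟩ := hx
    obtain ⟨B, rfl⟩ := hy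
    clear hx0
    induction A using Finset.induction_on with
    | empty =>
      rw [Finset.sum_empty, zero_mul]
      exact hz
    | insert a A ha ih =>
      rw [Finset.sum_insert ha, add_mul]
      refine kh_add u h2 ⟨B.image fun b => a * b, ?_⟩ ih
      rw [Finset.mul_sum, Finset.sum_image fun b _ c _ h => mul_left_cancel h]
      simp

/-- A tower of gradings with compatible left orders. -/
structure Tow (u : H →* D) where
  Q : ℕ → Type
  [grp : ∀ j, Group (Q j)]
  q : ∀ j, H →* Q j
  surj : ∀ j, Function.Surjective (q j)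
  G : ∀ j, Gr D (Q j)
  u_mem : ∀ j h, u h ∈ (G j).S (q j h)
  π : ∀ i j, Q j →* Q i
  π_q : ∀ i j, i ≤ j → ∀ h, π i j (q j h) = q i h
  pr : ∀ i j, i ≤ j → Pr (G j) (G i) (π i j)
  o : ∀ j, LOG (Q j)
  mono : ∀ i j, i ≤ j → ∀ a b, (o i).lt (π i j a) (π i j b) → (o j).lt a b
  sep : ∀ h, (∀ j, q j h = 1) → h = 1

attribute [instance] Tow.grp

variable {u : H →* D}

/-- The same tower with the opposite orders. -/
def Tow.rev (T : Tow u) : Tow u where
  Q := T.Q
  q := T.q
  surj := T.surj
  G := T.G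
  u_mem := T.u_mem
  π := T.π
  π_q := T.π_q
  pr := T.pr
  o := fun j => (T.o j).rev
  mono := fun i j hij a b h => T.mono i j hij b a h
  sep := T.sep

/-- The elements of `D` which preserve the series with coefficients in `KH` from level `j` on. -/
def Tow.Fine (T : Tow u) (j : ℕ) : Subring D where
  carrier := {b | ∀ i, j ≤ i → ∀ f : Ser (T.G i) (T.o i), (∀ q, f.co q ∈ KH u) →
    ∀ q, (b • f).co q ∈ KH u}
  mul_mem' := fun {a b} ha hb i hi f hf q => by
    rw [mul_smul]
    exact ha i hi _ (hb i hi f hf) q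
  one_mem' := fun i hi f hf q => by
    rw [one_smul]
    exact hf q
  add_mem' := fun {a b} ha hb i hi f hf q => by
    rw [add_smul, Ser.co_add]
    exact (KH u).add_mem (ha i hi f hf q) (hb i hi f hf q)
  zero_mem' := fun i hi f hf q => by
    rw [zero_smul, Ser.co_zero]
    exact (KH u).zero_mem
  neg_mem' := fun {a} ha i hi f hf q => by
    rw [neg_smul, Ser.co_neg]
    exact (KH u).neg_mem (ha i hi f hf q)

theorem Tow.fine_mono (T : Tow u) {i j : ℕ} (h : i ≤ j) : T.Fine i ≤ T.Fine j :=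
  fun _ hb k hk => hb k (h.trans hk)

theorem Tow.u_fine (T : Tow u) (j : ℕ) (h : H) : u h ∈ T.Fine j := by
  intro i _ f hf q
  rw [hom_smul (T.u_mem i h)]
  exact (KH u).mul_mem (u_mem_KH u h) (hf _)

/-- The transition map from a level to itself is the identity. -/
private theorem Tow.π_self (T : Tow u) (i : ℕ) (a : T.Q i) : T.π i i a = a := by
  obtain ⟨h, rfl⟩ := T.surj i a
  exact T.π_q i i le_rfl h

private theorem Tow.q_anti (T : Tow u) {i j : ℕ} (hij : i ≤ j) {h : H} (hq : T.q j h = 1) :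
    T.q i h = 1 := by
  rw [← T.π_q i j hij, hq, map_one]

/-- A finite set of group elements is separated from some level on. -/
private theorem Tow.sep_fin (T : Tow u) (F : Finset H) (hF : ∀ h ∈ F, h ≠ 1) :
    ∃ j, ∀ k, j ≤ k → ∀ h ∈ F, T.q k h ≠ 1 := by
  classical
  induction F using Finset.induction_on with
  | empty => exact ⟨0, fun k _ h hh => absurd hh (Finset.notMem_empty h)⟩
  | insert a F _ ih =>
    obtain ⟨j, hj⟩ := ih fun h hh => hF h (Finset.mem_insert_of_mem hh)
    have ha : ∃ i, T.q i a ≠ 1 := by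
      by_contra hc
      push Not at hc
      exact hF a (Finset.mem_insert_self _ _) (T.sep a hc)
    obtain ⟨i, hi⟩ := ha
    refine ⟨max i j, fun k hk h hh => ?_⟩
    rcases Finset.mem_insert.1 hh with rfl | hh
    · exact fun hc => hi (T.q_anti ((le_max_left i j).trans hk) hc)
    · exact hj k ((le_max_right i j).trans hk) h hh

private theorem Tow.inj_fin (T : Tow u) (W : Finset H) :
    ∃ j, ∀ k, j ≤ k → ∀ h ∈ W, ∀ h' ∈ W, T.q k h = T.q k h' → h = h' := by
  classical
  obtain ⟨j, hj⟩ := T.sep_fin (((W ×ˢ W).image fun x => x.1⁻¹ * x.2).filter fun h => h ≠ 1)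
    (fun h hh => (Finset.mem_filter.1 hh).2)
  refine ⟨j, fun k hk h hh h' hh' he => ?_⟩
  by_contra hne
  refine hj k hk (h⁻¹ * h') (Finset.mem_filter.2 ⟨Finset.mem_image.2
    ⟨(h, h'), Finset.mem_product.2 ⟨hh, hh'⟩, rfl⟩, fun h1 => hne ?_⟩) ?_
  · exact (inv_mul_eq_one.1 h1)
  · rw [map_mul, map_inv, he, inv_mul_cancel]

/-- The finitely supported function of a finite set of group elements. -/
private theorem exists_sum_fun {Q : Type} [Group Q] (q : H →* Q) (u : H →* D) (A : Finset H)
    (hA : ∀ h ∈ A, ∀ h' ∈ A, q h = q h' → h = h') :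
    ∃ s : Q →₀ D, (∀ h ∈ A, s (q h) = u h) ∧ (∀ μ, s μ ≠ 0 → ∃ h ∈ A, μ = q h) ∧
      ev s = ∑ h ∈ A, u h := by
  classical
  induction A using Finset.induction_on with
  | empty => exact ⟨0, by simp, by simp, by simp [ev]⟩
  | insert a A ha ih =>
    obtain ⟨s, h1, h2, h3⟩ := ih fun h hh h' hh' => hA h (Finset.mem_insert_of_mem hh) h'
      (Finset.mem_insert_of_mem hh')
    have h0 : ∀ h ∈ A, q h ≠ q a := fun h hh he => ha (by
      rw [← hA h (Finset.mem_insert_of_mem hh) a (Finset.mem_insert_self _ _) he]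
      exact hh)
    have h4 : s (q a) = 0 := by
      by_contra hc
      obtain ⟨h, hh, he⟩ := h2 _ hc
      exact h0 h hh he.symm
    refine ⟨s + Finsupp.single (q a) (u a), ?_, ?_, ?_⟩
    · intro h hh
      rcases Finset.mem_insert.1 hh with rfl | hh
      · rw [Finsupp.add_apply, h4, Finsupp.single_eq_same, zero_add]
      · rw [Finsupp.add_apply, h1 h hh, Finsupp.single_apply, if_neg (Ne.symm (h0 h hh)),
          add_zero]
    · intro μ hμ
      by_cases hc : μ = q a
      · exact ⟨a, Finset.mem_insert_self _ _, hc⟩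
      · rw [Finsupp.add_apply, Finsupp.single_apply, if_neg (Ne.symm hc), add_zero] at hμ
        obtain ⟨h, hh, he⟩ := h2 μ hμ
        exact ⟨h, Finset.mem_insert_of_mem hh, he⟩
    · rw [ev, Finsupp.sum_add_index' (fun _ => rfl) (fun _ _ _ => rfl),
        Finsupp.sum_single_index rfl, Finset.sum_insert ha]
      change ev s + u a = _
      rw [h3, add_comm]

/-- Lemma 2: the inverse of a fine element is fine from some level on. -/
theorem Tow.inv_fine (T : Tow u) (h2 : (2 : D) = 0) {i : ℕ} {b : D} (hb : b ∈ T.Fine i) :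
    ∃ j, b⁻¹ ∈ T.Fine j := by
  classical
  by_cases hb0 : b = 0
  · exact ⟨i, by rw [hb0, inv_zero]; exact (T.Fine i).zero_mem⟩
  obtain ⟨σ, e, hσ, hfin, he, key⟩ := exists_low (T.G i) (T.o i) b hb0
  -- all values of `e` are in `KH`
  have heK : ∀ p, e p ∈ KH u := by
    intro p
    obtain ⟨h, rfl⟩ := T.surj i p
    set f : Ser (T.G i) (T.o i) := Ser.sgl (T.G i) (T.o i) (T.q i h) (u h) (T.u_mem i h) with hf
    have h1 := (key (T.G i) (T.o i) (T.π i i) (T.pr i i le_rfl) (T.mono i i le_rfl) f (T.q i h)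
      (fun a ha => by
        rw [T.π_self] at ha
        exact Ser.co_sgl_ne _ _ _ (fun hc => (T.o i).irrefl _ (by rwa [hc] at ha)))).2
    have h3 : (b • f).co (σ (T.q i h)) = e (T.q i h) * u h := by
      have h4 : ((b • f).cl (T.π i i) (σ (T.q i h))).co (σ (T.q i h)) =
          (e (T.q i h) • f.cl (T.π i i) (T.q i h)).co (σ (T.q i h)) := by rw [h1]
      rw [Ser.co_cl _ _ _ (T.π_self i _), hom_smul (he _).2] at h4
      rw [h4]
      congr 1
      have h5 : (σ (T.q i h) * (T.q i h)⁻¹)⁻¹ * σ (T.q i h) = T.q i h := by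
        simp
      rw [h5, Ser.co_cl _ _ _ (T.π_self i _), hf, Ser.co_sgl]
    have h6 : (b • f).co (σ (T.q i h)) ∈ KH u := by
      refine hb i le_rfl f (fun a => ?_) _
      by_cases ha : a = T.q i h
      · rw [ha, hf, Ser.co_sgl]
        exact u_mem_KH u h
      · rw [hf, Ser.co_sgl_ne _ _ _ ha]
        exact (KH u).zero_mem
    rw [h3] at h6
    have h7 := (KH u).mul_mem h6 (u_mem_KH u h⁻¹)
    rwa [mul_assoc, ← map_mul, mul_inv_cancel, map_one, mul_one] at h7
  -- finitely many supports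
  let B : D → Finset H := fun x => if hx : x ∈ KH u then
    (exists_finset_of_mem_KH u h2 hx).choose else ∅
  have hB : ∀ p, e p = ∑ h ∈ B (e p), u h := by
    intro p
    have h1 : B (e p) = (exists_finset_of_mem_KH u h2 (heK p)).choose := dif_pos (heK p)
    rw [h1]
    exact (exists_finset_of_mem_KH u h2 (heK p)).choose_spec
  obtain ⟨j, hj⟩ := T.inj_fin (hfin.toFinset.biUnion B)
  have hW : ∀ p, ∀ h ∈ B (e p), h ∈ hfin.toFinset.biUnion B := fun p h hh =>
    Finset.mem_biUnion.2 ⟨e p, hfin.mem_toFinset.2 ⟨p, rfl⟩, hh⟩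
  -- the lowest term of `b • f`
  have low : ∀ k, max i j ≤ k → ∀ (f : Ser (T.G k) (T.o k)) (a : T.Q k), f.co a ≠ 0 →
      (∀ c, (T.o k).lt c a → f.co c = 0) → ∃ δ g, (b • f).co δ = u g * f.co a := by
    intro k hk f a ha hlow
    have hik : i ≤ k := (le_max_left i j).trans hk
    have hjk : j ≤ k := (le_max_right i j).trans hk
    set p := T.π i k a with hp
    have h1 := (key (T.G k) (T.o k) (T.π i k) (T.pr i k hik) (T.mono i k hik) f p
      (fun c hc => hlow c (T.mono i k hik _ _ hc))).2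
    obtain ⟨s, hs1, hs2, hs3⟩ := exists_sum_fun (T.q k) u (B (e p))
      (fun h hh h' hh' heq => hj k hjk h (hW p h hh) h' (hW p h' hh') heq)
    have hs : ∀ c, s c ∈ (T.G k).S c := by
      intro c
      by_cases hc : s c = 0
      · rw [hc]
        exact ((T.G k).S c).zero_mem
      · obtain ⟨h, hh, rfl⟩ := hs2 c hc
        rw [hs1 h hh]
        exact T.u_mem k h
    have hs0 : s ≠ 0 := by
      intro hc
      refine (he p).1 ?_
      rw [hB p, ← hs3, hc]
      simp [ev]
    obtain ⟨μ, hμ⟩ := exists_ld (T.o k) hs0 a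
    obtain ⟨g, hg, rfl⟩ := hs2 μ hμ.1
    have h3 : (e p • f.cl (T.π i k) p).co (T.q k g * a) = u g * f.co a := by
      conv_lhs => rw [hB p, ← hs3]
      rw [ev_smul s hs]
      have h4 := sum_ld (T.o k) (V := D) (f.cl (T.π i k) p).co (α := a) (μ := T.q k g)
        (fun c hc => by
          by_cases hcp : T.π i k c = p
          · rw [Ser.co_cl _ _ _ hcp]
            exact hlow c hc
          · exact Ser.co_cl_ne _ _ _ hcp) hμ
      simp only [smul_eq_mul] at h4
      rw [h4, hs1 g hg, Ser.co_cl _ _ _ hp.symm]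
    rw [← h1] at h3
    refine ⟨T.q k g * a, g, ?_⟩
    rw [← h3]
    by_cases hδ : T.π i k (T.q k g * a) = σ p
    · rw [Ser.co_cl _ _ _ hδ]
    · exfalso
      rw [Ser.co_cl_ne _ _ _ hδ] at h3
      have h5 : u g ≠ 0 := by
        intro h0
        have h7 : u g * u g⁻¹ = 1 := by rw [← map_mul, mul_inv_cancel, map_one]
        rw [h0, zero_mul] at h7
        exact zero_ne_one h7
      rcases mul_eq_zero.1 h3.symm with h6 | h6
      · exact h5 h6
      · exact ha h6
  refine ⟨max i j, fun k hk f hf => ?_⟩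
  have hik : i ≤ k := (le_max_left i j).trans hk
  set g := b⁻¹ • f with hg
  by_contra hc
  push Not at hc
  obtain ⟨a, ha, hmin⟩ := LOG.WO.min (o := T.o k) (s := {c | g.co c ∉ KH u})
    (g.wo.mono fun c hc' => by
      intro h0
      exact hc' (by rw [h0]; exact (KH u).zero_mem)) hc
  have hlt : ∀ c, (T.o k).lt c a → g.co c ∈ KH u := by
    intro c hc'
    by_contra hc2
    exact hmin c hc2 hc'
  set g1 := g.res {c | (T.o k).lt c a} with hg1
  have hgK : ∀ c, g1.co c ∈ KH u := by
    intro c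
    by_cases hc' : (T.o k).lt c a
    · rw [hg1, Ser.co_res_mem _ (show c ∈ {c | (T.o k).lt c a} from hc')]
      exact hlt c hc'
    · rw [hg1, Ser.co_res_not _ (show c ∉ {c | (T.o k).lt c a} from hc')]
      exact (KH u).zero_mem
  have hga : (g - g1).co a = g.co a := by
    rw [Ser.co_sub, hg1, Ser.co_res_not _ (show a ∉ {c | (T.o k).lt c a} from (T.o k).irrefl a),
      sub_zero]
  obtain ⟨δ, h, hδ⟩ := low k hk (g - g1) a (by
      rw [hga]
      intro h0
      refine ha ?_
      rw [h0]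
      exact (KH u).zero_mem) (fun c hc' => by
      rw [Ser.co_sub, hg1, Ser.co_res_mem _ (show c ∈ {c | (T.o k).lt c a} from hc'), sub_self])
  rw [hga] at hδ
  have h3 : (b • (g - g1)).co δ ∈ KH u := by
    rw [smul_sub, Ser.co_sub, hg, smul_smul, mul_inv_cancel₀ hb0, one_smul]
    exact (KH u).sub_mem (hf δ) (hb k hik g1 hgK δ)
  rw [hδ] at h3
  refine ha ?_
  have h4 := (KH u).mul_mem (u_mem_KH u h⁻¹) h3
  rwa [← mul_assoc, ← map_mul, inv_mul_cancel, map_one, one_mul] at h4

/-- Every element is fine, if `D` is the smallest division ring with the `u h`. -/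
theorem Tow.exists_fine (T : Tow u) (h2 : (2 : D) = 0)
    (gen : ∀ S : Subring D, (∀ h, u h ∈ S) → (∀ x ∈ S, x⁻¹ ∈ S) → S = ⊤) (b : D) :
    ∃ j, b ∈ T.Fine j := by
  let S : Subring D :=
    { carrier := {b | ∃ j, b ∈ T.Fine j}
      mul_mem' := by
        rintro a b ⟨i, hi⟩ ⟨j, hj⟩
        exact ⟨max i j, (T.Fine _).mul_mem (T.fine_mono (le_max_left i j) hi)
          (T.fine_mono (le_max_right i j) hj)⟩
      one_mem' := ⟨0, (T.Fine 0).one_mem⟩
      add_mem' := by
        rintro a b ⟨i, hi⟩ ⟨j, hj⟩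
        exact ⟨max i j, (T.Fine _).add_mem (T.fine_mono (le_max_left i j) hi)
          (T.fine_mono (le_max_right i j) hj)⟩
      zero_mem' := ⟨0, (T.Fine 0).zero_mem⟩
      neg_mem' := by
        rintro a ⟨i, hi⟩
        exact ⟨i, (T.Fine i).neg_mem hi⟩ }
  have hS : S = ⊤ := gen S (fun h => ⟨0, T.u_fine 0 h⟩) (fun x ⟨j, hj⟩ => T.inv_fine h2 hj)
  have h1 : b ∈ S := by
    rw [hS]
    trivial
  exact h1

end S14

end

section

/-!
# S14/Coef: the coefficients of `b • 1` (input for the levels `Lvl` of the pairing)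
-/

namespace S14

variable {D Q : Type} [DivisionRing D] [Group Q]

/-- The series `1`. -/
noncomputable def sone (G : Gr D Q) (o : LOG Q) : Ser G o := Ser.sgl G o 1 1 G.one

/-- The coefficient of degree `q` of `b • 1`. -/
noncomputable def coef (G : Gr D Q) (o : LOG Q) (q : Q) : D →+ D where
  toFun b := (b • sone G o).co q
  map_zero' := by
    rw [zero_smul]
    rfl
  map_add' a b := by
    rw [add_smul]
    rfl

variable (G : Gr D Q) (o : LOG Q)

theorem coef_def (q : Q) (b : D) : coef G o q b = (b • sone G o).co q := rfl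

/-- The coefficients are right linear over the elements of degree one. -/
theorem coef_mul (q : Q) (b : D) {c : D} (hc : c ∈ G.S 1) :
    coef G o q (b * c) = coef G o q b * c := by
  have h1 : c • sone G o = Ser.rm c hc (sone G o) := by
    refine Ser.ext fun p => ?_
    rw [hom_smul hc, Ser.co_rm, inv_one, one_mul]
    by_cases hp : p = 1
    · subst hp
      rw [sone, Ser.co_sgl, mul_one, one_mul]
    · rw [sone, Ser.co_sgl_ne _ _ _ hp, mul_zero, zero_mul]
  rw [coef_def, mul_smul, h1, smul_rm, Ser.co_rm]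
  rfl

/-- Homogeneous elements on the left translate the coefficients. -/
theorem coef_hom {x : D} {μ : Q} (hx : x ∈ G.S μ) (q : Q) (b : D) :
    coef G o (μ * q) (x * b) = x * coef G o q b := by
  rw [coef_def, mul_smul, hom_smul hx, inv_mul_cancel_left]
  rfl

theorem coef_self {x : D} {q : Q} (hx : x ∈ G.S q) : coef G o q x = x := by
  rw [coef_def, hom_smul hx, inv_mul_cancel, sone, Ser.co_sgl, mul_one]

theorem coef_ne {x : D} {q : Q} (hx : x ∈ G.S q) {p : Q} (hp : p ≠ q) : coef G o p x = 0 := by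
  rw [coef_def, hom_smul hx, sone, Ser.co_sgl_ne, mul_zero]
  intro h
  exact hp (by rw [← mul_one q, ← h, mul_inv_cancel_left])

/-- The supports for the order and for the opposite order meet in a finite set. -/
theorem coef_fin (a b : D) : {q | coef G o.rev q a ≠ 0 ∧ coef G o q b ≠ 0}.Finite :=
  LOG.WO.finite (o := o)
    ((b • sone G o).wo.mono fun _ h => h.2) ((a • sone G o.rev).wo.mono fun _ h => h.1)

variable {H : Type} [Group H] {u : H →* D}

/-- The coefficients of fine elements lie in `KH`. -/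
theorem Tow.coef_fine (T : Tow u) {j : ℕ} {b : D} (hb : b ∈ T.Fine j) (q : T.Q j) :
    coef (T.G j) (T.o j) q b ∈ KH u := by
  refine hb j le_rfl _ (fun p => ?_) q
  by_cases hp : p = 1
  · subst hp
    rw [sone, Ser.co_sgl]
    exact (KH u).one_mem
  · rw [sone, Ser.co_sgl_ne _ _ _ hp]
    exact (KH u).zero_mem

end S14

end

section

/-!
# Project S14: ultraproducts of division rings
-/

set_option autoImplicit false
set_option linter.unusedSectionVars false

namespace Pool.Agent.S14

section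

variable (F : ℕ → Type) [∀ j, DivisionRing (F j)]

/-- equality almost everywhere -/
def upCon : RingCon (∀ j, F j) where
  r x y := ∀ᶠ j in (Filter.hyperfilter ℕ : Filter ℕ), x j = y j
  iseqv := ⟨fun _ => Filter.Eventually.of_forall fun _ => rfl, fun h => h.mono fun _ e => e.symm,
    fun h h' => (h.and h').mono fun _ e => e.1.trans e.2⟩
  add' := fun {a b c d} h h' => (h.and h').mono fun j e => by
    show a j + c j = b j + d j
    rw [e.1, e.2]
  mul' := fun {a b c d} h h' => (h.and h').mono fun j e => by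
    show a j * c j = b j * d j
    rw [e.1, e.2]

/-- the ultraproduct -/
def Up : Type := (upCon F).Quotient

noncomputable instance : Ring (Up F) := inferInstanceAs (Ring (upCon F).Quotient)

/-- the class of a sequence -/
noncomputable def Up.mk : (∀ j, F j) →+* Up F := (upCon F).mk'

variable {F}

theorem Up.mk_eq_iff (x y : ∀ j, F j) :
    Up.mk F x = Up.mk F y ↔ ∀ᶠ j in (Filter.hyperfilter ℕ : Filter ℕ), x j = y j :=
  (upCon F).eq (a := x) (b := y)

theorem Up.mk_surj : Function.Surjective (Up.mk F) := (upCon F).mk'_surjective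

/-- the inverse, on representatives -/
noncomputable def Up.invFun (a : Up F) : Up F :=
  Up.mk F fun j => (Classical.choose (Up.mk_surj a) j)⁻¹

theorem Up.invFun_mk (x : ∀ j, F j) : Up.invFun (Up.mk F x) = Up.mk F fun j => (x j)⁻¹ := by
  unfold Up.invFun
  rw [Up.mk_eq_iff]
  have h := (Up.mk_eq_iff _ _).1 (Classical.choose_spec (Up.mk_surj (Up.mk F x)))
  exact h.mono fun j e => by rw [e]

theorem Up.mk_ne_zero {x : ∀ j, F j} (h : Up.mk F x ≠ 0) :
    ∀ᶠ j in (Filter.hyperfilter ℕ : Filter ℕ), x j ≠ 0 := by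
  rw [Ultrafilter.eventually_not]
  intro hc
  apply h
  rw [← map_zero (Up.mk F), Up.mk_eq_iff]
  exact hc

end

/-- the ultraproduct is a division ring -/
noncomputable instance Up.div (F : ℕ → Type) [∀ j, DivisionRing (F j)] : DivisionRing (Up F) := by
  classical
  exact { (inferInstance : Ring (Up F)) with
    inv := Up.invFun
    exists_pair_ne := by
      refine ⟨0, 1, fun h => ?_⟩
      have h' : Up.mk F 0 = Up.mk F 1 := by rw [map_zero, map_one]; exact h
      rw [Up.mk_eq_iff] at h'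
      obtain ⟨j, hj⟩ := h'.exists
      exact zero_ne_one hj
    mul_inv_cancel := by
      intro a ha
      obtain ⟨x, rfl⟩ := Up.mk_surj a
      show Up.mk F x * Up.invFun (Up.mk F x) = 1
      rw [Up.invFun_mk, ← map_mul, ← map_one (Up.mk F), Up.mk_eq_iff]
      exact (Up.mk_ne_zero ha).mono fun j hj => mul_inv_cancel₀ hj
    inv_zero := by
      show Up.invFun (0 : Up F) = 0
      rw [← map_zero (Up.mk F), Up.invFun_mk, Up.mk_eq_iff]
      exact Filter.Eventually.of_forall fun j => inv_zero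
    nnqsmul := _
    nnqsmul_def := fun _ _ => rfl
    qsmul := _
    qsmul_def := fun _ _ => rfl }

section

variable {F : ℕ → Type} [∀ j, DivisionRing (F j)]

theorem Up.mk_inv (x : ∀ j, F j) : (Up.mk F x)⁻¹ = Up.mk F fun j => (x j)⁻¹ := Up.invFun_mk x

/-- an involution on the ultraproduct -/
theorem Up.exists_st (st : ∀ j, F j → F j) (st_add : ∀ j a b, st j (a + b) = st j a + st j b)
    (st_mul : ∀ j a b, st j (a * b) = st j b * st j a) (st_st : ∀ j a, st j (st j a) = a) :
    ∃ s : Up F → Up F, (∀ x : ∀ j, F j, s (Up.mk F x) = Up.mk F fun j => st j (x j)) ∧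
      (∀ a b, s (a + b) = s a + s b) ∧ (∀ a b, s (a * b) = s b * s a) ∧ ∀ a, s (s a) = a := by
  obtain ⟨s, hs⟩ : ∃ s : Up F → Up F, ∀ x : ∀ j, F j, s (Up.mk F x) = Up.mk F fun j => st j (x j) := by
    refine ⟨fun a => Up.mk F fun j => st j (Classical.choose (Up.mk_surj a) j), fun x => ?_⟩
    show Up.mk F _ = _
    rw [Up.mk_eq_iff]
    have h := (Up.mk_eq_iff _ _).1 (Classical.choose_spec (Up.mk_surj (Up.mk F x)))
    exact h.mono fun j e => by rw [e]
  refine ⟨s, hs, ?_, ?_, ?_⟩
  · intro a b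
    obtain ⟨x, rfl⟩ := Up.mk_surj a
    obtain ⟨y, rfl⟩ := Up.mk_surj b
    rw [← map_add, hs, hs, hs, ← map_add, Up.mk_eq_iff]
    exact Filter.Eventually.of_forall fun j => st_add j _ _
  · intro a b
    obtain ⟨x, rfl⟩ := Up.mk_surj a
    obtain ⟨y, rfl⟩ := Up.mk_surj b
    rw [← map_mul, hs, hs, hs, ← map_mul, Up.mk_eq_iff]
    exact Filter.Eventually.of_forall fun j => st_mul j _ _
  · intro a
    obtain ⟨x, rfl⟩ := Up.mk_surj a
    rw [hs, hs, Up.mk_eq_iff]
    exact Filter.Eventually.of_forall fun j => st_st j _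

end

end Pool.Agent.S14

end
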