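import Pool.Agent.H71.TSG.M01
import Pool.Agent.H71.TSG.M36
import Pool.Agent.H71.TSG.M84

/-! The parts of this file: S11.EdMtx, S11.EdHarm, S11.Br, S11.BrB, S11.EdC0, S11.EdC1, S11.EdC, S14.E2, S14.E1, S14.E3, S14.E4, S14.ApR, S14.DDefs, S14.Frc, S14.FrcD, S14.UDefs, S14.DirU. -/

section

/-!
# Project S11, block END: the matrices of the boundary

PROOFS.  `mtx_mul`: the coefficient of `h` is `∑ incR (R l) t * incR t (h • R'' m)` over the simplices `t` with `k + 1` vertices
(`t = g • R' j` for unique `g, j`); for `h • R'' m = R l ∪ {u, v}` there are two, and the signs are opposite (`Tot`).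
-/

set_option autoImplicit false
set_option linter.unusedSectionVars false

open Finset Pointwise

namespace Pool.Agent.S11

variable {U H : Type} [DecidableEq U] [Group H] [MulAction H U] {X : Set (Finset U)} {r : U → U → Prop}

theorem sgR_smul (hr : ∀ (g : H) (u v : U), r (g • u) (g • v) ↔ r u v) (g : H) (s : Finset U) (v : U) :
    sgR r (g • s) (g • v) = sgR r s v := by
  classical
  unfold sgR
  congr 1
  have h1 : (g • s).filter (fun u => r u (g • v)) = g • (s.filter fun u => r u v) := by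
    ext u
    rw [mem_filter, mem_smul_finset, mem_smul_finset]
    constructor
    · rintro ⟨⟨w, hw, rfl⟩, h⟩
      exact ⟨w, mem_filter.2 ⟨hw, (hr g w v).1 h⟩, rfl⟩
    · rintro ⟨w, hw, rfl⟩
      exact ⟨⟨w, (mem_filter.1 hw).1, rfl⟩, (hr g w v).2 (mem_filter.1 hw).2⟩
  rw [h1, card_smul_finset]

theorem incR_smul (hr : ∀ (g : H) (u v : U), r (g • u) (g • v) ↔ r u v) (g : H) (s t : Finset U) :
    incR r (g • s) (g • t) = incR r s t := by
  unfold incR
  by_cases h : s ⊆ t ∧ #t = #s + 1
  · rw [if_pos h, if_pos (by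
      rw [smul_finset_subset_smul_finset_iff, card_smul_finset, card_smul_finset]
      exact h), ← smul_finset_sdiff, smul_finset_def (s := t \ s),
      prod_image (fun a _ b _ hab => MulAction.injective g hab)]
    exact prod_congr rfl fun v _ => sgR_smul hr g s v
  · rw [if_neg h, if_neg (by
      rw [smul_finset_subset_smul_finset_iff, card_smul_finset, card_smul_finset]
      exact h)]

theorem incR_insert {s : Finset U} {v : U} (hv : v ∉ s) : incR r s (insert v s) = sgR r s v := by
  unfold incR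
  rw [if_pos ⟨subset_insert v s, card_insert_of_notMem hv⟩]
  have h1 : insert v s \ s = {v} := by
    ext u
    simp only [mem_sdiff, mem_insert, mem_singleton]
    constructor
    · rintro ⟨h | h, h'⟩
      · exact h
      · exact absurd h h'
    · rintro rfl
      exact ⟨Or.inl rfl, hv⟩
  rw [h1, prod_singleton]

private theorem edm_sg {s : Finset U} {u v : U} (hu : u ∉ s) :
    (r u v → sgR r (insert u s) v = -sgR r s v) ∧ (¬ r u v → sgR r (insert u s) v = sgR r s v) := by
  classical
  unfold sgR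
  constructor
  · intro h
    have h1 : (insert u s).filter (fun w => r w v) = insert u (s.filter fun w => r w v) := by
      rw [filter_insert, if_pos h]
    rw [h1, card_insert_of_notMem (fun h2 => hu (mem_filter.1 h2).1), pow_succ]
    ring
  · intro h
    have h1 : (insert u s).filter (fun w => r w v) = s.filter fun w => r w v := by
      rw [filter_insert, if_neg h]
    rw [h1]

/-- the two ways to insert two vertices have opposite signs -/
theorem sgR_comm (hT : Tot X r) {s : Finset U} {u v : U} (hu : u ∉ s) (hv : v ∉ s) (huv : u ≠ v)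
    (h : insert u (insert v s) ∈ X) : sgR r s u * sgR r (insert u s) v = -(sgR r s v * sgR r (insert v s) u) := by
  have h1 := (hT _ h u (mem_insert_self _ _) v (mem_insert_of_mem (mem_insert_self _ _)) huv).1
  rcases h1 with ⟨h1, h2⟩ | ⟨h1, h2⟩
  · rw [(edm_sg hu).1 h1, (edm_sg hv).2 h2]
    ring
  · rw [(edm_sg hu).2 h2, (edm_sg hv).1 h1]
    ring

private theorem edm_inc {s t : Finset U} (h : incR r s t ≠ 0) : s ⊆ t ∧ #t = #s + 1 := by
  by_contra h1
  apply h
  unfold incR
  rw [if_neg h1]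

theorem mtx_coeff (hX : FreeX H X) {a b : ℕ} {R : Fin a → Finset U} {R' : Fin b → Finset U} (hR : ∀ l, R l ∈ X)
    (hR' : ∀ j, R' j ∈ X) (l : Fin a) (j : Fin b) (h : H) : (mtx H r R R' l j).coeff h = incR r (R l) (h • R' j) := by
  classical
  have hfin := finite_sub_smul hX (hR l) (hR' j)
  have h1 : mtx H r R R' l j = ∑ g ∈ hfin.toFinset, MonoidAlgebra.single g (incR r (R l) (g • R' j)) := by
    unfold mtx
    refine finsum_eq_sum_of_support_subset _ ?_
    intro g hg
    rw [Set.Finite.coe_toFinset]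
    by_contra hc
    apply hg
    have h2 : incR r (R l) (g • R' j) = 0 := by
      by_contra h3
      exact hc (edm_inc h3).1
    show MonoidAlgebra.single g (incR r (R l) (g • R' j)) = 0
    rw [h2, MonoidAlgebra.single_zero]
  rw [h1, MonoidAlgebra.coeff_sum, Finsupp.finsetSum_apply]
  by_cases hh : h ∈ hfin.toFinset
  · rw [sum_eq_single h]
    · rw [MonoidAlgebra.coeff_single, Finsupp.single_eq_same]
    · intro g _ hg
      rw [MonoidAlgebra.coeff_single, Finsupp.single_eq_of_ne (Ne.symm hg)]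
    · intro h'
      exact absurd hh h'
  · have h2 : incR r (R l) (h • R' j) = 0 := by
      by_contra h3
      exact hh (hfin.mem_toFinset.2 (edm_inc h3).1)
    rw [h2]
    refine sum_eq_zero fun g hg => ?_
    rw [MonoidAlgebra.coeff_single, Finsupp.single_eq_of_ne]
    rintro rfl
    exact hh hg

/-- the sum over the intermediate simplices -/
private theorem edm_zero (hT : Tot X r) {k : ℕ} {s T : Finset U} (hTX : T ∈ X) (hs : #s = k) (hTk : #T = k + 2) :
    ∑ t ∈ T.powersetCard (k + 1), incR r s t * incR r t T = 0 := by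
  by_cases hsT : s ⊆ T
  · have h1 : #(T \ s) = 2 := by
      rw [card_sdiff_of_subset hsT, hs, hTk]
      omega
    obtain ⟨u, v, huv, h2⟩ := card_eq_two.1 h1
    have hu : u ∈ T \ s := by
      rw [h2]
      exact mem_insert_self _ _
    have hv : v ∈ T \ s := by
      rw [h2]
      exact mem_insert_of_mem (mem_singleton_self _)
    rw [mem_sdiff] at hu hv
    have hT1 : insert u (insert v s) = T := by
      ext w
      rw [mem_insert, mem_insert]
      constructor
      · rintro (rfl | rfl | h)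
        · exact hu.1
        · exact hv.1
        · exact hsT h
      · intro hw
        by_cases h3 : w ∈ s
        · exact Or.inr (Or.inr h3)
        · have h4 : w ∈ T \ s := mem_sdiff.2 ⟨hw, h3⟩
          rw [h2, mem_insert, mem_singleton] at h4
          rcases h4 with h4 | h4
          · exact Or.inl h4
          · exact Or.inr (Or.inl h4)
    have hT2 : insert v (insert u s) = T := by
      rw [insert_comm]
      exact hT1
    have hne : insert u s ≠ insert v s := by
      intro h
      have h3 : u ∈ insert v s := by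
        rw [← h]
        exact mem_insert_self _ _
      rw [mem_insert] at h3
      rcases h3 with h3 | h3
      · exact huv h3
      · exact hu.2 h3
    have hsub : ({insert u s, insert v s} : Finset (Finset U)) ⊆ T.powersetCard (k + 1) := by
      intro t ht
      rw [mem_insert, mem_singleton] at ht
      rw [mem_powersetCard]
      rcases ht with rfl | rfl
      · exact ⟨insert_subset hu.1 hsT, by rw [card_insert_of_notMem hu.2, hs]⟩
      · exact ⟨insert_subset hv.1 hsT, by rw [card_insert_of_notMem hv.2, hs]⟩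
    rw [← sum_subset hsub]
    · rw [sum_pair hne, incR_insert hu.2, incR_insert hv.2]
      have h5 : incR r (insert u s) T = sgR r (insert u s) v := by
        rw [← hT2]
        refine incR_insert ?_
        rw [mem_insert]
        rintro (h | h)
        · exact huv h.symm
        · exact hv.2 h
      have h6 : incR r (insert v s) T = sgR r (insert v s) u := by
        rw [← hT1]
        refine incR_insert ?_
        rw [mem_insert]
        rintro (h | h)
        · exact huv h
        · exact hu.2 h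
      rw [h5, h6, sgR_comm hT hu.2 hv.2 huv (by rw [hT1]; exact hTX)]
      ring
    · intro t ht htn
      by_contra h7
      have h8 : incR r s t ≠ 0 := fun h => h7 (by rw [h, zero_mul])
      obtain ⟨h9, h10⟩ := edm_inc h8
      apply htn
      rw [mem_powersetCard] at ht
      have h11 : #(t \ s) = 1 := by
        rw [card_sdiff_of_subset h9, h10]
        omega
      obtain ⟨w, hw⟩ := card_eq_one.1 h11
      have hw1 : w ∈ t \ s := by
        rw [hw]
        exact mem_singleton_self _
      have ht1 : t = insert w s := by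
        ext x
        rw [mem_insert]
        constructor
        · intro hx
          by_cases h12 : x ∈ s
          · exact Or.inr h12
          · have h13 : x ∈ t \ s := mem_sdiff.2 ⟨hx, h12⟩
            rw [hw, mem_singleton] at h13
            exact Or.inl h13
        · rintro (rfl | h12)
          · exact (mem_sdiff.1 hw1).1
          · exact h9 h12
      have hw2 : w ∈ T \ s := mem_sdiff.2 ⟨ht.1 (mem_sdiff.1 hw1).1, (mem_sdiff.1 hw1).2⟩
      rw [h2, mem_insert, mem_singleton] at hw2
      rw [mem_insert, mem_singleton, ht1]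
      rcases hw2 with rfl | rfl
      · exact Or.inl rfl
      · exact Or.inr rfl
  · refine sum_eq_zero fun t _ => ?_
    by_contra h
    have h1 : incR r s t ≠ 0 := fun h' => h (by rw [h', zero_mul])
    have h2 : incR r t T ≠ 0 := fun h' => h (by rw [h', mul_zero])
    exact hsT ((edm_inc h1).1.trans (edm_inc h2).1)

theorem mtx_mul (hX : FreeX H X) (hT : Tot X r) (hr : ∀ (g : H) (u v : U), r (g • u) (g • v) ↔ r u v) {k a b c : ℕ}
    {R : Fin a → Finset U} {R' : Fin b → Finset U} {R'' : Fin c → Finset U} (hR : Rps H X k R) (hR' : Rps H X (k + 1) R')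
    (hR'' : Rps H X (k + 2) R'') : mtx H r R R' * mtx H r R' R'' = 0 := by
  classical
  refine Matrix.ext fun l m => ?_
  rw [Matrix.mul_apply, Matrix.zero_apply]
  refine MonoidAlgebra.ext (Finsupp.ext fun h => ?_)
  rw [MonoidAlgebra.coeff_sum, Finsupp.finsetSum_apply]
  have hTX : h • R'' m ∈ X := hX.mem h _ (hR''.mem m)
  have hTk : #(h • R'' m) = k + 2 := by
    rw [card_smul_finset]
    exact hR''.card m
  have h1 : ∀ j, (mtx H r R R' l j * mtx H r R' R'' j m).coeff h =
      ∑ g ∈ (mtx H r R R' l j).coeff.support, incR r (R l) (g • R' j) * incR r (g • R' j) (h • R'' m) := by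
    intro j
    rw [MonoidAlgebra.coeff_mul_apply_left, Finsupp.sum]
    refine sum_congr rfl fun g _ => ?_
    rw [mtx_coeff hX hR.mem hR'.mem, mtx_coeff hX hR'.mem hR''.mem, mul_smul,
      ← incR_smul hr g (R' j) (g⁻¹ • h • R'' m), smul_inv_smul]
  rw [sum_congr rfl fun j _ => h1 j, sum_sigma']
  refine Eq.trans ?_ (edm_zero hT hTX (hR.card l) hTk)
  refine sum_bij_ne_zero (fun x _ _ => x.2 • R' x.1) ?_ ?_ ?_ ?_
  · rintro ⟨j, g⟩ _ hne
    have h2 : incR r (g • R' j) (h • R'' m) ≠ 0 := fun h' => hne (by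
      show incR r (R l) (g • R' j) * incR r (g • R' j) (h • R'' m) = 0
      rw [h', mul_zero])
    rw [mem_powersetCard, card_smul_finset]
    exact ⟨(edm_inc h2).1, hR'.card j⟩
  · rintro ⟨j, g⟩ _ _ ⟨j', g'⟩ _ _ he
    obtain ⟨h2, h3⟩ := hR'.uniq g g' j j' he
    rw [h2, h3]
  · intro t ht hne
    have ht' := mem_powersetCard.1 ht
    have htX : t ∈ X := by
      refine hX.down _ hTX t ht'.1 ?_
      rw [← card_pos, ht'.2]
      exact Nat.succ_pos k
    obtain ⟨g, j, rfl⟩ := hR'.ex t htX ht'.2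
    have h2 : incR r (R l) (g • R' j) ≠ 0 := fun h' => hne (by rw [h', zero_mul])
    refine ⟨⟨j, g⟩, ?_, hne, rfl⟩
    rw [mem_sigma]
    refine ⟨mem_univ _, ?_⟩
    rw [Finsupp.mem_support_iff]
    show (mtx H r R R' l j).coeff g ≠ 0
    rw [mtx_coeff hX hR.mem hR'.mem]
    exact h2
  · intro x _ _
    rfl

end Pool.Agent.S11

end

section

/-!
# Project S11, block END: harmonic chains as functions on the group

PROOF.  `x j g = z (g • R' j)`.  Cycle equation at `g • R l`: the simplices which contain `g • R l` are `(g * h) • R' j`, with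
`incR (R l) (h • R' j) = incR (g • R l) ((g * h) • R' j)`.  Cocycle equation at `g • R'' m`: the faces are `(g * h⁻¹) • R' j`.
-/

set_option autoImplicit false
set_option linter.unusedSectionVars false

open Finset Pointwise

namespace Pool.Agent.S11

variable {U H : Type} [DecidableEq U] [Group H] [MulAction H U] {X : Set (Finset U)} {r : U → U → Prop}

/-- a non-zero incidence number -/
private theorem incR_ne {s t : Finset U} (h : incR r s t ≠ 0) : ∃ v, v ∉ s ∧ t = insert v s := by
  unfold incR at h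
  by_cases h1 : s ⊆ t ∧ t.card = s.card + 1
  · have h2 : (t \ s).card = 1 := by
      rw [Finset.card_sdiff_of_subset h1.1, h1.2]
      omega
    obtain ⟨v, hv⟩ := Finset.card_eq_one.1 h2
    refine ⟨v, fun hvs => ?_, ?_⟩
    · have h3 : v ∈ t \ s := by rw [hv]; exact Finset.mem_singleton_self v
      exact (Finset.mem_sdiff.1 h3).2 hvs
    · rw [Finset.insert_eq, ← hv, Finset.sdiff_union_of_subset h1.1]
  · rw [if_neg h1] at h
    exact absurd rfl h

private theorem sgR_ne (s : Finset U) (v : U) : sgR r s v ≠ 0 := by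
  unfold sgR
  exact pow_ne_zero _ (by norm_num)

private theorem insert_inj' {s : Finset U} {v w : U} (hv : v ∉ s) (h : insert v s = insert w s) : v = w := by
  have h1 : v ∈ insert w s := h ▸ Finset.mem_insert_self v s
  rcases Finset.mem_insert.1 h1 with h2 | h2
  · exact h2
  · exact absurd h2 hv

theorem harm_zero (hX : FreeX H X) (hT : Tot X r) (hr : ∀ (g : H) (u v : U), r (g • u) (g • v) ↔ r u v) {k a b c : ℕ}
    {R : Fin a → Finset U} {R' : Fin b → Finset U} {R'' : Fin c → Finset U} (hR : Rps H X k R) (hR' : Rps H X (k + 1) R')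
    (hR'' : Rps H X (k + 2) R'')
    (h0 : ∀ x : Fin b → H → ℝ, (∀ j, Summable fun h => x j h ^ 2) →
      (∀ (l : Fin a) (g : H), ∑ j, ∑ h ∈ (mtx H r R R' l j).coeff.support, ((mtx H r R R' l j).coeff h : ℝ) * x j (g * h) = 0) →
      (∀ (l : Fin c) (g : H), ∑ j, ∑ h ∈ (mtx H r R' R'' j l).coeff.support, ((mtx H r R' R'' j l).coeff h : ℝ) * x j (g * h⁻¹) = 0) →
      ∀ j h, x j h = 0)
    (z : Finset U → ℝ) (hz : IsL2Ch X (k + 1) z) (hz0 : ∀ s ∈ X, bdR r z s = 0) (hz1 : IsCoc X r z) : z = 0 := by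
  classical
  have key : ∀ (j : Fin b) (h : H), z (h • R' j) = 0 := by
    refine h0 (fun j g => z (g • R' j)) (fun j => ?_) (fun l g => ?_) (fun l g => ?_)
    · have hinj : Function.Injective fun h : H => h • R' j := fun h h' hh => (hR'.uniq h h' j j hh).1
      exact hz.l2.comp_injective hinj
    · -- the cycle equation at `g • R l`
      set s : Finset U := g • R l with hs
      have hsX : s ∈ X := hX.mem g _ (hR.mem l)
      have hcs : s.card = k := by rw [hs, Finset.card_smul_finset, hR.card]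
      set A := mtx H r R R' with hA
      have hco : ∀ j h, (A l j).coeff h = incR r s ((g * h) • R' j) := by
        intro j h
        rw [hA, mtx_coeff hX hR.mem hR'.mem, hs, mul_smul, incR_smul hr]
      let P : Finset ((_ : Fin b) × H) := Finset.univ.sigma fun j => (A l j).coeff.support
      let τ : ((_ : Fin b) × H) → Finset U := fun y => (g * y.2) • R' y.1
      have hτ : Function.Injective τ := by
        rintro ⟨j, h⟩ ⟨j', h'⟩ hh
        obtain ⟨h1, h2⟩ := hR'.uniq _ _ _ _ hh
        have h3 : h = h' := mul_left_cancel h1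
        subst h2
        subst h3
        rfl
      have hVf : {v | v ∉ s ∧ insert v s ∈ X}.Finite := by
        refine Set.Finite.of_finite_image (f := fun v => insert v s)
          ((cofaces_finite hX hsX).subset ?_) ?_
        · rintro _ ⟨v, hv, rfl⟩
          exact ⟨hv.2, Finset.subset_insert _ _⟩
        · intro v hv w hw h
          exact insert_inj' hv.1 h
      let Vs : Finset U := hVf.toFinset
      have hVs : ∀ v, v ∈ Vs ↔ v ∉ s ∧ insert v s ∈ X := fun v => by
        simp [Vs]
      have himg : P.image τ = Vs.image fun v => insert v s := by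
        ext t
        constructor
        · intro ht
          obtain ⟨⟨j, h⟩, hy, rfl⟩ := Finset.mem_image.1 ht
          have h1 : (A l j).coeff h ≠ 0 := Finsupp.mem_support_iff.1 (Finset.mem_sigma.1 hy).2
          rw [hco] at h1
          obtain ⟨v, hv1, hv2⟩ := incR_ne h1
          refine Finset.mem_image.2 ⟨v, (hVs v).2 ⟨hv1, ?_⟩, hv2.symm⟩
          rw [← hv2]
          exact hX.mem _ _ (hR'.mem j)
        · intro ht
          obtain ⟨v, hv, rfl⟩ := Finset.mem_image.1 ht
          obtain ⟨hv1, hv2⟩ := (hVs v).1 hv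
          obtain ⟨g', j, hg'⟩ := hR'.ex _ hv2 (by rw [Finset.card_insert_of_notMem hv1, hcs])
          refine Finset.mem_image.2 ⟨⟨j, g⁻¹ * g'⟩, Finset.mem_sigma.2 ⟨Finset.mem_univ _, ?_⟩, ?_⟩
          · refine Finsupp.mem_support_iff.2 ?_
            rw [hco, mul_inv_cancel_left, ← hg', incR_insert hv1]
            exact sgR_ne _ _
          · change (g * (g⁻¹ * g')) • R' j = insert v s
            rw [mul_inv_cancel_left, hg']
      have h1 : ∑ j, ∑ h ∈ (A l j).coeff.support, ((A l j).coeff h : ℝ) * z ((g * h) • R' j) =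
          ∑ t ∈ P.image τ, (incR r s t : ℝ) * z t := by
        rw [Finset.sum_image fun x _ y _ hxy => hτ hxy, Finset.sum_sigma]
        refine Finset.sum_congr rfl fun j _ => Finset.sum_congr rfl fun h _ => ?_
        rw [hco]
      have h2 : bdR r z s = ∑ t ∈ Vs.image (fun v => insert v s), (incR r s t : ℝ) * z t := by
        rw [Finset.sum_image fun v hv w hw hvw => insert_inj' ((hVs v).1 hv).1 hvw]
        unfold bdR
        rw [finsum_mem_eq_sum_of_inter_support_eq _ (t := Vs.filter fun v => (sgR r s v : ℝ) * z (insert v s) ≠ 0) ?_]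
        · rw [Finset.sum_filter_ne_zero]
          refine Finset.sum_congr rfl fun v hv => ?_
          rw [incR_insert ((hVs v).1 hv).1]
        · ext v
          simp only [Set.mem_inter_iff, Set.mem_ofPred_eq, Function.mem_support, Finset.coe_filter, hVs]
          constructor
          · rintro ⟨h3, h4⟩
            exact ⟨⟨⟨h3, (hz.supp _ (right_ne_zero_of_mul h4)).1⟩, h4⟩, h4⟩
          · rintro ⟨⟨⟨h3, h4⟩, h5⟩, h6⟩
            exact ⟨h3, h5⟩
      change ∑ j, ∑ h ∈ (A l j).coeff.support, ((A l j).coeff h : ℝ) * z ((g * h) • R' j) = 0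
      rw [h1, himg, ← h2]
      exact hz0 s hsX
    · -- the cocycle equation at `g • R'' l`
      set t : Finset U := g • R'' l with ht
      have htX : t ∈ X := hX.mem g _ (hR''.mem l)
      have hct : t.card = k + 2 := by rw [ht, Finset.card_smul_finset, hR''.card]
      set A := mtx H r R' R'' with hA
      have hco : ∀ j h, (A j l).coeff h = incR r ((g * h⁻¹) • R' j) t := by
        intro j h
        rw [hA, mtx_coeff hX hR'.mem hR''.mem, ht]
        have h1 : g • R'' l = (g * h⁻¹) • (h • R'' l) := by rw [← mul_smul, inv_mul_cancel_right]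
        rw [h1, incR_smul hr]
      let P : Finset ((_ : Fin b) × H) := Finset.univ.sigma fun j => (A j l).coeff.support
      let τ : ((_ : Fin b) × H) → Finset U := fun y => (g * y.2⁻¹) • R' y.1
      have hτ : Function.Injective τ := by
        rintro ⟨j, h⟩ ⟨j', h'⟩ hh
        obtain ⟨h1, h2⟩ := hR'.uniq _ _ _ _ hh
        have h3 : h = h' := inv_injective (mul_left_cancel h1)
        subst h2
        subst h3
        rfl
      have himg : P.image τ = t.image fun v => t.erase v := by
        ext s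
        constructor
        · intro hs
          obtain ⟨⟨j, h⟩, hy, rfl⟩ := Finset.mem_image.1 hs
          have h1 : (A j l).coeff h ≠ 0 := Finsupp.mem_support_iff.1 (Finset.mem_sigma.1 hy).2
          rw [hco] at h1
          obtain ⟨v, hv1, hv2⟩ := incR_ne h1
          refine Finset.mem_image.2 ⟨v, ?_, ?_⟩
          · rw [hv2]
            exact Finset.mem_insert_self _ _
          · change t.erase v = (g * h⁻¹) • R' j
            rw [hv2, Finset.erase_insert hv1]
        · intro hs
          obtain ⟨v, hv, rfl⟩ := Finset.mem_image.1 hs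
          have h1 : (t.erase v).card = k + 1 := by
            rw [Finset.card_erase_of_mem hv, hct]
            rfl
          have h2 : t.erase v ∈ X := hX.down t htX _ (Finset.erase_subset _ _) (Finset.card_pos.1 (by omega))
          obtain ⟨g', j, hg'⟩ := hR'.ex _ h2 h1
          refine Finset.mem_image.2 ⟨⟨j, g'⁻¹ * g⟩, Finset.mem_sigma.2 ⟨Finset.mem_univ _, ?_⟩, ?_⟩
          · refine Finsupp.mem_support_iff.2 ?_
            rw [hco]
            have h3 : g * (g'⁻¹ * g)⁻¹ = g' := by group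
            rw [h3, ← hg']
            have h4 : incR r (t.erase v) t = sgR r (t.erase v) v := by
              conv_lhs => rw [← Finset.insert_erase hv]
              rw [Finset.erase_insert (Finset.notMem_erase v t), incR_insert (Finset.notMem_erase v t)]
            rw [h4]
            exact sgR_ne _ _
          · change (g * (g'⁻¹ * g)⁻¹) • R' j = t.erase v
            have h3 : g * (g'⁻¹ * g)⁻¹ = g' := by group
            rw [h3, hg']
      have h1 : ∑ j, ∑ h ∈ (A j l).coeff.support, ((A j l).coeff h : ℝ) * z ((g * h⁻¹) • R' j) =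
          ∑ s ∈ P.image τ, (incR r s t : ℝ) * z s := by
        rw [Finset.sum_image fun x _ y _ hxy => hτ hxy, Finset.sum_sigma]
        refine Finset.sum_congr rfl fun j _ => Finset.sum_congr rfl fun h _ => ?_
        rw [hco]
      have h2 : ∑ s ∈ t.image (fun v => t.erase v), (incR r s t : ℝ) * z s =
          ∑ v ∈ t, (sgR r (t.erase v) v : ℝ) * z (t.erase v) := by
        rw [Finset.sum_image ?_]
        · refine Finset.sum_congr rfl fun v hv => ?_
          congr 2
          conv_lhs => rw [← Finset.insert_erase hv]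
          rw [Finset.erase_insert (Finset.notMem_erase v t), incR_insert (Finset.notMem_erase v t)]
        · intro v hv w hw hvw
          by_contra hne
          have h3 : w ∈ t.erase v := Finset.mem_erase.2 ⟨fun h => hne h.symm, hw⟩
          have h4 : t.erase v = t.erase w := hvw
          rw [h4] at h3
          exact Finset.notMem_erase w t h3
      change ∑ j, ∑ h ∈ (A j l).coeff.support, ((A j l).coeff h : ℝ) * z ((g * h⁻¹) • R' j) = 0
      rw [h1, himg, h2]
      exact hz1 t htX
  funext s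
  by_contra hne
  obtain ⟨h1, h2⟩ := hz.supp s hne
  obtain ⟨g, j, rfl⟩ := hR'.ex s h1 h2
  exact hne (key j g)

end Pool.Agent.S11

end

section

/-!
# Project S11, bridge: flat representations give exact complexes of equivariant cochains

`Sx K B q` = the simplices with `q` vertices; the compactly supported cochains are `Sx K B q →₀ ZMod 2`; `phi` maps
`(Sx K B q →₀ ZMod 2) ⊗ W` onto the equivariant cochains with finite support modulo the group, and its kernel is the
kernel of the coinvariants.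
-/

set_option autoImplicit false
set_option linter.unusedSectionVars false

open Finset Pointwise
open scoped TensorProduct

noncomputable section

namespace Pool.Agent.S11

variable {Γ U : Type} [Group Γ] [DecidableEq U] [MulAction Γ U] {K B : Set (Finset U)}
  {W : Type} [AddCommGroup W] [Module (ZMod 2) W]

/-- the simplices with `q` vertices -/
abbrev Sx (K B : Set (Finset U)) (q : ℕ) : Type := {s : Finset U // s ∈ K ∧ s ∉ B ∧ s.card = q}

theorem SCx.smul_mem (h : SCx Γ K B) (g : Γ) {q : ℕ} {s : Finset U} (hs : s ∈ K ∧ s ∉ B ∧ s.card = q) :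
    g • s ∈ K ∧ g • s ∉ B ∧ (g • s).card = q :=
  ⟨h.K_mem g s hs.1, fun h1 => hs.2.1 ((memB_iff_smul h g s).1 h1), by rw [card_smul_finset]; exact hs.2.2⟩

/-- the action on the simplices -/
def smx (h : SCx Γ K B) (q : ℕ) (g : Γ) (s : Sx K B q) : Sx K B q := ⟨g • s.1, h.smul_mem g s.2⟩

/-- the compactly supported cochains as a representation -/
def cRep (h : SCx Γ K B) (q : ℕ) : Representation (ZMod 2) Γ (Sx K B q →₀ ZMod 2) where
  toFun g := Finsupp.lmapDomain (ZMod 2) (ZMod 2) (smx h q g)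
  map_one' := by
    have h1 : smx h q (1 : Γ) = id := funext fun s => Subtype.ext (one_smul Γ s.1)
    rw [h1]
    exact Finsupp.lmapDomain_id _ _
  map_mul' g g' := by
    have h1 : smx h q (g * g') = smx h q g ∘ smx h q g' := funext fun s => Subtype.ext (mul_smul g g' s.1)
    rw [h1]
    exact Finsupp.lmapDomain_comp _ _ _ _

theorem cRep_single (h : SCx Γ K B) (q : ℕ) (g : Γ) (s : Sx K B q) (a : ZMod 2) :
    cRep h q g (Finsupp.single s a) = Finsupp.single (smx h q g s) a := Finsupp.mapDomain_single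

open Classical in
/-- the equivariant cochain with the value `w` at `s` -/
def orb (τ : Representation (ZMod 2) Γ W) (s : Finset U) : W →ₗ[ZMod 2] (Finset U → W) where
  toFun w t := if h : ∃ g : Γ, g • s = t then τ h.choose w else 0
  map_add' u w := by
    funext t
    rw [Pi.add_apply]
    split_ifs
    · exact map_add _ _ _
    · exact (add_zero _).symm
  map_smul' a w := by
    funext t
    rw [Pi.smul_apply]
    split_ifs
    · exact map_smul _ _ _
    · exact (smul_zero _).symm

theorem orb_of (h : SCx Γ K B) (τ : Representation (ZMod 2) Γ W) {s : Finset U} (hs : s ∈ K) (g : Γ) (w : W) :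
    orb τ s w (g • s) = τ g w := by
  have h1 : ∃ g' : Γ, g' • s = g • s := ⟨g, rfl⟩
  simp only [orb, LinearMap.coe_mk, AddHom.coe_mk]
  rw [dif_pos h1]
  have h2 := h1.choose_spec
  have h3 : g⁻¹ * h1.choose = 1 := by
    refine h.free _ s hs ?_
    rw [mul_smul, h2, inv_smul_smul]
  rw [← inv_mul_eq_one.1 h3]

theorem orb_not (τ : Representation (ZMod 2) Γ W) {s t : Finset U} (hn : ¬ ∃ g : Γ, g • s = t) (w : W) :
    orb τ s w t = 0 := by
  simp only [orb, LinearMap.coe_mk, AddHom.coe_mk]
  rw [dif_neg hn]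

open Classical in
theorem orb_sum (h : SCx Γ K B) (τ : Representation (ZMod 2) Γ W) {s : Finset U} (hs : s ∈ K) (w : W) {t : Finset U}
    {F : Finset Γ} (hF : ∀ g : Γ, g • s = t → g ∈ F) : orb τ s w t = ∑ g ∈ F, if g • s = t then τ g w else 0 := by
  by_cases h1 : ∃ g : Γ, g • s = t
  · obtain ⟨g, rfl⟩ := h1
    rw [orb_of h τ hs, sum_eq_single g]
    · rw [if_pos rfl]
    · intro g' _ hg'
      rw [if_neg]
      intro h2
      apply hg'
      have h3 : g⁻¹ * g' = 1 := by
        refine h.free _ s hs ?_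
        rw [mul_smul, h2, inv_smul_smul]
      exact (inv_mul_eq_one.1 h3).symm
    · intro h2
      exact absurd (hF g rfl) h2
  · rw [orb_not τ h1]
    symm
    refine sum_eq_zero fun g _ => if_neg fun h2 => h1 ⟨g, h2⟩

theorem eqC_orb (h : SCx Γ K B) (τ : Representation (ZMod 2) Γ W) {q : ℕ} (s : Sx K B q) (w : W) :
    EqC K B τ q (orb τ s.1 w) where
  supp := by
    intro t ht
    by_cases h1 : ∃ g : Γ, g • s.1 = t
    · obtain ⟨g, rfl⟩ := h1
      exact h.smul_mem g s.2
    · exact absurd (orb_not τ h1 w) ht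
  eqv := by
    intro k t
    by_cases h1 : ∃ g : Γ, g • s.1 = t
    · obtain ⟨g, rfl⟩ := h1
      rw [← mul_smul, orb_of h τ s.2.1, orb_of h τ s.2.1, map_mul]
      rfl
    · rw [orb_not τ h1, map_zero]
      refine orb_not τ (fun ⟨g, hg⟩ => h1 ⟨k⁻¹ * g, ?_⟩) w
      rw [mul_smul, hg, inv_smul_smul]
  fin := by
    refine ⟨{s.1}, fun t ht => ?_⟩
    by_cases h1 : ∃ g : Γ, g • s.1 = t
    · obtain ⟨g, rfl⟩ := h1
      exact ⟨g⁻¹, mem_singleton.2 (inv_smul_smul g s.1)⟩
    · exact absurd (orb_not τ h1 w) ht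

/-- the map to the equivariant cochains -/
def phi (K B : Set (Finset U)) (τ : Representation (ZMod 2) Γ W) (q : ℕ) : (Sx K B q →₀ W) →ₗ[ZMod 2] (Finset U → W) :=
  Finsupp.lsum (ZMod 2) fun s => orb τ s.1

theorem phi_single (τ : Representation (ZMod 2) Γ W) {q : ℕ} (s : Sx K B q) (w : W) :
    phi K B τ q (Finsupp.single s w) = orb τ s.1 w := by
  unfold phi
  rw [Finsupp.lsum_single]

theorem eqC_phi (h : SCx Γ K B) (τ : Representation (ZMod 2) Γ W) {q : ℕ} (x : Sx K B q →₀ W) :
    EqC K B τ q (phi K B τ q x) := by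
  induction x using Finsupp.induction_linear with
  | zero => rw [map_zero]; exact EqC.zero q
  | add f g hf hg => rw [map_add]; exact hf.add hg
  | single s w => rw [phi_single]; exact eqC_orb h τ s w

/-- representatives of the orbits -/
theorem exists_rep (Γ U : Type) [Group Γ] [DecidableEq U] [MulAction Γ U] :
    ∃ (R : Finset U → Finset U) (γ : Finset U → Γ), (∀ s, γ s • R s = s) ∧ (∀ (g : Γ) s, R (g • s) = R s) ∧ ∀ s, R (R s) = R s := by
  classical
  let R : Finset U → Finset U := fun s => (Quotient.out (s := MulAction.orbitRel Γ (Finset U)) ⟦s⟧)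
  have hr1 : ∀ s, ∃ g : Γ, g • R s = s := by
    intro s
    have h1 : (MulAction.orbitRel Γ (Finset U)).r (R s) s := Quotient.exact (Quotient.out_eq _)
    obtain ⟨g, hg⟩ := MulAction.orbitRel_apply.1 ((MulAction.orbitRel Γ (Finset U)).symm h1)
    exact ⟨g, hg⟩
  have hr2 : ∀ (g : Γ) s, R (g • s) = R s := by
    intro g s
    show Quotient.out _ = Quotient.out _
    congr 1
    exact Quotient.sound (MulAction.orbitRel_apply.2 ⟨g, rfl⟩)
  choose γ hγ using hr1
  refine ⟨R, γ, hγ, hr2, fun s => ?_⟩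
  conv_rhs => rw [← hγ s]
  rw [hr2]

/-- every equivariant cochain is in the image -/
theorem phi_surj (h : SCx Γ K B) (τ : Representation (ZMod 2) Γ W) {q : ℕ} {c : Finset U → W} (hc : EqC K B τ q c) :
    ∃ x, phi K B τ q x = c := by
  classical
  obtain ⟨R, γ, h1, h2, h3⟩ := exists_rep Γ U
  obtain ⟨F, hF⟩ := hc.fin
  refine ⟨∑ r ∈ ((F.image R).filter fun r => c r ≠ 0).attach,
    Finsupp.single ⟨r.1, hc.supp r.1 (mem_filter.1 r.2).2⟩ (c r.1), ?_⟩
  funext t
  rw [map_sum]
  simp only [phi_single]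
  rw [Finset.sum_apply, sum_attach (s := (F.image R).filter fun r => c r ≠ 0) (f := fun r => orb τ r (c r) t)]
  by_cases h0 : c t = 0
  · rw [h0]
    refine sum_eq_zero fun r hr => ?_
    by_cases h4 : ∃ g : Γ, g • r = t
    · obtain ⟨g, rfl⟩ := h4
      rw [orb_of h τ (hc.supp r (mem_filter.1 hr).2).1, ← hc.eqv, h0]
    · exact orb_not τ h4 _
  · obtain ⟨g, hg⟩ := hF t h0
    have h4 : c (R t) ≠ 0 := by
      intro h5
      apply h0
      rw [← h1 t, hc.eqv, h5, map_zero]
    have h5 : R t ∈ (F.image R).filter fun r => c r ≠ 0 := by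
      refine mem_filter.2 ⟨mem_image.2 ⟨g • t, hg, h2 g t⟩, h4⟩
    rw [sum_eq_single (R t)]
    · conv_lhs => rw [← h1 t, h2, h3]
      rw [orb_of h τ (hc.supp _ h4).1, ← hc.eqv, h1]
    · intro r hr hrt
      refine orb_not τ (fun ⟨g', hg'⟩ => hrt ?_) _
      obtain ⟨t', -, ht'⟩ := mem_image.1 (mem_filter.1 hr).1
      rw [← hg', h2, ← ht', h3]
    · intro h6
      exact absurd h5 h6

/-- the kernel of `phi` -/
theorem phi_ker (h : SCx Γ K B) (τ : Representation (ZMod 2) Γ W) {q : ℕ} (x : (Sx K B q →₀ ZMod 2) ⊗[ZMod 2] W)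
    (hx : phi K B τ q (TensorProduct.finsuppScalarLeft (ZMod 2) W (Sx K B q) x) = 0) : x ∈ Kr ((cRep h q).tprod τ) ⊤ := by
  classical
  obtain ⟨R, γ, h1, h2, h3⟩ := exists_rep Γ U
  have hR : ∀ s : Sx K B q, R s.1 ∈ K ∧ R s.1 ∉ B ∧ (R s.1).card = q := by
    intro s
    have h4 := h.smul_mem (γ s.1)⁻¹ s.2
    have h5 : (γ s.1)⁻¹ • s.1 = R s.1 := by rw [inv_smul_eq_iff, h1]
    rwa [h5] at h4
  set e := TensorProduct.finsuppScalarLeft (ZMod 2) W (Sx K B q) with he
  -- the canonical form
  let N : (Sx K B q →₀ W) →ₗ[ZMod 2] (Sx K B q →₀ W) :=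
    Finsupp.lsum (ZMod 2) fun s => (Finsupp.lsingle (⟨R s.1, hR s⟩ : Sx K B q)).comp (τ (γ s.1)⁻¹)
  have hN : ∀ s w, N (Finsupp.single s w) = Finsupp.single (⟨R s.1, hR s⟩ : Sx K B q) (τ (γ s.1)⁻¹ w) := by
    intro s w
    show Finsupp.lsum (ZMod 2) _ (Finsupp.single s w) = _
    rw [Finsupp.lsum_single]
    rfl
  have hτ : ∀ g w, τ g (τ g⁻¹ w) = w := by
    intro g w
    rw [← Module.End.mul_apply, ← map_mul, mul_inv_cancel, map_one]
    rfl
  have h4 : ∀ y, phi K B τ q (N y) = phi K B τ q y := by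
    intro y
    induction y using Finsupp.induction_linear with
    | zero => rw [map_zero]
    | add f g hf hg => rw [map_add, map_add, map_add, hf, hg]
    | single s w =>
      rw [hN, phi_single, phi_single]
      funext t
      by_cases h5 : ∃ g : Γ, g • s.1 = t
      · obtain ⟨g, rfl⟩ := h5
        have h6 : g • s.1 = (g * γ s.1) • R s.1 := by rw [mul_smul, h1]
        rw [orb_of h τ s.2.1, h6]
        show orb τ (R s.1) _ _ = _
        rw [orb_of h τ (hR s).1, map_mul]
        show τ g (τ (γ s.1) (τ (γ s.1)⁻¹ w)) = _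
        rw [hτ]
      · rw [orb_not τ h5]
        refine orb_not τ (fun ⟨g, hg⟩ => h5 ⟨g * (γ s.1)⁻¹, ?_⟩) _
        rw [mul_smul, ← hg, inv_smul_eq_iff.2 (h1 s.1).symm]
  have h5 : ∀ (y : Sx K B q →₀ W) (s : Sx K B q), R s.1 = s.1 → phi K B τ q (N y) s.1 = N y s := by
    intro y s hs
    induction y using Finsupp.induction_linear with
    | zero => rw [map_zero, map_zero]; rfl
    | add f g hf hg => rw [map_add, map_add, Pi.add_apply, hf, hg, Finsupp.add_apply]
    | single s' w =>
      rw [hN, phi_single, Finsupp.single_apply]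
      split_ifs with h6
      · have h7 : R s'.1 = s.1 := congrArg Subtype.val h6
        show orb τ (R s'.1) _ s.1 = _
        have h8 := orb_of h τ (s := R s'.1) (hR s').1 1 (τ (γ s'.1)⁻¹ w)
        rw [one_smul, map_one] at h8
        rw [← h7]
        exact h8
      · refine orb_not τ (fun ⟨g, hg⟩ => h6 (Subtype.ext ?_)) _
        show R s'.1 = s.1
        rw [← hs, ← hg, h2]
        exact (h3 _).symm
  have h6 : ∀ (y : Sx K B q →₀ W) (s : Sx K B q), R s.1 ≠ s.1 → N y s = 0 := by
    intro y s hs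
    induction y using Finsupp.induction_linear with
    | zero => rw [map_zero]; rfl
    | add f g hf hg => rw [map_add, Finsupp.add_apply, hf, hg, add_zero]
    | single s' w =>
      rw [hN, Finsupp.single_apply, if_neg]
      intro h7
      have h8 : R s'.1 = s.1 := congrArg Subtype.val h7
      exact hs (by rw [← h8, h3])
  have h7 : N (e x) = 0 := by
    ext s
    by_cases hs : R s.1 = s.1
    · rw [← h5 _ s hs, h4, hx]
      rfl
    · exact h6 _ s hs
  -- the difference is in the kernel of the coinvariants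
  have h8 : ∀ y, e.symm y - e.symm (N y) ∈ Kr ((cRep h q).tprod τ) ⊤ := by
    intro y
    induction y using Finsupp.induction_linear with
    | zero =>
      have h9 : e.symm (0 : Sx K B q →₀ W) - e.symm (N 0) = 0 := by
        rw [map_zero N]
        exact sub_self _
      rw [h9]
      exact Submodule.zero_mem _
    | add f g hf hg =>
      rw [map_add, map_add, map_add]
      have := Submodule.add_mem _ hf hg
      convert this using 1
      abel
    | single s w =>
      rw [hN, he, TensorProduct.finsuppScalarLeft_symm_apply_single, TensorProduct.finsuppScalarLeft_symm_apply_single]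
      have h9 := sub_mem_Kr ((cRep h q).tprod τ) (J := ⊤) (Subgroup.mem_top (γ s.1))
        ((Finsupp.single (⟨R s.1, hR s⟩ : Sx K B q) (1 : ZMod 2)) ⊗ₜ[ZMod 2] (τ (γ s.1)⁻¹ w))
      rw [Representation.tprod_apply, TensorProduct.map_tmul, cRep_single, hτ] at h9
      have h10 : smx h q (γ s.1) ⟨R s.1, hR s⟩ = s := Subtype.ext (h1 s.1)
      rw [h10] at h9
      exact h9
  have h9 := h8 (e x)
  have h10 : e.symm (N (e x)) = 0 := by rw [h7, map_zero]
  have h11 : e.symm (e x) - e.symm (N (e x)) = x := by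
    rw [h10, LinearEquiv.symm_apply_apply]
    exact sub_zero x
  rwa [h11] at h9

end Pool.Agent.S11

end
end

section

/-!
# Project S11, bridge: the coboundary
-/

set_option autoImplicit false
set_option linter.unusedSectionVars false

open Finset Pointwise
open scoped TensorProduct

noncomputable section

namespace Pool.Agent.S11

open Pool.Agent.H37.TM (Rel IsCob)

variable {Γ U : Type} [Group Γ] [DecidableEq U] [MulAction Γ U] {K B : Set (Finset U)}
  {W : Type} [AddCommGroup W] [Module (ZMod 2) W]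

theorem finite_cof (h : SCx Γ K B) {q : ℕ} (s : Sx K B q) : {t : Sx K B (q + 1) | s.1 ⊆ t.1}.Finite := by
  refine Set.Finite.of_finite_image (f := Subtype.val) ?_ Subtype.val_injective.injOn
  refine (h.locfin s.1 s.2.1).subset ?_
  rintro _ ⟨t, ht, rfl⟩
  exact ⟨t.2.1, ht⟩

/-- the simplices around a simplex -/
def cof (h : SCx Γ K B) {q : ℕ} (s : Sx K B q) : Finset (Sx K B (q + 1)) := (finite_cof h s).toFinset

theorem mem_cof (h : SCx Γ K B) {q : ℕ} {s : Sx K B q} {t : Sx K B (q + 1)} : t ∈ cof h s ↔ s.1 ⊆ t.1 := by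
  unfold cof
  rw [Set.Finite.mem_toFinset]
  rfl

/-- the coboundary of the compactly supported cochains -/
def dC (h : SCx Γ K B) (q : ℕ) : (Sx K B q →₀ ZMod 2) →ₗ[ZMod 2] (Sx K B (q + 1) →₀ ZMod 2) :=
  Finsupp.lsum (ZMod 2) fun s => ∑ t ∈ cof h s, Finsupp.lsingle t

theorem dC_single (h : SCx Γ K B) (q : ℕ) (s : Sx K B q) (a : ZMod 2) :
    dC h q (Finsupp.single s a) = ∑ t ∈ cof h s, Finsupp.single t a := by
  unfold dC
  rw [Finsupp.lsum_single, LinearMap.sum_apply]
  rfl

theorem dC_smul (h : SCx Γ K B) (q : ℕ) (g : Γ) (x : Sx K B q →₀ ZMod 2) :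
    dC h q (cRep h q g x) = cRep h (q + 1) g (dC h q x) := by
  classical
  induction x using Finsupp.induction_linear with
  | zero => simp
  | add f f' hf hf' => rw [map_add, map_add, map_add, map_add, hf, hf']
  | single s a =>
    rw [cRep_single, dC_single, dC_single, map_sum]
    have h1 : cof h (smx h q g s) = (cof h s).image (smx h (q + 1) g) := by
      ext t
      rw [mem_cof, mem_image]
      constructor
      · intro h1
        refine ⟨smx h (q + 1) g⁻¹ t, (mem_cof h).2 ?_, Subtype.ext (smul_inv_smul g t.1)⟩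
        show s.1 ⊆ g⁻¹ • t.1
        have h2 : g⁻¹ • (g • s.1) ⊆ g⁻¹ • t.1 := smul_finset_subset_smul_finset h1
        rwa [inv_smul_smul] at h2
      · rintro ⟨t', h1, rfl⟩
        exact smul_finset_subset_smul_finset ((mem_cof h).1 h1)
    rw [h1, sum_image]
    · exact sum_congr rfl fun t _ => (cRep_single h _ g t a).symm
    · intro a _ b _ hab
      have h2 := congrArg Subtype.val hab
      exact Subtype.ext (smul_left_cancel g h2)

/-- the subsets of a simplex in the orbit of `s` -/
theorem finite_sub (h : SCx Γ K B) {s : Finset U} (hs : s ∈ K) (t : Finset U) : {g : Γ | g • s ⊆ t}.Finite := by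
  refine Set.Finite.of_finite_image (f := fun g => g • s) ?_ ?_
  · refine (t.powerset : Finset (Finset U)).finite_toSet.subset ?_
    rintro _ ⟨g, hg, rfl⟩
    exact mem_coe.2 (mem_powerset.2 hg)
  · intro a _ b _ hab
    have h1 : b⁻¹ * a = 1 := by
      refine h.free _ s hs ?_
      rw [mul_smul]
      have h2 : a • s = b • s := hab
      rw [h2, inv_smul_smul]
    exact (inv_mul_eq_one.1 h1).symm

/-- the coboundary of the elementary equivariant cochain -/
theorem isCb_orb (h : SCx Γ K B) (τ : Representation (ZMod 2) Γ W) {q : ℕ} (s : Sx K B q) (w : W) :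
    IsCb K B (orb τ s.1 w) (∑ t ∈ cof h s, orb τ t.1 w) := by
  classical
  intro t ht ht'
  obtain ⟨F, hF⟩ : ∃ F : Finset Γ, ∀ g, g ∈ F ↔ g • s.1 ⊆ t := ⟨(finite_sub h s.2.1 t).toFinset, fun g => by
    rw [Set.Finite.mem_toFinset]; rfl⟩
  have h1 : ∀ v ∈ t, orb τ s.1 w (t.erase v) = ∑ g ∈ F, if g • s.1 = t.erase v then τ g w else 0 := fun v _ =>
    orb_sum h τ s.2.1 w fun g hg => (hF g).2 (hg ▸ erase_subset v t)
  have h2 : ∀ t' ∈ cof h s, orb τ t'.1 w t = ∑ g ∈ F, if g • t'.1 = t then τ g w else 0 := fun t' ht' =>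
    orb_sum h τ t'.2.1 w fun g hg => (hF g).2 (hg ▸ smul_finset_subset_smul_finset ((mem_cof h).1 ht'))
  have hL : ∑ v ∈ t, orb τ s.1 w (t.erase v) = ∑ g ∈ F, ∑ v ∈ t, if g • s.1 = t.erase v then τ g w else 0 := by
    rw [sum_congr rfl h1, sum_comm]
  have hR : (∑ t' ∈ cof h s, orb τ t'.1 w) t = ∑ g ∈ F, ∑ t' ∈ cof h s, if g • t'.1 = t then τ g w else 0 := by
    rw [Finset.sum_apply, sum_congr rfl h2, sum_comm]
  rw [hL, hR]
  refine sum_congr rfl fun g hg => ?_
  rw [hF] at hg
  rw [← sum_filter, ← sum_filter, sum_const, sum_const]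
  congr 1
  by_cases hc : t.card = q + 1
  · have hgc : (g • s.1).card = q := (h.smul_mem g s.2).2.2
    -- the unique vertex
    obtain ⟨v, hv, hv'⟩ : ∃ v ∈ t, g • s.1 = t.erase v := by
      have h3 : (t \ g • s.1).card = 1 := by
        rw [card_sdiff_of_subset hg, hc, hgc]
        omega
      obtain ⟨v, hv⟩ := card_eq_one.1 h3
      have h4 : v ∈ t \ g • s.1 := by rw [hv]; exact mem_singleton_self v
      rw [mem_sdiff] at h4
      refine ⟨v, h4.1, ?_⟩
      refine eq_of_subset_of_card_le (fun u hu => mem_erase.2 ⟨fun h5 => h4.2 (h5 ▸ hu), hg hu⟩) ?_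
      rw [card_erase_of_mem h4.1, hc, hgc]
      omega
    have h3 : t.filter (fun v => g • s.1 = t.erase v) = {v} := by
      ext u
      rw [mem_filter, mem_singleton]
      constructor
      · rintro ⟨h4, h5⟩
        by_contra h6
        rw [hv'] at h5
        have h7 : u ∈ t.erase v := mem_erase.2 ⟨h6, h4⟩
        rw [h5] at h7
        exact notMem_erase u t h7
      · rintro rfl
        exact ⟨hv, hv'⟩
    have h4 : (cof h s).filter (fun t' => g • t'.1 = t) = {⟨g⁻¹ • t, h.smul_mem g⁻¹ ⟨ht, ht', hc⟩⟩} := by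
      ext t'
      rw [mem_filter, mem_singleton, mem_cof]
      constructor
      · rintro ⟨h4, h5⟩
        refine Subtype.ext ?_
        show t'.1 = g⁻¹ • t
        rw [← h5, inv_smul_smul]
      · rintro rfl
        refine ⟨?_, smul_inv_smul g t⟩
        show s.1 ⊆ g⁻¹ • t
        have h6 : g⁻¹ • (g • s.1) ⊆ g⁻¹ • t := smul_finset_subset_smul_finset hg
        rwa [inv_smul_smul] at h6
    rw [h3, h4, card_singleton, card_singleton]
  · have h3 : t.filter (fun v => g • s.1 = t.erase v) = ∅ := by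
      rw [filter_eq_empty_iff]
      intro v hv h4
      have h5 := (h.smul_mem g s.2).2.2
      rw [h4, card_erase_of_mem hv] at h5
      have := card_pos.2 ⟨v, hv⟩
      omega
    have h4 : (cof h s).filter (fun t' => g • t'.1 = t) = ∅ := by
      rw [filter_eq_empty_iff]
      intro t' _ h4
      have h5 := t'.2.2.2
      rw [← h4, card_smul_finset] at hc
      exact hc h5
    rw [h3, h4]
    rfl

/-- the coboundary of the equivariant cochains -/
theorem isCb_phi (h : SCx Γ K B) (τ : Representation (ZMod 2) Γ W) {q : ℕ} (x : (Sx K B q →₀ ZMod 2) ⊗[ZMod 2] W) :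
    IsCb K B (phi K B τ q (TensorProduct.finsuppScalarLeft (ZMod 2) W (Sx K B q) x))
      (phi K B τ (q + 1) (TensorProduct.finsuppScalarLeft (ZMod 2) W (Sx K B (q + 1)) ((dC h q).rTensor W x))) := by
  induction x using TensorProduct.induction_on with
  | zero =>
    simp only [map_zero]
    intro t _ _
    exact sum_eq_zero fun v _ => rfl
  | add x y hx hy =>
    simp only [map_add]
    exact hx.add hy
  | tmul f w =>
    induction f using Finsupp.induction_linear with
    | zero =>
      simp only [TensorProduct.zero_tmul, map_zero]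
      intro t _ _
      exact sum_eq_zero fun v _ => rfl
    | add f g hf hg =>
      simp only [TensorProduct.add_tmul, map_add]
      exact hf.add hg
    | single s a =>
      rw [LinearMap.rTensor_tmul, dC_single, TensorProduct.sum_tmul, map_sum, map_sum]
      simp only [TensorProduct.finsuppScalarLeft_apply_tmul, Finsupp.sum_single_index, zero_smul, Finsupp.single_zero,
        phi_single]
      exact isCb_orb h τ s (a • w)

/-- extension by zero -/
def ext0 {q : ℕ} (f : Sx K B q → ZMod 2) (s : Finset U) : ZMod 2 := by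
  classical
  exact if hs : s ∈ K ∧ s ∉ B ∧ s.card = q then f ⟨s, hs⟩ else 0

theorem ext0_mem {q : ℕ} (f : Sx K B q → ZMod 2) (s : Sx K B q) : ext0 f s.1 = f s := by
  unfold ext0
  rw [dif_pos s.2]

theorem ext0_supp {q : ℕ} {f : Sx K B q → ZMod 2} {s : Finset U} (h : ext0 f s ≠ 0) : s ∈ K ∧ s ∉ B ∧ s.card = q := by
  unfold ext0 at h
  by_contra h1
  exact h (dif_neg h1)

/-- the coboundary in coordinates -/
theorem dC_apply (h : SCx Γ K B) (q : ℕ) (f : Sx K B q →₀ ZMod 2) (t : Sx K B (q + 1)) :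
    dC h q f t = ∑ v ∈ t.1, ext0 f (t.1.erase v) := by
  classical
  induction f using Finsupp.induction_linear with
  | zero =>
    rw [map_zero]
    symm
    refine sum_eq_zero fun v _ => ?_
    unfold ext0
    split_ifs <;> rfl
  | add f g hf hg =>
    rw [map_add, Finsupp.add_apply, hf, hg, ← sum_add_distrib]
    refine sum_congr rfl fun v _ => ?_
    unfold ext0
    split_ifs <;> simp
  | single s a =>
    rw [dC_single, Finsupp.finsetSum_apply]
    simp only [Finsupp.single_apply]
    rw [← sum_filter, sum_const]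
    have h1 : ∀ v ∈ t.1, ext0 (Finsupp.single s a) (t.1.erase v) = if t.1.erase v = s.1 then a else 0 := by
      intro v _
      unfold ext0
      split_ifs with h1 h2 h2
      · rw [Finsupp.single_apply, if_pos (Subtype.ext h2.symm)]
      · rw [Finsupp.single_apply, if_neg]
        intro h3
        exact h2 (congrArg Subtype.val h3).symm
      · exact absurd (h2 ▸ s.2) h1
      · rfl
    rw [sum_congr rfl h1, ← sum_filter, sum_const]
    congr 1
    by_cases h2 : s.1 ⊆ t.1
    · obtain ⟨v, hv, hv'⟩ : ∃ v ∈ t.1, s.1 = t.1.erase v := by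
        have h3 : (t.1 \ s.1).card = 1 := by
          rw [card_sdiff_of_subset h2, t.2.2.2, s.2.2.2]
          omega
        obtain ⟨v, hv⟩ := card_eq_one.1 h3
        have h4 : v ∈ t.1 \ s.1 := by rw [hv]; exact mem_singleton_self v
        rw [mem_sdiff] at h4
        refine ⟨v, h4.1, ?_⟩
        refine eq_of_subset_of_card_le (fun u hu => mem_erase.2 ⟨fun h5 => h4.2 (h5 ▸ hu), h2 hu⟩) ?_
        rw [card_erase_of_mem h4.1, t.2.2.2, s.2.2.2]
        omega
      have h3 : (cof h s).filter (fun t' => t' = t) = {t} := by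
        ext t'
        rw [mem_filter, mem_singleton, mem_cof]
        exact ⟨fun h => h.2, fun h => ⟨h ▸ h2, h⟩⟩
      have h4 : t.1.filter (fun v => t.1.erase v = s.1) = {v} := by
        ext u
        rw [mem_filter, mem_singleton]
        constructor
        · rintro ⟨h4, h5⟩
          by_contra h6
          have h7 : u ∈ t.1.erase v := mem_erase.2 ⟨h6, h4⟩
          rw [← hv', ← h5] at h7
          exact notMem_erase u _ h7
        · rintro rfl
          exact ⟨hv, hv'.symm⟩
      rw [h3, h4, card_singleton, card_singleton]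
    · have h3 : (cof h s).filter (fun t' => t' = t) = ∅ := by
        rw [filter_eq_empty_iff]
        rintro t' h4 rfl
        exact h2 ((mem_cof h).1 h4)
      have h4 : t.1.filter (fun v => t.1.erase v = s.1) = ∅ := by
        rw [filter_eq_empty_iff]
        intro v _ h4
        exact h2 (h4 ▸ erase_subset v t.1)
      rw [h3, h4]
      rfl

/-- the extension by zero of the coboundary is the coboundary of the extension by zero -/
theorem ext0_dC (h : SCx Γ K B) (q : ℕ) (f : Sx K B q →₀ ZMod 2) {t : Finset U} (ht : t ∈ K) (ht' : t ∉ B) :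
    ∑ v ∈ t, ext0 f (t.erase v) = ext0 (dC h q f) t := by
  by_cases hc : t.card = q + 1
  · have h1 := ext0_mem (dC h q f) ⟨t, ht, ht', hc⟩
    have h2 := dC_apply h q f ⟨t, ht, ht', hc⟩
    exact (h1.trans h2).symm
  · have h1 : ext0 (dC h q f) t = 0 := by
      by_contra h1
      exact hc (ext0_supp h1).2.2
    rw [h1]
    refine sum_eq_zero fun v hv => ?_
    by_contra h2
    have h3 := (ext0_supp h2).2.2
    rw [card_erase_of_mem hv] at h3
    have := card_pos.2 ⟨v, hv⟩
    omega

theorem dC_dC (h : SCx Γ K B) (q : ℕ) (f : Sx K B q →₀ ZMod 2) : dC h (q + 1) (dC h q f) = 0 := by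
  ext t
  rw [dC_apply, Finsupp.coe_zero, Pi.zero_apply]
  have h1 : ∀ v ∈ t.1, ext0 (dC h q f) (t.1.erase v) = ∑ w ∈ t.1.erase v, ext0 f ((t.1.erase v).erase w) := by
    intro v hv
    rcases (t.1.erase v).eq_empty_or_nonempty with h0 | h0
    · rw [h0, sum_empty]
      by_contra h2
      exact absurd (h.ne _ (ext0_supp h2).1) (by simp)
    · have h2 := h.down t.1 t.2.1 _ (erase_subset v t.1) h0
      by_cases h3 : t.1.erase v ∈ B
      · have h4 : ext0 (dC h q f) (t.1.erase v) = 0 := by
          by_contra h4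
          exact (ext0_supp h4).2.1 h3
        rw [h4]
        symm
        refine sum_eq_zero fun w _ => ?_
        by_contra h5
        obtain ⟨h6, h7, -⟩ := ext0_supp h5
        exact h7 (h.bd_down _ h3 _ (erase_subset _ _) (h.ne _ h6))
      · exact (ext0_dC h q f h2 h3).symm
  rw [sum_congr rfl h1, sum_sum_erase]

/-- the compactly supported cochains are exact -/
theorem dC_exact (h : SCx Γ K B) (q : ℕ)
    (hex : ∀ f : Finset U →₀ ZMod 2, Rel K B ∅ (q + 1) f → IsCob K B ∅ f 0 → ∃ g : Finset U →₀ ZMod 2, Rel K B ∅ q g ∧ IsCob K B ∅ g f) :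
    Function.Exact (dC h q) (dC h (q + 1)) := by
  classical
  intro y
  constructor
  · intro hy
    set F : Finset U →₀ ZMod 2 := Finsupp.embDomain ⟨Subtype.val, Subtype.val_injective⟩ y with hF
    have h1 : ∀ s, F s = ext0 y s := by
      intro s
      by_cases hs : s ∈ K ∧ s ∉ B ∧ s.card = q + 1
      · have h2 := ext0_mem y ⟨s, hs⟩
        have h3 := Finsupp.embDomain_apply_self (⟨Subtype.val, Subtype.val_injective⟩ : Sx K B (q + 1) ↪ Finset U) y ⟨s, hs⟩
        exact h3.trans h2.symm
      · have h2 : ext0 y s = 0 := by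
          by_contra h2
          exact hs (ext0_supp h2)
        rw [h2, hF]
        refine Finsupp.embDomain_of_notMem_range _ _ _ ?_
        rintro ⟨s', rfl⟩
        exact hs s'.2
    obtain ⟨g, hg1, hg2⟩ := hex F (fun t ht => by
        rw [h1] at ht
        obtain ⟨h2, h3, h4⟩ := ext0_supp ht
        exact ⟨h2, h3, empty_subset _, h4⟩) (fun t ht ht' _ => by
        rw [sdiff_empty]
        simp only [h1]
        rw [ext0_dC h (q + 1) y ht ht', hy]
        unfold ext0
        split_ifs <;> rfl)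
    refine ⟨g.comapDomain Subtype.val Subtype.val_injective.injOn, ?_⟩
    have h2 : ∀ s, ext0 (g.comapDomain Subtype.val Subtype.val_injective.injOn : Sx K B q →₀ ZMod 2) s = g s := by
      intro s
      by_cases hs : s ∈ K ∧ s ∉ B ∧ s.card = q
      · rw [ext0_mem _ ⟨s, hs⟩]
        rfl
      · have h3 : g s = 0 := by
          by_contra h3
          obtain ⟨h4, h5, -, h6⟩ := hg1 s h3
          exact hs ⟨h4, h5, h6⟩
        rw [h3]
        by_contra h4
        exact hs (ext0_supp h4)
    ext t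
    rw [dC_apply]
    simp only [h2]
    have h3 := hg2 t.1 t.2.1 t.2.2.1 (empty_subset _)
    rw [sdiff_empty] at h3
    rw [h3, h1, ext0_mem]
  · rintro ⟨x, rfl⟩
    exact dC_dC h q x

/-- **Flat representations give exact complexes of equivariant cochains.** -/
theorem exactAt_of_flat (h : SCx Γ K B) {τ : Representation (ZMod 2) Γ W} (hτ : Flat τ) (q : ℕ)
    (hex : ∀ f : Finset U →₀ ZMod 2, Rel K B ∅ (q + 1) f → IsCob K B ∅ f 0 → ∃ g : Finset U →₀ ZMod 2, Rel K B ∅ q g ∧ IsCob K B ∅ g f) :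
    ExactAt K B τ q := by
  intro c hc1 hc2
  obtain ⟨x', hx'⟩ := phi_surj h τ hc1
  set x := (TensorProduct.finsuppScalarLeft (ZMod 2) W (Sx K B (q + 1))).symm x' with hx
  have h1 : TensorProduct.finsuppScalarLeft (ZMod 2) W (Sx K B (q + 1)) x = x' := LinearEquiv.apply_symm_apply _ _
  have h2 : (dC h (q + 1)).rTensor W x ∈ Kr ((cRep h (q + 1 + 1)).tprod τ) ⊤ := by
    refine phi_ker h τ _ ?_
    have h3 := isCb_phi h τ x
    rw [h1, hx'] at h3
    funext t
    by_cases ht : t ∈ K ∧ t ∉ B
    · rw [← h3 t ht.1 ht.2, hc2 t ht.1 ht.2]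
    · by_contra h4
      have h5 := (eqC_phi h τ (TensorProduct.finsuppScalarLeft (ZMod 2) W (Sx K B (q + 1 + 1)) ((dC h (q + 1)).rTensor W x))).supp t h4
      exact ht ⟨h5.1, h5.2.1⟩
  obtain ⟨u, hu⟩ := hτ.exact (ρ := cRep h q) (ρ' := cRep h (q + 1)) (ρ'' := cRep h (q + 1 + 1)) (f := dC h q) (p := dC h (q + 1))
    (fun g x => dC_smul h q g x) (fun g x => dC_smul h (q + 1) g x) (dC_exact h q hex) h2
  have h3 : ∀ y : (Sx K B (q + 1) →₀ ZMod 2) ⊗[ZMod 2] W, y ∈ Kr ((cRep h (q + 1)).tprod τ) ⊤ →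
      phi K B τ (q + 1) (TensorProduct.finsuppScalarLeft (ZMod 2) W (Sx K B (q + 1)) y) = 0 := by
    intro y hy
    unfold Kr at hy
    induction hy using Submodule.span_induction with
    | zero => rw [map_zero, map_zero]
    | add a b _ _ ha hb => rw [map_add, map_add, ha, hb, add_zero]
    | smul a b _ hb => rw [map_smul, map_smul, hb, smul_zero]
    | mem y hy =>
      obtain ⟨g, -, z, rfl⟩ := hy
      rw [map_sub, map_sub, sub_eq_zero]
      induction z using TensorProduct.induction_on with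
      | zero => rw [map_zero]
      | add a b ha hb => rw [map_add, map_add, map_add, map_add, map_add, ha, hb]
      | tmul f w =>
        rw [Representation.tprod_apply, TensorProduct.map_tmul]
        induction f using Finsupp.induction_linear with
        | zero => rw [map_zero, TensorProduct.zero_tmul, TensorProduct.zero_tmul]
        | add f f' hf hf' =>
          rw [map_add, TensorProduct.add_tmul, TensorProduct.add_tmul, map_add, map_add, map_add, map_add, hf, hf']
        | single s a =>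
          rw [cRep_single]
          simp only [TensorProduct.finsuppScalarLeft_apply_tmul, Finsupp.sum_single_index, zero_smul, Finsupp.single_zero,
            phi_single]
          rw [← map_smul]
          funext t
          by_cases h5 : ∃ g' : Γ, g' • s.1 = t
          · obtain ⟨g', rfl⟩ := h5
            rw [orb_of h τ s.2.1]
            have h6 : g' • s.1 = (g' * g⁻¹) • (g • s.1) := by rw [mul_smul, inv_smul_smul]
            rw [h6]
            show orb τ (g • s.1) _ _ = _
            rw [orb_of h τ (h.K_mem g _ s.2.1), ← Module.End.mul_apply, ← map_mul, inv_mul_cancel_right]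
          · rw [orb_not τ h5]
            refine orb_not τ (fun ⟨g', hg'⟩ => h5 ⟨g' * g, ?_⟩) _
            rw [mul_smul]
            exact hg'
  refine ⟨phi K B τ q (TensorProduct.finsuppScalarLeft (ZMod 2) W (Sx K B q) u), eqC_phi h τ _, ?_⟩
  have h4 := isCb_phi h τ u
  have h5 := h3 _ hu
  rw [map_sub, map_sub, sub_eq_zero, h1, hx'] at h5
  rw [h5]
  exact h4

end Pool.Agent.S11

end
end

section

/-!
# Project S11, block END: transport of the exactness

`ExR τ d₁ d₂` = exactness in the middle of `(C ⊗ W)_H → (C' ⊗ W)_H → (C'' ⊗ W)_H`.  `exR_transport`: it passes along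
equivariant chain maps and homotopies.  `exR_of_exactAt`: from the equivariant cochains to the coinvariants.
`bdX X q` = the boundary modulo two of the chains of `X` on the simplices with `q + 1` vertices.
-/

set_option autoImplicit false
set_option linter.unusedSectionVars false

open Finset Pointwise
open scoped TensorProduct

noncomputable section

namespace Pool.Agent.S11

/-- exactness in the middle of the coinvariants of the tensor products with `τ` -/
def ExR {H : Type} [Group H] {W : Type} [AddCommGroup W] [Module (ZMod 2) W] (τ : Representation (ZMod 2) H W)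
    {C C' C'' : Type} [AddCommGroup C] [Module (ZMod 2) C] [AddCommGroup C'] [Module (ZMod 2) C']
    [AddCommGroup C''] [Module (ZMod 2) C''] (ρ' : Representation (ZMod 2) H C') (ρ'' : Representation (ZMod 2) H C'')
    (d₁ : C →ₗ[ZMod 2] C') (d₂ : C' →ₗ[ZMod 2] C'') : Prop :=
  ∀ x : C' ⊗[ZMod 2] W, d₂.rTensor W x ∈ Kr (ρ''.tprod τ) ⊤ →
    ∃ y : C ⊗[ZMod 2] W, x - d₁.rTensor W y ∈ Kr (ρ'.tprod τ) ⊤

section

variable {H : Type} [Group H] {W : Type} [AddCommGroup W] [Module (ZMod 2) W] (τ : Representation (ZMod 2) H W)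
  {C C' C'' E E' E'' : Type} [AddCommGroup C] [Module (ZMod 2) C] [AddCommGroup C'] [Module (ZMod 2) C']
  [AddCommGroup C''] [Module (ZMod 2) C''] [AddCommGroup E] [Module (ZMod 2) E] [AddCommGroup E'] [Module (ZMod 2) E']
  [AddCommGroup E''] [Module (ZMod 2) E'']
  {ρ' : Representation (ZMod 2) H C'} {ρ'' : Representation (ZMod 2) H C''}
  {σ' : Representation (ZMod 2) H E'} {σ'' : Representation (ZMod 2) H E''}

theorem kr_rTensor {f : C' →ₗ[ZMod 2] C''} (hf : ∀ g x, f (ρ' g x) = ρ'' g (f x)) {x : C' ⊗[ZMod 2] W}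
    (hx : x ∈ Kr (ρ'.tprod τ) ⊤) : f.rTensor W x ∈ Kr (ρ''.tprod τ) ⊤ :=
  Kr_map (τ := ρ'.tprod τ) (ρ := ρ''.tprod τ) (fun g _ t => rTensor_tprod τ hf g t) hx

/-- **Transport of exactness.** `E → E' → E''` is exact after taking coinvariants, `F` maps `C' → C''` to `E' → E''`,
`G` maps `E → E'` to `C → C'`, and `G F = 1 + d₁ h + h' d₂` on `C'`. -/
theorem exR_transport {d₁ : C →ₗ[ZMod 2] C'} {d₂ : C' →ₗ[ZMod 2] C''} {e₁ : E →ₗ[ZMod 2] E'} {e₂ : E' →ₗ[ZMod 2] E''}
    (F' : C' →ₗ[ZMod 2] E') (F'' : C'' →ₗ[ZMod 2] E'') (G : E →ₗ[ZMod 2] C) (G' : E' →ₗ[ZMod 2] C')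
    (k' : C' →ₗ[ZMod 2] C) (k'' : C'' →ₗ[ZMod 2] C')
    (hF'' : ∀ g x, F'' (ρ'' g x) = σ'' g (F'' x)) (hG' : ∀ g x, G' (σ' g x) = ρ' g (G' x))
    (hk'' : ∀ g x, k'' (ρ'' g x) = ρ' g (k'' x))
    (h1 : ∀ x, e₂ (F' x) = F'' (d₂ x)) (h2 : ∀ y, d₁ (G y) = G' (e₁ y))
    (h3 : ∀ x, G' (F' x) = x + d₁ (k' x) + k'' (d₂ x))
    (hE : ExR τ σ' σ'' e₁ e₂) : ExR τ ρ' ρ'' d₁ d₂ := by
  intro x hx
  have a1 : e₂.rTensor W (F'.rTensor W x) = F''.rTensor W (d₂.rTensor W x) := by
    rw [← LinearMap.comp_apply, ← LinearMap.comp_apply, ← LinearMap.rTensor_comp, ← LinearMap.rTensor_comp]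
    rw [show e₂ ∘ₗ F' = F'' ∘ₗ d₂ from LinearMap.ext h1]
  have a2 : ∀ y : E ⊗[ZMod 2] W, d₁.rTensor W (G.rTensor W y) = G'.rTensor W (e₁.rTensor W y) := by
    intro y
    rw [← LinearMap.comp_apply, ← LinearMap.comp_apply, ← LinearMap.rTensor_comp, ← LinearMap.rTensor_comp]
    rw [show d₁ ∘ₗ G = G' ∘ₗ e₁ from LinearMap.ext h2]
  have a3 : G'.rTensor W (F'.rTensor W x) =
      x + d₁.rTensor W (k'.rTensor W x) + k''.rTensor W (d₂.rTensor W x) := by
    rw [← LinearMap.comp_apply, ← LinearMap.comp_apply, ← LinearMap.comp_apply, ← LinearMap.rTensor_comp,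
      ← LinearMap.rTensor_comp, ← LinearMap.rTensor_comp]
    rw [show G' ∘ₗ F' = LinearMap.id + d₁ ∘ₗ k' + k'' ∘ₗ d₂ from LinearMap.ext h3, LinearMap.rTensor_add,
      LinearMap.rTensor_add, LinearMap.rTensor_id]
    rfl
  obtain ⟨y, hy⟩ := hE (F'.rTensor W x) (by
    rw [a1]
    exact kr_rTensor τ hF'' hx)
  refine ⟨G.rTensor W y - k'.rTensor W x, ?_⟩
  have b1 := kr_rTensor τ hG' hy
  have b2 := kr_rTensor τ hk'' hx
  rw [map_sub, a3, ← a2] at b1
  have b3 := Submodule.sub_mem _ b1 b2
  have e : x - d₁.rTensor W (G.rTensor W y - k'.rTensor W x) =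
      x + d₁.rTensor W (k'.rTensor W x) + k''.rTensor W (d₂.rTensor W x) - d₁.rTensor W (G.rTensor W y) -
        k''.rTensor W (d₂.rTensor W x) := by
    rw [map_sub]
    abel
  rw [e]
  exact b3

end

section

open Pool.Agent.H37.TM (Rel IsCob)

variable {Γ U : Type} [Group Γ] [DecidableEq U] [MulAction Γ U] {K B : Set (Finset U)}
  {W : Type} [AddCommGroup W] [Module (ZMod 2) W]

/-- `phi` is zero on the kernel of the coinvariants -/
theorem phi_Kr (h : SCx Γ K B) (τ : Representation (ZMod 2) Γ W) (q : ℕ) {y : (Sx K B q →₀ ZMod 2) ⊗[ZMod 2] W}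
    (hy : y ∈ Kr ((cRep h q).tprod τ) ⊤) :
    phi K B τ q (TensorProduct.finsuppScalarLeft (ZMod 2) W (Sx K B q) y) = 0 := by
  unfold Kr at hy
  induction hy using Submodule.span_induction with
  | zero => rw [map_zero, map_zero]
  | add a b _ _ ha hb => rw [map_add, map_add, ha, hb, add_zero]
  | smul a b _ hb => rw [map_smul, map_smul, hb, smul_zero]
  | mem y hy =>
    obtain ⟨g, -, z, rfl⟩ := hy
    rw [map_sub, map_sub, sub_eq_zero]
    induction z using TensorProduct.induction_on with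
    | zero => rw [map_zero]
    | add a b ha hb => rw [map_add, map_add, map_add, map_add, map_add, ha, hb]
    | tmul f w =>
      rw [Representation.tprod_apply, TensorProduct.map_tmul]
      induction f using Finsupp.induction_linear with
      | zero => rw [map_zero, TensorProduct.zero_tmul, TensorProduct.zero_tmul]
      | add f f' hf hf' =>
        rw [map_add, TensorProduct.add_tmul, TensorProduct.add_tmul, map_add, map_add, map_add, map_add, hf, hf']
      | single s a =>
        rw [cRep_single]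
        simp only [TensorProduct.finsuppScalarLeft_apply_tmul, Finsupp.sum_single_index, zero_smul, Finsupp.single_zero,
          phi_single]
        rw [← map_smul]
        funext t
        by_cases h5 : ∃ g' : Γ, g' • s.1 = t
        · obtain ⟨g', rfl⟩ := h5
          rw [orb_of h τ s.2.1]
          have h6 : g' • s.1 = (g' * g⁻¹) • (g • s.1) := by rw [mul_smul, inv_smul_smul]
          rw [h6]
          show orb τ (g • s.1) _ _ = _
          rw [orb_of h τ (h.K_mem g _ s.2.1), ← Module.End.mul_apply, ← map_mul, inv_mul_cancel_right]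
        · rw [orb_not τ h5]
          refine orb_not τ (fun ⟨g', hg'⟩ => h5 ⟨g' * g, ?_⟩) _
          rw [mul_smul]
          exact hg'

/-- **From equivariant cochains to coinvariants.** -/
theorem exR_of_exactAt (h : SCx Γ K B) {τ : Representation (ZMod 2) Γ W} {q : ℕ} (hex : ExactAt K B τ q) :
    ExR τ (cRep h (q + 1)) (cRep h (q + 1 + 1)) (dC h q) (dC h (q + 1)) := by
  intro x hx
  have h1 := eqC_phi h τ (TensorProduct.finsuppScalarLeft (ZMod 2) W (Sx K B (q + 1)) x)
  have h2 := isCb_phi h τ x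
  rw [phi_Kr h τ (q + 1 + 1) hx] at h2
  obtain ⟨b, hb1, hb2⟩ := hex _ h1 h2
  obtain ⟨y', rfl⟩ := phi_surj h τ hb1
  set y := (TensorProduct.finsuppScalarLeft (ZMod 2) W (Sx K B q)).symm y' with hy
  have h3 : TensorProduct.finsuppScalarLeft (ZMod 2) W (Sx K B q) y = y' := LinearEquiv.apply_symm_apply _ _
  refine ⟨y, phi_ker h τ _ ?_⟩
  have h4 := isCb_phi h τ y
  rw [h3] at h4
  rw [map_sub, map_sub, sub_eq_zero]
  funext t
  by_cases ht : t ∈ K ∧ t ∉ B
  · rw [← h4 t ht.1 ht.2, hb2 t ht.1 ht.2]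
  · have h5 := eqC_phi h τ (TensorProduct.finsuppScalarLeft (ZMod 2) W (Sx K B (q + 1)) ((dC h q).rTensor W y))
    have h6 : phi K B τ (q + 1) (TensorProduct.finsuppScalarLeft (ZMod 2) W (Sx K B (q + 1)) x) t = 0 := by
      by_contra h7
      have h8 := h1.supp t h7
      exact ht ⟨h8.1, h8.2.1⟩
    have h7 : phi K B τ (q + 1) (TensorProduct.finsuppScalarLeft (ZMod 2) W (Sx K B (q + 1))
        ((dC h q).rTensor W y)) t = 0 := by
      by_contra h7
      have h8 := h5.supp t h7
      exact ht ⟨h8.1, h8.2.1⟩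
    rw [h6, h7]

end

section

variable {V : Type} [DecidableEq V]

open Classical in
/-- the boundary modulo two of the simplicial chains: the simplices with `q + 1` vertices -/
def bdX (X : Set (Finset V)) (q : ℕ) : (Sx X (∅ : Set (Finset V)) (q + 1) →₀ ZMod 2) →ₗ[ZMod 2] (Sx X (∅ : Set (Finset V)) q →₀ ZMod 2) :=
  Finsupp.lsum (ZMod 2) fun s => ∑ v ∈ s.1,
    if h : s.1.erase v ∈ X ∧ s.1.erase v ∉ (∅ : Set (Finset V)) ∧ (s.1.erase v).card = q then
      Finsupp.lsingle (⟨s.1.erase v, h⟩ : Sx X (∅ : Set (Finset V)) q) else 0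

open Classical in
theorem bdX_single (X : Set (Finset V)) (q : ℕ) (s : Sx X (∅ : Set (Finset V)) (q + 1)) (a : ZMod 2) :
    bdX X q (Finsupp.single s a) = ∑ v ∈ s.1,
      if h : s.1.erase v ∈ X ∧ s.1.erase v ∉ (∅ : Set (Finset V)) ∧ (s.1.erase v).card = q then
        Finsupp.single (⟨s.1.erase v, h⟩ : Sx X (∅ : Set (Finset V)) q) a else 0 := by
  unfold bdX
  rw [Finsupp.lsum_single, LinearMap.sum_apply]
  refine sum_congr rfl fun v _ => ?_
  split_ifs
  · rfl
  · rfl

variable {H : Type} [Group H] [MulAction H V] {X : Set (Finset V)}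

end

end Pool.Agent.S11

end
end

section

/-!
# Project S11, block END: the boundary of the equivariant functions

`isBd_phi`: `phi` maps the boundary `bdX` to the boundary `bdV` of the equivariant functions.  `exactBd_of_exR`: exactness of
the coinvariants gives exactness of the equivariant functions.
-/

set_option autoImplicit false
set_option linter.unusedSectionVars false

open Finset Pointwise
open scoped TensorProduct

noncomputable section

namespace Pool.Agent.S11

section

variable {Γ V : Type} [Group Γ] [DecidableEq V] [MulAction Γ V] {X : Set (Finset V)}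
  {W : Type} [AddCommGroup W] [Module (ZMod 2) W]

/-- the boundary as a sum over the simplices around `s` -/
theorem bdV_sx (hX : SCx Γ X (∅ : Set (Finset V))) {q : ℕ} (s : Sx X (∅ : Set (Finset V)) q) {e : Finset V → W}
    (he : ∀ t, e t ≠ 0 → t ∈ X) : bdV e s.1 = ∑ t ∈ cof hX s, e t.1 := by
  classical
  have hA : {v | v ∉ s.1 ∧ insert v s.1 ∈ X}.Finite := by
    refine Set.Finite.of_finite_image (f := fun v => insert v s.1) ((hX.locfin s.1 s.2.1).subset ?_) ?_
    · rintro _ ⟨v, hv, rfl⟩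
      exact ⟨hv.2, subset_insert v s.1⟩
    · intro a ha b hb hab
      have h1 : a ∈ insert b s.1 := by
        have h2 : insert a s.1 = insert b s.1 := hab
        rw [← h2]
        exact mem_insert_self a s.1
      rcases mem_insert.1 h1 with h | h
      · exact h
      · exact absurd h ha.1
  have h1 : bdV e s.1 = ∑ v ∈ hA.toFinset, e (insert v s.1) := by
    unfold bdV
    refine finsum_mem_eq_sum_of_inter_support_eq _ ?_
    ext v
    simp only [Set.mem_inter_iff, Set.mem_ofPred_eq, Function.mem_support, Finset.mem_coe, Set.Finite.mem_toFinset]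
    constructor
    · rintro ⟨h1, h2⟩
      exact ⟨⟨h1, he _ h2⟩, h2⟩
    · rintro ⟨⟨h1, _⟩, h2⟩
      exact ⟨h1, h2⟩
  rw [h1]
  refine sum_bij (fun v hv => (⟨insert v s.1, ((Set.Finite.mem_toFinset hA).1 hv).2, fun h => h, by
    rw [card_insert_of_notMem ((Set.Finite.mem_toFinset hA).1 hv).1, s.2.2.2]⟩ :
      Sx X (∅ : Set (Finset V)) (q + 1))) ?_ ?_ ?_ ?_
  · intro v hv
    exact (mem_cof hX).2 (subset_insert v s.1)
  · intro a ha b hb hab
    have h2 : insert a s.1 = insert b s.1 := congrArg Subtype.val hab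
    have h3 : a ∈ insert b s.1 := by
      rw [← h2]
      exact mem_insert_self a s.1
    rcases mem_insert.1 h3 with h | h
    · exact h
    · exact absurd h ((Set.Finite.mem_toFinset hA).1 ha).1
  · intro t ht
    rw [mem_cof] at ht
    have h3 : (t.1 \ s.1).card = 1 := by
      rw [card_sdiff_of_subset ht, t.2.2.2, s.2.2.2]
      omega
    obtain ⟨v, hv⟩ := card_eq_one.1 h3
    have h4 : v ∈ t.1 \ s.1 := by rw [hv]; exact mem_singleton_self v
    rw [mem_sdiff] at h4
    have h5 : insert v s.1 = t.1 := by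
      refine eq_of_subset_of_card_le (insert_subset h4.1 ht) ?_
      rw [card_insert_of_notMem h4.2, t.2.2.2, s.2.2.2]
    refine ⟨v, (Set.Finite.mem_toFinset hA).2 ⟨h4.2, h5 ▸ t.2.1⟩, Subtype.ext h5⟩
  · intro v hv
    rfl

open Classical in
/-- the boundary of the elementary equivariant function -/
theorem bd_orb (hX : SCx Γ X (∅ : Set (Finset V))) (τ : Representation (ZMod 2) Γ W) {q : ℕ}
    (s₀ : Sx X (∅ : Set (Finset V)) (q + 1)) (w : W) (s : Sx X (∅ : Set (Finset V)) q) :
    ∑ t ∈ cof hX s, orb τ s₀.1 w t.1 =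
      ∑ v ∈ s₀.1, if s₀.1.erase v ∈ X ∧ s₀.1.erase v ∉ (∅ : Set (Finset V)) ∧ (s₀.1.erase v).card = q then
        orb τ (s₀.1.erase v) w s.1 else 0 := by
  classical
  -- the elements of the group with `s ⊆ g s₀`
  obtain ⟨F, hF⟩ : ∃ F : Finset Γ, ∀ g, g ∈ F ↔ s.1 ⊆ g • s₀.1 := by
    have h1 := (finite_sub hX s.2.1 s₀.1).preimage (f := fun g : Γ => g⁻¹) inv_injective.injOn
    refine ⟨h1.toFinset, fun g => ?_⟩
    rw [Set.Finite.mem_toFinset]
    show g⁻¹ • s.1 ⊆ s₀.1 ↔ _
    constructor
    · intro h2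
      have h3 : g • (g⁻¹ • s.1) ⊆ g • s₀.1 := smul_finset_subset_smul_finset h2
      rwa [smul_inv_smul] at h3
    · intro h2
      have h3 : g⁻¹ • s.1 ⊆ g⁻¹ • (g • s₀.1) := smul_finset_subset_smul_finset h2
      rwa [inv_smul_smul] at h3
  have hL : ∀ t ∈ cof hX s, orb τ s₀.1 w t.1 = ∑ g ∈ F, if g • s₀.1 = t.1 then τ g w else 0 := fun t ht =>
    orb_sum hX τ s₀.2.1 w fun g hg => (hF g).2 (hg ▸ (mem_cof hX).1 ht)
  have hR : ∀ v ∈ s₀.1, (if s₀.1.erase v ∈ X ∧ s₀.1.erase v ∉ (∅ : Set (Finset V)) ∧ (s₀.1.erase v).card = q then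
      orb τ (s₀.1.erase v) w s.1 else 0) = ∑ g ∈ F, if g • s₀.1.erase v = s.1 then τ g w else 0 := by
    intro v hv
    split_ifs with h1
    · refine orb_sum hX τ h1.1 w fun g hg => (hF g).2 ?_
      rw [← hg]
      exact smul_finset_subset_smul_finset (erase_subset v _)
    · symm
      refine sum_eq_zero fun g _ => if_neg fun h2 => h1 ?_
      have h3 := hX.smul_mem g⁻¹ s.2
      rwa [← h2, inv_smul_smul] at h3
  rw [sum_congr rfl hL, sum_congr rfl hR, sum_comm, sum_comm (s := s₀.1)]
  refine sum_congr rfl fun g hg => ?_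
  rw [hF] at hg
  rw [← sum_filter, ← sum_filter, sum_const, sum_const]
  congr 1
  have hg1 : (g • s₀.1).card = q + 1 := (hX.smul_mem g s₀.2).2.2
  have h3 : (cof hX s).filter (fun t => g • s₀.1 = t.1) = {⟨g • s₀.1, hX.smul_mem g s₀.2⟩} := by
    ext t
    rw [mem_filter, mem_singleton, mem_cof]
    constructor
    · rintro ⟨_, h5⟩
      exact Subtype.ext h5.symm
    · rintro rfl
      exact ⟨hg, rfl⟩
  have h4 : ∃ v ∈ s₀.1, g • s₀.1.erase v = s.1 := by
    have h5 : g⁻¹ • s.1 ⊆ s₀.1 := by
      have h6 : g⁻¹ • s.1 ⊆ g⁻¹ • (g • s₀.1) := smul_finset_subset_smul_finset hg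
      rwa [inv_smul_smul] at h6
    have h6 : (s₀.1 \ g⁻¹ • s.1).card = 1 := by
      rw [card_sdiff_of_subset h5, card_smul_finset, s₀.2.2.2, s.2.2.2]
      omega
    obtain ⟨v, hv⟩ := card_eq_one.1 h6
    have h7 : v ∈ s₀.1 \ g⁻¹ • s.1 := by rw [hv]; exact mem_singleton_self v
    rw [mem_sdiff] at h7
    refine ⟨v, h7.1, ?_⟩
    have h8 : g⁻¹ • s.1 = s₀.1.erase v := by
      refine eq_of_subset_of_card_le (fun u hu => mem_erase.2 ⟨fun h9 => h7.2 (h9 ▸ hu), h5 hu⟩) ?_
      rw [card_erase_of_mem h7.1, card_smul_finset, s₀.2.2.2, s.2.2.2]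
      omega
    rw [← h8, smul_inv_smul]
  obtain ⟨v, hv, hv'⟩ := h4
  have h5 : s₀.1.filter (fun u => g • s₀.1.erase u = s.1) = {v} := by
    ext u
    rw [mem_filter, mem_singleton]
    constructor
    · rintro ⟨h6, h7⟩
      by_contra h8
      rw [← hv'] at h7
      have h9 : s₀.1.erase u = s₀.1.erase v := smul_left_cancel g h7
      have h10 : u ∈ s₀.1.erase v := mem_erase.2 ⟨h8, h6⟩
      rw [← h9] at h10
      exact notMem_erase u _ h10
    · rintro rfl
      exact ⟨hv, hv'⟩
  rw [h3, h5, card_singleton, card_singleton]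

/-- the boundary of the equivariant functions -/
theorem isBd_phi (hX : SCx Γ X (∅ : Set (Finset V))) (τ : Representation (ZMod 2) Γ W) {q : ℕ}
    (x : (Sx X (∅ : Set (Finset V)) (q + 1) →₀ ZMod 2) ⊗[ZMod 2] W) {s : Finset V} (hs : s ∈ X) :
    bdV (phi X ∅ τ (q + 1) (TensorProduct.finsuppScalarLeft (ZMod 2) W (Sx X (∅ : Set (Finset V)) (q + 1)) x)) s =
      phi X ∅ τ q (TensorProduct.finsuppScalarLeft (ZMod 2) W (Sx X (∅ : Set (Finset V)) q)
        ((bdX X q).rTensor W x)) s := by
  classical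
  by_cases hc : s.card = q
  · have h1 : bdV (phi X ∅ τ (q + 1)
        (TensorProduct.finsuppScalarLeft (ZMod 2) W (Sx X (∅ : Set (Finset V)) (q + 1)) x)) s =
        ∑ t ∈ cof hX (⟨s, hs, fun h => h, hc⟩ : Sx X (∅ : Set (Finset V)) q), phi X ∅ τ (q + 1)
          (TensorProduct.finsuppScalarLeft (ZMod 2) W (Sx X (∅ : Set (Finset V)) (q + 1)) x) t.1 :=
      bdV_sx hX (⟨s, hs, fun h => h, hc⟩ : Sx X (∅ : Set (Finset V)) q)
        fun t ht => ((eqC_phi hX τ _).supp t ht).1
    rw [h1]
    induction x using TensorProduct.induction_on with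
    | zero =>
      simp only [map_zero]
      exact sum_eq_zero fun t _ => rfl
    | add x y hx hy =>
      simp only [map_add, Pi.add_apply, sum_add_distrib]
      rw [hx, hy]
      · exact bdV_sx hX (⟨s, hs, fun h => h, hc⟩ : Sx X (∅ : Set (Finset V)) q)
          fun t ht => ((eqC_phi hX τ _).supp t ht).1
      · exact bdV_sx hX (⟨s, hs, fun h => h, hc⟩ : Sx X (∅ : Set (Finset V)) q)
          fun t ht => ((eqC_phi hX τ _).supp t ht).1
    | tmul f w =>
      clear h1
      induction f using Finsupp.induction_linear with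
      | zero =>
        simp only [TensorProduct.zero_tmul, map_zero]
        exact sum_eq_zero fun t _ => rfl
      | add f g hf hg =>
        simp only [TensorProduct.add_tmul, map_add, Pi.add_apply, sum_add_distrib]
        rw [hf, hg]
      | single s₀ a =>
        have h2 := bd_orb hX τ s₀ (a • w) (⟨s, hs, fun h => h, hc⟩ : Sx X (∅ : Set (Finset V)) q)
        rw [LinearMap.rTensor_tmul, bdX_single, TensorProduct.sum_tmul, map_sum, map_sum, Finset.sum_apply]
        rw [TensorProduct.finsuppScalarLeft_apply_tmul, Finsupp.sum_single_index (by rw [zero_smul, Finsupp.single_zero]),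
          phi_single, h2]
        refine sum_congr rfl fun v _ => ?_
        split_ifs with h3
        · rw [TensorProduct.finsuppScalarLeft_apply_tmul,
            Finsupp.sum_single_index (by rw [zero_smul, Finsupp.single_zero]), phi_single]
        · rw [TensorProduct.zero_tmul, map_zero, map_zero]
          rfl
  · have h1 : phi X ∅ τ q (TensorProduct.finsuppScalarLeft (ZMod 2) W (Sx X (∅ : Set (Finset V)) q)
        ((bdX X q).rTensor W x)) s = 0 := by
      by_contra h2
      exact hc ((eqC_phi hX τ _).supp s h2).2.2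
    rw [h1]
    unfold bdV
    refine finsum_mem_of_eqOn_zero fun v hv => ?_
    by_contra h2
    have h3 := ((eqC_phi hX τ _).supp _ h2).2.2
    rw [card_insert_of_notMem hv] at h3
    exact hc (by omega)

/-- **From coinvariants to equivariant functions.** -/
theorem exactBd_of_exR (hX : SCx Γ X (∅ : Set (Finset V))) {τ : Representation (ZMod 2) Γ W} {q : ℕ}
    (hex : ExR τ (cRep hX (q + 1)) (cRep hX q) (bdX X (q + 1)) (bdX X q)) : ExactBd X τ (q + 1) := by
  intro e he h0
  obtain ⟨x', hx'⟩ := phi_surj hX τ he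
  set x := (TensorProduct.finsuppScalarLeft (ZMod 2) W (Sx X (∅ : Set (Finset V)) (q + 1))).symm x' with hx
  have h1 : TensorProduct.finsuppScalarLeft (ZMod 2) W (Sx X (∅ : Set (Finset V)) (q + 1)) x = x' :=
    LinearEquiv.apply_symm_apply _ _
  have h2 : (bdX X q).rTensor W x ∈ Kr ((cRep hX q).tprod τ) ⊤ := by
    refine phi_ker hX τ _ ?_
    funext s
    by_cases hs : s ∈ X
    · rw [← isBd_phi hX τ x hs, h1, hx', h0 s hs]
      rfl
    · by_contra h3
      exact hs ((eqC_phi hX τ _).supp s h3).1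
  obtain ⟨y, hy⟩ := hex x h2
  have h3 := phi_Kr hX τ (q + 1) hy
  rw [map_sub, map_sub, sub_eq_zero, h1, hx'] at h3
  refine ⟨phi X ∅ τ (q + 1 + 1)
    (TensorProduct.finsuppScalarLeft (ZMod 2) W (Sx X (∅ : Set (Finset V)) (q + 1 + 1)) y), eqC_phi hX τ _,
    fun s hs => ?_⟩
  rw [isBd_phi hX τ y hs, h3]

end

end Pool.Agent.S11

end
end

section

/-!
# Project S11, block END: exactness of the chains of `X`, from the chain maps

`exactBd_of_chmaps`: chain maps `F`, `G` between the chains of `X` and the cochains of `(K, B)` with a homotopy from `G F` to the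
identity, and exactness of the equivariant cochains of `(K, B)` in the degree `n - i` give exactness of the chains of
`X` in the degree `i`.
-/

set_option autoImplicit false
set_option linter.unusedSectionVars false

open Finset Pointwise
open scoped TensorProduct

noncomputable section

namespace Pool.Agent.S11

open Pool.Agent.H37.TM (Rel IsCob bdS)

section

variable {V : Type} [DecidableEq V] (X B : Set (Finset V)) (q : ℕ)

/-- restriction to the simplices with `q` vertices -/
def resS : (Finset V →₀ ZMod 2) →ₗ[ZMod 2] (Sx X B q →₀ ZMod 2) :=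
  Finsupp.lcomapDomain Subtype.val Subtype.val_injective

/-- extension by zero -/
def incS : (Sx X B q →₀ ZMod 2) →ₗ[ZMod 2] (Finset V →₀ ZMod 2) :=
  Finsupp.lmapDomain (ZMod 2) (ZMod 2) Subtype.val

variable {X B q}

theorem resS_apply (f : Finset V →₀ ZMod 2) (s : Sx X B q) : resS X B q f s = f s.1 := rfl

theorem incS_single (s : Sx X B q) (a : ZMod 2) : incS X B q (Finsupp.single s a) = Finsupp.single s.1 a :=
  Finsupp.mapDomain_single

theorem incS_mem (x : Sx X B q →₀ ZMod 2) (s : Sx X B q) : incS X B q x s.1 = x s :=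
  Finsupp.mapDomain_apply Subtype.val_injective x s

theorem incS_not (x : Sx X B q →₀ ZMod 2) {s : Finset V} (hs : ¬ (s ∈ X ∧ s ∉ B ∧ s.card = q)) : incS X B q x s = 0 := by
  refine Finsupp.mapDomain_of_notMem_range x s ?_
  rintro ⟨s', rfl⟩
  exact hs s'.2

theorem incS_eq (x : Sx X B q →₀ ZMod 2) (s : Finset V) : incS X B q x s = ext0 x s := by
  by_cases hs : s ∈ X ∧ s ∉ B ∧ s.card = q
  · exact (incS_mem x ⟨s, hs⟩).trans (ext0_mem x ⟨s, hs⟩).symm
  · rw [incS_not x hs]
    by_contra h
    exact hs (ext0_supp (Ne.symm h))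

theorem incS_resS {f : Finset V →₀ ZMod 2} (hf : ∀ s, f s ≠ 0 → s ∈ X ∧ s ∉ B ∧ s.card = q) :
    incS X B q (resS X B q f) = f := by
  ext s
  by_cases hs : s ∈ X ∧ s ∉ B ∧ s.card = q
  · exact incS_mem (resS X B q f) ⟨s, hs⟩
  · rw [incS_not _ hs]
    by_contra h
    exact hs (hf s (Ne.symm h))

end

section

variable {V U : Type} [DecidableEq V] [DecidableEq U] {X A : Set (Finset V)} {K B : Set (Finset U)} {p q : ℕ}

/-- the linear map with the values `Φ s` -/
def mapS (X A : Set (Finset V)) (K B : Set (Finset U)) (p q : ℕ) (Φ : Finset V → (Finset U →₀ ZMod 2)) :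
    (Sx X A p →₀ ZMod 2) →ₗ[ZMod 2] (Sx K B q →₀ ZMod 2) :=
  Finsupp.linearCombination (ZMod 2) fun s => resS K B q (Φ s.1)

theorem mapS_single (Φ : Finset V → (Finset U →₀ ZMod 2)) (s : Sx X A p) :
    mapS X A K B p q Φ (Finsupp.single s 1) = resS K B q (Φ s.1) := by
  unfold mapS
  rw [Finsupp.linearCombination_single, one_smul]

theorem mapS_apply (Φ : Finset V → (Finset U →₀ ZMod 2)) (x : Sx X A p →₀ ZMod 2) (t : Sx K B q) :
    mapS X A K B p q Φ x t = Finsupp.linearCombination (ZMod 2) Φ (incS X A p x) t.1 := by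
  induction x using Finsupp.induction_linear with
  | zero => simp
  | add f g hf hg => rw [map_add, map_add, map_add, Finsupp.add_apply, Finsupp.add_apply, hf, hg]
  | single s a =>
    unfold mapS
    rw [incS_single, Finsupp.linearCombination_single, Finsupp.linearCombination_single]
    rfl

theorem incS_mapS {Φ : Finset V → (Finset U →₀ ZMod 2)}
    (hΦ : ∀ s ∈ X, s ∉ A → s.card = p → ∀ t, Φ s t ≠ 0 → t ∈ K ∧ t ∉ B ∧ t.card = q) (x : Sx X A p →₀ ZMod 2) :
    incS K B q (mapS X A K B p q Φ x) = Finsupp.linearCombination (ZMod 2) Φ (incS X A p x) := by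
  induction x using Finsupp.induction_linear with
  | zero => simp
  | add f g hf hg => rw [map_add, map_add, map_add, map_add, hf, hg]
  | single s a =>
    unfold mapS
    rw [incS_single, Finsupp.linearCombination_single, Finsupp.linearCombination_single, map_smul,
      incS_resS (hΦ s.1 s.2.1 s.2.2.1 s.2.2.2)]

variable {Γ : Type} [Group Γ] [MulAction Γ V] [MulAction Γ U]

theorem mapS_smul (hX : SCx Γ X A) (hK : SCx Γ K B) {Φ : Finset V → (Finset U →₀ ZMod 2)}
    (hΦ : ∀ (g : Γ), ∀ s ∈ X, s ∉ A → Φ (g • s) = (Φ s).mapDomain (g • ·)) (g : Γ) (x : Sx X A p →₀ ZMod 2) :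
    mapS X A K B p q Φ (cRep hX p g x) = cRep hK q g (mapS X A K B p q Φ x) := by
  have key : ∀ s : Sx X A p, resS K B q (Φ (g • s.1)) = cRep hK q g (resS K B q (Φ s.1)) := by
    intro s
    ext t
    rw [hΦ g s.1 s.2.1 s.2.2.1, resS_apply]
    have h1 : t = smx hK q g (smx hK q g⁻¹ t) := Subtype.ext (smul_inv_smul g t.1).symm
    have h2 : cRep hK q g (resS K B q (Φ s.1)) t = resS K B q (Φ s.1) (smx hK q g⁻¹ t) := by
      conv_lhs => rw [h1]
      refine Finsupp.mapDomain_apply (fun a b hab => ?_) _ _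
      exact Subtype.ext (smul_left_cancel g (congrArg Subtype.val hab))
    rw [h2, resS_apply]
    have h3 : t.1 = g • (g⁻¹ • t.1) := (smul_inv_smul g t.1).symm
    conv_lhs => rw [h3]
    exact Finsupp.mapDomain_apply (MulAction.injective g) _ _
  induction x using Finsupp.induction_linear with
  | zero => simp
  | add f f' hf hf' => rw [map_add, map_add, map_add, map_add, hf, hf']
  | single s a =>
    rw [cRep_single]
    unfold mapS
    rw [Finsupp.linearCombination_single, Finsupp.linearCombination_single, map_smul, ← key]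
    rfl

/-- the boundary in the two forms -/
theorem bdX_bdS (x : Sx X (∅ : Set (Finset V)) (p + 1) →₀ ZMod 2) (s : Sx X (∅ : Set (Finset V)) p) :
    bdX X p x s = bdS (incS X ∅ (p + 1) x) s.1 := by
  classical
  induction x using Finsupp.induction_linear with
  | zero => simp
  | add f g hf hg => rw [map_add, map_add, map_add, Finsupp.add_apply, Finsupp.add_apply, hf, hg]
  | single s' a =>
    rw [incS_single, bdX_single, Finsupp.finsetSum_apply]
    unfold bdS
    rw [Finsupp.linearCombination_single, Finset.smul_sum, Finsupp.finsetSum_apply]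
    refine sum_congr rfl fun v _ => ?_
    rw [Finsupp.smul_single, smul_eq_mul, mul_one, Finsupp.single_apply]
    split_ifs with h1 h2 h2
    · rw [Finsupp.single_apply, if_pos (Subtype.ext h2)]
    · rw [Finsupp.single_apply, if_neg]
      intro h3
      exact h2 (congrArg Subtype.val h3)
    · exact absurd (h2 ▸ s.2) h1
    · rfl

/-- the values of `Φ` on the boundary -/
theorem mapS_bdX (hd : ∀ s ∈ X, ∀ t, t ⊆ s → t.Nonempty → t ∈ X) {Φ : Finset V → (Finset U →₀ ZMod 2)} (h0 : Φ ∅ = 0)
    (s : Sx X (∅ : Set (Finset V)) (p + 1)) (t : Sx K B q) :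
    mapS X ∅ K B p q Φ (bdX X p (Finsupp.single s 1)) t = ∑ v ∈ s.1, Φ (s.1.erase v) t.1 := by
  classical
  rw [bdX_single, map_sum, Finsupp.finsetSum_apply]
  refine sum_congr rfl fun v hv => ?_
  split_ifs with h1
  · rw [mapS_single, resS_apply]
  · rw [map_zero]
    have h2 : s.1.erase v = ∅ := by
      by_contra h3
      refine h1 ⟨hd s.1 s.2.1 _ (erase_subset v _) (nonempty_iff_ne_empty.2 h3), fun h => h, ?_⟩
      rw [card_erase_of_mem hv, s.2.2.2]
      omega
    rw [h2, h0]
    rfl

end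

section

variable {H : Type} [Group H] {W : Type} [AddCommGroup W] [Module (ZMod 2) W] (τ : Representation (ZMod 2) H W)
  {C C' C'' : Type} [AddCommGroup C] [Module (ZMod 2) C] [AddCommGroup C'] [Module (ZMod 2) C']
  [AddCommGroup C''] [Module (ZMod 2) C'']
  {ρ' : Representation (ZMod 2) H C'} {ρ'' : Representation (ZMod 2) H C''}

/-- contractible complexes -/
theorem exR_contract {d₁ : C →ₗ[ZMod 2] C'} {d₂ : C' →ₗ[ZMod 2] C''} (k' : C' →ₗ[ZMod 2] C) (k'' : C'' →ₗ[ZMod 2] C')
    (hk'' : ∀ g x, k'' (ρ'' g x) = ρ' g (k'' x)) (h3 : ∀ x, 0 = x + d₁ (k' x) + k'' (d₂ x)) : ExR τ ρ' ρ'' d₁ d₂ := by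
  intro x hx
  have a3 : 0 = x + d₁.rTensor W (k'.rTensor W x) + k''.rTensor W (d₂.rTensor W x) := by
    rw [← LinearMap.comp_apply, ← LinearMap.comp_apply, ← LinearMap.rTensor_comp, ← LinearMap.rTensor_comp]
    have e : (0 : C' →ₗ[ZMod 2] C') = LinearMap.id + d₁ ∘ₗ k' + k'' ∘ₗ d₂ := LinearMap.ext h3
    have e2 := congrArg (fun f => LinearMap.rTensor W f x) e
    simp only [LinearMap.rTensor_add, LinearMap.rTensor_id, LinearMap.rTensor_zero] at e2
    exact e2
  have b2 := kr_rTensor τ hk'' hx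
  refine ⟨-k'.rTensor W x, ?_⟩
  have e : x - d₁.rTensor W (-k'.rTensor W x) = -k''.rTensor W (d₂.rTensor W x) := by
    rw [map_neg, sub_neg_eq_add]
    exact eq_neg_of_add_eq_zero_left a3.symm
  rw [e]
  exact Submodule.neg_mem _ b2

end

section

variable {Γ V U : Type} [Group Γ] [DecidableEq V] [MulAction Γ V] [DecidableEq U] [MulAction Γ U]
  {X : Set (Finset V)} {K B : Set (Finset U)} {n : ℕ} {F : Finset V → (Finset U →₀ ZMod 2)}
  {G : Finset U → (Finset V →₀ ZMod 2)} {h : Finset V → (Finset V →₀ ZMod 2)}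

/-- two linear maps on the chains which agree on the simplices -/
theorem eq_of_single {S M : Type} [AddCommGroup M] [Module (ZMod 2) M] {f g : (S →₀ ZMod 2) →ₗ[ZMod 2] M}
    (hfg : ∀ s, f (Finsupp.single s 1) = g (Finsupp.single s 1)) (x : S →₀ ZMod 2) : f x = g x := by
  have : f = g := Finsupp.lhom_ext' fun s => LinearMap.ext_ring (hfg s)
  rw [this]

theorem chm_F (hX : SCx Γ X (∅ : Set (Finset V))) (hK : SCx Γ K B) (hC : ChMaps Γ X K B n F G h) {i j : ℕ} (hij : i + j = n)
    (x : Sx X (∅ : Set (Finset V)) (i + 1) →₀ ZMod 2) :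
    dC hK (j + 1) (mapS X ∅ K B (i + 1) (j + 1) F x) = mapS X ∅ K B i (j + 1 + 1) F (bdX X i x) := by
  refine eq_of_single (f := (dC hK (j + 1)).comp (mapS X ∅ K B (i + 1) (j + 1) F))
    (g := (mapS X ∅ K B i (j + 1 + 1) F).comp (bdX X i)) (fun s => ?_) x
  rw [LinearMap.comp_apply, LinearMap.comp_apply]
  ext t
  rw [mapS_bdX hX.down hC.F_empty, mapS_single, dC_apply, ← hC.F_bd s.1 s.2.1 t.1 t.2.1 t.2.2.1]
  refine sum_congr rfl fun v _ => ?_
  rw [← incS_eq, incS_resS]
  intro t' ht'
  have h1 := hC.F_supp s.1 s.2.1 t' ht'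
  refine ⟨h1.1, h1.2.1, ?_⟩
  have h2 := h1.2.2
  rw [s.2.2.2] at h2
  omega

theorem chm_G (hX : SCx Γ X (∅ : Set (Finset V))) (hK : SCx Γ K B) (hC : ChMaps Γ X K B n F G h) {i j : ℕ} (hij : i + j = n)
    (y : Sx K B j →₀ ZMod 2) :
    bdX X (i + 1) (mapS K B X ∅ j (i + 1 + 1) G y) = mapS K B X ∅ (j + 1) (i + 1) G (dC hK j y) := by
  ext s
  rw [bdX_bdS, incS_mapS, mapS_apply]
  · refine hC.G_bd j _ _ ?_ ?_ ?_ s.1 (hX.ne s.1 s.2.1)
    · intro t ht
      by_contra h1
      refine ht (incS_not y fun h2 => h1 ⟨h2.1, h2.2.1, empty_subset t, h2.2.2⟩)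
    · intro t ht
      by_contra h1
      refine ht (incS_not _ fun h2 => h1 ⟨h2.1, h2.2.1, empty_subset t, h2.2.2⟩)
    · intro t ht ht' _
      rw [sdiff_empty, incS_eq, ← ext0_dC hK j y ht ht']
      exact sum_congr rfl fun v _ => incS_eq y _
  · intro t ht ht' hc s' hs'
    have h1 := hC.G_supp t ht ht' s' hs'
    refine ⟨h1.1, fun h => h, ?_⟩
    have h2 := h1.2
    rw [hc] at h2
    omega

theorem chm_h (hX : SCx Γ X (∅ : Set (Finset V))) (hC : ChMaps Γ X K B n F G h) (i : ℕ)
    (s : Sx X (∅ : Set (Finset V)) (i + 1)) (s' : Sx X (∅ : Set (Finset V)) (i + 1)) :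
    Finsupp.linearCombination (ZMod 2) G (F s.1) s'.1 =
      (Finsupp.single s (1 : ZMod 2) + bdX X (i + 1) (mapS X ∅ X ∅ (i + 1) (i + 1 + 1) h (Finsupp.single s 1)) +
        mapS X ∅ X ∅ i (i + 1) h (bdX X i (Finsupp.single s 1)) : Sx X (∅ : Set (Finset V)) (i + 1) →₀ ZMod 2) s' := by
  have h1 := hC.htpy s.1 s.2.1 s'.1 (hX.ne s'.1 s'.2.1)
  rw [Finsupp.add_apply, Finsupp.add_apply, mapS_bdX hX.down hC.h_empty, bdX_bdS, mapS_single, incS_resS]
  · have h2 : (Finsupp.single s (1 : ZMod 2) : Sx X (∅ : Set (Finset V)) (i + 1) →₀ ZMod 2) s' =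
        Finsupp.single s.1 (1 : ZMod 2) s'.1 := by
      rw [← incS_mem (Finsupp.single s (1 : ZMod 2)) s', incS_single]
    rw [h2, add_assoc, ← h1, add_comm (Finsupp.linearCombination (ZMod 2) G (F s.1) s'.1), ← add_assoc,
      CharTwo.add_self_eq_zero, zero_add]
  · intro t ht
    have h2 := hC.h_supp s.1 s.2.1 t ht
    refine ⟨h2.1, fun h => h, ?_⟩
    rw [h2.2, s.2.2.2]

/-- **From the chain maps to the exactness of the chains of `X`.** -/
theorem exactBd_of_chmaps (hX : SCx Γ X (∅ : Set (Finset V))) (hK : SCx Γ K B) (hC : ChMaps Γ X K B n F G h)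
    {W : Type} [AddCommGroup W] [Module (ZMod 2) W] (τ : Representation (ZMod 2) Γ W) (i : ℕ)
    (hE : ∀ j, i + j = n → ExactAt K B τ j) : ExactBd X τ (i + 1) := by
  refine exactBd_of_exR hX ?_
  have hk : ∀ (g : Γ) x, mapS X ∅ X ∅ i (i + 1) h (cRep hX i g x) =
      cRep hX (i + 1) g (mapS X ∅ X ∅ i (i + 1) h x) :=
    fun g x => mapS_smul hX hX (fun g s hs _ => hC.h_smul g s hs) g x
  rcases le_or_gt i n with hin | hin
  · obtain ⟨j, hij⟩ := Nat.exists_eq_add_of_le hin
    have hij' : i + j = n := hij.symm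
    refine exR_transport τ (σ' := cRep hK (j + 1)) (σ'' := cRep hK (j + 1 + 1)) (e₁ := dC hK j) (e₂ := dC hK (j + 1))
      (mapS X ∅ K B (i + 1) (j + 1) F) (mapS X ∅ K B i (j + 1 + 1) F) (mapS K B X ∅ j (i + 1 + 1) G)
      (mapS K B X ∅ (j + 1) (i + 1) G) (mapS X ∅ X ∅ (i + 1) (i + 1 + 1) h) (mapS X ∅ X ∅ i (i + 1) h)
      (fun g x => mapS_smul hX hK (fun g s hs _ => hC.F_smul g s hs) g x)
      (fun g x => mapS_smul hK hX (fun g s hs hs' => hC.G_smul g s hs hs') g x) hk
      (fun x => chm_F hX hK hC hij' x) (fun y => chm_G hX hK hC hij' y) (fun x => ?_)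
      (exR_of_exactAt hK (hE j hij'))
    refine eq_of_single (f := (mapS K B X ∅ (j + 1) (i + 1) G).comp (mapS X ∅ K B (i + 1) (j + 1) F))
      (g := LinearMap.id + (bdX X (i + 1)).comp (mapS X ∅ X ∅ (i + 1) (i + 1 + 1) h) +
        (mapS X ∅ X ∅ i (i + 1) h).comp (bdX X i)) (fun s => ?_) x
    ext s'
    have h1 := chm_h hX hC i s s'
    rw [LinearMap.comp_apply, mapS_apply, mapS_single, incS_resS, h1]
    · rfl
    · intro t ht
      have h2 := hC.F_supp s.1 s.2.1 t ht
      refine ⟨h2.1, h2.2.1, ?_⟩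
      have h3 := h2.2.2
      rw [s.2.2.2] at h3
      omega
  · refine exR_contract τ (mapS X ∅ X ∅ (i + 1) (i + 1 + 1) h) (mapS X ∅ X ∅ i (i + 1) h) hk fun x => ?_
    refine eq_of_single (f := (0 : (Sx X (∅ : Set (Finset V)) (i + 1) →₀ ZMod 2) →ₗ[ZMod 2] _))
      (g := LinearMap.id + (bdX X (i + 1)).comp (mapS X ∅ X ∅ (i + 1) (i + 1 + 1) h) +
        (mapS X ∅ X ∅ i (i + 1) h).comp (bdX X i)) (fun s => ?_) x
    ext s'
    have h1 := chm_h hX hC i s s'
    have h2 : F s.1 = 0 := by
      ext t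
      by_contra h3
      have h4 := hC.F_supp s.1 s.2.1 t h3
      have h5 := h4.2.2
      rw [s.2.2.2] at h5
      have h6 := card_pos.2 (hK.ne t h4.1)
      omega
    rw [h2, map_zero] at h1
    exact h1

end

end Pool.Agent.S11

end
end

section

/-!
# Project S14, block END: the ranks of the compressions

PROOF of `rank_cmp_ge`.  `S` = a finite set which contains `U` and the supports of `D₂`; `E, E'` from `hQ S ε`,
`ε = η / (r₂ + 1)`; `F` = a finite set which contains `E * T`, `E`, and `E * (supports of D₁)`.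
`M₁ = cmp E F D₁`, `N = cmp E' E D₂`: `N * M₁ = 0` (as `E' * supp D₂ ⊆ E`), so by `Pool.Agent.H93.S11.rank_add_le` over `ℂ`
`M₁.rank + N.rank ≤ (fromCols M₁ Nᴴ).rank`, and `fromCols M₁ Nᴴ` consists of columns of `cmp E F (toC (fromCols D₁ (adj D₂)) ..)`
(`E' ⊆ E ⊆ F`).  `M₁.rank ≥ rank over K` (`rank_int_le`) `≥ r₁ * E.card`: the rows `(rows₁ i, g)`, `g ∈ E`, are independent over
`K`, because all the coefficients of `v D₁`, `v` supported in `E`, are in `F`.  `N.rank ≥ r₂ * E'.card` in the same way.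
-/

set_option autoImplicit false
set_option linter.unusedSectionVars false

open Finset Filter Topology

namespace Pool.Agent.S14

open Pool.Agent.H4.Atiyah Pool.Agent.H4.Singer Pool.Agent.H93.S11

theorem cmp_mul {R Q : Type} [CommRing R] [Group Q] {k m n : Type} [Fintype m] {E E₁ F : Finset Q}
    (A : Matrix k m (MonoidAlgebra R Q)) (B : Matrix m n (MonoidAlgebra R Q))
    (h : ∀ g ∈ E, ∀ i j, ∀ s ∈ (A i j).coeff.support, g * s ∈ E₁) :
    cmp E E₁ A * cmp E₁ F B = cmp E F (A * B) := by
  classical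
  ext ⟨i, g⟩ ⟨l, x⟩
  rw [Matrix.mul_apply, Fintype.sum_prod_type, cmp_apply, Matrix.mul_apply, MonoidAlgebra.coeff_sum,
    Finsupp.finsetSum_apply]
  refine Finset.sum_congr rfl fun j _ => ?_
  rw [MonoidAlgebra.coeff_mul_apply_left, Finsupp.sum]
  have h1 : ∑ y : E₁, cmp E E₁ A (i, g) (j, y) * cmp E₁ F B (j, y) (l, x) =
      ∑ y ∈ E₁, (A i j).coeff ((g : Q)⁻¹ * y) * (B j l).coeff (y⁻¹ * (x : Q)) := by
    rw [← Finset.sum_coe_sort E₁ fun y => (A i j).coeff ((g : Q)⁻¹ * y) * (B j l).coeff (y⁻¹ * (x : Q))]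
    rfl
  rw [h1]
  have h2 : ((A i j).coeff.support.image fun s => (g : Q) * s) ⊆ E₁ := by
    intro y hy
    obtain ⟨s, hs, rfl⟩ := Finset.mem_image.1 hy
    exact h g g.2 i j s hs
  rw [← Finset.sum_subset h2, Finset.sum_image fun s _ t _ hst => mul_left_cancel hst]
  · refine Finset.sum_congr rfl fun s _ => ?_
    rw [inv_mul_cancel_left, mul_inv_rev, mul_assoc]
  · intro y _ hy
    have h3 : (A i j).coeff ((g : Q)⁻¹ * y) = 0 := by
      by_contra h4
      exact hy (Finset.mem_image.2 ⟨_, Finsupp.mem_support_iff.2 h4, mul_inv_cancel_left _ _⟩)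
    rw [h3, zero_mul]

theorem cmp_toC {Q : Type} [Group Q] {k n : Type} (E F : Finset Q) (A : Matrix k n (MonoidAlgebra ℤ Q)) :
    cmp E F (toC A) = (cmp E F A).map (Int.cast : ℤ → ℂ) := rfl

theorem cmp_toK {K Q : Type} [Field K] [Group Q] {k n : Type} (E F : Finset Q) (A : Matrix k n (MonoidAlgebra ℤ Q)) :
    cmp E F (toK K A) = (cmp E F A).map (Int.cast : ℤ → K) := rfl

/-- independent rows over the group algebra -/
theorem rows_le_rank {K Q : Type} [Field K] [Group Q] {c a r : ℕ} (A : Matrix (Fin c) (Fin a) (MonoidAlgebra K Q))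
    (rows : Fin r → Fin c) (h : ∀ v : Fin r → MonoidAlgebra K Q, Matrix.vecMul v (A.submatrix rows id) = 0 → v = 0)
    {E F : Finset Q} (hF : ∀ g ∈ E, ∀ i j, ∀ s ∈ (A i j).coeff.support, g * s ∈ F) :
    r * E.card ≤ (cmp E F A).rank := by
  classical
  have h0 : ∀ v : Fin r × E → K, Matrix.vecMul v ((cmp E F A).submatrix (fun p : Fin r × E => (rows p.1, p.2)) id) = 0 →
      v = 0 := by
    intro v hv
    obtain ⟨w, hw⟩ : ∃ w : Fin r → MonoidAlgebra K Q, ∀ i, w i = ∑ g : E, MonoidAlgebra.single (g : Q) (v (i, g)) :=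
      ⟨_, fun i => rfl⟩
    have hcoef : ∀ (i : Fin r) (x : MonoidAlgebra K Q) (y : Q),
        (w i * x).coeff y = ∑ g : E, v (i, g) * x.coeff ((g : Q)⁻¹ * y) := by
      intro i x y
      rw [hw, Finset.sum_mul, MonoidAlgebra.coeff_sum, Finsupp.finsetSum_apply]
      exact Finset.sum_congr rfl fun g _ => MonoidAlgebra.coeff_single_mul_apply _ _ _ _
    have hw0 : w = 0 := by
      apply h
      funext j
      rw [Pi.zero_apply]
      show ∑ i, w i * A (rows i) j = 0
      apply MonoidAlgebra.coeff_injective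
      ext y
      rw [MonoidAlgebra.coeff_sum, Finsupp.finsetSum_apply, MonoidAlgebra.coeff_zero, Finsupp.zero_apply]
      simp_rw [hcoef]
      by_cases hy : y ∈ F
      · have h2 := congrFun hv (j, ⟨y, hy⟩)
        rw [Pi.zero_apply] at h2
        rw [← h2]
        show _ = ∑ p : Fin r × E, v p * (A (rows p.1) j).coeff ((p.2 : Q)⁻¹ * y)
        rw [Fintype.sum_prod_type]
      · refine Finset.sum_eq_zero fun i _ => Finset.sum_eq_zero fun g _ => ?_
        have h2 : (A (rows i) j).coeff ((g : Q)⁻¹ * y) = 0 := by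
          by_contra h3
          have h4 := hF g g.2 (rows i) j _ (Finsupp.mem_support_iff.2 h3)
          rw [mul_inv_cancel_left] at h4
          exact hy h4
        rw [h2, mul_zero]
    funext p
    have h2 := hcoef p.1 1 p.2
    rw [hw0, Pi.zero_apply, zero_mul, MonoidAlgebra.coeff_zero, Finsupp.zero_apply, Finset.sum_eq_single p.2] at h2
    · rw [inv_mul_cancel, MonoidAlgebra.one_def, MonoidAlgebra.coeff_single, Finsupp.single_eq_same, mul_one] at h2
      exact h2.symm
    · intro g _ hg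
      rw [MonoidAlgebra.one_def, MonoidAlgebra.coeff_single, Finsupp.single_eq_of_ne, mul_zero]
      intro h3
      exact hg (Subtype.ext (inv_mul_eq_one.1 h3))
    · intro h3
      exact absurd (mem_univ _) h3
  have h1 : LinearIndependent K ((cmp E F A).submatrix (fun p : Fin r × E => (rows p.1, p.2)) id).row := by
    rw [← Matrix.vecMul_injective_iff]
    intro v w hvw
    have h2 := h0 (v - w) (by rw [Matrix.sub_vecMul]; exact sub_eq_zero.2 hvw)
    exact sub_eq_zero.1 h2
  have h2 := h1.rank_matrix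
  have h3 := Matrix.rank_submatrix_le (cmp E F A) (fun p : Fin r × E => (rows p.1, p.2)) id
  rw [h2, Fintype.card_prod, Fintype.card_fin, Fintype.card_coe] at h3
  exact h3

theorem rows_le_rank_int {K Q : Type} [Field K] [Group Q] {c a r : ℕ} (A : Matrix (Fin c) (Fin a) (MonoidAlgebra ℤ Q))
    (rows : Fin r → Fin c)
    (h : ∀ v : Fin r → MonoidAlgebra K Q, Matrix.vecMul v ((toK K A).submatrix rows id) = 0 → v = 0)
    {E F : Finset Q} (hF : ∀ g ∈ E, ∀ i j, ∀ s ∈ (A i j).coeff.support, g * s ∈ F) :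
    r * E.card ≤ (cmp E F (toC A)).rank := by
  refine (rows_le_rank (toK K A) rows h (F := F) fun g hg i j s hs => hF g hg i j s ?_).trans ?_
  · rw [Finsupp.mem_support_iff] at hs ⊢
    intro h0
    apply hs
    show ((((A i j).coeff s : ℤ)) : K) = 0
    rw [h0, Int.cast_zero]
  · rw [cmp_toK, cmp_toC]
    exact rank_int_le _ _

/-- **The ranks of the compressions** -/
theorem rank_cmp_ge {Q : Type} [Group Q] (hQ : Foel Q) (K : Type) [Field K] {a b c : ℕ}
    (D₁ : Matrix (Fin c) (Fin a) (MonoidAlgebra ℤ Q)) (D₂ : Matrix (Fin b) (Fin c) (MonoidAlgebra ℤ Q)) (hD : D₂ * D₁ = 0)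
    {r₁ r₂ : ℕ} (rows₁ : Fin r₁ → Fin c) (rows₂ : Fin r₂ → Fin b)
    (h₁ : ∀ v : Fin r₁ → MonoidAlgebra K Q, Matrix.vecMul v ((toK K D₁).submatrix rows₁ id) = 0 → v = 0)
    (h₂ : ∀ v : Fin r₂ → MonoidAlgebra K Q, Matrix.vecMul v ((toK K D₂).submatrix rows₂ id) = 0 → v = 0)
    (hc : c ≤ r₁ + r₂) {η : ℝ} (hη : 0 < η) (U T : Finset Q) :
    ∃ E E' F : Finset Q, E.Nonempty ∧ E' ⊆ E ∧ (∀ g ∈ E', ∀ u ∈ U, g * u ∈ E) ∧
      (1 - η) * (E.card : ℝ) ≤ (E'.card : ℝ) ∧ (∀ g ∈ E, ∀ t ∈ T, g * t ∈ F) ∧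
      (c : ℝ) * E.card - (cmp E F (toC ((Matrix.fromCols D₁ (adj D₂)).submatrix id finSumFinEquiv.symm))).rank ≤
        η * E.card := by
  classical
  have hr : (0 : ℝ) < (r₂ : ℝ) + 1 := by positivity
  obtain ⟨S₁, hS₁⟩ : ∃ S : Finset Q, ∀ i j, ∀ s ∈ (D₁ i j).coeff.support, s ∈ S :=
    ⟨univ.biUnion fun i => univ.biUnion fun j => (D₁ i j).coeff.support, fun i j s hs =>
      mem_biUnion.2 ⟨i, mem_univ _, mem_biUnion.2 ⟨j, mem_univ _, hs⟩⟩⟩
  obtain ⟨S₂, hS₂⟩ : ∃ S : Finset Q, ∀ i j, ∀ s ∈ (D₂ i j).coeff.support, s ∈ S :=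
    ⟨univ.biUnion fun i => univ.biUnion fun j => (D₂ i j).coeff.support, fun i j s hs =>
      mem_biUnion.2 ⟨i, mem_univ _, mem_biUnion.2 ⟨j, mem_univ _, hs⟩⟩⟩
  obtain ⟨E, E', hne, hsub, hS, hcard⟩ := hQ (U ∪ S₂) (η / (r₂ + 1)) (by positivity)
  obtain ⟨F, hF⟩ : ∃ F : Finset Q, E ⊆ F ∧ (∀ g ∈ E, ∀ t ∈ T, g * t ∈ F) ∧ ∀ g ∈ E, ∀ t ∈ S₁, g * t ∈ F := by
    refine ⟨E ∪ (E ×ˢ (T ∪ S₁)).image fun p => p.1 * p.2, subset_union_left, fun g hg t ht => ?_, fun g hg t ht => ?_⟩
    · exact mem_union_right _ (mem_image.2 ⟨(g, t), mem_product.2 ⟨hg, mem_union_left _ ht⟩, rfl⟩)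
    · exact mem_union_right _ (mem_image.2 ⟨(g, t), mem_product.2 ⟨hg, mem_union_right _ ht⟩, rfl⟩)
  obtain ⟨hF1, hF2, hF3⟩ := hF
  have hε : η / (r₂ + 1) ≤ η := div_le_self hη.le (by linarith [Nat.cast_nonneg (α := ℝ) r₂])
  have hE : (0 : ℝ) ≤ E.card := Nat.cast_nonneg _
  refine ⟨E, E', F, hne, hsub, fun g hg u hu => hS g hg u (mem_union_left _ hu), ?_, hF2, ?_⟩
  · refine le_trans (mul_le_mul_of_nonneg_right ?_ hE) hcard
    linarith
  · have h3 : cmp E' E (toC D₂) * cmp E F (toC D₁) = 0 := by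
      rw [cmp_mul (toC D₂) (toC D₁)]
      · have h4 : toC D₂ * toC D₁ = toC (D₂ * D₁) := by
          unfold toC
          rw [Matrix.map_mul]
        rw [h4, hD]
        ext x y
        simp [cmp, toC]
      · intro g hg i j s hs
        refine hS g hg s (mem_union_right _ (hS₂ i j s ?_))
        rw [Finsupp.mem_support_iff] at hs ⊢
        intro h0
        apply hs
        show (((D₂ i j).coeff s : ℤ) : ℂ) = 0
        rw [h0, Int.cast_zero]
    have h4 := rank_add_le _ _ h3
    have h5 : Matrix.fromCols (cmp E F (toC D₁)) (cmp E' E (toC D₂)).conjTranspose =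
        (cmp E F (toC ((Matrix.fromCols D₁ (adj D₂)).submatrix id finSumFinEquiv.symm))).submatrix id
          (Sum.elim (fun p : Fin a × F => (finSumFinEquiv (Sum.inl p.1), p.2))
            (fun p : Fin b × E' => (finSumFinEquiv (Sum.inr p.1), ⟨p.2, hF1 (hsub p.2.2)⟩))) := by
      ext ⟨i, g⟩ y
      rcases y with ⟨j, x⟩ | ⟨j, x⟩
      · show (toC D₁ i j).coeff ((g : Q)⁻¹ * (x : Q)) = ((toC ((Matrix.fromCols D₁ (adj D₂)).submatrix id
          finSumFinEquiv.symm)) i (finSumFinEquiv (Sum.inl j))).coeff ((g : Q)⁻¹ * (x : Q))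
        simp [toC]
      · show (starRingEnd ℂ) ((toC D₂ j i).coeff ((x : Q)⁻¹ * (g : Q))) = ((toC ((Matrix.fromCols D₁ (adj D₂)).submatrix id
          finSumFinEquiv.symm)) i (finSumFinEquiv (Sum.inr j))).coeff ((g : Q)⁻¹ * (x : Q))
        simp [toC, coeff_adj]
    have h6 := Matrix.rank_submatrix_le (cmp E F (toC ((Matrix.fromCols D₁ (adj D₂)).submatrix id finSumFinEquiv.symm)))
      id (Sum.elim (fun p : Fin a × F => (finSumFinEquiv (Sum.inl p.1), p.2))
            (fun p : Fin b × E' => (finSumFinEquiv (Sum.inr p.1), ⟨p.2, hF1 (hsub p.2.2)⟩)))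
    rw [← h5] at h6
    have h7 := rows_le_rank_int D₁ rows₁ h₁ (E := E) (F := F) fun g hg i j s hs => hF3 g hg s (hS₁ i j s hs)
    have h8 := rows_le_rank_int D₂ rows₂ h₂ (E := E') (F := E) fun g hg i j s hs =>
      hS g hg s (mem_union_right _ (hS₂ i j s hs))
    have h9 : ((r₁ * E.card : ℕ) : ℝ) + ((r₂ * E'.card : ℕ) : ℝ) ≤
        (cmp E F (toC ((Matrix.fromCols D₁ (adj D₂)).submatrix id finSumFinEquiv.symm))).rank := by
      exact_mod_cast (add_le_add h7 h8).trans (h4.trans h6)
    push_cast at h9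
    have h10 : (c : ℝ) ≤ r₁ + r₂ := by exact_mod_cast hc
    have h11 : (c : ℝ) * E.card ≤ (r₁ + r₂) * E.card := mul_le_mul_of_nonneg_right h10 hE
    have h12 : (r₂ : ℝ) * ((1 - η / (r₂ + 1)) * E.card) ≤ r₂ * E'.card :=
      mul_le_mul_of_nonneg_left hcard (Nat.cast_nonneg _)
    have h13 : (r₂ : ℝ) * (η / (r₂ + 1)) ≤ η := by
      rw [mul_div_assoc', div_le_iff₀ hr]
      nlinarith
    have h14 : (r₂ : ℝ) * (η / (r₂ + 1)) * E.card ≤ η * E.card := mul_le_mul_of_nonneg_right h13 hE
    nlinarith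

end Pool.Agent.S14

end

section

/-!
# Project S14, block END: the spectral part
-/

set_option autoImplicit false
set_option linter.unusedSectionVars false

open Finset Filter Topology Pointwise

namespace Pool.Agent.S14

open Pool.Agent.H4.Atiyah Pool.Agent.H4.Singer

theorem cmp_eq_cpr {R Q : Type} [Semiring R] [Group Q] {k n : Type} (E F : Finset Q)
    (A : Matrix k n (MonoidAlgebra R Q)) : cmp E F A = cpr E F A := rfl

theorem toC_map {G Q : Type} [Group G] [Group Q] {k n : ℕ} (ψ : G →* Q)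
    (A : Matrix (Fin k) (Fin n) (MonoidAlgebra ℤ G)) :
    toC (A.map (MonoidAlgebra.mapDomainRingHom ℤ ψ)) = (toC A).map (MonoidAlgebra.mapDomainRingHom ℂ ψ) := by
  ext1 i j
  apply MonoidAlgebra.coeff_injective
  show Finsupp.mapRange (Int.cast : ℤ → ℂ) Int.cast_zero (Finsupp.mapDomain ψ (A i j).coeff) =
    Finsupp.mapDomain ψ (Finsupp.mapRange (Int.cast : ℤ → ℂ) Int.cast_zero (A i j).coeff)
  exact (Finsupp.mapDomain_mapRange _ _ _ _ (fun x y => Int.cast_add x y)).symm

theorem cpr_toC {Q : Type} [Group Q] {k n : ℕ} (E F : Finset Q) (A : Matrix (Fin k) (Fin n) (MonoidAlgebra ℤ Q)) :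
    cpr E F (toC A) = (cpr E F A).map (Int.cast : ℤ → ℂ) := rfl

/-- **The spectral part** -/
theorem vnDim_nonpos_cmp {G : Type} [Group G] [DecidableEq G] {k n : ℕ} (A : Matrix (Fin k) (Fin n) (MonoidAlgebra ℤ G))
    (h : ∀ η : ℝ, 0 < η → ∀ T : Finset G, ∃ (Q : Type) (_ : Group Q) (ψ : G →* Q), Set.InjOn ψ T ∧
      ∀ U : Finset Q, ∃ E E' F : Finset Q, E.Nonempty ∧ E' ⊆ E ∧ (∀ g ∈ E', ∀ u ∈ U, g * u ∈ E) ∧
        (1 - η) * (E.card : ℝ) ≤ (E'.card : ℝ) ∧
        (∀ g ∈ E, ∀ i j, ∀ s ∈ (A i j).coeff.support, g * ψ s ∈ F) ∧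
        (k : ℝ) * E.card - (cmp E F (toC (A.map (MonoidAlgebra.mapDomainRingHom ℤ ψ)))).rank ≤ η * E.card) :
    vnDim (toC A) ≤ 0 := by
  classical
  by_contra hcon
  push Not at hcon
  obtain ⟨d, hd⟩ : ∃ d, d = vnDim (toC A) := ⟨_, rfl⟩
  rw [← hd] at hcon
  obtain ⟨c, hc⟩ : ∃ c, c = l1 (Astar (toC A)) ^ 2 + l1 (toC A) ^ 2 + 1 := ⟨_, rfl⟩
  have hc1 : 1 ≤ c := by
    rw [hc]
    linarith [sq_nonneg (l1 (toC A)), sq_nonneg (l1 (Astar (toC A)))]
  have hc0 : 0 < c := by linarith
  have hcA : l1 (toC A) ^ 2 ≤ c := by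
    rw [hc]
    linarith [sq_nonneg (l1 (Astar (toC A)))]
  have hcA' : l1 (Astar (toC A)) ^ 2 ≤ c := by
    rw [hc]
    linarith [sq_nonneg (l1 (toC A))]
  have hlogc : 0 ≤ Real.log c := Real.log_nonneg hc1
  obtain ⟨L, hL⟩ : ∃ L, L = 8 * (k * Real.log c) / d + 1 := ⟨_, rfl⟩
  have hL0 : 0 < L := by
    rw [hL]
    positivity
  have hkL : k * (Real.log c / L) ≤ d / 8 := by
    rw [← mul_div_assoc, div_le_div_iff₀ hL0 (by norm_num)]
    have h1 : d * L = 8 * (k * Real.log c) + d := by
      rw [hL]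
      field_simp
    rw [h1]
    linarith
  have hε0 : 0 < Real.exp (-L) := Real.exp_pos _
  have hε1 : Real.exp (-L) < 1 := by
    rw [Real.exp_lt_one_iff]
    linarith
  have hlogε : Real.log (1 / Real.exp (-L)) = L := by
    rw [one_div, Real.log_inv, Real.log_exp, neg_neg]
  obtain ⟨ε, hε⟩ : ∃ ε, ε = Real.exp (-L) := ⟨_, rfl⟩
  rw [← hε] at hε0 hε1 hlogε
  -- the power
  have hq0 : 0 ≤ 1 - c⁻¹ * ε ^ 2 := by
    have h1 : ε ^ 2 ≤ 1 := pow_le_one₀ hε0.le hε1.le
    have h2 : c⁻¹ ≤ 1 := inv_le_one_of_one_le₀ hc1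
    have h3 : 0 ≤ c⁻¹ := by positivity
    nlinarith [sq_nonneg ε]
  have hq1 : 1 - c⁻¹ * ε ^ 2 < 1 := by
    have : 0 < c⁻¹ * ε ^ 2 := by positivity
    linarith
  have hpow : Tendsto (fun m : ℕ => (k : ℝ) * (1 - c⁻¹ * ε ^ 2) ^ m) atTop (𝓝 0) := by
    have := (tendsto_pow_atTop_nhds_zero_of_lt_one hq0 hq1).const_mul (k : ℝ)
    rwa [mul_zero] at this
  obtain ⟨m, hm⟩ := (hpow.eventually (eventually_le_nhds (show (0 : ℝ) < d / 8 by linarith))).exists
  obtain ⟨-, hlow⟩ := tendsto_phi (toC A) hc0 hcA'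
  obtain ⟨η, hη⟩ : ∃ η, η = min (1 / 2) (d / 8) := ⟨_, rfl⟩
  have hη0 : 0 < η := by
    rw [hη]
    exact lt_min (by norm_num) (by linarith)
  have hη1 : η ≤ 1 / 2 := by rw [hη]; exact min_le_left _ _
  have hη2 : η ≤ d / 8 := by rw [hη]; exact min_le_right _ _
  obtain ⟨T, hT⟩ : ∃ T : Finset G, T = (Finset.univ : Finset (Fin k × Fin k)).biUnion
      fun p => ((Dop (toC A) c ^ m) p.1 p.2).coeff.support := ⟨_, rfl⟩
  obtain ⟨Q, hQ, ψ, hψ, hU⟩ := h η hη0 T
  have hj1 : ∀ i i', Set.InjOn ψ ((Dop (toC A) c ^ m) i i').coeff.support := by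
    intro i i'
    refine hψ.mono ?_
    intro g hg
    rw [hT]
    exact Finset.mem_coe.2 (Finset.mem_biUnion.2 ⟨(i, i'), Finset.mem_univ _, hg⟩)
  obtain ⟨A', hA'⟩ : ∃ A', A' = (toC A).map (MonoidAlgebra.mapDomainRingHom ℂ ψ) := ⟨_, rfl⟩
  obtain ⟨S₂, hS₂⟩ := exists_sub (Dop A' c)
  obtain ⟨S, hS⟩ : ∃ S : Finset Q, S = insert 1 S₂ := ⟨_, rfl⟩
  have h1S : (1 : Q) ∈ S := by rw [hS]; exact Finset.mem_insert_self _ _
  have hSD : Sub S (Dop A' c) := hS₂.mono (by
    rw [hS]
    exact Finset.subset_insert _ _)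
  obtain ⟨S', hS'⟩ : ∃ S' : Finset Q, S' = (Finset.univ : Finset (Fin k × Fin n)).biUnion
      fun p => (A p.1 p.2).coeff.support.image ψ := ⟨_, rfl⟩
  have hSA : Sub S' A' := by
    intro i i' g hg
    rw [hA', ← toC_map] at hg
    have h1 : Finsupp.mapDomain ψ (A i i').coeff g ≠ 0 := by
      intro h0
      apply hg
      show ((Finsupp.mapDomain ψ (A i i').coeff g : ℤ) : ℂ) = 0
      rw [h0, Int.cast_zero]
    rw [hS']
    refine Finset.mem_biUnion.2 ⟨(i, i'), Finset.mem_univ _, ?_⟩
    exact Finsupp.mapDomain_support (Finsupp.mem_support_iff.2 h1)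
  obtain ⟨E, E', F, hEne, hE', hE'S, hcard, hEF, hrank⟩ := hU (S ^ m)
  rw [toC_map, cmp_eq_cpr, ← hA'] at hrank
  have hEF' : ∀ e ∈ E, ∀ s ∈ S', e * s ∈ F := by
    intro e he s hs
    rw [hS'] at hs
    obtain ⟨p, -, hp⟩ := Finset.mem_biUnion.1 hs
    obtain ⟨t, ht, rfl⟩ := Finset.mem_image.1 hp
    exact hEF e he p.1 p.2 t ht
  have htr := trace_cpr_ge (E := E) (F := F) c m h1S hSA hSD hEF'
  rw [hA'] at htr
  rw [phi_map ψ (toC A) c m hj1, ← hA'] at htr
  have hbound2 : ∀ x : Fin k × E → ℂ, nrm (Matrix.vecMul x (cpr E F A')) ^ 2 ≤ c * nrm x ^ 2 := by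
    intro x
    rw [hA']
    exact nrm_cpr_le ψ (toC A) hcA E F x
  obtain ⟨V, hV1, hV2⟩ := exists_small_space (cpr E F A') hc0 hbound2 hε0 m
  have hint : cpr E F A' = (cpr E F (A.map (MonoidAlgebra.mapDomainRingHom ℤ ψ))).map (Int.cast : ℤ → ℂ) := by
    rw [← cpr_toC, toC_map, hA']
  have hbound : ∀ x : Fin k × E → ℂ, nrm (Matrix.vecMul x
      ((cpr E F (A.map (MonoidAlgebra.mapDomainRingHom ℤ ψ))).map (Int.cast : ℤ → ℂ))) ≤ c * nrm x := by
    intro x
    rw [← hint]
    have h4 : 0 ≤ nrm x := Real.sqrt_nonneg _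
    refine le_of_sq_le_sq ((hbound2 x).trans ?_) (by positivity)
    rw [mul_pow]
    have h5 : c ≤ c ^ 2 := by nlinarith
    exact mul_le_mul_of_nonneg_right h5 (sq_nonneg _)
  have hV2' : ∀ x ∈ V, nrm (Matrix.vecMul x
      ((cpr E F (A.map (MonoidAlgebra.mapDomainRingHom ℤ ψ))).map (Int.cast : ℤ → ℂ))) ≤ ε * nrm x := by
    intro x hx
    rw [← hint]
    exact hV2 x hx
  have h6 := luck_int (cpr E F (A.map (MonoidAlgebra.mapDomainRingHom ℤ ψ))) c hc1 hbound ε hε0 hε1 V hV2'
  rw [hlogε, ← hint, Fintype.card_prod, Fintype.card_fin, Fintype.card_coe] at h6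
  rw [Fintype.card_prod, Fintype.card_fin, Fintype.card_coe] at hV1
  push_cast at h6 hV1
  have hP : (0 : ℝ) < E.card := by exact_mod_cast hEne.card_pos
  have h7 : (k * E.card : ℝ) * (Real.log c / L) ≤ d / 8 * E.card := by
    calc (k * E.card : ℝ) * (Real.log c / L)
        = (k * (Real.log c / L)) * E.card := by ring
      _ ≤ _ := mul_le_mul_of_nonneg_right hkL hP.le
  have h8 : (k * E.card : ℝ) * (1 - c⁻¹ * ε ^ 2) ^ (m + m) ≤ d / 8 * E.card := by
    have h9 : (1 - c⁻¹ * ε ^ 2) ^ (m + m) ≤ (1 - c⁻¹ * ε ^ 2) ^ m :=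
      pow_le_pow_of_le_one hq0 hq1.le (Nat.le_add_left m m)
    calc (k * E.card : ℝ) * (1 - c⁻¹ * ε ^ 2) ^ (m + m) ≤ (k * E.card : ℝ) * (1 - c⁻¹ * ε ^ 2) ^ m :=
          mul_le_mul_of_nonneg_left h9 (by positivity)
      _ = (k * (1 - c⁻¹ * ε ^ 2) ^ m) * E.card := by ring
      _ ≤ _ := mul_le_mul_of_nonneg_right hm hP.le
  have h10 : (E'.card : ℝ) ≤ ((E.filter fun e => ∀ s ∈ S ^ m, e * s ∈ E).card : ℕ) := by
    exact_mod_cast Finset.card_le_card fun e he => Finset.mem_filter.2
      ⟨hE' he, fun s hs => hE'S e he s hs⟩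
  have h11 : d ≤ phi (toC A) c m := by rw [hd]; exact hlow m
  have h12 : (1 / 2 * E.card : ℝ) * d ≤ ((E.filter fun e => ∀ s ∈ S ^ m, e * s ∈ E).card : ℕ) * phi (toC A) c m := by
    refine mul_le_mul ?_ h11 hcon.le (by positivity)
    refine le_trans ?_ (hcard.trans h10)
    exact mul_le_mul_of_nonneg_right (by linarith) hP.le
  have h13 : 0 < d * E.card := mul_pos hcon hP
  have h14 : η * (E.card : ℝ) ≤ d / 8 * E.card := mul_le_mul_of_nonneg_right hη2 hP.le
  nlinarith

end Pool.Agent.S14

end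

section

/-!
# Project S14, block END: the vanishing of the `ℓ²`-kernel from amenable quotients
-/

set_option autoImplicit false
set_option linter.unusedSectionVars false

open Finset Filter Topology

namespace Pool.Agent.S14

open Pool.Agent.H4.Atiyah Pool.Agent.H4.Singer Pool.Agent.H93.S11

theorem map_adj {R G Q : Type} [Semiring R] [Group G] [Group Q] (ψ : G →* Q) {m n : Type}
    (A : Matrix m n (MonoidAlgebra R G)) :
    (adj A).map (MonoidAlgebra.mapDomainRingHom R ψ) = adj (A.map (MonoidAlgebra.mapDomainRingHom R ψ)) := by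
  classical
  ext i j y
  rw [coeff_adj]
  show (Finsupp.mapDomain ψ ((A j i).coeff.equivMapDomain (Equiv.inv G))) y = (Finsupp.mapDomain ψ (A j i).coeff) y⁻¹
  rw [Finsupp.equivMapDomain_eq_mapDomain, ← Finsupp.mapDomain_comp]
  have h1 : (ψ : G → Q) ∘ (Equiv.inv G) = (Equiv.inv Q) ∘ ψ := by
    funext x
    simp
  rw [h1, Finsupp.mapDomain_comp, ← Finsupp.equivMapDomain_eq_mapDomain (Equiv.inv Q)]
  rfl

theorem map_toK {K G Q : Type} [Field K] [Group G] [Group Q] (ψ : G →* Q) {m n : Type} (A : Matrix m n (MonoidAlgebra ℤ G)) :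
    (toK K A).map (MonoidAlgebra.mapDomainRingHom K ψ) = toK K (A.map (MonoidAlgebra.mapDomainRingHom ℤ ψ)) := by
  ext i j y
  show (Finsupp.mapDomain ψ (Finsupp.mapRange (Int.cast : ℤ → K) Int.cast_zero (A i j).coeff)) y =
    (((Finsupp.mapDomain ψ (A i j).coeff) y : ℤ) : K)
  rw [Finsupp.mapDomain_mapRange _ _ _ _ (fun x y => Int.cast_add x y), Finsupp.mapRange_apply]

/-- **Vanishing of the `ℓ²`-kernel from amenable quotients** -/
theorem l2_of_foel {H : Type} [Group H] [DecidableEq H] (K : Type) [Field K] {a b c : ℕ}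
    (D₁ : Matrix (Fin c) (Fin a) (MonoidAlgebra ℤ H)) (D₂ : Matrix (Fin b) (Fin c) (MonoidAlgebra ℤ H)) (hD : D₂ * D₁ = 0)
    {r₁ r₂ : ℕ} (rows₁ : Fin r₁ → Fin c) (rows₂ : Fin r₂ → Fin b) (hc : c ≤ r₁ + r₂)
    (h : ∀ T : Finset H, ∃ (Q : Type) (_ : Group Q) (ψ : H →* Q), Foel Q ∧ Set.InjOn ψ T ∧
      (∀ v : Fin r₁ → MonoidAlgebra K Q, Matrix.vecMul v (((toK K D₁).submatrix rows₁ id).map
        (MonoidAlgebra.mapDomainRingHom K ψ)) = 0 → v = 0) ∧
      (∀ v : Fin r₂ → MonoidAlgebra K Q, Matrix.vecMul v (((toK K D₂).submatrix rows₂ id).map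
        (MonoidAlgebra.mapDomainRingHom K ψ)) = 0 → v = 0)) :
    ∀ x ∈ l2ker (toC ((Matrix.fromCols D₁ (adj D₂)).submatrix id finSumFinEquiv.symm)), x = 0 := by
  classical
  apply l2ker_trivial_of_vnDim
  apply vnDim_nonpos_cmp
  intro η hη T
  obtain ⟨Q, gQ, ψ, hQ, hψ, h₁, h₂⟩ := h T
  refine ⟨Q, gQ, ψ, hψ, fun U => ?_⟩
  have e : ((Matrix.fromCols D₁ (adj D₂)).submatrix id finSumFinEquiv.symm).map (MonoidAlgebra.mapDomainRingHom ℤ ψ) =
      (Matrix.fromCols (D₁.map (MonoidAlgebra.mapDomainRingHom ℤ ψ))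
        (adj (D₂.map (MonoidAlgebra.mapDomainRingHom ℤ ψ)))).submatrix id (finSumFinEquiv (m := a) (n := b)).symm := by
    rw [← map_adj]
    ext i j : 2
    obtain ⟨j, rfl⟩ := (finSumFinEquiv (m := a) (n := b)).surjective j
    rcases j with j | j
    · simp
    · simp
  have hD' : D₂.map (MonoidAlgebra.mapDomainRingHom ℤ ψ) * D₁.map (MonoidAlgebra.mapDomainRingHom ℤ ψ) = 0 := by
    rw [← Matrix.map_mul, hD]
    ext i j : 2
    simp
  obtain ⟨E, E', F, hne, hsub, hU, hcard, hF, hrank⟩ := rank_cmp_ge hQ K (D₁.map (MonoidAlgebra.mapDomainRingHom ℤ ψ))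
    (D₂.map (MonoidAlgebra.mapDomainRingHom ℤ ψ)) hD' rows₁ rows₂ (by rw [← map_toK]; exact h₁) (by rw [← map_toK]; exact h₂)
    hc hη U
    ((univ.biUnion fun i => univ.biUnion fun j =>
      (((Matrix.fromCols D₁ (adj D₂)).submatrix id (finSumFinEquiv (m := a) (n := b)).symm) i j).coeff.support).image ψ)
  refine ⟨E, E', F, hne, hsub, hU, hcard, fun g hg i j s hs => hF g hg _ (mem_image_of_mem _ ?_), ?_⟩
  · exact mem_biUnion.2 ⟨i, mem_univ _, mem_biUnion.2 ⟨j, mem_univ _, hs⟩⟩
  · rw [e]
    exact hrank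

end Pool.Agent.S14

end

section

/-!
# Project S14, block END: the property `L2P` from amenable quotients
-/

set_option autoImplicit false
set_option linter.unusedSectionVars false

open Matrix

namespace Pool.Agent.S14

open Pool.Agent.H4.Atiyah Pool.Agent.H4.Singer Pool.Agent.H93.S11 Pool.Agent.S11

/-- finitely many rows which are independent over `D` stay independent over the group algebras of suitable amenable
quotients, which are injective on a given finite set -/
def FoelAppr {H D : Type} [Group H] [DivisionRing D] (ι : MonoidAlgebra (ZMod 2) H →+* D) : Prop :=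
  ∀ (r c r' c' : ℕ) (A : Matrix (Fin r) (Fin c) (MonoidAlgebra (ZMod 2) H))
    (B : Matrix (Fin r') (Fin c') (MonoidAlgebra (ZMod 2) H)),
    (∀ v : Fin r → D, v ᵥ* (A.map ι) = 0 → v = 0) → (∀ v : Fin r' → D, v ᵥ* (B.map ι) = 0 → v = 0) →
    ∀ T : Finset H, ∃ (Q : Type) (_ : Group Q) (ψ : H →* Q), Foel Q ∧ Set.InjOn ψ T ∧
      (∀ v : Fin r → MonoidAlgebra (ZMod 2) Q, v ᵥ* (A.map (MonoidAlgebra.mapDomainRingHom (ZMod 2) ψ)) = 0 → v = 0) ∧
      (∀ v : Fin r' → MonoidAlgebra (ZMod 2) Q, v ᵥ* (B.map (MonoidAlgebra.mapDomainRingHom (ZMod 2) ψ)) = 0 → v = 0)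

section

variable {H D : Type} [Group H] [DivisionRing D] (ι : MonoidAlgebra (ZMod 2) H →+* D)

theorem l2_of_exactA (hF : FoelAppr ι) {a b c : ℕ}
    (D₁ : Matrix (Fin c) (Fin a) (MonoidAlgebra ℤ H)) (D₂ : Matrix (Fin b) (Fin c) (MonoidAlgebra ℤ H)) (hD : D₂ * D₁ = 0)
    (hex : ∀ v : Fin c → D, v ᵥ* ((toK (ZMod 2) D₁).map ι) = 0 → ∃ u : Fin b → D,
      u ᵥ* ((toK (ZMod 2) D₂).map ι) = v) :
    ∀ x ∈ l2ker (toC ((Matrix.fromCols D₁ (adj D₂)).submatrix id finSumFinEquiv.symm)), x = 0 := by
  classical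
  have h0 : (toK (ZMod 2) D₂).map ι * (toK (ZMod 2) D₁).map ι = 0 := by
    have h1 : (toK (ZMod 2) D₂) * (toK (ZMod 2) D₁) = 0 := by
      unfold toK
      rw [← Matrix.map_mul, hD]
      ext i j
      simp
    rw [← Matrix.map_mul, h1]
    ext i j
    simp
  obtain ⟨p, q, r₁, r₂, h1, h2, h3⟩ := exists_rows _ _ h0 hex
  refine l2_of_foel (ZMod 2) D₁ D₂ hD r₂ r₁ (by omega) fun T => ?_
  exact hF q a p c ((toK (ZMod 2) D₁).submatrix r₂ id) ((toK (ZMod 2) D₂).submatrix r₁ id) h2 h1 T

/-- **No harmonic chains** -/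
theorem l2P_of_foel (hF : FoelAppr ι) : L2P ι := by
  classical
  intro a b c A B hAB hex x hx hz hc
  have edk_coeff : ∀ {m n : Type} (M : Matrix m n (MonoidAlgebra ℤ H)) (i : m) (j : n) (h : H),
      (toC M i j).coeff h = (((M i j).coeff h : ℤ) : ℂ) := fun M i j h => rfl
  have edk_supp : ∀ {m n : Type} (M : Matrix m n (MonoidAlgebra ℤ H)) (i : m) (j : n),
      (toC M i j).coeff.support = (M i j).coeff.support := by
    intro m n M i j
    ext h
    rw [Finsupp.mem_support_iff, Finsupp.mem_support_iff, edk_coeff, Ne, Int.cast_eq_zero]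
  have edk_memlp : Memℓp (fun p : Fin b × H => (x p.1 p.2 : ℂ)) 2 := by
    refine memℓp_gen ?_
    have h1 : (fun p : Fin b × H => ‖(x p.1 p.2 : ℂ)‖ ^ (2 : ENNReal).toReal) =
        fun p : Fin b × H => x p.1 p.2 ^ 2 := by
      funext p
      rw [Complex.norm_real, ENNReal.toReal_ofNat, Real.rpow_ofNat, Real.norm_eq_abs, sq_abs]
    rw [h1, summable_prod_of_nonneg (fun p => sq_nonneg _)]
    exact ⟨hx, Summable.of_finite⟩
  have h1 := row_of_col ((mod2 A).map ι) ((mod2 B).map ι) hex
  have key := l2_of_exactA ι hF B A hAB h1 ⟨_, edk_memlp⟩ ?_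
  · intro j h
    have h2 := congrFun (congrArg (fun y : lp (fun _ : Fin b × H => ℂ) 2 => (y : Fin b × H → ℂ)) key) (j, h)
    have h3 : (x j h : ℂ) = 0 := h2
    exact Complex.ofReal_eq_zero.1 h3
  · intro i g
    show ∑ j : Fin b, ∑ h ∈ (toC ((Matrix.fromCols B (adj A)).submatrix id finSumFinEquiv.symm) j i).coeff.support,
      (x j (g * h⁻¹) : ℂ) *
        (toC ((Matrix.fromCols B (adj A)).submatrix id finSumFinEquiv.symm) j i).coeff h = 0
    obtain ⟨i, rfl⟩ := (finSumFinEquiv (m := c) (n := a)).surjective i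
    have h4 : ∀ j, ((Matrix.fromCols B (adj A)).submatrix id finSumFinEquiv.symm) j (finSumFinEquiv i) =
        Matrix.fromCols B (adj A) j i := by
      intro j
      rw [Matrix.submatrix_apply, Equiv.symm_apply_apply, id]
    rcases i with l | l
    · have h5 : (((∑ j, ∑ h ∈ (B j l).coeff.support, ((B j l).coeff h : ℝ) * x j (g * h⁻¹) : ℝ)) : ℂ) = 0 := by
        rw [hc l g, Complex.ofReal_zero]
      refine Eq.trans ?_ h5
      rw [Complex.ofReal_sum]
      refine Finset.sum_congr rfl fun j _ => ?_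
      rw [edk_supp, h4, Matrix.fromCols_apply_inl, Complex.ofReal_sum]
      refine Finset.sum_congr rfl fun h _ => ?_
      rw [edk_coeff, h4, Matrix.fromCols_apply_inl, Complex.ofReal_mul, Complex.ofReal_intCast, mul_comm]
    · have h5 : (((∑ j, ∑ h ∈ (A l j).coeff.support, ((A l j).coeff h : ℝ) * x j (g * h) : ℝ)) : ℂ) = 0 := by
        rw [hz l g, Complex.ofReal_zero]
      refine Eq.trans ?_ h5
      rw [Complex.ofReal_sum]
      refine Finset.sum_congr rfl fun j _ => ?_
      rw [edk_supp, h4, Matrix.fromCols_apply_inr, Complex.ofReal_sum]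
      refine Finset.sum_equiv (Equiv.inv H) ?_ ?_
      · intro h
        rw [Finsupp.mem_support_iff, Finsupp.mem_support_iff, coeff_adj, Equiv.inv_apply]
      · intro h _
        rw [edk_coeff, h4, Matrix.fromCols_apply_inr, coeff_adj, Equiv.inv_apply, Complex.ofReal_mul,
          Complex.ofReal_intCast, mul_comm]

end

end Pool.Agent.S14

end

section

/-!
# Project S14: independent rows over an ultraproduct

`foelAppr_of`: `D` embeds in a ring `U` which is the image of `∏ F j` under `mk`, where `mk a = 0` only if `a j = 0` for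
almost all `j`; the group algebras of the amenable quotients `Q j` embed in the `F j`, and the diagram commutes.  Then
`FoelAppr ι`.
-/

set_option autoImplicit false
set_option linter.unusedSectionVars false

open Matrix

namespace Pool.Agent.S14

/-- independent rows over a division ring: there is a right inverse -/
theorem exists_rinv {D : Type} [DivisionRing D] {r c : ℕ} (A : Matrix (Fin r) (Fin c) D)
    (h : ∀ v : Fin r → D, v ᵥ* A = 0 → v = 0) : ∃ B : Matrix (Fin c) (Fin r) D, A * B = 1 := by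
  obtain ⟨f, hf⟩ : ∃ f : (Fin r → D) →ₗ[D] (Fin c → D), ∀ v, f v = v ᵥ* A := ⟨A.vecMulLinear, fun v => rfl⟩
  have h1 : LinearMap.ker f = ⊥ := by
    rw [LinearMap.ker_eq_bot']
    intro v hv
    exact h v ((hf v).symm.trans hv)
  obtain ⟨g, hg⟩ := f.exists_leftInverse_of_injective h1
  refine ⟨Matrix.of fun i j => g (Pi.single i 1) j, ?_⟩
  have h2 : ∀ w : Fin c → D, w ᵥ* (Matrix.of fun i j => g (Pi.single i 1) j) = g w := by
    intro w
    have h3 : w = ∑ i, w i • (Pi.single i (1 : D) : Fin c → D) := by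
      funext j
      rw [Finset.sum_apply, Finset.sum_eq_single j]
      · rw [Pi.smul_apply, Pi.single_eq_same, smul_eq_mul, mul_one]
      · intro i _ hi
        rw [Pi.smul_apply, Pi.single_eq_of_ne (Ne.symm hi), smul_zero]
      · intro hj
        exact absurd (Finset.mem_univ _) hj
    conv_rhs => rw [h3, map_sum]
    funext j
    rw [Finset.sum_apply]
    show ∑ i, w i * (g (Pi.single i 1) j) = _
    refine Finset.sum_congr rfl fun i _ => ?_
    rw [map_smul, Pi.smul_apply, smul_eq_mul]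
  ext i j
  have h4 : (Pi.single i (1 : D) ᵥ* (A * (Matrix.of fun i j => g (Pi.single i 1) j))) = Pi.single i 1 := by
    rw [← Matrix.vecMul_vecMul, h2, ← hf]
    exact LinearMap.congr_fun hg (Pi.single i 1)
  rw [Matrix.single_one_vecMul] at h4
  have h5 := congrFun h4 j
  rw [Matrix.one_apply]
  refine Eq.trans h5 ?_
  rw [Pi.single_apply]
  by_cases hij : j = i
  · rw [if_pos hij, if_pos hij.symm]
  · rw [if_neg hij, if_neg (Ne.symm hij)]

section

variable {H D U : Type} [Group H] [DivisionRing D] [Ring U] {ι : MonoidAlgebra (ZMod 2) H →+* D} {κ : D →+* U}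
  {Q F : ℕ → Type} [∀ j, Group (Q j)] [∀ j, Ring (F j)] {ψ : ∀ j, H →* Q j}
  {v : ∀ j, MonoidAlgebra (ZMod 2) (Q j) →+* F j} {mk : (∀ j, F j) →+* U} {l : Filter ℕ}

theorem rows_eventually (hv : ∀ j, Function.Injective (v j)) (hmk : Function.Surjective mk)
    (h0 : ∀ a, mk a = 0 → ∀ᶠ j in l, a j = 0)
    (hι : ∀ x, κ (ι x) = mk fun j => v j (MonoidAlgebra.mapDomainRingHom (ZMod 2) (ψ j) x)) {r c : ℕ}
    (A : Matrix (Fin r) (Fin c) (MonoidAlgebra (ZMod 2) H)) (hA : ∀ v : Fin r → D, v ᵥ* (A.map ι) = 0 → v = 0) :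
    ∀ᶠ j in l, ∀ w : Fin r → MonoidAlgebra (ZMod 2) (Q j),
      w ᵥ* (A.map (MonoidAlgebra.mapDomainRingHom (ZMod 2) (ψ j))) = 0 → w = 0 := by
  obtain ⟨B, hB⟩ := exists_rinv (A.map ι) hA
  choose b hb using fun (i : Fin c) (k : Fin r) => hmk (κ (B i k))
  have h1 : ∀ i k : Fin r, ∀ᶠ j in l,
      ∑ m, v j (MonoidAlgebra.mapDomainRingHom (ZMod 2) (ψ j) (A i m)) * b m k j = (1 : Matrix (Fin r) (Fin r) (F j)) i k := by
    intro i k
    have h2 : mk ((∑ m, (fun j => v j (MonoidAlgebra.mapDomainRingHom (ZMod 2) (ψ j) (A i m))) * b m k) -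
        (fun j => (1 : Matrix (Fin r) (Fin r) (F j)) i k)) = 0 := by
      rw [map_sub, map_sum, sub_eq_zero]
      have h3 : ∀ m, mk ((fun j => v j (MonoidAlgebra.mapDomainRingHom (ZMod 2) (ψ j) (A i m))) * b m k) =
          κ (ι (A i m) * B m k) := by
        intro m
        rw [map_mul, map_mul, hb, hι]
      rw [Finset.sum_congr rfl fun m _ => h3 m, ← map_sum]
      have h4 : ∑ m, ι (A i m) * B m k = (1 : Matrix (Fin r) (Fin r) D) i k := by
        rw [← hB]
        rfl
      rw [h4, Matrix.one_apply]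
      by_cases hik : i = k
      · rw [if_pos hik, map_one]
        have h5 : (fun j => (1 : Matrix (Fin r) (Fin r) (F j)) i k) = (1 : ∀ j, F j) := by
          funext j
          rw [Matrix.one_apply, if_pos hik]
          rfl
        rw [h5, map_one]
      · rw [if_neg hik, map_zero]
        have h5 : (fun j => (1 : Matrix (Fin r) (Fin r) (F j)) i k) = (0 : ∀ j, F j) := by
          funext j
          rw [Matrix.one_apply, if_neg hik]
          rfl
        rw [h5, map_zero]
    filter_upwards [h0 _ h2] with j hj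
    rw [Pi.sub_apply, sub_eq_zero, Finset.sum_apply] at hj
    exact hj
  have h2 : ∀ᶠ j in l, ∀ i k : Fin r,
      ∑ m, v j (MonoidAlgebra.mapDomainRingHom (ZMod 2) (ψ j) (A i m)) * b m k j = (1 : Matrix (Fin r) (Fin r) (F j)) i k := by
    rw [Filter.eventually_all]
    intro i
    rw [Filter.eventually_all]
    exact h1 i
  filter_upwards [h2] with j hj w hw
  have h3 : (A.map fun x => v j (MonoidAlgebra.mapDomainRingHom (ZMod 2) (ψ j) x)) * (Matrix.of fun m k => b m k j) = 1 := by
    ext i k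
    exact hj i k
  have h4 : (fun i => v j (w i)) ᵥ* (A.map fun x => v j (MonoidAlgebra.mapDomainRingHom (ZMod 2) (ψ j) x)) = 0 := by
    funext k
    have h5 := congrArg (v j) (congrFun hw k)
    rw [Pi.zero_apply, map_zero] at h5
    rw [Pi.zero_apply, ← h5]
    show ∑ i, v j (w i) * v j _ = v j (∑ i, w i * _)
    rw [map_sum]
    exact Finset.sum_congr rfl fun i _ => (map_mul _ _ _).symm
  have h5 : (fun i => v j (w i)) = 0 := by
    have h6 := congrArg (fun z => z ᵥ* (Matrix.of fun m k => b m k j)) h4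
    simp only [Matrix.vecMul_vecMul, h3, Matrix.vecMul_one, Matrix.zero_vecMul] at h6
    exact h6
  funext i
  apply hv j
  rw [Pi.zero_apply, map_zero]
  exact congrFun h5 i

/-- **Independent rows over an ultraproduct** -/
theorem foelAppr_of [l.NeBot] (hv : ∀ j, Function.Injective (v j)) (hmk : Function.Surjective mk)
    (h0 : ∀ a, mk a = 0 → ∀ᶠ j in l, a j = 0)
    (hι : ∀ x, κ (ι x) = mk fun j => v j (MonoidAlgebra.mapDomainRingHom (ZMod 2) (ψ j) x))
    (hψ : ∀ x : H, x ≠ 1 → ∀ᶠ j in l, ψ j x ≠ 1) (hQ : ∀ j, Foel (Q j)) : FoelAppr ι := by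
  classical
  intro r c r' c' A B hA hB T
  have h1 : ∀ᶠ j in l, ∀ p ∈ T ×ˢ T, p.1 ≠ p.2 → ψ j p.1 ≠ ψ j p.2 := by
    rw [Filter.eventually_all_finset]
    intro p _
    by_cases hne : p.1 = p.2
    · exact Filter.Eventually.of_forall fun j hc => absurd hne hc
    · have hne' : p.1⁻¹ * p.2 ≠ 1 := fun hc => hne (inv_mul_eq_one.1 hc)
      filter_upwards [hψ _ hne'] with j hj _ hc
      apply hj
      rw [map_mul, map_inv, hc, inv_mul_cancel]
  obtain ⟨j, hj, hjA, hjB⟩ := (h1.and ((rows_eventually hv hmk h0 hι A hA).and (rows_eventually hv hmk h0 hι B hB))).exists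
  refine ⟨Q j, inferInstance, ψ j, hQ j, fun x hx y hy hxy => ?_, hjA, hjB⟩
  by_contra hne
  exact hj (x, y) (Finset.mk_mem_product hx hy) hne hxy

end

end Pool.Agent.S14

end

section

/-!
# Project S14: the data: chains of normal subgroups, division rings, independence of the cosets

`un v h` = the image of the group element `h`; `DC v M` = the division ring generated by the elements of `M`;
`Dir v M` = the cosets `DC v M * h` are independent; `Chn H` = a chain of normal subgroups with left-ordered amenable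
quotients; `Frc Q` = a division ring with involution which contains `K[Q]`; `DatC H` = all data.
-/

set_option autoImplicit false
set_option linter.unusedSectionVars false

namespace Pool.Agent.S14

section

variable {H F : Type} [Group H] [DivisionRing F] (v : MonoidAlgebra (ZMod 2) H →+* F)

/-- the image of a group element -/
noncomputable def un (h : H) : F := v (MonoidAlgebra.single h 1)

/-- the division ring which is generated by the elements of `M` -/
noncomputable def DC (M : Subgroup H) : Subfield F := Subfield.closure (un v '' (M : Set H))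

/-- the cosets of `M` are independent over `DC v M` -/
def Dir (M : Subgroup H) : Prop :=
  ∀ (n : ℕ) (h : Fin n → H) (c : Fin n → F), (∀ i j, i ≠ j → h i * (h j)⁻¹ ∉ M) → (∀ i, c i ∈ DC v M) →
    ∑ i, c i * un v (h i) = 0 → ∀ i, c i = 0

end

/-- a chain of normal subgroups with left-ordered amenable quotients -/
structure Chn (H : Type) [Group H] where
  /-- the subgroups -/
  N : ℕ → Subgroup H
  nor : ∀ j, (N j).Normal
  zero : N 0 = ⊤
  anti : ∀ i j, i ≤ j → N j ≤ N i
  sep : ∀ x, (∀ j, x ∈ N j) → x = 1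
  /-- the left orders -/
  lo : ∀ j, LO (H ⧸ N j)
  mono : ∀ i j, i ≤ j → ∀ x y : H, (lo i).lt (x : H ⧸ N i) (y : H ⧸ N i) → (lo j).lt (x : H ⧸ N j) (y : H ⧸ N j)
  foel : ∀ j, Foel (H ⧸ N j)

attribute [instance] Chn.nor

/-- a division ring with an involution which contains the group algebra -/
structure Frc (Q : Type) [Group Q] where
  /-- the division ring -/
  F : Type
  /-- it is a division ring -/
  div : DivisionRing F
  /-- the homomorphism from the group algebra -/
  v : MonoidAlgebra (ZMod 2) Q →+* F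
  inj : Function.Injective v
  /-- the involution -/
  st : F → F
  st_add : ∀ a b, st (a + b) = st a + st b
  st_mul : ∀ a b, st (a * b) = st b * st a
  st_st : ∀ a, st (st a) = a
  st_un : ∀ q : Q, st (un v q) = un v q⁻¹

attribute [instance] Frc.div

/-- all data -/
structure DatC (H : Type) [Group H] extends Chn H where
  /-- the division ring -/
  D : Type
  /-- it is a division ring -/
  div : DivisionRing D
  /-- of characteristic two -/
  alg : Algebra (ZMod 2) D
  /-- the homomorphism from the group algebra -/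
  ι : MonoidAlgebra (ZMod 2) H →+* D
  inj : Function.Injective ι
  gen : Subfield.closure (Set.range (un ι)) = ⊤
  /-- the involution -/
  st : D → D
  st_add : ∀ a b, st (a + b) = st a + st b
  st_mul : ∀ a b, st (a * b) = st b * st a
  st_st : ∀ a, st (st a) = a
  st_un : ∀ h : H, st (un ι h) = un ι h⁻¹
  dir : ∀ j, Dir ι (N j)
  appr : FoelAppr ι

attribute [instance] DatC.div DatC.alg

end Pool.Agent.S14

end

section

/-!
# Project S14: the division ring of fractions of the group algebra of a left-ordered amenable group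
-/

set_option autoImplicit false
set_option linter.unusedSectionVars false

namespace Pool.Agent.S14

/-- **The division ring of fractions** -/
theorem exists_frc {Q : Type} [Group Q] [LO Q] (hQ : Foel Q) : Nonempty (Frc Q) := by
  obtain ⟨F, hF, v, st, h1, -, h3, h4, h5⟩ := exists_frcA (Q := Q) hQ.fol
  refine ⟨⟨F, hF, v, h1, st, fun a b => map_add st a b, h3, h4, fun q => ?_⟩⟩
  unfold un
  rw [h5]
  congr 1
  exact Pool.Agent.S11.stA_single _ _

end Pool.Agent.S14

end

section

/-!
# Project S14: the cosets of a subgroup of an amenable group are independent over its division ring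

PROOF.  `K[Q] ⊆ F` has no zero divisors.  `M` is amenable (`E5`), so `v (K[M])` is a left Ore subring of `F` and every element of
`DC v M` is `s⁻¹ t` with `s`, `t` in `v (K[M])` (`S12/Ore.exists_lfrac`); common denominators (`common_left`):
`s c_i = v t_i`, `t_i ∈ K[M]`, so `∑ t_i h_i = 0` in `K[Q]`; the supports are disjoint (the `M h_i` are disjoint): `t_i = 0`.
-/

set_option autoImplicit false
set_option linter.unusedSectionVars false

namespace Pool.Agent.S14

/-- the coefficients of an element of the group algebra of a subgroup, multiplied by a group element -/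
theorem frcD_coeff {Q : Type} [Group Q] (M : Subgroup Q) (t : MonoidAlgebra (ZMod 2) M) (m h : Q) :
    (MonoidAlgebra.mapDomainRingHom (ZMod 2) M.subtype t * MonoidAlgebra.single h 1).coeff m =
      Finsupp.mapDomain (M.subtype : M → Q) t.coeff (m * h⁻¹) := by
  rw [MonoidAlgebra.coeff_mul_single_apply, mul_one]
  simp

/-- **Independence of the cosets** -/
theorem dir_of_foel {Q F : Type} [Group Q] [DivisionRing F] (v : MonoidAlgebra (ZMod 2) Q →+* F)
    (hv : Function.Injective v) (hQ : Foel Q) (M : Subgroup Q) : Dir v M := by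
  classical
  intro n h c hne hc hsum
  obtain ⟨g, hg⟩ : ∃ g : MonoidAlgebra (ZMod 2) M →+* MonoidAlgebra (ZMod 2) Q,
      g = MonoidAlgebra.mapDomainRingHom (ZMod 2) M.subtype := ⟨_, rfl⟩
  have hginj : Function.Injective g := by
    rw [injective_iff_map_eq_zero]
    intro a ha
    have h1 : Finsupp.mapDomain (M.subtype : M → Q) a.coeff = 0 := by
      have := congrArg MonoidAlgebra.coeff (hg ▸ ha)
      simpa using this
    have h2 : a.coeff = 0 := Finsupp.mapDomain_injective Subtype.val_injective (by rw [Finsupp.mapDomain_zero]; exact h1)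
    exact MonoidAlgebra.coeff_injective (by rw [h2]; rfl)
  obtain ⟨w, hw⟩ : ∃ w : MonoidAlgebra (ZMod 2) M →+* F, w = v.comp g := ⟨_, rfl⟩
  have hwinj : Function.Injective w := by
    rw [hw]
    exact hv.comp hginj
  have hM : Foel M := hQ.comap M.subtype Subtype.val_injective
  have h0 : ∀ a b : MonoidAlgebra (ZMod 2) M, a * b = 0 → a = 0 ∨ b = 0 := by
    intro a b hab
    have h1 : w a * w b = 0 := by rw [← map_mul, hab, map_zero]
    rcases mul_eq_zero.1 h1 with h2 | h2
    · exact Or.inl (hwinj (by rw [h2, map_zero]))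
    · exact Or.inr (hwinj (by rw [h2, map_zero]))
  have hO : S12.LOre w.range := by
    rintro _ ⟨a, rfl⟩ _ ⟨b, rfl⟩ hb
    have hb0 : b ≠ 0 := fun h1 => hb (by rw [h1, map_zero])
    obtain ⟨p, r, hp, hpr⟩ := oreK hM h0 a b hb0
    refine ⟨w p, ⟨p, rfl⟩, w r, ⟨r, rfl⟩, fun h1 => hp (hwinj (by rw [h1, map_zero])), ?_⟩
    rw [← map_mul, ← map_mul, hpr]
  obtain ⟨E, hE⟩ := S12.exists_lfrac hO
  have hDC : DC v M ≤ E := by
    unfold DC
    rw [Subfield.closure_le]
    rintro _ ⟨m, hm, rfl⟩
    refine (hE _).2 ⟨1, w.range.one_mem, one_ne_zero, ?_⟩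
    rw [one_mul]
    refine ⟨MonoidAlgebra.single ⟨m, hm⟩ 1, ?_⟩
    rw [hw, hg]
    unfold un
    simp
  obtain ⟨s, hs, hs0, hsc⟩ := S12.common_left hO (Finset.univ.image c) (by
    intro a ha
    obtain ⟨i, _, rfl⟩ := Finset.mem_image.1 ha
    exact (hE _).1 (hDC (hc i)))
  choose t ht using fun i => hsc (c i) (Finset.mem_image_of_mem _ (Finset.mem_univ i))
  have h1 : v (∑ i, g (t i) * MonoidAlgebra.single (h i) 1) = 0 := by
    rw [map_sum]
    have h2 : ∀ i, v (g (t i) * MonoidAlgebra.single (h i) 1) = s * (c i * un v (h i)) := by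
      intro i
      rw [map_mul, ← mul_assoc, ← ht i, hw]
      rfl
    rw [Finset.sum_congr rfl fun i _ => h2 i, ← Finset.mul_sum, hsum, mul_zero]
  have h2 : ∑ i, g (t i) * MonoidAlgebra.single (h i) 1 = 0 := hv (by rw [h1, map_zero])
  intro i
  have h3 : t i = 0 := by
    apply MonoidAlgebra.coeff_injective
    ext m
    have h4 := congrArg (fun x => MonoidAlgebra.coeff x ((m : Q) * h i)) h2
    simp only [MonoidAlgebra.coeff_sum, Finsupp.finsetSum_apply] at h4
    rw [Finset.sum_eq_single i] at h4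
    · rw [hg, frcD_coeff, mul_inv_cancel_right] at h4
      have h5 := Finsupp.mapDomain_apply (f := (M.subtype : M → Q)) Subtype.val_injective (t i).coeff m
      rw [show (M.subtype : M → Q) m = (m : Q) from rfl] at h5
      rw [← h5]
      simpa using h4
    · intro j _ hj
      rw [hg, frcD_coeff]
      apply Finsupp.mapDomain_of_notMem_range
      rintro ⟨x, hx⟩
      refine hne i j (Ne.symm hj) ?_
      have h6 : (x : Q) = (m : Q) * h i * (h j)⁻¹ := hx
      have h7 : h i * (h j)⁻¹ = (m : Q)⁻¹ * x := by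
        rw [h6]
        group
      rw [h7]
      exact M.mul_mem (M.inv_mem m.2) x.2
    · intro h5
      exact absurd (Finset.mem_univ i) h5
  have h4 := ht i
  rw [h3, map_zero] at h4
  rcases mul_eq_zero.1 h4.symm with h5 | h5
  · exact absurd h5 hs0
  · exact h5

end Pool.Agent.S14

end

section

/-!
# Project S14: the homomorphism from the group algebra to the ultraproduct
-/

set_option autoImplicit false
set_option linter.unusedSectionVars false

namespace Pool.Agent.S14

variable {H : Type} [Group H] (C : Chn H) (Fr : ∀ j, Frc (H ⧸ C.N j))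

/-- the reduction to the level `j` -/
noncomputable def red (j : ℕ) : MonoidAlgebra (ZMod 2) H →+* (Fr j).F :=
  (Fr j).v.comp (MonoidAlgebra.mapDomainRingHom (ZMod 2) (QuotientGroup.mk' (C.N j)))

/-- the homomorphism to the ultraproduct -/
noncomputable def vU : MonoidAlgebra (ZMod 2) H →+* Up fun j => (Fr j).F :=
  (Up.mk _).comp (Pi.ringHom fun j => red C Fr j)

theorem vU_apply (a : MonoidAlgebra (ZMod 2) H) : vU C Fr a = Up.mk _ fun j => red C Fr j a := rfl

theorem red_single (j : ℕ) (h : H) :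
    red C Fr j (MonoidAlgebra.single h 1) = un (Fr j).v (h : H ⧸ C.N j) := by
  unfold red un
  simp

end Pool.Agent.S14

end

section

/-!
# Project S14: injectivity and independence of the cosets in the ultraproduct

PROOF of `dirU`: every element of `DC (vU) (N i)` is `Up.mk x` with `x j` in `DC v_j (image of N i)` for all `j` (put `x j = 0` where
necessary; closure induction, `Up.mk_inv`).  `Up.mk_eq_iff`: the relation holds for almost all `j`, in particular one can take
`j ≥ i` (`hyperfilter` contains the cofinite sets), where `h a * (h b)⁻¹ ∉ N i` gives the same in `H ⧸ N j` (`N j ≤ N i`); so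
all coefficients are zero for almost all `j`.
-/

set_option autoImplicit false
set_option linter.unusedSectionVars false

namespace Pool.Agent.S14

variable {H : Type} [Group H] (C : Chn H) (Fr : ∀ j, Frc (H ⧸ C.N j))

/-- all large `j` belong to the sets of the hyperfilter -/
theorem dirU_large {p : ℕ → Prop} (h : ∀ᶠ j in (Filter.atTop : Filter ℕ), p j) :
    ∀ᶠ j in (Filter.hyperfilter ℕ : Filter ℕ), p j := by
  have h1 : (Filter.hyperfilter ℕ : Filter ℕ) ≤ Filter.atTop := by
    rw [← Nat.cofinite_eq_atTop]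
    exact Filter.hyperfilter_le_cofinite
  exact h1 h

/-- the image of a group element -/
theorem dirU_un (h : H) : un (vU C Fr) h = Up.mk _ fun j => un (Fr j).v (h : H ⧸ C.N j) := by
  unfold un
  rw [vU_apply]
  congr 1
  funext j
  rw [red_single]
  rfl

/-- a finite set of group elements is separated by almost all quotients -/
theorem dirU_sep (S : Finset H) : ∀ᶠ j in (Filter.atTop : Filter ℕ),
    Set.InjOn (QuotientGroup.mk' (C.N j)) (S : Set H) := by
  have key : ∀ x ∈ S, ∀ y ∈ S, ∀ᶠ j in (Filter.atTop : Filter ℕ),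
      QuotientGroup.mk' (C.N j) x = QuotientGroup.mk' (C.N j) y → x = y := by
    intro x _ y _
    by_cases hxy : x = y
    · exact Filter.Eventually.of_forall fun _ _ => hxy
    · have : ∃ j, x⁻¹ * y ∉ C.N j := by
        by_contra hc
        push Not at hc
        exact hxy (inv_mul_eq_one.mp (C.sep _ hc))
      obtain ⟨j0, hj0⟩ := this
      filter_upwards [Filter.eventually_ge_atTop j0] with j hj he
      exact absurd (C.anti _ _ hj (QuotientGroup.eq.mp he)) hj0
  have h2 : ∀ᶠ j in (Filter.atTop : Filter ℕ), ∀ x ∈ S, ∀ y ∈ S,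
      QuotientGroup.mk' (C.N j) x = QuotientGroup.mk' (C.N j) y → x = y := by
    rw [Filter.eventually_all_finset]
    intro x hx
    rw [Filter.eventually_all_finset]
    intro y hy
    exact key x hx y hy
  filter_upwards [h2] with j hj x hx y hy
  exact hj x hx y hy

/-- **Injectivity** -/
theorem vU_injective : Function.Injective (vU C Fr) := by
  rw [injective_iff_map_eq_zero]
  intro a ha
  rw [vU_apply] at ha
  have h1 : Up.mk _ (fun j => red C Fr j a) = Up.mk (fun j => (Fr j).F) 0 := by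
    rw [ha, map_zero]
  rw [Up.mk_eq_iff] at h1
  have h2 := dirU_large (dirU_sep C a.coeff.support)
  obtain ⟨j, hj1, hj2⟩ := (h1.and h2).exists
  have h3 : MonoidAlgebra.mapDomainRingHom (ZMod 2) (QuotientGroup.mk' (C.N j)) a = 0 := by
    apply (Fr j).inj
    rw [map_zero]
    exact hj1
  have h4 : Finsupp.mapDomain (QuotientGroup.mk' (C.N j)) a.coeff = 0 := by
    have := congrArg MonoidAlgebra.coeff h3
    simpa using this
  have h5 : a.coeff = 0 := by
    apply Finsupp.mapDomain_injOn (S := (a.coeff.support : Set H)) hj2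
    · exact fun x hx => hx
    · simp
    · rw [h4, Finsupp.mapDomain_zero]
  exact MonoidAlgebra.coeff_injective (by rw [h5]; rfl)

/-- the elements of the division closure are represented by sequences of elements of the division closures -/
theorem dirU_rep (i : ℕ) (a : Up fun j => (Fr j).F) (ha : a ∈ DC (vU C Fr) (C.N i)) :
    ∃ x : ∀ j, (Fr j).F, (∀ j, x j ∈ DC (Fr j).v ((C.N i).map (QuotientGroup.mk' (C.N j)))) ∧
      Up.mk _ x = a := by
  unfold DC at ha
  induction ha using Subfield.closure_induction with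
  | mem a ha =>
    obtain ⟨m, hm, rfl⟩ := ha
    refine ⟨fun j => un (Fr j).v (m : H ⧸ C.N j), fun j => ?_, (dirU_un C Fr m).symm⟩
    exact Subfield.subset_closure ⟨_, ⟨m, hm, rfl⟩, rfl⟩
  | one => exact ⟨1, fun j => one_mem _, map_one _⟩
  | add a b _ _ ha hb =>
    obtain ⟨x, hx, rfl⟩ := ha
    obtain ⟨y, hy, rfl⟩ := hb
    exact ⟨x + y, fun j => add_mem (hx j) (hy j), map_add _ _ _⟩
  | neg a _ ha =>
    obtain ⟨x, hx, rfl⟩ := ha
    exact ⟨-x, fun j => neg_mem (hx j), map_neg _ _⟩
  | inv a _ ha =>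
    obtain ⟨x, hx, rfl⟩ := ha
    exact ⟨fun j => (x j)⁻¹, fun j => inv_mem (hx j), (Up.mk_inv x).symm⟩
  | mul a b _ _ ha hb =>
    obtain ⟨x, hx, rfl⟩ := ha
    obtain ⟨y, hy, rfl⟩ := hb
    exact ⟨x * y, fun j => mul_mem (hx j) (hy j), map_mul _ _ _⟩

/-- **Independence of the cosets** -/
theorem dirU (hd : ∀ i j, i ≤ j → Dir (Fr j).v ((C.N i).map (QuotientGroup.mk' (C.N j)))) (i : ℕ) :
    Dir (vU C Fr) (C.N i) := by
  intro n h c hne hc hsum
  choose x hx hxc using fun a => dirU_rep C Fr i (c a) (hc a)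
  have h1 : Up.mk (fun j => (Fr j).F) (fun j => ∑ a, x a j * un (Fr j).v (h a : H ⧸ C.N j)) =
      Up.mk (fun j => (Fr j).F) 0 := by
    rw [map_zero, ← hsum]
    have : (fun j => ∑ a, x a j * un (Fr j).v (h a : H ⧸ C.N j)) =
        ∑ a, (x a * fun j => un (Fr j).v (h a : H ⧸ C.N j)) := by
      funext j
      rw [Finset.sum_apply]
      rfl
    rw [this, map_sum]
    refine Finset.sum_congr rfl fun a _ => ?_
    rw [map_mul, hxc, dirU_un]
  rw [Up.mk_eq_iff] at h1
  have h2 := dirU_large (Filter.eventually_ge_atTop i)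
  have h3 : ∀ᶠ j in (Filter.hyperfilter ℕ : Filter ℕ), ∀ a, x a j = 0 := by
    filter_upwards [h1, h2] with j hj hij
    refine hd i j hij n (fun a => (h a : H ⧸ C.N j)) (fun a => x a j) ?_ (fun a => hx a j) hj
    intro a b hab hm
    obtain ⟨m, hm, hme⟩ := hm
    refine hne a b hab ?_
    have h4 : m⁻¹ * (h a * (h b)⁻¹) ∈ C.N j := by
      apply QuotientGroup.eq.mp
      exact hme
    have h5 := mul_mem hm (C.anti _ _ hij h4)
    rwa [mul_inv_cancel_left] at h5
  intro a
  rw [← hxc a, ← map_zero (Up.mk fun j => (Fr j).F), Up.mk_eq_iff]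
  exact h3.mono fun j hj => hj a

end Pool.Agent.S14

end
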