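import Pool.Agent.H71.TSG.M14
import Pool.Agent.H71.TSG.M84

/-! The parts of this file: S11.EdHil, S11.EdD, S11.SqC, S11.SqMain, S14.SqLO. -/

section

/-!
# Project S11, block END: Hilbert space argument

PROOF.  In `ℓ²` project the cycle `z` to the closure of the boundaries of the finite chains with `i + 2` vertices: `z = m + w`.  `w` is
orthogonal to the boundaries of the single simplices `t`: `IsCoc`; `w = z - m` is a cycle because the conditions `bdR r w s = 0` are
continuous (finite sums, `hlf`).  So `w = 0`.  (Finite chains have finite boundaries, so the difference is square summable.)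
-/

set_option autoImplicit false
set_option linter.unusedSectionVars false

open Finset

namespace Pool.Agent.S11

variable {U : Type} [DecidableEq U] {X : Set (Finset U)}

/-- the boundary of a chain on the subsets of a finite set is a finite sum -/
private theorem hil_bdR_eq (r : U → U → Prop) {y : Finset U → ℝ} (V : Finset U) (hV : ∀ t, y t ≠ 0 → t ⊆ V)
    (s : Finset U) : bdR r y s = ∑ v ∈ V.filter (fun v => v ∉ s), (sgR r s v : ℝ) * y (insert v s) := by
  unfold bdR
  rw [finsum_mem_eq_sum_of_inter_support_eq]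
  ext v
  constructor
  · rintro ⟨h1, h2⟩
    refine ⟨?_, h2⟩
    rw [Finset.mem_coe, Finset.mem_filter]
    exact ⟨hV _ (right_ne_zero_of_mul h2) (Finset.mem_insert_self v s), h1⟩
  · rintro ⟨h1, h2⟩
    rw [Finset.mem_coe, Finset.mem_filter] at h1
    exact ⟨h1.2, h2⟩

/-- the indicator of a simplex -/
private def hil_dl (t : Finset U) (s : Finset U) : ℝ := if s = t then 1 else 0

private theorem hil_dl_ne {t s : Finset U} (h : hil_dl t s ≠ 0) : s = t := by
  by_contra hne
  exact h (if_neg hne)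

private theorem hil_b_ne (r : U → U → Prop) {t s : Finset U} (h : bdR r (hil_dl t) s ≠ 0) :
    ∃ v ∈ t, s = t.erase v := by
  rw [hil_bdR_eq r t (fun t' ht' => (hil_dl_ne ht').le)] at h
  obtain ⟨v, hv, hne⟩ := Finset.exists_ne_zero_of_sum_ne_zero h
  rw [Finset.mem_filter] at hv
  have h1 := hil_dl_ne (right_ne_zero_of_mul hne)
  refine ⟨v, hv.1, ?_⟩
  rw [← h1, Finset.erase_insert hv.2]

private theorem hil_b_erase (r : U → U → Prop) {t : Finset U} {v : U} (hv : v ∈ t) :
    bdR r (hil_dl t) (t.erase v) = (sgR r (t.erase v) v : ℝ) := by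
  rw [hil_bdR_eq r t (fun t' ht' => (hil_dl_ne ht').le)]
  have h1 : t.filter (fun u => u ∉ t.erase v) = {v} := by
    ext u
    rw [Finset.mem_filter, Finset.mem_singleton, Finset.mem_erase]
    constructor
    · rintro ⟨h1, h2⟩
      by_contra h3
      exact h2 ⟨h3, h1⟩
    · rintro rfl
      exact ⟨hv, fun h => h.1 rfl⟩
  rw [h1, Finset.sum_singleton, Finset.insert_erase hv]
  show (sgR r (t.erase v) v : ℝ) * (if t = t then 1 else 0) = _
  rw [if_pos rfl, mul_one]

private theorem hil_sg (r : U → U → Prop) {s : Finset U} {a b : U} (ha : a ∉ s) (h : r a b) :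
    sgR r (insert a s) b = - sgR r s b := by
  classical
  unfold sgR
  rw [Finset.filter_insert, if_pos h, Finset.card_insert_of_notMem, pow_succ, mul_neg, mul_one]
  exact fun h1 => ha (Finset.mem_filter.1 h1).1

private theorem hil_sg' (r : U → U → Prop) {s : Finset U} {a b : U} (h : ¬ r a b) :
    sgR r (insert a s) b = sgR r s b := by
  classical
  unfold sgR
  rw [Finset.filter_insert, if_neg h]

/-- the boundary of the boundary -/
private theorem hil_bb (hdown : ∀ s ∈ X, ∀ t, t ⊆ s → t.Nonempty → t ∈ X) {r : U → U → Prop} (hT : Tot X r)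
    {t s : Finset U} (ht : t ∈ X) (W : Finset U) (hW : ∀ v, v ∈ W ↔ v ∉ s ∧ insert v s ∈ X) :
    ∑ v ∈ W, (sgR r s v : ℝ) * bdR r (hil_dl t) (insert v s) = 0 := by
  by_cases h0 : ∃ a b, a ∉ s ∧ b ∉ s ∧ a ≠ b ∧ insert b (insert a s) = t
  · obtain ⟨a, b, ha, hb, hab, rfl⟩ := h0
    have hva : insert a s ∈ X := hdown _ ht _ (Finset.subset_insert _ _) (Finset.insert_nonempty _ _)
    have hvb : insert b s ∈ X := hdown _ ht _
      (Finset.insert_subset_insert _ (Finset.subset_insert _ _)) (Finset.insert_nonempty _ _)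
    have hsub : ({a, b} : Finset U) ⊆ W := by
      intro v hv
      rw [Finset.mem_insert, Finset.mem_singleton] at hv
      rcases hv with rfl | rfl
      · exact (hW _).2 ⟨ha, hva⟩
      · exact (hW _).2 ⟨hb, hvb⟩
    rw [← Finset.sum_subset hsub, Finset.sum_pair hab]
    · have e1 : insert a s = (insert b (insert a s)).erase b := by
        rw [Finset.erase_insert]
        rw [Finset.mem_insert]
        rintro (h | h)
        · exact hab h.symm
        · exact hb h
      have e2 : insert b s = (insert b (insert a s)).erase a := by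
        rw [Finset.insert_comm, Finset.erase_insert]
        rw [Finset.mem_insert]
        rintro (h | h)
        · exact hab h
        · exact ha h
      have f1 : bdR r (hil_dl (insert b (insert a s))) (insert a s) = (sgR r (insert a s) b : ℝ) := by
        have := hil_b_erase r (Finset.mem_insert_self b (insert a s))
        rwa [← e1] at this
      have f2 : bdR r (hil_dl (insert b (insert a s))) (insert b s) = (sgR r (insert b s) a : ℝ) := by
        have := hil_b_erase r (Finset.mem_insert_of_mem (a := a) (b := b) (Finset.mem_insert_self a s))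
        rwa [← e2] at this
      rw [f1, f2]
      have hab' := (hT _ ht a (Finset.mem_insert_of_mem (Finset.mem_insert_self a s)) b
        (Finset.mem_insert_self b _) hab).1
      rcases hab' with ⟨h1, h2⟩ | ⟨h1, h2⟩
      · rw [hil_sg r ha h1, hil_sg' r h2]
        push_cast
        ring
      · rw [hil_sg r hb h1, hil_sg' r h2]
        push_cast
        ring
    · intro v hv hv'
      rw [hW] at hv
      by_contra hne
      obtain ⟨c, hc, hcc⟩ := hil_b_ne r (right_ne_zero_of_mul hne)
      have h1 : v ∈ (insert b (insert a s)).erase c := by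
        rw [← hcc]
        exact Finset.mem_insert_self _ _
      have h2 := Finset.mem_of_mem_erase h1
      rw [Finset.mem_insert, Finset.mem_insert] at h2
      rw [Finset.mem_insert, Finset.mem_singleton] at hv'
      push Not at hv'
      rcases h2 with h2 | h2 | h2
      · exact hv'.2 h2
      · exact hv'.1 h2
      · exact hv.1 h2
  · refine Finset.sum_eq_zero fun v hv => ?_
    rw [hW] at hv
    by_contra hne
    obtain ⟨c, hc, hcc⟩ := hil_b_ne r (right_ne_zero_of_mul hne)
    apply h0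
    have hcn : c ∉ insert v s := by
      rw [hcc]
      exact Finset.notMem_erase c t
    rw [Finset.mem_insert] at hcn
    push Not at hcn
    exact ⟨v, c, hv.1, hcn.2, fun h => hcn.1 h.symm, by rw [hcc, Finset.insert_erase hc]⟩

private theorem hil_mem {z : Finset U → ℝ} (h : Summable fun s => z s ^ 2) : Memℓp z 2 := by
  rw [memℓp_gen_iff (by norm_num)]
  simpa using h

private theorem hil_norm_sq (f : lp (fun _ : Finset U => ℝ) 2) : ‖f‖ ^ 2 = ∑' s, (f s) ^ 2 := by
  rw [← real_inner_self_eq_norm_sq, lp.inner_eq_tsum]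
  refine tsum_congr fun s => ?_
  rw [real_inner_self_eq_norm_sq, Real.norm_eq_abs, sq_abs]

private theorem hil_summable (f : lp (fun _ : Finset U => ℝ) 2) : Summable fun s => (f s) ^ 2 := by
  have h := lp.summable_inner (𝕜 := ℝ) f f
  refine h.congr fun s => ?_
  rw [real_inner_self_eq_norm_sq, Real.norm_eq_abs, sq_abs]

private theorem hil_fin {y : Finset U → ℝ} (h : (Function.support y).Finite) :
    Summable fun s => y s ^ 2 := by
  refine summable_of_hasFiniteSupport (h.subset ?_)
  intro s hs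
  rw [Function.mem_support] at hs ⊢
  exact fun h0 => hs (by rw [h0]; norm_num)

private theorem hil_b_fin (r : U → U → Prop) (t : Finset U) : (Function.support (bdR r (hil_dl t))).Finite := by
  refine (t.image t.erase).finite_toSet.subset ?_
  intro s hs
  obtain ⟨v, hv, rfl⟩ := hil_b_ne r hs
  rw [Finset.mem_coe]
  exact Finset.mem_image_of_mem _ hv

/-- the boundary of a simplex, as an element of the Hilbert space -/
private noncomputable def hil_b (r : U → U → Prop) (t : Finset U) : lp (fun _ : Finset U => ℝ) 2 :=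
  ⟨bdR r (hil_dl t), hil_mem (hil_fin (hil_b_fin r t))⟩

/-- finite chains -/
private def hil_Fin (X : Set (Finset U)) (r : U → U → Prop) (i : ℕ) (f : lp (fun _ : Finset U => ℝ) 2) : Prop :=
  ∃ (V : Finset U) (y : Finset U → ℝ), (∀ s, y s ≠ 0 → s ∈ X ∧ s.card = i + 2 ∧ s ⊆ V) ∧ ∀ s, f s = bdR r y s

private theorem hil_span (X : Set (Finset U)) (r : U → U → Prop) (i : ℕ) (f : lp (fun _ : Finset U => ℝ) 2)
    (hf : f ∈ Submodule.span ℝ (hil_b r '' {t | t ∈ X ∧ t.card = i + 2})) : hil_Fin X r i f := by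
  induction hf using Submodule.span_induction with
  | mem x hx =>
    obtain ⟨t, ht, rfl⟩ := hx
    refine ⟨t, hil_dl t, fun s hs => ?_, fun s => rfl⟩
    rw [hil_dl_ne hs]
    exact ⟨ht.1, ht.2, subset_rfl⟩
  | zero =>
    refine ⟨∅, 0, fun s hs => absurd rfl hs, fun s => ?_⟩
    have h1 := hil_bdR_eq r (y := (0 : Finset U → ℝ)) ∅ (fun t ht => absurd rfl ht) s
    rw [h1]
    simp
  | add x x' _ _ hx hx' =>
    obtain ⟨V, y, hy, hyx⟩ := hx
    obtain ⟨V', y', hy', hyx'⟩ := hx'
    have h1 : ∀ s, y s ≠ 0 → s ⊆ V ∪ V' := fun s hs => (hy s hs).2.2.trans Finset.subset_union_left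
    have h2 : ∀ s, y' s ≠ 0 → s ⊆ V ∪ V' := fun s hs => (hy' s hs).2.2.trans Finset.subset_union_right
    have h3 : ∀ s, (y + y') s ≠ 0 → s ∈ X ∧ s.card = i + 2 ∧ s ⊆ V ∪ V' := by
      intro s hs
      by_cases h0 : y s = 0
      · have h0' : y' s ≠ 0 := by
          intro h0'
          exact hs (by rw [Pi.add_apply, h0, h0', add_zero])
        exact ⟨(hy' s h0').1, (hy' s h0').2.1, h2 s h0'⟩
      · exact ⟨(hy s h0).1, (hy s h0).2.1, h1 s h0⟩
    refine ⟨V ∪ V', y + y', h3, fun s => ?_⟩
    have e : (x + x') s = x s + x' s := rfl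
    rw [e, hyx, hyx', hil_bdR_eq r (V ∪ V') h1, hil_bdR_eq r (V ∪ V') h2,
      hil_bdR_eq r (V ∪ V') fun s hs => (h3 s hs).2.2, ← Finset.sum_add_distrib]
    refine Finset.sum_congr rfl fun v _ => ?_
    rw [Pi.add_apply, mul_add]
  | smul c x _ hx =>
    obtain ⟨V, y, hy, hyx⟩ := hx
    have h3 : ∀ s, (c • y) s ≠ 0 → s ∈ X ∧ s.card = i + 2 ∧ s ⊆ V := by
      intro s hs
      refine hy s fun h0 => hs ?_
      rw [Pi.smul_apply, h0, smul_zero]
    refine ⟨V, c • y, h3, fun s => ?_⟩
    have e : (c • x) s = c * x s := rfl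
    rw [e, hyx, hil_bdR_eq r V fun s hs => (hy s hs).2.2, hil_bdR_eq r V fun s hs => (h3 s hs).2.2,
      Finset.mul_sum]
    refine Finset.sum_congr rfl fun v _ => ?_
    rw [Pi.smul_apply, smul_eq_mul]
    ring

theorem l2_hil (hne : ∀ s ∈ X, s.Nonempty) (hdown : ∀ s ∈ X, ∀ t, t ⊆ s → t.Nonempty → t ∈ X)
    (hlf : ∀ s ∈ X, {t | t ∈ X ∧ s ⊆ t}.Finite) {r : U → U → Prop} (hT : Tot X r) (i : ℕ)
    (h : ∀ z, IsL2Ch X (i + 1) z → (∀ s ∈ X, bdR r z s = 0) → IsCoc X r z → z = 0)
    (z : Finset U → ℝ) (hz : IsL2Ch X (i + 1) z) (hz0 : ∀ s ∈ X, bdR r z s = 0) (ε : ℝ) (hε : 0 < ε) :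
    ∃ y, IsL2Ch X (i + 2) y ∧ (Summable fun s => (z s - bdR r y s) ^ 2) ∧ ∑' s, (z s - bdR r y s) ^ 2 < ε := by
  classical
  let K : Submodule ℝ (lp (fun _ : Finset U => ℝ) 2) := Submodule.span ℝ (hil_b r '' {t | t ∈ X ∧ t.card = i + 2})
  let Kc := K.topologicalClosure
  have : CompleteSpace Kc := K.isClosed_topologicalClosure.completeSpace_coe
  let Z : lp (fun _ : Finset U => ℝ) 2 := ⟨z, hil_mem hz.l2⟩
  let m : lp (fun _ : Finset U => ℝ) 2 := Kc.starProjection Z
  have hm : m ∈ Kc := Kc.starProjection_apply_mem Z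
  let w : lp (fun _ : Finset U => ℝ) 2 := Z - m
  have hw : w ∈ Kcᗮ := Kc.sub_starProjection_mem_orthogonal Z
  -- closed conditions
  have hcl : ∀ φ : lp (fun _ : Finset U => ℝ) 2 →L[ℝ] ℝ, (∀ f ∈ K, φ f = 0) → ∀ f ∈ Kc, φ f = 0 := by
    intro φ hφ f hf
    have h1 : IsClosed {f : lp (fun _ : Finset U => ℝ) 2 | φ f = 0} := isClosed_singleton.preimage φ.continuous
    exact (closure_minimal (fun f hf => hφ f hf) h1) hf
  have hcl' : ∀ φ : lp (fun _ : Finset U => ℝ) 2 →L[ℝ] ℝ,
      (∀ t ∈ X, t.card = i + 2 → φ (hil_b r t) = 0) → ∀ f ∈ Kc, φ f = 0 := by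
    intro φ hφ
    refine hcl φ fun f hf => ?_
    have h1 : K ≤ LinearMap.ker φ.toLinearMap := by
      refine Submodule.span_le.2 ?_
      rintro _ ⟨t, ht, rfl⟩
      exact hφ t ht.1 ht.2
    exact h1 hf
  -- the support
  have hms : ∀ s, ¬ (s ∈ X ∧ s.card = i + 1) → m s = 0 := by
    intro s hs
    refine hcl' (lp.evalCLM ℝ (fun _ : Finset U => ℝ) 2 s) (fun t ht htc => ?_) m hm
    show bdR r (hil_dl t) s = 0
    by_contra h0
    obtain ⟨v, hv, rfl⟩ := hil_b_ne r h0
    have hc : (t.erase v).card = i + 1 := by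
      rw [Finset.card_erase_of_mem hv, htc]
      rfl
    exact hs ⟨hdown t ht _ (Finset.erase_subset _ _) (Finset.card_pos.1 (by omega)), hc⟩
  have hws : ∀ s, w s ≠ 0 → s ∈ X ∧ s.card = i + 1 := by
    intro s hs
    by_contra h0
    have h1 : z s = 0 := by
      by_contra h2
      exact h0 (hz.supp s h2)
    apply hs
    show z s - m s = 0
    rw [h1, hms s h0, sub_zero]
  have hwl : IsL2Ch X (i + 1) (fun s => w s) := ⟨hws, hil_summable w⟩
  -- cycles
  have hW : ∀ s ∈ X, ∃ W : Finset U, ∀ v, v ∈ W ↔ v ∉ s ∧ insert v s ∈ X := by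
    intro s hs
    have h1 : {v | v ∉ s ∧ insert v s ∈ X}.Finite := by
      have h2 : ((fun v => insert v s) '' {v | v ∉ s ∧ insert v s ∈ X}).Finite := by
        refine (hlf s hs).subset ?_
        rintro _ ⟨v, hv, rfl⟩
        exact ⟨hv.2, Finset.subset_insert _ _⟩
      refine Set.Finite.of_finite_image h2 ?_
      intro v hv v' hv' hvv
      have h3 : v ∈ insert v' s := by
        rw [← (show insert v s = insert v' s from hvv)]
        exact Finset.mem_insert_self _ _
      rw [Finset.mem_insert] at h3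
      exact h3.resolve_right hv.1
    exact ⟨h1.toFinset, fun v => by rw [Set.Finite.mem_toFinset]; rfl⟩
  have hbd : ∀ s ∈ X, ∀ W : Finset U, (∀ v, v ∈ W ↔ v ∉ s ∧ insert v s ∈ X) → ∀ y : Finset U → ℝ,
      (∀ t, y t ≠ 0 → t ∈ X) → bdR r y s = ∑ v ∈ W, (sgR r s v : ℝ) * y (insert v s) := by
    intro s hs W hWs y hy
    unfold bdR
    rw [finsum_mem_eq_sum_of_inter_support_eq]
    ext v
    constructor
    · rintro ⟨h1, h2⟩
      refine ⟨?_, h2⟩
      rw [Finset.mem_coe, hWs]
      exact ⟨h1, hy _ (right_ne_zero_of_mul h2)⟩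
    · rintro ⟨h1, h2⟩
      rw [Finset.mem_coe, hWs] at h1
      exact ⟨h1.1, h2⟩
  have hw0 : ∀ s ∈ X, bdR r (fun s => w s) s = 0 := by
    intro s hs
    obtain ⟨W, hWs⟩ := hW s hs
    rw [hbd s hs W hWs _ fun t ht => (hws t ht).1]
    have h1 := hz0 s hs
    rw [hbd s hs W hWs _ fun t ht => (hz.supp t ht).1] at h1
    have h2 : ∑ v ∈ W, (sgR r s v : ℝ) * m (insert v s) = 0 := by
      have h3 := hcl' (∑ v ∈ W, (sgR r s v : ℝ) • lp.evalCLM ℝ (fun _ : Finset U => ℝ) 2 (insert v s))
        (fun t ht htc => ?_) m hm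
      · rw [_root_.sum_apply] at h3
        exact h3
      · rw [_root_.sum_apply]
        exact hil_bb hdown hT ht W hWs
    have h4 : ∑ v ∈ W, (sgR r s v : ℝ) * w (insert v s) =
        ∑ v ∈ W, (sgR r s v : ℝ) * z (insert v s) - ∑ v ∈ W, (sgR r s v : ℝ) * m (insert v s) := by
      rw [← Finset.sum_sub_distrib]
      refine Finset.sum_congr rfl fun v _ => ?_
      rw [← mul_sub]
      rfl
    rw [h4, h1, h2, sub_zero]
  have hwc : IsCoc X r (fun s => w s) := by
    intro t ht
    by_cases htc : t.card = i + 2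
    · have h1 : inner ℝ (hil_b r t) w = 0 := by
        refine (Submodule.mem_orthogonal _ _).1 hw _ ?_
        exact K.le_topologicalClosure (Submodule.subset_span ⟨t, ⟨ht, htc⟩, rfl⟩)
      rw [lp.inner_eq_tsum, tsum_eq_sum (s := t.image t.erase), Finset.sum_image] at h1
      · rw [← h1]
        refine Finset.sum_congr rfl fun v hv => ?_
        have h2 : (hil_b r t) (t.erase v) = (sgR r (t.erase v) v : ℝ) := hil_b_erase r hv
        rw [h2]
        show _ = inner ℝ (sgR r (t.erase v) v : ℝ) (w (t.erase v))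
        simp [mul_comm]
      · intro a ha b hb hab
        by_contra hne
        have h2 : b ∈ t.erase a := Finset.mem_erase.2 ⟨fun h => hne h.symm, hb⟩
        rw [show t.erase a = t.erase b from hab] at h2
        exact Finset.notMem_erase b t h2
      · intro s hs
        have h2 : (hil_b r t) s = 0 := by
          show bdR r (hil_dl t) s = 0
          by_contra h0
          obtain ⟨v, hv, rfl⟩ := hil_b_ne r h0
          exact hs (Finset.mem_image_of_mem _ hv)
        rw [h2, inner_zero_left]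
    · refine Finset.sum_eq_zero fun v hv => ?_
      have h2 : w (t.erase v) = 0 := by
        by_contra h0
        have h3 := (hws _ h0).2
        rw [Finset.card_erase_of_mem hv] at h3
        have h4 : 0 < t.card := Finset.card_pos.2 ⟨v, hv⟩
        omega
      show (sgR r (t.erase v) v : ℝ) * w (t.erase v) = 0
      rw [h2, mul_zero]
  have hw00 := h (fun s => w s) hwl hw0 hwc
  have hZm : Z = m := by
    have h1 : w = 0 := by
      apply lp.ext
      funext s
      exact congrFun hw00 s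
    exact sub_eq_zero.1 h1
  have hZK : Z ∈ closure (K : Set (lp (fun _ : Finset U => ℝ) 2)) := by
    rw [hZm]
    exact hm
  obtain ⟨k, hkK, hk⟩ := Metric.mem_closure_iff.1 hZK (Real.sqrt ε) (Real.sqrt_pos.2 hε)
  obtain ⟨V, y, hy, hyk⟩ := hil_span X r i k hkK
  have hfin : (Function.support y).Finite := by
    refine V.powerset.finite_toSet.subset fun s hs => ?_
    rw [Finset.mem_coe, Finset.mem_powerset]
    exact (hy s hs).2.2
  have e : ∀ s, (Z - k) s = z s - bdR r y s := by
    intro s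
    rw [← hyk]
    rfl
  refine ⟨y, ⟨fun s hs => ⟨(hy s hs).1, (hy s hs).2.1⟩, hil_fin hfin⟩, ?_, ?_⟩
  · exact (hil_summable (Z - k)).congr fun s => by rw [e]
  · have h1 : ‖Z - k‖ ^ 2 < ε := by
      rw [← dist_eq_norm]
      calc dist Z k ^ 2 < Real.sqrt ε ^ 2 := by
            exact pow_lt_pow_left₀ hk dist_nonneg (by norm_num)
        _ = ε := Real.sq_sqrt hε.le
    rw [hil_norm_sq] at h1
    calc ∑' s, (z s - bdR r y s) ^ 2 = ∑' s, ((Z - k) s) ^ 2 := tsum_congr fun s => by rw [e]
      _ < ε := h1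

end Pool.Agent.S11

end

section

/-!
# Project S11, block END: exactness of the matrices over the division ring

PROOFS.  `y : Fin b → D` is the equivariant function `e` with `e (g • R' j) = ι g * y j` and `0` on the other finite sets.  For `s = R l`:
`bdV e s = ∑ (t ⊇ s) e t = ∑ j, ∑ (h : R l ⊆ h • R' j) ι h * y j`, which is the entry `l` of `mulVec`; `bdV e` is equivariant.
-/

set_option autoImplicit false
set_option linter.unusedSectionVars false

open Finset Pointwise

namespace Pool.Agent.S11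

variable {U H : Type} [DecidableEq U] [Group H] [MulAction H U] {X : Set (Finset U)} {r : U → U → Prop}

/-- the boundary is the sum over the cofaces -/
theorem bdV_eq {W : Type} [AddCommGroup W] {e : Finset U → W} (he : ∀ t, e t ≠ 0 → t ∈ X) (s : Finset U) :
    bdV e s = ∑ᶠ t ∈ {t | t ∈ X ∧ s ⊆ t ∧ t.card = s.card + 1}, e t := by
  unfold bdV
  have h1 : ∑ᶠ v ∈ {v | v ∉ s}, e (insert v s) = ∑ᶠ v ∈ {v | v ∉ s ∧ insert v s ∈ X}, e (insert v s) := by
    refine finsum_mem_inter_support_eq _ _ _ ?_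
    ext v
    simp only [Set.mem_inter_iff, Set.mem_setOf_eq, Function.mem_support]
    exact ⟨fun h => ⟨⟨h.1, he _ h.2⟩, h.2⟩, fun h => ⟨h.1.1, h.2⟩⟩
  rw [h1]
  refine finsum_mem_eq_of_bijOn (fun v => insert v s) ⟨?_, ?_, ?_⟩ fun _ _ => rfl
  · intro v hv
    exact ⟨hv.2, subset_insert _ _, card_insert_of_notMem hv.1⟩
  · intro v hv w hw hvw
    have h2 : v ∈ insert w s := by
      have h3 : insert v s = insert w s := hvw
      rw [← h3]
      exact mem_insert_self _ _
    rcases mem_insert.1 h2 with h3 | h3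
    · exact h3
    · exact absurd h3 hv.1
  · rintro t ⟨h2, h3, h4⟩
    obtain ⟨v, hv⟩ : ∃ v, t \ s = {v} := card_eq_one.1 (by rw [card_sdiff_of_subset h3]; omega)
    have h5 : v ∈ t \ s := by rw [hv]; exact mem_singleton_self v
    have h6 : insert v s = t := by
      rw [insert_eq, ← hv, sdiff_union_of_subset h3]
    exact ⟨v, ⟨(mem_sdiff.1 h5).2, by rw [h6]; exact h2⟩, h6⟩

open Classical in
/-- the equivariant function with given values at the representatives -/
noncomputable def fn {D : Type} [DivisionRing D] (ι : MonoidAlgebra (ZMod 2) H →+* D) {b : ℕ} (R' : Fin b → Finset U)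
    (y : Fin b → D) (t : Finset U) : D :=
  if h : ∃ p : H × Fin b, t = p.1 • R' p.2 then ι (MonoidAlgebra.single h.choose.1 1) * y h.choose.2 else 0

theorem fn_smul {D : Type} [DivisionRing D] (ι : MonoidAlgebra (ZMod 2) H →+* D) {k b : ℕ} {R' : Fin b → Finset U}
    (hR' : Rps H X k R') (y : Fin b → D) (g : H) (j : Fin b) :
    fn ι R' y (g • R' j) = ι (MonoidAlgebra.single g 1) * y j := by
  have h : ∃ p : H × Fin b, g • R' j = p.1 • R' p.2 := ⟨(g, j), rfl⟩
  unfold fn
  rw [dif_pos h]
  have h1 := hR'.uniq _ _ _ _ h.choose_spec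
  rw [← h1.1, ← h1.2]

theorem eqC_fn {D : Type} [DivisionRing D] [Algebra (ZMod 2) D] (hX : FreeX H X) (ι : MonoidAlgebra (ZMod 2) H →+* D)
    {k b : ℕ} {R' : Fin b → Finset U} (hR' : Rps H X k R') (y : Fin b → D) : EqC X ∅ (lft ι) k (fn ι R' y) where
  supp := by
    intro t ht
    by_cases h : ∃ p : H × Fin b, t = p.1 • R' p.2
    · obtain ⟨⟨g, j⟩, rfl⟩ := h
      refine ⟨hX.mem g _ (hR'.mem j), fun h1 => h1, ?_⟩
      rw [card_smul_finset]
      exact hR'.card j
    · refine absurd ?_ ht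
      unfold fn
      rw [dif_neg h]
  eqv := by
    intro g t
    by_cases h : ∃ p : H × Fin b, t = p.1 • R' p.2
    · obtain ⟨⟨g', j⟩, rfl⟩ := h
      show fn ι R' y (g • g' • R' j) = lft ι g (fn ι R' y (g' • R' j))
      rw [← mul_smul, fn_smul ι hR', fn_smul ι hR', lft_apply, ← mul_assoc, ← map_mul, MonoidAlgebra.single_mul_single,
        mul_one]
    · have h1 : ¬ ∃ p : H × Fin b, g • t = p.1 • R' p.2 := by
        rintro ⟨⟨g', j⟩, h2⟩
        refine h ⟨(g⁻¹ * g', j), ?_⟩
        show t = (g⁻¹ * g') • R' j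
        rw [mul_smul, ← h2, inv_smul_smul]
      have h2 : fn ι R' y (g • t) = 0 := by
        unfold fn
        rw [dif_neg h1]
      have h3 : fn ι R' y t = 0 := by
        unfold fn
        rw [dif_neg h]
      rw [h2, h3, map_zero]
  fin := by
    classical
    refine ⟨univ.image R', fun t ht => ?_⟩
    by_cases h : ∃ p : H × Fin b, t = p.1 • R' p.2
    · obtain ⟨⟨g, j⟩, rfl⟩ := h
      exact ⟨g⁻¹, mem_image.2 ⟨j, mem_univ _, (inv_smul_smul g (R' j)).symm⟩⟩
    · refine absurd ?_ ht
      unfold fn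
      rw [dif_neg h]

/-- the matrix modulo two -/
theorem mod2_mtx (hX : FreeX H X) {k a b : ℕ} {R : Fin a → Finset U} {R' : Fin b → Finset U} (hR : Rps H X k R)
    (hR' : Rps H X (k + 1) R') (l : Fin a) (j : Fin b) :
    mod2 (mtx H r R R') l j =
      ∑ h ∈ (finite_sub_smul hX (hR.mem l) (hR'.mem j)).toFinset, MonoidAlgebra.single h (1 : ZMod 2) := by
  classical
  have h1 : mtx H r R R' l j = ∑ h ∈ (finite_sub_smul hX (hR.mem l) (hR'.mem j)).toFinset,
      MonoidAlgebra.single h (incR r (R l) (h • R' j)) := by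
    unfold mtx
    refine finsum_eq_sum_of_support_subset _ ?_
    intro h hh
    rw [Function.mem_support] at hh
    rw [mem_coe, Set.Finite.mem_toFinset]
    by_contra h2
    apply hh
    have h3 : incR r (R l) (h • R' j) = 0 := by
      unfold incR
      rw [if_neg]
      exact fun h4 => h2 h4.1
    rw [h3, MonoidAlgebra.single_zero]
  unfold mod2
  rw [Matrix.map_apply, h1, map_sum]
  refine sum_congr rfl fun h hh => ?_
  rw [Set.Finite.mem_toFinset] at hh
  have h2 : ((incR r (R l) (h • R' j) : ℤ) : ZMod 2) = 1 := by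
    unfold incR
    rw [if_pos ⟨hh, by rw [card_smul_finset, hR'.card, hR.card]⟩]
    obtain ⟨v, hv⟩ : ∃ v, (h • R' j) \ R l = {v} := card_eq_one.1 (by
      rw [card_sdiff_of_subset hh, card_smul_finset, hR'.card, hR.card]; omega)
    rw [hv, prod_singleton]
    unfold sgR
    push_cast
    have h3 : (-1 : ZMod 2) = 1 := by decide
    rw [h3, one_pow]
  rw [MonoidAlgebra.mapRingHom_single]
  congr 1

/-- the boundary at the representatives is the product with the matrix -/
theorem bdV_fn (hX : FreeX H X) {D : Type} [DivisionRing D] [Algebra (ZMod 2) D]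
    (ι : MonoidAlgebra (ZMod 2) H →+* D) {k a b : ℕ} {R : Fin a → Finset U} {R' : Fin b → Finset U} (hR : Rps H X k R)
    (hR' : Rps H X (k + 1) R') (y : Fin b → D) (l : Fin a) :
    bdV (fn ι R' y) (R l) = ((mod2 (mtx H r R R')).map ι).mulVec y l := by
  classical
  rw [bdV_eq (X := X) (fun t ht => ((eqC_fn hX ι hR' y).supp t ht).1)]
  have h1 : ∑ᶠ t ∈ {t | t ∈ X ∧ R l ⊆ t ∧ t.card = (R l).card + 1}, fn ι R' y t =
      ∑ᶠ p ∈ {p : H × Fin b | R l ⊆ p.1 • R' p.2}, ι (MonoidAlgebra.single p.1 1) * y p.2 := by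
    symm
    refine finsum_mem_eq_of_bijOn (fun p => p.1 • R' p.2) ⟨?_, ?_, ?_⟩ ?_
    · rintro ⟨g, j⟩ hp
      refine ⟨hX.mem g _ (hR'.mem j), hp, ?_⟩
      show (g • R' j).card = _
      rw [card_smul_finset, hR'.card, hR.card]
    · rintro ⟨g, j⟩ _ ⟨g', j'⟩ _ h2
      have h3 := hR'.uniq _ _ _ _ h2
      exact Prod.ext h3.1 h3.2
    · rintro t ⟨h2, h3, h4⟩
      rw [hR.card] at h4
      obtain ⟨g, j, rfl⟩ := hR'.ex t h2 h4
      exact ⟨(g, j), h3, rfl⟩
    · rintro ⟨g, j⟩ _
      exact (fn_smul ι hR' y g j).symm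
  rw [h1]
  have h2 : {p : H × Fin b | R l ⊆ p.1 • R' p.2} =
      ((univ : Finset (Fin b)).biUnion fun j =>
        ((finite_sub_smul hX (hR.mem l) (hR'.mem j)).toFinset).image fun h => (h, j) : Finset (H × Fin b)) := by
    ext ⟨g, j⟩
    rw [mem_coe, mem_biUnion]
    constructor
    · intro h3
      exact ⟨j, mem_univ _, mem_image.2 ⟨g, (Set.Finite.mem_toFinset _).2 h3, rfl⟩⟩
    · rintro ⟨j', -, h3⟩
      obtain ⟨g', h4, h5⟩ := mem_image.1 h3
      rw [Set.Finite.mem_toFinset] at h4
      rw [Prod.mk.injEq] at h5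
      obtain ⟨rfl, rfl⟩ := h5
      exact h4
  rw [h2, finsum_mem_coe_finset, sum_biUnion]
  · show _ = ∑ j, ι (mod2 (mtx H r R R') l j) * y j
    refine sum_congr rfl fun j _ => ?_
    rw [mod2_mtx hX hR hR', map_sum, sum_mul, sum_image]
    intro h _ h' _ h3
    exact (Prod.mk.inj h3).1
  · intro j _ j' _ hjj
    rw [Function.onFun, disjoint_left]
    intro p hp hp'
    obtain ⟨h, -, rfl⟩ := mem_image.1 hp
    obtain ⟨h', -, h3⟩ := mem_image.1 hp'
    exact hjj (Prod.mk.inj h3).2.symm

/-- the boundary of an equivariant function is equivariant -/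
theorem bdV_eqv {W : Type} [AddCommGroup W] [Module (ZMod 2) W] {ρ : H →* Module.End (ZMod 2) W} {k : ℕ}
    {e : Finset U → W} (hX : FreeX H X) (he : EqC X ∅ ρ k e) (g : H) {s : Finset U} (hs : s ∈ X) :
    bdV e (g • s) = ρ g (bdV e s) := by
  classical
  rw [bdV_eq (X := X) (fun t ht => (he.supp t ht).1), bdV_eq (X := X) (fun t ht => (he.supp t ht).1)]
  have h1 : {t | t ∈ X ∧ s ⊆ t ∧ t.card = s.card + 1}.Finite :=
    (cofaces_finite hX hs).subset fun t ht => ⟨ht.1, ht.2.1⟩
  have h2 : ρ g (∑ᶠ t ∈ {t | t ∈ X ∧ s ⊆ t ∧ t.card = s.card + 1}, e t) =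
      ∑ᶠ t ∈ {t | t ∈ X ∧ s ⊆ t ∧ t.card = s.card + 1}, ρ g (e t) := by
    rw [finsum_mem_eq_finite_toFinset_sum _ h1, finsum_mem_eq_finite_toFinset_sum _ h1, map_sum]
  rw [h2]
  symm
  refine finsum_mem_eq_of_bijOn (fun t => g • t) ⟨?_, ?_, ?_⟩ ?_
  · rintro t ⟨h3, h4, h5⟩
    refine ⟨hX.mem g t h3, smul_finset_subset_smul_finset h4, ?_⟩
    show (g • t).card = (g • s).card + 1
    rw [card_smul_finset, card_smul_finset, h5]
  · intro t _ t' _ h3
    exact MulAction.injective g h3
  · rintro t ⟨h3, h4, h5⟩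
    refine ⟨g⁻¹ • t, ⟨hX.mem _ t h3, ?_, ?_⟩, smul_inv_smul g t⟩
    · have h6 := smul_finset_subset_smul_finset (a := g⁻¹) h4
      rwa [inv_smul_smul] at h6
    · rw [card_smul_finset] at h5
      rw [card_smul_finset, h5]
  · intro t _
    exact (he.eqv g t).symm

theorem mtx_exact (hX : FreeX H X) {D : Type} [DivisionRing D] [Algebra (ZMod 2) D]
    (ι : MonoidAlgebra (ZMod 2) H →+* D) {k a b c : ℕ}
    {R : Fin a → Finset U} {R' : Fin b → Finset U} {R'' : Fin c → Finset U} (hR : Rps H X k R) (hR' : Rps H X (k + 1) R')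
    (hR'' : Rps H X (k + 2) R'') (hex : ExactBd X (lft ι) (k + 1)) (y : Fin b → D)
    (hy : ((mod2 (mtx H r R R')).map ι).mulVec y = 0) : ∃ z : Fin c → D, ((mod2 (mtx H r R' R'')).map ι).mulVec z = y := by
  have h1 := eqC_fn hX ι hR' y
  have h2 : ∀ s ∈ X, bdV (fn ι R' y) s = 0 := by
    intro s hs
    by_cases h3 : s.card = k
    · obtain ⟨g, l, rfl⟩ := hR.ex s hs h3
      rw [bdV_eqv hX h1 g (hR.mem l), bdV_fn (r := r) hX ι hR hR', hy, Pi.zero_apply, map_zero]
    · rw [bdV_eq (X := X) (fun t ht => (h1.supp t ht).1)]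
      have h4 : ∀ t ∈ {t | t ∈ X ∧ s ⊆ t ∧ t.card = s.card + 1}, fn ι R' y t = 0 := by
        rintro t ⟨-, -, h5⟩
        by_contra h6
        have h7 := (h1.supp t h6).2.2
        omega
      exact finsum_mem_eq_zero_of_forall_eq_zero h4
  obtain ⟨f, hf1, hf2⟩ := hex _ h1 h2
  refine ⟨fun m => f (R'' m), ?_⟩
  have h3 : fn ι R'' (fun m => f (R'' m)) = f := by
    funext t
    by_cases h4 : t ∈ X ∧ t.card = k + 2
    · obtain ⟨g, m, rfl⟩ := hR''.ex t h4.1 h4.2
      rw [fn_smul ι hR'', hf1.eqv]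
      rfl
    · have h5 : f t = 0 := by
        by_contra h6
        have h7 := hf1.supp t h6
        exact h4 ⟨h7.1, h7.2.2⟩
      have h6 : fn ι R'' (fun m => f (R'' m)) t = 0 := by
        by_contra h6
        have h7 := (eqC_fn hX ι hR'' (fun m => f (R'' m))).supp t h6
        exact h4 ⟨h7.1, h7.2.2⟩
      rw [h5, h6]
  funext j
  rw [← bdV_fn (r := r) hX ι hR' hR'', h3, hf2 _ (hR'.mem j)]
  have h5 := fn_smul ι hR' y 1 j
  rw [one_smul, ← MonoidAlgebra.one_def, map_one, one_mul] at h5
  exact h5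

end Pool.Agent.S11

end

section

/-!
# Project S11, square lemma: cup products with values in the tensor square
-/

set_option autoImplicit false
set_option linter.unusedSectionVars false

open Finset Pointwise
open scoped TensorProduct

noncomputable section

namespace Pool.Agent.S11

open Pool.Agent.H37.TM (face1 face2 below cup cob cob_cup face1_subset face2_subset)

variable {Γ U : Type} [Group Γ] [DecidableEq U] [MulAction Γ U] {K B : Set (Finset U)} {r : U → U → Prop}
  {V : Type} [AddCommGroup V] [Module (ZMod 2) V] {ρ : Γ →* Module.End (ZMod 2) V}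

/-- the diagonal action on the tensor square -/
def tp (ρ : Γ →* Module.End (ZMod 2) V) : Γ →* Module.End (ZMod 2) (V ⊗[ZMod 2] V) where
  toFun g := TensorProduct.map (ρ g) (ρ g)
  map_one' := by
    rw [map_one]
    exact TensorProduct.map_id
  map_mul' g g' := by
    rw [map_mul]
    exact TensorProduct.map_comp _ _ _ _

@[simp] theorem tp_tmul (g : Γ) (u v : V) : tp ρ g (u ⊗ₜ[ZMod 2] v) = ρ g u ⊗ₜ[ZMod 2] ρ g v := rfl

theorem tp_sw (g : Γ) (x : V ⊗[ZMod 2] V) : sw (tp ρ g x) = tp ρ g (sw x) := by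
  induction x using TensorProduct.induction_on with
  | zero => simp
  | tmul u v => rfl
  | add a b ha hb => rw [map_add, map_add, ha, hb, map_add, map_add]

/-- the coboundary of a function on finite sets -/
def cobW {W : Type} [AddCommMonoid W] (x : Finset U → W) (s : Finset U) : W := ∑ v ∈ s, x (s.erase v)

/-- the cup product of order `m - 1` with values in the tensor square -/
def cupV (ht : U → ℕ) (m : ℕ) (x y : Finset U → V) (s : Finset U) : V ⊗[ZMod 2] V :=
  ∑ N ∈ s.powersetCard m, x (face1 ht N s) ⊗ₜ[ZMod 2] y (face2 ht N s)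

/-- **The coboundary of the cup products.** -/
theorem cob_cupV (ht : U → ℕ) (m : ℕ) (x y : Finset U → V) (s : Finset U) (hs : Set.InjOn ht (s : Set U)) :
    cobW (cupV ht (m + 1) x y) s = cupV ht (m + 1) (cobW x) y s + cupV ht (m + 1) x (cobW y) s +
      (cupV ht m x y s + sw (cupV ht m y x s)) := by
  obtain ⟨ι, b⟩ := Module.Free.exists_basis (R := ZMod 2) (M := V)
  have h2 : ∀ (u v : V) (i j : ι), (b.tensorProduct b).repr (u ⊗ₜ[ZMod 2] v) (i, j) = b.repr u i * b.repr v j := by
    intro u v i j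
    rw [Module.Basis.tensorProduct_repr_tmul_apply, smul_eq_mul, mul_comm]
  have h3 : ∀ (x : V ⊗[ZMod 2] V) (i j : ι), (b.tensorProduct b).repr (sw x) (i, j) = (b.tensorProduct b).repr x (j, i) := by
    intro x i j
    induction x using TensorProduct.induction_on with
    | zero => simp
    | tmul u v => rw [sw_tmul, h2, h2, mul_comm]
    | add a b ha hb => rw [map_add, map_add, map_add, Finsupp.add_apply, Finsupp.add_apply, ha, hb]
  have h4 : ∀ (m : ℕ) (x y : Finset U → V) (t : Finset U) (i j : ι), (b.tensorProduct b).repr (cupV ht m x y t) (i, j) =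
      cup ht m (fun s => b.repr (x s) i) (fun s => b.repr (y s) j) t := by
    intro m x y t i j
    unfold cupV cup
    rw [map_sum, Finsupp.finsetSum_apply]
    exact sum_congr rfl fun N _ => h2 _ _ _ _
  have h5 : ∀ (x : Finset U → V) (i : ι), (fun s => b.repr (cobW x s) i) = cob fun s => b.repr (x s) i := by
    intro x i
    funext s
    unfold cobW cob
    rw [map_sum, Finsupp.finsetSum_apply]
  refine (b.tensorProduct b).ext_elem fun p => ?_
  obtain ⟨i, j⟩ := p
  have h6 : (b.tensorProduct b).repr (cobW (cupV ht (m + 1) x y) s) (i, j) =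
      cob (cup ht (m + 1) (fun s => b.repr (x s) i) (fun s => b.repr (y s) j)) s := by
    unfold cobW cob
    rw [map_sum, Finsupp.finsetSum_apply]
    exact sum_congr rfl fun N _ => h4 _ _ _ _ _ _
  rw [h6, map_add, map_add, map_add, Finsupp.add_apply, Finsupp.add_apply, Finsupp.add_apply, h3, h4, h4, h4, h4, h5, h5]
  exact cob_cup ht m _ _ s hs

/-! ### the products with respect to a relation -/

open Classical in
/-- the number of elements of `N` below `v` -/
def bel (r : U → U → Prop) (N : Finset U) (v : U) : ℕ := (N.filter fun b => r b v).card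

/-- the first face -/
def f1 (r : U → U → Prop) (N s : Finset U) : Finset U := s.filter fun v => v ∈ N ∨ Even (bel r N v)

/-- the second face -/
def f2 (r : U → U → Prop) (N s : Finset U) : Finset U := s.filter fun v => v ∈ N ∨ ¬ Even (bel r N v)

theorem f1_subset (r : U → U → Prop) (N s : Finset U) : f1 r N s ⊆ s := filter_subset _ _

theorem f2_subset (r : U → U → Prop) (N s : Finset U) : f2 r N s ⊆ s := filter_subset _ _

/-- the cup product of order `m - 1` -/
def cupL (r : U → U → Prop) (m : ℕ) (x y : Finset U → V) (s : Finset U) : V ⊗[ZMod 2] V :=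
  ∑ N ∈ s.powersetCard m, x (f1 r N s) ⊗ₜ[ZMod 2] y (f2 r N s)

open Classical in
/-- the height in a simplex -/
def rk (r : U → U → Prop) (s : Finset U) (v : U) : ℕ := (s.filter fun b => r b v).card

theorem rk_lt {r : U → U → Prop} {s : Finset U} (hs : TotOn r s) {u v : U} (hu : u ∈ s) (hv : v ∈ s) : rk r s u < rk r s v ↔ r u v := by
  classical
  obtain ⟨h1, h2, h3⟩ := hs
  have key : ∀ u ∈ s, ∀ v ∈ s, r u v → rk r s u < rk r s v := by
    intro u hu v hv huv
    refine card_lt_card ?_
    rw [ssubset_iff_of_subset]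
    · exact ⟨u, mem_filter.2 ⟨hu, huv⟩, fun h4 => h1 u hu (mem_filter.1 h4).2⟩
    · intro b hb
      rw [mem_filter] at hb ⊢
      exact ⟨hb.1, h2 b hb.1 u hu v hv hb.2 huv⟩
  constructor
  · intro h4
    by_contra h5
    by_cases h6 : u = v
    · rw [h6] at h4
      exact lt_irrefl _ h4
    · rcases h3 u hu v hv h6 with h7 | h7
      · exact h5 h7
      · exact absurd (key v hv u hu h7) (by omega)
  · exact key u hu v hv

theorem rk_inj {r : U → U → Prop} {s : Finset U} (hs : TotOn r s) : Set.InjOn (rk r s) (s : Set U) := by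
  intro u hu v hv huv
  by_contra h
  rcases hs.2.2 u hu v hv h with h1 | h1
  · have := (rk_lt hs hu hv).2 h1
    omega
  · have := (rk_lt hs hv hu).2 h1
    omega

theorem bel_eq {r : U → U → Prop} {s N : Finset U} (hs : TotOn r s) (hN : N ⊆ s) {v : U} (hv : v ∈ s) :
    bel r N v = below (rk r s) N v := by
  classical
  unfold bel below
  congr 1
  exact filter_congr fun b hb => (rk_lt hs (hN hb) hv).symm

theorem f1_eq {r : U → U → Prop} {s N t : Finset U} (hs : TotOn r s) (hN : N ⊆ s) (hts : t ⊆ s) :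
    f1 r N t = face1 (rk r s) N t := by
  unfold f1 face1
  exact filter_congr fun v hv => by rw [bel_eq hs hN (hts hv)]

theorem f2_eq {r : U → U → Prop} {s N t : Finset U} (hs : TotOn r s) (hN : N ⊆ s) (hts : t ⊆ s) :
    f2 r N t = face2 (rk r s) N t := by
  unfold f2 face2
  exact filter_congr fun v hv => by rw [bel_eq hs hN (hts hv)]

theorem cupL_eq {r : U → U → Prop} {s t : Finset U} (hs : TotOn r s) (hts : t ⊆ s) (m : ℕ) (x y : Finset U → V) :
    cupL r m x y t = cupV (rk r s) m x y t := by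
  unfold cupL cupV
  refine sum_congr rfl fun N hN => ?_
  have h1 := (mem_powersetCard.1 hN).1.trans hts
  rw [f1_eq hs h1 hts, f2_eq hs h1 hts]

/-- **The coboundary of the cup products.** -/
theorem cob_cupL {r : U → U → Prop} (m : ℕ) (x y : Finset U → V) {s : Finset U} (hs : TotOn r s) :
    cobW (cupL r (m + 1) x y) s = cupL r (m + 1) (cobW x) y s + cupL r (m + 1) x (cobW y) s +
      (cupL r m x y s + sw (cupL r m y x s)) := by
  have h1 : cobW (cupL r (m + 1) x y) s = cobW (cupV (rk r s) (m + 1) x y) s := by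
    unfold cobW
    exact sum_congr rfl fun v _ => cupL_eq hs (erase_subset _ _) _ _ _
  rw [h1, cob_cupV _ _ _ _ _ (rk_inj hs), cupL_eq hs subset_rfl, cupL_eq hs subset_rfl, cupL_eq hs subset_rfl,
    cupL_eq hs subset_rfl]

theorem cupL_zero (r : U → U → Prop) (x y : Finset U → V) (s : Finset U) (h : y ∅ = 0) : cupL r 0 x y s = 0 := by
  unfold cupL
  rw [powersetCard_zero, sum_singleton]
  have h1 : f2 r ∅ s = ∅ := by
    unfold f2 bel
    rw [filter_eq_empty_iff]
    intro v _
    simp
  rw [h1, h, TensorProduct.tmul_zero]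

/-- a simplex with `m` vertices -/
theorem cupL_self (r : U → U → Prop) (x y : Finset U → V) (s : Finset U) :
    cupL r s.card x y s = x s ⊗ₜ[ZMod 2] y s := by
  unfold cupL
  rw [powersetCard_self, sum_singleton]
  have h1 : f1 r s s = s := by
    unfold f1
    exact filter_true_of_mem fun v hv => Or.inl hv
  have h2 : f2 r s s = s := by
    unfold f2
    exact filter_true_of_mem fun v hv => Or.inl hv
  rw [h1, h2]

/-- the sum of the numbers of vertices of the two faces -/
theorem card_faces (r : U → U → Prop) {N s : Finset U} (hN : N ⊆ s) :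
    (f1 r N s).card + (f2 r N s).card = s.card + N.card := by
  have h1 : f1 r N s ∪ f2 r N s = s := by
    ext v
    unfold f1 f2
    rw [mem_union, mem_filter, mem_filter]
    tauto
  have h2 : f1 r N s ∩ f2 r N s = N := by
    ext v
    unfold f1 f2
    rw [mem_inter, mem_filter, mem_filter]
    constructor
    · rintro ⟨⟨-, h1 | h1⟩, -, h2 | h2⟩
      · exact h1
      · exact h1
      · exact h2
      · exact absurd h1 h2
    · exact fun h => ⟨⟨hN h, Or.inl h⟩, hN h, Or.inl h⟩
  rw [← card_union_add_card_inter, h1, h2]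

theorem bel_smul {r : U → U → Prop} (hr : ∀ (g : Γ) (u v : U), r (g • u) (g • v) ↔ r u v) (g : Γ) (N : Finset U) (v : U) :
    bel r (g • N) (g • v) = bel r N v := by
  classical
  unfold bel
  have h1 : (g • N).filter (fun b => r b (g • v)) = (N.filter fun b => r b v).image (g • ·) := by
    ext u
    rw [mem_filter, mem_image]
    constructor
    · rintro ⟨h1, h2⟩
      obtain ⟨w, hw, rfl⟩ := mem_smul_finset.1 h1
      rw [hr] at h2
      exact ⟨w, mem_filter.2 ⟨hw, h2⟩, rfl⟩
    · rintro ⟨w, hw, rfl⟩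
      rw [mem_filter] at hw
      exact ⟨smul_mem_smul_finset hw.1, (hr g w v).2 hw.2⟩
  rw [h1]
  exact card_image_of_injective _ fun a b hab => smul_left_cancel g hab

theorem f1_smul {r : U → U → Prop} (hr : ∀ (g : Γ) (u v : U), r (g • u) (g • v) ↔ r u v) (g : Γ) (N s : Finset U) :
    f1 r (g • N) (g • s) = g • f1 r N s := by
  ext u
  unfold f1
  rw [mem_filter, ← inv_smul_mem_iff (a := g) (s := s.filter _), mem_filter]
  have h1 : bel r (g • N) u = bel r N (g⁻¹ • u) := by
    conv_lhs => rw [← smul_inv_smul g u]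
    exact bel_smul hr g N _
  rw [h1, ← inv_smul_mem_iff, ← inv_smul_mem_iff]

theorem f2_smul {r : U → U → Prop} (hr : ∀ (g : Γ) (u v : U), r (g • u) (g • v) ↔ r u v) (g : Γ) (N s : Finset U) :
    f2 r (g • N) (g • s) = g • f2 r N s := by
  ext u
  unfold f2
  rw [mem_filter, ← inv_smul_mem_iff (a := g) (s := s.filter _), mem_filter]
  have h1 : bel r (g • N) u = bel r N (g⁻¹ • u) := by
    conv_lhs => rw [← smul_inv_smul g u]
    exact bel_smul hr g N _
  rw [h1, ← inv_smul_mem_iff, ← inv_smul_mem_iff]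

theorem cupL_smul {r : U → U → Prop} (hr : ∀ (g : Γ) (u v : U), r (g • u) (g • v) ↔ r u v) (m : ℕ) {x y : Finset U → V}
    (hx : ∀ (g : Γ) s, x (g • s) = ρ g (x s)) (hy : ∀ (g : Γ) s, y (g • s) = ρ g (y s)) (g : Γ) (s : Finset U) :
    cupL r m x y (g • s) = tp ρ g (cupL r m x y s) := by
  unfold cupL
  have h1 : (g • s).powersetCard m = (s.powersetCard m).image (g • ·) := by
    ext N
    rw [mem_powersetCard, mem_image]
    constructor
    · rintro ⟨h1, h2⟩
      refine ⟨g⁻¹ • N, mem_powersetCard.2 ⟨?_, ?_⟩, smul_inv_smul g N⟩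
      · rw [← smul_finset_subset_smul_finset_iff (a := g), smul_inv_smul]
        exact h1
      · rw [card_smul_finset]
        exact h2
    · rintro ⟨N', h1, rfl⟩
      rw [mem_powersetCard] at h1
      exact ⟨smul_finset_subset_smul_finset h1.1, by rw [card_smul_finset]; exact h1.2⟩
  rw [h1, sum_image (fun a _ b _ hab => smul_left_cancel g hab), map_sum]
  refine sum_congr rfl fun N _ => ?_
  rw [f1_smul hr, f2_smul hr, hx, hy, tp_tmul]

open Classical in
/-- the relative cup product -/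
def cupR (K B : Set (Finset U)) (r : U → U → Prop) (m : ℕ) (a : Finset U → V) (s : Finset U) : V ⊗[ZMod 2] V :=
  if s ∈ K ∧ s ∉ B then cupL r m a a s else 0

theorem cupR_eq {m : ℕ} {a : Finset U → V} {s : Finset U} (h : s ∈ K) (h' : s ∉ B) : cupR K B r m a s = cupL r m a a s := if_pos ⟨h, h'⟩

variable (h : SPair Γ K B r)

include h

theorem EqC.cupR {q : ℕ} {a : Finset U → V} (ha : EqC K B ρ q a) {m l : ℕ} (hl : l + m = 2 * q) :
    EqC K B (tp ρ) l (cupR K B r m a) where
  supp := by
    intro s hs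
    unfold Pool.Agent.S11.cupR at hs
    split_ifs at hs with h1
    · obtain ⟨N, hN, hN'⟩ := exists_ne_zero_of_sum_ne_zero hs
      rw [mem_powersetCard] at hN
      have h2 : a (f1 r N s) ≠ 0 := fun h0 => hN' (by rw [h0, TensorProduct.zero_tmul])
      have h3 : a (f2 r N s) ≠ 0 := fun h0 => hN' (by rw [h0, TensorProduct.tmul_zero])
      have h4 := card_faces r hN.1
      rw [(ha.supp _ h2).2.2, (ha.supp _ h3).2.2, hN.2] at h4
      exact ⟨h1.1, h1.2, by omega⟩
    · exact absurd rfl hs
  eqv := by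
    intro g s
    by_cases h1 : s ∈ K ∧ s ∉ B
    · rw [cupR_eq h1.1 h1.2, cupR_eq ((mem_iff_smul h.toSCx g s).2 h1.1) (fun h2 => h1.2 ((memB_iff_smul h.toSCx g s).1 h2)),
        cupL_smul h.r_smul m ha.eqv ha.eqv]
    · have h2 : ¬ (g • s ∈ K ∧ g • s ∉ B) := by
        rwa [mem_iff_smul h.toSCx, memB_iff_smul h.toSCx]
      unfold Pool.Agent.S11.cupR
      rw [if_neg h1, if_neg h2, map_zero]
  fin := by
    classical
    obtain ⟨F, hF⟩ := ha.fin
    refine ⟨(F.filter (· ∈ K)).attach.biUnion fun t => (h.locfin t.1 (mem_filter.1 t.2).2).toFinset, fun s hs => ?_⟩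
    unfold Pool.Agent.S11.cupR at hs
    split_ifs at hs with h1
    · obtain ⟨N, hN, hN'⟩ := exists_ne_zero_of_sum_ne_zero hs
      have h3 : a (f1 r N s) ≠ 0 := fun h0 => hN' (by rw [h0, TensorProduct.zero_tmul])
      obtain ⟨g, hg⟩ := hF _ h3
      have h2 : g • f1 r N s ∈ K := h.K_mem g _ (ha.supp _ h3).1
      refine ⟨g, mem_biUnion.2 ⟨⟨g • f1 r N s, mem_filter.2 ⟨hg, h2⟩⟩, mem_attach _ _, ?_⟩⟩
      rw [Set.Finite.mem_toFinset]
      exact ⟨h.K_mem g s h1.1, smul_finset_subset_smul_finset (f1_subset _ _ _)⟩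
    · exact absurd rfl hs

/-- the coboundary of a cocycle vanishes on all faces of a simplex -/
theorem cobW_eq_zero {q : ℕ} {a : Finset U → V} (ha : EqC K B ρ q a) (hz : IsCb K B a 0) {s t : Finset U} (hs : s ∈ K) (hts : t ⊆ s) :
    cobW a t = 0 := by
  rcases t.eq_empty_or_nonempty with rfl | h0
  · rfl
  · have h1 := h.down s hs t hts h0
    by_cases h2 : t ∈ B
    · exact sum_of_mem_B h.toSCx ha h2
    · exact hz t h1 h2

/-- the coboundary of the relative cup product of order `m` of a cocycle -/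
theorem isCb_cupR {q : ℕ} {a : Finset U → V} (ha : EqC K B ρ q a) (hz : IsCb K B a 0) (m : ℕ) :
    IsCb K B (Pool.Agent.S11.cupR K B r (m + 1) a) (Pool.Agent.S11.cupR K B r m a + fun s => sw (Pool.Agent.S11.cupR K B r m a s)) := by
  intro t ht1 ht2
  have h1 : ∀ v ∈ t, Pool.Agent.S11.cupR K B r (m + 1) a (t.erase v) = cupL r (m + 1) a a (t.erase v) := by
    intro v hv
    rcases (t.erase v).eq_empty_or_nonempty with h0 | h0
    · rw [h0]
      unfold Pool.Agent.S11.cupR
      rw [if_neg fun h3 => absurd (h.ne _ h3.1) (by simp)]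
      symm
      unfold cupL
      refine sum_eq_zero fun N _ => ?_
      have h4 : f1 r N ∅ = ∅ := rfl
      rw [h4, ha.empty h.ne, TensorProduct.zero_tmul]
    · have h2 := h.down t ht1 _ (erase_subset v t) h0
      by_cases h3 : t.erase v ∈ B
      · unfold Pool.Agent.S11.cupR
        rw [if_neg fun h4 => h4.2 h3]
        symm
        unfold cupL
        refine sum_eq_zero fun N _ => ?_
        have h5 : a (f1 r N (t.erase v)) = 0 := by
          by_contra h6
          obtain ⟨h7, h8, -⟩ := ha.supp _ h6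
          exact h8 (h.bd_down _ h3 _ (f1_subset _ _ _) (h.ne _ h7))
        rw [h5, TensorProduct.zero_tmul]
      · exact cupR_eq h2 h3
  rw [sum_congr rfl h1]
  have h2 := cob_cupL m a a (h.r_tot t ht1)
  unfold cobW at h2
  rw [h2]
  have h3 : cupL r (m + 1) (fun s => ∑ v ∈ s, a (s.erase v)) a t = 0 := by
    unfold cupL
    refine sum_eq_zero fun N _ => ?_
    have h4 : cobW a (f1 r N t) = 0 := cobW_eq_zero h ha hz ht1 (f1_subset _ _ _)
    show cobW a (f1 r N t) ⊗ₜ[ZMod 2] _ = 0
    rw [h4, TensorProduct.zero_tmul]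
  have h4 : cupL r (m + 1) a (fun s => ∑ v ∈ s, a (s.erase v)) t = 0 := by
    unfold cupL
    refine sum_eq_zero fun N _ => ?_
    have h4 : cobW a (f2 r N t) = 0 := cobW_eq_zero h ha hz ht1 (f2_subset _ _ _)
    show _ ⊗ₜ[ZMod 2] cobW a (f2 r N t) = 0
    rw [h4, TensorProduct.tmul_zero]
  rw [h3, h4, add_zero, zero_add, Pi.add_apply, cupR_eq ht1 ht2]

end Pool.Agent.S11

end
end

section

/-!
# Project S11: the square lemma
-/

set_option autoImplicit false
set_option linter.unusedSectionVars false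

open Finset Pointwise
open scoped TensorProduct

noncomputable section

namespace Pool.Agent.S11

variable {Γ U : Type} [Group Γ] [DecidableEq U] [MulAction Γ U] {K B : Set (Finset U)} {r : U → U → Prop}
  {V : Type} [AddCommGroup V] [Module (ZMod 2) V] {ρ : Γ →* Module.End (ZMod 2) V}

theorem eq_of_add {W : Type} [AddCommGroup W] [Module (ZMod 2) W] {x y : W} (h : x + y = 0) : y = x := by
  calc y = (x + x) + y := by rw [add_self_tt, zero_add]
    _ = x + (x + y) := add_assoc _ _ _
    _ = x := by rw [h, add_zero]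

theorem tp_alt (g : Γ) {x : V ⊗[ZMod 2] V} (hx : x ∈ (Alt : Submodule (ZMod 2) (V ⊗[ZMod 2] V))) :
    tp ρ g x ∈ (Alt : Submodule (ZMod 2) (V ⊗[ZMod 2] V)) := by
  obtain ⟨y, rfl⟩ := mem_Alt.1 hx
  exact mem_Alt.2 ⟨tp ρ g y, by rw [tp_sw, map_add]⟩

/-- the map `1 + T` -/
def onePlus : V ⊗[ZMod 2] V →ₗ[ZMod 2] V ⊗[ZMod 2] V := LinearMap.id + sw

theorem onePlus_apply (x : V ⊗[ZMod 2] V) : onePlus x = x + sw x := rfl

theorem onePlus_tp (g : Γ) (x : V ⊗[ZMod 2] V) : onePlus (tp ρ g x) = tp ρ g (onePlus x) := by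
  rw [onePlus_apply, onePlus_apply, tp_sw, map_add]

theorem onePlus_onePlus (x : V ⊗[ZMod 2] V) : onePlus (onePlus x) = 0 := by
  rw [onePlus_apply, onePlus_apply, map_add, sw_sw]
  have := add_self_tt (x + sw x)
  rw [add_comm (sw x) x]
  exact this

theorem EqC.onePlus {q : ℕ} {x : Finset U → V ⊗[ZMod 2] V} (hx : EqC K B (tp ρ) q x) :
    EqC K B (tp ρ) q (fun s => Pool.Agent.S11.onePlus (x s)) := hx.map _ (map_zero _) fun g s => onePlus_tp g (x s)

theorem IsCb.onePlus {x z : Finset U → V ⊗[ZMod 2] V} (h : IsCb K B x z) :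
    IsCb K B (fun s => Pool.Agent.S11.onePlus (x s)) (fun s => Pool.Agent.S11.onePlus (z s)) := h.map _

section

variable (h : SPair Γ K B r) (δ : V ⊗[ZMod 2] V →ₗ[ZMod 2] V) (hδ1 : ∀ v, δ (v ⊗ₜ[ZMod 2] v) = v)
  (hδ2 : ∀ x ∈ (Alt : Submodule (ZMod 2) (V ⊗[ZMod 2] V)), δ x = 0)
  (hδ3 : ∀ x, sw x = x → x + δ x ⊗ₜ[ZMod 2] δ x ∈ (Alt : Submodule (ZMod 2) (V ⊗[ZMod 2] V)))

include hδ1 hδ2 hδ3 in
/-- the diagonal part is equivariant on symmetric tensors -/
theorem diag_tp (g : Γ) {x : V ⊗[ZMod 2] V} (hx : sw x = x) : δ (tp ρ g x) = ρ g (δ x) := by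
  have h1 := hδ2 _ (tp_alt (ρ := ρ) g (hδ3 x hx))
  rw [map_add, tp_tmul, map_add, hδ1] at h1
  exact (eq_of_add h1).symm

include h hδ1 hδ2 hδ3

/-- symmetric cocycles of degree at most `j` are coboundaries of symmetric cochains -/
theorem sym_exact {j : ℕ} (H : ∀ q ≤ j, ExactAt K B (tp ρ) q) (hV : ∀ q < j, ExactAt K B ρ q) :
    ∀ d ≤ j, ∀ z : Finset U → V ⊗[ZMod 2] V, EqC K B (tp ρ) (d + 1) z → (∀ s, sw (z s) = z s) → IsCb K B z 0 →
      ∃ x, EqC K B (tp ρ) d x ∧ (∀ s, sw (x s) = x s) ∧ IsCb K B x z := by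
  intro d
  induction d with
  | zero =>
    intro _ z hz1 _ hz3
    obtain ⟨x, hx1, hx2⟩ := H 0 (by omega) z hz1 hz3
    refine ⟨x, hx1, fun s => ?_, hx2⟩
    rw [hx1.eq_zero h.ne s, map_zero]
  | succ e ih =>
    intro hd z hz1 hz2 hz3
    obtain ⟨x, hx1, hx2⟩ := H (e + 1) hd z hz1 hz3
    -- `w = (1 + T) x`
    have hw1 : EqC K B (tp ρ) (e + 1) (fun s => onePlus (x s)) := hx1.onePlus
    have hw2 : IsCb K B (fun s => onePlus (x s)) 0 := by
      intro t h1 h2
      rw [hx2.onePlus t h1 h2]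
      show onePlus (z t) = 0
      rw [onePlus_apply, hz2, add_self_tt]
    have hw3 : ∀ s, sw (onePlus (x s)) = onePlus (x s) := fun s => alt_sym ⟨x s, rfl⟩
    obtain ⟨x₁, h1, h2, h3⟩ := ih (by omega) _ hw1 hw3 hw2
    -- it is enough to find `y`
    suffices hy : ∃ y : Finset U → V ⊗[ZMod 2] V, EqC K B (tp ρ) e y ∧ IsCb K B (fun s => onePlus (y s)) fun s => onePlus (x s) by
      obtain ⟨y, hy1, hy2⟩ := hy
      have hy3 := hy1.cb h.toSCx
      refine ⟨x + cbK K B y, hx1.add hy3, fun s => ?_, ?_⟩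
      · by_cases hs : s ∈ K ∧ s ∉ B
        · have h4 := hy2 s hs.1 hs.2
          have h5 : onePlus (cbK K B y s) = onePlus (x s) := by
            rw [cbK_eq hs.1 hs.2, map_sum]
            exact h4
          have h6 : onePlus (x s + cbK K B y s) = 0 := by
            rw [map_add, h5, add_self_tt]
          exact eq_of_add h6
        · have h4 : x s = 0 := by
            by_contra h4
            exact hs ⟨(hx1.supp s h4).1, (hx1.supp s h4).2.1⟩
          have h5 : cbK K B y s = 0 := if_neg hs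
          rw [Pi.add_apply, h4, h5, add_zero, map_zero]
      · have h4 := hx2.add (cb_cb h.toSCx hy1 hy3 (isCb_cbK y))
        rwa [add_zero] at h4
    rcases e with _ | f
    · -- `x₁ = 0`
      refine ⟨x₁, h1, fun t h4 h5 => ?_⟩
      rw [← h3 t h4 h5]
      refine sum_congr rfl fun v _ => ?_
      show onePlus (x₁ (t.erase v)) = x₁ (t.erase v)
      rw [h1.eq_zero h.ne, map_zero]
    · -- the diagonal part of `x₁`
      have h4 : EqC K B ρ (f + 1) (fun s => δ (x₁ s)) := h1.map _ (map_zero _) fun g s => diag_tp δ hδ1 hδ2 hδ3 g (h2 s)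
      have h5 : IsCb K B (fun s => δ (x₁ s)) 0 := by
        intro t h6 h7
        rw [h3.map δ t h6 h7]
        exact hδ2 _ ⟨x t, rfl⟩
      obtain ⟨e', h6, h7⟩ := hV f (by omega) _ h4 h5
      have h8 : EqC K B (tp ρ) f (fun s => e' s ⊗ₜ[ZMod 2] e' s) :=
        h6.map (fun v => v ⊗ₜ[ZMod 2] v) (TensorProduct.zero_tmul _ _) fun g s => (tp_tmul g _ _).symm
      have h9 := h8.cb h.toSCx
      have h10 : ∀ s, sw (cbK K B (fun s => e' s ⊗ₜ[ZMod 2] e' s) s) = cbK K B (fun s => e' s ⊗ₜ[ZMod 2] e' s) s := by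
        intro s
        unfold cbK
        split_ifs
        · rw [map_sum]
          exact sum_congr rfl fun v _ => rfl
        · exact map_zero _
      have hr : ∀ s, (x₁ + cbK K B (fun s => e' s ⊗ₜ[ZMod 2] e' s)) s ∈ LinearMap.range (onePlus (V := V)) := by
        intro s
        by_cases hs : s ∈ K ∧ s ∉ B
        · have h11 : δ (cbK K B (fun s => e' s ⊗ₜ[ZMod 2] e' s) s) = δ (x₁ s) := by
            rw [cbK_eq hs.1 hs.2, map_sum]
            refine Eq.trans ?_ (h7 s hs.1 hs.2)
            exact sum_congr rfl fun v _ => hδ1 _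
          have h12 := hδ3 ((x₁ + cbK K B (fun s => e' s ⊗ₜ[ZMod 2] e' s)) s) (by
            rw [Pi.add_apply, map_add, h2, h10])
          rw [Pi.add_apply, map_add, h11, add_self_tt, TensorProduct.zero_tmul, add_zero] at h12
          exact h12
        · have h11 : x₁ s = 0 := by
            by_contra h11
            exact hs ⟨(h1.supp s h11).1, (h1.supp s h11).2.1⟩
          have h12 : cbK K B (fun s => e' s ⊗ₜ[ZMod 2] e' s) s = 0 := if_neg hs
          rw [Pi.add_apply, h11, h12, add_zero]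
          exact Submodule.zero_mem _
      obtain ⟨y, hy1, hy2⟩ := (h1.add h9).lift h.toSCx (onePlus (V := V)) (fun g x => onePlus_tp g x) hr
      refine ⟨y, hy1, fun t h11 h12 => ?_⟩
      have h13 := (h3.add (cb_cb h.toSCx h8 h9 (isCb_cbK _))) t h11 h12
      rw [add_zero] at h13
      refine Eq.trans ?_ h13
      exact sum_congr rfl fun v _ => hy2 _

end

/-- **The square lemma.** -/
theorem square (h : SPair Γ K B r) (ρ : Γ →* Module.End (ZMod 2) V) (j : ℕ)
    (H : ∀ q ≤ 2 * j, ExactAt K B (tp ρ) q) : ExactAt K B ρ j := by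
  obtain ⟨δ, hδ1, hδ2, hδ3⟩ := exists_diag V
  induction j using Nat.strong_induction_on with
  | _ j ih =>
  have hV : ∀ q < j, ExactAt K B ρ q := fun q hq => ih q hq fun q' hq' => H q' (by omega)
  intro a ha1 ha2
  -- the tower
  have key : ∀ s ≤ j, ∃ x x' : Finset U → V ⊗[ZMod 2] V, EqC K B (tp ρ) (2 * j - s) x ∧ EqC K B (tp ρ) (2 * j + 1 - s) x' ∧
      IsCb K B x (cupR K B r (s + 1) a + fun t => onePlus (x' t)) := by
    intro s
    induction s with
    | zero =>
      intro _
      have h1 : EqC K B (tp ρ) (2 * j + 1) (cupR K B r 1 a) := ha1.cupR h (by omega)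
      have h2 : IsCb K B (cupR K B r 1 a) 0 := by
        intro t h3 h4
        rw [isCb_cupR h ha1 ha2 0 t h3 h4, Pi.add_apply, cupR_eq h3 h4, cupL_zero _ _ _ _ (ha1.empty h.ne), map_zero, add_zero]
        rfl
      obtain ⟨x, hx1, hx2⟩ := H (2 * j) le_rfl _ h1 h2
      refine ⟨x, 0, hx1, EqC.zero _, ?_⟩
      have h3 : (cupR K B r 1 a + fun t => onePlus ((0 : Finset U → V ⊗[ZMod 2] V) t)) = cupR K B r 1 a := by
        funext t
        rw [Pi.add_apply, Pi.zero_apply, map_zero, add_zero]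
      rw [h3]
      exact hx2
    | succ s ihs =>
      intro hs
      obtain ⟨x, x', hx1, hx2, hx3⟩ := ihs (by omega)
      have e1 : 2 * j + 1 - (s + 1) = 2 * j - s := by omega
      have e2 : 2 * j - s = 2 * j - (s + 1) + 1 := by omega
      have h1 : EqC K B (tp ρ) (2 * j - (s + 1) + 1) (cupR K B r (s + 1 + 1) a + fun t => onePlus (x t)) := by
        refine EqC.add (ha1.cupR h (by omega)) ?_
        rw [← e2]
        exact hx1.onePlus
      have h2 : IsCb K B (cupR K B r (s + 1 + 1) a + fun t => onePlus (x t)) 0 := by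
        intro t h3 h4
        rw [((isCb_cupR h ha1 ha2 (s + 1)).add hx3.onePlus) t h3 h4]
        show cupR K B r (s + 1) a t + sw (cupR K B r (s + 1) a t) + onePlus (cupR K B r (s + 1) a t + onePlus (x' t)) = 0
        rw [map_add, onePlus_onePlus, add_zero, onePlus_apply, add_self_tt]
      obtain ⟨y, hy1, hy2⟩ := H (2 * j - (s + 1)) (by omega) _ h1 h2
      exact ⟨y, x, hy1, by rw [e1]; exact hx1, hy2⟩
  obtain ⟨x, x', hx1, hx2, hx3⟩ := key j le_rfl
  have e1 : 2 * j - j = j := by omega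
  have e2 : 2 * j + 1 - j = j + 1 := by omega
  rw [e1] at hx1
  rw [e2] at hx2
  have hz1 : EqC K B (tp ρ) (j + 1) (cupR K B r (j + 1) a + fun t => onePlus (x' t)) :=
    EqC.add (ha1.cupR h (by omega)) hx2.onePlus
  have hcup : ∀ s, cupR K B r (j + 1) a s = a s ⊗ₜ[ZMod 2] a s := by
    intro s
    by_cases h0 : a s = 0
    · rw [h0, TensorProduct.zero_tmul]
      by_contra h1
      obtain ⟨h2, h3, h4⟩ := (ha1.cupR (r := r) (m := j + 1) (l := j + 1) h (by omega)).supp s h1
      apply h1
      rw [cupR_eq h2 h3, ← h4, cupL_self, h0, TensorProduct.zero_tmul]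
    · obtain ⟨h2, h3, h4⟩ := ha1.supp s h0
      rw [cupR_eq h2 h3, ← h4, cupL_self]
  have hz2 : ∀ s, sw ((cupR K B r (j + 1) a + fun t => onePlus (x' t)) s) = (cupR K B r (j + 1) a + fun t => onePlus (x' t)) s := by
    intro s
    rw [Pi.add_apply, map_add, hcup, sw_tmul]
    congr 1
    exact alt_sym ⟨x' s, rfl⟩
  have hz3 := cb_cb h.toSCx hx1 hz1 hx3
  obtain ⟨y, hy1, hy2, hy3⟩ := sym_exact h δ hδ1 hδ2 hδ3 (fun q hq => H q (by omega)) hV j le_rfl _ hz1 hz2 hz3
  refine ⟨fun s => δ (y s), hy1.map _ (map_zero _) fun g s => diag_tp δ hδ1 hδ2 hδ3 g (hy2 s), fun t h1 h2 => ?_⟩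
  rw [hy3.map δ t h1 h2]
  show δ (cupR K B r (j + 1) a t + onePlus (x' t)) = a t
  have h3 : δ (onePlus (x' t)) = 0 := hδ2 _ ⟨x' t, rfl⟩
  rw [hcup, map_add, hδ1, h3, add_zero]

end Pool.Agent.S11

end
end

section

/-!
# Project S14: left-ordered groups are torsion free; the square lemma for left-ordered groups

Copies of `S11/SqOrd`, `S11/SqBO` for a left-invariant order.
-/

set_option autoImplicit false
set_option linter.unusedSectionVars false

open Finset Pointwise

namespace Pool.Agent.S14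

open Pool.Agent.S11

/-- left-ordered groups are torsion free -/
theorem LO.tf {H : Type} [Group H] [LO H] {g : H} {k : ℕ} (hk : 0 < k) (h : g ^ k = 1) : g = 1 := by
  rcases lt_trichotomy 1 g with h1 | h1 | h1
  · have key : ∀ m : ℕ, 0 < m → 1 < g ^ m := by
      intro m hm
      induction m with
      | zero => exact absurd hm (lt_irrefl _)
      | succ m ih =>
        rcases Nat.eq_zero_or_pos m with h0 | h0
        · subst h0
          rwa [zero_add, pow_one]
        · have h2 := LO.lt_l 1 g (g ^ m) h1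
          rw [mul_one, ← pow_succ] at h2
          exact (ih h0).trans h2
    exact absurd (key k hk) (by rw [h]; exact lt_irrefl _)
  · exact h1.symm
  · have key : ∀ m : ℕ, 0 < m → g ^ m < 1 := by
      intro m hm
      induction m with
      | zero => exact absurd hm (lt_irrefl _)
      | succ m ih =>
        rcases Nat.eq_zero_or_pos m with h0 | h0
        · subst h0
          rwa [zero_add, pow_one]
        · have h2 := LO.lt_l g 1 (g ^ m) h1
          rw [mul_one, ← pow_succ] at h2
          exact h2.trans (ih h0)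
    exact absurd (key k hk) (by rw [h]; exact lt_irrefl _)

/-- **An invariant relation which is a strict total order on every simplex.** -/
theorem exists_rel {H U : Type} [Group H] [LO H] [DecidableEq U] [MulAction H U] (K : Set (Finset U))
    (hdown : ∀ s ∈ K, ∀ t, t ⊆ s → t.Nonempty → t ∈ K) (hK : ∀ (g : H) (s : Finset U), s ∈ K → g • s ∈ K)
    (hfree : ∀ (g : H) (s : Finset U), s ∈ K → g • s = s → g = 1) :
    ∃ r : U → U → Prop, (∀ (g : H) (u v : U), r (g • u) (g • v) ↔ r u v) ∧
      ∀ s ∈ K, (∀ u ∈ s, ¬ r u u) ∧ (∀ u ∈ s, ∀ v ∈ s, ∀ w ∈ s, r u v → r v w → r u w) ∧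
        (∀ u ∈ s, ∀ v ∈ s, u ≠ v → r u v ∨ r v u) := by
  classical
  -- representatives of the orbits
  let rep : U → U := fun u => Quotient.out (Quotient.mk (MulAction.orbitRel H U) u)
  have hrep : ∀ u, ∃ g : H, g • rep u = u := by
    intro u
    have h : (MulAction.orbitRel H U) (rep u) u := Quotient.exact (Quotient.out_eq (Quotient.mk (MulAction.orbitRel H U) u))
    rw [MulAction.orbitRel_apply] at h
    obtain ⟨g, hg⟩ := h
    refine ⟨g⁻¹, ?_⟩
    have hg' : g • u = rep u := hg
    rw [← hg', inv_smul_smul]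
  have hrep_smul : ∀ (g : H) u, rep (g • u) = rep u := by
    intro g u
    have h : Quotient.mk (MulAction.orbitRel H U) (g • u) = Quotient.mk (MulAction.orbitRel H U) u := by
      refine Quotient.sound ?_
      show (MulAction.orbitRel H U) (g • u) u
      rw [MulAction.orbitRel_apply]
      exact MulAction.mem_orbit u g
    show Quotient.out _ = Quotient.out _
    rw [h]
  choose gg hgg using hrep
  have hvert : ∀ (g : H) u, ({g • u} : Finset U) ∈ K ↔ ({u} : Finset U) ∈ K := by
    intro g u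
    have h1 : ∀ (g : H) u, ({u} : Finset U) ∈ K → ({g • u} : Finset U) ∈ K := by
      intro g u hu
      have h := hK g _ hu
      rwa [Finset.smul_finset_singleton] at h
    refine ⟨fun h => ?_, h1 g u⟩
    have h2 := h1 g⁻¹ _ h
    rwa [inv_smul_smul] at h2
  have huniq : ∀ (g g' : H) u, ({u} : Finset U) ∈ K → g • u = g' • u → g = g' := by
    intro g g' u hu h
    have h2 : (g'⁻¹ * g) • ({u} : Finset U) = {u} := by
      rw [Finset.smul_finset_singleton, mul_smul, h, inv_smul_smul]
    have h3 := hfree _ _ hu h2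
    rw [inv_mul_eq_one] at h3
    exact h3.symm
  have hgg_smul : ∀ (g : H) u, ({u} : Finset U) ∈ K → gg (g • u) = g * gg u := by
    intro g u hu
    have hr : ({rep u} : Finset U) ∈ K := by
      rw [← hvert (gg u) (rep u), hgg]
      exact hu
    refine huniq _ _ (rep u) hr ?_
    have h1 := hgg (g • u)
    rw [hrep_smul] at h1
    rw [h1, mul_smul, hgg]
  have hltl : ∀ (g a b : H), g * a < g * b ↔ a < b := by
    intro g a b
    refine ⟨fun h => ?_, fun h => LO.lt_l a b g h⟩
    have h1 := LO.lt_l _ _ g⁻¹ h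
    rwa [inv_mul_cancel_left, inv_mul_cancel_left] at h1
  refine ⟨fun u v => ({u} : Finset U) ∈ K ∧ ({v} : Finset U) ∈ K ∧
    (gg u < gg v ∨ (gg u = gg v ∧ WellOrderingRel (rep u) (rep v))), ?_, ?_⟩
  · intro g u v
    show (_ ∧ _ ∧ _) ↔ (_ ∧ _ ∧ _)
    rw [hvert, hvert]
    refine and_congr_right fun hu => and_congr_right fun hv => ?_
    rw [hgg_smul g u hu, hgg_smul g v hv, hltl, hrep_smul, hrep_smul, mul_right_inj]
  · intro s hs
    have hv : ∀ u ∈ s, ({u} : Finset U) ∈ K := fun u hu =>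
      hdown s hs {u} (Finset.singleton_subset_iff.2 hu) (Finset.singleton_nonempty u)
    refine ⟨?_, ?_, ?_⟩
    · rintro u - ⟨-, -, h | ⟨-, h⟩⟩
      · exact lt_irrefl _ h
      · exact (irrefl_of WellOrderingRel (rep u)) h
    · rintro u - v - w - ⟨hu, -, h1⟩ ⟨-, hw, h2⟩
      refine ⟨hu, hw, ?_⟩
      rcases h1 with h1 | ⟨h1, h1'⟩
      · rcases h2 with h2 | ⟨h2, -⟩
        · exact Or.inl (h1.trans h2)
        · exact Or.inl (h2 ▸ h1)
      · rcases h2 with h2 | ⟨h2, h2'⟩
        · exact Or.inl (h1 ▸ h2)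
        · exact Or.inr ⟨h1.trans h2, trans_of WellOrderingRel h1' h2'⟩
    · intro u hu v hv' huv
      rcases lt_trichotomy (gg u) (gg v) with h | h | h
      · exact Or.inl ⟨hv u hu, hv v hv', Or.inl h⟩
      · have hne : rep u ≠ rep v := by
          intro h'
          refine huv ?_
          rw [← hgg u, ← hgg v, h, h']
        rcases trichotomous_of WellOrderingRel (rep u) (rep v) with h' | h' | h'
        · exact Or.inl ⟨hv u hu, hv v hv', Or.inr ⟨h, h'⟩⟩
        · exact absurd h' hne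
        · exact Or.inr ⟨hv v hv', hv u hu, Or.inr ⟨h.symm, h'⟩⟩
      · exact Or.inr ⟨hv v hv', hv u hu, Or.inl h⟩

/-- **The square lemma** for a group with a left-invariant order. -/
theorem squareLO {H U : Type} [Group H] [LO H] [DecidableEq U] [MulAction H U] {K B : Set (Finset U)} (h : SCx H K B)
    {V : Type} [AddCommGroup V] [Module (ZMod 2) V] (τ : Representation (ZMod 2) H V) (j : ℕ)
    (hj : ∀ q ≤ 2 * j, ExactAt K B (τ.tprod τ) q) : ExactAt K B τ j := by
  obtain ⟨r, h1, h2⟩ := exists_rel (H := H) K h.down h.K_mem h.free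
  exact square (r := r) { h with r_smul := h1, r_tot := h2 } τ j hj

end Pool.Agent.S14

end
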