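import Pool.Agent.H71.TSG.M48
import Pool.Agent.H71.TSG.M84

/-! The parts of this file: S11.EdMfd, S11.EdBA, S11.EdB, S11.EdB4, S14.PairS, S14.PairF, S14.KeyE, S14.FlatF. -/

section

/-!
# Project S11, block END: homology manifolds are duality pairs

`f` a cocycle with finite support on the simplices with `j + 1` vertices.  For a linear order of the vertices the
chain `z (s, t) = f ({max s} ∪ (t - s))`, `s` an initial segment of `t`, is a cycle of the complex of the pairs; it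
is the boundary of a chain `b`, and `g t = ∑ b ({v}, t)` has the coboundary `f`.
-/

set_option autoImplicit false
set_option linter.unusedSectionVars false

open Finset

namespace Pool.Agent.S11

open Pool.Agent.H37.TM Pool.Agent.S10

variable {U : Type} [DecidableEq U] {K B : Set (Finset U)} {n : ℕ}

section

variable {O : Type} [LinearOrder O] (ht : U → O)

open Classical in
/-- the last vertex of a simplex -/
private noncomputable def mx (s : Finset U) (u0 : U) : U :=
  if h : s.Nonempty then (exists_max_image s ht h).choose else u0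

private theorem mx_spec {s : Finset U} (h : s.Nonempty) (u0 : U) :
    mx ht s u0 ∈ s ∧ ∀ u ∈ s, ht u ≤ ht (mx ht s u0) := by
  unfold mx
  rw [dif_pos h]
  exact (exists_max_image s ht h).choose_spec

private theorem mx_eq (hinj : Function.Injective ht) {s : Finset U} {m : U} (hm : m ∈ s) (h : ∀ u ∈ s, ht u ≤ ht m)
    (u0 : U) : mx ht s u0 = m := by
  obtain ⟨h1, h2⟩ := mx_spec ht ⟨m, hm⟩ u0
  exact hinj (le_antisymm (h _ h1) (h2 _ hm))

open Classical in
/-- the cycle of the pairs -/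
private noncomputable def cyc (K : Set (Finset U)) (f : Finset U → ZMod 2) (u0 : U) (p : Finset U × Finset U) :
    ZMod 2 :=
  if p.1.Nonempty ∧ p.1 ⊆ p.2 ∧ p.2 ∈ K ∧ ∀ v ∈ p.2 \ p.1, ht (mx ht p.1 u0) < ht v then
    f (insert (mx ht p.1 u0) (p.2 \ p.1)) else 0

private theorem cyc_of {f : Finset U → ZMod 2} {u0 : U} {s t : Finset U} (h1 : s.Nonempty) (h2 : s ⊆ t) (h3 : t ∈ K)
    (h4 : ∀ v ∈ t \ s, ht (mx ht s u0) < ht v) : cyc ht K f u0 (s, t) = f (insert (mx ht s u0) (t \ s)) := by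
  unfold cyc
  rw [if_pos ⟨h1, h2, h3, h4⟩]

private theorem cyc_not {f : Finset U → ZMod 2} {u0 : U} {s t : Finset U}
    (h4 : ¬ ∀ v ∈ t \ s, ht (mx ht s u0) < ht v) : cyc ht K f u0 (s, t) = 0 := by
  unfold cyc
  rw [if_neg fun h => h4 h.2.2.2]

private theorem cyc_ne {f : Finset U → ZMod 2} {u0 : U} {p : Finset U × Finset U} (h : cyc ht K f u0 p ≠ 0) :
    (p.1.Nonempty ∧ p.1 ⊆ p.2 ∧ p.2 ∈ K ∧ ∀ v ∈ p.2 \ p.1, ht (mx ht p.1 u0) < ht v) ∧
      f (insert (mx ht p.1 u0) (p.2 \ p.1)) ≠ 0 := by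
  unfold cyc at h
  split_ifs at h with h1
  · exact ⟨h1, h⟩
  · exact absurd rfl h

/-- the chain is a cycle of degree `n - j` -/
private theorem cyc_tot (M : TotX.MX U n) {f : Finset U →₀ ZMod 2} {j k : ℕ} (hk : j + k = n)
    (hf : ∀ t, f t ≠ 0 → t ∈ M.faces ∧ t ∉ M.bd ∧ t.card = j + 1) (u0 : U) :
    M.IsTot k (cyc ht M.faces f u0) := by
  classical
  constructor
  · have h1 : Function.support (cyc ht M.faces f u0) ⊆ ⋃ T ∈ (f.support : Set (Finset U)),
        ⋃ t ∈ {t | t ∈ M.faces ∧ T ⊆ t}, (t.powerset : Set (Finset U)) ×ˢ {t} := by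
      rintro ⟨s, t⟩ h
      obtain ⟨⟨h1, h2, h3, h4⟩, h5⟩ := cyc_ne ht h
      simp only at h1 h2 h3 h4 h5
      simp only [Set.mem_iUnion, exists_prop]
      refine ⟨_, Finset.mem_coe.2 (Finsupp.mem_support_iff.2 h5), t, ⟨h3, ?_⟩, ?_, rfl⟩
      · exact insert_subset (h2 (mx_spec ht h1 u0).1) sdiff_subset
      · exact mem_coe.2 (mem_powerset.2 h2)
    refine Set.Finite.subset ?_ h1
    refine (finite_toSet _).biUnion fun T hT => ?_
    have hT' := hf T (Finsupp.mem_support_iff.1 hT)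
    refine Set.Finite.biUnion (M.fin_up (M.ne T hT'.1)) fun t _ => ?_
    exact (finite_toSet _).prod (Set.finite_singleton _)
  · rintro ⟨s, t⟩ h
    obtain ⟨⟨h1, h2, h3, h4⟩, h5⟩ := cyc_ne ht h
    simp only at h1 h2 h3 h4 h5
    obtain ⟨g1, g2, g3⟩ := hf _ h5
    obtain ⟨m1, m2⟩ := mx_spec ht h1 u0
    have h6 : insert (mx ht s u0) (t \ s) ⊆ t := insert_subset (h2 m1) sdiff_subset
    refine ⟨h1, h2, ⟨h3, fun hb => g2 (M.bd_down t hb _ h6 (insert_nonempty _ _))⟩, ?_⟩
    rw [card_insert_of_notMem (fun h => (mem_sdiff.1 h).2 m1)] at g3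
    have h7 := card_sdiff_add_card_eq_card h2
    simp only
    omega

/-- the chain is a cycle -/
private theorem cyc_cycle (M : TotX.MX U n) (hinj : Function.Injective ht) {f : Finset U →₀ ZMod 2}
    (hf : ∀ t, f t ≠ 0 → t ∉ M.bd) (hc : ∀ t ∈ M.faces, t ∉ M.bd → ∑ v ∈ t, f (t.erase v) = 0) (u0 : U) :
    M.D (cyc ht M.faces f u0) = 0 := by
  classical
  funext p
  obtain ⟨s, t⟩ := p
  by_cases h : s.Nonempty ∧ s ⊆ t ∧ t ∈ M.faces
  swap
  · rw [M.D_of_not h]
    rfl
  obtain ⟨h1, h2, h3⟩ := h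
  rw [M.D_of h1 h2 h3]
  obtain ⟨m1, m2⟩ := mx_spec ht h1 u0
  set m := mx ht s u0 with hm
  have hface : ∀ w ∈ t \ s, t.erase w ∈ M.faces := fun w hw =>
    M.down t h3 _ (erase_subset _ _) (h1.mono (subset_erase.2 ⟨h2, (mem_sdiff.1 hw).2⟩))
  have hsub : ∀ w ∈ t \ s, s ⊆ t.erase w := fun w hw => subset_erase.2 ⟨h2, (mem_sdiff.1 hw).2⟩
  have e1 : ∀ w, t \ insert w s = (t \ s).erase w := by
    intro w
    ext u
    simp only [mem_sdiff, mem_insert, mem_erase]
    tauto
  have e2 : ∀ w, t.erase w \ s = (t \ s).erase w := by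
    intro w
    ext u
    simp only [mem_sdiff, mem_erase]
    tauto
  by_cases hQ : ∀ v ∈ t \ s, ht m < ht v
  · -- the initial segments
    have hterm : ∀ w ∈ t \ s, cyc ht M.faces f u0 (insert w s, t) + cyc ht M.faces f u0 (s, t.erase w) =
        (if ∀ v ∈ (t \ s).erase w, ht w < ht v then f (t \ s) else 0) + f ((insert m (t \ s)).erase w) := by
      intro w hw
      have hw' := mem_sdiff.1 hw
      have hmw : m ≠ w := fun e => hw'.2 (e ▸ m1)
      have hmx : mx ht (insert w s) u0 = w := by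
        refine mx_eq ht hinj (mem_insert_self _ _) (fun u hu => ?_) u0
        rcases mem_insert.1 hu with rfl | hu
        · exact le_rfl
        · exact (m2 u hu).trans (hQ w hw).le
      congr 1
      · split_ifs with hw2
        · rw [cyc_of ht (insert_nonempty _ _) (insert_subset hw'.1 h2) h3 (by rw [hmx, e1]; exact hw2), hmx, e1,
            insert_erase hw]
        · exact cyc_not ht (by rw [hmx, e1]; exact hw2)
      · rw [cyc_of ht h1 (hsub w hw) (hface w hw) (fun v hv => hQ v (by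
          rw [e2] at hv
          exact mem_of_mem_erase hv)), e2, ← hm, ← erase_insert_of_ne hmw]
    rw [sum_congr rfl hterm, sum_add_distrib]
    by_cases hne : (t \ s).Nonempty
    · obtain ⟨w0, hw0, hmin⟩ := exists_min_image (t \ s) ht hne
      have h4 : ∑ w ∈ t \ s, (if ∀ v ∈ (t \ s).erase w, ht w < ht v then f (t \ s) else 0) = f (t \ s) := by
        rw [sum_eq_single w0]
        · rw [if_pos]
          intro v hv
          exact lt_of_le_of_ne (hmin v (mem_of_mem_erase hv)) fun e => (ne_of_mem_erase hv) (hinj e).symm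
        · intro w hw hww
          rw [if_neg]
          intro h5
          exact absurd (h5 w0 (mem_erase.2 ⟨hww.symm, hw0⟩)) (not_lt.2 (hmin w hw))
        · intro h5
          exact absurd hw0 h5
      rw [h4]
      have hmn : m ∉ t \ s := fun h5 => (mem_sdiff.1 h5).2 m1
      have hT : insert m (t \ s) ∈ M.faces :=
        M.down t h3 _ (insert_subset (h2 m1) sdiff_subset) (insert_nonempty _ _)
      have h6 : ∑ v ∈ insert m (t \ s), f ((insert m (t \ s)).erase v) = 0 := by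
        by_cases hb : insert m (t \ s) ∈ M.bd
        · refine sum_eq_zero fun v hv => ?_
          by_contra h7
          refine hf _ h7 (M.bd_down _ hb _ (erase_subset _ _) ?_)
          rcases eq_or_ne v m with rfl | hvm
          · rw [erase_insert hmn]
            exact hne
          · exact ⟨m, mem_erase.2 ⟨hvm.symm, mem_insert_self _ _⟩⟩
        · exact hc _ hT hb
      rw [sum_insert hmn, erase_insert hmn] at h6
      rw [h6]
      rfl
    · rw [not_nonempty_iff_eq_empty] at hne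
      rw [hne, sum_empty, sum_empty, add_zero]
      rfl
  · refine sum_eq_zero fun w hw => ?_
    have hw' := mem_sdiff.1 hw
    rcases lt_or_ge (ht m) (ht w) with hlt | hge
    · have hmx : mx ht (insert w s) u0 = w := by
        refine mx_eq ht hinj (mem_insert_self _ _) (fun u hu => ?_) u0
        rcases mem_insert.1 hu with rfl | hu
        · exact le_rfl
        · exact (m2 u hu).trans hlt.le
      have h5 : ¬ ∀ v ∈ (t \ s).erase w, ht m < ht v := by
        intro h5
        apply hQ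
        intro v hv
        rcases eq_or_ne v w with rfl | hvw
        · exact hlt
        · exact h5 v (mem_erase.2 ⟨hvw, hv⟩)
      rw [cyc_not ht, cyc_not ht, add_zero]
      · rw [e2]
        exact h5
      · rw [hmx, e1]
        intro h6
        exact h5 fun v hv => hlt.trans (h6 v hv)
    · have hmx : mx ht (insert w s) u0 = m := by
        refine mx_eq ht hinj (mem_insert_of_mem m1) (fun u hu => ?_) u0
        rcases mem_insert.1 hu with rfl | hu
        · exact hge
        · exact m2 u hu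
      by_cases h5 : ∀ v ∈ (t \ s).erase w, ht m < ht v
      · rw [cyc_of ht (insert_nonempty _ _) (insert_subset hw'.1 h2) h3 (by rw [hmx, e1]; exact h5),
          cyc_of ht h1 (hsub w hw) (hface w hw) (by rw [e2]; exact h5), hmx, e1, e2, ← hm]
        exact TotX.zmod2_add_self _
      · rw [cyc_not ht (by rw [hmx, e1]; exact h5), cyc_not ht (by rw [e2]; exact h5), add_zero]

/-- the augmentation of the chain is `f` -/
private theorem cyc_aug (hinj : Function.Injective ht) {f : Finset U → ZMod 2} (u0 : U) {t : Finset U} (hK : t ∈ K)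
    (hne : t.Nonempty) : ∑ v ∈ t, cyc ht K f u0 ({v}, t) = f t := by
  classical
  have hmx : ∀ v, mx ht ({v} : Finset U) u0 = v := fun v =>
    mx_eq ht hinj (mem_singleton_self v) (fun u hu => by rw [mem_singleton.1 hu]) u0
  obtain ⟨w0, hw0, hmin⟩ := exists_min_image t ht hne
  rw [sum_eq_single w0]
  · rw [cyc_of ht (singleton_nonempty _) (singleton_subset_iff.2 hw0) hK, hmx, sdiff_singleton_eq_erase,
      insert_erase hw0]
    intro v hv
    rw [hmx]
    rw [sdiff_singleton_eq_erase] at hv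
    exact lt_of_le_of_ne (hmin v (mem_of_mem_erase hv)) fun e => (ne_of_mem_erase hv) (hinj e).symm
  · intro w hw hww
    apply cyc_not
    intro h5
    rw [hmx] at h5
    refine absurd (h5 w0 ?_) (not_lt.2 (hmin w hw))
    rw [sdiff_singleton_eq_erase]
    exact mem_erase.2 ⟨hww.symm, hw0⟩
  · intro h5
    exact absurd hw0 h5

end

/-- a cocycle whose cycle of pairs is a boundary is a coboundary -/
private theorem cob_of {M : TotX.MX U n} {f : Finset U → ZMod 2} {z b : Finset U × Finset U → ZMod 2} {j k : ℕ}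
    (hk : j + k = n) (hz : ∀ t ∈ M.faces, ∑ v ∈ t, z ({v}, t) = f t) (hb : M.IsTot (k + 1) b) (hbz : M.D b = z) :
    ∃ g : Finset U →₀ ZMod 2, (∀ t, g t ≠ 0 → t ∈ M.faces ∧ t ∉ M.bd ∧ t.card = j) ∧
      ∀ t ∈ M.faces, ∑ v ∈ t, g (t.erase v) = f t := by
  classical
  have hg0 : ∀ t, ∑ v ∈ t, b ({v}, t) ≠ 0 → ∃ v ∈ t, b ({v}, t) ≠ 0 := fun t h =>
    exists_ne_zero_of_sum_ne_zero h
  have hfin : (Function.support fun t : Finset U => ∑ v ∈ t, b ({v}, t)).Finite := by
    refine (hb.1.image Prod.snd).subset fun t h => ?_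
    obtain ⟨v, -, hv⟩ := hg0 t h
    exact ⟨({v}, t), hv, rfl⟩
  refine ⟨Finsupp.ofSupportFinite _ hfin, fun t h => ?_, fun t h3 => ?_⟩
  · obtain ⟨v, -, hv⟩ := hg0 t h
    obtain ⟨-, -, g3, g4⟩ := hb.2 _ hv
    simp only [card_singleton] at g4
    exact ⟨g3.1, g3.2, by omega⟩
  · rw [← hz t h3, ← hbz]
    have e1 : ∀ v ∈ t, M.D b ({v}, t) = ∑ w ∈ t.erase v, (b (insert w {v}, t) + b ({v}, t.erase w)) := by
      intro v hv
      rw [M.D_of (singleton_nonempty v) (singleton_subset_iff.2 hv) h3, sdiff_singleton_eq_erase]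
    rw [sum_congr rfl e1]
    simp only [sum_add_distrib]
    rw [TotX.sum_pairs_symm t (fun v w => b (insert w {v}, t)) (fun v w => by
      show b (insert w {v}, t) = b (insert v {w}, t)
      rw [pair_comm]), zero_add]
    have e2 : ∑ v ∈ t, ∑ w ∈ t.erase v, b ({v}, t.erase w) = ∑ w ∈ t, ∑ v ∈ t.erase w, b ({v}, t.erase w) := by
      refine sum_comm' fun v w => ?_
      simp only [mem_erase]
      tauto
    rw [e2]
    rfl

/-- homology manifolds are duality pairs -/
theorem dual_of_mfd (hM : Mfd K B n) (hK : AcycLt K (n + 1)) : Dual K B {t | t ∈ K ∧ t ∉ B ∧ t.card = n + 1} n (n + 1) := by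
  classical
  obtain ⟨O, hO, ht, hinj⟩ : ∃ (O : Type) (_ : LinearOrder O) (ht : U → O), Function.Injective ht :=
    ⟨U, linearOrderOfSTO WellOrderingRel, id, Function.injective_id⟩
  set M := toMX hM hK with hMdef
  obtain ⟨s0, hs0⟩ := M.nonempty
  obtain ⟨u0, hu0⟩ := M.ne s0 hs0
  -- the common part of `low` and `top`
  have main : ∀ j ≤ n, ∀ f : Finset U →₀ ZMod 2, Rel K B ∅ (j + 1) f → IsCob K B ∅ f 0 →
      (j = n → ∑ᶠ t ∈ {t | t ∈ K ∧ t ∉ B ∧ t.card = n + 1}, f t = 0) →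
      ∃ g : Finset U →₀ ZMod 2, Rel K B ∅ j g ∧ IsCob K B ∅ g f := by
    intro j hj f hf hc hs
    obtain ⟨k, hk⟩ : ∃ k, j + k = n := ⟨n - j, by omega⟩
    have hf' : ∀ t, f t ≠ 0 → t ∈ M.faces ∧ t ∉ M.bd ∧ t.card = j + 1 := fun t h =>
      ⟨(hf t h).1, (hf t h).2.1, (hf t h).2.2.2⟩
    have hc' : ∀ t ∈ M.faces, t ∉ M.bd → ∑ v ∈ t, f (t.erase v) = 0 := by
      intro t h1 h2
      have h3 := hc t h1 h2 (empty_subset _)
      rw [sdiff_empty] at h3
      exact h3
    have hz := cyc_tot ht M hk hf' u0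
    have hD := cyc_cycle ht M hinj (fun t h => (hf' t h).2.1) hc' u0
    have haug : ∀ t ∈ M.faces, ∑ v ∈ t, cyc ht M.faces f u0 ({v}, t) = f t := fun t h =>
      cyc_aug ht hinj u0 h (M.ne t h)
    obtain ⟨b, hb, hbz⟩ := M.exact k (show k + 1 ≤ n + 1 by omega) hz hD (by
      intro hk0
      have hjn : j = n := by omega
      have h1 : ∑ᶠ p, cyc ht M.faces f u0 p = ∑ t ∈ f.support, ∑ v ∈ t, cyc ht M.faces f u0 ({v}, t) := by
        rw [finsum_eq_sum_of_support_subset (s := f.support.biUnion fun t => t.image fun v => ({v}, t))]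
        · rw [sum_biUnion]
          · refine sum_congr rfl fun t _ => ?_
            rw [sum_image]
            intro v _ w _ e
            exact singleton_injective (Prod.mk.inj e).1
          · intro t _ t' _ hne
            rw [Function.onFun, disjoint_left]
            intro p hp hp'
            obtain ⟨v, -, rfl⟩ := mem_image.1 hp
            obtain ⟨w, -, e⟩ := mem_image.1 hp'
            exact hne (Prod.mk.inj e).2.symm
        · rintro ⟨s, t⟩ h
          have hg := hz.2 _ h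
          obtain ⟨⟨g1, g2, g3, g4⟩, g5⟩ := cyc_ne ht h
          simp only at g1 g2 g3 g4 g5
          have h2 := hg.2.2.2
          simp only at h2
          have h3 := M.card_le t g3
          have h4 := card_pos.2 g1
          have h5 : s.card = 1 := by omega
          obtain ⟨v, rfl⟩ := card_eq_one.1 h5
          have hmx : mx ht ({v} : Finset U) u0 = v :=
            mx_eq ht hinj (mem_singleton_self v) (fun u hu => by rw [mem_singleton.1 hu]) u0
          rw [hmx, sdiff_singleton_eq_erase, insert_erase (singleton_subset_iff.1 g2)] at g5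
          rw [mem_coe, mem_biUnion]
          exact ⟨t, Finsupp.mem_support_iff.2 g5, mem_image.2 ⟨v, singleton_subset_iff.1 g2, rfl⟩⟩
      rw [h1, sum_congr rfl fun t h => haug t (hf' t (Finsupp.mem_support_iff.1 h)).1, ← hs hjn]
      symm
      rw [finsum_mem_eq_sum_of_inter_support_eq]
      ext t
      simp only [Set.mem_inter_iff, Set.mem_ofPred_eq, Function.mem_support, mem_coe, Finsupp.mem_support_iff]
      constructor
      · rintro ⟨-, h⟩
        exact ⟨h, h⟩
      · rintro ⟨h, -⟩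
        obtain ⟨g1, g2, g3⟩ := hf' t h
        exact ⟨⟨g1, g2, by rw [g3, hjn]⟩, h⟩)
    obtain ⟨g, hg, hg'⟩ := cob_of hk haug hb hbz
    refine ⟨g, fun t h => ⟨(hg t h).1, (hg t h).2.1, empty_subset _, (hg t h).2.2⟩, fun t h1 _ _ => ?_⟩
    rw [sdiff_empty]
    exact hg' t h1
  exact
    { ne := hM.ne
      down := hM.down
      bd_sub := hM.bd_sub
      bd_down := hM.bd_down
      locfin := hM.locfin
      mu_sub := fun t h => h
      even := by
        intro s hs hB hc
        have h1 := hM.psm.even s hs hB hc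
        have hset : {t | t ∈ {t | t ∈ K ∧ t ∉ B ∧ t.card = n + 1} ∧ s ⊆ t} = {t' | t' ∈ K ∧ s ⊆ t' ∧ t'.card = n + 1} := by
          ext t
          simp only [Set.mem_ofPred_eq]
          constructor
          · rintro ⟨⟨g1, g2, g3⟩, g4⟩
            exact ⟨g1, g4, g3⟩
          · rintro ⟨g1, g2, g3⟩
            exact ⟨⟨g1, fun h => hB (hM.bd_down t h s g2 (hM.ne s hs)), g3⟩, g2⟩
        have hfin : {t' | t' ∈ K ∧ s ⊆ t' ∧ t'.card = n + 1}.Finite :=
          (hM.locfin s hs).subset fun t ht => ⟨ht.1, ht.2.1⟩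
        have h2 : (cofs K s (n + 1)).card = {t' | t' ∈ K ∧ s ⊆ t' ∧ t'.card = n + 1}.ncard := by
          unfold cofs
          rw [dif_pos hfin, Set.ncard_eq_toFinset_card _ hfin]
        rw [hset, ← h2]
        exact (ZMod.natCast_eq_zero_iff_even).1 h1
      low := fun j hj _ f hf hc => main j hj.le f hf hc (by omega)
      top := fun f hf hc hs => main n le_rfl f hf hc fun _ => hs
      ex := by
        obtain ⟨t0, h1, h2, -, h3⟩ := hM.top_ex s0 hs0
        have hcard : ∀ t ∈ K, ∀ v ∈ t, (t.erase v).card ≠ n + 1 := by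
          intro t ht v hv h4
          rw [card_erase_of_mem hv] at h4
          have h5 := hM.card_le t ht
          have h6 := card_pos.2 ⟨v, hv⟩
          omega
        refine ⟨Finsupp.single t0 1, fun t h => ?_, fun t ht _ _ => ?_, ?_⟩
        · have h4 : t0 = t := by
            by_contra hne
            rw [Finsupp.single_apply, if_neg hne] at h
            exact h rfl
          subst h4
          exact ⟨h1, h2, empty_subset _, h3⟩
        · refine sum_eq_zero fun v hv => ?_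
          rw [Finsupp.single_apply, if_neg]
          rintro rfl
          exact hcard t ht v (mem_sdiff.1 hv).1 h3
        · rw [finsum_mem_eq_sum_of_inter_support_eq (t := {t0}), sum_singleton, Finsupp.single_eq_same]
          ext t
          simp only [Set.mem_inter_iff, Set.mem_ofPred_eq, Function.mem_support, coe_singleton,
            Set.mem_singleton_iff]
          constructor
          · rintro ⟨-, h⟩
            refine ⟨?_, h⟩
            by_contra hne
            rw [Finsupp.single_apply, if_neg fun e => hne e.symm] at h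
            exact h rfl
          · rintro ⟨rfl, h⟩
            exact ⟨⟨h1, h2, h3⟩, h⟩ }

end Pool.Agent.S11

end

section

/-!
# Project S11, block END: chain maps, generalities

The cells of `X`, the cells of `(K, B)`; the boundary of the chains of `X`, the coboundary of the finite cochains.
-/

set_option autoImplicit false
set_option linter.unusedSectionVars false

open Finset Pointwise

namespace Pool.Agent.S11

open Pool.Agent.H37.TM Pool.Agent.S10

section Chains

variable {Γ V : Type} [Group Γ] [DecidableEq V] [MulAction Γ V] {X : Set (Finset V)}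

theorem bdS_sgl (s : Finset V) : bdS (Finsupp.single s (1 : ZMod 2)) = ∑ v ∈ s, Finsupp.single (s.erase v) 1 := by
  rw [bdS, Finsupp.linearCombination_single, one_smul]

/-- the graded parts -/
theorem bdS_part (f : Finset V →₀ ZMod 2) (k : ℕ) :
    bdS (f.filter fun t => t.card = k + 1) = (bdS f).filter fun t => t.card = k := by
  induction f using Finsupp.induction_linear with
  | zero => rw [Finsupp.filter_zero, map_zero, Finsupp.filter_zero]
  | add f g hf hg => rw [map_add, Finsupp.filter_add, Finsupp.filter_add, map_add, hf, hg]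
  | single t a =>
    have h0 : ∀ v ∈ t, (t.erase v).card + 1 = t.card := fun v hv => card_erase_add_one hv
    have h3 : ∀ a : ZMod 2, bdS (Finsupp.single t a) = a • ∑ v ∈ t, Finsupp.single (t.erase v) 1 := fun a => by
      rw [bdS, Finsupp.linearCombination_single]
    rw [h3]
    ext r
    rw [Finsupp.filter_apply]
    by_cases h1 : t.card = k + 1
    · rw [Finsupp.filter_single_of_pos (fun t : Finset V => t.card = k + 1) h1, h3]
      by_cases h2 : r.card = k
      · rw [if_pos h2]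
      · rw [if_neg h2, Finsupp.smul_apply, Finsupp.finsetSum_apply, sum_eq_zero, smul_zero]
        intro v hv
        refine Finsupp.single_eq_of_ne ?_
        rintro rfl
        have h3 := h0 v hv
        omega
    · rw [Finsupp.filter_single_of_neg (fun t : Finset V => t.card = k + 1) h1, map_zero, Finsupp.zero_apply]
      by_cases h2 : r.card = k
      · rw [if_pos h2, Finsupp.smul_apply, Finsupp.finsetSum_apply, sum_eq_zero, smul_zero]
        intro v hv
        refine Finsupp.single_eq_of_ne ?_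
        rintro rfl
        have h3 := h0 v hv
        omega
      · rw [if_neg h2]

theorem erase_smulV (g : Γ) (s : Finset V) (v : V) : (g • s).erase (g • v) = g • s.erase v := erase_smul g s v

theorem sum_smulV {M : Type} [AddCommMonoid M] (g : Γ) (s : Finset V) (f : V → M) :
    ∑ v ∈ g • s, f v = ∑ v ∈ s, f (g • v) := sum_smul_set g s f

theorem bdS_smul (g : Γ) (x : Finset V →₀ ZMod 2) : bdS (x.mapDomain (g • ·)) = (bdS x).mapDomain (g • ·) := by
  have h1 : ∀ s : Finset V, (∑ v ∈ g • s, Finsupp.single ((g • s).erase v) (1 : ZMod 2)) =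
      (∑ v ∈ s, Finsupp.single (s.erase v) (1 : ZMod 2)).mapDomain (g • ·) := by
    intro s
    rw [sum_smulV, Finsupp.mapDomain_finsetSum]
    refine sum_congr rfl fun v _ => ?_
    rw [Finsupp.mapDomain_single, erase_smulV]
  have h2 : ∀ x : Finset V →₀ ZMod 2, bdS x = lin (fun s => ∑ v ∈ s, Finsupp.single (s.erase v) 1) x := fun x => rfl
  rw [h2, h2, lin_mapDomain, mapDomain_lin]
  exact lin_congr fun s _ => h1 s

/-- the simplices with `i + 1` vertices -/
def cX (X : Set (Finset V)) (i : ℕ) : Set (Finset V) := {s | s ∈ X ∧ s.card = i + 1}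

/-- the boundary which is not augmented -/
noncomputable def bX (s : Finset V) : Finset V →₀ ZMod 2 :=
  if 2 ≤ s.card then ∑ v ∈ s, Finsupp.single (s.erase v) 1 else 0

theorem bX_of {s : Finset V} (h : 2 ≤ s.card) : bX s = ∑ v ∈ s, Finsupp.single (s.erase v) 1 := if_pos h

theorem bX_zero {s : Finset V} (h : s.card ≤ 1) : bX s = 0 := if_neg (by omega)

theorem bX_bdS {s : Finset V} (h : 2 ≤ s.card) : bX s = bdS (Finsupp.single s 1) := by rw [bX_of h, bdS_sgl]

/-- linear extensions at the boundary -/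
theorem lin_bX {N : Type} [AddCommGroup N] [Module (ZMod 2) N] (H : Finset V → N) (h0 : H ∅ = 0) {s : Finset V} :
    lin H (bX s) = ∑ v ∈ s, H (s.erase v) := by
  rcases Nat.lt_or_ge s.card 2 with h | h
  · rw [bX_zero (by omega), map_zero]
    symm
    refine sum_eq_zero fun v hv => ?_
    have h1 : s.erase v = ∅ := by
      rw [← card_eq_zero, card_erase_of_mem hv]
      omega
    rw [h1, h0]
  · rw [bX_of h, map_sum]
    exact sum_congr rfl fun v _ => lin_single _ _

theorem lin_bX_congr {N : Type} [AddCommGroup N] [Module (ZMod 2) N] {H H' : Finset V → N}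
    (h : ∀ s, s.Nonempty → H s = H' s) (s : Finset V) : lin H (bX s) = lin H' (bX s) := by
  refine lin_congr fun c hc => (h c ?_)
  rcases Nat.lt_or_ge s.card 2 with h2 | h2
  · rw [bX_zero (by omega)] at hc
    exact absurd rfl hc
  · rw [bX_of h2, Finsupp.finsetSum_apply] at hc
    obtain ⟨v, hv, h3⟩ := exists_ne_zero_of_sum_ne_zero hc
    have h4 : c = s.erase v := by
      by_contra h5
      exact h3 (Finsupp.single_eq_of_ne h5)
    rw [h4, ← card_pos, card_erase_of_mem hv]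
    omega

theorem mem_bX (hX : SCx Γ X ∅) {i : ℕ} {a : Finset V} (ha : a ∈ cX X (i + 1)) {b : Finset V} (hb : bX a b ≠ 0) :
    b ∈ cX X i := by
  have h2 : 2 ≤ a.card := by rw [ha.2]; omega
  rw [bX_of h2, Finsupp.finsetSum_apply] at hb
  obtain ⟨v, hv, h3⟩ := exists_ne_zero_of_sum_ne_zero hb
  have h4 : b = a.erase v := by
    by_contra h5
    exact h3 (Finsupp.single_eq_of_ne h5)
  have h5 : (a.erase v).card = i + 1 := by
    rw [card_erase_of_mem hv, ha.2]
    omega
  rw [h4]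
  exact ⟨hX.down a ha.1 _ (erase_subset _ _) (card_pos.1 (by omega)), h5⟩

theorem bX_smul (g : Γ) (s : Finset V) : bX (g • s) = (bX s).mapDomain (g • ·) := by
  unfold bX
  rw [Finset.card_smul_finset]
  split_ifs with h
  · rw [sum_smulV, Finsupp.mapDomain_finsetSum]
    refine sum_congr rfl fun v _ => ?_
    rw [Finsupp.mapDomain_single, erase_smulV]
  · rw [Finsupp.mapDomain_zero]

theorem bX_bX (s : Finset V) : lin bX (bX s) = 0 := by
  rw [lin_bX bX (bX_zero (by rw [card_empty]; omega))]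
  rcases Nat.lt_or_ge s.card 3 with h | h
  · refine sum_eq_zero fun v hv => bX_zero ?_
    rw [card_erase_of_mem hv]
    omega
  · have h1 : ∀ v ∈ s, bX (s.erase v) = ∑ w ∈ s.erase v, Finsupp.single ((s.erase v).erase w) 1 := fun v hv =>
      bX_of (by rw [card_erase_of_mem hv]; omega)
    rw [sum_congr rfl h1]
    exact sum_sum_erase (fun t => Finsupp.single t (1 : ZMod 2)) s

/-- lifting of maps from the chains of `X` -/
theorem liftX {N : Type} [AddCommGroup N] [Module (ZMod 2) N] (hX : SCx Γ X ∅) (ρ : Γ →* (N →ₗ[ZMod 2] N))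
    (d : N →ₗ[ZMod 2] N) (hd : ∀ g x, d (ρ g x) = ρ g (d x)) (M : ℕ → Submodule (ZMod 2) N)
    (hM : ∀ i g, ∀ x ∈ M i, ρ g x ∈ M i) (hex : ∀ i, ∀ x ∈ M i, d x = 0 → ∃ y ∈ M (i + 1), d y = x)
    (F : Finset V → N) (hF : ∀ i, ∀ a ∈ cX X i, F a ∈ M i) (hFg : ∀ i, ∀ g : Γ, ∀ a ∈ cX X i, F (g • a) = ρ g (F a))
    (hFd : ∀ i, ∀ a ∈ cX X i, d (F a) = lin F (bX a)) :
    ∃ H : Finset V → N, (∀ i, ∀ a ∈ cX X i, H a ∈ M (i + 1)) ∧
      (∀ i, ∀ g : Γ, ∀ a ∈ cX X i, H (g • a) = ρ g (H a)) ∧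
      ∀ i, ∀ a ∈ cX X i, d (H a) = F a + lin H (bX a) :=
  lift_free (cX X) (fun i g a ha => ⟨hX.K_mem g a ha.1, by rw [Finset.card_smul_finset]; exact ha.2⟩)
    (fun i j a hi hj => by have := hi.2; have := hj.2; omega) (fun i a ha g h => hX.free g a ha.1 h) bX
    (fun i a ha b hb => mem_bX hX ha hb) (fun a ha => bX_zero (by rw [ha.2])) (fun i g a _ => bX_smul g a)
    (fun i a _ => bX_bX a) ρ d hd M hM (fun i _ => hex i) F hF hFg hFd

/-- the chains of `X` -/
noncomputable def MX (X : Set (Finset V)) (i : ℕ) : Submodule (ZMod 2) (Finset V →₀ ZMod 2) :=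
  Finsupp.supported (ZMod 2) (ZMod 2) (cX X i)

theorem mem_MX {i : ℕ} {x : Finset V →₀ ZMod 2} : x ∈ MX X i ↔ ∀ s, x s ≠ 0 → s ∈ X ∧ s.card = i + 1 := by
  constructor
  · intro h s hs
    exact (Finsupp.mem_supported _ _).1 h (Finsupp.mem_support_iff.2 hs)
  · intro h
    exact (Finsupp.mem_supported _ _).2 fun s hs => h s (Finsupp.mem_support_iff.1 hs)

theorem mapDomain_smul_apply {A : Type} [MulAction Γ A] (g : Γ) (x : A →₀ ZMod 2) (a : A) :
    x.mapDomain (g • ·) a = x (g⁻¹ • a) := by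
  have h := Finsupp.mapDomain_apply (MulAction.injective g) x (g⁻¹ • a)
  rwa [smul_inv_smul] at h

theorem MX_smul (hX : SCx Γ X ∅) {i : ℕ} (g : Γ) {x : Finset V →₀ ZMod 2} (hx : x ∈ MX X i) :
    x.mapDomain (g • ·) ∈ MX X i := by
  rw [mem_MX] at hx ⊢
  intro s hs
  rw [mapDomain_smul_apply] at hs
  obtain ⟨h1, h2⟩ := hx _ hs
  refine ⟨?_, by rw [Finset.card_smul_finset] at h2; exact h2⟩
  have h3 := hX.K_mem g _ h1
  rwa [smul_inv_smul] at h3

/-- `X` is acyclic -/
theorem MX_exact (hac : Acyc X) {k : ℕ} {x : Finset V →₀ ZMod 2} (hx : ∀ s, x s ≠ 0 → (s ∈ X ∨ s = ∅) ∧ s.card = k)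
    (h0 : bdS x = 0) : ∃ y ∈ MX X k, bdS y = x := by
  obtain ⟨y, hy, hyx⟩ := hac x (fun s hs => (hx s hs).1) h0
  refine ⟨y.filter fun t => t.card = k + 1, mem_MX.2 fun s hs => ?_, ?_⟩
  · rw [Finsupp.filter_apply] at hs
    split_ifs at hs with h
    · exact ⟨hy s hs, h⟩
    · exact absurd rfl hs
  · rw [bdS_part, hyx]
    ext s
    rw [Finsupp.filter_apply]
    split_ifs with h
    · rfl
    · by_contra h1
      exact h (hx s (Ne.symm h1)).2

/-- the action on the chains -/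
noncomputable def rhoX (Γ V : Type) [Group Γ] [DecidableEq V] [MulAction Γ V] :
    Γ →* ((Finset V →₀ ZMod 2) →ₗ[ZMod 2] (Finset V →₀ ZMod 2)) :=
  rhoM Γ (Finset V) (fun g e => g • e) (funext fun e => one_smul Γ e) (fun g h => funext fun e => mul_smul g h e)

theorem rhoX_apply (g : Γ) (x : Finset V →₀ ZMod 2) : rhoX Γ V g x = x.mapDomain (g • ·) := rfl

end Chains

section Cochains

variable {Γ U : Type} [Group Γ] [DecidableEq U] [MulAction Γ U] {K B mu : Set (Finset U)} {n d : ℕ}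

/-- the simplices of `K` which are not in `B`, with `n + 1 - i` vertices -/
def cK (K B : Set (Finset U)) (n i : ℕ) : Set (Finset U) := {t | t ∈ K ∧ t ∉ B ∧ t.card + i = n + 1}

theorem cofs_cK (hD : Dual K B mu n d) {i : ℕ} {t t' : Finset U} (ht : t ∈ cK K B n (i + 1))
    (h : t' ∈ cofs K t (t.card + 1)) : t' ∈ cK K B n i := by
  obtain ⟨h1, h2, h3⟩ := (mem_cofsD hD ht.1).1 h
  exact ⟨h1, fun h4 => ht.2.1 (hD.bd_down t' h4 t h2 (hD.ne t ht.1)), by have := ht.2.2; omega⟩

theorem coF_single (t : Finset U) : coF K (Finsupp.single t 1) = ∑ t' ∈ cofs K t (t.card + 1), Finsupp.single t' 1 :=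
  lin_single _ _

/-- the square of the coboundary -/
theorem coF_coF (hD : Dual K B mu n d) {f : Finset U →₀ ZMod 2} (hf : ∀ t, f t ≠ 0 → t ∈ K) : coF K (coF K f) = 0 := by
  classical
  have h1 : ∀ t, coF K f t ≠ 0 → t ∈ K := by
    intro t ht
    rw [coF_apply hD hf] at ht
    by_contra h
    exact ht (if_neg h)
  ext t
  rw [coF_apply hD h1]
  split_ifs with ht
  · have h2 : ∀ v ∈ t, coF K f (t.erase v) = ∑ w ∈ t.erase v, f ((t.erase v).erase w) := by
      intro v _
      rw [coF_apply hD hf]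
      split_ifs with h3
      · rfl
      · have h4 : t.erase v = ∅ := by
          by_contra h5
          exact h3 (hD.down t ht _ (erase_subset _ _) (nonempty_iff_ne_empty.2 h5))
        rw [h4, sum_empty]
    rw [sum_congr rfl h2]
    exact sum_sum_erase (fun t => f t) t
  · rfl

/-- the coboundary in the degrees less than `n` -/
noncomputable def bK (K : Set (Finset U)) (n : ℕ) (t : Finset U) : Finset U →₀ ZMod 2 :=
  if t.card ≤ n then ∑ t' ∈ cofs K t (t.card + 1), Finsupp.single t' 1 else 0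

theorem bK_of {t : Finset U} (h : t.card ≤ n) : bK K n t = coF K (Finsupp.single t 1) := by
  rw [coF_single]
  exact if_pos h

theorem bK_zero {t : Finset U} (h : n < t.card) : bK K n t = 0 := if_neg (by omega)

theorem mem_bK (hD : Dual K B mu n d) {i : ℕ} {a : Finset U} (ha : a ∈ cK K B n (i + 1)) {b : Finset U}
    (hb : bK K n a b ≠ 0) : b ∈ cK K B n i := by
  rw [bK, if_pos (by have := ha.2.2; omega), Finsupp.finsetSum_apply] at hb
  obtain ⟨t', h1, h2⟩ := exists_ne_zero_of_sum_ne_zero hb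
  have h3 : b = t' := by
    by_contra h5
    exact h2 (Finsupp.single_eq_of_ne h5)
  rw [h3]
  exact cofs_cK hD ha h1

theorem bK_bK (hD : Dual K B mu n d) {i : ℕ} {a : Finset U} (ha : a ∈ cK K B n i) : lin (bK K n) (bK K n a) = 0 := by
  rcases i with _ | _ | i
  · rw [bK_zero (by have := ha.2.2; omega), map_zero]
  · have h1 : ∀ b, bK K n a b ≠ 0 → bK K n b = (fun _ => 0) b := by
      intro b hb
      have h2 := mem_bK hD ha hb
      exact bK_zero (by have := h2.2.2; omega)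
    rw [lin_congr (f' := bK K n) (f := fun _ => 0) h1]
    unfold lin
    simp [Finsupp.linearCombination_apply]
  · have h1 : ∀ b, bK K n a b ≠ 0 → bK K n b = (fun b => ∑ t' ∈ cofs K b (b.card + 1), Finsupp.single t' 1) b := by
      intro b hb
      have h2 := mem_bK hD ha hb
      exact if_pos (by have := h2.2.2; omega)
    rw [lin_congr (f' := bK K n) h1]
    rw [bK_of (by have := ha.2.2; omega)]
    refine coF_coF hD fun t ht => ?_
    have h3 : t = a := by
      by_contra h5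
      exact ht (Finsupp.single_eq_of_ne h5)
    rw [h3]
    exact ha.1

theorem cofs_smul_sum (hA : SAct Γ K B) (g : Γ) (t : Finset U) :
    ∑ t' ∈ cofs K (g • t) ((g • t).card + 1), Finsupp.single t' (1 : ZMod 2) =
      (∑ t' ∈ cofs K t (t.card + 1), Finsupp.single t' (1 : ZMod 2)).mapDomain (g • ·) := by
  rw [Finset.card_smul_finset, cofs_smul hA, Finset.sum_map, Finsupp.mapDomain_finsetSum]
  refine sum_congr rfl fun t _ => ?_
  rw [Finsupp.mapDomain_single]
  rfl

theorem coF_smulS (hA : SAct Γ K B) (g : Γ) (f : Finset U →₀ ZMod 2) :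
    coF K (f.mapDomain (g • ·)) = (coF K f).mapDomain (g • ·) := by
  unfold coF
  rw [lin_mapDomain, mapDomain_lin]
  exact lin_congr fun t _ => cofs_smul_sum hA g t

theorem bK_smul (hA : SAct Γ K B) (g : Γ) (t : Finset U) : bK K n (g • t) = (bK K n t).mapDomain (g • ·) := by
  have h1 := cofs_smul_sum hA g t
  unfold bK
  rw [h1, Finset.card_smul_finset]
  split_ifs
  · rfl
  · rw [Finsupp.mapDomain_zero]

open Classical in
/-- the evaluation at `mu` -/
noncomputable def ev (mu : Set (Finset U)) : (Finset U →₀ ZMod 2) →ₗ[ZMod 2] ZMod 2 :=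
  lin fun t => if t ∈ mu then 1 else 0

theorem ev_eq (f : Finset U →₀ ZMod 2) : ev mu f = ∑ᶠ t ∈ mu, f t := by
  classical
  have h1 : ev mu f = ∑ t ∈ f.support, if t ∈ mu then f t else 0 := by
    unfold ev lin
    rw [Finsupp.linearCombination_apply, Finsupp.sum]
    refine sum_congr rfl fun t _ => ?_
    rw [smul_eq_mul, mul_ite, mul_one, mul_zero]
  rw [h1, ← sum_filter]
  symm
  refine finsum_mem_eq_sum_of_inter_support_eq _ ?_
  ext t
  simp only [Set.mem_inter_iff, Function.mem_support, Finset.mem_coe, mem_filter, Finsupp.mem_support_iff]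
  tauto

theorem ev_smul (hmu : ∀ (g : Γ) (s : Finset U), s ∈ mu → g • s ∈ mu) (g : Γ) (f : Finset U →₀ ZMod 2) :
    ev mu (f.mapDomain (g • ·)) = ev mu f := by
  classical
  unfold ev
  rw [lin_mapDomain]
  refine lin_congr fun t _ => ?_
  have h1 : g • t ∈ mu ↔ t ∈ mu := by
    refine ⟨fun h => ?_, hmu g t⟩
    have h2 := hmu g⁻¹ _ h
    rwa [inv_smul_smul] at h2
  simp only [h1]

/-- cochains of too small degree have evaluation zero -/
theorem ev_zero (hD : Dual K B mu n d) {f : Finset U →₀ ZMod 2} (hf : ∀ t, f t ≠ 0 → t.card ≤ n) : ev mu f = 0 := by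
  classical
  unfold ev
  have h1 : ∀ c, f c ≠ 0 → (if c ∈ mu then (1 : ZMod 2) else 0) = (fun _ => 0) c := by
    intro c hc
    refine if_neg fun h => ?_
    have h2 := (hD.mu_sub c h).2.2
    have h3 := hf c hc
    omega
  rw [lin_congr (f' := fun t => if t ∈ mu then (1 : ZMod 2) else 0) (f := fun _ => 0) h1]
  unfold lin
  simp [Finsupp.linearCombination_apply]

end Cochains

end Pool.Agent.S11

end

section

/-!
# Project S11, block END: the chain maps `F`, `G` for a duality pair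

`exists_F`: from `Dual.low`, `Dual.top`, `Dual.ex`; `exists_G`: the augmentation of the cochains of `K` is the evaluation
at `mu`.
-/

set_option autoImplicit false
set_option linter.unusedSectionVars false

open Finset Pointwise

namespace Pool.Agent.S11

open Pool.Agent.H37.TM Pool.Agent.S10

section

variable {Γ V U : Type} [Group Γ] [DecidableEq V] [MulAction Γ V] [DecidableEq U] [MulAction Γ U]
  {X : Set (Finset V)} {K B mu : Set (Finset U)} {n : ℕ}

/-- the target of `F` -/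
noncomputable def NF (K B : Set (Finset U)) (n : ℕ) : ℕ → Submodule (ZMod 2) ((Finset U →₀ ZMod 2) × ZMod 2)
  | 0 => (⊥ : Submodule (ZMod 2) (Finset U →₀ ZMod 2)).prod ⊤
  | i + 1 => (Finsupp.supported (ZMod 2) (ZMod 2) (cK K B n i)).prod ⊥

/-- the boundary of the target of `F` -/
noncomputable def dF (K mu : Set (Finset U)) :
    ((Finset U →₀ ZMod 2) × ZMod 2) →ₗ[ZMod 2] ((Finset U →₀ ZMod 2) × ZMod 2) :=
  ((coF K).comp (LinearMap.fst (ZMod 2) (Finset U →₀ ZMod 2) (ZMod 2))).prod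
    ((ev mu).comp (LinearMap.fst (ZMod 2) (Finset U →₀ ZMod 2) (ZMod 2)))

theorem dF_apply (x : (Finset U →₀ ZMod 2) × ZMod 2) : dF K mu x = (coF K x.1, ev mu x.1) := rfl

/-- the action on the target of `F` -/
noncomputable def rhoF (Γ U : Type) [DecidableEq U] [Group Γ] [MulAction Γ U] :
    Γ →* (((Finset U →₀ ZMod 2) × ZMod 2) →ₗ[ZMod 2] ((Finset U →₀ ZMod 2) × ZMod 2)) where
  toFun g := (rhoX Γ U g).prodMap LinearMap.id
  map_one' := by
    rw [map_one]
    rfl
  map_mul' g h := by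
    rw [map_mul]
    rfl

theorem rhoF_apply (g : Γ) (x : (Finset U →₀ ZMod 2) × ZMod 2) :
    rhoF Γ U g x = (x.1.mapDomain (g • ·), x.2) := rfl

theorem cK_smul (hA : SAct Γ K B) {i : ℕ} (g : Γ) {t : Finset U} (ht : t ∈ cK K B n i) : g • t ∈ cK K B n i :=
  ⟨hA.K_mem g t ht.1, fun h => ht.2.1 ((smul_memB_iff hA g t).1 h), by rw [Finset.card_smul_finset]; exact ht.2.2⟩

theorem supp_smul {S : Set (Finset U)} (hS : ∀ (g : Γ), ∀ t ∈ S, g • t ∈ S) (g : Γ) {x : Finset U →₀ ZMod 2}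
    (hx : x ∈ Finsupp.supported (ZMod 2) (ZMod 2) S) : x.mapDomain (g • ·) ∈ Finsupp.supported (ZMod 2) (ZMod 2) S := by
  refine (Finsupp.mem_supported _ _).2 fun t ht => ?_
  have h1 := Finsupp.mem_support_iff.1 ht
  rw [mapDomain_smul_apply] at h1
  have h2 := hS g _ ((Finsupp.mem_supported _ _).1 hx (Finsupp.mem_support_iff.2 h1))
  rwa [smul_inv_smul] at h2

theorem NF_smul (hA : SAct Γ K B) (i : ℕ) (g : Γ) (x : (Finset U →₀ ZMod 2) × ZMod 2) (hx : x ∈ NF K B n i) :
    rhoF Γ U g x ∈ NF K B n i := by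
  cases i with
  | zero =>
    obtain ⟨h1, h2⟩ := hx
    refine ⟨?_, trivial⟩
    have h3 : x.1 = 0 := h1
    show x.1.mapDomain (g • ·) = 0
    rw [h3, Finsupp.mapDomain_zero]
  | succ i =>
    obtain ⟨h1, h2⟩ := hx
    exact ⟨supp_smul (fun g t ht => cK_smul hA g ht) g h1, h2⟩

/-- the coboundaries of cochains outside `K ∖ B` -/
theorem coF_of_isCob (hD : Dual K B mu n (n + 1)) {g f : Finset U →₀ ZMod 2} (hg : ∀ t, g t ≠ 0 → t ∈ K ∧ t ∉ B)
    (hf : ∀ t, f t ≠ 0 → t ∈ K ∧ t ∉ B) (h : IsCob K B ∅ g f) : coF K g = f := by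
  classical
  ext t
  rw [coF_apply hD fun t ht => (hg t ht).1]
  by_cases htK : t ∈ K
  · rw [if_pos htK]
    by_cases htB : t ∈ B
    · have h2 : f t = 0 := by
        by_contra h
        exact (hf t h).2 htB
      rw [h2]
      refine sum_eq_zero fun v _ => ?_
      by_contra h
      obtain ⟨h3, h4⟩ := hg _ h
      exact h4 (hD.bd_down t htB _ (erase_subset _ _) (hD.ne _ h3))
    · have h2 := h t htK htB (empty_subset t)
      rw [sdiff_empty] at h2
      exact h2
  · rw [if_neg htK]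
    by_contra h
    exact htK (hf t (Ne.symm h)).1

/-- the target of `F` is exact -/
theorem NF_exact (hD : Dual K B mu n (n + 1)) (i : ℕ) (x : (Finset U →₀ ZMod 2) × ZMod 2) (hx : x ∈ NF K B n i)
    (h0 : dF K mu x = 0) : ∃ y ∈ NF K B n (i + 1), dF K mu y = x := by
  classical
  obtain ⟨f, c⟩ := x
  have h0a : coF K f = 0 := congrArg Prod.fst h0
  have h0b : ev mu f = 0 := congrArg Prod.snd h0
  match i with
  | 0 =>
    obtain ⟨hf, -⟩ := hx
    have hf0 : f = 0 := hf
    obtain ⟨f1, hf1, hf2, hf3⟩ := hD.ex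
    have h1 : coF K f1 = 0 := by
      refine coF_of_isCob hD (fun t ht => ⟨(hf1 t ht).1, (hf1 t ht).2.1⟩) (fun t ht => absurd rfl ht) hf2
    refine ⟨c • (f1, 0), Submodule.smul_mem _ _ ⟨?_, rfl⟩, ?_⟩
    · refine (Finsupp.mem_supported _ _).2 fun t ht => ?_
      obtain ⟨h2, h3, -, h4⟩ := hf1 t (Finsupp.mem_support_iff.1 ht)
      exact ⟨h2, h3, by omega⟩
    · rw [map_smul, dF_apply]
      show c • ((coF K f1, ev mu f1) : _ × _) = (f, c)
      rw [h1, ev_eq, hf3, hf0, Prod.smul_mk, smul_zero, smul_eq_mul, mul_one]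
  | m + 1 =>
    obtain ⟨hf, hc⟩ := hx
    have hc0 : c = 0 := hc
    have hfs : ∀ t, f t ≠ 0 → t ∈ K ∧ t ∉ B ∧ t.card + m = n + 1 := fun t ht =>
      (Finsupp.mem_supported _ _).1 hf (Finsupp.mem_support_iff.2 ht)
    have key : ∃ g : Finset U →₀ ZMod 2, (∀ t, g t ≠ 0 → t ∈ K ∧ t ∉ B ∧ t.card + (m + 1) = n + 1) ∧ coF K g = f := by
      rcases Nat.lt_or_ge n m with h | h
      · refine ⟨0, fun t ht => absurd rfl ht, ?_⟩
        rw [map_zero]
        ext t
        by_contra h1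
        obtain ⟨h2, h3, h4⟩ := hfs t (Ne.symm h1)
        have := card_pos.2 (hD.ne t h2)
        omega
      · refine exists_cob hD (by omega) hfs h0a fun hm => ?_
        rw [← h0b, ev_eq]
    obtain ⟨g, hg, hgf⟩ := key
    refine ⟨(g, 0), ⟨(Finsupp.mem_supported _ _).2 fun t ht => hg t (Finsupp.mem_support_iff.1 ht), rfl⟩, ?_⟩
    rw [dF_apply]
    show ((coF K g, ev mu g) : _ × _) = (f, c)
    rw [hgf, hc0, ev_zero hD fun t ht => by have := (hg t ht).2.2; omega]

/-- **the chain map `F`** -/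
theorem exists_F (hX : SCx Γ X ∅) (hD : Dual K B mu n (n + 1)) (hA : SAct Γ K B)
    (hmu : ∀ (g : Γ) (s : Finset U), s ∈ mu → g • s ∈ mu) :
    ∃ F : Finset V → (Finset U →₀ ZMod 2), (∀ (g : Γ), ∀ s ∈ X, F (g • s) = (F s).mapDomain (g • ·)) ∧
      (∀ s ∈ X, ∀ t, F s t ≠ 0 → t ∈ K ∧ t ∉ B ∧ t.card + s.card = n + 2) ∧ F ∅ = 0 ∧
      (∀ s ∈ X, coF K (F s) = lin F (bX s)) ∧ ∀ s ∈ X, s.card = 1 → ev mu (F s) = 1 := by
  classical
  obtain ⟨H, h1, h2, h3⟩ := liftX hX (rhoF Γ U) (dF K mu)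
    (fun g x => by
      rw [dF_apply, rhoF_apply, rhoF_apply, dF_apply]
      exact Prod.ext (coF_smulS hA g x.1) (ev_smul hmu g x.1))
    (NF K B n) (NF_smul hA) (NF_exact hD) (fun s => if s.card = 1 then (0, 1) else 0)
    (fun i a ha => by
      rcases i with _ | i
      · rw [if_pos ha.2]
        exact ⟨rfl, trivial⟩
      · rw [if_neg (by have := ha.2; omega)]
        exact Submodule.zero_mem _)
    (fun i g a ha => by
      rw [Finset.card_smul_finset]
      split_ifs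
      · rw [rhoF_apply]
        refine Prod.ext ?_ rfl
        show (0 : Finset U →₀ ZMod 2) = (0 : Finset U →₀ ZMod 2).mapDomain (g • ·)
        rw [Finsupp.mapDomain_zero]
      · rw [map_zero])
    (fun i a ha => by
      have h4 : dF K mu (if a.card = 1 then ((0 : Finset U →₀ ZMod 2), (1 : ZMod 2)) else 0) = 0 := by
        split_ifs
        · rw [dF_apply]
          exact Prod.ext (map_zero _) (map_zero _)
        · exact map_zero _
      rw [h4, lin_bX _ (if_neg (by simp))]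
      symm
      by_cases h5 : a.card = 2
      · have h6 : ∀ v ∈ a, (if (a.erase v).card = 1 then ((0 : Finset U →₀ ZMod 2), (1 : ZMod 2)) else 0) =
            ((0 : Finset U →₀ ZMod 2), (1 : ZMod 2)) := fun v hv => if_pos (by rw [card_erase_of_mem hv]; omega)
        rw [sum_congr rfl h6, sum_const, h5, two_nsmul]
        exact add_self_mod _
      · exact sum_eq_zero fun v hv => if_neg (by rw [card_erase_of_mem hv]; omega))
  have hF : ∀ s : Finset V, s.Nonempty → (fun s => if s = ∅ then (0 : Finset U →₀ ZMod 2) else (H s).1) s = (H s).1 :=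
    fun s hs => if_neg hs.ne_empty
  have hc : ∀ s ∈ X, s ∈ cX X (s.card - 1) := fun s hs => ⟨hs, by have := card_pos.2 (hX.ne s hs); omega⟩
  refine ⟨fun s => if s = ∅ then 0 else (H s).1, fun g s hs => ?_, fun s hs t ht => ?_, if_pos rfl, fun s hs => ?_,
    fun s hs h4 => ?_⟩
  · rw [hF s (hX.ne s hs), hF _ (hX.ne _ (hX.K_mem g s hs)), h2 _ g s (hc s hs), rhoF_apply]
  · rw [hF s (hX.ne s hs)] at ht
    obtain ⟨h4, -⟩ := h1 _ s (hc s hs)
    obtain ⟨h5, h6, h7⟩ := (Finsupp.mem_supported _ _).1 h4 (Finsupp.mem_support_iff.2 ht)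
    have := card_pos.2 (hX.ne s hs)
    exact ⟨h5, h6, by omega⟩
  · have h4 := congrArg Prod.fst (h3 _ s (hc s hs))
    rw [Prod.fst_add] at h4
    have h5 : (lin H (bX s)).1 = lin (fun s => (H s).1) (bX s) :=
      map_lin (LinearMap.fst (ZMod 2) (Finset U →₀ ZMod 2) (ZMod 2))
    have h6 : (if s.card = 1 then ((0 : Finset U →₀ ZMod 2), (1 : ZMod 2)) else 0).1 = 0 := by split_ifs <;> rfl
    rw [h5, h6, zero_add] at h4
    rw [hF s (hX.ne s hs), lin_bX_congr hF]
    exact h4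
  · have h5 := congrArg Prod.snd (h3 _ s (hc s hs))
    rw [Prod.snd_add, if_pos h4, bX_zero (by omega), map_zero] at h5
    rw [hF s (hX.ne s hs)]
    exact h5.trans (add_zero _)

/-- **the chain map `G`** -/
theorem exists_G (hX : SCx Γ X ∅) (hac : Acyc X) (hA : SAct Γ K B) (hD : Dual K B mu n (n + 1))
    (hmu : ∀ (g : Γ) (s : Finset U), s ∈ mu → g • s ∈ mu) :
    ∃ G : Finset U → (Finset V →₀ ZMod 2), (∀ (g : Γ), ∀ t ∈ K, t ∉ B → G (g • t) = (G t).mapDomain (g • ·)) ∧
      (∀ t ∈ K, t ∉ B → ∀ s, G t s ≠ 0 → s ∈ X ∧ s.card + t.card = n + 2) ∧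
      (∀ t ∈ K, t ∉ B → t.card ≤ n → bdS (G t) = lin G (bK K n t)) ∧
      (∀ t ∈ K, t ∉ B → t.card = n + 1 → bdS (G t) = open Classical in if t ∈ mu then Finsupp.single ∅ 1 else 0) ∧
      ∀ t, n + 1 < t.card → G t = 0 := by
  classical
  have hmu' : ∀ (g : Γ) (t : Finset U), g • t ∈ mu ↔ t ∈ mu := by
    intro g t
    refine ⟨fun h => ?_, hmu g t⟩
    have h2 := hmu g⁻¹ _ h
    rwa [inv_smul_smul] at h2
  let F0 : Finset U → (Finset V →₀ ZMod 2) := fun t => if t ∈ mu then Finsupp.single ∅ 1 else 0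
  have hF0 : ∀ t, t.card ≤ n → F0 t = 0 := fun t ht => if_neg fun h => by
    have := (hD.mu_sub t h).2.2
    omega
  let M : ℕ → Submodule (ZMod 2) (Finset V →₀ ZMod 2) := fun i =>
    if i = 0 then Finsupp.supported (ZMod 2) (ZMod 2) {∅} else MX X (i - 1)
  have hM0 : M 0 = Finsupp.supported (ZMod 2) (ZMod 2) {∅} := if_pos rfl
  have hM1 : ∀ i, M (i + 1) = MX X i := fun i => if_neg (Nat.succ_ne_zero i)
  obtain ⟨H, h1, h2, h3⟩ := lift_free (Γ := Γ) (A := Finset U) (N := Finset V →₀ ZMod 2) (cK K B n)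
    (fun i g a ha => cK_smul hA g ha) (fun i j a hi hj => by have := hi.2.2; have := hj.2.2; omega)
    (fun i a ha g h => hA.free g a ha.1 h) (bK K n) (fun i a ha b hb => mem_bK hD ha hb)
    (fun a ha => bK_zero (by have := ha.2.2; omega)) (fun i g a _ => bK_smul hA g a) (fun i a ha => bK_bK hD ha)
    (rhoX Γ V) bdS (fun g x => bdS_smul g x) M
    (fun i g x hx => by
      rcases i with _ | i
      · rw [hM0] at hx ⊢
        exact supp_smul (fun g t ht => by rw [Set.mem_singleton_iff] at ht ⊢; rw [ht, Finset.smul_finset_empty]) g hx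
      · rw [hM1] at hx ⊢
        exact MX_smul hX g hx)
    (fun i _ x hx h0 => by
      rcases i with _ | i
      · rw [hM0] at hx
        obtain ⟨y, hy, hyx⟩ := MX_exact hac (k := 0) (x := x) (fun s hs => by
          have h4 : s = ∅ := (Finsupp.mem_supported _ _).1 hx (Finsupp.mem_support_iff.2 hs)
          exact ⟨Or.inr h4, by rw [h4, card_empty]⟩) h0
        exact ⟨y, by rw [hM1]; exact hy, hyx⟩
      · rw [hM1, mem_MX] at hx
        obtain ⟨y, hy, hyx⟩ := MX_exact hac (k := i + 1) (x := x) (fun s hs =>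
          ⟨Or.inl (hx s hs).1, (hx s hs).2⟩) h0
        exact ⟨y, by rw [hM1]; exact hy, hyx⟩)
    F0
    (fun i a ha => by
      rcases i with _ | i
      · rw [hM0]
        show (if a ∈ mu then Finsupp.single ∅ 1 else 0) ∈ _
        split_ifs
        · exact Finsupp.single_mem_supported _ _ rfl
        · exact Submodule.zero_mem _
      · rw [hF0 a (by have := ha.2.2; omega)]
        exact Submodule.zero_mem _)
    (fun i g a ha => by
      show (if g • a ∈ mu then Finsupp.single ∅ 1 else 0) = rhoX Γ V g (if a ∈ mu then Finsupp.single ∅ 1 else 0)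
      simp only [hmu']
      split_ifs
      · rw [rhoX_apply, Finsupp.mapDomain_single, Finset.smul_finset_empty]
      · rw [map_zero])
    (fun i a ha => by
      have h4 : bdS (F0 a) = 0 := by
        show bdS (if a ∈ mu then Finsupp.single ∅ 1 else 0) = 0
        split_ifs
        · rw [bdS_sgl, sum_empty]
        · exact map_zero _
      rw [h4]
      symm
      rcases i with _ | _ | i
      · rw [bK_zero (by have := ha.2.2; omega), map_zero]
      · have hc : a.card = n := by have := ha.2.2; omega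
        rw [bK_of (by omega), coF_single, map_sum]
        have h5 : ∀ t' ∈ cofs K a (a.card + 1), lin F0 (Finsupp.single t' 1) = if t' ∈ mu then Finsupp.single ∅ 1 else 0 :=
          fun t' _ => lin_single _ _
        rw [sum_congr rfl h5, ← sum_filter, sum_const]
        have h6 : Even ((cofs K a (a.card + 1)).filter fun t' => t' ∈ mu).card := by
          have h7 := hD.even a ha.1 ha.2.1 hc
          have h8 : {t | t ∈ mu ∧ a ⊆ t} = (((cofs K a (a.card + 1)).filter fun t' => t' ∈ mu : Finset (Finset U)) :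
              Set (Finset U)) := by
            ext t
            simp only [Set.mem_ofPred_eq, Finset.coe_filter, mem_cofsD hD ha.1]
            constructor
            · rintro ⟨h9, h10⟩
              exact ⟨⟨(hD.mu_sub t h9).1, h10, by rw [(hD.mu_sub t h9).2.2, hc]⟩, h9⟩
            · rintro ⟨⟨-, h10, -⟩, h9⟩
              exact ⟨h9, h10⟩
          rwa [h8, Set.ncard_coe_finset] at h7
        obtain ⟨k, hk⟩ := h6
        rw [hk, add_nsmul]
        exact add_self_mod _
      · have h5 : ∀ c, bK K n a c ≠ 0 → F0 c = (fun _ => 0) c := fun c hc =>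
          hF0 c (by have := (mem_bK hD ha hc).2.2; omega)
        rw [lin_congr (f' := F0) (f := fun _ => 0) h5]
        unfold lin
        simp [Finsupp.linearCombination_apply])
  have hc : ∀ t ∈ K, t ∉ B → t.card ≤ n + 1 → t ∈ cK K B n (n + 1 - t.card) := fun t ht ht' h => ⟨ht, ht', by omega⟩
  have hG : ∀ t : Finset U, t.card ≤ n + 1 → (fun t => if t.card ≤ n + 1 then H t else 0) t = H t := fun t ht => if_pos ht
  have hG' : ∀ t : Finset U, n + 1 < t.card → (fun t => if t.card ≤ n + 1 then H t else 0) t = 0 := fun t ht =>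
    if_neg (by omega)
  refine ⟨fun t => if t.card ≤ n + 1 then H t else 0, fun g t ht ht' => ?_, fun t ht ht' s hs => ?_,
    fun t ht ht' hcd => ?_, fun t ht ht' hcd => ?_, hG'⟩
  · rcases Nat.lt_or_ge (n + 1) t.card with h | h
    · rw [hG' t h, hG' (g • t) (by rw [Finset.card_smul_finset]; exact h), Finsupp.mapDomain_zero]
    · rw [hG t h, hG (g • t) (by rw [Finset.card_smul_finset]; exact h), h2 _ g t (hc t ht ht' h), rhoX_apply]
  · rcases Nat.lt_or_ge (n + 1) t.card with h | h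
    · rw [hG' t h] at hs
      exact absurd rfl hs
    · rw [hG t h] at hs
      have h4 := h1 _ t (hc t ht ht' h)
      rw [hM1, mem_MX] at h4
      obtain ⟨h5, h6⟩ := h4 s hs
      exact ⟨h5, by omega⟩
  · rw [hG t (by omega), h3 _ t (hc t ht ht' (by omega)), hF0 t hcd, zero_add]
    refine lin_congr fun c hcc => ?_
    have h4 := mem_bK (i := n - t.card) hD (a := t) ⟨ht, ht', by omega⟩ hcc
    exact (hG c (by have := h4.2.2; omega)).symm
  · rw [hG t (by omega), h3 _ t (hc t ht ht' (by omega)), bK_zero (by omega), map_zero, add_zero]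

end

end Pool.Agent.S11

end

section

/-!
# Project S11, block END: the homotopy from `G F` to the identity, assembly
-/

set_option autoImplicit false
set_option linter.unusedSectionVars false

open Finset Pointwise

namespace Pool.Agent.S11

open Pool.Agent.H37.TM Pool.Agent.S10

section

variable {Γ V U : Type} [Group Γ] [DecidableEq V] [MulAction Γ V] [DecidableEq U] [MulAction Γ U]
  {X : Set (Finset V)} {K B mu : Set (Finset U)} {n : ℕ}

theorem lin_eq_zero {A N : Type} [AddCommGroup N] [Module (ZMod 2) N] {f : A → N} {x : A →₀ ZMod 2}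
    (h : ∀ c, x c ≠ 0 → f c = 0) : lin f x = 0 := by
  unfold lin
  rw [Finsupp.linearCombination_apply, Finsupp.sum]
  refine sum_eq_zero fun c hc => ?_
  rw [h c (Finsupp.mem_support_iff.1 hc), smul_zero]

theorem lin_id {A : Type} (x : A →₀ ZMod 2) : lin (fun c => Finsupp.single c (1 : ZMod 2)) x = x := by
  unfold lin
  rw [Finsupp.linearCombination_apply]
  simp only [Finsupp.smul_single, smul_eq_mul, mul_one]
  exact Finsupp.sum_single x

/-- the image of a boundary -/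
theorem bd_linG {G : Finset U → (Finset V →₀ ZMod 2)}
    (hG : ∀ t ∈ K, t ∉ B → t.card ≤ n → bdS (G t) = lin G (bK K n t)) {f : Finset U →₀ ZMod 2}
    (hf : ∀ t, f t ≠ 0 → t ∈ K ∧ t ∉ B ∧ t.card ≤ n) : bdS (lin G f) = lin G (coF K f) := by
  rw [map_lin, lin_congr (f' := fun t => bdS (G t)) (f := fun t => lin G (bK K n t))
    (fun t ht => hG t (hf t ht).1 (hf t ht).2.1 (hf t ht).2.2), lin_lin]
  congr 1
  unfold coF
  refine lin_congr fun t ht => ?_
  exact if_pos (hf t ht).2.2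

/-- **chain maps and a homotopy for a duality pair** -/
theorem exists_chmapsD (hX : SCx Γ X ∅) (hac : Acyc X) (hA : SAct Γ K B) (hD : Dual K B mu n (n + 1))
    (hmu : ∀ (g : Γ) (s : Finset U), s ∈ mu → g • s ∈ mu) : ∃ F G h, ChMaps Γ X K B n F G h := by
  classical
  obtain ⟨F, hF1, hF2, hF3, hF4, hF5⟩ := exists_F hX hD hA hmu
  obtain ⟨G, hG1, hG2, hG3, hG4, hG5⟩ := exists_G hX hac hA hD hmu
  have hpos : ∀ s ∈ X, 0 < s.card := fun s hs => card_pos.2 (hX.ne s hs)
  obtain ⟨H, h1, h2, h3⟩ := liftX hX (rhoX Γ V) bdS (fun g x => bdS_smul g x) (MX X)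
    (fun i g x hx => MX_smul hX g hx)
    (fun i x hx h0 => by
      rw [mem_MX] at hx
      exact MX_exact hac (k := i + 1) (x := x) (fun s hs => ⟨Or.inl (hx s hs).1, (hx s hs).2⟩) h0)
    (fun s => lin G (F s) + Finsupp.single s 1)
    (fun i a ha => by
      refine Submodule.add_mem _ (lin_mem fun t ht => ?_) (Finsupp.single_mem_supported _ _ ha)
      obtain ⟨h4, h5, h6⟩ := hF2 a ha.1 t ht
      refine mem_MX.2 fun s hs => ?_
      obtain ⟨h7, h8⟩ := hG2 t h4 h5 s hs
      exact ⟨h7, by have := ha.2; omega⟩)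
    (fun i g a ha => by
      rw [map_add, rhoX_apply, rhoX_apply, Finsupp.mapDomain_single, hF1 g a ha.1]
      congr 1
      exact lin_smul (rhoX Γ V) g fun t ht => by
        obtain ⟨h4, h5, -⟩ := hF2 a ha.1 t ht
        exact hG1 g t h4 h5)
    (fun i a ha => by
      rw [map_add]
      rcases i with _ | i
      · -- vertices
        have h4 : bdS (lin G (F a)) = Finsupp.single ∅ 1 := by
          rw [map_lin, lin_congr (f' := fun t => bdS (G t))
            (f := fun t => (LinearMap.toSpanSingleton (ZMod 2) (Finset V →₀ ZMod 2) (Finsupp.single ∅ 1))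
              (if t ∈ mu then (1 : ZMod 2) else 0)) (fun t ht => by
                obtain ⟨h4, h5, h6⟩ := hF2 a ha.1 t ht
                show bdS (G t) = _
                rw [hG4 t h4 h5 (by have := ha.2; omega), LinearMap.toSpanSingleton_apply]
                split_ifs
                · rw [one_smul]
                · rw [zero_smul])]
          rw [← map_lin (LinearMap.toSpanSingleton (ZMod 2) (Finset V →₀ ZMod 2) (Finsupp.single ∅ 1))
            (f := fun t => if t ∈ mu then (1 : ZMod 2) else 0)]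
          have h5 : lin (fun t => if t ∈ mu then (1 : ZMod 2) else 0) (F a) = 1 := hF5 a ha.1 ha.2
          rw [h5, LinearMap.toSpanSingleton_apply, one_smul]
        have h5 : bdS (Finsupp.single a (1 : ZMod 2)) = Finsupp.single ∅ 1 := by
          obtain ⟨v, hv⟩ := card_eq_one.1 ha.2
          rw [bdS_sgl, hv, sum_singleton, erase_singleton]
        rw [h4, h5, bX_zero (by rw [ha.2]), map_zero]
        exact add_self_mod _
      · have hc : 2 ≤ a.card := by have := ha.2; omega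
        rw [bd_linG hG3 (fun t ht => by
          obtain ⟨h4, h5, h6⟩ := hF2 a ha.1 t ht
          exact ⟨h4, h5, by omega⟩), hF4 a ha.1, ← bX_bdS hc, lin_add, lin_lin, lin_id])
  have hc : ∀ s ∈ X, s ∈ cX X (s.card - 1) := fun s hs => ⟨hs, by have := hpos s hs; omega⟩
  obtain ⟨H', hH0, hH⟩ : ∃ H' : Finset V → (Finset V →₀ ZMod 2), H' ∅ = 0 ∧ ∀ s, s.Nonempty → H' s = H s :=
    ⟨fun s => if s = ∅ then 0 else H s, if_pos rfl, fun s hs => if_neg hs.ne_empty⟩
  refine ⟨F, G, H', hF1, hG1, fun g s hs => ?_, hF2, hG2, fun s hs r hr => ?_, hF3,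
    hH0, fun s hs t ht ht' => ?_, fun q f f' hf hf' hff s' hs' => ?_, fun s hs s' _ => ?_⟩
  · rw [hH s (hX.ne s hs), hH _ (hX.ne _ (hX.K_mem g s hs)), h2 _ g s (hc s hs), rhoX_apply]
  · rw [hH s (hX.ne s hs)] at hr
    obtain ⟨h4, h5⟩ := mem_MX.1 (h1 _ s (hc s hs)) r hr
    exact ⟨h4, by have := hpos s hs; omega⟩
  · have h4 := DFunLike.congr_fun (hF4 s hs) t
    rw [coF_apply hD (fun t h => (hF2 s hs t h).1), if_pos ht, lin_bX F hF3, Finsupp.finsetSum_apply] at h4
    exact h4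
  · have hcf : coF K f = f' := coF_of_isCob hD (fun t ht => ⟨(hf t ht).1, (hf t ht).2.1⟩)
      (fun t ht => ⟨(hf' t ht).1, (hf' t ht).2.1⟩) hff
    show bdS (lin G f) s' = lin G f' s'
    rcases Nat.lt_or_ge n q with h | h
    · have h4 : lin G f' = 0 := lin_eq_zero fun t ht => hG5 t (by have := (hf' t ht).2.2.2; omega)
      rw [h4, map_lin]
      by_contra hne
      have h5 : lin (fun t => bdS (G t)) f ∈ Finsupp.supported (ZMod 2) (ZMod 2) ({∅} : Set (Finset V)) := by
        refine lin_mem fun t ht => ?_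
        obtain ⟨h6, h7, -, h8⟩ := hf t ht
        rcases Nat.lt_or_ge (n + 1) q with h9 | h9
        · rw [hG5 t (by omega), map_zero]
          exact Submodule.zero_mem _
        · rw [hG4 t h6 h7 (by omega)]
          split_ifs
          · exact Finsupp.single_mem_supported _ _ rfl
          · exact Submodule.zero_mem _
      have h6 : s' = ∅ := (Finsupp.mem_supported _ _).1 h5 (Finsupp.mem_support_iff.2 hne)
      exact hs'.ne_empty h6
    · rw [bd_linG hG3 (fun t ht => ⟨(hf t ht).1, (hf t ht).2.1, by have := (hf t ht).2.2.2; omega⟩), hcf]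
  · have h4 := h3 _ s (hc s hs)
    have h5 : lin G (F s) + Finsupp.single s 1 = bdS (H s) + lin H (bX s) := by
      rw [h4, add_assoc, add_self_mod, add_zero]
    have h6 := DFunLike.congr_fun h5 s'
    rw [← lin_bX_congr hH s, lin_bX H' hH0, Finsupp.add_apply, Finsupp.add_apply, Finsupp.finsetSum_apply,
      ← hH s (hX.ne s hs)] at h6
    exact h6

/-- **chain maps and a homotopy** -/
theorem exists_chmaps (hX : SCx Γ X ∅) (hac : Acyc X) (hK : SCx Γ K B) (hM : ManOrDual Γ K B n (n + 1))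
    (_hA : Pool.Agent.H65.RM.PAct Γ K B) : ∃ F G h, ChMaps Γ X K B n F G h := by
  have hA : SAct Γ K B := ⟨hK.K_mem, hK.B_mem, hK.free⟩
  rcases hM with ⟨h1, h2⟩ | ⟨mu, h1, h2⟩
  · refine exists_chmapsD hX hac hA (dual_of_mfd h1 h2) ?_
    rintro g s ⟨h3, h4, h5⟩
    exact ⟨hA.K_mem g s h3, fun h => h4 ((smul_memB_iff hA g s).1 h), by rw [Finset.card_smul_finset]; exact h5⟩
  · exact exists_chmapsD hX hac hA h1 h2

end

end Pool.Agent.S11

end

section

/-!
# Project S14: recomposition from the values of the pairing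

`SS` = the finite sums of elements `c * u h`, `c ∈ DN`.  `TS` = the span of the pure tensors with entries in `SS`.
For `m ∈ TS` one has `m = ∑ γ, Rm (u γ⁻¹) (P (Rm (u γ) m))` (`γ` runs over representatives of finitely many cosets).
-/

set_option autoImplicit false
set_option linter.unusedSectionVars false

open TensorProduct

namespace Pool.Agent.S14

open Pool.Agent.S11.FL

section

variable {H D : Type} [Group H] [DivisionRing D] [Algebra (ZMod 2) D] {ι : MonoidAlgebra (ZMod 2) H →+* D}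
  {σ : Inv ι} {N : Subgroup H} [N.Normal] (L : Lvl ι σ N) {X : Type} [AddCommGroup X] [Module (ZMod 2) X]

theorem uh_mul_inv (h : H) : uh ι h * uh ι h⁻¹ = 1 := by rw [← map_mul, mul_inv_cancel, map_one]

theorem uh_inv_mul (h : H) : uh ι h⁻¹ * uh ι h = 1 := by rw [← map_mul, inv_mul_cancel, map_one]

namespace Lvl

/-- the homogeneous elements -/
def Hom : Set D := {x | ∃ c ∈ L.DN, ∃ h : H, x = c * uh ι h}

/-- the finite sums of homogeneous elements -/
def SS : AddSubgroup D := AddSubgroup.closure L.Hom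

theorem hom_mul_uh {x : D} (hx : x ∈ L.Hom) (g : H) : x * uh ι g ∈ L.Hom := by
  obtain ⟨c, hc, h, rfl⟩ := hx
  exact ⟨c, hc, h * g, by rw [map_mul, mul_assoc]⟩

/-- the other form of the homogeneous elements -/
theorem hom_right {x : D} (hx : x ∈ L.Hom) : ∃ c ∈ L.DN, ∃ h : H, x = uh ι h * c := by
  obtain ⟨c, hc, h, rfl⟩ := hx
  refine ⟨uh ι h⁻¹ * c * uh ι h, ?_, h, ?_⟩
  · have := L.conj_mem c hc h⁻¹
    rwa [inv_inv] at this
  · rw [← mul_assoc, ← mul_assoc, uh_mul_inv, one_mul]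

theorem hom_of_right {c : D} (hc : c ∈ L.DN) (h : H) : uh ι h * c ∈ L.Hom := by
  refine ⟨uh ι h * c * uh ι h⁻¹, L.conj_mem c hc h, h, ?_⟩
  rw [mul_assoc, uh_inv_mul, mul_one]

theorem hom_st {x : D} (hx : x ∈ L.Hom) : σ.st x ∈ L.Hom := by
  obtain ⟨c, hc, h, rfl⟩ := hx
  rw [σ.mul, σ.uh]
  exact L.hom_of_right (L.st_mem c hc) _

theorem SS_st {x : D} (hx : x ∈ L.SS) : σ.st x ∈ L.SS := by
  have : L.SS ≤ L.SS.comap σ.st := by
    refine (AddSubgroup.closure_le _).2 fun y hy => ?_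
    exact AddSubgroup.subset_closure (L.hom_st hy)
  exact this hx

theorem SS_mul_uh {x : D} (hx : x ∈ L.SS) (g : H) : x * uh ι g ∈ L.SS := by
  have : L.SS ≤ L.SS.comap (AddMonoidHom.mulRight (uh ι g)) := by
    refine (AddSubgroup.closure_le _).2 fun y hy => ?_
    exact AddSubgroup.subset_closure (L.hom_mul_uh hy g)
  exact this hx

variable (X) in
/-- the span of the tensors with entries in `SS` -/
noncomputable def TS : Submodule (ZMod 2) (MM (ZMod 2) D X) :=
  Submodule.span (ZMod 2) {z | ∃ a ∈ L.SS, ∃ x : X, ∃ b ∈ L.SS, z = a ⊗ₜ[ZMod 2] (x ⊗ₜ[ZMod 2] b)}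

variable (X) in
/-- the span of the tensors with homogeneous entries -/
noncomputable def TH : Submodule (ZMod 2) (MM (ZMod 2) D X) :=
  Submodule.span (ZMod 2) {z | ∃ a ∈ L.Hom, ∃ x : X, ∃ b ∈ L.Hom, z = a ⊗ₜ[ZMod 2] (x ⊗ₜ[ZMod 2] b)}

theorem TS_le_TH : L.TS X ≤ L.TH X := by
  refine Submodule.span_le.2 ?_
  rintro _ ⟨a, ha, x, b, hb, rfl⟩
  have h1 : ∀ a ∈ L.Hom, a ⊗ₜ[ZMod 2] (x ⊗ₜ[ZMod 2] b) ∈ L.TH X := by
    intro a ha
    have : L.SS ≤ (L.TH X).toAddSubgroup.comap
        ((TensorProduct.mk (ZMod 2) D (X ⊗[ZMod 2] D) a).toAddMonoidHom.comp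
          (TensorProduct.mk (ZMod 2) X D x).toAddMonoidHom) := by
      refine (AddSubgroup.closure_le _).2 fun b hb => ?_
      exact Submodule.subset_span ⟨a, ha, x, b, hb, rfl⟩
    exact this hb
  have : L.SS ≤ (L.TH X).toAddSubgroup.comap
      ((TensorProduct.mk (ZMod 2) D (X ⊗[ZMod 2] D)).flip (x ⊗ₜ[ZMod 2] b)).toAddMonoidHom := by
    refine (AddSubgroup.closure_le _).2 fun a ha => ?_
    exact h1 a ha
  exact this ha

/-- the pairing of a homogeneous tensor -/
theorem P_hom {c c' : D} (hc : c ∈ L.DN) (hc' : c' ∈ L.DN) (h k : H) (x : X) :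
    L.P X ((c * uh ι h) ⊗ₜ[ZMod 2] (x ⊗ₜ[ZMod 2] (c' * uh ι k))) =
      L.Pq ((h : H ⧸ N))⁻¹ ((c * uh ι h) ⊗ₜ[ZMod 2] (x ⊗ₜ[ZMod 2] (c' * uh ι k))) := by
  rw [P_apply]
  refine finsum_eq_single _ _ fun q hq => ?_
  rw [Pq_tmul]
  have e : σ.st (c * uh ι h) = (uh ι h⁻¹ * σ.st c * uh ι h⁻¹⁻¹) * uh ι h⁻¹ := by
    rw [σ.mul, σ.uh, inv_inv, mul_assoc, mul_assoc, uh_mul_inv, mul_one]
  rw [e, L.cop_ne _ (L.conj_mem _ (L.st_mem c hc) _) _ _ (by rw [QuotientGroup.mk_inv]; exact hq), map_zero,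
    TensorProduct.zero_tmul]

theorem Pq_hom_eq {c c' : D} (hc : c ∈ L.DN) (hc' : c' ∈ L.DN) (h k : H) (x : X)
    (hk : ((k : H ⧸ N)) = ((h : H ⧸ N))⁻¹) :
    L.Pq ((h : H ⧸ N))⁻¹ ((c * uh ι h) ⊗ₜ[ZMod 2] (x ⊗ₜ[ZMod 2] (c' * uh ι k))) =
      (c * uh ι h) ⊗ₜ[ZMod 2] (x ⊗ₜ[ZMod 2] (c' * uh ι k)) := by
  rw [Pq_tmul, ← hk, L.co_self c' hc']
  have e : σ.st (c * uh ι h) = (uh ι h⁻¹ * σ.st c * uh ι h⁻¹⁻¹) * uh ι h⁻¹ := by
    rw [σ.mul, σ.uh, inv_inv, mul_assoc, mul_assoc, uh_mul_inv, mul_one]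
  rw [e, hk, ← QuotientGroup.mk_inv, L.cop_self _ (L.conj_mem _ (L.st_mem c hc) _) h⁻¹, ← e, σ.inv]

theorem Pq_hom_ne {c c' : D} (hc' : c' ∈ L.DN) (h k : H) (x : X)
    (hk : ((k : H ⧸ N)) ≠ ((h : H ⧸ N))⁻¹) :
    L.Pq ((h : H ⧸ N))⁻¹ ((c * uh ι h) ⊗ₜ[ZMod 2] (x ⊗ₜ[ZMod 2] (c' * uh ι k))) = 0 := by
  rw [Pq_tmul, L.co_ne c' hc' _ _ (Ne.symm hk), TensorProduct.tmul_zero, TensorProduct.tmul_zero]

/-- the recomposition for the span of the homogeneous tensors -/
theorem recomp {m : MM (ZMod 2) D X} (hm : m ∈ L.TH X) : ∃ G : Finset (H ⧸ N), ∀ G', G ⊆ G' →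
    m = ∑ g ∈ G', Rm (uh ι g.out⁻¹) (L.P X (Rm (uh ι g.out) m)) := by
  classical
  induction hm using Submodule.span_induction with
  | mem z hz =>
    obtain ⟨a, ⟨c, hc, h, rfl⟩, x, b, ⟨c', hc', k, rfl⟩, rfl⟩ := hz
    refine ⟨{((k : H ⧸ N))⁻¹ * ((h : H ⧸ N))⁻¹}, fun G' hG => ?_⟩
    have hterm : ∀ g : H ⧸ N, Rm (uh ι g.out⁻¹) (L.P X (Rm (uh ι g.out)
        ((c * uh ι h) ⊗ₜ[ZMod 2] (x ⊗ₜ[ZMod 2] (c' * uh ι k))))) =
        if g = ((k : H ⧸ N))⁻¹ * ((h : H ⧸ N))⁻¹ then (c * uh ι h) ⊗ₜ[ZMod 2] (x ⊗ₜ[ZMod 2] (c' * uh ι k)) else 0 := by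
      intro g
      rw [Rm_tmul, mul_assoc, ← map_mul, L.P_hom hc hc']
      split_ifs with hg
      · rw [L.Pq_hom_eq hc hc', Rm_tmul, mul_assoc, ← map_mul, mul_assoc, mul_inv_cancel, mul_one]
        rw [QuotientGroup.mk_mul, QuotientGroup.out_eq', hg, mul_inv_cancel_left]
      · rw [L.Pq_hom_ne hc', map_zero]
        intro h1
        apply hg
        rw [QuotientGroup.mk_mul, QuotientGroup.out_eq'] at h1
        rw [← h1, inv_mul_cancel_left]
    rw [Finset.sum_congr rfl fun g _ => hterm g, Finset.sum_ite_eq', if_pos (hG (Finset.mem_singleton_self _))]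
  | zero => exact ⟨∅, fun G' _ => by simp only [map_zero, Finset.sum_const_zero]⟩
  | add m m' _ _ h h' =>
    obtain ⟨G, hG⟩ := h
    obtain ⟨G₁, hG₁⟩ := h'
    refine ⟨G ∪ G₁, fun G' hG' => ?_⟩
    simp only [map_add, Finset.sum_add_distrib]
    rw [← hG G' (Finset.union_subset_left hG'), ← hG₁ G' (Finset.union_subset_right hG')]
  | smul r m _ h =>
    obtain ⟨G, hG⟩ := h
    refine ⟨G, fun G' hG' => ?_⟩
    simp only [map_smul, ← Finset.smul_sum]
    rw [← hG G' hG']

/-- **Recomposition** -/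
theorem mem_of_P {m : MM (ZMod 2) D X} (hm : m ∈ L.TS X) (I : Submodule (ZMod 2) (MM (ZMod 2) D X))
    (h : ∀ γ : H, L.P X (Rm (uh ι γ) m) ∈ I) (hI : ∀ (γ : H), ∀ z ∈ I, Rm (uh ι γ) z ∈ I) : m ∈ I := by
  obtain ⟨G, hG⟩ := L.recomp (L.TS_le_TH hm)
  rw [hG G (Finset.Subset.refl _)]
  exact Submodule.sum_mem _ fun g _ => hI _ _ (h _)

/-- multiplication with elements of `SS` -/
theorem P_SS (ρ : Representation (ZMod 2) H X) {m : MM (ZMod 2) D X}
    (hm : ∀ g h : H, L.P X (Lm (uh ι g) (Rm (uh ι h) m)) ∈ II (uh ι) ρ (⊤ : Subgroup H)) {s s' : D}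
    (hs : s ∈ L.SS) (hs' : s' ∈ L.SS) : L.P X (Lm s (Rm s' m)) ∈ II (uh ι) ρ (⊤ : Subgroup H) := by
  have h1 : ∀ s ∈ L.Hom, ∀ s' ∈ L.Hom, L.P X (Lm s (Rm s' m)) ∈ II (uh ι) ρ (⊤ : Subgroup H) := by
    intro s hs s' hs'
    obtain ⟨c, hc, h, rfl⟩ := hs
    obtain ⟨c', hc', h', rfl⟩ := L.hom_right hs'
    rw [← Lm_Lm, ← Rm_Rm, L.P_Lm hc, Lm_Rm, L.P_Rm hc']
    exact Lm_II _ ρ _ _ (Rm_II _ ρ _ _ (hm h h'))
  have h2 : ∀ s ∈ L.Hom, ∀ s' ∈ L.SS, L.P X (Lm s (Rm s' m)) ∈ II (uh ι) ρ (⊤ : Subgroup H) := by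
    intro s hs s' hs'
    have : L.SS ≤ (II (uh ι) ρ (⊤ : Subgroup H)).toAddSubgroup.comap
        (AddMonoidHom.mk' (fun s' => L.P X (Lm s (Rm s' m))) fun a b => by
          rw [Rm_add, map_add, map_add]) :=
      (AddSubgroup.closure_le _).2 fun b hb => h1 s hs b hb
    exact this hs'
  have : L.SS ≤ (II (uh ι) ρ (⊤ : Subgroup H)).toAddSubgroup.comap
      (AddMonoidHom.mk' (fun s => L.P X (Lm s (Rm s' m))) fun a b => by
        rw [Lm_add, map_add]) :=
    (AddSubgroup.closure_le _).2 fun a ha => h2 a ha s' hs'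
  exact this hs

/-- **Division by elements of `SS`** -/
theorem mem_II_of_frac (ρ : Representation (ZMod 2) H X) {m : MM (ZMod 2) D X}
    (hm : ∀ g h : H, L.P X (Lm (uh ι g) (Rm (uh ι h) m)) ∈ II (uh ι) ρ (⊤ : Subgroup H)) {s s' : D}
    (hs : s ∈ L.SS) (hs' : s' ∈ L.SS) (hs0 : s ≠ 0) (hs'0 : s' ≠ 0) (hTS : Lm s (Rm s' m) ∈ L.TS X) :
    m ∈ II (uh ι) ρ (⊤ : Subgroup H) := by
  have hx : Lm s (Rm s' m) ∈ II (uh ι) ρ (⊤ : Subgroup H) := by
    refine L.mem_of_P hTS _ (fun γ => ?_) fun γ z hz => Rm_II _ ρ _ _ hz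
    rw [← Lm_Rm, Rm_Rm]
    exact L.P_SS ρ hm hs (L.SS_mul_uh hs' γ)
  have h3 := Rm_II (uh ι) ρ ⊤ s'⁻¹ (Lm_II (uh ι) ρ ⊤ s⁻¹ hx)
  rw [Lm_Lm, inv_mul_cancel₀ hs0, Lm_one, Rm_Rm, mul_inv_cancel₀ hs'0, Rm_one] at h3
  exact h3

end Lvl

end

end Pool.Agent.S14

end

section

/-!
# Project S14: fine tensors

`TF` = the span of the tensors with fine entries.  The pairing maps `TF` into the image of `K[H] ⊗ (X ⊗ K[H])`, and `flatOn_KH` gives: if
`m ∈ TF` and `i m` is in the span of the `g y - y`, `y ∈ TF`, then `P m` is in `II`.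
-/

set_option autoImplicit false
set_option linter.unusedSectionVars false

open TensorProduct

namespace Pool.Agent.S14

open Pool.Agent.S11.FL

section

variable {H D : Type} [Group H] [DivisionRing D] [Algebra (ZMod 2) D] {ι : MonoidAlgebra (ZMod 2) H →+* D}
  {X X' : Type} [AddCommGroup X] [Module (ZMod 2) X] [AddCommGroup X'] [Module (ZMod 2) X']

variable (ι) in
/-- `ι` as a linear map -/
noncomputable def iotaL : MonoidAlgebra (ZMod 2) H →ₗ[ZMod 2] D := ι.toAddMonoidHom.toZModLinearMap 2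

variable (ι X) in
/-- the map induced by `ι` -/
noncomputable def JJ : MM (ZMod 2) (MonoidAlgebra (ZMod 2) H) X →ₗ[ZMod 2] MM (ZMod 2) D X :=
  TensorProduct.map (iotaL ι) (TensorProduct.map (LinearMap.id : X →ₗ[ZMod 2] X) (iotaL ι))

theorem JJ_tmul (a : MonoidAlgebra (ZMod 2) H) (x : X) (b : MonoidAlgebra (ZMod 2) H) :
    JJ ι X (a ⊗ₜ[ZMod 2] (x ⊗ₜ[ZMod 2] b)) = ι a ⊗ₜ[ZMod 2] (x ⊗ₜ[ZMod 2] ι b) := rfl

theorem JJ_inj (hι : Function.Injective ι) : Function.Injective (JJ ι X) :=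
  TensorProduct.map_injective_of_flat_flat _ _ hι
    (TensorProduct.map_injective_of_flat_flat _ _ (fun _ _ h => h) hι)

theorem JJ_act (ρ : Representation (ZMod 2) H X) (g : H) (m : MM (ZMod 2) (MonoidAlgebra (ZMod 2) H) X) :
    JJ ι X (act (MonoidAlgebra.of (ZMod 2) H) ρ g m) = act (uh ι) ρ g (JJ ι X m) := by
  have : JJ ι X ∘ₗ act (MonoidAlgebra.of (ZMod 2) H) ρ g = act (uh ι) ρ g ∘ₗ JJ ι X := MM_ext fun a x b => by
    rw [LinearMap.comp_apply, LinearMap.comp_apply, act_tmul, JJ_tmul, JJ_tmul, act_tmul, map_mul, map_mul]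
    rfl
  exact LinearMap.congr_fun this m

theorem JJ_mapX (i : X →ₗ[ZMod 2] X') (m : MM (ZMod 2) (MonoidAlgebra (ZMod 2) H) X) :
    JJ ι X' (mapX (MonoidAlgebra (ZMod 2) H) i m) = mapX D i (JJ ι X m) := by
  have : JJ ι X' ∘ₗ mapX (MonoidAlgebra (ZMod 2) H) i = mapX D i ∘ₗ JJ ι X := MM_ext fun a x b => by
    rw [LinearMap.comp_apply, LinearMap.comp_apply, mapX_tmul, JJ_tmul, JJ_tmul, mapX_tmul]
  exact LinearMap.congr_fun this m

theorem JJ_II (ρ : Representation (ZMod 2) H X) {m : MM (ZMod 2) (MonoidAlgebra (ZMod 2) H) X}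
    (hm : m ∈ II (MonoidAlgebra.of (ZMod 2) H) ρ (⊤ : Subgroup H)) : JJ ι X m ∈ II (uh ι) ρ (⊤ : Subgroup H) := by
  have : II (MonoidAlgebra.of (ZMod 2) H) ρ (⊤ : Subgroup H) ≤ (II (uh ι) ρ (⊤ : Subgroup H)).comap (JJ ι X) :=
    II_le (MonoidAlgebra.of (ZMod 2) H) ρ fun g hg m => by
      rw [Submodule.mem_comap, map_sub, JJ_act]
      exact act_sub_mem (uh ι) ρ hg _
  exact this hm

/-- the anti-automorphism on the group algebra -/
theorem Inv.exists_st (σ : Inv ι) (f : MonoidAlgebra (ZMod 2) H) : ∃ f', σ.st (ι f) = ι f' := by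
  induction f using MonoidAlgebra.induction_linear with
  | zero => exact ⟨0, by rw [map_zero, map_zero]⟩
  | add f g hf hg =>
    obtain ⟨f', hf'⟩ := hf
    obtain ⟨g', hg'⟩ := hg
    exact ⟨f' + g', by rw [map_add, map_add, hf', hg', map_add]⟩
  | single h r =>
    rcases (by decide : ∀ r : ZMod 2, r = 0 ∨ r = 1) r with rfl | rfl
    · exact ⟨0, by rw [MonoidAlgebra.single_zero, map_zero, map_zero]⟩
    · exact ⟨MonoidAlgebra.single h⁻¹ 1, by rw [← uh_apply, ← uh_apply, σ.uh]⟩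

namespace Lvl

variable {σ : Inv ι} {N : Subgroup H} [N.Normal] (L : Lvl ι σ N)

variable (X) in
/-- the span of the tensors with fine entries -/
noncomputable def TF : Submodule (ZMod 2) (MM (ZMod 2) D X) :=
  Submodule.span (ZMod 2) {z | ∃ a, σ.st a ∈ L.Fine ∧ ∃ x : X, ∃ b ∈ L.Fine, z = a ⊗ₜ[ZMod 2] (x ⊗ₜ[ZMod 2] b)}

/-- the span of the `g y - y`, `y ∈ TF` -/
noncomputable def IIF (ρ : Representation (ZMod 2) H X) : Submodule (ZMod 2) (MM (ZMod 2) D X) :=
  Submodule.span (ZMod 2) {z | ∃ g : H, ∃ y ∈ L.TF X, z = act (uh ι) ρ g y - y}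

theorem Lm_TF (g : H) {m : MM (ZMod 2) D X} (hm : m ∈ L.TF X) : Lm (uh ι g) m ∈ L.TF X := by
  have : L.TF X ≤ (L.TF X).comap (Lm (uh ι g)) := by
    refine Submodule.span_le.2 ?_
    rintro _ ⟨a, ha, x, b, hb, rfl⟩
    refine Submodule.subset_span ⟨uh ι g * a, ?_, x, b, hb, rfl⟩
    rw [σ.mul, σ.uh]
    exact L.Fine.mul_mem ha (L.uh_mem _)
  exact this hm

theorem Rm_TF (g : H) {m : MM (ZMod 2) D X} (hm : m ∈ L.TF X) : Rm (uh ι g) m ∈ L.TF X := by
  have : L.TF X ≤ (L.TF X).comap (Rm (uh ι g)) := by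
    refine Submodule.span_le.2 ?_
    rintro _ ⟨a, ha, x, b, hb, rfl⟩
    exact Submodule.subset_span ⟨a, ha, x, b * uh ι g, L.Fine.mul_mem hb (L.uh_mem _), rfl⟩
  exact this hm

theorem Lm_IIF (ρ : Representation (ZMod 2) H X) (g : H) {m : MM (ZMod 2) D X} (hm : m ∈ L.IIF ρ) :
    Lm (uh ι g) m ∈ L.IIF ρ := by
  have : L.IIF ρ ≤ (L.IIF ρ).comap (Lm (uh ι g)) := by
    refine Submodule.span_le.2 ?_
    rintro _ ⟨h, y, hy, rfl⟩
    refine Submodule.subset_span ⟨h, Lm (uh ι g) y, L.Lm_TF g hy, ?_⟩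
    rw [map_sub, Lm_act]
  exact this hm

theorem Rm_IIF (ρ : Representation (ZMod 2) H X) (g : H) {m : MM (ZMod 2) D X} (hm : m ∈ L.IIF ρ) :
    Rm (uh ι g) m ∈ L.IIF ρ := by
  have : L.IIF ρ ≤ (L.IIF ρ).comap (Rm (uh ι g)) := by
    refine Submodule.span_le.2 ?_
    rintro _ ⟨h, y, hy, rfl⟩
    refine Submodule.subset_span ⟨h, Rm (uh ι g) y, L.Rm_TF g hy, ?_⟩
    rw [map_sub, Rm_act]
  exact this hm

/-- **The pairing of fine tensors** -/
theorem P_TF {m : MM (ZMod 2) D X} (hm : m ∈ L.TF X) : ∃ m', L.P X m = JJ ι X m' := by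
  have : L.TF X ≤ (LinearMap.range (JJ ι X)).comap (L.P X) := by
    refine Submodule.span_le.2 ?_
    rintro _ ⟨a, ha, x, b, hb, rfl⟩
    change L.P X _ ∈ LinearMap.range (JJ ι X)
    rw [P_apply]
    refine finsum_induction (fun z => z ∈ LinearMap.range (JJ ι X)) (Submodule.zero_mem _)
      (fun _ _ h h' => Submodule.add_mem _ h h') fun q => ?_
    obtain ⟨a', ha'⟩ := L.fine_cop _ ha q
    obtain ⟨b', hb'⟩ := L.fine_co _ hb q
    obtain ⟨a'', ha''⟩ := σ.exists_st a'
    refine ⟨a'' ⊗ₜ[ZMod 2] (x ⊗ₜ[ZMod 2] b'), ?_⟩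
    rw [Pq_tmul, ha', ha'', hb', JJ_tmul]
  obtain ⟨m', hm'⟩ := this hm
  exact ⟨m', hm'.symm⟩

theorem P_IIF (ρ : Representation (ZMod 2) H X) {m : MM (ZMod 2) D X} (hm : m ∈ L.IIF ρ) :
    ∃ m' ∈ II (MonoidAlgebra.of (ZMod 2) H) ρ (⊤ : Subgroup H), L.P X m = JJ ι X m' := by
  have : L.IIF ρ ≤ ((II (MonoidAlgebra.of (ZMod 2) H) ρ (⊤ : Subgroup H)).map (JJ ι X)).comap (L.P X) := by
    refine Submodule.span_le.2 ?_
    rintro _ ⟨g, y, hy, rfl⟩
    obtain ⟨y', hy'⟩ := L.P_TF hy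
    refine ⟨act (MonoidAlgebra.of (ZMod 2) H) ρ g y' - y',
      act_sub_mem (MonoidAlgebra.of (ZMod 2) H) ρ (Subgroup.mem_top g) y', ?_⟩
    rw [map_sub, JJ_act, ← hy', map_sub, P_act]
  obtain ⟨m', h1, h2⟩ := this hm
  exact ⟨m', h1, h2.symm⟩

/-- **The key step** -/
theorem P_mem_II (hι : Function.Injective ι) (ρ' : Representation (ZMod 2) H X') (ρ : Representation (ZMod 2) H X)
    (i : X' →ₗ[ZMod 2] X) (hi : Function.Injective i) (he : ∀ g x, i (ρ' g x) = ρ g (i x)) {m : MM (ZMod 2) D X'}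
    (hm : m ∈ L.TF X') (hm2 : mapX D i m ∈ L.IIF ρ) : L.P X' m ∈ II (uh ι) ρ' (⊤ : Subgroup H) := by
  obtain ⟨m', hm'⟩ := L.P_TF hm
  obtain ⟨m'', h1, h2⟩ := L.P_IIF ρ hm2
  rw [P_mapX, hm', ← JJ_mapX] at h2
  have h3 := JJ_inj hι h2
  rw [← h3] at h1
  rw [hm']
  exact JJ_II ρ' (flatOn_KH X' X ρ' ρ i hi he m' h1)

/-- **One level** -/
theorem mem_II_of_fine (hι : Function.Injective ι) (ρ' : Representation (ZMod 2) H X') (ρ : Representation (ZMod 2) H X)
    (i : X' →ₗ[ZMod 2] X) (hi : Function.Injective i) (he : ∀ g x, i (ρ' g x) = ρ g (i x)) {m : MM (ZMod 2) D X'}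
    (hm : m ∈ L.TF X') (hm2 : mapX D i m ∈ L.IIF ρ) {s s' : D} (hs : s ∈ L.SS) (hs' : s' ∈ L.SS) (hs0 : s ≠ 0)
    (hs'0 : s' ≠ 0) (hTS : Lm s (Rm s' m) ∈ L.TS X') : m ∈ II (uh ι) ρ' (⊤ : Subgroup H) := by
  refine L.mem_II_of_frac ρ' (fun g h => ?_) hs hs' hs0 hs'0 hTS
  refine L.P_mem_II hι ρ' ρ i hi he (L.Lm_TF g (L.Rm_TF h hm)) ?_
  rw [← Lm_mapX, ← Rm_mapX]
  exact L.Lm_IIF ρ g (L.Rm_IIF ρ h hm2)

end Lvl

end

end Pool.Agent.S14

end

section

/-!
# Project S14: flatness for `a ⊗ x ⊗ b ↦ a g⁻¹ ⊗ g x ⊗ g b` from levels which are fine enough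

`Frac σ`: for every finite set `F` of `D` there is a level such that the elements of `F` are fine and have a common
left denominator in `SS`.
-/

set_option autoImplicit false
set_option linter.unusedSectionVars false

open TensorProduct

namespace Pool.Agent.S14

open Pool.Agent.S11.FL

section

variable {H D : Type} [Group H] [DivisionRing D] [Algebra (ZMod 2) D] {ι : MonoidAlgebra (ZMod 2) H →+* D}
  {X X' : Type} [AddCommGroup X] [Module (ZMod 2) X] [AddCommGroup X'] [Module (ZMod 2) X']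

/-- levels for finite sets -/
def Frac (σ : Inv ι) : Prop :=
  ∀ F : Finset D, ∃ (N : Subgroup H) (_ : N.Normal) (L : Lvl ι σ N), (∀ a ∈ F, a ∈ L.Fine) ∧
    ∃ s ∈ L.SS, s ≠ 0 ∧ ∀ a ∈ F, s * a ∈ L.SS

variable (X) in
/-- the span of the tensors with entries in `F` -/
noncomputable def TT (F : Finset D) : Submodule (ZMod 2) (MM (ZMod 2) D X) :=
  Submodule.span (ZMod 2) {z | ∃ a ∈ F, ∃ x : X, ∃ b ∈ F, z = a ⊗ₜ[ZMod 2] (x ⊗ₜ[ZMod 2] b)}

theorem TT_mono {F F' : Finset D} (h : F ⊆ F') : TT X F ≤ TT X F' := by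
  refine Submodule.span_mono ?_
  rintro _ ⟨a, ha, x, b, hb, rfl⟩
  exact ⟨a, h ha, x, b, h hb, rfl⟩

theorem exists_TT (m : MM (ZMod 2) D X) : ∃ F : Finset D, m ∈ TT X F := by
  classical
  refine TensorProduct.induction_on m ⟨∅, Submodule.zero_mem _⟩ (fun a t => ?_) ?_
  · refine TensorProduct.induction_on t ?_ (fun x b => ?_) ?_
    · exact ⟨∅, by rw [TensorProduct.tmul_zero]; exact Submodule.zero_mem _⟩
    · exact ⟨{a, b}, Submodule.subset_span ⟨a, by simp, x, b, by simp, rfl⟩⟩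
    · rintro t t' ⟨F, hF⟩ ⟨F', hF'⟩
      refine ⟨F ∪ F', ?_⟩
      rw [TensorProduct.tmul_add]
      exact Submodule.add_mem _ (TT_mono Finset.subset_union_left hF) (TT_mono Finset.subset_union_right hF')
  · rintro t t' ⟨F, hF⟩ ⟨F', hF'⟩
    exact ⟨F ∪ F', Submodule.add_mem _ (TT_mono Finset.subset_union_left hF) (TT_mono Finset.subset_union_right hF')⟩

/-- the span of the `g y - y`, `y ∈ TT F` -/
noncomputable def IIT (F : Finset D) (ρ : Representation (ZMod 2) H X) (ι : MonoidAlgebra (ZMod 2) H →+* D) :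
    Submodule (ZMod 2) (MM (ZMod 2) D X) :=
  Submodule.span (ZMod 2) {z | ∃ g : H, ∃ y ∈ TT X F, z = act (uh ι) ρ g y - y}

theorem IIT_mono (ρ : Representation (ZMod 2) H X) {F F' : Finset D} (h : F ⊆ F') : IIT F ρ ι ≤ IIT F' ρ ι := by
  refine Submodule.span_mono ?_
  rintro _ ⟨g, y, hy, rfl⟩
  exact ⟨g, y, TT_mono h hy, rfl⟩

theorem exists_IIT (ρ : Representation (ZMod 2) H X) {m : MM (ZMod 2) D X}
    (hm : m ∈ II (uh ι) ρ (⊤ : Subgroup H)) : ∃ F : Finset D, m ∈ IIT F ρ ι := by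
  classical
  induction hm using Submodule.span_induction with
  | mem z hz =>
    obtain ⟨g, -, y, rfl⟩ := hz
    obtain ⟨F, hF⟩ := exists_TT y
    exact ⟨F, Submodule.subset_span ⟨g, y, hF, rfl⟩⟩
  | zero => exact ⟨∅, Submodule.zero_mem _⟩
  | add m m' _ _ h h' =>
    obtain ⟨F, hF⟩ := h
    obtain ⟨F', hF'⟩ := h'
    exact ⟨F ∪ F', Submodule.add_mem _ (IIT_mono ρ Finset.subset_union_left hF)
      (IIT_mono ρ Finset.subset_union_right hF')⟩
  | smul r m _ h =>
    obtain ⟨F, hF⟩ := h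
    exact ⟨F, Submodule.smul_mem _ _ hF⟩

/-- **Flatness** for `a ⊗ x ⊗ b ↦ a g⁻¹ ⊗ g x ⊗ g b` -/
theorem Frac.flatOn {σ : Inv ι} (h : Frac σ) (hι : Function.Injective ι) :
    FlatOn.{0} (K := ZMod 2) (uh ι) (⊤ : Subgroup H) := by
  classical
  intro X' X _ _ _ _ ρ' ρ i hi he m hm
  obtain ⟨F₀, hF₀⟩ := exists_TT m
  obtain ⟨F₁, hF₁⟩ := exists_IIT ρ hm
  obtain ⟨N, hN, L, hfine, s, hs, hs0, hsF⟩ := h ((F₀ ∪ F₁) ∪ (F₀ ∪ F₁).image σ.st)
  have hst : ∀ a ∈ F₀ ∪ F₁, σ.st a ∈ (F₀ ∪ F₁) ∪ (F₀ ∪ F₁).image σ.st := fun a ha =>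
    Finset.mem_union_right _ (Finset.mem_image_of_mem _ ha)
  have hself : ∀ a ∈ F₀ ∪ F₁, a ∈ (F₀ ∪ F₁) ∪ (F₀ ∪ F₁).image σ.st := fun a ha =>
    Finset.mem_union_left _ ha
  -- fine tensors
  have hTT : ∀ (Y : Type) [AddCommGroup Y] [Module (ZMod 2) Y], TT Y (F₀ ∪ F₁) ≤ L.TF Y := by
    intro Y _ _
    refine Submodule.span_mono ?_
    rintro _ ⟨a, ha, x, b, hb, rfl⟩
    exact ⟨a, hfine _ (hst a ha), x, b, hfine _ (hself b hb), rfl⟩
  have h1 : m ∈ L.TF X' := hTT X' (TT_mono Finset.subset_union_left hF₀)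
  have h2 : mapX D i m ∈ L.IIF ρ := by
    have h3 : IIT (F₀ ∪ F₁) ρ ι ≤ L.IIF ρ := by
      refine Submodule.span_mono ?_
      rintro _ ⟨g, y, hy, rfl⟩
      exact ⟨g, y, hTT X hy, rfl⟩
    exact h3 (IIT_mono ρ Finset.subset_union_right hF₁)
  have hs'0 : σ.st s ≠ 0 := by
    intro h0
    apply hs0
    rw [← σ.inv s, h0, map_zero]
  refine L.mem_II_of_fine hι ρ' ρ i hi he h1 h2 hs (L.SS_st hs) hs0 hs'0 ?_
  -- the denominators
  have h4 : TT X' F₀ ≤ (L.TS X').comap (Lm s ∘ₗ Rm (σ.st s)) := by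
    refine Submodule.span_le.2 ?_
    rintro _ ⟨a, ha, x, b, hb, rfl⟩
    refine Submodule.subset_span ⟨s * a, hsF _ (hself a (Finset.mem_union_left _ ha)), x, b * σ.st s, ?_, rfl⟩
    rw [show b * σ.st s = σ.st (s * σ.st b) by rw [σ.mul, σ.inv]]
    exact L.SS_st (hsF _ (hst b (Finset.mem_union_left _ hb)))
  exact h4 hF₀

end

end Pool.Agent.S14

end

section

/-!
# Project S14: flatness of `D ⊗ D` for the diagonal action
-/

set_option autoImplicit false
set_option linter.unusedSectionVars false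

open TensorProduct

namespace Pool.Agent.S14

open Pool.Agent.S11.FL Pool.Agent.S11

section

variable {H D : Type} [Group H] [DivisionRing D] [Algebra (ZMod 2) D] (ι : MonoidAlgebra (ZMod 2) H →+* D)
  (X : Type) [AddCommGroup X] [Module (ZMod 2) X]

/-- the action `v ↦ g v` -/
noncomputable def lefR : Representation (ZMod 2) H D where
  toFun g := LinearMap.mulLeft (ZMod 2) (uh ι g)
  map_one' := by
    refine LinearMap.ext fun v => ?_
    rw [map_one]
    exact one_mul v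
  map_mul' g h := by
    refine LinearMap.ext fun v => ?_
    rw [map_mul]
    exact mul_assoc _ _ v

/-- the action `v ↦ v g⁻¹` -/
noncomputable def rigR : Representation (ZMod 2) H D where
  toFun g := LinearMap.mulRight (ZMod 2) (uh ι g⁻¹)
  map_one' := by
    refine LinearMap.ext fun v => ?_
    rw [inv_one, map_one]
    exact mul_one v
  map_mul' g h := by
    refine LinearMap.ext fun v => ?_
    rw [mul_inv_rev, map_mul]
    exact (mul_assoc v _ _).symm

/-- `D ⊗ D` with the action `a ⊗ b ↦ a g⁻¹ ⊗ g b` -/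
noncomputable def tauD : Representation (ZMod 2) H (D ⊗[ZMod 2] D) := (rigR ι).tprod (lefR ι)

variable (D) in
/-- rearrangement of the factors -/
noncomputable def ThD : X ⊗[ZMod 2] (D ⊗[ZMod 2] D) ≃ₗ[ZMod 2] MM (ZMod 2) D X :=
  TensorProduct.leftComm (ZMod 2) X D D

theorem ThD_tmul (x : X) (a b : D) : ThD D X (x ⊗ₜ[ZMod 2] (a ⊗ₜ[ZMod 2] b)) =
    (a ⊗ₜ[ZMod 2] (x ⊗ₜ[ZMod 2] b) : MM (ZMod 2) D X) := rfl

variable {X}

theorem ThD_act (ρ : Representation (ZMod 2) H X) (g : H) (t : X ⊗[ZMod 2] (D ⊗[ZMod 2] D)) :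
    ThD D X ((ρ.tprod (tauD ι)) g t) = act (uh ι) ρ g (ThD D X t) := by
  have : (ThD D X).toLinearMap ∘ₗ (ρ.tprod (tauD ι)) g = act (uh ι) ρ g ∘ₗ (ThD D X).toLinearMap := by
    refine TensorProduct.ext_threefold' fun x a b => ?_
    change ThD D X (ρ g x ⊗ₜ[ZMod 2] ((rigR ι g a) ⊗ₜ[ZMod 2] (lefR ι g b))) = _
    rw [ThD_tmul, LinearMap.comp_apply]
    change _ = act (uh ι) ρ g (a ⊗ₜ[ZMod 2] (x ⊗ₜ[ZMod 2] b))
    rw [act_tmul]
    rfl
  exact LinearMap.congr_fun this t

theorem ThD_Kr (ρ : Representation (ZMod 2) H X) (t : X ⊗[ZMod 2] (D ⊗[ZMod 2] D)) :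
    ThD D X t ∈ II (uh ι) ρ ⊤ ↔ t ∈ Kr (ρ.tprod (tauD ι)) ⊤ := by
  constructor
  · intro ht
    have h1 : II (uh ι) ρ ⊤ ≤ (Kr (ρ.tprod (tauD ι)) ⊤).comap (ThD D X).symm.toLinearMap := by
      refine II_le (uh ι) ρ fun g hg m => ?_
      rw [Submodule.mem_comap]
      have h2 : (ThD D X).symm.toLinearMap (act (uh ι) ρ g m - m) =
          (ρ.tprod (tauD ι)) g ((ThD D X).symm m) - (ThD D X).symm m := by
        change (ThD D X).symm (act (uh ι) ρ g m - m) = _
        rw [LinearEquiv.symm_apply_eq, map_sub, ThD_act, LinearEquiv.apply_symm_apply]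
      rw [h2]
      exact sub_mem_Kr _ hg _
    have := h1 ht
    rw [Submodule.mem_comap] at this
    change (ThD D X).symm (ThD D X t) ∈ _ at this
    rwa [LinearEquiv.symm_apply_apply] at this
  · intro ht
    have h1 : Kr (ρ.tprod (tauD ι)) ⊤ ≤ (II (uh ι) ρ ⊤).comap (ThD D X).toLinearMap := by
      refine Submodule.span_le.2 ?_
      rintro _ ⟨g, hg, m, rfl⟩
      change ThD D X ((ρ.tprod (tauD ι)) g m - m) ∈ II (uh ι) ρ ⊤
      rw [map_sub, ThD_act]
      exact act_sub_mem (uh ι) ρ hg _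
    exact h1 ht

theorem ThD_rTensor {X' : Type} [AddCommGroup X'] [Module (ZMod 2) X'] (f : X →ₗ[ZMod 2] X')
    (t : X ⊗[ZMod 2] (D ⊗[ZMod 2] D)) :
    ThD D X' (f.rTensor (D ⊗[ZMod 2] D) t) = mapX D f (ThD D X t) := by
  have : (ThD D X').toLinearMap ∘ₗ f.rTensor (D ⊗[ZMod 2] D) = mapX D f ∘ₗ (ThD D X).toLinearMap := by
    refine TensorProduct.ext_threefold' fun x a b => ?_
    change ThD D X' (f x ⊗ₜ[ZMod 2] (a ⊗ₜ[ZMod 2] b)) = _
    rw [ThD_tmul, LinearMap.comp_apply]
    change _ = mapX D f (a ⊗ₜ[ZMod 2] (x ⊗ₜ[ZMod 2] b))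
    rw [mapX_tmul]
  exact LinearMap.congr_fun this t

variable {ι}

/-- **Flatness of `D ⊗ D`** with the action `a ⊗ b ↦ a g⁻¹ ⊗ g b` -/
theorem flat_tauD (h : FlatOn.{0} (K := ZMod 2) (uh ι) (⊤ : Subgroup H)) : Flat (tauD ι) := by
  intro X X' _ _ _ _ ρ ρ' f hf hinj t ht
  rw [← ThD_Kr] at ht ⊢
  rw [ThD_rTensor] at ht
  exact h X X' ρ ρ' f hinj hf _ ht

/-- **Flatness of `D ⊗ D` for the diagonal action** -/
theorem Frac.flat {σ : Inv ι} (h : Frac σ) (hι : Function.Injective ι) : Flat ((lft ι).tprod (lft ι)) :=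
  flat_star (R := rigR ι) (L := lefR ι) (T := lft ι) (j := fun g => uh ι g)
    (k := fun g => ι (MonoidAlgebra.single g 1)) (RingHom.id D) (fun g => rfl) (fun g v => rfl) (fun g v => rfl)
    (fun g d => rfl) σ.st (map_add σ.st) σ.mul σ.inv σ.uh (flat_tauD (h.flatOn hι))

end

end Pool.Agent.S14

end
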