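import Pool.Agent.H71.TSG.M39
import Pool.Agent.H71.TSG.M85
import Pool.Agent.H71.TSG.M86
import Pool.Agent.H71.TSG.M87

/-! The parts of this file: S14.Chn, S14.Dat, S14.Lv, S14.Appr, S14.DatMk, S14.DatM2, S14.Pack0, S11.Fin_1, S14.Ed, S14.Final. -/

section

/-!
# Project S14: the chain

`exists_chn`: a countable residually (amenable and left-orderable) group is left-orderable and has a chain (`Chn`).
PROOF.  Enumerate the elements: homomorphisms `φ k : H →* L k`, `L k` amenable with a positive cone `P k`.  `N j` = the `x`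
with `φ k x = 1` for all `k < j`.  The positive elements are those for which the first nontrivial `φ k x` is in `P k`.
`Foel`: `H ⧸ N j` embeds in a finite product (`E5`).
-/

set_option autoImplicit false
set_option linter.unusedSectionVars false

namespace Pool.Agent.S14

/-! ### Positive cones -/

/-- a positive cone -/
structure Cone {Q : Type} [Group Q] (P : Set Q) : Prop where
  mul : ∀ x ∈ P, ∀ y ∈ P, x * y ∈ P
  one : (1 : Q) ∉ P
  tot : ∀ x, x ≠ 1 → x ∈ P ∨ x⁻¹ ∈ P

theorem Cone.not_inv {Q : Type} [Group Q] {P : Set Q} (h : Cone P) {x : Q} (hx : x ∈ P) : x⁻¹ ∉ P :=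
  fun hx' => h.one (by simpa using h.mul x hx _ hx')

open Classical in
/-- the order of a positive cone -/
@[reducible] noncomputable def Cone.ord {Q : Type} [Group Q] {P : Set Q} (h : Cone P) : LinearOrder Q where
  le a b := a = b ∨ a⁻¹ * b ∈ P
  lt a b := a⁻¹ * b ∈ P
  le_refl a := Or.inl rfl
  le_trans a b c := by
    rintro (rfl | h1) (rfl | h2)
    · exact Or.inl rfl
    · exact Or.inr h2
    · exact Or.inr h1
    · right
      have := h.mul _ h1 _ h2
      rwa [show a⁻¹ * b * (b⁻¹ * c) = a⁻¹ * c by group] at this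
  lt_iff_le_not_ge a b := by
    constructor
    · intro h1
      refine ⟨Or.inr h1, ?_⟩
      rintro (rfl | h2)
      · exact h.one (by simpa using h1)
      · exact h.not_inv h1 (by simpa using h2)
    · rintro ⟨rfl | h1, h2⟩
      · exact absurd (Or.inl rfl) h2
      · exact h1
  le_antisymm a b := by
    rintro (rfl | h1) (h2 | h2)
    · rfl
    · rfl
    · exact h2.symm
    · exact absurd (by simpa using h2) (h.not_inv h1)
  le_total a b := by
    rcases eq_or_ne (a⁻¹ * b) 1 with h1 | h1
    · exact Or.inl (Or.inl (inv_mul_eq_one.1 h1))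
    · rcases h.tot _ h1 with h2 | h2
      · exact Or.inl (Or.inr h2)
      · exact Or.inr (Or.inr (by simpa using h2))
  toDecidableLE := fun _ _ => Classical.propDecidable _

theorem Cone.ord_lt {Q : Type} [Group Q] {P : Set Q} (h : Cone P) (a b : Q) : h.ord.lt a b ↔ a⁻¹ * b ∈ P := Iff.rfl

theorem Cone.left {Q : Type} [Group Q] {P : Set Q} (h : Cone P) (a b c : Q) (hab : h.ord.lt a b) :
    h.ord.lt (c * a) (c * b) := by
  rw [Cone.ord_lt] at *
  rwa [show (c * a)⁻¹ * (c * b) = a⁻¹ * b by group]

/-- a left invariant order -/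
@[reducible] noncomputable def Cone.lo {Q : Type} [Group Q] {P : Set Q} (h : Cone P) : LO Q :=
  { h.ord with lt_l := h.left }

theorem LeftOrd.cone {L : Type} [Group L] (h : LeftOrd L) : ∃ P : Set L, Cone P := by
  obtain ⟨P, h1, h2, h3⟩ := h
  exact ⟨P, h1, h2, h3⟩

/-! ### The homomorphisms -/

/-- homomorphisms to amenable left-orderable groups which separate the elements -/
structure Src (H : Type) [Group H] where
  /-- the groups -/
  L : ℕ → Type
  /-- they are groups -/
  grp : ∀ k, Group (L k)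
  /-- the homomorphisms -/
  φ : ∀ k, H →* L k
  /-- the positive cones -/
  P : ∀ k, Set (L k)
  cone : ∀ k, Cone (P k)
  foel : ∀ k, Foel (L k)
  sep : ∀ h : H, (∀ k, φ k h = 1) → h = 1

attribute [instance] Src.grp

theorem amen_unit : Amen PUnit.{1} := by
  intro S ε hε
  refine ⟨{1}, Finset.singleton_nonempty _, fun s _ => ?_⟩
  have : {x : PUnit.{1} | x ∈ (({1} : Finset PUnit.{1}) : Set PUnit.{1}) ∧ s * x ∉ ({1} : Finset PUnit.{1})} = ∅ := by
    ext x
    simp
  have h2 : {x ∈ (({1} : Finset PUnit.{1}) : Set PUnit.{1}) | s * x ∉ ({1} : Finset PUnit.{1})} = ∅ := this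
  rw [h2]
  simp [hε.le]

theorem leftOrd_unit : LeftOrd PUnit.{1} :=
  ⟨∅, fun _ h => h.elim, fun h => h, fun _ hx => (hx rfl).elim⟩

theorem exists_src {H : Type} [Group H] [Countable H] (h : RAL H) : Nonempty (Src H) := by
  obtain ⟨f, hf⟩ := exists_surjective_nat H
  have key : ∀ n, ∃ (L : Type) (_ : Group L) (φ : H →* L), Amen L ∧ LeftOrd L ∧ (f n ≠ 1 → φ (f n) ≠ 1) := by
    intro n
    by_cases hn : f n = 1
    · exact ⟨PUnit, inferInstance, 1, amen_unit, leftOrd_unit, fun h => absurd hn h⟩
    · obtain ⟨L, hL, φ, h1, h2, h3⟩ := h _ hn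
      exact ⟨L, hL, φ, h1, h2, fun _ => h3⟩
  choose L hL φ h1 h2 h3 using key
  choose P hP using fun n => (h2 n).cone
  refine ⟨⟨L, hL, φ, P, hP, fun n => (h1 n).foel, fun x hx => ?_⟩⟩
  obtain ⟨n, rfl⟩ := hf x
  by_contra hn
  exact h3 n hn (hx n)

namespace Src

variable {H : Type} [Group H] (s : Src H)

/-- the chain -/
def N (j : ℕ) : Subgroup H where
  carrier := {h | ∀ k, k < j → s.φ k h = 1}
  mul_mem' := fun {a b} ha hb k hk => by rw [map_mul, ha k hk, hb k hk, mul_one]
  one_mem' := fun k _ => map_one _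
  inv_mem' := fun {a} ha k hk => by rw [map_inv, ha k hk, inv_one]

theorem mem_N {j : ℕ} {h : H} : h ∈ s.N j ↔ ∀ k, k < j → s.φ k h = 1 := Iff.rfl

instance (j : ℕ) : (s.N j).Normal := ⟨fun n hn g k hk => by
  rw [map_mul, map_mul, hn k hk, mul_one, ← map_mul, mul_inv_cancel, map_one]⟩

theorem N_zero : s.N 0 = ⊤ := by
  rw [eq_top_iff]
  intro h _ k hk
  exact absurd hk (Nat.not_lt_zero k)

theorem N_anti {i j : ℕ} (h : i ≤ j) : s.N j ≤ s.N i := fun _ hx k hk => hx k (hk.trans_le h)

theorem N_sep {h : H} (hh : ∀ j, h ∈ s.N j) : h = 1 := s.sep h fun k => hh (k + 1) k (Nat.lt_succ_self k)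

/-- the first homomorphism which does not kill the element has a positive value -/
def C (h : H) (k : ℕ) : Prop := (∀ i, i < k → s.φ i h = 1) ∧ s.φ k h ∈ s.P k

theorem C_mul {x y : H} {k l : ℕ} (hx : s.C x k) (hy : s.C y l) : s.C (x * y) (min k l) := by
  obtain ⟨x1, x2⟩ := hx
  obtain ⟨y1, y2⟩ := hy
  refine ⟨fun i hi => ?_, ?_⟩
  · rw [map_mul, x1 i (hi.trans_le (min_le_left _ _)), y1 i (hi.trans_le (min_le_right _ _)), mul_one]
  · rcases lt_trichotomy k l with h | h | h
    · rw [min_eq_left h.le, map_mul, y1 k h, mul_one]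
      exact x2
    · subst h
      rw [min_self, map_mul]
      exact (s.cone k).mul _ x2 _ y2
    · rw [min_eq_right h.le, map_mul, x1 l h, one_mul]
      exact y2

theorem C_ne {x : H} {k : ℕ} (hx : s.C x k) : s.φ k x ≠ 1 := fun h => (s.cone k).one (h ▸ hx.2)

theorem C_tot {x : H} {k : ℕ} (hk : s.φ k x ≠ 1) : ∃ l, l ≤ k ∧ (s.C x l ∨ s.C x⁻¹ l) := by
  classical
  have he : ∃ k, s.φ k x ≠ 1 := ⟨k, hk⟩
  refine ⟨Nat.find he, Nat.find_min' he hk, ?_⟩
  have h1 : ∀ i, i < Nat.find he → s.φ i x = 1 := fun i hi => not_not.1 (Nat.find_min he hi)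
  rcases (s.cone _).tot _ (Nat.find_spec he) with h2 | h2
  · exact Or.inl ⟨h1, h2⟩
  · refine Or.inr ⟨fun i hi => ?_, ?_⟩
    · rw [map_inv, h1 i hi, inv_one]
    · rw [map_inv]
      exact h2

theorem C_congr {x y : H} {j k : ℕ} (hk : k < j) (h : (x : H ⧸ s.N j) = y) (hx : s.C x k) : s.C y k := by
  have h1 : x⁻¹ * y ∈ s.N j := QuotientGroup.eq.1 h
  have h2 : ∀ i, i < j → s.φ i x = s.φ i y := fun i hi => by
    have := h1 i hi
    rw [map_mul, map_inv] at this
    exact inv_mul_eq_one.1 this
  refine ⟨fun i hi => ?_, ?_⟩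
  · rw [← h2 i (hi.trans hk)]
    exact hx.1 i hi
  · rw [← h2 k hk]
    exact hx.2

/-- the positive cone of the group -/
theorem coneH : Cone {h : H | ∃ k, s.C h k} where
  mul := fun _ ⟨k, hx⟩ _ ⟨l, hy⟩ => ⟨min k l, s.C_mul hx hy⟩
  one := fun ⟨k, hk⟩ => s.C_ne hk (map_one _)
  tot := fun x hx => by
    have : ∃ k, s.φ k x ≠ 1 := by
      by_contra hc
      push Not at hc
      exact hx (s.sep x hc)
    obtain ⟨k, hk⟩ := this
    obtain ⟨l, -, h | h⟩ := s.C_tot hk
    · exact Or.inl ⟨l, h⟩
    · exact Or.inr ⟨l, h⟩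

/-- the positive cone of the quotient -/
def PQ (j : ℕ) : Set (H ⧸ s.N j) := {q | ∃ h : H, (∃ k, k < j ∧ s.C h k) ∧ (h : H ⧸ s.N j) = q}

theorem mem_PQ {j : ℕ} {h : H} : (h : H ⧸ s.N j) ∈ s.PQ j ↔ ∃ k, k < j ∧ s.C h k := by
  constructor
  · rintro ⟨x, ⟨k, hk, hx⟩, h1⟩
    exact ⟨k, hk, s.C_congr hk h1 hx⟩
  · intro hh
    exact ⟨h, hh, rfl⟩

theorem coneQ (j : ℕ) : Cone (s.PQ j) where
  mul := by
    intro x hx y hy
    induction x using QuotientGroup.induction_on with
    | H x =>
      induction y using QuotientGroup.induction_on with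
      | H y =>
        rw [s.mem_PQ] at hx hy
        obtain ⟨k, hk, hx⟩ := hx
        obtain ⟨l, hl, hy⟩ := hy
        rw [← QuotientGroup.mk_mul, s.mem_PQ]
        exact ⟨min k l, lt_of_le_of_lt (min_le_left _ _) hk, s.C_mul hx hy⟩
  one := by
    intro h
    rw [← QuotientGroup.mk_one, s.mem_PQ] at h
    obtain ⟨k, -, hk⟩ := h
    exact s.C_ne hk (map_one _)
  tot := by
    intro x hx
    induction x using QuotientGroup.induction_on with
    | H x =>
      have h1 : x ∉ s.N j := fun h => hx ((QuotientGroup.eq_one_iff x).2 h)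
      rw [mem_N] at h1
      push Not at h1
      obtain ⟨k, hk, h2⟩ := h1
      rw [← QuotientGroup.mk_inv, s.mem_PQ, s.mem_PQ]
      obtain ⟨l, hl, h | h⟩ := s.C_tot h2
      · exact Or.inl ⟨l, lt_of_le_of_lt hl hk, h⟩
      · exact Or.inr ⟨l, lt_of_le_of_lt hl hk, h⟩

/-- the order of the quotient -/
@[reducible] noncomputable def o (j : ℕ) : LO (H ⧸ s.N j) := (s.coneQ j).lo

theorem o_lt {j : ℕ} {x y : H} : (s.o j).lt (x : H ⧸ s.N j) y ↔ ∃ k, k < j ∧ s.C (x⁻¹ * y) k := by
  rw [← s.mem_PQ]
  exact Iff.rfl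

/-- the orders are compatible -/
theorem o_mono {i j : ℕ} (h : i ≤ j) {x y : H} (hxy : (s.o i).lt (x : H ⧸ s.N i) y) :
    (s.o j).lt (x : H ⧸ s.N j) y := by
  rw [o_lt] at *
  obtain ⟨k, hk, hc⟩ := hxy
  exact ⟨k, hk.trans_le h, hc⟩

theorem foel_Q (j : ℕ) : Foel (H ⧸ s.N j) := by
  have hπ := foel_pi (n := j) (L := fun k => s.L k) fun k => s.foel k
  have hk : ∀ h ∈ s.N j, (MonoidHom.pi fun k : Fin j => s.φ k) h = 1 := fun h hh => by
    funext k
    exact (s.mem_N.1 hh) k k.2
  refine Foel.comap (QuotientGroup.lift (s.N j) (MonoidHom.pi fun k : Fin j => s.φ k) hk) ?_ hπ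
  rw [injective_iff_map_eq_one]
  intro x
  refine QuotientGroup.induction_on x fun y hy => ?_
  have h2 : (MonoidHom.pi fun k : Fin j => s.φ k) y = 1 := hy
  exact (QuotientGroup.eq_one_iff y).2 (s.mem_N.2 fun k hk => congrFun h2 ⟨k, hk⟩)

end Src

/-- **The chain** -/
theorem exists_chn {H : Type} [Group H] [Countable H] (h : RAL H) : ∃ _ : LO H, Nonempty (Chn H) := by
  obtain ⟨s⟩ := exists_src h
  exact ⟨s.coneH.lo, ⟨⟨s.N, fun _ => inferInstance, s.N_zero, fun _ _ hij => s.N_anti hij, fun _ hx => s.N_sep hx,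
    s.o, fun _ _ hij _ _ hxy => s.o_mono hij hxy, s.foel_Q⟩⟩⟩

end Pool.Agent.S14

end

section

/-!
# Project S14: the input of the flatness block

`Dat H` = a division ring `D` generated by the group algebra of `H`, with an anti-automorphism, a decreasing sequence of
normal subgroups `N j` with trivial intersection, with amenable quotients with compatible left orders, such that for all
`j` the components `DN * u h` (`DN` = the subfield generated by `N j`) are independent, and with the property `FoelAppr`.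
-/

set_option autoImplicit false
set_option linter.unusedSectionVars false

namespace Pool.Agent.S14

/-- the input -/
structure Dat (H : Type) [Group H] where
  /-- the division ring -/
  D : Type
  /-- it is a division ring -/
  div : DivisionRing D
  /-- of characteristic two -/
  alg : Algebra (ZMod 2) D
  /-- the homomorphism from the group algebra -/
  ι : MonoidAlgebra (ZMod 2) H →+* D
  inj : Function.Injective ι
  /-- the anti-automorphism -/
  σ : Inv ι
  gen : Subfield.closure (Set.range (uh ι)) = ⊤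
  /-- the normal subgroups -/
  N : ℕ → Subgroup H
  nor : ∀ j, (N j).Normal
  anti : Antitone N
  sep : ∀ x, (∀ j, x ∈ N j) → x = 1
  /-- the left orders -/
  lo : ∀ j, LO (H ⧸ N j)
  mono : ∀ i j, i ≤ j → ∀ x y : H, (lo i).lt (x : H ⧸ N i) (y : H ⧸ N i) → (lo j).lt (x : H ⧸ N j) (y : H ⧸ N j)
  foel : ∀ j, Foel (H ⧸ N j)
  direct : ∀ j, Direct (uh ι) (N j)
  appr : FoelAppr ι

attribute [instance] Dat.div Dat.alg Dat.nor

end Pool.Agent.S14

end

section

/-!
# Project S14: from the data `Dat H` to the tower of gradings, the levels of the pairing and the flatness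
-/

set_option autoImplicit false
set_option linter.unusedSectionVars false

open TensorProduct

namespace Pool.Agent.S14

open Pool.Agent.S11 Pool.Agent.S12

section

variable {H D : Type} [Group H] [DivisionRing D]

/-- the left order as explicit data -/
def logOf {Q : Type} [Group Q] (o : LO Q) : _root_.S14.LOG Q := ⟨o.toLinearOrder, fun a b c h => o.lt_l a b c h⟩

/-- the anti-automorphism preserves the subfield generated by an invariant set -/
theorem st_closure' {D₀ : Type} [DivisionRing D₀] (st : D₀ → D₀) (st_add : ∀ a b, st (a + b) = st a + st b)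
    (st_mul : ∀ a b, st (a * b) = st b * st a) (st_st : ∀ a, st (st a) = a) (R : Set D₀)
    (hR : ∀ a ∈ R, st a ∈ Subfield.closure R) : ∀ a ∈ Subfield.closure R, st a ∈ Subfield.closure R := by
  have st_zero : st 0 = 0 := by
    have h1 := st_add 0 0
    rw [add_zero] at h1
    exact (add_eq_left.1 h1.symm)
  have st_one : st 1 = 1 := by
    have h1 := st_mul 1 1
    rw [mul_one] at h1
    have h2 : st 1 ≠ 0 := fun h0 => by
      have h3 := st_st 1
      rw [h0, st_zero] at h3
      exact zero_ne_one h3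
    exact (mul_eq_left₀ h2).1 h1.symm
  have st_neg : ∀ a, st (-a) = -st a := fun a => by
    have h1 := st_add a (-a)
    rw [add_neg_cancel, st_zero] at h1
    exact (neg_eq_of_add_eq_zero_right h1.symm).symm
  have st_inv : ∀ a, st a⁻¹ = (st a)⁻¹ := fun a => by
    by_cases ha : a = 0
    · rw [ha, inv_zero, st_zero, inv_zero]
    · have h1 := st_mul a a⁻¹
      rw [mul_inv_cancel₀ ha, st_one] at h1
      exact eq_inv_of_mul_eq_one_left h1.symm
  intro a ha
  induction ha using Subfield.closure_induction with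
  | mem x hx => exact hR x hx
  | one => rw [st_one]; exact (Subfield.closure R).one_mem
  | add x y _ _ hx hy => rw [st_add]; exact (Subfield.closure R).add_mem hx hy
  | neg x _ hx => rw [st_neg]; exact (Subfield.closure R).neg_mem hx
  | inv x _ hx => rw [st_inv]; exact (Subfield.closure R).inv_mem hx
  | mul x y _ _ hx hy => rw [st_mul]; exact (Subfield.closure R).mul_mem hy hx

/-- the graded sums as finitely supported functions -/
theorem exists_frac' (u : H →* D) {N : Subgroup H} [N.Normal] (hd : Direct u N) (P : Subgroup (H ⧸ N)) (hP : Fol P)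
    {c : D} (hc : c ∈ DN u (P.comap (QuotientGroup.mk' N))) :
    ∃ s t : (H ⧸ N) →₀ D, (∀ q, s q ∈ cl u q) ∧ (∀ q, t q ∈ cl u q) ∧ (∀ q, s q ≠ 0 → q ∈ P) ∧ (∀ q, t q ≠ 0 → q ∈ P) ∧
      _root_.S14.ev s ≠ 0 ∧ _root_.S14.ev s * c = _root_.S14.ev t := by
  obtain ⟨s, hs, hs0, hsc⟩ := exists_frac u hd P hP hc
  obtain ⟨a, ha, haP, rfl⟩ := (mem_SD u).1 hs
  obtain ⟨b, hb, hbP, hab⟩ := (mem_SD u).1 hsc
  exact ⟨a, b, ha, hb, haP, hbP, hs0, hab.symm⟩

/-- the grading -/
noncomputable def grOf (u : H →* D) (N : Subgroup H) [N.Normal] (hd : Direct u N) (hF : Foel (H ⧸ N))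
    (hg : Subfield.closure (Set.range u) = ⊤) : _root_.S14.Gr D (H ⧸ N) where
  S := cl u
  one := cl_one u
  mul := cl_mul u
  inv := cl_inv u
  direct := fun s hs h => hd s hs h
  frac := fun d => by
    have h1 : Fol (⊤ : Subgroup (H ⧸ N)) :=
      (Foel.comap (f := (⊤ : Subgroup (H ⧸ N)).subtype) Subtype.val_injective hF).fol
    obtain ⟨s, t, hs, ht, -, -, h0, h2⟩ := exists_frac' u hd ⊤ h1 (c := d) (by
      have h3 : DN u ((⊤ : Subgroup (H ⧸ N)).comap (QuotientGroup.mk' N)) = ⊤ := by
        unfold DN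
        rw [Subgroup.comap_top, Subgroup.coe_top, Set.image_univ, hg]
      rw [h3]
      exact Subfield.mem_top d)
    exact ⟨s, t, hs, ht, h0, h2⟩

variable (C : ℕ → Subgroup H) [hC : ∀ j, (C j).Normal]

open Classical in
/-- the maps of the quotients -/
noncomputable def piOf (i j : ℕ) : H ⧸ C j →* H ⧸ C i :=
  if h : C j ≤ C i then QuotientGroup.map (C j) (C i) (MonoidHom.id H) h else 1

theorem piOf_mk {i j : ℕ} (h : C j ≤ C i) (x : H) : piOf C i j (x : H ⧸ C j) = (x : H ⧸ C i) := by
  unfold piOf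
  rw [dif_pos h]
  rfl

theorem prOf (u : H →* D) {i j : ℕ} (h : C j ≤ C i) (hi : Direct u (C i)) (hFi : Foel (H ⧸ C i))
    (hj : Direct u (C j)) (hFj : Foel (H ⧸ C j)) (hg : Subfield.closure (Set.range u) = ⊤) :
    _root_.S14.Pr (grOf u (C j) hj hFj hg) (grOf u (C i) hi hFi hg) (piOf C i j) where
  le := by
    intro q a ha
    obtain ⟨x, rfl⟩ := QuotientGroup.mk_surjective q
    rw [piOf_mk C h]
    change a ∈ cl u ((x : H) : H ⧸ C i)
    rw [mem_cl_iff u rfl]
    exact DN_mono u h (ha x rfl)
  unit := by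
    intro r
    obtain ⟨x, rfl⟩ := QuotientGroup.mk_surjective r
    exact ⟨(x : H ⧸ C j), piOf_mk C h x, u x, u_mem_cl u x, u_ne u x⟩
  frac := by
    intro c hc
    have h1 : Fol (piOf C i j).ker := (Foel.comap (f := (piOf C i j).ker.subtype) Subtype.val_injective hFj).fol
    obtain ⟨s, t, hs, ht, hs', ht', h0, h2⟩ := exists_frac' u hj (piOf C i j).ker h1 (c := c) (by
      have h3 : ((piOf C i j).ker).comap (QuotientGroup.mk' (C j)) = C i := by
        ext x
        rw [Subgroup.mem_comap, MonoidHom.mem_ker, QuotientGroup.mk'_apply, piOf_mk C h, QuotientGroup.eq_one_iff]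
      rw [h3]
      exact (mem_cl_one u).1 hc)
    exact ⟨s, t, hs, ht, fun q hq => MonoidHom.mem_ker.1 (hs' q hq), fun q hq => MonoidHom.mem_ker.1 (ht' q hq), h0, h2⟩

end

section

variable {H : Type} [Group H] (d : Dat H)

theorem Dat.gen' : Subfield.closure (Set.range (uh d.ι)) = ⊤ := d.gen

/-- the tower of gradings -/
noncomputable def Dat.tow : _root_.S14.Tow (uh d.ι) where
  Q j := H ⧸ d.N j
  grp j := inferInstance
  q j := QuotientGroup.mk' (d.N j)
  surj j := QuotientGroup.mk'_surjective _
  G j := grOf (uh d.ι) (d.N j) (d.direct j) (d.foel j) d.gen'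
  u_mem j h := u_mem_cl _ h
  π i j := piOf d.N i j
  π_q i j hij h := piOf_mk d.N (d.anti hij) h
  pr i j hij := prOf d.N (uh d.ι) (d.anti hij) _ _ _ _ _
  o j := logOf (d.lo j)
  mono i j hij a b h := by
    obtain ⟨x, rfl⟩ := QuotientGroup.mk_surjective a
    obtain ⟨y, rfl⟩ := QuotientGroup.mk_surjective b
    rw [piOf_mk d.N (d.anti hij), piOf_mk d.N (d.anti hij)] at h
    exact d.mono i j hij x y h
  sep h hh := d.sep h fun j => (QuotientGroup.eq_one_iff h).1 (hh j)

theorem Dat.st_mem (N : Subgroup H) {c : d.D} (hc : c ∈ DN (uh d.ι) N) : d.σ.st c ∈ DN (uh d.ι) N := by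
  have h1 := st_closure' d.σ.st (fun a b => map_add _ a b) d.σ.mul d.σ.inv (uh d.ι '' (N : Set H)) (by
    rintro _ ⟨n, hn, rfl⟩
    rw [d.σ.uh]
    exact Subfield.subset_closure ⟨n⁻¹, N.inv_mem hn, rfl⟩)
  exact h1 c hc

theorem Dat.KH_le {b : d.D} (hb : b ∈ _root_.S14.KH (uh d.ι)) : ∃ a, b = d.ι a := by
  have h1 : _root_.S14.KH (uh d.ι) ≤ d.ι.range := by
    refine Subring.closure_le.2 ?_
    rintro _ ⟨h, rfl⟩
    exact ⟨MonoidAlgebra.single h 1, rfl⟩
  obtain ⟨a, ha⟩ := h1 hb
  exact ⟨a, ha.symm⟩

/-- the levels of the pairing -/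
noncomputable def Dat.lvl (j : ℕ) : Lvl d.ι d.σ (d.N j) where
  DN := DN (uh d.ι) (d.N j)
  st_mem c hc := d.st_mem _ hc
  conj_mem c hc h := by
    rw [u_inv]
    exact conj_DN _ h hc
  co := _root_.S14.coef (d.tow.G j) (d.tow.o j)
  cop := _root_.S14.coef (d.tow.G j) (d.tow.o j).rev
  co_mul q b c hc := _root_.S14.coef_mul _ _ q b ((mem_cl_one _).2 hc)
  cop_mul q b c hc := _root_.S14.coef_mul _ _ q b ((mem_cl_one _).2 hc)
  co_uh h q b := _root_.S14.coef_hom _ _ (u_mem_cl (uh d.ι) h) q b
  cop_uh h q b := _root_.S14.coef_hom _ _ (u_mem_cl (uh d.ι) h) q b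
  co_self c hc h := _root_.S14.coef_self _ _ (mul_u_mem_cl (uh d.ι) hc h)
  cop_self c hc h := _root_.S14.coef_self _ _ (mul_u_mem_cl (uh d.ι) hc h)
  co_ne c hc h q hq := _root_.S14.coef_ne _ _ (mul_u_mem_cl (uh d.ι) hc h) hq
  cop_ne c hc h q hq := _root_.S14.coef_ne _ _ (mul_u_mem_cl (uh d.ι) hc h) hq
  fin a b := _root_.S14.coef_fin _ _ a b
  Fine := d.tow.Fine j ⊓ d.tow.rev.Fine j
  uh_mem h := Subring.mem_inf.2 ⟨d.tow.u_fine j h, d.tow.rev.u_fine j h⟩
  fine_co b hb q := d.KH_le (d.tow.coef_fine (Subring.mem_inf.1 hb).1 q)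
  fine_cop b hb q := d.KH_le (d.tow.rev.coef_fine (Subring.mem_inf.1 hb).2 q)

theorem Dat.two : (2 : d.D) = 0 := by
  have h1 : (2 : ZMod 2) = 0 := by decide
  have h2 := congrArg (algebraMap (ZMod 2) d.D) h1
  rwa [map_ofNat, map_zero] at h2

theorem Dat.gen'' (S : Subring d.D) (h : ∀ h, uh d.ι h ∈ S) (hinv : ∀ x ∈ S, x⁻¹ ∈ S) : S = ⊤ := by
  let E : Subfield d.D := { S with inv_mem' := hinv }
  have h1 : (⊤ : Subfield d.D) ≤ E := by
    rw [← d.gen']
    refine Subfield.closure_le.2 ?_
    rintro _ ⟨x, rfl⟩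
    exact h x
  refine eq_top_iff.2 fun x _ => ?_
  exact h1 (Subfield.mem_top x)

/-- every finite set is fine at some level -/
theorem Dat.exists_level (F : Finset d.D) : ∃ j, ∀ a ∈ F, a ∈ (d.lvl j).Fine := by
  classical
  induction F using Finset.induction_on with
  | empty => exact ⟨0, fun a ha => absurd ha (Finset.notMem_empty a)⟩
  | insert b F _ ih =>
    obtain ⟨j, hj⟩ := ih
    obtain ⟨k, hk⟩ := d.tow.exists_fine d.two d.gen'' b
    obtain ⟨l, hl⟩ := d.tow.rev.exists_fine d.two d.gen'' b
    refine ⟨max j (max k l), fun a ha => ?_⟩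
    rcases Finset.mem_insert.1 ha with rfl | ha
    · exact Subring.mem_inf.2 ⟨d.tow.fine_mono ((le_max_left k l).trans (le_max_right _ _)) hk,
        d.tow.rev.fine_mono ((le_max_right k l).trans (le_max_right _ _)) hl⟩
    · obtain ⟨h1, h2⟩ := Subring.mem_inf.1 (hj a ha)
      exact Subring.mem_inf.2 ⟨d.tow.fine_mono (le_max_left _ _) h1, d.tow.rev.fine_mono (le_max_left _ _) h2⟩

theorem Dat.SS_of_SD (j : ℕ) {a : d.D} (ha : a ∈ SD (uh d.ι) (⊤ : Subgroup (H ⧸ d.N j))) : a ∈ (d.lvl j).SS := by
  obtain ⟨s, hs, -, rfl⟩ := (mem_SD _).1 ha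
  refine AddSubgroup.sum_mem _ fun q _ => AddSubgroup.subset_closure ?_
  obtain ⟨x, rfl⟩ := QuotientGroup.mk_surjective q
  obtain ⟨c, hc, h1⟩ := exists_mem_DN _ (hs x)
  exact ⟨c, hc, x, h1⟩

/-- levels for finite sets -/
theorem Dat.frac : Frac d.σ := by
  intro F
  obtain ⟨j, hj⟩ := d.exists_level F
  have h1 : Fol (⊤ : Subgroup (H ⧸ d.N j)) :=
    (Foel.comap (f := (⊤ : Subgroup (H ⧸ d.N j)).subtype) Subtype.val_injective (d.foel j)).fol
  obtain ⟨s, hs, hs0, hsF⟩ := common_left (lore_SD (uh d.ι) (d.direct j) ⊤ h1) F fun a _ =>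
    exists_frac (uh d.ι) (d.direct j) ⊤ h1 (by
      have h3 : DN (uh d.ι) ((⊤ : Subgroup (H ⧸ d.N j)).comap (QuotientGroup.mk' (d.N j))) = ⊤ := by
        unfold DN
        rw [Subgroup.comap_top, Subgroup.coe_top, Set.image_univ, d.gen']
      rw [h3]
      exact Subfield.mem_top a)
  exact ⟨d.N j, inferInstance, d.lvl j, hj, s, d.SS_of_SD j hs, hs0, fun a ha => d.SS_of_SD j (hsF a ha)⟩

/-- **Flatness** -/
theorem Dat.flat : Flat ((lft d.ι).tprod (lft d.ι)) := d.frac.flat d.inj

/-- **The package** -/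
theorem Dat.exists_lpack (d : Dat H) : Nonempty (LPack H) :=
  ⟨{ D := d.D, div := d.div, alg := d.alg, ι := d.ι, flat := d.flat, l2 := l2P_of_foel d.ι d.appr }⟩

end

end Pool.Agent.S14

end

section

/-!
# Project S14: the approximation property in the ultraproduct

PROOF: independent rows over the division subring `D` have a right inverse over `D`, so over the ultraproduct; the entries are
sequences and the identity `A B = 1` holds over `F j` for almost all `j`; `T` is finite, so it injects into `H ⧸ N j` for almost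
all `j`; `v_j` is injective.
-/

set_option autoImplicit false
set_option linter.unusedSectionVars false

namespace Pool.Agent.S14

variable {H : Type} [Group H] (C : Chn H) (Fr : ∀ j, Frc (H ⧸ C.N j))

/-- **The approximation property** for a division ring `D` between `K[H]` and the ultraproduct -/
theorem appr_of_up {D : Type} [DivisionRing D] (ι : MonoidAlgebra (ZMod 2) H →+* D) (e : D →+* Up fun j => (Fr j).F)
    (he : ∀ a, e (ι a) = vU C Fr a) : FoelAppr ι := by
  refine foelAppr_of (κ := e) (Q := fun j => H ⧸ C.N j) (F := fun j => (Fr j).F)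
    (ψ := fun j => QuotientGroup.mk' (C.N j)) (v := fun j => (Fr j).v) (mk := Up.mk _)
    (l := (Filter.hyperfilter ℕ : Filter ℕ)) (fun j => (Fr j).inj) Up.mk_surj (fun a ha => ?_) (fun x => ?_) (fun x hx => ?_)
    C.foel
  · rw [← map_zero (Up.mk fun j => (Fr j).F), Up.mk_eq_iff] at ha
    exact ha
  · rw [he]
    rfl
  · obtain ⟨j₀, hj₀⟩ : ∃ j, x ∉ C.N j := by
      by_contra hc
      push Not at hc
      exact hx (C.sep x hc)
    have h1 : ∀ᶠ j in Filter.atTop, QuotientGroup.mk' (C.N j) x ≠ 1 := by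
      filter_upwards [Filter.eventually_ge_atTop j₀] with j hj hc
      exact hj₀ (C.anti j₀ j hj ((QuotientGroup.eq_one_iff x).1 hc))
    have h2 : (Filter.hyperfilter ℕ : Filter ℕ) ≤ Filter.atTop := by
      rw [← Nat.cofinite_eq_atTop]
      exact Filter.hyperfilter_le_cofinite
    exact h2 h1

end Pool.Agent.S14

end

section

/-!
# Project S14: the data exist
-/

set_option autoImplicit false
set_option linter.unusedSectionVars false

namespace Pool.Agent.S14

section

variable {U : Type} [DivisionRing U] {s : U → U} (s_add : ∀ a b, s (a + b) = s a + s b)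
  (s_mul : ∀ a b, s (a * b) = s b * s a) (s_s : ∀ a, s (s a) = a)

include s_add in
theorem st_zero : s 0 = 0 := by
  have h := s_add 0 0
  rw [add_zero] at h
  exact (left_eq_add.1 h)

include s_add in
theorem st_neg (a : U) : s (-a) = -s a := by
  have h := s_add a (-a)
  rw [add_neg_cancel, st_zero s_add] at h
  exact (neg_eq_of_add_eq_zero_right h.symm).symm

include s_mul s_s in
theorem st_one : s 1 = 1 := by
  have h := s_mul (s 1) 1
  rw [s_s, mul_one, s_s] at h
  exact h.symm

include s_add s_mul s_s in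
theorem st_inv (a : U) : s a⁻¹ = (s a)⁻¹ := by
  by_cases h : a = 0
  · rw [h, inv_zero, st_zero s_add, inv_zero]
  · have h1 := s_mul a a⁻¹
    rw [mul_inv_cancel₀ h, st_one s_mul s_s] at h1
    exact eq_inv_of_mul_eq_one_left h1.symm

end

/-- **The data** -/
theorem exists_datC {H : Type} [Group H] (C : Chn H) : ∃ d : DatC H, d.toChn = C := by
  classical
  have hF : ∀ j, Nonempty (Frc (H ⧸ C.N j)) := fun j => by
    let _ := C.lo j
    exact exists_frc (C.foel j)
  let Fr : ∀ j, Frc (H ⧸ C.N j) := fun j => (hF j).some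
  obtain ⟨s, hs, s_add, s_mul, s_s⟩ := Up.exists_st (F := fun j => (Fr j).F) (fun j => (Fr j).st)
    (fun j => (Fr j).st_add) (fun j => (Fr j).st_mul) (fun j => (Fr j).st_st)
  have s_un : ∀ h : H, s (un (vU C Fr) h) = un (vU C Fr) h⁻¹ := fun h => by
    unfold un
    rw [vU_apply, hs, vU_apply]
    congr 1
    funext j
    rw [red_single, red_single, (Fr j).st_un]
    rfl
  let D : Subfield (Up fun j => (Fr j).F) := Subfield.closure (Set.range (un (vU C Fr)))
  have hv : ∀ a, vU C Fr a ∈ D := by
    intro a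
    induction a using MonoidAlgebra.induction_linear with
    | zero => rw [map_zero]; exact D.zero_mem
    | add a b ha hb => rw [map_add]; exact D.add_mem ha hb
    | single h r =>
      have hr : r = 0 ∨ r = 1 := by
        revert r
        decide
      rcases hr with rfl | rfl
      · rw [MonoidAlgebra.single_zero, map_zero]
        exact D.zero_mem
      · exact Subfield.subset_closure ⟨h, rfl⟩
  let ι : MonoidAlgebra (ZMod 2) H →+* D := (vU C Fr).codRestrict D hv
  have hι : ∀ a, ((ι a : D) : Up fun j => (Fr j).F) = vU C Fr a := fun a => rfl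
  have s_mem : ∀ x ∈ D, s x ∈ D := by
    intro x hx
    refine Subfield.closure_induction (p := fun x _ => s x ∈ D) ?_ ?_ ?_ ?_ ?_ ?_ hx
    · rintro _ ⟨h, rfl⟩
      rw [s_un]
      exact Subfield.subset_closure ⟨h⁻¹, rfl⟩
    · rw [st_one s_mul s_s]
      exact D.one_mem
    · intro x y _ _ h h'
      rw [s_add]
      exact D.add_mem h h'
    · intro x _ h
      rw [st_neg s_add]
      exact D.neg_mem h
    · intro x _ h
      rw [st_inv s_add s_mul s_s]
      exact D.inv_mem h
    · intro x y _ _ h h'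
      rw [s_mul]
      exact D.mul_mem h' h
  have hmap : ∀ S : Set H, (Subfield.closure (un ι '' S)).map D.subtype = Subfield.closure (un (vU C Fr) '' S) := by
    intro S
    rw [RingHom.map_field_closure, ← Set.image_comp]
    rfl
  refine ⟨{ toChn := C
            D := D
            div := inferInstance
            alg := (ι.comp MonoidAlgebra.singleOneRingHom).toAlgebra' fun c x => ?_
            ι := ι
            inj := fun a b hab => vU_injective C Fr (by rw [← hι, ← hι, hab])
            gen := ?_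
            st := fun x => ⟨s x, s_mem x x.2⟩
            st_add := fun a b => Subtype.ext (s_add a b)
            st_mul := fun a b => Subtype.ext (s_mul a b)
            st_st := fun a => Subtype.ext (s_s a)
            st_un := fun h => Subtype.ext (s_un h)
            dir := ?_
            appr := appr_of_up C Fr ι D.subtype fun a => rfl }, rfl⟩
  · have hc : c = 0 ∨ c = 1 := by
      revert c
      decide
    rcases hc with rfl | rfl
    · rw [map_zero, zero_mul, mul_zero]
    · rw [map_one, one_mul, mul_one]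
  · refine eq_top_iff.2 fun x _ => ?_
    have h1 : (x : Up fun j => (Fr j).F) ∈ (Subfield.closure (un ι '' Set.univ)).map D.subtype := by
      rw [hmap, Set.image_univ]
      exact x.2
    obtain ⟨y, hy, hxy⟩ := h1
    rw [Set.image_univ] at hy
    rwa [← show y = x from Subtype.ext hxy]
  · intro i n h c hij hc hsum k
    refine Subtype.ext (dirU C Fr (fun i j hij => dir_of_foel (Fr j).v (Fr j).inj (C.foel j) _) i n h
      (fun k => (c k : Up fun j => (Fr j).F)) hij (fun k => ?_) ?_ k)
    · have h1 : (c k : Up fun j => (Fr j).F) ∈ (DC ι (C.N i)).map D.subtype := ⟨c k, hc k, rfl⟩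
      unfold DC at h1
      rw [hmap] at h1
      exact h1
    · have h2 := congrArg (fun x : D => (x : Up fun j => (Fr j).F)) hsum
      simp only [D.coe_zero] at h2
      rw [← h2]
      push_cast
      rfl

end Pool.Agent.S14

end

section

/-!
# Project S14: the data exist, in the form which is used by the flatness block
-/

set_option autoImplicit false
set_option linter.unusedSectionVars false

namespace Pool.Agent.S14

/-- the two forms of the independence of the cosets -/
theorem direct_of_dir {H D : Type} [Group H] [DivisionRing D] {ι : MonoidAlgebra (ZMod 2) H →+* D} {N : Subgroup H}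
    [hN : N.Normal] (h : Dir ι N) : Direct (uh ι) N := by
  classical
  intro s hs hsum
  let e := s.support.equivFin
  have key := h s.support.card (fun i => ((e.symm i : H ⧸ N)).out)
    (fun i => s (e.symm i) * (uh ι ((e.symm i : H ⧸ N)).out)⁻¹) ?_ ?_ ?_
  · refine Finsupp.ext fun q => ?_
    by_contra hq
    have hq' : q ∈ s.support := Finsupp.mem_support_iff.2 hq
    have h1 := key (e ⟨q, hq'⟩)
    rw [Equiv.symm_apply_apply] at h1
    rcases mul_eq_zero.1 h1 with h2 | h2
    · exact hq h2
    · exact u_ne (uh ι) _ (inv_eq_zero.1 h2)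
  · intro i j hij hmem
    refine hij (e.symm.injective (Subtype.ext ?_))
    rw [← QuotientGroup.out_eq' (e.symm i : H ⧸ N), ← QuotientGroup.out_eq' (e.symm j : H ⧸ N)]
    refine (QuotientGroup.eq.2 ?_).symm
    exact hN.mem_comm hmem
  · intro i
    exact hs _ _ (QuotientGroup.out_eq' _)
  · have h1 : (s.sum fun _ a => a) = ∑ i : Fin s.support.card, s (e.symm i) := by
      rw [Finsupp.sum, ← Finset.sum_coe_sort]
      exact (Equiv.sum_comp e.symm fun q : s.support => s q).symm
    rw [← hsum, h1]
    refine Finset.sum_congr rfl fun i _ => ?_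
    show s (e.symm i) * (uh ι ((e.symm i : H ⧸ N)).out)⁻¹ * uh ι ((e.symm i : H ⧸ N)).out = s (e.symm i)
    rw [mul_assoc, inv_mul_cancel₀ (u_ne (uh ι) _), mul_one]

/-- **The data** -/
theorem exists_dat {H : Type} [Group H] (C : Chn H) : Nonempty (Dat H) := by
  obtain ⟨d, -⟩ := exists_datC C
  exact ⟨{ D := d.D
           div := d.div
           alg := d.alg
           ι := d.ι
           inj := d.inj
           σ := { st := AddMonoidHom.mk' d.st d.st_add
                  mul := d.st_mul
                  inv := d.st_st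
                  uh := d.st_un }
           gen := d.gen
           N := d.N
           nor := d.nor
           anti := fun i j hij => d.anti i j hij
           sep := d.sep
           lo := d.lo
           mono := d.mono
           foel := d.foel
           direct := fun j => direct_of_dir (d.dir j)
           appr := d.appr }⟩

end Pool.Agent.S14

end

section

/-!
# Project S14: the division ring of a countable residually (amenable and left-orderable) group
-/

set_option autoImplicit false

namespace Pool.Agent.S14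

/-- **The division ring** -/
theorem RAL.exists_lpack {H : Type} [Group H] [Countable H] (h : RAL H) : ∃ _ : LO H, Nonempty (LPack H) := by
  obtain ⟨lo, ⟨C⟩⟩ := exists_chn h
  obtain ⟨d⟩ := exists_dat C
  exact ⟨lo, d.exists_lpack⟩

end Pool.Agent.S14

end

section

/-!
# Project S11: finite index bookkeeping

`IsGeomS G X`: a proper cocompact simplicial action on the simplicial complex `X`.
-/

set_option autoImplicit false
set_option linter.unusedSectionVars false

open Finset Pointwise

namespace Pool.Agent.S11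

open Pool.Agent.H37.TM Pool.Agent.H65.RM Pool.Agent.S10

section

variable {V U G : Type} [DecidableEq V] [DecidableEq U] [Group G] [MulAction G V] {X : Set (Finset V)}

theorem IsGeomS.sub (hG : IsGeomS G X) (P : Subgroup G) [hP : P.FiniteIndex] : IsGeomS P X where
  ne := hG.ne
  down := hG.down
  mem g s hs := hG.mem (g : G) s hs
  proper s hs := by
    refine Set.Finite.of_finite_image ((hG.proper s hs).subset ?_) (f := fun g : P => (g : G)) Subtype.val_injective.injOn
    rintro _ ⟨g, hg, rfl⟩
    exact hg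
  cocompact := by
    classical
    obtain ⟨F, hF⟩ := hG.cocompact
    have hfin : Finite (G ⧸ P) := inferInstance
    let _ : Fintype (G ⧸ P) := Fintype.ofFinite _
    -- representatives of the left cosets
    refine ⟨(univ : Finset (G ⧸ P)).biUnion fun c => F.image fun t => (c.out : G)⁻¹ • t, fun s hs => ?_⟩
    obtain ⟨g, hg⟩ := hF s hs
    -- `g = o * p` with `o = out (g P)`
    set o : G := (QuotientGroup.mk g : G ⧸ P).out with ho
    have hp : o⁻¹ * g ∈ P := by
      rw [← QuotientGroup.eq]
      exact Quotient.out_eq' _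
    refine ⟨⟨o⁻¹ * g, hp⟩, ?_⟩
    rw [mem_biUnion]
    refine ⟨QuotientGroup.mk g, mem_univ _, mem_image.2 ⟨g • s, hg, ?_⟩⟩
    change o⁻¹ • (g • s) = (o⁻¹ * g) • s
    rw [mul_smul]

/-- an element with finitely many powers is trivial -/
theorem eq_one_of_finite {H : Type} [Group H] (tf : ∀ (g : H) (k : ℕ), 0 < k → g ^ k = 1 → g = 1) {g : H} {S : Set H}
    (hS : S.Finite) (h : ∀ k : ℕ, g ^ k ∈ S) : g = 1 := by
  obtain ⟨a, -, b, -, hab, heq⟩ := Set.infinite_univ.exists_ne_map_eq_of_mapsTo (fun k _ => h k) hS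
  wlog hlt : a < b generalizing a b
  · exact this b a hab.symm heq.symm (lt_of_le_of_ne (not_lt.1 hlt) hab.symm)
  refine tf g (b - a) (by omega) ?_
  have h1 : g ^ b = g ^ a * g ^ (b - a) := by rw [← pow_add]; congr 1; omega
  rw [h1] at heq
  exact (mul_eq_left.1 heq.symm)

/-- torsion free groups act freely -/
theorem IsGeomS.freeX (hG : IsGeomS G X) (tf : ∀ (g : G) (k : ℕ), 0 < k → g ^ k = 1 → g = 1) : FreeX G X where
  ne := hG.ne
  down := hG.down
  mem := hG.mem
  free g s hs h := by
    refine eq_one_of_finite tf (hG.proper s hs) (g := g) fun k => ?_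
    induction k with
    | zero => exact (by rw [pow_zero]; exact one_smul G s)
    | succ k ih =>
      change g ^ (k + 1) • s = s
      rw [pow_succ, mul_smul, h]
      exact ih
  fin := hG.cocompact

variable [MulAction G U] {K B : Set (Finset U)} {n d : ℕ}

theorem scx_of (tf : ∀ (g : G) (k : ℕ), 0 < k → g ^ k = 1 → g = 1) (hM : ManOrDual G K B n d) (hA : PAct G K B) :
    SCx G K B where
  ne := hM.ne
  down := hM.down
  bd_sub := by
    rcases hM with h | ⟨mu, h, -⟩
    · exact h.1.bd_sub
    · exact h.bd_sub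
  bd_down := by
    rcases hM with h | ⟨mu, h, -⟩
    · exact h.1.bd_down
    · exact h.bd_down
  locfin := by
    rcases hM with h | ⟨mu, h, -⟩
    · exact h.1.locfin
    · exact h.locfin
  K_mem := hA.K_mem
  B_mem := hA.B_mem
  free g s hs h := by
    obtain ⟨u, hu⟩ := hM.ne s hs
    have hu' : {u} ∈ K := hM.down s hs _ (singleton_subset_iff.2 hu) (singleton_nonempty u)
    have hfin : (⋃ w ∈ s, {g : G | g • u = w}).Finite := s.finite_toSet.biUnion fun w _ => hA.proper u w hu'
    have hk : ∀ k : ℕ, g ^ k • s = s := by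
      intro k
      induction k with
      | zero => rw [pow_zero, one_smul]
      | succ k ih => rw [pow_succ, mul_smul, h, ih]
    refine eq_one_of_finite tf hfin (g := g) fun k => ?_
    simp only [Set.mem_iUnion, Set.mem_setOf_eq]
    refine ⟨g ^ k • u, ?_, rfl⟩
    rw [← hk k]
    exact smul_mem_smul_finset hu

end

end Pool.Agent.S11

end

section

/-!
# Project S14, block END: the vanishing of the reduced `ℓ²`-homology

`end_l2`: a left-ordered group `H` with a division ring `LPack H` acts freely and cocompactly on the acyclic simplicial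
complex `X`, and properly on an acyclic homology manifold or duality pair of dimension `n`: the reduced `ℓ²`-homology of
`X` vanishes in the degrees greater than `n / 2`.  (Copy of `S11/Ed` for `LPack`.)
-/

set_option autoImplicit false
set_option linter.unusedSectionVars false

open Finset Pointwise

namespace Pool.Agent.S14

open Pool.Agent.H37.TM Pool.Agent.H65.RM Pool.Agent.S10 Pool.Agent.S11

section

variable {H V U : Type} [Group H] [DecidableEq V] [MulAction H V] [DecidableEq U] [MulAction H U]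
  {X : Set (Finset V)} {K B : Set (Finset U)} {n : ℕ}

/-- the duality data -/
theorem dual_of (h : ManOrDual H K B n (n + 1)) (hA : PAct H K B) :
    ∃ mu, Dual K B mu n (n + 1) ∧ ∀ (g : H) (s : Finset U), s ∈ mu → g • s ∈ mu := by
  rcases h with ⟨h1, h2⟩ | h
  · refine ⟨_, dual_of_mfd h1 h2, ?_⟩
    rintro g s ⟨h3, h4, h5⟩
    refine ⟨hA.K_mem g s h3, fun h6 => h4 ?_, by rw [Finset.card_smul_finset, h5]⟩
    have h7 := hA.B_mem g⁻¹ _ h6
    rwa [inv_smul_smul] at h7
  · exact h

/-- the complex `X` with the free action -/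
theorem scx_of_freeX (hX : FreeX H X) : SCx H X ∅ :=
  ⟨hX.ne, hX.down, Set.empty_subset _, fun s hs => absurd hs (Set.notMem_empty s), fun s hs => cofaces_finite hX hs,
    fun g s hs => hX.mem g s hs, fun g s hs => absurd hs (Set.notMem_empty s), fun g s hs => hX.free g s hs⟩

/-- the cohomology with coefficients in the division ring -/
theorem exactAt_lft [LO H] (P : LPack H) (hM : ManOrDual H K B n (n + 1)) (hA : PAct H K B) {j : ℕ} (hj : 2 * j < n) :
    ExactAt K B (lft P.ι) j := by
  obtain ⟨mu, hD, -⟩ := dual_of hM hA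
  have hK : SCx H K B := scx_of (fun g k hk h => LO.tf hk h) hM hA
  refine squareLO hK (lft P.ι) j fun q hq => exactAt_of_flat hK P.flat q ?_
  exact hD.low q (by omega) (by omega)

/-- **The vanishing of the reduced `ℓ²`-homology.** -/
theorem end_l2 [LO H] (P : LPack H) (hX : FreeX H X) (hac : Acyc X)
    (hM : ManOrDual H K B n (n + 1)) (hA : PAct H K B) {i : ℕ} (hi : n < 2 * i) : L2ZeroS X i := by
  have hK : SCx H K B := scx_of (fun g k hk h => LO.tf hk h) hM hA
  have hXs := scx_of_freeX hX
  obtain ⟨F, G, h, hC⟩ := exists_chmaps hXs hac hK hM hA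
  have hE : ∀ j, i + j = n → ExactAt K B (lft P.ι) j := fun j hj => exactAt_lft P hM hA (by omega)
  have hex : ExactBd X (lft P.ι) (i + 1) := exactBd_of_chmaps hXs hK hC (lft P.ι) i hE
  obtain ⟨r, hr, hrT⟩ := exists_rel (H := H) X hX.down (fun g s hs => hX.mem g s hs) (fun g s hs => hX.free g s hs)
  have hT : Tot X r := by
    intro s hs u hu v hv huv
    obtain ⟨h1, h2, h3⟩ := hrT s hs
    refine ⟨?_, fun w hw => h2 u hu v hv w hw⟩
    rcases h3 u hu v hv huv with h4 | h4
    · exact Or.inl ⟨h4, fun h5 => h1 u hu (h2 u hu v hv u hu h4 h5)⟩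
    · exact Or.inr ⟨h4, fun h5 => h1 u hu (h2 u hu v hv u hu h5 h4)⟩
  obtain ⟨a, R, hR0⟩ := exists_rps hX i
  obtain ⟨b, R', hR1⟩ := exists_rps hX (i + 1)
  obtain ⟨c, R'', hR2⟩ := exists_rps hX (i + 2)
  have hmul := mtx_mul hX hT hr hR0 hR1 hR2
  have hm : ∀ y : Fin b → P.D, ((mod2 (mtx H r R R')).map P.ι).mulVec y = 0 →
      ∃ z : Fin c → P.D, ((mod2 (mtx H r R' R'')).map P.ι).mulVec z = y := fun y hy =>
    mtx_exact hX P.ι hR0 hR1 hR2 hex y hy
  have hharm : ∀ z, IsL2Ch X (i + 1) z → (∀ s ∈ X, bdR r z s = 0) → IsCoc X r z → z = 0 := fun z hz hz0 hz1 =>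
    harm_zero hX hT hr hR0 hR1 hR2 (fun x hx h1 h2 => P.l2 _ _ _ _ _ hmul hm x hx h1 h2) z hz hz0 hz1
  intro r' hr' z hz hz0 ε hε
  have hT' : Tot X r' := tot_of_order hr'
  exact l2_hil hX.ne hX.down (fun s hs => cofaces_finite hX hs) hT' i
    (harm_order hX.down hT hT' (i + 1) hharm) z hz hz0 ε hε

end

end Pool.Agent.S14

end

section

/-!
# Project S14: the theorem for groups with a residually (amenable and left-orderable) subgroup of finite index
-/

set_option autoImplicit false
set_option linter.unusedSectionVars false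

open Finset Pointwise

namespace Pool.Agent.S14

open Pool.Agent.H37.TM Pool.Agent.H65.RM Pool.Agent.S10 Pool.Agent.S11

section

variable {V U : Type} [DecidableEq V] [DecidableEq U]

/-- the theorem for groups with a residually (amenable and left-orderable) subgroup of finite index, if the whole group
acts on both spaces -/
theorem main_RAL {P : Type} [Group P] [MulAction P V] [MulAction P U] {X : Set (Finset V)} (hG : IsGeomS P X)
    (hac : Acyc X) (J : Subgroup P) [hJ : J.FiniteIndex] (hU : RAL J) {M B : Set (Finset U)} {n : ℕ}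
    (hM : ManOrDual P M B n (n + 1)) (hA : PAct P M B) (i : ℕ) (hn : n < 2 * i) : L2ZeroS X i := by
  have hGJ : IsGeomS J X := hG.sub J
  have : Countable J := countable_of_geom hGJ hac
  obtain ⟨lo, ⟨D⟩⟩ := hU.exists_lpack
  exact end_l2 D (hGJ.freeX fun g k hk h => LO.tf hk h) hac (hM.sub J) (PAct.sub hA J) hn

/-- **The theorem.** -/
theorem s14 {G : Type} [Group G] [MulAction G V] {X : Set (Finset V)} (hX : Acyc X) (hG : IsGeomS G X)
    (H : Subgroup G) (hH : H.FiniteIndex) (hU : RAL H)
    (P : Subgroup G) (hP : P.FiniteIndex) [MulAction P U] {M B : Set (Finset U)} {n : ℕ}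
    (hM : ManOrDual P M B n (n + 1)) (hA : PAct P M B) (i : ℕ) (hn : n < 2 * i) : L2ZeroS X i := by
  have hJ : (H.subgroupOf P).FiniteIndex := inferInstance
  have hUJ : RAL (H.subgroupOf P) :=
    RAL.comap (f := ({ toFun := fun x => ⟨((x : P) : G), Subgroup.mem_subgroupOf.1 x.2⟩
                       map_one' := rfl
                       map_mul' := fun _ _ => rfl } : (H.subgroupOf P) →* H)) (by
        intro x y hxy
        apply Subtype.ext
        apply Subtype.ext
        exact congrArg (fun z : H => (z : G)) hxy) hU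
  exact main_RAL (hG.sub P) hX (H.subgroupOf P) hUJ hM hA i hn

end

end Pool.Agent.S14

end
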